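import Pool.Agent.Lib_helper60.HSF.D_Defs

/-!
# Part A, block CA: the calculus of `Near`, `Lip`, `Reg`
-/

namespace Pool.Agent.HS

noncomputable section

open Set Filter Topology

section CA
variable {α β : Type*} [PseudoMetricSpace α] [PseudoMetricSpace β]
variable {E F H : Type*} [NormedAddCommGroup E] [NormedAddCommGroup F] [NormedAddCommGroup H]

theorem near_mono_pr {ε ε' : ℝ} {f g : α → E} {S S' : Set α} (h : Near ε f g S) (hε : ε ≤ ε')
    (hS : S' ⊆ S) : Near ε' f g S' :=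
  ⟨fun p hp => (h.1 p (hS hp)).trans hε, fun p hp q hq => (h.2 p (hS hp) q (hS hq)).trans
    (mul_le_mul_of_nonneg_right hε dist_nonneg)⟩

theorem near_symm_pr {ε : ℝ} {f g : α → E} {S : Set α} (h : Near ε f g S) : Near ε g f S := by
  refine ⟨fun p hp => ?_, fun p hp q hq => ?_⟩
  · rw [norm_sub_rev]
    exact h.1 p hp
  · have h1 : (g p - f p) - (g q - f q) = -((f p - g p) - (f q - g q)) := by abel
    rw [h1, norm_neg]
    exact h.2 p hp q hq

theorem near_trans_pr {ε ε' : ℝ} {f g k : α → E} {S : Set α} (h : Near ε f g S)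
    (h' : Near ε' g k S) : Near (ε + ε') f k S := by
  refine ⟨fun p hp => ?_, fun p hp q hq => ?_⟩
  · have h1 : f p - k p = (f p - g p) + (g p - k p) := by abel
    rw [h1]
    exact (norm_add_le _ _).trans (add_le_add (h.1 p hp) (h'.1 p hp))
  · have h1 : (f p - k p) - (f q - k q) =
        ((f p - g p) - (f q - g q)) + ((g p - k p) - (g q - k q)) := by abel
    rw [h1, add_mul]
    exact (norm_add_le _ _).trans (add_le_add (h.2 p hp q hq) (h'.2 p hp q hq))

theorem near_add_pr {ε ε' : ℝ} {f g f' g' : α → E} {S : Set α} (h : Near ε f g S)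
    (h' : Near ε' f' g' S) : Near (ε + ε') (fun p => f p + f' p) (fun p => g p + g' p) S := by
  refine ⟨fun p hp => ?_, fun p hp q hq => ?_⟩
  · have h1 : (f p + f' p) - (g p + g' p) = (f p - g p) + (f' p - g' p) := by abel
    rw [h1]
    exact (norm_add_le _ _).trans (add_le_add (h.1 p hp) (h'.1 p hp))
  · have h1 : ((f p + f' p) - (g p + g' p)) - ((f q + f' q) - (g q + g' q)) =
        ((f p - g p) - (f q - g q)) + ((f' p - g' p) - (f' q - g' q)) := by abel
    rw [h1, add_mul]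
    exact (norm_add_le _ _).trans (add_le_add (h.2 p hp q hq) (h'.2 p hp q hq))

theorem near_prod_pr {ε : ℝ} {f g : α → E} {f' g' : α → F} {S : Set α} (h : Near ε f g S)
    (h' : Near ε f' g' S) : Near ε (fun p => (f p, f' p)) (fun p => (g p, g' p)) S :=
  ⟨fun p hp => max_le (h.1 p hp) (h'.1 p hp), fun p hp q hq => max_le (h.2 p hp q hq)
    (h'.2 p hp q hq)⟩

theorem near_fst_pr {ε : ℝ} {f g : α → E × F} {S : Set α} (h : Near ε f g S) :
    Near ε (fun p => (f p).1) (fun p => (g p).1) S :=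
  ⟨fun p hp => (norm_fst_le (f p - g p)).trans (h.1 p hp),
    fun p hp q hq => (norm_fst_le ((f p - g p) - (f q - g q))).trans (h.2 p hp q hq)⟩

theorem near_snd_pr {ε : ℝ} {f g : α → E × F} {S : Set α} (h : Near ε f g S) :
    Near ε (fun p => (f p).2) (fun p => (g p).2) S :=
  ⟨fun p hp => (norm_snd_le (f p - g p)).trans (h.1 p hp),
    fun p hp q hq => (norm_snd_le ((f p - g p) - (f q - g q))).trans (h.2 p hp q hq)⟩

/-- precomposition with a Lipschitz map -/
theorem near_comp_inner_pr {ε Λ : ℝ} {f g : α → E} {S : Set α} {h : β → α} {T : Set β}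
    (hn : Near ε f g S) (hm : MapsTo h T S)
    (hL : ∀ p ∈ T, ∀ q ∈ T, dist (h p) (h q) ≤ Λ * dist p q) (hΛ : 1 ≤ Λ) (hε : 0 ≤ ε) :
    Near (ε * Λ) (f ∘ h) (g ∘ h) T := by
  refine ⟨fun p hp => ?_, fun p hp q hq => ?_⟩
  · exact (hn.1 _ (hm hp)).trans (le_mul_of_one_le_right hε hΛ)
  · refine (hn.2 _ (hm hp) _ (hm hq)).trans ?_
    rw [mul_assoc]
    exact mul_le_mul_of_nonneg_left (hL p hp q hq) hε

/-- postcomposition with a map of class `Reg` -/
theorem near_comp_outer_pr {ε Λ L : ℝ} {f g : α → E} {S : Set α} {K : E → F} {S' : Set E}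
    (hn : Near ε f g S) (hf : MapsTo f S S') (hg : MapsTo g S S')
    (hLf : Lip Λ f S) (hLg : Lip Λ g S) (hK : Reg L K S') (hL : 0 ≤ L) (hε : 0 ≤ ε) (hΛ : 0 ≤ Λ) :
    Near (L * ε * (1 + 2 * Λ)) (K ∘ f) (K ∘ g) S := by
  refine ⟨fun p hp => ?_, fun p hp q hq => ?_⟩
  · have h1 := hK.1 _ (hf hp) _ (hg hp)
    rw [dist_eq_norm] at h1
    refine h1.trans ?_
    have h2 := mul_le_mul_of_nonneg_left (hn.1 p hp) hL
    have h3 : 0 ≤ L * ε * (2 * Λ) := by positivity
    linarith
  · have h1 := hK.2 _ (hf hp) _ (hg hp) _ (hf hq) _ (hg hq)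
    have h2 : (K ∘ f) p - (K ∘ g) p - ((K ∘ f) q - (K ∘ g) q) =
        K (f p) - K (g p) - K (f q) + K (g q) := by
      simp only [Function.comp_apply]
      abel
    rw [h2]
    refine h1.trans ?_
    have h3 : f p - g p - f q + g q = (f p - g p) - (f q - g q) := by abel
    rw [h3]
    have h4 := mul_le_mul_of_nonneg_left (hn.2 p hp q hq) hL
    have h5 : L * (‖f p - f q‖ + ‖g p - g q‖) * ‖f q - g q‖ ≤
        L * (Λ * dist p q + Λ * dist p q) * ε := by
      have e1 := hLf p hp q hq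
      have e2 := hLg p hp q hq
      have e3 := hn.1 q hq
      have e4 : 0 ≤ Λ * dist p q := by positivity
      gcongr
    linarith

/-- both maps perturbed -/
theorem near_comp_pr {ε ε' Λ L : ℝ} {f g : α → E} {S : Set α} {K K0 : E → F} {S' : Set E}
    (hn : Near ε f g S) (hf : MapsTo f S S') (hg : MapsTo g S S')
    (hLf : Lip Λ f S) (hLg : Lip Λ g S) (hK0 : Reg L K0 S') (hK : Near ε' K K0 S')
    (hL : 0 ≤ L) (hε : 0 ≤ ε) (hε' : 0 ≤ ε') (hΛ : 1 ≤ Λ) :
    Near (L * ε * (1 + 2 * Λ) + ε' * Λ) (K ∘ f) (K0 ∘ g) S := by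
  have h1 := near_comp_outer_pr hn hf hg hLf hLg hK0 hL hε (zero_le_one.trans hΛ)
  have h2 := near_comp_inner_pr (T := S) hK hf (fun p hp q hq => by
    rw [dist_eq_norm]
    exact hLf p hp q hq) hΛ hε'
  rw [add_comm]
  exact near_trans_pr h2 h1

theorem lip_of_near_pr {ε L : ℝ} {f g : α → E} {S : Set α} (h : Near ε f g S) (hg : Lip L g S) :
    Lip (L + ε) f S := by
  intro p hp q hq
  have h1 : f p - f q = (g p - g q) + ((f p - g p) - (f q - g q)) := by abel
  rw [h1, add_mul]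
  exact (norm_add_le _ _).trans (add_le_add (hg p hp q hq) (h.2 p hp q hq))

theorem reg_comp_pr {L L' : ℝ} {f : E → F} {g : F → H} {S : Set E} {S' : Set F}
    (hf : Reg L f S) (hg : Reg L' g S') (hm : MapsTo f S S') (hL : 0 ≤ L) (hL' : 0 ≤ L') :
    Reg (L' * (L + L ^ 2)) (g ∘ f) S := by
  refine ⟨fun x hx y hy => ?_, fun x hx y hy x' hx' y' hy' => ?_⟩
  · have h1 := hg.1 _ (hm hx) _ (hm hy)
    rw [dist_eq_norm] at h1
    refine h1.trans ?_
    have h2 := mul_le_mul_of_nonneg_left (hf.1 x hx y hy) hL'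
    have h3 : 0 ≤ L' * L ^ 2 * dist x y := by positivity
    linarith
  · have h1 := hg.2 _ (hm hx) _ (hm hy) _ (hm hx') _ (hm hy')
    refine h1.trans ?_
    have h2 := mul_le_mul_of_nonneg_left (hf.2 x hx y hy x' hx' y' hy') hL'
    have h3 : L' * (‖f x - f x'‖ + ‖f y - f y'‖) * ‖f x' - f y'‖ ≤
        L' * (L * ‖x - x'‖ + L * ‖y - y'‖) * (L * ‖x' - y'‖) := by
      have e1 := hf.1 x hx x' hx'
      have e2 := hf.1 y hy y' hy'
      have e3 := hf.1 x' hx' y' hy'
      rw [dist_eq_norm] at e1 e2 e3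
      have e4 : 0 ≤ L * ‖x - x'‖ + L * ‖y - y'‖ := by positivity
      gcongr
    have h4 : 0 ≤ L' * L ^ 2 * ‖x - y - x' + y'‖ := by positivity
    linarith

theorem reg_prod_pr {L : ℝ} {f : E → F} {g : E → H} {S : Set E} (hf : Reg L f S)
    (hg : Reg L g S) : Reg L (fun x => (f x, g x)) S :=
  ⟨fun x hx y hy => max_le (hf.1 x hx y hy) (hg.1 x hx y hy),
    fun x hx y hy x' hx' y' hy' => max_le (hf.2 x hx y hy x' hx' y' hy')
      (hg.2 x hx y hy x' hx' y' hy')⟩

theorem reg_mono_pr {L L' : ℝ} {f : E → F} {S S' : Set E} (hf : Reg L f S) (h : L ≤ L')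
    (hS : S' ⊆ S) : Reg L' f S' := by
  refine ⟨fun x hx y hy => ?_, fun x hx y hy x' hx' y' hy' => ?_⟩
  · exact (hf.1 x (hS hx) y (hS hy)).trans (mul_le_mul_of_nonneg_right h dist_nonneg)
  · refine (hf.2 x (hS hx) y (hS hy) x' (hS hx') y' (hS hy')).trans ?_
    gcongr

end CA

end

end Pool.Agent.HS

namespace Pool.Agent.HS
open Set Filter Topology

section
variable {α β : Type*} [PseudoMetricSpace α] [PseudoMetricSpace β]
variable {E F H : Type*} [NormedAddCommGroup E] [NormedAddCommGroup F] [NormedAddCommGroup H]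

theorem near_mono {ε ε' : ℝ} {f g : α → E} {S S' : Set α} (h : Near ε f g S) (hε : ε ≤ ε')
    (hS : S' ⊆ S) : Near ε' f g S' :=
  @Pool.Agent.HS.near_mono_pr α _ E _ ε ε' f g S S' h hε hS

end

end Pool.Agent.HS

namespace Pool.Agent.HS
open Set Filter Topology

section
variable {α β : Type*} [PseudoMetricSpace α] [PseudoMetricSpace β]
variable {E F H : Type*} [NormedAddCommGroup E] [NormedAddCommGroup F] [NormedAddCommGroup H]

theorem near_symm {ε : ℝ} {f g : α → E} {S : Set α} (h : Near ε f g S) : Near ε g f S :=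
  @Pool.Agent.HS.near_symm_pr α _ E _ ε f g S h

end

end Pool.Agent.HS

namespace Pool.Agent.HS
open Set Filter Topology

section
variable {α β : Type*} [PseudoMetricSpace α] [PseudoMetricSpace β]
variable {E F H : Type*} [NormedAddCommGroup E] [NormedAddCommGroup F] [NormedAddCommGroup H]

theorem near_trans {ε ε' : ℝ} {f g k : α → E} {S : Set α} (h : Near ε f g S) (h' : Near ε' g k S) :
    Near (ε + ε') f k S :=
  @Pool.Agent.HS.near_trans_pr α _ E _ ε ε' f g k S h h'

end

end Pool.Agent.HS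

namespace Pool.Agent.HS
open Set Filter Topology

section
variable {α β : Type*} [PseudoMetricSpace α] [PseudoMetricSpace β]
variable {E F H : Type*} [NormedAddCommGroup E] [NormedAddCommGroup F] [NormedAddCommGroup H]

theorem near_add {ε ε' : ℝ} {f g f' g' : α → E} {S : Set α} (h : Near ε f g S)
    (h' : Near ε' f' g' S) : Near (ε + ε') (fun p => f p + f' p) (fun p => g p + g' p) S :=
  @Pool.Agent.HS.near_add_pr α _ E _ ε ε' f g f' g' S h h'

end

end Pool.Agent.HS

namespace Pool.Agent.HS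
open Set Filter Topology

section
variable {α β : Type*} [PseudoMetricSpace α] [PseudoMetricSpace β]
variable {E F H : Type*} [NormedAddCommGroup E] [NormedAddCommGroup F] [NormedAddCommGroup H]

theorem near_prod {ε : ℝ} {f g : α → E} {f' g' : α → F} {S : Set α} (h : Near ε f g S)
    (h' : Near ε f' g' S) : Near ε (fun p => (f p, f' p)) (fun p => (g p, g' p)) S :=
  @Pool.Agent.HS.near_prod_pr α _ E F _ _ ε f g f' g' S h h'

end

end Pool.Agent.HS

namespace Pool.Agent.HS
open Set Filter Topology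

section
variable {α β : Type*} [PseudoMetricSpace α] [PseudoMetricSpace β]
variable {E F H : Type*} [NormedAddCommGroup E] [NormedAddCommGroup F] [NormedAddCommGroup H]

theorem near_fst {ε : ℝ} {f g : α → E × F} {S : Set α} (h : Near ε f g S) :
    Near ε (fun p => (f p).1) (fun p => (g p).1) S :=
  @Pool.Agent.HS.near_fst_pr α _ E F _ _ ε f g S h

end

end Pool.Agent.HS

namespace Pool.Agent.HS
open Set Filter Topology

section
variable {α β : Type*} [PseudoMetricSpace α] [PseudoMetricSpace β]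
variable {E F H : Type*} [NormedAddCommGroup E] [NormedAddCommGroup F] [NormedAddCommGroup H]

theorem near_snd {ε : ℝ} {f g : α → E × F} {S : Set α} (h : Near ε f g S) :
    Near ε (fun p => (f p).2) (fun p => (g p).2) S :=
  @Pool.Agent.HS.near_snd_pr α _ E F _ _ ε f g S h

end

end Pool.Agent.HS

namespace Pool.Agent.HS
open Set Filter Topology

section
variable {α β : Type*} [PseudoMetricSpace α] [PseudoMetricSpace β]
variable {E F H : Type*} [NormedAddCommGroup E] [NormedAddCommGroup F] [NormedAddCommGroup H]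

theorem near_comp_inner {ε Λ : ℝ} {f g : α → E} {S : Set α} {h : β → α} {T : Set β}
    (hn : Near ε f g S) (hm : MapsTo h T S)
    (hL : ∀ p ∈ T, ∀ q ∈ T, dist (h p) (h q) ≤ Λ * dist p q) (hΛ : 1 ≤ Λ) (hε : 0 ≤ ε) :
    Near (ε * Λ) (f ∘ h) (g ∘ h) T :=
  @Pool.Agent.HS.near_comp_inner_pr α β _ _ E _ ε Λ f g S h T hn hm hL hΛ hε

end

end Pool.Agent.HS

namespace Pool.Agent.HS
open Set Filter Topology

section
variable {α β : Type*} [PseudoMetricSpace α] [PseudoMetricSpace β]
variable {E F H : Type*} [NormedAddCommGroup E] [NormedAddCommGroup F] [NormedAddCommGroup H]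

theorem near_comp_outer {ε Λ L : ℝ} {f g : α → E} {S : Set α} {K : E → F} {S' : Set E}
    (hn : Near ε f g S) (hf : MapsTo f S S') (hg : MapsTo g S S')
    (hLf : Lip Λ f S) (hLg : Lip Λ g S) (hK : Reg L K S') (hL : 0 ≤ L) (hε : 0 ≤ ε) (hΛ : 0 ≤ Λ) :
    Near (L * ε * (1 + 2 * Λ)) (K ∘ f) (K ∘ g) S :=
  @Pool.Agent.HS.near_comp_outer_pr α _ E F _ _ ε Λ L f g S K S' hn hf hg hLf hLg hK hL hε hΛ

end

end Pool.Agent.HS

namespace Pool.Agent.HS
open Set Filter Topology

section
variable {α β : Type*} [PseudoMetricSpace α] [PseudoMetricSpace β]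
variable {E F H : Type*} [NormedAddCommGroup E] [NormedAddCommGroup F] [NormedAddCommGroup H]

theorem near_comp {ε ε' Λ L : ℝ} {f g : α → E} {S : Set α} {K K0 : E → F} {S' : Set E}
    (hn : Near ε f g S) (hf : MapsTo f S S') (hg : MapsTo g S S')
    (hLf : Lip Λ f S) (hLg : Lip Λ g S) (hK0 : Reg L K0 S') (hK : Near ε' K K0 S')
    (hL : 0 ≤ L) (hε : 0 ≤ ε) (hε' : 0 ≤ ε') (hΛ : 1 ≤ Λ) :
    Near (L * ε * (1 + 2 * Λ) + ε' * Λ) (K ∘ f) (K0 ∘ g) S :=
  @Pool.Agent.HS.near_comp_pr α _ E F _ _ ε ε' Λ L f g S K K0 S' hn hf hg hLf hLg hK0 hK hL hε hε' hΛ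

end

end Pool.Agent.HS

namespace Pool.Agent.HS
open Set Filter Topology

section
variable {α β : Type*} [PseudoMetricSpace α] [PseudoMetricSpace β]
variable {E F H : Type*} [NormedAddCommGroup E] [NormedAddCommGroup F] [NormedAddCommGroup H]

theorem lip_of_near {ε L : ℝ} {f g : α → E} {S : Set α} (h : Near ε f g S) (hg : Lip L g S) :
    Lip (L + ε) f S :=
  @Pool.Agent.HS.lip_of_near_pr α _ E _ ε L f g S h hg

end

end Pool.Agent.HS

namespace Pool.Agent.HS
open Set Filter Topology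

section
variable {α β : Type*} [PseudoMetricSpace α] [PseudoMetricSpace β]
variable {E F H : Type*} [NormedAddCommGroup E] [NormedAddCommGroup F] [NormedAddCommGroup H]

theorem reg_comp {L L' : ℝ} {f : E → F} {g : F → H} {S : Set E} {S' : Set F}
    (hf : Reg L f S) (hg : Reg L' g S') (hm : MapsTo f S S') (hL : 0 ≤ L) (hL' : 0 ≤ L') :
    Reg (L' * (L + L ^ 2)) (g ∘ f) S :=
  @Pool.Agent.HS.reg_comp_pr E F H _ _ _ L L' f g S S' hf hg hm hL hL'

end

end Pool.Agent.HS

namespace Pool.Agent.HS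
open Set Filter Topology

section
variable {α β : Type*} [PseudoMetricSpace α] [PseudoMetricSpace β]
variable {E F H : Type*} [NormedAddCommGroup E] [NormedAddCommGroup F] [NormedAddCommGroup H]

theorem reg_prod {L : ℝ} {f : E → F} {g : E → H} {S : Set E} (hf : Reg L f S) (hg : Reg L g S) :
    Reg L (fun x => (f x, g x)) S :=
  @Pool.Agent.HS.reg_prod_pr E F H _ _ _ L f g S hf hg

end

end Pool.Agent.HS

namespace Pool.Agent.HS
open Set Filter Topology

section
variable {α β : Type*} [PseudoMetricSpace α] [PseudoMetricSpace β]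
variable {E F H : Type*} [NormedAddCommGroup E] [NormedAddCommGroup F] [NormedAddCommGroup H]

theorem reg_mono {L L' : ℝ} {f : E → F} {S S' : Set E} (hf : Reg L f S) (h : L ≤ L')
    (hS : S' ⊆ S) : Reg L' f S' :=
  @Pool.Agent.HS.reg_mono_pr E F _ _ L L' f S S' hf h hS

end

end Pool.Agent.HS
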