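import Pool.Agent.Lib_helper60.HSF.D_Defs

/-!
# Part A, block CB: smooth maps are `Reg`
-/

namespace Pool.Agent.HS

noncomputable section

open Set Filter Topology

section CB
variable {E F : Type*} [NormedAddCommGroup E] [NormedSpace ℝ E] [NormedAddCommGroup F]
  [NormedSpace ℝ F]

/-- bounds for the first and second derivative on a convex set give `Reg` -/
lemma cb_reg {f : E → F} {K : Set E} {f' : E → E →L[ℝ] F} {L1 L2 : ℝ} (hc : Convex ℝ K)
    (hL1 : 0 ≤ L1) (hL2 : 0 ≤ L2)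
    (hf : ∀ x ∈ K, HasFDerivAt f (f' x) x) (h1 : ∀ x ∈ K, ‖f' x‖ ≤ L1)
    (h2 : ∀ x ∈ K, ∀ y ∈ K, ‖f' x - f' y‖ ≤ L2 * ‖x - y‖) : Reg (L1 + L2) f K := by
  have seg : ∀ x ∈ K, ∀ y ∈ K, ∀ t ∈ Icc (0:ℝ) 1, y + t • (x - y) ∈ K := by
    intro x hx y hy t ht
    have := hc hy hx (by linarith [ht.2] : 0 ≤ 1 - t) ht.1 (by ring)
    have e : (1 - t) • y + t • x = y + t • (x - y) := by
      rw [sub_smul, one_smul, smul_sub]
      abel
    rwa [e] at this
  have line : ∀ x y : E, ∀ t : ℝ, HasDerivAt (fun s : ℝ => y + s • (x - y)) (x - y) t := by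
    intro x y t
    have := ((hasDerivAt_id t).smul_const (x - y)).const_add y
    simpa using this
  refine ⟨?_, ?_⟩
  · intro x hx y hy
    have e1 : ‖f x - f y‖ ≤ L1 * ‖x - y‖ := by
      have := norm_image_sub_le_of_norm_deriv_le_segment_01' (f := fun t : ℝ => f (y + t • (x - y)))
        (f' := fun t : ℝ => f' (y + t • (x - y)) (x - y)) (C := L1 * ‖x - y‖)
        (fun t ht => ((hf _ (seg x hx y hy t ht)).comp_hasDerivAt t (line x y t)).hasDerivWithinAt)
        (fun t ht => ((f' _).le_opNorm _).trans (mul_le_mul_of_nonneg_right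
          (h1 _ (seg x hx y hy t ⟨ht.1, ht.2.le⟩)) (norm_nonneg _)))
      simpa using this
    rw [dist_eq_norm]
    have := mul_nonneg hL2 (norm_nonneg (x - y))
    linarith
  · intro x hx y hy x' hx' y' hy'
    have e1 : ‖f x - f y - f x' + f y'‖ ≤
        L1 * ‖x - y - x' + y'‖ + L2 * (‖x - x'‖ + ‖y - y'‖) * ‖x' - y'‖ := by
      have := norm_image_sub_le_of_norm_deriv_le_segment_01'
        (f := fun t : ℝ => f (y + t • (x - y)) - f (y' + t • (x' - y')))
        (f' := fun t : ℝ => f' (y + t • (x - y)) (x - y) - f' (y' + t • (x' - y')) (x' - y'))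
        (C := L1 * ‖x - y - x' + y'‖ + L2 * (‖x - x'‖ + ‖y - y'‖) * ‖x' - y'‖)
        (fun t ht => (((hf _ (seg x hx y hy t ht)).comp_hasDerivAt t (line x y t)).sub
          ((hf _ (seg x' hx' y' hy' t ht)).comp_hasDerivAt t (line x' y' t))).hasDerivWithinAt)
        (fun t ht => by
          have ht' : t ∈ Icc (0:ℝ) 1 := ⟨ht.1, ht.2.le⟩
          have e2 : f' (y + t • (x - y)) (x - y) - f' (y' + t • (x' - y')) (x' - y') =
              f' (y + t • (x - y)) (x - y - x' + y') +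
                (f' (y + t • (x - y)) - f' (y' + t • (x' - y'))) (x' - y') := by
            have e0 : x - y - x' + y' = (x - y) - (x' - y') := by abel
            rw [e0, map_sub (f' (y + t • (x - y))) (x - y) (x' - y')]
            show _ = _ + (f' (y + t • (x - y)) (x' - y') - f' (y' + t • (x' - y')) (x' - y'))
            abel
          rw [e2]
          refine (norm_add_le _ _).trans (add_le_add ?_ ?_)
          · exact ((f' _).le_opNorm _).trans (mul_le_mul_of_nonneg_right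
              (h1 _ (seg x hx y hy t ht')) (norm_nonneg _))
          · refine (ContinuousLinearMap.le_opNorm _ _).trans
              (mul_le_mul_of_nonneg_right ?_ (norm_nonneg _))
            refine (h2 _ (seg x hx y hy t ht') _ (seg x' hx' y' hy' t ht')).trans
              (mul_le_mul_of_nonneg_left ?_ hL2)
            have e3 : y + t • (x - y) - (y' + t • (x' - y')) = (1 - t) • (y - y') +
                t • (x - x') := by
              simp only [smul_sub, sub_smul, one_smul]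
              abel
            rw [e3]
            refine (norm_add_le _ _).trans ?_
            rw [norm_smul, norm_smul, Real.norm_eq_abs, Real.norm_eq_abs, abs_of_nonneg ht.1,
              abs_of_nonneg (by linarith [ht'.2] : (0:ℝ) ≤ 1 - t), add_comm]
            exact add_le_add (mul_le_of_le_one_left (norm_nonneg _) ht'.2)
              (mul_le_of_le_one_left (norm_nonneg _) (by linarith [ht.1])))
      have e4 : f x - f y - f x' + f y' = (f x - f x') - (f y - f y') := by abel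
      rw [e4]
      simpa using this
    refine e1.trans ?_
    have e5 : 0 ≤ L2 * ‖x - y - x' + y'‖ := by positivity
    have e6 : 0 ≤ L1 * (‖x - x'‖ + ‖y - y'‖) * ‖x' - y'‖ := by positivity
    linarith

/-- Taylor: on a convex compact subset of an open set where `f` is `C^2`. -/
theorem reg_of_contDiffOn_pr {f : E → F} {U K : Set E} (hU : IsOpen U) (hf : ContDiffOn ℝ 2 f U)
    (hK : IsCompact K) (hc : Convex ℝ K) (hKU : K ⊆ U) : ∃ L : ℝ, 0 ≤ L ∧ Reg L f K := by
  have hf1 : ContDiffOn ℝ 1 (fderiv ℝ f) U := hf.fderiv_of_isOpen hU (by norm_num)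
  have hf2 : ContinuousOn (fderiv ℝ (fderiv ℝ f)) U :=
    (hf1.fderiv_of_isOpen (m := 0) hU (by norm_num)).continuousOn
  obtain ⟨L1, hL1⟩ := hK.exists_bound_of_continuousOn (f := fderiv ℝ f)
    (hf1.continuousOn.mono hKU)
  obtain ⟨L2, hL2⟩ := hK.exists_bound_of_continuousOn (f := fderiv ℝ (fderiv ℝ f))
    (hf2.mono hKU)
  refine ⟨max L1 0 + max L2 0, by positivity, ?_⟩
  apply cb_reg (f' := fderiv ℝ f) hc (le_max_right _ _) (le_max_right _ _)
  · intro x hx
    exact ((hf.contDiffAt (hU.mem_nhds (hKU hx))).differentiableAt (by norm_num)).hasFDerivAt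
  · intro x hx
    exact (hL1 x hx).trans (le_max_left _ _)
  · intro x hx y hy
    apply hc.norm_image_sub_le_of_norm_hasFDerivWithin_le
      (f' := fderiv ℝ (fderiv ℝ f)) _ _ hy hx
    · intro z hz
      exact ((hf1.contDiffAt (hU.mem_nhds (hKU hz))).differentiableAt
        (by norm_num)).hasFDerivAt.hasFDerivWithinAt
    · intro z hz
      exact (hL2 z hz).trans (le_max_left _ _)

/-- a `C^2` map with compact support is `Reg` everywhere -/
theorem reg_of_compactSupport_pr {f : E → F} (hf : ContDiff ℝ 2 f) (hs : HasCompactSupport f)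
    [FiniteDimensional ℝ E] : ∃ L : ℝ, 0 ≤ L ∧ Reg L f univ := by
  have hf1 : ContDiff ℝ 1 (fderiv ℝ f) := hf.fderiv_right (by norm_num)
  have hf2 : Continuous (fderiv ℝ (fderiv ℝ f)) :=
    (hf1.fderiv_right (m := 0) (by norm_num)).continuous
  have hs1 : HasCompactSupport (fderiv ℝ f) := hs.fderiv ℝ
  have hs2 : HasCompactSupport (fderiv ℝ (fderiv ℝ f)) := hs1.fderiv ℝ
  obtain ⟨L1, hL1⟩ := HasCompactSupport.exists_bound_of_continuous (f := fderiv ℝ f) hs1
    hf1.continuous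
  have hs3 : IsCompact (tsupport (fderiv ℝ (fderiv ℝ f))) := hs2
  obtain ⟨L2, hL2'⟩ := hs3.exists_bound_of_continuousOn (f := fderiv ℝ (fderiv ℝ f))
    hf2.continuousOn
  have hL2 : ∀ x, ‖fderiv ℝ (fderiv ℝ f) x‖ ≤ max L2 0 := by
    intro x
    by_cases hx : x ∈ tsupport (fderiv ℝ (fderiv ℝ f))
    · exact (hL2' x hx).trans (le_max_left _ _)
    · have h0 : fderiv ℝ (fderiv ℝ f) x = 0 := image_eq_zero_of_notMem_tsupport hx
      rw [h0]
      exact (le_of_eq (norm_zero (E := E →L[ℝ] E →L[ℝ] F))).trans (le_max_right _ _)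
  refine ⟨max L1 0 + max L2 0, by positivity, ?_⟩
  apply cb_reg (f' := fderiv ℝ f) convex_univ (le_max_right _ _) (le_max_right _ _)
  · intro x _
    exact (hf.differentiable (by norm_num) x).hasFDerivAt
  · intro x _
    exact (hL1 x).trans (le_max_left _ _)
  · intro x _ y _
    apply convex_univ.norm_image_sub_le_of_norm_hasFDerivWithin_le
      (f' := fderiv ℝ (fderiv ℝ f)) _ _ (mem_univ y) (mem_univ x)
    · intro z _
      exact (hf1.differentiable (by norm_num) z).hasFDerivAt.hasFDerivWithinAt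
    · intro z _
      exact hL2 z

/-- cutoff of a smooth map -/
theorem exists_cutoff_pr [FiniteDimensional ℝ E] {f : E → F} {U K : Set E} (hU : IsOpen U)
    (hf : ContDiffOn ℝ 2 f U) (hK : IsCompact K) (hKU : K ⊆ U) :
    ∃ f' : E → F, ContDiff ℝ 2 f' ∧ HasCompactSupport f' ∧
      ∃ V : Set E, IsOpen V ∧ K ⊆ V ∧ V ⊆ U ∧ EqOn f' f V := by
  obtain ⟨T, hT, hKT, hTU⟩ := exists_compact_between hK hU hKU
  obtain ⟨χ, hχ1, hχ0, -⟩ := exists_contMDiffMap_one_nhds_of_subset_interior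
    (n := 2) (modelWithCornersSelf ℝ E) hK.isClosed hKT
  have hχ : ContDiff ℝ 2 χ := contMDiff_iff_contDiff.1 χ.contMDiff
  obtain ⟨V, hV, hKV, hV1⟩ := mem_nhdsSet_iff_exists.1 hχ1
  refine ⟨fun x => χ x • f x, ?_, ?_, V ∩ U, hV.inter hU, subset_inter hKV hKU,
    inter_subset_right, ?_⟩
  · rw [contDiff_iff_contDiffAt]
    intro x
    by_cases hx : x ∈ U
    · exact hχ.contDiffAt.smul (hf.contDiffAt (hU.mem_nhds hx))
    · have hxT : x ∈ Tᶜ := fun h => hx (hTU h)
      have h1 : (fun x => χ x • f x) =ᶠ[𝓝 x] fun _ => (0 : F) := by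
        filter_upwards [hT.isClosed.isOpen_compl.mem_nhds hxT] with y hy
        rw [hχ0 y hy, zero_smul]
      exact contDiffAt_const.congr_of_eventuallyEq h1
  · apply HasCompactSupport.intro hT
    intro x hx
    rw [hχ0 x hx, zero_smul]
  · intro x hx
    have h1 : χ x = 1 := hV1 hx.1
    simp only [h1, one_smul]

/-- a derivative at one point and the class `Reg` give a good linear approximation nearby -/
theorem reg_linear_pr {L Q ρ : ℝ} {f : E → F} {S : Set E} {x0 : E} (A : E →L[ℝ] F)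
    (hf : Reg L f S) (hb : Metric.closedBall x0 (2 * ρ) ⊆ S) (hρ : 0 < ρ) (hL : 0 ≤ L) (hQ : 0 ≤ Q)
    (hA : ∀ h : E, ‖h‖ ≤ 2 * ρ → ‖f (x0 + h) - f x0 - A h‖ ≤ Q * ‖h‖ ^ 2) :
    ∀ x ∈ Metric.closedBall x0 ρ, ∀ y ∈ Metric.closedBall x0 ρ,
      ‖f x - f y - A (x - y)‖ ≤ (4 * L + 4 * Q) * ρ * ‖x - y‖ := by
  intro x hx y hy
  rw [mem_closedBall_iff_norm] at hx hy
  have hxy : ‖x - y‖ ≤ 2 * ρ := by
    have h1 : x - y = (x - x0) - (y - x0) := by abel
    rw [h1]
    exact (norm_sub_le _ _).trans (by linarith)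
  have hxS : x ∈ S := hb (by rw [mem_closedBall_iff_norm]; linarith)
  have hyS : y ∈ S := hb (by rw [mem_closedBall_iff_norm]; linarith)
  have hzS : x0 + (x - y) ∈ S := hb (by
    rw [mem_closedBall_iff_norm, add_sub_cancel_left]
    exact hxy)
  have h0S : x0 ∈ S := hb (Metric.mem_closedBall_self (by linarith))
  have h1 := hf.2 x hxS y hyS (x0 + (x - y)) hzS x0 h0S
  have e1 : x - y - (x0 + (x - y)) + x0 = 0 := by abel
  have e2 : x - (x0 + (x - y)) = y - x0 := by abel
  have e3 : x0 + (x - y) - x0 = x - y := by abel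
  rw [e1, e2, e3, norm_zero, mul_zero, zero_add] at h1
  have h2 := hA (x - y) hxy
  have e4 : f x - f y - A (x - y) = (f x - f y - f (x0 + (x - y)) + f x0) +
      (f (x0 + (x - y)) - f x0 - A (x - y)) := by abel
  rw [e4]
  refine (norm_add_le _ _).trans ((add_le_add h1 h2).trans ?_)
  have h3 : L * (‖y - x0‖ + ‖y - x0‖) * ‖x - y‖ ≤ L * (ρ + ρ) * ‖x - y‖ := by gcongr
  have h4 : Q * ‖x - y‖ ^ 2 ≤ Q * (2 * ρ) * ‖x - y‖ := by
    rw [sq, ← mul_assoc]
    gcongr
  have h5 : 0 ≤ (2 * L + 2 * Q) * ρ * ‖x - y‖ := by positivity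
  linarith

end CB

end

end Pool.Agent.HS

namespace Pool.Agent.HS
open Set Filter Topology

section
variable {E F : Type*} [NormedAddCommGroup E] [NormedSpace ℝ E] [NormedAddCommGroup F]
  [NormedSpace ℝ F]

theorem reg_of_contDiffOn {f : E → F} {U K : Set E} (hU : IsOpen U) (hf : ContDiffOn ℝ 2 f U)
    (hK : IsCompact K) (hc : Convex ℝ K) (hKU : K ⊆ U) : ∃ L : ℝ, 0 ≤ L ∧ Reg L f K :=
  @Pool.Agent.HS.reg_of_contDiffOn_pr E F _ _ _ _ f U K hU hf hK hc hKU

end

end Pool.Agent.HS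

namespace Pool.Agent.HS
open Set Filter Topology

section
variable {E F : Type*} [NormedAddCommGroup E] [NormedSpace ℝ E] [NormedAddCommGroup F]
  [NormedSpace ℝ F]

theorem reg_of_compactSupport {f : E → F} (hf : ContDiff ℝ 2 f) (hs : HasCompactSupport f)
    [FiniteDimensional ℝ E] : ∃ L : ℝ, 0 ≤ L ∧ Reg L f univ :=
  @Pool.Agent.HS.reg_of_compactSupport_pr E F _ _ _ _ f hf hs _

end

end Pool.Agent.HS

namespace Pool.Agent.HS
open Set Filter Topology

section
variable {E F : Type*} [NormedAddCommGroup E] [NormedSpace ℝ E] [NormedAddCommGroup F]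
  [NormedSpace ℝ F]

theorem exists_cutoff [FiniteDimensional ℝ E] {f : E → F} {U K : Set E} (hU : IsOpen U)
    (hf : ContDiffOn ℝ 2 f U) (hK : IsCompact K) (hKU : K ⊆ U) :
    ∃ f' : E → F, ContDiff ℝ 2 f' ∧ HasCompactSupport f' ∧
      ∃ V : Set E, IsOpen V ∧ K ⊆ V ∧ V ⊆ U ∧ EqOn f' f V :=
  @Pool.Agent.HS.exists_cutoff_pr E F _ _ _ _ _ f U K hU hf hK hKU

end

end Pool.Agent.HS

namespace Pool.Agent.HS
open Set Filter Topology

section
variable {E F : Type*} [NormedAddCommGroup E] [NormedSpace ℝ E] [NormedAddCommGroup F]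
  [NormedSpace ℝ F]

theorem reg_linear {L Q ρ : ℝ} {f : E → F} {S : Set E} {x0 : E} (A : E →L[ℝ] F)
    (hf : Reg L f S) (hb : Metric.closedBall x0 (2 * ρ) ⊆ S) (hρ : 0 < ρ) (hL : 0 ≤ L) (hQ : 0 ≤ Q)
    (hA : ∀ h : E, ‖h‖ ≤ 2 * ρ → ‖f (x0 + h) - f x0 - A h‖ ≤ Q * ‖h‖ ^ 2) :
    ∀ x ∈ Metric.closedBall x0 ρ, ∀ y ∈ Metric.closedBall x0 ρ,
      ‖f x - f y - A (x - y)‖ ≤ (4 * L + 4 * Q) * ρ * ‖x - y‖ :=
  @Pool.Agent.HS.reg_linear_pr E F _ _ _ _ L Q ρ f S x0 A hf hb hρ hL hQ hA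

end

end Pool.Agent.HS
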