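import Pool.Agent.Lib_helper60.HSF.D_WA

/-!
# Project HS (MP_b9cbe4_an), block FL: flows of bounded Lipschitz vector fields
-/

namespace Pool.Agent.HS

noncomputable section

open Set Filter Topology

section FL
variable {E : Type*} [NormedAddCommGroup E] [NormedSpace ℝ E]

/-! ### Gronwall and the mean value theorem on a symmetric interval -/

theorem fl_gb {δ K ε x : ℝ} (hε : 0 ≤ ε) (hK : 0 ≤ K) :
    gronwallBound δ K ε x ≤ Real.exp (K * x) * (δ + ε * x) := by
  rcases eq_or_ne K 0 with rfl | hK0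
  · rw [gronwallBound_K0, zero_mul, Real.exp_zero, one_mul]
  · rw [gronwallBound_of_K_ne_0 hK0]
    have hK1 : 0 < K := lt_of_le_of_ne hK (Ne.symm hK0)
    have h1 : Real.exp (K * x) - 1 ≤ K * x * Real.exp (K * x) := by
      have h2 := Real.add_one_le_exp (-(K * x))
      have h3 : Real.exp (-(K * x)) * Real.exp (K * x) = 1 := by
        rw [← Real.exp_add, neg_add_cancel, Real.exp_zero]
      have h4 := Real.exp_pos (K * x)
      nlinarith
    have h5 : ε / K * (Real.exp (K * x) - 1) ≤ ε / K * (K * x * Real.exp (K * x)) :=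
      mul_le_mul_of_nonneg_left h1 (by positivity)
    have h6 : ε / K * (K * x * Real.exp (K * x)) = ε * x * Real.exp (K * x) := by
      field_simp
    dsimp only
    rw [h6] at h5
    calc δ * Real.exp (K * x) + ε / K * (Real.exp (K * x) - 1)
        ≤ δ * Real.exp (K * x) + ε * x * Real.exp (K * x) := by linarith
      _ = _ := by ring

/-- Gronwall, one-sided. -/
theorem fl_gr1 {K ε T : ℝ} (hK : 0 ≤ K) (hε : 0 ≤ ε) {u u' : ℝ → E}
    (hu : ∀ t, HasDerivAt u (u' t) t) (hb : ∀ t ∈ Icc (0:ℝ) T, ‖u' t‖ ≤ K * ‖u t‖ + ε) :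
    ∀ t ∈ Icc (0:ℝ) T, ‖u t‖ ≤ Real.exp (K * T) * (‖u 0‖ + ε * T) := by
  intro t ht
  have h1 := norm_le_gronwallBound_of_norm_deriv_right_le (f := u) (f' := u') (δ := ‖u 0‖) (K := K)
    (ε := ε) (a := 0) (b := T) (fun x _ => (hu x).continuousAt.continuousWithinAt)
    (fun x _ => (hu x).hasDerivWithinAt) le_rfl (fun x hx => hb x ⟨hx.1, hx.2.le⟩) t ht
  rw [sub_zero] at h1
  refine h1.trans ((fl_gb hε hK).trans ?_)
  have h2 : Real.exp (K * t) ≤ Real.exp (K * T) :=
    Real.exp_le_exp.mpr (mul_le_mul_of_nonneg_left ht.2 hK)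
  have h3 : ‖u 0‖ + ε * t ≤ ‖u 0‖ + ε * T := by
    have := mul_le_mul_of_nonneg_left ht.2 hε
    linarith
  have h4 : 0 ≤ ‖u 0‖ + ε * t := add_nonneg (norm_nonneg _) (mul_nonneg hε ht.1)
  exact mul_le_mul h2 h3 h4 (Real.exp_pos _).le

/-- Gronwall, two-sided. -/
theorem fl_gr {K ε T : ℝ} (hK : 0 ≤ K) (hε : 0 ≤ ε) {u u' : ℝ → E}
    (hu : ∀ t, HasDerivAt u (u' t) t) (hb : ∀ t ∈ Icc (-T) T, ‖u' t‖ ≤ K * ‖u t‖ + ε) :
    ∀ t ∈ Icc (-T) T, ‖u t‖ ≤ Real.exp (K * T) * (‖u 0‖ + ε * T) := by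
  intro t ht
  have hT : 0 ≤ T := by
    have := ht.1.trans ht.2
    linarith
  rcases le_total 0 t with h0 | h0
  · exact fl_gr1 hK hε hu (fun s hs => hb s ⟨by linarith [hs.1], hs.2⟩) t ⟨h0, ht.2⟩
  · have h1 : ∀ s : ℝ, HasDerivAt (fun s => u (-s)) (-u' (-s)) s := by
      intro s
      have h2 := (hu (-s)).scomp s (hasDerivAt_neg s)
      rw [neg_smul, one_smul] at h2
      exact h2
    have h3 := fl_gr1 (T := T) hK hε h1 (fun s hs => by
      rw [norm_neg]
      exact hb (-s) ⟨by linarith [hs.2], by linarith [hs.1]⟩) (-t) ⟨by linarith, by linarith [ht.1]⟩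
    simpa only [neg_neg, neg_zero] using h3

/-- Mean value inequality between two points. -/
theorem fl_mv {C : ℝ} {u u' : ℝ → E} {a b : ℝ} (hu : ∀ t, HasDerivAt u (u' t) t)
    (hb : ∀ t ∈ uIcc a b, ‖u' t‖ ≤ C) : ‖u b - u a‖ ≤ C * |b - a| := by
  have h1 := (convex_uIcc a b).norm_image_sub_le_of_norm_hasDerivWithin_le
    (f := u) (f' := u') (C := C) (fun x _ => (hu x).hasDerivWithinAt) hb
    (left_mem_uIcc) (right_mem_uIcc)
  rwa [Real.norm_eq_abs] at h1

variable [CompleteSpace E]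

/-! ### Existence -/

theorem fl_exists_local {B K : ℝ} {f : E → E} (hf : BL B K f) (y : E) (n : ℕ) :
    ∃ α : ℝ → E, α 0 = y ∧ ∀ t ∈ Icc (-((n:ℝ) + 1)) (n + 1),
      HasDerivWithinAt α (f (α t)) (Icc (-((n:ℝ) + 1)) (n + 1)) t := by
  have hn : (0:ℝ) < n + 1 := by positivity
  have hB : 0 ≤ B := (norm_nonneg _).trans (hf.1 y)
  have ht0 : (0:ℝ) ∈ Icc (-((n:ℝ) + 1)) (n + 1) := ⟨by linarith, hn.le⟩
  have h := IsPicardLindelof.of_time_independent (f := f) (tmin := -((n:ℝ) + 1)) (tmax := n + 1)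
    (t₀ := ⟨0, ht0⟩) (x₀ := y) (a := Real.toNNReal (B * (n + 1))) (r := 0) (L := Real.toNNReal B)
    (K := Real.toNNReal K) (fun x _ => by rw [Real.coe_toNNReal _ hB]; exact hf.1 x)
    (LipschitzOnWith.of_dist_le_mul fun x _ x' _ => by
      rw [dist_eq_norm, dist_eq_norm]
      exact (hf.2 x x').trans (mul_le_mul_of_nonneg_right (Real.le_coe_toNNReal K) (norm_nonneg _)))
    (by
      rw [Real.coe_toNNReal _ hB, Real.coe_toNNReal _ (by positivity)]
      simp)
  obtain ⟨α, h1, h2⟩ := h.exists_eq_forall_mem_Icc_hasDerivWithinAt₀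
  exact ⟨α, h1, h2⟩

omit [NormedSpace ℝ E] [CompleteSpace E] in
theorem fl_lip {B K : ℝ} {f : E → E} (hf : BL B K f) : LipschitzWith (Real.toNNReal K) f :=
  LipschitzWith.of_dist_le_mul fun x x' => by
    rw [dist_eq_norm, dist_eq_norm]
    exact (hf.2 x x').trans (mul_le_mul_of_nonneg_right (Real.le_coe_toNNReal K) (norm_nonneg _))

theorem fl_exists {B K : ℝ} {f : E → E} (hf : BL B K f) (y : E) :
    ∃ α : ℝ → E, α 0 = y ∧ ∀ t, HasDerivAt α (f (α t)) t := by
  choose β hβ0 hβ using fl_exists_local hf y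
  have hat : ∀ n : ℕ, ∀ t ∈ Ioo (-((n:ℝ) + 1)) (n + 1), HasDerivAt (β n) (f (β n t)) t :=
    fun n t ht => (hβ n t ⟨ht.1.le, ht.2.le⟩).hasDerivAt (Icc_mem_nhds ht.1 ht.2)
  have heq : ∀ m n : ℕ, m ≤ n → EqOn (β m) (β n) (Ioo (-((m:ℝ) + 1)) (m + 1)) := by
    intro m n hmn
    have hmn' : (m:ℝ) ≤ n := by exact_mod_cast hmn
    refine ODE_solution_unique_of_mem_Ioo (v := fun _ => f) (s := fun _ => univ) (t₀ := 0)
      (fun _ _ => (fl_lip hf).lipschitzOnWith) ⟨by linarith [(Nat.cast_nonneg m : (0:ℝ) ≤ m)],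
        by positivity⟩
      (fun t ht => ⟨hat m t ht, mem_univ _⟩) (fun t ht => ⟨hat n t
        ⟨by linarith [ht.1], by linarith [ht.2]⟩, mem_univ _⟩) ?_
    rw [hβ0, hβ0]
  refine ⟨fun t => β ⌈|t|⌉₊ t, hβ0 _, fun t => ?_⟩
  have h1 : |t| ≤ ⌈|t|⌉₊ := Nat.le_ceil _
  have ht : t ∈ Ioo (-((⌈|t|⌉₊:ℝ) + 1)) (⌈|t|⌉₊ + 1) := by
    constructor
    · linarith [neg_abs_le t]
    · linarith [le_abs_self t]
  refine (hat _ t ht).congr_of_eventuallyEq ?_
  filter_upwards [Ioo_mem_nhds ht.1 ht.2] with s hs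
  have h2 : |s| < (⌈|t|⌉₊ : ℝ) + 1 := abs_lt.mpr ⟨hs.1, hs.2⟩
  rcases le_total ⌈|s|⌉₊ ⌈|t|⌉₊ with h3 | h3
  · exact heq _ _ h3 ⟨by linarith [neg_abs_le s, Nat.le_ceil (|s|)],
      by linarith [le_abs_self s, Nat.le_ceil (|s|)]⟩
  · exact (heq _ _ h3 hs).symm

theorem flow_spec_pr {B K : ℝ} {f : E → E} (hf : BL B K f) :
    (∀ y, flow f 0 y = y) ∧ ∀ y t, HasDerivAt (fun s => flow f s y) (f (flow f t y)) t := by
  have h : ∃ φ : ℝ → E → E, (∀ y, φ 0 y = y) ∧
      ∀ y t, HasDerivAt (fun s => φ s y) (f (φ t y)) t := by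
    choose α h0 h1 using fl_exists hf
    exact ⟨fun t y => α y t, h0, h1⟩
  unfold flow
  rw [dif_pos h]
  exact h.choose_spec

/-- uniqueness: any solution on an interval `[0,T]` is given by the flow -/
theorem flow_unique_pr {B K T : ℝ} {f : E → E} (hf : BL B K f) (hT : 0 ≤ T) {γ : ℝ → E}
    (hγ : ∀ t ∈ Icc (0:ℝ) T, HasDerivWithinAt γ (f (γ t)) (Icc 0 T) t) :
    ∀ t ∈ Icc (0:ℝ) T, γ t = flow f t (γ 0) := by
  obtain ⟨h0, h1⟩ := flow_spec_pr hf
  refine ODE_solution_unique_of_mem_Icc_right (v := fun _ => f) (s := fun _ => univ)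
    (fun _ _ => (fl_lip hf).lipschitzOnWith) (fun t ht => (hγ t ht).continuousWithinAt)
    (fun t ht => (hγ t ⟨ht.1, ht.2.le⟩).mono_of_mem_nhdsWithin (Icc_mem_nhdsGE_of_mem ht))
    (fun _ _ => mem_univ _) (fun t _ => (h1 (γ 0) t).continuousAt.continuousWithinAt)
    (fun t _ => (h1 (γ 0) t).hasDerivWithinAt) (fun _ _ => mem_univ _) ?_
  exact (h0 _).symm

theorem flow_add_pr {B K : ℝ} {f : E → E} (hf : BL B K f) (s t : ℝ) (y : E) :
    flow f (s + t) y = flow f s (flow f t y) := by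
  obtain ⟨h0, h1⟩ := flow_spec_pr hf
  have h2 : (fun s => flow f (s + t) y) = fun s => flow f s (flow f t y) := by
    refine ODE_solution_unique_univ (v := fun _ => f) (s := fun _ => univ) (t₀ := 0)
      (fun _ => (fl_lip hf).lipschitzOnWith) (fun s => ⟨?_, mem_univ _⟩)
      (fun s => ⟨h1 _ s, mem_univ _⟩) ?_
    · have h3 := (h1 y (s + t)).scomp s ((hasDerivAt_id s).add_const t)
      rw [one_smul] at h3
      exact h3
    · rw [zero_add, h0]
  exact congrFun h2 s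

/-- dependence on the initial value, fixed time -/
theorem fl_space {B K T : ℝ} {f : E → E} (hf : BL B K f) (hK : 0 ≤ K) {t : ℝ}
    (ht : t ∈ Icc (-T) T) (y y' : E) :
    ‖flow f t y - flow f t y'‖ ≤ Real.exp (K * T) * ‖y - y'‖ := by
  obtain ⟨h0, h1⟩ := flow_spec_pr hf
  have h2 := fl_gr (T := T) hK le_rfl (fun t => (h1 y t).sub (h1 y' t)) (fun t _ => by
    rw [add_zero]
    exact hf.2 _ _) t ht
  simp only [Pi.sub_apply, h0, zero_mul, add_zero] at h2
  exact h2

/-- dependence on time -/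
theorem fl_time {B K : ℝ} {f : E → E} (hf : BL B K f) (s t : ℝ) (y : E) :
    ‖flow f s y - flow f t y‖ ≤ B * |s - t| :=
  fl_mv ((flow_spec_pr hf).2 y) fun _ _ => hf.1 _

theorem flow_lip_pr {B K T : ℝ} {f : E → E} (hf : BL B K f) (hB : 0 ≤ B) (hK : 0 ≤ K)
    (hT : 0 ≤ T) :
    ∀ s ∈ Icc (-T) T, ∀ t ∈ Icc (-T) T, ∀ y y' : E,
      ‖flow f s y - flow f t y'‖ ≤ B * |s - t| + Real.exp (K * T) * ‖y - y'‖ := by
  intro s _ t ht y y'
  have h1 := fl_time hf s t y
  have h2 := fl_space hf hK ht y y'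
  calc ‖flow f s y - flow f t y'‖
      = ‖(flow f s y - flow f t y) + (flow f t y - flow f t y')‖ := by congr 1; abel
    _ ≤ _ := (norm_add_le _ _).trans (add_le_add h1 h2)

/-- the four point inequality at a fixed time -/
theorem fl_four {B K T : ℝ} {f : E → E} (hf : BL B K f) (hR : Reg K f univ) (hK : 0 ≤ K)
    {t : ℝ} (ht : t ∈ Icc (-T) T) (y z y' z' : E) :
    ‖flow f t y - flow f t z - flow f t y' + flow f t z'‖ ≤
      Real.exp (K * T) * (‖y - z - y' + z'‖ +
        K * Real.exp (K * T) ^ 2 * (‖y - y'‖ + ‖z - z'‖) * ‖y' - z'‖ * T) := by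
  obtain ⟨h0, h1⟩ := flow_spec_pr hf
  obtain ⟨c, hc⟩ : ∃ c, c = Real.exp (K * T) := ⟨_, rfl⟩
  have hc0 : 0 ≤ c := by rw [hc]; exact (Real.exp_pos _).le
  have h2 := fl_gr (T := T) (u := fun s => flow f s y - flow f s z - flow f s y' + flow f s z')
    (ε := K * c ^ 2 * (‖y - y'‖ + ‖z - z'‖) * ‖y' - z'‖) hK (by positivity)
    (fun t => (((h1 y t).sub (h1 z t)).sub (h1 y' t)).add (h1 z' t)) (fun s hs => by
      have h3 := hR.2 (flow f s y) (mem_univ _) (flow f s z) (mem_univ _) (flow f s y')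
        (mem_univ _) (flow f s z') (mem_univ _)
      refine h3.trans ?_
      have h4 := fl_space hf hK hs y y'
      have h5 := fl_space hf hK hs z z'
      have h6 := fl_space hf hK hs y' z'
      rw [← hc] at h4 h5 h6
      have h7 : K * (‖flow f s y - flow f s y'‖ + ‖flow f s z - flow f s z'‖) *
          ‖flow f s y' - flow f s z'‖ ≤ K * (c * ‖y - y'‖ + c * ‖z - z'‖) * (c * ‖y' - z'‖) := by
        gcongr
      have h8 : K * (c * ‖y - y'‖ + c * ‖z - z'‖) * (c * ‖y' - z'‖) =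
        K * c ^ 2 * (‖y - y'‖ + ‖z - z'‖) * ‖y' - z'‖ := by ring
      linarith) t ht
  simp only [h0] at h2
  rw [← hc] at h2 ⊢
  exact h2

/-- the flow of a `Reg` field is `Reg` in time and initial value -/
theorem flow_reg_pr {B K T : ℝ} (hB : 0 ≤ B) (hK : 0 ≤ K) (hT : 0 ≤ T) :
    ∃ L : ℝ, 0 ≤ L ∧ ∀ f : E → E, BL B K f → Reg K f univ →
      Reg L (fun p : ℝ × E => flow f p.1 p.2) (Icc (-T) T ×ˢ univ) := by
  obtain ⟨c, hc⟩ : ∃ c, c = Real.exp (K * T) := ⟨_, rfl⟩
  have hc1 : 1 ≤ c := by rw [hc]; exact Real.one_le_exp (mul_nonneg hK hT)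
  have hc0 : 0 ≤ c := by linarith
  refine ⟨B + c + c * (K * c ^ 2 * T) + K * c + K * (B + c), by positivity, fun f hf hR =>
    ⟨?_, ?_⟩⟩
  · rintro ⟨s, y⟩ ⟨hs, -⟩ ⟨t, y'⟩ ⟨ht, -⟩
    have h1 := flow_lip_pr hf hB hK hT s hs t ht y y'
    rw [← hc] at h1
    refine h1.trans ?_
    have h2 : |s - t| ≤ dist ((s, y) : ℝ × E) (t, y') := by
      rw [Prod.dist_eq, Real.dist_eq]
      exact le_max_left _ _
    have h3 : ‖y - y'‖ ≤ dist ((s, y) : ℝ × E) (t, y') := by
      rw [Prod.dist_eq, dist_eq_norm y y']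
      exact le_max_right _ _
    obtain ⟨d, hd⟩ : ∃ d, d = dist ((s, y) : ℝ × E) (t, y') := ⟨_, rfl⟩
    rw [← hd] at h2 h3 ⊢
    have hd0 : 0 ≤ d := (abs_nonneg _).trans h2
    have h4 : B * |s - t| ≤ B * d := mul_le_mul_of_nonneg_left h2 hB
    have h5 : c * ‖y - y'‖ ≤ c * d := mul_le_mul_of_nonneg_left h3 hc0
    have h6 : 0 ≤ (c * (K * c ^ 2 * T) + K * c + K * (B + c)) * d := by positivity
    calc _ ≤ B * d + c * d := add_le_add h4 h5
      _ ≤ _ := by linarith
  · rintro ⟨t1, y1⟩ ⟨ht1, -⟩ ⟨t2, y2⟩ ⟨ht2, -⟩ ⟨s1, z1⟩ ⟨hs1, -⟩ ⟨s2, z2⟩ ⟨hs2, -⟩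
    obtain ⟨h0, h1⟩ := flow_spec_pr hf
    dsimp only
    -- the norms
    obtain ⟨N, hN⟩ : ∃ N, N = ‖((t1, y1) : ℝ × E) - (t2, y2) - (s1, z1) + (s2, z2)‖ := ⟨_, rfl⟩
    obtain ⟨P, hP⟩ : ∃ P, P = ‖((t1, y1) : ℝ × E) - (s1, z1)‖ := ⟨_, rfl⟩
    obtain ⟨Q, hQ⟩ : ∃ Q, Q = ‖((t2, y2) : ℝ × E) - (s2, z2)‖ := ⟨_, rfl⟩
    obtain ⟨R, hRR⟩ : ∃ R, R = ‖((s1, z1) : ℝ × E) - (s2, z2)‖ := ⟨_, rfl⟩
    rw [← hN, ← hP, ← hQ, ← hRR]
    have hNt : |t1 - t2 - s1 + s2| ≤ N := by rw [hN]; exact norm_fst_le (((t1, y1) : ℝ × E) - (t2, y2) - (s1, z1) + (s2, z2))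
    have hNy : ‖y1 - y2 - z1 + z2‖ ≤ N := by rw [hN]; exact norm_snd_le (((t1, y1) : ℝ × E) - (t2, y2) - (s1, z1) + (s2, z2))
    have hPt : |t1 - s1| ≤ P := by rw [hP]; exact norm_fst_le (((t1, y1) : ℝ × E) - (s1, z1))
    have hPy : ‖y1 - z1‖ ≤ P := by rw [hP]; exact norm_snd_le (((t1, y1) : ℝ × E) - (s1, z1))
    have hQt : |t2 - s2| ≤ Q := by rw [hQ]; exact norm_fst_le (((t2, y2) : ℝ × E) - (s2, z2))
    have hQy : ‖y2 - z2‖ ≤ Q := by rw [hQ]; exact norm_snd_le (((t2, y2) : ℝ × E) - (s2, z2))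
    have hRt : |s1 - s2| ≤ R := by rw [hRR]; exact norm_fst_le (((s1, z1) : ℝ × E) - (s2, z2))
    have hRy : ‖z1 - z2‖ ≤ R := by rw [hRR]; exact norm_snd_le (((s1, z1) : ℝ × E) - (s2, z2))
    have hN0 : 0 ≤ N := (abs_nonneg _).trans hNt
    have hP0 : 0 ≤ P := (abs_nonneg _).trans hPt
    have hQ0 : 0 ≤ Q := (abs_nonneg _).trans hQt
    have hR0 : 0 ≤ R := (abs_nonneg _).trans hRt
    -- A
    have hA : ‖(flow f t1 y1 - flow f t2 y1) - (flow f s1 z1 - flow f s2 z1)‖ ≤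
        B * N + K * (B + c) * (P + Q) * R := by
      have h2 : ∀ σ : ℝ, HasDerivAt (fun σ => flow f (t2 + σ * (t1 - t2)) y1 -
          flow f (s2 + σ * (s1 - s2)) z1)
          ((t1 - t2) • f (flow f (t2 + σ * (t1 - t2)) y1) -
            (s1 - s2) • f (flow f (s2 + σ * (s1 - s2)) z1)) σ := by
        intro σ
        have h3 : ∀ a b : ℝ, HasDerivAt (fun σ : ℝ => b + σ * (a - b)) (a - b) σ := by
          intro a b
          have h4 := ((hasDerivAt_id σ).mul_const (a - b)).const_add b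
          simpa using h4
        exact ((h1 y1 _).scomp σ (h3 t1 t2)).sub ((h1 z1 _).scomp σ (h3 s1 s2))
      have h5 := norm_image_sub_le_of_norm_deriv_le_segment_01' (C := B * N + K * (B + c) * (P + Q) * R)
        (fun σ _ => (h2 σ).hasDerivWithinAt) (fun σ hσ => by
          obtain ⟨τ, hτ⟩ : ∃ τ, τ = t2 + σ * (t1 - t2) := ⟨_, rfl⟩
          obtain ⟨τ', hτ'⟩ : ∃ τ', τ' = s2 + σ * (s1 - s2) := ⟨_, rfl⟩
          rw [← hτ, ← hτ']
          have hσ0 := hσ.1
          have hσ1 := hσ.2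
          have hτT : τ ∈ Icc (-T) T := by
            rw [hτ]
            constructor
            · nlinarith [ht1.1, ht2.1]
            · nlinarith [ht1.2, ht2.2]
          have hτT' : τ' ∈ Icc (-T) T := by
            rw [hτ']
            constructor
            · nlinarith [hs1.1, hs2.1]
            · nlinarith [hs1.2, hs2.2]
          have h6 : |τ - τ'| ≤ P + Q := by
            have h7 : τ - τ' = σ * (t1 - s1) + (1 - σ) * (t2 - s2) := by rw [hτ, hτ']; ring
            rw [h7]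
            refine (abs_add_le _ _).trans ?_
            rw [abs_mul, abs_mul, abs_of_nonneg hσ0, abs_of_nonneg (by linarith : 0 ≤ 1 - σ)]
            have h8 : σ * |t1 - s1| ≤ 1 * P := mul_le_mul hσ1.le hPt (abs_nonneg _) zero_le_one
            have h9 : (1 - σ) * |t2 - s2| ≤ 1 * Q :=
              mul_le_mul (by linarith) hQt (abs_nonneg _) zero_le_one
            linarith
          have h7 : (t1 - t2) • f (flow f τ y1) - (s1 - s2) • f (flow f τ' z1) =
              (t1 - t2 - s1 + s2) • f (flow f τ y1) +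
                (s1 - s2) • (f (flow f τ y1) - f (flow f τ' z1)) := by
            module
          rw [h7]
          refine (norm_add_le _ _).trans (add_le_add ?_ ?_)
          · rw [norm_smul, Real.norm_eq_abs, mul_comm B]
            exact mul_le_mul hNt (hf.1 _) (norm_nonneg _) hN0
          · rw [norm_smul, Real.norm_eq_abs]
            have h8 : ‖f (flow f τ y1) - f (flow f τ' z1)‖ ≤ K * ((B + c) * (P + Q)) := by
              refine (hf.2 _ _).trans (mul_le_mul_of_nonneg_left ?_ hK)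
              have h9 := flow_lip_pr hf hB hK hT τ hτT τ' hτT' y1 z1
              rw [← hc] at h9
              refine h9.trans ?_
              have h10 : B * |τ - τ'| ≤ B * (P + Q) := mul_le_mul_of_nonneg_left h6 hB
              have h11 : c * ‖y1 - z1‖ ≤ c * (P + Q) :=
                mul_le_mul_of_nonneg_left (by linarith) hc0
              linarith
            calc |s1 - s2| * ‖f (flow f τ y1) - f (flow f τ' z1)‖
                ≤ R * (K * ((B + c) * (P + Q))) := mul_le_mul hRt h8 (norm_nonneg _) hR0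
              _ = _ := by ring)
      have h6 : (flow f t1 y1 - flow f t2 y1) - (flow f s1 z1 - flow f s2 z1) =
          (flow f (t2 + 1 * (t1 - t2)) y1 - flow f (s2 + 1 * (s1 - s2)) z1) -
          (flow f (t2 + 0 * (t1 - t2)) y1 - flow f (s2 + 0 * (s1 - s2)) z1) := by
        have e1 : t2 + 1 * (t1 - t2) = t1 := by ring
        have e2 : s2 + 1 * (s1 - s2) = s1 := by ring
        have e3 : t2 + 0 * (t1 - t2) = t2 := by ring
        have e4 : s2 + 0 * (s1 - s2) = s2 := by ring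
        rw [e1, e2, e3, e4]
        abel
      rw [h6]
      exact h5
    -- B
    have hB1 := fl_four hf hR hK ht2 y1 y2 z1 z2
    rw [← hc] at hB1
    have hB2 : ‖(flow f t2 z1 - flow f t2 z2) - (flow f s2 z1 - flow f s2 z2)‖ ≤
        K * c * Q * R := by
      have h2 := fl_mv (C := K * (c * R)) (a := s2) (b := t2)
        (fun t => (h1 z1 t).sub (h1 z2 t)) (fun t ht => by
          refine (hf.2 _ _).trans (mul_le_mul_of_nonneg_left ?_ hK)
          have h3 : t ∈ Icc (-T) T := by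
            have h4 : uIcc s2 t2 ⊆ Icc (-T) T := uIcc_subset_Icc hs2 ht2
            exact h4 ht
          have h5 := fl_space hf hK h3 z1 z2
          rw [← hc] at h5
          exact h5.trans (mul_le_mul_of_nonneg_left hRy hc0))
      refine h2.trans ?_
      calc K * (c * R) * |t2 - s2| ≤ K * (c * R) * Q :=
            mul_le_mul_of_nonneg_left hQt (by positivity)
        _ = _ := by ring
    have hsum : flow f t1 y1 - flow f t2 y2 - flow f s1 z1 + flow f s2 z2 =
        ((flow f t1 y1 - flow f t2 y1) - (flow f s1 z1 - flow f s2 z1)) +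
        (flow f t2 y1 - flow f t2 y2 - flow f t2 z1 + flow f t2 z2) +
        ((flow f t2 z1 - flow f t2 z2) - (flow f s2 z1 - flow f s2 z2)) := by abel
    rw [hsum]
    refine (norm_add_le _ _).trans ((add_le_add ((norm_add_le _ _).trans (add_le_add hA hB1))
      hB2).trans ?_)
    have h12 : c * (‖y1 - y2 - z1 + z2‖ + K * c ^ 2 * (‖y1 - z1‖ + ‖y2 - z2‖) * ‖z1 - z2‖ * T) ≤
        c * (N + K * c ^ 2 * (P + Q) * R * T) := by
      gcongr
    have h13 : K * c * Q * R ≤ K * c * (P + Q) * R := by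
      gcongr
      linarith
    have h14 : 0 ≤ (c * (K * c ^ 2 * T) + K * c + K * (B + c)) * N := by positivity
    have h15 : 0 ≤ (B + c) * (P + Q) * R := by positivity
    calc _ ≤ B * N + K * (B + c) * (P + Q) * R + c * (N + K * c ^ 2 * (P + Q) * R * T) +
          K * c * (P + Q) * R := by linarith
      _ ≤ _ := by nlinarith

/-- close fields have close flows -/
theorem flow_near_pr {B K T : ℝ} (hB : 0 ≤ B) (hK : 0 ≤ K) (hT : 0 ≤ T) :
    ∃ L : ℝ, 0 ≤ L ∧ ∀ (f g : E → E) (ε : ℝ), 0 ≤ ε → BL B K f → BL B K g → Reg K g univ →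
      Near ε f g univ →
      Near (L * ε) (fun p : ℝ × E => flow f p.1 p.2) (fun p : ℝ × E => flow g p.1 p.2)
        (Icc (-T) T ×ˢ univ) := by
  obtain ⟨c, hc⟩ : ∃ c, c = Real.exp (K * T) := ⟨_, rfl⟩
  have hc1 : 1 ≤ c := by rw [hc]; exact Real.one_le_exp (mul_nonneg hK hT)
  have hc0 : 0 ≤ c := by linarith
  refine ⟨c * T + (K * (c * T) + 1) + c * ((c + 2 * K * c ^ 2 * T) * T), by positivity,
    fun f g ε hε hf hg hR hn => ?_⟩
  obtain ⟨h0, h1⟩ := flow_spec_pr hf
  obtain ⟨k0, k1⟩ := flow_spec_pr hg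
  have hfg : ∀ x, ‖f x - g x‖ ≤ ε := fun x => hn.1 x (mem_univ _)
  -- sup norm
  have hsup : ∀ t ∈ Icc (-T) T, ∀ y, ‖flow f t y - flow g t y‖ ≤ c * T * ε := by
    intro t ht y
    have h2 := fl_gr (T := T) hK hε (fun t => (h1 y t).sub (k1 y t)) (fun t _ => by
      have h3 : f (flow f t y) - g (flow g t y) =
          (g (flow f t y) - g (flow g t y)) + (f (flow f t y) - g (flow f t y)) := by abel
      rw [h3]
      exact (norm_add_le _ _).trans (add_le_add (hg.2 _ _) (hfg _))) t ht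
    simp only [Pi.sub_apply, h0, k0, sub_self, norm_zero, zero_add] at h2
    rw [← hc] at h2
    calc _ ≤ c * (ε * T) := h2
      _ = _ := by ring
  -- time
  have htime : ∀ s ∈ Icc (-T) T, ∀ t ∈ Icc (-T) T, ∀ y,
      ‖(flow f s y - flow g s y) - (flow f t y - flow g t y)‖ ≤
        (K * (c * T) + 1) * ε * |s - t| := by
    intro s hs t ht y
    refine fl_mv (fun t => (h1 y t).sub (k1 y t)) fun r hr => ?_
    have h2 : r ∈ Icc (-T) T := by
      have h3 : uIcc t s ⊆ Icc (-T) T := uIcc_subset_Icc ht hs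
      exact h3 hr
    have h3 : f (flow f r y) - g (flow g r y) =
        (g (flow f r y) - g (flow g r y)) + (f (flow f r y) - g (flow f r y)) := by abel
    rw [h3]
    refine (norm_add_le _ _).trans ?_
    have h4 : ‖g (flow f r y) - g (flow g r y)‖ ≤ K * (c * T * ε) :=
      (hg.2 _ _).trans (mul_le_mul_of_nonneg_left (hsup r h2 y) hK)
    calc _ ≤ K * (c * T * ε) + ε := add_le_add h4 (hfg _)
      _ = _ := by ring
  -- space
  have hspace : ∀ t ∈ Icc (-T) T, ∀ y y',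
      ‖(flow f t y - flow g t y) - (flow f t y' - flow g t y')‖ ≤
        c * ((c + 2 * K * c ^ 2 * T) * T) * ε * ‖y - y'‖ := by
    intro t ht y y'
    have h2 := fl_gr (T := T)
      (u := fun t => (flow f t y - flow g t y) - (flow f t y' - flow g t y'))
      (ε := (c + 2 * K * c ^ 2 * T) * ε * ‖y - y'‖) hK (by positivity)
      (fun t => ((h1 y t).sub (k1 y t)).sub ((h1 y' t).sub (k1 y' t))) (fun r hr => by
        have e1 : f (flow f r y) - g (flow g r y) - (f (flow f r y') - g (flow g r y')) =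
            (g (flow f r y) - g (flow g r y) - g (flow f r y') + g (flow g r y')) +
            ((f (flow f r y) - g (flow f r y)) - (f (flow f r y') - g (flow f r y'))) := by abel
        rw [e1]
        have h3 := hR.2 (flow f r y) (mem_univ _) (flow g r y) (mem_univ _) (flow f r y')
          (mem_univ _) (flow g r y') (mem_univ _)
        have h4 := hn.2 (flow f r y) (mem_univ _) (flow f r y') (mem_univ _)
        rw [dist_eq_norm] at h4
        have h5 := fl_space hf hK hr y y'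
        have h6 := fl_space hg hK hr y y'
        rw [← hc] at h5 h6
        have h7 := hsup r hr y'
        have e2 : flow f r y - flow g r y - (flow f r y' - flow g r y') =
            flow f r y - flow g r y - flow f r y' + flow g r y' := by abel
        rw [e2]
        have h8 : K * (‖flow f r y - flow f r y'‖ + ‖flow g r y - flow g r y'‖) *
            ‖flow f r y' - flow g r y'‖ ≤
            K * (c * ‖y - y'‖ + c * ‖y - y'‖) * (c * T * ε) := by
          gcongr
        have h9 : ε * ‖flow f r y - flow f r y'‖ ≤ ε * (c * ‖y - y'‖) := by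
          gcongr
        calc _ ≤ K * ‖flow f r y - flow g r y - flow f r y' + flow g r y'‖ +
              K * (c * ‖y - y'‖ + c * ‖y - y'‖) * (c * T * ε) + ε * (c * ‖y - y'‖) :=
              (norm_add_le _ _).trans (by linarith)
          _ = _ := by ring) t ht
    simp only [h0, k0, sub_self, norm_zero, zero_add] at h2
    rw [← hc] at h2
    calc _ ≤ c * ((c + 2 * K * c ^ 2 * T) * ε * ‖y - y'‖ * T) := h2
      _ = _ := by ring
  constructor
  · rintro ⟨t, y⟩ ⟨ht, -⟩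
    refine (hsup t ht y).trans (mul_le_mul_of_nonneg_right ?_ hε)
    have : 0 ≤ (K * (c * T) + 1) + c * ((c + 2 * K * c ^ 2 * T) * T) := by positivity
    linarith
  · rintro ⟨s, y⟩ ⟨hs, -⟩ ⟨t, y'⟩ ⟨ht, -⟩
    dsimp only
    obtain ⟨d, hd⟩ : ∃ d, d = dist ((s, y) : ℝ × E) (t, y') := ⟨_, rfl⟩
    have h2 : |s - t| ≤ d := by
      rw [hd, Prod.dist_eq, Real.dist_eq]
      exact le_max_left _ _
    have h3 : ‖y - y'‖ ≤ d := by
      rw [hd, Prod.dist_eq, dist_eq_norm y y']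
      exact le_max_right _ _
    rw [← hd]
    have hd0 : 0 ≤ d := (abs_nonneg _).trans h2
    have e1 : flow f s y - flow g s y - (flow f t y' - flow g t y') =
        ((flow f s y - flow g s y) - (flow f t y - flow g t y)) +
        ((flow f t y - flow g t y) - (flow f t y' - flow g t y')) := by abel
    rw [e1]
    refine (norm_add_le _ _).trans ((add_le_add (htime s hs t ht y) (hspace t ht y y')).trans ?_)
    have h4 : (K * (c * T) + 1) * ε * |s - t| ≤ (K * (c * T) + 1) * ε * d := by gcongr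
    have h5 : c * ((c + 2 * K * c ^ 2 * T) * T) * ε * ‖y - y'‖ ≤
        c * ((c + 2 * K * c ^ 2 * T) * T) * ε * d := by gcongr
    have h6 : 0 ≤ c * T * ε * d := by positivity
    linarith

end FL

end

end Pool.Agent.HS

namespace Pool.Agent.HS
open Set Filter Topology

section
variable {E : Type*} [NormedAddCommGroup E] [NormedSpace ℝ E] [CompleteSpace E]

theorem flow_spec {B K : ℝ} {f : E → E} (hf : BL B K f) :
    (∀ y, flow f 0 y = y) ∧ ∀ y t, HasDerivAt (fun s => flow f s y) (f (flow f t y)) t :=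
  @Pool.Agent.HS.flow_spec_pr E _ _ _ B K f hf

end

end Pool.Agent.HS

namespace Pool.Agent.HS
open Set Filter Topology

section
variable {E : Type*} [NormedAddCommGroup E] [NormedSpace ℝ E] [CompleteSpace E]

theorem flow_unique {B K T : ℝ} {f : E → E} (hf : BL B K f) (hT : 0 ≤ T) {γ : ℝ → E}
    (hγ : ∀ t ∈ Icc (0:ℝ) T, HasDerivWithinAt γ (f (γ t)) (Icc 0 T) t) :
    ∀ t ∈ Icc (0:ℝ) T, γ t = flow f t (γ 0) :=
  @Pool.Agent.HS.flow_unique_pr E _ _ _ B K T f hf hT γ hγ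

end

end Pool.Agent.HS

namespace Pool.Agent.HS
open Set Filter Topology

section
variable {E : Type*} [NormedAddCommGroup E] [NormedSpace ℝ E] [CompleteSpace E]

theorem flow_add {B K : ℝ} {f : E → E} (hf : BL B K f) (s t : ℝ) (y : E) :
    flow f (s + t) y = flow f s (flow f t y) :=
  @Pool.Agent.HS.flow_add_pr E _ _ _ B K f hf s t y

end

end Pool.Agent.HS

namespace Pool.Agent.HS
open Set Filter Topology

section
variable {E : Type*} [NormedAddCommGroup E] [NormedSpace ℝ E] [CompleteSpace E]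

theorem flow_lip {B K T : ℝ} {f : E → E} (hf : BL B K f) (hB : 0 ≤ B) (hK : 0 ≤ K) (hT : 0 ≤ T) :
    ∀ s ∈ Icc (-T) T, ∀ t ∈ Icc (-T) T, ∀ y y' : E,
      ‖flow f s y - flow f t y'‖ ≤ B * |s - t| + Real.exp (K * T) * ‖y - y'‖ :=
  @Pool.Agent.HS.flow_lip_pr E _ _ _ B K T f hf hB hK hT

end

end Pool.Agent.HS

namespace Pool.Agent.HS
open Set Filter Topology

section
variable {E : Type*} [NormedAddCommGroup E] [NormedSpace ℝ E] [CompleteSpace E]

theorem flow_reg {B K T : ℝ} (hB : 0 ≤ B) (hK : 0 ≤ K) (hT : 0 ≤ T) :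
    ∃ L : ℝ, 0 ≤ L ∧ ∀ f : E → E, BL B K f → Reg K f univ →
      Reg L (fun p : ℝ × E => flow f p.1 p.2) (Icc (-T) T ×ˢ univ) :=
  @Pool.Agent.HS.flow_reg_pr E _ _ _ B K T hB hK hT

end

end Pool.Agent.HS

namespace Pool.Agent.HS
open Set Filter Topology

section
variable {E : Type*} [NormedAddCommGroup E] [NormedSpace ℝ E] [CompleteSpace E]

theorem flow_near {B K T : ℝ} (hB : 0 ≤ B) (hK : 0 ≤ K) (hT : 0 ≤ T) :
    ∃ L : ℝ, 0 ≤ L ∧ ∀ (f g : E → E) (ε : ℝ), 0 ≤ ε → BL B K f → BL B K g → Reg K g univ →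
      Near ε f g univ →
      Near (L * ε) (fun p : ℝ × E => flow f p.1 p.2) (fun p : ℝ × E => flow g p.1 p.2)
        (Icc (-T) T ×ˢ univ) :=
  @Pool.Agent.HS.flow_near_pr E _ _ _ B K T hB hK hT

end

end Pool.Agent.HS
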