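import Pool.Agent.Lib_helper60.HSF.D_WA

/-!
# Part A, block IO: the singular inner equation `B' = -2B/g + …`
-/

namespace Pool.Agent.HS

noncomputable section

open Set Filter Topology

section ino
variable {E₁ E₂ : Type*} [NormedAddCommGroup E₁] [NormedSpace ℝ E₁] [CompleteSpace E₁]
  [NormedAddCommGroup E₂] [NormedSpace ℝ E₂] [CompleteSpace E₂]

lemma io_mv {E : Type*} [NormedAddCommGroup E] [NormedSpace ℝ E] {f f' : ℝ → E} {μ g₀ g C : ℝ}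
    (hμ : 0 < μ) (hf : ∀ x ∈ Icc μ g₀, HasDerivWithinAt f (f' x) (Icc μ g₀) x)
    (hg : g ∈ Icc μ g₀) (hC : 0 ≤ C) (hb : ∀ x ∈ Icc μ g, ‖f' x‖ ≤ C) :
    ‖f g - f μ‖ ≤ C * g := by
  have hsub : Icc μ g ⊆ Icc μ g₀ := Icc_subset_Icc_right hg.2
  have h1 := norm_image_sub_le_of_norm_deriv_le_segment' (f := f) (f' := f') (C := C)
    (fun x hx => (hf x (hsub hx)).mono hsub) (fun x hx => hb x ⟨hx.1, hx.2.le⟩) g
    ⟨hg.1, le_rfl⟩
  refine h1.trans (mul_le_mul_of_nonneg_left (by linarith) hC)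

lemma io_sq {E : Type*} [NormedAddCommGroup E] [NormedSpace ℝ E] {B : ℝ → E} {q : E} {s : Set ℝ}
    {g : ℝ} (hg : 0 < g) (h : HasDerivWithinAt B (-(2 / g) • B g + q) s g) :
    HasDerivWithinAt (fun x : ℝ => x ^ 2 • B x) (g ^ 2 • q) s g := by
  have h1 : HasDerivWithinAt (fun x : ℝ => x ^ 2) (2 * g) s g := by
    simpa using (hasDerivAt_pow 2 g).hasDerivWithinAt (s := s)
  have h2 := h1.smul h
  have e : g ^ 2 • (-(2 / g) • B g + q) + (2 * g) • B g = g ^ 2 • q := by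
    rw [smul_add, smul_smul, add_right_comm, ← add_smul]
    have : g ^ 2 * -(2 / g) + 2 * g = 0 := by
      field_simp
      ring
    rw [this, zero_smul, zero_add]
  rwa [e] at h2

theorem inner_exists_pr {c g₀ μ : ℝ} (hμ : 0 < μ) (hμg : μ ≤ g₀) (hc : 0 ≤ c)
    {P : ℝ → E₁ → E₂ → E₁} {Q : ℝ → E₁ → E₂ → E₂} (h : InnerRHS c g₀ P Q) (y₀ : E₁) (b₀ : E₂) :
    ∃ Y B, Y μ = y₀ ∧ B μ = b₀ ∧ InnerSol μ g₀ P Q Y B := by
  obtain ⟨hP, hQ, hb⟩ := h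
  have hg0 : 0 < g₀ := lt_of_lt_of_le hμ hμg
  obtain ⟨v, hv⟩ : ∃ v : ℝ → E₁ × E₂ → E₁ × E₂, v = fun g z =>
      (P g z.1 ((μ / g) ^ 2 • z.2), (g / μ) ^ 2 • Q g z.1 ((μ / g) ^ 2 • z.2)) := ⟨_, rfl⟩
  obtain ⟨K, hK⟩ : ∃ K : ℝ, K = c * g₀ * 2 + (g₀ / μ) ^ 2 * (c * g₀ ^ 3 * 2) := ⟨_, rfl⟩
  have hK0 : 0 ≤ K := by rw [hK]; positivity
  have hin : ∀ g ∈ Icc μ g₀, g ∈ Icc 0 g₀ := fun g hg => ⟨hμ.le.trans hg.1, hg.2⟩
  have hr1 : ∀ g ∈ Icc μ g₀, (μ / g) ^ 2 ≤ 1 := by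
    intro g hg
    have hg' : 0 < g := lt_of_lt_of_le hμ hg.1
    apply pow_le_one₀ (by positivity)
    rw [div_le_one hg']
    exact hg.1
  have hr2 : ∀ g ∈ Icc μ g₀, (g / μ) ^ 2 ≤ (g₀ / μ) ^ 2 := by
    intro g hg
    have hg' : 0 < g := lt_of_lt_of_le hμ hg.1
    apply pow_le_pow_left₀ (by positivity)
    exact div_le_div_of_nonneg_right hg.2 hμ.le
  have hbd : ∀ g ∈ Icc μ g₀, ∀ z, ‖v g z‖ ≤ K := by
    intro g hg z
    have hg' : 0 < g := lt_of_lt_of_le hμ hg.1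
    obtain ⟨h1, h2⟩ := (hb g (hin g hg)).1 z.1 ((μ / g) ^ 2 • z.2)
    have h3 : c * g ≤ c * g₀ := mul_le_mul_of_nonneg_left hg.2 hc
    have h4 : c * g ^ 3 ≤ c * g₀ ^ 3 :=
      mul_le_mul_of_nonneg_left (pow_le_pow_left₀ hg'.le hg.2 3) hc
    have h5 : 0 ≤ c * g₀ := by positivity
    have h6 : 0 ≤ c * g₀ ^ 3 := by positivity
    have h7 : 0 ≤ (g₀ / μ) ^ 2 * (c * g₀ ^ 3) := by positivity
    rw [hv, Prod.norm_def, max_le_iff]
    constructor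
    · change ‖P g z.1 ((μ / g) ^ 2 • z.2)‖ ≤ K
      rw [hK]
      linarith
    · change ‖(g / μ) ^ 2 • Q g z.1 ((μ / g) ^ 2 • z.2)‖ ≤ K
      rw [norm_smul, Real.norm_of_nonneg (by positivity)]
      have := mul_le_mul (hr2 g hg) (h2.trans h4) (norm_nonneg _) (by positivity)
      rw [hK]
      linarith
  have hlip : ∀ g ∈ Icc μ g₀, ∀ z z', ‖v g z - v g z'‖ ≤ K * ‖z - z'‖ := by
    intro g hg z z'
    have hg' : 0 < g := lt_of_lt_of_le hμ hg.1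
    obtain ⟨h1, h2⟩ := (hb g (hin g hg)).2 z.1 ((μ / g) ^ 2 • z.2) z'.1 ((μ / g) ^ 2 • z'.2)
    have h3 : c * g ≤ c * g₀ := mul_le_mul_of_nonneg_left hg.2 hc
    have h4 : c * g ^ 3 ≤ c * g₀ ^ 3 :=
      mul_le_mul_of_nonneg_left (pow_le_pow_left₀ hg'.le hg.2 3) hc
    have h8 : ‖z.1 - z'.1‖ + ‖(μ / g) ^ 2 • z.2 - (μ / g) ^ 2 • z'.2‖ ≤ 2 * ‖z - z'‖ := by
      have e1 : ‖z.1 - z'.1‖ ≤ ‖z - z'‖ := norm_fst_le (z - z')
      have e2 : ‖z.2 - z'.2‖ ≤ ‖z - z'‖ := norm_snd_le (z - z')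
      have e3 : ‖(μ / g) ^ 2 • z.2 - (μ / g) ^ 2 • z'.2‖ ≤ ‖z.2 - z'.2‖ := by
        rw [← smul_sub, norm_smul, Real.norm_of_nonneg (by positivity)]
        exact mul_le_of_le_one_left (norm_nonneg _) (hr1 g hg)
      linarith
    have h5 : 0 ≤ c * g₀ * ‖z - z'‖ := by positivity
    have h7 : 0 ≤ (g₀ / μ) ^ 2 * (c * g₀ ^ 3) * ‖z - z'‖ := by positivity
    rw [hv, Prod.norm_def, max_le_iff]
    constructor
    · change ‖P g z.1 ((μ / g) ^ 2 • z.2) - P g z'.1 ((μ / g) ^ 2 • z'.2)‖ ≤ K * ‖z - z'‖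
      have := h1.trans (mul_le_mul h3 h8 (by positivity) (by positivity))
      rw [hK]
      linarith
    · change ‖(g / μ) ^ 2 • Q g z.1 ((μ / g) ^ 2 • z.2) -
        (g / μ) ^ 2 • Q g z'.1 ((μ / g) ^ 2 • z'.2)‖ ≤ K * ‖z - z'‖
      rw [← smul_sub, norm_smul, Real.norm_of_nonneg (by positivity)]
      have := mul_le_mul (hr2 g hg) (h2.trans (mul_le_mul h4 h8 (by positivity) (by positivity)))
        (norm_nonneg _) (by positivity)
      rw [hK]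
      linarith
  have hcont : ∀ z, ContinuousOn (fun g => v g z) (Icc μ g₀) := by
    intro z
    have hq : ContinuousOn (fun g : ℝ => (μ / g) ^ 2 • z.2) (Icc μ g₀) := by
      apply ContinuousOn.smul _ continuousOn_const
      apply ContinuousOn.pow
      apply ContinuousOn.div continuousOn_const continuousOn_id
      intro g hg
      exact (lt_of_lt_of_le hμ hg.1).ne'
    have hp : ContinuousOn (fun g : ℝ => (g, z.1, (μ / g) ^ 2 • z.2)) (Icc μ g₀) :=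
      continuousOn_id.prodMk (continuousOn_const.prodMk hq)
    rw [hv]
    apply ContinuousOn.prodMk
    · exact hP.comp_continuousOn hp
    · apply ContinuousOn.smul
      · exact (continuousOn_id.div_const μ).pow 2
      · exact hQ.comp_continuousOn hp
  have hPL : IsPicardLindelof v (tmin := μ) (tmax := g₀) ⟨μ, le_rfl, hμg⟩ (y₀, b₀)
      (⟨K * (g₀ - μ), mul_nonneg hK0 (by linarith)⟩ : NNReal) 0 ⟨K, hK0⟩ ⟨K, hK0⟩ := by
    constructor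
    · intro g hg
      apply LipschitzOnWith.of_dist_le_mul
      intro z _ z' _
      rw [dist_eq_norm, dist_eq_norm]
      exact hlip g hg z z'
    · intro z _
      exact hcont z
    · intro g hg z _
      exact hbd g hg z
    · simp only [sub_self, NNReal.coe_zero, sub_zero]
      rw [max_eq_left (by linarith)]
      exact le_rfl
  obtain ⟨α, hα0, hα⟩ := hPL.exists_eq_forall_mem_Icc_hasDerivWithinAt₀
  refine ⟨fun g => (α g).1, fun g => (μ / g) ^ 2 • (α g).2, ?_, ?_, ?_⟩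
  · change (α μ).1 = y₀
    rw [show α μ = (y₀, b₀) from hα0]
  · change (μ / μ) ^ 2 • (α μ).2 = b₀
    rw [show α μ = (y₀, b₀) from hα0, div_self hμ.ne', one_pow, one_smul]
  · intro g hg
    have hg' : 0 < g := lt_of_lt_of_le hμ hg.1
    have h1 := hα g hg
    rw [hv] at h1
    have h2 : HasDerivWithinAt (fun g => (α g).1) (P g (α g).1 ((μ / g) ^ 2 • (α g).2))
        (Icc μ g₀) g := h1.fst
    have h3 : HasDerivWithinAt (fun g => (α g).2)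
        ((g / μ) ^ 2 • Q g (α g).1 ((μ / g) ^ 2 • (α g).2)) (Icc μ g₀) g := h1.snd
    refine ⟨h2, ?_⟩
    have h4 : HasDerivWithinAt (fun x : ℝ => (μ / x) ^ 2) (-(2 / g) * (μ / g) ^ 2) (Icc μ g₀) g := by
      have e1 : HasDerivAt (fun x : ℝ => (μ / x) ^ 2)
          (((2 : ℕ) : ℝ) * (μ / g) ^ (2 - 1) * ((0 * g - μ * 1) / g ^ 2)) g :=
        ((hasDerivAt_const g μ).div (hasDerivAt_id g) hg'.ne').pow 2
      have e2 : ((2 : ℕ) : ℝ) * (μ / g) ^ (2 - 1) * ((0 * g - μ * 1) / g ^ 2) =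
          -(2 / g) * (μ / g) ^ 2 := by
        norm_num
        field_simp
      rw [e2] at e1
      exact e1.hasDerivWithinAt
    have h5 := h4.smul h3
    have e : (μ / g) ^ 2 • (g / μ) ^ 2 • Q g (α g).1 ((μ / g) ^ 2 • (α g).2) +
        (-(2 / g) * (μ / g) ^ 2) • (α g).2 = -(2 / g) • ((μ / g) ^ 2 • (α g).2) +
          Q g (α g).1 ((μ / g) ^ 2 • (α g).2) := by
      rw [smul_smul (-(2 / g)), smul_smul ((μ / g) ^ 2)]
      have : (μ / g) ^ 2 * (g / μ) ^ 2 = 1 := by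
        field_simp
      rw [this, one_smul, add_comm]
    rw [e] at h5
    exact h5

theorem inner_bound_pr {c g₀ μ : ℝ} (hμ : 0 < μ) (hμg : μ ≤ g₀) (hc : 0 ≤ c)
    {P : ℝ → E₁ → E₂ → E₁} {Q : ℝ → E₁ → E₂ → E₂} (h : InnerRHS c g₀ P Q) {Y : ℝ → E₁}
    {B : ℝ → E₂} (hs : InnerSol μ g₀ P Q Y B) :
    ∀ g ∈ Icc μ g₀, ‖Y g - Y μ‖ ≤ c * g ^ 2 ∧
      ‖B g - (μ / g) ^ 2 • B μ‖ ≤ c * g ^ 4 := by
  obtain ⟨-, -, hb⟩ := h
  intro g hg
  have hg' : 0 < g := lt_of_lt_of_le hμ hg.1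
  constructor
  · have h1 := io_mv hμ (fun x hx => (hs x hx).1) hg (by positivity : 0 ≤ c * g) (fun x hx => by
      refine (((hb x ⟨hμ.le.trans hx.1, hx.2.trans hg.2⟩).1 _ _).1).trans ?_
      exact mul_le_mul_of_nonneg_left hx.2 hc)
    linarith
  · have h1 := io_mv (f := fun x : ℝ => x ^ 2 • B x) hμ
      (fun x hx => io_sq (lt_of_lt_of_le hμ hx.1) (hs x hx).2) hg
      (by positivity : 0 ≤ c * g ^ 5) (fun x hx => by
        have hx' : 0 < x := lt_of_lt_of_le hμ hx.1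
        rw [norm_smul, Real.norm_of_nonneg (by positivity)]
        have e1 := ((hb x ⟨hμ.le.trans hx.1, hx.2.trans hg.2⟩).1 (Y x) (B x)).2
        calc x ^ 2 * ‖Q x (Y x) (B x)‖ ≤ x ^ 2 * (c * x ^ 3) :=
              mul_le_mul_of_nonneg_left e1 (by positivity)
          _ = c * x ^ 5 := by ring
          _ ≤ c * g ^ 5 := mul_le_mul_of_nonneg_left (pow_le_pow_left₀ hx'.le hx.2 5) hc)
    have e2 : B g - (μ / g) ^ 2 • B μ = (g ^ 2)⁻¹ • (g ^ 2 • B g - μ ^ 2 • B μ) := by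
      rw [smul_sub, smul_smul, smul_smul, inv_mul_cancel₀ (by positivity), one_smul]
      congr 2
      field_simp
    rw [e2, norm_smul, Real.norm_of_nonneg (by positivity), inv_mul_le_iff₀ (by positivity)]
    refine h1.trans (le_of_eq ?_)
    ring

/-- differences of two solutions; `c g₀² ≤ 1/8`, `g₀ ≤ 1` -/
theorem inner_diff_pr {c g₀ μ : ℝ} (hμ : 0 < μ) (hμg : μ ≤ g₀) (hc : 0 ≤ c)
    (hg : c * g₀ ^ 2 ≤ 1 / 8)
    (hg1 : g₀ ≤ 1)
    {P : ℝ → E₁ → E₂ → E₁} {Q : ℝ → E₁ → E₂ → E₂} (h : InnerRHS c g₀ P Q) {Y Y' : ℝ → E₁}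
    {B B' : ℝ → E₂} (hs : InnerSol μ g₀ P Q Y B) (hs' : InnerSol μ g₀ P Q Y' B') :
    ∀ g ∈ Icc μ g₀,
      ‖(Y g - Y' g) - (Y μ - Y' μ)‖ ≤ 4 * c * g ^ 2 * (‖Y μ - Y' μ‖ + ‖B μ - B' μ‖) ∧
      ‖(B g - B' g) - (μ / g) ^ 2 • (B μ - B' μ)‖ ≤
        4 * c * g ^ 4 * (‖Y μ - Y' μ‖ + ‖B μ - B' μ‖) := by
  obtain ⟨-, -, hb⟩ := h
  have hg0 : 0 < g₀ := lt_of_lt_of_le hμ hμg
  -- maximum of the difference
  have hcN : ContinuousOn (fun g => ‖Y g - Y' g‖ + ‖B g - B' g‖) (Icc μ g₀) := by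
    intro g hg
    exact (((hs g hg).1.continuousWithinAt.sub (hs' g hg).1.continuousWithinAt).norm).add
      (((hs g hg).2.continuousWithinAt.sub (hs' g hg).2.continuousWithinAt).norm)
  obtain ⟨gm, hgm, hmax⟩ := isCompact_Icc.exists_isMaxOn (nonempty_Icc.2 hμg) hcN
  obtain ⟨N, hN⟩ : ∃ N : ℝ, N = ‖Y gm - Y' gm‖ + ‖B gm - B' gm‖ := ⟨_, rfl⟩
  have hN0 : 0 ≤ N := by rw [hN]; positivity
  have hle : ∀ g ∈ Icc μ g₀, ‖Y g - Y' g‖ + ‖B g - B' g‖ ≤ N := by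
    intro g hg
    rw [hN]
    exact hmax hg
  obtain ⟨m, hm⟩ : ∃ m : ℝ, m = ‖Y μ - Y' μ‖ + ‖B μ - B' μ‖ := ⟨_, rfl⟩
  have hstep : ∀ g ∈ Icc μ g₀, ‖(Y g - Y' g) - (Y μ - Y' μ)‖ ≤ c * g ^ 2 * N ∧
      ‖(B g - B' g) - (μ / g) ^ 2 • (B μ - B' μ)‖ ≤ c * g ^ 4 * N := by
    intro g hg
    have hg' : 0 < g := lt_of_lt_of_le hμ hg.1
    constructor
    · have h1 := io_mv (f := fun x => Y x - Y' x) hμ
        (fun x hx => (hs x hx).1.sub (hs' x hx).1) hg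
        (by positivity : 0 ≤ c * g * N) (fun x hx => by
        have hx' : 0 < x := lt_of_lt_of_le hμ hx.1
        refine (((hb x ⟨hμ.le.trans hx.1, hx.2.trans hg.2⟩).2 _ _ _ _).1).trans ?_
        exact mul_le_mul (mul_le_mul_of_nonneg_left hx.2 hc) (hle x ⟨hx.1, hx.2.trans hg.2⟩)
          (by positivity) (by positivity))
      refine h1.trans (le_of_eq ?_)
      ring
    · have h1 := io_mv (f := fun x : ℝ => x ^ 2 • (B x - B' x))
        (f' := fun x => x ^ 2 • (Q x (Y x) (B x) - Q x (Y' x) (B' x))) hμ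
        (fun x hx => by
          apply io_sq (lt_of_lt_of_le hμ hx.1)
          have e1 := (hs x hx).2.sub (hs' x hx).2
          have e2 : -(2 / x) • B x + Q x (Y x) (B x) - (-(2 / x) • B' x + Q x (Y' x) (B' x)) =
              -(2 / x) • (B x - B' x) + (Q x (Y x) (B x) - Q x (Y' x) (B' x)) := by
            rw [smul_sub]
            abel
          rw [e2] at e1
          exact e1) hg
        (by positivity : 0 ≤ c * g ^ 5 * N) (fun x hx => by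
          have hx' : 0 < x := lt_of_lt_of_le hμ hx.1
          rw [norm_smul, Real.norm_of_nonneg (by positivity)]
          have e1 := ((hb x ⟨hμ.le.trans hx.1, hx.2.trans hg.2⟩).2 (Y x) (B x) (Y' x) (B' x)).2
          have e3 := hle x ⟨hx.1, hx.2.trans hg.2⟩
          calc x ^ 2 * ‖Q x (Y x) (B x) - Q x (Y' x) (B' x)‖
              ≤ x ^ 2 * (c * x ^ 3 * N) :=
                mul_le_mul_of_nonneg_left (e1.trans (mul_le_mul_of_nonneg_left e3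
                  (by positivity))) (by positivity)
            _ = c * x ^ 5 * N := by ring
            _ ≤ c * g ^ 5 * N := mul_le_mul_of_nonneg_right
                (mul_le_mul_of_nonneg_left (pow_le_pow_left₀ hx'.le hx.2 5) hc) hN0)
      have e2 : (B g - B' g) - (μ / g) ^ 2 • (B μ - B' μ) =
          (g ^ 2)⁻¹ • (g ^ 2 • (B g - B' g) - μ ^ 2 • (B μ - B' μ)) := by
        rw [smul_sub ((g ^ 2)⁻¹), smul_smul, smul_smul, inv_mul_cancel₀ (by positivity), one_smul]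
        congr 2
        field_simp
      rw [e2, norm_smul, Real.norm_of_nonneg (by positivity), inv_mul_le_iff₀ (by positivity)]
      refine h1.trans (le_of_eq ?_)
      ring
  have hNm : N ≤ 4 * m := by
    obtain ⟨h1, h2⟩ := hstep gm hgm
    have hgm' : 0 < gm := lt_of_lt_of_le hμ hgm.1
    have e1 : ‖Y gm - Y' gm‖ ≤ ‖Y μ - Y' μ‖ + c * gm ^ 2 * N := by
      have : Y gm - Y' gm = (Y μ - Y' μ) + ((Y gm - Y' gm) - (Y μ - Y' μ)) := by abel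
      rw [this]
      exact (norm_add_le _ _).trans (add_le_add_right h1 _)
    have e2 : ‖B gm - B' gm‖ ≤ ‖B μ - B' μ‖ + c * gm ^ 4 * N := by
      have : B gm - B' gm = (μ / gm) ^ 2 • (B μ - B' μ) +
          ((B gm - B' gm) - (μ / gm) ^ 2 • (B μ - B' μ)) := by abel
      rw [this]
      refine (norm_add_le _ _).trans (add_le_add ?_ h2)
      rw [norm_smul, Real.norm_of_nonneg (by positivity)]
      apply mul_le_of_le_one_left (norm_nonneg _)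
      apply pow_le_one₀ (by positivity)
      rw [div_le_one hgm']
      exact hgm.1
    have e3 : c * gm ^ 2 * N ≤ 1 / 8 * N := by
      apply mul_le_mul_of_nonneg_right _ hN0
      exact (mul_le_mul_of_nonneg_left (pow_le_pow_left₀ hgm'.le hgm.2 2) hc).trans hg
    have e4 : c * gm ^ 4 * N ≤ 1 / 8 * N := by
      apply mul_le_mul_of_nonneg_right _ hN0
      have e5 : gm ^ 4 ≤ g₀ ^ 2 := by
        have e6 : gm ^ 4 = gm ^ 2 * gm ^ 2 := by ring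
        have e7 : gm ^ 2 ≤ 1 := pow_le_one₀ hgm'.le (hgm.2.trans hg1)
        rw [e6]
        exact (mul_le_of_le_one_left (by positivity) e7).trans
          (pow_le_pow_left₀ hgm'.le hgm.2 2)
      exact (mul_le_mul_of_nonneg_left e5 hc).trans hg
    rw [hm]
    linarith
  intro g hg
  have hg' : 0 < g := lt_of_lt_of_le hμ hg.1
  rw [← hm]
  obtain ⟨h1, h2⟩ := hstep g hg
  constructor
  · refine h1.trans ?_
    calc c * g ^ 2 * N ≤ c * g ^ 2 * (4 * m) := mul_le_mul_of_nonneg_left hNm (by positivity)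
      _ = _ := by ring
  · refine h2.trans ?_
    calc c * g ^ 4 * N ≤ c * g ^ 4 * (4 * m) := mul_le_mul_of_nonneg_left hNm (by positivity)
      _ = _ := by ring

end ino

end

end Pool.Agent.HS

namespace Pool.Agent.HS
open Set Filter Topology

section
variable {E₁ E₂ : Type*} [NormedAddCommGroup E₁] [NormedSpace ℝ E₁] [CompleteSpace E₁]
  [NormedAddCommGroup E₂] [NormedSpace ℝ E₂] [CompleteSpace E₂]

theorem inner_exists {c g₀ μ : ℝ} (hμ : 0 < μ) (hμg : μ ≤ g₀) (hc : 0 ≤ c)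
    {P : ℝ → E₁ → E₂ → E₁} {Q : ℝ → E₁ → E₂ → E₂} (h : InnerRHS c g₀ P Q) (y₀ : E₁) (b₀ : E₂) :
    ∃ Y B, Y μ = y₀ ∧ B μ = b₀ ∧ InnerSol μ g₀ P Q Y B :=
  @Pool.Agent.HS.inner_exists_pr E₁ E₂ _ _ _ _ _ _ c g₀ μ hμ hμg hc P Q h y₀ b₀

end

end Pool.Agent.HS

namespace Pool.Agent.HS
open Set Filter Topology

section
variable {E₁ E₂ : Type*} [NormedAddCommGroup E₁] [NormedSpace ℝ E₁] [CompleteSpace E₁]
  [NormedAddCommGroup E₂] [NormedSpace ℝ E₂] [CompleteSpace E₂]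

theorem inner_bound {c g₀ μ : ℝ} (hμ : 0 < μ) (hμg : μ ≤ g₀) (hc : 0 ≤ c)
    {P : ℝ → E₁ → E₂ → E₁} {Q : ℝ → E₁ → E₂ → E₂} (h : InnerRHS c g₀ P Q) {Y : ℝ → E₁}
    {B : ℝ → E₂} (hs : InnerSol μ g₀ P Q Y B) :
    ∀ g ∈ Icc μ g₀, ‖Y g - Y μ‖ ≤ c * g ^ 2 ∧
      ‖B g - (μ / g) ^ 2 • B μ‖ ≤ c * g ^ 4 :=
  @Pool.Agent.HS.inner_bound_pr E₁ E₂ _ _ _ _ _ _ c g₀ μ hμ hμg hc P Q h Y B hs

end

end Pool.Agent.HS

namespace Pool.Agent.HS
open Set Filter Topology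

section
variable {E₁ E₂ : Type*} [NormedAddCommGroup E₁] [NormedSpace ℝ E₁] [CompleteSpace E₁]
  [NormedAddCommGroup E₂] [NormedSpace ℝ E₂] [CompleteSpace E₂]

theorem inner_diff {c g₀ μ : ℝ} (hμ : 0 < μ) (hμg : μ ≤ g₀) (hc : 0 ≤ c) (hg : c * g₀ ^ 2 ≤ 1 / 8)
    (hg1 : g₀ ≤ 1)
    {P : ℝ → E₁ → E₂ → E₁} {Q : ℝ → E₁ → E₂ → E₂} (h : InnerRHS c g₀ P Q) {Y Y' : ℝ → E₁}
    {B B' : ℝ → E₂} (hs : InnerSol μ g₀ P Q Y B) (hs' : InnerSol μ g₀ P Q Y' B') :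
    ∀ g ∈ Icc μ g₀,
      ‖(Y g - Y' g) - (Y μ - Y' μ)‖ ≤ 4 * c * g ^ 2 * (‖Y μ - Y' μ‖ + ‖B μ - B' μ‖) ∧
      ‖(B g - B' g) - (μ / g) ^ 2 • (B μ - B' μ)‖ ≤
        4 * c * g ^ 4 * (‖Y μ - Y' μ‖ + ‖B μ - B' μ‖) :=
  @Pool.Agent.HS.inner_diff_pr E₁ E₂ _ _ _ _ _ _ c g₀ μ hμ hμg hc hg hg1 P Q h Y Y' B B' hs hs'

end

end Pool.Agent.HS
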