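import Pool.Agent.Lib_helper60.HSF.D_Defs

/-!
# Part A, block NW: Newton's method with Lipschitz dependence on parameters
-/

namespace Pool.Agent.HS

noncomputable section

open Set Filter Topology

theorem newton_lip_pr {P E F : Type*} [PseudoMetricSpace P] [NormedAddCommGroup E]
    [NormedSpace ℝ E] [CompleteSpace E] [NormedAddCommGroup F] [NormedSpace ℝ F]
    (Ξ Υ : P × E → F) (A : P → E ≃L[ℝ] F) (S : Set P) (ρ K c L ε : ℝ)
    (hρ : 0 < ρ) (hK : 0 < K) (hc : 0 ≤ c) (hL : 0 ≤ L) (hε : 0 ≤ ε)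
    (h0 : ∀ p ∈ S, Ξ (p, 0) = 0)
    (hA : ∀ p ∈ S, ∀ v, ‖(A p).symm v‖ ≤ K * ‖v‖)
    (h1 : ∀ p ∈ S, ∀ η ∈ Metric.closedBall (0:E) ρ, ∀ η' ∈ Metric.closedBall (0:E) ρ,
      ‖Ξ (p, η) - Ξ (p, η') - A p (η - η')‖ ≤ c * ‖η - η'‖)
    (h3 : ∀ p ∈ S, ∀ p' ∈ S, ∀ η ∈ Metric.closedBall (0:E) ρ,
      ‖Ξ (p, η) - Ξ (p', η)‖ ≤ L * ‖η‖ * dist p p')
    (hn : Near ε Υ Ξ (S ×ˢ Metric.closedBall (0:E) ρ))
    (hcK : c * K ≤ 1 / 4) (hεK : ε * K ≤ 1 / 4) (hερ : 2 * K * ε ≤ ρ) :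
    ∃ η : P → E, (∀ p ∈ S, ‖η p‖ ≤ 2 * K * ε ∧ Υ (p, η p) = 0) ∧
      (∀ p ∈ S, ∀ η' ∈ Metric.closedBall (0:E) ρ, Υ (p, η') = 0 → η' = η p) ∧
      Lip (2 * K * ε * (1 + 2 * L * K)) η S := by
  classical
  have hsub : Metric.closedBall (0:E) (2 * K * ε) ⊆ Metric.closedBall (0:E) ρ :=
    Metric.closedBall_subset_closedBall hερ
  have hr0 : 0 ≤ 2 * K * ε := by positivity
  have hzρ : (0:E) ∈ Metric.closedBall (0:E) ρ := Metric.mem_closedBall_self hρ.le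
  -- basic estimate
  have key : ∀ p ∈ S, ∀ x ∈ Metric.closedBall (0:E) ρ, ∀ y ∈ Metric.closedBall (0:E) ρ,
      ‖(x - (A p).symm (Υ (p, x))) - (y - (A p).symm (Υ (p, y)))‖ ≤ 1 / 2 * ‖x - y‖ := by
    intro p hp x hx y hy
    have e1 : (x - (A p).symm (Υ (p, x))) - (y - (A p).symm (Υ (p, y))) =
        -(A p).symm ((Ξ (p, x) - Ξ (p, y) - A p (x - y)) +
          ((Υ (p, x) - Ξ (p, x)) - (Υ (p, y) - Ξ (p, y)))) := by
      have e0 : (Ξ (p, x) - Ξ (p, y) - A p (x - y)) +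
          ((Υ (p, x) - Ξ (p, x)) - (Υ (p, y) - Ξ (p, y))) =
          (Υ (p, x) - Υ (p, y)) - A p (x - y) := by abel
      rw [e0, map_sub, map_sub, ContinuousLinearEquiv.symm_apply_apply]
      abel
    rw [e1, norm_neg]
    refine (hA p hp _).trans ?_
    have e2 := h1 p hp x hx y hy
    have e3 := hn.2 (p, x) ⟨hp, hx⟩ (p, y) ⟨hp, hy⟩
    have e4 : dist (p, x) (p, y) = ‖x - y‖ := by
      rw [Prod.dist_eq, dist_self, max_eq_right dist_nonneg, dist_eq_norm]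
    rw [e4] at e3
    have e5 := (norm_add_le _ _).trans (add_le_add e2 e3)
    have e6 := mul_le_mul_of_nonneg_left e5 hK.le
    refine e6.trans ?_
    have e7 : K * (c * ‖x - y‖ + ε * ‖x - y‖) = (c * K + ε * K) * ‖x - y‖ := by ring
    rw [e7]
    exact mul_le_mul_of_nonneg_right (by linarith) (norm_nonneg _)
  have hT0 : ∀ p ∈ S, ‖(A p).symm (Υ (p, 0))‖ ≤ K * ε := by
    intro p hp
    refine (hA p hp _).trans (mul_le_mul_of_nonneg_left ?_ hK.le)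
    have e1 := hn.1 (p, 0) ⟨hp, hzρ⟩
    rwa [h0 p hp, sub_zero] at e1
  -- existence
  have hex : ∀ p ∈ S, ∃ x : E, ‖x‖ ≤ 2 * K * ε ∧ Υ (p, x) = 0 := by
    intro p hp
    obtain ⟨T, hT⟩ : ∃ T : E → E, T = fun x => x - (A p).symm (Υ (p, x)) := ⟨_, rfl⟩
    have hmaps : MapsTo T (Metric.closedBall (0:E) (2 * K * ε))
        (Metric.closedBall (0:E) (2 * K * ε)) := by
      intro x hx
      have e1 := key p hp x (hsub hx) 0 hzρ
      have e2 := hT0 p hp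
      rw [mem_closedBall_zero_iff] at hx ⊢
      have e3 : T x = ((x - (A p).symm (Υ (p, x))) - (0 - (A p).symm (Υ (p, 0)))) -
          (A p).symm (Υ (p, 0)) := by
        rw [hT]
        beta_reduce
        abel
      rw [e3]
      refine (norm_sub_le _ _).trans ?_
      rw [sub_zero] at e1
      linarith
    have hcon : ContractingWith (1 / 2 : NNReal) (hmaps.restrict T _ _) := by
      refine ⟨by
        rw [div_lt_one (by norm_num)]
        norm_num, ?_⟩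
      apply LipschitzWith.of_dist_le_mul
      rintro ⟨x, hx⟩ ⟨y, hy⟩
      have e1 := key p hp x (hsub hx) y (hsub hy)
      rw [Subtype.dist_eq, Subtype.dist_eq, dist_eq_norm, dist_eq_norm]
      simp only [MapsTo.val_restrict_apply, hT]
      refine e1.trans (le_of_eq ?_)
      norm_num
    obtain ⟨x, hx, hfix, -⟩ := hcon.exists_fixedPoint' (s := Metric.closedBall (0:E) (2 * K * ε))
      (Metric.isClosed_closedBall.isComplete) hmaps
      (Metric.mem_closedBall_self hr0) (edist_ne_top _ _)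
    refine ⟨x, mem_closedBall_zero_iff.1 hx, ?_⟩
    have e1 : T x = x := hfix
    rw [hT] at e1
    have e2 : (A p).symm (Υ (p, x)) = 0 := by
      have : x - (A p).symm (Υ (p, x)) = x := e1
      exact sub_eq_self.1 this
    have e3 : (A p) ((A p).symm (Υ (p, x))) = Υ (p, x) := (A p).apply_symm_apply _
    rw [e2, map_zero] at e3
    exact e3.symm
  choose! η hη using hex
  have huniq : ∀ p ∈ S, ∀ η' ∈ Metric.closedBall (0:E) ρ, Υ (p, η') = 0 → η' = η p := by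
    intro p hp η' hη' h
    have e0 : η p ∈ Metric.closedBall (0:E) ρ := hsub (mem_closedBall_zero_iff.2 (hη p hp).1)
    have e1 := key p hp η' hη' (η p) e0
    rw [h, (hη p hp).2, map_zero, sub_zero, sub_zero] at e1
    have e2 : ‖η' - η p‖ = 0 := by
      have := norm_nonneg (η' - η p)
      linarith
    exact sub_eq_zero.1 (norm_eq_zero.1 e2)
  refine ⟨η, hη, huniq, ?_⟩
  intro p hp p' hp'
  have hb : η p ∈ Metric.closedBall (0:E) ρ := hsub (mem_closedBall_zero_iff.2 (hη p hp).1)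
  have hb' : η p' ∈ Metric.closedBall (0:E) ρ := hsub (mem_closedBall_zero_iff.2 (hη p' hp').1)
  have e1 : η p - η p' = -(A p).symm ((Ξ (p, η p) - Ξ (p, η p') - A p (η p - η p')) +
      (((Υ (p, η p) - Ξ (p, η p)) - (Υ (p', η p') - Ξ (p', η p'))) +
        (Ξ (p, η p') - Ξ (p', η p')))) := by
    have e2 : (Ξ (p, η p) - Ξ (p, η p') - A p (η p - η p')) +
      (((Υ (p, η p) - Ξ (p, η p)) - (Υ (p', η p') - Ξ (p', η p'))) +
        (Ξ (p, η p') - Ξ (p', η p'))) = -A p (η p - η p') := by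
      rw [(hη p hp).2, (hη p' hp').2]
      abel
    rw [e2, map_neg, ContinuousLinearEquiv.symm_apply_apply, neg_neg]
  have e2 := h1 p hp (η p) hb (η p') hb'
  have e3 := hn.2 (p, η p) ⟨hp, hb⟩ (p', η p') ⟨hp', hb'⟩
  have e4 : dist (p, η p) (p', η p') ≤ dist p p' + ‖η p - η p'‖ := by
    rw [Prod.dist_eq, ← dist_eq_norm]
    exact max_le (le_add_of_nonneg_right dist_nonneg) (le_add_of_nonneg_left dist_nonneg)
  have e5 := h3 p hp p' hp' (η p') hb'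
  have e6 : L * ‖η p'‖ * dist p p' ≤ L * (2 * K * ε) * dist p p' :=
    mul_le_mul_of_nonneg_right (mul_le_mul_of_nonneg_left (hη p' hp').1 hL) dist_nonneg
  have e7 := mul_le_mul_of_nonneg_left e4 hε
  have e8 : ‖η p - η p'‖ ≤ K * (c * ‖η p - η p'‖ + (ε * (dist p p' + ‖η p - η p'‖) +
      L * (2 * K * ε) * dist p p')) := by
    calc ‖η p - η p'‖ = ‖(A p).symm ((Ξ (p, η p) - Ξ (p, η p') - A p (η p - η p')) +
        (((Υ (p, η p) - Ξ (p, η p)) - (Υ (p', η p') - Ξ (p', η p'))) +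
        (Ξ (p, η p') - Ξ (p', η p'))))‖ := by
          conv_lhs => rw [e1, norm_neg]
      _ ≤ _ := (hA p hp _).trans (mul_le_mul_of_nonneg_left ((norm_add_le _ _).trans
          (add_le_add e2 ((norm_add_le _ _).trans (add_le_add (e3.trans e7) (e5.trans e6)))))
          hK.le)
  have e9 : K * (c * ‖η p - η p'‖ + (ε * (dist p p' + ‖η p - η p'‖) +
      L * (2 * K * ε) * dist p p')) = (c * K + ε * K) * ‖η p - η p'‖ +
      K * ε * (1 + 2 * L * K) * dist p p' := by ring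
  rw [e9] at e8
  have e10 : (c * K + ε * K) * ‖η p - η p'‖ ≤ 1 / 2 * ‖η p - η p'‖ :=
    mul_le_mul_of_nonneg_right (by linarith) (norm_nonneg _)
  linarith

end

end Pool.Agent.HS

namespace Pool.Agent.HS
open Set Filter Topology

theorem newton_lip {P E F : Type*} [PseudoMetricSpace P] [NormedAddCommGroup E] [NormedSpace ℝ E]
    [CompleteSpace E] [NormedAddCommGroup F] [NormedSpace ℝ F]
    (Ξ Υ : P × E → F) (A : P → E ≃L[ℝ] F) (S : Set P) (ρ K c L ε : ℝ)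
    (hρ : 0 < ρ) (hK : 0 < K) (hc : 0 ≤ c) (hL : 0 ≤ L) (hε : 0 ≤ ε)
    (h0 : ∀ p ∈ S, Ξ (p, 0) = 0)
    (hA : ∀ p ∈ S, ∀ v, ‖(A p).symm v‖ ≤ K * ‖v‖)
    (h1 : ∀ p ∈ S, ∀ η ∈ Metric.closedBall (0:E) ρ, ∀ η' ∈ Metric.closedBall (0:E) ρ,
      ‖Ξ (p, η) - Ξ (p, η') - A p (η - η')‖ ≤ c * ‖η - η'‖)
    (h3 : ∀ p ∈ S, ∀ p' ∈ S, ∀ η ∈ Metric.closedBall (0:E) ρ,
      ‖Ξ (p, η) - Ξ (p', η)‖ ≤ L * ‖η‖ * dist p p')
    (hn : Near ε Υ Ξ (S ×ˢ Metric.closedBall (0:E) ρ))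
    (hcK : c * K ≤ 1 / 4) (hεK : ε * K ≤ 1 / 4) (hερ : 2 * K * ε ≤ ρ) :
    ∃ η : P → E, (∀ p ∈ S, ‖η p‖ ≤ 2 * K * ε ∧ Υ (p, η p) = 0) ∧
      (∀ p ∈ S, ∀ η' ∈ Metric.closedBall (0:E) ρ, Υ (p, η') = 0 → η' = η p) ∧
      Lip (2 * K * ε * (1 + 2 * L * K)) η S :=
  @Pool.Agent.HS.newton_lip_pr P E F _ _ _ _ _ _ Ξ Υ A S ρ K c L ε hρ hK hc hL hε h0 hA h1 h3 hn hcK hεK hερ

end Pool.Agent.HS
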