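import Mathlib

/-!
# Project HS (MP_b9cbe4_an): definitions

Planar three-body problem, masses `m1 = 1`, `m2 = (3/4) M`, `m3 = (1/4) M`.
-/

namespace Pool.Agent.HS

noncomputable section

open Set Filter Topology

/-! ## Lipschitz closeness -/

section Calc
variable {α : Type*} [PseudoMetricSpace α]
variable {E F : Type*} [NormedAddCommGroup E] [NormedAddCommGroup F]

/-- `f` and `g` are `ε`-close on `S`, in sup norm and in Lipschitz seminorm. -/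
def Near (ε : ℝ) (f g : α → E) (S : Set α) : Prop :=
  (∀ p ∈ S, ‖f p - g p‖ ≤ ε) ∧
    ∀ p ∈ S, ∀ q ∈ S, ‖(f p - g p) - (f q - g q)‖ ≤ ε * dist p q

/-- Lipschitz on `S`. -/
def Lip (L : ℝ) (f : α → E) (S : Set α) : Prop :=
  ∀ p ∈ S, ∀ q ∈ S, ‖f p - f q‖ ≤ L * dist p q

/-- Class `C^{1,1}` on `S`, in difference form. -/
def Reg (L : ℝ) (f : E → F) (S : Set E) : Prop :=
  Lip L f S ∧ ∀ x ∈ S, ∀ y ∈ S, ∀ x' ∈ S, ∀ y' ∈ S,
    ‖f x - f y - f x' + f y'‖ ≤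
      L * ‖x - y - x' + y'‖ + L * (‖x - x'‖ + ‖y - y'‖) * ‖x' - y'‖

end Calc

/-! ## The equations -/

/-- mass of body 3 divided by `M` -/
def ma : ℝ := 1 / 4
/-- mass of body 2 divided by `M` -/
def mb : ℝ := 3 / 4

/-- Newtonian field `x / |x|^3` -/
def G (x : ℂ) : ℂ := ((‖x‖ ^ 3)⁻¹ : ℝ) * x

/-- state `(x3, x2, u3, u2)`: positions relative to body 1, barycentric velocities -/
abbrev St := ℂ × ℂ × ℂ × ℂ

def x3 (y : St) : ℂ := y.1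
def x2 (y : St) : ℂ := y.2.1
def u3 (y : St) : ℂ := y.2.2.1
def u2 (y : St) : ℂ := y.2.2.2

/-- the vector field -/
def vf (M : ℝ) (y : St) : St :=
  (u3 y + M * (ma * u3 y + mb * u2 y),
   u2 y + M * (ma * u3 y + mb * u2 y),
   - G (x3 y) - (mb * M : ℝ) * G (x3 y - x2 y),
   - G (x2 y) + (ma * M : ℝ) * G (x3 y - x2 y))

/-- no collision -/
def NC (y : St) : Prop := x3 y ≠ 0 ∧ x2 y ≠ 0 ∧ x3 y ≠ x2 y

/-- `γ` is a collision free solution on `[0,T]` -/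
def SolOn (M T : ℝ) (γ : ℝ → St) : Prop :=
  ∀ t ∈ Icc (0:ℝ) T, NC (γ t) ∧ HasDerivWithinAt γ (vf M (γ t)) (Icc 0 T) t

/-- `y'` is reached from `y` in forward time without collision -/
def Reach (M : ℝ) (y y' : St) : Prop :=
  ∃ T : ℝ, 0 ≤ T ∧ ∃ γ : ℝ → St, SolOn M T γ ∧ γ 0 = y ∧ γ T = y'

def rot (ρ : ℂ) (y : St) : St := (ρ * x3 y, ρ * x2 y, ρ * u3 y, ρ * u2 y)

/-- reached up to a rotation -/
def ReachR (M : ℝ) (y y' : St) : Prop := ∃ ρ : ℂ, ‖ρ‖ = 1 ∧ Reach M y (rot ρ y')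

/-- time reversal -/
def rev (y : St) : St := (x3 y, x2 y, - u3 y, - u2 y)

/-- `R = a x3 + b x2` -/
def cR (y : St) : ℂ := ma * x3 y + mb * x2 y
/-- `U = a u3 + b u2` -/
def cU (y : St) : ℂ := ma * u3 y + mb * u2 y
/-- `ξ = x3 - x2` -/
def cX (y : St) : ℂ := x3 y - x2 y
/-- `w = u3 - u2` -/
def cW (y : St) : ℂ := u3 y - u2 y
/-- the state with given `R, U, ξ, w` -/
def ofRU (R U ξ w : ℂ) : St := (R + mb * ξ, R - ma * ξ, U + mb * w, U - ma * w)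

/-- energy -/
def Ham (M : ℝ) (y : St) : ℝ :=
  (1 + M) * ‖cU y‖ ^ 2 / 2 + ma * mb * (‖cW y‖ ^ 2 / 2 - M / ‖cX y‖)
    - ma / ‖x3 y‖ - mb / ‖x2 y‖

/-- angular momentum -/
def Ang (y : St) : ℝ :=
  ((starRingEnd ℂ) (cR y) * cU y).im + ma * mb * ((starRingEnd ℂ) (cX y) * cW y).im

/-! ## Constants of the base resonance `T3 = 2 T2` -/

def h30 : ℝ := - 1 / 2
def h20 : ℝ := - (2:ℝ) ^ (-(1/3) : ℝ)
def E0 : ℝ := ma * h30 + mb * h20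
def d0 : ℝ := h30 - h20
/-- relative speed at the corner, `κ_h^2 = 2 δ / s`, `s = 1/2` -/
def kh : ℝ := Real.sqrt (4 * d0)
/-- distance of the corner from the sun -/
def rh : ℝ := (mb ^ 2 * kh ^ 2 / 2 - h30)⁻¹
/-- scaling constant of the centre plane, `s / (a b rh^2 kh)` -/
def cc : ℝ := 8 / (3 * rh ^ 2 * kh)

/-- the chart of the centre plane: `(x, z) ↦ (r, p)`;
`ρ = 1/2 + x`, `π = 1/2 + 2 x + z`, `r = rh + C ρ / (cc rh)`, `p = C π / rh` -/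
def chart (C : ℝ) (X : ℝ × ℝ) : ℝ × ℝ :=
  (rh + C * (1/2 + X.1) / (cc * rh), C * (1/2 + 2 * X.1 + X.2) / rh)

/-! ## Encounters -/

/-- modulus of `A0`, `D0` -/
def amp (κ β : ℝ) : ℝ := (1 + κ ^ 2 * β ^ 2) ^ (1/4 : ℝ) / (Real.sqrt 2 * κ)

/-- `α_+ / μ` -/
def A0 (κ χ β : ℝ) : ℂ := amp κ β * Complex.exp ((χ / 2 : ℝ) * Complex.I)

/-- `α_- / μ` -/
def D0 (κ χ β : ℝ) : ℂ :=
  (-1 - (κ * β : ℝ) * Complex.I) / (2 * κ ^ 2 * amp κ β : ℝ) * Complex.exp ((χ / 2 : ℝ) * Complex.I)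

/-- Cartesian state from the Levi-Civita variables of the encounter; `h = |w|^2/2 - M/|ξ|` -/
def ofUV (R U u v : ℂ) (h : ℝ) : St :=
  ofRU R U (u ^ 2) (2 * Real.sqrt (h / 2) * v / (starRingEnd ℂ) u)

/-- the state at the closest approach, outgoing data -/
def outSt (μ : ℝ) (R U : ℂ) (κ χ β : ℝ) : St :=
  ofUV R U (μ * (A0 κ χ β + D0 κ χ β)) (μ * (A0 κ χ β - D0 κ χ β)) (κ ^ 2 / 2)

/-- the state at the closest approach, incoming data -/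
def inSt (μ : ℝ) (R U : ℂ) (κ χ β : ℝ) : St :=
  rev (outSt μ R (-U) κ (χ + Real.pi) (-β))

/-- `U` at an encounter with centre data `(r, p)`, total angular momentum `C` -/
def Uenc (C μ r p β : ℝ) : ℂ := p + ((C - ma * mb * μ ^ 2 * β) / r : ℝ) * Complex.I

/-- relative speed of the limit problem -/
def kap0 (C : ℝ) (Y : ℝ × ℝ) : ℝ :=
  Real.sqrt (2 / (ma * mb) * (E0 + 1 / Y.1 - (Y.2 ^ 2 + C ^ 2 / Y.1 ^ 2) / 2))

/-- collision state of the limit problem: centre data `Y = (r,p)`, direction `χ` -/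
def colSt (C : ℝ) (Y : ℝ × ℝ) (χ : ℝ) : St :=
  ofRU Y.1 (Uenc C 0 Y.1 Y.2 0) 0 (kap0 C Y * Complex.exp (χ * Complex.I))

/-! ## Kepler problem -/

abbrev KS := ℂ × ℂ

def kr (y : KS) : ℝ := ‖y.1‖
def kh' (y : KS) : ℝ := ‖y.2‖ ^ 2 / 2 - 1 / ‖y.1‖
/-- semi-major axis -/
def kA (y : KS) : ℝ := - 1 / (2 * kh' y)
def kσ (y : KS) : ℝ := ((starRingEnd ℂ) y.1 * y.2).re
def kL (y : KS) : ℝ := ((starRingEnd ℂ) y.1 * y.2).im
/-- distance as a function of the eccentric anomaly difference -/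
def kR (y : KS) (s : ℝ) : ℝ :=
  kA y + (kr y - kA y) * Real.cos s + Real.sqrt (kA y) * kσ y * Real.sin s
def kX (y : KS) (s : ℝ) : ℂ :=
  ((1 - kA y / kr y * (1 - Real.cos s)) : ℝ) * y.1
    + ((Real.sqrt (kA y) * kr y * Real.sin s + kA y * kσ y * (1 - Real.cos s)) : ℝ) * y.2
def kV (y : KS) (s : ℝ) : ℂ :=
  ((Real.sqrt (kA y) * kR y s)⁻¹ : ℝ) *
    ((- (kA y / kr y) * Real.sin s : ℝ) * y.1
      + ((Real.sqrt (kA y) * kr y * Real.cos s + kA y * kσ y * Real.sin s) : ℝ) * y.2)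
/-- time as a function of the eccentric anomaly difference -/
def kT (y : KS) (s : ℝ) : ℝ :=
  Real.sqrt (kA y) * (kA y * s + (kr y - kA y) * Real.sin s
    + Real.sqrt (kA y) * kσ y * (1 - Real.cos s))
def kPer (y : KS) : ℝ := 2 * Real.pi * kA y * Real.sqrt (kA y)
/-- eccentric anomaly difference at time `t` -/
def kS (y : KS) (t : ℝ) : ℝ := Function.invFun (kT y) t
/-- Kepler flow -/
def kep (t : ℝ) (y : KS) : KS := (kX y (kS y t), kV y (kS y t))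

/-- the flow for `M = 0` -/
def Phi0 (t : ℝ) (y : St) : St :=
  ((kep t (x3 y, u3 y)).1, (kep t (x2 y, u2 y)).1, (kep t (x3 y, u3 y)).2, (kep t (x2 y, u2 y)).2)

/-! ## Levi-Civita coordinates for one body

`i = 0`: body 3 is regularized; `i = 1`: body 2 is regularized. -/

def mP (i : Fin 2) : ℝ := if i = 0 then ma else mb
def mQ (i : Fin 2) : ℝ := if i = 0 then mb else ma

/-- `(ζ, η, x, u, E)` with `x_P = ζ^2`, `u_P = η / (2 conj ζ)`, `x_Q = x`, `u_Q = u` -/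
abbrev LCS := ℂ × ℂ × ℂ × ℂ × ℝ

def lcB (i : Fin 2) (M : ℝ) (Z : LCS) : ℝ :=
  mQ i * (1 + mQ i * M) * ‖Z.2.2.2.1‖ ^ 2 / 2 - mQ i / ‖Z.2.2.1‖ - Z.2.2.2.2
    - mP i * mQ i * M / ‖Z.1 ^ 2 - Z.2.2.1‖

/-- regularized vector field -/
def lcf (i : Fin 2) (M : ℝ) (Z : LCS) : LCS :=
  let ζ := Z.1
  let η := Z.2.1
  let x := Z.2.2.1
  let u := Z.2.2.2.1
  (((1 + mP i * M) / 4 : ℝ) * η + ((mQ i * M / 2 : ℝ) * (starRingEnd ℂ) ζ * u),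
   -((2 / mP i * lcB i M Z : ℝ) * ζ)
     - (2 * mQ i * M * ‖ζ‖ ^ 2 : ℝ) * (starRingEnd ℂ) ζ * G (ζ ^ 2 - x)
     - (mQ i * M / 2 : ℝ) * (starRingEnd ℂ) η * u,
   (‖ζ‖ ^ 2 * (1 + mQ i * M) : ℝ) * u + (mP i * M / 2 : ℝ) * ζ * η,
   (‖ζ‖ ^ 2 : ℝ) * (- G x + (mP i * M : ℝ) * G (ζ ^ 2 - x)),
   0)

/-- back to Cartesian states -/
def lcSt (i : Fin 2) (Z : LCS) : St :=
  if i = 0 then (Z.1 ^ 2, Z.2.2.1, Z.2.1 / (2 * (starRingEnd ℂ) Z.1), Z.2.2.2.1)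
  else (Z.2.2.1, Z.1 ^ 2, Z.2.2.2.1, Z.2.1 / (2 * (starRingEnd ℂ) Z.1))

/-- the regularized Hamiltonian -/
def lcK (i : Fin 2) (M : ℝ) (Z : LCS) : ℝ :=
  mP i * (1 + mP i * M) * ‖Z.2.1‖ ^ 2 / 8 - mP i + ‖Z.1‖ ^ 2 * lcB i M Z
    + mP i * mQ i * M * (Z.1 * Z.2.1 * (starRingEnd ℂ) Z.2.2.2.1).re / 2

end

end Pool.Agent.HS
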