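import Pool.Agent.Lib_helper60.HSF.D_Defs

/-!
# Part A: definitions (flows of bounded fields, inner equation)
-/

namespace Pool.Agent.HS

noncomputable section

open Set Filter Topology

section FL
variable {E : Type*} [NormedAddCommGroup E] [NormedSpace ℝ E] [CompleteSpace E]

/-- bounded by `B` and Lipschitz with constant `K` -/
def BL (B K : ℝ) (f : E → E) : Prop := (∀ x, ‖f x‖ ≤ B) ∧ ∀ x y, ‖f x - f y‖ ≤ K * ‖x - y‖

open Classical in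
/-- the flow of `f` (junk if there is none) -/
def flow (f : E → E) : ℝ → E → E :=
  if h : ∃ φ : ℝ → E → E, (∀ y, φ 0 y = y) ∧ ∀ y t, HasDerivAt (fun s => φ s y) (f (φ t y)) t
  then h.choose else fun _ y => y

end FL

section IO
variable {E₁ E₂ : Type*} [NormedAddCommGroup E₁] [NormedSpace ℝ E₁] [CompleteSpace E₁]
  [NormedAddCommGroup E₂] [NormedSpace ℝ E₂] [CompleteSpace E₂]

/-- hypotheses on the right hand side of the inner equation -/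
def InnerRHS (c g₀ : ℝ) (P : ℝ → E₁ → E₂ → E₁) (Q : ℝ → E₁ → E₂ → E₂) : Prop :=
  Continuous (fun p : ℝ × E₁ × E₂ => P p.1 p.2.1 p.2.2) ∧
  Continuous (fun p : ℝ × E₁ × E₂ => Q p.1 p.2.1 p.2.2) ∧
  ∀ g ∈ Icc 0 g₀, (∀ y b, ‖P g y b‖ ≤ c * g ∧ ‖Q g y b‖ ≤ c * g ^ 3) ∧
    ∀ y b y' b', ‖P g y b - P g y' b'‖ ≤ c * g * (‖y - y'‖ + ‖b - b'‖) ∧
      ‖Q g y b - Q g y' b'‖ ≤ c * g ^ 3 * (‖y - y'‖ + ‖b - b'‖)

/-- `(Y, B)` solves the inner equation on `[μ, g₀]` -/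
def InnerSol (μ g₀ : ℝ) (P : ℝ → E₁ → E₂ → E₁) (Q : ℝ → E₁ → E₂ → E₂) (Y : ℝ → E₁) (B : ℝ → E₂) :
    Prop :=
  ∀ g ∈ Icc μ g₀, HasDerivWithinAt Y (P g (Y g) (B g)) (Icc μ g₀) g ∧
    HasDerivWithinAt B (-(2 / g) • B g + Q g (Y g) (B g)) (Icc μ g₀) g

end IO

end

end Pool.Agent.HS
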