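import Pool.Agent.Lib_helper60.HSF.D_Defs

/-!
# Project HS: definitions for the encounter, the half arcs and the arcs
-/

namespace Pool.Agent.HS

noncomputable section

open Set Filter Topology Classical

/-! ## The inner equations (Levi-Civita variables of the pair 2-3, scale `g = μ e^s`) -/

/-- tidal force -/
def inF (R u : ℂ) : ℂ := - (G (R + mb * u ^ 2) - G (R - ma * u ^ 2))

def inP (R u v : ℂ) (h : ℝ) : ℂ :=
  (1 / h : ℝ) * ((‖u‖ ^ 2 : ℝ) * (starRingEnd ℂ) u * inF R u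
    - ((starRingEnd ℂ) u * (starRingEnd ℂ) v * inF R u).re * v)

/-- `(A, B, R, U, h)` solves the inner equations on `[μ, g₁]`; `M = μ^2`,
`u = g (A + B)`, `v = g (A - B)` -/
def InnerODE (μ g₁ : ℝ) (V : ℝ → ℂ × ℂ × ℂ × ℂ × ℝ) : Prop :=
  ∀ g ∈ Icc μ g₁,
    let A := (V g).1
    let B := (V g).2.1
    let R := (V g).2.2.1
    let U := (V g).2.2.2.1
    let h := (V g).2.2.2.2
    let u := g * (A + B)
    let v := g * (A - B)
    let om := Real.sqrt (h / 2)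
    HasDerivWithinAt V
      (inP R u v h / (2 * g ^ 2),
       -(2 * B / g) - inP R u v h / (2 * g ^ 2),
       (‖u‖ ^ 2 * (1 + μ ^ 2) / (g * om) : ℝ) * U,
       - ((‖u‖ ^ 2 / (g * om) : ℝ) * (ma * G (R + mb * u ^ 2) + mb * G (R - ma * u ^ 2))),
       2 * ((starRingEnd ℂ) u * (starRingEnd ℂ) v * inF R u).re / g) (Icc μ g₁) g

/-- collision data `(R, U, κ, χ)` -/
abbrev Dt := ℂ × ℂ × ℝ × ℝ

/-- initial values of the inner equations -/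
def inn0 (d : Dt) (β : ℝ) : ℂ × ℂ × ℂ × ℂ × ℝ :=
  (A0 d.2.2.1 d.2.2.2 β, D0 d.2.2.1 d.2.2.2 β, d.1, d.2.1, d.2.2.1 ^ 2 / 2)

/-- the inner solution at scale `g` (junk if there is none) -/
def innV (μ : ℝ) (d : Dt) (β g : ℝ) : ℂ × ℂ × ℂ × ℂ × ℝ :=
  if h : ∃ V, InnerODE μ g V ∧ V μ = inn0 d β then h.choose g else 0

/-- Cartesian state on the outgoing leg at scale `g` -/
def innSt (μ : ℝ) (d : Dt) (β g : ℝ) : St :=
  let V := innV μ d β g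
  ofUV V.2.2.1 V.2.2.2.1 (g * (V.1 + V.2.1)) (g * (V.1 - V.2.1)) V.2.2.2.2

/-- energy of the encounter state, written without singularity -/
def encH (μ : ℝ) (R U : ℂ) (κ : ℝ) (ξ : ℂ) : ℝ :=
  (1 + μ ^ 2) * ‖U‖ ^ 2 / 2 + ma * mb * κ ^ 2 / 2 - ma / ‖R + mb * ξ‖ - mb / ‖R - ma * ξ‖

def IsKap (C μ : ℝ) (Y : ℝ × ℝ) (χ β κ : ℝ) : Prop :=
  |κ - kap0 C Y| ≤ 1 / 10 ∧
    encH μ Y.1 (Uenc C μ Y.1 Y.2 β) κ (μ ^ 2 * (A0 κ χ β + D0 κ χ β) ^ 2) = E0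

/-- relative speed at an encounter with outgoing direction `χ`, `Y = (r, p)` -/
def kapE (C μ : ℝ) (Y : ℝ × ℝ) (χ β : ℝ) : ℝ :=
  if h : ∃ κ, IsKap C μ Y χ β κ then h.choose else kap0 C Y

/-- relative speed at an encounter with incoming direction `N` -/
def kapI (C μ : ℝ) (Y : ℝ × ℝ) (N β : ℝ) : ℝ :=
  -- time reversal: `χ = N + π`, `β → -β` and `U → -U`
  if h : ∃ κ, |κ - kap0 C Y| ≤ 1 / 10 ∧
      encH μ Y.1 (- Uenc C μ Y.1 Y.2 β) κ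
        (μ ^ 2 * (A0 κ (N + Real.pi) (-β) + D0 κ (N + Real.pi) (-β)) ^ 2) = E0
  then h.choose else kap0 C Y

/-- encounter data with outgoing direction -/
def outD (C μ : ℝ) (X : ℝ × ℝ) (χ β : ℝ) : Dt :=
  let Y := chart C X
  (Y.1, Uenc C μ Y.1 Y.2 β, kapE C μ Y χ β, χ)

/-- time reversed encounter data with incoming direction -/
def inD (C μ : ℝ) (X : ℝ × ℝ) (N β : ℝ) : Dt :=
  let Y := chart C X
  (Y.1, - Uenc C μ Y.1 Y.2 β, kapI C μ Y N β, N + Real.pi)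

/-- state on the outgoing leg at scale `g ≥ μ` -/
def outLeg (C μ : ℝ) (X : ℝ × ℝ) (χ β g : ℝ) : St := innSt μ (outD C μ X χ β) β g

/-- state on the incoming leg at scale `g ≥ μ` -/
def inLeg (C μ : ℝ) (X : ℝ × ℝ) (N β g : ℝ) : St := rev (innSt μ (inD C μ X N β) (-β) g)

/-- the encounter state, incoming data -/
def enc (C μ : ℝ) (X : ℝ × ℝ) (N β : ℝ) : St :=
  let Y := chart C X
  inSt μ Y.1 (Uenc C μ Y.1 Y.2 β) (kapI C μ Y N β) N β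

/-- outgoing direction minus incoming direction, up to `2π` -/
def turn (κ β : ℝ) : ℝ := Real.pi - 2 * Real.arctan (κ * β)

/-- the direction condition at an encounter -/
def Match (C μ : ℝ) (X : ℝ × ℝ) (N β χ : ℝ) : Prop :=
  ∃ k : ℤ, N + turn (kapI C μ (chart C X) N β) β = χ + 2 * Real.pi * k

/-! ## Limit problem in Levi-Civita coordinates -/

/-- Cartesian to Levi-Civita, energy as a state variable -/
def toLC (i : Fin 2) (M : ℝ) (y : St) : LCS :=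
  let xP := if i = 0 then x3 y else x2 y
  let uP := if i = 0 then u3 y else u2 y
  let xQ := if i = 0 then x2 y else x3 y
  let uQ := if i = 0 then u2 y else u3 y
  let ζ := xP ^ (1/2 : ℂ)
  (ζ, 2 * (starRingEnd ℂ) ζ * uP, xQ, uQ, Ham M y)

/-- frequency of the regularized body in the limit problem -/
def lzw (i : Fin 2) (Z : LCS) : ℝ :=
  Real.sqrt (- ((Z.2.2.2.2 - mQ i * (‖Z.2.2.2.1‖ ^ 2 / 2 - 1 / ‖Z.2.2.1‖)) / mP i) / 2)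

def lzζ (i : Fin 2) (τ : ℝ) (Z : LCS) : ℂ :=
  (Real.cos (lzw i Z * τ) : ℝ) * Z.1 + (Real.sin (lzw i Z * τ) / (4 * lzw i Z) : ℝ) * Z.2.1

def lzη (i : Fin 2) (τ : ℝ) (Z : LCS) : ℂ :=
  (- 4 * lzw i Z * Real.sin (lzw i Z * τ) : ℝ) * Z.1 + (Real.cos (lzw i Z * τ) : ℝ) * Z.2.1

/-- physical time -/
def lzt (i : Fin 2) (τ : ℝ) (Z : LCS) : ℝ := ∫ s in (0:ℝ)..τ, ‖lzζ i s Z‖ ^ 2

/-- explicit flow of the regularized limit problem -/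
def lz0 (i : Fin 2) (τ : ℝ) (Z : LCS) : LCS :=
  (lzζ i τ Z, lzη i τ Z, (kep (lzt i τ Z) (Z.2.2.1, Z.2.2.2.1)).1,
    (kep (lzt i τ Z) (Z.2.2.1, Z.2.2.2.1)).2, Z.2.2.2.2)

/-- `x_P - x_Q` -/
def lcX (Z : LCS) : ℂ := Z.1 ^ 2 - Z.2.2.1

/-- collision state of the limit problem with data `d` -/
def colD (d : Dt) : St := ofRU d.1 d.2.1 0 (d.2.2.1 * Complex.exp (d.2.2.2 * Complex.I))

/-- the limit trajectory of `d` in Levi-Civita coordinates -/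
def Zd (i : Fin 2) (d : Dt) (τ : ℝ) : LCS := lz0 i τ (toLC i 0 (colD d))

/-- admissible pairs `(d, τ)`: the limit trajectory stays away from the collisions
`ξ = 0`, `x_Q = 0` on `(0, τ]`, with elliptic Kepler orbits and `Re R > 0` -/
def Adm (i : Fin 2) (c T : ℝ) : Set (Dt × ℝ) :=
  {p | 0 < p.2 ∧ p.2 ≤ T ∧ c ≤ p.1.1.re ∧ 0 < p.1.2.2.1 ∧
    kh' (x3 (colD p.1), u3 (colD p.1)) ≤ -c ∧ kh' (x2 (colD p.1), u2 (colD p.1)) ≤ -c ∧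
    ∀ τ ∈ Ioc (0:ℝ) p.2,
    c * min τ 1 ≤ ‖lcX (Zd i p.1 τ)‖ ∧ c ≤ ‖(Zd i p.1 τ).2.2.1‖ ∧ ‖Zd i p.1 τ‖ ≤ 1 / c}

/-- collision data of the limit problem in the centre plane -/
def limD (C : ℝ) (X : ℝ × ℝ) (χ : ℝ) : Dt :=
  ((chart C X).1, Uenc C 0 (chart C X).1 (chart C X).2 0, kap0 C (chart C X), χ)

/-- An arc of the limit problem over `O`: outgoing direction `χ0`, duration `τ0`
(in Levi-Civita time of body `i`), image `F`, incoming direction `θ`. -/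
structure ZArc (i : Fin 2) (C : ℝ) (O : Set (ℝ × ℝ)) (χ0 τ0 : ℝ × ℝ → ℝ) (F : ℝ × ℝ → ℝ × ℝ)
    (θ : ℝ × ℝ → ℝ) : Prop where
  compact : IsCompact O
  lip : ∃ L : ℝ, Lip L χ0 O ∧ Lip L τ0 O ∧ Lip L F O ∧ Lip L θ O
  pos : ∀ X ∈ O, 0 < τ0 X ∧ rh / 2 < (chart C X).1 ∧ |kap0 C (chart C X) - kh| ≤ 1 / 10 ∧
    rh / 2 < (chart C (F X)).1 ∧ |kap0 C (chart C (F X)) - kh| ≤ 1 / 10
  /-- the orbits are elliptic -/
  ell : ∀ X ∈ O, kh' (x3 (colD (limD C X (χ0 X))), u3 (colD (limD C X (χ0 X)))) < 0 ∧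
    kh' (x2 (colD (limD C X (χ0 X))), u2 (colD (limD C X (χ0 X)))) < 0
  /-- no collision before the end -/
  free : ∀ X ∈ O, ∀ τ ∈ Ioo (0:ℝ) (τ0 X), lcX (Zd i (limD C X (χ0 X)) τ) ≠ 0
  /-- the other body does not meet the sun -/
  sun : ∀ X ∈ O, (if i = 0 then kL (x2 (colD (limD C X (χ0 X))), u2 (colD (limD C X (χ0 X))))
    else kL (x3 (colD (limD C X (χ0 X))), u3 (colD (limD C X (χ0 X))))) ≠ 0
  /-- a time at which the regularized body is away from the sun, used for the matching -/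
  mid : ∃ (c L : ℝ) (τm : ℝ × ℝ → ℝ), 0 < c ∧ Lip L τm O ∧ ∀ X ∈ O, c ≤ τm X ∧ τm X ≤ τ0 X - c ∧
    c ≤ ‖(Zd i (limD C X (χ0 X)) (τm X)).1‖
  /-- the end: collision with data `F X`, direction `θ X`, rotated by `ρ` -/
  fin : ∀ X ∈ O, ∃ ρ : ℂ, ‖ρ‖ = 1 ∧ 1/2 ≤ ρ.re ∧
    lcSt i (Zd i (limD C X (χ0 X)) (τ0 X)) = rot ρ (colD (limD C (F X) (θ X)))
  /-- transversality -/
  nondeg : ∃ c L ρ : ℝ, 0 < c ∧ 0 < ρ ∧ ∀ X ∈ O, ∃ e₁ e₂ : ℂ,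
    c ≤ |((starRingEnd ℂ) e₁ * e₂).im| ∧ ‖e₁‖ ≤ L ∧ ‖e₂‖ ≤ L ∧
    ∀ χ τ, |χ - χ0 X| ≤ ρ → |τ - τ0 X| ≤ ρ →
      ‖lcX (Zd i (limD C X χ) τ) - (e₁ * (χ - χ0 X : ℝ) + e₂ * (τ - τ0 X : ℝ))‖ ≤
        L * (|χ - χ0 X| + |τ - τ0 X|) ^ 2

end

end Pool.Agent.HS
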