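import Pool.Agent.Lib_helper60.HSF.D_Defs

/-!
# Part G: the abstract game (definitions)

Everything here is independent of celestial mechanics.
-/

namespace Pool.Agent.HS

noncomputable section

open Set Filter Topology Classical

/-- the (scaled) centre plane, sup norm -/
abbrev Pl := ℝ × ℝ

/-- range of the impact parameter -/
def JJ : Set ℝ := Icc (-10) 10

/-- direction condition: outgoing direction `χ`, incoming direction `N`, up to `2π`.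
With `K X N β = kapI C μ (chart C X) N β` this is `Match C μ X N β χ`. -/
def Mat (K : Pl → ℝ → ℝ → ℝ) (X : Pl) (N β χ : ℝ) : Prop :=
  ∃ k : ℤ, N + (Real.pi - 2 * Real.arctan (K X N β * β)) = χ + 2 * Real.pi * k

/-- The abstract system. `hit z h x y`: the orbit goes from `x` to `y` and passes within `h`
of the shape `z`. -/
structure Sys where
  S : Type
  [top : TopologicalSpace S]
  reach : S → S → Prop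
  hit : ℂ → ℝ → S → S → Prop
  enc : Pl → ℝ → ℝ → S
  K : Pl → ℝ → ℝ → ℝ
  trans : ∀ {x y w}, reach x y → reach y w → reach x w
  hit_reach : ∀ {z h x y}, hit z h x y → reach x y
  reach_hit : ∀ {z h x y w}, reach x y → hit z h y w → hit z h x w
  hit_trans : ∀ {z h x y w}, hit z h x y → reach y w → hit z h x w
  hit_mono : ∀ {z h h' x y}, h ≤ h' → hit z h x y → hit z h' x y

attribute [instance] Sys.top

/-- The two model matrices, in the coordinates `(x, z)`; positive, determinant one. -/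
def lin (i : Fin 2) (v : Pl) : Pl :=
  if i = 0 then (47 / 2 * v.1 + 315 / 2 * v.2, 7 / 2 * v.1 + 47 / 2 * v.2)
  else ((39971 * v.1 + 9425 * v.2) / 1296, (169337 * v.1 + 39971 * v.2) / 1296)

/-- slopes after a loop of type `i` -/
def slo (i : Fin 2) : ℝ := if i = 0 then 1 / 10 else 4
def shi (i : Fin 2) : ℝ := if i = 0 then 1 / 5 else 9 / 2

/-- Constants of the game. -/
structure GC where
  Xc : Pl
  ρ0 : ℝ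
  ρs : ℝ
  ℓ0 : ℝ
  ρ2 : ℝ
  ν0 : ℝ
  L : ℝ
  h2 : 0 < ρ2
  h0 : 1000000 * ρ2 ≤ ℓ0
  hs : 1000 * ℓ0 ≤ ρs
  hρ : 10 * ρs ≤ ρ0
  hρ1 : ρ0 ≤ 1
  hν : 0 < ν0 ∧ ν0 ≤ 1 / 10
  hL : 1 ≤ L

/-- the matching angle is admissible: `χ` outgoing, `N` incoming; `κβ = cot ((χ-N)/2)` -/
def Acc (lo hi : ℝ) (χ N : ℝ) : Prop :=
  Real.sin ((χ - N) / 2) ≠ 0 ∧
    lo ≤ |Real.cos ((χ - N) / 2) / Real.sin ((χ - N) / 2)| ∧
    |Real.cos ((χ - N) / 2) / Real.sin ((χ - N) / 2)| ≤ hi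

/-- Realized word data: `P` end centre data, `Θ` outgoing direction at the beginning, `Θ'`
incoming direction at the end, as functions of `(X, β, β')`. -/
structure WD where
  P : Pl × ℝ × ℝ → Pl
  Θ : Pl × ℝ × ℝ → ℝ
  Θ' : Pl × ℝ × ℝ → ℝ

/-- Limit word data. -/
structure LD where
  F : Pl → Pl
  χ : Pl → ℝ
  θ : Pl → ℝ

/-- closeness of a realized word to a limit word over `O` -/
structure WNear (ε : ℝ) (O : Set Pl) (w : WD) (l : LD) : Prop where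
  P : Near ε w.P (fun p => l.F p.1) (O ×ˢ (JJ ×ˢ JJ))
  Θ : Near ε w.Θ (fun p => l.χ p.1) (O ×ˢ (JJ ×ˢ JJ))
  Θ' : Near ε w.Θ' (fun p => l.θ p.1) (O ×ˢ (JJ ×ˢ JJ))

/-- closeness of the relative speed to its limit `κ0` over `O` -/
structure KNear (ε L : ℝ) (O : Set Pl) (K : Pl → ℝ → ℝ → ℝ) (κ0 : Pl → ℝ) : Prop where
  near : Near ε (fun p : Pl × ℝ × ℝ => K p.1 p.2.1 p.2.2) (fun p => κ0 p.1)
    (O ×ˢ (univ ×ˢ JJ))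
  lip : Lip L κ0 O
  lo : ∀ X ∈ O, 1 ≤ κ0 X
  hi : ∀ X ∈ O, κ0 X ≤ 6 / 5

/-- the word `w` is realized by the system over `O`; `R` is `reach` or a stronger relation,
which may depend on `(X, β, β')` -/
def Realizes (sys : Sys) (O : Set Pl) (w : WD) (R : Pl × ℝ × ℝ → sys.S → sys.S → Prop) : Prop :=
  ∀ X ∈ O, ∀ b ∈ JJ, ∀ b' ∈ JJ, b ≠ 0 → b' ≠ 0 → ∀ N,
    Mat sys.K X N b (w.Θ (X, b, b')) →
      R (X, b, b') (sys.enc X N b) (sys.enc (w.P (X, b, b')) (w.Θ' (X, b, b')) b')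

/-- Family data: half length `ℓ`, centre data `z s b`, incoming direction `N s b`, initial
state `y s b`. -/
structure Fam (S : Type) where
  ℓ : ℝ
  z : ℝ → ℝ → Pl
  N : ℝ → ℝ → ℝ
  y : ℝ → ℝ → S

/-- `Φ` is a family for the relation `R`, with marks `V`, slopes in `[m1, m2]`, Lipschitz
constant `η` in `b`, Lipschitz constant `LN` of the direction, direction `π/2 ± ν0`. -/
structure IsFam (sys : Sys) (R : sys.S → sys.S → Prop) (V : Set (ℝ × ℝ)) (m1 m2 η LN ν0 : ℝ)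
    (Φ : Fam sys.S) : Prop where
  pos : 0 < Φ.ℓ
  graph : ∀ b ∈ JJ, ∀ s ∈ Icc (-Φ.ℓ) Φ.ℓ, ∀ t ∈ Icc (-Φ.ℓ) Φ.ℓ, s ≤ t →
    (Φ.z t b).1 - (Φ.z s b).1 = t - s ∧ m1 * (t - s) ≤ (Φ.z t b).2 - (Φ.z s b).2 ∧
      (Φ.z t b).2 - (Φ.z s b).2 ≤ m2 * (t - s)
  blip : ∀ s ∈ Icc (-Φ.ℓ) Φ.ℓ, ∀ b ∈ JJ, ∀ b' ∈ JJ,
    ‖Φ.z s b - Φ.z s b'‖ ≤ η * |b - b'| ∧ |Φ.N s b - Φ.N s b'| ≤ η * |b - b'|
  slip : ∀ b ∈ JJ, ∀ s ∈ Icc (-Φ.ℓ) Φ.ℓ, ∀ t ∈ Icc (-Φ.ℓ) Φ.ℓ, |Φ.N s b - Φ.N t b| ≤ LN * |s - t|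
  dir : ∀ b ∈ JJ, ∀ s ∈ Icc (-Φ.ℓ) Φ.ℓ, |Φ.N s b - Real.pi / 2| ≤ ν0
  cont : ContinuousOn (fun p : ℝ × ℝ => Φ.y p.1 p.2) {p | p.1 ∈ Icc (-Φ.ℓ) Φ.ℓ ∧ p.2 ∈ JJ ∧ p.2 ≠ 0}
  rel : ∀ b ∈ JJ, ∀ s ∈ Icc (-Φ.ℓ) Φ.ℓ, b ≠ 0 → (s, b) ∉ V →
    R (Φ.y s b) (sys.enc (Φ.z s b) (Φ.N s b) b)

/-- `V` is covered by `m` vertical sets -/
def Marks (m : ℕ) (εm : ℝ) (V : Set (ℝ × ℝ)) : Prop :=
  ∃ W : Fin m → Set (ℝ × ℝ), (∀ p ∈ V, ∃ j, p ∈ W j) ∧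
    ∀ j, ∀ p ∈ W j, ∀ q ∈ W j, |p.1 - q.1| ≤ εm * |p.2 - q.2|

/-- all initial states -/
def Fam.im {S : Type} (Φ : Fam S) : Set S := {x | ∃ s ∈ Icc (-Φ.ℓ) Φ.ℓ, ∃ b ∈ JJ, Φ.y s b = x}

/-- initial states with `b ≠ 0`, off the marks -/
def Fam.im' {S : Type} (Φ : Fam S) (V : Set (ℝ × ℝ)) : Set S :=
  {x | ∃ s ∈ Icc (-Φ.ℓ) Φ.ℓ, ∃ b ∈ JJ, b ≠ 0 ∧ (s, b) ∉ V ∧ Φ.y s b = x}

def Fam.ContAll {S : Type} [TopologicalSpace S] (Φ : Fam S) : Prop :=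
  ContinuousOn (fun p : ℝ × ℝ => Φ.y p.1 p.2) (Icc (-Φ.ℓ) Φ.ℓ ×ˢ JJ)

/-- a limit loop of type `i` on the ball of radius `r` about `X` -/
structure LLim (L ν0 : ℝ) (i : Fin 2) (O : Set Pl) (l : LD) : Prop where
  lipF : Lip L l.F O
  lipχ : Lip L l.χ O
  lipθ : Lip L l.θ O
  lin : ∀ X ∈ O, ∀ Y ∈ O, ‖l.F X - l.F Y - lin i (X - Y)‖ ≤ 1 / 1000 * ‖X - Y‖
  acc : ∀ X ∈ O, ∀ N, |N - Real.pi / 2| ≤ ν0 → Acc (1 / 10) 8 (l.χ X) N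
  exit : ∀ X ∈ O, |l.θ X - Real.pi / 2| ≤ ν0 / 2

/-- Loops of the limit problem, indexed by a finite type: both types can be steered. -/
structure Loops (g : GC) (Λ : Type) [Finite Λ] (l : Fin 2 → Λ → LD) : Prop where
  lim : ∀ i a, LLim g.L g.ν0 i (Metric.closedBall g.Xc g.ρ0) (l i a)
  steer : ∀ i, ∀ X ∈ Metric.closedBall g.Xc g.ρs, ∀ Y ∈ Metric.closedBall g.Xc g.ρs,
    ∃ a, ‖(l i a).F X - Y‖ ≤ g.ρ2

/-- the loops are realized with closeness `ε` -/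
structure Rl (g : GC) (Λ : Type) (l : Fin 2 → Λ → LD) (κ0 : Pl → ℝ) (ε : ℝ) (sys : Sys) : Prop where
  K : KNear ε g.L (Metric.closedBall g.Xc g.ρ0) sys.K κ0
  w : ∀ i a, ∃ w : WD, WNear ε (Metric.closedBall g.Xc g.ρ0) w (l i a) ∧
    Realizes sys (Metric.closedBall g.Xc g.ρ0) w (fun _ => sys.reach)

/-- standard position: centred over `X`, half length `ℓ0`, vertical offset at most `δ` -/
def Over (g : GC) {S : Type} (Φ : Fam S) (X : Pl) (δ : ℝ) : Prop :=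
  Φ.ℓ = g.ℓ0 ∧ ∀ b ∈ JJ, (Φ.z 0 b).1 = X.1 ∧ |(Φ.z 0 b).2 - X.2| ≤ δ

/-- The event property of the target `z`, with tolerance `δ`; `η0` is the quality of the
family which is returned. -/
def EvC (g : GC) (η0 : ℝ) (sys : Sys) (z : ℂ) (δ : ℝ) : Prop :=
  ∃ Xe ∈ Metric.closedBall g.Xc g.ρs, ∃ i : Fin 2, ∀ Φ : Fam sys.S,
    IsFam sys sys.reach ∅ (slo i) (shi i) δ g.L g.ν0 Φ → Over g Φ Xe δ →
    ∀ h, 0 < h → ∃ (Φ' : Fam sys.S) (V : Set (ℝ × ℝ)),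
      IsFam sys (sys.hit z h) V (1 / 10) 5 η0 g.L g.ν0 Φ' ∧ Marks 4 η0 V ∧ Φ'.ContAll ∧
      Φ'.ℓ ≤ g.ℓ0 ∧
      (∀ b ∈ JJ, Φ'.z 0 b ∈ Metric.closedBall g.Xc g.ρs) ∧ Φ'.im ⊆ Φ.im' ∅

/-- Event data at `Xe`: a word on the ball of radius `h` about `Xe`, an event function
`gf` and at most four mark functions `ζ j`. -/
structure EvData (g : GC) (sys : Sys) (z : ℂ) (κ0 : Pl → ℝ) (i : Fin 2) (h c Lχ Λe ε : ℝ)
    (Xe : Pl) : Prop where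
  ex : ∃ (l : LD) (w : WD) (Ri : Pl × ℝ × ℝ → sys.S → sys.S → Prop)
      (gf : Pl × ℝ × ℝ × ℝ → ℂ) (g0 : Pl × ℝ → ℂ) (τe : ℝ) (ex ez eτ : ℂ)
      (n : ℕ) (ζ : Fin n → Pl × ℝ × ℝ × ℝ → ℂ) (ζ0 : Fin n → Pl × ℝ → ℂ) (τm : Fin n → ℝ)
      (fx fz fτ : Fin n → ℂ), n ≤ 4 ∧
    Xe ∈ Metric.closedBall g.Xc (g.ρs / 2) ∧
    KNear ε g.L (Metric.closedBall Xe h) sys.K κ0 ∧
    LLim Lχ g.ν0 0 (Metric.closedBall Xe h) l ∧ Lip g.L l.θ (Metric.closedBall Xe h) ∧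
    WNear ε (Metric.closedBall Xe h) w l ∧ Realizes sys (Metric.closedBall Xe h) w Ri ∧
    ‖l.F Xe - g.Xc‖ ≤ g.ρs / 2 ∧
    -- the event function
    Near ε gf (fun p => g0 (p.1, p.2.2.2))
      (Metric.closedBall Xe h ×ˢ (JJ ×ˢ (JJ ×ˢ Icc (τe - h) (τe + h)))) ∧
    ‖g0 (Xe, τe)‖ ≤ ε ∧
    (∀ X ∈ Metric.closedBall Xe h, ∀ Y ∈ Metric.closedBall Xe h, ∀ t ∈ Icc (τe - h) (τe + h),
      ∀ t' ∈ Icc (τe - h) (τe + h),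
      ‖g0 (X, t) - g0 (Y, t') - ((X.1 - Y.1 : ℝ) * ex + (X.2 - Y.2 : ℝ) * ez + (t - t' : ℝ) * eτ)‖ ≤
        c * (‖X - Y‖ + |t - t'|)) ∧
    ‖ex‖ ≤ Λe ∧ ‖ez‖ ≤ Λe ∧ ‖eτ‖ ≤ Λe ∧
    (∀ m ∈ Icc (slo i) (shi i), 1 ≤ Λe * |((starRingEnd ℂ) eτ * (ex + m * ez)).im|) ∧
    -- the marks
    (∀ j, Near ε (ζ j) (fun p => ζ0 j (p.1, p.2.2.2))
      (Metric.closedBall Xe h ×ˢ (JJ ×ˢ (JJ ×ˢ Icc (τm j - h) (τm j + h))))) ∧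
    (∀ j, ∀ X ∈ Metric.closedBall Xe h, ∀ Y ∈ Metric.closedBall Xe h,
      ∀ t ∈ Icc (τm j - h) (τm j + h), ∀ t' ∈ Icc (τm j - h) (τm j + h),
      ‖ζ0 j (X, t) - ζ0 j (Y, t') -
        ((X.1 - Y.1 : ℝ) * fx j + (X.2 - Y.2 : ℝ) * fz j + (t - t' : ℝ) * fτ j)‖ ≤
        c * (‖X - Y‖ + |t - t'|)) ∧
    (∀ j, ‖fx j‖ ≤ Λe ∧ ‖fz j‖ ≤ Λe ∧ ‖fτ j‖ ≤ Λe ∧
      ∀ m ∈ Icc (slo i) (shi i), 1 ≤ Λe * |((starRingEnd ℂ) (fτ j) * (fx j + m * fz j)).im|) ∧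
    -- the relation: off the marks, the orbit passes near the shape `z`
    (∃ Λh : ℝ, 0 < Λh ∧ ∀ X ∈ Metric.closedBall Xe h, ∀ b ∈ JJ, ∀ b' ∈ JJ,
      (∀ j, ∀ t ∈ Icc (τm j - h) (τm j + h), ζ j (X, b, b', t) ≠ 0) →
      ∀ t ∈ Icc (τe - h) (τe + h), ∀ h', h' ≤ 1 → Λh * ‖gf (X, b, b', t)‖ < h' →
      ∀ x y, Ri (X, b, b') x y → sys.hit z h' x y)

end

end Pool.Agent.HS
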