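import Pool.Agent.Lib_helper60.HSF.D_DefsB

/-!
# Project HS, part Z: definitions for the Kepler library
-/

namespace Pool.Agent.HS

noncomputable section

open Set Filter Topology

/-- eccentricity vector -/
def kE (y : KS) : ℂ := -(Complex.I * (kL y : ℂ)) * y.2 - y.1 / (‖y.1‖ : ℂ)

/-- elliptic and not rectilinear -/
def Ell (y : KS) : Prop := kh' y < 0 ∧ kL y ≠ 0

/-- the state at eccentric anomaly difference `s` -/
def kY (y : KS) (s : ℝ) : KS := (kX y s, kV y s)

/-- state of body 3 / body 2 -/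
def p3 (y : St) : KS := (x3 y, u3 y)
def p2 (y : St) : KS := (x2 y, u2 y)

/-- the regularized body and the other body; `i = 0`: body 3 is regularized -/
def pP (i : Fin 2) (y : St) : KS := if i = 0 then p3 y else p2 y
def pQ (i : Fin 2) (y : St) : KS := if i = 0 then p2 y else p3 y

/-- collision data for which the limit trajectory `Zd i` is smooth -/
def Sm (i : Fin 2) : Set Dt :=
  {d | 0 < d.1.re ∧ kh' (pP i (colD d)) < 0 ∧ Ell (pQ i (colD d))}

/-- second intersection of the two conics through `R` -/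
def cD (R u u' : ℂ) : ℂ := (kL (R, u) : ℂ) * u - (kL (R, u') : ℂ) * u'
/-- `u × u'` -/
def cW' (u u' : ℂ) : ℝ := ((starRingEnd ℂ) u * u').im
def cden (R u u' : ℂ) : ℝ :=
  ‖cD R u u'‖ ^ 2 - ((starRingEnd ℂ) (kE (R, u)) * cD R u u').re ^ 2
def clam (R u u' : ℂ) : ℝ :=
  -2 * ‖R‖ * kL (R, u) * kL (R, u') * cW' u u' / cden R u u'
def cB (R u u' : ℂ) : ℂ := R + (clam R u u' : ℂ) * cD R u u'

/-- anomaly of the second intersection on the orbit `(R, u)`, if it is near `R`:
`s = 2 arctan (csW)` -/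
def csW (R u u' : ℂ) : ℝ :=
  -(‖R‖ ^ 2 * kL (R, u') * cW' u u') / (Real.sqrt (kA (R, u)) *
    ((kL (R, u) ^ 2 - kL (R, u') ^ 2) + kσ (R, u) * ‖R‖ * kL (R, u') * cW' u u'))

/-- the same for the orbit `(R, u')` -/
def csW' (R u u' : ℂ) : ℝ :=
  -(‖R‖ ^ 2 * kL (R, u) * cW' u u') / (Real.sqrt (kA (R, u')) *
    ((kL (R, u) ^ 2 - kL (R, u') ^ 2) + kσ (R, u') * ‖R‖ * kL (R, u) * cW' u u'))

end

end Pool.Agent.HS
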