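import Pool.Agent.Lib_helper60.HSF.D_DefsK

/-!
# Project HS, part Z: Kepler library (wanted statements)
-/

namespace Pool.Agent.HS

noncomputable section

open Set Filter Topology
open scoped ContDiff

/-! ## Block KA: algebra of the explicit formulas -/

/-! ## Block KB: group law and period in the anomaly -/

/-! ## Block KC: derivatives and the time function -/

/-! ## Block KD: the Kepler flow -/

/-! ## Block KE: smoothness -/

/-! ## Block KF: eccentricity vector and conic -/

/-! ## Block KG: two conics with a common focus and a common point -/

/-! ## Block KL: Levi-Civita form of the limit trajectory -/

end

end Pool.Agent.HS
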