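import Pool.Agent.Lib_helper60.HSF.D_DefsZ
import Pool.Agent.Lib_helper60.HSF.D_WK

/-!
# Project HS, part Z: arcs of the limit problem (wanted statements)
-/

namespace Pool.Agent.HS

noncomputable section

open Set Filter Topology
open scoped ContDiff

/-! ## Block ZC: constants -/

/-! ## Block ZA1: the states -/

/-! ## Block ZA2: energies -/

/-! ## Block ZA3: ratio of the periods -/

/-! ## Block ZA4: the second intersection -/

/-! ## Block ZA5: data at the second intersection -/

/-! ## Block ZB: no collision before the end -/

/-! ## Block ZM: the model at `C = 0` -/

/-! ## Block ZD: smoothness -/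

/-! ## Block ZE: implicit function theorem with a neighbourhood -/

/-! ## Block ZN: nondegeneracy -/

/-! ## Block ZT: the trajectory -/

/-! ## Block ZZ: arcs -/

end

end Pool.Agent.HS
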