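import Pool.Agent.Lib_helper60.HSF.D_WS
import Pool.Agent.Lib_helper60.HSF.D_WZ

/-!
# Project HS, part Z: loops (definitions)
-/

namespace Pool.Agent.HS

noncomputable section

open Set Filter Topology
open scoped ContDiff

/-- derivative of the model step in the coordinates `(x, z)`, at fixed `ν` -/
def mJ (ϖ χ : ℝ) (v : Pl) : Pl :=
  (-v.1 - 2 * (v.1 - Real.cos χ * (2 * v.1 + v.2)) /
      ((Real.cos χ - ϖ * Real.sin χ) * Real.sin χ ^ 2) * Real.cos χ,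
   -v.2 - 2 * (v.1 - Real.cos χ * (2 * v.1 + v.2)) /
      ((Real.cos χ - ϖ * Real.sin χ) * Real.sin χ ^ 2) * (1 - 2 * Real.cos χ))

/-- derivative of the model step in `Y = j / (mΛ ν)` -/
def mV (ϖ χ : ℝ) : Pl :=
  (-(2 / ((Real.cos χ - ϖ * Real.sin χ) * Real.sin χ ^ 2)) * Real.cos χ - 2,
   -(2 / ((Real.cos χ - ϖ * Real.sin χ) * Real.sin χ ^ 2)) * (1 - 2 * Real.cos χ) + 4)

/-- limit word data of an arc of type `S`: direction `g (C, ν, X)` -/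
def sLD (g : ℝ × ℝ × Pl → ℝ) (C ν : ℝ) : LD where
  F := fun X => zF C X (g (C, ν, X))
  χ := fun X => g (C, ν, X)
  θ := fun X => zθ C X (g (C, ν, X))

/-- limit word data of an arc of type `T` -/
def tLD (g : ℝ × ℝ × Pl → ℝ) (C ν : ℝ) : LD := TL (fun X => g (C, ν, X))

/-- the arcs of the loops: direction function near the vertex `vtx i k` -/
structure SData (i : Fin 2) (k : Fin 4) (r : ℝ) (g : ℝ × ℝ × Pl → ℝ) : Prop where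
  reg : ContDiffOn ℝ 2 g (Metric.ball (0, lvν i k, vtx i k) r)
  regF : ContDiffOn ℝ 2 (fun p : ℝ × ℝ × Pl => zF p.1 p.2.2 (g p))
    (Metric.ball (0, lvν i k, vtx i k) r)
  regθ : ContDiffOn ℝ 2 (fun p : ℝ × ℝ × Pl => zθ p.1 p.2.2 (g p))
    (Metric.ball (0, lvν i k, vtx i k) r)
  val : g (0, lvν i k, vtx i k) = dir i k
  valF : zF 0 (vtx i k) (dir i k) = vtx i (k + 1)
  near : ∀ p ∈ Metric.ball ((0, lvν i k, vtx i k) : ℝ × ℝ × Pl) r,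
    |g p - dir i k| ≤ 1 / 1000 ∧ |zθ p.1 p.2.2 (g p) - dir i k| ≤ 1 / 1000 ∧ ZG p.1 p.2.2 (g p)
  /-- derivative at the vertex, at `C = 0` -/
  der : ∀ (n : ℝ) (v : Pl),
    fderiv ℝ (fun q : ℝ × Pl => zF 0 q.2 (g (0, q.1, q.2))) (lvν i k, vtx i k) (n, v) =
      mJ (zϖ (vtx i k)) (dir i k) v +
        (-(lvj i k / (mΛ * lvν i k ^ 2)) * n) • mV (zϖ (vtx i k)) (dir i k)
  pw : ∀ (C : ℝ) (K : ℕ), 0 < C → C < r → |K * C - lvν i k| < r → ∀ r', r' < r →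
    PW C (Metric.closedBall (vtx i k) r') (sLD g C (K * C))

/-! ## Four steps -/

def st1 (F : Fin 4 → ℝ × ℝ × Pl → Pl) (C : ℝ) (n : Fin 4 → ℝ) (X : Pl) : Pl := F 0 (C, n 0, X)
def st2 (F : Fin 4 → ℝ × ℝ × Pl → Pl) (C : ℝ) (n : Fin 4 → ℝ) (X : Pl) : Pl :=
  F 1 (C, n 1, st1 F C n X)
def st3 (F : Fin 4 → ℝ × ℝ × Pl → Pl) (C : ℝ) (n : Fin 4 → ℝ) (X : Pl) : Pl :=
  F 2 (C, n 2, st2 F C n X)
def st4 (F : Fin 4 → ℝ × ℝ × Pl → Pl) (C : ℝ) (n : Fin 4 → ℝ) (X : Pl) : Pl :=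
  F 3 (C, n 3, st3 F C n X)

/-- the first three arcs of the loop with the integers `K` -/
def loop3 (g : Fin 4 → ℝ × ℝ × Pl → ℝ) (C : ℝ) (K : Fin 4 → ℕ) : LD :=
  ((sLD (g 0) C (K 0 * C)).comp (sLD (g 1) C (K 1 * C))).comp (sLD (g 2) C (K 2 * C))

/-- the last arc -/
def loop4 (g : Fin 4 → ℝ × ℝ × Pl → ℝ) (C : ℝ) (K : Fin 4 → ℕ) : LD := sLD (g 3) C (K 3 * C)

/-- the loop with the integers `K` -/
def loopLD (g : Fin 4 → ℝ × ℝ × Pl → ℝ) (C : ℝ) (K : Fin 4 → ℕ) : LD :=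
  (loop3 g C K).comp (loop4 g C K)

/-- linear part of the first three arcs of the loop of type `0` -/
def lin3 (v : Pl) : Pl := (-(47 / 2) * v.1 - 315 / 2 * v.2, 181 / 2 * v.1 + 1213 / 2 * v.2)

/-- abstract data for four steps near a cycle of vertices -/
structure Four (F : Fin 4 → ℝ × ℝ × Pl → Pl) (v : Fin 4 → Pl) (ν : Fin 4 → ℝ) (r : ℝ)
    (J : Fin 4 → Pl → Pl) (V : Fin 4 → Pl) (A : Pl → Pl) : Prop where
  hr : 0 < r
  reg : ∀ k, ContDiffOn ℝ 2 (F k) (Metric.ball (0, ν k, v k) r)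
  val : ∀ k, F k (0, ν k, v k) = v (k + 1)
  der : ∀ k (n : ℝ) (w : Pl),
    fderiv ℝ (fun q : ℝ × Pl => F k (0, q.1, q.2)) (ν k, v k) (n, w) = J k w + n • V k
  lin : ∀ w, J 3 (J 2 (J 1 (J 0 w))) = A w
  det : (J 3 (V 2)).1 * (V 3).2 - (J 3 (V 2)).2 * (V 3).1 ≠ 0

/-- the good range of `(C, n, X)` -/
def Rng (ν : Fin 4 → ℝ) (v : Pl) (R C : ℝ) (n : Fin 4 → ℝ) (X : Pl) : Prop :=
  |C| ≤ R ∧ (∀ k, |n k - ν k| ≤ R) ∧ ‖X - v‖ ≤ R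

end

end Pool.Agent.HS
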