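import Pool.Agent.Lib_helper60.HSF.D_DefsN

/-!
# Part S1, M1: needles and events in the middle of an arc (definitions)
-/

namespace Pool.Agent.HS

noncomputable section

open Set Filter Topology

/-- state on the positive real axis: distance `r`, radial velocity `v`, angular momentum `L` -/
def kst (L v r : ℝ) : KS := ((r : ℂ), (v : ℂ) + ((L / r : ℝ) : ℂ) * Complex.I)

/-- radial velocities and angular momenta of the regularized body and of the other body -/
def nvP (i : Fin 2) (C : ℝ) (q : ℝ × ℝ × ℝ) : ℝ := if i = 0 then nv3 C q else nv2 C q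
def nvQ (i : Fin 2) (C : ℝ) (q : ℝ × ℝ × ℝ) : ℝ := if i = 0 then nv2 C q else nv3 C q
def nLP (i : Fin 2) (C : ℝ) (q : ℝ × ℝ × ℝ) : ℝ := if i = 0 then nL3 C q else nL2 C q
def nLQ (i : Fin 2) (C : ℝ) (q : ℝ × ℝ × ℝ) : ℝ := if i = 0 then nL2 C q else nL3 C q

/-- `u × v` for positions `a = y b`: the transversality of the two curves -/
def kcr (y : ℂ) (P Q : KS) (s s' : ℝ) : ℝ :=
  ((starRingEnd ℂ) (kV P s) * (y * kV Q s')).im

/-- common part of all zeros of `kX P s - kX Q s'`: the two classes -/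
def Two (P Q : KS) (sB sB' : ℝ) : Prop :=
  ∀ t t' : ℝ, kX P t = kX Q t' → (∃ m n : ℤ, t = 2 * Real.pi * m ∧ t' = 2 * Real.pi * n) ∨
    ∃ m n : ℤ, t = sB + 2 * Real.pi * m ∧ t' = sB' + 2 * Real.pi * n

/-! ## The functions of the true anomaly -/

/-- the conic -/
def ndr (L e f : ℝ) : ℝ := L ^ 2 / (1 + e * Real.cos f)
/-- derivative of the time from the sun to the corner -/
def ndA (h L e f : ℝ) : ℝ :=
  e / L ^ 2 * ndr L e f ^ 2 * Real.sin f / Real.sqrt (2 * h + 2 / ndr L e f)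
/-- derivative of the time from the sun to the event -/
def ndP (h L e μ φ f : ℝ) : ℝ :=
  μ * (e / L ^ 2 * ndr L e (f - φ) ^ 2 * Real.sin (f - φ)) /
    Real.sqrt (2 * h + 2 / (μ * ndr L e (f - φ)))
/-- derivative of the time of the other body -/
def ndQ (L e φ f : ℝ) : ℝ := (ndr L e (f - φ) ^ 2 - ndr L e f ^ 2) / L
def ndG (h L e μ φ σ ς f : ℝ) : ℝ :=
  ς * ndP h L e μ φ f - σ * ndA h L e f - ndQ L e φ f

/-- derivative of the difference of the times at the event along the needle curve -/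
def ndD (y : ℂ) (P Q : KS) (s s' r vP vQ : ℝ) : ℝ :=
  ‖y‖ * kR Q s' * kσ (kY Q s') / ((kV P s).re * (r ^ 2 * vQ)) - 1 / vP -
    (kR Q s' ^ 2 - r ^ 2) / (r ^ 2 * vQ)

/-- numbers of revolutions -/
def kKP (i : Fin 2) (K : ℕ) : ℕ := if i = 0 then K else 2 * K + 1
def kKQ (i : Fin 2) (K : ℕ) : ℕ := if i = 0 then 2 * K + 1 else K

end

end Pool.Agent.HS
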