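import Pool.Agent.Lib_helper60.HSF.D_DefsZ

/-!
# Part S1: states near the hub parametrized by `q = (r, λ, ε)`

`r` = distance of the corner, `λ = L3 - L2` (`L3 = C + mb λ`, `L2 = C - ma λ`),
`ε = T3 / T2 - 2`. Body 3 moves outwards, body 2 inwards, direction near `0`.
-/

namespace Pool.Agent.HS

noncomputable section

open Set Filter Topology

/-- `h2 / h3` for the period ratio `2 + ε` -/
def nq (ε : ℝ) : ℝ := (2 + ε) ^ (2/3 : ℝ)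
def nh3 (ε : ℝ) : ℝ := E0 / (ma + mb * nq ε)
def nh2 (ε : ℝ) : ℝ := nq ε * nh3 ε
/-- angular momenta -/
def nL3 (C : ℝ) (q : ℝ × ℝ × ℝ) : ℝ := C + mb * q.2.1
def nL2 (C : ℝ) (q : ℝ × ℝ × ℝ) : ℝ := C - ma * q.2.1
/-- squares of the radial velocities -/
def nw3 (C : ℝ) (q : ℝ × ℝ × ℝ) : ℝ := 2 * nh3 q.2.2 + 2 / q.1 - nL3 C q ^ 2 / q.1 ^ 2
def nw2 (C : ℝ) (q : ℝ × ℝ × ℝ) : ℝ := 2 * nh2 q.2.2 + 2 / q.1 - nL2 C q ^ 2 / q.1 ^ 2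
/-- radial velocities -/
def nv3 (C : ℝ) (q : ℝ × ℝ × ℝ) : ℝ := Real.sqrt (nw3 C q)
def nv2 (C : ℝ) (q : ℝ × ℝ × ℝ) : ℝ := -Real.sqrt (nw2 C q)
/-- the states of body 3 and body 2 -/
def n3 (C : ℝ) (q : ℝ × ℝ × ℝ) : KS :=
  ((q.1 : ℂ), (nv3 C q : ℂ) + ((nL3 C q / q.1 : ℝ) : ℂ) * Complex.I)
def n2 (C : ℝ) (q : ℝ × ℝ × ℝ) : KS :=
  ((q.1 : ℂ), (nv2 C q : ℂ) + ((nL2 C q / q.1 : ℝ) : ℂ) * Complex.I)
/-- centre data and direction -/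
def nx (C : ℝ) (r : ℝ) : ℝ := cc * rh * (r - rh) / C - 1/2
def nX (C : ℝ) (q : ℝ × ℝ × ℝ) : ℝ × ℝ :=
  (nx C q.1, rh * (ma * nv3 C q + mb * nv2 C q) / C - 1/2 - 2 * nx C q.1)
def nχ (C : ℝ) (q : ℝ × ℝ × ℝ) : ℝ := Real.arctan ((q.2.1 / q.1) / (nv3 C q - nv2 C q))
/-- the region of the parametrization -/
def NR (C : ℝ) : Set (ℝ × ℝ × ℝ) :=
  {q | 0 < q.1 ∧ -2 < q.2.2 ∧ 0 < nw3 C q ∧ 0 < nw2 C q}

/-- the regularized body and the other body -/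
def nP (i : Fin 2) (C : ℝ) (q : ℝ × ℝ × ℝ) : KS := if i = 0 then n3 C q else n2 C q
def nQ (i : Fin 2) (C : ℝ) (q : ℝ × ℝ × ℝ) : KS := if i = 0 then n2 C q else n3 C q
/-- `λ` with `L_P = 0` -/
def nlam (i : Fin 2) (C : ℝ) : ℝ := if i = 0 then -C / mb else C / ma
/-- sign of the radial velocity of `P` -/
def nsg (i : Fin 2) : ℝ := if i = 0 then 1 else -1

end

end Pool.Agent.HS
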