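import Pool.Agent.Lib_helper60.HSF.D_DefsL

/-!
# Project HS, part Z: loops (wanted statements)
-/

namespace Pool.Agent.HS

noncomputable section

open Set Filter Topology
open scoped ContDiff

/-! ## Block LA: the model loops (rational arithmetic) -/

/-! ## Block LB: matching at the corners -/

/-! ## Block LC: derivative of the step at `C = 0` -/

/-! ## Block LD: arcs as plain words -/

/-! ## Block LE: four steps (calculus) -/

/-! ## Block LF: the loops -/

end

end Pool.Agent.HS
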