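import Pool.Agent.Lib_helper60.HSF.D_WT
import Pool.Agent.Lib_helper60.HSF.D_WL

/-!
# Project HS, part Q: T arcs at fixed `C`, base arcs (definitions)
-/

namespace Pool.Agent.HS

noncomputable section

open Set Filter Topology
open scoped ContDiff

/-- zero of `g0` at `(X, τe)`, transversal to the directions in `V` -/
def TZeroV (V : Set Pl) (g0 : Pl × ℝ → ℂ) (X : Pl) (τe : ℝ) : Prop :=
  g0 (X, τe) = 0 ∧ ∃ (ex ez eτ : ℂ) (Q h : ℝ), 0 < h ∧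
    (∀ Y ∈ Metric.closedBall X h, ∀ t ∈ Icc (τe - h) (τe + h),
      ‖g0 (Y, t) - g0 (X, τe) -
        ((Y.1 - X.1 : ℝ) * ex + (Y.2 - X.2 : ℝ) * ez + (t - τe : ℝ) * eτ)‖ ≤
        Q * (‖Y - X‖ + |t - τe|) ^ 2) ∧
    ∀ v ∈ V, ((starRingEnd ℂ) eτ * ((v.1 : ℂ) * ex + (v.2 : ℂ) * ez)).im ≠ 0

/-- isolated in time -/
def TIsoV (V : Set Pl) (g0 : Pl × ℝ → ℂ) (X : Pl) (τm h : ℝ) : Prop :=
  TZeroV V g0 X τm ∧ ∀ t ∈ Icc (τm - h) (τm + h), t ≠ τm → g0 (X, t) ≠ 0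

/-- collision states of the limit `C = 0`, direction `0` -/
def y30 : KS := ((rh : ℂ), ((mb * kh : ℝ) : ℂ))
def y20 : KS := ((rh : ℂ), ((-(ma * kh) : ℝ) : ℂ))

/-- time reversal combined with reflection -/
def mir (X : Pl) : Pl := (X.1, -1 - 4 * X.1 - X.2)

end

end Pool.Agent.HS
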