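import Pool.Agent.Lib_helper60.HSF.D_WQ

/-!
# Project HS, part R: events at encounters (definitions)
-/

namespace Pool.Agent.HS

noncomputable section

open Set Filter Topology
open scoped ContDiff

/-- The corner function: `κ` relative speed, `r` distance, `χv` variable direction, `χf` fixed
direction (near `-π/2`), `ϖ` scale. -/
def cornW (κ r χv χf lam ϖ : ℝ) (υ : ℂ) : ℂ :=
  ((1 / (Real.sqrt 2 * κ * Real.sqrt (Real.sin ((χv - χf) / 2))) : ℝ) : ℂ) *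
    ((ϖ : ℂ) * Complex.exp ((χv / 2 : ℝ) * Complex.I) -
      ((lam ^ 2 / ϖ : ℝ) : ℂ) * Complex.exp (((χf + Real.pi) / 2 : ℝ) * Complex.I)) -
    υ * (Real.sqrt r : ℝ)

def cP (lam ϖ S : ℝ) : ℝ := ϖ + lam ^ 2 / (ϖ * S)
def cM (lam ϖ S : ℝ) : ℝ := lam ^ 2 / (ϖ * S) + lam ^ 4 / ϖ ^ 3

/-- derivative of a direction function with constant `Y`, at `C = 0` -/
def dirD (X : Pl) (χ : ℝ) (v : Pl) : ℝ := (v.1 - Real.cos χ * (2 * v.1 + v.2)) / me X χ

/-- the event covector at `C = 0`, fixed direction `-π/2` -/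
def covE (X : Pl) (χ lam ϖ : ℝ) (v : Pl) : ℝ :=
  cP lam ϖ (Real.sin ((χ + Real.pi / 2) / 2)) * dirD X χ v -
    cM lam ϖ (Real.sin ((χ + Real.pi / 2) / 2)) * dirD X (-(Real.pi / 2)) v

/-- directions at the vertices: slopes of type `i'` at the hub (`side = false`), their images
under the first three arcs of the loop at the fourth vertex (`side = true`) -/
def dcone (side : Bool) (i' : Fin 2) : Set Pl :=
  if side then {v | ∃ m ∈ Icc (slo i') (shi i'), ‖v - lin3 (1, m)‖ ≤ 1 / 10000}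
  else {v | ∃ m ∈ Icc (slo i') (shi i'), v = (1, m)}

/-- the vertex -/
def vS (side : Bool) : Pl := if side then Xcp else 0

/-- condition on the variable direction -/
def sc (side : Bool) (χ : ℝ) : Prop := if side then χ ≤ Real.pi else 0 ≤ χ

/-- an arc of type `T` on small balls about `X`, direction function `χ`, at most `N` sun
collisions, all transversal -/
def AtArc (side : Bool) (N : ℕ) (C : ℝ) (X : Pl) (χ : Pl → ℝ) : Prop :=
  ∀ δ : ℝ, 0 < δ → ∃ (i : Fin 2) (h1 he : ℝ) (τ0 : Pl → ℝ) (n : ℕ) (τm : Fin n → ℝ),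
    0 < h1 ∧ h1 ≤ δ ∧ 0 < he ∧ he ≤ δ ∧ n ≤ N ∧ RArc C i (Metric.closedBall X h1) (TL χ) τ0 ∧
    (∀ h, 0 < h → h ≤ h1 → SunW C i (Metric.closedBall X h) χ τ0 he n τm) ∧
    ∀ j i', TIsoV (dcone side i') (fun q => (Zd i (limD C q.1 (χ q.1)) q.2).1) X (τm j) he

/-- Direction family: `g (C, ν, X)`, arcs exist for `ν = K C` where `cond` holds. -/
structure DFam (side : Bool) (N : ℕ) (cond : ℝ → Prop) (Xs : Pl) (χs νs r : ℝ)
    (g : ℝ × ℝ × Pl → ℝ) : Prop where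
  hr : 0 < r
  reg : ContDiffOn ℝ 2 g (Metric.ball (0, νs, Xs) r)
  val : g (0, νs, Xs) = χs
  der : ∀ v : Pl, fderiv ℝ (fun X => g (0, νs, X)) Xs v = dirD Xs χs v
  arc : ∀ (C : ℝ) (K : ℕ), 0 < C → C < r → |K * C - νs| < r → ∀ X ∈ Metric.ball Xs r,
    cond (g (C, K * C, X)) → AtArc side N C X (fun Y => g (C, K * C, Y))

/-- the corner function along two direction families -/
def cornG (gv gf : ℝ × ℝ × Pl → ℝ) (C ν ν' lam : ℝ) (υ : ℂ) (q : Pl × ℝ) : ℂ :=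
  cornW (zk C q.1) (zr C q.1) (gv (C, ν, q.1)) (gf (C, ν', q.1)) lam q.2 υ

/-- Event at an encounter between two `T` arcs near the vertex `side`. -/
def Corn (C ρe : ℝ) (side : Bool) (lam : ℝ) (υ : ℂ) : Prop :=
  ∃ (X : Pl) (h1 : ℝ) (χf χv τf τv : Pl → ℝ) (if_ iv : Fin 2) (ϖe he : ℝ) (n : ℕ)
    (τm : Fin n → ℝ) (i' : Fin 2),
    X ∈ Metric.closedBall (vS side) ρe ∧ 0 < h1 ∧ 0 < he ∧ n ≤ 2 ∧
    ContDiffAt ℝ 2 χf X ∧ ContDiffAt ℝ 2 χv X ∧
    RArc C if_ (Metric.closedBall X h1) (TL χf) τf ∧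
    (∀ Y ∈ Metric.closedBall X h1, ∀ τ ∈ Ioo 0 (τf Y),
      (Zd if_ (limD C Y (χf Y)) τ).1 ≠ 0) ∧
    RArc C iv (Metric.closedBall X h1) (TL χv) τv ∧
    SunW C iv (Metric.closedBall X h1) χv τv he n τm ∧
    (∀ Y ∈ Metric.closedBall X h1, |χf Y + Real.pi / 2| ≤ 1 / 100 ∧
      (if side then Real.pi / 2 else 0) - 1 / 100 ≤ χv Y ∧
      χv Y ≤ (if side then Real.pi else Real.pi / 2) + 1 / 100) ∧
    0 < ϖe - he ∧ lam / 2 < ϖe - he ∧
    TZeroV (dcone side i')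
      (fun q => cornW (zk C q.1) (zr C q.1) (χv q.1) (χf q.1) lam q.2 υ) X ϖe ∧
    ((∀ Y ∈ Metric.closedBall X h1, χv Y - χf Y ≠ Real.pi) ∨
      (χv X - χf X = Real.pi ∧ ∀ v ∈ dcone side i', fderiv ℝ χv X v - fderiv ℝ χf X v ≠ 0)) ∧
    ∀ j, TIsoV (dcone side i') (fun q => (Zd iv (limD C q.1 (χv q.1)) q.2).1) X (τm j) he

end

end Pool.Agent.HS
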