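import Pool.Agent.Lib_helper60.HSF.D_DefsK

/-!
# Project HS, part Z: definitions for the arcs of the limit problem

`C` total angular momentum (small, possibly `0`), `X = (x, z)` point of the centre plane,
`χ` direction of the relative velocity.
-/

namespace Pool.Agent.HS

noncomputable section

open Set Filter Topology

/-- `2^(2/3)`, the value of `h2 / h3` at the base resonance -/
def be : ℝ := (2:ℝ) ^ (2/3 : ℝ)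

/-- `ρ` -/
def zρ (X : ℝ × ℝ) : ℝ := 1/2 + X.1
/-- `ϖ` -/
def zϖ (X : ℝ × ℝ) : ℝ := 1/2 + 2 * X.1 + X.2
/-- `r` -/
def zr (C : ℝ) (X : ℝ × ℝ) : ℝ := (chart C X).1
/-- `U / C` -/
def zU (C : ℝ) (X : ℝ × ℝ) : ℂ := ((zϖ X / rh : ℝ) : ℂ) + ((1 / zr C X : ℝ) : ℂ) * Complex.I
/-- relative speed -/
def zk (C : ℝ) (X : ℝ × ℝ) : ℝ := kap0 C (chart C X)
/-- relative velocity -/
def zw (C : ℝ) (X : ℝ × ℝ) (χ : ℝ) : ℂ := (zk C X : ℂ) * Complex.exp ((χ : ℂ) * Complex.I)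
/-- state of body 3 -/
def z3 (C : ℝ) (X : ℝ × ℝ) (χ : ℝ) : KS := ((zr C X : ℂ), (C : ℂ) * zU C X + (mb : ℂ) * zw C X χ)
/-- state of body 2 -/
def z2 (C : ℝ) (X : ℝ × ℝ) (χ : ℝ) : KS := ((zr C X : ℂ), (C : ℂ) * zU C X - (ma : ℂ) * zw C X χ)

/-- `(w × U) / C` -/
def zX (C : ℝ) (X : ℝ × ℝ) (χ : ℝ) : ℝ := ((starRingEnd ℂ) (zw C X χ) * zU C X).im
def zD (C : ℝ) (X : ℝ × ℝ) (χ : ℝ) : ℂ := cD (zr C X) (z3 C X χ).2 (z2 C X χ).2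
def zden (C : ℝ) (X : ℝ × ℝ) (χ : ℝ) : ℝ := cden (zr C X) (z3 C X χ).2 (z2 C X χ).2
/-- `λ / C` -/
def zlam (C : ℝ) (X : ℝ × ℝ) (χ : ℝ) : ℝ :=
  -2 * zr C X * kL (z3 C X χ) * kL (z2 C X χ) * zX C X χ / zden C X χ
/-- second intersection -/
def zB (C : ℝ) (X : ℝ × ℝ) (χ : ℝ) : ℂ := (zr C X : ℂ) + ((C * zlam C X χ : ℝ) : ℂ) * zD C X χ
/-- its direction -/
def zBh (C : ℝ) (X : ℝ × ℝ) (χ : ℝ) : ℂ := zB C X χ / (‖zB C X χ‖ : ℂ)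

def zc3 (C : ℝ) (X : ℝ × ℝ) (χ : ℝ) : ℝ :=
  (kL (z3 C X χ) ^ 2 - kL (z2 C X χ) ^ 2) +
    kσ (z3 C X χ) * zr C X * kL (z2 C X χ) * (C * zX C X χ)
def zc2 (C : ℝ) (X : ℝ × ℝ) (χ : ℝ) : ℝ :=
  (kL (z3 C X χ) ^ 2 - kL (z2 C X χ) ^ 2) +
    kσ (z2 C X χ) * zr C X * kL (z3 C X χ) * (C * zX C X χ)

/-- `tan (s3 / 2) / C`, `tan (s2 / 2) / C` for the second intersection -/
def zW3 (C : ℝ) (X : ℝ × ℝ) (χ : ℝ) : ℝ :=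
  -(zr C X ^ 2 * kL (z2 C X χ) * zX C X χ) / (Real.sqrt (kA (z3 C X χ)) * zc3 C X χ)
def zW2 (C : ℝ) (X : ℝ × ℝ) (χ : ℝ) : ℝ :=
  -(zr C X ^ 2 * kL (z3 C X χ) * zX C X χ) / (Real.sqrt (kA (z2 C X χ)) * zc2 C X χ)

/-- anomalies of the second intersection -/
def zs3 (C : ℝ) (X : ℝ × ℝ) (χ : ℝ) : ℝ := 2 * Real.arctan (C * zW3 C X χ)
def zs2 (C : ℝ) (X : ℝ × ℝ) (χ : ℝ) : ℝ := 2 * Real.arctan (C * zW2 C X χ)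

/-- `arctan (c w) / c` -/
def atn (c w : ℝ) : ℝ := w * dslope Real.arctan 0 (c * w)

/-- `kT y (2 arctan (C W)) / C` -/
def zt (C : ℝ) (y : KS) (W : ℝ) : ℝ :=
  Real.sqrt (kA y) * (2 * kA y * atn C W + 2 * (kr y - kA y) * W / (1 + (C * W) ^ 2) +
    2 * C * Real.sqrt (kA y) * kσ y * W ^ 2 / (1 + (C * W) ^ 2))

/-- `(t3 - t2) / C` -/
def zτ (C : ℝ) (X : ℝ × ℝ) (χ : ℝ) : ℝ :=
  zt C (z3 C X χ) (zW3 C X χ) - zt C (z2 C X χ) (zW2 C X χ)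

/-- `(h3 - h2 - d0) / C` -/
def zE (C : ℝ) (X : ℝ × ℝ) (χ : ℝ) : ℝ :=
  ((starRingEnd ℂ) (zw C X χ) * zU C X).re +
    8 / 3 * (-(zρ X) / (cc * rh ^ 2 * zr C X) - C * ‖zU C X‖ ^ 2 / 2)

def zQ (C : ℝ) (X : ℝ × ℝ) (χ : ℝ) : ℝ := kh' (z2 C X χ) / kh' (z3 C X χ)

/-- `(T3 / T2 - 2) / C` -/
def zy (C : ℝ) (X : ℝ × ℝ) (χ : ℝ) : ℝ :=
  -((ma + mb * be) * zE C X χ * (zQ C X χ ^ 2 + be * zQ C X χ + be ^ 2)) /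
    (kh' (z3 C X χ) * (zQ C X χ * Real.sqrt (zQ C X χ) + 2))

/-- equation of the arcs `S`: `K T3 + t3 = (2K + j) T2 + t2`, `ν = K C` -/
def zΞ (j C ν : ℝ) (X : ℝ × ℝ) (χ : ℝ) : ℝ :=
  ν * zy C X χ + C * zτ C X χ / kPer (z2 C X χ) - j
/-- equation of the arcs `T`: `K T3 = (2K + j) T2`, `ν = K C` -/
def zΘ (j C ν : ℝ) (X : ℝ × ℝ) (χ : ℝ) : ℝ := ν * zy C X χ - j

/-- centre data at the second intersection -/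
def zρ' (C : ℝ) (X : ℝ × ℝ) (χ : ℝ) : ℝ :=
  zρ X + cc * rh * (2 * zr C X * zlam C X χ * (zD C X χ).re +
    C * zlam C X χ ^ 2 * ‖zD C X χ‖ ^ 2) / (‖zB C X χ‖ + zr C X)
def zϖ' (C : ℝ) (X : ℝ × ℝ) (χ : ℝ) : ℝ :=
  rh * (((starRingEnd ℂ) (zBh C X χ) * zU C X).re -
    (ma / kL (z3 C X χ) + mb / kL (z2 C X χ)) * zlam C X χ * (zD C X χ).im / ‖zB C X χ‖)
def zF (C : ℝ) (X : ℝ × ℝ) (χ : ℝ) : ℝ × ℝ :=
  (zρ' C X χ - 1/2, zϖ' C X χ - 1/2 - 2 * (zρ' C X χ - 1/2))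
/-- relative velocity at the second intersection -/
def zw' (C : ℝ) (X : ℝ × ℝ) (χ : ℝ) : ℂ :=
  zw C X χ + Complex.I * ((1 / kL (z3 C X χ) - 1 / kL (z2 C X χ) : ℝ) : ℂ) * (zBh C X χ - 1)
/-- its direction, in the rotated frame -/
def zθ (C : ℝ) (X : ℝ × ℝ) (χ : ℝ) : ℝ :=
  χ + Complex.arg ((starRingEnd ℂ) (zBh C X χ) * zw' C X χ * Complex.exp (-(χ : ℂ) * Complex.I))

/-- the good region, open, contains `(0, X, χ)` if `sin χ ≠ 0` -/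
structure ZG (C : ℝ) (X : ℝ × ℝ) (χ : ℝ) : Prop where
  C1 : |C| < 1
  r : rh / 2 < zr C X ∧ zr C X < 2 * rh
  p : |(chart C X).2| < 1
  k : |zk C X - kh| < 1 / 20
  k0 : 0 < E0 + 1 / zr C X - ((chart C X).2 ^ 2 + C ^ 2 / zr C X ^ 2) / 2
  e3 : Ell (z3 C X χ)
  e2 : Ell (z2 C X χ)
  D : zD C X χ ≠ 0
  c3 : 0 < zc3 C X χ
  c2 : 0 < zc2 C X χ
  B : 1 / 2 < (zBh C X χ).re ∧ rh / 2 < ‖zB C X χ‖ ∧ ‖zB C X χ‖ < 2 * rh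
  w : 0 < ((starRingEnd ℂ) (zBh C X χ) * zw' C X χ * Complex.exp (-(χ : ℂ) * Complex.I)).re
  /-- centre data and relative speed at the end -/
  F : |(chart C (zF C X χ)).2| < 1 ∧ |zk C (zF C X χ) - kh| < 1 / 20 ∧
    0 < E0 + 1 / zr C (zF C X χ) - ((chart C (zF C X χ)).2 ^ 2 + C ^ 2 / zr C (zF C X χ) ^ 2) / 2
  /-- the flight times to the second intersection are short -/
  τ : |C * zt C (z3 C X χ) (zW3 C X χ)| < kPer (z3 C X χ) / 2 ∧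
    |C * zt C (z2 C X χ) (zW2 C X χ)| < kPer (z2 C X χ) / 2

def ZS : Set (ℝ × (ℝ × ℝ) × ℝ) := {p | ZG p.1 p.2.1 p.2.2}

/-! ## The model: `C = 0` -/

def mY (X : ℝ × ℝ) (χ : ℝ) : ℝ := zϖ X * Real.cos χ + Real.sin χ - zρ X
/-- `∂Y/∂χ` -/
def me (X : ℝ × ℝ) (χ : ℝ) : ℝ := Real.cos χ - zϖ X * Real.sin χ
def mD (X : ℝ × ℝ) (χ : ℝ) : ℝ := 2 * (Real.cos χ / Real.sin χ - zϖ X)
def mF (X : ℝ × ℝ) (χ : ℝ) : ℝ × ℝ :=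
  (zρ X + mD X χ * Real.cos χ - 1/2,
    zϖ X + mD X χ - 1/2 - 2 * (zρ X + mD X χ * Real.cos χ - 1/2))
/-- `(T3/T2 - 2)/C = Λ Y` -/
def mΛ : ℝ := 3 / 2 * (ma + mb * be) * be ^ 2 * kh / rh

/-! ## The loops -/

/-- vertices in the coordinates `(x, z)` -/
def vtx (i : Fin 2) (k : Fin 4) : ℝ × ℝ :=
  if i = 0 then ![((0:ℝ), (0:ℝ)), (3/10, -1/10), (3/10, -21/10), (0, -1)] k
  else ![((0:ℝ), (0:ℝ)), (5/78, -23/78), (5/78, -25/26), (0, -1)] k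
/-- directions -/
def dir (i : Fin 2) (k : Fin 4) : ℝ :=
  if i = 0 then ![2 * Real.arctan (1/2), -(Real.pi / 2), 2 * Real.arctan 2, Real.pi / 2] k
  else ![2 * Real.arctan (-(3/2)), -(Real.pi / 2), 2 * Real.arctan (-(2/3)), Real.pi / 2] k
/-- `Y` -/
def lvY (i : Fin 2) (k : Fin 4) : ℝ :=
  if i = 0 then ![(3/5 : ℝ), -(9/5), 3/5, 1/2] k else ![(-(21/13) : ℝ), -(61/39), -(21/13), 1/2] k
/-- `j` -/
def lvj (i : Fin 2) (k : Fin 4) : ℝ :=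
  if i = 0 then ![(1 : ℝ), -1, 1, 1] k else ![(-1 : ℝ), -1, -1, 1] k
/-- `ν` -/
def lvν (i : Fin 2) (k : Fin 4) : ℝ := lvj i k / (mΛ * lvY i k)

end

end Pool.Agent.HS
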