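import Mathlib

/-!
# The planar three-body problem and the shape sphere (MP_b9cbe4_an): definitions
-/

set_option autoImplicit false

namespace Pool.Agent.ThreeBody

noncomputable section

/-- Positions of three bodies in the plane. -/
abbrev Conf := Fin 3 → ℂ

/-- `q` is, on the open interval `I`, a collision-free `C²` curve which satisfies Newton's
equations `m i q_i'' = ∑_{j ≠ i} m i m j (q_j - q_i) / |q_j - q_i|³` (gravitational constant `1`). -/
structure IsSolution (m : Fin 3 → ℝ) (I : Set ℝ) (q : ℝ → Conf) : Prop where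
  isOpen : IsOpen I
  interval : I.OrdConnected
  nonempty : I.Nonempty
  smooth : ContDiffOn ℝ 2 q I
  collisionFree : ∀ t ∈ I, ∀ i j, i ≠ j → q t i ≠ q t j
  newton : ∀ t ∈ I, ∀ i, (m i : ℂ) * deriv (deriv fun s => q s i) t =
    ∑ j ∈ Finset.univ.erase i, (m i * m j : ℂ) * (q t j - q t i) / (‖q t j - q t i‖ : ℂ) ^ 3

/-- `q` is a solution on its maximal open interval of existence `I`: it has no extension to a
larger open interval. -/
structure IsMaximalSolution (m : Fin 3 → ℝ) (I : Set ℝ) (q : ℝ → Conf) : Prop extends
    IsSolution m I q where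
  maximal : ∀ (J : Set ℝ) (q' : ℝ → Conf), IsSolution m J q' → I ⊆ J → Set.EqOn q' q I → J = I

/-- The configurations other than triple collisions. -/
abbrev NTC := {q : Conf // ¬ (q 0 = q 1 ∧ q 1 = q 2)}

/-- Two configurations have the same shape if they differ by a translation, a rotation and a
scaling: `q'_i = l q_i + c`, `l ≠ 0`. -/
def shapeSetoid : Setoid NTC where
  r q q' := ∃ l c : ℂ, l ≠ 0 ∧ ∀ i, q'.1 i = l * q.1 i + c
  iseqv :=
    { refl := fun q => ⟨1, 0, one_ne_zero, fun i => by simp⟩
      symm := by
        rintro q q' ⟨l, c, hl, h⟩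
        refine ⟨l⁻¹, -(l⁻¹ * c), inv_ne_zero hl, fun i => ?_⟩
        rw [h i]
        field_simp
        ring
      trans := by
        rintro q q' q'' ⟨l, c, hl, h⟩ ⟨l', c', hl', h'⟩
        refine ⟨l' * l, l' * c + c', mul_ne_zero hl' hl, fun i => ?_⟩
        rw [h' i, h i]
        ring }

/-- The shape sphere, with the quotient topology. -/
def ShapeSphere : Type := Quotient shapeSetoid

instance : TopologicalSpace ShapeSphere := inferInstanceAs (TopologicalSpace (Quotient shapeSetoid))

/-- The projection to the shape sphere. -/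
def shape (q : NTC) : ShapeSphere := Quotient.mk shapeSetoid q

/-- The projection of the curve `q` on `I` to the shape sphere has dense image. -/
def DenseImage (I : Set ℝ) (q : ℝ → Conf) : Prop :=
  Dense {s : ShapeSphere | ∃ t ∈ I, ∃ h : ¬ (q t 0 = q t 1 ∧ q t 1 = q t 2), shape ⟨q t, h⟩ = s}

end

end Pool.Agent.ThreeBody
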