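import Pool.Agent.Lib_helper60.HSF.D_DefsA

/-!
# Part A: Lipschitz calculus, Newton lemma, flows (Mathlib only)
-/

namespace Pool.Agent.HS

noncomputable section

open Set Filter Topology

/-! ## Block CA: the calculus of `Near`, `Lip`, `Reg` -/

section CA
variable {α β : Type*} [PseudoMetricSpace α] [PseudoMetricSpace β]
variable {E F H : Type*} [NormedAddCommGroup E] [NormedAddCommGroup F] [NormedAddCommGroup H]

end CA

/-! ## Block CB: smooth maps are `Reg` -/

section CB
variable {E F : Type*} [NormedAddCommGroup E] [NormedSpace ℝ E] [NormedAddCommGroup F]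
  [NormedSpace ℝ F]

end CB

/-! ## Block NW: Newton's method with Lipschitz dependence on parameters -/

/-! ## Block FL: flows of bounded Lipschitz vector fields -/

section FL
variable {E : Type*} [NormedAddCommGroup E] [NormedSpace ℝ E] [CompleteSpace E]

end FL

/-! ## Block IO: the singular inner equation `B' = -2B/g + …` -/

section IO
variable {E₁ E₂ : Type*} [NormedAddCommGroup E₁] [NormedSpace ℝ E₁] [CompleteSpace E₁]
  [NormedAddCommGroup E₂] [NormedSpace ℝ E₂] [CompleteSpace E₂]

end IO

end

end Pool.Agent.HS
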