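import Pool.Agent.Lib_helper60.HSF.D_WI

/-!
# Part E: events (wanted statements), designer helper28; first version helper60
-/

namespace Pool.Agent.HS

noncomputable section

open Set Filter Topology Classical

/-! ## E0 the system -/

/-- `y` reaches `y'` (up to rotation) and passes within `h` of the shape `z = x3 / x2` -/
def HitR (M : ℝ) (z : ℂ) (h : ℝ) (y y' : St) : Prop :=
  ∃ ρ : ℂ, ‖ρ‖ = 1 ∧ ∃ T : ℝ, 0 ≤ T ∧ ∃ γ : ℝ → St, SolOn M T γ ∧ γ 0 = y ∧ γ T = rot ρ y' ∧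
    ∃ t ∈ Icc (0:ℝ) T, ‖x3 (γ t) - z * x2 (γ t)‖ ≤ h * ‖x2 (γ t)‖

end

end Pool.Agent.HS
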