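import Pool.Agent.Lib_helper60.HSF.D_WE1

/-!
# HSE block E0a: concatenation and rotation of solutions
-/

namespace Pool.Agent.HS

noncomputable section

open Set Filter Topology Classical

/-- concatenation of two curves -/
def e0cat (T : ℝ) (γ γ' : ℝ → St) : ℝ → St := fun t => if t ≤ T then γ t else γ' (t - T)

theorem e0cat_left {T : ℝ} {γ γ' : ℝ → St} {t : ℝ} (ht : t ≤ T) : e0cat T γ γ' t = γ t := by
  simp [e0cat, ht]

theorem e0cat_right {T : ℝ} {γ γ' : ℝ → St} (hj : γ T = γ' 0) {t : ℝ} (ht : T ≤ t) :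
    e0cat T γ γ' t = γ' (t - T) := by
  rcases ht.eq_or_lt with h | h
  · subst h; simp [e0cat, hj]
  · simp [e0cat, not_le.2 h]

theorem e0_concat {M T T' : ℝ} (hT : 0 ≤ T) (hT' : 0 ≤ T') {γ γ' : ℝ → St} (h : SolOn M T γ)
    (h' : SolOn M T' γ') (hj : γ T = γ' 0) : SolOn M (T + T') (e0cat T γ γ') := by
  have hA : ∀ t ∈ Icc (0:ℝ) T, NC (e0cat T γ γ' t) ∧
      HasDerivWithinAt (e0cat T γ γ') (vf M (e0cat T γ γ' t)) (Icc 0 T) t := by
    intro t ht
    rw [e0cat_left ht.2]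
    refine ⟨(h t ht).1, ?_⟩
    exact (h t ht).2.congr (fun s hs => e0cat_left hs.2) (e0cat_left ht.2)
  have hB : ∀ t ∈ Icc T (T + T'), NC (e0cat T γ γ' t) ∧
      HasDerivWithinAt (e0cat T γ γ') (vf M (e0cat T γ γ' t)) (Icc T (T + T')) t := by
    intro t ht
    rw [e0cat_right hj ht.1]
    have ht' : t - T ∈ Icc (0:ℝ) T' := ⟨by linarith [ht.1], by linarith [ht.2]⟩
    refine ⟨(h' _ ht').1, ?_⟩
    have h2 := (h' _ ht').2
    have h3 : HasDerivWithinAt (fun s => γ' (s - T)) (vf M (γ' (t - T))) (Icc T (T + T')) t := by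
      have h4 : HasDerivWithinAt (fun s : ℝ => s - T) 1 (Icc T (T + T')) t :=
        (hasDerivWithinAt_id t _).sub_const T
      have hm : MapsTo (fun s : ℝ => s - T) (Icc T (T + T')) (Icc 0 T') :=
        fun s hs => ⟨by linarith [hs.1], by linarith [hs.2]⟩
      exact (HasDerivWithinAt.scomp (h := fun s : ℝ => s - T) t h2 h4 hm).congr_deriv
        (one_smul _ _)
    exact h3.congr (fun s hs => e0cat_right hj hs.1) (e0cat_right hj ht.1)
  intro t ht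
  have hU : Icc (0:ℝ) (T + T') = Icc 0 T ∪ Icc T (T + T') := by
    rw [Icc_union_Icc_eq_Icc hT (by linarith)]
  refine ⟨?_, ?_⟩
  · rcases le_total t T with h1 | h1
    · exact (hA t ⟨ht.1, h1⟩).1
    · exact (hB t ⟨h1, ht.2⟩).1
  · rw [hU]
    refine HasDerivWithinAt.union ?_ ?_
    · by_cases h1 : t ≤ T
      · exact (hA t ⟨ht.1, h1⟩).2
      · refine HasFDerivWithinAt.of_notMem_closure ?_
        rw [isClosed_Icc.closure_eq]
        exact fun h2 => h1 h2.2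
    · by_cases h1 : T ≤ t
      · exact (hB t ⟨h1, ht.2⟩).2
      · refine HasFDerivWithinAt.of_notMem_closure ?_
        rw [isClosed_Icc.closure_eq]
        exact fun h2 => h1 h2.1

theorem e0_rot_smul (ρ : ℂ) (y : St) : rot ρ y = ρ • y := rfl

theorem e0_G {ρ : ℂ} (hρ : ‖ρ‖ = 1) (x : ℂ) : G (ρ * x) = ρ * G x := by
  simp only [G, norm_mul, hρ, one_mul]; ring

theorem e0_vf {M : ℝ} {ρ : ℂ} (hρ : ‖ρ‖ = 1) (y : St) : vf M (rot ρ y) = rot ρ (vf M y) := by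
  have h1 : G (ρ * x3 y - ρ * x2 y) = ρ * G (x3 y - x2 y) := by rw [← mul_sub, e0_G hρ]
  simp only [vf, rot, x3, x2, u3, u2] at h1 ⊢
  rw [h1, e0_G hρ, e0_G hρ]
  simp only [Prod.mk.injEq]
  refine ⟨by ring, by ring, by ring, by ring⟩

theorem e0_nc {ρ : ℂ} (hρ : ‖ρ‖ = 1) {y : St} (h : NC y) : NC (rot ρ y) := by
  have h0 : ρ ≠ 0 := by intro h; rw [h] at hρ; simp at hρ
  obtain ⟨h1, h2, h3⟩ := h
  exact ⟨mul_ne_zero h0 h1, mul_ne_zero h0 h2, fun h4 => h3 (mul_left_cancel₀ h0 h4)⟩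

theorem e0_rot {M T : ℝ} {ρ : ℂ} (hρ : ‖ρ‖ = 1) {γ : ℝ → St} (h : SolOn M T γ) :
    SolOn M T (fun t => rot ρ (γ t)) := by
  intro t ht
  refine ⟨e0_nc hρ (h t ht).1, ?_⟩
  rw [e0_vf hρ]
  exact (h t ht).2.const_smul ρ

theorem e0_rot_rot (ρ ρ' : ℂ) (y : St) : rot ρ (rot ρ' y) = rot (ρ * ρ') y := by
  simp only [rot, x3, x2, u3, u2, mul_assoc]

theorem e0_n {ρ ρ' : ℂ} (hρ : ‖ρ‖ = 1) (hρ' : ‖ρ'‖ = 1) : ‖ρ * ρ'‖ = 1 := by
  rw [norm_mul, hρ, hρ', one_mul]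

theorem reachR_trans_pr {M : ℝ} {x y w : St} (h : ReachR M x y) (h' : ReachR M y w) :
    ReachR M x w := by
  obtain ⟨ρ, hρ, T, hT, γ, hs, h0, h1⟩ := h
  obtain ⟨ρ', hρ', T', hT', γ', hs', h0', h1'⟩ := h'
  have hj : γ T = rot ρ (γ' 0) := by rw [h1, h0']
  refine ⟨ρ * ρ', e0_n hρ hρ', T + T', by linarith, _, e0_concat hT hT' hs (e0_rot hρ hs') hj,
    ?_, ?_⟩
  · rw [e0cat_left hT, h0]
  · rw [e0cat_right hj (by linarith)]
    simp only [add_sub_cancel_left]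
    rw [h1', e0_rot_rot]

theorem reach_reachR_pr {M : ℝ} {x y : St} (h : Reach M x y) : ReachR M x y := by
  refine ⟨1, norm_one, ?_⟩
  have e : rot 1 y = y := by simp only [rot, one_mul, x3, x2, u3, u2]
  rw [e]; exact h

theorem hitR_reach_pr {M : ℝ} {z : ℂ} {h : ℝ} {x y : St} (h1 : HitR M z h x y) :
    ReachR M x y := by
  obtain ⟨ρ, hρ, T, hT, γ, hs, h0, h2, -⟩ := h1
  exact ⟨ρ, hρ, T, hT, γ, hs, h0, h2⟩

theorem reachR_hitR_pr {M : ℝ} {z : ℂ} {h : ℝ} {x y w : St} (h1 : ReachR M x y)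
    (h2 : HitR M z h y w) : HitR M z h x w := by
  obtain ⟨ρ, hρ, T, hT, γ, hs, h0, h1⟩ := h1
  obtain ⟨ρ', hρ', T', hT', γ', hs', h0', h1', t, ht, hit⟩ := h2
  have hj : γ T = rot ρ (γ' 0) := by rw [h1, h0']
  refine ⟨ρ * ρ', e0_n hρ hρ', T + T', by linarith, _, e0_concat hT hT' hs (e0_rot hρ hs') hj,
    ?_, ?_, T + t, ⟨by linarith [ht.1], by linarith [ht.2]⟩, ?_⟩
  · rw [e0cat_left hT, h0]
  · rw [e0cat_right hj (by linarith)]
    simp only [add_sub_cancel_left]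
    rw [h1', e0_rot_rot]
  · rw [e0cat_right hj (by linarith [ht.1])]
    simp only [add_sub_cancel_left]
    have e1 : x3 (rot ρ (γ' t)) - z * x2 (rot ρ (γ' t)) = ρ * (x3 (γ' t) - z * x2 (γ' t)) := by
      simp only [rot, x3, x2]; ring
    have e2 : x2 (rot ρ (γ' t)) = ρ * x2 (γ' t) := rfl
    rw [e1, e2, norm_mul, norm_mul, hρ, one_mul, one_mul]
    exact hit

theorem hitR_trans_pr {M : ℝ} {z : ℂ} {h : ℝ} {x y w : St} (h1 : HitR M z h x y)
    (h2 : ReachR M y w) : HitR M z h x w := by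
  obtain ⟨ρ, hρ, T, hT, γ, hs, h0, h1, t, ht, hit⟩ := h1
  obtain ⟨ρ', hρ', T', hT', γ', hs', h0', h1'⟩ := h2
  have hj : γ T = rot ρ (γ' 0) := by rw [h1, h0']
  refine ⟨ρ * ρ', e0_n hρ hρ', T + T', by linarith, _, e0_concat hT hT' hs (e0_rot hρ hs') hj,
    ?_, ?_, t, ⟨ht.1, by linarith [ht.2]⟩, ?_⟩
  · rw [e0cat_left hT, h0]
  · rw [e0cat_right hj (by linarith)]
    simp only [add_sub_cancel_left]
    rw [h1', e0_rot_rot]
  · rw [e0cat_left ht.2]; exact hit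

theorem hitR_mono_pr {M : ℝ} {z : ℂ} {h h' : ℝ} {x y : St} (hh : h ≤ h') (h1 : HitR M z h x y) :
    HitR M z h' x y := by
  obtain ⟨ρ, hρ, T, hT, γ, hs, h0, h1, t, ht, hit⟩ := h1
  exact ⟨ρ, hρ, T, hT, γ, hs, h0, h1, t, ht,
    hit.trans (mul_le_mul_of_nonneg_right hh (norm_nonneg _))⟩

end

end Pool.Agent.HS

namespace Pool.Agent.HS
open Set Filter Topology Classical

theorem reachR_trans {M : ℝ} {x y w : St} (h : ReachR M x y) (h' : ReachR M y w) :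
    ReachR M x w :=
  @Pool.Agent.HS.reachR_trans_pr M x y w h h'

end Pool.Agent.HS

namespace Pool.Agent.HS
open Set Filter Topology Classical

theorem reach_reachR {M : ℝ} {x y : St} (h : Reach M x y) : ReachR M x y :=
  @Pool.Agent.HS.reach_reachR_pr M x y h

end Pool.Agent.HS

namespace Pool.Agent.HS
open Set Filter Topology Classical

theorem hitR_reach {M : ℝ} {z : ℂ} {h : ℝ} {x y : St} (h1 : HitR M z h x y) :
    ReachR M x y :=
  @Pool.Agent.HS.hitR_reach_pr M z h x y h1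

end Pool.Agent.HS

namespace Pool.Agent.HS
open Set Filter Topology Classical

theorem reachR_hitR {M : ℝ} {z : ℂ} {h : ℝ} {x y w : St} (h1 : ReachR M x y)
    (h2 : HitR M z h y w) : HitR M z h x w :=
  @Pool.Agent.HS.reachR_hitR_pr M z h x y w h1 h2

end Pool.Agent.HS

namespace Pool.Agent.HS
open Set Filter Topology Classical

theorem hitR_trans {M : ℝ} {z : ℂ} {h : ℝ} {x y w : St} (h1 : HitR M z h x y)
    (h2 : ReachR M y w) : HitR M z h x w :=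
  @Pool.Agent.HS.hitR_trans_pr M z h x y w h1 h2

end Pool.Agent.HS

namespace Pool.Agent.HS
open Set Filter Topology Classical

theorem hitR_mono {M : ℝ} {z : ℂ} {h h' : ℝ} {x y : St} (hh : h ≤ h') (h1 : HitR M z h x y) :
    HitR M z h' x y :=
  @Pool.Agent.HS.hitR_mono_pr M z h h' x y hh h1

end Pool.Agent.HS
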