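import Pool.Agent.Lib_helper60.HSF.D_WE1
import Pool.Agent.Lib_helper60.HSF.E_E0a

namespace Pool.Agent.HS

noncomputable section

open Set Filter Topology Classical

/-- the three-body system with angular momentum `C` -/
def hs (C μ : ℝ) : Sys where
  S := St
  reach := ReachR (μ ^ 2)
  hit := HitR (μ ^ 2)
  enc := enc C μ
  K := fun X N β => kapI C μ (chart C X) N β
  trans := reachR_trans
  hit_reach := hitR_reach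
  reach_hit := reachR_hitR
  hit_trans := hitR_trans
  hit_mono := hitR_mono

/-! ## E1 regular arcs, plain words -/

/-- composition of limit words -/
def LD.comp (l1 l2 : LD) : LD :=
  { F := fun X => l2.F (l1.F X), χ := l1.χ, θ := fun X => l2.θ (l1.F X) }

/-- an arc of the limit problem with regular data -/
structure RArc (C : ℝ) (i : Fin 2) (O : Set Pl) (l : LD) (τ0 : Pl → ℝ) : Prop where
  z : ZArc i C O l.χ τ0 l.F l.θ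
  reg : ∃ L, 0 ≤ L ∧ Reg L l.F O ∧ Reg L l.χ O ∧ Reg L l.θ O
  cd : ∀ X ∈ O, X ∈ CD C ∧ l.F X ∈ CD C

/-- plain words: compositions of arcs, realized for all small `μ` -/
def PW (C : ℝ) (O : Set Pl) (l : LD) : Prop :=
  IsCompact O ∧ (∃ L, 0 ≤ L ∧ Reg L l.F O ∧ Reg L l.χ O ∧ Reg L l.θ O) ∧
    (∀ X ∈ O, X ∈ CD C ∧ l.F X ∈ CD C) ∧
    ∀ ε, 0 < ε → ∃ μ0 : ℝ, 0 < μ0 ∧ ∀ μ, 0 < μ → μ < μ0 → ∃ w : WD, WNear ε O w l ∧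
      Realizes (hs C μ) O w (fun _ => (hs C μ).reach)

/-! ## E2 event words -/

/-- Event words. `S r` (small `r`): the set of pairs `(μ, z)` under consideration.
`g0` limit event function near time `τe`, `ζ0 j` limit mark functions near `τm j`. -/
structure EvW (C : ℝ) (S : ℝ → Set (ℝ × ℂ)) (O : Set Pl) (l : LD) (ι : Type) [Fintype ι]
    (g0 : Pl × ℝ → ℂ) (τe h : ℝ) (ζ0 : ι → Pl × ℝ → ℂ) (τm : ι → ℝ) : Prop where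
  cpt : IsCompact O
  hh : 0 < h
  reg : ∃ L, 0 ≤ L ∧ Reg L l.F O ∧ Reg L l.χ O ∧ Reg L l.θ O ∧
    Reg L g0 (O ×ˢ Icc (τe - h) (τe + h)) ∧ ∀ j, Reg L (ζ0 j) (O ×ˢ Icc (τm j - h) (τm j + h))
  cd : ∀ X ∈ O, X ∈ CD C ∧ l.F X ∈ CD C
  pos : ∀ r, 0 < r → ∀ p ∈ S r, 0 < p.1 ∧ p.1 < r
  mono : ∀ r r', 0 < r → r ≤ r' → S r ⊆ S r'
  real : ∀ ε, 0 < ε → ∃ r, 0 < r ∧ ∀ p ∈ S r, ∃ (w : WD) (Ri : Pl × ℝ × ℝ → St → St → Prop)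
    (gf : Pl × ℝ × ℝ × ℝ → ℂ) (ζ : ι → Pl × ℝ × ℝ × ℝ → ℂ),
    WNear ε O w l ∧ Realizes (hs C p.1) O w Ri ∧
    Near ε gf (fun q => g0 (q.1, q.2.2.2)) (O ×ˢ (JJ ×ˢ (JJ ×ˢ Icc (τe - h) (τe + h)))) ∧
    (∀ j, Near ε (ζ j) (fun q => ζ0 j (q.1, q.2.2.2))
      (O ×ˢ (JJ ×ˢ (JJ ×ˢ Icc (τm j - h) (τm j + h))))) ∧
    ∃ Λh : ℝ, 0 < Λh ∧ ∀ X ∈ O, ∀ b ∈ JJ, ∀ b' ∈ JJ,
      (∀ j, ∀ t ∈ Icc (τm j - h) (τm j + h), ζ j (X, b, b', t) ≠ 0) →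
      ∀ t ∈ Icc (τe - h) (τe + h), ∀ h', h' ≤ 1 → Λh * ‖gf (X, b, b', t)‖ < h' →
      ∀ x y, Ri (X, b, b') x y → HitR (p.1 ^ 2) p.2 h' x y

/-- first order expansion at a point; LOCAL, the argument `_h` is not used -/
def Exp1 (g0 : Pl × ℝ → ℂ) (Xe : Pl) (τe _h : ℝ) (ex ez eτ : ℂ) : Prop :=
  ∃ Q h' : ℝ, 0 < h' ∧ ∀ X ∈ Metric.closedBall Xe h', ∀ t ∈ Icc (τe - h') (τe + h'),
    ‖g0 (X, t) - g0 (Xe, τe) -
      ((X.1 - Xe.1 : ℝ) * ex + (X.2 - Xe.2 : ℝ) * ez + (t - τe : ℝ) * eτ)‖ ≤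
      Q * (‖X - Xe‖ + |t - τe|) ^ 2

/-- zero, transversal to the slopes of type `i` -/
def TZero (i : Fin 2) (g0 : Pl × ℝ → ℂ) (Xe : Pl) (τe h : ℝ) : Prop :=
  g0 (Xe, τe) = 0 ∧ ∃ ex ez eτ, Exp1 g0 Xe τe h ex ez eτ ∧
    ∀ m ∈ Icc (slo i) (shi i), ((starRingEnd ℂ) eτ * (ex + m * ez)).im ≠ 0

/-! ## E3 events in the middle of an arc -/

/-- parameter sets: `x_P / x_Q → y∞` -/
def SM (i : Fin 2) (y : ℂ) (r : ℝ) : Set (ℝ × ℂ) :=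
  {p | 0 < p.1 ∧ p.1 < r ∧ p.2 ≠ 0 ∧ ‖(if i = 0 then p.2 else p.2⁻¹) - y‖ < r}

/-- limit event function in the middle of an arc: `ζ² = y x_Q`, resp. `ζ = 0` if `y = 0` -/
def midG (C : ℝ) (i : Fin 2) (χ : Pl → ℝ) (y : ℂ) (q : Pl × ℝ) : ℂ :=
  if y = 0 then (Zd i (limD C q.1 (χ q.1)) q.2).1
  else (Zd i (limD C q.1 (χ q.1)) q.2).1 ^ 2 - y * (Zd i (limD C q.1 (χ q.1)) q.2).2.2.1

/-! ## E4 events at an encounter -/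

/-- parameter sets near the shape `1`: `υ0² = (z - 1)/(b + a z)`, `G = max μ |υ0|` -/
def S4 (lam : ℝ) (υ : ℂ) (r : ℝ) : Set (ℝ × ℂ) :=
  {p | 0 < p.1 ∧ p.1 < r ∧ ∃ υ0 : ℂ, υ0 ≠ 0 ∧ υ0 ^ 2 * (mb + ma * p.2) = p.2 - 1 ∧ ‖υ0‖ < r ∧
    |p.1 / max p.1 ‖υ0‖ - lam| < r ∧ ‖υ0 / (max p.1 ‖υ0‖ : ℝ) - υ‖ < r}

/-- limit impact parameter at the corner between `l1` and `l2` -/
def cB0 (C : ℝ) (l1 l2 : LD) (X : Pl) : ℝ :=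
  Real.cos ((l2.χ (l1.F X) - l1.θ X) / 2) / Real.sin ((l2.χ (l1.F X) - l1.θ X) / 2) /
    kap0 C (chart C (l1.F X))

/-- limit event function on the outgoing leg; `ϖ = g / G` -/
def cornerU (C : ℝ) (l1 l2 : LD) (lam : ℝ) (υ : ℂ) (q : Pl × ℝ) : ℂ :=
  q.2 * A0 (kap0 C (chart C (l1.F q.1))) (l2.χ (l1.F q.1)) (cB0 C l1 l2 q.1)
    + (lam ^ 2 / q.2 : ℝ) * D0 (kap0 C (chart C (l1.F q.1))) (l2.χ (l1.F q.1)) (cB0 C l1 l2 q.1)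
    - υ * Real.sqrt (chart C (l1.F q.1)).1

/-- limit event function on the incoming leg -/
def cornerL (C : ℝ) (l1 l2 : LD) (lam : ℝ) (υ : ℂ) (q : Pl × ℝ) : ℂ :=
  q.2 * A0 (kap0 C (chart C (l1.F q.1))) (l1.θ q.1 + Real.pi) (-cB0 C l1 l2 q.1)
    + (lam ^ 2 / q.2 : ℝ) * D0 (kap0 C (chart C (l1.F q.1))) (l1.θ q.1 + Real.pi)
        (-cB0 C l1 l2 q.1)
    - υ * Real.sqrt (chart C (l1.F q.1)).1

/-- reversed collision data at an encounter with outgoing data `d`, impact parameter `β`: the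
incoming leg as an outgoing leg, impact parameter `-β` -/
def flipD (d : Dt) (β : ℝ) : Dt :=
  (d.1, -d.2.1, d.2.2.1, d.2.2.2 + 2 * Real.arctan (d.2.2.1 * β))

/-- `(u / G, R)` on the two legs at scale `g = G ϖ`; for `g < μ` the other leg at the scale
`μ² / g ≥ μ` is used -/
def legV (μ G : ℝ) (d : Dt) (β ϖ : ℝ) : ℂ × ℂ :=
  if μ ≤ G * ϖ then
    ((ϖ : ℂ) * ((innV μ d β (G * ϖ)).1 + (innV μ d β (G * ϖ)).2.1),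
      (innV μ d β (G * ϖ)).2.2.1)
  else
    (-((μ ^ 2 / (G * ϖ) / G : ℝ) * ((innV μ (flipD d β) (-β) (μ ^ 2 / (G * ϖ))).1 +
        (innV μ (flipD d β) (-β) (μ ^ 2 / (G * ϖ))).2.1)),
      (innV μ (flipD d β) (-β) (μ ^ 2 / (G * ϖ))).2.2.1)

/-- the state on the two legs -/
def legSt (μ G : ℝ) (d : Dt) (β ϖ : ℝ) : St :=
  if μ ≤ G * ϖ then innSt μ d β (G * ϖ) else rev (innSt μ (flipD d β) (-β) (μ ^ 2 / (G * ϖ)))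

/-- the limit of `legV` -/
def legV0 (lam : ℝ) (d : Dt) (β ϖ : ℝ) : ℂ × ℂ :=
  (ϖ * A0 d.2.2.1 d.2.2.2 β + (lam ^ 2 / ϖ : ℝ) * D0 d.2.2.1 d.2.2.2 β, d.1)

/-- the realized event function at the corner; `out = true`: outgoing leg -/
def gfc (C μ G : ℝ) (υ0 : ℂ) (out : Bool) (w1 w2 : WD) (B : Pl × ℝ × ℝ → ℝ)
    (q : Pl × ℝ × ℝ × ℝ) : ℂ :=
  let β := B (q.1, q.2.1, q.2.2.1)
  let X1 := w1.P (q.1, q.2.1, β)
  let V := if out then legV μ G (outD C μ X1 (w2.Θ (X1, β, q.2.2.1)) β) β q.2.2.2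
    else legV μ G (inD C μ X1 (w1.Θ' (q.1, q.2.1, β)) β) (-β) q.2.2.2
  V.1 - υ0 / (G : ℂ) * V.2 ^ (1/2 : ℂ)

end

end Pool.Agent.HS
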