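import Pool.Agent.Lib_helper60.HSF.D_WS
import Pool.Agent.Lib_helper60.HSF.D_Shape

/-!
# Part S/F: assembly of the supply and the final theorem (wanted statements), designer helper1
-/

namespace Pool.Agent.HS

noncomputable section

open Set Filter Topology Classical
open Pool.Agent.ThreeBody (Conf IsSolution IsMaximalSolution NTC ShapeSphere shape DenseImage)

/-! ## Block SC: angles -/

/-! ## Block SK: the corner event at a point, wrapping by connectors -/

/-! ## Block SH: the end of the word, hub -/

/-! ## Block SV: the end of the word, fourth vertex -/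

/-! ## Block SA: assemble_M, assemble_4 (statements in WS; uses SC, SK, SH, SV, mid_event)

For `lam < 0` the set `S4 lam υ r` is empty for `r ≤ -lam`. -/

/-! ## Block ST: all_targets (statement in WS) -/

/-! ## Block SO: orbit_exists (statement in WS; uses game, assemble_M, assemble_4, all_targets) -/

/-! ## Block FA: maximal solutions in relative coordinates -/

/-- collision free solution on an open interval -/
def SolI (M : ℝ) (I : Set ℝ) (γ : ℝ → St) : Prop :=
  IsOpen I ∧ I.OrdConnected ∧ ∀ t ∈ I, NC (γ t) ∧ HasDerivAt γ (vf M (γ t)) t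

/-! ## Block FB: three bodies and relative coordinates

Body `0` has mass `1`, body `1` is body 2 of the project (mass `3/4 M`), body `2` is body 3
(mass `1/4 M`). -/

def mM (M : ℝ) : Fin 3 → ℝ := ![1, 3 / 4 * M, 1 / 4 * M]

/-- position of the sun if the centre of mass is the origin -/
def q1M (M : ℝ) (y : St) : ℂ := -((M / (1 + M) : ℝ) : ℂ) * cR y

def toQ (M : ℝ) (y : St) : Conf := ![q1M M y, q1M M y + x2 y, q1M M y + x3 y]

/-- velocity of the centre of mass -/
def vcM (M : ℝ) (v : Conf) : ℂ := (v 0 + (3 / 4 * M : ℝ) * v 1 + (1 / 4 * M : ℝ) * v 2) / (1 + M : ℝ)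

/-- relative state of the positions `q` and velocities `v` -/
def ofQ (M : ℝ) (q v : Conf) : St := (q 2 - q 0, q 1 - q 0, v 2 - vcM M v, v 1 - vcM M v)

/-! ## Block FC: density in the shape sphere -/

/-! ## Block FD: the final theorem -/

end

end Pool.Agent.HS
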