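import Pool.Agent.Lib_helper60.HSF.D_DefsG

/-!
# Part G: the abstract game (wanted statements)
-/

namespace Pool.Agent.HS

noncomputable section

open Set Filter Topology Classical

/-! ## G1: linking at an encounter -/

/-! ## G2: families -/

/-! ## G3: loops, growth, shadowing -/

/-! ## G4: from event data to the event property -/

end

end Pool.Agent.HS
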