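import Pool.Agent.Lib_helper60.HSF.D_DefsB
import Pool.Agent.Lib_helper60.HSF.D_WA
import Pool.Agent.Lib_helper60.HSF.D_WG

/-!
# Part I/O of project HS: inner flow, outer flow, arcs. Wanted statements (designer helper51)
-/

namespace Pool.Agent.HS

noncomputable section

open Set Filter Topology Classical

/-! ## Section 0: definitions -/

/-- compact sets of collision data: `c ≤ Re R`, `|R|, |U| ≤ 1/c`, `c ≤ κ ≤ 1/c` -/
def DD (c : ℝ) : Set Dt :=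
  {d | c ≤ d.1.re ∧ ‖d.1‖ ≤ 1 / c ∧ ‖d.2.1‖ ≤ 1 / c ∧ c ≤ d.2.2.1 ∧ d.2.2.1 ≤ 1 / c}

/-- `y'` is reached from `y` without collision in time exactly `T` -/
def ReachT (M T : ℝ) (y y' : St) : Prop :=
  0 ≤ T ∧ ∃ γ : ℝ → St, SolOn M T γ ∧ γ 0 = y ∧ γ T = y'

/-- the slow variables `(A, R, U, h)` of the inner equations -/
def inY (V : ℂ × ℂ × ℂ × ℂ × ℝ) : ℂ × ℂ × ℂ × ℝ := (V.1, V.2.2.1, V.2.2.2.1, V.2.2.2.2)

/-- right hand side of the inner equations for `(A, R, U, h)` -/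
def inRHS1 (μ g : ℝ) (y : ℂ × ℂ × ℂ × ℝ) (B : ℂ) : ℂ × ℂ × ℂ × ℝ :=
  let A := y.1
  let R := y.2.1
  let U := y.2.2.1
  let h := y.2.2.2
  let u := g * (A + B)
  let v := g * (A - B)
  let om := Real.sqrt (h / 2)
  (inP R u v h / (2 * g ^ 2),
   (‖u‖ ^ 2 * (1 + μ ^ 2) / (g * om) : ℝ) * U,
   - ((‖u‖ ^ 2 / (g * om) : ℝ) * (ma * G (R + mb * u ^ 2) + mb * G (R - ma * u ^ 2))),
   2 * ((starRingEnd ℂ) u * (starRingEnd ℂ) v * inF R u).re / g)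

/-- right hand side for `B` without the term `-2B/g` -/
def inRHS2 (g : ℝ) (y : ℂ × ℂ × ℂ × ℝ) (B : ℂ) : ℂ :=
  - inP y.2.1 (g * (y.1 + B)) (g * (y.1 - B)) y.2.2.2 / (2 * g ^ 2)

/-- the region where the inner equations are not cut off -/
def inOK (c C : ℝ) (y : ℂ × ℂ × ℂ × ℝ) (B : ℂ) : Prop :=
  ‖y.1‖ ≤ C ∧ ‖B‖ ≤ C ∧ c ≤ y.2.1.re ∧ ‖y.2.1‖ ≤ C ∧ ‖y.2.2.1‖ ≤ C ∧ c ≤ y.2.2.2 ∧ y.2.2.2 ≤ C

/-- wide compact set of centre data -/
def CDw (C : ℝ) : Set (ℝ × ℝ) :=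
  {X | rh / 4 ≤ (chart C X).1 ∧ (chart C X).1 ≤ 4 * rh ∧ |(chart C X).2| ≤ 2 ∧
    |kap0 C (chart C X) - kh| ≤ 1 / 10}

/-- compact set of centre data -/
def CD (C : ℝ) : Set (ℝ × ℝ) :=
  {X | rh / 2 ≤ (chart C X).1 ∧ (chart C X).1 ≤ 2 * rh ∧ |(chart C X).2| ≤ 1 ∧
    |kap0 C (chart C X) - kh| ≤ 1 / 20}

/-- rotation of collision data -/
def rotD (α : ℝ) (d : Dt) : Dt :=
  (Complex.exp (α * Complex.I) * d.1, Complex.exp (α * Complex.I) * d.2.1, d.2.2.1, d.2.2.2 + α)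

/-- compact set in Levi-Civita space, away from `x_Q = 0` -/
def lcBox (c : ℝ) : Set LCS := {Z | ‖Z‖ ≤ 1 / c ∧ c ≤ ‖Z.2.2.1‖}

/-- Levi-Civita state of body `i` on a leg at scale `g`, from the inner variables
`(A, B, R, U, h)`; regular at `g = 0` if `A + B ≠ 0`. -/
def stLC (i : Fin 2) (M g : ℝ) (V : ℂ × ℂ × ℂ × ℂ × ℝ) : LCS :=
  let A := V.1
  let B := V.2.1
  let R := V.2.2.1
  let U := V.2.2.2.1
  let h := V.2.2.2.2
  let ξ : ℂ := (g * (A + B)) ^ 2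
  let w : ℂ := 2 * Real.sqrt (h / 2) * (A - B) / (starRingEnd ℂ) (A + B)
  let xP := if i = 0 then R + mb * ξ else R - ma * ξ
  let uP := if i = 0 then U + mb * w else U - ma * w
  let xQ := if i = 0 then R - ma * ξ else R + mb * ξ
  let uQ := if i = 0 then U - ma * w else U + mb * w
  let ζ := xP ^ (1/2 : ℂ)
  (ζ, 2 * (starRingEnd ℂ) ζ * uP, xQ, uQ,
    (1 + M) * ‖U‖ ^ 2 / 2 + ma * mb * h - ma / ‖R + mb * ξ‖ - mb / ‖R - ma * ξ‖)

/-- collision data with elliptic orbits and nonzero angular momentum of the other body -/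
def AdmD (i : Fin 2) (c : ℝ) : Set Dt :=
  {d | d ∈ DD c ∧ kh' (x3 (colD d), u3 (colD d)) ≤ -c ∧ kh' (x2 (colD d), u2 (colD d)) ≤ -c ∧
    c ≤ |if i = 0 then kL (x2 (colD d), u2 (colD d)) else kL (x3 (colD d), u3 (colD d))|}

/-- collision coordinates `(ξ, R, U, w)` -/
def cc4 (y : St) : ℂ × ℂ × ℂ × ℂ := (cX y, cR y, cU y, cW y)

/-- polar coordinates, the angle is lifted near `N` -/
def pol (N : ℝ) (w : ℂ) : ℝ × ℝ := (‖w‖, N + Complex.arg (w * Complex.exp (-(N : ℂ) * Complex.I)))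

/-- collision coordinates `(ξ, (R, U, |w|, arg w))`, the angle is lifted near `N` -/
def cc5 (N : ℝ) (y : St) : ℂ × Dt := (cX y, cR y, cU y, pol N (cW y))

/-- velocity of `lcX` for the limit field -/
def lcΛ (Z : LCS) : ℂ := Z.1 * Z.2.1 / 2 - (‖Z.1‖ ^ 2 : ℝ) * Z.2.2.2.1

/-- the sign of `lcX` in terms of `ξ = x3 - x2` -/
def sg (i : Fin 2) : ℝ := if i = 0 then 1 else -1

/-- incoming data to reversed data: `(R, U, κ, N) ↦ (R, -U, κ, N + π)` -/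
def revD (d : Dt) : Dt := (d.1, -d.2.1, d.2.2.1, d.2.2.2 + Real.pi)

/-- `Reg` in the fibre variable, Lipschitz in the base variable -/
def RegF {B H E : Type*} [PseudoMetricSpace B] [NormedAddCommGroup H] [NormedAddCommGroup E]
    (L : ℝ) (S : B × H → E) (O : Set B) (ρ : ℝ) : Prop :=
  Lip L S (O ×ˢ Metric.closedBall (0:H) ρ) ∧
  ∀ X ∈ O, ∀ X' ∈ O, ∀ η ∈ Metric.closedBall (0:H) ρ, ∀ θ ∈ Metric.closedBall (0:H) ρ,
    ∀ η' ∈ Metric.closedBall (0:H) ρ, ∀ θ' ∈ Metric.closedBall (0:H) ρ,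
    ‖S (X, η) - S (X, θ) - S (X', η') + S (X', θ')‖ ≤
      L * ‖η - θ - η' + θ'‖ + L * (dist X X' + ‖η - η'‖ + ‖θ - θ'‖) * ‖η' - θ'‖

/-! ## Section R: orbits (only `Defs`) -/

/-! ## Section C: small calculus lemmas -/

/-! ## Section N: the abstract Newton step -/

/-! ## Section I: inner flow -/

/-! ## Section K: energy equation, matching of incoming and outgoing data -/

/-- the defining property of `kapI` -/
def IsKapI (C μ : ℝ) (Y : ℝ × ℝ) (N β κ : ℝ) : Prop :=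
  |κ - kap0 C Y| ≤ 1 / 10 ∧
      encH μ Y.1 (- Uenc C μ Y.1 Y.2 β) κ
        (μ ^ 2 * (A0 κ (N + Real.pi) (-β) + D0 κ (N + Real.pi) (-β)) ^ 2) = E0

/-! ## Section O: the regularized equations -/

/-! ## Section P: arcs -/

/-- inverse of the chart -/
def unchart (C : ℝ) (Y : ℝ × ℝ) : Pl :=
  ((Y.1 - rh) * (cc * rh) / C - 1 / 2,
    Y.2 * rh / C - 1 / 2 - 2 * ((Y.1 - rh) * (cc * rh) / C - 1 / 2))

/-- the end of the limit arc, in Cartesian coordinates -/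
def endSt (i : Fin 2) (C : ℝ) (χ0 τ0 : Pl → ℝ) (X : Pl) : St :=
  lcSt i (Zd i (limD C X (χ0 X)) (τ0 X))

/-- base angle: the (lifted) direction of `w` at the end of the limit arc -/
def endN (i : Fin 2) (C : ℝ) (χ0 τ0 θ : Pl → ℝ) (X : Pl) : ℝ :=
  θ X + Complex.arg (cR (endSt i C χ0 τ0 X))

/-- limit state near the end, centred at `η = 0` -/
def S0f (i : Fin 2) (C : ℝ) (χ0 τ0 θ : Pl → ℝ) (q : Pl × (ℝ × ℝ)) : ℂ × Dt :=
  cc5 (endN i C χ0 τ0 θ q.1)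
    (lcSt i (Zd i (limD C q.1 (χ0 q.1 + q.2.1)) (τ0 q.1 + q.2.2)))

/-- the outgoing orbit: flow of `f` from the leg at scale `g` -/
def Wf (i : Fin 2) (f : LCS → LCS) (C μ g : ℝ) (X : Pl) (χ b τ : ℝ) : LCS :=
  flow f τ (stLC i (μ ^ 2) g (innV μ (outD C μ X χ b) b g))

/-- its collision coordinates near the end of the arc -/
def Smf (i : Fin 2) (f : LCS → LCS) (C μ g : ℝ) (χ0 τ0 θ : Pl → ℝ) (q : Pl × ℝ × (ℝ × ℝ)) : ℂ × Dt :=
  cc5 (endN i C χ0 τ0 θ q.1)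
    (lcSt i (Wf i f C μ g q.1 (χ0 q.1 + q.2.2.1) q.2.1 (τ0 q.1 + q.2.2.2)))

/-- collision coordinates of the incoming leg at scale `g` -/
def emf (N : Pl → ℝ) (μ g : ℝ) (q : Pl × Dt × ℝ) : ℂ × Dt :=
  cc5 (N q.1) (rev (innSt μ (revD q.2.1) (-q.2.2) g))

end

end Pool.Agent.HS
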