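import Pool.Agent.Lib_helper60.HSF.D_WI

/-!
# Part I/O of project HS: pieces of the final assembly of `arc` (designer helper51)
-/

namespace Pool.Agent.HS

noncomputable section

open Set Filter Topology Classical

end

end Pool.Agent.HS
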