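import Pool.Agent.Lib_helper60.HSF.D_WN
import Pool.Agent.Lib_helper60.HSF.D_DefsM

/-!
# Part S1, M1: events in the middle of an arc, `y ≠ 0` (wanted statements)
-/

namespace Pool.Agent.HS

noncomputable section

open Set Filter Topology
open scoped ContDiff

/-! ## Block MA: states with fixed angular momentum and energy on the positive axis -/

/-! ## Block MB: needles -/

/-! ## Block MC: derivative of the times at a crossing along the needle curve -/

/-! ## Block MD: the needle lemma, real analysis -/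

/-! ## Block ME: a good point on the needle curve -/

/-! ## Block MF: implicit function theorem for crossings -/

/-! ## Block MG: all zeros on the torus -/

/-! ## Block MH: the data near a good point of the needle curve -/

/-- `s, s'`: anomalies of the event, `sB, sB'`: of the second common point -/
structure NDat (y : ℂ) (P Q : ℝ × ℝ × ℝ → KS) (q0 : ℝ × ℝ × ℝ) (δ : ℝ)
    (s s' sB sB' : ℝ × ℝ × ℝ → ℝ) : Prop where
  cs : ContDiffOn ℝ 2 s (Metric.ball q0 δ)
  cs' : ContDiffOn ℝ 2 s' (Metric.ball q0 δ)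
  cB : ContDiffOn ℝ 2 sB (Metric.ball q0 δ)
  cB' : ContDiffOn ℝ 2 sB' (Metric.ball q0 δ)
  ev : ∀ q ∈ Metric.ball q0 δ, kX (P q) (s q) = y * kX (Q q) (s' q)
  R : ∀ q ∈ Metric.ball q0 δ, kR (P q) (s q) ≠ 0
  W : ∀ q ∈ Metric.ball q0 δ, kcr y (P q) (Q q) (s q) (s' q) ≠ 0
  two : ∀ q ∈ Metric.ball q0 δ, kX (P q) (sB q) = kX (Q q) (sB' q) ∧
    Two (P q) (Q q) (sB q) (sB' q)
  dF : deriv (fun r => kT (P (r, q0.2)) (s (r, q0.2)) - kT (Q (r, q0.2)) (s' (r, q0.2))) q0.1 ≠ 0
  dτ : ∀ m : ℤ,
    deriv (fun r => kT (P (r, q0.2)) (sB (r, q0.2)) - kT (Q (r, q0.2)) (sB' (r, q0.2))) q0.1 ≠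
    m * deriv (fun r => kT (P (r, q0.2)) (s (r, q0.2)) - kT (Q (r, q0.2)) (s' (r, q0.2))) q0.1

/-! ## Block MI: many revolutions -/

/-! ## Block MJ: arithmetic and freeness -/

/-! ## Block MK: determinant of the event equation along a curve -/

/-! ## Block ML: from a determinant along one curve to a transversal zero -/

/-! ## Block MM: the event function -/

/-! ## Block MN: the event -/

/-! ## Block MO: the supply -/

end

end Pool.Agent.HS
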