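import Pool.Agent.Lib_helper60.HSF.D_WT
import Pool.Agent.Lib_helper60.HSF.D_WZ

/-!
# Project HS, part S1-M0: sun events `y = 0` (wanted statements)

Base arcs (`T3 = 2 T2`, `h3 = h30`, `h2 = h20`) at the hub with `L_P = 0` exactly.
-/

namespace Pool.Agent.HS

noncomputable section

open Set Filter Topology Classical
open scoped ContDiff

/-- data of a base arc with `L_P = 0` -/
structure M0D (C : ℝ) (i : Fin 2) (X : Pl) (χ : ℝ) : Prop where
  h3 : kh' (z3 C X χ) = h30
  h2 : kh' (z2 C X χ) = h20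
  P : LP C i X χ = 0
  Q : LQ C i X χ ≠ 0
  r : 1 < zr C X ∧ zr C X < 5 / 4
  s3 : 0 < kσ (z3 C X χ)
  s2 : kσ (z2 C X χ) < 0

/-- angular momenta of the two bodies on the needle, divided by `C` -/
def m0L3 (i : Fin 2) : ℝ := if i = 0 then 0 else 4
def m0L2 (i : Fin 2) : ℝ := if i = 0 then 4 / 3 else 0
def m0r (C : ℝ) : ℝ := rh + C / (2 * cc * rh)
def m0v3 (C : ℝ) (i : Fin 2) : ℝ :=
  Real.sqrt (2 * h30 + 2 / m0r C - (C * m0L3 i) ^ 2 / m0r C ^ 2)
def m0v2 (C : ℝ) (i : Fin 2) : ℝ :=
  - Real.sqrt (2 * h20 + 2 / m0r C - (C * m0L2 i) ^ 2 / m0r C ^ 2)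
/-- second coordinate of the point; the first one is `0` -/
def m0z (C : ℝ) (i : Fin 2) : ℝ := rh * (ma * m0v3 C i + mb * m0v2 C i) / C - 1 / 2
def m0χ (C : ℝ) (i : Fin 2) : ℝ :=
  Real.arctan ((C * m0L3 i - C * m0L2 i) / (m0r C * (m0v3 C i - m0v2 C i)))

/-! ## Block MA: constants -/

/-! ## Block MB: states from the radial velocities and the angular momenta -/

/-! ## Block MC: the limit `C → 0` -/

/-! ## Block MD: existence of the data -/

/-! ## Block ME: near the hub and direction `0` -/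

/-! ## Block MF: covector of `L_P` along a direction function with constant energies -/

/-! ## Block MG: no collision -/

/-! ## Block MH: sun collisions -/

/-! ## Block MI: general lemmas -/

/-! ## Block MJ: supply of type M for `y = 0` -/

end

end Pool.Agent.HS
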