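import Pool.Agent.Lib_helper60.HSF.D_DefsN
import Pool.Agent.Lib_helper60.HSF.D_WM0

/-!
# Part S1, common block: the parametrization near the hub (wanted statements)
-/

namespace Pool.Agent.HS

noncomputable section

open Set Filter Topology
open scoped ContDiff

/-! ## Block NA: algebra -/

/-! ## Block NB: smoothness and the derivative of the energy in the direction -/

/-! ## Block NH: the hub -/

end

end Pool.Agent.HS
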