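import Pool.Agent.Lib_helper60.HSF.D_DefsQ

/-!
# Project HS, part Q: T arcs at fixed `C`, base arcs (wanted statements)
-/

namespace Pool.Agent.HS

noncomputable section

open Set Filter Topology
open scoped ContDiff

/-! ## Block QA1: centre data in `CD` -/

/-! ## Block QA2: direction function -/

/-! ## Block QA3: openness of the absence of collisions (calculus) -/

/-! ## Block QA4: the end of a T arc -/

/-! ## Block QA5: transversality at the end of a T arc -/

/-! ## Block QA6: T arcs with a given direction function -/

/-! ## Block QA7: `tarc_local` (statement in WT.lean), from `dir_fun` and `tarc_fun` -/

/-! ## Block QA8: sun collisions -/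

/-! ## Block QB1: Kepler orbits through the sun, hodograph -/

/-! ## Block QB2: radial motions of the limit -/

/-! ## Block QB3: local injectivity at the start -/

/-! ## Block QB4: base arcs -/

/-! ## Block QB5: `base_free` (statement in WT.lean) from `base_core` -/

/-! ## Block QB6: reflection, `base_free'` (statement in WT.lean) -/

end

end Pool.Agent.HS
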