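import Pool.Agent.Lib_helper60.HSF.D_DefsR

/-!
# Project HS, part R: events at encounters (wanted statements)
-/

namespace Pool.Agent.HS

noncomputable section

open Set Filter Topology
open scoped ContDiff

/-! ## Block RA: the corner function -/

/-! ## Block RB: solutions at `C = 0` -/

/-! ## Block RC: cones and covectors -/

/-! ## Block RD: choice of the centre -/

/-! ## Block RE: families -/

/-! ## Block RF: solutions and transversality for small `C` -/

/-! ## Block RG: local supply -/

/-! ## Block RH: from `Corn` to `Sup4` -/

/-! ## Block RI: the supply (statement `supply_exists` in WS.lean, from `z_loops`, `z_conn`,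
`supM_exists`, `corn_all`, `sup4_of_corn`, `reach3`) -/

end

end Pool.Agent.HS
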