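import Pool.Agent.Lib_helper60.HSF.D_WE2

/-!
# Part S: supply of loops and event arcs (limit problem, part Z delivers this), assembly,
and the final theorem (wanted statements)
-/

namespace Pool.Agent.HS

noncomputable section

open Set Filter Topology Classical

/-- angle of the direction `(3/5, 4/5)` -/
def th1 : ℝ := Real.arctan (4 / 3)

/-- fourth vertex of the loops, `(ρ, π) = (1/2, -1/2)` -/
def Xcp : Pl := (0, -1)

/-- data of a resonant arc of type `T`: the centre data return -/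
def TL (χ : Pl → ℝ) : LD := { F := fun X => X, χ := χ, θ := χ }

/-- sun collisions of the regularized body over `O` only inside the windows -/
def SunW (C : ℝ) (i : Fin 2) (O : Set Pl) (χ τ0 : Pl → ℝ) (he : ℝ) (n : ℕ) (τm : Fin n → ℝ) : Prop :=
  (∀ j, ∀ X ∈ O, 0 < τm j - he ∧ τm j + he < τ0 X) ∧
  ∀ X ∈ O, ∀ τ ∈ Ioo 0 (τ0 X), (∀ j, he / 2 < |τ - τm j|) → (Zd i (limD C X (χ X)) τ).1 ≠ 0

/-- isolated transversal zero at `(Xe, τm)` -/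
def TIso (i : Fin 2) (g0 : Pl × ℝ → ℂ) (Xe : Pl) (τm h : ℝ) : Prop :=
  TZero i g0 Xe τm h ∧ ∀ t ∈ Icc (τm - h) (τm + h), t ≠ τm → g0 (Xe, t) ≠ 0

/-! ## Loops -/

/-- Loops with everything the assembly needs; `l3 a` = first three arcs of the loop `l 0 a`,
`l4 a` = last arc. -/
structure LoopSup (g : GC) (C : ℝ) (Λ : Type) [Finite Λ] (l : Fin 2 → Λ → LD) (l3 l4 : Λ → LD) :
    Prop where
  xc : g.Xc = 0
  loops : Loops g Λ l
  pw : ∀ i a, PW C (Metric.closedBall g.Xc g.ρ0) (l i a)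
  kap : Lip g.L (fun X => kap0 C (chart C X)) (Metric.closedBall g.Xc g.ρ0)
  pw3 : ∀ a, PW C (Metric.closedBall g.Xc g.ρ0) (l3 a)
  pw4 : ∀ a, PW C (Metric.closedBall Xcp g.ρs) (l4 a)
  split : ∀ a, l 0 a = (l3 a).comp (l4 a)
  dir : ∀ a, ∀ X ∈ Metric.closedBall g.Xc g.ρ0, |(l 0 a).χ X - th1| ≤ 1 / 100
  dir3 : ∀ a, ∀ X ∈ Metric.closedBall g.Xc g.ρ0, |(l3 a).θ X - (Real.pi - th1)| ≤ 1 / 100
  dir4 : ∀ a, ∀ X ∈ Metric.closedBall Xcp g.ρs, |(l4 a).χ X - Real.pi / 2| ≤ 1 / 100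

/-- Connectors: arcs of type `T` with direction `-th1` near the hub, `-(π - th1)` near the
fourth vertex. -/
def ConnSup (C ρe : ℝ) : Prop :=
  (∀ X ∈ Metric.closedBall (0 : Pl) ρe, ∃ (h1 : ℝ) (χ : Pl → ℝ), 0 < h1 ∧
    PW C (Metric.closedBall X h1) (TL χ) ∧
    ∀ Y ∈ Metric.closedBall X h1, |χ Y - (-th1)| ≤ 1 / 100) ∧
  (∀ X ∈ Metric.closedBall Xcp ρe, ∃ (h1 : ℝ) (χ : Pl → ℝ), 0 < h1 ∧
    PW C (Metric.closedBall X h1) (TL χ) ∧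
    ∀ Y ∈ Metric.closedBall X h1, |χ Y - (-(Real.pi - th1))| ≤ 1 / 100)

/-! ## Events in the middle of an arc, at the hub -/

/-- bound of the parameter `y = x_P / x_Q` -/
def yb (i : Fin 2) : ℝ := if i = 0 then (2:ℝ) ^ (2/3 : ℝ) else (2:ℝ) ^ (-(2/3) : ℝ)

def SupM (C ρe : ℝ) (i : Fin 2) (y : ℂ) : Prop :=
  ∃ (X : Pl) (h1 : ℝ) (χ τ0 : Pl → ℝ) (τe he : ℝ) (n : ℕ) (τm : Fin n → ℝ) (i' : Fin 2),
    X ∈ Metric.closedBall (0 : Pl) ρe ∧ 0 < h1 ∧ 0 < he ∧ n ≤ 2 ∧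
    RArc C i (Metric.closedBall X h1) (TL χ) τ0 ∧
    (∀ Y ∈ Metric.closedBall X h1, |χ Y| ≤ 1 / 100) ∧
    (∀ Y ∈ Metric.closedBall X h1, 0 < τe - he ∧ τe + he < τ0 Y) ∧
    SunW C i (Metric.closedBall X h1) χ τ0 he n τm ∧
    (∃ x : ℂ, ∀ Y ∈ Metric.closedBall X h1, ∀ τ ∈ Icc (τe - he) (τe + he),
      ‖(Zd i (limD C Y (χ Y)) τ).2.2.1 - x‖ ≤ ‖x‖ / 2) ∧
    TZero i' (midG C i χ y) X τe he ∧
    ∀ j, TIso i' (fun q => (Zd i (limD C q.1 (χ q.1)) q.2).1) X (τm j) he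

/-! ## Events at an encounter -/

/-- the compact parameter space -/
def P4 : Set (ℝ × ℂ) := {p | 0 ≤ p.1 ∧ 0 ≤ p.2.im ∧ max p.1 ‖p.2‖ = 1}

/-- Event at an encounter between two `T` arcs, at the hub (`side = false`) or at the fourth
vertex (`side = true`); `out = true`: outgoing leg, arc 1 has the fixed direction `-π/2`, arc 2
the variable direction; `out = false`: the other way round. `Fp` = map of the preceding word,
`good` = an extra condition on the starting point. -/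
def Sup4 (C ρe : ℝ) (side out : Bool) (Fp : Pl → Pl) (good : Pl → Prop) (lam : ℝ) (υ : ℂ) : Prop :=
  ∃ (Xe X : Pl) (h1 : ℝ) (χ1 χ2 τ1 τ2 : Pl → ℝ) (i1 i2 : Fin 2) (ϖe he : ℝ) (n1 n2 nB : ℕ)
    (τ1m : Fin n1 → ℝ) (τ2m : Fin n2 → ℝ) (i' : Fin 2),
    Xe ∈ Metric.closedBall (0 : Pl) ρe ∧ Fp Xe = X ∧ good Xe ∧
    X ∈ Metric.closedBall (if side then Xcp else 0) ρe ∧ 0 < h1 ∧ 0 < he ∧ nB + n1 + n2 ≤ 4 ∧
    RArc C i1 (Metric.closedBall X h1) (TL χ1) τ1 ∧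
    RArc C i2 (Metric.closedBall X h1) (TL χ2) τ2 ∧
    (∀ Y ∈ Metric.closedBall X h1, |(if out then χ1 Y else χ2 Y) - (-(Real.pi / 2))| ≤ 1 / 100 ∧
      (if side then Real.pi / 2 else 0) - 1 / 100 ≤ (if out then χ2 Y else χ1 Y) ∧
      (if out then χ2 Y else χ1 Y) ≤ (if side then Real.pi else Real.pi / 2) + 1 / 100) ∧
    SunW C i1 (Metric.closedBall X h1) χ1 τ1 he n1 τ1m ∧
    SunW C i2 (Metric.closedBall X h1) χ2 τ2 he n2 τ2m ∧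
    0 < ϖe - he ∧ lam / 2 < ϖe - he ∧
    ((nB = 0 ∧ ∀ Y ∈ Metric.closedBall X h1, cB0 C (TL χ1) (TL χ2) Y ≠ 0) ∨ nB = 1) ∧
    TZero i' (fun q => (if out then cornerU C (TL χ1) (TL χ2) lam υ
      else cornerL C (TL χ1) (TL χ2) lam υ) (Fp q.1, q.2)) Xe ϖe he ∧
    (nB = 1 → TIso i' (fun q => (cB0 C (TL χ1) (TL χ2) (Fp q.1) : ℂ) + q.2 * Complex.I) Xe 0 he) ∧
    (∀ j, TIso i' (fun q => (Zd i1 (limD C (Fp q.1) (χ1 (Fp q.1))) q.2).1) Xe (τ1m j) he) ∧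
    (∀ j, TIso i' (fun q => (Zd i2 (limD C (Fp q.1) (χ2 (Fp q.1))) q.2).1) Xe (τ2m j) he)

/-- **What part Z delivers.** -/
def Supply (g : GC) (C : ℝ) : Prop :=
  ∃ (Λ : Type) (_ : Finite Λ) (_ : Nonempty Λ) (l : Fin 2 → Λ → LD) (l3 l4 : Λ → LD),
    LoopSup g C Λ l l3 l4 ∧ ConnSup C (g.ρs / 10000) ∧
    (∀ i y, y ≠ 1 → ‖y‖ ≤ yb i → SupM C (g.ρs / 10000) i y) ∧
    ∀ p ∈ P4, ∃ (side out : Bool) (a : Λ),
      Sup4 C (g.ρs / 10000) side out (if side then (l3 a).F else fun X => X)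
        (fun X => side → ‖(l 0 a).F X‖ ≤ g.ρs / 2) p.1 p.2

/-! ## Assembly -/

end

end Pool.Agent.HS
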