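import Pool.Agent.Lib_helper60.HSF.D_WS
import Pool.Agent.Lib_helper60.HSF.D_DefsZ

/-!
# Part T: resonant arcs with direction near `0` or `π`, needles (wanted statements)
-/

namespace Pool.Agent.HS

noncomputable section

open Set Filter Topology Classical

/-- duration of a `T` arc in Levi-Civita time of the regularized body; `K` revolutions of
body 3, `n` revolutions of body 2 -/
def T0 (C : ℝ) (i : Fin 2) (X : Pl) (χ : ℝ) (K n : ℕ) : ℝ :=
  (if i = 0 then K else n) * (Real.pi / lzw i (toLC i 0 (colD (limD C X χ))))

/-- angular momentum of the body which is not regularized -/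
def LQ (C : ℝ) (i : Fin 2) (X : Pl) (χ : ℝ) : ℝ :=
  if i = 0 then kL (z2 C X χ) else kL (z3 C X χ)

/-- angular momentum of the regularized body -/
def LP (C : ℝ) (i : Fin 2) (X : Pl) (χ : ℝ) : ℝ :=
  if i = 0 then kL (z3 C X χ) else kL (z2 C X χ)

end

end Pool.Agent.HS
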