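import Pool.Agent.Lib_helper60.HSF.D_WI
import Pool.Agent.Lib_helper60.HSF.A_CB

/-!
# Project HS, part I/O, block I1: the start values `A0`, `D0`
-/

namespace Pool.Agent.HS

noncomputable section

open Set Filter Topology Classical

theorem i1_amp_pos {κ : ℝ} (hκ : 0 < κ) (β : ℝ) : 0 < amp κ β := by
  unfold amp
  positivity

theorem i1_amp_sq {κ : ℝ} (β : ℝ) :
    amp κ β ^ 2 = Real.sqrt (1 + κ ^ 2 * β ^ 2) / (2 * κ ^ 2) := by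
  have h1 : (0 : ℝ) ≤ 1 + κ ^ 2 * β ^ 2 := by positivity
  unfold amp
  rw [div_pow, mul_pow, Real.sq_sqrt (by norm_num : (0 : ℝ) ≤ 2), ← Real.rpow_natCast,
    ← Real.rpow_mul h1, Real.sqrt_eq_rpow]
  norm_num

/-- the phase -/
def i1_e (χ : ℝ) : ℂ := Complex.exp ((χ / 2 : ℝ) * Complex.I)

theorem i1_e_norm (χ : ℝ) : ‖i1_e χ‖ = 1 := Complex.norm_exp_ofReal_mul_I _

theorem i1_e_conj (χ : ℝ) : i1_e χ * (starRingEnd ℂ) (i1_e χ) = 1 := by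
  rw [Complex.mul_conj, Complex.normSq_eq_norm_sq, i1_e_norm]
  norm_num

theorem i1_e_lip (χ χ' : ℝ) : ‖i1_e χ - i1_e χ'‖ ≤ |χ - χ'| := by
  have h1 : i1_e χ - i1_e χ' = i1_e χ' * (Complex.exp (Complex.I * ((χ - χ') / 2 : ℝ)) - 1) := by
    unfold i1_e
    rw [mul_sub, ← Complex.exp_add, mul_one]
    congr 2
    push_cast
    ring
  rw [h1, norm_mul, i1_e_norm, one_mul]
  refine (Real.norm_exp_I_mul_ofReal_sub_one_le).trans ?_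
  rw [Real.norm_eq_abs, abs_div, abs_two]
  linarith [abs_nonneg (χ - χ')]

theorem A0_alg_pr (κ χ β : ℝ) (hκ : 0 < κ) :
    ‖A0 κ χ β‖ = amp κ β ∧ ‖D0 κ χ β‖ = amp κ β ∧ 0 < amp κ β ∧
    A0 κ χ β * (starRingEnd ℂ) (D0 κ χ β) = (-1 + (κ * β : ℝ) * Complex.I) / (2 * κ ^ 2 : ℝ) ∧
    A0 κ χ β ^ 2 = (amp κ β ^ 2 : ℝ) * Complex.exp (χ * Complex.I) ∧
    amp κ β ^ 2 = Real.sqrt (1 + κ ^ 2 * β ^ 2) / (2 * κ ^ 2) ∧
    ‖A0 κ χ β + D0 κ χ β‖ ^ 2 = (Real.sqrt (1 + κ ^ 2 * β ^ 2) - 1) / κ ^ 2 ∧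
    ‖A0 κ χ β - D0 κ χ β‖ ^ 2 = (Real.sqrt (1 + κ ^ 2 * β ^ 2) + 1) / κ ^ 2 := by
  have ha := i1_amp_pos hκ β
  have ha2 := i1_amp_sq (κ := κ) β
  have hS : 0 ≤ (1 : ℝ) + κ ^ 2 * β ^ 2 := by positivity
  have hA : A0 κ χ β = (amp κ β : ℂ) * i1_e χ := rfl
  have hD : D0 κ χ β = (-1 - (κ * β : ℝ) * Complex.I) / (2 * κ ^ 2 * amp κ β : ℝ) * i1_e χ := rfl
  have hac : (amp κ β : ℂ) ≠ 0 := Complex.ofReal_ne_zero.2 ha.ne'
  have hκc : (κ : ℂ) ≠ 0 := Complex.ofReal_ne_zero.2 hκ.ne'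
  have n1 : ‖A0 κ χ β‖ = amp κ β := by
    rw [hA, norm_mul, i1_e_norm, mul_one, Complex.norm_real, Real.norm_eq_abs, abs_of_pos ha]
  have n2 : ‖D0 κ χ β‖ = amp κ β := by
    have h1 : ‖(-1 - (κ * β : ℝ) * Complex.I : ℂ)‖ = Real.sqrt (1 + κ ^ 2 * β ^ 2) := by
      rw [Complex.norm_def, Complex.normSq_apply]
      congr 1
      simp
      ring
    rw [hD, norm_mul, i1_e_norm, mul_one, norm_div, h1, Complex.norm_real, Real.norm_eq_abs,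
      abs_of_pos (by positivity), div_eq_iff (by positivity)]
    have h2 : Real.sqrt (1 + κ ^ 2 * β ^ 2) = amp κ β ^ 2 * (2 * κ ^ 2) := by
      rw [ha2]
      field_simp
    rw [h2]
    ring
  have n3 : A0 κ χ β * (starRingEnd ℂ) (D0 κ χ β) =
      (-1 + (κ * β : ℝ) * Complex.I) / (2 * κ ^ 2 : ℝ) := by
    rw [hA, hD]
    simp only [map_mul, map_div₀, map_sub, map_neg, map_one, Complex.conj_ofReal, Complex.conj_I]
    have h1 := i1_e_conj χ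
    have h2 : (amp κ β : ℂ) * i1_e χ * ((-1 - ((κ * β : ℝ) : ℂ) * -Complex.I) /
        ((2 * κ ^ 2 * amp κ β : ℝ) : ℂ) * (starRingEnd ℂ) (i1_e χ)) =
        (amp κ β : ℂ) * ((-1 - ((κ * β : ℝ) : ℂ) * -Complex.I) /
        ((2 * κ ^ 2 * amp κ β : ℝ) : ℂ)) * (i1_e χ * (starRingEnd ℂ) (i1_e χ)) := by ring
    rw [h2, h1, mul_one]
    push_cast
    field_simp
    ring
  have n4 : A0 κ χ β ^ 2 = (amp κ β ^ 2 : ℝ) * Complex.exp (χ * Complex.I) := by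
    rw [hA, mul_pow]
    push_cast
    congr 1
    unfold i1_e
    rw [← Complex.exp_nat_mul]
    congr 1
    push_cast
    ring
  have hre : (A0 κ χ β * (starRingEnd ℂ) (D0 κ χ β)).re = -1 / (2 * κ ^ 2) := by
    rw [n3, Complex.div_ofReal_re]
    simp
  have n5 : ‖A0 κ χ β + D0 κ χ β‖ ^ 2 = (Real.sqrt (1 + κ ^ 2 * β ^ 2) - 1) / κ ^ 2 := by
    rw [← Complex.normSq_eq_norm_sq, Complex.normSq_add, Complex.normSq_eq_norm_sq,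
      Complex.normSq_eq_norm_sq, n1, n2, hre, ha2]
    field_simp
    ring
  have n6 : ‖A0 κ χ β - D0 κ χ β‖ ^ 2 = (Real.sqrt (1 + κ ^ 2 * β ^ 2) + 1) / κ ^ 2 := by
    rw [← Complex.normSq_eq_norm_sq, Complex.normSq_sub, Complex.normSq_eq_norm_sq,
      Complex.normSq_eq_norm_sq, n1, n2, hre, ha2]
    field_simp
    ring
  exact ⟨n1, n2, ha, n3, n4, ha2, n5, n6⟩

/-- the factors without the phase -/
def i1_ψ (p : ℝ × ℝ) : ℝ × ℂ :=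
  (amp p.1 p.2, (-1 - (p.1 * p.2 : ℝ) * Complex.I) / (2 * p.1 ^ 2 * amp p.1 p.2 : ℝ))

theorem i1_amp_smooth : ContDiffOn ℝ 2 (fun p : ℝ × ℝ => amp p.1 p.2) {p | 0 < p.1} := by
  unfold amp
  apply ContDiffOn.div
  · apply ContDiffOn.rpow_const_of_ne
    · fun_prop
    · intro p _
      positivity
  · fun_prop
  · intro p hp
    have : 0 < p.1 := hp
    positivity

theorem i1_ψ_smooth : ContDiffOn ℝ 2 i1_ψ {p | 0 < p.1} := by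
  unfold i1_ψ
  have h1 := i1_amp_smooth
  apply ContDiffOn.prodMk h1
  have h2 : ∀ p : ℝ × ℝ, ((2 * p.1 ^ 2 * amp p.1 p.2 : ℝ) : ℂ) =
      ((2 * p.1 ^ 2 * amp p.1 p.2 : ℝ) : ℂ) := fun _ => rfl
  have e1 : ContDiffOn ℝ 2 (fun p : ℝ × ℝ => (((2 * p.1 ^ 2 * amp p.1 p.2)⁻¹ : ℝ) : ℂ))
      {p | 0 < p.1} := by
    apply Complex.ofRealCLM.contDiff.comp_contDiffOn
    apply ContDiffOn.inv
    · exact (ContDiff.contDiffOn (by fun_prop)).mul h1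
    · intro p hp
      have h3 : 0 < p.1 := hp
      have := i1_amp_pos h3 p.2
      positivity
  have e2 : ContDiffOn ℝ 2 (fun p : ℝ × ℝ => (-1 - ((p.1 * p.2 : ℝ) : ℂ) * Complex.I : ℂ))
      {p | 0 < p.1} := by
    apply ContDiff.contDiffOn
    apply contDiff_const.sub
    apply ContDiff.mul _ contDiff_const
    exact Complex.ofRealCLM.contDiff.comp (contDiff_fst.mul contDiff_snd)
  refine (e2.mul e1).congr fun p _ => ?_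
  simp only [Complex.ofReal_inv]
  rfl

/-- product with the phase -/
theorem i1_mul (f f' : ℂ) (χ χ' : ℝ) {Bd : ℝ} (hf : ‖f'‖ ≤ Bd) :
    ‖f * i1_e χ - f' * i1_e χ'‖ ≤ ‖f - f'‖ + Bd * |χ - χ'| := by
  have h1 : f * i1_e χ - f' * i1_e χ' = (f - f') * i1_e χ + f' * (i1_e χ - i1_e χ') := by ring
  rw [h1]
  refine (norm_add_le _ _).trans ?_
  rw [norm_mul, norm_mul, i1_e_norm, mul_one]
  have h2 := i1_e_lip χ χ'
  have h3 := mul_le_mul hf h2 (norm_nonneg _) ((norm_nonneg _).trans hf)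
  linarith

theorem A0_lip_pr (c : ℝ) (hc : 0 < c) : ∃ L : ℝ, 1 ≤ L ∧
    (∀ κ, c ≤ κ → κ ≤ 1 / c → ∀ β ∈ JJ, 1 / L ≤ amp κ β ∧ amp κ β ≤ L ∧ c ^ 2 / 2 ≤ amp κ β ^ 2) ∧
    ∀ d ∈ DD c, ∀ d' ∈ DD c, ∀ β ∈ JJ, ∀ β' ∈ JJ,
      ‖inn0 d β - inn0 d' β'‖ ≤ L * (‖d - d'‖ + |β - β'|) := by
  have hU : IsOpen {p : ℝ × ℝ | 0 < p.1} := isOpen_lt continuous_const continuous_fst
  have hK : IsCompact (Icc c (1 / c) ×ˢ Icc (-10 : ℝ) 10) := isCompact_Icc.prod isCompact_Icc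
  have hKU : Icc c (1 / c) ×ˢ Icc (-10 : ℝ) 10 ⊆ {p : ℝ × ℝ | 0 < p.1} := fun p hp =>
    hc.trans_le hp.1.1
  obtain ⟨L₁, hL₁, hReg⟩ := reg_of_contDiffOn hU i1_ψ_smooth hK
    ((convex_Icc _ _).prod (convex_Icc _ _)) hKU
  have hLip := hReg.1
  obtain ⟨Bd, hBd⟩ := (hK.image_of_continuousOn
    (i1_ψ_smooth.continuousOn.mono hKU)).isBounded.exists_norm_le
  have hB : ∀ κ, c ≤ κ → κ ≤ 1 / c → ∀ β ∈ JJ, ‖i1_ψ (κ, β)‖ ≤ Bd := fun κ h1 h2 β hβ =>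
    hBd _ ⟨(κ, β), ⟨⟨h1, h2⟩, hβ⟩, rfl⟩
  -- bounds for amp
  have hamp : ∀ κ, c ≤ κ → κ ≤ 1 / c → ∀ β : ℝ, c ^ 2 / 2 ≤ amp κ β ^ 2 := by
    intro κ h1 h2 β
    have hκ : 0 < κ := hc.trans_le h1
    rw [i1_amp_sq]
    have h3 : 1 ≤ Real.sqrt (1 + κ ^ 2 * β ^ 2) := by
      rw [Real.one_le_sqrt]
      have : 0 ≤ κ ^ 2 * β ^ 2 := by positivity
      linarith
    have h4 : κ * c ≤ 1 := by
      rw [le_div_iff₀ hc] at h2
      exact h2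
    rw [div_le_div_iff₀ (by norm_num) (by positivity)]
    have h5 : (κ * c) ^ 2 ≤ 1 := by
      have : 0 < κ * c := by positivity
      nlinarith
    nlinarith
  set L : ℝ := 1 + 2 / c + |L₁| + |Bd| + 1 / c with hL
  have hc1 : 0 < 1 / c := by positivity
  have hc2 : 0 < 2 / c := by positivity
  have hL1 : 1 ≤ L := by
    have := abs_nonneg L₁
    have := abs_nonneg Bd
    linarith
  refine ⟨L, hL1, ?_, ?_⟩
  · intro κ h1 h2 β hβ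
    have hκ : 0 < κ := hc.trans_le h1
    have ha := i1_amp_pos hκ β
    have h3 := hamp κ h1 h2 β
    refine ⟨?_, ?_, h3⟩
    · have h4 : c / 2 ≤ amp κ β := by
        have : (c / 2) ^ 2 ≤ amp κ β ^ 2 := by nlinarith [sq_nonneg c]
        exact (sq_le_sq₀ (by positivity) ha.le).1 this
      have h5 : 1 / L ≤ c / 2 := by
        rw [div_le_div_iff₀ (by linarith) (by norm_num)]
        have h6 : 2 / c ≤ L := by
          have := abs_nonneg L₁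
          have := abs_nonneg Bd
          linarith
        rw [div_le_iff₀ hc] at h6
        linarith
      exact h5.trans h4
    · have h4 := hB κ h1 h2 β hβ
      have h5 : ‖amp κ β‖ ≤ ‖i1_ψ (κ, β)‖ := norm_fst_le (i1_ψ (κ, β))
      rw [Real.norm_eq_abs, abs_of_pos ha] at h5
      have := abs_nonneg L₁
      have := le_abs_self Bd
      linarith
  · intro d hd d' hd' β hβ β' hβ'
    obtain ⟨R, U, κ, χ⟩ := d
    obtain ⟨R', U', κ', χ'⟩ := d'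
    obtain ⟨-, -, -, hk1, hk2⟩ := hd
    obtain ⟨-, -, -, hk1', hk2'⟩ := hd'
    simp only at hk1 hk2 hk1' hk2'
    set δ := ‖((R, U, κ, χ) : Dt) - (R', U', κ', χ')‖ with hδ
    have d1 : ‖R - R'‖ ≤ δ := norm_fst_le (((R, U, κ, χ) : Dt) - (R', U', κ', χ'))
    have d234 : ‖((U, κ, χ) : ℂ × ℝ × ℝ) - (U', κ', χ')‖ ≤ δ :=
      norm_snd_le (((R, U, κ, χ) : Dt) - (R', U', κ', χ'))
    have d2 : ‖U - U'‖ ≤ δ :=
      (norm_fst_le (((U, κ, χ) : ℂ × ℝ × ℝ) - (U', κ', χ'))).trans d234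
    have d34 : ‖((κ, χ) : ℝ × ℝ) - (κ', χ')‖ ≤ δ :=
      (norm_snd_le (((U, κ, χ) : ℂ × ℝ × ℝ) - (U', κ', χ'))).trans d234
    have d3 : |κ - κ'| ≤ δ := (norm_fst_le (((κ, χ) : ℝ × ℝ) - (κ', χ'))).trans d34
    have d4 : |χ - χ'| ≤ δ := (norm_snd_le (((κ, χ) : ℝ × ℝ) - (κ', χ'))).trans d34
    have hδ0 : 0 ≤ δ := norm_nonneg _
    have hβ0 := abs_nonneg (β - β')
    have hLip' : ‖i1_ψ (κ, β) - i1_ψ (κ', β')‖ ≤ |L₁| * (δ + |β - β'|) := by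
      have h1 := hLip (κ, β) ⟨⟨hk1, hk2⟩, hβ⟩ (κ', β') ⟨⟨hk1', hk2'⟩, hβ'⟩
      have h2 : dist ((κ, β) : ℝ × ℝ) (κ', β') ≤ δ + |β - β'| := by
        rw [Prod.dist_eq, Real.dist_eq, Real.dist_eq]
        apply max_le
        · simp only
          linarith
        · simp only
          linarith
      calc ‖i1_ψ (κ, β) - i1_ψ (κ', β')‖ ≤ L₁ * dist ((κ, β) : ℝ × ℝ) (κ', β') := h1
        _ ≤ |L₁| * dist ((κ, β) : ℝ × ℝ) (κ', β') :=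
          mul_le_mul_of_nonneg_right (le_abs_self _) dist_nonneg
        _ ≤ |L₁| * (δ + |β - β'|) := mul_le_mul_of_nonneg_left h2 (abs_nonneg _)
    have hBd' : ‖i1_ψ (κ', β')‖ ≤ |Bd| := (hB κ' hk1' hk2' β' hβ').trans (le_abs_self _)
    have g1 : ‖A0 κ χ β - A0 κ' χ' β'‖ ≤ L * (δ + |β - β'|) := by
      have e1 := i1_mul (amp κ β : ℂ) (amp κ' β' : ℂ) χ χ' (Bd := |Bd|) (by
        rw [Complex.norm_real]
        exact (norm_fst_le (i1_ψ (κ', β'))).trans hBd')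
      have e2 : ‖(amp κ β : ℂ) - (amp κ' β' : ℂ)‖ ≤ |L₁| * (δ + |β - β'|) := by
        rw [← Complex.ofReal_sub, Complex.norm_real]
        exact (norm_fst_le (i1_ψ (κ, β) - i1_ψ (κ', β'))).trans hLip'
      have e3 : |Bd| * |χ - χ'| ≤ |Bd| * (δ + |β - β'|) :=
        mul_le_mul_of_nonneg_left (by linarith) (abs_nonneg _)
      have e4 : 0 ≤ (1 + 2 / c + 1 / c) * (δ + |β - β'|) := by positivity
      have e5 : ‖A0 κ χ β - A0 κ' χ' β'‖ ≤ |L₁| * (δ + |β - β'|) + |Bd| * (δ + |β - β'|) :=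
        e1.trans (add_le_add e2 e3)
      rw [hL]
      linarith
    have g2 : ‖D0 κ χ β - D0 κ' χ' β'‖ ≤ L * (δ + |β - β'|) := by
      have e1 := i1_mul (i1_ψ (κ, β)).2 (i1_ψ (κ', β')).2 χ χ' (Bd := |Bd|)
        ((norm_snd_le (i1_ψ (κ', β'))).trans hBd')
      have e2 : ‖(i1_ψ (κ, β)).2 - (i1_ψ (κ', β')).2‖ ≤ |L₁| * (δ + |β - β'|) :=
        (norm_snd_le (i1_ψ (κ, β) - i1_ψ (κ', β'))).trans hLip'
      have e3 : |Bd| * |χ - χ'| ≤ |Bd| * (δ + |β - β'|) :=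
        mul_le_mul_of_nonneg_left (by linarith) (abs_nonneg _)
      have e4 : 0 ≤ (1 + 2 / c + 1 / c) * (δ + |β - β'|) := by positivity
      have e5 : ‖D0 κ χ β - D0 κ' χ' β'‖ ≤ |L₁| * (δ + |β - β'|) + |Bd| * (δ + |β - β'|) :=
        e1.trans (add_le_add e2 e3)
      rw [hL]
      linarith
    have g3 : δ ≤ L * (δ + |β - β'|) := by nlinarith
    have g5 : ‖κ ^ 2 / 2 - κ' ^ 2 / 2‖ ≤ L * (δ + |β - β'|) := by
      have e1 : κ ^ 2 / 2 - κ' ^ 2 / 2 = (κ + κ') / 2 * (κ - κ') := by ring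
      rw [e1, norm_mul, Real.norm_eq_abs, Real.norm_eq_abs, abs_of_pos (by linarith)]
      have e2 : (κ + κ') / 2 ≤ 1 / c := by linarith
      have e3 : (κ + κ') / 2 * |κ - κ'| ≤ 1 / c * (δ + |β - β'|) :=
        mul_le_mul e2 (by linarith) (abs_nonneg _) hc1.le
      have e4 : 0 ≤ (1 + 2 / c + |L₁| + |Bd|) * (δ + |β - β'|) := by positivity
      rw [hL]
      linarith
    have key : inn0 (R, U, κ, χ) β - inn0 (R', U', κ', χ') β' =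
        (A0 κ χ β - A0 κ' χ' β', D0 κ χ β - D0 κ' χ' β', R - R', U - U',
          κ ^ 2 / 2 - κ' ^ 2 / 2) := rfl
    rw [key]
    refine norm_prod_le_iff.2 ⟨g1, norm_prod_le_iff.2 ⟨g2, norm_prod_le_iff.2 ⟨d1.trans g3,
      norm_prod_le_iff.2 ⟨d2.trans g3, g5⟩⟩⟩⟩

end

end Pool.Agent.HS

namespace Pool.Agent.HS
open Set Filter Topology Classical

theorem A0_alg (κ χ β : ℝ) (hκ : 0 < κ) :
    ‖A0 κ χ β‖ = amp κ β ∧ ‖D0 κ χ β‖ = amp κ β ∧ 0 < amp κ β ∧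
    A0 κ χ β * (starRingEnd ℂ) (D0 κ χ β) = (-1 + (κ * β : ℝ) * Complex.I) / (2 * κ ^ 2 : ℝ) ∧
    A0 κ χ β ^ 2 = (amp κ β ^ 2 : ℝ) * Complex.exp (χ * Complex.I) ∧
    amp κ β ^ 2 = Real.sqrt (1 + κ ^ 2 * β ^ 2) / (2 * κ ^ 2) ∧
    ‖A0 κ χ β + D0 κ χ β‖ ^ 2 = (Real.sqrt (1 + κ ^ 2 * β ^ 2) - 1) / κ ^ 2 ∧
    ‖A0 κ χ β - D0 κ χ β‖ ^ 2 = (Real.sqrt (1 + κ ^ 2 * β ^ 2) + 1) / κ ^ 2 :=
  @Pool.Agent.HS.A0_alg_pr κ χ β hκ

end Pool.Agent.HS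

namespace Pool.Agent.HS
open Set Filter Topology Classical

theorem A0_lip (c : ℝ) (hc : 0 < c) : ∃ L : ℝ, 1 ≤ L ∧
    (∀ κ, c ≤ κ → κ ≤ 1 / c → ∀ β ∈ JJ, 1 / L ≤ amp κ β ∧ amp κ β ≤ L ∧ c ^ 2 / 2 ≤ amp κ β ^ 2) ∧
    ∀ d ∈ DD c, ∀ d' ∈ DD c, ∀ β ∈ JJ, ∀ β' ∈ JJ,
      ‖inn0 d β - inn0 d' β'‖ ≤ L * (‖d - d'‖ + |β - β'|) :=
  @Pool.Agent.HS.A0_lip_pr c hc

end Pool.Agent.HS
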