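import Pool.Agent.Lib_helper60.HSF.D_WI
import Pool.Agent.Lib_helper60.HSF.IO_I1
import Pool.Agent.Lib_helper60.HSF.A_CA

/-!
# Part I/O of project HS, block K2 (KAP): the energy equation of the encounters
-/

namespace Pool.Agent.HS

noncomputable section

open Set Filter Topology Classical

/-! ## Constants -/

theorem k2_consts : ∃ t : ℝ, 793 / 1000 < t ∧ t < 794 / 1000 ∧ kh ^ 2 = 4 * t - 2 ∧
    rh = (9 / 8 * t - 1 / 16)⁻¹ := by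
  set t : ℝ := (2:ℝ) ^ (-(1/3) : ℝ) with ht
  have ht0 : 0 < t := Real.rpow_pos_of_pos two_pos _
  have ht3 : t ^ 3 = 1/2 := by
    rw [ht, ← Real.rpow_natCast, ← Real.rpow_mul (by norm_num)]
    norm_num [Real.rpow_neg_one]
  have hlo : 793 / 1000 < t := by
    by_contra h
    push Not at h
    have := pow_le_pow_left₀ ht0.le h 3
    norm_num at this
    linarith
  have hhi : t < 794 / 1000 := by
    by_contra h
    push Not at h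
    have := pow_le_pow_left₀ (by norm_num) h 3
    norm_num at this
    linarith
  have hd : 4 * d0 = 4 * t - 2 := by
    rw [d0, h30, h20, ← ht]
    ring
  have hkh2 : kh ^ 2 = 4 * t - 2 := by
    rw [kh, Real.sq_sqrt, hd]
    rw [hd]
    linarith
  refine ⟨t, hlo, hhi, hkh2, ?_⟩
  rw [rh, hkh2, mb, h30]
  congr 1
  ring

theorem kh_num_pr : 1 < kh ∧ kh < 11 / 10 ∧ 6 / 5 < rh ∧ rh < 121 / 100 := by
  obtain ⟨t, h1, h2, h3, h4⟩ := k2_consts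
  have hk0 : 0 ≤ kh := Real.sqrt_nonneg _
  have hp : 0 < 9 / 8 * t - 1 / 16 := by linarith
  refine ⟨?_, ?_, ?_, ?_⟩
  · nlinarith
  · nlinarith
  · rw [h4, lt_inv_comm₀ (by norm_num) hp]
    norm_num
    linarith
  · rw [h4, inv_lt_comm₀ hp (by norm_num)]
    norm_num
    linarith

theorem CD_sub_pr (C : ℝ) : CD C ⊆ CDw C := by
  rintro X ⟨h1, h2, h3, h4⟩
  obtain ⟨-, -, hr, -⟩ := kh_num_pr
  refine ⟨by linarith, by linarith, by linarith, by linarith⟩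

/-! ## A calculus of bounded Lipschitz functions -/

/-- bounded and Lipschitz on `S` -/
def k2BL {α E : Type*} [PseudoMetricSpace α] [NormedAddCommGroup E] (S : Set α) (f : α → E) :
    Prop :=
  ∃ L : ℝ, 0 ≤ L ∧ (∀ p ∈ S, ‖f p‖ ≤ L) ∧ ∀ p ∈ S, ∀ q ∈ S, ‖f p - f q‖ ≤ L * dist p q

section cal
variable {α β E : Type*} [PseudoMetricSpace α] [PseudoMetricSpace β] [NormedAddCommGroup E]
  {S : Set α}

theorem k2BL_const (c : E) : k2BL S (fun _ => c) :=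
  ⟨‖c‖, norm_nonneg _, fun _ _ => le_rfl, fun p _ q _ => by
    rw [sub_self, norm_zero]
    positivity⟩

theorem k2BL_congr {f g : α → E} (hf : k2BL S f) (h : ∀ p ∈ S, g p = f p) : k2BL S g := by
  obtain ⟨L, h0, h1, h2⟩ := hf
  exact ⟨L, h0, fun p hp => by rw [h p hp]; exact h1 p hp,
    fun p hp q hq => by rw [h p hp, h q hq]; exact h2 p hp q hq⟩

theorem k2BL_add {f g : α → E} (hf : k2BL S f) (hg : k2BL S g) :
    k2BL S (fun p => f p + g p) := by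
  obtain ⟨L, h0, h1, h2⟩ := hf
  obtain ⟨L', h0', h1', h2'⟩ := hg
  refine ⟨L + L', by positivity, fun p hp => ?_, fun p hp q hq => ?_⟩
  · exact (norm_add_le _ _).trans (add_le_add (h1 p hp) (h1' p hp))
  · have e : f p + g p - (f q + g q) = (f p - f q) + (g p - g q) := by abel
    rw [e, add_mul]
    exact (norm_add_le _ _).trans (add_le_add (h2 p hp q hq) (h2' p hp q hq))

theorem k2BL_neg {f : α → E} (hf : k2BL S f) : k2BL S (fun p => - f p) := by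
  obtain ⟨L, h0, h1, h2⟩ := hf
  refine ⟨L, h0, fun p hp => ?_, fun p hp q hq => ?_⟩
  · rw [norm_neg]
    exact h1 p hp
  · have e : - f p - - f q = -(f p - f q) := by abel
    rw [e, norm_neg]
    exact h2 p hp q hq

theorem k2BL_sub {f g : α → E} (hf : k2BL S f) (hg : k2BL S g) :
    k2BL S (fun p => f p - g p) := by
  have h := k2BL_add hf (k2BL_neg hg)
  exact k2BL_congr h fun p _ => by abel

theorem k2BL_mul {A : Type*} [NormedRing A] {f g : α → A} (hf : k2BL S f) (hg : k2BL S g) :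
    k2BL S (fun p => f p * g p) := by
  obtain ⟨L, h0, h1, h2⟩ := hf
  obtain ⟨L', h0', h1', h2'⟩ := hg
  refine ⟨2 * (L * L'), by positivity, fun p hp => ?_, fun p hp q hq => ?_⟩
  · have h3 := norm_mul_le (f p) (g p)
    have h4 := mul_le_mul (h1 p hp) (h1' p hp) (norm_nonneg _) h0
    have h5 : 0 ≤ L * L' := by positivity
    linarith
  · have e : f p * g p - f q * g q = f p * (g p - g q) + (f p - f q) * g q := by
      rw [mul_sub, sub_mul]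
      abel
    rw [e]
    have h3 := norm_add_le (f p * (g p - g q)) ((f p - f q) * g q)
    have h4 := norm_mul_le (f p) (g p - g q)
    have h5 := norm_mul_le (f p - f q) (g q)
    have h6 := mul_le_mul (h1 p hp) (h2' p hp q hq) (norm_nonneg _) h0
    have h7 := mul_le_mul (h2 p hp q hq) (h1' q hq) (norm_nonneg _)
      (mul_nonneg h0 dist_nonneg)
    have h8 : L * (L' * dist p q) + L * dist p q * L' = 2 * (L * L') * dist p q := by ring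
    linarith

theorem k2BL_pow {A : Type*} [NormedRing A] [NormOneClass A] {f : α → A} (hf : k2BL S f) (n : ℕ) :
    k2BL S (fun p => f p ^ n) := by
  induction n with
  | zero => simpa using k2BL_const (S := S) (1 : A)
  | succ n ih => simpa [pow_succ] using k2BL_mul ih hf

theorem k2BL_inv {f : α → ℝ} (hf : k2BL S f) {m : ℝ} (hm : 0 < m) (h : ∀ p ∈ S, m ≤ f p) :
    k2BL S (fun p => (f p)⁻¹) := by
  obtain ⟨L, h0, h1, h2⟩ := hf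
  refine ⟨m⁻¹ + L * m⁻¹ * m⁻¹, by positivity, fun p hp => ?_, fun p hp q hq => ?_⟩
  · have h3 : 0 < f p := hm.trans_le (h p hp)
    rw [norm_inv, Real.norm_of_nonneg h3.le]
    have h4 := inv_anti₀ hm (h p hp)
    have h5 : 0 ≤ L * m⁻¹ * m⁻¹ := by positivity
    linarith
  · have h3 : 0 < f p := hm.trans_le (h p hp)
    have h4 : 0 < f q := hm.trans_le (h q hq)
    have e : (f p)⁻¹ - (f q)⁻¹ = (f q - f p) * ((f p)⁻¹ * (f q)⁻¹) := by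
      field_simp
    rw [e, norm_mul, norm_mul, norm_inv, norm_inv, Real.norm_of_nonneg h3.le,
      Real.norm_of_nonneg h4.le, norm_sub_rev]
    have h5 := inv_anti₀ hm (h p hp)
    have h6 := inv_anti₀ hm (h q hq)
    have h7 := mul_le_mul h5 h6 (by positivity) (by positivity)
    have h8 := mul_le_mul (h2 p hp q hq) h7 (by positivity) (mul_nonneg h0 dist_nonneg)
    have h9 : 0 ≤ m⁻¹ * dist p q := by positivity
    calc _ ≤ L * dist p q * (m⁻¹ * m⁻¹) := h8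
      _ ≤ (m⁻¹ + L * m⁻¹ * m⁻¹) * dist p q := by linarith [h9]

theorem k2BL_norm {f : α → E} (hf : k2BL S f) : k2BL S (fun p => ‖f p‖) := by
  obtain ⟨L, h0, h1, h2⟩ := hf
  refine ⟨L, h0, fun p hp => by rw [norm_norm]; exact h1 p hp, fun p hp q hq => ?_⟩
  rw [Real.norm_eq_abs]
  exact (abs_norm_sub_norm_le _ _).trans (h2 p hp q hq)

theorem k2BL_ofReal {f : α → ℝ} (hf : k2BL S f) : k2BL S (fun p => ((f p : ℝ) : ℂ)) := by
  obtain ⟨L, h0, h1, h2⟩ := hf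
  refine ⟨L, h0, fun p hp => ?_, fun p hp q hq => ?_⟩
  · rw [Complex.norm_real]
    exact h1 p hp
  · rw [← Complex.ofReal_sub, Complex.norm_real]
    exact h2 p hp q hq

theorem k2BL_re {f : α → ℂ} (hf : k2BL S f) : k2BL S (fun p => (f p).re) := by
  obtain ⟨L, h0, h1, h2⟩ := hf
  refine ⟨L, h0, fun p hp => ?_, fun p hp q hq => ?_⟩
  · exact (Complex.abs_re_le_norm _).trans (h1 p hp)
  · rw [← Complex.sub_re]
    exact (Complex.abs_re_le_norm _).trans (h2 p hp q hq)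

theorem k2BL_comp {f : α → E} (hf : k2BL S f) {T : Set β} {h : β → α} (hm : MapsTo h T S)
    {Λ : ℝ} (hΛ : 1 ≤ Λ) (hL : ∀ p ∈ T, ∀ q ∈ T, dist (h p) (h q) ≤ Λ * dist p q) :
    k2BL T (fun p => f (h p)) := by
  obtain ⟨L, h0, h1, h2⟩ := hf
  refine ⟨L * Λ, by positivity, fun p hp => ?_, fun p hp q hq => ?_⟩
  · have h3 := h1 _ (hm hp)
    nlinarith
  · have h3 := h2 _ (hm hp) _ (hm hq)
    have h4 := mul_le_mul_of_nonneg_left (hL p hp q hq) h0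
    rw [mul_assoc]
    exact h3.trans h4

theorem k2BL_sqrt {f : α → ℝ} (hf : k2BL S f) {m : ℝ} (hm : 0 < m)
    (h : ∀ p ∈ S, m ≤ Real.sqrt (f p)) : k2BL S (fun p => Real.sqrt (f p)) := by
  obtain ⟨L, h0, h1, h2⟩ := hf
  refine ⟨L * m⁻¹ + L + 1, by positivity, fun p hp => ?_, fun p hp q hq => ?_⟩
  · rw [Real.norm_of_nonneg (Real.sqrt_nonneg _)]
    have h3 : f p ≤ L := (le_abs_self _).trans (h1 p hp)
    have h4 : Real.sqrt (f p) ≤ L + 1 := by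
      rw [Real.sqrt_le_left (by linarith)]
      nlinarith
    have h5 : 0 ≤ L * m⁻¹ := by positivity
    linarith
  · have hp1 := h p hp
    have hq1 := h q hq
    have fp : 0 ≤ f p := by
      by_contra hc
      push Not at hc
      rw [Real.sqrt_eq_zero_of_nonpos hc.le] at hp1
      linarith
    have fq : 0 ≤ f q := by
      by_contra hc
      push Not at hc
      rw [Real.sqrt_eq_zero_of_nonpos hc.le] at hq1
      linarith
    have h3 : (Real.sqrt (f p) - Real.sqrt (f q)) * (Real.sqrt (f p) + Real.sqrt (f q)) =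
        f p - f q := by
      have e1 := Real.mul_self_sqrt fp
      have e2 := Real.mul_self_sqrt fq
      linear_combination e1 - e2
    have h4 : |Real.sqrt (f p) - Real.sqrt (f q)| * m ≤ L * dist p q := by
      calc |Real.sqrt (f p) - Real.sqrt (f q)| * m
          ≤ |Real.sqrt (f p) - Real.sqrt (f q)| * |Real.sqrt (f p) + Real.sqrt (f q)| := by
            refine mul_le_mul_of_nonneg_left ?_ (abs_nonneg _)
            rw [abs_of_nonneg (by linarith)]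
            linarith
        _ = |f p - f q| := by rw [← abs_mul, h3]
        _ ≤ L * dist p q := h2 p hp q hq
    rw [Real.norm_eq_abs]
    have h5 : |Real.sqrt (f p) - Real.sqrt (f q)| ≤ L * dist p q * m⁻¹ := by
      rw [le_mul_inv_iff₀ hm]
      exact h4
    have h6 : 0 ≤ (L + 1) * dist p q := by positivity
    have h7 : L * dist p q * m⁻¹ = L * m⁻¹ * dist p q := by ring
    rw [h7] at h5
    linarith

end cal

theorem k2_dist1 {A B : Type*} [PseudoMetricSpace A] [PseudoMetricSpace B] (p q : A × B) :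
    dist p.1 q.1 ≤ dist p q := by
  rw [Prod.dist_eq]
  exact le_max_left _ _

theorem k2_dist2 {A B : Type*} [PseudoMetricSpace A] [PseudoMetricSpace B] (p q : A × B) :
    dist p.2 q.2 ≤ dist p q := by
  rw [Prod.dist_eq]
  exact le_max_right _ _

theorem k2BL_of {α : Type*} [PseudoMetricSpace α] {S : Set α} {f : α → ℝ} {B : ℝ} (hB : 0 ≤ B)
    (h1 : ∀ p ∈ S, |f p| ≤ B) (h2 : ∀ p q, dist (f p) (f q) ≤ dist p q) : k2BL S f := by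
  refine ⟨B + 1, by positivity, fun p hp => ?_, fun p _ q _ => ?_⟩
  · rw [Real.norm_eq_abs]
    linarith [h1 p hp]
  · rw [← dist_eq_norm]
    have h3 := h2 p q
    have h4 : 0 ≤ B * dist p q := by positivity
    linarith

/-! ## The perturbation of the energy -/

/-- `(1/r - 1/|r + s z|)/s` -/
def k2phi (s r : ℝ) (z : ℂ) : ℝ :=
  (2 * r * z.re + s * ‖z‖ ^ 2) * (r * ‖(r : ℂ) + s * z‖ * (‖(r : ℂ) + s * z‖ + r))⁻¹

theorem k2phi_eq {s r : ℝ} {z : ℂ} (hr : 0 < r) (hz : (r : ℂ) + s * z ≠ 0) :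
    s * k2phi s r z = 1 / r - 1 / ‖(r : ℂ) + s * z‖ := by
  have hN : 0 < ‖(r : ℂ) + s * z‖ := norm_pos_iff.mpr hz
  have h1 : ‖(r : ℂ) + s * z‖ ^ 2 = r ^ 2 + s * (2 * r * z.re + s * ‖z‖ ^ 2) := by
    rw [← Complex.normSq_eq_norm_sq, ← Complex.normSq_eq_norm_sq, Complex.normSq_apply,
      Complex.normSq_apply]
    simp
    ring
  rw [k2phi]
  set N := ‖(r : ℂ) + s * z‖ with hNd
  have h2 : s * ((2 * r * z.re + s * ‖z‖ ^ 2) * (r * N * (N + r))⁻¹) =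
      (N ^ 2 - r ^ 2) * (r * N * (N + r))⁻¹ := by
    rw [h1]
    ring
  rw [h2]
  have h3 : N + r ≠ 0 := by positivity
  field_simp
  ring

/-- the set of all variables `(s, κ, Y, χ, β)` -/
def k2S (s0 : ℝ) : Set (ℝ × ℝ × (ℝ × ℝ) × ℝ × ℝ) :=
  {q | (0 ≤ q.1 ∧ q.1 ≤ s0) ∧ (7 / 10 ≤ q.2.1 ∧ q.2.1 ≤ 14 / 10) ∧
    (3 / 10 ≤ q.2.2.1.1 ∧ q.2.2.1.1 ≤ 5) ∧ |q.2.2.1.2| ≤ 2 ∧ |q.2.2.2.2| ≤ 10}

/-- the perturbation, divided by `s` -/
def k2F (C : ℝ) (Z : ℝ × ℝ × ℝ → ℂ) (q : ℝ × ℝ × (ℝ × ℝ) × ℝ × ℝ) : ℝ :=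
  (q.2.2.1.2 ^ 2 + (C - ma * mb * q.1 * q.2.2.2.2) ^ 2 * (q.2.2.1.1 ^ 2)⁻¹) * (1 / 2) +
    (-(2 * ma * mb * C) * q.2.2.2.2 + ma ^ 2 * mb ^ 2 * (q.1 * q.2.2.2.2 ^ 2)) *
      (q.2.2.1.1 ^ 2)⁻¹ * (1 / 2) +
    ma * k2phi q.1 q.2.2.1.1 (mb * Z (q.2.1, q.2.2.2.1, q.2.2.2.2)) +
    mb * k2phi q.1 q.2.2.1.1 (-(ma * Z (q.2.1, q.2.2.2.1, q.2.2.2.2)))

/-- the domain of `Z` -/
def k2T : Set (ℝ × ℝ × ℝ) := {w | (7 / 10 ≤ w.1 ∧ w.1 ≤ 14 / 10) ∧ |w.2.2| ≤ 10}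

theorem k2F_eq {C μ r p κ χ β : ℝ} {Z : ℝ × ℝ × ℝ → ℂ} {U : ℂ} (hr : 0 < r)
    (hU : ‖U‖ ^ 2 = p ^ 2 + (C - ma * mb * μ ^ 2 * β) ^ 2 * (r ^ 2)⁻¹)
    (h1 : (r : ℂ) + ((μ ^ 2 : ℝ) : ℂ) * (mb * Z (κ, χ, β)) ≠ 0)
    (h2 : (r : ℂ) + ((μ ^ 2 : ℝ) : ℂ) * (-(ma * Z (κ, χ, β))) ≠ 0)
    (hk : 0 < kap0 C (r, p)) :
    encH μ r U κ (μ ^ 2 * Z (κ, χ, β)) - E0 =
      ma * mb / 2 * (κ ^ 2 - kap0 C (r, p) ^ 2 +
        2 / (ma * mb) * (μ ^ 2 * k2F C Z (μ ^ 2, κ, (r, p), χ, β))) := by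
  have e1 := k2phi_eq hr h1
  have e2 := k2phi_eq hr h2
  have hk2 : kap0 C (r, p) ^ 2 =
      2 / (ma * mb) * (E0 + 1 / r - (p ^ 2 + C ^ 2 / r ^ 2) / 2) := by
    rw [kap0] at hk ⊢
    rw [Real.sq_sqrt (Real.sqrt_pos.mp hk).le]
  have e3 : (r : ℂ) + mb * (μ ^ 2 * Z (κ, χ, β)) =
      (r : ℂ) + ((μ ^ 2 : ℝ) : ℂ) * (mb * Z (κ, χ, β)) := by
    push_cast
    ring
  have e4 : (r : ℂ) - ma * (μ ^ 2 * Z (κ, χ, β)) =
      (r : ℂ) + ((μ ^ 2 : ℝ) : ℂ) * (-(ma * Z (κ, χ, β))) := by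
    push_cast
    ring
  rw [encH, e3, e4, hU, hk2, k2F]
  simp only
  set a1 := k2phi (μ ^ 2) r (mb * Z (κ, χ, β)) with ha1
  set a2 := k2phi (μ ^ 2) r (-(ma * Z (κ, χ, β))) with ha2
  have e5 : ma / ‖(r : ℂ) + ((μ ^ 2 : ℝ) : ℂ) * (mb * Z (κ, χ, β))‖ = ma * (1 / r - μ ^ 2 * a1) := by
    rw [e1]
    ring
  have e6 : mb / ‖(r : ℂ) + ((μ ^ 2 : ℝ) : ℂ) * (-(ma * Z (κ, χ, β)))‖ =
      mb * (1 / r - μ ^ 2 * a2) := by
    rw [e2]
    ring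
  rw [e5, e6]
  simp only [ma, mb]
  field_simp
  ring

theorem k2_lower {s0 s r : ℝ} {z : ℂ} {LZ : ℝ} (hs : 0 ≤ s) (hs0 : s ≤ s0) (hr : 3 / 10 ≤ r)
    (hz : ‖z‖ ≤ LZ) (h0 : s0 * LZ ≤ 3 / 20) : 3 / 20 ≤ ‖(r : ℂ) + s * z‖ := by
  have h1 : ‖(s : ℂ) * z‖ ≤ 3 / 20 := by
    rw [norm_mul, Complex.norm_real, Real.norm_of_nonneg hs]
    have h2 : s * ‖z‖ ≤ s0 * LZ := mul_le_mul hs0 hz (norm_nonneg _) (hs.trans hs0)
    linarith
  have h2 : ‖(r : ℂ)‖ = r := by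
    rw [Complex.norm_real, Real.norm_of_nonneg (by linarith)]
  have h3 : ‖(r : ℂ)‖ - ‖(s : ℂ) * z‖ ≤ ‖(r : ℂ) + s * z‖ := by
    have := norm_sub_norm_le (r : ℂ) (-((s : ℂ) * z))
    rwa [norm_neg, sub_neg_eq_add] at this
  linarith

theorem k2phi_BL {s0 LZ : ℝ} (hs1 : s0 ≤ 1) (h0 : s0 * LZ ≤ 3 / 20)
    {z : ℝ × ℝ × (ℝ × ℝ) × ℝ × ℝ → ℂ} (hz : k2BL (k2S s0) z)
    (hzb : ∀ q ∈ k2S s0, ‖z q‖ ≤ LZ) :
    k2BL (k2S s0) (fun q => k2phi q.1 q.2.2.1.1 (z q)) := by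
  have hs : k2BL (k2S s0) (fun q => q.1) := by
    refine k2BL_of (B := 1) (by norm_num) (fun q hq => ?_) (fun p q => k2_dist1 p q)
    rw [abs_of_nonneg hq.1.1]
    linarith [hq.1.2]
  have hr : k2BL (k2S s0) (fun q => q.2.2.1.1) := by
    refine k2BL_of (B := 5) (by norm_num) (fun q hq => ?_) (fun p q =>
      (k2_dist1 p.2.2.1 q.2.2.1).trans ((k2_dist1 p.2.2 q.2.2).trans
        ((k2_dist2 p.2 q.2).trans (k2_dist2 p q))))
    rw [abs_of_nonneg (by linarith [hq.2.2.1.1])]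
    exact hq.2.2.1.2
  have hN : k2BL (k2S s0) (fun q => ‖(q.2.2.1.1 : ℂ) + q.1 * z q‖) :=
    k2BL_norm (k2BL_add (k2BL_ofReal hr) (k2BL_mul (k2BL_ofReal hs) hz))
  have hden : k2BL (k2S s0) (fun q => q.2.2.1.1 * ‖(q.2.2.1.1 : ℂ) + q.1 * z q‖ *
      (‖(q.2.2.1.1 : ℂ) + q.1 * z q‖ + q.2.2.1.1)) :=
    k2BL_mul (k2BL_mul hr hN) (k2BL_add hN hr)
  have hinv := k2BL_inv hden (m := 3 / 10 * (3 / 20) * (3 / 20 + 3 / 10)) (by norm_num)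
    (fun q hq => by
      have h1 := k2_lower hq.1.1 hq.1.2 hq.2.2.1.1 (hzb q hq) h0
      have h2 : 3 / 10 ≤ q.2.2.1.1 := hq.2.2.1.1
      have h3 : (3 : ℝ) / 10 * (3 / 20) ≤ q.2.2.1.1 * ‖(q.2.2.1.1 : ℂ) + q.1 * z q‖ :=
        mul_le_mul h2 h1 (by norm_num) (by linarith)
      exact mul_le_mul h3 (add_le_add h1 h2) (by norm_num) (by positivity))
  have hnum : k2BL (k2S s0) (fun q => 2 * q.2.2.1.1 * (z q).re + q.1 * ‖z q‖ ^ 2) :=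
    k2BL_add (k2BL_mul (k2BL_mul (k2BL_const 2) hr) (k2BL_re hz))
      (k2BL_mul hs (k2BL_pow (k2BL_norm hz) 2))
  exact k2BL_mul hnum hinv

theorem k2F_BL (C : ℝ) {s0 LZ : ℝ} (hs1 : s0 ≤ 1) (h0 : s0 * LZ ≤ 3 / 20) {Z : ℝ × ℝ × ℝ → ℂ}
    (hZ : k2BL k2T Z) (hZb : ∀ w ∈ k2T, ‖Z w‖ ≤ LZ) : k2BL (k2S s0) (k2F C Z) := by
  have hs : k2BL (k2S s0) (fun q => q.1) := by
    refine k2BL_of (B := 1) (by norm_num) (fun q hq => ?_) (fun p q => k2_dist1 p q)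
    rw [abs_of_nonneg hq.1.1]
    linarith [hq.1.2]
  have hr : k2BL (k2S s0) (fun q => q.2.2.1.1) := by
    refine k2BL_of (B := 5) (by norm_num) (fun q hq => ?_) (fun p q =>
      (k2_dist1 p.2.2.1 q.2.2.1).trans ((k2_dist1 p.2.2 q.2.2).trans
        ((k2_dist2 p.2 q.2).trans (k2_dist2 p q))))
    rw [abs_of_nonneg (by linarith [hq.2.2.1.1])]
    exact hq.2.2.1.2
  have hp : k2BL (k2S s0) (fun q => q.2.2.1.2) :=
    k2BL_of (B := 2) (by norm_num) (fun q hq => hq.2.2.2.1) (fun p q =>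
      (k2_dist2 p.2.2.1 q.2.2.1).trans ((k2_dist1 p.2.2 q.2.2).trans
        ((k2_dist2 p.2 q.2).trans (k2_dist2 p q))))
  have hb : k2BL (k2S s0) (fun q => q.2.2.2.2) :=
    k2BL_of (B := 10) (by norm_num) (fun q hq => hq.2.2.2.2) (fun p q =>
      (k2_dist2 p.2.2.2 q.2.2.2).trans ((k2_dist2 p.2.2 q.2.2).trans
        ((k2_dist2 p.2 q.2).trans (k2_dist2 p q))))
  have hr2 : k2BL (k2S s0) (fun q => (q.2.2.1.1 ^ 2)⁻¹) :=
    k2BL_inv (k2BL_pow hr 2) (m := (3 / 10) ^ 2) (by norm_num) (fun q hq =>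
      pow_le_pow_left₀ (by norm_num) hq.2.2.1.1 2)
  have hm : MapsTo (fun q : ℝ × ℝ × (ℝ × ℝ) × ℝ × ℝ => (q.2.1, q.2.2.2.1, q.2.2.2.2))
      (k2S s0) k2T := fun q hq => ⟨hq.2.1, hq.2.2.2.2⟩
  have hZ' : k2BL (k2S s0) (fun q => Z (q.2.1, q.2.2.2.1, q.2.2.2.2)) := by
    refine k2BL_comp (Λ := 1) hZ hm le_rfl fun p _ q _ => ?_
    rw [one_mul]
    rw [Prod.dist_eq]
    refine max_le ?_ ?_
    · exact (k2_dist1 p.2 q.2).trans (k2_dist2 p q)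
    · exact (k2_dist2 p.2.2 q.2.2).trans ((k2_dist2 p.2 q.2).trans (k2_dist2 p q))
  have hma : ‖(ma : ℂ)‖ ≤ 1 := by
    rw [Complex.norm_real, ma]
    norm_num
  have hmb : ‖(mb : ℂ)‖ ≤ 1 := by
    rw [Complex.norm_real, mb]
    norm_num
  have hz1 := k2phi_BL hs1 h0 (z := fun q => mb * Z (q.2.1, q.2.2.2.1, q.2.2.2.2))
    (k2BL_mul (k2BL_const _) hZ') (fun q hq => by
      rw [norm_mul]
      have h1 := hZb _ (hm hq)
      have h2 : ‖(mb : ℂ)‖ * ‖Z (q.2.1, q.2.2.2.1, q.2.2.2.2)‖ ≤ 1 *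
        ‖Z (q.2.1, q.2.2.2.1, q.2.2.2.2)‖ := mul_le_mul_of_nonneg_right hmb (norm_nonneg _)
      exact h2.trans (by rw [one_mul]; exact h1))
  have hz2 := k2phi_BL hs1 h0 (z := fun q => -(ma * Z (q.2.1, q.2.2.2.1, q.2.2.2.2)))
    (k2BL_neg (k2BL_mul (k2BL_const _) hZ')) (fun q hq => by
      rw [norm_neg, norm_mul]
      have h1 := hZb _ (hm hq)
      have h2 : ‖(ma : ℂ)‖ * ‖Z (q.2.1, q.2.2.2.1, q.2.2.2.2)‖ ≤ 1 *
        ‖Z (q.2.1, q.2.2.2.1, q.2.2.2.2)‖ := mul_le_mul_of_nonneg_right hma (norm_nonneg _)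
      exact h2.trans (by rw [one_mul]; exact h1))
  refine k2BL_add (k2BL_add (k2BL_add ?_ ?_) (k2BL_mul (k2BL_const _) hz1))
    (k2BL_mul (k2BL_const _) hz2)
  · refine k2BL_mul (k2BL_add (k2BL_pow hp 2) (k2BL_mul (k2BL_pow (k2BL_sub (k2BL_const _) ?_) 2)
      hr2)) (k2BL_const _)
    exact k2BL_mul (k2BL_mul (k2BL_const _) hs) hb
  · exact k2BL_mul (k2BL_mul (k2BL_add (k2BL_mul (k2BL_const _) hb)
      (k2BL_mul (k2BL_const _) (k2BL_mul hs (k2BL_pow hb 2)))) hr2) (k2BL_const _)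

/-! ## The abstract equation `κ² = k0² - g(κ)` -/

theorem k2_solve {k0 δ : ℝ} {g : ℝ → ℝ} (hk : 9 / 10 ≤ k0) (hδ : δ ≤ 1 / 100)
    (hb : ∀ κ, |κ - k0| ≤ 1 / 10 → |g κ| ≤ δ)
    (hl : ∀ κ κ', |κ - k0| ≤ 1 / 10 → |κ' - k0| ≤ 1 / 10 → |g κ - g κ'| ≤ δ * |κ - κ'|) :
    ∃ κ, (|κ - k0| ≤ 1 / 10 ∧ κ ^ 2 - k0 ^ 2 + g κ = 0) ∧
      ∀ κ', |κ' - k0| ≤ 1 / 10 → κ' ^ 2 - k0 ^ 2 + g κ' = 0 → κ' = κ := by
  have hcont : ContinuousOn (fun κ => κ ^ 2 - k0 ^ 2 + g κ) (Icc (k0 - 1 / 10) (k0 + 1 / 10)) := by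
    have h0 := hb k0 (by rw [sub_self, abs_zero]; norm_num)
    have hδ0 : 0 ≤ δ := (abs_nonneg _).trans h0
    have hg : ContinuousOn g (Icc (k0 - 1 / 10) (k0 + 1 / 10)) := by
      have : LipschitzOnWith ⟨δ, hδ0⟩ g (Icc (k0 - 1 / 10) (k0 + 1 / 10)) := by
        refine LipschitzOnWith.of_dist_le_mul fun x hx y hy => ?_
        rw [Real.dist_eq, Real.dist_eq]
        exact hl x y (abs_le.mpr ⟨by linarith [hx.1], by linarith [hx.2]⟩)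
          (abs_le.mpr ⟨by linarith [hy.1], by linarith [hy.2]⟩)
      exact this.continuousOn
    exact ((continuous_id.pow 2).sub continuous_const).continuousOn.add hg
  have hle : k0 - 1 / 10 ≤ k0 + 1 / 10 := by linarith
  have h1 : (fun κ => κ ^ 2 - k0 ^ 2 + g κ) (k0 - 1 / 10) ≤ 0 := by
    have := abs_le.mp (hb (k0 - 1 / 10) (by rw [abs_le]; constructor <;> linarith))
    show (k0 - 1 / 10) ^ 2 - k0 ^ 2 + g (k0 - 1 / 10) ≤ 0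
    nlinarith [this.2]
  have h2 : 0 ≤ (fun κ => κ ^ 2 - k0 ^ 2 + g κ) (k0 + 1 / 10) := by
    have := abs_le.mp (hb (k0 + 1 / 10) (by rw [abs_le]; constructor <;> linarith))
    show 0 ≤ (k0 + 1 / 10) ^ 2 - k0 ^ 2 + g (k0 + 1 / 10)
    nlinarith [this.1]
  obtain ⟨κ, hκ, hκ0⟩ := intermediate_value_Icc hle hcont ⟨h1, h2⟩
  have hκ0' : κ ^ 2 - k0 ^ 2 + g κ = 0 := hκ0
  have hκ1 : |κ - k0| ≤ 1 / 10 := abs_le.mpr ⟨by linarith [hκ.1], by linarith [hκ.2]⟩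
  refine ⟨κ, ⟨hκ1, hκ0'⟩, fun κ' hκ' h' => ?_⟩
  by_contra hne
  have hpos : 0 < |κ' - κ| := abs_pos.mpr (sub_ne_zero.mpr hne)
  have h3 := hl κ' κ hκ' hκ1
  have h4 : (κ' - κ) * (κ' + κ) = -(g κ' - g κ) := by linear_combination h' - hκ0'
  have h5 : |κ' - κ| * |κ' + κ| = |g κ' - g κ| := by
    rw [← abs_mul, h4, abs_neg]
  have h6 : (16 : ℝ) / 10 ≤ |κ' + κ| := by
    have a1 := abs_le.mp hκ'
    have a2 := abs_le.mp hκ1
    rw [abs_of_nonneg (by linarith [a1.1, a2.1])]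
    linarith [a1.1, a2.1]
  nlinarith

theorem k2_near {α : Type*} [PseudoMetricSpace α] {T : Set α} {k0 K : α → ℝ} {g : α → ℝ → ℝ}
    {Λ δ : ℝ} (hk : ∀ p ∈ T, 9 / 10 ≤ k0 p) (hδ0 : 0 ≤ δ) (hδ : δ ≤ 1 / 100)
    (hΛ : 0 ≤ Λ) (hk0 : ∀ p ∈ T, ∀ q ∈ T, |k0 p - k0 q| ≤ Λ * dist p q)
    (hK1 : ∀ p ∈ T, |K p - k0 p| ≤ 1 / 10) (hK2 : ∀ p ∈ T, K p ^ 2 - k0 p ^ 2 + g p (K p) = 0)
    (hb : ∀ p ∈ T, |g p (K p)| ≤ δ)
    (hl : ∀ p ∈ T, ∀ q ∈ T, |g p (K p) - g q (K q)| ≤ δ * (|K p - K q| + Λ * dist p q)) :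
    Near (δ * (1 + 3 * Λ)) K k0 T := by
  have hS : ∀ p ∈ T, (17 : ℝ) / 10 ≤ K p + k0 p := fun p hp => by
    have := abs_le.mp (hK1 p hp)
    linarith [hk p hp, this.1]
  have he : ∀ p ∈ T, |K p - k0 p| ≤ δ := fun p hp => by
    have h1 : (K p - k0 p) * (K p + k0 p) = -(g p (K p)) := by linear_combination hK2 p hp
    have h2 : |K p - k0 p| * |K p + k0 p| = |g p (K p)| := by rw [← abs_mul, h1, abs_neg]
    have h3 := hS p hp
    have h4 : (17 : ℝ) / 10 ≤ |K p + k0 p| := h3.trans (le_abs_self _)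
    have h5 := hb p hp
    nlinarith [abs_nonneg (K p - k0 p)]
  refine ⟨fun p hp => ?_, fun p hp q hq => ?_⟩
  · rw [Real.norm_eq_abs]
    have h1 := he p hp
    nlinarith
  · rw [Real.norm_eq_abs]
    set d := dist p q with hd
    have hd0 : 0 ≤ d := dist_nonneg
    set e := |(K p - k0 p) - (K q - k0 q)| with hedef
    have e0 : 0 ≤ e := abs_nonneg _
    have h1 : ((K p - k0 p) - (K q - k0 q)) * (K p + k0 p) =
        -(g p (K p) - g q (K q)) - (K q - k0 q) * ((K p - K q) + (k0 p - k0 q)) := by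
      linear_combination hK2 p hp - hK2 q hq
    have h2 : e * |K p + k0 p| ≤ |g p (K p) - g q (K q)| +
        |K q - k0 q| * (|K p - K q| + |k0 p - k0 q|) := by
      rw [hedef, ← abs_mul, h1]
      refine (abs_sub _ _).trans ?_
      rw [abs_neg, abs_mul]
      exact add_le_add le_rfl (mul_le_mul_of_nonneg_left (abs_add_le _ _) (abs_nonneg _))
    have h3 : |K p - K q| ≤ e + Λ * d := by
      have h4 : K p - K q = ((K p - k0 p) - (K q - k0 q)) + (k0 p - k0 q) := by ring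
      rw [h4]
      exact (abs_add_le _ _).trans (add_le_add le_rfl (hk0 p hp q hq))
    have h4 := hl p hp q hq
    have h5 := he q hq
    have h6 := hk0 p hp q hq
    have h7 : (17 : ℝ) / 10 ≤ |K p + k0 p| := (hS p hp).trans (le_abs_self _)
    have h8 : e * (17 / 10) ≤ e * |K p + k0 p| := mul_le_mul_of_nonneg_left h7 e0
    have hΛd : 0 ≤ Λ * d := by positivity
    have h9 : |g p (K p) - g q (K q)| ≤ δ * (e + Λ * d + Λ * d) :=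
      h4.trans (mul_le_mul_of_nonneg_left (by linarith) hδ0)
    have h10 : |K q - k0 q| * (|K p - K q| + |k0 p - k0 q|) ≤ δ * (e + Λ * d + Λ * d) :=
      mul_le_mul h5 (by linarith) (by positivity) hδ0
    have h11 : e * (17 / 10) ≤ 2 * (δ * (e + Λ * d + Λ * d)) := by linarith
    have h12 : δ * e ≤ 1 / 100 * e := mul_le_mul_of_nonneg_right hδ e0
    have h13 : δ * (Λ * d) ≥ 0 := by positivity
    have h14 : 0 ≤ δ * d := by positivity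
    nlinarith

/-! ## The chart and `kap0` -/

theorem k2_chart (C : ℝ) (hC : 0 < C ∧ C ≤ 1) (X X' : ℝ × ℝ) :
    dist (chart C X) (chart C X') ≤ 3 * dist X X' := by
  obtain ⟨hk1, hk2, hr1, hr2⟩ := kh_num_pr
  have hx : |X.1 - X'.1| ≤ dist X X' := k2_dist1 X X'
  have hz : |X.2 - X'.2| ≤ dist X X' := k2_dist2 X X'
  have hcc : 2 ≤ cc * rh := by
    have e : cc * rh = 8 / (3 * rh * kh) := by
      rw [cc]
      have : rh ≠ 0 := by linarith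
      have : kh ≠ 0 := by linarith
      field_simp
    rw [e, le_div_iff₀ (by nlinarith)]
    nlinarith
  rw [Prod.dist_eq]
  refine max_le ?_ ?_
  · rw [Real.dist_eq]
    have e : (chart C X).1 - (chart C X').1 = C * (cc * rh)⁻¹ * (X.1 - X'.1) := by
      simp only [chart]
      rw [div_eq_mul_inv, div_eq_mul_inv]
      ring
    rw [e, abs_mul, abs_of_nonneg (by have := hC.1; positivity)]
    have h1 : (cc * rh)⁻¹ ≤ 1 := inv_le_one_of_one_le₀ (by linarith)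
    have h2 : C * (cc * rh)⁻¹ ≤ 1 * 1 := mul_le_mul hC.2 h1 (by positivity) (by norm_num)
    nlinarith [abs_nonneg (X.1 - X'.1), dist_nonneg (x := X) (y := X')]
  · rw [Real.dist_eq]
    have e : (chart C X).2 - (chart C X').2 = C * rh⁻¹ * (2 * (X.1 - X'.1) + (X.2 - X'.2)) := by
      simp only [chart]
      rw [div_eq_mul_inv, div_eq_mul_inv]
      ring
    have hr0 : 0 < rh := by linarith
    rw [e, abs_mul, abs_of_nonneg (by have := hC.1; positivity)]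
    have h1 : rh⁻¹ ≤ 1 := inv_le_one_of_one_le₀ (by linarith)
    have h2 : C * rh⁻¹ ≤ 1 * 1 := mul_le_mul hC.2 h1 (by positivity) (by norm_num)
    have h3 : |2 * (X.1 - X'.1) + (X.2 - X'.2)| ≤ 3 * dist X X' := by
      refine (abs_add_le _ _).trans ?_
      rw [abs_mul, abs_two]
      linarith
    nlinarith [abs_nonneg (2 * (X.1 - X'.1) + (X.2 - X'.2))]

theorem k2_CDw {C : ℝ} {X : ℝ × ℝ} (hX : X ∈ CDw C) : 3 / 10 ≤ (chart C X).1 ∧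
    (chart C X).1 ≤ 5 ∧ |(chart C X).2| ≤ 2 ∧ 9 / 10 ≤ kap0 C (chart C X) ∧
    kap0 C (chart C X) ≤ 12 / 10 := by
  obtain ⟨hk1, hk2, hr1, hr2⟩ := kh_num_pr
  obtain ⟨h1, h2, h3, h4⟩ := hX
  have h5 := abs_le.mp h4
  exact ⟨by linarith, by linarith, h3, by linarith [h5.1], by linarith [h5.2]⟩

theorem k2_kap0_lip (C : ℝ) (hC : 0 < C ∧ C ≤ 1) : ∃ L : ℝ, 0 ≤ L ∧
    ∀ X ∈ CDw C, ∀ X' ∈ CDw C,
      |kap0 C (chart C X) - kap0 C (chart C X')| ≤ L * dist X X' := by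
  set S : Set (ℝ × ℝ) := {Y | (3 / 10 ≤ Y.1 ∧ Y.1 ≤ 5) ∧ |Y.2| ≤ 2 ∧ 9 / 10 ≤ kap0 C Y} with hS
  have hr : k2BL S (fun Y => Y.1) := by
    refine k2BL_of (B := 5) (by norm_num) (fun q hq => ?_) (fun p q => k2_dist1 p q)
    rw [abs_of_nonneg (by linarith [hq.1.1])]
    exact hq.1.2
  have hp : k2BL S (fun Y => Y.2) :=
    k2BL_of (B := 2) (by norm_num) (fun q hq => hq.2.1) (fun p q => k2_dist2 p q)
  have hri : k2BL S (fun Y => (Y.1)⁻¹) := k2BL_inv hr (m := 3 / 10) (by norm_num)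
    (fun q hq => hq.1.1)
  have hf : k2BL S (fun Y => 2 / (ma * mb) * (E0 + 1 / Y.1 - (Y.2 ^ 2 + C ^ 2 / Y.1 ^ 2) / 2)) := by
    have h1 : k2BL S (fun Y => 2 / (ma * mb) * (E0 + Y.1⁻¹ -
        (Y.2 ^ 2 + C ^ 2 * (Y.1⁻¹) ^ 2) * (1 / 2))) :=
      k2BL_mul (k2BL_const _) (k2BL_sub (k2BL_add (k2BL_const _) hri)
        (k2BL_mul (k2BL_add (k2BL_pow hp 2) (k2BL_mul (k2BL_const _) (k2BL_pow hri 2)))
          (k2BL_const _)))
    refine k2BL_congr h1 fun Y _ => ?_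
    rw [one_div, inv_pow]
    ring
  have hk : k2BL S (fun Y => kap0 C Y) := by
    have h1 := k2BL_sqrt hf (m := 9 / 10) (by norm_num) (fun Y hY => by
      have := hY.2.2
      rwa [kap0] at this)
    exact k2BL_congr h1 fun Y _ => rfl
  obtain ⟨L, h0, h1, h2⟩ := hk
  refine ⟨L * 3, by positivity, fun X hX X' hX' => ?_⟩
  have a1 := k2_CDw hX
  have a2 := k2_CDw hX'
  have h3 := h2 (chart C X) ⟨⟨a1.1, a1.2.1⟩, a1.2.2.1, a1.2.2.2.1⟩ (chart C X')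
    ⟨⟨a2.1, a2.2.1⟩, a2.2.2.1, a2.2.2.2.1⟩
  rw [Real.norm_eq_abs] at h3
  refine h3.trans ?_
  rw [mul_assoc]
  exact mul_le_mul_of_nonneg_left (k2_chart C hC X X') h0

/-! ## The main lemma -/

/-- the equation of `kapE`, `kapI` in normal form -/
def k2P (C μ : ℝ) (Z : ℝ × ℝ × ℝ → ℂ) (p : (ℝ × ℝ) × ℝ × ℝ) (κ : ℝ) : Prop :=
  |κ - kap0 C (chart C p.1)| ≤ 1 / 10 ∧ κ ^ 2 - kap0 C (chart C p.1) ^ 2 +
    2 / (ma * mb) * (μ ^ 2 * k2F C Z (μ ^ 2, κ, chart C p.1, p.2.1, p.2.2)) = 0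

theorem k2_memS {C s0 s κ χ β : ℝ} {X : ℝ × ℝ} (hs : 0 ≤ s) (hs0 : s ≤ s0) (hX : X ∈ CDw C)
    (hκ : |κ - kap0 C (chart C X)| ≤ 1 / 10) (hβ : β ∈ JJ) :
    (s, κ, chart C X, χ, β) ∈ k2S s0 := by
  have a1 := k2_CDw hX
  have a2 := abs_le.mp hκ
  exact ⟨⟨hs, hs0⟩, ⟨by linarith [a2.1, a1.2.2.2.1], by linarith [a2.2, a1.2.2.2.2]⟩,
    ⟨a1.1, a1.2.1⟩, a1.2.2.1, abs_le.mpr hβ⟩

theorem k2_main (C : ℝ) (hC : 0 < C ∧ C ≤ 1) {Z : ℝ × ℝ × ℝ → ℂ} (hZ : k2BL k2T Z) :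
    ∃ s0 μ0 L : ℝ, 0 < s0 ∧ s0 ≤ 1 ∧ (∀ w ∈ k2T, s0 * ‖Z w‖ ≤ 3 / 20) ∧ 0 < μ0 ∧ 1 ≤ L ∧
      ∀ μ, 0 < μ → μ < μ0 → μ ^ 2 ≤ s0 ∧
        (∀ p : (ℝ × ℝ) × ℝ × ℝ, p ∈ CDw C ×ˢ ((univ : Set ℝ) ×ˢ JJ) →
          ∃ κ, k2P C μ Z p κ ∧ ∀ κ', k2P C μ Z p κ' → κ' = κ) ∧
        ∀ K : (ℝ × ℝ) × ℝ × ℝ → ℝ, (∀ p ∈ CDw C ×ˢ ((univ : Set ℝ) ×ˢ JJ), k2P C μ Z p (K p)) →
          Near (L * μ ^ 2) K (fun p => kap0 C (chart C p.1)) (CDw C ×ˢ (univ ×ˢ JJ)) := by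
  obtain ⟨LZ, hLZ0, hLZ1, hLZ2⟩ := hZ
  set s0 : ℝ := 3 / 20 * (LZ + 1)⁻¹ with hs0
  have hs0p : 0 < s0 := by positivity
  have hinv1 : (LZ + 1)⁻¹ ≤ 1 := inv_le_one_of_one_le₀ (by linarith)
  have hs01 : s0 ≤ 1 := by
    rw [hs0]
    linarith
  have h0 : s0 * LZ ≤ 3 / 20 := by
    rw [hs0, mul_assoc]
    have : (LZ + 1)⁻¹ * LZ ≤ 1 := by
      rw [inv_mul_le_iff₀ (by positivity)]
      linarith
    linarith
  obtain ⟨L, hL0, hL1, hL2⟩ := k2F_BL C hs01 h0 ⟨LZ, hLZ0, hLZ1, hLZ2⟩ hLZ1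
  obtain ⟨Lk, hLk0, hLk⟩ := k2_kap0_lip C hC
  have hab : 2 / (ma * mb) = 32 / 3 := by
    rw [ma, mb]
    norm_num
  have hμ0 : 0 < min s0 (1 / (1100 * (L + 1))) := lt_min hs0p (by positivity)
  refine ⟨s0, min s0 (1 / (1100 * (L + 1))), 32 / 3 * (L + 1) * (1 + 3 * (3 * Lk + 3)), hs0p, hs01,
    fun w hw => (mul_le_mul_of_nonneg_left (hLZ1 w hw) hs0p.le).trans h0, hμ0, ?_, ?_⟩
  · nlinarith [mul_nonneg hL0 hLk0]
  intro μ hμ hμ'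
  have hμs0 : μ < s0 := hμ'.trans_le (min_le_left _ _)
  have hμ1 : μ < 1 := hμs0.trans_le hs01
  have hμ2 : μ ^ 2 ≤ μ := by nlinarith
  have hsq : μ ^ 2 ≤ s0 := by linarith
  set δ : ℝ := 32 / 3 * (L + 1) * μ ^ 2 with hδd
  have hδ0 : 0 ≤ δ := by positivity
  have hδ : δ ≤ 1 / 100 := by
    have h1 : μ < 1 / (1100 * (L + 1)) := hμ'.trans_le (min_le_right _ _)
    have h2 : μ * (1100 * (L + 1)) < 1 := by
      rwa [lt_div_iff₀ (by positivity)] at h1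
    have h3 : μ ^ 2 * (L + 1) ≤ μ * (L + 1) := mul_le_mul_of_nonneg_right hμ2 (by positivity)
    rw [hδd]
    nlinarith
  -- the function `g`
  have hgb : ∀ X ∈ CDw C, ∀ χ, ∀ β ∈ JJ, ∀ κ, |κ - kap0 C (chart C X)| ≤ 1 / 10 →
      |2 / (ma * mb) * (μ ^ 2 * k2F C Z (μ ^ 2, κ, chart C X, χ, β))| ≤ δ := by
    intro X hX χ β hβ κ hκ
    have h1 := hL1 _ (k2_memS (χ := χ) (by positivity : (0:ℝ) ≤ μ ^ 2) hsq hX hκ hβ)
    rw [Real.norm_eq_abs] at h1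
    rw [hab, abs_mul, abs_mul, abs_of_nonneg (by positivity : (0:ℝ) ≤ μ ^ 2),
      abs_of_nonneg (by norm_num : (0:ℝ) ≤ 32 / 3), hδd]
    have h2 : μ ^ 2 * |k2F C Z (μ ^ 2, κ, chart C X, χ, β)| ≤ μ ^ 2 * (L + 1) :=
      mul_le_mul_of_nonneg_left (by linarith) (by positivity)
    nlinarith
  have hgl : ∀ p ∈ CDw C ×ˢ ((univ : Set ℝ) ×ˢ JJ), ∀ q ∈ CDw C ×ˢ ((univ : Set ℝ) ×ˢ JJ),
      ∀ κ κ', |κ - kap0 C (chart C p.1)| ≤ 1 / 10 → |κ' - kap0 C (chart C q.1)| ≤ 1 / 10 →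
      |2 / (ma * mb) * (μ ^ 2 * k2F C Z (μ ^ 2, κ, chart C p.1, p.2.1, p.2.2)) -
        2 / (ma * mb) * (μ ^ 2 * k2F C Z (μ ^ 2, κ', chart C q.1, q.2.1, q.2.2))| ≤
        δ * (|κ - κ'| + (3 * Lk + 3) * dist p q) := by
    intro p hp q hq κ κ' hκ hκ'
    have h1 := hL2 _ (k2_memS (χ := p.2.1) (by positivity : (0:ℝ) ≤ μ ^ 2) hsq hp.1 hκ hp.2.2)
      _ (k2_memS (χ := q.2.1) (by positivity : (0:ℝ) ≤ μ ^ 2) hsq hq.1 hκ' hq.2.2)
    rw [Real.norm_eq_abs] at h1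
    have hd0 : 0 ≤ dist p q := dist_nonneg
    have h2 : dist ((μ ^ 2, κ, chart C p.1, p.2.1, p.2.2) : ℝ × ℝ × (ℝ × ℝ) × ℝ × ℝ)
        (μ ^ 2, κ', chart C q.1, q.2.1, q.2.2) ≤ |κ - κ'| + (3 * Lk + 3) * dist p q := by
      have hdk : 0 ≤ |κ - κ'| := abs_nonneg _
      have hLd : 0 ≤ Lk * dist p q := by positivity
      rw [Prod.dist_eq, Prod.dist_eq, Prod.dist_eq]
      refine max_le ?_ (max_le ?_ (max_le ?_ ?_))
      · simp only [dist_self]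
        positivity
      · rw [Real.dist_eq]
        nlinarith
      · have h3 := k2_chart C hC p.1 q.1
        have h4 := k2_dist1 p q
        show dist (chart C p.1) (chart C q.1) ≤ _
        nlinarith
      · have h4 := k2_dist2 p q
        show dist (p.2.1, p.2.2) (q.2.1, q.2.2) ≤ _
        have h5 : dist (p.2.1, p.2.2) (q.2.1, q.2.2) = dist p.2 q.2 := rfl
        rw [h5]
        nlinarith
    rw [← mul_sub, ← mul_sub, hab, abs_mul, abs_mul, abs_of_nonneg (by positivity : (0:ℝ) ≤ μ ^ 2),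
      abs_of_nonneg (by norm_num : (0:ℝ) ≤ 32 / 3), hδd]
    have hD : 0 ≤ |κ - κ'| + (3 * Lk + 3) * dist p q := by positivity
    have h3 := h1.trans (mul_le_mul_of_nonneg_left h2 hL0)
    have h4 : μ ^ 2 * |k2F C Z (μ ^ 2, κ, chart C p.1, p.2.1, p.2.2) -
        k2F C Z (μ ^ 2, κ', chart C q.1, q.2.1, q.2.2)| ≤
        μ ^ 2 * ((L + 1) * (|κ - κ'| + (3 * Lk + 3) * dist p q)) := by
      refine mul_le_mul_of_nonneg_left ?_ (by positivity)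
      nlinarith
    nlinarith
  refine ⟨hsq, fun p hp => ?_, fun K hK => ?_⟩
  · have a1 := k2_CDw hp.1
    obtain ⟨κ, hκ, huniq⟩ := k2_solve (k0 := kap0 C (chart C p.1)) (δ := δ)
      (g := fun κ => 2 / (ma * mb) * (μ ^ 2 * k2F C Z (μ ^ 2, κ, chart C p.1, p.2.1, p.2.2)))
      a1.2.2.2.1 hδ (fun κ hκ => hgb p.1 hp.1 p.2.1 p.2.2 hp.2.2 κ hκ)
      (fun κ κ' hκ hκ' => by
        have := hgl p hp p hp κ κ' hκ hκ'
        rwa [dist_self, mul_zero, add_zero] at this)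
    exact ⟨κ, hκ, fun κ' hκ' => huniq κ' hκ'.1 hκ'.2⟩
  · have hN := k2_near (T := CDw C ×ˢ ((univ : Set ℝ) ×ˢ JJ))
      (k0 := fun p => kap0 C (chart C p.1)) (K := K)
      (g := fun p κ => 2 / (ma * mb) * (μ ^ 2 * k2F C Z (μ ^ 2, κ, chart C p.1, p.2.1, p.2.2)))
      (Λ := 3 * Lk + 3) (δ := δ) (fun p hp => (k2_CDw hp.1).2.2.2.1) hδ0 hδ (by positivity)
      (fun p hp q hq => by
        have h1 := hLk p.1 hp.1 q.1 hq.1
        have h2 := k2_dist1 p q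
        have hd0 : 0 ≤ dist p q := dist_nonneg
        show |kap0 C (chart C p.1) - kap0 C (chart C q.1)| ≤ _
        nlinarith)
      (fun p hp => (hK p hp).1) (fun p hp => (hK p hp).2)
      (fun p hp => hgb p.1 hp.1 p.2.1 p.2.2 hp.2.2 _ (hK p hp).1)
      (fun p hp q hq => hgl p hp q hq _ _ (hK p hp).1 (hK q hq).1)
    have e : 32 / 3 * (L + 1) * (1 + 3 * (3 * Lk + 3)) * μ ^ 2 = δ * (1 + 3 * (3 * Lk + 3)) := by
      rw [hδd]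
      ring
    rw [e]
    exact hN

/-! ## The functions `Z` -/

def k2ZE (w : ℝ × ℝ × ℝ) : ℂ := (A0 w.1 w.2.1 w.2.2 + D0 w.1 w.2.1 w.2.2) ^ 2

def k2ZI (w : ℝ × ℝ × ℝ) : ℂ :=
  (A0 w.1 (w.2.1 + Real.pi) (-w.2.2) + D0 w.1 (w.2.1 + Real.pi) (-w.2.2)) ^ 2

theorem k2ZE_BL : k2BL k2T k2ZE := by
  obtain ⟨L, hL1, hamp, hlip⟩ := A0_lip (7 / 10) (by norm_num)
  have hmem : ∀ w ∈ k2T, (((1 : ℂ), (0 : ℂ), w.1, w.2.1) : Dt) ∈ DD (7 / 10) := by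
    intro w hw
    refine ⟨?_, ?_, ?_, hw.1.1, ?_⟩
    · norm_num
    · norm_num
    · norm_num
    · show w.1 ≤ 1 / (7 / 10)
      have := hw.1.2
      norm_num
      linarith
  have hβ : ∀ w ∈ k2T, w.2.2 ∈ JJ := fun w hw => abs_le.mp hw.2
  have hκ0 : ∀ w ∈ k2T, 0 < w.1 := fun w hw => by linarith [hw.1.1]
  have hb : ∀ w ∈ k2T, amp w.1 w.2.2 ≤ L := by
    intro w hw
    have h1 : w.1 ≤ 1 / (7 / 10) := by
      have := hw.1.2
      norm_num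
      linarith
    exact (hamp w.1 hw.1.1 h1 w.2.2 (hβ w hw)).2.1
  have hd : ∀ w ∈ k2T, ∀ w' ∈ k2T,
      ‖inn0 ((1 : ℂ), (0 : ℂ), w.1, w.2.1) w.2.2 - inn0 ((1 : ℂ), (0 : ℂ), w'.1, w'.2.1) w'.2.2‖ ≤
        2 * L * dist w w' := by
    intro w hw w' hw'
    refine (hlip _ (hmem w hw) _ (hmem w' hw') _ (hβ w hw) _ (hβ w' hw')).trans ?_
    have h1 : ‖(((1 : ℂ), (0 : ℂ), w.1, w.2.1) : Dt) - ((1 : ℂ), (0 : ℂ), w'.1, w'.2.1)‖ ≤
        dist w w' := by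
      rw [← dist_eq_norm, Prod.dist_eq, Prod.dist_eq, Prod.dist_eq]
      simp only [dist_self]
      refine max_le dist_nonneg (max_le dist_nonneg (max_le (k2_dist1 w w') ?_))
      exact (k2_dist1 w.2 w'.2).trans (k2_dist2 w w')
    have h2 : |w.2.2 - w'.2.2| ≤ dist w w' := (k2_dist2 w.2 w'.2).trans (k2_dist2 w w')
    nlinarith
  have hA : k2BL k2T (fun w => A0 w.1 w.2.1 w.2.2) := by
    refine ⟨2 * L, by linarith, fun w hw => ?_, fun w hw w' hw' => ?_⟩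
    · rw [(A0_alg w.1 w.2.1 w.2.2 (hκ0 w hw)).1]
      linarith [hb w hw]
    · exact (norm_fst_le _).trans (hd w hw w' hw')
  have hD : k2BL k2T (fun w => D0 w.1 w.2.1 w.2.2) := by
    refine ⟨2 * L, by linarith, fun w hw => ?_, fun w hw w' hw' => ?_⟩
    · rw [(A0_alg w.1 w.2.1 w.2.2 (hκ0 w hw)).2.1]
      linarith [hb w hw]
    · exact ((norm_fst_le _).trans (norm_snd_le _)).trans (hd w hw w' hw')
  exact k2BL_pow (k2BL_add hA hD) 2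

theorem k2ZI_BL : k2BL k2T k2ZI := by
  have h := k2BL_comp (T := k2T) (h := fun w : ℝ × ℝ × ℝ => (w.1, w.2.1 + Real.pi, -w.2.2))
    (Λ := 1) k2ZE_BL (fun w hw => ⟨hw.1, by
      show |-w.2.2| ≤ 10
      rw [abs_neg]
      exact hw.2⟩) le_rfl (fun p _ q _ => by
      rw [one_mul, Prod.dist_eq, Prod.dist_eq]
      refine max_le (k2_dist1 p q) (max_le ?_ ?_)
      · show dist (p.2.1 + Real.pi) (q.2.1 + Real.pi) ≤ _
        rw [dist_add_right]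
        exact (k2_dist1 p.2 q.2).trans (k2_dist2 p q)
      · show dist (-p.2.2) (-q.2.2) ≤ _
        rw [dist_neg_neg]
        exact (k2_dist2 p.2 q.2).trans (k2_dist2 p q))
  exact h

theorem k2_norm_Uenc (C μ r p β : ℝ) :
    ‖Uenc C μ r p β‖ ^ 2 = p ^ 2 + (C - ma * mb * μ ^ 2 * β) ^ 2 * (r ^ 2)⁻¹ := by
  rw [← Complex.normSq_eq_norm_sq, Complex.normSq_apply]
  have hre : (Uenc C μ r p β).re = p := by
    simp only [Uenc, Complex.add_re, Complex.ofReal_re, Complex.re_ofReal_mul, Complex.I_re,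
      mul_zero, add_zero]
  have him : (Uenc C μ r p β).im = (C - ma * mb * μ ^ 2 * β) / r := by
    simp only [Uenc, Complex.add_im, Complex.ofReal_im, Complex.im_ofReal_mul, Complex.I_im,
      mul_one, zero_add]
  rw [hre, him, div_eq_mul_inv, ← inv_pow]
  ring

theorem k2_iff {C μ s0 κ χ β : ℝ} {Z : ℝ × ℝ × ℝ → ℂ} {U : ℂ} {X : ℝ × ℝ}
    (hs0 : ∀ w ∈ k2T, s0 * ‖Z w‖ ≤ 3 / 20) (hμ2 : μ ^ 2 ≤ s0)
    (hX : X ∈ CDw C) (hβ : β ∈ JJ)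
    (hU : ‖U‖ ^ 2 = (chart C X).2 ^ 2 + (C - ma * mb * μ ^ 2 * β) ^ 2 * ((chart C X).1 ^ 2)⁻¹) :
    (|κ - kap0 C (chart C X)| ≤ 1 / 10 ∧
      encH μ (chart C X).1 U κ (μ ^ 2 * Z (κ, χ, β)) = E0) ↔ k2P C μ Z (X, χ, β) κ := by
  unfold k2P
  refine and_congr_right fun hκ => ?_
  have a1 := k2_CDw hX
  have a2 := abs_le.mp hκ
  have hw : (κ, χ, β) ∈ k2T :=
    ⟨⟨by show 7 / 10 ≤ κ; linarith [a2.1, a1.2.2.2.1], by
      show κ ≤ 14 / 10; linarith [a2.2, a1.2.2.2.2]⟩, abs_le.mpr hβ⟩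
  have hs := hs0 _ hw
  have hsm : ∀ m : ℝ, 0 ≤ m → m ≤ 1 → ‖(m : ℂ) * Z (κ, χ, β)‖ ≤ ‖Z (κ, χ, β)‖ := by
    intro m h1 h2
    rw [norm_mul, Complex.norm_real, Real.norm_of_nonneg h1]
    nlinarith [norm_nonneg (Z (κ, χ, β))]
  have h1 := k2_lower (by positivity : (0:ℝ) ≤ μ ^ 2) hμ2 a1.1
    (hsm mb (by rw [mb]; norm_num) (by rw [mb]; norm_num)) hs
  have h2 := k2_lower (z := -(ma * Z (κ, χ, β))) (by positivity : (0:ℝ) ≤ μ ^ 2) hμ2 a1.1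
    (by rw [norm_neg]; exact hsm ma (by rw [ma]; norm_num) (by rw [ma]; norm_num)) hs
  have e := k2F_eq (C := C) (μ := μ) (r := (chart C X).1) (p := (chart C X).2) (κ := κ) (χ := χ)
    (β := β) (Z := Z) (U := U) (by linarith [a1.1]) hU
    (by rw [← norm_pos_iff]; linarith) (by rw [← norm_pos_iff]; linarith)
    (by show 0 < kap0 C (chart C X); linarith [a1.2.2.2.1])
  have hab : ma * mb / 2 ≠ 0 := by
    rw [ma, mb]
    norm_num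
  constructor
  · intro h
    rw [h, sub_self] at e
    have := (mul_eq_zero.mp e.symm).resolve_left hab
    exact this
  · intro h
    have h' : κ ^ 2 - kap0 C ((chart C X).1, (chart C X).2) ^ 2 + 2 / (ma * mb) * (μ ^ 2 *
        k2F C Z (μ ^ 2, κ, ((chart C X).1, (chart C X).2), χ, β)) = 0 := h
    rw [h', mul_zero] at e
    linarith

theorem k2_kap (C : ℝ) (hC : 0 < C ∧ C ≤ 1) : ∃ μ0 L : ℝ, 0 < μ0 ∧ 1 ≤ L ∧
    ∀ μ, 0 < μ → μ < μ0 →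
      (∀ X ∈ CDw C, ∀ χ, ∀ β ∈ JJ,
        IsKap C μ (chart C X) χ β (kapE C μ (chart C X) χ β) ∧
        (∀ κ, IsKap C μ (chart C X) χ β κ → κ = kapE C μ (chart C X) χ β) ∧
        IsKapI C μ (chart C X) χ β (kapI C μ (chart C X) χ β) ∧
        (∀ κ, IsKapI C μ (chart C X) χ β κ → κ = kapI C μ (chart C X) χ β)) ∧
      Near (L * μ ^ 2) (fun p : (ℝ × ℝ) × ℝ × ℝ => kapE C μ (chart C p.1) p.2.1 p.2.2)
        (fun p => kap0 C (chart C p.1)) (CDw C ×ˢ (univ ×ˢ JJ)) ∧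
      Near (L * μ ^ 2) (fun p : (ℝ × ℝ) × ℝ × ℝ => kapI C μ (chart C p.1) p.2.1 p.2.2)
        (fun p => kap0 C (chart C p.1)) (CDw C ×ˢ (univ ×ˢ JJ)) := by
  obtain ⟨s0, μ0, L, hs0, hs01, hs0Z, hμ0, hL, h⟩ := k2_main C hC k2ZE_BL
  obtain ⟨s0', μ0', L', hs0', hs01', hs0Z', hμ0', hL', h'⟩ := k2_main C hC k2ZI_BL
  have iE : ∀ μ, μ ^ 2 ≤ s0 → ∀ X ∈ CDw C, ∀ χ, ∀ β ∈ JJ, ∀ κ,
      IsKap C μ (chart C X) χ β κ ↔ k2P C μ k2ZE (X, χ, β) κ := by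
    intro μ hμ2 X hX χ β hβ κ
    have := k2_iff (κ := κ) (χ := χ) (Z := k2ZE) hs0Z hμ2 hX hβ
      (k2_norm_Uenc C μ (chart C X).1 (chart C X).2 β)
    exact this
  have iI : ∀ μ, μ ^ 2 ≤ s0' → ∀ X ∈ CDw C, ∀ χ, ∀ β ∈ JJ, ∀ κ,
      IsKapI C μ (chart C X) χ β κ ↔ k2P C μ k2ZI (X, χ, β) κ := by
    intro μ hμ2 X hX χ β hβ κ
    have := k2_iff (κ := κ) (χ := χ) (Z := k2ZI) (U := -Uenc C μ (chart C X).1 (chart C X).2 β)
      hs0Z' hμ2 hX hβ (by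
        rw [norm_neg]
        exact k2_norm_Uenc C μ (chart C X).1 (chart C X).2 β)
    exact this
  refine ⟨min μ0 μ0', max L L', lt_min hμ0 hμ0', hL.trans (le_max_left _ _),
    fun μ hμ hμ' => ?_⟩
  obtain ⟨hsq, hex, hnear⟩ := h μ hμ (hμ'.trans_le (min_le_left _ _))
  obtain ⟨hsq', hex', hnear'⟩ := h' μ hμ (hμ'.trans_le (min_le_right _ _))
  have sE : ∀ X ∈ CDw C, ∀ χ, ∀ β ∈ JJ, IsKap C μ (chart C X) χ β (kapE C μ (chart C X) χ β) := by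
    intro X hX χ β hβ
    obtain ⟨κ, hκ, -⟩ := hex (X, χ, β) ⟨hX, mem_univ _, hβ⟩
    have hx : ∃ κ, IsKap C μ (chart C X) χ β κ := ⟨κ, (iE μ hsq X hX χ β hβ κ).mpr hκ⟩
    rw [kapE, dif_pos hx]
    exact hx.choose_spec
  have sI : ∀ X ∈ CDw C, ∀ χ, ∀ β ∈ JJ, IsKapI C μ (chart C X) χ β (kapI C μ (chart C X) χ β) := by
    intro X hX χ β hβ
    obtain ⟨κ, hκ, -⟩ := hex' (X, χ, β) ⟨hX, mem_univ _, hβ⟩
    have hx : ∃ κ, IsKapI C μ (chart C X) χ β κ := ⟨κ, (iI μ hsq' X hX χ β hβ κ).mpr hκ⟩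
    have hx' : ∃ κ, |κ - kap0 C (chart C X)| ≤ 1 / 10 ∧
      encH μ (chart C X).1 (- Uenc C μ (chart C X).1 (chart C X).2 β) κ
        (μ ^ 2 * (A0 κ (χ + Real.pi) (-β) + D0 κ (χ + Real.pi) (-β)) ^ 2) = E0 := hx
    rw [kapI, dif_pos hx']
    exact hx'.choose_spec
  refine ⟨fun X hX χ β hβ => ⟨sE X hX χ β hβ, fun κ hκ => ?_, sI X hX χ β hβ, fun κ hκ => ?_⟩,
    ?_, ?_⟩
  · obtain ⟨κ0, -, hu⟩ := hex (X, χ, β) ⟨hX, mem_univ _, hβ⟩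
    rw [hu κ ((iE μ hsq X hX χ β hβ κ).mp hκ),
      hu _ ((iE μ hsq X hX χ β hβ _).mp (sE X hX χ β hβ))]
  · obtain ⟨κ0, -, hu⟩ := hex' (X, χ, β) ⟨hX, mem_univ _, hβ⟩
    rw [hu κ ((iI μ hsq' X hX χ β hβ κ).mp hκ),
      hu _ ((iI μ hsq' X hX χ β hβ _).mp (sI X hX χ β hβ))]
  · have h1 := hnear (fun p => kapE C μ (chart C p.1) p.2.1 p.2.2)
      (fun p hp => (iE μ hsq p.1 hp.1 p.2.1 p.2.2 hp.2.2 _).mp (sE p.1 hp.1 p.2.1 p.2.2 hp.2.2))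
    exact near_mono h1 (mul_le_mul_of_nonneg_right (le_max_left _ _) (by positivity)) le_rfl
  · have h1 := hnear' (fun p => kapI C μ (chart C p.1) p.2.1 p.2.2)
      (fun p hp => (iI μ hsq' p.1 hp.1 p.2.1 p.2.2 hp.2.2 _).mp
        (sI p.1 hp.1 p.2.1 p.2.2 hp.2.2))
    exact near_mono h1 (mul_le_mul_of_nonneg_right (le_max_right _ _) (by positivity)) le_rfl

theorem kapE_spec_pr (C : ℝ) (hC : 0 < C ∧ C ≤ 1) : ∃ μ0 : ℝ, 0 < μ0 ∧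
    ∀ μ, 0 < μ → μ < μ0 → ∀ X ∈ CDw C, ∀ χ, ∀ β ∈ JJ,
      IsKap C μ (chart C X) χ β (kapE C μ (chart C X) χ β) ∧
      (∀ κ, IsKap C μ (chart C X) χ β κ → κ = kapE C μ (chart C X) χ β) ∧
      IsKapI C μ (chart C X) χ β (kapI C μ (chart C X) χ β) ∧
      (∀ κ, IsKapI C μ (chart C X) χ β κ → κ = kapI C μ (chart C X) χ β) := by
  obtain ⟨μ0, L, hμ0, -, h⟩ := k2_kap C hC
  exact ⟨μ0, hμ0, fun μ hμ hμ' => (h μ hμ hμ').1⟩

theorem kap_near_pr (C : ℝ) (hC : 0 < C ∧ C ≤ 1) : ∃ μ0 L : ℝ, 0 < μ0 ∧ 1 ≤ L ∧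
    ∀ μ, 0 < μ → μ < μ0 →
      Near (L * μ ^ 2) (fun p : (ℝ × ℝ) × ℝ × ℝ => kapE C μ (chart C p.1) p.2.1 p.2.2)
        (fun p => kap0 C (chart C p.1)) (CDw C ×ˢ (univ ×ˢ JJ)) ∧
      Near (L * μ ^ 2) (fun p : (ℝ × ℝ) × ℝ × ℝ => kapI C μ (chart C p.1) p.2.1 p.2.2)
        (fun p => kap0 C (chart C p.1)) (CDw C ×ˢ (univ ×ˢ JJ)) := by
  obtain ⟨μ0, L, hμ0, hL, h⟩ := k2_kap C hC
  exact ⟨μ0, L, hμ0, hL, fun μ hμ hμ' => (h μ hμ hμ').2⟩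

end

end Pool.Agent.HS

namespace Pool.Agent.HS
open Set Filter Topology Classical

theorem CD_sub (C : ℝ) : CD C ⊆ CDw C :=
  @Pool.Agent.HS.CD_sub_pr C

end Pool.Agent.HS

namespace Pool.Agent.HS
open Set Filter Topology Classical

theorem kapE_spec (C : ℝ) (hC : 0 < C ∧ C ≤ 1) : ∃ μ0 : ℝ, 0 < μ0 ∧
    ∀ μ, 0 < μ → μ < μ0 → ∀ X ∈ CDw C, ∀ χ, ∀ β ∈ JJ,
      IsKap C μ (chart C X) χ β (kapE C μ (chart C X) χ β) ∧
      (∀ κ, IsKap C μ (chart C X) χ β κ → κ = kapE C μ (chart C X) χ β) ∧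
      IsKapI C μ (chart C X) χ β (kapI C μ (chart C X) χ β) ∧
      (∀ κ, IsKapI C μ (chart C X) χ β κ → κ = kapI C μ (chart C X) χ β) :=
  @Pool.Agent.HS.kapE_spec_pr C hC

end Pool.Agent.HS

namespace Pool.Agent.HS
open Set Filter Topology Classical

theorem kap_near (C : ℝ) (hC : 0 < C ∧ C ≤ 1) : ∃ μ0 L : ℝ, 0 < μ0 ∧ 1 ≤ L ∧
    ∀ μ, 0 < μ → μ < μ0 →
      Near (L * μ ^ 2) (fun p : (ℝ × ℝ) × ℝ × ℝ => kapE C μ (chart C p.1) p.2.1 p.2.2)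
        (fun p => kap0 C (chart C p.1)) (CDw C ×ˢ (univ ×ˢ JJ)) ∧
      Near (L * μ ^ 2) (fun p : (ℝ × ℝ) × ℝ × ℝ => kapI C μ (chart C p.1) p.2.1 p.2.2)
        (fun p => kap0 C (chart C p.1)) (CDw C ×ˢ (univ ×ˢ JJ)) :=
  @Pool.Agent.HS.kap_near_pr C hC

end Pool.Agent.HS

namespace Pool.Agent.HS
open Set Filter Topology Classical

theorem kh_num : 1 < kh ∧ kh < 11 / 10 ∧ 6 / 5 < rh ∧ rh < 121 / 100 :=
  @Pool.Agent.HS.kh_num_pr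

end Pool.Agent.HS
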