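import Pool.Agent.Lib_helper60.HSF.D_WE2
import Pool.Agent.Lib_helper60.HSF.D_WA
import Pool.Agent.Lib_helper60.HSF.A_CA
import Pool.Agent.Lib_helper60.HSF.IO_K2
import Pool.Agent.Lib_helper60.HSF.A_CB

/-! HS part E, block E0b: encounter states of the system `hs` (reflexivity of reach, continuity,
period), closeness and regularity of the relative speed. -/

namespace Pool.Agent.HS

noncomputable section

open Set Filter Topology Classical

/-! ## constants -/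

theorem e0b_d0 : 28 / 25 ≤ 4 * d0 ∧ 4 * d0 ≤ 32 / 25 := by
  have h2 : (0:ℝ) < (2:ℝ) ^ (-(1/3) : ℝ) := Real.rpow_pos_of_pos (by norm_num) _
  have h3 : ((2:ℝ) ^ (-(1/3) : ℝ)) ^ 3 = 1 / 2 := by
    rw [← Real.rpow_natCast, ← Real.rpow_mul (by norm_num)]
    norm_num
  have hl : 39 / 50 ≤ (2:ℝ) ^ (-(1/3) : ℝ) := by
    by_contra hc
    push Not at hc
    have : ((2:ℝ) ^ (-(1/3) : ℝ)) ^ 3 < (39/50) ^ 3 := by gcongr
    rw [h3] at this
    norm_num at this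
  have hu : (2:ℝ) ^ (-(1/3) : ℝ) ≤ 41 / 50 := by
    by_contra hc
    push Not at hc
    have : (41/50 : ℝ) ^ 3 < ((2:ℝ) ^ (-(1/3) : ℝ)) ^ 3 := by gcongr
    rw [h3] at this
    norm_num at this
  unfold d0 h30 h20
  constructor <;> linarith

theorem e0b_kh : 21 / 20 ≤ kh ∧ kh ≤ 23 / 20 := by
  have h := e0b_d0
  unfold kh
  constructor
  · apply Real.le_sqrt_of_sq_le
    linarith [h.1]
  · rw [Real.sqrt_le_left (by norm_num)]
    linarith [h.2]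

theorem e0b_rh : 0 < rh := by
  unfold rh h30 mb
  have : 0 ≤ kh ^ 2 := sq_nonneg _
  apply inv_pos.mpr
  nlinarith

theorem e0b_cc : 0 < cc := by
  unfold cc
  have h1 := e0b_rh
  have h2 : 0 < kh := by linarith [e0b_kh.1]
  positivity

theorem e0b_cd {C : ℝ} {X : ℝ × ℝ} (h : X ∈ CD C) :
    rh / 2 ≤ (chart C X).1 ∧ 0 < (chart C X).1 ∧ (chart C X).1 ≤ 2 * rh ∧ |(chart C X).2| ≤ 1 ∧
      1 ≤ kap0 C (chart C X) ∧ kap0 C (chart C X) ≤ 6 / 5 := by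
  obtain ⟨h1, h2, h3, h4⟩ := h
  have := abs_le.mp h4
  have hk := e0b_kh
  have := e0b_rh
  refine ⟨h1, by linarith, h2, h3, by linarith, by linarith⟩

theorem e0b_near (C : ℝ) (hC : 0 < C ∧ C ≤ 1) : ∃ μ0 L : ℝ, 0 < μ0 ∧ 1 ≤ L ∧
    ∀ μ, 0 < μ → μ < μ0 →
      Near (L * μ ^ 2) (fun p : (ℝ × ℝ) × ℝ × ℝ => kapI C μ (chart C p.1) p.2.1 p.2.2)
        (fun p => kap0 C (chart C p.1)) (CD C ×ˢ (univ ×ˢ JJ)) := by
  obtain ⟨μ0, L, h1, h2, h3⟩ := kap_near C hC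
  refine ⟨μ0, L, h1, h2, fun μ hμ hμ' => ?_⟩
  refine near_mono (h3 μ hμ hμ').2 le_rfl ?_
  first
    | exact subset_rfl
    | exact prod_mono (CD_sub C) subset_rfl

theorem e0b_near_le (C : ℝ) (hC : 0 < C ∧ C ≤ 1) {ε : ℝ} (hε : 0 < ε) : ∃ μ0 : ℝ, 0 < μ0 ∧
    ∀ μ, 0 < μ → μ < μ0 →
      Near ε (fun p : (ℝ × ℝ) × ℝ × ℝ => kapI C μ (chart C p.1) p.2.1 p.2.2)
        (fun p => kap0 C (chart C p.1)) (CD C ×ˢ (univ ×ˢ JJ)) := by
  obtain ⟨μ0, L, h1, h2, h3⟩ := e0b_near C hC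
  refine ⟨min μ0 (Real.sqrt (ε / L)), lt_min h1 (Real.sqrt_pos.mpr (by positivity)),
    fun μ hμ hμ' => ?_⟩
  refine near_mono (h3 μ hμ (lt_of_lt_of_le hμ' (min_le_left _ _))) ?_ subset_rfl
  have h4 : μ < Real.sqrt (ε / L) := lt_of_lt_of_le hμ' (min_le_right _ _)
  have h5 : μ ^ 2 ≤ ε / L := by
    have := (Real.lt_sqrt hμ.le).mp h4
    exact this.le
  have h6 : 0 < L := by linarith
  calc L * μ ^ 2 ≤ L * (ε / L) := by gcongr
    _ = ε := by field_simp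

theorem e0b_kapI (C : ℝ) (hC : 0 < C ∧ C ≤ 1) : ∃ μ0 : ℝ, 0 < μ0 ∧
    ∀ μ, 0 < μ → μ < μ0 → ∀ X ∈ CD C, ∀ N, ∀ b ∈ JJ,
      9 / 10 ≤ kapI C μ (chart C X) N b ∧ kapI C μ (chart C X) N b ≤ 5 / 4 := by
  obtain ⟨μ0, h1, h3⟩ := e0b_near_le C hC (ε := 1 / 20) (by norm_num)
  refine ⟨μ0, h1, fun μ hμ hμ' X hX N b hb => ?_⟩
  have h := (h3 μ hμ hμ').1 (X, N, b) ⟨hX, mem_univ _, hb⟩
  simp only [Real.norm_eq_abs] at h
  have h := abs_le.mp h
  have h' := e0b_cd hX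
  constructor <;> linarith [h'.2.2.2.2.1, h'.2.2.2.2.2, h.1, h.2]

/-! ## the amplitudes -/

theorem e0b_amp_pos {κ : ℝ} (hκ : 0 < κ) (β : ℝ) : 0 < amp κ β := by
  unfold amp
  have : 0 < 1 + κ ^ 2 * β ^ 2 := by positivity
  positivity

theorem e0b_amp_sq {κ : ℝ} (β : ℝ) :
    amp κ β ^ 2 = Real.sqrt (1 + κ ^ 2 * β ^ 2) / (2 * κ ^ 2) := by
  unfold amp
  have h : 0 ≤ 1 + κ ^ 2 * β ^ 2 := by positivity
  rw [div_pow, mul_pow, Real.sq_sqrt (by norm_num)]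
  congr 1
  rw [Real.sqrt_eq_rpow, ← Real.rpow_natCast, ← Real.rpow_mul h]
  norm_num

theorem e0b_amp_le {κ β : ℝ} (h1 : 9 / 10 ≤ κ) (h2 : κ ≤ 5 / 4) (hβ : |β| ≤ 10) :
    amp κ β ≤ 3 := by
  have hκ : 0 < κ := by linarith
  have h := e0b_amp_sq (κ := κ) β
  have h3 : Real.sqrt (1 + κ ^ 2 * β ^ 2) ≤ 14 := by
    rw [Real.sqrt_le_left (by norm_num)]
    have : β ^ 2 ≤ 100 := by
      rw [← sq_abs]; nlinarith [abs_nonneg β]
    have : κ ^ 2 * β ^ 2 ≤ (5/4) ^ 2 * 100 := by gcongr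
    linarith
  have h4 : amp κ β ^ 2 ≤ 9 := by
    rw [h, div_le_iff₀ (by positivity)]
    nlinarith
  nlinarith [e0b_amp_pos hκ β]

theorem e0b_norm_A0 {κ : ℝ} (hκ : 0 < κ) (χ β : ℝ) : ‖A0 κ χ β‖ = amp κ β := by
  unfold A0
  rw [norm_mul, Complex.norm_exp_ofReal_mul_I, mul_one, Complex.norm_real,
    Real.norm_of_nonneg (e0b_amp_pos hκ β).le]

theorem e0b_norm_D0 {κ : ℝ} (hκ : 0 < κ) (χ β : ℝ) : ‖D0 κ χ β‖ = amp κ β := by
  unfold D0
  have ha := e0b_amp_pos hκ β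
  rw [norm_mul, Complex.norm_exp_ofReal_mul_I, mul_one, norm_div, Complex.norm_real,
    Real.norm_of_nonneg (by positivity)]
  have h1 : ‖(-1 - (κ * β : ℝ) * Complex.I : ℂ)‖ = Real.sqrt (1 + κ ^ 2 * β ^ 2) := by
    rw [Complex.norm_def]
    congr 1
    simp [Complex.normSq_apply]
    ring
  rw [h1, div_eq_iff (by positivity)]
  have h2 := e0b_amp_sq (κ := κ) β
  rw [eq_div_iff (by positivity)] at h2
  rw [← h2]
  ring

theorem e0b_AD {κ β : ℝ} (hκ : 0 < κ) (hβ : β ≠ 0) (χ : ℝ) : A0 κ χ β + D0 κ χ β ≠ 0 := by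
  unfold A0 D0
  have ha := e0b_amp_pos hκ β
  rw [← add_mul]
  refine mul_ne_zero ?_ (Complex.exp_ne_zero _)
  intro h
  have h1 := congrArg Complex.im h
  have h2 : (((-1 - (κ * β : ℝ) * Complex.I) / (2 * κ ^ 2 * amp κ β : ℝ) : ℂ)).im =
      - (κ * β) / (2 * κ ^ 2 * amp κ β) := by
    rw [Complex.div_ofReal_im]
    simp
  rw [Complex.add_im, h2, Complex.ofReal_im, Complex.zero_im, zero_add, div_eq_zero_iff] at h1
  rcases h1 with h1 | h1
  · have : κ * β ≠ 0 := mul_ne_zero hκ.ne' hβ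
    exact this (by linarith)
  · have : 0 < 2 * κ ^ 2 * amp κ β := by positivity
    exact this.ne' h1

theorem e0b_enc_eq (C μ : ℝ) (X : ℝ × ℝ) (N β : ℝ) :
    enc C μ X N β =
      let Y := chart C X
      let κ := kapI C μ Y N β
      let u : ℂ := μ * (A0 κ (N + Real.pi) (-β) + D0 κ (N + Real.pi) (-β))
      let v : ℂ := μ * (A0 κ (N + Real.pi) (-β) - D0 κ (N + Real.pi) (-β))
      let w : ℂ := 2 * Real.sqrt (κ ^ 2 / 2 / 2) * v / (starRingEnd ℂ) u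
      ((Y.1 : ℂ) + mb * u ^ 2, (Y.1 : ℂ) - ma * u ^ 2, -(-Uenc C μ Y.1 Y.2 β + mb * w),
        -(-Uenc C μ Y.1 Y.2 β - ma * w)) := rfl

theorem e0b_nc (C : ℝ) (hC : 0 < C ∧ C ≤ 1) : ∃ μ0 : ℝ, 0 < μ0 ∧ ∀ μ, 0 < μ → μ < μ0 →
    ∀ X ∈ CD C, ∀ N, ∀ b ∈ JJ, b ≠ 0 → NC (enc C μ X N b) := by
  obtain ⟨μ0, h1, h3⟩ := e0b_kapI C hC
  have hr := e0b_rh
  refine ⟨min μ0 (Real.sqrt (rh / 100)), lt_min h1 (Real.sqrt_pos.mpr (by positivity)),
    fun μ hμ hμ' X hX N b hb hb0 => ?_⟩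
  have hk := h3 μ hμ (lt_of_lt_of_le hμ' (min_le_left _ _)) X hX N b hb
  have hμ2 : μ ^ 2 < rh / 100 :=
    (Real.lt_sqrt hμ.le).mp (lt_of_lt_of_le hμ' (min_le_right _ _))
  have hcd := e0b_cd hX
  have hb1 : |-b| ≤ 10 := by
    rw [abs_neg, abs_le]; exact hb
  rw [e0b_enc_eq]
  simp only []
  set κ := kapI C μ (chart C X) N b with hκ
  have hκ0 : 0 < κ := by linarith [hk.1]
  have hA := e0b_norm_A0 hκ0 (N + Real.pi) (-b)
  have hD := e0b_norm_D0 hκ0 (N + Real.pi) (-b)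
  have ha := e0b_amp_le hk.1 hk.2 hb1
  have hne := e0b_AD hκ0 (neg_ne_zero.mpr hb0) (N + Real.pi)
  set A := A0 κ (N + Real.pi) (-b)
  set D := D0 κ (N + Real.pi) (-b)
  have hu0 : (μ : ℂ) * (A + D) ≠ 0 := mul_ne_zero (by exact_mod_cast hμ.ne') hne
  have hu : ‖(μ * (A + D) : ℂ) ^ 2‖ ≤ 36 * μ ^ 2 := by
    rw [norm_pow, norm_mul, Complex.norm_real, Real.norm_of_nonneg hμ.le, mul_pow, mul_comm]
    have : ‖A + D‖ ≤ 6 := by
      refine (norm_add_le _ _).trans ?_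
      rw [hA, hD]; linarith
    have : ‖A + D‖ ^ 2 ≤ 36 := by nlinarith [norm_nonneg (A + D)]
    gcongr
  have hu' : ‖(μ * (A + D) : ℂ) ^ 2‖ < rh / 2 := by linarith
  set ξ := (μ * (A + D) : ℂ) ^ 2
  have hξ : ξ ≠ 0 := pow_ne_zero _ hu0
  have hre := abs_le.mp (Complex.abs_re_le_norm ξ)
  refine ⟨?_, ?_, ?_⟩
  · intro h
    have := congrArg Complex.re h
    simp only [x3, mb, Complex.add_re, Complex.ofReal_re, Complex.zero_re, Complex.re_ofReal_mul] at this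
    linarith [hre.1, hcd.1]
  · intro h
    have := congrArg Complex.re h
    simp only [x2, ma, Complex.sub_re, Complex.ofReal_re, Complex.zero_re, Complex.re_ofReal_mul] at this
    linarith [hre.2, hcd.1]
  · intro h
    simp only [x3, x2] at h
    have h' : ((mb : ℂ) + ma) * ξ = 0 := by linear_combination h
    have h'' : (mb : ℂ) + ma = 1 := by
      unfold mb ma; push_cast; norm_num
    rw [h'', one_mul] at h'
    exact hξ h'

theorem e0b_rot_one (y : St) : rot 1 y = y := by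
  simp [rot, x3, x2, u3, u2]

theorem enc_reach_self_pr (C : ℝ) (hC : 0 < C ∧ C ≤ 1) : ∃ μ0 : ℝ, 0 < μ0 ∧ ∀ μ, 0 < μ → μ < μ0 →
    ∀ X ∈ CD C, ∀ N, ∀ b ∈ JJ, b ≠ 0 →
      ReachR (μ ^ 2) (enc C μ X N b) (enc C μ X N b) := by
  obtain ⟨μ0, h1, h3⟩ := e0b_nc C hC
  refine ⟨μ0, h1, fun μ hμ hμ' X hX N b hb hb0 => ?_⟩
  refine ⟨1, by simp, 0, le_rfl, fun _ => enc C μ X N b, ?_, rfl, ?_⟩
  · intro t ht
    refine ⟨h3 μ hμ hμ' X hX N b hb hb0, ?_⟩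
    have ht0 : t = 0 := le_antisymm ht.2 ht.1
    subst ht0
    rw [Icc_self]
    exact HasFDerivWithinAt.of_finite (finite_singleton _)
  · rw [e0b_rot_one]

/-! ## period -/

theorem e0b_sign (k : ℤ) : ∃ s : ℝ, s ^ 2 = 1 ∧
    ∀ χ : ℝ, Complex.exp (((χ + 2 * Real.pi * k) / 2 : ℝ) * Complex.I) =
      s * Complex.exp ((χ / 2 : ℝ) * Complex.I) := by
  have h1 : ∀ χ : ℝ, Complex.exp (((χ + 2 * Real.pi * k) / 2 : ℝ) * Complex.I) =
      (-1) ^ k * Complex.exp ((χ / 2 : ℝ) * Complex.I) := by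
    intro χ
    rw [← Complex.exp_pi_mul_I, ← Complex.exp_int_mul, ← Complex.exp_add]
    congr 1
    push_cast
    ring
  rcases Int.even_or_odd k with hk | hk
  · refine ⟨1, by norm_num, fun χ => ?_⟩
    rw [h1, Even.neg_one_zpow hk]
    simp
  · refine ⟨-1, by norm_num, fun χ => ?_⟩
    rw [h1, Odd.neg_one_zpow hk]
    simp

theorem e0b_AD_period (k : ℤ) : ∃ s : ℝ, s ^ 2 = 1 ∧ ∀ κ χ β : ℝ,
    A0 κ (χ + 2 * Real.pi * k) β = s * A0 κ χ β ∧ D0 κ (χ + 2 * Real.pi * k) β = s * D0 κ χ β := by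
  obtain ⟨s, h1, h2⟩ := e0b_sign k
  refine ⟨s, h1, fun κ χ β => ⟨?_, ?_⟩⟩
  · unfold A0
    rw [h2]; ring
  · unfold D0
    rw [h2]; ring

theorem e0b_kapI_period (C μ : ℝ) (Y : ℝ × ℝ) (N β : ℝ) (k : ℤ) :
    kapI C μ Y (N + 2 * Real.pi * k) β = kapI C μ Y N β := by
  obtain ⟨s, h1, h2⟩ := e0b_AD_period k
  have h1' : (s : ℂ) ^ 2 = 1 := by exact_mod_cast h1
  have h3 : ∀ κ : ℝ, (A0 κ (N + 2 * Real.pi * k + Real.pi) (-β) +
      D0 κ (N + 2 * Real.pi * k + Real.pi) (-β)) ^ 2 =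
      (A0 κ (N + Real.pi) (-β) + D0 κ (N + Real.pi) (-β)) ^ 2 := by
    intro κ
    have e : N + 2 * Real.pi * k + Real.pi = (N + Real.pi) + 2 * Real.pi * k := by ring
    rw [e, (h2 _ _ _).1, (h2 _ _ _).2, ← mul_add, mul_pow, h1', one_mul]
  unfold kapI
  simp only [h3]

theorem enc_period_pr (C μ : ℝ) (X : Pl) (N β : ℝ) (k : ℤ) :
    enc C μ X (N + 2 * Real.pi * k) β = enc C μ X N β := by
  obtain ⟨s, h1, h2⟩ := e0b_AD_period k
  have h1' : (s : ℂ) ^ 2 = 1 := by exact_mod_cast h1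
  have hs : (s : ℂ) ≠ 0 := by
    intro h; rw [h] at h1'; norm_num at h1'
  have e : N + 2 * Real.pi * k + Real.pi = (N + Real.pi) + 2 * Real.pi * k := by ring
  rw [e0b_enc_eq, e0b_enc_eq]
  simp only [e0b_kapI_period]
  simp only [e, (h2 _ _ _).1, (h2 _ _ _).2]
  have hu : ∀ A D : ℂ, ((μ : ℂ) * (s * A + s * D)) = s * (μ * (A + D)) := by intro A D; ring
  have hv : ∀ A D : ℂ, ((μ : ℂ) * (s * A - s * D)) = s * (μ * (A - D)) := by intro A D; ring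
  have hq : ∀ a u v : ℂ, a * (s * v) / (starRingEnd ℂ) (s * u) = a * v / (starRingEnd ℂ) u := by
    intro a u v
    rw [map_mul, Complex.conj_ofReal]
    rw [show a * (s * v) = s * (a * v) by ring, mul_div_mul_left _ _ hs]
  simp only [hu, hv, hq, mul_pow, h1', one_mul]

/-! ## regularity of `kap0` -/

/-- the radicand -/
def e0b_rad (C : ℝ) (Y : ℝ × ℝ) : ℝ :=
  2 / (ma * mb) * (E0 + 1 / Y.1 - (Y.2 ^ 2 + C ^ 2 / Y.1 ^ 2) / 2)

theorem e0b_rad_smooth (C : ℝ) : ContDiffOn ℝ 2 (e0b_rad C) {Y : ℝ × ℝ | 0 < Y.1} := by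
  unfold e0b_rad
  intro Y hY
  have h : Y.1 ≠ 0 := ne_of_gt hY
  apply ContDiffAt.contDiffWithinAt
  refine contDiffAt_const.mul ?_
  refine ContDiffAt.sub ?_ ?_
  · refine contDiffAt_const.add ?_
    exact contDiffAt_const.div contDiffAt_fst h
  · refine ContDiffAt.div_const ?_ _
    refine ContDiffAt.add (contDiffAt_snd.pow 2) ?_
    exact contDiffAt_const.div (contDiffAt_fst.pow 2) (pow_ne_zero 2 h)

theorem e0b_rad_reg (C : ℝ) : ∃ L : ℝ, 0 ≤ L ∧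
    Reg L (e0b_rad C) (Icc ((rh / 2, -1) : ℝ × ℝ) (2 * rh, 1)) := by
  have hr := e0b_rh
  refine reg_of_contDiffOn (isOpen_lt continuous_const continuous_fst) (e0b_rad_smooth C)
    isCompact_Icc (convex_Icc _ _) ?_
  intro Y hY
  have := hY.1.1
  simp only [mem_setOf_eq]
  exact lt_of_lt_of_le (by positivity) this

theorem e0b_sqrt_reg : ∃ L : ℝ, 0 ≤ L ∧ Reg L Real.sqrt (Icc (1:ℝ) (36 / 25)) := by
  refine reg_of_contDiffOn isOpen_Ioi (U := Ioi (0:ℝ)) ?_ isCompact_Icc (convex_Icc _ _) ?_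
  · intro x hx
    exact (Real.contDiffAt_sqrt (ne_of_gt hx)).contDiffWithinAt
  · intro x hx
    exact lt_of_lt_of_le one_pos hx.1

theorem e0b_chart_reg (C : ℝ) : ∃ L : ℝ, 0 ≤ L ∧ Reg L (chart C) univ := by
  have hr := e0b_rh
  have hc := e0b_cc
  set M : ℝ := |C / (cc * rh)| + 3 * |C / rh| with hM
  have hM0 : 0 ≤ M := by positivity
  have hb : ∀ v : ℝ × ℝ, ‖(C / (cc * rh) * v.1, C / rh * (2 * v.1 + v.2))‖ ≤ M * ‖v‖ := by
    intro v
    have h1 : |v.1| ≤ ‖v‖ := norm_fst_le v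
    have h2 : |v.2| ≤ ‖v‖ := norm_snd_le v
    rw [Prod.norm_def, max_le_iff]
    simp only [Real.norm_eq_abs, abs_mul]
    constructor
    · calc |C / (cc * rh)| * |v.1| ≤ |C / (cc * rh)| * ‖v‖ := by gcongr
        _ ≤ M * ‖v‖ := by
          gcongr
          rw [hM]; linarith [abs_nonneg (C / rh)]
    · have h3 : |2 * v.1 + v.2| ≤ 3 * ‖v‖ := by
        refine (abs_add_le _ _).trans ?_
        rw [abs_mul, abs_two]; linarith
      calc |C / rh| * |2 * v.1 + v.2| ≤ |C / rh| * (3 * ‖v‖) := by gcongr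
        _ = 3 * |C / rh| * ‖v‖ := by ring
        _ ≤ M * ‖v‖ := by
          gcongr
          rw [hM]; linarith [abs_nonneg (C / (cc * rh))]
  refine ⟨M, hM0, ?_, ?_⟩
  · intro x _ y _
    have : chart C x - chart C y =
        (C / (cc * rh) * (x - y).1, C / rh * (2 * (x - y).1 + (x - y).2)) := by
      unfold chart
      ext
      · simp only [Prod.fst_sub]; field_simp; ring
      · simp only [Prod.snd_sub, Prod.fst_sub]; field_simp; ring
    rw [this, dist_eq_norm]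
    exact hb _
  · intro x _ y _ x' _ y' _
    have : chart C x - chart C y - chart C x' + chart C y' =
        (C / (cc * rh) * (x - y - x' + y').1, C / rh * (2 * (x - y - x' + y').1 + (x - y - x' + y').2)) := by
      unfold chart
      ext
      · simp only [Prod.fst_sub, Prod.fst_add]; field_simp; ring
      · simp only [Prod.snd_sub, Prod.fst_sub, Prod.fst_add, Prod.snd_add]; field_simp; ring
    rw [this]
    refine (hb _).trans ?_
    have : 0 ≤ M * (‖x - x'‖ + ‖y - y'‖) * ‖x' - y'‖ := by positivity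
    linarith

theorem kap0_reg_pr (C : ℝ) (hC : 0 < C ∧ C ≤ 1) : ∃ L : ℝ, 0 ≤ L ∧
    Reg L (fun X : Pl => kap0 C (chart C X)) (CD C) := by
  obtain ⟨L1, h1, r1⟩ := e0b_chart_reg C
  obtain ⟨L2, h2, r2⟩ := e0b_rad_reg C
  obtain ⟨L3, h3, r3⟩ := e0b_sqrt_reg
  have r1' : Reg L1 (chart C) (CD C) := reg_mono r1 le_rfl (subset_univ _)
  have r4 := reg_comp r1' r2 (fun X hX => by
    have := e0b_cd hX
    have h4 := abs_le.mp this.2.2.2.1
    exact ⟨⟨this.1, h4.1⟩, ⟨this.2.2.1, h4.2⟩⟩) h1 h2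
  have h5 : 0 ≤ L2 * (L1 + L1 ^ 2) := by positivity
  have r5 := reg_comp r4 r3 (fun X hX => by
    have := e0b_cd hX
    have h6 := this.2.2.2.2.1
    have h7 := this.2.2.2.2.2
    change 1 ≤ Real.sqrt (e0b_rad C (chart C X)) at h6
    change Real.sqrt (e0b_rad C (chart C X)) ≤ 6 / 5 at h7
    rw [Real.one_le_sqrt] at h6
    rw [Real.sqrt_le_left (by norm_num)] at h7
    exact ⟨h6, by norm_num at h7; exact h7⟩) h5 h3
  exact ⟨_, by positivity, r5⟩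

theorem kap_knear_pr (C : ℝ) (hC : 0 < C ∧ C ≤ 1) (L : ℝ) (O : Set Pl) (hO : O ⊆ CD C)
    (hL : Lip L (fun X => kap0 C (chart C X)) O) (ε : ℝ) (hε : 0 < ε) : ∃ μ0 : ℝ, 0 < μ0 ∧
    ∀ μ, 0 < μ → μ < μ0 → KNear ε L O (hs C μ).K (fun X => kap0 C (chart C X)) := by
  obtain ⟨μ0, h1, h3⟩ := e0b_near_le C hC hε
  refine ⟨μ0, h1, fun μ hμ hμ' => ⟨?_, hL, ?_, ?_⟩⟩
  · exact near_mono (h3 μ hμ hμ') le_rfl (prod_mono hO subset_rfl)
  · intro X hX
    exact (e0b_cd (hO hX)).2.2.2.2.1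
  · intro X hX
    exact (e0b_cd (hO hX)).2.2.2.2.2

/-! ## continuity -/

theorem e0b_kap0_cont (C : ℝ) (hC : 0 < C ∧ C ≤ 1) {T : Set (Pl × ℝ × ℝ)}
    (hT : ∀ p ∈ T, p.1 ∈ CD C) :
    ContinuousOn (fun p : Pl × ℝ × ℝ => kap0 C (chart C p.1)) T := by
  obtain ⟨L, h0, h1, -⟩ := kap0_reg_pr C hC
  have h2 : ContinuousOn (fun X : Pl => kap0 C (chart C X)) (CD C) := by
    have : LipschitzOnWith L.toNNReal (fun X : Pl => kap0 C (chart C X)) (CD C) := by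
      refine LipschitzOnWith.of_dist_le_mul fun x hx y hy => ?_
      rw [dist_eq_norm, Real.coe_toNNReal _ h0]
      exact h1 x hx y hy
    exact this.continuousOn
  exact h2.comp continuousOn_fst hT

theorem e0b_kapI_cont (C : ℝ) (hC : 0 < C ∧ C ≤ 1) : ∃ μ0 : ℝ, 0 < μ0 ∧ ∀ μ, 0 < μ → μ < μ0 →
    ContinuousOn (fun p : Pl × ℝ × ℝ => kapI C μ (chart C p.1) p.2.1 p.2.2)
      (CD C ×ˢ (univ ×ˢ JJ)) := by
  obtain ⟨μ0, h1, h3⟩ := e0b_near_le C hC (ε := 1) (by norm_num)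
  refine ⟨μ0, h1, fun μ hμ hμ' => ?_⟩
  have h4 := (h3 μ hμ hμ').2
  have h5 : ContinuousOn (fun p : Pl × ℝ × ℝ => kapI C μ (chart C p.1) p.2.1 p.2.2 -
      kap0 C (chart C p.1)) (CD C ×ˢ (univ ×ˢ JJ)) := by
    have : LipschitzOnWith 1 (fun p : Pl × ℝ × ℝ => kapI C μ (chart C p.1) p.2.1 p.2.2 -
      kap0 C (chart C p.1)) (CD C ×ˢ (univ ×ˢ JJ)) := by
      refine LipschitzOnWith.of_dist_le_mul fun x hx y hy => ?_
      rw [dist_eq_norm]
      exact h4 x hx y hy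
    exact this.continuousOn
  have h6 := e0b_kap0_cont C hC (T := CD C ×ˢ (univ ×ˢ JJ)) (fun p hp => hp.1)
  refine (h5.add h6).congr fun p _ => ?_
  simp only [Pi.add_apply]
  ring

theorem e0b_chart_cont (C : ℝ) : Continuous (chart C) := by
  unfold chart
  fun_prop

theorem enc_cont_pr (C : ℝ) (hC : 0 < C ∧ C ≤ 1) : ∃ μ0 : ℝ, 0 < μ0 ∧ ∀ μ, 0 < μ → μ < μ0 →
    ContinuousOn (fun p : Pl × ℝ × ℝ => enc C μ p.1 p.2.1 p.2.2)
      (CD C ×ˢ (univ ×ˢ {b | b ∈ JJ ∧ b ≠ 0})) := by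
  obtain ⟨μ0, h1, h3⟩ := e0b_kapI C hC
  obtain ⟨μ1, h1', h4⟩ := e0b_kapI_cont C hC
  refine ⟨min μ0 μ1, lt_min h1 h1', fun μ hμ hμ' => ?_⟩
  have h3 := h3 μ hμ (lt_of_lt_of_le hμ' (min_le_left _ _))
  set S : Set (Pl × ℝ × ℝ) := CD C ×ˢ (univ ×ˢ {b | b ∈ JJ ∧ b ≠ 0}) with hS
  have hκ : ContinuousOn (fun p : Pl × ℝ × ℝ => kapI C μ (chart C p.1) p.2.1 p.2.2) S :=
    (h4 μ hμ (lt_of_lt_of_le hμ' (min_le_right _ _))).mono
      (prod_mono subset_rfl (prod_mono subset_rfl fun b hb => hb.1))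
  have hκ0 : ∀ p ∈ S, 0 < kapI C μ (chart C p.1) p.2.1 p.2.2 := fun p hp => by
    have := (h3 p.1 hp.1 p.2.1 p.2.2 hp.2.2.1).1
    linarith
  have hb0 : ∀ p ∈ S, p.2.2 ≠ 0 := fun p hp => hp.2.2.2
  have hr0 : ∀ p ∈ S, (chart C p.1).1 ≠ 0 := fun p hp => (e0b_cd hp.1).2.1.ne'
  have hch : Continuous (fun p : Pl × ℝ × ℝ => chart C p.1) :=
    (e0b_chart_cont C).comp continuous_fst
  simp only [e0b_enc_eq]
  set κ : Pl × ℝ × ℝ → ℝ := fun p => kapI C μ (chart C p.1) p.2.1 p.2.2 with hκd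
  have hamp : ContinuousOn (fun p : Pl × ℝ × ℝ => amp (κ p) (-p.2.2)) S := by
    unfold amp
    refine ContinuousOn.div ?_ ?_ ?_
    · refine ContinuousOn.rpow_const ?_ ?_
      · exact continuousOn_const.add ((hκ.pow 2).mul
          ((continuous_snd.comp continuous_snd).neg.pow 2).continuousOn)
      · intro p _; right; norm_num
    · exact continuousOn_const.mul hκ
    · intro p hp
      have := hκ0 p hp
      positivity
  have hex : Continuous (fun p : Pl × ℝ × ℝ =>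
      Complex.exp (((p.2.1 + Real.pi) / 2 : ℝ) * Complex.I)) := by
    fun_prop
  have hA : ContinuousOn (fun p : Pl × ℝ × ℝ => A0 (κ p) (p.2.1 + Real.pi) (-p.2.2)) S := by
    unfold A0
    exact (Complex.continuous_ofReal.comp_continuousOn hamp).mul hex.continuousOn
  have hD : ContinuousOn (fun p : Pl × ℝ × ℝ => D0 (κ p) (p.2.1 + Real.pi) (-p.2.2)) S := by
    unfold D0
    refine ContinuousOn.mul (ContinuousOn.div ?_ ?_ ?_) hex.continuousOn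
    · refine ContinuousOn.sub continuousOn_const (ContinuousOn.mul ?_ continuousOn_const)
      exact Complex.continuous_ofReal.comp_continuousOn
        (hκ.mul (continuous_snd.comp continuous_snd).neg.continuousOn)
    · exact Complex.continuous_ofReal.comp_continuousOn ((continuousOn_const.mul (hκ.pow 2)).mul hamp)
    · intro p hp
      have h := hκ0 p hp
      have h' := e0b_amp_pos h (-p.2.2)
      have : 0 < 2 * κ p ^ 2 * amp (κ p) (-p.2.2) := by positivity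
      exact_mod_cast this.ne'
  have hu : ContinuousOn (fun p : Pl × ℝ × ℝ => (μ : ℂ) * (A0 (κ p) (p.2.1 + Real.pi) (-p.2.2) +
      D0 (κ p) (p.2.1 + Real.pi) (-p.2.2))) S := continuousOn_const.mul (hA.add hD)
  have hv : ContinuousOn (fun p : Pl × ℝ × ℝ => (μ : ℂ) * (A0 (κ p) (p.2.1 + Real.pi) (-p.2.2) -
      D0 (κ p) (p.2.1 + Real.pi) (-p.2.2))) S := continuousOn_const.mul (hA.sub hD)
  have hu0 : ∀ p ∈ S, (μ : ℂ) * (A0 (κ p) (p.2.1 + Real.pi) (-p.2.2) +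
      D0 (κ p) (p.2.1 + Real.pi) (-p.2.2)) ≠ 0 := fun p hp =>
    mul_ne_zero (by exact_mod_cast hμ.ne') (e0b_AD (hκ0 p hp) (neg_ne_zero.mpr (hb0 p hp)) _)
  have hw : ContinuousOn (fun p : Pl × ℝ × ℝ => 2 * (Real.sqrt (κ p ^ 2 / 2 / 2) : ℂ) *
      ((μ : ℂ) * (A0 (κ p) (p.2.1 + Real.pi) (-p.2.2) -
      D0 (κ p) (p.2.1 + Real.pi) (-p.2.2))) / (starRingEnd ℂ) ((μ : ℂ) * (A0 (κ p) (p.2.1 + Real.pi) (-p.2.2) +
      D0 (κ p) (p.2.1 + Real.pi) (-p.2.2)))) S := by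
    refine ContinuousOn.div (ContinuousOn.mul (continuousOn_const.mul ?_) hv) ?_ ?_
    · exact Complex.continuous_ofReal.comp_continuousOn
        (Real.continuous_sqrt.comp_continuousOn (((hκ.pow 2).div_const 2).div_const 2))
    · exact Complex.continuous_conj.comp_continuousOn hu
    · intro p hp
      rw [map_ne_zero]
      exact hu0 p hp
  have hR : ContinuousOn (fun p : Pl × ℝ × ℝ => (((chart C p.1).1 : ℝ) : ℂ)) S :=
    (Complex.continuous_ofReal.comp (continuous_fst.comp hch)).continuousOn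
  have hU : ContinuousOn (fun p : Pl × ℝ × ℝ => Uenc C μ (chart C p.1).1 (chart C p.1).2 p.2.2) S := by
    unfold Uenc
    refine ContinuousOn.add ?_ (ContinuousOn.mul ?_ continuousOn_const)
    · exact (Complex.continuous_ofReal.comp (continuous_snd.comp hch)).continuousOn
    · refine Complex.continuous_ofReal.comp_continuousOn (ContinuousOn.div ?_ ?_ hr0)
      · exact (continuous_const.sub (continuous_const.mul
          (continuous_snd.comp continuous_snd))).continuousOn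
      · exact (continuous_fst.comp hch).continuousOn
  refine ContinuousOn.prodMk ?_ (ContinuousOn.prodMk ?_ (ContinuousOn.prodMk ?_ ?_))
  · exact hR.add (continuousOn_const.mul (hu.pow 2))
  · exact hR.sub (continuousOn_const.mul (hu.pow 2))
  · exact (hU.neg.add (continuousOn_const.mul hw)).neg
  · exact (hU.neg.sub (continuousOn_const.mul hw)).neg

end

end Pool.Agent.HS

namespace Pool.Agent.HS
open Set Filter Topology Classical

theorem enc_reach_self (C : ℝ) (hC : 0 < C ∧ C ≤ 1) : ∃ μ0 : ℝ, 0 < μ0 ∧ ∀ μ, 0 < μ → μ < μ0 →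
    ∀ X ∈ CD C, ∀ N, ∀ b ∈ JJ, b ≠ 0 →
      ReachR (μ ^ 2) (enc C μ X N b) (enc C μ X N b) :=
  @Pool.Agent.HS.enc_reach_self_pr C hC

end Pool.Agent.HS

namespace Pool.Agent.HS
open Set Filter Topology Classical

theorem enc_cont (C : ℝ) (hC : 0 < C ∧ C ≤ 1) : ∃ μ0 : ℝ, 0 < μ0 ∧ ∀ μ, 0 < μ → μ < μ0 →
    ContinuousOn (fun p : Pl × ℝ × ℝ => enc C μ p.1 p.2.1 p.2.2)
      (CD C ×ˢ (univ ×ˢ {b | b ∈ JJ ∧ b ≠ 0})) :=
  @Pool.Agent.HS.enc_cont_pr C hC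

end Pool.Agent.HS

namespace Pool.Agent.HS
open Set Filter Topology Classical

theorem enc_period (C μ : ℝ) (X : Pl) (N β : ℝ) (k : ℤ) :
    enc C μ X (N + 2 * Real.pi * k) β = enc C μ X N β :=
  @Pool.Agent.HS.enc_period_pr C μ X N β k

end Pool.Agent.HS

namespace Pool.Agent.HS
open Set Filter Topology Classical

theorem kap_knear (C : ℝ) (hC : 0 < C ∧ C ≤ 1) (L : ℝ) (O : Set Pl) (hO : O ⊆ CD C)
    (hL : Lip L (fun X => kap0 C (chart C X)) O) (ε : ℝ) (hε : 0 < ε) : ∃ μ0 : ℝ, 0 < μ0 ∧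
    ∀ μ, 0 < μ → μ < μ0 → KNear ε L O (hs C μ).K (fun X => kap0 C (chart C X)) :=
  @Pool.Agent.HS.kap_knear_pr C hC L O hO hL ε hε

end Pool.Agent.HS

namespace Pool.Agent.HS
open Set Filter Topology Classical

theorem kap0_reg (C : ℝ) (hC : 0 < C ∧ C ≤ 1) : ∃ L : ℝ, 0 ≤ L ∧
    Reg L (fun X : Pl => kap0 C (chart C X)) (CD C) :=
  @Pool.Agent.HS.kap0_reg_pr C hC

end Pool.Agent.HS
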