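import Pool.Agent.Lib_helper60.HSF.D_WI
import Pool.Agent.Lib_helper60.HSF.A_CB

/-!
# Project HS, block C1: small calculus lemmas
-/

namespace Pool.Agent.HS

noncomputable section

open Set Filter Topology Classical

theorem reg_of_compact_pr {E F : Type*} [NormedAddCommGroup E] [NormedSpace ℝ E]
    [NormedAddCommGroup F] [NormedSpace ℝ F] [FiniteDimensional ℝ E] {f : E → F} {U K : Set E}
    (hU : IsOpen U) (hf : ContDiffOn ℝ 2 f U) (hK : IsCompact K) (hKU : K ⊆ U) :
    ∃ L : ℝ, 0 ≤ L ∧ Reg L f K := by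
  obtain ⟨f', hf', hs, V, hV, hKV, hVU, he⟩ := exists_cutoff hU hf hK hKU
  obtain ⟨L, hL, hR⟩ := reg_of_compactSupport hf' hs
  refine ⟨L, hL, ?_, ?_⟩
  · intro p hp q hq
    have := hR.1 p (mem_univ _) q (mem_univ _)
    rwa [he (hKV hp), he (hKV hq)] at this
  · intro x hx y hy x' hx' y' hy'
    have := hR.2 x (mem_univ _) y (mem_univ _) x' (mem_univ _) y' (mem_univ _)
    rwa [he (hKV hx), he (hKV hy), he (hKV hx'), he (hKV hy')] at this

theorem c1_exp (x : ℝ) : ‖Complex.exp (x * Complex.I) - 1‖ ≤ |x| := by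
  have := Real.norm_exp_I_mul_ofReal_sub_one_le (x := x)
  rwa [mul_comm, Real.norm_eq_abs] at this

theorem c1_exp2 (x y : ℝ) :
    ‖Complex.exp (x * Complex.I) - Complex.exp (y * Complex.I)‖ ≤ |x - y| := by
  have h : Complex.exp (x * Complex.I) - Complex.exp (y * Complex.I) =
      Complex.exp (y * Complex.I) * (Complex.exp ((x - y : ℝ) * Complex.I) - 1) := by
    rw [mul_sub, mul_one, ← Complex.exp_add]
    congr 2
    push_cast
    ring
  rw [h, norm_mul, Complex.norm_exp_ofReal_mul_I, one_mul]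
  exact c1_exp _

theorem c1_exp4 (x y x' y' : ℝ) :
    ‖Complex.exp (x * Complex.I) - Complex.exp (y * Complex.I) - Complex.exp (x' * Complex.I) +
      Complex.exp (y' * Complex.I)‖ ≤ |x - y - x' + y'| + |y - y'| * |x' - y'| := by
  have h : Complex.exp (x * Complex.I) - Complex.exp (y * Complex.I) -
      Complex.exp (x' * Complex.I) + Complex.exp (y' * Complex.I) =
      Complex.exp (y * Complex.I) * (Complex.exp ((x - y : ℝ) * Complex.I) -
        Complex.exp ((x' - y' : ℝ) * Complex.I)) +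
      (Complex.exp (y * Complex.I) - Complex.exp (y' * Complex.I)) *
        (Complex.exp ((x' - y' : ℝ) * Complex.I) - 1) := by
    have e1 : Complex.exp (y * Complex.I) * Complex.exp ((x - y : ℝ) * Complex.I) =
        Complex.exp (x * Complex.I) := by
      rw [← Complex.exp_add]; congr 1; push_cast; ring
    have e2 : Complex.exp (y' * Complex.I) * Complex.exp ((x' - y' : ℝ) * Complex.I) =
        Complex.exp (x' * Complex.I) := by
      rw [← Complex.exp_add]; congr 1; push_cast; ring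
    linear_combination e2 - e1
  rw [h]
  refine (norm_add_le _ _).trans ?_
  rw [norm_mul, norm_mul, Complex.norm_exp_ofReal_mul_I, one_mul]
  have h1 := c1_exp2 (x - y) (x' - y')
  have h2 := c1_exp2 y y'
  have h3 := c1_exp (x' - y')
  have e : x - y - (x' - y') = x - y - x' + y' := by ring
  rw [e] at h1
  exact add_le_add h1 (mul_le_mul h2 h3 (norm_nonneg _) (abs_nonneg _))

theorem reg_cexp_pr : Reg 1 (fun x : ℝ => Complex.exp (x * Complex.I)) univ := by
  refine ⟨fun p _ q _ => ?_, fun x _ y _ x' _ y' _ => ?_⟩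
  · rw [one_mul, Real.dist_eq]
    exact c1_exp2 p q
  · refine (c1_exp4 x y x' y').trans ?_
    simp only [Real.norm_eq_abs]
    have h1 : 0 ≤ |x - x'| * |x' - y'| := by positivity
    nlinarith

theorem reg_cexp_half_pr :
    Reg 1 (fun x : ℝ => Complex.exp ((x / 2 : ℝ) * Complex.I)) univ := by
  refine ⟨fun p _ q _ => ?_, fun x _ y _ x' _ y' _ => ?_⟩
  · rw [one_mul, Real.dist_eq]
    have h := c1_exp2 (p / 2) (q / 2)
    have e : p / 2 - q / 2 = (p - q) / 2 := by ring
    rw [e, abs_div, abs_two] at h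
    have := abs_nonneg (p - q)
    exact h.trans (by linarith)
  · have h := c1_exp4 (x / 2) (y / 2) (x' / 2) (y' / 2)
    refine h.trans ?_
    have e1 : x / 2 - y / 2 - x' / 2 + y' / 2 = (x - y - x' + y') / 2 := by ring
    have e2 : y / 2 - y' / 2 = (y - y') / 2 := by ring
    have e3 : x' / 2 - y' / 2 = (x' - y') / 2 := by ring
    rw [e1, e2, e3, abs_div, abs_div, abs_div, abs_two]
    simp only [Real.norm_eq_abs]
    have h1 : 0 ≤ |x - x'| * |x' - y'| := by positivity
    have h2 : 0 ≤ |y - y'| * |x' - y'| := by positivity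
    have h3 : 0 ≤ |x - y - x' + y'| := abs_nonneg _
    nlinarith

theorem ode_unique_cut_pr {E : Type*} [NormedAddCommGroup E] [NormedSpace ℝ E]
    {a b K : ℝ} (hab : a ≤ b) {f f' : ℝ → E → E} {Ω : Set E} (hΩ : IsOpen Ω)
    (hK : ∀ t ∈ Icc a b, ∀ x y, ‖f' t x - f' t y‖ ≤ K * ‖x - y‖)
    (hff : ∀ t ∈ Icc a b, ∀ x ∈ Ω, f t x = f' t x)
    {V V' : ℝ → E} (hV : ∀ t ∈ Icc a b, HasDerivWithinAt V (f t (V t)) (Icc a b) t)
    (hV' : ∀ t ∈ Icc a b, HasDerivWithinAt V' (f' t (V' t)) (Icc a b) t)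
    (hin : ∀ t ∈ Icc a b, V' t ∈ Ω) (h0 : V a = V' a) : ∀ t ∈ Icc a b, V t = V' t := by
  have hVc : ContinuousOn V (Icc a b) := fun t ht => (hV t ht).continuousWithinAt
  have hVc' : ContinuousOn V' (Icc a b) := fun t ht => (hV' t ht).continuousWithinAt
  have hsub : Icc a b ⊆ {t | V t = V' t} := by
    refine IsClosed.Icc_subset_of_forall_exists_gt ?_ h0 ?_
    · have h1 : IsClosed (Icc a b ∩ (fun t => V t - V' t) ⁻¹' {0}) :=
        (hVc.sub hVc').preimage_isClosed_of_isClosed isClosed_Icc isClosed_singleton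
      have h2 : {t | V t = V' t} ∩ Icc a b = Icc a b ∩ (fun t => V t - V' t) ⁻¹' {0} := by
        ext t
        simp only [mem_inter_iff, mem_ofPred_eq, mem_preimage, mem_singleton_iff, sub_eq_zero]
        tauto
      rw [h2]
      exact h1
    · rintro t₀ ⟨ht0, hat, htb⟩ y hy
      have hy : t₀ < y := hy
      have ht0 : V t₀ = V' t₀ := ht0
      have htI : t₀ ∈ Icc a b := ⟨hat, htb.le⟩
      have hΩ0 : V t₀ ∈ Ω := by rw [ht0]; exact hin t₀ htI
      have hev : ∀ᶠ t in 𝓝[Icc a b] t₀, V t ∈ Ω := (hVc t₀ htI) (hΩ.mem_nhds hΩ0)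
      rw [Filter.Eventually, Metric.mem_nhdsWithin_iff] at hev
      obtain ⟨r, hr, hball⟩ := hev
      set z := min (min (t₀ + r / 2) y) b with hz
      have hz1 : t₀ < z := by
        rw [hz]
        exact lt_min (lt_min (by linarith) hy) htb
      have hz2 : z ≤ y := (min_le_left _ _).trans (min_le_right _ _)
      have hz3 : z ≤ b := min_le_right _ _
      have hz4 : z ≤ t₀ + r / 2 := (min_le_left _ _).trans (min_le_left _ _)
      have hsubI : Icc t₀ z ⊆ Icc a b := Icc_subset_Icc hat hz3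
      have hVΩ : ∀ t ∈ Icc t₀ z, V t ∈ Ω := by
        intro t ht
        refine hball ⟨?_, hsubI ht⟩
        rw [Metric.mem_ball, Real.dist_eq, abs_of_nonneg (by linarith [ht.1])]
        linarith [ht.2]
      have hkey : EqOn V V' (Icc t₀ z) := by
        refine ODE_solution_unique_of_mem_Icc_right (v := f') (s := fun _ => univ)
          (K := (max K 0).toNNReal) ?_ (hVc.mono hsubI) ?_ (fun _ _ => mem_univ _)
          (hVc'.mono hsubI) ?_ (fun _ _ => mem_univ _) ht0
        · intro t ht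
          refine LipschitzOnWith.of_dist_le_mul fun x _ y _ => ?_
          rw [dist_eq_norm, dist_eq_norm, Real.coe_toNNReal _ (le_max_right _ _)]
          refine (hK t (hsubI ⟨ht.1, ht.2.le⟩) x y).trans ?_
          exact mul_le_mul_of_nonneg_right (le_max_left _ _) (norm_nonneg _)
        · intro t ht
          have htI' : t ∈ Icc a b := hsubI ⟨ht.1, ht.2.le⟩
          have h1 := hV t htI'
          rw [hff t htI' _ (hVΩ t ⟨ht.1, ht.2.le⟩)] at h1
          exact h1.mono_of_mem_nhdsWithin (Icc_mem_nhdsGE_of_mem ⟨htI'.1, ht.2.trans_le hz3⟩)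
        · intro t ht
          have htI' : t ∈ Icc a b := hsubI ⟨ht.1, ht.2.le⟩
          exact (hV' t htI').mono_of_mem_nhdsWithin
            (Icc_mem_nhdsGE_of_mem ⟨htI'.1, ht.2.trans_le hz3⟩)
      exact ⟨z, hkey ⟨hz1.le, le_rfl⟩, hz1, hz2⟩
  exact hsub

end

end Pool.Agent.HS

namespace Pool.Agent.HS
open Set Filter Topology Classical

theorem reg_of_compact {E F : Type*} [NormedAddCommGroup E] [NormedSpace ℝ E]
    [NormedAddCommGroup F] [NormedSpace ℝ F] [FiniteDimensional ℝ E] {f : E → F} {U K : Set E}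
    (hU : IsOpen U) (hf : ContDiffOn ℝ 2 f U) (hK : IsCompact K) (hKU : K ⊆ U) :
    ∃ L : ℝ, 0 ≤ L ∧ Reg L f K :=
  @Pool.Agent.HS.reg_of_compact_pr E F _ _ _ _ _ f U K hU hf hK hKU

end Pool.Agent.HS

namespace Pool.Agent.HS
open Set Filter Topology Classical

theorem reg_cexp : Reg 1 (fun x : ℝ => Complex.exp (x * Complex.I)) univ :=
  @Pool.Agent.HS.reg_cexp_pr

end Pool.Agent.HS

namespace Pool.Agent.HS
open Set Filter Topology Classical

theorem reg_cexp_half : Reg 1 (fun x : ℝ => Complex.exp ((x / 2 : ℝ) * Complex.I)) univ :=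
  @Pool.Agent.HS.reg_cexp_half_pr

end Pool.Agent.HS

namespace Pool.Agent.HS
open Set Filter Topology Classical

theorem ode_unique_cut {E : Type*} [NormedAddCommGroup E] [NormedSpace ℝ E]
    {a b K : ℝ} (hab : a ≤ b) {f f' : ℝ → E → E} {Ω : Set E} (hΩ : IsOpen Ω)
    (hK : ∀ t ∈ Icc a b, ∀ x y, ‖f' t x - f' t y‖ ≤ K * ‖x - y‖)
    (hff : ∀ t ∈ Icc a b, ∀ x ∈ Ω, f t x = f' t x)
    {V V' : ℝ → E} (hV : ∀ t ∈ Icc a b, HasDerivWithinAt V (f t (V t)) (Icc a b) t)
    (hV' : ∀ t ∈ Icc a b, HasDerivWithinAt V' (f' t (V' t)) (Icc a b) t)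
    (hin : ∀ t ∈ Icc a b, V' t ∈ Ω) (h0 : V a = V' a) : ∀ t ∈ Icc a b, V t = V' t :=
  @Pool.Agent.HS.ode_unique_cut_pr E _ _ a b K hab f f' Ω hΩ hK hff V V' hV hV' hin h0

end Pool.Agent.HS
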