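import Pool.Agent.Lib_helper60.HSF.D_WI
import Pool.Agent.Lib_helper60.HSF.A_CB

/-!
# Project HS, part I/O, block I3: the inner equations, cut off
-/

namespace Pool.Agent.HS

noncomputable section

open Set Filter Topology Classical

section i3calc
variable {X F F' : Type*} [SeminormedAddCommGroup X] [NormedAddCommGroup F] [NormedAddCommGroup F']

/-- bounded and Lipschitz in `x` with constants `K g^n`, uniformly in `μ ∈ [0,1]`, `g ∈ [0,1]` -/
def i3_B (n : ℕ) (f : ℝ → ℝ → X → F) : Prop :=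
  ∃ K : ℝ, 0 ≤ K ∧ ∀ μ ∈ Icc (0:ℝ) 1, ∀ g ∈ Icc (0:ℝ) 1,
    (∀ x, ‖f μ g x‖ ≤ K * g ^ n) ∧ ∀ x x', ‖f μ g x - f μ g x'‖ ≤ K * g ^ n * ‖x - x'‖

theorem i3_add {n : ℕ} {f f' : ℝ → ℝ → X → F} (h : i3_B n f) (h' : i3_B n f') :
    i3_B n (fun μ g x => f μ g x + f' μ g x) := by
  obtain ⟨K, hK, h⟩ := h
  obtain ⟨K', hK', h'⟩ := h'
  refine ⟨K + K', by positivity, fun μ hμ g hg => ⟨fun x => ?_, fun x x' => ?_⟩⟩
  · have h1 := (h μ hμ g hg).1 x
    have h2 := (h' μ hμ g hg).1 x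
    calc ‖f μ g x + f' μ g x‖ ≤ ‖f μ g x‖ + ‖f' μ g x‖ := norm_add_le _ _
      _ ≤ K * g ^ n + K' * g ^ n := add_le_add h1 h2
      _ = (K + K') * g ^ n := by ring
  · have h1 := (h μ hμ g hg).2 x x'
    have h2 := (h' μ hμ g hg).2 x x'
    have h3 : f μ g x + f' μ g x - (f μ g x' + f' μ g x') =
        (f μ g x - f μ g x') + (f' μ g x - f' μ g x') := by abel
    rw [h3]
    calc _ ≤ ‖f μ g x - f μ g x'‖ + ‖f' μ g x - f' μ g x'‖ := norm_add_le _ _
      _ ≤ K * g ^ n * ‖x - x'‖ + K' * g ^ n * ‖x - x'‖ := add_le_add h1 h2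
      _ = (K + K') * g ^ n * ‖x - x'‖ := by ring

theorem i3_neg {n : ℕ} {f : ℝ → ℝ → X → F} (h : i3_B n f) : i3_B n (fun μ g x => -f μ g x) := by
  obtain ⟨K, hK, h⟩ := h
  refine ⟨K, hK, fun μ hμ g hg => ⟨fun x => ?_, fun x x' => ?_⟩⟩
  · rw [norm_neg]
    exact (h μ hμ g hg).1 x
  · rw [← neg_sub_neg, neg_neg, neg_neg, norm_sub_rev]
    exact (h μ hμ g hg).2 x x'

theorem i3_sub {n : ℕ} {f f' : ℝ → ℝ → X → F} (h : i3_B n f) (h' : i3_B n f') :
    i3_B n (fun μ g x => f μ g x - f' μ g x) := by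
  have := i3_add h (i3_neg h')
  simpa only [← sub_eq_add_neg] using this

theorem i3_mul {n m : ℕ} {f f' : ℝ → ℝ → X → ℂ} (h : i3_B n f) (h' : i3_B m f') :
    i3_B (n + m) (fun μ g x => f μ g x * f' μ g x) := by
  obtain ⟨K, hK, h⟩ := h
  obtain ⟨K', hK', h'⟩ := h'
  refine ⟨2 * (K * K'), by positivity, fun μ hμ g hg => ⟨fun x => ?_, fun x x' => ?_⟩⟩
  · have h1 := (h μ hμ g hg).1 x
    have h2 := (h' μ hμ g hg).1 x
    have hgn : 0 ≤ g ^ n := pow_nonneg hg.1 n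
    have hgm : 0 ≤ g ^ m := pow_nonneg hg.1 m
    rw [norm_mul, pow_add]
    calc ‖f μ g x‖ * ‖f' μ g x‖ ≤ (K * g ^ n) * (K' * g ^ m) :=
          mul_le_mul h1 h2 (norm_nonneg _) (by positivity)
      _ ≤ 2 * ((K * g ^ n) * (K' * g ^ m)) := by
          have : 0 ≤ (K * g ^ n) * (K' * g ^ m) := by positivity
          linarith
      _ = 2 * (K * K') * (g ^ n * g ^ m) := by ring
  · have h1 := (h μ hμ g hg).2 x x'
    have h2 := (h' μ hμ g hg).2 x x'
    have h3 := (h μ hμ g hg).1 x'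
    have h4 := (h' μ hμ g hg).1 x
    have hgn : 0 ≤ g ^ n := pow_nonneg hg.1 n
    have hgm : 0 ≤ g ^ m := pow_nonneg hg.1 m
    have hx : 0 ≤ ‖x - x'‖ := norm_nonneg _
    have h5 : f μ g x * f' μ g x - f μ g x' * f' μ g x' =
        (f μ g x - f μ g x') * f' μ g x + f μ g x' * (f' μ g x - f' μ g x') := by ring
    rw [h5, pow_add]
    calc _ ≤ ‖(f μ g x - f μ g x') * f' μ g x‖ + ‖f μ g x' * (f' μ g x - f' μ g x')‖ :=
          norm_add_le _ _
      _ = ‖f μ g x - f μ g x'‖ * ‖f' μ g x‖ + ‖f μ g x'‖ * ‖f' μ g x - f' μ g x'‖ := by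
          rw [norm_mul, norm_mul]
      _ ≤ (K * g ^ n * ‖x - x'‖) * (K' * g ^ m) + (K * g ^ n) * (K' * g ^ m * ‖x - x'‖) :=
          add_le_add (mul_le_mul h1 h4 (norm_nonneg _) (by positivity))
            (mul_le_mul h3 h2 (norm_nonneg _) (by positivity))
      _ = 2 * (K * K') * (g ^ n * g ^ m) * ‖x - x'‖ := by ring

theorem i3_clm [NormedSpace ℝ F] [NormedSpace ℝ F'] {n : ℕ} {f : ℝ → ℝ → X → F} (A : F →L[ℝ] F')
    (h : i3_B n f) : i3_B n (fun μ g x => A (f μ g x)) := by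
  obtain ⟨K, hK, h⟩ := h
  refine ⟨‖A‖ * K, by positivity, fun μ hμ g hg => ⟨fun x => ?_, fun x x' => ?_⟩⟩
  · have h1 := (h μ hμ g hg).1 x
    calc ‖A (f μ g x)‖ ≤ ‖A‖ * ‖f μ g x‖ := A.le_opNorm _
      _ ≤ ‖A‖ * (K * g ^ n) := mul_le_mul_of_nonneg_left h1 (norm_nonneg _)
      _ = ‖A‖ * K * g ^ n := by ring
  · have h1 := (h μ hμ g hg).2 x x'
    rw [← map_sub]
    calc ‖A (f μ g x - f μ g x')‖ ≤ ‖A‖ * ‖f μ g x - f μ g x'‖ := A.le_opNorm _
      _ ≤ ‖A‖ * (K * g ^ n * ‖x - x'‖) := mul_le_mul_of_nonneg_left h1 (norm_nonneg _)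
      _ = ‖A‖ * K * g ^ n * ‖x - x'‖ := by ring

theorem i3_prod {n : ℕ} {f : ℝ → ℝ → X → F} {f' : ℝ → ℝ → X → F'} (h : i3_B n f)
    (h' : i3_B n f') : i3_B n (fun μ g x => (f μ g x, f' μ g x)) := by
  obtain ⟨K, hK, h⟩ := h
  obtain ⟨K', hK', h'⟩ := h'
  refine ⟨K + K', by positivity, fun μ hμ g hg => ⟨fun x => ?_, fun x x' => ?_⟩⟩
  · have h1 := (h μ hμ g hg).1 x
    have h2 := (h' μ hμ g hg).1 x
    have hgn : 0 ≤ g ^ n := pow_nonneg hg.1 n
    have e1 : 0 ≤ K * g ^ n := by positivity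
    have e2 : 0 ≤ K' * g ^ n := by positivity
    refine norm_prod_le_iff.2 ⟨?_, ?_⟩
    · simp only
      linarith
    · simp only
      linarith
  · have h1 := (h μ hμ g hg).2 x x'
    have h2 := (h' μ hμ g hg).2 x x'
    have hgn : 0 ≤ g ^ n := pow_nonneg hg.1 n
    have hx : 0 ≤ ‖x - x'‖ := norm_nonneg _
    have e1 : 0 ≤ K * g ^ n * ‖x - x'‖ := by positivity
    have e2 : 0 ≤ K' * g ^ n * ‖x - x'‖ := by positivity
    refine norm_prod_le_iff.2 ⟨?_, ?_⟩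
    · simp only [Prod.fst_sub]
      linarith
    · simp only [Prod.snd_sub]
      linarith

theorem i3_weak {n m : ℕ} {f : ℝ → ℝ → X → F} (h : i3_B n f) (hm : m ≤ n) : i3_B m f := by
  obtain ⟨K, hK, h⟩ := h
  refine ⟨K, hK, fun μ hμ g hg => ⟨fun x => ?_, fun x x' => ?_⟩⟩
  · have h1 := (h μ hμ g hg).1 x
    have h2 : g ^ n ≤ g ^ m := pow_le_pow_of_le_one hg.1 hg.2 hm
    exact h1.trans (mul_le_mul_of_nonneg_left h2 hK)
  · have h1 := (h μ hμ g hg).2 x x'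
    have h2 : g ^ n ≤ g ^ m := pow_le_pow_of_le_one hg.1 hg.2 hm
    exact h1.trans (mul_le_mul_of_nonneg_right (mul_le_mul_of_nonneg_left h2 hK) (norm_nonneg _))

theorem i3_g : i3_B (X := X) 1 (fun _ g _ => (g : ℂ)) := by
  refine ⟨1, by norm_num, fun μ hμ g hg => ⟨fun x => ?_, fun x x' => ?_⟩⟩
  · rw [Complex.norm_real, Real.norm_eq_abs, abs_of_nonneg hg.1]
    simp
  · simp only [sub_self, norm_zero, pow_one, one_mul]
    exact mul_nonneg hg.1 (norm_nonneg _)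

theorem i3_const (a : F) : i3_B (X := X) 0 (fun _ _ _ => a) := by
  refine ⟨‖a‖, norm_nonneg _, fun μ hμ g hg => ⟨fun x => ?_, fun x x' => ?_⟩⟩
  · simp
  · simp only [sub_self, norm_zero, pow_zero, mul_one]
    positivity

theorem i3_mu : i3_B (X := X) 0 (fun μ _ _ => ((1 + μ ^ 2 : ℝ) : ℂ)) := by
  refine ⟨2, by norm_num, fun μ hμ g hg => ⟨fun x => ?_, fun x x' => ?_⟩⟩
  · rw [Complex.norm_real, Real.norm_eq_abs, abs_of_nonneg (by positivity)]
    have := hμ.1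
    have := hμ.2
    simp only [pow_zero, mul_one]
    nlinarith
  · simp only [sub_self, norm_zero, pow_zero, mul_one]
    positivity

theorem i3_lip {φ : X → F} {M L : ℝ} (hM : ∀ x, ‖φ x‖ ≤ M)
    (hL : ∀ x x', ‖φ x - φ x'‖ ≤ L * ‖x - x'‖) : i3_B 0 (fun _ _ x => φ x) := by
  refine ⟨|M| + |L|, by positivity, fun μ hμ g hg => ⟨fun x => ?_, fun x x' => ?_⟩⟩
  · have h1 := hM x
    have h2 := le_abs_self M
    have h3 := abs_nonneg L
    simp only [pow_zero, mul_one]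
    linarith
  · have h1 := hL x x'
    have h2 : L * ‖x - x'‖ ≤ (|M| + |L|) * ‖x - x'‖ := by
      apply mul_le_mul_of_nonneg_right _ (norm_nonneg _)
      have h2 := le_abs_self L
      have h3 := abs_nonneg M
      linarith
    simp only [pow_zero, mul_one]
    linarith

/-- composition with a bounded Lipschitz map -/
theorem i3_comp {f : ℝ → ℝ → X → F} {φ : F → F'} {M L : ℝ} (hM : ∀ x, ‖φ x‖ ≤ M) (hL0 : 0 ≤ L)
    (hL : ∀ x x', ‖φ x - φ x'‖ ≤ L * ‖x - x'‖) (h : i3_B 0 f) :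
    i3_B 0 (fun μ g x => φ (f μ g x)) := by
  obtain ⟨K, hK, h⟩ := h
  refine ⟨|M| + L * K, by positivity, fun μ hμ g hg => ⟨fun x => ?_, fun x x' => ?_⟩⟩
  · have h1 := hM (f μ g x)
    have h2 := le_abs_self M
    have h3 : 0 ≤ L * K := by positivity
    simp only [pow_zero, mul_one]
    linarith
  · have h1 := hL (f μ g x) (f μ g x')
    have h2 := (h μ hμ g hg).2 x x'
    simp only [pow_zero, mul_one] at h2 ⊢
    calc ‖φ (f μ g x) - φ (f μ g x')‖ ≤ L * (K * ‖x - x'‖) :=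
          h1.trans (mul_le_mul_of_nonneg_left h2 hL0)
      _ ≤ (|M| + L * K) * ‖x - x'‖ := by
          have : 0 ≤ |M| * ‖x - x'‖ := by positivity
          linarith

/-- differences of values of a map of class `Reg` -/
theorem i3_reg {n : ℕ} {f f' : ℝ → ℝ → X → F} {φ : F → F'} {L : ℝ} (hφ : Reg L φ univ)
    (hL0 : 0 ≤ L) (h : i3_B 0 f) (h' : i3_B 0 f')
    (hd : i3_B n (fun μ g x => f μ g x - f' μ g x)) :
    i3_B n (fun μ g x => φ (f μ g x) - φ (f' μ g x)) := by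
  obtain ⟨K, hK, h⟩ := h
  obtain ⟨K', hK', h'⟩ := h'
  obtain ⟨D, hD, hd⟩ := hd
  refine ⟨L * D + L * (K + K') * D, by positivity, fun μ hμ g hg => ⟨fun x => ?_, fun x x' => ?_⟩⟩
  · have h1 := hφ.1 (f μ g x) (mem_univ _) (f' μ g x) (mem_univ _)
    rw [dist_eq_norm] at h1
    have h2 := (hd μ hμ g hg).1 x
    have hgn : 0 ≤ g ^ n := pow_nonneg hg.1 n
    calc ‖φ (f μ g x) - φ (f' μ g x)‖ ≤ L * (D * g ^ n) :=
          h1.trans (mul_le_mul_of_nonneg_left h2 hL0)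
      _ ≤ (L * D + L * (K + K') * D) * g ^ n := by
          have : 0 ≤ L * (K + K') * D * g ^ n := by positivity
          linarith
  · have h1 := hφ.2 (f μ g x) (mem_univ _) (f' μ g x) (mem_univ _) (f μ g x') (mem_univ _)
      (f' μ g x') (mem_univ _)
    have h2 := (hd μ hμ g hg).2 x x'
    have h3 := (h μ hμ g hg).2 x x'
    have h4 := (h' μ hμ g hg).2 x x'
    have h5 := (hd μ hμ g hg).1 x'
    have hgn : 0 ≤ g ^ n := pow_nonneg hg.1 n
    have hx : 0 ≤ ‖x - x'‖ := norm_nonneg _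
    simp only [pow_zero, mul_one] at h3 h4
    have e1 : φ (f μ g x) - φ (f' μ g x) - (φ (f μ g x') - φ (f' μ g x')) =
        φ (f μ g x) - φ (f' μ g x) - φ (f μ g x') + φ (f' μ g x') := by abel
    have e2 : f μ g x - f' μ g x - f μ g x' + f' μ g x' =
        (f μ g x - f' μ g x) - (f μ g x' - f' μ g x') := by abel
    rw [e1]
    rw [e2] at h1
    calc _ ≤ L * ‖(f μ g x - f' μ g x) - (f μ g x' - f' μ g x')‖ +
          L * (‖f μ g x - f μ g x'‖ + ‖f' μ g x - f' μ g x'‖) * ‖f μ g x' - f' μ g x'‖ := h1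
      _ ≤ L * (D * g ^ n * ‖x - x'‖) + L * (K * ‖x - x'‖ + K' * ‖x - x'‖) * (D * g ^ n) :=
          add_le_add (mul_le_mul_of_nonneg_left h2 hL0)
            (mul_le_mul (mul_le_mul_of_nonneg_left (add_le_add h3 h4) hL0) h5 (norm_nonneg _)
              (by positivity))
      _ = (L * D + L * (K + K') * D) * g ^ n * ‖x - x'‖ := by ring

end i3calc

/-! ### clamps -/

/-- clamp of a complex number to a square -/
def i3_cl (C : ℝ) (a : ℂ) : ℂ :=
  ((max (-C) (min C a.re) : ℝ) : ℂ) + ((max (-C) (min C a.im) : ℝ) : ℂ) * Complex.I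

theorem i3_cl_cont (C : ℝ) : Continuous (i3_cl C) := by
  unfold i3_cl
  fun_prop

theorem i3_max (C x x' : ℝ) : |max (-C) (min C x) - max (-C) (min C x')| ≤ |x - x'| := by
  refine (abs_max_sub_max_le_max _ _ _ _).trans ?_
  rw [sub_self, abs_zero]
  apply max_le (abs_nonneg _)
  refine (abs_min_sub_min_le_max _ _ _ _).trans ?_
  rw [sub_self, abs_zero]
  exact max_le (abs_nonneg _) le_rfl

theorem i3_norm (a b : ℝ) : ‖(a : ℂ) + (b : ℂ) * Complex.I‖ ≤ |a| + |b| := by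
  refine (norm_add_le _ _).trans ?_
  rw [norm_mul, Complex.norm_I, mul_one, Complex.norm_real, Complex.norm_real]
  rfl

theorem i3_cl_lip (C : ℝ) (a b : ℂ) : ‖i3_cl C a - i3_cl C b‖ ≤ 2 * ‖a - b‖ := by
  have h1 : i3_cl C a - i3_cl C b =
      ((max (-C) (min C a.re) - max (-C) (min C b.re) : ℝ) : ℂ) +
      ((max (-C) (min C a.im) - max (-C) (min C b.im) : ℝ) : ℂ) * Complex.I := by
    unfold i3_cl
    push_cast
    ring
  rw [h1]
  refine (i3_norm _ _).trans ?_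
  have h2 := i3_max C a.re b.re
  have h3 := i3_max C a.im b.im
  have h4 : |a.re - b.re| ≤ ‖a - b‖ := Complex.abs_re_le_norm (a - b)
  have h5 : |a.im - b.im| ≤ ‖a - b‖ := Complex.abs_im_le_norm (a - b)
  linarith

theorem i3_cl_bd {C : ℝ} (hC : 0 < C) (a : ℂ) : ‖i3_cl C a‖ ≤ 2 * C := by
  have h : ∀ x : ℝ, |max (-C) (min C x)| ≤ C := by
    intro x
    rw [abs_le]
    exact ⟨le_max_left _ _, max_le (by linarith) (min_le_left _ _)⟩
  refine (i3_norm _ _).trans ?_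
  have h1 := h a.re
  have h2 := h a.im
  linarith

theorem i3_cl_id {C : ℝ} {a : ℂ} (h : ‖a‖ ≤ C) : i3_cl C a = a := by
  have h1 := abs_le.1 ((Complex.abs_re_le_norm a).trans h)
  have h2 := abs_le.1 ((Complex.abs_im_le_norm a).trans h)
  unfold i3_cl
  rw [min_eq_right h1.2, max_eq_right h1.1, min_eq_right h2.2, max_eq_right h2.1]
  exact Complex.re_add_im a

/-! ### the cut off equations -/

abbrev i3_X : Type := (ℂ × ℂ × ℂ × ℝ) × ℂ

def i3_z (C : ℝ) (x : i3_X) : ℂ := i3_cl C x.1.1 + i3_cl C x.2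
def i3_w (C : ℝ) (x : i3_X) : ℂ := i3_cl C x.1.1 - i3_cl C x.2
def i3_ih (c : ℝ) (x : i3_X) : ℂ := ((1 / (2 * max x.1.2.2.2 c) : ℝ) : ℂ)
def i3_iom (c : ℝ) (x : i3_X) : ℂ := ((1 / Real.sqrt (max x.1.2.2.2 c / 2) : ℝ) : ℂ)
def i3_xp (C g : ℝ) (x : i3_X) : ℂ := i3_cl C x.1.2.1 + (mb : ℂ) * ((g : ℂ) * i3_z C x) ^ 2
def i3_xm (C g : ℝ) (x : i3_X) : ℂ := i3_cl C x.1.2.1 - (ma : ℂ) * ((g : ℂ) * i3_z C x) ^ 2
def i3_F (Gt : ℂ → ℂ) (C g : ℝ) (x : i3_X) : ℂ := -(Gt (i3_xp C g x) - Gt (i3_xm C g x))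
def i3_q (Gt : ℂ → ℂ) (C g : ℝ) (x : i3_X) : ℂ :=
  (starRingEnd ℂ) (i3_z C x) * (starRingEnd ℂ) (i3_w C x) * i3_F Gt C g x

def i3_P1 (Gt : ℂ → ℂ) (c C g : ℝ) (x : i3_X) : ℂ :=
  (g : ℂ) * i3_ih c x * (i3_z C x * (starRingEnd ℂ) (i3_z C x) * (starRingEnd ℂ) (i3_z C x) *
    i3_F Gt C g x - ((i3_q Gt C g x).re : ℂ) * i3_w C x)

def i3_P (Gt : ℂ → ℂ) (c C μ g : ℝ) (x : i3_X) : ℂ × ℂ × ℂ × ℝ :=
  (i3_P1 Gt c C g x,
    (g : ℂ) * (i3_z C x * (starRingEnd ℂ) (i3_z C x)) * ((1 + μ ^ 2 : ℝ) : ℂ) * i3_iom c x *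
      i3_cl C x.1.2.2.1,
    -((g : ℂ) * (i3_z C x * (starRingEnd ℂ) (i3_z C x)) * i3_iom c x *
      ((ma : ℂ) * Gt (i3_xp C g x) + (mb : ℂ) * Gt (i3_xm C g x))),
    ((2 : ℂ) * (g : ℂ) * i3_q Gt C g x).re)

theorem i3_fst (x x' : i3_X) : ‖x.1 - x'.1‖ ≤ ‖x - x'‖ := norm_fst_le (x - x')
theorem i3_snd (x x' : i3_X) : ‖x.2 - x'.2‖ ≤ ‖x - x'‖ := norm_snd_le (x - x')
theorem i3_A (x x' : i3_X) : ‖x.1.1 - x'.1.1‖ ≤ ‖x - x'‖ :=
  (norm_fst_le (x.1 - x'.1)).trans (i3_fst x x')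
theorem i3_s2 (x x' : i3_X) : ‖x.1.2 - x'.1.2‖ ≤ ‖x - x'‖ :=
  (norm_snd_le (x.1 - x'.1)).trans (i3_fst x x')
theorem i3_R (x x' : i3_X) : ‖x.1.2.1 - x'.1.2.1‖ ≤ ‖x - x'‖ :=
  (norm_fst_le (x.1.2 - x'.1.2)).trans (i3_s2 x x')
theorem i3_s3 (x x' : i3_X) : ‖x.1.2.2 - x'.1.2.2‖ ≤ ‖x - x'‖ :=
  (norm_snd_le (x.1.2 - x'.1.2)).trans (i3_s2 x x')
theorem i3_U (x x' : i3_X) : ‖x.1.2.2.1 - x'.1.2.2.1‖ ≤ ‖x - x'‖ :=
  (norm_fst_le (x.1.2.2 - x'.1.2.2)).trans (i3_s3 x x')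
theorem i3_h (x x' : i3_X) : |x.1.2.2.2 - x'.1.2.2.2| ≤ ‖x - x'‖ :=
  (norm_snd_le (x.1.2.2 - x'.1.2.2)).trans (i3_s3 x x')

theorem i3_bcl {C : ℝ} (hC : 0 < C) {π : i3_X → ℂ} (hπ : ∀ x x', ‖π x - π x'‖ ≤ ‖x - x'‖) :
    i3_B 0 (fun _ _ x => i3_cl C (π x)) :=
  i3_lip (M := 2 * C) (L := 2) (fun _ => i3_cl_bd hC _) fun x x' =>
    (i3_cl_lip C _ _).trans (mul_le_mul_of_nonneg_left (hπ x x') (by norm_num))

theorem i3_bz {C : ℝ} (hC : 0 < C) : i3_B 0 (fun _ _ x => i3_z C x) :=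
  i3_add (i3_bcl hC i3_A) (i3_bcl hC i3_snd)

theorem i3_bw {C : ℝ} (hC : 0 < C) : i3_B 0 (fun _ _ x => i3_w C x) :=
  i3_sub (i3_bcl hC i3_A) (i3_bcl hC i3_snd)

theorem i3_conj {n : ℕ} {f : ℝ → ℝ → i3_X → ℂ} (h : i3_B n f) :
    i3_B n (fun μ g x => (starRingEnd ℂ) (f μ g x)) :=
  i3_clm (Complex.conjCLE : ℂ →L[ℝ] ℂ) h

theorem i3_re {n : ℕ} {f : ℝ → ℝ → i3_X → ℂ} (h : i3_B n f) :
    i3_B n (fun μ g x => (f μ g x).re) := i3_clm Complex.reCLM h

theorem i3_reC {n : ℕ} {f : ℝ → ℝ → i3_X → ℂ} (h : i3_B n f) :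
    i3_B n (fun μ g x => ((f μ g x).re : ℂ)) := i3_clm Complex.ofRealCLM (i3_re h)

theorem i3_mx (c : ℝ) (x x' : i3_X) : |max x.1.2.2.2 c - max x'.1.2.2.2 c| ≤ ‖x - x'‖ := by
  refine (abs_max_sub_max_le_max _ _ _ _).trans ?_
  rw [sub_self, abs_zero]
  exact max_le (i3_h x x') (norm_nonneg _)

theorem i3_bih {c : ℝ} (hc : 0 < c) : i3_B 0 (fun _ _ x => i3_ih c x) := by
  apply i3_lip (M := 1 / (2 * c)) (L := 1 / (2 * c ^ 2))
  · intro x
    have h1 : c ≤ max x.1.2.2.2 c := le_max_right _ _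
    unfold i3_ih
    rw [Complex.norm_real, Real.norm_eq_abs, abs_of_pos (by positivity)]
    apply one_div_le_one_div_of_le (by positivity)
    linarith
  · intro x x'
    have h1 : c ≤ max x.1.2.2.2 c := le_max_right _ _
    have h2 : c ≤ max x'.1.2.2.2 c := le_max_right _ _
    have h3 := i3_mx c x x'
    unfold i3_ih
    rw [← Complex.ofReal_sub, Complex.norm_real, Real.norm_eq_abs]
    generalize max x.1.2.2.2 c = a at *
    generalize max x'.1.2.2.2 c = b at *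
    have ha : 0 < a := hc.trans_le h1
    have hb : 0 < b := hc.trans_le h2
    have e1 : 1 / (2 * a) - 1 / (2 * b) = -(a - b) / (2 * (a * b)) := by
      field_simp
      ring
    rw [e1, abs_div, abs_neg, abs_of_pos (by positivity : 0 < 2 * (a * b)), div_le_iff₀
      (by positivity)]
    have e2 : c ^ 2 ≤ a * b := by nlinarith
    have e3 : 1 ≤ 1 / (2 * c ^ 2) * (2 * (a * b)) := by
      rw [one_div_mul_eq_div, le_div_iff₀ (by positivity)]
      linarith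
    calc |a - b| ≤ ‖x - x'‖ := h3
      _ = 1 * ‖x - x'‖ := (one_mul _).symm
      _ ≤ (1 / (2 * c ^ 2) * (2 * (a * b))) * ‖x - x'‖ :=
        mul_le_mul_of_nonneg_right e3 (norm_nonneg _)
      _ = 1 / (2 * c ^ 2) * ‖x - x'‖ * (2 * (a * b)) := by ring

theorem i3_biom {c : ℝ} (hc : 0 < c) : i3_B 0 (fun _ _ x => i3_iom c x) := by
  have hs : 0 < Real.sqrt (c / 2) := Real.sqrt_pos.2 (by positivity)
  apply i3_lip (M := 1 / Real.sqrt (c / 2))
    (L := 1 / (4 * Real.sqrt (c / 2) * Real.sqrt (c / 2) ^ 2))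
  · intro x
    have h1 : c ≤ max x.1.2.2.2 c := le_max_right _ _
    have h2 : Real.sqrt (c / 2) ≤ Real.sqrt (max x.1.2.2.2 c / 2) :=
      Real.sqrt_le_sqrt (by linarith)
    unfold i3_iom
    rw [Complex.norm_real, Real.norm_eq_abs, abs_of_pos (by
      have := hs.trans_le h2
      positivity)]
    exact one_div_le_one_div_of_le hs h2
  · intro x x'
    have h1 : c ≤ max x.1.2.2.2 c := le_max_right _ _
    have h2 : c ≤ max x'.1.2.2.2 c := le_max_right _ _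
    have h3 := i3_mx c x x'
    unfold i3_iom
    rw [← Complex.ofReal_sub, Complex.norm_real, Real.norm_eq_abs]
    generalize max x.1.2.2.2 c = a at *
    generalize max x'.1.2.2.2 c = b at *
    have ha : Real.sqrt (c / 2) ≤ Real.sqrt (a / 2) := Real.sqrt_le_sqrt (by linarith)
    have hb : Real.sqrt (c / 2) ≤ Real.sqrt (b / 2) := Real.sqrt_le_sqrt (by linarith)
    have hsa : Real.sqrt (a / 2) ^ 2 = a / 2 := Real.sq_sqrt (by linarith)
    have hsb : Real.sqrt (b / 2) ^ 2 = b / 2 := Real.sq_sqrt (by linarith)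
    generalize Real.sqrt (a / 2) = p at *
    generalize Real.sqrt (b / 2) = q at *
    generalize Real.sqrt (c / 2) = s at *
    have hp : 0 < p := hs.trans_le ha
    have hq : 0 < q := hs.trans_le hb
    have e0 : (p - q) * (p + q) = (a - b) / 2 := by
      linear_combination hsa - hsb
    have e1 : 1 / p - 1 / q = -((a - b) / 2) / ((p + q) * (p * q)) := by
      rw [← e0]
      field_simp
      ring
    rw [e1, abs_div, abs_neg, abs_of_pos (by positivity : 0 < (p + q) * (p * q)), div_le_iff₀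
      (by positivity), abs_div, abs_two]
    have e2 : 2 * s * s ^ 2 ≤ (p + q) * (p * q) := by
      have f1 : s ^ 2 ≤ p * q := by nlinarith
      have f2 : 2 * s ≤ p + q := by linarith
      exact mul_le_mul f2 f1 (by positivity) (by positivity)
    have e3 : 1 / 2 ≤ 1 / (4 * s * s ^ 2) * ((p + q) * (p * q)) := by
      rw [one_div_mul_eq_div, div_le_div_iff₀ (by norm_num) (by positivity)]
      nlinarith
    calc |a - b| / 2 = 1 / 2 * |a - b| := by ring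
      _ ≤ 1 / 2 * ‖x - x'‖ := mul_le_mul_of_nonneg_left h3 (by norm_num)
      _ ≤ (1 / (4 * s * s ^ 2) * ((p + q) * (p * q))) * ‖x - x'‖ :=
        mul_le_mul_of_nonneg_right e3 (norm_nonneg _)
      _ = 1 / (4 * s * s ^ 2) * ‖x - x'‖ * ((p + q) * (p * q)) := by ring

theorem i3_bgz {C : ℝ} (hC : 0 < C) : i3_B 2 (fun _ g x => ((g : ℂ) * i3_z C x) ^ 2) := by
  have h1 := i3_mul i3_g (i3_bz hC)
  have h2 := i3_mul h1 h1
  simpa only [← pow_two] using h2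

theorem i3_bxp {C : ℝ} (hC : 0 < C) : i3_B 0 (fun _ g x => i3_xp C g x) := by
  have h := i3_mul (i3_const (X := i3_X) (mb : ℂ)) (i3_bgz hC)
  exact i3_add (i3_bcl hC i3_R) (i3_weak h (by norm_num))

theorem i3_bxm {C : ℝ} (hC : 0 < C) : i3_B 0 (fun _ g x => i3_xm C g x) := by
  have h := i3_mul (i3_const (X := i3_X) (ma : ℂ)) (i3_bgz hC)
  exact i3_sub (i3_bcl hC i3_R) (i3_weak h (by norm_num))

theorem i3_bF {C L : ℝ} {Gt : ℂ → ℂ} (hC : 0 < C) (hL : 0 ≤ L) (hG : Reg L Gt univ) :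
    i3_B 2 (fun _ g x => i3_F Gt C g x) := by
  apply i3_neg
  apply i3_reg hG hL (i3_bxp hC) (i3_bxm hC)
  have h1 : ∀ (g : ℝ) (x : i3_X), i3_xp C g x - i3_xm C g x = ((g : ℂ) * i3_z C x) ^ 2 := by
    intro g x
    unfold i3_xp i3_xm ma mb
    push_cast
    ring
  simp only [h1]
  exact i3_bgz hC

theorem i3_bq {C L : ℝ} {Gt : ℂ → ℂ} (hC : 0 < C) (hL : 0 ≤ L) (hG : Reg L Gt univ) :
    i3_B 2 (fun _ g x => i3_q Gt C g x) := by
  have h := i3_mul (i3_mul (i3_conj (i3_bz hC)) (i3_conj (i3_bw hC))) (i3_bF hC hL hG)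
  exact h

theorem i3_bP1 {c C L : ℝ} {Gt : ℂ → ℂ} (hc : 0 < c) (hC : 0 < C) (hL : 0 ≤ L)
    (hG : Reg L Gt univ) : i3_B 3 (fun _ g x => i3_P1 Gt c C g x) := by
  have hz := i3_bz hC
  have h1 : i3_B 2 (fun (_ : ℝ) g x => i3_z C x * (starRingEnd ℂ) (i3_z C x) *
      (starRingEnd ℂ) (i3_z C x) * i3_F Gt C g x) :=
    i3_mul (i3_mul (i3_mul hz (i3_conj hz)) (i3_conj hz)) (i3_bF hC hL hG)
  have h2 : i3_B 2 (fun (_ : ℝ) g x => ((i3_q Gt C g x).re : ℂ) * i3_w C x) :=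
    i3_mul (i3_reC (i3_bq hC hL hG)) (i3_bw hC)
  exact i3_mul (i3_mul i3_g (i3_bih hc)) (i3_sub h1 h2)

theorem i3_bP {c C L M : ℝ} {Gt : ℂ → ℂ} (hc : 0 < c) (hC : 0 < C) (hL : 0 ≤ L)
    (hG : Reg L Gt univ) (hM : ∀ x, ‖Gt x‖ ≤ M) : i3_B 1 (fun μ g x => i3_P Gt c C μ g x) := by
  have hz := i3_bz hC
  have hzz := i3_mul hz (i3_conj hz)
  have hlip : ∀ x x', ‖Gt x - Gt x'‖ ≤ L * ‖x - x'‖ := by
    intro x x'
    have := hG.1 x (mem_univ _) x' (mem_univ _)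
    rwa [dist_eq_norm] at this
  have hp := i3_comp hM hL hlip (i3_bxp hC)
  have hm := i3_comp hM hL hlip (i3_bxm hC)
  apply i3_prod (i3_weak (i3_bP1 hc hC hL hG) (by norm_num))
  apply i3_prod
  · exact i3_mul (i3_mul (i3_mul (i3_mul i3_g hzz) i3_mu) (i3_biom hc)) (i3_bcl hC i3_U)
  apply i3_prod
  · apply i3_neg
    exact i3_mul (i3_mul (i3_mul i3_g hzz) (i3_biom hc))
      (i3_add (i3_mul (i3_const (X := i3_X) (ma : ℂ)) hp)
        (i3_mul (i3_const (X := i3_X) (mb : ℂ)) hm))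
  · apply i3_re
    exact i3_weak (i3_mul (i3_mul (i3_const (X := i3_X) (2 : ℂ)) i3_g) (i3_bq hC hL hG))
      (by norm_num)

/-! ### continuity -/

theorem i3_cz (C : ℝ) : Continuous (i3_z C) := by
  have := i3_cl_cont C
  unfold i3_z
  fun_prop

theorem i3_cw (C : ℝ) : Continuous (i3_w C) := by
  have := i3_cl_cont C
  unfold i3_w
  fun_prop

theorem i3_cih {c : ℝ} (hc : 0 < c) : Continuous (i3_ih c) := by
  unfold i3_ih
  apply Complex.continuous_ofReal.comp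
  apply Continuous.div continuous_const (by fun_prop)
  intro x
  have h1 : c ≤ max x.1.2.2.2 c := le_max_right _ _
  have : 0 < max x.1.2.2.2 c := hc.trans_le h1
  positivity

theorem i3_ciom {c : ℝ} (hc : 0 < c) : Continuous (i3_iom c) := by
  unfold i3_iom
  apply Complex.continuous_ofReal.comp
  apply Continuous.div continuous_const
  · apply Real.continuous_sqrt.comp
    fun_prop
  intro x
  have h1 : c ≤ max x.1.2.2.2 c := le_max_right _ _
  have : 0 < max x.1.2.2.2 c := hc.trans_le h1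
  exact (Real.sqrt_pos.2 (by positivity)).ne'

theorem i3_cxp (C : ℝ) : Continuous (fun p : ℝ × i3_X => i3_xp C p.1 p.2) := by
  have := i3_cl_cont C
  have := i3_cz C
  unfold i3_xp
  fun_prop

theorem i3_cxm (C : ℝ) : Continuous (fun p : ℝ × i3_X => i3_xm C p.1 p.2) := by
  have := i3_cl_cont C
  have := i3_cz C
  unfold i3_xm
  fun_prop

theorem i3_cF {C : ℝ} {Gt : ℂ → ℂ} (hG : Continuous Gt) :
    Continuous (fun p : ℝ × i3_X => i3_F Gt C p.1 p.2) := by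
  have := i3_cxp C
  have := i3_cxm C
  unfold i3_F
  fun_prop

theorem i3_cq {C : ℝ} {Gt : ℂ → ℂ} (hG : Continuous Gt) :
    Continuous (fun p : ℝ × i3_X => i3_q Gt C p.1 p.2) := by
  have := i3_cz C
  have := i3_cw C
  have := i3_cF (C := C) hG
  unfold i3_q
  exact ((Complex.continuous_conj.comp (by fun_prop)).mul
    (Complex.continuous_conj.comp (by fun_prop))).mul this

theorem i3_cP1 {c C : ℝ} {Gt : ℂ → ℂ} (hc : 0 < c) (hG : Continuous Gt) :
    Continuous (fun p : ℝ × i3_X => i3_P1 Gt c C p.1 p.2) := by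
  have hz := (i3_cz C).comp (continuous_snd (X := ℝ) (Y := i3_X))
  have hw := (i3_cw C).comp (continuous_snd (X := ℝ) (Y := i3_X))
  have hF := i3_cF (C := C) hG
  have hq := i3_cq (C := C) hG
  have hih := (i3_cih hc).comp (continuous_snd (X := ℝ) (Y := i3_X))
  have hcz : Continuous (fun p : ℝ × i3_X => (starRingEnd ℂ) (i3_z C p.2)) :=
    Complex.continuous_conj.comp hz
  have hg : Continuous (fun p : ℝ × i3_X => ((p.1 : ℝ) : ℂ)) :=
    Complex.continuous_ofReal.comp continuous_fst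
  exact (hg.mul hih).mul ((((hz.mul hcz).mul hcz).mul hF).sub
    ((Complex.continuous_ofReal.comp (Complex.continuous_re.comp hq)).mul hw))

theorem i3_cP {c C μ : ℝ} {Gt : ℂ → ℂ} (hc : 0 < c) (hG : Continuous Gt) :
    Continuous (fun p : ℝ × i3_X => i3_P Gt c C μ p.1 p.2) := by
  have := i3_cl_cont C
  have := i3_cz C
  have := i3_cw C
  have := i3_cF (C := C) hG
  have := i3_cq (C := C) hG
  have := i3_cxp C
  have := i3_cxm C
  have := i3_ciom hc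
  have hcz : Continuous (fun p : ℝ × i3_X => (starRingEnd ℂ) (i3_z C p.2)) :=
    Complex.continuous_conj.comp (by fun_prop)
  unfold i3_P
  apply (i3_cP1 hc hG).prodMk
  apply Continuous.prodMk
  · fun_prop
  apply Continuous.prodMk
  · fun_prop
  · fun_prop

/-! ### `G` -/

theorem i3_G_smooth : ContDiffOn ℝ 2 G {x : ℂ | x ≠ 0} := by
  intro x hx
  have hx' : x ≠ 0 := hx
  apply ContDiffAt.contDiffWithinAt
  unfold G
  apply ContDiffAt.mul _ contDiffAt_id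
  apply Complex.ofRealCLM.contDiff.contDiffAt.comp x
  apply ContDiffAt.inv
  · exact (contDiffAt_norm ℝ hx').pow 3
  · have := norm_pos_iff.2 hx'
    positivity

theorem inner_cut_pr (c C : ℝ) (hc : 0 < c) (hC : 0 < C) : ∃ K σ : ℝ, 0 < K ∧ 0 < σ ∧ σ ≤ 1 ∧
    ∀ μ, 0 < μ → μ ≤ 1 → ∃ (P : ℝ → ℂ × ℂ × ℂ × ℝ → ℂ → ℂ × ℂ × ℂ × ℝ)
      (Q : ℝ → ℂ × ℂ × ℂ × ℝ → ℂ → ℂ), InnerRHS K σ P Q ∧
      ∀ g, 0 < g → g ≤ σ → ∀ y B, inOK c C y B → P g y B = inRHS1 μ g y B ∧ Q g y B = inRHS2 g y B := by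
  -- the cut off field
  have hU : IsOpen {x : ℂ | x ≠ 0} := isOpen_ne
  have hK : IsCompact {x : ℂ | c / 2 ≤ ‖x‖ ∧ ‖x‖ ≤ C + 1} := by
    apply (isCompact_closedBall (0 : ℂ) (C + 1)).of_isClosed_subset
    · exact (isClosed_le continuous_const continuous_norm).inter
        (isClosed_le continuous_norm continuous_const)
    · intro x hx
      rw [mem_closedBall_zero_iff]
      exact hx.2
  have hKU : {x : ℂ | c / 2 ≤ ‖x‖ ∧ ‖x‖ ≤ C + 1} ⊆ {x : ℂ | x ≠ 0} := by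
    rintro x hx rfl
    have := hx.1
    rw [norm_zero] at this
    linarith
  obtain ⟨Gt, hGt, hGs, V, -, hKV, -, hEq⟩ := exists_cutoff hU i3_G_smooth hK hKU
  obtain ⟨L, hL, hReg⟩ := reg_of_compactSupport hGt hGs
  obtain ⟨M, hM⟩ := hGs.exists_bound_of_continuous hGt.continuous
  obtain ⟨K₁, hK₁, h₁⟩ := i3_bP hc hC hL hReg hM
  obtain ⟨K₂, hK₂, h₂⟩ := i3_bP1 hc hC hL hReg
  -- the scale
  obtain ⟨σ, hσ0, hσ1, hσ⟩ : ∃ σ : ℝ, 0 < σ ∧ σ ≤ 1 ∧ σ * (4 * C ^ 2) ≤ min (c / 2) 1 := by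
    have h3 : 0 < min (c / 2) 1 / (4 * C ^ 2) := by positivity
    refine ⟨min 1 (min (c / 2) 1 / (4 * C ^ 2)), lt_min one_pos h3, min_le_left _ _, ?_⟩
    have h4 : min 1 (min (c / 2) 1 / (4 * C ^ 2)) ≤ min (c / 2) 1 / (4 * C ^ 2) := min_le_right _ _
    rw [le_div_iff₀ (by positivity)] at h4
    exact h4
  refine ⟨K₁ + K₂ + 1, σ, by positivity, hσ0, hσ1, ?_⟩
  intro μ hμ hμ1
  have hμI : μ ∈ Icc (0 : ℝ) 1 := ⟨hμ.le, hμ1⟩
  refine ⟨fun g y B => i3_P Gt c C μ g (y, B), fun g y B => -i3_P1 Gt c C g (y, B),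
    ⟨?_, ?_, ?_⟩, ?_⟩
  · exact i3_cP hc hGt.continuous
  · exact (i3_cP1 hc hGt.continuous).neg
  · intro g hg
    have hgI : g ∈ Icc (0 : ℝ) 1 := ⟨hg.1, hg.2.trans hσ1⟩
    have hg0 : 0 ≤ g := hg.1
    obtain ⟨b1, l1⟩ := h₁ μ hμI g hgI
    obtain ⟨b2, l2⟩ := h₂ μ hμI g hgI
    have hg3 : 0 ≤ g ^ 3 := pow_nonneg hg0 3
    have hs : ∀ (y y' : ℂ × ℂ × ℂ × ℝ) (b b' : ℂ), ‖((y, b) : i3_X) - (y', b')‖ ≤
        ‖y - y'‖ + ‖b - b'‖ := by
      intro y y' b b'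
      refine norm_prod_le_iff.2 ⟨?_, ?_⟩
      · simp only [Prod.fst_sub]
        linarith [norm_nonneg (b - b')]
      · simp only [Prod.snd_sub]
        linarith [norm_nonneg (y - y')]
    refine ⟨fun y b => ⟨?_, ?_⟩, fun y b y' b' => ⟨?_, ?_⟩⟩
    · have e1 := b1 (y, b)
      rw [pow_one] at e1
      refine e1.trans (mul_le_mul_of_nonneg_right (by linarith) hg0)
    · rw [norm_neg]
      exact (b2 (y, b)).trans (mul_le_mul_of_nonneg_right (by linarith) hg3)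
    · have e1 := l1 (y, b) (y', b')
      rw [pow_one] at e1
      refine e1.trans ?_
      exact mul_le_mul (mul_le_mul_of_nonneg_right (by linarith) hg0) (hs y y' b b')
        (norm_nonneg _) (by positivity)
    · have e0 : -i3_P1 Gt c C g (y, b) - -i3_P1 Gt c C g (y', b') =
          -(i3_P1 Gt c C g (y, b) - i3_P1 Gt c C g (y', b')) := by ring
      rw [e0, norm_neg]
      refine (l2 (y, b) (y', b')).trans ?_
      exact mul_le_mul (mul_le_mul_of_nonneg_right (by linarith) hg3) (hs y y' b b')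
        (norm_nonneg _) (by positivity)
  · intro g hg hgσ y B hOK
    obtain ⟨A, R, U, h⟩ := y
    obtain ⟨hA, hB, hR, hRC, hUC, hh, hhC⟩ := hOK
    simp only at hA hB hR hRC hUC hh hhC
    have hz : i3_z C ((A, R, U, h), B) = A + B := by
      unfold i3_z
      rw [i3_cl_id hA, i3_cl_id hB]
    have hw : i3_w C ((A, R, U, h), B) = A - B := by
      unfold i3_w
      rw [i3_cl_id hA, i3_cl_id hB]
    have hih : i3_ih c ((A, R, U, h), B) = ((1 / (2 * h) : ℝ) : ℂ) := by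
      unfold i3_ih
      rw [max_eq_left hh]
    have hiom : i3_iom c ((A, R, U, h), B) = ((1 / Real.sqrt (h / 2) : ℝ) : ℂ) := by
      unfold i3_iom
      rw [max_eq_left hh]
    have hxp : i3_xp C g ((A, R, U, h), B) = R + mb * (g * (A + B)) ^ 2 := by
      unfold i3_xp
      rw [hz, i3_cl_id hRC]
    have hxm : i3_xm C g ((A, R, U, h), B) = R - ma * (g * (A + B)) ^ 2 := by
      unfold i3_xm
      rw [hz, i3_cl_id hRC]
    -- the size of `u ^ 2`
    have hu2 : ‖((g : ℂ) * (A + B)) ^ 2‖ ≤ min (c / 2) 1 := by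
      rw [norm_pow, norm_mul, Complex.norm_real, Real.norm_eq_abs, abs_of_pos hg]
      have e1 : ‖A + B‖ ≤ 2 * C := (norm_add_le _ _).trans (by linarith)
      have e2 : ‖A + B‖ ^ 2 ≤ 4 * C ^ 2 := by
        have := norm_nonneg (A + B)
        nlinarith
      have e3 : g ^ 2 ≤ σ := by nlinarith
      calc (g * ‖A + B‖) ^ 2 = g ^ 2 * ‖A + B‖ ^ 2 := by ring
        _ ≤ σ * (4 * C ^ 2) := mul_le_mul e3 e2 (by positivity) hσ0.le
        _ ≤ _ := hσ
    have hin : ∀ s : ℝ, |s| ≤ 1 → Gt (R + s * ((g : ℂ) * (A + B)) ^ 2) =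
        G (R + s * ((g : ℂ) * (A + B)) ^ 2) := by
      intro s hs
      apply hEq
      apply hKV
      have e1 : ‖(s : ℂ) * ((g : ℂ) * (A + B)) ^ 2‖ ≤ min (c / 2) 1 := by
        rw [norm_mul, Complex.norm_real, Real.norm_eq_abs]
        calc |s| * ‖((g : ℂ) * (A + B)) ^ 2‖ ≤ 1 * ‖((g : ℂ) * (A + B)) ^ 2‖ :=
              mul_le_mul_of_nonneg_right hs (norm_nonneg _)
          _ ≤ _ := by rw [one_mul]; exact hu2
      have e2 : c ≤ ‖R‖ := hR.trans ((le_abs_self _).trans (Complex.abs_re_le_norm R))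
      constructor
      · have e3 := norm_sub_le_norm_add R ((s : ℂ) * ((g : ℂ) * (A + B)) ^ 2)
        have e4 := e1.trans (min_le_left _ _)
        linarith
      · have e3 := norm_add_le R ((s : ℂ) * ((g : ℂ) * (A + B)) ^ 2)
        have e4 := e1.trans (min_le_right _ _)
        linarith
    have hGp : Gt (i3_xp C g ((A, R, U, h), B)) = G (R + mb * (g * (A + B)) ^ 2) := by
      rw [hxp]
      exact hin mb (by unfold mb; rw [abs_of_pos] <;> norm_num)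
    have hGm : Gt (i3_xm C g ((A, R, U, h), B)) = G (R - ma * (g * (A + B)) ^ 2) := by
      rw [hxm]
      have := hin (-ma) (by unfold ma; rw [abs_neg, abs_of_pos] <;> norm_num)
      rw [Complex.ofReal_neg, neg_mul, ← sub_eq_add_neg] at this
      exact this
    have hF : i3_F Gt C g ((A, R, U, h), B) = inF R (g * (A + B)) := by
      unfold i3_F inF
      rw [hGp, hGm]
    have hq : i3_q Gt C g ((A, R, U, h), B) =
        (starRingEnd ℂ) (A + B) * (starRingEnd ℂ) (A - B) * inF R (g * (A + B)) := by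
      unfold i3_q
      rw [hz, hw, hF]
    have hgc : (g : ℂ) ≠ 0 := Complex.ofReal_ne_zero.2 hg.ne'
    have hh0 : 0 < h := hc.trans_le hh
    have hhc : (h : ℂ) ≠ 0 := Complex.ofReal_ne_zero.2 hh0.ne'
    have hom : 0 < Real.sqrt (h / 2) := Real.sqrt_pos.2 (by positivity)
    have homc : ((Real.sqrt (h / 2) : ℝ) : ℂ) ≠ 0 := Complex.ofReal_ne_zero.2 hom.ne'
    have hns : ∀ z : ℂ, ((‖z‖ : ℝ) : ℂ) ^ 2 = z * (starRingEnd ℂ) z := by
      intro z
      rw [Complex.mul_conj, Complex.normSq_eq_norm_sq]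
      push_cast
      rfl
    have hq2 : ((starRingEnd ℂ) ((g : ℂ) * (A + B)) * (starRingEnd ℂ) ((g : ℂ) * (A - B)) *
        inF R (g * (A + B))).re = g ^ 2 *
        ((starRingEnd ℂ) (A + B) * (starRingEnd ℂ) (A - B) * inF R (g * (A + B))).re := by
      have e1 : (starRingEnd ℂ) ((g : ℂ) * (A + B)) * (starRingEnd ℂ) ((g : ℂ) * (A - B)) *
          inF R (g * (A + B)) = ((g ^ 2 : ℝ) : ℂ) *
          ((starRingEnd ℂ) (A + B) * (starRingEnd ℂ) (A - B) * inF R (g * (A + B))) := by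
        rw [map_mul, map_mul, Complex.conj_ofReal]
        push_cast
        ring
      rw [e1, Complex.re_ofReal_mul]
    have hP1 : i3_P1 Gt c C g ((A, R, U, h), B) =
        inP R (g * (A + B)) (g * (A - B)) h / (2 * g ^ 2) := by
      unfold i3_P1 inP
      rw [hq, hq2, hih, hz, hw, hF]
      push_cast
      rw [hns, map_mul, Complex.conj_ofReal]
      generalize ((starRingEnd ℂ) (A + B) * (starRingEnd ℂ) (A - B) *
        inF R (g * (A + B))).re = ρ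
      field_simp
    constructor
    · simp only [i3_P, inRHS1]
      refine Prod.ext hP1 (Prod.ext ?_ (Prod.ext ?_ ?_))
      · simp only
        rw [hz, hiom, i3_cl_id hUC]
        push_cast
        rw [hns, map_mul, Complex.conj_ofReal]
        field_simp
      · simp only
        rw [hz, hiom, hGp, hGm]
        push_cast
        rw [hns, map_mul, Complex.conj_ofReal]
        field_simp
      · simp only
        rw [hq, hq2]
        have e1 : (2 : ℂ) * (g : ℂ) * ((starRingEnd ℂ) (A + B) * (starRingEnd ℂ) (A - B) *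
            inF R (g * (A + B))) = ((2 * g : ℝ) : ℂ) * ((starRingEnd ℂ) (A + B) *
            (starRingEnd ℂ) (A - B) * inF R (g * (A + B))) := by
          push_cast
          ring
        rw [e1, Complex.re_ofReal_mul]
        field_simp
    · simp only [inRHS2]
      rw [hP1]
      ring

end

end Pool.Agent.HS

namespace Pool.Agent.HS
open Set Filter Topology Classical

theorem inner_cut (c C : ℝ) (hc : 0 < c) (hC : 0 < C) : ∃ K σ : ℝ, 0 < K ∧ 0 < σ ∧ σ ≤ 1 ∧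
    ∀ μ, 0 < μ → μ ≤ 1 → ∃ (P : ℝ → ℂ × ℂ × ℂ × ℝ → ℂ → ℂ × ℂ × ℂ × ℝ)
      (Q : ℝ → ℂ × ℂ × ℂ × ℝ → ℂ → ℂ), InnerRHS K σ P Q ∧
      ∀ g, 0 < g → g ≤ σ → ∀ y B, inOK c C y B → P g y B = inRHS1 μ g y B ∧ Q g y B = inRHS2 g y B :=
  @Pool.Agent.HS.inner_cut_pr c C hc hC

end Pool.Agent.HS
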