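import Pool.Agent.Lib_helper60.HSF.D_WI
import Pool.Agent.Lib_helper60.HSF.IO_C1
import Pool.Agent.Lib_helper60.HSF.A_IO
import Pool.Agent.Lib_helper60.HSF.IO_I3
import Pool.Agent.Lib_helper60.HSF.IO_I1

/-! Project HS, block I4: existence and uniqueness of the inner solution. -/

namespace Pool.Agent.HS

noncomputable section

open Set Filter Topology Classical

/-- the field of the inner equations -/
def i4F (μ g : ℝ) (x : ℂ × ℂ × ℂ × ℂ × ℝ) : ℂ × ℂ × ℂ × ℂ × ℝ :=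
  let A := x.1
  let B := x.2.1
  let R := x.2.2.1
  let U := x.2.2.2.1
  let h := x.2.2.2.2
  let u := g * (A + B)
  let v := g * (A - B)
  let om := Real.sqrt (h / 2)
  (inP R u v h / (2 * g ^ 2),
       -(2 * B / g) - inP R u v h / (2 * g ^ 2),
       (‖u‖ ^ 2 * (1 + μ ^ 2) / (g * om) : ℝ) * U,
       - ((‖u‖ ^ 2 / (g * om) : ℝ) * (ma * G (R + mb * u ^ 2) + mb * G (R - ma * u ^ 2))),
       2 * ((starRingEnd ℂ) u * (starRingEnd ℂ) v * inF R u).re / g)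

theorem i4_ode {μ g₁ : ℝ} {V : ℝ → ℂ × ℂ × ℂ × ℂ × ℝ} : InnerODE μ g₁ V ↔
    ∀ g ∈ Icc μ g₁, HasDerivWithinAt V (i4F μ g (V g)) (Icc μ g₁) g := Iff.rfl

/-- from `(y, b)` to `(A, B, R, U, h)` -/
def i4T : (ℂ × ℂ × ℂ × ℝ) × ℂ →L[ℝ] ℂ × ℂ × ℂ × ℂ × ℝ :=
  ((ContinuousLinearMap.fst ℝ ℂ (ℂ × ℂ × ℝ)).comp
    (ContinuousLinearMap.fst ℝ (ℂ × ℂ × ℂ × ℝ) ℂ)).prod
  ((ContinuousLinearMap.snd ℝ (ℂ × ℂ × ℂ × ℝ) ℂ).prod
    ((ContinuousLinearMap.snd ℝ ℂ (ℂ × ℂ × ℝ)).comp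
      (ContinuousLinearMap.fst ℝ (ℂ × ℂ × ℂ × ℝ) ℂ)))

theorem i4T_apply (y : ℂ × ℂ × ℂ × ℝ) (b : ℂ) :
    i4T (y, b) = (y.1, b, y.2.1, y.2.2.1, y.2.2.2) := rfl

/-- the cut field -/
def i4C (P : ℝ → ℂ × ℂ × ℂ × ℝ → ℂ → ℂ × ℂ × ℂ × ℝ) (Q : ℝ → ℂ × ℂ × ℂ × ℝ → ℂ → ℂ)
    (g : ℝ) (x : ℂ × ℂ × ℂ × ℂ × ℝ) : ℂ × ℂ × ℂ × ℂ × ℝ :=
  i4T (P g (inY x) x.2.1, -(2 / g) • x.2.1 + Q g (inY x) x.2.1)

theorem i4_eq {μ g c C : ℝ} {P : ℝ → ℂ × ℂ × ℂ × ℝ → ℂ → ℂ × ℂ × ℂ × ℝ}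
    {Q : ℝ → ℂ × ℂ × ℂ × ℝ → ℂ → ℂ} {x : ℂ × ℂ × ℂ × ℂ × ℝ}
    (h : P g (inY x) x.2.1 = inRHS1 μ g (inY x) x.2.1 ∧ Q g (inY x) x.2.1 = inRHS2 g (inY x) x.2.1) :
    i4F μ g x = i4C P Q g x := by
  unfold i4C
  rw [h.1, h.2, i4T_apply]
  unfold i4F inRHS1 inRHS2 inY
  simp only [Prod.mk.injEq, true_and, and_true]
  rw [Complex.real_smul]
  push_cast
  ring

/-- the open region -/
def i4Om (c C : ℝ) : Set (ℂ × ℂ × ℂ × ℂ × ℝ) :=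
  {x | ‖x.1‖ < C ∧ ‖x.2.1‖ < C ∧ c < x.2.2.1.re ∧ ‖x.2.2.1‖ < C ∧ ‖x.2.2.2.1‖ < C ∧
    c < x.2.2.2.2 ∧ x.2.2.2.2 < C}

theorem i4_open (c C : ℝ) : IsOpen (i4Om c C) := by
  have h1 : Continuous (fun x : ℂ × ℂ × ℂ × ℂ × ℝ => ‖x.1‖) := by fun_prop
  have h2 : Continuous (fun x : ℂ × ℂ × ℂ × ℂ × ℝ => ‖x.2.1‖) := by fun_prop
  have h3 : Continuous (fun x : ℂ × ℂ × ℂ × ℂ × ℝ => x.2.2.1.re) := by fun_prop
  have h4 : Continuous (fun x : ℂ × ℂ × ℂ × ℂ × ℝ => ‖x.2.2.1‖) := by fun_prop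
  have h5 : Continuous (fun x : ℂ × ℂ × ℂ × ℂ × ℝ => ‖x.2.2.2.1‖) := by fun_prop
  have h6 : Continuous (fun x : ℂ × ℂ × ℂ × ℂ × ℝ => x.2.2.2.2) := by fun_prop
  exact (isOpen_lt h1 continuous_const).inter ((isOpen_lt h2 continuous_const).inter
    ((isOpen_lt continuous_const h3).inter ((isOpen_lt h4 continuous_const).inter
    ((isOpen_lt h5 continuous_const).inter ((isOpen_lt continuous_const h6).inter
      (isOpen_lt h6 continuous_const))))))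

theorem i4_inOK {c C : ℝ} {x : ℂ × ℂ × ℂ × ℂ × ℝ} (h : x ∈ i4Om c C) : inOK c C (inY x) x.2.1 := by
  obtain ⟨h1, h2, h3, h4, h5, h6, h7⟩ := h
  exact ⟨h1.le, h2.le, h3.le, h4.le, h5.le, h6.le, h7.le⟩

theorem i4_rhs_mono {K K' σ σ' : ℝ} {P : ℝ → ℂ × ℂ × ℂ × ℝ → ℂ → ℂ × ℂ × ℂ × ℝ}
    {Q : ℝ → ℂ × ℂ × ℂ × ℝ → ℂ → ℂ} (h : InnerRHS K σ P Q) (hK : K ≤ K') (hσ : σ' ≤ σ) :
    InnerRHS K' σ' P Q := by
  refine ⟨h.1, h.2.1, fun g hg => ?_⟩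
  have hg' : g ∈ Icc 0 σ := ⟨hg.1, hg.2.trans hσ⟩
  obtain ⟨a, b⟩ := h.2.2 g hg'
  have h0 : K * g ≤ K' * g := mul_le_mul_of_nonneg_right hK hg.1
  have h3 : K * g ^ 3 ≤ K' * g ^ 3 := mul_le_mul_of_nonneg_right hK (pow_nonneg hg.1 3)
  refine ⟨fun y b => ⟨(a y b).1.trans h0, (a y b).2.trans h3⟩, fun y b' y' b'' => ?_⟩
  exact ⟨(b y b' y' b'').1.trans (mul_le_mul_of_nonneg_right h0 (by positivity)),
    (b y b' y' b'').2.trans (mul_le_mul_of_nonneg_right h3 (by positivity))⟩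

theorem i4_norm_inY (x : ℂ × ℂ × ℂ × ℂ × ℝ) : ‖inY x‖ ≤ ‖x‖ := by
  unfold inY
  simp only [Prod.norm_def]
  refine max_le (le_max_left _ _) (max_le ?_ (max_le ?_ ?_))
  · exact ((le_max_left _ _).trans (le_max_right _ _)).trans (le_max_right _ _)
  · exact (((le_max_left _ _).trans (le_max_right _ _)).trans (le_max_right _ _)).trans
      (le_max_right _ _)
  · exact (((le_max_right _ _).trans (le_max_right _ _)).trans (le_max_right _ _)).trans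
      (le_max_right _ _)

theorem i4_norm_B (x : ℂ × ℂ × ℂ × ℂ × ℝ) : ‖x.2.1‖ ≤ ‖x‖ :=
  (norm_fst_le x.2).trans (norm_snd_le x)

theorem i4_norm_T (y : ℂ × ℂ × ℂ × ℝ) (b : ℂ) : ‖i4T (y, b)‖ ≤ max ‖y‖ ‖b‖ := by
  rw [i4T_apply]
  simp only [Prod.norm_def]
  refine max_le ((le_max_left _ _).trans (le_max_left _ _)) (max_le (le_max_right _ _)
    (max_le ?_ (max_le ?_ ?_)))
  · exact ((le_max_left _ _).trans (le_max_right _ _)).trans (le_max_left _ _)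
  · exact (((le_max_left _ _).trans (le_max_right _ _)).trans (le_max_right _ _)).trans
      (le_max_left _ _)
  · exact (((le_max_right _ _).trans (le_max_right _ _)).trans (le_max_right _ _)).trans
      (le_max_left _ _)

theorem i4_lip {K σ μ : ℝ} (hμ : 0 < μ) (hσ : σ ≤ 1) (hK : 0 ≤ K)
    {P : ℝ → ℂ × ℂ × ℂ × ℝ → ℂ → ℂ × ℂ × ℂ × ℝ} {Q : ℝ → ℂ × ℂ × ℂ × ℝ → ℂ → ℂ}
    (h : InnerRHS K σ P Q) {g : ℝ} (hg : g ∈ Icc μ σ) (x x' : ℂ × ℂ × ℂ × ℂ × ℝ) :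
    ‖i4C P Q g x - i4C P Q g x'‖ ≤ (2 / μ + 2 * K) * ‖x - x'‖ := by
  have hg0 : 0 < g := hμ.trans_le hg.1
  have hg1 : g ≤ 1 := hg.2.trans hσ
  obtain ⟨-, b⟩ := h.2.2 g ⟨hg0.le, hg.2⟩
  obtain ⟨b1, b2⟩ := b (inY x) x.2.1 (inY x') x'.2.1
  have hy : ‖inY x - inY x'‖ ≤ ‖x - x'‖ := i4_norm_inY (x - x')
  have hb : ‖x.2.1 - x'.2.1‖ ≤ ‖x - x'‖ := i4_norm_B (x - x')
  have hs : ‖inY x - inY x'‖ + ‖x.2.1 - x'.2.1‖ ≤ 2 * ‖x - x'‖ := by linarith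
  have hn : 0 ≤ ‖x - x'‖ := norm_nonneg _
  unfold i4C
  rw [← map_sub, Prod.mk_sub_mk]
  refine (i4_norm_T _ _).trans (max_le ?_ ?_)
  · refine b1.trans ?_
    have e1 : K * g ≤ K := mul_le_of_le_one_right hK hg1
    calc K * g * (‖inY x - inY x'‖ + ‖x.2.1 - x'.2.1‖) ≤ K * (2 * ‖x - x'‖) :=
          mul_le_mul e1 hs (by positivity) hK
      _ ≤ (2 / μ + 2 * K) * ‖x - x'‖ := by
          have : 0 ≤ 2 / μ * ‖x - x'‖ := by positivity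
          linarith
  · have e2 : -(2 / g) • x.2.1 + Q g (inY x) x.2.1 - (-(2 / g) • x'.2.1 + Q g (inY x') x'.2.1) =
        -(2 / g) • (x.2.1 - x'.2.1) + (Q g (inY x) x.2.1 - Q g (inY x') x'.2.1) := by
      rw [smul_sub]
      abel
    rw [e2]
    refine (norm_add_le _ _).trans ?_
    have e3 : ‖-(2 / g) • (x.2.1 - x'.2.1)‖ ≤ 2 / μ * ‖x - x'‖ := by
      rw [norm_smul, Real.norm_eq_abs, abs_neg, abs_of_pos (by positivity)]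
      refine mul_le_mul ?_ hb (norm_nonneg _) (by positivity)
      exact div_le_div_of_nonneg_left (by norm_num) hμ hg.1
    have e4 : K * g ^ 3 ≤ K := mul_le_of_le_one_right hK (pow_le_one₀ hg0.le hg1)
    have e5 : K * g ^ 3 * (‖inY x - inY x'‖ + ‖x.2.1 - x'.2.1‖) ≤ K * (2 * ‖x - x'‖) :=
      mul_le_mul e4 hs (by positivity) hK
    linarith

theorem i4_mono {μ g g' : ℝ} {V : ℝ → ℂ × ℂ × ℂ × ℂ × ℝ} (h : InnerODE μ g V) (hg : g' ≤ g) :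
    InnerODE μ g' V := by
  rw [i4_ode] at h ⊢
  intro s hs
  have hsub : Icc μ g' ⊆ Icc μ g := Icc_subset_Icc_right hg
  exact (h s (hsub hs)).mono hsub

/-- the start values -/
theorem i4_start {c : ℝ} (hc : 0 < c) : ∃ L : ℝ, 1 ≤ L ∧ ∀ d ∈ DD c, ∀ β ∈ JJ,
    ‖(inn0 d β).1‖ ≤ L ∧ ‖(inn0 d β).2.1‖ ≤ L := by
  obtain ⟨L, hL, h, -⟩ := A0_lip c hc
  refine ⟨L, hL, fun d hd β hβ => ?_⟩
  obtain ⟨-, -, -, h1, h2⟩ := hd
  obtain ⟨-, h3, -⟩ := h d.2.2.1 h1 h2 β hβ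
  obtain ⟨e1, e2, -⟩ := A0_alg d.2.2.1 d.2.2.2 β (hc.trans_le h1)
  unfold inn0
  simp only
  rw [e1, e2]
  exact ⟨h3, h3⟩

/-- I4: existence and uniqueness of the inner solution, in the form used below -/
theorem inner_sol_pr (c : ℝ) (hc : 0 < c) : ∃ σ K C : ℝ, 0 < σ ∧ σ ≤ 1 ∧ 1 ≤ K ∧
    K * σ ^ 2 ≤ 1 / 8 ∧ 1 ≤ C ∧
    ∀ μ, 0 < μ → μ ≤ σ → ∃ (P : ℝ → ℂ × ℂ × ℂ × ℝ → ℂ → ℂ × ℂ × ℂ × ℝ)
      (Q : ℝ → ℂ × ℂ × ℂ × ℝ → ℂ → ℂ), InnerRHS K σ P Q ∧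
      ∀ d ∈ DD c, ∀ β ∈ JJ,
        (∀ g ∈ Icc μ σ, ∃ V, InnerODE μ g V ∧ V μ = inn0 d β) ∧
        (∀ g ∈ Icc μ σ, ∀ V, InnerODE μ g V → V μ = inn0 d β →
          ∀ g' ∈ Icc μ g, V g' = innV μ d β g') ∧
        InnerODE μ σ (innV μ d β) ∧ innV μ d β μ = inn0 d β ∧
        InnerSol μ σ P Q (fun g => inY (innV μ d β g)) (fun g => (innV μ d β g).2.1) ∧
        ∀ g ∈ Icc μ σ,
          inOK (min (c / 2) (c ^ 2 / 4)) C (inY (innV μ d β g)) (innV μ d β g).2.1 := by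
  obtain ⟨L, hL, hstart⟩ := i4_start hc
  set c' : ℝ := min (c / 2) (c ^ 2 / 4) with hc'
  have hc'0 : 0 < c' := lt_min (by positivity) (by positivity)
  have hc1 : c' ≤ c / 2 := min_le_left _ _
  have hc2 : c' ≤ c ^ 2 / 4 := min_le_right _ _
  set C : ℝ := L + 1 / c + 1 / c ^ 2 + 1 with hC
  have hi1 : 0 < 1 / c := by positivity
  have hi2 : 0 < 1 / c ^ 2 := by positivity
  obtain ⟨K0, σ0, hK0, hσ0, hσ1, hcut⟩ := inner_cut c' C hc'0 (by linarith)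
  set K : ℝ := max K0 1 with hK
  have hK1 : 1 ≤ K := le_max_right _ _
  have hKK : K0 ≤ K := le_max_left _ _
  -- the small radius
  obtain ⟨σ, hσ, hσσ, hKσ8, hKσc⟩ : ∃ σ : ℝ, 0 < σ ∧ σ ≤ σ0 ∧ K * σ ^ 2 ≤ 1 / 8 ∧
      K * σ ^ 2 ≤ c' / 4 := by
    set m : ℝ := min (1 / 8) (c' / 4) with hm
    have hm0 : 0 < m := lt_min (by norm_num) (by positivity)
    refine ⟨min σ0 (Real.sqrt (m / K)), lt_min hσ0 (Real.sqrt_pos.2 (by positivity)),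
      min_le_left _ _, ?_, ?_⟩
    all_goals
      have h1 : min σ0 (Real.sqrt (m / K)) ^ 2 ≤ m / K := by
        calc min σ0 (Real.sqrt (m / K)) ^ 2 ≤ Real.sqrt (m / K) ^ 2 :=
              pow_le_pow_left₀ (le_min hσ0.le (Real.sqrt_nonneg _)) (min_le_right _ _) 2
          _ = m / K := Real.sq_sqrt (by positivity)
      have h2 : K * min σ0 (Real.sqrt (m / K)) ^ 2 ≤ m := by
        calc K * min σ0 (Real.sqrt (m / K)) ^ 2 ≤ K * (m / K) :=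
              mul_le_mul_of_nonneg_left h1 (by linarith)
          _ = m := by field_simp
      refine h2.trans ?_
    · exact min_le_left _ _
    · exact min_le_right _ _
  have hσ1' : σ ≤ 1 := hσσ.trans hσ1
  refine ⟨σ, K, C, hσ, hσ1', hK1, hKσ8, by linarith, fun μ hμ hμσ => ?_⟩
  obtain ⟨P, Q, hPQ0, hPQ⟩ := hcut μ hμ (hμσ.trans hσ1')
  have hR : InnerRHS K σ P Q := i4_rhs_mono hPQ0 hKK hσσ
  refine ⟨P, Q, hR, fun d hd β hβ => ?_⟩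
  obtain ⟨s1, s2⟩ := hstart d hd β hβ
  obtain ⟨Y, B, hY0, hB0, hs⟩ := inner_exists hμ hμσ (by linarith) hR (inY (inn0 d β))
    (inn0 d β).2.1
  have hbd := inner_bound hμ hμσ (by linarith) hR hs
  -- the solution of the cut system
  set V' : ℝ → ℂ × ℂ × ℂ × ℂ × ℝ := fun g => i4T (Y g, B g) with hV'
  have hV'Y : ∀ g, inY (V' g) = Y g := fun g => rfl
  have hV'B : ∀ g, (V' g).2.1 = B g := fun g => rfl
  have hV'0 : V' μ = inn0 d β := by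
    rw [hV']
    simp only
    rw [hY0, hB0]
    rfl
  have hOm : ∀ g ∈ Icc μ σ, V' g ∈ i4Om c' C := by
    intro g hg
    have hg0 : 0 < g := hμ.trans_le hg.1
    obtain ⟨b1, b2⟩ := hbd g hg
    have hg2 : K * g ^ 2 ≤ K * σ ^ 2 := by
      have := pow_le_pow_left₀ hg0.le hg.2 2
      exact mul_le_mul_of_nonneg_left this (by linarith)
    have hg4 : K * g ^ 4 ≤ K * g ^ 2 := by
      have h1 : g ^ 4 ≤ g ^ 2 := pow_le_pow_of_le_one hg0.le (hg.2.trans hσ1') (by norm_num)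
      exact mul_le_mul_of_nonneg_left h1 (by linarith)
    have bY : ‖Y g - Y μ‖ ≤ K * σ ^ 2 := b1.trans hg2
    have bB : ‖B g - (μ / g) ^ 2 • B μ‖ ≤ K * σ ^ 2 := (b2.trans hg4).trans hg2
    rw [hY0] at bY
    rw [hB0] at bB
    have n1 : ‖(Y g).1 - (inn0 d β).1‖ ≤ K * σ ^ 2 := (norm_fst_le (Y g - inY (inn0 d β))).trans bY
    have n2' := (norm_snd_le (Y g - inY (inn0 d β))).trans bY
    have n2 : ‖(Y g).2.1 - (inn0 d β).2.2.1‖ ≤ K * σ ^ 2 :=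
      (norm_fst_le (Y g - inY (inn0 d β)).2).trans n2'
    have n3' := (norm_snd_le (Y g - inY (inn0 d β)).2).trans n2'
    have n3 : ‖(Y g).2.2.1 - (inn0 d β).2.2.2.1‖ ≤ K * σ ^ 2 :=
      (norm_fst_le (Y g - inY (inn0 d β)).2.2).trans n3'
    have n4 : ‖(Y g).2.2.2 - (inn0 d β).2.2.2.2‖ ≤ K * σ ^ 2 :=
      (norm_snd_le (Y g - inY (inn0 d β)).2.2).trans n3'
    have e1 : (inn0 d β).2.2.1 = d.1 := rfl
    have e2 : (inn0 d β).2.2.2.1 = d.2.1 := rfl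
    have e3 : (inn0 d β).2.2.2.2 = d.2.2.1 ^ 2 / 2 := rfl
    rw [e1] at n2
    rw [e2] at n3
    rw [e3, Real.norm_eq_abs, abs_le] at n4
    obtain ⟨d1, d2, d3, d4, d5⟩ := hd
    have hd4 : c ^ 2 ≤ d.2.2.1 ^ 2 := pow_le_pow_left₀ hc.le d4 2
    have hd5 : d.2.2.1 ^ 2 ≤ 1 / c ^ 2 := by
      calc d.2.2.1 ^ 2 ≤ (1 / c) ^ 2 := pow_le_pow_left₀ (hc.le.trans d4) d5 2
        _ = 1 / c ^ 2 := by rw [one_div_pow]
    have hμg : (μ / g) ^ 2 ≤ 1 := pow_le_one₀ (by positivity) ((div_le_one hg0).2 hg.1)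
    have nB : ‖(μ / g) ^ 2 • (inn0 d β).2.1‖ ≤ L := by
      rw [norm_smul, Real.norm_eq_abs, abs_of_nonneg (by positivity)]
      exact (mul_le_of_le_one_left (norm_nonneg _) hμg).trans s2
    have t1 : ‖(Y g).1‖ ≤ ‖(Y g).1 - (inn0 d β).1‖ + ‖(inn0 d β).1‖ := by
      simpa using norm_add_le ((Y g).1 - (inn0 d β).1) (inn0 d β).1
    have t2 : ‖B g‖ ≤ ‖B g - (μ / g) ^ 2 • (inn0 d β).2.1‖ + ‖(μ / g) ^ 2 • (inn0 d β).2.1‖ := by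
      have := norm_add_le (B g - (μ / g) ^ 2 • (inn0 d β).2.1) ((μ / g) ^ 2 • (inn0 d β).2.1)
      rwa [sub_add_cancel] at this
    have t3 : ‖(Y g).2.1‖ ≤ ‖(Y g).2.1 - d.1‖ + ‖d.1‖ := by
      simpa using norm_add_le ((Y g).2.1 - d.1) d.1
    have t4 : ‖(Y g).2.2.1‖ ≤ ‖(Y g).2.2.1 - d.2.1‖ + ‖d.2.1‖ := by
      simpa using norm_add_le ((Y g).2.2.1 - d.2.1) d.2.1
    have t5 : |((Y g).2.1 - d.1).re| ≤ ‖(Y g).2.1 - d.1‖ := Complex.abs_re_le_norm _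
    rw [Complex.sub_re, abs_le] at t5
    refine ⟨?_, ?_, ?_, ?_, ?_, ?_, ?_⟩
    · show ‖(Y g).1‖ < C
      linarith
    · show ‖B g‖ < C
      linarith
    · show c' < (Y g).2.1.re
      linarith [t5.1]
    · show ‖(Y g).2.1‖ < C
      linarith
    · show ‖(Y g).2.2.1‖ < C
      linarith
    · show c' < (Y g).2.2.2
      linarith [n4.1]
    · show (Y g).2.2.2 < C
      linarith [n4.2]
  have hfield : ∀ g ∈ Icc μ σ, ∀ x ∈ i4Om c' C, i4F μ g x = i4C P Q g x := by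
    intro g hg x hx
    exact i4_eq (c := c') (C := C) (hPQ g (hμ.trans_le hg.1) (hg.2.trans hσσ) (inY x) x.2.1
      (i4_inOK hx))
  have hVd : ∀ g ∈ Icc μ σ, HasDerivWithinAt V' (i4C P Q g (V' g)) (Icc μ σ) g := by
    intro g hg
    obtain ⟨h1, h2⟩ := hs g hg
    exact i4T.hasFDerivAt.comp_hasDerivWithinAt g (h1.prodMk h2)
  have hODE : InnerODE μ σ V' := by
    rw [i4_ode]
    intro g hg
    rw [hfield g hg _ (hOm g hg)]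
    exact hVd g hg
  have huniq : ∀ g ∈ Icc μ σ, ∀ V, InnerODE μ g V → V μ = inn0 d β →
      ∀ g' ∈ Icc μ g, V g' = V' g' := by
    intro g hg V hV hV0
    have hsub : Icc μ g ⊆ Icc μ σ := Icc_subset_Icc_right hg.2
    exact ode_unique_cut (f := i4F μ) (f' := i4C P Q) (Ω := i4Om c' C) hg.1 (i4_open c' C)
      (fun t ht x y => i4_lip hμ hσ1' (by linarith) hR (hsub ht) x y)
      (fun t ht x hx => hfield t (hsub ht) x hx) (i4_ode.1 hV)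
      (fun t ht => (hVd t (hsub ht)).mono hsub) (fun t ht => hOm t (hsub ht))
      (by rw [hV0, hV'0])
  have hex : ∀ g ∈ Icc μ σ, ∃ V, InnerODE μ g V ∧ V μ = inn0 d β :=
    fun g hg => ⟨V', i4_mono hODE hg.2, hV'0⟩
  have hinn : ∀ g ∈ Icc μ σ, innV μ d β g = V' g := by
    intro g hg
    unfold innV
    rw [dif_pos (hex g hg)]
    exact huniq g hg _ (hex g hg).choose_spec.1 (hex g hg).choose_spec.2 g ⟨hg.1, le_rfl⟩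
  refine ⟨hex, ?_, ?_, ?_, ?_, ?_⟩
  · intro g hg V hV hV0 g' hg'
    rw [huniq g hg V hV hV0 g' hg', hinn g' ⟨hg'.1, hg'.2.trans hg.2⟩]
  · rw [i4_ode] at hODE ⊢
    intro g hg
    have h1 := (hODE g hg).congr (f₁ := innV μ d β) hinn (hinn g hg)
    rw [hinn g hg]
    exact h1
  · rw [hinn μ ⟨le_rfl, hμσ⟩, hV'0]
  · intro g hg
    obtain ⟨h1, h2⟩ := hs g hg
    beta_reduce
    rw [hinn g hg, hV'Y, hV'B]
    refine ⟨h1.congr (fun x hx => ?_) ?_, h2.congr (fun x hx => ?_) ?_⟩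
    · rw [hinn x hx, hV'Y]
    · rw [hinn g hg, hV'Y]
    · rw [hinn x hx, hV'B]
    · rw [hinn g hg, hV'B]
  · intro g hg
    rw [hinn g hg]
    exact i4_inOK (hOm g hg)

/-- I5: existence and uniqueness of the inner solution up to a fixed scale -/
theorem inner_spec_pr (c : ℝ) (hc : 0 < c) : ∃ σ : ℝ, 0 < σ ∧ ∀ μ g, 0 < μ → μ ≤ g → g ≤ σ →
    ∀ d ∈ DD c, ∀ β ∈ JJ, (∃ V, InnerODE μ g V ∧ V μ = inn0 d β) ∧
      ∀ V, InnerODE μ g V → V μ = inn0 d β → ∀ g' ∈ Icc μ g, V g' = innV μ d β g' := by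
  obtain ⟨σ, K, C, hσ, -, -, -, -, h⟩ := inner_sol_pr c hc
  refine ⟨σ, hσ, fun μ g hμ hg hgσ d hd β hβ => ?_⟩
  obtain ⟨P, Q, -, h1⟩ := h μ hμ (hg.trans hgσ)
  obtain ⟨h2, h3, -⟩ := h1 d hd β hβ
  exact ⟨h2 g ⟨hg, hgσ⟩, h3 g ⟨hg, hgσ⟩⟩

/-- I11: at `g = μ` the leg starts at the encounter state -/
theorem leg_start_pr (μ : ℝ) (hμ : 0 < μ) (d : Dt) (β : ℝ)
    (h : ∃ V, InnerODE μ μ V ∧ V μ = inn0 d β) :
    innSt μ d β μ = outSt μ d.1 d.2.1 d.2.2.1 d.2.2.2 β := by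
  have h1 : innV μ d β μ = inn0 d β := by
    unfold innV
    rw [dif_pos h]
    exact h.choose_spec.2
  unfold innSt
  rw [h1]
  rfl

end

end Pool.Agent.HS

namespace Pool.Agent.HS
open Set Filter Topology Classical

theorem inner_sol (c : ℝ) (hc : 0 < c) : ∃ σ K C : ℝ, 0 < σ ∧ σ ≤ 1 ∧ 1 ≤ K ∧
    K * σ ^ 2 ≤ 1 / 8 ∧ 1 ≤ C ∧
    ∀ μ, 0 < μ → μ ≤ σ → ∃ (P : ℝ → ℂ × ℂ × ℂ × ℝ → ℂ → ℂ × ℂ × ℂ × ℝ)
      (Q : ℝ → ℂ × ℂ × ℂ × ℝ → ℂ → ℂ), InnerRHS K σ P Q ∧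
      ∀ d ∈ DD c, ∀ β ∈ JJ,
        (∀ g ∈ Icc μ σ, ∃ V, InnerODE μ g V ∧ V μ = inn0 d β) ∧
        (∀ g ∈ Icc μ σ, ∀ V, InnerODE μ g V → V μ = inn0 d β →
          ∀ g' ∈ Icc μ g, V g' = innV μ d β g') ∧
        InnerODE μ σ (innV μ d β) ∧ innV μ d β μ = inn0 d β ∧
        InnerSol μ σ P Q (fun g => inY (innV μ d β g)) (fun g => (innV μ d β g).2.1) ∧
        ∀ g ∈ Icc μ σ,
          inOK (min (c / 2) (c ^ 2 / 4)) C (inY (innV μ d β g)) (innV μ d β g).2.1 :=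
  @Pool.Agent.HS.inner_sol_pr c hc

end Pool.Agent.HS

namespace Pool.Agent.HS
open Set Filter Topology Classical

theorem inner_spec (c : ℝ) (hc : 0 < c) : ∃ σ : ℝ, 0 < σ ∧ ∀ μ g, 0 < μ → μ ≤ g → g ≤ σ →
    ∀ d ∈ DD c, ∀ β ∈ JJ, (∃ V, InnerODE μ g V ∧ V μ = inn0 d β) ∧
      ∀ V, InnerODE μ g V → V μ = inn0 d β → ∀ g' ∈ Icc μ g, V g' = innV μ d β g' :=
  @Pool.Agent.HS.inner_spec_pr c hc

end Pool.Agent.HS

namespace Pool.Agent.HS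
open Set Filter Topology Classical

theorem leg_start (μ : ℝ) (hμ : 0 < μ) (d : Dt) (β : ℝ)
    (h : ∃ V, InnerODE μ μ V ∧ V μ = inn0 d β) :
    innSt μ d β μ = outSt μ d.1 d.2.1 d.2.2.1 d.2.2.2 β :=
  @Pool.Agent.HS.leg_start_pr μ hμ d β h

end Pool.Agent.HS
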