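import Pool.Agent.Lib_helper60.HSF.D_WI
import Pool.Agent.Lib_helper60.HSF.A_IO
import Pool.Agent.Lib_helper60.HSF.IO_I1
import Pool.Agent.Lib_helper60.HSF.IO_I4

/-! ## Block I6: `inner_near`, `inner_scale` -/

namespace Pool.Agent.HS

noncomputable section

open Set Filter Topology Classical

theorem i6_inY_sub (V V' : ℂ × ℂ × ℂ × ℂ × ℝ) : ‖inY V - inY V'‖ ≤ ‖V - V'‖ := by
  have h1 : ‖V.1 - V'.1‖ ≤ ‖V - V'‖ := norm_fst_le (V - V')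
  have h2 : ‖V.2 - V'.2‖ ≤ ‖V - V'‖ := norm_snd_le (V - V')
  have h3 : ‖V.2.2 - V'.2.2‖ ≤ ‖V.2 - V'.2‖ := norm_snd_le (V.2 - V'.2)
  have e : inY V - inY V' = (V.1 - V'.1, V.2.2 - V'.2.2) := rfl
  rw [e, Prod.norm_def]
  exact max_le h1 (h3.trans h2)

theorem i6_B_sub (V V' : ℂ × ℂ × ℂ × ℂ × ℝ) : ‖V.2.1 - V'.2.1‖ ≤ ‖V - V'‖ := by
  have h2 : ‖V.2 - V'.2‖ ≤ ‖V - V'‖ := norm_snd_le (V - V')
  have h3 : ‖V.2.1 - V'.2.1‖ ≤ ‖V.2 - V'.2‖ := norm_fst_le (V.2 - V'.2)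
  exact h3.trans h2

theorem i6_dist (p q : Dt × ℝ) : ‖p.1 - q.1‖ + |p.2 - q.2| ≤ 2 * dist p q := by
  have h1 : ‖p.1 - q.1‖ ≤ dist p q := by
    rw [← dist_eq_norm, Prod.dist_eq]
    exact le_max_left _ _
  have h2 : |p.2 - q.2| ≤ dist p q := by
    rw [← Real.dist_eq, Prod.dist_eq]
    exact le_max_right _ _
  linarith

theorem inner_near_pr (c : ℝ) (hc : 0 < c) : ∃ σ L : ℝ, 0 < σ ∧ 1 ≤ L ∧
    ∀ μ g, 0 < μ → μ ≤ g → g ≤ σ →
    Near (L * g ^ 2) (fun p : Dt × ℝ => inY (innV μ p.1 p.2 g))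
      (fun p => inY (inn0 p.1 p.2)) (DD c ×ˢ JJ) ∧
    Near (L * g ^ 4) (fun p : Dt × ℝ => (innV μ p.1 p.2 g).2.1)
      (fun p => ((μ / g) ^ 2 : ℝ) * D0 p.1.2.2.1 p.1.2.2.2 p.2) (DD c ×ˢ JJ) := by
  obtain ⟨σ, K, C, hσ, hσ1, hK, hKσ, hC, hsol⟩ := inner_sol c hc
  obtain ⟨L₀, hL₀, -, hlip⟩ := A0_lip c hc
  refine ⟨σ, 16 * K * L₀, hσ, by nlinarith, fun μ g hμ hμg hg => ?_⟩
  have hμσ : μ ≤ σ := hμg.trans hg
  obtain ⟨P, Q, hR, hs⟩ := hsol μ hμ hμσ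
  have hg0 : 0 < g := hμ.trans_le hμg
  have hmem : g ∈ Icc μ σ := ⟨hμg, hg⟩
  have hK0 : 0 ≤ K := by linarith
  have hKL : K ≤ 16 * K * L₀ := by nlinarith
  -- the initial values
  have hb : ∀ p ∈ DD c ×ˢ JJ, ‖inY (innV μ p.1 p.2 g) - inY (inn0 p.1 p.2)‖ ≤ K * g ^ 2 ∧
      ‖(innV μ p.1 p.2 g).2.1 - ((μ / g) ^ 2 : ℝ) * D0 p.1.2.2.1 p.1.2.2.2 p.2‖ ≤ K * g ^ 4 := by
    rintro ⟨d, β⟩ ⟨hd, hβ⟩
    obtain ⟨-, -, -, h0, hS, -⟩ := hs d hd β hβ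
    obtain ⟨b1, b2⟩ := inner_bound hμ hμσ hK0 hR hS g hmem
    simp only [h0] at b1 b2
    refine ⟨b1, ?_⟩
    have e : ((μ / g) ^ 2 : ℝ) • (inn0 d β).2.1 = (((μ / g) ^ 2 : ℝ) : ℂ) * D0 d.2.2.1 d.2.2.2 β := by
      rw [Complex.real_smul]
      rfl
    rw [e] at b2
    exact b2
  have hd : ∀ p ∈ DD c ×ˢ JJ, ∀ q ∈ DD c ×ˢ JJ,
      ‖(inY (innV μ p.1 p.2 g) - inY (inn0 p.1 p.2)) -
        (inY (innV μ q.1 q.2 g) - inY (inn0 q.1 q.2))‖ ≤ 16 * K * L₀ * g ^ 2 * dist p q ∧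
      ‖((innV μ p.1 p.2 g).2.1 - ((μ / g) ^ 2 : ℝ) * D0 p.1.2.2.1 p.1.2.2.2 p.2) -
        ((innV μ q.1 q.2 g).2.1 - ((μ / g) ^ 2 : ℝ) * D0 q.1.2.2.1 q.1.2.2.2 q.2)‖ ≤
        16 * K * L₀ * g ^ 4 * dist p q := by
    rintro ⟨d, β⟩ ⟨hd, hβ⟩ ⟨d', β'⟩ ⟨hd', hβ'⟩
    obtain ⟨-, -, -, h0, hS, -⟩ := hs d hd β hβ
    obtain ⟨-, -, -, h0', hS', -⟩ := hs d' hd' β' hβ'
    obtain ⟨b1, b2⟩ := inner_diff hμ hμσ hK0 hKσ hσ1 hR hS hS' g hmem
    simp only [h0, h0'] at b1 b2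
    have l := hlip d hd d' hd' β hβ β' hβ'
    have l1 := (i6_inY_sub (inn0 d β) (inn0 d' β')).trans l
    have l2 := (i6_B_sub (inn0 d β) (inn0 d' β')).trans l
    have l3 := i6_dist (d, β) (d', β')
    have l4 : ‖inY (inn0 d β) - inY (inn0 d' β')‖ + ‖(inn0 d β).2.1 - (inn0 d' β').2.1‖ ≤
        4 * L₀ * dist (d, β) (d', β') := by
      have : L₀ * (‖d - d'‖ + |β - β'|) ≤ L₀ * (2 * dist (d, β) (d', β')) :=
        mul_le_mul_of_nonneg_left l3 (by linarith)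
      linarith
    constructor
    · have e : (inY (innV μ d β g) - inY (inn0 d β)) - (inY (innV μ d' β' g) - inY (inn0 d' β')) =
          (inY (innV μ d β g) - inY (innV μ d' β' g)) - (inY (inn0 d β) - inY (inn0 d' β')) := by
        abel
      show ‖(inY (innV μ d β g) - inY (inn0 d β)) - (inY (innV μ d' β' g) - inY (inn0 d' β'))‖ ≤ _
      rw [e]
      refine b1.trans ?_
      have := mul_le_mul_of_nonneg_left l4 (show 0 ≤ 4 * K * g ^ 2 by positivity)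
      refine this.trans (le_of_eq ?_)
      ring
    · have e : ((innV μ d β g).2.1 - (((μ / g) ^ 2 : ℝ) : ℂ) * D0 d.2.2.1 d.2.2.2 β) -
          ((innV μ d' β' g).2.1 - (((μ / g) ^ 2 : ℝ) : ℂ) * D0 d'.2.2.1 d'.2.2.2 β') =
          ((innV μ d β g).2.1 - (innV μ d' β' g).2.1) -
            ((μ / g) ^ 2 : ℝ) • ((inn0 d β).2.1 - (inn0 d' β').2.1) := by
        rw [Complex.real_smul]
        show _ = ((innV μ d β g).2.1 - (innV μ d' β' g).2.1) -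
          (((μ / g) ^ 2 : ℝ) : ℂ) * (D0 d.2.2.1 d.2.2.2 β - D0 d'.2.2.1 d'.2.2.2 β')
        ring
      show ‖((innV μ d β g).2.1 - (((μ / g) ^ 2 : ℝ) : ℂ) * D0 d.2.2.1 d.2.2.2 β) -
          ((innV μ d' β' g).2.1 - (((μ / g) ^ 2 : ℝ) : ℂ) * D0 d'.2.2.1 d'.2.2.2 β')‖ ≤ _
      rw [e]
      refine b2.trans ?_
      have := mul_le_mul_of_nonneg_left l4 (show 0 ≤ 4 * K * g ^ 4 by positivity)
      refine this.trans (le_of_eq ?_)
      ring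
  refine ⟨⟨fun p hp => ?_, fun p hp q hq => (hd p hp q hq).1⟩,
    ⟨fun p hp => ?_, fun p hp q hq => (hd p hp q hq).2⟩⟩
  · exact (hb p hp).1.trans (mul_le_mul_of_nonneg_right hKL (by positivity))
  · exact (hb p hp).2.trans (mul_le_mul_of_nonneg_right hKL (by positivity))

/-- I7: Lipschitz dependence on the scale -/
theorem inner_scale_pr (c : ℝ) (hc : 0 < c) : ∃ σ L : ℝ, 0 < σ ∧ 1 ≤ L ∧ ∀ μ, 0 < μ →
    ∀ g ∈ Icc μ σ, ∀ g' ∈ Icc μ σ, ∀ d ∈ DD c, ∀ β ∈ JJ,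
      ‖inY (innV μ d β g) - inY (innV μ d β g')‖ ≤ L * max g g' * |g - g'| ∧
      ‖((g / μ) ^ 2 : ℝ) * (innV μ d β g).2.1 - ((g' / μ) ^ 2 : ℝ) * (innV μ d β g').2.1‖ ≤
        L * (max g g') ^ 5 / μ ^ 2 * |g - g'| := by
  obtain ⟨σ, K, C, hσ, hσ1, hK, hKσ, hC, hsol⟩ := inner_sol c hc
  refine ⟨σ, K, hσ, hK, fun μ hμ g hg g' hg' d hd β hβ => ?_⟩
  have hμσ : μ ≤ σ := hg.1.trans hg.2
  obtain ⟨P, Q, hR, hs⟩ := hsol μ hμ hμσ
  obtain ⟨-, -, -, h0, hS, -⟩ := hs d hd β hβ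
  have hK0 : 0 ≤ K := by linarith
  set S : Set ℝ := uIcc g' g with hSd
  have hsub : S ⊆ Icc μ σ := by
    rw [hSd]
    exact uIcc_subset_Icc hg' hg
  have hmax : ∀ x ∈ S, x ≤ max g g' := by
    intro x hx
    rw [hSd, mem_uIcc] at hx
    rcases hx with h | h
    · exact h.2.trans (le_max_left _ _)
    · exact h.2.trans (le_max_right _ _)
  have hconv : Convex ℝ S := convex_uIcc g' g
  have hl : g' ∈ S := left_mem_uIcc
  have hr : g ∈ S := right_mem_uIcc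
  constructor
  · have h := Convex.norm_image_sub_le_of_norm_hasDerivWithin_le
      (f := fun x => inY (innV μ d β x)) (C := K * max g g')
      (fun x hx => ((hS x (hsub hx)).1).mono hsub) (fun x hx => ?_) hconv hl hr
    · rw [Real.norm_eq_abs] at h
      exact h
    · have hx' := hsub hx
      have hx0 : 0 ≤ x := hμ.le.trans hx'.1
      have b := ((hR.2.2 x ⟨hx0, hx'.2⟩).1 (inY (innV μ d β x)) (innV μ d β x).2.1).1
      exact b.trans (mul_le_mul_of_nonneg_left (hmax x hx) hK0)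
  · have hder : ∀ x ∈ S, HasDerivWithinAt (fun x => ((x / μ) ^ 2 : ℝ) • (innV μ d β x).2.1)
        (((x / μ) ^ 2 : ℝ) • Q x (inY (innV μ d β x)) (innV μ d β x).2.1) S x := by
      intro x hx
      have hx' := hsub hx
      have hx0 : 0 < x := hμ.trans_le hx'.1
      have h1 : HasDerivWithinAt (fun x : ℝ => (x / μ) ^ 2) (2 * x / μ ^ 2) S x := by
        have h := (((hasDerivAt_id x).div_const μ).pow 2).hasDerivWithinAt (s := S)
        refine h.congr_deriv ?_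
        have e21 : (2 - 1 : ℕ) = 1 := rfl
        rw [e21, pow_one, id]
        push_cast
        ring
      have h2 := ((hS x hx').2).mono hsub
      have h3 := h1.smul h2
      refine h3.congr_deriv ?_
      simp only [Complex.real_smul]
      push_cast
      have hxc : (x : ℂ) ≠ 0 := by exact_mod_cast hx0.ne'
      have hμc : (μ : ℂ) ≠ 0 := by exact_mod_cast hμ.ne'
      field_simp
      ring
    have h := Convex.norm_image_sub_le_of_norm_hasDerivWithin_le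
      (f := fun x => ((x / μ) ^ 2 : ℝ) • (innV μ d β x).2.1) (C := K * (max g g') ^ 5 / μ ^ 2)
      hder (fun x hx => ?_) hconv hl hr
    · rw [Real.norm_eq_abs] at h
      simp only [Complex.real_smul] at h
      exact h
    · have hx' := hsub hx
      have hx0 : 0 < x := hμ.trans_le hx'.1
      have b := ((hR.2.2 x ⟨hx0.le, hx'.2⟩).1 (inY (innV μ d β x)) (innV μ d β x).2.1).2
      rw [norm_smul, Real.norm_of_nonneg (by positivity)]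
      have h5 : x ^ 5 ≤ (max g g') ^ 5 := pow_le_pow_left₀ hx0.le (hmax x hx) 5
      calc (x / μ) ^ 2 * ‖Q x (inY (innV μ d β x)) (innV μ d β x).2.1‖
          ≤ (x / μ) ^ 2 * (K * x ^ 3) := mul_le_mul_of_nonneg_left b (by positivity)
        _ = K * x ^ 5 / μ ^ 2 := by field_simp
        _ ≤ K * (max g g') ^ 5 / μ ^ 2 := by
          refine div_le_div_of_nonneg_right ?_ (by positivity)
          exact mul_le_mul_of_nonneg_left h5 hK0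

end

end Pool.Agent.HS

namespace Pool.Agent.HS
open Set Filter Topology Classical

theorem inner_near (c : ℝ) (hc : 0 < c) : ∃ σ L : ℝ, 0 < σ ∧ 1 ≤ L ∧ ∀ μ g, 0 < μ → μ ≤ g → g ≤ σ →
    Near (L * g ^ 2) (fun p : Dt × ℝ => inY (innV μ p.1 p.2 g))
      (fun p => inY (inn0 p.1 p.2)) (DD c ×ˢ JJ) ∧
    Near (L * g ^ 4) (fun p : Dt × ℝ => (innV μ p.1 p.2 g).2.1)
      (fun p => ((μ / g) ^ 2 : ℝ) * D0 p.1.2.2.1 p.1.2.2.2 p.2) (DD c ×ˢ JJ) :=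
  @Pool.Agent.HS.inner_near_pr c hc

end Pool.Agent.HS

namespace Pool.Agent.HS
open Set Filter Topology Classical

theorem inner_scale (c : ℝ) (hc : 0 < c) : ∃ σ L : ℝ, 0 < σ ∧ 1 ≤ L ∧ ∀ μ, 0 < μ →
    ∀ g ∈ Icc μ σ, ∀ g' ∈ Icc μ σ, ∀ d ∈ DD c, ∀ β ∈ JJ,
      ‖inY (innV μ d β g) - inY (innV μ d β g')‖ ≤ L * max g g' * |g - g'| ∧
      ‖((g / μ) ^ 2 : ℝ) * (innV μ d β g).2.1 - ((g' / μ) ^ 2 : ℝ) * (innV μ d β g').2.1‖ ≤
        L * (max g g') ^ 5 / μ ^ 2 * |g - g'| :=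
  @Pool.Agent.HS.inner_scale_pr c hc

end Pool.Agent.HS
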