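import Pool.Agent.Lib_helper60.HSF.D_WI
import Pool.Agent.Lib_helper60.HSF.IO_I6
import Pool.Agent.Lib_helper60.HSF.IO_I1
import Pool.Agent.Lib_helper60.HSF.IO_I4

/-!
# Block I9: the leg: constraint, no collision of 2 and 3, distances from the sun
-/

namespace Pool.Agent.HS

noncomputable section

open Set Filter Topology Classical

theorem i9_fst {E F : Type*} [NormedAddCommGroup E] [NormedSpace ℝ E] [NormedAddCommGroup F]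
    [NormedSpace ℝ F] {f : ℝ → E × F} {f' : E × F} {S : Set ℝ} {s : ℝ}
    (h : HasDerivWithinAt f f' S s) : HasDerivWithinAt (fun x => (f x).1) f'.1 S s :=
  (ContinuousLinearMap.fst ℝ E F).hasFDerivAt.comp_hasDerivWithinAt s h

theorem i9_snd {E F : Type*} [NormedAddCommGroup E] [NormedSpace ℝ E] [NormedAddCommGroup F]
    [NormedSpace ℝ F] {f : ℝ → E × F} {f' : E × F} {S : Set ℝ} {s : ℝ}
    (h : HasDerivWithinAt f f' S s) : HasDerivWithinAt (fun x => (f x).2) f'.2 S s :=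
  (ContinuousLinearMap.snd ℝ E F).hasFDerivAt.comp_hasDerivWithinAt s h

theorem i9_mono {f f' : ℝ → ℝ} {a b : ℝ}
    (h : ∀ x ∈ Icc a b, HasDerivWithinAt f (f' x) (Icc a b) x)
    (h0 : ∀ x ∈ Icc a b, 0 ≤ f' x) (hab : a ≤ b) : f a ≤ f b := by
  have hm : MonotoneOn f (Icc a b) := by
    refine monotoneOn_of_hasDerivWithinAt_nonneg (f' := f') (convex_Icc a b)
      (fun x hx => (h x hx).continuousWithinAt) ?_ ?_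
    · intro x hx
      exact (h x (interior_subset hx)).mono interior_subset
    · intro x hx
      exact h0 x (interior_subset hx)
  exact hm ⟨le_rfl, hab⟩ ⟨hab, le_rfl⟩ hab

theorem i9_const {f f' : ℝ → ℝ} {a b : ℝ}
    (h : ∀ x ∈ Icc a b, HasDerivWithinAt f (f' x) (Icc a b) x)
    (h0 : ∀ x ∈ Icc a b, f' x = 0) (hab : a ≤ b) : f b = f a := by
  have h1 := Convex.norm_image_sub_le_of_norm_hasDerivWithin_le (f := f) (f' := f') (C := 0)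
    (s := Icc a b) (x := a) (y := b) h (fun x hx => by rw [h0 x hx, norm_zero])
    (convex_Icc a b) ⟨le_rfl, hab⟩ ⟨hab, le_rfl⟩
  rw [zero_mul] at h1
  exact sub_eq_zero.mp (norm_le_zero_iff.mp h1)

theorem i9_inner (a b : ℂ) : Inner.inner ℝ a b = ((starRingEnd ℂ) a * b).re := by
  rw [Complex.inner, mul_comm]

/-- the perturbation -/
def i9_E (g : ℝ) (V : ℂ × ℂ × ℂ × ℂ × ℝ) : ℂ :=
  inP V.2.2.1 (g * (V.1 + V.2.1)) (g * (V.1 - V.2.1)) V.2.2.2.2 / (2 * g ^ 2)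

/-- the real number `Re (conj u conj v F)` -/
def i9_X (g : ℝ) (V : ℂ × ℂ × ℂ × ℂ × ℝ) : ℝ :=
  ((starRingEnd ℂ) (g * (V.1 + V.2.1)) * (starRingEnd ℂ) (g * (V.1 - V.2.1)) *
    inF V.2.2.1 (g * (V.1 + V.2.1))).re

theorem i9_ode {μ g₁ : ℝ} {V : ℝ → ℂ × ℂ × ℂ × ℂ × ℝ} (h : InnerODE μ g₁ V) (g : ℝ)
    (hg : g ∈ Icc μ g₁) :
    HasDerivWithinAt (fun s => (V s).1) (i9_E g (V g)) (Icc μ g₁) g ∧
    HasDerivWithinAt (fun s => (V s).2.1) (-(2 * (V g).2.1 / g) - i9_E g (V g)) (Icc μ g₁) g ∧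
    HasDerivWithinAt (fun s => (V s).2.2.2.2) (2 * i9_X g (V g) / g) (Icc μ g₁) g := by
  have h0 := h g hg
  simp only at h0
  exact ⟨i9_fst h0, i9_fst (i9_snd h0), i9_snd (i9_snd (i9_snd (i9_snd h0)))⟩

theorem i9_u {μ g₁ : ℝ} {V : ℝ → ℂ × ℂ × ℂ × ℂ × ℝ} (h : InnerODE μ g₁ V) (g : ℝ)
    (hg : g ∈ Icc μ g₁) (hg0 : g ≠ 0) :
    HasDerivWithinAt (fun s : ℝ => (s : ℂ) * ((V s).1 + (V s).2.1)) ((V g).1 - (V g).2.1)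
      (Icc μ g₁) g ∧
    HasDerivWithinAt (fun s : ℝ => (s : ℂ) * ((V s).1 - (V s).2.1))
      ((V g).1 + (V g).2.1 + 2 * g * i9_E g (V g)) (Icc μ g₁) g := by
  obtain ⟨h1, h2, _⟩ := i9_ode h g hg
  have hc : (g : ℂ) ≠ 0 := by exact_mod_cast hg0
  have h3 : HasDerivWithinAt (fun s : ℝ => (s : ℂ)) 1 (Icc μ g₁) g :=
    Complex.ofRealCLM.hasDerivAt.hasDerivWithinAt
  constructor
  · refine (h3.mul (h1.add h2)).congr_deriv ?_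
    simp only [Pi.add_apply]
    field_simp
    ring
  · refine (h3.mul (h1.sub h2)).congr_deriv ?_
    simp only [Pi.sub_apply]
    field_simp
    ring

theorem i9_vE (g : ℝ) (V : ℂ × ℂ × ℂ × ℂ × ℝ) :
    ((starRingEnd ℂ) (g * (V.1 - V.2.1)) * i9_E g V).re =
      1 / (2 * g ^ 2 * V.2.2.2.2) * (i9_X g V *
        (‖g * (V.1 + V.2.1)‖ ^ 2 - ‖g * (V.1 - V.2.1)‖ ^ 2)) := by
  have e1 : (starRingEnd ℂ) (g * (V.1 - V.2.1)) * (g * (V.1 - V.2.1)) =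
      ((‖g * (V.1 - V.2.1)‖ ^ 2 : ℝ) : ℂ) := by
    rw [mul_comm, Complex.mul_conj, Complex.normSq_eq_norm_sq]
  have e2 : (starRingEnd ℂ) (g * (V.1 - V.2.1)) * i9_E g V =
      ((1 / (2 * g ^ 2 * V.2.2.2.2) : ℝ) : ℂ) *
        (((‖g * (V.1 + V.2.1)‖ ^ 2 : ℝ) : ℂ) *
          ((starRingEnd ℂ) (g * (V.1 + V.2.1)) * (starRingEnd ℂ) (g * (V.1 - V.2.1)) *
            inF V.2.2.1 (g * (V.1 + V.2.1))) -
          ((i9_X g V : ℝ) : ℂ) * ((starRingEnd ℂ) (g * (V.1 - V.2.1)) * (g * (V.1 - V.2.1)))) := by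
    unfold i9_E inP i9_X
    push_cast
    ring
  rw [e2, e1, Complex.re_ofReal_mul, Complex.sub_re, Complex.re_ofReal_mul,
    Complex.re_ofReal_mul, Complex.ofReal_re]
  unfold i9_X
  ring

/-- the constraint is conserved -/
theorem i9_constr {μ g₁ : ℝ} {V : ℝ → ℂ × ℂ × ℂ × ℂ × ℝ} (h : InnerODE μ g₁ V) (g : ℝ)
    (hg : g ∈ Icc μ g₁) (hg0 : g ≠ 0) (hh : (V g).2.2.2.2 ≠ 0) :
    HasDerivWithinAt (fun s : ℝ => (V s).2.2.2.2 * (‖(s : ℂ) * ((V s).1 - (V s).2.1)‖ ^ 2 -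
      ‖(s : ℂ) * ((V s).1 + (V s).2.1)‖ ^ 2)) 0 (Icc μ g₁) g := by
  obtain ⟨_, _, h3⟩ := i9_ode h g hg
  obtain ⟨hu, hv⟩ := i9_u h g hg hg0
  refine (h3.mul (hv.norm_sq.sub hu.norm_sq)).congr_deriv ?_
  simp only [i9_inner, Pi.sub_apply]
  have e1 : ((starRingEnd ℂ) ((g : ℂ) * ((V g).1 - (V g).2.1)) *
      ((V g).1 + (V g).2.1 + 2 * g * i9_E g (V g))).re =
      g * ((starRingEnd ℂ) ((V g).1 - (V g).2.1) * ((V g).1 + (V g).2.1)).re +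
        2 * g * ((starRingEnd ℂ) (g * ((V g).1 - (V g).2.1)) * i9_E g (V g)).re := by
    rw [← Complex.re_ofReal_mul]
    have : (2 * g * ((starRingEnd ℂ) (g * ((V g).1 - (V g).2.1)) * i9_E g (V g)).re) =
        (((2 * g : ℝ) : ℂ) * ((starRingEnd ℂ) (g * ((V g).1 - (V g).2.1)) * i9_E g (V g))).re := by
      rw [Complex.re_ofReal_mul]
    rw [this, ← Complex.add_re]
    congr 1
    rw [map_mul, Complex.conj_ofReal]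
    push_cast
    ring
  have e2 : ((starRingEnd ℂ) ((g : ℂ) * ((V g).1 + (V g).2.1)) * ((V g).1 - (V g).2.1)).re =
      g * ((starRingEnd ℂ) ((V g).1 - (V g).2.1) * ((V g).1 + (V g).2.1)).re := by
    rw [← Complex.re_ofReal_mul, ← Complex.conj_re]
    congr 1
    simp only [map_mul, Complex.conj_ofReal, Complex.conj_conj]
    ring
  rw [e1, e2, i9_vE]
  field_simp
  ring

/-- the derivative of `|A|^2 - |B|^2` -/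
theorem i9_q {μ g₁ : ℝ} {V : ℝ → ℂ × ℂ × ℂ × ℂ × ℝ} (h : InnerODE μ g₁ V) (g : ℝ)
    (hg : g ∈ Icc μ g₁) :
    HasDerivWithinAt (fun s : ℝ => ‖(V s).1‖ ^ 2 - ‖(V s).2.1‖ ^ 2)
      (4 * ‖(V g).2.1‖ ^ 2 / g + 2 * ((starRingEnd ℂ) ((V g).1 + (V g).2.1) * i9_E g (V g)).re)
      (Icc μ g₁) g := by
  obtain ⟨h1, h2, _⟩ := i9_ode h g hg
  refine (h1.norm_sq.sub h2.norm_sq).congr_deriv ?_
  simp only [i9_inner]
  have e1 : ((starRingEnd ℂ) (V g).2.1 * (-(2 * (V g).2.1 / g) - i9_E g (V g))).re =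
      -(2 / g * ‖(V g).2.1‖ ^ 2) - ((starRingEnd ℂ) (V g).2.1 * i9_E g (V g)).re := by
    have e3 : (starRingEnd ℂ) (V g).2.1 * (V g).2.1 = ((‖(V g).2.1‖ ^ 2 : ℝ) : ℂ) := by
      rw [mul_comm, Complex.mul_conj, Complex.normSq_eq_norm_sq]
    have e4 : (starRingEnd ℂ) (V g).2.1 * (-(2 * (V g).2.1 / g) - i9_E g (V g)) =
        ((-(2 / g) : ℝ) : ℂ) * ((starRingEnd ℂ) (V g).2.1 * (V g).2.1) -
          (starRingEnd ℂ) (V g).2.1 * i9_E g (V g) := by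
      push_cast
      ring
    rw [e4, e3, Complex.sub_re, Complex.re_ofReal_mul, Complex.ofReal_re]
    ring
  rw [e1, map_add, add_mul, Complex.add_re]
  ring

/-- the derivative of `|u|^2` -/
theorem i9_uu {μ g₁ : ℝ} {V : ℝ → ℂ × ℂ × ℂ × ℂ × ℝ} (h : InnerODE μ g₁ V) (g : ℝ)
    (hg : g ∈ Icc μ g₁) (hg0 : g ≠ 0) :
    HasDerivWithinAt (fun s : ℝ => ‖(s : ℂ) * ((V s).1 + (V s).2.1)‖ ^ 2)
      (2 * g * (‖(V g).1‖ ^ 2 - ‖(V g).2.1‖ ^ 2)) (Icc μ g₁) g := by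
  obtain ⟨hu, _⟩ := i9_u h g hg hg0
  refine hu.norm_sq.congr_deriv ?_
  simp only [i9_inner]
  rw [← Complex.normSq_eq_norm_sq, ← Complex.normSq_eq_norm_sq, Complex.normSq_apply,
    Complex.normSq_apply]
  simp only [map_mul, map_add, Complex.conj_ofReal, Complex.mul_re, Complex.mul_im,
    Complex.add_re, Complex.add_im, Complex.sub_re, Complex.sub_im, Complex.conj_re,
    Complex.conj_im, Complex.ofReal_re, Complex.ofReal_im]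
  ring

/-- the perturbation is of order three -/
theorem i9_Eb {μ σ K : ℝ} {V : ℝ → ℂ × ℂ × ℂ × ℂ × ℝ}
    {P : ℝ → ℂ × ℂ × ℂ × ℝ → ℂ → ℂ × ℂ × ℂ × ℝ} {Q : ℝ → ℂ × ℂ × ℂ × ℝ → ℂ → ℂ}
    (h : InnerODE μ σ V) (hμ : 0 < μ) (hμσ : μ < σ) (hr : InnerRHS K σ P Q)
    (hs : InnerSol μ σ P Q (fun g => inY (V g)) (fun g => (V g).2.1)) (g : ℝ)
    (hg : g ∈ Icc μ σ) : ‖i9_E g (V g)‖ ≤ K * g ^ 3 := by
  obtain ⟨_, h2, _⟩ := i9_ode h g hg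
  obtain ⟨_, h4⟩ := hs g hg
  have hu := (uniqueDiffOn_Icc hμσ g hg).eq_deriv _ h2 h4
  have hg' : g ∈ Icc 0 σ := ⟨by linarith [hg.1], hg.2⟩
  obtain ⟨hb, _⟩ := hr.2.2 g hg'
  have e : i9_E g (V g) = -(Q g (inY (V g)) (V g).2.1) := by
    have e1 : -(2 / g) • (V g).2.1 = -(2 * (V g).2.1 / g) := by
      rw [Complex.real_smul]
      push_cast
      ring
    simp only [e1] at hu
    linear_combination (-1 : ℂ) * hu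
  rw [e, norm_neg]
  exact (hb _ _).2

theorem i9_small (M e s0 : ℝ) (hM : 0 < M) (he : 0 < e) (hs : 0 < s0) :
    ∃ s : ℝ, 0 < s ∧ s ≤ 1 ∧ s ≤ s0 ∧ M * s ^ 2 ≤ e := by
  refine ⟨min s0 (min 1 (e / M)), ?_, ?_, ?_, ?_⟩
  · exact lt_min hs (lt_min one_pos (div_pos he hM))
  · exact (min_le_right _ _).trans (min_le_left _ _)
  · exact min_le_left _ _
  · set s := min s0 (min 1 (e / M)) with hsd
    have h0 : 0 < s := lt_min hs (lt_min one_pos (div_pos he hM))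
    have h1 : s ≤ 1 := (min_le_right _ _).trans (min_le_left _ _)
    have h2 : s ≤ e / M := (min_le_right _ _).trans (min_le_right _ _)
    have h3 : s * M ≤ e := (le_div_iff₀ hM).mp h2
    nlinarith [mul_pos hM h0]

/-- the smallness conditions -/
theorem i9_small5 {c C K L1 L2 s0 : ℝ} (hc : 0 < c) (hC : 1 ≤ C) (hK : 1 ≤ K) (hL1 : 1 ≤ L1)
    (hL2 : 1 ≤ L2) (hs : 0 < s0) : ∃ σ : ℝ, 0 < σ ∧ σ ≤ 1 ∧ σ ≤ s0 ∧ L1 * σ ^ 2 ≤ c / 4 ∧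
      L1 * σ ^ 2 ≤ c ^ 2 / 4 ∧ L1 * σ ^ 2 ≤ (1 / L2) / 8 ∧ 4 * C ^ 2 * σ ^ 2 ≤ c / 4 ∧
      64 * L2 ^ 2 * C * K * σ ^ 2 ≤ 1 := by
  obtain ⟨σ, hσ, hσ1', hσs, hσM⟩ := i9_small (L1 + 4 * C ^ 2 + 64 * L2 ^ 2 * C * K)
    (min (c / 4) (min (c ^ 2 / 4) (min ((1 / L2) / 8) 1))) s0 (by positivity)
    (by
      refine lt_min (by positivity) (lt_min (by positivity) (lt_min (by positivity) one_pos)))
    hs
  have hm1 := hσM.trans (min_le_left _ _)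
  have hm2 := hσM.trans ((min_le_right _ _).trans (min_le_left _ _))
  have hm3 := hσM.trans ((min_le_right _ _).trans ((min_le_right _ _).trans (min_le_left _ _)))
  have hm4 := hσM.trans ((min_le_right _ _).trans ((min_le_right _ _).trans (min_le_right _ _)))
  have p1 : 0 ≤ L1 * σ ^ 2 := by positivity
  have p2 : 0 ≤ 4 * C ^ 2 * σ ^ 2 := by positivity
  have p3 : 0 ≤ 64 * L2 ^ 2 * C * K * σ ^ 2 := by positivity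
  have e : (L1 + 4 * C ^ 2 + 64 * L2 ^ 2 * C * K) * σ ^ 2 =
      L1 * σ ^ 2 + 4 * C ^ 2 * σ ^ 2 + 64 * L2 ^ 2 * C * K * σ ^ 2 := by ring
  rw [e] at hm1 hm2 hm3 hm4
  exact ⟨σ, hσ, hσ1', hσs, by linarith, by linarith, by linarith, by linarith, by linarith⟩

theorem i9_quart {x σ : ℝ} (hx : 0 ≤ x) (hxσ : x ≤ σ) (hσ : σ ≤ 1) :
    x ^ 2 ≤ σ ^ 2 ∧ x ^ 4 ≤ σ ^ 2 := by
  have h1 : x ^ 2 ≤ σ ^ 2 := pow_le_pow_left₀ hx hxσ 2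
  have h2 : x ^ 4 ≤ x ^ 2 := pow_le_pow_of_le_one hx (hxσ.trans hσ) (by norm_num)
  exact ⟨h1, h2.trans h1⟩

theorem i9_qpos {x b r C K L2 σ : ℝ} (hx : 0 < x) (hxσ : x ≤ σ) (hσ : σ ≤ 1) (hC : 1 ≤ C)
    (hK : 1 ≤ K) (hL2 : 1 ≤ L2) (hb : (1 / L2) / 8 ≤ b) (hr : |r| ≤ 2 * C * (K * x ^ 3))
    (hs : 64 * L2 ^ 2 * C * K * σ ^ 2 ≤ 1) : 0 ≤ 4 * b ^ 2 / x + 2 * r := by
  have hL0 : 0 < L2 := by linarith
  have e9 : 1 / (64 * L2 ^ 2) ≤ b ^ 2 := by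
    have : 1 / (64 * L2 ^ 2) = ((1 / L2) / 8) ^ 2 := by
      field_simp
      norm_num
    rw [this]
    exact pow_le_pow_left₀ (by positivity) hb 2
  have f1 : x ^ 4 ≤ σ ^ 2 := (i9_quart hx.le hxσ hσ).2
  have f2 : 4 * C * K * x ^ 4 ≤ 4 * C * K * σ ^ 2 :=
    mul_le_mul_of_nonneg_left f1 (by positivity)
  have f3 : 4 * C * K * σ ^ 2 ≤ 4 * (1 / (64 * L2 ^ 2)) := by
    rw [mul_one_div, le_div_iff₀ (by positivity)]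
    calc 4 * C * K * σ ^ 2 * (64 * L2 ^ 2) = 4 * (64 * L2 ^ 2 * C * K * σ ^ 2) := by ring
      _ ≤ 4 * 1 := mul_le_mul_of_nonneg_left hs (by norm_num)
      _ = 4 := by norm_num
  have e11 : 4 * C * K * x ^ 3 ≤ 4 * b ^ 2 / x := by
    rw [le_div_iff₀ hx]
    have : 4 * C * K * x ^ 3 * x = 4 * C * K * x ^ 4 := by ring
    rw [this]
    linarith
  have e12 := (abs_le.mp hr).1
  have e13 : 2 * (2 * C * (K * x ^ 3)) = 4 * C * K * x ^ 3 := by ring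
  linarith

theorem i9_facts (V : ℂ × ℂ × ℂ × ℂ × ℝ) (d : Dt) (β e : ℝ)
    (hA : ‖A0 d.2.2.1 d.2.2.2 β‖ = amp d.2.2.1 β)
    (h : ‖inY V - inY (inn0 d β)‖ ≤ e) :
    amp d.2.2.1 β - e ≤ ‖V.1‖ ∧ d.1.re - e ≤ V.2.2.1.re ∧
      d.2.2.1 ^ 2 / 2 - e ≤ V.2.2.2.2 := by
  refine ⟨?_, ?_, ?_⟩
  · have h2 : ‖V.1 - A0 d.2.2.1 d.2.2.2 β‖ ≤ ‖inY V - inY (inn0 d β)‖ :=
      norm_fst_le (inY V - inY (inn0 d β))
    have h3 : ‖A0 d.2.2.1 d.2.2.2 β‖ - ‖V.1‖ ≤ ‖A0 d.2.2.1 d.2.2.2 β - V.1‖ :=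
      norm_sub_norm_le _ _
    rw [norm_sub_rev, hA] at h3
    linarith
  · have h2 : ‖V.2.2.1 - d.1‖ ≤ ‖inY V - inY (inn0 d β)‖ :=
      (norm_fst_le (inY V - inY (inn0 d β)).2).trans
        (norm_snd_le (inY V - inY (inn0 d β)))
    have h3 := (abs_le.mp (Complex.abs_re_le_norm (V.2.2.1 - d.1))).1
    rw [Complex.sub_re] at h3
    linarith
  · have h2 : ‖V.2.2.2.2 - d.2.2.1 ^ 2 / 2‖ ≤ ‖inY V - inY (inn0 d β)‖ :=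
      (norm_snd_le (inY V - inY (inn0 d β)).2.2).trans
        ((norm_snd_le (inY V - inY (inn0 d β)).2).trans
          (norm_snd_le (inY V - inY (inn0 d β))))
    rw [Real.norm_eq_abs] at h2
    have h3 := neg_abs_le (V.2.2.2.2 - d.2.2.1 ^ 2 / 2)
    linarith

theorem i9_B (B D : ℂ) (m a e : ℝ) (hm : 0 ≤ m) (hD : ‖D‖ = a)
    (h : ‖B - (m : ℝ) * D‖ ≤ e) : |‖B‖ - m * a| ≤ e := by
  have h2 := abs_norm_sub_norm_le B ((m : ℂ) * D)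
  have h3 : ‖((m : ℂ) * D)‖ = m * a := by
    rw [norm_mul, hD, Complex.norm_real, Real.norm_eq_abs, abs_of_nonneg hm]
  rw [h3] at h2
  exact h2.trans h

theorem i9_sun (R z : ℂ) (m c : ℝ) (hm : |m| ≤ 1) (hR : c / 2 ≤ R.re)
    (hz : ‖z‖ ^ 2 ≤ c / 4) : c / 4 ≤ ‖R + m * z ^ 2‖ ∧ c / 4 ≤ ‖R - m * z ^ 2‖ := by
  have h1 : ‖(m : ℂ) * z ^ 2‖ ≤ c / 4 := by
    rw [norm_mul, norm_pow, Complex.norm_real, Real.norm_eq_abs]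
    calc |m| * ‖z‖ ^ 2 ≤ 1 * ‖z‖ ^ 2 := mul_le_mul_of_nonneg_right hm (sq_nonneg _)
      _ ≤ c / 4 := by linarith
  have h3 := abs_le.mp (Complex.abs_re_le_norm ((m : ℂ) * z ^ 2))
  have h5 := Complex.re_le_norm (R + (m : ℂ) * z ^ 2)
  have h6 := Complex.re_le_norm (R - (m : ℂ) * z ^ 2)
  rw [Complex.add_re] at h5
  rw [Complex.sub_re] at h6
  constructor
  · linarith [h3.1]
  · linarith [h3.2]

/-- the facts about the leg that are used below -/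
structure i9_H (c μ σ C K L1 L2 : ℝ) (d : Dt) (β : ℝ) (W : ℝ → ℂ × ℂ × ℂ × ℂ × ℝ) : Prop where
  hc : 0 < c
  hμ : 0 < μ
  hμσ : μ ≤ σ
  hσ1 : σ ≤ 1
  hC : 1 ≤ C
  hK : 1 ≤ K
  hL1 : 1 ≤ L1
  hL2 : 1 ≤ L2
  s1 : L1 * σ ^ 2 ≤ c / 4
  s2 : L1 * σ ^ 2 ≤ c ^ 2 / 4
  s3 : L1 * σ ^ 2 ≤ (1 / L2) / 8
  s4 : 4 * C ^ 2 * σ ^ 2 ≤ c / 4
  s5 : 64 * L2 ^ 2 * C * K * σ ^ 2 ≤ 1
  ode : InnerODE μ σ W
  start : W μ = inn0 d β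
  hd : d ∈ DD c
  amp1 : 1 / L2 ≤ amp d.2.2.1 β
  near1 : ∀ s ∈ Icc μ σ, ‖inY (W s) - inY (inn0 d β)‖ ≤ L1 * s ^ 2
  near2 : ∀ s ∈ Icc μ σ,
    ‖(W s).2.1 - ((μ / s) ^ 2 : ℝ) * D0 d.2.2.1 d.2.2.2 β‖ ≤ L1 * s ^ 4
  ok1 : ∀ s ∈ Icc μ σ, ‖(W s).1‖ ≤ C
  ok2 : ∀ s ∈ Icc μ σ, ‖(W s).2.1‖ ≤ C
  Eb : ∀ s ∈ Icc μ σ, ‖i9_E s (W s)‖ ≤ K * s ^ 3

variable {c μ σ C K L1 L2 : ℝ} {d : Dt} {β : ℝ} {W : ℝ → ℂ × ℂ × ℂ × ℂ × ℝ}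

theorem i9_H.kpos (H : i9_H c μ σ C K L1 L2 d β W) : 0 < d.2.2.1 :=
  lt_of_lt_of_le H.hc H.hd.2.2.2.1

theorem i9_H.bA (H : i9_H c μ σ C K L1 L2 d β W) (s : ℝ) (hs : s ∈ Icc μ σ) :
    amp d.2.2.1 β - (1 / L2) / 8 ≤ ‖(W s).1‖ ∧ c / 2 ≤ (W s).2.2.1.re ∧
      c ^ 2 / 4 ≤ (W s).2.2.2.2 := by
  have hs0 : 0 ≤ s := by linarith [hs.1, H.hμ]
  have h1 : L1 * s ^ 2 ≤ L1 * σ ^ 2 :=
    mul_le_mul_of_nonneg_left (i9_quart hs0 hs.2 H.hσ1).1 (by linarith [H.hL1])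
  obtain ⟨b1, -⟩ := A0_alg d.2.2.1 d.2.2.2 β H.kpos
  obtain ⟨a1, a2, a3⟩ := i9_facts (W s) d β _ b1 (H.near1 s hs)
  have h4 : c ^ 2 ≤ d.2.2.1 ^ 2 := pow_le_pow_left₀ H.hc.le H.hd.2.2.2.1 2
  have h5 : c ≤ d.1.re := H.hd.1
  have := H.s1
  have := H.s2
  have := H.s3
  have := H.hc
  exact ⟨by linarith, by linarith, by linarith⟩

theorem i9_H.bB (H : i9_H c μ σ C K L1 L2 d β W) (s : ℝ) (hs : s ∈ Icc μ σ) :
    |‖(W s).2.1‖ - (μ / s) ^ 2 * amp d.2.2.1 β| ≤ (1 / L2) / 8 := by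
  have hs0 : 0 ≤ s := by linarith [hs.1, H.hμ]
  obtain ⟨-, b2, -⟩ := A0_alg d.2.2.1 d.2.2.2 β H.kpos
  have h1 := i9_B _ _ _ _ _ (sq_nonneg (μ / s)) b2 (H.near2 s hs)
  have h2 : L1 * s ^ 4 ≤ L1 * σ ^ 2 :=
    mul_le_mul_of_nonneg_left (i9_quart hs0 hs.2 H.hσ1).2 (by linarith [H.hL1])
  linarith [H.s3]

theorem i9_H.far (H : i9_H c μ σ C K L1 L2 d β W) (s : ℝ) (hs : s ∈ Icc μ σ)
    (h2 : 2 * μ ≤ s) : ‖(W s).2.1‖ + (1 / L2) / 2 ≤ ‖(W s).1‖ := by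
  have hμ := H.hμ
  have hs0 : 0 < s := by linarith
  have e1 : (μ / s) ^ 2 ≤ 1 / 4 := by
    have h3 : μ / s ≤ 1 / 2 := by
      rw [div_le_iff₀ hs0]
      linarith
    have h0' : 0 ≤ μ / s := by positivity
    calc (μ / s) ^ 2 ≤ (1 / 2) ^ 2 := pow_le_pow_left₀ h0' h3 2
      _ = 1 / 4 := by norm_num
  have e2 := (abs_le.mp (H.bB s hs)).2
  have e3 := (H.bA s hs).1
  have hamp : 0 ≤ amp d.2.2.1 β := by
    have h1 : 0 < 1 / L2 := by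
      have := H.hL2
      positivity
    linarith [H.amp1]
  have e4 : (μ / s) ^ 2 * amp d.2.2.1 β ≤ 1 / 4 * amp d.2.2.1 β :=
    mul_le_mul_of_nonneg_right e1 hamp
  linarith [H.amp1]

theorem i9_H.qder (H : i9_H c μ σ C K L1 L2 d β W) (x : ℝ) (hx : x ∈ Icc μ σ)
    (h2 : x ≤ 2 * μ) : 0 ≤ 4 * ‖(W x).2.1‖ ^ 2 / x +
          2 * ((starRingEnd ℂ) ((W x).1 + (W x).2.1) * i9_E x (W x)).re := by
  have hμ := H.hμ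
  have hx0 : 0 < x := by linarith [hx.1]
  have e1 : 1 / 4 ≤ (μ / x) ^ 2 := by
    have h3 : 1 / 2 ≤ μ / x := by
      rw [le_div_iff₀ hx0]
      linarith
    calc (1 : ℝ) / 4 = (1 / 2) ^ 2 := by norm_num
      _ ≤ (μ / x) ^ 2 := pow_le_pow_left₀ (by norm_num) h3 2
  have hamp : 0 ≤ amp d.2.2.1 β := by
    have h1 : 0 < 1 / L2 := by
      have := H.hL2
      positivity
    linarith [H.amp1]
  have e2 := (abs_le.mp (H.bB x hx)).1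
  have e3 : 1 / 4 * amp d.2.2.1 β ≤ (μ / x) ^ 2 * amp d.2.2.1 β :=
    mul_le_mul_of_nonneg_right e1 hamp
  have e4 : (1 / L2) / 8 ≤ ‖(W x).2.1‖ := by linarith [H.amp1]
  have e6 : ‖(starRingEnd ℂ) ((W x).1 + (W x).2.1) * i9_E x (W x)‖ ≤
      2 * C * (K * x ^ 3) := by
    rw [norm_mul, RCLike.norm_conj]
    have e7 : ‖(W x).1 + (W x).2.1‖ ≤ 2 * C := by
      have := norm_add_le (W x).1 (W x).2.1
      linarith [H.ok1 x hx, H.ok2 x hx]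
    have := H.hC
    exact mul_le_mul e7 (H.Eb x hx) (norm_nonneg _) (by positivity)
  exact i9_qpos hx0 hx.2 H.hσ1 H.hC H.hK H.hL2 e4
    ((Complex.abs_re_le_norm _).trans e6) H.s5

/-- monotonicity of `|A|^2 - |B|^2` below `2 μ` -/
theorem i9_H.qmono (H : i9_H c μ σ C K L1 L2 d β W) (a b : ℝ) (ha : μ ≤ a) (hab : a ≤ b)
    (hb : b ≤ σ) (hb2 : b ≤ 2 * μ) :
    ‖(W a).1‖ ^ 2 - ‖(W a).2.1‖ ^ 2 ≤ ‖(W b).1‖ ^ 2 - ‖(W b).2.1‖ ^ 2 := by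
  have hsub : Icc a b ⊆ Icc μ σ := fun y hy => ⟨ha.trans hy.1, hy.2.trans hb⟩
  exact i9_mono (f := fun s : ℝ => ‖(W s).1‖ ^ 2 - ‖(W s).2.1‖ ^ 2)
    (f' := fun x => 4 * ‖(W x).2.1‖ ^ 2 / x +
      2 * ((starRingEnd ℂ) ((W x).1 + (W x).2.1) * i9_E x (W x)).re) (a := a) (b := b)
    (fun x hx => (i9_q H.ode x (hsub hx)).mono hsub)
    (fun x hx => H.qder x (hsub hx) (hx.2.trans hb2)) hab

theorem i9_H.q0 (H : i9_H c μ σ C K L1 L2 d β W) :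
    ‖(W μ).1‖ ^ 2 - ‖(W μ).2.1‖ ^ 2 = 0 := by
  obtain ⟨b1, b2, -⟩ := A0_alg d.2.2.1 d.2.2.2 β H.kpos
  rw [H.start]
  show ‖A0 d.2.2.1 d.2.2.2 β‖ ^ 2 - ‖D0 d.2.2.1 d.2.2.2 β‖ ^ 2 = 0
  rw [b1, b2, sub_self]

theorem i9_H.qpos (H : i9_H c μ σ C K L1 L2 d β W) (s : ℝ) (h1 : μ ≤ s) (h2 : s ≤ σ) :
    0 ≤ ‖(W s).1‖ ^ 2 - ‖(W s).2.1‖ ^ 2 := by
  have hμ := H.hμ
  by_cases h3 : 2 * μ ≤ s
  · have h4 := H.far s ⟨by linarith, h2⟩ h3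
    have h5 : 0 < 1 / L2 := by
      have := H.hL2
      positivity
    have h6 : ‖(W s).2.1‖ ≤ ‖(W s).1‖ := by linarith
    have h7 := pow_le_pow_left₀ (norm_nonneg _) h6 2
    linarith
  · push Not at h3
    have h4 := H.qmono μ s le_rfl h1 h2 h3.le
    rw [H.q0] at h4
    exact h4

/-- `|u|` has its minimum at `μ` -/
theorem i9_H.umin (H : i9_H c μ σ C K L1 L2 d β W) (s : ℝ) (hs : s ∈ Icc μ σ) :
    ‖(μ : ℂ) * ((W μ).1 + (W μ).2.1)‖ ^ 2 ≤ ‖(s : ℂ) * ((W s).1 + (W s).2.1)‖ ^ 2 := by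
  have hμ := H.hμ
  have hsub : Icc μ s ⊆ Icc μ σ := fun y hy => ⟨hy.1, hy.2.trans hs.2⟩
  exact i9_mono (f := fun s : ℝ => ‖(s : ℂ) * ((W s).1 + (W s).2.1)‖ ^ 2)
    (f' := fun x => 2 * x * (‖(W x).1‖ ^ 2 - ‖(W x).2.1‖ ^ 2)) (a := μ) (b := s)
    (fun x hx => (i9_uu H.ode x (hsub hx) (by linarith [hx.1])).mono hsub)
    (fun x hx => mul_nonneg (by linarith [hx.1]) (H.qpos x hx.1 (hx.2.trans hs.2))) hs.1

theorem i9_H.constr0 (H : i9_H c μ σ C K L1 L2 d β W) :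
    (W μ).2.2.2.2 * (‖(μ : ℂ) * ((W μ).1 - (W μ).2.1)‖ ^ 2 -
      ‖(μ : ℂ) * ((W μ).1 + (W μ).2.1)‖ ^ 2) = μ ^ 2 := by
  obtain ⟨-, -, -, -, -, -, b7, b8⟩ := A0_alg d.2.2.1 d.2.2.2 β H.kpos
  have hk := H.kpos
  rw [H.start]
  show (d.2.2.1 ^ 2 / 2) * (‖(μ : ℂ) * (A0 d.2.2.1 d.2.2.2 β - D0 d.2.2.1 d.2.2.2 β)‖ ^ 2 -
    ‖(μ : ℂ) * (A0 d.2.2.1 d.2.2.2 β + D0 d.2.2.1 d.2.2.2 β)‖ ^ 2) = μ ^ 2
  rw [norm_mul, norm_mul, mul_pow, mul_pow, b7, b8, Complex.norm_real, Real.norm_eq_abs, sq_abs]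
  field_simp
  ring

/-- the constraint -/
theorem i9_H.constr (H : i9_H c μ σ C K L1 L2 d β W) (s : ℝ) (hs : s ∈ Icc μ σ) :
    (W s).2.2.2.2 * (‖(s : ℂ) * ((W s).1 - (W s).2.1)‖ ^ 2 -
      ‖(s : ℂ) * ((W s).1 + (W s).2.1)‖ ^ 2) = μ ^ 2 := by
  have hμ := H.hμ
  rw [← H.constr0]
  have hder : ∀ x ∈ Icc μ σ, HasDerivWithinAt (fun s : ℝ => (W s).2.2.2.2 *
      (‖(s : ℂ) * ((W s).1 - (W s).2.1)‖ ^ 2 - ‖(s : ℂ) * ((W s).1 + (W s).2.1)‖ ^ 2)) 0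
      (Icc μ σ) x := by
    intro x hx
    refine i9_constr H.ode x hx (by linarith [hx.1]) ?_
    have h1 := (H.bA x hx).2.2
    have h2 : 0 < c ^ 2 / 4 := by
      have := H.hc
      positivity
    linarith
  exact i9_const (f := fun s : ℝ => (W s).2.2.2.2 *
    (‖(s : ℂ) * ((W s).1 - (W s).2.1)‖ ^ 2 - ‖(s : ℂ) * ((W s).1 + (W s).2.1)‖ ^ 2))
    (f' := fun _ => 0) (a := μ) (b := s) (fun x hx =>
      (hder x ⟨hx.1, hx.2.trans hs.2⟩).mono (fun y hy => ⟨hy.1, hy.2.trans hs.2⟩))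
    (fun _ _ => rfl) hs.1

theorem i9_H.ne (H : i9_H c μ σ C K L1 L2 d β W) (s : ℝ) (hs : s ∈ Icc μ σ)
    (hβ0 : β ≠ 0) : (W s).1 + (W s).2.1 ≠ 0 := by
  intro hz
  have h1 := H.umin s hs
  have hk := H.kpos
  have hμ := H.hμ
  obtain ⟨-, -, -, -, -, -, b7, -⟩ := A0_alg d.2.2.1 d.2.2.2 β hk
  rw [hz, H.start] at h1
  have h2 : (inn0 d β).1 + (inn0 d β).2.1 = A0 d.2.2.1 d.2.2.2 β + D0 d.2.2.1 d.2.2.2 β := rfl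
  rw [h2, norm_mul, mul_pow, b7, Complex.norm_real, Real.norm_eq_abs, sq_abs, mul_zero,
    norm_zero] at h1
  have h3 : 1 < Real.sqrt (1 + d.2.2.1 ^ 2 * β ^ 2) := by
    rw [Real.lt_sqrt (by norm_num)]
    have : 0 < d.2.2.1 ^ 2 * β ^ 2 := by positivity
    linarith
  have h4 : 0 < μ ^ 2 * ((Real.sqrt (1 + d.2.2.1 ^ 2 * β ^ 2) - 1) / d.2.2.1 ^ 2) := by
    have : 0 < Real.sqrt (1 + d.2.2.1 ^ 2 * β ^ 2) - 1 := by linarith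
    positivity
  have h5 : (0 : ℝ) ^ 2 = 0 := by norm_num
  rw [h5] at h1
  linarith

theorem i9_H.usq (H : i9_H c μ σ C K L1 L2 d β W) (s : ℝ) (hs : s ∈ Icc μ σ) :
    ‖(s : ℂ) * ((W s).1 + (W s).2.1)‖ ^ 2 ≤ c / 4 := by
  have hs0 : 0 ≤ s := by linarith [hs.1, H.hμ]
  have h1 : ‖(W s).1 + (W s).2.1‖ ≤ 2 * C := by
    have := norm_add_le (W s).1 (W s).2.1
    linarith [H.ok1 s hs, H.ok2 s hs]
  rw [norm_mul, Complex.norm_real, Real.norm_eq_abs, abs_of_nonneg hs0, mul_pow]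
  have h2 := (i9_quart hs0 hs.2 H.hσ1).1
  have h3 : ‖(W s).1 + (W s).2.1‖ ^ 2 ≤ (2 * C) ^ 2 :=
    pow_le_pow_left₀ (norm_nonneg _) h1 2
  calc s ^ 2 * ‖(W s).1 + (W s).2.1‖ ^ 2 ≤ σ ^ 2 * (2 * C) ^ 2 :=
        mul_le_mul h2 h3 (by positivity) (by positivity)
    _ = 4 * C ^ 2 * σ ^ 2 := by ring
    _ ≤ c / 4 := H.s4

theorem i9_ode_mono {g₁ g₂ : ℝ} {V : ℝ → ℂ × ℂ × ℂ × ℂ × ℝ} (h : InnerODE μ g₂ V)
    (hg : g₁ ≤ g₂) : InnerODE μ g₁ V := by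
  intro g hg'
  exact (h g ⟨hg'.1, hg'.2.trans hg⟩).mono (Icc_subset_Icc le_rfl hg)

theorem leg_facts_pr (c : ℝ) (hc : 0 < c) : ∃ σ L : ℝ, 0 < σ ∧ σ ≤ 1 ∧ 1 ≤ L ∧
    ∀ μ g, 0 < μ → μ ≤ g → g ≤ σ → ∀ d ∈ DD c, ∀ β ∈ JJ,
      let V := innV μ d β g
      V.2.2.2.2 * (‖g * (V.1 - V.2.1)‖ ^ 2 - ‖g * (V.1 + V.2.1)‖ ^ 2) = μ ^ 2 ∧
      (β ≠ 0 → V.1 + V.2.1 ≠ 0) ∧
      (L * μ ≤ g → 1 / L ≤ ‖V.1 + V.2.1‖) ∧
      1 / L ≤ ‖V.1‖ ∧ ‖V.1‖ ≤ L ∧ ‖V.2.1‖ ≤ L ∧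
      c / 2 ≤ V.2.2.1.re ∧ ‖V.2.2.1‖ ≤ L ∧ ‖V.2.2.2.1‖ ≤ L ∧ c ^ 2 / 4 ≤ V.2.2.2.2 ∧
      V.2.2.2.2 ≤ L ∧
      c / 4 ≤ ‖V.2.2.1 + mb * (g * (V.1 + V.2.1)) ^ 2‖ ∧
      c / 4 ≤ ‖V.2.2.1 - ma * (g * (V.1 + V.2.1)) ^ 2‖ := by
  obtain ⟨σ1, K, C, hσ1, hσ11, hK, -, hC, H1⟩ := inner_sol c hc
  obtain ⟨σ2, L1, hσ2, hL1, H2⟩ := inner_near c hc
  obtain ⟨L2, hL2, H3, -⟩ := A0_lip c hc
  have hL20 : 0 < L2 := by linarith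
  obtain ⟨σ, hσ, hσ1', hσs, s1, s2, s3, s4, s5⟩ := i9_small5 (c := c) (C := C) (K := K)
    (L1 := L1) (L2 := L2) (s0 := min (σ1 / 2) σ2) hc hC hK hL1 hL2 (lt_min (by linarith) hσ2)
  have hσσ2' : σ ≤ σ1 / 2 := hσs.trans (min_le_left _ _)
  have hσσ1 : σ ≤ σ1 := by linarith
  have hσσ2 : σ ≤ σ2 := hσs.trans (min_le_right _ _)
  refine ⟨σ, 2 * L2 + C + 2, hσ, hσ1', by linarith, ?_⟩
  intro μ g hμ hμg hg d hd β hβ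
  have hμσ : μ ≤ σ := hμg.trans hg
  have hμ1 : μ ≤ σ1 := hμσ.trans hσσ1
  have hμσ1 : μ < σ1 := by linarith
  obtain ⟨P, Q, hPQ, H4⟩ := H1 μ hμ hμ1
  obtain ⟨-, -, hode, h0, hsol, hok⟩ := H4 d hd β hβ
  obtain ⟨ha1, -, -⟩ := H3 d.2.2.1 hd.2.2.2.1 hd.2.2.2.2 β hβ
  have hin : ∀ s ∈ Icc μ σ, s ∈ Icc μ σ1 := fun s hs => ⟨hs.1, hs.2.trans hσσ1⟩
  have H : i9_H c μ σ C K L1 L2 d β (innV μ d β) :=
    { hc := hc, hμ := hμ, hμσ := hμσ, hσ1 := hσ1', hC := hC, hK := hK, hL1 := hL1, hL2 := hL2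
      s1 := s1, s2 := s2, s3 := s3, s4 := s4, s5 := s5
      ode := i9_ode_mono hode hσσ1
      start := h0
      hd := hd
      amp1 := ha1
      near1 := fun s hs =>
        (H2 μ s hμ hs.1 (hs.2.trans hσσ2)).1.1 (d, β) ⟨hd, hβ⟩
      near2 := fun s hs =>
        (H2 μ s hμ hs.1 (hs.2.trans hσσ2)).2.1 (d, β) ⟨hd, hβ⟩
      ok1 := fun s hs => (hok s (hin s hs)).1
      ok2 := fun s hs => (hok s (hin s hs)).2.1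
      Eb := fun s hs => i9_Eb hode hμ hμσ1 hPQ hsol s (hin s hs) }
  have hgm : g ∈ Icc μ σ := ⟨hμg, hg⟩
  obtain ⟨k1, k2, -, k4, k5, -, k7⟩ := hok g (hin g hgm)
  have hL2i : 0 < 1 / L2 := by positivity
  have hbig : 1 / (2 * L2 + C + 2) ≤ (1 / L2) / 2 := by
    have e : (1 / L2) / 2 = 1 / (2 * L2) := by
      field_simp
    rw [e]
    exact one_div_le_one_div_of_le (by positivity) (by linarith)
  obtain ⟨hA, hR, hh⟩ := H.bA g hgm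
  have hu := H.usq g hgm
  have hmb : |mb| ≤ 1 := by
    unfold mb
    rw [abs_of_pos (by norm_num)]
    norm_num
  have hma : |ma| ≤ 1 := by
    unfold ma
    rw [abs_of_pos (by norm_num)]
    norm_num
  have k1' : ‖(innV μ d β g).1‖ ≤ C := k1
  have k4' : ‖(innV μ d β g).2.2.1‖ ≤ C := k4
  have k5' : ‖(innV μ d β g).2.2.2.1‖ ≤ C := k5
  have k7' : (innV μ d β g).2.2.2.2 ≤ C := k7
  refine ⟨H.constr g hgm, H.ne g hgm, ?_, by linarith, by linarith, by linarith, hR,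
    by linarith, by linarith, hh, by linarith, (i9_sun _ _ _ _ hmb hR hu).1,
    (i9_sun _ _ _ _ hma hR hu).2⟩
  intro hLg
  have hs2 : 2 * μ ≤ g := by
    have : 2 * μ ≤ (2 * L2 + C + 2) * μ :=
      mul_le_mul_of_nonneg_right (by linarith) hμ.le
    linarith
  have e5 := norm_sub_le_norm_add (innV μ d β g).1 (innV μ d β g).2.1
  linarith [H.far g hgm hs2]

end

end Pool.Agent.HS

namespace Pool.Agent.HS
open Set Filter Topology Classical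

theorem leg_facts (c : ℝ) (hc : 0 < c) : ∃ σ L : ℝ, 0 < σ ∧ σ ≤ 1 ∧ 1 ≤ L ∧
    ∀ μ g, 0 < μ → μ ≤ g → g ≤ σ → ∀ d ∈ DD c, ∀ β ∈ JJ,
      let V := innV μ d β g
      V.2.2.2.2 * (‖g * (V.1 - V.2.1)‖ ^ 2 - ‖g * (V.1 + V.2.1)‖ ^ 2) = μ ^ 2 ∧
      (β ≠ 0 → V.1 + V.2.1 ≠ 0) ∧
      (L * μ ≤ g → 1 / L ≤ ‖V.1 + V.2.1‖) ∧
      1 / L ≤ ‖V.1‖ ∧ ‖V.1‖ ≤ L ∧ ‖V.2.1‖ ≤ L ∧
      c / 2 ≤ V.2.2.1.re ∧ ‖V.2.2.1‖ ≤ L ∧ ‖V.2.2.2.1‖ ≤ L ∧ c ^ 2 / 4 ≤ V.2.2.2.2 ∧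
      V.2.2.2.2 ≤ L ∧
      c / 4 ≤ ‖V.2.2.1 + mb * (g * (V.1 + V.2.1)) ^ 2‖ ∧
      c / 4 ≤ ‖V.2.2.1 - ma * (g * (V.1 + V.2.1)) ^ 2‖ :=
  @Pool.Agent.HS.leg_facts_pr c hc

end Pool.Agent.HS
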