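import Pool.Agent.Lib_helper60.HSF.D_WI

/-!
# Project HS, block R1: curves with a positive time change are orbits
-/

namespace Pool.Agent.HS

noncomputable section

open Set Filter Topology

theorem r1_time {a b : ℝ} (hab : a ≤ b) {φ : ℝ → ℝ} (hφ : ContinuousOn φ (Icc a b))
    (hpos : ∀ s ∈ Icc a b, 0 < φ s) :
    ∃ σ : ℝ → ℝ, σ 0 = a ∧ σ (∫ s in a..b, φ s) = b ∧ Monotone σ ∧
      ∀ u, σ u ∈ Icc a b → HasDerivAt σ (φ (σ u))⁻¹ u := by
  set φe : ℝ → ℝ := IccExtend hab ((Icc a b).domRestrict φ) with hφe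
  have hc : Continuous φe := Continuous.Icc_extend' (continuousOn_iff_continuous_domRestrict.mp hφ)
  have heq : ∀ s ∈ Icc a b, φe s = φ s := fun s hs => by
    rw [hφe, IccExtend_of_mem hab _ hs]
    rfl
  obtain ⟨s0, hs0, hmin⟩ := isCompact_Icc.exists_isMinOn (nonempty_Icc.mpr hab) hφ
  have hc0 : 0 < φ s0 := hpos s0 hs0
  have hge : ∀ s, φ s0 ≤ φe s := by
    intro s
    rw [hφe]
    show φ s0 ≤ (Icc a b).domRestrict φ (projIcc a b hab s)
    exact hmin (projIcc a b hab s).2
  set t : ℝ → ℝ := fun s => ∫ x in a..s, φe x with ht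
  have hd : ∀ s, HasDerivAt t (φe s) s := fun s => hc.integral_hasStrictDerivAt a s |>.hasDerivAt
  have hmono : StrictMono t := by
    apply strictMono_of_deriv_pos
    intro s
    rw [(hd s).deriv]
    exact hc0.trans_le (hge s)
  have hmono2 : Monotone (fun s => t s - φ s0 * s) := by
    apply monotone_of_deriv_nonneg
    · intro s
      exact ((hd s).sub ((hasDerivAt_id s).const_mul (φ s0))).differentiableAt
    · intro s
      have h1 : HasDerivAt (fun s => t s - φ s0 * s) (φe s - φ s0 * 1) s :=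
        (hd s).sub ((hasDerivAt_id s).const_mul (φ s0))
      rw [h1.deriv]
      linarith [hge s]
  have hta : t a = 0 := intervalIntegral.integral_same
  have hcont : Continuous t := continuous_iff_continuousAt.mpr fun s => (hd s).continuousAt
  have htop : Tendsto t atTop atTop := by
    have h1 : Tendsto (fun s : ℝ => φ s0 * s + (-(φ s0 * a))) atTop atTop :=
      tendsto_atTop_add_const_right _ _ (tendsto_id.const_mul_atTop hc0)
    apply tendsto_atTop_mono' _ _ h1
    filter_upwards [eventually_ge_atTop a] with s hs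
    have := hmono2 hs
    simp only [hta] at this
    linarith
  have hbot : Tendsto t atBot atBot := by
    have h1 : Tendsto (fun s : ℝ => φ s0 * s + (-(φ s0 * a))) atBot atBot :=
      tendsto_atBot_add_const_right _ _ (tendsto_id.const_mul_atBot hc0)
    apply tendsto_atBot_mono' _ _ h1
    filter_upwards [eventually_le_atBot a] with s hs
    have := hmono2 hs
    simp only [hta] at this
    linarith
  have hsurj : Function.Surjective t := hcont.surjective htop hbot
  set e : ℝ ≃o ℝ := StrictMono.orderIsoOfSurjective t hmono hsurj with he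
  have he1 : ∀ s, e s = t s := fun s => rfl
  have hint : ∫ s in a..b, φ s = t b := by
    rw [ht]
    apply intervalIntegral.integral_congr
    intro s hs
    rw [uIcc_of_le hab] at hs
    exact (heq s hs).symm
  refine ⟨e.symm, ?_, ?_, e.symm.monotone, ?_⟩
  · rw [OrderIso.symm_apply_eq, he1, hta]
  · rw [OrderIso.symm_apply_eq, he1, hint]
  · intro u hu
    rw [← heq _ hu]
    apply HasDerivAt.of_local_left_inverse e.symm.continuous.continuousAt (hd _)
      (hc0.trans_le (hge _)).ne'
    apply Eventually.of_forall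
    intro y
    rw [← he1]
    exact e.apply_symm_apply y

theorem reach_of_param_pr {M a b : ℝ} (hab : a ≤ b) {γ : ℝ → St} {φ : ℝ → ℝ}
    (hφ : ContinuousOn φ (Icc a b)) (hpos : ∀ s ∈ Icc a b, 0 < φ s)
    (hγ : ∀ s ∈ Icc a b, NC (γ s) ∧ HasDerivWithinAt γ (φ s • vf M (γ s)) (Icc a b) s) :
    ReachT M (∫ s in a..b, φ s) (γ a) (γ b) := by
  obtain ⟨σ, h0, hT, hm, hd⟩ := r1_time hab hφ hpos
  have hTn : 0 ≤ ∫ s in a..b, φ s :=
    intervalIntegral.integral_nonneg hab fun s hs => (hpos s hs).le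
  set T := ∫ s in a..b, φ s with hTd
  have hmaps : MapsTo σ (Icc 0 T) (Icc a b) := by
    intro u hu
    constructor
    · rw [← h0]
      exact hm hu.1
    · rw [← hT]
      exact hm hu.2
  refine ⟨hTn, γ ∘ σ, ?_, ?_, ?_⟩
  · intro u hu
    have hu' := hmaps hu
    obtain ⟨hN, hD⟩ := hγ (σ u) hu'
    refine ⟨hN, ?_⟩
    have h1 := HasDerivWithinAt.scomp u hD (hd u hu').hasDerivWithinAt hmaps
    rw [smul_smul, inv_mul_cancel₀ (hpos _ hu').ne', one_smul] at h1
    exact h1
  · show γ (σ 0) = γ a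
    rw [h0]
  · show γ (σ T) = γ b
    rw [hT]

theorem reachT_reach_pr {M : ℝ} {y y' : St} : Reach M y y' ↔ ∃ T, ReachT M T y y' := Iff.rfl

end

end Pool.Agent.HS

namespace Pool.Agent.HS
open Set Filter Topology Classical

theorem reach_of_param {M a b : ℝ} (hab : a ≤ b) {γ : ℝ → St} {φ : ℝ → ℝ}
    (hφ : ContinuousOn φ (Icc a b)) (hpos : ∀ s ∈ Icc a b, 0 < φ s)
    (hγ : ∀ s ∈ Icc a b, NC (γ s) ∧ HasDerivWithinAt γ (φ s • vf M (γ s)) (Icc a b) s) :
    ReachT M (∫ s in a..b, φ s) (γ a) (γ b) :=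
  @Pool.Agent.HS.reach_of_param_pr M a b hab γ φ hφ hpos hγ

end Pool.Agent.HS

namespace Pool.Agent.HS
open Set Filter Topology Classical

theorem reachT_reach {M : ℝ} {y y' : St} : Reach M y y' ↔ ∃ T, ReachT M T y y' :=
  @Pool.Agent.HS.reachT_reach_pr M y y'

end Pool.Agent.HS
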