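import Pool.Agent.Lib_helper60.HSF.D_WI
import Pool.Agent.Lib_helper60.HSF.IO_I9
import Pool.Agent.Lib_helper60.HSF.IO_R1
import Pool.Agent.Lib_helper60.HSF.IO_I4

namespace Pool.Agent.HS

noncomputable section

open Set Filter Topology Classical

theorem i10_fst {E F : Type*} [NormedAddCommGroup E] [NormedSpace ℝ E] [NormedAddCommGroup F]
    [NormedSpace ℝ F] {f : ℝ → E × F} {f' : E × F} {S : Set ℝ} {x : ℝ}
    (h : HasDerivWithinAt f f' S x) : HasDerivWithinAt (fun s => (f s).1) f'.1 S x :=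
  (ContinuousLinearMap.fst ℝ E F).hasFDerivAt.comp_hasDerivWithinAt x h

theorem i10_snd {E F : Type*} [NormedAddCommGroup E] [NormedSpace ℝ E] [NormedAddCommGroup F]
    [NormedSpace ℝ F] {f : ℝ → E × F} {f' : E × F} {S : Set ℝ} {x : ℝ}
    (h : HasDerivWithinAt f f' S x) : HasDerivWithinAt (fun s => (f s).2) f'.2 S x :=
  (ContinuousLinearMap.snd ℝ E F).hasFDerivAt.comp_hasDerivWithinAt x h

theorem i10_conj {f : ℝ → ℂ} {f' : ℂ} {S : Set ℝ} {x : ℝ}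
    (h : HasDerivWithinAt f f' S x) :
    HasDerivWithinAt (fun s => (starRingEnd ℂ) (f s)) ((starRingEnd ℂ) f') S x :=
  (Complex.conjCLE : ℂ →L[ℝ] ℂ).hasFDerivAt.comp_hasDerivWithinAt x h

/-- the vector field in the variables `R, U, ξ, w` -/
theorem i10_vf (M : ℝ) (R U ξ w : ℂ) : vf M (ofRU R U ξ w) =
    ofRU ((1 + M) * U) (-(ma * G (R + mb * ξ) + mb * G (R - ma * ξ))) w
      (-(M * G ξ) - (G (R + mb * ξ) - G (R - ma * ξ))) := by
  have h1 : (R + mb * ξ) - (R - ma * ξ) = ξ := by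
    simp only [ma, mb]; push_cast; ring
  unfold vf ofRU
  simp only [x3, x2, u3, u2, h1]
  refine Prod.ext ?_ (Prod.ext ?_ (Prod.ext ?_ ?_))
  · simp only [ma, mb]; push_cast; ring
  · simp only [ma, mb]; push_cast; ring
  · simp only [ma, mb]; push_cast; ring
  · simp only [ma, mb]; push_cast; ring

theorem i10_ofRU_deriv {R U ξ w : ℝ → ℂ} {R' U' ξ' w' : ℂ} {S : Set ℝ} {x : ℝ}
    (hR : HasDerivWithinAt R R' S x) (hU : HasDerivWithinAt U U' S x)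
    (hξ : HasDerivWithinAt ξ ξ' S x) (hw : HasDerivWithinAt w w' S x) :
    HasDerivWithinAt (fun s => ofRU (R s) (U s) (ξ s) (w s)) (ofRU R' U' ξ' w') S x := by
  unfold ofRU
  exact (hR.add (hξ.const_mul _)).prodMk ((hR.sub (hξ.const_mul _)).prodMk
    ((hU.add (hw.const_mul _)).prodMk (hU.sub (hw.const_mul _))))

theorem i10_smul (φ : ℝ) (R U ξ w : ℂ) :
    φ • ofRU R U ξ w = ofRU (φ * R) (φ * U) (φ * ξ) (φ * w) := by
  unfold ofRU
  refine Prod.ext ?_ (Prod.ext ?_ (Prod.ext ?_ ?_))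
  all_goals simp only [Prod.smul_fst, Prod.smul_snd, Complex.real_smul]; ring

/-- the algebraic identity for the relative velocity -/
theorem i10_alg {s om r M : ℝ} {u v F P : ℂ} (hs : 0 < s) (hom : 0 < om) (hu : u ≠ 0)
    (hM : (2 * om ^ 2) * (‖v‖ ^ 2 - ‖u‖ ^ 2) = M)
    (hP : P = (1 / (2 * om ^ 2) : ℝ) * ((‖u‖ ^ 2 : ℝ) * (starRingEnd ℂ) u * F - (r : ℂ) * v)) :
    (((2 * ((r / s / (2 * om) : ℝ) : ℂ) * v + 2 * (om : ℂ) * ((u + P) / s)) * (starRingEnd ℂ) u -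
      2 * (om : ℂ) * v * (starRingEnd ℂ) (v / s)) / ((starRingEnd ℂ) u) ^ 2) =
      ((‖u‖ ^ 2 / (s * om) : ℝ) : ℂ) * (-((M : ℂ) * G (u ^ 2)) + F) := by
  have hcu : (starRingEnd ℂ) u ≠ 0 := by simpa using hu
  have nu : ((‖u‖ ^ 2 : ℝ) : ℂ) = u * (starRingEnd ℂ) u := by
    rw [Complex.mul_conj, Complex.normSq_eq_norm_sq]
  have nv : ((‖v‖ ^ 2 : ℝ) : ℂ) = v * (starRingEnd ℂ) v := by
    rw [Complex.mul_conj, Complex.normSq_eq_norm_sq]
  have hsC : (s : ℂ) ≠ 0 := by exact_mod_cast hs.ne'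
  have homC : (om : ℂ) ≠ 0 := by exact_mod_cast hom.ne'
  have hMC : (M : ℂ) = (2 * (om:ℂ) ^ 2) * (v * (starRingEnd ℂ) v - u * (starRingEnd ℂ) u) := by
    rw [← nu, ← nv, ← hM]; push_cast; ring
  have hG : G (u ^ 2) = 1 / (u * ((starRingEnd ℂ) u) ^ 3) := by
    unfold G
    have h1 : (((‖u ^ 2‖ ^ 3)⁻¹ : ℝ) : ℂ) = ((u * (starRingEnd ℂ) u) ^ 3)⁻¹ := by
      rw [← nu, norm_pow]; push_cast; rfl
    rw [h1]
    field_simp
  have hc : (starRingEnd ℂ) (v / s) = (starRingEnd ℂ) v / s := by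
    rw [map_div₀, Complex.conj_ofReal]
  rw [hP, hG, hMC, hc, Complex.ofReal_div (‖u‖ ^ 2), nu]
  push_cast
  have nu' : ((‖u‖ : ℝ) : ℂ) ^ 2 = u * (starRingEnd ℂ) u := by
    rw [← nu]; push_cast; rfl
  try rw [nu']
  field_simp
  ring

/-- the state on the leg as a function of the scale -/
def i10_st (V : ℝ → ℂ × ℂ × ℂ × ℂ × ℝ) (s : ℝ) : St :=
  ofUV (V s).2.2.1 (V s).2.2.2.1 (s * ((V s).1 + (V s).2.1)) (s * ((V s).1 - (V s).2.1))
    (V s).2.2.2.2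

/-- the time change -/
def i10_phi (V : ℝ → ℂ × ℂ × ℂ × ℂ × ℝ) (s : ℝ) : ℝ :=
  ‖(s : ℂ) * ((V s).1 + (V s).2.1)‖ ^ 2 / (s * Real.sqrt ((V s).2.2.2.2 / 2))

theorem i10_leg {μ g₁ : ℝ} (hμ : 0 < μ) {V : ℝ → ℂ × ℂ × ℂ × ℂ × ℝ} (hV : InnerODE μ g₁ V)
    {s : ℝ} (hs : s ∈ Icc μ g₁) (hh : 0 < (V s).2.2.2.2)
    (hc : (V s).2.2.2.2 * (‖s * ((V s).1 - (V s).2.1)‖ ^ 2 - ‖s * ((V s).1 + (V s).2.1)‖ ^ 2) =
      μ ^ 2) (hne : (V s).1 + (V s).2.1 ≠ 0) :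
    HasDerivWithinAt (i10_st V) (i10_phi V s • vf (μ ^ 2) (i10_st V s)) (Icc μ g₁) s := by
  have hs0 : 0 < s := hμ.trans_le hs.1
  have hsC : (s : ℂ) ≠ 0 := by exact_mod_cast hs0.ne'
  have h := hV s hs
  simp only at h
  set A := (V s).1 with hA
  set B := (V s).2.1 with hB
  set R := (V s).2.2.1 with hR
  set U := (V s).2.2.2.1 with hU
  set hh' := (V s).2.2.2.2 with hh''
  set u : ℂ := s * (A + B) with hu
  set v : ℂ := s * (A - B) with hv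
  set om := Real.sqrt (hh' / 2) with hom'
  have hom : 0 < om := Real.sqrt_pos.2 (by linarith)
  have hom2 : om ^ 2 = hh' / 2 := Real.sq_sqrt (by linarith)
  set F := inF R u with hF
  set P := inP R u v hh' with hP
  set r := ((starRingEnd ℂ) u * (starRingEnd ℂ) v * F).re with hr
  have hu0 : u ≠ 0 := mul_ne_zero hsC hne
  have hcu : (starRingEnd ℂ) u ≠ 0 := by simpa using hu0
  have dA := i10_fst h
  have dB := i10_fst (i10_snd h)
  have dR := i10_fst (i10_snd (i10_snd h))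
  have dU := i10_fst (i10_snd (i10_snd (i10_snd h)))
  have dh := i10_snd (i10_snd (i10_snd (i10_snd h)))
  simp only at dA dB dR dU dh
  have did : HasDerivWithinAt (fun s : ℝ => (s : ℂ)) 1 (Icc μ g₁) s := by
    have := (hasDerivWithinAt_id s (Icc μ g₁)).ofReal_comp
    simpa using this
  have du : HasDerivWithinAt (fun s : ℝ => (s : ℂ) * ((V s).1 + (V s).2.1)) (v / s) (Icc μ g₁) s := by
    refine (did.mul (dA.add dB)).congr_deriv ?_
    simp only [Pi.add_apply]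
    rw [← hA, ← hB, hv]
    field_simp
    ring
  have dv : HasDerivWithinAt (fun s : ℝ => (s : ℂ) * ((V s).1 - (V s).2.1)) ((u + P) / s)
      (Icc μ g₁) s := by
    refine (did.mul (dA.sub dB)).congr_deriv ?_
    simp only [Pi.sub_apply]
    rw [← hA, ← hB, hu]
    field_simp
    ring
  have dom : HasDerivWithinAt (fun s : ℝ => Real.sqrt ((V s).2.2.2.2 / 2)) (r / s / (2 * om))
      (Icc μ g₁) s := by
    have := (dh.div_const 2).sqrt (by rw [← hh'']; exact (by linarith : (0:ℝ) < hh' / 2).ne')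
    refine this.congr_deriv ?_
    rw [← hh'', ← hom']
    congr 1
    ring
  have dw : HasDerivWithinAt (fun s : ℝ => 2 * ((Real.sqrt ((V s).2.2.2.2 / 2) : ℝ) : ℂ) *
      ((s : ℂ) * ((V s).1 - (V s).2.1)) / (starRingEnd ℂ) ((s : ℂ) * ((V s).1 + (V s).2.1)))
      ((((2 * ((r / s / (2 * om) : ℝ) : ℂ) * v + 2 * (om : ℂ) * ((u + P) / s)) * (starRingEnd ℂ) u -
      2 * (om : ℂ) * v * (starRingEnd ℂ) (v / s)) / ((starRingEnd ℂ) u) ^ 2)) (Icc μ g₁) s := by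
    have h1 := (dom.ofReal_comp.const_mul (2 : ℂ)).mul dv
    have h2 := h1.div (i10_conj du) (by rw [← hA, ← hB]; exact hcu)
    exact h2
  have dξ : HasDerivWithinAt (fun s : ℝ => ((s : ℂ) * ((V s).1 + (V s).2.1)) ^ 2)
      (2 * u * (v / s)) (Icc μ g₁) s := by
    refine (du.pow 2).congr_deriv ?_
    simp only [← hA, ← hB, ← hu]
    ring
  have hd := i10_ofRU_deriv dR dU dξ dw
  refine HasDerivWithinAt.congr_deriv (f := i10_st V) hd ?_
  have e1 : i10_st V s = ofRU R U (u ^ 2) (2 * (om : ℂ) * v / (starRingEnd ℂ) u) := rfl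
  have e2 : i10_phi V s = ‖u‖ ^ 2 / (s * om) := rfl
  rw [e1, e2, i10_vf, i10_smul]
  have nu : ((‖u‖ ^ 2 : ℝ) : ℂ) = u * (starRingEnd ℂ) u := by
    rw [Complex.mul_conj, Complex.normSq_eq_norm_sq]
  have homC : (om : ℂ) ≠ 0 := by exact_mod_cast hom.ne'
  have key := i10_alg (s := s) (om := om) (r := r) (M := μ ^ 2) (u := u) (v := v) (F := F) (P := P)
    hs0 hom hu0 (by rw [hom2]; linarith [hc]) (by
      rw [hom2, hP, inP, ← hF, ← hr]
      have : 2 * (hh' / 2) = hh' := by ring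
      rw [this])
  rw [key]
  congr 1
  · push_cast; ring
  · rw [mul_neg]
  · rw [Complex.ofReal_div (‖u‖ ^ 2), nu]
    push_cast
    field_simp

theorem i10_main (c : ℝ) (hc : 0 < c) : ∃ σ L : ℝ, 0 < σ ∧ 1 ≤ L ∧ ∀ μ g g', 0 < μ → μ ≤ g →
    g ≤ g' → g' ≤ σ → ∀ d ∈ DD c, ∀ β ∈ JJ, β ≠ 0 →
      ∃ T, T ≤ L * g' ^ 2 ∧ ReachT (μ ^ 2) T (innSt μ d β g) (innSt μ d β g') := by
  obtain ⟨σ1, L1, hσ1, -, hL1, hf⟩ := leg_facts c hc
  obtain ⟨σ2, K, C, hσ2, -, -, -, -, hsol⟩ := inner_sol c hc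
  refine ⟨min σ1 σ2, max 1 (16 * L1 ^ 2 / c), lt_min hσ1 hσ2, le_max_left _ _, ?_⟩
  intro μ g g' hμ hg hgg hg' d hd β hβ hβ0
  have hg1 : g' ≤ σ1 := hg'.trans (min_le_left _ _)
  have hg2 : g' ≤ σ2 := hg'.trans (min_le_right _ _)
  obtain ⟨P0, Q0, -, hq⟩ := hsol μ hμ (hg.trans (hgg.trans hg2))
  obtain ⟨-, -, hODE, -, -, -⟩ := hq d hd β hβ
  set V := innV μ d β with hV
  have hfs : ∀ s ∈ Icc g g', _ := fun s hs =>
    hf μ s hμ (hg.trans hs.1) (hs.2.trans hg1) d hd β hβ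
  have hsub : Icc g g' ⊆ Icc μ σ2 := fun s hs => ⟨hg.trans hs.1, hs.2.trans hg2⟩
  have hpos : ∀ s ∈ Icc g g', 0 < s := fun s hs => hμ.trans_le (hg.trans hs.1)
  have hne : ∀ s ∈ Icc g g', (V s).1 + (V s).2.1 ≠ 0 := fun s hs => (hfs s hs).2.1 hβ0
  have hh : ∀ s ∈ Icc g g', c ^ 2 / 4 ≤ (V s).2.2.2.2 := fun s hs =>
    (hfs s hs).2.2.2.2.2.2.2.2.2.1
  have hh0 : ∀ s ∈ Icc g g', 0 < (V s).2.2.2.2 := fun s hs =>
    lt_of_lt_of_le (by positivity) (hh s hs)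
  have hVc : ContinuousOn V (Icc g g') := fun s hs =>
    ((hODE s (hsub hs)).continuousWithinAt).mono hsub
  have hom : ∀ s ∈ Icc g g', c / 4 ≤ Real.sqrt ((V s).2.2.2.2 / 2) := by
    intro s hs
    apply Real.le_sqrt_of_sq_le
    have := hh s hs
    nlinarith [sq_nonneg c]
  have hnorm : ∀ s ∈ Icc g g', ‖(s : ℂ) * ((V s).1 + (V s).2.1)‖ ≤ 2 * L1 * s := by
    intro s hs
    rw [norm_mul, Complex.norm_real, Real.norm_eq_abs, abs_of_pos (hpos s hs)]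
    have a1 : ‖(V s).1‖ ≤ L1 := (hfs s hs).2.2.2.2.1
    have a2 : ‖(V s).2.1‖ ≤ L1 := (hfs s hs).2.2.2.2.2.1
    have a3 := norm_add_le (V s).1 (V s).2.1
    have a4 := hpos s hs
    nlinarith
  have hφc : ContinuousOn (i10_phi V) (Icc g g') := by
    unfold i10_phi
    have c1 : ContinuousOn (fun s : ℝ => (s : ℂ)) (Icc g g') := Complex.continuous_ofReal.continuousOn
    have cA : ContinuousOn (fun s => (V s).1) (Icc g g') := continuous_fst.comp_continuousOn hVc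
    have cB : ContinuousOn (fun s => (V s).2.1) (Icc g g') :=
      (continuous_fst.comp continuous_snd).comp_continuousOn hVc
    have ch : ContinuousOn (fun s => (V s).2.2.2.2) (Icc g g') :=
      (continuous_snd.comp (continuous_snd.comp (continuous_snd.comp
        continuous_snd))).comp_continuousOn hVc
    refine ContinuousOn.div ?_ ?_ ?_
    · exact ((c1.mul (cA.add cB)).norm).pow 2
    · exact continuousOn_id.mul ((ch.div_const 2).sqrt)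
    · intro s hs
      have := hom s hs
      have h2 : 0 < Real.sqrt ((V s).2.2.2.2 / 2) := by linarith [hc]
      exact (mul_pos (hpos s hs) h2).ne'
  have hφp : ∀ s ∈ Icc g g', 0 < i10_phi V s := by
    intro s hs
    unfold i10_phi
    have h1 := hom s hs
    have h2 : 0 < Real.sqrt ((V s).2.2.2.2 / 2) := by linarith [hc]
    have h3 : (s : ℂ) * ((V s).1 + (V s).2.1) ≠ 0 :=
      mul_ne_zero (by exact_mod_cast (hpos s hs).ne') (hne s hs)
    have h4 := norm_pos_iff.2 h3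
    have h5 := hpos s hs
    positivity
  have hφb : ∀ s ∈ Icc g g', i10_phi V s ≤ 16 * L1 ^ 2 / c * g' := by
    intro s hs
    unfold i10_phi
    have h1 := hom s hs
    have h2 : 0 < Real.sqrt ((V s).2.2.2.2 / 2) := by linarith [hc]
    have h5 := hpos s hs
    rw [div_le_iff₀ (mul_pos h5 h2)]
    calc ‖(s : ℂ) * ((V s).1 + (V s).2.1)‖ ^ 2 ≤ (2 * L1 * s) ^ 2 :=
          pow_le_pow_left₀ (norm_nonneg _) (hnorm s hs) 2
      _ = 4 * L1 ^ 2 * s * s := by ring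
      _ ≤ 4 * L1 ^ 2 * g' * s := by
          have := hs.2
          gcongr
      _ = 16 * L1 ^ 2 / c * g' * (s * (c / 4)) := by field_simp; ring
      _ ≤ 16 * L1 ^ 2 / c * g' * (s * Real.sqrt ((V s).2.2.2.2 / 2)) := by
          have : 0 ≤ g' := (h5.trans_le hs.2).le
          gcongr
  have hR := reach_of_param (M := μ ^ 2) hgg (γ := i10_st V) (φ := i10_phi V) hφc hφp (by
    intro s hs
    refine ⟨?_, ?_⟩
    · have f := hfs s hs
      have n1 : c / 4 ≤ ‖(V s).2.2.1 + mb * (s * ((V s).1 + (V s).2.1)) ^ 2‖ :=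
        f.2.2.2.2.2.2.2.2.2.2.2.1
      have n2 : c / 4 ≤ ‖(V s).2.2.1 - ma * (s * ((V s).1 + (V s).2.1)) ^ 2‖ :=
        f.2.2.2.2.2.2.2.2.2.2.2.2
      have h3 : (s : ℂ) * ((V s).1 + (V s).2.1) ≠ 0 :=
        mul_ne_zero (by exact_mod_cast (hpos s hs).ne') (hne s hs)
      refine ⟨?_, ?_, ?_⟩
      · change (V s).2.2.1 + mb * (s * ((V s).1 + (V s).2.1)) ^ 2 ≠ 0
        rw [← norm_pos_iff]
        linarith
      · change (V s).2.2.1 - ma * (s * ((V s).1 + (V s).2.1)) ^ 2 ≠ 0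
        rw [← norm_pos_iff]
        linarith
      · change (V s).2.2.1 + mb * (s * ((V s).1 + (V s).2.1)) ^ 2 ≠
          (V s).2.2.1 - ma * (s * ((V s).1 + (V s).2.1)) ^ 2
        intro h
        have h4 : ((s : ℂ) * ((V s).1 + (V s).2.1)) ^ 2 = 0 := by
          have h5 : (((mb : ℝ) : ℂ) + ((ma : ℝ) : ℂ)) * (s * ((V s).1 + (V s).2.1)) ^ 2 = 0 := by
            linear_combination h
          have h6 : (((mb : ℝ) : ℂ) + ((ma : ℝ) : ℂ)) = 1 := by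
            simp only [ma, mb]; push_cast; ring
          rw [h6, one_mul] at h5
          exact h5
        exact h3 (pow_eq_zero_iff two_ne_zero |>.1 h4)
    · exact (i10_leg hμ hODE (hsub hs) (hh0 s hs) (hfs s hs).1 (hne s hs)).mono hsub)
  refine ⟨_, ?_, hR⟩
  have hint : (∫ s in g..g', i10_phi V s) ≤ ∫ s in g..g', 16 * L1 ^ 2 / c * g' := by
    refine intervalIntegral.integral_mono_on hgg ?_ ?_ (fun s hs => hφb s hs)
    · exact (hφc.intervalIntegrable_of_Icc hgg)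
    · exact intervalIntegrable_const
  refine hint.trans ?_
  rw [intervalIntegral.integral_const, smul_eq_mul]
  have hg0 : 0 < g := hμ.trans_le hg
  have hg'0 : 0 < g' := hg0.trans_le hgg
  calc (g' - g) * (16 * L1 ^ 2 / c * g') ≤ g' * (16 * L1 ^ 2 / c * g') := by
        have : g' - g ≤ g' := by linarith
        gcongr
    _ = (16 * L1 ^ 2 / c) * g' ^ 2 := by ring
    _ ≤ max 1 (16 * L1 ^ 2 / c) * g' ^ 2 := by
        gcongr
        exact le_max_right _ _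

theorem leg_reachT_pr (c : ℝ) (hc : 0 < c) : ∃ σ L : ℝ, 0 < σ ∧ 1 ≤ L ∧ ∀ μ g g', 0 < μ → μ ≤ g →
    g ≤ g' → g' ≤ σ → ∀ d ∈ DD c, ∀ β ∈ JJ, β ≠ 0 →
      ∃ T, T ≤ L * g' ^ 2 ∧ ReachT (μ ^ 2) T (innSt μ d β g) (innSt μ d β g') :=
  i10_main c hc

theorem leg_reach_pr (c : ℝ) (hc : 0 < c) : ∃ σ : ℝ, 0 < σ ∧ ∀ μ g g', 0 < μ → μ ≤ g → g ≤ g' →
    g' ≤ σ → ∀ d ∈ DD c, ∀ β ∈ JJ, β ≠ 0 →
      Reach (μ ^ 2) (innSt μ d β g) (innSt μ d β g') := by
  obtain ⟨σ, L, hσ, -, h⟩ := i10_main c hc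
  refine ⟨σ, hσ, fun μ g g' hμ hg hgg hg' d hd β hβ hβ0 => ?_⟩
  obtain ⟨T, -, hT, γ, h1, h2, h3⟩ := h μ g g' hμ hg hgg hg' d hd β hβ hβ0
  exact ⟨T, hT, γ, h1, h2, h3⟩

end

end Pool.Agent.HS

namespace Pool.Agent.HS
open Set Filter Topology Classical

theorem leg_reachT (c : ℝ) (hc : 0 < c) : ∃ σ L : ℝ, 0 < σ ∧ 1 ≤ L ∧ ∀ μ g g', 0 < μ → μ ≤ g →
    g ≤ g' → g' ≤ σ → ∀ d ∈ DD c, ∀ β ∈ JJ, β ≠ 0 →
      ∃ T, T ≤ L * g' ^ 2 ∧ ReachT (μ ^ 2) T (innSt μ d β g) (innSt μ d β g') :=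
  @Pool.Agent.HS.leg_reachT_pr c hc

end Pool.Agent.HS

namespace Pool.Agent.HS
open Set Filter Topology Classical

theorem leg_reach (c : ℝ) (hc : 0 < c) : ∃ σ : ℝ, 0 < σ ∧ ∀ μ g g', 0 < μ → μ ≤ g → g ≤ g' →
    g' ≤ σ → ∀ d ∈ DD c, ∀ β ∈ JJ, β ≠ 0 →
      Reach (μ ^ 2) (innSt μ d β g) (innSt μ d β g') :=
  @Pool.Agent.HS.leg_reach_pr c hc

end Pool.Agent.HS
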