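import Pool.Agent.Lib_helper60.HSF.D_WI
import Pool.Agent.Lib_helper60.HSF.IO_K2
import Pool.Agent.Lib_helper60.HSF.IO_I1

/-!
# Project HS, block K4: the encounter state in incoming and in outgoing data
-/

namespace Pool.Agent.HS

noncomputable section

open Set Filter Topology Classical

theorem k4_kh : 1 / 5 < kh := by
  unfold kh
  apply Real.lt_sqrt_of_sq_lt
  have h1 : (3 / 5 : ℝ) ≤ (2 : ℝ) ^ (-(1 / 3) : ℝ) := by
    have h2 : ((2 : ℝ) ^ (-(1 / 3) : ℝ)) ^ 3 = 1 / 2 := by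
      rw [← Real.rpow_natCast, ← Real.rpow_mul (by norm_num)]
      norm_num
    by_contra h3
    rw [not_le] at h3
    have h4 : (0 : ℝ) < (2 : ℝ) ^ (-(1 / 3) : ℝ) := Real.rpow_pos_of_pos (by norm_num) _
    have h5 : ((2 : ℝ) ^ (-(1 / 3) : ℝ)) ^ 3 < (3 / 5) ^ 3 :=
      pow_lt_pow_left₀ h3 h4.le (by norm_num)
    rw [h2] at h5
    norm_num at h5
  unfold d0 h30 h20
  linarith

theorem k4_amp (κ β : ℝ) : amp κ (-β) = amp κ β := by
  unfold amp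
  rw [neg_sq]

/-- `e^{i arctan x} = (1 + i x) / √(1 + x²)` -/
theorem k4_arctan (x : ℝ) : Complex.exp ((Real.arctan x : ℝ) * Complex.I) =
    (1 + x * Complex.I) / ((Real.sqrt (1 + x ^ 2) : ℝ) : ℂ) := by
  have hp : 0 < Real.sqrt (1 + x ^ 2) := Real.sqrt_pos.2 (by positivity)
  rw [Complex.exp_mul_I, ← Complex.ofReal_cos, ← Complex.ofReal_sin, Real.cos_arctan,
    Real.sin_arctan]
  have : ((Real.sqrt (1 + x ^ 2) : ℝ) : ℂ) ≠ 0 := by exact_mod_cast hp.ne'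
  push_cast
  field_simp

/-- exchange of incoming and outgoing amplitudes -/
theorem k4_swap {κ β χ N : ℝ} (hκ : 0 < κ) {k : ℤ}
    (h : N + turn κ β = χ + 2 * Real.pi * k) : ∃ s : ℂ, (s = 1 ∨ s = -1) ∧
    A0 κ (N + Real.pi) (-β) = s * D0 κ χ β ∧ D0 κ (N + Real.pi) (-β) = s * A0 κ χ β := by
  obtain ⟨-, -, hamp, -, -, hamp2, -, -⟩ := A0_alg κ χ β hκ
  have hN : (N + Real.pi) / 2 = χ / 2 + Real.pi * k + Real.arctan (κ * β) := by
    unfold turn at h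
    linarith
  have hexp : Complex.exp (((N + Real.pi) / 2 : ℝ) * Complex.I) =
      Complex.exp ((χ / 2 : ℝ) * Complex.I) * Complex.exp (Real.pi * Complex.I) ^ k *
        ((1 + (κ * β : ℝ) * Complex.I) / ((Real.sqrt (1 + (κ * β) ^ 2) : ℝ) : ℂ)) := by
    rw [← k4_arctan, ← Complex.exp_int_mul, ← Complex.exp_add, ← Complex.exp_add, hN]
    congr 1
    push_cast
    ring
  rw [Complex.exp_pi_mul_I] at hexp
  have hsq : Real.sqrt (1 + (κ * β) ^ 2) = 2 * κ ^ 2 * amp κ β ^ 2 := by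
    rw [hamp2, mul_pow]
    field_simp
  have hs : ((-1 : ℂ) ^ k = 1 ∨ (-1 : ℂ) ^ k = -1) := by
    rcases Int.even_or_odd k with hk | hk
    · left
      exact hk.neg_one_zpow
    · right
      exact hk.neg_one_zpow
  have hac : ((amp κ β : ℝ) : ℂ) ≠ 0 := by exact_mod_cast hamp.ne'
  have hkc : ((κ : ℝ) : ℂ) ≠ 0 := by exact_mod_cast hκ.ne'
  have hsum : (1 + (κ * β : ℝ) ^ 2 : ℝ) = (2 * κ ^ 2 * amp κ β ^ 2) ^ 2 := by
    rw [← hsq, Real.sq_sqrt (by positivity)]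
  refine ⟨-(-1 : ℂ) ^ k, ?_, ?_, ?_⟩
  · rcases hs with h1 | h1 <;> rw [h1] <;> simp
  · unfold A0 D0
    rw [k4_amp, hexp, hsq]
    push_cast
    field_simp
    ring
  · unfold A0 D0
    rw [k4_amp, hexp, hsq]
    have h2 : ((1 + (κ * β : ℝ) ^ 2 : ℝ) : ℂ) = ((2 * κ ^ 2 * amp κ β ^ 2 : ℝ) : ℂ) ^ 2 := by
      rw [hsum]
      push_cast
      ring
    have h3 : (-1 - ((κ * -β : ℝ) : ℂ) * Complex.I) * (1 + (κ * β : ℝ) * Complex.I) =
        - ((2 * κ ^ 2 * amp κ β ^ 2 : ℝ) : ℂ) ^ 2 := by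
      rw [← h2]
      push_cast
      have := Complex.I_sq
      linear_combination ((κ : ℂ) ^ 2 * β ^ 2) * this
    calc (-1 - ((κ * -β : ℝ) : ℂ) * Complex.I) / ((2 * κ ^ 2 * amp κ β : ℝ) : ℂ) *
        (Complex.exp ((χ / 2 : ℝ) * Complex.I) * (-1) ^ k *
          ((1 + (κ * β : ℝ) * Complex.I) / ((2 * κ ^ 2 * amp κ β ^ 2 : ℝ) : ℂ))) =
        ((-1 - ((κ * -β : ℝ) : ℂ) * Complex.I) * (1 + (κ * β : ℝ) * Complex.I)) *
        (Complex.exp ((χ / 2 : ℝ) * Complex.I) * (-1) ^ k) /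
          (((2 * κ ^ 2 * amp κ β : ℝ) : ℂ) * ((2 * κ ^ 2 * amp κ β ^ 2 : ℝ) : ℂ)) := by
          field_simp
      _ = _ := by
          rw [h3]
          push_cast
          field_simp

theorem k4_encH (μ : ℝ) (R U : ℂ) (κ : ℝ) (ξ : ℂ) : encH μ R (-U) κ ξ = encH μ R U κ ξ := by
  unfold encH
  rw [norm_neg]

/-- K4: the encounter state in incoming and in outgoing data -/
theorem enc_match_pr (C : ℝ) (hC : 0 < C ∧ C ≤ 1) : ∃ μ0 : ℝ, 0 < μ0 ∧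
    ∀ μ, 0 < μ → μ < μ0 → ∀ X ∈ CDw C, ∀ N χ, ∀ β ∈ JJ, Match C μ X N β χ →
      enc C μ X N β = outSt μ (chart C X).1 (Uenc C μ (chart C X).1 (chart C X).2 β)
        (kapE C μ (chart C X) χ β) χ β ∧
      kapE C μ (chart C X) χ β = kapI C μ (chart C X) N β := by
  obtain ⟨μ0, hμ0, hspec⟩ := kapE_spec C hC
  refine ⟨μ0, hμ0, fun μ hμ hμ' X hX N χ β hβ hM => ?_⟩
  obtain ⟨-, huniq, -, -⟩ := hspec μ hμ hμ' X hX χ β hβ
  obtain ⟨-, -, hI, -⟩ := hspec μ hμ hμ' X hX N β hβ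
  obtain ⟨k, hk⟩ := hM
  obtain ⟨hI1, hI2⟩ := hI
  set κ : ℝ := kapI C μ (chart C X) N β with hκdef
  have hκ : 0 < κ := by
    have h1 := hX.2.2.2
    have h2 := k4_kh
    have h3 := (abs_le.1 hI1).1
    have h4 := (abs_le.1 h1).1
    linarith
  obtain ⟨s, hs, hA, hD⟩ := k4_swap hκ hk
  have hs2 : s ^ 2 = 1 := by
    rcases hs with h | h <;> rw [h] <;> norm_num
  have hsc : (starRingEnd ℂ) s = s := by
    rcases hs with h | h <;> rw [h] <;> simp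
  have hs0 : s ≠ 0 := by
    rcases hs with h | h <;> rw [h] <;> norm_num
  have hK : kapE C μ (chart C X) χ β = κ := by
    refine (huniq κ ⟨hI1, ?_⟩).symm
    rw [k4_encH] at hI2
    rw [← hI2, hA, hD]
    congr 1
    calc (μ : ℂ) ^ 2 * (A0 κ χ β + D0 κ χ β) ^ 2 = s ^ 2 *
          ((μ : ℂ) ^ 2 * (A0 κ χ β + D0 κ χ β) ^ 2) := by rw [hs2, one_mul]
      _ = _ := by ring
  refine ⟨?_, hK⟩
  rw [hK]
  show rev (outSt μ (chart C X).1 (-(Uenc C μ (chart C X).1 (chart C X).2 β)) κ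
    (N + Real.pi) (-β)) = _
  unfold outSt ofUV
  rw [hA, hD]
  set R : ℂ := ((chart C X).1 : ℂ)
  set U : ℂ := Uenc C μ (chart C X).1 (chart C X).2 β
  have hu : (μ * (s * D0 κ χ β + s * A0 κ χ β) : ℂ) = s * (μ * (A0 κ χ β + D0 κ χ β)) := by ring
  have hv : (μ * (s * D0 κ χ β - s * A0 κ χ β) : ℂ) = -(s * (μ * (A0 κ χ β - D0 κ χ β))) := by
    ring
  rw [hu, hv]
  have h1 : (s * (μ * (A0 κ χ β + D0 κ χ β)) : ℂ) ^ 2 = (μ * (A0 κ χ β + D0 κ χ β)) ^ 2 := by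
    rw [mul_pow, hs2, one_mul]
  have h2 : 2 * ((Real.sqrt (κ ^ 2 / 2 / 2) : ℝ) : ℂ) * -(s * (μ * (A0 κ χ β - D0 κ χ β))) /
      (starRingEnd ℂ) (s * (μ * (A0 κ χ β + D0 κ χ β))) =
      -(2 * ((Real.sqrt (κ ^ 2 / 2 / 2) : ℝ) : ℂ) * (μ * (A0 κ χ β - D0 κ χ β)) /
        (starRingEnd ℂ) (μ * (A0 κ χ β + D0 κ χ β))) := by
    rw [map_mul, hsc]
    rw [show 2 * ((Real.sqrt (κ ^ 2 / 2 / 2) : ℝ) : ℂ) * -(s * (μ * (A0 κ χ β - D0 κ χ β))) =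
      s * (-(2 * ((Real.sqrt (κ ^ 2 / 2 / 2) : ℝ) : ℂ) * (μ * (A0 κ χ β - D0 κ χ β)))) by ring,
      mul_div_mul_left _ _ hs0, neg_div]
  rw [h1, h2]
  have h3 : ∀ ξ w : ℂ, rev (ofRU R (-U) ξ (-w)) = ofRU R U ξ w := by
    intro ξ w
    show (R + mb * ξ, R - ma * ξ, -(-U + mb * -w), -(-U - ma * -w)) =
      (R + mb * ξ, R - ma * ξ, U + mb * w, U - ma * w)
    refine Prod.ext rfl (Prod.ext rfl (Prod.ext ?_ ?_))
    · simp only
      ring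
    · simp only
      ring
  exact h3 _ _

end

end Pool.Agent.HS

namespace Pool.Agent.HS
open Set Filter Topology Classical

theorem enc_match (C : ℝ) (hC : 0 < C ∧ C ≤ 1) : ∃ μ0 : ℝ, 0 < μ0 ∧
    ∀ μ, 0 < μ → μ < μ0 → ∀ X ∈ CDw C, ∀ N χ, ∀ β ∈ JJ, Match C μ X N β χ →
      enc C μ X N β = outSt μ (chart C X).1 (Uenc C μ (chart C X).1 (chart C X).2 β)
        (kapE C μ (chart C X) χ β) χ β ∧
      kapE C μ (chart C X) χ β = kapI C μ (chart C X) N β :=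
  @Pool.Agent.HS.enc_match_pr C hC

end Pool.Agent.HS
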