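import Pool.Agent.Lib_helper60.HSF.D_WI
import Pool.Agent.Lib_helper60.HSF.IO_K2
import Pool.Agent.Lib_helper60.HSF.IO_C1

/-! Project HS, block K7: collision data of the encounters are in a compact set; closeness. -/

namespace Pool.Agent.HS

noncomputable section

open Set Filter Topology Classical

theorem k7_rh : 6 / 5 < rh ∧ rh < 121 / 100 := ⟨kh_num.2.2.1, kh_num.2.2.2⟩

theorem k7_cc : 0 < cc := by
  have h1 := kh_num
  unfold cc
  have : 0 < rh := by linarith [h1.2.2.1]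
  have : 0 < kh := by linarith [h1.1]
  positivity

/-- the square of `kap0` -/
def k7q (C : ℝ) (Y : ℝ × ℝ) : ℝ :=
  2 / (ma * mb) * (E0 + 1 / Y.1 - (Y.2 ^ 2 + C ^ 2 / Y.1 ^ 2) / 2)

theorem k7_kap (C : ℝ) (Y : ℝ × ℝ) : kap0 C Y = Real.sqrt (k7q C Y) := rfl

theorem k7_chart (C : ℝ) : ContDiff ℝ 2 (chart C) := by
  unfold chart
  fun_prop

/-- the open set of smoothness -/
def k7U (C : ℝ) : Set Pl := {X | 0 < (chart C X).1 ∧ 0 < k7q C (chart C X)}

theorem k7_q (C : ℝ) : ContDiffOn ℝ 2 (fun X => k7q C (chart C X)) {X | (chart C X).1 ≠ 0} := by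
  unfold k7q
  have h1 : ContDiffOn ℝ 2 (fun X => (chart C X).1) {X | (chart C X).1 ≠ 0} :=
    (contDiff_fst.comp (k7_chart C)).contDiffOn
  have h2 : ContDiffOn ℝ 2 (fun X => (chart C X).2) {X | (chart C X).1 ≠ 0} :=
    (contDiff_snd.comp (k7_chart C)).contDiffOn
  have h3 : ContDiffOn ℝ 2 (fun X => 1 / (chart C X).1) {X | (chart C X).1 ≠ 0} :=
    contDiffOn_const.div h1 fun x hx => hx
  have h4 : ContDiffOn ℝ 2 (fun X => C ^ 2 / (chart C X).1 ^ 2) {X | (chart C X).1 ≠ 0} :=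
    contDiffOn_const.div (h1.pow 2) fun x hx => pow_ne_zero 2 hx
  exact contDiffOn_const.mul ((contDiffOn_const.add h3).sub (((h2.pow 2).add h4).div_const 2))

theorem k7_open (C : ℝ) : IsOpen (k7U C) := by
  have h1 : IsOpen {X : Pl | 0 < (chart C X).1} :=
    isOpen_lt continuous_const (continuous_fst.comp (k7_chart C).continuous)
  have h2 : ContinuousOn (fun X => k7q C (chart C X)) {X : Pl | 0 < (chart C X).1} :=
    (k7_q C).continuousOn.mono fun X hX => ne_of_gt hX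
  exact h2.isOpen_inter_preimage h1 isOpen_Ioi

theorem k7_sub (C : ℝ) : CDw C ⊆ k7U C := by
  intro X hX
  obtain ⟨h1, h2, h3, h4⟩ := hX
  have hr := k7_rh
  have hk := kh_num
  refine ⟨by linarith [hr.1], ?_⟩
  rw [abs_le] at h4
  have h5 : 0 < kap0 C (chart C X) := by linarith [hk.1, h4.1]
  rw [k7_kap] at h5
  exact Real.sqrt_pos.1 h5

theorem k7_closed (C : ℝ) : IsClosed (CDw C) := by
  have hr := k7_rh
  have h1 : IsClosed {X : Pl | rh / 4 ≤ (chart C X).1} :=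
    isClosed_le continuous_const (continuous_fst.comp (k7_chart C).continuous)
  have h2 : ContinuousOn (fun X => kap0 C (chart C X)) {X : Pl | rh / 4 ≤ (chart C X).1} := by
    have h3 := (k7_q C).continuousOn
    have h4 : ContinuousOn (fun X => Real.sqrt (k7q C (chart C X)))
      {X : Pl | rh / 4 ≤ (chart C X).1} :=
      Real.continuous_sqrt.comp_continuousOn (h3.mono fun X hX => by
        have hX' : rh / 4 ≤ (chart C X).1 := hX
        have : 0 < (chart C X).1 := by linarith [hr.1]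
        exact ne_of_gt this)
    exact h4
  have h3 : IsClosed ({X : Pl | rh / 4 ≤ (chart C X).1} ∩
      (fun X => kap0 C (chart C X)) ⁻¹' (Metric.closedBall kh (1 / 10))) :=
    h2.preimage_isClosed_of_isClosed h1 Metric.isClosed_closedBall
  have h4 : IsClosed {X : Pl | (chart C X).1 ≤ 4 * rh} :=
    isClosed_le (continuous_fst.comp (k7_chart C).continuous) continuous_const
  have h5 : IsClosed {X : Pl | |(chart C X).2| ≤ 2} :=
    isClosed_le (continuous_abs.comp (continuous_snd.comp (k7_chart C).continuous))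
      continuous_const
  have e : CDw C = ({X : Pl | rh / 4 ≤ (chart C X).1} ∩
      (fun X => kap0 C (chart C X)) ⁻¹' (Metric.closedBall kh (1 / 10))) ∩
      ({X : Pl | (chart C X).1 ≤ 4 * rh} ∩ {X : Pl | |(chart C X).2| ≤ 2}) := by
    ext X
    simp only [CDw, mem_inter_iff, mem_ofPred_eq, mem_preimage, Metric.mem_closedBall,
      Real.dist_eq]
    tauto
  rw [e]
  exact h3.inter (h4.inter h5)

theorem k7_unchart (C : ℝ) (hC : 0 < C) (X : Pl) : unchart C (chart C X) = X := by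
  have hr : rh ≠ 0 := by linarith [k7_rh.1]
  have hc : cc ≠ 0 := k7_cc.ne'
  have hC' : C ≠ 0 := hC.ne'
  unfold unchart chart
  ext
  · simp only
    field_simp
    ring
  · simp only
    field_simp
    ring

theorem k7_compact (C : ℝ) (hC : 0 < C) : IsCompact (CDw C) := by
  have h1 : IsCompact (unchart C '' (Icc (rh / 4) (4 * rh) ×ˢ Icc (-2 : ℝ) 2)) := by
    refine (isCompact_Icc.prod isCompact_Icc).image ?_
    unfold unchart
    fun_prop
  refine h1.of_isClosed_subset (k7_closed C) ?_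
  intro X hX
  obtain ⟨a1, a2, a3, a4⟩ := hX
  exact ⟨chart C X, ⟨⟨a1, a2⟩, abs_le.1 a3⟩, k7_unchart C hC X⟩

/-- the collision data without the direction -/
def k7g (C : ℝ) (X : Pl) : ℂ × ℂ × ℝ :=
  (((chart C X).1 : ℂ), Uenc C 0 (chart C X).1 (chart C X).2 0, kap0 C (chart C X))

theorem k7_smooth (C : ℝ) : ContDiffOn ℝ 2 (k7g C) (k7U C) := by
  have hs : k7U C ⊆ {X | (chart C X).1 ≠ 0} := fun X hX => ne_of_gt hX.1
  have h1 : ContDiffOn ℝ 2 (fun X => (chart C X).1) (k7U C) :=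
    (contDiff_fst.comp (k7_chart C)).contDiffOn
  have h2 : ContDiffOn ℝ 2 (fun X => (chart C X).2) (k7U C) :=
    (contDiff_snd.comp (k7_chart C)).contDiffOn
  have h3 : ContDiffOn ℝ 2 (fun X => (((chart C X).1 : ℝ) : ℂ)) (k7U C) :=
    Complex.ofRealCLM.contDiff.comp_contDiffOn h1
  have h4 : ContDiffOn ℝ 2 (fun X => (((chart C X).2 : ℝ) : ℂ)) (k7U C) :=
    Complex.ofRealCLM.contDiff.comp_contDiffOn h2
  have h5 : ContDiffOn ℝ 2 (fun X => (C - ma * mb * (0:ℝ) ^ 2 * 0) / (chart C X).1) (k7U C) :=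
    contDiffOn_const.div h1 fun x hx => hs hx
  have h6 : ContDiffOn ℝ 2
      (fun X => (((C - ma * mb * (0:ℝ) ^ 2 * 0) / (chart C X).1 : ℝ) : ℂ)) (k7U C) :=
    Complex.ofRealCLM.contDiff.comp_contDiffOn h5
  have h7 : ContDiffOn ℝ 2 (fun X => kap0 C (chart C X)) (k7U C) := by
    have h8 : ContDiffOn ℝ 2 (fun X => Real.sqrt (k7q C (chart C X))) (k7U C) :=
      ((k7_q C).mono hs).sqrt fun X hX => ne_of_gt hX.2
    exact h8
  exact h3.prodMk ((h4.add (h6.mul contDiffOn_const)).prodMk h7)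

theorem k7_regg (C : ℝ) (hC : 0 < C) : ∃ L : ℝ, 0 ≤ L ∧ Reg L (k7g C) (CDw C) :=
  reg_of_compact (k7_open C) (k7_smooth C) (k7_compact C hC) (k7_sub C)

theorem k7_DD (C : ℝ) (hC : 0 < C ∧ C ≤ 1) (X : Pl) (hX : X ∈ CDw C) :
    3 / 10 ≤ (chart C X).1 ∧ (chart C X).1 ≤ 5 ∧ |(chart C X).2| ≤ 2 ∧
      9 / 10 ≤ kap0 C (chart C X) ∧ kap0 C (chart C X) ≤ 6 / 5 := by
  obtain ⟨a1, a2, a3, a4⟩ := hX
  have hr := k7_rh
  have hk := kh_num
  rw [abs_le] at a4
  refine ⟨by linarith [hr.1], by linarith [hr.2], a3, by linarith [hk.1, a4.1],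
    by linarith [hk.2.1, a4.2]⟩

theorem lim_reg_pr (C : ℝ) (hC : 0 < C ∧ C ≤ 1) : ∃ L c : ℝ, 1 ≤ L ∧ 0 < c ∧
    Reg L (fun q : Pl × ℝ => limD C q.1 q.2) (CDw C ×ˢ univ) ∧
    (∀ X ∈ CDw C, ∀ χ, limD C X χ ∈ DD c) := by
  obtain ⟨L, hL, hreg⟩ := k7_regg C hC.1
  refine ⟨L + 1, 1 / 10, by linarith, by norm_num, ?_, ?_⟩
  · -- the norm of data
    have hn : ∀ d : Dt, ‖d‖ = max ‖((d.1, d.2.1, d.2.2.1) : ℂ × ℂ × ℝ)‖ ‖d.2.2.2‖ := by
      intro d
      simp only [Prod.norm_def]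
      rw [max_assoc, max_assoc]
    have hdist : ∀ x y : Pl × ℝ, dist x.1 y.1 ≤ dist x y := fun x y => by
      rw [Prod.dist_eq (x := x)]; exact le_max_left _ _
    have hdist2 : ∀ x y : Pl × ℝ, dist x.2 y.2 ≤ dist x y := fun x y => by
      rw [Prod.dist_eq (x := x)]; exact le_max_right _ _
    constructor
    · intro x hx y hy
      rw [hn]
      have h1 := hreg.1 x.1 hx.1 y.1 hy.1
      have h2 := hdist x y
      have h3 := hdist2 x y
      have h0 : 0 ≤ dist x y := dist_nonneg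
      refine max_le ?_ ?_
      · refine le_trans (le_of_eq ?_) (h1.trans ?_)
        · rfl
        · nlinarith [mul_le_mul_of_nonneg_left h2 hL]
      · show ‖x.2 - y.2‖ ≤ _
        rw [← dist_eq_norm]
        nlinarith
    · intro x hx y hy x' hx' y' hy'
      rw [hn]
      have h1 := hreg.2 x.1 hx.1 y.1 hy.1 x'.1 hx'.1 y'.1 hy'.1
      have k1 : ‖x.1 - y.1 - x'.1 + y'.1‖ ≤ ‖x - y - x' + y'‖ := norm_fst_le (x - y - x' + y')
      have k2 : ‖x.1 - x'.1‖ ≤ ‖x - x'‖ := norm_fst_le (x - x')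
      have k3 : ‖y.1 - y'.1‖ ≤ ‖y - y'‖ := norm_fst_le (y - y')
      have k4 : ‖x'.1 - y'.1‖ ≤ ‖x' - y'‖ := norm_fst_le (x' - y')
      have k5 : ‖x.2 - y.2 - x'.2 + y'.2‖ ≤ ‖x - y - x' + y'‖ := norm_snd_le (x - y - x' + y')
      have n1 := norm_nonneg (x - y - x' + y')
      have n2 := norm_nonneg (x - x')
      have n3 := norm_nonneg (y - y')
      have n4 := norm_nonneg (x' - y')
      have k6 : L * ‖x.1 - y.1 - x'.1 + y'.1‖ +
          L * (‖x.1 - x'.1‖ + ‖y.1 - y'.1‖) * ‖x'.1 - y'.1‖ ≤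
          L * ‖x - y - x' + y'‖ + L * (‖x - x'‖ + ‖y - y'‖) * ‖x' - y'‖ := by
        gcongr
      have k7 : 0 ≤ (‖x - x'‖ + ‖y - y'‖) * ‖x' - y'‖ := by positivity
      have k8 : 0 ≤ L * ‖x - y - x' + y'‖ := by positivity
      have k9 : 0 ≤ L * ((‖x - x'‖ + ‖y - y'‖) * ‖x' - y'‖) := by positivity
      refine max_le ?_ ?_
      · refine le_trans (le_of_eq ?_) (h1.trans (k6.trans ?_))
        · rfl
        · nlinarith
      · refine le_trans (le_of_eq ?_) (k5.trans ?_)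
        · rfl
        · nlinarith
  · intro X hX χ
    obtain ⟨a1, a2, a3, a4, a5⟩ := k7_DD C hC X hX
    have hr0 : 0 < (chart C X).1 := by linarith
    refine ⟨?_, ?_, ?_, ?_, ?_⟩
    · show (1 / 10 : ℝ) ≤ (((chart C X).1 : ℂ)).re
      rw [Complex.ofReal_re]
      linarith
    · show ‖((chart C X).1 : ℂ)‖ ≤ 1 / (1 / 10)
      rw [Complex.norm_real, Real.norm_eq_abs, abs_of_pos hr0]
      linarith
    · show ‖(((chart C X).2 : ℝ) : ℂ) +
        ((C - ma * mb * (0:ℝ) ^ 2 * 0) / (chart C X).1 : ℝ) * Complex.I‖ ≤ 1 / (1 / 10)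
      refine (norm_add_le _ _).trans ?_
      rw [norm_mul, Complex.norm_I, mul_one, Complex.norm_real, Complex.norm_real,
        Real.norm_eq_abs, Real.norm_eq_abs]
      have h1 : |(C - ma * mb * (0:ℝ) ^ 2 * 0) / (chart C X).1| ≤ 4 := by
        rw [abs_div, abs_of_pos hr0, div_le_iff₀ hr0]
        have : |C - ma * mb * (0:ℝ) ^ 2 * 0| ≤ 1 := by
          rw [mul_zero, sub_zero, abs_of_pos hC.1]
          exact hC.2
        linarith
      linarith
    · show (1 / 10 : ℝ) ≤ kap0 C (chart C X)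
      linarith
    · show kap0 C (chart C X) ≤ 1 / (1 / 10)
      linarith

theorem k7_r_lip (C : ℝ) (hC : 0 < C) (X X' : Pl) :
    |(chart C X).1 - (chart C X').1| ≤ C / (cc * rh) * dist X X' := by
  have hr : 0 < rh := by linarith [k7_rh.1]
  have hc : 0 < cc := k7_cc
  have e : (chart C X).1 - (chart C X').1 = C / (cc * rh) * (X.1 - X'.1) := by
    unfold chart
    simp only
    field_simp
    ring
  rw [e, abs_mul, abs_of_pos (by positivity), ← Real.dist_eq]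
  refine mul_le_mul_of_nonneg_left ?_ (by positivity)
  rw [Prod.dist_eq]
  exact le_max_left _ _

theorem k7_div {r r' b b' : ℝ} (hr : 3 / 10 ≤ r) (hr' : 3 / 10 ≤ r') (hb : |b'| ≤ 10) :
    |b / r - b' / r'| ≤ 10 / 3 * |b - b'| + 1000 / 9 * |r - r'| := by
  have h0 : 0 < r := by linarith
  have h0' : 0 < r' := by linarith
  have e : b / r - b' / r' = (b - b') / r - b' * (r - r') / (r * r') := by
    field_simp
    ring
  rw [e]
  refine (abs_sub _ _).trans (add_le_add ?_ ?_)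
  · rw [abs_div, abs_of_pos h0, div_le_iff₀ h0]
    nlinarith [abs_nonneg (b - b')]
  · rw [abs_div, abs_mul, abs_of_pos (mul_pos h0 h0'), div_le_iff₀ (mul_pos h0 h0')]
    have h1 : |b'| * |r - r'| ≤ 10 * |r - r'| := mul_le_mul_of_nonneg_right hb (abs_nonneg _)
    have h2 : 9 / 100 ≤ r * r' := by nlinarith
    nlinarith [mul_le_mul_of_nonneg_left h2 (abs_nonneg (r - r'))]

theorem k7_u {C μ r p β : ℝ} (hC : 0 < C ∧ C ≤ 1) (hμ : 0 < μ) (hμ1 : μ ≤ 1 / 2)
    (hr : 3 / 10 ≤ r) (hp : |p| ≤ 2) (hβ : β ∈ JJ) : ‖Uenc C μ r p β‖ ≤ 10 := by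
  unfold Uenc
  refine (norm_add_le _ _).trans ?_
  rw [norm_mul, Complex.norm_I, mul_one, Complex.norm_real, Complex.norm_real,
    Real.norm_eq_abs, Real.norm_eq_abs]
  have hr0 : 0 < r := by linarith
  have hb : |β| ≤ 10 := abs_le.2 ⟨hβ.1, hβ.2⟩
  have h1 : |(C - ma * mb * μ ^ 2 * β) / r| ≤ 7 := by
    rw [abs_div, abs_of_pos hr0, div_le_iff₀ hr0]
    have h2 : |C - ma * mb * μ ^ 2 * β| ≤ |C| + |ma * mb * μ ^ 2 * β| := abs_sub _ _
    have h3 : |C| ≤ 1 := by rw [abs_of_pos hC.1]; exact hC.2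
    have h4 : |ma * mb * μ ^ 2 * β| ≤ 1 := by
      rw [abs_mul, abs_of_nonneg (by unfold ma mb; positivity)]
      have h5 : μ ^ 2 ≤ 1 / 4 := by nlinarith
      have h6 : ma * mb * μ ^ 2 ≤ 3 / 64 := by
        unfold ma mb
        linarith
      have h7 : 0 ≤ ma * mb * μ ^ 2 := by unfold ma mb; positivity
      nlinarith [abs_nonneg β]
    linarith
  linarith

theorem out_near_pr (C : ℝ) (hC : 0 < C ∧ C ≤ 1) : ∃ μ0 L c : ℝ, 0 < μ0 ∧ 1 ≤ L ∧ 0 < c ∧
    ∀ μ, 0 < μ → μ < μ0 →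
      Near (L * μ ^ 2) (fun q : Pl × ℝ × ℝ => outD C μ q.1 q.2.1 q.2.2)
        (fun q => limD C q.1 q.2.1) (CDw C ×ˢ (univ ×ˢ JJ)) ∧
      (∀ X ∈ CDw C, ∀ χ, ∀ β ∈ JJ, outD C μ X χ β ∈ DD c ∧ inD C μ X χ β ∈ DD c) := by
  obtain ⟨μ1, L1, hμ1, hL1, hk⟩ := kap_near C hC
  set K0 : ℝ := C / (cc * rh) with hK0
  have hr : 0 < rh := by linarith [k7_rh.1]
  have hc : 0 < cc := k7_cc
  have hC0 : 0 < C := hC.1
  have hK0p : 0 < K0 := by positivity
  set L : ℝ := L1 + 7 + (10 / 3 + 1000 / 9 * K0) with hL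
  have hL0 : 0 < L := by positivity
  refine ⟨min μ1 (min (1 / 2) (1 / (10 * L1))), L, 1 / 10,
    lt_min hμ1 (lt_min (by norm_num) (by positivity)), by nlinarith, by norm_num, ?_⟩
  intro μ hμ hμ0
  have hm1 : μ < μ1 := hμ0.trans_le (min_le_left _ _)
  have hm2 : μ ≤ 1 / 2 := (hμ0.trans_le ((min_le_right _ _).trans (min_le_left _ _))).le
  have hm3 : L1 * μ ^ 2 ≤ 1 / 10 := by
    have h : μ ≤ 1 / (10 * L1) := (hμ0.trans_le ((min_le_right _ _).trans (min_le_right _ _))).le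
    rw [le_div_iff₀ (by positivity)] at h
    have h2 : μ ^ 2 ≤ μ := by nlinarith
    nlinarith [mul_le_mul_of_nonneg_left h2 (by linarith : (0:ℝ) ≤ L1)]
  obtain ⟨hkE, hkI⟩ := hk μ hμ hm1
  have hμ2 : 0 ≤ μ ^ 2 := by positivity
  -- the difference
  have hdiff : ∀ q : Pl × ℝ × ℝ, outD C μ q.1 q.2.1 q.2.2 - limD C q.1 q.2.1 =
      ((0 : ℂ), ((-(ma * mb * μ ^ 2 * (q.2.2 / (chart C q.1).1)) : ℝ) : ℂ) * Complex.I,
        kapE C μ (chart C q.1) q.2.1 q.2.2 - kap0 C (chart C q.1), (0:ℝ)) := by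
    intro q
    unfold outD limD Uenc
    ext1
    · show (((chart C q.1).1 : ℝ) : ℂ) - (((chart C q.1).1 : ℝ) : ℂ) = 0
      simp
    ext1
    · show ((((chart C q.1).2 : ℝ) : ℂ) +
        ((C - ma * mb * μ ^ 2 * q.2.2) / (chart C q.1).1 : ℝ) * Complex.I) -
        ((((chart C q.1).2 : ℝ) : ℂ) +
        ((C - ma * mb * (0:ℝ) ^ 2 * 0) / (chart C q.1).1 : ℝ) * Complex.I) =
        ((-(ma * mb * μ ^ 2 * (q.2.2 / (chart C q.1).1)) : ℝ) : ℂ) * Complex.I
      have e : -(ma * mb * μ ^ 2 * (q.2.2 / (chart C q.1).1)) =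
          (C - ma * mb * μ ^ 2 * q.2.2) / (chart C q.1).1 -
            (C - ma * mb * (0:ℝ) ^ 2 * 0) / (chart C q.1).1 := by ring
      rw [e]
      push_cast
      ring
    ext1
    · rfl
    · show q.2.1 - q.2.1 = 0
      simp
  have hab : (0:ℝ) ≤ ma * mb * μ ^ 2 := by unfold ma mb; positivity
  have hab2 : ma * mb * μ ^ 2 ≤ 3 / 16 * μ ^ 2 := by unfold ma mb; linarith
  have hnorm : ∀ (a b : ℝ), ‖((0 : ℂ), ((a : ℝ) : ℂ) * Complex.I, b, (0:ℝ))‖ = max |a| |b| := by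
    intro a b
    simp only [Prod.norm_def, norm_mul, Complex.norm_I, mul_one, Complex.norm_real,
      Real.norm_eq_abs, norm_zero]
    rw [max_eq_left (abs_nonneg b), max_eq_right]
    exact (abs_nonneg a).trans (le_max_left _ _)
  constructor
  · constructor
    · intro q hq
      obtain ⟨a1, a2, a3, a4, a5⟩ := k7_DD C hC q.1 hq.1
      rw [hdiff, hnorm]
      have hr0 : 0 < (chart C q.1).1 := by linarith
      have hb : |q.2.2| ≤ 10 := abs_le.2 ⟨hq.2.2.1, hq.2.2.2⟩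
      have h1 : |q.2.2 / (chart C q.1).1| ≤ 34 := by
        rw [abs_div, abs_of_pos hr0, div_le_iff₀ hr0]
        linarith
      refine max_le ?_ ?_
      · rw [abs_neg, abs_mul, abs_of_nonneg hab]
        have h2 : ma * mb * μ ^ 2 * |q.2.2 / (chart C q.1).1| ≤ 3 / 16 * μ ^ 2 * 34 :=
          mul_le_mul hab2 h1 (abs_nonneg _) (by positivity)
        have h3 : 3 / 16 * 34 ≤ L := by nlinarith
        nlinarith [mul_le_mul_of_nonneg_right h3 hμ2]
      · have h2 := hkE.1 q hq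
        rw [Real.norm_eq_abs] at h2
        have h3 : L1 ≤ L := by nlinarith
        exact h2.trans (mul_le_mul_of_nonneg_right h3 hμ2)
    · intro q hq q' hq'
      obtain ⟨a1, -, -, -, -⟩ := k7_DD C hC q.1 hq.1
      obtain ⟨a1', -, -, -, -⟩ := k7_DD C hC q'.1 hq'.1
      rw [hdiff, hdiff]
      have e : (((0 : ℂ), ((-(ma * mb * μ ^ 2 * (q.2.2 / (chart C q.1).1)) : ℝ) : ℂ) * Complex.I,
          kapE C μ (chart C q.1) q.2.1 q.2.2 - kap0 C (chart C q.1), (0:ℝ)) : Dt) -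
          ((0 : ℂ), ((-(ma * mb * μ ^ 2 * (q'.2.2 / (chart C q'.1).1)) : ℝ) : ℂ) * Complex.I,
          kapE C μ (chart C q'.1) q'.2.1 q'.2.2 - kap0 C (chart C q'.1), (0:ℝ)) =
          ((0 : ℂ), ((-(ma * mb * μ ^ 2 * (q.2.2 / (chart C q.1).1 -
            q'.2.2 / (chart C q'.1).1)) : ℝ) : ℂ) * Complex.I,
          (kapE C μ (chart C q.1) q.2.1 q.2.2 - kap0 C (chart C q.1)) -
          (kapE C μ (chart C q'.1) q'.2.1 q'.2.2 - kap0 C (chart C q'.1)), (0:ℝ)) := by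
        ext1
        · show (0:ℂ) - 0 = 0
          simp
        ext1
        · show ((-(ma * mb * μ ^ 2 * (q.2.2 / (chart C q.1).1)) : ℝ) : ℂ) * Complex.I -
            ((-(ma * mb * μ ^ 2 * (q'.2.2 / (chart C q'.1).1)) : ℝ) : ℂ) * Complex.I =
            ((-(ma * mb * μ ^ 2 * (q.2.2 / (chart C q.1).1 -
            q'.2.2 / (chart C q'.1).1)) : ℝ) : ℂ) * Complex.I
          push_cast
          ring
        ext1
        · rfl
        · show (0:ℝ) - 0 = 0
          simp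
      rw [e, hnorm]
      have hb' : |q'.2.2| ≤ 10 := abs_le.2 ⟨hq'.2.2.1, hq'.2.2.2⟩
      have h1 := k7_div (b := q.2.2) a1 a1' hb'
      have h2 := k7_r_lip C hC.1 q.1 q'.1
      have d1 : dist q.1 q'.1 ≤ dist q q' := by rw [Prod.dist_eq (x := q)]; exact le_max_left _ _
      have d3 : dist q.2.2 q'.2.2 ≤ dist q.2 q'.2 := by
        rw [Prod.dist_eq (x := q.2)]; exact le_max_right _ _
      have d4 : dist q.2 q'.2 ≤ dist q q' := by
        rw [Prod.dist_eq (x := q)]; exact le_max_right _ _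
      have d2 : dist q.2.2 q'.2.2 ≤ dist q q' := d3.trans d4
      rw [Real.dist_eq] at d2
      have hd0 : 0 ≤ dist q q' := dist_nonneg
      have h3 : |q.2.2 / (chart C q.1).1 - q'.2.2 / (chart C q'.1).1| ≤
          (10 / 3 + 1000 / 9 * K0) * dist q q' := by
        have h4 : K0 * dist q.1 q'.1 ≤ K0 * dist q q' := mul_le_mul_of_nonneg_left d1 hK0p.le
        linarith [h1, h2, h4, d2]
      refine max_le ?_ ?_
      · rw [abs_neg, abs_mul, abs_of_nonneg hab]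
        have h5 : ma * mb * μ ^ 2 * |q.2.2 / (chart C q.1).1 - q'.2.2 / (chart C q'.1).1| ≤
            μ ^ 2 * ((10 / 3 + 1000 / 9 * K0) * dist q q') :=
          mul_le_mul (by linarith) h3 (abs_nonneg _) hμ2
        have h6 : (10 / 3 + 1000 / 9 * K0) ≤ L := by linarith
        have h7 : (10 / 3 + 1000 / 9 * K0) * dist q q' ≤ L * dist q q' :=
          mul_le_mul_of_nonneg_right h6 hd0
        calc ma * mb * μ ^ 2 * |q.2.2 / (chart C q.1).1 - q'.2.2 / (chart C q'.1).1| ≤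
            μ ^ 2 * ((10 / 3 + 1000 / 9 * K0) * dist q q') := h5
          _ ≤ μ ^ 2 * (L * dist q q') := mul_le_mul_of_nonneg_left h7 hμ2
          _ = L * μ ^ 2 * dist q q' := by ring
      · have h2 := hkE.2 q hq q' hq'
        rw [Real.norm_eq_abs] at h2
        have h3 : L1 ≤ L := by nlinarith
        exact h2.trans (mul_le_mul_of_nonneg_right (mul_le_mul_of_nonneg_right h3 hμ2) hd0)
  · intro X hX χ β hβ
    obtain ⟨a1, a2, a3, a4, a5⟩ := k7_DD C hC X hX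
    have hr0 : 0 < (chart C X).1 := by linarith
    have hq : ((X, χ, β) : Pl × ℝ × ℝ) ∈ CDw C ×ˢ ((univ : Set ℝ) ×ˢ JJ) := ⟨hX, mem_univ _, hβ⟩
    have h1 := hkE.1 _ hq
    have h2 := hkI.1 _ hq
    rw [Real.norm_eq_abs] at h1 h2
    have h3 := abs_le.1 (h1.trans hm3)
    have h4 := abs_le.1 (h2.trans hm3)
    simp only at h3 h4
    have h5 := k7_u hC hμ hm2 a1 a3 hβ
    constructor
    · refine ⟨?_, ?_, ?_, ?_, ?_⟩
      · show (1 / 10 : ℝ) ≤ (((chart C X).1 : ℂ)).re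
        rw [Complex.ofReal_re]
        linarith
      · show ‖((chart C X).1 : ℂ)‖ ≤ 1 / (1 / 10)
        rw [Complex.norm_real, Real.norm_eq_abs, abs_of_pos hr0]
        linarith
      · show ‖Uenc C μ (chart C X).1 (chart C X).2 β‖ ≤ 1 / (1 / 10)
        refine h5.trans (by norm_num)
      · show (1 / 10 : ℝ) ≤ kapE C μ (chart C X) χ β
        linarith [h3.1]
      · show kapE C μ (chart C X) χ β ≤ 1 / (1 / 10)
        linarith [h3.2]
    · refine ⟨?_, ?_, ?_, ?_, ?_⟩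
      · show (1 / 10 : ℝ) ≤ (((chart C X).1 : ℂ)).re
        rw [Complex.ofReal_re]
        linarith
      · show ‖((chart C X).1 : ℂ)‖ ≤ 1 / (1 / 10)
        rw [Complex.norm_real, Real.norm_eq_abs, abs_of_pos hr0]
        linarith
      · show ‖-Uenc C μ (chart C X).1 (chart C X).2 β‖ ≤ 1 / (1 / 10)
        rw [norm_neg]
        refine h5.trans (by norm_num)
      · show (1 / 10 : ℝ) ≤ kapI C μ (chart C X) χ β
        linarith [h4.1]
      · show kapI C μ (chart C X) χ β ≤ 1 / (1 / 10)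
        linarith [h4.2]

end

end Pool.Agent.HS

namespace Pool.Agent.HS
open Set Filter Topology Classical

theorem lim_reg (C : ℝ) (hC : 0 < C ∧ C ≤ 1) : ∃ L c : ℝ, 1 ≤ L ∧ 0 < c ∧
    Reg L (fun q : Pl × ℝ => limD C q.1 q.2) (CDw C ×ˢ univ) ∧
    (∀ X ∈ CDw C, ∀ χ, limD C X χ ∈ DD c) :=
  @Pool.Agent.HS.lim_reg_pr C hC

end Pool.Agent.HS

namespace Pool.Agent.HS
open Set Filter Topology Classical

theorem out_near (C : ℝ) (hC : 0 < C ∧ C ≤ 1) : ∃ μ0 L c : ℝ, 0 < μ0 ∧ 1 ≤ L ∧ 0 < c ∧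
    ∀ μ, 0 < μ → μ < μ0 →
      Near (L * μ ^ 2) (fun q : Pl × ℝ × ℝ => outD C μ q.1 q.2.1 q.2.2)
        (fun q => limD C q.1 q.2.1) (CDw C ×ˢ (univ ×ˢ JJ)) ∧
      (∀ X ∈ CDw C, ∀ χ, ∀ β ∈ JJ, outD C μ X χ β ∈ DD c ∧ inD C μ X χ β ∈ DD c) :=
  @Pool.Agent.HS.out_near_pr C hC

end Pool.Agent.HS
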