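import Pool.Agent.Lib_helper60.HSF.D_WI

/-! Project HS, part I/O, block R2: reversal, rotation and concatenation of orbits. -/

set_option autoImplicit false

namespace Pool.Agent.HS

noncomputable section

open Set Filter Topology Classical

/-- time reversal as a linear map -/
def r2_revL : St →ₗ[ℝ] St where
  toFun := rev
  map_add' y z := by
    simp only [rev, x3, x2, u3, u2, Prod.fst_add, Prod.snd_add, Prod.mk_add_mk]
    refine Prod.ext rfl (Prod.ext rfl (Prod.ext ?_ ?_)) <;> simp [add_comm]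
  map_smul' c y := by
    simp only [rev, x3, x2, u3, u2, Prod.smul_fst, Prod.smul_snd, Prod.smul_mk, RingHom.id_apply,
      smul_neg]

/-- rotation as a linear map -/
def r2_rotL (ρ : ℂ) : St →ₗ[ℝ] St where
  toFun := rot ρ
  map_add' y z := by
    simp only [rot, x3, x2, u3, u2, Prod.fst_add, Prod.snd_add, Prod.mk_add_mk, mul_add]
  map_smul' c y := by
    simp only [rot, x3, x2, u3, u2, Prod.smul_fst, Prod.smul_snd, Prod.smul_mk, RingHom.id_apply,
      mul_smul_comm]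

theorem r2_comp_lin (L : St →ₗ[ℝ] St) {γ : ℝ → St} {v : St} {s : Set ℝ} {t : ℝ}
    (h : HasDerivWithinAt γ v s t) : HasDerivWithinAt (fun t => L (γ t)) (L v) s t := by
  have h1 := (LinearMap.toContinuousLinearMap L).hasFDerivAt (x := γ t)
  exact h1.comp_hasDerivWithinAt t h

theorem r2_nc_rev {y : St} (h : NC y) : NC (rev y) := h

theorem r2_vf_rev (M : ℝ) (y : St) : vf M (rev y) = - rev (vf M y) := by
  simp only [vf, rev, x3, x2, u3, u2]
  refine Prod.ext ?_ (Prod.ext ?_ (Prod.ext ?_ ?_)) <;>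
    simp only [Prod.fst_neg, Prod.snd_neg] <;> ring

theorem r2_G_rot {ρ : ℂ} (hρ : ‖ρ‖ = 1) (x : ℂ) : G (ρ * x) = ρ * G x := by
  unfold G
  rw [norm_mul, hρ, one_mul]
  ring

theorem r2_nc_rot {ρ : ℂ} (hρ : ‖ρ‖ = 1) {y : St} (h : NC y) : NC (rot ρ y) := by
  have h0 : ρ ≠ 0 := by
    rw [← norm_ne_zero_iff, hρ]
    exact one_ne_zero
  refine ⟨mul_ne_zero h0 h.1, mul_ne_zero h0 h.2.1, fun h1 => h.2.2 ?_⟩
  exact mul_left_cancel₀ h0 h1

theorem r2_vf_rot (M : ℝ) {ρ : ℂ} (hρ : ‖ρ‖ = 1) (y : St) :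
    vf M (rot ρ y) = rot ρ (vf M y) := by
  have h1 := r2_G_rot hρ (x3 y)
  have h2 := r2_G_rot hρ (x2 y)
  have h3 := r2_G_rot hρ (x3 y - x2 y)
  rw [mul_sub] at h3
  simp only [x3, x2] at h1 h2 h3
  simp only [vf, rot, x3, x2, u3, u2]
  rw [h1, h2, h3]
  refine Prod.ext ?_ (Prod.ext ?_ (Prod.ext ?_ ?_)) <;> simp only <;> ring

theorem reachT_rev_pr {M T : ℝ} {y y' : St} (h : ReachT M T y y') :
    ReachT M T (rev y') (rev y) := by
  obtain ⟨hT, γ, hγ, h0, h1⟩ := h
  refine ⟨hT, fun t => rev (γ (T - t)), fun t ht => ?_, ?_, ?_⟩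
  · have ht' : T - t ∈ Icc (0 : ℝ) T := ⟨by linarith [ht.2], by linarith [ht.1]⟩
    obtain ⟨ha, hb⟩ := hγ (T - t) ht'
    refine ⟨r2_nc_rev ha, ?_⟩
    have hh : HasDerivWithinAt (fun t : ℝ => T - t) (-1) (Icc 0 T) t := by
      simpa using (hasDerivWithinAt_id t (Icc 0 T)).const_sub T
    have hm : MapsTo (fun t : ℝ => T - t) (Icc 0 T) (Icc 0 T) := fun s hs =>
      ⟨by linarith [hs.2], by linarith [hs.1]⟩
    have hc := HasDerivWithinAt.scomp t hb hh hm
    have hd := r2_comp_lin r2_revL hc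
    rw [map_smul] at hd
    have he : (-1 : ℝ) • r2_revL (vf M (γ (T - t))) = vf M (rev (γ (T - t))) := by
      rw [r2_vf_rev, neg_one_smul]
      rfl
    rw [he] at hd
    exact hd
  · simp only [sub_zero]
    rw [h1]
  · simp only [sub_self]
    rw [h0]

theorem reachT_rot_pr {M T : ℝ} {y y' : St} {ρ : ℂ} (hρ : ‖ρ‖ = 1) (h : ReachT M T y y') :
    ReachT M T (rot ρ y) (rot ρ y') := by
  obtain ⟨hT, γ, hγ, h0, h1⟩ := h
  refine ⟨hT, fun t => rot ρ (γ t), fun t ht => ?_, ?_, ?_⟩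
  · obtain ⟨ha, hb⟩ := hγ t ht
    refine ⟨r2_nc_rot hρ ha, ?_⟩
    rw [r2_vf_rot M hρ]
    exact r2_comp_lin (r2_rotL ρ) hb
  · simp only []
    rw [h0]
  · simp only []
    rw [h1]

theorem r2_glue {E : Type*} [NormedAddCommGroup E] [NormedSpace ℝ E] {γ δ : ℝ → E} {T T' t : ℝ}
    {F : E → E} (hT : 0 ≤ T) (hT' : 0 ≤ T')
    (hγ : ∀ t ∈ Icc (0 : ℝ) T, HasDerivWithinAt γ (F (γ t)) (Icc 0 T) t)
    (hδ : ∀ t ∈ Icc (0 : ℝ) T', HasDerivWithinAt δ (F (δ t)) (Icc 0 T') t)
    (h : γ T = δ 0) (ht : t ∈ Icc (0 : ℝ) (T + T')) :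
    HasDerivWithinAt (fun s => if s ≤ T then γ s else δ (s - T))
      (F (if t ≤ T then γ t else δ (t - T))) (Icc 0 (T + T')) t := by
  have hU : Icc (0 : ℝ) (T + T') = Icc 0 T ∪ Icc T (T + T') := by
    rw [Icc_union_Icc_eq_Icc hT (by linarith)]
  have hL : ∀ s ∈ Icc (0 : ℝ) T, (fun s => if s ≤ T then γ s else δ (s - T)) s = γ s :=
    fun s hs => if_pos hs.2
  have hR : ∀ s ∈ Icc T (T + T'), (fun s => if s ≤ T then γ s else δ (s - T)) s = δ (s - T) := by
    intro s hs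
    by_cases hs' : s ≤ T
    · have : s = T := le_antisymm hs' hs.1
      simp only [this, le_refl, if_true, sub_self, h]
    · simp only [if_neg hs']
  rw [hU]
  refine HasDerivWithinAt.union ?_ ?_
  · by_cases htT : t ≤ T
    · have htm : t ∈ Icc (0 : ℝ) T := ⟨ht.1, htT⟩
      rw [if_pos htT]
      exact (hγ t htm).congr hL (hL t htm)
    · have : t ∉ closure (Icc (0 : ℝ) T) := by
        rw [isClosed_Icc.closure_eq]
        exact fun h => htT h.2
      exact HasFDerivWithinAt.of_notMem_closure this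
  · by_cases htT : T ≤ t
    · have htm : t ∈ Icc T (T + T') := ⟨htT, ht.2⟩
      have ht' : t - T ∈ Icc (0 : ℝ) T' := ⟨by linarith, by linarith [ht.2]⟩
      have hh : HasDerivWithinAt (fun t : ℝ => t - T) 1 (Icc T (T + T')) t := by
        simpa using (hasDerivWithinAt_id t (Icc T (T + T'))).sub_const T
      have hm : MapsTo (fun t : ℝ => t - T) (Icc T (T + T')) (Icc 0 T') := fun s hs =>
        ⟨by linarith [hs.1], by linarith [hs.2]⟩
      have hc := HasDerivWithinAt.scomp t (hδ (t - T) ht') hh hm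
      rw [one_smul] at hc
      have hv : (if t ≤ T then γ t else δ (t - T)) = δ (t - T) := hR t htm
      rw [hv]
      exact hc.congr hR (hR t htm)
    · have : t ∉ closure (Icc T (T + T')) := by
        rw [isClosed_Icc.closure_eq]
        exact fun h => htT h.1
      exact HasFDerivWithinAt.of_notMem_closure this

theorem reachT_trans_pr {M T T' : ℝ} {y y' y'' : St} (h : ReachT M T y y')
    (h' : ReachT M T' y' y'') : ReachT M (T + T') y y'' := by
  obtain ⟨hT, γ, hγ, h0, h1⟩ := h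
  obtain ⟨hT', δ, hδ, k0, k1⟩ := h'
  refine ⟨by linarith, fun s => if s ≤ T then γ s else δ (s - T), fun t ht => ⟨?_, ?_⟩, ?_, ?_⟩
  · by_cases htT : t ≤ T
    · simp only [if_pos htT]
      exact (hγ t ⟨ht.1, htT⟩).1
    · simp only [if_neg htT]
      exact (hδ (t - T) ⟨by linarith [not_le.1 htT], by linarith [ht.2]⟩).1
  · exact r2_glue hT hT' (fun t ht => (hγ t ht).2) (fun t ht => (hδ t ht).2) (by rw [h1, k0]) ht
  · simp only [if_pos hT]
    exact h0
  · by_cases hc : T + T' ≤ T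
    · have hz : T' = 0 := le_antisymm (by linarith) hT'
      simp only [if_pos hc]
      rw [hz, add_zero, h1, ← k0, ← k1, hz]
    · simp only [if_neg hc, add_sub_cancel_left]
      exact k1

theorem reach_rev_pr {M : ℝ} {y y' : St} (h : Reach M y y') : Reach M (rev y') (rev y) := by
  obtain ⟨T, hT⟩ := h
  exact ⟨T, reachT_rev_pr hT⟩

theorem reach_rot_pr {M : ℝ} {y y' : St} {ρ : ℂ} (hρ : ‖ρ‖ = 1) (h : Reach M y y') :
    Reach M (rot ρ y) (rot ρ y') := by
  obtain ⟨T, hT⟩ := h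
  exact ⟨T, reachT_rot_pr hρ hT⟩

theorem reach_trans_pr {M : ℝ} {y y' y'' : St} (h : Reach M y y') (h' : Reach M y' y'') :
    Reach M y y'' := by
  obtain ⟨T, hT⟩ := h
  obtain ⟨T', hT'⟩ := h'
  exact ⟨T + T', reachT_trans_pr hT hT'⟩

end

end Pool.Agent.HS

namespace Pool.Agent.HS
open Set Filter Topology Classical

theorem reachT_rev {M T : ℝ} {y y' : St} (h : ReachT M T y y') : ReachT M T (rev y') (rev y) :=
  @Pool.Agent.HS.reachT_rev_pr M T y y' h

end Pool.Agent.HS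

namespace Pool.Agent.HS
open Set Filter Topology Classical

theorem reachT_rot {M T : ℝ} {y y' : St} {ρ : ℂ} (hρ : ‖ρ‖ = 1) (h : ReachT M T y y') :
    ReachT M T (rot ρ y) (rot ρ y') :=
  @Pool.Agent.HS.reachT_rot_pr M T y y' ρ hρ h

end Pool.Agent.HS

namespace Pool.Agent.HS
open Set Filter Topology Classical

theorem reachT_trans {M T T' : ℝ} {y y' y'' : St} (h : ReachT M T y y') (h' : ReachT M T' y' y'') :
    ReachT M (T + T') y y'' :=
  @Pool.Agent.HS.reachT_trans_pr M T T' y y' y'' h h'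

end Pool.Agent.HS

namespace Pool.Agent.HS
open Set Filter Topology Classical

theorem reach_rev {M : ℝ} {y y' : St} (h : Reach M y y') : Reach M (rev y') (rev y) :=
  @Pool.Agent.HS.reach_rev_pr M y y' h

end Pool.Agent.HS

namespace Pool.Agent.HS
open Set Filter Topology Classical

theorem reach_rot {M : ℝ} {y y' : St} {ρ : ℂ} (hρ : ‖ρ‖ = 1) (h : Reach M y y') :
    Reach M (rot ρ y) (rot ρ y') :=
  @Pool.Agent.HS.reach_rot_pr M y y' ρ hρ h

end Pool.Agent.HS

namespace Pool.Agent.HS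
open Set Filter Topology Classical

theorem reach_trans {M : ℝ} {y y' y'' : St} (h : Reach M y y') (h' : Reach M y' y'') :
    Reach M y y'' :=
  @Pool.Agent.HS.reach_trans_pr M y y' y'' h h'

end Pool.Agent.HS
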