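import Pool.Agent.Lib_helper60.HSF.D_WE2
import Pool.Agent.Lib_helper60.HSF.IO_K4
import Pool.Agent.Lib_helper60.HSF.IO_I4
import Pool.Agent.Lib_helper60.HSF.IO_R2
import Pool.Agent.Lib_helper60.HSF.IO_I10
import Pool.Agent.Lib_helper60.HSF.IO_K7

/-!
# HS part E, block E1d: `leg_out`
-/

namespace Pool.Agent.HS

noncomputable section

open Set Filter Topology Classical

/-- the legs of the encounter states are orbits, start and end at the encounter state -/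
theorem leg_out_pr (C : ℝ) (hC : 0 < C ∧ C ≤ 1) : ∃ σ μ0 : ℝ, 0 < σ ∧ 0 < μ0 ∧ μ0 ≤ σ ∧
    ∀ μ, 0 < μ → μ < μ0 → ∀ X ∈ CDw C, ∀ β ∈ JJ, β ≠ 0 →
      (∀ χ, ∀ g ∈ Icc μ σ, ∀ g' ∈ Icc g σ,
        Reach (μ ^ 2) (outLeg C μ X χ β g) (outLeg C μ X χ β g')) ∧
      (∀ χ N, Match C μ X N β χ → enc C μ X N β = outLeg C μ X χ β μ) ∧
      (∀ N, ∀ g ∈ Icc μ σ, ∀ g' ∈ Icc g σ,
        Reach (μ ^ 2) (inLeg C μ X N β g') (inLeg C μ X N β g)) ∧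
      (∀ N, inLeg C μ X N β μ = enc C μ X N β) := by
  obtain ⟨μ1, L, c, hμ1, hL, hc, ho⟩ := out_near C hC
  obtain ⟨σ1, hσ1, hr⟩ := leg_reach c hc
  obtain ⟨σ2, hσ2, hs⟩ := inner_spec c hc
  obtain ⟨μ2, hμ2, hm⟩ := enc_match C hC
  refine ⟨min σ1 σ2, min (min μ1 μ2) (min σ1 σ2), by positivity, by positivity,
    min_le_right _ _, ?_⟩
  intro μ hμ hμ0 X hX β hβ hβ0
  have h1 : μ < μ1 := hμ0.trans_le ((min_le_left _ _).trans (min_le_left _ _))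
  have h2 : μ < μ2 := hμ0.trans_le ((min_le_left _ _).trans (min_le_right _ _))
  have h3 : μ ≤ σ2 := hμ0.le.trans ((min_le_right _ _).trans (min_le_right _ _))
  obtain ⟨-, hd⟩ := ho μ hμ h1
  have hβ' : -β ∈ JJ := by
    unfold JJ at hβ ⊢
    rw [mem_Icc] at hβ ⊢
    constructor <;> linarith [hβ.1, hβ.2]
  have hβ0' : -β ≠ 0 := neg_ne_zero.mpr hβ0
  refine ⟨?_, ?_, ?_, ?_⟩
  · intro χ g hg g' hg'
    exact hr μ g g' hμ hg.1 hg'.1 (hg'.2.trans (min_le_left _ _)) _ (hd X hX χ β hβ).1 β hβ hβ0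
  · intro χ N hMt
    rw [(hm μ hμ h2 X hX N χ β hβ hMt).1]
    exact (leg_start μ hμ (outD C μ X χ β) β
      (hs μ μ hμ le_rfl h3 _ (hd X hX χ β hβ).1 β hβ).1).symm
  · intro N g hg g' hg'
    exact reach_rev (hr μ g g' hμ hg.1 hg'.1 (hg'.2.trans (min_le_left _ _)) _
      (hd X hX N β hβ).2 (-β) hβ' hβ0')
  · intro N
    have h4 := leg_start μ hμ (inD C μ X N β) (-β)
      (hs μ μ hμ le_rfl h3 _ (hd X hX N β hβ).2 (-β) hβ').1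
    unfold inLeg
    rw [h4]
    rfl

end

end Pool.Agent.HS

namespace Pool.Agent.HS
open Set Filter Topology Classical

theorem leg_out (C : ℝ) (hC : 0 < C ∧ C ≤ 1) : ∃ σ μ0 : ℝ, 0 < σ ∧ 0 < μ0 ∧ μ0 ≤ σ ∧
    ∀ μ, 0 < μ → μ < μ0 → ∀ X ∈ CDw C, ∀ β ∈ JJ, β ≠ 0 →
      (∀ χ, ∀ g ∈ Icc μ σ, ∀ g' ∈ Icc g σ,
        Reach (μ ^ 2) (outLeg C μ X χ β g) (outLeg C μ X χ β g')) ∧
      (∀ χ N, Match C μ X N β χ → enc C μ X N β = outLeg C μ X χ β μ) ∧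
      (∀ N, ∀ g ∈ Icc μ σ, ∀ g' ∈ Icc g σ,
        Reach (μ ^ 2) (inLeg C μ X N β g') (inLeg C μ X N β g)) ∧
      (∀ N, inLeg C μ X N β μ = enc C μ X N β) :=
  @Pool.Agent.HS.leg_out_pr C hC

end Pool.Agent.HS
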