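import Pool.Agent.Lib_helper60.HSF.D_WI
import Pool.Agent.Lib_helper60.HSF.A_CA
import Pool.Agent.Lib_helper60.HSF.A_CB

/-!
# Project HS, block O2: the cut off fields
-/

namespace Pool.Agent.HS

noncomputable section

open Set Filter Topology Classical

/-- the field for `M = 0` -/
def o2F (i : Fin 2) (Z : LCS) : LCS :=
  (((1 / 4 : ℝ) : ℂ) * Z.2.1,
   -((2 / mP i * (mQ i * ‖Z.2.2.2.1‖ ^ 2 / 2 - mQ i / ‖Z.2.2.1‖ - Z.2.2.2.2) : ℝ) * Z.1),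
   (‖Z.1‖ ^ 2 : ℝ) * Z.2.2.2.1,
   (‖Z.1‖ ^ 2 : ℝ) * (- G Z.2.2.1),
   0)

/-- the perturbation -/
def o2Q (i : Fin 2) (Z : LCS) : LCS :=
  ((mP i / 4 : ℝ) * Z.2.1 + ((mQ i / 2 : ℝ) * (starRingEnd ℂ) Z.1 * Z.2.2.2.1),
   -((2 / mP i * (mQ i ^ 2 * ‖Z.2.2.2.1‖ ^ 2 / 2 - mP i * mQ i / ‖Z.1 ^ 2 - Z.2.2.1‖) : ℝ) * Z.1)
     - (2 * mQ i * ‖Z.1‖ ^ 2 : ℝ) * (starRingEnd ℂ) Z.1 * G (Z.1 ^ 2 - Z.2.2.1)
     - (mQ i / 2 : ℝ) * (starRingEnd ℂ) Z.2.1 * Z.2.2.2.1,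
   (‖Z.1‖ ^ 2 * mQ i : ℝ) * Z.2.2.2.1 + (mP i / 2 : ℝ) * Z.1 * Z.2.1,
   (‖Z.1‖ ^ 2 : ℝ) * ((mP i : ℝ) * G (Z.1 ^ 2 - Z.2.2.1)),
   0)

theorem o2_lcf (i : Fin 2) (M : ℝ) (Z : LCS) : o2F i Z + M • o2Q i Z = lcf i M Z := by
  unfold o2F o2Q lcf lcB
  refine Prod.ext ?_ (Prod.ext ?_ (Prod.ext ?_ (Prod.ext ?_ ?_)))
  · simp only [Prod.fst_add, Prod.smul_fst, Complex.real_smul]
    push_cast
    ring
  · simp only [Prod.fst_add, Prod.snd_add, Prod.smul_fst, Prod.smul_snd, Complex.real_smul]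
    push_cast
    ring
  · simp only [Prod.fst_add, Prod.snd_add, Prod.smul_fst, Prod.smul_snd, Complex.real_smul]
    push_cast
    ring
  · simp only [Prod.fst_add, Prod.snd_add, Prod.smul_fst, Prod.smul_snd, Complex.real_smul]
    push_cast
    ring
  · simp only [Prod.snd_add, Prod.smul_snd, smul_eq_mul, mul_zero, add_zero]

theorem o2_ofReal {r : LCS → ℝ} {U : Set LCS} (h : ContDiffOn ℝ 2 r U) :
    ContDiffOn ℝ 2 (fun Z => ((r Z : ℝ) : ℂ)) U :=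
  Complex.ofRealCLM.contDiff.comp_contDiffOn h

theorem o2_conj {r : LCS → ℂ} {U : Set LCS} (h : ContDiffOn ℝ 2 r U) :
    ContDiffOn ℝ 2 (fun Z => (starRingEnd ℂ) (r Z)) U :=
  Complex.conjCLE.contDiff.comp_contDiffOn h

theorem o2_G {r : LCS → ℂ} {U : Set LCS} (h : ContDiffOn ℝ 2 r U) (h0 : ∀ Z ∈ U, r Z ≠ 0) :
    ContDiffOn ℝ 2 (fun Z => G (r Z)) U := by
  unfold G
  refine (o2_ofReal (((h.norm ℝ h0).pow 3).inv fun Z hZ => ?_)).mul h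
  exact pow_ne_zero 3 (norm_ne_zero_iff.2 (h0 Z hZ))

theorem o2_F (i : Fin 2) : ContDiffOn ℝ 2 (o2F i) {Z : LCS | Z.2.2.1 ≠ 0} := by
  have h1 : ContDiffOn ℝ 2 (fun Z : LCS => Z.1) {Z : LCS | Z.2.2.1 ≠ 0} := by fun_prop
  have h2 : ContDiffOn ℝ 2 (fun Z : LCS => Z.2.1) {Z : LCS | Z.2.2.1 ≠ 0} := by fun_prop
  have h3 : ContDiffOn ℝ 2 (fun Z : LCS => Z.2.2.1) {Z : LCS | Z.2.2.1 ≠ 0} := by fun_prop
  have h4 : ContDiffOn ℝ 2 (fun Z : LCS => Z.2.2.2.1) {Z : LCS | Z.2.2.1 ≠ 0} := by fun_prop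
  have h5 : ContDiffOn ℝ 2 (fun Z : LCS => Z.2.2.2.2) {Z : LCS | Z.2.2.1 ≠ 0} := by fun_prop
  have hn1 := h1.norm_sq ℝ
  have hn4 := h4.norm_sq ℝ
  have h3n := h3.norm ℝ (fun Z hZ => hZ)
  unfold o2F
  refine ContDiffOn.prodMk (contDiffOn_const.mul h2) (ContDiffOn.prodMk ?_
    (ContDiffOn.prodMk ((o2_ofReal hn1).mul h4) (ContDiffOn.prodMk
      ((o2_ofReal hn1).mul (o2_G h3 (fun Z hZ => hZ)).neg) contDiffOn_const)))
  refine ((o2_ofReal (contDiffOn_const.mul ((((contDiffOn_const.mul hn4).div_const 2).sub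
    (contDiffOn_const.div h3n fun Z hZ => norm_ne_zero_iff.2 hZ)).sub h5))).mul h1).neg

theorem o2_Q (i : Fin 2) : ContDiffOn ℝ 2 (o2Q i) {Z : LCS | Z.1 ^ 2 - Z.2.2.1 ≠ 0} := by
  have h1 : ContDiffOn ℝ 2 (fun Z : LCS => Z.1) {Z : LCS | Z.1 ^ 2 - Z.2.2.1 ≠ 0} := by fun_prop
  have h2 : ContDiffOn ℝ 2 (fun Z : LCS => Z.2.1) {Z : LCS | Z.1 ^ 2 - Z.2.2.1 ≠ 0} := by fun_prop
  have h3 : ContDiffOn ℝ 2 (fun Z : LCS => Z.1 ^ 2 - Z.2.2.1) {Z : LCS | Z.1 ^ 2 - Z.2.2.1 ≠ 0} := by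
    fun_prop
  have h4 : ContDiffOn ℝ 2 (fun Z : LCS => Z.2.2.2.1) {Z : LCS | Z.1 ^ 2 - Z.2.2.1 ≠ 0} := by
    fun_prop
  have hn1 := h1.norm_sq ℝ
  have hn4 := h4.norm_sq ℝ
  have h3n := h3.norm ℝ (fun Z hZ => hZ)
  have h3G := o2_G h3 (fun Z hZ => hZ)
  unfold o2Q
  refine ContDiffOn.prodMk ((contDiffOn_const.mul h2).add ((contDiffOn_const.mul (o2_conj h1)).mul h4))
    (ContDiffOn.prodMk ?_ (ContDiffOn.prodMk ?_ (ContDiffOn.prodMk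
      ((o2_ofReal hn1).mul (contDiffOn_const.mul h3G)) contDiffOn_const)))
  · refine ((ContDiffOn.neg ?_).sub ?_).sub ((contDiffOn_const.mul (o2_conj h2)).mul h4)
    · exact (o2_ofReal (contDiffOn_const.mul (((contDiffOn_const.mul hn4).div_const 2).sub
        (contDiffOn_const.div h3n fun Z hZ => norm_ne_zero_iff.2 hZ)))).mul h1
    · exact ((o2_ofReal (contDiffOn_const.mul hn1)).mul (o2_conj h1)).mul h3G
  · exact ((o2_ofReal (hn1.mul contDiffOn_const)).mul h4).add ((contDiffOn_const.mul h1).mul h2)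

theorem o2_box (c : ℝ) : IsCompact (lcBox c) := by
  refine Metric.isCompact_of_isClosed_isBounded ?_ ?_
  · have h1 : IsClosed {Z : LCS | ‖Z‖ ≤ 1 / c} := isClosed_le continuous_norm continuous_const
    have h2 : IsClosed {Z : LCS | c ≤ ‖Z.2.2.1‖} := isClosed_le continuous_const (by fun_prop)
    exact h1.inter h2
  · refine (Metric.isBounded_closedBall (x := (0 : LCS)) (r := 1 / c)).subset ?_
    intro Z hZ
    rw [mem_closedBall_zero_iff]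
    exact hZ.1

theorem o2_bl {f : LCS → LCS} (hf : ContDiff ℝ 2 f) (hs : HasCompactSupport f) :
    ∃ L : ℝ, 0 ≤ L ∧ BL L L f ∧ Reg L f univ := by
  obtain ⟨L, hL, hR⟩ := reg_of_compactSupport hf hs
  obtain ⟨B, hB⟩ := hs.exists_bound_of_continuous hf.continuous
  refine ⟨max L B, le_max_of_le_left hL, ⟨fun x => (hB x).trans (le_max_right _ _), fun x y => ?_⟩,
    reg_mono hR (le_max_left _ _) (subset_refl _)⟩
  have h := hR.1 x (mem_univ x) y (mem_univ y)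
  rw [dist_eq_norm] at h
  exact h.trans (mul_le_mul_of_nonneg_right (le_max_left _ _) (norm_nonneg _))

/-- O2: the cut off fields -/
theorem field_cut_pr (i : Fin 2) (c : ℝ) (hc : 0 < c) : ∃ (f0 : LCS → LCS) (K : ℝ), 1 ≤ K ∧
    BL K K f0 ∧ Reg K f0 univ ∧ (∀ Z ∈ lcBox c, f0 Z = lcf i 0 Z) ∧
    ∀ δ, 0 < δ → ∃ (q : LCS → LCS) (L : ℝ), 0 ≤ L ∧ BL L L q ∧
      ∀ Z ∈ lcBox c, δ ≤ ‖lcX Z‖ → ∀ M : ℝ, f0 Z + M • q Z = lcf i M Z := by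
  have hU : IsOpen {Z : LCS | Z.2.2.1 ≠ 0} := isOpen_ne_fun (by fun_prop) continuous_const
  have hU' : IsOpen {Z : LCS | Z.1 ^ 2 - Z.2.2.1 ≠ 0} := isOpen_ne_fun (by fun_prop) continuous_const
  obtain ⟨f0, hf0, hs0, V, hV, hKV, -, he⟩ := exists_cutoff hU (o2_F i) (o2_box c) (by
    intro Z hZ
    exact norm_pos_iff.1 (lt_of_lt_of_le hc hZ.2))
  obtain ⟨L, hL, hBL, hR⟩ := o2_bl hf0 hs0
  have hfe : ∀ Z ∈ lcBox c, f0 Z = o2F i Z := fun Z hZ => he (hKV hZ)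
  refine ⟨f0, max L 1, le_max_right _ _, ⟨fun x => (hBL.1 x).trans (le_max_left _ _),
    fun x y => (hBL.2 x y).trans (mul_le_mul_of_nonneg_right (le_max_left _ _) (norm_nonneg _))⟩,
    reg_mono hR (le_max_left _ _) (subset_refl _), fun Z hZ => ?_, fun δ hδ => ?_⟩
  · rw [hfe Z hZ, ← o2_lcf i 0 Z, zero_smul, add_zero]
  · have hK' : IsCompact (lcBox c ∩ {Z : LCS | δ ≤ ‖lcX Z‖}) := by
      refine (o2_box c).inter_right (isClosed_le continuous_const ?_)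
      unfold lcX
      fun_prop
    obtain ⟨q, hq, hsq, W, hW, hKW, -, heq⟩ := exists_cutoff hU' (o2_Q i) hK' (by
      intro Z hZ
      have h : δ ≤ ‖Z.1 ^ 2 - Z.2.2.1‖ := hZ.2
      exact norm_pos_iff.1 (lt_of_lt_of_le hδ h))
    obtain ⟨L', hL', hBL', -⟩ := o2_bl hq hsq
    refine ⟨q, L', hL', hBL', fun Z hZ hZδ M => ?_⟩
    have h1 : q Z = o2Q i Z := heq (hKW ⟨hZ, hZδ⟩)
    rw [hfe Z hZ, h1, o2_lcf]

end

end Pool.Agent.HS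

namespace Pool.Agent.HS
open Set Filter Topology Classical

theorem field_cut (i : Fin 2) (c : ℝ) (hc : 0 < c) : ∃ (f0 : LCS → LCS) (K : ℝ), 1 ≤ K ∧
    BL K K f0 ∧ Reg K f0 univ ∧ (∀ Z ∈ lcBox c, f0 Z = lcf i 0 Z) ∧
    ∀ δ, 0 < δ → ∃ (q : LCS → LCS) (L : ℝ), 0 ≤ L ∧ BL L L q ∧
      ∀ Z ∈ lcBox c, δ ≤ ‖lcX Z‖ → ∀ M : ℝ, f0 Z + M • q Z = lcf i M Z :=
  @Pool.Agent.HS.field_cut_pr i c hc

end Pool.Agent.HS
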