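import Pool.Agent.Lib_helper60.HSF.D_DefsK

/-!
# Project HS, block KA1: algebra of the explicit formulas of the Kepler problem
-/

namespace Pool.Agent.HS

noncomputable section

open Set Filter Topology
open scoped ContDiff

theorem kA_pos_pr {y : KS} (h : kh' y < 0) : 0 < kA y := by
  unfold kA
  exact div_pos_of_neg_of_neg (by norm_num) (by linarith)

theorem kL_ne_pr {y : KS} (h : kL y ≠ 0) : y.1 ≠ 0 := by
  intro h0
  apply h
  unfold kL
  rw [h0]
  simp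

/-- `1/A = -2h` -/
theorem ka1_inv {y : KS} (h : kh' y < 0) : 1 / kA y = -(2 * kh' y) := by
  unfold kA
  have : kh' y ≠ 0 := h.ne
  field_simp

/-- `|v|^2 = 2/r - 1/A` -/
theorem norm_v_sq_pr {y : KS} (h : kh' y < 0) : ‖y.2‖ ^ 2 = 2 / kr y - 1 / kA y := by
  rw [ka1_inv h]
  unfold kh' kr
  ring

/-- `σ^2 + L^2 = r^2 |v|^2` -/
theorem kσ_kL_pr (y : KS) : kσ y ^ 2 + kL y ^ 2 = kr y ^ 2 * ‖y.2‖ ^ 2 := by
  unfold kσ kL kr
  have h1 : Complex.normSq ((starRingEnd ℂ) y.1 * y.2) =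
      Complex.normSq y.1 * Complex.normSq y.2 := by
    rw [Complex.normSq_mul, Complex.normSq_conj]
  rw [Complex.normSq_apply, Complex.normSq_eq_norm_sq, Complex.normSq_eq_norm_sq] at h1
  linarith

theorem ka1_r {y : KS} (h0 : y.1 ≠ 0) : 0 < kr y := norm_pos_iff.2 h0

/-- `r^2 |v|^2 = 2 r - r^2 / A` -/
theorem ka1_rv {y : KS} (h : kh' y < 0) (h0 : y.1 ≠ 0) :
    kA y * (kr y ^ 2 * ‖y.2‖ ^ 2) = 2 * kA y * kr y - kr y ^ 2 := by
  have h1 := ka1_r h0
  have h2 := kA_pos_pr h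
  rw [norm_v_sq_pr h]
  field_simp

/-- `(r-A)^2 + A σ^2 = A^2 - A L^2` -/
theorem k_amp_pr {y : KS} (h : kh' y < 0) (h0 : y.1 ≠ 0) :
    (kr y - kA y) ^ 2 + kA y * kσ y ^ 2 = kA y ^ 2 - kA y * kL y ^ 2 := by
  have h1 := kσ_kL_pr y
  have h2 := ka1_rv h h0
  linear_combination kA y * h1 + h2

/-- lower bound `L^2/2 ≤ R(s) ≤ 2A` -/
theorem kR_bounds_pr {y : KS} (h : kh' y < 0) (h0 : y.1 ≠ 0) (s : ℝ) :
    kL y ^ 2 / 2 ≤ kR y s ∧ kR y s ≤ 2 * kA y := by
  have hA := kA_pos_pr h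
  have hw : Real.sqrt (kA y) ^ 2 = kA y := Real.sq_sqrt hA.le
  have h1 := k_amp_pr h h0
  have h2 := Real.sin_sq_add_cos_sq s
  set u : ℝ := (kr y - kA y) * Real.cos s + Real.sqrt (kA y) * kσ y * Real.sin s with hu
  have hR : kR y s = kA y + u := by
    unfold kR
    rw [hu]
    ring
  have h3 : u ^ 2 ≤ kA y ^ 2 - kA y * kL y ^ 2 := by
    have h4 : 0 ≤ ((kr y - kA y) * Real.sin s - Real.sqrt (kA y) * kσ y * Real.cos s) ^ 2 :=
      sq_nonneg _
    have h5 : u ^ 2 + ((kr y - kA y) * Real.sin s - Real.sqrt (kA y) * kσ y * Real.cos s) ^ 2 =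
        kA y ^ 2 - kA y * kL y ^ 2 := by
      rw [hu]
      linear_combination h1 + ((kr y - kA y) ^ 2 + Real.sqrt (kA y) ^ 2 * kσ y ^ 2) * h2 +
        kσ y ^ 2 * hw
    linarith
  have h6 : kL y ^ 2 ≤ kA y := by
    have h7 : 0 ≤ kA y * (kA y - kL y ^ 2) := by
      have := sq_nonneg u
      nlinarith
    have h8 := (mul_nonneg_iff_of_pos_left hA).1 h7
    linarith
  have hL := sq_nonneg (kL y)
  have h9 : |u| ≤ kA y - kL y ^ 2 / 2 := by
    apply abs_le_of_sq_le_sq _ (by linarith)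
    nlinarith [sq_nonneg (kL y ^ 2)]
  have h10 := abs_le.1 h9
  rw [hR]
  constructor <;> linarith [h10.1, h10.2]

theorem kR_nonneg_pr {y : KS} (h : kh' y < 0) (h0 : y.1 ≠ 0) (s : ℝ) : 0 ≤ kR y s := by
  have h1 := (kR_bounds_pr h h0 s).1
  have h2 := sq_nonneg (kL y)
  linarith

theorem kR_pos_pr {y : KS} (h : Ell y) (s : ℝ) : 0 < kR y s := by
  have h1 := (kR_bounds_pr h.1 (kL_ne_pr h.2) s).1
  have h2 : 0 < kL y ^ 2 := by
    have := h.2
    positivity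
  linarith

/-- the norm of a real combination -/
theorem ka1_norm (a b : ℝ) (x v : ℂ) :
    ‖(a : ℂ) * x + (b : ℂ) * v‖ ^ 2 =
      a ^ 2 * ‖x‖ ^ 2 + 2 * a * b * ((starRingEnd ℂ) x * v).re + b ^ 2 * ‖v‖ ^ 2 := by
  rw [← Complex.normSq_eq_norm_sq, ← Complex.normSq_eq_norm_sq, ← Complex.normSq_eq_norm_sq,
    Complex.normSq_apply, Complex.normSq_apply, Complex.normSq_apply]
  simp only [Complex.add_re, Complex.add_im, Complex.mul_re, Complex.mul_im, Complex.ofReal_re,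
    Complex.ofReal_im, Complex.conj_re, Complex.conj_im]
  ring

theorem norm_kX_pr {y : KS} (h : kh' y < 0) (h0 : y.1 ≠ 0) (s : ℝ) : ‖kX y s‖ = kR y s := by
  have hA := kA_pos_pr h
  have hr := ka1_r h0
  have hw : Real.sqrt (kA y) ^ 2 = kA y := Real.sq_sqrt hA.le
  have h1 : ‖kX y s‖ ^ 2 = kR y s ^ 2 := by
    have e1 : kr y * ‖kX y s‖ ^ 2 = kr y * kR y s ^ 2 := by
      unfold kX
      rw [ka1_norm, norm_v_sq_pr h]
      change kr y * (_ * kr y ^ 2 + 2 * _ * _ * kσ y + _) = _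
      unfold kR
      have h2 := Real.sin_sq_add_cos_sq s
      have hw0 : Real.sqrt (kA y) ≠ 0 := (Real.sqrt_pos.2 hA).ne'
      have hr0 := hr.ne'
      generalize Real.sqrt (kA y) = w at *
      generalize kr y = r at *
      generalize kσ y = q at *
      generalize Real.sin s = sn at *
      generalize Real.cos s = c at *
      rw [← hw]
      field_simp
      linear_combination (r ^ 2 * (2 * w ^ 2 - r) - r * w ^ 2 * q ^ 2) * h2
    exact mul_left_cancel₀ hr.ne' e1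
  exact (sq_eq_sq₀ (norm_nonneg _) (kR_nonneg_pr h h0 s)).1 h1

theorem kY_zero_pr {y : KS} (h : Ell y) : kY y 0 = y := by
  have h0 := kL_ne_pr h.2
  have hA := kA_pos_pr h.1
  have hr := ka1_r h0
  have hw0 : Real.sqrt (kA y) ≠ 0 := (Real.sqrt_pos.2 hA).ne'
  have h1 : kX y 0 = y.1 := by
    unfold kX
    simp
  have h2 : kV y 0 = y.2 := by
    unfold kV kR
    simp only [Real.cos_zero, Real.sin_zero, mul_zero, mul_one, Complex.ofReal_zero,
      zero_mul, zero_add, add_zero]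
    have e1 : kA y + (kr y - kA y) = kr y := by ring
    rw [e1, ← mul_assoc, ← Complex.ofReal_mul, inv_mul_cancel₀ (mul_ne_zero hw0 hr.ne'),
      Complex.ofReal_one, one_mul]
  unfold kY
  rw [h1, h2]

end

end Pool.Agent.HS

namespace Pool.Agent.HS
open Set Filter Topology
open scoped ContDiff

theorem kA_pos {y : KS} (h : kh' y < 0) : 0 < kA y :=
  @Pool.Agent.HS.kA_pos_pr y h

end Pool.Agent.HS

namespace Pool.Agent.HS
open Set Filter Topology
open scoped ContDiff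

theorem kL_ne {y : KS} (h : kL y ≠ 0) : y.1 ≠ 0 :=
  @Pool.Agent.HS.kL_ne_pr y h

end Pool.Agent.HS

namespace Pool.Agent.HS
open Set Filter Topology
open scoped ContDiff

theorem norm_v_sq {y : KS} (h : kh' y < 0) : ‖y.2‖ ^ 2 = 2 / kr y - 1 / kA y :=
  @Pool.Agent.HS.norm_v_sq_pr y h

end Pool.Agent.HS

namespace Pool.Agent.HS
open Set Filter Topology
open scoped ContDiff

theorem kσ_kL (y : KS) : kσ y ^ 2 + kL y ^ 2 = kr y ^ 2 * ‖y.2‖ ^ 2 :=
  @Pool.Agent.HS.kσ_kL_pr y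

end Pool.Agent.HS

namespace Pool.Agent.HS
open Set Filter Topology
open scoped ContDiff

theorem k_amp {y : KS} (h : kh' y < 0) (h0 : y.1 ≠ 0) :
    (kr y - kA y) ^ 2 + kA y * kσ y ^ 2 = kA y ^ 2 - kA y * kL y ^ 2 :=
  @Pool.Agent.HS.k_amp_pr y h h0

end Pool.Agent.HS

namespace Pool.Agent.HS
open Set Filter Topology
open scoped ContDiff

theorem kR_nonneg {y : KS} (h : kh' y < 0) (h0 : y.1 ≠ 0) (s : ℝ) : 0 ≤ kR y s :=
  @Pool.Agent.HS.kR_nonneg_pr y h h0 s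

end Pool.Agent.HS

namespace Pool.Agent.HS
open Set Filter Topology
open scoped ContDiff

theorem kR_pos {y : KS} (h : Ell y) (s : ℝ) : 0 < kR y s :=
  @Pool.Agent.HS.kR_pos_pr y h s

end Pool.Agent.HS

namespace Pool.Agent.HS
open Set Filter Topology
open scoped ContDiff

theorem kR_bounds {y : KS} (h : kh' y < 0) (h0 : y.1 ≠ 0) (s : ℝ) :
    kL y ^ 2 / 2 ≤ kR y s ∧ kR y s ≤ 2 * kA y :=
  @Pool.Agent.HS.kR_bounds_pr y h h0 s

end Pool.Agent.HS

namespace Pool.Agent.HS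
open Set Filter Topology
open scoped ContDiff

theorem norm_kX {y : KS} (h : kh' y < 0) (h0 : y.1 ≠ 0) (s : ℝ) : ‖kX y s‖ = kR y s :=
  @Pool.Agent.HS.norm_kX_pr y h h0 s

end Pool.Agent.HS

namespace Pool.Agent.HS
open Set Filter Topology
open scoped ContDiff

theorem kY_zero {y : KS} (h : Ell y) : kY y 0 = y :=
  @Pool.Agent.HS.kY_zero_pr y h

end Pool.Agent.HS
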