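import Pool.Agent.Lib_helper60.HSF.D_WK
import Pool.Agent.Lib_helper60.HSF.K_KA1

/-!
# Project HS, block KA2: conservation laws of the Kepler problem
-/

namespace Pool.Agent.HS

noncomputable section

open Set Filter Topology
open scoped ContDiff

/-- `kE = (|v|^2 - 1/r) x - σ v` -/
theorem ka2_E (y : KS) (h0 : y.1 ≠ 0) :
    kE y = ((‖y.2‖ ^ 2 - 1 / kr y : ℝ) : ℂ) * y.1 - (kσ y : ℂ) * y.2 := by
  have h1 : (y.2 : ℂ) * (starRingEnd ℂ) y.2 = ((‖y.2‖ ^ 2 : ℝ) : ℂ) := by
    rw [Complex.mul_conj, Complex.normSq_eq_norm_sq]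
  have h2 : (starRingEnd ℂ) y.1 * y.2 = (kσ y : ℂ) + (kL y : ℂ) * Complex.I := by
    unfold kσ kL
    exact (Complex.re_add_im _).symm
  have h3 : y.1 * (starRingEnd ℂ) y.2 = (kσ y : ℂ) - (kL y : ℂ) * Complex.I := by
    have h4 := congrArg (starRingEnd ℂ) h2
    simp only [map_mul, Complex.conj_conj, map_add, Complex.conj_ofReal, Complex.conj_I] at h4
    rw [h4]
    ring
  have hr : (‖y.1‖ : ℂ) ≠ 0 := by
    rw [Ne, Complex.ofReal_eq_zero, norm_eq_zero]
    exact h0
  unfold kE kr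
  rw [Complex.ofReal_sub, ← h1]
  push_cast
  linear_combination (-y.2) * h3

/-- the norm of a real combination -/
theorem ka2_norm (a b : ℝ) (x v : ℂ) :
    ‖(a : ℂ) * x + (b : ℂ) * v‖ ^ 2 =
      a ^ 2 * ‖x‖ ^ 2 + 2 * a * b * ((starRingEnd ℂ) x * v).re + b ^ 2 * ‖v‖ ^ 2 := by
  rw [← Complex.normSq_eq_norm_sq, ← Complex.normSq_eq_norm_sq, ← Complex.normSq_eq_norm_sq,
    Complex.normSq_apply, Complex.normSq_apply, Complex.normSq_apply]
  simp only [Complex.add_re, Complex.add_im, Complex.mul_re, Complex.mul_im, Complex.ofReal_re,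
    Complex.ofReal_im, Complex.conj_re, Complex.conj_im]
  ring

/-- the cross product of real combinations -/
theorem ka2_cross (k a b c d : ℝ) (x v : ℂ) :
    ((starRingEnd ℂ) ((a : ℂ) * x + (b : ℂ) * v) * ((k : ℂ) * ((c : ℂ) * x + (d : ℂ) * v))).im =
      k * ((a * d - b * c) * ((starRingEnd ℂ) x * v).im) := by
  simp only [Complex.add_re, Complex.add_im, Complex.mul_re, Complex.mul_im, Complex.ofReal_re,
    Complex.ofReal_im, Complex.conj_re, Complex.conj_im, map_add, map_mul, Complex.conj_ofReal]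
  ring

/-- the scalar product of real combinations -/
theorem ka2_dot (k a b c d : ℝ) (x v : ℂ) :
    ((starRingEnd ℂ) ((a : ℂ) * x + (b : ℂ) * v) * ((k : ℂ) * ((c : ℂ) * x + (d : ℂ) * v))).re =
      k * (a * c * ‖x‖ ^ 2 + (a * d + b * c) * ((starRingEnd ℂ) x * v).re + b * d * ‖v‖ ^ 2) := by
  rw [← Complex.normSq_eq_norm_sq, ← Complex.normSq_eq_norm_sq,
    Complex.normSq_apply, Complex.normSq_apply]
  simp only [Complex.add_re, Complex.add_im, Complex.mul_re, Complex.mul_im, Complex.ofReal_re,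
    Complex.ofReal_im, Complex.conj_re, Complex.conj_im, map_add, map_mul, Complex.conj_ofReal]
  ring

theorem ka2_w {y : KS} (h : Ell y) : Real.sqrt (kA y) ^ 2 = kA y := Real.sq_sqrt (kA_pos h.1).le

theorem ka2_w0 {y : KS} (h : Ell y) : Real.sqrt (kA y) ≠ 0 := (Real.sqrt_pos.2 (kA_pos h.1)).ne'

theorem ka2_r {y : KS} (h : Ell y) : kr y ≠ 0 := norm_ne_zero_iff.2 (kL_ne h.2)

theorem kY_L_pr {y : KS} (h : Ell y) (s : ℝ) : kL (kY y s) = kL y := by
  have hR := (kR_pos h s).ne'
  have hr0 := ka2_r h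
  have hw0 := ka2_w0 h
  have hw := ka2_w h
  have h2 := Real.sin_sq_add_cos_sq s
  unfold kY
  rw [kL]
  simp only []
  unfold kX kV
  rw [ka2_cross]
  change _ * (_ * kL y) = kL y
  have e1 : (1 - kA y / kr y * (1 - Real.cos s)) *
      (Real.sqrt (kA y) * kr y * Real.cos s + kA y * kσ y * Real.sin s) -
      (Real.sqrt (kA y) * kr y * Real.sin s + kA y * kσ y * (1 - Real.cos s)) *
        (-(kA y / kr y) * Real.sin s) = Real.sqrt (kA y) * kR y s := by
    unfold kR
    generalize Real.sqrt (kA y) = w at *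
    generalize kr y = r at *
    generalize kσ y = q at *
    generalize Real.sin s = sn at *
    generalize Real.cos s = c at *
    rw [← hw]
    field_simp
    linear_combination (r * w ^ 2) * h2
  rw [e1, ← mul_assoc, inv_mul_cancel₀ (mul_ne_zero hw0 hR), one_mul]

theorem ka2_v {y : KS} (h : Ell y) (s : ℝ) : ‖kV y s‖ ^ 2 = 2 / kR y s - 1 / kA y := by
  have hR := (kR_pos h s).ne'
  have hr0 := ka2_r h
  have hw0 := ka2_w0 h
  have hw := ka2_w h
  have h2 := Real.sin_sq_add_cos_sq s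
  unfold kV
  rw [norm_mul, mul_pow, ka2_norm, norm_v_sq h.1, Complex.norm_real, Real.norm_eq_abs, sq_abs]
  change _ * (_ * kr y ^ 2 + 2 * _ * _ * kσ y + _) = _
  have e1 : (-(kA y / kr y) * Real.sin s) ^ 2 * kr y ^ 2 + 2 * (-(kA y / kr y) * Real.sin s) *
      (Real.sqrt (kA y) * kr y * Real.cos s + kA y * kσ y * Real.sin s) * kσ y +
      (Real.sqrt (kA y) * kr y * Real.cos s + kA y * kσ y * Real.sin s) ^ 2 *
        (2 / kr y - 1 / kA y) = kR y s * (2 * kA y - kR y s) := by
    unfold kR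
    generalize Real.sqrt (kA y) = w at *
    generalize kr y = r at *
    generalize kσ y = q at *
    generalize Real.sin s = sn at *
    generalize Real.cos s = c at *
    rw [← hw]
    field_simp
    linear_combination (w ^ 4 * r) * h2
  rw [e1, inv_pow, mul_pow, hw]
  have hA := (kA_pos h.1).ne'
  field_simp

theorem kY_h_pr {y : KS} (h : Ell y) (s : ℝ) : kh' (kY y s) = kh' y := by
  have h1 : kh' (kY y s) = ‖kV y s‖ ^ 2 / 2 - 1 / ‖kX y s‖ := rfl
  rw [h1, ka2_v h, norm_kX h.1 (kL_ne h.2)]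
  have h2 : 1 / kA y = -(2 * kh' y) := by
    unfold kA
    have : kh' y ≠ 0 := h.1.ne
    field_simp
  rw [h2]
  ring

theorem kY_A_pr {y : KS} (h : Ell y) (s : ℝ) : kA (kY y s) = kA y := by
  rw [kA, kY_h_pr h, kA]

theorem kY_ell_pr {y : KS} (h : Ell y) (s : ℝ) : Ell (kY y s) := by
  refine ⟨?_, ?_⟩
  · rw [kY_h_pr h]
    exact h.1
  · rw [kY_L_pr h]
    exact h.2

/-- the scalar product of position and velocity -/
theorem ka2_σ {y : KS} (h : Ell y) (s : ℝ) : kσ (kY y s) =
    (-((kr y - kA y) * Real.sin s) + Real.sqrt (kA y) * kσ y * Real.cos s) /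
      Real.sqrt (kA y) := by
  have hR := (kR_pos h s).ne'
  have hr0 := ka2_r h
  have hw0 := ka2_w0 h
  have hw := ka2_w h
  have h2 := Real.sin_sq_add_cos_sq s
  unfold kY
  rw [kσ]
  simp only []
  unfold kX kV
  rw [ka2_dot, norm_v_sq h.1]
  change _ * (_ * kr y ^ 2 + _ * kσ y + _) = _
  have e1 : (1 - kA y / kr y * (1 - Real.cos s)) * (-(kA y / kr y) * Real.sin s) * kr y ^ 2 +
      ((1 - kA y / kr y * (1 - Real.cos s)) *
        (Real.sqrt (kA y) * kr y * Real.cos s + kA y * kσ y * Real.sin s) +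
        (Real.sqrt (kA y) * kr y * Real.sin s + kA y * kσ y * (1 - Real.cos s)) *
        (-(kA y / kr y) * Real.sin s)) * kσ y +
      (Real.sqrt (kA y) * kr y * Real.sin s + kA y * kσ y * (1 - Real.cos s)) *
        (Real.sqrt (kA y) * kr y * Real.cos s + kA y * kσ y * Real.sin s) *
        (2 / kr y - 1 / kA y) =
      kR y s * (-((kr y - kA y) * Real.sin s) + Real.sqrt (kA y) * kσ y * Real.cos s) := by
    unfold kR
    generalize Real.sqrt (kA y) = w at *
    generalize kr y = r at *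
    generalize kσ y = q at *
    generalize Real.sin s = sn at *
    generalize Real.cos s = c at *
    rw [← hw]
    field_simp
    linear_combination (0 : ℝ) * h2
  rw [e1]
  field_simp

theorem kY_E_pr {y : KS} (h : Ell y) (s : ℝ) : kE (kY y s) = kE y := by
  have hR := (kR_pos h s).ne'
  have hr0 := ka2_r h
  have hw0 := ka2_w0 h
  have hw := ka2_w h
  have h2 := Real.sin_sq_add_cos_sq s
  rw [ka2_E y (kL_ne h.2), ka2_E (kY y s) (kL_ne (kY_ell_pr h s).2), ka2_σ h, norm_v_sq h.1]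
  have h3 : kr (kY y s) = kR y s := norm_kX h.1 (kL_ne h.2) s
  have h4 : ‖(kY y s).2‖ ^ 2 = 2 / kR y s - 1 / kA y := ka2_v h s
  rw [h3, h4]
  have c1 : (2 / kR y s - 1 / kA y - 1 / kR y s) * (1 - kA y / kr y * (1 - Real.cos s)) -
      (-((kr y - kA y) * Real.sin s) + Real.sqrt (kA y) * kσ y * Real.cos s) /
      Real.sqrt (kA y) * ((Real.sqrt (kA y) * kR y s)⁻¹ * (-(kA y / kr y) * Real.sin s)) =
      2 / kr y - 1 / kA y - 1 / kr y := by
    have e : kR y s = kA y + (kr y - kA y) * Real.cos s + Real.sqrt (kA y) * kσ y * Real.sin s :=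
      rfl
    generalize kR y s = R at *
    generalize Real.sqrt (kA y) = w at *
    generalize kr y = r at *
    generalize kσ y = q at *
    generalize Real.sin s = sn at *
    generalize Real.cos s = c at *
    rw [← hw] at e ⊢
    field_simp
    rw [e]
    linear_combination (-(w ^ 2 * (r - w ^ 2))) * h2
  have c2 : (2 / kR y s - 1 / kA y - 1 / kR y s) *
      (Real.sqrt (kA y) * kr y * Real.sin s + kA y * kσ y * (1 - Real.cos s)) -
      (-((kr y - kA y) * Real.sin s) + Real.sqrt (kA y) * kσ y * Real.cos s) /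
      Real.sqrt (kA y) * ((Real.sqrt (kA y) * kR y s)⁻¹ *
        (Real.sqrt (kA y) * kr y * Real.cos s + kA y * kσ y * Real.sin s)) = -kσ y := by
    have e : kR y s = kA y + (kr y - kA y) * Real.cos s + Real.sqrt (kA y) * kσ y * Real.sin s :=
      rfl
    generalize kR y s = R at *
    generalize Real.sqrt (kA y) = w at *
    generalize kr y = r at *
    generalize kσ y = q at *
    generalize Real.sin s = sn at *
    generalize Real.cos s = c at *
    rw [← hw] at e ⊢
    field_simp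
    rw [e]
    linear_combination (-(w ^ 3 * q)) * h2
  have c1' := congrArg (fun t : ℝ => (t : ℂ)) c1
  have c2' := congrArg (fun t : ℝ => (t : ℂ)) c2
  show ((2 / kR y s - 1 / kA y - 1 / kR y s : ℝ) : ℂ) * kX y s - _ * kV y s = _
  unfold kX kV
  push_cast at c1' c2' ⊢
  linear_combination y.1 * c1' + y.2 * c2'

end

end Pool.Agent.HS

namespace Pool.Agent.HS
open Set Filter Topology
open scoped ContDiff

theorem kY_h {y : KS} (h : Ell y) (s : ℝ) : kh' (kY y s) = kh' y :=
  @Pool.Agent.HS.kY_h_pr y h s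

end Pool.Agent.HS

namespace Pool.Agent.HS
open Set Filter Topology
open scoped ContDiff

theorem kY_A {y : KS} (h : Ell y) (s : ℝ) : kA (kY y s) = kA y :=
  @Pool.Agent.HS.kY_A_pr y h s

end Pool.Agent.HS

namespace Pool.Agent.HS
open Set Filter Topology
open scoped ContDiff

theorem kY_L {y : KS} (h : Ell y) (s : ℝ) : kL (kY y s) = kL y :=
  @Pool.Agent.HS.kY_L_pr y h s

end Pool.Agent.HS

namespace Pool.Agent.HS
open Set Filter Topology
open scoped ContDiff

theorem kY_ell {y : KS} (h : Ell y) (s : ℝ) : Ell (kY y s) :=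
  @Pool.Agent.HS.kY_ell_pr y h s

end Pool.Agent.HS

namespace Pool.Agent.HS
open Set Filter Topology
open scoped ContDiff

theorem kY_E {y : KS} (h : Ell y) (s : ℝ) : kE (kY y s) = kE y :=
  @Pool.Agent.HS.kY_E_pr y h s

end Pool.Agent.HS
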