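import Pool.Agent.Lib_helper60.HSF.D_WK
import Pool.Agent.Lib_helper60.HSF.K_KA1

namespace Pool.Agent.HS

noncomputable section

open Set Filter Topology
open scoped ContDiff

theorem kT_deriv_pr {y : KS} (h : kh' y < 0) (s : ℝ) :
    HasDerivAt (kT y) (Real.sqrt (kA y) * kR y s) s := by
  have h1 : HasDerivAt (fun s : ℝ => Real.sqrt (kA y) * (kA y * s + (kr y - kA y) * Real.sin s
      + Real.sqrt (kA y) * kσ y * (1 - Real.cos s)))
      (Real.sqrt (kA y) * (kA y * 1 + (kr y - kA y) * Real.cos s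
        + Real.sqrt (kA y) * kσ y * (0 - (-Real.sin s)))) s := by
    refine HasDerivAt.const_mul _ (HasDerivAt.add (HasDerivAt.add ?_ ?_) ?_)
    · exact (hasDerivAt_id s).const_mul _
    · exact (Real.hasDerivAt_sin s).const_mul _
    · exact ((hasDerivAt_const s (1:ℝ)).sub (Real.hasDerivAt_cos s)).const_mul _
  have h2 : Real.sqrt (kA y) * (kA y * 1 + (kr y - kA y) * Real.cos s
        + Real.sqrt (kA y) * kσ y * (0 - (-Real.sin s))) = Real.sqrt (kA y) * kR y s := by
    unfold kR; ring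
  rw [← h2]
  exact h1

theorem kc1_X {y : KS} (s : ℝ) :
    HasDerivAt (kX y) ((- (kA y / kr y) * Real.sin s : ℝ) * y.1
      + ((Real.sqrt (kA y) * kr y * Real.cos s + kA y * kσ y * Real.sin s) : ℝ) * y.2) s := by
  have e1 : HasDerivAt (fun s : ℝ => 1 - kA y / kr y * (1 - Real.cos s))
      (- (kA y / kr y) * Real.sin s) s := by
    have := ((((hasDerivAt_const s (1:ℝ)).sub (Real.hasDerivAt_cos s)).const_mul
      (kA y / kr y))).const_sub 1
    refine this.congr_deriv ?_
    ring
  have e2 : HasDerivAt (fun s : ℝ => Real.sqrt (kA y) * kr y * Real.sin s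
      + kA y * kσ y * (1 - Real.cos s))
      (Real.sqrt (kA y) * kr y * Real.cos s + kA y * kσ y * Real.sin s) s := by
    have := ((Real.hasDerivAt_sin s).const_mul (Real.sqrt (kA y) * kr y)).add
      (((hasDerivAt_const s (1:ℝ)).sub (Real.hasDerivAt_cos s)).const_mul (kA y * kσ y))
    refine this.congr_deriv ?_
    ring
  exact (e1.ofReal_comp.mul_const y.1).add (e2.ofReal_comp.mul_const y.2)

theorem kX_deriv_pr {y : KS} (h : Ell y) (s : ℝ) :
    HasDerivAt (kX y) ((Real.sqrt (kA y) * kR y s : ℝ) * kV y s) s := by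
  have hA : 0 < Real.sqrt (kA y) := Real.sqrt_pos.2 (kA_pos h.1)
  have hR : 0 < kR y s := kR_pos h s
  refine (kc1_X (y := y) s).congr_deriv ?_
  unfold kV
  rw [← mul_assoc, ← Complex.ofReal_mul, mul_inv_cancel₀ (mul_pos hA hR).ne', Complex.ofReal_one,
    one_mul]

theorem kc1_R {y : KS} (s : ℝ) :
    HasDerivAt (kR y) (-((kr y - kA y) * Real.sin s) + Real.sqrt (kA y) * kσ y * Real.cos s) s := by
  have := (((Real.hasDerivAt_cos s).const_mul (kr y - kA y)).const_add (kA y)).add
    ((Real.hasDerivAt_sin s).const_mul (Real.sqrt (kA y) * kσ y))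
  refine this.congr_deriv ?_
  ring

theorem kc1_W {y : KS} (s : ℝ) :
    HasDerivAt (fun s : ℝ => ((- (kA y / kr y) * Real.sin s : ℝ) : ℂ) * y.1
      + ((Real.sqrt (kA y) * kr y * Real.cos s + kA y * kσ y * Real.sin s : ℝ) : ℂ) * y.2)
      (((- (kA y / kr y) * Real.cos s : ℝ) : ℂ) * y.1
      + ((-(Real.sqrt (kA y) * kr y * Real.sin s) + kA y * kσ y * Real.cos s : ℝ) : ℂ) * y.2) s := by
  have e1 : HasDerivAt (fun s : ℝ => - (kA y / kr y) * Real.sin s)
      (- (kA y / kr y) * Real.cos s) s := (Real.hasDerivAt_sin s).const_mul _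
  have e2 : HasDerivAt (fun s : ℝ => Real.sqrt (kA y) * kr y * Real.cos s
      + kA y * kσ y * Real.sin s)
      (-(Real.sqrt (kA y) * kr y * Real.sin s) + kA y * kσ y * Real.cos s) s := by
    have := ((Real.hasDerivAt_cos s).const_mul (Real.sqrt (kA y) * kr y)).add
      ((Real.hasDerivAt_sin s).const_mul (kA y * kσ y))
    refine this.congr_deriv ?_
    ring
  exact (e1.ofReal_comp.mul_const y.1).add (e2.ofReal_comp.mul_const y.2)

theorem kV_deriv_pr {y : KS} (h : Ell y) (s : ℝ) :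
    HasDerivAt (kV y) (-((Real.sqrt (kA y) * kR y s : ℝ) * G (kX y s))) s := by
  have hA0 : 0 < kA y := kA_pos h.1
  have hA : 0 < Real.sqrt (kA y) := Real.sqrt_pos.2 hA0
  have hR : 0 < kR y s := kR_pos h s
  have h0 : y.1 ≠ 0 := kL_ne h.2
  have hr : 0 < kr y := norm_pos_iff.2 h0
  have hAA : Real.sqrt (kA y) ^ 2 = kA y := Real.sq_sqrt hA0.le
  have hi : HasDerivAt (fun s : ℝ => (Real.sqrt (kA y) * kR y s)⁻¹)
      (-(Real.sqrt (kA y) * (-((kr y - kA y) * Real.sin s)
        + Real.sqrt (kA y) * kσ y * Real.cos s)) / (Real.sqrt (kA y) * kR y s) ^ 2) s :=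
    ((kc1_R (y := y) s).const_mul (Real.sqrt (kA y))).inv (mul_pos hA hR).ne'
  have hm := hi.ofReal_comp.mul (kc1_W (y := y) s)
  refine (hm.congr_deriv ?_)
  have hG : G (kX y s) = (((kR y s) ^ 3)⁻¹ : ℝ) * kX y s := by
    unfold G; rw [norm_kX h.1 h0]
  rw [hG]
  unfold kX
  have hsc : Real.sin s ^ 2 + Real.cos s ^ 2 = 1 := Real.sin_sq_add_cos_sq s
  have hRe : kR y s = kA y + (kr y - kA y) * Real.cos s + Real.sqrt (kA y) * kσ y * Real.sin s := rfl
  have c1 : (-(Real.sqrt (kA y) * (-((kr y - kA y) * Real.sin s)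
        + Real.sqrt (kA y) * kσ y * Real.cos s)) / (Real.sqrt (kA y) * kR y s) ^ 2)
        * (- (kA y / kr y) * Real.sin s) + (Real.sqrt (kA y) * kR y s)⁻¹ *
          (- (kA y / kr y) * Real.cos s) =
        -((Real.sqrt (kA y) * kR y s) * (((kR y s) ^ 3)⁻¹ *
          (1 - kA y / kr y * (1 - Real.cos s)))) := by
    field_simp
    rw [hRe, hAA]
    generalize Real.sqrt (kA y) = q at *
    generalize Real.sin s = S at *
    generalize Real.cos s = C at *
    generalize kσ y = σ at *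
    generalize kr y = r at *
    generalize kA y = A at *
    grind
  have c2 : (-(Real.sqrt (kA y) * (-((kr y - kA y) * Real.sin s)
        + Real.sqrt (kA y) * kσ y * Real.cos s)) / (Real.sqrt (kA y) * kR y s) ^ 2)
        * (Real.sqrt (kA y) * kr y * Real.cos s + kA y * kσ y * Real.sin s)
        + (Real.sqrt (kA y) * kR y s)⁻¹ *
          (-(Real.sqrt (kA y) * kr y * Real.sin s) + kA y * kσ y * Real.cos s) =
        -((Real.sqrt (kA y) * kR y s) * (((kR y s) ^ 3)⁻¹ *
          (Real.sqrt (kA y) * kr y * Real.sin s + kA y * kσ y * (1 - Real.cos s)))) := by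
    field_simp
    rw [hRe, hAA]
    generalize Real.sqrt (kA y) = q at *
    generalize Real.sin s = S at *
    generalize Real.cos s = C at *
    generalize kσ y = σ at *
    generalize kr y = r at *
    generalize kA y = A at *
    grind
  have c1' := congrArg (fun t : ℝ => (t : ℂ)) c1
  have c2' := congrArg (fun t : ℝ => (t : ℂ)) c2
  simp only [Complex.ofReal_add, Complex.ofReal_mul, Complex.ofReal_neg] at c1' c2' ⊢
  linear_combination y.1 * c1' + y.2 * c2'

end

end Pool.Agent.HS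

namespace Pool.Agent.HS
open Set Filter Topology
open scoped ContDiff

theorem kT_deriv {y : KS} (h : kh' y < 0) (s : ℝ) :
    HasDerivAt (kT y) (Real.sqrt (kA y) * kR y s) s :=
  @Pool.Agent.HS.kT_deriv_pr y h s

end Pool.Agent.HS

namespace Pool.Agent.HS
open Set Filter Topology
open scoped ContDiff

theorem kX_deriv {y : KS} (h : Ell y) (s : ℝ) :
    HasDerivAt (kX y) ((Real.sqrt (kA y) * kR y s : ℝ) * kV y s) s :=
  @Pool.Agent.HS.kX_deriv_pr y h s

end Pool.Agent.HS

namespace Pool.Agent.HS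
open Set Filter Topology
open scoped ContDiff

theorem kV_deriv {y : KS} (h : Ell y) (s : ℝ) :
    HasDerivAt (kV y) (-((Real.sqrt (kA y) * kR y s : ℝ) * G (kX y s))) s :=
  @Pool.Agent.HS.kV_deriv_pr y h s

end Pool.Agent.HS
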