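import Pool.Agent.Lib_helper60.HSF.D_WK
import Pool.Agent.Lib_helper60.HSF.K_KA1
import Pool.Agent.Lib_helper60.HSF.K_KC1

/-!
# Project HS, block KC2: the time function is a bijection
-/

namespace Pool.Agent.HS

noncomputable section

open Set Filter Topology
open scoped ContDiff

theorem kT_strictMono_pr {y : KS} (h : Ell y) : StrictMono (kT y) := by
  apply strictMono_of_deriv_pos
  intro s
  rw [(kT_deriv h.1 s).deriv]
  exact mul_pos (Real.sqrt_pos.2 (kA_pos h.1)) (kR_pos h s)

/-- three values of the distance function cannot vanish -/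
theorem kc2_three {y : KS} (h : kh' y < 0) {s δ : ℝ} (hδ : 0 < δ) (hδ' : δ < 1)
    (h0 : kR y s = 0) (h1 : kR y (s + δ) = 0) (h2 : kR y (s - δ) = 0) : False := by
  have hA := kA_pos h
  unfold kR at h0 h1 h2
  rw [Real.cos_add, Real.sin_add] at h1
  rw [Real.cos_sub, Real.sin_sub] at h2
  have hc : Real.cos δ = 1 := by
    have e : 2 * kA y * (1 - Real.cos δ) = 0 := by
      linear_combination h1 + h2 - 2 * Real.cos δ * h0
    have : (1 - Real.cos δ) = 0 := by
      rcases mul_eq_zero.1 e with h | h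
      · exfalso; linarith
      · exact h
    linarith
  have hlt : Real.cos δ < 1 := by
    rw [← Real.cos_zero]
    exact Real.cos_lt_cos_of_nonneg_of_le_pi le_rfl (by linarith [Real.pi_gt_three]) hδ
  linarith

theorem kc2_mono {y : KS} (h : kh' y < 0) (h0 : y.1 ≠ 0) : Monotone (kT y) := by
  refine monotone_of_deriv_nonneg (fun s => (kT_deriv h s).differentiableAt) ?_
  intro s
  rw [(kT_deriv h s).deriv]
  exact mul_nonneg (Real.sqrt_nonneg _) (kR_nonneg h h0 s)

theorem kc2_lt {y : KS} (h : kh' y < 0) (h0 : y.1 ≠ 0) {a b : ℝ} (hab : a < b) :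
    kT y a < kT y b := by
  have hm := kc2_mono h h0
  rcases lt_or_eq_of_le (hm hab.le) with hl | he
  · exact hl
  exfalso
  have hz : ∀ s ∈ Ioo a b, kR y s = 0 := by
    intro s hs
    have hev : kT y =ᶠ[𝓝 s] fun _ => kT y a := by
      filter_upwards [Ioo_mem_nhds hs.1 hs.2] with t ht
      exact le_antisymm ((hm ht.2.le).trans_eq he.symm) (hm ht.1.le)
    have hd : HasDerivAt (kT y) 0 s := (hasDerivAt_const s (kT y a)).congr_of_eventuallyEq hev
    have e := (kT_deriv h s).unique hd
    rcases mul_eq_zero.1 e with h' | h'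
    · exact absurd h' (Real.sqrt_pos.2 (kA_pos h)).ne'
    · exact h'
  have hδ : 0 < min ((b - a) / 4) (1 / 2) := lt_min (by linarith) (by norm_num)
  have hδ1 : min ((b - a) / 4) (1 / 2) ≤ (b - a) / 4 := min_le_left _ _
  have hδ2 : min ((b - a) / 4) (1 / 2) < 1 := lt_of_le_of_lt (min_le_right _ _) (by norm_num)
  refine kc2_three h (s := (a + b) / 2) hδ hδ2 (hz _ ⟨by linarith, by linarith⟩)
    (hz _ ⟨by linarith, by linarith⟩) (hz _ ⟨by linarith, by linarith⟩)

/-- also for rectilinear orbits -/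
theorem kT_strictMono'_pr {y : KS} (h : kh' y < 0) (h0 : y.1 ≠ 0) : StrictMono (kT y) :=
  fun _ _ hab => kc2_lt h h0 hab

/-- bound of the periodic part -/
theorem kc2_bd (y : KS) (s : ℝ) :
    |kT y s - Real.sqrt (kA y) * kA y * s| ≤
      Real.sqrt (kA y) * (|kr y - kA y| + Real.sqrt (kA y) * |kσ y| * 2) := by
  have e : kT y s - Real.sqrt (kA y) * kA y * s = Real.sqrt (kA y) *
      ((kr y - kA y) * Real.sin s + Real.sqrt (kA y) * kσ y * (1 - Real.cos s)) := by
    unfold kT
    ring
  rw [e, abs_mul, abs_of_nonneg (Real.sqrt_nonneg _)]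
  refine mul_le_mul_of_nonneg_left ?_ (Real.sqrt_nonneg _)
  refine (abs_add_le _ _).trans (add_le_add ?_ ?_)
  · rw [abs_mul]
    exact mul_le_of_le_one_right (abs_nonneg _) (Real.abs_sin_le_one s)
  · rw [abs_mul, abs_mul, abs_of_nonneg (Real.sqrt_nonneg _)]
    refine mul_le_mul_of_nonneg_left ?_ (by positivity)
    rw [abs_le]
    constructor
    · linarith [Real.cos_le_one s]
    · linarith [Real.neg_one_le_cos s]

theorem kT_bij_pr {y : KS} (h : kh' y < 0) (h0 : y.1 ≠ 0) : Function.Bijective (kT y) := by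
  refine ⟨(kT_strictMono'_pr h h0).injective, ?_⟩
  have hA := kA_pos h
  have hc : 0 < Real.sqrt (kA y) * kA y := mul_pos (Real.sqrt_pos.2 hA) hA
  have hcont : Continuous (kT y) :=
    continuous_iff_continuousAt.2 fun s => (kT_deriv h s).continuousAt
  refine hcont.surjective ?_ ?_
  · have h1 : Tendsto (fun s : ℝ => Real.sqrt (kA y) * kA y * s +
        -(Real.sqrt (kA y) * (|kr y - kA y| + Real.sqrt (kA y) * |kσ y| * 2))) atTop atTop :=
      tendsto_atTop_add_const_right _ _ (tendsto_id.const_mul_atTop hc)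
    refine tendsto_atTop_mono (fun s => ?_) h1
    have := (abs_le.1 (kc2_bd y s)).1
    linarith
  · have h1 : Tendsto (fun s : ℝ => Real.sqrt (kA y) * kA y * s +
        (Real.sqrt (kA y) * (|kr y - kA y| + Real.sqrt (kA y) * |kσ y| * 2))) atBot atBot :=
      tendsto_atBot_add_const_right _ _ (tendsto_id.const_mul_atBot hc)
    refine tendsto_atBot_mono (fun s => ?_) h1
    have := (abs_le.1 (kc2_bd y s)).2
    linarith

theorem kS_kT_pr {y : KS} (h : kh' y < 0) (h0 : y.1 ≠ 0) (s : ℝ) : kS y (kT y s) = s :=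
  Function.leftInverse_invFun (kT_bij_pr h h0).1 s

theorem kT_kS_pr {y : KS} (h : kh' y < 0) (h0 : y.1 ≠ 0) (t : ℝ) : kT y (kS y t) = t :=
  Function.rightInverse_invFun (kT_bij_pr h h0).2 t

end

end Pool.Agent.HS

namespace Pool.Agent.HS
open Set Filter Topology
open scoped ContDiff

theorem kT_strictMono {y : KS} (h : Ell y) : StrictMono (kT y) :=
  @Pool.Agent.HS.kT_strictMono_pr y h

end Pool.Agent.HS

namespace Pool.Agent.HS
open Set Filter Topology
open scoped ContDiff

theorem kT_strictMono' {y : KS} (h : kh' y < 0) (h0 : y.1 ≠ 0) : StrictMono (kT y) :=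
  @Pool.Agent.HS.kT_strictMono'_pr y h h0

end Pool.Agent.HS

namespace Pool.Agent.HS
open Set Filter Topology
open scoped ContDiff

theorem kT_bij {y : KS} (h : kh' y < 0) (h0 : y.1 ≠ 0) : Function.Bijective (kT y) :=
  @Pool.Agent.HS.kT_bij_pr y h h0

end Pool.Agent.HS

namespace Pool.Agent.HS
open Set Filter Topology
open scoped ContDiff

theorem kS_kT {y : KS} (h : kh' y < 0) (h0 : y.1 ≠ 0) (s : ℝ) : kS y (kT y s) = s :=
  @Pool.Agent.HS.kS_kT_pr y h h0 s

end Pool.Agent.HS

namespace Pool.Agent.HS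
open Set Filter Topology
open scoped ContDiff

theorem kT_kS {y : KS} (h : kh' y < 0) (h0 : y.1 ≠ 0) (t : ℝ) : kT y (kS y t) = t :=
  @Pool.Agent.HS.kT_kS_pr y h h0 t

end Pool.Agent.HS
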