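import Pool.Agent.Lib_helper60.HSF.D_WK
import Pool.Agent.Lib_helper60.HSF.K_KA1
import Pool.Agent.Lib_helper60.HSF.K_KA2
import Pool.Agent.Lib_helper60.HSF.K_KC1
import Pool.Agent.Lib_helper60.HSF.K_KC2

/-!
# HS, part Z, block KD1: the Kepler flow
-/

namespace Pool.Agent.HS

noncomputable section

open Set Filter Topology
open scoped ContDiff

theorem kep_kT_pr {y : KS} (h : Ell y) (s : ℝ) : kep (kT y s) y = kY y s := by
  unfold kep
  rw [kS_kT h.1 (kL_ne h.2)]
  rfl

theorem kep_zero_pr {y : KS} (h : Ell y) : kep 0 y = y := by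
  have h1 : kT y 0 = 0 := by simp [kT]
  have h2 := kep_kT_pr h 0
  rw [h1, kY_zero h] at h2
  exact h2

/-- the inverse of the time function is continuous -/
theorem kd1_cont {y : KS} (h : Ell y) : Continuous (kS y) := by
  have h0 := kL_ne h.2
  have hm := kT_strictMono h
  let e := hm.orderIsoOfSurjective (kT y) (kT_bij h.1 h0).2
  have h1 : kS y = e.symm := by
    funext t
    apply (kT_bij h.1 h0).1
    rw [kT_kS h.1 h0]
    exact (e.apply_symm_apply t).symm
  rw [h1]
  exact e.symm.continuous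

theorem kd1_deriv {y : KS} (h : Ell y) (t : ℝ) :
    HasDerivAt (kS y) (Real.sqrt (kA y) * kR y (kS y t))⁻¹ t := by
  have h0 := kL_ne h.2
  refine HasDerivAt.of_local_left_inverse (kd1_cont h).continuousAt (kT_deriv h.1 (kS y t)) ?_
    (Eventually.of_forall fun u => kT_kS h.1 h0 u)
  exact (mul_pos (Real.sqrt_pos.mpr (kA_pos h.1)) (kR_pos h _)).ne'

theorem kep_ode_pr {y : KS} (h : Ell y) (t : ℝ) :
    HasDerivAt (fun t => kep t y) ((kep t y).2, - G (kep t y).1) t := by
  have hc : (Real.sqrt (kA y) * kR y (kS y t)) ≠ 0 :=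
    (mul_pos (Real.sqrt_pos.mpr (kA_pos h.1)) (kR_pos h _)).ne'
  have h1 := kd1_deriv h t
  have h2 := (kX_deriv h (kS y t)).scomp t h1
  have h3 := (kV_deriv h (kS y t)).scomp t h1
  have hcc : ((Real.sqrt (kA y) * kR y (kS y t) : ℝ) : ℂ) ≠ 0 := by exact_mod_cast hc
  have e1 : (Real.sqrt (kA y) * kR y (kS y t))⁻¹ •
      (((Real.sqrt (kA y) * kR y (kS y t) : ℝ) : ℂ) * kV y (kS y t)) = (kep t y).2 := by
    rw [Complex.real_smul, Complex.ofReal_inv, inv_mul_cancel_left₀ hcc]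
    rfl
  have e2 : (Real.sqrt (kA y) * kR y (kS y t))⁻¹ •
      (-(((Real.sqrt (kA y) * kR y (kS y t) : ℝ) : ℂ) * G (kX y (kS y t)))) =
        - G (kep t y).1 := by
    rw [Complex.real_smul, Complex.ofReal_inv, mul_neg, inv_mul_cancel_left₀ hcc]
    rfl
  rw [e1] at h2
  rw [e2] at h3
  exact h2.prodMk h3

theorem kep_ell_pr {y : KS} (h : Ell y) (t : ℝ) : Ell (kep t y) ∧ kh' (kep t y) = kh' y ∧
    kL (kep t y) = kL y ∧ kE (kep t y) = kE y :=
  ⟨kY_ell h (kS y t), kY_h h (kS y t), kY_L h (kS y t), kY_E h (kS y t)⟩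

end

end Pool.Agent.HS

namespace Pool.Agent.HS
open Set Filter Topology
open scoped ContDiff

theorem kep_kT {y : KS} (h : Ell y) (s : ℝ) : kep (kT y s) y = kY y s :=
  @Pool.Agent.HS.kep_kT_pr y h s

end Pool.Agent.HS

namespace Pool.Agent.HS
open Set Filter Topology
open scoped ContDiff

theorem kep_zero {y : KS} (h : Ell y) : kep 0 y = y :=
  @Pool.Agent.HS.kep_zero_pr y h

end Pool.Agent.HS

namespace Pool.Agent.HS
open Set Filter Topology
open scoped ContDiff

theorem kep_ode {y : KS} (h : Ell y) (t : ℝ) :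
    HasDerivAt (fun t => kep t y) ((kep t y).2, - G (kep t y).1) t :=
  @Pool.Agent.HS.kep_ode_pr y h t

end Pool.Agent.HS

namespace Pool.Agent.HS
open Set Filter Topology
open scoped ContDiff

theorem kep_ell {y : KS} (h : Ell y) (t : ℝ) : Ell (kep t y) ∧ kh' (kep t y) = kh' y ∧
    kL (kep t y) = kL y ∧ kE (kep t y) = kE y :=
  @Pool.Agent.HS.kep_ell_pr y h t

end Pool.Agent.HS
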