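import Pool.Agent.Lib_helper60.HSF.D_WI
import Pool.Agent.Lib_helper60.HSF.D_WK
import Pool.Agent.Lib_helper60.HSF.K_KA1
import Pool.Agent.Lib_helper60.HSF.K_KD1
import Pool.Agent.Lib_helper60.HSF.A_FL

/-!
# Project HS, block O3: the explicit limit flow
-/

namespace Pool.Agent.HS

noncomputable section

open Set Filter Topology Classical

theorem o3_mP (i : Fin 2) : 0 < mP i := by
  unfold mP ma mb
  split_ifs <;> norm_num

/-- the square of the frequency -/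
theorem o3_w (i : Fin 2) (Z : LCS) (hw : 0 < lzw i Z) :
    2 / mP i * (mQ i * kh' (Z.2.2.1, Z.2.2.2.1) - Z.2.2.2.2) = 4 * lzw i Z ^ 2 := by
  have h1 := o3_mP i
  have h2 : 0 ≤ - ((Z.2.2.2.2 - mQ i * (‖Z.2.2.2.1‖ ^ 2 / 2 - 1 / ‖Z.2.2.1‖)) / mP i) / 2 := by
    by_contra h
    have h3 : lzw i Z = 0 := Real.sqrt_eq_zero_of_nonpos (not_le.1 h).le
    linarith
  have h3 : lzw i Z ^ 2 =
      - ((Z.2.2.2.2 - mQ i * (‖Z.2.2.2.1‖ ^ 2 / 2 - 1 / ‖Z.2.2.1‖)) / mP i) / 2 := Real.sq_sqrt h2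
  rw [h3]
  unfold kh'
  simp only
  field_simp
  ring

theorem o3_zeta (i : Fin 2) (Z : LCS) (hw : 0 < lzw i Z) (τ : ℝ) :
    HasDerivAt (fun s => lzζ i s Z) (((1 / 4 : ℝ) : ℂ) * lzη i τ Z) τ := by
  unfold lzζ lzη
  have hw' : lzw i Z ≠ 0 := hw.ne'
  have h0 : HasDerivAt (fun s : ℝ => lzw i Z * s) (lzw i Z) τ := by
    simpa using (hasDerivAt_id τ).const_mul (lzw i Z)
  have h1 : HasDerivAt (fun s : ℝ => Real.cos (lzw i Z * s))
      (-Real.sin (lzw i Z * τ) * lzw i Z) τ := h0.cos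
  have h2 : HasDerivAt (fun s : ℝ => Real.sin (lzw i Z * s) / (4 * lzw i Z))
      (Real.cos (lzw i Z * τ) * lzw i Z / (4 * lzw i Z)) τ := h0.sin.div_const _
  have h3 := (h1.ofReal_comp.mul_const Z.1).add (h2.ofReal_comp.mul_const Z.2.1)
  refine h3.congr_deriv ?_
  have hw2 : (lzw i Z : ℂ) ≠ 0 := Complex.ofReal_ne_zero.2 hw'
  push_cast
  field_simp

theorem o3_eta (i : Fin 2) (Z : LCS) (hw : 0 < lzw i Z) (τ : ℝ) :
    HasDerivAt (fun s => lzη i s Z) (-((4 * lzw i Z ^ 2 : ℝ) * lzζ i τ Z)) τ := by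
  unfold lzζ lzη
  have hw' : lzw i Z ≠ 0 := hw.ne'
  have h0 : HasDerivAt (fun s : ℝ => lzw i Z * s) (lzw i Z) τ := by
    simpa using (hasDerivAt_id τ).const_mul (lzw i Z)
  have h1 : HasDerivAt (fun s : ℝ => - 4 * lzw i Z * Real.sin (lzw i Z * s))
      (- 4 * lzw i Z * (Real.cos (lzw i Z * τ) * lzw i Z)) τ := h0.sin.const_mul _
  have h2 : HasDerivAt (fun s : ℝ => Real.cos (lzw i Z * s))
      (-Real.sin (lzw i Z * τ) * lzw i Z) τ := h0.cos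
  have h3 := (h1.ofReal_comp.mul_const Z.1).add (h2.ofReal_comp.mul_const Z.2.1)
  refine h3.congr_deriv ?_
  have hw2 : (lzw i Z : ℂ) ≠ 0 := Complex.ofReal_ne_zero.2 hw'
  push_cast
  field_simp
  ring

theorem o3_zcont (i : Fin 2) (Z : LCS) : Continuous (fun s => ‖lzζ i s Z‖ ^ 2) := by
  unfold lzζ
  fun_prop

theorem o3_time (i : Fin 2) (Z : LCS) (τ : ℝ) :
    HasDerivAt (fun s => lzt i s Z) (‖lzζ i τ Z‖ ^ 2) τ :=
  intervalIntegral.integral_hasDerivAt_right ((o3_zcont i Z).intervalIntegrable _ _)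
    ((o3_zcont i Z).stronglyMeasurableAtFilter _ _) (o3_zcont i Z).continuousAt

/-- O3: the explicit limit flow solves the regularized equations with `M = 0`. -/
theorem lz0_ode_pr (i : Fin 2) (Z : LCS) (hx : Z.2.2.1 ≠ 0)
    (hL : kL (Z.2.2.1, Z.2.2.2.1) ≠ 0) (hQ : kh' (Z.2.2.1, Z.2.2.2.1) < 0)
    (hw : 0 < lzw i Z) (τ : ℝ) :
    HasDerivAt (fun s => lz0 i s Z) (lcf i 0 (lz0 i τ Z)) τ ∧ lz0 i 0 Z = Z := by
  have _h := hx
  have hE : Ell (Z.2.2.1, Z.2.2.2.1) := ⟨hQ, hL⟩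
  refine ⟨?_, ?_⟩
  · have h1 := kep_ode hE (lzt i τ Z)
    have h2 := o3_time i Z τ
    have h3 : HasDerivAt (fun s => kep (lzt i s Z) (Z.2.2.1, Z.2.2.2.1))
        ((‖lzζ i τ Z‖ ^ 2) • ((kep (lzt i τ Z) (Z.2.2.1, Z.2.2.2.1)).2,
          - G (kep (lzt i τ Z) (Z.2.2.1, Z.2.2.2.1)).1)) τ :=
      HasDerivAt.scomp (g₁ := fun t => kep t (Z.2.2.1, Z.2.2.2.1)) (h := fun s => lzt i s Z) τ
        h1 h2
    have h4 : HasDerivAt (fun s => (kep (lzt i s Z) (Z.2.2.1, Z.2.2.2.1)).1)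
        ((‖lzζ i τ Z‖ ^ 2) • (kep (lzt i τ Z) (Z.2.2.1, Z.2.2.2.1)).2) τ :=
      (ContinuousLinearMap.fst ℝ ℂ ℂ).hasFDerivAt.comp_hasDerivAt τ h3
    have h5 : HasDerivAt (fun s => (kep (lzt i s Z) (Z.2.2.1, Z.2.2.2.1)).2)
        ((‖lzζ i τ Z‖ ^ 2) • - G (kep (lzt i τ Z) (Z.2.2.1, Z.2.2.2.1)).1) τ :=
      (ContinuousLinearMap.snd ℝ ℂ ℂ).hasFDerivAt.comp_hasDerivAt τ h3
    have h6 := (o3_zeta i Z hw τ).prodMk ((o3_eta i Z hw τ).prodMk (h4.prodMk (h5.prodMk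
      (hasDerivAt_const τ Z.2.2.2.2))))
    unfold lz0
    refine h6.congr_deriv ?_
    have hk := (kep_ell hE (lzt i τ Z)).2.1
    have hB : 2 / mP i * lcB i 0 (lzζ i τ Z, lzη i τ Z,
        (kep (lzt i τ Z) (Z.2.2.1, Z.2.2.2.1)).1, (kep (lzt i τ Z) (Z.2.2.1, Z.2.2.2.1)).2,
        Z.2.2.2.2) = 4 * lzw i Z ^ 2 := by
      rw [← o3_w i Z hw, ← hk]
      unfold lcB kh'
      simp only
      ring
    unfold lcf
    simp only [hB]
    refine Prod.ext ?_ (Prod.ext ?_ (Prod.ext ?_ (Prod.ext ?_ ?_)))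
    · simp
    · simp
    · simp
    · simp
    · rfl
  · have e0 : lzt i 0 Z = 0 := by
      unfold lzt
      exact intervalIntegral.integral_same
    unfold lz0
    rw [e0, kep_zero hE]
    unfold lzζ lzη
    simp

/-- the energy of the limit problem -/
theorem o3_ham (y : St) : Ham 0 y = ma * kh' (x3 y, u3 y) + mb * kh' (x2 y, u2 y) := by
  unfold Ham kh' cU cW
  have e1 : ‖(ma : ℂ) * u3 y + (mb : ℂ) * u2 y‖ ^ 2 + ma * mb * ‖u3 y - u2 y‖ ^ 2 =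
      ma * ‖u3 y‖ ^ 2 + mb * ‖u2 y‖ ^ 2 := by
    rw [← Complex.normSq_eq_norm_sq, ← Complex.normSq_eq_norm_sq, ← Complex.normSq_eq_norm_sq,
      ← Complex.normSq_eq_norm_sq]
    simp only [Complex.normSq_apply, Complex.add_re, Complex.add_im, Complex.sub_re,
      Complex.sub_im, Complex.mul_re, Complex.mul_im, Complex.ofReal_re, Complex.ofReal_im]
    unfold ma mb
    ring
  have e2 : (1 + 0) * ‖(ma : ℂ) * u3 y + (mb : ℂ) * u2 y‖ ^ 2 / 2 +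
      ma * mb * (‖u3 y - u2 y‖ ^ 2 / 2 - 0 / ‖cX y‖) - ma / ‖x3 y‖ - mb / ‖x2 y‖ =
      (‖(ma : ℂ) * u3 y + (mb : ℂ) * u2 y‖ ^ 2 + ma * mb * ‖u3 y - u2 y‖ ^ 2) / 2
        - ma / ‖x3 y‖ - mb / ‖x2 y‖ := by
    ring
  rw [e2, e1]
  ring

theorem o3_lzw (i : Fin 2) (y : St) : lzw i (toLC i 0 y) =
    Real.sqrt (- (if i = 0 then kh' (x3 y, u3 y) else kh' (x2 y, u2 y)) / 2) := by
  unfold lzw toLC
  simp only [o3_ham]
  congr 1
  fin_cases i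
  · simp only [mP, mQ, kh', ma, mb, Fin.zero_eta, if_true]
    ring
  · simp only [mP, mQ, kh', ma, mb, Fin.mk_one, one_ne_zero, if_false]
    ring

theorem o3_col (d : Dt) : x3 (colD d) = d.1 ∧ x2 (colD d) = d.1 := by
  unfold colD ofRU x3 x2
  constructor <;> simp

theorem o3_mem {Z : LCS} {B : ℝ} (h1 : ‖Z.1‖ ≤ B) (h2 : ‖Z.2.1‖ ≤ B) (h3 : ‖Z.2.2.1‖ ≤ B)
    (h4 : ‖Z.2.2.2.1‖ ≤ B) (h5 : |Z.2.2.2.2| ≤ B) : ‖Z‖ ≤ B := by
  rw [norm_prod_le_iff, norm_prod_le_iff, norm_prod_le_iff, norm_prod_le_iff]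
  exact ⟨h1, h2, h3, h4, h5⟩

/-- bounds along a Kepler orbit -/
theorem o3_kep {c : ℝ} (hc : 0 < c) {y : KS} (hh : kh' y ≤ -c) (hL : c ≤ |kL y|) (t : ℝ) :
    ‖(kep t y).1‖ ≤ 1 / c ∧ c ^ 2 / 2 ≤ ‖(kep t y).1‖ ∧ ‖(kep t y).2‖ ≤ 2 / c := by
  have hE : Ell y := ⟨by linarith, fun h => by rw [h, abs_zero] at hL; linarith⟩
  obtain ⟨hE', e1, e2, -⟩ := kep_ell hE t
  have hL' : c ≤ |kL (kep t y)| := by rw [e2]; exact hL
  have hh' : kh' (kep t y) ≤ -c := by rw [e1]; exact hh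
  generalize kep t y = z at *
  have hx : z.1 ≠ 0 := kL_ne hE'.2
  have hx0 : 0 < ‖z.1‖ := norm_pos_iff.2 hx
  unfold kh' at hh'
  have a1 : c ≤ 1 / ‖z.1‖ := by nlinarith [sq_nonneg ‖z.2‖]
  have a2 : ‖z.1‖ ≤ 1 / c := by
    rw [le_div_iff₀ hc]
    rw [le_div_iff₀ hx0] at a1
    linarith
  have a3 : |kL z| ≤ ‖z.1‖ * ‖z.2‖ := by
    unfold kL
    refine (Complex.abs_im_le_norm _).trans ?_
    rw [norm_mul, Complex.norm_conj]
  have a4 : ‖z.2‖ ^ 2 * ‖z.1‖ ≤ 2 := by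
    have : ‖z.2‖ ^ 2 ≤ 2 / ‖z.1‖ := by
      have : (2 : ℝ) / ‖z.1‖ = 2 * (1 / ‖z.1‖) := by ring
      rw [this]
      linarith
    rwa [le_div_iff₀ hx0] at this
  have a5 : c ^ 2 ≤ 2 * ‖z.1‖ := by
    have h1 : c ^ 2 ≤ (‖z.1‖ * ‖z.2‖) ^ 2 := pow_le_pow_left₀ hc.le (hL'.trans a3) 2
    calc c ^ 2 ≤ (‖z.1‖ * ‖z.2‖) ^ 2 := h1
      _ = ‖z.2‖ ^ 2 * ‖z.1‖ * ‖z.1‖ := by ring
      _ ≤ 2 * ‖z.1‖ := mul_le_mul_of_nonneg_right a4 hx0.le
  refine ⟨a2, by linarith, ?_⟩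
  have a6 : ‖z.2‖ ^ 2 * c ^ 2 ≤ 4 := by
    calc ‖z.2‖ ^ 2 * c ^ 2 ≤ ‖z.2‖ ^ 2 * (2 * ‖z.1‖) :=
          mul_le_mul_of_nonneg_left a5 (sq_nonneg _)
      _ = 2 * (‖z.2‖ ^ 2 * ‖z.1‖) := by ring
      _ ≤ 4 := by linarith
  rw [le_div_iff₀ hc]
  have a7 : (‖z.2‖ * c) ^ 2 ≤ 2 ^ 2 := by
    rw [mul_pow]
    linarith
  exact (sq_le_sq₀ (by positivity) (by norm_num)).1 a7

theorem Zd_spec_pr (i : Fin 2) (c : ℝ) (hc : 0 < c) : ∃ c', 0 < c' ∧ ∀ d ∈ AdmD i c,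
    Zd i d 0 = toLC i 0 (colD d) ∧
    ∀ τ, Zd i d τ ∈ lcBox c' ∧ HasDerivAt (Zd i d) (lcf i 0 (Zd i d τ)) τ := by
  -- bounds for the start value
  set s0 : ℝ := Real.sqrt (1 / c) with hs0
  have hs0' : 0 ≤ s0 := Real.sqrt_nonneg _
  set wl : ℝ := Real.sqrt (c / 2) with hwl
  have hwl' : 0 < wl := Real.sqrt_pos.2 (by positivity)
  set wu : ℝ := Real.sqrt (1 / c) with hwu
  set b : ℝ := 2 * s0 * (2 / c) with hb
  have hb0 : 0 ≤ b := by positivity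
  set B : ℝ := s0 + b / (4 * wl) + (4 * wu * s0 + b) + 1 / c + 2 / c with hB
  have hB0 : 0 < B := by positivity
  refine ⟨min (c ^ 2 / 2) (1 / B), lt_min (by positivity) (by positivity), fun d hd => ?_⟩
  obtain ⟨⟨hd1, hd2, hd3, hd4, hd5⟩, hk3, hk2, hkL⟩ := hd
  obtain ⟨ex3, ex2⟩ := o3_col d
  have hR0 : 0 < ‖d.1‖ := lt_of_lt_of_le hc (hd1.trans (Complex.re_le_norm _))
  have hRc : c ≤ ‖d.1‖ := hd1.trans (Complex.re_le_norm _)
  set Z : LCS := toLC i 0 (colD d) with hZ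
  -- the frequency
  have hfreq : lzw i Z = Real.sqrt (- (if i = 0 then kh' (x3 (colD d), u3 (colD d)) else
      kh' (x2 (colD d), u2 (colD d))) / 2) := o3_lzw i (colD d)
  have hkl : ∀ u : ℂ, -(1 / c) ≤ kh' (d.1, u) := by
    intro u
    unfold kh'
    simp only
    have h1 : 1 / ‖d.1‖ ≤ 1 / c := one_div_le_one_div_of_le hc hRc
    nlinarith [sq_nonneg ‖u‖]
  have hw1 : wl ≤ lzw i Z := by
    rw [hfreq]
    refine Real.sqrt_le_sqrt ?_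
    split_ifs <;> linarith
  have hw2 : lzw i Z ≤ wu := by
    rw [hfreq]
    refine Real.sqrt_le_sqrt ?_
    have h0 : 0 < 1 / c := by positivity
    split_ifs
    · have := hkl (u3 (colD d))
      rw [ex3]
      linarith
    · have := hkl (u2 (colD d))
      rw [ex2]
      linarith
  have hw0 : 0 < lzw i Z := lt_of_lt_of_le hwl' hw1
  -- the start values
  have hxQ : Z.2.2.1 = d.1 := by
    rw [hZ]
    unfold toLC
    simp only
    split_ifs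
    · exact ex2
    · exact ex3
  have hζ : ‖Z.1‖ ≤ s0 := by
    have e : Z.1 = d.1 ^ (1 / 2 : ℂ) := by
      rw [hZ]
      unfold toLC
      simp only
      split_ifs
      · rw [ex3]
      · rw [ex2]
    have e2 : ‖Z.1‖ ^ 2 = ‖d.1‖ := by
      rw [← norm_pow, e, ← Complex.cpow_nat_mul]
      norm_num
    rw [hs0]
    refine Real.le_sqrt_of_sq_le ?_
    rw [e2]
    exact hd2
  have hmb : ‖(mb : ℂ)‖ ≤ 1 := by
    rw [Complex.norm_real]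
    unfold mb
    norm_num
  have hma : ‖(ma : ℂ)‖ ≤ 1 := by
    rw [Complex.norm_real]
    unfold ma
    norm_num
  have hwn : ‖(d.2.2.1 : ℂ) * Complex.exp (d.2.2.2 * Complex.I)‖ ≤ 1 / c := by
    rw [norm_mul, Complex.norm_exp_ofReal_mul_I, mul_one, Complex.norm_real, Real.norm_eq_abs,
      abs_of_nonneg (hc.le.trans hd4)]
    exact hd5
  have hu3 : ‖u3 (colD d)‖ ≤ 2 / c := by
    unfold colD ofRU u3
    simp only
    refine (norm_add_le _ _).trans ?_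
    rw [norm_mul]
    have : ‖(mb : ℂ)‖ * ‖(d.2.2.1 : ℂ) * Complex.exp (d.2.2.2 * Complex.I)‖ ≤ 1 * (1 / c) :=
      mul_le_mul hmb hwn (norm_nonneg _) zero_le_one
    have e : (2 : ℝ) / c = 1 / c + 1 / c := by ring
    linarith
  have hu2 : ‖u2 (colD d)‖ ≤ 2 / c := by
    unfold colD ofRU u2
    simp only
    refine (norm_sub_le _ _).trans ?_
    rw [norm_mul]
    have : ‖(ma : ℂ)‖ * ‖(d.2.2.1 : ℂ) * Complex.exp (d.2.2.2 * Complex.I)‖ ≤ 1 * (1 / c) :=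
      mul_le_mul hma hwn (norm_nonneg _) zero_le_one
    have e : (2 : ℝ) / c = 1 / c + 1 / c := by ring
    linarith
  have hη : ‖Z.2.1‖ ≤ b := by
    have e : ∃ u : ℂ, ‖u‖ ≤ 2 / c ∧ Z.2.1 = 2 * (starRingEnd ℂ) Z.1 * u := by
      rw [hZ]
      unfold toLC
      simp only
      split_ifs
      · exact ⟨_, hu3, rfl⟩
      · exact ⟨_, hu2, rfl⟩
    obtain ⟨u, hu, e⟩ := e
    rw [e, norm_mul, norm_mul, Complex.norm_conj, Complex.norm_ofNat, hb]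
    exact mul_le_mul (mul_le_mul_of_nonneg_left hζ zero_le_two) hu (norm_nonneg _)
      (by positivity)
  have hkQ : kh' (Z.2.2.1, Z.2.2.2.1) ≤ -c ∧ c ≤ |kL (Z.2.2.1, Z.2.2.2.1)| := by
    rw [hZ]
    unfold toLC
    simp only
    split_ifs with hi
    · rw [if_pos hi] at hkL
      exact ⟨hk2, hkL⟩
    · rw [if_neg hi] at hkL
      exact ⟨hk3, hkL⟩
  have hEn : |Z.2.2.2.2| ≤ 1 / c := by
    have e : Z.2.2.2.2 = ma * kh' (x3 (colD d), u3 (colD d)) +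
        mb * kh' (x2 (colD d), u2 (colD d)) := by
      rw [← o3_ham, hZ]
      unfold toLC
      rfl
    have h3 := hkl (u3 (colD d))
    have h2 := hkl (u2 (colD d))
    rw [e, abs_le]
    rw [ex3] at hk3 ⊢
    rw [ex2] at hk2 ⊢
    unfold ma mb
    have h0 : 0 < 1 / c := by positivity
    constructor <;> linarith
  have hx : Z.2.2.1 ≠ 0 := by
    rw [hxQ]
    exact norm_pos_iff.1 hR0
  have hL : kL (Z.2.2.1, Z.2.2.2.1) ≠ 0 := by
    intro h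
    have := hkQ.2
    rw [h, abs_zero] at this
    linarith
  have hQ : kh' (Z.2.2.1, Z.2.2.2.1) < 0 := by linarith [hkQ.1]
  have hode := fun τ => lz0_ode_pr i Z hx hL hQ hw0 τ
  refine ⟨(hode 0).2, fun τ => ⟨?_, (hode τ).1⟩⟩
  have hZd : Zd i d τ = lz0 i τ Z := rfl
  rw [hZd]
  obtain ⟨k1, k2, k3⟩ := o3_kep hc hkQ.1 hkQ.2 (lzt i τ Z)
  have hBζ : ‖lzζ i τ Z‖ ≤ s0 + b / (4 * wl) := by
    unfold lzζ
    refine (norm_add_le _ _).trans (add_le_add ?_ ?_)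
    · rw [norm_mul, Complex.norm_real, Real.norm_eq_abs]
      calc |Real.cos (lzw i Z * τ)| * ‖Z.1‖ ≤ 1 * s0 :=
            mul_le_mul (Real.abs_cos_le_one _) hζ (norm_nonneg _) zero_le_one
        _ = s0 := one_mul _
    · rw [norm_mul, Complex.norm_real, Real.norm_eq_abs, abs_div,
        abs_of_pos (by positivity : 0 < 4 * lzw i Z)]
      calc |Real.sin (lzw i Z * τ)| / (4 * lzw i Z) * ‖Z.2.1‖ ≤ 1 / (4 * wl) * b := by
            refine mul_le_mul ?_ hη (norm_nonneg _) (by positivity)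
            exact div_le_div₀ zero_le_one (Real.abs_sin_le_one _) (by positivity) (by linarith)
        _ = b / (4 * wl) := by ring
  have hBη : ‖lzη i τ Z‖ ≤ 4 * wu * s0 + b := by
    unfold lzη
    refine (norm_add_le _ _).trans (add_le_add ?_ ?_)
    · rw [norm_mul, Complex.norm_real, Real.norm_eq_abs, abs_mul, abs_mul, abs_neg,
        abs_of_pos hw0, abs_of_pos (by norm_num : (0 : ℝ) < 4)]
      calc 4 * lzw i Z * |Real.sin (lzw i Z * τ)| * ‖Z.1‖ ≤ 4 * wu * 1 * s0 := by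
            refine mul_le_mul (mul_le_mul (by linarith) (Real.abs_sin_le_one _) (abs_nonneg _)
              (by positivity)) hζ (norm_nonneg _) (by positivity)
        _ = 4 * wu * s0 := by ring
    · rw [norm_mul, Complex.norm_real, Real.norm_eq_abs]
      calc |Real.cos (lzw i Z * τ)| * ‖Z.2.1‖ ≤ 1 * b :=
            mul_le_mul (Real.abs_cos_le_one _) hη (norm_nonneg _) zero_le_one
        _ = b := one_mul _
  have p1 : 0 ≤ s0 + b / (4 * wl) := by positivity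
  have p2 : 0 ≤ 4 * wu * s0 + b := by positivity
  have p3 : 0 < 1 / c := by positivity
  have p4 : 0 < 2 / c := by positivity
  refine ⟨?_, (min_le_left _ _).trans k2⟩
  have hN : ‖lz0 i τ Z‖ ≤ B := by
    refine o3_mem ?_ ?_ ?_ ?_ ?_
    · exact hBζ.trans (by linarith)
    · exact hBη.trans (by linarith)
    · exact k1.trans (by linarith)
    · exact k3.trans (by linarith)
    · exact hEn.trans (by linarith)
  refine hN.trans ?_
  rw [le_div_iff₀ (lt_min (by positivity) (by positivity))]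
  calc B * min (c ^ 2 / 2) (1 / B) ≤ B * (1 / B) :=
        mul_le_mul_of_nonneg_left (min_le_right _ _) hB0.le
    _ = 1 := by field_simp

/-- P3: the limit trajectories as flow of the cut off field -/
theorem Zd_flow_pr (i : Fin 2) (c c' : ℝ) (hc : 0 < c) (f0 : LCS → LCS) (K : ℝ) (hf : BL K K f0)
    (hf0 : ∀ Z ∈ lcBox c', f0 Z = lcf i 0 Z)
    (hZ : ∀ d ∈ AdmD i c, Zd i d 0 = toLC i 0 (colD d) ∧
      ∀ τ, Zd i d τ ∈ lcBox c' ∧ HasDerivAt (Zd i d) (lcf i 0 (Zd i d τ)) τ) :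
    ∀ d ∈ AdmD i c, ∀ τ, 0 ≤ τ → Zd i d τ = flow f0 τ (toLC i 0 (colD d)) := by
  have _h := hc
  intro d hd τ hτ
  obtain ⟨h0, h1⟩ := hZ d hd
  have h2 := flow_unique hf hτ (γ := Zd i d) (fun t _ => by
    rw [hf0 _ (h1 t).1]
    exact (h1 t).2.hasDerivWithinAt) τ ⟨hτ, le_rfl⟩
  rw [h2, h0]

end

end Pool.Agent.HS

namespace Pool.Agent.HS
open Set Filter Topology Classical

theorem lz0_ode (i : Fin 2) (Z : LCS) (hx : Z.2.2.1 ≠ 0)
    (hL : kL (Z.2.2.1, Z.2.2.2.1) ≠ 0) (hQ : kh' (Z.2.2.1, Z.2.2.2.1) < 0)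
    (hw : 0 < lzw i Z) (τ : ℝ) :
    HasDerivAt (fun s => lz0 i s Z) (lcf i 0 (lz0 i τ Z)) τ ∧ lz0 i 0 Z = Z :=
  @Pool.Agent.HS.lz0_ode_pr i Z hx hL hQ hw τ

end Pool.Agent.HS

namespace Pool.Agent.HS
open Set Filter Topology Classical

theorem Zd_spec (i : Fin 2) (c : ℝ) (hc : 0 < c) : ∃ c', 0 < c' ∧ ∀ d ∈ AdmD i c,
    Zd i d 0 = toLC i 0 (colD d) ∧
    ∀ τ, Zd i d τ ∈ lcBox c' ∧ HasDerivAt (Zd i d) (lcf i 0 (Zd i d τ)) τ :=
  @Pool.Agent.HS.Zd_spec_pr i c hc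

end Pool.Agent.HS

namespace Pool.Agent.HS
open Set Filter Topology Classical

theorem Zd_flow (i : Fin 2) (c c' : ℝ) (hc : 0 < c) (f0 : LCS → LCS) (K : ℝ) (hf : BL K K f0)
    (hf0 : ∀ Z ∈ lcBox c', f0 Z = lcf i 0 Z)
    (hZ : ∀ d ∈ AdmD i c, Zd i d 0 = toLC i 0 (colD d) ∧
      ∀ τ, Zd i d τ ∈ lcBox c' ∧ HasDerivAt (Zd i d) (lcf i 0 (Zd i d τ)) τ) :
    ∀ d ∈ AdmD i c, ∀ τ, 0 ≤ τ → Zd i d τ = flow f0 τ (toLC i 0 (colD d)) :=
  @Pool.Agent.HS.Zd_flow_pr i c c' hc f0 K hf hf0 hZ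

end Pool.Agent.HS
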