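import Pool.Agent.Lib_helper60.HSF.D_WI
import Pool.Agent.Lib_helper60.HSF.IO_K2
import Pool.Agent.Lib_helper60.HSF.IO_I1

/-!
# Part I/O of project HS, block K1 (ENCINT): integrals of the encounter states
-/

namespace Pool.Agent.HS

noncomputable section

open Set Filter Topology Classical

theorem k1_ab : (ma : ℂ) + mb = 1 := by
  rw [← Complex.ofReal_add, ma, mb]
  norm_num

theorem k1_cR (R U ξ w : ℂ) : cR (ofRU R U ξ w) = R := by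
  show (ma : ℂ) * (R + mb * ξ) + mb * (R - ma * ξ) = R
  linear_combination R * k1_ab

theorem k1_cU (R U ξ w : ℂ) : cU (ofRU R U ξ w) = U := by
  show (ma : ℂ) * (U + mb * w) + mb * (U - ma * w) = U
  linear_combination U * k1_ab

theorem k1_cX (R U ξ w : ℂ) : cX (ofRU R U ξ w) = ξ := by
  show R + mb * ξ - (R - ma * ξ) = ξ
  linear_combination ξ * k1_ab

theorem k1_cW (R U ξ w : ℂ) : cW (ofRU R U ξ w) = w := by
  show U + mb * w - (U - ma * w) = w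
  linear_combination w * k1_ab

theorem k1_sqrt {κ : ℝ} (hκ : 0 < κ) : 2 * Real.sqrt (κ ^ 2 / 2 / 2) = κ := by
  have h : κ ^ 2 / 2 / 2 = (κ / 2) ^ 2 := by ring
  rw [h, Real.sqrt_sq (by positivity)]
  ring

theorem k1_outSt (μ : ℝ) (R U : ℂ) (κ χ β : ℝ) (hκ : 0 < κ) :
    outSt μ R U κ χ β = ofRU R U (μ ^ 2 * (A0 κ χ β + D0 κ χ β) ^ 2)
      (κ * (μ * (A0 κ χ β - D0 κ χ β)) / (starRingEnd ℂ) (μ * (A0 κ χ β + D0 κ χ β))) := by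
  have h := k1_sqrt hκ
  have h' : (2 : ℂ) * (Real.sqrt (κ ^ 2 / 2 / 2) : ℝ) = κ := by
    rw [← h]
    push_cast
    rw [h]
  rw [outSt, ofUV, mul_pow, h']

theorem k1_pq {κ χ β : ℝ} (hκ : 0 < κ) (hβ : β ≠ 0) :
    0 < ‖A0 κ χ β + D0 κ χ β‖ ^ 2 ∧
      ‖A0 κ χ β - D0 κ χ β‖ ^ 2 - ‖A0 κ χ β + D0 κ χ β‖ ^ 2 = 2 / κ ^ 2 := by
  obtain ⟨-, -, -, -, -, -, h, h'⟩ := A0_alg κ χ β hκ
  have h1 : 1 < Real.sqrt (1 + κ ^ 2 * β ^ 2) := by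
    rw [Real.lt_sqrt (by norm_num)]
    have : 0 < κ ^ 2 * β ^ 2 := by positivity
    linarith
  rw [h, h']
  refine ⟨div_pos (by linarith) (by positivity), ?_⟩
  rw [← sub_div]
  congr 1
  ring

theorem k1_u_ne {μ κ χ β : ℝ} (hμ : 0 < μ) (hκ : 0 < κ) (hβ : β ≠ 0) :
    (μ : ℂ) * (A0 κ χ β + D0 κ χ β) ≠ 0 := by
  refine mul_ne_zero (Complex.ofReal_ne_zero.mpr hμ.ne') fun h0 => ?_
  have h := (k1_pq (χ := χ) hκ hβ).1
  rw [h0] at h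
  simp at h

theorem ham_outSt_pr (μ : ℝ) (hμ : 0 < μ) (R U : ℂ) (κ χ β : ℝ) (hκ : 0 < κ) (hβ : β ≠ 0) :
    Ham (μ ^ 2) (outSt μ R U κ χ β) =
      encH μ R U κ (μ ^ 2 * (A0 κ χ β + D0 κ χ β) ^ 2) := by
  obtain ⟨hp, hq⟩ := k1_pq (χ := χ) hκ hβ
  rw [k1_outSt μ R U κ χ β hκ, Ham, k1_cU, k1_cW, k1_cX, encH]
  have e1 : ‖(κ : ℂ) * (μ * (A0 κ χ β - D0 κ χ β)) /
      (starRingEnd ℂ) (μ * (A0 κ χ β + D0 κ χ β))‖ ^ 2 =
      κ ^ 2 * ‖A0 κ χ β - D0 κ χ β‖ ^ 2 / ‖A0 κ χ β + D0 κ χ β‖ ^ 2 := by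
    rw [norm_div, norm_mul, norm_mul, RCLike.norm_conj, norm_mul, Complex.norm_real,
      Complex.norm_real, Real.norm_of_nonneg hκ.le, Real.norm_of_nonneg hμ.le, div_pow,
      mul_pow, mul_pow, mul_pow]
    have : μ ^ 2 ≠ 0 := by positivity
    field_simp
  have e2 : ‖(μ : ℂ) ^ 2 * (A0 κ χ β + D0 κ χ β) ^ 2‖ = μ ^ 2 * ‖A0 κ χ β + D0 κ χ β‖ ^ 2 := by
    rw [norm_mul, norm_pow, norm_pow, Complex.norm_real, Real.norm_of_nonneg hμ.le]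
  rw [e1, e2]
  have e3 : κ ^ 2 * ‖A0 κ χ β - D0 κ χ β‖ ^ 2 / ‖A0 κ χ β + D0 κ χ β‖ ^ 2 / 2 -
      μ ^ 2 / (μ ^ 2 * ‖A0 κ χ β + D0 κ χ β‖ ^ 2) = κ ^ 2 / 2 := by
    have h1 : ‖A0 κ χ β - D0 κ χ β‖ ^ 2 = ‖A0 κ χ β + D0 κ χ β‖ ^ 2 + 2 / κ ^ 2 := by linarith
    rw [h1]
    have h2 : μ ^ 2 ≠ 0 := by positivity
    have h3 := hp.ne'
    have h4 : κ ^ 2 ≠ 0 := by positivity
    generalize ‖A0 κ χ β + D0 κ χ β‖ ^ 2 = P at h3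
    field_simp
    ring
  rw [e3]
  have e4 : x3 (ofRU R U ((μ : ℂ) ^ 2 * (A0 κ χ β + D0 κ χ β) ^ 2)
      (κ * (μ * (A0 κ χ β - D0 κ χ β)) / (starRingEnd ℂ) (μ * (A0 κ χ β + D0 κ χ β)))) =
      R + mb * ((μ : ℂ) ^ 2 * (A0 κ χ β + D0 κ χ β) ^ 2) := rfl
  have e5 : x2 (ofRU R U ((μ : ℂ) ^ 2 * (A0 κ χ β + D0 κ χ β) ^ 2)
      (κ * (μ * (A0 κ χ β - D0 κ χ β)) / (starRingEnd ℂ) (μ * (A0 κ χ β + D0 κ χ β)))) =
      R - ma * ((μ : ℂ) ^ 2 * (A0 κ χ β + D0 κ χ β) ^ 2) := rfl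
  rw [e4, e5]
  ring

theorem k1_conj {u v k : ℂ} (hu : u ≠ 0) :
    (starRingEnd ℂ) (u ^ 2) * (k * v / (starRingEnd ℂ) u) = k * ((starRingEnd ℂ) u * v) := by
  have hu' : (starRingEnd ℂ) u ≠ 0 := by
    rw [Ne, map_eq_zero]
    exact hu
  rw [map_pow]
  field_simp

theorem ang_outSt_pr (μ : ℝ) (hμ : 0 < μ) (R U : ℂ) (κ χ β : ℝ) (hκ : 0 < κ) (hβ : β ≠ 0) :
    Ang (outSt μ R U κ χ β) = ((starRingEnd ℂ) R * U).im + ma * mb * μ ^ 2 * β := by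
  have hne := k1_u_ne (χ := χ) hμ hκ hβ
  obtain ⟨hA, hD, -, hAD, -⟩ := A0_alg κ χ β hκ
  rw [k1_outSt μ R U κ χ β hκ, Ang, k1_cU, k1_cW, k1_cX, k1_cR, ← mul_pow, k1_conj hne]
  have e : ((κ : ℂ) * ((starRingEnd ℂ) ((μ : ℂ) * (A0 κ χ β + D0 κ χ β)) *
      (μ * (A0 κ χ β - D0 κ χ β)))).im = μ ^ 2 * β := by
    set A := A0 κ χ β with hAdef
    set D := D0 κ χ β with hDdef
    have h1 : (κ : ℂ) * ((starRingEnd ℂ) ((μ : ℂ) * (A + D)) * (μ * (A - D))) =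
        ((κ * μ ^ 2 : ℝ) : ℂ) * ((starRingEnd ℂ) (A + D) * (A - D)) := by
      rw [map_mul, Complex.conj_ofReal]
      push_cast
      ring
    have h2 : ((starRingEnd ℂ) (A + D) * (A - D)).im = 2 * (A * (starRingEnd ℂ) D).im := by
      simp only [map_add, Complex.mul_im, Complex.add_re, Complex.add_im, Complex.sub_re,
        Complex.sub_im, Complex.conj_re, Complex.conj_im]
      ring
    have h3 : (A * (starRingEnd ℂ) D).im = κ * β / (2 * κ ^ 2) := by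
      rw [hAD, Complex.div_ofReal_im]
      simp
    rw [h1, Complex.im_ofReal_mul, h2, h3]
    field_simp
  rw [e]
  ring

theorem enc_integrals_pr (C : ℝ) (hC : 0 < C ∧ C ≤ 1) : ∃ μ0 : ℝ, 0 < μ0 ∧
    ∀ μ, 0 < μ → μ < μ0 → ∀ X ∈ CDw C, ∀ χ, ∀ β ∈ JJ, β ≠ 0 →
      Ham (μ ^ 2) (outSt μ (chart C X).1 (Uenc C μ (chart C X).1 (chart C X).2 β)
        (kapE C μ (chart C X) χ β) χ β) = E0 ∧
      Ang (outSt μ (chart C X).1 (Uenc C μ (chart C X).1 (chart C X).2 β)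
        (kapE C μ (chart C X) χ β) χ β) = C := by
  obtain ⟨μ0, hμ0, h⟩ := kapE_spec C hC
  refine ⟨μ0, hμ0, fun μ hμ hμ' X hX χ β hβ hβ0 => ?_⟩
  obtain ⟨⟨h1, h2⟩, -⟩ := h μ hμ hμ' X hX χ β hβ
  obtain ⟨hk1, -, hr1, -⟩ := kh_num
  have hκ : 0 < kapE C μ (chart C X) χ β := by
    have a1 := abs_le.mp h1
    have a2 := abs_le.mp hX.2.2.2
    linarith [a1.1, a2.1]
  have hr : 0 < (chart C X).1 := by linarith [hX.1]
  refine ⟨?_, ?_⟩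
  · rw [ham_outSt_pr μ hμ _ _ _ _ _ hκ hβ0]
    exact h2
  · rw [ang_outSt_pr μ hμ _ _ _ _ _ hκ hβ0, Complex.conj_ofReal, Complex.im_ofReal_mul]
    have him : (Uenc C μ (chart C X).1 (chart C X).2 β).im =
        (C - ma * mb * μ ^ 2 * β) / (chart C X).1 := by
      simp only [Uenc, Complex.add_im, Complex.ofReal_im, Complex.im_ofReal_mul, Complex.I_im,
        mul_one, zero_add]
    rw [him]
    field_simp
    ring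

end

end Pool.Agent.HS

namespace Pool.Agent.HS
open Set Filter Topology Classical

theorem ham_outSt (μ : ℝ) (hμ : 0 < μ) (R U : ℂ) (κ χ β : ℝ) (hκ : 0 < κ) (hβ : β ≠ 0) :
    Ham (μ ^ 2) (outSt μ R U κ χ β) =
      encH μ R U κ (μ ^ 2 * (A0 κ χ β + D0 κ χ β) ^ 2) :=
  @Pool.Agent.HS.ham_outSt_pr μ hμ R U κ χ β hκ hβ

end Pool.Agent.HS

namespace Pool.Agent.HS
open Set Filter Topology Classical

theorem ang_outSt (μ : ℝ) (hμ : 0 < μ) (R U : ℂ) (κ χ β : ℝ) (hκ : 0 < κ) (hβ : β ≠ 0) :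
    Ang (outSt μ R U κ χ β) = ((starRingEnd ℂ) R * U).im + ma * mb * μ ^ 2 * β :=
  @Pool.Agent.HS.ang_outSt_pr μ hμ R U κ χ β hκ hβ

end Pool.Agent.HS

namespace Pool.Agent.HS
open Set Filter Topology Classical

theorem enc_integrals (C : ℝ) (hC : 0 < C ∧ C ≤ 1) : ∃ μ0 : ℝ, 0 < μ0 ∧
    ∀ μ, 0 < μ → μ < μ0 → ∀ X ∈ CDw C, ∀ χ, ∀ β ∈ JJ, β ≠ 0 →
      Ham (μ ^ 2) (outSt μ (chart C X).1 (Uenc C μ (chart C X).1 (chart C X).2 β)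
        (kapE C μ (chart C X) χ β) χ β) = E0 ∧
      Ang (outSt μ (chart C X).1 (Uenc C μ (chart C X).1 (chart C X).2 β)
        (kapE C μ (chart C X) χ β) χ β) = C :=
  @Pool.Agent.HS.enc_integrals_pr C hC

end Pool.Agent.HS
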