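import Pool.Agent.Lib_helper60.HSF.D_WI

/-!
# HSIO block R3: energy and angular momentum are constant along solutions
-/

namespace Pool.Agent.HS

noncomputable section

open Set Filter Topology

theorem r3_normSq (z : ℂ) : ‖z‖ ^ 2 = z.re ^ 2 + z.im ^ 2 := by
  rw [← Complex.normSq_eq_norm_sq, Complex.normSq_apply]; ring

theorem r3_re {f : ℝ → ℂ} {f' : ℂ} {s : Set ℝ} {t : ℝ} (hf : HasDerivWithinAt f f' s t) :
    HasDerivWithinAt (fun x => (f x).re) f'.re s t :=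
  (Complex.reCLM.hasFDerivAt.comp_hasDerivWithinAt t hf)

theorem r3_im {f : ℝ → ℂ} {f' : ℂ} {s : Set ℝ} {t : ℝ} (hf : HasDerivWithinAt f f' s t) :
    HasDerivWithinAt (fun x => (f x).im) f'.im s t :=
  (Complex.imCLM.hasFDerivAt.comp_hasDerivWithinAt t hf)

theorem r3_sq {f : ℝ → ℂ} {f' : ℂ} {s : Set ℝ} {t : ℝ} (hf : HasDerivWithinAt f f' s t) :
    HasDerivWithinAt (fun x => ‖f x‖ ^ 2) (2 * ((f t).re * f'.re + (f t).im * f'.im)) s t := by
  have h := ((r3_re hf).pow 2).add ((r3_im hf).pow 2)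
  refine (h.congr_deriv ?_).congr (fun x _ => ?_) ?_
  · push_cast; ring
  · simp only [Pi.add_apply, Pi.pow_apply]; exact r3_normSq _
  · simp only [Pi.add_apply, Pi.pow_apply]; exact r3_normSq _

theorem r3_inv {f : ℝ → ℂ} {f' : ℂ} {s : Set ℝ} {t : ℝ} (hf : HasDerivWithinAt f f' s t)
    (h0 : f t ≠ 0) :
    HasDerivWithinAt (fun x => (‖f x‖)⁻¹)
      (-((‖f t‖ ^ 3)⁻¹ * ((f t).re * f'.re + (f t).im * f'.im))) s t := by
  have hn : 0 < ‖f t‖ := norm_pos_iff.2 h0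
  have h1 := (r3_sq hf).sqrt (by positivity)
  have h2 : HasDerivWithinAt (fun x => ‖f x‖)
      (‖f t‖⁻¹ * ((f t).re * f'.re + (f t).im * f'.im)) s t := by
    refine (h1.congr_deriv ?_).congr (fun x _ => ?_) ?_
    · rw [Real.sqrt_sq hn.le]; field_simp
    · rw [Real.sqrt_sq (norm_nonneg _)]
    · rw [Real.sqrt_sq (norm_nonneg _)]
  refine (h2.inv hn.ne').congr_deriv ?_
  field_simp

theorem r3_const {T : ℝ} (hT : 0 ≤ T) {F : ℝ → ℝ}
    (h : ∀ t ∈ Icc (0:ℝ) T, HasDerivWithinAt F 0 (Icc 0 T) t) : F 0 = F T := by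
  rcases hT.eq_or_lt with h0 | h0
  · rw [h0]
  · have := constant_of_derivWithin_zero (f := F) (a := 0) (b := T)
      (fun t ht => (h t ht).differentiableWithinAt)
      (fun t ht => (h t ⟨ht.1, ht.2.le⟩).derivWithin
        ((uniqueDiffOn_Icc h0) t ⟨ht.1, ht.2.le⟩))
    exact (this T ⟨hT, le_rfl⟩).symm

theorem r3_Gre (x : ℂ) : (G x).re = (‖x‖ ^ 3)⁻¹ * x.re := by
  rw [G, Complex.re_ofReal_mul]
theorem r3_Gim (x : ℂ) : (G x).im = (‖x‖ ^ 3)⁻¹ * x.im := by
  rw [G, Complex.im_ofReal_mul]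

section
variable {M : ℝ} {γ : ℝ → St} {S : Set ℝ} {t : ℝ}

theorem r3_x3 (h : HasDerivWithinAt γ (vf M (γ t)) S t) :
    HasDerivWithinAt (fun s => x3 (γ s)) (u3 (γ t) + M * cU (γ t)) S t := by
  have := (ContinuousLinearMap.fst ℝ ℂ (ℂ × ℂ × ℂ)).hasFDerivAt.comp_hasDerivWithinAt t h
  exact this

theorem r3_x2 (h : HasDerivWithinAt γ (vf M (γ t)) S t) :
    HasDerivWithinAt (fun s => x2 (γ s)) (u2 (γ t) + M * cU (γ t)) S t := by
  have := ((ContinuousLinearMap.fst ℝ ℂ (ℂ × ℂ)).comp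
    (ContinuousLinearMap.snd ℝ ℂ (ℂ × ℂ × ℂ))).hasFDerivAt.comp_hasDerivWithinAt t h
  exact this

theorem r3_u3 (h : HasDerivWithinAt γ (vf M (γ t)) S t) :
    HasDerivWithinAt (fun s => u3 (γ s)) (- G (x3 (γ t)) - (mb * M : ℝ) * G (x3 (γ t) - x2 (γ t)))
      S t := by
  have := ((ContinuousLinearMap.fst ℝ ℂ ℂ).comp ((ContinuousLinearMap.snd ℝ ℂ (ℂ × ℂ)).comp
    (ContinuousLinearMap.snd ℝ ℂ (ℂ × ℂ × ℂ)))).hasFDerivAt.comp_hasDerivWithinAt t h
  exact this

theorem r3_u2 (h : HasDerivWithinAt γ (vf M (γ t)) S t) :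
    HasDerivWithinAt (fun s => u2 (γ s)) (- G (x2 (γ t)) + (ma * M : ℝ) * G (x3 (γ t) - x2 (γ t)))
      S t := by
  have := ((ContinuousLinearMap.snd ℝ ℂ ℂ).comp ((ContinuousLinearMap.snd ℝ ℂ (ℂ × ℂ)).comp
    (ContinuousLinearMap.snd ℝ ℂ (ℂ × ℂ × ℂ)))).hasFDerivAt.comp_hasDerivWithinAt t h
  exact this

theorem r3_cR (h : HasDerivWithinAt γ (vf M (γ t)) S t) :
    HasDerivWithinAt (fun s => cR (γ s)) ((1 + M : ℝ) * cU (γ t)) S t := by
  refine (((r3_x3 h).const_mul (ma : ℂ)).add ((r3_x2 h).const_mul (mb : ℂ))).congr_deriv ?_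
  simp only [cU, ma, mb]; push_cast; ring

theorem r3_cU (h : HasDerivWithinAt γ (vf M (γ t)) S t) :
    HasDerivWithinAt (fun s => cU (γ s)) (-(ma * G (x3 (γ t)) + mb * G (x2 (γ t)))) S t := by
  refine (((r3_u3 h).const_mul (ma : ℂ)).add ((r3_u2 h).const_mul (mb : ℂ))).congr_deriv ?_
  push_cast; ring

theorem r3_cX (h : HasDerivWithinAt γ (vf M (γ t)) S t) :
    HasDerivWithinAt (fun s => cX (γ s)) (cW (γ t)) S t := by
  refine ((r3_x3 h).sub (r3_x2 h)).congr_deriv ?_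
  simp only [cW]; ring

theorem r3_cW (h : HasDerivWithinAt γ (vf M (γ t)) S t) :
    HasDerivWithinAt (fun s => cW (γ s))
      (-(G (x3 (γ t)) - G (x2 (γ t))) - (M : ℝ) * G (cX (γ t))) S t := by
  refine ((r3_u3 h).sub (r3_u2 h)).congr_deriv ?_
  simp only [ma, mb, cX]; push_cast; ring

theorem r3_ham (hnc : NC (γ t)) (h : HasDerivWithinAt γ (vf M (γ t)) S t) :
    HasDerivWithinAt (fun s => Ham M (γ s)) 0 S t := by
  obtain ⟨h3, h2, h32⟩ := hnc
  have hX : cX (γ t) ≠ 0 := sub_ne_zero.2 h32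
  have H := ((((((r3_sq (r3_cU h)).const_mul (1 + M)).div_const 2).add
    ((((r3_sq (r3_cW h)).div_const 2).sub ((r3_inv (r3_cX h) hX).const_mul M)).const_mul
      (ma * mb))).sub ((r3_inv (r3_x3 h) h3).const_mul ma)).sub
      ((r3_inv (r3_x2 h) h2).const_mul mb))
  refine (H.congr_deriv ?_).congr (fun x _ => ?_) ?_
  · simp only [cU, cW, cX, ma, mb, Complex.add_re, Complex.add_im, Complex.sub_re, Complex.sub_im,
      Complex.neg_re, Complex.neg_im, Complex.mul_re, Complex.mul_im, Complex.ofReal_re,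
      Complex.ofReal_im, r3_Gre, r3_Gim]
    ring
  · simp only [Ham, div_eq_mul_inv, Pi.add_apply, Pi.sub_apply]
  · simp only [Ham, div_eq_mul_inv, Pi.add_apply, Pi.sub_apply]

theorem r3_ang (h : HasDerivWithinAt γ (vf M (γ t)) S t) :
    HasDerivWithinAt (fun s => Ang (γ s)) 0 S t := by
  have hRr := r3_re (r3_cR h)
  have hRi := r3_im (r3_cR h)
  have hUr := r3_re (r3_cU h)
  have hUi := r3_im (r3_cU h)
  have hXr := r3_re (r3_cX h)
  have hXi := r3_im (r3_cX h)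
  have hWr := r3_re (r3_cW h)
  have hWi := r3_im (r3_cW h)
  have H := (((hRr.mul hUi).sub (hRi.mul hUr))).add
    (((hXr.mul hWi).sub (hXi.mul hWr)).const_mul (ma * mb))
  refine (H.congr_deriv ?_).congr (fun x _ => ?_) ?_
  · simp only [cU, cW, cX, cR, ma, mb, Complex.add_re, Complex.add_im, Complex.sub_re,
      Complex.sub_im, Complex.neg_re, Complex.neg_im, Complex.mul_re, Complex.mul_im,
      Complex.ofReal_re, Complex.ofReal_im, r3_Gre, r3_Gim]
    ring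
  · simp only [Ang, Pi.add_apply, Pi.sub_apply, Pi.mul_apply, Complex.mul_im, Complex.conj_re,
      Complex.conj_im]
    ring
  · simp only [Ang, Pi.add_apply, Pi.sub_apply, Pi.mul_apply, Complex.mul_im, Complex.conj_re,
      Complex.conj_im]
    ring

end

theorem reach_ham_pr {M : ℝ} {y y' : St} (h : Reach M y y') : Ham M y = Ham M y' := by
  obtain ⟨T, hT, γ, hs, h0, h1⟩ := h
  have := r3_const hT (F := fun s => Ham M (γ s)) (fun t ht => r3_ham (hs t ht).1 (hs t ht).2)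
  rw [← h0, ← h1]; exact this

theorem reach_ang_pr {M : ℝ} {y y' : St} (h : Reach M y y') : Ang y = Ang y' := by
  obtain ⟨T, hT, γ, hs, h0, h1⟩ := h
  have := r3_const hT (F := fun s => Ang (γ s)) (fun t ht => r3_ang (hs t ht).2)
  rw [← h0, ← h1]; exact this

end

end Pool.Agent.HS

namespace Pool.Agent.HS
open Set Filter Topology Classical

theorem reach_ham {M : ℝ} {y y' : St} (h : Reach M y y') : Ham M y = Ham M y' :=
  @Pool.Agent.HS.reach_ham_pr M y y' h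

end Pool.Agent.HS

namespace Pool.Agent.HS
open Set Filter Topology Classical

theorem reach_ang {M : ℝ} {y y' : St} (h : Reach M y y') : Ang y = Ang y' :=
  @Pool.Agent.HS.reach_ang_pr M y y' h

end Pool.Agent.HS
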