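import Pool.Agent.Lib_helper60.HSF.D_WJ
import Pool.Agent.Lib_helper60.HSF.IO_R3
import Pool.Agent.Lib_helper60.HSF.IO_I4
import Pool.Agent.Lib_helper60.HSF.IO_K2
import Pool.Agent.Lib_helper60.HSF.IO_K1
import Pool.Agent.Lib_helper60.HSF.IO_I10

/-!
# Part I/O of project HS, block P11
-/

namespace Pool.Agent.HS

noncomputable section

open Set Filter Topology Classical

theorem p11_rh : 0 < rh := by
  have h := kh_num
  linarith [h.2.2.1]

theorem p11_cc : 0 < cc := by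
  have h := kh_num
  have h1 := p11_rh
  have h2 : 0 < kh := by linarith [h.1]
  unfold cc
  positivity

theorem unchart_chart_pr (C : ℝ) (hC : 0 < C) (X : Pl) : unchart C (chart C X) = X := by
  have h1 := p11_rh.ne'
  have h2 := p11_cc.ne'
  have h3 := hC.ne'
  have e1 : (rh + C * (1/2 + X.1) / (cc * rh) - rh) * (cc * rh) / C - 1 / 2 = X.1 := by
    field_simp
    ring
  unfold unchart chart
  apply Prod.ext
  · exact e1
  · show C * (1/2 + 2 * X.1 + X.2) / rh * rh / C - 1 / 2 -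
      2 * ((rh + C * (1/2 + X.1) / (cc * rh) - rh) * (cc * rh) / C - 1 / 2) = X.2
    rw [e1]
    field_simp
    ring

theorem chart_unchart_pr (C : ℝ) (hC : 0 < C) (Y : ℝ × ℝ) : chart C (unchart C Y) = Y := by
  have h1 := p11_rh.ne'
  have h2 := p11_cc.ne'
  have h3 := hC.ne'
  unfold unchart chart
  apply Prod.ext
  · show rh + C * (1/2 + ((Y.1 - rh) * (cc * rh) / C - 1 / 2)) / (cc * rh) = Y.1
    field_simp
    ring
  · show C * (1/2 + 2 * ((Y.1 - rh) * (cc * rh) / C - 1 / 2) +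
      (Y.2 * rh / C - 1 / 2 - 2 * ((Y.1 - rh) * (cc * rh) / C - 1 / 2))) / rh = Y.2
    field_simp
    ring


theorem _root_.Pool.Agent.HS.chart_unchart (C : ℝ) (hC : 0 < C) (Y : ℝ × ℝ) : chart C (unchart C Y) = Y :=
  @Pool.Agent.HS.chart_unchart_pr C hC Y

theorem p11_A0 (κ χ α β : ℝ) : A0 κ (χ + α) β = Complex.exp ((α / 2 : ℝ) * Complex.I) * A0 κ χ β := by
  unfold A0
  rw [mul_left_comm, ← Complex.exp_add]
  congr 2
  push_cast
  ring

theorem p11_D0 (κ χ α β : ℝ) : D0 κ (χ + α) β = Complex.exp ((α / 2 : ℝ) * Complex.I) * D0 κ χ β := by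
  unfold D0
  rw [mul_left_comm, ← Complex.exp_add]
  congr 2
  push_cast
  ring

theorem p11_AD (κ χ α β : ℝ) : (A0 κ (χ + α) β + D0 κ (χ + α) β) ^ 2 =
    Complex.exp (α * Complex.I) * (A0 κ χ β + D0 κ χ β) ^ 2 := by
  rw [p11_A0, p11_D0]
  have h : Complex.exp (α * Complex.I) = Complex.exp ((α / 2 : ℝ) * Complex.I) ^ 2 := by
    rw [← Complex.exp_nat_mul]
    congr 1
    push_cast
    ring
  rw [h]
  ring

theorem p11_encH (μ : ℝ) (R U : ℂ) (κ : ℝ) (ξ ρ : ℂ) (hρ : ‖ρ‖ = 1) :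
    encH μ (ρ * R) (ρ * U) κ (ρ * ξ) = encH μ R U κ ξ := by
  unfold encH
  have e1 : ρ * R + mb * (ρ * ξ) = ρ * (R + mb * ξ) := by ring
  have e2 : ρ * R - ma * (ρ * ξ) = ρ * (R - ma * ξ) := by ring
  rw [e1, e2, norm_mul, norm_mul, norm_mul, hρ]
  simp only [one_mul]

theorem p11_re (r p x : ℝ) : ((r : ℂ) * ((p : ℂ) + (x : ℂ) * Complex.I)).re = r * p := by
  simp

theorem p11_im (r p x : ℝ) : ((r : ℂ) * ((p : ℂ) + (x : ℂ) * Complex.I)).im = r * x := by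
  simp

theorem end_ident_pr (C : ℝ) (hC : 0 < C ∧ C ≤ 1) : ∃ μ0 : ℝ, 0 < μ0 ∧
    ∀ μ, 0 < μ → μ < μ0 → ∀ (D : Dt) (b' : ℝ), b' ∈ JJ → b' ≠ 0 → D.1 ≠ 0 → 0 < D.2.2.1 →
      unchart C (‖D.1‖, ((starRingEnd ℂ) D.1 * D.2.1).re / ‖D.1‖) ∈ CDw C →
      |D.2.2.1 - kap0 C (‖D.1‖, ((starRingEnd ℂ) D.1 * D.2.1).re / ‖D.1‖)| ≤ 1 / 10 →
      Ham (μ ^ 2) (outSt μ (revD D).1 (revD D).2.1 (revD D).2.2.1 (revD D).2.2.2 (-b')) = E0 →
      Ang (outSt μ (revD D).1 (revD D).2.1 (revD D).2.2.1 (revD D).2.2.2 (-b')) = -C →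
      revD D = rotD (Complex.arg D.1) (inD C μ
        (unchart C (‖D.1‖, ((starRingEnd ℂ) D.1 * D.2.1).re / ‖D.1‖))
        (D.2.2.2 - Complex.arg D.1) b') := by
  obtain ⟨μ0, hμ0, h⟩ := kapE_spec C hC
  refine ⟨μ0, hμ0, ?_⟩
  intro μ hμ hμ1 D b' hb hb0 hD1 hκ hX hkap hHam hAng
  obtain ⟨R, U, κ, N⟩ := D
  simp only at hD1 hκ hX hkap ⊢
  have hHam' : Ham (μ ^ 2) (outSt μ R (-U) κ (N + Real.pi) (-b')) = E0 := hHam
  have hAng' : Ang (outSt μ R (-U) κ (N + Real.pi) (-b')) = -C := hAng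
  rw [ham_outSt μ hμ _ _ _ _ _ hκ (neg_ne_zero.mpr hb0)] at hHam'
  rw [ang_outSt μ hμ _ _ _ _ _ hκ (neg_ne_zero.mpr hb0)] at hAng'
  set r : ℝ := ‖R‖ with hr
  have hr0 : 0 < r := norm_pos_iff.mpr hD1
  have hrc : (r : ℂ) ≠ 0 := by exact_mod_cast hr0.ne'
  set p : ℝ := ((starRingEnd ℂ) R * U).re / r with hp
  set α : ℝ := Complex.arg R with hα
  set ρ : ℂ := Complex.exp (α * Complex.I) with hρ
  have hρ1 : ‖ρ‖ = 1 := Complex.norm_exp_ofReal_mul_I α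
  have hρR : R = ρ * r := by
    rw [mul_comm]
    exact (Complex.norm_mul_exp_arg_mul_I R).symm
  have hρc : ρ * (starRingEnd ℂ) ρ = 1 := by
    rw [Complex.mul_conj, Complex.normSq_eq_norm_sq, hρ1]
    norm_num
  -- the angular momentum
  have him : ((starRingEnd ℂ) R * U).im = C - ma * mb * μ ^ 2 * b' := by
    have e : ((starRingEnd ℂ) R * -U).im = -((starRingEnd ℂ) R * U).im := by
      rw [mul_neg, Complex.neg_im]
    rw [e] at hAng'
    linarith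
  have hre : ((starRingEnd ℂ) R * U).re = r * p := by
    rw [hp]
    field_simp
  have hRU : (starRingEnd ℂ) R * U = r * Uenc C μ r p b' := by
    apply Complex.ext
    · rw [hre]
      exact (p11_re r p ((C - ma * mb * μ ^ 2 * b') / r)).symm
    · rw [him]
      refine Eq.trans ?_ (p11_im r p ((C - ma * mb * μ ^ 2 * b') / r)).symm
      field_simp
  have hU : U = ρ * Uenc C μ r p b' := by
    have h1 : (starRingEnd ℂ) R = (starRingEnd ℂ) ρ * r := by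
      rw [hρR, map_mul, Complex.conj_ofReal]
    rw [h1] at hRU
    have h2 : (starRingEnd ℂ) ρ * U = Uenc C μ r p b' := by
      apply mul_left_cancel₀ hrc
      rw [← hRU]
      ring
    rw [← h2, ← mul_assoc, hρc, one_mul]
  have hch : chart C (unchart C (r, p)) = (r, p) := chart_unchart C hC.1 _
  -- the energy
  have hK : IsKapI C μ (chart C (unchart C (r, p))) (N - α) b' κ := by
    rw [hch]
    refine ⟨hkap, ?_⟩
    show encH μ ((r : ℝ) : ℂ) (-Uenc C μ r p b') κ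
      (μ ^ 2 * (A0 κ (N - α + Real.pi) (-b') + D0 κ (N - α + Real.pi) (-b')) ^ 2) = E0
    rw [← p11_encH μ _ _ κ _ ρ hρ1, ← hρR]
    have e1 : ρ * -Uenc C μ r p b' = -U := by rw [hU]; ring
    have e2 : ρ * (μ ^ 2 * (A0 κ (N - α + Real.pi) (-b') + D0 κ (N - α + Real.pi) (-b')) ^ 2) =
        μ ^ 2 * (A0 κ (N + Real.pi) (-b') + D0 κ (N + Real.pi) (-b')) ^ 2 := by
      have e3 : N + Real.pi = N - α + Real.pi + α := by ring
      rw [e3, p11_AD κ (N - α + Real.pi) α (-b')]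
      ring
    rw [e1, e2]
    exact hHam'
  have hkk := (h μ hμ hμ1 _ hX (N - α) b' hb).2.2.2 κ hK
  rw [hch] at hkk
  show (R, -U, κ, N + Real.pi) = rotD α (inD C μ (unchart C (r, p)) (N - α) b')
  unfold rotD inD
  simp only [hch]
  rw [← hkk]
  refine Prod.ext ?_ (Prod.ext ?_ (Prod.ext rfl ?_))
  · exact hρR
  · show -U = ρ * -Uenc C μ r p b'
    rw [hU]
    ring
  · show N + Real.pi = N - α + Real.pi + α
    ring

theorem p11_ham_rev (M : ℝ) (y : St) : Ham M (rev y) = Ham M y := by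
  unfold Ham
  have e1 : cU (rev y) = -cU y := by
    simp only [cU, rev, u3, u2]
    ring
  have e2 : cW (rev y) = -cW y := by
    simp only [cW, rev, u3, u2]
    ring
  have e3 : cX (rev y) = cX y := rfl
  have e4 : x3 (rev y) = x3 y := rfl
  have e5 : x2 (rev y) = x2 y := rfl
  rw [e1, e2, e3, e4, e5, norm_neg, norm_neg]

theorem p11_ang_rev (y : St) : Ang (rev y) = - Ang y := by
  unfold Ang
  have e1 : cU (rev y) = -cU y := by
    simp only [cU, rev, u3, u2]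
    ring
  have e2 : cW (rev y) = -cW y := by
    simp only [cW, rev, u3, u2]
    ring
  have e3 : cX (rev y) = cX y := rfl
  have e4 : cR (rev y) = cR y := rfl
  rw [e1, e2, e3, e4, mul_neg, mul_neg, Complex.neg_im, Complex.neg_im]
  ring

theorem leg_integrals_pr (c : ℝ) (hc : 0 < c) : ∃ σ : ℝ, 0 < σ ∧ ∀ μ g, 0 < μ → μ ≤ g → g ≤ σ →
    ∀ d ∈ DD c, ∀ β ∈ JJ, β ≠ 0 →
      Ham (μ ^ 2) (innSt μ d β g) = Ham (μ ^ 2) (outSt μ d.1 d.2.1 d.2.2.1 d.2.2.2 β) ∧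
      Ang (innSt μ d β g) = Ang (outSt μ d.1 d.2.1 d.2.2.1 d.2.2.2 β) ∧
      Ham (μ ^ 2) (rev (innSt μ d β g)) = Ham (μ ^ 2) (innSt μ d β g) ∧
      Ang (rev (innSt μ d β g)) = - Ang (innSt μ d β g) := by
  obtain ⟨σ1, hσ1, h1⟩ := inner_spec c hc
  obtain ⟨σ2, hσ2, h2⟩ := leg_reach c hc
  refine ⟨min σ1 σ2, lt_min hσ1 hσ2, ?_⟩
  intro μ g hμ hg hgσ d hd β hβ hβ0
  have hμ1 : μ ≤ σ1 := (hg.trans hgσ).trans (min_le_left _ _)
  have hg2 : g ≤ σ2 := hgσ.trans (min_le_right _ _)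
  have hst := leg_start μ hμ d β (h1 μ μ hμ le_rfl hμ1 d hd β hβ).1
  have hHA : Ham (μ ^ 2) (innSt μ d β g) = Ham (μ ^ 2) (innSt μ d β μ) ∧
      Ang (innSt μ d β g) = Ang (innSt μ d β μ) := by
    have hr := h2 μ μ g hμ le_rfl hg hg2 d hd β hβ hβ0
    exact ⟨(reach_ham hr).symm, (reach_ang hr).symm⟩
  rw [hst] at hHA
  exact ⟨hHA.1, hHA.2, p11_ham_rev _ _, p11_ang_rev _⟩

end

end Pool.Agent.HS

namespace Pool.Agent.HS
open Set Filter Topology Classical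

theorem unchart_chart (C : ℝ) (hC : 0 < C) (X : Pl) : unchart C (chart C X) = X :=
  @Pool.Agent.HS.unchart_chart_pr C hC X

end Pool.Agent.HS

namespace Pool.Agent.HS
open Set Filter Topology Classical

theorem end_ident (C : ℝ) (hC : 0 < C ∧ C ≤ 1) : ∃ μ0 : ℝ, 0 < μ0 ∧
    ∀ μ, 0 < μ → μ < μ0 → ∀ (D : Dt) (b' : ℝ), b' ∈ JJ → b' ≠ 0 → D.1 ≠ 0 → 0 < D.2.2.1 →
      unchart C (‖D.1‖, ((starRingEnd ℂ) D.1 * D.2.1).re / ‖D.1‖) ∈ CDw C →
      |D.2.2.1 - kap0 C (‖D.1‖, ((starRingEnd ℂ) D.1 * D.2.1).re / ‖D.1‖)| ≤ 1 / 10 →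
      Ham (μ ^ 2) (outSt μ (revD D).1 (revD D).2.1 (revD D).2.2.1 (revD D).2.2.2 (-b')) = E0 →
      Ang (outSt μ (revD D).1 (revD D).2.1 (revD D).2.2.1 (revD D).2.2.2 (-b')) = -C →
      revD D = rotD (Complex.arg D.1) (inD C μ
        (unchart C (‖D.1‖, ((starRingEnd ℂ) D.1 * D.2.1).re / ‖D.1‖))
        (D.2.2.2 - Complex.arg D.1) b') :=
  @Pool.Agent.HS.end_ident_pr C hC

end Pool.Agent.HS

namespace Pool.Agent.HS
open Set Filter Topology Classical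

theorem leg_integrals (c : ℝ) (hc : 0 < c) : ∃ σ : ℝ, 0 < σ ∧ ∀ μ g, 0 < μ → μ ≤ g → g ≤ σ →
    ∀ d ∈ DD c, ∀ β ∈ JJ, β ≠ 0 →
      Ham (μ ^ 2) (innSt μ d β g) = Ham (μ ^ 2) (outSt μ d.1 d.2.1 d.2.2.1 d.2.2.2 β) ∧
      Ang (innSt μ d β g) = Ang (outSt μ d.1 d.2.1 d.2.2.1 d.2.2.2 β) ∧
      Ham (μ ^ 2) (rev (innSt μ d β g)) = Ham (μ ^ 2) (innSt μ d β g) ∧
      Ang (rev (innSt μ d β g)) = - Ang (innSt μ d β g) :=
  @Pool.Agent.HS.leg_integrals_pr c hc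

end Pool.Agent.HS
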