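import Pool.Agent.Lib_helper60.HSF.D_WI
import Pool.Agent.Lib_helper60.HSF.IO_K7
import Pool.Agent.Lib_helper60.HSF.IO_K2

/-! # Project HS, part I/O, block P2: uniform admissibility of the limit arcs -/

namespace Pool.Agent.HS

noncomputable section

open Set Filter Topology Classical

theorem p2_cont {α E : Type*} [PseudoMetricSpace α] [NormedAddCommGroup E] {L : ℝ} {f : α → E}
    {S : Set α} (h : Lip L f S) : ContinuousOn f S := by
  have h1 : LipschitzOnWith (Real.toNNReal L) f S := by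
    refine LipschitzOnWith.of_dist_le_mul fun x hx y hy => ?_
    rw [dist_eq_norm]
    refine (h x hx y hy).trans ?_
    exact mul_le_mul_of_nonneg_right (Real.le_coe_toNNReal L) dist_nonneg
  exact h1.continuousOn

/-- a positive function on a compact set times a small interval -/
theorem p2_tube {O : Set (ℝ × ℝ)} (hO : IsCompact O) (g : (ℝ × ℝ) × ℝ → ℝ)
    (hg : ContinuousOn g (O ×ˢ Icc (-1) 1)) (h0 : ∀ X ∈ O, 0 < g (X, 0)) :
    ∃ c ρ : ℝ, 0 < c ∧ 0 < ρ ∧ ρ ≤ 1 ∧ ∀ X ∈ O, ∀ t, |t| ≤ ρ → c ≤ g (X, t) := by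
  rcases O.eq_empty_or_nonempty with rfl | hne
  · exact ⟨1, 1, one_pos, one_pos, le_rfl, fun X hX => absurd hX (notMem_empty X)⟩
  have hz : (0 : ℝ) ∈ Icc (-1 : ℝ) 1 := ⟨by norm_num, by norm_num⟩
  have hg0 : ContinuousOn (fun X => g (X, 0)) O := by
    refine hg.comp (by fun_prop) fun X hX => ?_
    exact ⟨hX, hz⟩
  obtain ⟨Xm, hXm, hmin⟩ := hO.exists_isMinOn hne hg0
  have hm : 0 < g (Xm, 0) := h0 Xm hXm
  have huc : UniformContinuousOn g (O ×ˢ Icc (-1) 1) :=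
    (hO.prod isCompact_Icc).uniformContinuousOn_of_continuous hg
  obtain ⟨δ, hδ, hd⟩ := Metric.uniformContinuousOn_iff.1 huc (g (Xm, 0) / 2) (by positivity)
  refine ⟨g (Xm, 0) / 2, min (δ / 2) 1, by positivity, by positivity, min_le_right _ _, ?_⟩
  intro X hX t ht
  have h1 : |t| ≤ 1 := ht.trans (min_le_right _ _)
  have h2 : |t| < δ := (ht.trans (min_le_left _ _)).trans_lt (by linarith)
  have h3 : dist ((X, t) : (ℝ × ℝ) × ℝ) (X, 0) < δ := by
    rw [Prod.dist_eq, dist_self, Real.dist_eq, sub_zero]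
    exact max_lt hδ h2
  have h4 := hd (X, t) ⟨hX, abs_le.1 h1⟩ (X, 0) ⟨hX, hz⟩ h3
  have h5 : g (Xm, 0) ≤ g (X, 0) := hmin hX
  rw [Real.dist_eq, abs_lt] at h4
  linarith [h4.1]

theorem p2_DD {c c' : ℝ} (hc : 0 < c) (h : c ≤ c') : DD c' ⊆ DD c := by
  intro d hd
  obtain ⟨h1, h2, h3, h4, h5⟩ := hd
  have h6 : 1 / c' ≤ 1 / c := one_div_le_one_div_of_le hc h
  exact ⟨h.trans h1, h2.trans h6, h3.trans h6, h.trans h4, h5.trans h6⟩

theorem p2_x3 (d : Dt) : x3 (colD d) = d.1 := by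
  show d.1 + (mb : ℂ) * 0 = d.1
  ring

theorem p2_x2 (d : Dt) : x2 (colD d) = d.1 := by
  show d.1 - (ma : ℂ) * 0 = d.1
  ring

theorem p2_u3 (d : Dt) : u3 (colD d) =
    d.2.1 + mb * (d.2.2.1 * Complex.exp (d.2.2.2 * Complex.I)) := rfl

theorem p2_u2 (d : Dt) : u2 (colD d) =
    d.2.1 - ma * (d.2.2.1 * Complex.exp (d.2.2.2 * Complex.I)) := rfl

theorem p2_h3 {c : ℝ} (hc : 0 < c) :
    ContinuousOn (fun d : Dt => kh' (x3 (colD d), u3 (colD d))) (DD c) := by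
  have h1 : (fun d : Dt => kh' (x3 (colD d), u3 (colD d))) = fun d : Dt =>
      ‖d.2.1 + mb * (d.2.2.1 * Complex.exp (d.2.2.2 * Complex.I))‖ ^ 2 / 2 - 1 / ‖d.1‖ := by
    funext d
    unfold kh'
    rw [p2_x3, p2_u3]
  rw [h1]
  refine ContinuousOn.sub (Continuous.continuousOn (by fun_prop)) ?_
  refine ContinuousOn.div continuousOn_const (Continuous.continuousOn (by fun_prop)) ?_
  intro d hd h
  have h2 := hd.1
  rw [norm_eq_zero] at h
  rw [h] at h2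
  simp at h2
  linarith

theorem p2_h2 {c : ℝ} (hc : 0 < c) :
    ContinuousOn (fun d : Dt => kh' (x2 (colD d), u2 (colD d))) (DD c) := by
  have h1 : (fun d : Dt => kh' (x2 (colD d), u2 (colD d))) = fun d : Dt =>
      ‖d.2.1 - ma * (d.2.2.1 * Complex.exp (d.2.2.2 * Complex.I))‖ ^ 2 / 2 - 1 / ‖d.1‖ := by
    funext d
    unfold kh'
    rw [p2_x2, p2_u2]
  rw [h1]
  refine ContinuousOn.sub (Continuous.continuousOn (by fun_prop)) ?_
  refine ContinuousOn.div continuousOn_const (Continuous.continuousOn (by fun_prop)) ?_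
  intro d hd h
  have h2 := hd.1
  rw [norm_eq_zero] at h
  rw [h] at h2
  simp at h2
  linarith

theorem p2_L (i : Fin 2) : Continuous (fun d : Dt =>
    if i = 0 then kL (x2 (colD d), u2 (colD d)) else kL (x3 (colD d), u3 (colD d))) := by
  by_cases hi : i = 0
  · have h1 : (fun d : Dt => if i = 0 then kL (x2 (colD d), u2 (colD d))
        else kL (x3 (colD d), u3 (colD d))) = fun d : Dt =>
        ((starRingEnd ℂ) d.1 *
          (d.2.1 - ma * (d.2.2.1 * Complex.exp (d.2.2.2 * Complex.I)))).im := by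
      funext d
      rw [if_pos hi]
      unfold kL
      rw [p2_x2, p2_u2]
    rw [h1]
    refine Complex.continuous_im.comp (Continuous.mul ?_ (by fun_prop))
    exact Complex.continuous_conj.comp continuous_fst
  · have h1 : (fun d : Dt => if i = 0 then kL (x2 (colD d), u2 (colD d))
        else kL (x3 (colD d), u3 (colD d))) = fun d : Dt =>
        ((starRingEnd ℂ) d.1 *
          (d.2.1 + mb * (d.2.2.1 * Complex.exp (d.2.2.2 * Complex.I)))).im := by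
      funext d
      rw [if_neg hi]
      unfold kL
      rw [p2_x3, p2_u3]
    rw [h1]
    refine Complex.continuous_im.comp (Continuous.mul ?_ (by fun_prop))
    exact Complex.continuous_conj.comp continuous_fst

/-- P2: uniform admissibility of the limit arcs -/
theorem arc_adm_pr (i : Fin 2) (C : ℝ) (hC : 0 < C ∧ C ≤ 1) (O : Set (ℝ × ℝ)) (χ0 τ0 : ℝ × ℝ → ℝ)
    (F : ℝ × ℝ → ℝ × ℝ) (θ : ℝ × ℝ → ℝ) (h : ZArc i C O χ0 τ0 F θ)
    (hO : ∀ X ∈ O, X ∈ CD C ∧ F X ∈ CD C) :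
    ∃ c ρ T : ℝ, 0 < c ∧ 0 < ρ ∧ 0 < T ∧ (∀ X ∈ O, 4 * ρ ≤ τ0 X ∧ τ0 X + ρ ≤ T) ∧
      ∀ X ∈ O, ∀ χ, |χ - χ0 X| ≤ ρ → limD C X χ ∈ AdmD i c := by
  obtain ⟨L, c1, hL, hc1, hreg, hDD⟩ := lim_reg C hC
  obtain ⟨Lz, hz1, hz2, -, -⟩ := h.lip
  have hOw : ∀ X ∈ O, X ∈ CDw C := fun X hX => CD_sub C (hO X hX).1
  have hχ : ContinuousOn χ0 O := p2_cont hz1
  have hτ : ContinuousOn τ0 O := p2_cont hz2
  -- the data near the arc
  set D : (ℝ × ℝ) × ℝ → Dt := fun q => limD C q.1 (χ0 q.1 + q.2) with hD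
  have hDc : ContinuousOn D (O ×ˢ Icc (-1) 1) := by
    have h1 : ContinuousOn (fun q : Pl × ℝ => limD C q.1 q.2) (CDw C ×ˢ univ) :=
      p2_cont hreg.1
    refine h1.comp (f := fun q : (ℝ × ℝ) × ℝ => (q.1, χ0 q.1 + q.2)) ?_ ?_
    · refine ContinuousOn.prodMk continuousOn_fst ?_
      refine ContinuousOn.add ?_ continuousOn_snd
      exact hχ.comp continuousOn_fst fun q hq => hq.1
    · intro q hq
      exact ⟨hOw _ hq.1, mem_univ _⟩
  have hDm : MapsTo D (O ×ˢ Icc (-1) 1) (DD c1) := fun q hq => hDD _ (hOw _ hq.1) _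
  have g1 : ContinuousOn (fun q => -kh' (x3 (colD (D q)), u3 (colD (D q)))) (O ×ˢ Icc (-1) 1) :=
    ((p2_h3 hc1).comp hDc hDm).neg
  have g2 : ContinuousOn (fun q => -kh' (x2 (colD (D q)), u2 (colD (D q)))) (O ×ˢ Icc (-1) 1) :=
    ((p2_h2 hc1).comp hDc hDm).neg
  have g3 : ContinuousOn (fun q => |if i = 0 then kL (x2 (colD (D q)), u2 (colD (D q)))
      else kL (x3 (colD (D q)), u3 (colD (D q)))|) (O ×ˢ Icc (-1) 1) :=
    ((p2_L i).comp_continuousOn hDc).abs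
  obtain ⟨a1, r1, ha1, hr1, -, e1⟩ := p2_tube h.compact _ g1 fun X hX => by
    have := (h.ell X hX).1
    show 0 < -kh' (x3 (colD (limD C X (χ0 X + 0))), u3 (colD (limD C X (χ0 X + 0))))
    rw [add_zero]
    linarith
  obtain ⟨a2, r2, ha2, hr2, -, e2⟩ := p2_tube h.compact _ g2 fun X hX => by
    have := (h.ell X hX).2
    show 0 < -kh' (x2 (colD (limD C X (χ0 X + 0))), u2 (colD (limD C X (χ0 X + 0))))
    rw [add_zero]
    linarith
  obtain ⟨a3, r3, ha3, hr3, -, e3⟩ := p2_tube h.compact _ g3 fun X hX => by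
    have := h.sun X hX
    show 0 < |if i = 0 then kL (x2 (colD (limD C X (χ0 X + 0))), u2 (colD (limD C X (χ0 X + 0))))
      else kL (x3 (colD (limD C X (χ0 X + 0))), u3 (colD (limD C X (χ0 X + 0))))|
    rw [add_zero]
    exact abs_pos.2 this
  obtain ⟨a4, r4, ha4, hr4, -, e4⟩ := p2_tube h.compact (fun q => τ0 q.1)
    (hτ.comp continuousOn_fst fun q hq => hq.1) fun X hX => (h.pos X hX).1
  obtain ⟨T, hT⟩ := h.compact.bddAbove_image hτ
  set ρ : ℝ := min (min r1 r2) (min r3 (a4 / 4)) with hρ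
  have hρ0 : 0 < ρ := by positivity
  have hρ1 : ρ ≤ r1 := (min_le_left _ _).trans (min_le_left _ _)
  have hρ2 : ρ ≤ r2 := (min_le_left _ _).trans (min_le_right _ _)
  have hρ3 : ρ ≤ r3 := (min_le_right _ _).trans (min_le_left _ _)
  have hρ4 : ρ ≤ a4 / 4 := (min_le_right _ _).trans (min_le_right _ _)
  set c : ℝ := min (min a1 a2) (min a3 c1) with hc
  have hc0 : 0 < c := by positivity
  have hc1' : c ≤ a1 := (min_le_left _ _).trans (min_le_left _ _)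
  have hc2 : c ≤ a2 := (min_le_left _ _).trans (min_le_right _ _)
  have hc3 : c ≤ a3 := (min_le_right _ _).trans (min_le_left _ _)
  have hc4 : c ≤ c1 := (min_le_right _ _).trans (min_le_right _ _)
  refine ⟨c, ρ, max T 0 + ρ, hc0, hρ0, by positivity, fun X hX => ⟨?_, ?_⟩, ?_⟩
  · have h1 := e4 X hX 0 (by rw [abs_zero]; exact hr4.le)
    have h2 : a4 ≤ τ0 X := h1
    linarith
  · have h1 : τ0 X ≤ T := hT ⟨X, hX, rfl⟩
    have h2 : T ≤ max T 0 := le_max_left _ _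
    linarith
  · intro X hX χ hχX
    have h1 := e1 X hX (χ - χ0 X) (hχX.trans hρ1)
    have h2 := e2 X hX (χ - χ0 X) (hχX.trans hρ2)
    have h3 := e3 X hX (χ - χ0 X) (hχX.trans hρ3)
    have h4 : D (X, χ - χ0 X) = limD C X χ := by
      show limD C X (χ0 X + (χ - χ0 X)) = _
      congr 1
      ring
    simp only [h4] at h1 h2 h3
    refine ⟨p2_DD hc0 hc4 (hDD X (hOw X hX) χ), by linarith, by linarith, ?_⟩
    exact hc3.trans h3

end

end Pool.Agent.HS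

namespace Pool.Agent.HS
open Set Filter Topology Classical

theorem arc_adm (i : Fin 2) (C : ℝ) (hC : 0 < C ∧ C ≤ 1) (O : Set (ℝ × ℝ)) (χ0 τ0 : ℝ × ℝ → ℝ)
    (F : ℝ × ℝ → ℝ × ℝ) (θ : ℝ × ℝ → ℝ) (h : ZArc i C O χ0 τ0 F θ)
    (hO : ∀ X ∈ O, X ∈ CD C ∧ F X ∈ CD C) :
    ∃ c ρ T : ℝ, 0 < c ∧ 0 < ρ ∧ 0 < T ∧ (∀ X ∈ O, 4 * ρ ≤ τ0 X ∧ τ0 X + ρ ≤ T) ∧
      ∀ X ∈ O, ∀ χ, |χ - χ0 X| ≤ ρ → limD C X χ ∈ AdmD i c :=
  @Pool.Agent.HS.arc_adm_pr i C hC O χ0 τ0 F θ h hO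

end Pool.Agent.HS
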