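import Pool.Agent.Lib_helper60.HSF.D_WI
import Pool.Agent.Lib_helper60.HSF.A_CA
import Pool.Agent.Lib_helper60.HSF.IO_C1

/-!
# Project HS, block O4: start states in Levi-Civita coordinates
-/

namespace Pool.Agent.HS

noncomputable section

open Set Filter Topology Classical

/-! ### smoothness helpers -/

section Helpers
variable {E : Type*} [NormedAddCommGroup E] [NormedSpace ℝ E]

theorem o4_ofReal {f : E → ℝ} {x : E} (hf : ContDiffAt ℝ 2 f x) :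
    ContDiffAt ℝ 2 (fun y => (f y : ℂ)) x :=
  Complex.ofRealCLM.contDiff.contDiffAt.comp x hf

theorem o4_conj {f : E → ℂ} {x : E} (hf : ContDiffAt ℝ 2 f x) :
    ContDiffAt ℝ 2 (fun y => (starRingEnd ℂ) (f y)) x :=
  Complex.conjCLE.contDiff.contDiffAt.comp x hf

theorem o4_div {f g : E → ℂ} {x : E} (hf : ContDiffAt ℝ 2 f x) (hg : ContDiffAt ℝ 2 g x)
    (hx : g x ≠ 0) : ContDiffAt ℝ 2 (fun y => f y / g y) x := by
  simp only [div_eq_mul_inv]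
  exact hf.mul (hg.inv hx)

theorem o4_divR {f g : E → ℝ} {x : E} (hf : ContDiffAt ℝ 2 f x) (hg : ContDiffAt ℝ 2 g x)
    (hx : g x ≠ 0) : ContDiffAt ℝ 2 (fun y => f y / g y) x := by
  simp only [div_eq_mul_inv]
  exact hf.mul (hg.inv hx)

theorem o4_sqrt0 {z : ℂ} (hz : z ∈ Complex.slitPlane) :
    ContDiffAt ℝ 2 (fun w : ℂ => w ^ (1 / 2 : ℂ)) z := by
  have h1 : ContDiffAt ℝ 2 (fun w : ℂ => Complex.exp (Complex.log w * (1 / 2 : ℂ))) z := by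
    have h2 : ContDiffAt ℂ 2 (fun w : ℂ => Complex.exp (Complex.log w * (1 / 2 : ℂ))) z :=
      Complex.contDiff_exp.contDiffAt.comp z ((Complex.contDiffAt_log hz).mul contDiffAt_const)
    exact h2.restrict_scalars ℝ
  refine h1.congr_of_eventuallyEq ?_
  have h3 : ∀ᶠ w in 𝓝 z, w ∈ Complex.slitPlane := Complex.isOpen_slitPlane.mem_nhds hz
  filter_upwards [h3] with w hw
  rw [Complex.cpow_def_of_ne_zero (Complex.slitPlane_ne_zero hw)]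

theorem o4_sqrt {f : E → ℂ} {x : E} (hf : ContDiffAt ℝ 2 f x) (hx : 0 < (f x).re) :
    ContDiffAt ℝ 2 (fun y => (f y) ^ (1 / 2 : ℂ)) x :=
  (o4_sqrt0 (Or.inl hx)).comp x hf

theorem o4_norm {f : E → ℂ} {x : E} (hf : ContDiffAt ℝ 2 f x) (hx : f x ≠ 0) :
    ContDiffAt ℝ 2 (fun y => ‖f y‖) x := hf.norm ℝ hx

theorem o4_normSq {f : E → ℂ} {x : E} (hf : ContDiffAt ℝ 2 f x) :
    ContDiffAt ℝ 2 (fun y => ‖f y‖ ^ 2) x := hf.norm_sq ℝ

end Helpers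

theorem o4_ne {z : ℂ} (h : 0 < z.re) : z ≠ 0 := by
  rintro rfl
  simp at h

theorem o4_mab : (ma : ℝ) + mb = 1 := by unfold ma mb; norm_num

/-! ### `stLC` and `toLC` -/

theorem stLC_toLC_pr (i : Fin 2) {M g : ℝ} {V : ℂ × ℂ × ℂ × ℂ × ℝ} (hg : 0 < g)
    (hh : 0 ≤ V.2.2.2.2) (hAB : V.1 + V.2.1 ≠ 0)
    (hcon : V.2.2.2.2 * (‖g * (V.1 - V.2.1)‖ ^ 2 - ‖g * (V.1 + V.2.1)‖ ^ 2) = M) :
    stLC i M g V = toLC i M (ofUV V.2.2.1 V.2.2.2.1 (g * (V.1 + V.2.1)) (g * (V.1 - V.2.1))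
      V.2.2.2.2) := by
  obtain ⟨A, B, R, U, h⟩ := V
  simp only at hh hAB hcon ⊢
  have hgc : (g : ℂ) ≠ 0 := by exact_mod_cast hg.ne'
  have hconj : (starRingEnd ℂ) (A + B) ≠ 0 := by
    rwa [Ne, map_eq_zero]
  set w : ℂ := 2 * Real.sqrt (h / 2) * (A - B) / (starRingEnd ℂ) (A + B) with hw
  have hw2 : 2 * (Real.sqrt (h / 2) : ℂ) * (g * (A - B)) / (starRingEnd ℂ) (g * (A + B)) = w := by
    rw [hw, map_mul, Complex.conj_ofReal]
    field_simp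
  have habc : (ma : ℂ) + mb = 1 := by exact_mod_cast o4_mab
  set ξ : ℂ := (g * (A + B)) ^ 2 with hξ
  have hξn : ‖ξ‖ = ‖(g : ℂ) * (A + B)‖ ^ 2 := by rw [hξ, norm_pow]
  have hu : (g : ℂ) * (A + B) ≠ 0 := mul_ne_zero hgc hAB
  have hun : 0 < ‖(g : ℂ) * (A + B)‖ := norm_pos_iff.2 hu
  have hE : ‖w‖ ^ 2 / 2 - M / ‖ξ‖ = h := by
    rw [← hw2, hξn, ← hcon]
    simp only [norm_div, norm_mul, Complex.norm_conj, Complex.norm_real, Real.norm_eq_abs,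
      Complex.norm_ofNat]
    rw [abs_of_nonneg (Real.sqrt_nonneg _), abs_of_pos hg]
    simp only [norm_mul, Complex.norm_real, Real.norm_eq_abs, abs_of_pos hg] at hun
    have h1 : ‖A + B‖ ≠ 0 := by
      have := norm_pos_iff.2 hAB
      exact this.ne'
    have hs : Real.sqrt (h / 2) ^ 2 = h / 2 := Real.sq_sqrt (by linarith)
    field_simp
    rw [hs]
    ring
  have e3 : x3 (ofUV R U (g * (A + B)) (g * (A - B)) h) = R + mb * ξ := by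
    simp only [x3, ofUV, ofRU, hξ]
  have e2 : x2 (ofUV R U (g * (A + B)) (g * (A - B)) h) = R - ma * ξ := by
    simp only [x2, ofUV, ofRU, hξ]
  have e3' : u3 (ofUV R U (g * (A + B)) (g * (A - B)) h) = U + mb * w := by
    simp only [u3, ofUV, ofRU, hw2]
  have e2' : u2 (ofUV R U (g * (A + B)) (g * (A - B)) h) = U - ma * w := by
    simp only [u2, ofUV, ofRU, hw2]
  have eU : cU (ofUV R U (g * (A + B)) (g * (A - B)) h) = U := by
    unfold cU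
    rw [e3', e2']
    linear_combination U * habc
  have eW : cW (ofUV R U (g * (A + B)) (g * (A - B)) h) = w := by
    unfold cW
    rw [e3', e2']
    linear_combination w * habc
  have eX : cX (ofUV R U (g * (A + B)) (g * (A - B)) h) = ξ := by
    unfold cX
    rw [e3, e2]
    linear_combination ξ * habc
  have eH : Ham M (ofUV R U (g * (A + B)) (g * (A - B)) h) =
      (1 + M) * ‖U‖ ^ 2 / 2 + ma * mb * h - ma / ‖R + mb * ξ‖ - mb / ‖R - ma * ξ‖ := by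
    unfold Ham
    rw [eU, eW, eX, e3, e2, hE]
  unfold toLC stLC
  simp only [e3, e2, e3', e2', eH]
  rfl

theorem o4_D {c : ℝ} (hc : 0 < c) {d : Dt} (hd : d ∈ DD c) : 0 < d.1.re ∧ 0 < d.2.2.1 :=
  ⟨lt_of_lt_of_le hc hd.1, lt_of_lt_of_le hc hd.2.2.2.1⟩

theorem o4_amp {κ β : ℝ} (hκ : 0 < κ) : 0 < amp κ β := by
  unfold amp
  have : 0 < 1 + κ ^ 2 * β ^ 2 := by positivity
  positivity

theorem stLC_lim_pr (i : Fin 2) (c : ℝ) (hc : 0 < c) (d : Dt) (hd : d ∈ DD c) (β : ℝ) :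
    stLC i 0 0 (A0 d.2.2.1 d.2.2.2 β, 0, d.1, d.2.1, d.2.2.1 ^ 2 / 2) = toLC i 0 (colD d) := by
  obtain ⟨hR, hκ⟩ := o4_D hc hd
  obtain ⟨R, U, κ, χ⟩ := d
  simp only at hR hκ ⊢
  have habc : (ma : ℂ) + mb = 1 := by exact_mod_cast o4_mab
  have hamp := o4_amp (β := β) hκ
  have hs : Real.sqrt (κ ^ 2 / 2 / 2) = κ / 2 := by
    rw [show κ ^ 2 / 2 / 2 = (κ / 2) ^ 2 by ring]
    exact Real.sqrt_sq (by positivity)
  have hconj : (starRingEnd ℂ) (A0 κ χ β) = amp κ β * Complex.exp (-((χ / 2 : ℝ) * Complex.I)) := by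
    unfold A0
    rw [map_mul, Complex.conj_ofReal, ← Complex.exp_conj, map_mul, Complex.conj_ofReal,
      Complex.conj_I]
    congr 2
    ring
  have hw : 2 * (Real.sqrt (κ ^ 2 / 2 / 2) : ℂ) * (A0 κ χ β - 0) /
      (starRingEnd ℂ) (A0 κ χ β + 0) = κ * Complex.exp (χ * Complex.I) := by
    rw [hs, add_zero, sub_zero, hconj]
    unfold A0
    have h1 : (amp κ β : ℂ) ≠ 0 := by exact_mod_cast hamp.ne'
    rw [Complex.exp_neg]
    have h2 : Complex.exp ((χ / 2 : ℝ) * Complex.I) ≠ 0 := Complex.exp_ne_zero _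
    have h3 : Complex.exp (χ * Complex.I) = Complex.exp ((χ / 2 : ℝ) * Complex.I) *
        Complex.exp ((χ / 2 : ℝ) * Complex.I) := by
      rw [← Complex.exp_add]
      congr 1
      push_cast
      ring
    rw [h3]
    push_cast
    field_simp
  set w : ℂ := κ * Complex.exp (χ * Complex.I) with hwd
  have hwn : ‖w‖ ^ 2 = κ ^ 2 := by
    rw [hwd, norm_mul, Complex.norm_exp_ofReal_mul_I, mul_one, Complex.norm_real,
      Real.norm_eq_abs, sq_abs]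
  have e3 : x3 (colD (R, U, κ, χ)) = R := by
    simp only [x3, colD, ofRU]; ring
  have e2 : x2 (colD (R, U, κ, χ)) = R := by
    simp only [x2, colD, ofRU]; ring
  have e3' : u3 (colD (R, U, κ, χ)) = U + mb * w := by
    simp only [u3, colD, ofRU, hwd]
  have e2' : u2 (colD (R, U, κ, χ)) = U - ma * w := by
    simp only [u2, colD, ofRU, hwd]
  have eU : cU (colD (R, U, κ, χ)) = U := by
    unfold cU
    rw [e3', e2']
    linear_combination U * habc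
  have eW : cW (colD (R, U, κ, χ)) = w := by
    unfold cW
    rw [e3', e2']
    linear_combination w * habc
  have eH : Ham 0 (colD (R, U, κ, χ)) =
      (1 + 0) * ‖U‖ ^ 2 / 2 + ma * mb * (κ ^ 2 / 2) - ma / ‖R‖ - mb / ‖R‖ := by
    unfold Ham
    rw [eU, eW, e3, e2, hwn]
    simp
  unfold toLC stLC
  simp only [hw, e3, e2, e3', e2', eH]
  simp

/-! ### regularity of `stLC` -/

theorem o4_smooth (i : Fin 2) (p : ℝ × ℝ × (ℂ × ℂ × ℂ × ℂ × ℝ))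
    (h1 : p.2.2.1 + p.2.2.2.1 ≠ 0)
    (h2 : 0 < (p.2.2.2.2.1 + mb * (((p.2.1 : ℝ) : ℂ) * (p.2.2.1 + p.2.2.2.1)) ^ 2).re)
    (h3 : 0 < (p.2.2.2.2.1 - ma * (((p.2.1 : ℝ) : ℂ) * (p.2.2.1 + p.2.2.2.1)) ^ 2).re)
    (h4 : 0 < p.2.2.2.2.2.2) :
    ContDiffAt ℝ 2 (fun p : ℝ × ℝ × (ℂ × ℂ × ℂ × ℂ × ℝ) => stLC i p.1 p.2.1 p.2.2) p := by
  have hA : ContDiffAt ℝ 2 (fun p : ℝ × ℝ × (ℂ × ℂ × ℂ × ℂ × ℝ) => p.2.2.1) p := by fun_prop
  have hB : ContDiffAt ℝ 2 (fun p : ℝ × ℝ × (ℂ × ℂ × ℂ × ℂ × ℝ) => p.2.2.2.1) p := by fun_prop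
  have hR : ContDiffAt ℝ 2 (fun p : ℝ × ℝ × (ℂ × ℂ × ℂ × ℂ × ℝ) => p.2.2.2.2.1) p := by fun_prop
  have hU : ContDiffAt ℝ 2 (fun p : ℝ × ℝ × (ℂ × ℂ × ℂ × ℂ × ℝ) => p.2.2.2.2.2.1) p := by fun_prop
  have hh : ContDiffAt ℝ 2 (fun p : ℝ × ℝ × (ℂ × ℂ × ℂ × ℂ × ℝ) => p.2.2.2.2.2.2) p := by fun_prop
  have hM : ContDiffAt ℝ 2 (fun p : ℝ × ℝ × (ℂ × ℂ × ℂ × ℂ × ℝ) => p.1) p := by fun_prop
  have hg : ContDiffAt ℝ 2 (fun p : ℝ × ℝ × (ℂ × ℂ × ℂ × ℂ × ℝ) => ((p.2.1 : ℝ) : ℂ)) p :=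
    o4_ofReal (by fun_prop)
  have hξ : ContDiffAt ℝ 2 (fun p : ℝ × ℝ × (ℂ × ℂ × ℂ × ℂ × ℝ) =>
      (((p.2.1 : ℝ) : ℂ) * (p.2.2.1 + p.2.2.2.1)) ^ 2) p := (hg.mul (hA.add hB)).pow 2
  have hw : ContDiffAt ℝ 2 (fun p : ℝ × ℝ × (ℂ × ℂ × ℂ × ℂ × ℝ) =>
      2 * ((Real.sqrt (p.2.2.2.2.2.2 / 2) : ℝ) : ℂ) * (p.2.2.1 - p.2.2.2.1) /
        (starRingEnd ℂ) (p.2.2.1 + p.2.2.2.1)) p := by
    refine o4_div ?_ (o4_conj (hA.add hB)) (by rwa [Ne, map_eq_zero])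
    refine (contDiffAt_const.mul (o4_ofReal ?_)).mul (hA.sub hB)
    exact (hh.div_const 2).sqrt (by positivity)
  have hx3 : ContDiffAt ℝ 2 (fun p : ℝ × ℝ × (ℂ × ℂ × ℂ × ℂ × ℝ) =>
      p.2.2.2.2.1 + mb * (((p.2.1 : ℝ) : ℂ) * (p.2.2.1 + p.2.2.2.1)) ^ 2) p :=
    hR.add (contDiffAt_const.mul hξ)
  have hx2 : ContDiffAt ℝ 2 (fun p : ℝ × ℝ × (ℂ × ℂ × ℂ × ℂ × ℝ) =>
      p.2.2.2.2.1 - ma * (((p.2.1 : ℝ) : ℂ) * (p.2.2.1 + p.2.2.2.1)) ^ 2) p :=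
    hR.sub (contDiffAt_const.mul hξ)
  have hu3 := hU.add ((contDiffAt_const (c := (mb : ℂ))).mul hw)
  have hu2 := hU.sub ((contDiffAt_const (c := (ma : ℂ))).mul hw)
  have hE : ContDiffAt ℝ 2 (fun p : ℝ × ℝ × (ℂ × ℂ × ℂ × ℂ × ℝ) =>
      (1 + p.1) * ‖p.2.2.2.2.2.1‖ ^ 2 / 2 + ma * mb * p.2.2.2.2.2.2 -
        ma / ‖p.2.2.2.2.1 + mb * (((p.2.1 : ℝ) : ℂ) * (p.2.2.1 + p.2.2.2.1)) ^ 2‖ -
        mb / ‖p.2.2.2.2.1 - ma * (((p.2.1 : ℝ) : ℂ) * (p.2.2.1 + p.2.2.2.1)) ^ 2‖) p := by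
    refine ContDiffAt.sub (ContDiffAt.sub (ContDiffAt.add ?_ (contDiffAt_const.mul hh)) ?_) ?_
    · exact ((contDiffAt_const.add hM).mul (o4_normSq hU)).div_const 2
    · exact o4_divR contDiffAt_const (o4_norm hx3 (o4_ne h2)) (norm_ne_zero_iff.2 (o4_ne h2))
    · exact o4_divR contDiffAt_const (o4_norm hx2 (o4_ne h3)) (norm_ne_zero_iff.2 (o4_ne h3))
  by_cases hi : i = 0
  · have hζ := o4_sqrt hx3 h2
    have := hζ.prodMk (((contDiffAt_const (c := (2 : ℂ))).mul (o4_conj hζ)).mul hu3 |>.prodMk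
      (hx2.prodMk (hu2.prodMk hE)))
    simpa only [stLC, if_pos hi] using this
  · have hζ := o4_sqrt hx2 h3
    have := hζ.prodMk (((contDiffAt_const (c := (2 : ℂ))).mul (o4_conj hζ)).mul hu2 |>.prodMk
      (hx3.prodMk (hu3.prodMk hE)))
    simpa only [stLC, if_neg hi] using this

theorem stLC_reg_pr (i : Fin 2) (c C : ℝ) (hc : 0 < c) (hC : 1 ≤ C) : ∃ σ L : ℝ, 0 < σ ∧ 0 ≤ L ∧
    Reg L (fun p : ℝ × ℝ × (ℂ × ℂ × ℂ × ℂ × ℝ) => stLC i p.1 p.2.1 p.2.2)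
      {p | 0 ≤ p.1 ∧ p.1 ≤ 1 ∧ 0 ≤ p.2.1 ∧ p.2.1 ≤ σ ∧ 1 / C ≤ ‖p.2.2.1‖ ∧ ‖p.2.2.1‖ ≤ C ∧
        ‖p.2.2.2.1‖ ≤ 1 / (2 * C) ∧ c ≤ p.2.2.2.2.1.re ∧ ‖p.2.2.2.2.1‖ ≤ C ∧
        ‖p.2.2.2.2.2.1‖ ≤ C ∧ c ≤ p.2.2.2.2.2.2 ∧ p.2.2.2.2.2.2 ≤ C} := by
  set σ := min 1 (c / (8 * C ^ 2)) with hσd
  have hC0 : 0 < C := by linarith
  have hσ : 0 < σ := by
    rw [hσd]
    exact lt_min one_pos (by positivity)
  have hσ1 : σ ≤ 1 := min_le_left _ _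
  have hσ2 : σ * (8 * C ^ 2) ≤ c := by
    have : σ ≤ c / (8 * C ^ 2) := min_le_right _ _
    rwa [le_div_iff₀ (by positivity)] at this
  set U : Set (ℝ × ℝ × (ℂ × ℂ × ℂ × ℂ × ℝ)) := {p | p.2.2.1 + p.2.2.2.1 ≠ 0 ∧
    0 < (p.2.2.2.2.1 + mb * (((p.2.1 : ℝ) : ℂ) * (p.2.2.1 + p.2.2.2.1)) ^ 2).re ∧
    0 < (p.2.2.2.2.1 - ma * (((p.2.1 : ℝ) : ℂ) * (p.2.2.1 + p.2.2.2.1)) ^ 2).re ∧
    0 < p.2.2.2.2.2.2} with hUd
  have c1 : Continuous (fun p : ℝ × ℝ × (ℂ × ℂ × ℂ × ℂ × ℝ) => p.1) := by fun_prop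
  have c2 : Continuous (fun p : ℝ × ℝ × (ℂ × ℂ × ℂ × ℂ × ℝ) => p.2.1) := by fun_prop
  have c3 : Continuous (fun p : ℝ × ℝ × (ℂ × ℂ × ℂ × ℂ × ℝ) => p.2.2.1) := by fun_prop
  have c4 : Continuous (fun p : ℝ × ℝ × (ℂ × ℂ × ℂ × ℂ × ℝ) => p.2.2.2.1) := by fun_prop
  have c5 : Continuous (fun p : ℝ × ℝ × (ℂ × ℂ × ℂ × ℂ × ℝ) => p.2.2.2.2.1) := by fun_prop
  have c6 : Continuous (fun p : ℝ × ℝ × (ℂ × ℂ × ℂ × ℂ × ℝ) => p.2.2.2.2.2.1) := by fun_prop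
  have c7 : Continuous (fun p : ℝ × ℝ × (ℂ × ℂ × ℂ × ℂ × ℝ) => p.2.2.2.2.2.2) := by fun_prop
  have c8 : Continuous (fun p : ℝ × ℝ × (ℂ × ℂ × ℂ × ℂ × ℝ) =>
      (((p.2.1 : ℝ) : ℂ) * (p.2.2.1 + p.2.2.2.1)) ^ 2) :=
    ((Complex.continuous_ofReal.comp c2).mul (c3.add c4)).pow 2
  have hUo : IsOpen U :=
    (isOpen_ne_fun (c3.add c4) continuous_const).inter
      ((isOpen_lt continuous_const (Complex.continuous_re.comp (c5.add (continuous_const.mul c8)))).inter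
      ((isOpen_lt continuous_const (Complex.continuous_re.comp (c5.sub (continuous_const.mul c8)))).inter
      (isOpen_lt continuous_const c7)))
  have hcd : ContDiffOn ℝ 2 (fun p : ℝ × ℝ × (ℂ × ℂ × ℂ × ℂ × ℝ) => stLC i p.1 p.2.1 p.2.2) U :=
    fun p hp => (o4_smooth i p hp.1 hp.2.1 hp.2.2.1 hp.2.2.2).contDiffWithinAt
  set K : Set (ℝ × ℝ × (ℂ × ℂ × ℂ × ℂ × ℝ)) :=
    {p | 0 ≤ p.1 ∧ p.1 ≤ 1 ∧ 0 ≤ p.2.1 ∧ p.2.1 ≤ σ ∧ 1 / C ≤ ‖p.2.2.1‖ ∧ ‖p.2.2.1‖ ≤ C ∧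
        ‖p.2.2.2.1‖ ≤ 1 / (2 * C) ∧ c ≤ p.2.2.2.2.1.re ∧ ‖p.2.2.2.2.1‖ ≤ C ∧
        ‖p.2.2.2.2.2.1‖ ≤ C ∧ c ≤ p.2.2.2.2.2.2 ∧ p.2.2.2.2.2.2 ≤ C} with hKd
  have hKclosed : IsClosed K :=
    (isClosed_le continuous_const c1).inter ((isClosed_le c1 continuous_const).inter
    ((isClosed_le continuous_const c2).inter ((isClosed_le c2 continuous_const).inter
    ((isClosed_le continuous_const c3.norm).inter ((isClosed_le c3.norm continuous_const).inter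
    ((isClosed_le c4.norm continuous_const).inter
    ((isClosed_le continuous_const (Complex.continuous_re.comp c5)).inter
    ((isClosed_le c5.norm continuous_const).inter ((isClosed_le c6.norm continuous_const).inter
    ((isClosed_le continuous_const c7).inter (isClosed_le c7 continuous_const)))))))))))
  have hKc : IsCompact K := by
    have hK0 : IsCompact (Icc (0:ℝ) 1 ×ˢ (Icc (0:ℝ) σ ×ˢ (Metric.closedBall (0:ℂ) C ×ˢ
        (Metric.closedBall (0:ℂ) (1 / (2 * C)) ×ˢ (Metric.closedBall (0:ℂ) C ×ˢ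
        (Metric.closedBall (0:ℂ) C ×ˢ Icc c C)))))) :=
      isCompact_Icc.prod (isCompact_Icc.prod
      ((isCompact_closedBall (0 : ℂ) C).prod ((isCompact_closedBall (0 : ℂ) (1 / (2 * C))).prod
      ((isCompact_closedBall (0 : ℂ) C).prod ((isCompact_closedBall (0 : ℂ) C).prod
      isCompact_Icc)))))
    refine hK0.of_isClosed_subset hKclosed ?_
    rintro p ⟨h1, h2, h3, h4, -, h6, h7, -, h9, h10, h11, h12⟩
    simp only [mem_prod, mem_Icc, mem_closedBall_zero_iff]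
    exact ⟨⟨h1, h2⟩, ⟨h3, h4⟩, h6, h7, h9, h10, h11, h12⟩
  have hKU : K ⊆ U := by
    rintro p ⟨-, -, h3, h4, h5, h6, h7, h8, -, -, h11, -⟩
    have hs1 : ‖p.2.2.1 + p.2.2.2.1‖ ≤ 2 * C := by
      have h := norm_add_le p.2.2.1 p.2.2.2.1
      have h' : 1 / (2 * C) ≤ C := by
        rw [div_le_iff₀ (by positivity)]
        nlinarith
      linarith
    have hξ : ‖(((p.2.1 : ℝ) : ℂ) * (p.2.2.1 + p.2.2.2.1)) ^ 2‖ ≤ c / 2 := by
      rw [norm_pow, norm_mul, Complex.norm_real, Real.norm_eq_abs, abs_of_nonneg h3, mul_pow]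
      have h' : p.2.1 ^ 2 ≤ σ := by nlinarith
      have h'' : ‖p.2.2.1 + p.2.2.2.1‖ ^ 2 ≤ (2 * C) ^ 2 :=
        pow_le_pow_left₀ (norm_nonneg _) hs1 2
      calc p.2.1 ^ 2 * ‖p.2.2.1 + p.2.2.2.1‖ ^ 2 ≤ σ * (2 * C) ^ 2 :=
            mul_le_mul h' h'' (by positivity) hσ.le
        _ ≤ c / 2 := by linarith
    have hξre := (abs_le.1 ((Complex.abs_re_le_norm _).trans hξ))
    set ξ := (((p.2.1 : ℝ) : ℂ) * (p.2.2.1 + p.2.2.2.1)) ^ 2 with hξd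
    refine ⟨?_, ?_, ?_, by linarith⟩
    · intro h0
      have h' : p.2.2.1 = - p.2.2.2.1 := eq_neg_of_add_eq_zero_left h0
      have h'' : ‖p.2.2.1‖ = ‖p.2.2.2.1‖ := by rw [h', norm_neg]
      have h3' : 1 / (2 * C) < 1 / C := by
        apply one_div_lt_one_div_of_lt hC0
        linarith
      linarith
    · rw [Complex.add_re, Complex.re_ofReal_mul]
      have : (mb : ℝ) = 3 / 4 := rfl
      rw [this]
      linarith [hξre.1]
    · rw [Complex.sub_re, Complex.re_ofReal_mul]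
      have : (ma : ℝ) = 1 / 4 := rfl
      rw [this]
      linarith [hξre.2]
  obtain ⟨L, hL, hR⟩ := reg_of_compact hUo hcd hKc hKU
  exact ⟨σ, L, hσ, hL, hR⟩

/-! ### regularity of the collision states -/

/-- the smooth part of `col_reg` -/
def o4_col (i : Fin 2) (q : ℂ × ℂ × ℂ) : LCS := toLC i 0 (ofRU q.1 q.2.1 0 q.2.2)

theorem o4_col_eq (i : Fin 2) (q : ℂ × ℂ × ℂ) : o4_col i q =
    (q.1 ^ (1 / 2 : ℂ), 2 * (starRingEnd ℂ) (q.1 ^ (1 / 2 : ℂ)) *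
      (if i = 0 then q.2.1 + mb * q.2.2 else q.2.1 - ma * q.2.2), q.1,
      (if i = 0 then q.2.1 - ma * q.2.2 else q.2.1 + mb * q.2.2),
      ‖q.2.1‖ ^ 2 / 2 + ma * mb * (‖q.2.2‖ ^ 2 / 2) - ma / ‖q.1‖ - mb / ‖q.1‖) := by
  have habc : (ma : ℂ) + mb = 1 := by exact_mod_cast o4_mab
  have e3 : x3 (ofRU q.1 q.2.1 0 q.2.2) = q.1 := by
    simp only [x3, ofRU]; ring
  have e2 : x2 (ofRU q.1 q.2.1 0 q.2.2) = q.1 := by
    simp only [x2, ofRU]; ring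
  have e3' : u3 (ofRU q.1 q.2.1 0 q.2.2) = q.2.1 + mb * q.2.2 := by
    simp only [u3, ofRU]
  have e2' : u2 (ofRU q.1 q.2.1 0 q.2.2) = q.2.1 - ma * q.2.2 := by
    simp only [u2, ofRU]
  have eU : cU (ofRU q.1 q.2.1 0 q.2.2) = q.2.1 := by
    unfold cU
    rw [e3', e2']
    linear_combination q.2.1 * habc
  have eW : cW (ofRU q.1 q.2.1 0 q.2.2) = q.2.2 := by
    unfold cW
    rw [e3', e2']
    linear_combination q.2.2 * habc
  have eH : Ham 0 (ofRU q.1 q.2.1 0 q.2.2) =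
      ‖q.2.1‖ ^ 2 / 2 + ma * mb * (‖q.2.2‖ ^ 2 / 2) - ma / ‖q.1‖ - mb / ‖q.1‖ := by
    unfold Ham
    rw [eU, eW, e3, e2]
    simp
  unfold o4_col toLC
  simp only [e3, e2, e3', e2', eH, ite_self]

theorem o4_col_smooth (i : Fin 2) (q : ℂ × ℂ × ℂ) (hq : 0 < q.1.re) :
    ContDiffAt ℝ 2 (o4_col i) q := by
  have hfun : o4_col i = fun q : ℂ × ℂ × ℂ => (q.1 ^ (1 / 2 : ℂ),
      2 * (starRingEnd ℂ) (q.1 ^ (1 / 2 : ℂ)) *
      (if i = 0 then q.2.1 + mb * q.2.2 else q.2.1 - ma * q.2.2), q.1,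
      (if i = 0 then q.2.1 - ma * q.2.2 else q.2.1 + mb * q.2.2),
      ‖q.2.1‖ ^ 2 / 2 + ma * mb * (‖q.2.2‖ ^ 2 / 2) - ma / ‖q.1‖ - mb / ‖q.1‖) := by
    funext q
    exact o4_col_eq i q
  have hR : ContDiffAt ℝ 2 (fun q : ℂ × ℂ × ℂ => q.1) q := by fun_prop
  have hU : ContDiffAt ℝ 2 (fun q : ℂ × ℂ × ℂ => q.2.1) q := by fun_prop
  have hw : ContDiffAt ℝ 2 (fun q : ℂ × ℂ × ℂ => q.2.2) q := by fun_prop
  have hζ := o4_sqrt hR hq
  have hu3 := hU.add ((contDiffAt_const (c := (mb : ℂ))).mul hw)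
  have hu2 := hU.sub ((contDiffAt_const (c := (ma : ℂ))).mul hw)
  have hE : ContDiffAt ℝ 2 (fun q : ℂ × ℂ × ℂ =>
      ‖q.2.1‖ ^ 2 / 2 + ma * mb * (‖q.2.2‖ ^ 2 / 2) - ma / ‖q.1‖ - mb / ‖q.1‖) q := by
    refine ContDiffAt.sub (ContDiffAt.sub (ContDiffAt.add ?_ (contDiffAt_const.mul ?_)) ?_) ?_
    · exact (o4_normSq hU).div_const 2
    · exact (o4_normSq hw).div_const 2
    · exact o4_divR contDiffAt_const (o4_norm hR (o4_ne hq)) (norm_ne_zero_iff.2 (o4_ne hq))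
    · exact o4_divR contDiffAt_const (o4_norm hR (o4_ne hq)) (norm_ne_zero_iff.2 (o4_ne hq))
  rw [hfun]
  by_cases hi : i = 0
  · simp only [if_pos hi]
    exact hζ.prodMk ((((contDiffAt_const (c := (2 : ℂ))).mul (o4_conj hζ)).mul hu3).prodMk
      (hR.prodMk (hu2.prodMk hE)))
  · simp only [if_neg hi]
    exact hζ.prodMk ((((contDiffAt_const (c := (2 : ℂ))).mul (o4_conj hζ)).mul hu2).prodMk
      (hR.prodMk (hu3.prodMk hE)))

theorem o4_reg_fst {L : ℝ} (hL : 1 ≤ L) {E F : Type*} [NormedAddCommGroup E]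
    [NormedAddCommGroup F] (f : E → F) (S : Set E)
    (hf : ∀ x y, f x - f y = f (x - y)) (hf' : ∀ x y, f x + f y = f (x + y))
    (hn : ∀ x, ‖f x‖ ≤ ‖x‖) : Reg L f S := by
  refine ⟨fun p _ q _ => ?_, fun x _ y _ x' _ y' _ => ?_⟩
  · rw [hf, dist_eq_norm]
    refine (hn _).trans ?_
    nlinarith [norm_nonneg (p - q)]
  · rw [hf, hf, hf']
    refine (hn _).trans ?_
    have h1 : 0 ≤ L * (‖x - x'‖ + ‖y - y'‖) * ‖x' - y'‖ := by positivity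
    nlinarith [norm_nonneg (x - y - x' + y')]

theorem col_reg_pr (i : Fin 2) (c : ℝ) (hc : 0 < c) : ∃ L : ℝ, 0 ≤ L ∧
    Reg L (fun d => toLC i 0 (colD d)) (DD c) := by
  -- the polar map
  have hpol : ∃ L1 : ℝ, 0 ≤ L1 ∧ Reg L1 (fun d : Dt => (d.1, d.2.1,
      (d.2.2.1 : ℂ) * Complex.exp (d.2.2.2 * Complex.I))) (DD c) := by
    set C1 := 1 / c + 1 with hC1
    have hC10 : 0 < C1 := by positivity
    refine ⟨2 * C1 + 1, by positivity, ?_⟩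
    have hcpos : 0 < 1 / c := by positivity
    have hR1 : Reg (2 * C1 + 1) (fun d : Dt => d.1) (DD c) :=
      o4_reg_fst (by linarith) _ _ (fun _ _ => rfl) (fun _ _ => rfl) (fun x => norm_fst_le x)
    have hR2 : Reg (2 * C1 + 1) (fun d : Dt => d.2.1) (DD c) :=
      o4_reg_fst (by linarith) _ _ (fun _ _ => rfl) (fun _ _ => rfl)
        (fun x => (norm_fst_le x.2).trans (norm_snd_le x))
    have hR3 : Reg (2 * C1 + 1) (fun d : Dt =>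
        (d.2.2.1 : ℂ) * Complex.exp (d.2.2.2 * Complex.I)) (DD c) := by
      have hκ : ∀ x : Dt, |x.2.2.1| ≤ ‖x‖ := fun x =>
        ((norm_fst_le x.2.2).trans (norm_snd_le x.2)).trans (norm_snd_le x)
      have hχ : ∀ x : Dt, |x.2.2.2| ≤ ‖x‖ := fun x =>
        ((norm_snd_le x.2.2).trans (norm_snd_le x.2)).trans (norm_snd_le x)
      have hb : ∀ x ∈ DD c, |x.2.2.1| ≤ C1 := fun x hx => by
        rw [abs_of_pos (lt_of_lt_of_le hc hx.2.2.2.1)]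
        have := hx.2.2.2.2
        linarith
      refine ⟨fun x hx y hy => ?_, fun x hx y hy x' hx' y' hy' => ?_⟩
      · have h1 := reg_cexp.1 x.2.2.2 (mem_univ _) y.2.2.2 (mem_univ _)
        simp only [one_mul, Real.dist_eq] at h1
        have h2 := hχ (x - y)
        have h3 := hκ (x - y)
        simp only [Prod.snd_sub, Prod.fst_sub] at h2 h3
        have e : (x.2.2.1 : ℂ) * Complex.exp (x.2.2.2 * Complex.I) -
            (y.2.2.1 : ℂ) * Complex.exp (y.2.2.2 * Complex.I) =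
            ((x.2.2.1 - y.2.2.1 : ℝ) : ℂ) * Complex.exp (x.2.2.2 * Complex.I) +
            (y.2.2.1 : ℂ) * (Complex.exp (x.2.2.2 * Complex.I) -
              Complex.exp (y.2.2.2 * Complex.I)) := by
          push_cast; ring
        rw [e, dist_eq_norm]
        refine (norm_add_le _ _).trans ?_
        rw [norm_mul, norm_mul, Complex.norm_exp_ofReal_mul_I, mul_one, Complex.norm_real,
          Complex.norm_real, Real.norm_eq_abs, Real.norm_eq_abs]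
        have h4 := hb y hy
        have h5 : |y.2.2.1| * ‖Complex.exp (x.2.2.2 * Complex.I) -
            Complex.exp (y.2.2.2 * Complex.I)‖ ≤ C1 * ‖x - y‖ :=
          mul_le_mul h4 (h1.trans h2) (norm_nonneg _) hC10.le
        nlinarith [norm_nonneg (x - y)]
      · -- four points
        set ex := Complex.exp (x.2.2.2 * Complex.I)
        set ey := Complex.exp (y.2.2.2 * Complex.I)
        set ex' := Complex.exp (x'.2.2.2 * Complex.I)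
        set ey' := Complex.exp (y'.2.2.2 * Complex.I)
        have hex : ‖ex‖ = 1 := Complex.norm_exp_ofReal_mul_I _
        have e : (x.2.2.1 : ℂ) * ex - (y.2.2.1 : ℂ) * ey - (x'.2.2.1 : ℂ) * ex' +
            (y'.2.2.1 : ℂ) * ey' =
            ((x.2.2.1 - y.2.2.1 - x'.2.2.1 + y'.2.2.1 : ℝ) : ℂ) * ex +
            (y.2.2.1 : ℂ) * (ex - ey - ex' + ey') +
            ((x'.2.2.1 - y'.2.2.1 : ℝ) : ℂ) * (ex - ex') +
            ((y.2.2.1 - y'.2.2.1 : ℝ) : ℂ) * (ex' - ey') := by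
          push_cast; ring
        have h4 := reg_cexp.2 x.2.2.2 (mem_univ _) y.2.2.2 (mem_univ _) x'.2.2.2 (mem_univ _)
          y'.2.2.2 (mem_univ _)
        have h1 := reg_cexp.1 x.2.2.2 (mem_univ _) x'.2.2.2 (mem_univ _)
        have h2 := reg_cexp.1 x'.2.2.2 (mem_univ _) y'.2.2.2 (mem_univ _)
        simp only [one_mul, Real.dist_eq, Real.norm_eq_abs] at h1 h2 h4
        have a1 := hκ (x - y - x' + y')
        have a2 := hχ (x - y - x' + y')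
        have a3 := hκ (x' - y')
        have a4 := hχ (x' - y')
        have a5 := hχ (x - x')
        have a6 := hκ (y - y')
        have a7 := hχ (y - y')
        simp only [Prod.snd_sub, Prod.fst_sub, Prod.snd_add, Prod.fst_add] at a1 a2 a3 a4 a5 a6 a7
        rw [e]
        have b := hb y hy
        have t1 : ‖((x.2.2.1 - y.2.2.1 - x'.2.2.1 + y'.2.2.1 : ℝ) : ℂ) * ex‖ ≤
            ‖x - y - x' + y'‖ := by
          rw [norm_mul, hex, mul_one, Complex.norm_real, Real.norm_eq_abs]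
          exact a1
        have t2 : ‖(y.2.2.1 : ℂ) * (ex - ey - ex' + ey')‖ ≤
            C1 * (‖x - y - x' + y'‖ + (‖x - x'‖ + ‖y - y'‖) * ‖x' - y'‖) := by
          rw [norm_mul, Complex.norm_real, Real.norm_eq_abs]
          refine mul_le_mul b (h4.trans ?_) (norm_nonneg _) hC10.le
          exact add_le_add a2 (mul_le_mul (add_le_add a5 a7) a4 (abs_nonneg _) (by positivity))
        have t3 : ‖((x'.2.2.1 - y'.2.2.1 : ℝ) : ℂ) * (ex - ex')‖ ≤ ‖x' - y'‖ * ‖x - x'‖ := by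
          rw [norm_mul, Complex.norm_real, Real.norm_eq_abs]
          exact mul_le_mul a3 (h1.trans a5) (norm_nonneg _) (norm_nonneg _)
        have t4 : ‖((y.2.2.1 - y'.2.2.1 : ℝ) : ℂ) * (ex' - ey')‖ ≤ ‖y - y'‖ * ‖x' - y'‖ := by
          rw [norm_mul, Complex.norm_real, Real.norm_eq_abs]
          exact mul_le_mul a6 (h2.trans a4) (norm_nonneg _) (norm_nonneg _)
        have hsum := (norm_add₄_le (a := ((x.2.2.1 - y.2.2.1 - x'.2.2.1 + y'.2.2.1 : ℝ) : ℂ) * ex)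
          (b := (y.2.2.1 : ℂ) * (ex - ey - ex' + ey'))
          (c := ((x'.2.2.1 - y'.2.2.1 : ℝ) : ℂ) * (ex - ex'))
          (d := ((y.2.2.1 - y'.2.2.1 : ℝ) : ℂ) * (ex' - ey')))
        refine hsum.trans ?_
        have p1 : 0 ≤ ‖x - y - x' + y'‖ := norm_nonneg _
        have p2 : 0 ≤ (‖x - x'‖ + ‖y - y'‖) * ‖x' - y'‖ := by positivity
        nlinarith
    refine ⟨?_, ?_⟩
    · intro p hp q hq
      simp only [Prod.mk_sub_mk, Prod.norm_mk]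
      exact max_le (hR1.1 p hp q hq) (max_le (hR2.1 p hp q hq) (hR3.1 p hp q hq))
    · intro x hx y hy x' hx' y' hy'
      simp only [Prod.mk_sub_mk, Prod.mk_add_mk, Prod.norm_mk]
      exact max_le (hR1.2 x hx y hy x' hx' y' hy')
        (max_le (hR2.2 x hx y hy x' hx' y' hy') (hR3.2 x hx y hy x' hx' y' hy'))
  obtain ⟨L1, hL1, hP⟩ := hpol
  set K : Set (ℂ × ℂ × ℂ) := {q | c ≤ q.1.re ∧ ‖q.1‖ ≤ 1 / c ∧ ‖q.2.1‖ ≤ 1 / c ∧ ‖q.2.2‖ ≤ 1 / c}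
    with hKd
  have c1 : Continuous (fun q : ℂ × ℂ × ℂ => q.1) := by fun_prop
  have c2 : Continuous (fun q : ℂ × ℂ × ℂ => q.2.1) := by fun_prop
  have c3 : Continuous (fun q : ℂ × ℂ × ℂ => q.2.2) := by fun_prop
  have hUo : IsOpen {q : ℂ × ℂ × ℂ | 0 < q.1.re} :=
    isOpen_lt continuous_const (Complex.continuous_re.comp c1)
  have hKclosed : IsClosed K :=
    (isClosed_le continuous_const (Complex.continuous_re.comp c1)).inter
      ((isClosed_le c1.norm continuous_const).inter ((isClosed_le c2.norm continuous_const).inter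
        (isClosed_le c3.norm continuous_const)))
  have hKc : IsCompact K := by
    refine IsCompact.of_isClosed_subset ((isCompact_closedBall (0 : ℂ) (1 / c)).prod
      ((isCompact_closedBall (0 : ℂ) (1 / c)).prod (isCompact_closedBall (0 : ℂ) (1 / c))))
      hKclosed ?_
    rintro q ⟨-, h1, h2, h3⟩
    simp only [mem_prod, mem_closedBall_zero_iff]
    exact ⟨h1, h2, h3⟩
  obtain ⟨L2, hL2, hR2⟩ := reg_of_compact (f := o4_col i) hUo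
    (fun q hq => (o4_col_smooth i q hq).contDiffWithinAt) hKc
    (fun q hq => lt_of_lt_of_le hc hq.1)
  have hfun : (fun d => toLC i 0 (colD d)) = (o4_col i) ∘ (fun d : Dt => (d.1, d.2.1,
      (d.2.2.1 : ℂ) * Complex.exp (d.2.2.2 * Complex.I))) := by
    funext d
    rw [Function.comp_apply, o4_col, colD]
  rw [hfun]
  refine ⟨L2 * (L1 + L1 ^ 2), by positivity, reg_comp hP hR2 ?_ hL1 hL2⟩
  intro d hd
  refine ⟨hd.1, hd.2.1, hd.2.2.1, ?_⟩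
  show ‖(d.2.2.1 : ℂ) * Complex.exp (d.2.2.2 * Complex.I)‖ ≤ 1 / c
  rw [norm_mul, Complex.norm_exp_ofReal_mul_I, mul_one, Complex.norm_real, Real.norm_eq_abs,
    abs_of_pos (lt_of_lt_of_le hc hd.2.2.2.1)]
  exact hd.2.2.2.2

/-! ### collision coordinates -/

theorem o4_lcSt_smooth (i : Fin 2) (Z : LCS) (hZ : Z.1 ≠ 0) :
    ContDiffAt ℝ 2 (fun Z => cc4 (lcSt i Z)) Z := by
  have h1 : ContDiffAt ℝ 2 (fun Z : LCS => Z.1) Z := by fun_prop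
  have h2 : ContDiffAt ℝ 2 (fun Z : LCS => Z.2.1) Z := by fun_prop
  have h3 : ContDiffAt ℝ 2 (fun Z : LCS => Z.2.2.1) Z := by fun_prop
  have h4 : ContDiffAt ℝ 2 (fun Z : LCS => Z.2.2.2.1) Z := by fun_prop
  have hx : ContDiffAt ℝ 2 (fun Z : LCS => Z.1 ^ 2) Z := h1.pow 2
  have hu : ContDiffAt ℝ 2 (fun Z : LCS => Z.2.1 / (2 * (starRingEnd ℂ) Z.1)) Z := by
    refine o4_div h2 (contDiffAt_const.mul (o4_conj h1)) ?_
    have : (starRingEnd ℂ) Z.1 ≠ 0 := by rwa [Ne, map_eq_zero]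
    exact mul_ne_zero two_ne_zero this
  have hcc : ContDiff ℝ 2 (cc4) := by
    unfold cc4 cX cR cU cW x3 x2 u3 u2
    fun_prop
  by_cases hi : i = 0
  · have := hx.prodMk (h3.prodMk (hu.prodMk h4))
    simp only [lcSt, if_pos hi]
    exact hcc.contDiffAt.comp Z this
  · have := h3.prodMk (hx.prodMk (h4.prodMk hu))
    simp only [lcSt, if_neg hi]
    exact hcc.contDiffAt.comp Z this

theorem cc4_reg_pr (i : Fin 2) (c : ℝ) (hc : 0 < c) : ∃ L : ℝ, 0 ≤ L ∧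
    Reg L (fun Z => cc4 (lcSt i Z)) {Z : LCS | ‖Z‖ ≤ 1 / c ∧ c ≤ ‖Z.1‖} := by
  have hUo : IsOpen {Z : LCS | Z.1 ≠ 0} := isOpen_ne_fun (by fun_prop) (by fun_prop)
  have hKc : IsCompact {Z : LCS | ‖Z‖ ≤ 1 / c ∧ c ≤ ‖Z.1‖} := by
    refine IsCompact.of_isClosed_subset (isCompact_closedBall (0 : LCS) (1 / c)) ?_ ?_
    · exact (isClosed_le continuous_norm continuous_const).inter
        (isClosed_le continuous_const continuous_fst.norm)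
    · rintro Z ⟨h1, -⟩
      exact mem_closedBall_zero_iff.2 h1
  refine reg_of_compact hUo (fun Z hZ => (o4_lcSt_smooth i Z hZ).contDiffWithinAt) hKc ?_
  rintro Z ⟨-, h2⟩
  exact norm_pos_iff.1 (lt_of_lt_of_le hc h2)

end

end Pool.Agent.HS

namespace Pool.Agent.HS
open Set Filter Topology Classical

theorem stLC_toLC (i : Fin 2) {M g : ℝ} {V : ℂ × ℂ × ℂ × ℂ × ℝ} (hg : 0 < g)
    (hh : 0 ≤ V.2.2.2.2) (hAB : V.1 + V.2.1 ≠ 0)
    (hcon : V.2.2.2.2 * (‖g * (V.1 - V.2.1)‖ ^ 2 - ‖g * (V.1 + V.2.1)‖ ^ 2) = M) :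
    stLC i M g V = toLC i M (ofUV V.2.2.1 V.2.2.2.1 (g * (V.1 + V.2.1)) (g * (V.1 - V.2.1))
      V.2.2.2.2) :=
  @Pool.Agent.HS.stLC_toLC_pr i M g V hg hh hAB hcon

end Pool.Agent.HS

namespace Pool.Agent.HS
open Set Filter Topology Classical

theorem stLC_lim (i : Fin 2) (c : ℝ) (hc : 0 < c) (d : Dt) (hd : d ∈ DD c) (β : ℝ) :
    stLC i 0 0 (A0 d.2.2.1 d.2.2.2 β, 0, d.1, d.2.1, d.2.2.1 ^ 2 / 2) = toLC i 0 (colD d) :=
  @Pool.Agent.HS.stLC_lim_pr i c hc d hd β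

end Pool.Agent.HS

namespace Pool.Agent.HS
open Set Filter Topology Classical

theorem stLC_reg (i : Fin 2) (c C : ℝ) (hc : 0 < c) (hC : 1 ≤ C) : ∃ σ L : ℝ, 0 < σ ∧ 0 ≤ L ∧
    Reg L (fun p : ℝ × ℝ × (ℂ × ℂ × ℂ × ℂ × ℝ) => stLC i p.1 p.2.1 p.2.2)
      {p | 0 ≤ p.1 ∧ p.1 ≤ 1 ∧ 0 ≤ p.2.1 ∧ p.2.1 ≤ σ ∧ 1 / C ≤ ‖p.2.2.1‖ ∧ ‖p.2.2.1‖ ≤ C ∧
        ‖p.2.2.2.1‖ ≤ 1 / (2 * C) ∧ c ≤ p.2.2.2.2.1.re ∧ ‖p.2.2.2.2.1‖ ≤ C ∧
        ‖p.2.2.2.2.2.1‖ ≤ C ∧ c ≤ p.2.2.2.2.2.2 ∧ p.2.2.2.2.2.2 ≤ C} :=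
  @Pool.Agent.HS.stLC_reg_pr i c C hc hC

end Pool.Agent.HS

namespace Pool.Agent.HS
open Set Filter Topology Classical

theorem col_reg (i : Fin 2) (c : ℝ) (hc : 0 < c) : ∃ L : ℝ, 0 ≤ L ∧
    Reg L (fun d => toLC i 0 (colD d)) (DD c) :=
  @Pool.Agent.HS.col_reg_pr i c hc

end Pool.Agent.HS

namespace Pool.Agent.HS
open Set Filter Topology Classical

theorem cc4_reg (i : Fin 2) (c : ℝ) (hc : 0 < c) : ∃ L : ℝ, 0 ≤ L ∧
    Reg L (fun Z => cc4 (lcSt i Z)) {Z : LCS | ‖Z‖ ≤ 1 / c ∧ c ≤ ‖Z.1‖} :=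
  @Pool.Agent.HS.cc4_reg_pr i c hc

end Pool.Agent.HS
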