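import Pool.Agent.Lib_helper60.HSF.D_WI
import Pool.Agent.Lib_helper60.HSF.IO_I6
import Pool.Agent.Lib_helper60.HSF.IO_O4
import Pool.Agent.Lib_helper60.HSF.A_CA
import Pool.Agent.Lib_helper60.HSF.IO_I1
import Pool.Agent.Lib_helper60.HSF.IO_C1

/-!
# Project HS, block O5: start and end states are close to the limit
-/

namespace Pool.Agent.HS

noncomputable section

open Set Filter Topology Classical

/-- the domain of `stLC_reg` -/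
def o5_S (c C σ : ℝ) : Set (ℝ × ℝ × (ℂ × ℂ × ℂ × ℂ × ℝ)) :=
  {p | 0 ≤ p.1 ∧ p.1 ≤ 1 ∧ 0 ≤ p.2.1 ∧ p.2.1 ≤ σ ∧ 1 / C ≤ ‖p.2.2.1‖ ∧ ‖p.2.2.1‖ ≤ C ∧
        ‖p.2.2.2.1‖ ≤ 1 / (2 * C) ∧ c ≤ p.2.2.2.2.1.re ∧ ‖p.2.2.2.2.1‖ ≤ C ∧
        ‖p.2.2.2.2.2.1‖ ≤ C ∧ c ≤ p.2.2.2.2.2.2 ∧ p.2.2.2.2.2.2 ≤ C}

/-- the limit of `(μ ^ 2, g, innV μ d β g)` -/
def o5_g (p : Dt × ℝ) : ℝ × ℝ × (ℂ × ℂ × ℂ × ℂ × ℝ) :=
  (0, 0, (A0 p.1.2.2.1 p.1.2.2.2 p.2, 0, p.1.1, p.1.2.1, p.1.2.2.1 ^ 2 / 2))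

theorem o5_lip_g {c L : ℝ}
    (h : ∀ d ∈ DD c, ∀ d' ∈ DD c, ∀ β ∈ JJ, ∀ β' ∈ JJ,
      ‖inn0 d β - inn0 d' β'‖ ≤ L * (‖d - d'‖ + |β - β'|)) (hL : 0 ≤ L) :
    Lip (2 * L) o5_g (DD c ×ˢ JJ) := by
  intro p hp q hq
  have h1 := h p.1 hp.1 q.1 hq.1 p.2 hp.2 q.2 hq.2
  have h2 : ‖o5_g p - o5_g q‖ ≤ ‖inn0 p.1 p.2 - inn0 q.1 q.2‖ := by
    unfold o5_g inn0
    simp only [Prod.mk_sub_mk, Prod.norm_mk, sub_self, norm_zero]
    refine max_le ?_ (max_le ?_ (max_le ?_ (max_le ?_ (max_le ?_ (max_le ?_ ?_)))))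
    · positivity
    · positivity
    · exact le_max_left _ _
    · positivity
    · exact (le_max_left _ _).trans ((le_max_right _ _).trans (le_max_right _ _))
    · exact (le_max_left _ _).trans ((le_max_right _ _).trans ((le_max_right _ _).trans
        (le_max_right _ _)))
    · exact (le_max_right _ _).trans ((le_max_right _ _).trans ((le_max_right _ _).trans
        (le_max_right _ _)))
  have h3 : ‖p.1 - q.1‖ ≤ dist p q := by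
    rw [← dist_eq_norm]; exact le_max_left _ _
  have h4 : |p.2 - q.2| ≤ dist p q := by
    rw [← Real.dist_eq]; exact le_max_right _ _
  calc ‖o5_g p - o5_g q‖ ≤ L * (‖p.1 - q.1‖ + |p.2 - q.2|) := h2.trans h1
    _ ≤ L * (dist p q + dist p q) := by gcongr
    _ = 2 * L * dist p q := by ring

theorem o5_D {c L t : ℝ} (ht : 0 ≤ t) (hc : 0 < c)
    (hA : ∀ κ, c ≤ κ → κ ≤ 1 / c → ∀ β ∈ JJ, amp κ β ≤ L)
    (h : ∀ d ∈ DD c, ∀ d' ∈ DD c, ∀ β ∈ JJ, ∀ β' ∈ JJ,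
      ‖inn0 d β - inn0 d' β'‖ ≤ L * (‖d - d'‖ + |β - β'|)) (hL : 0 ≤ L) :
    Near (2 * L * t) (fun p : Dt × ℝ => ((t : ℝ) : ℂ) * D0 p.1.2.2.1 p.1.2.2.2 p.2)
      (fun _ => 0) (DD c ×ˢ JJ) := by
  refine ⟨fun p hp => ?_, fun p hp q hq => ?_⟩
  · have hκ : 0 < p.1.2.2.1 := lt_of_lt_of_le hc hp.1.2.2.2.1
    rw [sub_zero, norm_mul, Complex.norm_real, Real.norm_eq_abs, abs_of_nonneg ht,
      (A0_alg p.1.2.2.1 p.1.2.2.2 p.2 hκ).2.1]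
    have h1 := hA p.1.2.2.1 hp.1.2.2.2.1 hp.1.2.2.2.2 p.2 hp.2
    nlinarith [mul_le_mul_of_nonneg_left h1 ht]
  · rw [sub_zero, sub_zero, ← mul_sub, norm_mul, Complex.norm_real, Real.norm_eq_abs,
      abs_of_nonneg ht]
    have h1 := h p.1 hp.1 q.1 hq.1 p.2 hp.2 q.2 hq.2
    have h2 : ‖D0 p.1.2.2.1 p.1.2.2.2 p.2 - D0 q.1.2.2.1 q.1.2.2.2 q.2‖ ≤
        ‖inn0 p.1 p.2 - inn0 q.1 q.2‖ := by
      have h3 := (norm_fst_le (inn0 p.1 p.2 - inn0 q.1 q.2).2).trans (norm_snd_le _)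
      exact h3
    have h3 : ‖p.1 - q.1‖ ≤ dist p q := by
      rw [← dist_eq_norm]; exact le_max_left _ _
    have h4 : |p.2 - q.2| ≤ dist p q := by
      rw [← Real.dist_eq]; exact le_max_right _ _
    have h5 : ‖D0 p.1.2.2.1 p.1.2.2.2 p.2 - D0 q.1.2.2.1 q.1.2.2.2 q.2‖ ≤ 2 * L * dist p q := by
      calc _ ≤ L * (‖p.1 - q.1‖ + |p.2 - q.2|) := h2.trans h1
        _ ≤ L * (dist p q + dist p q) := by gcongr
        _ = 2 * L * dist p q := by ring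
    calc t * ‖D0 p.1.2.2.1 p.1.2.2.2 p.2 - D0 q.1.2.2.1 q.1.2.2.2 q.2‖ ≤ t * (2 * L * dist p q) :=
          mul_le_mul_of_nonneg_left h5 ht
      _ = _ := by ring

theorem o5_const {ε a : ℝ} (h : |a| ≤ ε) (S : Set (Dt × ℝ)) :
    Near ε (fun _ : Dt × ℝ => a) (fun _ => (0:ℝ)) S := by
  refine ⟨fun p _ => by rwa [sub_zero, Real.norm_eq_abs], fun p _ q _ => ?_⟩
  rw [sub_self, norm_zero]
  have : 0 ≤ ε := (abs_nonneg _).trans h
  positivity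

/-- common part of `start_near` and `end_near` -/
theorem o5_main (c : ℝ) (hc : 0 < c) : ∃ c' C : ℝ, 0 < c' ∧ 1 ≤ C ∧
    ∀ (F : Type) [NormedAddCommGroup F] (σ' Lr : ℝ) (K : ℝ × ℝ × (ℂ × ℂ × ℂ × ℂ × ℝ) → F),
      0 < σ' → 0 ≤ Lr → Reg Lr K (o5_S c' C σ') →
      ∃ σ L : ℝ, 0 < σ ∧ 1 ≤ L ∧ ∀ μ g, 0 < μ → L * μ ≤ g → g ≤ σ →
        Near (L * (g + (μ / g) ^ 2)) (fun p : Dt × ℝ => K (μ ^ 2, g, innV μ p.1 p.2 g))
          (fun p => K (o5_g p)) (DD c ×ˢ JJ) := by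
  obtain ⟨σ1, L1, hσ1, hL1, hin⟩ := inner_near c hc
  obtain ⟨L2, hL2, hamp, hinn⟩ := A0_lip c hc
  have hL20 : 0 ≤ L2 := by linarith
  set C := 2 * L2 + 1 / c + 1 / c ^ 2 + 1 with hC
  have hcc : 0 < 1 / c := by positivity
  have hcc2 : 0 < 1 / c ^ 2 := by positivity
  have hC1 : 1 ≤ C := by linarith
  have hC0 : 0 < C := by linarith
  set c' := min (c / 2) (c ^ 2 / 4) with hc'
  have hc'0 : 0 < c' := lt_min (by positivity) (by positivity)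
  refine ⟨c', C, hc'0, hC1, fun F _ σ' Lr K hσ' hLr hK => ?_⟩
  set e0 := min (1 / (2 * C)) c' with he0
  have he00 : 0 < e0 := lt_min (by positivity) hc'0
  have he1 : e0 ≤ 1 / (2 * C) := min_le_left _ _
  have he2 : e0 ≤ c / 2 := (min_le_right _ _).trans (min_le_left _ _)
  have he3 : e0 ≤ c ^ 2 / 4 := (min_le_right _ _).trans (min_le_right _ _)
  have hC2 : 1 / (2 * C) ≤ 1 / 2 := by
    apply one_div_le_one_div_of_le (by norm_num)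
    linarith
  set L3 := L1 + 2 * L2 + 1 with hL3
  have hL30 : 0 < L3 := by linarith
  set Λ := 2 * L2 + 1 with hΛ
  set L := Lr * L3 * (1 + 2 * Λ) + 2 * L3 / e0 + 1 with hLd
  have hLa : 0 ≤ Lr * L3 * (1 + 2 * Λ) := by
    have : 0 ≤ 1 + 2 * Λ := by linarith
    positivity
  have hLb : 0 ≤ 2 * L3 / e0 := by positivity
  have hL1' : 1 ≤ L := by linarith
  set σ := min (min σ1 σ') (min 1 (e0 / (2 * L3))) with hσ
  have hσ0 : 0 < σ := lt_min (lt_min hσ1 hσ') (lt_min one_pos (by positivity))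
  refine ⟨σ, L, hσ0, hL1', fun μ g hμ hLg hg => ?_⟩
  have hg1 : g ≤ σ1 := hg.trans ((min_le_left _ _).trans (min_le_left _ _))
  have hg2 : g ≤ σ' := hg.trans ((min_le_left _ _).trans (min_le_right _ _))
  have hg3 : g ≤ 1 := hg.trans ((min_le_right _ _).trans (min_le_left _ _))
  have hg4 : g ≤ e0 / (2 * L3) := hg.trans ((min_le_right _ _).trans (min_le_right _ _))
  have hμg : μ ≤ g := by
    have h1 := mul_le_mul_of_nonneg_right hL1' hμ.le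
    rw [one_mul] at h1
    exact h1.trans hLg
  have hg0 : 0 < g := lt_of_lt_of_le hμ hμg
  have hμg1 : μ / g ≤ 1 / L := by
    rw [div_le_div_iff₀ hg0 (by linarith)]
    linarith
  have hμg0 : 0 ≤ μ / g := by positivity
  have ht0 : 0 ≤ (μ / g) ^ 2 := by positivity
  have ht1 : (μ / g) ^ 2 ≤ e0 / (2 * L3) := by
    have h1 : 1 / L ≤ e0 / (2 * L3) := by
      rw [div_le_div_iff₀ (by linarith) (by positivity)]
      have h2 : e0 * (2 * L3 / e0) = 2 * L3 := by field_simp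
      have h3 : e0 * (2 * L3 / e0) ≤ e0 * L :=
        mul_le_mul_of_nonneg_left (by linarith) he00.le
      rw [one_mul]
      exact h2.symm.le.trans h3
    have h2 : 1 / L ≤ 1 := by
      rw [div_le_one (by linarith)]
      exact hL1'
    calc (μ / g) ^ 2 = (μ / g) * (μ / g) := sq _
      _ ≤ 1 * (1 / L) := mul_le_mul (hμg1.trans h2) hμg1 hμg0 zero_le_one
      _ ≤ _ := by rw [one_mul]; exact h1
  set ε := L3 * (g + (μ / g) ^ 2) with hε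
  have hε0 : 0 ≤ ε := by positivity
  have hεe : ε ≤ e0 := by
    rw [hε]
    rw [le_div_iff₀ (by positivity)] at hg4 ht1
    have h1 : L3 * (g + (μ / g) ^ 2) = (g * (2 * L3) + (μ / g) ^ 2 * (2 * L3)) / 2 := by ring
    rw [h1]
    linarith
  obtain ⟨hY, hB⟩ := hin μ g hμ hμg hg1
  have hg22 : g ^ 2 ≤ g := pow_le_of_le_one hg0.le hg3 (by norm_num)
  have hg44 : g ^ 4 ≤ g := pow_le_of_le_one hg0.le hg3 (by norm_num)
  have hμ22 : μ ^ 2 ≤ g := (pow_le_pow_left₀ hμ.le hμg 2).trans hg22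
  have hε' : ε = L3 * g + L3 * (μ / g) ^ 2 := by rw [hε]; ring
  have k1 : g ≤ L3 * g := le_mul_of_one_le_left hg0.le (by linarith)
  have k2 : 0 ≤ L3 * (μ / g) ^ 2 := mul_nonneg hL30.le ht0
  have hY' : Near ε (fun p : Dt × ℝ => inY (innV μ p.1 p.2 g))
      (fun p => inY (inn0 p.1 p.2)) (DD c ×ˢ JJ) := by
    refine near_mono hY ?_ (Subset.refl _)
    rw [hε']
    have h1 : L1 * g ^ 2 ≤ L1 * g := mul_le_mul_of_nonneg_left hg22 (by linarith)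
    have h2 : L1 * g ≤ L3 * g := mul_le_mul_of_nonneg_right (by linarith) hg0.le
    linarith
  have hBn : Near ε (fun p : Dt × ℝ => (innV μ p.1 p.2 g).2.1) (fun _ => 0) (DD c ×ˢ JJ) := by
    have h3 := o5_D ht0 hc (fun κ h1 h2 β h3 => (hamp κ h1 h2 β h3).2.1) hinn hL20
    refine near_mono (near_trans hB h3) ?_ (Subset.refl _)
    rw [hε']
    have h1 : L1 * g ^ 4 ≤ L1 * g := mul_le_mul_of_nonneg_left hg44 (by linarith)
    have h2 : L1 * g ≤ L3 * g := mul_le_mul_of_nonneg_right (by linarith) hg0.le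
    have h3 : 2 * L2 * (μ / g) ^ 2 ≤ L3 * (μ / g) ^ 2 :=
      mul_le_mul_of_nonneg_right (by linarith) ht0
    linarith
  have hM : Near ε (fun _ : Dt × ℝ => μ ^ 2) (fun _ => (0:ℝ)) (DD c ×ˢ JJ) := by
    refine o5_const ?_ _
    rw [abs_of_nonneg (by positivity), hε']
    linarith
  have hG : Near ε (fun _ : Dt × ℝ => g) (fun _ => (0:ℝ)) (DD c ×ˢ JJ) := by
    refine o5_const ?_ _
    rw [abs_of_pos hg0, hε']
    linarith
  have hf : Near ε (fun p : Dt × ℝ => (μ ^ 2, g, innV μ p.1 p.2 g)) o5_g (DD c ×ˢ JJ) := by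
    have a1 := near_fst hY'
    have a2 := near_fst (near_snd hY')
    have a3 := near_fst (near_snd (near_snd hY'))
    have a4 := near_snd (near_snd (near_snd hY'))
    exact near_prod hM (near_prod hG (near_prod a1 (near_prod hBn (near_prod a2
      (near_prod a3 a4)))))
  have hLg : Lip (2 * L2) o5_g (DD c ×ˢ JJ) := o5_lip_g hinn hL20
  have hLg' : Lip Λ o5_g (DD c ×ˢ JJ) := by
    intro p hp q hq
    refine (hLg p hp q hq).trans (mul_le_mul_of_nonneg_right (by linarith) dist_nonneg)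
  have hLf' : Lip Λ (fun p : Dt × ℝ => (μ ^ 2, g, innV μ p.1 p.2 g)) (DD c ×ˢ JJ) := by
    have h1 := lip_of_near hf hLg
    intro p hp q hq
    refine (h1 p hp q hq).trans (mul_le_mul_of_nonneg_right (by linarith) dist_nonneg)
  have hampC : ∀ p ∈ DD c ×ˢ JJ, 1 / L2 ≤ ‖A0 p.1.2.2.1 p.1.2.2.2 p.2‖ ∧
      ‖A0 p.1.2.2.1 p.1.2.2.2 p.2‖ ≤ L2 := by
    intro p hp
    have hκ : 0 < p.1.2.2.1 := lt_of_lt_of_le hc hp.1.2.2.2.1
    rw [(A0_alg p.1.2.2.1 p.1.2.2.2 p.2 hκ).1]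
    have := hamp p.1.2.2.1 hp.1.2.2.2.1 hp.1.2.2.2.2 p.2 hp.2
    exact ⟨this.1, this.2.1⟩
  have hκ2 : ∀ p ∈ DD c ×ˢ JJ, c ^ 2 / 2 ≤ p.1.2.2.1 ^ 2 / 2 ∧
      p.1.2.2.1 ^ 2 / 2 ≤ 1 / c ^ 2 := by
    intro p hp
    have h1 := hp.1.2.2.2.1
    have h2 := hp.1.2.2.2.2
    constructor
    · have : c ^ 2 ≤ p.1.2.2.1 ^ 2 := pow_le_pow_left₀ hc.le h1 2
      linarith
    · have : p.1.2.2.1 ^ 2 ≤ (1 / c) ^ 2 := pow_le_pow_left₀ (hc.le.trans h1) h2 2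
      rw [one_div_pow] at this
      linarith
  have hinvC : 1 / C ≤ 1 / (2 * L2) := by
    apply one_div_le_one_div_of_le (by positivity)
    linarith
  have h2C : 1 / (2 * C) ≤ 1 / (2 * L2) := by
    apply one_div_le_one_div_of_le (by positivity)
    linarith
  have hL2h : 1 / L2 = 1 / (2 * L2) + 1 / (2 * L2) := by field_simp; norm_num
  have hmg : MapsTo o5_g (DD c ×ˢ JJ) (o5_S c' C σ') := by
    intro p hp
    obtain ⟨a1, a2⟩ := hampC p hp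
    obtain ⟨b1, b2⟩ := hκ2 p hp
    have hd := hp.1
    have hp0 : 0 < 1 / (2 * L2) := by positivity
    refine ⟨le_rfl, zero_le_one, le_rfl, hσ'.le, ?_, ?_, ?_, ?_, ?_, ?_, ?_, ?_⟩
    · show 1 / C ≤ ‖A0 p.1.2.2.1 p.1.2.2.2 p.2‖
      linarith
    · show ‖A0 p.1.2.2.1 p.1.2.2.2 p.2‖ ≤ C
      linarith
    · show ‖(0:ℂ)‖ ≤ 1 / (2 * C)
      rw [norm_zero]
      positivity
    · show c' ≤ p.1.1.re
      have := hd.1
      have h' : c' ≤ c / 2 := min_le_left _ _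
      linarith
    · show ‖p.1.1‖ ≤ C
      have := hd.2.1
      linarith
    · show ‖p.1.2.1‖ ≤ C
      have := hd.2.2.1
      linarith
    · show c' ≤ p.1.2.2.1 ^ 2 / 2
      have h' : c' ≤ c ^ 2 / 4 := min_le_right _ _
      have : 0 < c ^ 2 := by positivity
      linarith
    · show p.1.2.2.1 ^ 2 / 2 ≤ C
      linarith
  have hmf : MapsTo (fun p : Dt × ℝ => (μ ^ 2, g, innV μ p.1 p.2 g)) (DD c ×ˢ JJ)
      (o5_S c' C σ') := by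
    intro p hp
    obtain ⟨a1, a2⟩ := hampC p hp
    obtain ⟨b1, b2⟩ := hκ2 p hp
    have hd := hp.1
    have hp0 : 0 < 1 / (2 * L2) := by positivity
    have hY1 := (near_fst hY').1 p hp
    have hY2 := (near_fst (near_snd hY')).1 p hp
    have hY3 := (near_fst (near_snd (near_snd hY'))).1 p hp
    have hY4 := (near_snd (near_snd (near_snd hY'))).1 p hp
    have hY5 := hBn.1 p hp
    have hY1 : ‖(innV μ p.1 p.2 g).1 - A0 p.1.2.2.1 p.1.2.2.2 p.2‖ ≤ ε := hY1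
    have hY2 : ‖(innV μ p.1 p.2 g).2.2.1 - p.1.1‖ ≤ ε := hY2
    have hY3 : ‖(innV μ p.1 p.2 g).2.2.2.1 - p.1.2.1‖ ≤ ε := hY3
    have hY4 : |(innV μ p.1 p.2 g).2.2.2.2 - p.1.2.2.1 ^ 2 / 2| ≤ ε := hY4
    have hY5 : ‖(innV μ p.1 p.2 g).2.1‖ ≤ ε := by simpa using hY5
    have hμ2 : μ ^ 2 ≤ 1 := hμ22.trans hg3
    have t1 := norm_sub_norm_le (A0 p.1.2.2.1 p.1.2.2.2 p.2) (innV μ p.1 p.2 g).1
    have t2 := norm_sub_norm_le (innV μ p.1 p.2 g).1 (A0 p.1.2.2.1 p.1.2.2.2 p.2)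
    rw [norm_sub_rev] at t1
    have t3 := norm_sub_norm_le (innV μ p.1 p.2 g).2.2.1 p.1.1
    have t4 := norm_sub_norm_le (innV μ p.1 p.2 g).2.2.2.1 p.1.2.1
    have t5 := (abs_le.1 ((Complex.abs_re_le_norm _).trans hY2)).1
    rw [Complex.sub_re] at t5
    have t6 := abs_le.1 hY4
    refine ⟨by positivity, hμ2, hg0.le, hg2, ?_, ?_, ?_, ?_, ?_, ?_, ?_, ?_⟩
    · show 1 / C ≤ ‖(innV μ p.1 p.2 g).1‖
      linarith
    · show ‖(innV μ p.1 p.2 g).1‖ ≤ C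
      linarith
    · show ‖(innV μ p.1 p.2 g).2.1‖ ≤ 1 / (2 * C)
      linarith
    · show c' ≤ (innV μ p.1 p.2 g).2.2.1.re
      have := hd.1
      have h' : c' ≤ c / 2 := min_le_left _ _
      linarith
    · show ‖(innV μ p.1 p.2 g).2.2.1‖ ≤ C
      have := hd.2.1
      linarith
    · show ‖(innV μ p.1 p.2 g).2.2.2.1‖ ≤ C
      have := hd.2.2.1
      linarith
    · show c' ≤ (innV μ p.1 p.2 g).2.2.2.2
      have h' : c' ≤ c ^ 2 / 4 := min_le_right _ _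
      linarith [t6.1]
    · show (innV μ p.1 p.2 g).2.2.2.2 ≤ C
      linarith [t6.2]
  have hfin := near_comp_outer hf hmf hmg hLf' hLg' hK hLr hε0 (by linarith)
  refine near_mono hfin ?_ (Subset.refl _)
  have hs : 0 ≤ g + (μ / g) ^ 2 := by positivity
  have : Lr * ε * (1 + 2 * Λ) = (Lr * L3 * (1 + 2 * Λ)) * (g + (μ / g) ^ 2) := by
    rw [hε]; ring
  rw [this]
  exact mul_le_mul_of_nonneg_right (by linarith) hs

theorem start_near_pr (i : Fin 2) (c : ℝ) (hc : 0 < c) : ∃ σ L : ℝ, 0 < σ ∧ 1 ≤ L ∧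
    ∀ μ g, 0 < μ → L * μ ≤ g → g ≤ σ →
    Near (L * (g + (μ / g) ^ 2)) (fun p : Dt × ℝ => stLC i (μ ^ 2) g (innV μ p.1 p.2 g))
      (fun p => toLC i 0 (colD p.1)) (DD c ×ˢ JJ) := by
  obtain ⟨c', C, hc', hC, H⟩ := o5_main c hc
  obtain ⟨σ', Lr, hσ', hLr, hK⟩ := stLC_reg i c' C hc' hC
  obtain ⟨σ, L, hσ, hL, h⟩ := H LCS σ' Lr
    (fun p : ℝ × ℝ × (ℂ × ℂ × ℂ × ℂ × ℝ) => stLC i p.1 p.2.1 p.2.2) hσ' hLr hK
  refine ⟨σ, L, hσ, hL, fun μ g hμ hLg hg => ?_⟩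
  obtain ⟨h1, h2⟩ := h μ g hμ hLg hg
  have e : ∀ p ∈ DD c ×ˢ JJ, stLC i (o5_g p).1 (o5_g p).2.1 (o5_g p).2.2 =
      toLC i 0 (colD p.1) := fun p hp => stLC_lim i c hc p.1 hp.1 p.2
  refine ⟨fun p hp => ?_, fun p hp q hq => ?_⟩
  · have := h1 p hp
    beta_reduce at this ⊢
    rwa [e p hp] at this
  · have := h2 p hp q hq
    beta_reduce at this ⊢
    rwa [e p hp, e q hq] at this

/-! ### the end states -/

/-- collision coordinates of the reversed leg, from the inner variables -/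
def o5_K (p : ℝ × ℝ × (ℂ × ℂ × ℂ × ℂ × ℝ)) : ℂ × ℂ × ℂ × ℂ :=
  ((((p.2.1 : ℝ) : ℂ) * (p.2.2.1 + p.2.2.2.1)) ^ 2, p.2.2.2.2.1, -p.2.2.2.2.2.1,
    -(2 * ((Real.sqrt (p.2.2.2.2.2.2 / 2) : ℝ) : ℂ) * (p.2.2.1 - p.2.2.2.1) *
      ((starRingEnd ℂ) (p.2.2.1 + p.2.2.2.1))⁻¹))

theorem o5_K_smooth (p : ℝ × ℝ × (ℂ × ℂ × ℂ × ℂ × ℝ))
    (h1 : p.2.2.1 + p.2.2.2.1 ≠ 0) (h4 : 0 < p.2.2.2.2.2.2) : ContDiffAt ℝ 2 o5_K p := by
  have hA : ContDiffAt ℝ 2 (fun p : ℝ × ℝ × (ℂ × ℂ × ℂ × ℂ × ℝ) => p.2.2.1) p := by fun_prop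
  have hB : ContDiffAt ℝ 2 (fun p : ℝ × ℝ × (ℂ × ℂ × ℂ × ℂ × ℝ) => p.2.2.2.1) p := by fun_prop
  have hR : ContDiffAt ℝ 2 (fun p : ℝ × ℝ × (ℂ × ℂ × ℂ × ℂ × ℝ) => p.2.2.2.2.1) p := by fun_prop
  have hU : ContDiffAt ℝ 2 (fun p : ℝ × ℝ × (ℂ × ℂ × ℂ × ℂ × ℝ) => p.2.2.2.2.2.1) p := by fun_prop
  have hh : ContDiffAt ℝ 2 (fun p : ℝ × ℝ × (ℂ × ℂ × ℂ × ℂ × ℝ) => p.2.2.2.2.2.2) p := by fun_prop
  have hg0 : ContDiffAt ℝ 2 (fun p : ℝ × ℝ × (ℂ × ℂ × ℂ × ℂ × ℝ) => p.2.1) p := by fun_prop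
  have hg : ContDiffAt ℝ 2 (fun p : ℝ × ℝ × (ℂ × ℂ × ℂ × ℂ × ℝ) => ((p.2.1 : ℝ) : ℂ)) p :=
    Complex.ofRealCLM.contDiff.contDiffAt.comp p hg0
  have hξ := (hg.mul (hA.add hB)).pow 2
  have hs : ContDiffAt ℝ 2 (fun p : ℝ × ℝ × (ℂ × ℂ × ℂ × ℂ × ℝ) =>
      ((Real.sqrt (p.2.2.2.2.2.2 / 2) : ℝ) : ℂ)) p :=
    Complex.ofRealCLM.contDiff.contDiffAt.comp p ((hh.div_const 2).sqrt (by positivity))
  have hc : ContDiffAt ℝ 2 (fun p : ℝ × ℝ × (ℂ × ℂ × ℂ × ℂ × ℝ) =>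
      (starRingEnd ℂ) (p.2.2.1 + p.2.2.2.1)) p :=
    Complex.conjCLE.contDiff.contDiffAt.comp p (hA.add hB)
  have hw := (((contDiffAt_const (c := (2:ℂ))).mul hs).mul (hA.sub hB)).mul
    (hc.inv (by rwa [Ne, map_eq_zero]))
  exact hξ.prodMk (hR.prodMk (hU.neg.prodMk hw.neg))

theorem o5_compact (c C σ : ℝ) : IsCompact (o5_S c C σ) := by
  have c1 : Continuous (fun p : ℝ × ℝ × (ℂ × ℂ × ℂ × ℂ × ℝ) => p.1) := by fun_prop
  have c2 : Continuous (fun p : ℝ × ℝ × (ℂ × ℂ × ℂ × ℂ × ℝ) => p.2.1) := by fun_prop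
  have c3 : Continuous (fun p : ℝ × ℝ × (ℂ × ℂ × ℂ × ℂ × ℝ) => p.2.2.1) := by fun_prop
  have c4 : Continuous (fun p : ℝ × ℝ × (ℂ × ℂ × ℂ × ℂ × ℝ) => p.2.2.2.1) := by fun_prop
  have c5 : Continuous (fun p : ℝ × ℝ × (ℂ × ℂ × ℂ × ℂ × ℝ) => p.2.2.2.2.1) := by fun_prop
  have c6 : Continuous (fun p : ℝ × ℝ × (ℂ × ℂ × ℂ × ℂ × ℝ) => p.2.2.2.2.2.1) := by fun_prop
  have c7 : Continuous (fun p : ℝ × ℝ × (ℂ × ℂ × ℂ × ℂ × ℝ) => p.2.2.2.2.2.2) := by fun_prop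
  have hKclosed : IsClosed (o5_S c C σ) :=
    (isClosed_le continuous_const c1).inter ((isClosed_le c1 continuous_const).inter
    ((isClosed_le continuous_const c2).inter ((isClosed_le c2 continuous_const).inter
    ((isClosed_le continuous_const c3.norm).inter ((isClosed_le c3.norm continuous_const).inter
    ((isClosed_le c4.norm continuous_const).inter
    ((isClosed_le continuous_const (Complex.continuous_re.comp c5)).inter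
    ((isClosed_le c5.norm continuous_const).inter ((isClosed_le c6.norm continuous_const).inter
    ((isClosed_le continuous_const c7).inter (isClosed_le c7 continuous_const)))))))))))
  have hK0 : IsCompact (Icc (0:ℝ) 1 ×ˢ (Icc (0:ℝ) σ ×ˢ (Metric.closedBall (0:ℂ) C ×ˢ
      (Metric.closedBall (0:ℂ) (1 / (2 * C)) ×ˢ (Metric.closedBall (0:ℂ) C ×ˢ
      (Metric.closedBall (0:ℂ) C ×ˢ Icc c C)))))) :=
    isCompact_Icc.prod (isCompact_Icc.prod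
    ((isCompact_closedBall (0 : ℂ) C).prod ((isCompact_closedBall (0 : ℂ) (1 / (2 * C))).prod
    ((isCompact_closedBall (0 : ℂ) C).prod ((isCompact_closedBall (0 : ℂ) C).prod
    isCompact_Icc)))))
  refine hK0.of_isClosed_subset hKclosed ?_
  rintro p ⟨h1, h2, h3, h4, -, h6, h7, -, h9, h10, h11, h12⟩
  simp only [mem_prod, mem_Icc, mem_closedBall_zero_iff]
  exact ⟨⟨h1, h2⟩, ⟨h3, h4⟩, h6, h7, h9, h10, h11, h12⟩

theorem o5_K_reg (c C σ : ℝ) (hc : 0 < c) (hC : 1 ≤ C) :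
    ∃ L : ℝ, 0 ≤ L ∧ Reg L o5_K (o5_S c C σ) := by
  have c3 : Continuous (fun p : ℝ × ℝ × (ℂ × ℂ × ℂ × ℂ × ℝ) => p.2.2.1) := by fun_prop
  have c4 : Continuous (fun p : ℝ × ℝ × (ℂ × ℂ × ℂ × ℂ × ℝ) => p.2.2.2.1) := by fun_prop
  have c7 : Continuous (fun p : ℝ × ℝ × (ℂ × ℂ × ℂ × ℂ × ℝ) => p.2.2.2.2.2.2) := by fun_prop
  have hU : IsOpen {p : ℝ × ℝ × (ℂ × ℂ × ℂ × ℂ × ℝ) | p.2.2.1 + p.2.2.2.1 ≠ 0 ∧
      0 < p.2.2.2.2.2.2} :=
    (isOpen_ne_fun (c3.add c4) continuous_const).inter (isOpen_lt continuous_const c7)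
  refine reg_of_compact hU (fun p hp => (o5_K_smooth p hp.1 hp.2).contDiffWithinAt)
    (o5_compact c C σ) ?_
  rintro p ⟨-, -, -, -, h5, -, h7, -, -, -, h11, -⟩
  refine ⟨?_, lt_of_lt_of_le hc h11⟩
  intro h0
  have h' : p.2.2.1 = - p.2.2.2.1 := eq_neg_of_add_eq_zero_left h0
  have h'' : ‖p.2.2.1‖ = ‖p.2.2.2.1‖ := by rw [h', norm_neg]
  have h3' : 1 / (2 * C) < 1 / C := by
    apply one_div_lt_one_div_of_lt (by linarith)
    linarith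
  linarith

theorem o5_cc4 {R U u v : ℂ} {h : ℝ} :
    cc4 (rev (ofUV R U u v h)) =
      (u ^ 2, R, -U, -(2 * Real.sqrt (h / 2) * v / (starRingEnd ℂ) u)) := by
  have habc : (ma : ℂ) + mb = 1 := by
    have : (ma : ℝ) + mb = 1 := by unfold ma mb; norm_num
    exact_mod_cast this
  unfold cc4 cX cR cU cW rev ofUV ofRU x3 x2 u3 u2
  simp only
  refine Prod.ext ?_ (Prod.ext ?_ (Prod.ext ?_ ?_))
  · simp only
    linear_combination (u ^ 2) * habc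
  · simp only
    linear_combination R * habc
  · simp only
    linear_combination (-U) * habc
  · simp only
    linear_combination (-(2 * Real.sqrt (h / 2) * v / (starRingEnd ℂ) u)) * habc

theorem o5_K_eq {μ g : ℝ} (hg : 0 < g) (p : Dt × ℝ) :
    cc4 (rev (innSt μ p.1 p.2 g)) = o5_K (μ ^ 2, g, innV μ p.1 p.2 g) := by
  unfold innSt
  simp only [o5_cc4]
  unfold o5_K
  simp only
  have hgc : (g : ℂ) ≠ 0 := by exact_mod_cast hg.ne'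
  refine Prod.ext rfl (Prod.ext rfl (Prod.ext rfl ?_))
  simp only
  congr 1
  rw [map_mul, Complex.conj_ofReal]
  field_simp

theorem o5_K_lim {c : ℝ} (hc : 0 < c) (p : Dt × ℝ) (hp : p ∈ DD c ×ˢ JJ) :
    o5_K (o5_g p) = ((0:ℂ), p.1.1, -p.1.2.1,
        -(p.1.2.2.1 * Complex.exp (p.1.2.2.2 * Complex.I))) := by
  have hκ : 0 < p.1.2.2.1 := lt_of_lt_of_le hc hp.1.2.2.2.1
  obtain ⟨⟨R, U, κ, χ⟩, β⟩ := p
  simp only at hκ ⊢
  have hamp : 0 < amp κ β := by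
    unfold amp
    have : 0 < 1 + κ ^ 2 * β ^ 2 := by positivity
    positivity
  have hs : Real.sqrt (κ ^ 2 / 2 / 2) = κ / 2 := by
    rw [show κ ^ 2 / 2 / 2 = (κ / 2) ^ 2 by ring]
    exact Real.sqrt_sq (by positivity)
  have hconj : (starRingEnd ℂ) (A0 κ χ β) = amp κ β * Complex.exp (-((χ / 2 : ℝ) * Complex.I)) := by
    unfold A0
    rw [map_mul, Complex.conj_ofReal, ← Complex.exp_conj, map_mul, Complex.conj_ofReal,
      Complex.conj_I]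
    congr 2
    ring
  unfold o5_K o5_g
  simp only
  refine Prod.ext ?_ (Prod.ext rfl (Prod.ext rfl ?_))
  · simp
  · simp only
    congr 1
    rw [hs, add_zero, sub_zero, hconj]
    unfold A0
    have h1 : (amp κ β : ℂ) ≠ 0 := by exact_mod_cast hamp.ne'
    rw [Complex.exp_neg]
    have h2 : Complex.exp ((χ / 2 : ℝ) * Complex.I) ≠ 0 := Complex.exp_ne_zero _
    have h3 : Complex.exp (χ * Complex.I) = Complex.exp ((χ / 2 : ℝ) * Complex.I) *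
        Complex.exp ((χ / 2 : ℝ) * Complex.I) := by
      rw [← Complex.exp_add]
      congr 1
      push_cast
      ring
    rw [h3]
    push_cast
    field_simp

theorem end_near_pr (c : ℝ) (hc : 0 < c) : ∃ σ L : ℝ, 0 < σ ∧ 1 ≤ L ∧
    ∀ μ g, 0 < μ → L * μ ≤ g → g ≤ σ →
    Near (L * (g + (μ / g) ^ 2)) (fun p : Dt × ℝ => cc4 (rev (innSt μ p.1 p.2 g)))
      (fun p => ((0:ℂ), p.1.1, -p.1.2.1,
        -(p.1.2.2.1 * Complex.exp (p.1.2.2.2 * Complex.I)))) (DD c ×ˢ JJ) := by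
  obtain ⟨c', C, hc', hC, H⟩ := o5_main c hc
  obtain ⟨Lr, hLr, hK⟩ := o5_K_reg c' C 1 hc' hC
  obtain ⟨σ, L, hσ, hL, h⟩ := H (ℂ × ℂ × ℂ × ℂ) 1 Lr o5_K one_pos hLr hK
  refine ⟨σ, L, hσ, hL, fun μ g hμ hLg hg => ?_⟩
  obtain ⟨h1, h2⟩ := h μ g hμ hLg hg
  have hg0 : 0 < g := by nlinarith
  refine ⟨fun p hp => ?_, fun p hp q hq => ?_⟩
  · have := h1 p hp
    beta_reduce at this ⊢
    rwa [← o5_K_eq hg0, o5_K_lim hc p hp] at this
  · have := h2 p hp q hq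
    beta_reduce at this ⊢
    rwa [← o5_K_eq hg0, ← o5_K_eq hg0, o5_K_lim hc p hp, o5_K_lim hc q hq] at this

end

end Pool.Agent.HS

namespace Pool.Agent.HS
open Set Filter Topology Classical

theorem start_near (i : Fin 2) (c : ℝ) (hc : 0 < c) : ∃ σ L : ℝ, 0 < σ ∧ 1 ≤ L ∧
    ∀ μ g, 0 < μ → L * μ ≤ g → g ≤ σ →
    Near (L * (g + (μ / g) ^ 2)) (fun p : Dt × ℝ => stLC i (μ ^ 2) g (innV μ p.1 p.2 g))
      (fun p => toLC i 0 (colD p.1)) (DD c ×ˢ JJ) :=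
  @Pool.Agent.HS.start_near_pr i c hc

end Pool.Agent.HS

namespace Pool.Agent.HS
open Set Filter Topology Classical

theorem end_near (c : ℝ) (hc : 0 < c) : ∃ σ L : ℝ, 0 < σ ∧ 1 ≤ L ∧
    ∀ μ g, 0 < μ → L * μ ≤ g → g ≤ σ →
    Near (L * (g + (μ / g) ^ 2)) (fun p : Dt × ℝ => cc4 (rev (innSt μ p.1 p.2 g)))
      (fun p => ((0:ℂ), p.1.1, -p.1.2.1,
        -(p.1.2.2.1 * Complex.exp (p.1.2.2.2 * Complex.I)))) (DD c ×ˢ JJ) :=
  @Pool.Agent.HS.end_near_pr c hc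

end Pool.Agent.HS
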