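import Pool.Agent.Lib_helper60.HSF.D_WI
import Pool.Agent.Lib_helper60.HSF.A_CA
import Pool.Agent.Lib_helper60.HSF.A_FL
import Pool.Agent.Lib_helper60.HSF.IO_O5
import Pool.Agent.Lib_helper60.HSF.IO_K7
import Pool.Agent.Lib_helper60.HSF.IO_O4

/-! HS part I/O, block P4: `lim_flow_reg`, `W_near`. -/

namespace Pool.Agent.HS

noncomputable section

open Set Filter Topology Classical

section P4aux
variable {α : Type*} [PseudoMetricSpace α]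
variable {E F : Type*} [NormedAddCommGroup E] [NormedAddCommGroup F]

theorem p4_lip_mono {L L' : ℝ} {f : α → E} {S : Set α} (h : Lip L f S) (hL : L ≤ L') :
    Lip L' f S := fun p hp q hq =>
  (h p hp q hq).trans (mul_le_mul_of_nonneg_right hL dist_nonneg)

theorem p4_lip_prod {L : ℝ} {f : α → E} {f' : α → F} {S : Set α} (h : Lip L f S)
    (h' : Lip L f' S) : Lip L (fun p => (f p, f' p)) S := fun p hp q hq => by
  show ‖(f p - f q, f' p - f' q)‖ ≤ _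
  rw [Prod.norm_mk]
  exact max_le (h p hp q hq) (h' p hp q hq)

theorem p4_near_self {ε : ℝ} (hε : 0 ≤ ε) (f : α → E) (S : Set α) : Near ε f f S := by
  refine ⟨fun p _ => by simpa using hε, fun p _ q _ => ?_⟩
  simp only [sub_self, norm_zero]
  exact mul_nonneg hε dist_nonneg

theorem p4_near_le {ε ε' : ℝ} {f g : α → E} {S : Set α} (h : Near ε f g S) (hε : ε ≤ ε') :
    Near ε' f g S :=
  ⟨fun p hp => (h.1 p hp).trans hε, fun p hp q hq =>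
    (h.2 p hp q hq).trans (mul_le_mul_of_nonneg_right hε dist_nonneg)⟩

/-- additive maps of norm at most one -/
theorem p4_reg_lin (f : E → F) (hs : ∀ x y, f (x - y) = f x - f y)
    (ha : ∀ x y, f (x + y) = f x + f y) (hn : ∀ x, ‖f x‖ ≤ ‖x‖) (S : Set E) : Reg 1 f S := by
  refine ⟨fun p _ q _ => ?_, fun x _ y _ x' _ y' _ => ?_⟩
  · rw [one_mul, dist_eq_norm, ← hs]
    exact hn _
  · rw [← hs, ← hs, ← ha, one_mul]
    refine (hn _).trans (le_add_of_nonneg_right ?_)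
    positivity

end P4aux

/-- P4: regularity of the limit trajectories -/
theorem lim_flow_reg_pr (i : Fin 2) (C : ℝ) (hC : 0 < C ∧ C ≤ 1) (f0 : LCS → LCS) (K T : ℝ)
    (hf : BL K K f0) (hK : 0 ≤ K) (hR : Reg K f0 univ) (hT : 0 ≤ T) : ∃ L : ℝ, 1 ≤ L ∧
    Reg L (fun q : Pl × ℝ × ℝ => flow f0 q.2.2 (toLC i 0 (colD (limD C q.1 q.2.1))))
      (CDw C ×ˢ (univ ×ˢ Icc (-T) T)) := by
  obtain ⟨L1, c, hL1, hc, r1, m1⟩ := lim_reg C hC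
  obtain ⟨L2, hL2, r2⟩ := col_reg i c hc
  obtain ⟨L4, hL4, r4⟩ := flow_reg (E := LCS) (B := K) (K := K) (T := T) hK hK hT
  have r4' := r4 f0 hf hR
  have hL10 : 0 ≤ L1 := by linarith
  -- the limit data
  have s1 : Reg (L2 * (L1 + L1 ^ 2)) ((fun d => toLC i 0 (colD d)) ∘
      (fun q : Pl × ℝ => limD C q.1 q.2)) (CDw C ×ˢ univ) :=
    reg_comp r1 r2 (fun q hq => m1 q.1 hq.1 q.2) hL10 hL2
  -- precomposition with the projection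
  have s2 : Reg 1 (fun q : Pl × ℝ × ℝ => (q.1, q.2.1)) (CDw C ×ˢ (univ ×ˢ Icc (-T) T)) :=
    p4_reg_lin _ (fun x y => rfl) (fun x y => rfl) (fun x => by
      rw [Prod.norm_mk]
      exact max_le (norm_fst_le x) ((norm_fst_le x.2).trans (norm_snd_le x))) _
  have hM : 0 ≤ L2 * (L1 + L1 ^ 2) := by positivity
  have s3 : Reg (L2 * (L1 + L1 ^ 2) * (1 + 1 ^ 2)) (((fun d => toLC i 0 (colD d)) ∘
      (fun q : Pl × ℝ => limD C q.1 q.2)) ∘ (fun q : Pl × ℝ × ℝ => (q.1, q.2.1)))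
      (CDw C ×ˢ (univ ×ˢ Icc (-T) T)) :=
    reg_comp s2 s1 (fun q hq => ⟨hq.1, mem_univ _⟩) zero_le_one hM
  have s4 : Reg 1 (fun q : Pl × ℝ × ℝ => q.2.2) (CDw C ×ˢ (univ ×ˢ Icc (-T) T)) :=
    p4_reg_lin _ (fun x y => rfl) (fun x y => rfl) (fun x =>
      (norm_snd_le x.2).trans (norm_snd_le x)) _
  set Λ : ℝ := max 1 (L2 * (L1 + L1 ^ 2) * (1 + 1 ^ 2)) with hΛ
  have s5 : Reg Λ (fun q : Pl × ℝ × ℝ => (q.2.2, (((fun d => toLC i 0 (colD d)) ∘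
      (fun q : Pl × ℝ => limD C q.1 q.2)) ∘ (fun q : Pl × ℝ × ℝ => (q.1, q.2.1))) q))
      (CDw C ×ˢ (univ ×ˢ Icc (-T) T)) :=
    reg_prod (reg_mono s4 (le_max_left _ _) Subset.rfl) (reg_mono s3 (le_max_right _ _) Subset.rfl)
  have hΛ0 : 0 ≤ Λ := zero_le_one.trans (le_max_left _ _)
  have s6 : Reg (L4 * (Λ + Λ ^ 2)) ((fun p : ℝ × LCS => flow f0 p.1 p.2) ∘
      (fun q : Pl × ℝ × ℝ => (q.2.2, (((fun d => toLC i 0 (colD d)) ∘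
      (fun q : Pl × ℝ => limD C q.1 q.2)) ∘ (fun q : Pl × ℝ × ℝ => (q.1, q.2.1))) q)))
      (CDw C ×ˢ (univ ×ˢ Icc (-T) T)) :=
    reg_comp s5 r4' (fun q hq => ⟨hq.2.2, mem_univ _⟩) hΛ0 hL4
  exact ⟨max 1 (L4 * (Λ + Λ ^ 2)), le_max_left _ _, reg_mono s6 (le_max_right _ _) Subset.rfl⟩

/-- P5: the outgoing orbits are close to the limit trajectories -/
theorem W_near_pr (i : Fin 2) (C : ℝ) (hC : 0 < C ∧ C ≤ 1) (f0 : LCS → LCS) (K T : ℝ)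
    (hf : BL K K f0) (hK : 1 ≤ K) (hR : Reg K f0 univ) (hT : 0 ≤ T) :
    ∃ σ L : ℝ, 0 < σ ∧ 1 ≤ L ∧ ∀ (μ g Lq : ℝ) (q : LCS → LCS), 0 < μ → L * μ ≤ g → g ≤ σ →
      0 ≤ Lq → BL Lq Lq q → μ ^ 2 * Lq ≤ 1 →
      Near (L * (g + (μ / g) ^ 2 + μ ^ 2 * Lq))
        (fun p : Pl × ℝ × ℝ × ℝ => Wf i (fun Z => f0 Z + (μ ^ 2) • q Z) C μ g p.1 p.2.2.1 p.2.1
          p.2.2.2)
        (fun p => flow f0 p.2.2.2 (toLC i 0 (colD (limD C p.1 p.2.2.1))))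
        (CDw C ×ˢ (JJ ×ˢ (univ ×ˢ Icc (-T) T))) := by
  obtain ⟨L1, c1, hL1, hc1, r1, m1⟩ := lim_reg C hC
  obtain ⟨μ0, L2, c2, hμ0, hL2, hc2, o1⟩ := out_near C hC
  -- a common compact set of data
  set c : ℝ := min c1 c2 with hcd
  have hc : 0 < c := lt_min hc1 hc2
  have hDD : ∀ {c' : ℝ}, c ≤ c' → 0 < c' → DD c' ⊆ DD c := by
    intro c' hcc hc' d hd
    obtain ⟨d1, d2, d3, d4, d5⟩ := hd
    have h1 : 1 / c' ≤ 1 / c := one_div_le_one_div_of_le hc hcc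
    exact ⟨hcc.trans d1, d2.trans h1, d3.trans h1, hcc.trans d4, d5.trans h1⟩
  obtain ⟨Lc, hLc, rc⟩ := col_reg i c hc
  obtain ⟨σ3, L3, hσ3, hL3, n3⟩ := start_near i c hc
  obtain ⟨L4, hL4, r4⟩ := flow_reg (E := LCS) (B := K + 1) (K := K + 1) (T := T) (by linarith)
    (by linarith) hT
  obtain ⟨L5, hL5, n5⟩ := flow_near (E := LCS) (B := K + 1) (K := K + 1) (T := T) (by linarith)
    (by linarith) hT
  have hf1 : BL (K + 1) (K + 1) f0 :=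
    ⟨fun x => (hf.1 x).trans (by linarith), fun x y => (hf.2 x y).trans
      (mul_le_mul_of_nonneg_right (by linarith) (norm_nonneg _))⟩
  have hR1 : Reg (K + 1) f0 univ := reg_mono hR (by linarith) Subset.rfl
  have rf := r4 f0 hf1 hR1
  -- constants
  set Λ : ℝ := L1 + L2 with hΛd
  have hΛ1 : 1 ≤ Λ := by linarith
  have hL10 : 0 ≤ L1 := by linarith
  have hL20 : 0 ≤ L2 := by linarith
  have hL30 : 0 ≤ L3 := by linarith
  set C1 : ℝ := Lc * 2 * L2 * (1 + 2 * Λ) + L3 * Λ with hC1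
  have hΛ0 : 0 ≤ Λ := by linarith
  have hC10 : 0 ≤ C1 := by positivity
  set Λ2 : ℝ := 1 + Lc * 2 * L1 + 2 * C1 with hΛ2
  have hΛ21 : 1 ≤ Λ2 := by
    have : 0 ≤ Lc * 2 * L1 := by positivity
    linarith
  have hΛ20 : 0 ≤ Λ2 := by linarith
  set Lf : ℝ := L4 * C1 * (1 + 2 * Λ2) + L5 * Λ2 + L3 + 1 with hLf
  have hLf1 : 1 ≤ Lf := by
    have h1 : 0 ≤ L4 * C1 * (1 + 2 * Λ2) := by positivity
    have h2 : 0 ≤ L5 * Λ2 := by positivity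
    linarith
  have hLf3 : L3 ≤ Lf := by
    have h1 : 0 ≤ L4 * C1 * (1 + 2 * Λ2) := by positivity
    have h2 : 0 ≤ L5 * Λ2 := by positivity
    linarith
  refine ⟨min (min σ3 1) (μ0 / 2), Lf, by positivity, hLf1, ?_⟩
  intro μ g Lq q hμ hμg hgσ hLq hq hμq
  have hg3 : g ≤ σ3 := hgσ.trans ((min_le_left _ _).trans (min_le_left _ _))
  have hg1 : g ≤ 1 := hgσ.trans ((min_le_left _ _).trans (min_le_right _ _))
  have hg0 : g ≤ μ0 / 2 := hgσ.trans (min_le_right _ _)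
  have hμg1 : μ ≤ g := by
    refine le_trans ?_ hμg
    calc μ = 1 * μ := (one_mul μ).symm
      _ ≤ Lf * μ := mul_le_mul_of_nonneg_right hLf1 hμ.le
  have hgp : 0 < g := lt_of_lt_of_le hμ hμg1
  have hμμ0 : μ < μ0 := by linarith
  have hμ3 : L3 * μ ≤ g := (mul_le_mul_of_nonneg_right hLf3 hμ.le).trans hμg
  have hμ2g : μ ^ 2 ≤ g := by
    have h1 : μ * μ ≤ μ * 1 := mul_le_mul_of_nonneg_left (hμg1.trans hg1) hμ.le
    rw [sq]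
    exact (h1.trans_eq (mul_one μ)).trans hμg1
  have hr0 : 0 ≤ (μ / g) ^ 2 := by positivity
  have hr1 : (μ / g) ^ 2 ≤ 1 := by
    have h1 : μ / g ≤ 1 := (div_le_one hgp).mpr hμg1
    have h2 : 0 ≤ μ / g := by positivity
    exact pow_le_one₀ h2 h1
  set e1 : ℝ := g + (μ / g) ^ 2 with he1
  have he10 : 0 ≤ e1 := by positivity
  have he12 : e1 ≤ 2 := by linarith
  obtain ⟨o2, o3⟩ := o1 μ hμ hμμ0
  -- step A
  have A1 : Near (L2 * μ ^ 2) (fun p : Pl × ℝ × ℝ => (outD C μ p.1 p.2.1 p.2.2, p.2.2))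
      (fun p => (limD C p.1 p.2.1, p.2.2)) (CDw C ×ˢ (univ ×ˢ JJ)) :=
    near_prod o2 (p4_near_self (by positivity) _ _)
  have A2 : Lip L1 (fun p : Pl × ℝ × ℝ => (limD C p.1 p.2.1, p.2.2))
      (CDw C ×ˢ (univ ×ˢ JJ)) := by
    refine p4_lip_prod (fun p hp p' hp' => ?_) (fun p _ p' _ => ?_)
    · have h1 := r1.1 (p.1, p.2.1) ⟨hp.1, mem_univ _⟩ (p'.1, p'.2.1) ⟨hp'.1, mem_univ _⟩
      refine h1.trans (mul_le_mul_of_nonneg_left ?_ hL10)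
      rw [Prod.dist_eq, Prod.dist_eq (x := p)]
      refine max_le_max le_rfl ?_
      rw [Prod.dist_eq]
      exact le_max_left _ _
    · have h1 : ‖p.2.2 - p'.2.2‖ ≤ dist p p' := by
        rw [← dist_eq_norm, Prod.dist_eq, Prod.dist_eq (x := p.2)]
        exact (le_max_right _ _).trans (le_max_right _ _)
      calc ‖p.2.2 - p'.2.2‖ ≤ 1 * dist p p' := by rw [one_mul]; exact h1
        _ ≤ L1 * dist p p' := mul_le_mul_of_nonneg_right hL1 dist_nonneg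
  have A3 : Lip Λ (fun p : Pl × ℝ × ℝ => (outD C μ p.1 p.2.1 p.2.2, p.2.2))
      (CDw C ×ˢ (univ ×ˢ JJ)) := by
    refine p4_lip_mono (lip_of_near A1 A2) ?_
    have h1 : L2 * μ ^ 2 ≤ L2 * 1 := mul_le_mul_of_nonneg_left (by linarith) hL20
    linarith
  have A4 : Lip Λ (fun p : Pl × ℝ × ℝ => (limD C p.1 p.2.1, p.2.2))
      (CDw C ×ˢ (univ ×ˢ JJ)) := p4_lip_mono A2 (by linarith)
  have A5 : Reg 1 (fun p : Dt × ℝ => p.1) (DD c ×ˢ JJ) :=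
    p4_reg_lin _ (fun x y => rfl) (fun x y => rfl) (fun x => norm_fst_le x) _
  have A6 : Reg (Lc * (1 + 1 ^ 2)) ((fun d => toLC i 0 (colD d)) ∘ (fun p : Dt × ℝ => p.1))
      (DD c ×ˢ JJ) := reg_comp A5 rc (fun p hp => hp.1) zero_le_one hLc
  have A7 := n3 μ g hμ hμ3 hg3
  have A8 := near_comp (ε := L2 * μ ^ 2) (ε' := L3 * (g + (μ / g) ^ 2)) (Λ := Λ)
    (L := Lc * (1 + 1 ^ 2)) (f := fun p : Pl × ℝ × ℝ => (outD C μ p.1 p.2.1 p.2.2, p.2.2))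
    (g := fun p => (limD C p.1 p.2.1, p.2.2)) (S := CDw C ×ˢ (univ ×ˢ JJ))
    (K := fun p : Dt × ℝ => stLC i (μ ^ 2) g (innV μ p.1 p.2 g))
    (K0 := (fun d => toLC i 0 (colD d)) ∘ (fun p : Dt × ℝ => p.1)) (S' := DD c ×ˢ JJ) A1
    (fun p hp => ⟨hDD (min_le_right _ _) hc2 (o3 p.1 hp.1 p.2.1 p.2.2 hp.2.2).1, hp.2.2⟩)
    (fun p hp => ⟨hDD (min_le_left _ _) hc1 (m1 p.1 hp.1 p.2.1), hp.2.2⟩) A3 A4 A6 A7
    (by positivity) (by positivity) (by positivity) hΛ1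
  have A9 : Near (C1 * e1) ((fun p : Dt × ℝ => stLC i (μ ^ 2) g (innV μ p.1 p.2 g)) ∘
      (fun p : Pl × ℝ × ℝ => (outD C μ p.1 p.2.1 p.2.2, p.2.2)))
      (((fun d => toLC i 0 (colD d)) ∘ (fun p : Dt × ℝ => p.1)) ∘
        (fun p : Pl × ℝ × ℝ => (limD C p.1 p.2.1, p.2.2))) (CDw C ×ˢ (univ ×ˢ JJ)) := by
    refine p4_near_le A8 ?_
    have h1 : μ ^ 2 ≤ e1 := by linarith
    have h2 : 0 ≤ Lc * 2 * L2 * (1 + 2 * Λ) := by positivity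
    calc Lc * (1 + 1 ^ 2) * (L2 * μ ^ 2) * (1 + 2 * Λ) + L3 * (g + (μ / g) ^ 2) * Λ
        = (Lc * 2 * L2 * (1 + 2 * Λ)) * μ ^ 2 + L3 * Λ * e1 := by rw [he1]; ring
      _ ≤ (Lc * 2 * L2 * (1 + 2 * Λ)) * e1 + L3 * Λ * e1 := by
          have := mul_le_mul_of_nonneg_left h1 h2
          linarith
      _ = C1 * e1 := by rw [hC1]; ring
  -- step B
  have B0 : ∀ p p' : Pl × ℝ × ℝ × ℝ,
      dist ((p.1, p.2.2.1, p.2.1) : Pl × ℝ × ℝ) (p'.1, p'.2.2.1, p'.2.1) ≤ dist p p' := by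
    intro p p'
    have e1 : dist p p' = max (dist p.1 p'.1) (max (dist p.2.1 p'.2.1)
        (max (dist p.2.2.1 p'.2.2.1) (dist p.2.2.2 p'.2.2.2))) := rfl
    have e2 : dist ((p.1, p.2.2.1, p.2.1) : Pl × ℝ × ℝ) (p'.1, p'.2.2.1, p'.2.1) =
        max (dist p.1 p'.1) (max (dist p.2.2.1 p'.2.2.1) (dist p.2.1 p'.2.1)) := rfl
    rw [e1, e2]
    refine max_le (le_max_left _ _) (max_le ?_ ?_)
    · exact (le_max_left _ _).trans ((le_max_right _ _).trans (le_max_right _ _))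
    · exact (le_max_left _ _).trans (le_max_right _ _)
  have B1 := near_comp_inner (ε := C1 * e1) (Λ := 1)
    (h := fun p : Pl × ℝ × ℝ × ℝ => ((p.1, p.2.2.1, p.2.1) : Pl × ℝ × ℝ))
    (T := CDw C ×ˢ (JJ ×ˢ (univ ×ˢ Icc (-T) T))) A9
    (fun p hp => ⟨hp.1, mem_univ _, hp.2.1⟩)
    (fun p _ p' _ => by rw [one_mul]; exact B0 p p') le_rfl (by positivity)
  rw [mul_one] at B1
  -- step C
  have C2 : Near (C1 * e1) (fun p : Pl × ℝ × ℝ × ℝ => (p.2.2.2,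
      (((fun p : Dt × ℝ => stLC i (μ ^ 2) g (innV μ p.1 p.2 g)) ∘
      (fun p : Pl × ℝ × ℝ => (outD C μ p.1 p.2.1 p.2.2, p.2.2))) ∘
      (fun p : Pl × ℝ × ℝ × ℝ => ((p.1, p.2.2.1, p.2.1) : Pl × ℝ × ℝ))) p))
      (fun p => (p.2.2.2, ((((fun d => toLC i 0 (colD d)) ∘ (fun p : Dt × ℝ => p.1)) ∘
        (fun p : Pl × ℝ × ℝ => (limD C p.1 p.2.1, p.2.2))) ∘
      (fun p : Pl × ℝ × ℝ × ℝ => ((p.1, p.2.2.1, p.2.1) : Pl × ℝ × ℝ))) p))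
      (CDw C ×ˢ (JJ ×ˢ (univ ×ˢ Icc (-T) T))) :=
    near_prod (p4_near_self (by positivity) _ _) B1
  have C3 : Lip (1 + Lc * 2 * L1) (fun p : Pl × ℝ × ℝ × ℝ => (p.2.2.2,
      ((((fun d => toLC i 0 (colD d)) ∘ (fun p : Dt × ℝ => p.1)) ∘
        (fun p : Pl × ℝ × ℝ => (limD C p.1 p.2.1, p.2.2))) ∘
      (fun p : Pl × ℝ × ℝ × ℝ => ((p.1, p.2.2.1, p.2.1) : Pl × ℝ × ℝ))) p))
      (CDw C ×ˢ (JJ ×ˢ (univ ×ˢ Icc (-T) T))) := by
    refine p4_lip_prod (fun p _ p' _ => ?_) (fun p hp p' hp' => ?_)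
    · have h1 : ‖p.2.2.2 - p'.2.2.2‖ ≤ dist p p' := by
        rw [← dist_eq_norm]
        have e1 : dist p p' = max (dist p.1 p'.1) (max (dist p.2.1 p'.2.1)
          (max (dist p.2.2.1 p'.2.2.1) (dist p.2.2.2 p'.2.2.2))) := rfl
        rw [e1]
        exact (le_max_right _ _).trans ((le_max_right _ _).trans (le_max_right _ _))
      have h2 : 0 ≤ Lc * 2 * L1 := by positivity
      calc ‖p.2.2.2 - p'.2.2.2‖ ≤ 1 * dist p p' := by rw [one_mul]; exact h1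
        _ ≤ (1 + Lc * 2 * L1) * dist p p' :=
            mul_le_mul_of_nonneg_right (by linarith) dist_nonneg
    · have h3 := A6.1 (limD C p.1 p.2.2.1, p.2.1)
        ⟨hDD (min_le_left _ _) hc1 (m1 p.1 hp.1 p.2.2.1), hp.2.1⟩
        (limD C p'.1 p'.2.2.1, p'.2.1)
        ⟨hDD (min_le_left _ _) hc1 (m1 p'.1 hp'.1 p'.2.2.1), hp'.2.1⟩
      have h4 := A2 (p.1, p.2.2.1, p.2.1) ⟨hp.1, mem_univ _, hp.2.1⟩ (p'.1, p'.2.2.1, p'.2.1)
        ⟨hp'.1, mem_univ _, hp'.2.1⟩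
      have h5 : dist ((limD C p.1 p.2.2.1, p.2.1) : Dt × ℝ) (limD C p'.1 p'.2.2.1, p'.2.1) ≤
          L1 * dist p p' := by
        rw [dist_eq_norm]
        exact h4.trans (mul_le_mul_of_nonneg_left (B0 p p') hL10)
      have h6 : 0 ≤ Lc * (1 + 1 ^ 2) := by positivity
      calc _ ≤ Lc * (1 + 1 ^ 2) * dist ((limD C p.1 p.2.2.1, p.2.1) : Dt × ℝ)
            (limD C p'.1 p'.2.2.1, p'.2.1) := h3
        _ ≤ Lc * (1 + 1 ^ 2) * (L1 * dist p p') := mul_le_mul_of_nonneg_left h5 h6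
        _ = Lc * 2 * L1 * dist p p' := by ring
        _ ≤ (1 + Lc * 2 * L1) * dist p p' :=
            mul_le_mul_of_nonneg_right (by linarith) dist_nonneg
  have C4 : Lip Λ2 (fun p : Pl × ℝ × ℝ × ℝ => (p.2.2.2,
      (((fun p : Dt × ℝ => stLC i (μ ^ 2) g (innV μ p.1 p.2 g)) ∘
      (fun p : Pl × ℝ × ℝ => (outD C μ p.1 p.2.1 p.2.2, p.2.2))) ∘
      (fun p : Pl × ℝ × ℝ × ℝ => ((p.1, p.2.2.1, p.2.1) : Pl × ℝ × ℝ))) p))
      (CDw C ×ˢ (JJ ×ˢ (univ ×ˢ Icc (-T) T))) := by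
    refine p4_lip_mono (lip_of_near C2 C3) ?_
    have h1 : C1 * e1 ≤ C1 * 2 := mul_le_mul_of_nonneg_left he12 hC10
    linarith
  have C5 := p4_lip_mono C3 (show 1 + Lc * 2 * L1 ≤ Λ2 by linarith)
  -- the fields
  have hμ20 : 0 ≤ μ ^ 2 := by positivity
  have F1 : Near (μ ^ 2 * Lq) (fun Z => f0 Z + (μ ^ 2) • q Z) f0 univ := by
    refine ⟨fun Z _ => ?_, fun Z _ Z' _ => ?_⟩
    · rw [add_sub_cancel_left, norm_smul, Real.norm_of_nonneg hμ20]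
      exact mul_le_mul_of_nonneg_left (hq.1 Z) hμ20
    · rw [add_sub_cancel_left, add_sub_cancel_left, ← smul_sub, norm_smul,
        Real.norm_of_nonneg hμ20, mul_assoc, dist_eq_norm]
      exact mul_le_mul_of_nonneg_left (hq.2 Z Z') hμ20
  have F2 : BL (K + 1) (K + 1) (fun Z => f0 Z + (μ ^ 2) • q Z) := by
    refine ⟨fun Z => ?_, fun Z Z' => ?_⟩
    · refine (norm_add_le _ _).trans ?_
      have h1 := hf.1 Z
      have h2 := F1.1 Z (mem_univ _)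
      rw [add_sub_cancel_left] at h2
      linarith
    · have h1 := hf.2 Z Z'
      have h2 := F1.2 Z (mem_univ _) Z' (mem_univ _)
      have h3 : (f0 Z + (μ ^ 2) • q Z) - (f0 Z' + (μ ^ 2) • q Z') = (f0 Z - f0 Z') +
          ((f0 Z + (μ ^ 2) • q Z - f0 Z) - (f0 Z' + (μ ^ 2) • q Z' - f0 Z')) := by abel
      show ‖(f0 Z + (μ ^ 2) • q Z) - (f0 Z' + (μ ^ 2) • q Z')‖ ≤ _
      rw [h3]
      refine (norm_add_le _ _).trans ?_
      rw [dist_eq_norm] at h2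
      have h4 : μ ^ 2 * Lq * ‖Z - Z'‖ ≤ 1 * ‖Z - Z'‖ :=
        mul_le_mul_of_nonneg_right hμq (norm_nonneg _)
      linarith
  have hε : 0 ≤ μ ^ 2 * Lq := by positivity
  have F3 := n5 (fun Z => f0 Z + (μ ^ 2) • q Z) f0 (μ ^ 2 * Lq) hε F2 hf1 hR1 F1
  have D1 := near_comp (ε := C1 * e1) (ε' := L5 * (μ ^ 2 * Lq)) (Λ := Λ2) (L := L4)
    (K := fun p : ℝ × LCS => flow (fun Z => f0 Z + (μ ^ 2) • q Z) p.1 p.2)
    (K0 := fun p : ℝ × LCS => flow f0 p.1 p.2) (S' := Icc (-T) T ×ˢ univ) C2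
    (fun p hp => ⟨hp.2.2.2, mem_univ _⟩) (fun p hp => ⟨hp.2.2.2, mem_univ _⟩) C4 C5 rf F3
    hL4 (by positivity) (by positivity) hΛ21
  refine p4_near_le D1 ?_
  have h1 : 0 ≤ L4 * C1 * (1 + 2 * Λ2) := by positivity
  have h2 : 0 ≤ L5 * Λ2 := by positivity
  have h3 : L4 * C1 * (1 + 2 * Λ2) ≤ Lf := by linarith
  have h4 : L5 * Λ2 ≤ Lf := by linarith
  calc L4 * (C1 * e1) * (1 + 2 * Λ2) + L5 * (μ ^ 2 * Lq) * Λ2
      = (L4 * C1 * (1 + 2 * Λ2)) * e1 + (L5 * Λ2) * (μ ^ 2 * Lq) := by ring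
    _ ≤ Lf * e1 + Lf * (μ ^ 2 * Lq) :=
        add_le_add (mul_le_mul_of_nonneg_right h3 he10) (mul_le_mul_of_nonneg_right h4 hε)
    _ = Lf * (g + (μ / g) ^ 2 + μ ^ 2 * Lq) := by rw [he1]; ring

end

end Pool.Agent.HS

namespace Pool.Agent.HS
open Set Filter Topology Classical

theorem lim_flow_reg (i : Fin 2) (C : ℝ) (hC : 0 < C ∧ C ≤ 1) (f0 : LCS → LCS) (K T : ℝ)
    (hf : BL K K f0) (hK : 0 ≤ K) (hR : Reg K f0 univ) (hT : 0 ≤ T) : ∃ L : ℝ, 1 ≤ L ∧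
    Reg L (fun q : Pl × ℝ × ℝ => flow f0 q.2.2 (toLC i 0 (colD (limD C q.1 q.2.1))))
      (CDw C ×ˢ (univ ×ˢ Icc (-T) T)) :=
  @Pool.Agent.HS.lim_flow_reg_pr i C hC f0 K T hf hK hR hT

end Pool.Agent.HS

namespace Pool.Agent.HS
open Set Filter Topology Classical

theorem W_near (i : Fin 2) (C : ℝ) (hC : 0 < C ∧ C ≤ 1) (f0 : LCS → LCS) (K T : ℝ)
    (hf : BL K K f0) (hK : 1 ≤ K) (hR : Reg K f0 univ) (hT : 0 ≤ T) :
    ∃ σ L : ℝ, 0 < σ ∧ 1 ≤ L ∧ ∀ (μ g Lq : ℝ) (q : LCS → LCS), 0 < μ → L * μ ≤ g → g ≤ σ →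
      0 ≤ Lq → BL Lq Lq q → μ ^ 2 * Lq ≤ 1 →
      Near (L * (g + (μ / g) ^ 2 + μ ^ 2 * Lq))
        (fun p : Pl × ℝ × ℝ × ℝ => Wf i (fun Z => f0 Z + (μ ^ 2) • q Z) C μ g p.1 p.2.2.1 p.2.1
          p.2.2.2)
        (fun p => flow f0 p.2.2.2 (toLC i 0 (colD (limD C p.1 p.2.2.1))))
        (CDw C ×ˢ (JJ ×ˢ (univ ×ˢ Icc (-T) T))) :=
  @Pool.Agent.HS.W_near_pr i C hC f0 K T hf hK hR hT

end Pool.Agent.HS
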