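import Pool.Agent.Lib_helper60.HSF.D_WE2
import Pool.Agent.Lib_helper60.HSF.IO_P11
import Pool.Agent.Lib_helper60.HSF.IO_K2
import Pool.Agent.Lib_helper60.HSF.A_CA
import Pool.Agent.Lib_helper60.HSF.IO_O2
import Pool.Agent.Lib_helper60.HSF.IO_P4
import Pool.Agent.Lib_helper60.HSF.IO_O3
import Pool.Agent.Lib_helper60.HSF.IO_P2

/-!
# Part E of project HS, block E1c: cd_thick, zd_reg
-/

namespace Pool.Agent.HS

noncomputable section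

open Set Filter Topology Classical

theorem e1c_rh : 0 < rh := by
  have h := kh_num
  linarith [h.2.2.1]

theorem e1c_kap (C : ℝ) : ContinuousOn (kap0 C) {Y : ℝ × ℝ | 0 < Y.1} := by
  have h1 : ContinuousOn (fun Y : ℝ × ℝ => 1 / Y.1) {Y : ℝ × ℝ | 0 < Y.1} :=
    continuousOn_const.div continuousOn_fst (fun Y hY => (ne_of_gt hY))
  have h2 : ContinuousOn (fun Y : ℝ × ℝ => C ^ 2 / Y.1 ^ 2) {Y : ℝ × ℝ | 0 < Y.1} :=
    continuousOn_const.div (continuousOn_fst.pow 2) (fun Y hY => pow_ne_zero 2 (ne_of_gt hY))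
  have h3 : ContinuousOn (fun Y : ℝ × ℝ => Y.2 ^ 2) {Y : ℝ × ℝ | 0 < Y.1} :=
    continuousOn_snd.pow 2
  unfold kap0
  exact (continuousOn_const.mul ((continuousOn_const.add h1).sub ((h3.add h2).div_const 2))).sqrt

theorem e1c_chart (C : ℝ) : Continuous (chart C) := by
  unfold chart
  fun_prop

theorem e1c_unchart (C : ℝ) : Continuous (unchart C) := by
  unfold unchart
  fun_prop

theorem e1c_cpt (C : ℝ) (hC : 0 < C) : IsCompact (CD C) := by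
  have hrh := e1c_rh
  have hB : IsCompact (Icc (rh / 2) (2 * rh) ×ˢ Icc (-1 : ℝ) 1) := isCompact_Icc.prod isCompact_Icc
  have hf : ContinuousOn (fun Y : ℝ × ℝ => |kap0 C Y - kh|) (Icc (rh / 2) (2 * rh) ×ˢ Icc (-1 : ℝ) 1) := by
    refine ContinuousOn.abs (((e1c_kap C).mono ?_).sub continuousOn_const)
    rintro Y ⟨⟨hY, _⟩, _⟩
    show 0 < Y.1
    linarith
  have hcl := hf.preimage_isClosed_of_isClosed hB.isClosed (isClosed_Iic (a := (1 / 20 : ℝ)))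
  have hS : IsCompact ((Icc (rh / 2) (2 * rh) ×ˢ Icc (-1 : ℝ) 1) ∩
      (fun Y : ℝ × ℝ => |kap0 C Y - kh|) ⁻¹' Iic (1 / 20 : ℝ)) :=
    hB.of_isClosed_subset hcl inter_subset_left
  have e : CD C = unchart C '' ((Icc (rh / 2) (2 * rh) ×ˢ Icc (-1 : ℝ) 1) ∩
      (fun Y : ℝ × ℝ => |kap0 C Y - kh|) ⁻¹' Iic (1 / 20 : ℝ)) := by
    ext X
    constructor
    · rintro ⟨h1, h2, h3, h4⟩
      exact ⟨chart C X, ⟨⟨⟨h1, h2⟩, abs_le.mp h3⟩, h4⟩, unchart_chart C hC X⟩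
    · rintro ⟨Y, ⟨⟨⟨h1, h2⟩, h3⟩, h4⟩, rfl⟩
      have h5 := chart_unchart C hC Y
      show rh / 2 ≤ (chart C (unchart C Y)).1 ∧ (chart C (unchart C Y)).1 ≤ 2 * rh ∧
        |(chart C (unchart C Y)).2| ≤ 1 ∧ |kap0 C (chart C (unchart C Y)) - kh| ≤ 1 / 20
      rw [h5]
      exact ⟨h1, h2, abs_le.mpr h3, h4⟩
  rw [e]
  exact hS.image (e1c_unchart C)

theorem cd_thick_pr (C : ℝ) (hC : 0 < C ∧ C ≤ 1) : ∃ r : ℝ, 0 < r ∧
    ∀ X ∈ CD C, Metric.closedBall X r ⊆ CDw C := by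
  have hrh := e1c_rh
  have hpos : IsOpen {Y : ℝ × ℝ | 0 < Y.1} := isOpen_lt continuous_const continuous_fst
  have h1 : IsOpen ({Y : ℝ × ℝ | 0 < Y.1} ∩ (fun Y : ℝ × ℝ => |kap0 C Y - kh|) ⁻¹'
      Iio (1 / 10 : ℝ)) :=
    (((e1c_kap C).sub continuousOn_const).abs).isOpen_inter_preimage hpos isOpen_Iio
  have h2 : IsOpen {Y : ℝ × ℝ | rh / 4 < Y.1 ∧ Y.1 < 4 * rh ∧ |Y.2| < 2} :=
    (isOpen_lt continuous_const continuous_fst).inter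
      ((isOpen_lt continuous_fst continuous_const).inter
        (isOpen_lt continuous_snd.abs continuous_const))
  have hU := (h1.inter h2).preimage (e1c_chart C)
  have hsub : CD C ⊆ chart C ⁻¹' (({Y : ℝ × ℝ | 0 < Y.1} ∩
      (fun Y : ℝ × ℝ => |kap0 C Y - kh|) ⁻¹' Iio (1 / 10 : ℝ)) ∩
      {Y : ℝ × ℝ | rh / 4 < Y.1 ∧ Y.1 < 4 * rh ∧ |Y.2| < 2}) := by
    rintro X ⟨h3, h4, h5, h6⟩
    refine ⟨⟨?_, ?_⟩, ?_, ?_, ?_⟩
    · show 0 < (chart C X).1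
      linarith
    · show |kap0 C (chart C X) - kh| < 1 / 10
      linarith
    · show rh / 4 < (chart C X).1
      linarith
    · show (chart C X).1 < 4 * rh
      linarith
    · show |(chart C X).2| < 2
      linarith
  obtain ⟨r, hr, hr2⟩ := (e1c_cpt C hC.1).exists_cthickening_subset_open hU hsub
  refine ⟨r, hr, fun X hX Y hY => ?_⟩
  obtain ⟨⟨_, h8⟩, h9, h10, h11⟩ := hr2 (Metric.closedBall_subset_cthickening hX r hY)
  have h8' : |kap0 C (chart C Y) - kh| < 1 / 10 := h8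
  exact ⟨le_of_lt h9, le_of_lt h10, le_of_lt h11, h8'.le⟩

theorem e1c_fst {E F : Type*} [NormedAddCommGroup E] [NormedAddCommGroup F] (S : Set (E × F)) :
    Reg 1 (fun q : E × F => q.1) S := by
  refine ⟨fun p _ q _ => ?_, fun x _ y _ x' _ y' _ => ?_⟩
  · rw [one_mul, dist_eq_norm]
    exact norm_fst_le (p - q)
  · have h1 : ‖x.1 - y.1 - x'.1 + y'.1‖ ≤ ‖x - y - x' + y'‖ := norm_fst_le (x - y - x' + y')
    have h2 : 0 ≤ 1 * (‖x - x'‖ + ‖y - y'‖) * ‖x' - y'‖ := by positivity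
    linarith

theorem e1c_snd {E F : Type*} [NormedAddCommGroup E] [NormedAddCommGroup F] (S : Set (E × F)) :
    Reg 1 (fun q : E × F => q.2) S := by
  refine ⟨fun p _ q _ => ?_, fun x _ y _ x' _ y' _ => ?_⟩
  · rw [one_mul, dist_eq_norm]
    exact norm_snd_le (p - q)
  · have h1 : ‖x.2 - y.2 - x'.2 + y'.2‖ ≤ ‖x - y - x' + y'‖ := norm_snd_le (x - y - x' + y')
    have h2 : 0 ≤ 1 * (‖x - x'‖ + ‖y - y'‖) * ‖x' - y'‖ := by positivity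
    linarith

theorem zd_reg_pr {C : ℝ} (hC : 0 < C ∧ C ≤ 1) {i : Fin 2} {O : Set Pl} {l : LD} {τ0 : Pl → ℝ}
    (h : RArc C i O l τ0) (T : ℝ) (hT : 0 ≤ T) : ∃ L c : ℝ, 0 ≤ L ∧ 0 < c ∧
    Reg L (fun q : Pl × ℝ => Zd i (limD C q.1 (l.χ q.1)) q.2) (O ×ˢ Icc 0 T) ∧
    ∀ X ∈ O, ∀ τ ∈ Icc 0 T, Zd i (limD C X (l.χ X)) τ ∈ lcBox c := by
  obtain ⟨c, ρ, T', hc, hρ, _, _, hadm⟩ := arc_adm i C hC O l.χ τ0 l.F l.θ h.z h.cd
  have hd : ∀ X ∈ O, limD C X (l.χ X) ∈ AdmD i c := fun X hX =>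
    hadm X hX (l.χ X) (by rw [sub_self, abs_zero]; exact hρ.le)
  obtain ⟨c', hc', hZ⟩ := Zd_spec i c hc
  obtain ⟨f0, K, hK, hBL, hreg, hf0, _⟩ := field_cut i c' hc'
  have hflow := Zd_flow i c c' hc f0 K hBL hf0 hZ
  have hK0 : 0 ≤ K := by linarith
  obtain ⟨L, hL, hR⟩ := lim_flow_reg i C hC f0 K T hBL hK0 hreg hT
  obtain ⟨L1, hL1, _, hχ, _⟩ := h.reg
  have hL0 : 0 ≤ L := by linarith
  -- the inner map
  have g1 : Reg (1 + 2 * L1) (fun q : Pl × ℝ => q.1) (O ×ˢ Icc 0 T) :=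
    reg_mono (e1c_fst _) (by linarith) (Subset.refl _)
  have g3 : Reg (1 + 2 * L1) (fun q : Pl × ℝ => q.2) (O ×ˢ Icc 0 T) :=
    reg_mono (e1c_snd _) (by linarith) (Subset.refl _)
  have g2' : Reg (L1 * (1 + 1 ^ 2)) (l.χ ∘ (fun q : Pl × ℝ => q.1)) (O ×ˢ Icc 0 T) :=
    reg_comp (e1c_fst _) hχ (fun q hq => hq.1) zero_le_one hL1
  have g2 : Reg (1 + 2 * L1) (fun q : Pl × ℝ => l.χ q.1) (O ×ˢ Icc 0 T) :=
    reg_mono g2' (by linarith) (Subset.refl _)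
  have g := reg_prod g1 (reg_prod g2 g3)
  have hmaps : MapsTo (fun q : Pl × ℝ => (q.1, (l.χ q.1, q.2))) (O ×ˢ Icc 0 T)
      (CDw C ×ˢ (univ ×ˢ Icc (-T) T)) := by
    rintro q ⟨hq1, hq2⟩
    exact ⟨CD_sub C (h.cd _ hq1).1, trivial, by
      have := hq2.1
      show -T ≤ q.2
      linarith, hq2.2⟩
  have hfin := reg_comp g hR hmaps (by linarith) hL0
  refine ⟨L * ((1 + 2 * L1) + (1 + 2 * L1) ^ 2), c', by positivity, hc', ?_,
    fun X hX τ _ => ((hZ _ (hd X hX)).2 τ).1⟩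
  · refine ⟨fun p hp q hq => ?_, fun x hx y hy x' hx' y' hy' => ?_⟩
    · have h1 := hfin.1 p hp q hq
      simp only [Function.comp] at h1
      dsimp only
      rw [hflow _ (hd _ hp.1) _ hp.2.1, hflow _ (hd _ hq.1) _ hq.2.1]
      exact h1
    · have h1 := hfin.2 x hx y hy x' hx' y' hy'
      simp only [Function.comp] at h1
      dsimp only
      rw [hflow _ (hd _ hx.1) _ hx.2.1, hflow _ (hd _ hy.1) _ hy.2.1,
        hflow _ (hd _ hx'.1) _ hx'.2.1, hflow _ (hd _ hy'.1) _ hy'.2.1]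
      exact h1

end

end Pool.Agent.HS

namespace Pool.Agent.HS
open Set Filter Topology Classical

theorem cd_thick (C : ℝ) (hC : 0 < C ∧ C ≤ 1) : ∃ r : ℝ, 0 < r ∧
    ∀ X ∈ CD C, Metric.closedBall X r ⊆ CDw C :=
  @Pool.Agent.HS.cd_thick_pr C hC

end Pool.Agent.HS

namespace Pool.Agent.HS
open Set Filter Topology Classical

theorem zd_reg {C : ℝ} (hC : 0 < C ∧ C ≤ 1) {i : Fin 2} {O : Set Pl} {l : LD} {τ0 : Pl → ℝ}
    (h : RArc C i O l τ0) (T : ℝ) (hT : 0 ≤ T) : ∃ L c : ℝ, 0 ≤ L ∧ 0 < c ∧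
    Reg L (fun q : Pl × ℝ => Zd i (limD C q.1 (l.χ q.1)) q.2) (O ×ˢ Icc 0 T) ∧
    ∀ X ∈ O, ∀ τ ∈ Icc 0 T, Zd i (limD C X (l.χ X)) τ ∈ lcBox c :=
  @Pool.Agent.HS.zd_reg_pr C hC i O l τ0 h T hT

end Pool.Agent.HS
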