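import Pool.Agent.Lib_helper60.HSF.D_WI
import Pool.Agent.Lib_helper60.HSF.A_CA
import Pool.Agent.Lib_helper60.HSF.A_CB
import Pool.Agent.Lib_helper60.HSF.IO_C1

/-!
# Part I/O of project HS, block C4: calculus of `RegF`, polar coordinates
-/

namespace Pool.Agent.HS

noncomputable section

open Set Filter Topology Classical

theorem regF_comp_pr {B H E F : Type*} [PseudoMetricSpace B] [NormedAddCommGroup H]
    [NormedAddCommGroup E] [NormedAddCommGroup F] {L L' ρ : ℝ} {S : B × H → E} {O : Set B}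
    {K : E → F} {S' : Set E} (hS : RegF L S O ρ) (hK : Reg L' K S')
    (hm : ∀ X ∈ O, ∀ η ∈ Metric.closedBall (0:H) ρ, S (X, η) ∈ S') (hL : 0 ≤ L) (hL' : 0 ≤ L') :
    RegF (L' * (L + 3 * L ^ 2)) (fun p => K (S p)) O ρ := by
  obtain ⟨hS1, hS2⟩ := hS
  obtain ⟨hK1, hK2⟩ := hK
  refine ⟨?_, ?_⟩
  · intro p hp q hq
    have h1 := hK1 (S p) (hm p.1 hp.1 p.2 hp.2) (S q) (hm q.1 hq.1 q.2 hq.2)
    have h2 := hS1 p hp q hq
    rw [dist_eq_norm] at h1
    calc ‖K (S p) - K (S q)‖ ≤ L' * ‖S p - S q‖ := h1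
      _ ≤ L' * (L * dist p q) := mul_le_mul_of_nonneg_left h2 hL'
      _ ≤ L' * (L + 3 * L ^ 2) * dist p q := by
          rw [mul_assoc]
          apply mul_le_mul_of_nonneg_left _ hL'
          apply mul_le_mul_of_nonneg_right _ dist_nonneg
          nlinarith [sq_nonneg L]
  · intro X hX X' hX' η hη θ hθ η' hη' θ' hθ'
    have h1 := hK2 (S (X, η)) (hm X hX η hη) (S (X, θ)) (hm X hX θ hθ)
      (S (X', η')) (hm X' hX' η' hη') (S (X', θ')) (hm X' hX' θ' hθ')
    have h2 := hS2 X hX X' hX' η hη θ hθ η' hη' θ' hθ'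
    have h3 := hS1 (X, η) ⟨hX, hη⟩ (X', η') ⟨hX', hη'⟩
    have h4 := hS1 (X, θ) ⟨hX, hθ⟩ (X', θ') ⟨hX', hθ'⟩
    have h5 := hS1 (X', η') ⟨hX', hη'⟩ (X', θ') ⟨hX', hθ'⟩
    rw [Prod.dist_eq] at h3 h4 h5
    simp only [dist_self, dist_eq_norm] at h3 h4 h5
    have d0 : 0 ≤ dist X X' := dist_nonneg
    set D : ℝ := dist X X' with hD
    set a : ℝ := ‖η - η'‖ with ha
    set b : ℝ := ‖θ - θ'‖ with hb
    set e : ℝ := ‖η' - θ'‖ with he
    set f : ℝ := ‖η - θ - η' + θ'‖ with hf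
    have a0 : 0 ≤ a := norm_nonneg _
    have b0 : 0 ≤ b := norm_nonneg _
    have e0 : 0 ≤ e := norm_nonneg _
    have f0 : 0 ≤ f := norm_nonneg _
    have h3' : ‖S (X, η) - S (X', η')‖ ≤ L * (D + a) := h3.trans
      (mul_le_mul_of_nonneg_left (max_le (by linarith) (by linarith)) hL)
    have h4' : ‖S (X, θ) - S (X', θ')‖ ≤ L * (D + b) := h4.trans
      (mul_le_mul_of_nonneg_left (max_le (by linarith) (by linarith)) hL)
    have h5' : ‖S (X', η') - S (X', θ')‖ ≤ L * e := h5.trans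
      (mul_le_mul_of_nonneg_left (max_le (by linarith) (by linarith)) hL)
    have h6 : (‖S (X, η) - S (X', η')‖ + ‖S (X, θ) - S (X', θ')‖) *
        ‖S (X', η') - S (X', θ')‖ ≤ (L * (D + a) + L * (D + b)) * (L * e) :=
      mul_le_mul (add_le_add h3' h4') h5' (norm_nonneg _) (by positivity)
    calc ‖K (S (X, η)) - K (S (X, θ)) - K (S (X', η')) + K (S (X', θ'))‖
        ≤ L' * ‖S (X, η) - S (X, θ) - S (X', η') + S (X', θ')‖ +
          L' * (‖S (X, η) - S (X', η')‖ + ‖S (X, θ) - S (X', θ')‖) *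
            ‖S (X', η') - S (X', θ')‖ := h1
      _ ≤ L' * (L * f + L * (D + a + b) * e) + L' * ((L * (D + a) + L * (D + b)) * (L * e)) := by
          rw [mul_assoc L' (_ + _) _]
          exact add_le_add (mul_le_mul_of_nonneg_left h2 hL') (mul_le_mul_of_nonneg_left h6 hL')
      _ ≤ L' * (L + 3 * L ^ 2) * f + L' * (L + 3 * L ^ 2) * (D + a + b) * e := by
          have k1 : 0 ≤ L' * (3 * L ^ 2 * f) := by positivity
          have k2 : 0 ≤ L' * (L ^ 2 * (D + 2 * a + 2 * b) * e) := by positivity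
          nlinarith [k1, k2]

theorem regF_prod_pr {B H E F : Type*} [PseudoMetricSpace B] [NormedAddCommGroup H]
    [NormedAddCommGroup E] [NormedAddCommGroup F] {L ρ : ℝ} {S : B × H → E} {S' : B × H → F}
    {O : Set B} (hS : RegF L S O ρ) (hS' : RegF L S' O ρ) :
    RegF L (fun p => (S p, S' p)) O ρ := by
  refine ⟨?_, ?_⟩
  · intro p hp q hq
    exact max_le (hS.1 p hp q hq) (hS'.1 p hp q hq)
  · intro X hX X' hX' η hη θ hθ η' hη' θ' hθ'
    exact max_le (hS.2 X hX X' hX' η hη θ hθ η' hη' θ' hθ')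
      (hS'.2 X hX X' hX' η hη θ hθ η' hη' θ' hθ')

theorem regF_base_pr {B H E : Type*} [PseudoMetricSpace B] [NormedAddCommGroup H]
    [NormedAddCommGroup E] {L ρ : ℝ} {f : B → E} {O : Set B} (hL : 0 ≤ L) (hf : Lip L f O) :
    RegF (H := H) L (fun p => f p.1) O ρ := by
  refine ⟨?_, ?_⟩
  · intro p hp q hq
    refine (hf p.1 hp.1 q.1 hq.1).trans (mul_le_mul_of_nonneg_left ?_ hL)
    rw [Prod.dist_eq]
    exact le_max_left _ _
  · intro X hX X' hX' η hη θ hθ η' hη' θ' hθ'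
    simp only [sub_self, zero_sub, neg_add_cancel, norm_zero]
    positivity

theorem regF_mono_pr {B H E : Type*} [PseudoMetricSpace B] [NormedAddCommGroup H]
    [NormedAddCommGroup E] {L L' ρ ρ' : ℝ} {S : B × H → E} {O : Set B} (hS : RegF L S O ρ)
    (hL : L ≤ L') (hρ : ρ' ≤ ρ) : RegF L' S O ρ' := by
  have hb : Metric.closedBall (0 : H) ρ' ⊆ Metric.closedBall (0 : H) ρ :=
    Metric.closedBall_subset_closedBall hρ
  refine ⟨?_, ?_⟩
  · intro p hp q hq
    exact (hS.1 p ⟨hp.1, hb hp.2⟩ q ⟨hq.1, hb hq.2⟩).trans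
      (mul_le_mul_of_nonneg_right hL dist_nonneg)
  · intro X hX X' hX' η hη θ hθ η' hη' θ' hθ'
    refine (hS.2 X hX X' hX' η (hb hη) θ (hb hθ) η' (hb hη') θ' (hb hθ')).trans ?_
    have k : 0 ≤ (dist X X' + ‖η - η'‖ + ‖θ - θ'‖) * ‖η' - θ'‖ := by positivity
    have k2 : 0 ≤ ‖η - θ - η' + θ'‖ := norm_nonneg _
    nlinarith [mul_le_mul_of_nonneg_right hL k, mul_le_mul_of_nonneg_right hL k2]

/-- linear maps are `Reg` -/
theorem c4_lin {E F : Type*} [NormedAddCommGroup E] [NormedSpace ℝ E]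
    [NormedAddCommGroup F] [NormedSpace ℝ F] (A : E →L[ℝ] F) : Reg ‖A‖ (fun x => A x) univ := by
  refine ⟨?_, ?_⟩
  · intro p _ q _
    rw [dist_eq_norm, ← map_sub]
    exact A.le_opNorm _
  · intro x _ y _ x' _ y' _
    have h1 : A x - A y - A x' + A y' = A (x - y - x' + y') := by
      simp only [map_sub, map_add]
    rw [h1]
    refine (A.le_opNorm _).trans ?_
    have : 0 ≤ ‖A‖ * (‖x - x'‖ + ‖y - y'‖) * ‖x' - y'‖ := by positivity
    linarith

theorem pol_reg_pr (c : ℝ) (hc : 0 < c) : ∃ L : ℝ, 0 ≤ L ∧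
    Reg L (fun p : ℝ × ℂ => pol p.1 p.2)
      {p | c ≤ (p.2 * Complex.exp (-(p.1 : ℂ) * Complex.I)).re ∧ ‖p.2‖ ≤ 1 / c} := by
  set S : Set (ℝ × ℂ) :=
    {p | c ≤ (p.2 * Complex.exp (-(p.1 : ℂ) * Complex.I)).re ∧ ‖p.2‖ ≤ 1 / c} with hS
  -- the exponential
  have r1 : Reg (1 * (‖-(ContinuousLinearMap.fst ℝ ℝ ℂ)‖ + ‖-(ContinuousLinearMap.fst ℝ ℝ ℂ)‖ ^ 2))
      ((fun x : ℝ => Complex.exp (x * Complex.I)) ∘
        fun p : ℝ × ℂ => (-(ContinuousLinearMap.fst ℝ ℝ ℂ)) p) univ :=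
    reg_comp (c4_lin _) reg_cexp (mapsTo_univ _ _) (norm_nonneg _) zero_le_one
  set L1 : ℝ := 1 * (‖-(ContinuousLinearMap.fst ℝ ℝ ℂ)‖ +
    ‖-(ContinuousLinearMap.fst ℝ ℝ ℂ)‖ ^ 2) with hL1
  have r2 : Reg ‖ContinuousLinearMap.snd ℝ ℝ ℂ‖ (fun p : ℝ × ℂ => (ContinuousLinearMap.snd ℝ ℝ ℂ) p)
    univ := c4_lin _
  set L2 : ℝ := max L1 ‖ContinuousLinearMap.snd ℝ ℝ ℂ‖ with hL2
  have hL20 : 0 ≤ L2 := (norm_nonneg _).trans (le_max_right _ _)
  have r3 : Reg L2 (fun p : ℝ × ℂ =>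
      (((ContinuousLinearMap.snd ℝ ℝ ℂ) p : ℂ), ((fun x : ℝ => Complex.exp (x * Complex.I)) ∘
        fun p : ℝ × ℂ => (-(ContinuousLinearMap.fst ℝ ℝ ℂ)) p) p)) univ :=
    reg_prod (reg_mono r2 (le_max_right _ _) le_rfl) (reg_mono r1 (le_max_left _ _) le_rfl)
  -- the product
  set K : Set (ℂ × ℂ) := Metric.closedBall (0 : ℂ × ℂ) (max 1 (1 / c)) with hK
  obtain ⟨L3, hL3, r4⟩ := reg_of_contDiffOn (f := fun z : ℂ × ℂ => z.1 * z.2) (U := univ) (K := K)
    isOpen_univ (by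
      apply ContDiff.contDiffOn
      exact contDiff_fst.mul contDiff_snd) (isCompact_closedBall _ _) (convex_closedBall _ _)
      (subset_univ _)
  have m1 : MapsTo (fun p : ℝ × ℂ =>
      (((ContinuousLinearMap.snd ℝ ℝ ℂ) p : ℂ), ((fun x : ℝ => Complex.exp (x * Complex.I)) ∘
        fun p : ℝ × ℂ => (-(ContinuousLinearMap.fst ℝ ℝ ℂ)) p) p)) S K := by
    intro p hp
    rw [hK, mem_closedBall_zero_iff]
    apply max_le
    · exact hp.2.trans (le_max_right _ _)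
    · refine le_trans (le_of_eq ?_) (le_max_left _ _)
      exact Complex.norm_exp_ofReal_mul_I _
  have r5 := reg_comp (reg_mono r3 le_rfl (subset_univ S)) r4 m1 hL20 hL3
  set L4 : ℝ := L3 * (L2 + L2 ^ 2) with hL4
  have hL40 : 0 ≤ L4 := by positivity
  have e1 : ((fun z : ℂ × ℂ => z.1 * z.2) ∘ fun p : ℝ × ℂ =>
      (((ContinuousLinearMap.snd ℝ ℝ ℂ) p : ℂ), ((fun x : ℝ => Complex.exp (x * Complex.I)) ∘
        fun p : ℝ × ℂ => (-(ContinuousLinearMap.fst ℝ ℝ ℂ)) p) p)) =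
      fun p : ℝ × ℂ => p.2 * Complex.exp (-(p.1 : ℂ) * Complex.I) := by
    funext p
    simp
  rw [e1] at r5
  -- polar coordinates of the product
  set K' : Set ℂ := {z : ℂ | c ≤ z.re} ∩ Metric.closedBall 0 (1 / c) with hK'
  have hK'c : IsCompact K' :=
    (isCompact_closedBall _ _).inter_left (isClosed_le continuous_const Complex.continuous_re)
  have hK'v : Convex ℝ K' := (convex_halfSpace_re_ge c).inter (convex_closedBall _ _)
  obtain ⟨L5, hL5, r6⟩ := reg_of_contDiffOn (f := fun z : ℂ => (‖z‖, Complex.arg z))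
    (U := {z : ℂ | 0 < z.re}) (K := K') (isOpen_lt continuous_const Complex.continuous_re) (by
      intro z hz
      apply ContDiffAt.contDiffWithinAt
      have hz' : 0 < z.re := hz
      have hz0 : z ≠ 0 := by
        intro h
        rw [h, Complex.zero_re] at hz'
        exact lt_irrefl _ hz'
      apply ContDiffAt.prodMk
      · exact contDiffAt_norm ℝ hz0
      · have h1 : ContDiffAt ℂ 2 Complex.log z :=
          Complex.contDiffAt_log (Or.inl hz')
        have h2 : ContDiffAt ℝ 2 Complex.log z := h1.restrict_scalars ℝ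
        have h3 : Complex.arg = fun z => Complex.imCLM (Complex.log z) := by
          funext z
          simp [Complex.log_im]
        rw [h3]
        exact Complex.imCLM.contDiff.contDiffAt.comp z h2) hK'c hK'v (by
      intro z hz
      exact hc.trans_le hz.1)
  have m2 : MapsTo (fun p : ℝ × ℂ => p.2 * Complex.exp (-(p.1 : ℂ) * Complex.I)) S K' := by
    intro p hp
    refine ⟨hp.1, ?_⟩
    rw [mem_closedBall_zero_iff, norm_mul]
    have : Complex.exp (-(p.1 : ℂ) * Complex.I) = Complex.exp (((-p.1 : ℝ) : ℂ) * Complex.I) := by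
      push_cast; rfl
    rw [this, Complex.norm_exp_ofReal_mul_I, mul_one]
    exact hp.2
  have r7 := reg_comp r5 r6 m2 hL40 hL5
  set L6 : ℝ := L5 * (L4 + L4 ^ 2) with hL6
  have hL60 : 0 ≤ L6 := by positivity
  have r8 : Reg ‖ContinuousLinearMap.fst ℝ ℝ ℂ‖ (fun p : ℝ × ℂ => (ContinuousLinearMap.fst ℝ ℝ ℂ) p)
    univ := c4_lin _
  set L7 : ℝ := max L6 ‖ContinuousLinearMap.fst ℝ ℝ ℂ‖ with hL7
  have hL70 : 0 ≤ L7 := (norm_nonneg _).trans (le_max_right _ _)
  have r9 := reg_prod (reg_mono r8 (le_max_right L6 _) (subset_univ S))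
    (reg_mono r7 (le_max_left _ _) le_rfl)
  -- the final linear map
  set A : ℝ × (ℝ × ℝ) →L[ℝ] ℝ × ℝ :=
    ((ContinuousLinearMap.fst ℝ ℝ ℝ).comp (ContinuousLinearMap.snd ℝ ℝ (ℝ × ℝ))).prod
      (ContinuousLinearMap.fst ℝ ℝ (ℝ × ℝ) +
        (ContinuousLinearMap.snd ℝ ℝ ℝ).comp (ContinuousLinearMap.snd ℝ ℝ (ℝ × ℝ))) with hA
  have r10 := reg_comp r9 (c4_lin A) (mapsTo_univ _ _) hL70 (norm_nonneg _)
  have e2 : ((fun x => A x) ∘ fun x : ℝ × ℂ => ((ContinuousLinearMap.fst ℝ ℝ ℂ) x,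
      ((fun z : ℂ => (‖z‖, Complex.arg z)) ∘
        fun p : ℝ × ℂ => p.2 * Complex.exp (-(p.1 : ℂ) * Complex.I)) x)) =
      fun p : ℝ × ℂ => pol p.1 p.2 := by
    funext p
    have h1 : ‖p.2 * Complex.exp (-(p.1 : ℂ) * Complex.I)‖ = ‖p.2‖ := by
      have : Complex.exp (-(p.1 : ℂ) * Complex.I) = Complex.exp (((-p.1 : ℝ) : ℂ) * Complex.I) := by
        push_cast; rfl
      rw [norm_mul, this, Complex.norm_exp_ofReal_mul_I, mul_one]
    simp only [Function.comp, hA, pol, ContinuousLinearMap.prod_apply,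
      add_apply, ContinuousLinearMap.comp_apply,
      ContinuousLinearMap.coe_fst', ContinuousLinearMap.coe_snd', h1]
  rw [e2] at r10
  exact ⟨_, by positivity, r10⟩

theorem pol_spec_pr (N : ℝ) (w : ℂ) :
    w = ((pol N w).1 : ℂ) * Complex.exp ((pol N w).2 * Complex.I) := by
  have h1 : ‖w * Complex.exp (-(N : ℂ) * Complex.I)‖ = ‖w‖ := by
    have : Complex.exp (-(N : ℂ) * Complex.I) = Complex.exp (((-N : ℝ) : ℂ) * Complex.I) := by
      push_cast; rfl
    rw [norm_mul, this, Complex.norm_exp_ofReal_mul_I, mul_one]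
  have h2 := Complex.norm_mul_exp_arg_mul_I (w * Complex.exp (-(N : ℂ) * Complex.I))
  rw [h1] at h2
  simp only [pol]
  have h3 : Complex.exp (((N + Complex.arg (w * Complex.exp (-(N : ℂ) * Complex.I)) : ℝ) : ℂ) *
      Complex.I) = Complex.exp ((N : ℂ) * Complex.I) *
        Complex.exp ((Complex.arg (w * Complex.exp (-(N : ℂ) * Complex.I)) : ℂ) * Complex.I) := by
    rw [← Complex.exp_add]
    push_cast
    congr 1
    ring
  rw [h3]
  have h4 : w = w * Complex.exp (-(N : ℂ) * Complex.I) * Complex.exp ((N : ℂ) * Complex.I) := by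
    rw [mul_assoc, ← Complex.exp_add]
    simp
  linear_combination h4 - Complex.exp ((N : ℂ) * Complex.I) * h2

/-- the angle is the lift near `N` -/
theorem pol_eq_pr (N κ θ : ℝ) (hκ : 0 < κ) (hθ : |θ - N| < Real.pi) :
    pol N (κ * Complex.exp (θ * Complex.I)) = (κ, θ) := by
  have h1 : (κ : ℂ) * Complex.exp (θ * Complex.I) * Complex.exp (-(N : ℂ) * Complex.I) =
      (κ : ℂ) * Complex.exp (((θ - N : ℝ) : ℂ) * Complex.I) := by
    rw [mul_assoc, ← Complex.exp_add]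
    push_cast
    congr 2
    ring
  have hθ' := abs_lt.1 hθ
  simp only [pol]
  rw [h1, Complex.arg_real_mul _ hκ, Complex.arg_exp_mul_I, norm_mul,
    Complex.norm_exp_ofReal_mul_I, mul_one, Complex.norm_real, Real.norm_of_nonneg hκ.le]
  congr 1
  rw [toIocMod_eq_self Real.two_pi_pos |>.2]
  · ring
  · constructor <;> linarith

/-- two states with the same collision coordinates are equal -/
theorem cc5_inj_pr {N : ℝ} {y y' : St} (h : cc5 N y = cc5 N y') : y = y' := by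
  simp only [cc5, Prod.mk.injEq] at h
  obtain ⟨hX, hR, hU, hW⟩ := h
  have hW' : cW y = cW y' := by
    rw [pol_spec_pr N (cW y), pol_spec_pr N (cW y'), hW]
  unfold cX at hX
  unfold cR ma mb at hR
  unfold cU ma mb at hU
  unfold cW at hW'
  push_cast at hR hU
  have a3 : x3 y = x3 y' := by linear_combination hR + (3 / 4 : ℂ) * hX
  have a2 : x2 y = x2 y' := by linear_combination hR - (1 / 4 : ℂ) * hX
  have b3 : u3 y = u3 y' := by linear_combination hU + (3 / 4 : ℂ) * hW'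
  have b2 : u2 y = u2 y' := by linear_combination hU - (1 / 4 : ℂ) * hW'
  exact Prod.ext a3 (Prod.ext a2 (Prod.ext b3 b2))

end

end Pool.Agent.HS

namespace Pool.Agent.HS
open Set Filter Topology Classical

theorem regF_comp {B H E F : Type*} [PseudoMetricSpace B] [NormedAddCommGroup H]
    [NormedAddCommGroup E] [NormedAddCommGroup F] {L L' ρ : ℝ} {S : B × H → E} {O : Set B}
    {K : E → F} {S' : Set E} (hS : RegF L S O ρ) (hK : Reg L' K S')
    (hm : ∀ X ∈ O, ∀ η ∈ Metric.closedBall (0:H) ρ, S (X, η) ∈ S') (hL : 0 ≤ L) (hL' : 0 ≤ L') :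
    RegF (L' * (L + 3 * L ^ 2)) (fun p => K (S p)) O ρ :=
  @Pool.Agent.HS.regF_comp_pr B H E F _ _ _ _ L L' ρ S O K S' hS hK hm hL hL'

end Pool.Agent.HS

namespace Pool.Agent.HS
open Set Filter Topology Classical

theorem regF_prod {B H E F : Type*} [PseudoMetricSpace B] [NormedAddCommGroup H]
    [NormedAddCommGroup E] [NormedAddCommGroup F] {L ρ : ℝ} {S : B × H → E} {S' : B × H → F}
    {O : Set B} (hS : RegF L S O ρ) (hS' : RegF L S' O ρ) :
    RegF L (fun p => (S p, S' p)) O ρ :=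
  @Pool.Agent.HS.regF_prod_pr B H E F _ _ _ _ L ρ S S' O hS hS'

end Pool.Agent.HS

namespace Pool.Agent.HS
open Set Filter Topology Classical

theorem regF_base {B H E : Type*} [PseudoMetricSpace B] [NormedAddCommGroup H]
    [NormedAddCommGroup E] {L ρ : ℝ} {f : B → E} {O : Set B} (hL : 0 ≤ L) (hf : Lip L f O) :
    RegF (H := H) L (fun p => f p.1) O ρ :=
  @Pool.Agent.HS.regF_base_pr B H E _ _ _ L ρ f O hL hf

end Pool.Agent.HS

namespace Pool.Agent.HS
open Set Filter Topology Classical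

theorem regF_mono {B H E : Type*} [PseudoMetricSpace B] [NormedAddCommGroup H]
    [NormedAddCommGroup E] {L L' ρ ρ' : ℝ} {S : B × H → E} {O : Set B} (hS : RegF L S O ρ)
    (hL : L ≤ L') (hρ : ρ' ≤ ρ) : RegF L' S O ρ' :=
  @Pool.Agent.HS.regF_mono_pr B H E _ _ _ L L' ρ ρ' S O hS hL hρ

end Pool.Agent.HS

namespace Pool.Agent.HS
open Set Filter Topology Classical

theorem pol_reg (c : ℝ) (hc : 0 < c) : ∃ L : ℝ, 0 ≤ L ∧
    Reg L (fun p : ℝ × ℂ => pol p.1 p.2)
      {p | c ≤ (p.2 * Complex.exp (-(p.1 : ℂ) * Complex.I)).re ∧ ‖p.2‖ ≤ 1 / c} :=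
  @Pool.Agent.HS.pol_reg_pr c hc

end Pool.Agent.HS

namespace Pool.Agent.HS
open Set Filter Topology Classical

theorem pol_spec (N : ℝ) (w : ℂ) :
    w = ((pol N w).1 : ℂ) * Complex.exp ((pol N w).2 * Complex.I) :=
  @Pool.Agent.HS.pol_spec_pr N w

end Pool.Agent.HS

namespace Pool.Agent.HS
open Set Filter Topology Classical

theorem pol_eq (N κ θ : ℝ) (hκ : 0 < κ) (hθ : |θ - N| < Real.pi) :
    pol N (κ * Complex.exp (θ * Complex.I)) = (κ, θ) :=
  @Pool.Agent.HS.pol_eq_pr N κ θ hκ hθ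

end Pool.Agent.HS

namespace Pool.Agent.HS
open Set Filter Topology Classical

theorem cc5_inj {N : ℝ} {y y' : St} (h : cc5 N y = cc5 N y') : y = y' :=
  @Pool.Agent.HS.cc5_inj_pr N y y' h

end Pool.Agent.HS
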