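import Pool.Agent.Lib_helper60.HSF.D_WI
import Pool.Agent.Lib_helper60.HSF.IO_I4

/-!
# Block I8: rotation equivariance of the inner solution
-/

namespace Pool.Agent.HS

noncomputable section

open Set Filter Topology Classical

theorem i8_G (ρ x : ℂ) (h : ‖ρ‖ = 1) : G (ρ * x) = ρ * G x := by
  unfold G
  rw [norm_mul, h, one_mul]
  ring

theorem i8_F (ρ R u : ℂ) (h : ‖ρ‖ = 1) : inF (ρ ^ 2 * R) (ρ * u) = ρ ^ 2 * inF R u := by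
  have h2 : ‖ρ ^ 2‖ = 1 := by rw [norm_pow, h, one_pow]
  unfold inF
  have e1 : ρ ^ 2 * R + mb * (ρ * u) ^ 2 = ρ ^ 2 * (R + mb * u ^ 2) := by ring
  have e2 : ρ ^ 2 * R - ma * (ρ * u) ^ 2 = ρ ^ 2 * (R - ma * u ^ 2) := by ring
  rw [e1, e2, i8_G _ _ h2, i8_G _ _ h2]
  ring

theorem i8_conj (ρ : ℂ) (h : ‖ρ‖ = 1) : (starRingEnd ℂ) ρ * ρ = 1 := by
  rw [mul_comm, Complex.mul_conj, Complex.normSq_eq_norm_sq, h]
  simp

theorem i8_re (ρ R u v : ℂ) (h : ‖ρ‖ = 1) :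
    (starRingEnd ℂ) (ρ * u) * (starRingEnd ℂ) (ρ * v) * inF (ρ ^ 2 * R) (ρ * u) =
      (starRingEnd ℂ) u * (starRingEnd ℂ) v * inF R u := by
  rw [i8_F _ _ _ h, map_mul, map_mul]
  have e := i8_conj ρ h
  linear_combination (((starRingEnd ℂ) ρ * ρ + 1) * (starRingEnd ℂ) u * (starRingEnd ℂ) v *
    inF R u) * e

theorem i8_P (ρ R u v : ℂ) (hh : ℝ) (h : ‖ρ‖ = 1) :
    inP (ρ ^ 2 * R) (ρ * u) (ρ * v) hh = ρ * inP R u v hh := by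
  unfold inP
  rw [i8_re _ _ _ _ h, i8_F _ _ _ h, map_mul, norm_mul, h, one_mul]
  have e := i8_conj ρ h
  linear_combination ((1 / hh : ℝ) * ((‖u‖ ^ 2 : ℝ) * ((starRingEnd ℂ) u * (ρ * inF R u)))) * e

/-- the rotation of the inner variables -/
def i8_rot (ρ : ℂ) (V : ℂ × ℂ × ℂ × ℂ × ℝ) : ℂ × ℂ × ℂ × ℂ × ℝ :=
  (ρ * V.1, ρ * V.2.1, ρ ^ 2 * V.2.2.1, ρ ^ 2 * V.2.2.2.1, V.2.2.2.2)

theorem i8_fst {E F : Type*} [NormedAddCommGroup E] [NormedSpace ℝ E] [NormedAddCommGroup F]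
    [NormedSpace ℝ F] {f : ℝ → E × F} {f' : E × F} {S : Set ℝ} {s : ℝ}
    (h : HasDerivWithinAt f f' S s) : HasDerivWithinAt (fun x => (f x).1) f'.1 S s :=
  (ContinuousLinearMap.fst ℝ E F).hasFDerivAt.comp_hasDerivWithinAt s h

theorem i8_snd {E F : Type*} [NormedAddCommGroup E] [NormedSpace ℝ E] [NormedAddCommGroup F]
    [NormedSpace ℝ F] {f : ℝ → E × F} {f' : E × F} {S : Set ℝ} {s : ℝ}
    (h : HasDerivWithinAt f f' S s) : HasDerivWithinAt (fun x => (f x).2) f'.2 S s :=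
  (ContinuousLinearMap.snd ℝ E F).hasFDerivAt.comp_hasDerivWithinAt s h

theorem i8_ode (ρ : ℂ) (h : ‖ρ‖ = 1) {μ g : ℝ} {V : ℝ → ℂ × ℂ × ℂ × ℂ × ℝ}
    (hV : InnerODE μ g V) : InnerODE μ g (fun s => i8_rot ρ (V s)) := by
  have h2 : ‖ρ ^ 2‖ = 1 := by rw [norm_pow, h, one_pow]
  intro s hs
  have h0 := hV s hs
  simp only at h0
  have a1 := i8_fst h0
  have a2 := i8_fst (i8_snd h0)
  have a3 := i8_fst (i8_snd (i8_snd h0))
  have a4 := i8_fst (i8_snd (i8_snd (i8_snd h0)))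
  have a5 := i8_snd (i8_snd (i8_snd (i8_snd h0)))
  have b := (a1.const_mul ρ).prodMk ((a2.const_mul ρ).prodMk ((a3.const_mul (ρ ^ 2)).prodMk
    ((a4.const_mul (ρ ^ 2)).prodMk a5)))
  simp only
  have eu : (s : ℂ) * ((i8_rot ρ (V s)).1 + (i8_rot ρ (V s)).2.1) =
      ρ * ((s : ℂ) * ((V s).1 + (V s).2.1)) := by
    unfold i8_rot
    ring
  have ev : (s : ℂ) * ((i8_rot ρ (V s)).1 - (i8_rot ρ (V s)).2.1) =
      ρ * ((s : ℂ) * ((V s).1 - (V s).2.1)) := by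
    unfold i8_rot
    ring
  have eR : (i8_rot ρ (V s)).2.2.1 = ρ ^ 2 * (V s).2.2.1 := rfl
  have eU : (i8_rot ρ (V s)).2.2.2.1 = ρ ^ 2 * (V s).2.2.2.1 := rfl
  have eB : (i8_rot ρ (V s)).2.1 = ρ * (V s).2.1 := rfl
  have eh : (i8_rot ρ (V s)).2.2.2.2 = (V s).2.2.2.2 := rfl
  rw [eu, ev, eR, eU, eB, eh, i8_P _ _ _ _ _ h, i8_re _ _ _ _ h]
  have e1 : ρ ^ 2 * (V s).2.2.1 + mb * (ρ * ((s : ℂ) * ((V s).1 + (V s).2.1))) ^ 2 =
      ρ ^ 2 * ((V s).2.2.1 + mb * ((s : ℂ) * ((V s).1 + (V s).2.1)) ^ 2) := by ring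
  have e2 : ρ ^ 2 * (V s).2.2.1 - ma * (ρ * ((s : ℂ) * ((V s).1 + (V s).2.1))) ^ 2 =
      ρ ^ 2 * ((V s).2.2.1 - ma * ((s : ℂ) * ((V s).1 + (V s).2.1)) ^ 2) := by ring
  have e3 : ‖ρ * ((s : ℂ) * ((V s).1 + (V s).2.1))‖ = ‖(s : ℂ) * ((V s).1 + (V s).2.1)‖ := by
    rw [norm_mul, h, one_mul]
  rw [e1, e2, e3, i8_G _ _ h2, i8_G _ _ h2]
  refine b.congr_deriv ?_
  refine Prod.ext ?_ (Prod.ext ?_ (Prod.ext ?_ (Prod.ext ?_ rfl)))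
  · simp only
    ring
  · simp only
    ring
  · simp only
    ring
  · simp only
    ring

theorem i8_inn0 (α : ℝ) (d : Dt) (β : ℝ) :
    inn0 (rotD α d) β = i8_rot (Complex.exp ((α / 2 : ℝ) * Complex.I)) (inn0 d β) := by
  have e2 : Complex.exp ((α / 2 : ℝ) * Complex.I) ^ 2 = Complex.exp (α * Complex.I) := by
    rw [← Complex.exp_nat_mul]
    congr 1
    push_cast
    ring
  have e3 : Complex.exp (((d.2.2.2 + α) / 2 : ℝ) * Complex.I) =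
      Complex.exp ((α / 2 : ℝ) * Complex.I) * Complex.exp ((d.2.2.2 / 2 : ℝ) * Complex.I) := by
    rw [← Complex.exp_add]
    congr 1
    push_cast
    ring
  unfold inn0 i8_rot rotD A0 D0
  refine Prod.ext ?_ (Prod.ext ?_ (Prod.ext ?_ (Prod.ext ?_ rfl)))
  · simp only
    rw [e3]
    ring
  · simp only
    rw [e3]
    ring
  · simp only
    rw [e2]
  · simp only
    rw [e2]

theorem i8_st (ρ R U u v : ℂ) (hh : ℝ) (h : ‖ρ‖ = 1) :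
    ofUV (ρ ^ 2 * R) (ρ ^ 2 * U) (ρ * u) (ρ * v) hh = rot (ρ ^ 2) (ofUV R U u v hh) := by
  have e := i8_conj ρ h
  have hρ : ρ ≠ 0 := by
    intro h0
    rw [h0, norm_zero] at h
    exact zero_ne_one h
  have hc : (starRingEnd ℂ) ρ ≠ 0 := (map_ne_zero _).mpr hρ
  have e1 : ρ * v / (starRingEnd ℂ) (ρ * u) = ρ ^ 2 * (v / (starRingEnd ℂ) u) := by
    rw [map_mul]
    by_cases hu : (starRingEnd ℂ) u = 0
    · rw [hu]
      simp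
    · field_simp
      linear_combination (-v) * e
  unfold ofUV ofRU rot x3 x2 u3 u2
  have e2 : 2 * (Real.sqrt (hh / 2) : ℂ) * (ρ * v) / (starRingEnd ℂ) (ρ * u) =
      ρ ^ 2 * (2 * (Real.sqrt (hh / 2) : ℂ) * v / (starRingEnd ℂ) u) := by
    rw [mul_div_assoc, e1]
    ring
  refine Prod.ext ?_ (Prod.ext ?_ (Prod.ext ?_ ?_))
  · simp only
    ring
  · simp only
    ring
  · simp only
    rw [e2]
    ring
  · simp only
    rw [e2]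
    ring

theorem inn_rot_pr (c : ℝ) (hc : 0 < c) : ∃ σ : ℝ, 0 < σ ∧ ∀ μ g, 0 < μ → μ ≤ g → g ≤ σ →
    ∀ α : ℝ, ∀ d ∈ DD c, rotD α d ∈ DD c → ∀ β ∈ JJ,
      innSt μ (rotD α d) β g = rot (Complex.exp (α * Complex.I)) (innSt μ d β g) := by
  obtain ⟨σ, hσ, H⟩ := inner_spec c hc
  refine ⟨σ, hσ, ?_⟩
  intro μ g hμ hμg hg α d hd hd' β hβ
  obtain ⟨⟨V, hV, hV0⟩, hu⟩ := H μ g hμ hμg hg d hd β hβ
  obtain ⟨_, hu'⟩ := H μ g hμ hμg hg (rotD α d) hd' β hβ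
  have hgm : g ∈ Icc μ g := ⟨hμg, le_rfl⟩
  have h1 : V g = innV μ d β g := hu V hV hV0 g hgm
  set ρ : ℂ := Complex.exp ((α / 2 : ℝ) * Complex.I) with hρ
  have hn : ‖ρ‖ = 1 := Complex.norm_exp_ofReal_mul_I _
  have h2 : i8_rot ρ (V g) = innV μ (rotD α d) β g := by
    refine hu' (fun s => i8_rot ρ (V s)) (i8_ode ρ hn hV) ?_ g hgm
    show i8_rot ρ (V μ) = inn0 (rotD α d) β
    rw [hV0, i8_inn0]
  have e2 : ρ ^ 2 = Complex.exp (α * Complex.I) := by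
    rw [hρ, ← Complex.exp_nat_mul]
    congr 1
    push_cast
    ring
  unfold innSt
  rw [← h1, ← h2, ← e2]
  simp only
  rw [← i8_st _ _ _ _ _ _ hn]
  unfold i8_rot
  simp only
  congr 1
  · ring
  · ring

end

end Pool.Agent.HS

namespace Pool.Agent.HS
open Set Filter Topology Classical

theorem inn_rot (c : ℝ) (hc : 0 < c) : ∃ σ : ℝ, 0 < σ ∧ ∀ μ g, 0 < μ → μ ≤ g → g ≤ σ →
    ∀ α : ℝ, ∀ d ∈ DD c, rotD α d ∈ DD c → ∀ β ∈ JJ,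
      innSt μ (rotD α d) β g = rot (Complex.exp (α * Complex.I)) (innSt μ d β g) :=
  @Pool.Agent.HS.inn_rot_pr c hc

end Pool.Agent.HS
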