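import Pool.Agent.Lib_helper60.HSF.D_WI
import Pool.Agent.Lib_helper60.HSF.A_NW
import Pool.Agent.Lib_helper60.HSF.A_CB

/-! Project HS, block N1: the abstract Newton step. -/

namespace Pool.Agent.HS

noncomputable section

open Set Filter Topology Classical

/-- two independent complex numbers give an isomorphism -/
theorem n1_equiv {e₁ e₂ : ℂ} {c L : ℝ} (hc : 0 < c) (h : c ≤ |((starRingEnd ℂ) e₁ * e₂).im|)
    (h1 : ‖e₁‖ ≤ L) (h2 : ‖e₂‖ ≤ L) :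
    ∃ B : (ℝ × ℝ) ≃L[ℝ] ℂ, (∀ v, B v = e₁ * (v.1 : ℝ) + e₂ * (v.2 : ℝ)) ∧
      ∀ z, ‖B.symm z‖ ≤ L / c * ‖z‖ := by
  set d : ℝ := ((starRingEnd ℂ) e₁ * e₂).im with hd
  have hd0 : d ≠ 0 := by
    intro h0
    rw [h0, abs_zero] at h
    linarith
  have hdc : (d : ℂ) ≠ 0 := by exact_mod_cast hd0
  have ed : d = e₁.re * e₂.im - e₁.im * e₂.re := by
    rw [hd]
    simp [Complex.mul_im]
    ring
  have key : ∀ v : ℝ × ℝ,
      ((starRingEnd ℂ) e₂ * (e₁ * (v.1 : ℝ) + e₂ * (v.2 : ℝ))).im = - (d * v.1) ∧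
      ((starRingEnd ℂ) e₁ * (e₁ * (v.1 : ℝ) + e₂ * (v.2 : ℝ))).im = d * v.2 := by
    intro v
    constructor
    · simp [Complex.mul_im, Complex.mul_re, ed]
      ring
    · simp [Complex.mul_im, Complex.mul_re, ed]
      ring
  let B0 : (ℝ × ℝ) ≃ₗ[ℝ] ℂ :=
    { toFun := fun v => e₁ * (v.1 : ℝ) + e₂ * (v.2 : ℝ)
      map_add' := by
        intro x y
        simp
        ring
      map_smul' := by
        intro r x
        simp
        ring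
      invFun := fun z => (- (((starRingEnd ℂ) e₂ * z).im / d), ((starRingEnd ℂ) e₁ * z).im / d)
      left_inv := by
        intro v
        obtain ⟨k1, k2⟩ := key v
        ext
        · show - (((starRingEnd ℂ) e₂ * (e₁ * (v.1 : ℝ) + e₂ * (v.2 : ℝ))).im / d) = v.1
          rw [k1]
          field_simp
        · show ((starRingEnd ℂ) e₁ * (e₁ * (v.1 : ℝ) + e₂ * (v.2 : ℝ))).im / d = v.2
          rw [k2]
          field_simp
      right_inv := by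
        intro z
        apply Complex.ext
        · simp [Complex.mul_im, Complex.mul_re]
          field_simp
          rw [ed]
          ring
        · simp [Complex.mul_im, Complex.mul_re]
          field_simp
          rw [ed]
          ring }
  refine ⟨B0.toContinuousLinearEquiv, fun v => rfl, fun z => ?_⟩
  set v := B0.toContinuousLinearEquiv.symm z with hv
  have hz : e₁ * (v.1 : ℝ) + e₂ * (v.2 : ℝ) = z := by
    have : B0.toContinuousLinearEquiv v = z := by rw [hv]; simp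
    exact this
  obtain ⟨k1, k2⟩ := key v
  rw [hz] at k1 k2
  have hL : 0 ≤ L := (norm_nonneg _).trans h1
  have b1 : |v.1| ≤ L / c * ‖z‖ := by
    have a1 : |d| * |v.1| ≤ L * ‖z‖ := by
      rw [← abs_mul, ← abs_neg, ← k1]
      refine (Complex.abs_im_le_norm _).trans ?_
      rw [norm_mul, Complex.norm_conj]
      exact mul_le_mul_of_nonneg_right h2 (norm_nonneg _)
    rw [div_mul_eq_mul_div, le_div_iff₀ hc]
    nlinarith [mul_le_mul_of_nonneg_right h (abs_nonneg v.1)]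
  have b2 : |v.2| ≤ L / c * ‖z‖ := by
    have a1 : |d| * |v.2| ≤ L * ‖z‖ := by
      rw [← abs_mul, ← k2]
      refine (Complex.abs_im_le_norm _).trans ?_
      rw [norm_mul, Complex.norm_conj]
      exact mul_le_mul_of_nonneg_right h1 (norm_nonneg _)
    rw [div_mul_eq_mul_div, le_div_iff₀ hc]
    nlinarith [mul_le_mul_of_nonneg_right h (abs_nonneg v.2)]
  rw [Prod.norm_def]
  exact max_le b1 b2

theorem arc_newton_pr {W : Type*} [NormedAddCommGroup W] [NormedSpace ℝ W] [CompleteSpace W]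
    (L c ρ : ℝ) (hL : 1 ≤ L) (hc : 0 < c) (hρ : 0 < ρ) : ∃ Cn ε0 : ℝ, 1 ≤ Cn ∧ 0 < ε0 ∧
    ∀ (O : Set Pl) (S0 : Pl × (ℝ × ℝ) → ℂ × W) (Sm : Pl × ℝ × (ℝ × ℝ) → ℂ × W)
      (em : Pl × W × ℝ → ℂ × W) (ε : ℝ), 0 ≤ ε → ε ≤ ε0 →
      RegF L S0 O ρ →
      (∀ X ∈ O, (S0 (X, 0)).1 = 0) →
      (∀ X ∈ O, ∃ e₁ e₂ : ℂ, c ≤ |((starRingEnd ℂ) e₁ * e₂).im| ∧ ‖e₁‖ ≤ L ∧ ‖e₂‖ ≤ L ∧
        ∀ η ∈ Metric.closedBall (0 : ℝ × ℝ) ρ,
          ‖(S0 (X, η)).1 - (e₁ * (η.1 : ℝ) + e₂ * (η.2 : ℝ))‖ ≤ L * (|η.1| + |η.2|) ^ 2) →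
      Near ε Sm (fun q => S0 (q.1, q.2.2)) (O ×ˢ (JJ ×ˢ Metric.closedBall (0 : ℝ × ℝ) ρ)) →
      Near ε em (fun q => ((0:ℂ), q.2.1))
        {q | q.1 ∈ O ∧ ‖q.2.1 - (S0 (q.1, 0)).2‖ ≤ ρ ∧ q.2.2 ∈ JJ} →
      ∃ (η : Pl × ℝ × ℝ → ℝ × ℝ) (D : Pl × ℝ × ℝ → W),
        Near (Cn * ε) η (fun _ => 0) (O ×ˢ (JJ ×ˢ JJ)) ∧
        Near (Cn * ε) D (fun p => (S0 (p.1, 0)).2) (O ×ˢ (JJ ×ˢ JJ)) ∧
        ∀ p ∈ O ×ˢ (JJ ×ˢ JJ), Sm (p.1, p.2.1, η p) = em (p.1, D p, p.2.2) := by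
  set K : ℝ := max 1 (L / c) with hK
  have hK1 : 1 ≤ K := le_max_left _ _
  have hK0 : 0 < K := by linarith
  have hL0 : 0 < L := by linarith
  set r1 : ℝ := min (ρ / (2 * (L + 1))) (1 / (80 * L * K)) with hr1
  have hr1p : 0 < r1 := lt_min (by positivity) (by positivity)
  have hr1a : (L + 1) * (2 * r1) ≤ ρ := by
    have h : r1 ≤ ρ / (2 * (L + 1)) := min_le_left _ _
    rw [le_div_iff₀ (by positivity)] at h
    linarith
  have hr1b : 20 * L * r1 * K ≤ 1 / 4 := by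
    have h : r1 ≤ 1 / (80 * L * K) := min_le_right _ _
    rw [le_div_iff₀ (by positivity)] at h
    linarith
  have hr1c : 2 * r1 ≤ ρ := by nlinarith
  set Λ : ℝ := 2 * K * (L + 2) * (1 + 2 * L * K) with hΛ
  have hΛ1 : K * (L + 2) ≤ Λ := by
    rw [hΛ]
    have : 0 ≤ K * (L + 2) * (1 + 4 * L * K) := by positivity
    nlinarith
  have hΛ2 : 1 ≤ Λ := by nlinarith
  have hΛ0 : 0 < Λ := by linarith
  refine ⟨(L + 1) * Λ + 4 * L * K * (L + 2), min (r1 / (2 * K * (L + 2))) (1 / (4 * Λ)), ?_,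
    lt_min (by positivity) (by positivity), ?_⟩
  · have : 0 ≤ 4 * L * K * (L + 2) := by positivity
    nlinarith
  intro O S0 Sm em ε hε hε0 hS h00 htr hSm hem
  have he1 : 2 * K * ((L + 2) * ε) ≤ r1 := by
    have h : ε ≤ r1 / (2 * K * (L + 2)) := hε0.trans (min_le_left _ _)
    rw [le_div_iff₀ (by positivity)] at h
    linarith
  have he2 : Λ * ε ≤ 1 / 4 := by
    have h : ε ≤ 1 / (4 * Λ) := hε0.trans (min_le_right _ _)
    rw [le_div_iff₀ (by positivity)] at h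
    linarith
  have hB : ∀ X : Pl, ∃ B : (ℝ × ℝ) ≃L[ℝ] ℂ, X ∈ O →
      (∀ z, ‖B.symm z‖ ≤ K * ‖z‖) ∧ ∀ η ∈ Metric.closedBall (0 : ℝ × ℝ) ρ,
        ‖(S0 (X, η)).1 - B η‖ ≤ L * (|η.1| + |η.2|) ^ 2 := by
    intro X
    by_cases hX : X ∈ O
    · obtain ⟨e₁, e₂, h1, h2, h3, h4⟩ := htr X hX
      obtain ⟨B, hB1, hB2⟩ := n1_equiv hc h1 h2 h3
      refine ⟨B, fun _ => ⟨fun z => (hB2 z).trans
        (mul_le_mul_of_nonneg_right (le_max_right _ _) (norm_nonneg _)), fun η hη => ?_⟩⟩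
      rw [hB1]
      exact h4 η hη
    · obtain ⟨B, -, -⟩ := n1_equiv (e₁ := 1) (e₂ := Complex.I) (c := 1) (L := 1) one_pos
        (by simp) (by simp) (by simp)
      exact ⟨B, fun h => absurd h hX⟩
  choose B hB' using hB
  -- the two maps
  let Ξ : (Pl × ℝ × ℝ) × ((ℝ × ℝ) × W) → ℂ × W := fun q => ((S0 (q.1.1, q.2.1)).1, q.2.2)
  let Υ : (Pl × ℝ × ℝ) × ((ℝ × ℝ) × W) → ℂ × W := fun q =>
    Sm (q.1.1, q.1.2.1, q.2.1) - em (q.1.1, (S0 (q.1.1, q.2.1)).2 - q.2.2, q.1.2.2)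
  let A : (Pl × ℝ × ℝ) → ((ℝ × ℝ) × W) ≃L[ℝ] ℂ × W := fun p =>
    (B p.1).prodCongr (ContinuousLinearEquiv.refl ℝ W)
  -- projections
  have n1 : ∀ z : ℂ × W, ‖z.1‖ ≤ ‖z‖ := fun z => by rw [Prod.norm_def]; exact le_max_left _ _
  have n2 : ∀ z : ℂ × W, ‖z.2‖ ≤ ‖z‖ := fun z => by rw [Prod.norm_def]; exact le_max_right _ _
  have d1 : ∀ p p' : Pl × ℝ × ℝ, dist p.1 p'.1 ≤ dist p p' := fun p p' => by
    rw [Prod.dist_eq (x := p)]; exact le_max_left _ _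
  -- `RegF` at `θ = θ' = 0`
  have hR0 : ∀ X ∈ O, ∀ X' ∈ O, ∀ η : ℝ × ℝ, ‖η‖ ≤ ρ → ∀ η' : ℝ × ℝ, ‖η'‖ ≤ ρ →
      ‖(S0 (X, η) - S0 (X, 0)) - (S0 (X', η') - S0 (X', 0))‖ ≤
        L * ‖η - η'‖ + L * (dist X X' + ‖η - η'‖) * ‖η'‖ := by
    intro X hX X' hX' η hη η' hη'
    have h := hS.2 X hX X' hX' η (mem_closedBall_zero_iff.2 hη) 0
      (mem_closedBall_zero_iff.2 (by simpa using hρ.le)) η' (mem_closedBall_zero_iff.2 hη') 0
      (mem_closedBall_zero_iff.2 (by simpa using hρ.le))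
    simp only [sub_zero, add_zero, norm_zero] at h
    refine le_trans (le_of_eq ?_) h
    congr 1
    abel
  have hlip : ∀ X ∈ O, ∀ X' ∈ O, ∀ η : ℝ × ℝ, ‖η‖ ≤ ρ → ∀ η' : ℝ × ℝ, ‖η'‖ ≤ ρ →
      ‖S0 (X, η) - S0 (X', η')‖ ≤ L * max (dist X X') ‖η - η'‖ := by
    intro X hX X' hX' η hη η' hη'
    have h := hS.1 (X, η) ⟨hX, mem_closedBall_zero_iff.2 hη⟩ (X', η')
      ⟨hX', mem_closedBall_zero_iff.2 hη'⟩
    rwa [Prod.dist_eq, dist_eq_norm η η'] at h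
  have hρ1 : r1 ≤ ρ := by linarith
  have hnear : Near ((L + 2) * ε) Υ Ξ
      ((O ×ˢ (JJ ×ˢ JJ)) ×ˢ Metric.closedBall (0 : (ℝ × ℝ) × W) r1) := by
    -- the two differences
    let a : (Pl × ℝ × ℝ) × ((ℝ × ℝ) × W) → ℂ × W := fun q =>
      Sm (q.1.1, q.1.2.1, q.2.1) - S0 (q.1.1, q.2.1)
    let b : (Pl × ℝ × ℝ) × ((ℝ × ℝ) × W) → ℂ × W := fun q =>
      em (q.1.1, (S0 (q.1.1, q.2.1)).2 - q.2.2, q.1.2.2) -
        ((0 : ℂ), (S0 (q.1.1, q.2.1)).2 - q.2.2)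
    have hab : ∀ q, Υ q - Ξ q = a q - b q := by
      intro q
      show (Sm (q.1.1, q.1.2.1, q.2.1) - em (q.1.1, (S0 (q.1.1, q.2.1)).2 - q.2.2, q.1.2.2)) -
        ((S0 (q.1.1, q.2.1)).1, q.2.2) = (Sm (q.1.1, q.1.2.1, q.2.1) - S0 (q.1.1, q.2.1)) -
          (em (q.1.1, (S0 (q.1.1, q.2.1)).2 - q.2.2, q.1.2.2) -
            ((0 : ℂ), (S0 (q.1.1, q.2.1)).2 - q.2.2))
      have e : S0 (q.1.1, q.2.1) = ((S0 (q.1.1, q.2.1)).1, q.2.2) +
          ((0 : ℂ), (S0 (q.1.1, q.2.1)).2 - q.2.2) := by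
        ext1
        · show (S0 (q.1.1, q.2.1)).1 = (S0 (q.1.1, q.2.1)).1 + 0
          simp
        · show (S0 (q.1.1, q.2.1)).2 = q.2.2 + ((S0 (q.1.1, q.2.1)).2 - q.2.2)
          simp
      have e2 : ∀ (x y s t u : ℂ × W), s = t + u → x - y - t = (x - s) - (y - u) := by
        intro x y s t u h
        rw [h]
        abel
      exact e2 _ _ _ _ _ e
    have hm1 : ∀ q ∈ (O ×ˢ (JJ ×ˢ JJ)) ×ˢ Metric.closedBall (0 : (ℝ × ℝ) × W) r1,
        ((q.1.1, q.1.2.1, q.2.1) : Pl × ℝ × (ℝ × ℝ)) ∈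
          O ×ˢ (JJ ×ˢ Metric.closedBall (0 : ℝ × ℝ) ρ) := by
      intro q hq
      refine ⟨hq.1.1, hq.1.2.1, mem_closedBall_zero_iff.2 ?_⟩
      exact (norm_fst_le _).trans ((mem_closedBall_zero_iff.1 hq.2).trans hρ1)
    have hm2 : ∀ q ∈ (O ×ˢ (JJ ×ˢ JJ)) ×ˢ Metric.closedBall (0 : (ℝ × ℝ) × W) r1,
        ((q.1.1, (S0 (q.1.1, q.2.1)).2 - q.2.2, q.1.2.2) : Pl × W × ℝ) ∈
          {q : Pl × W × ℝ | q.1 ∈ O ∧ ‖q.2.1 - (S0 (q.1, 0)).2‖ ≤ ρ ∧ q.2.2 ∈ JJ} := by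
      intro q hq
      refine ⟨hq.1.1, ?_, hq.1.2.2⟩
      have hq2 := mem_closedBall_zero_iff.1 hq.2
      have h1 := hlip q.1.1 hq.1.1 q.1.1 hq.1.1 q.2.1
        ((norm_fst_le _).trans (hq2.trans hρ1)) 0 (by simpa using hρ.le)
      rw [dist_self, sub_zero, max_eq_right (norm_nonneg _)] at h1
      show ‖(S0 (q.1.1, q.2.1)).2 - q.2.2 - (S0 (q.1.1, 0)).2‖ ≤ ρ
      have e : (S0 (q.1.1, q.2.1)).2 - q.2.2 - (S0 (q.1.1, 0)).2 =
          (S0 (q.1.1, q.2.1) - S0 (q.1.1, 0)).2 - q.2.2 := by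
        show _ = (S0 (q.1.1, q.2.1)).2 - (S0 (q.1.1, 0)).2 - q.2.2
        abel
      rw [e]
      refine (norm_sub_le _ _).trans ?_
      have h3 := (n2 (S0 (q.1.1, q.2.1) - S0 (q.1.1, 0))).trans h1
      have h4 : ‖q.2.1‖ ≤ ‖q.2‖ := norm_fst_le _
      have h5 : ‖q.2.2‖ ≤ ‖q.2‖ := norm_snd_le _
      have h6 : L * ‖q.2.1‖ ≤ L * r1 := mul_le_mul_of_nonneg_left (h4.trans hq2) hL0.le
      nlinarith
    constructor
    · intro q hq
      rw [hab]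
      refine (norm_sub_le _ _).trans ?_
      have h1 := hSm.1 _ (hm1 q hq)
      have h2 := hem.1 _ (hm2 q hq)
      have h3 : ‖a q‖ ≤ ε := h1
      have h4 : ‖b q‖ ≤ ε := h2
      nlinarith [mul_nonneg hL0.le hε]
    · intro q hq q' hq'
      rw [hab, hab]
      have h1 := hSm.2 _ (hm1 q hq) _ (hm1 q' hq')
      have h2 := hem.2 _ (hm2 q hq) _ (hm2 q' hq')
      have h3 : ‖a q - a q'‖ ≤ ε * dist ((q.1.1, q.1.2.1, q.2.1) : Pl × ℝ × (ℝ × ℝ))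
        (q'.1.1, q'.1.2.1, q'.2.1) := h1
      have h4 : ‖b q - b q'‖ ≤ ε * dist
        ((q.1.1, (S0 (q.1.1, q.2.1)).2 - q.2.2, q.1.2.2) : Pl × W × ℝ)
        (q'.1.1, (S0 (q'.1.1, q'.2.1)).2 - q'.2.2, q'.1.2.2) := h2
      have k0 : dist q.1 q'.1 ≤ dist q q' := by
        rw [Prod.dist_eq (x := q)]; exact le_max_left _ _
      have k1 : dist q.2 q'.2 ≤ dist q q' := by
        rw [Prod.dist_eq (x := q)]; exact le_max_right _ _
      have k2 : dist q.1.1 q'.1.1 ≤ dist q q' := (d1 _ _).trans k0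
      have k3 : dist q.1.2 q'.1.2 ≤ dist q q' :=
        le_trans (by rw [Prod.dist_eq (x := q.1)]; exact le_max_right _ _) k0
      have k4 : dist q.1.2.1 q'.1.2.1 ≤ dist q q' :=
        le_trans (by rw [Prod.dist_eq (x := q.1.2)]; exact le_max_left _ _) k3
      have k5 : dist q.1.2.2 q'.1.2.2 ≤ dist q q' :=
        le_trans (by rw [Prod.dist_eq (x := q.1.2)]; exact le_max_right _ _) k3
      have k6 : dist q.2.1 q'.2.1 ≤ dist q q' :=
        le_trans (by rw [Prod.dist_eq (x := q.2)]; exact le_max_left _ _) k1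
      have k7 : dist q.2.2 q'.2.2 ≤ dist q q' :=
        le_trans (by rw [Prod.dist_eq (x := q.2)]; exact le_max_right _ _) k1
      have hd0 : 0 ≤ dist q q' := dist_nonneg
      have m1 : dist ((q.1.1, q.1.2.1, q.2.1) : Pl × ℝ × (ℝ × ℝ))
          (q'.1.1, q'.1.2.1, q'.2.1) ≤ dist q q' := by
        rw [Prod.dist_eq, Prod.dist_eq]
        exact max_le k2 (max_le k4 k6)
      have m2 : dist ((S0 (q.1.1, q.2.1)).2 - q.2.2) ((S0 (q'.1.1, q'.2.1)).2 - q'.2.2) ≤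
          (L + 1) * dist q q' := by
        rw [dist_eq_norm]
        have e : (S0 (q.1.1, q.2.1)).2 - q.2.2 - ((S0 (q'.1.1, q'.2.1)).2 - q'.2.2) =
            (S0 (q.1.1, q.2.1) - S0 (q'.1.1, q'.2.1)).2 - (q.2.2 - q'.2.2) := by
          show _ = (S0 (q.1.1, q.2.1)).2 - (S0 (q'.1.1, q'.2.1)).2 - (q.2.2 - q'.2.2)
          abel
        rw [e]
        refine (norm_sub_le _ _).trans ?_
        have h5 := (n2 _).trans (hlip q.1.1 hq.1.1 q'.1.1 hq'.1.1 q.2.1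
          ((norm_fst_le _).trans ((mem_closedBall_zero_iff.1 hq.2).trans hρ1)) q'.2.1
          ((norm_fst_le _).trans ((mem_closedBall_zero_iff.1 hq'.2).trans hρ1)))
        rw [← dist_eq_norm q.2.1 q'.2.1] at h5
        rw [← dist_eq_norm q.2.2 q'.2.2]
        have h6 : L * max (dist q.1.1 q'.1.1) (dist q.2.1 q'.2.1) ≤ L * dist q q' :=
          mul_le_mul_of_nonneg_left (max_le k2 k6) hL0.le
        linarith
      have m3 : dist ((q.1.1, (S0 (q.1.1, q.2.1)).2 - q.2.2, q.1.2.2) : Pl × W × ℝ)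
          (q'.1.1, (S0 (q'.1.1, q'.2.1)).2 - q'.2.2, q'.1.2.2) ≤ (L + 1) * dist q q' := by
        rw [Prod.dist_eq, Prod.dist_eq]
        have k8 : dist q q' ≤ (L + 1) * dist q q' := by nlinarith
        exact max_le (k2.trans k8) (max_le m2 (k5.trans k8))
      have e : a q - b q - (a q' - b q') = (a q - a q') - (b q - b q') := by abel
      rw [e]
      refine (norm_sub_le _ _).trans ?_
      have m4 := mul_le_mul_of_nonneg_left m1 hε
      have m5 := mul_le_mul_of_nonneg_left m3 hε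
      have m6 : (L + 2) * ε * dist q q' = ε * dist q q' + ε * ((L + 1) * dist q q') := by ring
      rw [m6]
      exact add_le_add (h3.trans m4) (h4.trans m5)
  have hN := newton_lip Ξ Υ A (O ×ˢ (JJ ×ˢ JJ)) r1 K (20 * L * r1) L ((L + 2) * ε) hr1p hK0
    (by positivity) hL0.le (by positivity)
    (by
      intro p hp
      show ((S0 (p.1, (0 : ℝ × ℝ))).1, (0 : W)) = 0
      rw [h00 p.1 hp.1]
      rfl)
    (by
      intro p hp v
      show ‖((B p.1).symm v.1, v.2)‖ ≤ K * ‖v‖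
      rw [Prod.norm_def]
      refine max_le (((hB' p.1 hp.1).1 _).trans (mul_le_mul_of_nonneg_left (n1 v) hK0.le)) ?_
      nlinarith [n2 v, norm_nonneg v])
    (by
      intro p hp η hη η' hη'
      show ‖((S0 (p.1, η.1)).1, η.2) - ((S0 (p.1, η'.1)).1, η'.2) -
        (B p.1 (η.1 - η'.1), η.2 - η'.2)‖ ≤ 20 * L * r1 * ‖η - η'‖
      rw [mem_closedBall_zero_iff] at hη hη'
      have e : ((S0 (p.1, η.1)).1, η.2) - ((S0 (p.1, η'.1)).1, η'.2) -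
        (B p.1 (η.1 - η'.1), η.2 - η'.2) =
          ((S0 (p.1, η.1)).1 - (S0 (p.1, η'.1)).1 - B p.1 (η.1 - η'.1), (0 : W)) := by
        ext1
        · rfl
        · show η.2 - η'.2 - (η.2 - η'.2) = 0
          simp
      rw [e, Prod.norm_def]
      simp only [norm_zero]
      refine max_le ?_ (by positivity)
      have hreg : Reg L (fun η : ℝ × ℝ => (S0 (p.1, η)).1) (Metric.closedBall 0 ρ) := by
        constructor
        · intro x hx y hy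
          have h := hS.1 (p.1, x) ⟨hp.1, hx⟩ (p.1, y) ⟨hp.1, hy⟩
          rw [Prod.dist_eq] at h
          simp only [dist_self] at h
          rw [max_eq_right dist_nonneg] at h
          exact (n1 _).trans h
        · intro x hx y hy x' hx' y' hy'
          have h := hS.2 p.1 hp.1 p.1 hp.1 x hx y hy x' hx' y' hy'
          rw [dist_self, zero_add] at h
          exact (n1 _).trans h
      have hlin := reg_linear (L := L) (Q := 4 * L) (ρ := r1) (x0 := (0 : ℝ × ℝ))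
        ((B p.1 : (ℝ × ℝ) ≃L[ℝ] ℂ) : (ℝ × ℝ) →L[ℝ] ℂ) hreg
        (Metric.closedBall_subset_closedBall hr1c) hr1p hL0.le (by positivity)
        (by
          intro h hh
          have h5 := (hB' p.1 hp.1).2 h (mem_closedBall_zero_iff.2 (hh.trans hr1c))
          have e5 : (S0 (p.1, (0 : ℝ × ℝ) + h)).1 - (S0 (p.1, 0)).1 - (B p.1) h =
              (S0 (p.1, h)).1 - (B p.1) h := by
            rw [h00 p.1 hp.1, zero_add, sub_zero]
          show ‖(S0 (p.1, (0 : ℝ × ℝ) + h)).1 - (S0 (p.1, 0)).1 - (B p.1) h‖ ≤ _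
          rw [e5]
          refine h5.trans ?_
          have a1 : |h.1| ≤ ‖h‖ := by rw [Prod.norm_def]; exact le_max_left _ _
          have a2 : |h.2| ≤ ‖h‖ := by rw [Prod.norm_def]; exact le_max_right _ _
          have a3 : (|h.1| + |h.2|) ^ 2 ≤ (2 * ‖h‖) ^ 2 :=
            pow_le_pow_left₀ (by positivity) (by linarith) 2
          nlinarith [mul_le_mul_of_nonneg_left a3 hL0.le])
        η.1 (mem_closedBall_zero_iff.2 ((norm_fst_le η).trans hη))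
        η'.1 (mem_closedBall_zero_iff.2 ((norm_fst_le η').trans hη'))
      have h6 : ‖η.1 - η'.1‖ ≤ ‖η - η'‖ := norm_fst_le (η - η')
      refine le_trans (le_of_eq ?_) (hlin.trans ?_)
      · rfl
      · nlinarith [mul_le_mul_of_nonneg_left h6 (mul_nonneg hL0.le hr1p.le)])
    (by
      intro p hp p' hp' η hη
      rw [mem_closedBall_zero_iff] at hη
      show ‖((S0 (p.1, η.1)).1, η.2) - ((S0 (p'.1, η.1)).1, η.2)‖ ≤ L * ‖η‖ * dist p p'
      have hη1 : ‖η.1‖ ≤ ρ := (norm_fst_le η).trans (hη.trans hρ1)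
      have h := hR0 p.1 hp.1 p'.1 hp'.1 η.1 hη1 η.1 hη1
      rw [sub_self, norm_zero, mul_zero, zero_add, add_zero] at h
      have e : ((S0 (p.1, η.1)).1, η.2) - ((S0 (p'.1, η.1)).1, η.2) =
          (((S0 (p.1, η.1) - S0 (p.1, 0)) - (S0 (p'.1, η.1) - S0 (p'.1, 0))).1, (0 : W)) := by
        ext1
        · show (S0 (p.1, η.1)).1 - (S0 (p'.1, η.1)).1 =
            ((S0 (p.1, η.1)).1 - (S0 (p.1, 0)).1) - ((S0 (p'.1, η.1)).1 - (S0 (p'.1, 0)).1)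
          rw [h00 p.1 hp.1, h00 p'.1 hp'.1]
          simp
        · show η.2 - η.2 = 0
          simp
      rw [e, Prod.norm_def]
      simp only [norm_zero]
      refine max_le ?_ (by positivity)
      refine (n1 _).trans (h.trans ?_)
      have h7 := d1 p p'
      have h8 : ‖η.1‖ ≤ ‖η‖ := norm_fst_le η
      calc L * dist p.1 p'.1 * ‖η.1‖ ≤ L * dist p p' * ‖η‖ := by gcongr
        _ = L * ‖η‖ * dist p p' := by ring)
    hnear
    (by linarith) (by nlinarith) (by linarith)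
  obtain ⟨H, hH1, -, hH2⟩ := hN
  have hHa : ∀ p ∈ O ×ˢ (JJ ×ˢ JJ), ‖H p‖ ≤ 2 * K * ((L + 2) * ε) := fun p hp => (hH1 p hp).1
  have hHr : ∀ p ∈ O ×ˢ (JJ ×ˢ JJ), ‖H p‖ ≤ r1 := fun p hp => (hHa p hp).trans he1
  have hHd : ∀ p ∈ O ×ˢ (JJ ×ˢ JJ), ∀ p' ∈ O ×ˢ (JJ ×ˢ JJ), ‖H p - H p'‖ ≤ Λ * ε * dist p p' := by
    intro p hp p' hp'
    refine (hH2 p hp p' hp').trans (le_of_eq ?_)
    rw [hΛ]
    ring
  have hKL : 2 * K * ((L + 2) * ε) ≤ 2 * Λ * ε := by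
    nlinarith [mul_le_mul_of_nonneg_right hΛ1 hε]
  have hC1 : Λ ≤ (L + 1) * Λ + 4 * L * K * (L + 2) := by
    have : 0 ≤ 4 * L * K * (L + 2) := by positivity
    nlinarith
  refine ⟨fun p => (H p).1, fun p => (S0 (p.1, (H p).1)).2 - (H p).2, ⟨?_, ?_⟩, ⟨?_, ?_⟩, ?_⟩
  · intro p hp
    rw [sub_zero]
    refine (norm_fst_le (H p)).trans ((hHa p hp).trans ?_)
    have h9 : 2 * K * ((L + 2) * ε) ≤ Λ * ε := by
      have : 2 * K * (L + 2) ≤ Λ := by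
        rw [hΛ]
        have : 0 ≤ K * (L + 2) * (L * K) := by positivity
        nlinarith
      nlinarith [mul_le_mul_of_nonneg_right this hε]
    refine h9.trans (mul_le_mul_of_nonneg_right hC1 hε)
  · intro p hp p' hp'
    simp only [sub_zero]
    refine (norm_fst_le (H p - H p')).trans ((hHd p hp p' hp').trans ?_)
    exact mul_le_mul_of_nonneg_right (mul_le_mul_of_nonneg_right hC1 hε) dist_nonneg
  · intro p hp
    have h1 := hlip p.1 hp.1 p.1 hp.1 (H p).1 ((norm_fst_le _).trans ((hHr p hp).trans hρ1)) 0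
      (by simpa using hρ.le)
    rw [dist_self, sub_zero, max_eq_right (norm_nonneg _)] at h1
    have h2 : ‖(S0 (p.1, (H p).1)).2 - (H p).2 - (S0 (p.1, 0)).2‖ ≤ L * ‖H p‖ + ‖H p‖ := by
      have e : (S0 (p.1, (H p).1)).2 - (H p).2 - (S0 (p.1, 0)).2 =
          (S0 (p.1, (H p).1) - S0 (p.1, 0)).2 - (H p).2 := by
        show _ = (S0 (p.1, (H p).1)).2 - (S0 (p.1, 0)).2 - (H p).2
        abel
      rw [e]
      refine (norm_sub_le _ _).trans ?_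
      have h3 := (n2 (S0 (p.1, (H p).1) - S0 (p.1, 0))).trans h1
      have h4 : ‖(H p).1‖ ≤ ‖H p‖ := norm_fst_le _
      have h5 : ‖(H p).2‖ ≤ ‖H p‖ := norm_snd_le _
      nlinarith [mul_le_mul_of_nonneg_left h4 hL0.le]
    refine h2.trans ?_
    have h6 := hHa p hp
    have h7 : L * ‖H p‖ + ‖H p‖ ≤ (L + 1) * (2 * K * ((L + 2) * ε)) := by nlinarith
    refine h7.trans ?_
    have h8 : (L + 1) * (2 * K * (L + 2)) ≤ (L + 1) * Λ := by
      refine mul_le_mul_of_nonneg_left ?_ (by positivity)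
      rw [hΛ]
      have : 0 ≤ K * (L + 2) * (L * K) := by positivity
      nlinarith
    have h9 : 0 ≤ 4 * L * K * (L + 2) := by positivity
    nlinarith [mul_le_mul_of_nonneg_right h8 hε, mul_nonneg h9 hε]
  · intro p hp p' hp'
    have h1 := hR0 p.1 hp.1 p'.1 hp'.1 (H p).1 ((norm_fst_le _).trans ((hHr p hp).trans hρ1))
      (H p').1 ((norm_fst_le _).trans ((hHr p' hp').trans hρ1))
    have e : ((S0 (p.1, (H p).1)).2 - (H p).2 - (S0 (p.1, 0)).2) -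
        ((S0 (p'.1, (H p').1)).2 - (H p').2 - (S0 (p'.1, 0)).2) =
        ((S0 (p.1, (H p).1) - S0 (p.1, 0)) - (S0 (p'.1, (H p').1) - S0 (p'.1, 0))).2 -
          (H p - H p').2 := by
      show _ = ((S0 (p.1, (H p).1)).2 - (S0 (p.1, 0)).2) -
        ((S0 (p'.1, (H p').1)).2 - (S0 (p'.1, 0)).2) - ((H p).2 - (H p').2)
      abel
    rw [e]
    refine (norm_sub_le _ _).trans ?_
    have h2 := (n2 _).trans h1
    have h3 : ‖(H p - H p').2‖ ≤ ‖H p - H p'‖ := norm_snd_le _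
    have h4 : ‖(H p).1 - (H p').1‖ ≤ ‖H p - H p'‖ := norm_fst_le (H p - H p')
    have h5 := hHd p hp p' hp'
    have h6 : ‖(H p').1‖ ≤ 2 * K * ((L + 2) * ε) := (norm_fst_le _).trans (hHa p' hp')
    have h7 := d1 p p'
    have h8 : Λ * ε * dist p p' ≤ 1 * dist p p' :=
      mul_le_mul_of_nonneg_right (by linarith) dist_nonneg
    have hd0 : 0 ≤ dist p p' := dist_nonneg
    have h9 : L * ‖(H p).1 - (H p').1‖ ≤ L * (Λ * ε * dist p p') :=
      mul_le_mul_of_nonneg_left (h4.trans h5) hL0.le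
    have h10 : L * (dist p.1 p'.1 + ‖(H p).1 - (H p').1‖) * ‖(H p').1‖ ≤
        L * (2 * dist p p') * (2 * K * ((L + 2) * ε)) := by
      refine mul_le_mul (mul_le_mul_of_nonneg_left ?_ hL0.le) h6 (norm_nonneg _) (by positivity)
      linarith [h4.trans h5]
    have h11 : (L + 1) * Λ * ε * dist p p' + 4 * L * K * (L + 2) * ε * dist p p' ≤
        ((L + 1) * Λ + 4 * L * K * (L + 2)) * ε * dist p p' := le_of_eq (by ring)
    refine le_trans ?_ h11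
    linarith [h3.trans h5]
  · intro p hp
    have h := (hH1 p hp).2
    exact sub_eq_zero.1 h

end

end Pool.Agent.HS

namespace Pool.Agent.HS
open Set Filter Topology Classical

theorem arc_newton {W : Type*} [NormedAddCommGroup W] [NormedSpace ℝ W] [CompleteSpace W]
    (L c ρ : ℝ) (hL : 1 ≤ L) (hc : 0 < c) (hρ : 0 < ρ) : ∃ Cn ε0 : ℝ, 1 ≤ Cn ∧ 0 < ε0 ∧
    ∀ (O : Set Pl) (S0 : Pl × (ℝ × ℝ) → ℂ × W) (Sm : Pl × ℝ × (ℝ × ℝ) → ℂ × W)
      (em : Pl × W × ℝ → ℂ × W) (ε : ℝ), 0 ≤ ε → ε ≤ ε0 →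
      RegF L S0 O ρ →
      (∀ X ∈ O, (S0 (X, 0)).1 = 0) →
      (∀ X ∈ O, ∃ e₁ e₂ : ℂ, c ≤ |((starRingEnd ℂ) e₁ * e₂).im| ∧ ‖e₁‖ ≤ L ∧ ‖e₂‖ ≤ L ∧
        ∀ η ∈ Metric.closedBall (0 : ℝ × ℝ) ρ,
          ‖(S0 (X, η)).1 - (e₁ * (η.1 : ℝ) + e₂ * (η.2 : ℝ))‖ ≤ L * (|η.1| + |η.2|) ^ 2) →
      Near ε Sm (fun q => S0 (q.1, q.2.2)) (O ×ˢ (JJ ×ˢ Metric.closedBall (0 : ℝ × ℝ) ρ)) →
      Near ε em (fun q => ((0:ℂ), q.2.1))
        {q | q.1 ∈ O ∧ ‖q.2.1 - (S0 (q.1, 0)).2‖ ≤ ρ ∧ q.2.2 ∈ JJ} →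
      ∃ (η : Pl × ℝ × ℝ → ℝ × ℝ) (D : Pl × ℝ × ℝ → W),
        Near (Cn * ε) η (fun _ => 0) (O ×ˢ (JJ ×ˢ JJ)) ∧
        Near (Cn * ε) D (fun p => (S0 (p.1, 0)).2) (O ×ˢ (JJ ×ˢ JJ)) ∧
        ∀ p ∈ O ×ˢ (JJ ×ˢ JJ), Sm (p.1, p.2.1, η p) = em (p.1, D p, p.2.2) :=
  @Pool.Agent.HS.arc_newton_pr W _ _ _ L c ρ hL hc hρ

end Pool.Agent.HS
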