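import Pool.Agent.Lib_helper60.HSF.D_WJ
import Pool.Agent.Lib_helper60.HSF.A_CA
import Pool.Agent.Lib_helper60.HSF.IO_C1

/-!
# Project HS, part I/O, block P10: closeness of the end data in the chart
-/

namespace Pool.Agent.HS

noncomputable section

open Set Filter Topology Classical

namespace P10

/-- the map `(R, U) ↦ (unchart, -arg R)` -/
def fm (C : ℝ) (x : ℂ × ℂ) : Pl × ℝ :=
  (unchart C (‖x.1‖, ((starRingEnd ℂ) x.1 * x.2).re / ‖x.1‖), - Complex.arg x.1)

/-- compact set of `(R, U)` -/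
def Kc (c : ℝ) : Set (ℂ × ℂ) := {x | c / 2 ≤ x.1.re ∧ ‖x.1‖ ≤ 2 / c ∧ ‖x.2‖ ≤ 2 / c}

theorem compact_Kc (c : ℝ) : IsCompact (Kc c) := by
  apply Metric.isCompact_of_isClosed_isBounded
  · apply IsClosed.inter
    · exact isClosed_le continuous_const (Complex.continuous_re.comp continuous_fst)
    · apply IsClosed.inter
      · exact isClosed_le (continuous_norm.comp continuous_fst) continuous_const
      · exact isClosed_le (continuous_norm.comp continuous_snd) continuous_const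
  · apply (Metric.isBounded_closedBall (x := (0 : ℂ × ℂ)) (r := 2 / c)).subset
    intro x hx
    rw [mem_closedBall_zero_iff, Prod.norm_def]
    exact max_le hx.2.1 hx.2.2

theorem open_U : IsOpen {x : ℂ × ℂ | 0 < x.1.re} :=
  isOpen_lt continuous_const (Complex.continuous_re.comp continuous_fst)

theorem smooth_fm (C : ℝ) : ContDiffOn ℝ 2 (fm C) {x : ℂ × ℂ | 0 < x.1.re} := by
  intro x hx
  have hx0 : x.1 ≠ 0 := by
    intro h
    have : (0:ℝ) < x.1.re := hx
    rw [h] at this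
    simp at this
  have hn0 : ‖x.1‖ ≠ 0 := norm_ne_zero_iff.mpr hx0
  apply ContDiffAt.contDiffWithinAt
  have h1 : ContDiffAt ℝ 2 (fun x : ℂ × ℂ => x.1) x := contDiffAt_fst
  have h2 : ContDiffAt ℝ 2 (fun x : ℂ × ℂ => x.2) x := contDiffAt_snd
  have hn : ContDiffAt ℝ 2 (fun x : ℂ × ℂ => ‖x.1‖) x := h1.norm ℝ hx0
  have hcj : ContDiffAt ℝ 2 (fun x : ℂ × ℂ => (starRingEnd ℂ) x.1) x :=
    (Complex.conjCLE.contDiff.contDiffAt).comp x h1
  have hre : ContDiffAt ℝ 2 (fun x : ℂ × ℂ => ((starRingEnd ℂ) x.1 * x.2).re) x :=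
    (Complex.reCLM.contDiff.contDiffAt).comp x (hcj.mul h2)
  have hq : ContDiffAt ℝ 2 (fun x : ℂ × ℂ => ((starRingEnd ℂ) x.1 * x.2).re / ‖x.1‖) x :=
    hre.div hn hn0
  have hlog : ContDiffAt ℝ 2 (fun z : ℂ => Complex.log z) x.1 := by
    have hs : x.1 ∈ Complex.slitPlane := Or.inl hx
    exact (Complex.contDiffAt_log hs).restrict_scalars ℝ
  have harg : ContDiffAt ℝ 2 (fun x : ℂ × ℂ => - Complex.arg x.1) x := by
    have h3 : ContDiffAt ℝ 2 (fun x : ℂ × ℂ => (Complex.log x.1).im) x :=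
      (Complex.imCLM.contDiff.contDiffAt).comp x (hlog.comp x h1)
    have h4 : (fun x : ℂ × ℂ => - Complex.arg x.1) = fun x : ℂ × ℂ => - (Complex.log x.1).im := by
      funext y
      rw [Complex.log_im]
    rw [h4]
    exact h3.neg
  unfold fm unchart
  refine ContDiffAt.prodMk (ContDiffAt.prodMk ?_ ?_) harg
  · exact (((hn.sub contDiffAt_const).mul contDiffAt_const).div_const _).sub contDiffAt_const
  · exact (((hq.mul contDiffAt_const).div_const _).sub contDiffAt_const).sub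
      (contDiffAt_const.mul
        ((((hn.sub contDiffAt_const).mul contDiffAt_const).div_const _).sub contDiffAt_const))

theorem K_sub (c : ℝ) (hc : 0 < c) : Kc c ⊆ {x : ℂ × ℂ | 0 < x.1.re} := by
  intro x hx
  have := hx.1
  show (0:ℝ) < x.1.re
  linarith

end P10

open P10 in
/-- P10: closeness of the end data in the chart -/
theorem wd_near_pr (C c Λ : ℝ) (hC : 0 < C) (hc : 0 < c) (hΛ : 1 ≤ Λ) : ∃ L εs : ℝ, 1 ≤ L ∧ 0 < εs ∧
    ∀ {α : Type} [PseudoMetricSpace α] (S : Set α) (D D0 : α → Dt) (ε : ℝ),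
      0 ≤ ε → ε ≤ εs → Lip Λ D0 S → Near ε D D0 S → (∀ p ∈ S, D0 p ∈ DD c) →
      Near (L * ε)
        (fun p => unchart C (‖(D p).1‖, ((starRingEnd ℂ) (D p).1 * (D p).2.1).re / ‖(D p).1‖))
        (fun p => unchart C (‖(D0 p).1‖, ((starRingEnd ℂ) (D0 p).1 * (D0 p).2.1).re / ‖(D0 p).1‖)) S ∧
      Near (L * ε) (fun p => (D p).2.2.2 - Complex.arg (D p).1)
        (fun p => (D0 p).2.2.2 - Complex.arg (D0 p).1) S := by
  obtain ⟨L1, hL1, hR⟩ := reg_of_compact open_U (smooth_fm C) (compact_Kc c) (K_sub c hc)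
  have hεs : 0 < min (c / 2) (1 / c) := lt_min (by positivity) (by positivity)
  set Λ' : ℝ := Λ + min (c / 2) (1 / c) with hΛ'
  have hΛ'0 : 0 ≤ Λ' := by linarith
  have hprod : 0 ≤ L1 * (1 + 2 * Λ') := mul_nonneg hL1 (by linarith)
  refine ⟨1 + L1 * (1 + 2 * Λ'), min (c / 2) (1 / c), by linarith, hεs, ?_⟩
  intro α _ S D D0 ε hε hεle hLip hNear hDD
  have hεc : ε ≤ c / 2 := hεle.trans (min_le_left _ _)
  have hεc' : ε ≤ 1 / c := hεle.trans (min_le_right _ _)
  have hLD : Lip (Λ + ε) D S := lip_of_near hNear hLip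
  -- projections
  have hF : Near ε (fun p => ((D p).1, (D p).2.1)) (fun p => ((D0 p).1, (D0 p).2.1)) S :=
    near_prod (near_fst hNear) (near_fst (near_snd hNear))
  have hproj : ∀ x : Dt, ‖(x.1, x.2.1)‖ ≤ ‖x‖ := by
    intro x
    rw [Prod.norm_def]
    refine max_le (norm_fst_le x) ?_
    exact (norm_fst_le x.2).trans (norm_snd_le x)
  have hLF0 : Lip Λ' (fun p => ((D0 p).1, (D0 p).2.1)) S := by
    intro p hp q hq
    have h1 := hLip p hp q hq
    have h2 := hproj (D0 p - D0 q)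
    have h3 : ((D0 p).1, (D0 p).2.1) - ((D0 q).1, (D0 q).2.1)
        = ((D0 p - D0 q).1, (D0 p - D0 q).2.1) := by
      simp
    show ‖((D0 p).1, (D0 p).2.1) - ((D0 q).1, (D0 q).2.1)‖ ≤ _
    rw [h3]
    have h4 : Λ * dist p q ≤ Λ' * dist p q :=
      mul_le_mul_of_nonneg_right (by linarith) dist_nonneg
    linarith
  have hLF : Lip Λ' (fun p => ((D p).1, (D p).2.1)) S := by
    intro p hp q hq
    have h1 := hLD p hp q hq
    have h2 := hproj (D p - D q)
    have h3 : ((D p).1, (D p).2.1) - ((D q).1, (D q).2.1)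
        = ((D p - D q).1, (D p - D q).2.1) := by
      simp
    show ‖((D p).1, (D p).2.1) - ((D q).1, (D q).2.1)‖ ≤ _
    rw [h3]
    have h4 : (Λ + ε) * dist p q ≤ Λ' * dist p q :=
      mul_le_mul_of_nonneg_right (by linarith) dist_nonneg
    linarith
  have hm0 : MapsTo (fun p => ((D0 p).1, (D0 p).2.1)) S (Kc c) := by
    intro p hp
    obtain ⟨h1, h2, h3, -, -⟩ := hDD p hp
    have h5 : 1 / c ≤ 2 / c := by
      apply div_le_div_of_nonneg_right _ hc.le
      norm_num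
    refine ⟨?_, h2.trans h5, h3.trans h5⟩
    show c / 2 ≤ (D0 p).1.re
    linarith
  have hm : MapsTo (fun p => ((D p).1, (D p).2.1)) S (Kc c) := by
    intro p hp
    obtain ⟨h1, h2, h3, -, -⟩ := hDD p hp
    have h4 := hNear.1 p hp
    have h5 : ‖(D p).1 - (D0 p).1‖ ≤ ε := by
      have := norm_fst_le (D p - D0 p)
      exact this.trans h4
    have h6 : ‖(D p).2.1 - (D0 p).2.1‖ ≤ ε := by
      have h7 := norm_fst_le (D p - D0 p).2
      have h8 := norm_snd_le (D p - D0 p)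
      exact h7.trans (h8.trans h4)
    have h9 : |((D p).1 - (D0 p).1).re| ≤ ε := (Complex.abs_re_le_norm _).trans h5
    rw [Complex.sub_re, abs_le] at h9
    have h10 : 2 / c = 1 / c + 1 / c := by ring
    refine ⟨?_, ?_, ?_⟩
    · show c / 2 ≤ (D p).1.re
      linarith [h9.1]
    · show ‖(D p).1‖ ≤ 2 / c
      have h11 : ‖(D p).1‖ ≤ ‖(D p).1 - (D0 p).1‖ + ‖(D0 p).1‖ := by
        have := norm_add_le ((D p).1 - (D0 p).1) (D0 p).1
        rwa [sub_add_cancel] at this
      rw [h10]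
      linarith
    · show ‖(D p).2.1‖ ≤ 2 / c
      have h11 : ‖(D p).2.1‖ ≤ ‖(D p).2.1 - (D0 p).2.1‖ + ‖(D0 p).2.1‖ := by
        have := norm_add_le ((D p).2.1 - (D0 p).2.1) (D0 p).2.1
        rwa [sub_add_cancel] at this
      rw [h10]
      linarith
  have hmain := near_comp_outer hF hm hm0 hLF hLF0 hR hL1 hε hΛ'0
  have hle : L1 * ε * (1 + 2 * Λ') ≤ (1 + L1 * (1 + 2 * Λ')) * ε := by nlinarith
  constructor
  · have h1 := near_fst hmain
    have h2 := near_mono h1 hle (subset_refl S)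
    exact h2
  · have h1 := near_snd hmain
    have h2 : Near ε (fun p => (D p).2.2.2) (fun p => (D0 p).2.2.2) S :=
      near_snd (near_snd (near_snd hNear))
    have h3 := near_add h2 h1
    have h4 : ε + L1 * ε * (1 + 2 * Λ') ≤ (1 + L1 * (1 + 2 * Λ')) * ε := by nlinarith
    have h5 := near_mono h3 h4 (subset_refl S)
    have h6 : (fun p => (D p).2.2.2 - Complex.arg (D p).1)
        = fun p => (D p).2.2.2 + ((fm C ∘ fun p => ((D p).1, (D p).2.1)) p).2 := by
      funext p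
      simp only [Function.comp, fm]
      ring
    have h7 : (fun p => (D0 p).2.2.2 - Complex.arg (D0 p).1)
        = fun p => (D0 p).2.2.2 + ((fm C ∘ fun p => ((D0 p).1, (D0 p).2.1)) p).2 := by
      funext p
      simp only [Function.comp, fm]
      ring
    rw [h6, h7]
    exact h5

end

end Pool.Agent.HS

namespace Pool.Agent.HS
open Set Filter Topology Classical

theorem wd_near (C c Λ : ℝ) (hC : 0 < C) (hc : 0 < c) (hΛ : 1 ≤ Λ) : ∃ L εs : ℝ, 1 ≤ L ∧ 0 < εs ∧
    ∀ {α : Type} [PseudoMetricSpace α] (S : Set α) (D D0 : α → Dt) (ε : ℝ),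
      0 ≤ ε → ε ≤ εs → Lip Λ D0 S → Near ε D D0 S → (∀ p ∈ S, D0 p ∈ DD c) →
      Near (L * ε)
        (fun p => unchart C (‖(D p).1‖, ((starRingEnd ℂ) (D p).1 * (D p).2.1).re / ‖(D p).1‖))
        (fun p => unchart C (‖(D0 p).1‖, ((starRingEnd ℂ) (D0 p).1 * (D0 p).2.1).re / ‖(D0 p).1‖)) S ∧
      Near (L * ε) (fun p => (D p).2.2.2 - Complex.arg (D p).1)
        (fun p => (D0 p).2.2.2 - Complex.arg (D0 p).1) S :=
  @Pool.Agent.HS.wd_near_pr C c Λ hC hc hΛ

end Pool.Agent.HS
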