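import Pool.Agent.Lib_helper60.HSF.D_WJ
import Pool.Agent.Lib_helper60.HSF.A_CA
import Pool.Agent.Lib_helper60.HSF.IO_P4

/-! # Project HS, part I/O, block P13: the orbits are close to the limit arcs -/

namespace Pool.Agent.HS

noncomputable section

open Set Filter Topology Classical

/-- P13: the orbits are close to the limit arcs, all parameters, along the Newton solution -/
theorem Z_near_pr (i : Fin 2) (C : ℝ) (hC : 0 < C ∧ C ≤ 1) (f0 : LCS → LCS) (K T Λ : ℝ)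
    (hf : BL K K f0) (hK : 1 ≤ K) (hR : Reg K f0 univ) (hT : 0 ≤ T) (hΛ : 1 ≤ Λ) :
    ∃ σ L : ℝ, 0 < σ ∧ 1 ≤ L ∧ ∀ (μ g Lq ε : ℝ) (q : LCS → LCS), 0 < μ → L * μ ≤ g → g ≤ σ →
      0 ≤ Lq → BL Lq Lq q → μ ^ 2 * Lq ≤ 1 → 0 ≤ ε → ε ≤ 1 →
      ∀ (O : Set Pl) (χ0 : Pl → ℝ) (x : Pl × ℝ × ℝ → ℝ), O ⊆ CDw C → Lip Λ χ0 O →
      Near ε x (fun p => χ0 p.1) (O ×ˢ (JJ ×ˢ JJ)) →
      Near (L * (g + (μ / g) ^ 2 + μ ^ 2 * Lq + ε))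
        (fun p : Pl × ℝ × ℝ × ℝ => Wf i (fun Z => f0 Z + (μ ^ 2) • q Z) C μ g p.1
          (x (p.1, p.2.1, p.2.2.1)) p.2.1 p.2.2.2)
        (fun p => flow f0 p.2.2.2 (toLC i 0 (colD (limD C p.1 (χ0 p.1)))))
        {p | p.1 ∈ O ∧ p.2.1 ∈ JJ ∧ p.2.2.1 ∈ JJ ∧ p.2.2.2 ∈ Icc 0 T} := by
  obtain ⟨σ, L1, hσ, hL1, h1⟩ := W_near i C hC f0 K T hf hK hR hT
  obtain ⟨L2, hL2, h2⟩ := lim_flow_reg i C hC f0 K T hf (by linarith) hR hT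
  have hL1' : 0 ≤ L1 := by linarith
  have hL2' : 0 ≤ L2 := by linarith
  have hΛ' : 1 ≤ Λ + 1 := by linarith
  have hm1 : 0 ≤ L1 * (Λ + 1) := by positivity
  have hm2 : 0 ≤ L2 * (1 + 2 * (Λ + 1)) := by positivity
  have hge : L1 ≤ L1 * (Λ + 1) := le_mul_of_one_le_right hL1' hΛ'
  refine ⟨σ, L1 * (Λ + 1) + L2 * (1 + 2 * (Λ + 1)), hσ, by linarith, ?_⟩
  intro μ g Lq ε q hμ hg hgσ hLq hq hmq hε hε1 O χ0 x hO hχ hx
  have hg0 : 0 < g := by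
    have : 0 < (L1 * (Λ + 1) + L2 * (1 + 2 * (Λ + 1))) * μ := by
      apply mul_pos _ hμ
      linarith
    linarith
  have hg1 : L1 * μ ≤ g := by
    refine le_trans (mul_le_mul_of_nonneg_right ?_ hμ.le) hg
    linarith
  have h3 := h1 μ g Lq q hμ hg1 hgσ hLq hq hmq
  set S : Set (Pl × ℝ × ℝ × ℝ) :=
    {p | p.1 ∈ O ∧ p.2.1 ∈ JJ ∧ p.2.2.1 ∈ JJ ∧ p.2.2.2 ∈ Icc 0 T} with hS
  -- distances
  have hd1 : ∀ p p' : Pl × ℝ × ℝ × ℝ, dist p.1 p'.1 ≤ dist p p' := fun p p' => by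
    rw [Prod.dist_eq]; exact le_max_left _ _
  have hd2 : ∀ p p' : Pl × ℝ × ℝ × ℝ, dist p.2.1 p'.2.1 ≤ dist p p' := fun p p' => by
    rw [Prod.dist_eq, Prod.dist_eq (x := p.2)]
    exact (le_max_left _ _).trans (le_max_right _ _)
  have hd3 : ∀ p p' : Pl × ℝ × ℝ × ℝ, dist p.2.2.1 p'.2.2.1 ≤ dist p p' := fun p p' => by
    rw [Prod.dist_eq, Prod.dist_eq (x := p.2), Prod.dist_eq (x := p.2.2)]
    exact ((le_max_left _ _).trans (le_max_right _ _)).trans (le_max_right _ _)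
  have hd4 : ∀ p p' : Pl × ℝ × ℝ × ℝ, dist p.2.2.2 p'.2.2.2 ≤ dist p p' := fun p p' => by
    rw [Prod.dist_eq, Prod.dist_eq (x := p.2), Prod.dist_eq (x := p.2.2)]
    exact ((le_max_right _ _).trans (le_max_right _ _)).trans (le_max_right _ _)
  have hd5 : ∀ p p' : Pl × ℝ × ℝ × ℝ, dist ((p.1, p.2.1, p.2.2.1) : Pl × ℝ × ℝ)
      (p'.1, p'.2.1, p'.2.2.1) ≤ dist p p' := fun p p' => by
    rw [Prod.dist_eq, Prod.dist_eq]
    exact max_le (hd1 p p') (max_le (hd2 p p') (hd3 p p'))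
  have hmem : ∀ p ∈ S, ((p.1, p.2.1, p.2.2.1) : Pl × ℝ × ℝ) ∈ O ×ˢ (JJ ×ˢ JJ) :=
    fun p hp => ⟨hp.1, hp.2.1, hp.2.2.1⟩
  have hIcc : ∀ p ∈ S, p.2.2.2 ∈ Icc (-T) T := fun p hp =>
    ⟨by have := hp.2.2.2.1; linarith, hp.2.2.2.2⟩
  -- the function `x` is Lipschitz
  have hχx : ∀ p ∈ S, ∀ p' ∈ S, |χ0 p.1 - χ0 p'.1| ≤ Λ * dist p p' := by
    intro p hp p' hp'
    have e1 := hχ p.1 hp.1 p'.1 hp'.1
    rw [Real.norm_eq_abs] at e1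
    exact e1.trans (mul_le_mul_of_nonneg_left (hd1 p p') (by linarith))
  have hxL : ∀ p ∈ S, ∀ p' ∈ S,
      |x (p.1, p.2.1, p.2.2.1) - x (p'.1, p'.2.1, p'.2.2.1)| ≤ (Λ + 1) * dist p p' := by
    intro p hp p' hp'
    have e1 := hx.2 _ (hmem p hp) _ (hmem p' hp')
    rw [Real.norm_eq_abs] at e1
    have e2 := hχx p hp p' hp'
    have e3 : ε * dist ((p.1, p.2.1, p.2.2.1) : Pl × ℝ × ℝ) (p'.1, p'.2.1, p'.2.2.1) ≤
        1 * dist p p' := mul_le_mul hε1 (hd5 p p') dist_nonneg (by norm_num)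
    have e4 : x (p.1, p.2.1, p.2.2.1) - x (p'.1, p'.2.1, p'.2.2.1) =
        ((x (p.1, p.2.1, p.2.2.1) - χ0 p.1) - (x (p'.1, p'.2.1, p'.2.2.1) - χ0 p'.1)) +
          (χ0 p.1 - χ0 p'.1) := by ring
    rw [e4]
    refine (abs_add_le _ _).trans ?_
    have e5 : (Λ + 1) * dist p p' = 1 * dist p p' + Λ * dist p p' := by ring
    rw [e5]
    exact add_le_add (e1.trans e3) e2
  -- first step: the perturbed flow
  have h4 := near_comp_inner (T := S) (Λ := Λ + 1)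
    (h := fun p : Pl × ℝ × ℝ × ℝ => (p.1, p.2.1, x (p.1, p.2.1, p.2.2.1), p.2.2.2)) h3
    (fun p hp => ⟨hO hp.1, hp.2.1, mem_univ _, hIcc p hp⟩)
    (fun p hp p' hp' => by
      have e0 : dist p p' ≤ (Λ + 1) * dist p p' :=
        le_mul_of_one_le_left dist_nonneg hΛ'
      rw [Prod.dist_eq, Prod.dist_eq, Prod.dist_eq]
      refine max_le ((hd1 p p').trans e0) (max_le ((hd2 p p').trans e0) (max_le ?_
        ((hd4 p p').trans e0)))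
      show dist (x (p.1, p.2.1, p.2.2.1)) (x (p'.1, p'.2.1, p'.2.2.1)) ≤ _
      rw [Real.dist_eq]
      exact hxL p hp p' hp') hΛ' (by positivity)
  -- second step: the limit flow
  have h5 : Near ε (fun p : Pl × ℝ × ℝ × ℝ =>
      ((p.1, x (p.1, p.2.1, p.2.2.1), p.2.2.2) : Pl × ℝ × ℝ))
      (fun p => (p.1, χ0 p.1, p.2.2.2)) S := by
    have e3 : ∀ p : Pl × ℝ × ℝ × ℝ,
        ((p.1, x (p.1, p.2.1, p.2.2.1), p.2.2.2) : Pl × ℝ × ℝ) - (p.1, χ0 p.1, p.2.2.2) =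
          (0, x (p.1, p.2.1, p.2.2.1) - χ0 p.1, 0) := by
      intro p
      refine Prod.ext (sub_self p.1) (Prod.ext rfl (sub_self p.2.2.2))
    have e4 : ∀ a : ℝ, ‖((0, a, 0) : Pl × ℝ × ℝ)‖ ≤ |a| := by
      intro a
      show max ‖(0 : Pl)‖ (max ‖a‖ ‖(0 : ℝ)‖) ≤ |a|
      rw [norm_zero, norm_zero, Real.norm_eq_abs]
      exact max_le (abs_nonneg a) (max_le le_rfl (abs_nonneg a))
    refine ⟨fun p hp => ?_, fun p hp p' hp' => ?_⟩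
    · have e1 := hx.1 _ (hmem p hp)
      show ‖((p.1, x (p.1, p.2.1, p.2.2.1), p.2.2.2) : Pl × ℝ × ℝ) -
        (p.1, χ0 p.1, p.2.2.2)‖ ≤ ε
      rw [e3]
      exact (e4 _).trans e1
    · have e1 := hx.2 _ (hmem p hp) _ (hmem p' hp')
      show ‖(((p.1, x (p.1, p.2.1, p.2.2.1), p.2.2.2) : Pl × ℝ × ℝ) -
        (p.1, χ0 p.1, p.2.2.2)) - (((p'.1, x (p'.1, p'.2.1, p'.2.2.1), p'.2.2.2) : Pl × ℝ × ℝ) -
        (p'.1, χ0 p'.1, p'.2.2.2))‖ ≤ ε * dist p p'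
      rw [e3, e3]
      have e5 : ((0, x (p.1, p.2.1, p.2.2.1) - χ0 p.1, 0) : Pl × ℝ × ℝ) -
          (0, x (p'.1, p'.2.1, p'.2.2.1) - χ0 p'.1, 0) =
          (0, (x (p.1, p.2.1, p.2.2.1) - χ0 p.1) -
            (x (p'.1, p'.2.1, p'.2.2.1) - χ0 p'.1), 0) :=
        Prod.ext (sub_self (0 : Pl)) (Prod.ext rfl (sub_self (0 : ℝ)))
      rw [e5]
      refine (e4 _).trans (le_trans e1 ?_)
      exact mul_le_mul_of_nonneg_left (hd5 p p') hε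
  have h6 := near_comp_outer (Λ := Λ + 1) (S' := CDw C ×ˢ (univ ×ˢ Icc (-T) T)) h5
    (fun p hp => ⟨hO hp.1, mem_univ _, hIcc p hp⟩)
    (fun p hp => ⟨hO hp.1, mem_univ _, hIcc p hp⟩)
    (fun p hp p' hp' => by
      have e0 : dist p p' ≤ (Λ + 1) * dist p p' :=
        le_mul_of_one_le_left dist_nonneg hΛ'
      rw [← dist_eq_norm, Prod.dist_eq, Prod.dist_eq]
      refine max_le ((hd1 p p').trans e0) (max_le ?_ ((hd4 p p').trans e0))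
      show dist (x (p.1, p.2.1, p.2.2.1)) (x (p'.1, p'.2.1, p'.2.2.1)) ≤ _
      rw [Real.dist_eq]
      exact hxL p hp p' hp')
    (fun p hp p' hp' => by
      have e0 : dist p p' ≤ (Λ + 1) * dist p p' :=
        le_mul_of_one_le_left dist_nonneg hΛ'
      rw [← dist_eq_norm, Prod.dist_eq, Prod.dist_eq]
      refine max_le ((hd1 p p').trans e0) (max_le ?_ ((hd4 p p').trans e0))
      show dist (χ0 p.1) (χ0 p'.1) ≤ _
      rw [Real.dist_eq]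
      refine (hχx p hp p' hp').trans ?_
      exact mul_le_mul_of_nonneg_right (by linarith) dist_nonneg)
    h2 hL2' hε (by linarith)
  have h7 := near_trans h4 h6
  refine near_mono h7 ?_ (subset_refl _)
  have hA : 0 ≤ g + (μ / g) ^ 2 + μ ^ 2 * Lq := by positivity
  have e1 : 0 ≤ L1 * (Λ + 1) * ε := by positivity
  have e2 : 0 ≤ L2 * (1 + 2 * (Λ + 1)) * (g + (μ / g) ^ 2 + μ ^ 2 * Lq) :=
    mul_nonneg hm2 hA
  nlinarith [e1, e2]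

end

end Pool.Agent.HS

namespace Pool.Agent.HS
open Set Filter Topology Classical

theorem Z_near (i : Fin 2) (C : ℝ) (hC : 0 < C ∧ C ≤ 1) (f0 : LCS → LCS) (K T Λ : ℝ)
    (hf : BL K K f0) (hK : 1 ≤ K) (hR : Reg K f0 univ) (hT : 0 ≤ T) (hΛ : 1 ≤ Λ) :
    ∃ σ L : ℝ, 0 < σ ∧ 1 ≤ L ∧ ∀ (μ g Lq ε : ℝ) (q : LCS → LCS), 0 < μ → L * μ ≤ g → g ≤ σ →
      0 ≤ Lq → BL Lq Lq q → μ ^ 2 * Lq ≤ 1 → 0 ≤ ε → ε ≤ 1 →
      ∀ (O : Set Pl) (χ0 : Pl → ℝ) (x : Pl × ℝ × ℝ → ℝ), O ⊆ CDw C → Lip Λ χ0 O →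
      Near ε x (fun p => χ0 p.1) (O ×ˢ (JJ ×ˢ JJ)) →
      Near (L * (g + (μ / g) ^ 2 + μ ^ 2 * Lq + ε))
        (fun p : Pl × ℝ × ℝ × ℝ => Wf i (fun Z => f0 Z + (μ ^ 2) • q Z) C μ g p.1
          (x (p.1, p.2.1, p.2.2.1)) p.2.1 p.2.2.2)
        (fun p => flow f0 p.2.2.2 (toLC i 0 (colD (limD C p.1 (χ0 p.1)))))
        {p | p.1 ∈ O ∧ p.2.1 ∈ JJ ∧ p.2.2.1 ∈ JJ ∧ p.2.2.2 ∈ Icc 0 T} :=
  @Pool.Agent.HS.Z_near_pr i C hC f0 K T Λ hf hK hR hT hΛ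

end Pool.Agent.HS
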