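import Pool.Agent.Lib_helper60.HSF.D_WI
import Pool.Agent.Lib_helper60.HSF.IO_C4
import Pool.Agent.Lib_helper60.HSF.A_CA
import Pool.Agent.Lib_helper60.HSF.IO_C1
import Pool.Agent.Lib_helper60.HSF.IO_O5

/-!
# Part I/O of project HS, block P6: the incoming legs are close to the limit
-/

namespace Pool.Agent.HS

noncomputable section

open Set Filter Topology Classical

theorem p6_congr {α E : Type*} [PseudoMetricSpace α] [NormedAddCommGroup E] {ε : ℝ}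
    {f g f' g' : α → E} {S : Set α} (h : Near ε f g S) (hf : ∀ p ∈ S, f' p = f p)
    (hg : ∀ p ∈ S, g' p = g p) : Near ε f' g' S := by
  refine ⟨fun p hp => ?_, fun p hp q hq => ?_⟩
  · rw [hf p hp, hg p hp]
    exact h.1 p hp
  · rw [hf p hp, hg p hp, hf q hq, hg q hq]
    exact h.2 p hp q hq

theorem p6_refl {α E : Type*} [PseudoMetricSpace α] [NormedAddCommGroup E] {ε : ℝ} (hε : 0 ≤ ε)
    (f : α → E) (S : Set α) : Near ε f f S := by
  refine ⟨fun p _ => by simpa using hε, fun p _ q _ => ?_⟩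
  simp only [sub_self, norm_zero]
  positivity

/-- the Lipschitz constant of `κ e^{iχ}` -/
theorem p6_exp (κ κ' χ χ' b : ℝ) (hκ : |κ| ≤ b) :
    ‖(κ : ℂ) * Complex.exp (χ * Complex.I) - (κ' : ℂ) * Complex.exp (χ' * Complex.I)‖ ≤
      |κ - κ'| + b * |χ - χ'| := by
  have h1 := reg_cexp.1 χ (mem_univ _) χ' (mem_univ _)
  have h2 : (κ : ℂ) * Complex.exp (χ * Complex.I) - (κ' : ℂ) * Complex.exp (χ' * Complex.I) =
      ((κ - κ' : ℝ) : ℂ) * Complex.exp (χ' * Complex.I) +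
      (κ : ℂ) * (Complex.exp (χ * Complex.I) - Complex.exp (χ' * Complex.I)) := by
    push_cast
    ring
  rw [h2]
  refine (norm_add_le _ _).trans ?_
  rw [norm_mul, norm_mul, Complex.norm_exp_ofReal_mul_I, Complex.norm_real, Complex.norm_real,
    mul_one, Real.norm_eq_abs, Real.norm_eq_abs]
  have h3 : ‖Complex.exp (χ * Complex.I) - Complex.exp (χ' * Complex.I)‖ ≤ |χ - χ'| := by
    rw [one_mul, Real.dist_eq] at h1
    exact h1
  have hb : 0 ≤ b := (abs_nonneg κ).trans hκ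
  have h4 : |κ| * ‖Complex.exp (χ * Complex.I) - Complex.exp (χ' * Complex.I)‖ ≤ b * |χ - χ'| :=
    mul_le_mul hκ h3 (norm_nonneg _) hb
  linarith

theorem p6_rot (κ χ N : ℝ) : ((κ : ℂ) * Complex.exp (χ * Complex.I) *
    Complex.exp (-(N : ℂ) * Complex.I)).re = κ * Real.cos (χ - N) := by
  rw [mul_assoc, ← Complex.exp_add, show (χ : ℂ) * Complex.I + -(N : ℂ) * Complex.I =
    ((χ - N : ℝ) : ℂ) * Complex.I by push_cast; ring, Complex.re_ofReal_mul,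
    Complex.exp_ofReal_mul_I_re]

theorem p6_revD {c : ℝ} {d : Dt} (h : d ∈ DD c) : revD d ∈ DD c := by
  obtain ⟨h1, h2, h3, h4, h5⟩ := h
  refine ⟨h1, h2, ?_, h4, h5⟩
  show ‖-d.2.1‖ ≤ 1 / c
  rw [norm_neg]
  exact h3

theorem p6_neg {β : ℝ} (h : β ∈ JJ) : -β ∈ JJ := by
  obtain ⟨h1, h2⟩ := h
  exact ⟨by linarith, by linarith⟩

theorem p6_dist (p q : Pl × Dt × ℝ) :
    dist (revD p.2.1, -p.2.2) (revD q.2.1, -q.2.2) ≤ 1 * dist p q := by
  rw [one_mul]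
  simp only [Prod.dist_eq, revD, dist_neg_neg, dist_add_right]
  exact le_max_right _ _

theorem p6_d1 (d d' : Dt) : dist d.2.2.1 d'.2.2.1 ≤ dist d d' := by
  have h1 : dist d.2.2.1 d'.2.2.1 ≤ dist d.2.2 d'.2.2 := by
    rw [Prod.dist_eq (x := d.2.2)]
    exact le_max_left _ _
  have h2 : dist d.2.2 d'.2.2 ≤ dist d.2 d'.2 := by
    rw [Prod.dist_eq (x := d.2)]
    exact le_max_right _ _
  have h3 : dist d.2 d'.2 ≤ dist d d' := by
    rw [Prod.dist_eq (x := d)]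
    exact le_max_right _ _
  exact h1.trans (h2.trans h3)

theorem p6_d2 (d d' : Dt) : dist d.2.2.2 d'.2.2.2 ≤ dist d d' := by
  have h1 : dist d.2.2.2 d'.2.2.2 ≤ dist d.2.2 d'.2.2 := by
    rw [Prod.dist_eq (x := d.2.2)]
    exact le_max_right _ _
  have h2 : dist d.2.2 d'.2.2 ≤ dist d.2 d'.2 := by
    rw [Prod.dist_eq (x := d.2)]
    exact le_max_right _ _
  have h3 : dist d.2 d'.2 ≤ dist d d' := by
    rw [Prod.dist_eq (x := d)]
    exact le_max_right _ _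
  exact h1.trans (h2.trans h3)

/-- P6: the incoming legs are close to the limit -/
theorem em_near_pr (c LN : ℝ) (hc : 0 < c) (hLN : 0 ≤ LN) : ∃ σ L : ℝ, 0 < σ ∧ 1 ≤ L ∧
    ∀ (O : Set Pl) (N : Pl → ℝ), Lip LN N O → ∀ μ g, 0 < μ → L * μ ≤ g → g ≤ σ →
      Near (L * (g + (μ / g) ^ 2)) (emf N μ g) (fun q => ((0:ℂ), q.2.1))
        {q | q.1 ∈ O ∧ q.2.1 ∈ DD c ∧ |q.2.1.2.2.2 - N q.1| ≤ 1 ∧ q.2.2 ∈ JJ} := by
  obtain ⟨σ₁, L₁, hσ₁, hL₁, hend⟩ := end_near c hc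
  set c2 : ℝ := min (c / 4) ((1 / c + c / 4)⁻¹) with hc2
  have h1c : 0 < 1 / c + c / 4 := by positivity
  have hc2p : 0 < c2 := lt_min (by positivity) (inv_pos.mpr h1c)
  have hc2a : c2 ≤ c / 4 := min_le_left _ _
  have hc2b : 1 / c + c / 4 ≤ 1 / c2 := by
    rw [one_div c2, le_inv_comm₀ h1c hc2p]
    exact min_le_right _ _
  obtain ⟨Lp, hLp, hpol⟩ := pol_reg c2 hc2p
  set Λ0 : ℝ := LN + 1 + 1 / c with hΛ0
  set Λ : ℝ := Λ0 + 1 with hΛ
  have hΛ0p : 0 ≤ Λ0 := by positivity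
  have hΛp : 0 ≤ Λ := by positivity
  have hL₁p : 0 < L₁ := lt_of_lt_of_le one_pos hL₁
  set L : ℝ := L₁ + (8 * L₁ / c + 2 * L₁) + L₁ * (1 + Lp * (1 + 2 * Λ)) with hL
  have hA : 0 ≤ L₁ * (1 + Lp * (1 + 2 * Λ)) := by positivity
  have hB : 0 ≤ 8 * L₁ / c := by positivity
  have hLL₁ : L₁ ≤ L := by linarith
  have hL1 : 1 ≤ L := hL₁.trans hLL₁
  have hLp' : 0 < L := lt_of_lt_of_le one_pos hL1
  refine ⟨min σ₁ (min (c / (8 * L₁)) (1 / (2 * L₁))), L,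
    lt_min hσ₁ (lt_min (by positivity) (by positivity)), hL1, ?_⟩
  intro O N hN μ g hμ hμg hgσ
  have hg : 0 < g := lt_of_lt_of_le (mul_pos hLp' hμ) hμg
  have hgσ₁ : g ≤ σ₁ := hgσ.trans (min_le_left _ _)
  have hg2 : g ≤ c / (8 * L₁) := hgσ.trans ((min_le_right _ _).trans (min_le_left _ _))
  have hg3 : g ≤ 1 / (2 * L₁) := hgσ.trans ((min_le_right _ _).trans (min_le_right _ _))
  have hn0 := hend μ g hμ ((mul_le_mul_of_nonneg_right hLL₁ hμ.le).trans hμg) hgσ₁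
  set ε : ℝ := L₁ * (g + (μ / g) ^ 2) with hε
  have hεp : 0 ≤ ε := by positivity
  -- smallness
  have hq : μ / g ≤ 1 / L := by
    rw [div_le_div_iff₀ hg hLp']
    linarith
  have hq2 : (μ / g) ^ 2 ≤ 1 / L := by
    have h0 : 0 ≤ μ / g := by positivity
    have h1 : 1 / L ≤ 1 := by
      rw [div_le_one hLp']
      exact hL1
    calc (μ / g) ^ 2 = (μ / g) * (μ / g) := sq _
      _ ≤ (1 / L) * 1 := mul_le_mul hq (hq.trans h1) h0 (by positivity)
      _ = 1 / L := mul_one _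
  have hLq : L₁ * (1 / L) ≤ c / 8 := by
    rw [mul_one_div, div_le_div_iff₀ hLp' (by norm_num)]
    have : c * (8 * L₁ / c) ≤ c * L := mul_le_mul_of_nonneg_left (by linarith) hc.le
    rw [mul_div_cancel₀ _ hc.ne'] at this
    linarith
  have hLq' : L₁ * (1 / L) ≤ 1 / 2 := by
    rw [mul_one_div, div_le_div_iff₀ hLp' (by norm_num)]
    linarith
  have hgε : L₁ * g ≤ c / 8 := by
    calc L₁ * g ≤ L₁ * (c / (8 * L₁)) := mul_le_mul_of_nonneg_left hg2 hL₁p.le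
      _ = c / 8 := by field_simp
  have hgε' : L₁ * g ≤ 1 / 2 := by
    calc L₁ * g ≤ L₁ * (1 / (2 * L₁)) := mul_le_mul_of_nonneg_left hg3 hL₁p.le
      _ = 1 / 2 := by field_simp
  have hεc : ε ≤ c / 4 := by
    rw [hε, mul_add]
    have := mul_le_mul_of_nonneg_left hq2 hL₁p.le
    linarith
  have hε1 : ε ≤ 1 := by
    rw [hε, mul_add]
    have := mul_le_mul_of_nonneg_left hq2 hL₁p.le
    linarith
  set S : Set (Pl × Dt × ℝ) :=
    {q | q.1 ∈ O ∧ q.2.1 ∈ DD c ∧ |q.2.1.2.2.2 - N q.1| ≤ 1 ∧ q.2.2 ∈ JJ} with hS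
  -- the collision coordinates
  set F : Pl × Dt × ℝ → ℂ × ℂ × ℂ × ℂ := fun q => cc4 (rev (innSt μ (revD q.2.1) (-q.2.2) g)) with hF
  set Gl : Pl × Dt × ℝ → ℂ × ℂ × ℂ × ℂ := fun q =>
    (0, q.2.1.1, q.2.1.2.1, (q.2.1.2.2.1 : ℂ) * Complex.exp (q.2.1.2.2.2 * Complex.I)) with hG
  have hn1 : Near ε F Gl S := by
    have h1 := near_comp_inner (h := fun q : Pl × Dt × ℝ => (revD q.2.1, -q.2.2)) (T := S) hn0
      (fun q hq => ⟨p6_revD hq.2.1, p6_neg hq.2.2.2⟩) (fun p _ q _ => p6_dist p q) le_rfl hεp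
    rw [mul_one] at h1
    refine p6_congr h1 (fun p _ => rfl) (fun p _ => ?_)
    show ((0 : ℂ), p.2.1.1, p.2.1.2.1, (p.2.1.2.2.1 : ℂ) * Complex.exp (p.2.1.2.2.2 * Complex.I)) =
      ((0 : ℂ), p.2.1.1, -(-p.2.1.2.1), -((p.2.1.2.2.1 : ℂ) *
        Complex.exp (((p.2.1.2.2.2 + Real.pi : ℝ) : ℂ) * Complex.I)))
    rw [neg_neg]
    have h2 : Complex.exp (((p.2.1.2.2.2 + Real.pi : ℝ) : ℂ) * Complex.I) =
        -Complex.exp (p.2.1.2.2.2 * Complex.I) := by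
      rw [Complex.ofReal_add, add_mul, Complex.exp_add, Complex.exp_pi_mul_I]
      ring
    rw [h2, mul_neg, neg_neg]
  have hnw : Near ε (fun q => (F q).2.2.2) (fun q => (Gl q).2.2.2) S :=
    near_snd (near_snd (near_snd hn1))
  have hpair : Near ε (fun q => (N q.1, (F q).2.2.2)) (fun q => (N q.1, (Gl q).2.2.2)) S :=
    near_prod (p6_refl hεp _ _) hnw
  have hLG : Lip Λ0 (fun q : Pl × Dt × ℝ => (N q.1, (Gl q).2.2.2)) S := by
    intro p hp q hq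
    have hd1 : dist p.1 q.1 ≤ dist p q := by
      rw [Prod.dist_eq]
      exact le_max_left _ _
    have hd2 : dist p.2.1 q.2.1 ≤ dist p q := by
      have h1 : dist p.2.1 q.2.1 ≤ dist p.2 q.2 := by
        rw [Prod.dist_eq (x := p.2)]
        exact le_max_left _ _
      have h2 : dist p.2 q.2 ≤ dist p q := by
        rw [Prod.dist_eq (x := p)]
        exact le_max_right _ _
      exact h1.trans h2
    have hd3 : |p.2.1.2.2.1 - q.2.1.2.2.1| ≤ dist p q := by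
      refine le_trans ?_ hd2
      rw [← Real.dist_eq]
      exact p6_d1 _ _
    have hd4 : |p.2.1.2.2.2 - q.2.1.2.2.2| ≤ dist p q := by
      refine le_trans ?_ hd2
      rw [← Real.dist_eq]
      exact p6_d2 _ _
    rw [Prod.mk_sub_mk, Prod.norm_mk]
    refine max_le ?_ ?_
    · refine (hN p.1 hp.1 q.1 hq.1).trans ?_
      calc LN * dist p.1 q.1 ≤ LN * dist p q := mul_le_mul_of_nonneg_left hd1 hLN
        _ ≤ Λ0 * dist p q := by
          apply mul_le_mul_of_nonneg_right _ dist_nonneg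
          have : 0 < 1 / c := by positivity
          linarith
    · have hκ : |p.2.1.2.2.1| ≤ 1 / c := by
        rw [abs_of_pos (lt_of_lt_of_le hc hp.2.1.2.2.2.1)]
        exact hp.2.1.2.2.2.2
      refine (p6_exp _ q.2.1.2.2.1 _ q.2.1.2.2.2 (1 / c) hκ).trans ?_
      have h5 : (1 / c) * |p.2.1.2.2.2 - q.2.1.2.2.2| ≤ (1 / c) * dist p q :=
        mul_le_mul_of_nonneg_left hd4 (by positivity)
      have h6 : 0 ≤ LN * dist p q := mul_nonneg hLN dist_nonneg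
      calc |p.2.1.2.2.1 - q.2.1.2.2.1| + (1 / c) * |p.2.1.2.2.2 - q.2.1.2.2.2|
          ≤ dist p q + (1 / c) * dist p q := add_le_add hd3 h5
        _ ≤ Λ0 * dist p q := by
          rw [hΛ0]
          linarith
  have hLG' : Lip Λ (fun q : Pl × Dt × ℝ => (N q.1, (Gl q).2.2.2)) S := by
    intro p hp q hq
    refine (hLG p hp q hq).trans ?_
    exact mul_le_mul_of_nonneg_right (by linarith) dist_nonneg
  have hLF : Lip Λ (fun q : Pl × Dt × ℝ => (N q.1, (F q).2.2.2)) S := by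
    intro p hp q hq
    refine (lip_of_near hpair hLG p hp q hq).trans ?_
    exact mul_le_mul_of_nonneg_right (by linarith) dist_nonneg
  -- the domain of the polar coordinates
  have hcos : ∀ q ∈ S, c / 2 ≤ ((Gl q).2.2.2 * Complex.exp (-(N q.1 : ℂ) * Complex.I)).re := by
    intro q hq
    show c / 2 ≤ ((q.2.1.2.2.1 : ℂ) * Complex.exp (q.2.1.2.2.2 * Complex.I) *
      Complex.exp (-(N q.1 : ℂ) * Complex.I)).re
    rw [p6_rot]
    have h1 := Real.one_sub_sq_div_two_le_cos (x := q.2.1.2.2.2 - N q.1)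
    have h2 : (q.2.1.2.2.2 - N q.1) ^ 2 ≤ 1 := by
      rw [← sq_abs]
      exact pow_le_one₀ (abs_nonneg _) hq.2.2.1
    have h3 : 1 / 2 ≤ Real.cos (q.2.1.2.2.2 - N q.1) := by linarith
    have h4 : c ≤ q.2.1.2.2.1 := hq.2.1.2.2.2.1
    calc c / 2 = c * (1 / 2) := by ring
      _ ≤ q.2.1.2.2.1 * Real.cos (q.2.1.2.2.2 - N q.1) :=
        mul_le_mul h4 h3 (by norm_num) (hc.le.trans h4)
  have hGn : ∀ q ∈ S, ‖(Gl q).2.2.2‖ ≤ 1 / c := by
    intro q hq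
    show ‖(q.2.1.2.2.1 : ℂ) * Complex.exp (q.2.1.2.2.2 * Complex.I)‖ ≤ 1 / c
    rw [norm_mul, Complex.norm_exp_ofReal_mul_I, mul_one, Complex.norm_real, Real.norm_eq_abs,
      abs_of_pos (lt_of_lt_of_le hc hq.2.1.2.2.2.1)]
    exact hq.2.1.2.2.2.2
  have hmG : MapsTo (fun q : Pl × Dt × ℝ => (N q.1, (Gl q).2.2.2)) S
      {p : ℝ × ℂ | c2 ≤ (p.2 * Complex.exp (-(p.1 : ℂ) * Complex.I)).re ∧ ‖p.2‖ ≤ 1 / c2} := by
    intro q hq
    refine ⟨?_, ?_⟩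
    · have := hcos q hq
      show c2 ≤ ((Gl q).2.2.2 * Complex.exp (-(N q.1 : ℂ) * Complex.I)).re
      linarith
    · have := hGn q hq
      show ‖(Gl q).2.2.2‖ ≤ 1 / c2
      have h0 : 0 < c / 4 := by positivity
      linarith
  have hmF : MapsTo (fun q : Pl × Dt × ℝ => (N q.1, (F q).2.2.2)) S
      {p : ℝ × ℂ | c2 ≤ (p.2 * Complex.exp (-(p.1 : ℂ) * Complex.I)).re ∧ ‖p.2‖ ≤ 1 / c2} := by
    intro q hq
    have h1 := hnw.1 q hq
    refine ⟨?_, ?_⟩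
    · have h2 := hcos q hq
      show c2 ≤ ((F q).2.2.2 * Complex.exp (-(N q.1 : ℂ) * Complex.I)).re
      have h3 : (F q).2.2.2 * Complex.exp (-(N q.1 : ℂ) * Complex.I) =
          (Gl q).2.2.2 * Complex.exp (-(N q.1 : ℂ) * Complex.I) +
          ((F q).2.2.2 - (Gl q).2.2.2) * Complex.exp (-(N q.1 : ℂ) * Complex.I) := by ring
      rw [h3, Complex.add_re]
      have h4 : ‖((F q).2.2.2 - (Gl q).2.2.2) * Complex.exp (-(N q.1 : ℂ) * Complex.I)‖ ≤ c / 4 := by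
        rw [norm_mul, show -(N q.1 : ℂ) * Complex.I = ((-(N q.1) : ℝ) : ℂ) * Complex.I by
          push_cast; ring, Complex.norm_exp_ofReal_mul_I, mul_one]
        exact h1.trans hεc
      have h5 := (abs_le.mp (Complex.abs_re_le_norm
        (((F q).2.2.2 - (Gl q).2.2.2) * Complex.exp (-(N q.1 : ℂ) * Complex.I)))).1
      linarith
    · show ‖(F q).2.2.2‖ ≤ 1 / c2
      have h2 := hGn q hq
      have h3 : ‖(F q).2.2.2‖ ≤ ‖(F q).2.2.2 - (Gl q).2.2.2‖ + ‖(Gl q).2.2.2‖ := by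
        have := norm_add_le ((F q).2.2.2 - (Gl q).2.2.2) (Gl q).2.2.2
        rwa [sub_add_cancel] at this
      linarith
  have hpn := near_comp_outer (K := fun p : ℝ × ℂ => pol p.1 p.2) hpair hmF hmG hLF hLG' hpol
    hLp hεp hΛp
  -- assembly
  set ε' : ℝ := L * (g + (μ / g) ^ 2) with hε'
  have hgm : 0 ≤ g + (μ / g) ^ 2 := by positivity
  have hεε' : ε ≤ ε' := mul_le_mul_of_nonneg_right hLL₁ hgm
  have hpε' : Lp * ε * (1 + 2 * Λ) ≤ ε' := by
    have h1 : Lp * ε * (1 + 2 * Λ) = (L₁ * (Lp * (1 + 2 * Λ))) * (g + (μ / g) ^ 2) := by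
      rw [hε]
      ring
    rw [h1, hε']
    refine mul_le_mul_of_nonneg_right ?_ hgm
    have h2 : L₁ * (1 + Lp * (1 + 2 * Λ)) = L₁ + L₁ * (Lp * (1 + 2 * Λ)) := by ring
    linarith
  have e1 : Near ε' (fun q => (F q).1) (fun q => (Gl q).1) S :=
    near_mono (near_fst hn1) hεε' subset_rfl
  have e2 : Near ε' (fun q => (F q).2.1) (fun q => (Gl q).2.1) S :=
    near_mono (near_fst (near_snd hn1)) hεε' subset_rfl
  have e3 : Near ε' (fun q => (F q).2.2.1) (fun q => (Gl q).2.2.1) S :=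
    near_mono (near_fst (near_snd (near_snd hn1))) hεε' subset_rfl
  have e4 := near_mono hpn hpε' (Set.Subset.refl S)
  have e5 := near_prod e1 (near_prod e2 (near_prod e3 e4))
  refine p6_congr e5 (fun p _ => rfl) (fun p hp => ?_)
  show ((0 : ℂ), p.2.1) = ((0 : ℂ), p.2.1.1, p.2.1.2.1,
    pol (N p.1) ((p.2.1.2.2.1 : ℂ) * Complex.exp (p.2.1.2.2.2 * Complex.I)))
  have hlt : |p.2.1.2.2.2 - N p.1| < Real.pi :=
    lt_of_le_of_lt hp.2.2.1 (by linarith [Real.pi_gt_three])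
  rw [pol_eq (N p.1) p.2.1.2.2.1 p.2.1.2.2.2 (lt_of_lt_of_le hc hp.2.1.2.2.2.1) hlt]

end

end Pool.Agent.HS

namespace Pool.Agent.HS
open Set Filter Topology Classical

theorem em_near (c LN : ℝ) (hc : 0 < c) (hLN : 0 ≤ LN) : ∃ σ L : ℝ, 0 < σ ∧ 1 ≤ L ∧
    ∀ (O : Set Pl) (N : Pl → ℝ), Lip LN N O → ∀ μ g, 0 < μ → L * μ ≤ g → g ≤ σ →
      Near (L * (g + (μ / g) ^ 2)) (emf N μ g) (fun q => ((0:ℂ), q.2.1))
        {q | q.1 ∈ O ∧ q.2.1 ∈ DD c ∧ |q.2.1.2.2.2 - N q.1| ≤ 1 ∧ q.2.2 ∈ JJ} :=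
  @Pool.Agent.HS.em_near_pr c LN hc hLN

end Pool.Agent.HS
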