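import Pool.Agent.Lib_helper60.HSF.D_WI
import Pool.Agent.Lib_helper60.HSF.IO_R1

/-!
# Project HS, block O1: solutions of the regularized equations are orbits
-/

namespace Pool.Agent.HS

noncomputable section

open Set Filter Topology Classical

/-! ### Derivatives of components -/

theorem o1_fst {E F : Type*} [NormedAddCommGroup E] [NormedSpace ℝ E] [NormedAddCommGroup F]
    [NormedSpace ℝ F] {f : ℝ → E × F} {f' : E × F} {s : Set ℝ} {t : ℝ}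
    (h : HasDerivWithinAt f f' s t) : HasDerivWithinAt (fun t => (f t).1) f'.1 s t :=
  (ContinuousLinearMap.fst ℝ E F).hasFDerivAt.comp_hasDerivWithinAt t h

theorem o1_snd {E F : Type*} [NormedAddCommGroup E] [NormedSpace ℝ E] [NormedAddCommGroup F]
    [NormedSpace ℝ F] {f : ℝ → E × F} {f' : E × F} {s : Set ℝ} {t : ℝ}
    (h : HasDerivWithinAt f f' s t) : HasDerivWithinAt (fun t => (f t).2) f'.2 s t :=
  (ContinuousLinearMap.snd ℝ E F).hasFDerivAt.comp_hasDerivWithinAt t h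

theorem o1_re {f : ℝ → ℂ} {f' : ℂ} {s : Set ℝ} {t : ℝ}
    (h : HasDerivWithinAt f f' s t) : HasDerivWithinAt (fun t => (f t).re) f'.re s t :=
  Complex.reCLM.hasFDerivAt.comp_hasDerivWithinAt t h

theorem o1_im {f : ℝ → ℂ} {f' : ℂ} {s : Set ℝ} {t : ℝ}
    (h : HasDerivWithinAt f f' s t) : HasDerivWithinAt (fun t => (f t).im) f'.im s t :=
  Complex.imCLM.hasFDerivAt.comp_hasDerivWithinAt t h

theorem o1_conj {f : ℝ → ℂ} {f' : ℂ} {s : Set ℝ} {t : ℝ}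
    (h : HasDerivWithinAt f f' s t) :
    HasDerivWithinAt (fun t => (starRingEnd ℂ) (f t)) ((starRingEnd ℂ) f') s t :=
  Complex.conjCLE.toContinuousLinearMap.hasFDerivAt.comp_hasDerivWithinAt t h

theorem o1_norm_sq {f : ℝ → ℂ} {f' : ℂ} {s : Set ℝ} {t : ℝ}
    (h : HasDerivWithinAt f f' s t) :
    HasDerivWithinAt (fun t => ‖f t‖ ^ 2) (2 * ((f t).re * f'.re + (f t).im * f'.im)) s t := by
  have h1 := ((o1_re h).pow 2).add ((o1_im h).pow 2)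
  have h2 : (fun t => ‖f t‖ ^ 2) = fun t => (f t).re ^ 2 + (f t).im ^ 2 := by
    funext t
    rw [← Complex.normSq_eq_norm_sq, Complex.normSq_apply]
    ring
  rw [h2]
  refine h1.congr_deriv ?_
  push_cast
  ring

theorem o1_inv_norm {f : ℝ → ℂ} {f' : ℂ} {s : Set ℝ} {t : ℝ}
    (h : HasDerivWithinAt f f' s t) (h0 : f t ≠ 0) :
    HasDerivWithinAt (fun t => ‖f t‖⁻¹)
      (-((‖f t‖ ^ 3)⁻¹ * ((f t).re * f'.re + (f t).im * f'.im))) s t := by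
  have hp : 0 < ‖f t‖ := norm_pos_iff.2 h0
  have h1 := (o1_norm_sq h).sqrt (by positivity)
  have h2 : (fun t => Real.sqrt (‖f t‖ ^ 2)) = fun t => ‖f t‖ := by
    funext t
    exact Real.sqrt_sq (norm_nonneg _)
  rw [h2, Real.sqrt_sq hp.le] at h1
  have h3 := h1.inv hp.ne'
  refine h3.congr_deriv ?_
  field_simp

/-- the algebraic identity behind the conservation of the regularized Hamiltonian -/
theorem o1_alg (p q M B a b : ℝ) (hp : p ≠ 0) (z η x u z' η' x' u' : ℂ)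
    (hz : z' = ((1 + p * M) / 4 : ℝ) * η + ((q * M / 2 : ℝ) * (starRingEnd ℂ) z * u))
    (hη : η' = -((2 / p * B : ℝ) * z)
     - (2 * q * M * (z.re ^ 2 + z.im ^ 2) : ℝ) * (starRingEnd ℂ) z * ((b : ℝ) * (z ^ 2 - x))
     - (q * M / 2 : ℝ) * (starRingEnd ℂ) η * u)
    (hx : x' = ((z.re ^ 2 + z.im ^ 2) * (1 + q * M) : ℝ) * u + (p * M / 2 : ℝ) * z * η)
    (hu : u' = ((z.re ^ 2 + z.im ^ 2) : ℝ) * (- ((a : ℝ) * x) +
      (p * M : ℝ) * ((b : ℝ) * (z ^ 2 - x)))) :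
    p * (1 + p * M) / 8 * (2 * (η.re * η'.re + η.im * η'.im)) +
      (2 * (z.re * z'.re + z.im * z'.im) * B +
        (z.re ^ 2 + z.im ^ 2) * (q * (1 + q * M) / 2 * (2 * (u.re * u'.re + u.im * u'.im)) -
          q * -(a * (x.re * x'.re + x.im * x'.im)) - 0 -
          p * q * M * -(b * ((z ^ 2 - x).re * (2 * z * z' - x').re +
            (z ^ 2 - x).im * (2 * z * z' - x').im)))) +
      p * q * M / 2 * ((z' * η + z * η') * (starRingEnd ℂ) u + z * η * (starRingEnd ℂ) u').re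
      = 0 := by
  obtain ⟨z1, z2⟩ := z
  obtain ⟨η1, η2⟩ := η
  obtain ⟨x1, x2⟩ := x
  obtain ⟨u1, u2⟩ := u
  subst hz hη hx hu
  simp only [pow_two, Complex.add_re, Complex.add_im, Complex.sub_re, Complex.sub_im,
    Complex.mul_re, Complex.mul_im, Complex.neg_re, Complex.neg_im, Complex.ofReal_re,
    Complex.ofReal_im, Complex.conj_re, Complex.conj_im, Complex.re_ofNat, Complex.im_ofNat]
  field_simp
  ring

/-- the time derivative of the regularized Hamiltonian vanishes -/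
theorem o1_lcK_deriv (i : Fin 2) (M : ℝ) {Z : ℝ → LCS} {s : Set ℝ} {τ : ℝ}
    (hZ : HasDerivWithinAt Z (lcf i M (Z τ)) s τ)
    (hX : lcX (Z τ) ≠ 0) (hx : (Z τ).2.2.1 ≠ 0) :
    HasDerivWithinAt (fun τ => lcK i M (Z τ)) 0 s τ := by
  have hP : mP i ≠ 0 := by
    unfold mP ma mb
    split_ifs <;> norm_num
  have h1 := o1_fst hZ
  have h2 := o1_fst (o1_snd hZ)
  have h3 := o1_fst (o1_snd (o1_snd hZ))
  have h4 := o1_fst (o1_snd (o1_snd (o1_snd hZ)))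
  have h5 := o1_snd (o1_snd (o1_snd (o1_snd hZ)))
  have hy : HasDerivWithinAt (fun t => (Z t).1 ^ 2 - (Z t).2.2.1)
      (2 * (Z τ).1 * (lcf i M (Z τ)).1 - (lcf i M (Z τ)).2.2.1) s τ := by
    refine ((h1.pow 2).sub h3).congr_deriv ?_
    push_cast
    ring
  have hyn : (Z τ).1 ^ 2 - (Z τ).2.2.1 ≠ 0 := hX
  have e1 := o1_norm_sq h1
  have e2 := o1_norm_sq h2
  have e4 := o1_norm_sq h4
  have e3 := o1_inv_norm h3 hx
  have e5 := o1_inv_norm hy hyn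
  have e6 : HasDerivWithinAt (fun t => ((Z t).1 * (Z t).2.1 * (starRingEnd ℂ) (Z t).2.2.2.1).re)
      (((lcf i M (Z τ)).1 * (Z τ).2.1 + (Z τ).1 * (lcf i M (Z τ)).2.1) *
        (starRingEnd ℂ) (Z τ).2.2.2.1 + (Z τ).1 * (Z τ).2.1 *
        (starRingEnd ℂ) (lcf i M (Z τ)).2.2.2.1).re s τ :=
    o1_re ((h1.mul h2).mul (o1_conj h4))
  have eB : HasDerivWithinAt (fun t => lcB i M (Z t))
      (mQ i * (1 + mQ i * M) / 2 * (2 * ((Z τ).2.2.2.1.re * (lcf i M (Z τ)).2.2.2.1.re +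
        (Z τ).2.2.2.1.im * (lcf i M (Z τ)).2.2.2.1.im)) -
        mQ i * -((‖(Z τ).2.2.1‖ ^ 3)⁻¹ * ((Z τ).2.2.1.re * (lcf i M (Z τ)).2.2.1.re +
          (Z τ).2.2.1.im * (lcf i M (Z τ)).2.2.1.im)) - 0 -
        mP i * mQ i * M * -((‖(Z τ).1 ^ 2 - (Z τ).2.2.1‖ ^ 3)⁻¹ *
          (((Z τ).1 ^ 2 - (Z τ).2.2.1).re *
            (2 * (Z τ).1 * (lcf i M (Z τ)).1 - (lcf i M (Z τ)).2.2.1).re +
          ((Z τ).1 ^ 2 - (Z τ).2.2.1).im *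
            (2 * (Z τ).1 * (lcf i M (Z τ)).1 - (lcf i M (Z τ)).2.2.1).im))) s τ := by
    have h6 := ((((e4.const_mul (mQ i * (1 + mQ i * M) / 2)).sub (e3.const_mul (mQ i))).sub
      h5).sub (e5.const_mul (mP i * mQ i * M)))
    have h7 : HasDerivWithinAt (fun t => mQ i * (1 + mQ i * M) / 2 * ‖(Z t).2.2.2.1‖ ^ 2 -
        mQ i * ‖(Z t).2.2.1‖⁻¹ - (Z t).2.2.2.2 - mP i * mQ i * M *
          ‖(Z t).1 ^ 2 - (Z t).2.2.1‖⁻¹) _ s τ := h6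
    have hfun : (fun t => lcB i M (Z t)) = fun t =>
        mQ i * (1 + mQ i * M) / 2 * ‖(Z t).2.2.2.1‖ ^ 2 -
        mQ i * ‖(Z t).2.2.1‖⁻¹ - (Z t).2.2.2.2 - mP i * mQ i * M *
          ‖(Z t).1 ^ 2 - (Z t).2.2.1‖⁻¹ := by
      funext t
      unfold lcB
      simp only [div_eq_mul_inv]
      ring
    rw [hfun]
    exact h7
  have hn : ∀ z : ℂ, ‖z‖ ^ 2 = z.re ^ 2 + z.im ^ 2 := fun z => by
    rw [← Complex.normSq_eq_norm_sq, Complex.normSq_apply]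
    ring
  have h8 := (((e2.const_mul (mP i * (1 + mP i * M) / 8)).sub_const (mP i)).add
    (e1.mul eB)).add (e6.const_mul (mP i * mQ i * M / 2))
  have h9 : HasDerivWithinAt (fun t => mP i * (1 + mP i * M) / 8 * ‖(Z t).2.1‖ ^ 2 - mP i +
      ‖(Z t).1‖ ^ 2 * lcB i M (Z t) +
      mP i * mQ i * M / 2 * ((Z t).1 * (Z t).2.1 * (starRingEnd ℂ) (Z t).2.2.2.1).re) _ s τ := h8
  have hfun : (fun τ => lcK i M (Z τ)) = fun t =>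
      mP i * (1 + mP i * M) / 8 * ‖(Z t).2.1‖ ^ 2 - mP i +
      ‖(Z t).1‖ ^ 2 * lcB i M (Z t) +
      mP i * mQ i * M / 2 * ((Z t).1 * (Z t).2.1 * (starRingEnd ℂ) (Z t).2.2.2.1).re := by
    funext t
    unfold lcK
    ring
  rw [hfun]
  refine h9.congr_deriv ?_
  rw [hn (Z τ).1]
  refine o1_alg (mP i) (mQ i) M (lcB i M (Z τ)) ((‖(Z τ).2.2.1‖ ^ 3)⁻¹)
    ((‖(Z τ).1 ^ 2 - (Z τ).2.2.1‖ ^ 3)⁻¹) hP (Z τ).1 (Z τ).2.1 (Z τ).2.2.1 (Z τ).2.2.2.1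
    _ _ _ _ rfl ?_ ?_ ?_
  · rw [← hn (Z τ).1]
    rfl
  · rw [← hn (Z τ).1]
    rfl
  · rw [← hn (Z τ).1]
    rfl

/-- O1: solutions of the regularized equations on the level `K = 0` are orbits -/
theorem lc_K_pr (i : Fin 2) (M T : ℝ) (hT : 0 ≤ T) (Z : ℝ → LCS)
    (hZ : ∀ τ ∈ Icc 0 T, HasDerivWithinAt Z (lcf i M (Z τ)) (Icc 0 T) τ)
    (hX : ∀ τ ∈ Icc 0 T, lcX (Z τ) ≠ 0 ∧ (Z τ).2.2.1 ≠ 0) :
    ∀ τ ∈ Icc 0 T, lcK i M (Z τ) = lcK i M (Z 0) := by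
  have h1 : ∀ τ ∈ Icc 0 T, HasDerivWithinAt (fun τ => lcK i M (Z τ)) 0 (Icc 0 T) τ :=
    fun τ hτ => o1_lcK_deriv i M (hZ τ hτ) (hX τ hτ).1 (hX τ hτ).2
  rcases hT.eq_or_lt with h0 | h0
  · subst h0
    intro τ hτ
    rw [le_antisymm hτ.2 hτ.1]
  · refine constant_of_derivWithin_zero (fun τ hτ => (h1 τ hτ).differentiableWithinAt) ?_
    intro τ hτ
    exact (h1 τ (Ico_subset_Icc_self hτ)).derivWithin
      (uniqueDiffOn_Icc h0 τ (Ico_subset_Icc_self hτ))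

/-- the equation of the velocity of the regularized body -/
theorem o1_alg2 (p q M B b : ℝ) (hp : p ≠ 0) (z η x u z' η' : ℂ) (hz0 : z ≠ 0)
    (hz : z' = ((1 + p * M) / 4 : ℝ) * η + ((q * M / 2 : ℝ) * (starRingEnd ℂ) z * u))
    (hη : η' = -((2 / p * B : ℝ) * z)
     - (2 * q * M * ‖z‖ ^ 2 : ℝ) * (starRingEnd ℂ) z * ((b : ℝ) * (z ^ 2 - x))
     - (q * M / 2 : ℝ) * (starRingEnd ℂ) η * u)
    (hK : p * (1 + p * M) * ‖η‖ ^ 2 / 8 - p + ‖z‖ ^ 2 * B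
      + p * q * M * (z * η * (starRingEnd ℂ) u).re / 2 = 0) :
    (η' * (2 * (starRingEnd ℂ) z) - η * (2 * (starRingEnd ℂ) z')) / (2 * (starRingEnd ℂ) z) ^ 2 =
      (‖z‖ ^ 2 : ℝ) * (-(((‖z ^ 2‖ ^ 3)⁻¹ : ℝ) * z ^ 2) - (q * M : ℝ) * ((b : ℝ) * (z ^ 2 - x))) := by
  have hc0 : (starRingEnd ℂ) z ≠ 0 := (map_ne_zero _).2 hz0
  have hn : ∀ z : ℂ, ((‖z‖ ^ 2 : ℝ) : ℂ) = z * (starRingEnd ℂ) z := fun z => by
    rw [Complex.mul_conj, Complex.normSq_eq_norm_sq]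
  have hre : ∀ z : ℂ, ((z.re : ℝ) : ℂ) = (z + (starRingEnd ℂ) z) / 2 := fun z => by
    rw [Complex.add_conj]
    push_cast
    ring
  have hp' : (p : ℂ) ≠ 0 := by exact_mod_cast hp
  have hK' : (p : ℂ) * (1 + p * M) * (η * (starRingEnd ℂ) η) / 8 - p +
      (z * (starRingEnd ℂ) z) * B + p * q * M * ((z * η * (starRingEnd ℂ) u) +
        ((starRingEnd ℂ) z * (starRingEnd ℂ) η * u)) / 4 = 0 := by
    have h1 : ((p * (1 + p * M) * ‖η‖ ^ 2 / 8 - p + ‖z‖ ^ 2 * B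
      + p * q * M * (z * η * (starRingEnd ℂ) u).re / 2 : ℝ) : ℂ) = 0 := by rw [hK]; simp
    rw [← hn, ← hn, ← h1]
    push_cast
    rw [hre]
    simp only [map_mul, Complex.conj_conj]
    ring
  have hr : ((‖z‖ ^ 2 : ℝ) : ℂ) * (((‖z ^ 2‖ ^ 3)⁻¹ : ℝ) * z ^ 2) =
      1 / ((starRingEnd ℂ) z) ^ 2 := by
    rw [norm_pow, ← pow_mul, show 2 * 3 = 2 * 3 from rfl, pow_mul]
    push_cast
    have h2 := hn z
    push_cast at h2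
    rw [h2]
    field_simp
  have h3 : ((‖z‖ ^ 2 : ℝ) : ℂ) * (-(((‖z ^ 2‖ ^ 3)⁻¹ : ℝ) * z ^ 2) -
      (q * M : ℝ) * ((b : ℝ) * (z ^ 2 - x))) = -(1 / ((starRingEnd ℂ) z) ^ 2) -
      (z * (starRingEnd ℂ) z) * ((q * M : ℝ) * ((b : ℝ) * (z ^ 2 - x))) := by
    rw [← hr, ← hn]
    ring
  have h4 := hn z
  rw [h3, hz, hη, div_eq_iff (by simpa using hc0)]
  push_cast at h4 ⊢
  rw [h4]
  simp only [map_add, map_mul, map_div₀, map_one, map_ofNat, Complex.conj_ofReal,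
    Complex.conj_conj]
  have h5 : (B : ℂ) = (p - (p : ℂ) * (1 + p * M) * (η * (starRingEnd ℂ) η) / 8 -
      p * q * M * ((z * η * (starRingEnd ℂ) u) +
        ((starRingEnd ℂ) z * (starRingEnd ℂ) η * u)) / 4) / (z * (starRingEnd ℂ) z) := by
    rw [eq_div_iff (mul_ne_zero hz0 hc0)]
    linear_combination hK'
  rw [h5]
  field_simp
  ring

/-- derivative of `η / (2 conj ζ)` -/
theorem o1_div {f g : ℝ → ℂ} {f' g' : ℂ} {s : Set ℝ} {t : ℝ}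
    (hf : HasDerivWithinAt f f' s t) (hg : HasDerivWithinAt g g' s t) (h0 : f t ≠ 0) :
    HasDerivWithinAt (fun t => g t / (2 * (starRingEnd ℂ) (f t)))
      ((g' * (2 * (starRingEnd ℂ) (f t)) - g t * (2 * (starRingEnd ℂ) f')) /
        (2 * (starRingEnd ℂ) (f t)) ^ 2) s t := by
  have hc0 : (2 : ℂ) * (starRingEnd ℂ) (f t) ≠ 0 :=
    mul_ne_zero two_ne_zero ((map_ne_zero _).2 h0)
  exact hg.div ((o1_conj hf).const_mul 2) hc0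

theorem o1_vf_eq (M : ℝ) (a b c d : ℂ) : vf M (a, b, c, d) =
    (c + M * (ma * c + mb * d), d + M * (ma * c + mb * d), - G a - (mb * M : ℝ) * G (a - b),
      - G b + (ma * M : ℝ) * G (a - b)) := rfl

theorem o1_G_neg (z : ℂ) : G (-z) = - G z := by
  unfold G
  rw [norm_neg]
  ring

/-- the Cartesian curve of a regularized solution has velocity `|ζ|² vf` -/
theorem o1_lcSt_deriv (i : Fin 2) (M : ℝ) {Z : ℝ → LCS} {s : Set ℝ} {τ : ℝ}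
    (hZ : HasDerivWithinAt Z (lcf i M (Z τ)) s τ) (hK : lcK i M (Z τ) = 0)
    (hζ : (Z τ).1 ≠ 0) :
    HasDerivWithinAt (fun τ => lcSt i (Z τ)) (‖(Z τ).1‖ ^ 2 • vf M (lcSt i (Z τ))) s τ := by
  have hP : mP i ≠ 0 := by
    unfold mP ma mb
    split_ifs <;> norm_num
  have hn : ∀ z : ℂ, ((‖z‖ ^ 2 : ℝ) : ℂ) = z * (starRingEnd ℂ) z := fun z => by
    rw [Complex.mul_conj, Complex.normSq_eq_norm_sq]
  have hc0 : (starRingEnd ℂ) (Z τ).1 ≠ 0 := (map_ne_zero _).2 hζ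
  have h1 := o1_fst hZ
  have h2 := o1_fst (o1_snd hZ)
  have h3 := o1_fst (o1_snd (o1_snd hZ))
  have h4 := o1_fst (o1_snd (o1_snd (o1_snd hZ)))
  have a1 : HasDerivWithinAt (fun t => (Z t).1 ^ 2) (2 * (Z τ).1 * (lcf i M (Z τ)).1) s τ := by
    refine (h1.pow 2).congr_deriv ?_
    push_cast
    ring
  have a2 := o1_div h1 h2 hζ
  have a3 := o1_alg2 (mP i) (mQ i) M (lcB i M (Z τ)) ((‖(Z τ).1 ^ 2 - (Z τ).2.2.1‖ ^ 3)⁻¹) hP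
    (Z τ).1 (Z τ).2.1 (Z τ).2.2.1 (Z τ).2.2.2.1 (lcf i M (Z τ)).1 (lcf i M (Z τ)).2.1 hζ
    rfl rfl hK
  rw [a3] at a2
  have a4 : (2 * (Z τ).1 * (lcf i M (Z τ)).1 : ℂ) = (‖(Z τ).1‖ ^ 2 : ℝ) *
      ((Z τ).2.1 / (2 * (starRingEnd ℂ) (Z τ).1) + M * (mP i *
        ((Z τ).2.1 / (2 * (starRingEnd ℂ) (Z τ).1)) + mQ i * (Z τ).2.2.2.1)) := by
    rw [hn]
    have : (lcf i M (Z τ)).1 = ((1 + mP i * M) / 4 : ℝ) * (Z τ).2.1 +
      ((mQ i * M / 2 : ℝ) * (starRingEnd ℂ) (Z τ).1 * (Z τ).2.2.2.1) := rfl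
    rw [this]
    push_cast
    field_simp
    ring
  have a5 : (lcf i M (Z τ)).2.2.1 = (‖(Z τ).1‖ ^ 2 : ℝ) *
      ((Z τ).2.2.2.1 + M * (mP i * ((Z τ).2.1 / (2 * (starRingEnd ℂ) (Z τ).1)) +
        mQ i * (Z τ).2.2.2.1)) := by
    have : (lcf i M (Z τ)).2.2.1 = (‖(Z τ).1‖ ^ 2 * (1 + mQ i * M) : ℝ) * (Z τ).2.2.2.1 +
      (mP i * M / 2 : ℝ) * (Z τ).1 * (Z τ).2.1 := rfl
    rw [this]
    have h5 := hn (Z τ).1
    push_cast at h5 ⊢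
    rw [h5]
    field_simp
    ring
  have a6 : (lcf i M (Z τ)).2.2.2.1 = (‖(Z τ).1‖ ^ 2 : ℝ) *
    (- G (Z τ).2.2.1 + (mP i * M : ℝ) * G ((Z τ).1 ^ 2 - (Z τ).2.2.1)) := rfl
  rw [a4] at a1
  rw [a5] at h3
  rw [a6] at h4
  have hG : ∀ z : ℂ, ((‖z‖ ^ 3)⁻¹ : ℝ) * z = G z := fun z => rfl
  rw [hG, hG] at a2
  fin_cases i
  · have b := a1.prodMk (h3.prodMk (a2.prodMk h4))
    refine HasDerivWithinAt.congr_deriv (f' := _) (show HasDerivWithinAt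
      (fun τ => lcSt 0 (Z τ)) _ s τ from b) ?_
    have hst : lcSt 0 (Z τ) = ((Z τ).1 ^ 2, (Z τ).2.2.1,
      (Z τ).2.1 / (2 * (starRingEnd ℂ) (Z τ).1), (Z τ).2.2.2.1) := rfl
    show _ = _ • vf M (lcSt 0 (Z τ))
    rw [hst, o1_vf_eq]
    simp only [Prod.smul_mk, Complex.real_smul, Fin.zero_eta, mP, mQ, if_true]
  · have b := h3.prodMk (a1.prodMk (h4.prodMk a2))
    refine HasDerivWithinAt.congr_deriv (f' := _) (show HasDerivWithinAt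
      (fun τ => lcSt 1 (Z τ)) _ s τ from b) ?_
    have hst : lcSt 1 (Z τ) = ((Z τ).2.2.1, (Z τ).1 ^ 2, (Z τ).2.2.2.1,
      (Z τ).2.1 / (2 * (starRingEnd ℂ) (Z τ).1)) := rfl
    show _ = _ • vf M (lcSt 1 (Z τ))
    rw [hst, o1_vf_eq]
    have hGG : G ((Z τ).2.2.1 - (Z τ).1 ^ 2) = - G ((Z τ).1 ^ 2 - (Z τ).2.2.1) := by
      rw [← o1_G_neg, neg_sub]
    rw [hGG]
    simp only [Prod.smul_mk, Complex.real_smul, Fin.mk_one, mP, mQ, one_ne_zero, if_false]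
    refine Prod.ext ?_ (Prod.ext ?_ (Prod.ext ?_ ?_))
    · simp only
      ring
    · simp only
      ring
    · simp only
      ring
    · simp only
      ring

theorem lc_reachT_pr (i : Fin 2) (M T : ℝ) (hT : 0 ≤ T) (Z : ℝ → LCS)
    (hZ : ∀ τ ∈ Icc 0 T, HasDerivWithinAt Z (lcf i M (Z τ)) (Icc 0 T) τ)
    (hK : lcK i M (Z 0) = 0) (hζ : ∀ τ ∈ Icc 0 T, (Z τ).1 ≠ 0)
    (hX : ∀ τ ∈ Icc 0 T, lcX (Z τ) ≠ 0 ∧ (Z τ).2.2.1 ≠ 0) :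
    ReachT M (∫ s in (0:ℝ)..T, ‖(Z s).1‖ ^ 2) (lcSt i (Z 0)) (lcSt i (Z T)) := by
  have hK' := lc_K_pr i M T hT Z hZ hX
  refine reach_of_param hT (γ := fun τ => lcSt i (Z τ)) (φ := fun τ => ‖(Z τ).1‖ ^ 2) ?_ ?_ ?_
  · intro τ hτ
    exact ((o1_norm_sq (o1_fst (hZ τ hτ))).continuousWithinAt)
  · intro τ hτ
    have := norm_pos_iff.2 (hζ τ hτ)
    positivity
  · intro τ hτ
    refine ⟨?_, o1_lcSt_deriv i M (hZ τ hτ) ((hK' τ hτ).trans hK) (hζ τ hτ)⟩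
    have h1 := hζ τ hτ
    obtain ⟨h2, h3⟩ := hX τ hτ
    have h4 : (Z τ).1 ^ 2 ≠ (Z τ).2.2.1 := fun h => h2 (sub_eq_zero.2 h)
    fin_cases i
    · exact ⟨pow_ne_zero 2 h1, h3, h4⟩
    · exact ⟨h3, pow_ne_zero 2 h1, h4.symm⟩

theorem o1_sqrt (z : ℂ) : (z ^ (1 / 2 : ℂ)) ^ 2 = z := by
  have := Complex.cpow_nat_inv_pow z (n := 2) two_ne_zero
  rw [one_div]
  exact_mod_cast this

theorem lcSt_toLC_pr (i : Fin 2) (M : ℝ) (y : St) (h : x3 y ≠ 0 ∧ x2 y ≠ 0) :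
    lcSt i (toLC i M y) = y := by
  obtain ⟨a, b, c, d⟩ := y
  obtain ⟨ha, hb⟩ := h
  have ha' : a ≠ 0 := ha
  have hb' : b ≠ 0 := hb
  have key : ∀ a c : ℂ, a ≠ 0 → 2 * (starRingEnd ℂ) (a ^ (1 / 2 : ℂ)) * c /
      (2 * (starRingEnd ℂ) (a ^ (1 / 2 : ℂ))) = c := by
    intro a c ha
    have h1 : a ^ (1 / 2 : ℂ) ≠ 0 := by
      intro h2
      have := o1_sqrt a
      rw [h2] at this
      apply ha
      rw [← this]
      simp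
    exact mul_div_cancel_left₀ c (mul_ne_zero two_ne_zero ((map_ne_zero _).2 h1))
  fin_cases i
  · show ((a ^ (1 / 2 : ℂ)) ^ 2, b, 2 * (starRingEnd ℂ) (a ^ (1 / 2 : ℂ)) * c /
      (2 * (starRingEnd ℂ) (a ^ (1 / 2 : ℂ))), d) = (a, b, c, d)
    rw [o1_sqrt, key a c ha']
  · show (a, (b ^ (1 / 2 : ℂ)) ^ 2, c, 2 * (starRingEnd ℂ) (b ^ (1 / 2 : ℂ)) * d /
      (2 * (starRingEnd ℂ) (b ^ (1 / 2 : ℂ)))) = (a, b, c, d)
    rw [o1_sqrt, key b d hb']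

theorem o1_n2 (z : ℂ) : ‖z‖ ^ 2 = z.re ^ 2 + z.im ^ 2 := by
  rw [← Complex.normSq_eq_norm_sq, Complex.normSq_apply]
  ring

/-- the energy -/
theorem o1_ham (M : ℝ) (a b c d : ℂ) : Ham M (a, b, c, d) =
    ma * (1 + ma * M) * ‖c‖ ^ 2 / 2 + mb * (1 + mb * M) * ‖d‖ ^ 2 / 2 +
      ma * mb * M * (c * (starRingEnd ℂ) d).re - ma / ‖a‖ - mb / ‖b‖ -
      ma * mb * M / ‖a - b‖ := by
  have h1 : Ham M (a, b, c, d) = (1 + M) * ‖(ma : ℂ) * c + mb * d‖ ^ 2 / 2 +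
    ma * mb * (‖c - d‖ ^ 2 / 2 - M / ‖a - b‖) - ma / ‖a‖ - mb / ‖b‖ := rfl
  rw [h1, o1_n2, o1_n2, o1_n2, o1_n2]
  simp only [Complex.add_re, Complex.add_im, Complex.sub_re, Complex.sub_im,
    Complex.mul_re, Complex.mul_im, Complex.ofReal_re,
    Complex.ofReal_im, Complex.conj_re, Complex.conj_im, ma, mb]
  ring

theorem o1_lcK_aux (p q M H : ℝ) (ζ uP uQ xP xQ : ℂ) (hx : xP ≠ 0) (hζ : ζ ^ 2 = xP)
    (hH : H = p * (1 + p * M) * ‖uP‖ ^ 2 / 2 + q * (1 + q * M) * ‖uQ‖ ^ 2 / 2 +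
      p * q * M * (uP * (starRingEnd ℂ) uQ).re - p / ‖xP‖ - q / ‖xQ‖ -
      p * q * M / ‖xP - xQ‖) :
    p * (1 + p * M) * ‖2 * (starRingEnd ℂ) ζ * uP‖ ^ 2 / 8 - p + ‖ζ‖ ^ 2 *
      (q * (1 + q * M) * ‖uQ‖ ^ 2 / 2 - q / ‖xQ‖ - H - p * q * M / ‖ζ ^ 2 - xQ‖)
      + p * q * M * (ζ * (2 * (starRingEnd ℂ) ζ * uP) * (starRingEnd ℂ) uQ).re / 2 = 0 := by
  have hn : ‖ζ‖ ^ 2 = ‖xP‖ := by rw [← hζ, norm_pow]
  have hx0 : ‖xP‖ ≠ 0 := norm_ne_zero_iff.2 hx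
  have h1 : ‖2 * (starRingEnd ℂ) ζ * uP‖ ^ 2 = 4 * ‖xP‖ * ‖uP‖ ^ 2 := by
    rw [norm_mul, norm_mul, Complex.norm_conj, mul_pow, mul_pow, hn]
    norm_num
  have h2 : (ζ * (2 * (starRingEnd ℂ) ζ * uP) * (starRingEnd ℂ) uQ).re =
      2 * ‖xP‖ * (uP * (starRingEnd ℂ) uQ).re := by
    have h3 : ζ * (2 * (starRingEnd ℂ) ζ * uP) * (starRingEnd ℂ) uQ =
        ((2 * ‖xP‖ : ℝ) : ℂ) * (uP * (starRingEnd ℂ) uQ) := by
      have h4 : ((‖ζ‖ ^ 2 : ℝ) : ℂ) = ζ * (starRingEnd ℂ) ζ := by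
        rw [Complex.mul_conj, Complex.normSq_eq_norm_sq]
      rw [← hn, Complex.ofReal_mul, h4]
      push_cast
      ring
    rw [h3, Complex.re_ofReal_mul]
  rw [h1, h2, hn, hζ, hH]
  field_simp
  ring

/-- energy in Levi-Civita variables -/
theorem o1_lcK (i : Fin 2) (M : ℝ) (y : St) (h : x3 y ≠ 0 ∧ x2 y ≠ 0) :
    lcK i M (toLC i M y) = 0 := by
  obtain ⟨a, b, c, d⟩ := y
  obtain ⟨ha, hb⟩ := h
  have ha' : a ≠ 0 := ha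
  have hb' : b ≠ 0 := hb
  fin_cases i
  · exact o1_lcK_aux ma mb M (Ham M (a, b, c, d)) (a ^ (1 / 2 : ℂ)) c d a b ha' (o1_sqrt a)
      (o1_ham M a b c d)
  · refine o1_lcK_aux mb ma M (Ham M (a, b, c, d)) (b ^ (1 / 2 : ℂ)) d c b a hb' (o1_sqrt b) ?_
    rw [o1_ham, norm_sub_rev b a]
    have : (d * (starRingEnd ℂ) c).re = (c * (starRingEnd ℂ) d).re := by
      simp only [Complex.mul_re, Complex.conj_re, Complex.conj_im]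
      ring
    rw [this]
    ring

theorem lcK_toLC_pr (i : Fin 2) (M : ℝ) (y : St) (h : NC y) : lcK i M (toLC i M y) = 0 :=
  o1_lcK i M y ⟨h.1, h.2.1⟩

/-- at a collision, `M = 0` -/
theorem lcK_toLC0_pr (i : Fin 2) (y : St) (h : x3 y ≠ 0 ∧ x2 y ≠ 0) :
    lcK i 0 (toLC i 0 y) = 0 := o1_lcK i 0 y h

/-- `lcX` and its velocity in collision coordinates -/
theorem lcX_eq_pr (i : Fin 2) (Z : LCS) : lcX Z = (sg i : ℝ) * cX (lcSt i Z) := by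
  fin_cases i
  · show Z.1 ^ 2 - Z.2.2.1 = ((sg 0 : ℝ) : ℂ) * (Z.1 ^ 2 - Z.2.2.1)
    simp [sg]
  · show Z.1 ^ 2 - Z.2.2.1 = ((sg 1 : ℝ) : ℂ) * (Z.2.2.1 - Z.1 ^ 2)
    simp [sg]

theorem lcΛ_eq_pr (i : Fin 2) (Z : LCS) (h : Z.1 ≠ 0) :
    lcΛ Z = (sg i * ‖Z.1‖ ^ 2 : ℝ) * cW (lcSt i Z) := by
  have hc0 : (starRingEnd ℂ) Z.1 ≠ 0 := (map_ne_zero _).2 h
  have hn : ((‖Z.1‖ ^ 2 : ℝ) : ℂ) = Z.1 * (starRingEnd ℂ) Z.1 := by
    rw [Complex.mul_conj, Complex.normSq_eq_norm_sq]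
  rw [Complex.ofReal_mul]
  unfold lcΛ
  rw [hn]
  fin_cases i
  · show Z.1 * Z.2.1 / 2 - Z.1 * (starRingEnd ℂ) Z.1 * Z.2.2.2.1 = ((sg 0 : ℝ) : ℂ) *
      (Z.1 * (starRingEnd ℂ) Z.1) * (Z.2.1 / (2 * (starRingEnd ℂ) Z.1) - Z.2.2.2.1)
    have : sg 0 = 1 := by simp [sg]
    rw [this]
    push_cast
    field_simp
  · show Z.1 * Z.2.1 / 2 - Z.1 * (starRingEnd ℂ) Z.1 * Z.2.2.2.1 = ((sg 1 : ℝ) : ℂ) *
      (Z.1 * (starRingEnd ℂ) Z.1) * (Z.2.2.2.1 - Z.2.1 / (2 * (starRingEnd ℂ) Z.1))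
    have : sg 1 = -1 := by simp [sg]
    rw [this]
    push_cast
    field_simp
    ring

end

end Pool.Agent.HS

namespace Pool.Agent.HS
open Set Filter Topology Classical

theorem lc_K (i : Fin 2) (M T : ℝ) (hT : 0 ≤ T) (Z : ℝ → LCS)
    (hZ : ∀ τ ∈ Icc 0 T, HasDerivWithinAt Z (lcf i M (Z τ)) (Icc 0 T) τ)
    (hX : ∀ τ ∈ Icc 0 T, lcX (Z τ) ≠ 0 ∧ (Z τ).2.2.1 ≠ 0) :
    ∀ τ ∈ Icc 0 T, lcK i M (Z τ) = lcK i M (Z 0) :=
  @Pool.Agent.HS.lc_K_pr i M T hT Z hZ hX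

end Pool.Agent.HS

namespace Pool.Agent.HS
open Set Filter Topology Classical

theorem lc_reachT (i : Fin 2) (M T : ℝ) (hT : 0 ≤ T) (Z : ℝ → LCS)
    (hZ : ∀ τ ∈ Icc 0 T, HasDerivWithinAt Z (lcf i M (Z τ)) (Icc 0 T) τ)
    (hK : lcK i M (Z 0) = 0) (hζ : ∀ τ ∈ Icc 0 T, (Z τ).1 ≠ 0)
    (hX : ∀ τ ∈ Icc 0 T, lcX (Z τ) ≠ 0 ∧ (Z τ).2.2.1 ≠ 0) :
    ReachT M (∫ s in (0:ℝ)..T, ‖(Z s).1‖ ^ 2) (lcSt i (Z 0)) (lcSt i (Z T)) :=
  @Pool.Agent.HS.lc_reachT_pr i M T hT Z hZ hK hζ hX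

end Pool.Agent.HS

namespace Pool.Agent.HS
open Set Filter Topology Classical

theorem lcSt_toLC (i : Fin 2) (M : ℝ) (y : St) (h : x3 y ≠ 0 ∧ x2 y ≠ 0) :
    lcSt i (toLC i M y) = y :=
  @Pool.Agent.HS.lcSt_toLC_pr i M y h

end Pool.Agent.HS

namespace Pool.Agent.HS
open Set Filter Topology Classical

theorem lcK_toLC (i : Fin 2) (M : ℝ) (y : St) (h : NC y) : lcK i M (toLC i M y) = 0 :=
  @Pool.Agent.HS.lcK_toLC_pr i M y h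

end Pool.Agent.HS

namespace Pool.Agent.HS
open Set Filter Topology Classical

theorem lcK_toLC0 (i : Fin 2) (y : St) (h : x3 y ≠ 0 ∧ x2 y ≠ 0) : lcK i 0 (toLC i 0 y) = 0 :=
  @Pool.Agent.HS.lcK_toLC0_pr i y h

end Pool.Agent.HS

namespace Pool.Agent.HS
open Set Filter Topology Classical

theorem lcX_eq (i : Fin 2) (Z : LCS) : lcX Z = (sg i : ℝ) * cX (lcSt i Z) :=
  @Pool.Agent.HS.lcX_eq_pr i Z

end Pool.Agent.HS

namespace Pool.Agent.HS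
open Set Filter Topology Classical

theorem lcΛ_eq (i : Fin 2) (Z : LCS) (h : Z.1 ≠ 0) :
    lcΛ Z = (sg i * ‖Z.1‖ ^ 2 : ℝ) * cW (lcSt i Z) :=
  @Pool.Agent.HS.lcΛ_eq_pr i Z h

end Pool.Agent.HS
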