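import Pool.Agent.Lib_helper60.HSF.D_WI
import Pool.Agent.Lib_helper60.HSF.IO_C4
import Pool.Agent.Lib_helper60.HSF.IO_K2
import Pool.Agent.Lib_helper60.HSF.IO_P2
import Pool.Agent.Lib_helper60.HSF.IO_O4
import Pool.Agent.Lib_helper60.HSF.IO_O2
import Pool.Agent.Lib_helper60.HSF.IO_O1
import Pool.Agent.Lib_helper60.HSF.IO_P4
import Pool.Agent.Lib_helper60.HSF.IO_O3

/-! Project HS, block P7: the limit state near the end of the arc -/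

namespace Pool.Agent.HS

noncomputable section

open Set Filter Topology Classical

/-! ### calculus -/

theorem p7_lip_mono {α E : Type*} [PseudoMetricSpace α] [NormedAddCommGroup E] {L L' : ℝ}
    {f : α → E} {S : Set α} (h : Lip L f S) (hL : L ≤ L') : Lip L' f S := fun p hp q hq =>
  (h p hp q hq).trans (mul_le_mul_of_nonneg_right hL dist_nonneg)

theorem p7_congr {B H E : Type*} [PseudoMetricSpace B] [NormedAddCommGroup H]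
    [NormedAddCommGroup E] {L ρ : ℝ} {S S' : B × H → E} {O : Set B} (hS : RegF L S O ρ)
    (he : ∀ X ∈ O, ∀ η ∈ Metric.closedBall (0:H) ρ, S' (X, η) = S (X, η)) : RegF L S' O ρ := by
  refine ⟨fun p hp q hq => ?_, fun X hX X' hX' η hη θ hθ η' hη' θ' hθ' => ?_⟩
  · have h1 : S' p = S p := he p.1 hp.1 p.2 hp.2
    have h2 : S' q = S q := he q.1 hq.1 q.2 hq.2
    rw [h1, h2]
    exact hS.1 p hp q hq
  · rw [he X hX η hη, he X hX θ hθ, he X' hX' η' hη', he X' hX' θ' hθ']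
    exact hS.2 X hX X' hX' η hη θ hθ η' hη' θ' hθ'

theorem p7_fst {B H E E' : Type*} [PseudoMetricSpace B] [NormedAddCommGroup H]
    [NormedAddCommGroup E] [NormedAddCommGroup E'] {L ρ : ℝ} {S : B × H → E × E'} {O : Set B}
    (hS : RegF L S O ρ) : RegF L (fun p => (S p).1) O ρ := by
  refine ⟨fun p hp q hq => ?_, fun X hX X' hX' η hη θ hθ η' hη' θ' hθ' => ?_⟩
  · exact (norm_fst_le (S p - S q)).trans (hS.1 p hp q hq)
  · exact (norm_fst_le (S (X, η) - S (X, θ) - S (X', η') + S (X', θ'))).trans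
      (hS.2 X hX X' hX' η hη θ hθ η' hη' θ' hθ')

theorem p7_snd {B H E E' : Type*} [PseudoMetricSpace B] [NormedAddCommGroup H]
    [NormedAddCommGroup E] [NormedAddCommGroup E'] {L ρ : ℝ} {S : B × H → E × E'} {O : Set B}
    (hS : RegF L S O ρ) : RegF L (fun p => (S p).2) O ρ := by
  refine ⟨fun p hp q hq => ?_, fun X hX X' hX' η hη θ hθ η' hη' θ' hθ' => ?_⟩
  · exact (norm_snd_le (S p - S q)).trans (hS.1 p hp q hq)
  · exact (norm_snd_le (S (X, η) - S (X, θ) - S (X', η') + S (X', θ'))).trans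
      (hS.2 X hX X' hX' η hη θ hθ η' hη' θ' hθ')

/-- the affine start map -/
theorem p7_start {χ0 τ0 : Pl → ℝ} {O : Set Pl} {L ρ : ℝ} (hL : 0 ≤ L) (hχ : Lip L χ0 O)
    (hτ : Lip L τ0 O) :
    RegF (H := ℝ × ℝ) (L + 1) (fun q : Pl × (ℝ × ℝ) => (q.1, χ0 q.1 + q.2.1, τ0 q.1 + q.2.2)) O ρ := by
  refine ⟨fun p hp q hq => ?_, fun X hX X' hX' η hη θ hθ η' hη' θ' hθ' => ?_⟩
  · have h1 : ‖p.1 - q.1‖ ≤ dist p q := by
      rw [← dist_eq_norm, Prod.dist_eq]; exact le_max_left _ _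
    have h2 : ‖p.2 - q.2‖ ≤ dist p q := by
      rw [← dist_eq_norm, Prod.dist_eq]; exact le_max_right _ _
    have h21 : ‖p.2.1 - q.2.1‖ ≤ dist p q := (norm_fst_le (p.2 - q.2)).trans h2
    have h22 : ‖p.2.2 - q.2.2‖ ≤ dist p q := (norm_snd_le (p.2 - q.2)).trans h2
    have hd : 0 ≤ dist p q := dist_nonneg
    have h3 := hχ p.1 hp.1 q.1 hq.1
    have h4 := hτ p.1 hp.1 q.1 hq.1
    rw [dist_eq_norm] at h3 h4
    have h5 : L * ‖p.1 - q.1‖ ≤ L * dist p q := mul_le_mul_of_nonneg_left h1 hL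
    have h6 : 0 ≤ L * dist p q := mul_nonneg hL hd
    refine max_le ?_ (max_le ?_ ?_)
    · show ‖p.1 - q.1‖ ≤ _
      nlinarith
    · show ‖(χ0 p.1 + p.2.1) - (χ0 q.1 + q.2.1)‖ ≤ _
      calc ‖(χ0 p.1 + p.2.1) - (χ0 q.1 + q.2.1)‖ = ‖(χ0 p.1 - χ0 q.1) + (p.2.1 - q.2.1)‖ := by
            congr 1; ring
        _ ≤ ‖χ0 p.1 - χ0 q.1‖ + ‖p.2.1 - q.2.1‖ := norm_add_le _ _
        _ ≤ _ := by linarith
    · show ‖(τ0 p.1 + p.2.2) - (τ0 q.1 + q.2.2)‖ ≤ _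
      calc ‖(τ0 p.1 + p.2.2) - (τ0 q.1 + q.2.2)‖ = ‖(τ0 p.1 - τ0 q.1) + (p.2.2 - q.2.2)‖ := by
            congr 1; ring
        _ ≤ ‖τ0 p.1 - τ0 q.1‖ + ‖p.2.2 - q.2.2‖ := norm_add_le _ _
        _ ≤ _ := by linarith
  · have h1 : ((X, χ0 X + η.1, τ0 X + η.2) : Pl × ℝ × ℝ) - (X, χ0 X + θ.1, τ0 X + θ.2) -
        (X', χ0 X' + η'.1, τ0 X' + η'.2) + (X', χ0 X' + θ'.1, τ0 X' + θ'.2) =
        (0, η - θ - η' + θ') := by
      refine Prod.ext ?_ (Prod.ext ?_ ?_)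
      · show X - X - X' + X' = 0
        abel
      · show (χ0 X + η.1) - (χ0 X + θ.1) - (χ0 X' + η'.1) + (χ0 X' + θ'.1) =
          η.1 - θ.1 - η'.1 + θ'.1
        ring
      · show (τ0 X + η.2) - (τ0 X + θ.2) - (τ0 X' + η'.2) + (τ0 X' + θ'.2) =
          η.2 - θ.2 - η'.2 + θ'.2
        ring
    have h2 : ‖((0 : Pl), η - θ - η' + θ')‖ = ‖η - θ - η' + θ'‖ := by
      rw [Prod.norm_def, norm_zero]
      exact max_eq_right (norm_nonneg _)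
    show ‖((X, χ0 X + η.1, τ0 X + η.2) : Pl × ℝ × ℝ) - (X, χ0 X + θ.1, τ0 X + θ.2) -
        (X', χ0 X' + η'.1, τ0 X' + η'.2) + (X', χ0 X' + θ'.1, τ0 X' + θ'.2)‖ ≤ _
    rw [h1, h2]
    have h3 : 0 ≤ ‖η - θ - η' + θ'‖ := norm_nonneg _
    have h4 : 0 ≤ (L + 1) * (dist X X' + ‖η - η'‖ + ‖θ - θ'‖) * ‖η' - θ'‖ := by positivity
    nlinarith

/-! ### the end state -/

theorem p7_end {i : Fin 2} {C : ℝ} {O : Set (ℝ × ℝ)} {χ0 τ0 : ℝ × ℝ → ℝ}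
    {F : ℝ × ℝ → ℝ × ℝ} {θ : ℝ × ℝ → ℝ} (h : ZArc i C O χ0 τ0 F θ) {X : ℝ × ℝ} (hX : X ∈ O) :
    ∃ ρ : ℂ, ‖ρ‖ = 1 ∧ 1 / 2 ≤ ρ.re ∧ cX (endSt i C χ0 τ0 X) = 0 ∧
      cR (endSt i C χ0 τ0 X) = ρ * ((chart C (F X)).1 : ℝ) ∧
      cU (endSt i C χ0 τ0 X) = ρ * Uenc C 0 (chart C (F X)).1 (chart C (F X)).2 0 ∧
      cW (endSt i C χ0 τ0 X) = ρ * (kap0 C (chart C (F X)) * Complex.exp (θ X * Complex.I)) ∧
      x3 (endSt i C χ0 τ0 X) = ρ * ((chart C (F X)).1 : ℝ) ∧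
      x2 (endSt i C χ0 τ0 X) = ρ * ((chart C (F X)).1 : ℝ) := by
  obtain ⟨ρ, h1, h2, h3⟩ := h.fin X hX
  have hy : endSt i C χ0 τ0 X = rot ρ (colD (limD C (F X) (θ X))) := h3
  refine ⟨ρ, h1, h2, ?_⟩
  rw [hy]
  simp only [cX, cR, cU, cW, rot, colD, limD, ofRU, x3, x2, u3, u2, ma, mb]
  push_cast
  refine ⟨by ring, by ring, by ring, by ring, by ring, by ring⟩

theorem p7_zeta (i : Fin 2) (Z : LCS) :
    (if i = 0 then x3 (lcSt i Z) else x2 (lcSt i Z)) = Z.1 ^ 2 := by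
  unfold lcSt
  split_ifs with h
  · rfl
  · rfl

theorem p7_zd (i : Fin 2) (C : ℝ) (hC : 0 < C ∧ C ≤ 1) (O : Set (ℝ × ℝ)) (χ0 τ0 : ℝ × ℝ → ℝ)
    (F : ℝ × ℝ → ℝ × ℝ) (θ : ℝ × ℝ → ℝ) (h : ZArc i C O χ0 τ0 F θ)
    (hO : ∀ X ∈ O, X ∈ CD C ∧ F X ∈ CD C) :
    ∃ c' ρ L T : ℝ, 0 < c' ∧ 0 < ρ ∧ 1 ≤ L ∧ 0 < T ∧
      (∀ X ∈ O, 4 * ρ ≤ τ0 X ∧ τ0 X + ρ ≤ T) ∧
      RegF L (fun q : Pl × (ℝ × ℝ) => Zd i (limD C q.1 (χ0 q.1 + q.2.1)) (τ0 q.1 + q.2.2)) O ρ ∧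
      (∀ X ∈ O, ∀ χ, |χ - χ0 X| ≤ ρ → ∀ τ, Zd i (limD C X χ) τ ∈ lcBox c') ∧
      (∀ X ∈ O, ∀ X' ∈ O, ∀ τ ∈ Icc 0 T, ∀ τ' ∈ Icc 0 T,
        ‖Zd i (limD C X (χ0 X)) τ - Zd i (limD C X' (χ0 X')) τ'‖ ≤
          L * (dist X X' + |τ - τ'|)) := by
  obtain ⟨c1, ρ1, T, hc1, hρ1, hT, hτT, hadm⟩ := arc_adm i C hC O χ0 τ0 F θ h hO
  obtain ⟨c', hc', hZ⟩ := Zd_spec i c1 hc1
  obtain ⟨f0, K, hK, hBL, hReg, hbox, -⟩ := field_cut i c' hc'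
  obtain ⟨L1, hL1, hfl⟩ := lim_flow_reg i C hC f0 K T hBL (by linarith) hReg hT.le
  have hZf := Zd_flow i c1 c' hc1 f0 K hBL hbox hZ
  obtain ⟨L0, hχ, hτ, -, -⟩ := h.lip
  have hM1 : L0 ≤ max L0 1 := le_max_left _ _
  have hM2 : (1:ℝ) ≤ max L0 1 := le_max_right _ _
  set Λ := max L0 1 with hΛ
  have hχ' := p7_lip_mono hχ hM1
  have hτ' := p7_lip_mono hτ hM1
  have hst := p7_start (O := O) (ρ := ρ1) (by linarith : (0:ℝ) ≤ Λ) hχ' hτ'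
  have hηb : ∀ η ∈ Metric.closedBall (0 : ℝ × ℝ) ρ1, |η.1| ≤ ρ1 ∧ |η.2| ≤ ρ1 := by
    intro η hη
    rw [mem_closedBall_zero_iff] at hη
    exact ⟨(norm_fst_le η).trans hη, (norm_snd_le η).trans hη⟩
  have hcomp := regF_comp hst hfl (by
    intro X hX η hη
    obtain ⟨h1, h2⟩ := hηb η hη
    obtain ⟨h3, h4⟩ := hτT X hX
    rw [abs_le] at h2
    refine ⟨CD_sub C (hO X hX).1, mem_univ _, ?_, ?_⟩
    · show -T ≤ τ0 X + η.2
      linarith [h2.1]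
    · show τ0 X + η.2 ≤ T
      linarith [h2.2]) (by linarith) (by linarith)
  have hfz : ∀ X ∈ O, ∀ χ, |χ - χ0 X| ≤ ρ1 → ∀ τ, 0 ≤ τ →
      Zd i (limD C X χ) τ = flow f0 τ (toLC i 0 (colD (limD C X χ))) := by
    intro X hX χ hχ1 τ hτ1
    exact hZf _ (hadm X hX χ hχ1) τ hτ1
  refine ⟨c', ρ1, max (L1 * ((Λ + 1) + 3 * (Λ + 1) ^ 2)) (L1 * (Λ + 2)), T, hc', hρ1, ?_, hT, hτT, ?_,
    ?_, ?_⟩
  · refine le_trans ?_ (le_max_right _ _)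
    nlinarith
  · refine p7_congr (regF_mono hcomp (le_max_left _ _) le_rfl) ?_
    intro X hX η hη
    obtain ⟨h1, h2⟩ := hηb η hη
    obtain ⟨h3, h4⟩ := hτT X hX
    refine hfz X hX _ ?_ _ ?_
    · rw [show χ0 X + η.1 - χ0 X = η.1 by ring]; exact h1
    · rw [abs_le] at h2
      show 0 ≤ τ0 X + η.2
      linarith [h2.1]
  · intro X hX χ hχ1 τ
    exact ((hZ _ (hadm X hX χ hχ1)).2 τ).1
  · intro X hX X' hX' τ hτ1 τ' hτ1'
    rw [hfz X hX _ (by rw [sub_self, abs_zero]; exact hρ1.le) τ hτ1.1,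
      hfz X' hX' _ (by rw [sub_self, abs_zero]; exact hρ1.le) τ' hτ1'.1]
    have h1 := hfl.1 (X, χ0 X, τ) ⟨CD_sub C (hO X hX).1, mem_univ _, by
        show -T ≤ τ
        linarith [hτ1.1], hτ1.2⟩ (X', χ0 X', τ') ⟨CD_sub C (hO X' hX').1, mem_univ _, by
        show -T ≤ τ'
        linarith [hτ1'.1], hτ1'.2⟩
    refine h1.trans ?_
    have h2 : dist ((X, χ0 X, τ) : Pl × ℝ × ℝ) (X', χ0 X', τ') ≤ (Λ + 2) * (dist X X' + |τ - τ'|) := by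
      have h3 := hχ' X hX X' hX'
      have h4 : 0 ≤ dist X X' := dist_nonneg
      have h5 : 0 ≤ |τ - τ'| := abs_nonneg _
      refine max_le ?_ (max_le ?_ ?_)
      · show dist X X' ≤ _
        nlinarith
      · show dist (χ0 X) (χ0 X') ≤ _
        rw [dist_eq_norm]
        nlinarith
      · show dist τ τ' ≤ _
        rw [Real.dist_eq]
        nlinarith
    calc L1 * dist ((X, χ0 X, τ) : Pl × ℝ × ℝ) (X', χ0 X', τ')
        ≤ L1 * ((Λ + 2) * (dist X X' + |τ - τ'|)) := mul_le_mul_of_nonneg_left h2 (by linarith)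
      _ = L1 * (Λ + 2) * (dist X X' + |τ - τ'|) := by ring
      _ ≤ _ := mul_le_mul_of_nonneg_right (le_max_right _ _)
          (add_nonneg dist_nonneg (abs_nonneg _))

theorem p7_base {i : Fin 2} {C : ℝ} (hC : 0 < C ∧ C ≤ 1) {O : Set (ℝ × ℝ)} {χ0 τ0 : ℝ × ℝ → ℝ}
    {F : ℝ × ℝ → ℝ × ℝ} {θ : ℝ × ℝ → ℝ} (h : ZArc i C O χ0 τ0 F θ)
    (hO : ∀ X ∈ O, X ∈ CD C ∧ F X ∈ CD C) {X : ℝ × ℝ} (hX : X ∈ O) :
    3 / 5 ≤ (chart C (F X)).1 ∧ (chart C (F X)).1 ≤ 5 / 2 ∧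
      19 / 20 ≤ kap0 C (chart C (F X)) ∧ kap0 C (chart C (F X)) ≤ 6 / 5 ∧
      cX (endSt i C χ0 τ0 X) = 0 ∧ 3 / 10 ≤ (cR (endSt i C χ0 τ0 X)).re ∧
      ‖cR (endSt i C χ0 τ0 X)‖ = (chart C (F X)).1 ∧ ‖cU (endSt i C χ0 τ0 X)‖ ≤ 3 ∧
      cW (endSt i C χ0 τ0 X) = kap0 C (chart C (F X)) *
        Complex.exp (endN i C χ0 τ0 θ X * Complex.I) ∧
      (chart C (F X)).2 = ((starRingEnd ℂ) (cR (endSt i C χ0 τ0 X)) *
          cU (endSt i C χ0 τ0 X)).re / ‖cR (endSt i C χ0 τ0 X)‖ ∧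
      ‖(Zd i (limD C X (χ0 X)) (τ0 X)).1‖ ^ 2 = (chart C (F X)).1 := by
  obtain ⟨hr1, hr2, hp, hk⟩ := (hO X hX).2
  obtain ⟨hk1, hk2, hr3, hr4⟩ := kh_num
  obtain ⟨ρ, h1, h2, h3, h4, h5, h6, h7, h8⟩ := p7_end h hX
  set y := endSt i C χ0 τ0 X with hy
  set r := (chart C (F X)).1 with hr
  set p := (chart C (F X)).2 with hp'
  set κ := kap0 C (chart C (F X)) with hκ
  have hrl : 3 / 5 ≤ r := by linarith
  have hru : r ≤ 5 / 2 := by linarith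
  have hr0 : 0 < r := by linarith
  rw [abs_le] at hk hp
  have hnR : ‖cR y‖ = r := by
    rw [h4, norm_mul, h1, one_mul, Complex.norm_real, Real.norm_eq_abs, abs_of_pos hr0]
  have hρ0 : ρ ≠ 0 := by
    intro h0
    rw [h0, norm_zero] at h1
    exact zero_ne_one h1
  have harg : Complex.arg (cR y) = Complex.arg ρ := by
    rw [h4, mul_comm]
    exact Complex.arg_real_mul _ hr0
  have hρe : ρ = Complex.exp (Complex.arg ρ * Complex.I) := by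
    have := Complex.norm_mul_exp_arg_mul_I ρ
    rw [h1, Complex.ofReal_one, one_mul] at this
    exact this.symm
  have hconj : (starRingEnd ℂ) ρ * ρ = 1 := by
    rw [mul_comm, Complex.mul_conj, Complex.normSq_eq_norm_sq, h1]
    norm_num
  have hUre : (Uenc C 0 r p 0).re = p := by
    simp [Uenc, Complex.add_re, Complex.mul_re]
  have hUn : ‖Uenc C 0 r p 0‖ ≤ 3 := by
    have hCr : C / r ≤ 5 / 3 := by
      rw [div_le_iff₀ hr0]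
      linarith [hC.2]
    have hCr0 : 0 ≤ C / r := div_nonneg hC.1.le hr0.le
    unfold Uenc
    refine (norm_add_le _ _).trans ?_
    rw [norm_mul, Complex.norm_I, mul_one, Complex.norm_real, Complex.norm_real, Real.norm_eq_abs,
      Real.norm_eq_abs]
    have e1 : (C - ma * mb * 0 ^ 2 * 0) / r = C / r := by ring_nf
    rw [e1, abs_of_nonneg hCr0]
    have : |p| ≤ 1 := abs_le.mpr hp
    linarith
  refine ⟨hrl, hru, by linarith, by linarith, h3, ?_, hnR, ?_, ?_, ?_, ?_⟩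
  · rw [h4, Complex.re_mul_ofReal]
    nlinarith
  · rw [h5, norm_mul, h1, one_mul]
    exact hUn
  · rw [h6]
    have : ((endN i C χ0 τ0 θ X : ℝ) : ℂ) = (θ X : ℂ) + (Complex.arg ρ : ℂ) := by
      rw [← harg]
      simp only [endN]
      push_cast
      rfl
    rw [this, add_mul, Complex.exp_add]
    conv_lhs => rw [hρe]
    ring
  · rw [hnR, h4, h5]
    have : (starRingEnd ℂ) (ρ * (r : ℂ)) * (ρ * Uenc C 0 r p 0) = (r : ℂ) * Uenc C 0 r p 0 := by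
      rw [map_mul, Complex.conj_ofReal]
      linear_combination (r : ℂ) * Uenc C 0 r p 0 * hconj
    rw [this, Complex.re_ofReal_mul, hUre]
    field_simp
  · have hz := p7_zeta i (Zd i (limD C X (χ0 X)) (τ0 X))
    have hz2 : (if i = 0 then x3 (lcSt i (Zd i (limD C X (χ0 X)) (τ0 X))) else
        x2 (lcSt i (Zd i (limD C X (χ0 X)) (τ0 X)))) = ρ * (r : ℝ) := by
      split_ifs
      · exact h7
      · exact h8
    rw [hz2] at hz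
    have := congrArg norm hz
    rw [norm_mul, h1, one_mul, Complex.norm_real, Real.norm_eq_abs, abs_of_pos hr0, norm_pow] at this
    exact this.symm

/-- restriction of a `RegF` map to the base -/
theorem p7_lip_base {B H E : Type*} [PseudoMetricSpace B] [NormedAddCommGroup H]
    [NormedAddCommGroup E] {L ρ : ℝ} {S : B × H → E} {O : Set B} (hρ : 0 ≤ ρ)
    (hS : RegF L S O ρ) : Lip L (fun X => S (X, 0)) O := by
  intro X hX X' hX'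
  have h0 : (0 : H) ∈ Metric.closedBall (0:H) ρ := by
    rw [mem_closedBall_zero_iff, norm_zero]; exact hρ
  have h1 := hS.1 (X, 0) ⟨hX, h0⟩ (X', 0) ⟨hX', h0⟩
  have h2 : dist ((X, 0) : B × H) (X', 0) = dist X X' := by
    rw [Prod.dist_eq, dist_self]
    exact max_eq_left dist_nonneg
  rw [h2] at h1
  exact h1

/-- variation in the fibre -/
theorem p7_fib {B H E : Type*} [PseudoMetricSpace B] [NormedAddCommGroup H]
    [NormedAddCommGroup E] {L ρ : ℝ} {S : B × H → E} {O : Set B} (hρ : 0 ≤ ρ)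
    (hS : RegF L S O ρ) {X : B} (hX : X ∈ O) {η : H} (hη : η ∈ Metric.closedBall (0:H) ρ) :
    ‖S (X, η) - S (X, 0)‖ ≤ L * ‖η‖ := by
  have h0 : (0 : H) ∈ Metric.closedBall (0:H) ρ := by
    rw [mem_closedBall_zero_iff, norm_zero]; exact hρ
  have h1 := hS.1 (X, η) ⟨hX, hη⟩ (X, 0) ⟨hX, h0⟩
  have h2 : dist ((X, η) : B × H) (X, 0) = ‖η‖ := by
    rw [Prod.dist_eq, dist_self, dist_zero_right]
    exact max_eq_right (norm_nonneg _)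
  rw [h2] at h1
  exact h1

theorem p7_reg (i : Fin 2) (C : ℝ) (hC : 0 < C ∧ C ≤ 1) (O : Set (ℝ × ℝ)) (χ0 τ0 : ℝ × ℝ → ℝ)
    (F : ℝ × ℝ → ℝ × ℝ) (θ : ℝ × ℝ → ℝ) (h : ZArc i C O χ0 τ0 F θ)
    (hO : ∀ X ∈ O, X ∈ CD C ∧ F X ∈ CD C) {c' ρ L : ℝ} (hc' : 0 < c') (hρ : 0 < ρ) (hL : 1 ≤ L)
    (hR : RegF L (fun q : Pl × (ℝ × ℝ) => Zd i (limD C q.1 (χ0 q.1 + q.2.1)) (τ0 q.1 + q.2.2)) O ρ)
    (hB : ∀ X ∈ O, ∀ χ, |χ - χ0 X| ≤ ρ → ∀ τ, Zd i (limD C X χ) τ ∈ lcBox c') :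
    ∃ ρ' L' : ℝ, 0 < ρ' ∧ ρ' ≤ ρ ∧ 1 ≤ L' ∧
      RegF L' (S0f i C χ0 τ0 θ) O ρ' ∧
      Lip L' (endN i C χ0 τ0 θ) O ∧ Lip L' (fun X => cR (endSt i C χ0 τ0 X)) O ∧
      Lip L' (fun X => cU (endSt i C χ0 τ0 X)) O ∧
      (∀ X ∈ O, ∀ η ∈ Metric.closedBall (0 : ℝ × ℝ) ρ',
        ‖Zd i (limD C X (χ0 X + η.1)) (τ0 X + η.2)‖ ≤ 1 / c' ∧
        1 / 2 ≤ ‖(Zd i (limD C X (χ0 X + η.1)) (τ0 X + η.2)).1‖ ∧
        1 / 2 ≤ (cW (lcSt i (Zd i (limD C X (χ0 X + η.1)) (τ0 X + η.2))) *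
          Complex.exp (-(endN i C χ0 τ0 θ X : ℂ) * Complex.I)).re) := by
  set Zq : Pl × (ℝ × ℝ) → LCS :=
    fun q => Zd i (limD C q.1 (χ0 q.1 + q.2.1)) (τ0 q.1 + q.2.2) with hZq
  have hZ0 : ∀ X, Zq (X, 0) = Zd i (limD C X (χ0 X)) (τ0 X) := by
    intro X
    show Zd i (limD C X (χ0 X + 0)) (τ0 X + 0) = _
    rw [add_zero, add_zero]
  have hE0 : ∀ X, lcSt i (Zq (X, 0)) = endSt i C χ0 τ0 X := fun X => by
    rw [hZ0]; rfl
  have hL0 : 0 < L := by linarith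
  -- first radius
  set ρ2 := min ρ (1 / (4 * L)) with hρ2
  have hρ2p : 0 < ρ2 := lt_min hρ (by positivity)
  have hρ2l : ρ2 ≤ ρ := min_le_left _ _
  have hρ2L : L * ρ2 ≤ 1 / 4 := by
    calc L * ρ2 ≤ L * (1 / (4 * L)) := mul_le_mul_of_nonneg_left (min_le_right _ _) hL0.le
      _ = 1 / 4 := by field_simp
  have hR2 := regF_mono hR le_rfl hρ2l
  have hbd : ∀ X ∈ O, ∀ η ∈ Metric.closedBall (0 : ℝ × ℝ) ρ2,
      ‖Zq (X, η)‖ ≤ 1 / c' ∧ 1 / 2 ≤ ‖(Zq (X, η)).1‖ := by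
    intro X hX η hη
    have h1 := p7_fib hρ2p.le hR2 hX hη
    rw [mem_closedBall_zero_iff] at hη
    have h2 : L * ‖η‖ ≤ 1 / 4 := (mul_le_mul_of_nonneg_left hη hL0.le).trans hρ2L
    refine ⟨(hB X hX _ ?_ _).1, ?_⟩
    · rw [show χ0 X + η.1 - χ0 X = η.1 by ring]
      exact ((norm_fst_le η).trans hη).trans hρ2l
    · have h3 : ‖(Zq (X, 0)).1‖ ^ 2 = (chart C (F X)).1 := by
        rw [hZ0]
        exact (p7_base hC h hO hX).2.2.2.2.2.2.2.2.2.2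
      have h4 := (p7_base hC h hO hX).1
      have h5 : 3 / 4 ≤ ‖(Zq (X, 0)).1‖ := by
        have := norm_nonneg (Zq (X, 0)).1
        nlinarith
      have h6 : ‖(Zq (X, η)).1 - (Zq (X, 0)).1‖ ≤ 1 / 4 :=
        (norm_fst_le (Zq (X, η) - Zq (X, 0))).trans (h1.trans h2)
      have h7 : ‖(Zq (X, 0)).1‖ ≤ ‖(Zq (X, η)).1‖ + ‖(Zq (X, η)).1 - (Zq (X, 0)).1‖ := by
        have := norm_sub_norm_le (Zq (X, 0)).1 (Zq (X, η)).1
        rw [norm_sub_rev] at this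
        linarith
      linarith
  -- collision coordinates
  have hc2 : 0 < min c' (1 / 2) := lt_min hc' (by norm_num)
  obtain ⟨L3, hL3, hcc⟩ := cc4_reg i (min c' (1 / 2)) hc2
  have hR4 : RegF (L3 * (L + 3 * L ^ 2)) (fun q => cc4 (lcSt i (Zq q))) O ρ2 := by
    refine regF_comp (K := fun Z => cc4 (lcSt i Z)) hR2 hcc ?_ hL0.le hL3
    intro X hX η hη
    obtain ⟨h1, h2⟩ := hbd X hX η hη
    exact ⟨h1.trans (one_div_le_one_div_of_le hc2 (min_le_left _ _)), (min_le_right _ _).trans h2⟩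
  set L4 := L3 * (L + 3 * L ^ 2) with hL4
  have hL40 : 0 ≤ L4 := by positivity
  have hX4 : RegF L4 (fun q => cX (lcSt i (Zq q))) O ρ2 := p7_fst hR4
  have hR4' : RegF L4 (fun q => cR (lcSt i (Zq q))) O ρ2 := p7_fst (p7_snd hR4)
  have hU4 : RegF L4 (fun q => cU (lcSt i (Zq q))) O ρ2 := p7_fst (p7_snd (p7_snd hR4))
  have hW4 : RegF L4 (fun q => cW (lcSt i (Zq q))) O ρ2 := p7_snd (p7_snd (p7_snd hR4))
  have hcRl : Lip L4 (fun X => cR (endSt i C χ0 τ0 X)) O := by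
    have := p7_lip_base hρ2p.le hR4'
    simpa only [hE0] using this
  have hcUl : Lip L4 (fun X => cU (endSt i C χ0 τ0 X)) O := by
    have := p7_lip_base hρ2p.le hU4
    simpa only [hE0] using this
  -- the angle
  obtain ⟨L5, hL5, hpol⟩ := pol_reg (3 / 10) (by norm_num)
  obtain ⟨L6, hL6, hpol2⟩ := pol_reg (1 / 2) (by norm_num)
  obtain ⟨L0, -, -, -, hθ⟩ := h.lip
  have hθ' := p7_lip_mono hθ (le_max_left L0 0)
  have hNl : Lip (max L0 0 + L5 * L4) (endN i C χ0 τ0 θ) O := by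
    intro X hX X' hX'
    have hmem : ∀ X ∈ O, ((0:ℝ), cR (endSt i C χ0 τ0 X)) ∈
        {p : ℝ × ℂ | 3 / 10 ≤ (p.2 * Complex.exp (-(p.1 : ℂ) * Complex.I)).re ∧
          ‖p.2‖ ≤ 1 / (3 / 10)} := by
      intro X hX
      obtain ⟨-, b2, -, -, -, b6, b7, -⟩ := p7_base hC h hO hX
      constructor
      · show 3 / 10 ≤ (cR (endSt i C χ0 τ0 X) * Complex.exp (-((0:ℝ) : ℂ) * Complex.I)).re
        rw [Complex.ofReal_zero, neg_zero, zero_mul, Complex.exp_zero, mul_one]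
        exact b6
      · show ‖cR (endSt i C χ0 τ0 X)‖ ≤ _
        rw [b7]
        linarith
    have h1 := hpol.1 _ (hmem X hX) _ (hmem X' hX')
    have h2 : dist ((0:ℝ), cR (endSt i C χ0 τ0 X)) ((0:ℝ), cR (endSt i C χ0 τ0 X')) =
        ‖cR (endSt i C χ0 τ0 X) - cR (endSt i C χ0 τ0 X')‖ := by
      rw [Prod.dist_eq, dist_self, ← dist_eq_norm]
      exact max_eq_right dist_nonneg
    have h3 : ‖Complex.arg (cR (endSt i C χ0 τ0 X)) - Complex.arg (cR (endSt i C χ0 τ0 X'))‖ ≤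
        L5 * ‖cR (endSt i C χ0 τ0 X) - cR (endSt i C χ0 τ0 X')‖ := by
      rw [h2] at h1
      have h4 := (norm_snd_le _).trans h1
      simpa [pol] using h4
    have h4 := hcRl X hX X' hX'
    have h5 := hθ' X hX X' hX'
    have h6 := mul_le_mul_of_nonneg_left h4 hL5
    calc ‖endN i C χ0 τ0 θ X - endN i C χ0 τ0 θ X'‖ = ‖(θ X - θ X') +
          (Complex.arg (cR (endSt i C χ0 τ0 X)) - Complex.arg (cR (endSt i C χ0 τ0 X')))‖ := by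
          congr 1
          simp only [endN]
          ring
      _ ≤ ‖θ X - θ X'‖ +
          ‖Complex.arg (cR (endSt i C χ0 τ0 X)) - Complex.arg (cR (endSt i C χ0 τ0 X'))‖ :=
          norm_add_le _ _
      _ ≤ (max L0 0 + L5 * L4) * dist X X' := by
          simp only [] at h6
          linarith [h6]
  set L7 := max L0 0 + L5 * L4 with hL7
  have hL70 : 0 ≤ L7 := by positivity
  -- second radius
  set L8 := max L4 L7 with hL8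
  have hL80 : 0 ≤ L8 := hL40.trans (le_max_left _ _)
  set ρ3 := min ρ2 (1 / (4 * (L4 + 1))) with hρ3
  have hρ3p : 0 < ρ3 := lt_min hρ2p (by positivity)
  have hρ3l : ρ3 ≤ ρ2 := min_le_left _ _
  have hρ3L : L4 * ρ3 ≤ 1 / 4 := by
    calc L4 * ρ3 ≤ (L4 + 1) * (1 / (4 * (L4 + 1))) :=
          mul_le_mul (by linarith) (min_le_right _ _) hρ3p.le (by linarith)
      _ = 1 / 4 := by field_simp
  have hNW : RegF L8 (fun q : Pl × (ℝ × ℝ) => (endN i C χ0 τ0 θ q.1, cW (lcSt i (Zq q)))) O ρ3 :=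
    regF_prod (regF_mono (regF_base (ρ := ρ3) hL70 hNl) (le_max_right _ _) le_rfl)
      (regF_mono hW4 (le_max_left _ _) hρ3l)
  have hWre : ∀ X ∈ O, ∀ η ∈ Metric.closedBall (0 : ℝ × ℝ) ρ3,
      1 / 2 ≤ (cW (lcSt i (Zq (X, η))) *
          Complex.exp (-(endN i C χ0 τ0 θ X : ℂ) * Complex.I)).re ∧
      ‖cW (lcSt i (Zq (X, η)))‖ ≤ 1 / (1 / 2) := by
    intro X hX η hη
    obtain ⟨-, -, b3, b4, -, -, -, -, b9, -⟩ := p7_base hC h hO hX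
    have h1 := p7_fib hρ3p.le (regF_mono hW4 le_rfl hρ3l) hX hη
    simp only [hE0] at h1
    rw [mem_closedBall_zero_iff] at hη
    have h2 : ‖cW (lcSt i (Zq (X, η))) - cW (endSt i C χ0 τ0 X)‖ ≤ 1 / 4 :=
      h1.trans ((mul_le_mul_of_nonneg_left hη hL40).trans hρ3L)
    set κ := kap0 C (chart C (F X)) with hκ
    set N := endN i C χ0 τ0 θ X with hN
    have he : ‖Complex.exp (-(N : ℂ) * Complex.I)‖ = 1 := by
      rw [← Complex.ofReal_neg]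
      exact Complex.norm_exp_ofReal_mul_I _
    have h3 : cW (lcSt i (Zq (X, η))) * Complex.exp (-(N : ℂ) * Complex.I) =
        (κ : ℂ) + (cW (lcSt i (Zq (X, η))) - cW (endSt i C χ0 τ0 X)) *
          Complex.exp (-(N : ℂ) * Complex.I) := by
      rw [b9]
      have : Complex.exp ((N : ℂ) * Complex.I) * Complex.exp (-(N : ℂ) * Complex.I) = 1 := by
        rw [← Complex.exp_add]
        simp
      linear_combination (κ : ℂ) * this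
    constructor
    · rw [h3, Complex.add_re, Complex.ofReal_re]
      have h4 := Complex.abs_re_le_norm ((cW (lcSt i (Zq (X, η))) - cW (endSt i C χ0 τ0 X)) *
          Complex.exp (-(N : ℂ) * Complex.I))
      rw [norm_mul, he, mul_one] at h4
      have h5 := (abs_le.mp (h4.trans h2)).1
      linarith
    · have h4 : ‖cW (endSt i C χ0 τ0 X)‖ = κ := by
        rw [b9, norm_mul, Complex.norm_exp_ofReal_mul_I, mul_one, Complex.norm_real,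
          Real.norm_eq_abs, abs_of_nonneg (by linarith)]
      have h5 := norm_sub_norm_le (cW (lcSt i (Zq (X, η)))) (cW (endSt i C χ0 τ0 X))
      rw [h4] at h5
      norm_num
      linarith
  have hP : RegF (L6 * (L8 + 3 * L8 ^ 2))
      (fun q : Pl × (ℝ × ℝ) => pol (endN i C χ0 τ0 θ q.1) (cW (lcSt i (Zq q)))) O ρ3 := by
    refine regF_comp (K := fun p : ℝ × ℂ => pol p.1 p.2) hNW hpol2 ?_ hL80 hL6
    intro X hX η hη
    exact hWre X hX η hη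
  set L9 := L6 * (L8 + 3 * L8 ^ 2) with hL9
  have hL90 : 0 ≤ L9 := by positivity
  set L' := max (max L8 L9) 1 with hL'
  have e8 : L8 ≤ L' := (le_max_left _ _).trans (le_max_left _ _)
  have e9 : L9 ≤ L' := (le_max_right _ _).trans (le_max_left _ _)
  have e4 : L4 ≤ L' := (le_max_left _ _).trans e8
  have e7 : L7 ≤ L' := (le_max_right _ _).trans e8
  refine ⟨ρ3, L', hρ3p, hρ3l.trans hρ2l, le_max_right _ _, ?_, p7_lip_mono hNl e7,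
    p7_lip_mono hcRl e4, p7_lip_mono hcUl e4, ?_⟩
  · exact regF_prod (regF_mono hX4 e4 hρ3l) (regF_prod (regF_mono hR4' e4 hρ3l)
      (regF_prod (regF_mono hU4 e4 hρ3l) (regF_mono hP e9 le_rfl)))
  · intro X hX η hη
    have hη2 : η ∈ Metric.closedBall (0 : ℝ × ℝ) ρ2 := Metric.closedBall_subset_closedBall hρ3l hη
    exact ⟨(hbd X hX η hη2).1, (hbd X hX η hη2).2, (hWre X hX η hη).1⟩

theorem p7_sg (i : Fin 2) : sg i * sg i = 1 := by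
  unfold sg
  split_ifs <;> norm_num

theorem p7_sgabs (i : Fin 2) : |sg i| = 1 := by
  unfold sg
  split_ifs <;> norm_num

theorem p7_nondeg {i : Fin 2} {C : ℝ} {O : Set (ℝ × ℝ)} {χ0 τ0 : ℝ × ℝ → ℝ}
    {F : ℝ × ℝ → ℝ × ℝ} {θ : ℝ × ℝ → ℝ} (h : ZArc i C O χ0 τ0 F θ) :
    ∃ c ρ L : ℝ, 0 < c ∧ 0 < ρ ∧ 0 ≤ L ∧ ∀ X ∈ O, ∃ e₁ e₂ : ℂ,
      c ≤ |((starRingEnd ℂ) e₁ * e₂).im| ∧ ‖e₁‖ ≤ L ∧ ‖e₂‖ ≤ L ∧
        ∀ η ∈ Metric.closedBall (0 : ℝ × ℝ) ρ,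
          ‖(S0f i C χ0 τ0 θ (X, η)).1 - (e₁ * (η.1 : ℝ) + e₂ * (η.2 : ℝ))‖ ≤
            L * (|η.1| + |η.2|) ^ 2 := by
  obtain ⟨c, L, ρ, hc, hρ, hX⟩ := h.nondeg
  refine ⟨c, ρ, max L 0, hc, hρ, le_max_right _ _, fun X hXO => ?_⟩
  obtain ⟨e1, e2, h1, h2, h3, h4⟩ := hX X hXO
  refine ⟨(sg i : ℝ) * e1, (sg i : ℝ) * e2, ?_, ?_, ?_, ?_⟩
  · have : (starRingEnd ℂ) ((sg i : ℝ) * e1) * ((sg i : ℝ) * e2) = (starRingEnd ℂ) e1 * e2 := by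
      rw [map_mul, Complex.conj_ofReal]
      have h5 : ((sg i : ℝ) : ℂ) * ((sg i : ℝ) : ℂ) = 1 := by
        rw [← Complex.ofReal_mul, p7_sg, Complex.ofReal_one]
      linear_combination (starRingEnd ℂ) e1 * e2 * h5
    rw [this]
    exact h1
  · rw [norm_mul, Complex.norm_real, Real.norm_eq_abs, p7_sgabs, one_mul]
    exact h2.trans (le_max_left _ _)
  · rw [norm_mul, Complex.norm_real, Real.norm_eq_abs, p7_sgabs, one_mul]
    exact h3.trans (le_max_left _ _)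
  · intro η hη
    rw [mem_closedBall_zero_iff] at hη
    have h5 : |η.1| ≤ ρ := (norm_fst_le η).trans hη
    have h6 : |η.2| ≤ ρ := (norm_snd_le η).trans hη
    have h7 := h4 (χ0 X + η.1) (τ0 X + η.2) (by rw [add_sub_cancel_left]; exact h5)
      (by rw [add_sub_cancel_left]; exact h6)
    rw [add_sub_cancel_left, add_sub_cancel_left] at h7
    have h8 : (S0f i C χ0 τ0 θ (X, η)).1 =
        (sg i : ℝ) * lcX (Zd i (limD C X (χ0 X + η.1)) (τ0 X + η.2)) := by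
      rw [lcX_eq, ← mul_assoc, ← Complex.ofReal_mul, p7_sg, Complex.ofReal_one, one_mul]
      rfl
    have h9 : (S0f i C χ0 τ0 θ (X, η)).1 -
        ((sg i : ℝ) * e1 * (η.1 : ℝ) + (sg i : ℝ) * e2 * (η.2 : ℝ)) =
        (sg i : ℝ) * (lcX (Zd i (limD C X (χ0 X + η.1)) (τ0 X + η.2)) -
          (e1 * (η.1 : ℝ) + e2 * (η.2 : ℝ))) := by
      rw [h8]
      ring
    rw [h9, norm_mul, Complex.norm_real, Real.norm_eq_abs, p7_sgabs, one_mul]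
    exact h7.trans (mul_le_mul_of_nonneg_right (le_max_left _ _) (sq_nonneg _))

theorem p7_free {i : Fin 2} {C : ℝ} {O : Set (ℝ × ℝ)} {χ0 τ0 : ℝ × ℝ → ℝ}
    {F : ℝ × ℝ → ℝ × ℝ} {θ : ℝ × ℝ → ℝ} (h : ZArc i C O χ0 τ0 F θ) {L T : ℝ} (hL : 1 ≤ L)
    (hT : ∀ X ∈ O, τ0 X ≤ T)
    (hl : ∀ X ∈ O, ∀ X' ∈ O, ∀ τ ∈ Icc 0 T, ∀ τ' ∈ Icc 0 T,
        ‖Zd i (limD C X (χ0 X)) τ - Zd i (limD C X' (χ0 X')) τ'‖ ≤
          L * (dist X X' + |τ - τ'|)) :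
    ∀ τs, 0 < τs → ∃ cs, 0 < cs ∧ ∀ X ∈ O, ∀ τ ∈ Icc τs (τ0 X - τs),
        cs ≤ ‖lcX (Zd i (limD C X (χ0 X)) τ)‖ := by
  intro τs hτs
  obtain ⟨L0, -, hτ, -, -⟩ := h.lip
  have hτc : ContinuousOn τ0 O := by
    have hτ' := p7_lip_mono hτ (le_max_left L0 1)
    have h1 : (1:ℝ) ≤ max L0 1 := le_max_right _ _
    rw [Metric.continuousOn_iff]
    intro b hb ε hε
    refine ⟨ε / max L0 1, by positivity, fun a ha hab => ?_⟩
    rw [dist_eq_norm]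
    refine (hτ' a ha b hb).trans_lt ?_
    rw [lt_div_iff₀ (by linarith)] at hab
    linarith
  have hO : IsCompact O := h.compact
  have hOc : IsCompact (O ×ˢ Icc τs T) := hO.prod isCompact_Icc
  have hf : ContinuousOn (fun p : Pl × ℝ => τ0 p.1 - τs - p.2) (O ×ˢ Icc τs T) := by
    refine ContinuousOn.sub (ContinuousOn.sub ?_ continuousOn_const) continuousOn_snd
    exact hτc.comp continuousOn_fst (fun p hp => hp.1)
  have hcl := hf.preimage_isClosed_of_isClosed hOc.isClosed isClosed_Ici (t := Ici (0:ℝ))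
  set K := (O ×ˢ Icc τs T) ∩ (fun p : Pl × ℝ => τ0 p.1 - τs - p.2) ⁻¹' Ici (0:ℝ) with hK
  have hKc : IsCompact K := hOc.of_isClosed_subset hcl inter_subset_left
  have hg : ContinuousOn (fun p : Pl × ℝ => ‖lcX (Zd i (limD C p.1 (χ0 p.1)) p.2)‖) K := by
    have h1 : ContinuousOn (fun p : Pl × ℝ => Zd i (limD C p.1 (χ0 p.1)) p.2) K := by
      rw [Metric.continuousOn_iff]
      intro b hb ε hε
      refine ⟨ε / (2 * L), by positivity, fun a ha hab => ?_⟩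
      have h2 := hl a.1 ha.1.1 b.1 hb.1.1 a.2 ⟨hτs.le.trans ha.1.2.1, ha.1.2.2⟩ b.2
        ⟨hτs.le.trans hb.1.2.1, hb.1.2.2⟩
      have h3 : dist a.1 b.1 ≤ dist a b := by
        rw [Prod.dist_eq]; exact le_max_left _ _
      have h4 : |a.2 - b.2| ≤ dist a b := by
        rw [Prod.dist_eq, ← Real.dist_eq]; exact le_max_right _ _
      rw [dist_eq_norm]
      refine h2.trans_lt ?_
      rw [lt_div_iff₀ (by linarith)] at hab
      nlinarith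
    have h2 : Continuous lcX := by
      unfold lcX
      fun_prop
    exact (h2.comp_continuousOn h1).norm
  rcases K.eq_empty_or_nonempty with he | hne
  · refine ⟨1, one_pos, fun X hX τ hτ1 => ?_⟩
    exfalso
    have : (X, τ) ∈ K := by
      refine ⟨⟨hX, hτ1.1, ?_⟩, ?_⟩
      · show τ ≤ T
        have := hT X hX
        linarith [hτ1.2]
      · show 0 ≤ τ0 X - τs - τ
        linarith [hτ1.2]
    rw [he] at this
    exact this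
  · obtain ⟨p, hp, hmin⟩ := hKc.exists_isMinOn hne hg
    refine ⟨‖lcX (Zd i (limD C p.1 (χ0 p.1)) p.2)‖, ?_, fun X hX τ hτ1 => ?_⟩
    · rw [norm_pos_iff]
      have h1 : 0 ≤ τ0 p.1 - τs - p.2 := hp.2
      have h2 : τs ≤ p.2 := hp.1.2.1
      exact h.free p.1 hp.1.1 p.2 ⟨by linarith, by linarith⟩
    · have : (X, τ) ∈ K := by
        refine ⟨⟨hX, hτ1.1, ?_⟩, ?_⟩
        · show τ ≤ T
          have := hT X hX
          linarith [hτ1.2]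
        · show 0 ≤ τ0 X - τs - τ
          linarith [hτ1.2]
      exact isMinOn_iff.mp hmin (X, τ) this

theorem arc_S0_pr (i : Fin 2) (C : ℝ) (hC : 0 < C ∧ C ≤ 1) (O : Set (ℝ × ℝ)) (χ0 τ0 : ℝ × ℝ → ℝ)
    (F : ℝ × ℝ → ℝ × ℝ) (θ : ℝ × ℝ → ℝ) (h : ZArc i C O χ0 τ0 F θ)
    (hO : ∀ X ∈ O, X ∈ CD C ∧ F X ∈ CD C) :
    ∃ c ρ L : ℝ, 0 < c ∧ 0 < ρ ∧ 1 ≤ L ∧
      RegF L (fun q : Pl × (ℝ × ℝ) => Zd i (limD C q.1 (χ0 q.1 + q.2.1)) (τ0 q.1 + q.2.2)) O ρ ∧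
      RegF L (S0f i C χ0 τ0 θ) O ρ ∧
      Lip L (endN i C χ0 τ0 θ) O ∧ Lip L (fun X => cR (endSt i C χ0 τ0 X)) O ∧
      Lip L (fun X => cU (endSt i C χ0 τ0 X)) O ∧
      (∀ X ∈ O, S0f i C χ0 τ0 θ (X, 0) = (0, cR (endSt i C χ0 τ0 X), cU (endSt i C χ0 τ0 X),
          kap0 C (chart C (F X)), endN i C χ0 τ0 θ X)) ∧
      (∀ X ∈ O, (S0f i C χ0 τ0 θ (X, 0)).2 ∈ DD c) ∧
      (∀ X ∈ O, (chart C (F X)).1 = ‖cR (endSt i C χ0 τ0 X)‖ ∧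
        (chart C (F X)).2 = ((starRingEnd ℂ) (cR (endSt i C χ0 τ0 X)) *
          cU (endSt i C χ0 τ0 X)).re / ‖cR (endSt i C χ0 τ0 X)‖) ∧
      (∀ X ∈ O, ∀ η ∈ Metric.closedBall (0 : ℝ × ℝ) ρ,
        ‖Zd i (limD C X (χ0 X + η.1)) (τ0 X + η.2)‖ ≤ 1 / c ∧
        c ≤ ‖(Zd i (limD C X (χ0 X + η.1)) (τ0 X + η.2)).1‖ ∧
        c ≤ (cW (lcSt i (Zd i (limD C X (χ0 X + η.1)) (τ0 X + η.2))) *
          Complex.exp (-(endN i C χ0 τ0 θ X : ℂ) * Complex.I)).re) ∧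
      (∀ X ∈ O, ∃ e₁ e₂ : ℂ, c ≤ |((starRingEnd ℂ) e₁ * e₂).im| ∧ ‖e₁‖ ≤ L ∧ ‖e₂‖ ≤ L ∧
        ∀ η ∈ Metric.closedBall (0 : ℝ × ℝ) ρ,
          ‖(S0f i C χ0 τ0 θ (X, η)).1 - (e₁ * (η.1 : ℝ) + e₂ * (η.2 : ℝ))‖ ≤
            L * (|η.1| + |η.2|) ^ 2) ∧
      (∀ τs, 0 < τs → ∃ cs, 0 < cs ∧ ∀ X ∈ O, ∀ τ ∈ Icc τs (τ0 X - τs),
        cs ≤ ‖lcX (Zd i (limD C X (χ0 X)) τ)‖) := by
  obtain ⟨c', ρ1, L1, T, hc', hρ1, hL1, hT, hτT, hR, hB, hl⟩ := p7_zd i C hC O χ0 τ0 F θ h hO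
  obtain ⟨ρ2, L2, hρ2, hρ21, hL2, hS, hN, hcR, hcU, hbd⟩ :=
    p7_reg i C hC O χ0 τ0 F θ h hO hc' hρ1 hL1 hR hB
  obtain ⟨c3, ρ3, L3, hc3, hρ3, hL3, hnd⟩ := p7_nondeg h
  have hfree := p7_free h hL1 (T := T) (fun X hX => by linarith [(hτT X hX).2]) hl
  set c := min (min c' c3) (3 / 10) with hc
  have hcp : 0 < c := lt_min (lt_min hc' hc3) (by norm_num)
  have hc1 : c ≤ c' := (min_le_left _ _).trans (min_le_left _ _)
  have hc2 : c ≤ c3 := (min_le_left _ _).trans (min_le_right _ _)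
  have hc4 : c ≤ 3 / 10 := min_le_right _ _
  have hcinv : 10 / 3 ≤ 1 / c := by
    rw [le_div_iff₀ hcp]
    linarith
  set ρ := min ρ2 ρ3 with hρ
  have hρp : 0 < ρ := lt_min hρ2 hρ3
  have hρa : ρ ≤ ρ2 := min_le_left _ _
  have hρb : ρ ≤ ρ3 := min_le_right _ _
  set L := max (max L1 L2) L3 with hL
  have e1 : L1 ≤ L := (le_max_left _ _).trans (le_max_left _ _)
  have e2 : L2 ≤ L := (le_max_right _ _).trans (le_max_left _ _)
  have e3 : L3 ≤ L := le_max_right _ _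
  have hend : ∀ X, lcSt i (Zd i (limD C X (χ0 X + 0)) (τ0 X + 0)) = endSt i C χ0 τ0 X := by
    intro X
    rw [add_zero, add_zero]
    rfl
  have hS0 : ∀ X ∈ O, S0f i C χ0 τ0 θ (X, 0) = (0, cR (endSt i C χ0 τ0 X),
      cU (endSt i C χ0 τ0 X), kap0 C (chart C (F X)), endN i C χ0 τ0 θ X) := by
    intro X hX
    obtain ⟨-, -, b3, -, b5, -, -, -, b9, -⟩ := p7_base hC h hO hX
    have h1 : S0f i C χ0 τ0 θ (X, 0) = (cX (endSt i C χ0 τ0 X), cR (endSt i C χ0 τ0 X),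
        cU (endSt i C χ0 τ0 X), pol (endN i C χ0 τ0 θ X) (cW (endSt i C χ0 τ0 X))) := by
      show cc5 _ (lcSt i (Zd i (limD C X (χ0 X + 0)) (τ0 X + 0))) = _
      rw [hend]
      rfl
    rw [h1, b5, b9, pol_eq _ _ _ (by linarith) (by rw [sub_self, abs_zero]; exact Real.pi_pos)]
  refine ⟨c, ρ, L, hcp, hρp, hL1.trans e1, regF_mono hR e1 (hρa.trans hρ21),
    regF_mono hS e2 hρa, p7_lip_mono hN e2, p7_lip_mono hcR e2, p7_lip_mono hcU e2, hS0, ?_, ?_, ?_,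
    ?_, hfree⟩
  · intro X hX
    rw [hS0 X hX]
    obtain ⟨b1, b2, b3, b4, -, b6, b7, b8, -⟩ := p7_base hC h hO hX
    refine ⟨hc4.trans b6, ?_, ?_, ?_, ?_⟩
    · show ‖cR (endSt i C χ0 τ0 X)‖ ≤ 1 / c
      rw [b7]
      linarith
    · show ‖cU (endSt i C χ0 τ0 X)‖ ≤ 1 / c
      linarith
    · show c ≤ kap0 C (chart C (F X))
      linarith
    · show kap0 C (chart C (F X)) ≤ 1 / c
      linarith
  · intro X hX
    obtain ⟨-, -, -, -, -, -, b7, -, -, b10, -⟩ := p7_base hC h hO hX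
    exact ⟨b7.symm, b10⟩
  · intro X hX η hη
    obtain ⟨h1, h2, h3⟩ := hbd X hX η (Metric.closedBall_subset_closedBall hρa hη)
    exact ⟨h1.trans (one_div_le_one_div_of_le hcp hc1), by linarith, by linarith⟩
  · intro X hX
    obtain ⟨a1, a2, h1, h2, h3, h4⟩ := hnd X hX
    refine ⟨a1, a2, hc2.trans h1, h2.trans e3, h3.trans e3, fun η hη => ?_⟩
    exact (h4 η (Metric.closedBall_subset_closedBall hρb hη)).trans
      (mul_le_mul_of_nonneg_right e3 (sq_nonneg _))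

end

end Pool.Agent.HS

namespace Pool.Agent.HS
open Set Filter Topology Classical

theorem arc_S0 (i : Fin 2) (C : ℝ) (hC : 0 < C ∧ C ≤ 1) (O : Set (ℝ × ℝ)) (χ0 τ0 : ℝ × ℝ → ℝ)
    (F : ℝ × ℝ → ℝ × ℝ) (θ : ℝ × ℝ → ℝ) (h : ZArc i C O χ0 τ0 F θ)
    (hO : ∀ X ∈ O, X ∈ CD C ∧ F X ∈ CD C) :
    ∃ c ρ L : ℝ, 0 < c ∧ 0 < ρ ∧ 1 ≤ L ∧
      RegF L (fun q : Pl × (ℝ × ℝ) => Zd i (limD C q.1 (χ0 q.1 + q.2.1)) (τ0 q.1 + q.2.2)) O ρ ∧
      RegF L (S0f i C χ0 τ0 θ) O ρ ∧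
      Lip L (endN i C χ0 τ0 θ) O ∧ Lip L (fun X => cR (endSt i C χ0 τ0 X)) O ∧
      Lip L (fun X => cU (endSt i C χ0 τ0 X)) O ∧
      (∀ X ∈ O, S0f i C χ0 τ0 θ (X, 0) = (0, cR (endSt i C χ0 τ0 X), cU (endSt i C χ0 τ0 X),
          kap0 C (chart C (F X)), endN i C χ0 τ0 θ X)) ∧
      (∀ X ∈ O, (S0f i C χ0 τ0 θ (X, 0)).2 ∈ DD c) ∧
      (∀ X ∈ O, (chart C (F X)).1 = ‖cR (endSt i C χ0 τ0 X)‖ ∧
        (chart C (F X)).2 = ((starRingEnd ℂ) (cR (endSt i C χ0 τ0 X)) *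
          cU (endSt i C χ0 τ0 X)).re / ‖cR (endSt i C χ0 τ0 X)‖) ∧
      (∀ X ∈ O, ∀ η ∈ Metric.closedBall (0 : ℝ × ℝ) ρ,
        ‖Zd i (limD C X (χ0 X + η.1)) (τ0 X + η.2)‖ ≤ 1 / c ∧
        c ≤ ‖(Zd i (limD C X (χ0 X + η.1)) (τ0 X + η.2)).1‖ ∧
        c ≤ (cW (lcSt i (Zd i (limD C X (χ0 X + η.1)) (τ0 X + η.2))) *
          Complex.exp (-(endN i C χ0 τ0 θ X : ℂ) * Complex.I)).re) ∧
      (∀ X ∈ O, ∃ e₁ e₂ : ℂ, c ≤ |((starRingEnd ℂ) e₁ * e₂).im| ∧ ‖e₁‖ ≤ L ∧ ‖e₂‖ ≤ L ∧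
        ∀ η ∈ Metric.closedBall (0 : ℝ × ℝ) ρ,
          ‖(S0f i C χ0 τ0 θ (X, η)).1 - (e₁ * (η.1 : ℝ) + e₂ * (η.2 : ℝ))‖ ≤
            L * (|η.1| + |η.2|) ^ 2) ∧
      (∀ τs, 0 < τs → ∃ cs, 0 < cs ∧ ∀ X ∈ O, ∀ τ ∈ Icc τs (τ0 X - τs),
        cs ≤ ‖lcX (Zd i (limD C X (χ0 X)) τ)‖) :=
  @Pool.Agent.HS.arc_S0_pr i C hC O χ0 τ0 F θ h hO

end Pool.Agent.HS
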