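import Pool.Agent.Lib_helper60.HSF.D_WJ
import Pool.Agent.Lib_helper60.HSF.A_CA
import Pool.Agent.Lib_helper60.HSF.IO_O4
import Pool.Agent.Lib_helper60.HSF.IO_C4

/-! ## Block P9: `cc5_near` -/

namespace Pool.Agent.HS

noncomputable section

open Set Filter Topology Classical

theorem p9_cW (i : Fin 2) {c : ℝ} (hc : 0 < c) {Z : LCS} (h1 : ‖Z‖ ≤ 1 / c) (h2 : c ≤ ‖Z.1‖) :
    ‖cW (lcSt i Z)‖ ≤ 1 / (2 * c ^ 2) + 1 / c := by
  have a1 : ‖Z.2.1‖ ≤ 1 / c := (norm_fst_le Z.2).trans ((norm_snd_le Z).trans h1)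
  have a2 : ‖Z.2.2.2.1‖ ≤ 1 / c :=
    (norm_fst_le Z.2.2.2).trans ((norm_snd_le Z.2.2).trans ((norm_snd_le Z.2).trans
      ((norm_snd_le Z).trans h1)))
  have hp : 0 < ‖Z.1‖ := lt_of_lt_of_le hc h2
  have a3 : ‖Z.2.1 / (2 * (starRingEnd ℂ) Z.1)‖ ≤ 1 / (2 * c ^ 2) := by
    rw [norm_div, norm_mul, Complex.norm_conj, Complex.norm_ofNat]
    have e : 1 / (2 * c ^ 2) = (1 / c) / (2 * c) := by field_simp
    rw [e]
    exact div_le_div₀ (by positivity) a1 (by positivity) (by linarith)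
  unfold cW lcSt u3 u2
  by_cases hi : i = 0
  · simp only [hi, if_true]
    refine (norm_sub_le _ _).trans ?_
    linarith
  · simp only [hi, if_false]
    refine (norm_sub_le _ _).trans ?_
    linarith

theorem p9_self {α E : Type*} [PseudoMetricSpace α] [NormedAddCommGroup E] {ε : ℝ} (hε : 0 ≤ ε)
    (f : α → E) (S : Set α) : Near ε f f S := by
  refine ⟨fun p _ => ?_, fun p _ q _ => ?_⟩
  · rw [sub_self, norm_zero]; exact hε
  · rw [sub_self, sub_self, sub_self, norm_zero]; positivity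

theorem cc5_near_pr (i : Fin 2) (c Λ : ℝ) (hc : 0 < c) (hΛ : 1 ≤ Λ) :
    ∃ L εs : ℝ, 1 ≤ L ∧ 0 < εs ∧
    ∀ {α : Type} [PseudoMetricSpace α] (S : Set α) (N : α → ℝ) (W Z : α → LCS) (ε : ℝ),
      0 ≤ ε → ε ≤ εs → Lip Λ N S → Lip Λ Z S → Near ε W Z S →
      (∀ p ∈ S, ‖Z p‖ ≤ 1 / c ∧ c ≤ ‖(Z p).1‖ ∧
        c ≤ (cW (lcSt i (Z p)) * Complex.exp (-(N p : ℂ) * Complex.I)).re) →
      Near (L * ε) (fun p => cc5 (N p) (lcSt i (W p))) (fun p => cc5 (N p) (lcSt i (Z p))) S := by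
  have hc2 : 0 < c / 2 := by linarith
  obtain ⟨L₁, hL₁, hR₁⟩ := cc4_reg i (c / 2) hc2
  set B : ℝ := 1 / (2 * c ^ 2) + 1 / c + 1 with hB
  have hB0 : 0 < B := by positivity
  set c₂ : ℝ := min (c / 2) (1 / B) with hc₂
  have hc₂0 : 0 < c₂ := lt_min hc2 (by positivity)
  have hc₂B : B ≤ 1 / c₂ := by
    rw [le_div_iff₀ hc₂0]
    have : c₂ ≤ 1 / B := min_le_right _ _
    rw [le_div_iff₀ hB0] at this
    linarith
  obtain ⟨L₂, hL₂, hR₂⟩ := pol_reg c₂ hc₂0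
  set A : ℝ := L₁ * (1 + 2 * (Λ + 1)) with hA
  have hA0 : 0 ≤ A := by positivity
  set Λ₂ : ℝ := Λ + L₁ * Λ + 1 with hΛ₂
  have hΛ₂0 : 0 ≤ Λ₂ := by positivity
  set D : ℝ := A * (L₂ * (1 + 2 * Λ₂)) with hD
  have hD0 : 0 ≤ D := by positivity
  set m : ℝ := min 1 (c / 2) with hm
  have hm0 : 0 < m := lt_min one_pos hc2
  refine ⟨1 + A + D, min m (min (1 / c) (m / (A + 1))), by linarith, by positivity, ?_⟩
  intro α _ S N W Z ε hε hεs hN hZ hW hS
  have e1 : ε ≤ m := hεs.trans (min_le_left _ _)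
  have e2 : ε ≤ 1 / c := hεs.trans ((min_le_right _ _).trans (min_le_left _ _))
  have e3 : ε ≤ m / (A + 1) := hεs.trans ((min_le_right _ _).trans (min_le_right _ _))
  have e4 : ε ≤ 1 := e1.trans (min_le_left _ _)
  have e5 : ε ≤ c / 2 := e1.trans (min_le_right _ _)
  have e6 : A * ε ≤ m := by
    rw [le_div_iff₀ (by linarith)] at e3
    nlinarith
  have e7 : A * ε ≤ 1 := e6.trans (min_le_left _ _)
  have e8 : A * ε ≤ c / 2 := e6.trans (min_le_right _ _)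
  have hAε : 0 ≤ A * ε := by positivity
  -- the maps take values in the good sets
  have hcc : 1 / (c / 2) = 2 / c := by field_simp
  have hic : 0 < 1 / c := by positivity
  have hmZ : MapsTo Z S {Z : LCS | ‖Z‖ ≤ 1 / (c / 2) ∧ c / 2 ≤ ‖Z.1‖} := by
    intro p hp
    obtain ⟨h1, h2, -⟩ := hS p hp
    refine ⟨h1.trans ?_, by linarith⟩
    rw [hcc]
    have : 2 / c = 1 / c + 1 / c := by ring
    linarith
  have hWZ : ∀ p ∈ S, ‖W p - Z p‖ ≤ ε := hW.1
  have hmW : MapsTo W S {Z : LCS | ‖Z‖ ≤ 1 / (c / 2) ∧ c / 2 ≤ ‖Z.1‖} := by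
    intro p hp
    obtain ⟨h1, h2, -⟩ := hS p hp
    have h3 := hWZ p hp
    have h4 : ‖(W p).1 - (Z p).1‖ ≤ ε := (norm_fst_le (W p - Z p)).trans h3
    constructor
    · rw [hcc]
      have : ‖W p‖ ≤ ‖W p - Z p‖ + ‖Z p‖ := by
        have := norm_add_le (W p - Z p) (Z p)
        rwa [sub_add_cancel] at this
      have h5 : 2 / c = 1 / c + 1 / c := by ring
      linarith
    · have : ‖(Z p).1‖ ≤ ‖(W p).1‖ + ‖(W p).1 - (Z p).1‖ := by
        have := norm_sub_norm_le (Z p).1 (W p).1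
        rw [norm_sub_rev] at this
        linarith
      linarith
  have hLW : Lip (Λ + 1) W S := by
    intro p hp q hq
    have := lip_of_near hW hZ p hp q hq
    exact this.trans (mul_le_mul_of_nonneg_right (by linarith) dist_nonneg)
  have hLZ : Lip (Λ + 1) Z S := by
    intro p hp q hq
    exact (hZ p hp q hq).trans (mul_le_mul_of_nonneg_right (by linarith) dist_nonneg)
  have n4 := near_comp_outer hW hmW hmZ hLW hLZ hR₁ hL₁ hε (by linarith)
  have eA : L₁ * ε * (1 + 2 * (Λ + 1)) = A * ε := by rw [hA]; ring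
  rw [eA] at n4
  -- the components
  have nX := near_fst n4
  have n3 := near_snd n4
  have nR := near_fst n3
  have n2 := near_snd n3
  have nU := near_fst n2
  have nW : Near (A * ε) (fun p => cW (lcSt i (W p))) (fun p => cW (lcSt i (Z p))) S :=
    near_snd n2
  -- the Lipschitz constants
  have hwZ : Lip (L₁ * Λ) (fun p => cW (lcSt i (Z p))) S := by
    intro p hp q hq
    have h1 := hR₁.1 (Z p) (hmZ hp) (Z q) (hmZ hq)
    have h2 := hZ p hp q hq
    have h3 : ‖cW (lcSt i (Z p)) - cW (lcSt i (Z q))‖ ≤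
        ‖cc4 (lcSt i (Z p)) - cc4 (lcSt i (Z q))‖ := by
      have k1 := norm_snd_le (cc4 (lcSt i (Z p)) - cc4 (lcSt i (Z q)))
      have k2 := norm_snd_le (cc4 (lcSt i (Z p)) - cc4 (lcSt i (Z q))).2
      have k3 := norm_snd_le (cc4 (lcSt i (Z p)) - cc4 (lcSt i (Z q))).2.2
      exact k3.trans (k2.trans k1)
    refine h3.trans (h1.trans ?_)
    rw [dist_eq_norm, mul_assoc]
    exact mul_le_mul_of_nonneg_left h2 hL₁
  have hwW : Lip (L₁ * Λ + A * ε) (fun p => cW (lcSt i (W p))) S := lip_of_near nW hwZ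
  have hL1Λ : 0 ≤ L₁ * Λ := by positivity
  have hpair : ∀ {w : α → ℂ} {M : ℝ}, M ≤ Λ₂ → Lip M w S → Lip Λ₂ (fun p => (N p, w p)) S := by
    intro w M hM hw p hp q hq
    have h1 := hN p hp q hq
    have h2 := hw p hp q hq
    have hd : 0 ≤ dist p q := dist_nonneg
    rw [Prod.mk_sub_mk, Prod.norm_def]
    refine max_le (h1.trans ?_) (h2.trans ?_)
    · exact mul_le_mul_of_nonneg_right (by linarith) hd
    · exact mul_le_mul_of_nonneg_right hM hd
  have hpZ := hpair (M := L₁ * Λ) (by linarith) hwZ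
  have hpW := hpair (M := L₁ * Λ + A * ε) (by linarith) hwW
  -- values in the sector
  have hexp : ∀ p, ‖Complex.exp (-(N p : ℂ) * Complex.I)‖ = 1 := by
    intro p
    have := Complex.norm_exp_ofReal_mul_I (-(N p))
    push_cast at this
    exact this
  have hbZ : ∀ p ∈ S, ‖cW (lcSt i (Z p))‖ ≤ 1 / (2 * c ^ 2) + 1 / c :=
    fun p hp => p9_cW i hc (hS p hp).1 (hS p hp).2.1
  have hsZ : MapsTo (fun p => (N p, cW (lcSt i (Z p)))) S
      {p : ℝ × ℂ | c₂ ≤ (p.2 * Complex.exp (-(p.1 : ℂ) * Complex.I)).re ∧ ‖p.2‖ ≤ 1 / c₂} := by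
    intro p hp
    obtain ⟨-, -, h3⟩ := hS p hp
    refine ⟨?_, ?_⟩
    · have : c₂ ≤ c / 2 := min_le_left _ _
      show c₂ ≤ (cW (lcSt i (Z p)) * Complex.exp (-(N p : ℂ) * Complex.I)).re
      linarith
    · show ‖cW (lcSt i (Z p))‖ ≤ 1 / c₂
      have := hbZ p hp
      linarith
  have hsW : MapsTo (fun p => (N p, cW (lcSt i (W p)))) S
      {p : ℝ × ℂ | c₂ ≤ (p.2 * Complex.exp (-(p.1 : ℂ) * Complex.I)).re ∧ ‖p.2‖ ≤ 1 / c₂} := by
    intro p hp
    obtain ⟨-, -, h3⟩ := hS p hp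
    have h4 := nW.1 p hp
    refine ⟨?_, ?_⟩
    · show c₂ ≤ (cW (lcSt i (W p)) * Complex.exp (-(N p : ℂ) * Complex.I)).re
      have h5 : (cW (lcSt i (W p)) * Complex.exp (-(N p : ℂ) * Complex.I)).re =
          (cW (lcSt i (Z p)) * Complex.exp (-(N p : ℂ) * Complex.I)).re +
          ((cW (lcSt i (W p)) - cW (lcSt i (Z p))) * Complex.exp (-(N p : ℂ) * Complex.I)).re := by
        rw [← Complex.add_re]
        congr 1
        ring
      have h6 := Complex.abs_re_le_norm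
        ((cW (lcSt i (W p)) - cW (lcSt i (Z p))) * Complex.exp (-(N p : ℂ) * Complex.I))
      rw [norm_mul, hexp, mul_one] at h6
      have h7 := neg_le_of_abs_le (h6.trans h4)
      have h8 : c₂ ≤ c / 2 := min_le_left _ _
      rw [h5]
      linarith
    · show ‖cW (lcSt i (W p))‖ ≤ 1 / c₂
      have h5 := hbZ p hp
      have : ‖cW (lcSt i (W p))‖ ≤ ‖cW (lcSt i (W p)) - cW (lcSt i (Z p))‖ +
          ‖cW (lcSt i (Z p))‖ := by
        have := norm_add_le (cW (lcSt i (W p)) - cW (lcSt i (Z p))) (cW (lcSt i (Z p)))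
        rwa [sub_add_cancel] at this
      linarith
  have nP := near_comp_outer (near_prod (p9_self hAε N S) nW) hsW hsZ hpW hpZ hR₂ hL₂ hAε hΛ₂0
  have eD : L₂ * (A * ε) * (1 + 2 * Λ₂) = D * ε := by rw [hD]; ring
  rw [eD] at nP
  have hL1 : A * ε ≤ (1 + A + D) * ε := mul_le_mul_of_nonneg_right (by linarith) hε
  have hL2 : D * ε ≤ (1 + A + D) * ε := mul_le_mul_of_nonneg_right (by linarith) hε
  exact near_prod (near_mono nX hL1 subset_rfl) (near_prod (near_mono nR hL1 subset_rfl)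
    (near_prod (near_mono nU hL1 subset_rfl) (near_mono nP hL2 subset_rfl)))

end

end Pool.Agent.HS

namespace Pool.Agent.HS
open Set Filter Topology Classical

theorem cc5_near (i : Fin 2) (c Λ : ℝ) (hc : 0 < c) (hΛ : 1 ≤ Λ) : ∃ L εs : ℝ, 1 ≤ L ∧ 0 < εs ∧
    ∀ {α : Type} [PseudoMetricSpace α] (S : Set α) (N : α → ℝ) (W Z : α → LCS) (ε : ℝ),
      0 ≤ ε → ε ≤ εs → Lip Λ N S → Lip Λ Z S → Near ε W Z S →
      (∀ p ∈ S, ‖Z p‖ ≤ 1 / c ∧ c ≤ ‖(Z p).1‖ ∧
        c ≤ (cW (lcSt i (Z p)) * Complex.exp (-(N p : ℂ) * Complex.I)).re) →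
      Near (L * ε) (fun p => cc5 (N p) (lcSt i (W p))) (fun p => cc5 (N p) (lcSt i (Z p))) S :=
  @Pool.Agent.HS.cc5_near_pr i c Λ hc hΛ

end Pool.Agent.HS
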