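import Pool.Agent.Lib_helper60.HSF.D_WJ
import Pool.Agent.Lib_helper60.HSF.IO_P11
import Pool.Agent.Lib_helper60.HSF.IO_K2
import Pool.Agent.Lib_helper60.HSF.A_CA
import Pool.Agent.Lib_helper60.HSF.IO_I10
import Pool.Agent.Lib_helper60.HSF.IO_P6
import Pool.Agent.Lib_helper60.HSF.IO_P10
import Pool.Agent.Lib_helper60.HSF.IO_K7
import Pool.Agent.Lib_helper60.HSF.IO_R3
import Pool.Agent.Lib_helper60.HSF.IO_P13
import Pool.Agent.Lib_helper60.HSF.IO_P1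
import Pool.Agent.Lib_helper60.HSF.IO_P9
import Pool.Agent.Lib_helper60.HSF.IO_N1
import Pool.Agent.Lib_helper60.HSF.IO_P2
import Pool.Agent.Lib_helper60.HSF.IO_P7
import Pool.Agent.Lib_helper60.HSF.IO_O2
import Pool.Agent.Lib_helper60.HSF.IO_C4
import Pool.Agent.Lib_helper60.HSF.IO_O3
import Pool.Agent.Lib_helper60.HSF.IO_I8
import Pool.Agent.Lib_helper60.HSF.IO_P4
import Pool.Agent.Lib_helper60.HSF.IO_R2
import Pool.Agent.Lib_helper60.HSF.IO_K1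

/-!
# Part I/O of project HS, block P8: final assembly of `arc` (helper51)
-/

namespace Pool.Agent.HS

noncomputable section

open Set Filter Topology Classical

set_option maxHeartbeats 4000000

theorem p8_near_congr {α E : Type*} [PseudoMetricSpace α] [NormedAddCommGroup E] {ε : ℝ}
    {f g f' g' : α → E} {S : Set α} (h : Near ε f g S) (hf : ∀ p ∈ S, f p = f' p)
    (hg : ∀ p ∈ S, g p = g' p) : Near ε f' g' S := by
  refine ⟨fun p hp => ?_, fun p hp q hq => ?_⟩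
  · rw [← hf p hp, ← hg p hp]; exact h.1 p hp
  · rw [← hf p hp, ← hg p hp, ← hf q hq, ← hg q hq]; exact h.2 p hp q hq

theorem p8_lip_mono {α E : Type*} [PseudoMetricSpace α] [NormedAddCommGroup E] {L L' : ℝ}
    {f : α → E} {S S' : Set α} (h : Lip L f S) (hL : L ≤ L') (hS : S' ⊆ S) : Lip L' f S' := by
  intro p hp q hq
  exact (h p (hS hp) q (hS hq)).trans (mul_le_mul_of_nonneg_right hL dist_nonneg)

theorem p8_DD_mono {c c' : ℝ} (h : c' ≤ c) (hc' : 0 < c') : DD c ⊆ DD c' := by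
  rintro d ⟨h1, h2, h3, h4, h5⟩
  have : 1 / c ≤ 1 / c' := one_div_le_one_div_of_le hc' h
  exact ⟨h.trans h1, h2.trans this, h3.trans this, h.trans h4, h5.trans this⟩

theorem p8_box_mono {c c' : ℝ} (h : c' ≤ c) (hc' : 0 < c') : lcBox c ⊆ lcBox c' := by
  rintro Z ⟨h1, h2⟩
  exact ⟨h1.trans (one_div_le_one_div_of_le hc' h), h.trans h2⟩

theorem p8_DD_near {c r : ℝ} (hc : 0 < c) {d d' : Dt} (hd : d ∈ DD c) (hr : ‖d' - d‖ ≤ r)
    (h1 : r ≤ c / 2) (h2 : r ≤ 1 / c) : d' ∈ DD (c / 2) := by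
  obtain ⟨a1, a2, a3, a4, a5⟩ := hd
  have e : 1 / (c / 2) = 1 / c + 1 / c := by field_simp; norm_num
  have b1 : ‖d'.1 - d.1‖ ≤ r := (norm_fst_le (d' - d)).trans hr
  have bb : ‖(d' - d).2‖ ≤ r := (norm_snd_le (d' - d)).trans hr
  have b2 : ‖d'.2.1 - d.2.1‖ ≤ r := (norm_fst_le (d' - d).2).trans bb
  have bc : ‖(d' - d).2.2‖ ≤ r := (norm_snd_le (d' - d).2).trans bb
  have b3 : ‖d'.2.2.1 - d.2.2.1‖ ≤ r := (norm_fst_le (d' - d).2.2).trans bc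
  have b3' := abs_le.1 ((Real.norm_eq_abs _) ▸ b3)
  have b1' := abs_le.1 ((Complex.abs_re_le_norm (d'.1 - d.1)).trans b1)
  simp only [Complex.sub_re] at b1'
  refine ⟨?_, ?_, ?_, ?_, ?_⟩
  · linarith [b1'.1]
  · have : ‖d'.1‖ ≤ ‖d.1‖ + ‖d'.1 - d.1‖ := by
      calc ‖d'.1‖ = ‖d.1 + (d'.1 - d.1)‖ := by congr 1; ring
        _ ≤ _ := norm_add_le _ _
    rw [e]; linarith
  · have : ‖d'.2.1‖ ≤ ‖d.2.1‖ + ‖d'.2.1 - d.2.1‖ := by
      calc ‖d'.2.1‖ = ‖d.2.1 + (d'.2.1 - d.2.1)‖ := by congr 1; ring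
        _ ≤ _ := norm_add_le _ _
    rw [e]; linarith
  · linarith [b3'.1]
  · rw [e]; linarith [b3'.2]

theorem p8_box_near {c r : ℝ} (hc : 0 < c) {Z Z' : LCS} (hd : Z ∈ lcBox c) (hr : ‖Z' - Z‖ ≤ r)
    (h1 : r ≤ c / 2) (h2 : r ≤ 1 / c) : Z' ∈ lcBox (c / 2) := by
  obtain ⟨a1, a2⟩ := hd
  have e : 1 / (c / 2) = 1 / c + 1 / c := by field_simp; norm_num
  have b1 : ‖(Z' - Z).2‖ ≤ r := (norm_snd_le (Z' - Z)).trans hr
  have b2 : ‖(Z' - Z).2.2‖ ≤ r := (norm_snd_le _).trans b1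
  have b3 : ‖Z'.2.2.1 - Z.2.2.1‖ ≤ r := (norm_fst_le (Z' - Z).2.2).trans b2
  refine ⟨?_, ?_⟩
  · have : ‖Z'‖ ≤ ‖Z‖ + ‖Z' - Z‖ := by
      calc ‖Z'‖ = ‖Z + (Z' - Z)‖ := by congr 1; abel
        _ ≤ _ := norm_add_le _ _
    rw [e]; linarith
  · have : ‖Z.2.2.1‖ ≤ ‖Z'.2.2.1‖ + ‖Z'.2.2.1 - Z.2.2.1‖ := by
      calc ‖Z.2.2.1‖ = ‖Z'.2.2.1 - (Z'.2.2.1 - Z.2.2.1)‖ := by congr 1; ring
        _ ≤ _ := norm_sub_le _ _
    linarith

/-- `lcX` is Lipschitz on bounded sets -/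
theorem p8_lcX {B : ℝ} (hB : 0 ≤ B) {Z Z' : LCS} (h : ‖Z‖ ≤ B) (h' : ‖Z'‖ ≤ B) :
    ‖lcX Z' - lcX Z‖ ≤ (2 * B + 1) * ‖Z' - Z‖ := by
  have a1 : ‖Z'.1 - Z.1‖ ≤ ‖Z' - Z‖ := norm_fst_le (Z' - Z)
  have b1 : ‖(Z' - Z).2‖ ≤ ‖Z' - Z‖ := norm_snd_le (Z' - Z)
  have b2 : ‖(Z' - Z).2.2‖ ≤ ‖Z' - Z‖ := (norm_snd_le _).trans b1
  have b3 : ‖Z'.2.2.1 - Z.2.2.1‖ ≤ ‖Z' - Z‖ := (norm_fst_le (Z' - Z).2.2).trans b2
  have c1 : ‖Z.1‖ ≤ B := (norm_fst_le Z).trans h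
  have c2 : ‖Z'.1‖ ≤ B := (norm_fst_le Z').trans h'
  have e : lcX Z' - lcX Z = (Z'.1 - Z.1) * (Z'.1 + Z.1) - (Z'.2.2.1 - Z.2.2.1) := by
    simp only [lcX]; ring
  rw [e]
  have d1 : ‖(Z'.1 - Z.1) * (Z'.1 + Z.1)‖ ≤ ‖Z' - Z‖ * (2 * B) := by
    rw [norm_mul]
    apply mul_le_mul a1 _ (norm_nonneg _) (norm_nonneg _)
    exact (norm_add_le _ _).trans (by linarith)
  calc _ ≤ ‖(Z'.1 - Z.1) * (Z'.1 + Z.1)‖ + ‖Z'.2.2.1 - Z.2.2.1‖ := norm_sub_le _ _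
    _ ≤ _ := by nlinarith [norm_nonneg (Z' - Z)]

theorem p8_add_lip {O : Set Pl} {f : Pl → ℝ} {L dd a a' : ℝ} (hL : 0 ≤ L) (hf : Lip L f O) {X X' : Pl}
    (hX : X ∈ O) (hX' : X' ∈ O) (h1 : dist X X' ≤ dd) (h2 : dist a a' ≤ dd) :
    dist (f X + a) (f X' + a') ≤ (L + 1) * dd := by
  have l1 := hf X hX X' hX'
  rw [Real.norm_eq_abs] at l1
  rw [Real.dist_eq] at h2 ⊢
  have e : f X + a - (f X' + a') = (f X - f X') + (a - a') := by ring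
  rw [e]
  have h3 : |f X - f X' + (a - a')| ≤ |f X - f X'| + |a - a'| := abs_add_le _ _
  have h4 : L * dist X X' ≤ L * dd := mul_le_mul_of_nonneg_left h1 hL
  have e2 : (L + 1) * dd = L * dd + dd := by ring
  rw [e2]
  linarith

theorem p8_shift_lip {O : Set Pl} {χ0 τ0 : Pl → ℝ} {L : ℝ} (hL : 0 ≤ L) (hχ : Lip L χ0 O)
    (hτ : Lip L τ0 O) {X X' : Pl} {b b' : ℝ} {η η' : ℝ × ℝ} (hX : X ∈ O) (hX' : X' ∈ O) :
    dist (X, b, χ0 X + η.1, τ0 X + η.2) (X', b', χ0 X' + η'.1, τ0 X' + η'.2) ≤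
      (L + 1) * dist (X, b, η) (X', b', η') := by
  have d1 : dist X X' ≤ dist (X, b, η) (X', b', η') := le_max_left _ _
  have d2 : dist (b, η) (b', η') ≤ dist (X, b, η) (X', b', η') := le_max_right _ _
  have d3 : dist b b' ≤ dist (b, η) (b', η') := le_max_left _ _
  have d4 : dist η η' ≤ dist (b, η) (b', η') := le_max_right _ _
  have d5 : dist η.1 η'.1 ≤ dist η η' := le_max_left _ _
  have d6 : dist η.2 η'.2 ≤ dist η η' := le_max_right _ _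
  have dn : 0 ≤ dist (X, b, η) (X', b', η') := dist_nonneg
  set dd := dist (X, b, η) (X', b', η') with hdd
  have e1 := p8_add_lip hL hχ hX hX' d1 (d5.trans (d4.trans d2))
  have e2 := p8_add_lip hL hτ hX hX' d1 (d6.trans (d4.trans d2))
  have ed : dd ≤ (L + 1) * dd := by nlinarith
  exact max_le (d1.trans ed) (max_le ((d3.trans d2).trans ed) (max_le e1 e2))

theorem p8_rev_rot (ρ : ℂ) (y : St) : rev (rot ρ y) = rot ρ (rev y) := by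
  simp [rev, rot, x3, x2, u3, u2]

theorem p8_rev_rev (y : St) : rev (rev y) = y := by
  simp [rev, x3, x2, u3, u2]

theorem p8_newton (i : Fin 2) (C : ℝ) (hC : 0 < C ∧ C ≤ 1) (O : Set (ℝ × ℝ)) (χ0 τ0 : ℝ × ℝ → ℝ)
    (F : ℝ × ℝ → ℝ × ℝ) (θ : ℝ × ℝ → ℝ) (hO : ∀ X ∈ O, X ∈ CD C ∧ F X ∈ CD C)
    (c0 ρ0 T c1 cS ρS LS c2 K : ℝ) (f0 : LCS → LCS) (hc0 : 0 < c0) (hρ0 : 0 < ρ0) (hT : 0 < T)
    (hτ : ∀ X ∈ O, 4 * ρ0 ≤ τ0 X ∧ τ0 X + ρ0 ≤ T)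
    (hadm : ∀ X ∈ O, ∀ χ, |χ - χ0 X| ≤ ρ0 → limD C X χ ∈ AdmD i c0)
    (hZd : ∀ d ∈ AdmD i c0, Zd i d 0 = toLC i 0 (colD d) ∧
      ∀ τ, Zd i d τ ∈ lcBox c1 ∧ HasDerivAt (Zd i d) (lcf i 0 (Zd i d τ)) τ)
    (hcS : 0 < cS) (hρS : 0 < ρS) (hLS : 1 ≤ LS) (hLχ : Lip LS χ0 O) (hLτ : Lip LS τ0 O)
    (hRZ : RegF LS (fun q : Pl × (ℝ × ℝ) => Zd i (limD C q.1 (χ0 q.1 + q.2.1)) (τ0 q.1 + q.2.2)) O ρS)
    (hRS : RegF LS (S0f i C χ0 τ0 θ) O ρS)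
    (hLN : Lip LS (endN i C χ0 τ0 θ) O)
    (hS0 : ∀ X ∈ O, S0f i C χ0 τ0 θ (X, 0) = (0, cR (endSt i C χ0 τ0 X), cU (endSt i C χ0 τ0 X),
          kap0 C (chart C (F X)), endN i C χ0 τ0 θ X))
    (hSD : ∀ X ∈ O, (S0f i C χ0 τ0 θ (X, 0)).2 ∈ DD cS)
    (hSreg : ∀ X ∈ O, ∀ η ∈ Metric.closedBall (0 : ℝ × ℝ) ρS,
        ‖Zd i (limD C X (χ0 X + η.1)) (τ0 X + η.2)‖ ≤ 1 / cS ∧
        cS ≤ ‖(Zd i (limD C X (χ0 X + η.1)) (τ0 X + η.2)).1‖ ∧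
        cS ≤ (cW (lcSt i (Zd i (limD C X (χ0 X + η.1)) (τ0 X + η.2))) *
          Complex.exp (-(endN i C χ0 τ0 θ X : ℂ) * Complex.I)).re)
    (hSnd : ∀ X ∈ O, ∃ e₁ e₂ : ℂ, cS ≤ |((starRingEnd ℂ) e₁ * e₂).im| ∧ ‖e₁‖ ≤ LS ∧ ‖e₂‖ ≤ LS ∧
        ∀ η ∈ Metric.closedBall (0 : ℝ × ℝ) ρS,
          ‖(S0f i C χ0 τ0 θ (X, η)).1 - (e₁ * (η.1 : ℝ) + e₂ * (η.2 : ℝ))‖ ≤
            LS * (|η.1| + |η.2|) ^ 2)
    (hK : 1 ≤ K) (hBL : BL K K f0) (hReg : Reg K f0 univ) (hc12 : c2 ≤ c1)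
    (hc2 : 0 < c2) (hf0 : ∀ Z ∈ lcBox c2, f0 Z = lcf i 0 Z) :
    ∃ Ln εn gn : ℝ, 1 ≤ Ln ∧ 0 < εn ∧ 0 < gn ∧
      ∀ (μ g Lq : ℝ) (q : LCS → LCS), 0 < μ → Ln * μ ≤ g → g ≤ gn → 0 ≤ Lq → BL Lq Lq q →
        μ ^ 2 * Lq ≤ 1 → g + (μ / g) ^ 2 + μ ^ 2 * Lq ≤ εn →
        ∃ (η : Pl × ℝ × ℝ → ℝ × ℝ) (D : Pl × ℝ × ℝ → Dt),
          Near (Ln * (g + (μ / g) ^ 2 + μ ^ 2 * Lq)) η (fun _ => 0) (O ×ˢ (JJ ×ˢ JJ)) ∧
          Near (Ln * (g + (μ / g) ^ 2 + μ ^ 2 * Lq)) D (fun p => (S0f i C χ0 τ0 θ (p.1, 0)).2)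
            (O ×ˢ (JJ ×ˢ JJ)) ∧
          ∀ p ∈ O ×ˢ (JJ ×ˢ JJ),
            lcSt i (Wf i (fun Z => f0 Z + (μ ^ 2) • q Z) C μ g p.1 (χ0 p.1 + (η p).1) p.2.1
              (τ0 p.1 + (η p).2)) = rev (innSt μ (revD (D p)) (-p.2.2) g) := by
  obtain ⟨σW, LW, hσW, hLW, hWn⟩ := W_near i C hC f0 K T hBL hK hReg hT.le
  -- radius of the Newton ball
  set ρN : ℝ := min (min ρ0 ρS) (min 1 (min (cS / 2) (1 / cS))) with hρN
  have hρNpos : 0 < ρN := by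
    simp only [hρN, lt_min_iff]
    exact ⟨⟨hρ0, hρS⟩, one_pos, by positivity, by positivity⟩
  have r1 : ρN ≤ ρ0 := (min_le_left _ _).trans (min_le_left _ _)
  have r2 : ρN ≤ ρS := (min_le_left _ _).trans (min_le_right _ _)
  have r3 : ρN ≤ 1 := (min_le_right _ _).trans (min_le_left _ _)
  have r4 : ρN ≤ cS / 2 := (min_le_right _ _).trans ((min_le_right _ _).trans (min_le_left _ _))
  have r5 : ρN ≤ 1 / cS := (min_le_right _ _).trans ((min_le_right _ _).trans (min_le_right _ _))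
  set Λ : ℝ := LS + 1 with hΛdef
  have hΛ : 1 ≤ Λ := by linarith
  obtain ⟨L5, ε5, hL5, hε5, h5⟩ := cc5_near i cS Λ hcS hΛ
  obtain ⟨σE, LE, hσE, hLE, hE⟩ := em_near (cS / 2) LS (by positivity) (by linarith)
  obtain ⟨Cn, ε0, hCn, hε0, hnew⟩ := arc_newton (W := Dt) LS cS ρN hLS hcS hρNpos
  -- bound for the Near constants
  set LL : ℝ := L5 * (LW * Λ) + LE with hLL
  have hLLpos : 0 < LL := by positivity
  have hLL1 : LE ≤ LL := by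
    have : 0 ≤ L5 * (LW * Λ) := by positivity
    linarith
  have hLL2 : L5 * (LW * Λ) ≤ LL := by linarith
  refine ⟨max (max LW LE) (Cn * LL), min (ε5 / (LW * Λ)) (ε0 / LL), min σW σE,
    hLW.trans ((le_max_left _ _).trans (le_max_left _ _)), ?_, lt_min hσW hσE, ?_⟩
  · exact lt_min (by positivity) (by positivity)
  intro μ g Lq q hμ hLμ hg hLq hBq hμq he
  set e : ℝ := g + (μ / g) ^ 2 + μ ^ 2 * Lq with hedef
  have hgpos : 0 < g := by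
    have : 0 < max (max LW LE) (Cn * LL) * μ := by
      have : 0 < max (max LW LE) (Cn * LL) :=
        lt_of_lt_of_le (by linarith) ((le_max_left LW LE).trans (le_max_left _ _))
      positivity
    linarith
  have hepos : 0 ≤ e := by positivity
  have hLWμ : LW * μ ≤ g :=
    le_trans (mul_le_mul_of_nonneg_right ((le_max_left LW LE).trans (le_max_left _ _)) hμ.le) hLμ
  have hLEμ : LE * μ ≤ g :=
    le_trans (mul_le_mul_of_nonneg_right ((le_max_right LW LE).trans (le_max_left _ _)) hμ.le) hLμ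
  have he5 : LW * e * Λ ≤ ε5 := by
    have := he.trans (min_le_left _ _)
    rw [le_div_iff₀ (by positivity)] at this
    nlinarith
  have he0 : LL * e ≤ ε0 := by
    have := he.trans (min_le_right _ _)
    rw [le_div_iff₀ (by positivity)] at this
    nlinarith
  -- outgoing side
  have hW1 := hWn μ g Lq q hμ hLWμ (hg.trans (min_le_left _ _)) hLq hBq hμq
  set f : LCS → LCS := fun Z => f0 Z + (μ ^ 2) • q Z with hf
  set S1 : Set (Pl × ℝ × (ℝ × ℝ)) := O ×ˢ (JJ ×ˢ Metric.closedBall (0 : ℝ × ℝ) ρN) with hS1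
  set m1 : Pl × ℝ × (ℝ × ℝ) → Pl × ℝ × ℝ × ℝ :=
    fun p => (p.1, p.2.1, χ0 p.1 + p.2.2.1, τ0 p.1 + p.2.2.2) with hm1
  have hball : ∀ η : ℝ × ℝ, η ∈ Metric.closedBall (0 : ℝ × ℝ) ρN → |η.1| ≤ ρN ∧ |η.2| ≤ ρN := by
    intro η hη
    rw [mem_closedBall_zero_iff] at hη
    exact ⟨(norm_fst_le η).trans hη, (norm_snd_le η).trans hη⟩
  have hsub : Metric.closedBall (0 : ℝ × ℝ) ρN ⊆ Metric.closedBall 0 ρS :=
    Metric.closedBall_subset_closedBall r2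
  have hmaps : MapsTo m1 S1 (CDw C ×ˢ (JJ ×ˢ (univ ×ˢ Icc (-T) T))) := by
    rintro ⟨X, b, η⟩ ⟨hX, hb, hη⟩
    have := hball η hη
    have t := hτ X hX
    refine ⟨CD_sub C (hO X hX).1, hb, trivial, ?_, ?_⟩
    · have := (abs_le.1 this.2).1
      simp only [hm1]; linarith
    · have := (abs_le.1 this.2).2
      simp only [hm1]; linarith
  have hm1L : ∀ p ∈ S1, ∀ q ∈ S1, dist (m1 p) (m1 q) ≤ Λ * dist p q := by
    rintro ⟨X, b, η⟩ ⟨hX, hb, hη⟩ ⟨X', b', η'⟩ ⟨hX', hb', hη'⟩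
    exact p8_shift_lip (by linarith) hLχ hLτ hX hX'
  have hW2 := near_comp_inner hW1 hmaps hm1L hΛ (by positivity)
  -- limit in terms of Zd
  have hlim : ∀ p ∈ S1, flow f0 (τ0 p.1 + p.2.2.2) (toLC i 0 (colD (limD C p.1 (χ0 p.1 + p.2.2.1)))) =
      Zd i (limD C p.1 (χ0 p.1 + p.2.2.1)) (τ0 p.1 + p.2.2.2) := by
    rintro ⟨X, b, η⟩ ⟨hX, hb, hη⟩
    have hb := hball η hη
    symm
    apply Zd_flow i c0 c1 hc0 f0 K hBL (fun Z hZ => hf0 Z (p8_box_mono hc12 hc2 hZ)) hZd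
    · apply hadm X hX
      have : χ0 X + η.1 - χ0 X = η.1 := by ring
      simp only
      rw [this]; exact hb.1.trans r1
    · have := (abs_le.1 hb.2).1
      have t := hτ X hX
      simp only
      linarith
  have hW3 : Near (LW * e * Λ)
      (fun p : Pl × ℝ × (ℝ × ℝ) => Wf i f C μ g p.1 (χ0 p.1 + p.2.2.1) p.2.1 (τ0 p.1 + p.2.2.2))
      (fun p => Zd i (limD C p.1 (χ0 p.1 + p.2.2.1)) (τ0 p.1 + p.2.2.2)) S1 :=
    p8_near_congr hW2 (fun p _ => rfl) (fun p hp => hlim p hp)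
  have hproj : ∀ p ∈ S1, ∀ q ∈ S1, dist (p.1, p.2.2) (q.1, q.2.2) ≤ dist p q := by
    rintro ⟨X, b, η⟩ _ ⟨X', b', η'⟩ _
    exact max_le (le_max_left _ _) ((le_max_right _ _).trans (le_max_right _ _))
  have hLZ : Lip Λ (fun p : Pl × ℝ × (ℝ × ℝ) =>
      Zd i (limD C p.1 (χ0 p.1 + p.2.2.1)) (τ0 p.1 + p.2.2.2)) S1 := by
    rintro p hp q hq
    have := hRZ.1 (p.1, p.2.2) ⟨hp.1, hsub hp.2.2⟩ (q.1, q.2.2) ⟨hq.1, hsub hq.2.2⟩
    refine this.trans ?_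
    have h1 := hproj p hp q hq
    have : LS * dist (p.1, p.2.2) (q.1, q.2.2) ≤ LS * dist p q :=
      mul_le_mul_of_nonneg_left h1 (by linarith)
    have h2 : LS * dist p q ≤ Λ * dist p q := mul_le_mul_of_nonneg_right (by linarith) dist_nonneg
    exact this.trans h2
  have hLNN : Lip Λ (fun p : Pl × ℝ × (ℝ × ℝ) => endN i C χ0 τ0 θ p.1) S1 := by
    rintro p hp q hq
    refine (hLN p.1 hp.1 q.1 hq.1).trans ?_
    have h1 : dist p.1 q.1 ≤ dist p q := le_max_left _ _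
    have : LS * dist p.1 q.1 ≤ LS * dist p q := mul_le_mul_of_nonneg_left h1 (by linarith)
    have h2 : LS * dist p q ≤ Λ * dist p q := mul_le_mul_of_nonneg_right (by linarith) dist_nonneg
    exact this.trans h2
  have hSm := h5 S1 (fun p => endN i C χ0 τ0 θ p.1) _ _ (LW * e * Λ) (by positivity) he5 hLNN hLZ hW3
    (fun p hp => hSreg p.1 hp.1 p.2.2 (hsub hp.2.2))
  have hSm' : Near (LL * e) (Smf i f C μ g χ0 τ0 θ) (fun q => S0f i C χ0 τ0 θ (q.1, q.2.2)) S1 := by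
    apply near_mono hSm _ (subset_refl _)
    have : L5 * (LW * e * Λ) = L5 * (LW * Λ) * e := by ring
    rw [this]
    exact mul_le_mul_of_nonneg_right hLL2 hepos
  -- incoming side
  have hEm := hE O (endN i C χ0 τ0 θ) hLN μ g hμ hLEμ (hg.trans (min_le_right _ _))
  have hEm' : Near (LL * e) (emf (endN i C χ0 τ0 θ) μ g) (fun q => ((0:ℂ), q.2.1))
      {q | q.1 ∈ O ∧ ‖q.2.1 - (S0f i C χ0 τ0 θ (q.1, 0)).2‖ ≤ ρN ∧ q.2.2 ∈ JJ} := by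
    apply near_mono hEm
    · have h1 : LE * (g + (μ / g) ^ 2) ≤ LE * e := by
        apply mul_le_mul_of_nonneg_left _ (by linarith)
        have : 0 ≤ μ ^ 2 * Lq := by positivity
        rw [hedef]; linarith
      exact h1.trans (mul_le_mul_of_nonneg_right hLL1 hepos)
    · rintro ⟨X, d, b⟩ ⟨hX, hd, hb⟩
      refine ⟨hX, p8_DD_near hcS (hSD X hX) hd r4 r5, ?_, hb⟩
      simp only at hd hX hb ⊢
      have h1 : ‖(d - (S0f i C χ0 τ0 θ (X, 0)).2).2‖ ≤ ρN := (norm_snd_le _).trans hd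
      have h2 := (norm_snd_le _).trans h1
      have h3 := (norm_snd_le _).trans h2
      have h4 : (S0f i C χ0 τ0 θ (X, 0)).2.2.2.2 = endN i C χ0 τ0 θ X := by rw [hS0 X hX]
      have h5 : (d - (S0f i C χ0 τ0 θ (X, 0)).2).2.2.2 = d.2.2.2 - endN i C χ0 τ0 θ X := by
        rw [← h4]; rfl
      rw [h5, Real.norm_eq_abs] at h3
      exact h3.trans r3
  obtain ⟨η, D, hη, hD, heq⟩ := hnew O (S0f i C χ0 τ0 θ) (Smf i f C μ g χ0 τ0 θ)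
    (emf (endN i C χ0 τ0 θ) μ g) (LL * e) (by positivity) he0 (regF_mono hRS le_rfl r2)
    (fun X hX => by rw [hS0 X hX]) (fun X hX => by
      obtain ⟨e₁, e₂, a1, a2, a3, a4⟩ := hSnd X hX
      exact ⟨e₁, e₂, a1, a2, a3, fun η hη => a4 η (hsub hη)⟩) hSm' hEm'
  have hconst : Cn * (LL * e) ≤ max (max LW LE) (Cn * LL) * e := by
    rw [← mul_assoc]
    exact mul_le_mul_of_nonneg_right (le_max_right _ _) hepos
  refine ⟨η, D, near_mono hη hconst (subset_refl _), near_mono hD hconst (subset_refl _), ?_⟩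
  intro p hp
  exact cc5_inj (heq p hp)

theorem p8_choose {e0 L1 L2 ε1 g Lq : ℝ} (he : 0 < e0) (hL1 : 1 ≤ L1) (hL2 : 1 ≤ L2) (hε : 0 < ε1)
    (hg : 0 < g) (hLq : 0 ≤ Lq) : ∃ μ0 : ℝ, 0 < μ0 ∧ ∀ μ, 0 < μ → μ < μ0 →
      L1 * μ ≤ g ∧ L2 * μ ≤ g ∧ μ ≤ ε1 * g ∧ μ ^ 2 * Lq ≤ 1 ∧ μ ^ 2 * Lq ≤ ε1 ∧
      (μ / g) ^ 2 ≤ e0 / 3 ∧ μ ^ 2 * Lq ≤ e0 / 3 ∧ μ ≤ g := by
  set m : ℝ := min (min (1 / L1) (1 / L2)) (min ε1 (min 1 (e0 / 3))) with hm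
  have hmpos : 0 < m := by
    simp only [hm, lt_min_iff]
    exact ⟨⟨by positivity, by positivity⟩, hε, one_pos, by positivity⟩
  set n : ℝ := min 1 (min ε1 (e0 / 3)) with hn
  have hnpos : 0 < n := by
    simp only [hn, lt_min_iff]
    exact ⟨one_pos, hε, by positivity⟩
  refine ⟨min (g * m) (min 1 (n / (Lq + 1))), ?_, ?_⟩
  · exact lt_min (by positivity) (lt_min one_pos (by positivity))
  intro μ hμ hμ0
  have h1 : μ ≤ g * m := (hμ0.trans_le (min_le_left _ _)).le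
  have h2 : μ ≤ 1 := (hμ0.trans_le ((min_le_right _ _).trans (min_le_left _ _))).le
  have h3 : μ ≤ n / (Lq + 1) := (hμ0.trans_le ((min_le_right _ _).trans (min_le_right _ _))).le
  rw [le_div_iff₀ (by positivity)] at h3
  have h4 : μ ^ 2 * Lq ≤ n := by nlinarith
  have m1 : m ≤ 1 / L1 := (min_le_left _ _).trans (min_le_left _ _)
  have m2 : m ≤ 1 / L2 := (min_le_left _ _).trans (min_le_right _ _)
  have m3 : m ≤ ε1 := (min_le_right _ _).trans (min_le_left _ _)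
  have m4 : m ≤ 1 := (min_le_right _ _).trans ((min_le_right _ _).trans (min_le_left _ _))
  have m5 : m ≤ e0 / 3 := (min_le_right _ _).trans ((min_le_right _ _).trans (min_le_right _ _))
  have k1 : L1 * m ≤ 1 := by
    rw [le_div_iff₀ (by linarith)] at m1; linarith
  have k2 : L2 * m ≤ 1 := by
    rw [le_div_iff₀ (by linarith)] at m2; linarith
  have k3 : μ / g ≤ m := by rw [div_le_iff₀ hg]; linarith
  have k4 : 0 < μ / g := by positivity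
  refine ⟨?_, ?_, ?_, h4.trans (min_le_left _ _), h4.trans ((min_le_right _ _).trans (min_le_left _ _)),
    ?_, h4.trans ((min_le_right _ _).trans (min_le_right _ _)), ?_⟩
  · nlinarith
  · nlinarith
  · nlinarith
  · nlinarith
  · nlinarith

theorem p8_num {c2 g cs : ℝ} (h1 : 0 < c2) (h2 : c2 ≤ 1) (h3 : 0 < g) (h4 : g ≤ 1) (h5 : g ≤ cs) :
    c2 ^ 2 / 8 * g ^ 2 ≤ cs / 2 := by
  have a1 : c2 ^ 2 ≤ 1 := by nlinarith
  have a2 : g ^ 2 ≤ cs := by nlinarith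
  nlinarith [sq_nonneg g, sq_nonneg c2]

theorem p8_cc : 0 < cc ∧ 1 ≤ cc * rh := by
  obtain ⟨h1, h2, h3, h4⟩ := kh_num
  have hr : 0 < rh := by linarith
  have hk : 0 < kh := by linarith
  have hcc : 0 < cc := by unfold cc; positivity
  refine ⟨hcc, ?_⟩
  have : cc * rh = 8 / (3 * rh * kh) := by
    unfold cc; field_simp
  rw [this, le_div_iff₀ (by positivity)]
  nlinarith

theorem p8_chart {C : ℝ} (hC : 0 < C ∧ C ≤ 1) (X Y : Pl) :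
    |(chart C X).1 - (chart C Y).1| ≤ ‖X - Y‖ ∧ |(chart C X).2 - (chart C Y).2| ≤ 3 * ‖X - Y‖ := by
  obtain ⟨h1, h2, h3, h4⟩ := kh_num
  have hC0 := hC.1
  have hr : 0 < rh := by linarith
  obtain ⟨hcc, hcr⟩ := p8_cc
  have a1 : |X.1 - Y.1| ≤ ‖X - Y‖ := norm_fst_le (X - Y)
  have a2 : |X.2 - Y.2| ≤ ‖X - Y‖ := norm_snd_le (X - Y)
  constructor
  · have e : (chart C X).1 - (chart C Y).1 = C / (cc * rh) * (X.1 - Y.1) := by
      simp only [chart]; ring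
    rw [e, abs_mul, abs_of_pos (by positivity : 0 < C / (cc * rh))]
    have : C / (cc * rh) ≤ 1 := by rw [div_le_one (by positivity)]; linarith
    nlinarith [abs_nonneg (X.1 - Y.1), (by positivity : 0 < C / (cc * rh))]
  · have e : (chart C X).2 - (chart C Y).2 = C / rh * (2 * (X.1 - Y.1) + (X.2 - Y.2)) := by
      simp only [chart]; ring
    rw [e, abs_mul, abs_of_pos (by positivity : 0 < C / rh)]
    have h5 : C / rh ≤ 1 := by rw [div_le_one (by positivity)]; linarith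
    have h6 : |2 * (X.1 - Y.1) + (X.2 - Y.2)| ≤ 3 * ‖X - Y‖ := by
      have := abs_add_le (2 * (X.1 - Y.1)) (X.2 - Y.2)
      rw [abs_mul, abs_two] at this
      linarith
    calc _ ≤ 1 * (3 * ‖X - Y‖) := mul_le_mul h5 h6 (abs_nonneg _) zero_le_one
      _ = _ := one_mul _

theorem p8_sqrt {a b : ℝ} (h : 1 / 2 ≤ Real.sqrt b) : |Real.sqrt a - Real.sqrt b| ≤ 2 * |a - b| := by
  have hb : 0 < b := by
    by_contra hb
    rw [Real.sqrt_eq_zero_of_nonpos (not_lt.1 hb)] at h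
    linarith
  rcases le_or_gt a 0 with ha | ha
  · rw [Real.sqrt_eq_zero_of_nonpos ha, zero_sub, abs_neg, abs_of_nonneg (Real.sqrt_nonneg _),
      abs_of_nonpos (by linarith)]
    have := Real.sq_sqrt hb.le
    nlinarith
  · have e : a - b = (Real.sqrt a - Real.sqrt b) * (Real.sqrt a + Real.sqrt b) := by
      have h1 := Real.sq_sqrt ha.le
      have h2 := Real.sq_sqrt hb.le
      nlinarith
    rw [e, abs_mul, abs_of_nonneg (by positivity : 0 ≤ Real.sqrt a + Real.sqrt b)]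
    nlinarith [abs_nonneg (Real.sqrt a - Real.sqrt b), Real.sqrt_nonneg a]

theorem p8_CD_near {C : ℝ} (hC : 0 < C ∧ C ≤ 1) {Y P : Pl} (hY : Y ∈ CD C)
    (h : ‖P - Y‖ ≤ 1 / 10000) :
    P ∈ CDw C ∧ |kap0 C (chart C P) - kap0 C (chart C Y)| ≤ 1 / 20 := by
  obtain ⟨k1, k2, k3, k4⟩ := kh_num
  have hC0 := hC.1
  obtain ⟨y1, y2, y3, y4⟩ := hY
  obtain ⟨c1, c2⟩ := p8_chart hC P Y
  set r := (chart C Y).1 with hr
  set p := (chart C Y).2 with hp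
  set r' := (chart C P).1 with hr'
  set p' := (chart C P).2 with hp'
  have c1' := abs_le.1 (c1.trans h)
  have c2' := abs_le.1 (c2.trans (mul_le_mul_of_nonneg_left h (by norm_num)))
  have y3' := abs_le.1 y3
  have y4' := abs_le.1 y4
  have r1 : 3 / 5 ≤ r := by linarith
  have r2 : 1 / 2 ≤ r' := by linarith
  -- difference of radicands
  have hk : |kap0 C (chart C P) - kap0 C (chart C Y)| ≤ 1 / 20 := by
    have hs : 1 / 2 ≤ kap0 C (chart C Y) := by linarith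
    refine (p8_sqrt hs).trans ?_
    have e : (2 / (ma * mb) * (E0 + 1 / (chart C P).1 - ((chart C P).2 ^ 2 + C ^ 2 / (chart C P).1 ^ 2) / 2)) -
        (2 / (ma * mb) * (E0 + 1 / (chart C Y).1 - ((chart C Y).2 ^ 2 + C ^ 2 / (chart C Y).1 ^ 2) / 2)) =
        32 / 3 * ((1 / r' - 1 / r) - (p' ^ 2 - p ^ 2) / 2 - C ^ 2 * (1 / r' ^ 2 - 1 / r ^ 2) / 2) := by
      simp only [ma, mb]; ring
    rw [e]
    have d1 : |1 / r' - 1 / r| ≤ 4 / 10000 := by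
      have : 1 / r' - 1 / r = (r - r') / (r * r') := by field_simp
      rw [this, abs_div, abs_of_pos (by positivity : 0 < r * r'), div_le_iff₀ (by positivity), abs_le]
      constructor <;> nlinarith
    have d2 : |1 / r' ^ 2 - 1 / r ^ 2| ≤ 16 / 10000 := by
      have : 1 / r' ^ 2 - 1 / r ^ 2 = (1 / r' - 1 / r) * (1 / r' + 1 / r) := by field_simp; ring
      rw [this, abs_mul]
      have h1 : |1 / r' + 1 / r| ≤ 4 := by
        have a : 1 / r' ≤ 2 := by rw [div_le_iff₀ (by linarith)]; linarith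
        have b : 1 / r ≤ 2 := by rw [div_le_iff₀ (by linarith)]; linarith
        have a' : 0 < 1 / r' := by positivity
        have b' : 0 < 1 / r := by positivity
        rw [abs_of_pos (by positivity)]; linarith
      calc _ ≤ 4 / 10000 * 4 := mul_le_mul d1 h1 (abs_nonneg _) (by norm_num)
        _ = _ := by norm_num
    have d3 : |p' ^ 2 - p ^ 2| ≤ 7 / 10000 := by
      rw [abs_le]
      constructor <;> nlinarith
    have d4 : |C ^ 2 * (1 / r' ^ 2 - 1 / r ^ 2)| ≤ 16 / 10000 := by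
      rw [abs_mul, abs_of_pos (by positivity : 0 < C ^ 2)]
      have : C ^ 2 ≤ 1 := by nlinarith
      nlinarith [abs_nonneg (1 / r' ^ 2 - 1 / r ^ 2), sq_nonneg C]
    rw [abs_mul, abs_of_pos (by norm_num : (0:ℝ) < 32 / 3)]
    have d5 : |1 / r' - 1 / r - (p' ^ 2 - p ^ 2) / 2 - C ^ 2 * (1 / r' ^ 2 - 1 / r ^ 2) / 2| ≤
        4 / 10000 + 7 / 10000 / 2 + 16 / 10000 / 2 := by
      have x1 := abs_le.1 d1
      have x3 := abs_le.1 d3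
      have x4 := abs_le.1 d4
      rw [abs_le]
      constructor <;> linarith
    nlinarith
  have hk' := abs_le.1 hk
  refine ⟨⟨by linarith, by linarith, ?_, ?_⟩, hk⟩
  · rw [abs_le]; constructor <;> linarith
  · rw [abs_le]; constructor <;> linarith

/-- the a posteriori part for one parameter `(X, b, b')` -/
theorem p8_post (i : Fin 2) (C : ℝ) (hC : 0 < C ∧ C ≤ 1) (c2 K : ℝ) (f0 q : LCS → LCS)
    (μ g Lq x te τs τa σ ε1 : ℝ) (X : Pl) (D : Dt) (b b' : ℝ) (P : Pl) (t0 : ℝ)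
    (hpost : ∀ (f0 q : LCS → LCS) (Lq μ g te : ℝ) (d d' : Dt) (b b' : ℝ),
      BL K K f0 → (∀ Z ∈ lcBox c2, f0 Z = lcf i 0 Z) → 0 ≤ Lq → BL Lq Lq q →
      0 < μ → μ ≤ ε1 * g → g ≤ ε1 → μ ^ 2 * Lq ≤ ε1 →
      (∀ Z ∈ lcBox c2, c2 ^ 2 / 8 * g ^ 2 ≤ ‖lcX Z‖ → f0 Z + (μ ^ 2) • q Z = lcf i (μ ^ 2) Z) →
      d ∈ DD c2 → d' ∈ DD c2 → b ∈ JJ → b' ∈ JJ → b ≠ 0 → b' ≠ 0 → 2 * τs ≤ te →
      (∀ τ ∈ Icc 0 te, flow (fun Z => f0 Z + (μ ^ 2) • q Z) τ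
        (stLC i (μ ^ 2) g (innV μ d b g)) ∈ lcBox c2) →
      (∀ τ ∈ Icc τs (te - τs), c2 ^ 2 / 8 * g ^ 2 ≤ ‖lcX (flow (fun Z => f0 Z + (μ ^ 2) • q Z) τ
        (stLC i (μ ^ 2) g (innV μ d b g)))‖) →
      lcSt i (flow (fun Z => f0 Z + (μ ^ 2) • q Z) te (stLC i (μ ^ 2) g (innV μ d b g))) =
        rev (innSt μ d' b' g) →
      (∀ τ ∈ Icc (te - τs) te, (flow (fun Z => f0 Z + (μ ^ 2) • q Z) τ
        (stLC i (μ ^ 2) g (innV μ d b g))).1 ≠ 0) ∧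
      ((∀ τ ∈ Icc τa (te - τa / 2), (flow (fun Z => f0 Z + (μ ^ 2) • q Z) τ
          (stLC i (μ ^ 2) g (innV μ d b g))).1 ≠ 0) →
        ∀ τ ∈ Icc τa (te - τa / 2),
          Reach (μ ^ 2) (innSt μ d b σ) (lcSt i (flow (fun Z => f0 Z + (μ ^ 2) • q Z) τ
            (stLC i (μ ^ 2) g (innV μ d b g)))) ∧
          (∀ τ' ∈ Icc τ (te - τa / 2),
            Reach (μ ^ 2) (lcSt i (flow (fun Z => f0 Z + (μ ^ 2) • q Z) τ
              (stLC i (μ ^ 2) g (innV μ d b g))))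
            (lcSt i (flow (fun Z => f0 Z + (μ ^ 2) • q Z) τ'
              (stLC i (μ ^ 2) g (innV μ d b g))))) ∧
          Reach (μ ^ 2) (lcSt i (flow (fun Z => f0 Z + (μ ^ 2) • q Z) τ
            (stLC i (μ ^ 2) g (innV μ d b g)))) (rev (innSt μ d' b' σ))))
    (hleg : ∀ g g', μ ≤ g → g ≤ g' → g' ≤ σ → ∀ d ∈ DD c2, ∀ β ∈ JJ, β ≠ 0 →
      Reach (μ ^ 2) (innSt μ d β g) (innSt μ d β g'))
    (hrot : ∀ g, μ ≤ g → g ≤ σ → ∀ α : ℝ, ∀ d ∈ DD c2, rotD α d ∈ DD c2 → ∀ β ∈ JJ,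
      innSt μ (rotD α d) β g = rot (Complex.exp (α * Complex.I)) (innSt μ d β g))
    (hint : ∀ g, μ ≤ g → g ≤ σ → ∀ d ∈ DD c2, ∀ β ∈ JJ, β ≠ 0 →
      Ham (μ ^ 2) (innSt μ d β g) = Ham (μ ^ 2) (outSt μ d.1 d.2.1 d.2.2.1 d.2.2.2 β) ∧
      Ang (innSt μ d β g) = Ang (outSt μ d.1 d.2.1 d.2.2.1 d.2.2.2 β) ∧
      Ham (μ ^ 2) (rev (innSt μ d β g)) = Ham (μ ^ 2) (innSt μ d β g) ∧
      Ang (rev (innSt μ d β g)) = - Ang (innSt μ d β g))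
    (henc : Ham (μ ^ 2) (outSt μ (chart C X).1 (Uenc C μ (chart C X).1 (chart C X).2 b)
        (kapE C μ (chart C X) x b) x b) = E0 ∧
      Ang (outSt μ (chart C X).1 (Uenc C μ (chart C X).1 (chart C X).2 b)
        (kapE C μ (chart C X) x b) x b) = C)
    (hid : D.1 ≠ 0 → 0 < D.2.2.1 →
      unchart C (‖D.1‖, ((starRingEnd ℂ) D.1 * D.2.1).re / ‖D.1‖) ∈ CDw C →
      |D.2.2.1 - kap0 C (‖D.1‖, ((starRingEnd ℂ) D.1 * D.2.1).re / ‖D.1‖)| ≤ 1 / 10 →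
      Ham (μ ^ 2) (outSt μ (revD D).1 (revD D).2.1 (revD D).2.2.1 (revD D).2.2.2 (-b')) = E0 →
      Ang (outSt μ (revD D).1 (revD D).2.1 (revD D).2.2.1 (revD D).2.2.2 (-b')) = -C →
      revD D = rotD (Complex.arg D.1) (inD C μ
        (unchart C (‖D.1‖, ((starRingEnd ℂ) D.1 * D.2.1).re / ‖D.1‖))
        (D.2.2.2 - Complex.arg D.1) b'))
    (hP : P = unchart C (‖D.1‖, ((starRingEnd ℂ) D.1 * D.2.1).re / ‖D.1‖))
    (hPw : P ∈ CDw C)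
    (hPκ : |D.2.2.1 - kap0 C (chart C P)| ≤ 1 / 10)
    (hc2 : 0 < c2) (hBL : BL K K f0) (hf0 : ∀ Z ∈ lcBox c2, f0 Z = lcf i 0 Z)
    (hLq : 0 ≤ Lq) (hBq : BL Lq Lq q) (hμ : 0 < μ) (hμg : μ ≤ ε1 * g) (hg : g ≤ ε1)
    (hμq : μ ^ 2 * Lq ≤ ε1) (hμσ : μ ≤ σ)
    (hqf : ∀ Z ∈ lcBox c2, c2 ^ 2 / 8 * g ^ 2 ≤ ‖lcX Z‖ → f0 Z + (μ ^ 2) • q Z = lcf i (μ ^ 2) Z)
    (hout : outD C μ X x b ∈ DD c2) (hinD : inD C μ P (D.2.2.2 - Complex.arg D.1) b' ∈ DD c2)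
    (hD : D ∈ DD c2) (hb : b ∈ JJ) (hb' : b' ∈ JJ) (hb0 : b ≠ 0) (hb0' : b' ≠ 0)
    (hτa : 0 < τa) (hτas : τa ≤ τs / 2) (hte : 2 * τs ≤ te) (hη : |te - t0| ≤ τa / 2)
    (hbox : ∀ τ ∈ Icc 0 te, Wf i (fun Z => f0 Z + (μ ^ 2) • q Z) C μ g X x b τ ∈ lcBox c2)
    (hX : ∀ τ ∈ Icc τs (te - τs), c2 ^ 2 / 8 * g ^ 2 ≤
      ‖lcX (Wf i (fun Z => f0 Z + (μ ^ 2) • q Z) C μ g X x b τ)‖)
    (hend : lcSt i (Wf i (fun Z => f0 Z + (μ ^ 2) • q Z) C μ g X x b te) =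
      rev (innSt μ (revD D) (-b') g))
    (hζ : ∀ τ ∈ Icc τa (t0 - τa), (Wf i (fun Z => f0 Z + (μ ^ 2) • q Z) C μ g X x b τ).1 ≠ 0) :
    (∀ s ∈ Icc μ σ, Reach (μ ^ 2) (outLeg C μ X x b s)
      (lcSt i (Wf i (fun Z => f0 Z + (μ ^ 2) • q Z) C μ g X x b τa))) ∧
    (∀ τ ∈ Icc τa (t0 - τa), ∀ τ' ∈ Icc τ (t0 - τa),
      Reach (μ ^ 2) (lcSt i (Wf i (fun Z => f0 Z + (μ ^ 2) • q Z) C μ g X x b τ))
        (lcSt i (Wf i (fun Z => f0 Z + (μ ^ 2) • q Z) C μ g X x b τ'))) ∧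
    (∀ s ∈ Icc μ σ, Reach (μ ^ 2)
      (lcSt i (Wf i (fun Z => f0 Z + (μ ^ 2) • q Z) C μ g X x b (t0 - τa)))
      (rot (Complex.exp (Complex.arg D.1 * Complex.I))
        (inLeg C μ P (D.2.2.2 - Complex.arg D.1) b' s))) := by
  have hJJ : ∀ t : ℝ, t ∈ JJ → -t ∈ JJ := by
    intro t ht
    simp only [JJ, mem_Icc] at ht ⊢
    constructor <;> linarith [ht.1, ht.2]
  have hrevD : revD D ∈ DD c2 := by
    obtain ⟨a1, a2, a3, a4, a5⟩ := hD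
    exact ⟨a1, a2, by simpa [revD] using a3, a4, a5⟩
  have hη' := abs_le.1 hη
  obtain ⟨p1, p2⟩ := hpost f0 q Lq μ g te (outD C μ X x b) (revD D) b (-b') hBL hf0 hLq hBq hμ hμg
    hg hμq hqf hout hrevD hb (hJJ _ hb') hb0 (neg_ne_zero.2 hb0') hte hbox hX hend
  have hζ' : ∀ τ ∈ Icc τa (te - τa / 2),
      (Wf i (fun Z => f0 Z + (μ ^ 2) • q Z) C μ g X x b τ).1 ≠ 0 := by
    intro τ hτ
    rcases le_or_gt τ (t0 - τa) with h1 | h1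
    · exact hζ τ ⟨hτ.1, h1⟩
    · exact p1 τ ⟨by linarith [hη'.2], by linarith [hτ.2]⟩
  have p3 := p2 hζ'
  have hsub : ∀ τ, τ ∈ Icc τa (t0 - τa) → τ ∈ Icc τa (te - τa / 2) := fun τ hτ =>
    ⟨hτ.1, by linarith [hτ.2, hη'.1]⟩
  have hlen : τa ≤ t0 - τa := by linarith [hη'.1, hη'.2]
  have hA : τa ∈ Icc τa (t0 - τa) := ⟨le_rfl, hlen⟩
  have hB : t0 - τa ∈ Icc τa (t0 - τa) := ⟨hlen, le_rfl⟩
  -- the first two claims
  have q1 : ∀ s ∈ Icc μ σ, Reach (μ ^ 2) (outLeg C μ X x b s)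
      (lcSt i (Wf i (fun Z => f0 Z + (μ ^ 2) • q Z) C μ g X x b τa)) := by
    intro s hs
    exact reach_trans (hleg s σ hs.1 hs.2 le_rfl _ hout b hb hb0) (p3 τa (hsub _ hA)).1
  have q3 : Reach (μ ^ 2) (lcSt i (Wf i (fun Z => f0 Z + (μ ^ 2) • q Z) C μ g X x b (t0 - τa)))
      (rev (innSt μ (revD D) (-b') σ)) := (p3 _ (hsub _ hB)).2.2
  refine ⟨q1, fun τ hτ τ' hτ' => (p3 τ (hsub τ hτ)).2.1 τ' ⟨hτ'.1, by
    linarith [hτ'.2, hη'.1]⟩, ?_⟩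
  -- integrals at the end
  have i1 := hint σ hμσ le_rfl _ hout b hb hb0
  have i2 := hint σ hμσ le_rfl _ hrevD (-b') (hJJ _ hb') (neg_ne_zero.2 hb0')
  have r1 : Reach (μ ^ 2) (innSt μ (outD C μ X x b) b σ) (rev (innSt μ (revD D) (-b') σ)) :=
    reach_trans (p3 τa (hsub _ hA)).1 (p3 τa (hsub _ hA)).2.2
  have hH : Ham (μ ^ 2) (outSt μ (revD D).1 (revD D).2.1 (revD D).2.2.1 (revD D).2.2.2 (-b')) = E0 := by
    rw [← i2.1, ← i2.2.2.1, ← reach_ham r1, i1.1]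
    exact henc.1
  have hAn : Ang (outSt μ (revD D).1 (revD D).2.1 (revD D).2.2.1 (revD D).2.2.2 (-b')) = -C := by
    have h1 : Ang (rev (innSt μ (revD D) (-b') σ)) = C := by
      rw [← reach_ang r1, i1.2.1]
      exact henc.2
    rw [← i2.2.1]
    rw [i2.2.2.2] at h1
    linarith
  have hD1 : D.1 ≠ 0 := by
    intro h0
    have := hD.1
    rw [h0] at this
    simp at this
    linarith
  have hchart : chart C P = (‖D.1‖, ((starRingEnd ℂ) D.1 * D.2.1).re / ‖D.1‖) := by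
    rw [hP]; exact chart_unchart C hC.1 _
  have key := hid hD1 (lt_of_lt_of_le hc2 hD.2.2.2.1) (hP ▸ hPw) (by rw [← hchart]; exact hPκ) hH hAn
  rw [← hP] at key
  intro s hs
  have r2 : Reach (μ ^ 2) (rev (innSt μ (revD D) (-b') σ)) (rev (innSt μ (revD D) (-b') s)) :=
    reach_rev (hleg s σ hs.1 hs.2 le_rfl _ hrevD (-b') (hJJ _ hb') (neg_ne_zero.2 hb0'))
  have e1 : rev (innSt μ (revD D) (-b') s) = rot (Complex.exp (Complex.arg D.1 * Complex.I))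
      (inLeg C μ P (D.2.2.2 - Complex.arg D.1) b' s) := by
    rw [key, hrot s hs.1 hs.2 _ _ hinD (key ▸ hrevD) (-b') (hJJ _ hb'), p8_rev_rot]
    rfl
  rw [← e1]
  exact reach_trans q3 r2

/-- P8, **Arc theorem.** -/
theorem arc_pr (i : Fin 2) (C : ℝ) (hC : 0 < C ∧ C ≤ 1) (O : Set (ℝ × ℝ)) (χ0 τ0 : ℝ × ℝ → ℝ)
    (F : ℝ × ℝ → ℝ × ℝ) (θ : ℝ × ℝ → ℝ) (h : ZArc i C O χ0 τ0 F θ)
    (hO : ∀ X ∈ O, X ∈ CD C ∧ F X ∈ CD C) (τ1 : ℝ) (hτ1 : 0 < τ1) :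
    ∃ τa σ : ℝ, 0 < τa ∧ τa ≤ τ1 ∧ (∀ X ∈ O, 4 * τa ≤ τ0 X) ∧ 0 < σ ∧ ∀ ε, 0 < ε →
      ∃ μ0 : ℝ, 0 < μ0 ∧ ∀ μ, 0 < μ → μ < μ0 → ∃ (w : WD) (ρ : Pl × ℝ × ℝ → ℂ)
        (Z : Pl × ℝ × ℝ × ℝ → LCS),
        WNear ε O w { F := F, χ := χ0, θ := θ } ∧
        (∀ p, ‖ρ p‖ = 1) ∧
        Near ε Z (fun p => Zd i (limD C p.1 (χ0 p.1)) p.2.2.2)
          {p | p.1 ∈ O ∧ p.2.1 ∈ JJ ∧ p.2.2.1 ∈ JJ ∧ p.2.2.2 ∈ Icc τa (τ0 p.1 - τa)} ∧
        ∀ X ∈ O, ∀ b ∈ JJ, ∀ b' ∈ JJ, b ≠ 0 → b' ≠ 0 →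
          (∀ τ ∈ Icc τa (τ0 X - τa), (Z (X, b, b', τ)).1 ≠ 0) →
          (∀ s ∈ Icc μ σ,
            Reach (μ ^ 2) (outLeg C μ X (w.Θ (X, b, b')) b s) (lcSt i (Z (X, b, b', τa)))) ∧
          (∀ τ ∈ Icc τa (τ0 X - τa), ∀ τ' ∈ Icc τ (τ0 X - τa),
            Reach (μ ^ 2) (lcSt i (Z (X, b, b', τ))) (lcSt i (Z (X, b, b', τ')))) ∧
          (∀ s ∈ Icc μ σ, Reach (μ ^ 2) (lcSt i (Z (X, b, b', τ0 X - τa)))
            (rot (ρ (X, b, b')) (inLeg C μ (w.P (X, b, b')) (w.Θ' (X, b, b')) b' s))) := by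
  -- limit data
  obtain ⟨c0, ρ0, T, hc0, hρ0, hT, hτ, hadm⟩ := arc_adm i C hC O χ0 τ0 F θ h hO
  obtain ⟨c1, hc1, hZd⟩ := Zd_spec i c0 hc0
  obtain ⟨cS, ρS, LS0, hcS, hρS, hLS0, hRZ0, hRS0, hLN0, _, _, hS0, hSD, hSF, hSreg, hSnd0,
    hSaway⟩ := arc_S0 i C hC O χ0 τ0 F θ h hO
  obtain ⟨Lz, hLzχ, hLzτ, hLzF, hLzθ⟩ := h.lip
  set LS : ℝ := max LS0 Lz with hLSdef
  have hLS : 1 ≤ LS := hLS0.trans (le_max_left _ _)
  have hLSa : LS0 ≤ LS := le_max_left _ _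
  have hLSb : Lz ≤ LS := le_max_right _ _
  have hLχ : Lip LS χ0 O := p8_lip_mono hLzχ hLSb (subset_refl _)
  have hLτ : Lip LS τ0 O := p8_lip_mono hLzτ hLSb (subset_refl _)
  have hLN : Lip LS (endN i C χ0 τ0 θ) O := p8_lip_mono hLN0 hLSa (subset_refl _)
  have hRZ := regF_mono hRZ0 hLSa (le_refl ρS)
  have hRS := regF_mono hRS0 hLSa (le_refl ρS)
  have hSnd : ∀ X ∈ O, ∃ e₁ e₂ : ℂ, cS ≤ |((starRingEnd ℂ) e₁ * e₂).im| ∧ ‖e₁‖ ≤ LS ∧ ‖e₂‖ ≤ LS ∧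
        ∀ η ∈ Metric.closedBall (0 : ℝ × ℝ) ρS,
          ‖(S0f i C χ0 τ0 θ (X, η)).1 - (e₁ * (η.1 : ℝ) + e₂ * (η.2 : ℝ))‖ ≤
            LS * (|η.1| + |η.2|) ^ 2 := by
    intro X hX
    obtain ⟨e₁, e₂, a1, a2, a3, a4⟩ := hSnd0 X hX
    refine ⟨e₁, e₂, a1, a2.trans hLSa, a3.trans hLSa, fun η hη => (a4 η hη).trans ?_⟩
    exact mul_le_mul_of_nonneg_right hLSa (by positivity)
  obtain ⟨μo, Lo, co, hμo, hLo, hco, hout⟩ := out_near C hC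
  -- the constant c2 and the cut off fields
  set c2 : ℝ := min (min 1 (c1 / 2)) (min (cS / 2) co) with hc2def
  have hc2 : 0 < c2 := by
    simp only [hc2def, lt_min_iff]
    exact ⟨⟨one_pos, by positivity⟩, by positivity, hco⟩
  have c2a : c2 ≤ 1 := (min_le_left _ _).trans (min_le_left _ _)
  have c2b : c2 ≤ c1 / 2 := (min_le_left _ _).trans (min_le_right _ _)
  have c2c : c2 ≤ cS / 2 := (min_le_right _ _).trans (min_le_left _ _)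
  have c2d : c2 ≤ co := (min_le_right _ _).trans (min_le_right _ _)
  obtain ⟨f0, K, hK, hBL, hReg, hf0, hq⟩ := field_cut i c2 hc2
  obtain ⟨Ln, εn, gn, hLn, hεn, hgn, hnew⟩ := p8_newton i C hC O χ0 τ0 F θ hO c0 ρ0 T c1 cS ρS LS c2
    K f0 hc0 hρ0 hT hτ hadm hZd hcS hρS hLS hLχ hLτ hRZ hRS hLN hS0 hSD hSreg hSnd hK hBL hReg
    (c2b.trans (by linarith)) hc2 hf0
  obtain ⟨σZ, LZ, hσZ, hLZ, hZn⟩ := Z_near i C hC f0 K T LS hBL hK hReg hT.le hLS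
  obtain ⟨Lw, εw, hLw, hεw, hwd⟩ := wd_near C cS LS hC.1 hcS hLS
  obtain ⟨μe, hμe, hid⟩ := end_ident C hC
  obtain ⟨μi, hμi, henc⟩ := enc_integrals C hC
  obtain ⟨σl, hσl, hleg⟩ := leg_reach c2 hc2
  obtain ⟨σr, hσr, hrot⟩ := inn_rot c2 hc2
  obtain ⟨σi, hσi, hint⟩ := leg_integrals c2 hc2
  obtain ⟨τ2, hτ2, hpost0⟩ := arc_post i c2 K hc2 hK
  -- times
  set τs : ℝ := min τ2 ρ0 with hτs
  have hτspos : 0 < τs := lt_min hτ2 hρ0
  have τs1 : τs ≤ τ2 := min_le_left _ _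
  have τs2 : τs ≤ ρ0 := min_le_right _ _
  obtain ⟨cs, hcs, haway⟩ := hSaway (τs / 2) (by positivity)
  set τa : ℝ := min (τs / 2) τ1 with hτa
  have hτapos : 0 < τa := lt_min (by positivity) hτ1
  have τa1 : τa ≤ τs / 2 := min_le_left _ _
  have τa2 : τa ≤ τ1 := min_le_right _ _
  obtain ⟨σ, ε1, hσ, hσ1, hε1, hpost⟩ := hpost0 τs hτspos τs1 τa hτapos (by linarith)
    (min σl (min σr σi)) (lt_min hσl (lt_min hσr hσi))
  have s1 : σ ≤ σl := hσ1.trans (min_le_left _ _)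
  have s2 : σ ≤ σr := hσ1.trans ((min_le_right _ _).trans (min_le_left _ _))
  have s3 : σ ≤ σi := hσ1.trans ((min_le_right _ _).trans (min_le_right _ _))
  refine ⟨τa, σ, hτapos, τa2, fun X hX => by linarith [(hτ X hX).1], hσ, fun ε hε => ?_⟩
  -- the total error e0
  set B : ℝ := 1 / c2 with hBdef
  have hBpos : 0 < B := by positivity
  set m1 : ℝ := min (min (min ε (τa / 2)) (min ρ0 (cS / 2))) (min (min (1 / cS) (1 / 20)) (min εw 1))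
    with hm1
  have hm1pos : 0 < m1 := by
    simp only [hm1, lt_min_iff]
    exact ⟨⟨⟨hε, by positivity⟩, hρ0, by positivity⟩, ⟨by positivity, by norm_num⟩, hεw, one_pos⟩
  set m2 : ℝ := min ε (1 / 10000) with hm2
  have hm2pos : 0 < m2 := lt_min hε (by norm_num)
  set m3 : ℝ := min (min ε (c1 / 2)) (min (1 / c1) (cs / (2 * (2 * B + 1)))) with hm3
  have hm3pos : 0 < m3 := by
    simp only [hm3, lt_min_iff]
    exact ⟨⟨hε, by positivity⟩, by positivity, by positivity⟩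
  set e0 : ℝ := min (min εn (m1 / Ln)) (min (m2 / (Lw * Ln)) (m3 / (LZ * (1 + Ln)))) with he0
  have he0pos : 0 < e0 := by
    simp only [he0, lt_min_iff]
    exact ⟨⟨hεn, by positivity⟩, by positivity, by positivity⟩
  -- the scale g
  set g : ℝ := min (min (min gn σZ) (min ε1 (e0 / 3))) (min (min 1 cs) σ) with hg
  have hgpos : 0 < g := by
    simp only [hg, lt_min_iff]
    exact ⟨⟨⟨hgn, hσZ⟩, hε1, by positivity⟩, ⟨one_pos, hcs⟩, hσ⟩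
  have g1 : g ≤ gn := (min_le_left _ _).trans ((min_le_left _ _).trans (min_le_left _ _))
  have g2 : g ≤ σZ := (min_le_left _ _).trans ((min_le_left _ _).trans (min_le_right _ _))
  have g3 : g ≤ ε1 := (min_le_left _ _).trans ((min_le_right _ _).trans (min_le_left _ _))
  have g4 : g ≤ e0 / 3 := (min_le_left _ _).trans ((min_le_right _ _).trans (min_le_right _ _))
  have g5 : g ≤ 1 := (min_le_right _ _).trans ((min_le_left _ _).trans (min_le_left _ _))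
  have g6 : g ≤ cs := (min_le_right _ _).trans ((min_le_left _ _).trans (min_le_right _ _))
  have g7 : g ≤ σ := (min_le_right _ _).trans (min_le_right _ _)
  obtain ⟨q, Lq, hLq, hBq, hqf⟩ := hq (c2 ^ 2 / 8 * g ^ 2) (by positivity)
  obtain ⟨μ1, hμ1, hch⟩ := p8_choose he0pos hLn hLZ hε1 hgpos hLq
  refine ⟨min μ1 (min μo (min μe μi)), lt_min hμ1 (lt_min hμo (lt_min hμe hμi)), ?_⟩
  intro μ hμ hμ0
  have hμa : μ < μ1 := hμ0.trans_le (min_le_left _ _)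
  have hμb : μ < μo := hμ0.trans_le ((min_le_right _ _).trans (min_le_left _ _))
  have hμc : μ < μe := hμ0.trans_le ((min_le_right _ _).trans ((min_le_right _ _).trans (min_le_left _ _)))
  have hμd : μ < μi := hμ0.trans_le ((min_le_right _ _).trans ((min_le_right _ _).trans (min_le_right _ _)))
  obtain ⟨k1, k2, k3, k4, k5, k6, k7, k8⟩ := hch μ hμ hμa
  set e : ℝ := g + (μ / g) ^ 2 + μ ^ 2 * Lq with hedef
  have hepos : 0 ≤ e := by positivity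
  have hee : e ≤ e0 := by rw [hedef]; linarith
  have e1 : e ≤ εn := hee.trans ((min_le_left _ _).trans (min_le_left _ _))
  have e2 : Ln * e ≤ m1 := by
    have := hee.trans ((min_le_left _ _).trans (min_le_right _ _))
    rw [le_div_iff₀ (by linarith)] at this; linarith
  have e3 : Lw * (Ln * e) ≤ m2 := by
    have := hee.trans ((min_le_right _ _).trans (min_le_left _ _))
    rw [le_div_iff₀ (by positivity)] at this
    have e' : Lw * (Ln * e) = e * (Lw * Ln) := by ring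
    rw [e']; exact this
  have e4 : LZ * (e + Ln * e) ≤ m3 := by
    have := hee.trans ((min_le_right _ _).trans (min_le_right _ _))
    rw [le_div_iff₀ (by positivity)] at this
    have e' : LZ * (e + Ln * e) = e * (LZ * (1 + Ln)) := by ring
    rw [e']; exact this
  have f1 : Ln * e ≤ ε := e2.trans ((min_le_left _ _).trans ((min_le_left _ _).trans (min_le_left _ _)))
  have f2 : Ln * e ≤ τa / 2 :=
    e2.trans ((min_le_left _ _).trans ((min_le_left _ _).trans (min_le_right _ _)))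
  have f3 : Ln * e ≤ ρ0 := e2.trans ((min_le_left _ _).trans ((min_le_right _ _).trans (min_le_left _ _)))
  have f4 : Ln * e ≤ cS / 2 :=
    e2.trans ((min_le_left _ _).trans ((min_le_right _ _).trans (min_le_right _ _)))
  have f5 : Ln * e ≤ 1 / cS :=
    e2.trans ((min_le_right _ _).trans ((min_le_left _ _).trans (min_le_left _ _)))
  have f6 : Ln * e ≤ 1 / 20 :=
    e2.trans ((min_le_right _ _).trans ((min_le_left _ _).trans (min_le_right _ _)))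
  have f7 : Ln * e ≤ εw :=
    e2.trans ((min_le_right _ _).trans ((min_le_right _ _).trans (min_le_left _ _)))
  have f8 : Ln * e ≤ 1 :=
    e2.trans ((min_le_right _ _).trans ((min_le_right _ _).trans (min_le_right _ _)))
  have f9 : Lw * (Ln * e) ≤ ε := e3.trans (min_le_left _ _)
  have f10 : Lw * (Ln * e) ≤ 1 / 10000 := e3.trans (min_le_right _ _)
  have f11 : LZ * (e + Ln * e) ≤ ε := e4.trans ((min_le_left _ _).trans (min_le_left _ _))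
  have f12 : LZ * (e + Ln * e) ≤ c1 / 2 := e4.trans ((min_le_left _ _).trans (min_le_right _ _))
  have f13 : LZ * (e + Ln * e) ≤ 1 / c1 := e4.trans ((min_le_right _ _).trans (min_le_left _ _))
  have f14 : LZ * (e + Ln * e) ≤ cs / (2 * (2 * B + 1)) :=
    e4.trans ((min_le_right _ _).trans (min_le_right _ _))
  have hLne : 0 ≤ Ln * e := by positivity
  -- the Newton solution
  obtain ⟨η, D, hη, hD, heq⟩ := hnew μ g Lq q hμ k1 g1 hLq hBq k4 e1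
  -- closeness of the orbits
  have hx : Near (Ln * e) (fun p : Pl × ℝ × ℝ => χ0 p.1 + (η p).1) (fun p => χ0 p.1)
      (O ×ˢ (JJ ×ˢ JJ)) := by
    have h1 := near_fst hη
    constructor
    · intro p hp
      have := h1.1 p hp
      simp only [Prod.fst_zero, sub_zero] at this
      simpa using this
    · intro p hp q hq
      have := h1.2 p hp q hq
      simp only [Prod.fst_zero, sub_zero] at this
      have e : (χ0 p.1 + (η p).1 - χ0 p.1 - (χ0 q.1 + (η q).1 - χ0 q.1)) = (η p).1 - (η q).1 := by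
        ring
      rw [e]; exact this
  have hZ1 := hZn μ g Lq (Ln * e) q hμ k2 g2 hLq hBq k4 hLne f8 O χ0
    (fun p => χ0 p.1 + (η p).1) (fun X hX => CD_sub C (hO X hX).1) hLχ hx
  have hcongr : g + (μ / g) ^ 2 + μ ^ 2 * Lq + Ln * e = e + Ln * e := by rw [hedef]
  rw [hcongr] at hZ1
  -- the limit in terms of `Zd`
  have hlim : ∀ X ∈ O, ∀ τ, 0 ≤ τ → flow f0 τ (toLC i 0 (colD (limD C X (χ0 X)))) =
      Zd i (limD C X (χ0 X)) τ := by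
    intro X hX τ hτ0
    symm
    exact Zd_flow i c0 c1 hc0 f0 K hBL
      (fun Z hZ => hf0 Z (p8_box_mono (c2b.trans (by linarith)) hc2 hZ)) hZd _
      (hadm X hX _ (by simp [hρ0.le])) τ hτ0
  set W : Pl × ℝ × ℝ × ℝ → LCS := fun p => Wf i (fun Z => f0 Z + (μ ^ 2) • q Z) C μ g p.1
          (χ0 p.1 + (η (p.1, p.2.1, p.2.2.1)).1) p.2.1 p.2.2.2 with hW
  have hZ2 : Near (LZ * (e + Ln * e)) W (fun p => Zd i (limD C p.1 (χ0 p.1)) p.2.2.2)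
      {p | p.1 ∈ O ∧ p.2.1 ∈ JJ ∧ p.2.2.1 ∈ JJ ∧ p.2.2.2 ∈ Icc 0 T} :=
    p8_near_congr hZ1 (fun p _ => rfl) (fun p hp => hlim p.1 hp.1 _ hp.2.2.2.1)
  -- closeness of the word
  have hSL : Lip LS (fun p : Pl × ℝ × ℝ => (S0f i C χ0 τ0 θ (p.1, 0)).2) (O ×ˢ (JJ ×ˢ JJ)) := by
    intro p hp q hq
    have h1 := hRS.1 (p.1, 0) ⟨hp.1, Metric.mem_closedBall_self hρS.le⟩ (q.1, 0)
      ⟨hq.1, Metric.mem_closedBall_self hρS.le⟩
    have h2 : dist (p.1, (0 : ℝ × ℝ)) (q.1, (0 : ℝ × ℝ)) ≤ dist p q := by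
      rw [Prod.dist_eq]
      simp only [dist_self]
      exact max_le (le_max_left _ _) dist_nonneg
    exact ((norm_snd_le _).trans h1).trans (mul_le_mul_of_nonneg_left h2 (by linarith))
  obtain ⟨hwP, hwΘ⟩ := hwd (O ×ˢ (JJ ×ˢ JJ)) D (fun p => (S0f i C χ0 τ0 θ (p.1, 0)).2) (Ln * e) hLne f7
    hSL hD (fun p hp => hSD p.1 hp.1)
  have hFX : ∀ X ∈ O, unchart C (‖(S0f i C χ0 τ0 θ (X, 0)).2.1‖,
      ((starRingEnd ℂ) (S0f i C χ0 τ0 θ (X, 0)).2.1 * (S0f i C χ0 τ0 θ (X, 0)).2.2.1).re /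
        ‖(S0f i C χ0 τ0 θ (X, 0)).2.1‖) = F X := by
    intro X hX
    rw [hS0 X hX]
    simp only
    rw [← (hSF X hX).1, ← unchart_chart C hC.1 (F X)]
    congr 1
    rw [unchart_chart C hC.1]
    ext
    · rfl
    · simp only
      rw [(hSF X hX).2, (hSF X hX).1]
  have hwP' : Near (Lw * (Ln * e))
      (fun p => unchart C (‖(D p).1‖, ((starRingEnd ℂ) (D p).1 * (D p).2.1).re / ‖(D p).1‖))
      (fun p : Pl × ℝ × ℝ => F p.1) (O ×ˢ (JJ ×ˢ JJ)) :=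
    p8_near_congr hwP (fun _ _ => rfl) (fun p hp => hFX p.1 hp.1)
  have hwΘ' : Near (Lw * (Ln * e)) (fun p => (D p).2.2.2 - Complex.arg (D p).1)
      (fun p : Pl × ℝ × ℝ => θ p.1) (O ×ˢ (JJ ×ˢ JJ)) := by
    refine p8_near_congr hwΘ (fun _ _ => rfl) (fun p hp => ?_)
    rw [hS0 p.1 hp.1]
    simp only [endN]
    ring
  refine ⟨⟨fun p => unchart C (‖(D p).1‖, ((starRingEnd ℂ) (D p).1 * (D p).2.1).re / ‖(D p).1‖),
    fun p => χ0 p.1 + (η p).1, fun p => (D p).2.2.2 - Complex.arg (D p).1⟩,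
    fun p => Complex.exp (Complex.arg (D p).1 * Complex.I), W, ⟨?_, ?_, ?_⟩, ?_, ?_, ?_⟩
  · exact near_mono hwP' f9 (subset_refl _)
  · exact near_mono hx f1 (subset_refl _)
  · exact near_mono hwΘ' f9 (subset_refl _)
  · intro p; exact Complex.norm_exp_ofReal_mul_I _
  · refine near_mono hZ2 f11 ?_
    rintro p ⟨a1, a2, a3, a4⟩
    exact ⟨a1, a2, a3, hτapos.le.trans a4.1, by linarith [a4.2, (hτ p.1 a1).2]⟩
  -- the orbits
  intro X hX b hb b' hb' hb0 hb0' hζ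
  have hmem : (X, b, b') ∈ O ×ˢ (JJ ×ˢ JJ) := ⟨hX, hb, hb'⟩
  have hη1 : ‖η (X, b, b')‖ ≤ Ln * e := by simpa using hη.1 _ hmem
  have hη2 : |(η (X, b, b')).2| ≤ Ln * e := (norm_snd_le _).trans hη1
  have hη2' := abs_le.1 hη2
  have hDm : D (X, b, b') ∈ DD c2 :=
    p8_DD_mono c2c hc2 (p8_DD_near hcS (hSD X hX) (hD.1 _ hmem) f4 f5)
  have hPF : ‖unchart C (‖(D (X, b, b')).1‖, ((starRingEnd ℂ) (D (X, b, b')).1 *
      (D (X, b, b')).2.1).re / ‖(D (X, b, b')).1‖) - F X‖ ≤ 1 / 10000 := (hwP'.1 _ hmem).trans f10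
  obtain ⟨hPw, hPk⟩ := p8_CD_near hC (hO X hX).2 hPF
  have hτX := hτ X hX
  have hte : τ0 X + (η (X, b, b')).2 ≤ T := by linarith [hη2'.2]
  have hcl : ∀ τ, 0 ≤ τ → τ ≤ T → ‖W (X, b, b', τ) - Zd i (limD C X (χ0 X)) τ‖ ≤
      LZ * (e + Ln * e) := fun τ h1 h2 => hZ2.1 (X, b, b', τ) ⟨hX, hb, hb', h1, h2⟩
  have hZbox : ∀ τ, Zd i (limD C X (χ0 X)) τ ∈ lcBox c1 := fun τ =>
    ((hZd _ (hadm X hX _ (by simp [hρ0.le]))).2 τ).1
  have hWbox : ∀ τ, 0 ≤ τ → τ ≤ T → W (X, b, b', τ) ∈ lcBox c2 := fun τ h1 h2 =>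
    p8_box_mono c2b hc2 (p8_box_near hc1 (hZbox τ) (hcl τ h1 h2) f12 f13)
  refine p8_post i C hC c2 K f0 q μ g Lq (χ0 X + (η (X, b, b')).1) (τ0 X + (η (X, b, b')).2) τs τa σ
    ε1 X (D (X, b, b')) b b' _ (τ0 X) hpost
    (fun g g' h1 h2 h3 => hleg μ g g' hμ h1 h2 (h3.trans s1))
    (fun g h1 h2 => hrot μ g hμ h1 (h2.trans s2)) (fun g h1 h2 => hint μ g hμ h1 (h2.trans s3))
    (henc μ hμ hμd X (CD_sub C (hO X hX).1) _ b hb hb0)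
    (hid μ hμ hμc (D (X, b, b')) b' hb' hb0') rfl hPw ?_ hc2 hBL hf0 hLq hBq hμ k3 g3 k5
    (k8.trans g7) (fun Z h1 h2 => hqf Z h1 h2 _) ?_ ?_ hDm hb hb' hb0 hb0' hτapos τa1 ?_ ?_ ?_ ?_
    (heq _ hmem) hζ
  · -- closeness of kappa
    have h1 : |(D (X, b, b')).2.2.1 - kap0 C (chart C (F X))| ≤ 1 / 20 := by
      have := hD.1 _ hmem
      have h2 := (norm_snd_le _).trans this
      have h3 := (norm_snd_le _).trans h2
      have h4 := (norm_fst_le _).trans h3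
      rw [Real.norm_eq_abs] at h4
      have e : (D (X, b, b') - (S0f i C χ0 τ0 θ ((X, b, b').1, 0)).2).2.2.1 =
          (D (X, b, b')).2.2.1 - kap0 C (chart C (F X)) := by
        simp only [hS0 X hX]; rfl
      rw [e] at h4
      exact h4.trans f6
    have h5 := abs_le.1 h1
    have h6 := abs_le.1 hPk
    rw [abs_le]; constructor <;> linarith
  · exact p8_DD_mono c2d hc2 ((hout μ hμ hμb).2 X (CD_sub C (hO X hX).1) _ b hb).1
  · exact p8_DD_mono c2d hc2 ((hout μ hμ hμb).2 _ hPw _ b' hb').2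
  · linarith [hη2'.1]
  · have : τ0 X + (η (X, b, b')).2 - τ0 X = (η (X, b, b')).2 := by ring
    rw [this]; exact hη2.trans f2
  · intro τ hτ3
    exact hWbox τ hτ3.1 (hτ3.2.trans hte)
  · intro τ hτ3
    have t1 : 0 ≤ τ := hτspos.le.trans hτ3.1
    have t2 : τ ≤ T := hτ3.2.trans (by linarith)
    have h1 := haway X hX τ ⟨by linarith [hτ3.1], by linarith [hτ3.2, hη2'.2]⟩
    have h2 : ‖lcX (W (X, b, b', τ)) - lcX (Zd i (limD C X (χ0 X)) τ)‖ ≤ (2 * B + 1) *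
        ‖W (X, b, b', τ) - Zd i (limD C X (χ0 X)) τ‖ :=
      p8_lcX hBpos.le ((p8_box_mono (c2b.trans (by linarith)) hc2 (hZbox τ)).1) (hWbox τ t1 t2).1
    have h3 : (2 * B + 1) * ‖W (X, b, b', τ) - Zd i (limD C X (χ0 X)) τ‖ ≤ cs / 2 := by
      have := (hcl τ t1 t2).trans f14
      rw [le_div_iff₀ (by positivity)] at this
      linarith
    have h4 : ‖lcX (Zd i (limD C X (χ0 X)) τ)‖ ≤ ‖lcX (W (X, b, b', τ))‖ +
        ‖lcX (W (X, b, b', τ)) - lcX (Zd i (limD C X (χ0 X)) τ)‖ := by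
      calc _ = ‖lcX (W (X, b, b', τ)) - (lcX (W (X, b, b', τ)) -
            lcX (Zd i (limD C X (χ0 X)) τ))‖ := by congr 1; ring
        _ ≤ _ := norm_sub_le _ _
    have h5 : c2 ^ 2 / 8 * g ^ 2 ≤ cs / 2 := p8_num hc2 c2a hgpos g5 g6
    show c2 ^ 2 / 8 * g ^ 2 ≤ ‖lcX (W (X, b, b', τ))‖
    linarith

end

end Pool.Agent.HS

namespace Pool.Agent.HS
open Set Filter Topology Classical

theorem arc (i : Fin 2) (C : ℝ) (hC : 0 < C ∧ C ≤ 1) (O : Set (ℝ × ℝ)) (χ0 τ0 : ℝ × ℝ → ℝ)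
    (F : ℝ × ℝ → ℝ × ℝ) (θ : ℝ × ℝ → ℝ) (h : ZArc i C O χ0 τ0 F θ)
    (hO : ∀ X ∈ O, X ∈ CD C ∧ F X ∈ CD C) (τ1 : ℝ) (hτ1 : 0 < τ1) :
    ∃ τa σ : ℝ, 0 < τa ∧ τa ≤ τ1 ∧ (∀ X ∈ O, 4 * τa ≤ τ0 X) ∧ 0 < σ ∧ ∀ ε, 0 < ε →
      ∃ μ0 : ℝ, 0 < μ0 ∧ ∀ μ, 0 < μ → μ < μ0 → ∃ (w : WD) (ρ : Pl × ℝ × ℝ → ℂ)
        (Z : Pl × ℝ × ℝ × ℝ → LCS),
        WNear ε O w { F := F, χ := χ0, θ := θ } ∧
        (∀ p, ‖ρ p‖ = 1) ∧
        Near ε Z (fun p => Zd i (limD C p.1 (χ0 p.1)) p.2.2.2)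
          {p | p.1 ∈ O ∧ p.2.1 ∈ JJ ∧ p.2.2.1 ∈ JJ ∧ p.2.2.2 ∈ Icc τa (τ0 p.1 - τa)} ∧
        ∀ X ∈ O, ∀ b ∈ JJ, ∀ b' ∈ JJ, b ≠ 0 → b' ≠ 0 →
          (∀ τ ∈ Icc τa (τ0 X - τa), (Z (X, b, b', τ)).1 ≠ 0) →
          (∀ s ∈ Icc μ σ,
            Reach (μ ^ 2) (outLeg C μ X (w.Θ (X, b, b')) b s) (lcSt i (Z (X, b, b', τa)))) ∧
          (∀ τ ∈ Icc τa (τ0 X - τa), ∀ τ' ∈ Icc τ (τ0 X - τa),
            Reach (μ ^ 2) (lcSt i (Z (X, b, b', τ))) (lcSt i (Z (X, b, b', τ')))) ∧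
          (∀ s ∈ Icc μ σ, Reach (μ ^ 2) (lcSt i (Z (X, b, b', τ0 X - τa)))
            (rot (ρ (X, b, b')) (inLeg C μ (w.P (X, b, b')) (w.Θ' (X, b, b')) b' s))) :=
  @Pool.Agent.HS.arc_pr i C hC O χ0 τ0 F θ h hO τ1 hτ1

end Pool.Agent.HS
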