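import Pool.Agent.Lib_helper60.HSF.D_WE2
import Pool.Agent.Lib_helper60.HSF.IO_P8
import Pool.Agent.Lib_helper60.HSF.E_E0a
import Pool.Agent.Lib_helper60.HSF.E_E1c
import Pool.Agent.Lib_helper60.HSF.IO_R2

/-!
# E1e: arc package (helper4)
-/

namespace Pool.Agent.HS

noncomputable section

open Set Filter Topology Classical

/-- a positive family over a finite index set has a positive lower bound -/
theorem e1e_finpos {n : ℕ} (f : Fin n → ℝ) (hf : ∀ j, 0 < f j) :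
    ∃ δ : ℝ, 0 < δ ∧ ∀ j, δ ≤ f j := by
  rcases isEmpty_or_nonempty (Fin n) with hE | hN
  · exact ⟨1, one_pos, fun j => (hE.false j).elim⟩
  · obtain ⟨j0, hj0⟩ := Finite.exists_min f
    exact ⟨f j0, hf j0, hj0⟩

/-- Lipschitz functions in the sense of `Lip` are continuous -/
theorem e1e_lip_cont {α E : Type*} [PseudoMetricSpace α] [NormedAddCommGroup E] {L : ℝ}
    {f : α → E} {S : Set α} (h : Lip L f S) : ContinuousOn f S := by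
  have h' : LipschitzOnWith (Real.toNNReal (max L 0)) f S := by
    apply LipschitzOnWith.of_dist_le_mul
    intro x hx y hy
    rw [dist_eq_norm, Real.coe_toNNReal _ (le_max_right _ _)]
    exact le_trans (h x hx y hy) (mul_le_mul_of_nonneg_right (le_max_left _ _) dist_nonneg)
  exact h'.continuousOn

/-- `Near` is monotone -/
theorem e1e_near_mono {α E : Type*} [PseudoMetricSpace α] [NormedAddCommGroup E] {ε ε' : ℝ}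
    {f g : α → E} {S : Set α} (h : Near ε f g S) (hε : ε ≤ ε') : Near ε' f g S := by
  refine ⟨fun p hp => le_trans (h.1 p hp) hε, fun p hp q hq => le_trans (h.2 p hp q hq) ?_⟩
  exact mul_le_mul_of_nonneg_right hε dist_nonneg

/-- distance of the windows from the ends of the arc -/
theorem e1e_margin {O : Set Pl} {τ0 : Pl → ℝ} (hO : IsCompact O) (hτ : ContinuousOn τ0 O)
    (he : ℝ) (n : ℕ) (τm : Fin n → ℝ)
    (h2 : ∀ j, ∀ X ∈ O, 0 < τm j - he ∧ τm j + he < τ0 X) :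
    ∃ δ : ℝ, 0 < δ ∧ ∀ j, ∀ X ∈ O, δ ≤ τm j - he ∧ τm j + he ≤ τ0 X - δ := by
  rcases O.eq_empty_or_nonempty with hE | hN
  · refine ⟨1, one_pos, fun j X hX => ?_⟩
    rw [hE] at hX
    exact hX.elim
  · obtain ⟨X0, hX0, hmin⟩ := hO.exists_isMinOn hN hτ
    obtain ⟨δ, hδ, hδ'⟩ := e1e_finpos (fun j => min (τm j - he) (τ0 X0 - (τm j + he)))
      (fun j => lt_min (h2 j X0 hX0).1 (sub_pos.2 (h2 j X0 hX0).2))
    refine ⟨δ, hδ, fun j X hX => ⟨le_trans (hδ' j) (min_le_left _ _), ?_⟩⟩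
    have h1 : δ ≤ τ0 X0 - (τm j + he) := le_trans (hδ' j) (min_le_right _ _)
    have h3 : τ0 X0 ≤ τ0 X := hmin hX
    linarith

/-- lower bound for a continuous function outside the windows -/
theorem e1e_lower {O : Set Pl} {τ0 : Pl → ℝ} (hO : IsCompact O) (hτ : ContinuousOn τ0 O)
    (he : ℝ) (n : ℕ) (τm : Fin n → ℝ) (τa T : ℝ) (hτa : 0 ≤ τa)
    (hT : ∀ X ∈ O, τ0 X ≤ T) {f : Pl × ℝ → ℝ} (hf : ContinuousOn f (O ×ˢ Icc 0 T))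
    (hpos : ∀ X ∈ O, ∀ τ ∈ Icc τa (τ0 X - τa), (∀ j, he ≤ |τ - τm j|) → 0 < f (X, τ)) :
    ∃ c : ℝ, 0 < c ∧ ∀ X ∈ O, ∀ τ ∈ Icc τa (τ0 X - τa), (∀ j, he ≤ |τ - τm j|) →
      c ≤ f (X, τ) := by
  set K : Set (Pl × ℝ) := {q | q.1 ∈ O ∧ q.2 ∈ Icc τa (τ0 q.1 - τa) ∧ ∀ j, he ≤ |q.2 - τm j|}
    with hK
  have hsub : K ⊆ O ×ˢ Icc 0 T := by
    intro q hq
    refine ⟨hq.1, le_trans hτa hq.2.1.1, ?_⟩
    have h1 := hq.2.1.2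
    have h2 := hT q.1 hq.1
    linarith
  have hC1 : IsCompact (O ×ˢ Icc (0:ℝ) T) := hO.prod isCompact_Icc
  have hg : ContinuousOn (fun q : Pl × ℝ => τ0 q.1 - τa - q.2) (O ×ˢ Icc 0 T) := by
    refine ContinuousOn.sub (ContinuousOn.sub ?_ continuousOn_const) continuousOn_snd
    exact hτ.comp continuousOn_fst (fun q hq => hq.1)
  have hcl1 : IsClosed ((O ×ˢ Icc (0:ℝ) T) ∩ (fun q : Pl × ℝ => τ0 q.1 - τa - q.2) ⁻¹' Ici 0) :=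
    hg.preimage_isClosed_of_isClosed hC1.isClosed isClosed_Ici
  have hcl2 : IsClosed {q : Pl × ℝ | τa ≤ q.2} := isClosed_le continuous_const continuous_snd
  have hcl3 : IsClosed {q : Pl × ℝ | ∀ j, he ≤ |q.2 - τm j|} := by
    rw [Set.ofPred_forall]
    exact isClosed_iInter (fun j => isClosed_le continuous_const
      ((continuous_snd.sub continuous_const).abs))
  have hKeq : K = (((O ×ˢ Icc (0:ℝ) T) ∩ (fun q : Pl × ℝ => τ0 q.1 - τa - q.2) ⁻¹' Ici 0) ∩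
      {q : Pl × ℝ | τa ≤ q.2}) ∩ {q : Pl × ℝ | ∀ j, he ≤ |q.2 - τm j|} := by
    ext q
    constructor
    · intro hq
      refine ⟨⟨⟨hsub hq, ?_⟩, hq.2.1.1⟩, hq.2.2⟩
      have h1 := hq.2.1.2
      simp only [mem_preimage, mem_Ici]
      linarith
    · rintro ⟨⟨⟨h1, h2⟩, h3⟩, h4⟩
      simp only [mem_preimage, mem_Ici] at h2
      exact ⟨h1.1, ⟨h3, by linarith⟩, h4⟩
  have hKc : IsCompact K := by
    refine hC1.of_isClosed_subset ?_ hsub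
    rw [hKeq]
    exact (hcl1.inter hcl2).inter hcl3
  rcases K.eq_empty_or_nonempty with hE | hN
  · refine ⟨1, one_pos, fun X hX τ hτ' hj => ?_⟩
    have : (X, τ) ∈ K := ⟨hX, hτ', hj⟩
    rw [hE] at this
    exact this.elim
  · obtain ⟨q, hq, hmin⟩ := hKc.exists_isMinOn hN (hf.mono hsub)
    refine ⟨f q, hpos q.1 hq.1 q.2 hq.2.1 hq.2.2, fun X hX τ hτ' hj => ?_⟩
    exact hmin (show (X, τ) ∈ K from ⟨hX, hτ', hj⟩)

/-- **Arc package.** -/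
theorem arc_pkg_pr {C : ℝ} (hC : 0 < C ∧ C ≤ 1) {i : Fin 2} {O : Set Pl} {l : LD} {τ0 : Pl → ℝ}
    (h : RArc C i O l τ0) (he : ℝ) (hhe : 0 < he) (n : ℕ) (τm : Fin n → ℝ)
    (h2 : ∀ j, ∀ X ∈ O, 0 < τm j - he ∧ τm j + he < τ0 X)
    (h3 : ∀ X ∈ O, ∀ τ ∈ Ioo 0 (τ0 X), (∀ j, he / 2 < |τ - τm j|) →
      (Zd i (limD C X (l.χ X)) τ).1 ≠ 0) (τ1 : ℝ) (hτ1 : 0 < τ1) :
    ∃ τa σ : ℝ, 0 < τa ∧ τa ≤ τ1 ∧ (∀ X ∈ O, 4 * τa ≤ τ0 X) ∧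
      (∀ j, ∀ X ∈ O, τa ≤ τm j - he ∧ τm j + he ≤ τ0 X - τa) ∧ 0 < σ ∧ ∀ ε, 0 < ε →
      ∃ μ0 : ℝ, 0 < μ0 ∧ μ0 ≤ σ ∧ ∀ μ, 0 < μ → μ < μ0 → ∃ (w : WD) (Z : Pl × ℝ × ℝ × ℝ → LCS),
        WNear ε O w l ∧
        (∀ X ∈ O, ∀ b ∈ JJ, ∀ b' ∈ JJ, w.P (X, b, b') ∈ CDw C) ∧
        Near ε Z (fun p => Zd i (limD C p.1 (l.χ p.1)) p.2.2.2)
          {p | p.1 ∈ O ∧ p.2.1 ∈ JJ ∧ p.2.2.1 ∈ JJ ∧ p.2.2.2 ∈ Icc τa (τ0 p.1 - τa)} ∧
        ∀ X ∈ O, ∀ b ∈ JJ, ∀ b' ∈ JJ, b ≠ 0 → b' ≠ 0 →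
          (∀ j, ∀ t ∈ Icc (τm j - he) (τm j + he), (Z (X, b, b', t)).1 ≠ 0) →
          ∀ τ ∈ Icc τa (τ0 X - τa), (Z (X, b, b', τ)).1 ≠ 0 ∧
            ∀ g ∈ Icc μ σ,
              ReachR (μ ^ 2) (outLeg C μ X (w.Θ (X, b, b')) b g) (lcSt i (Z (X, b, b', τ))) ∧
              ReachR (μ ^ 2) (lcSt i (Z (X, b, b', τ)))
                (inLeg C μ (w.P (X, b, b')) (w.Θ' (X, b, b')) b' g) := by
  have hOc : IsCompact O := h.z.compact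
  obtain ⟨L0, -, hLτ, -, -⟩ := h.z.lip
  have hτc : ContinuousOn τ0 O := e1e_lip_cont hLτ
  obtain ⟨δ, hδ, hδm⟩ := e1e_margin hOc hτc he n τm h2
  obtain ⟨τa, σ, hτa, hτa1, h4, hσ, harc⟩ := arc i C hC O l.χ τ0 l.F l.θ h.z h.cd (min τ1 δ)
    (lt_min hτ1 hδ)
  have hτaδ : τa ≤ δ := le_trans hτa1 (min_le_right _ _)
  refine ⟨τa, σ, hτa, le_trans hτa1 (min_le_left _ _), h4, ?_, hσ, ?_⟩
  · intro j X hX
    have := hδm j X hX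
    exact ⟨by linarith [this.1], by linarith [this.2]⟩
  -- an upper bound for the durations
  obtain ⟨T, hT0, hT⟩ : ∃ T : ℝ, 0 ≤ T ∧ ∀ X ∈ O, τ0 X ≤ T := by
    rcases O.eq_empty_or_nonempty with hE | hN
    · refine ⟨0, le_rfl, fun X hX => ?_⟩
      rw [hE] at hX
      exact hX.elim
    · obtain ⟨X0, hX0, hmax⟩ := hOc.exists_isMaxOn hN hτc
      exact ⟨τ0 X0, (h.z.pos X0 hX0).1.le, fun X hX => hmax hX⟩
  obtain ⟨Lz, cz, -, -, hLz, -⟩ := zd_reg hC h T hT0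
  have hzc : ContinuousOn (fun q : Pl × ℝ => Zd i (limD C q.1 (l.χ q.1)) q.2) (O ×ˢ Icc 0 T) :=
    e1e_lip_cont hLz.1
  have hzc1 : ContinuousOn (fun q : Pl × ℝ => ‖(Zd i (limD C q.1 (l.χ q.1)) q.2).1‖)
      (O ×ˢ Icc 0 T) := (continuous_fst.comp_continuousOn hzc).norm
  obtain ⟨c0, hc0, hlow⟩ := e1e_lower hOc hτc he n τm τa T hτa.le hT hzc1 (by
    intro X hX τ hτ hj
    refine norm_pos_iff.2 (h3 X hX τ ⟨lt_of_lt_of_le hτa hτ.1, ?_⟩ ?_)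
    · have := hτ.2
      linarith
    · intro j
      exact lt_of_lt_of_le (by linarith) (hj j))
  obtain ⟨r, hr, hthick⟩ := cd_thick C hC
  intro ε hε
  have hε' : 0 < min ε (min (c0 / 2) r) := lt_min hε (lt_min (by linarith) hr)
  obtain ⟨μ0, hμ0, hμ⟩ := harc _ hε'
  refine ⟨min μ0 σ, lt_min hμ0 hσ, min_le_right _ _, ?_⟩
  intro μ hμp hμlt
  obtain ⟨w, ρ, Z, hw, hρ, hZ, hR⟩ := hμ μ hμp (lt_of_lt_of_le hμlt (min_le_left _ _))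
  have hle : min ε (min (c0 / 2) r) ≤ ε := min_le_left _ _
  have hle2 : min ε (min (c0 / 2) r) ≤ c0 / 2 := le_trans (min_le_right _ _) (min_le_left _ _)
  have hle3 : min ε (min (c0 / 2) r) ≤ r := le_trans (min_le_right _ _) (min_le_right _ _)
  refine ⟨w, Z, ⟨e1e_near_mono hw.P hle, e1e_near_mono hw.Θ hle, e1e_near_mono hw.Θ' hle⟩, ?_,
    e1e_near_mono hZ hle, ?_⟩
  · intro X hX b hb b' hb'
    apply hthick (l.F X) (h.cd X hX).2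
    rw [Metric.mem_closedBall, dist_eq_norm]
    exact le_trans (hw.P.1 (X, b, b') ⟨hX, hb, hb'⟩) hle3
  · intro X hX b hb b' hb' hb0 hb0' hwin
    have hnz : ∀ τ ∈ Icc τa (τ0 X - τa), (Z (X, b, b', τ)).1 ≠ 0 := by
      intro τ hτ
      by_cases hj : ∀ j, he ≤ |τ - τm j|
      · have h5 := hlow X hX τ hτ hj
        have h6 := hZ.1 (X, b, b', τ) ⟨hX, hb, hb', hτ⟩
        have h7 : ‖(Z (X, b, b', τ)).1 - (Zd i (limD C X (l.χ X)) τ).1‖ ≤ c0 / 2 := by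
          refine le_trans ?_ (le_trans h6 hle2)
          exact norm_fst_le (Z (X, b, b', τ) - Zd i (limD C X (l.χ X)) τ)
        intro h0
        rw [h0, zero_sub, norm_neg] at h7
        simp only at h5
        linarith
      · push Not at hj
        obtain ⟨j, hj⟩ := hj
        rw [abs_lt] at hj
        exact hwin j τ ⟨by linarith [hj.1], by linarith [hj.2]⟩
    obtain ⟨hR1, hR2, hR3⟩ := hR X hX b hb b' hb' hb0 hb0' hnz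
    intro τ hτ
    refine ⟨hnz τ hτ, fun g hg => ⟨?_, ?_⟩⟩
    · have hτaI : τa ∈ Icc τa (τ0 X - τa) := ⟨le_rfl, le_trans hτ.1 hτ.2⟩
      exact reach_reachR (reach_trans (hR1 g hg) (hR2 τa hτaI τ hτ))
    · have hend : τ0 X - τa ∈ Icc τ (τ0 X - τa) := ⟨hτ.2, le_rfl⟩
      exact ⟨ρ (X, b, b'), hρ _, reach_trans (hR2 τ hτ _ hend) (hR3 g hg)⟩

end

end Pool.Agent.HS

namespace Pool.Agent.HS
open Set Filter Topology Classical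

theorem arc_pkg {C : ℝ} (hC : 0 < C ∧ C ≤ 1) {i : Fin 2} {O : Set Pl} {l : LD} {τ0 : Pl → ℝ}
    (h : RArc C i O l τ0) (he : ℝ) (hhe : 0 < he) (n : ℕ) (τm : Fin n → ℝ)
    (h2 : ∀ j, ∀ X ∈ O, 0 < τm j - he ∧ τm j + he < τ0 X)
    (h3 : ∀ X ∈ O, ∀ τ ∈ Ioo 0 (τ0 X), (∀ j, he / 2 < |τ - τm j|) →
      (Zd i (limD C X (l.χ X)) τ).1 ≠ 0) (τ1 : ℝ) (hτ1 : 0 < τ1) :
    ∃ τa σ : ℝ, 0 < τa ∧ τa ≤ τ1 ∧ (∀ X ∈ O, 4 * τa ≤ τ0 X) ∧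
      (∀ j, ∀ X ∈ O, τa ≤ τm j - he ∧ τm j + he ≤ τ0 X - τa) ∧ 0 < σ ∧ ∀ ε, 0 < ε →
      ∃ μ0 : ℝ, 0 < μ0 ∧ μ0 ≤ σ ∧ ∀ μ, 0 < μ → μ < μ0 → ∃ (w : WD) (Z : Pl × ℝ × ℝ × ℝ → LCS),
        WNear ε O w l ∧
        (∀ X ∈ O, ∀ b ∈ JJ, ∀ b' ∈ JJ, w.P (X, b, b') ∈ CDw C) ∧
        Near ε Z (fun p => Zd i (limD C p.1 (l.χ p.1)) p.2.2.2)
          {p | p.1 ∈ O ∧ p.2.1 ∈ JJ ∧ p.2.2.1 ∈ JJ ∧ p.2.2.2 ∈ Icc τa (τ0 p.1 - τa)} ∧
        ∀ X ∈ O, ∀ b ∈ JJ, ∀ b' ∈ JJ, b ≠ 0 → b' ≠ 0 →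
          (∀ j, ∀ t ∈ Icc (τm j - he) (τm j + he), (Z (X, b, b', t)).1 ≠ 0) →
          ∀ τ ∈ Icc τa (τ0 X - τa), (Z (X, b, b', τ)).1 ≠ 0 ∧
            ∀ g ∈ Icc μ σ,
              ReachR (μ ^ 2) (outLeg C μ X (w.Θ (X, b, b')) b g) (lcSt i (Z (X, b, b', τ))) ∧
              ReachR (μ ^ 2) (lcSt i (Z (X, b, b', τ)))
                (inLeg C μ (w.P (X, b, b')) (w.Θ' (X, b, b')) b' g) :=
  @Pool.Agent.HS.arc_pkg_pr C hC i O l τ0 h he hhe n τm h2 h3 τ1 hτ1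

end Pool.Agent.HS
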