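import Pool.Agent.Lib_helper60.HSF.D_WE2
import Pool.Agent.Lib_helper60.HSF.E_E1d
import Pool.Agent.Lib_helper60.HSF.E_E0a
import Pool.Agent.Lib_helper60.HSF.E_E1e
import Pool.Agent.Lib_helper60.HSF.IO_K2

/-! HS part E, block E1a: an arc without sun collisions is a plain word. -/

namespace Pool.Agent.HS

noncomputable section

open Set Filter Topology Classical

/-- an arc without sun collisions is a plain word -/
theorem pw_arc_pr {C : ℝ} (hC : 0 < C ∧ C ≤ 1) {i : Fin 2} {O : Set Pl} {l : LD} {τ0 : Pl → ℝ}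
    (h : RArc C i O l τ0)
    (hs : ∀ X ∈ O, ∀ τ ∈ Ioo 0 (τ0 X), (Zd i (limD C X (l.χ X)) τ).1 ≠ 0) : PW C O l := by
  refine ⟨h.z.compact, h.reg, h.cd, fun ε hε => ?_⟩
  obtain ⟨τa, σ, ha, -, ha4, -, hσ, hpk⟩ := arc_pkg hC h 1 one_pos 0 (fun j => j.elim0)
    (fun j => j.elim0) (fun X hX τ hτ _ => hs X hX τ hτ) 1 one_pos
  obtain ⟨μ0, h0, h0σ, hμ0⟩ := hpk ε hε
  obtain ⟨σ', μ1, hσ', h1, h1σ, hμ1⟩ := leg_out C hC
  refine ⟨min μ0 μ1, lt_min h0 h1, fun μ hμ hμm => ?_⟩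
  have hμa : μ < μ0 := lt_of_lt_of_le hμm (min_le_left _ _)
  have hμb : μ < μ1 := lt_of_lt_of_le hμm (min_le_right _ _)
  obtain ⟨w, Z, hw, hP, -, hR⟩ := hμ0 μ hμ hμa
  refine ⟨w, hw, ?_⟩
  intro X hX b hb b' hb' hb0 hb0' N hN
  have hτ : τ0 X / 2 ∈ Icc τa (τ0 X - τa) := by
    have := ha4 X hX
    constructor <;> linarith
  have hg : μ ∈ Icc μ σ := ⟨le_rfl, by linarith⟩
  obtain ⟨h2, h3⟩ := (hR X hX b hb b' hb' hb0 hb0' (fun j => j.elim0) _ hτ).2 μ hg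
  have h4 := (hμ1 μ hμ hμb X (CD_sub C (h.cd X hX).1) b hb hb0).2.1 (w.Θ (X, b, b')) N hN
  have h5 := (hμ1 μ hμ hμb (w.P (X, b, b')) (hP X hX b hb b' hb') b' hb' hb0').2.2.2
    (w.Θ' (X, b, b'))
  rw [← h4] at h2
  rw [h5] at h3
  exact reachR_trans h2 h3

end

end Pool.Agent.HS

namespace Pool.Agent.HS
open Set Filter Topology Classical

theorem pw_arc {C : ℝ} (hC : 0 < C ∧ C ≤ 1) {i : Fin 2} {O : Set Pl} {l : LD} {τ0 : Pl → ℝ}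
    (h : RArc C i O l τ0)
    (hs : ∀ X ∈ O, ∀ τ ∈ Ioo 0 (τ0 X), (Zd i (limD C X (l.χ X)) τ).1 ≠ 0) : PW C O l :=
  @Pool.Agent.HS.pw_arc_pr C hC i O l τ0 h hs

end Pool.Agent.HS
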