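import Pool.Agent.Lib_helper60.HSF.D_WG

/-!
# Block G1a of part G of project HS (MP_b9cbe4_an): `link_lip`
-/

namespace Pool.Agent.HS.LINK

noncomputable section

open Set Filter Topology Classical Pool.Agent.HS

theorem g1a_cot_diff {x y : ℝ} (hx : Real.sin x ≠ 0) (hy : Real.sin y ≠ 0)
    (hx' : |Real.cos x / Real.sin x| ≤ 17 / 2) (hy' : |Real.cos y / Real.sin y| ≤ 17 / 2) :
    |Real.cos x / Real.sin x - Real.cos y / Real.sin y| ≤ 74 * |x - y| := by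
  have key : ∀ z : ℝ, Real.sin z ≠ 0 → |Real.cos z / Real.sin z| ≤ 17 / 2 →
      1 / Real.sin z ^ 2 ≤ 74 := by
    intro z hz hz'
    have h1 : (Real.cos z / Real.sin z) ^ 2 ≤ (17 / 2) ^ 2 := sq_le_sq' (by
      have := (abs_le.mp hz').1; linarith) (abs_le.mp hz').2
    have h2 : 1 / Real.sin z ^ 2 = 1 + (Real.cos z / Real.sin z) ^ 2 := by
      have := Real.sin_sq_add_cos_sq z
      field_simp
      linarith
    rw [h2]; nlinarith
  have e : Real.cos x / Real.sin x - Real.cos y / Real.sin y =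
      Real.sin (y - x) * (1 / Real.sin x * (1 / Real.sin y)) := by
    rw [Real.sin_sub]; field_simp
  rw [e, abs_mul]
  have h1 : |Real.sin (y - x)| ≤ |x - y| := by
    rw [abs_sub_comm x y]; exact Real.abs_sin_le_abs
  have h2 : |1 / Real.sin x * (1 / Real.sin y)| ≤ 74 := by
    have hA := key x hx hx'
    have hB := key y hy hy'
    have hA' : (1 / Real.sin x) ^ 2 ≤ 74 := by rw [div_pow, one_pow]; exact hA
    have hB' : (1 / Real.sin y) ^ 2 ≤ 74 := by rw [div_pow, one_pow]; exact hB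
    rw [abs_le]
    constructor <;> nlinarith [sq_nonneg (1 / Real.sin x - 1 / Real.sin y),
      sq_nonneg (1 / Real.sin x + 1 / Real.sin y)]
  calc |Real.sin (y - x)| * |1 / Real.sin x * (1 / Real.sin y)| ≤ |x - y| * 74 :=
        mul_le_mul h1 h2 (abs_nonneg _) (abs_nonneg _)
    _ = 74 * |x - y| := by ring

theorem g1a_mat {K : Pl → ℝ → ℝ → ℝ} {X : Pl} {N β χ : ℝ}
    (hs : Real.sin ((χ - N) / 2) ≠ 0)
    (h : K X N β * β = Real.cos ((χ - N) / 2) / Real.sin ((χ - N) / 2)) : Mat K X N β χ := by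
  set x := (χ - N) / 2 with hx
  have hχ : χ = N + 2 * x := by rw [hx]; ring
  obtain ⟨m, hm1, hm2⟩ : ∃ m : ℤ, 0 ≤ x - m * Real.pi ∧ x - m * Real.pi < Real.pi := by
    refine ⟨⌊x / Real.pi⌋, ?_, ?_⟩
    · have := Int.floor_le (x / Real.pi)
      have h2 : (⌊x / Real.pi⌋ : ℝ) * Real.pi ≤ x := by
        rw [le_div_iff₀ Real.pi_pos] at this; exact this
      linarith
    · have := Int.lt_floor_add_one (x / Real.pi)
      have h2 : x < ((⌊x / Real.pi⌋ : ℝ) + 1) * Real.pi := by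
        rw [div_lt_iff₀ Real.pi_pos] at this; exact this
      linarith
  have hsin : Real.sin (x - m * Real.pi) ≠ 0 := by
    rw [Real.sin_sub_int_mul_pi]
    rcases Int.even_or_odd m with hm | hm
    · simp [hm.neg_one_zpow, hs]
    · simp [hm.neg_one_zpow, hs]
  have hcot : Real.cos (x - m * Real.pi) / Real.sin (x - m * Real.pi) =
      Real.cos x / Real.sin x := by
    rw [Real.sin_sub_int_mul_pi, Real.cos_sub_int_mul_pi]
    rcases Int.even_or_odd m with hm | hm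
    · simp [hm.neg_one_zpow]
    · simp [hm.neg_one_zpow]
  have hpos : 0 < x - m * Real.pi := by
    rcases hm1.lt_or_eq with h0 | h0
    · exact h0
    · exfalso; apply hsin; rw [← h0, Real.sin_zero]
  have harc : Real.arctan (Real.cos x / Real.sin x) = Real.pi / 2 - (x - m * Real.pi) := by
    rw [← hcot]
    have ht : Real.tan (Real.pi / 2 - (x - m * Real.pi)) =
        Real.cos (x - m * Real.pi) / Real.sin (x - m * Real.pi) := by
      rw [Real.tan_eq_sin_div_cos, Real.sin_pi_div_two_sub, Real.cos_pi_div_two_sub]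
    rw [← ht]
    exact Real.arctan_tan (by linarith) (by linarith)
  refine ⟨-m, ?_⟩
  rw [h, harc, hχ]
  push_cast
  ring

theorem link_lip_pr (L : ℝ) (hL : 1 ≤ L) : ∃ L1 C1 ε0 : ℝ, 1 ≤ L1 ∧ 1 ≤ C1 ∧ 0 < ε0 ∧
    ∀ {Q : Type} [PseudoMetricSpace Q] (q : Set Q) (X1 : Q × ℝ → Pl) (N1 : Q × ℝ → ℝ)
      (O : Set Pl) (K : Pl → ℝ → ℝ → ℝ) (Θ : Pl × ℝ × ℝ → ℝ) (ε η : ℝ), 0 ≤ ε → 0 ≤ η → ε ≤ ε0 →
      η ≤ ε0 →
      (∀ p ∈ q, ∀ p' ∈ q, ∀ b ∈ JJ, ∀ b' ∈ JJ,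
        ‖X1 (p, b) - X1 (p', b')‖ ≤ L * dist p p' + η * |b - b'| ∧
        |N1 (p, b) - N1 (p', b')| ≤ L * dist p p' + η * |b - b'|) →
      (∀ p ∈ q, ∀ b ∈ JJ, X1 (p, b) ∈ O) →
      (∀ X ∈ O, ∀ Y ∈ O, ∀ b ∈ JJ, ∀ c ∈ JJ, ∀ b' ∈ JJ, ∀ c' ∈ JJ,
        |Θ (X, b, b') - Θ (Y, c, c')| ≤ L * ‖X - Y‖ + ε * (|b - c| + |b' - c'|)) →
      (∀ X ∈ O, ∀ Y ∈ O, ∀ N N' : ℝ, ∀ b ∈ JJ, ∀ c ∈ JJ,
        |K X N b - K Y N' c| ≤ L * ‖X - Y‖ + ε * (|N - N'| + |b - c|)) →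
      (∀ X ∈ O, ∀ N, ∀ b ∈ JJ, 99 / 100 ≤ K X N b ∧ K X N b ≤ 121 / 100) →
      (∀ p ∈ q, ∀ b ∈ JJ, ∀ b' ∈ JJ, Acc 0 (17 / 2) (Θ (X1 (p, b), b, b')) (N1 (p, b))) →
      ∃ B : Q × ℝ → ℝ, (∀ p ∈ q, ∀ b' ∈ JJ,
          (Acc (1 / 11) (17 / 2) (Θ (X1 (p, B (p, b')), B (p, b'), b')) (N1 (p, B (p, b'))) →
            1 / 14 ≤ |B (p, b')|) ∧
          |B (p, b')| ≤ 9 ∧
          Mat K (X1 (p, B (p, b'))) (N1 (p, B (p, b'))) (B (p, b'))
            (Θ (X1 (p, B (p, b')), B (p, b'), b')) ∧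
          K (X1 (p, B (p, b'))) (N1 (p, B (p, b'))) (B (p, b')) * B (p, b') =
            Real.cos ((Θ (X1 (p, B (p, b')), B (p, b'), b') - N1 (p, B (p, b'))) / 2) /
            Real.sin ((Θ (X1 (p, B (p, b')), B (p, b'), b') - N1 (p, B (p, b'))) / 2)) ∧
        ∀ p ∈ q, ∀ p' ∈ q, ∀ b ∈ JJ, ∀ b' ∈ JJ,
          |B (p, b) - B (p', b')| ≤ L1 * dist p p' + C1 * ε * |b - b'| := by
  refine ⟨94 * (L ^ 2 + L), 76, 1 / (100 * (L + 2)), by nlinarith, by norm_num, by positivity, ?_⟩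
  intro Q _ q X1 N1 O K Θ ε η hε hη hε0 hη0 hX hO hΘ hK hK1 hA
  have hε0' : ε * (100 * (L + 2)) ≤ 1 := by
    rwa [le_div_iff₀ (by positivity)] at hε0
  have hη0' : η * (100 * (L + 2)) ≤ 1 := by
    rwa [le_div_iff₀ (by positivity)] at hη0
  have hη1 : η ≤ 1 := by nlinarith
  have hε1 : ε ≤ 1 := by nlinarith
  -- the map
  set A : Q → ℝ → ℝ → ℝ := fun p b' b => Θ (X1 (p, b), b, b') - N1 (p, b) with hAdef
  set ct : Q → ℝ → ℝ → ℝ := fun p b' b =>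
    Real.cos (A p b' b / 2) / Real.sin (A p b' b / 2) with hct
  set kk : Q → ℝ → ℝ := fun p b => K (X1 (p, b)) (N1 (p, b)) b with hkk
  set T : Q → ℝ → ℝ → ℝ := fun p b' b => ct p b' b / kk p b with hT
  have hkk1 : ∀ p ∈ q, ∀ b ∈ JJ, 99 / 100 ≤ kk p b ∧ kk p b ≤ 121 / 100 :=
    fun p hp b hb => hK1 _ (hO p hp b hb) _ b hb
  -- angle
  have hAd : ∀ p ∈ q, ∀ p' ∈ q, ∀ b ∈ JJ, ∀ c ∈ JJ, ∀ b' ∈ JJ, ∀ c' ∈ JJ,
      |A p b' b - A p' c' c| ≤ (L + 1) * (L * dist p p' + η * |b - c|) +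
        ε * (|b - c| + |b' - c'|) := by
    intro p hp p' hp' b hb c hc b' hb' c' hc'
    have h1 := hΘ _ (hO p hp b hb) _ (hO p' hp' c hc) b hb c hc b' hb' c' hc'
    obtain ⟨h2, h3⟩ := hX p hp p' hp' b hb c hc
    have h4 : |A p b' b - A p' c' c| ≤
        |Θ (X1 (p, b), b, b') - Θ (X1 (p', c), c, c')| + |N1 (p, b) - N1 (p', c)| := by
      have : A p b' b - A p' c' c =
          (Θ (X1 (p, b), b, b') - Θ (X1 (p', c), c, c')) - (N1 (p, b) - N1 (p', c)) := by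
        simp only [hAdef]; ring
      rw [this]; exact abs_sub _ _
    have h5 : L * ‖X1 (p, b) - X1 (p', c)‖ ≤ L * (L * dist p p' + η * |b - c|) :=
      mul_le_mul_of_nonneg_left h2 (by linarith)
    nlinarith
  have hcd : ∀ p ∈ q, ∀ p' ∈ q, ∀ b ∈ JJ, ∀ c ∈ JJ, ∀ b' ∈ JJ, ∀ c' ∈ JJ,
      |ct p b' b - ct p' c' c| ≤ 37 * ((L + 1) * (L * dist p p' + η * |b - c|) +
        ε * (|b - c| + |b' - c'|)) := by
    intro p hp p' hp' b hb c hc b' hb' c' hc'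
    obtain ⟨a1, a2, a3⟩ := hA p hp b hb b' hb'
    obtain ⟨b1, b2, b3⟩ := hA p' hp' c hc c' hc'
    have := g1a_cot_diff a1 b1 a3 b3
    have h2 := hAd p hp p' hp' b hb c hc b' hb' c' hc'
    have h3 : |(Θ (X1 (p, b), b, b') - N1 (p, b)) / 2 - (Θ (X1 (p', c), c, c') - N1 (p', c)) / 2| =
        |A p b' b - A p' c' c| / 2 := by
      rw [← sub_div, abs_div, abs_of_pos (by norm_num : (0:ℝ) < 2)]
    rw [h3] at this
    have h4 : |ct p b' b - ct p' c' c| ≤ 74 * (|A p b' b - A p' c' c| / 2) := this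
    linarith
  have hkd : ∀ p ∈ q, ∀ p' ∈ q, ∀ b ∈ JJ, ∀ c ∈ JJ,
      |kk p b - kk p' c| ≤ L * (L * dist p p' + η * |b - c|) +
        ε * ((L * dist p p' + η * |b - c|) + |b - c|) := by
    intro p hp p' hp' b hb c hc
    have h1 := hK _ (hO p hp b hb) _ (hO p' hp' c hc) (N1 (p, b)) (N1 (p', c)) b hb c hc
    obtain ⟨h2, h3⟩ := hX p hp p' hp' b hb c hc
    have h5 : L * ‖X1 (p, b) - X1 (p', c)‖ ≤ L * (L * dist p p' + η * |b - c|) :=
      mul_le_mul_of_nonneg_left h2 (by linarith)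
    have h6 : ε * (|N1 (p, b) - N1 (p', c)| + |b - c|) ≤
        ε * ((L * dist p p' + η * |b - c|) + |b - c|) :=
      mul_le_mul_of_nonneg_left (by linarith) hε
    calc |kk p b - kk p' c| ≤ _ := h1
      _ ≤ _ := by linarith
  have hctb : ∀ p ∈ q, ∀ b ∈ JJ, ∀ b' ∈ JJ, 0 ≤ |ct p b' b| ∧ |ct p b' b| ≤ 17 / 2 := by
    intro p hp b hb b' hb'
    obtain ⟨a1, a2, a3⟩ := hA p hp b hb b' hb'
    exact ⟨a2, a3⟩
  have hTd : ∀ p ∈ q, ∀ p' ∈ q, ∀ b ∈ JJ, ∀ c ∈ JJ, ∀ b' ∈ JJ, ∀ c' ∈ JJ,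
      |T p b' b - T p' c' c| ≤ 38 * ((L + 1) * (L * dist p p' + η * |b - c|) +
        ε * (|b - c| + |b' - c'|)) + 9 * (L * (L * dist p p' + η * |b - c|) +
        ε * ((L * dist p p' + η * |b - c|) + |b - c|)) := by
    intro p hp p' hp' b hb c hc b' hb' c' hc'
    have h1 := hcd p hp p' hp' b hb c hc b' hb' c' hc'
    have h2 := hkd p hp p' hp' b hb c hc
    obtain ⟨k1, k2⟩ := hkk1 p hp b hb
    obtain ⟨k3, k4⟩ := hkk1 p' hp' c hc
    obtain ⟨_, c2⟩ := hctb p' hp' c hc c' hc'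
    have k0 : 0 < kk p b := by linarith
    have k0' : 0 < kk p' c := by linarith
    have e : T p b' b - T p' c' c = (ct p b' b - ct p' c' c) / kk p b +
        ct p' c' c * (kk p' c - kk p b) / (kk p b * kk p' c) := by
      simp only [hT]; field_simp; ring
    rw [e]
    have e1 : |(ct p b' b - ct p' c' c) / kk p b| ≤ |ct p b' b - ct p' c' c| * (100 / 99) := by
      rw [abs_div, abs_of_pos k0, div_le_iff₀ k0]
      have := abs_nonneg (ct p b' b - ct p' c' c)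
      nlinarith
    have e2 : |ct p' c' c * (kk p' c - kk p b) / (kk p b * kk p' c)| ≤
        9 * |kk p b - kk p' c| := by
      rw [abs_div, abs_mul, abs_of_pos (mul_pos k0 k0'), div_le_iff₀ (mul_pos k0 k0'),
        abs_sub_comm (kk p' c)]
      have h0 := abs_nonneg (kk p b - kk p' c)
      have h3 : (99 / 100) * (99 / 100) ≤ kk p b * kk p' c :=
        mul_le_mul k1 k3 (by norm_num) (by linarith)
      have h4 : |ct p' c' c| * |kk p b - kk p' c| ≤ 17 / 2 * |kk p b - kk p' c| :=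
        mul_le_mul_of_nonneg_right c2 h0
      nlinarith
    have h0 := abs_nonneg (ct p b' b - ct p' c' c)
    calc _ ≤ _ := abs_add_le _ _
      _ ≤ |ct p b' b - ct p' c' c| * (100 / 99) + 9 * |kk p b - kk p' c| := add_le_add e1 e2
      _ ≤ _ := by nlinarith
  have hTr : ∀ p ∈ q, ∀ b ∈ JJ, ∀ b' ∈ JJ,
      (1 / 11 ≤ |ct p b' b| → 1 / 14 ≤ |T p b' b|) ∧ |T p b' b| ≤ 9 := by
    intro p hp b hb b' hb'
    obtain ⟨k1, k2⟩ := hkk1 p hp b hb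
    obtain ⟨c1, c2⟩ := hctb p hp b hb b' hb'
    have k0 : 0 < kk p b := by linarith
    have e : |T p b' b| = |ct p b' b| / kk p b := by
      have : T p b' b = ct p b' b / kk p b := rfl
      rw [this, abs_div, abs_of_pos k0]
    rw [e, le_div_iff₀ k0, div_le_iff₀ k0]
    exact ⟨fun h => by nlinarith, by nlinarith⟩
  have hIJ : ∀ b ∈ Icc (-9 : ℝ) 9, b ∈ JJ := fun b hb => ⟨by linarith [hb.1], by linarith [hb.2]⟩
  -- contraction
  have hcontr : ∀ p ∈ q, ∀ b' ∈ JJ, ∀ b ∈ JJ, ∀ c ∈ JJ,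
      |T p b' b - T p b' c| ≤ 1 / 2 * |b - c| := by
    intro p hp b' hb' b hb c hc
    have h1 := hTd p hp p hp b hb c hc b' hb' b' hb'
    rw [dist_self, sub_self, abs_zero] at h1
    have h0 := abs_nonneg (b - c)
    have h2 : 38 * ((L + 1) * η + ε) + 9 * (L * η + ε * (η + 1)) ≤ 1 / 2 := by
      have h3 : ε * (η + 1) ≤ ε * 2 := mul_le_mul_of_nonneg_left (by linarith) hε
      have h4 : 47 * (L * η + η) + 56 * ε ≤ 1 / 2 := by
        nlinarith [mul_nonneg hη (by linarith : (0:ℝ) ≤ L - 1),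
          mul_nonneg hε (by linarith : (0:ℝ) ≤ L - 1)]
      nlinarith
    have h5 : 38 * ((L + 1) * (L * 0 + η * |b - c|) + ε * (|b - c| + 0)) +
        9 * (L * (L * 0 + η * |b - c|) + ε * ((L * 0 + η * |b - c|) + |b - c|)) =
        (38 * ((L + 1) * η + ε) + 9 * (L * η + ε * (η + 1))) * |b - c| := by ring
    rw [h5] at h1
    exact h1.trans (mul_le_mul_of_nonneg_right h2 h0)
  -- fixed points
  have hfix : ∀ p ∈ q, ∀ b' ∈ JJ, ∃ b ∈ Icc (-9 : ℝ) 9, T p b' b = b := by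
    intro p hp b' hb'
    have hc : ContinuousOn (fun b => T p b' b - b) (Icc (-9 : ℝ) 9) := by
      apply ContinuousOn.sub _ continuousOn_id
      have : LipschitzOnWith (1 / 2 : NNReal) (fun b => T p b' b) (Icc (-9 : ℝ) 9) := by
        apply LipschitzOnWith.of_dist_le_mul
        intro x hx y hy
        rw [Real.dist_eq, Real.dist_eq]
        have := hcontr p hp b' hb' x (hIJ x hx) y (hIJ y hy)
        simpa using this
      exact this.continuousOn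
    have h9 := (hTr p hp 9 (hIJ 9 ⟨by norm_num, le_refl _⟩) b' hb').2
    have h9' := (hTr p hp (-9) (hIJ (-9) ⟨le_refl _, by norm_num⟩) b' hb').2
    have hm : (0 : ℝ) ∈ Icc (T p b' 9 - 9) (T p b' (-9) - (-9)) :=
      ⟨by linarith [(abs_le.mp h9).2], by linarith [(abs_le.mp h9').1]⟩
    obtain ⟨b, hb, hb2⟩ := intermediate_value_Icc' (by norm_num : (-9 : ℝ) ≤ 9) hc hm
    exact ⟨b, hb, by linarith⟩
  choose! f hf1 hf2 using hfix
  refine ⟨fun x => f x.1 x.2, ?_, ?_⟩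
  · intro p hp b' hb'
    have hb := hIJ _ (hf1 p hp b' hb')
    have hfx := hf2 p hp b' hb'
    obtain ⟨r1, r2⟩ := hTr p hp _ hb b' hb'
    rw [hfx] at r1 r2
    obtain ⟨k1, k2⟩ := hkk1 p hp _ hb
    have k0 : 0 < kk p (f p b') := by linarith
    obtain ⟨a1, a2, a3⟩ := hA p hp _ hb b' hb'
    have hKB : K (X1 (p, f p b')) (N1 (p, f p b')) (f p b') * f p b' =
        Real.cos ((Θ (X1 (p, f p b'), f p b', b') - N1 (p, f p b')) / 2) /
        Real.sin ((Θ (X1 (p, f p b'), f p b', b') - N1 (p, f p b')) / 2) := by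
      have h1 : kk p (f p b') * f p b' = ct p b' (f p b') := by
        have h2 : ct p b' (f p b') / kk p (f p b') = f p b' := hfx
        rw [div_eq_iff k0.ne'] at h2
        linarith
      exact h1
    exact ⟨fun hacc => r1 hacc.2.1, r2, g1a_mat a1 hKB, hKB⟩
  · intro p hp p' hp' b hb b' hb'
    have h1 := hIJ _ (hf1 p hp b hb)
    have h2 := hIJ _ (hf1 p' hp' b' hb')
    have e1 := hf2 p hp b hb
    have e2 := hf2 p' hp' b' hb'
    have h3 := hcontr p hp b hb _ h1 _ h2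
    have h4 := hTd p hp p' hp' _ h2 _ h2 b hb b' hb'
    rw [e1] at h3
    rw [e2, sub_self, abs_zero] at h4
    have h5 : |f p b - f p' b'| ≤ |f p b - T p b (f p' b')| + |T p b (f p' b') - f p' b'| :=
      abs_sub_le _ _ _
    have hd : 0 ≤ dist p p' := dist_nonneg
    have h6 : ε * (L * dist p p') ≤ L * dist p p' := by
      have : 0 ≤ L * dist p p' := mul_nonneg (by linarith) hd
      nlinarith
    have h0 := abs_nonneg (b - b')
    show |f p b - f p' b'| ≤ 94 * (L ^ 2 + L) * dist p p' + 76 * ε * |b - b'|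
    nlinarith

end

end Pool.Agent.HS.LINK

namespace Pool.Agent.HS
open Set Filter Topology Classical

theorem link_lip (L : ℝ) (hL : 1 ≤ L) : ∃ L1 C1 ε0 : ℝ, 1 ≤ L1 ∧ 1 ≤ C1 ∧ 0 < ε0 ∧
    ∀ {Q : Type} [PseudoMetricSpace Q] (q : Set Q) (X1 : Q × ℝ → Pl) (N1 : Q × ℝ → ℝ)
      (O : Set Pl) (K : Pl → ℝ → ℝ → ℝ) (Θ : Pl × ℝ × ℝ → ℝ) (ε η : ℝ), 0 ≤ ε → 0 ≤ η → ε ≤ ε0 →
      η ≤ ε0 →
      (∀ p ∈ q, ∀ p' ∈ q, ∀ b ∈ JJ, ∀ b' ∈ JJ,
        ‖X1 (p, b) - X1 (p', b')‖ ≤ L * dist p p' + η * |b - b'| ∧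
        |N1 (p, b) - N1 (p', b')| ≤ L * dist p p' + η * |b - b'|) →
      (∀ p ∈ q, ∀ b ∈ JJ, X1 (p, b) ∈ O) →
      (∀ X ∈ O, ∀ Y ∈ O, ∀ b ∈ JJ, ∀ c ∈ JJ, ∀ b' ∈ JJ, ∀ c' ∈ JJ,
        |Θ (X, b, b') - Θ (Y, c, c')| ≤ L * ‖X - Y‖ + ε * (|b - c| + |b' - c'|)) →
      (∀ X ∈ O, ∀ Y ∈ O, ∀ N N' : ℝ, ∀ b ∈ JJ, ∀ c ∈ JJ,
        |K X N b - K Y N' c| ≤ L * ‖X - Y‖ + ε * (|N - N'| + |b - c|)) →
      (∀ X ∈ O, ∀ N, ∀ b ∈ JJ, 99 / 100 ≤ K X N b ∧ K X N b ≤ 121 / 100) →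
      (∀ p ∈ q, ∀ b ∈ JJ, ∀ b' ∈ JJ, Acc 0 (17 / 2) (Θ (X1 (p, b), b, b')) (N1 (p, b))) →
      ∃ B : Q × ℝ → ℝ, (∀ p ∈ q, ∀ b' ∈ JJ,
          (Acc (1 / 11) (17 / 2) (Θ (X1 (p, B (p, b')), B (p, b'), b')) (N1 (p, B (p, b'))) →
            1 / 14 ≤ |B (p, b')|) ∧
          |B (p, b')| ≤ 9 ∧
          Mat K (X1 (p, B (p, b'))) (N1 (p, B (p, b'))) (B (p, b'))
            (Θ (X1 (p, B (p, b')), B (p, b'), b')) ∧
          K (X1 (p, B (p, b'))) (N1 (p, B (p, b'))) (B (p, b')) * B (p, b') =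
            Real.cos ((Θ (X1 (p, B (p, b')), B (p, b'), b') - N1 (p, B (p, b'))) / 2) /
            Real.sin ((Θ (X1 (p, B (p, b')), B (p, b'), b') - N1 (p, B (p, b'))) / 2)) ∧
        ∀ p ∈ q, ∀ p' ∈ q, ∀ b ∈ JJ, ∀ b' ∈ JJ,
          |B (p, b) - B (p', b')| ≤ L1 * dist p p' + C1 * ε * |b - b'| :=
  @Pool.Agent.HS.LINK.link_lip_pr L hL

end Pool.Agent.HS
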