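import Pool.Agent.Lib_helper60.HSF.D_WA
import Pool.Agent.Lib_helper60.HSF.D_WG
import Pool.Agent.Lib_helper60.HSF.A_CA
import Pool.Agent.Lib_helper60.HSF.G_LINK
import Pool.Agent.Lib_helper60.HSF.A_CB

/-!
# Part G, block G1b (COMP): composition of words
-/

namespace Pool.Agent.HS.COMP

noncomputable section

open Set Filter Topology Classical

/-! ## The cotangent -/

/-- the cotangent -/
def ct (x : ℝ) : ℝ := Real.cos x / Real.sin x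

/-- where the cotangent is at most `17/2` -/
def Sc : Set ℝ := {x | Real.sin x ≠ 0 ∧ |ct x| ≤ 17 / 2}

theorem ct_sub {x y : ℝ} (hx : Real.sin x ≠ 0) (hy : Real.sin y ≠ 0) :
    ct x - ct y = Real.sin (y - x) * (Real.sin x * Real.sin y)⁻¹ := by
  unfold ct
  rw [Real.sin_sub]
  field_simp

/-- lower bound for the sine -/
theorem sin_lb {x : ℝ} {c : ℝ} (hx : Real.sin x ≠ 0) (hc : |ct x| ≤ c) :
    1 ≤ (1 + c ^ 2) * Real.sin x ^ 2 := by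
  have h1 : Real.cos x = ct x * Real.sin x := by
    unfold ct
    field_simp
  have h2 := Real.sin_sq_add_cos_sq x
  rw [h1] at h2
  have h3 : ct x ^ 2 ≤ c ^ 2 := by
    rw [← sq_abs (ct x)]
    exact pow_le_pow_left₀ (abs_nonneg _) hc 2
  nlinarith [sq_nonneg (Real.sin x)]

theorem inv_le {x y : ℝ} (hx : x ∈ Sc) (hy : y ∈ Sc) :
    |(Real.sin x * Real.sin y)⁻¹| ≤ 74 := by
  have h1 := sin_lb hx.1 hx.2
  have h2 := sin_lb hy.1 hy.2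
  have h3 : 0 < |Real.sin x * Real.sin y| := abs_pos.2 (mul_ne_zero hx.1 hy.1)
  rw [abs_inv, inv_le_comm₀ h3 (by norm_num)]
  have h5 : (0:ℝ) ≤ Real.sin x ^ 2 := sq_nonneg _
  have h7 : (1 + (17 / 2 : ℝ) ^ 2)⁻¹ ≤ Real.sin x ^ 2 := by
    rw [inv_le_iff_one_le_mul₀ (by positivity)]
    linarith
  have h8 : (1 + (17 / 2 : ℝ) ^ 2)⁻¹ ≤ Real.sin y ^ 2 := by
    rw [inv_le_iff_one_le_mul₀ (by positivity)]
    linarith
  have h4 : (74:ℝ)⁻¹ ^ 2 ≤ |Real.sin x * Real.sin y| ^ 2 := by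
    rw [sq_abs, mul_pow]
    calc (74:ℝ)⁻¹ ^ 2 ≤ (1 + (17 / 2 : ℝ) ^ 2)⁻¹ * (1 + (17 / 2 : ℝ) ^ 2)⁻¹ := by norm_num
      _ ≤ Real.sin x ^ 2 * Real.sin y ^ 2 := mul_le_mul h7 h8 (by positivity) h5
  exact (pow_le_pow_iff_left₀ (by norm_num) h3.le (by norm_num)).1 h4

theorem ct_reg : Reg 6000 ct Sc := by
  constructor
  · intro x hx y hy
    rw [Real.norm_eq_abs, Real.dist_eq, ct_sub hx.1 hy.1, abs_mul, mul_comm]
    refine mul_le_mul ((inv_le hx hy).trans (by norm_num)) ?_ (abs_nonneg _) (by norm_num)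
    rw [abs_sub_comm x y]
    exact Real.abs_sin_le_abs
  · intro x hx y hy x' hx' y' hy'
    simp only [Real.norm_eq_abs]
    set a := Real.sin x * Real.sin y with ha
    set a' := Real.sin x' * Real.sin y' with ha'
    have ha0 : a ≠ 0 := mul_ne_zero hx.1 hy.1
    have ha0' : a' ≠ 0 := mul_ne_zero hx'.1 hy'.1
    have e1 : ct x - ct y - ct x' + ct y' =
        (Real.sin (y - x) - Real.sin (y' - x')) * a⁻¹ +
          Real.sin (y' - x') * ((a' - a) * (a⁻¹ * a'⁻¹)) := by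
      have e2 := ct_sub hx.1 hy.1
      have e3 := ct_sub hx'.1 hy'.1
      rw [← ha] at e2
      rw [← ha'] at e3
      have e4 : ct x - ct y - ct x' + ct y' = (ct x - ct y) - (ct x' - ct y') := by ring
      rw [e4, e2, e3]
      field_simp
      ring
    rw [e1]
    have b1 : |Real.sin (y - x) - Real.sin (y' - x')| ≤ |x - y - x' + y'| := by
      refine (Real.abs_sin_sub_sin_le _ _).trans (le_of_eq ?_)
      rw [← abs_neg]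
      congr 1
      ring
    have b2 : |Real.sin (y' - x')| ≤ |x' - y'| := by
      rw [abs_sub_comm]
      exact Real.abs_sin_le_abs
    have b3 : |a' - a| ≤ |x - x'| + |y - y'| := by
      have e5 : a' - a = -((Real.sin x - Real.sin x') * Real.sin y' +
          Real.sin x * (Real.sin y - Real.sin y')) := by
        rw [ha, ha']; ring
      rw [e5, abs_neg]
      refine (abs_add_le _ _).trans (add_le_add ?_ ?_)
      · rw [abs_mul]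
        calc |Real.sin x - Real.sin x'| * |Real.sin y'| ≤ |x - x'| * 1 :=
              mul_le_mul (Real.abs_sin_sub_sin_le _ _) (Real.abs_sin_le_one _) (abs_nonneg _)
                (abs_nonneg _)
          _ = _ := mul_one _
      · rw [abs_mul]
        calc |Real.sin x| * |Real.sin y - Real.sin y'| ≤ 1 * |y - y'| :=
              mul_le_mul (Real.abs_sin_le_one _) (Real.abs_sin_sub_sin_le _ _) (abs_nonneg _)
                zero_le_one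
          _ = _ := one_mul _
    have c1 := inv_le hx hy
    have c2 := inv_le hx' hy'
    rw [← ha] at c1
    rw [← ha'] at c2
    have c3 : |a⁻¹ * a'⁻¹| ≤ 6000 := by
      rw [abs_mul]
      calc |a⁻¹| * |a'⁻¹| ≤ 74 * 74 := mul_le_mul c1 c2 (abs_nonneg _) (by norm_num)
        _ ≤ 6000 := by norm_num
    refine (abs_add_le _ _).trans (add_le_add ?_ ?_)
    · rw [abs_mul, mul_comm]
      exact mul_le_mul (c1.trans (by norm_num)) b1 (abs_nonneg _) (by norm_num)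
    · rw [abs_mul, abs_mul]
      calc |Real.sin (y' - x')| * (|a' - a| * |a⁻¹ * a'⁻¹|)
          ≤ |x' - y'| * ((|x - x'| + |y - y'|) * 6000) :=
            mul_le_mul b2 (mul_le_mul b3 c3 (abs_nonneg _) (by positivity)) (by positivity)
              (abs_nonneg _)
        _ = 6000 * (|x - x'| + |y - y'|) * |x' - y'| := by ring

/-- perturbation of the matching angle -/
theorem acc_pert {lo χ N χ' N' : ℝ} (h : Acc lo 8 χ N)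
    (hd : |(χ' - N') / 2 - (χ - N) / 2| ≤ 1 / 10000) :
    Acc 0 (17 / 2) χ' N' ∧ (lo = 1 / 10 → Acc (1 / 11) (17 / 2) χ' N') := by
  obtain ⟨h0, h1, h2⟩ := h
  set x := (χ - N) / 2 with hx
  set y := (χ' - N') / 2 with hy
  have s1 := sin_lb h0 h2
  have s2 : (124 / 1000 : ℝ) ≤ |Real.sin x| := by
    have : (124 / 1000 : ℝ) ^ 2 ≤ |Real.sin x| ^ 2 := by
      rw [sq_abs]
      nlinarith
    exact (pow_le_pow_iff_left₀ (by norm_num) (abs_nonneg _) (by norm_num)).1 this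
  have s3 : |Real.sin y - Real.sin x| ≤ 1 / 10000 := (Real.abs_sin_sub_sin_le _ _).trans hd
  have s4 : (1238 / 10000 : ℝ) ≤ |Real.sin y| := by
    have := abs_sub_abs_le_abs_sub (Real.sin x) (Real.sin y)
    rw [abs_sub_comm (Real.sin x)] at this
    linarith
  have hy0 : Real.sin y ≠ 0 := by
    intro h
    rw [h, abs_zero] at s4
    norm_num at s4
  have s5 : |ct y - ct x| ≤ 66 / 10000 := by
    rw [ct_sub hy0 h0, abs_mul, abs_inv, abs_mul]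
    have t1 : |Real.sin (x - y)| ≤ 1 / 10000 := by
      refine Real.abs_sin_le_abs.trans ?_
      rw [abs_sub_comm]
      exact hd
    have t2 : (1:ℝ) / 66 ≤ |Real.sin y| * |Real.sin x| := by
      calc (1:ℝ) / 66 ≤ (1238 / 10000) * (124 / 1000) := by norm_num
        _ ≤ _ := mul_le_mul s4 s2 (by norm_num) (abs_nonneg _)
    have t3 : (|Real.sin y| * |Real.sin x|)⁻¹ ≤ 66 := by
      rw [inv_le_comm₀ (by linarith) (by norm_num)]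
      linarith
    calc |Real.sin (x - y)| * (|Real.sin y| * |Real.sin x|)⁻¹ ≤ 1 / 10000 * 66 :=
          mul_le_mul t1 t3 (inv_nonneg.2 (by positivity)) (by norm_num)
      _ = _ := by norm_num
  have s6 := abs_sub_abs_le_abs_sub (ct y) (ct x)
  have s7 := abs_sub_abs_le_abs_sub (ct x) (ct y)
  rw [abs_sub_comm (ct x)] at s7
  have h1' : lo ≤ |ct x| := h1
  have h2' : |ct x| ≤ 8 := h2
  refine ⟨⟨hy0, abs_nonneg _, ?_⟩, fun hl => ⟨hy0, ?_, ?_⟩⟩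
  · show |ct y| ≤ 17 / 2
    linarith
  · show 1 / 11 ≤ |ct y|
    linarith
  · show |ct y| ≤ 17 / 2
    linarith

/-! ## Calculus -/

section
variable {α : Type*} [PseudoMetricSpace α] {G : Type*} [NormedAddCommGroup G]

theorem near_congr {ε : ℝ} {f f' g : α → G} {S : Set α} (h : Near ε f g S)
    (he : ∀ p ∈ S, f p = f' p) : Near ε f' g S := by
  refine ⟨fun p hp => ?_, fun p hp q hq => ?_⟩
  · rw [← he p hp]; exact h.1 p hp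
  · rw [← he p hp, ← he q hq]; exact h.2 p hp q hq

theorem near_half_sub {ε ε' : ℝ} {f g f' g' : α → ℝ} {S : Set α} (h : Near ε f g S)
    (h' : Near ε' f' g' S) : Near (ε + ε') (fun p => (f p - f' p) / 2)
      (fun p => (g p - g' p) / 2) S := by
  refine ⟨fun p hp => ?_, fun p hp q hq => ?_⟩
  · have h1 := h.1 p hp
    have h2 := h'.1 p hp
    rw [Real.norm_eq_abs] at *
    have e : (f p - f' p) / 2 - (g p - g' p) / 2 = ((f p - g p) - (f' p - g' p)) / 2 := by ring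
    rw [e, abs_div, abs_two]
    have h3 := abs_sub (f p - g p) (f' p - g' p)
    have := abs_nonneg (f p - g p - (f' p - g' p))
    linarith
  · have h1 := h.2 p hp q hq
    have h2 := h'.2 p hp q hq
    rw [Real.norm_eq_abs] at *
    have e : (f p - f' p) / 2 - (g p - g' p) / 2 - ((f q - f' q) / 2 - (g q - g' q) / 2) =
        ((f p - g p - (f q - g q)) - (f' p - g' p - (f' q - g' q))) / 2 := by ring
    rw [e, abs_div, abs_two, add_mul]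
    have h3 := abs_sub (f p - g p - (f q - g q)) (f' p - g' p - (f' q - g' q))
    have := abs_nonneg (f p - g p - (f q - g q) - (f' p - g' p - (f' q - g' q)))
    linarith

/-- a word datum along a Lipschitz map -/
theorem two_step {ε ε1 Λ L : ℝ} {S : Set α} {O2 : Set Pl} {S2 : Set (Pl × ℝ × ℝ)}
    {W : Pl × ℝ × ℝ → G} {g0 : Pl → G} {h : α → Pl × ℝ × ℝ} {P0 : α → Pl}
    (hW : Near ε W (fun p => g0 p.1) S2) (hm : MapsTo h S S2)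
    (hhL : ∀ p ∈ S, ∀ q ∈ S, dist (h p) (h q) ≤ Λ * dist p q) (hΛ : 1 ≤ Λ) (hε : 0 ≤ ε)
    (hε1 : 0 ≤ ε1) (hL : 0 ≤ L) (hP : Near ε1 (fun p => (h p).1) P0 S)
    (hP1 : ∀ p ∈ S, (h p).1 ∈ O2) (hP0 : ∀ p ∈ S, P0 p ∈ O2) (hLP0 : Lip Λ P0 S)
    (hg : Reg L g0 O2) :
    Near (ε * Λ + L * ε1 * (1 + 2 * Λ)) (fun p => W (h p)) (fun p => g0 (P0 p)) S := by
  have h1 := near_comp_inner hW hm hhL hΛ hε
  have hLf : Lip Λ (fun p => (h p).1) S := by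
    intro p hp q hq
    rw [← dist_eq_norm]
    exact (le_max_left _ _).trans (hhL p hp q hq)
  have h2 := near_comp_outer hP hP1 hP0 hLf hLP0 hg hL hε1 (by linarith)
  exact near_trans h1 h2

theorem lip_mono {L L' : ℝ} {f : α → G} {S : Set α} (h : Lip L f S) (hL : L ≤ L') :
    Lip L' f S := fun p hp q hq =>
  (h p hp q hq).trans (mul_le_mul_of_nonneg_right hL dist_nonneg)

/-- difference of the values of a perturbed function of the first variable -/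
theorem near_diff {ε L : ℝ} {S2 : Set (Pl × ℝ × ℝ)} {O : Set Pl} {W : Pl × ℝ × ℝ → G}
    {g0 : Pl → G} (hW : Near ε W (fun p => g0 p.1) S2) (hg : Lip L g0 O)
    {u v : Pl × ℝ × ℝ} (hu : u ∈ S2) (hv : v ∈ S2) (hu1 : u.1 ∈ O) (hv1 : v.1 ∈ O) :
    ‖W u - W v‖ ≤ L * ‖u.1 - v.1‖ + ε * dist u v := by
  have h1 := hW.2 u hu v hv
  have h2 := hg u.1 hu1 v.1 hv1
  rw [dist_eq_norm] at h2
  have e : W u - W v = (g0 u.1 - g0 v.1) + ((W u - g0 u.1) - (W v - g0 v.1)) := by abel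
  rw [e]
  exact (norm_add_le _ _).trans (add_le_add h2 h1)

end

theorem dist3_le (u v : Pl × ℝ × ℝ) :
    dist u v ≤ ‖u.1 - v.1‖ + (|u.2.1 - v.2.1| + |u.2.2 - v.2.2|) := by
  show max (dist u.1 v.1) (max |u.2.1 - v.2.1| |u.2.2 - v.2.2|) ≤ _
  rw [dist_eq_norm]
  have h1 := norm_nonneg (u.1 - v.1)
  have h2 := abs_nonneg (u.2.1 - v.2.1)
  have h3 := abs_nonneg (u.2.2 - v.2.2)
  exact max_le (by linarith) (max_le (by linarith) (by linarith))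

theorem quot_reg : ∃ L : ℝ, 0 ≤ L ∧ Reg L (fun p : ℝ × ℝ => p.1 / p.2)
    (Icc (-(17 / 2)) (17 / 2) ×ˢ Icc (99 / 100) (121 / 100)) := by
  refine reg_of_contDiffOn (U := {p : ℝ × ℝ | 0 < p.2}) ?_ ?_ (isCompact_Icc.prod isCompact_Icc)
    ((convex_Icc _ _).prod (convex_Icc _ _)) ?_
  · exact isOpen_lt continuous_const continuous_snd
  · exact contDiff_fst.contDiffOn.div contDiff_snd.contDiffOn fun p hp => ne_of_gt hp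
  · rintro ⟨x, y⟩ ⟨-, hy⟩
    have : (99 / 100 : ℝ) ≤ y := hy.1
    show (0:ℝ) < y
    linarith

/-- the numerical constants of the composition -/
structure Cst (L Λ1 Λ2 A2 Λ3 A4 Λ5 Ld C : ℝ) : Prop where
  L0 : 0 ≤ L
  L1 : 1 ≤ L
  a1 : 1 ≤ Λ1
  a0 : 0 ≤ Λ1
  b1 : 1 ≤ Λ2
  b2 : L + Λ1 ≤ Λ2
  b3 : Λ1 ≤ Λ2
  b4 : L ≤ Λ2
  b0 : 0 ≤ Λ2
  c1 : Λ2 + L * Λ1 * (1 + 2 * Λ2) ≤ A2
  c0 : 0 ≤ A2
  d1 : L * L + L ≤ Λ3
  d2 : L * L + L + (A2 + Λ1) ≤ Λ3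
  d0 : 0 ≤ Λ3
  e1 : 6000 * (A2 + Λ1) * (1 + 2 * Λ3) ≤ A4
  e2 : A2 ≤ A4
  e0 : 0 ≤ A4
  f1 : 6000 * Λ3 + L * L ≤ Λ5
  f2 : 6000 * Λ3 + L * L + A4 ≤ Λ5
  f0 : 0 ≤ Λ5
  g1 : Ld * A4 * (1 + 2 * Λ5) ≤ C
  g2 : A2 ≤ C
  g3 : Λ1 ≤ C

theorem cst_exists {L L1 C1 Ld : ℝ} (hL : 1 ≤ L) (hL1 : 1 ≤ L1) (hC1 : 1 ≤ C1) (hLd : 0 ≤ Ld) :
    ∃ Λ2 A2 Λ3 A4 Λ5 C : ℝ, 1 ≤ C ∧ Cst L (L1 + C1) Λ2 A2 Λ3 A4 Λ5 Ld C := by
  set Λ1 := L1 + C1 with hΛ1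
  obtain ⟨Λ2, hΛ2⟩ : ∃ x, x = L + Λ1 := ⟨_, rfl⟩
  obtain ⟨A2, hA2⟩ : ∃ x, x = Λ2 + L * Λ1 * (1 + 2 * Λ2) := ⟨_, rfl⟩
  obtain ⟨Λ3, hΛ3⟩ : ∃ x, x = L * L + L + (A2 + Λ1) := ⟨_, rfl⟩
  obtain ⟨A4, hA4⟩ : ∃ x, x = 6000 * (A2 + Λ1) * (1 + 2 * Λ3) + A2 := ⟨_, rfl⟩
  obtain ⟨Λ5, hΛ5⟩ : ∃ x, x = 6000 * Λ3 + L * L + A4 := ⟨_, rfl⟩
  have pΛ1 : 2 ≤ Λ1 := by linarith only [hΛ1, hL1, hC1]
  have pΛ2 : 3 ≤ Λ2 := by linarith only [hΛ2, pΛ1, hL]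
  have pA2' : 0 ≤ L * Λ1 * (1 + 2 * Λ2) := by positivity
  have pA2 : 3 ≤ A2 := by linarith only [hA2, pA2', pΛ2]
  have pLL : 0 ≤ L * L := by positivity
  have pΛ3 : 1 ≤ Λ3 := by linarith only [hΛ3, pLL, hL, pA2, pΛ1]
  have pA4' : 0 ≤ 6000 * (A2 + Λ1) * (1 + 2 * Λ3) := by positivity
  have pA4 : 0 ≤ A4 := by linarith only [hA4, pA4', pA2]
  have pΛ5 : 1 ≤ Λ5 := by linarith only [hΛ5, pΛ3, pLL, pA4]
  have pC' : 0 ≤ Ld * A4 * (1 + 2 * Λ5) := by positivity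
  refine ⟨Λ2, A2, Λ3, A4, Λ5, 1 + Λ1 + A2 + Ld * A4 * (1 + 2 * Λ5),
    by linarith only [pΛ1, pA2, pC'], ?_⟩
  constructor
  · linarith only [hL]
  · exact hL
  · linarith only [pΛ1]
  · linarith only [pΛ1]
  · linarith only [pΛ2]
  · linarith only [hΛ2]
  · linarith only [hΛ2, hL]
  · linarith only [hΛ2, pΛ1]
  · linarith only [pΛ2]
  · linarith only [hA2]
  · linarith only [pA2]
  · linarith only [hΛ3, pA2, pΛ1]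
  · linarith only [hΛ3]
  · linarith only [pΛ3]
  · linarith only [hA4, pA2]
  · linarith only [hA4, pA4']
  · exact pA4
  · linarith only [hΛ5, pA4]
  · linarith only [hΛ5]
  · linarith only [pΛ5]
  · linarith only [pΛ1, pA2]
  · linarith only [pΛ1, pC']
  · linarith only [pA2, pC']

/-- the matching angles stay admissible -/
theorem comp_angle {L lo ε : ℝ} (hL0 : 0 ≤ L) {O1 O2 : Set Pl} {w1 w2 : WD} {l1 l2 : LD}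
    (hεL : L * ε ≤ 1 / 20000) (hεc : ε ≤ 1 / 20000)
    (hχ2 : Lip L l2.χ O2) (hw1 : WNear ε O1 w1 l1) (hw2 : WNear ε O2 w2 l2)
    (hO12 : ∀ p ∈ O1 ×ˢ (JJ ×ˢ JJ), w1.P p ∈ O2) (hF12 : ∀ X ∈ O1, l1.F X ∈ O2)
    (hacc : ∀ X ∈ O1, Acc lo 8 (l2.χ (l1.F X)) (l1.θ X)) :
    ∀ X ∈ O1, ∀ b ∈ JJ, ∀ b' ∈ JJ, ∀ c ∈ JJ,
      Acc 0 (17 / 2) (w2.Θ (w1.P (X, c, b), b, b')) (w1.Θ' (X, c, b)) ∧
      (lo = 1 / 10 → Acc (1 / 11) (17 / 2) (w2.Θ (w1.P (X, c, b), b, b')) (w1.Θ' (X, c, b))) := by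
  intro X hX b hb b' hb' c hc
  refine acc_pert (hacc X hX) ?_
  have m1 : (X, c, b) ∈ O1 ×ˢ (JJ ×ˢ JJ) := ⟨hX, hc, hb⟩
  have m2 : (w1.P (X, c, b), b, b') ∈ O2 ×ˢ (JJ ×ˢ JJ) := ⟨hO12 _ m1, hb, hb'⟩
  have k1 := hw2.Θ.1 _ m2
  have k2 := hχ2 _ (hO12 _ m1) _ (hF12 X hX)
  have k3 := hw1.P.1 _ m1
  have k4 := hw1.Θ'.1 _ m1
  rw [dist_eq_norm] at k2
  rw [Real.norm_eq_abs] at k1 k2 k4
  have k5 : L * ‖w1.P (X, c, b) - l1.F X‖ ≤ L * ε := mul_le_mul_of_nonneg_left k3 hL0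
  have e : (w2.Θ (w1.P (X, c, b), b, b') - w1.Θ' (X, c, b)) / 2 -
      (l2.χ (l1.F X) - l1.θ X) / 2 =
      ((w2.Θ (w1.P (X, c, b), b, b') - l2.χ (w1.P (X, c, b))) +
        (l2.χ (w1.P (X, c, b)) - l2.χ (l1.F X)) - (w1.Θ' (X, c, b) - l1.θ X)) / 2 := by ring
  rw [e, abs_div, abs_two]
  have k6 := abs_sub ((w2.Θ (w1.P (X, c, b), b, b') - l2.χ (w1.P (X, c, b))) +
        (l2.χ (w1.P (X, c, b)) - l2.χ (l1.F X))) (w1.Θ' (X, c, b) - l1.θ X)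
  have k7 := abs_add_le (w2.Θ (w1.P (X, c, b), b, b') - l2.χ (w1.P (X, c, b)))
    (l2.χ (w1.P (X, c, b)) - l2.χ (l1.F X))
  simp only at k1 k4
  linarith only [k1, k2, k4, k5, k6, k7, hεL, hεc]

theorem comp_h1 {L ε : ℝ} (hL0 : 0 ≤ L) {O1 : Set Pl} {G : Type} [NormedAddCommGroup G]
    {W : Pl × ℝ × ℝ → G} {g0 : Pl → G} (hε : 0 ≤ ε) (hε1 : ε ≤ 1)
    (hW : Near ε W (fun p => g0 p.1) (O1 ×ˢ (JJ ×ˢ JJ))) (hg : Lip L g0 O1)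
    {X Y : Pl} (hX : X ∈ O1) (hY : Y ∈ O1) {b c b' d : ℝ} (hb : b ∈ JJ) (hc : c ∈ JJ)
    (hb' : b' ∈ JJ) (hd : d ∈ JJ) :
    ‖W (X, c, b) - W (Y, d, b')‖ ≤ (L + 1) * dist (X, c) (Y, d) + ε * |b - b'| := by
  have m1 : (X, c, b) ∈ O1 ×ˢ (JJ ×ˢ JJ) := ⟨hX, hc, hb⟩
  have m2 : (Y, d, b') ∈ O1 ×ˢ (JJ ×ˢ JJ) := ⟨hY, hd, hb'⟩
  have k0 : dist (X, c, b) (Y, d, b') ≤ dist (X, c) (Y, d) + |b - b'| := by
    show max (dist X Y) (max |c - d| |b - b'|) ≤ max (dist X Y) |c - d| + |b - b'|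
    have t1 : dist X Y ≤ max (dist X Y) |c - d| := le_max_left _ _
    have t2 : |c - d| ≤ max (dist X Y) |c - d| := le_max_right _ _
    have t3 : 0 ≤ max (dist X Y) |c - d| := dist_nonneg.trans t1
    have t4 := abs_nonneg (b - b')
    exact max_le (by linarith only [t1, t4]) (max_le (by linarith only [t2, t4])
      (by linarith only [t3]))
  have k1 : ‖X - Y‖ ≤ dist (X, c) (Y, d) := by
    rw [← dist_eq_norm]
    exact le_max_left _ _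
  have d0 : 0 ≤ dist (X, c) (Y, d) := dist_nonneg
  have k2 : ε * dist (X, c, b) (Y, d, b') ≤ 1 * dist (X, c) (Y, d) + ε * |b - b'| := by
    calc ε * dist (X, c, b) (Y, d, b') ≤ ε * (dist (X, c) (Y, d) + |b - b'|) :=
          mul_le_mul_of_nonneg_left k0 hε
      _ = ε * dist (X, c) (Y, d) + ε * |b - b'| := mul_add _ _ _
      _ ≤ _ := by
          have := mul_le_mul_of_nonneg_right hε1 d0
          linarith only [this]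
  have k3 : L * ‖X - Y‖ ≤ L * dist (X, c) (Y, d) := mul_le_mul_of_nonneg_left k1 hL0
  have := near_diff hW hg m1 m2 hX hY
  simp only at this
  linarith only [this, k2, k3]

theorem comp_h2 {L ε : ℝ} {O : Set Pl} {G : Type} [NormedAddCommGroup G]
    {W : Pl × ℝ × ℝ → G} {g0 : Pl → G} (hε : 0 ≤ ε) (hε1 : ε ≤ 1) {I1 I2 : Set ℝ}
    (hW : Near ε W (fun p => g0 p.1) (O ×ˢ (I1 ×ˢ I2))) (hg : Lip L g0 O)
    {X Y : Pl} (hX : X ∈ O) (hY : Y ∈ O) {b c b' c' : ℝ} (hb : b ∈ I1) (hc : c ∈ I1)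
    (hb' : b' ∈ I2) (hc' : c' ∈ I2) :
    ‖W (X, b, b') - W (Y, c, c')‖ ≤ (L + 1) * ‖X - Y‖ + ε * (|b - c| + |b' - c'|) := by
  have m1 : (X, b, b') ∈ O ×ˢ (I1 ×ˢ I2) := ⟨hX, hb, hb'⟩
  have m2 : (Y, c, c') ∈ O ×ˢ (I1 ×ˢ I2) := ⟨hY, hc, hc'⟩
  have k1 := near_diff hW hg m1 m2 hX hY
  have k2 := mul_le_mul_of_nonneg_left (dist3_le (X, b, b') (Y, c, c')) hε
  have k3 := mul_le_mul_of_nonneg_right hε1 (norm_nonneg (X - Y))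
  simp only at k1 k2
  rw [mul_add] at k2
  linarith only [k1, k2, k3]

theorem comp_K {L ε : ℝ} {O : Set Pl} {K : Pl → ℝ → ℝ → ℝ} {κ0 : Pl → ℝ}
    (hεc : ε ≤ 1 / 20000) (hK : KNear ε L O K κ0) {X : Pl} (hX : X ∈ O) (N : ℝ) {b : ℝ}
    (hb : b ∈ JJ) : 99 / 100 ≤ K X N b ∧ K X N b ≤ 121 / 100 := by
  have m1 : (X, N, b) ∈ O ×ˢ ((univ : Set ℝ) ×ˢ JJ) := ⟨hX, mem_univ _, hb⟩
  have k1 := hK.near.1 _ m1
  rw [Real.norm_eq_abs, abs_le] at k1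
  obtain ⟨k1, k1'⟩ := k1
  simp only at k1 k1'
  have k2 := hK.lo X hX
  have k3 := hK.hi X hX
  constructor
  · linarith only [k1, k2, hεc]
  · linarith only [k1', k3, hεc]

theorem lip_fst {L : ℝ} (hL0 : 0 ≤ L) {O1 : Set Pl} {G : Type} [NormedAddCommGroup G]
    {g : Pl → G} (hg : Lip L g O1) :
    Lip L (fun p : Pl × ℝ × ℝ => g p.1) (O1 ×ˢ (JJ ×ˢ JJ)) := by
  intro p hp q hq
  refine (hg p.1 hp.1 q.1 hq.1).trans ?_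
  exact mul_le_mul_of_nonneg_left (le_max_left _ _) hL0

theorem comp_core {L lo Λ1 Λ2 A2 Λ3 A4 Λ5 Ld C ε : ℝ} (hc : Cst L Λ1 Λ2 A2 Λ3 A4 Λ5 Ld C)
    (hLd0 : 0 ≤ Ld) (hLd : Reg Ld (fun p : ℝ × ℝ => p.1 / p.2)
      (Icc (-(17 / 2)) (17 / 2) ×ˢ Icc (99 / 100) (121 / 100)))
    {O1 O2 : Set Pl} {K : Pl → ℝ → ℝ → ℝ} {κ0 : Pl → ℝ} {w1 w2 : WD} {l1 l2 : LD}
    (hε : 0 ≤ ε) (hεc : ε ≤ 1 / 20000) (hε1 : ε ≤ 1)
    (hF1 : Lip L l1.F O1) (hθ1 : Lip L l1.θ O1) (hF2 : Reg L l2.F O2) (hχ2 : Reg L l2.χ O2)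
    (hθ2 : Reg L l2.θ O2) (hκ : Reg L κ0 O2) (hK : KNear ε L O2 K κ0) (hw1 : WNear ε O1 w1 l1)
    (hw2 : WNear ε O2 w2 l2) (hO12 : ∀ p ∈ O1 ×ˢ (JJ ×ˢ JJ), w1.P p ∈ O2)
    (hF12 : ∀ X ∈ O1, l1.F X ∈ O2)
    (hacc : ∀ X ∈ O1, Acc lo 8 (l2.χ (l1.F X)) (l1.θ X))
    (hang : ∀ X ∈ O1, ∀ b ∈ JJ, ∀ b' ∈ JJ, ∀ c ∈ JJ,
      Acc 0 (17 / 2) (w2.Θ (w1.P (X, c, b), b, b')) (w1.Θ' (X, c, b)))
    {B : Pl × ℝ × ℝ → ℝ} (hBJ : ∀ p ∈ O1 ×ˢ (JJ ×ˢ JJ), B p ∈ JJ)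
    (hBL : ∀ p ∈ O1 ×ˢ (JJ ×ˢ JJ), ∀ q ∈ O1 ×ˢ (JJ ×ˢ JJ), |B p - B q| ≤ Λ1 * dist p q)
    (hBe : ∀ p ∈ O1 ×ˢ (JJ ×ˢ JJ), K (w1.P (p.1, p.2.1, B p)) (w1.Θ' (p.1, p.2.1, B p)) (B p) *
      B p = ct ((w2.Θ (w1.P (p.1, p.2.1, B p), B p, p.2.2) - w1.Θ' (p.1, p.2.1, B p)) / 2)) :
    Near (C * ε) B (fun p => ct ((l2.χ (l1.F p.1) - l1.θ p.1) / 2) / κ0 (l1.F p.1))
      (O1 ×ˢ (JJ ×ˢ JJ)) ∧
    Near (C * ε) (fun p => w2.P (w1.P (p.1, p.2.1, B p), B p, p.2.2))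
      (fun p => l2.F (l1.F p.1)) (O1 ×ˢ (JJ ×ˢ JJ)) ∧
    Near (C * ε) (fun p => w1.Θ (p.1, p.2.1, B p)) (fun p => l1.χ p.1) (O1 ×ˢ (JJ ×ˢ JJ)) ∧
    Near (C * ε) (fun p => w2.Θ' (w1.P (p.1, p.2.1, B p), B p, p.2.2))
      (fun p => l2.θ (l1.F p.1)) (O1 ×ˢ (JJ ×ˢ JJ)) := by
  obtain ⟨S, hS⟩ : ∃ S : Set (Pl × ℝ × ℝ), S = O1 ×ˢ (JJ ×ˢ JJ) := ⟨_, rfl⟩
  -- the first word along `h1`
  set h1 : Pl × ℝ × ℝ → Pl × ℝ × ℝ := fun p => (p.1, p.2.1, B p) with hh1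
  have h1m : MapsTo h1 (O1 ×ˢ (JJ ×ˢ JJ)) (O1 ×ˢ (JJ ×ˢ JJ)) := fun p hp =>
    ⟨hp.1, hp.2.1, hBJ p hp⟩
  have h1L : ∀ p ∈ O1 ×ˢ (JJ ×ˢ JJ), ∀ q ∈ O1 ×ˢ (JJ ×ˢ JJ),
      dist (h1 p) (h1 q) ≤ Λ1 * dist p q := by
    intro p hp q hq
    have d0 : 0 ≤ dist p q := dist_nonneg
    have k1 : dist p q ≤ Λ1 * dist p q := le_mul_of_one_le_left d0 hc.a1
    have k2 : dist p.1 q.1 ≤ dist p q := le_max_left _ _
    have k3 : dist p.2.1 q.2.1 ≤ dist p q := (le_max_left _ _).trans (le_max_right _ _)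
    refine max_le (k2.trans k1) (max_le (k3.trans k1) ?_)
    exact hBL p hp q hq
  have hPn : Near (ε * Λ1) (fun p => w1.P (h1 p)) (fun p => l1.F p.1) (O1 ×ˢ (JJ ×ˢ JJ)) :=
    near_comp_inner hw1.P h1m h1L hc.a1 hε
  have hNn : Near (ε * Λ1) (fun p => w1.Θ' (h1 p)) (fun p => l1.θ p.1) (O1 ×ˢ (JJ ×ˢ JJ)) :=
    near_comp_inner hw1.Θ' h1m h1L hc.a1 hε
  have hTn : Near (ε * Λ1) (fun p => w1.Θ (h1 p)) (fun p => l1.χ p.1) (O1 ×ˢ (JJ ×ˢ JJ)) :=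
    near_comp_inner hw1.Θ h1m h1L hc.a1 hε
  have hεΛ : ε * Λ1 ≤ Λ1 := mul_le_of_le_one_left hc.a0 hε1
  have hεΛ0 : 0 ≤ ε * Λ1 := mul_nonneg hε hc.a0
  have hb2 := hc.b2
  have hPL : Lip Λ2 (fun p => w1.P (h1 p)) (O1 ×ˢ (JJ ×ˢ JJ)) :=
    lip_mono (lip_of_near hPn (lip_fst hc.L0 hF1)) (by linarith only [hεΛ, hb2])
  have hNL : Lip Λ2 (fun p => w1.Θ' (h1 p)) (O1 ×ˢ (JJ ×ˢ JJ)) :=
    lip_mono (lip_of_near hNn (lip_fst hc.L0 hθ1)) (by linarith only [hεΛ, hb2])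
  have hPO : ∀ p ∈ O1 ×ˢ (JJ ×ˢ JJ), w1.P (h1 p) ∈ O2 := fun p hp => hO12 _ (h1m hp)
  have hP0O : ∀ p ∈ O1 ×ˢ (JJ ×ˢ JJ), l1.F p.1 ∈ O2 := fun p hp => hF12 _ hp.1
  have hP0L : Lip Λ2 (fun p : Pl × ℝ × ℝ => l1.F p.1) (O1 ×ˢ (JJ ×ˢ JJ)) :=
    lip_mono (lip_fst hc.L0 hF1) hc.b4
  -- the second word along `h2`
  set h2 : Pl × ℝ × ℝ → Pl × ℝ × ℝ := fun p => (w1.P (h1 p), B p, p.2.2) with hh2
  have h2m : MapsTo h2 (O1 ×ˢ (JJ ×ˢ JJ)) (O2 ×ˢ (JJ ×ˢ JJ)) :=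
    fun p hp => ⟨hPO p hp, hBJ p hp, hp.2.2⟩
  have h2L : ∀ p ∈ O1 ×ˢ (JJ ×ˢ JJ), ∀ q ∈ O1 ×ˢ (JJ ×ˢ JJ),
      dist (h2 p) (h2 q) ≤ Λ2 * dist p q := by
    intro p hp q hq
    have d0 : 0 ≤ dist p q := dist_nonneg
    have k2 : dist p.2.2 q.2.2 ≤ dist p q := (le_max_right _ _).trans (le_max_right _ _)
    refine max_le ?_ (max_le ?_ ?_)
    · rw [dist_eq_norm]; exact hPL p hp q hq
    · exact (hBL p hp q hq).trans (mul_le_mul_of_nonneg_right hc.b3 d0)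
    · exact k2.trans (le_mul_of_one_le_left d0 hc.b1)
  have hcst : ε * Λ2 + L * (ε * Λ1) * (1 + 2 * Λ2) ≤ A2 * ε := by
    have := mul_le_mul_of_nonneg_right hc.c1 hε
    linarith only [this]
  have hP2 := near_mono (two_step (g0 := l2.F) hw2.P h2m h2L hc.b1 hε hεΛ0 hc.L0 hPn hPO hP0O
    hP0L hF2) hcst subset_rfl
  have hT2 := near_mono (two_step (g0 := l2.χ) hw2.Θ h2m h2L hc.b1 hε hεΛ0 hc.L0 hPn hPO hP0O
    hP0L hχ2) hcst subset_rfl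
  have hN2 := near_mono (two_step (g0 := l2.θ) hw2.Θ' h2m h2L hc.b1 hε hεΛ0 hc.L0 hPn hPO hP0O
    hP0L hθ2) hcst subset_rfl
  -- the relative speed along `h3`
  set h3 : Pl × ℝ × ℝ → Pl × ℝ × ℝ := fun p => (w1.P (h1 p), w1.Θ' (h1 p), B p) with hh3
  have h3m : MapsTo h3 (O1 ×ˢ (JJ ×ˢ JJ)) (O2 ×ˢ ((univ : Set ℝ) ×ˢ JJ)) :=
    fun p hp => ⟨hPO p hp, mem_univ _, hBJ p hp⟩
  have h3L : ∀ p ∈ O1 ×ˢ (JJ ×ˢ JJ), ∀ q ∈ O1 ×ˢ (JJ ×ˢ JJ),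
      dist (h3 p) (h3 q) ≤ Λ2 * dist p q := by
    intro p hp q hq
    have d0 : 0 ≤ dist p q := dist_nonneg
    refine max_le ?_ (max_le ?_ ?_)
    · rw [dist_eq_norm]; exact hPL p hp q hq
    · show dist (w1.Θ' (h1 p)) (w1.Θ' (h1 q)) ≤ _
      rw [dist_eq_norm]; exact hNL p hp q hq
    · exact (hBL p hp q hq).trans (mul_le_mul_of_nonneg_right hc.b3 d0)
  have hK2 := near_mono (two_step (g0 := κ0) hK.near h3m h3L hc.b1 hε hεΛ0 hc.L0 hPn hPO hP0O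
    hP0L hκ) hcst subset_rfl
  -- the angle
  have hang2 := near_half_sub hT2 hNn
  have hang2' : A2 * ε + ε * Λ1 = (A2 + Λ1) * ε := by ring
  rw [hang2'] at hang2
  have hA0 : 0 ≤ A2 + Λ1 := add_nonneg hc.c0 hc.a0
  have hAε : (A2 + Λ1) * ε ≤ A2 + Λ1 := mul_le_of_le_one_right hA0 hε1
  have hAε0 : 0 ≤ (A2 + Λ1) * ε := mul_nonneg hA0 hε
  have hχL : Lip (L * L) (fun p : Pl × ℝ × ℝ => l2.χ (l1.F p.1)) (O1 ×ˢ (JJ ×ˢ JJ)) := by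
    intro p hp q hq
    refine (hχ2.1 _ (hP0O p hp) _ (hP0O q hq)).trans ?_
    rw [mul_assoc, dist_eq_norm]
    exact mul_le_mul_of_nonneg_left (lip_fst hc.L0 hF1 p hp q hq) hc.L0
  have hκL : Lip (L * L) (fun p : Pl × ℝ × ℝ => κ0 (l1.F p.1)) (O1 ×ˢ (JJ ×ˢ JJ)) := by
    intro p hp q hq
    refine (hκ.1 _ (hP0O p hp) _ (hP0O q hq)).trans ?_
    rw [mul_assoc, dist_eq_norm]
    exact mul_le_mul_of_nonneg_left (lip_fst hc.L0 hF1 p hp q hq) hc.L0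
  have hgL0 : Lip (L * L + L) (fun p : Pl × ℝ × ℝ => (l2.χ (l1.F p.1) - l1.θ p.1) / 2)
      (O1 ×ˢ (JJ ×ˢ JJ)) := by
    intro p hp q hq
    have k1 := hχL p hp q hq
    have k2 := lip_fst hc.L0 hθ1 p hp q hq
    rw [Real.norm_eq_abs] at *
    have e : (l2.χ (l1.F p.1) - l1.θ p.1) / 2 - (l2.χ (l1.F q.1) - l1.θ q.1) / 2 =
        ((l2.χ (l1.F p.1) - l2.χ (l1.F q.1)) - (l1.θ p.1 - l1.θ q.1)) / 2 := by ring
    rw [e, abs_div, abs_two, add_mul]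
    have k3 := abs_sub (l2.χ (l1.F p.1) - l2.χ (l1.F q.1)) (l1.θ p.1 - l1.θ q.1)
    have k4 := abs_nonneg ((l2.χ (l1.F p.1) - l2.χ (l1.F q.1)) - (l1.θ p.1 - l1.θ q.1))
    linarith only [k1, k2, k3, k4]
  have hgL : Lip Λ3 (fun p : Pl × ℝ × ℝ => (l2.χ (l1.F p.1) - l1.θ p.1) / 2)
      (O1 ×ˢ (JJ ×ˢ JJ)) := lip_mono hgL0 hc.d1
  have hd2 := hc.d2
  have hfL : Lip Λ3 (fun p => (w2.Θ (h2 p) - w1.Θ' (h1 p)) / 2) (O1 ×ˢ (JJ ×ˢ JJ)) :=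
    lip_mono (lip_of_near hang2 hgL0) (by linarith only [hAε, hd2])
  have hgS : ∀ p ∈ O1 ×ˢ (JJ ×ˢ JJ), (l2.χ (l1.F p.1) - l1.θ p.1) / 2 ∈ Sc := by
    intro p hp
    obtain ⟨a1, a2, a3⟩ := hacc p.1 hp.1
    exact ⟨a1, a3.trans (by norm_num)⟩
  have hfS : ∀ p ∈ O1 ×ˢ (JJ ×ˢ JJ), (w2.Θ (h2 p) - w1.Θ' (h1 p)) / 2 ∈ Sc := by
    intro p hp
    obtain ⟨a1, a2, a3⟩ := hang p.1 hp.1 (B p) (hBJ p hp) p.2.2 hp.2.2 p.2.1 hp.2.1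
    exact ⟨a1, a3⟩
  have hct := near_comp_outer hang2 hfS hgS hfL hgL ct_reg (by norm_num) hAε0 hc.d0
  have hct' : Near (A4 * ε) (ct ∘ fun p => (w2.Θ (h2 p) - w1.Θ' (h1 p)) / 2)
      (ct ∘ fun p : Pl × ℝ × ℝ => (l2.χ (l1.F p.1) - l1.θ p.1) / 2) (O1 ×ˢ (JJ ×ˢ JJ)) := by
    refine near_mono hct ?_ subset_rfl
    have k1 := mul_le_mul_of_nonneg_right hc.e1 hε
    linarith only [k1]
  have hK2' : Near (A4 * ε) (fun p => K (h3 p).1 (h3 p).2.1 (h3 p).2.2)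
      (fun p : Pl × ℝ × ℝ => κ0 (l1.F p.1)) (O1 ×ˢ (JJ ×ˢ JJ)) :=
    near_mono hK2 (mul_le_mul_of_nonneg_right hc.e2 hε) subset_rfl
  have hpr := near_prod hct' hK2'
  have hA4ε : A4 * ε ≤ A4 := mul_le_of_le_one_right hc.e0 hε1
  have hA4ε0 : 0 ≤ A4 * ε := mul_nonneg hc.e0 hε
  have hctL : Lip (6000 * Λ3) (ct ∘ fun p : Pl × ℝ × ℝ => (l2.χ (l1.F p.1) - l1.θ p.1) / 2)
      (O1 ×ˢ (JJ ×ˢ JJ)) := by
    intro p hp q hq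
    refine (ct_reg.1 _ (hgS p hp) _ (hgS q hq)).trans ?_
    rw [mul_assoc, dist_eq_norm]
    exact mul_le_mul_of_nonneg_left (hgL p hp q hq) (by norm_num)
  have hprL0 : Lip (6000 * Λ3 + L * L) (fun p : Pl × ℝ × ℝ =>
      ((ct ∘ fun p : Pl × ℝ × ℝ => (l2.χ (l1.F p.1) - l1.θ p.1) / 2) p, κ0 (l1.F p.1)))
      (O1 ×ˢ (JJ ×ˢ JJ)) := by
    intro p hp q hq
    have d0 : 0 ≤ dist p q := dist_nonneg
    have k1 := hctL p hp q hq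
    have k2 := hκL p hp q hq
    have k3 : 0 ≤ 6000 * Λ3 * dist p q :=
      mul_nonneg (mul_nonneg (by norm_num) hc.d0) d0
    have k4 : 0 ≤ L * L * dist p q := mul_nonneg (mul_nonneg hc.L0 hc.L0) d0
    rw [add_mul]
    refine max_le ?_ ?_
    · exact le_trans k1 (le_add_of_nonneg_right k4)
    · exact le_trans k2 (le_add_of_nonneg_left k3)
  have hprL : Lip Λ5 (fun p : Pl × ℝ × ℝ =>
      ((ct ∘ fun p : Pl × ℝ × ℝ => (l2.χ (l1.F p.1) - l1.θ p.1) / 2) p, κ0 (l1.F p.1)))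
      (O1 ×ˢ (JJ ×ˢ JJ)) := lip_mono hprL0 hc.f1
  have hf2 := hc.f2
  have hprL' := lip_mono (lip_of_near hpr hprL0) (show _ ≤ Λ5 by linarith only [hA4ε, hf2])
  have hm1 : MapsTo (fun p : Pl × ℝ × ℝ =>
      ((ct ∘ fun p : Pl × ℝ × ℝ => (l2.χ (l1.F p.1) - l1.θ p.1) / 2) p, κ0 (l1.F p.1)))
      (O1 ×ˢ (JJ ×ˢ JJ)) (Icc (-(17 / 2)) (17 / 2) ×ˢ Icc (99 / 100) (121 / 100)) := by
    intro p hp
    have k1 := abs_le.1 (hgS p hp).2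
    have k2 := hK.lo _ (hP0O p hp)
    have k3 := hK.hi _ (hP0O p hp)
    exact ⟨⟨k1.1, k1.2⟩, ⟨by show (99 / 100 : ℝ) ≤ κ0 (l1.F p.1); linarith only [k2],
      by show κ0 (l1.F p.1) ≤ (121 / 100 : ℝ); linarith only [k3]⟩⟩
  have hKb : ∀ p ∈ O1 ×ˢ (JJ ×ˢ JJ), 99 / 100 ≤ K (h3 p).1 (h3 p).2.1 (h3 p).2.2 ∧
      K (h3 p).1 (h3 p).2.1 (h3 p).2.2 ≤ 121 / 100 := fun p hp =>
    comp_K hεc hK (hPO p hp) _ (hBJ p hp)
  have hm2 : MapsTo (fun p : Pl × ℝ × ℝ =>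
      ((ct ∘ fun p => (w2.Θ (h2 p) - w1.Θ' (h1 p)) / 2) p, K (h3 p).1 (h3 p).2.1 (h3 p).2.2))
      (O1 ×ˢ (JJ ×ˢ JJ)) (Icc (-(17 / 2)) (17 / 2) ×ˢ Icc (99 / 100) (121 / 100)) := by
    intro p hp
    have k1 := abs_le.1 (hfS p hp).2
    exact ⟨⟨k1.1, k1.2⟩, hKb p hp⟩
  have hq := near_comp_outer hpr hm2 hm1 hprL' hprL hLd hLd0 hA4ε0 hc.f0
  have hBeq : ∀ p ∈ O1 ×ˢ (JJ ×ˢ JJ), ((fun p : ℝ × ℝ => p.1 / p.2) ∘ (fun p : Pl × ℝ × ℝ =>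
      ((ct ∘ fun p => (w2.Θ (h2 p) - w1.Θ' (h1 p)) / 2) p,
        K (h3 p).1 (h3 p).2.1 (h3 p).2.2))) p = B p := by
    intro p hp
    have k1 := hBe p hp
    have k2 := (hKb p hp).1
    have k3 : K (h3 p).1 (h3 p).2.1 (h3 p).2.2 ≠ 0 := by
      intro h
      rw [h] at k2
      norm_num at k2
    show ct ((w2.Θ (h2 p) - w1.Θ' (h1 p)) / 2) / K (h3 p).1 (h3 p).2.1 (h3 p).2.2 = B p
    rw [div_eq_iff k3]
    have k4 : B p * K (h3 p).1 (h3 p).2.1 (h3 p).2.2 = K (h3 p).1 (h3 p).2.1 (h3 p).2.2 * B p :=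
      mul_comm _ _
    rw [k4]
    exact k1.symm
  have hBn := near_congr hq hBeq
  refine ⟨?_, ?_, ?_, ?_⟩
  · refine near_mono hBn ?_ subset_rfl
    have k1 := mul_le_mul_of_nonneg_right hc.g1 hε
    linarith only [k1]
  · exact near_mono hP2 (mul_le_mul_of_nonneg_right hc.g2 hε) subset_rfl
  · refine near_mono hTn ?_ subset_rfl
    rw [mul_comm ε]
    exact mul_le_mul_of_nonneg_right hc.g3 hε
  · exact near_mono hN2 (mul_le_mul_of_nonneg_right hc.g2 hε) subset_rfl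

theorem comp_near_pr (L lo : ℝ) (hL : 1 ≤ L) (hlo : lo = 0 ∨ lo = 1 / 10) :
    ∃ C ε0 : ℝ, 1 ≤ C ∧ 0 < ε0 ∧
    ∀ (O1 O2 : Set Pl) (K : Pl → ℝ → ℝ → ℝ) (κ0 : Pl → ℝ) (w1 w2 : WD) (l1 l2 : LD) (ε : ℝ),
      0 ≤ ε → ε ≤ ε0 →
      Lip L l1.F O1 → Lip L l1.χ O1 → Lip L l1.θ O1 → Reg L l2.F O2 → Reg L l2.χ O2 → Reg L l2.θ O2 →
      Reg L κ0 O2 → KNear ε L O2 K κ0 → WNear ε O1 w1 l1 → WNear ε O2 w2 l2 →
      (∀ p ∈ O1 ×ˢ (JJ ×ˢ JJ), w1.P p ∈ O2) → (∀ X ∈ O1, l1.F X ∈ O2) →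
      (∀ X ∈ O1, Acc lo 8 (l2.χ (l1.F X)) (l1.θ X)) →
      ∃ B : Pl × ℝ × ℝ → ℝ,
        Near (C * ε) B (fun p => Real.cos ((l2.χ (l1.F p.1) - l1.θ p.1) / 2) /
          Real.sin ((l2.χ (l1.F p.1) - l1.θ p.1) / 2) / κ0 (l1.F p.1)) (O1 ×ˢ (JJ ×ˢ JJ)) ∧
        (∀ X ∈ O1, ∀ b ∈ JJ, ∀ b' ∈ JJ, (lo = 1 / 10 → 1 / 14 ≤ |B (X, b, b')|) ∧
          |B (X, b, b')| ≤ 9 ∧
          Mat K (w1.P (X, b, B (X, b, b'))) (w1.Θ' (X, b, B (X, b, b'))) (B (X, b, b'))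
            (w2.Θ (w1.P (X, b, B (X, b, b')), B (X, b, b'), b'))) ∧
        WNear (C * ε) O1
          { P := fun p => w2.P (w1.P (p.1, p.2.1, B p), B p, p.2.2)
            Θ := fun p => w1.Θ (p.1, p.2.1, B p)
            Θ' := fun p => w2.Θ' (w1.P (p.1, p.2.1, B p), B p, p.2.2) }
          { F := fun X => l2.F (l1.F X), χ := l1.χ, θ := fun X => l2.θ (l1.F X) } := by
  obtain ⟨L1, C1, ε0', hL1, hC1, hε0', hlink⟩ := link_lip (L + 1) (by linarith)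
  obtain ⟨Ld, hLd0, hLd⟩ := quot_reg
  obtain ⟨Λ2, A2, Λ3, A4, Λ5, C, hC, hc⟩ := cst_exists hL hL1 hC1 hLd0
  refine ⟨C, min ε0' (1 / (20000 * L)), hC, lt_min hε0' (by positivity), ?_⟩
  intro O1 O2 K κ0 w1 w2 l1 l2 ε hε hεle hF1 hχ1 hθ1 hF2 hχ2 hθ2 hκ hK hw1 hw2 hO12 hF12 hacc
  have hεa : ε ≤ ε0' := hεle.trans (min_le_left _ _)
  have hεb : ε ≤ 1 / (20000 * L) := hεle.trans (min_le_right _ _)
  have hεL : L * ε ≤ 1 / 20000 := by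
    calc L * ε ≤ L * (1 / (20000 * L)) := mul_le_mul_of_nonneg_left hεb hc.L0
      _ = 1 / 20000 := by field_simp
  have hεc : ε ≤ 1 / 20000 := (le_mul_of_one_le_left hε hL).trans hεL
  have hε1 : ε ≤ 1 := by linarith only [hεc]
  have hang := comp_angle hc.L0 hεL hεc hχ2.1 hw1 hw2 hO12 hF12 hacc
  refine Exists.elim (hlink (Q := Pl × ℝ) (O1 ×ˢ JJ)
    (fun p => w1.P (p.1.1, p.1.2, p.2)) (fun p => w1.Θ' (p.1.1, p.1.2, p.2)) O2 K w2.Θ ε ε hε hε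
    hεa hεa ?_ ?_ ?_ ?_ ?_ ?_) ?_
  · rintro ⟨X, c⟩ ⟨hX, hcc⟩ ⟨Y, d⟩ ⟨hY, hd⟩ b hb b' hb'
    exact ⟨comp_h1 hc.L0 hε hε1 hw1.P hF1 hX hY hb hcc hb' hd,
      comp_h1 hc.L0 hε hε1 hw1.Θ' hθ1 hX hY hb hcc hb' hd⟩
  · rintro ⟨X, c⟩ ⟨hX, hc⟩ b hb
    exact hO12 _ ⟨hX, hc, hb⟩
  · intro X hX Y hY b hb c hc b' hb' c' hc'
    exact comp_h2 hε hε1 hw2.Θ hχ2.1 hX hY hb hc hb' hc'
  · intro X hX Y hY N N' b hb c hc
    exact comp_h2 hε hε1 hK.near hκ.1 hX hY (mem_univ N) (mem_univ N') hb hc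
  · intro X hX N b hb
    exact comp_K hεc hK hX N hb
  · rintro ⟨X, c⟩ ⟨hX, hc⟩ b hb b' hb'
    exact (hang X hX b hb b' hb' c hc).1
  -- the composite
  rintro B' ⟨hB1, hB2⟩
  simp only at hB1 hB2
  have hBJ : ∀ p ∈ O1 ×ˢ (JJ ×ˢ JJ), B' ((p.1, p.2.1), p.2.2) ∈ JJ := by
    rintro ⟨X, b, b'⟩ ⟨hX, hb, hb'⟩
    have h1 := (hB1 (X, b) ⟨hX, hb⟩ b' hb').2.1
    obtain ⟨h2, h3⟩ := abs_le.1 h1
    exact ⟨by show (-10:ℝ) ≤ B' ((X, b), b'); linarith only [h2],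
      by show B' ((X, b), b') ≤ (10:ℝ); linarith only [h3]⟩
  have hBL : ∀ p ∈ O1 ×ˢ (JJ ×ˢ JJ), ∀ q ∈ O1 ×ˢ (JJ ×ˢ JJ),
      |B' ((p.1, p.2.1), p.2.2) - B' ((q.1, q.2.1), q.2.2)| ≤ (L1 + C1) * dist p q := by
    rintro ⟨X, b, b'⟩ ⟨hX, hb, hb'⟩ ⟨Y, c, c'⟩ ⟨hY, hc, hc'⟩
    have h1 := hB2 (X, b) ⟨hX, hb⟩ (Y, c) ⟨hY, hc⟩ b' hb' c' hc'
    have h2 : dist (X, b) (Y, c) ≤ dist (X, b, b') (Y, c, c') := by
      show max (dist X Y) (dist b c) ≤ max (dist X Y) (max (dist b c) (dist b' c'))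
      exact max_le (le_max_left _ _) ((le_max_left _ _).trans (le_max_right _ _))
    have h3 : |b' - c'| ≤ dist (X, b, b') (Y, c, c') := by
      show dist b' c' ≤ max (dist X Y) (max (dist b c) (dist b' c'))
      exact (le_max_right _ _).trans (le_max_right _ _)
    have h4 : L1 * dist (X, b) (Y, c) ≤ L1 * dist (X, b, b') (Y, c, c') :=
      mul_le_mul_of_nonneg_left h2 (by linarith only [hL1])
    have h5 : C1 * ε * |b' - c'| ≤ C1 * dist (X, b, b') (Y, c, c') := by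
      calc C1 * ε * |b' - c'| ≤ C1 * 1 * dist (X, b, b') (Y, c, c') :=
            mul_le_mul (mul_le_mul_of_nonneg_left hε1 (by linarith only [hC1])) h3 (abs_nonneg _)
              (by linarith only [hC1])
        _ = _ := by ring
    simp only
    rw [add_mul]
    exact h1.trans (add_le_add h4 h5)
  obtain ⟨r1, r2, r3, r4⟩ := comp_core hc hLd0 hLd hε hεc hε1 hF1 hθ1 hF2 hχ2 hθ2 hκ hK hw1 hw2
    hO12 hF12 hacc (fun X hX b hb b' hb' c hc => (hang X hX b hb b' hb' c hc).1) (B := fun p => B' ((p.1, p.2.1), p.2.2)) hBJ hBL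
    (fun p hp => (hB1 (p.1, p.2.1) ⟨hp.1, hp.2.1⟩ p.2.2 hp.2.2).2.2.2)
  refine ⟨fun p => B' ((p.1, p.2.1), p.2.2), r1, ?_, r2, r3, r4⟩
  intro X hX b hb b' hb'
  obtain ⟨k1, k2, k3, -⟩ := hB1 (X, b) ⟨hX, hb⟩ b' hb'
  exact ⟨fun hl => k1 ((hang X hX _ (hBJ (X, b, b') ⟨hX, hb, hb'⟩) b' hb' b hb).2 hl), k2, k3⟩

/-- the relational side of the composition -/
theorem comp_realizes_pr (sys : Sys) (O1 O2 : Set Pl) (w1 w2 : WD)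
    (R1 R2 : Pl × ℝ × ℝ → sys.S → sys.S → Prop) (B : Pl × ℝ × ℝ → ℝ)
    (h1 : Realizes sys O1 w1 R1) (h2 : Realizes sys O2 w2 R2)
    (hP : ∀ p ∈ O1 ×ˢ (JJ ×ˢ JJ), w1.P p ∈ O2)
    (hB : ∀ X ∈ O1, ∀ b ∈ JJ, ∀ b' ∈ JJ, |B (X, b, b')| ≤ 9 ∧
      Mat sys.K (w1.P (X, b, B (X, b, b'))) (w1.Θ' (X, b, B (X, b, b'))) (B (X, b, b'))
        (w2.Θ (w1.P (X, b, B (X, b, b')), B (X, b, b'), b'))) :
    Realizes sys O1
      { P := fun p => w2.P (w1.P (p.1, p.2.1, B p), B p, p.2.2)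
        Θ := fun p => w1.Θ (p.1, p.2.1, B p)
        Θ' := fun p => w2.Θ' (w1.P (p.1, p.2.1, B p), B p, p.2.2) }
      (fun p x y => B p ≠ 0 → ∃ w, R1 (p.1, p.2.1, B p) x w ∧
        R2 (w1.P (p.1, p.2.1, B p), B p, p.2.2) w y) := by
  intro X hX b hb b' hb' hb0 hb0' N hMat h0
  obtain ⟨k2, k3⟩ := hB X hX b hb b' hb'
  have hJ : B (X, b, b') ∈ JJ := by
    have := abs_le.1 k2
    exact ⟨by linarith [this.1], by linarith [this.2]⟩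
  exact ⟨_, h1 X hX b hb _ hJ hb0 h0 N hMat,
    h2 _ (hP _ ⟨hX, hb, hJ⟩) _ hJ b' hb' h0 hb0' _ k3⟩

end

end Pool.Agent.HS.COMP

namespace Pool.Agent.HS
open Set Filter Topology Classical

theorem comp_near (L lo : ℝ) (hL : 1 ≤ L) (hlo : lo = 0 ∨ lo = 1 / 10) :
    ∃ C ε0 : ℝ, 1 ≤ C ∧ 0 < ε0 ∧
    ∀ (O1 O2 : Set Pl) (K : Pl → ℝ → ℝ → ℝ) (κ0 : Pl → ℝ) (w1 w2 : WD) (l1 l2 : LD) (ε : ℝ),
      0 ≤ ε → ε ≤ ε0 →
      Lip L l1.F O1 → Lip L l1.χ O1 → Lip L l1.θ O1 → Reg L l2.F O2 → Reg L l2.χ O2 → Reg L l2.θ O2 →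
      Reg L κ0 O2 → KNear ε L O2 K κ0 → WNear ε O1 w1 l1 → WNear ε O2 w2 l2 →
      (∀ p ∈ O1 ×ˢ (JJ ×ˢ JJ), w1.P p ∈ O2) → (∀ X ∈ O1, l1.F X ∈ O2) →
      (∀ X ∈ O1, Acc lo 8 (l2.χ (l1.F X)) (l1.θ X)) →
      ∃ B : Pl × ℝ × ℝ → ℝ,
        Near (C * ε) B (fun p => Real.cos ((l2.χ (l1.F p.1) - l1.θ p.1) / 2) /
          Real.sin ((l2.χ (l1.F p.1) - l1.θ p.1) / 2) / κ0 (l1.F p.1)) (O1 ×ˢ (JJ ×ˢ JJ)) ∧
        (∀ X ∈ O1, ∀ b ∈ JJ, ∀ b' ∈ JJ, (lo = 1 / 10 → 1 / 14 ≤ |B (X, b, b')|) ∧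
          |B (X, b, b')| ≤ 9 ∧
          Mat K (w1.P (X, b, B (X, b, b'))) (w1.Θ' (X, b, B (X, b, b'))) (B (X, b, b'))
            (w2.Θ (w1.P (X, b, B (X, b, b')), B (X, b, b'), b'))) ∧
        WNear (C * ε) O1
          { P := fun p => w2.P (w1.P (p.1, p.2.1, B p), B p, p.2.2)
            Θ := fun p => w1.Θ (p.1, p.2.1, B p)
            Θ' := fun p => w2.Θ' (w1.P (p.1, p.2.1, B p), B p, p.2.2) }
          { F := fun X => l2.F (l1.F X), χ := l1.χ, θ := fun X => l2.θ (l1.F X) } :=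
  @Pool.Agent.HS.COMP.comp_near_pr L lo hL hlo

end Pool.Agent.HS

namespace Pool.Agent.HS
open Set Filter Topology Classical

theorem comp_realizes (sys : Sys) (O1 O2 : Set Pl) (w1 w2 : WD)
    (R1 R2 : Pl × ℝ × ℝ → sys.S → sys.S → Prop) (B : Pl × ℝ × ℝ → ℝ)
    (h1 : Realizes sys O1 w1 R1) (h2 : Realizes sys O2 w2 R2)
    (hP : ∀ p ∈ O1 ×ˢ (JJ ×ˢ JJ), w1.P p ∈ O2)
    (hB : ∀ X ∈ O1, ∀ b ∈ JJ, ∀ b' ∈ JJ, |B (X, b, b')| ≤ 9 ∧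
      Mat sys.K (w1.P (X, b, B (X, b, b'))) (w1.Θ' (X, b, B (X, b, b'))) (B (X, b, b'))
        (w2.Θ (w1.P (X, b, B (X, b, b')), B (X, b, b'), b'))) :
    Realizes sys O1
      { P := fun p => w2.P (w1.P (p.1, p.2.1, B p), B p, p.2.2)
        Θ := fun p => w1.Θ (p.1, p.2.1, B p)
        Θ' := fun p => w2.Θ' (w1.P (p.1, p.2.1, B p), B p, p.2.2) }
      (fun p x y => B p ≠ 0 → ∃ w, R1 (p.1, p.2.1, B p) x w ∧
        R2 (w1.P (p.1, p.2.1, B p), B p, p.2.2) w y) :=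
  @Pool.Agent.HS.COMP.comp_realizes_pr sys O1 O2 w1 w2 R1 R2 B h1 h2 hP hB

end Pool.Agent.HS
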