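import Pool.Agent.Lib_helper60.HSF.D_WE2
import Pool.Agent.Lib_helper60.HSF.D_WA
import Pool.Agent.Lib_helper60.HSF.A_CA
import Pool.Agent.Lib_helper60.HSF.E_E0b
import Pool.Agent.Lib_helper60.HSF.G_COMP

/-!
# HS, block E1b: composition, restriction and change of plain words
-/

namespace Pool.Agent.HS.E1B

noncomputable section

open Set Filter Topology Classical

theorem wnear_mono {ε ε' : ℝ} {O O' : Set Pl} {w : WD} {l : LD} (h : WNear ε O w l)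
    (hε : ε ≤ ε') (hO : O' ⊆ O) : WNear ε' O' w l where
  P := near_mono h.P hε (Set.prod_mono hO subset_rfl)
  Θ := near_mono h.Θ hε (Set.prod_mono hO subset_rfl)
  Θ' := near_mono h.Θ' hε (Set.prod_mono hO subset_rfl)

theorem pw_comp_pr {C : ℝ} (hC : 0 < C ∧ C ≤ 1) {O1 O2 : Set Pl} {l1 l2 : LD} (h1 : PW C O1 l1)
    (h2 : PW C O2 l2) {r : ℝ} (hr : 0 < r) (hm : ∀ X ∈ O1, Metric.closedBall (l1.F X) r ⊆ O2)
    (ha : ∀ X ∈ O1, Acc (1 / 10) 8 (l2.χ (l1.F X)) (l1.θ X)) : PW C O1 (l1.comp l2) := by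
  obtain ⟨hc1, ⟨L1, hL1, r1F, r1χ, r1θ⟩, cd1, re1⟩ := h1
  obtain ⟨hc2, ⟨L2, hL2, r2F, r2χ, r2θ⟩, cd2, re2⟩ := h2
  obtain ⟨Lk, hLk, hkreg⟩ := kap0_reg C hC
  have hF2 : ∀ X ∈ O1, l1.F X ∈ O2 := fun X hX => hm X hX (Metric.mem_closedBall_self hr.le)
  have hO2 : O2 ⊆ CD C := fun X hX => (cd2 X hX).1
  set L : ℝ := max 1 (max L1 (max L2 Lk)) with hL
  have hLa : 1 ≤ L := le_max_left _ _
  have hLb : L1 ≤ L := le_trans (le_max_left _ _) (le_max_right _ _)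
  have hLc : L2 ≤ L := le_trans (le_trans (le_max_left _ _) (le_max_right _ _)) (le_max_right _ _)
  have hLd : Lk ≤ L := le_trans (le_trans (le_max_right _ _) (le_max_right _ _)) (le_max_right _ _)
  refine ⟨hc1, ?_, ?_, ?_⟩
  · refine ⟨max (L2 * (L1 + L1 ^ 2)) L1, le_trans hL1 (le_max_right _ _), ?_, ?_, ?_⟩
    · have h : Reg (L2 * (L1 + L1 ^ 2)) (l2.F ∘ l1.F) O1 := reg_comp r1F r2F hF2 hL1 hL2
      exact reg_mono h (le_max_left _ _) subset_rfl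
    · exact reg_mono r1χ (le_max_right _ _) subset_rfl
    · have h : Reg (L2 * (L1 + L1 ^ 2)) (l2.θ ∘ l1.F) O1 := reg_comp r1F r2θ hF2 hL1 hL2
      exact reg_mono h (le_max_left _ _) subset_rfl
  · intro X hX
    exact ⟨(cd1 X hX).1, (cd2 _ (hF2 X hX)).2⟩
  · intro ε hε
    obtain ⟨C0, ε0, hC0, hε0, hcomp⟩ := comp_near L (1 / 10) hLa (Or.inr rfl)
    have hC0' : 0 < C0 := by linarith
    set ε' : ℝ := min (ε / C0) (min ε0 r) with hε'
    have hε'0 : 0 < ε' := lt_min (by positivity) (lt_min hε0 hr)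
    have hε'1 : C0 * ε' ≤ ε := by
      have : ε' ≤ ε / C0 := min_le_left _ _
      rw [le_div_iff₀ hC0'] at this
      linarith
    have hε'2 : ε' ≤ ε0 := le_trans (min_le_right _ _) (min_le_left _ _)
    have hε'3 : ε' ≤ r := le_trans (min_le_right _ _) (min_le_right _ _)
    have hkL : Reg L (fun X : Pl => kap0 C (chart C X)) O2 := reg_mono hkreg hLd hO2
    obtain ⟨μ1, hμ1, H1⟩ := re1 ε' hε'0
    obtain ⟨μ2, hμ2, H2⟩ := re2 ε' hε'0
    obtain ⟨μ3, hμ3, H3⟩ := kap_knear C hC L O2 hO2 hkL.1 ε' hε'0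
    refine ⟨min μ1 (min μ2 μ3), lt_min hμ1 (lt_min hμ2 hμ3), ?_⟩
    intro μ hμ hμ0
    have m1 : μ < μ1 := lt_of_lt_of_le hμ0 (min_le_left _ _)
    have m2 : μ < μ2 := lt_of_lt_of_le hμ0 (le_trans (min_le_right _ _) (min_le_left _ _))
    have m3 : μ < μ3 := lt_of_lt_of_le hμ0 (le_trans (min_le_right _ _) (min_le_right _ _))
    obtain ⟨w1, n1, R1⟩ := H1 μ hμ m1
    obtain ⟨w2, n2, R2⟩ := H2 μ hμ m2
    have hK := H3 μ hμ m3
    have hP : ∀ p ∈ O1 ×ˢ (JJ ×ˢ JJ), w1.P p ∈ O2 := by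
      intro p hp
      apply hm p.1 hp.1
      rw [Metric.mem_closedBall, dist_eq_norm]
      exact le_trans (n1.P.1 p hp) hε'3
    obtain ⟨B, -, hB2, hB3⟩ := hcomp O1 O2 (hs C μ).K (fun X => kap0 C (chart C X)) w1 w2 l1 l2 ε'
      hε'0.le hε'2 (reg_mono r1F hLb subset_rfl).1 (reg_mono r1χ hLb subset_rfl).1
      (reg_mono r1θ hLb subset_rfl).1 (reg_mono r2F hLc subset_rfl)
      (reg_mono r2χ hLc subset_rfl) (reg_mono r2θ hLc subset_rfl) hkL hK n1 n2 hP hF2 ha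
    refine ⟨_, wnear_mono hB3 hε'1 subset_rfl, ?_⟩
    have hreal := comp_realizes (hs C μ) O1 O2 w1 w2 _ _ B R1 R2 hP
      (fun X hX b hb b' hb' => (hB2 X hX b hb b' hb').2)
    intro X hX b hb b' hb' hb0 hb'0 N hmat
    have hBne : B (X, b, b') ≠ 0 := by
      intro h0
      have := (hB2 X hX b hb b' hb').1 rfl
      rw [h0, abs_zero] at this
      norm_num at this
    obtain ⟨y, hy1, hy2⟩ := hreal X hX b hb b' hb' hb0 hb'0 N hmat hBne
    exact (hs C μ).trans hy1 hy2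

theorem pw_mono_pr {C : ℝ} {O O' : Set Pl} {l : LD} (h : PW C O l) (hO : IsCompact O')
    (hs : O' ⊆ O) : PW C O' l := by
  obtain ⟨hc, ⟨L, hL, rF, rχ, rθ⟩, cd, re⟩ := h
  refine ⟨hO, ⟨L, hL, reg_mono rF le_rfl hs, reg_mono rχ le_rfl hs, reg_mono rθ le_rfl hs⟩,
    fun X hX => cd X (hs hX), ?_⟩
  intro ε hε
  obtain ⟨μ0, hμ0, H⟩ := re ε hε
  refine ⟨μ0, hμ0, fun μ hμ hμ' => ?_⟩
  obtain ⟨w, n, R⟩ := H μ hμ hμ'
  exact ⟨w, wnear_mono n le_rfl hs, fun X hX => R X (hs hX)⟩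

theorem reg_congr {L : ℝ} {F : Type*} [NormedAddCommGroup F] {f g : Pl → F} {S : Set Pl} {c : F}
    (h : Reg L f S) (hg : ∀ x ∈ S, g x = f x + c) : Reg L g S := by
  constructor
  · intro p hp q hq
    rw [hg p hp, hg q hq]
    have : f p + c - (f q + c) = f p - f q := by abel
    rw [this]
    exact h.1 p hp q hq
  · intro x hx y hy x' hx' y' hy'
    rw [hg x hx, hg y hy, hg x' hx', hg y' hy']
    have : f x + c - (f y + c) - (f x' + c) + (f y' + c) = f x - f y - f x' + f y' := by abel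
    rw [this]
    exact h.2 x hx y hy x' hx' y' hy'

theorem near_congr {α E : Type*} [PseudoMetricSpace α] [NormedAddCommGroup E] {ε : ℝ}
    {f g f' g' : α → E} {S : Set α} {c : E} (h : Near ε f g S) (hf : ∀ x ∈ S, f' x = f x + c)
    (hg : ∀ x ∈ S, g' x = g x + c) : Near ε f' g' S := by
  constructor
  · intro p hp
    rw [hf p hp, hg p hp]
    have : f p + c - (g p + c) = f p - g p := by abel
    rw [this]
    exact h.1 p hp
  · intro p hp q hq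
    rw [hf p hp, hg p hp, hf q hq, hg q hq]
    have : (f p + c - (g p + c)) - (f q + c - (g q + c)) = (f p - g p) - (f q - g q) := by abel
    rw [this]
    exact h.2 p hp q hq

theorem mat_shift {K : Pl → ℝ → ℝ → ℝ} {X : Pl} {N β χ : ℝ} (k : ℤ)
    (h : Mat K X N β (χ + 2 * Real.pi * k)) : Mat K X N β χ := by
  obtain ⟨m, hm⟩ := h
  refine ⟨k + m, ?_⟩
  rw [hm]
  push_cast
  ring

/-- shift of the directions by multiples of `2π`; change of the data off `O` -/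
theorem pw_congr_pr {C : ℝ} {O : Set Pl} {l l' : LD} (h : PW C O l) (k k' : ℤ)
    (h' : ∀ X ∈ O, l'.F X = l.F X ∧ l'.χ X = l.χ X + 2 * Real.pi * k ∧
      l'.θ X = l.θ X + 2 * Real.pi * k') : PW C O l' := by
  obtain ⟨hc, ⟨L, hL, rF, rχ, rθ⟩, cd, re⟩ := h
  refine ⟨hc, ⟨L, hL, reg_congr (c := 0) rF (fun X hX => by rw [(h' X hX).1, add_zero]),
    reg_congr rχ (fun X hX => (h' X hX).2.1), reg_congr rθ (fun X hX => (h' X hX).2.2)⟩, ?_, ?_⟩
  · intro X hX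
    rw [(h' X hX).1]
    exact cd X hX
  intro ε hε
  obtain ⟨μ0, hμ0, H⟩ := re ε hε
  refine ⟨μ0, hμ0, fun μ hμ hμ' => ?_⟩
  obtain ⟨w, n, R⟩ := H μ hμ hμ'
  refine ⟨{ P := w.P, Θ := fun p => w.Θ p + 2 * Real.pi * k,
            Θ' := fun p => w.Θ' p + 2 * Real.pi * k' }, ?_, ?_⟩
  · constructor
    · exact near_congr (c := 0) n.P (fun p hp => by simp)
        (fun p hp => by rw [(h' p.1 hp.1).1, add_zero])
    · exact near_congr n.Θ (fun p hp => rfl) (fun p hp => (h' p.1 hp.1).2.1)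
    · exact near_congr n.Θ' (fun p hp => rfl) (fun p hp => (h' p.1 hp.1).2.2)
  · intro X hX b hb b' hb' hb0 hb'0 N hmat
    have h1 := R X hX b hb b' hb' hb0 hb'0 N (mat_shift k hmat)
    have h2 : (hs C μ).enc (w.P (X, b, b')) (w.Θ' (X, b, b') + 2 * Real.pi * k') b' =
        (hs C μ).enc (w.P (X, b, b')) (w.Θ' (X, b, b')) b' := enc_period C μ _ _ _ _
    show (hs C μ).reach _ ((hs C μ).enc (w.P (X, b, b')) (w.Θ' (X, b, b') + 2 * Real.pi * k') b')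
    rw [h2]
    exact h1

end

end Pool.Agent.HS.E1B

namespace Pool.Agent.HS
open Set Filter Topology Classical

theorem pw_comp {C : ℝ} (hC : 0 < C ∧ C ≤ 1) {O1 O2 : Set Pl} {l1 l2 : LD} (h1 : PW C O1 l1)
    (h2 : PW C O2 l2) {r : ℝ} (hr : 0 < r) (hm : ∀ X ∈ O1, Metric.closedBall (l1.F X) r ⊆ O2)
    (ha : ∀ X ∈ O1, Acc (1 / 10) 8 (l2.χ (l1.F X)) (l1.θ X)) : PW C O1 (l1.comp l2) :=
  @Pool.Agent.HS.E1B.pw_comp_pr C hC O1 O2 l1 l2 h1 h2 r hr hm ha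

end Pool.Agent.HS

namespace Pool.Agent.HS
open Set Filter Topology Classical

theorem pw_mono {C : ℝ} {O O' : Set Pl} {l : LD} (h : PW C O l) (hO : IsCompact O')
    (hs : O' ⊆ O) : PW C O' l :=
  @Pool.Agent.HS.E1B.pw_mono_pr C O O' l h hO hs

end Pool.Agent.HS

namespace Pool.Agent.HS
open Set Filter Topology Classical

theorem pw_congr {C : ℝ} {O : Set Pl} {l l' : LD} (h : PW C O l) (k k' : ℤ)
    (h' : ∀ X ∈ O, l'.F X = l.F X ∧ l'.χ X = l.χ X + 2 * Real.pi * k ∧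
      l'.θ X = l.θ X + 2 * Real.pi * k') : PW C O l' :=
  @Pool.Agent.HS.E1B.pw_congr_pr C O l l' h k k' h'

end Pool.Agent.HS
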