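import Pool.Agent.Lib_helper60.HSF.D_WE2
import Pool.Agent.Lib_helper60.HSF.D_WA
import Pool.Agent.Lib_helper60.HSF.A_CA
import Pool.Agent.Lib_helper60.HSF.G_COMP
import Pool.Agent.Lib_helper60.HSF.E_E0a
import Pool.Agent.Lib_helper60.HSF.E_E0b

/-!
# HSE block E2a: event words, composition with plain words
-/

namespace Pool.Agent.HS

noncomputable section

open Set Filter Topology Classical

/-! ### The cotangent -/

theorem e2_sin {u : ℝ} (hu : Real.sin u ≠ 0) (h1 : |Real.cos u / Real.sin u| ≤ 8) :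
    1 ≤ 65 * Real.sin u ^ 2 := by
  have h2 : (Real.cos u / Real.sin u) ^ 2 ≤ 64 := by
    rw [← sq_abs]
    nlinarith [abs_nonneg (Real.cos u / Real.sin u)]
  rw [div_pow, div_le_iff₀ (by positivity)] at h2
  nlinarith [Real.sin_sq_add_cos_sq u]

theorem e2_cot {u v : ℝ} (hu : Real.sin u ≠ 0) (hv : Real.sin v ≠ 0)
    (h1 : |Real.cos u / Real.sin u| ≤ 8) (h2 : |Real.cos v / Real.sin v| ≤ 8) :
    |Real.cos u / Real.sin u - Real.cos v / Real.sin v| ≤ 65 * |u - v| := by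
  have hs1 := e2_sin hu h1
  have hs2 := e2_sin hv h2
  have e : Real.cos u / Real.sin u - Real.cos v / Real.sin v =
      Real.sin (v - u) / (Real.sin u * Real.sin v) := by
    rw [Real.sin_sub]; field_simp
  rw [e, abs_div, div_le_iff₀ (abs_pos.2 (mul_ne_zero hu hv))]
  have h3 : |Real.sin (v - u)| ≤ |u - v| := by
    rw [abs_sub_comm u v]; exact Real.abs_sin_le_abs
  have h4 : 1 ≤ 65 * |Real.sin u * Real.sin v| := by
    have h5 : 1 ≤ (65 * |Real.sin u * Real.sin v|) ^ 2 := by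
      rw [mul_pow, sq_abs, mul_pow]
      nlinarith
    by_contra hh
    push Not at hh
    nlinarith [abs_nonneg (Real.sin u * Real.sin v)]
  nlinarith [abs_nonneg (u - v)]

/-- the limit impact parameter is Lipschitz -/
theorem e2_B0 {L : ℝ} (hL : 0 ≤ L) {O1 O2 : Set Pl} {F : Pl → Pl} {χ θ κ : Pl → ℝ}
    (hF : Lip L F O1) (hθ : Lip L θ O1) (hχ : Lip L χ O2) (hκ : Lip L κ O2)
    (hm : ∀ X ∈ O1, F X ∈ O2) (hk : ∀ X ∈ O2, 1 ≤ κ X)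
    (ha : ∀ X ∈ O1, Acc (1 / 10) 8 (χ (F X)) (θ X)) :
    Lip (33 * (L ^ 2 + L) + 8 * L ^ 2) (fun p : Pl × ℝ × ℝ =>
      Real.cos ((χ (F p.1) - θ p.1) / 2) / Real.sin ((χ (F p.1) - θ p.1) / 2) / κ (F p.1))
      (O1 ×ˢ (JJ ×ˢ JJ)) := by
  intro p hp q hq
  have hp1 : p.1 ∈ O1 := hp.1
  have hq1 : q.1 ∈ O1 := hq.1
  obtain ⟨s1, -, c1⟩ := ha _ hp1
  obtain ⟨s2, -, c2⟩ := ha _ hq1
  have hc := e2_cot s1 s2 c1 c2
  have hd : dist p.1 q.1 ≤ dist p q := by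
    rw [Prod.dist_eq]; exact le_max_left _ _
  have hd0 : 0 ≤ dist p q := dist_nonneg
  have hFF : dist (F p.1) (F q.1) ≤ L * dist p q := by
    rw [dist_eq_norm]
    exact (hF _ hp1 _ hq1).trans (mul_le_mul_of_nonneg_left hd hL)
  have hχχ : |χ (F p.1) - χ (F q.1)| ≤ L * (L * dist p q) :=
    (hχ _ (hm _ hp1) _ (hm _ hq1)).trans (mul_le_mul_of_nonneg_left hFF hL)
  have hκκ : |κ (F p.1) - κ (F q.1)| ≤ L * (L * dist p q) :=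
    (hκ _ (hm _ hp1) _ (hm _ hq1)).trans (mul_le_mul_of_nonneg_left hFF hL)
  have hθθ : |θ p.1 - θ q.1| ≤ L * dist p q :=
    (hθ _ hp1 _ hq1).trans (mul_le_mul_of_nonneg_left hd hL)
  have hk1 := hk _ (hm _ hp1)
  have hk2 := hk _ (hm _ hq1)
  set a := Real.cos ((χ (F p.1) - θ p.1) / 2) / Real.sin ((χ (F p.1) - θ p.1) / 2) with hadef
  set b := Real.cos ((χ (F q.1) - θ q.1) / 2) / Real.sin ((χ (F q.1) - θ q.1) / 2) with hbdef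
  have hu : |(χ (F p.1) - θ p.1) / 2 - (χ (F q.1) - θ q.1) / 2| ≤ (L ^ 2 + L) * dist p q / 2 := by
    have e : (χ (F p.1) - θ p.1) / 2 - (χ (F q.1) - θ q.1) / 2 =
      ((χ (F p.1) - χ (F q.1)) - (θ p.1 - θ q.1)) / 2 := by ring
    rw [e, abs_div, abs_two]
    have := abs_sub (χ (F p.1) - χ (F q.1)) (θ p.1 - θ q.1)
    have e2 : (L ^ 2 + L) * dist p q / 2 = (L * (L * dist p q) + L * dist p q) / 2 := by ring
    rw [e2]
    linarith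
  have hab : |a - b| ≤ 65 * ((L ^ 2 + L) * dist p q / 2) :=
    hc.trans (mul_le_mul_of_nonneg_left hu (by norm_num))
  have e : a / κ (F p.1) - b / κ (F q.1) =
      (a - b) / κ (F p.1) + b * (κ (F q.1) - κ (F p.1)) / (κ (F p.1) * κ (F q.1)) := by
    field_simp
    ring
  have h1 : |(a - b) / κ (F p.1)| ≤ |a - b| := by
    rw [abs_div, abs_of_pos (by linarith : (0:ℝ) < κ (F p.1))]
    exact div_le_self (abs_nonneg _) hk1
  have h2 : |b * (κ (F q.1) - κ (F p.1)) / (κ (F p.1) * κ (F q.1))| ≤ 8 * (L * (L * dist p q)) := by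
    have hkk : (1:ℝ) ≤ κ (F p.1) * κ (F q.1) := by nlinarith
    rw [abs_div, abs_of_pos (by linarith : (0:ℝ) < κ (F p.1) * κ (F q.1))]
    refine (div_le_self (abs_nonneg _) hkk).trans ?_
    rw [abs_mul]
    refine mul_le_mul c2 ?_ (abs_nonneg _) (by norm_num)
    rw [abs_sub_comm]; exact hκκ
  have h3 : ‖a / κ (F p.1) - b / κ (F q.1)‖ ≤
      65 * ((L ^ 2 + L) * dist p q / 2) + 8 * (L * (L * dist p q)) := by
    rw [e, Real.norm_eq_abs]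
    exact (abs_add_le _ _).trans (add_le_add (h1.trans hab) h2)
  refine h3.trans ?_
  have : 0 ≤ (L ^ 2 + L) * dist p q := by positivity
  nlinarith

/-! ### Calculus of `Reg` -/

section
variable {E E' F : Type*} [NormedAddCommGroup E] [NormedAddCommGroup E'] [NormedAddCommGroup F]

theorem e2_reg_lin {L : ℝ} {f : E → F} {S : Set E} {T : Set E'} (π : E' →+ E)
    (hπ : ∀ x, ‖π x‖ ≤ ‖x‖) (hf : Reg L f S) (hL : 0 ≤ L) (hm : MapsTo π T S) :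
    Reg L (fun x => f (π x)) T := by
  refine ⟨fun p hp q hq => ?_, fun x hx y hy x' hx' y' hy' => ?_⟩
  · refine (hf.1 _ (hm hp) _ (hm hq)).trans (mul_le_mul_of_nonneg_left ?_ hL)
    rw [dist_eq_norm, dist_eq_norm, ← map_sub]; exact hπ _
  · refine (hf.2 _ (hm hx) _ (hm hy) _ (hm hx') _ (hm hy')).trans ?_
    have h1 : ‖π x - π y - π x' + π y'‖ ≤ ‖x - y - x' + y'‖ := by
      rw [← map_sub, ← map_sub, ← map_add]; exact hπ _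
    have h2 : ‖π x - π x'‖ ≤ ‖x - x'‖ := by rw [← map_sub]; exact hπ _
    have h3 : ‖π y - π y'‖ ≤ ‖y - y'‖ := by rw [← map_sub]; exact hπ _
    have h4 : ‖π x' - π y'‖ ≤ ‖x' - y'‖ := by rw [← map_sub]; exact hπ _
    gcongr

theorem e2_reg_id {S : Set E} : Reg 1 (fun x : E => x) S := by
  refine ⟨fun p _ q _ => ?_, fun x _ y _ x' _ y' _ => ?_⟩
  · rw [one_mul, dist_eq_norm]
  · rw [one_mul, one_mul]
    have : 0 ≤ (‖x - x'‖ + ‖y - y'‖) * ‖x' - y'‖ := by positivity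
    linarith

end

theorem e2_near_refl {α E : Type*} [PseudoMetricSpace α] [NormedAddCommGroup E] {ε : ℝ}
    (hε : 0 ≤ ε) (f : α → E) (S : Set α) : Near ε f f S := by
  refine ⟨fun p _ => by simpa using hε, fun p _ q _ => ?_⟩
  have : 0 ≤ ε * dist p q := by positivity
  simpa using this

/-! ### The link -/

theorem e2_link {C : ℝ} (hC : 0 < C ∧ C ≤ 1) {O1 O2 : Set Pl} {l1 l2 : LD} {L1 L2 : ℝ}
    (r1F : Reg L1 l1.F O1) (r1χ : Reg L1 l1.χ O1) (r1θ : Reg L1 l1.θ O1)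
    (r2F : Reg L2 l2.F O2) (r2χ : Reg L2 l2.χ O2) (r2θ : Reg L2 l2.θ O2)
    (hcd : ∀ X ∈ O2, X ∈ CD C) {r : ℝ} (hr : 0 < r)
    (hm : ∀ X ∈ O1, Metric.closedBall (l1.F X) r ⊆ O2)
    (ha : ∀ X ∈ O1, Acc (1 / 10) 8 (l2.χ (l1.F X)) (l1.θ X)) :
    ∃ Cn ε0 Λ : ℝ, 1 ≤ Cn ∧ 0 < ε0 ∧ 1 ≤ Λ ∧ ∀ ε, 0 < ε → ε ≤ ε0 → ∃ μ1 : ℝ, 0 < μ1 ∧
      ∀ μ, 0 < μ → μ < μ1 → ∀ w1 w2 : WD, WNear ε O1 w1 l1 → WNear ε O2 w2 l2 →
      (∀ p ∈ O1 ×ˢ (JJ ×ˢ JJ), w1.P p ∈ O2) ∧ ∃ B : Pl × ℝ × ℝ → ℝ,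
        Lip Λ B (O1 ×ˢ (JJ ×ˢ JJ)) ∧
        (∀ X ∈ O1, ∀ b ∈ JJ, ∀ b' ∈ JJ, 1 / 14 ≤ |B (X, b, b')| ∧
          |B (X, b, b')| ≤ 9 ∧
          Mat (hs C μ).K (w1.P (X, b, B (X, b, b'))) (w1.Θ' (X, b, B (X, b, b'))) (B (X, b, b'))
            (w2.Θ (w1.P (X, b, B (X, b, b')), B (X, b, b'), b'))) ∧
        WNear (Cn * ε) O1
          { P := fun p => w2.P (w1.P (p.1, p.2.1, B p), B p, p.2.2)
            Θ := fun p => w1.Θ (p.1, p.2.1, B p)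
            Θ' := fun p => w2.Θ' (w1.P (p.1, p.2.1, B p), B p, p.2.2) } (l1.comp l2) := by
  obtain ⟨Lk, hLk0, hLk⟩ := kap0_reg C hC
  set L : ℝ := max 1 (max L1 (max L2 Lk)) with hLdef
  have hL : 1 ≤ L := le_max_left _ _
  have hL1 : L1 ≤ L := (le_max_left _ _).trans (le_max_right _ _)
  have hL2 : L2 ≤ L := ((le_max_left _ _).trans (le_max_right _ _)).trans (le_max_right _ _)
  have hLk' : Lk ≤ L := ((le_max_right _ _).trans (le_max_right _ _)).trans (le_max_right _ _)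
  have hO2 : O2 ⊆ CD C := hcd
  obtain ⟨Cn, ε0, hCn, hε0, H⟩ := comp_near L (1 / 10) hL (Or.inr rfl)
  have hCn0 : 0 < Cn := by linarith
  refine ⟨Cn, min ε0 (min r (1 / Cn)), 33 * (L ^ 2 + L) + 8 * L ^ 2 + 1, hCn,
    lt_min hε0 (lt_min hr (by positivity)), by nlinarith, ?_⟩
  intro ε hε hεle
  have e1 : ε ≤ ε0 := hεle.trans (min_le_left _ _)
  have e2 : ε ≤ r := (hεle.trans (min_le_right _ _)).trans (min_le_left _ _)
  have e3 : ε ≤ 1 / Cn := (hεle.trans (min_le_right _ _)).trans (min_le_right _ _)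
  have hκ : Reg L (fun X : Pl => kap0 C (chart C X)) O2 := reg_mono hLk hLk' hO2
  obtain ⟨μ1, hμ1, hK⟩ := kap_knear C hC L O2 hO2 hκ.1 ε hε
  refine ⟨μ1, hμ1, ?_⟩
  intro μ hμ hμ' w1 w2 hw1 hw2
  have hKN := hK μ hμ hμ'
  have hP : ∀ p ∈ O1 ×ˢ (JJ ×ˢ JJ), w1.P p ∈ O2 := by
    intro p hp
    refine hm p.1 hp.1 ?_
    rw [Metric.mem_closedBall, dist_eq_norm]
    exact (hw1.P.1 p hp).trans e2
  have hF : ∀ X ∈ O1, l1.F X ∈ O2 := fun X hX => hm X hX (Metric.mem_closedBall_self hr.le)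
  have R1F := reg_mono r1F hL1 Subset.rfl
  have R1χ := reg_mono r1χ hL1 Subset.rfl
  have R1θ := reg_mono r1θ hL1 Subset.rfl
  have R2F := reg_mono r2F hL2 Subset.rfl
  have R2χ := reg_mono r2χ hL2 Subset.rfl
  have R2θ := reg_mono r2θ hL2 Subset.rfl
  obtain ⟨B, hB1, hB2, hB3⟩ := H O1 O2 (hs C μ).K (fun X => kap0 C (chart C X)) w1 w2 l1 l2 ε
    hε.le e1 R1F.1 R1χ.1 R1θ.1 R2F R2χ R2θ hκ hKN hw1 hw2 hP hF ha
  refine ⟨hP, B, ?_, ?_, hB3⟩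
  · have h0 := e2_B0 (by linarith : 0 ≤ L) R1F.1 R1θ.1 R2χ.1 hκ.1 hF hKN.lo ha
    have h1 := lip_of_near hB1 h0
    intro p hp q hq
    refine (h1 p hp q hq).trans (mul_le_mul_of_nonneg_right ?_ dist_nonneg)
    have : Cn * ε ≤ 1 := by
      calc Cn * ε ≤ Cn * (1 / Cn) := mul_le_mul_of_nonneg_left e3 hCn0.le
        _ = 1 := by field_simp
    linarith
  · intro X hX b hb b' hb'
    obtain ⟨a1, a2, a3⟩ := hB2 X hX b hb b' hb'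
    exact ⟨a1 rfl, a2, a3⟩

/-! ### Event words -/

theorem evw_mono_pr {C : ℝ} {S : ℝ → Set (ℝ × ℂ)} {O O' : Set Pl} {l : LD}
    {ι : Type} [Fintype ι] {g0 : Pl × ℝ → ℂ} {τe h : ℝ} {ζ0 : ι → Pl × ℝ → ℂ} {τm : ι → ℝ}
    (h1 : EvW C S O l ι g0 τe h ζ0 τm) (hO : IsCompact O') (hs : O' ⊆ O) :
    EvW C S O' l ι g0 τe h ζ0 τm := by
  refine ⟨hO, h1.hh, ?_, fun X hX => h1.cd X (hs hX), h1.pos, h1.mono, ?_⟩
  · obtain ⟨L, hL, a1, a2, a3, a4, a5⟩ := h1.reg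
    exact ⟨L, hL, reg_mono a1 le_rfl hs, reg_mono a2 le_rfl hs, reg_mono a3 le_rfl hs,
      reg_mono a4 le_rfl (prod_mono hs Subset.rfl),
      fun j => reg_mono (a5 j) le_rfl (prod_mono hs Subset.rfl)⟩
  · intro ε hε
    obtain ⟨r, hr, H⟩ := h1.real ε hε
    refine ⟨r, hr, fun p hp => ?_⟩
    obtain ⟨w, Ri, gf, ζ, b1, b2, b3, b4, Λ, hΛ, b5⟩ := H p hp
    refine ⟨w, Ri, gf, ζ, ⟨near_mono b1.P le_rfl (prod_mono hs Subset.rfl),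
      near_mono b1.Θ le_rfl (prod_mono hs Subset.rfl),
      near_mono b1.Θ' le_rfl (prod_mono hs Subset.rfl)⟩, fun X hX => b2 X (hs hX),
      near_mono b3 le_rfl (prod_mono hs Subset.rfl),
      fun j => near_mono (b4 j) le_rfl (prod_mono hs Subset.rfl), Λ, hΛ,
      fun X hX => b5 X (hs hX)⟩

/-- the final data of a composed word -/
theorem e2_reg_comp {O1 O2 : Set Pl} {l1 l2 : LD} {L : ℝ} (hL : 0 ≤ L) (r1F : Reg L l1.F O1)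
    (r1χ : Reg L l1.χ O1) (r2F : Reg L l2.F O2) (r2θ : Reg L l2.θ O2)
    (hm : ∀ X ∈ O1, l1.F X ∈ O2) :
    Reg (L + L * (L + L ^ 2)) (l1.comp l2).F O1 ∧ Reg (L + L * (L + L ^ 2)) (l1.comp l2).χ O1 ∧
      Reg (L + L * (L + L ^ 2)) (l1.comp l2).θ O1 := by
  have h0 : 0 ≤ L * (L + L ^ 2) := by positivity
  refine ⟨?_, ?_, ?_⟩
  · have h := reg_comp (f := l1.F) (g := l2.F) r1F r2F hm hL hL
    exact reg_mono h (by linarith) Subset.rfl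
  · exact reg_mono r1χ (by linarith) Subset.rfl
  · have h := reg_comp (f := l1.F) (g := l2.θ) r1F r2θ hm hL hL
    exact reg_mono h (by linarith) Subset.rfl

/-- precomposition of an event function with the last impact parameter -/
theorem e2_right_near {O1 : Set Pl} {I : Set ℝ} {B : Pl × ℝ × ℝ → ℝ} {Λ ε : ℝ} (hΛ : 1 ≤ Λ)
    (hε : 0 ≤ ε) (hB : Lip Λ B (O1 ×ˢ (JJ ×ˢ JJ)))
    (hJ : ∀ p ∈ O1 ×ˢ (JJ ×ˢ JJ), B p ∈ JJ) {gf : Pl × ℝ × ℝ × ℝ → ℂ} {g0 : Pl × ℝ → ℂ}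
    (h : Near ε gf (fun q => g0 (q.1, q.2.2.2)) (O1 ×ˢ (JJ ×ˢ (JJ ×ˢ I)))) :
    Near (ε * Λ) (fun q : Pl × ℝ × ℝ × ℝ => gf (q.1, q.2.1, B (q.1, q.2.1, q.2.2.1), q.2.2.2))
      (fun q => g0 (q.1, q.2.2.2)) (O1 ×ˢ (JJ ×ˢ (JJ ×ˢ I))) := by
  have := near_comp_inner (β := Pl × ℝ × ℝ × ℝ)
    (h := fun q : Pl × ℝ × ℝ × ℝ => (q.1, q.2.1, B (q.1, q.2.1, q.2.2.1), q.2.2.2))
    (T := O1 ×ˢ (JJ ×ˢ (JJ ×ˢ I))) (Λ := Λ) h
    (fun q hq => ⟨hq.1, hq.2.1, hJ (q.1, q.2.1, q.2.2.1) ⟨hq.1, hq.2.1, hq.2.2.1⟩, hq.2.2.2⟩)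
    ?_ hΛ hε
  · exact this
  · intro p hp q hq
    have h1 : dist p.1 q.1 ≤ dist p q := by rw [Prod.dist_eq]; exact le_max_left _ _
    have h2 : dist p.2 q.2 ≤ dist p q := by rw [Prod.dist_eq]; exact le_max_right _ _
    have h3 : dist p.2.1 q.2.1 ≤ dist p q := by
      refine le_trans ?_ h2
      rw [Prod.dist_eq]; exact le_max_left _ _
    have h4 : dist p.2.2 q.2.2 ≤ dist p q := by
      refine le_trans ?_ h2
      rw [Prod.dist_eq]; exact le_max_right _ _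
    have h5 : dist p.2.2.1 q.2.2.1 ≤ dist p q := by
      refine le_trans ?_ h4
      rw [Prod.dist_eq]; exact le_max_left _ _
    have h6 : dist p.2.2.2 q.2.2.2 ≤ dist p q := by
      refine le_trans ?_ h4
      rw [Prod.dist_eq]; exact le_max_right _ _
    have h7 : dist (B (p.1, p.2.1, p.2.2.1)) (B (q.1, q.2.1, q.2.2.1)) ≤ Λ * dist p q := by
      rw [dist_eq_norm]
      refine (hB _ ⟨hp.1, hp.2.1, hp.2.2.1⟩ _ ⟨hq.1, hq.2.1, hq.2.2.1⟩).trans ?_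
      refine mul_le_mul_of_nonneg_left ?_ (by linarith)
      rw [Prod.dist_eq, Prod.dist_eq]
      exact max_le h1 (max_le h3 h5)
    have h8 : dist p q ≤ Λ * dist p q := le_mul_of_one_le_left dist_nonneg hΛ
    rw [Prod.dist_eq, Prod.dist_eq, Prod.dist_eq]
    exact max_le (h1.trans h8) (max_le (h3.trans h8) (max_le h7 (h6.trans h8)))

theorem e2_JJ {x : ℝ} (h : |x| ≤ 9) : x ∈ JJ := by
  have := abs_le.1 h
  exact ⟨by linarith [this.1], by linarith [this.2]⟩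

theorem evw_right_pr {C : ℝ} (hC : 0 < C ∧ C ≤ 1) {S : ℝ → Set (ℝ × ℂ)} {O1 O2 : Set Pl}
    {l1 l2 : LD}
    {ι : Type} [Fintype ι] {g0 : Pl × ℝ → ℂ} {τe h : ℝ} {ζ0 : ι → Pl × ℝ → ℂ} {τm : ι → ℝ}
    (h1 : EvW C S O1 l1 ι g0 τe h ζ0 τm) (h2 : PW C O2 l2) {r : ℝ} (hr : 0 < r)
    (hm : ∀ X ∈ O1, Metric.closedBall (l1.F X) r ⊆ O2)
    (ha : ∀ X ∈ O1, Acc (1 / 10) 8 (l2.χ (l1.F X)) (l1.θ X)) :
    EvW C S O1 (l1.comp l2) ι g0 τe h ζ0 τm := by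
  obtain ⟨L1, hL1, r1F, r1χ, r1θ, r1g, r1ζ⟩ := h1.reg
  obtain ⟨-, ⟨L2, hL2, r2F, r2χ, r2θ⟩, hcd2, H2⟩ := h2
  have hF : ∀ X ∈ O1, l1.F X ∈ O2 := fun X hX => hm X hX (Metric.mem_closedBall_self hr.le)
  refine ⟨h1.cpt, h1.hh, ?_, fun X hX => ⟨(h1.cd X hX).1, (hcd2 _ (hF X hX)).2⟩, h1.pos,
    h1.mono, ?_⟩
  · set L := max L1 L2 with hLdef
    have hL : 0 ≤ L := hL1.trans (le_max_left _ _)
    have e1 : L1 ≤ L := le_max_left _ _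
    have e2 : L2 ≤ L := le_max_right _ _
    have h0 : 0 ≤ L * (L + L ^ 2) := by positivity
    obtain ⟨a1, a2, a3⟩ := e2_reg_comp hL (reg_mono r1F e1 Subset.rfl) (reg_mono r1χ e1 Subset.rfl)
      (reg_mono r2F e2 Subset.rfl) (reg_mono r2θ e2 Subset.rfl) hF
    exact ⟨L + L * (L + L ^ 2), by positivity, a1, a2, a3, reg_mono r1g (by linarith) Subset.rfl,
      fun j => reg_mono (r1ζ j) (by linarith) Subset.rfl⟩
  · intro ε hε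
    obtain ⟨Cn, ε0, Λ, hCn, hε0, hΛ, HL⟩ := e2_link hC r1F r1χ r1θ r2F r2χ r2θ
      (fun X hX => (hcd2 X hX).1) hr hm ha
    set e := min ε0 (min (ε / Cn) (ε / Λ)) with hedef
    have he : 0 < e := lt_min hε0 (lt_min (by positivity) (by positivity))
    have e1 : e ≤ ε0 := min_le_left _ _
    have e2 : Cn * e ≤ ε := by
      calc Cn * e ≤ Cn * (ε / Cn) :=
            mul_le_mul_of_nonneg_left ((min_le_right _ _).trans (min_le_left _ _)) (by linarith)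
        _ = ε := by field_simp
    have e3 : e * Λ ≤ ε := by
      calc e * Λ ≤ (ε / Λ) * Λ :=
            mul_le_mul_of_nonneg_right ((min_le_right _ _).trans (min_le_right _ _)) (by linarith)
        _ = ε := by field_simp
    obtain ⟨μ1, hμ1, HL1⟩ := HL e he e1
    obtain ⟨ρ1, hρ1, G1⟩ := h1.real e he
    obtain ⟨μ2, hμ2, G2⟩ := H2 e he
    refine ⟨min ρ1 (min μ1 μ2), lt_min hρ1 (lt_min hμ1 hμ2), fun p hp => ?_⟩
    have hpp := h1.pos _ (lt_min hρ1 (lt_min hμ1 hμ2)) p hp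
    have p1 : p.1 < μ1 := hpp.2.trans_le ((min_le_right _ _).trans (min_le_left _ _))
    have p2 : p.1 < μ2 := hpp.2.trans_le ((min_le_right _ _).trans (min_le_right _ _))
    obtain ⟨w1, Ri, gf, ζ, b1, b2, b3, b4, Λh, hΛh, b5⟩ :=
      G1 p (h1.mono _ _ (lt_min hρ1 (lt_min hμ1 hμ2)) (min_le_left _ _) hp)
    obtain ⟨w2, c1, c2⟩ := G2 p.1 hpp.1 p2
    obtain ⟨hP, B, hB1, hB2, hB3⟩ := HL1 p.1 hpp.1 p1 w1 w2 b1 c1
    have hJ : ∀ q ∈ O1 ×ˢ (JJ ×ˢ JJ), B q ∈ JJ := fun q hq =>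
      e2_JJ (hB2 q.1 hq.1 q.2.1 hq.2.1 q.2.2 hq.2.2).2.1
    have hR := comp_realizes (hs C p.1) O1 O2 w1 w2 Ri (fun _ => (hs C p.1).reach) B b2 c2 hP
      (fun X hX b hb b' hb' => (hB2 X hX b hb b' hb').2)
    refine ⟨_, _, fun q => gf (q.1, q.2.1, B (q.1, q.2.1, q.2.2.1), q.2.2.2),
      fun j q => ζ j (q.1, q.2.1, B (q.1, q.2.1, q.2.2.1), q.2.2.2),
      ⟨near_mono hB3.P e2 Subset.rfl, near_mono hB3.Θ e2 Subset.rfl,
        near_mono hB3.Θ' e2 Subset.rfl⟩, hR,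
      near_mono (e2_right_near hΛ he.le hB1 hJ b3) e3 Subset.rfl,
      fun j => near_mono (e2_right_near hΛ he.le hB1 hJ (b4 j)) e3 Subset.rfl, Λh, hΛh, ?_⟩
    intro X hX b hb b' hb' hmk t ht h' hh' hg x y hxy
    have hBB := hB2 X hX b hb b' hb'
    have hB0 : B (X, b, b') ≠ 0 := by
      intro h0
      have := hBB.1
      rw [h0, abs_zero] at this
      norm_num at this
    obtain ⟨v, v1, v2⟩ := hxy hB0
    have hBJ : B (X, b, b') ∈ JJ := e2_JJ hBB.2.1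
    have := b5 X hX b hb (B (X, b, b')) hBJ hmk t ht h' hh' hg x v v1
    exact hitR_trans this v2

/-- the projection `(X, b, b', t) ↦ (X, t)` -/
def e2pr : Pl × ℝ × ℝ × ℝ →+ Pl × ℝ where
  toFun q := (q.1, q.2.2.2)
  map_zero' := rfl
  map_add' _ _ := rfl

theorem e2pr_norm (q : Pl × ℝ × ℝ × ℝ) : ‖e2pr q‖ ≤ ‖q‖ := by
  have h1 : ‖q.1‖ ≤ ‖q‖ := norm_fst_le q
  have h2 : ‖q.2.2.2‖ ≤ ‖q‖ :=
    ((norm_snd_le q.2.2).trans (norm_snd_le q.2)).trans (norm_snd_le q)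
  exact (Prod.norm_def (e2pr q)).le.trans (max_le h1 h2)

theorem e2_left_near {O1 O2 : Set Pl} {I : Set ℝ} {B : Pl × ℝ × ℝ → ℝ} {P : Pl × ℝ × ℝ → Pl}
    {F : Pl → Pl} {Λ ε L : ℝ} (hΛ : 1 ≤ Λ) (hL : 0 ≤ L)
    (hε : 0 ≤ ε) (hεΛ : ε * Λ ≤ 1) (hB : Lip Λ B (O1 ×ˢ (JJ ×ˢ JJ)))
    (hJ : ∀ p ∈ O1 ×ˢ (JJ ×ˢ JJ), B p ∈ JJ) (hP : ∀ p ∈ O1 ×ˢ (JJ ×ˢ JJ), P p ∈ O2)
    (hF : ∀ X ∈ O1, F X ∈ O2) (hn : Near ε P (fun p => F p.1) (O1 ×ˢ (JJ ×ˢ JJ)))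
    (hFL : Lip L F O1) {gf : Pl × ℝ × ℝ × ℝ → ℂ} {g0 : Pl × ℝ → ℂ}
    (h : Near ε gf (fun q => g0 (q.1, q.2.2.2)) (O2 ×ˢ (JJ ×ˢ (JJ ×ˢ I))))
    (hg : Reg L g0 (O2 ×ˢ I)) :
    Near (L * (ε * Λ) * (1 + 2 * (L + Λ + 2)) + ε * (L + Λ + 2))
      (fun q : Pl × ℝ × ℝ × ℝ => gf (P (q.1, q.2.1, B (q.1, q.2.1, q.2.2.1)),
        B (q.1, q.2.1, q.2.2.1), q.2.2.1, q.2.2.2))
      (fun q => g0 (F q.1, q.2.2.2)) (O1 ×ˢ (JJ ×ˢ (JJ ×ˢ I))) := by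
  set T : Set (Pl × ℝ × ℝ × ℝ) := O1 ×ˢ (JJ ×ˢ (JJ ×ˢ I)) with hT
  have hεΛ0 : 0 ≤ ε * Λ := by positivity
  -- distances
  have d1 : ∀ p q : Pl × ℝ × ℝ × ℝ, dist p.1 q.1 ≤ dist p q := fun p q => by
    rw [Prod.dist_eq]; exact le_max_left _ _
  have d2 : ∀ p q : Pl × ℝ × ℝ × ℝ, dist p.2 q.2 ≤ dist p q := fun p q => by
    rw [Prod.dist_eq]; exact le_max_right _ _
  have d3 : ∀ p q : Pl × ℝ × ℝ × ℝ, dist p.2.1 q.2.1 ≤ dist p q := fun p q => by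
    refine le_trans ?_ (d2 p q)
    rw [Prod.dist_eq]; exact le_max_left _ _
  have d4 : ∀ p q : Pl × ℝ × ℝ × ℝ, dist p.2.2 q.2.2 ≤ dist p q := fun p q => by
    refine le_trans ?_ (d2 p q)
    rw [Prod.dist_eq]; exact le_max_right _ _
  have d5 : ∀ p q : Pl × ℝ × ℝ × ℝ, dist p.2.2.1 q.2.2.1 ≤ dist p q := fun p q => by
    refine le_trans ?_ (d4 p q)
    rw [Prod.dist_eq]; exact le_max_left _ _
  have d6 : ∀ p q : Pl × ℝ × ℝ × ℝ, dist p.2.2.2 q.2.2.2 ≤ dist p q := fun p q => by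
    refine le_trans ?_ (d4 p q)
    rw [Prod.dist_eq]; exact le_max_right _ _
  have dB : ∀ p ∈ T, ∀ q ∈ T,
      dist (B (p.1, p.2.1, p.2.2.1)) (B (q.1, q.2.1, q.2.2.1)) ≤ Λ * dist p q := by
    intro p hp q hq
    rw [dist_eq_norm]
    refine (hB _ ⟨hp.1, hp.2.1, hp.2.2.1⟩ _ ⟨hq.1, hq.2.1, hq.2.2.1⟩).trans ?_
    refine mul_le_mul_of_nonneg_left ?_ (by linarith)
    rw [Prod.dist_eq, Prod.dist_eq]
    exact max_le (d1 p q) (max_le (d3 p q) (d5 p q))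
  have hBT : ∀ q ∈ T, B (q.1, q.2.1, q.2.2.1) ∈ JJ :=
    fun q hq => hJ (q.1, q.2.1, q.2.2.1) ⟨hq.1, hq.2.1, hq.2.2.1⟩
  -- first component
  have n1 : Near (ε * Λ) (fun q : Pl × ℝ × ℝ × ℝ => P (q.1, q.2.1, B (q.1, q.2.1, q.2.2.1)))
      (fun q => F q.1) T := by
    have := near_comp_inner (β := Pl × ℝ × ℝ × ℝ)
      (h := fun q : Pl × ℝ × ℝ × ℝ => (q.1, q.2.1, B (q.1, q.2.1, q.2.2.1)))
      (T := T) (Λ := Λ) hn (fun q hq => ⟨hq.1, hq.2.1, hBT q hq⟩)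
      (fun p hp q hq => by
        have h8 : dist p q ≤ Λ * dist p q := le_mul_of_one_le_left dist_nonneg hΛ
        rw [Prod.dist_eq, Prod.dist_eq]
        exact max_le ((d1 p q).trans h8) (max_le ((d3 p q).trans h8) (dB p hp q hq))) hΛ hε
    exact this
  -- the two maps
  have n2 := near_prod n1 (e2_near_refl hεΛ0
    (fun q : Pl × ℝ × ℝ × ℝ => (B (q.1, q.2.1, q.2.2.1), q.2.2.1, q.2.2.2)) T)
  have l0 : Lip (L + Λ + 1) (fun q : Pl × ℝ × ℝ × ℝ =>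
      (F q.1, (B (q.1, q.2.1, q.2.2.1), q.2.2.1, q.2.2.2))) T := by
    intro p hp q hq
    rw [← dist_eq_norm]
    change max (dist (F p.1) (F q.1)) (max (dist (B (p.1, p.2.1, p.2.2.1))
      (B (q.1, q.2.1, q.2.2.1))) (max (dist p.2.2.1 q.2.2.1) (dist p.2.2.2 q.2.2.2))) ≤ _
    have h0 : 0 ≤ dist p q := dist_nonneg
    have a1 : dist (F p.1) (F q.1) ≤ L * dist p q := by
      rw [dist_eq_norm]
      exact (hFL _ hp.1 _ hq.1).trans (mul_le_mul_of_nonneg_left (d1 p q) hL)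
    have a2 := dB p hp q hq
    have a3 := d5 p q
    have a4 := d6 p q
    have b1 : 0 ≤ L * dist p q := by positivity
    have b2 : 0 ≤ Λ * dist p q := by positivity
    have e : (L + Λ + 1) * dist p q = L * dist p q + Λ * dist p q + dist p q := by ring
    rw [e]
    exact max_le (by linarith) (max_le (by linarith) (max_le (by linarith) (by linarith)))
  have l0' := lip_of_near n2 l0
  have l1 : Lip (L + Λ + 2) (fun q : Pl × ℝ × ℝ × ℝ =>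
      (F q.1, (B (q.1, q.2.1, q.2.2.1), q.2.2.1, q.2.2.2))) T := fun p hp q hq =>
    (l0 p hp q hq).trans (mul_le_mul_of_nonneg_right (by linarith) dist_nonneg)
  have l2 : Lip (L + Λ + 2) (fun q : Pl × ℝ × ℝ × ℝ =>
      (P (q.1, q.2.1, B (q.1, q.2.1, q.2.2.1)), (B (q.1, q.2.1, q.2.2.1), q.2.2.1, q.2.2.2))) T :=
    fun p hp q hq => (l0' p hp q hq).trans (mul_le_mul_of_nonneg_right (by linarith) dist_nonneg)
  have hK0 : Reg L (fun q : Pl × ℝ × ℝ × ℝ => g0 (e2pr q)) (O2 ×ˢ (JJ ×ˢ (JJ ×ˢ I))) :=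
    e2_reg_lin e2pr e2pr_norm hg hL (fun q hq => ⟨hq.1, hq.2.2.2⟩)
  have := near_comp n2 (S' := O2 ×ˢ (JJ ×ˢ (JJ ×ˢ I)))
    (fun q hq => ⟨hP (q.1, q.2.1, B (q.1, q.2.1, q.2.2.1)) ⟨hq.1, hq.2.1, hBT q hq⟩,
      hBT q hq, hq.2.2.1, hq.2.2.2⟩)
    (fun q hq => ⟨hF q.1 hq.1, hBT q hq, hq.2.2.1, hq.2.2.2⟩) l2 l1 hK0 h hL hεΛ0 hε
    (by linarith)
  exact this

/-- regularity of the event function seen through a word -/
theorem e2_reg_left {O1 O2 : Set Pl} {I : Set ℝ} {F : Pl → Pl} {g0 : Pl × ℝ → ℂ} {L : ℝ}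
    (hL : 1 ≤ L) (hF : ∀ X ∈ O1, F X ∈ O2) (hFr : Reg L F O1) (hg : Reg L g0 (O2 ×ˢ I)) :
    Reg (L * (L + L ^ 2)) (fun q : Pl × ℝ => g0 (F q.1, q.2)) (O1 ×ˢ I) := by
  have hL0 : 0 ≤ L := by linarith
  have r1 : Reg L (fun q : Pl × ℝ => F q.1) (O1 ×ˢ I) :=
    e2_reg_lin (AddMonoidHom.fst Pl ℝ) (fun x => norm_fst_le x) hFr hL0 (fun q hq => hq.1)
  have r2 : Reg L (fun q : Pl × ℝ => q.2) (O1 ×ˢ I) :=
    e2_reg_lin (f := fun x : ℝ => x) (S := univ) (AddMonoidHom.snd Pl ℝ) (fun x => norm_snd_le x)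
      (reg_mono e2_reg_id hL Subset.rfl) hL0 (fun q hq => trivial)
  have r3 := reg_prod r1 r2
  have := reg_comp (g := g0) r3 hg (fun q hq => ⟨hF q.1 hq.1, hq.2⟩) hL0 hL0
  exact this

theorem evw_left_pr {C : ℝ} (hC : 0 < C ∧ C ≤ 1) {S : ℝ → Set (ℝ × ℂ)} {O1 O2 : Set Pl}
    {l1 l2 : LD}
    {ι : Type} [Fintype ι] {g0 : Pl × ℝ → ℂ} {τe h : ℝ} {ζ0 : ι → Pl × ℝ → ℂ} {τm : ι → ℝ}
    (h1 : PW C O1 l1) (h2 : EvW C S O2 l2 ι g0 τe h ζ0 τm) {r : ℝ} (hr : 0 < r)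
    (hm : ∀ X ∈ O1, Metric.closedBall (l1.F X) r ⊆ O2)
    (ha : ∀ X ∈ O1, Acc (1 / 10) 8 (l2.χ (l1.F X)) (l1.θ X)) :
    EvW C S O1 (l1.comp l2) ι (fun q => g0 (l1.F q.1, q.2)) τe h
      (fun j q => ζ0 j (l1.F q.1, q.2)) τm := by
  obtain ⟨hcpt, ⟨L1, hL1, r1F, r1χ, r1θ⟩, hcd1, H1⟩ := h1
  obtain ⟨L2, hL2, r2F, r2χ, r2θ, r2g, r2ζ⟩ := h2.reg
  have hF : ∀ X ∈ O1, l1.F X ∈ O2 := fun X hX => hm X hX (Metric.mem_closedBall_self hr.le)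
  set L := max 1 (max L1 L2) with hLdef
  have hL : 1 ≤ L := le_max_left _ _
  have hL0 : 0 ≤ L := by linarith
  have q1 : L1 ≤ L := (le_max_left _ _).trans (le_max_right _ _)
  have q2 : L2 ≤ L := (le_max_right _ _).trans (le_max_right _ _)
  have R1F := reg_mono r1F q1 Subset.rfl
  have R2g := reg_mono r2g q2 Subset.rfl
  have R2ζ := fun j => reg_mono (r2ζ j) q2 Subset.rfl
  refine ⟨hcpt, h2.hh, ?_, fun X hX => ⟨(hcd1 X hX).1, (h2.cd _ (hF X hX)).2⟩, h2.pos,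
    h2.mono, ?_⟩
  · have h0 : 0 ≤ L * (L + L ^ 2) := by positivity
    obtain ⟨a1, a2, a3⟩ := e2_reg_comp hL0 R1F (reg_mono r1χ q1 Subset.rfl)
      (reg_mono r2F q2 Subset.rfl) (reg_mono r2θ q2 Subset.rfl) hF
    exact ⟨L + L * (L + L ^ 2), by positivity, a1, a2, a3,
      reg_mono (e2_reg_left hL hF R1F R2g) (by linarith) Subset.rfl,
      fun j => reg_mono (e2_reg_left hL hF R1F (R2ζ j)) (by linarith) Subset.rfl⟩
  · intro ε hε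
    obtain ⟨Cn, ε0, Λ, hCn, hε0, hΛ, HL⟩ := e2_link hC r1F r1χ r1θ r2F r2χ r2θ
      (fun X hX => (h2.cd X hX).1) hr hm ha
    set M0 : ℝ := L * Λ * (1 + 2 * (L + Λ + 2)) + (L + Λ + 2) with hM0
    have hM0p : 0 < M0 := by positivity
    set e := min (min ε0 (1 / Λ)) (min (ε / Cn) (ε / M0)) with hedef
    have he : 0 < e := lt_min (lt_min hε0 (by positivity)) (lt_min (by positivity) (by positivity))
    have e1 : e ≤ ε0 := (min_le_left _ _).trans (min_le_left _ _)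
    have e4 : e * Λ ≤ 1 := by
      calc e * Λ ≤ (1 / Λ) * Λ :=
            mul_le_mul_of_nonneg_right ((min_le_left _ _).trans (min_le_right _ _)) (by linarith)
        _ = 1 := by field_simp
    have e2 : Cn * e ≤ ε := by
      calc Cn * e ≤ Cn * (ε / Cn) :=
            mul_le_mul_of_nonneg_left ((min_le_right _ _).trans (min_le_left _ _)) (by linarith)
        _ = ε := by field_simp
    have e3 : L * (e * Λ) * (1 + 2 * (L + Λ + 2)) + e * (L + Λ + 2) ≤ ε := by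
      calc L * (e * Λ) * (1 + 2 * (L + Λ + 2)) + e * (L + Λ + 2) = e * M0 := by rw [hM0]; ring
        _ ≤ (ε / M0) * M0 :=
            mul_le_mul_of_nonneg_right ((min_le_right _ _).trans (min_le_right _ _)) hM0p.le
        _ = ε := by field_simp
    obtain ⟨μ1, hμ1, HL1⟩ := HL e he e1
    obtain ⟨ρ1, hρ1, G1⟩ := h2.real e he
    obtain ⟨μ2, hμ2, G2⟩ := H1 e he
    refine ⟨min ρ1 (min μ1 μ2), lt_min hρ1 (lt_min hμ1 hμ2), fun p hp => ?_⟩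
    have hpp := h2.pos _ (lt_min hρ1 (lt_min hμ1 hμ2)) p hp
    have p1 : p.1 < μ1 := hpp.2.trans_le ((min_le_right _ _).trans (min_le_left _ _))
    have p2 : p.1 < μ2 := hpp.2.trans_le ((min_le_right _ _).trans (min_le_right _ _))
    obtain ⟨w2, Ri, gf, ζ, b1, b2, b3, b4, Λh, hΛh, b5⟩ :=
      G1 p (h2.mono _ _ (lt_min hρ1 (lt_min hμ1 hμ2)) (min_le_left _ _) hp)
    obtain ⟨w1, c1, c2⟩ := G2 p.1 hpp.1 p2
    obtain ⟨hP, B, hB1, hB2, hB3⟩ := HL1 p.1 hpp.1 p1 w1 w2 c1 b1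
    have hJ : ∀ q ∈ O1 ×ˢ (JJ ×ˢ JJ), B q ∈ JJ := fun q hq =>
      e2_JJ (hB2 q.1 hq.1 q.2.1 hq.2.1 q.2.2 hq.2.2).2.1
    have hR := comp_realizes (hs C p.1) O1 O2 w1 w2 (fun _ => (hs C p.1).reach) Ri B c2 b2 hP
      (fun X hX b hb b' hb' => (hB2 X hX b hb b' hb').2)
    refine ⟨_, _, fun q => gf (w1.P (q.1, q.2.1, B (q.1, q.2.1, q.2.2.1)),
        B (q.1, q.2.1, q.2.2.1), q.2.2.1, q.2.2.2),
      fun j q => ζ j (w1.P (q.1, q.2.1, B (q.1, q.2.1, q.2.2.1)),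
        B (q.1, q.2.1, q.2.2.1), q.2.2.1, q.2.2.2),
      ⟨near_mono hB3.P e2 Subset.rfl, near_mono hB3.Θ e2 Subset.rfl,
        near_mono hB3.Θ' e2 Subset.rfl⟩, hR,
      near_mono (e2_left_near hΛ hL0 he.le e4 hB1 hJ hP hF c1.P R1F.1 b3 R2g) e3 Subset.rfl,
      fun j => near_mono (e2_left_near hΛ hL0 he.le e4 hB1 hJ hP hF c1.P R1F.1 (b4 j) (R2ζ j)) e3
        Subset.rfl, Λh, hΛh, ?_⟩
    intro X hX b hb b' hb' hmk t ht h' hh' hg x y hxy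
    have hBB := hB2 X hX b hb b' hb'
    have hB0 : B (X, b, b') ≠ 0 := by
      intro h0
      have := hBB.1
      rw [h0, abs_zero] at this
      norm_num at this
    obtain ⟨v, v1, v2⟩ := hxy hB0
    have hBJ : B (X, b, b') ∈ JJ := e2_JJ hBB.2.1
    have := b5 (w1.P (X, b, B (X, b, b'))) (hP (X, b, B (X, b, b')) ⟨hX, hb, hBJ⟩)
      (B (X, b, b')) hBJ b' hb' hmk t ht h' hh' hg v y v2
    exact reachR_hitR v1 this

end

end Pool.Agent.HS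

namespace Pool.Agent.HS
open Set Filter Topology Classical

theorem evw_left {C : ℝ} (hC : 0 < C ∧ C ≤ 1) {S : ℝ → Set (ℝ × ℂ)} {O1 O2 : Set Pl} {l1 l2 : LD}
    {ι : Type} [Fintype ι] {g0 : Pl × ℝ → ℂ} {τe h : ℝ} {ζ0 : ι → Pl × ℝ → ℂ} {τm : ι → ℝ}
    (h1 : PW C O1 l1) (h2 : EvW C S O2 l2 ι g0 τe h ζ0 τm) {r : ℝ} (hr : 0 < r)
    (hm : ∀ X ∈ O1, Metric.closedBall (l1.F X) r ⊆ O2)
    (ha : ∀ X ∈ O1, Acc (1 / 10) 8 (l2.χ (l1.F X)) (l1.θ X)) :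
    EvW C S O1 (l1.comp l2) ι (fun q => g0 (l1.F q.1, q.2)) τe h
      (fun j q => ζ0 j (l1.F q.1, q.2)) τm :=
  @Pool.Agent.HS.evw_left_pr C hC S O1 O2 l1 l2 ι _ g0 τe h ζ0 τm h1 h2 r hr hm ha

end Pool.Agent.HS

namespace Pool.Agent.HS
open Set Filter Topology Classical

theorem evw_right {C : ℝ} (hC : 0 < C ∧ C ≤ 1) {S : ℝ → Set (ℝ × ℂ)} {O1 O2 : Set Pl} {l1 l2 : LD}
    {ι : Type} [Fintype ι] {g0 : Pl × ℝ → ℂ} {τe h : ℝ} {ζ0 : ι → Pl × ℝ → ℂ} {τm : ι → ℝ}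
    (h1 : EvW C S O1 l1 ι g0 τe h ζ0 τm) (h2 : PW C O2 l2) {r : ℝ} (hr : 0 < r)
    (hm : ∀ X ∈ O1, Metric.closedBall (l1.F X) r ⊆ O2)
    (ha : ∀ X ∈ O1, Acc (1 / 10) 8 (l2.χ (l1.F X)) (l1.θ X)) :
    EvW C S O1 (l1.comp l2) ι g0 τe h ζ0 τm :=
  @Pool.Agent.HS.evw_right_pr C hC S O1 O2 l1 l2 ι _ g0 τe h ζ0 τm h1 h2 r hr hm ha

end Pool.Agent.HS

namespace Pool.Agent.HS
open Set Filter Topology Classical

theorem evw_mono {C : ℝ} {S : ℝ → Set (ℝ × ℂ)} {O O' : Set Pl} {l : LD}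
    {ι : Type} [Fintype ι] {g0 : Pl × ℝ → ℂ} {τe h : ℝ} {ζ0 : ι → Pl × ℝ → ℂ} {τm : ι → ℝ}
    (h1 : EvW C S O l ι g0 τe h ζ0 τm) (hO : IsCompact O') (hs : O' ⊆ O) :
    EvW C S O' l ι g0 τe h ζ0 τm :=
  @Pool.Agent.HS.evw_mono_pr C S O O' l ι _ g0 τe h ζ0 τm h1 hO hs

end Pool.Agent.HS
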