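import Pool.Agent.Lib_helper60.HSF.D_WG

/-! # HS, block G2c: recentring, marks -/

namespace Pool.Agent.HS.MARKS

noncomputable section

open Set Filter Topology Classical

/-- Recentre and restrict. -/
theorem recentre_pr (sys : Sys) (R : sys.S → sys.S → Prop) (V : Set (ℝ × ℝ)) (m1 m2 η LN ν0 ηc r : ℝ)
    (Φ : Fam sys.S) (h : IsFam sys R V m1 m2 η LN ν0 Φ) (hm : 0 ≤ m1) (hm2 : m1 ≤ m2)
    (hm3 : m2 ≤ 5) (hLN : 0 ≤ LN) (hη : 0 ≤ η)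
    (sc : ℝ → ℝ) (hr : 0 < r) (hc : ∀ b ∈ JJ, |sc b| + r ≤ Φ.ℓ)
    (hl : ∀ b ∈ JJ, ∀ b' ∈ JJ, |sc b - sc b'| ≤ ηc * |b - b'|) :
    IsFam sys R {p | p.2 ∈ JJ ∧ (p.1 + sc p.2, p.2) ∈ V} m1 m2 (η + (5 + LN) * ηc) LN ν0
      { ℓ := r, z := fun s b => Φ.z (s + sc b) b, N := fun s b => Φ.N (s + sc b) b,
        y := fun s b => Φ.y (s + sc b) b } := by
  have hηc : 0 ≤ ηc := by
    have h0 : (0 : ℝ) ∈ JJ := ⟨by norm_num, by norm_num⟩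
    have h1 : (1 : ℝ) ∈ JJ := ⟨by norm_num, by norm_num⟩
    have h2 := hl 0 h0 1 h1
    have h3 := abs_nonneg (sc 0 - sc 1)
    norm_num at h2
    linarith
  have hin : ∀ b ∈ JJ, ∀ s ∈ Icc (-r) r, s + sc b ∈ Icc (-Φ.ℓ) Φ.ℓ := by
    intro b hb s hs
    have h1 := hc b hb
    have h2 := abs_le.1 (le_refl |sc b|)
    constructor
    · linarith [hs.1, h2.1]
    · linarith [hs.2, h2.2]
  have hz : ∀ b ∈ JJ, ∀ s ∈ Icc (-Φ.ℓ) Φ.ℓ, ∀ t ∈ Icc (-Φ.ℓ) Φ.ℓ,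
      ‖Φ.z s b - Φ.z t b‖ ≤ 5 * |s - t| := by
    have key : ∀ b ∈ JJ, ∀ s ∈ Icc (-Φ.ℓ) Φ.ℓ, ∀ t ∈ Icc (-Φ.ℓ) Φ.ℓ, s ≤ t →
        ‖Φ.z t b - Φ.z s b‖ ≤ 5 * (t - s) := by
      intro b hb s hs t ht hst
      obtain ⟨h1, h2, h3⟩ := h.graph b hb s hs t ht hst
      have hts : 0 ≤ t - s := by linarith
      rw [Prod.norm_def, Prod.fst_sub, Prod.snd_sub, h1, Real.norm_eq_abs, Real.norm_eq_abs,
        abs_of_nonneg hts, abs_of_nonneg (le_trans (mul_nonneg hm hts) h2)]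
      refine max_le (by linarith) (h3.trans ?_)
      exact mul_le_mul_of_nonneg_right hm3 hts
    intro b hb s hs t ht
    rcases le_total s t with hst | hst
    · rw [norm_sub_rev, abs_sub_comm, abs_of_nonneg (by linarith : 0 ≤ t - s)]
      exact key b hb s hs t ht hst
    · rw [abs_of_nonneg (by linarith : 0 ≤ s - t)]
      exact key b hb t ht s hs hst
  refine ⟨hr, ?_, ?_, ?_, ?_, ?_, ?_⟩
  · intro b hb s hs t ht hst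
    have := h.graph b hb (s + sc b) (hin b hb s hs) (t + sc b) (hin b hb t ht) (by linarith)
    have e : t + sc b - (s + sc b) = t - s := by ring
    rw [e] at this
    exact this
  · intro s hs b hb b' hb'
    have hbb : 0 ≤ |b - b'| := abs_nonneg _
    have h1 := h.blip (s + sc b) (hin b hb s hs) b hb b' hb'
    have h2 := hz b' hb' (s + sc b) (hin b hb s hs) (s + sc b') (hin b' hb' s hs)
    have h3 := h.slip b' hb' (s + sc b) (hin b hb s hs) (s + sc b') (hin b' hb' s hs)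
    have e : s + sc b - (s + sc b') = sc b - sc b' := by ring
    rw [e] at h2 h3
    have h4 := hl b hb b' hb'
    have h5 : LN * |sc b - sc b'| ≤ LN * (ηc * |b - b'|) := mul_le_mul_of_nonneg_left h4 hLN
    have h6 : 0 ≤ LN * (ηc * |b - b'|) := by positivity
    have h7 : 0 ≤ ηc * |b - b'| := by positivity
    constructor
    · show ‖Φ.z (s + sc b) b - Φ.z (s + sc b') b'‖ ≤ _
      have h8 : ‖Φ.z (s + sc b) b - Φ.z (s + sc b') b'‖ ≤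
          ‖Φ.z (s + sc b) b - Φ.z (s + sc b) b'‖ + ‖Φ.z (s + sc b) b' - Φ.z (s + sc b') b'‖ := by
        have := norm_add_le (Φ.z (s + sc b) b - Φ.z (s + sc b) b')
          (Φ.z (s + sc b) b' - Φ.z (s + sc b') b')
        simpa using this
      have h9 := h1.1
      nlinarith
    · show |Φ.N (s + sc b) b - Φ.N (s + sc b') b'| ≤ _
      have h8 : |Φ.N (s + sc b) b - Φ.N (s + sc b') b'| ≤
          |Φ.N (s + sc b) b - Φ.N (s + sc b) b'| + |Φ.N (s + sc b) b' - Φ.N (s + sc b') b'| := by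
        have := abs_add_le (Φ.N (s + sc b) b - Φ.N (s + sc b) b')
          (Φ.N (s + sc b) b' - Φ.N (s + sc b') b')
        simpa using this
      have h9 := h1.2
      nlinarith
  · intro b hb s hs t ht
    have := h.slip b hb (s + sc b) (hin b hb s hs) (t + sc b) (hin b hb t ht)
    have e : s + sc b - (t + sc b) = s - t := by ring
    rw [e] at this
    exact this
  · intro b hb s hs
    exact h.dir b hb (s + sc b) (hin b hb s hs)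
  · have hsc : ContinuousOn sc JJ := by
      rw [Metric.continuousOn_iff]
      intro b hb e he
      refine ⟨e / (ηc + 1), by positivity, fun a ha hab => ?_⟩
      rw [Real.dist_eq] at hab ⊢
      have h1 := hl a ha b hb
      have h2 : ηc * |a - b| ≤ (ηc + 1) * |a - b| := by nlinarith [abs_nonneg (a - b)]
      have h3 : (ηc + 1) * |a - b| < e := by
        rw [lt_div_iff₀ (by positivity)] at hab
        linarith
      linarith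
    have hmap : ContinuousOn (fun p : ℝ × ℝ => (p.1 + sc p.2, p.2))
        {p : ℝ × ℝ | p.1 ∈ Icc (-r) r ∧ p.2 ∈ JJ ∧ p.2 ≠ 0} := by
      refine ContinuousOn.prodMk ?_ continuousOn_snd
      refine continuousOn_fst.add (hsc.comp continuousOn_snd fun p hp => hp.2.1)
    exact h.cont.comp hmap fun p hp => ⟨hin p.2 hp.2.1 p.1 hp.1, hp.2.1, hp.2.2⟩
  · intro b hb s hs hb0 hV
    refine h.rel b hb (s + sc b) (hin b hb s hs) hb0 fun hmem => hV ⟨hb, hmem⟩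

/-- Marks under recentring. -/
theorem marks_recentre_pr (m : ℕ) (εm ηc : ℝ) (V : Set (ℝ × ℝ)) (h : Marks m εm V) (sc : ℝ → ℝ)
    (hl : ∀ b ∈ JJ, ∀ b' ∈ JJ, |sc b - sc b'| ≤ ηc * |b - b'|) :
    Marks m (εm + ηc) {p | p.2 ∈ JJ ∧ (p.1 + sc p.2, p.2) ∈ V} := by
  obtain ⟨W, hW1, hW2⟩ := h
  refine ⟨fun j => {p | p.2 ∈ JJ ∧ (p.1 + sc p.2, p.2) ∈ W j}, ?_, ?_⟩
  · intro p hp
    obtain ⟨j, hj⟩ := hW1 _ hp.2
    exact ⟨j, hp.1, hj⟩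
  · intro j p hp q hq
    have h1 := hW2 j _ hp.2 _ hq.2
    have h2 := hl p.2 hp.1 q.2 hq.1
    simp only at h1
    have h3 : |p.1 - q.1| ≤ |p.1 + sc p.2 - (q.1 + sc q.2)| + |sc p.2 - sc q.2| := by
      have := abs_sub (p.1 + sc p.2 - (q.1 + sc q.2)) (sc p.2 - sc q.2)
      have e : p.1 + sc p.2 - (q.1 + sc q.2) - (sc p.2 - sc q.2) = p.1 - q.1 := by ring
      rw [e] at this
      exact this
    rw [add_mul]
    linarith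

/-- Marks under a step. -/
theorem marks_step_pr (m : ℕ) (L1 C1 ε εm ℓ : ℝ) (hL1 : 1 ≤ L1) (hC1 : 1 ≤ C1) (hε : 0 ≤ ε)
    (hεm : 0 ≤ εm) (hsm : εm * L1 ≤ 1 / 2) (hsm' : εm * C1 ≤ 1)
    (V : Set (ℝ × ℝ)) (h : Marks m εm V) (B σ : ℝ → ℝ → ℝ)
    (hB : ∀ s ∈ Icc (-ℓ) ℓ, ∀ t ∈ Icc (-ℓ) ℓ, ∀ b ∈ JJ, ∀ c ∈ JJ,
          |B s b - B t c| ≤ L1 * |s - t| + C1 * ε * |b - c|)
    (hσ0 : ∀ s' ∈ Icc (-(30 * ℓ)) (30 * ℓ), ∀ b' ∈ JJ, σ s' b' ∈ Icc (-ℓ) ℓ)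
    (hσ : ∀ s ∈ Icc (-(30 * ℓ)) (30 * ℓ), ∀ t ∈ Icc (-(30 * ℓ)) (30 * ℓ), ∀ b ∈ JJ, ∀ c ∈ JJ,
          |σ s b - σ t c| ≤ 1 / 30 * |s - t| + C1 * ε * |b - c|)
    (hσ' : ∀ s ∈ Icc (-(30 * ℓ)) (30 * ℓ), ∀ t ∈ Icc (-(30 * ℓ)) (30 * ℓ), ∀ b ∈ JJ,
          s ≤ t → (t - s) / 900 ≤ σ t b - σ s b) :
    Marks m (3600 * C1 * ε)
      {p | p.1 ∈ Icc (-(30 * ℓ)) (30 * ℓ) ∧ p.2 ∈ JJ ∧
        (σ p.1 p.2, B (σ p.1 p.2) p.2) ∈ V} := by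
  obtain ⟨W, hW1, hW2⟩ := h
  refine ⟨fun j => {p | p.1 ∈ Icc (-(30 * ℓ)) (30 * ℓ) ∧ p.2 ∈ JJ ∧
        (σ p.1 p.2, B (σ p.1 p.2) p.2) ∈ W j}, ?_, ?_⟩
  · intro p hp
    obtain ⟨j, hj⟩ := hW1 _ hp.2.2
    exact ⟨j, hp.1, hp.2.1, hj⟩
  · intro j p hp q hq
    obtain ⟨hp1, hp2, hp3⟩ := hp
    obtain ⟨hq1, hq2, hq3⟩ := hq
    set s := σ p.1 p.2 with hs
    set t := σ q.1 q.2 with ht
    have h1 : |s - t| ≤ εm * |B s p.2 - B t q.2| := hW2 j _ hp3 _ hq3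
    have h2 := hB s (hσ0 _ hp1 _ hp2) t (hσ0 _ hq1 _ hq2) p.2 hp2 q.2 hq2
    have hd : 0 ≤ |p.2 - q.2| := abs_nonneg _
    have hst : 0 ≤ |s - t| := abs_nonneg _
    have h3 : |s - t| ≤ 2 * (ε * |p.2 - q.2|) := by
      have h4 : εm * |B s p.2 - B t q.2| ≤ εm * (L1 * |s - t| + C1 * ε * |p.2 - q.2|) :=
        mul_le_mul_of_nonneg_left h2 hεm
      have h5 : εm * L1 * |s - t| ≤ 1 / 2 * |s - t| := mul_le_mul_of_nonneg_right hsm hst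
      have h6 : εm * C1 * (ε * |p.2 - q.2|) ≤ 1 * (ε * |p.2 - q.2|) :=
        mul_le_mul_of_nonneg_right hsm' (by positivity)
      nlinarith
    have h7 : |p.1 - q.1| ≤ 900 * |σ p.1 p.2 - σ q.1 p.2| := by
      rcases le_total p.1 q.1 with h8 | h8
      · have h9 := hσ' p.1 hp1 q.1 hq1 p.2 hp2 h8
        rw [abs_sub_comm, abs_of_nonneg (by linarith : 0 ≤ q.1 - p.1), abs_sub_comm]
        have h10 := le_abs_self (σ q.1 p.2 - σ p.1 p.2)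
        linarith
      · have h9 := hσ' q.1 hq1 p.1 hp1 p.2 hp2 h8
        rw [abs_of_nonneg (by linarith : 0 ≤ p.1 - q.1)]
        have h10 := le_abs_self (σ p.1 p.2 - σ q.1 p.2)
        linarith
    have h11 : |σ p.1 p.2 - σ q.1 p.2| ≤ |s - t| + C1 * ε * |p.2 - q.2| := by
      have h12 := hσ q.1 hq1 q.1 hq1 q.2 hq2 p.2 hp2
      rw [sub_self, abs_zero, mul_zero, zero_add, abs_sub_comm q.2 p.2] at h12
      have h13 := abs_add_le (s - t) (σ q.1 q.2 - σ q.1 p.2)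
      have e : s - t + (σ q.1 q.2 - σ q.1 p.2) = σ p.1 p.2 - σ q.1 p.2 := by
        rw [hs, ht]; ring
      rw [e] at h13
      linarith
    have h14 : ε * |p.2 - q.2| ≤ C1 * ε * |p.2 - q.2| := by
      have : 0 ≤ ε * |p.2 - q.2| := by positivity
      nlinarith
    have h15 : 0 ≤ C1 * ε * |p.2 - q.2| := by positivity
    nlinarith

/-- Cut: an interval free of marks. -/
theorem marks_cut_pr (m : ℕ) (εm ℓ : ℝ) (hℓ : 0 < ℓ) (V : Set (ℝ × ℝ)) (h : Marks m εm V)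
    (hm : 20 * εm ≤ ℓ / (m + 1)) :
    ∃ c, |c| + ℓ / (4 * (m + 1)) ≤ ℓ ∧ ∀ s b, |s - c| ≤ ℓ / (4 * (m + 1)) → b ∈ JJ → (s, b) ∉ V := by
  obtain ⟨W, hW1, hW2⟩ := h
  have hm0 : (0 : ℝ) < (m : ℝ) + 1 := by positivity
  set q : ℝ := ℓ / ((m : ℝ) + 1) with hq
  have hq0 : 0 < q := div_pos hℓ hm0
  have hqℓ : q * ((m : ℝ) + 1) = ℓ := by rw [hq]; field_simp
  have h4 : ℓ / (4 * ((m : ℝ) + 1)) = q / 4 := by rw [hq]; field_simp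
  rw [h4]
  set cc : Fin (m + 1) → ℝ := fun j => -ℓ + (2 * (j : ℝ) + 1) * q with hcc
  have hccb : ∀ j, |cc j| + q / 4 ≤ ℓ := by
    intro j
    have hj0 : (0 : ℝ) ≤ (j : ℝ) := Nat.cast_nonneg _
    have hj : ((j : ℕ) : ℝ) ≤ m := by
      have := j.2
      exact_mod_cast Nat.lt_succ_iff.1 this
    have h5 : ((j : ℕ) : ℝ) * q ≤ m * q := mul_le_mul_of_nonneg_right hj hq0.le
    have h6 : 0 ≤ ((j : ℕ) : ℝ) * q := mul_nonneg hj0 hq0.le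
    have h7 : |cc j| ≤ ℓ - q := by
      rw [abs_le]
      simp only [hcc]
      constructor <;> nlinarith
    linarith
  by_contra hcon
  push Not at hcon
  have hex : ∀ j : Fin (m + 1), ∃ p : ℝ × ℝ, ∃ w : Fin m, |p.1 - cc j| ≤ q / 4 ∧ p.2 ∈ JJ ∧ p ∈ W w := by
    intro j
    obtain ⟨s, b, h1, h2, h3⟩ := hcon (cc j) (hccb j)
    obtain ⟨w, hw⟩ := hW1 _ h3
    exact ⟨(s, b), w, h1, h2, hw⟩
  choose p w hp1 hp2 hp3 using hex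
  obtain ⟨i, j, hij, hwij⟩ := Fintype.exists_ne_map_eq_of_card_lt w (by simp)
  wlog hlt : i < j generalizing i j with H
  · exact H j i hij.symm hwij.symm (lt_of_le_of_ne (not_lt.1 hlt) hij.symm)
  have h5 := hW2 (w i) (p i) (hp3 i) (p j) (by rw [hwij]; exact hp3 j)
  have h6 : |(p i).2 - (p j).2| ≤ 20 := by
    have h7 := hp2 i
    have h8 := hp2 j
    rw [abs_le]
    constructor <;> linarith [h7.1, h7.2, h8.1, h8.2]
  have h7 : εm * |(p i).2 - (p j).2| ≤ q := by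
    rcases le_total 0 εm with h8 | h8
    · calc εm * |(p i).2 - (p j).2| ≤ εm * 20 := mul_le_mul_of_nonneg_left h6 h8
        _ = 20 * εm := by ring
        _ ≤ q := hm
    · have h9 : εm * |(p i).2 - (p j).2| ≤ 0 := mul_nonpos_of_nonpos_of_nonneg h8 (abs_nonneg _)
      linarith
  have h8 : 2 * q ≤ cc j - cc i := by
    have h9 : ((i : ℕ) : ℝ) + 1 ≤ ((j : ℕ) : ℝ) := by exact_mod_cast hlt
    simp only [hcc]
    nlinarith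
  have h9 := abs_le.1 (hp1 i)
  have h10 := abs_le.1 (hp1 j)
  have h11 := abs_le.1 (h5.trans h7)
  linarith [h9.1, h9.2, h10.1, h10.2, h11.1, h11.2]

end

end Pool.Agent.HS.MARKS

namespace Pool.Agent.HS
open Set Filter Topology Classical

theorem recentre (sys : Sys) (R : sys.S → sys.S → Prop) (V : Set (ℝ × ℝ)) (m1 m2 η LN ν0 ηc r : ℝ)
    (Φ : Fam sys.S) (h : IsFam sys R V m1 m2 η LN ν0 Φ) (hm : 0 ≤ m1) (hm2 : m1 ≤ m2)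
    (hm3 : m2 ≤ 5) (hLN : 0 ≤ LN) (hη : 0 ≤ η)
    (sc : ℝ → ℝ) (hr : 0 < r) (hc : ∀ b ∈ JJ, |sc b| + r ≤ Φ.ℓ)
    (hl : ∀ b ∈ JJ, ∀ b' ∈ JJ, |sc b - sc b'| ≤ ηc * |b - b'|) :
    IsFam sys R {p | p.2 ∈ JJ ∧ (p.1 + sc p.2, p.2) ∈ V} m1 m2 (η + (5 + LN) * ηc) LN ν0
      { ℓ := r, z := fun s b => Φ.z (s + sc b) b, N := fun s b => Φ.N (s + sc b) b,
        y := fun s b => Φ.y (s + sc b) b } :=
  @Pool.Agent.HS.MARKS.recentre_pr sys R V m1 m2 η LN ν0 ηc r Φ h hm hm2 hm3 hLN hη sc hr hc hl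

end Pool.Agent.HS

namespace Pool.Agent.HS
open Set Filter Topology Classical

theorem marks_recentre (m : ℕ) (εm ηc : ℝ) (V : Set (ℝ × ℝ)) (h : Marks m εm V) (sc : ℝ → ℝ)
    (hl : ∀ b ∈ JJ, ∀ b' ∈ JJ, |sc b - sc b'| ≤ ηc * |b - b'|) :
    Marks m (εm + ηc) {p | p.2 ∈ JJ ∧ (p.1 + sc p.2, p.2) ∈ V} :=
  @Pool.Agent.HS.MARKS.marks_recentre_pr m εm ηc V h sc hl

end Pool.Agent.HS

namespace Pool.Agent.HS
open Set Filter Topology Classical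

theorem marks_step (m : ℕ) (L1 C1 ε εm ℓ : ℝ) (hL1 : 1 ≤ L1) (hC1 : 1 ≤ C1) (hε : 0 ≤ ε)
    (hεm : 0 ≤ εm) (hsm : εm * L1 ≤ 1 / 2) (hsm' : εm * C1 ≤ 1)
    (V : Set (ℝ × ℝ)) (h : Marks m εm V) (B σ : ℝ → ℝ → ℝ)
    (hB : ∀ s ∈ Icc (-ℓ) ℓ, ∀ t ∈ Icc (-ℓ) ℓ, ∀ b ∈ JJ, ∀ c ∈ JJ,
          |B s b - B t c| ≤ L1 * |s - t| + C1 * ε * |b - c|)
    (hσ0 : ∀ s' ∈ Icc (-(30 * ℓ)) (30 * ℓ), ∀ b' ∈ JJ, σ s' b' ∈ Icc (-ℓ) ℓ)
    (hσ : ∀ s ∈ Icc (-(30 * ℓ)) (30 * ℓ), ∀ t ∈ Icc (-(30 * ℓ)) (30 * ℓ), ∀ b ∈ JJ, ∀ c ∈ JJ,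
          |σ s b - σ t c| ≤ 1 / 30 * |s - t| + C1 * ε * |b - c|)
    (hσ' : ∀ s ∈ Icc (-(30 * ℓ)) (30 * ℓ), ∀ t ∈ Icc (-(30 * ℓ)) (30 * ℓ), ∀ b ∈ JJ,
          s ≤ t → (t - s) / 900 ≤ σ t b - σ s b) :
    Marks m (3600 * C1 * ε)
      {p | p.1 ∈ Icc (-(30 * ℓ)) (30 * ℓ) ∧ p.2 ∈ JJ ∧
        (σ p.1 p.2, B (σ p.1 p.2) p.2) ∈ V} :=
  @Pool.Agent.HS.MARKS.marks_step_pr m L1 C1 ε εm ℓ hL1 hC1 hε hεm hsm hsm' V h B σ hB hσ0 hσ hσ'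

end Pool.Agent.HS

namespace Pool.Agent.HS
open Set Filter Topology Classical

theorem marks_cut (m : ℕ) (εm ℓ : ℝ) (hℓ : 0 < ℓ) (V : Set (ℝ × ℝ)) (h : Marks m εm V)
    (hm : 20 * εm ≤ ℓ / (m + 1)) :
    ∃ c, |c| + ℓ / (4 * (m + 1)) ≤ ℓ ∧ ∀ s b, |s - c| ≤ ℓ / (4 * (m + 1)) → b ∈ JJ → (s, b) ∉ V :=
  @Pool.Agent.HS.MARKS.marks_cut_pr m εm ℓ hℓ V h hm

end Pool.Agent.HS
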