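import Pool.Agent.Lib_helper60.HSF.D_WG
import Pool.Agent.Lib_helper60.HSF.G_LINK

/-!
# Part G, blocks G2a + G2b: the step lemma
-/

namespace Pool.Agent.HS.STEP

noncomputable section

open Set Filter Topology Classical

theorem g2a_near_use {α : Type*} [PseudoMetricSpace α] {E : Type*} [NormedAddCommGroup E]
    {ε D : ℝ} {f g : α → E} {S : Set α} (h : Near ε f g S) {p q : α} (hp : p ∈ S) (hq : q ∈ S)
    (hD : dist p q ≤ D) (hε : 0 ≤ ε) : ‖f p - f q - (g p - g q)‖ ≤ ε * D := by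
  have h1 := h.2 p hp q hq
  have h2 : f p - f q - (g p - g q) = (f p - g p) - (f q - g q) := by abel
  rw [h2]
  exact h1.trans (mul_le_mul_of_nonneg_left hD hε)

theorem g2a_acc {χ Θ N e : ℝ} (h : Acc (1 / 10) 8 χ N) (he : |Θ - χ| ≤ e) (he' : e ≤ 1 / 4000) :
    Acc (1 / 11) (17 / 2) Θ N := by
  obtain ⟨h0, h1, h2⟩ := h
  set y := (χ - N) / 2 with hy
  set x := (Θ - N) / 2 with hx
  have hxy : |x - y| ≤ 1 / 8000 := by
    have : x - y = (Θ - χ) / 2 := by rw [hx, hy]; ring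
    rw [this, abs_div, abs_of_pos (by norm_num : (0:ℝ) < 2)]
    linarith
  have hsc := Real.sin_sq_add_cos_sq y
  have hy0 : 0 < |Real.sin y| := abs_pos.mpr h0
  rw [abs_div] at h2
  rw [div_le_iff₀ hy0] at h2
  have hs1 : (124 / 1000 : ℝ) ≤ |Real.sin y| := by
    by_contra hcon
    push Not at hcon
    have e1 : |Real.sin y| ^ 2 = Real.sin y ^ 2 := sq_abs _
    have e2 : |Real.cos y| ^ 2 = Real.cos y ^ 2 := sq_abs _
    have e3 : |Real.cos y| ^ 2 ≤ (8 * |Real.sin y|) ^ 2 := by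
      exact pow_le_pow_left₀ (abs_nonneg _) h2 2
    nlinarith
  have hd : |Real.sin x - Real.sin y| ≤ |x - y| := by
    have := Real.abs_sin_sub_sin_le x y
    exact this
  have hs2 : (1238 / 10000 : ℝ) ≤ |Real.sin x| := by
    have := abs_sub_abs_le_abs_sub (Real.sin y) (Real.sin x)
    rw [abs_sub_comm] at hd
    linarith
  have hx0 : Real.sin x ≠ 0 := by
    intro hh
    rw [hh, abs_zero] at hs2
    norm_num at hs2
  have hcot : |Real.cos x / Real.sin x - Real.cos y / Real.sin y| ≤ 1 / 110 := by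
    have e1 : Real.cos x / Real.sin x - Real.cos y / Real.sin y
        = Real.sin (y - x) / (Real.sin x * Real.sin y) := by
      rw [Real.sin_sub]
      field_simp
    rw [e1, abs_div, abs_mul]
    have hp : 0 < |Real.sin x| * |Real.sin y| := mul_pos (by linarith) hy0
    rw [div_le_iff₀ hp]
    have e2 : |Real.sin (y - x)| ≤ 1 / 8000 := by
      have := Real.abs_sin_le_abs (x := y - x)
      rw [abs_sub_comm] at hxy
      linarith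
    have e3 : (1238 / 10000 : ℝ) * (124 / 1000) ≤ |Real.sin x| * |Real.sin y| :=
      mul_le_mul hs2 hs1 (by norm_num) (by linarith)
    nlinarith
  have h2' : |Real.cos y / Real.sin y| ≤ 8 := by
    rw [abs_div, div_le_iff₀ hy0]
    exact h2
  refine ⟨hx0, ?_, ?_⟩
  · have := abs_sub_abs_le_abs_sub (Real.cos y / Real.sin y) (Real.cos x / Real.sin x)
    rw [abs_sub_comm] at hcot
    linarith
  · have := abs_sub_abs_le_abs_sub (Real.cos x / Real.sin x) (Real.cos y / Real.sin y)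
    linarith

theorem g2a_fst (v : Pl) : |v.1| ≤ ‖v‖ := by
  rw [← Real.norm_eq_abs]
  exact norm_fst_le v

theorem g2a_snd (v : Pl) : |v.2| ≤ ‖v‖ := by
  rw [← Real.norm_eq_abs]
  exact norm_snd_le v

theorem g2a_key (i : Fin 2) {u v : ℝ} {Δ W : Pl} (hu : 0 ≤ u) (hv1 : u / 10 ≤ v)
    (hv2 : v ≤ 5 * u) (h1 : |Δ.1 - u| ≤ u / 200000) (h2 : |Δ.2 - v| ≤ u / 200000)
    (h3 : ‖W - lin i Δ‖ ≤ 8 / 1000 * u) :
    31 * u ≤ W.1 ∧ W.1 ≤ 812 * u ∧ slo i * W.1 ≤ W.2 ∧ W.2 ≤ shi i * W.1 := by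
  have a1 := (g2a_fst _).trans h3
  have a2 := (g2a_snd _).trans h3
  rw [Prod.fst_sub, abs_le] at a1
  rw [Prod.snd_sub, abs_le] at a2
  rw [abs_le] at h1 h2
  obtain ⟨h11, h12⟩ := h1
  obtain ⟨h21, h22⟩ := h2
  obtain ⟨a11, a12⟩ := a1
  obtain ⟨a21, a22⟩ := a2
  fin_cases i
  · simp only [lin, slo, shi, Fin.zero_eta, Fin.isValue, if_true] at *
    refine ⟨?_, ?_, ?_, ?_⟩ <;> linarith
  · simp only [lin, slo, shi, Fin.mk_one, Fin.isValue, one_ne_zero, if_false] at *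
    refine ⟨?_, ?_, ?_, ?_⟩ <;> linarith


theorem g2a_zlip {η ℓ : ℝ} {z : ℝ → ℝ → Pl}
    (graph : ∀ b ∈ JJ, ∀ s ∈ Icc (-ℓ) ℓ, ∀ t ∈ Icc (-ℓ) ℓ, s ≤ t →
      (z t b).1 - (z s b).1 = t - s ∧ 1 / 10 * (t - s) ≤ (z t b).2 - (z s b).2 ∧
      (z t b).2 - (z s b).2 ≤ 5 * (t - s))
    (blip : ∀ s ∈ Icc (-ℓ) ℓ, ∀ b ∈ JJ, ∀ b' ∈ JJ, ‖z s b - z s b'‖ ≤ η * |b - b'|)
    {s t b c : ℝ} (hs : s ∈ Icc (-ℓ) ℓ)
    (ht : t ∈ Icc (-ℓ) ℓ) (hb : b ∈ JJ) (hc : c ∈ JJ) :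
    ‖z s b - z t c‖ ≤ 5 * |s - t| + η * |b - c| := by
  have h1 : ‖z s b - z t b‖ ≤ 5 * |s - t| := by
    rw [Prod.norm_def]
    rcases le_total s t with hst | hst
    · obtain ⟨a1, a2, a3⟩ := graph b hb s hs t ht hst
      rw [abs_sub_comm s t, abs_of_nonneg (by linarith : 0 ≤ t - s)]
      apply max_le
      · rw [Prod.fst_sub, Real.norm_eq_abs, abs_le]
        constructor <;> linarith
      · rw [Prod.snd_sub, Real.norm_eq_abs, abs_le]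
        constructor <;> linarith
    · obtain ⟨a1, a2, a3⟩ := graph b hb t ht s hs hst
      rw [abs_of_nonneg (by linarith : 0 ≤ s - t)]
      apply max_le
      · rw [Prod.fst_sub, Real.norm_eq_abs, abs_le]
        constructor <;> linarith
      · rw [Prod.snd_sub, Real.norm_eq_abs, abs_le]
        constructor <;> linarith
  have h2 := blip t ht b hb c hc
  calc ‖z s b - z t c‖ = ‖(z s b - z t b) + (z t b - z t c)‖ := by congr 1; abel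
    _ ≤ ‖z s b - z t b‖ + ‖z t b - z t c‖ := norm_add_le _ _
    _ ≤ _ := by linarith

/-- the context of the step lemma -/
structure G2C (L Lχ ν0 L1 C1 : ℝ) (i : Fin 2) (O : Set Pl) (l : LD) (w : WD) (ε η ℓ : ℝ)
    (z : ℝ → ℝ → Pl) (B : ℝ → ℝ → ℝ) : Prop where
  hL : 1 ≤ L
  hLχ : L ≤ Lχ
  hL1 : 1 ≤ L1
  hC1 : 1 ≤ C1
  hε : 0 ≤ ε
  hη : 0 ≤ η
  hℓ : 0 < ℓ
  e1 : 181 * (η * L1) ≤ 1 / 200000
  e2 : ε * (7 * L1) ≤ 1 / 1000
  e3 : (5 * (Lχ * C1 + 1) + (L1 * (Lχ * C1 + 1) + C1)) * ε ≤ 1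
  lim : LLim Lχ ν0 i O l
  lipθ : Lip L l.θ O
  wn : WNear ε O w l
  graph : ∀ b ∈ JJ, ∀ s ∈ Icc (-ℓ) ℓ, ∀ t ∈ Icc (-ℓ) ℓ, s ≤ t →
    (z t b).1 - (z s b).1 = t - s ∧ 1 / 10 * (t - s) ≤ (z t b).2 - (z s b).2 ∧
      (z t b).2 - (z s b).2 ≤ 5 * (t - s)
  blip : ∀ s ∈ Icc (-ℓ) ℓ, ∀ b ∈ JJ, ∀ b' ∈ JJ, ‖z s b - z s b'‖ ≤ η * |b - b'|
  zO : ∀ s ∈ Icc (-ℓ) ℓ, ∀ b ∈ JJ, z s b ∈ O
  BJ : ∀ s ∈ Icc (-ℓ) ℓ, ∀ b ∈ JJ, B s b ∈ JJ
  Blip : ∀ s ∈ Icc (-ℓ) ℓ, ∀ t ∈ Icc (-ℓ) ℓ, ∀ b ∈ JJ, ∀ c ∈ JJ,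
    |B s b - B t c| ≤ L1 * |s - t| + C1 * ε * |b - c|

/-- the pushed point -/
def g2P (w : WD) (z : ℝ → ℝ → Pl) (B : ℝ → ℝ → ℝ) (s b : ℝ) : Pl := w.P (z s (B s b), B s b, b)

section ctx
variable {L Lχ ν0 L1 C1 : ℝ} {i : Fin 2} {O : Set Pl} {l : LD} {w : WD} {ε η ℓ : ℝ}
  {z : ℝ → ℝ → Pl} {B : ℝ → ℝ → ℝ}

theorem g2_zlip (h : G2C L Lχ ν0 L1 C1 i O l w ε η ℓ z B) {s t b c : ℝ} (hs : s ∈ Icc (-ℓ) ℓ)
    (ht : t ∈ Icc (-ℓ) ℓ) (hb : b ∈ JJ) (hc : c ∈ JJ) :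
    ‖z s b - z t c‖ ≤ 5 * |s - t| + η * |b - c| :=
  g2a_zlip h.graph h.blip hs ht hb hc

theorem g2_eta (h : G2C L Lχ ν0 L1 C1 i O l w ε η ℓ z B) : η ≤ 1 := by
  have := h.e1
  have h1 := h.hL1
  have h2 := h.hη
  nlinarith

theorem g2_eps (h : G2C L Lχ ν0 L1 C1 i O l w ε η ℓ z B) : ε ≤ 1 := by
  have := h.e2
  have h1 := h.hL1
  have h2 := h.hε
  nlinarith

/-- distance in the product -/
theorem g2_dist {X Y : Pl} {b c b' c' D : ℝ} (h1 : ‖X - Y‖ ≤ D) (h2 : |b - c| ≤ D)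
    (h3 : |b' - c'| ≤ D) : dist (X, b, b') (Y, c, c') ≤ D := by
  rw [Prod.dist_eq, Prod.dist_eq]
  refine max_le ?_ (max_le ?_ ?_)
  · rw [dist_eq_norm]; exact h1
  · rw [Real.dist_eq]; exact h2
  · rw [Real.dist_eq]; exact h3

theorem g2_mem (h : G2C L Lχ ν0 L1 C1 i O l w ε η ℓ z B) {s b : ℝ} (hs : s ∈ Icc (-ℓ) ℓ)
    (hb : b ∈ JJ) : (z s (B s b), B s b, b) ∈ O ×ˢ (JJ ×ˢ JJ) :=
  ⟨h.zO s hs _ (h.BJ s hs b hb), h.BJ s hs b hb, hb⟩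

/-- dependence on `s` -/
theorem g2_diff (h : G2C L Lχ ν0 L1 C1 i O l w ε η ℓ z B) {s t b : ℝ} (hs : s ∈ Icc (-ℓ) ℓ)
    (ht : t ∈ Icc (-ℓ) ℓ) (hst : s ≤ t) (hb : b ∈ JJ) :
    31 * (t - s) ≤ (g2P w z B t b - g2P w z B s b).1 ∧
      (g2P w z B t b - g2P w z B s b).1 ≤ 812 * (t - s) ∧
      slo i * (g2P w z B t b - g2P w z B s b).1 ≤ (g2P w z B t b - g2P w z B s b).2 ∧
      (g2P w z B t b - g2P w z B s b).2 ≤ shi i * (g2P w z B t b - g2P w z B s b).1 := by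
  have hu : 0 ≤ t - s := by linarith
  have hBs := h.BJ s hs b hb
  have hBt := h.BJ t ht b hb
  have hB1 : |B t b - B s b| ≤ L1 * (t - s) := by
    have := h.Blip t ht s hs b hb b hb
    rw [sub_self, abs_zero, mul_zero, add_zero, abs_of_nonneg hu] at this
    exact this
  obtain ⟨a1, a2, a3⟩ := h.graph _ hBt s hs t ht hst
  have hbl := h.blip s hs _ hBt _ hBs
  have hη := h.hη
  have hbl' : ‖z s (B t b) - z s (B s b)‖ ≤ (t - s) / 200000 := by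
    have e1 := h.e1
    have : η * |B t b - B s b| ≤ η * (L1 * (t - s)) := mul_le_mul_of_nonneg_left hB1 hη
    have e3 : 0 ≤ η * L1 := mul_nonneg hη (by linarith [h.hL1])
    nlinarith
  have hd1 := (g2a_fst _).trans hbl'
  have hd2 := (g2a_snd _).trans hbl'
  rw [Prod.fst_sub] at hd1
  rw [Prod.snd_sub] at hd2
  have hΔ : ‖z t (B t b) - z s (B s b)‖ ≤ (5 + 1 / 200000) * (t - s) := by
    have := g2_zlip h ht hs hBt hBs
    have e1 := h.e1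
    rw [abs_of_nonneg hu] at this
    have e2 : η * |B t b - B s b| ≤ η * (L1 * (t - s)) := mul_le_mul_of_nonneg_left hB1 hη
    have e3 : 0 ≤ η * L1 := mul_nonneg hη (by linarith [h.hL1])
    nlinarith
  refine g2a_key i (v := (z t (B t b)).2 - (z s (B t b)).2) (Δ := z t (B t b) - z s (B s b)) hu
    (by linarith) a3 ?_ ?_ ?_
  · rw [Prod.fst_sub]
    have e : (z t (B t b)).1 - (z s (B s b)).1 - (t - s)
        = (z s (B t b)).1 - (z s (B s b)).1 := by linarith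
    rw [e]
    exact hd1
  · rw [Prod.snd_sub]
    have e : (z t (B t b)).2 - (z s (B s b)).2 - ((z t (B t b)).2 - (z s (B t b)).2)
        = (z s (B t b)).2 - (z s (B s b)).2 := by ring
    rw [e]
    exact hd2
  · have hm1 := g2_mem h ht hb
    have hm2 := g2_mem h hs hb
    have hL1 := h.hL1
    have hn := g2a_near_use h.wn.P hm1 hm2 (D := (6 + L1) * (t - s))
      (g2_dist (hΔ.trans (by nlinarith)) (hB1.trans (by nlinarith))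
        (by rw [sub_self, abs_zero]; positivity)) h.hε
    have hl := h.lim.lin _ (hm1.1) _ (hm2.1)
    simp only at hn
    have e : g2P w z B t b - g2P w z B s b - lin i (z t (B t b) - z s (B s b))
        = (w.P (z t (B t b), B t b, b) - w.P (z s (B s b), B s b, b)
            - (l.F (z t (B t b)) - l.F (z s (B s b))))
          + (l.F (z t (B t b)) - l.F (z s (B s b)) - lin i (z t (B t b) - z s (B s b))) := by
      simp only [g2P]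
      abel
    rw [e]
    refine (norm_add_le _ _).trans ?_
    have e2 := h.e2
    have e3 : ε * ((6 + L1) * (t - s)) ≤ 1 / 1000 * (t - s) := by
      have : ε * (6 + L1) ≤ ε * (7 * L1) := mul_le_mul_of_nonneg_left (by linarith) h.hε
      nlinarith
    nlinarith

theorem g2_fstlip (h : G2C L Lχ ν0 L1 C1 i O l w ε η ℓ z B) {s t b : ℝ} (hs : s ∈ Icc (-ℓ) ℓ)
    (ht : t ∈ Icc (-ℓ) ℓ) (hb : b ∈ JJ) :
    31 * |s - t| ≤ |(g2P w z B s b).1 - (g2P w z B t b).1| ∧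
      |(g2P w z B s b).1 - (g2P w z B t b).1| ≤ 812 * |s - t| := by
  rcases le_total s t with hst | hst
  · obtain ⟨a1, a2, -⟩ := g2_diff h hs ht hst hb
    rw [Prod.fst_sub] at a1 a2
    rw [abs_sub_comm s t, abs_sub_comm (g2P w z B s b).1, abs_of_nonneg (by linarith : 0 ≤ t - s),
      abs_of_nonneg (by linarith : 0 ≤ (g2P w z B t b).1 - (g2P w z B s b).1)]
    exact ⟨a1, a2⟩
  · obtain ⟨a1, a2, -⟩ := g2_diff h ht hs hst hb
    rw [Prod.fst_sub] at a1 a2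
    rw [abs_of_nonneg (by linarith : 0 ≤ s - t),
      abs_of_nonneg (by linarith : 0 ≤ (g2P w z B s b).1 - (g2P w z B t b).1)]
    exact ⟨a1, a2⟩

/-- dependence of the pushed point on `b` at fixed `s` -/
theorem g2_bdep (h : G2C L Lχ ν0 L1 C1 i O l w ε η ℓ z B) {s b c : ℝ} (hs : s ∈ Icc (-ℓ) ℓ)
    (hb : b ∈ JJ) (hc : c ∈ JJ) :
    ‖g2P w z B s b - g2P w z B s c‖ ≤ (Lχ * C1 + 1) * ε * |b - c| := by
  have hB : |B s b - B s c| ≤ C1 * ε * |b - c| := by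
    have := h.Blip s hs s hs b hb c hc
    rw [sub_self, abs_zero, mul_zero, zero_add] at this
    exact this
  have hη := h.hη
  have hη1 := g2_eta h
  have hε := h.hε
  have hC1 := h.hC1
  have hLχ : 1 ≤ Lχ := h.hL.trans h.hLχ
  have hL1 := h.hL1
  have hX := h.blip s hs _ (h.BJ s hs b hb) _ (h.BJ s hs c hc)
  have hX' : ‖z s (B s b) - z s (B s c)‖ ≤ C1 * ε * |b - c| := by
    refine hX.trans ?_
    have : η * |B s b - B s c| ≤ 1 * |B s b - B s c| :=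
      mul_le_mul_of_nonneg_right hη1 (abs_nonneg _)
    linarith
  have hCε : C1 * ε ≤ 1 := by
    have e3 := h.e3
    have e4 : C1 * ε ≤ (5 * (Lχ * C1 + 1) + (L1 * (Lχ * C1 + 1) + C1)) * ε := by
      apply mul_le_mul_of_nonneg_right _ hε
      have : 0 ≤ Lχ * C1 := by positivity
      have : 0 ≤ L1 * (Lχ * C1 + 1) := by positivity
      linarith
    linarith
  have hle : C1 * ε * |b - c| ≤ |b - c| := by
    have := mul_le_mul_of_nonneg_right hCε (abs_nonneg (b - c))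
    linarith
  have hm1 := g2_mem h hs hb
  have hm2 := g2_mem h hs hc
  have hn := g2a_near_use h.wn.P hm1 hm2 (D := |b - c|)
      (g2_dist (hX'.trans hle) (hB.trans hle) le_rfl) hε
  simp only at hn
  have hF := h.lim.lipF _ hm1.1 _ hm2.1
  rw [dist_eq_norm] at hF
  have hF' : ‖l.F (z s (B s b)) - l.F (z s (B s c))‖ ≤ Lχ * (C1 * ε * |b - c|) :=
    hF.trans (mul_le_mul_of_nonneg_left hX' (by linarith))
  have e : g2P w z B s b - g2P w z B s c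
        = (w.P (z s (B s b), B s b, b) - w.P (z s (B s c), B s c, c)
            - (l.F (z s (B s b)) - l.F (z s (B s c))))
          + (l.F (z s (B s b)) - l.F (z s (B s c))) := by
      simp only [g2P]
      abel
  rw [e]
  refine (norm_add_le _ _).trans ?_
  nlinarith

/-- existence of the old parameter -/
theorem g2_exists (h : G2C L Lχ ν0 L1 C1 i O l w ε η ℓ z B) {s' b : ℝ}
    (hs' : s' ∈ Icc (-(30 * ℓ)) (30 * ℓ)) (hb : b ∈ JJ) :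
    ∃ s ∈ Icc (-ℓ) ℓ, (g2P w z B s b).1 - (g2P w z B 0 b).1 = s' := by
  have hℓ := h.hℓ
  have h0 : (0:ℝ) ∈ Icc (-ℓ) ℓ := ⟨by linarith, by linarith⟩
  have hl : -ℓ ∈ Icc (-ℓ) ℓ := ⟨le_rfl, by linarith⟩
  have hr : ℓ ∈ Icc (-ℓ) ℓ := ⟨by linarith, le_rfl⟩
  have hc : ContinuousOn (fun s => (g2P w z B s b).1 - (g2P w z B 0 b).1) (Icc (-ℓ) ℓ) := by
    apply ContinuousOn.sub _ continuousOn_const
    have : LipschitzOnWith 812 (fun s => (g2P w z B s b).1) (Icc (-ℓ) ℓ) := by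
      apply LipschitzOnWith.of_dist_le_mul
      intro x hx y hy
      rw [Real.dist_eq, Real.dist_eq]
      exact (g2_fstlip h hx hy hb).2
    exact this.continuousOn
  have h1 := (g2_diff h hl h0 (by linarith) hb).1
  have h2 := (g2_diff h h0 hr (by linarith) hb).1
  rw [Prod.fst_sub] at h1 h2
  have hiv := intermediate_value_Icc (by linarith : -ℓ ≤ ℓ) hc
  have : s' ∈ Icc ((g2P w z B (-ℓ) b).1 - (g2P w z B 0 b).1)
      ((g2P w z B ℓ b).1 - (g2P w z B 0 b).1) := by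
    constructor
    · linarith [hs'.1]
    · linarith [hs'.2]
  obtain ⟨s, hs, hse⟩ := hiv this
  exact ⟨s, hs, hse⟩

/-- the old parameter as a function of the new one -/
def g2σ (w : WD) (ℓ : ℝ) (z : ℝ → ℝ → Pl) (B : ℝ → ℝ → ℝ) (s' b : ℝ) : ℝ :=
  if h : ∃ s ∈ Icc (-ℓ) ℓ, (g2P w z B s b).1 - (g2P w z B 0 b).1 = s' then h.choose else 0

theorem g2σ_spec (h : G2C L Lχ ν0 L1 C1 i O l w ε η ℓ z B) {s' b : ℝ}
    (hs' : s' ∈ Icc (-(30 * ℓ)) (30 * ℓ)) (hb : b ∈ JJ) :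
    g2σ w ℓ z B s' b ∈ Icc (-ℓ) ℓ ∧
      (g2P w z B (g2σ w ℓ z B s' b) b).1 - (g2P w z B 0 b).1 = s' := by
  have hex := g2_exists h hs' hb
  have e : g2σ w ℓ z B s' b = hex.choose := by
    unfold g2σ
    rw [dif_pos hex]
  rw [e]
  exact hex.choose_spec

theorem g2σ_eq (h : G2C L Lχ ν0 L1 C1 i O l w ε η ℓ z B) {s s' b : ℝ}
    (hs' : s' ∈ Icc (-(30 * ℓ)) (30 * ℓ)) (hb : b ∈ JJ) (hs : s ∈ Icc (-ℓ) ℓ)
    (he : (g2P w z B s b).1 - (g2P w z B 0 b).1 = s') : g2σ w ℓ z B s' b = s := by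
  obtain ⟨h1, h2⟩ := g2σ_spec h hs' hb
  have h3 := (g2_fstlip h h1 hs hb).1
  have h4 : (g2P w z B (g2σ w ℓ z B s' b) b).1 - (g2P w z B s b).1 = 0 := by linarith
  rw [h4, abs_zero] at h3
  have h5 : |g2σ w ℓ z B s' b - s| = 0 := le_antisymm (by linarith) (abs_nonneg _)
  linarith [abs_eq_zero.mp h5]

theorem g2σ_lip (h : G2C L Lχ ν0 L1 C1 i O l w ε η ℓ z B) {s t b c : ℝ}
    (hs : s ∈ Icc (-(30 * ℓ)) (30 * ℓ)) (ht : t ∈ Icc (-(30 * ℓ)) (30 * ℓ)) (hb : b ∈ JJ)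
    (hc : c ∈ JJ) :
    |g2σ w ℓ z B s b - g2σ w ℓ z B t c| ≤ 1 / 31 * |s - t| + (Lχ * C1 + 1) * ε * |b - c| := by
  obtain ⟨s1, s2⟩ := g2σ_spec h hs hb
  obtain ⟨t1, t2⟩ := g2σ_spec h ht hc
  have hℓ := h.hℓ
  have h0 : (0:ℝ) ∈ Icc (-ℓ) ℓ := ⟨by linarith, by linarith⟩
  have h1 := (g2_fstlip h s1 t1 hb).1
  have h2 := (g2a_fst _).trans (g2_bdep h t1 hb hc)
  have h3 := (g2a_fst _).trans (g2_bdep h h0 hb hc)
  rw [Prod.fst_sub] at h2 h3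
  set σ := g2σ w ℓ z B s b
  set τ := g2σ w ℓ z B t c
  have e : (g2P w z B σ b).1 - (g2P w z B τ b).1 = (s - t)
      - ((g2P w z B τ b).1 - (g2P w z B τ c).1) + ((g2P w z B 0 b).1 - (g2P w z B 0 c).1) := by
    linarith
  have h4 : |(g2P w z B σ b).1 - (g2P w z B τ b).1| ≤ |s - t|
      + |(g2P w z B τ b).1 - (g2P w z B τ c).1| + |(g2P w z B 0 b).1 - (g2P w z B 0 c).1| := by
    rw [e]
    refine (abs_add_le _ _).trans ?_
    have := abs_sub (s - t) ((g2P w z B τ b).1 - (g2P w z B τ c).1)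
    linarith
  have h5 : 0 ≤ (Lχ * C1 + 1) * ε * |b - c| := (abs_nonneg _).trans h2
  linarith

theorem g2σ_mono (h : G2C L Lχ ν0 L1 C1 i O l w ε η ℓ z B) {s t b : ℝ}
    (hs : s ∈ Icc (-(30 * ℓ)) (30 * ℓ)) (ht : t ∈ Icc (-(30 * ℓ)) (30 * ℓ)) (hb : b ∈ JJ)
    (hst : s ≤ t) : (t - s) / 812 ≤ g2σ w ℓ z B t b - g2σ w ℓ z B s b := by
  obtain ⟨s1, s2⟩ := g2σ_spec h hs hb
  obtain ⟨t1, t2⟩ := g2σ_spec h ht hb
  set σ := g2σ w ℓ z B s b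
  set τ := g2σ w ℓ z B t b
  rcases le_total σ τ with hle | hle
  · have := (g2_diff h s1 t1 hle hb).2.1
    rw [Prod.fst_sub] at this
    rw [div_le_iff₀ (by norm_num)]
    linarith
  · have := (g2_diff h t1 s1 hle hb).1
    rw [Prod.fst_sub] at this
    have h1 : σ = τ := by linarith
    have h2 : t - s = 0 := by
      have : (g2P w z B σ b).1 = (g2P w z B τ b).1 := by rw [h1]
      linarith
    rw [h1, h2]
    simp

/-! ### the new family -/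

theorem g2n_B (h : G2C L Lχ ν0 L1 C1 i O l w ε η ℓ z B) {s b c : ℝ}
    (hs : s ∈ Icc (-(30 * ℓ)) (30 * ℓ)) (hb : b ∈ JJ) (hc : c ∈ JJ) :
    |B (g2σ w ℓ z B s b) b - B (g2σ w ℓ z B s c) c| ≤
      (L1 * (Lχ * C1 + 1) + C1) * ε * |b - c| := by
  have h1 := g2σ_lip h hs hs hb hc
  rw [sub_self, abs_zero, mul_zero, zero_add] at h1
  have h2 := h.Blip _ (g2σ_spec h hs hb).1 _ (g2σ_spec h hs hc).1 b hb c hc
  have h3 := mul_le_mul_of_nonneg_left h1 (by linarith [h.hL1] : 0 ≤ L1)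
  nlinarith

theorem g2n_X (h : G2C L Lχ ν0 L1 C1 i O l w ε η ℓ z B) {s b c : ℝ}
    (hs : s ∈ Icc (-(30 * ℓ)) (30 * ℓ)) (hb : b ∈ JJ) (hc : c ∈ JJ) :
    ‖z (g2σ w ℓ z B s b) (B (g2σ w ℓ z B s b) b) -
      z (g2σ w ℓ z B s c) (B (g2σ w ℓ z B s c) c)‖ ≤
      (5 * (Lχ * C1 + 1) + (L1 * (Lχ * C1 + 1) + C1)) * ε * |b - c| := by
  have h1 := g2σ_lip h hs hs hb hc
  rw [sub_self, abs_zero, mul_zero, zero_add] at h1
  have s1 := (g2σ_spec h hs hb).1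
  have s2 := (g2σ_spec h hs hc).1
  have h2 := g2n_B h hs hb hc
  have h3 := g2_zlip h s1 s2 (h.BJ _ s1 b hb) (h.BJ _ s2 c hc)
  have h4 : η * |B (g2σ w ℓ z B s b) b - B (g2σ w ℓ z B s c) c| ≤
      1 * |B (g2σ w ℓ z B s b) b - B (g2σ w ℓ z B s c) c| :=
    mul_le_mul_of_nonneg_right (g2_eta h) (abs_nonneg _)
  linarith

theorem g2n_dist (h : G2C L Lχ ν0 L1 C1 i O l w ε η ℓ z B) {s b c : ℝ}
    (hs : s ∈ Icc (-(30 * ℓ)) (30 * ℓ)) (hb : b ∈ JJ) (hc : c ∈ JJ) :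
    dist (z (g2σ w ℓ z B s b) (B (g2σ w ℓ z B s b) b), B (g2σ w ℓ z B s b) b, b)
      (z (g2σ w ℓ z B s c) (B (g2σ w ℓ z B s c) c), B (g2σ w ℓ z B s c) c, c) ≤ |b - c| := by
  have h1 := g2n_X h hs hb hc
  have h2 := g2n_B h hs hb hc
  have hε := h.hε
  have hC1 := h.hC1
  have hLχ : 1 ≤ Lχ := h.hL.trans h.hLχ
  have hL1 := h.hL1
  have e3 := h.e3
  have hc2 : 0 ≤ Lχ * C1 + 1 := by positivity
  have e5 : (5 * (Lχ * C1 + 1) + (L1 * (Lχ * C1 + 1) + C1)) * ε * |b - c| ≤ |b - c| := by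
    have := mul_le_mul_of_nonneg_right e3 (abs_nonneg (b - c))
    linarith
  have e6 : (L1 * (Lχ * C1 + 1) + C1) * ε * |b - c| ≤
      (5 * (Lχ * C1 + 1) + (L1 * (Lχ * C1 + 1) + C1)) * ε * |b - c| := by
    apply mul_le_mul_of_nonneg_right _ (abs_nonneg _)
    apply mul_le_mul_of_nonneg_right _ hε
    linarith
  exact g2_dist (h1.trans e5) (h2.trans (e6.trans e5)) le_rfl

theorem g2n_push (h : G2C L Lχ ν0 L1 C1 i O l w ε η ℓ z B) {E : Type*} [NormedAddCommGroup E]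
    {f : Pl × ℝ × ℝ → E} {g : Pl → E} (hf : Near ε f (fun p => g p.1) (O ×ˢ (JJ ×ˢ JJ)))
    (hg : Lip Lχ g O) {s b c : ℝ}
    (hs : s ∈ Icc (-(30 * ℓ)) (30 * ℓ)) (hb : b ∈ JJ) (hc : c ∈ JJ) :
    ‖f (z (g2σ w ℓ z B s b) (B (g2σ w ℓ z B s b) b), B (g2σ w ℓ z B s b) b, b) -
      f (z (g2σ w ℓ z B s c) (B (g2σ w ℓ z B s c) c), B (g2σ w ℓ z B s c) c, c)‖ ≤
      (Lχ * (5 * (Lχ * C1 + 1) + (L1 * (Lχ * C1 + 1) + C1)) + 1) * ε * |b - c| := by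
  have s1 := (g2σ_spec h hs hb).1
  have s2 := (g2σ_spec h hs hc).1
  have m1 := g2_mem h s1 hb
  have m2 := g2_mem h s2 hc
  have h1 := g2n_X h hs hb hc
  have h2 := g2a_near_use hf m1 m2 (g2n_dist h hs hb hc) h.hε
  have h3 := hg _ m1.1 _ m2.1
  rw [dist_eq_norm] at h3
  have hLχ : 0 ≤ Lχ := by linarith [h.hL.trans h.hLχ]
  have h4 := h3.trans (mul_le_mul_of_nonneg_left h1 hLχ)
  simp only at h2 h4
  set X := z (g2σ w ℓ z B s b) (B (g2σ w ℓ z B s b) b)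
  set Y := z (g2σ w ℓ z B s c) (B (g2σ w ℓ z B s c) c)
  have e : f (X, B (g2σ w ℓ z B s b) b, b) - f (Y, B (g2σ w ℓ z B s c) c, c)
      = (f (X, B (g2σ w ℓ z B s b) b, b) - f (Y, B (g2σ w ℓ z B s c) c, c) - (g X - g Y))
        + (g X - g Y) := by abel
  rw [e]
  refine (norm_add_le _ _).trans ?_
  linarith

theorem g2n_slip (h : G2C L Lχ ν0 L1 C1 i O l w ε η ℓ z B) {s t b : ℝ}
    (hs : s ∈ Icc (-(30 * ℓ)) (30 * ℓ)) (ht : t ∈ Icc (-(30 * ℓ)) (30 * ℓ)) (hb : b ∈ JJ) :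
    |w.Θ' (z (g2σ w ℓ z B s b) (B (g2σ w ℓ z B s b) b), B (g2σ w ℓ z B s b) b, b) -
      w.Θ' (z (g2σ w ℓ z B t b) (B (g2σ w ℓ z B t b) b), B (g2σ w ℓ z B t b) b, b)| ≤
      L * |s - t| := by
  have s1 := (g2σ_spec h hs hb).1
  have s2 := (g2σ_spec h ht hb).1
  have h0 := g2σ_lip h hs ht hb hb
  rw [sub_self, abs_zero, mul_zero, add_zero] at h0
  set σ := g2σ w ℓ z B s b
  set τ := g2σ w ℓ z B t b
  have m1 := g2_mem h s1 hb
  have m2 := g2_mem h s2 hb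
  have hB : |B σ b - B τ b| ≤ L1 * |σ - τ| := by
    have := h.Blip _ s1 _ s2 b hb b hb
    rw [sub_self, abs_zero, mul_zero, add_zero] at this
    exact this
  have hη := h.hη
  have hL1 := h.hL1
  have hε := h.hε
  have hL := h.hL
  have hX : ‖z σ (B σ b) - z τ (B τ b)‖ ≤ 6 * |σ - τ| := by
    have h3 := g2_zlip h s1 s2 (h.BJ _ s1 b hb) (h.BJ _ s2 b hb)
    have h4 : η * |B σ b - B τ b| ≤ η * (L1 * |σ - τ|) := mul_le_mul_of_nonneg_left hB hη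
    have e1 := h.e1
    have e3 : 0 ≤ η * L1 := mul_nonneg hη (by linarith)
    nlinarith [abs_nonneg (σ - τ)]
  have hab := abs_nonneg (σ - τ)
  have h2 := g2a_near_use h.wn.Θ' m1 m2 (D := (6 + L1) * |σ - τ|)
    (g2_dist (hX.trans (by nlinarith)) (hB.trans (by nlinarith))
      (by rw [sub_self, abs_zero]; positivity)) hε
  have h3 := h.lipθ _ m1.1 _ m2.1
  rw [dist_eq_norm, Real.norm_eq_abs] at h3
  have h4 := h3.trans (mul_le_mul_of_nonneg_left hX (by linarith))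
  simp only [Real.norm_eq_abs] at h2 h4
  set X := z σ (B σ b)
  set Y := z τ (B τ b)
  have e : w.Θ' (X, B σ b, b) - w.Θ' (Y, B τ b, b)
      = (w.Θ' (X, B σ b, b) - w.Θ' (Y, B τ b, b) - (l.θ X - l.θ Y))
        + (l.θ X - l.θ Y) := by ring
  rw [e]
  refine (abs_add_le _ _).trans ?_
  have e2 := h.e2
  have e3 : ε * ((6 + L1) * |σ - τ|) ≤ 1 / 1000 * |σ - τ| := by
    have : ε * (6 + L1) ≤ ε * (7 * L1) := mul_le_mul_of_nonneg_left (by linarith) h.hε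
    nlinarith
  have e4 : ε * ((6 + L1) * |σ - τ|) ≤ L * |σ - τ| := by nlinarith
  have e5 : L * |σ - τ| ≤ L * (1 / 31 * |s - t|) := mul_le_mul_of_nonneg_left h0 (by linarith)
  have e6 : 0 ≤ L * |s - t| := mul_nonneg (by linarith) (abs_nonneg _)
  linarith

theorem g2n_graph (h : G2C L Lχ ν0 L1 C1 i O l w ε η ℓ z B) {s t b : ℝ}
    (hs : s ∈ Icc (-(30 * ℓ)) (30 * ℓ)) (ht : t ∈ Icc (-(30 * ℓ)) (30 * ℓ)) (hb : b ∈ JJ)
    (hst : s ≤ t) :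
    (g2P w z B (g2σ w ℓ z B t b) b).1 - (g2P w z B (g2σ w ℓ z B s b) b).1 = t - s ∧
    slo i * (t - s) ≤ (g2P w z B (g2σ w ℓ z B t b) b).2 - (g2P w z B (g2σ w ℓ z B s b) b).2 ∧
    (g2P w z B (g2σ w ℓ z B t b) b).2 - (g2P w z B (g2σ w ℓ z B s b) b).2 ≤
      shi i * (t - s) := by
  obtain ⟨s1, s2⟩ := g2σ_spec h hs hb
  obtain ⟨t1, t2⟩ := g2σ_spec h ht hb
  have hm := g2σ_mono h hs ht hb hst
  set σ := g2σ w ℓ z B s b
  set τ := g2σ w ℓ z B t b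
  have hle : σ ≤ τ := by
    have : 0 ≤ (t - s) / 812 := div_nonneg (by linarith) (by norm_num)
    linarith
  have h1 := g2_diff h s1 t1 hle hb
  rw [Prod.fst_sub, Prod.snd_sub] at h1
  have e : (g2P w z B τ b).1 - (g2P w z B σ b).1 = t - s := by linarith
  rw [e] at h1
  exact ⟨e, h1.2.2.1, h1.2.2.2⟩

theorem g2n_contσ (h : G2C L Lχ ν0 L1 C1 i O l w ε η ℓ z B) :
    ContinuousOn (fun p : ℝ × ℝ => (g2σ w ℓ z B p.1 p.2, B (g2σ w ℓ z B p.1 p.2) p.2))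
      (Icc (-(30 * ℓ)) (30 * ℓ) ×ˢ JJ) := by
  have hε := h.hε
  have hC1 := h.hC1
  have hLχ : 1 ≤ Lχ := h.hL.trans h.hLχ
  have hL1 := h.hL1
  have hK2 : 0 ≤ (Lχ * C1 + 1) * ε := by positivity
  have l1 : LipschitzOnWith ⟨1 / 31 + (Lχ * C1 + 1) * ε, by positivity⟩
      (fun p : ℝ × ℝ => g2σ w ℓ z B p.1 p.2) (Icc (-(30 * ℓ)) (30 * ℓ) ×ˢ JJ) := by
    apply LipschitzOnWith.of_dist_le_mul
    rintro ⟨s, b⟩ ⟨hs, hb⟩ ⟨t, c⟩ ⟨ht, hc⟩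
    rw [Real.dist_eq]
    change |g2σ w ℓ z B s b - g2σ w ℓ z B t c| ≤
      (1 / 31 + (Lχ * C1 + 1) * ε) * dist (s, b) (t, c)
    have h1 := g2σ_lip h hs ht hb hc
    have d1 : |s - t| ≤ dist (s, b) (t, c) := by
      rw [Prod.dist_eq, Real.dist_eq]; exact le_max_left _ _
    have d2 : |b - c| ≤ dist (s, b) (t, c) := by
      rw [Prod.dist_eq, Real.dist_eq, Real.dist_eq]; exact le_max_right _ _
    have e1 := mul_le_mul_of_nonneg_left d2 hK2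
    simp only at h1
    linarith
  have l2 : LipschitzOnWith ⟨L1 * (1 / 31 + (Lχ * C1 + 1) * ε) + C1 * ε, by positivity⟩
      (fun p : ℝ × ℝ => B (g2σ w ℓ z B p.1 p.2) p.2) (Icc (-(30 * ℓ)) (30 * ℓ) ×ˢ JJ) := by
    apply LipschitzOnWith.of_dist_le_mul
    rintro ⟨s, b⟩ ⟨hs, hb⟩ ⟨t, c⟩ ⟨ht, hc⟩
    rw [Real.dist_eq]
    change |B (g2σ w ℓ z B s b) b - B (g2σ w ℓ z B t c) c| ≤
      (L1 * (1 / 31 + (Lχ * C1 + 1) * ε) + C1 * ε) * dist (s, b) (t, c)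
    have h1 := g2σ_lip h hs ht hb hc
    have h2 := h.Blip _ (g2σ_spec h hs hb).1 _ (g2σ_spec h ht hc).1 b hb c hc
    have d1 : |s - t| ≤ dist (s, b) (t, c) := by
      rw [Prod.dist_eq, Real.dist_eq]; exact le_max_left _ _
    have d2 : |b - c| ≤ dist (s, b) (t, c) := by
      rw [Prod.dist_eq, Real.dist_eq, Real.dist_eq]; exact le_max_right _ _
    have e1 := mul_le_mul_of_nonneg_left d2 hK2
    have e2 := mul_le_mul_of_nonneg_left d2 (by positivity : 0 ≤ C1 * ε)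
    have e3 : |g2σ w ℓ z B s b - g2σ w ℓ z B t c| ≤
        (1 / 31 + (Lχ * C1 + 1) * ε) * dist (s, b) (t, c) := by
      simp only at h1
      linarith
    have e4 := mul_le_mul_of_nonneg_left e3 (by positivity : 0 ≤ L1)
    simp only at h2
    linarith
  exact l1.continuousOn.prodMk l2.continuousOn

end ctx

theorem g2m_facts (L Lχ ν0 : ℝ) (hL : 1 ≤ L) (hLχ : L ≤ Lχ) (sys : Sys) (κ0 : Pl → ℝ)
    (i : Fin 2) (O : Set Pl) (l : LD) (w : WD) (ε : ℝ) (hε : 0 ≤ ε) (hε' : ε ≤ 1 / 4000)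
    (hK : KNear ε L O sys.K κ0) (hl : LLim Lχ ν0 i O l) (hw : WNear ε O w l) :
    (∀ X ∈ O, ∀ Y ∈ O, ∀ b ∈ JJ, ∀ c ∈ JJ, ∀ b' ∈ JJ, ∀ c' ∈ JJ,
        |w.Θ (X, b, b') - w.Θ (Y, c, c')| ≤ (Lχ + 6) * ‖X - Y‖ + ε * (|b - c| + |b' - c'|)) ∧
    (∀ X ∈ O, ∀ Y ∈ O, ∀ N N' : ℝ, ∀ b ∈ JJ, ∀ c ∈ JJ,
        |sys.K X N b - sys.K Y N' c| ≤ (Lχ + 6) * ‖X - Y‖ + ε * (|N - N'| + |b - c|)) ∧
    (∀ X ∈ O, ∀ N, ∀ b ∈ JJ, 99 / 100 ≤ sys.K X N b ∧ sys.K X N b ≤ 121 / 100) := by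
  refine ⟨?_, ?_, ?_⟩
  · intro X hX Y hY b hb c hc b' hb' c' hc'
    have h1 := hw.Θ.2 (X, b, b') ⟨hX, hb, hb'⟩ (Y, c, c') ⟨hY, hc, hc'⟩
    have h2 := hl.lipχ X hX Y hY
    have h3 : dist (X, b, b') (Y, c, c') ≤ ‖X - Y‖ + (|b - c| + |b' - c'|) := by
      have a1 := norm_nonneg (X - Y)
      have a2 := abs_nonneg (b - c)
      have a3 := abs_nonneg (b' - c')
      exact g2_dist (by linarith) (by linarith) (by linarith)
    rw [Real.norm_eq_abs] at h1 h2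
    rw [dist_eq_norm X Y] at h2
    simp only at h1
    have h4 := mul_le_mul_of_nonneg_left h3 hε
    have e : w.Θ (X, b, b') - w.Θ (Y, c, c')
        = ((w.Θ (X, b, b') - l.χ X) - (w.Θ (Y, c, c') - l.χ Y)) + (l.χ X - l.χ Y) := by ring
    rw [e]
    refine (abs_add_le _ _).trans ?_
    nlinarith [norm_nonneg (X - Y)]
  · intro X hX Y hY N N' b hb c hc
    have h1 := hK.near.2 (X, N, b) ⟨hX, mem_univ _, hb⟩ (Y, N', c) ⟨hY, mem_univ _, hc⟩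
    have h2 := hK.lip X hX Y hY
    have h3 : dist (X, N, b) (Y, N', c) ≤ ‖X - Y‖ + (|N - N'| + |b - c|) := by
      have a1 := norm_nonneg (X - Y)
      have a2 := abs_nonneg (N - N')
      have a3 := abs_nonneg (b - c)
      exact g2_dist (by linarith) (by linarith) (by linarith)
    rw [Real.norm_eq_abs] at h1 h2
    rw [dist_eq_norm X Y] at h2
    simp only at h1
    have h4 := mul_le_mul_of_nonneg_left h3 hε
    have e : sys.K X N b - sys.K Y N' c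
        = ((sys.K X N b - κ0 X) - (sys.K Y N' c - κ0 Y)) + (κ0 X - κ0 Y) := by ring
    rw [e]
    refine (abs_add_le _ _).trans ?_
    have h5 : L * ‖X - Y‖ ≤ Lχ * ‖X - Y‖ := mul_le_mul_of_nonneg_right hLχ (norm_nonneg _)
    nlinarith [norm_nonneg (X - Y)]
  · intro X hX N b hb
    have h1 := hK.near.1 (X, N, b) ⟨hX, mem_univ _, hb⟩
    rw [Real.norm_eq_abs, abs_le] at h1
    simp only at h1
    have h2 := hK.lo X hX
    have h3 := hK.hi X hX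
    constructor <;> linarith [h1.1, h1.2]


/-- `link_lip` with the lower bound `1/11` everywhere (old form) -/
theorem g2a_link_old (L : ℝ) (hL : 1 ≤ L) : ∃ L1 C1 ε0 : ℝ, 1 ≤ L1 ∧ 1 ≤ C1 ∧ 0 < ε0 ∧
    ∀ {Q : Type} [PseudoMetricSpace Q] (q : Set Q) (X1 : Q × ℝ → Pl) (N1 : Q × ℝ → ℝ)
      (O : Set Pl) (K : Pl → ℝ → ℝ → ℝ) (Θ : Pl × ℝ × ℝ → ℝ) (ε η : ℝ), 0 ≤ ε → 0 ≤ η → ε ≤ ε0 →
      η ≤ ε0 →
      (∀ p ∈ q, ∀ p' ∈ q, ∀ b ∈ JJ, ∀ b' ∈ JJ,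
        ‖X1 (p, b) - X1 (p', b')‖ ≤ L * dist p p' + η * |b - b'| ∧
        |N1 (p, b) - N1 (p', b')| ≤ L * dist p p' + η * |b - b'|) →
      (∀ p ∈ q, ∀ b ∈ JJ, X1 (p, b) ∈ O) →
      (∀ X ∈ O, ∀ Y ∈ O, ∀ b ∈ JJ, ∀ c ∈ JJ, ∀ b' ∈ JJ, ∀ c' ∈ JJ,
        |Θ (X, b, b') - Θ (Y, c, c')| ≤ L * ‖X - Y‖ + ε * (|b - c| + |b' - c'|)) →
      (∀ X ∈ O, ∀ Y ∈ O, ∀ N N' : ℝ, ∀ b ∈ JJ, ∀ c ∈ JJ,
        |K X N b - K Y N' c| ≤ L * ‖X - Y‖ + ε * (|N - N'| + |b - c|)) →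
      (∀ X ∈ O, ∀ N, ∀ b ∈ JJ, 99 / 100 ≤ K X N b ∧ K X N b ≤ 121 / 100) →
      (∀ p ∈ q, ∀ b ∈ JJ, ∀ b' ∈ JJ, Acc (1 / 11) (17 / 2) (Θ (X1 (p, b), b, b')) (N1 (p, b))) →
      ∃ B : Q × ℝ → ℝ, (∀ p ∈ q, ∀ b' ∈ JJ, 1 / 14 ≤ |B (p, b')| ∧ |B (p, b')| ≤ 9 ∧
          Mat K (X1 (p, B (p, b'))) (N1 (p, B (p, b'))) (B (p, b'))
            (Θ (X1 (p, B (p, b')), B (p, b'), b')) ∧
          K (X1 (p, B (p, b'))) (N1 (p, B (p, b'))) (B (p, b')) * B (p, b') =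
            Real.cos ((Θ (X1 (p, B (p, b')), B (p, b'), b') - N1 (p, B (p, b'))) / 2) /
            Real.sin ((Θ (X1 (p, B (p, b')), B (p, b'), b') - N1 (p, B (p, b'))) / 2)) ∧
        ∀ p ∈ q, ∀ p' ∈ q, ∀ b ∈ JJ, ∀ b' ∈ JJ,
          |B (p, b) - B (p', b')| ≤ L1 * dist p p' + C1 * ε * |b - b'| := by
  obtain ⟨L1, C1, ε0, h1, h2, h3, H⟩ := link_lip L hL
  refine ⟨L1, C1, ε0, h1, h2, h3, ?_⟩
  intro Q _ q X1 N1 O K Θ ε η a1 a2 a3 a4 a5 a6 a7 a8 a9 hA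
  obtain ⟨B, hB1, hB2⟩ := H q X1 N1 O K Θ ε η a1 a2 a3 a4 a5 a6 a7 a8 a9
    (fun p hp b hb b' hb' => ⟨(hA p hp b hb b' hb').1, abs_nonneg _, (hA p hp b hb b' hb').2.2⟩)
  refine ⟨B, fun p hp b' hb' => ?_, hB2⟩
  obtain ⟨c1, c2, c3, c4⟩ := hB1 p hp b' hb'
  have hb : B (p, b') ∈ JJ := ⟨by linarith [(abs_le.mp c2).1], by linarith [(abs_le.mp c2).2]⟩
  exact ⟨c1 (hA p hp _ hb b' hb'), c2, c3, c4⟩


theorem step_pr (L Lχ ν0 : ℝ) (hL : 1 ≤ L) (hLχ : L ≤ Lχ) (hν : 0 < ν0 ∧ ν0 ≤ 1 / 10) :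
    ∃ L1 C1 ε0 : ℝ, 1 ≤ L1 ∧ 1 ≤ C1 ∧ 0 < ε0 ∧
    ∀ (sys : Sys) (κ0 : Pl → ℝ) (i : Fin 2) (O : Set Pl) (l : LD) (w : WD) (ε η : ℝ)
      (R : sys.S → sys.S → Prop) (V : Set (ℝ × ℝ)) (Φ : Fam sys.S),
      0 ≤ ε → ε ≤ ε0 → 0 ≤ η → η ≤ ε0 →
      KNear ε L O sys.K κ0 → LLim Lχ ν0 i O l → Lip L l.θ O → WNear ε O w l →
      IsFam sys R V (1 / 10) 5 η L ν0 Φ →
      (∀ s ∈ Icc (-Φ.ℓ) Φ.ℓ, ∀ b ∈ JJ, Φ.z s b ∈ O) →
      ∃ (B σ : ℝ → ℝ → ℝ),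
        -- intermediate impact parameter, at the old parameter `s`
        (∀ s ∈ Icc (-Φ.ℓ) Φ.ℓ, ∀ b' ∈ JJ, 1 / 14 ≤ |B s b'| ∧ |B s b'| ≤ 9 ∧
          Mat sys.K (Φ.z s (B s b')) (Φ.N s (B s b')) (B s b') (w.Θ (Φ.z s (B s b'), B s b', b'))) ∧
        (∀ s ∈ Icc (-Φ.ℓ) Φ.ℓ, ∀ t ∈ Icc (-Φ.ℓ) Φ.ℓ, ∀ b ∈ JJ, ∀ c ∈ JJ,
          |B s b - B t c| ≤ L1 * |s - t| + C1 * ε * |b - c|) ∧
        -- old parameter as a function of the new one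
        (∀ s' ∈ Icc (-(30 * Φ.ℓ)) (30 * Φ.ℓ), ∀ b' ∈ JJ, σ s' b' ∈ Icc (-Φ.ℓ) Φ.ℓ) ∧
        (∀ b' ∈ JJ, σ 0 b' = 0) ∧
        (∀ s ∈ Icc (-(30 * Φ.ℓ)) (30 * Φ.ℓ), ∀ t ∈ Icc (-(30 * Φ.ℓ)) (30 * Φ.ℓ), ∀ b ∈ JJ, ∀ c ∈ JJ,
          |σ s b - σ t c| ≤ 1 / 30 * |s - t| + C1 * ε * |b - c|) ∧
        (∀ s ∈ Icc (-(30 * Φ.ℓ)) (30 * Φ.ℓ), ∀ t ∈ Icc (-(30 * Φ.ℓ)) (30 * Φ.ℓ), ∀ b ∈ JJ,
          s ≤ t → (t - s) / 900 ≤ σ t b - σ s b) ∧
        -- surjectivity onto small old parameters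
        (∀ s, |s| ≤ Φ.ℓ / 40 → ∀ b' ∈ JJ,
          ∃ s' ∈ Icc (-(30 * Φ.ℓ)) (30 * Φ.ℓ), σ s' b' = s) ∧
        -- the new family
        ∀ (Ri : Pl × ℝ × ℝ → sys.S → sys.S → Prop) (R' : sys.S → sys.S → Prop) (V' : Set (ℝ × ℝ)),
          Realizes sys O w Ri →
          (∀ s' ∈ Icc (-(30 * Φ.ℓ)) (30 * Φ.ℓ), ∀ b' ∈ JJ, (s', b') ∉ V' →
            (σ s' b', B (σ s' b') b') ∉ V ∧
            ∀ x y u, R x y →
              Ri (Φ.z (σ s' b') (B (σ s' b') b'), B (σ s' b') b', b') y u → R' x u) →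
          IsFam sys R' V' (slo i) (shi i) (C1 * ε) L ν0
            { ℓ := 30 * Φ.ℓ
              z := fun s' b' => w.P (Φ.z (σ s' b') (B (σ s' b') b'), B (σ s' b') b', b')
              N := fun s' b' => w.Θ' (Φ.z (σ s' b') (B (σ s' b') b'), B (σ s' b') b', b')
              y := fun s' b' => Φ.y (σ s' b') (B (σ s' b') b') } ∧
          Fam.ContAll
            { ℓ := 30 * Φ.ℓ
              z := fun s' b' => w.P (Φ.z (σ s' b') (B (σ s' b') b'), B (σ s' b') b', b')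
              N := fun s' b' => w.Θ' (Φ.z (σ s' b') (B (σ s' b') b'), B (σ s' b') b', b')
              y := fun s' b' => Φ.y (σ s' b') (B (σ s' b') b') } := by
  have hLχ1 : 1 ≤ Lχ := hL.trans hLχ
  obtain ⟨L1, C1, ε1, hL1, hC1, hε1, hlink⟩ := g2a_link_old (Lχ + 6) (by linarith)
  have hC4 : 1 ≤ 5 * (Lχ * C1 + 1) + (L1 * (Lχ * C1 + 1) + C1) := by
    have : 0 ≤ Lχ * C1 := by positivity
    have : 0 ≤ L1 * (Lχ * C1 + 1) := by positivity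
    linarith
  have hC5 : 1 ≤ Lχ * (5 * (Lχ * C1 + 1) + (L1 * (Lχ * C1 + 1) + C1)) + 1 := by
    have : 0 ≤ Lχ * (5 * (Lχ * C1 + 1) + (L1 * (Lχ * C1 + 1) + C1)) := by positivity
    linarith
  have hC45 : 5 * (Lχ * C1 + 1) + (L1 * (Lχ * C1 + 1) + C1) ≤
      Lχ * (5 * (Lχ * C1 + 1) + (L1 * (Lχ * C1 + 1) + C1)) + 1 := by
    have : 1 * (5 * (Lχ * C1 + 1) + (L1 * (Lχ * C1 + 1) + C1)) ≤
        Lχ * (5 * (Lχ * C1 + 1) + (L1 * (Lχ * C1 + 1) + C1)) :=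
      mul_le_mul_of_nonneg_right hLχ1 (by linarith)
    linarith
  have hC15 : C1 ≤ Lχ * (5 * (Lχ * C1 + 1) + (L1 * (Lχ * C1 + 1) + C1)) + 1 := by
    have : 0 ≤ Lχ * C1 := by positivity
    have : 0 ≤ L1 * (Lχ * C1 + 1) := by positivity
    linarith
  have hC25 : Lχ * C1 + 1 ≤ Lχ * (5 * (Lχ * C1 + 1) + (L1 * (Lχ * C1 + 1) + C1)) + 1 := by
    have : 0 ≤ Lχ * C1 := by positivity
    have : 0 ≤ L1 * (Lχ * C1 + 1) := by positivity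
    linarith
  set C4 := 5 * (Lχ * C1 + 1) + (L1 * (Lχ * C1 + 1) + C1) with hC4def
  refine ⟨L1, Lχ * C4 + 1, min ε1 (min (1 / (36200000 * L1)) (min (1 / C4) (ν0 / 40000))),
    hL1, hC5, ?_, ?_⟩
  · have := hν.1
    positivity
  intro sys κ0 i O l w ε η R V Φ hε hεs hη hηs hK hl hlθ hw hΦ hO
  have b1 : ε ≤ ε1 := hεs.trans (min_le_left _ _)
  have b1' : η ≤ ε1 := hηs.trans (min_le_left _ _)
  have b2 : ε ≤ 1 / (36200000 * L1) :=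
    hεs.trans ((min_le_right _ _).trans (min_le_left _ _))
  have b2' : η ≤ 1 / (36200000 * L1) :=
    hηs.trans ((min_le_right _ _).trans (min_le_left _ _))
  have b3 : ε ≤ 1 / C4 :=
    hεs.trans ((min_le_right _ _).trans ((min_le_right _ _).trans (min_le_left _ _)))
  have b4 : ε ≤ ν0 / 40000 :=
    hεs.trans ((min_le_right _ _).trans ((min_le_right _ _).trans (min_le_right _ _)))
  rw [le_div_iff₀ (by positivity)] at b2 b2' b3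
  have hε4 : ε ≤ 1 / 4000 := by linarith [hν.2]
  obtain ⟨f1, f2, f3⟩ := g2m_facts L Lχ ν0 hL hLχ sys κ0 i O l w ε hε hε4 hK hl hw
  have hzl : ∀ b ∈ JJ, ∀ c ∈ JJ, ∀ s ∈ Icc (-Φ.ℓ) Φ.ℓ, ∀ t ∈ Icc (-Φ.ℓ) Φ.ℓ,
      ‖Φ.z s b - Φ.z t c‖ ≤ 5 * |s - t| + η * |b - c| := by
    intro b hb c hc s hs t ht
    exact g2a_zlip hΦ.graph (fun s hs b hb b' hb' => (hΦ.blip s hs b hb b' hb').1) hs ht hb hc
  obtain ⟨B0, hB1, hB2⟩ := hlink (Icc (-Φ.ℓ) Φ.ℓ) (fun p => Φ.z p.1 p.2) (fun p => Φ.N p.1 p.2)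
    O sys.K w.Θ ε η hε hη b1 b1' (by
      intro s hs t ht b hb c hc
      simp only [Real.dist_eq]
      constructor
      · refine (hzl b hb c hc s hs t ht).trans ?_
        have := mul_nonneg (by linarith : 0 ≤ Lχ + 1) (abs_nonneg (s - t))
        linarith
      · have h1 := hΦ.slip b hb s hs t ht
        have h2 := (hΦ.blip t ht b hb c hc).2
        have h3 : |Φ.N s b - Φ.N t c| ≤ |Φ.N s b - Φ.N t b| + |Φ.N t b - Φ.N t c| := by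
          have e : Φ.N s b - Φ.N t c = (Φ.N s b - Φ.N t b) + (Φ.N t b - Φ.N t c) := by ring
          rw [e]
          exact abs_add_le _ _
        have := mul_le_mul_of_nonneg_right (by linarith : L ≤ Lχ + 6) (abs_nonneg (s - t))
        linarith) (by
      intro s hs b hb
      exact hO s hs b hb) f1 f2 f3 (by
      intro s hs b hb b' hb'
      have h1 := hl.acc _ (hO s hs b hb) _ (hΦ.dir b hb s hs)
      have h2 := hw.Θ.1 (Φ.z s b, b, b') ⟨hO s hs b hb, hb, hb'⟩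
      rw [Real.norm_eq_abs] at h2
      exact g2a_acc h1 h2 hε4)
  set B : ℝ → ℝ → ℝ := fun s b => B0 (s, b) with hBdef
  have hBJ : ∀ s ∈ Icc (-Φ.ℓ) Φ.ℓ, ∀ b ∈ JJ, B s b ∈ JJ := by
    intro s hs b hb
    have h1 := (hB1 s hs b hb).2.1
    rw [abs_le] at h1
    exact ⟨by simp only [hBdef]; linarith [h1.1], by simp only [hBdef]; linarith [h1.2]⟩
  have h : G2C L Lχ ν0 L1 C1 i O l w ε η Φ.ℓ Φ.z B :=
    { hL := hL
      hLχ := hLχ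
      hL1 := hL1
      hC1 := hC1
      hε := hε
      hη := hη
      hℓ := hΦ.pos
      e1 := by nlinarith
      e2 := by nlinarith
      e3 := by
        rw [← hC4def]
        linarith
      lim := hl
      lipθ := hlθ
      wn := hw
      graph := hΦ.graph
      blip := fun s hs b hb b' hb' => (hΦ.blip s hs b hb b' hb').1
      zO := hO
      BJ := hBJ
      Blip := by
        intro s hs t ht b hb c hc
        have := hB2 s hs t ht b hb c hc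
        rw [Real.dist_eq] at this
        exact this }
  have hℓ := hΦ.pos
  have h0 : (0:ℝ) ∈ Icc (-Φ.ℓ) Φ.ℓ := ⟨by linarith, by linarith⟩
  refine ⟨B, g2σ w Φ.ℓ Φ.z B, ?_, ?_, ?_, ?_, ?_, ?_, ?_, ?_⟩
  · intro s hs b' hb'
    obtain ⟨a1, a2, a3, -⟩ := hB1 s hs b' hb'
    exact ⟨a1, a2, a3⟩
  · intro s hs t ht b hb c hc
    have h1 := h.Blip s hs t ht b hb c hc
    have h2 : C1 * ε * |b - c| ≤ (Lχ * C4 + 1) * ε * |b - c| :=
      mul_le_mul_of_nonneg_right (mul_le_mul_of_nonneg_right hC15 hε) (abs_nonneg _)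
    linarith
  · intro s' hs' b' hb'
    exact (g2σ_spec h hs' hb').1
  · intro b' hb'
    exact g2σ_eq h ⟨by linarith, by linarith⟩ hb' h0 (by ring)
  · intro s hs t ht b hb c hc
    have h1 := g2σ_lip h hs ht hb hc
    have h2 : (Lχ * C1 + 1) * ε * |b - c| ≤ (Lχ * C4 + 1) * ε * |b - c| :=
      mul_le_mul_of_nonneg_right (mul_le_mul_of_nonneg_right hC25 hε) (abs_nonneg _)
    have h3 := abs_nonneg (s - t)
    linarith
  · intro s hs t ht b hb hst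
    have h1 := g2σ_mono h hs ht hb hst
    have h2 : (t - s) / 900 ≤ (t - s) / 812 := by
      rw [div_le_div_iff₀ (by norm_num) (by norm_num)]
      linarith
    linarith
  · intro s hs b' hb'
    have hs1 : s ∈ Icc (-Φ.ℓ) Φ.ℓ := by
      rw [abs_le] at hs
      exact ⟨by linarith [hs.1], by linarith [hs.2]⟩
    have h1 := (g2_fstlip h hs1 h0 hb').2
    rw [sub_zero] at h1
    have h2 : |(g2P w Φ.z B s b').1 - (g2P w Φ.z B 0 b').1| ≤ 30 * Φ.ℓ := by linarith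
    rw [abs_le] at h2
    refine ⟨(g2P w Φ.z B s b').1 - (g2P w Φ.z B 0 b').1, ⟨h2.1, h2.2⟩, ?_⟩
    exact g2σ_eq h ⟨h2.1, h2.2⟩ hb' hs1 rfl
  · intro Ri R' V' hRi hrel
    have hcont := g2n_contσ h
    have hBne : ∀ s ∈ Icc (-Φ.ℓ) Φ.ℓ, ∀ b ∈ JJ, B s b ≠ 0 := by
      intro s hs b hb hh
      have h1 := (hB1 s hs b hb).1
      have h2 : B0 (s, b) = 0 := hh
      rw [h2, abs_zero] at h1
      norm_num at h1
    have hC : ContinuousOn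
        (fun p : ℝ × ℝ => Φ.y (g2σ w Φ.ℓ Φ.z B p.1 p.2) (B (g2σ w Φ.ℓ Φ.z B p.1 p.2) p.2))
        (Icc (-(30 * Φ.ℓ)) (30 * Φ.ℓ) ×ˢ JJ) := by
      have := hΦ.cont.comp hcont (by
        rintro ⟨s, b⟩ ⟨hs, hb⟩
        have s1 := (g2σ_spec h hs hb).1
        exact ⟨s1, hBJ _ s1 b hb, hBne _ s1 b hb⟩)
      exact this
    refine ⟨?_, hC⟩
    exact
      { pos := by
          change 0 < 30 * Φ.ℓ
          linarith
        graph := by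
          intro b hb s hs t ht hst
          exact g2n_graph h hs ht hb hst
        blip := by
          intro s hs b hb b' hb'
          constructor
          · exact g2n_push h hw.P hl.lipF hs hb hb'
          · have := g2n_push h hw.Θ' hl.lipθ hs hb hb'
            rw [Real.norm_eq_abs] at this
            exact this
        slip := by
          intro b hb s hs t ht
          exact g2n_slip h hs ht hb
        dir := by
          intro b hb s hs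
          have s1 := (g2σ_spec h hs hb).1
          have m1 := g2_mem h s1 hb
          have h1 := hw.Θ'.1 _ m1
          have h2 := hl.exit _ m1.1
          rw [Real.norm_eq_abs] at h1
          simp only at h1 h2
          change |w.Θ' (Φ.z (g2σ w Φ.ℓ Φ.z B s b) (B (g2σ w Φ.ℓ Φ.z B s b) b),
            B (g2σ w Φ.ℓ Φ.z B s b) b, b) - Real.pi / 2| ≤ ν0
          set X := Φ.z (g2σ w Φ.ℓ Φ.z B s b) (B (g2σ w Φ.ℓ Φ.z B s b) b)
          have e : w.Θ' (X, B (g2σ w Φ.ℓ Φ.z B s b) b, b) - Real.pi / 2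
            = (w.Θ' (X, B (g2σ w Φ.ℓ Φ.z B s b) b, b) - l.θ X) + (l.θ X - Real.pi / 2) := by
            ring
          rw [e]
          refine (abs_add_le _ _).trans ?_
          linarith [hν.1]
        cont := by
          refine hC.mono ?_
          rintro ⟨s, b⟩ ⟨hs, hb, -⟩
          exact ⟨hs, hb⟩
        rel := by
          intro b hb s hs hb0 hV
          have s1 := (g2σ_spec h hs hb).1
          obtain ⟨v1, v2⟩ := hrel s hs b hb hV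
          have r1 := hΦ.rel _ (hBJ _ s1 b hb) _ s1 (hBne _ s1 b hb) v1
          have r2 := hRi _ (hO _ s1 _ (hBJ _ s1 b hb)) _ (hBJ _ s1 b hb) b hb
            (hBne _ s1 b hb) hb0 _ (hB1 _ s1 b hb).2.2.1
          exact v2 _ _ _ r1 r2 }

end

end Pool.Agent.HS.STEP

namespace Pool.Agent.HS
open Set Filter Topology Classical

theorem step (L Lχ ν0 : ℝ) (hL : 1 ≤ L) (hLχ : L ≤ Lχ) (hν : 0 < ν0 ∧ ν0 ≤ 1 / 10) :
    ∃ L1 C1 ε0 : ℝ, 1 ≤ L1 ∧ 1 ≤ C1 ∧ 0 < ε0 ∧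
    ∀ (sys : Sys) (κ0 : Pl → ℝ) (i : Fin 2) (O : Set Pl) (l : LD) (w : WD) (ε η : ℝ)
      (R : sys.S → sys.S → Prop) (V : Set (ℝ × ℝ)) (Φ : Fam sys.S),
      0 ≤ ε → ε ≤ ε0 → 0 ≤ η → η ≤ ε0 →
      KNear ε L O sys.K κ0 → LLim Lχ ν0 i O l → Lip L l.θ O → WNear ε O w l →
      IsFam sys R V (1 / 10) 5 η L ν0 Φ →
      (∀ s ∈ Icc (-Φ.ℓ) Φ.ℓ, ∀ b ∈ JJ, Φ.z s b ∈ O) →
      ∃ (B σ : ℝ → ℝ → ℝ),
        (∀ s ∈ Icc (-Φ.ℓ) Φ.ℓ, ∀ b' ∈ JJ, 1 / 14 ≤ |B s b'| ∧ |B s b'| ≤ 9 ∧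
          Mat sys.K (Φ.z s (B s b')) (Φ.N s (B s b')) (B s b') (w.Θ (Φ.z s (B s b'), B s b', b'))) ∧
        (∀ s ∈ Icc (-Φ.ℓ) Φ.ℓ, ∀ t ∈ Icc (-Φ.ℓ) Φ.ℓ, ∀ b ∈ JJ, ∀ c ∈ JJ,
          |B s b - B t c| ≤ L1 * |s - t| + C1 * ε * |b - c|) ∧
        (∀ s' ∈ Icc (-(30 * Φ.ℓ)) (30 * Φ.ℓ), ∀ b' ∈ JJ, σ s' b' ∈ Icc (-Φ.ℓ) Φ.ℓ) ∧
        (∀ b' ∈ JJ, σ 0 b' = 0) ∧
        (∀ s ∈ Icc (-(30 * Φ.ℓ)) (30 * Φ.ℓ), ∀ t ∈ Icc (-(30 * Φ.ℓ)) (30 * Φ.ℓ), ∀ b ∈ JJ, ∀ c ∈ JJ,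
          |σ s b - σ t c| ≤ 1 / 30 * |s - t| + C1 * ε * |b - c|) ∧
        (∀ s ∈ Icc (-(30 * Φ.ℓ)) (30 * Φ.ℓ), ∀ t ∈ Icc (-(30 * Φ.ℓ)) (30 * Φ.ℓ), ∀ b ∈ JJ,
          s ≤ t → (t - s) / 900 ≤ σ t b - σ s b) ∧
        (∀ s, |s| ≤ Φ.ℓ / 40 → ∀ b' ∈ JJ,
          ∃ s' ∈ Icc (-(30 * Φ.ℓ)) (30 * Φ.ℓ), σ s' b' = s) ∧
        ∀ (Ri : Pl × ℝ × ℝ → sys.S → sys.S → Prop) (R' : sys.S → sys.S → Prop) (V' : Set (ℝ × ℝ)),
          Realizes sys O w Ri →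
          (∀ s' ∈ Icc (-(30 * Φ.ℓ)) (30 * Φ.ℓ), ∀ b' ∈ JJ, (s', b') ∉ V' →
            (σ s' b', B (σ s' b') b') ∉ V ∧
            ∀ x y u, R x y →
              Ri (Φ.z (σ s' b') (B (σ s' b') b'), B (σ s' b') b', b') y u → R' x u) →
          IsFam sys R' V' (slo i) (shi i) (C1 * ε) L ν0
            { ℓ := 30 * Φ.ℓ
              z := fun s' b' => w.P (Φ.z (σ s' b') (B (σ s' b') b'), B (σ s' b') b', b')
              N := fun s' b' => w.Θ' (Φ.z (σ s' b') (B (σ s' b') b'), B (σ s' b') b', b')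
              y := fun s' b' => Φ.y (σ s' b') (B (σ s' b') b') } ∧
          Fam.ContAll
            { ℓ := 30 * Φ.ℓ
              z := fun s' b' => w.P (Φ.z (σ s' b') (B (σ s' b') b'), B (σ s' b') b', b')
              N := fun s' b' => w.Θ' (Φ.z (σ s' b') (B (σ s' b') b'), B (σ s' b') b', b')
              y := fun s' b' => Φ.y (σ s' b') (B (σ s' b') b') } :=
  @Pool.Agent.HS.STEP.step_pr L Lχ ν0 hL hLχ hν

end Pool.Agent.HS
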