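import Pool.Agent.Lib_helper60.HSF.D_WG
import Pool.Agent.Lib_helper60.HSF.G_STEP
import Pool.Agent.Lib_helper60.HSF.G_MARKS

/-!
# HS, block G4: the event lemma

Zeros of functions of two real variables that are close to linear ones (`zero_ex`), differences
along a family (`diff_est`), and the event lemma (`event_pr`).
-/

set_option autoImplicit false

namespace Pool.Agent.HS.EVENT

noncomputable section

open Set Filter Topology Classical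

/-- complex conjugation -/
abbrev cj : ℂ →+* ℂ := starRingEnd ℂ

theorem im_add_mul (e a : ℂ) (s t : ℝ) :
    (cj e * ((s : ℂ) * a + (t : ℂ) * e)).im = s * (cj e * a).im := by
  simp only [Complex.mul_im, Complex.add_im, Complex.add_re, Complex.conj_re, Complex.conj_im,
    Complex.mul_re, Complex.ofReal_re, Complex.ofReal_im]
  ring

theorem re_add_mul (e a : ℂ) (s t : ℝ) :
    (cj e * ((s : ℂ) * a + (t : ℂ) * e)).re = s * (cj e * a).re + t * ‖e‖ ^ 2 := by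
  rw [← Complex.normSq_eq_norm_sq, Complex.normSq_apply]
  simp only [Complex.mul_im, Complex.add_im, Complex.add_re, Complex.conj_re, Complex.conj_im,
    Complex.mul_re, Complex.ofReal_re, Complex.ofReal_im]
  ring

theorem abs_im_le (e v : ℂ) : |(cj e * v).im| ≤ ‖e‖ * ‖v‖ := by
  refine (Complex.abs_im_le_norm _).trans ?_
  rw [norm_mul, RCLike.norm_conj]

theorem abs_re_le (e v : ℂ) : |(cj e * v).re| ≤ ‖e‖ * ‖v‖ := by
  refine (Complex.abs_re_le_norm _).trans ?_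
  rw [norm_mul, RCLike.norm_conj]

/-- lower bound for the second vector -/
theorem e_low (Λ : ℝ) (hΛ : 1 ≤ Λ) (a e : ℂ) (ha : ‖a‖ ≤ 6 * Λ)
    (h : 1 ≤ Λ * |(cj e * a).im|) : 1 ≤ 6 * Λ ^ 2 * ‖e‖ := by
  have h1 := abs_im_le e a
  have h2 : ‖e‖ * ‖a‖ ≤ ‖e‖ * (6 * Λ) := mul_le_mul_of_nonneg_left ha (norm_nonneg _)
  nlinarith [norm_nonneg e]

/-- lower bound for linear combinations -/
theorem lin_low (Λ : ℝ) (hΛ : 1 ≤ Λ) (a e : ℂ) (ha : ‖a‖ ≤ 6 * Λ) (he : ‖e‖ ≤ Λ)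
    (h : 1 ≤ Λ * |(cj e * a).im|) (s t : ℝ) :
    |s| + |t| ≤ 43 * Λ ^ 5 * ‖(s : ℂ) * a + (t : ℂ) * e‖ := by
  have he0 := e_low Λ hΛ a e ha h
  set v : ℂ := (s : ℂ) * a + (t : ℂ) * e with hv
  have hΛ0 : 0 ≤ Λ := by linarith
  -- first coordinate
  have h1 : |s| ≤ Λ ^ 2 * ‖v‖ := by
    have h2 : |s| * |(cj e * a).im| ≤ ‖e‖ * ‖v‖ := by
      rw [← abs_mul, ← im_add_mul e a s t]
      exact abs_im_le e v
    have h3 : ‖e‖ * ‖v‖ ≤ Λ * ‖v‖ := mul_le_mul_of_nonneg_right he (norm_nonneg _)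
    calc |s| = |s| * 1 := (mul_one _).symm
      _ ≤ |s| * (Λ * |(cj e * a).im|) := mul_le_mul_of_nonneg_left h (abs_nonneg _)
      _ = Λ * (|s| * |(cj e * a).im|) := by ring
      _ ≤ Λ * (Λ * ‖v‖) := mul_le_mul_of_nonneg_left (h2.trans h3) hΛ0
      _ = Λ ^ 2 * ‖v‖ := by ring
  -- second coordinate
  have h2 : |t| * ‖e‖ ≤ ‖v‖ + 6 * Λ ^ 3 * ‖v‖ := by
    have h3 : (t : ℂ) * e = v - (s : ℂ) * a := by rw [hv]; ring
    have h4 : |t| * ‖e‖ = ‖(t : ℂ) * e‖ := by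
      rw [norm_mul, Complex.norm_real, Real.norm_eq_abs]
    rw [h4, h3]
    refine (norm_sub_le _ _).trans ?_
    rw [norm_mul, Complex.norm_real, Real.norm_eq_abs]
    have h5 : |s| * ‖a‖ ≤ Λ ^ 2 * ‖v‖ * (6 * Λ) :=
      mul_le_mul h1 ha (norm_nonneg _) (by positivity)
    nlinarith
  have h3 : |t| ≤ 6 * Λ ^ 2 * (‖v‖ + 6 * Λ ^ 3 * ‖v‖) := by
    calc |t| = |t| * 1 := (mul_one _).symm
      _ ≤ |t| * (6 * Λ ^ 2 * ‖e‖) := mul_le_mul_of_nonneg_left he0 (abs_nonneg _)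
      _ = 6 * Λ ^ 2 * (|t| * ‖e‖) := by ring
      _ ≤ _ := mul_le_mul_of_nonneg_left h2 (by positivity)
  have h4 : Λ ^ 2 ≤ Λ ^ 5 := pow_le_pow_right₀ hΛ (by norm_num)
  have h5 : Λ ^ 2 * ‖v‖ ≤ Λ ^ 5 * ‖v‖ := mul_le_mul_of_nonneg_right h4 (norm_nonneg _)
  calc |s| + |t| ≤ Λ ^ 2 * ‖v‖ + 6 * Λ ^ 2 * (‖v‖ + 6 * Λ ^ 3 * ‖v‖) := add_le_add h1 h3
    _ = 7 * (Λ ^ 2 * ‖v‖) + 36 * Λ ^ 5 * ‖v‖ := by ring
    _ ≤ 7 * (Λ ^ 5 * ‖v‖) + 36 * Λ ^ 5 * ‖v‖ := by linarith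
    _ = 43 * Λ ^ 5 * ‖v‖ := by ring

/-- two-sided estimate: small error -/
theorem sum_le (Λ c D ε : ℝ) (hΛ : 1 ≤ Λ) (hc : 1200 * Λ ^ 5 * c ≤ 1)
    (a e v : ℂ) (ha : ‖a‖ ≤ 6 * Λ) (he : ‖e‖ ≤ Λ)
    (h : 1 ≤ Λ * |(cj e * a).im|) (s t : ℝ)
    (hv : ‖v - ((s : ℂ) * a + (t : ℂ) * e)‖ ≤ 7 * c * (|s| + |t|) + 2 * ε * D) :
    |s| + |t| ≤ 86 * Λ ^ 5 * (‖v‖ + 2 * ε * D) := by
  have h1 := lin_low Λ hΛ a e ha he h s t
  have h2 : ‖(s : ℂ) * a + (t : ℂ) * e‖ ≤ ‖v‖ + (7 * c * (|s| + |t|) + 2 * ε * D) := by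
    have h3 : (s : ℂ) * a + (t : ℂ) * e = v - (v - ((s : ℂ) * a + (t : ℂ) * e)) := by ring
    rw [h3]
    refine (norm_sub_le _ _).trans ?_
    linarith
  have h5 : 0 ≤ |s| + |t| := add_nonneg (abs_nonneg _) (abs_nonneg _)
  have hΛ5 : 0 ≤ Λ ^ 5 := by positivity
  have h6 : 43 * Λ ^ 5 * (7 * c * (|s| + |t|)) ≤ 1 / 2 * (|s| + |t|) := by
    have h7 : 43 * Λ ^ 5 * (7 * c * (|s| + |t|)) = (301 * (Λ ^ 5 * c)) * (|s| + |t|) := by ring
    rw [h7]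
    apply mul_le_mul_of_nonneg_right _ h5
    nlinarith
  have h8 : 43 * Λ ^ 5 * ‖(s : ℂ) * a + (t : ℂ) * e‖ ≤
      43 * Λ ^ 5 * (‖v‖ + (7 * c * (|s| + |t|) + 2 * ε * D)) :=
    mul_le_mul_of_nonneg_left h2 (by positivity)
  nlinarith

/-- the sign of an affine function without zeros on an interval is constant -/
theorem sign_const (Λ m1 m2 : ℝ) (hΛ : 1 ≤ Λ) (hm : m1 ≤ m2) (α β : ℝ)
    (h : ∀ m ∈ Icc m1 m2, 1 ≤ Λ * |α + m * β|) :
    ∃ sg : ℝ, |sg| = 1 ∧ ∀ m ∈ Icc m1 m2, 1 ≤ Λ * (sg * (α + m * β)) := by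
  have hΛ0 : 0 < Λ := by linarith
  have hne : ∀ m ∈ Icc m1 m2, α + m * β ≠ 0 := by
    intro m hm h0
    have := h m hm
    rw [h0, abs_zero, mul_zero] at this
    linarith
  have hcont : ContinuousOn (fun m : ℝ => α + m * β) (Icc m1 m2) := by fun_prop
  have hconn : IsPreconnected (Icc m1 m2) := isPreconnected_Icc
  have h1 : m1 ∈ Icc m1 m2 := ⟨le_rfl, hm⟩
  rcases lt_or_gt_of_ne (hne m1 h1) with h2 | h2
  · refine ⟨-1, by simp, fun m hm' => ?_⟩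
    have h3 : α + m * β < 0 := by
      by_contra hcon
      push Not at hcon
      obtain ⟨x, hx, hx0⟩ := hconn.intermediate_value h1 hm' hcont
        (show (0 : ℝ) ∈ Icc (α + m1 * β) (α + m * β) from ⟨h2.le, hcon⟩)
      exact hne x hx hx0
    have h4 := h m hm'
    rw [abs_of_neg h3] at h4
    linarith
  · refine ⟨1, by simp, fun m hm' => ?_⟩
    have h3 : 0 < α + m * β := by
      by_contra hcon
      push Not at hcon
      obtain ⟨x, hx, hx0⟩ := hconn.intermediate_value hm' h1 hcont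
        (show (0 : ℝ) ∈ Icc (α + m * β) (α + m1 * β) from ⟨hcon, h2.le⟩)
      exact hne x hx hx0
    have h4 := h m hm'
    rw [abs_of_pos h3] at h4
    linarith

/-- **Zero of a function of two real variables.** -/
theorem zero_ex (Λ c h h2 ω τ : ℝ) (hΛ : 1 ≤ Λ) (hc0 : 0 ≤ c) (hc : 1200 * Λ ^ 5 * c ≤ 1)
    (sg : ℝ) (hsg : |sg| = 1) (e : ℂ) (he : ‖e‖ ≤ Λ) (hh2 : 0 < h2)
    (hh : 1000 * Λ ^ 3 * h2 ≤ h) (hω : 10 * Λ ^ 2 * ω ≤ h2) (G : ℝ → ℝ → ℂ)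
    (hD : ∀ s ∈ Icc (-h2) h2, ∀ s' ∈ Icc (-h2) h2, ∀ t ∈ Icc (τ - h) (τ + h),
      ∀ t' ∈ Icc (τ - h) (τ + h), ∃ a : ℂ, ‖a‖ ≤ 6 * Λ ∧ 1 ≤ Λ * (sg * (cj e * a).im) ∧
        ‖G s t - G s' t' - (((s - s' : ℝ) : ℂ) * a + ((t - t' : ℝ) : ℂ) * e)‖ ≤
          7 * c * (|s - s'| + |t - t'|))
    (h0 : ‖G 0 τ‖ ≤ ω) :
    ∃ s ∈ Icc (-h2) h2, ∃ t ∈ Icc (τ - h) (τ + h), G s t = 0 := by
  have hΛ0 : 0 < Λ := by linarith
  have hh0 : 0 < h := by
    have : 0 < 1000 * Λ ^ 3 * h2 := by positivity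
    linarith
  have hs0 : (0 : ℝ) ∈ Icc (-h2) h2 := ⟨by linarith, hh2.le⟩
  have hτ0 : τ ∈ Icc (τ - h) (τ + h) := ⟨by linarith, by linarith⟩
  have hω0 : 0 ≤ ω := (norm_nonneg _).trans h0
  -- bounds for `e` and `c`
  have he1 : 1 ≤ 6 * Λ ^ 2 * ‖e‖ := by
    obtain ⟨a, ha, ha2, -⟩ := hD 0 hs0 0 hs0 τ hτ0 τ hτ0
    apply e_low Λ hΛ a e ha
    refine ha2.trans (mul_le_mul_of_nonneg_left ?_ hΛ0.le)
    refine (le_abs_self _).trans ?_
    rw [abs_mul, hsg, one_mul]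
  have hen : 0 < ‖e‖ := by
    by_contra hcon
    push Not at hcon
    have : ‖e‖ = 0 := le_antisymm hcon (norm_nonneg _)
    rw [this, mul_zero] at he1
    linarith
  have he0 : e ≠ 0 := norm_pos_iff.mp hen
  have hΛ25 : Λ ^ 2 ≤ Λ ^ 5 := pow_le_pow_right₀ hΛ (by norm_num)
  have hce : 14 * c ≤ ‖e‖ := by
    -- `c ≤ 1 / (1200 Λ ^ 5)` and `‖e‖ ≥ 1 / (6 Λ ^ 2)`
    have h1 : 1200 * Λ ^ 2 * c ≤ 1 := by
      refine le_trans ?_ hc
      apply mul_le_mul_of_nonneg_right _ hc0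
      linarith
    have h2 : 1200 * Λ ^ 2 * c ≤ 6 * Λ ^ 2 * ‖e‖ := h1.trans he1
    have h3 : Λ ^ 2 * (200 * c) ≤ Λ ^ 2 * ‖e‖ := by linarith
    have h4 := le_of_mul_le_mul_left h3 (by positivity : 0 < Λ ^ 2)
    linarith
  have hc1 : 7 * c ≤ Λ := by
    linarith
  -- real parts
  have hre : ∀ s ∈ Icc (-h2) h2, ∀ s' ∈ Icc (-h2) h2, ∀ t ∈ Icc (τ - h) (τ + h),
      ∀ t' ∈ Icc (τ - h) (τ + h),
      |(cj e * G s t).re - (cj e * G s' t').re - (t - t') * ‖e‖ ^ 2| ≤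
        ‖e‖ * ((6 * Λ + 7 * c) * |s - s'| + 7 * c * |t - t'|) := by
    intro s hs s' hs' t ht t' ht'
    obtain ⟨a, ha, -, h3⟩ := hD s hs s' hs' t ht t' ht'
    have h4 := re_add_mul e a (s - s') (t - t')
    have h5 : (cj e * G s t).re - (cj e * G s' t').re - (t - t') * ‖e‖ ^ 2 =
        (cj e * (G s t - G s' t' - (((s - s' : ℝ) : ℂ) * a + ((t - t' : ℝ) : ℂ) * e))).re +
          (s - s') * (cj e * a).re := by
      rw [mul_sub, mul_sub, Complex.sub_re, Complex.sub_re, h4]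
      ring
    rw [h5]
    refine (abs_add_le _ _).trans ?_
    have h6 : |(cj e * (G s t - G s' t' - (((s - s' : ℝ) : ℂ) * a + ((t - t' : ℝ) : ℂ) * e))).re| ≤
        ‖e‖ * (7 * c * (|s - s'| + |t - t'|)) :=
      (abs_re_le _ _).trans (mul_le_mul_of_nonneg_left h3 (norm_nonneg _))
    have h7 : |(s - s') * (cj e * a).re| ≤ |s - s'| * (‖e‖ * (6 * Λ)) := by
      rw [abs_mul]
      exact mul_le_mul_of_nonneg_left
        ((abs_re_le _ _).trans (mul_le_mul_of_nonneg_left ha (norm_nonneg _))) (abs_nonneg _)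
    calc _ ≤ ‖e‖ * (7 * c * (|s - s'| + |t - t'|)) + |s - s'| * (‖e‖ * (6 * Λ)) := add_le_add h6 h7
      _ = _ := by ring
  -- imaginary parts
  have him : ∀ s ∈ Icc (-h2) h2, ∀ s' ∈ Icc (-h2) h2, ∀ t ∈ Icc (τ - h) (τ + h),
      ∀ t' ∈ Icc (τ - h) (τ + h), ∃ q : ℝ, 1 ≤ Λ * q ∧ q ≤ 6 * Λ ^ 2 ∧
      |sg * (cj e * G s t).im - sg * (cj e * G s' t').im - (s - s') * q| ≤
        ‖e‖ * (7 * c * (|s - s'| + |t - t'|)) := by
    intro s hs s' hs' t ht t' ht'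
    obtain ⟨a, ha, ha2, h3⟩ := hD s hs s' hs' t ht t' ht'
    have h4 := im_add_mul e a (s - s') (t - t')
    refine ⟨sg * (cj e * a).im, ha2, ?_, ?_⟩
    · refine (le_abs_self _).trans ?_
      rw [abs_mul, hsg, one_mul]
      refine (abs_im_le e a).trans ?_
      calc ‖e‖ * ‖a‖ ≤ Λ * (6 * Λ) := mul_le_mul he ha (norm_nonneg _) hΛ0.le
        _ = _ := by ring
    · have h5 : sg * (cj e * G s t).im - sg * (cj e * G s' t').im - (s - s') * (sg * (cj e * a).im) =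
          sg * (cj e * (G s t - G s' t' -
            (((s - s' : ℝ) : ℂ) * a + ((t - t' : ℝ) : ℂ) * e))).im := by
        rw [mul_sub (cj e), mul_sub (cj e), Complex.sub_im, Complex.sub_im, h4]
        ring
      rw [h5, abs_mul, hsg, one_mul]
      exact (abs_im_le _ _).trans (mul_le_mul_of_nonneg_left h3 (norm_nonneg _))
  -- the zero in `t`
  have htex : ∀ s ∈ Icc (-h2) h2, ∃ t ∈ Icc (τ - h) (τ + h), (cj e * G s t).re = 0 := by
    intro s hs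
    have hcont : ContinuousOn (fun t => (cj e * G s t).re) (Icc (τ - h) (τ + h)) := by
      have hl : LipschitzOnWith (Real.toNNReal (‖e‖ ^ 2 + ‖e‖ * (7 * c)))
          (fun t => (cj e * G s t).re) (Icc (τ - h) (τ + h)) := by
        apply LipschitzOnWith.of_dist_le_mul
        intro t ht t' ht'
        rw [Real.dist_eq, Real.dist_eq, Real.coe_toNNReal _ (by positivity)]
        have h3 := hre s hs s hs t ht t' ht'
        rw [sub_self, abs_zero, mul_zero, zero_add] at h3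
        have h4 : (cj e * G s t).re - (cj e * G s t').re =
            ((cj e * G s t).re - (cj e * G s t').re - (t - t') * ‖e‖ ^ 2) +
              (t - t') * ‖e‖ ^ 2 := by ring
        rw [h4]
        refine (abs_add_le _ _).trans ?_
        rw [abs_mul, abs_of_nonneg (by positivity : 0 ≤ ‖e‖ ^ 2)]
        linarith
      exact hl.continuousOn
    have h3 : |(cj e * G s τ).re| ≤ ‖e‖ * (ω + 7 * Λ * h2) := by
      have h4 := hre s hs 0 hs0 τ hτ0 τ hτ0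
      rw [sub_self, zero_mul, sub_zero, abs_zero, mul_zero, add_zero, sub_zero] at h4
      have h5 : |(cj e * G 0 τ).re| ≤ ‖e‖ * ω :=
        (abs_re_le _ _).trans (mul_le_mul_of_nonneg_left h0 (norm_nonneg _))
      have h6 : (cj e * G s τ).re = ((cj e * G s τ).re - (cj e * G 0 τ).re) +
          (cj e * G 0 τ).re := by ring
      rw [h6]
      refine (abs_add_le _ _).trans ?_
      have h7 : |s| ≤ h2 := abs_le.mpr hs
      have h8 : (6 * Λ + 7 * c) * |s| ≤ 7 * Λ * h2 :=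
        mul_le_mul (by linarith) h7 (abs_nonneg _) (by positivity)
      have h9 : ‖e‖ * ((6 * Λ + 7 * c) * |s|) ≤ ‖e‖ * (7 * Λ * h2) :=
        mul_le_mul_of_nonneg_left h8 (norm_nonneg _)
      linarith
    -- the change of the real part
    have h4 : ω + 7 * Λ * h2 ≤ ‖e‖ * h / 2 := by
      have h5 : h2 ≤ Λ * h2 := le_mul_of_one_le_left hh2.le hΛ
      have hΛ2 : 1 ≤ Λ ^ 2 := one_le_pow₀ hΛ
      have h6 : ω ≤ h2 / 10 := by
        have : 10 * ω ≤ 10 * Λ ^ 2 * ω := by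
          have := mul_le_mul_of_nonneg_right hΛ2 hω0
          linarith
        linarith
      have h7 : ω + 7 * Λ * h2 ≤ 8 * Λ * h2 := by linarith
      have h8 : 12 * Λ ^ 2 * (8 * Λ * h2) ≤ h := by
        have : 12 * Λ ^ 2 * (8 * Λ * h2) ≤ 1000 * Λ ^ 3 * h2 := by
          have h9 : 0 ≤ Λ ^ 3 * h2 := by positivity
          nlinarith
        linarith
      have h9 : 8 * Λ * h2 ≤ ‖e‖ * h / 2 := by
        have h10 : h ≤ 6 * Λ ^ 2 * ‖e‖ * h := le_mul_of_one_le_left hh0.le he1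
        have h11 : (12 * Λ ^ 2) * (8 * Λ * h2) ≤ (12 * Λ ^ 2) * (‖e‖ * h / 2) := by
          calc 12 * Λ ^ 2 * (8 * Λ * h2) ≤ h := h8
            _ ≤ 6 * Λ ^ 2 * ‖e‖ * h := h10
            _ = _ := by ring
        exact le_of_mul_le_mul_left h11 (by positivity)
      linarith
    have h5 : ‖e‖ * (ω + 7 * Λ * h2) ≤ ‖e‖ ^ 2 * h / 2 := by
      calc ‖e‖ * (ω + 7 * Λ * h2) ≤ ‖e‖ * (‖e‖ * h / 2) :=
            mul_le_mul_of_nonneg_left h4 (norm_nonneg _)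
        _ = _ := by ring
    have hup : (0 : ℝ) ≤ (cj e * G s (τ + h)).re := by
      have h6 := hre s hs s hs (τ + h) ⟨by linarith, le_rfl⟩ τ hτ0
      rw [sub_self, abs_zero, mul_zero, zero_add, add_sub_cancel_left, abs_of_pos hh0] at h6
      have h7 := (abs_le.mp h6).1
      have h8 := (abs_le.mp h3).1
      have h9 : ‖e‖ * (7 * c * h) ≤ ‖e‖ ^ 2 * h / 2 := by
        have : 7 * c * h ≤ ‖e‖ * h / 2 := by nlinarith
        calc ‖e‖ * (7 * c * h) ≤ ‖e‖ * (‖e‖ * h / 2) := mul_le_mul_of_nonneg_left this (norm_nonneg _)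
          _ = _ := by ring
      linarith
    have hlo : (cj e * G s (τ - h)).re ≤ 0 := by
      have h6 := hre s hs s hs (τ - h) ⟨le_rfl, by linarith⟩ τ hτ0
      have h6' : τ - h - τ = -h := by ring
      rw [sub_self, abs_zero, mul_zero, zero_add, h6', abs_neg, abs_of_pos hh0] at h6
      have h7 := (abs_le.mp h6).2
      have h8 := (abs_le.mp h3).2
      have h9 : ‖e‖ * (7 * c * h) ≤ ‖e‖ ^ 2 * h / 2 := by
        have : 7 * c * h ≤ ‖e‖ * h / 2 := by nlinarith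
        calc ‖e‖ * (7 * c * h) ≤ ‖e‖ * (‖e‖ * h / 2) := mul_le_mul_of_nonneg_left this (norm_nonneg _)
          _ = _ := by ring
      linarith
    exact intermediate_value_Icc (by linarith : τ - h ≤ τ + h) hcont ⟨hlo, hup⟩
  choose! T hT1 hT2 using htex
  -- the second coordinate
  have hTl : ∀ s ∈ Icc (-h2) h2, ∀ s' ∈ Icc (-h2) h2, |T s - T s'| * ‖e‖ ≤ 14 * Λ * |s - s'| := by
    intro s hs s' hs'
    have h3 := hre s hs s' hs' (T s) (hT1 s hs) (T s') (hT1 s' hs')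
    rw [hT2 s hs, hT2 s' hs', sub_self, zero_sub, abs_neg, abs_mul,
      abs_of_nonneg (by positivity : 0 ≤ ‖e‖ ^ 2)] at h3
    have h4 : |T s - T s'| * ‖e‖ ≤ (6 * Λ + 7 * c) * |s - s'| + 7 * c * |T s - T s'| := by
      have h5 : ‖e‖ * (|T s - T s'| * ‖e‖) ≤
          ‖e‖ * ((6 * Λ + 7 * c) * |s - s'| + 7 * c * |T s - T s'|) := by
        calc ‖e‖ * (|T s - T s'| * ‖e‖) = |T s - T s'| * ‖e‖ ^ 2 := by ring
          _ ≤ _ := h3
      exact le_of_mul_le_mul_left h5 hen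
    have h6 : 7 * c * |T s - T s'| ≤ |T s - T s'| * ‖e‖ / 2 := by
      have := mul_le_mul_of_nonneg_right hce (abs_nonneg (T s - T s'))
      linarith
    have h7 : (6 * Λ + 7 * c) * |s - s'| ≤ 7 * Λ * |s - s'| :=
      mul_le_mul_of_nonneg_right (by linarith) (abs_nonneg _)
    linarith
  have hkey : ∀ s ∈ Icc (-h2) h2, ∀ s' ∈ Icc (-h2) h2, ∃ q : ℝ, 1 ≤ Λ * q ∧ q ≤ 6 * Λ ^ 2 ∧
      |sg * (cj e * G s (T s)).im - sg * (cj e * G s' (T s')).im - (s - s') * q| ≤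
        |s - s'| / (2 * Λ) := by
    intro s hs s' hs'
    obtain ⟨q, hq1, hq2, hq3⟩ := him s hs s' hs' (T s) (hT1 s hs) (T s') (hT1 s' hs')
    refine ⟨q, hq1, hq2, hq3.trans ?_⟩
    have h3 := hTl s hs s' hs'
    have h4 : ‖e‖ * (7 * c * (|s - s'| + |T s - T s'|)) ≤ 7 * c * (15 * Λ * |s - s'|) := by
      have h5 : ‖e‖ * |s - s'| ≤ Λ * |s - s'| := mul_le_mul_of_nonneg_right he (abs_nonneg _)
      have h6 : ‖e‖ * (7 * c * (|s - s'| + |T s - T s'|)) =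
          7 * c * (‖e‖ * |s - s'| + |T s - T s'| * ‖e‖) := by ring
      rw [h6]
      apply mul_le_mul_of_nonneg_left _ (by positivity)
      linarith
    refine h4.trans ?_
    rw [le_div_iff₀ (by positivity)]
    have h7 : 7 * c * (15 * Λ * |s - s'|) * (2 * Λ) = (210 * (Λ ^ 2 * c)) * |s - s'| := by ring
    rw [h7]
    have h8 : Λ ^ 2 * c ≤ Λ ^ 5 * c := mul_le_mul_of_nonneg_right hΛ25 hc0
    have h9 : 210 * (Λ ^ 2 * c) ≤ 1 := by nlinarith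
    calc (210 * (Λ ^ 2 * c)) * |s - s'| ≤ 1 * |s - s'| :=
          mul_le_mul_of_nonneg_right h9 (abs_nonneg _)
      _ = _ := one_mul _
  -- continuity
  have hcont : ContinuousOn (fun s => sg * (cj e * G s (T s)).im) (Icc (-h2) h2) := by
    have hl : LipschitzOnWith (Real.toNNReal (6 * Λ ^ 2 + 1))
        (fun s => sg * (cj e * G s (T s)).im) (Icc (-h2) h2) := by
      apply LipschitzOnWith.of_dist_le_mul
      intro s hs s' hs'
      rw [Real.dist_eq, Real.dist_eq, Real.coe_toNNReal _ (by positivity)]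
      obtain ⟨q, hq1, hq2, hq3⟩ := hkey s hs s' hs'
      have hq0 : 0 ≤ q := by
        by_contra hcon
        push Not at hcon
        nlinarith
      have h4 : sg * (cj e * G s (T s)).im - sg * (cj e * G s' (T s')).im =
          (sg * (cj e * G s (T s)).im - sg * (cj e * G s' (T s')).im - (s - s') * q) +
            (s - s') * q := by ring
      rw [h4]
      refine (abs_add_le _ _).trans ?_
      rw [abs_mul (s - s') q, abs_of_nonneg hq0]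
      have h5 : |s - s'| / (2 * Λ) ≤ |s - s'| := div_le_self (abs_nonneg _) (by linarith)
      have h6 : |s - s'| * q ≤ |s - s'| * (6 * Λ ^ 2) :=
        mul_le_mul_of_nonneg_left hq2 (abs_nonneg _)
      linarith
    exact hl.continuousOn
  -- the value at `0`
  have hw0 : |sg * (cj e * G 0 (T 0)).im| ≤ h2 / (2 * Λ) := by
    have h3 := hre 0 hs0 0 hs0 (T 0) (hT1 0 hs0) τ hτ0
    rw [hT2 0 hs0, sub_self, abs_zero, mul_zero, zero_add] at h3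
    have h4 : |(cj e * G 0 τ).re| ≤ ‖e‖ * ω :=
      (abs_re_le _ _).trans (mul_le_mul_of_nonneg_left h0 (norm_nonneg _))
    have h5 : |T 0 - τ| * ‖e‖ ^ 2 ≤ ‖e‖ * (7 * c * |T 0 - τ|) + ‖e‖ * ω := by
      have h6 : |T 0 - τ| * ‖e‖ ^ 2 = |(T 0 - τ) * ‖e‖ ^ 2| := by
        rw [abs_mul, abs_of_nonneg (by positivity : 0 ≤ ‖e‖ ^ 2)]
      have h7 : (T 0 - τ) * ‖e‖ ^ 2 = -(0 - (cj e * G 0 τ).re - (T 0 - τ) * ‖e‖ ^ 2) -
          (cj e * G 0 τ).re := by ring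
      rw [h6, h7]
      refine (abs_sub _ _).trans ?_
      rw [abs_neg]
      exact add_le_add h3 h4
    have h6 : |T 0 - τ| * ‖e‖ ≤ 7 * c * |T 0 - τ| + ω := by
      have h7 : ‖e‖ * (|T 0 - τ| * ‖e‖) ≤ ‖e‖ * (7 * c * |T 0 - τ| + ω) := by
        calc ‖e‖ * (|T 0 - τ| * ‖e‖) = |T 0 - τ| * ‖e‖ ^ 2 := by ring
          _ ≤ _ := h5
          _ = _ := by ring
      exact le_of_mul_le_mul_left h7 hen
    have h7 : |T 0 - τ| * ‖e‖ ≤ 2 * ω := by
      have := mul_le_mul_of_nonneg_right hce (abs_nonneg (T 0 - τ))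
      linarith
    obtain ⟨q, -, -, hq3⟩ := him 0 hs0 0 hs0 (T 0) (hT1 0 hs0) τ hτ0
    rw [sub_self, zero_mul, sub_zero, abs_zero, zero_add] at hq3
    have h8 : |sg * (cj e * G 0 τ).im| ≤ ‖e‖ * ω := by
      rw [abs_mul, hsg, one_mul]
      exact (abs_im_le _ _).trans (mul_le_mul_of_nonneg_left h0 (norm_nonneg _))
    have h9 : sg * (cj e * G 0 (T 0)).im = (sg * (cj e * G 0 (T 0)).im -
        sg * (cj e * G 0 τ).im) + sg * (cj e * G 0 τ).im := by ring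
    rw [h9]
    refine (abs_add_le _ _).trans ?_
    have h10 : ‖e‖ * (7 * c * |T 0 - τ|) ≤ 7 * c * (2 * ω) := by
      calc ‖e‖ * (7 * c * |T 0 - τ|) = 7 * c * (|T 0 - τ| * ‖e‖) := by ring
        _ ≤ _ := mul_le_mul_of_nonneg_left h7 (by positivity)
    have h11 : 7 * c * (2 * ω) ≤ ‖e‖ * ω := by
      have := mul_le_mul_of_nonneg_right hce hω0
      linarith
    have h12 : ‖e‖ * ω ≤ Λ * ω := mul_le_mul_of_nonneg_right he hω0
    have h13 : 2 * (Λ * ω) ≤ h2 / (2 * Λ) := by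
      rw [le_div_iff₀ (by positivity)]
      nlinarith [mul_nonneg (sq_nonneg Λ) hω0]
    linarith
  -- the values at the end points
  have hend : ∀ s ∈ Icc (-h2) h2, 0 ≤ s → s / Λ - s / (2 * Λ) ≤
      sg * (cj e * G s (T s)).im - sg * (cj e * G 0 (T 0)).im := by
    intro s hs hs1
    obtain ⟨q, hq1, -, hq3⟩ := hkey s hs 0 hs0
    rw [sub_zero, abs_of_nonneg hs1] at hq3
    have h3 := (abs_le.mp hq3).1
    have h4 : s / Λ ≤ s * q := by
      rw [div_le_iff₀ hΛ0]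
      calc s = s * 1 := (mul_one _).symm
        _ ≤ s * (Λ * q) := mul_le_mul_of_nonneg_left hq1 hs1
        _ = _ := by ring
    linarith
  have hend' : ∀ s ∈ Icc (-h2) h2, s ≤ 0 → sg * (cj e * G s (T s)).im -
      sg * (cj e * G 0 (T 0)).im ≤ -((-s) / Λ - (-s) / (2 * Λ)) := by
    intro s hs hs1
    obtain ⟨q, hq1, -, hq3⟩ := hkey s hs 0 hs0
    rw [sub_zero, abs_of_nonpos hs1] at hq3
    have h3 := (abs_le.mp hq3).2
    have h4 : (-s) / Λ ≤ (-s) * q := by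
      rw [div_le_iff₀ hΛ0]
      calc (-s) = (-s) * 1 := (mul_one _).symm
        _ ≤ (-s) * (Λ * q) := mul_le_mul_of_nonneg_left hq1 (by linarith)
        _ = _ := by ring
    linarith
  have hhalf : ∀ x : ℝ, x / Λ - x / (2 * Λ) = x / (2 * Λ) := by
    intro x
    field_simp
    ring
  have h3 := hend h2 ⟨by linarith, le_rfl⟩ hh2.le
  have h4 := hend' (-h2) ⟨le_rfl, by linarith⟩ (by linarith)
  rw [hhalf] at h3
  rw [neg_neg, hhalf] at h4
  have h5 := abs_le.mp hw0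
  obtain ⟨s, hs, hs0'⟩ := intermediate_value_Icc (by linarith : -h2 ≤ h2) hcont
    (show (0 : ℝ) ∈ Icc (sg * (cj e * G (-h2) (T (-h2))).im) (sg * (cj e * G h2 (T h2)).im) from
      ⟨by linarith [h5.2], by linarith [h5.1]⟩)
  refine ⟨s, hs, T s, hT1 s hs, ?_⟩
  have h6 : (cj e * G s (T s)).im = 0 := by
    have h7 : sg * (cj e * G s (T s)).im = 0 := hs0'
    rcases mul_eq_zero.mp h7 with h8 | h8
    · rw [h8, abs_zero] at hsg
      exact absurd hsg zero_ne_one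
    · exact h8
  have h7 : cj e * G s (T s) = 0 := Complex.ext (hT2 s hs) h6
  rcases mul_eq_zero.mp h7 with h8 | h8
  · exact absurd ((map_eq_zero cj).mp h8) he0
  · exact h8

theorem arith (S T D W ρ c ε δ Λ L1 C1 : ℝ) (hS : 0 ≤ S) (hT : 0 ≤ T) (hD : 0 ≤ D)
    (hΛ : 1 ≤ Λ) (hc0 : 0 ≤ c) (hc1 : c ≤ 1) (hε : 0 ≤ ε)
    (hεδ : ε ≤ δ) (hδ1 : δ ≤ 1) (hL1 : 0 ≤ L1) (hC1 : 0 ≤ C1) (hk1 : L1 * δ ≤ 1)
    (hk2 : (2 * Λ * L1 + 6 + L1) * δ ≤ c) (hk3 : (2 * Λ + 3) * C1 * δ ≤ 1)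
    (hW : W ≤ L1 * S + C1 * ε * D) (hρ : ρ ≤ δ * W) :
    ε * (5 * S + ρ + W + D + T) + c * (5 * S + ρ + T) + 2 * Λ * ρ ≤
      7 * c * (S + T) + 2 * ε * D := by
  have hδ0 : 0 ≤ δ := hε.trans hεδ
  have hΛ0 : 0 ≤ Λ := by linarith
  have hεD : 0 ≤ ε * D := mul_nonneg hε hD
  have hx : 0 ≤ (C1 * δ) * (ε * D) := by positivity
  have hρ1 : ρ ≤ (L1 * δ) * S + (C1 * δ) * (ε * D) := by
    refine hρ.trans ((mul_le_mul_of_nonneg_left hW hδ0).trans (le_of_eq ?_))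
    ring
  have hρ2 : ρ ≤ S + (C1 * δ) * (ε * D) := by
    have := mul_le_mul_of_nonneg_right hk1 hS
    linarith
  have hε1 : ε ≤ 1 := hεδ.trans hδ1
  have a1 : ε * ρ ≤ δ * S + (C1 * δ) * (ε * D) := by
    have h1 := mul_le_mul_of_nonneg_left hρ2 hε
    have h2 := mul_le_mul_of_nonneg_right hεδ hS
    have h3 := mul_le_mul_of_nonneg_right hε1 hx
    linarith
  have a2 : ε * W ≤ (L1 * δ) * S + (C1 * δ) * (ε * D) := by
    have h1 := mul_le_mul_of_nonneg_left hW hε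
    have h2 := mul_le_mul_of_nonneg_right hεδ (mul_nonneg hL1 hS)
    have h3 := mul_le_mul_of_nonneg_right hεδ (mul_nonneg hC1 hεD)
    linarith
  have a3 : c * ρ ≤ c * S + (C1 * δ) * (ε * D) := by
    have h1 := mul_le_mul_of_nonneg_left hρ2 hc0
    have h3 := mul_le_mul_of_nonneg_right hc1 hx
    linarith
  have a4 : 2 * Λ * ρ ≤ (2 * Λ * L1 * δ) * S + 2 * Λ * ((C1 * δ) * (ε * D)) := by
    have h1 := mul_le_mul_of_nonneg_left hρ1 (by positivity : 0 ≤ 2 * Λ)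
    linarith
  have b1 := mul_le_mul_of_nonneg_right hk2 hS
  have b2 := mul_le_mul_of_nonneg_right hεδ hS
  have b3 := mul_le_mul_of_nonneg_right hεδ hT
  have b4 : δ * T ≤ c * T := by
    apply mul_le_mul_of_nonneg_right _ hT
    have : 0 ≤ (2 * Λ * L1 + 5 + L1) * δ := by positivity
    linarith
  have b5 := mul_le_mul_of_nonneg_right hk3 hεD
  have b6 : 0 ≤ c * T := mul_nonneg hc0 hT
  linarith

/-- **Differences along a family.** -/
theorem diff_est (Xe : Pl) (h h2 c Λ L1 C1 ε δ m1 m2 : ℝ) (z : ℝ → ℝ → Pl) (B : ℝ → ℝ → ℝ)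
    (hΛ : 1 ≤ Λ) (hc0 : 0 ≤ c) (hc1 : c ≤ 1) (hε : 0 ≤ ε)
    (hεδ : ε ≤ δ) (hδ1 : δ ≤ 1) (hL1 : 0 ≤ L1) (hC1 : 0 ≤ C1) (hk1 : L1 * δ ≤ 1)
    (hk2 : (2 * Λ * L1 + 6 + L1) * δ ≤ c) (hk3 : (2 * Λ + 3) * C1 * δ ≤ 1)
    (hm : m1 ≤ m2) (hm0 : 0 ≤ m1) (hm5 : m2 ≤ 5)
    (hgraph : ∀ b ∈ JJ, ∀ s ∈ Icc (-h2) h2, ∀ t ∈ Icc (-h2) h2, s ≤ t →
      (z t b).1 - (z s b).1 = t - s ∧ m1 * (t - s) ≤ (z t b).2 - (z s b).2 ∧
        (z t b).2 - (z s b).2 ≤ m2 * (t - s))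
    (hblip : ∀ s ∈ Icc (-h2) h2, ∀ b ∈ JJ, ∀ b' ∈ JJ, ‖z s b - z s b'‖ ≤ δ * |b - b'|)
    (hball : ∀ s ∈ Icc (-h2) h2, ∀ b ∈ JJ, z s b ∈ Metric.closedBall Xe h)
    (hBJ : ∀ s ∈ Icc (-h2) h2, ∀ b ∈ JJ, B s b ∈ JJ)
    (hB : ∀ s ∈ Icc (-h2) h2, ∀ t ∈ Icc (-h2) h2, ∀ b ∈ JJ, ∀ c ∈ JJ,
      |B s b - B t c| ≤ L1 * |s - t| + C1 * ε * |b - c|)
    (f : Pl × ℝ × ℝ × ℝ → ℂ) (f0 : Pl × ℝ → ℂ) (τ : ℝ) (fx fz ft : ℂ)
    (hnear : Near ε f (fun p => f0 (p.1, p.2.2.2))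
      (Metric.closedBall Xe h ×ˢ (JJ ×ˢ (JJ ×ˢ Icc (τ - h) (τ + h)))))
    (hlin : ∀ X ∈ Metric.closedBall Xe h, ∀ Y ∈ Metric.closedBall Xe h, ∀ t ∈ Icc (τ - h) (τ + h),
      ∀ t' ∈ Icc (τ - h) (τ + h),
      ‖f0 (X, t) - f0 (Y, t') - ((X.1 - Y.1 : ℝ) * fx + (X.2 - Y.2 : ℝ) * fz + (t - t' : ℝ) * ft)‖ ≤
        c * (‖X - Y‖ + |t - t'|))
    (hfx : ‖fx‖ ≤ Λ) (hfz : ‖fz‖ ≤ Λ) :
    ∀ s ∈ Icc (-h2) h2, ∀ s' ∈ Icc (-h2) h2, ∀ b ∈ JJ, ∀ b' ∈ JJ, ∀ t ∈ Icc (τ - h) (τ + h),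
      ∀ t' ∈ Icc (τ - h) (τ + h), ∃ m ∈ Icc m1 m2,
        ‖f (z s (B s b), B s b, b, t) - f (z s' (B s' b'), B s' b', b', t') -
          (((s - s' : ℝ) : ℂ) * (fx + m * fz) + ((t - t' : ℝ) : ℂ) * ft)‖ ≤
          7 * c * (|s - s'| + |t - t'|) + 2 * ε * |b - b'| := by
  intro s hs s' hs' b hb b' hb' t ht t' ht'
  set β := B s b with hβ
  set β' := B s' b' with hβ'
  have hβJ : β ∈ JJ := hBJ s hs b hb
  have hβJ' : β' ∈ JJ := hBJ s' hs' b' hb'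
  -- the slope
  obtain ⟨m, hmI, hm1, hm2⟩ : ∃ m ∈ Icc m1 m2, (z s β).1 - (z s' β).1 = s - s' ∧
      (z s β).2 - (z s' β).2 = m * (s - s') := by
    rcases lt_trichotomy s s' with hlt | heq | hgt
    · obtain ⟨h1, h2', h3⟩ := hgraph β hβJ s hs s' hs' hlt.le
      have hpos : 0 < s' - s := by linarith
      refine ⟨((z s' β).2 - (z s β).2) / (s' - s), ⟨?_, ?_⟩, by linarith, ?_⟩
      · rwa [le_div_iff₀ hpos]
      · rwa [div_le_iff₀ hpos]
      · have h4 : ((z s' β).2 - (z s β).2) / (s' - s) * (s - s') =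
            -(((z s' β).2 - (z s β).2) / (s' - s) * (s' - s)) := by ring
        rw [h4, div_mul_cancel₀ _ hpos.ne']
        ring
    · refine ⟨m1, ⟨le_rfl, hm⟩, ?_, ?_⟩
      · rw [heq, sub_self, sub_self]
      · rw [heq, sub_self, sub_self, mul_zero]
    · obtain ⟨h1, h2', h3⟩ := hgraph β hβJ s' hs' s hs hgt.le
      have hpos : 0 < s - s' := by linarith
      refine ⟨((z s β).2 - (z s' β).2) / (s - s'), ⟨?_, ?_⟩, h1, ?_⟩
      · rwa [le_div_iff₀ hpos]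
      · rwa [div_le_iff₀ hpos]
      · rw [div_mul_cancel₀ _ hpos.ne']
  refine ⟨m, hmI, ?_⟩
  set X := z s β with hX
  set Y := z s' β' with hY
  set r : Pl := z s' β - z s' β' with hr
  have hXB : X ∈ Metric.closedBall Xe h := hball s hs β hβJ
  have hYB : Y ∈ Metric.closedBall Xe h := hball s' hs' β' hβJ'
  have hr1 : ‖r‖ ≤ δ * |β - β'| := hblip s' hs' β hβJ β' hβJ'
  have hXY1 : X.1 - Y.1 = (s - s') + r.1 := by
    have : r.1 = (z s' β).1 - (z s' β').1 := rfl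
    rw [this]
    linarith
  have hXY2 : X.2 - Y.2 = m * (s - s') + r.2 := by
    have : r.2 = (z s' β).2 - (z s' β').2 := rfl
    rw [this]
    linarith
  have hr11 : |r.1| ≤ ‖r‖ := norm_fst_le r
  have hr12 : |r.2| ≤ ‖r‖ := norm_snd_le r
  have hm00 : 0 ≤ m := hm0.trans hmI.1
  have hm55 : m ≤ 5 := hmI.2.trans hm5
  have hXYn : ‖X - Y‖ ≤ 5 * |s - s'| + ‖r‖ := by
    rw [Prod.norm_def]
    apply max_le
    · rw [Real.norm_eq_abs, Prod.fst_sub, hXY1]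
      refine (abs_add_le _ _).trans ?_
      have := abs_nonneg (s - s')
      linarith
    · rw [Real.norm_eq_abs, Prod.snd_sub, hXY2]
      refine (abs_add_le _ _).trans ?_
      rw [abs_mul, abs_of_nonneg hm00]
      have := mul_le_mul_of_nonneg_right hm55 (abs_nonneg (s - s'))
      linarith
  have hW := hB s hs s' hs' b hb b' hb'
  have h1 := hnear.2 (X, β, b, t) ⟨hXB, hβJ, hb, ht⟩ (Y, β', b', t') ⟨hYB, hβJ', hb', ht'⟩
  have h2' := hlin X hXB Y hYB t ht t' ht'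
  have hdist : dist ((X, β, b, t) : Pl × ℝ × ℝ × ℝ) (Y, β', b', t') ≤
      ‖X - Y‖ + |β - β'| + |b - b'| + |t - t'| := by
    rw [Prod.dist_eq, Prod.dist_eq, Prod.dist_eq]
    have e1 : dist X Y = ‖X - Y‖ := dist_eq_norm _ _
    have e2 : dist β β' = |β - β'| := Real.dist_eq _ _
    have e3 : dist b b' = |b - b'| := Real.dist_eq _ _
    have e4 : dist t t' = |t - t'| := Real.dist_eq _ _
    have p1 := norm_nonneg (X - Y)
    have p2 := abs_nonneg (β - β')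
    have p3 := abs_nonneg (b - b')
    have p4 := abs_nonneg (t - t')
    change max (dist X Y) (max (dist β β') (max (dist b b') (dist t t'))) ≤ _
    rw [e1, e2, e3, e4]
    refine max_le (by linarith) (max_le (by linarith) (max_le (by linarith) (by linarith)))
  have h3 : ‖f (X, β, b, t) - f0 (X, t) - (f (Y, β', b', t') - f0 (Y, t'))‖ ≤
      ε * (5 * |s - s'| + ‖r‖ + |β - β'| + |b - b'| + |t - t'|) := by
    refine h1.trans (mul_le_mul_of_nonneg_left (hdist.trans ?_) hε)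
    linarith
  have h4 : ‖f0 (X, t) - f0 (Y, t') -
      ((X.1 - Y.1 : ℝ) * fx + (X.2 - Y.2 : ℝ) * fz + (t - t' : ℝ) * ft)‖ ≤
      c * (5 * |s - s'| + ‖r‖ + |t - t'|) := by
    refine h2'.trans (mul_le_mul_of_nonneg_left ?_ hc0)
    linarith
  have h5 : ‖(r.1 : ℂ) * fx + (r.2 : ℂ) * fz‖ ≤ 2 * Λ * ‖r‖ := by
    refine (norm_add_le _ _).trans ?_
    rw [norm_mul, norm_mul, Complex.norm_real, Complex.norm_real, Real.norm_eq_abs,
      Real.norm_eq_abs]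
    have h6 : |r.1| * ‖fx‖ ≤ ‖r‖ * Λ := mul_le_mul hr11 hfx (norm_nonneg _) (norm_nonneg _)
    have h7 : |r.2| * ‖fz‖ ≤ ‖r‖ * Λ := mul_le_mul hr12 hfz (norm_nonneg _) (norm_nonneg _)
    linarith
  have h6 : f (X, β, b, t) - f (Y, β', b', t') -
      (((s - s' : ℝ) : ℂ) * (fx + m * fz) + ((t - t' : ℝ) : ℂ) * ft) =
      (f (X, β, b, t) - f0 (X, t) - (f (Y, β', b', t') - f0 (Y, t'))) +
      (f0 (X, t) - f0 (Y, t') -
        ((X.1 - Y.1 : ℝ) * fx + (X.2 - Y.2 : ℝ) * fz + (t - t' : ℝ) * ft)) +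
      ((r.1 : ℂ) * fx + (r.2 : ℂ) * fz) := by
    rw [hXY1, hXY2]
    push_cast
    ring
  rw [h6]
  refine (norm_add_le _ _).trans ((add_le_add ((norm_add_le _ _).trans (add_le_add h3 h4))
    h5).trans ?_)
  exact arith |s - s'| |t - t'| |b - b'| |β - β'| ‖r‖ c ε δ Λ L1 C1 (abs_nonneg _) (abs_nonneg _)
    (abs_nonneg _) hΛ hc0 hc1 hε hεδ hδ1 hL1 hC1 hk1 hk2 hk3 hW hr1

theorem isFam_mono {sys : Sys} {R : sys.S → sys.S → Prop} {V V' : Set (ℝ × ℝ)}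
    {m1 m2 η LN ν0 m1' m2' η' : ℝ} {Φ : Fam sys.S} (h : IsFam sys R V m1 m2 η LN ν0 Φ)
    (hV : ∀ s ∈ Icc (-Φ.ℓ) Φ.ℓ, ∀ b ∈ JJ, (s, b) ∈ V → (s, b) ∈ V')
    (h1 : m1' ≤ m1) (h2 : m2 ≤ m2') (hη : η ≤ η') : IsFam sys R V' m1' m2' η' LN ν0 Φ where
  pos := h.pos
  graph := by
    intro b hb s hs t ht hst
    obtain ⟨a1, a2, a3⟩ := h.graph b hb s hs t ht hst
    have h3 : 0 ≤ t - s := by linarith
    exact ⟨a1, (mul_le_mul_of_nonneg_right h1 h3).trans a2,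
      a3.trans (mul_le_mul_of_nonneg_right h2 h3)⟩
  blip := by
    intro s hs b hb b' hb'
    obtain ⟨a1, a2⟩ := h.blip s hs b hb b' hb'
    have h3 := mul_le_mul_of_nonneg_right hη (abs_nonneg (b - b'))
    exact ⟨a1.trans h3, a2.trans h3⟩
  slip := h.slip
  dir := h.dir
  cont := h.cont
  rel := by
    intro b hb s hs hb0 hV'
    exact h.rel b hb s hs hb0 fun hmem => hV' (hV s hs b hb hmem)

theorem isFam_restrict {sys : Sys} {R : sys.S → sys.S → Prop} {V : Set (ℝ × ℝ)}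
    {m1 m2 η LN ν0 : ℝ} {Φ : Fam sys.S} (h : IsFam sys R V m1 m2 η LN ν0 Φ) {r : ℝ} (hr : 0 < r)
    (hr' : r ≤ Φ.ℓ) :
    IsFam sys R V m1 m2 η LN ν0 { ℓ := r, z := Φ.z, N := Φ.N, y := Φ.y } := by
  have hsub : ∀ s ∈ Icc (-r) r, s ∈ Icc (-Φ.ℓ) Φ.ℓ := fun s hs =>
    ⟨by linarith [hs.1], by linarith [hs.2]⟩
  exact
    { pos := hr
      graph := fun b hb s hs t ht hst => h.graph b hb s (hsub s hs) t (hsub t ht) hst
      blip := fun s hs b hb b' hb' => h.blip s (hsub s hs) b hb b' hb'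
      slip := fun b hb s hs t ht => h.slip b hb s (hsub s hs) t (hsub t ht)
      dir := fun b hb s hs => h.dir b hb s (hsub s hs)
      cont := h.cont.mono fun p hp => ⟨hsub p.1 hp.1, hp.2⟩
      rel := fun b hb s hs hb0 hV => h.rel b hb s (hsub s hs) hb0 hV }

theorem JJ_of_abs {b : ℝ} (h : |b| ≤ 9) : b ∈ JJ := by
  have := abs_le.mp h
  exact ⟨by linarith, by linarith⟩

theorem slopes (i : Fin 2) : 1 / 10 ≤ slo i ∧ slo i ≤ shi i ∧ shi i ≤ 5 := by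
  fin_cases i
  · simp only [slo, shi]
    norm_num
  · simp only [slo, shi]
    norm_num

theorem norm_comb {Λ : ℝ} {m : ℝ} (fx fz : ℂ) (hfx : ‖fx‖ ≤ Λ) (hfz : ‖fz‖ ≤ Λ) (hm0 : 0 ≤ m)
    (hm5 : m ≤ 5) : ‖fx + m * fz‖ ≤ 6 * Λ := by
  refine (norm_add_le _ _).trans ?_
  rw [norm_mul, Complex.norm_real, Real.norm_eq_abs, abs_of_nonneg hm0]
  have h1 : m * ‖fz‖ ≤ 5 * Λ := mul_le_mul hm5 hfz (norm_nonneg _) (by norm_num)
  linarith

theorem event_pr (g : GC) (Lχ Λe : ℝ) (hLχ : g.L ≤ Lχ) (hΛ : 1 ≤ Λe) : ∃ c : ℝ, 0 < c ∧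
    ∀ (η0 h : ℝ), 0 < η0 → 0 < h → ∃ δ : ℝ, 0 < δ ∧
    ∀ (ε : ℝ) (sys : Sys) (z : ℂ) (κ0 : Pl → ℝ) (i : Fin 2) (Xe : Pl), 0 ≤ ε → ε ≤ δ →
      EvData g sys z κ0 i h c Lχ Λe ε Xe → EvC g η0 sys z δ := by
  obtain ⟨L1, C1, ε0, hL1, hC1, hε0, hstep⟩ := step g.L Lχ g.ν0 g.hL hLχ g.hν
  have hΛ0 : 0 < Λe := by linarith
  have hL0 : 0 < g.L := by linarith [g.hL]
  have hLχ0 : 0 < Lχ := by linarith
  have hℓ0 : 0 < g.ℓ0 := by linarith [g.h0, g.h2]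
  have hρs : 0 < g.ρs := by linarith [g.hs]
  obtain ⟨c, hc⟩ : ∃ c : ℝ, c = 1 / (1200 * Λe ^ 5) := ⟨_, rfl⟩
  have hcpos : 0 < c := by rw [hc]; positivity
  have hΛ5 : 1 ≤ Λe ^ 5 := one_le_pow₀ hΛ
  have hΛ3 : 1 ≤ Λe ^ 3 := one_le_pow₀ hΛ
  have hc12 : 1200 * Λe ^ 5 * c ≤ 1 := by
    rw [hc, mul_one_div_cancel (by positivity)]
  have hc1 : c ≤ 1 := by nlinarith
  refine ⟨c, hcpos, ?_⟩
  intro η0 h hη0 hh
  -- constants
  obtain ⟨h2, hh2⟩ : ∃ h2 : ℝ, h2 = min g.ℓ0 (h / (1000 * Λe ^ 3)) := ⟨_, rfl⟩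
  have hh2pos : 0 < h2 := by rw [hh2]; exact lt_min hℓ0 (by positivity)
  have hh2ℓ : h2 ≤ g.ℓ0 := by rw [hh2]; exact min_le_left _ _
  have hh2h : 1000 * Λe ^ 3 * h2 ≤ h := by
    have h3 : h2 ≤ h / (1000 * Λe ^ 3) := by rw [hh2]; exact min_le_right _ _
    rw [le_div_iff₀ (by positivity)] at h3
    linarith
  have hh2h' : 1000 * h2 ≤ h := by
    have := mul_le_mul_of_nonneg_right hΛ3 hh2pos.le
    linarith
  obtain ⟨Kc, hKc⟩ : ∃ Kc : ℝ, Kc = 900 * (172 * Λe ^ 5 + C1) := ⟨_, rfl⟩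
  have hKc0 : 0 < Kc := by rw [hKc]; positivity
  obtain ⟨K, hK⟩ : ∃ K : ℝ, K = 1 + L1 + (2 * Λe * L1 + 6 + L1) + (2 * Λe + 3) * C1 +
      40 * Λe ^ 3 + 900 * (344 * Λe ^ 6) + (C1 + (5 + g.L) * Kc) + 2 * Kc +
      (1 + Lχ * (5 * (344 * Λe ^ 6) + 1)) := ⟨_, rfl⟩
  have hL10 : 0 < L1 := by linarith
  have hC10 : 0 < C1 := by linarith
  have t1 : 0 < 2 * Λe * L1 + 6 + L1 := by positivity
  have t2 : 0 < (2 * Λe + 3) * C1 := by positivity
  have t3 : 0 < 40 * Λe ^ 3 := by positivity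
  have t4 : 0 < 900 * (344 * Λe ^ 6) := by positivity
  have t5 : 0 < C1 + (5 + g.L) * Kc := by positivity
  have t6 : 0 < 2 * Kc := by positivity
  have t7 : 0 < 1 + Lχ * (5 * (344 * Λe ^ 6) + 1) := by positivity
  have hKpos : 0 < K := by rw [hK]; linarith
  obtain ⟨m0, hm0⟩ : ∃ m0 : ℝ, m0 = min 1 (min ε0 (min c (min h2 (min η0 (min (g.ρs / 2)
      (h / 2)))))) := ⟨_, rfl⟩
  have hm0pos : 0 < m0 := by
    rw [hm0]
    refine lt_min one_pos (lt_min hε0 (lt_min hcpos (lt_min hh2pos (lt_min hη0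
      (lt_min (by linarith) (by linarith))))))
  have u1 : m0 ≤ 1 := by rw [hm0]; exact min_le_left _ _
  have u2 : m0 ≤ ε0 := by
    rw [hm0]; exact (min_le_right _ _).trans (min_le_left _ _)
  have u3 : m0 ≤ c := by
    rw [hm0]; exact (min_le_right _ _).trans ((min_le_right _ _).trans (min_le_left _ _))
  have u4 : m0 ≤ h2 := by
    rw [hm0]
    exact (min_le_right _ _).trans ((min_le_right _ _).trans ((min_le_right _ _).trans
      (min_le_left _ _)))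
  have u5 : m0 ≤ η0 := by
    rw [hm0]
    exact (min_le_right _ _).trans ((min_le_right _ _).trans ((min_le_right _ _).trans
      ((min_le_right _ _).trans (min_le_left _ _))))
  have u6 : m0 ≤ g.ρs / 2 := by
    rw [hm0]
    exact (min_le_right _ _).trans ((min_le_right _ _).trans ((min_le_right _ _).trans
      ((min_le_right _ _).trans ((min_le_right _ _).trans (min_le_left _ _)))))
  have u7 : m0 ≤ h / 2 := by
    rw [hm0]
    exact (min_le_right _ _).trans ((min_le_right _ _).trans ((min_le_right _ _).trans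
      ((min_le_right _ _).trans ((min_le_right _ _).trans (min_le_right _ _)))))
  obtain ⟨δ, hδ⟩ : ∃ δ : ℝ, δ = m0 / K := ⟨_, rfl⟩
  have hδpos : 0 < δ := by rw [hδ]; positivity
  have hKδ : ∀ A : ℝ, A ≤ K → A * δ ≤ m0 := by
    intro A hA
    calc A * δ ≤ K * δ := mul_le_mul_of_nonneg_right hA hδpos.le
      _ = m0 := by rw [hδ, mul_div_cancel₀ _ hKpos.ne']
  have v0 : δ ≤ m0 := by
    have := hKδ 1 (by rw [hK]; linarith)
    linarith
  have v1 : L1 * δ ≤ 1 := (hKδ L1 (by rw [hK]; linarith)).trans u1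
  have v2 : (2 * Λe * L1 + 6 + L1) * δ ≤ c := (hKδ _ (by rw [hK]; linarith)).trans u3
  have v3 : (2 * Λe + 3) * C1 * δ ≤ 1 := (hKδ _ (by rw [hK]; linarith)).trans u1
  have v4 : 40 * Λe ^ 3 * δ ≤ h2 := (hKδ _ (by rw [hK]; linarith)).trans u4
  have v5 : 900 * (344 * Λe ^ 6) * δ ≤ h2 := (hKδ _ (by rw [hK]; linarith)).trans u4
  have v6 : (C1 + (5 + g.L) * Kc) * δ ≤ η0 := (hKδ _ (by rw [hK]; linarith)).trans u5
  have v7 : 2 * Kc * δ ≤ η0 := (hKδ _ (by rw [hK]; linarith)).trans u5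
  have v8 : (1 + Lχ * (5 * (344 * Λe ^ 6) + 1)) * δ ≤ g.ρs / 2 :=
    (hKδ _ (by rw [hK]; linarith)).trans u6
  refine ⟨δ, hδpos, ?_⟩
  intro ε sys z κ0 i Xe hε hεδ hdata
  obtain ⟨l, w, Ri, gf, g0, τe, ex, ez, eτ, n, ζ, ζ0, τm, fx, fz, fτ, hn4, hXe, hKN, hLL, hLθ, hWN,
    hReal, hFXe, hgn, hg0, hglin, hex, hez, heτ, hsl, hζn, hζlin, hζs, Λh, hΛh, hrel⟩ := hdata.ex
  refine ⟨Xe, ?_, i, ?_⟩
  · exact Metric.closedBall_subset_closedBall (by linarith) hXe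
  intro Φ hΦ hOver h' hh'
  obtain ⟨hOℓ, hO⟩ := hOver
  obtain ⟨hsl1, hsl2, hsl3⟩ := slopes i
  have hδ1 : δ ≤ 1 := v0.trans u1
  have hεε0 : ε ≤ ε0 := hεδ.trans (v0.trans u2)
  -- the restricted family
  have hh2Φ : h2 ≤ Φ.ℓ := by rw [hOℓ]; exact hh2ℓ
  have hΦ1 : IsFam sys sys.reach ∅ (1 / 10) 5 δ g.L g.ν0
      { ℓ := h2, z := Φ.z, N := Φ.N, y := Φ.y } :=
    isFam_restrict (isFam_mono hΦ (fun s _ b _ hm => hm) hsl1 hsl3 le_rfl) hh2pos hh2Φ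
  have hsub : ∀ s ∈ Icc (-h2) h2, s ∈ Icc (-Φ.ℓ) Φ.ℓ := fun s hs =>
    ⟨by linarith [hs.1], by linarith [hs.2]⟩
  have hs0 : (0 : ℝ) ∈ Icc (-h2) h2 := ⟨by linarith, hh2pos.le⟩
  have hclose : ∀ s ∈ Icc (-h2) h2, ∀ b ∈ JJ, ‖Φ.z s b - Xe‖ ≤ 5 * |s| + δ := by
    intro s hs b hb
    obtain ⟨hO1, hO2⟩ := hO b hb
    have hgr : (Φ.z s b).1 - (Φ.z 0 b).1 = s ∧ |(Φ.z s b).2 - (Φ.z 0 b).2| ≤ 5 * |s| := by
      rcases le_total 0 s with h0 | h0
      · obtain ⟨a1, a2, a3⟩ := hΦ.graph b hb 0 (hsub 0 hs0) s (hsub s hs) h0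
        rw [sub_zero] at a1 a2 a3
        refine ⟨a1, ?_⟩
        rw [abs_of_nonneg h0, abs_le]
        have := mul_le_mul_of_nonneg_right hsl3 h0
        have := mul_le_mul_of_nonneg_right hsl1 h0
        constructor <;> linarith
      · obtain ⟨a1, a2, a3⟩ := hΦ.graph b hb s (hsub s hs) 0 (hsub 0 hs0) h0
        rw [zero_sub] at a1 a2 a3
        refine ⟨by linarith, ?_⟩
        rw [abs_of_nonpos h0, abs_le]
        have := mul_le_mul_of_nonneg_right hsl3 (by linarith : 0 ≤ -s)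
        have := mul_le_mul_of_nonneg_right hsl1 (by linarith : 0 ≤ -s)
        constructor <;> linarith
    rw [Prod.norm_def]
    apply max_le
    · rw [Real.norm_eq_abs, Prod.fst_sub]
      have : (Φ.z s b).1 - Xe.1 = s := by linarith [hgr.1]
      rw [this]
      have := abs_nonneg s
      linarith
    · rw [Real.norm_eq_abs, Prod.snd_sub]
      have : (Φ.z s b).2 - Xe.2 = ((Φ.z s b).2 - (Φ.z 0 b).2) + ((Φ.z 0 b).2 - Xe.2) := by ring
      rw [this]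
      exact (abs_add_le _ _).trans (add_le_add hgr.2 hO2)
  have hball : ∀ s ∈ Icc (-h2) h2, ∀ b ∈ JJ, Φ.z s b ∈ Metric.closedBall Xe h := by
    intro s hs b hb
    rw [Metric.mem_closedBall, dist_eq_norm]
    refine (hclose s hs b hb).trans ?_
    have h3 : |s| ≤ h2 := abs_le.mpr hs
    have h4 : δ ≤ h / 2 := v0.trans u7
    linarith
  -- the step
  obtain ⟨B, σ, hB1, hB2, hσ0, hσ00, hσ1, hσ2, hσ3, hnew⟩ := hstep sys κ0 0 (Metric.closedBall Xe h)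
    l w ε δ sys.reach ∅ { ℓ := h2, z := Φ.z, N := Φ.N, y := Φ.y } hε hεε0 hδpos.le
    (v0.trans u2) hKN hLL hLθ hWN hΦ1 hball
  simp only at hB1 hB2 hσ0 hσ1 hσ2 hσ3
  have hBJ : ∀ s ∈ Icc (-h2) h2, ∀ b ∈ JJ, B s b ∈ JJ := fun s hs b hb =>
    JJ_of_abs (hB1 s hs b hb).2.1
  have hBne : ∀ s ∈ Icc (-h2) h2, ∀ b ∈ JJ, B s b ≠ 0 := by
    intro s hs b hb h0
    have := (hB1 s hs b hb).1
    rw [h0, abs_zero] at this
    norm_num at this
  have hblip : ∀ s ∈ Icc (-h2) h2, ∀ b ∈ JJ, ∀ b' ∈ JJ, ‖Φ.z s b - Φ.z s b'‖ ≤ δ * |b - b'| :=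
    fun s hs b hb b' hb' => (hΦ.blip s (hsub s hs) b hb b' hb').1
  have hgraph : ∀ b ∈ JJ, ∀ s ∈ Icc (-h2) h2, ∀ t ∈ Icc (-h2) h2, s ≤ t →
      (Φ.z t b).1 - (Φ.z s b).1 = t - s ∧ slo i * (t - s) ≤ (Φ.z t b).2 - (Φ.z s b).2 ∧
        (Φ.z t b).2 - (Φ.z s b).2 ≤ shi i * (t - s) := fun b hb s hs t ht hst =>
    hΦ.graph b hb s (hsub s hs) t (hsub t ht) hst
  have hslo0 : 0 ≤ slo i := by linarith
  have hdiff := fun (f : Pl × ℝ × ℝ × ℝ → ℂ) (f0 : Pl × ℝ → ℂ) (τ : ℝ) (fx fz ft : ℂ) =>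
    diff_est Xe h h2 c Λe L1 C1 ε δ (slo i) (shi i) Φ.z B hΛ hcpos.le hc1 hε hεδ hδ1 hL10.le
      hC10.le v1 v2 v3 hsl2 hslo0 hsl3 hgraph hblip hball hBJ hB2 f f0 τ fx fz ft
  have hdg := hdiff gf g0 τe ex ez eτ hgn hglin hex hez
  -- uniqueness of zeros, general form
  have huniq : ∀ (f : Pl × ℝ × ℝ × ℝ → ℂ) (τ : ℝ) (fx fz ft : ℂ), ‖fx‖ ≤ Λe → ‖fz‖ ≤ Λe →
      ‖ft‖ ≤ Λe → (∀ m ∈ Icc (slo i) (shi i), 1 ≤ Λe * |((starRingEnd ℂ) ft * (fx + m * fz)).im|) →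
      (∀ s ∈ Icc (-h2) h2, ∀ s' ∈ Icc (-h2) h2, ∀ b ∈ JJ, ∀ b' ∈ JJ,
        ∀ t ∈ Icc (τ - h) (τ + h), ∀ t' ∈ Icc (τ - h) (τ + h), ∃ m ∈ Icc (slo i) (shi i),
        ‖f (Φ.z s (B s b), B s b, b, t) - f (Φ.z s' (B s' b'), B s' b', b', t') -
          (((s - s' : ℝ) : ℂ) * (fx + m * fz) + ((t - t' : ℝ) : ℂ) * ft)‖ ≤
          7 * c * (|s - s'| + |t - t'|) + 2 * ε * |b - b'|) →
      ∀ s ∈ Icc (-h2) h2, ∀ s' ∈ Icc (-h2) h2, ∀ b ∈ JJ, ∀ b' ∈ JJ,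
        ∀ t ∈ Icc (τ - h) (τ + h), ∀ t' ∈ Icc (τ - h) (τ + h),
        |s - s'| ≤ 86 * Λe ^ 5 * (‖f (Φ.z s (B s b), B s b, b, t) -
          f (Φ.z s' (B s' b'), B s' b', b', t')‖ + 2 * ε * |b - b'|) := by
    intro f τ fx fz ft hfx hfz hft hs1 hd s hs s' hs' b hb b' hb' t ht t' ht'
    obtain ⟨m, hm, hm'⟩ := hd s hs s' hs' b hb b' hb' t ht t' ht'
    have h3 := sum_le Λe c |b - b'| ε hΛ hc12 (fx + m * fz) ft _
      (norm_comb fx fz hfx hfz (hslo0.trans hm.1) (hm.2.trans hsl3)) hft (hs1 m hm) (s - s')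
      (t - t') hm'
    have h4 := abs_nonneg (t - t')
    linarith
  -- the value at the centre
  have hτ0 : τe ∈ Icc (τe - h) (τe + h) := ⟨by linarith, by linarith⟩
  have hval : ∀ b ∈ JJ, ‖gf (Φ.z 0 (B 0 b), B 0 b, b, τe)‖ ≤ 4 * Λe * δ := by
    intro b hb
    have hβ := hBJ 0 hs0 b hb
    have hX := hball 0 hs0 (B 0 b) hβ
    have hXe' : Xe ∈ Metric.closedBall Xe h := Metric.mem_closedBall_self hh.le
    obtain ⟨hO1, hO2⟩ := hO (B 0 b) hβ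
    have h3 := hgn.1 (Φ.z 0 (B 0 b), B 0 b, b, τe) ⟨hX, hβ, hb, hτ0⟩
    have h4 := hglin (Φ.z 0 (B 0 b)) hX Xe hXe' τe hτ0 τe hτ0
    have h5 := hclose 0 hs0 (B 0 b) hβ
    rw [abs_zero, mul_zero, zero_add] at h5
    rw [hO1, sub_self, sub_self, abs_zero, add_zero, Complex.ofReal_zero, zero_mul, zero_add,
      zero_mul, add_zero] at h4
    have h6 : ‖(((Φ.z 0 (B 0 b)).2 - Xe.2 : ℝ) : ℂ) * ez‖ ≤ δ * Λe := by
      rw [norm_mul, Complex.norm_real, Real.norm_eq_abs]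
      exact mul_le_mul hO2 hez (norm_nonneg _) hδpos.le
    have h7 : gf (Φ.z 0 (B 0 b), B 0 b, b, τe) =
        (gf (Φ.z 0 (B 0 b), B 0 b, b, τe) - g0 (Φ.z 0 (B 0 b), τe)) +
        (g0 (Φ.z 0 (B 0 b), τe) - g0 (Xe, τe) - (((Φ.z 0 (B 0 b)).2 - Xe.2 : ℝ) : ℂ) * ez) +
        (((Φ.z 0 (B 0 b)).2 - Xe.2 : ℝ) : ℂ) * ez + g0 (Xe, τe) := by ring
    rw [h7]
    refine (norm_add_le _ _).trans ?_
    refine (add_le_add ((norm_add_le _ _).trans (add_le_add ((norm_add_le _ _).trans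
      (add_le_add h3 h4)) h6)) hg0).trans ?_
    have h8 : c * ‖Φ.z 0 (B 0 b) - Xe‖ ≤ 1 * δ :=
      mul_le_mul hc1 h5 (norm_nonneg _) zero_le_one
    have h9 : δ ≤ Λe * δ := le_mul_of_one_le_left hδpos.le hΛ
    linarith
  -- the zeros
  obtain ⟨sg, hsg, hsg2⟩ := sign_const Λe (slo i) (shi i) hΛ hsl2 (cj eτ * ex).im (cj eτ * ez).im
    (by
      intro m hm
      have h3 := hsl m hm
      have h4 : ((starRingEnd ℂ) eτ * (ex + m * ez)).im =
          (cj eτ * ex).im + m * (cj eτ * ez).im := by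
        simp only [Complex.mul_im, Complex.add_im, Complex.add_re, Complex.conj_re,
          Complex.conj_im, Complex.mul_re, Complex.ofReal_re, Complex.ofReal_im]
        ring
      rw [h4] at h3
      exact h3)
  have hzero : ∀ b ∈ JJ, ∃ s ∈ Icc (-h2) h2, ∃ t ∈ Icc (τe - h) (τe + h),
      gf (Φ.z s (B s b), B s b, b, t) = 0 := by
    intro b hb
    refine zero_ex Λe c h h2 (4 * Λe * δ) τe hΛ hcpos.le hc12 sg hsg eτ heτ hh2pos hh2h ?_
      (fun s t => gf (Φ.z s (B s b), B s b, b, t)) ?_ (hval b hb)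
    · calc 10 * Λe ^ 2 * (4 * Λe * δ) = 40 * Λe ^ 3 * δ := by ring
        _ ≤ h2 := v4
    · intro s hs s' hs' t ht t' ht'
      obtain ⟨m, hm, hm'⟩ := hdg s hs s' hs' b hb b hb t ht t' ht'
      refine ⟨ex + m * ez, norm_comb ex ez hex hez (hslo0.trans hm.1) (hm.2.trans hsl3), ?_, ?_⟩
      · have h4 : (cj eτ * (ex + m * ez)).im =
            (cj eτ * ex).im + m * (cj eτ * ez).im := by
          simp only [Complex.mul_im, Complex.add_im, Complex.add_re, Complex.conj_re,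
            Complex.conj_im, Complex.mul_re, Complex.ofReal_re, Complex.ofReal_im]
          ring
        rw [h4]
        exact hsg2 m hm
      · rw [sub_self, abs_zero, mul_zero, add_zero] at hm'
        exact hm'
  choose! se hse te hte hgz using hzero
  have hse1 : ∀ b ∈ JJ, |se b| ≤ 344 * Λe ^ 6 * δ := by
    intro b hb
    have h3 := huniq gf τe ex ez eτ hex hez heτ hsl hdg (se b) (hse b hb) 0 hs0 b hb b hb (te b)
      (hte b hb) τe hτ0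
    rw [hgz b hb, zero_sub, norm_neg, sub_zero, sub_self, abs_zero, mul_zero, add_zero] at h3
    have h4 := mul_le_mul_of_nonneg_left (hval b hb) (by positivity : 0 ≤ 86 * Λe ^ 5)
    calc |se b| ≤ _ := h3.trans h4
      _ = _ := by ring
  have hse2 : ∀ b ∈ JJ, ∀ b' ∈ JJ, |se b - se b'| ≤ 172 * Λe ^ 5 * ε * |b - b'| := by
    intro b hb b' hb'
    have h3 := huniq gf τe ex ez eτ hex hez heτ hsl hdg (se b) (hse b hb) (se b') (hse b' hb') b hb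
      b' hb' (te b) (hte b hb) (te b') (hte b' hb')
    rw [hgz b hb, hgz b' hb', sub_self, norm_zero, zero_add] at h3
    calc |se b - se b'| ≤ _ := h3
      _ = _ := by ring
  have hse3 : ∀ b ∈ JJ, |se b| ≤ h2 / 40 := by
    intro b hb
    have h3 := hse1 b hb
    linarith
  -- the new parameters of the zeros
  have hscex : ∀ b ∈ JJ, ∃ s' ∈ Icc (-(30 * h2)) (30 * h2), σ s' b = se b := fun b hb =>
    hσ3 (se b) (hse3 b hb) b hb
  choose! sc hsc hscσ using hscex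
  have hexp : ∀ s ∈ Icc (-(30 * h2)) (30 * h2), ∀ t ∈ Icc (-(30 * h2)) (30 * h2), ∀ b ∈ JJ,
      |s - t| ≤ 900 * |σ s b - σ t b| := by
    intro s hs t ht b hb
    rcases le_total s t with hst | hst
    · have h3 := hσ2 s hs t ht b hb hst
      rw [abs_sub_comm s t, abs_sub_comm (σ s b), abs_of_nonneg (by linarith : 0 ≤ t - s)]
      have h4 := le_abs_self (σ t b - σ s b)
      linarith
    · have h3 := hσ2 t ht s hs b hb hst
      rw [abs_of_nonneg (by linarith : 0 ≤ s - t)]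
      have h4 := le_abs_self (σ s b - σ t b)
      linarith
  have h00 : (0 : ℝ) ∈ Icc (-(30 * h2)) (30 * h2) := ⟨by linarith, by linarith⟩
  have hsc1 : ∀ b ∈ JJ, |sc b| ≤ h2 := by
    intro b hb
    have h3 := hexp (sc b) (hsc b hb) 0 h00 b hb
    rw [hscσ b hb, hσ00 b hb, sub_zero, sub_zero] at h3
    have h4 := hse1 b hb
    linarith
  -- Lipschitz estimate for points with close old parameters
  have hback : ∀ s ∈ Icc (-(30 * h2)) (30 * h2), ∀ t ∈ Icc (-(30 * h2)) (30 * h2), ∀ b ∈ JJ,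
      ∀ b' ∈ JJ, |σ s b - σ t b'| ≤ 172 * Λe ^ 5 * ε * |b - b'| →
      |s - t| ≤ Kc * ε * |b - b'| := by
    intro s hs t ht b hb b' hb' h3
    have h4 := hexp s hs t ht b hb
    have h5 := hσ1 t ht t ht b hb b' hb'
    rw [sub_self, abs_zero, mul_zero, zero_add] at h5
    have h6 : |σ s b - σ t b| ≤ 172 * Λe ^ 5 * ε * |b - b'| + C1 * ε * |b - b'| := by
      have h7 : σ s b - σ t b = (σ s b - σ t b') - (σ t b - σ t b') := by ring
      rw [h7]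
      exact (abs_sub _ _).trans (add_le_add h3 h5)
    calc |s - t| ≤ 900 * |σ s b - σ t b| := h4
      _ ≤ 900 * (172 * Λe ^ 5 * ε * |b - b'| + C1 * ε * |b - b'|) := by linarith
      _ = Kc * ε * |b - b'| := by rw [hKc]; ring
  have hsc2 : ∀ b ∈ JJ, ∀ b' ∈ JJ, |sc b - sc b'| ≤ Kc * ε * |b - b'| := by
    intro b hb b' hb'
    apply hback (sc b) (hsc b hb) (sc b') (hsc b' hb') b hb b' hb'
    rw [hscσ b hb, hscσ b' hb']
    exact hse2 b hb b' hb'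
  -- the size of the final family
  obtain ⟨h1, hh1⟩ : ∃ h1 : ℝ, h1 = min h' 1 := ⟨_, rfl⟩
  have hh1pos : 0 < h1 := by rw [hh1]; exact lt_min hh' one_pos
  have hh11 : h1 ≤ 1 := by rw [hh1]; exact min_le_right _ _
  have hh1h' : h1 ≤ h' := by rw [hh1]; exact min_le_left _ _
  obtain ⟨r, hr⟩ : ∃ r : ℝ, r = min h2 (h1 / (2 * (Λh * Λe))) := ⟨_, rfl⟩
  have hrpos : 0 < r := by rw [hr]; exact lt_min hh2pos (by positivity)
  have hrh2 : r ≤ h2 := by rw [hr]; exact min_le_left _ _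
  have hrh' : Λh * Λe * r < h1 := by
    have h3 : r ≤ h1 / (2 * (Λh * Λe)) := by rw [hr]; exact min_le_right _ _
    rw [le_div_iff₀ (by positivity)] at h3
    linarith
  have hrs : ∀ s ∈ Icc (-r) r, ∀ b ∈ JJ, s + sc b ∈ Icc (-(30 * h2)) (30 * h2) := by
    intro s hs b hb
    have h3 := abs_le.mp (hsc1 b hb)
    exact ⟨by linarith [hs.1], by linarith [hs.2]⟩
  obtain ⟨V1, hV1⟩ : ∃ V1 : Set (ℝ × ℝ), V1 = {p : ℝ × ℝ | ∃ j, ∃ t ∈ Icc (τm j - h) (τm j + h),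
      ζ j (Φ.z (σ p.1 p.2) (B (σ p.1 p.2) p.2), B (σ p.1 p.2) p.2, p.2, t) = 0} := ⟨_, rfl⟩
  obtain ⟨hfam, hcontall⟩ := hnew Ri (sys.hit z h') ({p : ℝ × ℝ | r < |p.1 - sc p.2|} ∪ V1) hReal
    (by
      intro s' hs' b' hb' hV'
      rw [Set.mem_union, not_or] at hV'
      obtain ⟨hV'1, hV'2⟩ := hV'
      rw [Set.mem_ofPred_eq, not_lt] at hV'1
      rw [hV1, Set.mem_ofPred_eq] at hV'2
      push Not at hV'2
      have hσJ := hσ0 s' hs' b' hb'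
      have hβJ := hBJ (σ s' b') hσJ b' hb'
      refine ⟨Set.notMem_empty _, fun x y u hxy hyu => sys.reach_hit hxy
        (sys.hit_mono hh1h' ?_)⟩
      refine hrel (Φ.z (σ s' b') (B (σ s' b') b')) (hball _ hσJ _ hβJ) _ hβJ b' hb' hV'2 (te b')
        (hte b' hb') h1 hh11 ?_ y u hyu
      -- the event function is small
      obtain ⟨m, hm, hm'⟩ := hdg (σ s' b') hσJ (se b') (hse b' hb') b' hb' b' hb' (te b')
        (hte b' hb') (te b') (hte b' hb')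
      rw [hgz b' hb', sub_zero, sub_self, sub_self, abs_zero, mul_zero, add_zero, add_zero,
        Complex.ofReal_zero, zero_mul, add_zero] at hm'
      have h3 := norm_comb ex ez hex hez (hslo0.trans hm.1) (hm.2.trans hsl3)
      have h4 : ‖gf (Φ.z (σ s' b') (B (σ s' b') b'), B (σ s' b') b', b', te b')‖ ≤
          7 * Λe * |σ s' b' - se b'| := by
        have h5 : gf (Φ.z (σ s' b') (B (σ s' b') b'), B (σ s' b') b', b', te b') =
            (gf (Φ.z (σ s' b') (B (σ s' b') b'), B (σ s' b') b', b', te b') -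
              ((σ s' b' - se b' : ℝ) : ℂ) * (ex + m * ez)) +
              ((σ s' b' - se b' : ℝ) : ℂ) * (ex + m * ez) := by ring
        rw [h5]
        refine (norm_add_le _ _).trans ((add_le_add hm' le_rfl).trans ?_)
        rw [norm_mul, Complex.norm_real, Real.norm_eq_abs]
        have h6 := mul_le_mul_of_nonneg_left h3 (abs_nonneg (σ s' b' - se b'))
        have h7 : 7 * c ≤ Λe := by
          have h8 : 1200 * c ≤ 1200 * Λe ^ 5 * c := by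
            have := mul_le_mul_of_nonneg_right hΛ5 hcpos.le
            linarith
          linarith
        have h9 := mul_le_mul_of_nonneg_right h7 (abs_nonneg (σ s' b' - se b'))
        linarith
      have h5 : |σ s' b' - se b'| ≤ 1 / 30 * r := by
        have h6 := hσ1 s' hs' (sc b') (hsc b' hb') b' hb' b' hb'
        rw [hscσ b' hb', sub_self b', abs_zero, mul_zero, add_zero] at h6
        linarith
      calc Λh * ‖gf (Φ.z (σ s' b') (B (σ s' b') b'), B (σ s' b') b', b', te b')‖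
          ≤ Λh * (7 * Λe * (1 / 30 * r)) := by
            apply mul_le_mul_of_nonneg_left _ hΛh.le
            refine h4.trans (mul_le_mul_of_nonneg_left h5 (by positivity))
        _ = 7 / 30 * (Λh * Λe * r) := by ring
        _ ≤ Λh * Λe * r := by
            have : 0 ≤ Λh * Λe * r := by positivity
            linarith
        _ < h1 := hrh')
  have hrec := recentre sys (sys.hit z h') ({p : ℝ × ℝ | r < |p.1 - sc p.2|} ∪ V1) (slo 0) (shi 0)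
    (C1 * ε) g.L g.ν0 (Kc * ε) r _ hfam (by linarith [(slopes 0).1]) (slopes 0).2.1
    (slopes 0).2.2 hL0.le (mul_nonneg hC10.le hε) sc hrpos
    (by
      intro b hb
      have := hsc1 b hb
      change |sc b| + r ≤ 30 * h2
      linarith) hsc2
  refine ⟨_, {p : ℝ × ℝ | p.2 ∈ JJ ∧ |p.1| ≤ r ∧ (p.1 + sc p.2, p.2) ∈ V1},
    isFam_mono hrec ?_ (slopes 0).1 (slopes 0).2.2 ?_, ?_, ?_, hrh2.trans hh2ℓ, ?_, ?_⟩
  · -- the marks
    intro s hs b hb hmem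
    obtain ⟨-, hmem⟩ := hmem
    have hsr : |s| ≤ r := abs_le.mpr hs
    refine ⟨hb, hsr, ?_⟩
    rcases hmem with h3 | h3
    · exfalso
      rw [Set.mem_ofPred_eq] at h3
      change r < |s + sc b - sc b| at h3
      rw [add_sub_cancel_right] at h3
      linarith
    · exact h3
  · -- the Lipschitz constant
    have h3 := mul_le_mul_of_nonneg_left hεδ t5.le
    calc C1 * ε + (5 + g.L) * (Kc * ε) = (C1 + (5 + g.L) * Kc) * ε := by ring
      _ ≤ _ := h3.trans v6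
  · -- the marks are vertical
    refine ⟨fun k => if hk : k.1 < n then {p : ℝ × ℝ | p.2 ∈ JJ ∧ |p.1| ≤ r ∧
      ∃ t ∈ Icc (τm ⟨k.1, hk⟩ - h) (τm ⟨k.1, hk⟩ + h),
        ζ ⟨k.1, hk⟩ (Φ.z (σ (p.1 + sc p.2) p.2) (B (σ (p.1 + sc p.2) p.2) p.2),
          B (σ (p.1 + sc p.2) p.2) p.2, p.2, t) = 0} else ∅, ?_, ?_⟩
    · rintro p ⟨hp1, hp2, hp3⟩
      rw [hV1] at hp3
      obtain ⟨j, t, ht, hj⟩ := hp3
      refine ⟨⟨j.1, lt_of_lt_of_le j.2 hn4⟩, ?_⟩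
      simp only
      rw [dif_pos j.2]
      exact ⟨hp1, hp2, t, ht, hj⟩
    · intro k p hp q hq
      simp only at hp hq
      by_cases hk : k.1 < n
      · rw [dif_pos hk] at hp hq
        obtain ⟨hp1, hp2, t, ht, hpt⟩ := hp
        obtain ⟨hq1, hq2, t', ht', hqt⟩ := hq
        have hpI := hrs p.1 (abs_le.mp hp2) p.2 hp1
        have hqI := hrs q.1 (abs_le.mp hq2) q.2 hq1
        obtain ⟨hf1, hf2, hf3, hf4⟩ := hζs ⟨k.1, hk⟩
        have h3 := huniq (ζ ⟨k.1, hk⟩) (τm ⟨k.1, hk⟩) _ _ _ hf1 hf2 hf3 hf4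
          (hdiff (ζ ⟨k.1, hk⟩) (ζ0 ⟨k.1, hk⟩) (τm ⟨k.1, hk⟩) _ _ _ (hζn ⟨k.1, hk⟩)
            (hζlin ⟨k.1, hk⟩) hf1 hf2) (σ (p.1 + sc p.2) p.2) (hσ0 _ hpI _ hp1)
          (σ (q.1 + sc q.2) q.2) (hσ0 _ hqI _ hq1) p.2 hp1 q.2 hq1 t ht t' ht'
        rw [hpt, hqt, sub_self, norm_zero, zero_add] at h3
        have h4 := hback (p.1 + sc p.2) hpI (q.1 + sc q.2) hqI p.2 hp1 q.2 hq1 (h3.trans
          (le_of_eq (by ring)))
        have h5 := hsc2 p.2 hp1 q.2 hq1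
        have h6 : p.1 - q.1 = (p.1 + sc p.2 - (q.1 + sc q.2)) - (sc p.2 - sc q.2) := by ring
        rw [h6]
        refine (abs_sub _ _).trans ((add_le_add h4 h5).trans ?_)
        calc Kc * ε * |p.2 - q.2| + Kc * ε * |p.2 - q.2| = (2 * Kc * ε) * |p.2 - q.2| := by ring
          _ ≤ η0 * |p.2 - q.2| := by
            apply mul_le_mul_of_nonneg_right _ (abs_nonneg _)
            exact (mul_le_mul_of_nonneg_left hεδ t6.le).trans v7
      · rw [dif_neg hk] at hp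
        exact absurd hp (Set.notMem_empty _)
  · -- continuity
    have hscc : ContinuousOn sc JJ := by
      have hl : LipschitzOnWith (Real.toNNReal (Kc * ε)) sc JJ := by
        apply LipschitzOnWith.of_dist_le_mul
        intro b hb b' hb'
        rw [Real.dist_eq, Real.dist_eq, Real.coe_toNNReal _ (by positivity)]
        exact hsc2 b hb b' hb'
      exact hl.continuousOn
    have h3 : ContinuousOn (fun p : ℝ × ℝ => ((p.1 + sc p.2, p.2) : ℝ × ℝ))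
        (Icc (-r) r ×ˢ JJ) := by
      apply ContinuousOn.prodMk
      · exact continuousOn_fst.add (hscc.comp continuousOn_snd fun p hp => hp.2)
      · exact continuousOn_snd
    exact ContinuousOn.comp hcontall h3 fun p hp => ⟨hrs p.1 hp.1 p.2 hp.2, hp.2⟩
  · -- the centre
    intro b hb
    have hX : Φ.z (se b) (B (se b) b) ∈ Metric.closedBall Xe h :=
      hball _ (hse b hb) _ (hBJ _ (hse b hb) b hb)
    have h3 := hWN.P.1 (Φ.z (se b) (B (se b) b), B (se b) b, b)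
      ⟨hX, hBJ _ (hse b hb) b hb, hb⟩
    have h4 := hLL.lipF (Φ.z (se b) (B (se b) b)) hX Xe (Metric.mem_closedBall_self hh.le)
    have h5 := hclose (se b) (hse b hb) (B (se b) b) (hBJ _ (hse b hb) b hb)
    rw [dist_eq_norm] at h4
    have h6 : ‖l.F (Φ.z (se b) (B (se b) b)) - l.F Xe‖ ≤
        Lχ * (5 * (344 * Λe ^ 6 * δ) + δ) := by
      refine h4.trans (mul_le_mul_of_nonneg_left (h5.trans ?_) hLχ0.le)
      have := hse1 b hb
      linarith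
    change w.P (Φ.z (σ (0 + sc b) b) (B (σ (0 + sc b) b) b), B (σ (0 + sc b) b) b, b) ∈ _
    rw [zero_add, hscσ b hb, Metric.mem_closedBall, dist_eq_norm]
    have h7 : w.P (Φ.z (se b) (B (se b) b), B (se b) b, b) - g.Xc =
        (w.P (Φ.z (se b) (B (se b) b), B (se b) b, b) - l.F (Φ.z (se b) (B (se b) b))) +
        (l.F (Φ.z (se b) (B (se b) b)) - l.F Xe) + (l.F Xe - g.Xc) := by abel
    rw [h7]
    refine (norm_add_le _ _).trans ((add_le_add ((norm_add_le _ _).trans (add_le_add h3 h6))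
      hFXe).trans ?_)
    have h8 : ε + Lχ * (5 * (344 * Λe ^ 6 * δ) + δ) ≤ g.ρs / 2 := by
      calc ε + Lχ * (5 * (344 * Λe ^ 6 * δ) + δ) ≤ δ + Lχ * (5 * (344 * Λe ^ 6 * δ) + δ) := by
            linarith
        _ = (1 + Lχ * (5 * (344 * Λe ^ 6) + 1)) * δ := by ring
        _ ≤ _ := v8
    linarith
  · -- the initial states
    rintro x ⟨s, hs, b, hb, hx⟩
    have hI := hrs s hs b hb
    have hσJ := hσ0 _ hI b hb
    refine ⟨σ (s + sc b) b, hsub _ hσJ, B (σ (s + sc b) b) b, hBJ _ hσJ b hb, hBne _ hσJ b hb,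
      Set.notMem_empty _, hx⟩

end

end Pool.Agent.HS.EVENT

namespace Pool.Agent.HS
open Set Filter Topology Classical

theorem event (g : GC) (Lχ Λe : ℝ) (hLχ : g.L ≤ Lχ) (hΛ : 1 ≤ Λe) : ∃ c : ℝ, 0 < c ∧
    ∀ (η0 h : ℝ), 0 < η0 → 0 < h → ∃ δ : ℝ, 0 < δ ∧
    ∀ (ε : ℝ) (sys : Sys) (z : ℂ) (κ0 : Pl → ℝ) (i : Fin 2) (Xe : Pl), 0 ≤ ε → ε ≤ δ →
      EvData g sys z κ0 i h c Lχ Λe ε Xe → EvC g η0 sys z δ :=
  @Pool.Agent.HS.EVENT.event_pr g Lχ Λe hLχ hΛ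

end Pool.Agent.HS
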