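import Pool.Agent.Lib_helper60.HSF.D_WE2
import Pool.Agent.Lib_helper60.HSF.G_EVENT
import Pool.Agent.Lib_helper60.HSF.A_CA
import Pool.Agent.Lib_helper60.HSF.E_E0b
import Pool.Agent.Lib_helper60.HSF.A_CB

/-!
# Project HS, block E2b: from event words to the event property
-/

namespace Pool.Agent.HS

noncomputable section

open Set Filter Topology Classical

/-- the linear form of a first order expansion -/
def e2bA (ex ez eτ : ℂ) : Pl × ℝ →L[ℝ] ℂ :=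
  ((ContinuousLinearMap.fst ℝ ℝ ℝ).comp (ContinuousLinearMap.fst ℝ Pl ℝ)).smulRight ex +
  ((ContinuousLinearMap.snd ℝ ℝ ℝ).comp (ContinuousLinearMap.fst ℝ Pl ℝ)).smulRight ez +
  (ContinuousLinearMap.snd ℝ Pl ℝ).smulRight eτ

theorem e2bA_apply (ex ez eτ : ℂ) (v : Pl × ℝ) :
    e2bA ex ez eτ v = ((v.1.1 : ℝ) : ℂ) * ex + ((v.1.2 : ℝ) : ℂ) * ez + ((v.2 : ℝ) : ℂ) * eτ := by
  simp [e2bA]

/-- linear approximation on a small ball and window -/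
theorem e2b_lin {g0 : Pl × ℝ → ℂ} {Xe : Pl} {τe h h1 L : ℝ} {ex ez eτ : ℂ} (hh : 0 < h)
    (hh1 : 0 < h1) (hL : 0 ≤ L)
    (hR : Reg L g0 (Metric.closedBall Xe h1 ×ˢ Icc (τe - h) (τe + h)))
    (hE : Exp1 g0 Xe τe h ex ez eτ) (c : ℝ) (hc : 0 < c) :
    ∃ ρ : ℝ, 0 < ρ ∧ ρ ≤ h ∧ ρ ≤ h1 ∧ ∀ X ∈ Metric.closedBall Xe ρ, ∀ Y ∈ Metric.closedBall Xe ρ,
      ∀ t ∈ Icc (τe - ρ) (τe + ρ), ∀ t' ∈ Icc (τe - ρ) (τe + ρ),
      ‖g0 (X, t) - g0 (Y, t') - ((X.1 - Y.1 : ℝ) * ex + (X.2 - Y.2 : ℝ) * ez + (t - t' : ℝ) * eτ)‖ ≤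
        c * (‖X - Y‖ + |t - t'|) := by
  obtain ⟨Q, h3, hh3, hQ⟩ := hE
  have hd : 0 < 4 * L + 4 * (4 * |Q|) + 1 := by positivity
  set ρ := min (min (h / 2) (min (h1 / 2) (h3 / 2))) (c / (4 * L + 4 * (4 * |Q|) + 1)) with hρdef
  have hρ0 : 0 < ρ := by
    rw [hρdef]
    refine lt_min (lt_min ?_ (lt_min ?_ ?_)) ?_ <;> positivity
  have hρh : 2 * ρ ≤ h := by
    have : ρ ≤ h / 2 := (min_le_left _ _).trans (min_le_left _ _)
    linarith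
  have hρh1 : 2 * ρ ≤ h1 := by
    have : ρ ≤ h1 / 2 := (min_le_left _ _).trans ((min_le_right _ _).trans (min_le_left _ _))
    linarith
  have hρh3 : 2 * ρ ≤ h3 := by
    have : ρ ≤ h3 / 2 := (min_le_left _ _).trans ((min_le_right _ _).trans (min_le_right _ _))
    linarith
  have hρc : (4 * L + 4 * (4 * |Q|)) * ρ ≤ c := by
    have h1 : ρ ≤ c / (4 * L + 4 * (4 * |Q|) + 1) := min_le_right _ _
    rw [le_div_iff₀ hd] at h1
    nlinarith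
  have hb : Metric.closedBall ((Xe, τe) : Pl × ℝ) (2 * ρ) ⊆
      Metric.closedBall Xe h1 ×ˢ Icc (τe - h) (τe + h) := by
    rintro ⟨X, t⟩ hx
    rw [Metric.mem_closedBall, Prod.dist_eq, max_le_iff] at hx
    refine ⟨?_, ?_⟩
    · exact Metric.mem_closedBall.mpr (hx.1.trans hρh1)
    · have h2 : |t - τe| ≤ 2 * ρ := by rw [← Real.dist_eq]; exact hx.2
      rw [abs_le] at h2
      constructor <;> simp only <;> linarith [h2.1, h2.2]
  have key := reg_linear (e2bA ex ez eτ) hR hb hρ0 hL (Q := 4 * |Q|) (by positivity) (by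
    intro v hv
    have hv1 : ‖v.1‖ ≤ ‖v‖ := norm_fst_le v
    have hv2 : ‖v.2‖ ≤ ‖v‖ := norm_snd_le v
    have hX : Xe + v.1 ∈ Metric.closedBall Xe h3 := by
      rw [Metric.mem_closedBall, dist_eq_norm, add_sub_cancel_left]
      linarith
    have ht : τe + v.2 ∈ Icc (τe - h3) (τe + h3) := by
      have : |v.2| ≤ h3 := by rw [← Real.norm_eq_abs]; linarith
      rw [abs_le] at this
      constructor <;> linarith [this.1, this.2]
    have h2 := hQ (Xe + v.1) hX (τe + v.2) ht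
    have e1 : ((Xe, τe) : Pl × ℝ) + v = (Xe + v.1, τe + v.2) := rfl
    rw [e1, e2bA_apply]
    have e2 : (Xe + v.1).1 - Xe.1 = v.1.1 := by simp
    have e3 : (Xe + v.1).2 - Xe.2 = v.1.2 := by simp
    have e4 : τe + v.2 - τe = v.2 := by ring
    have e5 : Xe + v.1 - Xe = v.1 := by abel
    rw [e2, e3, e4, e5] at h2
    refine h2.trans ?_
    rw [← Real.norm_eq_abs v.2]
    have h3 : ‖v.1‖ + ‖v.2‖ ≤ 2 * ‖v‖ := by linarith
    have h4 : (‖v.1‖ + ‖v.2‖) ^ 2 ≤ 4 * ‖v‖ ^ 2 := by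
      have h5 : 0 ≤ ‖v.1‖ + ‖v.2‖ := by positivity
      nlinarith [norm_nonneg v]
    calc Q * (‖v.1‖ + ‖v.2‖) ^ 2 ≤ |Q| * (‖v.1‖ + ‖v.2‖) ^ 2 := by
          gcongr
          exact le_abs_self Q
      _ ≤ |Q| * (4 * ‖v‖ ^ 2) := by gcongr
      _ = 4 * |Q| * ‖v‖ ^ 2 := by ring)
  refine ⟨ρ, hρ0, by linarith, by linarith, ?_⟩
  intro X hX Y hY t ht t' ht'
  have mem : ∀ (Z : Pl) (s : ℝ), Z ∈ Metric.closedBall Xe ρ → s ∈ Icc (τe - ρ) (τe + ρ) →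
      ((Z, s) : Pl × ℝ) ∈ Metric.closedBall ((Xe, τe) : Pl × ℝ) ρ := by
    intro Z s hZ hs
    rw [Metric.mem_closedBall, Prod.dist_eq, max_le_iff]
    refine ⟨hZ, ?_⟩
    rw [Real.dist_eq, abs_le]
    constructor <;> simp only <;> linarith [hs.1, hs.2]
  have h2 := key (X, t) (mem X t hX ht) (Y, t') (mem Y t' hY ht')
  rw [e2bA_apply] at h2
  have e1 : (((X, t) : Pl × ℝ) - (Y, t')).1.1 = X.1 - Y.1 := rfl
  have e2 : (((X, t) : Pl × ℝ) - (Y, t')).1.2 = X.2 - Y.2 := rfl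
  have e3 : (((X, t) : Pl × ℝ) - (Y, t')).2 = t - t' := rfl
  rw [e1, e2, e3] at h2
  refine h2.trans ?_
  have h3 : ‖((X, t) : Pl × ℝ) - (Y, t')‖ ≤ ‖X - Y‖ + |t - t'| := by
    rw [Prod.norm_def]
    refine max_le ?_ ?_
    · show ‖X - Y‖ ≤ _
      linarith [abs_nonneg (t - t')]
    · show ‖t - t'‖ ≤ _
      rw [Real.norm_eq_abs]
      linarith [norm_nonneg (X - Y)]
  exact mul_le_mul hρc h3 (norm_nonneg _) hc.le

/-- slopes: a uniform lower bound -/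
theorem e2b_slope {a b : ℝ} {f : ℝ → ℝ} (hf : Continuous f) (h0 : ∀ m ∈ Icc a b, f m ≠ 0) :
    ∃ Λ : ℝ, 1 ≤ Λ ∧ ∀ m ∈ Icc a b, 1 ≤ Λ * |f m| := by
  by_cases hne : (Icc a b).Nonempty
  · obtain ⟨m0, hm0, hmin⟩ := (isCompact_Icc (a := a) (b := b)).exists_isMinOn hne
      (f := fun m => |f m|) (hf.abs.continuousOn)
    have h1 : 0 < |f m0| := abs_pos.mpr (h0 m0 hm0)
    refine ⟨max 1 (1 / |f m0|), le_max_left _ _, fun m hm => ?_⟩
    have h2 : |f m0| ≤ |f m| := hmin hm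
    calc (1:ℝ) = 1 / |f m0| * |f m0| := by field_simp
      _ ≤ max 1 (1 / |f m0|) * |f m| := by
        gcongr
        exact le_max_right _ _
  · refine ⟨1, le_refl _, fun m hm => ?_⟩
    exact absurd ⟨m, hm⟩ hne

/-- marks stay away from zero outside a window -/
theorem e2b_away {ζ : Pl × ℝ → ℂ} {Xe : Pl} {τ h h1 L ρ : ℝ} (hh1 : 0 < h1) (hL : 0 ≤ L)
    (hR : Lip L ζ (Metric.closedBall Xe h1 ×ˢ Icc (τ - h) (τ + h)))
    (h0 : ∀ t ∈ Icc (τ - h) (τ + h), t ≠ τ → ζ (Xe, t) ≠ 0) (hρ : 0 < ρ) :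
    ∃ c r : ℝ, 0 < c ∧ 0 < r ∧ ∀ X ∈ Metric.closedBall Xe r, ∀ t ∈ Icc (τ - h) (τ + h),
      ρ ≤ |t - τ| → c ≤ ‖ζ (X, t)‖ := by
  have hXe : Xe ∈ Metric.closedBall Xe h1 := Metric.mem_closedBall_self hh1.le
  set K : Set ℝ := Icc (τ - h) (τ + h) ∩ {t | ρ ≤ |t - τ|} with hK
  have hKc : IsCompact K := by
    refine isCompact_Icc.inter_right ?_
    exact isClosed_le continuous_const ((continuous_id.sub continuous_const).abs)
  by_cases hne : K.Nonempty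
  · have hcont : ContinuousOn (fun t => ‖ζ (Xe, t)‖) K := by
      apply ContinuousOn.norm
      have hlip : LipschitzOnWith (Real.toNNReal L) (fun t => ζ (Xe, t)) K := by
        rw [lipschitzOnWith_iff_dist_le_mul]
        intro t ht t' ht'
        rw [Real.coe_toNNReal L hL, dist_eq_norm]
        have h2 := hR (Xe, t) ⟨hXe, ht.1⟩ (Xe, t') ⟨hXe, ht'.1⟩
        refine h2.trans ?_
        rw [Prod.dist_eq, dist_self, max_eq_right dist_nonneg]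
      exact hlip.continuousOn
    obtain ⟨t0, ht0, hmin⟩ := hKc.exists_isMinOn hne hcont
    have h10 : 0 < ‖ζ (Xe, t0)‖ := by
      refine norm_pos_iff.mpr (h0 t0 ht0.1 ?_)
      intro he
      have h3 : ρ ≤ |t0 - τ| := ht0.2
      rw [he, sub_self, abs_zero] at h3
      linarith
    refine ⟨‖ζ (Xe, t0)‖ / 2, min h1 (‖ζ (Xe, t0)‖ / 2 / (L + 1)), by positivity,
      lt_min hh1 (by positivity), ?_⟩
    intro X hX t ht hρt
    have h2 : ‖ζ (Xe, t0)‖ ≤ ‖ζ (Xe, t)‖ := hmin ⟨ht, hρt⟩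
    have hX1 : dist X Xe ≤ min h1 (‖ζ (Xe, t0)‖ / 2 / (L + 1)) := hX
    have hX2 : X ∈ Metric.closedBall Xe h1 := hX1.trans (min_le_left _ _)
    have h3 := hR (X, t) ⟨hX2, ht⟩ (Xe, t) ⟨hXe, ht⟩
    rw [Prod.dist_eq, dist_self, max_eq_left dist_nonneg] at h3
    have h4 : L * dist X Xe ≤ ‖ζ (Xe, t0)‖ / 2 := by
      have h5 : dist X Xe ≤ ‖ζ (Xe, t0)‖ / 2 / (L + 1) := hX1.trans (min_le_right _ _)
      rw [le_div_iff₀ (by positivity)] at h5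
      nlinarith [dist_nonneg (x := X) (y := Xe)]
    have h6 := norm_sub_norm_le (ζ (Xe, t)) (ζ (X, t))
    rw [norm_sub_rev] at h6
    linarith
  · refine ⟨1, h1, one_pos, hh1, fun X hX t ht hρt => ?_⟩
    exact absurd ⟨t, ht, hρt⟩ hne

/-- marks in the linear range -/
theorem e2b_mid {ζ : Pl × ℝ → ℂ} {Xe : Pl} {τ c k r : ℝ} {fx fz fτ : ℂ} {X : Pl} {t : ℝ}
    (hc : 0 ≤ c)
    (hlin : ‖ζ (X, t) - ((X.1 - Xe.1 : ℝ) * fx + (X.2 - Xe.2 : ℝ) * fz + (t - τ : ℝ) * fτ)‖ ≤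
      c * (‖X - Xe‖ + |t - τ|))
    (hf : ‖fx‖ + ‖fz‖ + c ≤ k * ‖fτ‖ / 4) (hcf : c ≤ ‖fτ‖ / 4) (hX : ‖X - Xe‖ ≤ r)
    (ht : k * r ≤ |t - τ|) : ‖fτ‖ / 2 * |t - τ| ≤ ‖ζ (X, t)‖ := by
  have h1 : |X.1 - Xe.1| ≤ ‖X - Xe‖ := norm_fst_le (X - Xe)
  have h2 : |X.2 - Xe.2| ≤ ‖X - Xe‖ := norm_snd_le (X - Xe)
  set a : ℂ := ((X.1 - Xe.1 : ℝ) : ℂ) * fx with ha
  set b : ℂ := ((X.2 - Xe.2 : ℝ) : ℂ) * fz with hb
  set d : ℂ := ((t - τ : ℝ) : ℂ) * fτ with hd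
  have na : ‖a‖ ≤ ‖X - Xe‖ * ‖fx‖ := by
    rw [ha, norm_mul, Complex.norm_real, Real.norm_eq_abs]
    gcongr
  have nb : ‖b‖ ≤ ‖X - Xe‖ * ‖fz‖ := by
    rw [hb, norm_mul, Complex.norm_real, Real.norm_eq_abs]
    gcongr
  have nd : ‖d‖ = |t - τ| * ‖fτ‖ := by
    rw [hd, norm_mul, Complex.norm_real, Real.norm_eq_abs]
  have h3 : ‖d‖ ≤ ‖ζ (X, t)‖ + ‖ζ (X, t) - (a + b + d)‖ + ‖a‖ + ‖b‖ := by
    have e : d = ζ (X, t) - (ζ (X, t) - (a + b + d)) - a - b := by ring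
    calc ‖d‖ = ‖ζ (X, t) - (ζ (X, t) - (a + b + d)) - a - b‖ := by rw [← e]
      _ ≤ ‖ζ (X, t) - (ζ (X, t) - (a + b + d)) - a‖ + ‖b‖ := norm_sub_le _ _
      _ ≤ ‖ζ (X, t) - (ζ (X, t) - (a + b + d))‖ + ‖a‖ + ‖b‖ := by
        gcongr; exact norm_sub_le _ _
      _ ≤ ‖ζ (X, t)‖ + ‖ζ (X, t) - (a + b + d)‖ + ‖a‖ + ‖b‖ := by
        gcongr; exact norm_sub_le _ _
  rw [nd] at h3
  have h4 : ‖X - Xe‖ * (‖fx‖ + ‖fz‖ + c) ≤ |t - τ| * ‖fτ‖ / 4 := by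
    have h5 : 0 ≤ ‖fx‖ + ‖fz‖ + c := by positivity
    calc ‖X - Xe‖ * (‖fx‖ + ‖fz‖ + c) ≤ r * (k * ‖fτ‖ / 4) := by
          apply mul_le_mul hX hf h5 ((norm_nonneg _).trans hX)
      _ = (k * r) * (‖fτ‖ / 4) := by ring
      _ ≤ |t - τ| * (‖fτ‖ / 4) := by gcongr
      _ = |t - τ| * ‖fτ‖ / 4 := by ring
  have h6 : c * |t - τ| ≤ ‖fτ‖ / 4 * |t - τ| := by gcongr
  nlinarith

theorem e2b_min {ι : Type} [Fintype ι] (f : ι → ℝ) (hf : ∀ j, 0 < f j) :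
    ∃ ρ : ℝ, 0 < ρ ∧ ∀ j, ρ ≤ f j := by
  by_cases hne : (Finset.univ : Finset ι).Nonempty
  · refine ⟨Finset.univ.inf' hne f, ?_, fun j => Finset.inf'_le _ (Finset.mem_univ j)⟩
    rw [Finset.lt_inf'_iff]
    exact fun j _ => hf j
  · refine ⟨1, one_pos, fun j => ?_⟩
    exact absurd ⟨j, Finset.mem_univ j⟩ hne

theorem e2b_max {ι : Type} [Fintype ι] (f : ι → ℝ) :
    ∃ ρ : ℝ, 1 ≤ ρ ∧ ∀ j, f j ≤ ρ := by
  have h0 : 0 ≤ ∑ j, |f j| := Finset.sum_nonneg (fun j _ => abs_nonneg (f j))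
  refine ⟨1 + ∑ j, |f j|, by linarith, fun j => ?_⟩
  have h1 : |f j| ≤ ∑ j, |f j| :=
    Finset.single_le_sum (f := fun j => |f j|) (fun j _ => abs_nonneg (f j)) (Finset.mem_univ j)
  linarith [le_abs_self (f j)]


/-- time reparametrization of the marks -/
def e2bS (τ k : ℝ) (q : Pl × ℝ × ℝ × ℝ) : Pl × ℝ × ℝ × ℝ :=
  (q.1, q.2.1, q.2.2.1, τ + k * (q.2.2.2 - τ))

theorem e2bS_dist {τ k : ℝ} (hk : 1 ≤ k) (p q : Pl × ℝ × ℝ × ℝ) :
    dist (e2bS τ k p) (e2bS τ k q) ≤ k * dist p q := by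
  have h0 : dist p q ≤ k * dist p q := le_mul_of_one_le_left dist_nonneg hk
  have h1 : dist p.1 q.1 ≤ dist p q := le_max_left _ _
  have h2 : dist p.2 q.2 ≤ dist p q := le_max_right _ _
  have h3 : dist p.2.1 q.2.1 ≤ dist p q := le_trans (le_max_left _ _) h2
  have h4 : dist p.2.2 q.2.2 ≤ dist p q := le_trans (le_max_right _ _) h2
  have h5 : dist p.2.2.1 q.2.2.1 ≤ dist p q := le_trans (le_max_left _ _) h4
  have h6 : dist p.2.2.2 q.2.2.2 ≤ dist p q := le_trans (le_max_right _ _) h4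
  have h7 : dist (τ + k * (p.2.2.2 - τ)) (τ + k * (q.2.2.2 - τ)) ≤ k * dist p q := by
    rw [Real.dist_eq] at h6 ⊢
    have e : τ + k * (p.2.2.2 - τ) - (τ + k * (q.2.2.2 - τ)) = k * (p.2.2.2 - q.2.2.2) := by ring
    rw [e, abs_mul, abs_of_nonneg (by linarith : (0:ℝ) ≤ k)]
    gcongr
  refine max_le ?_ (max_le ?_ (max_le ?_ ?_))
  · exact h1.trans h0
  · exact h3.trans h0
  · exact h5.trans h0
  · exact h7

theorem e2b_k {Λ : ℝ} (h : 1 ≤ Λ) : 1 ≤ 24 * Λ ^ 2 * (2 * Λ + 1) := by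
  have h2 : (1:ℝ) ≤ Λ ^ 2 := one_le_pow₀ h
  nlinarith

theorem e2b_slo (i : Fin 2) : slo i ∈ Icc (slo i) (shi i) ∧ 0 ≤ slo i ∧ slo i ≤ 4 := by
  unfold slo shi
  by_cases hi : i = 0
  · simp only [hi, if_true]
    refine ⟨⟨le_refl _, by norm_num⟩, by norm_num, by norm_num⟩
  · simp only [hi, if_false]
    refine ⟨⟨le_refl _, by norm_num⟩, by norm_num, by norm_num⟩

/-- lower bound for the time derivative of a mark -/
theorem e2b_fτ {i : Fin 2} {Λ : ℝ} {fx fz fτ : ℂ} (hΛ : 1 ≤ Λ) (hx : ‖fx‖ ≤ Λ) (hz : ‖fz‖ ≤ Λ)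
    (h : ∀ m ∈ Icc (slo i) (shi i), 1 ≤ Λ * |((starRingEnd ℂ) fτ * (fx + m * fz)).im|) :
    1 ≤ 6 * Λ ^ 2 * ‖fτ‖ := by
  obtain ⟨h1, h2, h3⟩ := e2b_slo i
  have h4 := h _ h1
  have h5 : |((starRingEnd ℂ) fτ * (fx + (slo i : ℂ) * fz)).im| ≤ ‖fτ‖ * (Λ + 4 * Λ) := by
    refine (Complex.abs_im_le_norm _).trans ?_
    rw [norm_mul, RCLike.norm_conj]
    gcongr
    refine (norm_add_le _ _).trans ?_
    rw [norm_mul, Complex.norm_real, Real.norm_eq_abs, abs_of_nonneg h2]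
    gcongr
  have h6 : Λ * |((starRingEnd ℂ) fτ * (fx + (slo i : ℂ) * fz)).im| ≤ Λ * (‖fτ‖ * (Λ + 4 * Λ)) := by
    gcongr
  have h7 : 0 ≤ Λ ^ 2 * ‖fτ‖ := by positivity
  nlinarith

theorem evw_evc_pr (g : GC) (C : ℝ) (hC : 0 < C ∧ C ≤ 1) (S : ℝ → Set (ℝ × ℂ)) (Xe : Pl) (h1 : ℝ)
    (hh1 : 0 < h1) (l : LD) (ι : Type) [Fintype ι] (hn : Fintype.card ι ≤ 4) (g0 : Pl × ℝ → ℂ)
    (τe h : ℝ) (ζ0 : ι → Pl × ℝ → ℂ) (τm : ι → ℝ) (i : Fin 2) (Lχ : ℝ) (η0 : ℝ) (hη : 0 < η0)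
    (hw : EvW C S (Metric.closedBall Xe h1) l ι g0 τe h ζ0 τm)
    (hX : Xe ∈ Metric.closedBall g.Xc (g.ρs / 2)) (hF : ‖l.F Xe - g.Xc‖ ≤ g.ρs / 2)
    (hL : g.L ≤ Lχ) (hl : LLim Lχ g.ν0 0 (Metric.closedBall Xe h1) l)
    (hθ : Lip g.L l.θ (Metric.closedBall Xe h1))
    (hκ : Lip g.L (fun X => kap0 C (chart C X)) (Metric.closedBall Xe h1))
    (he : TZero i g0 Xe τe h)
    (hm : ∀ j, TZero i (ζ0 j) Xe (τm j) h ∧
      ∀ t ∈ Icc (τm j - h) (τm j + h), t ≠ τm j → ζ0 j (Xe, t) ≠ 0) :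
    ∃ δ r : ℝ, 0 < δ ∧ 0 < r ∧ ∀ p ∈ S r, EvC g η0 (hs C p.1) p.2 δ := by
  obtain ⟨L, hL0, hRF, hRχ, hRθ, hRg, hRζ⟩ := hw.reg
  have hh : 0 < h := hw.hh
  obtain ⟨he0, ex, ez, eτ, heE, heI⟩ := he
  -- bounds
  obtain ⟨Λs, hΛs1, hΛs⟩ := e2b_slope (a := slo i) (b := shi i)
    (f := fun m => ((starRingEnd ℂ) eτ * (ex + (m : ℂ) * ez)).im) (by fun_prop) heI
  choose fx fz fτ hfE hfI using fun j => (hm j).1.2
  choose Λt hΛt1 hΛt using fun j => e2b_slope (a := slo i) (b := shi i)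
    (f := fun m => ((starRingEnd ℂ) (fτ j) * (fx j + (m : ℂ) * fz j)).im) (by fun_prop) (hfI j)
  obtain ⟨Λ1, hΛ11, hΛ1⟩ := e2b_max (fun j => ‖fx j‖ + ‖fz j‖ + ‖fτ j‖ + Λt j)
  set Λ0 : ℝ := Λ1 + (‖ex‖ + ‖ez‖ + ‖eτ‖ + Λs) with hΛ0def
  have nx := norm_nonneg ex
  have nz := norm_nonneg ez
  have nτ := norm_nonneg eτ
  have hΛ01 : 1 ≤ Λ0 := by rw [hΛ0def]; linarith
  have bex : ‖ex‖ ≤ Λ0 := by rw [hΛ0def]; linarith
  have bez : ‖ez‖ ≤ Λ0 := by rw [hΛ0def]; linarith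
  have beτ : ‖eτ‖ ≤ Λ0 := by rw [hΛ0def]; linarith
  have bΛs : Λs ≤ Λ0 := by rw [hΛ0def]; linarith
  have bf : ∀ j, ‖fx j‖ ≤ Λ0 ∧ ‖fz j‖ ≤ Λ0 ∧ ‖fτ j‖ ≤ Λ0 ∧ Λt j ≤ Λ0 := by
    intro j
    have h2 := hΛ1 j
    have n1 := norm_nonneg (fx j)
    have n2 := norm_nonneg (fz j)
    have n3 := norm_nonneg (fτ j)
    have n4 := hΛt1 j
    rw [hΛ0def]
    refine ⟨?_, ?_, ?_, ?_⟩ <;> linarith
  have bI : ∀ j, ∀ m ∈ Icc (slo i) (shi i),
      1 ≤ Λ0 * |((starRingEnd ℂ) (fτ j) * (fx j + (m : ℂ) * fz j)).im| := by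
    intro j m hm'
    refine (hΛt j m hm').trans ?_
    gcongr
    exact (bf j).2.2.2
  have bτ : ∀ j, 1 ≤ 6 * Λ0 ^ 2 * ‖fτ j‖ := fun j => e2b_fτ hΛ01 (bf j).1 (bf j).2.1 (bI j)
  set k : ℝ := 24 * Λ0 ^ 2 * (2 * Λ0 + 1) with hkdef
  have hΛ0p : 0 < Λ0 := by linarith
  have hk1 : 1 ≤ k := e2b_k hΛ01
  have hk0 : 0 < k := by linarith
  have hkΛ : Λ0 ≤ k * Λ0 := le_mul_of_one_le_left hΛ0p.le hk1
  have hΛe1 : 1 ≤ k * Λ0 := hΛ01.trans hkΛ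
  obtain ⟨c, hc, hev⟩ := event g Lχ (k * Λ0) hL hΛe1
  set c0 : ℝ := min (c / k) (1 / (24 * Λ0 ^ 2)) with hc0def
  have hc0 : 0 < c0 := lt_min (by positivity) (by positivity)
  obtain ⟨ρe, hρe0, hρeh, hρeh1, hlin⟩ := e2b_lin hh hh1 hL0 hRg heE c hc
  choose ρm hρm0 hρmh hρmh1 hρml using fun j => e2b_lin hh hh1 hL0 (hRζ j) (hfE j) c0 hc0
  obtain ⟨ρ, hρ0, hρle⟩ := e2b_min ρm hρm0
  choose cm rm hcm hrm haway using fun j => e2b_away hh1 hL0 (hRζ j).1 (hm j).2 hρ0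
  obtain ⟨c', hc'0, hc'le⟩ := e2b_min cm hcm
  obtain ⟨r', hr'0, hr'le⟩ := e2b_min rm hrm
  set h2 : ℝ := min ρe (min (ρ / k) r') with hh2def
  have hh2 : 0 < h2 := lt_min hρe0 (lt_min (by positivity) hr'0)
  have h2e : h2 ≤ ρe := min_le_left _ _
  have h2ρ : h2 ≤ ρ / k := (min_le_right _ _).trans (min_le_left _ _)
  have h2r : h2 ≤ r' := (min_le_right _ _).trans (min_le_right _ _)
  have hkh2 : k * h2 ≤ ρ := by
    rw [le_div_iff₀ hk0] at h2ρ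
    linarith
  have h2ρ' : h2 ≤ ρ := (le_mul_of_one_le_left hh2.le hk1).trans hkh2
  obtain ⟨δ, hδ, hev2⟩ := hev η0 h2 hη hh2
  set c'' : ℝ := k * h2 / (12 * Λ0 ^ 2) with hc''def
  have hc''0 : 0 < c'' := by positivity
  set ε1 : ℝ := min (δ / k) (min (c' / 2) (c'' / 2)) with hε1def
  have hε1 : 0 < ε1 := lt_min (by positivity) (lt_min (by positivity) (by positivity))
  have hε1k : ε1 * k ≤ δ := by
    have h3 : ε1 ≤ δ / k := min_le_left _ _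
    rwa [le_div_iff₀ hk0] at h3
  have hε1δ : ε1 ≤ δ := (le_mul_of_one_le_right hε1.le hk1).trans hε1k
  have hε1c' : ε1 < c' := by
    have h3 : ε1 ≤ c' / 2 := (min_le_right _ _).trans (min_le_left _ _)
    linarith
  have hε1c'' : ε1 < c'' := by
    have h3 : ε1 ≤ c'' / 2 := (min_le_right _ _).trans (min_le_right _ _)
    linarith
  obtain ⟨r1, hr1, hreal⟩ := hw.real ε1 hε1
  have hsub : Metric.closedBall Xe h2 ⊆ Metric.closedBall Xe h1 :=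
    Metric.closedBall_subset_closedBall (h2e.trans hρeh1)
  have hXe2 : Xe ∈ Metric.closedBall Xe h2 := Metric.mem_closedBall_self hh2.le
  obtain ⟨μ0, hμ0, hK⟩ := kap_knear C hC g.L (Metric.closedBall Xe h2)
    (fun X hX' => (hw.cd X (hsub hX')).1)
    (fun p hp q hq => hκ p (hsub hp) q (hsub hq)) δ hδ
  refine ⟨δ, min r1 μ0, hδ, lt_min hr1 hμ0, fun p hp => ?_⟩
  have hp1 : p ∈ S r1 := hw.mono _ _ (lt_min hr1 hμ0) (min_le_left _ _) hp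
  have hp2 := hw.pos _ (lt_min hr1 hμ0) p hp
  obtain ⟨w, Ri, gf, ζ, hwn, hre, hgf, hζ, Λh, hΛh, hrel⟩ := hreal p hp1
  -- the shrunken windows
  have hwin : ∀ j, ∀ t, t ∈ Icc (τm j - h2) (τm j + h2) →
      τm j + k * (t - τm j) ∈ Icc (τm j - ρ) (τm j + ρ) := by
    intro j t ht
    have h3 : |t - τm j| ≤ h2 := by rw [abs_le]; constructor <;> linarith [ht.1, ht.2]
    have h4 : |k * (t - τm j)| ≤ ρ := by
      rw [abs_mul, abs_of_pos hk0]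
      exact (mul_le_mul_of_nonneg_left h3 hk0.le).trans hkh2
    rw [abs_le] at h4
    constructor <;> linarith [h4.1, h4.2]
  have hρmem : ∀ j, ∀ t, t ∈ Icc (τm j - ρ) (τm j + ρ) → t ∈ Icc (τm j - ρm j) (τm j + ρm j) := by
    intro j t ht
    have h3 := hρle j
    constructor <;> linarith [ht.1, ht.2]
  have hρmem' : ∀ j, ∀ t, t ∈ Icc (τm j - ρ) (τm j + ρ) → t ∈ Icc (τm j - h) (τm j + h) := by
    intro j t ht
    have h3 := (hρle j).trans (hρmh j)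
    constructor <;> linarith [ht.1, ht.2]
  have hball : ∀ j, Metric.closedBall Xe h2 ⊆ Metric.closedBall Xe (ρm j) := fun j =>
    Metric.closedBall_subset_closedBall (h2ρ'.trans (hρle j))
  -- lower bound of the marks
  have hlow : ∀ j, ∀ X ∈ Metric.closedBall Xe h2, ∀ t ∈ Icc (τm j - h) (τm j + h),
      k * h2 < |t - τm j| → ε1 < ‖ζ0 j (X, t)‖ := by
    intro j X hX' t ht hkt
    have hXd : ‖X - Xe‖ ≤ h2 := by rw [← dist_eq_norm]; exact hX'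
    by_cases hρt : ρ ≤ |t - τm j|
    · have h3 := haway j X (Metric.closedBall_subset_closedBall (h2r.trans (hr'le j)) hX') t ht hρt
      exact lt_of_lt_of_le hε1c' ((hc'le j).trans h3)
    · push Not at hρt
      have hbτ := bτ j
      have htm : t ∈ Icc (τm j - ρ) (τm j + ρ) := by
        have h3 := abs_le.mp hρt.le
        constructor <;> linarith [h3.1, h3.2]
      have h4 := hρml j X (hball j hX') Xe (hball j hXe2) t (hρmem j t htm) (τm j)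
        (hρmem j _ ⟨by linarith, by linarith⟩)
      rw [(hm j).1.1, sub_zero] at h4
      have hΛsq : (0:ℝ) < Λ0 ^ 2 := by positivity
      have h5 : c0 ≤ ‖fτ j‖ / 4 := by
        have h6 : c0 ≤ 1 / (24 * Λ0 ^ 2) := min_le_right _ _
        rw [le_div_iff₀ (by positivity)] at h6
        have h7 : c0 * (24 * Λ0 ^ 2) ≤ (‖fτ j‖ / 4) * (24 * Λ0 ^ 2) := by
          calc c0 * (24 * Λ0 ^ 2) ≤ 1 := h6
            _ ≤ 6 * Λ0 ^ 2 * ‖fτ j‖ := hbτ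
            _ = (‖fτ j‖ / 4) * (24 * Λ0 ^ 2) := by ring
        exact le_of_mul_le_mul_right h7 (by positivity)
      have hc01 : c0 ≤ 1 := by
        have h6 : c0 ≤ 1 / (24 * Λ0 ^ 2) := min_le_right _ _
        refine h6.trans ?_
        rw [div_le_one (by positivity)]
        have : (1:ℝ) ≤ Λ0 ^ 2 := one_le_pow₀ hΛ01
        linarith
      have h8 : ‖fx j‖ + ‖fz j‖ + c0 ≤ k * ‖fτ j‖ / 4 := by
        have h9 : 2 * Λ0 + 1 ≤ k * ‖fτ j‖ / 4 := by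
          have e : k * ‖fτ j‖ / 4 = (2 * Λ0 + 1) * (6 * Λ0 ^ 2 * ‖fτ j‖) := by rw [hkdef]; ring
          rw [e]
          exact le_mul_of_one_le_right (by positivity) hbτ
        linarith [(bf j).1, (bf j).2.1]
      have h10 := e2b_mid hc0.le h4 h8 h5 hXd hkt.le
      have h11 : c'' ≤ ‖fτ j‖ / 2 * |t - τm j| := by
        have h12 : c'' = k * h2 * (1 / (12 * Λ0 ^ 2)) := by rw [hc''def]; ring
        rw [h12, mul_comm (‖fτ j‖ / 2)]
        apply mul_le_mul hkt.le ?_ (by positivity) (abs_nonneg _)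
        rw [div_le_iff₀ (by positivity)]
        calc (1:ℝ) ≤ 6 * Λ0 ^ 2 * ‖fτ j‖ := hbτ
          _ = ‖fτ j‖ / 2 * (12 * Λ0 ^ 2) := by ring
      linarith
  apply hev2 δ (hs C p.1) p.2 (fun X => kap0 C (chart C X)) i Xe hδ.le le_rfl
  set e := Fintype.equivFin ι with hedef
  refine ⟨⟨l, w, Ri, gf, g0, τe, ex, ez, eτ, Fintype.card ι,
    fun j q => ζ (e.symm j) (e2bS (τm (e.symm j)) k q),
    fun j q => ζ0 (e.symm j) (q.1, τm (e.symm j) + k * (q.2 - τm (e.symm j))),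
    fun j => τm (e.symm j), fun j => fx (e.symm j), fun j => fz (e.symm j),
    fun j => (k : ℂ) * fτ (e.symm j), hn, hX, ?_, ?_, ?_, ?_, ?_, hF, ?_, ?_, ?_, ?_, ?_, ?_, ?_,
    ?_, ?_, ?_, ?_⟩⟩
  · -- KNear
    exact hK p.1 hp2.1 (lt_of_lt_of_le hp2.2 (min_le_right _ _))
  · -- LLim
    refine ⟨fun a ha b hb => hl.lipF a (hsub ha) b (hsub hb),
      fun a ha b hb => hl.lipχ a (hsub ha) b (hsub hb),
      fun a ha b hb => hl.lipθ a (hsub ha) b (hsub hb),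
      fun a ha b hb => hl.lin a (hsub ha) b (hsub hb),
      fun a ha => hl.acc a (hsub ha), fun a ha => hl.exit a (hsub ha)⟩
  · exact fun a ha b hb => hθ a (hsub ha) b (hsub hb)
  · -- WNear
    have hs' : Metric.closedBall Xe h2 ×ˢ (JJ ×ˢ JJ) ⊆ Metric.closedBall Xe h1 ×ˢ (JJ ×ˢ JJ) :=
      prod_mono hsub (subset_refl _)
    exact ⟨near_mono hwn.P hε1δ hs', near_mono hwn.Θ hε1δ hs', near_mono hwn.Θ' hε1δ hs'⟩
  · exact fun X hX' => hre X (hsub hX')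
  · -- event function
    refine near_mono hgf hε1δ ?_
    refine prod_mono hsub (prod_mono (subset_refl _) (prod_mono (subset_refl _) ?_))
    intro t ht
    constructor <;> linarith [ht.1, ht.2]
  · rw [he0, norm_zero]; exact hδ.le
  · intro X hX' Y hY' t ht t' ht'
    have m1 : ∀ s ∈ Icc (τe - h2) (τe + h2), s ∈ Icc (τe - ρe) (τe + ρe) := by
      intro s hs'
      constructor <;> linarith [hs'.1, hs'.2]
    exact hlin X (Metric.closedBall_subset_closedBall h2e hX') Y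
      (Metric.closedBall_subset_closedBall h2e hY') t (m1 t ht) t' (m1 t' ht')
  · exact bex.trans hkΛ
  · exact bez.trans hkΛ
  · exact beτ.trans hkΛ
  · intro m hm'
    refine (hΛs m hm').trans ?_
    have h3 : Λs ≤ k * Λ0 := bΛs.trans hkΛ
    exact mul_le_mul_of_nonneg_right h3 (abs_nonneg _)
  · -- Near of the marks
    intro j
    have h3 := near_comp_inner (h := e2bS (τm (e.symm j)) k) (Λ := k)
      (T := Metric.closedBall Xe h2 ×ˢ (JJ ×ˢ (JJ ×ˢ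
        Icc (τm (e.symm j) - h2) (τm (e.symm j) + h2)))) (hζ (e.symm j)) (by
        rintro ⟨X, b, b', t⟩ ⟨hX', hb, hb', ht⟩
        exact ⟨hsub hX', hb, hb', hρmem' _ _ (hwin _ t ht)⟩)
      (fun a _ b _ => e2bS_dist hk1 a b) hk1 hε1.le
    exact near_mono h3 hε1k (subset_refl _)
  · -- linear approximation of the marks
    intro j X hX' Y hY' t ht t' ht'
    have h3 := hρml (e.symm j) X (hball _ hX') Y (hball _ hY') _ (hρmem _ _ (hwin _ t ht)) _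
      (hρmem _ _ (hwin _ t' ht'))
    have e1 : τm (e.symm j) + k * (t - τm (e.symm j)) - (τm (e.symm j) + k * (t' - τm (e.symm j))) =
        k * (t - t') := by ring
    rw [e1] at h3
    have e2 : (((k * (t - t') : ℝ)) : ℂ) * fτ (e.symm j) =
        ((t - t' : ℝ) : ℂ) * ((k : ℂ) * fτ (e.symm j)) := by push_cast; ring
    rw [e2] at h3
    refine h3.trans ?_
    rw [abs_mul, abs_of_pos hk0]
    have h4 : c0 * k ≤ c := by
      have h5 : c0 ≤ c / k := min_le_left _ _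
      rwa [le_div_iff₀ hk0] at h5
    have n1 := norm_nonneg (X - Y)
    have n2 := abs_nonneg (t - t')
    calc c0 * (‖X - Y‖ + k * |t - t'|) ≤ c0 * (k * ‖X - Y‖ + k * |t - t'|) := by
          gcongr
          exact le_mul_of_one_le_left n1 hk1
      _ = (c0 * k) * (‖X - Y‖ + |t - t'|) := by ring
      _ ≤ c * (‖X - Y‖ + |t - t'|) := by gcongr
  · -- bounds of the coefficients of the marks
    intro j
    obtain ⟨b1, b2, b3, b4⟩ := bf (e.symm j)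
    refine ⟨b1.trans hkΛ, b2.trans hkΛ, ?_, ?_⟩
    · rw [norm_mul, Complex.norm_real, Real.norm_eq_abs, abs_of_pos hk0]
      gcongr
    · intro m hm'
      refine (bI (e.symm j) m hm').trans ?_
      have e1 : (starRingEnd ℂ) ((k : ℂ) * fτ (e.symm j)) * (fx (e.symm j) + (m : ℂ) * fz (e.symm j)) =
          (k : ℂ) * ((starRingEnd ℂ) (fτ (e.symm j)) * (fx (e.symm j) + (m : ℂ) * fz (e.symm j))) := by
        rw [map_mul, Complex.conj_ofReal]; ring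
      rw [e1, Complex.im_ofReal_mul, abs_mul, abs_of_pos hk0]
      have n1 := abs_nonneg (((starRingEnd ℂ) (fτ (e.symm j)) *
        (fx (e.symm j) + (m : ℂ) * fz (e.symm j))).im)
      apply mul_le_mul hkΛ (le_mul_of_one_le_left n1 hk1) n1 (by positivity)
  · -- the relation
    refine ⟨Λh, hΛh, fun X hX' b hb b' hb' hmk t ht h' hh' hg x y hR => ?_⟩
    refine hrel X (hsub hX') b hb b' hb' ?_ t ⟨by linarith [ht.1], by linarith [ht.2]⟩ h' hh' hg x y hR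
    intro j s hs'
    by_cases hsk : |s - τm j| ≤ k * h2
    · have h3 : |(s - τm j) / k| ≤ h2 := by
        rw [abs_div, abs_of_pos hk0, div_le_iff₀ hk0]
        linarith
      rw [abs_le] at h3
      have h4 := hmk (e j) (τm j + (s - τm j) / k) (by
        show τm j + (s - τm j) / k ∈ Icc (τm (e.symm (e j)) - h2) (τm (e.symm (e j)) + h2)
        rw [Equiv.symm_apply_apply]
        constructor <;> linarith [h3.1, h3.2])
      simp only [e2bS, Equiv.symm_apply_apply] at h4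
      have e1 : τm j + k * (τm j + (s - τm j) / k - τm j) = s := by
        field_simp
        ring
      rw [e1] at h4
      exact h4
    · push Not at hsk
      have h3 := hlow j X hX' s hs' hsk
      have h4 := (hζ j).1 (X, b, b', s) ⟨hsub hX', hb, hb', hs'⟩
      intro h5
      rw [h5, zero_sub, norm_neg] at h4
      exact absurd h4 (not_le.mpr h3)

end

end Pool.Agent.HS

namespace Pool.Agent.HS
open Set Filter Topology Classical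

theorem evw_evc (g : GC) (C : ℝ) (hC : 0 < C ∧ C ≤ 1) (S : ℝ → Set (ℝ × ℂ)) (Xe : Pl) (h1 : ℝ)
    (hh1 : 0 < h1) (l : LD) (ι : Type) [Fintype ι] (hn : Fintype.card ι ≤ 4) (g0 : Pl × ℝ → ℂ)
    (τe h : ℝ) (ζ0 : ι → Pl × ℝ → ℂ) (τm : ι → ℝ) (i : Fin 2) (Lχ : ℝ) (η0 : ℝ) (hη : 0 < η0)
    (hw : EvW C S (Metric.closedBall Xe h1) l ι g0 τe h ζ0 τm)
    (hX : Xe ∈ Metric.closedBall g.Xc (g.ρs / 2)) (hF : ‖l.F Xe - g.Xc‖ ≤ g.ρs / 2)
    (hL : g.L ≤ Lχ) (hl : LLim Lχ g.ν0 0 (Metric.closedBall Xe h1) l)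
    (hθ : Lip g.L l.θ (Metric.closedBall Xe h1))
    (hκ : Lip g.L (fun X => kap0 C (chart C X)) (Metric.closedBall Xe h1))
    (he : TZero i g0 Xe τe h)
    (hm : ∀ j, TZero i (ζ0 j) Xe (τm j) h ∧
      ∀ t ∈ Icc (τm j - h) (τm j + h), t ≠ τm j → ζ0 j (Xe, t) ≠ 0) :
    ∃ δ r : ℝ, 0 < δ ∧ 0 < r ∧ ∀ p ∈ S r, EvC g η0 (hs C p.1) p.2 δ :=
  @Pool.Agent.HS.evw_evc_pr g C hC S Xe h1 hh1 l ι _ hn g0 τe h ζ0 τm i Lχ η0 hη hw hX hF hL hl hθ hκ he hm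

end Pool.Agent.HS
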