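import Pool.Agent.Lib_helper60.HSF.D_WE2
import Pool.Agent.Lib_helper60.HSF.A_CA
import Pool.Agent.Lib_helper60.HSF.E_E1e
import Pool.Agent.Lib_helper60.HSF.E_E0a
import Pool.Agent.Lib_helper60.HSF.IO_K2
import Pool.Agent.Lib_helper60.HSF.E_E1d
import Pool.Agent.Lib_helper60.HSF.E_E1c
import Pool.Agent.Lib_helper60.HSF.A_CB

/-!
# Block E3 of project HS: events in the middle of an arc
-/

namespace Pool.Agent.HS

noncomputable section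

open Set Filter Topology Classical

/-! ### The hit relation -/

/-- an orbit through a state close to the shape `z` -/
theorem e3_hitR {M : ℝ} {z : ℂ} {h : ℝ} {x s y : St} (h1 : ReachR M x s) (h2 : ReachR M s y)
    (h3 : ‖x3 s - z * x2 s‖ ≤ h * ‖x2 s‖) : HitR M z h x y := by
  refine hitR_trans ?_ h2
  obtain ⟨ρ, hρ, T, hT, γ, hs, h0, hT'⟩ := h1
  refine ⟨ρ, hρ, T, hT, γ, hs, h0, hT', T, ⟨hT, le_rfl⟩, ?_⟩
  rw [hT']
  have e1 : x3 (rot ρ s) = ρ * x3 s := rfl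
  have e2 : x2 (rot ρ s) = ρ * x2 s := rfl
  have e3 : ρ * x3 s - z * (ρ * x2 s) = ρ * (x3 s - z * x2 s) := by ring
  rw [e1, e2, e3, norm_mul, norm_mul, hρ, one_mul, one_mul]
  exact h3

/-- shape of a Levi-Civita state -/
theorem e3_shape (i : Fin 2) {z : ℂ} (hz : z ≠ 0) {Z : LCS} {c : ℝ} (hc : 0 < c)
    (hx : c ≤ ‖Z.2.2.1‖) {h' : ℝ} (hh : h' ≤ 1)
    (hE : (1 / c + (‖z‖ + 1) * ‖z‖ / c) *
      ‖Z.1 ^ 2 - (if i = 0 then z else z⁻¹) * Z.2.2.1‖ < h') :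
    ‖x3 (lcSt i Z) - z * x2 (lcSt i Z)‖ ≤ h' * ‖x2 (lcSt i Z)‖ := by
  have hz0 : 0 < ‖z‖ := norm_pos_iff.mpr hz
  by_cases hi : i = 0
  · have e1 : x3 (lcSt i Z) = Z.1 ^ 2 := by simp [lcSt, x3, hi]
    have e2 : x2 (lcSt i Z) = Z.2.2.1 := by simp [lcSt, x2, hi]
    rw [e1, e2]
    rw [if_pos hi] at hE
    set e := ‖Z.1 ^ 2 - z * Z.2.2.1‖ with he
    have he0 : 0 ≤ e := norm_nonneg _
    have h1 : 1 / c * e ≤ h' := by
      have h2 : 0 ≤ (‖z‖ + 1) * ‖z‖ / c * e := by positivity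
      rw [add_mul] at hE
      linarith
    have h2 : e ≤ h' * c := by
      rw [one_div, inv_mul_le_iff₀ hc] at h1
      linarith
    have h3 : 0 ≤ h' := le_trans (by positivity) h1
    exact h2.trans (mul_le_mul_of_nonneg_left hx h3)
  · have e1 : x3 (lcSt i Z) = Z.2.2.1 := by simp [lcSt, x3, hi]
    have e2 : x2 (lcSt i Z) = Z.1 ^ 2 := by simp [lcSt, x2, hi]
    rw [e1, e2]
    rw [if_neg hi] at hE
    set e := ‖Z.1 ^ 2 - z⁻¹ * Z.2.2.1‖ with he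
    have he0 : 0 ≤ e := norm_nonneg _
    have e3 : Z.2.2.1 - z * Z.1 ^ 2 = -(z * (Z.1 ^ 2 - z⁻¹ * Z.2.2.1)) := by
      field_simp
      ring
    rw [e3, norm_neg, norm_mul, ← he]
    have h1 : (‖z‖ + 1) * ‖z‖ / c * e ≤ h' := by
      have h2 : 0 ≤ 1 / c * e := by positivity
      rw [add_mul] at hE
      linarith
    have h3 : 0 ≤ h' := le_trans (by positivity) h1
    have h4 : (‖z‖ + 1) * e * ‖z‖ ≤ h' * c := by
      have h5 : (‖z‖ + 1) * ‖z‖ / c * e = (‖z‖ + 1) * e * ‖z‖ / c := by ring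
      rw [h5, div_le_iff₀ hc] at h1
      exact h1
    have h6 : ‖z⁻¹ * Z.2.2.1‖ - e ≤ ‖Z.1 ^ 2‖ := by
      have h7 := norm_sub_norm_le (z⁻¹ * Z.2.2.1) (z⁻¹ * Z.2.2.1 - Z.1 ^ 2)
      rw [sub_sub_cancel] at h7
      have h8 : ‖z⁻¹ * Z.2.2.1 - Z.1 ^ 2‖ = e := by rw [he, norm_sub_rev]
      rw [h8] at h7
      exact h7
    rw [norm_mul, norm_inv] at h6
    have h9 : (‖z‖ + 1) * e ≤ h' * (‖z‖⁻¹ * c) := by
      rw [← mul_assoc, mul_comm h' ‖z‖⁻¹, mul_assoc, le_inv_mul_iff₀ hz0]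
      linarith
    have h10 : h' * (‖z‖⁻¹ * c) ≤ h' * (‖z‖⁻¹ * ‖Z.2.2.1‖) := by gcongr
    have h11 : h' * (‖z‖⁻¹ * ‖Z.2.2.1‖ - e) ≤ h' * ‖Z.1 ^ 2‖ :=
      mul_le_mul_of_nonneg_left h6 h3
    have h12 : h' * e ≤ 1 * e := mul_le_mul_of_nonneg_right hh he0
    nlinarith

/-! ### The square root -/

/-- the principal root -/
def e3_rt (a : ℂ) : ℂ := a ^ (((2 : ℕ) : ℂ)⁻¹)

theorem e3_rt_sq (a : ℂ) : e3_rt a ^ 2 = a := Complex.cpow_nat_inv_pow a two_ne_zero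

theorem e3_rt_norm (a : ℂ) : ‖e3_rt a‖ ^ 2 = ‖a‖ := by
  rw [← norm_pow, e3_rt_sq]

theorem e3_rt_re (a : ℂ) (ha : 1 / 4 ≤ a.re) : 1 / 2 ≤ (e3_rt a).re := by
  have ha0 : a ≠ 0 := by
    rintro rfl
    norm_num at ha
  have h1 : 0 ≤ (e3_rt a).re := by
    unfold e3_rt
    rw [Complex.cpow_def_of_ne_zero ha0, Complex.exp_re]
    refine mul_nonneg (Real.exp_pos _).le (Real.cos_nonneg_of_mem_Icc ?_)
    have h2 : (Complex.log a * (((2 : ℕ) : ℂ)⁻¹)).im = Complex.arg a / 2 := by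
      rw [show (((2 : ℕ) : ℂ)⁻¹) = ((2⁻¹ : ℝ) : ℂ) by push_cast; norm_num, Complex.im_mul_ofReal,
        Complex.log_im]
      ring
    rw [h2]
    constructor
    · have := Complex.neg_pi_lt_arg a
      linarith
    · have := Complex.arg_le_pi a
      linarith
  have h3 : a.re = (e3_rt a).re ^ 2 - (e3_rt a).im ^ 2 := by
    have h4 := e3_rt_sq a
    have h5 : (e3_rt a ^ 2).re = (e3_rt a).re ^ 2 - (e3_rt a).im ^ 2 := by
      rw [pow_two, Complex.mul_re]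
      ring
    rw [h4] at h5
    exact h5
  nlinarith [sq_nonneg (e3_rt a).im]

theorem e3_rt_lip {a b : ℂ} (ha : 1 / 4 ≤ a.re) (hb : 1 / 4 ≤ b.re) :
    ‖e3_rt a - e3_rt b‖ ≤ ‖a - b‖ := by
  have h1 := e3_rt_re a ha
  have h2 := e3_rt_re b hb
  have h3 : a - b = (e3_rt a - e3_rt b) * (e3_rt a + e3_rt b) := by
    conv_lhs => rw [← e3_rt_sq a, ← e3_rt_sq b]
    ring
  have h4 : 1 ≤ ‖e3_rt a + e3_rt b‖ := by
    have h5 := Complex.re_le_norm (e3_rt a + e3_rt b)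
    rw [Complex.add_re] at h5
    linarith
  rw [h3, norm_mul]
  exact le_mul_of_one_le_right (norm_nonneg _) h4

/-- a branch of the square root on the disc about `x0` -/
def e3_sq (x0 x : ℂ) : ℂ := e3_rt x0 * e3_rt (x / x0)

theorem e3_sq_sq {x0 : ℂ} (h0 : x0 ≠ 0) (x : ℂ) : e3_sq x0 x ^ 2 = x := by
  unfold e3_sq
  rw [mul_pow, e3_rt_sq, e3_rt_sq, mul_div_cancel₀ _ h0]

theorem e3_re {x0 x : ℂ} (h0 : x0 ≠ 0) (hx : ‖x - x0‖ ≤ 3 / 4 * ‖x0‖) : 1 / 4 ≤ (x / x0).re := by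
  have h1 : ‖x / x0 - 1‖ ≤ 3 / 4 := by
    rw [div_sub_one h0, norm_div, div_le_iff₀ (norm_pos_iff.mpr h0)]
    exact hx
  have h2 := Complex.abs_re_le_norm (x / x0 - 1)
  rw [Complex.sub_re, Complex.one_re] at h2
  have h3 := abs_le.mp (h2.trans h1)
  linarith [h3.1]

theorem e3_sq_lip {x0 : ℂ} (h0 : x0 ≠ 0) : ∃ L : ℝ, 0 ≤ L ∧ ∀ x x' : ℂ,
    ‖x - x0‖ ≤ 3 / 4 * ‖x0‖ → ‖x' - x0‖ ≤ 3 / 4 * ‖x0‖ →
    ‖e3_sq x0 x - e3_sq x0 x'‖ ≤ L * ‖x - x'‖ := by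
  refine ⟨‖e3_rt x0‖ * ‖x0‖⁻¹, by positivity, fun x x' hx hx' => ?_⟩
  have h1 := e3_rt_lip (e3_re h0 hx) (e3_re h0 hx')
  have h2 : ‖x / x0 - x' / x0‖ = ‖x0‖⁻¹ * ‖x - x'‖ := by
    rw [← sub_div, norm_div, div_eq_inv_mul]
  unfold e3_sq
  rw [← mul_sub, norm_mul, mul_assoc]
  refine mul_le_mul_of_nonneg_left ?_ (norm_nonneg _)
  rw [← h2]
  exact h1

/-! ### Calculus -/

theorem e3_cont {α : Type*} [PseudoMetricSpace α] {L : ℝ} {f : α → ℝ} {S : Set α}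
    (h : Lip L f S) : ContinuousOn f S := by
  rw [Metric.continuousOn_iff]
  intro b hb ε hε
  have hL : 0 < |L| + 1 := by positivity
  refine ⟨ε / (|L| + 1), div_pos hε hL, fun a ha hab => ?_⟩
  rw [Real.dist_eq, ← Real.norm_eq_abs]
  calc ‖f a - f b‖ ≤ L * dist a b := h a ha b hb
    _ ≤ |L| * dist a b := mul_le_mul_of_nonneg_right (le_abs_self L) dist_nonneg
    _ ≤ |L| * (ε / (|L| + 1)) := mul_le_mul_of_nonneg_left hab.le (abs_nonneg L)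
    _ < ε := by
      rw [← mul_div_assoc, div_lt_iff₀ hL]
      nlinarith [abs_nonneg L]

/-- the main part of the event function -/
def e3_K (y : ℂ) (Z : LCS) : ℂ := if y = 0 then Z.1 else Z.1 ^ 2 - y * Z.2.2.1

theorem e3_K_reg (y : ℂ) (R : ℝ) : ∃ L : ℝ, 0 ≤ L ∧ Reg L (e3_K y) {Z : LCS | ‖Z‖ ≤ R} := by
  have h1 : {Z : LCS | ‖Z‖ ≤ R} = Metric.closedBall (0 : LCS) R := by
    ext Z
    simp
  rw [h1]
  refine reg_of_contDiffOn (U := univ) isOpen_univ ?_ (isCompact_closedBall _ _)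
    (convex_closedBall _ _) (subset_univ _)
  have h2 : ContDiff ℝ 2 (e3_K y) := by
    by_cases hy : y = 0
    · have e : e3_K y = fun Z : LCS => Z.1 := by
        funext Z
        simp [e3_K, hy]
      rw [e]
      exact contDiff_fst
    · have e : e3_K y = fun Z : LCS => Z.1 ^ 2 - y * Z.2.2.1 := by
        funext Z
        simp [e3_K, hy]
      rw [e]
      fun_prop
  exact h2.contDiffOn

/-- the region of the states -/
def e3_Om (R : ℝ) (x0 : ℂ) : Set LCS := {Z | ‖Z‖ ≤ R ∧ ‖Z.2.2.1 - x0‖ ≤ 3 / 4 * ‖x0‖}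

theorem e3_norm_x (Z : LCS) : ‖Z.2.2.1‖ ≤ ‖Z‖ := by
  calc ‖Z.2.2.1‖ ≤ ‖Z.2.2‖ := norm_fst_le _
    _ ≤ ‖Z.2‖ := norm_snd_le _
    _ ≤ ‖Z‖ := norm_snd_le _

/-- the perturbation of the event function -/
theorem e3_data (R : ℝ) (hR : 1 ≤ R) (y x0 : ℂ) (h0 : x0 ≠ 0) : ∃ (φ : LCS → ℂ) (L : ℝ),
    0 ≤ L ∧ (∀ Z ∈ e3_Om R x0, ‖φ Z‖ ≤ R) ∧
    (∀ Z ∈ e3_Om R x0, ∀ Z' ∈ e3_Om R x0, ‖φ Z - φ Z'‖ ≤ L * ‖Z - Z'‖) ∧
    ∀ ym : ℂ, ∃ s : ℂ, ‖s‖ ^ 2 ≤ ‖ym - y‖ + ‖ym - y‖ ^ 2 ∧ ∃ C1 : ℝ, 1 ≤ C1 ∧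
      ∀ Z ∈ e3_Om R x0, ‖e3_K y Z + s * φ Z‖ ≤ 1 →
        ‖Z.1 ^ 2 - ym * Z.2.2.1‖ ≤ C1 * ‖e3_K y Z + s * φ Z‖ := by
  by_cases hy : y = 0
  · obtain ⟨L, hL, hLip⟩ := e3_sq_lip h0
    have hb : ∀ Z ∈ e3_Om R x0, ‖e3_sq x0 Z.2.2.1‖ ≤ R := by
      intro Z hZ
      have h1 : ‖e3_sq x0 Z.2.2.1‖ ^ 2 ≤ R := by
        rw [← norm_pow, e3_sq_sq h0]
        exact (e3_norm_x Z).trans hZ.1
      have h2 := norm_nonneg (e3_sq x0 Z.2.2.1)
      nlinarith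
    refine ⟨fun Z => -e3_sq x0 Z.2.2.1, L, hL, fun Z hZ => ?_, fun Z hZ Z' hZ' => ?_,
      fun ym => ?_⟩
    · rw [norm_neg]
      exact hb Z hZ
    · have h1 : -e3_sq x0 Z.2.2.1 - -e3_sq x0 Z'.2.2.1 =
        -(e3_sq x0 Z.2.2.1 - e3_sq x0 Z'.2.2.1) := by ring
      rw [h1, norm_neg]
      refine (hLip _ _ hZ.2 hZ'.2).trans (mul_le_mul_of_nonneg_left ?_ hL)
      exact e3_norm_x (Z - Z')
    · refine ⟨e3_rt ym, ?_, 1 + 2 * (‖e3_rt ym‖ * R), ?_, fun Z hZ hg => ?_⟩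
      · rw [e3_rt_norm, hy, sub_zero]
        nlinarith [sq_nonneg ‖ym‖]
      · have : 0 ≤ ‖e3_rt ym‖ * R := by positivity
        linarith
      · have e1 : e3_K y Z = Z.1 := by simp [e3_K, hy]
        rw [e1] at hg ⊢
        set g := Z.1 + e3_rt ym * -e3_sq x0 Z.2.2.1 with hgd
        have e2 : Z.1 ^ 2 - ym * Z.2.2.1 = g * (g + 2 * (e3_rt ym * e3_sq x0 Z.2.2.1)) := by
          have e3 : ym * Z.2.2.1 = e3_rt ym ^ 2 * e3_sq x0 Z.2.2.1 ^ 2 := by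
            rw [e3_rt_sq, e3_sq_sq h0]
          rw [e3, hgd]
          ring
        rw [e2, norm_mul, mul_comm]
        refine mul_le_mul_of_nonneg_right ?_ (norm_nonneg _)
        calc ‖g + 2 * (e3_rt ym * e3_sq x0 Z.2.2.1)‖
            ≤ ‖g‖ + ‖2 * (e3_rt ym * e3_sq x0 Z.2.2.1)‖ := norm_add_le _ _
          _ = ‖g‖ + 2 * (‖e3_rt ym‖ * ‖e3_sq x0 Z.2.2.1‖) := by
              rw [norm_mul, norm_mul, Complex.norm_ofNat]
          _ ≤ 1 + 2 * (‖e3_rt ym‖ * R) := by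
              have := hb Z hZ
              gcongr
  · refine ⟨fun Z => -Z.2.2.1, 1, zero_le_one, fun Z hZ => ?_, fun Z hZ Z' hZ' => ?_,
      fun ym => ?_⟩
    · rw [norm_neg]
      exact (e3_norm_x Z).trans hZ.1
    · have h1 : -Z.2.2.1 - -Z'.2.2.1 = -((Z - Z').2.2.1) := by
        simp only [Prod.snd_sub, Prod.fst_sub]
        ring
      rw [h1, norm_neg, one_mul]
      exact e3_norm_x (Z - Z')
    · refine ⟨ym - y, ?_, 1, le_rfl, fun Z hZ hg => ?_⟩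
      · nlinarith [norm_nonneg (ym - y)]
      · have e1 : e3_K y Z = Z.1 ^ 2 - y * Z.2.2.1 := by simp [e3_K, hy]
        have e2 : e3_K y Z + (ym - y) * -Z.2.2.1 = Z.1 ^ 2 - ym * Z.2.2.1 := by
          rw [e1]
          ring
        rw [e2, one_mul]

/-- a small multiple of a bounded Lipschitz function -/
theorem e3_small {α : Type*} [PseudoMetricSpace α] {S : Set α} {f : α → LCS} {φ : LCS → ℂ}
    {Om : Set LCS} {R L Λ δ : ℝ} {s : ℂ} (hf : ∀ p ∈ S, f p ∈ Om) (hΛ : Lip Λ f S) (hL : 0 ≤ L)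
    (hb : ∀ Z ∈ Om, ‖φ Z‖ ≤ R)
    (hl : ∀ Z ∈ Om, ∀ Z' ∈ Om, ‖φ Z - φ Z'‖ ≤ L * ‖Z - Z'‖) (hR : 0 ≤ R) (hΛ0 : 0 ≤ Λ)
    (hs : ‖s‖ ≤ δ) : Near (δ * (R + L * Λ)) (fun p => s * φ (f p)) (fun _ => (0 : ℂ)) S := by
  have hδ : 0 ≤ δ := (norm_nonneg _).trans hs
  constructor
  · intro p hp
    rw [sub_zero, norm_mul]
    have h1 := hb (f p) (hf p hp)
    calc ‖s‖ * ‖φ (f p)‖ ≤ δ * R := mul_le_mul hs h1 (norm_nonneg _) hδ
      _ ≤ δ * (R + L * Λ) := by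
        refine mul_le_mul_of_nonneg_left ?_ hδ
        have : 0 ≤ L * Λ := mul_nonneg hL hΛ0
        linarith
  · intro p hp q hq
    rw [sub_zero, sub_zero, ← mul_sub, norm_mul]
    have h1 := hl (f p) (hf p hp) (f q) (hf q hq)
    have h2 := hΛ p hp q hq
    have h3 : ‖φ (f p) - φ (f q)‖ ≤ L * (Λ * dist p q) :=
      h1.trans (mul_le_mul_of_nonneg_left h2 hL)
    calc ‖s‖ * ‖φ (f p) - φ (f q)‖ ≤ δ * (L * (Λ * dist p q)) :=
          mul_le_mul hs h3 (norm_nonneg _) hδ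
      _ = δ * (L * Λ) * dist p q := by ring
      _ ≤ δ * (R + L * Λ) * dist p q := by
        refine mul_le_mul_of_nonneg_right ?_ dist_nonneg
        exact mul_le_mul_of_nonneg_left (by linarith) hδ

/-- a family in two variables as a family in four variables -/
theorem e3_lip4 {L : ℝ} {E : Type*} [NormedAddCommGroup E] {f : Pl × ℝ → E} {O : Set Pl}
    {I J J' : Set ℝ} (hL : 0 ≤ L) (h : Lip L f (O ×ˢ I)) :
    Lip L (fun p : Pl × ℝ × ℝ × ℝ => f (p.1, p.2.2.2)) (O ×ˢ (J ×ˢ (J' ×ˢ I))) := by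
  intro p hp q hq
  refine (h (p.1, p.2.2.2) ⟨hp.1, hp.2.2.2⟩ (q.1, q.2.2.2) ⟨hq.1, hq.2.2.2⟩).trans
    (mul_le_mul_of_nonneg_left ?_ hL)
  have e1 : dist p.2.2.2 q.2.2.2 ≤ dist p.2 q.2 :=
    le_trans (le_max_right (dist p.2.2.1 q.2.2.1) (dist p.2.2.2 q.2.2.2))
      (le_max_right (dist p.2.1 q.2.1) (dist p.2.2 q.2.2))
  have e2 : max (dist p.1 q.1) (dist p.2.2.2 q.2.2.2) ≤ max (dist p.1 q.1) (dist p.2 q.2) :=
    max_le_max le_rfl e1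
  exact e2

/-! ### The theorem -/

theorem e3_gap {O : Set Pl} (hO : IsCompact O) (h5 : O.Nonempty) {τ0 : Pl → ℝ} {L a : ℝ}
    (hL : Lip L τ0 O) (h : ∀ X ∈ O, a < τ0 X) : ∃ m : ℝ, 0 < m ∧ ∀ X ∈ O, a + m ≤ τ0 X := by
  obtain ⟨Xm, hXm, hmin⟩ := hO.exists_isMinOn h5 (e3_cont hL)
  refine ⟨τ0 Xm - a, by linarith [h Xm hXm], fun X hX => ?_⟩
  have := hmin hX
  simp only [mem_ofPred_eq] at this
  linarith

theorem mid_event_pr (C : ℝ) (hC : 0 < C ∧ C ≤ 1) (i : Fin 2) (O : Set Pl) (l : LD) (τ0 : Pl → ℝ)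
    (h : RArc C i O l τ0) (y : ℂ) (τe he : ℝ) (n : ℕ) (τm : Fin n → ℝ) (hhe : 0 < he)
    (h1 : ∀ X ∈ O, 0 < τe - he ∧ τe + he < τ0 X)
    (h2 : ∀ j, ∀ X ∈ O, 0 < τm j - he ∧ τm j + he < τ0 X)
    (h3 : ∀ X ∈ O, ∀ τ ∈ Ioo 0 (τ0 X), (∀ j, he / 2 < |τ - τm j|) →
      (Zd i (limD C X (l.χ X)) τ).1 ≠ 0)
    -- `O` and the window are small: the bodies stay in a disc away from the sun
    (h4 : ∃ x : ℂ, ∀ X ∈ O, ∀ τ ∈ Icc (τe - he) (τe + he),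
      ‖(Zd i (limD C X (l.χ X)) τ).2.2.1 - x‖ ≤ ‖x‖ / 2) (h5 : O.Nonempty) :
    EvW C (SM i y) O l (Fin n) (midG C i l.χ y) τe he
      (fun _ q => (Zd i (limD C q.1 (l.χ q.1)) q.2).1) τm := by
  obtain ⟨X0, hX0⟩ := h5
  have hT : 0 ≤ τ0 X0 := by
    have := h1 X0 hX0
    linarith [this.1, this.2]
  obtain ⟨Λ, c, hΛ, hc, hreg, hbox⟩ := zd_reg hC h (τ0 X0) hT
  obtain ⟨x0, hx0⟩ := h4
  have hwe : Icc (τe - he) (τe + he) ⊆ Icc 0 (τ0 X0) := by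
    intro t ht
    have := h1 X0 hX0
    exact ⟨by linarith [ht.1, this.1], by linarith [ht.2, this.2]⟩
  have hwm : ∀ j, Icc (τm j - he) (τm j + he) ⊆ Icc 0 (τ0 X0) := by
    intro j t ht
    have := h2 j X0 hX0
    exact ⟨by linarith [ht.1, this.1], by linarith [ht.2, this.2]⟩
  have hte : τe ∈ Icc (τe - he) (τe + he) := ⟨by linarith, by linarith⟩
  have hx00 : x0 ≠ 0 := by
    rintro rfl
    have h6 := hx0 X0 hX0 τe hte
    rw [norm_zero, zero_div, sub_zero] at h6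
    have h7 := (hbox X0 hX0 τe (hwe hte)).2
    linarith
  have hx0n : 0 < ‖x0‖ := norm_pos_iff.mpr hx00
  -- the map `(X, t) ↦ Zd`
  set zf : Pl × ℝ → LCS := fun q => Zd i (limD C q.1 (l.χ q.1)) q.2 with hzf
  have hmid : midG C i l.χ y = e3_K y ∘ zf := by
    funext q
    simp only [midG, e3_K, Function.comp_apply, hzf]
  set R : ℝ := 1 / c + 1 with hRd
  have hR1 : 1 ≤ R := by
    have : 0 < 1 / c := by positivity
    linarith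
  obtain ⟨LK, hLK, hKreg⟩ := e3_K_reg y R
  have hzR : ∀ X ∈ O, ∀ τ ∈ Icc 0 (τ0 X0), ‖zf (X, τ)‖ ≤ 1 / c := fun X hX τ hτ =>
    (hbox X hX τ hτ).1
  obtain ⟨φ, Lφ, hLφ, hφb, hφl, hφ⟩ := e3_data R hR1 y x0 hx00
  obtain ⟨Lz, -, hLτ, -, -⟩ := h.z.lip
  obtain ⟨m, hm, hm'⟩ := e3_gap h.z.compact ⟨X0, hX0⟩ hLτ (a := τe + he)
    (fun X hX => (h1 X hX).2)
  have hτe0 : 0 < τe - he := (h1 X0 hX0).1
  obtain ⟨τa, σ, hτa, hτa1, -, hwin, hσ, hpk⟩ := arc_pkg hC h he hhe n τm h2 h3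
    (min (τe - he) m) (lt_min hτe0 hm)
  obtain ⟨σ', μ1, hσ', hμ1, hμσ, hleg⟩ := leg_out C hC
  have hwe' : ∀ X ∈ O, Icc (τe - he) (τe + he) ⊆ Icc τa (τ0 X - τa) := by
    intro X hX t ht
    have a1 := hτa1.trans (min_le_left _ _)
    have a2 := hτa1.trans (min_le_right _ _)
    have a3 := hm' X hX
    exact ⟨by linarith [ht.1], by linarith [ht.2]⟩
  have hwm' : ∀ j, ∀ X ∈ O, Icc (τm j - he) (τm j + he) ⊆ Icc τa (τ0 X - τa) := by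
    intro j X hX t ht
    have a1 := hwin j X hX
    exact ⟨by linarith [ht.1, a1.1], by linarith [ht.2, a1.2]⟩
  refine ⟨h.z.compact, hhe, ?_, h.cd, fun r _ p hp => ⟨hp.1, hp.2.1⟩, ?_, ?_⟩
  -- regularity
  · obtain ⟨L, hL, hF, hχ, hθ⟩ := h.reg
    have hg : Reg (LK * (Λ + Λ ^ 2)) (e3_K y ∘ zf) (O ×ˢ Icc (τe - he) (τe + he)) := by
      refine reg_comp (reg_mono hreg le_rfl (prod_mono_right hwe)) hKreg ?_ hΛ hLK
      intro q hq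
      show ‖zf q‖ ≤ R
      have := hzR q.1 hq.1 q.2 (hwe hq.2)
      rw [hRd]
      exact le_trans this (by linarith)
    have hA : 0 ≤ LK * (Λ + Λ ^ 2) := by positivity
    refine ⟨L + Λ + LK * (Λ + Λ ^ 2), by positivity, reg_mono hF (by linarith) subset_rfl,
      reg_mono hχ (by linarith) subset_rfl, reg_mono hθ (by linarith) subset_rfl, ?_,
      fun j => ?_⟩
    · rw [hmid]
      exact reg_mono hg (by linarith) subset_rfl
    · have h6 : Reg Λ zf (O ×ˢ Icc (τm j - he) (τm j + he)) :=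
        reg_mono hreg le_rfl (prod_mono_right (hwm j))
      refine reg_mono (L := Λ) ?_ (by linarith) subset_rfl
      constructor
      · intro p hp q hq
        refine le_trans ?_ (h6.1 p hp q hq)
        exact norm_fst_le (zf p - zf q)
      · intro p hp q hq p' hp' q' hq'
        refine le_trans ?_ (h6.2 p hp q hq p' hp' q' hq')
        exact norm_fst_le (zf p - zf q - zf p' + zf q')
  -- monotonicity
  · intro r r' _ hrr' p hp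
    exact ⟨hp.1, hp.2.1.trans_le hrr', hp.2.2.1, hp.2.2.2.trans_le hrr'⟩
  -- realization
  intro ε hε
  set A : ℝ := LK * (1 + 2 * (Λ + 1)) with hA
  have hA0 : 0 ≤ A := by positivity
  set A' : ℝ := R + Lφ * (Λ + 1) with hA'
  have hA'0 : 0 < A' := by
    have : 0 ≤ Lφ * (Λ + 1) := by positivity
    linarith
  set ε' : ℝ := min (min 1 ε) (min (min (‖x0‖ / 4) (c / 2)) (ε / (2 * (A + 1)))) with hε'
  have hε'0 : 0 < ε' := by
    refine lt_min (lt_min one_pos hε) (lt_min (lt_min (by positivity) (by positivity)) ?_)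
    positivity
  have e1 : ε' ≤ 1 := (min_le_left _ _).trans (min_le_left _ _)
  have e2 : ε' ≤ ε := (min_le_left _ _).trans (min_le_right _ _)
  have e3 : ε' ≤ ‖x0‖ / 4 := ((min_le_right _ _).trans (min_le_left _ _)).trans (min_le_left _ _)
  have e4 : ε' ≤ c / 2 := ((min_le_right _ _).trans (min_le_left _ _)).trans (min_le_right _ _)
  have e5 : A * ε' ≤ ε / 2 := by
    have h6 : ε' ≤ ε / (2 * (A + 1)) := (min_le_right _ _).trans (min_le_right _ _)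
    rw [le_div_iff₀ (by positivity)] at h6
    nlinarith
  set δ : ℝ := ε / (2 * A') with hδ
  have hδ0 : 0 < δ := by positivity
  have e6 : δ * A' = ε / 2 := by
    rw [hδ]
    field_simp
  obtain ⟨μ0, hμ0, hμ0σ, hμ⟩ := hpk ε' hε'0
  refine ⟨min (min μ0 μ1) (min 1 (δ ^ 2 / 2)),
    lt_min (lt_min hμ0 hμ1) (lt_min one_pos (by positivity)), ?_⟩
  rintro ⟨μ, z⟩ ⟨hp1, hp2, hp3, hp4⟩
  simp only at hp1 hp2 hp3 hp4
  have hμa : μ < μ0 := hp2.trans_le ((min_le_left _ _).trans (min_le_left _ _))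
  have hμb : μ < μ1 := hp2.trans_le ((min_le_left _ _).trans (min_le_right _ _))
  set ym : ℂ := if i = 0 then z else z⁻¹ with hym
  obtain ⟨s, hs, C1, hC1, hφs⟩ := hφ ym
  have hsδ : ‖s‖ ≤ δ := by
    have a1 : ‖ym - y‖ ≤ 1 := (hp4.trans_le ((min_le_right _ _).trans (min_le_left _ _))).le
    have a2 : ‖ym - y‖ ≤ δ ^ 2 / 2 :=
      (hp4.trans_le ((min_le_right _ _).trans (min_le_right _ _))).le
    have a3 := norm_nonneg (ym - y)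
    have a4 : ‖s‖ ^ 2 ≤ δ ^ 2 := by nlinarith
    exact (pow_le_pow_iff_left₀ (norm_nonneg s) hδ0.le two_ne_zero).mp a4
  obtain ⟨w, Z, hw, hP, hZ, hall⟩ := hμ μ hp1 hμa
  -- the set of the event window
  set Se : Set (Pl × ℝ × ℝ × ℝ) := O ×ˢ (JJ ×ˢ (JJ ×ˢ Icc (τe - he) (τe + he))) with hSe
  have hZe : Near ε' Z (fun p => zf (p.1, p.2.2.2)) Se := by
    refine near_mono hZ le_rfl ?_
    intro p hp
    exact ⟨hp.1, hp.2.1, hp.2.2.1, hwe' p.1 hp.1 hp.2.2.2⟩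
  have hLz : Lip Λ (fun p : Pl × ℝ × ℝ × ℝ => zf (p.1, p.2.2.2)) Se :=
    e3_lip4 hΛ (reg_mono hreg le_rfl (prod_mono_right hwe)).1
  have hLZ : Lip (Λ + ε') Z Se := lip_of_near hZe hLz
  have hLZ1 : Lip (Λ + 1) Z Se := by
    intro p hp q hq
    exact (hLZ p hp q hq).trans (mul_le_mul_of_nonneg_right (by linarith) dist_nonneg)
  have hLz1 : Lip (Λ + 1) (fun p : Pl × ℝ × ℝ × ℝ => zf (p.1, p.2.2.2)) Se := by
    intro p hp q hq
    exact (hLz p hp q hq).trans (mul_le_mul_of_nonneg_right (by linarith) dist_nonneg)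
  have hzfR : ∀ p ∈ Se, ‖zf (p.1, p.2.2.2)‖ ≤ 1 / c := fun p hp =>
    hzR p.1 hp.1 p.2.2.2 (hwe hp.2.2.2)
  have hZR : ∀ p ∈ Se, ‖Z p‖ ≤ R := by
    intro p hp
    have a1 := hZe.1 p hp
    have a2 := hzfR p hp
    have a3 := norm_le_norm_add_norm_sub (zf (p.1, p.2.2.2)) (Z p)
    have a4 : ‖zf (p.1, p.2.2.2) - Z p‖ ≤ ε' := by
      rw [norm_sub_rev]
      exact a1
    rw [hRd]
    linarith
  have hZx : ∀ p ∈ Se, ‖(Z p).2.2.1 - (zf (p.1, p.2.2.2)).2.2.1‖ ≤ ε' := fun p hp =>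
    (e3_norm_x (Z p - zf (p.1, p.2.2.2))).trans (hZe.1 p hp)
  have hZOm : ∀ p ∈ Se, Z p ∈ e3_Om R x0 := by
    intro p hp
    refine ⟨hZR p hp, ?_⟩
    have a1 := hZx p hp
    have a2 := hx0 p.1 hp.1 p.2.2.2 hp.2.2.2
    have a3 := norm_sub_le_norm_sub_add_norm_sub (Z p).2.2.1 (zf (p.1, p.2.2.2)).2.2.1 x0
    have a4 : ‖(zf (p.1, p.2.2.2)).2.2.1 - x0‖ ≤ ‖x0‖ / 2 := a2
    linarith
  have hZc : ∀ p ∈ Se, c / 2 ≤ ‖(Z p).2.2.1‖ := by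
    intro p hp
    have a1 := hZx p hp
    have a2 : c ≤ ‖(zf (p.1, p.2.2.2)).2.2.1‖ := (hbox p.1 hp.1 p.2.2.2 (hwe hp.2.2.2)).2
    have a3 := norm_sub_norm_le (zf (p.1, p.2.2.2)).2.2.1 (Z p).2.2.1
    rw [norm_sub_rev] at a3
    linarith
  refine ⟨w, fun q x x' => (∀ j, ∀ t ∈ Icc (τm j - he) (τm j + he),
      (Z (q.1, q.2.1, q.2.2, t)).1 ≠ 0) → ∀ τ ∈ Icc τa (τ0 q.1 - τa),
      ReachR (μ ^ 2) x (lcSt i (Z (q.1, q.2.1, q.2.2, τ))) ∧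
      ReachR (μ ^ 2) (lcSt i (Z (q.1, q.2.1, q.2.2, τ))) x',
    fun q => e3_K y (Z q) + s * φ (Z q), fun _ q => (Z q).1, ?_, ?_, ?_, ?_, ?_⟩
  · exact ⟨near_mono hw.P e2 subset_rfl, near_mono hw.Θ e2 subset_rfl,
      near_mono hw.Θ' e2 subset_rfl⟩
  · intro X hX b hb b' hb' hb0 hb0' N hMat hmk τ hτ
    have a1 := (hall X hX b hb b' hb' hb0 hb0' hmk τ hτ).2 μ ⟨le_rfl, by linarith⟩
    have a2 := (hleg μ hp1 hμb X (CD_sub C (h.cd X hX).1) b hb hb0).2.1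
      (w.Θ (X, b, b')) N hMat
    have a3 := (hleg μ hp1 hμb (w.P (X, b, b')) (hP X hX b hb b' hb') b' hb' hb0').2.2.2
      (w.Θ' (X, b, b'))
    rw [← a2, a3] at a1
    exact a1
  · -- closeness of the event function
    have a1 : Near (LK * ε' * (1 + 2 * (Λ + 1))) (e3_K y ∘ Z)
        (e3_K y ∘ fun p : Pl × ℝ × ℝ × ℝ => zf (p.1, p.2.2.2)) Se := by
      refine near_comp_outer hZe (S' := {Z : LCS | ‖Z‖ ≤ R}) hZR ?_ hLZ1 hLz1 hKreg hLK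
        hε'0.le (by linarith)
      intro p hp
      show ‖zf (p.1, p.2.2.2)‖ ≤ R
      have := hzfR p hp
      rw [hRd]
      linarith
    have a2 := e3_small (s := s) (δ := δ) hZOm hLZ1 hLφ hφb hφl (by linarith) (by linarith)
      hsδ
    have a3 := near_add a1 a2
    refine near_mono (ε := LK * ε' * (1 + 2 * (Λ + 1)) + δ * (R + Lφ * (Λ + 1))) ?_ ?_
      subset_rfl
    · rw [hmid]
      simpa using a3
    · rw [← hA', e6]
      have a4 : LK * ε' * (1 + 2 * (Λ + 1)) = A * ε' := by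
        rw [hA]
        ring
      rw [a4]
      linarith
  · -- closeness of the marks
    intro j
    have a1 : Near ε' Z (fun p => zf (p.1, p.2.2.2))
        (O ×ˢ (JJ ×ˢ (JJ ×ˢ Icc (τm j - he) (τm j + he)))) := by
      refine near_mono hZ le_rfl ?_
      intro p hp
      exact ⟨hp.1, hp.2.1, hp.2.2.1, hwm' j p.1 hp.1 hp.2.2.2⟩
    exact near_mono (near_fst a1) e2 subset_rfl
  · -- the hit relation
    set Λ0 : ℝ := 1 / (c / 2) + (‖z‖ + 1) * ‖z‖ / (c / 2) with hΛ0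
    have hΛ00 : 0 ≤ Λ0 := by positivity
    refine ⟨Λ0 * C1 + 1, by positivity, ?_⟩
    intro X hX b hb b' hb' hmk t ht h' hh' hlt x x' hR
    have hp : (X, b, b', t) ∈ Se := ⟨hX, hb, hb', ht⟩
    have a1 := hR hmk t (hwe' X hX ht)
    refine e3_hitR a1.1 a1.2 ?_
    set g : ℂ := e3_K y (Z (X, b, b', t)) + s * φ (Z (X, b, b', t)) with hg
    have hg0 : 0 ≤ ‖g‖ := norm_nonneg g
    have a2 : ‖g‖ ≤ 1 := by
      have a3 : 0 ≤ Λ0 * C1 * ‖g‖ := by positivity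
      have a4 : (Λ0 * C1 + 1) * ‖g‖ = Λ0 * C1 * ‖g‖ + ‖g‖ := by ring
      have a5 : (Λ0 * C1 + 1) * ‖g‖ < h' := hlt
      linarith
    have a3 := hφs (Z (X, b, b', t)) (hZOm _ hp) a2
    refine e3_shape i hp3 (by positivity : 0 < c / 2) (hZc _ hp) hh' ?_
    have a4 := mul_le_mul_of_nonneg_left a3 hΛ00
    have a5 : Λ0 * (C1 * ‖g‖) ≤ (Λ0 * C1 + 1) * ‖g‖ := by
      have a6 : (Λ0 * C1 + 1) * ‖g‖ = Λ0 * (C1 * ‖g‖) + ‖g‖ := by ring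
      rw [a6]
      exact le_add_of_nonneg_right hg0
    exact (a4.trans a5).trans_lt hlt

end

end Pool.Agent.HS

namespace Pool.Agent.HS
open Set Filter Topology Classical

theorem mid_event (C : ℝ) (hC : 0 < C ∧ C ≤ 1) (i : Fin 2) (O : Set Pl) (l : LD) (τ0 : Pl → ℝ)
    (h : RArc C i O l τ0) (y : ℂ) (τe he : ℝ) (n : ℕ) (τm : Fin n → ℝ) (hhe : 0 < he)
    (h1 : ∀ X ∈ O, 0 < τe - he ∧ τe + he < τ0 X)
    (h2 : ∀ j, ∀ X ∈ O, 0 < τm j - he ∧ τm j + he < τ0 X)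
    (h3 : ∀ X ∈ O, ∀ τ ∈ Ioo 0 (τ0 X), (∀ j, he / 2 < |τ - τm j|) →
      (Zd i (limD C X (l.χ X)) τ).1 ≠ 0)
    (h4 : ∃ x : ℂ, ∀ X ∈ O, ∀ τ ∈ Icc (τe - he) (τe + he),
      ‖(Zd i (limD C X (l.χ X)) τ).2.2.1 - x‖ ≤ ‖x‖ / 2) (h5 : O.Nonempty) :
    EvW C (SM i y) O l (Fin n) (midG C i l.χ y) τe he
      (fun _ q => (Zd i (limD C q.1 (l.χ q.1)) q.2).1) τm :=
  @Pool.Agent.HS.mid_event_pr C hC i O l τ0 h y τe he n τm hhe h1 h2 h3 h4 h5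

end Pool.Agent.HS
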