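import Pool.Agent.Lib_helper60.HSF.D_WE2
import Pool.Agent.Lib_helper60.HSF.IO_K4
import Pool.Agent.Lib_helper60.HSF.IO_I9
import Pool.Agent.Lib_helper60.HSF.E_E1d
import Pool.Agent.Lib_helper60.HSF.IO_I8
import Pool.Agent.Lib_helper60.HSF.IO_R2
import Pool.Agent.Lib_helper60.HSF.IO_I1
import Pool.Agent.Lib_helper60.HSF.IO_K7

/-!
# HS, block E4a: the two legs of an encounter
-/

namespace Pool.Agent.HS.E4A

noncomputable section

open Set Filter Topology Classical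

/-! ## The algebra of the start values -/

theorem exp_arctan (x : ℝ) : Complex.exp ((Real.arctan x : ℝ) * Complex.I) *
    (Real.sqrt (1 + x ^ 2) : ℝ) = 1 + (x : ℝ) * Complex.I := by
  have h0 : 0 < 1 + x ^ 2 := by positivity
  have hs : 0 < Real.sqrt (1 + x ^ 2) := Real.sqrt_pos.2 h0
  rw [Complex.exp_mul_I, ← Complex.ofReal_cos, ← Complex.ofReal_sin, Real.cos_arctan,
    Real.sin_arctan]
  have hne : ((Real.sqrt (1 + x ^ 2) : ℝ) : ℂ) ≠ 0 := by exact_mod_cast hs.ne'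
  push_cast
  field_simp

theorem exp_arctan_neg (x : ℝ) : Complex.exp (-((Real.arctan x : ℝ) * Complex.I)) *
    (Real.sqrt (1 + x ^ 2) : ℝ) = 1 - (x : ℝ) * Complex.I := by
  have h := exp_arctan (-x)
  rw [Real.arctan_neg, neg_sq] at h
  rw [← neg_mul, ← Complex.ofReal_neg, h]
  push_cast
  ring

theorem amp_neg (κ β : ℝ) : amp κ (-β) = amp κ β := by
  unfold amp
  rw [neg_sq]

theorem flip_alg_pr (d : Dt) (β : ℝ) (hκ : 0 < d.2.2.1) :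
    A0 (flipD d β).2.2.1 (flipD d β).2.2.2 (-β) = - D0 d.2.2.1 d.2.2.2 β ∧
    D0 (flipD d β).2.2.1 (flipD d β).2.2.2 (-β) = - A0 d.2.2.1 d.2.2.2 β := by
  obtain ⟨-, -, hamp, -, -, hamp2, -, -⟩ := A0_alg d.2.2.1 d.2.2.2 β hκ
  set κ := d.2.2.1 with hκdef
  set χ := d.2.2.2 with hχdef
  have hf1 : (flipD d β).2.2.1 = κ := rfl
  have hf2 : (flipD d β).2.2.2 = χ + 2 * Real.arctan (κ * β) := rfl
  rw [hf1, hf2]
  unfold A0 D0
  rw [amp_neg]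
  have hE : Complex.exp (((χ + 2 * Real.arctan (κ * β)) / 2 : ℝ) * Complex.I) =
      Complex.exp ((χ / 2 : ℝ) * Complex.I) *
        Complex.exp ((Real.arctan (κ * β) : ℝ) * Complex.I) := by
    rw [← Complex.exp_add, ← add_mul, ← Complex.ofReal_add]
    congr 3
    ring
  rw [hE]
  have ha := exp_arctan (κ * β)
  have hb := exp_arctan_neg (κ * β)
  have hinv : Complex.exp ((Real.arctan (κ * β) : ℝ) * Complex.I) *
      Complex.exp (-((Real.arctan (κ * β) : ℝ) * Complex.I)) = 1 := by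
    rw [← Complex.exp_add, add_neg_cancel, Complex.exp_zero]
  set e := Complex.exp ((χ / 2 : ℝ) * Complex.I) with he
  set f := Complex.exp ((Real.arctan (κ * β) : ℝ) * Complex.I) with hf
  set f' := Complex.exp (-((Real.arctan (κ * β) : ℝ) * Complex.I)) with hf'
  set s := Real.sqrt (1 + (κ * β) ^ 2) with hs
  have hs' : Real.sqrt (1 + κ ^ 2 * β ^ 2) = s := by rw [hs, mul_pow]
  rw [hs'] at hamp2
  set m := amp κ β with hm
  have hs2 : s = 2 * κ ^ 2 * m ^ 2 := by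
    rw [hamp2]
    field_simp
  have hκc : (κ : ℂ) ≠ 0 := by exact_mod_cast hκ.ne'
  have hmc : (m : ℂ) ≠ 0 := by exact_mod_cast hamp.ne'
  rw [hs2] at ha hb
  push_cast at ha hb ⊢
  constructor
  · have h1 : (-1 - (κ : ℂ) * β * Complex.I) = -(f * (2 * κ ^ 2 * m ^ 2)) := by
      rw [ha]; ring
    rw [h1]
    field_simp
  · have h1 : (-1 - (κ : ℂ) * -β * Complex.I) = -(f' * (2 * κ ^ 2 * m ^ 2)) := by
      rw [hb]; ring
    rw [h1]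
    field_simp
    linear_combination (-1 : ℂ) * (e * hinv)

/-! ## Positions on the legs -/

theorem flip_DD {c : ℝ} {d : Dt} (hd : d ∈ DD c) (β : ℝ) : flipD d β ∈ DD c := by
  obtain ⟨h1, h2, h3, h4, h5⟩ := hd
  refine ⟨h1, h2, ?_, h4, h5⟩
  show ‖-d.2.1‖ ≤ 1 / c
  rw [norm_neg]
  exact h3

theorem neg_JJ {β : ℝ} (h : β ∈ JJ) : -β ∈ JJ := by
  unfold JJ at h ⊢
  rw [mem_Icc] at h ⊢
  constructor <;> linarith [h.1, h.2]

theorem hit_alg (R ξ z υ0 V w : ℂ) {G Lf : ℝ} (hG : 0 < G) (hLf : 1 ≤ Lf)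
    (hz : υ0 ^ 2 * (mb + ma * z) = z - 1) (hξ : ξ = (G * V) ^ 2) (hR : ‖R‖ ≤ Lf)
    (hw : w = υ0 / (G : ℂ) * R ^ (1 / 2 : ℂ)) :
    ‖(R + mb * ξ) - z * (R - ma * ξ)‖ ≤
      ‖(mb + ma * z : ℂ)‖ * G ^ 2 * ‖V - w‖ * (‖V - w‖ + 2 * Lf * ‖υ0 / (G : ℂ)‖) := by
  have hGc : (G : ℂ) ≠ 0 := by exact_mod_cast hG.ne'
  have hsq : (R ^ (1 / 2 : ℂ)) ^ 2 = R := by
    rw [← Complex.cpow_nat_mul]
    norm_num
  have hw2 : (G : ℂ) ^ 2 * w ^ 2 = υ0 ^ 2 * R := by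
    rw [hw, mul_pow, div_pow, hsq]
    field_simp
  have e1 : (R + mb * ξ) - z * (R - ma * ξ) =
      (mb + ma * z) * ((G : ℂ) ^ 2 * ((V - w) * (V + w))) := by
    have : (R + mb * ξ) - z * (R - ma * ξ) = (mb + ma * z) * ξ - (z - 1) * R := by ring
    rw [this, ← hz, hξ]
    linear_combination ((mb : ℂ) + ma * z) * hw2
  have hnR : ‖R ^ (1 / 2 : ℂ)‖ ≤ Lf := by
    have h1 : ‖R ^ (1 / 2 : ℂ)‖ ^ 2 = ‖R‖ := by
      rw [← norm_pow, hsq]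
    have h0 : 0 ≤ ‖R ^ (1 / 2 : ℂ)‖ := norm_nonneg _
    nlinarith
  have hwn : ‖w‖ ≤ Lf * ‖υ0 / (G : ℂ)‖ := by
    rw [hw, norm_mul, mul_comm]
    exact mul_le_mul_of_nonneg_right hnR (norm_nonneg _)
  have hVw : ‖V + w‖ ≤ ‖V - w‖ + 2 * Lf * ‖υ0 / (G : ℂ)‖ := by
    have : V + w = (V - w) + 2 * w := by ring
    rw [this]
    refine (norm_add_le _ _).trans ?_
    rw [norm_mul, Complex.norm_ofNat]
    linarith
  rw [e1, norm_mul, norm_mul, norm_mul, norm_pow, Complex.norm_real, Real.norm_of_nonneg hG.le,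
    ← mul_assoc, ← mul_assoc]
  refine mul_le_mul_of_nonneg_left hVw ?_
  positivity

theorem x3_innSt (μ : ℝ) (d : Dt) (β g : ℝ) : x3 (innSt μ d β g) =
    (innV μ d β g).2.2.1 + mb * (g * ((innV μ d β g).1 + (innV μ d β g).2.1)) ^ 2 := rfl

theorem x2_innSt (μ : ℝ) (d : Dt) (β g : ℝ) : x2 (innSt μ d β g) =
    (innV μ d β g).2.2.1 - ma * (g * ((innV μ d β g).1 + (innV μ d β g).2.1)) ^ 2 := rfl

/-- positions on the legs: distance to the shape `z` in terms of the leg variables -/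
theorem leg_hit_pr (c : ℝ) (hc : 0 < c) : ∃ σ L : ℝ, 0 < σ ∧ 1 ≤ L ∧
    ∀ μ G ϖ, 0 < μ → μ ≤ σ → 0 < G → 0 < ϖ → μ / 2 ≤ G * ϖ → G * ϖ ≤ σ →
    ∀ d ∈ DD c, ∀ β ∈ JJ, ∀ z υ0 : ℂ, υ0 ^ 2 * (mb + ma * z) = z - 1 →
      ‖x3 (legSt μ G d β ϖ) - z * x2 (legSt μ G d β ϖ)‖ ≤
        ‖(mb + ma * z : ℂ)‖ * G ^ 2 *
          ‖(legV μ G d β ϖ).1 - υ0 / (G : ℂ) * (legV μ G d β ϖ).2 ^ (1/2 : ℂ)‖ *
          (‖(legV μ G d β ϖ).1 - υ0 / (G : ℂ) * (legV μ G d β ϖ).2 ^ (1/2 : ℂ)‖ +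
            L * ‖υ0 / (G : ℂ)‖) ∧
      1 / L ≤ ‖x2 (legSt μ G d β ϖ)‖ := by
  obtain ⟨σ, Lf, hσ, hσ1, hLf, H⟩ := leg_facts c hc
  refine ⟨σ / 2, 2 * Lf + 4 / c, by positivity, ?_, ?_⟩
  · have : 0 < 4 / c := by positivity
    linarith
  intro μ G ϖ hμ hμσ hG hϖ hg1 hg2 d hd β hβ z υ0 hz
  have hL1 : 2 * Lf ≤ 2 * Lf + 4 / c := by
    have : 0 < 4 / c := by positivity
    linarith
  have hL2 : 1 / (2 * Lf + 4 / c) ≤ c / 4 := by
    rw [div_le_div_iff₀ (by positivity) (by norm_num)]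
    have : c * (2 * Lf + 4 / c) = 2 * c * Lf + 4 := by field_simp
    rw [this]
    have : 0 ≤ 2 * c * Lf := by positivity
    linarith
  have hup : ∀ a b : ℝ, 0 ≤ a → 0 ≤ b → ‖(mb + ma * z : ℂ)‖ * G ^ 2 * a *
      (a + 2 * Lf * b) ≤ ‖(mb + ma * z : ℂ)‖ * G ^ 2 * a * (a + (2 * Lf + 4 / c) * b) := by
    intro a b ha hb
    refine mul_le_mul_of_nonneg_left ?_ (by positivity)
    have := mul_le_mul_of_nonneg_right hL1 hb
    linarith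
  have hGc : (G : ℂ) ≠ 0 := by exact_mod_cast hG.ne'
  by_cases hcase : μ ≤ G * ϖ
  · have hF := H μ (G * ϖ) hμ hcase (by linarith) d hd β hβ
    simp only at hF
    obtain ⟨-, -, -, -, -, -, -, hR, -, -, -, -, hx2⟩ := hF
    have hSt : legSt μ G d β ϖ = innSt μ d β (G * ϖ) := by unfold legSt; rw [if_pos hcase]
    have hV : legV μ G d β ϖ = ((ϖ : ℂ) * ((innV μ d β (G * ϖ)).1 + (innV μ d β (G * ϖ)).2.1),
      (innV μ d β (G * ϖ)).2.2.1) := by unfold legV; rw [if_pos hcase]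
    rw [hSt, hV, x3_innSt, x2_innSt]
    constructor
    · refine le_trans (hit_alg _ _ z υ0 _ _ hG hLf hz ?_ hR rfl) (hup _ _ (norm_nonneg _)
        (norm_nonneg _))
      push_cast
      ring
    · exact le_trans hL2 hx2
  · push Not at hcase
    have hgp : 0 < G * ϖ := by positivity
    have hg' : μ ≤ μ ^ 2 / (G * ϖ) := by
      rw [le_div_iff₀ hgp]
      nlinarith
    have hg'2 : μ ^ 2 / (G * ϖ) ≤ σ := by
      rw [div_le_iff₀ hgp]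
      nlinarith
    have hF := H μ (μ ^ 2 / (G * ϖ)) hμ hg' hg'2 (flipD d β) (flip_DD hd β) (-β) (neg_JJ hβ)
    simp only at hF
    obtain ⟨-, -, -, -, -, -, -, hR, -, -, -, -, hx2⟩ := hF
    have hnc : ¬ μ ≤ G * ϖ := not_le.2 hcase
    have hSt : legSt μ G d β ϖ = rev (innSt μ (flipD d β) (-β) (μ ^ 2 / (G * ϖ))) := by
      unfold legSt; rw [if_neg hnc]
    have hV : legV μ G d β ϖ = (-((μ ^ 2 / (G * ϖ) / G : ℝ) *
        ((innV μ (flipD d β) (-β) (μ ^ 2 / (G * ϖ))).1 +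
        (innV μ (flipD d β) (-β) (μ ^ 2 / (G * ϖ))).2.1)),
      (innV μ (flipD d β) (-β) (μ ^ 2 / (G * ϖ))).2.2.1) := by unfold legV; rw [if_neg hnc]
    rw [hSt, hV]
    have r3 : ∀ y : St, x3 (rev y) = x3 y := fun y => rfl
    have r2 : ∀ y : St, x2 (rev y) = x2 y := fun y => rfl
    rw [r3, r2, x3_innSt, x2_innSt]
    constructor
    · refine le_trans (hit_alg _ _ z υ0 _ _ hG hLf hz ?_ hR rfl) (hup _ _ (norm_nonneg _)
        (norm_nonneg _))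
      have : ((μ ^ 2 / (G * ϖ) / G : ℝ) : ℂ) = ((μ ^ 2 / (G * ϖ) : ℝ) : ℂ) / (G : ℂ) := by
        push_cast; ring
      rw [this]
      field_simp
    · exact le_trans hL2 hx2

/-! ## The orbit passes through the states of both legs -/

/-- shift of the direction by a multiple of `2π` -/
theorem innSt_shift {c μ g : ℝ} (hrot : ∀ α : ℝ, ∀ d ∈ DD c, rotD α d ∈ DD c → ∀ β ∈ JJ,
      innSt μ (rotD α d) β g = rot (Complex.exp (α * Complex.I)) (innSt μ d β g)) {d d' : Dt}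
    (hd : d ∈ DD c) (k : ℤ) (h : d' = (d.1, d.2.1, d.2.2.1, d.2.2.2 + 2 * Real.pi * k)) {β : ℝ}
    (hβ : β ∈ JJ) : innSt μ d' β g = innSt μ d β g := by
  have hexp : Complex.exp ((2 * Real.pi * k : ℝ) * Complex.I) = 1 := by
    rw [Complex.exp_eq_one_iff]
    exact ⟨k, by push_cast; ring⟩
  have hd' : d' = rotD (2 * Real.pi * k) d := by
    unfold rotD
    rw [hexp, one_mul, one_mul, h]
  have hmem : rotD (2 * Real.pi * k) d ∈ DD c := by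
    rw [← hd', h]
    obtain ⟨h1, h2, h3, h4, h5⟩ := hd
    exact ⟨h1, h2, h3, h4, h5⟩
  rw [hd', hrot _ d hd hmem β hβ, hexp]
  unfold rot x3 x2 u3 u2
  simp

theorem rev_rev (y : St) : rev (rev y) = y := by
  unfold rev x3 x2 u3 u2
  simp

/-- the orbit passes through the states of both legs -/
theorem leg_pass_pr (C : ℝ) (hC : 0 < C ∧ C ≤ 1) : ∃ σ μ0 : ℝ, 0 < σ ∧ 0 < μ0 ∧ μ0 ≤ σ ∧
    ∀ μ G ϖ, 0 < μ → μ < μ0 → 0 < G → 0 < ϖ → μ / 2 ≤ G * ϖ → G * ϖ ≤ σ →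
    ∀ X ∈ CDw C, ∀ N χ, ∀ β ∈ JJ, β ≠ 0 → Match C μ X N β χ →
    ∀ s ∈ Icc (max (G * ϖ) (μ ^ 2 / (G * ϖ))) σ,
      Reach (μ ^ 2) (inLeg C μ X N β s) (legSt μ G (outD C μ X χ β) β ϖ) ∧
      Reach (μ ^ 2) (legSt μ G (outD C μ X χ β) β ϖ) (outLeg C μ X χ β s) ∧
      Reach (μ ^ 2) (inLeg C μ X N β s) (rev (legSt μ G (inD C μ X N β) (-β) ϖ)) ∧
      Reach (μ ^ 2) (rev (legSt μ G (inD C μ X N β) (-β) ϖ)) (outLeg C μ X χ β s) := by
  obtain ⟨σ1, μ1, hσ1, hμ1, hμσ1, H1⟩ := leg_out C hC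
  obtain ⟨μ2, hμ2, H2⟩ := enc_match C hC
  obtain ⟨μ3, L3, c, hμ3, hL3, hc, H3⟩ := out_near C hC
  obtain ⟨σ4, hσ4, H4⟩ := inn_rot c hc
  set σ := min σ1 σ4 with hσdef
  have hσ0 : 0 < σ := lt_min hσ1 hσ4
  have hs1 : σ ≤ σ1 := min_le_left _ _
  have hs4 : σ ≤ σ4 := min_le_right _ _
  refine ⟨σ, min (min μ1 μ2) (min μ3 σ), hσ0, lt_min (lt_min hμ1 hμ2) (lt_min hμ3 hσ0),
    le_trans (min_le_right _ _) (min_le_right _ _), ?_⟩
  intro μ G ϖ hμ hμ0 hG hϖ hg1 hg2 X hX N χ β hβ hβ0 hmat s hs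
  have k1 : μ < μ1 := lt_of_lt_of_le hμ0 (le_trans (min_le_left _ _) (min_le_left _ _))
  have k2 : μ < μ2 := lt_of_lt_of_le hμ0 (le_trans (min_le_left _ _) (min_le_right _ _))
  have k3 : μ < μ3 := lt_of_lt_of_le hμ0 (le_trans (min_le_right _ _) (min_le_left _ _))
  have kσ : μ < σ := lt_of_lt_of_le hμ0 (le_trans (min_le_right _ _) (min_le_right _ _))
  obtain ⟨hout, henc, hin, hinμ⟩ := H1 μ hμ k1 X hX β hβ hβ0
  obtain ⟨-, hkap⟩ := H2 μ hμ k2 X hX N χ β hβ hmat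
  have hDD := (H3 μ hμ k3).2 X hX
  have hsa : G * ϖ ≤ s := le_trans (le_max_left _ _) hs.1
  have hsb : μ ^ 2 / (G * ϖ) ≤ s := le_trans (le_max_right _ _) hs.1
  have hsσ : s ≤ σ1 := le_trans hs.2 hs1
  have hgp : 0 < G * ϖ := by positivity
  have hμs : μ ≤ s := by
    by_contra hcon
    push Not at hcon
    have h1 : G * ϖ < μ := lt_of_le_of_lt hsa hcon
    have h2 : μ < μ ^ 2 / (G * ϖ) := by
      rw [lt_div_iff₀ hgp]
      nlinarith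
    linarith
  have hmid : inLeg C μ X N β μ = outLeg C μ X χ β μ := by
    rw [hinμ N, henc χ N hmat]
  -- all states between the legs
  have hio : ∀ g ∈ Icc μ σ1, ∀ g' ∈ Icc μ σ1,
      Reach (μ ^ 2) (inLeg C μ X N β g) (outLeg C μ X χ β g') := by
    intro g hg g' hg'
    have h1 := hin N μ ⟨le_rfl, le_trans hg.1 hg.2⟩ g hg
    have h2 := hout χ μ ⟨le_rfl, le_trans hg.1 hg.2⟩ g' hg'
    rw [hmid] at h1
    exact reach_trans h1 h2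
  obtain ⟨k, hk⟩ := hmat
  unfold turn at hk
  by_cases hcase : μ ≤ G * ϖ
  · have hSt : legSt μ G (outD C μ X χ β) β ϖ = outLeg C μ X χ β (G * ϖ) := by
      unfold legSt outLeg; rw [if_pos hcase]
    have hSt2 : rev (legSt μ G (inD C μ X N β) (-β) ϖ) = inLeg C μ X N β (G * ϖ) := by
      unfold legSt inLeg; rw [if_pos hcase]
    rw [hSt, hSt2]
    have hgI : G * ϖ ∈ Icc μ σ1 := ⟨hcase, le_trans hsa hsσ⟩
    exact ⟨hio s ⟨hμs, hsσ⟩ _ hgI, hout χ _ hgI s ⟨hsa, hsσ⟩, hin N _ hgI s ⟨hsa, hsσ⟩,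
      hio _ hgI s ⟨hμs, hsσ⟩⟩
  · have hlt : G * ϖ < μ := not_le.1 hcase
    set g' := μ ^ 2 / (G * ϖ) with hg'
    have hg'μ : μ ≤ g' := by
      rw [hg', le_div_iff₀ hgp]
      nlinarith
    have hg'I : g' ∈ Icc μ σ1 := ⟨hg'μ, le_trans hsb hsσ⟩
    have hg'4 : g' ≤ σ4 := le_trans hsb (le_trans hs.2 hs4)
    have hrot := H4 μ g' hμ hg'μ hg'4
    have hSt : legSt μ G (outD C μ X χ β) β ϖ = inLeg C μ X N β g' := by
      unfold legSt inLeg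
      rw [if_neg hcase, ← hg']
      congr 1
      refine innSt_shift hrot (hDD N β hβ).2 (-k) ?_ (neg_JJ hβ)
      have hκ : (outD C μ X χ β).2.2.1 = kapI C μ (chart C X) N β := hkap
      have e1 : (flipD (outD C μ X χ β) β) = ((outD C μ X χ β).1, -(outD C μ X χ β).2.1,
        (outD C μ X χ β).2.2.1, (outD C μ X χ β).2.2.2 +
          2 * Real.arctan ((outD C μ X χ β).2.2.1 * β)) := rfl
      rw [e1, hκ]
      show (((chart C X).1 : ℂ), -Uenc C μ (chart C X).1 (chart C X).2 β,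
        kapI C μ (chart C X) N β, χ + 2 * Real.arctan (kapI C μ (chart C X) N β * β)) =
        (((chart C X).1 : ℂ), -Uenc C μ (chart C X).1 (chart C X).2 β,
        kapI C μ (chart C X) N β, N + Real.pi + 2 * Real.pi * ((-k : ℤ) : ℝ))
      congr 3
      push_cast
      linarith
    have hSt2 : rev (legSt μ G (inD C μ X N β) (-β) ϖ) = outLeg C μ X χ β g' := by
      unfold legSt outLeg
      rw [if_neg hcase, ← hg', rev_rev, neg_neg]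
      refine innSt_shift hrot (hDD χ β hβ).1 k ?_ hβ
      have hκ : kapE C μ (chart C X) χ β = kapI C μ (chart C X) N β := hkap
      have e1 : (flipD (inD C μ X N β) (-β)) = ((inD C μ X N β).1, -(inD C μ X N β).2.1,
        (inD C μ X N β).2.2.1, (inD C μ X N β).2.2.2 +
          2 * Real.arctan ((inD C μ X N β).2.2.1 * (-β))) := rfl
      rw [e1]
      show (((chart C X).1 : ℂ), -(-Uenc C μ (chart C X).1 (chart C X).2 β),
        kapI C μ (chart C X) N β,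
        N + Real.pi + 2 * Real.arctan (kapI C μ (chart C X) N β * (-β))) =
        (((chart C X).1 : ℂ), Uenc C μ (chart C X).1 (chart C X).2 β,
        kapE C μ (chart C X) χ β, χ + 2 * Real.pi * (k : ℝ))
      rw [neg_neg, hκ, mul_neg, Real.arctan_neg]
      congr 3
      linarith
    rw [hSt, hSt2]
    exact ⟨hin N _ hg'I s ⟨hsb, hsσ⟩, hio _ hg'I s ⟨hμs, hsσ⟩, hio s ⟨hμs, hsσ⟩ _ hg'I,
      hout χ _ hg'I s ⟨hsb, hsσ⟩⟩

end

end Pool.Agent.HS.E4A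

namespace Pool.Agent.HS
open Set Filter Topology Classical

theorem flip_alg (d : Dt) (β : ℝ) (hκ : 0 < d.2.2.1) :
    A0 (flipD d β).2.2.1 (flipD d β).2.2.2 (-β) = - D0 d.2.2.1 d.2.2.2 β ∧
    D0 (flipD d β).2.2.1 (flipD d β).2.2.2 (-β) = - A0 d.2.2.1 d.2.2.2 β :=
  @Pool.Agent.HS.E4A.flip_alg_pr d β hκ

end Pool.Agent.HS

namespace Pool.Agent.HS
open Set Filter Topology Classical

theorem leg_hit (c : ℝ) (hc : 0 < c) : ∃ σ L : ℝ, 0 < σ ∧ 1 ≤ L ∧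
    ∀ μ G ϖ, 0 < μ → μ ≤ σ → 0 < G → 0 < ϖ → μ / 2 ≤ G * ϖ → G * ϖ ≤ σ →
    ∀ d ∈ DD c, ∀ β ∈ JJ, ∀ z υ0 : ℂ, υ0 ^ 2 * (mb + ma * z) = z - 1 →
      ‖x3 (legSt μ G d β ϖ) - z * x2 (legSt μ G d β ϖ)‖ ≤
        ‖(mb + ma * z : ℂ)‖ * G ^ 2 *
          ‖(legV μ G d β ϖ).1 - υ0 / (G : ℂ) * (legV μ G d β ϖ).2 ^ (1/2 : ℂ)‖ *
          (‖(legV μ G d β ϖ).1 - υ0 / (G : ℂ) * (legV μ G d β ϖ).2 ^ (1/2 : ℂ)‖ +
            L * ‖υ0 / (G : ℂ)‖) ∧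
      1 / L ≤ ‖x2 (legSt μ G d β ϖ)‖ :=
  @Pool.Agent.HS.E4A.leg_hit_pr c hc

end Pool.Agent.HS

namespace Pool.Agent.HS
open Set Filter Topology Classical

theorem leg_pass (C : ℝ) (hC : 0 < C ∧ C ≤ 1) : ∃ σ μ0 : ℝ, 0 < σ ∧ 0 < μ0 ∧ μ0 ≤ σ ∧
    ∀ μ G ϖ, 0 < μ → μ < μ0 → 0 < G → 0 < ϖ → μ / 2 ≤ G * ϖ → G * ϖ ≤ σ →
    ∀ X ∈ CDw C, ∀ N χ, ∀ β ∈ JJ, β ≠ 0 → Match C μ X N β χ →
    ∀ s ∈ Icc (max (G * ϖ) (μ ^ 2 / (G * ϖ))) σ,
      Reach (μ ^ 2) (inLeg C μ X N β s) (legSt μ G (outD C μ X χ β) β ϖ) ∧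
      Reach (μ ^ 2) (legSt μ G (outD C μ X χ β) β ϖ) (outLeg C μ X χ β s) ∧
      Reach (μ ^ 2) (inLeg C μ X N β s) (rev (legSt μ G (inD C μ X N β) (-β) ϖ)) ∧
      Reach (μ ^ 2) (rev (legSt μ G (inD C μ X N β) (-β) ϖ)) (outLeg C μ X χ β s) :=
  @Pool.Agent.HS.E4A.leg_pass_pr C hC

end Pool.Agent.HS
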