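import Pool.Agent.Lib_helper60.HSF.D_WE2
import Pool.Agent.Lib_helper60.HSF.A_CA
import Pool.Agent.Lib_helper60.HSF.IO_K2
import Pool.Agent.Lib_helper60.HSF.E_E0b
import Pool.Agent.Lib_helper60.HSF.IO_C1

/-! # Project HS, part E, block E4c: regularity of the leg variables and of the corner functions -/

namespace Pool.Agent.HS

noncomputable section

open Set Filter Topology Classical

/-! ### Regular functions -/

section gen
variable {E F H : Type*} [NormedAddCommGroup E] [NormedAddCommGroup F] [NormedAddCommGroup H]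

/-- `Reg` with some constant -/
def e4cR (f : E → F) (S : Set E) : Prop := ∃ L, 0 ≤ L ∧ Reg L f S

theorem e4c_prod {f : E → F} {g : E → H} {S : Set E} (hf : e4cR f S) (hg : e4cR g S) :
    e4cR (fun x => (f x, g x)) S := by
  obtain ⟨L, hL, hf⟩ := hf
  obtain ⟨L', hL', hg⟩ := hg
  exact ⟨max L L', hL.trans (le_max_left _ _), reg_prod (reg_mono hf (le_max_left _ _) subset_rfl)
    (reg_mono hg (le_max_right _ _) subset_rfl)⟩

theorem e4c_comp {f : E → F} {g : F → H} {S : Set E} {S' : Set F} (hg : e4cR g S')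
    (hf : e4cR f S) (hm : MapsTo f S S') : e4cR (fun x => g (f x)) S := by
  obtain ⟨L, hL, hf⟩ := hf
  obtain ⟨L', hL', hg⟩ := hg
  exact ⟨_, mul_nonneg hL' (by positivity), reg_comp hf hg hm hL hL'⟩

theorem e4c_mono {f : E → F} {S S' : Set E} (hf : e4cR f S) (h : S' ⊆ S) : e4cR f S' := by
  obtain ⟨L, hL, hf⟩ := hf
  exact ⟨L, hL, reg_mono hf le_rfl h⟩

theorem e4c_cont {f : E → F} {S : Set E} (hf : e4cR f S) : ContinuousOn f S := by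
  obtain ⟨L, hL, hf⟩ := hf
  have h : LipschitzOnWith ⟨L, hL⟩ f S := by
    refine LipschitzOnWith.of_dist_le_mul fun x hx y hy => ?_
    rw [dist_eq_norm]
    exact hf.1 x hx y hy
  exact h.continuousOn

end gen

section lin
variable {E F H : Type*} [NormedAddCommGroup E] [NormedSpace ℝ E] [NormedAddCommGroup F]
  [NormedSpace ℝ F] [NormedAddCommGroup H] [NormedSpace ℝ H]

theorem e4c_clm (A : E →L[ℝ] F) (S : Set E) : e4cR (fun x => A x) S := by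
  refine ⟨‖A‖, norm_nonneg _, fun x _ y _ => ?_, fun x _ y _ x' _ y' _ => ?_⟩
  · rw [← map_sub, dist_eq_norm]
    exact A.le_opNorm _
  · rw [← map_sub, ← map_sub, ← map_add]
    refine (A.le_opNorm _).trans (le_add_of_nonneg_right ?_)
    exact mul_nonneg (mul_nonneg (norm_nonneg _) (add_nonneg (norm_nonneg _) (norm_nonneg _)))
      (norm_nonneg _)

omit [NormedSpace ℝ E] in
/-- composition with a smooth function, on a compact set -/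
theorem e4c_smooth [FiniteDimensional ℝ F] {f : E → F} {g : F → H} {S : Set E} {U : Set F}
    (hS : IsCompact S) (hf : e4cR f S) (hU : IsOpen U) (hg : ∀ y ∈ U, ContDiffAt ℝ 2 g y)
    (hm : MapsTo f S U) : e4cR (fun x => g (f x)) S := by
  have hK : IsCompact (f '' S) := hS.image_of_continuousOn (e4c_cont hf)
  obtain ⟨L, hL, h⟩ := reg_of_compact hU (fun y hy => (hg y hy).contDiffWithinAt) hK
    (image_subset_iff.2 hm)
  exact e4c_comp ⟨L, hL, h⟩ hf (mapsTo_image f S)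

end lin

/-- the product of bounded regular functions -/
theorem e4c_mul {E : Type*} [NormedAddCommGroup E] {f g : E → ℂ} {S : Set E} {B : ℝ}
    (hf : e4cR f S) (hg : e4cR g S) (hfB : ∀ x ∈ S, ‖f x‖ ≤ B) (hgB : ∀ x ∈ S, ‖g x‖ ≤ B) :
    e4cR (fun x => f x * g x) S := by
  have hK : IsCompact (Metric.closedBall (0 : ℂ × ℂ) B) := isCompact_closedBall _ _
  obtain ⟨L, hL, h⟩ := reg_of_compact (E := ℂ × ℂ) (f := fun p : ℂ × ℂ => p.1 * p.2)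
    (U := univ) isOpen_univ (ContDiff.contDiffOn (by fun_prop)) hK (subset_univ _)
  have hm : MapsTo (fun x => (f x, g x)) S (Metric.closedBall (0 : ℂ × ℂ) B) := by
    intro x hx
    rw [mem_closedBall_zero_iff, Prod.norm_mk]
    exact max_le (hfB x hx) (hgB x hx)
  exact e4c_comp (g := fun p : ℂ × ℂ => p.1 * p.2) ⟨L, hL, h⟩ (e4c_prod hf hg) hm

/-! ### Smoothness of `A0` and `D0` -/

section sm
variable {E : Type*} [NormedAddCommGroup E] [NormedSpace ℝ E] {k χ b : E → ℝ} {x : E}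

theorem e4c_of {f : E → ℝ} (hf : ContDiffAt ℝ 2 f x) : ContDiffAt ℝ 2 (fun y => (f y : ℂ)) x :=
  Complex.ofRealCLM.contDiff.contDiffAt.comp x hf

theorem e4c_amp_pos {κ : ℝ} (hκ : 0 < κ) (β : ℝ) : 0 < amp κ β := by
  unfold amp
  have : 0 < 1 + κ ^ 2 * β ^ 2 := by positivity
  positivity

theorem e4c_amp (hk : ContDiffAt ℝ 2 k x) (hb : ContDiffAt ℝ 2 b x) (h0 : 0 < k x) :
    ContDiffAt ℝ 2 (fun y => amp (k y) (b y)) x := by
  unfold amp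
  refine ContDiffAt.fun_div (ContDiffAt.rpow_const_of_ne ?_ ?_) ?_ ?_
  · exact contDiffAt_const.add ((hk.pow 2).mul (hb.pow 2))
  · have : 0 < 1 + k x ^ 2 * b x ^ 2 := by positivity
    exact this.ne'
  · exact contDiffAt_const.mul hk
  · have : 0 < Real.sqrt 2 * k x := by positivity
    exact this.ne'

/-- `D0` without the direction factor -/
theorem e4c_D1 (hk : ContDiffAt ℝ 2 k x) (hb : ContDiffAt ℝ 2 b x) (h0 : 0 < k x) :
    ContDiffAt ℝ 2 (fun y => (-1 - (k y * b y : ℝ) * Complex.I) /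
      (2 * k y ^ 2 * amp (k y) (b y) : ℝ)) x := by
  have h1 : ContDiffAt ℝ 2 (fun y => (2 * k y ^ 2 * amp (k y) (b y))⁻¹) x := by
    refine ContDiffAt.fun_inv ((contDiffAt_const.mul (hk.pow 2)).mul (e4c_amp hk hb h0)) ?_
    have := e4c_amp_pos h0 (b x)
    positivity
  have h2 : (fun y => (-1 - (k y * b y : ℝ) * Complex.I) /
      (2 * k y ^ 2 * amp (k y) (b y) : ℝ)) = fun y => (-1 - (k y * b y : ℝ) * Complex.I) *
      (((2 * k y ^ 2 * amp (k y) (b y))⁻¹ : ℝ) : ℂ) := by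
    funext y
    rw [Complex.ofReal_inv, div_eq_mul_inv]
  rw [h2]
  exact (contDiffAt_const.sub ((e4c_of (hk.mul hb)).mul contDiffAt_const)).mul (e4c_of h1)

theorem e4c_ex (hχ : ContDiffAt ℝ 2 χ x) :
    ContDiffAt ℝ 2 (fun y => Complex.exp ((χ y / 2 : ℝ) * Complex.I)) x :=
  ContDiffAt.cexp ((e4c_of (hχ.div_const 2)).mul contDiffAt_const)

theorem e4c_A0 (hk : ContDiffAt ℝ 2 k x) (hχ : ContDiffAt ℝ 2 χ x) (hb : ContDiffAt ℝ 2 b x)
    (h0 : 0 < k x) : ContDiffAt ℝ 2 (fun y => A0 (k y) (χ y) (b y)) x :=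
  (e4c_of (e4c_amp hk hb h0)).mul (e4c_ex hχ)

theorem e4c_D0 (hk : ContDiffAt ℝ 2 k x) (hχ : ContDiffAt ℝ 2 χ x) (hb : ContDiffAt ℝ 2 b x)
    (h0 : 0 < k x) : ContDiffAt ℝ 2 (fun y => D0 (k y) (χ y) (b y)) x :=
  (e4c_D1 hk hb h0).mul (e4c_ex hχ)

end sm

/-! ### The leg variables -/

/-- the scalar part of `legV0` -/
def e4cS (lam : ℝ) (q : ℝ × ℝ × ℝ) : ℂ :=
  (q.2.2 : ℂ) * (amp q.1 q.2.1 : ℂ) + (lam ^ 2 / q.2.2 : ℝ) *
    ((-1 - (q.1 * q.2.1 : ℝ) * Complex.I) / (2 * q.1 ^ 2 * amp q.1 q.2.1 : ℝ))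

theorem e4cS_smooth (lam : ℝ) {q : ℝ × ℝ × ℝ} (h1 : 0 < q.1) (h2 : 0 < q.2.2) :
    ContDiffAt ℝ 2 (e4cS lam) q := by
  have hk : ContDiffAt ℝ 2 (fun q : ℝ × ℝ × ℝ => q.1) q := by fun_prop
  have hb : ContDiffAt ℝ 2 (fun q : ℝ × ℝ × ℝ => q.2.1) q := by fun_prop
  have hw : ContDiffAt ℝ 2 (fun q : ℝ × ℝ × ℝ => q.2.2) q := by fun_prop
  unfold e4cS
  refine ((e4c_of hw).mul (e4c_of (e4c_amp hk hb h1))).add ((e4c_of ?_).mul (e4c_D1 hk hb h1))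
  exact ContDiffAt.fun_div contDiffAt_const hw h2.ne'

theorem legV0_reg_pr (c ϖ1 ϖ2 lam : ℝ) (hc : 0 < c) (hϖ : 0 < ϖ1) (hϖ' : ϖ1 ≤ ϖ2) :
    ∃ L : ℝ, 0 ≤ L ∧ Reg L (fun p : Dt × ℝ × ℝ => legV0 lam p.1 p.2.1 p.2.2)
      (DD c ×ˢ (JJ ×ˢ Icc ϖ1 ϖ2)) := by
  have hK : IsCompact (Icc c (1 / c) ×ˢ (JJ ×ˢ Icc ϖ1 ϖ2)) :=
    isCompact_Icc.prod (isCompact_Icc.prod isCompact_Icc)
  have hU : IsOpen {q : ℝ × ℝ × ℝ | 0 < q.1 ∧ 0 < q.2.2} :=
    (isOpen_lt continuous_const continuous_fst).inter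
      (isOpen_lt continuous_const (continuous_snd.comp continuous_snd))
  have hKU : Icc c (1 / c) ×ˢ (JJ ×ˢ Icc ϖ1 ϖ2) ⊆ {q : ℝ × ℝ × ℝ | 0 < q.1 ∧ 0 < q.2.2} :=
    fun q hq => ⟨lt_of_lt_of_le hc hq.1.1, lt_of_lt_of_le hϖ hq.2.2.1⟩
  obtain ⟨L, hL, hreg⟩ := reg_of_compact hU
    (fun q hq => (e4cS_smooth lam hq.1 hq.2).contDiffWithinAt) hK hKU
  obtain ⟨B, hB⟩ := hK.exists_bound_of_continuousOn (e4c_cont ⟨L, hL, hreg⟩)
  -- the projections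
  have hχ : e4cR (fun p : Dt × ℝ × ℝ => p.1.2.2.2) (DD c ×ˢ (JJ ×ˢ Icc ϖ1 ϖ2)) :=
    e4c_clm ((ContinuousLinearMap.snd ℝ ℝ ℝ).comp ((ContinuousLinearMap.snd ℝ ℂ (ℝ × ℝ)).comp
      ((ContinuousLinearMap.snd ℝ ℂ (ℂ × ℝ × ℝ)).comp (ContinuousLinearMap.fst ℝ Dt (ℝ × ℝ))))) _
  have hκ : e4cR (fun p : Dt × ℝ × ℝ => p.1.2.2.1) (DD c ×ˢ (JJ ×ˢ Icc ϖ1 ϖ2)) :=
    e4c_clm ((ContinuousLinearMap.fst ℝ ℝ ℝ).comp ((ContinuousLinearMap.snd ℝ ℂ (ℝ × ℝ)).comp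
      ((ContinuousLinearMap.snd ℝ ℂ (ℂ × ℝ × ℝ)).comp (ContinuousLinearMap.fst ℝ Dt (ℝ × ℝ))))) _
  have hR : e4cR (fun p : Dt × ℝ × ℝ => p.1.1) (DD c ×ˢ (JJ ×ˢ Icc ϖ1 ϖ2)) :=
    e4c_clm ((ContinuousLinearMap.fst ℝ ℂ (ℂ × ℝ × ℝ)).comp
      (ContinuousLinearMap.fst ℝ Dt (ℝ × ℝ))) _
  have hb : e4cR (fun p : Dt × ℝ × ℝ => p.2) (DD c ×ˢ (JJ ×ˢ Icc ϖ1 ϖ2)) :=
    e4c_clm (ContinuousLinearMap.snd ℝ Dt (ℝ × ℝ)) _
  have hm : MapsTo (fun p : Dt × ℝ × ℝ => (p.1.2.2.1, p.2)) (DD c ×ˢ (JJ ×ˢ Icc ϖ1 ϖ2))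
      (Icc c (1 / c) ×ˢ (JJ ×ˢ Icc ϖ1 ϖ2)) :=
    fun p hp => ⟨⟨hp.1.2.2.2.1, hp.1.2.2.2.2⟩, hp.2⟩
  have h1 : e4cR (fun p : Dt × ℝ × ℝ => e4cS lam (p.1.2.2.1, p.2))
      (DD c ×ˢ (JJ ×ˢ Icc ϖ1 ϖ2)) :=
    e4c_comp (f := fun p : Dt × ℝ × ℝ => (p.1.2.2.1, p.2)) ⟨L, hL, hreg⟩ (e4c_prod hκ hb) hm
  have h2 : e4cR (fun p : Dt × ℝ × ℝ => Complex.exp ((p.1.2.2.2 / 2 : ℝ) * Complex.I))
      (DD c ×ˢ (JJ ×ˢ Icc ϖ1 ϖ2)) :=
    e4c_comp (g := fun x : ℝ => Complex.exp ((x / 2 : ℝ) * Complex.I))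
      ⟨1, zero_le_one, reg_cexp_half⟩ hχ (mapsTo_univ _ _)
  have h3 := e4c_mul (B := max B 1) h1 h2 (fun p hp => (hB _ (hm hp)).trans (le_max_left _ _))
    (fun p hp => by
      rw [Complex.norm_exp_ofReal_mul_I]
      exact le_max_right _ _)
  have h4 := e4c_prod h3 hR
  have h5 : (fun p : Dt × ℝ × ℝ => legV0 lam p.1 p.2.1 p.2.2) = fun p : Dt × ℝ × ℝ =>
      (e4cS lam (p.1.2.2.1, p.2) * Complex.exp ((p.1.2.2.2 / 2 : ℝ) * Complex.I), p.1.1) := by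
    funext p
    unfold legV0 e4cS A0 D0
    refine Prod.ext ?_ rfl
    simp only
    ring
  rw [h5]
  exact h4

/-! ### Incoming data -/

theorem e4c_rh_pos : 0 < rh := by
  have := kh_num.2.2.1
  linarith

theorem e4c_cc_pos : 0 < cc := by
  have h1 := kh_num.1
  have h2 := e4c_rh_pos
  have : 0 < kh := by linarith
  unfold cc
  positivity

theorem e4c_div (C : ℝ) (hC : 0 < C ∧ C ≤ 1) : ∃ L : ℝ, 1 ≤ L ∧
    (∀ X ∈ CDw C, ∀ β ∈ JJ, |β / (chart C X).1| ≤ L) ∧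
    ∀ X ∈ CDw C, ∀ X' ∈ CDw C, ∀ β ∈ JJ, ∀ β' ∈ JJ,
      |β / (chart C X).1 - β' / (chart C X').1| ≤ L * max (dist X X') (dist β β') := by
  have hr := e4c_rh_pos
  have hcc := e4c_cc_pos
  refine ⟨1 + 40 / rh + 4 / rh + 160 / rh ^ 2 * (1 / (cc * rh)), by
    have : 0 ≤ 40 / rh + 4 / rh + 160 / rh ^ 2 * (1 / (cc * rh)) := by positivity
    linarith, fun X hX β hβ => ?_, fun X hX X' hX' β hβ β' hβ' => ?_⟩
  · have h1 : rh / 4 ≤ (chart C X).1 := hX.1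
    have h0 : 0 < (chart C X).1 := by linarith
    have h2 : |β| ≤ 10 := abs_le.2 hβ
    rw [abs_div, abs_of_pos h0]
    have h3 : |β| / (chart C X).1 ≤ 10 / (rh / 4) :=
      div_le_div₀ (by norm_num) h2 (by positivity) h1
    have h4 : 10 / (rh / 4) = 40 / rh := by field_simp; norm_num
    have h5 : 0 ≤ 4 / rh + 160 / rh ^ 2 * (1 / (cc * rh)) := by positivity
    linarith
  · have h1 : rh / 4 ≤ (chart C X).1 := hX.1
    have h1' : rh / 4 ≤ (chart C X').1 := hX'.1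
    have h0 : 0 < (chart C X).1 := by linarith
    have h0' : 0 < (chart C X').1 := by linarith
    have h2 : |β'| ≤ 10 := abs_le.2 hβ'
    have e1 : β / (chart C X).1 - β' / (chart C X').1 = (β - β') / (chart C X).1 +
        β' * ((chart C X').1 - (chart C X).1) / ((chart C X).1 * (chart C X').1) := by
      field_simp
      ring
    have e2 : |(chart C X').1 - (chart C X).1| ≤ 1 / (cc * rh) * dist X X' := by
      have e3 : (chart C X').1 - (chart C X).1 = C / (cc * rh) * (X'.1 - X.1) := by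
        unfold chart
        simp only
        ring
      rw [e3, abs_mul, abs_of_pos (div_pos hC.1 (by positivity))]
      have e4 : |X'.1 - X.1| ≤ dist X X' := by
        rw [dist_comm, Prod.dist_eq, ← Real.dist_eq]
        exact le_max_left _ _
      refine mul_le_mul (div_le_div_of_nonneg_right hC.2 (by positivity)) e4 (abs_nonneg _)
        (by positivity)
    rw [e1]
    refine (abs_add_le _ _).trans ?_
    have h3 : |(β - β') / (chart C X).1| ≤ 4 / rh * dist β β' := by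
      rw [abs_div, abs_of_pos h0, ← Real.dist_eq]
      calc dist β β' / (chart C X).1 ≤ dist β β' / (rh / 4) :=
            div_le_div_of_nonneg_left dist_nonneg (by positivity) h1
        _ = 4 / rh * dist β β' := by field_simp
    have h4 : |β' * ((chart C X').1 - (chart C X).1) / ((chart C X).1 * (chart C X').1)| ≤
        160 / rh ^ 2 * (1 / (cc * rh)) * dist X X' := by
      rw [abs_div, abs_mul, abs_of_pos (mul_pos h0 h0')]
      calc |β'| * |(chart C X').1 - (chart C X).1| / ((chart C X).1 * (chart C X').1) ≤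
            10 * (1 / (cc * rh) * dist X X') / (rh / 4 * (rh / 4)) := by
            refine div_le_div₀ (by positivity) (mul_le_mul h2 e2 (abs_nonneg _) (by norm_num))
              (by positivity) (mul_le_mul h1 h1' (by positivity) h0.le)
        _ = 160 / rh ^ 2 * (1 / (cc * rh)) * dist X X' := by field_simp; ring
    have h5 : 4 / rh * dist β β' ≤ 4 / rh * max (dist X X') (dist β β') :=
      mul_le_mul_of_nonneg_left (le_max_right _ _) (by positivity)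
    have h6 : 160 / rh ^ 2 * (1 / (cc * rh)) * dist X X' ≤
        160 / rh ^ 2 * (1 / (cc * rh)) * max (dist X X') (dist β β') :=
      mul_le_mul_of_nonneg_left (le_max_left _ _) (by positivity)
    have h7 : 0 ≤ (1 + 40 / rh) * max (dist X X') (dist β β') :=
      mul_nonneg (by positivity) (dist_nonneg.trans (le_max_left _ _))
    nlinarith

theorem in_near_pr (C : ℝ) (hC : 0 < C ∧ C ≤ 1) : ∃ μ0 L : ℝ, 0 < μ0 ∧ 1 ≤ L ∧
    ∀ μ, 0 < μ → μ < μ0 →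
      Near (L * μ ^ 2) (fun q : Pl × ℝ × ℝ => inD C μ q.1 q.2.1 q.2.2)
        (fun q => revD (limD C q.1 q.2.1)) (CDw C ×ˢ (univ ×ˢ JJ)) := by
  obtain ⟨μ0, L1, hμ0, hL1, hk⟩ := kap_near C hC
  obtain ⟨L2, hL2, hb, hd⟩ := e4c_div C hC
  refine ⟨μ0, max L1 L2, hμ0, hL1.trans (le_max_left _ _), fun μ h0 h1 => ?_⟩
  have hμ2 : 0 ≤ μ ^ 2 := by positivity
  have hkn := (hk μ h0 h1).2
  have hmab : ma * mb = 3 / 16 := by unfold ma mb; norm_num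
  have hU : Near (max L1 L2 * μ ^ 2)
      (fun q : Pl × ℝ × ℝ => - Uenc C μ (chart C q.1).1 (chart C q.1).2 q.2.2)
      (fun q => - Uenc C 0 (chart C q.1).1 (chart C q.1).2 0) (CDw C ×ˢ (univ ×ˢ JJ)) := by
    have e1 : ∀ (X : Pl) (β : ℝ), - Uenc C μ (chart C X).1 (chart C X).2 β -
        - Uenc C 0 (chart C X).1 (chart C X).2 0 =
        ((3 / 16 * μ ^ 2 * (β / (chart C X).1) : ℝ) : ℂ) * Complex.I := by
      intro X β
      unfold Uenc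
      rw [hmab]
      push_cast
      ring
    constructor
    · intro q hq
      simp only
      rw [e1, norm_mul, Complex.norm_I, mul_one, Complex.norm_real, Real.norm_eq_abs, abs_mul,
        abs_of_nonneg (by positivity : (0 : ℝ) ≤ 3 / 16 * μ ^ 2)]
      have h2 := hb q.1 hq.1 q.2.2 hq.2.2
      have h3 : L2 ≤ max L1 L2 := le_max_right _ _
      have h4 := mul_le_mul_of_nonneg_left h2 (by positivity : (0 : ℝ) ≤ 3 / 16 * μ ^ 2)
      have h5 := mul_le_mul_of_nonneg_right h3 hμ2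
      have h6 : 0 ≤ L2 * μ ^ 2 := by positivity
      nlinarith
    · intro q hq q' hq'
      simp only
      rw [e1, e1, ← sub_mul, norm_mul, Complex.norm_I, mul_one, ← Complex.ofReal_sub,
        Complex.norm_real, Real.norm_eq_abs, ← mul_sub, abs_mul,
        abs_of_nonneg (by positivity : (0 : ℝ) ≤ 3 / 16 * μ ^ 2)]
      have h2 := hd q.1 hq.1 q'.1 hq'.1 q.2.2 hq.2.2 q'.2.2 hq'.2.2
      have h3 : L2 ≤ max L1 L2 := le_max_right _ _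
      have h7 : max (dist q.1 q'.1) (dist q.2.2 q'.2.2) ≤ dist q q' := by
        rw [Prod.dist_eq (x := q), Prod.dist_eq (x := q.2)]
        exact max_le (le_max_left _ _) ((le_max_right _ _).trans (le_max_right _ _))
      have h8 := h2.trans (mul_le_mul_of_nonneg_left h7 (by linarith : (0 : ℝ) ≤ L2))
      have h4 := mul_le_mul_of_nonneg_left h8 (by positivity : (0 : ℝ) ≤ 3 / 16 * μ ^ 2)
      have h9 : 0 ≤ μ ^ 2 * dist q q' := mul_nonneg hμ2 dist_nonneg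
      have h5 := mul_le_mul_of_nonneg_right h3 h9
      have h6 : 0 ≤ L2 * (μ ^ 2 * dist q q') := mul_nonneg (by linarith) h9
      nlinarith
  have hself : ∀ {V : Type} [NormedAddCommGroup V] (f : Pl × ℝ × ℝ → V),
      Near (max L1 L2 * μ ^ 2) f f (CDw C ×ˢ (univ ×ˢ JJ)) := by
    intro V _ f
    have h3 : 0 ≤ max L1 L2 := (by linarith : (0 : ℝ) ≤ L1).trans (le_max_left _ _)
    constructor
    · intro q _
      rw [sub_self, norm_zero]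
      positivity
    · intro q _ q' _
      rw [sub_self, sub_self, sub_self, norm_zero]
      exact mul_nonneg (mul_nonneg h3 hμ2) dist_nonneg
  have hkn' : Near (max L1 L2 * μ ^ 2)
      (fun p : Pl × ℝ × ℝ => kapI C μ (chart C p.1) p.2.1 p.2.2)
      (fun p => kap0 C (chart C p.1)) (CDw C ×ˢ (univ ×ˢ JJ)) :=
    near_mono hkn (mul_le_mul_of_nonneg_right (le_max_left _ _) hμ2) subset_rfl
  exact near_prod (hself fun q : Pl × ℝ × ℝ => ((chart C q.1).1 : ℂ))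
    (near_prod hU (near_prod hkn' (hself fun q : Pl × ℝ × ℝ => q.2.1 + Real.pi)))

/-! ### The corner -/

/-- the corner functions in terms of `(α, κ, χ, r, ϖ)` -/
def e4cC (lam : ℝ) (υ : ℂ) (e : ℝ) (y : ℝ × ℝ × ℝ × ℝ × ℝ) : ℂ :=
  (y.2.2.2.2 : ℂ) * A0 y.2.1 y.2.2.1 (e * (Real.cos y.1 / Real.sin y.1 / y.2.1)) +
    (lam ^ 2 / y.2.2.2.2 : ℝ) * D0 y.2.1 y.2.2.1 (e * (Real.cos y.1 / Real.sin y.1 / y.2.1)) -
    υ * Real.sqrt y.2.2.2.1

theorem e4cC_smooth (lam : ℝ) (υ : ℂ) (e : ℝ) {y : ℝ × ℝ × ℝ × ℝ × ℝ} (h1 : Real.sin y.1 ≠ 0)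
    (h2 : 0 < y.2.1) (h3 : 0 < y.2.2.2.1) (h4 : 0 < y.2.2.2.2) :
    ContDiffAt ℝ 2 (e4cC lam υ e) y := by
  have ha : ContDiffAt ℝ 2 (fun y : ℝ × ℝ × ℝ × ℝ × ℝ => y.1) y := by fun_prop
  have hk : ContDiffAt ℝ 2 (fun y : ℝ × ℝ × ℝ × ℝ × ℝ => y.2.1) y := by fun_prop
  have hχ : ContDiffAt ℝ 2 (fun y : ℝ × ℝ × ℝ × ℝ × ℝ => y.2.2.1) y := by fun_prop
  have hr : ContDiffAt ℝ 2 (fun y : ℝ × ℝ × ℝ × ℝ × ℝ => y.2.2.2.1) y := by fun_prop
  have hw : ContDiffAt ℝ 2 (fun y : ℝ × ℝ × ℝ × ℝ × ℝ => y.2.2.2.2) y := by fun_prop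
  have hb : ContDiffAt ℝ 2 (fun y : ℝ × ℝ × ℝ × ℝ × ℝ =>
      e * (Real.cos y.1 / Real.sin y.1 / y.2.1)) y :=
    contDiffAt_const.mul (ContDiffAt.fun_div (ContDiffAt.fun_div ha.cos ha.sin h1) hk h2.ne')
  unfold e4cC
  refine (((e4c_of hw).mul (e4c_A0 hk hχ hb h2)).add
    ((e4c_of (ContDiffAt.fun_div contDiffAt_const hw h4.ne')).mul (e4c_D0 hk hχ hb h2))).sub
    (contDiffAt_const.mul (e4c_of (hr.sqrt h3.ne')))

theorem corner_reg_pr (C : ℝ) (hC : 0 < C ∧ C ≤ 1) (out : Bool) (O1 O2 : Set Pl) (l1 l2 : LD)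
    (hO1 : IsCompact O1)
    (hr : ∃ L, 0 ≤ L ∧ Reg L l1.F O1 ∧ Reg L l1.χ O1 ∧ Reg L l1.θ O1 ∧
      Reg L l2.F O2 ∧ Reg L l2.χ O2 ∧ Reg L l2.θ O2)
    (hcd : ∀ X ∈ O2, X ∈ CD C) (hm : ∀ X ∈ O1, l1.F X ∈ O2)
    (ha : ∀ X ∈ O1, Acc 0 8 (l2.χ (l1.F X)) (l1.θ X))
    (lam : ℝ) (υ : ℂ) (ϖ1 ϖ2 : ℝ) (hϖ : 0 < ϖ1) (hϖ3 : ϖ1 ≤ ϖ2) :
    ∃ L : ℝ, 0 ≤ L ∧ Reg L (cB0 C l1 l2) O1 ∧
      Reg L (if out then cornerU C l1 l2 lam υ else cornerL C l1 l2 lam υ)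
        (O1 ×ˢ Icc ϖ1 ϖ2) := by
  obtain ⟨L, hL, rF, -, rθ, -, rχ2, -⟩ := hr
  obtain ⟨Lk, hLk, rk⟩ := kap0_reg C hC
  have hkh := kh_num.1
  have hrh := e4c_rh_pos
  have hF : e4cR l1.F O1 := ⟨L, hL, rF⟩
  have hθ : e4cR l1.θ O1 := ⟨L, hL, rθ⟩
  have hχ : e4cR (fun X => l2.χ (l1.F X)) O1 := e4c_comp ⟨L, hL, rχ2⟩ hF hm
  have hκ : e4cR (fun X => kap0 C (chart C (l1.F X))) O1 :=
    e4c_comp (g := fun X : Pl => kap0 C (chart C X)) ⟨Lk, hLk, rk⟩ hF fun X hX => hcd _ (hm X hX)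
  have hα : e4cR (fun X => (l2.χ (l1.F X) - l1.θ X) / 2) O1 := by
    have h1 := e4c_comp (e4c_clm ((1 / 2 : ℝ) • (ContinuousLinearMap.fst ℝ ℝ ℝ -
      ContinuousLinearMap.snd ℝ ℝ ℝ)) univ) (e4c_prod hχ hθ) (mapsTo_univ _ _)
    have h2 : (fun X => (l2.χ (l1.F X) - l1.θ X) / 2) = fun X =>
        ((1 / 2 : ℝ) • (ContinuousLinearMap.fst ℝ ℝ ℝ - ContinuousLinearMap.snd ℝ ℝ ℝ))
          (l2.χ (l1.F X), l1.θ X) := by
      funext X
      show (l2.χ (l1.F X) - l1.θ X) / 2 = (1 / 2 : ℝ) * (l2.χ (l1.F X) - l1.θ X)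
      ring
    rw [h2]
    exact h1
  have hθπ : e4cR (fun X => l1.θ X + Real.pi) O1 := by
    refine e4c_smooth (g := fun x : ℝ => x + Real.pi) hO1 hθ isOpen_univ
      (fun y _ => by fun_prop) (mapsTo_univ _ _)
  have hrr : e4cR (fun X => (chart C (l1.F X)).1) O1 := by
    refine e4c_smooth (g := fun X : ℝ × ℝ => (chart C X).1) hO1 hF isOpen_univ
      (fun y _ => ?_) (mapsTo_univ _ _)
    unfold chart
    fun_prop
  have hκ0 : ∀ X ∈ O1, 0 < kap0 C (chart C (l1.F X)) := by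
    intro X hX
    have h1 := abs_le.1 (hcd _ (hm X hX)).2.2.2
    linarith [h1.1]
  have hr0 : ∀ X ∈ O1, 0 < (chart C (l1.F X)).1 := by
    intro X hX
    have h1 := (hcd _ (hm X hX)).1
    linarith
  -- the impact parameter
  have hB : e4cR (cB0 C l1 l2) O1 := by
    have hU : IsOpen {y : ℝ × ℝ | Real.sin y.1 ≠ 0 ∧ 0 < y.2} :=
      (isOpen_ne_fun (Real.continuous_sin.comp continuous_fst) continuous_const).inter
        (isOpen_lt continuous_const continuous_snd)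
    have hg : ∀ y ∈ {y : ℝ × ℝ | Real.sin y.1 ≠ 0 ∧ 0 < y.2},
        ContDiffAt ℝ 2 (fun y : ℝ × ℝ => Real.cos y.1 / Real.sin y.1 / y.2) y := by
      intro y hy
      have h1 : ContDiffAt ℝ 2 (fun y : ℝ × ℝ => y.1) y := by fun_prop
      have h2 : ContDiffAt ℝ 2 (fun y : ℝ × ℝ => y.2) y := by fun_prop
      exact ContDiffAt.fun_div (ContDiffAt.fun_div h1.cos h1.sin hy.1) h2 hy.2.ne'
    have h3 := e4c_smooth (g := fun y : ℝ × ℝ => Real.cos y.1 / Real.sin y.1 / y.2) hO1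
      (e4c_prod hα hκ) hU hg (fun X hX => ⟨(ha X hX).1, hκ0 X hX⟩)
    have h4 : cB0 C l1 l2 = fun X : Pl =>
        Real.cos ((l2.χ (l1.F X) - l1.θ X) / 2) / Real.sin ((l2.χ (l1.F X) - l1.θ X) / 2) /
          kap0 C (chart C (l1.F X)) := by
      funext X
      unfold cB0
      rfl
    rw [h4]
    exact h3
  -- the corner functions
  have hS : IsCompact (O1 ×ˢ Icc ϖ1 ϖ2) := hO1.prod isCompact_Icc
  have hfst : e4cR (fun q : Pl × ℝ => q.1) (O1 ×ˢ Icc ϖ1 ϖ2) :=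
    e4c_clm (ContinuousLinearMap.fst ℝ Pl ℝ) _
  have hsnd : e4cR (fun q : Pl × ℝ => q.2) (O1 ×ˢ Icc ϖ1 ϖ2) :=
    e4c_clm (ContinuousLinearMap.snd ℝ Pl ℝ) _
  have lift : ∀ {f : Pl → ℝ}, e4cR f O1 → e4cR (fun q : Pl × ℝ => f q.1) (O1 ×ˢ Icc ϖ1 ϖ2) :=
    fun {f} hf => e4c_comp hf hfst fun q hq => hq.1
  have hU : IsOpen {y : ℝ × ℝ × ℝ × ℝ × ℝ | (Real.sin y.1 ≠ 0 ∧ 0 < y.2.1) ∧
      (0 < y.2.2.2.1 ∧ 0 < y.2.2.2.2)} := by
    have c1 : Continuous fun y : ℝ × ℝ × ℝ × ℝ × ℝ => Real.sin y.1 := by fun_prop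
    have c2 : Continuous fun y : ℝ × ℝ × ℝ × ℝ × ℝ => y.2.1 := by fun_prop
    have c3 : Continuous fun y : ℝ × ℝ × ℝ × ℝ × ℝ => y.2.2.2.1 := by fun_prop
    have c4 : Continuous fun y : ℝ × ℝ × ℝ × ℝ × ℝ => y.2.2.2.2 := by fun_prop
    exact ((isOpen_ne_fun c1 continuous_const).inter (isOpen_lt continuous_const c2)).inter
      ((isOpen_lt continuous_const c3).inter (isOpen_lt continuous_const c4))
  have key : ∀ (e : ℝ) (χ : Pl → ℝ), e4cR χ O1 →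
      e4cR (fun q : Pl × ℝ => e4cC lam υ e ((l2.χ (l1.F q.1) - l1.θ q.1) / 2,
        kap0 C (chart C (l1.F q.1)), χ q.1, (chart C (l1.F q.1)).1, q.2)) (O1 ×ˢ Icc ϖ1 ϖ2) := by
    intro e χ hχ'
    refine e4c_smooth (g := e4cC lam υ e) hS
      (e4c_prod (lift hα) (e4c_prod (lift hκ) (e4c_prod (lift hχ') (e4c_prod (lift hrr) hsnd))))
      hU (fun y hy => e4cC_smooth lam υ e hy.1.1 hy.1.2 hy.2.1 hy.2.2) fun q hq => ?_
    exact ⟨⟨(ha q.1 hq.1).1, hκ0 q.1 hq.1⟩, ⟨hr0 q.1 hq.1, lt_of_lt_of_le hϖ hq.2.1⟩⟩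
  have hcor : e4cR (if out then cornerU C l1 l2 lam υ else cornerL C l1 l2 lam υ)
      (O1 ×ˢ Icc ϖ1 ϖ2) := by
    cases out
    · have h1 := key (-1) _ hθπ
      have h2 : cornerL C l1 l2 lam υ = fun q : Pl × ℝ =>
          e4cC lam υ (-1) ((l2.χ (l1.F q.1) - l1.θ q.1) / 2,
            kap0 C (chart C (l1.F q.1)), l1.θ q.1 + Real.pi, (chart C (l1.F q.1)).1, q.2) := by
        funext q
        unfold cornerL e4cC cB0
        simp only [neg_one_mul]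
      simp only [Bool.false_eq_true, if_false]
      rw [h2]
      exact h1
    · have h1 := key 1 _ hχ
      have h2 : cornerU C l1 l2 lam υ = fun q : Pl × ℝ =>
          e4cC lam υ 1 ((l2.χ (l1.F q.1) - l1.θ q.1) / 2,
            kap0 C (chart C (l1.F q.1)), l2.χ (l1.F q.1), (chart C (l1.F q.1)).1, q.2) := by
        funext q
        unfold cornerU e4cC cB0
        simp only [one_mul]
      simp only [if_true]
      rw [h2]
      exact h1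
  obtain ⟨L1, hL1, h1⟩ := hB
  obtain ⟨L2, hL2, h2⟩ := hcor
  exact ⟨max L1 L2, hL1.trans (le_max_left _ _), reg_mono h1 (le_max_left _ _) subset_rfl,
    reg_mono h2 (le_max_right _ _) subset_rfl⟩

end

end Pool.Agent.HS

namespace Pool.Agent.HS
open Set Filter Topology Classical

theorem legV0_reg (c ϖ1 ϖ2 lam : ℝ) (hc : 0 < c) (hϖ : 0 < ϖ1) (hϖ' : ϖ1 ≤ ϖ2) :
    ∃ L : ℝ, 0 ≤ L ∧ Reg L (fun p : Dt × ℝ × ℝ => legV0 lam p.1 p.2.1 p.2.2)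
      (DD c ×ˢ (JJ ×ˢ Icc ϖ1 ϖ2)) :=
  @Pool.Agent.HS.legV0_reg_pr c ϖ1 ϖ2 lam hc hϖ hϖ'

end Pool.Agent.HS

namespace Pool.Agent.HS
open Set Filter Topology Classical

theorem in_near (C : ℝ) (hC : 0 < C ∧ C ≤ 1) : ∃ μ0 L : ℝ, 0 < μ0 ∧ 1 ≤ L ∧
    ∀ μ, 0 < μ → μ < μ0 →
      Near (L * μ ^ 2) (fun q : Pl × ℝ × ℝ => inD C μ q.1 q.2.1 q.2.2)
        (fun q => revD (limD C q.1 q.2.1)) (CDw C ×ˢ (univ ×ˢ JJ)) :=
  @Pool.Agent.HS.in_near_pr C hC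

end Pool.Agent.HS

namespace Pool.Agent.HS
open Set Filter Topology Classical

theorem corner_reg (C : ℝ) (hC : 0 < C ∧ C ≤ 1) (out : Bool) (O1 O2 : Set Pl) (l1 l2 : LD)
    (hO1 : IsCompact O1)
    (hr : ∃ L, 0 ≤ L ∧ Reg L l1.F O1 ∧ Reg L l1.χ O1 ∧ Reg L l1.θ O1 ∧
      Reg L l2.F O2 ∧ Reg L l2.χ O2 ∧ Reg L l2.θ O2)
    (hcd : ∀ X ∈ O2, X ∈ CD C) (hm : ∀ X ∈ O1, l1.F X ∈ O2)
    (ha : ∀ X ∈ O1, Acc 0 8 (l2.χ (l1.F X)) (l1.θ X))
    (lam : ℝ) (υ : ℂ) (ϖ1 ϖ2 : ℝ) (hϖ : 0 < ϖ1) (hϖ3 : ϖ1 ≤ ϖ2) :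
    ∃ L : ℝ, 0 ≤ L ∧ Reg L (cB0 C l1 l2) O1 ∧
      Reg L (if out then cornerU C l1 l2 lam υ else cornerL C l1 l2 lam υ)
        (O1 ×ˢ Icc ϖ1 ϖ2) :=
  @Pool.Agent.HS.corner_reg_pr C hC out O1 O2 l1 l2 hO1 hr hcd hm ha lam υ ϖ1 ϖ2 hϖ hϖ3

end Pool.Agent.HS
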