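import Pool.Agent.Lib_helper60.HSF.D_WE2
import Pool.Agent.Lib_helper60.HSF.IO_I6
import Pool.Agent.Lib_helper60.HSF.E_E4a
import Pool.Agent.Lib_helper60.HSF.IO_I1
import Pool.Agent.Lib_helper60.HSF.IO_I4
import Pool.Agent.Lib_helper60.HSF.A_CA

/-! Project HS, part E, block E4b: closeness of the leg variables. -/

set_option autoImplicit false

namespace Pool.Agent.HS

noncomputable section

open Set Filter Topology

/-! ### Bounded functions of `(x, t)`, Lipschitz in both variables -/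

/-- bound `M`, Lipschitz constant `M` in `x`, `N` in `t` -/
structure E4bBd {X F : Type*} [PseudoMetricSpace X] [NormedAddCommGroup F] (M N : ℝ) (S : Set X)
    (T : Set ℝ) (E : X → ℝ → F) : Prop where
  bd : ∀ x ∈ S, ∀ t ∈ T, ‖E x t‖ ≤ M
  lx : ∀ x ∈ S, ∀ x' ∈ S, ∀ t ∈ T, ‖E x t - E x' t‖ ≤ M * dist x x'
  lt : ∀ x ∈ S, ∀ t ∈ T, ∀ t' ∈ T, ‖E x t - E x t'‖ ≤ N * |t - t'|

section gen

variable {X F : Type*} [PseudoMetricSpace X] [NormedAddCommGroup F] {S : Set X}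
  {T T' : Set ℝ}

theorem e4b_mono {M N M' N' : ℝ} {E : X → ℝ → F} (h : E4bBd M N S T E) (hM : M ≤ M')
    (hN : N ≤ N') : E4bBd M' N' S T E :=
  ⟨fun x hx t ht => (h.bd x hx t ht).trans hM,
    fun x hx x' hx' t ht => (h.lx x hx x' hx' t ht).trans
      (mul_le_mul_of_nonneg_right hM dist_nonneg),
    fun x hx t ht t' ht' => (h.lt x hx t ht t' ht').trans
      (mul_le_mul_of_nonneg_right hN (abs_nonneg _))⟩

theorem e4b_comp {M N k : ℝ} {E : X → ℝ → F} (hN : 0 ≤ N) (h : E4bBd M N S T' E) {g : ℝ → ℝ}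
    (hg : ∀ t ∈ T, g t ∈ T') (hl : ∀ t ∈ T, ∀ t' ∈ T, |g t - g t'| ≤ k * |t - t'|) :
    E4bBd M (N * k) S T (fun x t => E x (g t)) :=
  ⟨fun x hx t ht => h.bd x hx _ (hg t ht), fun x hx x' hx' t ht => h.lx x hx x' hx' _ (hg t ht),
    fun x hx t ht t' ht' => (h.lt x hx _ (hg t ht) _ (hg t' ht')).trans (by
      rw [mul_assoc]
      exact mul_le_mul_of_nonneg_left (hl t ht t' ht') hN)⟩

theorem e4b_pull {Y : Type*} [PseudoMetricSpace Y] {S' : Set Y} {M N Λ : ℝ} {E : X → ℝ → F}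
    (hM : 0 ≤ M) (hΛ : 1 ≤ Λ) (h : E4bBd M N S T E) {g : Y → X} (hg : ∀ y ∈ S', g y ∈ S)
    (hl : ∀ y ∈ S', ∀ y' ∈ S', dist (g y) (g y') ≤ Λ * dist y y') :
    E4bBd (M * Λ) N S' T (fun y t => E (g y) t) :=
  ⟨fun y hy t ht => (h.bd _ (hg y hy) t ht).trans (by nlinarith),
    fun y hy y' hy' t ht => (h.lx _ (hg y hy) _ (hg y' hy') t ht).trans (by
      rw [mul_assoc]
      exact mul_le_mul_of_nonneg_left (hl y hy y' hy') hM),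
    fun y hy t ht t' ht' => h.lt _ (hg y hy) t ht t' ht'⟩

theorem e4b_add {M N M' N' : ℝ} {E E' : X → ℝ → F} (h : E4bBd M N S T E)
    (h' : E4bBd M' N' S T E') : E4bBd (M + M') (N + N') S T (fun x t => E x t + E' x t) := by
  refine ⟨fun x hx t ht => ?_, fun x hx x' hx' t ht => ?_, fun x hx t ht t' ht' => ?_⟩
  · exact (norm_add_le _ _).trans (add_le_add (h.bd x hx t ht) (h'.bd x hx t ht))
  · rw [add_mul]
    calc ‖E x t + E' x t - (E x' t + E' x' t)‖ = ‖(E x t - E x' t) + (E' x t - E' x' t)‖ := by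
          congr 1
          abel
      _ ≤ _ := (norm_add_le _ _).trans (add_le_add (h.lx x hx x' hx' t ht) (h'.lx x hx x' hx' t ht))
  · rw [add_mul]
    calc ‖E x t + E' x t - (E x t' + E' x t')‖ = ‖(E x t - E x t') + (E' x t - E' x t')‖ := by
          congr 1
          abel
      _ ≤ _ := (norm_add_le _ _).trans (add_le_add (h.lt x hx t ht t' ht') (h'.lt x hx t ht t' ht'))

theorem e4b_mul {M N k : ℝ} {E : X → ℝ → ℂ} (h : E4bBd M N S T E) {c : ℝ → ℝ} (hk : 0 ≤ k)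
    (hM : 0 ≤ M) (hc : ∀ t ∈ T, |c t| ≤ k) (hl : ∀ t ∈ T, ∀ t' ∈ T, |c t - c t'| ≤ k * |t - t'|) :
    E4bBd (k * M) (k * M + k * N) S T (fun x t => (c t : ℂ) * E x t) := by
  refine ⟨fun x hx t ht => ?_, fun x hx x' hx' t ht => ?_, fun x hx t ht t' ht' => ?_⟩
  · rw [norm_mul, Complex.norm_real, Real.norm_eq_abs]
    exact mul_le_mul (hc t ht) (h.bd x hx t ht) (norm_nonneg _) hk
  · rw [← mul_sub, norm_mul, Complex.norm_real, Real.norm_eq_abs, mul_assoc]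
    exact mul_le_mul (hc t ht) (h.lx x hx x' hx' t ht) (norm_nonneg _) hk
  · calc ‖(c t : ℂ) * E x t - (c t' : ℂ) * E x t'‖ =
        ‖((c t - c t' : ℝ) : ℂ) * E x t + (c t' : ℂ) * (E x t - E x t')‖ := by
          congr 1
          push_cast
          ring
      _ ≤ (k * |t - t'|) * M + k * (N * |t - t'|) := by
          refine (norm_add_le _ _).trans (add_le_add ?_ ?_)
          · rw [norm_mul, Complex.norm_real, Real.norm_eq_abs]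
            exact mul_le_mul (hl t ht t' ht') (h.bd x hx t ht) (norm_nonneg _) (by positivity)
          · rw [norm_mul, Complex.norm_real, Real.norm_eq_abs]
            exact mul_le_mul (hc t' ht') (h.lt x hx t ht t' ht') (norm_nonneg _) hk
      _ = (k * M + k * N) * |t - t'| := by ring

theorem e4b_prod {G' : Type*} [NormedAddCommGroup G'] {M N : ℝ} {E : X → ℝ → F} {E' : X → ℝ → G'}
    (h : E4bBd M N S T E) (h' : E4bBd M N S T E') :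
    E4bBd M N S T (fun x t => (E x t, E' x t)) := by
  refine ⟨fun x hx t ht => ?_, fun x hx x' hx' t ht => ?_, fun x hx t ht t' ht' => ?_⟩
  · rw [Prod.norm_def]
    exact max_le (h.bd x hx t ht) (h'.bd x hx t ht)
  · rw [Prod.norm_def]
    exact max_le (h.lx x hx x' hx' t ht) (h'.lx x hx x' hx' t ht)
  · rw [Prod.norm_def]
    exact max_le (h.lt x hx t ht t' ht') (h'.lt x hx t ht t' ht')

/-- both variables at once -/
theorem e4b_both {M N : ℝ} {E : X → ℝ → F} (h : E4bBd M N S T E) {D : ℝ} (hM : 0 ≤ M)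
    (hN : 0 ≤ N) {x x' : X} {t t' : ℝ} (hx : x ∈ S) (hx' : x' ∈ S) (ht : t ∈ T) (ht' : t' ∈ T)
    (h1 : dist x x' ≤ D) (h2 : |t - t'| ≤ D) : ‖E x t - E x' t'‖ ≤ (M + N) * D := by
  calc ‖E x t - E x' t'‖ = ‖(E x t - E x' t) + (E x' t - E x' t')‖ := by
        congr 1
        abel
    _ ≤ M * dist x x' + N * |t - t'| :=
        (norm_add_le _ _).trans (add_le_add (h.lx x hx x' hx' t ht) (h.lt x' hx' t ht t' ht'))
    _ ≤ (M + N) * D := by nlinarith [dist_nonneg (x := x) (y := x'), abs_nonneg (t - t')]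

end gen

/-! ### The errors on one leg -/

/-- error of `A` -/
def e4b_a (μ : ℝ) (x : Dt × ℝ) (g : ℝ) : ℂ :=
  (innV μ x.1 x.2 g).1 - A0 x.1.2.2.1 x.1.2.2.2 x.2
/-- error of `(g/μ)² B` -/
def e4b_b (μ : ℝ) (x : Dt × ℝ) (g : ℝ) : ℂ :=
  ((g / μ) ^ 2 : ℝ) * (innV μ x.1 x.2 g).2.1 - D0 x.1.2.2.1 x.1.2.2.2 x.2
/-- error of `R` -/
def e4b_r (μ : ℝ) (x : Dt × ℝ) (g : ℝ) : ℂ := (innV μ x.1 x.2 g).2.2.1 - x.1.1

theorem e4b_abr (c : ℝ) (hc : 0 < c) : ∃ σ L : ℝ, 0 < σ ∧ 1 ≤ L ∧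
    ∀ μ γ, 0 < μ → μ ≤ σ → γ ≤ σ →
    E4bBd (L * γ ^ 2) (L * γ) (DD c ×ˢ JJ) (Icc μ γ) (e4b_a μ) ∧
    E4bBd (L * (γ ^ 6 / μ ^ 2)) (L * (γ ^ 5 / μ ^ 2)) (DD c ×ˢ JJ) (Icc μ γ) (e4b_b μ) ∧
    E4bBd (L * γ ^ 2) (L * γ) (DD c ×ˢ JJ) (Icc μ γ) (e4b_r μ) ∧
    ∀ x ∈ DD c ×ˢ JJ, e4b_a μ x μ = 0 ∧ e4b_b μ x μ = 0 ∧ e4b_r μ x μ = 0 := by
  obtain ⟨σ1, L1, hσ1, hL1, H1⟩ := inner_near c hc
  obtain ⟨σ2, L2, hσ2, hL2, H2⟩ := inner_scale c hc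
  obtain ⟨σ3, K3, C3, hσ3, _, _, _, _, H3⟩ := inner_sol c hc
  have hL1' : L1 ≤ max L1 L2 := le_max_left _ _
  have hL2' : L2 ≤ max L1 L2 := le_max_right _ _
  have hL0 : 0 ≤ max L1 L2 := by linarith
  refine ⟨min σ1 (min σ2 σ3), max L1 L2, lt_min hσ1 (lt_min hσ2 hσ3), by linarith, ?_⟩
  intro μ γ hμ hμσ hγσ
  have hμ3 : μ ≤ σ3 := hμσ.trans ((min_le_right _ _).trans (min_le_right _ _))
  have hγ1 : γ ≤ σ1 := hγσ.trans (min_le_left _ _)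
  have hγ2 : γ ≤ σ2 := hγσ.trans ((min_le_right _ _).trans (min_le_left _ _))
  -- inner_near on the interval
  have hA : ∀ g ∈ Icc μ γ, Near (L1 * g ^ 2) (fun p : Dt × ℝ => inY (innV μ p.1 p.2 g))
      (fun p => inY (inn0 p.1 p.2)) (DD c ×ˢ JJ) := fun g hg =>
    (H1 μ g hμ hg.1 (hg.2.trans hγ1)).1
  have hB : ∀ g ∈ Icc μ γ, Near (L1 * g ^ 4) (fun p : Dt × ℝ => (innV μ p.1 p.2 g).2.1)
      (fun p => ((μ / g) ^ 2 : ℝ) * D0 p.1.2.2.1 p.1.2.2.2 p.2) (DD c ×ˢ JJ) := fun g hg =>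
    (H1 μ g hμ hg.1 (hg.2.trans hγ1)).2
  have hsq : ∀ g ∈ Icc μ γ, L1 * g ^ 2 ≤ max L1 L2 * γ ^ 2 := by
    intro g hg
    have h0 : 0 < g := lt_of_lt_of_le hμ hg.1
    have := pow_le_pow_left₀ h0.le hg.2 2
    exact mul_le_mul hL1' this (by positivity) hL0
  have hfirst : ∀ {V W : ℂ × ℂ × ℂ × ℝ}, ‖V.1 - W.1‖ ≤ ‖V - W‖ := fun {V W} =>
    norm_fst_le (V - W)
  have hsecond : ∀ {V W : ℂ × ℂ × ℂ × ℝ}, ‖V.2.1 - W.2.1‖ ≤ ‖V - W‖ := fun {V W} =>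
    (norm_fst_le (V - W).2).trans (norm_snd_le (V - W))
  have hscale : ∀ x ∈ DD c ×ˢ JJ, ∀ g ∈ Icc μ γ, ∀ g' ∈ Icc μ γ,
      ‖inY (innV μ x.1 x.2 g) - inY (innV μ x.1 x.2 g')‖ ≤ max L1 L2 * γ * |g - g'| := by
    intro x hx g hg g' hg'
    have h1 := (H2 μ hμ g ⟨hg.1, hg.2.trans hγ2⟩ g' ⟨hg'.1, hg'.2.trans hγ2⟩ x.1 hx.1 x.2 hx.2).1
    have h0 : 0 < g := lt_of_lt_of_le hμ hg.1
    have hm : max g g' ≤ γ := max_le hg.2 hg'.2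
    have hm0 : 0 ≤ max g g' := h0.le.trans (le_max_left _ _)
    refine h1.trans (mul_le_mul_of_nonneg_right ?_ (abs_nonneg _))
    exact mul_le_mul hL2' hm hm0 hL0
  have hstart : ∀ x ∈ DD c ×ˢ JJ, innV μ x.1 x.2 μ = inn0 x.1 x.2 := by
    intro x hx
    obtain ⟨P, Q, _, h4⟩ := H3 μ hμ hμ3
    exact (h4 x.1 hx.1 x.2 hx.2).2.2.2.1
  refine ⟨⟨?_, ?_, ?_⟩, ⟨?_, ?_, ?_⟩, ⟨?_, ?_, ?_⟩, ?_⟩
  · intro x hx g hg
    exact hfirst.trans (((hA g hg).1 x hx).trans (hsq g hg))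
  · intro x hx x' hx' g hg
    have h1 := (hA g hg).2 x hx x' hx'
    have h2 : ‖e4b_a μ x g - e4b_a μ x' g‖ ≤ ‖(inY (innV μ x.1 x.2 g) - inY (inn0 x.1 x.2)) -
        (inY (innV μ x'.1 x'.2 g) - inY (inn0 x'.1 x'.2))‖ :=
      hfirst (V := inY (innV μ x.1 x.2 g) - inY (inn0 x.1 x.2))
        (W := inY (innV μ x'.1 x'.2 g) - inY (inn0 x'.1 x'.2))
    exact (h2.trans h1).trans (mul_le_mul_of_nonneg_right (hsq g hg) dist_nonneg)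
  · intro x hx g hg g' hg'
    have h1 := hscale x hx g hg g' hg'
    have h2 : e4b_a μ x g - e4b_a μ x g' = (inY (innV μ x.1 x.2 g)).1 -
        (inY (innV μ x.1 x.2 g')).1 := by
      unfold e4b_a inY
      ring
    rw [h2]
    exact hfirst.trans h1
  · intro x hx g hg
    have h0 : 0 < g := lt_of_lt_of_le hμ hg.1
    have h1 := (hB g hg).1 x hx
    have h2 : e4b_b μ x g = ((g / μ) ^ 2 : ℝ) * ((innV μ x.1 x.2 g).2.1 -
        ((μ / g) ^ 2 : ℝ) * D0 x.1.2.2.1 x.1.2.2.2 x.2) := by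
      unfold e4b_b
      have : ((g / μ) ^ 2 : ℝ) * ((μ / g) ^ 2 : ℝ) = 1 := by
        field_simp
      rw [mul_sub, ← mul_assoc, ← Complex.ofReal_mul, this]
      simp
    rw [h2, norm_mul, Complex.norm_real, Real.norm_of_nonneg (by positivity)]
    have h3 : g ^ 6 ≤ γ ^ 6 := pow_le_pow_left₀ h0.le hg.2 6
    calc (g / μ) ^ 2 * _ ≤ (g / μ) ^ 2 * (L1 * g ^ 4) := mul_le_mul_of_nonneg_left h1 (by positivity)
      _ = L1 * (g ^ 6 / μ ^ 2) := by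
          field_simp
      _ ≤ max L1 L2 * (γ ^ 6 / μ ^ 2) := by
          refine mul_le_mul hL1' ?_ (by positivity) hL0
          exact div_le_div_of_nonneg_right h3 (by positivity)
  · intro x hx x' hx' g hg
    have h0 : 0 < g := lt_of_lt_of_le hμ hg.1
    have h1 := (hB g hg).2 x hx x' hx'
    have h2 : e4b_b μ x g - e4b_b μ x' g = ((g / μ) ^ 2 : ℝ) * (((innV μ x.1 x.2 g).2.1 -
        ((μ / g) ^ 2 : ℝ) * D0 x.1.2.2.1 x.1.2.2.2 x.2) - ((innV μ x'.1 x'.2 g).2.1 -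
        ((μ / g) ^ 2 : ℝ) * D0 x'.1.2.2.1 x'.1.2.2.2 x'.2)) := by
      unfold e4b_b
      have : (((g / μ) ^ 2 : ℝ) : ℂ) * (((μ / g) ^ 2 : ℝ) : ℂ) = 1 := by
        rw [← Complex.ofReal_mul]
        have : ((g / μ) ^ 2 : ℝ) * ((μ / g) ^ 2 : ℝ) = 1 := by
          field_simp
        rw [this]
        simp
      linear_combination (D0 x.1.2.2.1 x.1.2.2.2 x.2 - D0 x'.1.2.2.1 x'.1.2.2.2 x'.2) * this
    rw [h2, norm_mul, Complex.norm_real, Real.norm_of_nonneg (by positivity)]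
    have h3 : g ^ 6 ≤ γ ^ 6 := pow_le_pow_left₀ h0.le hg.2 6
    calc (g / μ) ^ 2 * _ ≤ (g / μ) ^ 2 * (L1 * g ^ 4 * dist x x') :=
          mul_le_mul_of_nonneg_left h1 (by positivity)
      _ = L1 * (g ^ 6 / μ ^ 2) * dist x x' := by
          field_simp
      _ ≤ max L1 L2 * (γ ^ 6 / μ ^ 2) * dist x x' := by
          refine mul_le_mul_of_nonneg_right (mul_le_mul hL1' ?_ (by positivity) hL0) dist_nonneg
          exact div_le_div_of_nonneg_right h3 (by positivity)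
  · intro x hx g hg g' hg'
    have h1 := (H2 μ hμ g ⟨hg.1, hg.2.trans hγ2⟩ g' ⟨hg'.1, hg'.2.trans hγ2⟩ x.1 hx.1 x.2 hx.2).2
    have h0 : 0 < g := lt_of_lt_of_le hμ hg.1
    have hm : max g g' ≤ γ := max_le hg.2 hg'.2
    have hm0 : 0 ≤ max g g' := h0.le.trans (le_max_left _ _)
    have h2 : e4b_b μ x g - e4b_b μ x g' = ((g / μ) ^ 2 : ℝ) * (innV μ x.1 x.2 g).2.1 -
        ((g' / μ) ^ 2 : ℝ) * (innV μ x.1 x.2 g').2.1 := by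
      unfold e4b_b
      ring
    rw [h2]
    refine h1.trans (mul_le_mul_of_nonneg_right ?_ (abs_nonneg _))
    rw [mul_div_assoc]
    refine mul_le_mul hL2' ?_ (by positivity) hL0
    exact div_le_div_of_nonneg_right (pow_le_pow_left₀ hm0 hm 5) (by positivity)
  · intro x hx g hg
    exact hsecond.trans (((hA g hg).1 x hx).trans (hsq g hg))
  · intro x hx x' hx' g hg
    have h1 := (hA g hg).2 x hx x' hx'
    have h2 : ‖e4b_r μ x g - e4b_r μ x' g‖ ≤ ‖(inY (innV μ x.1 x.2 g) - inY (inn0 x.1 x.2)) -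
        (inY (innV μ x'.1 x'.2 g) - inY (inn0 x'.1 x'.2))‖ :=
      hsecond (V := inY (innV μ x.1 x.2 g) - inY (inn0 x.1 x.2))
        (W := inY (innV μ x'.1 x'.2 g) - inY (inn0 x'.1 x'.2))
    exact (h2.trans h1).trans (mul_le_mul_of_nonneg_right (hsq g hg) dist_nonneg)
  · intro x hx g hg g' hg'
    have h1 := hscale x hx g hg g' hg'
    have h2 : e4b_r μ x g - e4b_r μ x g' = (inY (innV μ x.1 x.2 g)).2.1 -
        (inY (innV μ x.1 x.2 g')).2.1 := by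
      unfold e4b_r inY
      ring
    rw [h2]
    exact hsecond.trans h1
  · intro x hx
    have h1 := hstart x hx
    unfold e4b_a e4b_b e4b_r
    rw [h1, div_self hμ.ne']
    unfold inn0
    refine ⟨?_, ?_, ?_⟩ <;> simp

/-! ### The flip -/

theorem e4b_arctan (x y : ℝ) : |Real.arctan x - Real.arctan y| ≤ |x - y| := by
  have h : LipschitzWith 1 Real.arctan := by
    refine lipschitzWith_of_nnnorm_deriv_le Real.differentiable_arctan fun x => ?_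
    rw [Real.deriv_arctan, ← NNReal.coe_le_coe, coe_nnnorm, Real.norm_of_nonneg (by positivity),
      NNReal.coe_one]
    rw [div_le_one (by positivity)]
    nlinarith [sq_nonneg x]
  have := h.dist_le_mul x y
  rw [Real.dist_eq, Real.dist_eq, NNReal.coe_one, one_mul] at this
  exact this

theorem e4b_flip_mem {c : ℝ} {x : Dt × ℝ} (hx : x ∈ DD c ×ˢ JJ) :
    (flipD x.1 x.2, -x.2) ∈ DD c ×ˢ JJ := by
  obtain ⟨⟨h1, h2, h3, h4, h5⟩, h6, h7⟩ := hx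
  refine ⟨⟨h1, h2, ?_, h4, h5⟩, ?_, ?_⟩
  · show ‖-x.1.2.1‖ ≤ _
    rwa [norm_neg]
  · show -10 ≤ -x.2
    linarith
  · show -x.2 ≤ 10
    linarith

theorem e4b_flip_lip {c : ℝ} (hc : 0 < c) {x x' : Dt × ℝ} (hx : x ∈ DD c ×ˢ JJ)
    (hx' : x' ∈ DD c ×ˢ JJ) :
    dist ((flipD x.1 x.2, -x.2) : Dt × ℝ) (flipD x'.1 x'.2, -x'.2) ≤
      (21 + 2 / c) * dist x x' := by
  have hD0 : 0 ≤ dist x x' := dist_nonneg
  have hc' : 0 < 2 / c := by positivity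
  have hd1 : dist x.1 x'.1 ≤ dist x x' := le_max_left _ _
  have hd2 : dist x.2 x'.2 ≤ dist x x' := le_max_right _ _
  have hk1 : dist x.1.1 x'.1.1 ≤ dist x x' := (le_max_left _ _).trans hd1
  have hk : dist x.1.2 x'.1.2 ≤ dist x x' := (le_max_right _ _).trans hd1
  have hk2 : dist x.1.2.1 x'.1.2.1 ≤ dist x x' := (le_max_left _ _).trans hk
  have hk' : dist x.1.2.2 x'.1.2.2 ≤ dist x x' := (le_max_right _ _).trans hk
  have hk3 : dist x.1.2.2.1 x'.1.2.2.1 ≤ dist x x' := (le_max_left _ _).trans hk'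
  have hk4 : dist x.1.2.2.2 x'.1.2.2.2 ≤ dist x x' := (le_max_right _ _).trans hk'
  have hone : dist x x' ≤ (21 + 2 / c) * dist x x' := by nlinarith
  have hβ : |x.2| ≤ 10 := abs_le.2 ⟨hx.2.1, hx.2.2⟩
  have hκ' : |x'.1.2.2.1| ≤ 1 / c := by
    rw [abs_of_pos (lt_of_lt_of_le hc hx'.1.2.2.2.1)]
    exact hx'.1.2.2.2.2
  rw [Real.dist_eq] at hk3 hk4 hd2
  have harc : |2 * Real.arctan (x.1.2.2.1 * x.2) - 2 * Real.arctan (x'.1.2.2.1 * x'.2)| ≤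
      (20 + 2 / c) * dist x x' := by
    rw [← mul_sub, abs_mul, abs_two]
    have h1 := e4b_arctan (x.1.2.2.1 * x.2) (x'.1.2.2.1 * x'.2)
    have h2 : |x.1.2.2.1 * x.2 - x'.1.2.2.1 * x'.2| ≤ 10 * dist x x' + 1 / c * dist x x' := by
      calc |x.1.2.2.1 * x.2 - x'.1.2.2.1 * x'.2| =
          |x.2 * (x.1.2.2.1 - x'.1.2.2.1) + x'.1.2.2.1 * (x.2 - x'.2)| := by
            congr 1
            ring
        _ ≤ |x.2| * |x.1.2.2.1 - x'.1.2.2.1| + |x'.1.2.2.1| * |x.2 - x'.2| := by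
            rw [← abs_mul, ← abs_mul]
            exact abs_add_le _ _
        _ ≤ 10 * dist x x' + 1 / c * dist x x' := by
            gcongr
    have h3 : 1 / c * dist x x' * 2 = 2 / c * dist x x' := by ring
    nlinarith
  refine max_le (max_le ?_ (max_le ?_ (max_le ?_ ?_))) ?_
  · exact hk1.trans hone
  · show dist (-x.1.2.1) (-x'.1.2.1) ≤ _
    rw [dist_neg_neg]
    exact hk2.trans hone
  · show dist x.1.2.2.1 x'.1.2.2.1 ≤ _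
    rw [Real.dist_eq]
    exact hk3.trans hone
  · show dist (x.1.2.2.2 + 2 * Real.arctan (x.1.2.2.1 * x.2))
      (x'.1.2.2.2 + 2 * Real.arctan (x'.1.2.2.1 * x'.2)) ≤ _
    rw [Real.dist_eq]
    calc |x.1.2.2.2 + 2 * Real.arctan (x.1.2.2.1 * x.2) -
        (x'.1.2.2.2 + 2 * Real.arctan (x'.1.2.2.1 * x'.2))| =
        |(x.1.2.2.2 - x'.1.2.2.2) + (2 * Real.arctan (x.1.2.2.1 * x.2) -
          2 * Real.arctan (x'.1.2.2.1 * x'.2))| := by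
          congr 1
          ring
      _ ≤ _ := abs_add_le _ _
      _ ≤ (21 + 2 / c) * dist x x' := by linarith
  · show dist (-x.2) (-x'.2) ≤ _
    rw [dist_neg_neg, Real.dist_eq]
    exact hd2.trans hone

/-! ### The two pieces -/

/-- the error on the outgoing piece -/
def e4b_E1 (μ G : ℝ) (x : Dt × ℝ) (t : ℝ) : ℂ × ℂ :=
  ((t : ℂ) * e4b_a μ x (G * t) + (((μ / G) ^ 2 / t : ℝ) : ℂ) * e4b_b μ x (G * t),
    e4b_r μ x (G * t))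

/-- the error on the other piece -/
def e4b_E2 (μ G : ℝ) (x : Dt × ℝ) (t : ℝ) : ℂ × ℂ :=
  (((-((μ / G) ^ 2 / t) : ℝ) : ℂ) * e4b_a μ x (μ ^ 2 / (G * t)) +
    ((-t : ℝ) : ℂ) * e4b_b μ x (μ ^ 2 / (G * t)), e4b_r μ x (μ ^ 2 / (G * t)))

theorem e4b_legV1 {μ G : ℝ} (hμ : 0 < μ) (hG : 0 < G) (x : Dt × ℝ) {t : ℝ} (ht : 0 < t)
    (h : μ ≤ G * t) :
    legV μ G x.1 x.2 t - legV0 (μ / G) x.1 x.2 t = e4b_E1 μ G x t := by
  unfold legV legV0 e4b_E1 e4b_a e4b_b e4b_r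
  rw [if_pos h]
  refine Prod.ext ?_ rfl
  simp only [Prod.fst_sub]
  have h1 : (((μ / G) ^ 2 / t : ℝ) : ℂ) * (((G * t / μ) ^ 2 : ℝ) : ℂ) = (t : ℂ) := by
    rw [← Complex.ofReal_mul]
    congr 1
    field_simp
  linear_combination (-(innV μ x.1 x.2 (G * t)).2.1) * h1

theorem e4b_legV2 {c : ℝ} (hc : 0 < c) {μ G : ℝ} (hμ : 0 < μ) (hG : 0 < G) {x : Dt × ℝ}
    (hx : x ∈ DD c ×ˢ JJ) {t : ℝ} (ht : 0 < t) (h : ¬ μ ≤ G * t) :
    legV μ G x.1 x.2 t - legV0 (μ / G) x.1 x.2 t = e4b_E2 μ G (flipD x.1 x.2, -x.2) t := by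
  obtain ⟨hf1, hf2⟩ := flip_alg x.1 x.2 (lt_of_lt_of_le hc hx.1.2.2.2.1)
  unfold legV legV0 e4b_E2 e4b_a e4b_b e4b_r
  rw [if_neg h]
  refine Prod.ext ?_ rfl
  simp only [Prod.fst_sub]
  rw [hf1, hf2]
  have h1 : ((μ ^ 2 / (G * t) / G : ℝ) : ℂ) = (((μ / G) ^ 2 / t : ℝ) : ℂ) := by
    congr 1
    field_simp
  have h2 : (t : ℂ) * (((μ ^ 2 / (G * t) / μ) ^ 2 : ℝ) : ℂ) = (((μ / G) ^ 2 / t : ℝ) : ℂ) := by
    rw [← Complex.ofReal_mul]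
    congr 1
    field_simp
  rw [h1]
  push_cast at h2 ⊢
  linear_combination ((innV μ (flipD x.1 x.2) (-x.2) (μ ^ 2 / (G * t))).2.1) * h2

theorem e4b_inv_lip {a t t' : ℝ} (ha : 0 < a) (ht : a ≤ t) (ht' : a ≤ t') {q : ℝ} (hq : 0 ≤ q) :
    |q / t - q / t'| ≤ q / a ^ 2 * |t - t'| := by
  have h1 : 0 < t := lt_of_lt_of_le ha ht
  have h2 : 0 < t' := lt_of_lt_of_le ha ht'
  have h3 : q / t - q / t' = q / (t * t') * (t' - t) := by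
    field_simp
  rw [h3, abs_mul, abs_of_nonneg (by positivity), abs_sub_comm]
  refine mul_le_mul_of_nonneg_right ?_ (abs_nonneg _)
  refine div_le_div_of_nonneg_left hq (by positivity) ?_
  nlinarith

/-- the outgoing piece -/
theorem e4b_piece1 {c L σ : ℝ} (hL : 1 ≤ L)
    {μ G ϖ1 ϖ2 K : ℝ} (hμ : 0 < μ) (hG : 0 < G) (hG1 : G ≤ 1) (hϖ : 0 < ϖ1) (hϖ' : ϖ1 ≤ ϖ2)
    (hK : K = 1 + ϖ2 + 1 / ϖ1 + 1 / ϖ1 ^ 2) (hγ : G * ϖ2 ≤ σ)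
    (ha : ∀ γ, γ ≤ σ → E4bBd (L * γ ^ 2) (L * γ) (DD c ×ˢ JJ) (Icc μ γ) (e4b_a μ))
    (hb : ∀ γ, γ ≤ σ → E4bBd (L * (γ ^ 6 / μ ^ 2)) (L * (γ ^ 5 / μ ^ 2)) (DD c ×ˢ JJ) (Icc μ γ)
      (e4b_b μ))
    (hr : ∀ γ, γ ≤ σ → E4bBd (L * γ ^ 2) (L * γ) (DD c ×ˢ JJ) (Icc μ γ) (e4b_r μ)) :
    E4bBd (4 * (L * K ^ 7 * G)) (4 * (L * K ^ 7 * G)) (DD c ×ˢ JJ)
      {t | t ∈ Icc ϖ1 ϖ2 ∧ μ ≤ G * t} (e4b_E1 μ G) := by
  have hi1 : 0 < 1 / ϖ1 := by positivity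
  have hi2 : 0 < 1 / ϖ1 ^ 2 := by positivity
  have hϖ2 : 0 < ϖ2 := lt_of_lt_of_le hϖ hϖ'
  have hK1 : 1 ≤ K := by rw [hK]; linarith
  have hK0 : 0 < K := by linarith
  have hL0 : 0 < L := by linarith
  have hZ : ∀ i j : ℕ, i ≤ 7 → 1 ≤ j → L * K ^ i * G ^ j ≤ L * K ^ 7 * G := by
    intro i j hi hj
    have h1 : K ^ i ≤ K ^ 7 := pow_le_pow_right₀ hK1 hi
    have h2 : G ^ j ≤ G := by
      calc G ^ j ≤ G ^ 1 := pow_le_pow_of_le_one hG.le hG1 hj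
        _ = G := pow_one G
    gcongr
  set γ : ℝ := G * ϖ2 with hγdef
  have hγ0 : 0 < γ := by positivity
  have hγK : γ ≤ K * G := by
    rw [hγdef, mul_comm]
    refine mul_le_mul_of_nonneg_right ?_ hG.le
    rw [hK]
    linarith
  set T : Set ℝ := {t | t ∈ Icc ϖ1 ϖ2 ∧ μ ≤ G * t} with hT
  have hmaps : ∀ t ∈ T, G * t ∈ Icc μ γ := fun t ht => ⟨ht.2,
    mul_le_mul_of_nonneg_left ht.1.2 hG.le⟩
  have hlip : ∀ t ∈ T, ∀ t' ∈ T, |G * t - G * t'| ≤ G * |t - t'| := by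
    intro t _ t' _
    rw [← mul_sub, abs_mul, abs_of_pos hG]
  have hA := e4b_comp (by positivity) (ha γ hγ) hmaps hlip
  have hB := e4b_comp (by positivity) (hb γ hγ) hmaps hlip
  have hR := e4b_comp (by positivity) (hr γ hγ) hmaps hlip
  have hid : ∀ t ∈ T, |t| ≤ K := by
    intro t ht
    rw [abs_of_pos (lt_of_lt_of_le hϖ ht.1.1), hK]
    linarith [ht.1.2]
  have hid' : ∀ t ∈ T, ∀ t' ∈ T, |t - t'| ≤ K * |t - t'| := by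
    intro t _ t' _
    nlinarith [abs_nonneg (t - t')]
  have hq0 : 0 ≤ (μ / G) ^ 2 := by positivity
  have hinv : ∀ t ∈ T, |(μ / G) ^ 2 / t| ≤ (μ / G) ^ 2 * K := by
    intro t ht
    have h1 : 0 < t := lt_of_lt_of_le hϖ ht.1.1
    rw [abs_of_nonneg (by positivity), div_eq_mul_one_div]
    refine mul_le_mul_of_nonneg_left ?_ hq0
    have h2 : 1 / t ≤ 1 / ϖ1 := one_div_le_one_div_of_le hϖ ht.1.1
    rw [hK]
    linarith
  have hinv' : ∀ t ∈ T, ∀ t' ∈ T, |(μ / G) ^ 2 / t - (μ / G) ^ 2 / t'| ≤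
      (μ / G) ^ 2 * K * |t - t'| := by
    intro t ht t' ht'
    refine (e4b_inv_lip hϖ ht.1.1 ht'.1.1 hq0).trans ?_
    refine mul_le_mul_of_nonneg_right ?_ (abs_nonneg _)
    rw [div_eq_mul_one_div]
    refine mul_le_mul_of_nonneg_left ?_ hq0
    rw [hK]
    linarith
  have h1 := e4b_mul hA hK0.le (by positivity) hid hid'
  have h2 := e4b_mul hB (k := (μ / G) ^ 2 * K) (by positivity) (by positivity) hinv hinv'
  have e1 : K * (L * γ ^ 2) ≤ L * K ^ 7 * G := by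
    calc K * (L * γ ^ 2) ≤ K * (L * (K * G) ^ 2) := by gcongr
      _ = L * K ^ 3 * G ^ 2 := by ring
      _ ≤ _ := hZ 3 2 (by norm_num) (by norm_num)
  have e2 : K * (L * γ * G) ≤ L * K ^ 7 * G := by
    calc K * (L * γ * G) ≤ K * (L * (K * G) * G) := by gcongr
      _ = L * K ^ 2 * G ^ 2 := by ring
      _ ≤ _ := hZ 2 2 (by norm_num) (by norm_num)
  have e3 : (μ / G) ^ 2 * K * (L * (γ ^ 6 / μ ^ 2)) ≤ L * K ^ 7 * G := by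
    calc (μ / G) ^ 2 * K * (L * (γ ^ 6 / μ ^ 2)) ≤ (μ / G) ^ 2 * K * (L * ((K * G) ^ 6 / μ ^ 2)) := by
          gcongr
      _ = L * K ^ 7 * G ^ 4 := by
          field_simp
      _ ≤ _ := hZ 7 4 (by norm_num) (by norm_num)
  have e4 : (μ / G) ^ 2 * K * (L * (γ ^ 5 / μ ^ 2) * G) ≤ L * K ^ 7 * G := by
    calc (μ / G) ^ 2 * K * (L * (γ ^ 5 / μ ^ 2) * G) ≤
        (μ / G) ^ 2 * K * (L * ((K * G) ^ 5 / μ ^ 2) * G) := by
          gcongr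
      _ = L * K ^ 6 * G ^ 4 := by
          field_simp
      _ ≤ _ := hZ 6 4 (by norm_num) (by norm_num)
  have e5 : L * γ ^ 2 ≤ L * K ^ 7 * G := by
    calc L * γ ^ 2 ≤ L * (K * G) ^ 2 := by gcongr
      _ = L * K ^ 2 * G ^ 2 := by ring
      _ ≤ _ := hZ 2 2 (by norm_num) (by norm_num)
  have e6 : L * γ * G ≤ L * K ^ 7 * G := by
    calc L * γ * G ≤ L * (K * G) * G := by gcongr
      _ = L * K ^ 1 * G ^ 2 := by ring
      _ ≤ _ := hZ 1 2 (by norm_num) (by norm_num)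
  have hZ0 : 0 ≤ L * K ^ 7 * G := by positivity
  have h3 := e4b_mono (e4b_add h1 h2) (M' := 4 * (L * K ^ 7 * G)) (N' := 4 * (L * K ^ 7 * G))
    (by linarith) (by linarith)
  have h4 := e4b_mono hR (M' := 4 * (L * K ^ 7 * G)) (N' := 4 * (L * K ^ 7 * G))
    (by linarith) (by linarith)
  exact e4b_prod h3 h4

/-- the other piece -/
theorem e4b_piece2 {c L σ : ℝ} (hL : 1 ≤ L)
    {μ G ϖ1 ϖ2 K : ℝ} (hμ : 0 < μ) (hμG : μ ≤ G) (hG1 : G ≤ 1) (hϖ : 0 < ϖ1) (hϖ' : ϖ1 ≤ ϖ2)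
    (hK : K = 1 + ϖ2 + 1 / ϖ1 + 1 / ϖ1 ^ 2) (hγ : 2 * μ ≤ σ) (hlow : μ / 2 ≤ G * ϖ1)
    (ha : ∀ γ, γ ≤ σ → E4bBd (L * γ ^ 2) (L * γ) (DD c ×ˢ JJ) (Icc μ γ) (e4b_a μ))
    (hb : ∀ γ, γ ≤ σ → E4bBd (L * (γ ^ 6 / μ ^ 2)) (L * (γ ^ 5 / μ ^ 2)) (DD c ×ˢ JJ) (Icc μ γ)
      (e4b_b μ))
    (hr : ∀ γ, γ ≤ σ → E4bBd (L * γ ^ 2) (L * γ) (DD c ×ˢ JJ) (Icc μ γ) (e4b_r μ)) :
    E4bBd (102 * (L * K ^ 7 * G)) (102 * (L * K ^ 7 * G)) (DD c ×ˢ JJ)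
      {t | t ∈ Icc ϖ1 ϖ2 ∧ G * t ≤ μ} (e4b_E2 μ G) := by
  have hG : 0 < G := lt_of_lt_of_le hμ hμG
  have hi1 : 0 < 1 / ϖ1 := by positivity
  have hi2 : 0 < 1 / ϖ1 ^ 2 := by positivity
  have hϖ2 : 0 < ϖ2 := lt_of_lt_of_le hϖ hϖ'
  have hK1 : 1 ≤ K := by rw [hK]; linarith
  have hK0 : 0 < K := by linarith
  have hL0 : 0 < L := by linarith
  have hZ : ∀ i j : ℕ, i ≤ 7 → 1 ≤ j → L * K ^ i * G ^ j ≤ L * K ^ 7 * G := by
    intro i j hi hj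
    have h1 : K ^ i ≤ K ^ 7 := pow_le_pow_right₀ hK1 hi
    have h2 : G ^ j ≤ G := by
      calc G ^ j ≤ G ^ 1 := pow_le_pow_of_le_one hG.le hG1 hj
        _ = G := pow_one G
    gcongr
  set T : Set ℝ := {t | t ∈ Icc ϖ1 ϖ2 ∧ G * t ≤ μ} with hT
  have hmaps : ∀ t ∈ T, μ ^ 2 / (G * t) ∈ Icc μ (2 * μ) := by
    intro t ht
    have h1 : 0 < t := lt_of_lt_of_le hϖ ht.1.1
    have h2 : 0 < G * t := by positivity
    refine ⟨?_, ?_⟩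
    · rw [le_div_iff₀ h2]
      nlinarith [ht.2]
    · rw [div_le_iff₀ h2]
      have h3 : G * ϖ1 ≤ G * t := mul_le_mul_of_nonneg_left ht.1.1 hG.le
      nlinarith
  have hlip : ∀ t ∈ T, ∀ t' ∈ T, |μ ^ 2 / (G * t) - μ ^ 2 / (G * t')| ≤ G * K * |t - t'| := by
    intro t ht t' ht'
    have h1 : μ ^ 2 / (G * t) = μ ^ 2 / G / t := by rw [div_div]
    have h2 : μ ^ 2 / (G * t') = μ ^ 2 / G / t' := by rw [div_div]
    rw [h1, h2]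
    refine (e4b_inv_lip hϖ ht.1.1 ht'.1.1 (by positivity)).trans ?_
    refine mul_le_mul_of_nonneg_right ?_ (abs_nonneg _)
    have h3 : μ ^ 2 / G ≤ G := by
      rw [div_le_iff₀ hG]
      nlinarith
    rw [div_eq_mul_one_div]
    refine mul_le_mul h3 ?_ hi2.le hG.le
    rw [hK]
    linarith
  have hA := e4b_comp (by positivity) (ha (2 * μ) hγ) hmaps hlip
  have hB := e4b_comp (by positivity) (hb (2 * μ) hγ) hmaps hlip
  have hR := e4b_comp (by positivity) (hr (2 * μ) hγ) hmaps hlip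
  have hid : ∀ t ∈ T, |-t| ≤ K := by
    intro t ht
    rw [abs_neg, abs_of_pos (lt_of_lt_of_le hϖ ht.1.1), hK]
    linarith [ht.1.2]
  have hid' : ∀ t ∈ T, ∀ t' ∈ T, |-t - -t'| ≤ K * |t - t'| := by
    intro t _ t' _
    have : -t - -t' = -(t - t') := by ring
    rw [this, abs_neg]
    nlinarith [abs_nonneg (t - t')]
  have hm1 : μ / G ≤ 1 := by
    rw [div_le_one hG]
    exact hμG
  have hm0 : 0 ≤ μ / G := by positivity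
  have hq0 : 0 ≤ (μ / G) ^ 2 := by positivity
  have hq1 : (μ / G) ^ 2 ≤ 1 := pow_le_one₀ hm0 hm1
  have hinv : ∀ t ∈ T, |-((μ / G) ^ 2 / t)| ≤ K := by
    intro t ht
    have h1 : 0 < t := lt_of_lt_of_le hϖ ht.1.1
    rw [abs_neg, abs_of_nonneg (by positivity)]
    have h2 : 1 / t ≤ 1 / ϖ1 := one_div_le_one_div_of_le hϖ ht.1.1
    have h3 : (μ / G) ^ 2 / t ≤ 1 / t := div_le_div_of_nonneg_right hq1 h1.le
    rw [hK]
    linarith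
  have hinv' : ∀ t ∈ T, ∀ t' ∈ T, |-((μ / G) ^ 2 / t) - -((μ / G) ^ 2 / t')| ≤
      K * |t - t'| := by
    intro t ht t' ht'
    have : -((μ / G) ^ 2 / t) - -((μ / G) ^ 2 / t') = -((μ / G) ^ 2 / t - (μ / G) ^ 2 / t') := by
      ring
    rw [this, abs_neg]
    refine (e4b_inv_lip hϖ ht.1.1 ht'.1.1 hq0).trans ?_
    refine mul_le_mul_of_nonneg_right ?_ (abs_nonneg _)
    have h3 : (μ / G) ^ 2 / ϖ1 ^ 2 ≤ 1 / ϖ1 ^ 2 := div_le_div_of_nonneg_right hq1 (by positivity)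
    rw [hK]
    linarith
  have h1 := e4b_mul hA hK0.le (by positivity) hinv hinv'
  have h2 := e4b_mul hB hK0.le (by positivity) hid hid'
  have e1 : K * (L * (2 * μ) ^ 2) ≤ 4 * (L * K ^ 7 * G) := by
    calc K * (L * (2 * μ) ^ 2) ≤ K * (L * (2 * G) ^ 2) := by gcongr
      _ = 4 * (L * K ^ 1 * G ^ 2) := by ring
      _ ≤ _ := mul_le_mul_of_nonneg_left (hZ 1 2 (by norm_num) (by norm_num)) (by norm_num)
  have e2 : K * (L * (2 * μ) * (G * K)) ≤ 2 * (L * K ^ 7 * G) := by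
    calc K * (L * (2 * μ) * (G * K)) ≤ K * (L * (2 * G) * (G * K)) := by gcongr
      _ = 2 * (L * K ^ 2 * G ^ 2) := by ring
      _ ≤ _ := mul_le_mul_of_nonneg_left (hZ 2 2 (by norm_num) (by norm_num)) (by norm_num)
  have e3 : K * (L * ((2 * μ) ^ 6 / μ ^ 2)) ≤ 64 * (L * K ^ 7 * G) := by
    calc K * (L * ((2 * μ) ^ 6 / μ ^ 2)) = 64 * (L * K ^ 1 * μ ^ 4) := by
          field_simp
          ring
      _ ≤ 64 * (L * K ^ 1 * G ^ 4) := by gcongr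
      _ ≤ _ := mul_le_mul_of_nonneg_left (hZ 1 4 (by norm_num) (by norm_num)) (by norm_num)
  have e4 : K * (L * ((2 * μ) ^ 5 / μ ^ 2) * (G * K)) ≤ 32 * (L * K ^ 7 * G) := by
    calc K * (L * ((2 * μ) ^ 5 / μ ^ 2) * (G * K)) = 32 * (L * K ^ 2 * (μ ^ 3 * G)) := by
          field_simp
          ring
      _ ≤ 32 * (L * K ^ 2 * (G ^ 3 * G)) := by gcongr
      _ = 32 * (L * K ^ 2 * G ^ 4) := by ring
      _ ≤ _ := mul_le_mul_of_nonneg_left (hZ 2 4 (by norm_num) (by norm_num)) (by norm_num)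
  have e5 : L * (2 * μ) ^ 2 ≤ 4 * (L * K ^ 7 * G) := by
    calc L * (2 * μ) ^ 2 ≤ L * (2 * G) ^ 2 := by gcongr
      _ = 4 * (L * K ^ 0 * G ^ 2) := by ring
      _ ≤ _ := mul_le_mul_of_nonneg_left (hZ 0 2 (by norm_num) (by norm_num)) (by norm_num)
  have e6 : L * (2 * μ) * (G * K) ≤ 2 * (L * K ^ 7 * G) := by
    calc L * (2 * μ) * (G * K) ≤ L * (2 * G) * (G * K) := by gcongr
      _ = 2 * (L * K ^ 1 * G ^ 2) := by ring
      _ ≤ _ := mul_le_mul_of_nonneg_left (hZ 1 2 (by norm_num) (by norm_num)) (by norm_num)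
  have hZ0 : 0 ≤ L * K ^ 7 * G := by positivity
  have h3 := e4b_mono (e4b_add h1 h2) (M' := 102 * (L * K ^ 7 * G)) (N' := 102 * (L * K ^ 7 * G))
    (by linarith) (by linarith)
  have h4 := e4b_mono hR (M' := 102 * (L * K ^ 7 * G)) (N' := 102 * (L * K ^ 7 * G))
    (by linarith) (by linarith)
  exact e4b_prod h3 h4

/-- the difference to the limit with the exact ratio `μ / G` -/
theorem e4b_near1 {c L σ : ℝ} (hc : 0 < c) (hL : 1 ≤ L)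
    {μ G ϖ1 ϖ2 K : ℝ} (hμ : 0 < μ) (hμG : μ ≤ G) (hG1 : G ≤ 1) (hϖ : 0 < ϖ1) (hϖ' : ϖ1 ≤ ϖ2)
    (hK : K = 1 + ϖ2 + 1 / ϖ1 + 1 / ϖ1 ^ 2) (hγ1 : G * ϖ2 ≤ σ) (hγ : 2 * μ ≤ σ)
    (hlow : μ / 2 ≤ G * ϖ1)
    (ha : ∀ γ, γ ≤ σ → E4bBd (L * γ ^ 2) (L * γ) (DD c ×ˢ JJ) (Icc μ γ) (e4b_a μ))
    (hb : ∀ γ, γ ≤ σ → E4bBd (L * (γ ^ 6 / μ ^ 2)) (L * (γ ^ 5 / μ ^ 2)) (DD c ×ˢ JJ) (Icc μ γ)
      (e4b_b μ))
    (hr : ∀ γ, γ ≤ σ → E4bBd (L * γ ^ 2) (L * γ) (DD c ×ˢ JJ) (Icc μ γ) (e4b_r μ))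
    (h0 : ∀ x ∈ DD c ×ˢ JJ, e4b_a μ x μ = 0 ∧ e4b_b μ x μ = 0 ∧ e4b_r μ x μ = 0) :
    Near (204 * (L * K ^ 7) * (21 + 2 / c) * G) (fun p : Dt × ℝ × ℝ => legV μ G p.1 p.2.1 p.2.2)
        (fun p => legV0 (μ / G) p.1 p.2.1 p.2.2) (DD c ×ˢ (JJ ×ˢ Icc ϖ1 ϖ2)) := by
  have hG : 0 < G := lt_of_lt_of_le hμ hμG
  have hK1 : 1 ≤ K := by
    have hi1 : 0 < 1 / ϖ1 := by positivity
    have hi2 : 0 < 1 / ϖ1 ^ 2 := by positivity
    have hϖ2 : 0 < ϖ2 := lt_of_lt_of_le hϖ hϖ'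
    rw [hK]
    linarith
  have hK0 : 0 < K := by linarith
  have hL0 : 0 < L := by linarith
  have hp1 := e4b_piece1 hL hμ hG hG1 hϖ hϖ' hK hγ1 ha hb hr
  have hp2 := e4b_piece2 hL hμ hμG hG1 hϖ hϖ' hK hγ hlow ha hb hr
  set Z : ℝ := L * K ^ 7 * G with hZdef
  have hZ0 : 0 < Z := by positivity
  set Λ : ℝ := 21 + 2 / c with hΛ
  have hΛ1 : 1 ≤ Λ := by
    have : 0 < 2 / c := by positivity
    rw [hΛ]
    linarith
  have hp3 : E4bBd (102 * Z * Λ) (102 * Z) (DD c ×ˢ JJ) {t | t ∈ Icc ϖ1 ϖ2 ∧ G * t ≤ μ}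
      (fun x t => e4b_E2 μ G (flipD x.1 x.2, -x.2) t) :=
    e4b_pull (X := Dt × ℝ) (S := DD c ×ˢ JJ) (g := fun x : Dt × ℝ => (flipD x.1 x.2, -x.2))
      (by positivity) hΛ1 hp2 (fun y hy => e4b_flip_mem hy) (fun y hy y' hy' => e4b_flip_lip hc hy hy')
  have hconst : 204 * (L * K ^ 7) * Λ * G = 204 * Z * Λ := by
    rw [hZdef]
    ring
  rw [hconst]
  have hZΛ : Z ≤ Z * Λ := le_mul_of_one_le_right hZ0.le hΛ1
  have hGm : G * (μ / G) = μ := by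
    field_simp
  have hGm2 : μ ^ 2 / (G * (μ / G)) = μ := by
    rw [hGm]
    field_simp
  have hE1m : ∀ x ∈ DD c ×ˢ JJ, e4b_E1 μ G x (μ / G) = 0 := by
    intro x hx
    obtain ⟨z1, z2, z3⟩ := h0 x hx
    unfold e4b_E1
    rw [hGm, z1, z2, z3]
    simp
  have hE2m : ∀ x ∈ DD c ×ˢ JJ, e4b_E2 μ G (flipD x.1 x.2, -x.2) (μ / G) = 0 := by
    intro x hx
    obtain ⟨z1, z2, z3⟩ := h0 _ (e4b_flip_mem hx)
    unfold e4b_E2
    rw [hGm2, z1, z2, z3]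
    simp
  have hval : ∀ p ∈ DD c ×ˢ (JJ ×ˢ Icc ϖ1 ϖ2), (μ ≤ G * p.2.2 ∧
      legV μ G p.1 p.2.1 p.2.2 - legV0 (μ / G) p.1 p.2.1 p.2.2 = e4b_E1 μ G (p.1, p.2.1) p.2.2) ∨
      (¬ μ ≤ G * p.2.2 ∧ legV μ G p.1 p.2.1 p.2.2 - legV0 (μ / G) p.1 p.2.1 p.2.2 =
        e4b_E2 μ G (flipD p.1 p.2.1, -p.2.1) p.2.2) := by
    intro p hp
    have ht : 0 < p.2.2 := lt_of_lt_of_le hϖ hp.2.2.1
    by_cases h : μ ≤ G * p.2.2
    · exact Or.inl ⟨h, e4b_legV1 hμ hG (p.1, p.2.1) ht h⟩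
    · exact Or.inr ⟨h, e4b_legV2 hc hμ hG (x := (p.1, p.2.1)) ⟨hp.1, hp.2.1⟩ ht h⟩
  -- the mixed case
  have hmix : ∀ p ∈ DD c ×ˢ (JJ ×ˢ Icc ϖ1 ϖ2), ∀ q ∈ DD c ×ˢ (JJ ×ˢ Icc ϖ1 ϖ2),
      μ ≤ G * p.2.2 → ¬ μ ≤ G * q.2.2 →
      ‖e4b_E1 μ G (p.1, p.2.1) p.2.2‖ + ‖e4b_E2 μ G (flipD q.1 q.2.1, -q.2.1) q.2.2‖ ≤
        204 * Z * Λ * |p.2.2 - q.2.2| := by
    intro p hp q hq hp' hq'
    push Not at hq'
    have m1 : q.2.2 < μ / G := by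
      rw [lt_div_iff₀ hG, mul_comm]
      exact hq'
    have m2 : μ / G ≤ p.2.2 := by
      rw [div_le_iff₀ hG, mul_comm]
      exact hp'
    have hq1 : ϖ1 ≤ q.2.2 := hq.2.2.1
    have hmI : μ / G ∈ Icc ϖ1 ϖ2 := ⟨by linarith, m2.trans hp.2.2.2⟩
    have b1 := hp1.lt (p.1, p.2.1) ⟨hp.1, hp.2.1⟩ p.2.2 ⟨hp.2.2, hp'⟩ (μ / G) ⟨hmI, hGm.ge⟩
    rw [hE1m (p.1, p.2.1) ⟨hp.1, hp.2.1⟩, sub_zero] at b1
    have b2 := hp3.lt (q.1, q.2.1) ⟨hq.1, hq.2.1⟩ q.2.2 ⟨hq.2.2, hq'.le⟩ (μ / G) ⟨hmI, hGm.le⟩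
    rw [hE2m (q.1, q.2.1) ⟨hq.1, hq.2.1⟩, sub_zero] at b2
    have a1 : |p.2.2 - μ / G| ≤ |p.2.2 - q.2.2| := by
      rw [abs_of_nonneg (by linarith), abs_of_nonneg (by linarith)]
      linarith
    have a2 : |q.2.2 - μ / G| ≤ |p.2.2 - q.2.2| := by
      rw [abs_of_nonpos (by linarith), abs_of_nonneg (by linarith)]
      linarith
    calc _ ≤ 4 * Z * |p.2.2 - μ / G| + 102 * Z * |q.2.2 - μ / G| := by
          refine add_le_add (b1.trans (le_of_eq (by ring))) (b2.trans (le_of_eq (by ring)))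
      _ ≤ 4 * Z * |p.2.2 - q.2.2| + 102 * Z * |p.2.2 - q.2.2| := by gcongr
      _ = 106 * Z * |p.2.2 - q.2.2| := by ring
      _ ≤ 204 * Z * Λ * |p.2.2 - q.2.2| := by
          refine mul_le_mul_of_nonneg_right ?_ (abs_nonneg _)
          nlinarith
  have hdist : ∀ p q : Dt × ℝ × ℝ, dist (p.1, p.2.1) (q.1, q.2.1) ≤ dist p q ∧
      |p.2.2 - q.2.2| ≤ dist p q := by
    intro p q
    refine ⟨max_le (le_max_left _ _) ((le_max_left _ _).trans (le_max_right _ _)), ?_⟩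
    rw [← Real.dist_eq]
    exact (le_max_right _ _).trans (le_max_right _ _)
  refine ⟨fun p hp => ?_, fun p hp q hq => ?_⟩
  · rcases hval p hp with ⟨h, hv⟩ | ⟨h, hv⟩
    · show ‖legV μ G p.1 p.2.1 p.2.2 - legV0 (μ / G) p.1 p.2.1 p.2.2‖ ≤ _
      rw [hv]
      have := hp1.bd (p.1, p.2.1) ⟨hp.1, hp.2.1⟩ p.2.2 ⟨hp.2.2, h⟩
      refine this.trans ?_
      nlinarith
    · show ‖legV μ G p.1 p.2.1 p.2.2 - legV0 (μ / G) p.1 p.2.1 p.2.2‖ ≤ _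
      rw [hv]
      push Not at h
      have := hp3.bd (p.1, p.2.1) ⟨hp.1, hp.2.1⟩ p.2.2 ⟨hp.2.2, h.le⟩
      refine this.trans ?_
      nlinarith
  · show ‖legV μ G p.1 p.2.1 p.2.2 - legV0 (μ / G) p.1 p.2.1 p.2.2 -
      (legV μ G q.1 q.2.1 q.2.2 - legV0 (μ / G) q.1 q.2.1 q.2.2)‖ ≤ _
    obtain ⟨d1, d2⟩ := hdist p q
    have hD : 0 ≤ dist p q := dist_nonneg
    rcases hval p hp with ⟨h, hv⟩ | ⟨h, hv⟩ <;> rcases hval q hq with ⟨h', hv'⟩ | ⟨h', hv'⟩ <;>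
      rw [hv, hv']
    · have := e4b_both hp1 (by positivity) (by positivity) (x := (p.1, p.2.1)) (x' := (q.1, q.2.1))
        (t := p.2.2) (t' := q.2.2) ⟨hp.1, hp.2.1⟩ ⟨hq.1, hq.2.1⟩ ⟨hp.2.2, h⟩ ⟨hq.2.2, h'⟩ d1 d2
      refine this.trans (mul_le_mul_of_nonneg_right ?_ hD)
      nlinarith
    · refine (norm_sub_le _ _).trans ((hmix p hp q hq h h').trans ?_)
      exact mul_le_mul_of_nonneg_left d2 (by positivity)
    · rw [norm_sub_rev]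
      refine (norm_sub_le _ _).trans ((hmix q hq p hp h' h).trans ?_)
      rw [abs_sub_comm]
      exact mul_le_mul_of_nonneg_left d2 (by positivity)
    · push Not at h h'
      have := e4b_both hp3 (by positivity) (by positivity) (x := (p.1, p.2.1)) (x' := (q.1, q.2.1))
        (t := p.2.2) (t' := q.2.2) ⟨hp.1, hp.2.1⟩ ⟨hq.1, hq.2.1⟩ ⟨hp.2.2, h.le⟩ ⟨hq.2.2, h'.le⟩ d1 d2
      refine this.trans (mul_le_mul_of_nonneg_right ?_ hD)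
      nlinarith

theorem e4b_D0 (c : ℝ) (hc : 0 < c) : ∃ L : ℝ, 1 ≤ L ∧ ∀ T : Set ℝ,
    E4bBd L 0 (DD c ×ˢ JJ) T (fun x _ => D0 x.1.2.2.1 x.1.2.2.2 x.2) := by
  obtain ⟨L, hL1, h1, h2⟩ := A0_lip c hc
  refine ⟨2 * L, by linarith, fun T => ⟨fun x hx t _ => ?_, fun x hx x' hx' t _ => ?_,
    fun x _ t _ t' _ => by simp⟩⟩
  · obtain ⟨⟨_, _, _, h4, h5⟩, h6⟩ := hx
    have h7 := (A0_alg x.1.2.2.1 x.1.2.2.2 x.2 (lt_of_lt_of_le hc h4)).2.1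
    rw [h7]
    linarith [(h1 _ h4 h5 _ h6).2.1]
  · have h3 := h2 x.1 hx.1 x'.1 hx'.1 x.2 hx.2 x'.2 hx'.2
    have h4 : ‖D0 x.1.2.2.1 x.1.2.2.2 x.2 - D0 x'.1.2.2.1 x'.1.2.2.2 x'.2‖ ≤
        ‖inn0 x.1 x.2 - inn0 x'.1 x'.2‖ :=
      (norm_fst_le (inn0 x.1 x.2 - inn0 x'.1 x'.2).2).trans
        (norm_snd_le (inn0 x.1 x.2 - inn0 x'.1 x'.2))
    have h5 : ‖x.1 - x'.1‖ ≤ dist x x' := by
      rw [← dist_eq_norm]
      exact le_max_left _ _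
    have h6 : |x.2 - x'.2| ≤ dist x x' := by
      rw [← Real.dist_eq]
      exact le_max_right _ _
    refine (h4.trans h3).trans ?_
    nlinarith

/-- change of the ratio -/
theorem e4b_near2 {c L : ℝ} (hL : 1 ≤ L)
    (hD : ∀ T : Set ℝ, E4bBd L 0 (DD c ×ˢ JJ) T (fun x _ => D0 x.1.2.2.1 x.1.2.2.2 x.2))
    {m lam ϖ1 ϖ2 K : ℝ} (hm0 : 0 ≤ m) (hm1 : m ≤ 1) (hl0 : 0 ≤ lam) (hl1 : lam ≤ 1)
    (hϖ : 0 < ϖ1) (hϖ' : ϖ1 ≤ ϖ2) (hK : K = 1 + ϖ2 + 1 / ϖ1 + 1 / ϖ1 ^ 2) :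
    Near (4 * K * L * |m - lam|) (fun p : Dt × ℝ × ℝ => legV0 m p.1 p.2.1 p.2.2)
        (fun p => legV0 lam p.1 p.2.1 p.2.2) (DD c ×ˢ (JJ ×ˢ Icc ϖ1 ϖ2)) := by
  have hi1 : 0 < 1 / ϖ1 := by positivity
  have hi2 : 0 < 1 / ϖ1 ^ 2 := by positivity
  have hϖ2 : 0 < ϖ2 := lt_of_lt_of_le hϖ hϖ'
  have hK1 : 1 ≤ K := by rw [hK]; linarith
  have hK0 : 0 < K := by linarith
  have hL0 : 0 < L := by linarith
  have habs : |m ^ 2 - lam ^ 2| ≤ 2 * |m - lam| := by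
    have : m ^ 2 - lam ^ 2 = (m + lam) * (m - lam) := by ring
    rw [this, abs_mul, abs_of_nonneg (by linarith)]
    exact mul_le_mul_of_nonneg_right (by linarith) (abs_nonneg _)
  have ha0 := abs_nonneg (m - lam)
  have h1 : ∀ t ∈ Icc ϖ1 ϖ2, |(m ^ 2 - lam ^ 2) / t| ≤ 2 * |m - lam| * K := by
    intro t ht
    have h0 : 0 < t := lt_of_lt_of_le hϖ ht.1
    rw [abs_div, abs_of_pos h0, div_eq_mul_one_div]
    refine mul_le_mul habs ?_ (by positivity) (by positivity)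
    have h2 : 1 / t ≤ 1 / ϖ1 := one_div_le_one_div_of_le hϖ ht.1
    rw [hK]
    linarith
  have h2 : ∀ t ∈ Icc ϖ1 ϖ2, ∀ t' ∈ Icc ϖ1 ϖ2,
      |(m ^ 2 - lam ^ 2) / t - (m ^ 2 - lam ^ 2) / t'| ≤ 2 * |m - lam| * K * |t - t'| := by
    intro t ht t' ht'
    have h3 := e4b_inv_lip hϖ ht.1 ht'.1 (q := 1) zero_le_one
    have h4 : (m ^ 2 - lam ^ 2) / t - (m ^ 2 - lam ^ 2) / t' =
        (m ^ 2 - lam ^ 2) * (1 / t - 1 / t') := by ring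
    rw [h4, abs_mul]
    calc |m ^ 2 - lam ^ 2| * |1 / t - 1 / t'| ≤ (2 * |m - lam|) * (1 / ϖ1 ^ 2 * |t - t'|) :=
          mul_le_mul habs h3 (abs_nonneg _) (by positivity)
      _ ≤ (2 * |m - lam|) * (K * |t - t'|) := by
          refine mul_le_mul_of_nonneg_left (mul_le_mul_of_nonneg_right ?_ (abs_nonneg _))
            (by positivity)
          rw [hK]
          linarith
      _ = 2 * |m - lam| * K * |t - t'| := by ring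
  have h3 := e4b_mul (hD (Icc ϖ1 ϖ2)) (k := 2 * |m - lam| * K) (by positivity) hL0.le h1 h2
  have hval : ∀ p ∈ DD c ×ˢ (JJ ×ˢ Icc ϖ1 ϖ2), legV0 m p.1 p.2.1 p.2.2 -
      legV0 lam p.1 p.2.1 p.2.2 = ((((m ^ 2 - lam ^ 2) / p.2.2 : ℝ) : ℂ) *
        D0 p.1.2.2.1 p.1.2.2.2 p.2.1, 0) := by
    intro p hp
    unfold legV0
    refine Prod.ext ?_ ?_
    · simp only [Prod.fst_sub]
      push_cast
      ring
    · simp
  have hn : ∀ z : ℂ, ‖((z, 0) : ℂ × ℂ)‖ = ‖z‖ := by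
    intro z
    rw [Prod.norm_def]
    simp
  refine ⟨fun p hp => ?_, fun p hp q hq => ?_⟩
  · show ‖legV0 m p.1 p.2.1 p.2.2 - legV0 lam p.1 p.2.1 p.2.2‖ ≤ _
    rw [hval p hp, hn]
    refine (h3.bd (p.1, p.2.1) ⟨hp.1, hp.2.1⟩ p.2.2 hp.2.2).trans ?_
    have : 0 ≤ |m - lam| * K * L := by positivity
    nlinarith
  · show ‖legV0 m p.1 p.2.1 p.2.2 - legV0 lam p.1 p.2.1 p.2.2 -
      (legV0 m q.1 q.2.1 q.2.2 - legV0 lam q.1 q.2.1 q.2.2)‖ ≤ _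
    rw [hval p hp, hval q hq, Prod.mk_sub_mk, sub_zero, hn]
    have d1 : dist (p.1, p.2.1) (q.1, q.2.1) ≤ dist p q :=
      max_le (le_max_left _ _) ((le_max_left _ _).trans (le_max_right _ _))
    have d2 : |p.2.2 - q.2.2| ≤ dist p q := by
      rw [← Real.dist_eq]
      exact (le_max_right _ _).trans (le_max_right _ _)
    have := e4b_both h3 (by positivity) (by positivity) (x := (p.1, p.2.1)) (x' := (q.1, q.2.1))
        (t := p.2.2) (t' := q.2.2) ⟨hp.1, hp.2.1⟩ ⟨hq.1, hq.2.1⟩ hp.2.2 hq.2.2 d1 d2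
    refine this.trans (mul_le_mul_of_nonneg_right (le_of_eq ?_) dist_nonneg)
    ring

/-- closeness of the leg variables, both legs glued -/
theorem legV_near_pr (c ϖ1 ϖ2 : ℝ) (hc : 0 < c) (hϖ : 0 < ϖ1) (hϖ' : ϖ1 ≤ ϖ2) :
    ∃ L G0 : ℝ, 1 ≤ L ∧ 0 < G0 ∧ ∀ μ G lam, 0 < μ → μ ≤ G → G ≤ G0 → μ / 2 ≤ G * ϖ1 →
      0 ≤ lam → lam ≤ 1 →
      Near (L * (G + |μ / G - lam|)) (fun p : Dt × ℝ × ℝ => legV μ G p.1 p.2.1 p.2.2)
        (fun p => legV0 lam p.1 p.2.1 p.2.2) (DD c ×ˢ (JJ ×ˢ Icc ϖ1 ϖ2)) := by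
  obtain ⟨σ, L, hσ, hL, H⟩ := e4b_abr c hc
  obtain ⟨LA, hLA, HA⟩ := e4b_D0 c hc
  obtain ⟨K, hK⟩ : ∃ K : ℝ, K = 1 + ϖ2 + 1 / ϖ1 + 1 / ϖ1 ^ 2 := ⟨_, rfl⟩
  have hi1 : 0 < 1 / ϖ1 := by positivity
  have hi2 : 0 < 1 / ϖ1 ^ 2 := by positivity
  have hϖ2 : 0 < ϖ2 := lt_of_lt_of_le hϖ hϖ'
  have hK1 : 1 ≤ K := by rw [hK]; linarith
  have hK0 : 0 < K := by linarith
  have hKϖ : ϖ2 ≤ K := by rw [hK]; linarith
  have hc2 : 0 < 2 / c := by positivity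
  have hL0 : 0 < L := by linarith
  set A : ℝ := 204 * (L * K ^ 7) * (21 + 2 / c) with hA
  have hK7 : 1 ≤ K ^ 7 := one_le_pow₀ hK1
  have hLK : 1 ≤ L * K ^ 7 := by nlinarith
  have hA1 : 1 ≤ A := by
    rw [hA]
    nlinarith
  have hB0 : 0 ≤ 4 * K * LA := by positivity
  refine ⟨A + 4 * K * LA, min 1 (σ / (2 * K)), by linarith, lt_min one_pos (by positivity), ?_⟩
  intro μ G lam hμ hμG hG0 hlow hl0 hl1
  have hG : 0 < G := lt_of_lt_of_le hμ hμG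
  have hG1 : G ≤ 1 := hG0.trans (min_le_left _ _)
  have hGσ : G ≤ σ / (2 * K) := hG0.trans (min_le_right _ _)
  rw [le_div_iff₀ (by positivity)] at hGσ
  have hγ1 : G * ϖ2 ≤ σ := by nlinarith
  have hγ2 : 2 * μ ≤ σ := by nlinarith
  have hμσ : μ ≤ σ := by linarith
  have hm1 : μ / G ≤ 1 := by
    rw [div_le_one hG]
    exact hμG
  have n1 := e4b_near1 (σ := σ) hc hL hμ hμG hG1 hϖ hϖ' hK hγ1 hγ2 hlow
    (fun γ hγ => (H μ γ hμ hμσ hγ).1) (fun γ hγ => (H μ γ hμ hμσ hγ).2.1)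
    (fun γ hγ => (H μ γ hμ hμσ hγ).2.2.1) (H μ σ hμ hμσ le_rfl).2.2.2
  have n2 := e4b_near2 (lam := lam) hLA HA (by positivity : 0 ≤ μ / G) hm1 hl0 hl1 hϖ hϖ' hK
  refine near_mono (near_trans n1 n2) ?_ subset_rfl
  have h1 : 0 ≤ |μ / G - lam| := abs_nonneg _
  rw [← hA]
  nlinarith

end

end Pool.Agent.HS

namespace Pool.Agent.HS
open Set Filter Topology Classical

theorem legV_near (c ϖ1 ϖ2 : ℝ) (hc : 0 < c) (hϖ : 0 < ϖ1) (hϖ' : ϖ1 ≤ ϖ2) :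
    ∃ L G0 : ℝ, 1 ≤ L ∧ 0 < G0 ∧ ∀ μ G lam, 0 < μ → μ ≤ G → G ≤ G0 → μ / 2 ≤ G * ϖ1 →
      0 ≤ lam → lam ≤ 1 →
      Near (L * (G + |μ / G - lam|)) (fun p : Dt × ℝ × ℝ => legV μ G p.1 p.2.1 p.2.2)
        (fun p => legV0 lam p.1 p.2.1 p.2.2) (DD c ×ˢ (JJ ×ˢ Icc ϖ1 ϖ2)) :=
  @Pool.Agent.HS.legV_near_pr c ϖ1 ϖ2 hc hϖ hϖ'

end Pool.Agent.HS
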