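import Pool.Agent.Lib_helper60.HSF.D_WE2
import Pool.Agent.Lib_helper60.HSF.E_E4c
import Pool.Agent.Lib_helper60.HSF.IO_K2
import Pool.Agent.Lib_helper60.HSF.A_CA
import Pool.Agent.Lib_helper60.HSF.E_E4b
import Pool.Agent.Lib_helper60.HSF.IO_K7
import Pool.Agent.Lib_helper60.HSF.IO_C1

/-!
# HS, block E4d (helper95): closeness of the event function at the corner
-/

namespace Pool.Agent.HS

noncomputable section

open Set Filter Topology Classical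

/-! ### Calculus -/

section Calc
variable {α β : Type*} [PseudoMetricSpace α] [PseudoMetricSpace β]
variable {E F H : Type*} [NormedAddCommGroup E] [NormedAddCommGroup F] [NormedAddCommGroup H]

theorem e4d_lip_mono {L L' : ℝ} {f : α → E} {S : Set α} (h : Lip L f S) (hL : L ≤ L') :
    Lip L' f S := fun p hp q hq =>
  (h p hp q hq).trans (mul_le_mul_of_nonneg_right hL dist_nonneg)

theorem e4d_lip_prod {L : ℝ} {f : α → E} {g : α → F} {S : Set α} (h : Lip L f S)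
    (h' : Lip L g S) : Lip L (fun q => (f q, g q)) S := fun p hp q hq => by
  have e : (f p, g p) - (f q, g q) = (f p - f q, g p - g q) := rfl
  rw [e, Prod.norm_def]
  exact max_le (h p hp q hq) (h' p hp q hq)

theorem e4d_lip_in {L : ℝ} {f : β → E} {T : Set β} (h : Lip L f T) (hL : 0 ≤ L) {u : α → β}
    {S : Set α} (hu : ∀ p q, dist (u p) (u q) ≤ dist p q) (hm : ∀ p ∈ S, u p ∈ T) :
    Lip L (fun q => f (u q)) S := fun p hp q hq =>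
  (h _ (hm p hp) _ (hm q hq)).trans (mul_le_mul_of_nonneg_left (hu p q) hL)

theorem e4d_lip_comp {L L' : ℝ} {f : E → F} {T : Set E} (h : Lip L f T) (hL : 0 ≤ L)
    {g : α → E} {S : Set α} (hg : Lip L' g S) (hm : ∀ p ∈ S, g p ∈ T) :
    Lip (L * L') (fun q => f (g q)) S := fun p hp q hq => by
  refine (h _ (hm p hp) _ (hm q hq)).trans ?_
  rw [mul_assoc]
  refine mul_le_mul_of_nonneg_left ?_ hL
  rw [dist_eq_norm]
  exact hg p hp q hq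

/-- the constant of the composition -/
def e4d_c (M k : ℝ) : ℝ := M * k * (1 + 2 * (M + k)) + k * (M + k)

theorem e4d_c_le {M k : ℝ} (hM : 1 ≤ M) (hk : 0 ≤ k) : k ≤ e4d_c M k := by
  unfold e4d_c
  have h1 : 0 ≤ M * k * (1 + 2 * (M + k)) := mul_nonneg (mul_nonneg (zero_le_one.trans hM) hk)
    (by linarith)
  have h2 : k * 1 ≤ k * (M + k) := mul_le_mul_of_nonneg_left (by linarith) hk
  linarith

theorem e4d_c_nn {M k : ℝ} (hM : 1 ≤ M) (hk : 0 ≤ k) : 0 ≤ e4d_c M k :=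
  hk.trans (e4d_c_le hM hk)

/-- composition with one constant -/
theorem e4d_comp {M k δ : ℝ} (hM : 1 ≤ M) (hk : 0 ≤ k) (hδ : 0 ≤ δ) (hδ1 : δ ≤ 1)
    {f g : α → E} {S : Set α} {K K0 : E → F} {S' : Set E}
    (hn : Near (k * δ) f g S) (hf : MapsTo f S S') (hg : MapsTo g S S')
    (hLg : Lip M g S) (hK0 : Reg M K0 S') (hK : Near (k * δ) K K0 S') :
    Near (e4d_c M k * δ) (fun q => K (f q)) (fun q => K0 (g q)) S := by
  have hM0 : (0:ℝ) ≤ M := zero_le_one.trans hM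
  have hkd : k * δ ≤ k := mul_le_of_le_one_right hk hδ1
  have h0 : 0 ≤ k * δ := mul_nonneg hk hδ
  have h1 : Lip (M + k) f S := e4d_lip_mono (lip_of_near hn hLg) (by linarith)
  have h2 : Lip (M + k) g S := e4d_lip_mono hLg (by linarith)
  have h3 := near_comp hn hf hg h1 h2 hK0 hK hM0 h0 h0 (by linarith : (1:ℝ) ≤ M + k)
  refine near_mono h3 (le_of_eq ?_) Subset.rfl
  unfold e4d_c
  ring

end Calc

/-- `Reg` and linear maps which do not increase the norm -/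
theorem e4d_reg_lin {E E' F : Type*} [NormedAddCommGroup E] [NormedSpace ℝ E]
    [NormedAddCommGroup E'] [NormedSpace ℝ E'] [NormedAddCommGroup F] {L : ℝ} {f : E' → F}
    {S' : Set E'} (P : E →ₗ[ℝ] E') (hP : ∀ x, ‖P x‖ ≤ ‖x‖) (hf : Reg L f S') (hL : 0 ≤ L)
    {S : Set E} (hm : ∀ x ∈ S, P x ∈ S') : Reg L (fun x => f (P x)) S := by
  have h1 : ∀ x y, ‖P x - P y‖ ≤ ‖x - y‖ := fun x y => by
    rw [← map_sub]
    exact hP _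
  refine ⟨fun p hp q hq => (hf.1 _ (hm p hp) _ (hm q hq)).trans
    (mul_le_mul_of_nonneg_left ?_ hL), fun x hx y hy x' hx' y' hy' => ?_⟩
  · rw [dist_eq_norm, dist_eq_norm]
    exact h1 _ _
  · refine (hf.2 _ (hm x hx) _ (hm y hy) _ (hm x' hx') _ (hm y' hy')).trans ?_
    have h2 : ‖P x - P y - P x' + P y'‖ ≤ ‖x - y - x' + y'‖ := by
      rw [← map_sub, ← map_sub, ← map_add]
      exact hP _
    have h3 := h1 x x'
    have h4 := h1 y y'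
    have h5 := h1 x' y'
    have h6 : (‖P x - P x'‖ + ‖P y - P y'‖) * ‖P x' - P y'‖ ≤
        (‖x - x'‖ + ‖y - y'‖) * ‖x' - y'‖ :=
      mul_le_mul (add_le_add h3 h4) h5 (norm_nonneg _) (by positivity)
    have h7 := mul_le_mul_of_nonneg_left h6 hL
    have h8 := mul_le_mul_of_nonneg_left h2 hL
    linarith [h7, h8]

/-- the linear part of `revD` -/
def e4d_R : Dt →ₗ[ℝ] Dt where
  toFun d := (d.1, -d.2.1, d.2.2.1, d.2.2.2)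
  map_add' x y := by
    ext <;> simp [add_comm]
  map_smul' r x := by
    ext <;> simp

theorem e4d_R_norm (d : Dt) : ‖e4d_R d‖ ≤ ‖d‖ := by
  have e : e4d_R d = (d.1, -d.2.1, d.2.2.1, d.2.2.2) := rfl
  rw [e]
  simp only [Prod.norm_def, norm_neg, le_refl]

theorem e4d_revD_sub (x y : Dt) : revD x - revD y = e4d_R (x - y) := by
  have e : e4d_R (x - y) = (x.1 - y.1, -(x.2.1 - y.2.1), x.2.2.1 - y.2.2.1,
    x.2.2.2 - y.2.2.2) := rfl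
  rw [e]
  unfold revD
  ext <;> simp <;> ring

theorem e4d_reg_rev {E : Type*} [NormedAddCommGroup E] {L : ℝ} {f : E → Dt} {S : Set E}
    (hf : Reg L f S) : Reg L (fun x => revD (f x)) S := by
  refine ⟨fun p hp q hq => ?_, fun x hx y hy x' hx' y' hy' => ?_⟩
  · rw [e4d_revD_sub]
    exact (e4d_R_norm _).trans (hf.1 p hp q hq)
  · have e : revD (f x) - revD (f y) - revD (f x') + revD (f y') =
        e4d_R (f x - f y - f x' + f y') := by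
      have h1 := e4d_revD_sub (f x) (f y)
      have h2 := e4d_revD_sub (f x') (f y')
      have h3 : revD (f x) - revD (f y) - revD (f x') + revD (f y') =
        (revD (f x) - revD (f y)) - (revD (f x') - revD (f y')) := by abel
      rw [h3, h1, h2, ← map_sub]
      congr 1
      abel
    rw [e]
    exact (e4d_R_norm _).trans (hf.2 x hx y hy x' hx' y' hy')

theorem e4d_DD_rev {c : ℝ} {d : Dt} (h : d ∈ DD c) : revD d ∈ DD c := by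
  obtain ⟨h1, h2, h3, h4, h5⟩ := h
  refine ⟨h1, h2, ?_, h4, h5⟩
  show ‖-d.2.1‖ ≤ 1 / c
  rw [norm_neg]
  exact h3

theorem e4d_DD_mono {c c' : ℝ} (hc : 0 < c) (h : c ≤ c') : DD c' ⊆ DD c := by
  rintro d ⟨h1, h2, h3, h4, h5⟩
  have h6 : 1 / c' ≤ 1 / c := one_div_le_one_div_of_le hc h
  exact ⟨h.trans h1, h2.trans h6, h3.trans h6, h.trans h4, h5.trans h6⟩

/-- the square root is `Reg` -/
theorem e4d_sqrt (c : ℝ) (hc : 0 < c) : ∃ L : ℝ, 0 ≤ L ∧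
    Reg L (fun z : ℂ => z ^ (1/2 : ℂ)) {z | c / 2 ≤ z.re ∧ ‖z‖ ≤ 2 / c} := by
  refine reg_of_compact Complex.isOpen_slitPlane (f := fun z : ℂ => z ^ (1/2 : ℂ)) ?_ ?_ ?_
  · intro z hz
    have h1 : AnalyticAt ℂ (fun z : ℂ => z ^ (1/2 : ℂ)) z := by
      refine (Complex.analyticAt_iff_eventually_differentiableAt).2 ?_
      filter_upwards [Complex.isOpen_slitPlane.mem_nhds hz] with w hw
      exact differentiableAt_id.cpow_const hw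
    exact ((h1.contDiffAt (n := 2)).restrict_scalars ℝ).contDiffWithinAt
  · refine Metric.isCompact_of_isClosed_isBounded ?_ ?_
    · exact (isClosed_le continuous_const Complex.continuous_re).inter
        (isClosed_le continuous_norm continuous_const)
    · refine (Metric.isBounded_closedBall (x := (0:ℂ)) (r := 2 / c)).subset ?_
      rintro z ⟨-, hz⟩
      rwa [mem_closedBall_zero_iff]
  · rintro z ⟨hz, -⟩
    left
    linarith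

/-- the core: from collision data to the event function -/
theorem e4d_core (c ϖ1 ϖ2 lam : ℝ) (υ : ℂ) (hc : 0 < c) (hϖ : 0 < ϖ1) (hϖ2 : lam / 2 < ϖ1)
    (hϖ3 : ϖ1 ≤ ϖ2) (hlam : 0 ≤ lam) (hlam1 : lam ≤ 1) (hυ : ‖υ‖ ≤ 1) (k M : ℝ) (hk : 0 ≤ k)
    (hM : 1 ≤ M) : ∃ K δ0 : ℝ, 0 ≤ K ∧ 0 < δ0 ∧
    ∀ {α : Type} [PseudoMetricSpace α] (S : Set α) (D D0 : α → Dt) (b b0 v : α → ℝ)
      (μ G δ : ℝ) (υ0 : ℂ), 0 < μ → μ ≤ G → G ≤ δ → δ ≤ δ0 → |μ / G - lam| ≤ δ →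
      ‖υ0 / (G : ℂ) - υ‖ ≤ δ → Near (k * δ) D D0 S → Near (k * δ) b b0 S → Lip M D0 S →
      Lip M b0 S → Lip M v S →
      (∀ q ∈ S, D q ∈ DD c ∧ D0 q ∈ DD c ∧ b q ∈ JJ ∧ b0 q ∈ JJ ∧ v q ∈ Icc ϖ1 ϖ2) →
      Near (K * δ) (fun q => (legV μ G (D q) (b q) (v q)).1 -
          υ0 / (G : ℂ) * (legV μ G (D q) (b q) (v q)).2 ^ (1/2 : ℂ))
        (fun q => (legV0 lam (D0 q) (b0 q) (v q)).1 -
          υ * (legV0 lam (D0 q) (b0 q) (v q)).2 ^ (1/2 : ℂ)) S := by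
  obtain ⟨Lv, G0, hLv, hG0, hnv⟩ := legV_near c ϖ1 ϖ2 hc hϖ hϖ3
  obtain ⟨L0, hL0, hr0⟩ := legV0_reg c ϖ1 ϖ2 lam hc hϖ hϖ3
  obtain ⟨Ls, hLs, hrs⟩ := e4d_sqrt c hc
  -- common constants
  obtain ⟨B0, hB0, hBM, hBv, hBL, hBs⟩ : ∃ B0 : ℝ, 1 ≤ B0 ∧ M ≤ B0 ∧ Lv ≤ B0 ∧ L0 ≤ B0 ∧
      Ls ≤ B0 := by
    refine ⟨max (max 1 M) (max Lv (max L0 Ls)), ?_, ?_, ?_, ?_, ?_⟩
    · exact (le_max_left _ _).trans (le_max_left _ _)
    · exact (le_max_right _ _).trans (le_max_left _ _)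
    · exact (le_max_left _ _).trans (le_max_right _ _)
    · exact ((le_max_left _ _).trans (le_max_right _ _)).trans (le_max_right _ _)
    · exact ((le_max_right _ _).trans (le_max_right _ _)).trans (le_max_right _ _)
  have hB00 : 0 ≤ B0 := zero_le_one.trans hB0
  set Mx := B0 * B0 with hMx
  have hMx1 : B0 ≤ Mx := le_mul_of_one_le_left hB00 hB0
  have hMx0 : 1 ≤ Mx := hB0.trans hMx1
  set k1 := k + 2 * B0 with hk1
  have hk10 : 0 ≤ k1 := by positivity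
  set k2 := e4d_c Mx k1 with hk2
  have hk20 : 0 ≤ k2 := e4d_c_nn hMx0 hk10
  set k3 := e4d_c Mx k2 with hk3
  have hk30 : 0 ≤ k3 := e4d_c_nn hMx0 hk20
  -- bound for the square root
  set W := (2 / c + 1) + Mx * Mx with hW
  have hW0 : 0 ≤ W := by positivity
  refine ⟨k2 + 2 * k3 + W, min (min 1 G0) (min (2 * (ϖ1 - lam / 2))
    (min (c / 2 / (k2 + 1)) (1 / c / (k2 + 1)))), by positivity, ?_, ?_⟩
  · have h1 : 0 < ϖ1 - lam / 2 := by linarith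
    positivity
  intro α _ S D D0 b b0 v μ G δ υ0 hμ hμG hGδ hδ hlam2 hυ2 hD hb hLD hLb hLv' hmem
  have hG : 0 < G := hμ.trans_le hμG
  have hδ0 : 0 < δ := hG.trans_le hGδ
  have hδ1 : δ ≤ 1 := hδ.trans ((min_le_left _ _).trans (min_le_left _ _))
  have hδG : G ≤ G0 := (hGδ.trans hδ).trans ((min_le_left _ _).trans (min_le_right _ _))
  have hδϖ : δ ≤ 2 * (ϖ1 - lam / 2) := hδ.trans ((min_le_right _ _).trans (min_le_left _ _))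
  have hδc : δ ≤ c / 2 / (k2 + 1) :=
    hδ.trans ((min_le_right _ _).trans ((min_le_right _ _).trans (min_le_left _ _)))
  have hδc' : δ ≤ 1 / c / (k2 + 1) :=
    hδ.trans ((min_le_right _ _).trans ((min_le_right _ _).trans (min_le_right _ _)))
  have hk2p : 0 < k2 + 1 := by linarith
  have hkc : k2 * δ ≤ c / 2 := by
    have h1 := (le_div_iff₀ hk2p).1 hδc
    have h2 : k2 * δ = δ * (k2 + 1) - δ := by ring
    linarith
  have hkc' : k2 * δ ≤ 1 / c := by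
    have h1 := (le_div_iff₀ hk2p).1 hδc'
    have h2 : k2 * δ = δ * (k2 + 1) - δ := by ring
    linarith
  -- closeness of `legV`
  have hμ2 : μ / 2 ≤ G * ϖ1 := by
    have h1 : μ / G ≤ lam + δ := by
      have := (abs_le.1 hlam2).2
      linarith
    have h2 : μ ≤ (lam + δ) * G := (div_le_iff₀ hG).1 h1
    have h3 : (lam + δ) * G ≤ (2 * ϖ1) * G := mul_le_mul_of_nonneg_right (by linarith) hG.le
    have h4 : (2 * ϖ1) * G = 2 * (G * ϖ1) := by ring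
    linarith
  have hnv1 := hnv μ G lam hμ hμG hδG hμ2 hlam hlam1
  have hnv2 : Near (k1 * δ) (fun p : Dt × ℝ × ℝ => legV μ G p.1 p.2.1 p.2.2)
      (fun p => legV0 lam p.1 p.2.1 p.2.2) (DD c ×ˢ (JJ ×ˢ Icc ϖ1 ϖ2)) := by
    refine near_mono hnv1 ?_ Subset.rfl
    have h1 : G + |μ / G - lam| ≤ 2 * δ := by linarith
    have h2 : 0 ≤ G + |μ / G - lam| := by positivity
    calc Lv * (G + |μ / G - lam|) ≤ B0 * (2 * δ) := mul_le_mul hBv h1 h2 hB00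
      _ ≤ k1 * δ := by
        have h3 : k1 * δ = k * δ + B0 * (2 * δ) := by
          rw [hk1]
          ring
        have h4 : 0 ≤ k * δ := mul_nonneg hk hδ0.le
        linarith
  have hr1 : Reg Mx (fun p : Dt × ℝ × ℝ => legV0 lam p.1 p.2.1 p.2.2)
      (DD c ×ˢ (JJ ×ˢ Icc ϖ1 ϖ2)) := reg_mono hr0 (hBL.trans hMx1) Subset.rfl
  have hkk1 : k * δ ≤ k1 * δ := mul_le_mul_of_nonneg_right (by rw [hk1]; linarith) hδ0.le
  have hself : Near (k1 * δ) v v S := by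
    have h0 : 0 ≤ k1 * δ := by positivity
    refine ⟨fun p _ => by simpa using h0, fun p _ q _ => ?_⟩
    simp only [sub_self, norm_zero]
    positivity
  have hin : Near (k1 * δ) (fun q => (D q, b q, v q)) (fun q => (D0 q, b0 q, v q)) S :=
    near_prod (near_mono hD hkk1 Subset.rfl) (near_prod (near_mono hb hkk1 Subset.rfl) hself)
  have hLin : Lip B0 (fun q => (D0 q, b0 q, v q)) S :=
    e4d_lip_prod (e4d_lip_mono hLD hBM) (e4d_lip_prod (e4d_lip_mono hLb hBM)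
      (e4d_lip_mono hLv' hBM))
  have hm1 : MapsTo (fun q => (D q, b q, v q)) S (DD c ×ˢ (JJ ×ˢ Icc ϖ1 ϖ2)) := fun q hq =>
    ⟨(hmem q hq).1, (hmem q hq).2.2.1, (hmem q hq).2.2.2.2⟩
  have hm2 : MapsTo (fun q => (D0 q, b0 q, v q)) S (DD c ×ˢ (JJ ×ˢ Icc ϖ1 ϖ2)) := fun q hq =>
    ⟨(hmem q hq).2.1, (hmem q hq).2.2.2.1, (hmem q hq).2.2.2.2⟩
  have hV : Near (k2 * δ) (fun q => legV μ G (D q) (b q) (v q))
      (fun q => legV0 lam (D0 q) (b0 q) (v q)) S :=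
    e4d_comp (K := fun p : Dt × ℝ × ℝ => legV μ G p.1 p.2.1 p.2.2)
      (K0 := fun p : Dt × ℝ × ℝ => legV0 lam p.1 p.2.1 p.2.2)
      (f := fun q => (D q, b q, v q)) (g := fun q => (D0 q, b0 q, v q)) hMx0 hk10 hδ0.le hδ1 hin
      hm1 hm2 (e4d_lip_mono hLin hMx1) hr1 hnv2
  have hLV : Lip Mx (fun q => legV0 lam (D0 q) (b0 q) (v q)) S :=
    e4d_lip_comp (f := fun p : Dt × ℝ × ℝ => legV0 lam p.1 p.2.1 p.2.2)
      (g := fun q => (D0 q, b0 q, v q)) (e4d_lip_mono hr0.1 hBL) hB00 hLin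
      hm2
  have hV1 := near_fst hV
  have hV2 := near_snd hV
  -- the square root
  have hL2 : Lip Mx (fun q => (legV0 lam (D0 q) (b0 q) (v q)).2) S := fun p hp q hq =>
    (norm_snd_le ((legV0 lam (D0 p) (b0 p) (v p)) - (legV0 lam (D0 q) (b0 q) (v q)))).trans
      (hLV p hp q hq)
  have hm0 : ∀ q ∈ S, c ≤ (legV0 lam (D0 q) (b0 q) (v q)).2.re ∧
      ‖(legV0 lam (D0 q) (b0 q) (v q)).2‖ ≤ 1 / c := fun q hq => by
    obtain ⟨-, ⟨h1, h2, -, -, -⟩, -⟩ := hmem q hq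
    exact ⟨h1, h2⟩
  have hmg : MapsTo (fun q => (legV0 lam (D0 q) (b0 q) (v q)).2) S
      {z | c / 2 ≤ z.re ∧ ‖z‖ ≤ 2 / c} := fun q hq => by
    obtain ⟨h1, h2⟩ := hm0 q hq
    refine ⟨by linarith, h2.trans ?_⟩
    exact div_le_div_of_nonneg_right (by norm_num) hc.le
  have hmf : MapsTo (fun q => (legV μ G (D q) (b q) (v q)).2) S
      {z | c / 2 ≤ z.re ∧ ‖z‖ ≤ 2 / c} := fun q hq => by
    obtain ⟨h1, h2⟩ := hm0 q hq
    have h3 := hV2.1 q hq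
    have h4 : |((legV μ G (D q) (b q) (v q)).2 - (legV0 lam (D0 q) (b0 q) (v q)).2).re| ≤
        c / 2 := (Complex.abs_re_le_norm _).trans (h3.trans hkc)
    have h5 : ‖(legV μ G (D q) (b q) (v q)).2‖ ≤ ‖(legV0 lam (D0 q) (b0 q) (v q)).2‖ +
        ‖(legV μ G (D q) (b q) (v q)).2 - (legV0 lam (D0 q) (b0 q) (v q)).2‖ := by
      have e : (legV μ G (D q) (b q) (v q)).2 = (legV0 lam (D0 q) (b0 q) (v q)).2 +
        ((legV μ G (D q) (b q) (v q)).2 - (legV0 lam (D0 q) (b0 q) (v q)).2) := by ring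
      calc ‖(legV μ G (D q) (b q) (v q)).2‖ = ‖(legV0 lam (D0 q) (b0 q) (v q)).2 +
        ((legV μ G (D q) (b q) (v q)).2 - (legV0 lam (D0 q) (b0 q) (v q)).2)‖ := by rw [← e]
        _ ≤ _ := norm_add_le _ _
    refine ⟨?_, ?_⟩
    · rw [Complex.sub_re] at h4
      have := (abs_le.1 h4).1
      show c / 2 ≤ ((legV μ G (D q) (b q) (v q)).2).re
      linarith
    · show ‖(legV μ G (D q) (b q) (v q)).2‖ ≤ 2 / c
      have h6 : (2:ℝ) / c = 1 / c + 1 / c := by ring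
      rw [h6]
      linarith
  have hkk2 : k2 * δ ≤ k2 * δ := le_rfl
  have hsn : Near (k2 * δ) (fun z : ℂ => z ^ (1/2 : ℂ)) (fun z : ℂ => z ^ (1/2 : ℂ))
      {z | c / 2 ≤ z.re ∧ ‖z‖ ≤ 2 / c} := by
    have h0 : 0 ≤ k2 * δ := by positivity
    refine ⟨fun p _ => by simpa using h0, fun p _ q _ => ?_⟩
    simp only [sub_self, norm_zero]
    positivity
  have hrs1 : Reg Mx (fun z : ℂ => z ^ (1/2 : ℂ)) {z | c / 2 ≤ z.re ∧ ‖z‖ ≤ 2 / c} :=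
    reg_mono hrs (hBs.trans hMx1) Subset.rfl
  have hsq : Near (k3 * δ) (fun q => (legV μ G (D q) (b q) (v q)).2 ^ (1/2 : ℂ))
      (fun q => (legV0 lam (D0 q) (b0 q) (v q)).2 ^ (1/2 : ℂ)) S :=
    e4d_comp (K := fun z : ℂ => z ^ (1/2 : ℂ)) (K0 := fun z : ℂ => z ^ (1/2 : ℂ))
      (f := fun q => (legV μ G (D q) (b q) (v q)).2)
      (g := fun q => (legV0 lam (D0 q) (b0 q) (v q)).2) hMx0 hk20
      hδ0.le hδ1 hV2 hmf hmg hL2 hrs1 hsn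
  have hLsq : Lip (Mx * Mx) (fun q => (legV0 lam (D0 q) (b0 q) (v q)).2 ^ (1/2 : ℂ)) S :=
    e4d_lip_comp (f := fun z : ℂ => z ^ (1/2 : ℂ))
      (g := fun q => (legV0 lam (D0 q) (b0 q) (v q)).2) hrs1.1 (zero_le_one.trans hMx0) hL2
      (fun q hq => hmg hq)
  have hbd : ∀ q ∈ S, ‖(legV0 lam (D0 q) (b0 q) (v q)).2 ^ (1/2 : ℂ)‖ ≤ 2 / c + 1 := by
    intro q hq
    obtain ⟨h1, h2⟩ := hm0 q hq
    set z := (legV0 lam (D0 q) (b0 q) (v q)).2 with hz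
    have h3 : z ^ (1/2 : ℂ) * z ^ (1/2 : ℂ) = z := by
      have hz0 : z ≠ 0 := by
        intro h
        rw [h] at h1
        simp at h1
        linarith
      rw [← Complex.cpow_add _ _ hz0]
      norm_num
    have h4 : ‖z ^ (1/2 : ℂ)‖ * ‖z ^ (1/2 : ℂ)‖ = ‖z‖ := by rw [← norm_mul, h3]
    have h5 := norm_nonneg (z ^ (1/2 : ℂ))
    have h6 : (0:ℝ) < 1 / c := by positivity
    have h7 : (2:ℝ) / c = 2 * (1 / c) := by ring
    rcases le_total ‖z ^ (1/2 : ℂ)‖ 1 with h8 | h8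
    · linarith
    · have h9 : 1 * ‖z ^ (1/2 : ℂ)‖ ≤ ‖z ^ (1/2 : ℂ)‖ * ‖z ^ (1/2 : ℂ)‖ :=
        mul_le_mul_of_nonneg_right h8 h5
      linarith
  -- the end
  have hυ1 : ‖υ0 / (G : ℂ)‖ ≤ 2 := by
    have e : υ0 / (G : ℂ) = υ + (υ0 / (G : ℂ) - υ) := by ring
    calc ‖υ0 / (G : ℂ)‖ = ‖υ + (υ0 / (G : ℂ) - υ)‖ := by rw [← e]
      _ ≤ ‖υ‖ + ‖υ0 / (G : ℂ) - υ‖ := norm_add_le _ _
      _ ≤ 2 := by linarith
  set a := υ0 / (G : ℂ) with ha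
  have key : ∀ V V0 s s0 : ℂ, (V - a * s) - (V0 - υ * s0) =
      (V - V0) - a * (s - s0) - (a - υ) * s0 := fun V V0 s s0 => by ring
  refine ⟨fun p hp => ?_, fun p hp q hq => ?_⟩
  · rw [key]
    have h1 := hV1.1 p hp
    have h2 := hsq.1 p hp
    have h3 := hbd p hp
    refine (norm_sub_le _ _).trans ?_
    have h4 : ‖a * ((legV μ G (D p) (b p) (v p)).2 ^ (1/2 : ℂ) -
        (legV0 lam (D0 p) (b0 p) (v p)).2 ^ (1/2 : ℂ))‖ ≤ 2 * (k3 * δ) := by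
      rw [norm_mul]
      exact mul_le_mul hυ1 h2 (norm_nonneg _) (by norm_num)
    have h5 : ‖(a - υ) * (legV0 lam (D0 p) (b0 p) (v p)).2 ^ (1/2 : ℂ)‖ ≤ δ * (2 / c + 1) := by
      rw [norm_mul]
      exact mul_le_mul hυ2 h3 (norm_nonneg _) hδ0.le
    have h6 := norm_sub_le ((legV μ G (D p) (b p) (v p)).1 - (legV0 lam (D0 p) (b0 p) (v p)).1)
      (a * ((legV μ G (D p) (b p) (v p)).2 ^ (1/2 : ℂ) -
        (legV0 lam (D0 p) (b0 p) (v p)).2 ^ (1/2 : ℂ)))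
    have h7 : 0 ≤ Mx * Mx * δ := by positivity
    have h8 : (k2 + 2 * k3 + W) * δ = k2 * δ + 2 * (k3 * δ) + δ * (2 / c + 1) + Mx * Mx * δ := by
      rw [hW]
      ring
    linarith [h1, h4, h5, h6, h7]
  · have e : ∀ V V0 s s0 V' V0' s' s0' : ℂ, (V - a * s) - (V0 - υ * s0) -
        ((V' - a * s') - (V0' - υ * s0')) =
        ((V - V0) - (V' - V0')) - a * ((s - s0) - (s' - s0')) - (a - υ) * (s0 - s0') :=
      fun V V0 s s0 V' V0' s' s0' => by ring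
    rw [e]
    have h1 := hV1.2 p hp q hq
    have h2 := hsq.2 p hp q hq
    have h3 := hLsq p hp q hq
    have hd : 0 ≤ dist p q := dist_nonneg
    refine (norm_sub_le _ _).trans ?_
    refine (add_le_add (norm_sub_le _ _) le_rfl).trans ?_
    rw [norm_mul, norm_mul]
    have h4 := mul_le_mul hυ1 h2 (norm_nonneg _) (by norm_num : (0:ℝ) ≤ 2)
    have h5 := mul_le_mul hυ2 h3 (norm_nonneg _) hδ0.le
    have h7 : 0 ≤ (2 / c + 1) * δ * dist p q := by positivity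
    have h8 : (k2 + 2 * k3 + W) * δ * dist p q = k2 * δ * dist p q +
        2 * (k3 * δ * dist p q) + δ * (Mx * Mx * dist p q) + (2 / c + 1) * δ * dist p q := by
      rw [hW]
      ring
    linarith [h1, h4, h5, h7]

/-! ### The theorem -/

theorem e4d_near_congr {α E : Type*} [PseudoMetricSpace α] [NormedAddCommGroup E] {ε : ℝ}
    {f g f' g' : α → E} {S : Set α} (h : Near ε f g S) (hf : ∀ q ∈ S, f' q = f q)
    (hg : ∀ q ∈ S, g' q = g q) : Near ε f' g' S := by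
  refine ⟨fun p hp => ?_, fun p hp q hq => ?_⟩
  · rw [hf p hp, hg p hp]
    exact h.1 p hp
  · rw [hf p hp, hg p hp, hf q hq, hg q hq]
    exact h.2 p hp q hq

theorem e4d_near_in {α β E : Type*} [PseudoMetricSpace α] [PseudoMetricSpace β]
    [NormedAddCommGroup E] {ε : ℝ} {f g : β → E} {T : Set β} (h : Near ε f g T) (hε : 0 ≤ ε)
    {u : α → β} {S : Set α} (hu : ∀ p q, dist (u p) (u q) ≤ dist p q) (hm : ∀ p ∈ S, u p ∈ T) :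
    Near ε (fun q => f (u q)) (fun q => g (u q)) S :=
  ⟨fun p hp => h.1 _ (hm p hp), fun p hp q hq => (h.2 _ (hm p hp) _ (hm q hq)).trans
    (mul_le_mul_of_nonneg_left (hu p q) hε)⟩

theorem e4d_near_self {α E : Type*} [PseudoMetricSpace α] [NormedAddCommGroup E] {ε : ℝ}
    (hε : 0 ≤ ε) (f : α → E) (S : Set α) : Near ε f f S := by
  refine ⟨fun p _ => by simpa using hε, fun p _ q _ => ?_⟩
  simp only [sub_self, norm_zero]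
  positivity

/-- parameters -/
abbrev E4dQ := Pl × ℝ × ℝ × ℝ

theorem e4d_d1 (p q : E4dQ) : dist p.1 q.1 ≤ dist p q := le_max_left _ _

theorem e4d_d2 (p q : E4dQ) : dist p.2.1 q.2.1 ≤ dist p q :=
  (le_max_left _ _).trans (le_max_right _ _)

theorem e4d_d3 (p q : E4dQ) : dist p.2.2.1 q.2.2.1 ≤ dist p q :=
  ((le_max_left _ _).trans (le_max_right _ _)).trans (le_max_right _ _)

theorem e4d_d4 (p q : E4dQ) : dist p.2.2.2 q.2.2.2 ≤ dist p q :=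
  ((le_max_right _ _).trans (le_max_right _ _)).trans (le_max_right _ _)

theorem e4d_d123 (p q : E4dQ) : dist ((p.1, p.2.1, p.2.2.1) : Pl × ℝ × ℝ)
    (q.1, q.2.1, q.2.2.1) ≤ dist p q :=
  max_le (e4d_d1 p q) (max_le (e4d_d2 p q) (e4d_d3 p q))

theorem e4d_lip_id {E : Type*} [NormedAddCommGroup E] {L : ℝ} (hL : 1 ≤ L) {u : E4dQ → E}
    (hu : ∀ p q, dist (u p) (u q) ≤ dist p q) (S : Set E4dQ) : Lip L u S := fun p _ q _ => by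
  have h := hu p q
  rw [dist_eq_norm] at h
  refine h.trans ?_
  have h1 : 0 ≤ dist p q := dist_nonneg
  have h2 : 1 * dist p q ≤ L * dist p q := mul_le_mul_of_nonneg_right hL h1
  linarith

/-- first projection -/
def e4d_P1 : (Pl × ℝ × ℝ) →ₗ[ℝ] Pl := LinearMap.fst ℝ Pl (ℝ × ℝ)

theorem e4d_P1_norm (x : Pl × ℝ × ℝ) : ‖e4d_P1 x‖ ≤ ‖x‖ := norm_fst_le x

/-- the first two components -/
def e4d_P2 : (Pl × ℝ × ℝ) →ₗ[ℝ] Pl × ℝ :=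
  (LinearMap.fst ℝ Pl (ℝ × ℝ)).prod ((LinearMap.fst ℝ ℝ ℝ).comp (LinearMap.snd ℝ Pl (ℝ × ℝ)))

theorem e4d_P2_norm (x : Pl × ℝ × ℝ) : ‖e4d_P2 x‖ ≤ ‖x‖ := by
  have e : e4d_P2 x = (x.1, x.2.1) := rfl
  rw [e]
  exact max_le (norm_fst_le x) ((norm_fst_le x.2).trans (norm_snd_le x))

/-- values of a word -/
theorem e4d_word {M k δ L : ℝ} (hM : 1 ≤ M) (hk : 1 ≤ k) (hδ : 0 ≤ δ) (hδ1 : δ ≤ 1)
    (hL : 0 ≤ L) (hLM : L ≤ M) {E : Type*} [NormedAddCommGroup E] {O : Set Pl}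
    {K : Pl × ℝ × ℝ → E} {K0 : Pl → E} (hK0 : Reg L K0 O)
    (hK : Near δ K (fun p => K0 p.1) (O ×ˢ (JJ ×ˢ JJ)))
    {α : Type} [PseudoMetricSpace α] {S : Set α} {X X0 : α → Pl} {b b0 b' b0' : α → ℝ}
    (hX : Near (k * δ) X X0 S) (hb : Near (k * δ) b b0 S) (hb' : Near (k * δ) b' b0' S)
    (hLX : Lip M X0 S) (hLb : Lip M b0 S) (hLb' : Lip M b0' S)
    (hm : ∀ q ∈ S, X q ∈ O ∧ X0 q ∈ O ∧ b q ∈ JJ ∧ b0 q ∈ JJ ∧ b' q ∈ JJ ∧ b0' q ∈ JJ) :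
    Near (e4d_c M k * δ) (fun q => K (X q, b q, b' q)) (fun q => K0 (X0 q)) S := by
  have hk0 : 0 ≤ k := zero_le_one.trans hk
  have h1 : δ ≤ k * δ := by
    have := mul_le_mul_of_nonneg_right hk hδ
    linarith
  have h2 : Near (k * δ) (fun q => (X q, b q, b' q)) (fun q => (X0 q, b0 q, b0' q)) S :=
    near_prod hX (near_prod hb hb')
  have h3 : Lip M (fun q => (X0 q, b0 q, b0' q)) S := e4d_lip_prod hLX (e4d_lip_prod hLb hLb')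
  have h4 : MapsTo (fun q => (X q, b q, b' q)) S (O ×ˢ (JJ ×ˢ JJ)) := fun q hq =>
    ⟨(hm q hq).1, (hm q hq).2.2.1, (hm q hq).2.2.2.2.1⟩
  have h5 : MapsTo (fun q => (X0 q, b0 q, b0' q)) S (O ×ˢ (JJ ×ˢ JJ)) := fun q hq =>
    ⟨(hm q hq).2.1, (hm q hq).2.2.2.1, (hm q hq).2.2.2.2.2⟩
  have h6 : Reg M (fun p : Pl × ℝ × ℝ => K0 p.1) (O ×ˢ (JJ ×ˢ JJ)) :=
    reg_mono (e4d_reg_lin (f := K0) e4d_P1 e4d_P1_norm hK0 hL fun x hx => hx.1) hLM Subset.rfl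
  exact e4d_comp (K := K) (K0 := fun p : Pl × ℝ × ℝ => K0 p.1) (f := fun q => (X q, b q, b' q))
    (g := fun q => (X0 q, b0 q, b0' q)) hM hk0 hδ hδ1 h2 h4 h5 h3 h6
    (near_mono hK h1 Subset.rfl)

/-- collision data -/
theorem e4d_data (C : ℝ) (hC : 0 < C ∧ C ≤ 1) : ∃ c μ0 L : ℝ, 0 < c ∧ 0 < μ0 ∧ 1 ≤ L ∧
    ∀ {α : Type} [PseudoMetricSpace α] (S : Set α) (X X0 : α → Pl) (N N0 b b0 : α → ℝ)
      (μ M k δ : ℝ), L ≤ M → L ≤ k → 0 < μ → μ < μ0 → μ ^ 2 ≤ δ → δ ≤ 1 →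
      Near (k * δ) X X0 S → Near (k * δ) N N0 S → Near (k * δ) b b0 S →
      Lip M X0 S → Lip M N0 S → Lip M b0 S →
      (∀ q ∈ S, X q ∈ CDw C ∧ X0 q ∈ CDw C ∧ b q ∈ JJ ∧ b0 q ∈ JJ) →
      Near (e4d_c M k * δ) (fun q => outD C μ (X q) (N q) (b q))
        (fun q => limD C (X0 q) (N0 q)) S ∧
      Near (e4d_c M k * δ) (fun q => inD C μ (X q) (N q) (b q))
        (fun q => revD (limD C (X0 q) (N0 q))) S ∧
      Lip (M * M) (fun q => limD C (X0 q) (N0 q)) S ∧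
      Lip (M * M) (fun q => revD (limD C (X0 q) (N0 q))) S ∧
      ∀ q ∈ S, outD C μ (X q) (N q) (b q) ∈ DD c ∧ limD C (X0 q) (N0 q) ∈ DD c ∧
        inD C μ (X q) (N q) (b q) ∈ DD c ∧ revD (limD C (X0 q) (N0 q)) ∈ DD c := by
  obtain ⟨μo, Lo, co, hμo, hLo, hco, hout⟩ := out_near C hC
  obtain ⟨μi, Li, hμi, hLi, hin⟩ := in_near C hC
  obtain ⟨Ll, cl, hLl, hcl, hrl, hml⟩ := lim_reg C hC
  have hc : 0 < min co cl := lt_min hco hcl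
  refine ⟨min co cl, min μo μi, Lo + Li + Ll, hc, lt_min hμo hμi, by linarith, ?_⟩
  intro α _ S X X0 N N0 b b0 μ M k δ hLM hLk hμ hμ0 hμ2 hδ1 hX hN hb hLX hLN hLb hm
  have hM : 1 ≤ M := by linarith
  have hM0 : 0 ≤ M := zero_le_one.trans hM
  have hk : 0 ≤ k := by linarith
  have hδ : 0 ≤ δ := (sq_nonneg μ).trans hμ2
  have hlr : Reg Ll (fun q : Pl × ℝ × ℝ => limD C q.1 q.2.1) (CDw C ×ˢ (univ ×ˢ JJ)) :=
    e4d_reg_lin (f := fun q : Pl × ℝ => limD C q.1 q.2) e4d_P2 e4d_P2_norm hrl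
      (zero_le_one.trans hLl) fun x hx => ⟨hx.1, hx.2.1⟩
  have hlrM : Reg M (fun q : Pl × ℝ × ℝ => limD C q.1 q.2.1) (CDw C ×ˢ (univ ×ˢ JJ)) :=
    reg_mono hlr (by linarith) Subset.rfl
  have hlrM' : Reg M (fun q : Pl × ℝ × ℝ => revD (limD C q.1 q.2.1))
      (CDw C ×ˢ (univ ×ˢ JJ)) := e4d_reg_rev hlrM
  have h2 : Near (k * δ) (fun q => (X q, N q, b q)) (fun q => (X0 q, N0 q, b0 q)) S :=
    near_prod hX (near_prod hN hb)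
  have h3 : Lip M (fun q => (X0 q, N0 q, b0 q)) S := e4d_lip_prod hLX (e4d_lip_prod hLN hLb)
  have h4 : MapsTo (fun q => (X q, N q, b q)) S (CDw C ×ˢ (univ ×ˢ JJ)) := fun q hq =>
    ⟨(hm q hq).1, mem_univ _, (hm q hq).2.2.1⟩
  have h5 : MapsTo (fun q => (X0 q, N0 q, b0 q)) S (CDw C ×ˢ (univ ×ˢ JJ)) := fun q hq =>
    ⟨(hm q hq).2.1, mem_univ _, (hm q hq).2.2.2⟩
  have hon := hout μ hμ (hμ0.trans_le (min_le_left _ _))
  have hinn := hin μ hμ (hμ0.trans_le (min_le_right _ _))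
  have h6 : Lo * μ ^ 2 ≤ k * δ := mul_le_mul (by linarith) hμ2 (sq_nonneg _) hk
  have h7 : Li * μ ^ 2 ≤ k * δ := mul_le_mul (by linarith) hμ2 (sq_nonneg _) hk
  refine ⟨?_, ?_, ?_, ?_, fun q hq => ?_⟩
  · exact e4d_comp (K := fun q : Pl × ℝ × ℝ => outD C μ q.1 q.2.1 q.2.2)
      (K0 := fun q : Pl × ℝ × ℝ => limD C q.1 q.2.1) (f := fun q => (X q, N q, b q))
      (g := fun q => (X0 q, N0 q, b0 q)) hM hk hδ hδ1 h2 h4 h5 h3 hlrM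
      (near_mono hon.1 h6 Subset.rfl)
  · exact e4d_comp (K := fun q : Pl × ℝ × ℝ => inD C μ q.1 q.2.1 q.2.2)
      (K0 := fun q : Pl × ℝ × ℝ => revD (limD C q.1 q.2.1)) (f := fun q => (X q, N q, b q))
      (g := fun q => (X0 q, N0 q, b0 q)) hM hk hδ hδ1 h2 h4 h5 h3 hlrM'
      (near_mono hinn h7 Subset.rfl)
  · exact e4d_lip_comp (f := fun q : Pl × ℝ × ℝ => limD C q.1 q.2.1)
      (g := fun q => (X0 q, N0 q, b0 q)) hlrM.1 hM0 h3 h5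
  · exact e4d_lip_comp (f := fun q : Pl × ℝ × ℝ => revD (limD C q.1 q.2.1))
      (g := fun q => (X0 q, N0 q, b0 q)) hlrM'.1 hM0 h3 h5
  · have h8 := hon.2 _ (hm q hq).1 (N q) _ (hm q hq).2.2.1
    have h9 := e4d_DD_mono hc (min_le_right co cl) (hml _ (hm q hq).2.1 (N0 q))
    exact ⟨e4d_DD_mono hc (min_le_left co cl) h8.1, h9,
      e4d_DD_mono hc (min_le_left co cl) h8.2, e4d_DD_rev h9⟩

theorem e4d_neg {α : Type*} [PseudoMetricSpace α] {ε L : ℝ} {f g : α → ℝ} {S : Set α}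
    (h : Near ε f g S) (hL : Lip L g S) : Near ε (fun q => -f q) (fun q => -g q) S ∧
      Lip L (fun q => -g q) S := by
  refine ⟨⟨fun p hp => ?_, fun p hp q hq => ?_⟩, fun p hp q hq => ?_⟩
  · have e : -f p - -g p = -(f p - g p) := by ring
    rw [e, norm_neg]
    exact h.1 p hp
  · have e : -f p - -g p - (-f q - -g q) = -((f p - g p) - (f q - g q)) := by ring
    rw [e, norm_neg]
    exact h.2 p hp q hq
  · have e : -g p - -g q = -(g p - g q) := by ring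
    rw [e, norm_neg]
    exact hL p hp q hq

theorem e4d_cpow {r : ℝ} (hr : 0 ≤ r) : ((r : ℝ) : ℂ) ^ (1/2 : ℂ) = ((√r : ℝ) : ℂ) := by
  rw [Real.sqrt_eq_rpow, Complex.ofReal_cpow hr]
  norm_num

theorem e4d_fin_out (C lam : ℝ) (υ : ℂ) (l1 l2 : LD) (X : Pl) (ϖ : ℝ)
    (hr : 0 ≤ (chart C (l1.F X)).1) :
    cornerU C l1 l2 lam υ (X, ϖ) =
      (legV0 lam (limD C (l1.F X) (l2.χ (l1.F X))) (cB0 C l1 l2 X) ϖ).1 -
        υ * (legV0 lam (limD C (l1.F X) (l2.χ (l1.F X))) (cB0 C l1 l2 X) ϖ).2 ^ (1/2 : ℂ) := by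
  have e : (legV0 lam (limD C (l1.F X) (l2.χ (l1.F X))) (cB0 C l1 l2 X) ϖ).2 ^ (1/2 : ℂ) =
      ((√(chart C (l1.F X)).1 : ℝ) : ℂ) := e4d_cpow hr
  rw [e]
  rfl

theorem e4d_fin_in (C lam : ℝ) (υ : ℂ) (l1 l2 : LD) (X : Pl) (ϖ : ℝ)
    (hr : 0 ≤ (chart C (l1.F X)).1) :
    cornerL C l1 l2 lam υ (X, ϖ) =
      (legV0 lam (revD (limD C (l1.F X) (l1.θ X))) (-cB0 C l1 l2 X) ϖ).1 -
        υ * (legV0 lam (revD (limD C (l1.F X) (l1.θ X))) (-cB0 C l1 l2 X) ϖ).2 ^ (1/2 : ℂ) := by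
  have e : (legV0 lam (revD (limD C (l1.F X) (l1.θ X))) (-cB0 C l1 l2 X) ϖ).2 ^ (1/2 : ℂ) =
      ((√(chart C (l1.F X)).1 : ℝ) : ℂ) := e4d_cpow hr
  rw [e]
  rfl

theorem corner_near_pr (C : ℝ) (hC : 0 < C ∧ C ≤ 1) (out : Bool) (O1 O2 : Set Pl) (l1 l2 : LD)
    (hO1 : IsCompact O1) (hO2 : IsCompact O2)
    (hr : ∃ L, 0 ≤ L ∧ Reg L l1.F O1 ∧ Reg L l1.χ O1 ∧ Reg L l1.θ O1 ∧
      Reg L l2.F O2 ∧ Reg L l2.χ O2 ∧ Reg L l2.θ O2)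
    (hcd : ∀ X ∈ O2, X ∈ CD C) (hm : ∀ X ∈ O1, l1.F X ∈ O2)
    (ha : ∀ X ∈ O1, Acc 0 8 (l2.χ (l1.F X)) (l1.θ X))
    (lam : ℝ) (υ : ℂ) (hlam : 0 ≤ lam) (hlam1 : lam ≤ 1) (hυ : ‖υ‖ ≤ 1) (ϖ1 ϖ2 : ℝ)
    (hϖ : 0 < ϖ1) (hϖ2 : lam / 2 < ϖ1) (hϖ3 : ϖ1 ≤ ϖ2) (ε : ℝ) (hε : 0 < ε) :
    ∃ δ : ℝ, 0 < δ ∧ ∀ (μ G : ℝ) (υ0 : ℂ) (w1 w2 : WD) (B : Pl × ℝ × ℝ → ℝ),
      0 < μ → μ ≤ G → G ≤ δ → |μ / G - lam| ≤ δ → ‖υ0 / (G : ℂ) - υ‖ ≤ δ →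
      WNear δ O1 w1 l1 → WNear δ O2 w2 l2 → (∀ p ∈ O1 ×ˢ (JJ ×ˢ JJ), w1.P p ∈ O2) →
      Near δ B (fun p => cB0 C l1 l2 p.1) (O1 ×ˢ (JJ ×ˢ JJ)) →
      (∀ p ∈ O1 ×ˢ (JJ ×ˢ JJ), |B p| ≤ 9) →
      Near ε (gfc C μ G υ0 out w1 w2 B)
        (fun q => (if out then cornerU C l1 l2 lam υ else cornerL C l1 l2 lam υ) (q.1, q.2.2.2))
        (O1 ×ˢ (JJ ×ˢ (JJ ×ˢ Icc ϖ1 ϖ2))) := by
  obtain ⟨Lc, hLc, hrc, -⟩ := corner_reg C hC out O1 O2 l1 l2 hO1 hr hcd hm ha lam υ ϖ1 ϖ2 hϖ hϖ3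
  obtain ⟨L, hL, hF1, hχ1, hθ1, hF2, hχ2, hθ2⟩ := hr
  obtain ⟨c, μd, Ld, hc, hμd, hLd, hdata⟩ := e4d_data C hC
  obtain ⟨B0, hB0, hBL, hBc, hBd⟩ : ∃ B0 : ℝ, 1 ≤ B0 ∧ L ≤ B0 ∧ Lc ≤ B0 ∧ Ld ≤ B0 := by
    refine ⟨1 + L + Lc + Ld, ?_, ?_, ?_, ?_⟩ <;> linarith
  have hB00 : 0 ≤ B0 := zero_le_one.trans hB0
  obtain ⟨A, hA⟩ : ∃ A : ℝ, A = B0 * B0 := ⟨_, rfl⟩
  have hBA : B0 ≤ A := by
    rw [hA]
    exact le_mul_of_one_le_left hB00 hB0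
  have hA1 : 1 ≤ A := hB0.trans hBA
  have hA0 : 0 ≤ A := zero_le_one.trans hA1
  obtain ⟨M, hMdef⟩ : ∃ M : ℝ, M = A * A := ⟨_, rfl⟩
  have hAM : A ≤ M := by
    rw [hMdef]
    exact le_mul_of_one_le_left hA0 hA1
  have hM : 1 ≤ M := hA1.trans hAM
  obtain ⟨k1, hk1⟩ : ∃ k1 : ℝ, k1 = e4d_c A B0 := ⟨_, rfl⟩
  have hk01 : B0 ≤ k1 := by
    rw [hk1]
    exact e4d_c_le hA1 hB00
  have hk1p : 1 ≤ k1 := hB0.trans hk01
  have hk10 : 0 ≤ k1 := zero_le_one.trans hk1p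
  obtain ⟨k2, hk2⟩ : ∃ k2 : ℝ, k2 = e4d_c A k1 := ⟨_, rfl⟩
  have hk12 : k1 ≤ k2 := by
    rw [hk2]
    exact e4d_c_le hA1 hk10
  have hk2p : 1 ≤ k2 := hk1p.trans hk12
  have hk20 : 0 ≤ k2 := zero_le_one.trans hk2p
  obtain ⟨k3, hk3⟩ : ∃ k3 : ℝ, k3 = e4d_c A k2 := ⟨_, rfl⟩
  have hk23 : k2 ≤ k3 := by
    rw [hk3]
    exact e4d_c_le hA1 hk20
  have hk30 : 0 ≤ k3 := hk20.trans hk23
  obtain ⟨K, δ0, hK, hδ0, hcore⟩ := e4d_core c ϖ1 ϖ2 lam υ hc hϖ hϖ2 hϖ3 hlam hlam1 hυ k3 M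
    hk30 hM
  obtain ⟨δ, hδp, hδ1, hδδ, hδd, hδε⟩ : ∃ δ : ℝ, 0 < δ ∧ δ ≤ 1 ∧ δ ≤ δ0 ∧ δ ≤ μd / 2 ∧
      δ ≤ ε / (K + 1) := by
    refine ⟨min (min 1 δ0) (min (μd / 2) (ε / (K + 1))), by positivity, ?_, ?_, ?_, ?_⟩
    · exact (min_le_left _ _).trans (min_le_left _ _)
    · exact (min_le_left _ _).trans (min_le_right _ _)
    · exact (min_le_right _ _).trans (min_le_left _ _)
    · exact (min_le_right _ _).trans (min_le_right _ _)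
  refine ⟨δ, hδp, ?_⟩
  intro μ G υ0 w1 w2 B hμ hμG hGδ hlam2 hυ2 hw1 hw2 hP hBn hB9
  have hKε : K * δ ≤ ε := by
    have h1 := (le_div_iff₀ (by linarith : 0 < K + 1)).1 hδε
    have h2 : K * δ = δ * (K + 1) - δ := by ring
    linarith
  have hμδ : μ ≤ δ := hμG.trans hGδ
  have hμ2 : μ ^ 2 ≤ δ := by
    have h1 : μ * μ ≤ 1 * μ := mul_le_mul_of_nonneg_right (hμδ.trans hδ1) hμ.le
    have h2 : μ ^ 2 = μ * μ := by ring
    linarith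
  have hμd2 : μ < μd := hμδ.trans_lt (by linarith)
  have kd : ∀ {k k' : ℝ}, k ≤ k' → k * δ ≤ k' * δ := fun h => mul_le_mul_of_nonneg_right h hδp.le
  have h1k : δ ≤ B0 * δ := by
    have := kd hB0
    linarith
  have hB0δ : 0 ≤ B0 * δ := mul_nonneg hB00 hδp.le
  obtain ⟨S, hS⟩ : ∃ S : Set E4dQ, S = O1 ×ˢ (JJ ×ˢ (JJ ×ˢ Icc ϖ1 ϖ2)) := ⟨_, rfl⟩
  rw [← hS]
  have hmem : ∀ q ∈ S, q.1 ∈ O1 ∧ q.2.1 ∈ JJ ∧ q.2.2.1 ∈ JJ ∧ q.2.2.2 ∈ Icc ϖ1 ϖ2 := by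
    rw [hS]
    exact fun q hq => ⟨hq.1, hq.2.1, hq.2.2.1, hq.2.2.2⟩
  -- the impact parameter
  obtain ⟨b, hbdef⟩ : ∃ b : E4dQ → ℝ, b = fun q => B (q.1, q.2.1, q.2.2.1) := ⟨_, rfl⟩
  obtain ⟨b0, hb0def⟩ : ∃ b0 : E4dQ → ℝ, b0 = fun q => cB0 C l1 l2 q.1 := ⟨_, rfl⟩
  have hβ : Near (B0 * δ) b b0 S := by
    rw [hbdef, hb0def]
    exact e4d_near_in (near_mono hBn h1k Subset.rfl) hB0δ e4d_d123
      fun q hq => ⟨(hmem q hq).1, (hmem q hq).2.1, (hmem q hq).2.2.1⟩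
  have hβ9 : ∀ q ∈ S, |b q| ≤ 9 := fun q hq => by
    rw [hbdef]
    exact hB9 _ ⟨(hmem q hq).1, (hmem q hq).2.1, (hmem q hq).2.2.1⟩
  have hβJ : ∀ q ∈ S, b q ∈ JJ := fun q hq => by
    have := abs_le.1 (hβ9 q hq)
    exact ⟨by linarith, by linarith⟩
  have hβ0J : ∀ q ∈ S, b0 q ∈ JJ := fun q hq => by
    have h1 := abs_le.1 (hβ9 q hq)
    have h2 := hBn.1 (q.1, q.2.1, q.2.2.1) ⟨(hmem q hq).1, (hmem q hq).2.1, (hmem q hq).2.2.1⟩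
    rw [Real.norm_eq_abs] at h2
    have h3 := abs_le.1 (h2.trans hδ1)
    have h4 : b q = B (q.1, q.2.1, q.2.2.1) := by rw [hbdef]
    have h5 : b0 q = cB0 C l1 l2 q.1 := by rw [hb0def]
    rw [h4] at h1
    rw [h5]
    exact ⟨by linarith [h3.2], by linarith [h3.1]⟩
  have hβL : Lip B0 b0 S := by
    rw [hb0def]
    exact e4d_lip_in (f := cB0 C l1 l2) (u := fun q : E4dQ => q.1)
      (e4d_lip_mono hrc.1 hBc) hB00 e4d_d1 fun q hq => (hmem q hq).1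
  -- centre data after the first word
  obtain ⟨X0, hX0⟩ : ∃ X0 : E4dQ → Pl, X0 = fun q => l1.F q.1 := ⟨_, rfl⟩
  obtain ⟨X, hX⟩ : ∃ X : E4dQ → Pl, X = fun q => w1.P (q.1, q.2.1, b q) := ⟨_, rfl⟩
  obtain ⟨N0, hN0⟩ : ∃ N0 : E4dQ → ℝ, N0 = fun q => l1.θ q.1 := ⟨_, rfl⟩
  obtain ⟨N, hN⟩ : ∃ N : E4dQ → ℝ, N = fun q => w1.Θ' (q.1, q.2.1, b q) := ⟨_, rfl⟩
  have hX1 : Near (k1 * δ) X X0 S := by
    rw [hX, hX0, hk1]
    exact e4d_word (K := w1.P) (K0 := l1.F) (X := fun q : E4dQ => q.1)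
      (X0 := fun q : E4dQ => q.1) (b := fun q : E4dQ => q.2.1) (b0 := fun q : E4dQ => q.2.1)
      (b' := b) (b0' := b0) hA1 hB0 hδp.le hδ1 hL (hBL.trans hBA) hF1 hw1.P
      (e4d_near_self hB0δ _ S) (e4d_near_self hB0δ _ S) hβ (e4d_lip_id hA1 e4d_d1 S)
      (e4d_lip_id hA1 e4d_d2 S) (e4d_lip_mono hβL hBA)
      fun q hq => ⟨(hmem q hq).1, (hmem q hq).1, (hmem q hq).2.1, (hmem q hq).2.1, hβJ q hq,
        hβ0J q hq⟩
  have hN1 : Near (k1 * δ) N N0 S := by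
    rw [hN, hN0, hk1]
    exact e4d_word (K := w1.Θ') (K0 := l1.θ) (X := fun q : E4dQ => q.1)
      (X0 := fun q : E4dQ => q.1) (b := fun q : E4dQ => q.2.1) (b0 := fun q : E4dQ => q.2.1)
      (b' := b) (b0' := b0) hA1 hB0 hδp.le hδ1 hL (hBL.trans hBA) hθ1 hw1.Θ'
      (e4d_near_self hB0δ _ S) (e4d_near_self hB0δ _ S) hβ (e4d_lip_id hA1 e4d_d1 S)
      (e4d_lip_id hA1 e4d_d2 S) (e4d_lip_mono hβL hBA)
      fun q hq => ⟨(hmem q hq).1, (hmem q hq).1, (hmem q hq).2.1, (hmem q hq).2.1, hβJ q hq,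
        hβ0J q hq⟩
  have hXO : ∀ q ∈ S, X q ∈ O2 := fun q hq => by
    rw [hX]
    exact hP _ ⟨(hmem q hq).1, (hmem q hq).2.1, hβJ q hq⟩
  have hX0O : ∀ q ∈ S, X0 q ∈ O2 := fun q hq => by
    rw [hX0]
    exact hm _ (hmem q hq).1
  have hLX : Lip B0 X0 S := by
    rw [hX0]
    exact e4d_lip_in (f := l1.F) (u := fun q : E4dQ => q.1)
      (e4d_lip_mono hF1.1 hBL) hB00 e4d_d1 fun q hq => (hmem q hq).1
  have hLN : Lip B0 N0 S := by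
    rw [hN0]
    exact e4d_lip_in (f := l1.θ) (u := fun q : E4dQ => q.1)
      (e4d_lip_mono hθ1.1 hBL) hB00 e4d_d1 fun q hq => (hmem q hq).1
  have hvL : Lip M (fun q : E4dQ => q.2.2.2) S := e4d_lip_id hM e4d_d4 S
  have hmw : ∀ q ∈ S, X q ∈ CDw C ∧ X0 q ∈ CDw C ∧ b q ∈ JJ ∧ b0 q ∈ JJ := fun q hq =>
    ⟨CD_sub C (hcd _ (hXO q hq)), CD_sub C (hcd _ (hX0O q hq)), hβJ q hq, hβ0J q hq⟩
  have hrad : ∀ q ∈ S, 0 ≤ (chart C (l1.F q.1)).1 := fun q hq => by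
    have h1 := (CD_sub C (hcd _ (hm _ (hmem q hq).1))).1
    have h2 := kh_num.2.2.1
    linarith
  have hdA : Ld ≤ A := hBd.trans hBA
  have hdk : Ld ≤ k2 := hBd.trans (hk01.trans hk12)
  cases out with
  | true =>
    obtain ⟨χ0, hχ0⟩ : ∃ χ0 : E4dQ → ℝ, χ0 = fun q => l2.χ (X0 q) := ⟨_, rfl⟩
    obtain ⟨χ, hχ⟩ : ∃ χ : E4dQ → ℝ, χ = fun q => w2.Θ (X q, b q, q.2.2.1) := ⟨_, rfl⟩
    have hχn : Near (k2 * δ) χ χ0 S := by
      rw [hχ, hχ0, hk2]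
      exact e4d_word (K := w2.Θ) (K0 := l2.χ) (X := X) (X0 := X0) (b := b) (b0 := b0)
        (b' := fun q : E4dQ => q.2.2.1) (b0' := fun q : E4dQ => q.2.2.1) hA1 hk1p hδp.le hδ1 hL
        (hBL.trans hBA) hχ2 hw2.Θ hX1 (near_mono hβ (kd hk01) Subset.rfl)
        (e4d_near_self (mul_nonneg hk10 hδp.le) _ S) (e4d_lip_mono hLX hBA)
        (e4d_lip_mono hβL hBA) (e4d_lip_id hA1 e4d_d3 S)
        fun q hq => ⟨hXO q hq, hX0O q hq, hβJ q hq, hβ0J q hq, (hmem q hq).2.2.1,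
          (hmem q hq).2.2.1⟩
    have hLχ : Lip A χ0 S := by
      rw [hχ0, hA]
      exact e4d_lip_comp (f := l2.χ) (g := X0) (e4d_lip_mono hχ2.1 hBL) hB00 hLX hX0O
    obtain ⟨hD, -, hLD, -, hDD⟩ := hdata S X X0 χ χ0 b b0 μ A k2 δ hdA hdk hμ hμd2 hμ2 hδ1
      (near_mono hX1 (kd hk12) Subset.rfl) hχn (near_mono hβ (kd (hk01.trans hk12)) Subset.rfl)
      (e4d_lip_mono hLX hBA) hLχ (e4d_lip_mono hβL hBA) hmw
    rw [← hk3] at hD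
    rw [← hMdef] at hLD
    have hfin := hcore S _ _ b b0 (fun q : E4dQ => q.2.2.2) μ G δ υ0 hμ hμG hGδ hδδ hlam2 hυ2
      hD (near_mono hβ (kd ((hk01.trans hk12).trans hk23)) Subset.rfl) hLD
      (e4d_lip_mono hβL (hBA.trans hAM)) hvL
      fun q hq => ⟨(hDD q hq).1, (hDD q hq).2.1, hβJ q hq, hβ0J q hq, (hmem q hq).2.2.2⟩
    refine e4d_near_congr (near_mono hfin hKε Subset.rfl) (fun q hq => ?_) (fun q hq => ?_)
    · rw [hχ, hX, hbdef]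
      rfl
    · rw [hχ0, hX0, hb0def]
      exact e4d_fin_out C lam υ l1 l2 q.1 q.2.2.2 (hrad q hq)
  | false =>
    obtain ⟨-, hD, -, hLD, hDD⟩ := hdata S X X0 N N0 b b0 μ A k2 δ hdA hdk hμ hμd2 hμ2 hδ1
      (near_mono hX1 (kd hk12) Subset.rfl) (near_mono hN1 (kd hk12) Subset.rfl)
      (near_mono hβ (kd (hk01.trans hk12)) Subset.rfl)
      (e4d_lip_mono hLX hBA) (e4d_lip_mono hLN hBA) (e4d_lip_mono hβL hBA) hmw
    rw [← hk3] at hD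
    rw [← hMdef] at hLD
    have hJn : ∀ {x : ℝ}, x ∈ JJ → -x ∈ JJ := fun h => ⟨by linarith [h.2], by linarith [h.1]⟩
    obtain ⟨hnb, hLnb⟩ := e4d_neg (near_mono hβ (kd ((hk01.trans hk12).trans hk23)) Subset.rfl)
      (e4d_lip_mono hβL (hBA.trans hAM))
    have hfin := hcore S _ _ (fun q => -b q) (fun q => -b0 q) (fun q : E4dQ => q.2.2.2) μ G δ υ0
      hμ hμG hGδ hδδ hlam2 hυ2 hD hnb hLD hLnb hvL
      fun q hq => ⟨(hDD q hq).2.2.1, (hDD q hq).2.2.2, hJn (hβJ q hq), hJn (hβ0J q hq),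
        (hmem q hq).2.2.2⟩
    refine e4d_near_congr (near_mono hfin hKε Subset.rfl) (fun q hq => ?_) (fun q hq => ?_)
    · rw [hN, hX, hbdef]
      rfl
    · rw [hN0, hX0, hb0def]
      exact e4d_fin_in C lam υ l1 l2 q.1 q.2.2.2 (hrad q hq)

end

end Pool.Agent.HS

namespace Pool.Agent.HS
open Set Filter Topology Classical

theorem corner_near (C : ℝ) (hC : 0 < C ∧ C ≤ 1) (out : Bool) (O1 O2 : Set Pl) (l1 l2 : LD)
    (hO1 : IsCompact O1) (hO2 : IsCompact O2)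
    (hr : ∃ L, 0 ≤ L ∧ Reg L l1.F O1 ∧ Reg L l1.χ O1 ∧ Reg L l1.θ O1 ∧
      Reg L l2.F O2 ∧ Reg L l2.χ O2 ∧ Reg L l2.θ O2)
    (hcd : ∀ X ∈ O2, X ∈ CD C) (hm : ∀ X ∈ O1, l1.F X ∈ O2)
    (ha : ∀ X ∈ O1, Acc 0 8 (l2.χ (l1.F X)) (l1.θ X))
    (lam : ℝ) (υ : ℂ) (hlam : 0 ≤ lam) (hlam1 : lam ≤ 1) (hυ : ‖υ‖ ≤ 1) (ϖ1 ϖ2 : ℝ)
    (hϖ : 0 < ϖ1) (hϖ2 : lam / 2 < ϖ1) (hϖ3 : ϖ1 ≤ ϖ2) (ε : ℝ) (hε : 0 < ε) :
    ∃ δ : ℝ, 0 < δ ∧ ∀ (μ G : ℝ) (υ0 : ℂ) (w1 w2 : WD) (B : Pl × ℝ × ℝ → ℝ),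
      0 < μ → μ ≤ G → G ≤ δ → |μ / G - lam| ≤ δ → ‖υ0 / (G : ℂ) - υ‖ ≤ δ →
      WNear δ O1 w1 l1 → WNear δ O2 w2 l2 → (∀ p ∈ O1 ×ˢ (JJ ×ˢ JJ), w1.P p ∈ O2) →
      Near δ B (fun p => cB0 C l1 l2 p.1) (O1 ×ˢ (JJ ×ˢ JJ)) →
      (∀ p ∈ O1 ×ˢ (JJ ×ˢ JJ), |B p| ≤ 9) →
      Near ε (gfc C μ G υ0 out w1 w2 B)
        (fun q => (if out then cornerU C l1 l2 lam υ else cornerL C l1 l2 lam υ) (q.1, q.2.2.2))
        (O1 ×ˢ (JJ ×ˢ (JJ ×ˢ Icc ϖ1 ϖ2))) :=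
  @Pool.Agent.HS.corner_near_pr C hC out O1 O2 l1 l2 hO1 hO2 hr hcd hm ha lam υ hlam hlam1 hυ ϖ1 ϖ2 hϖ hϖ2 hϖ3 ε hε

end Pool.Agent.HS
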