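import Pool.Agent.Lib_helper60.HSF.D_WE2
import Pool.Agent.Lib_helper60.HSF.A_CA
import Pool.Agent.Lib_helper60.HSF.E_E0a
import Pool.Agent.Lib_helper60.HSF.E_E1e
import Pool.Agent.Lib_helper60.HSF.E_E4a
import Pool.Agent.Lib_helper60.HSF.IO_K2
import Pool.Agent.Lib_helper60.HSF.IO_K7
import Pool.Agent.Lib_helper60.HSF.E_E4d
import Pool.Agent.Lib_helper60.HSF.E_E1d
import Pool.Agent.Lib_helper60.HSF.E_E0b
import Pool.Agent.Lib_helper60.HSF.E_E1c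
import Pool.Agent.Lib_helper60.HSF.G_COMP
import Pool.Agent.Lib_helper60.HSF.E_E4c

namespace Pool.Agent.HS

noncomputable section

open Set Filter Topology Classical

theorem e4_hit {M : ℝ} {z : ℂ} {h : ℝ} {x S y : St} (h1 : ReachR M x S) (h2 : ReachR M S y)
    (h3 : ‖x3 S - z * x2 S‖ ≤ h * ‖x2 S‖) : HitR M z h x y := by
  refine hitR_trans (y := S) ?_ h2
  obtain ⟨ρ, hρ, T, hT, γ, hγ, h0, hT'⟩ := h1
  refine ⟨ρ, hρ, T, hT, γ, hγ, h0, hT', T, ⟨hT, le_rfl⟩, ?_⟩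
  rw [hT']
  have e : x3 (rot ρ S) - z * x2 (rot ρ S) = ρ * (x3 S - z * x2 S) := by
    simp only [rot, x3, x2]; ring
  have e2 : x2 (rot ρ S) = ρ * x2 S := rfl
  rw [e, e2, norm_mul, norm_mul, hρ, one_mul, one_mul]
  exact h3

theorem e4_S4 {lam : ℝ} {υ : ℂ} {r : ℝ} {p : ℝ × ℂ} (hp : p ∈ S4 lam υ r) :
    ∃ (υ0 : ℂ) (g : ℝ), 0 < p.1 ∧ p.1 < r ∧ p.1 ≤ g ∧ 0 < g ∧ g < r ∧ ‖υ0‖ ≤ g ∧
      υ0 ^ 2 * (mb + ma * p.2) = p.2 - 1 ∧ |p.1 / g - lam| < r ∧ ‖υ0 / (g : ℂ) - υ‖ < r := by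
  obtain ⟨h0, h1, υ0, _, h3, h4, h5, h6⟩ := hp
  refine ⟨υ0, max p.1 ‖υ0‖, h0, h1, le_max_left _ _, lt_of_lt_of_le h0 (le_max_left _ _),
    max_lt h1 h4, le_max_right _ _, h3, h5, h6⟩

theorem e4_S4_mono {lam : ℝ} {υ : ℂ} {r r' : ℝ} (hr : r ≤ r') : S4 lam υ r ⊆ S4 lam υ r' := by
  rintro p ⟨h0, h1, υ0, h2, h3, h4, h5, h6⟩
  exact ⟨h0, h1.trans_le hr, υ0, h2, h3, h4.trans_le hr, h5.trans_le hr, h6.trans_le hr⟩

/-- if `lam > 1` or `|υ| > 1`, there are no small parameters -/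
theorem e4_S4_empty {lam : ℝ} {υ : ℂ} (h : ¬ (lam ≤ 1 ∧ ‖υ‖ ≤ 1)) :
    ∃ r : ℝ, 0 < r ∧ ∀ p, p ∉ S4 lam υ r := by
  rcases not_and_or.mp h with h | h
  · rw [not_le] at h
    refine ⟨lam - 1, by linarith, fun p hp => ?_⟩
    obtain ⟨υ0, g, h0, _, h2, h3, _, _, _, h7, _⟩ := e4_S4 hp
    have : p.1 / g ≤ 1 := by rw [div_le_one h3]; exact h2
    have := (abs_lt.mp h7).1
    linarith
  · rw [not_le] at h
    refine ⟨‖υ‖ - 1, by linarith, fun p hp => ?_⟩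
    obtain ⟨υ0, g, h0, _, h2, h3, _, h5, _, _, h8⟩ := e4_S4 hp
    have h9 : ‖υ0 / (g : ℂ)‖ ≤ 1 := by
      rw [norm_div, Complex.norm_real, Real.norm_of_nonneg h3.le, div_le_one h3]; exact h5
    have := norm_sub_norm_le υ (υ0 / (g : ℂ))
    rw [norm_sub_rev] at this
    linarith

/-- one small number for many conditions -/
theorem e4_small (a b c d e f : ℝ) (K K' K'' : ℝ) (ha : 0 < a) (hb : 0 < b) (hc : 0 < c)
    (hd : 0 < d) (he : 0 < e) (hf : 0 < f) (hK : 0 ≤ K) (hK' : 0 ≤ K') (hK'' : 0 ≤ K'') :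
    ∃ x : ℝ, 0 < x ∧ x ≤ a ∧ x ≤ b ∧ x ≤ c ∧ K * x ≤ d ∧ K * x ≤ e ∧ K' * x ≤ f ∧ K'' * x ≤ f := by
  obtain ⟨m, hm, h1, h2, h3, h4, h5, h6⟩ : ∃ m : ℝ, 0 < m ∧ m ≤ a ∧ m ≤ b ∧ m ≤ c ∧ m ≤ d ∧
      m ≤ e ∧ m ≤ f :=
    ⟨min a (min b (min c (min d (min e f)))), by positivity, by simp, by simp, by simp, by simp,
      by simp, by simp⟩
  have hS : 0 < 1 + K + K' + K'' := by positivity
  have key : ∀ k, 0 ≤ k → k ≤ 1 + K + K' + K'' → k * (m / (1 + K + K' + K'')) ≤ m := by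
    intro k hk hk'
    rw [mul_div_assoc', div_le_iff₀ hS]
    nlinarith
  have k1 := key 1 (by norm_num) (by linarith)
  have k2 := key K hK (by linarith)
  have k3 := key K' hK' (by linarith)
  have k4 := key K'' hK'' (by linarith)
  rw [one_mul] at k1
  refine ⟨m / (1 + K + K' + K''), by positivity, ?_, ?_, ?_, ?_, ?_, ?_, ?_⟩ <;> linarith

/-- scales on the legs -/
theorem e4_scale {μ g ϖ ϖ1 ϖ2 lam r σ : ℝ} (hμ : 0 < μ) (hg : μ ≤ g) (hϖ : ϖ ∈ Icc ϖ1 ϖ2)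
    (h1 : 0 < ϖ1) (hr : lam + r ≤ 2 * ϖ1) (hl : |μ / g - lam| < r) (hg2 : g * ϖ2 ≤ σ)
    (hμ2 : 2 * μ ≤ σ) :
    0 < g ∧ 0 < ϖ ∧ μ / 2 ≤ g * ϖ ∧ g * ϖ ≤ σ ∧ max (g * ϖ) (μ ^ 2 / (g * ϖ)) ∈ Icc μ σ := by
  have hg0 : 0 < g := hμ.trans_le hg
  have hϖ0 : 0 < ϖ := h1.trans_le hϖ.1
  have h2 : μ / g < 2 * ϖ1 := by
    have := (abs_lt.mp hl).2
    linarith
  have h3 : μ < 2 * ϖ1 * g := by rwa [div_lt_iff₀ hg0] at h2
  have h4 : μ / 2 ≤ g * ϖ := by nlinarith [hϖ.1]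
  have h5 : g * ϖ ≤ σ := le_trans (mul_le_mul_of_nonneg_left hϖ.2 hg0.le) hg2
  have h6 : 0 < g * ϖ := by positivity
  have h7 : μ ^ 2 / (g * ϖ) ≤ 2 * μ := by
    rw [div_le_iff₀ h6]; nlinarith
  refine ⟨hg0, hϖ0, h4, h5, ?_, max_le h5 (h7.trans hμ2)⟩
  by_cases h8 : μ ≤ g * ϖ
  · exact le_max_of_le_left h8
  · rw [not_le] at h8
    refine le_max_of_le_right ?_
    rw [le_div_iff₀ h6]; nlinarith

/-- the final estimate -/
theorem e4_tol {k g L a u h' S2 Λ x : ℝ} (hk : 0 ≤ k) (hL : 1 ≤ L) (hu : u ≤ 1)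
    (hx : x ≤ k * g ^ 2 * a * (a + L * u)) (hS : 1 / L ≤ S2) (ha : 0 ≤ a)
    (hΛ : Λ = 1 + L * (1 + L) * (k * g ^ 2)) (hh : h' ≤ 1) (hn : Λ * a < h') :
    x ≤ h' * S2 := by
  have h0 : 0 ≤ k * g ^ 2 := by positivity
  have hL0 : 0 < L := by linarith
  have h1 : 0 ≤ L * (1 + L) * (k * g ^ 2) := by positivity
  have hΛ1 : 1 ≤ Λ := by rw [hΛ]; linarith
  have ha1 : a ≤ 1 := by nlinarith
  have h2 : a + L * u ≤ 1 + L := by nlinarith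
  have h3 : x ≤ k * g ^ 2 * a * (1 + L) :=
    hx.trans (mul_le_mul_of_nonneg_left h2 (by positivity))
  have h4 : L * (1 + L) * (k * g ^ 2) * a ≤ h' := by
    have : L * (1 + L) * (k * g ^ 2) * a ≤ Λ * a :=
      mul_le_mul_of_nonneg_right (by rw [hΛ]; linarith) ha
    linarith
  have h5 : k * g ^ 2 * a * (1 + L) ≤ h' * (1 / L) := by
    rw [mul_one_div, le_div_iff₀ hL0]
    linarith
  have h6 : 0 ≤ h' := by nlinarith
  exact h3.trans (h5.trans (mul_le_mul_of_nonneg_left hS h6))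

section
variable {α : Type*} [PseudoMetricSpace α]
variable {E F H : Type*} [NormedAddCommGroup E] [NormedAddCommGroup F] [NormedAddCommGroup H]

theorem e4_near_refl {ε : ℝ} (hε : 0 ≤ ε) (f : α → E) (S : Set α) : Near ε f f S :=
  ⟨fun p _ => by simpa using hε, fun p _ q _ => by simpa using mul_nonneg hε dist_nonneg⟩

theorem e4_near_congr {ε : ℝ} {f g f' g' : α → E} {S : Set α} (h : Near ε f g S)
    (hf : ∀ p ∈ S, f' p = f p) (hg : ∀ p ∈ S, g' p = g p) : Near ε f' g' S :=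
  ⟨fun p hp => by rw [hf p hp, hg p hp]; exact h.1 p hp,
    fun p hp q hq => by rw [hf p hp, hg p hp, hf q hq, hg q hq]; exact h.2 p hp q hq⟩

theorem e4_lip_mono {L L' : ℝ} {f : α → E} {S : Set α} (h : Lip L f S) (hL : L ≤ L') :
    Lip L' f S := fun p hp q hq =>
  (h p hp q hq).trans (mul_le_mul_of_nonneg_right hL dist_nonneg)

theorem e4_lip_prod {L : ℝ} {f : α → E} {g : α → F} {S : Set α} (hf : Lip L f S)
    (hg : Lip L g S) : Lip L (fun p => (f p, g p)) S := fun p hp q hq => by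
  rw [Prod.mk_sub_mk, Prod.norm_mk]
  exact max_le (hf p hp q hq) (hg p hp q hq)

theorem e4_reg_fst {L : ℝ} {f : E → F} {S : Set E} {T : Set H} (hL : 0 ≤ L) (h : Reg L f S) :
    Reg L (fun q : E × H => f q.1) (S ×ˢ T) := by
  refine ⟨fun p hp q hq => (h.1 p.1 hp.1 q.1 hq.1).trans ?_, fun x hx y hy x' hx' y' hy' =>
    (h.2 x.1 hx.1 y.1 hy.1 x'.1 hx'.1 y'.1 hy'.1).trans ?_⟩
  · exact mul_le_mul_of_nonneg_left (le_max_left _ _) hL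
  · have n1 : ∀ v : E × H, ‖v.1‖ ≤ ‖v‖ := fun v => norm_fst_le v
    have a1 := n1 (x - y - x' + y')
    have a2 := n1 (x - x')
    have a3 := n1 (y - y')
    have a4 := n1 (x' - y')
    simp only [Prod.fst_add, Prod.fst_sub] at a1 a2 a3 a4
    gcongr

theorem e4_reg_snd {S : Set (E × H)} : Reg 1 (fun q : E × H => q.2) S := by
  refine ⟨fun p hp q hq => ?_, fun x hx y hy x' hx' y' hy' => ?_⟩
  · rw [one_mul, dist_eq_norm]; exact norm_snd_le (p - q)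
  · have a1 : ‖(x - y - x' + y').2‖ ≤ ‖x - y - x' + y'‖ := norm_snd_le _
    simp only [Prod.snd_add, Prod.snd_sub] at a1
    have a2 : 0 ≤ 1 * (‖x - x'‖ + ‖y - y'‖) * ‖x' - y'‖ := by positivity
    rw [one_mul]
    linarith

theorem e4_reg_fst_out {L : ℝ} {f : E → F × H} {S : Set E} (h : Reg L f S) :
    Reg L (fun x => (f x).1) S := by
  refine ⟨fun p hp q hq => le_trans ?_ (h.1 p hp q hq), fun x hx y hy x' hx' y' hy' =>
    le_trans ?_ (h.2 x hx y hy x' hx' y' hy')⟩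
  · exact norm_fst_le (f p - f q)
  · exact norm_fst_le (f x - f y - f x' + f y')

end

/-- from `(X, t)` to `(X, b, b', t)` -/
theorem e4_reg_proj {F : Type*} [NormedAddCommGroup F] {L t1 t2 : ℝ} {f : Pl × ℝ → F} {O : Set Pl}
    (hL : 0 ≤ L) (h : Reg L f (O ×ˢ Icc t1 t2)) :
    Reg L (fun p : Pl × ℝ × ℝ × ℝ => f (p.1, p.2.2.2)) (O ×ˢ (JJ ×ˢ (JJ ×ˢ Icc t1 t2))) := by
  have n1 : ∀ v : Pl × ℝ × ℝ × ℝ, ‖(v.1, v.2.2.2)‖ ≤ ‖v‖ := fun v => by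
    rw [Prod.norm_mk]
    exact max_le (norm_fst_le v) ((norm_snd_le v.2.2).trans ((norm_snd_le v.2).trans
      (norm_snd_le v)))
  refine ⟨fun p hp q hq => (h.1 (p.1, p.2.2.2) ⟨hp.1, hp.2.2.2⟩ (q.1, q.2.2.2)
    ⟨hq.1, hq.2.2.2⟩).trans ?_, fun x hx y hy x' hx' y' hy' =>
    (h.2 (x.1, x.2.2.2) ⟨hx.1, hx.2.2.2⟩ (y.1, y.2.2.2) ⟨hy.1, hy.2.2.2⟩
      (x'.1, x'.2.2.2) ⟨hx'.1, hx'.2.2.2⟩ (y'.1, y'.2.2.2) ⟨hy'.1, hy'.2.2.2⟩).trans ?_⟩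
  · rw [dist_eq_norm, dist_eq_norm]
    exact mul_le_mul_of_nonneg_left (n1 (p - q)) hL
  · have a1 := n1 (x - y - x' + y')
    have a2 := n1 (x - x')
    have a3 := n1 (y - y')
    have a4 := n1 (x' - y')
    exact add_le_add (mul_le_mul_of_nonneg_left a1 hL) (mul_le_mul (mul_le_mul_of_nonneg_left
      (add_le_add a2 a3) hL) a4 (norm_nonneg _) (by positivity))

/-- the pair `(cB0, t)` as a complex number -/
theorem e4_reg_re_im {L : ℝ} {f : Pl → ℝ} {O : Set Pl} {T : Set ℝ} (hL : 0 ≤ L) (h : Reg L f O) :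
    Reg (L + 1) (fun q : Pl × ℝ => (f q.1 : ℂ) + q.2 * Complex.I) (O ×ˢ T) := by
  have hf := e4_reg_fst (T := T) hL h
  have hs : Reg 1 (fun q : Pl × ℝ => q.2) (O ×ˢ T) := e4_reg_snd
  have n1 : ∀ a b : ℝ, ‖(a : ℂ) + b * Complex.I‖ ≤ ‖a‖ + ‖b‖ := fun a b => by
    refine (norm_add_le _ _).trans ?_
    rw [norm_mul, Complex.norm_I, mul_one, Complex.norm_real, Complex.norm_real]
  refine ⟨fun p hp q hq => ?_, fun x hx y hy x' hx' y' hy' => ?_⟩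
  · have e : (f p.1 : ℂ) + p.2 * Complex.I - ((f q.1 : ℂ) + q.2 * Complex.I) =
        ((f p.1 - f q.1 : ℝ) : ℂ) + (p.2 - q.2 : ℝ) * Complex.I := by push_cast; ring
    rw [e]
    have := hf.1 p hp q hq
    have := hs.1 p hp q hq
    linarith [n1 (f p.1 - f q.1) (p.2 - q.2)]
  · have e : (f x.1 : ℂ) + x.2 * Complex.I - ((f y.1 : ℂ) + y.2 * Complex.I) -
        ((f x'.1 : ℂ) + x'.2 * Complex.I) + ((f y'.1 : ℂ) + y'.2 * Complex.I) =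
        ((f x.1 - f y.1 - f x'.1 + f y'.1 : ℝ) : ℂ) +
          (x.2 - y.2 - x'.2 + y'.2 : ℝ) * Complex.I := by push_cast; ring
    rw [e]
    have h1 := hf.2 x hx y hy x' hx' y' hy'
    have h2 := hs.2 x hx y hy x' hx' y' hy'
    have h3 := n1 (f x.1 - f y.1 - f x'.1 + f y'.1) (x.2 - y.2 - x'.2 + y'.2)
    have h4 : (L + 1) * ‖x - y - x' + y'‖ + (L + 1) * (‖x - x'‖ + ‖y - y'‖) * ‖x' - y'‖ =
      (L * ‖x - y - x' + y'‖ + L * (‖x - x'‖ + ‖y - y'‖) * ‖x' - y'‖) +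
      (1 * ‖x - y - x' + y'‖ + 1 * (‖x - x'‖ + ‖y - y'‖) * ‖x' - y'‖) := by ring
    linarith

/-- `(X, b, b', t)` to `(X, b, B, t)` and `(X, b, B)` -/
theorem e4_dist {Λ : ℝ} {O : Set Pl} {B : Pl × ℝ × ℝ → ℝ} (hΛ : 1 ≤ Λ)
    (hB : Lip Λ B (O ×ˢ (JJ ×ˢ JJ))) {T : Set ℝ} {p q : Pl × ℝ × ℝ × ℝ}
    (hp : p ∈ O ×ˢ (JJ ×ˢ (JJ ×ˢ T))) (hq : q ∈ O ×ˢ (JJ ×ˢ (JJ ×ˢ T))) :
    dist p.1 q.1 ≤ Λ * dist p q ∧ dist p.2.1 q.2.1 ≤ Λ * dist p q ∧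
    dist p.2.2.1 q.2.2.1 ≤ Λ * dist p q ∧ dist p.2.2.2 q.2.2.2 ≤ Λ * dist p q ∧
    dist (B (p.1, p.2.1, p.2.2.1)) (B (q.1, q.2.1, q.2.2.1)) ≤ Λ * dist p q := by
  have h0 : dist p q ≤ Λ * dist p q := le_mul_of_one_le_left dist_nonneg hΛ
  have d1 : dist p.1 q.1 ≤ dist p q := le_max_left _ _
  have d2 : dist p.2 q.2 ≤ dist p q := le_max_right _ _
  have d3 : dist p.2.1 q.2.1 ≤ dist p.2 q.2 := le_max_left _ _
  have d4 : dist p.2.2 q.2.2 ≤ dist p.2 q.2 := le_max_right _ _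
  have d5 : dist p.2.2.1 q.2.2.1 ≤ dist p.2.2 q.2.2 := le_max_left _ _
  have d6 : dist p.2.2.2 q.2.2.2 ≤ dist p.2.2 q.2.2 := le_max_right _ _
  refine ⟨by linarith, by linarith, by linarith, by linarith, ?_⟩
  have h1 := hB (p.1, p.2.1, p.2.2.1) ⟨hp.1, hp.2.1, hp.2.2.1⟩ (q.1, q.2.1, q.2.2.1)
    ⟨hq.1, hq.2.1, hq.2.2.1⟩
  rw [dist_eq_norm]
  refine h1.trans (mul_le_mul_of_nonneg_left ?_ (by linarith))
  rw [Prod.dist_eq, Prod.dist_eq]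
  exact max_le d1 (max_le (by linarith) (by linarith))

/-- the marks in arc 1 -/
theorem e4_mark1 {ε Λ t1 t2 C τa : ℝ} {i : Fin 2} {O : Set Pl} {χ τ0 : Pl → ℝ}
    {Z : Pl × ℝ × ℝ × ℝ → LCS} {B : Pl × ℝ × ℝ → ℝ} (hε : 0 ≤ ε) (hΛ : 1 ≤ Λ)
    (hZ : Near ε Z (fun p => Zd i (limD C p.1 (χ p.1)) p.2.2.2)
          {p | p.1 ∈ O ∧ p.2.1 ∈ JJ ∧ p.2.2.1 ∈ JJ ∧ p.2.2.2 ∈ Icc τa (τ0 p.1 - τa)})
    (hw : ∀ X ∈ O, τa ≤ t1 ∧ t2 ≤ τ0 X - τa)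
    (hB : Lip Λ B (O ×ˢ (JJ ×ˢ JJ))) (hBJ : ∀ p ∈ O ×ˢ (JJ ×ˢ JJ), B p ∈ JJ) :
    Near (ε * Λ)
      (fun q : Pl × ℝ × ℝ × ℝ => (Z (q.1, q.2.1, B (q.1, q.2.1, q.2.2.1), q.2.2.2)).1)
      (fun q => (Zd i (limD C q.1 (χ q.1)) q.2.2.2).1) (O ×ˢ (JJ ×ˢ (JJ ×ˢ Icc t1 t2))) := by
  have h := near_comp_inner (T := O ×ˢ (JJ ×ˢ (JJ ×ˢ Icc t1 t2)))
    (h := fun q : Pl × ℝ × ℝ × ℝ => (q.1, q.2.1, B (q.1, q.2.1, q.2.2.1), q.2.2.2)) hZ ?_ ?_ hΛ hε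
  · exact near_fst h
  · intro q hq
    have h1 := hw q.1 hq.1
    exact ⟨hq.1, hq.2.1, hBJ _ ⟨hq.1, hq.2.1, hq.2.2.1⟩, h1.1.trans hq.2.2.2.1,
      hq.2.2.2.2.trans h1.2⟩
  · intro p hp q hq
    obtain ⟨d1, d2, _, d4, d5⟩ := e4_dist hΛ hB hp hq
    exact max_le d1 (max_le d2 (max_le d5 d4))

/-- the marks in arc 2 -/
theorem e4_mark2 {ε ε' Λ Λ' L LF t1 t2 C : ℝ} {i : Fin 2} {O O2 : Set Pl} {χ : Pl → ℝ}
    {Z : Pl × ℝ × ℝ × ℝ → LCS} {B : Pl × ℝ × ℝ → ℝ} {P : Pl × ℝ × ℝ → Pl} {F : Pl → Pl}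
    (hε : 0 ≤ ε) (hε' : 0 ≤ ε') (hΛ : 1 ≤ Λ) (hL : 0 ≤ L) (hLF : 0 ≤ LF)
    (hΛ' : (LF + ε) * Λ ≤ Λ') (hΛ'' : Λ ≤ Λ')
    (hZ : Near ε' Z (fun p => Zd i (limD C p.1 (χ p.1)) p.2.2.2)
      (O2 ×ˢ (JJ ×ˢ (JJ ×ˢ Icc t1 t2))))
    (hreg : Reg L (fun q : Pl × ℝ => Zd i (limD C q.1 (χ q.1)) q.2) (O2 ×ˢ Icc t1 t2))
    (hP : Near ε P (fun p => F p.1) (O ×ˢ (JJ ×ˢ JJ))) (hF : Lip LF F O)
    (hPO : ∀ p ∈ O ×ˢ (JJ ×ˢ JJ), P p ∈ O2) (hFO : ∀ X ∈ O, F X ∈ O2)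
    (hB : Lip Λ B (O ×ˢ (JJ ×ˢ JJ))) (hBJ : ∀ p ∈ O ×ˢ (JJ ×ˢ JJ), B p ∈ JJ) :
    Near (L * (ε * Λ) * (1 + 2 * Λ') + ε' * Λ')
      (fun q : Pl × ℝ × ℝ × ℝ => (Z (P (q.1, q.2.1, B (q.1, q.2.1, q.2.2.1)),
        B (q.1, q.2.1, q.2.2.1), q.2.2.1, q.2.2.2)).1)
      (fun q => (Zd i (limD C (F q.1) (χ (F q.1))) q.2.2.2).1)
      (O ×ˢ (JJ ×ˢ (JJ ×ˢ Icc t1 t2))) := by
  set S := O ×ˢ (JJ ×ˢ (JJ ×ˢ Icc t1 t2)) with hS
  set h : Pl × ℝ × ℝ × ℝ → Pl × ℝ × ℝ := fun q => (q.1, q.2.1, B (q.1, q.2.1, q.2.2.1)) with hh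
  have hm : MapsTo h S (O ×ˢ (JJ ×ˢ JJ)) := fun q hq =>
    ⟨hq.1, hq.2.1, hBJ _ ⟨hq.1, hq.2.1, hq.2.2.1⟩⟩
  have hd : ∀ p ∈ S, ∀ q ∈ S, dist (h p) (h q) ≤ Λ * dist p q := by
    intro p hp q hq
    obtain ⟨d1, d2, _, _, d5⟩ := e4_dist hΛ hB hp hq
    exact max_le d1 (max_le d2 d5)
  have hn1 := near_comp_inner hP hm hd hΛ hε
  have hPl : Lip (LF + ε) P (O ×ˢ (JJ ×ˢ JJ)) := by
    refine lip_of_near hP ?_
    intro p hp q hq
    exact (hF p.1 hp.1 q.1 hq.1).trans (mul_le_mul_of_nonneg_left (le_max_left _ _) hLF)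
  have hΛ0 : 0 ≤ Λ := by linarith
  have lB : Lip Λ' (fun q : Pl × ℝ × ℝ × ℝ => B (q.1, q.2.1, q.2.2.1)) S := by
    intro p hp q hq
    obtain ⟨_, _, _, _, d5⟩ := e4_dist hΛ hB hp hq
    rw [dist_eq_norm] at d5
    exact d5.trans (mul_le_mul_of_nonneg_right hΛ'' dist_nonneg)
  have l3 : Lip Λ' (fun q : Pl × ℝ × ℝ × ℝ => q.2.2.1) S := by
    intro p hp q hq
    obtain ⟨_, _, d3, _, _⟩ := e4_dist hΛ hB hp hq
    rw [dist_eq_norm] at d3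
    exact d3.trans (mul_le_mul_of_nonneg_right hΛ'' dist_nonneg)
  have l4 : Lip Λ' (fun q : Pl × ℝ × ℝ × ℝ => q.2.2.2) S := by
    intro p hp q hq
    obtain ⟨_, _, _, d4, _⟩ := e4_dist hΛ hB hp hq
    rw [dist_eq_norm] at d4
    exact d4.trans (mul_le_mul_of_nonneg_right hΛ'' dist_nonneg)
  have lP : Lip Λ' (fun q => P (h q)) S := by
    intro p hp q hq
    refine (hPl (h p) (hm hp) (h q) (hm hq)).trans ?_
    refine (mul_le_mul_of_nonneg_left (hd p hp q hq) (by positivity)).trans ?_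
    rw [← mul_assoc]
    exact mul_le_mul_of_nonneg_right hΛ' dist_nonneg
  have lF : Lip Λ' (fun q : Pl × ℝ × ℝ × ℝ => F q.1) S := by
    intro p hp q hq
    refine (hF p.1 hp.1 q.1 hq.1).trans ?_
    have d1 : dist p.1 q.1 ≤ dist p q := le_max_left _ _
    refine (mul_le_mul_of_nonneg_left d1 hLF).trans (mul_le_mul_of_nonneg_right ?_ dist_nonneg)
    nlinarith
  have hr := e4_reg_proj hL hreg
  have hn : Near (ε * Λ) (fun q : Pl × ℝ × ℝ × ℝ => (P (h q), B (q.1, q.2.1, q.2.2.1),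
      q.2.2.1, q.2.2.2)) (fun q => (F q.1, B (q.1, q.2.1, q.2.2.1), q.2.2.1, q.2.2.2)) S :=
    near_prod hn1 (e4_near_refl (by positivity) _ _)
  have key := near_comp (S' := O2 ×ˢ (JJ ×ˢ (JJ ×ˢ Icc t1 t2))) (Λ := Λ') hn
    (fun q hq => ⟨hPO _ (hm hq), hBJ _ ⟨hq.1, hq.2.1, hq.2.2.1⟩, hq.2.2.1, hq.2.2.2⟩)
    (fun q hq => ⟨hFO _ hq.1, hBJ _ ⟨hq.1, hq.2.1, hq.2.2.1⟩, hq.2.2.1, hq.2.2.2⟩)
    (e4_lip_prod lP (e4_lip_prod lB (e4_lip_prod l3 l4)))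
    (e4_lip_prod lF (e4_lip_prod lB (e4_lip_prod l3 l4))) hr hZ hL (by positivity) hε'
    (hΛ.trans hΛ'')
  exact near_fst key

/-- the chain of orbits at the corner, at fixed `μ` -/
theorem e4_chain {C μ σ σa σb σl g ϖ : ℝ} {i1 i2 : Fin 2} {X X1 X2 : Pl} {b β b' χ0 N1 χ1 N2 : ℝ}
    {Z1 Z2 : LCS}
    (hN : ∀ N, Match C μ X N b χ0 → enc C μ X N b = outLeg C μ X χ0 b μ)
    (hE : inLeg C μ X2 N2 b' μ = enc C μ X2 N2 b')
    (hs : max (g * ϖ) (μ ^ 2 / (g * ϖ)) ∈ Icc μ σ) (hσa : σ ≤ σa) (hσb : σ ≤ σb) (hσl : σ ≤ σl)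
    (h1 : ∀ s ∈ Icc μ σa, ReachR (μ ^ 2) (outLeg C μ X χ0 b s) (lcSt i1 Z1) ∧
      ReachR (μ ^ 2) (lcSt i1 Z1) (inLeg C μ X1 N1 β s))
    (h2 : ∀ s ∈ Icc μ σb, ReachR (μ ^ 2) (outLeg C μ X1 χ1 β s) (lcSt i2 Z2) ∧
      ReachR (μ ^ 2) (lcSt i2 Z2) (inLeg C μ X2 N2 b' s))
    (hl : ∀ s ∈ Icc (max (g * ϖ) (μ ^ 2 / (g * ϖ))) σl,
      Reach (μ ^ 2) (inLeg C μ X1 N1 β s) (legSt μ g (outD C μ X1 χ1 β) β ϖ) ∧
      Reach (μ ^ 2) (legSt μ g (outD C μ X1 χ1 β) β ϖ) (outLeg C μ X1 χ1 β s) ∧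
      Reach (μ ^ 2) (inLeg C μ X1 N1 β s) (rev (legSt μ g (inD C μ X1 N1 β) (-β) ϖ)) ∧
      Reach (μ ^ 2) (rev (legSt μ g (inD C μ X1 N1 β) (-β) ϖ)) (outLeg C μ X1 χ1 β s))
    (out : Bool) (N : ℝ) (hM : Match C μ X N b χ0) :
    ReachR (μ ^ 2) (enc C μ X N b) (if out then legSt μ g (outD C μ X1 χ1 β) β ϖ
      else rev (legSt μ g (inD C μ X1 N1 β) (-β) ϖ)) ∧
    ReachR (μ ^ 2) (if out then legSt μ g (outD C μ X1 χ1 β) β ϖ
      else rev (legSt μ g (inD C μ X1 N1 β) (-β) ϖ)) (enc C μ X2 N2 b') := by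
  have hμσ : μ ≤ σ := hs.1.trans hs.2
  have hμa : μ ∈ Icc μ σa := ⟨le_rfl, hμσ.trans hσa⟩
  have hμb : μ ∈ Icc μ σb := ⟨le_rfl, hμσ.trans hσb⟩
  have a1 := (h1 μ hμa).1
  rw [← hN N hM] at a1
  have a2 := (h1 _ ⟨hs.1, hs.2.trans hσa⟩).2
  have a3 := (h2 _ ⟨hs.1, hs.2.trans hσb⟩).1
  have a4 := (h2 μ hμb).2
  rw [hE] at a4
  have a12 := reachR_trans a1 a2
  have a34 := reachR_trans a3 a4
  obtain ⟨l1, l2, l3, l4⟩ := hl _ ⟨le_rfl, hs.2.trans hσl⟩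
  cases out with
  | true =>
    simp only [if_true]
    exact ⟨reachR_trans a12 (reach_reachR l1), reachR_trans (reach_reachR l2) a34⟩
  | false =>
    simp only [Bool.false_eq_true, if_false]
    exact ⟨reachR_trans a12 (reach_reachR l3), reachR_trans (reach_reachR l4) a34⟩

theorem corner_event_pr (C : ℝ) (hC : 0 < C ∧ C ≤ 1) (out : Bool) (i1 i2 : Fin 2) (O1 O2 : Set Pl)
    (l1 l2 : LD) (τ1 τ2 : Pl → ℝ) (h1 : RArc C i1 O1 l1 τ1) (h2 : RArc C i2 O2 l2 τ2)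
    (he : ℝ) (hhe : 0 < he) (n1 n2 nB : ℕ) (τ1m : Fin n1 → ℝ) (τ2m : Fin n2 → ℝ)
    (hm1 : ∀ j, ∀ X ∈ O1, 0 < τ1m j - he ∧ τ1m j + he < τ1 X)
    (hm2 : ∀ j, ∀ X ∈ O2, 0 < τ2m j - he ∧ τ2m j + he < τ2 X)
    (hs1 : ∀ X ∈ O1, ∀ τ ∈ Ioo 0 (τ1 X), (∀ j, he / 2 < |τ - τ1m j|) →
      (Zd i1 (limD C X (l1.χ X)) τ).1 ≠ 0)
    (hs2 : ∀ X ∈ O2, ∀ τ ∈ Ioo 0 (τ2 X), (∀ j, he / 2 < |τ - τ2m j|) →
      (Zd i2 (limD C X (l2.χ X)) τ).1 ≠ 0)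
    (r : ℝ) (hr : 0 < r) (hm : ∀ X ∈ O1, Metric.closedBall (l1.F X) r ⊆ O2)
    (ha : ∀ X ∈ O1, Acc 0 8 (l2.χ (l1.F X)) (l1.θ X))
    (lam : ℝ) (υ : ℂ) (hlam : 0 ≤ lam) (ϖe : ℝ) (hϖ : 0 < ϖe - he)
    (hϖ2 : lam / 2 < ϖe - he)
    (hn : (nB = 0 ∧ ∀ X ∈ O1, cB0 C l1 l2 X ≠ 0) ∨ nB = 1) :
    EvW C (S4 lam υ) O1 (l1.comp l2) (Fin nB ⊕ Fin n1 ⊕ Fin n2)
      (if out then cornerU C l1 l2 lam υ else cornerL C l1 l2 lam υ) ϖe he
      (Sum.elim (fun _ q => (cB0 C l1 l2 q.1 : ℂ) + q.2 * Complex.I)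
        (Sum.elim (fun _ q => (Zd i1 (limD C q.1 (l1.χ q.1)) q.2).1)
          (fun _ q => (Zd i2 (limD C (l1.F q.1) (l2.χ (l1.F q.1))) q.2).1)))
      (Sum.elim (fun _ => 0) (Sum.elim τ1m τ2m)) := by
  -- regularity
  obtain ⟨La, hLa, ra1, ra2, ra3⟩ := h1.reg
  obtain ⟨Lb, hLb, rb1, rb2, rb3⟩ := h2.reg
  have hO1 := h1.z.compact
  have hO2 := h2.z.compact
  have hcd2 : ∀ X ∈ O2, X ∈ CD C := fun X hX => (h2.cd X hX).1
  have hm' : ∀ X ∈ O1, l1.F X ∈ O2 := fun X hX => hm X hX (Metric.mem_closedBall_self hr.le)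
  have hr6 : ∃ L, 0 ≤ L ∧ Reg L l1.F O1 ∧ Reg L l1.χ O1 ∧ Reg L l1.θ O1 ∧
      Reg L l2.F O2 ∧ Reg L l2.χ O2 ∧ Reg L l2.θ O2 :=
    ⟨La + Lb, by positivity, reg_mono ra1 (by linarith) subset_rfl,
      reg_mono ra2 (by linarith) subset_rfl, reg_mono ra3 (by linarith) subset_rfl,
      reg_mono rb1 (by linarith) subset_rfl, reg_mono rb2 (by linarith) subset_rfl,
      reg_mono rb3 (by linarith) subset_rfl⟩
  obtain ⟨Lc, hLc, rB, rG⟩ := corner_reg C hC out O1 O2 l1 l2 hO1 hr6 hcd2 hm' ha lam υ (ϖe - he)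
    (ϖe + he) hϖ (by linarith)
  obtain ⟨Lk, hLk, rk⟩ := kap0_reg C hC
  -- limit trajectories
  set T1 : ℝ := he + ∑ j, |τ1m j| with hT1
  set T2 : ℝ := he + ∑ j, |τ2m j| with hT2
  have hT1j : ∀ j, τ1m j + he ≤ T1 := fun j => by
    have := Finset.single_le_sum (f := fun j => |τ1m j|) (fun i _ => abs_nonneg _)
      (Finset.mem_univ j)
    have := le_abs_self (τ1m j)
    linarith
  have hT2j : ∀ j, τ2m j + he ≤ T2 := fun j => by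
    have := Finset.single_le_sum (f := fun j => |τ2m j|) (fun i _ => abs_nonneg _)
      (Finset.mem_univ j)
    have := le_abs_self (τ2m j)
    linarith
  have hT10 : 0 ≤ T1 := by
    have : 0 ≤ ∑ j, |τ1m j| := Finset.sum_nonneg fun i _ => abs_nonneg _
    linarith
  have hT20 : 0 ≤ T2 := by
    have : 0 ≤ ∑ j, |τ2m j| := Finset.sum_nonneg fun i _ => abs_nonneg _
    linarith
  obtain ⟨Lz1, _, hLz1, _, rz1, _⟩ := zd_reg hC h1 T1 hT10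
  obtain ⟨Lz2, _, hLz2, _, rz2, _⟩ := zd_reg hC h2 T2 hT20
  have sub1 : ∀ j, O1 ×ˢ Icc (τ1m j - he) (τ1m j + he) ⊆ O1 ×ˢ Icc 0 T1 := fun j q hq =>
    ⟨hq.1, (hm1 j q.1 hq.1).1.le.trans hq.2.1, hq.2.2.trans (hT1j j)⟩
  have sub2 : ∀ j, O2 ×ˢ Icc (τ2m j - he) (τ2m j + he) ⊆ O2 ×ˢ Icc 0 T2 := fun j q hq =>
    ⟨hq.1, (hm2 j q.1 hq.1).1.le.trans hq.2.1, hq.2.2.trans (hT2j j)⟩
  constructor
  case cpt => exact hO1
  case hh => exact hhe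
  case cd => exact fun X hX => ⟨(h1.cd X hX).1, (h2.cd _ (hm' X hX)).2⟩
  case pos => exact fun r' _ p hp => ⟨hp.1, hp.2.1⟩
  case mono => exact fun r' r'' _ h => e4_S4_mono h
  case reg =>
    have q1 : Reg (Lb * (La + La ^ 2)) (l1.comp l2).F O1 :=
      reg_comp (f := l1.F) (g := l2.F) ra1 rb1 hm' hLa hLb
    have q3 : Reg (Lb * (La + La ^ 2)) (l1.comp l2).θ O1 :=
      reg_comp (f := l1.F) (g := l2.θ) ra1 rb3 hm' hLa hLb
    have q4 := fun j => e4_reg_fst_out (reg_mono rz1 le_rfl (sub1 j))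
    have q5 : ∀ j, Reg (Lz2 * ((La + 1) + (La + 1) ^ 2))
        (fun q : Pl × ℝ => (Zd i2 (limD C (l1.F q.1) (l2.χ (l1.F q.1))) q.2).1)
        (O1 ×ˢ Icc (τ2m j - he) (τ2m j + he)) := by
      intro j
      have hA : Reg (La + 1) (fun q : Pl × ℝ => (l1.F q.1, q.2))
          (O1 ×ˢ Icc (τ2m j - he) (τ2m j + he)) :=
        reg_prod (reg_mono (e4_reg_fst hLa ra1) (by linarith) subset_rfl)
          (reg_mono e4_reg_snd (by linarith) subset_rfl)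
      have hB := reg_comp hA (reg_mono rz2 le_rfl (sub2 j))
        (fun q hq => ⟨hm' q.1 hq.1, hq.2⟩) (by positivity) hLz2
      exact e4_reg_fst_out hB
    refine ⟨Lb * (La + La ^ 2) + La + Lc + (Lc + 1) + Lz1 + Lz2 * ((La + 1) + (La + 1) ^ 2),
      by positivity, reg_mono q1 ?_ subset_rfl, reg_mono ra2 ?_ subset_rfl,
      reg_mono q3 ?_ subset_rfl, reg_mono rG ?_ subset_rfl, ?_⟩
    · have : 0 ≤ Lz2 * ((La + 1) + (La + 1) ^ 2) := by positivity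
      linarith
    · have : 0 ≤ Lz2 * ((La + 1) + (La + 1) ^ 2) := by positivity
      have : 0 ≤ Lb * (La + La ^ 2) := by positivity
      linarith
    · have : 0 ≤ Lz2 * ((La + 1) + (La + 1) ^ 2) := by positivity
      linarith
    · have : 0 ≤ Lz2 * ((La + 1) + (La + 1) ^ 2) := by positivity
      have : 0 ≤ Lb * (La + La ^ 2) := by positivity
      linarith
    · have p1 : 0 ≤ Lz2 * ((La + 1) + (La + 1) ^ 2) := by positivity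
      have p2 : 0 ≤ Lb * (La + La ^ 2) := by positivity
      rintro (j | j | j)
      · exact reg_mono (e4_reg_re_im hLc rB) (by linarith) subset_rfl
      · exact reg_mono (q4 j) (by linarith) subset_rfl
      · exact reg_mono (q5 j) (by linarith) subset_rfl
  case real =>
    intro ε hε
    by_cases hlu : lam ≤ 1 ∧ ‖υ‖ ≤ 1
    swap
    · obtain ⟨r', hr', hp⟩ := e4_S4_empty hlu
      exact ⟨r', hr', fun p h => absurd h (hp p)⟩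
    obtain ⟨hlam1, hυ⟩ := hlu
    -- constants
    obtain ⟨Cc, ε0, hCc, hε0, hcomp⟩ := comp_near (1 + La + Lb + Lk) 0 (by linarith) (Or.inl rfl)
    obtain ⟨δ, hδ, hcor⟩ := corner_near C hC out O1 O2 l1 l2 hO1 hO2 hr6 hcd2 hm' ha lam υ hlam
      hlam1 hυ (ϖe - he) (ϖe + he) hϖ hϖ2 (by linarith) ε hε
    obtain ⟨τa1, σ1, hτa1, _, h4a1, hw1, hσ1, hp1⟩ := arc_pkg hC h1 he hhe n1 τ1m hm1 hs1 1 one_pos
    obtain ⟨τa2, σ2, hτa2, _, h4a2, hw2, hσ2, hp2⟩ := arc_pkg hC h2 he hhe n2 τ2m hm2 hs2 1 one_pos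
    obtain ⟨σ3, μ3, hσ3, hμ3, hμσ3, hleg⟩ := leg_out C hC
    obtain ⟨σ4, μ4, hσ4, hμ4, hμσ4, hpass⟩ := leg_pass C hC
    obtain ⟨μ5, L5, c5, hμ5, hL5, hc5, hout⟩ := out_near C hC
    obtain ⟨σ6, L6, hσ6, hL6, hhit⟩ := leg_hit c5 hc5
    -- lower bound of `cB0` if the corner is not head-on
    have hcB : ∃ c0 : ℝ, 0 < c0 ∧ (nB = 0 → ∀ X ∈ O1, c0 ≤ |cB0 C l1 l2 X|) := by
      rcases hn with ⟨_, hn⟩ | hn
      · have hcont : ContinuousOn (fun X => |cB0 C l1 l2 X|) O1 := by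
          have h : ContinuousOn (cB0 C l1 l2) O1 := by
            have hl : LipschitzOnWith (Real.toNNReal Lc) (cB0 C l1 l2) O1 :=
              LipschitzOnWith.of_dist_le_mul fun x hx y hy => by
                rw [dist_eq_norm, Real.coe_toNNReal _ hLc]
                exact rB.1 x hx y hy
            exact hl.continuousOn
          exact h.abs
        obtain ⟨c0, hc0, hc1⟩ := hO1.exists_forall_le' hcont (a := 0)
          (fun X hX => abs_pos.mpr (hn X hX))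
        exact ⟨c0, hc0, fun _ => hc1⟩
      · exact ⟨1, one_pos, fun h0 => by omega⟩
    obtain ⟨c0, hc0, hcB⟩ := hcB
    -- the closeness
    set Λ1 : ℝ := Lc + 1 with hΛ1
    set Λ2 : ℝ := (La + 1) * Λ1 + Λ1 with hΛ2
    have hΛ1' : 1 ≤ Λ1 := by linarith
    have hΛ2' : 0 ≤ (La + 1) * Λ1 := by positivity
    obtain ⟨x, hx, hxε0, hx1, hxr, hxCm, hxCc, hxK', hxK''⟩ := e4_small ε0 1 r
      (min (min 1 ε) δ) (c0 / 2) ε Cc Λ1 (Lz2 * Λ1 * (1 + 2 * Λ2) + Λ2) hε0 one_pos hr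
      (by positivity) (by positivity) hε (by linarith) (by linarith) (by positivity)
    have hC1 : Cc * x ≤ 1 := hxCm.trans ((min_le_left _ _).trans (min_le_left _ _))
    have hC2 : Cc * x ≤ ε := hxCm.trans ((min_le_left _ _).trans (min_le_right _ _))
    have hC3 : Cc * x ≤ δ := hxCm.trans (min_le_right _ _)
    have hxδ : x ≤ δ := le_trans (le_mul_of_one_le_left hx.le hCc) hC3
    have hxε : x ≤ ε := le_trans (le_mul_of_one_le_left hx.le hCc) hC2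
    obtain ⟨μ1, hμ1, hμσ1, hp1⟩ := hp1 x hx
    obtain ⟨μ2, hμ2, hμσ2, hp2⟩ := hp2 x hx
    obtain ⟨μ7, hμ7, hK⟩ := kap_knear C hC (1 + La + Lb + Lk) O2 hcd2
      (e4_lip_mono (reg_mono rk le_rfl hcd2).1 (by linarith)) x hx
    set σ : ℝ := min (min σ1 σ2) (min (min σ3 σ4) σ6) with hσ
    have hσ0 : 0 < σ := by positivity
    have hσ1' : σ ≤ σ1 := (min_le_left _ _).trans (min_le_left _ _)
    have hσ2' : σ ≤ σ2 := (min_le_left _ _).trans (min_le_right _ _)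
    have hσ4' : σ ≤ σ4 := (min_le_right _ _).trans ((min_le_left _ _).trans (min_le_right _ _))
    have hσ6' : σ ≤ σ6 := (min_le_right _ _).trans (min_le_right _ _)
    have hϖ3 : 0 < ϖe + he := by linarith
    -- the radius
    set R : ℝ := min (min (min μ1 μ2) (min μ3 μ4)) (min (min μ5 μ7) (min (min δ (σ / 2))
      (min (σ / (ϖe + he)) (2 * (ϖe - he) - lam)))) with hR
    have hR0 : 0 < R := by
      have : 0 < 2 * (ϖe - he) - lam := by linarith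
      have : 0 < σ / (ϖe + he) := by positivity
      positivity
    have R1 : R ≤ μ1 := (min_le_left _ _).trans ((min_le_left _ _).trans (min_le_left _ _))
    have R2 : R ≤ μ2 := (min_le_left _ _).trans ((min_le_left _ _).trans (min_le_right _ _))
    have R3 : R ≤ μ3 := (min_le_left _ _).trans ((min_le_right _ _).trans (min_le_left _ _))
    have R4 : R ≤ μ4 := (min_le_left _ _).trans ((min_le_right _ _).trans (min_le_right _ _))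
    have R5 : R ≤ μ5 := (min_le_right _ _).trans ((min_le_left _ _).trans (min_le_left _ _))
    have R7 : R ≤ μ7 := (min_le_right _ _).trans ((min_le_left _ _).trans (min_le_right _ _))
    have Rr : R ≤ min (min δ (σ / 2)) (min (σ / (ϖe + he)) (2 * (ϖe - he) - lam)) :=
      (min_le_right _ _).trans (min_le_right _ _)
    have R8 : R ≤ δ := Rr.trans ((min_le_left _ _).trans (min_le_left _ _))
    have R9 : R ≤ σ / 2 := Rr.trans ((min_le_left _ _).trans (min_le_right _ _))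
    have R10 : R ≤ σ / (ϖe + he) := Rr.trans ((min_le_right _ _).trans (min_le_left _ _))
    have R11 : R ≤ 2 * (ϖe - he) - lam := Rr.trans ((min_le_right _ _).trans (min_le_right _ _))
    refine ⟨R, hR0, fun p hp => ?_⟩
    obtain ⟨υ0, g, hμ0, hμR, hμg, hg0, hgR, hυg, hυeq, hlamR, hυR⟩ := e4_S4 hp
    set μ : ℝ := p.1 with hμdef
    obtain ⟨w1, Z1, hw1n, hw1C, hZ1, hr1⟩ := hp1 μ hμ0 (hμR.trans_le R1)
    obtain ⟨w2, Z2, hw2n, hw2C, hZ2, hr2⟩ := hp2 μ hμ0 (hμR.trans_le R2)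
    have hKn := hK μ hμ0 (hμR.trans_le R7)
    have hP12 : ∀ q ∈ O1 ×ˢ (JJ ×ˢ JJ), w1.P q ∈ O2 := by
      intro q hq
      refine hm q.1 hq.1 ?_
      rw [mem_closedBall_iff_norm]
      exact (hw1n.P.1 q hq).trans hxr
    have lipm : ∀ {f : Pl → Pl} {S : Set Pl} {a : ℝ}, Reg a f S → a ≤ 1 + La + Lb + Lk →
      Reg (1 + La + Lb + Lk) f S := fun h h' => reg_mono h h' subset_rfl
    obtain ⟨B, hBn, hB, hWn⟩ := hcomp O1 O2 (hs C μ).K (fun X => kap0 C (chart C X)) w1 w2 l1 l2 x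
      hx.le hxε0 (e4_lip_mono ra1.1 (by linarith)) (e4_lip_mono ra2.1 (by linarith))
      (e4_lip_mono ra3.1 (by linarith)) (reg_mono rb1 (by linarith) subset_rfl)
      (reg_mono rb2 (by linarith) subset_rfl) (reg_mono rb3 (by linarith) subset_rfl)
      (reg_mono rk (by linarith) hcd2) hKn hw1n hw2n hP12 hm' ha
    have hBn' : Near (Cc * x) B (fun q => cB0 C l1 l2 q.1) (O1 ×ˢ (JJ ×ˢ JJ)) := hBn
    have hB9 : ∀ q ∈ O1 ×ˢ (JJ ×ˢ JJ), |B q| ≤ 9 := fun q hq => (hB q.1 hq.1 q.2.1 hq.2.1 q.2.2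
      hq.2.2).2.1
    have hBJ : ∀ q ∈ O1 ×ˢ (JJ ×ˢ JJ), B q ∈ JJ := fun q hq => by
      have := abs_le.mp (hB9 q hq)
      exact ⟨by linarith, by linarith⟩
    have hBL : Lip Λ1 B (O1 ×ˢ (JJ ×ˢ JJ)) := by
      have h : Lip (Lc + Cc * x) B (O1 ×ˢ (JJ ×ˢ JJ)) := lip_of_near hBn' fun q hq q' hq' =>
        (rB.1 q.1 hq.1 q'.1 hq'.1).trans (mul_le_mul_of_nonneg_left (le_max_left _ _) hLc)
      exact e4_lip_mono h (by linarith)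
    have hscale : ∀ t ∈ Icc (ϖe - he) (ϖe + he), 0 < g ∧ 0 < t ∧ μ / 2 ≤ g * t ∧ g * t ≤ σ ∧
        max (g * t) (μ ^ 2 / (g * t)) ∈ Icc μ σ := fun t ht =>
      e4_scale hμ0 hμg ht hϖ (by linarith) hlamR
        (by
          have h : g ≤ σ / (ϖe + he) := hgR.le.trans R10
          rwa [le_div_iff₀ hϖ3] at h)
        (by linarith)
    -- the states on the legs
    set St4 : Pl × ℝ × ℝ → ℝ → St := fun q t =>
      if out then legSt μ g (outD C μ (w1.P (q.1, q.2.1, B q))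
          (w2.Θ (w1.P (q.1, q.2.1, B q), B q, q.2.2)) (B q)) (B q) t
      else rev (legSt μ g (inD C μ (w1.P (q.1, q.2.1, B q)) (w1.Θ' (q.1, q.2.1, B q)) (B q))
        (-(B q)) t) with hSt4
    set ζ : Fin nB ⊕ Fin n1 ⊕ Fin n2 → Pl × ℝ × ℝ × ℝ → ℂ :=
      Sum.elim (fun _ q => (B (q.1, q.2.1, q.2.2.1) : ℂ) + q.2.2.2 * Complex.I)
        (Sum.elim (fun _ q => (Z1 (q.1, q.2.1, B (q.1, q.2.1, q.2.2.1), q.2.2.2)).1)
          (fun _ q => (Z2 (w1.P (q.1, q.2.1, B (q.1, q.2.1, q.2.2.1)),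
            B (q.1, q.2.1, q.2.2.1), q.2.2.1, q.2.2.2)).1)) with hζ
    refine ⟨{ P := fun p => w2.P (w1.P (p.1, p.2.1, B p), B p, p.2.2)
              Θ := fun p => w1.Θ (p.1, p.2.1, B p)
              Θ' := fun p => w2.Θ' (w1.P (p.1, p.2.1, B p), B p, p.2.2) },
      fun q x y => (∀ j, ∀ t ∈ Icc ((Sum.elim (fun _ => 0) (Sum.elim τ1m τ2m) :
          Fin nB ⊕ Fin n1 ⊕ Fin n2 → ℝ) j - he) ((Sum.elim (fun _ => 0) (Sum.elim τ1m τ2m) :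
          Fin nB ⊕ Fin n1 ⊕ Fin n2 → ℝ) j + he), ζ j (q.1, q.2.1, q.2.2, t) ≠ 0) →
        ∀ t ∈ Icc (ϖe - he) (ϖe + he), ReachR (μ ^ 2) x (St4 q t) ∧ ReachR (μ ^ 2) (St4 q t) y,
      gfc C μ g υ0 out w1 w2 B, ζ, ?_, ?_, ?_, ?_, ?_⟩
    · -- closeness of the word
      exact ⟨near_mono hWn.P hC2 subset_rfl, near_mono hWn.Θ hC2 subset_rfl,
        near_mono hWn.Θ' hC2 subset_rfl⟩
    · -- the relation
      intro X hX b hb b' hb' hb0 hb0' N hM hmk t ht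
      have hBq := hB X hX b hb b' hb'
      have hBJq : B (X, b, b') ∈ JJ := hBJ (X, b, b') ⟨hX, hb, hb'⟩
      have hB0 : B (X, b, b') ≠ 0 := by
        rcases hn with ⟨hn0, _⟩ | hn1
        · have h := hBn'.1 (X, b, b') ⟨hX, hb, hb'⟩
          have h' := hcB hn0 X hX
          intro h0
          simp only [h0, zero_sub, norm_neg, Real.norm_eq_abs] at h
          linarith
        · have h := hmk (Sum.inl ⟨0, by omega⟩) 0 (by
            simp only [Sum.elim_inl]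
            exact ⟨by linarith, by linarith⟩)
          simp only [hζ, Sum.elim_inl, Complex.ofReal_zero, zero_mul, add_zero] at h
          intro h0
          rw [h0] at h
          exact h Complex.ofReal_zero
      have hX1 : w1.P (X, b, B (X, b, b')) ∈ O2 := hP12 _ ⟨hX, hb, hBJq⟩
      have e1 := hr1 X hX b hb (B (X, b, b')) hBJq hb0 hB0 (fun j => hmk (Sum.inr (Sum.inl j)))
        τa1 ⟨le_rfl, by linarith [h4a1 X hX]⟩
      have e2 := hr2 _ hX1 (B (X, b, b')) hBJq b' hb' hB0 hb0'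
        (fun j => hmk (Sum.inr (Sum.inr j))) τa2 ⟨le_rfl, by linarith [h4a2 _ hX1]⟩
      obtain ⟨_, ht0, ht1, ht2, ht3⟩ := hscale t ht
      have hX1w : w1.P (X, b, B (X, b, b')) ∈ CDw C := hw1C X hX b hb _ hBJq
      have hXw : X ∈ CDw C := CD_sub C (h1.cd X hX).1
      have hX2w : w2.P (w1.P (X, b, B (X, b, b')), B (X, b, b'), b') ∈ CDw C :=
        hw2C _ hX1 _ hBJq _ hb'
      have hlg := hleg μ hμ0 (hμR.trans_le R3)
      exact e4_chain (fun N hN => (hlg X hXw b hb hb0).2.1 _ N hN)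
        ((hlg _ hX2w b' hb' hb0').2.2.2 _) ht3 hσ1' hσ2' hσ4' e1.2 e2.2
        (hpass μ g t hμ0 (hμR.trans_le R4) hg0 ht0 ht1 (ht2.trans hσ4') _ hX1w _ _ _ hBJq hB0
          hBq.2.2) out N hM
    · -- closeness of the event function
      exact hcor μ g υ0 w1 w2 B hμ0 hμg (hgR.le.trans R8) (hlamR.le.trans R8) (hυR.le.trans R8)
        ⟨near_mono hw1n.P hxδ subset_rfl, near_mono hw1n.Θ hxδ subset_rfl,
          near_mono hw1n.Θ' hxδ subset_rfl⟩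
        ⟨near_mono hw2n.P hxδ subset_rfl, near_mono hw2n.Θ hxδ subset_rfl,
          near_mono hw2n.Θ' hxδ subset_rfl⟩ hP12 (near_mono hBn' hC3 subset_rfl) hB9
    · -- closeness of the marks
      rintro (j | j | j)
      · have h := near_comp_inner (T := O1 ×ˢ (JJ ×ˢ (JJ ×ˢ Icc (0 - he) (0 + he))))
          (h := fun q : Pl × ℝ × ℝ × ℝ => (q.1, q.2.1, q.2.2.1)) hBn'
          (fun q hq => ⟨hq.1, hq.2.1, hq.2.2.1⟩) (Λ := 1) (fun q hq q' hq' => by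
            obtain ⟨d1, d2, d3, _, _⟩ := e4_dist hΛ1' hBL hq hq'
            have k1 : dist q.1 q'.1 ≤ dist q q' := le_max_left _ _
            have k2 : dist q.2 q'.2 ≤ dist q q' := le_max_right _ _
            have k3 : dist q.2.1 q'.2.1 ≤ dist q.2 q'.2 := le_max_left _ _
            have k4 : dist q.2.2 q'.2.2 ≤ dist q.2 q'.2 := le_max_right _ _
            have k5 : dist q.2.2.1 q'.2.2.1 ≤ dist q.2.2 q'.2.2 := le_max_left _ _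
            rw [one_mul]
            exact max_le k1 (max_le (by linarith) (by linarith))) le_rfl (by positivity)
        rw [mul_one] at h
        have h' := near_mono h hC2 subset_rfl
        have hc : ∀ a b c : ℝ, (a : ℂ) + c * Complex.I - ((b : ℂ) + c * Complex.I) =
          ((a - b : ℝ) : ℂ) := fun a b c => by push_cast; ring
        refine ⟨fun q hq => ?_, fun q hq q' hq' => ?_⟩
        · have k := h'.1 q hq
          simp only [hζ, Sum.elim_inl, hc, Complex.norm_real]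
          exact k
        · have k := h'.2 q hq q' hq'
          simp only [hζ, Sum.elim_inl, hc]
          rw [← Complex.ofReal_sub, Complex.norm_real]
          exact k
      · have h := e4_mark1 (t1 := τ1m j - he) (t2 := τ1m j + he) hx.le hΛ1' hZ1
          (fun X hX => hw1 j X hX) hBL hBJ
        exact near_mono h (by linarith) subset_rfl
      · have h := e4_mark2 (t1 := τ2m j - he) (t2 := τ2m j + he) (LF := La) (Λ' := Λ2) hx.le hx.le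
          hΛ1' hLz2 hLa (by nlinarith) (by linarith)
          (near_mono hZ2 le_rfl (fun q hq => ⟨hq.1, hq.2.1, hq.2.2.1,
            (hw2 j q.1 hq.1).1.trans hq.2.2.2.1, hq.2.2.2.2.trans (hw2 j q.1 hq.1).2⟩))
          (reg_mono rz2 le_rfl (sub2 j)) hw1n.P ra1.1 hP12 hm' hBL hBJ
        refine near_mono h ?_ subset_rfl
        linarith
    · -- the event
      refine ⟨1 + L6 * (1 + L6) * (‖(mb + ma * p.2 : ℂ)‖ * g ^ 2), by positivity, ?_⟩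
      intro X hX b hb b' hb' hmk t ht h' hh' hlt x y hxy
      obtain ⟨hx1', hy1'⟩ := hxy hmk t ht
      refine e4_hit hx1' hy1' ?_
      obtain ⟨_, ht0, ht1, ht2, ht3⟩ := hscale t ht
      have hBJq : B (X, b, b') ∈ JJ := hBJ (X, b, b') ⟨hX, hb, hb'⟩
      have hBJq' : -(B (X, b, b')) ∈ JJ := by
        have := abs_le.mp (hB9 (X, b, b') ⟨hX, hb, hb'⟩)
        exact ⟨by linarith, by linarith⟩
      have hX1w : w1.P (X, b, B (X, b, b')) ∈ CDw C := hw1C X hX b hb _ hBJq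
      have hdd := (hout μ hμ0 (hμR.trans_le R5)).2 _ hX1w
      have hu : ‖υ0 / (g : ℂ)‖ ≤ 1 := by
        rw [norm_div, Complex.norm_real, Real.norm_of_nonneg hg0.le, div_le_one hg0]; exact hυg
      have hμσ6 : μ ≤ σ6 := by
        have : μ ≤ σ / 2 := hμR.le.trans R9
        linarith
      cases out with
      | true =>
        have k := hhit μ g t hμ0 hμσ6 hg0 ht0 ht1 (ht2.trans hσ6') _
          (hdd (w2.Θ (w1.P (X, b, B (X, b, b')), B (X, b, b'), b')) _ hBJq).1 _ hBJq p.2 υ0 hυeq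
        exact e4_tol (norm_nonneg _) hL6 hu k.1 k.2 (norm_nonneg _) rfl hh' hlt
      | false =>
        have k := hhit μ g t hμ0 hμσ6 hg0 ht0 ht1 (ht2.trans hσ6') _
          (hdd (w1.Θ' (X, b, B (X, b, b'))) _ hBJq).2 _ hBJq' p.2 υ0 hυeq
        exact e4_tol (norm_nonneg _) hL6 hu k.1 k.2 (norm_nonneg _) rfl hh' hlt


end

end Pool.Agent.HS

namespace Pool.Agent.HS
open Set Filter Topology Classical

theorem corner_event (C : ℝ) (hC : 0 < C ∧ C ≤ 1) (out : Bool) (i1 i2 : Fin 2) (O1 O2 : Set Pl)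
    (l1 l2 : LD) (τ1 τ2 : Pl → ℝ) (h1 : RArc C i1 O1 l1 τ1) (h2 : RArc C i2 O2 l2 τ2)
    (he : ℝ) (hhe : 0 < he) (n1 n2 nB : ℕ) (τ1m : Fin n1 → ℝ) (τ2m : Fin n2 → ℝ)
    (hm1 : ∀ j, ∀ X ∈ O1, 0 < τ1m j - he ∧ τ1m j + he < τ1 X)
    (hm2 : ∀ j, ∀ X ∈ O2, 0 < τ2m j - he ∧ τ2m j + he < τ2 X)
    (hs1 : ∀ X ∈ O1, ∀ τ ∈ Ioo 0 (τ1 X), (∀ j, he / 2 < |τ - τ1m j|) →
      (Zd i1 (limD C X (l1.χ X)) τ).1 ≠ 0)
    (hs2 : ∀ X ∈ O2, ∀ τ ∈ Ioo 0 (τ2 X), (∀ j, he / 2 < |τ - τ2m j|) →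
      (Zd i2 (limD C X (l2.χ X)) τ).1 ≠ 0)
    (r : ℝ) (hr : 0 < r) (hm : ∀ X ∈ O1, Metric.closedBall (l1.F X) r ⊆ O2)
    (ha : ∀ X ∈ O1, Acc 0 8 (l2.χ (l1.F X)) (l1.θ X))
    (lam : ℝ) (υ : ℂ) (hlam : 0 ≤ lam) (ϖe : ℝ) (hϖ : 0 < ϖe - he)
    (hϖ2 : lam / 2 < ϖe - he)
    (hn : (nB = 0 ∧ ∀ X ∈ O1, cB0 C l1 l2 X ≠ 0) ∨ nB = 1) :
    EvW C (S4 lam υ) O1 (l1.comp l2) (Fin nB ⊕ Fin n1 ⊕ Fin n2)
      (if out then cornerU C l1 l2 lam υ else cornerL C l1 l2 lam υ) ϖe he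
      (Sum.elim (fun _ q => (cB0 C l1 l2 q.1 : ℂ) + q.2 * Complex.I)
        (Sum.elim (fun _ q => (Zd i1 (limD C q.1 (l1.χ q.1)) q.2).1)
          (fun _ q => (Zd i2 (limD C (l1.F q.1) (l2.χ (l1.F q.1))) q.2).1)))
      (Sum.elim (fun _ => 0) (Sum.elim τ1m τ2m)) :=
  @Pool.Agent.HS.corner_event_pr C hC out i1 i2 O1 O2 l1 l2 τ1 τ2 h1 h2 he hhe n1 n2 nB τ1m τ2m hm1 hm2 hs1 hs2 r hr hm ha lam υ hlam ϖe hϖ hϖ2 hn

end Pool.Agent.HS
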