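import Pool.Agent.Lib_helper60.HSF.D_WF

/-!
# Block FA1 of part F (helper37): uniqueness and extension of solutions
-/

namespace Pool.Agent.HS

noncomputable section

open Set Filter Topology Classical
open Pool.Agent.ThreeBody (Conf IsSolution IsMaximalSolution NTC ShapeSphere shape DenseImage)

theorem fa1_open : IsOpen {y : St | NC y} := by
  have h3 : Continuous x3 := by unfold x3; fun_prop
  have h2 : Continuous x2 := by unfold x2; fun_prop
  have e : {y : St | NC y} = {y | x3 y ≠ 0} ∩ ({y | x2 y ≠ 0} ∩ {y | x3 y ≠ x2 y}) := by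
    ext y; simp [NC]
  rw [e]
  exact (isOpen_ne_fun h3 continuous_const).inter
    ((isOpen_ne_fun h2 continuous_const).inter (isOpen_ne_fun h3 h2))

theorem fa1_G {x : ℂ} (hx : x ≠ 0) : ContDiffAt ℝ 1 G x := by
  unfold G
  have h1 : ContDiffAt ℝ 1 (fun x : ℂ => ‖x‖) x := contDiffAt_norm ℝ hx
  have h2 : ContDiffAt ℝ 1 (fun x : ℂ => (‖x‖ ^ 3)⁻¹) x :=
    (h1.pow 3).inv (pow_ne_zero _ (norm_ne_zero_iff.mpr hx))
  have h3 : ContDiffAt ℝ 1 (fun x : ℂ => (((‖x‖ ^ 3)⁻¹ : ℝ) : ℂ)) x :=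
    (Complex.ofRealCLM.contDiff.contDiffAt (x := (‖x‖ ^ 3)⁻¹)).comp x h2
  exact h3.mul contDiffAt_id

theorem fa1_vf (M : ℝ) {y : St} (hy : NC y) : ContDiffAt ℝ 1 (vf M) y := by
  obtain ⟨h3, h2, h32⟩ := hy
  have c3 : ContDiffAt ℝ 1 x3 y := by unfold x3; fun_prop
  have c2 : ContDiffAt ℝ 1 x2 y := by unfold x2; fun_prop
  have d3 : ContDiffAt ℝ 1 u3 y := by unfold u3; fun_prop
  have d2 : ContDiffAt ℝ 1 u2 y := by unfold u2; fun_prop
  have g3 : ContDiffAt ℝ 1 (fun y => G (x3 y)) y := (fa1_G h3).comp y c3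
  have g2 : ContDiffAt ℝ 1 (fun y => G (x2 y)) y := (fa1_G h2).comp y c2
  have g32 : ContDiffAt ℝ 1 (fun y => G (x3 y - x2 y)) y :=
    ContDiffAt.comp (f := fun y => x3 y - x2 y) y
      (fa1_G (x := x3 y - x2 y) (sub_ne_zero.mpr h32)) (c3.sub c2)
  unfold vf
  refine ContDiffAt.prodMk ?_ (ContDiffAt.prodMk ?_ (ContDiffAt.prodMk ?_ ?_))
  · exact d3.add (contDiffAt_const.mul ((contDiffAt_const.mul d3).add (contDiffAt_const.mul d2)))
  · exact d2.add (contDiffAt_const.mul ((contDiffAt_const.mul d3).add (contDiffAt_const.mul d2)))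
  · exact g3.neg.sub (contDiffAt_const.mul g32)
  · exact g2.neg.add (contDiffAt_const.mul g32)

theorem vf_smooth_pr (M : ℝ) :
    IsOpen {y : St | NC y} ∧ ContDiffOn ℝ 1 (vf M) {y | NC y} :=
  ⟨fa1_open, fun _ hy => (fa1_vf M hy).contDiffWithinAt⟩

theorem fa1_loc {M : ℝ} {γ γ' : ℝ → St} {t0 : ℝ}
    (h : ∀ᶠ t in 𝓝 t0, NC (γ t) ∧ HasDerivAt γ (vf M (γ t)) t)
    (h' : ∀ᶠ t in 𝓝 t0, NC (γ' t) ∧ HasDerivAt γ' (vf M (γ' t)) t)
    (he : γ t0 = γ' t0) : ∀ᶠ t in 𝓝 t0, γ t = γ' t := by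
  obtain ⟨K, s, hs, hK⟩ := (fa1_vf M h.self_of_nhds.1).exists_lipschitzOnWith
  have c1 : ContinuousAt γ t0 := h.self_of_nhds.2.continuousAt
  have c2 : ContinuousAt γ' t0 := h'.self_of_nhds.2.continuousAt
  have m1 : ∀ᶠ t in 𝓝 t0, γ t ∈ s := c1 hs
  have m2 : ∀ᶠ t in 𝓝 t0, γ' t ∈ s := c2 (by rw [← he]; exact hs)
  exact ODE_solution_unique_of_eventually (v := fun _ => vf M) (s := fun _ => s) (K := K)
    (Eventually.of_forall fun _ => hK)
    (by filter_upwards [h, m1] with t ht hm using ⟨ht.2, hm⟩)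
    (by filter_upwards [h', m2] with t ht hm using ⟨ht.2, hm⟩) he

theorem solI_unique_pr {M : ℝ} {I J : Set ℝ} {γ γ' : ℝ → St} (h : SolI M I γ)
    (h' : SolI M J γ') {t0 : ℝ} (ht : t0 ∈ I) (ht' : t0 ∈ J) (he : γ t0 = γ' t0) :
    EqOn γ γ' (I ∩ J) := by
  have hc : IsPreconnected (I ∩ J) := (h.2.1.inter h'.2.1).isPreconnected
  have ho : IsOpen (I ∩ J) := h.1.inter h'.1
  -- the set of equality
  have hA : IsOpen {t | t ∈ I ∩ J ∧ γ t = γ' t} := by
    rw [isOpen_iff_mem_nhds]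
    rintro t ⟨htI, hte⟩
    have e1 : ∀ᶠ s in 𝓝 t, NC (γ s) ∧ HasDerivAt γ (vf M (γ s)) s := by
      filter_upwards [h.1.mem_nhds htI.1] with s hs using h.2.2 s hs
    have e2 : ∀ᶠ s in 𝓝 t, NC (γ' s) ∧ HasDerivAt γ' (vf M (γ' s)) s := by
      filter_upwards [h'.1.mem_nhds htI.2] with s hs using h'.2.2 s hs
    filter_upwards [ho.mem_nhds htI, fa1_loc e1 e2 hte] with s hs1 hs2 using ⟨hs1, hs2⟩
  have hB : IsOpen {t | t ∈ I ∩ J ∧ γ t ≠ γ' t} := by
    rw [isOpen_iff_mem_nhds]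
    rintro t ⟨htI, hte⟩
    have c1 : ContinuousAt γ t := (h.2.2 t htI.1).2.continuousAt
    have c2 : ContinuousAt γ' t := (h'.2.2 t htI.2).2.continuousAt
    have : ∀ᶠ s in 𝓝 t, γ s ≠ γ' s := c1.ne_iff_eventually_ne c2 |>.mp hte
    filter_upwards [ho.mem_nhds htI, this] with s hs1 hs2 using ⟨hs1, hs2⟩
  intro t htI
  by_contra hne
  obtain ⟨s, _, hs1, hs2⟩ := hc _ _ hA hB
    (fun s hs => by
      by_cases hse : γ s = γ' s
      · exact Or.inl ⟨hs, hse⟩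
      · exact Or.inr ⟨hs, hse⟩)
    ⟨t0, ⟨ht, ht'⟩, ⟨ht, ht'⟩, he⟩ ⟨t, htI, htI, hne⟩
  exact hs2.2 hs1.2

/-- local existence, with no collision -/
theorem fa1_ex (M : ℝ) {x : St} (hx : NC x) (t0 : ℝ) : ∃ (α : ℝ → St) (ε : ℝ), 0 < ε ∧
    α t0 = x ∧ ∀ t ∈ Ioo (t0 - ε) (t0 + ε), NC (α t) ∧ HasDerivAt α (vf M (α t)) t := by
  obtain ⟨α, hα, ε, hε, hd⟩ :=
    ContDiffAt.exists_forall_mem_closedBall_exists_eq_forall_mem_Ioo_hasDerivAt₀ (fa1_vf M hx) t0
  have hc : ContinuousAt α t0 := (hd t0 ⟨by linarith, by linarith⟩).continuousAt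
  have hn : ∀ᶠ t in 𝓝 t0, NC (α t) := hc (by rw [hα]; exact fa1_open.mem_nhds hx)
  obtain ⟨δ, hδ, hn⟩ := Metric.eventually_nhds_iff.mp hn
  refine ⟨α, min ε δ, lt_min hε hδ, hα, fun t ht => ⟨hn ?_, hd t ?_⟩⟩
  · rw [Real.dist_eq, abs_lt]
    have := min_le_right ε δ
    constructor <;> linarith [ht.1, ht.2]
  · have := min_le_left ε δ
    constructor <;> linarith [ht.1, ht.2]

theorem fa1_triv {γ : ℝ → St} {v : St} {S : Set ℝ} (hS : IsClosed S) {t : ℝ} (ht : t ∉ S) :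
    HasDerivWithinAt γ v S t := by
  apply HasFDerivWithinAt.of_notMem_closure
  rwa [hS.closure_eq]

theorem sol_extend_pr {M T : ℝ} {γ : ℝ → St} (hT : 0 ≤ T) (h : SolOn M T γ) :
    ∃ (J : Set ℝ) (γ' : ℝ → St), SolI M J γ' ∧ Icc 0 T ⊆ J ∧ EqOn γ' γ (Icc 0 T) := by
  obtain ⟨α, ε, hε, hα0, hα⟩ := fa1_ex M (h 0 ⟨le_refl _, hT⟩).1 0
  obtain ⟨β, δ, hδ, hβT, hβ⟩ := fa1_ex M (h T ⟨hT, le_refl _⟩).1 T
  set g : ℝ → St := fun t => if t < 0 then α t else if t ≤ T then γ t else β t with hg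
  have gI : ∀ t ∈ Icc 0 T, g t = γ t := by
    intro t ht
    simp only [hg, if_neg (not_lt.mpr ht.1), if_pos ht.2]
  have gL : ∀ t ∈ Iic (0 : ℝ), g t = α t := by
    intro t ht
    rcases lt_or_eq_of_le (show t ≤ 0 from ht) with h0 | h0
    · simp only [hg, if_pos h0]
    · rw [h0, gI 0 ⟨le_refl _, hT⟩, hα0]
  have gR : ∀ t ∈ Ici T, g t = β t := by
    intro t ht
    rcases lt_or_eq_of_le (show T ≤ t from ht) with h0 | h0
    · have h1 : ¬ t < 0 := not_lt.mpr (hT.trans h0.le)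
      simp only [hg, if_neg h1, if_neg (not_le.mpr h0)]
    · rw [← h0, gI T ⟨hT, le_refl _⟩, hβT]
  refine ⟨Ioo (-ε) (T + δ), g, ⟨isOpen_Ioo, ordConnected_Ioo, ?_⟩, ?_, gI⟩
  · intro t ht
    have hn : NC (g t) := by
      rcases le_total t 0 with h0 | h0
      · rw [gL t h0]
        exact (hα t ⟨by linarith [ht.1], by linarith⟩).1
      · rcases le_total t T with h1 | h1
        · rw [gI t ⟨h0, h1⟩]
          exact (h t ⟨h0, h1⟩).1
        · rw [gR t h1]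
          exact (hβ t ⟨by linarith, by linarith [ht.2]⟩).1
    refine ⟨hn, ?_⟩
    have d1 : HasDerivWithinAt g (vf M (g t)) (Iic 0) t := by
      by_cases h0 : t ∈ Iic (0 : ℝ)
      · have := (hα t ⟨by linarith [ht.1], by linarith [show t ≤ 0 from h0]⟩).2
        rw [gL t h0]
        exact this.hasDerivWithinAt.congr gL (gL t h0)
      · exact fa1_triv isClosed_Iic h0
    have d2 : HasDerivWithinAt g (vf M (g t)) (Icc 0 T) t := by
      by_cases h0 : t ∈ Icc (0 : ℝ) T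
      · rw [gI t h0]
        exact (h t h0).2.congr gI (gI t h0)
      · exact fa1_triv isClosed_Icc h0
    have d3 : HasDerivWithinAt g (vf M (g t)) (Ici T) t := by
      by_cases h0 : t ∈ Ici T
      · have := (hβ t ⟨by linarith [show T ≤ t from h0], by linarith [ht.2]⟩).2
        rw [gR t h0]
        exact this.hasDerivWithinAt.congr gR (gR t h0)
      · exact fa1_triv isClosed_Ici h0
    have d := (d1.union d2).union d3
    have hu : (Iic 0 ∪ Icc 0 T) ∪ Ici T = univ := by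
      ext s
      simp only [mem_union, mem_Iic, mem_Icc, mem_Ici, mem_univ, iff_true]
      rcases le_total s 0 with h0 | h0
      · exact Or.inl (Or.inl h0)
      · rcases le_total s T with h1 | h1
        · exact Or.inl (Or.inr ⟨h0, h1⟩)
        · exact Or.inr h1
    rw [hu, hasDerivWithinAt_univ] at d
    exact d
  · intro t ht
    exact ⟨by linarith [ht.1], by linarith [ht.2]⟩

end

end Pool.Agent.HS

namespace Pool.Agent.HS
open Set Filter Topology Classical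
open Pool.Agent.ThreeBody (Conf IsSolution IsMaximalSolution NTC ShapeSphere shape DenseImage)

theorem vf_smooth (M : ℝ) : IsOpen {y : St | NC y} ∧ ContDiffOn ℝ 1 (vf M) {y | NC y} :=
  @Pool.Agent.HS.vf_smooth_pr M

end Pool.Agent.HS

namespace Pool.Agent.HS
open Set Filter Topology Classical
open Pool.Agent.ThreeBody (Conf IsSolution IsMaximalSolution NTC ShapeSphere shape DenseImage)

theorem solI_unique {M : ℝ} {I J : Set ℝ} {γ γ' : ℝ → St} (h : SolI M I γ) (h' : SolI M J γ')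
    {t0 : ℝ} (ht : t0 ∈ I) (ht' : t0 ∈ J) (he : γ t0 = γ' t0) : EqOn γ γ' (I ∩ J) :=
  @Pool.Agent.HS.solI_unique_pr M I J γ γ' h h' t0 ht ht' he

end Pool.Agent.HS

namespace Pool.Agent.HS
open Set Filter Topology Classical
open Pool.Agent.ThreeBody (Conf IsSolution IsMaximalSolution NTC ShapeSphere shape DenseImage)

theorem sol_extend {M T : ℝ} {γ : ℝ → St} (hT : 0 ≤ T) (h : SolOn M T γ) :
    ∃ (J : Set ℝ) (γ' : ℝ → St), SolI M J γ' ∧ Icc 0 T ⊆ J ∧ EqOn γ' γ (Icc 0 T) :=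
  @Pool.Agent.HS.sol_extend_pr M T γ hT h

end Pool.Agent.HS
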