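import Pool.Agent.Lib_helper60.HSF.D_WF
import Pool.Agent.Lib_helper60.HSF.F_FA1

/-!
# Part F, block FA2: the maximal solution
-/

namespace Pool.Agent.HS

noncomputable section

open Set Filter Topology Classical
open Pool.Agent.ThreeBody (Conf IsSolution IsMaximalSolution NTC ShapeSphere shape DenseImage)

/-- the pairs of the union -/
def fa2_Q (M : ℝ) (x : St) (J : Set ℝ) (γ : ℝ → St) : Prop :=
  SolI M J γ ∧ (0 : ℝ) ∈ J ∧ γ 0 = x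

/-- the interval of the maximal solution -/
def fa2_I (M : ℝ) (x : St) : Set ℝ :=
  {t | ∃ (J : Set ℝ) (γ : ℝ → St), fa2_Q M x J γ ∧ t ∈ J}

/-- the value of the maximal solution -/
def fa2_g (M : ℝ) (x : St) (t : ℝ) : St :=
  if h : t ∈ fa2_I M x then h.choose_spec.choose t else x

theorem fa2_val {M : ℝ} {x : St} {J : Set ℝ} {γ : ℝ → St} (h : fa2_Q M x J γ) {t : ℝ}
    (ht : t ∈ J) : fa2_g M x t = γ t := by
  have hI : t ∈ fa2_I M x := ⟨J, γ, h, ht⟩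
  have h1 : fa2_Q M x hI.choose hI.choose_spec.choose ∧ t ∈ hI.choose :=
    hI.choose_spec.choose_spec
  have h2 : fa2_g M x t = hI.choose_spec.choose t := dif_pos hI
  rw [h2]
  exact solI_unique h1.1.1 h.1 h1.1.2.1 h.2.1 (h1.1.2.2.trans h.2.2.symm) ⟨h1.2, ht⟩

theorem fa2_local (M : ℝ) (x : St) (hx : NC x) : ∃ (J : Set ℝ) (γ : ℝ → St), fa2_Q M x J γ := by
  obtain ⟨hopen, hsm⟩ := vf_smooth M
  have hat : ContDiffAt ℝ 1 (vf M) x := hsm.contDiffAt (hopen.mem_nhds hx)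
  obtain ⟨α, h0, ε, hε, hα⟩ :=
    hat.exists_forall_mem_closedBall_exists_eq_forall_mem_Ioo_hasDerivAt₀ 0
  have hc : ContinuousAt α 0 := (hα 0 ⟨by linarith, by linarith⟩).continuousAt
  have hnc : ∀ᶠ t in 𝓝 (0 : ℝ), NC (α t) := by
    have h1 : {y : St | NC y} ∈ 𝓝 (α 0) := by
      rw [h0]
      exact hopen.mem_nhds hx
    exact hc h1
  obtain ⟨δ, hδ, hball⟩ := Metric.eventually_nhds_iff.mp hnc
  refine ⟨Ioo (-min ε δ) (min ε δ), α, ⟨isOpen_Ioo, ordConnected_Ioo, ?_⟩, ?_, h0⟩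
  · intro t ht
    have h1 : min ε δ ≤ ε := min_le_left _ _
    have h2 : min ε δ ≤ δ := min_le_right _ _
    refine ⟨hball ?_, hα t ⟨by linarith [ht.1], by linarith [ht.2]⟩⟩
    rw [Real.dist_eq, sub_zero, abs_lt]
    exact ⟨by linarith [ht.1], by linarith [ht.2]⟩
  · have h3 : 0 < min ε δ := lt_min hε hδ
    exact ⟨by linarith, h3⟩

theorem fa2_sol (M : ℝ) (x : St) : SolI M (fa2_I M x) (fa2_g M x) := by
  refine ⟨?_, ?_, ?_⟩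
  · rw [isOpen_iff_mem_nhds]
    rintro t ⟨J, γ, h, ht⟩
    filter_upwards [h.1.1.mem_nhds ht] with s hs
    exact ⟨J, γ, h, hs⟩
  · refine ⟨?_⟩
    rintro a ⟨Ja, γa, ha, hat⟩ b ⟨Jb, γb, hb, hbt⟩ c hc
    by_cases h0 : c ≤ 0
    · exact ⟨Ja, γa, ha, ha.1.2.1.out hat ha.2.1 ⟨hc.1, h0⟩⟩
    · exact ⟨Jb, γb, hb, hb.1.2.1.out hb.2.1 hbt ⟨(not_le.mp h0).le, hc.2⟩⟩
  · rintro t ⟨J, γ, h, ht⟩
    have he : fa2_g M x =ᶠ[𝓝 t] γ := by
      filter_upwards [h.1.1.mem_nhds ht] with s hs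
      exact fa2_val h hs
    obtain ⟨h1, h2⟩ := h.1.2.2 t ht
    rw [fa2_val h ht]
    exact ⟨h1, h2.congr_of_eventuallyEq he⟩

/-- the maximal solution with initial state `x` -/
theorem max_exists_pr (M : ℝ) (x : St) (hx : NC x) : ∃ (I : Set ℝ) (γ : ℝ → St), SolI M I γ ∧
    (0 : ℝ) ∈ I ∧ γ 0 = x ∧
    ∀ (J : Set ℝ) (γ' : ℝ → St), SolI M J γ' → (0 : ℝ) ∈ J → γ' 0 = x → J ⊆ I ∧ EqOn γ' γ J := by
  obtain ⟨J0, γ0, h0⟩ := fa2_local M x hx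
  refine ⟨fa2_I M x, fa2_g M x, fa2_sol M x, ⟨J0, γ0, h0, h0.2.1⟩, ?_, ?_⟩
  · rw [fa2_val h0 h0.2.1]
    exact h0.2.2
  · intro J γ' hJ h1 h2
    exact ⟨fun t ht => ⟨J, γ', ⟨hJ, h1, h2⟩, ht⟩, fun t ht => (fa2_val ⟨hJ, h1, h2⟩ ht).symm⟩

end

end Pool.Agent.HS

namespace Pool.Agent.HS
open Set Filter Topology Classical
open Pool.Agent.ThreeBody (Conf IsSolution IsMaximalSolution NTC ShapeSphere shape DenseImage)

theorem max_exists (M : ℝ) (x : St) (hx : NC x) : ∃ (I : Set ℝ) (γ : ℝ → St), SolI M I γ ∧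
    (0 : ℝ) ∈ I ∧ γ 0 = x ∧
    ∀ (J : Set ℝ) (γ' : ℝ → St), SolI M J γ' → (0 : ℝ) ∈ J → γ' 0 = x → J ⊆ I ∧ EqOn γ' γ J :=
  @Pool.Agent.HS.max_exists_pr M x hx

end Pool.Agent.HS
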