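import Pool.Agent.Lib_helper60.HSF.D_WF

namespace Pool.Agent.HS

noncomputable section

open Set Filter Topology Classical
open Pool.Agent.ThreeBody (Conf IsSolution IsMaximalSolution NTC ShapeSphere shape DenseImage)

theorem fb_G (x : ℂ) : G x = x / (‖x‖ : ℂ) ^ 3 := by
  unfold G
  push_cast
  rw [div_eq_mul_inv, mul_comm]

theorem fb_Gneg (x : ℂ) : G (-x) = -G x := by
  rw [fb_G, fb_G, norm_neg, neg_div]

theorem fb_Gc {α : Type*} [TopologicalSpace α] {S : Set α} {f : α → ℂ} (hf : ContinuousOn f S)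
    (h0 : ∀ x ∈ S, f x ≠ 0) : ContinuousOn (fun x => G (f x)) S := by
  have h : ContinuousOn (fun x => f x / (‖f x‖ : ℂ) ^ 3) S := by
    refine hf.div ((Complex.continuous_ofReal.comp_continuousOn hf.norm).pow 3) ?_
    intro x hx
    have := norm_ne_zero_iff.2 (h0 x hx)
    exact pow_ne_zero 3 (by exact_mod_cast this)
  exact h.congr (fun x _ => fb_G (f x))

theorem fb_c2 {E : Type*} [NormedAddCommGroup E] [NormedSpace ℝ E] {q v a : ℝ → E} {I : Set ℝ}
    (hI : IsOpen I) (h1 : ∀ t ∈ I, HasDerivAt q (v t) t) (h2 : ∀ t ∈ I, HasDerivAt v (a t) t)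
    (hc : ContinuousOn a I) : ContDiffOn ℝ 2 q I := by
  have hv : ContDiffOn ℝ 1 v I := by
    have h := (contDiffOn_succ_iff_deriv_of_isOpen (n := 0) hI (f := v) (𝕜 := ℝ)).2
      ⟨fun t ht => (h2 t ht).differentiableAt.differentiableWithinAt, by simp, by
        rw [contDiffOn_zero]
        exact hc.congr (fun t ht => (h2 t ht).deriv)⟩
    simpa using h
  have h := (contDiffOn_succ_iff_deriv_of_isOpen (n := 1) hI (f := q) (𝕜 := ℝ)).2
    ⟨fun t ht => (h1 t ht).differentiableAt.differentiableWithinAt, by simp,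
      hv.congr (fun t ht => (h1 t ht).deriv)⟩
  have h3 : (1 : WithTop ℕ∞) + 1 = 2 := by norm_num
  rwa [h3] at h

theorem fb_d2 {E : Type*} [NormedAddCommGroup E] [NormedSpace ℝ E] {f g : ℝ → E} {a : E}
    {I : Set ℝ} (hI : IsOpen I) (h1 : ∀ t ∈ I, HasDerivAt f (g t) t) {t : ℝ} (ht : t ∈ I)
    (h2 : HasDerivAt g a t) : deriv (deriv f) t = a := by
  have he : deriv f =ᶠ[𝓝 t] g := by
    filter_upwards [hI.mem_nhds ht] with s hs
    exact (h1 s hs).deriv
  exact (h2.congr_of_eventuallyEq he).deriv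

theorem fb_e0 : (Finset.univ : Finset (Fin 3)).erase 0 = {1, 2} := by decide
theorem fb_e1 : (Finset.univ : Finset (Fin 3)).erase 1 = {0, 2} := by decide
theorem fb_e2 : (Finset.univ : Finset (Fin 3)).erase 2 = {0, 1} := by decide

theorem fb_mM0 (M : ℝ) : mM M 0 = 1 := rfl
theorem fb_mM1 (M : ℝ) : mM M 1 = 3 / 4 * M := rfl
theorem fb_mM2 (M : ℝ) : mM M 2 = 1 / 4 * M := rfl

/-- velocities -/
def fbV (M : ℝ) (y : St) : Conf := ![-(M : ℂ) * cU y, u2 y, u3 y]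

/-- accelerations -/
def fbA (M : ℝ) (y : St) : Conf :=
  ![(M : ℂ) * (ma * G (x3 y) + mb * G (x2 y)),
    - G (x2 y) + (ma * M : ℝ) * G (x3 y - x2 y),
    - G (x3 y) - (mb * M : ℝ) * G (x3 y - x2 y)]

theorem fb_comp {M : ℝ} {γ : ℝ → St} {t : ℝ} (h : HasDerivAt γ (vf M (γ t)) t) :
    HasDerivAt (fun s => x3 (γ s)) (u3 (γ t) + M * (ma * u3 (γ t) + mb * u2 (γ t))) t ∧
    HasDerivAt (fun s => x2 (γ s)) (u2 (γ t) + M * (ma * u3 (γ t) + mb * u2 (γ t))) t ∧
    HasDerivAt (fun s => u3 (γ s))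
      (- G (x3 (γ t)) - (mb * M : ℝ) * G (x3 (γ t) - x2 (γ t))) t ∧
    HasDerivAt (fun s => u2 (γ s))
      (- G (x2 (γ t)) + (ma * M : ℝ) * G (x3 (γ t) - x2 (γ t))) t := by
  have h1 := h.fst
  have h2 := h.snd.fst
  have h3 := h.snd.snd.fst
  have h4 := h.snd.snd.snd
  exact ⟨h1, h2, h3, h4⟩

theorem fb_qd {M : ℝ} (hM : 0 < M) {γ : ℝ → St} {t : ℝ} (h : HasDerivAt γ (vf M (γ t)) t) :
    HasDerivAt (fun s => toQ M (γ s)) (fbV M (γ t)) t := by
  obtain ⟨h1, h2, -, -⟩ := fb_comp h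
  have hM1 : (1 + (M : ℂ)) ≠ 0 := by
    have : (1 + M) ≠ 0 := by positivity
    exact_mod_cast this
  have h0 : HasDerivAt (fun s => q1M M (γ s)) (-(M : ℂ) * cU (γ t)) t := by
    have h3 := (((h1.const_mul ((ma : ℝ) : ℂ)).add (h2.const_mul ((mb : ℝ) : ℂ))).const_mul
      (-((M / (1 + M) : ℝ) : ℂ)))
    refine h3.congr_deriv ?_
    unfold cU ma mb
    push_cast
    field_simp
    ring
  rw [hasDerivAt_pi]
  intro i
  fin_cases i
  · exact h0
  · refine (h0.add h2).congr_deriv ?_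
    unfold cU ma mb
    change _ = u2 (γ t)
    push_cast
    ring
  · refine (h0.add h1).congr_deriv ?_
    unfold cU ma mb
    change _ = u3 (γ t)
    push_cast
    ring

theorem fb_vd {M : ℝ} {γ : ℝ → St} {t : ℝ} (h : HasDerivAt γ (vf M (γ t)) t) :
    HasDerivAt (fun s => fbV M (γ s)) (fbA M (γ t)) t := by
  obtain ⟨-, -, h3, h4⟩ := fb_comp h
  rw [hasDerivAt_pi]
  intro i
  fin_cases i
  · have h5 := (((h3.const_mul ((ma : ℝ) : ℂ)).add (h4.const_mul ((mb : ℝ) : ℂ))).const_mul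
      (-(M : ℂ)))
    refine h5.congr_deriv ?_
    change _ = (M : ℂ) * (ma * G (x3 (γ t)) + mb * G (x2 (γ t)))
    unfold ma mb
    push_cast
    ring
  · exact h4
  · exact h3

theorem fb_cont {M : ℝ} {I : Set ℝ} {γ : ℝ → St} (h : SolI M I γ) :
    ContinuousOn (fun t => fbA M (γ t)) I := by
  have hγ : ContinuousOn γ I := fun t ht => (h.2.2 t ht).2.continuousAt.continuousWithinAt
  have c3 : ContinuousOn (fun t => x3 (γ t)) I := continuous_fst.comp_continuousOn hγ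
  have c2 : ContinuousOn (fun t => x2 (γ t)) I :=
    (continuous_fst.comp continuous_snd).comp_continuousOn hγ
  have g3 := fb_Gc c3 (fun t ht => (h.2.2 t ht).1.1)
  have g2 := fb_Gc c2 (fun t ht => (h.2.2 t ht).1.2.1)
  have gd := fb_Gc (c3.sub c2) (fun t ht => sub_ne_zero.2 (h.2.2 t ht).1.2.2)
  rw [continuousOn_pi]
  intro i
  fin_cases i
  · exact continuousOn_const.mul ((continuousOn_const.mul g3).add (continuousOn_const.mul g2))
  · exact g2.neg.add (continuousOn_const.mul gd)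
  · exact g3.neg.sub (continuousOn_const.mul gd)

theorem toQ_sol_pr {M : ℝ} (hM : 0 < M) {I : Set ℝ} {γ : ℝ → St} (h : SolI M I γ)
    (hne : I.Nonempty) : IsSolution (mM M) I (fun t => toQ M (γ t)) ∧
      ∀ t ∈ I, ofQ M (toQ M (γ t)) (deriv (fun t => toQ M (γ t)) t) = γ t := by
  have hq : ∀ t ∈ I, HasDerivAt (fun s => toQ M (γ s)) (fbV M (γ t)) t := fun t ht =>
    fb_qd hM (h.2.2 t ht).2
  have hv : ∀ t ∈ I, HasDerivAt (fun s => fbV M (γ s)) (fbA M (γ t)) t := fun t ht =>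
    fb_vd (h.2.2 t ht).2
  refine ⟨⟨h.1, h.2.1, hne, fb_c2 h.1 hq hv (fb_cont h), ?_, ?_⟩, ?_⟩
  · intro t ht
    obtain ⟨n3, n2, n32⟩ := (h.2.2 t ht).1
    have e0 : toQ M (γ t) 0 = q1M M (γ t) := rfl
    have e1 : toQ M (γ t) 1 = q1M M (γ t) + x2 (γ t) := rfl
    have e2 : toQ M (γ t) 2 = q1M M (γ t) + x3 (γ t) := rfl
    have a1 : toQ M (γ t) 0 ≠ toQ M (γ t) 1 := by
      rw [e0, e1]
      intro hh
      exact n2 (by linear_combination -hh)
    have a2 : toQ M (γ t) 0 ≠ toQ M (γ t) 2 := by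
      rw [e0, e2]
      intro hh
      exact n3 (by linear_combination -hh)
    have a3 : toQ M (γ t) 1 ≠ toQ M (γ t) 2 := by
      rw [e1, e2]
      intro hh
      exact n32 (by linear_combination -hh)
    intro i j hij
    fin_cases i <;> fin_cases j
    · exact absurd rfl hij
    · exact a1
    · exact a2
    · exact a1.symm
    · exact absurd rfl hij
    · exact a3
    · exact a2.symm
    · exact a3.symm
    · exact absurd rfl hij
  · intro t ht i
    have hqi : ∀ i : Fin 3, ∀ s ∈ I, HasDerivAt (fun s => toQ M (γ s) i) (fbV M (γ s) i) s :=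
      fun i s hs => (hasDerivAt_pi.1 (hq s hs)) i
    have hvi : ∀ i : Fin 3, HasDerivAt (fun s => fbV M (γ s) i) (fbA M (γ t) i) t :=
      fun i => (hasDerivAt_pi.1 (hv t ht)) i
    have hd : deriv (deriv fun s => toQ M (γ s) i) t = fbA M (γ t) i :=
      fb_d2 h.1 (hqi i) ht (hvi i)
    rw [hd]
    have e0 : toQ M (γ t) 0 = q1M M (γ t) := rfl
    have e1 : toQ M (γ t) 1 = q1M M (γ t) + x2 (γ t) := rfl
    have e2 : toQ M (γ t) 2 = q1M M (γ t) + x3 (γ t) := rfl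
    have d10 : toQ M (γ t) 1 - toQ M (γ t) 0 = x2 (γ t) := by rw [e0, e1]; ring
    have d20 : toQ M (γ t) 2 - toQ M (γ t) 0 = x3 (γ t) := by rw [e0, e2]; ring
    have d01 : toQ M (γ t) 0 - toQ M (γ t) 1 = -x2 (γ t) := by rw [e0, e1]; ring
    have d02 : toQ M (γ t) 0 - toQ M (γ t) 2 = -x3 (γ t) := by rw [e0, e2]; ring
    have d21 : toQ M (γ t) 2 - toQ M (γ t) 1 = x3 (γ t) - x2 (γ t) := by rw [e2, e1]; ring
    have d12 : toQ M (γ t) 1 - toQ M (γ t) 2 = -(x3 (γ t) - x2 (γ t)) := by rw [e2, e1]; ring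
    have hG := fun x : ℂ => (fb_G x)
    fin_cases i
    · change ((mM M 0 : ℝ) : ℂ) * fbA M (γ t) 0 = ∑ j ∈ Finset.univ.erase 0,
        ((mM M 0 : ℝ) : ℂ) * ((mM M j : ℝ) : ℂ) * (toQ M (γ t) j - toQ M (γ t) 0) /
          (‖toQ M (γ t) j - toQ M (γ t) 0‖ : ℂ) ^ 3
      rw [fb_e0, Finset.sum_pair (by decide), d10, d20, fb_mM0, fb_mM1, fb_mM2, mul_div_assoc,
        mul_div_assoc, ← hG, ← hG]
      change _ * ((M : ℂ) * (ma * G (x3 (γ t)) + mb * G (x2 (γ t)))) = _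
      unfold ma mb
      push_cast
      ring
    · change ((mM M 1 : ℝ) : ℂ) * fbA M (γ t) 1 = ∑ j ∈ Finset.univ.erase 1,
        ((mM M 1 : ℝ) : ℂ) * ((mM M j : ℝ) : ℂ) * (toQ M (γ t) j - toQ M (γ t) 1) /
          (‖toQ M (γ t) j - toQ M (γ t) 1‖ : ℂ) ^ 3
      rw [fb_e1, Finset.sum_pair (by decide), d01, d21, fb_mM0, fb_mM1, fb_mM2, mul_div_assoc,
        mul_div_assoc, ← hG, ← hG, fb_Gneg]
      change _ * (- G (x2 (γ t)) + (ma * M : ℝ) * G (x3 (γ t) - x2 (γ t))) = _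
      unfold ma
      push_cast
      ring
    · change ((mM M 2 : ℝ) : ℂ) * fbA M (γ t) 2 = ∑ j ∈ Finset.univ.erase 2,
        ((mM M 2 : ℝ) : ℂ) * ((mM M j : ℝ) : ℂ) * (toQ M (γ t) j - toQ M (γ t) 2) /
          (‖toQ M (γ t) j - toQ M (γ t) 2‖ : ℂ) ^ 3
      rw [fb_e2, Finset.sum_pair (by decide), d02, d12, fb_mM0, fb_mM1, fb_mM2, mul_div_assoc,
        mul_div_assoc, ← hG, ← hG, fb_Gneg, fb_Gneg]
      change _ * (- G (x3 (γ t)) - (mb * M : ℝ) * G (x3 (γ t) - x2 (γ t))) = _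
      unfold mb
      push_cast
      ring
  · intro t ht
    rw [(hq t ht).deriv]
    have hvc : vcM M (fbV M (γ t)) = 0 := by
      change (-(M : ℂ) * cU (γ t) + (3 / 4 * M : ℝ) * u2 (γ t) + (1 / 4 * M : ℝ) * u3 (γ t)) /
        (1 + M : ℝ) = 0
      have : -(M : ℂ) * cU (γ t) + (3 / 4 * M : ℝ) * u2 (γ t) + (1 / 4 * M : ℝ) * u3 (γ t) = 0 := by
        unfold cU ma mb
        push_cast
        ring
      rw [this, zero_div]
    unfold ofQ
    rw [hvc]
    have e0 : toQ M (γ t) 0 = q1M M (γ t) := rfl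
    have e1 : toQ M (γ t) 1 = q1M M (γ t) + x2 (γ t) := rfl
    have e2 : toQ M (γ t) 2 = q1M M (γ t) + x3 (γ t) := rfl
    have v1 : fbV M (γ t) 1 = u2 (γ t) := rfl
    have v2 : fbV M (γ t) 2 = u3 (γ t) := rfl
    rw [e0, e1, e2, v1, v2, add_sub_cancel_left, add_sub_cancel_left, sub_zero, sub_zero]
    rfl

theorem ofQ_sol_pr {M : ℝ} (hM : 0 < M) {J : Set ℝ} {q : ℝ → Conf} (h : IsSolution (mM M) J q) :
    SolI M J (fun t => ofQ M (q t) (deriv q t)) := by
  refine ⟨h.isOpen, h.interval, fun t ht => ?_⟩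
  have hfree := h.collisionFree t ht
  have h10 : q t 1 - q t 0 ≠ 0 := sub_ne_zero.2 (hfree 1 0 (by decide))
  have h20 : q t 2 - q t 0 ≠ 0 := sub_ne_zero.2 (hfree 2 0 (by decide))
  have h21 : q t 2 - q t 0 ≠ q t 1 - q t 0 := fun hh => hfree 2 1 (by decide) (sub_left_inj.1 hh)
  refine ⟨⟨h20, h10, h21⟩, ?_⟩
  have hq : ∀ s ∈ J, HasDerivAt q (deriv q s) s := fun s hs =>
    ((h.smooth.differentiableOn (by norm_num)).differentiableAt (h.isOpen.mem_nhds hs)).hasDerivAt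
  have hq1 : ContDiffOn ℝ 1 (deriv q) J := by
    have h3 : (1 : WithTop ℕ∞) + 1 = 2 := by norm_num
    have h4 := h.smooth
    rw [← h3] at h4
    exact ((contDiffOn_succ_iff_deriv_of_isOpen h.isOpen).1 h4).2.2
  have hv : HasDerivAt (deriv q) (deriv (deriv q) t) t :=
    ((hq1.differentiableOn (by norm_num)).differentiableAt (h.isOpen.mem_nhds ht)).hasDerivAt
  have hqi := fun i s (hs : s ∈ J) => (hasDerivAt_pi.1 (hq s hs)) i
  have hvi := fun i => (hasDerivAt_pi.1 hv) i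
  have hd : ∀ i, deriv (deriv fun s => q s i) t = deriv (deriv q) t i := fun i =>
    fb_d2 h.isOpen (hqi i) ht (hvi i)
  have hN := h.newton t ht
  set a : Conf := deriv (deriv q) t with ha
  set v : Conf := deriv q t with hvdef
  have hM' : (M : ℂ) ≠ 0 := by exact_mod_cast hM.ne'
  have hM1 : (1 + (M : ℂ)) ≠ 0 := by
    have : (1 + M) ≠ 0 := by positivity
    exact_mod_cast this
  have d01 : q t 0 - q t 1 = -(q t 1 - q t 0) := by ring
  have d02 : q t 0 - q t 2 = -(q t 2 - q t 0) := by ring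
  have d21 : q t 2 - q t 1 = (q t 2 - q t 0) - (q t 1 - q t 0) := by ring
  have d12 : q t 1 - q t 2 = -((q t 2 - q t 0) - (q t 1 - q t 0)) := by ring
  have hG := fun x : ℂ => (fb_G x)
  have N0 := hN 0
  have N1 := hN 1
  have N2 := hN 2
  rw [hd, fb_e0, Finset.sum_pair (by decide), fb_mM0, fb_mM1, fb_mM2, mul_div_assoc,
    mul_div_assoc, ← hG, ← hG] at N0
  rw [hd, fb_e1, Finset.sum_pair (by decide), fb_mM0, fb_mM1, fb_mM2, mul_div_assoc,
    mul_div_assoc, ← hG, ← hG, d01, d21, fb_Gneg] at N1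
  rw [hd, fb_e2, Finset.sum_pair (by decide), fb_mM0, fb_mM1, fb_mM2, mul_div_assoc,
    mul_div_assoc, ← hG, ← hG, d02, d12, fb_Gneg, fb_Gneg] at N2
  set g3 : ℂ := G (q t 2 - q t 0) with hg3
  set g2 : ℂ := G (q t 1 - q t 0) with hg2
  set gd : ℂ := G (q t 2 - q t 0 - (q t 1 - q t 0)) with hgd
  push_cast at N0 N1 N2
  have A1 : a 1 = -g2 + (ma * M : ℝ) * gd := by
    have h5 : (3 / 4 * (M : ℂ)) ≠ 0 := mul_ne_zero (by norm_num) hM'
    apply mul_left_cancel₀ h5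
    rw [N1]
    unfold ma
    push_cast
    ring
  have A2 : a 2 = -g3 - (mb * M : ℝ) * gd := by
    have h5 : (1 / 4 * (M : ℂ)) ≠ 0 := mul_ne_zero (by norm_num) hM'
    apply mul_left_cancel₀ h5
    rw [N2]
    unfold mb
    push_cast
    ring
  have hvc : HasDerivAt (fun s => vcM M (deriv q s)) 0 t := by
    have h6 := (((hvi 0).add ((hvi 1).const_mul (((3 / 4 * M : ℝ)) : ℂ))).add
      ((hvi 2).const_mul (((1 / 4 * M : ℝ)) : ℂ))).div_const (((1 + M : ℝ)) : ℂ)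
    refine h6.congr_deriv ?_
    have h7 : a 0 + ((3 / 4 * M : ℝ) : ℂ) * a 1 + ((1 / 4 * M : ℝ) : ℂ) * a 2 = 0 := by
      rw [A1, A2]
      have h8 : a 0 = 3 / 4 * (M : ℂ) * g2 + 1 / 4 * (M : ℂ) * g3 := by
        linear_combination N0
      rw [h8]
      unfold ma mb
      push_cast
      ring
    rw [h7, zero_div]
  have k1 : HasDerivAt (fun s => q s 2 - q s 0) (v 2 - v 0) t := (hqi 2 t ht).sub (hqi 0 t ht)
  have k2 : HasDerivAt (fun s => q s 1 - q s 0) (v 1 - v 0) t := (hqi 1 t ht).sub (hqi 0 t ht)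
  have k3 : HasDerivAt (fun s => deriv q s 2 - vcM M (deriv q s)) (a 2 - 0) t := (hvi 2).sub hvc
  have k4 : HasDerivAt (fun s => deriv q s 1 - vcM M (deriv q s)) (a 1 - 0) t := (hvi 1).sub hvc
  have k := k1.prodMk (k2.prodMk (k3.prodMk k4))
  have hvcv : (1 + (M : ℂ)) * vcM M v = v 0 + 3 / 4 * M * v 1 + 1 / 4 * M * v 2 := by
    unfold vcM
    push_cast
    field_simp
  refine k.congr_deriv ?_
  unfold vf ofQ
  refine Prod.ext ?_ (Prod.ext ?_ (Prod.ext ?_ ?_))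
  · change v 2 - v 0 = (v 2 - vcM M v) + M * (ma * (v 2 - vcM M v) + mb * (v 1 - vcM M v))
    unfold ma mb
    push_cast
    linear_combination hvcv
  · change v 1 - v 0 = (v 1 - vcM M v) + M * (ma * (v 2 - vcM M v) + mb * (v 1 - vcM M v))
    unfold ma mb
    push_cast
    linear_combination hvcv
  · change a 2 - 0 = -g3 - (mb * M : ℝ) * gd
    rw [sub_zero, A2]
  · change a 1 - 0 = -g2 + (ma * M : ℝ) * gd
    rw [sub_zero, A1]

end

end Pool.Agent.HS

namespace Pool.Agent.HS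
open Set Filter Topology Classical
open Pool.Agent.ThreeBody (Conf IsSolution IsMaximalSolution NTC ShapeSphere shape DenseImage)

theorem toQ_sol {M : ℝ} (hM : 0 < M) {I : Set ℝ} {γ : ℝ → St} (h : SolI M I γ)
    (hne : I.Nonempty) : IsSolution (mM M) I (fun t => toQ M (γ t)) ∧
      ∀ t ∈ I, ofQ M (toQ M (γ t)) (deriv (fun t => toQ M (γ t)) t) = γ t :=
  @Pool.Agent.HS.toQ_sol_pr M hM I γ h hne

end Pool.Agent.HS

namespace Pool.Agent.HS
open Set Filter Topology Classical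
open Pool.Agent.ThreeBody (Conf IsSolution IsMaximalSolution NTC ShapeSphere shape DenseImage)

theorem ofQ_sol {M : ℝ} (hM : 0 < M) {J : Set ℝ} {q : ℝ → Conf} (h : IsSolution (mM M) J q) :
    SolI M J (fun t => ofQ M (q t) (deriv q t)) :=
  @Pool.Agent.HS.ofQ_sol_pr M hM J q h

end Pool.Agent.HS
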