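import Pool.Agent.Lib_helper60.HSF.D_WF

/-!
# Part S/F, block FC: density in the shape sphere
-/

namespace Pool.Agent.HS

noncomputable section

open Set Filter Topology Classical
open Pool.Agent.ThreeBody (Conf IsSolution IsMaximalSolution NTC ShapeSphere shape DenseImage)

/-- countably many targets and tolerances (`0 < h n`, `z n ≠ 0, 1`) -/
theorem targets_exist_pr : ∃ (z : ℕ → ℂ) (h : ℕ → ℝ), (∀ n, 0 < h n) ∧ (∀ n, z n ≠ 0 ∧ z n ≠ 1) ∧
    ∀ (w : ℂ) (ε : ℝ), 0 < ε → ∃ n, ‖z n - w‖ < ε ∧ h n < ε := by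
  set S : Set ℂ := ({0, 1} : Set ℂ)ᶜ with hS
  have hSd : Dense S := by
    have hc : ({0, 1} : Set ℂ).Countable := (Set.toFinite _).countable
    exact hc.dense_compl ℝ
  have hne : Nonempty S := ⟨⟨2, by
    rw [hS, mem_compl_iff, mem_insert_iff, mem_singleton_iff]
    push Not
    constructor <;> norm_num⟩⟩
  set u : ℕ → S := TopologicalSpace.denseSeq S with hu
  have hud : DenseRange u := TopologicalSpace.denseRange_denseSeq S
  refine ⟨fun n => (u n.unpair.1 : ℂ), fun n => 1 / ((n.unpair.2 : ℝ) + 1), fun n => by positivity,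
    fun n => ?_, fun w ε hε => ?_⟩
  · have : ((u n.unpair.1 : S) : ℂ) ∈ ({0, 1} : Set ℂ)ᶜ := (u n.unpair.1).2
    rw [mem_compl_iff, mem_insert_iff, mem_singleton_iff] at this
    push Not at this
    exact this
  · obtain ⟨s, hs, hsS⟩ := (Metric.dense_iff.1 hSd) w (ε / 2) (by positivity)
    obtain ⟨m, hm⟩ := Metric.denseRange_iff.1 hud ⟨s, hsS⟩ (ε / 2) (by positivity)
    obtain ⟨k, hk⟩ := exists_nat_one_div_lt hε
    refine ⟨Nat.pair m k, ?_, ?_⟩
    · simp only [Nat.unpair_pair]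
      rw [← dist_eq_norm]
      have h1 : dist (s : ℂ) (u m : ℂ) < ε / 2 := hm
      have h2 : dist s w < ε / 2 := hs
      calc dist (u m : ℂ) w ≤ dist (u m : ℂ) s + dist s w := dist_triangle _ _ _
        _ < ε / 2 + ε / 2 := by
            rw [dist_comm] at h1
            exact add_lt_add h1 h2
        _ = ε := by ring
    · simp only [Nat.unpair_pair]
      exact hk

/-- an open set of configurations contains the configurations near a member -/
theorem fc_ball {V : Set NTC} (hV : IsOpen V) {x : NTC} (hx : x ∈ V) :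
    ∃ ε : ℝ, 0 < ε ∧ ∀ y : NTC, (∀ i, ‖y.1 i - x.1 i‖ < ε) → y ∈ V := by
  obtain ⟨ε, hε, hb⟩ := Metric.isOpen_iff.1 hV x hx
  refine ⟨ε, hε, fun y hy => hb ?_⟩
  rw [Metric.mem_ball, Subtype.dist_eq, dist_pi_lt_iff hε]
  intro i
  rw [dist_eq_norm]
  exact hy i

/-- `(q 2 - q 0) / (q 1 - q 0)` is a coordinate on the dense open subset `q 0 ≠ q 1` of the shape
sphere -/
theorem dense_of_pr {I : Set ℝ} {q : ℝ → Conf} (hfree : ∀ t ∈ I, ∀ i j, i ≠ j → q t i ≠ q t j)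
    (z : ℕ → ℂ) (h : ℕ → ℝ)
    (hz : ∀ (w : ℂ) (ε : ℝ), 0 < ε → ∃ n, ‖z n - w‖ < ε ∧ h n < ε)
    (hit : ∀ n, ∃ t ∈ I, ‖(q t 2 - q t 0) - z n * (q t 1 - q t 0)‖ ≤ h n * ‖q t 1 - q t 0‖) :
    DenseImage I q := by
  unfold DenseImage
  rw [dense_iff_inter_open]
  intro U hU hUne
  obtain ⟨s, hs⟩ := hUne
  obtain ⟨c, rfl⟩ : ∃ c : NTC, shape c = s := Quotient.exists_rep s
  set V : Set NTC := {x | shape x ∈ U} with hVdef
  have hcont : Continuous shape := continuous_quotient_mk'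
  have hV : IsOpen V := hU.preimage hcont
  have hcV : c ∈ V := hs
  -- a member with `c 0 ≠ c 1`
  obtain ⟨c', hc'V, hc'⟩ : ∃ c' : NTC, c' ∈ V ∧ c'.1 0 ≠ c'.1 1 := by
    by_cases h01 : c.1 0 = c.1 1
    · obtain ⟨ε, hε, hb⟩ := fc_ball hV hcV
      have hne : c.1 0 ≠ c.1 1 + ((ε / 2 : ℝ) : ℂ) := by
        intro he
        rw [h01] at he
        have : ((ε / 2 : ℝ) : ℂ) = 0 := by linear_combination -he
        rw [Complex.ofReal_eq_zero] at this
        linarith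
      refine ⟨⟨![c.1 0, c.1 1 + ((ε / 2 : ℝ) : ℂ), c.1 2], fun hh => hne hh.1⟩, hb _ ?_, hne⟩
      intro i
      fin_cases i
      · simp [hε]
      · simp only [Fin.mk_one, Fin.isValue, Matrix.cons_val_one, Matrix.cons_val_zero,
          add_sub_cancel_left, Complex.norm_real, Real.norm_eq_abs]
        rw [abs_of_pos (by linarith)]
        linarith
      · simp [hε]
    · exact ⟨c, hcV, h01⟩
  set a : ℂ := c'.1 0 with ha
  set b : ℂ := c'.1 1 with hb
  have hba : b - a ≠ 0 := sub_ne_zero.2 (Ne.symm hc')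
  set w0 : ℂ := (c'.1 2 - a) / (b - a) with hw0
  obtain ⟨ε, hε, hball⟩ := fc_ball hV hc'V
  set ε' : ℝ := ε / (2 * ‖b - a‖) with hε'
  have hnb : 0 < ‖b - a‖ := norm_pos_iff.2 hba
  have hε'0 : 0 < ε' := by positivity
  obtain ⟨n, hn1, hn2⟩ := hz w0 ε' hε'0
  obtain ⟨t, ht, hh⟩ := hit n
  have hq10 : q t 1 - q t 0 ≠ 0 := sub_ne_zero.2 (hfree t ht 1 0 (by decide))
  have hntc : ¬ (q t 0 = q t 1 ∧ q t 1 = q t 2) := fun hh => hfree t ht 0 1 (by decide) hh.1
  set ζ : ℂ := (q t 2 - q t 0) / (q t 1 - q t 0) with hζ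
  have hζz : ‖ζ - z n‖ ≤ h n := by
    have e : ζ - z n = ((q t 2 - q t 0) - z n * (q t 1 - q t 0)) / (q t 1 - q t 0) := by
      rw [hζ]
      field_simp
    rw [e, norm_div, div_le_iff₀ (norm_pos_iff.2 hq10)]
    exact hh
  have hζw : ‖ζ - w0‖ < 2 * ε' := by
    calc ‖ζ - w0‖ = ‖(ζ - z n) + (z n - w0)‖ := by ring_nf
      _ ≤ ‖ζ - z n‖ + ‖z n - w0‖ := norm_add_le _ _
      _ < 2 * ε' := by linarith
  set y : NTC := ⟨![a, b, a + ζ * (b - a)], fun hh => hc' hh.1⟩ with hy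
  have hyV : y ∈ V := by
    apply hball
    intro i
    fin_cases i
    · simp [hy, ← ha, hε]
    · simp [hy, ← hb, hε]
    · have e : y.1 2 - c'.1 2 = (ζ - w0) * (b - a) := by
        have h1 : y.1 2 = a + ζ * (b - a) := rfl
        rw [h1, hw0]
        field_simp
        ring
      show ‖y.1 2 - c'.1 2‖ < ε
      rw [e, norm_mul]
      calc ‖ζ - w0‖ * ‖b - a‖ < 2 * ε' * ‖b - a‖ := mul_lt_mul_of_pos_right hζw hnb
        _ = ε := by
            rw [hε']
            field_simp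
  refine ⟨shape ⟨q t, hntc⟩, ?_, t, ht, hntc, rfl⟩
  have hsame : shape y = shape ⟨q t, hntc⟩ := by
    apply Quotient.sound
    refine ⟨(q t 1 - q t 0) / (b - a), q t 0 - (q t 1 - q t 0) / (b - a) * a,
      div_ne_zero hq10 hba, fun i => ?_⟩
    fin_cases i
    · show q t 0 = (q t 1 - q t 0) / (b - a) * a + (q t 0 - (q t 1 - q t 0) / (b - a) * a)
      ring
    · show q t 1 = (q t 1 - q t 0) / (b - a) * b + (q t 0 - (q t 1 - q t 0) / (b - a) * a)
      field_simp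
      ring
    · show q t 2 = (q t 1 - q t 0) / (b - a) * (a + ζ * (b - a)) +
        (q t 0 - (q t 1 - q t 0) / (b - a) * a)
      rw [hζ]
      field_simp
      ring
  rw [← hsame]
  exact hyV

end

end Pool.Agent.HS

namespace Pool.Agent.HS
open Set Filter Topology Classical
open Pool.Agent.ThreeBody (Conf IsSolution IsMaximalSolution NTC ShapeSphere shape DenseImage)

theorem targets_exist : ∃ (z : ℕ → ℂ) (h : ℕ → ℝ), (∀ n, 0 < h n) ∧ (∀ n, z n ≠ 0 ∧ z n ≠ 1) ∧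
    ∀ (w : ℂ) (ε : ℝ), 0 < ε → ∃ n, ‖z n - w‖ < ε ∧ h n < ε :=
  @Pool.Agent.HS.targets_exist_pr

end Pool.Agent.HS

namespace Pool.Agent.HS
open Set Filter Topology Classical
open Pool.Agent.ThreeBody (Conf IsSolution IsMaximalSolution NTC ShapeSphere shape DenseImage)

theorem dense_of {I : Set ℝ} {q : ℝ → Conf} (hfree : ∀ t ∈ I, ∀ i j, i ≠ j → q t i ≠ q t j)
    (z : ℕ → ℂ) (h : ℕ → ℝ)
    (hz : ∀ (w : ℂ) (ε : ℝ), 0 < ε → ∃ n, ‖z n - w‖ < ε ∧ h n < ε)
    (hit : ∀ n, ∃ t ∈ I, ‖(q t 2 - q t 0) - z n * (q t 1 - q t 0)‖ ≤ h n * ‖q t 1 - q t 0‖) :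
    DenseImage I q :=
  @Pool.Agent.HS.dense_of_pr I q hfree z h hz hit

end Pool.Agent.HS
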