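import Pool.Agent.Lib_helper60.HSF.D_WF

/-!
# Block SC of part F (helper37): angles
-/

namespace Pool.Agent.HS

noncomputable section

open Set Filter Topology Classical
open Pool.Agent.ThreeBody (Conf IsSolution IsMaximalSolution NTC ShapeSphere shape DenseImage)

theorem sc_arctan_eq : Real.arctan (4 / 3) = Real.pi / 4 + Real.arctan (1 / 7) := by
  rw [← Real.arctan_one, Real.arctan_add (by norm_num)]
  norm_num

theorem th1_bounds_pr : 23 / 25 ≤ th1 ∧ th1 ≤ 93 / 100 := by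
  unfold th1
  rw [sc_arctan_eq]
  have h1 := Real.pi_gt_d4
  have h2 := Real.pi_lt_d4
  have hpos : 0 < Real.arctan (1 / 7) := Real.arctan_pos.mpr (by norm_num)
  have hup : Real.arctan (1 / 7) ≤ 1 / 7 := by
    have := Real.le_tan hpos.le (Real.arctan_lt_pi_div_two _)
    rwa [Real.tan_arctan] at this
  have hlo : (141 / 1000 : ℝ) ≤ Real.arctan (1 / 7) := by
    have h3 := Real.sin_le hpos.le
    rw [Real.sin_arctan] at h3
    refine le_trans ?_ h3
    rw [le_div_iff₀ (Real.sqrt_pos.mpr (by norm_num))]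
    have : Real.sqrt (1 + (1 / 7) ^ 2) ≤ 1011 / 1000 := by
      rw [Real.sqrt_le_left (by norm_num)]
      norm_num
    nlinarith
  constructor <;> linarith

theorem sc_sin {t : ℝ} (h1 : 13 / 100 ≤ t) (h2 : t ≤ 3) : 1 / 8 ≤ Real.sin t := by
  have hp1 := Real.pi_gt_d4
  have hp2 := Real.pi_lt_d4
  have key : ∀ u : ℝ, 13 / 100 ≤ u → u ≤ Real.pi / 2 → 1 / 8 ≤ Real.sin u := by
    intro u hu1 hu2
    have h3 : Real.sin (13 / 100) ≤ Real.sin u :=
      Real.sin_le_sin_of_le_of_le_pi_div_two (by linarith) hu2 hu1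
    have h4 := Real.sin_gt_sub_cube (x := 13 / 100) (by norm_num)
    have h5 : (1 / 8 : ℝ) ≤ 13 / 100 - (13 / 100) ^ 3 / 6 := by norm_num
    linarith
  rcases le_total t (Real.pi / 2) with h | h
  · exact key t h1 h
  · rw [← Real.sin_pi_sub]
    exact key _ (by linarith) (by linarith)

theorem sc_cos {t : ℝ} (h1 : 0 < t) (h2 : t ≤ 147 / 100) :
    1 / 10 ≤ Real.cos t / Real.sin t := by
  have hp1 := Real.pi_gt_d4
  have hp2 := Real.pi_lt_d4
  have h := Real.le_tan (x := Real.pi / 2 - t) (by linarith) (by linarith)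
  rw [Real.tan_eq_sin_div_cos, Real.sin_pi_div_two_sub, Real.cos_pi_div_two_sub] at h
  linarith

theorem sc_hi {t : ℝ} (h1 : 13 / 100 ≤ t) (h2 : t ≤ 3) : Real.sin t ≠ 0 ∧
    |Real.cos t / Real.sin t| ≤ 8 := by
  have h := sc_sin h1 h2
  have hs : 0 < Real.sin t := by linarith
  refine ⟨hs.ne', ?_⟩
  rw [abs_div, abs_of_pos hs, div_le_iff₀ hs]
  have := Real.abs_cos_le_one t
  linarith

theorem sc_lo {t : ℝ} (h : (13 / 100 ≤ t ∧ t ≤ 147 / 100) ∨ (42 / 25 ≤ t ∧ t ≤ 3)) :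
    1 / 10 ≤ |Real.cos t / Real.sin t| := by
  have hp1 := Real.pi_gt_d4
  have hp2 := Real.pi_lt_d4
  rcases h with ⟨h1, h2⟩ | ⟨h1, h2⟩
  · exact le_trans (sc_cos (by linarith) h2) (le_abs_self _)
  · have h3 := sc_cos (t := Real.pi - t) (by linarith) (by linarith)
    rw [Real.cos_pi_sub, Real.sin_pi_sub, neg_div] at h3
    exact le_trans h3 (neg_le_abs _)

theorem sc_even (x : ℝ) :
    |Real.cos x / Real.sin x| = |Real.cos (|x|) / Real.sin (|x|)| := by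
  rcases abs_cases x with ⟨h, _⟩ | ⟨h, _⟩
  · rw [h]
  · rw [h, Real.cos_neg, Real.sin_neg, div_neg, abs_neg]

theorem sc_ne (x : ℝ) (h : Real.sin (|x|) ≠ 0) : Real.sin x ≠ 0 := by
  rcases abs_cases x with ⟨h', _⟩ | ⟨h', _⟩
  · rwa [h'] at h
  · rw [h', Real.sin_neg] at h
    exact fun h0 => h (by rw [h0, neg_zero])

theorem acc_zero_pr (χ N : ℝ) (h : 13 / 100 ≤ |(χ - N) / 2| ∧ |(χ - N) / 2| ≤ 3) :
    Acc 0 8 χ N := by
  obtain ⟨h1, h2⟩ := sc_hi h.1 h.2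
  refine ⟨sc_ne _ h1, abs_nonneg _, ?_⟩
  rw [sc_even]
  exact h2

theorem acc_mid_pr (χ N : ℝ)
    (h : (13 / 100 ≤ |(χ - N) / 2| ∧ |(χ - N) / 2| ≤ 147 / 100) ∨
      (42 / 25 ≤ |(χ - N) / 2| ∧ |(χ - N) / 2| ≤ 3)) : Acc (1 / 10) 8 χ N := by
  obtain ⟨h1, h2⟩ := sc_hi (t := |(χ - N) / 2|) (by rcases h with h | h <;> linarith [h.1])
    (by rcases h with h | h <;> linarith [h.2])
  refine ⟨sc_ne _ h1, ?_, ?_⟩
  · rw [sc_even]
    exact sc_lo h
  · rw [sc_even]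
    exact h2

end

end Pool.Agent.HS

namespace Pool.Agent.HS
open Set Filter Topology Classical
open Pool.Agent.ThreeBody (Conf IsSolution IsMaximalSolution NTC ShapeSphere shape DenseImage)

theorem th1_bounds : 23 / 25 ≤ th1 ∧ th1 ≤ 93 / 100 :=
  @Pool.Agent.HS.th1_bounds_pr

end Pool.Agent.HS

namespace Pool.Agent.HS
open Set Filter Topology Classical
open Pool.Agent.ThreeBody (Conf IsSolution IsMaximalSolution NTC ShapeSphere shape DenseImage)

theorem acc_mid (χ N : ℝ)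
    (h : (13 / 100 ≤ |(χ - N) / 2| ∧ |(χ - N) / 2| ≤ 147 / 100) ∨
      (42 / 25 ≤ |(χ - N) / 2| ∧ |(χ - N) / 2| ≤ 3)) : Acc (1 / 10) 8 χ N :=
  @Pool.Agent.HS.acc_mid_pr χ N h

end Pool.Agent.HS

namespace Pool.Agent.HS
open Set Filter Topology Classical
open Pool.Agent.ThreeBody (Conf IsSolution IsMaximalSolution NTC ShapeSphere shape DenseImage)

theorem acc_zero (χ N : ℝ) (h : 13 / 100 ≤ |(χ - N) / 2| ∧ |(χ - N) / 2| ≤ 3) :
    Acc 0 8 χ N :=
  @Pool.Agent.HS.acc_zero_pr χ N h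

end Pool.Agent.HS
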