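import Pool.Agent.Lib_helper60.HSF.D_WF
import Pool.Agent.Lib_helper60.HSF.E_E2b
import Pool.Agent.Lib_helper60.HSF.E_E2a

namespace Pool.Agent.HS

noncomputable section

open Set Filter Topology Classical
open Pool.Agent.ThreeBody (Conf IsSolution IsMaximalSolution NTC ShapeSphere shape DenseImage)

theorem sh_lip {α E : Type*} [PseudoMetricSpace α] [NormedAddCommGroup E] {L L' : ℝ} {f : α → E}
    {S S' : Set α} (h : Lip L f S) (hL : L ≤ L') (hS : S' ⊆ S) : Lip L' f S' :=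
  fun p hp q hq => (h p (hS hp) q (hS hq)).trans (mul_le_mul_of_nonneg_right hL dist_nonneg)

theorem finish_hub_pr (g : GC) (C : ℝ) (hC : 0 < C ∧ C ≤ 1) (Λ : Type) [Finite Λ] [Nonempty Λ]
    (l : Fin 2 → Λ → LD) (l3 l4 : Λ → LD) (hl : LoopSup g C Λ l l3 l4) (η0 : ℝ) (hη : 0 < η0)
    (S : ℝ → Set (ℝ × ℂ)) (Xe : Pl) (hXe : Xe ∈ Metric.closedBall (0 : Pl) (g.ρs / 10000))
    (h1 : ℝ) (hh1 : 0 < h1) (c : Pl → ℝ) (ι : Type) [Fintype ι] (hι : Fintype.card ι ≤ 4)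
    (g0 : Pl × ℝ → ℂ) (τe h : ℝ) (ζ0 : ι → Pl × ℝ → ℂ) (τm : ι → ℝ) (i : Fin 2)
    (hw : EvW C S (Metric.closedBall Xe h1) (TL c) ι g0 τe h ζ0 τm)
    (hacc : ∀ Y ∈ Metric.closedBall Xe h1, ∀ N, |N - Real.pi / 2| ≤ 1 / 10 →
      Acc (1 / 10) 8 (c Y) N)
    (hacc2 : ∀ Y ∈ Metric.closedBall Xe h1, ∀ t, |t - th1| ≤ 1 / 100 → Acc (1 / 10) 8 t (c Y))
    (he : TZero i g0 Xe τe h) (hm : ∀ j, TIso i (ζ0 j) Xe (τm j) h) :
    ∃ δ r : ℝ, 0 < δ ∧ 0 < r ∧ ∀ p ∈ S r, EvC g η0 (hs C p.1) p.2 δ := by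
  have hρ2 := g.h2
  have hℓ := g.h0
  have hρs := g.hs
  have hρ0 := g.hρ
  have hρs0 : 0 < g.ρs := by linarith
  have hxc := hl.xc
  rw [mem_closedBall_zero_iff] at hXe
  have hXes : Xe ∈ Metric.closedBall g.Xc g.ρs := by
    rw [hxc, mem_closedBall_zero_iff]; linarith
  have hcs : g.Xc ∈ Metric.closedBall g.Xc g.ρs := Metric.mem_closedBall_self hρs0.le
  obtain ⟨a, ha⟩ := hl.loops.steer 0 Xe hXes g.Xc hcs
  have hr0 : 0 < g.ρs / 10000 := by positivity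
  obtain ⟨h', hh', hh'1, hh'2⟩ : ∃ h' : ℝ, 0 < h' ∧ h' ≤ h1 ∧ h' ≤ g.ρs / 10000 :=
    ⟨min h1 (g.ρs / 10000), lt_min hh1 hr0, min_le_left _ _, min_le_right _ _⟩
  have hsub1 : Metric.closedBall Xe h' ⊆ Metric.closedBall Xe h1 :=
    Metric.closedBall_subset_closedBall hh'1
  have hn : ∀ Y ∈ Metric.closedBall Xe h', ∀ Z ∈ Metric.closedBall Y (g.ρs / 10000),
      Z ∈ Metric.closedBall g.Xc g.ρ0 := by
    intro Y hY Z hZ
    rw [mem_closedBall_iff_norm] at hY hZ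
    rw [hxc, mem_closedBall_zero_iff]
    have e : Z = (Z - Y) + (Y - Xe) + Xe := by abel
    have h1 := norm_add₃_le (a := Z - Y) (b := Y - Xe) (c := Xe)
    rw [← e] at h1
    linarith
  have hsub0 : Metric.closedBall Xe h' ⊆ Metric.closedBall g.Xc g.ρ0 := fun Y hY =>
    hn Y hY Y (Metric.mem_closedBall_self hr0.le)
  have hw' := evw_mono hw (isCompact_closedBall Xe h') hsub1
  have hdir := hl.dir a
  have hw2 := evw_right hC hw' (hl.pw 0 a) hr0 (fun Y hY Z hZ => hn Y hY Z hZ)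
    (fun Y hY => hacc2 Y (hsub1 hY) _ (hdir Y (hsub0 hY)))
  have hlim := hl.loops.lim 0 a
  obtain ⟨Lc, hLc, _, rc, _⟩ := hw.reg
  refine evw_evc g C hC S Xe h' hh' ((TL c).comp (l 0 a)) ι hι g0 τe h ζ0 τm i (max g.L Lc) η0 hη
    hw2 ?_ ?_ (le_max_left _ _) ?_ ?_ ?_ he hm
  · rw [hxc, mem_closedBall_zero_iff]; linarith
  · exact ha.trans (by linarith)
  · constructor
    case lipF => exact sh_lip hlim.lipF (le_max_left _ _) hsub0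
    case lipχ => exact sh_lip rc.1 (le_max_right _ _) hsub1
    case lipθ => exact sh_lip hlim.lipθ (le_max_left _ _) hsub0
    case lin => exact fun X hX Y hY => hlim.lin X (hsub0 hX) Y (hsub0 hY)
    case acc => exact fun X hX N hN => hacc X (hsub1 hX) N (hN.trans g.hν.2)
    case exit => exact fun X hX => hlim.exit X (hsub0 hX)
  · exact sh_lip hlim.lipθ le_rfl hsub0
  · exact sh_lip hl.kap le_rfl hsub0


end

end Pool.Agent.HS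

namespace Pool.Agent.HS
open Set Filter Topology Classical
open Pool.Agent.ThreeBody (Conf IsSolution IsMaximalSolution NTC ShapeSphere shape DenseImage)

theorem finish_hub (g : GC) (C : ℝ) (hC : 0 < C ∧ C ≤ 1) (Λ : Type) [Finite Λ] [Nonempty Λ]
    (l : Fin 2 → Λ → LD) (l3 l4 : Λ → LD) (hl : LoopSup g C Λ l l3 l4) (η0 : ℝ) (hη : 0 < η0)
    (S : ℝ → Set (ℝ × ℂ)) (Xe : Pl) (hXe : Xe ∈ Metric.closedBall (0 : Pl) (g.ρs / 10000))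
    (h1 : ℝ) (hh1 : 0 < h1) (c : Pl → ℝ) (ι : Type) [Fintype ι] (hι : Fintype.card ι ≤ 4)
    (g0 : Pl × ℝ → ℂ) (τe h : ℝ) (ζ0 : ι → Pl × ℝ → ℂ) (τm : ι → ℝ) (i : Fin 2)
    (hw : EvW C S (Metric.closedBall Xe h1) (TL c) ι g0 τe h ζ0 τm)
    (hacc : ∀ Y ∈ Metric.closedBall Xe h1, ∀ N, |N - Real.pi / 2| ≤ 1 / 10 →
      Acc (1 / 10) 8 (c Y) N)
    (hacc2 : ∀ Y ∈ Metric.closedBall Xe h1, ∀ t, |t - th1| ≤ 1 / 100 → Acc (1 / 10) 8 t (c Y))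
    (he : TZero i g0 Xe τe h) (hm : ∀ j, TIso i (ζ0 j) Xe (τm j) h) :
    ∃ δ r : ℝ, 0 < δ ∧ 0 < r ∧ ∀ p ∈ S r, EvC g η0 (hs C p.1) p.2 δ :=
  @Pool.Agent.HS.finish_hub_pr g C hC Λ _ _ l l3 l4 hl η0 hη S Xe hXe h1 hh1 c ι _ hι g0 τe h ζ0 τm i hw hacc hacc2 he hm

end Pool.Agent.HS
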