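import Pool.Agent.Lib_helper60.HSF.D_WF
import Pool.Agent.Lib_helper60.HSF.E_E4
import Pool.Agent.Lib_helper60.HSF.F_SC
import Pool.Agent.Lib_helper60.HSF.E_E1b
import Pool.Agent.Lib_helper60.HSF.A_CA
import Pool.Agent.Lib_helper60.HSF.E_E2a

/-!
# Part S/F, block SK: the corner event at a point, wrapping by connectors
-/

namespace Pool.Agent.HS

noncomputable section

open Set Filter Topology Classical
open Pool.Agent.ThreeBody (Conf IsSolution IsMaximalSolution NTC ShapeSphere shape DenseImage)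

theorem sk_lip {α E : Type*} [PseudoMetricSpace α] [NormedAddCommGroup E] {L : ℝ} {f : α → E}
    {S S' : Set α} (h : Lip L f S) (hs : S' ⊆ S) : Lip L f S' :=
  fun p hp q hq => h p (hs hp) q (hs hq)

theorem rarc_sub_pr {C : ℝ} {i : Fin 2} {O O' : Set Pl} {l : LD} {τ0 : Pl → ℝ}
    (h : RArc C i O l τ0) (hO : IsCompact O') (hs : O' ⊆ O) : RArc C i O' l τ0 := by
  obtain ⟨z, ⟨L, hL, r1, r2, r3⟩, cd⟩ := h
  refine ⟨?_, ⟨L, hL, reg_mono r1 le_rfl hs, reg_mono r2 le_rfl hs, reg_mono r3 le_rfl hs⟩,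
    fun X hX => cd X (hs hX)⟩
  refine ⟨hO, ?_, fun X hX => z.pos X (hs hX), fun X hX => z.ell X (hs hX),
    fun X hX => z.free X (hs hX), fun X hX => z.sun X (hs hX), ?_, fun X hX => z.fin X (hs hX), ?_⟩
  · obtain ⟨L, a1, a2, a3, a4⟩ := z.lip
    exact ⟨L, sk_lip a1 hs, sk_lip a2 hs, sk_lip a3 hs, sk_lip a4 hs⟩
  · obtain ⟨c, L, τm, a1, a2, a3⟩ := z.mid
    exact ⟨c, L, τm, a1, sk_lip a2 hs, fun X hX => a3 X (hs hX)⟩
  · obtain ⟨c, L, ρ, a1, a2, a3⟩ := z.nondeg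
    exact ⟨c, L, ρ, a1, a2, fun X hX => a3 X (hs hX)⟩

theorem sk_ball {X Y : Pl} {a b c : ℝ} (hY : Y ∈ Metric.closedBall X a) (h : a + b ≤ c) :
    Metric.closedBall Y b ⊆ Metric.closedBall X c := by
  intro Z hZ
  rw [Metric.mem_closedBall] at *
  calc dist Z X ≤ dist Z Y + dist Y X := dist_triangle _ _ _
    _ ≤ b + a := add_le_add hZ hY
    _ ≤ c := by linarith

theorem corner_at_pr (C : ℝ) (hC : 0 < C ∧ C ≤ 1) (X : Pl) (h1 : ℝ) (hh1 : 0 < h1) (side out : Bool)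
    (χ1 χ2 τ1 τ2 : Pl → ℝ) (i1 i2 : Fin 2) (r1 : RArc C i1 (Metric.closedBall X h1) (TL χ1) τ1)
    (r2 : RArc C i2 (Metric.closedBall X h1) (TL χ2) τ2)
    (hd : ∀ Y ∈ Metric.closedBall X h1,
      |(if out then χ1 Y else χ2 Y) - (-(Real.pi / 2))| ≤ 1 / 100 ∧
      (if side then Real.pi / 2 else 0) - 1 / 100 ≤ (if out then χ2 Y else χ1 Y) ∧
      (if out then χ2 Y else χ1 Y) ≤ (if side then Real.pi else Real.pi / 2) + 1 / 100)
    (he : ℝ) (hhe : 0 < he) (n1 n2 nB : ℕ) (τ1m : Fin n1 → ℝ) (τ2m : Fin n2 → ℝ)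
    (hs1 : SunW C i1 (Metric.closedBall X h1) χ1 τ1 he n1 τ1m)
    (hs2 : SunW C i2 (Metric.closedBall X h1) χ2 τ2 he n2 τ2m)
    (lam : ℝ) (υ : ℂ) (hlam : 0 ≤ lam) (ϖe : ℝ) (hϖ : 0 < ϖe - he) (hϖ2 : lam / 2 < ϖe - he)
    (hn : (nB = 0 ∧ ∀ Y ∈ Metric.closedBall X h1, cB0 C (TL χ1) (TL χ2) Y ≠ 0) ∨ nB = 1) :
    EvW C (S4 lam υ) (Metric.closedBall X (h1 / 2)) ((TL χ1).comp (TL χ2))
      (Fin nB ⊕ Fin n1 ⊕ Fin n2)
      (if out then cornerU C (TL χ1) (TL χ2) lam υ else cornerL C (TL χ1) (TL χ2) lam υ) ϖe he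
      (Sum.elim (fun _ q => (cB0 C (TL χ1) (TL χ2) q.1 : ℂ) + q.2 * Complex.I)
        (Sum.elim (fun _ q => (Zd i1 (limD C q.1 (χ1 q.1)) q.2).1)
          (fun _ q => (Zd i2 (limD C q.1 (χ2 q.1)) q.2).1)))
      (Sum.elim (fun _ => 0) (Sum.elim τ1m τ2m)) := by
  have hsub : Metric.closedBall X (h1 / 2) ⊆ Metric.closedBall X h1 :=
    Metric.closedBall_subset_closedBall (by linarith)
  have hpi3 := Real.pi_gt_three
  have hpi4 := Real.pi_lt_d2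
  refine corner_event C hC out i1 i2 (Metric.closedBall X (h1 / 2)) (Metric.closedBall X h1)
    (TL χ1) (TL χ2) τ1 τ2 (rarc_sub_pr r1 (isCompact_closedBall _ _) hsub) r2 he hhe n1 n2 nB
    τ1m τ2m (fun j Y hY => hs1.1 j Y (hsub hY)) hs2.1 (fun Y hY => hs1.2 Y (hsub hY)) hs2.2
    (h1 / 2) (by linarith) (fun Y hY => sk_ball hY (by linarith)) ?_ lam υ hlam ϖe hϖ hϖ2 ?_
  · intro Y hY
    obtain ⟨a1, a2, a3⟩ := hd Y (hsub hY)
    apply acc_zero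
    show 13 / 100 ≤ |(χ2 Y - χ1 Y) / 2| ∧ |(χ2 Y - χ1 Y) / 2| ≤ 3
    have b := abs_le.1 a1
    have c1 : 0 - 1 / 100 ≤ (if out then χ2 Y else χ1 Y) := by
      refine le_trans ?_ a2
      split_ifs <;> linarith
    have c2 : (if out then χ2 Y else χ1 Y) ≤ Real.pi + 1 / 100 := by
      refine le_trans a3 ?_
      split_ifs <;> linarith
    cases out
    · simp only [Bool.false_eq_true, if_false] at b c1 c2
      rw [abs_of_nonpos (by linarith)]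
      constructor <;> linarith
    · simp only [if_true] at b c1 c2
      rw [abs_of_nonneg (by linarith)]
      constructor <;> linarith
  · rcases hn with ⟨hn1, hn2⟩ | hn1
    · exact Or.inl ⟨hn1, fun Y hY => hn2 Y (hsub hY)⟩
    · exact Or.inr hn1

/-- an event word made of `T` arcs between two copies of a connector (`evw_left`, `evw_right`,
balls of radius `h1`, `h1/2`, `h1/4` after `h1 := min h1 hc`); all centre maps are the identity -/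
theorem conn_wrap_pr (C : ℝ) (hC : 0 < C ∧ C ≤ 1) (S : ℝ → Set (ℝ × ℂ)) (X : Pl) (h1 hc : ℝ)
    (hh1 : 0 < h1) (hhc : 0 < hc) (c χ1 χ2 : Pl → ℝ)
    (hpw : PW C (Metric.closedBall X hc) (TL c)) (ι : Type) [Fintype ι] (g0 : Pl × ℝ → ℂ)
    (τe h : ℝ) (ζ0 : ι → Pl × ℝ → ℂ) (τm : ι → ℝ)
    (hw : EvW C S (Metric.closedBall X h1) ((TL χ1).comp (TL χ2)) ι g0 τe h ζ0 τm)
    (ha1 : ∀ Y ∈ Metric.closedBall X h1, Y ∈ Metric.closedBall X hc →
      Acc (1 / 10) 8 (χ1 Y) (c Y))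
    (ha2 : ∀ Y ∈ Metric.closedBall X h1, Y ∈ Metric.closedBall X hc →
      Acc (1 / 10) 8 (c Y) (χ2 Y)) :
    ∃ h' : ℝ, 0 < h' ∧ h' ≤ h1 ∧ h' ≤ hc ∧
      EvW C S (Metric.closedBall X h') (TL c) ι g0 τe h ζ0 τm := by
  set m : ℝ := min h1 hc with hm
  have hm0 : 0 < m := lt_min hh1 hhc
  have hm1 : m ≤ h1 := min_le_left _ _
  have hmc : m ≤ hc := min_le_right _ _
  have s1 : Metric.closedBall X (m / 2) ⊆ Metric.closedBall X h1 :=
    Metric.closedBall_subset_closedBall (by linarith)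
  have sc : Metric.closedBall X (m / 2) ⊆ Metric.closedBall X hc :=
    Metric.closedBall_subset_closedBall (by linarith)
  have hp2 : PW C (Metric.closedBall X (m / 2)) (TL c) :=
    pw_mono hpw (isCompact_closedBall _ _) sc
  have e1 := evw_left hC (l1 := TL c) (O1 := Metric.closedBall X (m / 2)) hp2 hw
    (r := m / 2) (by linarith) (fun Y hY => sk_ball hY (by linarith))
    (fun Y hY => ha1 Y (s1 hY) (sc hY))
  have e2 := evw_right hC e1 hpw (r := m / 2) (by linarith)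
    (fun Y hY => sk_ball hY (by linarith)) (fun Y hY => ha2 Y (s1 hY) (sc hY))
  exact ⟨m / 2, by linarith, by linarith, by linarith, e2⟩

end

end Pool.Agent.HS

namespace Pool.Agent.HS
open Set Filter Topology Classical
open Pool.Agent.ThreeBody (Conf IsSolution IsMaximalSolution NTC ShapeSphere shape DenseImage)

theorem rarc_sub {C : ℝ} {i : Fin 2} {O O' : Set Pl} {l : LD} {τ0 : Pl → ℝ}
    (h : RArc C i O l τ0) (hO : IsCompact O') (hs : O' ⊆ O) : RArc C i O' l τ0 :=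
  @Pool.Agent.HS.rarc_sub_pr C i O O' l τ0 h hO hs

end Pool.Agent.HS

namespace Pool.Agent.HS
open Set Filter Topology Classical
open Pool.Agent.ThreeBody (Conf IsSolution IsMaximalSolution NTC ShapeSphere shape DenseImage)

theorem corner_at (C : ℝ) (hC : 0 < C ∧ C ≤ 1) (X : Pl) (h1 : ℝ) (hh1 : 0 < h1) (side out : Bool)
    (χ1 χ2 τ1 τ2 : Pl → ℝ) (i1 i2 : Fin 2) (r1 : RArc C i1 (Metric.closedBall X h1) (TL χ1) τ1)
    (r2 : RArc C i2 (Metric.closedBall X h1) (TL χ2) τ2)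
    (hd : ∀ Y ∈ Metric.closedBall X h1,
      |(if out then χ1 Y else χ2 Y) - (-(Real.pi / 2))| ≤ 1 / 100 ∧
      (if side then Real.pi / 2 else 0) - 1 / 100 ≤ (if out then χ2 Y else χ1 Y) ∧
      (if out then χ2 Y else χ1 Y) ≤ (if side then Real.pi else Real.pi / 2) + 1 / 100)
    (he : ℝ) (hhe : 0 < he) (n1 n2 nB : ℕ) (τ1m : Fin n1 → ℝ) (τ2m : Fin n2 → ℝ)
    (hs1 : SunW C i1 (Metric.closedBall X h1) χ1 τ1 he n1 τ1m)
    (hs2 : SunW C i2 (Metric.closedBall X h1) χ2 τ2 he n2 τ2m)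
    (lam : ℝ) (υ : ℂ) (hlam : 0 ≤ lam) (ϖe : ℝ) (hϖ : 0 < ϖe - he) (hϖ2 : lam / 2 < ϖe - he)
    (hn : (nB = 0 ∧ ∀ Y ∈ Metric.closedBall X h1, cB0 C (TL χ1) (TL χ2) Y ≠ 0) ∨ nB = 1) :
    EvW C (S4 lam υ) (Metric.closedBall X (h1 / 2)) ((TL χ1).comp (TL χ2))
      (Fin nB ⊕ Fin n1 ⊕ Fin n2)
      (if out then cornerU C (TL χ1) (TL χ2) lam υ else cornerL C (TL χ1) (TL χ2) lam υ) ϖe he
      (Sum.elim (fun _ q => (cB0 C (TL χ1) (TL χ2) q.1 : ℂ) + q.2 * Complex.I)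
        (Sum.elim (fun _ q => (Zd i1 (limD C q.1 (χ1 q.1)) q.2).1)
          (fun _ q => (Zd i2 (limD C q.1 (χ2 q.1)) q.2).1)))
      (Sum.elim (fun _ => 0) (Sum.elim τ1m τ2m)) :=
  @Pool.Agent.HS.corner_at_pr C hC X h1 hh1 side out χ1 χ2 τ1 τ2 i1 i2 r1 r2 hd he hhe n1 n2 nB τ1m τ2m hs1 hs2 lam υ hlam ϖe hϖ hϖ2 hn

end Pool.Agent.HS

namespace Pool.Agent.HS
open Set Filter Topology Classical
open Pool.Agent.ThreeBody (Conf IsSolution IsMaximalSolution NTC ShapeSphere shape DenseImage)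

theorem conn_wrap (C : ℝ) (hC : 0 < C ∧ C ≤ 1) (S : ℝ → Set (ℝ × ℂ)) (X : Pl) (h1 hc : ℝ)
    (hh1 : 0 < h1) (hhc : 0 < hc) (c χ1 χ2 : Pl → ℝ)
    (hpw : PW C (Metric.closedBall X hc) (TL c)) (ι : Type) [Fintype ι] (g0 : Pl × ℝ → ℂ)
    (τe h : ℝ) (ζ0 : ι → Pl × ℝ → ℂ) (τm : ι → ℝ)
    (hw : EvW C S (Metric.closedBall X h1) ((TL χ1).comp (TL χ2)) ι g0 τe h ζ0 τm)
    (ha1 : ∀ Y ∈ Metric.closedBall X h1, Y ∈ Metric.closedBall X hc →
      Acc (1 / 10) 8 (χ1 Y) (c Y))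
    (ha2 : ∀ Y ∈ Metric.closedBall X h1, Y ∈ Metric.closedBall X hc →
      Acc (1 / 10) 8 (c Y) (χ2 Y)) :
    ∃ h' : ℝ, 0 < h' ∧ h' ≤ h1 ∧ h' ≤ hc ∧
      EvW C S (Metric.closedBall X h') (TL c) ι g0 τe h ζ0 τm :=
  @Pool.Agent.HS.conn_wrap_pr C hC S X h1 hc hh1 hhc c χ1 χ2 hpw ι _ g0 τe h ζ0 τm hw ha1 ha2

end Pool.Agent.HS
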