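import Pool.Agent.Lib_helper60.HSF.D_WF
import Pool.Agent.Lib_helper60.HSF.F_SC
import Pool.Agent.Lib_helper60.HSF.E_E1b
import Pool.Agent.Lib_helper60.HSF.E_E2b
import Pool.Agent.Lib_helper60.HSF.E_E2a

/-! Project HS, part F, block SV: the end of the word, fourth vertex. -/

namespace Pool.Agent.HS

noncomputable section

open Set Filter Topology Classical
open Pool.Agent.ThreeBody (Conf IsSolution IsMaximalSolution NTC ShapeSphere shape DenseImage)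

theorem sv_ball {x y : Pl} {r s : ℝ} (h : dist x y + r ≤ s) :
    Metric.closedBall x r ⊆ Metric.closedBall y s := by
  intro z hz
  rw [Metric.mem_closedBall] at hz ⊢
  linarith [dist_triangle z x y]

theorem sv_llim {L ν0 : ℝ} {i : Fin 2} {O O' : Set Pl} {l : LD} (h : LLim L ν0 i O l)
    (hs : O' ⊆ O) : LLim L ν0 i O' l where
  lipF := fun x hx y hy => h.lipF x (hs hx) y (hs hy)
  lipχ := fun x hx y hy => h.lipχ x (hs hx) y (hs hy)
  lipθ := fun x hx y hy => h.lipθ x (hs hx) y (hs hy)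
  lin := fun x hx y hy => h.lin x (hs hx) y (hs hy)
  acc := fun x hx => h.acc x (hs hx)
  exit := fun x hx => h.exit x (hs hx)

theorem finish_4_pr (g : GC) (C : ℝ) (hC : 0 < C ∧ C ≤ 1) (Λ : Type) [Finite Λ] [Nonempty Λ]
    (l : Fin 2 → Λ → LD) (l3 l4 : Λ → LD) (hl : LoopSup g C Λ l l3 l4) (η0 : ℝ) (hη : 0 < η0)
    (S : ℝ → Set (ℝ × ℂ)) (a : Λ) (Xe : Pl)
    (hXe : Xe ∈ Metric.closedBall (0 : Pl) (g.ρs / 10000))
    (hX : (l3 a).F Xe ∈ Metric.closedBall Xcp (g.ρs / 10000)) (hgood : ‖(l 0 a).F Xe‖ ≤ g.ρs / 2)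
    (h1 : ℝ) (hh1 : 0 < h1) (c : Pl → ℝ)
    (hcd : ∀ Y ∈ Metric.closedBall ((l3 a).F Xe) h1, |c Y - (-(Real.pi - th1))| ≤ 1 / 100)
    (ι : Type) [Fintype ι] (hι : Fintype.card ι ≤ 4)
    (g0 : Pl × ℝ → ℂ) (τe h : ℝ) (ζ0 : ι → Pl × ℝ → ℂ) (τm : ι → ℝ) (i : Fin 2)
    (hw : EvW C S (Metric.closedBall ((l3 a).F Xe) h1) (TL c) ι g0 τe h ζ0 τm)
    (he : TZero i (fun q => g0 ((l3 a).F q.1, q.2)) Xe τe h)
    (hm : ∀ j, TIso i (fun q => ζ0 j ((l3 a).F q.1, q.2)) Xe (τm j) h) :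
    ∃ δ r : ℝ, 0 < δ ∧ 0 < r ∧ ∀ p ∈ S r, EvC g η0 (hs C p.1) p.2 δ := by
  have hρ2 := g.h2
  have hℓ := g.h0
  have hρs' := g.hs
  have hρs : 0 < g.ρs := by nlinarith
  have hρ0 := g.hρ
  have hth := th1_bounds
  have hpi1 := Real.pi_gt_d2
  have hpi2 := Real.pi_lt_d2
  rw [Metric.mem_closedBall] at hXe hX
  -- the ball about the fourth vertex
  set h2 : ℝ := min h1 (g.ρs / 4) with hh2
  have hh2p : 0 < h2 := lt_min hh1 (by linarith)
  have hh2a : h2 ≤ h1 := min_le_left _ _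
  have hh2b : h2 ≤ g.ρs / 4 := min_le_right _ _
  set O2 : Set Pl := Metric.closedBall ((l3 a).F Xe) h2 with hO2
  have hO2a : O2 ⊆ Metric.closedBall ((l3 a).F Xe) h1 := Metric.closedBall_subset_closedBall hh2a
  have hO2b : O2 ⊆ Metric.closedBall Xcp g.ρs := sv_ball (by linarith)
  have hw2 : EvW C S O2 (TL c) ι g0 τe h ζ0 τm :=
    evw_mono hw (isCompact_closedBall _ _) hO2a
  have hw3 : EvW C S O2 ((TL c).comp (l4 a)) ι g0 τe h ζ0 τm := by
    refine evw_right hC hw2 (hl.pw4 a) (r := g.ρs / 4) (by linarith) ?_ ?_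
    · intro Y hY
      rw [hO2, Metric.mem_closedBall] at hY
      have e : (TL c).F Y = Y := rfl
      rw [e]
      refine sv_ball ?_
      linarith [dist_triangle Y ((l3 a).F Xe) Xcp]
    · intro Y hY
      have e1 : (TL c).F Y = Y := rfl
      have e2 : (TL c).θ Y = c Y := rfl
      rw [e1, e2]
      have k1 := abs_le.1 (hl.dir4 a Y (hO2b hY))
      have k2 := abs_le.1 (hcd Y (hO2a hY))
      refine acc_mid _ _ (Or.inr ?_)
      have k3 : 0 < ((l4 a).χ Y - c Y) / 2 := by linarith [k1.1, k2.2]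
      rw [abs_of_pos k3]
      constructor
      · linarith [k1.1, k2.2]
      · linarith [k1.2, k2.1]
  -- the ball about the starting point
  obtain ⟨L3, hL3, hF3, -, -⟩ := (hl.pw3 a).2.1
  have hxc := hl.xc
  set h3 : ℝ := min (g.ρs / 4) (h2 / (2 * (L3 + 1))) with hh3
  have hh3p : 0 < h3 := lt_min (by linarith) (by positivity)
  have hh3a : h3 ≤ g.ρs / 4 := min_le_left _ _
  have hh3b : L3 * h3 ≤ h2 / 2 := by
    have h5 : h3 ≤ h2 / (2 * (L3 + 1)) := min_le_right _ _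
    rw [le_div_iff₀ (by positivity)] at h5
    nlinarith
  set O1 : Set Pl := Metric.closedBall Xe h3 with hO1
  have hO1a : O1 ⊆ Metric.closedBall g.Xc g.ρ0 := by
    rw [hxc]
    refine sv_ball ?_
    linarith
  have hO1c : IsCompact O1 := isCompact_closedBall _ _
  have hXe1 : Xe ∈ O1 := Metric.mem_closedBall_self hh3p.le
  have hFd : ∀ Y ∈ O1, dist ((l3 a).F Y) ((l3 a).F Xe) ≤ h2 / 2 := by
    intro Y hY
    have h5 := hF3.1 Y (hO1a hY) Xe (hO1a hXe1)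
    rw [← dist_eq_norm] at h5
    rw [hO1, Metric.mem_closedBall] at hY
    exact h5.trans ((mul_le_mul_of_nonneg_left hY hL3).trans hh3b)
  have hw4 : EvW C S O1 ((l3 a).comp ((TL c).comp (l4 a))) ι (fun q => g0 ((l3 a).F q.1, q.2)) τe h
      (fun j q => ζ0 j ((l3 a).F q.1, q.2)) τm := by
    refine evw_left hC (pw_mono (hl.pw3 a) hO1c hO1a) hw3 (r := h2 / 2) (by linarith) ?_ ?_
    · intro Y hY
      refine sv_ball ?_
      linarith [hFd Y hY]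
    · intro Y hY
      have e1 : ((TL c).comp (l4 a)).χ ((l3 a).F Y) = c ((l3 a).F Y) := rfl
      rw [e1]
      have k1 := abs_le.1 (hl.dir3 a Y (hO1a hY))
      have k2 := abs_le.1 (hcd ((l3 a).F Y) (by
        rw [Metric.mem_closedBall]
        linarith [hFd Y hY]))
      refine acc_mid _ _ (Or.inr ?_)
      have k3 : (c ((l3 a).F Y) - (l3 a).θ Y) / 2 < 0 := by linarith [k1.1, k2.2]
      rw [abs_of_neg k3]
      constructor
      · linarith [k1.1, k2.2]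
      · linarith [k1.2, k2.1]
  have el : (l3 a).comp ((TL c).comp (l4 a)) = l 0 a := by
    rw [hl.split a]
    rfl
  rw [el] at hw4
  have hlim := hl.loops.lim 0 a
  refine evw_evc g C hC S Xe h3 hh3p (l 0 a) ι hι (fun q => g0 ((l3 a).F q.1, q.2)) τe h
    (fun j q => ζ0 j ((l3 a).F q.1, q.2)) τm i g.L η0 hη hw4 ?_ ?_ le_rfl (sv_llim hlim hO1a)
    (sv_llim hlim hO1a).lipθ ?_ he ?_
  · rw [hxc, Metric.mem_closedBall]
    linarith
  · rw [hxc, sub_zero]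
    exact hgood
  · intro x hx y hy
    exact hl.kap x (hO1a hx) y (hO1a hy)
  · intro j
    exact ⟨(hm j).1, (hm j).2⟩

end

end Pool.Agent.HS

namespace Pool.Agent.HS
open Set Filter Topology Classical
open Pool.Agent.ThreeBody (Conf IsSolution IsMaximalSolution NTC ShapeSphere shape DenseImage)

theorem finish_4 (g : GC) (C : ℝ) (hC : 0 < C ∧ C ≤ 1) (Λ : Type) [Finite Λ] [Nonempty Λ]
    (l : Fin 2 → Λ → LD) (l3 l4 : Λ → LD) (hl : LoopSup g C Λ l l3 l4) (η0 : ℝ) (hη : 0 < η0)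
    (S : ℝ → Set (ℝ × ℂ)) (a : Λ) (Xe : Pl)
    (hXe : Xe ∈ Metric.closedBall (0 : Pl) (g.ρs / 10000))
    (hX : (l3 a).F Xe ∈ Metric.closedBall Xcp (g.ρs / 10000)) (hgood : ‖(l 0 a).F Xe‖ ≤ g.ρs / 2)
    (h1 : ℝ) (hh1 : 0 < h1) (c : Pl → ℝ)
    (hcd : ∀ Y ∈ Metric.closedBall ((l3 a).F Xe) h1, |c Y - (-(Real.pi - th1))| ≤ 1 / 100)
    (ι : Type) [Fintype ι] (hι : Fintype.card ι ≤ 4)
    (g0 : Pl × ℝ → ℂ) (τe h : ℝ) (ζ0 : ι → Pl × ℝ → ℂ) (τm : ι → ℝ) (i : Fin 2)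
    (hw : EvW C S (Metric.closedBall ((l3 a).F Xe) h1) (TL c) ι g0 τe h ζ0 τm)
    (he : TZero i (fun q => g0 ((l3 a).F q.1, q.2)) Xe τe h)
    (hm : ∀ j, TIso i (fun q => ζ0 j ((l3 a).F q.1, q.2)) Xe (τm j) h) :
    ∃ δ r : ℝ, 0 < δ ∧ 0 < r ∧ ∀ p ∈ S r, EvC g η0 (hs C p.1) p.2 δ :=
  @Pool.Agent.HS.finish_4_pr g C hC Λ _ _ l l3 l4 hl η0 hη S a Xe hXe hX hgood h1 hh1 c hcd ι _ hι g0 τe h ζ0 τm i hw he hm

end Pool.Agent.HS
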