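import Pool.Agent.Lib_helper60.HSF.D_WF
import Pool.Agent.Lib_helper60.HSF.F_SK
import Pool.Agent.Lib_helper60.HSF.F_SC
import Pool.Agent.Lib_helper60.HSF.F_SH
import Pool.Agent.Lib_helper60.HSF.E_E3
import Pool.Agent.Lib_helper60.HSF.F_SV

/-!
# Block SA: assemble_M, assemble_4
-/

namespace Pool.Agent.HS

noncomputable section

open Set Filter Topology Classical

theorem assemble_M_pr (g : GC) (C : ℝ) (hC : 0 < C ∧ C ≤ 1) (Λ : Type) [Finite Λ] [Nonempty Λ]
    (l : Fin 2 → Λ → LD) (l3 l4 : Λ → LD) (hl : LoopSup g C Λ l l3 l4) (η0 : ℝ) (hη : 0 < η0)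
    (i : Fin 2) (y : ℂ) (h : SupM C (g.ρs / 10000) i y) :
    ∃ δ r : ℝ, 0 < δ ∧ 0 < r ∧ ∀ p ∈ SM i y r, EvC g η0 (hs C p.1) p.2 δ := by
  obtain ⟨X, h1, χ, τ0, τe, he, n, τm, i', hX, hh1, hhe, hn, hR, hχ, hτe, hsun, hsm, htz, hiso⟩ := h
  have hw := mid_event C hC i (Metric.closedBall X h1) (TL χ) τ0 hR y τe he n τm hhe hτe hsun.1
    hsun.2 hsm ⟨X, Metric.mem_closedBall_self hh1.le⟩
  have hp1 := Real.pi_gt_d2
  have hp2 := Real.pi_lt_d2
  obtain ⟨ht1, ht2⟩ := th1_bounds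
  refine finish_hub g C hC Λ l l3 l4 hl η0 hη (SM i y) X hX h1 hh1 χ (Fin n)
    (by rw [Fintype.card_fin]; omega) (midG C i χ y) τe he _ τm i' hw ?_ ?_ htz hiso
  · intro Y hY N hN
    have h1 := abs_le.mp (hχ Y hY)
    have h2 := abs_le.mp hN
    apply acc_mid
    left
    rw [abs_of_neg (by linarith [h1.2, h2.1])]
    constructor <;> linarith [h1.1, h1.2, h2.1, h2.2]
  · intro Y hY t ht
    have h1 := abs_le.mp (hχ Y hY)
    have h2 := abs_le.mp ht
    apply acc_mid
    left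
    rw [abs_of_pos (by linarith [h1.2, h2.1])]
    constructor <;> linarith [h1.1, h1.2, h2.1, h2.2]

theorem sa_empty {lam : ℝ} (υ : ℂ) (h : lam < 0) : ∀ p ∈ S4 lam υ (-lam), False := by
  rintro p ⟨h1, h2, υ0, h3, h4, h5, h6, h7⟩
  have : 0 ≤ p.1 / max p.1 ‖υ0‖ := div_nonneg h1.le (le_trans h1.le (le_max_left _ _))
  have h8 := (abs_lt.mp h6).2
  linarith

theorem assemble_4_pr (g : GC) (C : ℝ) (hC : 0 < C ∧ C ≤ 1) (Λ : Type) [Finite Λ] [Nonempty Λ]
    (l : Fin 2 → Λ → LD) (l3 l4 : Λ → LD) (hl : LoopSup g C Λ l l3 l4)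
    (hc : ConnSup C (g.ρs / 10000)) (η0 : ℝ) (hη : 0 < η0) (lam : ℝ) (υ : ℂ) (side out : Bool)
    (a : Λ) (h : Sup4 C (g.ρs / 10000) side out (if side then (l3 a).F else fun X => X)
      (fun X => side → ‖(l 0 a).F X‖ ≤ g.ρs / 2) lam υ) :
    ∃ δ r : ℝ, 0 < δ ∧ 0 < r ∧ ∀ p ∈ S4 lam υ r, EvC g η0 (hs C p.1) p.2 δ := by
  rcases lt_or_ge lam 0 with hneg | hlam
  · exact ⟨1, -lam, one_pos, by linarith, fun p hp => (sa_empty υ hneg p hp).elim⟩
  obtain ⟨Xe, X, h1, χ1, χ2, τ1, τ2, i1, i2, ϖe, he, n1, n2, nB, τ1m, τ2m, i', hXe, hF, hgood, hX,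
    hh1, hhe, hn, r1, r2, hd, hs1, hs2, hϖ, hϖ2, hB, htz, hBi, h1i, h2i⟩ := h
  have hw := corner_at C hC X h1 hh1 side out χ1 χ2 τ1 τ2 i1 i2 r1 r2 hd he hhe n1 n2 nB τ1m τ2m
    hs1 hs2 lam υ hlam ϖe hϖ hϖ2 hB
  have hp1 := Real.pi_gt_d2
  have hp2 := Real.pi_lt_d2
  obtain ⟨ht1, ht2⟩ := th1_bounds
  have hcard : Fintype.card (Fin nB ⊕ Fin n1 ⊕ Fin n2) ≤ 4 := by
    simp only [Fintype.card_sum, Fintype.card_fin]; omega
  have hnB : ∀ j : Fin nB, nB = 1 := fun j => by
    rcases hB with hB | hB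
    · have h0 := hB.1
      have h2 := j.2
      omega
    · exact hB
  cases side with
  | false =>
    simp only [Bool.false_eq_true, if_false, false_implies] at hF hd hX htz hBi h1i h2i
    subst hF
    obtain ⟨hc1, c, hhc1, hpw, hcd⟩ := hc.1 Xe hX
    have key : ∀ Y ∈ Metric.closedBall Xe (h1 / 2), Y ∈ Metric.closedBall Xe hc1 →
        Acc (1 / 10) 8 (χ1 Y) (c Y) ∧ Acc (1 / 10) 8 (c Y) (χ2 Y) := by
      intro Y hY hY'
      have hY1 : Y ∈ Metric.closedBall Xe h1 :=
        Metric.closedBall_subset_closedBall (by linarith) hY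
      obtain ⟨d1, d2, d3⟩ := hd Y hY1
      have hcY := abs_le.mp (hcd Y hY')
      cases out with
      | false =>
        simp only [Bool.false_eq_true, if_false] at d1 d2 d3
        have d1 := abs_le.mp d1
        constructor
        · apply acc_mid
          left
          rw [abs_of_pos (by linarith [hcY.2])]
          constructor <;> linarith [hcY.1, hcY.2]
        · apply acc_mid
          left
          rw [abs_of_pos (by linarith [hcY.1, d1.2])]
          constructor <;> linarith [hcY.1, hcY.2, d1.1, d1.2]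
      | true =>
        simp only [if_true] at d1 d2 d3
        have d1 := abs_le.mp d1
        constructor
        · apply acc_mid
          left
          rw [abs_of_neg (by linarith [hcY.1, d1.2])]
          constructor <;> linarith [hcY.1, hcY.2, d1.1, d1.2]
        · apply acc_mid
          left
          rw [abs_of_neg (by linarith [hcY.2])]
          constructor <;> linarith [hcY.1, hcY.2]
    obtain ⟨h', hh', hl1, hl2, hw'⟩ := conn_wrap C hC (S4 lam υ) Xe (h1 / 2) hc1 (by linarith) hhc1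
      c χ1 χ2 hpw _ _ _ _ _ _ hw (fun Y h1 h2 => (key Y h1 h2).1) (fun Y h1 h2 => (key Y h1 h2).2)
    refine finish_hub g C hC Λ l l3 l4 hl η0 hη (S4 lam υ) Xe hXe h' hh' c _ hcard _ _ _ _ _ i' hw'
      ?_ ?_ htz ?_
    · intro Y hY N hN
      have h1 := abs_le.mp (hcd Y (Metric.closedBall_subset_closedBall hl2 hY))
      have h2 := abs_le.mp hN
      apply acc_mid
      left
      rw [abs_of_neg (by linarith [h1.2, h2.1])]
      constructor <;> linarith [h1.1, h1.2, h2.1, h2.2]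
    · intro Y hY t ht
      have h1 := abs_le.mp (hcd Y (Metric.closedBall_subset_closedBall hl2 hY))
      have h2 := abs_le.mp ht
      apply acc_mid
      left
      rw [abs_of_pos (by linarith [h1.2, h2.1])]
      constructor <;> linarith [h1.1, h1.2, h2.1, h2.2]
    · rintro (j | j | j)
      · exact hBi (hnB j)
      · exact h1i j
      · exact h2i j
  | true =>
    simp only [if_true, forall_const] at hF hd hX htz hBi h1i h2i hgood
    have hX' : (l3 a).F Xe ∈ Metric.closedBall Xcp (g.ρs / 10000) := by rw [hF]; exact hX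
    obtain ⟨hc1, c, hhc1, hpw, hcd⟩ := hc.2 X hX
    have key : ∀ Y ∈ Metric.closedBall X (h1 / 2), Y ∈ Metric.closedBall X hc1 →
        Acc (1 / 10) 8 (χ1 Y) (c Y) ∧ Acc (1 / 10) 8 (c Y) (χ2 Y) := by
      intro Y hY hY'
      have hY1 : Y ∈ Metric.closedBall X h1 :=
        Metric.closedBall_subset_closedBall (by linarith) hY
      obtain ⟨d1, d2, d3⟩ := hd Y hY1
      have hcY := abs_le.mp (hcd Y hY')
      cases out with
      | false =>
        simp only [Bool.false_eq_true, if_false] at d1 d2 d3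
        have d1 := abs_le.mp d1
        constructor
        · apply acc_mid
          right
          rw [abs_of_pos (by linarith [hcY.2])]
          constructor <;> linarith [hcY.1, hcY.2]
        · apply acc_mid
          left
          rw [abs_of_neg (by linarith [hcY.2, d1.1])]
          constructor <;> linarith [hcY.1, hcY.2, d1.1, d1.2]
      | true =>
        simp only [if_true] at d1 d2 d3
        have d1 := abs_le.mp d1
        constructor
        · apply acc_mid
          left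
          rw [abs_of_pos (by linarith [hcY.2, d1.1])]
          constructor <;> linarith [hcY.1, hcY.2, d1.1, d1.2]
        · apply acc_mid
          right
          rw [abs_of_neg (by linarith [hcY.2])]
          constructor <;> linarith [hcY.1, hcY.2]
    obtain ⟨h', hh', hl1, hl2, hw'⟩ := conn_wrap C hC (S4 lam υ) X (h1 / 2) hc1 (by linarith) hhc1
      c χ1 χ2 hpw _ _ _ _ _ _ hw (fun Y h1 h2 => (key Y h1 h2).1) (fun Y h1 h2 => (key Y h1 h2).2)
    rw [← hF] at hw' hcd
    refine finish_4 g C hC Λ l l3 l4 hl η0 hη (S4 lam υ) a Xe hXe hX' hgood h' hh' c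
      (fun Y hY => hcd Y (Metric.closedBall_subset_closedBall hl2 hY)) _ hcard _ _ _ _ _ i' hw'
      htz ?_
    rintro (j | j | j)
    · exact hBi (hnB j)
    · exact h1i j
    · exact h2i j

end

end Pool.Agent.HS

namespace Pool.Agent.HS
open Set Filter Topology Classical

theorem assemble_M (g : GC) (C : ℝ) (hC : 0 < C ∧ C ≤ 1) (Λ : Type) [Finite Λ] [Nonempty Λ]
    (l : Fin 2 → Λ → LD) (l3 l4 : Λ → LD) (hl : LoopSup g C Λ l l3 l4) (η0 : ℝ) (hη : 0 < η0)
    (i : Fin 2) (y : ℂ) (h : SupM C (g.ρs / 10000) i y) :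
    ∃ δ r : ℝ, 0 < δ ∧ 0 < r ∧ ∀ p ∈ SM i y r, EvC g η0 (hs C p.1) p.2 δ :=
  @Pool.Agent.HS.assemble_M_pr g C hC Λ _ _ l l3 l4 hl η0 hη i y h

end Pool.Agent.HS

namespace Pool.Agent.HS
open Set Filter Topology Classical

theorem assemble_4 (g : GC) (C : ℝ) (hC : 0 < C ∧ C ≤ 1) (Λ : Type) [Finite Λ] [Nonempty Λ]
    (l : Fin 2 → Λ → LD) (l3 l4 : Λ → LD) (hl : LoopSup g C Λ l l3 l4)
    (hc : ConnSup C (g.ρs / 10000)) (η0 : ℝ) (hη : 0 < η0) (lam : ℝ) (υ : ℂ) (side out : Bool)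
    (a : Λ) (h : Sup4 C (g.ρs / 10000) side out (if side then (l3 a).F else fun X => X)
      (fun X => side → ‖(l 0 a).F X‖ ≤ g.ρs / 2) lam υ) :
    ∃ δ r : ℝ, 0 < δ ∧ 0 < r ∧ ∀ p ∈ S4 lam υ r, EvC g η0 (hs C p.1) p.2 δ :=
  @Pool.Agent.HS.assemble_4_pr g C hC Λ _ _ l l3 l4 hl hc η0 hη lam υ side out a h

end Pool.Agent.HS
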