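import Pool.Agent.Lib_helper60.HSF.D_WF

/-! # HSF block ST: compactness, one tolerance for all targets -/

namespace Pool.Agent.HS

noncomputable section

open Set Filter Topology Classical
open Pool.Agent.ThreeBody (Conf IsSolution IsMaximalSolution NTC ShapeSphere shape DenseImage)

theorem evc_mono_pr {g : GC} {η0 : ℝ} {sys : Sys} {z : ℂ} {δ δ' : ℝ} (h : EvC g η0 sys z δ)
    (hd : δ' ≤ δ) : EvC g η0 sys z δ' := by
  obtain ⟨Xe, hXe, i, H⟩ := h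
  refine ⟨Xe, hXe, i, ?_⟩
  intro Φ hΦ hO
  apply H Φ
  · refine { hΦ with blip := ?_ }
    intro s hs b hb b' hb'
    have h1 := hΦ.blip s hs b hb b' hb'
    have h2 : δ' * |b - b'| ≤ δ * |b - b'| := mul_le_mul_of_nonneg_right hd (abs_nonneg _)
    exact ⟨h1.1.trans h2, h1.2.trans h2⟩
  · exact ⟨hO.1, fun b hb => ⟨(hO.2 b hb).1, (hO.2 b hb).2.trans hd⟩⟩

/-- a finite subcover gives uniform constants -/
theorem st_cover {X T : Type*} [PseudoMetricSpace X] {K : Set X} (hK : IsCompact K) (q : T → X)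
    (m : T → ℝ) (E : T → ℝ → Prop) (hE : ∀ t δ δ', E t δ → δ' ≤ δ → E t δ')
    (h : ∀ x ∈ K, ∃ δ r : ℝ, 0 < δ ∧ 0 < r ∧ ∀ t, dist (q t) x < r → m t < r → E t δ) :
    ∃ δ r : ℝ, 0 < δ ∧ 0 < r ∧ ∀ t, q t ∈ K → m t < r → E t δ := by
  refine hK.induction_on
    (p := fun s => ∃ δ r : ℝ, 0 < δ ∧ 0 < r ∧ ∀ t, q t ∈ s → m t < r → E t δ) ?_ ?_ ?_ ?_
  · exact ⟨1, 1, one_pos, one_pos, fun t ht => absurd ht (Set.notMem_empty _)⟩
  · rintro s s' hss ⟨δ, r, hδ, hr, H⟩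
    exact ⟨δ, r, hδ, hr, fun t ht => H t (hss ht)⟩
  · rintro s s' ⟨δ, r, hδ, hr, H⟩ ⟨δ', r', hδ', hr', H'⟩
    refine ⟨min δ δ', min r r', lt_min hδ hδ', lt_min hr hr', ?_⟩
    intro t ht hm
    rcases ht with ht | ht
    · exact hE t δ _ (H t ht (hm.trans_le (min_le_left _ _))) (min_le_left _ _)
    · exact hE t δ' _ (H' t ht (hm.trans_le (min_le_right _ _))) (min_le_right _ _)
  · intro x hx
    obtain ⟨δ, r, hδ, hr, H⟩ := h x hx
    exact ⟨Metric.ball x r, mem_nhdsWithin_of_mem_nhds (Metric.ball_mem_nhds x hr), δ, r, hδ, hr,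
      fun t ht => H t ht⟩

theorem st_P4 : IsCompact P4 := by
  apply Metric.isCompact_of_isClosed_isBounded
  · have h1 : IsClosed {p : ℝ × ℂ | 0 ≤ p.1} := isClosed_le continuous_const continuous_fst
    have h2 : IsClosed {p : ℝ × ℂ | 0 ≤ p.2.im} :=
      isClosed_le continuous_const (Complex.continuous_im.comp continuous_snd)
    have h3 : IsClosed {p : ℝ × ℂ | max p.1 ‖p.2‖ = 1} :=
      isClosed_eq (by fun_prop) continuous_const
    exact h1.inter (h2.inter h3)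
  · apply (Metric.isBounded_closedBall (x := (0 : ℝ × ℂ)) (r := 1)).subset
    rintro ⟨a, b⟩ ⟨h1, -, h3⟩
    rw [mem_closedBall_zero_iff, Prod.norm_def]
    simp only at h1 h3 ⊢
    rw [Real.norm_eq_abs, abs_of_nonneg h1, h3]

/-- the square root in the upper half plane -/
theorem st_root (w : ℂ) : ∃ s : ℂ, s ^ 2 = w ∧ 0 ≤ s.im := by
  obtain ⟨s, hs⟩ := IsAlgClosed.exists_pow_nat_eq w (n := 2) (by norm_num)
  by_cases h : 0 ≤ s.im
  · exact ⟨s, hs, h⟩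
  · push Not at h
    refine ⟨-s, ?_, ?_⟩
    · rw [neg_sq, hs]
    · rw [Complex.neg_im]
      linarith

theorem st_yb1 : yb 1 < 1 := by
  unfold yb
  rw [if_neg (by norm_num)]
  apply Real.rpow_lt_one_of_one_lt_of_neg (by norm_num) (by norm_num)

theorem all_targets_pr (g : GC) (C : ℝ) (hC : 0 < C ∧ C ≤ 1) (η0 : ℝ)
    (h1 : ∀ i y, y ≠ 1 → ‖y‖ ≤ yb i →
      ∃ δ r : ℝ, 0 < δ ∧ 0 < r ∧ ∀ p ∈ SM i y r, EvC g η0 (hs C p.1) p.2 δ)
    (h2 : ∀ p ∈ P4, ∃ δ r : ℝ, 0 < δ ∧ 0 < r ∧ ∀ q ∈ S4 p.1 p.2 r, EvC g η0 (hs C q.1) q.2 δ) :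
    ∃ δ μ0 : ℝ, 0 < δ ∧ 0 < μ0 ∧ ∀ μ, 0 < μ → μ < μ0 → ∀ z : ℂ, z ≠ 0 → z ≠ 1 →
      EvC g η0 (hs C μ) z δ := by
  -- near the shape `1`
  obtain ⟨δ1, r1, hδ1, hr1, H1⟩ := st_cover st_P4
    (fun t : ℝ × ℂ × ℂ => ((t.1 / max t.1 ‖t.2.2‖ : ℝ), t.2.2 / ((max t.1 ‖t.2.2‖ : ℝ) : ℂ)))
    (fun t => max t.1 ‖t.2.2‖)
    (fun t δ => 0 < t.1 → t.2.2 ≠ 0 → t.2.2 ^ 2 * (mb + ma * t.2.1) = t.2.1 - 1 →
      EvC g η0 (hs C t.1) t.2.1 δ)
    (fun t δ δ' h hd a b c => evc_mono_pr (h a b c) hd)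
    (by
      rintro x hx
      obtain ⟨δ, r, hδ, hr, H⟩ := h2 x hx
      refine ⟨δ, r, hδ, hr, ?_⟩
      rintro ⟨μ, z, u⟩ hq hm hμ hu he
      simp only at hm hμ hu he ⊢
      rw [Prod.dist_eq] at hq
      simp only at hq
      have hq1 := (le_max_left _ _).trans_lt hq
      have hq2 := (le_max_right _ _).trans_lt hq
      rw [Real.dist_eq] at hq1
      rw [dist_eq_norm] at hq2
      exact H (μ, z) ⟨hμ, (le_max_left _ _).trans_lt hm, u, hu, he,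
        (le_max_right _ _).trans_lt hm, hq1, hq2⟩)
  set ρ : ℝ := min 1 (3 / 4 * r1 ^ 2) with hρdef
  have hρ : 0 < ρ := lt_min one_pos (by positivity)
  -- away from the shape `1`, `i = 0`
  have cov : ∀ i : Fin 2, ∃ δ r : ℝ, 0 < δ ∧ 0 < r ∧ ∀ t : ℝ × ℂ,
      (if i = 0 then t.2 else t.2⁻¹) ∈ Metric.closedBall (0 : ℂ) (yb i) ∩ {y | ρ ≤ ‖y - 1‖} →
      t.1 < r → (0 < t.1 → t.2 ≠ 0 → EvC g η0 (hs C t.1) t.2 δ) := by
    intro i
    have hK : IsCompact (Metric.closedBall (0 : ℂ) (yb i) ∩ {y | ρ ≤ ‖y - 1‖}) :=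
      (isCompact_closedBall _ _).inter_right
        (isClosed_le continuous_const (by fun_prop))
    apply st_cover hK (fun t : ℝ × ℂ => if i = 0 then t.2 else t.2⁻¹) (fun t => t.1)
      (fun t δ => 0 < t.1 → t.2 ≠ 0 → EvC g η0 (hs C t.1) t.2 δ)
      (fun t δ δ' h hd a b => evc_mono_pr (h a b) hd)
    rintro y ⟨hy1, hy2⟩
    rw [mem_closedBall_zero_iff] at hy1
    have hy : y ≠ 1 := by
      rintro rfl
      rw [mem_setOf_eq, sub_self, norm_zero] at hy2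
      exact absurd hy2 (not_le.2 hρ)
    obtain ⟨δ, r, hδ, hr, H⟩ := h1 i y hy hy1
    refine ⟨δ, r, hδ, hr, ?_⟩
    rintro ⟨μ, z⟩ hq hm hμ hz
    exact H (μ, z) ⟨hμ, hm, hz, by rw [dist_eq_norm] at hq; exact hq⟩
  obtain ⟨δ2, r2, hδ2, hr2, H2⟩ := cov 0
  obtain ⟨δ3, r3, hδ3, hr3, H3⟩ := cov 1
  -- `i = 1`: the condition `ρ ≤ ‖y - 1‖` for `ρ` small
  have hρ' : 0 < min ρ (1 - yb 1) := lt_min hρ (by linarith [st_yb1])
  have cov' : ∃ δ r : ℝ, 0 < δ ∧ 0 < r ∧ ∀ t : ℝ × ℂ,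
      t.2⁻¹ ∈ Metric.closedBall (0 : ℂ) (yb 1) →
      t.1 < r → (0 < t.1 → t.2 ≠ 0 → EvC g η0 (hs C t.1) t.2 δ) := by
    apply st_cover (isCompact_closedBall _ _) (fun t : ℝ × ℂ => t.2⁻¹) (fun t => t.1)
      (fun t δ => 0 < t.1 → t.2 ≠ 0 → EvC g η0 (hs C t.1) t.2 δ)
      (fun t δ δ' h hd a b => evc_mono_pr (h a b) hd)
    intro y hy1
    rw [mem_closedBall_zero_iff] at hy1
    have hy : y ≠ 1 := by
      rintro rfl
      rw [norm_one] at hy1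
      exact absurd hy1 (not_le.2 st_yb1)
    obtain ⟨δ, r, hδ, hr, H⟩ := h1 1 y hy hy1
    refine ⟨δ, r, hδ, hr, ?_⟩
    rintro ⟨μ, z⟩ hq hm hμ hz
    refine H (μ, z) ⟨hμ, hm, hz, ?_⟩
    rw [dist_eq_norm] at hq
    rw [if_neg (by norm_num)]
    exact hq
  obtain ⟨δ4, r4, hδ4, hr4, H4⟩ := cov'
  refine ⟨min δ1 (min δ2 δ4), min r1 (min r2 r4), by positivity, by positivity, ?_⟩
  intro μ hμ hμ0 z hz0 hz1
  have a1 : μ < r1 := hμ0.trans_le (min_le_left _ _)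
  have a2 : μ < r2 := hμ0.trans_le ((min_le_right _ _).trans (min_le_left _ _))
  have a4 : μ < r4 := hμ0.trans_le ((min_le_right _ _).trans (min_le_right _ _))
  have b1 : min δ1 (min δ2 δ4) ≤ δ1 := min_le_left _ _
  have b2 : min δ1 (min δ2 δ4) ≤ δ2 := (min_le_right _ _).trans (min_le_left _ _)
  have b4 : min δ1 (min δ2 δ4) ≤ δ4 := (min_le_right _ _).trans (min_le_right _ _)
  by_cases hc : ‖z - 1‖ < ρ
  · -- near `1`
    apply evc_mono_pr _ b1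
    have hD : 3 / 4 ≤ ‖((mb : ℂ) + ma * z)‖ := by
      have e1 : ((mb : ℂ) + ma * z) = 1 + (1 / 4 : ℂ) * (z - 1) := by
        unfold mb ma
        push_cast
        ring
      rw [e1]
      have e2 : ‖(1 : ℂ)‖ - ‖(1 / 4 : ℂ) * (z - 1)‖ ≤ ‖1 + (1 / 4 : ℂ) * (z - 1)‖ := by
        have := norm_sub_norm_le (1 : ℂ) (-((1 / 4 : ℂ) * (z - 1)))
        rwa [norm_neg, sub_neg_eq_add] at this
      have e3 : ‖(1 / 4 : ℂ) * (z - 1)‖ ≤ 1 / 4 := by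
        rw [norm_mul]
        have e4 : ‖(1 / 4 : ℂ)‖ = 1 / 4 := by norm_num
        rw [e4]
        have e5 : ‖z - 1‖ ≤ 1 := (hc.trans_le (min_le_left _ _)).le
        linarith
      rw [norm_one] at e2
      linarith
    have hD0 : ((mb : ℂ) + ma * z) ≠ 0 := by
      intro h
      rw [h, norm_zero] at hD
      norm_num at hD
    obtain ⟨u, hu, hui⟩ := st_root ((z - 1) / ((mb : ℂ) + ma * z))
    have hu0 : u ≠ 0 := by
      rintro rfl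
      have : (z - 1) / ((mb : ℂ) + ma * z) = 0 := by rw [← hu]; ring
      rw [div_eq_zero_iff] at this
      rcases this with h | h
      · exact hz1 (sub_eq_zero.1 h)
      · exact hD0 h
    have he : u ^ 2 * ((mb : ℂ) + ma * z) = z - 1 := by
      rw [hu, div_mul_cancel₀ _ hD0]
    have hun : ‖u‖ < r1 := by
      have e1 : ‖u‖ ^ 2 * ‖((mb : ℂ) + ma * z)‖ = ‖z - 1‖ := by
        rw [← he, norm_mul, norm_pow]
      have e2 : ‖u‖ ^ 2 * (3 / 4) ≤ ‖z - 1‖ := by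
        rw [← e1]
        exact mul_le_mul_of_nonneg_left hD (by positivity)
      have e3 : ‖z - 1‖ < 3 / 4 * r1 ^ 2 := hc.trans_le (min_le_right _ _)
      have e4 : ‖u‖ ^ 2 < r1 ^ 2 := by linarith
      exact lt_of_pow_lt_pow_left₀ 2 hr1.le e4
    have hG : 0 < max μ ‖u‖ := lt_max_of_lt_left hμ
    apply H1 (μ, z, u) _ (max_lt a1 hun) hμ hu0 he
    refine ⟨?_, ?_, ?_⟩
    · show 0 ≤ μ / max μ ‖u‖
      positivity
    · show 0 ≤ (u / ((max μ ‖u‖ : ℝ) : ℂ)).im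
      rw [Complex.div_ofReal_im]
      positivity
    · show max (μ / max μ ‖u‖) ‖u / ((max μ ‖u‖ : ℝ) : ℂ)‖ = 1
      rw [norm_div, Complex.norm_real, Real.norm_eq_abs, abs_of_pos hG,
        max_div_div_right hG.le, div_self hG.ne']
  · push Not at hc
    by_cases hz : ‖z‖ ≤ yb 0
    · apply evc_mono_pr _ b2
      apply H2 (μ, z) _ a2 hμ hz0
      refine ⟨?_, ?_⟩
      · rw [mem_closedBall_zero_iff]
        exact hz
      · exact hc
    · apply evc_mono_pr _ b4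
      apply H4 (μ, z) _ a4 hμ hz0
      rw [mem_closedBall_zero_iff, norm_inv]
      push Not at hz
      have e1 : yb 1 = (yb 0)⁻¹ := by
        unfold yb
        rw [if_neg (by norm_num), if_pos rfl, ← Real.rpow_neg (by norm_num)]
      rw [e1]
      have e2 : 0 < yb 0 := by
        unfold yb
        rw [if_pos rfl]
        positivity
      exact inv_anti₀ e2 hz.le

end

end Pool.Agent.HS

namespace Pool.Agent.HS
open Set Filter Topology Classical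

theorem all_targets (g : GC) (C : ℝ) (hC : 0 < C ∧ C ≤ 1) (η0 : ℝ)
    (h1 : ∀ i y, y ≠ 1 → ‖y‖ ≤ yb i →
      ∃ δ r : ℝ, 0 < δ ∧ 0 < r ∧ ∀ p ∈ SM i y r, EvC g η0 (hs C p.1) p.2 δ)
    (h2 : ∀ p ∈ P4, ∃ δ r : ℝ, 0 < δ ∧ 0 < r ∧ ∀ q ∈ S4 p.1 p.2 r, EvC g η0 (hs C q.1) q.2 δ) :
    ∃ δ μ0 : ℝ, 0 < δ ∧ 0 < μ0 ∧ ∀ μ, 0 < μ → μ < μ0 → ∀ z : ℂ, z ≠ 0 → z ≠ 1 →
      EvC g η0 (hs C μ) z δ :=
  @Pool.Agent.HS.all_targets_pr g C hC η0 h1 h2

end Pool.Agent.HS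

namespace Pool.Agent.HS
open Set Filter Topology Classical
open Pool.Agent.ThreeBody (Conf IsSolution IsMaximalSolution NTC ShapeSphere shape DenseImage)

theorem evc_mono {g : GC} {η0 : ℝ} {sys : Sys} {z : ℂ} {δ δ' : ℝ} (h : EvC g η0 sys z δ)
    (hd : δ' ≤ δ) : EvC g η0 sys z δ' :=
  @Pool.Agent.HS.evc_mono_pr g η0 sys z δ δ' h hd

end Pool.Agent.HS
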