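import Pool.Agent.Lib_helper60.HSF.D_WG
import Pool.Agent.Lib_helper60.HSF.G_MARKS
import Pool.Agent.Lib_helper60.HSF.G_STEP

/-!
# Block G3a of part G of project HS (MP_b9cbe4_an): `growth`
-/

namespace Pool.Agent.HS.GROW

noncomputable section

open Set Filter Topology Classical Pool.Agent.HS

theorem g3a_mono {sys : Sys} {R : sys.S → sys.S → Prop} {V V' : Set (ℝ × ℝ)}
    {m1 m2 η LN ν0 m1' m2' η' : ℝ} {Φ : Fam sys.S} (h : IsFam sys R V m1 m2 η LN ν0 Φ)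
    (h1 : m1' ≤ m1) (h2 : m2 ≤ m2') (h3 : η ≤ η')
    (hV : ∀ b ∈ JJ, ∀ s ∈ Icc (-Φ.ℓ) Φ.ℓ, (s, b) ∉ V' → (s, b) ∉ V) :
    IsFam sys R V' m1' m2' η' LN ν0 Φ where
  pos := h.pos
  graph := by
    intro b hb s hs t ht hst
    obtain ⟨a1, a2, a3⟩ := h.graph b hb s hs t ht hst
    have h0 : 0 ≤ t - s := by linarith
    exact ⟨a1, (mul_le_mul_of_nonneg_right h1 h0).trans a2,
      a3.trans (mul_le_mul_of_nonneg_right h2 h0)⟩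
  blip := by
    intro s hs b hb b' hb'
    obtain ⟨a1, a2⟩ := h.blip s hs b hb b' hb'
    have h0 := abs_nonneg (b - b')
    exact ⟨a1.trans (mul_le_mul_of_nonneg_right h3 h0), a2.trans (mul_le_mul_of_nonneg_right h3 h0)⟩
  slip := h.slip
  dir := h.dir
  cont := h.cont
  rel := fun b hb s hs h0 hn => h.rel b hb s hs h0 (hV b hb s hs hn)

theorem g3a_pnorm (v : Pl) {r : ℝ} (h1 : |v.1| ≤ r) (h2 : |v.2| ≤ r) : ‖v‖ ≤ r := by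
  rw [Prod.norm_def]
  exact max_le h1 h2

theorem g3a_fst (v : Pl) : |v.1| ≤ ‖v‖ := by
  rw [Prod.norm_def]; exact le_max_left _ _

theorem g3a_snd (v : Pl) : |v.2| ≤ ‖v‖ := by
  rw [Prod.norm_def]; exact le_max_right _ _

theorem g3a_lin0 (v : Pl) : ‖lin 0 v‖ ≤ 181 * ‖v‖ := by
  have h1 := abs_le.mp (g3a_fst v)
  have h2 := abs_le.mp (g3a_snd v)
  have h0 := norm_nonneg v
  have e : lin 0 v = (47 / 2 * v.1 + 315 / 2 * v.2, 7 / 2 * v.1 + 47 / 2 * v.2) := by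
    simp [lin]
  rw [e]
  apply g3a_pnorm
  · rw [abs_le]; constructor <;> (simp only; nlinarith [h1.1, h1.2, h2.1, h2.2])
  · rw [abs_le]; constructor <;> (simp only; nlinarith [h1.1, h1.2, h2.1, h2.2])

/-- distance along a member -/
theorem g3a_along {sys : Sys} {R : sys.S → sys.S → Prop} {V : Set (ℝ × ℝ)}
    {m1 m2 η LN ν0 : ℝ} {Φ : Fam sys.S} (h : IsFam sys R V m1 m2 η LN ν0 Φ)
    (h1 : 0 ≤ m1) (h2 : m2 ≤ 5) {b s t : ℝ} (hb : b ∈ JJ) (hs : s ∈ Icc (-Φ.ℓ) Φ.ℓ)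
    (ht : t ∈ Icc (-Φ.ℓ) Φ.ℓ) : ‖Φ.z t b - Φ.z s b‖ ≤ 5 * |t - s| := by
  have key : ∀ s ∈ Icc (-Φ.ℓ) Φ.ℓ, ∀ t ∈ Icc (-Φ.ℓ) Φ.ℓ, s ≤ t →
      ‖Φ.z t b - Φ.z s b‖ ≤ 5 * (t - s) := by
    intro s hs t ht hst
    obtain ⟨a1, a2, a3⟩ := h.graph b hb s hs t ht hst
    have h0 : 0 ≤ t - s := by linarith
    have h3 : 0 ≤ m1 * (t - s) := mul_nonneg h1 h0
    have h4 : m2 * (t - s) ≤ 5 * (t - s) := mul_le_mul_of_nonneg_right h2 h0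
    apply g3a_pnorm
    · rw [abs_le, Prod.fst_sub, a1]; constructor <;> linarith
    · rw [abs_le, Prod.snd_sub]; constructor <;> linarith
  rcases le_total s t with hst | hst
  · rw [abs_of_nonneg (by linarith : 0 ≤ t - s)]
    exact key s hs t ht hst
  · rw [abs_of_nonpos (by linarith : t - s ≤ 0), norm_sub_rev]
    have := key t ht s hs hst
    linarith

theorem g3a_step (g : GC) : ∃ L1 C1 ε1 : ℝ, 1 ≤ L1 ∧ 1 ≤ C1 ∧ 0 < ε1 ∧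
    ∀ (Λ : Type) [Finite Λ] (l : Fin 2 → Λ → LD), Loops g Λ l → ∀ (κ0 : Pl → ℝ)
    (ε : ℝ) (sys : Sys), 0 ≤ ε → ε ≤ ε1 → Rl g Λ l κ0 ε sys →
    ∀ (R : sys.S → sys.S → Prop), (∀ x y u, R x y → sys.reach y u → R x u) →
    ∀ (Φ : Fam sys.S) (V : Set (ℝ × ℝ)) (η : ℝ), 0 ≤ η → η ≤ ε1 →
      IsFam sys R V (1 / 10) 5 η g.L g.ν0 Φ → Φ.ℓ ≤ g.ℓ0 →
      (∀ b ∈ JJ, Φ.z 0 b ∈ Metric.closedBall g.Xc g.ρs) →
      ∀ (m : ℕ) (εm : ℝ), 0 ≤ εm → εm * L1 ≤ 1 / 2 → εm * C1 ≤ 1 → Marks m εm V →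
      ∃ (Φ1 : Fam sys.S) (V1 : Set (ℝ × ℝ)), Φ1.ℓ = 30 * Φ.ℓ ∧
        IsFam sys R V1 (1 / 10) (1 / 5) (C1 * ε) g.L g.ν0 Φ1 ∧ Marks m (3600 * C1 * ε) V1 ∧
        Φ1.ContAll ∧ (∀ b ∈ JJ, ‖Φ1.z 0 b - g.Xc‖ ≤ g.ρ2 + 2000 * η + ε) ∧
        (∀ s ∈ Icc (-Φ1.ℓ) Φ1.ℓ, ∀ b ∈ JJ, (s, b) ∉ V1 → Φ1.y s b ∈ Φ.im' V) ∧
        (V = ∅ → V1 = ∅) := by
  obtain ⟨L1, C1, ε1, hL1, hC1, hε1, hstep⟩ := step g.L g.L g.ν0 g.hL le_rfl g.hν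
  refine ⟨L1, C1, ε1, hL1, hC1, hε1, ?_⟩
  intro Λ _ l hl κ0 ε sys hε hεε hRl R hR Φ V η hη hηε hΦ hΦℓ hc m εm hm0 hmL hmC hM
  have h0J : (0 : ℝ) ∈ JJ := ⟨by norm_num, by norm_num⟩
  have h0ℓ : (0 : ℝ) ∈ Icc (-Φ.ℓ) Φ.ℓ := ⟨by linarith [hΦ.pos], by linarith [hΦ.pos]⟩
  have hρs0 : 0 ≤ g.ρs := by linarith [g.h2, g.h0, g.hs]
  obtain ⟨a, ha⟩ := hl.steer 0 (Φ.z 0 0) (hc 0 h0J) g.Xc (Metric.mem_closedBall_self hρs0)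
  obtain ⟨w, hw1, hw2⟩ := hRl.w 0 a
  have hin : ∀ s ∈ Icc (-Φ.ℓ) Φ.ℓ, ∀ b ∈ JJ, Φ.z s b ∈ Metric.closedBall g.Xc g.ρ0 := by
    intro s hs b hb
    have h1 := g3a_along hΦ (by norm_num) le_rfl hb h0ℓ hs
    have h2 := hc b hb
    rw [Metric.mem_closedBall, dist_eq_norm] at h2 ⊢
    have h3 : |s - 0| ≤ Φ.ℓ := by rw [sub_zero]; exact abs_le.mpr hs
    calc ‖Φ.z s b - g.Xc‖ ≤ ‖Φ.z s b - Φ.z 0 b‖ + ‖Φ.z 0 b - g.Xc‖ := norm_sub_le_norm_sub_add_norm_sub _ _ _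
      _ ≤ 5 * g.ℓ0 + g.ρs := by linarith
      _ ≤ g.ρ0 := by linarith [g.hs, g.hρ, g.h2, g.h0]
  obtain ⟨B, σ, hB1, hB2, hσ1, hσ2, hσ3, hσ4, -, hnew⟩ := hstep sys κ0 0
    (Metric.closedBall g.Xc g.ρ0) (l 0 a) w ε η R V Φ hε hεε hη hηε hRl.K (hl.lim 0 a)
    (hl.lim 0 a).lipθ hw1 hΦ hin
  have hBJ : ∀ s ∈ Icc (-Φ.ℓ) Φ.ℓ, ∀ b' ∈ JJ, B s b' ∈ JJ ∧ B s b' ≠ 0 := by
    intro s hs b' hb'
    obtain ⟨h1, h2, -⟩ := hB1 s hs b' hb'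
    refine ⟨⟨by linarith [(abs_le.mp h2).1], by linarith [(abs_le.mp h2).2]⟩, ?_⟩
    intro h; rw [h, abs_zero] at h1; norm_num at h1
  set V1 : Set (ℝ × ℝ) := {p | p.1 ∈ Icc (-(30 * Φ.ℓ)) (30 * Φ.ℓ) ∧ p.2 ∈ JJ ∧
        (σ p.1 p.2, B (σ p.1 p.2) p.2) ∈ V} with hV1
  obtain ⟨hF1, hF2⟩ := hnew (fun _ => sys.reach) R V1 hw2 (by
    intro s' hs' b' hb' hn
    refine ⟨fun h => hn ⟨hs', hb', h⟩, fun x y u h1 h2 => hR x y u h1 h2⟩)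
  have hslo : slo 0 = 1 / 10 := by simp [slo]
  have hshi : shi 0 = 1 / 5 := by simp [shi]
  rw [hslo, hshi] at hF1
  refine ⟨_, V1, rfl, hF1, ?_, hF2, ?_, ?_, ?_⟩
  · exact marks_step m L1 C1 ε εm Φ.ℓ hL1 hC1 hε hm0 hmL hmC V hM B σ hB2 hσ1 hσ3 hσ4
  · intro b hb
    show ‖w.P (Φ.z (σ 0 b) (B (σ 0 b) b), B (σ 0 b) b, b) - g.Xc‖ ≤ _
    rw [hσ2 b hb]
    obtain ⟨hBm, hB0⟩ := hBJ 0 h0ℓ b hb
    set X := Φ.z 0 (B 0 b) with hX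
    have hXO : X ∈ Metric.closedBall g.Xc g.ρ0 := hin 0 h0ℓ _ hBm
    have hX0O : Φ.z 0 0 ∈ Metric.closedBall g.Xc g.ρ0 := hin 0 h0ℓ _ h0J
    have h1 : ‖w.P (X, B 0 b, b) - (l 0 a).F X‖ ≤ ε := hw1.P.1 (X, B 0 b, b) ⟨hXO, hBm, hb⟩
    have h2 := (hl.lim 0 a).lin X hXO (Φ.z 0 0) hX0O
    have h3 : ‖X - Φ.z 0 0‖ ≤ 9 * η := by
      have h4 := (hΦ.blip 0 h0ℓ (B 0 b) hBm 0 h0J).1
      have h5 : |B 0 b - 0| ≤ 9 := by rw [sub_zero]; exact (hB1 0 h0ℓ b hb).2.1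
      have h6 : η * |B 0 b - 0| ≤ η * 9 := mul_le_mul_of_nonneg_left h5 hη
      linarith
    have h4 : ‖lin 0 (X - Φ.z 0 0)‖ ≤ 181 * ‖X - Φ.z 0 0‖ := g3a_lin0 _
    have h5 : ‖(l 0 a).F X - (l 0 a).F (Φ.z 0 0)‖ ≤ 182 * ‖X - Φ.z 0 0‖ := by
      have h6 : (l 0 a).F X - (l 0 a).F (Φ.z 0 0) =
          ((l 0 a).F X - (l 0 a).F (Φ.z 0 0) - lin 0 (X - Φ.z 0 0)) + lin 0 (X - Φ.z 0 0) := by
        abel
      rw [h6]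
      calc _ ≤ _ := norm_add_le _ _
        _ ≤ 1 / 1000 * ‖X - Φ.z 0 0‖ + 181 * ‖X - Φ.z 0 0‖ := add_le_add h2 h4
        _ ≤ _ := by nlinarith [norm_nonneg (X - Φ.z 0 0)]
    calc ‖w.P (X, B 0 b, b) - g.Xc‖ = ‖(w.P (X, B 0 b, b) - (l 0 a).F X) +
          ((l 0 a).F X - (l 0 a).F (Φ.z 0 0)) + ((l 0 a).F (Φ.z 0 0) - g.Xc)‖ := by
            congr 1; abel
      _ ≤ ‖(w.P (X, B 0 b, b) - (l 0 a).F X) + ((l 0 a).F X - (l 0 a).F (Φ.z 0 0))‖ +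
          ‖(l 0 a).F (Φ.z 0 0) - g.Xc‖ := norm_add_le _ _
      _ ≤ ‖w.P (X, B 0 b, b) - (l 0 a).F X‖ + ‖(l 0 a).F X - (l 0 a).F (Φ.z 0 0)‖ +
          ‖(l 0 a).F (Φ.z 0 0) - g.Xc‖ := by gcongr; exact norm_add_le _ _
      _ ≤ g.ρ2 + 2000 * η + ε := by nlinarith
  · intro s hs b hb hn
    have hs' : s ∈ Icc (-(30 * Φ.ℓ)) (30 * Φ.ℓ) := hs
    obtain ⟨hBm, hB0⟩ := hBJ _ (hσ1 s hs' b hb) b hb
    exact ⟨σ s b, hσ1 s hs' b hb, B (σ s b) b, hBm, hB0, fun h => hn ⟨hs', hb, h⟩, rfl⟩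
  · intro hV
    rw [hV1, hV]; ext p; simp

/-- recentring a family: `ContAll` and images -/
theorem g3a_cont {S : Type} [TopologicalSpace S] (Φ : Fam S) (h : Φ.ContAll) (sc : ℝ → ℝ)
    (r ηc : ℝ) (hc : ∀ b ∈ JJ, |sc b| + r ≤ Φ.ℓ)
    (hl : ∀ b ∈ JJ, ∀ b' ∈ JJ, |sc b - sc b'| ≤ ηc * |b - b'|) :
    Fam.ContAll
      { ℓ := r
        z := fun s b => Φ.z (s + sc b) b
        N := fun s b => Φ.N (s + sc b) b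
        y := fun s b => Φ.y (s + sc b) b } := by
  have hsc : ContinuousOn sc JJ := by
    have : LipschitzOnWith (Real.toNNReal ηc) sc JJ := by
      apply LipschitzOnWith.of_dist_le_mul
      intro x hx y hy
      rw [Real.dist_eq, Real.dist_eq]
      refine (hl x hx y hy).trans (mul_le_mul_of_nonneg_right ?_ (abs_nonneg _))
      exact Real.le_coe_toNNReal _
    exact this.continuousOn
  have hmap : ContinuousOn (fun p : ℝ × ℝ => ((p.1 + sc p.2, p.2) : ℝ × ℝ))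
      (Icc (-r) r ×ˢ JJ) := by
    apply ContinuousOn.prodMk
    · apply ContinuousOn.add continuousOn_fst
      exact hsc.comp continuousOn_snd (fun p hp => hp.2)
    · exact continuousOn_snd
  exact ContinuousOn.comp (g := fun p : ℝ × ℝ => Φ.y p.1 p.2) h hmap (fun p hp => by
    have h1 := hc p.2 hp.2
    have h2 := abs_le.mp (by linarith : |sc p.2| ≤ Φ.ℓ - r)
    refine ⟨⟨?_, ?_⟩, hp.2⟩
    · have := hp.1.1; simp only at *; linarith [h2.1]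
    · have := hp.1.2; simp only at *; linarith [h2.2])

theorem g3a_seg {r s c ℓ : ℝ} (hs : s ∈ Icc (-r) r) (hc : |c| + r ≤ ℓ) : s + c ∈ Icc (-ℓ) ℓ := by
  have h2 := abs_le.mp (by linarith : |c| ≤ ℓ - r)
  exact ⟨by linarith [hs.1, h2.1], by linarith [hs.2, h2.2]⟩

set_option maxHeartbeats 1000000 in
theorem growth_pr (g : GC) : ∃ η1 C : ℝ, 0 < η1 ∧ 1 ≤ C ∧ ∀ η0, 0 < η0 → η0 ≤ η1 →
    ∀ (Λ : Type) [Finite Λ] (l : Fin 2 → Λ → LD), Loops g Λ l → ∀ (κ0 : Pl → ℝ), ∃ ε0 : ℝ, 0 < ε0 ∧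
    ∀ (ε : ℝ) (sys : Sys), 0 ≤ ε → ε ≤ ε0 → Rl g Λ l κ0 ε sys →
    ∀ (R : sys.S → sys.S → Prop), (∀ x y u, R x y → sys.reach y u → R x u) →
    ∀ (Φ : Fam sys.S) (V : Set (ℝ × ℝ)),
      IsFam sys R V (1 / 10) 5 η0 g.L g.ν0 Φ → Marks 4 η0 V → Φ.ℓ ≤ g.ℓ0 →
      (∀ b ∈ JJ, Φ.z 0 b ∈ Metric.closedBall g.Xc g.ρs) →
      ∃ Φ' : Fam sys.S, IsFam sys R ∅ (1 / 10) (1 / 5) (C * ε) g.L g.ν0 Φ' ∧ Φ'.ContAll ∧
        Over g Φ' g.Xc (10 * g.ρ2) ∧ Φ'.im ⊆ Φ.im' V := by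
  obtain ⟨L1, C1, ε1, hL1, hC1, hε1, hstep⟩ := g3a_step g
  have hL := g.hL
  have hρ2 := g.h2
  have hℓρ := g.h0
  have hℓs := g.hs
  have hℓ0 : 0 < g.ℓ0 := by linarith
  refine ⟨min (min ε1 (g.ρ2 / 4000)) (min (1 / (2 * L1)) (1 / C1)), C1 * (6 + g.L), ?_, ?_, ?_⟩
  · refine lt_min (lt_min hε1 (by positivity)) (lt_min (by positivity) (by positivity))
  · nlinarith
  intro η0 hη0 hη1 Λ _ l hl κ0
  have hηε1 : η0 ≤ ε1 := hη1.trans ((min_le_left _ _).trans (min_le_left _ _))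
  have hηρ : η0 ≤ g.ρ2 / 4000 := hη1.trans ((min_le_left _ _).trans (min_le_right _ _))
  have hηL : η0 * L1 ≤ 1 / 2 := by
    have h1 : η0 ≤ 1 / (2 * L1) := hη1.trans ((min_le_right _ _).trans (min_le_left _ _))
    rw [le_div_iff₀ (by positivity)] at h1
    linarith
  have hηC : η0 * C1 ≤ 1 := by
    have h1 : η0 ≤ 1 / C1 := hη1.trans ((min_le_right _ _).trans (min_le_right _ _))
    rwa [le_div_iff₀ (by positivity)] at h1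
  refine ⟨min (min ε1 (g.ρ2 / 2)) (min (η0 / (3600 * C1)) (g.ℓ0 / (1000000 * C1))), ?_, ?_⟩
  · refine lt_min (lt_min hε1 (by positivity)) (lt_min (by positivity) (by positivity))
  intro ε sys hε hε0 hRl R hR Φ V hΦ hM hΦℓ hc
  have hεε1 : ε ≤ ε1 := hε0.trans ((min_le_left _ _).trans (min_le_left _ _))
  have hερ : ε ≤ g.ρ2 / 2 := hε0.trans ((min_le_left _ _).trans (min_le_right _ _))
  have hεη : 3600 * C1 * ε ≤ η0 := by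
    have h1 : ε ≤ η0 / (3600 * C1) := hε0.trans ((min_le_right _ _).trans (min_le_left _ _))
    rw [le_div_iff₀ (by positivity)] at h1
    linarith
  have hεℓ : 1000000 * C1 * ε ≤ g.ℓ0 := by
    have h1 : ε ≤ g.ℓ0 / (1000000 * C1) := hε0.trans ((min_le_right _ _).trans (min_le_right _ _))
    rw [le_div_iff₀ (by positivity)] at h1
    linarith
  have hCε0 : 0 ≤ C1 * ε := mul_nonneg (by linarith) hε
  have hCη : C1 * ε ≤ η0 := by nlinarith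
  have h0J : (0 : ℝ) ∈ JJ := ⟨by norm_num, by norm_num⟩
  -- one restricted step
  have hrs : ∀ (Φ : Fam sys.S) (V : Set (ℝ × ℝ)),
      IsFam sys R V (1 / 10) 5 η0 g.L g.ν0 Φ → Marks 4 η0 V → Φ.ℓ ≤ g.ℓ0 →
      (∀ b ∈ JJ, Φ.z 0 b ∈ Metric.closedBall g.Xc g.ρs) →
      ∃ (Φ1 : Fam sys.S) (V1 : Set (ℝ × ℝ)), Φ1.ℓ = min (30 * Φ.ℓ) g.ℓ0 ∧
        IsFam sys R V1 (1 / 10) (1 / 5) (C1 * ε) g.L g.ν0 Φ1 ∧ Marks 4 (3600 * C1 * ε) V1 ∧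
        (∀ b ∈ JJ, ‖Φ1.z 0 b - g.Xc‖ ≤ 2 * g.ρ2) ∧
        (∀ s ∈ Icc (-Φ1.ℓ) Φ1.ℓ, ∀ b ∈ JJ, (s, b) ∉ V1 → Φ1.y s b ∈ Φ.im' V) := by
    intro Φ V hΦ hM hΦℓ hc
    obtain ⟨Φ1, V1, e1, e2, e3, e4, e5, e6, -⟩ := hstep Λ l hl κ0 ε sys hε hεε1 hRl R hR Φ V η0
      hη0.le hηε1 hΦ hΦℓ hc 4 η0 hη0.le hηL hηC hM
    set r := min (30 * Φ.ℓ) g.ℓ0 with hr
    have hr0 : 0 < r := lt_min (by linarith [hΦ.pos]) hℓ0
    have hcr : ∀ b ∈ JJ, |(fun _ : ℝ => (0 : ℝ)) b| + r ≤ Φ1.ℓ := by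
      intro b _
      simp only [abs_zero, zero_add]
      rw [e1]; exact min_le_left _ _
    have hlr : ∀ b ∈ JJ, ∀ b' ∈ JJ,
        |(fun _ : ℝ => (0 : ℝ)) b - (fun _ : ℝ => (0 : ℝ)) b'| ≤ 0 * |b - b'| := by
      intro b _ b' _; simp
    have hrec := recentre sys R V1 (1 / 10) (1 / 5) (C1 * ε) g.L g.ν0 0 r Φ1 e2 (by norm_num)
      (by norm_num) (by norm_num) (by linarith) hCε0 (fun _ => 0) hr0 hcr hlr
    have hmr := marks_recentre 4 (3600 * C1 * ε) 0 V1 e3 (fun _ => 0) hlr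
    refine ⟨_, _, ?_, g3a_mono (η' := C1 * ε) hrec le_rfl le_rfl (by simp) (fun b _ s _ h => h),
      ?_, ?_, ?_⟩
    · rfl
    · simpa using hmr
    · intro b hb
      show ‖Φ1.z (0 + 0) b - g.Xc‖ ≤ _
      rw [add_zero]
      refine (e5 b hb).trans ?_
      linarith
    · intro s hs b hb hn
      show Φ1.y (s + 0) b ∈ _
      rw [add_zero]
      apply e6 s _ b hb
      · intro h; apply hn; exact ⟨hb, by simpa using h⟩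
      · have h1 : r ≤ Φ1.ℓ := by rw [e1]; exact min_le_left _ _
        have hs' : s ∈ Icc (-r) r := hs
        exact ⟨by linarith [hs'.1], by linarith [hs'.2]⟩
  -- iteration
  have hit : ∀ n : ℕ, ∀ (Φ : Fam sys.S) (V : Set (ℝ × ℝ)), g.ℓ0 ≤ 30 ^ n * Φ.ℓ →
      IsFam sys R V (1 / 10) 5 η0 g.L g.ν0 Φ → Marks 4 η0 V → Φ.ℓ ≤ g.ℓ0 →
      (∀ b ∈ JJ, Φ.z 0 b ∈ Metric.closedBall g.Xc g.ρs) →
      ∃ (Φ1 : Fam sys.S) (V1 : Set (ℝ × ℝ)), Φ1.ℓ = g.ℓ0 ∧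
        IsFam sys R V1 (1 / 10) (1 / 5) (C1 * ε) g.L g.ν0 Φ1 ∧ Marks 4 (3600 * C1 * ε) V1 ∧
        (∀ b ∈ JJ, ‖Φ1.z 0 b - g.Xc‖ ≤ 2 * g.ρ2) ∧
        (∀ s ∈ Icc (-Φ1.ℓ) Φ1.ℓ, ∀ b ∈ JJ, (s, b) ∉ V1 → Φ1.y s b ∈ Φ.im' V) := by
    intro n
    induction n with
    | zero =>
      intro Φ V h30 hΦ hM hΦℓ hc
      obtain ⟨Φ1, V1, e1, e2, e3, e4, e5⟩ := hrs Φ V hΦ hM hΦℓ hc
      refine ⟨Φ1, V1, ?_, e2, e3, e4, e5⟩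
      rw [e1, min_eq_right]
      rw [pow_zero, one_mul] at h30
      linarith
    | succ n ih =>
      intro Φ V h30 hΦ hM hΦℓ hc
      obtain ⟨Φ1, V1, e1, e2, e3, e4, e5⟩ := hrs Φ V hΦ hM hΦℓ hc
      have h1 : g.ℓ0 ≤ 30 ^ n * Φ1.ℓ := by
        rw [e1]
        rcases min_choice (30 * Φ.ℓ) g.ℓ0 with h | h
        · rw [h]; rw [pow_succ] at h30; linarith
        · rw [h]
          have : (1 : ℝ) ≤ 30 ^ n := one_le_pow₀ (by norm_num)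
          nlinarith
      have hM1 : Marks 4 η0 V1 := by
        obtain ⟨W, hW1, hW2⟩ := e3
        refine ⟨W, hW1, fun j p hp q hq => (hW2 j p hp q hq).trans ?_⟩
        exact mul_le_mul_of_nonneg_right hεη (abs_nonneg _)
      obtain ⟨Φ2, V2, f1, f2, f3, f4, f5⟩ := ih Φ1 V1 h1
        (g3a_mono e2 le_rfl (by norm_num) hCη (fun _ _ _ _ h => h)) hM1
        (by rw [e1]; exact min_le_right _ _) (by
          intro b hb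
          rw [Metric.mem_closedBall, dist_eq_norm]
          exact (e4 b hb).trans (by linarith))
      refine ⟨Φ2, V2, f1, f2, f3, f4, ?_⟩
      intro s hs b hb hn
      obtain ⟨s1, hs1, b1, hb1, hb1', hn1, hy⟩ := f5 s hs b hb hn
      rw [← hy]
      exact e5 s1 hs1 b1 hb1 hn1
  obtain ⟨n, hn⟩ : ∃ n : ℕ, g.ℓ0 ≤ 30 ^ n * Φ.ℓ := by
    obtain ⟨n, hn⟩ := pow_unbounded_of_one_lt (g.ℓ0 / Φ.ℓ) (by norm_num : (1 : ℝ) < 30)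
    refine ⟨n, ?_⟩
    rw [div_lt_iff₀ hΦ.pos] at hn
    exact hn.le
  obtain ⟨Φ2, V2, f1, f2, f3, f4, f5⟩ := hit n Φ V hn hΦ hM hΦℓ hc
  -- cut
  obtain ⟨c, hc1, hc2⟩ := marks_cut 4 (3600 * C1 * ε) g.ℓ0 hℓ0 V2 f3 (by push_cast; linarith)
  norm_num at hc1 hc2
  have hcr : ∀ b ∈ JJ, |(fun _ : ℝ => c) b| + g.ℓ0 / 20 ≤ Φ2.ℓ := by
    intro b _
    rw [f1]; exact hc1
  have hlr : ∀ b ∈ JJ, ∀ b' ∈ JJ, |(fun _ : ℝ => c) b - (fun _ : ℝ => c) b'| ≤ 0 * |b - b'| := by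
    intro b _ b' _; simp
  have hrec := recentre sys R V2 (1 / 10) (1 / 5) (C1 * ε) g.L g.ν0 0 (g.ℓ0 / 20) Φ2 f2
      (by norm_num) (by norm_num) (by norm_num) (by linarith) hCε0 (fun _ => c) (by positivity)
      hcr hlr
  set Φ3 : Fam sys.S :=
    { ℓ := g.ℓ0 / 20
      z := fun s b => Φ2.z (s + (fun _ => c) b) b
      N := fun s b => Φ2.N (s + (fun _ => c) b) b
      y := fun s b => Φ2.y (s + (fun _ => c) b) b } with hΦ3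
  have h3 : IsFam sys R ∅ (1 / 10) 5 η0 g.L g.ν0 Φ3 := by
    refine g3a_mono hrec le_rfl (by norm_num) (by simpa using hCη) ?_
    intro b hb s hs _ h
    have hs' : s ∈ Icc (-(g.ℓ0 / 20)) (g.ℓ0 / 20) := hs
    exact hc2 (s + c) b (by simpa using abs_le.mpr hs') hb h.2
  have h3z : ∀ b ∈ JJ, Φ3.z 0 b ∈ Metric.closedBall g.Xc g.ρs := by
    intro b hb
    rw [Metric.mem_closedBall, dist_eq_norm]
    show ‖Φ2.z (0 + c) b - g.Xc‖ ≤ _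
    rw [zero_add]
    have hcm : c ∈ Icc (-Φ2.ℓ) Φ2.ℓ := by
      rw [f1]; exact abs_le.mp (by linarith)
    have h0m : (0 : ℝ) ∈ Icc (-Φ2.ℓ) Φ2.ℓ := by rw [f1]; exact ⟨by linarith, by linarith⟩
    have h1 := g3a_along f2 (by norm_num) (by norm_num) hb h0m hcm
    rw [sub_zero] at h1
    have h2 := f4 b hb
    have h4 : |c| ≤ g.ℓ0 := by linarith
    calc ‖Φ2.z c b - g.Xc‖ ≤ ‖Φ2.z c b - Φ2.z 0 b‖ + ‖Φ2.z 0 b - g.Xc‖ :=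
          norm_sub_le_norm_sub_add_norm_sub _ _ _
      _ ≤ 5 * g.ℓ0 + 2 * g.ρ2 := by linarith
      _ ≤ _ := by linarith
  have hM3 : Marks 4 η0 (∅ : Set (ℝ × ℝ)) := ⟨fun _ => ∅, by simp, by simp⟩
  obtain ⟨Φ4, V4, k1, k2, k3, k4, k5, k6, k7⟩ := hstep Λ l hl κ0 ε sys hε hεε1 hRl R hR Φ3 ∅ η0
      hη0.le hηε1 h3 (by show g.ℓ0 / 20 ≤ g.ℓ0; linarith) h3z 4 η0 hη0.le hηL hηC hM3
  have hV4 := k7 rfl
  rw [hV4] at k2 k6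
  have hℓ4 : Φ4.ℓ = 3 / 2 * g.ℓ0 := by
    rw [k1]; show 30 * (g.ℓ0 / 20) = _; ring
  have hz4 : ∀ b ∈ JJ, ‖Φ4.z 0 b - g.Xc‖ ≤ 2 * g.ρ2 := fun b hb => (k5 b hb).trans (by linarith)
  have h0m4 : (0 : ℝ) ∈ Icc (-Φ4.ℓ) Φ4.ℓ := by rw [hℓ4]; exact ⟨by linarith, by linarith⟩
  set sc : ℝ → ℝ := fun b => g.Xc.1 - (Φ4.z 0 b).1 with hsc
  have hscb : ∀ b ∈ JJ, |sc b| ≤ 2 * g.ρ2 := by
    intro b hb
    have h1 := g3a_fst (Φ4.z 0 b - g.Xc)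
    rw [Prod.fst_sub, abs_sub_comm] at h1
    exact h1.trans (hz4 b hb)
  have hscr : ∀ b ∈ JJ, |sc b| + g.ℓ0 ≤ Φ4.ℓ := by
    intro b hb
    rw [hℓ4]
    linarith [hscb b hb]
  have hscl : ∀ b ∈ JJ, ∀ b' ∈ JJ, |sc b - sc b'| ≤ (C1 * ε) * |b - b'| := by
    intro b hb b' hb'
    have h1 := g3a_fst (Φ4.z 0 b' - Φ4.z 0 b)
    rw [Prod.fst_sub] at h1
    have h2 := (k2.blip 0 h0m4 b' hb' b hb).1
    have h3 : sc b - sc b' = (Φ4.z 0 b').1 - (Φ4.z 0 b).1 := by simp only [hsc]; ring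
    rw [h3, abs_sub_comm b b']
    exact h1.trans h2
  have hrec4 := recentre sys R ∅ (1 / 10) (1 / 5) (C1 * ε) g.L g.ν0 (C1 * ε) g.ℓ0 Φ4 k2
      (by norm_num) (by norm_num) (by norm_num) (by linarith) hCε0 sc hℓ0 hscr hscl
  have hcont4 := g3a_cont Φ4 k4 sc g.ℓ0 (C1 * ε) hscr hscl
  refine ⟨_, ?_, hcont4, ⟨rfl, ?_⟩, ?_⟩
  · refine g3a_mono hrec4 le_rfl le_rfl ?_ ?_
    · apply le_of_eq; ring
    · intro b _ s _ _ h; exact h.2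
  · intro b hb
    show (Φ4.z (0 + sc b) b).1 = g.Xc.1 ∧ |(Φ4.z (0 + sc b) b).2 - g.Xc.2| ≤ _
    rw [zero_add]
    have hsm : sc b ∈ Icc (-Φ4.ℓ) Φ4.ℓ := by
      have := hscr b hb
      exact abs_le.mp (by linarith)
    have hz2 : |(Φ4.z 0 b).2 - g.Xc.2| ≤ 2 * g.ρ2 := by
      have h1 := g3a_snd (Φ4.z 0 b - g.Xc)
      rw [Prod.snd_sub] at h1
      exact h1.trans (hz4 b hb)
    have hs2 := abs_le.mp (hscb b hb)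
    have hz2' := abs_le.mp hz2
    have hsce : sc b = g.Xc.1 - (Φ4.z 0 b).1 := rfl
    rcases le_total 0 (sc b) with h | h
    · obtain ⟨a1, a2, a3⟩ := k2.graph b hb 0 h0m4 (sc b) hsm h
      refine ⟨by linarith, ?_⟩
      rw [abs_le]; constructor <;> nlinarith [hs2.1, hs2.2, hz2'.1, hz2'.2]
    · obtain ⟨a1, a2, a3⟩ := k2.graph b hb (sc b) hsm 0 h0m4 h
      refine ⟨by linarith, ?_⟩
      rw [abs_le]; constructor <;> nlinarith [hs2.1, hs2.2, hz2'.1, hz2'.2]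
  · rintro x ⟨s, hs, b, hb, rfl⟩
    have hs' : s + sc b ∈ Icc (-Φ4.ℓ) Φ4.ℓ := g3a_seg (r := g.ℓ0) hs (hscr b hb)
    obtain ⟨s1, hs1, b1, hb1, hb1', -, hy⟩ := k6 (s + sc b) hs' b hb (by simp)
    show Φ4.y (s + sc b) b ∈ Φ.im' V
    rw [← hy]
    show Φ2.y (s1 + c) b1 ∈ Φ.im' V
    have hs1' : s1 ∈ Icc (-(g.ℓ0 / 20)) (g.ℓ0 / 20) := hs1
    apply f5 (s1 + c) _ b1 hb1
    · exact hc2 (s1 + c) b1 (by simpa using abs_le.mpr hs1') hb1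
    · exact g3a_seg (r := g.ℓ0 / 20) hs1' (hcr b1 hb1)

end

end Pool.Agent.HS.GROW

namespace Pool.Agent.HS
open Set Filter Topology Classical

theorem growth (g : GC) : ∃ η1 C : ℝ, 0 < η1 ∧ 1 ≤ C ∧ ∀ η0, 0 < η0 → η0 ≤ η1 →
    ∀ (Λ : Type) [Finite Λ] (l : Fin 2 → Λ → LD), Loops g Λ l → ∀ (κ0 : Pl → ℝ), ∃ ε0 : ℝ, 0 < ε0 ∧
    ∀ (ε : ℝ) (sys : Sys), 0 ≤ ε → ε ≤ ε0 → Rl g Λ l κ0 ε sys →
    ∀ (R : sys.S → sys.S → Prop), (∀ x y u, R x y → sys.reach y u → R x u) →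
    ∀ (Φ : Fam sys.S) (V : Set (ℝ × ℝ)),
      IsFam sys R V (1 / 10) 5 η0 g.L g.ν0 Φ → Marks 4 η0 V → Φ.ℓ ≤ g.ℓ0 →
      (∀ b ∈ JJ, Φ.z 0 b ∈ Metric.closedBall g.Xc g.ρs) →
      ∃ Φ' : Fam sys.S, IsFam sys R ∅ (1 / 10) (1 / 5) (C * ε) g.L g.ν0 Φ' ∧ Φ'.ContAll ∧
        Over g Φ' g.Xc (10 * g.ρ2) ∧ Φ'.im ⊆ Φ.im' V :=
  @Pool.Agent.HS.GROW.growth_pr g

end Pool.Agent.HS
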