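import Pool.Agent.Lib_helper60.HSF.D_WG
import Pool.Agent.Lib_helper60.HSF.G_STEP
import Pool.Agent.Lib_helper60.HSF.G_MARKS

/-!
# Project HS (MP_b9cbe4_an), block G3b: preimages and shadowing
-/

namespace Pool.Agent.HS

noncomputable section

open Set Filter Topology Classical

/-! ## The inverse matrices -/

def g3b_linv (i : Fin 2) (v : Pl) : Pl :=
  if i = 0 then (47 / 2 * v.1 - 315 / 2 * v.2, -(7 / 2 * v.1) + 47 / 2 * v.2)
  else ((39971 * v.1 - 9425 * v.2) / 1296, (-(169337 * v.1) + 39971 * v.2) / 1296)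

theorem g3b_linv_lin (i : Fin 2) (v : Pl) : g3b_linv i (lin i v) = v := by
  unfold g3b_linv lin
  split_ifs <;> ext <;> simp <;> ring

theorem g3b_linv_sub (i : Fin 2) (u v : Pl) : g3b_linv i (u - v) = g3b_linv i u - g3b_linv i v := by
  unfold g3b_linv
  split_ifs <;> ext <;> simp <;> ring

theorem g3b_lin_linv (i : Fin 2) (v : Pl) : lin i (g3b_linv i v) = v := by
  unfold g3b_linv lin
  split_ifs <;> ext <;> simp <;> ring

theorem g3b_abs1 (v : Pl) : |v.1| ≤ ‖v‖ := by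
  have := norm_fst_le v
  rwa [Real.norm_eq_abs] at this

theorem g3b_abs2 (v : Pl) : |v.2| ≤ ‖v‖ := by
  have := norm_snd_le v
  rwa [Real.norm_eq_abs] at this

theorem g3b_norm_le {v : Pl} {r : ℝ} (h1 : |v.1| ≤ r) (h2 : |v.2| ≤ r) : ‖v‖ ≤ r := by
  rw [Prod.norm_def, Real.norm_eq_abs, Real.norm_eq_abs]
  exact max_le h1 h2

theorem g3b_norm_add (v : Pl) : ‖v‖ ≤ |v.1| + |v.2| :=
  g3b_norm_le (by linarith [abs_nonneg v.2]) (by linarith [abs_nonneg v.1])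

theorem g3b_linv_norm (i : Fin 2) (v : Pl) : ‖g3b_linv i v‖ ≤ 182 * ‖v‖ := by
  have h1 := abs_le.1 (g3b_abs1 v)
  have h2 := abs_le.1 (g3b_abs2 v)
  have h0 := norm_nonneg v
  obtain ⟨a1, a2⟩ := h1
  obtain ⟨b1, b2⟩ := h2
  unfold g3b_linv
  split_ifs
  · apply g3b_norm_le
    · simp only
      rw [abs_le]; constructor <;> linarith
    · simp only
      rw [abs_le]; constructor <;> linarith
  · apply g3b_norm_le
    · simp only
      rw [abs_le]; constructor <;> linarith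
    · simp only
      rw [abs_le]; constructor <;> linarith

theorem g3b_consts (g : GC) : 0 < g.ρ2 ∧ 1000000 * g.ρ2 ≤ g.ℓ0 ∧ 1000 * g.ℓ0 ≤ g.ρs ∧
    10 * g.ρs ≤ g.ρ0 ∧ 0 < g.ℓ0 ∧ 0 < g.ρs ∧ 0 < g.ρ0 := by
  have := g.h2
  have h0 := g.h0
  have hs := g.hs
  have hρ := g.hρ
  refine ⟨this, h0, hs, hρ, by linarith, by linarith, by linarith⟩

/-- Preimages under the loops, near the centre. -/
theorem g3b_pre (g : GC) {Λ : Type} [Finite Λ] (l : Fin 2 → Λ → LD) (hl : Loops g Λ l)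
    (i : Fin 2) (Y : Pl) (hY : Y ∈ Metric.closedBall g.Xc g.ρs) :
    ∃ a, ∃ X : Pl, ‖X - g.Xc‖ ≤ 223 * g.ρ2 ∧ (l i a).F X = Y := by
  obtain ⟨h2, h0, hs, hρ, hℓ, hρs, hρ0⟩ := g3b_consts g
  obtain ⟨a, ha⟩ := hl.steer i g.Xc (Metric.mem_closedBall_self hρs.le) Y hY
  refine ⟨a, ?_⟩
  set F := (l i a).F with hF
  have hlin := (hl.lim i a).lin
  set r := 223 * g.ρ2 with hr
  have hr0 : 0 < r := by positivity
  have hsub : Metric.closedBall g.Xc r ⊆ Metric.closedBall g.Xc g.ρ0 :=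
    Metric.closedBall_subset_closedBall (by linarith)
  let T : Pl → Pl := fun X => X + g3b_linv i (Y - F X)
  have hT : ∀ X ∈ Metric.closedBall g.Xc r, ∀ X' ∈ Metric.closedBall g.Xc r,
      ‖T X - T X'‖ ≤ 182 / 1000 * ‖X - X'‖ := by
    intro X hX X' hX'
    have e : T X - T X' = - g3b_linv i (F X - F X' - lin i (X - X')) := by
      have e1 : g3b_linv i (F X - F X' - lin i (X - X')) =
          g3b_linv i (F X) - g3b_linv i (F X') - (X - X') := by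
        rw [g3b_linv_sub, g3b_linv_sub, g3b_linv_lin]
      simp only [T]
      rw [e1, g3b_linv_sub, g3b_linv_sub]
      abel
    rw [e, norm_neg]
    refine (g3b_linv_norm _ _).trans ?_
    have := hlin X (hsub hX) X' (hsub hX')
    linarith
  have hTc : ‖T g.Xc - g.Xc‖ ≤ 182 * g.ρ2 := by
    have : T g.Xc - g.Xc = g3b_linv i (Y - F g.Xc) := by simp only [T]; abel
    rw [this]
    refine (g3b_linv_norm _ _).trans ?_
    rw [← norm_neg, neg_sub]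
    linarith
  have hmaps : MapsTo T (Metric.closedBall g.Xc r) (Metric.closedBall g.Xc r) := by
    intro X hX
    rw [Metric.mem_closedBall, dist_eq_norm] at hX ⊢
    have h1 := hT X (by rwa [Metric.mem_closedBall, dist_eq_norm]) g.Xc
      (Metric.mem_closedBall_self hr0.le)
    have h3 : ‖T X - g.Xc‖ ≤ ‖T X - T g.Xc‖ + ‖T g.Xc - g.Xc‖ := norm_sub_le_norm_sub_add_norm_sub _ _ _
    have : 182 / 1000 * ‖X - g.Xc‖ ≤ 182 / 1000 * r := by gcongr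
    linarith
  have hcontr : ContractingWith (182 / 1000 : NNReal)
      (hmaps.restrict T (Metric.closedBall g.Xc r) (Metric.closedBall g.Xc r)) := by
    constructor
    · have : ((182 / 1000 : NNReal) : ℝ) < 1 := by norm_num
      exact_mod_cast this
    · apply LipschitzWith.of_dist_le_mul
      intro x y
      rw [Subtype.dist_eq, Subtype.dist_eq, dist_eq_norm, dist_eq_norm]
      have := hT x.1 x.2 y.1 y.2
      simpa using this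
  obtain ⟨X, hX, hfix, -⟩ := ContractingWith.exists_fixedPoint'
    (Metric.isClosed_closedBall (x := g.Xc) (ε := r)).isComplete hmaps hcontr
    (Metric.mem_closedBall_self hr0.le) (edist_ne_top _ _)
  refine ⟨X, ?_, ?_⟩
  · rwa [Metric.mem_closedBall, dist_eq_norm] at hX
  · have e : g3b_linv i (Y - F X) = 0 := by
      have : T X = X := hfix
      simp only [T] at this
      exact add_eq_left.1 this
    have e2 : Y - F X = 0 := by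
      have := g3b_lin_linv i (Y - F X)
      rw [e] at this
      rw [← this]
      unfold lin
      split_ifs <;> simp
    exact (sub_eq_zero.1 e2).symm

/-! ## One step -/

theorem g3b_dif {sys : Sys} {R : sys.S → sys.S → Prop} {V : Set (ℝ × ℝ)} {η LN ν0 : ℝ}
    {Φ : Fam sys.S} (h : IsFam sys R V (1 / 10) (1 / 5) η LN ν0 Φ) {s b : ℝ}
    (hs : s ∈ Icc (-Φ.ℓ) Φ.ℓ) (hb : b ∈ JJ) :
    (Φ.z s b).1 - (Φ.z 0 b).1 = s ∧
      ((0 ≤ s ∧ s / 10 ≤ (Φ.z s b).2 - (Φ.z 0 b).2 ∧ (Φ.z s b).2 - (Φ.z 0 b).2 ≤ s / 5) ∨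
        (s ≤ 0 ∧ s / 5 ≤ (Φ.z s b).2 - (Φ.z 0 b).2 ∧ (Φ.z s b).2 - (Φ.z 0 b).2 ≤ s / 10)) := by
  have h0 : (0:ℝ) ∈ Icc (-Φ.ℓ) Φ.ℓ := ⟨by linarith [h.pos], h.pos.le⟩
  rcases le_total 0 s with hs0 | hs0
  · obtain ⟨g1, g2, g3⟩ := h.graph b hb 0 h0 s hs hs0
    exact ⟨by linarith, Or.inl ⟨hs0, by linarith, by linarith⟩⟩
  · obtain ⟨g1, g2, g3⟩ := h.graph b hb s hs 0 h0 hs0
    exact ⟨by linarith, Or.inr ⟨hs0, by linarith, by linarith⟩⟩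

theorem g3b_off (i : Fin 2) (D t v' v ε e1 e2 : ℝ) (hv' : |v'| ≤ v) (hε : 0 ≤ ε)
    (ht : (0 ≤ D ∧ D / 10 ≤ t ∧ t ≤ D / 5) ∨ (D ≤ 0 ∧ D / 5 ≤ t ∧ t ≤ D / 10))
    (h1 : |e1| ≤ (|D| + |v' + t|) / 1000 + ε) (h2 : |e2| ≤ (|D| + |v' + t|) / 1000 + ε)
    (h0 : (lin i (D, v' + t)).1 + e1 = 0) :
    |(lin i (D, v' + t)).2 + e2| ≤ v / 10 + 20 * ε := by
  obtain ⟨w1, w2⟩ := abs_le.1 hv'
  have hv : 0 ≤ v := (abs_nonneg v').trans hv'
  have hy : |v' + t| ≤ v + |t| := (abs_add_le _ _).trans (by linarith)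
  have ht' : |t| ≤ |D| / 5 := by
    rcases ht with ⟨a, b, c⟩ | ⟨a, b, c⟩
    · rw [abs_of_nonneg a, abs_of_nonneg (by linarith)]; linarith
    · rw [abs_of_nonpos a, abs_of_nonpos (by linarith)]; linarith
  have h1' : |e1| ≤ (6 / 5 * |D| + v) / 1000 + ε := by linarith
  have h2' : |e2| ≤ (6 / 5 * |D| + v) / 1000 + ε := by linarith
  obtain ⟨p1, p2⟩ := abs_le.1 h1'
  obtain ⟨q1, q2⟩ := abs_le.1 h2'
  unfold lin at h0 ⊢
  rw [abs_le]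
  split_ifs at h0 ⊢ with hi
  · simp only at h0 ⊢
    rcases ht with ⟨a, b, c⟩ | ⟨a, b, c⟩
    · rw [abs_of_nonneg a] at p1 p2 q1 q2
      constructor <;> linarith
    · rw [abs_of_nonpos a] at p1 p2 q1 q2
      constructor <;> linarith
  · simp only at h0 ⊢
    rcases ht with ⟨a, b, c⟩ | ⟨a, b, c⟩
    · rw [abs_of_nonneg a] at p1 p2 q1 q2
      constructor <;> linarith
    · rw [abs_of_nonpos a] at p1 p2 q1 q2
      constructor <;> linarith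

theorem g3b_one (g : GC) : ∃ C εs : ℝ, 1 ≤ C ∧ 0 < εs ∧ ∀ (Λ : Type) [Finite Λ]
    (l : Fin 2 → Λ → LD), Loops g Λ l → ∀ (κ0 : Pl → ℝ) (ε : ℝ) (sys : Sys), 0 ≤ ε → ε ≤ εs →
      ε ≤ g.ρ2 → Rl g Λ l κ0 ε sys →
      ∀ (R : sys.S → sys.S → Prop), (∀ x y u, R x y → sys.reach y u → R x u) →
      ∀ (η : ℝ), 0 ≤ η → η ≤ εs →
      ∀ (Φ : Fam sys.S), IsFam sys R ∅ (1 / 10) (1 / 5) η g.L g.ν0 Φ → g.ℓ0 / 2 ≤ Φ.ℓ →
        Φ.ℓ ≤ g.ℓ0 →
      ∀ (X : Pl) (v : ℝ), ‖X - g.Xc‖ ≤ 223 * g.ρ2 → 0 ≤ v → v ≤ 300 * g.ρ2 →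
        (∀ b ∈ JJ, (Φ.z 0 b).1 = X.1 ∧ |(Φ.z 0 b).2 - X.2| ≤ v) →
      ∀ (i : Fin 2) (a : Λ), ∃ Φ' : Fam sys.S,
        IsFam sys R ∅ (slo i) (shi i) (C * ε) g.L g.ν0 Φ' ∧ Φ'.ContAll ∧
          Over g Φ' ((l i a).F X) (v / 10 + 20 * ε) ∧ Φ'.im ⊆ Φ.im' ∅ := by
  obtain ⟨h2, h0, hs, hρ, hℓ, hρs, hρ0⟩ := g3b_consts g
  obtain ⟨L1, C1, εs, hL1, hC1, hεs, hst⟩ := step g.L g.L g.ν0 g.hL le_rfl g.hν
  have hL := g.hL
  refine ⟨(6 + g.L) * C1, εs, by nlinarith, hεs, ?_⟩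
  intro Λ _ l hl κ0 ε sys hε hεε hερ hRl R hR η hη hηε Φ hΦ hΦ1 hΦ2 X v hX hv hv3 hz i a
  obtain ⟨w, hw, hRw⟩ := hRl.w i a
  have hΦ5 : IsFam sys R ∅ (1 / 10) 5 η g.L g.ν0 Φ :=
    { pos := hΦ.pos
      graph := fun b hb s hs t ht hst => by
        obtain ⟨g1, g2, g3⟩ := hΦ.graph b hb s hs t ht hst
        exact ⟨g1, g2, by linarith⟩
      blip := hΦ.blip
      slip := hΦ.slip
      dir := hΦ.dir
      cont := hΦ.cont
      rel := hΦ.rel }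
  have hX' := hX
  have x1 := g3b_abs1 (X - g.Xc)
  have x2 := g3b_abs2 (X - g.Xc)
  -- the points of the family relative to `X`
  have hpt : ∀ s ∈ Icc (-Φ.ℓ) Φ.ℓ, ∀ b ∈ JJ, ‖Φ.z s b - X‖ ≤ |s| + v := by
    intro s hs b hb
    obtain ⟨z1, z2⟩ := hz b hb
    obtain ⟨d1, d2⟩ := g3b_dif hΦ hs hb
    apply g3b_norm_le
    · rw [Prod.fst_sub]
      have : (Φ.z s b).1 - X.1 = s := by linarith
      rw [this]; linarith
    · rw [Prod.snd_sub]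
      have e : (Φ.z s b).2 - X.2 = ((Φ.z s b).2 - (Φ.z 0 b).2) + ((Φ.z 0 b).2 - X.2) := by ring
      rw [e]
      refine (abs_add_le _ _).trans ?_
      have : |(Φ.z s b).2 - (Φ.z 0 b).2| ≤ |s| := by
        rcases d2 with ⟨a1, a2, a3⟩ | ⟨a1, a2, a3⟩
        · rw [abs_of_nonneg a1, abs_of_nonneg (by linarith)]; linarith
        · rw [abs_of_nonpos a1, abs_of_nonpos (by linarith)]; linarith
      linarith
  have hball : ∀ s ∈ Icc (-Φ.ℓ) Φ.ℓ, ∀ b ∈ JJ, Φ.z s b ∈ Metric.closedBall g.Xc g.ρ0 := by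
    intro s hs b hb
    rw [Metric.mem_closedBall, dist_eq_norm]
    have h1 := hpt s hs b hb
    have h3 : |s| ≤ Φ.ℓ := abs_le.2 hs
    have h4 : ‖Φ.z s b - g.Xc‖ ≤ ‖Φ.z s b - X‖ + ‖X - g.Xc‖ :=
      norm_sub_le_norm_sub_add_norm_sub _ _ _
    linarith
  have hXball : X ∈ Metric.closedBall g.Xc g.ρ0 := by
    rw [Metric.mem_closedBall, dist_eq_norm]; linarith
  obtain ⟨B, σ, hB, hBl, hσ, hσ0, hσl, -, -, hnew⟩ :=
    hst sys κ0 i (Metric.closedBall g.Xc g.ρ0) (l i a) w ε η R ∅ Φ hε hεε hη hηε hRl.K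
      (hl.lim i a) (hl.lim i a).lipθ hw hΦ5 hball
  obtain ⟨hF1, hC1all⟩ := hnew (fun _ => sys.reach) R ∅ hRw (by
    intro s' _ b' _ _
    exact ⟨by simp, fun x y u hxy hyu => hR x y u hxy hyu⟩)
  -- membership facts
  have hBJ : ∀ s ∈ Icc (-Φ.ℓ) Φ.ℓ, ∀ b' ∈ JJ, B s b' ∈ JJ ∧ B s b' ≠ 0 := by
    intro s hs b' hb'
    obtain ⟨b1, b2, -⟩ := hB s hs b' hb'
    obtain ⟨b3, b4⟩ := abs_le.1 b2
    refine ⟨⟨by linarith, by linarith⟩, ?_⟩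
    intro h
    rw [h, abs_zero] at b1
    norm_num at b1
  have hΦpos := hΦ.pos
  set Φ1 : Fam sys.S :=
    { ℓ := 30 * Φ.ℓ
      z := fun s' b' => w.P (Φ.z (σ s' b') (B (σ s' b') b'), B (σ s' b') b', b')
      N := fun s' b' => w.Θ' (Φ.z (σ s' b') (B (σ s' b') b'), B (σ s' b') b', b')
      y := fun s' b' => Φ.y (σ s' b') (B (σ s' b') b') } with hΦ1def
  have hz1 : ∀ s' b', Φ1.z s' b' = w.P (Φ.z (σ s' b') (B (σ s' b') b'), B (σ s' b') b', b') :=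
    fun _ _ => rfl
  have hl1 : Φ1.ℓ = 30 * Φ.ℓ := rfl
  -- the error
  set Y := (l i a).F X with hY
  have herr : ∀ s ∈ Icc (-Φ.ℓ) Φ.ℓ, ∀ b ∈ JJ, ∀ b' ∈ JJ,
      ‖w.P (Φ.z s b, b, b') - Y - lin i (Φ.z s b - X)‖ ≤ ‖Φ.z s b - X‖ / 1000 + ε := by
    intro s hs b hb b' hb'
    have e1 := hw.P.1 (Φ.z s b, b, b') ⟨hball s hs b hb, hb, hb'⟩
    have e2 := (hl.lim i a).lin (Φ.z s b) (hball s hs b hb) X hXball
    have e : w.P (Φ.z s b, b, b') - Y - lin i (Φ.z s b - X) =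
        (w.P (Φ.z s b, b, b') - (l i a).F (Φ.z s b)) +
          ((l i a).F (Φ.z s b) - (l i a).F X - lin i (Φ.z s b - X)) := by
      rw [hY]; abel
    rw [e]
    refine (norm_add_le _ _).trans ?_
    simp only at e1
    linarith
  -- the recentring function
  set sc : ℝ → ℝ := fun b => Y.1 - (Φ1.z 0 b).1 with hsc
  have h0m : (0:ℝ) ∈ Icc (-(30 * Φ.ℓ)) (30 * Φ.ℓ) := ⟨by linarith, by linarith⟩
  have hscb : ∀ b ∈ JJ, |sc b| ≤ g.ℓ0 := by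
    intro b hb
    have hσm := hσ 0 h0m b hb
    rw [hσ0 b hb] at hσm
    obtain ⟨hBm, -⟩ := hBJ 0 hσm b hb
    have e1 := herr 0 hσm (B 0 b) hBm b hb
    have e2 := hpt 0 hσm (B 0 b) hBm
    rw [abs_zero, zero_add] at e2
    obtain ⟨z1, z2⟩ := hz (B 0 b) hBm
    have e3 := g3b_abs1 (w.P (Φ.z 0 (B 0 b), B 0 b, b) - Y - lin i (Φ.z 0 (B 0 b) - X))
    have e4 : (lin i (Φ.z 0 (B 0 b) - X)).1 ≤ 158 * v ∧
        -(158 * v) ≤ (lin i (Φ.z 0 (B 0 b) - X)).1 := by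
      obtain ⟨z3, z4⟩ := abs_le.1 z2
      unfold lin
      split_ifs
      · simp only [Prod.fst_sub, Prod.snd_sub]
        rw [z1]
        constructor <;> linarith
      · simp only [Prod.fst_sub, Prod.snd_sub]
        rw [z1]
        constructor <;> linarith
    have e5 : sc b = Y.1 - (w.P (Φ.z 0 (B 0 b), B 0 b, b)).1 := by
      simp only [hsc, hz1, hσ0 b hb]
    rw [Prod.fst_sub, Prod.fst_sub] at e3
    obtain ⟨f1, f2⟩ := abs_le.1 (e3.trans e1)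
    rw [e5, abs_le]
    constructor <;> linarith
  have hscl : ∀ b ∈ JJ, ∀ b' ∈ JJ, |sc b - sc b'| ≤ C1 * ε * |b - b'| := by
    intro b hb b' hb'
    have h1 := (hF1.blip 0 (by rw [hl1]; exact h0m) b hb b' hb').1
    have h3 := (g3b_abs1 _).trans h1
    rw [Prod.fst_sub] at h3
    have e : sc b - sc b' = -((Φ1.z 0 b).1 - (Φ1.z 0 b').1) := by simp only [hsc]; ring
    rw [e, abs_neg]
    exact h3
  have hshi : shi i ≤ 5 ∧ 0 ≤ slo i ∧ slo i ≤ shi i := by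
    unfold shi slo
    split_ifs <;> norm_num
  have hsum : ∀ b ∈ JJ, ∀ s, |s| ≤ g.ℓ0 → s + sc b ∈ Icc (-(30 * Φ.ℓ)) (30 * Φ.ℓ) := by
    intro b hb s hs
    obtain ⟨s1, s2⟩ := abs_le.1 (hscb b hb)
    obtain ⟨s3, s4⟩ := abs_le.1 hs
    exact ⟨by linarith, by linarith⟩
  have hrec := recentre sys R ∅ (slo i) (shi i) (C1 * ε) g.L g.ν0 (C1 * ε) g.ℓ0 Φ1 hF1
    hshi.2.1 hshi.2.2 hshi.1 (by linarith) (by positivity) sc hℓ
    (fun b hb => by rw [hl1]; linarith [hscb b hb]) hscl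
  have hemp : {p : ℝ × ℝ | p.2 ∈ JJ ∧ (p.1 + sc p.2, p.2) ∈ (∅ : Set (ℝ × ℝ))} = ∅ := by
    ext p; simp
  rw [hemp] at hrec
  have hce : C1 * ε + (5 + g.L) * (C1 * ε) = (6 + g.L) * C1 * ε := by ring
  rw [hce] at hrec
  refine ⟨_, hrec, ?_, ⟨rfl, ?_⟩, ?_⟩
  · -- continuity
    unfold Fam.ContAll at hC1all ⊢
    have hm : ContinuousOn (fun p : ℝ × ℝ => (p.1 + sc p.2, p.2)) (Icc (-g.ℓ0) g.ℓ0 ×ˢ JJ) := by
      have hcs : ContinuousOn sc JJ := by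
        have : LipschitzOnWith (Real.toNNReal (C1 * ε)) sc JJ := by
          apply LipschitzOnWith.of_dist_le_mul
          intro x hx y hy
          rw [Real.dist_eq, Real.dist_eq, Real.coe_toNNReal _ (by positivity)]
          exact hscl x hx y hy
        exact this.continuousOn
      have h3 : ContinuousOn (fun p : ℝ × ℝ => sc p.2) (Icc (-g.ℓ0) g.ℓ0 ×ˢ JJ) :=
        hcs.comp continuousOn_snd (fun p hp => hp.2)
      exact (continuousOn_fst.add h3).prodMk continuousOn_snd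
    have hmt : MapsTo (fun p : ℝ × ℝ => (p.1 + sc p.2, p.2)) (Icc (-g.ℓ0) g.ℓ0 ×ˢ JJ)
        (Icc (-Φ1.ℓ) Φ1.ℓ ×ˢ JJ) := by
      intro p hp
      exact ⟨hsum p.2 hp.2 p.1 (abs_le.2 hp.1), hp.2⟩
    exact hC1all.comp hm hmt
  · -- over `Y`
    intro b hb
    have hm := hsum b hb 0 (by rw [abs_zero]; exact hℓ.le)
    have hg1 : (Φ1.z (0 + sc b) b).1 = Y.1 := by
      rcases le_total 0 (0 + sc b) with hc | hc
      · have := (hF1.graph b hb 0 (by rw [hl1]; exact h0m) (0 + sc b) (by rw [hl1]; exact hm) hc).1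
        have e : sc b = Y.1 - (Φ1.z 0 b).1 := rfl
        linarith
      · have := (hF1.graph b hb (0 + sc b) (by rw [hl1]; exact hm) 0 (by rw [hl1]; exact h0m) hc).1
        have e : sc b = Y.1 - (Φ1.z 0 b).1 := rfl
        linarith
    refine ⟨hg1, ?_⟩
    have hσm := hσ (0 + sc b) hm b hb
    set s1 := σ (0 + sc b) b with hs1
    obtain ⟨hBm, -⟩ := hBJ s1 hσm b hb
    set B1 := B s1 b with hB1
    have hz2 : Φ1.z (0 + sc b) b = w.P (Φ.z s1 B1, B1, b) := rfl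
    have e1 := herr s1 hσm B1 hBm b hb
    obtain ⟨z1, z2⟩ := hz B1 hBm
    obtain ⟨d1, d2⟩ := g3b_dif hΦ hσm hBm
    set u := Φ.z s1 B1 - X with hu
    have hu1 : u.1 = s1 := by
      rw [hu, Prod.fst_sub]; linarith
    have hu2 : u.2 = ((Φ.z 0 B1).2 - X.2) + ((Φ.z s1 B1).2 - (Φ.z 0 B1).2) := by
      rw [hu, Prod.snd_sub]; ring
    have hue : u = (s1, ((Φ.z 0 B1).2 - X.2) + ((Φ.z s1 B1).2 - (Φ.z 0 B1).2)) :=
      Prod.ext hu1 hu2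
    set E := w.P (Φ.z s1 B1, B1, b) - Y - lin i u with hE
    have hun : ‖u‖ ≤ |s1| + |((Φ.z 0 B1).2 - X.2) + ((Φ.z s1 B1).2 - (Φ.z 0 B1).2)| := by
      have := g3b_norm_add u
      rwa [hu1, hu2] at this
    have hE1 : (lin i u).1 + E.1 = 0 := by
      rw [hE, Prod.fst_sub, Prod.fst_sub, ← hz2, hg1]; ring
    have hoff := g3b_off i s1 ((Φ.z s1 B1).2 - (Φ.z 0 B1).2) ((Φ.z 0 B1).2 - X.2) v ε E.1 E.2
      z2 hε d2 ((g3b_abs1 E).trans (e1.trans (by linarith)))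
      ((g3b_abs2 E).trans (e1.trans (by linarith))) (by rw [← hue]; exact hE1)
    rw [← hue] at hoff
    have hfin : (Φ1.z (0 + sc b) b).2 - Y.2 = (lin i u).2 + E.2 := by
      rw [hE, Prod.snd_sub, Prod.snd_sub, ← hz2]; ring
    show |(Φ1.z (0 + sc b) b).2 - Y.2| ≤ _
    rw [hfin]
    exact hoff
  · -- image
    rintro x ⟨s, hs, b, hb, rfl⟩
    have hm := hsum b hb s (abs_le.2 hs)
    have hσm := hσ (s + sc b) hm b hb
    obtain ⟨hBm, hB0⟩ := hBJ _ hσm b hb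
    exact ⟨σ (s + sc b) b, hσm, B (σ (s + sc b) b) b, hBm, hB0, by simp, rfl⟩

theorem g3b_over_mono {g : GC} {S : Type} {Φ : Fam S} {X : Pl} {δ δ' : ℝ} (h : Over g Φ X δ)
    (hδ : δ ≤ δ') : Over g Φ X δ' :=
  ⟨h.1, fun b hb => ⟨(h.2 b hb).1, (h.2 b hb).2.trans hδ⟩⟩

theorem g3b_im_im' {S : Type} {Φ Φ' Φ'' : Fam S} (h1 : Φ''.im ⊆ Φ'.im' ∅) (h2 : Φ'.im ⊆ Φ.im' ∅) :
    Φ''.im ⊆ Φ.im' ∅ := by
  intro x hx
  obtain ⟨s, hs, b, hb, -, -, rfl⟩ := h1 hx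
  exact h2 ⟨s, hs, b, hb, rfl⟩

theorem shadow_pr (g : GC) : ∃ η1 C : ℝ, 0 < η1 ∧ 1 ≤ C ∧ ∀ (Λ : Type) [Finite Λ]
    (l : Fin 2 → Λ → LD), Loops g Λ l → ∀ (κ0 : Pl → ℝ) (δ : ℝ), 0 < δ → ∃ ε0 : ℝ, 0 < ε0 ∧
    ∀ (ε : ℝ) (sys : Sys), 0 ≤ ε → ε ≤ ε0 → Rl g Λ l κ0 ε sys →
    ∀ (R : sys.S → sys.S → Prop), (∀ x y u, R x y → sys.reach y u → R x u) →
    ∀ (Φ : Fam sys.S), IsFam sys R ∅ (1 / 10) (1 / 5) η1 g.L g.ν0 Φ →
      Over g Φ g.Xc (10 * g.ρ2) →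
      ∀ Xe ∈ Metric.closedBall g.Xc g.ρs, ∀ i : Fin 2,
      ∃ Φ' : Fam sys.S, IsFam sys R ∅ (slo i) (shi i) (C * ε) g.L g.ν0 Φ' ∧ Φ'.ContAll ∧
        Over g Φ' Xe δ ∧ Φ'.im ⊆ Φ.im' ∅ := by
  obtain ⟨h2, h0, hs, hρ, hℓ, hρs, hρ0⟩ := g3b_consts g
  obtain ⟨C, εs, hC, hεs, hone⟩ := g3b_one g
  refine ⟨εs, C, hεs, hC, ?_⟩
  intro Λ _ l hl κ0 δ hδ
  obtain ⟨n, hn⟩ : ∃ n : ℕ, (1 / 10 : ℝ) ^ (n + 1) * (300 * g.ρ2) ≤ δ / 2 := by
    obtain ⟨n, hn⟩ := exists_pow_lt_of_lt_one (show 0 < δ / 2 / (300 * g.ρ2) by positivity)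
      (show (1 / 10 : ℝ) < 1 by norm_num)
    refine ⟨n, ?_⟩
    have h3 : (1 / 10 : ℝ) ^ (n + 1) ≤ δ / 2 / (300 * g.ρ2) := by
      refine le_trans ?_ hn.le
      rw [pow_succ]
      have : (0:ℝ) < (1 / 10) ^ n := by positivity
      linarith
    calc (1 / 10 : ℝ) ^ (n + 1) * (300 * g.ρ2) ≤ δ / 2 / (300 * g.ρ2) * (300 * g.ρ2) := by
          gcongr
      _ = δ / 2 := by field_simp
  have hC0 : 0 < C := by linarith
  refine ⟨min (min εs (εs / C)) (min g.ρ2 (δ / 60)), by positivity, ?_⟩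
  intro ε sys hε hεm hRl R hR Φ hΦ hΦo Xe hXe i
  obtain ⟨hm1, hm2⟩ := le_min_iff.1 hεm
  obtain ⟨hε1, hε2⟩ := le_min_iff.1 hm1
  obtain ⟨hε3, hε4⟩ := le_min_iff.1 hm2
  have hε2' : C * ε ≤ εs := by
    have := (le_div_iff₀ hC0).1 hε2
    linarith
  have key : ∀ k : ℕ, ∀ Y ∈ Metric.closedBall g.Xc g.ρs, ∀ i : Fin 2,
      ∃ Φ' : Fam sys.S, IsFam sys R ∅ (slo i) (shi i) (C * ε) g.L g.ν0 Φ' ∧ Φ'.ContAll ∧
        Over g Φ' Y ((1 / 10) ^ (k + 1) * (300 * g.ρ2) + 30 * ε) ∧ Φ'.im ⊆ Φ.im' ∅ := by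
    intro k
    induction k with
    | zero =>
      intro Y hY i
      obtain ⟨a, X, hX, hXY⟩ := g3b_pre g l hl i Y hY
      have x1 := (g3b_abs1 (X - g.Xc)).trans hX
      have x2 := (g3b_abs2 (X - g.Xc)).trans hX
      rw [Prod.fst_sub] at x1
      rw [Prod.snd_sub] at x2
      obtain ⟨hΦℓ, hΦz⟩ := hΦo
      have hrec := recentre sys R ∅ (1 / 10) (1 / 5) εs g.L g.ν0 0 (g.ℓ0 / 2) Φ hΦ
        (by norm_num) (by norm_num) (by norm_num) (by linarith [g.hL]) hεs.le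
        (fun _ => X.1 - g.Xc.1) (by linarith)
        (fun b hb => by rw [hΦℓ]; linarith)
        (fun b _ b' _ => by simp)
      have hemp : {p : ℝ × ℝ | p.2 ∈ JJ ∧
          (p.1 + (fun _ : ℝ => X.1 - g.Xc.1) p.2, p.2) ∈ (∅ : Set (ℝ × ℝ))} = ∅ := by
        ext p; simp
      rw [hemp] at hrec
      have hce : εs + (5 + g.L) * 0 = εs := by ring
      rw [hce] at hrec
      set Φ1 : Fam sys.S :=
        { ℓ := g.ℓ0 / 2
          z := fun s b => Φ.z (s + (fun _ : ℝ => X.1 - g.Xc.1) b) b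
          N := fun s b => Φ.N (s + (fun _ : ℝ => X.1 - g.Xc.1) b) b
          y := fun s b => Φ.y (s + (fun _ : ℝ => X.1 - g.Xc.1) b) b } with hΦ1
      have hsm : X.1 - g.Xc.1 ∈ Icc (-Φ.ℓ) Φ.ℓ := by
        rw [hΦℓ]
        obtain ⟨a1, a2⟩ := abs_le.1 x1
        exact ⟨by linarith, by linarith⟩
      have hz1 : ∀ b ∈ JJ, (Φ1.z 0 b).1 = X.1 ∧ |(Φ1.z 0 b).2 - X.2| ≤ 300 * g.ρ2 := by
        intro b hb
        obtain ⟨z1, z2⟩ := hΦz b hb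
        obtain ⟨d1, d2⟩ := g3b_dif hΦ hsm hb
        have e : Φ1.z 0 b = Φ.z (X.1 - g.Xc.1) b := by
          show Φ.z (0 + (X.1 - g.Xc.1)) b = _
          rw [zero_add]
        rw [e]
        refine ⟨by linarith, ?_⟩
        obtain ⟨a1, a2⟩ := abs_le.1 x1
        obtain ⟨a3, a4⟩ := abs_le.1 x2
        obtain ⟨a5, a6⟩ := abs_le.1 z2
        rw [abs_le]
        rcases d2 with ⟨c1, c2, c3⟩ | ⟨c1, c2, c3⟩
        · constructor <;> linarith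
        · constructor <;> linarith
      obtain ⟨Φ', f1, f2, f3, f4⟩ := hone Λ l hl κ0 ε sys hε hε1 hε3 hRl R hR εs hεs.le le_rfl Φ1
        hrec le_rfl (by show g.ℓ0 / 2 ≤ g.ℓ0; linarith) X (300 * g.ρ2) hX (by positivity) le_rfl
        hz1 i a
      rw [hXY] at f3
      refine ⟨Φ', f1, f2, g3b_over_mono f3 (by norm_num; linarith), ?_⟩
      intro x hx
      obtain ⟨s, hs, b, hb, hb0, -, rfl⟩ := f4 hx
      refine ⟨s + (X.1 - g.Xc.1), ?_, b, hb, hb0, by simp, rfl⟩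
      rw [hΦℓ]
      obtain ⟨a1, a2⟩ := abs_le.1 x1
      have hs1 : -(g.ℓ0 / 2) ≤ s := hs.1
      have hs2 : s ≤ g.ℓ0 / 2 := hs.2
      exact ⟨by linarith, by linarith⟩
    | succ k ih =>
      intro Y hY i
      obtain ⟨a, X, hX, hXY⟩ := g3b_pre g l hl i Y hY
      have hXs : X ∈ Metric.closedBall g.Xc g.ρs := by
        rw [Metric.mem_closedBall, dist_eq_norm]; linarith
      obtain ⟨Φ1, e1, e2, e3, e4⟩ := ih X hXs 0
      have hslo : slo 0 = 1 / 10 := by simp [slo]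
      have hshi : shi 0 = 1 / 5 := by simp [shi]
      rw [hslo, hshi] at e1
      obtain ⟨hl1, hz1⟩ := e3
      have hp : (1 / 10 : ℝ) ^ (k + 1) ≤ 1 / 10 := by
        rw [pow_succ]
        have : (1 / 10 : ℝ) ^ k ≤ 1 := pow_le_one₀ (by norm_num) (by norm_num)
        linarith
      have hp0 : (0 : ℝ) < (1 / 10) ^ (k + 1) := by positivity
      have hv : (1 / 10 : ℝ) ^ (k + 1) * (300 * g.ρ2) + 30 * ε ≤ 300 * g.ρ2 := by
        have : (1 / 10 : ℝ) ^ (k + 1) * (300 * g.ρ2) ≤ 1 / 10 * (300 * g.ρ2) := by gcongr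
        linarith
      obtain ⟨Φ', f1, f2, f3, f4⟩ := hone Λ l hl κ0 ε sys hε hε1 hε3 hRl R hR (C * ε)
        (by positivity) hε2' Φ1 e1 (by rw [hl1]; linarith) hl1.le X _ hX (by positivity) hv hz1 i a
      rw [hXY] at f3
      refine ⟨Φ', f1, f2, g3b_over_mono f3 ?_, g3b_im_im' f4 e4⟩
      rw [pow_succ (1 / 10 : ℝ) (k + 1)]
      linarith
  obtain ⟨Φ', f1, f2, f3, f4⟩ := key n Xe hXe i
  exact ⟨Φ', f1, f2, g3b_over_mono f3 (by linarith), f4⟩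

end

end Pool.Agent.HS

namespace Pool.Agent.HS
open Set Filter Topology Classical

theorem shadow (g : GC) : ∃ η1 C : ℝ, 0 < η1 ∧ 1 ≤ C ∧ ∀ (Λ : Type) [Finite Λ]
    (l : Fin 2 → Λ → LD), Loops g Λ l → ∀ (κ0 : Pl → ℝ) (δ : ℝ), 0 < δ → ∃ ε0 : ℝ, 0 < ε0 ∧
    ∀ (ε : ℝ) (sys : Sys), 0 ≤ ε → ε ≤ ε0 → Rl g Λ l κ0 ε sys →
    ∀ (R : sys.S → sys.S → Prop), (∀ x y u, R x y → sys.reach y u → R x u) →
    ∀ (Φ : Fam sys.S), IsFam sys R ∅ (1 / 10) (1 / 5) η1 g.L g.ν0 Φ →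
      Over g Φ g.Xc (10 * g.ρ2) →
      ∀ Xe ∈ Metric.closedBall g.Xc g.ρs, ∀ i : Fin 2,
      ∃ Φ' : Fam sys.S, IsFam sys R ∅ (slo i) (shi i) (C * ε) g.L g.ν0 Φ' ∧ Φ'.ContAll ∧
        Over g Φ' Xe δ ∧ Φ'.im ⊆ Φ.im' ∅ :=
  @Pool.Agent.HS.shadow_pr g

end Pool.Agent.HS
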