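import Pool.Agent.Lib_helper60.HSF.D_WG
import Pool.Agent.Lib_helper60.HSF.G_GROW
import Pool.Agent.Lib_helper60.HSF.G_SHADOW

/-!
# HS, block G3c: one move of the game, the game
-/

namespace Pool.Agent.HS.G3c

noncomputable section

open Set Filter Topology Classical

theorem g3c_mono {sys : Sys} {R R' : sys.S → sys.S → Prop} {V : Set (ℝ × ℝ)} {m1 m2 η η' LN ν0 : ℝ}
    {Φ : Fam sys.S} (h : IsFam sys R V m1 m2 η LN ν0 Φ) (hη : η ≤ η')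
    (hR : ∀ x y, R x y → R' x y) : IsFam sys R' V m1 m2 η' LN ν0 Φ where
  pos := h.pos
  graph := h.graph
  blip := fun s hs b hb b' hb' =>
    ⟨(h.blip s hs b hb b' hb').1.trans (mul_le_mul_of_nonneg_right hη (abs_nonneg _)),
      (h.blip s hs b hb b' hb').2.trans (mul_le_mul_of_nonneg_right hη (abs_nonneg _))⟩
  slip := h.slip
  dir := h.dir
  cont := h.cont
  rel := fun b hb s hs hb0 hV => hR _ _ (h.rel b hb s hs hb0 hV)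

theorem g3c_im' {S : Type} (Φ : Fam S) (V : Set (ℝ × ℝ)) : Φ.im' V ⊆ Φ.im := by
  rintro x ⟨s, hs, b, hb, -, -, h⟩
  exact ⟨s, hs, b, hb, h⟩

theorem g3c_move (g : GC) (ηb : ℝ) (hηb : 0 < ηb) : ∃ η0 : ℝ, 0 < η0 ∧ η0 ≤ ηb ∧
    ∀ (Λ : Type) [Finite Λ]
    (l : Fin 2 → Λ → LD), Loops g Λ l → ∀ (κ0 : Pl → ℝ) (δ : ℝ), 0 < δ → ∃ ε0 : ℝ, 0 < ε0 ∧
    ∀ (ε : ℝ) (sys : Sys), 0 ≤ ε → ε ≤ ε0 → Rl g Λ l κ0 ε sys →
    ∀ (Φ : Fam sys.S), IsFam sys sys.reach ∅ (1 / 10) (1 / 5) η0 g.L g.ν0 Φ →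
      Over g Φ g.Xc (10 * g.ρ2) →
    ∀ (z : ℂ) (h : ℝ), 0 < h → EvC g η0 sys z δ →
      ∃ Φ' : Fam sys.S, IsFam sys (sys.hit z h) ∅ (1 / 10) (1 / 5) η0 g.L g.ν0 Φ' ∧
        Φ'.ContAll ∧ Over g Φ' g.Xc (10 * g.ρ2) ∧ Φ'.im ⊆ Φ.im' ∅ := by
  obtain ⟨ηg, Cg, hηg, hCg, Hg⟩ := growth g
  obtain ⟨ηs, Cs, hηs, hCs, Hs⟩ := shadow g
  refine ⟨min ηb (min ηg ηs), lt_min hηb (lt_min hηg hηs), min_le_left _ _, ?_⟩
  set η0 := min ηb (min ηg ηs) with hη0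
  have hη0p : 0 < η0 := lt_min hηb (lt_min hηg hηs)
  intro Λ _ l hl κ0 δ hδ
  obtain ⟨εg, hεg, Hg⟩ := Hg η0 hη0p ((min_le_right _ _).trans (min_le_left _ _)) Λ l hl κ0
  obtain ⟨εs, hεs, Hs⟩ := Hs Λ l hl κ0 δ hδ
  have hCg0 : 0 < Cg := by linarith
  have hCs0 : 0 < Cs := by linarith
  refine ⟨min (min εg εs) (min (δ / Cs) (η0 / Cg)),
    lt_min (lt_min hεg hεs) (lt_min (by positivity) (by positivity)), ?_⟩
  intro ε sys hε hε' hR Φ hΦ hO z h hh hE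
  have e1 : ε ≤ εg := hε'.trans ((min_le_left _ _).trans (min_le_left _ _))
  have e2 : ε ≤ εs := hε'.trans ((min_le_left _ _).trans (min_le_right _ _))
  have e3 : Cs * ε ≤ δ := by
    have := hε'.trans ((min_le_right _ _).trans (min_le_left _ _))
    rw [le_div_iff₀ hCs0] at this
    linarith
  have e4 : Cg * ε ≤ η0 := by
    have := hε'.trans ((min_le_right _ _).trans (min_le_right _ _))
    rw [le_div_iff₀ hCg0] at this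
    linarith
  obtain ⟨Xe, hXe, i, HE⟩ := hE
  obtain ⟨Φ1, h1, -, h1O, h1i⟩ := Hs ε sys hε e2 hR sys.reach
    (fun x y u hxy hyu => sys.trans hxy hyu) Φ
    (g3c_mono hΦ ((min_le_right _ _).trans (min_le_right _ _)) (fun _ _ h => h)) hO Xe hXe i
  obtain ⟨Φ2, V, h2, hM, -, hℓ, hc, h2i⟩ := HE Φ1 (g3c_mono h1 e3 (fun _ _ h => h)) h1O h hh
  obtain ⟨Φ3, h3, h3c, h3O, h3i⟩ := Hg ε sys hε e1 hR (sys.hit z h)
    (fun x y u hxy hyu => sys.hit_trans hxy hyu) Φ2 V h2 hM hℓ hc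
  refine ⟨Φ3, g3c_mono h3 e4 (fun _ _ h => h), h3c, h3O, ?_⟩
  exact h3i.trans ((g3c_im' _ _).trans (h2i.trans ((g3c_im' _ _).trans h1i)))

/-- One move of the game. -/
theorem move_pr (g : GC) : ∃ η0 : ℝ, 0 < η0 ∧ ∀ (Λ : Type) [Finite Λ]
    (l : Fin 2 → Λ → LD), Loops g Λ l → ∀ (κ0 : Pl → ℝ) (δ : ℝ), 0 < δ → ∃ ε0 : ℝ, 0 < ε0 ∧
    ∀ (ε : ℝ) (sys : Sys), 0 ≤ ε → ε ≤ ε0 → Rl g Λ l κ0 ε sys →
    ∀ (Φ : Fam sys.S), IsFam sys sys.reach ∅ (1 / 10) (1 / 5) η0 g.L g.ν0 Φ →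
      Over g Φ g.Xc (10 * g.ρ2) →
    ∀ (z : ℂ) (h : ℝ), 0 < h → EvC g η0 sys z δ →
      ∃ Φ' : Fam sys.S, IsFam sys (sys.hit z h) ∅ (1 / 10) (1 / 5) η0 g.L g.ν0 Φ' ∧
        Φ'.ContAll ∧ Over g Φ' g.Xc (10 * g.ρ2) ∧ Φ'.im ⊆ Φ.im' ∅ := by
  obtain ⟨η0, h0, -, H⟩ := g3c_move g 1 one_pos
  exact ⟨η0, h0, H⟩

theorem g3c_marks (m : ℕ) (εm : ℝ) : Marks m εm ∅ :=
  ⟨fun _ => ∅, fun _ hp => hp.elim, fun _ _ hp => hp.elim⟩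

/-- the initial family -/
def g3c_init (g : GC) (sys : Sys) : Fam sys.S where
  ℓ := g.ℓ0
  z := fun s _ => (g.Xc.1 + s, g.Xc.2 + 3 / 20 * s)
  N := fun _ _ => Real.pi / 2
  y := fun s b => sys.enc (g.Xc.1 + s, g.Xc.2 + 3 / 20 * s) (Real.pi / 2) b

theorem g3c_ball (g : GC) {s : ℝ} (hs : |s| ≤ g.ℓ0) :
    ((g.Xc.1 + s, g.Xc.2 + 3 / 20 * s) : Pl) ∈ Metric.closedBall g.Xc g.ρ0 := by
  have h0 := g.h0
  have h2 := g.h2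
  have hs' := g.hs
  have hρ := g.hρ
  rw [Metric.mem_closedBall, dist_eq_norm, Prod.norm_def]
  have e1 : (((g.Xc.1 + s, g.Xc.2 + 3 / 20 * s) : Pl) - g.Xc).1 = s := by simp
  have e2 : (((g.Xc.1 + s, g.Xc.2 + 3 / 20 * s) : Pl) - g.Xc).2 = 3 / 20 * s := by simp
  rw [e1, e2, Real.norm_eq_abs, Real.norm_eq_abs, abs_mul]
  have e3 : |(3 / 20 : ℝ)| = 3 / 20 := abs_of_pos (by norm_num)
  rw [e3]
  have := abs_nonneg s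
  apply max_le <;> linarith

theorem g3c_init_fam (g : GC) (sys : Sys) {η0 : ℝ} (hη : 0 ≤ η0)
    (hc : ContinuousOn (fun p : Pl × ℝ × ℝ => sys.enc p.1 p.2.1 p.2.2)
      (Metric.closedBall g.Xc g.ρ0 ×ˢ (univ ×ˢ {b | b ∈ JJ ∧ b ≠ 0})))
    (hrefl : ∀ X ∈ Metric.closedBall g.Xc g.ρ0, ∀ N, ∀ b ∈ JJ, b ≠ 0 →
      sys.reach (sys.enc X N b) (sys.enc X N b)) :
    IsFam sys sys.reach ∅ (1 / 10) 5 η0 g.L g.ν0 (g3c_init g sys) where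
  pos := by
    have h0 := g.h0
    have h2 := g.h2
    show 0 < g.ℓ0
    linarith
  graph := by
    intro b _ s _ t _ hst
    simp only [g3c_init]
    refine ⟨by ring, ?_, ?_⟩ <;> linarith
  blip := by
    intro s _ b _ b' _
    simp only [g3c_init, sub_self, norm_zero, abs_zero]
    exact ⟨mul_nonneg hη (abs_nonneg _), mul_nonneg hη (abs_nonneg _)⟩
  slip := by
    intro b _ s _ t _
    simp only [g3c_init, sub_self, abs_zero]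
    have := g.hL
    exact mul_nonneg (by linarith) (abs_nonneg _)
  dir := by
    intro b _ s _
    simp only [g3c_init, sub_self, abs_zero]
    exact g.hν.1.le
  cont := by
    simp only [g3c_init]
    refine hc.comp (f := fun p : ℝ × ℝ => (((g.Xc.1 + p.1, g.Xc.2 + 3 / 20 * p.1) : Pl),
      Real.pi / 2, p.2)) (by fun_prop) ?_
    intro p hp
    have hp' : p.1 ∈ Icc (-g.ℓ0) g.ℓ0 ∧ p.2 ∈ JJ ∧ p.2 ≠ 0 := hp
    exact ⟨g3c_ball g (abs_le.mpr ⟨hp'.1.1, hp'.1.2⟩), mem_univ _, hp'.2⟩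
  rel := by
    intro b hb s hs hb0 _
    have hs' : s ∈ Icc (-g.ℓ0) g.ℓ0 := hs
    exact hrefl _ (g3c_ball g (abs_le.mpr ⟨hs'.1, hs'.2⟩)) _ b hb hb0

/-- The game: one initial state hits all targets. -/
theorem game_pr (g : GC) : ∃ η0 : ℝ, 0 < η0 ∧ ∀ (Λ : Type) [Finite Λ]
    (l : Fin 2 → Λ → LD), Loops g Λ l → ∀ (κ0 : Pl → ℝ) (δ : ℝ), 0 < δ → ∃ ε0 : ℝ, 0 < ε0 ∧
    ∀ (ε : ℝ) (sys : Sys), 0 ≤ ε → ε ≤ ε0 → Rl g Λ l κ0 ε sys → T2Space sys.S →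
    (ContinuousOn (fun p : Pl × ℝ × ℝ => sys.enc p.1 p.2.1 p.2.2)
      (Metric.closedBall g.Xc g.ρ0 ×ˢ (univ ×ˢ {b | b ∈ JJ ∧ b ≠ 0}))) →
    (∀ X ∈ Metric.closedBall g.Xc g.ρ0, ∀ N, ∀ b ∈ JJ, b ≠ 0 →
      sys.reach (sys.enc X N b) (sys.enc X N b)) →
    ∀ (z : ℕ → ℂ) (h : ℕ → ℝ), (∀ n, 0 < h n) → (∀ n, EvC g η0 sys (z n) δ) →
      ∃ x : sys.S, ∀ n, ∃ y, sys.hit (z n) (h n) x y := by
  obtain ⟨ηg, Cg, hηg, hCg, Hg⟩ := growth g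
  obtain ⟨η0, hη0, hη0g, Hm⟩ := g3c_move g ηg hηg
  refine ⟨η0, hη0, ?_⟩
  intro Λ _ l hl κ0 δ hδ
  obtain ⟨εg, hεg, Hg⟩ := Hg η0 hη0 hη0g Λ l hl κ0
  obtain ⟨εm, hεm, Hm⟩ := Hm Λ l hl κ0 δ hδ
  have hCg0 : 0 < Cg := by linarith
  refine ⟨min (min εg εm) (η0 / Cg), lt_min (lt_min hεg hεm) (by positivity), ?_⟩
  intro ε sys hε hε' hR hT2 hc hrefl z h hh hE
  have e1 : ε ≤ εg := hε'.trans ((min_le_left _ _).trans (min_le_left _ _))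
  have e2 : ε ≤ εm := hε'.trans ((min_le_left _ _).trans (min_le_right _ _))
  have e4 : Cg * ε ≤ η0 := by
    have := hε'.trans (min_le_right _ _)
    rw [le_div_iff₀ hCg0] at this
    linarith
  obtain ⟨Φ0, h0, h0c, h0O, -⟩ := Hg ε sys hε e1 hR sys.reach
    (fun x y u hxy hyu => sys.trans hxy hyu) (g3c_init g sys) ∅
    (g3c_init_fam g sys hη0.le hc hrefl) (g3c_marks 4 η0) le_rfl (by
      intro b _
      have h1 : (g3c_init g sys).z 0 b = g.Xc := by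
        simp [g3c_init]
      rw [h1]
      apply Metric.mem_closedBall_self
      have := g.hs
      have := g.h0
      have := g.h2
      linarith)
  -- the sequence of families
  let T := {Φ : Fam sys.S // IsFam sys sys.reach ∅ (1 / 10) (1 / 5) η0 g.L g.ν0 Φ ∧
    Φ.ContAll ∧ Over g Φ g.Xc (10 * g.ρ2)}
  have hstep : ∀ (n : ℕ) (Φ : T), ∃ Φ' : T,
      IsFam sys (sys.hit (z n) (h n)) ∅ (1 / 10) (1 / 5) η0 g.L g.ν0 Φ'.1 ∧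
        Φ'.1.im ⊆ Φ.1.im' ∅ := by
    intro n Φ
    obtain ⟨Φ', a1, a2, a3, a4⟩ := Hm ε sys hε e2 hR Φ.1 Φ.2.1 Φ.2.2.2 (z n) (h n) (hh n) (hE n)
    exact ⟨⟨Φ', g3c_mono a1 le_rfl (fun x y h => sys.hit_reach h), a2, a3⟩, a1, a4⟩
  choose nxt hn1 hn2 using hstep
  let F : ℕ → T := fun n => Nat.rec ⟨Φ0, g3c_mono h0 e4 (fun _ _ h => h), h0c, h0O⟩
    (fun n Φ => nxt n Φ) n
  have hF : ∀ n, F (n + 1) = nxt n (F n) := fun n => rfl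
  have hsub : ∀ n, (F (n + 1)).1.im ⊆ (F n).1.im' ∅ := by
    intro n
    rw [hF]
    exact hn2 n (F n)
  have hcomp : ∀ n, IsCompact (F n).1.im := by
    intro n
    have h1 : IsCompact (Icc (-(F n).1.ℓ) (F n).1.ℓ ×ˢ JJ) := isCompact_Icc.prod isCompact_Icc
    have h2 := h1.image_of_continuousOn (F n).2.2.1
    have h3 : (fun p : ℝ × ℝ => (F n).1.y p.1 p.2) '' (Icc (-(F n).1.ℓ) (F n).1.ℓ ×ˢ JJ) =
        (F n).1.im := by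
      ext x
      constructor
      · rintro ⟨p, hp, rfl⟩
        exact ⟨p.1, hp.1, p.2, hp.2, rfl⟩
      · rintro ⟨s, hs, b, hb, rfl⟩
        exact ⟨(s, b), ⟨hs, hb⟩, rfl⟩
    rwa [h3] at h2
  have hne : ∀ n, (F n).1.im.Nonempty := by
    intro n
    have hp := (F n).2.1.pos
    exact ⟨(F n).1.y 0 0, 0, ⟨by linarith, hp.le⟩, 0, by constructor <;> norm_num, rfl⟩
  obtain ⟨x, hx⟩ := IsCompact.nonempty_iInter_of_sequence_nonempty_isCompact_isClosed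
    (fun n => (F n).1.im) (fun n => (hsub n).trans (g3c_im' _ _)) hne (hcomp 0)
    (fun n => (hcomp n).isClosed)
  rw [mem_iInter] at hx
  refine ⟨x, fun n => ?_⟩
  obtain ⟨s, hs, b, hb, hb0, -, hxy⟩ := hsub (n + 1) (hx (n + 2))
  have h1 := hn1 n (F n)
  rw [← hF] at h1
  refine ⟨_, hxy ▸ h1.rel b hb s hs hb0 (by simp)⟩

end

end Pool.Agent.HS.G3c

namespace Pool.Agent.HS
open Set Filter Topology Classical

theorem move (g : GC) : ∃ η0 : ℝ, 0 < η0 ∧ ∀ (Λ : Type) [Finite Λ]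
    (l : Fin 2 → Λ → LD), Loops g Λ l → ∀ (κ0 : Pl → ℝ) (δ : ℝ), 0 < δ → ∃ ε0 : ℝ, 0 < ε0 ∧
    ∀ (ε : ℝ) (sys : Sys), 0 ≤ ε → ε ≤ ε0 → Rl g Λ l κ0 ε sys →
    ∀ (Φ : Fam sys.S), IsFam sys sys.reach ∅ (1 / 10) (1 / 5) η0 g.L g.ν0 Φ →
      Over g Φ g.Xc (10 * g.ρ2) →
    ∀ (z : ℂ) (h : ℝ), 0 < h → EvC g η0 sys z δ →
      ∃ Φ' : Fam sys.S, IsFam sys (sys.hit z h) ∅ (1 / 10) (1 / 5) η0 g.L g.ν0 Φ' ∧
        Φ'.ContAll ∧ Over g Φ' g.Xc (10 * g.ρ2) ∧ Φ'.im ⊆ Φ.im' ∅ :=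
  @Pool.Agent.HS.G3c.move_pr g

end Pool.Agent.HS

namespace Pool.Agent.HS
open Set Filter Topology Classical

theorem game (g : GC) : ∃ η0 : ℝ, 0 < η0 ∧ ∀ (Λ : Type) [Finite Λ]
    (l : Fin 2 → Λ → LD), Loops g Λ l → ∀ (κ0 : Pl → ℝ) (δ : ℝ), 0 < δ → ∃ ε0 : ℝ, 0 < ε0 ∧
    ∀ (ε : ℝ) (sys : Sys), 0 ≤ ε → ε ≤ ε0 → Rl g Λ l κ0 ε sys → T2Space sys.S →
    (ContinuousOn (fun p : Pl × ℝ × ℝ => sys.enc p.1 p.2.1 p.2.2)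
      (Metric.closedBall g.Xc g.ρ0 ×ˢ (univ ×ˢ {b | b ∈ JJ ∧ b ≠ 0}))) →
    (∀ X ∈ Metric.closedBall g.Xc g.ρ0, ∀ N, ∀ b ∈ JJ, b ≠ 0 →
      sys.reach (sys.enc X N b) (sys.enc X N b)) →
    ∀ (z : ℕ → ℂ) (h : ℕ → ℝ), (∀ n, 0 < h n) → (∀ n, EvC g η0 sys (z n) δ) →
      ∃ x : sys.S, ∀ n, ∃ y, sys.hit (z n) (h n) x y :=
  @Pool.Agent.HS.G3c.game_pr g

end Pool.Agent.HS
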