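import Pool.Agent.Lib_helper60.HSF.D_WF
import Pool.Agent.Lib_helper60.HSF.E_E0b
import Pool.Agent.Lib_helper60.HSF.F_SA
import Pool.Agent.Lib_helper60.HSF.F_ST
import Pool.Agent.Lib_helper60.HSF.G_G3c

/-!
# Project HS, block SO: one orbit near all targets
-/

namespace Pool.Agent.HS

noncomputable section

open Set Filter Topology Classical
open Pool.Agent.ThreeBody (Conf IsSolution IsMaximalSolution NTC ShapeSphere shape DenseImage)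

theorem orbit_exists_pr (g : GC) (C : ℝ) (hC : 0 < C ∧ C ≤ 1) (h : Supply g C) :
    ∃ μ0 : ℝ, 0 < μ0 ∧ ∀ μ, 0 < μ → μ < μ0 → ∀ (z : ℕ → ℂ) (h : ℕ → ℝ), (∀ n, 0 < h n) →
      (∀ n, z n ≠ 0 ∧ z n ≠ 1) → ∃ x : St, ∀ n, ∃ y, HitR (μ ^ 2) (z n) (h n) x y := by
  obtain ⟨Λ, hfin, hne, l, l3, l4, hl, hconn, hM, h4⟩ := h
  obtain ⟨η0, hη0, hgame⟩ := game g
  have hA : ∀ i y, y ≠ 1 → ‖y‖ ≤ yb i →
      ∃ δ r : ℝ, 0 < δ ∧ 0 < r ∧ ∀ p ∈ SM i y r, EvC g η0 (hs C p.1) p.2 δ :=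
    fun i y h1 h2 => assemble_M g C hC Λ l l3 l4 hl η0 hη0 i y (hM i y h1 h2)
  have hB : ∀ p ∈ P4, ∃ δ r : ℝ, 0 < δ ∧ 0 < r ∧
      ∀ q ∈ S4 p.1 p.2 r, EvC g η0 (hs C q.1) q.2 δ := by
    intro p hp
    obtain ⟨side, out, a, hs'⟩ := h4 p hp
    exact assemble_4 g C hC Λ l l3 l4 hl hconn η0 hη0 p.1 p.2 side out a hs'
  obtain ⟨δ, μ1, hδ, hμ1, hT⟩ := all_targets g C hC η0 hA hB
  obtain ⟨ε0, hε0, hG⟩ := hgame Λ l hl.loops (fun X => kap0 C (chart C X)) δ hδ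
  have hO : Metric.closedBall g.Xc g.ρ0 ⊆ CD C := by
    obtain ⟨a⟩ := hne
    exact fun X hX => ((hl.pw 0 a).2.2.1 X hX).1
  obtain ⟨μ2, hμ2, hK⟩ := kap_knear C hC g.L _ hO hl.kap ε0 hε0
  obtain ⟨μ3, hμ3, hE⟩ := enc_cont C hC
  obtain ⟨μ4, hμ4, hR⟩ := enc_reach_self C hC
  choose μw hμw0 hμw using fun i a => (hl.pw i a).2.2.2 ε0 hε0
  obtain ⟨pm, hpm⟩ := Finite.exists_min (fun p : Fin 2 × Λ => μw p.1 p.2)
  refine ⟨min (min μ1 μ2) (min (min μ3 μ4) (μw pm.1 pm.2)),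
    lt_min (lt_min hμ1 hμ2) (lt_min (lt_min hμ3 hμ4) (hμw0 _ _)), ?_⟩
  intro μ hμ hlt z h hh hz
  rw [lt_min_iff, lt_min_iff, lt_min_iff, lt_min_iff] at hlt
  obtain ⟨⟨l1, l2⟩, ⟨l3', l4'⟩, l5⟩ := hlt
  have hRl : Rl g Λ l (fun X => kap0 C (chart C X)) ε0 (hs C μ) :=
    { K := hK μ hμ l2
      w := fun i a => hμw i a μ hμ (lt_of_lt_of_le l5 (hpm (i, a))) }
  have hT2 : T2Space (hs C μ).S := by
    show T2Space St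
    infer_instance
  exact hG ε0 (hs C μ) hε0.le le_rfl hRl hT2
    ((hE μ hμ l3').mono (Set.prod_mono hO (Subset.refl _)))
    (fun X hX N b hb hb0 => hR μ hμ l4' X (hO hX) N b hb hb0) z h hh
    (fun n => hT μ hμ l1 (z n) (hz n).1 (hz n).2)

end

end Pool.Agent.HS

namespace Pool.Agent.HS
open Set Filter Topology Classical

theorem orbit_exists (g : GC) (C : ℝ) (hC : 0 < C ∧ C ≤ 1) (h : Supply g C) :
    ∃ μ0 : ℝ, 0 < μ0 ∧ ∀ μ, 0 < μ → μ < μ0 → ∀ (z : ℕ → ℂ) (h : ℕ → ℝ), (∀ n, 0 < h n) →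
      (∀ n, z n ≠ 0 ∧ z n ≠ 1) → ∃ x : St, ∀ n, ∃ y, HitR (μ ^ 2) (z n) (h n) x y :=
  @Pool.Agent.HS.orbit_exists_pr g C hC h

end Pool.Agent.HS
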