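import Pool.Agent.Lib_helper60.HSF.D_WF
import Pool.Agent.Lib_helper60.HSF.F_FA1
import Pool.Agent.Lib_helper60.HSF.F_SO
import Pool.Agent.Lib_helper60.HSF.F_FC
import Pool.Agent.Lib_helper60.HSF.F_FB
import Pool.Agent.Lib_helper60.HSF.F_FA2

/-!
# Project HS, block FD: the final theorem from the supply
-/

namespace Pool.Agent.HS

noncomputable section

open Set Filter Topology Classical
open Pool.Agent.ThreeBody (Conf IsSolution IsMaximalSolution NTC ShapeSphere shape DenseImage)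

/-- the maximal solution in relative coordinates gives a maximal solution of the three bodies -/
theorem fd_max {M : ℝ} (hM : 0 < M) {I : Set ℝ} {γ : ℝ → St} (h : SolI M I γ)
    (h0 : (0 : ℝ) ∈ I)
    (hmax : ∀ (J : Set ℝ) (γ' : ℝ → St), SolI M J γ' → (0 : ℝ) ∈ J → γ' 0 = γ 0 →
      J ⊆ I ∧ EqOn γ' γ J) :
    IsMaximalSolution (mM M) I (fun t => toQ M (γ t)) := by
  obtain ⟨hs, hq⟩ := toQ_sol hM h ⟨0, h0⟩
  refine { toIsSolution := hs, maximal := ?_ }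
  intro J q' hJ hIJ hEq
  refine Subset.antisymm ?_ hIJ
  have h1 := ofQ_sol hM hJ
  refine (hmax J _ h1 (hIJ h0) ?_).1
  have h2 : q' 0 = toQ M (γ 0) := hEq h0
  have h3 : deriv q' 0 = deriv (fun t => toQ M (γ t)) 0 := by
    apply Filter.EventuallyEq.deriv_eq
    exact Filter.eventuallyEq_of_mem (h.1.mem_nhds h0) hEq
  show ofQ M (q' 0) (deriv q' 0) = γ 0
  rw [h2, h3]
  exact hq 0 h0

theorem final_of_supply_pr (hsup : ∃ (g : GC) (C0 : ℝ), 0 < C0 ∧ C0 ≤ 1 ∧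
      ∀ C, 0 < C → C < C0 → Supply g C) :
    ∃ M₀ : ℝ, 0 < M₀ ∧ ∀ M : ℝ, 0 < M → M < M₀ → ∃ (I : Set ℝ) (q : ℝ → Conf),
      IsMaximalSolution ![1, 3 / 4 * M, 1 / 4 * M] I q ∧ DenseImage I q := by
  obtain ⟨g, C0, hC0, hC1, hs⟩ := hsup
  have hC : 0 < C0 / 2 ∧ C0 / 2 ≤ 1 := ⟨by positivity, by linarith⟩
  obtain ⟨μ0, hμ0, hμ⟩ := orbit_exists g (C0 / 2) hC (hs (C0 / 2) hC.1 (by linarith))
  obtain ⟨z, h, hpos, hz01, hz⟩ := targets_exist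
  refine ⟨μ0 ^ 2, by positivity, fun M hM hMμ => ?_⟩
  have hs0 : 0 < Real.sqrt M := Real.sqrt_pos.2 hM
  have hs1 : Real.sqrt M < μ0 := (Real.sqrt_lt' hμ0).2 hMμ
  obtain ⟨x, hx⟩ := hμ (Real.sqrt M) hs0 hs1 z h hpos hz01
  simp only [Real.sq_sqrt hM.le] at hx
  -- the initial state is collision free
  have hNC : NC x := by
    obtain ⟨y, ρ, hρ, T, hT, γ, hγ, h0, -⟩ := hx 0
    rw [← h0]
    exact (hγ 0 ⟨le_rfl, hT⟩).1
  obtain ⟨I, γ, hI, h0I, hγ0, hmax⟩ := max_exists M x hNC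
  have hmax' : ∀ (J : Set ℝ) (γ' : ℝ → St), SolI M J γ' → (0 : ℝ) ∈ J → γ' 0 = γ 0 →
      J ⊆ I ∧ EqOn γ' γ J := fun J γ' hJ h0J he => hmax J γ' hJ h0J (he.trans hγ0)
  have hM1 := fd_max hM hI h0I hmax'
  refine ⟨I, fun t => toQ M (γ t), hM1, ?_⟩
  refine dense_of hM1.collisionFree z h hz ?_
  intro n
  obtain ⟨y, ρ, hρ, T, hT, γ1, hγ1, h10, -, t, ht, hh⟩ := hx n
  obtain ⟨J, γ', hJ, hTJ, hE⟩ := sol_extend hT hγ1
  have h0T : (0 : ℝ) ∈ Icc 0 T := ⟨le_rfl, hT⟩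
  obtain ⟨hJI, hE2⟩ := hmax J γ' hJ (hTJ h0T) ((hE h0T).trans h10)
  refine ⟨t, hJI (hTJ ht), ?_⟩
  have h1 : γ t = γ1 t := (hE2 (hTJ ht)).symm.trans (hE ht)
  have h2 : toQ M (γ t) 2 - toQ M (γ t) 0 = x3 (γ t) := by
    show (q1M M (γ t) + x3 (γ t)) - q1M M (γ t) = _
    ring
  have h3 : toQ M (γ t) 1 - toQ M (γ t) 0 = x2 (γ t) := by
    show (q1M M (γ t) + x2 (γ t)) - q1M M (γ t) = _
    ring
  simp only [h2, h3]
  rw [h1]
  exact hh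

end

end Pool.Agent.HS

namespace Pool.Agent.HS
open Set Filter Topology Classical
open Pool.Agent.ThreeBody (Conf IsSolution IsMaximalSolution NTC ShapeSphere shape DenseImage)

theorem final_of_supply (hsup : ∃ (g : GC) (C0 : ℝ), 0 < C0 ∧ C0 ≤ 1 ∧
      ∀ C, 0 < C → C < C0 → Supply g C) :
    ∃ M₀ : ℝ, 0 < M₀ ∧ ∀ M : ℝ, 0 < M → M < M₀ → ∃ (I : Set ℝ) (q : ℝ → Conf),
      IsMaximalSolution ![1, 3 / 4 * M, 1 / 4 * M] I q ∧ DenseImage I q :=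
  @Pool.Agent.HS.final_of_supply_pr hsup

end Pool.Agent.HS
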