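import Pool.Agent.Lib_helper60.HSF.D_WI
import Pool.Agent.Lib_helper60.HSF.A_FL

/-!
# HSIO block O7: linear growth of the distance after a collision
-/

namespace Pool.Agent.HS

noncomputable section

open Set Filter Topology Classical

/-- velocity of `lcX` along a field -/
def o7V (Z W : LCS) : ℂ := 2 * Z.1 * W.1 - W.2.2.1

theorem o7_deriv {γ : ℝ → LCS} {W : LCS} {t : ℝ} (h : HasDerivAt γ W t) (e : ℂ) :
    HasDerivAt (fun s => ((starRingEnd ℂ) e * lcX (γ s)).re)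
      ((starRingEnd ℂ) e * o7V (γ t) W).re t := by
  have h1 : HasDerivAt (fun s => (γ s).1) W.1 t :=
    (ContinuousLinearMap.fst ℝ ℂ (ℂ × ℂ × ℂ × ℝ)).hasFDerivAt.comp_hasDerivAt t h
  have h3 : HasDerivAt (fun s => (γ s).2.2.1) W.2.2.1 t :=
    (((ContinuousLinearMap.fst ℝ ℂ (ℂ × ℝ)).comp
      ((ContinuousLinearMap.snd ℝ ℂ (ℂ × ℂ × ℝ)).comp
        (ContinuousLinearMap.snd ℝ ℂ (ℂ × ℂ × ℂ × ℝ)))).hasFDerivAt).comp_hasDerivAt t h
  have h4 := ((h1.pow 2).sub h3).const_mul ((starRingEnd ℂ) e)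
  have h5 := Complex.reCLM.hasFDerivAt.comp_hasDerivAt t h4
  refine h5.congr_deriv ?_
  simp only [Complex.reCLM_apply, o7V]
  congr 2
  push_cast
  ring

theorem o7_V0 (i : Fin 2) (Z : LCS) : o7V Z (lcf i 0 Z) = lcΛ Z := by
  simp only [o7V, lcf, lcΛ, mul_zero, zero_div, add_zero, Complex.ofReal_zero, zero_mul]
  push_cast
  ring

theorem o7_n1 (Z : LCS) : ‖Z.1‖ ≤ ‖Z‖ := norm_fst_le Z
theorem o7_n3 (Z : LCS) : ‖Z.2.2.1‖ ≤ ‖Z‖ :=
  ((norm_fst_le Z.2.2).trans (norm_snd_le Z.2)).trans (norm_snd_le Z)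

theorem o7_close {Z Z0 W W0 : LCS} {B D δ ε : ℝ} (hB : ‖Z0‖ ≤ B) (hW : ‖W‖ ≤ D)
    (hZ : ‖Z - Z0‖ ≤ δ) (hWW : ‖W - W0‖ ≤ ε) :
    ‖o7V Z W - o7V Z0 W0‖ ≤ 2 * δ * D + (2 * B + 1) * ε := by
  have e1 : o7V Z W - o7V Z0 W0 =
      2 * (Z.1 - Z0.1) * W.1 + 2 * Z0.1 * (W.1 - W0.1) - (W.2.2.1 - W0.2.2.1) := by
    simp only [o7V]; ring
  have a1 : ‖Z.1 - Z0.1‖ ≤ δ := (o7_n1 (Z - Z0)).trans hZ
  have a2 : ‖W.1‖ ≤ D := (o7_n1 W).trans hW
  have a3 : ‖Z0.1‖ ≤ B := (o7_n1 Z0).trans hB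
  have a4 : ‖W.1 - W0.1‖ ≤ ε := (o7_n1 (W - W0)).trans hWW
  have a5 : ‖W.2.2.1 - W0.2.2.1‖ ≤ ε := (o7_n3 (W - W0)).trans hWW
  have hδ : 0 ≤ δ := (norm_nonneg _).trans a1
  have hB0 : 0 ≤ B := (norm_nonneg _).trans a3
  have b1 : ‖2 * (Z.1 - Z0.1) * W.1‖ ≤ 2 * δ * D := by
    rw [norm_mul, norm_mul]
    have : ‖(2:ℂ)‖ = 2 := by simp
    rw [this]
    exact mul_le_mul (by linarith) a2 (norm_nonneg _) (by positivity)
  have b2 : ‖2 * Z0.1 * (W.1 - W0.1)‖ ≤ 2 * B * ε := by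
    rw [norm_mul, norm_mul]
    have : ‖(2:ℂ)‖ = 2 := by simp
    rw [this]
    exact mul_le_mul (by linarith) a4 (norm_nonneg _) (by positivity)
  rw [e1]
  calc _ ≤ ‖2 * (Z.1 - Z0.1) * W.1 + 2 * Z0.1 * (W.1 - W0.1)‖ + ‖W.2.2.1 - W0.2.2.1‖ :=
        norm_sub_le _ _
    _ ≤ (‖2 * (Z.1 - Z0.1) * W.1‖ + ‖2 * Z0.1 * (W.1 - W0.1)‖) + ‖W.2.2.1 - W0.2.2.1‖ := by
        gcongr; exact norm_add_le _ _
    _ ≤ _ := by linarith

theorem cone_pr (i : Fin 2) (c c1 K : ℝ) (hc : 0 < c) (hc1 : 0 < c1) (hK : 1 ≤ K) :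
    ∃ τs ε1 : ℝ, 0 < τs ∧ 0 < ε1 ∧
    ∀ (f0 f : LCS → LCS), BL K K f0 → BL (2 * K) (2 * K) f → (∀ Z, ‖f Z - f0 Z‖ ≤ ε1) →
      (∀ Z ∈ lcBox c, f0 Z = lcf i 0 Z) →
      ∀ (Z0 : LCS) (e : ℂ) (a : ℝ), Z0 ∈ lcBox c → ‖e‖ = 1 →
        (c1 ≤ ((starRingEnd ℂ) e * lcΛ Z0).re → a ≤ ((starRingEnd ℂ) e * lcX Z0).re →
          ∀ τ ∈ Icc 0 τs, a + c1 / 2 * τ ≤ ((starRingEnd ℂ) e * lcX (flow f τ Z0)).re) ∧
        (((starRingEnd ℂ) e * lcΛ Z0).re ≤ -c1 → a ≤ ((starRingEnd ℂ) e * lcX Z0).re →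
          ∀ τ ∈ Icc 0 τs, a + c1 / 2 * τ ≤ ((starRingEnd ℂ) e * lcX (flow f (-τ) Z0)).re) := by
  set B : ℝ := 1 / c with hBdef
  have hB : 0 < B := by positivity
  have hK0 : 0 < K := by linarith
  set D : ℝ := 8 * K ^ 2 + (2 * B + 1) * (4 * K ^ 2) with hDdef
  have hD : 0 < D := by positivity
  refine ⟨c1 / (4 * D), c1 / (4 * (2 * B + 1)), by positivity, by positivity, ?_⟩
  intro f0 f h0 hf hff hbox Z0 e a hZ0 he
  obtain ⟨fs0, fs⟩ := flow_spec hf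
  have hZ0n : ‖Z0‖ ≤ B := hZ0.1
  -- displacement
  have hdis : ∀ τ : ℝ, ‖flow f τ Z0 - Z0‖ ≤ 2 * K * |τ| := by
    intro τ
    have := Convex.norm_image_sub_le_of_norm_hasDerivWithin_le (𝕜 := ℝ) (f := fun s => flow f s Z0)
      (f' := fun s => f (flow f s Z0)) (C := 2 * K) (s := univ) (x := 0) (y := τ)
      (fun x _ => (fs Z0 x).hasDerivWithinAt) (fun x _ => hf.1 _) convex_univ trivial trivial
    simpa [fs0] using this
  have hW : ∀ τ : ℝ, ‖f (flow f τ Z0) - lcf i 0 Z0‖ ≤ 4 * K ^ 2 * |τ| + c1 / (4 * (2 * B + 1)) := by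
    intro τ
    rw [← hbox Z0 hZ0]
    calc _ ≤ ‖f (flow f τ Z0) - f Z0‖ + ‖f Z0 - f0 Z0‖ := norm_sub_le_norm_sub_add_norm_sub _ _ _
      _ ≤ 2 * K * (2 * K * |τ|) + c1 / (4 * (2 * B + 1)) := by
          refine add_le_add ((hf.2 _ _).trans ?_) (hff Z0)
          exact mul_le_mul_of_nonneg_left (hdis τ) (by positivity)
      _ = _ := by ring
  have hV : ∀ τ : ℝ, |τ| ≤ c1 / (4 * D) →
      |((starRingEnd ℂ) e * o7V (flow f τ Z0) (f (flow f τ Z0))).re -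
        ((starRingEnd ℂ) e * lcΛ Z0).re| ≤ c1 / 2 := by
    intro τ hτ
    have h1 := o7_close hZ0n (hf.1 (flow f τ Z0)) (hdis τ) (hW τ)
    rw [o7_V0] at h1
    rw [← Complex.sub_re, ← mul_sub]
    refine (Complex.abs_re_le_norm _).trans ?_
    rw [norm_mul, RCLike.norm_conj, he, one_mul]
    refine h1.trans ?_
    have e2 : (2 * B + 1) * (c1 / (4 * (2 * B + 1))) = c1 / 4 := by field_simp
    have e3 : 2 * (2 * K * |τ|) * (2 * K) + (2 * B + 1) * (4 * K ^ 2 * |τ| + c1 / (4 * (2 * B + 1)))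
        = D * |τ| + (2 * B + 1) * (c1 / (4 * (2 * B + 1))) := by rw [hDdef]; ring
    rw [e3, e2]
    have e4 : D * |τ| ≤ c1 / 4 := by
      calc D * |τ| ≤ D * (c1 / (4 * D)) := mul_le_mul_of_nonneg_left hτ hD.le
        _ = c1 / 4 := by field_simp
    linarith
  have hder : ∀ s : ℝ, HasDerivAt (fun s => ((starRingEnd ℂ) e * lcX (flow f s Z0)).re)
      ((starRingEnd ℂ) e * o7V (flow f s Z0) (f (flow f s Z0))).re s :=
    fun s => o7_deriv (fs Z0 s) e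
  constructor
  · intro hL ha τ hτ
    have := (convex_Icc (0:ℝ) (c1 / (4 * D))).mul_sub_le_image_sub_of_le_deriv
      (f := fun s => ((starRingEnd ℂ) e * lcX (flow f s Z0)).re) (C := c1 / 2)
      (fun s _ => (hder s).continuousAt.continuousWithinAt)
      (fun s _ => (hder s).differentiableAt.differentiableWithinAt)
      (fun s hs => by
        rw [(hder s).deriv]
        have hs' := interior_subset hs
        have := (abs_le.1 (hV s (by rw [abs_of_nonneg hs'.1]; exact hs'.2))).1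
        linarith)
      0 ⟨le_rfl, by positivity⟩ τ hτ hτ.1
    simp only [fs0, sub_zero] at this
    linarith
  · intro hL ha τ hτ
    have hder' : ∀ s : ℝ, HasDerivAt (fun s => ((starRingEnd ℂ) e * lcX (flow f (-s) Z0)).re)
        (-((starRingEnd ℂ) e * o7V (flow f (-s) Z0) (f (flow f (-s) Z0))).re) s := by
      intro s
      exact (HasDerivAt.comp (x := s) (h := fun s : ℝ => -s) (hder (-s))
        (hasDerivAt_neg s)).congr_deriv (by ring)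
    have := (convex_Icc (0:ℝ) (c1 / (4 * D))).mul_sub_le_image_sub_of_le_deriv
      (f := fun s => ((starRingEnd ℂ) e * lcX (flow f (-s) Z0)).re) (C := c1 / 2)
      (fun s _ => (hder' s).continuousAt.continuousWithinAt)
      (fun s _ => (hder' s).differentiableAt.differentiableWithinAt)
      (fun s hs => by
        rw [(hder' s).deriv]
        have hs' := interior_subset hs
        have := (abs_le.1 (hV (-s) (by rw [abs_neg, abs_of_nonneg hs'.1]; exact hs'.2))).2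
        linarith)
      0 ⟨le_rfl, by positivity⟩ τ hτ hτ.1
    simp only [neg_zero, fs0, sub_zero] at this
    linarith

end

end Pool.Agent.HS

namespace Pool.Agent.HS
open Set Filter Topology Classical

theorem cone (i : Fin 2) (c c1 K : ℝ) (hc : 0 < c) (hc1 : 0 < c1) (hK : 1 ≤ K) :
    ∃ τs ε1 : ℝ, 0 < τs ∧ 0 < ε1 ∧
    ∀ (f0 f : LCS → LCS), BL K K f0 → BL (2 * K) (2 * K) f → (∀ Z, ‖f Z - f0 Z‖ ≤ ε1) →
      (∀ Z ∈ lcBox c, f0 Z = lcf i 0 Z) →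
      ∀ (Z0 : LCS) (e : ℂ) (a : ℝ), Z0 ∈ lcBox c → ‖e‖ = 1 →
        (c1 ≤ ((starRingEnd ℂ) e * lcΛ Z0).re → a ≤ ((starRingEnd ℂ) e * lcX Z0).re →
          ∀ τ ∈ Icc 0 τs, a + c1 / 2 * τ ≤ ((starRingEnd ℂ) e * lcX (flow f τ Z0)).re) ∧
        (((starRingEnd ℂ) e * lcΛ Z0).re ≤ -c1 → a ≤ ((starRingEnd ℂ) e * lcX Z0).re →
          ∀ τ ∈ Icc 0 τs, a + c1 / 2 * τ ≤ ((starRingEnd ℂ) e * lcX (flow f (-τ) Z0)).re) :=
  @Pool.Agent.HS.cone_pr i c c1 K hc hc1 hK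

end Pool.Agent.HS
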