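import Pool.Agent.Lib_helper60.HSF.D_WI
import Pool.Agent.Lib_helper60.HSF.IO_R2
import Pool.Agent.Lib_helper60.HSF.A_CB
import Pool.Agent.Lib_helper60.HSF.A_FL

/-! Project HS, block R4: uniqueness of solutions. -/

namespace Pool.Agent.HS

noncomputable section

open Set Filter Topology Classical

theorem r4_open : IsOpen {y : St | NC y} := by
  unfold NC x3 x2
  have h1 : Continuous (fun y : St => y.1) := continuous_fst
  have h2 : Continuous (fun y : St => y.2.1) := continuous_fst.comp continuous_snd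
  have e : {y : St | y.1 ≠ 0 ∧ y.2.1 ≠ 0 ∧ y.1 ≠ y.2.1} =
      {y : St | y.1 ≠ 0} ∩ ({y : St | y.2.1 ≠ 0} ∩ {y : St | y.1 ≠ y.2.1}) := by
    ext y
    simp
  rw [e]
  exact (isOpen_ne_fun h1 continuous_const).inter
    ((isOpen_ne_fun h2 continuous_const).inter (isOpen_ne_fun h1 h2))

theorem r4_G {f : St → ℂ} {U : Set St} (hf : ContDiff ℝ 2 f) (h0 : ∀ y ∈ U, f y ≠ 0) :
    ContDiffOn ℝ 2 (fun y => G (f y)) U := by
  intro y hy
  unfold G
  have hn : ContDiffAt ℝ 2 (fun y => ‖f y‖) y := hf.contDiffAt.norm ℝ (h0 y hy)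
  have h1 : ContDiffAt ℝ 2 (fun y => (‖f y‖ ^ 3)⁻¹) y :=
    (hn.pow 3).inv (pow_ne_zero _ (norm_ne_zero_iff.2 (h0 y hy)))
  have h2 : ContDiffAt ℝ 2 (fun y => (((‖f y‖ ^ 3)⁻¹ : ℝ) : ℂ)) y :=
    Complex.ofRealCLM.contDiff.contDiffAt.comp y h1
  exact (h2.mul hf.contDiffAt).contDiffWithinAt

theorem r4_smooth (M : ℝ) : ContDiffOn ℝ 2 (vf M) {y : St | NC y} := by
  have c1 : ContDiff ℝ 2 (fun y : St => x3 y) := contDiff_fst
  have c2 : ContDiff ℝ 2 (fun y : St => x2 y) := contDiff_fst.comp contDiff_snd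
  have c3 : ContDiff ℝ 2 (fun y : St => u3 y) :=
    contDiff_fst.comp (contDiff_snd.comp contDiff_snd)
  have c4 : ContDiff ℝ 2 (fun y : St => u2 y) :=
    contDiff_snd.comp (contDiff_snd.comp contDiff_snd)
  have g3 : ContDiffOn ℝ 2 (fun y : St => G (x3 y)) {y : St | NC y} := r4_G c1 fun y hy => hy.1
  have g2 : ContDiffOn ℝ 2 (fun y : St => G (x2 y)) {y : St | NC y} := r4_G c2 fun y hy => hy.2.1
  have g32 : ContDiffOn ℝ 2 (fun y : St => G (x3 y - x2 y)) {y : St | NC y} :=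
    r4_G (c1.sub c2) fun y hy => sub_ne_zero.2 hy.2.2
  unfold vf
  have hm : ContDiff ℝ 2 (fun y : St => (M : ℂ) * (ma * u3 y + mb * u2 y)) :=
    contDiff_const.mul ((contDiff_const.mul c3).add (contDiff_const.mul c4))
  exact ((c3.add hm).contDiffOn).prodMk (((c4.add hm).contDiffOn).prodMk
    ((g3.neg.sub (contDiffOn_const.mul g32)).prodMk (g2.neg.add (contDiffOn_const.mul g32))))

theorem r4_cont {M T : ℝ} {γ : ℝ → St} (h : SolOn M T γ) : ContinuousOn γ (Icc 0 T) :=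
  fun t ht => (h t ht).2.continuousWithinAt

theorem r4_mono {M T T' : ℝ} {γ : ℝ → St} (h : SolOn M T' γ) (hT : T ≤ T') : SolOn M T γ := by
  intro t ht
  have hs : Icc (0:ℝ) T ⊆ Icc 0 T' := Icc_subset_Icc_right hT
  exact ⟨(h t (hs ht)).1, (h t (hs ht)).2.mono hs⟩

theorem r4_shift {M T T' : ℝ} {γ : ℝ → St} (h : SolOn M T' γ) (hT : 0 ≤ T) :
    SolOn M (T' - T) (fun s => γ (T + s)) := by
  intro s hs
  have hs' : T + s ∈ Icc (0:ℝ) T' := ⟨by linarith [hs.1], by linarith [hs.2]⟩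
  refine ⟨(h _ hs').1, ?_⟩
  have h1 : HasDerivWithinAt (fun s : ℝ => T + s) 1 (Icc 0 (T' - T)) s :=
    ((hasDerivAt_id s).const_add T).hasDerivWithinAt
  have h2 := HasDerivWithinAt.scomp (t' := Icc (0:ℝ) T') s (h _ hs').2 h1
    (fun x hx => ⟨by linarith [hx.1], by linarith [hx.2]⟩)
  rw [one_smul] at h2
  exact h2

theorem r4_flow {M T : ℝ} (hT : 0 ≤ T) {γ γ' : ℝ → St} (h : SolOn M T γ) (h' : SolOn M T γ') :
    ∃ (B K : ℝ) (f : St → St), BL B K f ∧ (∀ t ∈ Icc (0:ℝ) T, f (γ t) = vf M (γ t)) ∧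
      (∀ t ∈ Icc (0:ℝ) T, f (γ' t) = vf M (γ' t)) := by
  have k1 : IsCompact (γ '' Icc 0 T) := isCompact_Icc.image_of_continuousOn (r4_cont h)
  have k2 : IsCompact (γ' '' Icc 0 T) := isCompact_Icc.image_of_continuousOn (r4_cont h')
  have hsub : γ '' Icc 0 T ∪ γ' '' Icc 0 T ⊆ {y : St | NC y} := by
    rintro y (⟨t, ht, rfl⟩ | ⟨t, ht, rfl⟩)
    · exact (h t ht).1
    · exact (h' t ht).1
  obtain ⟨f, hf, hs, V, -, hKV, -, hEq⟩ := exists_cutoff r4_open (r4_smooth M) (k1.union k2) hsub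
  obtain ⟨K, hK⟩ := hf.lipschitzWith_of_hasCompactSupport hs (by norm_num)
  obtain ⟨B, hB⟩ := hf.continuous.bounded_above_of_compact_support hs
  refine ⟨B, K, f, ⟨hB, fun x y => ?_⟩, fun t ht => ?_, fun t ht => ?_⟩
  · simpa [dist_eq_norm] using hK.dist_le_mul x y
  · exact hEq (hKV (Or.inl ⟨t, ht, rfl⟩))
  · exact hEq (hKV (Or.inr ⟨t, ht, rfl⟩))

/-- R3: uniqueness of solutions -/
theorem sol_unique_pr {M T : ℝ} (hT : 0 ≤ T) {γ γ' : ℝ → St} (h : SolOn M T γ)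
    (h' : SolOn M T γ') (h0 : γ 0 = γ' 0) : ∀ t ∈ Icc (0:ℝ) T, γ t = γ' t := by
  obtain ⟨B, K, f, hf, e, e'⟩ := r4_flow hT h h'
  intro t ht
  rw [flow_unique hf hT (γ := γ) (fun s hs => by rw [e s hs]; exact (h s hs).2) t ht,
    flow_unique hf hT (γ := γ') (fun s hs => by rw [e' s hs]; exact (h' s hs).2) t ht, h0]

theorem reachT_cmp_pr {M T T' : ℝ} {y y1 y2 : St} (h : ReachT M T y y1) (h' : ReachT M T' y y2)
    (hT : T ≤ T') : Reach M y1 y2 := by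
  obtain ⟨hT0, γ, hγ, a, b⟩ := h
  obtain ⟨-, γ', hγ', a', b'⟩ := h'
  have hu := sol_unique_pr hT0 hγ (r4_mono hγ' hT) (a.trans a'.symm) T ⟨hT0, le_rfl⟩
  refine ⟨T' - T, by linarith, fun s => γ' (T + s), r4_shift hγ' hT0, ?_, ?_⟩
  · show γ' (T + 0) = y1
    rw [add_zero, ← hu, b]
  · show γ' (T + (T' - T)) = y2
    rw [add_sub_cancel, b']

theorem r4_revrev (y : St) : rev (rev y) = y := by
  unfold rev x3 x2 u3 u2
  simp

theorem reachT_cmp'_pr {M T T' : ℝ} {y y1 y2 : St} (h : ReachT M T y1 y) (h' : ReachT M T' y2 y)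
    (hT : T ≤ T') : Reach M y2 y1 := by
  have := reach_rev (reachT_cmp_pr (reachT_rev h) (reachT_rev h') hT)
  rwa [r4_revrev, r4_revrev] at this

end

end Pool.Agent.HS

namespace Pool.Agent.HS
open Set Filter Topology Classical

theorem sol_unique {M T : ℝ} (hT : 0 ≤ T) {γ γ' : ℝ → St} (h : SolOn M T γ) (h' : SolOn M T γ')
    (h0 : γ 0 = γ' 0) : ∀ t ∈ Icc (0:ℝ) T, γ t = γ' t :=
  @Pool.Agent.HS.sol_unique_pr M T hT γ γ' h h' h0

end Pool.Agent.HS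

namespace Pool.Agent.HS
open Set Filter Topology Classical

theorem reachT_cmp {M T T' : ℝ} {y y1 y2 : St} (h : ReachT M T y y1) (h' : ReachT M T' y y2)
    (hT : T ≤ T') : Reach M y1 y2 :=
  @Pool.Agent.HS.reachT_cmp_pr M T T' y y1 y2 h h' hT

end Pool.Agent.HS

namespace Pool.Agent.HS
open Set Filter Topology Classical

theorem reachT_cmp' {M T T' : ℝ} {y y1 y2 : St} (h : ReachT M T y1 y) (h' : ReachT M T' y2 y)
    (hT : T ≤ T') : Reach M y2 y1 :=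
  @Pool.Agent.HS.reachT_cmp'_pr M T T' y y1 y2 h h' hT

end Pool.Agent.HS
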