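import Pool.Agent.Lib_helper60.HSF.D_WI
import Pool.Agent.Lib_helper60.HSF.IO_I6
import Pool.Agent.Lib_helper60.HSF.IO_O1
import Pool.Agent.Lib_helper60.HSF.IO_R4
import Pool.Agent.Lib_helper60.HSF.IO_O7
import Pool.Agent.Lib_helper60.HSF.IO_I1
import Pool.Agent.Lib_helper60.HSF.A_FL
import Pool.Agent.Lib_helper60.HSF.IO_R2
import Pool.Agent.Lib_helper60.HSF.IO_I9
import Pool.Agent.Lib_helper60.HSF.IO_I10
import Pool.Agent.Lib_helper60.HSF.IO_R1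
import Pool.Agent.Lib_helper60.HSF.IO_O4

/-!
# Project HS, part I/O, block P1
-/

namespace Pool.Agent.HS

noncomputable section

open Set Filter Topology Classical

theorem p1_sqrt_ge {κ h : ℝ} (_hκ : 0 < κ) (h1 : 9 / 16 * κ ^ 2 ≤ 2 * h) :
    3 / 4 * κ ≤ 2 * Real.sqrt (h / 2) := by
  have h2 : (3 / 8 * κ) ^ 2 ≤ h / 2 := by nlinarith
  have h3 := Real.le_sqrt_of_sq_le h2
  linarith

theorem p1_sq_le {g : ℝ} (h0 : 0 ≤ g) (h1 : g ≤ 1) : g ^ 2 ≤ g := by nlinarith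

theorem p1_pow4_le {g : ℝ} (h0 : 0 ≤ g) (h1 : g ≤ 1) : g ^ 4 ≤ g ^ 2 := by
  have h2 : g ^ 2 ≤ 1 := by nlinarith
  nlinarith [sq_nonneg g]

theorem p1_sq_le' {x y : ℝ} (h0 : 0 ≤ x) (h1 : x ≤ y) (h2 : y ≤ 1) : x ^ 2 ≤ y := by nlinarith

theorem p1_lin {a La δ : ℝ} (ha : 0 ≤ a) (haL : a ≤ La) (hL : 1 ≤ La) (hδ : 0 ≤ δ) (hδ1 : δ ≤ 1) :
    4 * La * δ + 3 * a * δ + 3 * δ ^ 2 ≤ 10 * La * δ := by
  have h1 : a * δ ≤ La * δ := mul_le_mul_of_nonneg_right haL hδ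
  have h2 : δ ^ 2 ≤ La * δ := by nlinarith
  nlinarith

theorem p1_fin {a La δ : ℝ} (h : 4 * La * δ + 3 * a * δ + 3 * δ ^ 2 ≤ 10 * La * δ)
    (h' : 10 * La * δ ≤ a ^ 2 / 4) {x y : ℝ} (hx : x ≤ (a + 2 * δ) ^ 2)
    (hy : a ^ 2 - 4 * La * δ ≤ y) : 3 / 4 * x ≤ y := by
  nlinarith

theorem p1_hsq {h κ c δ : ℝ} (h5 : -δ ≤ h - κ ^ 2 / 2) (h6 : c ^ 2 ≤ κ ^ 2) (h7 : δ ≤ c ^ 2 / 8) :
    9 / 16 * κ ^ 2 ≤ 2 * h := by
  nlinarith [sq_nonneg c]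

/-- facts about the legs -/
theorem p1_leg (c : ℝ) (hc : 0 < c) : ∃ σ ε : ℝ, 0 < σ ∧ 0 < ε ∧ ε ≤ 1 ∧
    ∀ μ g : ℝ, 0 < μ → μ ≤ ε * g → g ≤ σ → ∀ d ∈ DD c, ∀ b ∈ JJ, b ≠ 0 →
      (innV μ d b g).1 + (innV μ d b g).2.1 ≠ 0 ∧
      (innV μ d b g).2.2.2.2 * (‖(g : ℂ) * ((innV μ d b g).1 - (innV μ d b g).2.1)‖ ^ 2 -
        ‖(g : ℂ) * ((innV μ d b g).1 + (innV μ d b g).2.1)‖ ^ 2) = μ ^ 2 ∧
      0 ≤ (innV μ d b g).2.2.2.2 ∧
      c / 4 ≤ ‖x3 (innSt μ d b g)‖ ∧ c / 4 ≤ ‖x2 (innSt μ d b g)‖ ∧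
      NC (innSt μ d b g) ∧
      c ^ 2 / 4 * g ^ 2 ≤ (Complex.exp (-(d.2.2.2 : ℂ) * Complex.I) * cX (innSt μ d b g)).re ∧
      c / 2 ≤ (Complex.exp (-(d.2.2.2 : ℂ) * Complex.I) * cW (innSt μ d b g)).re := by
  obtain ⟨La, hLa, hamp, -⟩ := A0_lip c hc
  obtain ⟨σ1, L1, hσ1, hL1, hnear⟩ := inner_near c hc
  obtain ⟨σ2, L2, hσ2, hσ21, hL2, hleg⟩ := leg_facts c hc
  have hLa0 : 0 < La := by linarith
  -- the error
  set δ : ℝ := min (min (c ^ 2 / (64 * La)) (1 / (64 * La ^ 3))) (min (c ^ 2 / 8) 1) with hδ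
  have hδ0 : 0 < δ := by positivity
  have hδ1 : δ ≤ c ^ 2 / (64 * La) := (min_le_left _ _).trans (min_le_left _ _)
  have hδ2 : δ ≤ 1 / (64 * La ^ 3) := (min_le_left _ _).trans (min_le_right _ _)
  have hδ3 : δ ≤ c ^ 2 / 8 := (min_le_right _ _).trans (min_le_left _ _)
  have hδ4 : δ ≤ 1 := (min_le_right _ _).trans (min_le_right _ _)
  refine ⟨min (min σ1 σ2) (min (δ / (2 * L1)) 1), min (δ / (2 * La)) 1, by positivity,
    by positivity, min_le_right _ _, ?_⟩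
  intro μ g hμ hμg hg d hd b hb hb0
  have hg1 : g ≤ σ1 := hg.trans ((min_le_left _ _).trans (min_le_left _ _))
  have hg2 : g ≤ σ2 := hg.trans ((min_le_left _ _).trans (min_le_right _ _))
  have hg3 : g ≤ δ / (2 * L1) := hg.trans ((min_le_right _ _).trans (min_le_left _ _))
  have hg4 : g ≤ 1 := hg.trans ((min_le_right _ _).trans (min_le_right _ _))
  have hg0 : 0 < g := by
    by_contra h
    have h1 : min (δ / (2 * La)) 1 * g ≤ 0 :=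
      mul_nonpos_of_nonneg_of_nonpos (by positivity) (not_lt.1 h)
    linarith
  have hμle : μ ≤ g := by
    have h1 : min (δ / (2 * La)) 1 * g ≤ 1 * g :=
      mul_le_mul_of_nonneg_right (min_le_right _ _) hg0.le
    linarith
  have hμle2 : μ ≤ δ / (2 * La) * g := by
    have h1 : min (δ / (2 * La)) 1 * g ≤ δ / (2 * La) * g :=
      mul_le_mul_of_nonneg_right (min_le_left _ _) hg0.le
    linarith
  obtain ⟨f1, f2, -, f4, f5, f6, f7, f8, f9, f10, f11, f12, f13⟩ := hleg μ g hμ hμle hg2 d hd b hb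
  have hdκ : c ≤ d.2.2.1 := hd.2.2.2.1
  have hκ0 : 0 < d.2.2.1 := by linarith
  obtain ⟨ha1, ha2, ha3⟩ := hamp d.2.2.1 hdκ hd.2.2.2.2 b hb
  obtain ⟨hn1, hn2⟩ := hnear μ g hμ hμle hg1
  have hm : ((d, b) : Dt × ℝ) ∈ DD c ×ˢ JJ := ⟨hd, hb⟩
  have e1 := hn1.1 (d, b) hm
  have e2 := hn2.1 (d, b) hm
  dsimp only at e1 e2
  set V := innV μ d b g with hV
  obtain ⟨m1, m2, m3, m4, m5, m6, m7, m8⟩ := A0_alg d.2.2.1 d.2.2.2 b hκ0
  set κ := d.2.2.1 with hκ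
  set χ := d.2.2.2 with hχ
  set a := amp κ b with ha
  set A₀ := A0 κ χ b with hA0
  set D₀ := D0 κ χ b with hD0
  have hLg : L1 * g ^ 2 ≤ δ / 2 := by
    have h1 : g ^ 2 ≤ g := p1_sq_le hg0.le hg4
    have h2 : L1 * g ≤ δ / 2 := by
      have h3 : L1 * g ≤ L1 * (δ / (2 * L1)) := mul_le_mul_of_nonneg_left hg3 (by linarith)
      have h4 : L1 * (δ / (2 * L1)) = δ / 2 := by field_simp
      linarith
    have h3 : L1 * g ^ 2 ≤ L1 * g := mul_le_mul_of_nonneg_left h1 (by linarith)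
    linarith
  have hA : ‖V.1 - A₀‖ ≤ δ := by
    have h1 : ‖V.1 - A₀‖ ≤ ‖inY V - inY (inn0 d b)‖ := norm_fst_le (inY V - inY (inn0 d b))
    linarith
  have hh : |V.2.2.2.2 - κ ^ 2 / 2| ≤ δ := by
    have h1 : ‖(inY V - inY (inn0 d b)).2.2.2‖ ≤ ‖inY V - inY (inn0 d b)‖ :=
      (norm_snd_le _).trans ((norm_snd_le _).trans (norm_snd_le _))
    have h2 : (inY V - inY (inn0 d b)).2.2.2 = V.2.2.2.2 - κ ^ 2 / 2 := rfl
    rw [h2, Real.norm_eq_abs] at h1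
    linarith
  have hB : ‖V.2.1‖ ≤ δ := by
    have h1 : ‖V.2.1‖ ≤ ‖V.2.1 - (((μ / g) ^ 2 : ℝ) : ℂ) * D₀‖ + ‖(((μ / g) ^ 2 : ℝ) : ℂ) * D₀‖ := by
      have := norm_add_le (V.2.1 - (((μ / g) ^ 2 : ℝ) : ℂ) * D₀) ((((μ / g) ^ 2 : ℝ) : ℂ) * D₀)
      rwa [sub_add_cancel] at this
    have h2 : ‖(((μ / g) ^ 2 : ℝ) : ℂ) * D₀‖ = (μ / g) ^ 2 * a := by
      rw [norm_mul, m2, Complex.norm_real, Real.norm_eq_abs, abs_of_nonneg (by positivity)]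
    have h3 : μ / g ≤ δ / (2 * La) := by
      rw [div_le_iff₀ hg0]
      exact hμle2
    have h3' : 0 ≤ μ / g := by positivity
    have h4 : (μ / g) ^ 2 * a ≤ δ / 2 := by
      have h5 : (μ / g) ^ 2 ≤ δ / (2 * La) := by
        have h6 : δ / (2 * La) ≤ 1 := by
          rw [div_le_one (by positivity)]
          linarith
        exact p1_sq_le' h3' h3 h6
      have h7 : (μ / g) ^ 2 * a ≤ δ / (2 * La) * La := by
        apply mul_le_mul (by linarith) ha2 m3.le (by positivity)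
      have h8 : δ / (2 * La) * La = δ / 2 := by field_simp
      linarith
    have h9 : L1 * g ^ 4 ≤ L1 * g ^ 2 := by
      exact mul_le_mul_of_nonneg_left (p1_pow4_le hg0.le hg4) (by linarith)
    rw [h2] at h1
    linarith
  -- the real parts
  have hexp : ‖Complex.exp (-(χ : ℂ) * Complex.I)‖ = 1 := by
    have := Complex.norm_exp_ofReal_mul_I (-χ)
    push_cast at this
    exact this
  have hA0sq : (Complex.exp (-(χ : ℂ) * Complex.I) * A₀ ^ 2).re = a ^ 2 := by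
    rw [m5, mul_left_comm, ← Complex.exp_add]
    have : -(χ : ℂ) * Complex.I + (χ : ℂ) * Complex.I = 0 := by ring
    rw [this, Complex.exp_zero, mul_one]
    norm_cast
  have hnA0 : ‖A₀‖ = a := m1
  have hnA : ‖V.1‖ ≤ a + δ := by
    have := norm_add_le (V.1 - A₀) A₀
    rw [sub_add_cancel] at this
    linarith
  have hre : ∀ z : ℂ, ∀ η : ℝ, ‖z - A₀ ^ 2‖ ≤ η →
      a ^ 2 - η ≤ (Complex.exp (-(χ : ℂ) * Complex.I) * z).re := by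
    intro z η hz
    have h1 : Complex.exp (-(χ : ℂ) * Complex.I) * z = Complex.exp (-(χ : ℂ) * Complex.I) * A₀ ^ 2 +
        Complex.exp (-(χ : ℂ) * Complex.I) * (z - A₀ ^ 2) := by ring
    rw [h1, Complex.add_re, hA0sq]
    have h2 : |(Complex.exp (-(χ : ℂ) * Complex.I) * (z - A₀ ^ 2)).re| ≤ η := by
      refine (Complex.abs_re_le_norm _).trans ?_
      rw [norm_mul, hexp, one_mul]
      exact hz
    have := (abs_le.1 h2).1
    linarith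
  have hsum : ‖(V.1 + V.2.1) ^ 2 - A₀ ^ 2‖ ≤ 8 * La * δ := by
    have h1 : (V.1 + V.2.1) ^ 2 - A₀ ^ 2 = ((V.1 - A₀) + V.2.1) * (V.1 + V.2.1 + A₀) := by ring
    rw [h1, norm_mul]
    have h2 : ‖(V.1 - A₀) + V.2.1‖ ≤ 2 * δ := (norm_add_le _ _).trans (by linarith)
    have h3 : ‖V.1 + V.2.1 + A₀‖ ≤ 4 * La := by
      refine (norm_add_le _ _).trans ?_
      have := norm_add_le V.1 V.2.1
      linarith
    calc ‖(V.1 - A₀) + V.2.1‖ * ‖V.1 + V.2.1 + A₀‖ ≤ (2 * δ) * (4 * La) :=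
          mul_le_mul h2 h3 (norm_nonneg _) (by positivity)
      _ = 8 * La * δ := by ring
  have hdif : ‖(V.1 - V.2.1) * (V.1 + V.2.1) - A₀ ^ 2‖ ≤ 4 * La * δ := by
    have h1 : (V.1 - V.2.1) * (V.1 + V.2.1) - A₀ ^ 2 =
        (V.1 - A₀) * (V.1 + A₀) - V.2.1 * V.2.1 := by ring
    rw [h1]
    refine (norm_sub_le _ _).trans ?_
    rw [norm_mul, norm_mul]
    have h3 : ‖V.1 + A₀‖ ≤ 3 * La := by
      have := norm_add_le V.1 A₀
      linarith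
    have h4 : ‖V.1 - A₀‖ * ‖V.1 + A₀‖ ≤ δ * (3 * La) :=
      mul_le_mul hA h3 (norm_nonneg _) hδ0.le
    have h5 : ‖V.2.1‖ * ‖V.2.1‖ ≤ δ * La :=
      mul_le_mul hB (by linarith) (norm_nonneg _) hδ0.le
    linarith
  have hgc : (g : ℂ) ≠ 0 := by exact_mod_cast hg0.ne'
  have hAB : V.1 + V.2.1 ≠ 0 := f2 hb0
  -- Cartesian quantities
  have hcX : cX (innSt μ d b g) = ((g : ℂ) * (V.1 + V.2.1)) ^ 2 := by
    show (V.2.2.1 + (mb : ℂ) * ((g : ℂ) * (V.1 + V.2.1)) ^ 2) -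
      (V.2.2.1 - (ma : ℂ) * ((g : ℂ) * (V.1 + V.2.1)) ^ 2) = _
    unfold mb ma
    push_cast
    ring
  have hcW : cW (innSt μ d b g) = 2 * (Real.sqrt (V.2.2.2.2 / 2) : ℂ) *
      ((g : ℂ) * (V.1 - V.2.1)) / (starRingEnd ℂ) ((g : ℂ) * (V.1 + V.2.1)) := by
    show (V.2.2.2.1 + (mb : ℂ) * (2 * (Real.sqrt (V.2.2.2.2 / 2) : ℂ) *
      ((g : ℂ) * (V.1 - V.2.1)) / (starRingEnd ℂ) ((g : ℂ) * (V.1 + V.2.1)))) -
      (V.2.2.2.1 - (ma : ℂ) * (2 * (Real.sqrt (V.2.2.2.2 / 2) : ℂ) *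
      ((g : ℂ) * (V.1 - V.2.1)) / (starRingEnd ℂ) ((g : ℂ) * (V.1 + V.2.1)))) = _
    unfold mb ma
    push_cast
    ring
  have hx3 : x3 (innSt μ d b g) = V.2.2.1 + (mb : ℂ) * ((g : ℂ) * (V.1 + V.2.1)) ^ 2 := rfl
  have hx2 : x2 (innSt μ d b g) = V.2.2.1 - (ma : ℂ) * ((g : ℂ) * (V.1 + V.2.1)) ^ 2 := rfl
  have n3 : c / 4 ≤ ‖x3 (innSt μ d b g)‖ := by rw [hx3]; exact f12
  have n2 : c / 4 ≤ ‖x2 (innSt μ d b g)‖ := by rw [hx2]; exact f13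
  have hc4 : 0 < c / 4 := by positivity
  refine ⟨hAB, f1, (by positivity : (0:ℝ) ≤ c ^ 2 / 4).trans f10, n3, n2, ⟨?_, ?_, ?_⟩, ?_, ?_⟩
  · exact norm_pos_iff.1 (hc4.trans_le n3)
  · exact norm_pos_iff.1 (hc4.trans_le n2)
  · intro h
    have h1 : cX (innSt μ d b g) = 0 := by
      show x3 (innSt μ d b g) - x2 (innSt μ d b g) = 0
      rw [h, sub_self]
    rw [hcX] at h1
    exact (pow_ne_zero 2 (mul_ne_zero hgc hAB)) h1
  · rw [hcX]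
    have h1 : Complex.exp (-(χ : ℂ) * Complex.I) * ((g : ℂ) * (V.1 + V.2.1)) ^ 2 =
        ((g ^ 2 : ℝ) : ℂ) * (Complex.exp (-(χ : ℂ) * Complex.I) * (V.1 + V.2.1) ^ 2) := by
      push_cast
      ring
    rw [h1, Complex.re_ofReal_mul]
    have h2 := hre _ _ hsum
    have h3 : 8 * La * δ ≤ c ^ 2 / 8 := by
      have h4 : 8 * La * δ ≤ 8 * La * (c ^ 2 / (64 * La)) :=
        mul_le_mul_of_nonneg_left hδ1 (by positivity)
      have h5 : 8 * La * (c ^ 2 / (64 * La)) = c ^ 2 / 8 := by field_simp; ring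
      linarith
    have h6 : c ^ 2 / 4 ≤ (Complex.exp (-(χ : ℂ) * Complex.I) * (V.1 + V.2.1) ^ 2).re := by
      have : 0 ≤ c ^ 2 := by positivity
      linarith
    rw [mul_comm]
    exact mul_le_mul_of_nonneg_left h6 (by positivity)
  · rw [hcW]
    have hcAB : (starRingEnd ℂ) (V.1 + V.2.1) ≠ 0 := (map_ne_zero _).2 hAB
    have hns : ((‖V.1 + V.2.1‖ ^ 2 : ℝ) : ℂ) ≠ 0 := by
      have := norm_pos_iff.2 hAB
      exact_mod_cast (by positivity : ‖V.1 + V.2.1‖ ^ 2 ≠ 0)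
    have h1 : Complex.exp (-(χ : ℂ) * Complex.I) * (2 * (Real.sqrt (V.2.2.2.2 / 2) : ℂ) *
        ((g : ℂ) * (V.1 - V.2.1)) / (starRingEnd ℂ) ((g : ℂ) * (V.1 + V.2.1))) =
        ((2 * Real.sqrt (V.2.2.2.2 / 2) / ‖V.1 + V.2.1‖ ^ 2 : ℝ) : ℂ) *
          (Complex.exp (-(χ : ℂ) * Complex.I) * ((V.1 - V.2.1) * (V.1 + V.2.1))) := by
      have h2 : ((‖V.1 + V.2.1‖ ^ 2 : ℝ) : ℂ) = (starRingEnd ℂ) (V.1 + V.2.1) * (V.1 + V.2.1) := by
        rw [mul_comm, Complex.mul_conj, Complex.normSq_eq_norm_sq]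
      rw [map_mul, Complex.conj_ofReal, Complex.ofReal_div, h2]
      push_cast
      field_simp
    rw [h1, Complex.re_ofReal_mul]
    have h2 := hre _ _ hdif
    have hnAB : ‖V.1 + V.2.1‖ ≤ a + 2 * δ := (norm_add_le _ _).trans (by linarith)
    have hnAB0 := norm_pos_iff.2 hAB
    have h3 : 3 / 4 * ‖V.1 + V.2.1‖ ^ 2 ≤
        (Complex.exp (-(χ : ℂ) * Complex.I) * ((V.1 - V.2.1) * (V.1 + V.2.1))).re := by
      have h4 : ‖V.1 + V.2.1‖ ^ 2 ≤ (a + 2 * δ) ^ 2 := by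
        apply pow_le_pow_left₀ (norm_nonneg _) hnAB
      have h5 : 4 * La * δ + 3 * a * δ + 3 * δ ^ 2 ≤ 10 * La * δ :=
        p1_lin m3.le ha2 hLa hδ0.le hδ4
      have h6 : 10 * La * δ ≤ 1 / (4 * La ^ 2) := by
        have h7 : 10 * La * δ ≤ 10 * La * (1 / (64 * La ^ 3)) :=
          mul_le_mul_of_nonneg_left hδ2 (by positivity)
        have h8 : 10 * La * (1 / (64 * La ^ 3)) = 10 / 64 * (1 / La ^ 2) := by field_simp
        have h9 : 1 / (4 * La ^ 2) = 1 / 4 * (1 / La ^ 2) := by field_simp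
        have h10 : 0 < 1 / La ^ 2 := by positivity
        rw [h9]
        linarith
      have h11 : 1 / (4 * La ^ 2) ≤ a ^ 2 / 4 := by
        have h12 : (1 / La) ^ 2 ≤ a ^ 2 := pow_le_pow_left₀ (by positivity) ha1 2
        have h13 : 1 / (4 * La ^ 2) = (1 / La) ^ 2 / 4 := by field_simp
        linarith
      exact p1_fin h5 (h6.trans h11) h4 h2
    have h4 : 3 / 4 * κ ≤ 2 * Real.sqrt (V.2.2.2.2 / 2) := by
      apply p1_sqrt_ge hκ0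
      have h5 := (abs_le.1 hh).1
      have h6 : c ^ 2 ≤ κ ^ 2 := pow_le_pow_left₀ hc.le hdκ 2
      exact p1_hsq h5 h6 hδ3
    have h5 : 0 < ‖V.1 + V.2.1‖ ^ 2 := by positivity
    calc c / 2 ≤ (3 / 4 * κ) * (3 / 4) := by linarith
      _ ≤ (2 * Real.sqrt (V.2.2.2.2 / 2)) * (3 / 4) := by linarith
      _ = (2 * Real.sqrt (V.2.2.2.2 / 2) / ‖V.1 + V.2.1‖ ^ 2) * (3 / 4 * ‖V.1 + V.2.1‖ ^ 2) := by
          field_simp
      _ ≤ _ := mul_le_mul_of_nonneg_left h3 (by positivity)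

theorem p1_sg_sq (i : Fin 2) : ((sg i : ℝ) : ℂ) * ((sg i : ℝ) : ℂ) = 1 := by
  unfold sg
  split_ifs <;> simp

theorem p1_sg_norm (i : Fin 2) : ‖((sg i : ℝ) : ℂ)‖ = 1 := by
  unfold sg
  split_ifs <;> simp

theorem p1_xP (i : Fin 2) (Z : LCS) (c : ℝ) (h3 : c / 4 ≤ ‖x3 (lcSt i Z)‖)
    (h2 : c / 4 ≤ ‖x2 (lcSt i Z)‖) : c / 4 ≤ ‖Z.1‖ ^ 2 := by
  rw [← norm_pow]
  unfold lcSt at h3 h2
  split_ifs at h3 h2
  · exact h3
  · exact h2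

theorem p1_conj_exp (χ : ℝ) : (starRingEnd ℂ) (Complex.exp (χ * Complex.I)) =
    Complex.exp (-(χ : ℂ) * Complex.I) := by
  rw [← Complex.exp_conj, map_mul, Complex.conj_ofReal, Complex.conj_I]
  congr 1
  ring

theorem p1_e_norm (i : Fin 2) (χ : ℝ) :
    ‖((sg i : ℝ) : ℂ) * Complex.exp (χ * Complex.I)‖ = 1 := by
  rw [norm_mul, p1_sg_norm, Complex.norm_exp_ofReal_mul_I, one_mul]

theorem p1_X_re (i : Fin 2) (Z : LCS) (χ : ℝ) :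
    ((starRingEnd ℂ) (((sg i : ℝ) : ℂ) * Complex.exp (χ * Complex.I)) * lcX Z).re =
      (Complex.exp (-(χ : ℂ) * Complex.I) * cX (lcSt i Z)).re := by
  rw [lcX_eq i Z, map_mul, p1_conj_exp, Complex.conj_ofReal]
  have : ((sg i : ℝ) : ℂ) * Complex.exp (-(χ : ℂ) * Complex.I) *
      (((sg i : ℝ) : ℂ) * cX (lcSt i Z)) =
      (((sg i : ℝ) : ℂ) * ((sg i : ℝ) : ℂ)) * (Complex.exp (-(χ : ℂ) * Complex.I) *
        cX (lcSt i Z)) := by ring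
  rw [this, p1_sg_sq, one_mul]

theorem p1_L_re (i : Fin 2) (Z : LCS) (χ : ℝ) (h : Z.1 ≠ 0) :
    ((starRingEnd ℂ) (((sg i : ℝ) : ℂ) * Complex.exp (χ * Complex.I)) * lcΛ Z).re =
      ‖Z.1‖ ^ 2 * (Complex.exp (-(χ : ℂ) * Complex.I) * cW (lcSt i Z)).re := by
  rw [lcΛ_eq i Z h, map_mul, p1_conj_exp, Complex.conj_ofReal, Complex.ofReal_mul]
  have : ((sg i : ℝ) : ℂ) * Complex.exp (-(χ : ℂ) * Complex.I) *
      (((sg i : ℝ) : ℂ) * ((‖Z.1‖ ^ 2 : ℝ) : ℂ) * cW (lcSt i Z)) =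
      (((sg i : ℝ) : ℂ) * ((sg i : ℝ) : ℂ)) * (((‖Z.1‖ ^ 2 : ℝ) : ℂ) *
        (Complex.exp (-(χ : ℂ) * Complex.I) * cW (lcSt i Z))) := by ring
  rw [this, p1_sg_sq, one_mul, Complex.re_ofReal_mul]

/-- segments of a regularized solution are orbits -/
theorem p1_reachT (i : Fin 2) (M te : ℝ) (W : ℝ → LCS)
    (hW : ∀ τ, ContinuousAt W τ)
    (hd : ∀ τ ∈ Icc (0:ℝ) te, HasDerivAt W (lcf i M (W τ)) τ)
    (hK : lcK i M (W 0) = 0) (hζ : ∀ τ ∈ Icc (0:ℝ) te, (W τ).1 ≠ 0)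
    (hX : ∀ τ ∈ Icc (0:ℝ) te, lcX (W τ) ≠ 0 ∧ (W τ).2.2.1 ≠ 0)
    (a b : ℝ) (ha : 0 ≤ a) (hab : a ≤ b) (hb : b ≤ te) :
    ReachT M (∫ s in (0:ℝ)..(b - a), ‖(W (a + s)).1‖ ^ 2) (lcSt i (W a)) (lcSt i (W b)) := by
  have hte : 0 ≤ te := by linarith
  have h0 := lc_K i M te hte W (fun τ hτ => (hd τ hτ).hasDerivWithinAt) hX
  have hmem : ∀ s ∈ Icc (0:ℝ) (b - a), a + s ∈ Icc (0:ℝ) te := by
    intro s hs
    exact ⟨by linarith [hs.1], by linarith [hs.2]⟩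
  have h1 := lc_reachT i M (b - a) (by linarith) (fun s => W (a + s))
    (fun s hs => by
      have h2 := hd (a + s) (hmem s hs)
      have h3 : HasDerivAt (fun s : ℝ => a + s) 1 s := by
        simpa using (hasDerivAt_id s).const_add a
      have h4 := h2.scomp s h3
      rw [one_smul] at h4
      exact h4.hasDerivWithinAt)
    (by
      show lcK i M (W (a + 0)) = 0
      rw [add_zero, h0 a ⟨ha, by linarith⟩, hK])
    (fun s hs => hζ _ (hmem s hs)) (fun s hs => hX _ (hmem s hs))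
  have e1 : a + 0 = a := add_zero a
  have e2 : a + (b - a) = b := by ring
  simp only [e1, e2] at h1
  exact h1

/-- lower bound of the time -/
theorem p1_int (W : ℝ → LCS) (hW : ∀ τ, ContinuousAt W τ) (a b m p r : ℝ) (hm : 0 ≤ m)
    (hp : 0 ≤ p) (hpr : p ≤ r) (hr : r ≤ b - a)
    (h : ∀ s ∈ Icc p r, m ≤ ‖(W (a + s)).1‖ ^ 2) :
    m * (r - p) ≤ ∫ s in (0:ℝ)..(b - a), ‖(W (a + s)).1‖ ^ 2 := by
  have hc : Continuous W := continuous_iff_continuousAt.2 hW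
  have hc1 : Continuous (fun s => ‖(W (a + s)).1‖ ^ 2) := by
    have : Continuous (fun s => W (a + s)) := hc.comp (continuous_const.add continuous_id)
    exact (continuous_norm.comp (continuous_fst.comp this)).pow 2
  have hi : ∀ x y : ℝ, IntervalIntegrable (fun s => ‖(W (a + s)).1‖ ^ 2)
      MeasureTheory.volume x y := fun x y => hc1.intervalIntegrable x y
  rw [← intervalIntegral.integral_add_adjacent_intervals (hi 0 p) (hi p (b - a)),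
    ← intervalIntegral.integral_add_adjacent_intervals (hi p r) (hi r (b - a))]
  have h1 : 0 ≤ ∫ s in (0:ℝ)..p, ‖(W (a + s)).1‖ ^ 2 :=
    intervalIntegral.integral_nonneg hp (fun s _ => by positivity)
  have h2 : 0 ≤ ∫ s in r..(b - a), ‖(W (a + s)).1‖ ^ 2 :=
    intervalIntegral.integral_nonneg hr (fun s _ => by positivity)
  have h3 : ∫ s in p..r, m ≤ ∫ s in p..r, ‖(W (a + s)).1‖ ^ 2 :=
    intervalIntegral.integral_mono_on hpr (by simp) (hi p r) h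
  rw [intervalIntegral.integral_const, smul_eq_mul] at h3
  nlinarith

theorem p1_near_end (W : ℝ → LCS) (c K s t : ℝ) (hc : 0 < c) (hK : 1 ≤ K)
    (h1 : c / 4 ≤ ‖(W s).1‖ ^ 2) (h2 : ‖W s - W t‖ ≤ 2 * K * |s - t|)
    (h3 : |s - t| ≤ Real.sqrt c / (8 * K)) : c / 16 ≤ ‖(W t).1‖ ^ 2 := by
  have h4 : Real.sqrt c / 2 ≤ ‖(W s).1‖ := by
    have h5 : Real.sqrt (c / 4) ≤ ‖(W s).1‖ := Real.sqrt_le_iff.2 ⟨norm_nonneg _, h1⟩
    have h6 : Real.sqrt (c / 4) = Real.sqrt c / 2 := by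
      rw [Real.sqrt_div' _ (by norm_num)]
      congr 1
      rw [show (4:ℝ) = 2 ^ 2 by norm_num, Real.sqrt_sq (by norm_num)]
    linarith
  have h5 : ‖(W s).1 - (W t).1‖ ≤ Real.sqrt c / 4 := by
    have h6 : ‖(W s).1 - (W t).1‖ ≤ ‖W s - W t‖ := norm_fst_le (W s - W t)
    have h7 : 2 * K * |s - t| ≤ 2 * K * (Real.sqrt c / (8 * K)) :=
      mul_le_mul_of_nonneg_left h3 (by linarith)
    have h8 : 2 * K * (Real.sqrt c / (8 * K)) = Real.sqrt c / 4 := by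
      have : K ≠ 0 := by linarith
      field_simp
      ring
    linarith
  have h6 : Real.sqrt c / 4 ≤ ‖(W t).1‖ := by
    have := norm_sub_norm_le (W s).1 (W t).1
    linarith
  have h7 : (Real.sqrt c / 4) ^ 2 ≤ ‖(W t).1‖ ^ 2 :=
    pow_le_pow_left₀ (by positivity) h6 2
  have h8 : (Real.sqrt c / 4) ^ 2 = c / 16 := by
    rw [div_pow, Real.sq_sqrt hc.le]
    norm_num
  linarith

/-- the cut off field -/
theorem p1_BL {K Lq m : ℝ} {f0 q : LCS → LCS} (hK : 1 ≤ K) (hf : BL K K f0) (hq : BL Lq Lq q)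
    (hm : 0 ≤ m) (h : m * Lq ≤ 1) : BL (2 * K) (2 * K) (fun Z => f0 Z + m • q Z) := by
  constructor
  · intro Z
    have h1 : ‖m • q Z‖ ≤ m * Lq := by
      rw [norm_smul, Real.norm_eq_abs, abs_of_nonneg hm]
      exact mul_le_mul_of_nonneg_left (hq.1 Z) hm
    have h2 := norm_add_le (f0 Z) (m • q Z)
    have h3 := hf.1 Z
    show ‖f0 Z + m • q Z‖ ≤ 2 * K
    linarith
  · intro Z Z'
    have h0 : (f0 Z + m • q Z) - (f0 Z' + m • q Z') = (f0 Z - f0 Z') + m • (q Z - q Z') := by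
      rw [smul_sub]; abel
    show ‖(f0 Z + m • q Z) - (f0 Z' + m • q Z')‖ ≤ 2 * K * ‖Z - Z'‖
    rw [h0]
    have h1 : ‖m • (q Z - q Z')‖ ≤ m * Lq * ‖Z - Z'‖ := by
      rw [norm_smul, Real.norm_eq_abs, abs_of_nonneg hm, mul_assoc]
      exact mul_le_mul_of_nonneg_left (hq.2 Z Z') hm
    have h2 := norm_add_le (f0 Z - f0 Z') (m • (q Z - q Z'))
    have h3 := hf.2 Z Z'
    have h4 : m * Lq * ‖Z - Z'‖ ≤ K * ‖Z - Z'‖ :=
      mul_le_mul_of_nonneg_right (by linarith) (norm_nonneg _)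
    linarith

theorem p1_rev_x3 (y : St) : x3 (rev y) = x3 y := rfl
theorem p1_rev_x2 (y : St) : x2 (rev y) = x2 y := rfl
theorem p1_rev_cX (y : St) : cX (rev y) = cX y := rfl
theorem p1_rev_cW (y : St) : cW (rev y) = - cW y := by
  show -u3 y - -u2 y = -(u3 y - u2 y)
  ring

/-- the analytic part -/
theorem p1_core (i : Fin 2) (c K τs ε1 : ℝ) (hc : 0 < c) (hK : 1 ≤ K) (hτs : 0 < τs)
    (hcone : ∀ (f0 f : LCS → LCS), BL K K f0 → BL (2 * K) (2 * K) f → (∀ Z, ‖f Z - f0 Z‖ ≤ ε1) →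
      (∀ Z ∈ lcBox c, f0 Z = lcf i 0 Z) →
      ∀ (Z0 : LCS) (e : ℂ) (a : ℝ), Z0 ∈ lcBox c → ‖e‖ = 1 →
        (c ^ 2 / 8 ≤ ((starRingEnd ℂ) e * lcΛ Z0).re → a ≤ ((starRingEnd ℂ) e * lcX Z0).re →
          ∀ τ ∈ Icc 0 τs, a + c ^ 2 / 8 / 2 * τ ≤
            ((starRingEnd ℂ) e * lcX (flow f τ Z0)).re) ∧
        (((starRingEnd ℂ) e * lcΛ Z0).re ≤ -(c ^ 2 / 8) → a ≤ ((starRingEnd ℂ) e * lcX Z0).re →
          ∀ τ ∈ Icc 0 τs, a + c ^ 2 / 8 / 2 * τ ≤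
            ((starRingEnd ℂ) e * lcX (flow f (-τ) Z0)).re))
    (hτ8 : τs ≤ Real.sqrt c / (8 * K))
    (f0 q : LCS → LCS) (Lq μ g te χ χ' : ℝ) (y y' : St) (W : ℝ → LCS)
    (hf0 : BL K K f0) (hf0c : ∀ Z ∈ lcBox c, f0 Z = lcf i 0 Z) (hq : BL Lq Lq q)
    (hμ : 0 < μ) (hg : 0 < g) (hμq : μ ^ 2 * Lq ≤ ε1) (hμq1 : μ ^ 2 * Lq ≤ 1)
    (hcut : ∀ Z ∈ lcBox c, c ^ 2 / 8 * g ^ 2 ≤ ‖lcX Z‖ →
      f0 Z + (μ ^ 2) • q Z = lcf i (μ ^ 2) Z)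
    (hte : 2 * τs ≤ te)
    (hW : ∀ τ, W τ = flow (fun Z => f0 Z + (μ ^ 2) • q Z) τ (W 0))
    (hbox : ∀ τ ∈ Icc 0 te, W τ ∈ lcBox c)
    (hmid : ∀ τ ∈ Icc τs (te - τs), c ^ 2 / 8 * g ^ 2 ≤ ‖lcX (W τ)‖)
    (hy : lcSt i (W 0) = y) (hy' : lcSt i (W te) = rev y')
    (y1 : c / 4 ≤ ‖x3 y‖) (y2 : c / 4 ≤ ‖x2 y‖)
    (y3 : c ^ 2 / 4 * g ^ 2 ≤ (Complex.exp (-(χ : ℂ) * Complex.I) * cX y).re)
    (y4 : c / 2 ≤ (Complex.exp (-(χ : ℂ) * Complex.I) * cW y).re)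
    (z1 : c / 4 ≤ ‖x3 y'‖) (z2 : c / 4 ≤ ‖x2 y'‖)
    (z3 : c ^ 2 / 4 * g ^ 2 ≤ (Complex.exp (-(χ' : ℂ) * Complex.I) * cX y').re)
    (z4 : c / 2 ≤ (Complex.exp (-(χ' : ℂ) * Complex.I) * cW y').re) :
    (∀ τ, ContinuousAt W τ) ∧ (∀ τ ∈ Icc (0:ℝ) te, HasDerivAt W (lcf i (μ ^ 2) (W τ)) τ) ∧
    (∀ τ ∈ Icc (0:ℝ) te, lcX (W τ) ≠ 0 ∧ (W τ).2.2.1 ≠ 0) ∧
    (∀ τ ∈ Icc (0:ℝ) τs, c / 16 ≤ ‖(W τ).1‖ ^ 2) ∧
    (∀ τ ∈ Icc (te - τs) te, c / 16 ≤ ‖(W τ).1‖ ^ 2) := by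
  have hBL : BL (2 * K) (2 * K) (fun Z => f0 Z + (μ ^ 2) • q Z) :=
    p1_BL hK hf0 hq (by positivity) hμq1
  set f : LCS → LCS := fun Z => f0 Z + (μ ^ 2) • q Z with hf
  have hcl : ∀ Z, ‖f Z - f0 Z‖ ≤ ε1 := by
    intro Z
    have h1 : f Z - f0 Z = (μ ^ 2) • q Z := by
      show f0 Z + (μ ^ 2) • q Z - f0 Z = _
      abel
    rw [h1, norm_smul, Real.norm_eq_abs, abs_of_nonneg (by positivity)]
    exact (mul_le_mul_of_nonneg_left (hq.1 Z) (by positivity)).trans hμq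
  have hte0 : 0 ≤ te := by linarith
  have hder : ∀ τ, HasDerivAt W (f (W τ)) τ := by
    intro τ
    have h1 := (flow_spec hBL).2 (W 0) τ
    rw [← hW τ] at h1
    have h2 : (fun s => flow f s (W 0)) = W := (funext hW).symm
    rwa [h2] at h1
  have hW0 : W 0 ∈ lcBox c := hbox 0 ⟨le_refl _, hte0⟩
  have hWe : W te ∈ lcBox c := hbox te ⟨hte0, le_refl _⟩
  have hz0 : c / 4 ≤ ‖(W 0).1‖ ^ 2 := p1_xP i (W 0) c (by rw [hy]; exact y1) (by rw [hy]; exact y2)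
  have hze : c / 4 ≤ ‖(W te).1‖ ^ 2 :=
    p1_xP i (W te) c (by rw [hy', p1_rev_x3]; exact z1) (by rw [hy', p1_rev_x2]; exact z2)
  have hne0 : (W 0).1 ≠ 0 := by
    intro h
    rw [h, norm_zero] at hz0
    norm_num at hz0
    linarith
  have hnee : (W te).1 ≠ 0 := by
    intro h
    rw [h, norm_zero] at hze
    norm_num at hze
    linarith
  -- the cone at the start
  have hstart : ∀ τ ∈ Icc (0:ℝ) τs, c ^ 2 / 8 * g ^ 2 ≤ ‖lcX (W τ)‖ := by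
    intro τ hτ
    have h1 := (hcone f0 f hf0 hBL hcl hf0c (W 0)
      (((sg i : ℝ) : ℂ) * Complex.exp (χ * Complex.I)) (c ^ 2 / 4 * g ^ 2) hW0
      (p1_e_norm i χ)).1
      (by
        rw [p1_L_re i _ _ hne0, hy]
        calc c ^ 2 / 8 = c / 4 * (c / 2) := by ring
          _ ≤ ‖(W 0).1‖ ^ 2 * (Complex.exp (-(χ : ℂ) * Complex.I) * cW y).re :=
            mul_le_mul hz0 y4 (by positivity) (by positivity))
      (by rw [p1_X_re, hy]; exact y3) τ hτ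
    rw [← hW τ] at h1
    have h2 := (Complex.re_le_norm ((starRingEnd ℂ)
      (((sg i : ℝ) : ℂ) * Complex.exp (χ * Complex.I)) * lcX (W τ)))
    rw [norm_mul, Complex.norm_conj, p1_e_norm, one_mul] at h2
    have h3 : 0 ≤ c ^ 2 / 8 / 2 * τ := mul_nonneg (by positivity) hτ.1
    have h4 : c ^ 2 / 8 * g ^ 2 ≤ c ^ 2 / 4 * g ^ 2 := by nlinarith [sq_nonneg (c * g)]
    linarith
  have hend : ∀ τ ∈ Icc (0:ℝ) τs, c ^ 2 / 8 * g ^ 2 ≤ ‖lcX (W (te - τ))‖ := by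
    intro τ hτ
    have h1 := (hcone f0 f hf0 hBL hcl hf0c (W te)
      (((sg i : ℝ) : ℂ) * Complex.exp (χ' * Complex.I)) (c ^ 2 / 4 * g ^ 2) hWe
      (p1_e_norm i χ')).2
      (by
        rw [p1_L_re i _ _ hnee, hy', p1_rev_cW, mul_neg, Complex.neg_re]
        have h5 : c ^ 2 / 8 ≤
            ‖(W te).1‖ ^ 2 * (Complex.exp (-(χ' : ℂ) * Complex.I) * cW y').re := by
          calc c ^ 2 / 8 = c / 4 * (c / 2) := by ring
            _ ≤ _ := mul_le_mul hze z4 (by positivity) (by positivity)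
        linarith)
      (by rw [p1_X_re, hy', p1_rev_cX]; exact z3) τ hτ
    have h6 : flow f (-τ) (W te) = W (te - τ) := by
      rw [hW te, ← flow_add hBL, hW (te - τ)]
      congr 1
      ring
    rw [h6] at h1
    have h2 := (Complex.re_le_norm ((starRingEnd ℂ)
      (((sg i : ℝ) : ℂ) * Complex.exp (χ' * Complex.I)) * lcX (W (te - τ))))
    rw [norm_mul, Complex.norm_conj, p1_e_norm, one_mul] at h2
    have h3 : 0 ≤ c ^ 2 / 8 / 2 * τ := mul_nonneg (by positivity) hτ.1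
    have h4 : c ^ 2 / 8 * g ^ 2 ≤ c ^ 2 / 4 * g ^ 2 := by nlinarith [sq_nonneg (c * g)]
    linarith
  have hall : ∀ τ ∈ Icc (0:ℝ) te, c ^ 2 / 8 * g ^ 2 ≤ ‖lcX (W τ)‖ := by
    intro τ hτ
    rcases le_total τ τs with h1 | h1
    · exact hstart τ ⟨hτ.1, h1⟩
    · rcases le_total τ (te - τs) with h2 | h2
      · exact hmid τ ⟨h1, h2⟩
      · have h3 := hend (te - τ) ⟨by linarith [hτ.2], by linarith⟩
        rwa [sub_sub_cancel] at h3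
  have hlip : ∀ s ∈ Icc (0:ℝ) te, ∀ t ∈ Icc (0:ℝ) te, ‖W s - W t‖ ≤ 2 * K * |s - t| := by
    intro s hs t ht
    have h1 := flow_lip hBL (by linarith) (by linarith) hte0 s ⟨by linarith [hs.1], hs.2⟩ t
      ⟨by linarith [ht.1], ht.2⟩ (W 0) (W 0)
    rw [sub_self, norm_zero, mul_zero, add_zero, ← hW s, ← hW t] at h1
    exact h1
  refine ⟨fun τ => (hder τ).continuousAt, ?_, ?_, ?_, ?_⟩
  · intro τ hτ
    have h1 := hcut (W τ) (hbox τ hτ) (hall τ hτ)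
    have h2 := hder τ
    have h3 : f (W τ) = lcf i (μ ^ 2) (W τ) := h1
    rwa [h3] at h2
  · intro τ hτ
    constructor
    · have h1 := hall τ hτ
      have h2 : 0 < c ^ 2 / 8 * g ^ 2 := by positivity
      exact norm_pos_iff.1 (h2.trans_le h1)
    · exact norm_pos_iff.1 (hc.trans_le (hbox τ hτ).2)
  · intro τ hτ
    apply p1_near_end W c K 0 τ hc hK hz0 (hlip 0 ⟨le_refl _, hte0⟩ τ ⟨hτ.1, by linarith [hτ.2]⟩)
    rw [zero_sub, abs_neg, abs_of_nonneg hτ.1]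
    exact hτ.2.trans hτ8
  · intro τ hτ
    apply p1_near_end W c K te τ hc hK hze (hlip te ⟨hte0, le_refl _⟩ τ ⟨by linarith [hτ.1], hτ.2⟩)
    rw [abs_of_nonneg (by linarith [hτ.2])]
    linarith [hτ.1]

theorem arc_post_pr (i : Fin 2) (c K : ℝ) (hc : 0 < c) (hK : 1 ≤ K) : ∃ τ2 : ℝ, 0 < τ2 ∧
    ∀ τs, 0 < τs → τs ≤ τ2 → ∀ τa, 0 < τa → τa ≤ τs → ∀ σ1, 0 < σ1 →
    ∃ σ ε1 : ℝ, 0 < σ ∧ σ ≤ σ1 ∧ 0 < ε1 ∧
    ∀ (f0 q : LCS → LCS) (Lq μ g te : ℝ) (d d' : Dt) (b b' : ℝ),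
      BL K K f0 → (∀ Z ∈ lcBox c, f0 Z = lcf i 0 Z) → 0 ≤ Lq → BL Lq Lq q →
      0 < μ → μ ≤ ε1 * g → g ≤ ε1 → μ ^ 2 * Lq ≤ ε1 →
      (∀ Z ∈ lcBox c, c ^ 2 / 8 * g ^ 2 ≤ ‖lcX Z‖ → f0 Z + (μ ^ 2) • q Z = lcf i (μ ^ 2) Z) →
      d ∈ DD c → d' ∈ DD c → b ∈ JJ → b' ∈ JJ → b ≠ 0 → b' ≠ 0 → 2 * τs ≤ te →
      (∀ τ ∈ Icc 0 te, flow (fun Z => f0 Z + (μ ^ 2) • q Z) τ
        (stLC i (μ ^ 2) g (innV μ d b g)) ∈ lcBox c) →
      (∀ τ ∈ Icc τs (te - τs), c ^ 2 / 8 * g ^ 2 ≤ ‖lcX (flow (fun Z => f0 Z + (μ ^ 2) • q Z) τ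
        (stLC i (μ ^ 2) g (innV μ d b g)))‖) →
      lcSt i (flow (fun Z => f0 Z + (μ ^ 2) • q Z) te (stLC i (μ ^ 2) g (innV μ d b g))) =
        rev (innSt μ d' b' g) →
      (∀ τ ∈ Icc (te - τs) te, (flow (fun Z => f0 Z + (μ ^ 2) • q Z) τ
        (stLC i (μ ^ 2) g (innV μ d b g))).1 ≠ 0) ∧
      ((∀ τ ∈ Icc τa (te - τa / 2), (flow (fun Z => f0 Z + (μ ^ 2) • q Z) τ
          (stLC i (μ ^ 2) g (innV μ d b g))).1 ≠ 0) →
        ∀ τ ∈ Icc τa (te - τa / 2),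
          Reach (μ ^ 2) (innSt μ d b σ) (lcSt i (flow (fun Z => f0 Z + (μ ^ 2) • q Z) τ
            (stLC i (μ ^ 2) g (innV μ d b g)))) ∧
          (∀ τ' ∈ Icc τ (te - τa / 2),
            Reach (μ ^ 2) (lcSt i (flow (fun Z => f0 Z + (μ ^ 2) • q Z) τ
              (stLC i (μ ^ 2) g (innV μ d b g))))
            (lcSt i (flow (fun Z => f0 Z + (μ ^ 2) • q Z) τ'
              (stLC i (μ ^ 2) g (innV μ d b g))))) ∧
          Reach (μ ^ 2) (lcSt i (flow (fun Z => f0 Z + (μ ^ 2) • q Z) τ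
            (stLC i (μ ^ 2) g (innV μ d b g)))) (rev (innSt μ d' b' σ))) := by
  obtain ⟨τc, εc, hτc, hεc, hcone⟩ := cone i c (c ^ 2 / 8) K hc (by positivity) hK
  have hK0 : 0 < K := by linarith
  have hsq : 0 < Real.sqrt c / (8 * K) := by
    have := Real.sqrt_pos.2 hc
    positivity
  refine ⟨min τc (Real.sqrt c / (8 * K)), lt_min hτc hsq, ?_⟩
  intro τs hτs hτs2 τa hτa hτas σ1 hσ1
  obtain ⟨σp, εp, hσp, hεp, hεp1, hleg⟩ := p1_leg c hc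
  obtain ⟨σL, L, hσL, hL, hlegT⟩ := leg_reachT c hc
  have hL0 : 0 < L := by linarith
  set σ : ℝ := min (min σ1 σL) (min (c * τa / (32 * L)) 1) with hσ
  have hσ0 : 0 < σ := by
    rw [hσ]
    positivity
  have hσa : σ ≤ σ1 := (min_le_left _ _).trans (min_le_left _ _)
  have hσb : σ ≤ σL := (min_le_left _ _).trans (min_le_right _ _)
  have hσc : σ ≤ c * τa / (32 * L) := (min_le_right _ _).trans (min_le_left _ _)
  have hσd : σ ≤ 1 := (min_le_right _ _).trans (min_le_right _ _)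
  have hLσ : L * σ ^ 2 ≤ c / 32 * τa := by
    have h1 : σ ^ 2 ≤ σ := by nlinarith
    have h2 : L * σ ≤ L * (c * τa / (32 * L)) := mul_le_mul_of_nonneg_left hσc hL0.le
    have h3 : L * (c * τa / (32 * L)) = c / 32 * τa := by field_simp
    have h4 : L * σ ^ 2 ≤ L * σ := mul_le_mul_of_nonneg_left h1 hL0.le
    linarith
  refine ⟨σ, min (min εc εp) (min σp (min σ 1)), hσ0, hσa, by positivity, ?_⟩
  intro f0 q Lq μ g te d d' b b' hf0 hf0c hLq hq hμ hμg hgε hμLq hcut hd hd' hb hb' hb0 hb0' hte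
    hbox hmid hend
  set ε1 : ℝ := min (min εc εp) (min σp (min σ 1)) with hε1
  have ea : ε1 ≤ εc := (min_le_left _ _).trans (min_le_left _ _)
  have eb : ε1 ≤ εp := (min_le_left _ _).trans (min_le_right _ _)
  have ec : ε1 ≤ σp := (min_le_right _ _).trans (min_le_left _ _)
  have ed : ε1 ≤ σ := (min_le_right _ _).trans ((min_le_right _ _).trans (min_le_left _ _))
  have ee : ε1 ≤ 1 := (min_le_right _ _).trans ((min_le_right _ _).trans (min_le_right _ _))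
  have eε : 0 < ε1 := by
    rw [hε1]
    positivity
  have hg0 : 0 < g := by
    by_contra h
    have h1 : ε1 * g ≤ 0 := mul_nonpos_of_nonneg_of_nonpos eε.le (not_lt.1 h)
    linarith
  have hμg1 : μ ≤ g := by
    have : ε1 * g ≤ 1 * g := mul_le_mul_of_nonneg_right ee hg0.le
    linarith
  have hμg2 : μ ≤ εp * g := hμg.trans (mul_le_mul_of_nonneg_right eb hg0.le)
  have hgp : g ≤ σp := hgε.trans ec
  have hgσ : g ≤ σ := hgε.trans ed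
  obtain ⟨a1, a2, a3, a4, a5, a6, a7, a8⟩ := hleg μ g hμ hμg2 hgp d hd b hb hb0
  obtain ⟨-, -, -, b4, b5, b6, b7, b8⟩ := hleg μ g hμ hμg2 hgp d' hd' b' hb' hb0'
  have hBL : BL (2 * K) (2 * K) (fun Z => f0 Z + (μ ^ 2) • q Z) :=
    p1_BL hK hf0 hq (by positivity) (hμLq.trans ee)
  set W0 : LCS := stLC i (μ ^ 2) g (innV μ d b g) with hW0
  set W : ℝ → LCS := fun τ => flow (fun Z => f0 Z + (μ ^ 2) • q Z) τ W0 with hWdef
  have hW00 : W 0 = W0 := (flow_spec hBL).1 W0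
  have hW : ∀ τ, W τ = flow (fun Z => f0 Z + (μ ^ 2) • q Z) τ (W 0) := by
    intro τ
    rw [hW00]
  have hinn : innSt μ d b g = ofUV (innV μ d b g).2.2.1 (innV μ d b g).2.2.2.1
      (g * ((innV μ d b g).1 + (innV μ d b g).2.1))
      (g * ((innV μ d b g).1 - (innV μ d b g).2.1)) (innV μ d b g).2.2.2.2 := rfl
  have hLC : W0 = toLC i (μ ^ 2) (innSt μ d b g) := by
    rw [hinn]
    exact stLC_toLC i hg0 a3 a1 a2
  have hy : lcSt i (W 0) = innSt μ d b g := by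
    rw [hW00, hLC]
    exact lcSt_toLC i _ _ ⟨a6.1, a6.2.1⟩
  have hK00 : lcK i (μ ^ 2) (W 0) = 0 := by
    rw [hW00, hLC]
    exact lcK_toLC i _ _ a6
  obtain ⟨w1, w2, w3, w4, w5⟩ := p1_core i c K τs εc hc hK hτs
    (fun f0 f h1 h2 h3 h4 Z0 e a h5 h6 => by
      obtain ⟨k1, k2⟩ := hcone f0 f h1 h2 h3 h4 Z0 e a h5 h6
      exact ⟨fun h7 h8 τ hτ => k1 h7 h8 τ ⟨hτ.1, hτ.2.trans (hτs2.trans (min_le_left _ _))⟩,
        fun h7 h8 τ hτ => k2 h7 h8 τ ⟨hτ.1, hτ.2.trans (hτs2.trans (min_le_left _ _))⟩⟩)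
    (hτs2.trans (min_le_right _ _)) f0 q Lq μ g te d.2.2.2 d'.2.2.2 (innSt μ d b g)
    (innSt μ d' b' g) W hf0 hf0c hq hμ hg0 (hμLq.trans ea) (hμLq.trans ee) hcut hte hW
    hbox hmid hy hend a4 a5 a7 a8 b4 b5 b7 b8
  have hne : ∀ τ, c / 16 ≤ ‖(W τ).1‖ ^ 2 → (W τ).1 ≠ 0 := by
    intro τ h h0
    rw [h0, norm_zero] at h
    norm_num at h
    linarith
  refine ⟨fun τ hτ => hne τ (w5 τ hτ), ?_⟩
  intro hζ τ hτ
  have hζall : ∀ s ∈ Icc (0:ℝ) te, (W s).1 ≠ 0 := by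
    intro s hs
    rcases le_total s τa with h1 | h1
    · exact hne s (w4 s ⟨hs.1, h1.trans hτas⟩)
    · rcases le_total s (te - τa / 2) with h2 | h2
      · exact hζ s ⟨h1, h2⟩
      · exact hne s (w5 s ⟨by linarith, hs.2⟩)
  have hτ1 : 0 ≤ τ := hτa.le.trans hτ.1
  have hτ2 : τ ≤ te := by linarith [hτ.2]
  have hT := p1_reachT i (μ ^ 2) te W w1 w2 hK00 hζall w3
  obtain ⟨T, hT1, hT2⟩ := hlegT μ g σ hμ hμg1 hgσ hσb d hd b hb hb0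
  obtain ⟨T', hT1', hT2'⟩ := hlegT μ g σ hμ hμg1 hgσ hσb d' hd' b' hb' hb0'
  refine ⟨?_, ?_, ?_⟩
  · have h1 := hT 0 τ (le_refl _) hτ1 hτ2
    rw [hy] at h1
    apply reachT_cmp hT2 h1
    have h2 := p1_int W w1 0 τ (c / 16) 0 τa (by positivity) (le_refl _) hτa.le
      (by linarith [hτ.1]) (fun s hs => by
        have e : (0:ℝ) + s = s := zero_add s
        rw [e]
        exact w4 s ⟨hs.1, hs.2.trans hτas⟩)
    have h3 : 0 ≤ c * τa := by positivity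
    linarith
  · intro τ' hτ'
    exact reachT_reach.2 ⟨_, hT τ τ' hτ1 hτ'.1 (by linarith [hτ'.2])⟩
  · have h1 := hT τ te hτ1 hτ2 (le_refl _)
    have h1' : lcSt i (W te) = rev (innSt μ d' b' g) := hend
    rw [h1'] at h1
    apply reachT_cmp' (reachT_rev hT2') h1
    have h2 := p1_int W w1 τ te (c / 16) (te - τa / 2 - τ) (te - τ) (by positivity)
      (by linarith [hτ.2]) (by linarith) (le_refl _) (fun s hs => by
        exact w5 (τ + s) ⟨by linarith [hs.1], by linarith [hs.2]⟩)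
    have h3 : c / 16 * (te - τ - (te - τa / 2 - τ)) = c / 32 * τa := by ring
    linarith

end

end Pool.Agent.HS

namespace Pool.Agent.HS
open Set Filter Topology Classical

theorem arc_post (i : Fin 2) (c K : ℝ) (hc : 0 < c) (hK : 1 ≤ K) : ∃ τ2 : ℝ, 0 < τ2 ∧
    ∀ τs, 0 < τs → τs ≤ τ2 → ∀ τa, 0 < τa → τa ≤ τs → ∀ σ1, 0 < σ1 →
    ∃ σ ε1 : ℝ, 0 < σ ∧ σ ≤ σ1 ∧ 0 < ε1 ∧
    ∀ (f0 q : LCS → LCS) (Lq μ g te : ℝ) (d d' : Dt) (b b' : ℝ),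
      BL K K f0 → (∀ Z ∈ lcBox c, f0 Z = lcf i 0 Z) → 0 ≤ Lq → BL Lq Lq q →
      0 < μ → μ ≤ ε1 * g → g ≤ ε1 → μ ^ 2 * Lq ≤ ε1 →
      (∀ Z ∈ lcBox c, c ^ 2 / 8 * g ^ 2 ≤ ‖lcX Z‖ → f0 Z + (μ ^ 2) • q Z = lcf i (μ ^ 2) Z) →
      d ∈ DD c → d' ∈ DD c → b ∈ JJ → b' ∈ JJ → b ≠ 0 → b' ≠ 0 → 2 * τs ≤ te →
      (∀ τ ∈ Icc 0 te, flow (fun Z => f0 Z + (μ ^ 2) • q Z) τ
        (stLC i (μ ^ 2) g (innV μ d b g)) ∈ lcBox c) →
      (∀ τ ∈ Icc τs (te - τs), c ^ 2 / 8 * g ^ 2 ≤ ‖lcX (flow (fun Z => f0 Z + (μ ^ 2) • q Z) τ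
        (stLC i (μ ^ 2) g (innV μ d b g)))‖) →
      lcSt i (flow (fun Z => f0 Z + (μ ^ 2) • q Z) te (stLC i (μ ^ 2) g (innV μ d b g))) =
        rev (innSt μ d' b' g) →
      (∀ τ ∈ Icc (te - τs) te, (flow (fun Z => f0 Z + (μ ^ 2) • q Z) τ
        (stLC i (μ ^ 2) g (innV μ d b g))).1 ≠ 0) ∧
      ((∀ τ ∈ Icc τa (te - τa / 2), (flow (fun Z => f0 Z + (μ ^ 2) • q Z) τ
          (stLC i (μ ^ 2) g (innV μ d b g))).1 ≠ 0) →
        ∀ τ ∈ Icc τa (te - τa / 2),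
          Reach (μ ^ 2) (innSt μ d b σ) (lcSt i (flow (fun Z => f0 Z + (μ ^ 2) • q Z) τ
            (stLC i (μ ^ 2) g (innV μ d b g)))) ∧
          (∀ τ' ∈ Icc τ (te - τa / 2),
            Reach (μ ^ 2) (lcSt i (flow (fun Z => f0 Z + (μ ^ 2) • q Z) τ
              (stLC i (μ ^ 2) g (innV μ d b g))))
            (lcSt i (flow (fun Z => f0 Z + (μ ^ 2) • q Z) τ'
              (stLC i (μ ^ 2) g (innV μ d b g))))) ∧
          Reach (μ ^ 2) (lcSt i (flow (fun Z => f0 Z + (μ ^ 2) • q Z) τ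
            (stLC i (μ ^ 2) g (innV μ d b g)))) (rev (innSt μ d' b' σ))) :=
  @Pool.Agent.HS.arc_post_pr i c K hc hK

end Pool.Agent.HS
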