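import Pool.Agent.Lib_helper60.HSF.D_WK
import Pool.Agent.Lib_helper60.HSF.K_KA1
import Pool.Agent.Lib_helper60.HSF.K_KA2

namespace Pool.Agent.HS

noncomputable section

open Set Filter Topology
open scoped ContDiff

/-- derivative of the distance -/
def kb1_D (y : KS) (s : ℝ) : ℝ :=
  -((kr y - kA y) * Real.sin s) + Real.sqrt (kA y) * kσ y * Real.cos s

theorem kb1_kr {y : KS} (h : Ell y) (s : ℝ) : kr (kY y s) = kR y s := by
  unfold kr kY
  exact norm_kX h.1 (kL_ne h.2) s

theorem kb1_re (a b c d k : ℝ) (x v : ℂ) :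
    ((starRingEnd ℂ) ((a : ℂ) * x + (b : ℂ) * v) * ((k : ℂ) * ((c : ℂ) * x + (d : ℂ) * v))).re =
      k * (a * c * ‖x‖ ^ 2 + (a * d + b * c) * ((starRingEnd ℂ) x * v).re + b * d * ‖v‖ ^ 2) := by
  rw [Complex.sq_norm, Complex.sq_norm, Complex.normSq_apply, Complex.normSq_apply]
  simp only [map_add, map_mul, Complex.conj_ofReal, Complex.add_re, Complex.mul_re,
    Complex.add_im, Complex.mul_im, Complex.ofReal_re, Complex.ofReal_im, Complex.conj_re,
    Complex.conj_im]
  ring

theorem kb1_σ {y : KS} (h : Ell y) (s : ℝ) :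
    Real.sqrt (kA y) * kσ (kY y s) = kb1_D y s := by
  have hA0 : 0 < kA y := kA_pos h.1
  have hA : 0 < Real.sqrt (kA y) := Real.sqrt_pos.2 hA0
  have hR : 0 < kR y s := kR_pos h s
  have h0 : y.1 ≠ 0 := kL_ne h.2
  have hr : 0 < kr y := norm_pos_iff.2 h0
  have hAA : Real.sqrt (kA y) ^ 2 = kA y := Real.sq_sqrt hA0.le
  have hv := norm_v_sq h.1
  have e : kσ (kY y s) = ((starRingEnd ℂ) (kX y s) * kV y s).re := rfl
  rw [e]
  unfold kX kV
  rw [kb1_re]
  have e1 : ((starRingEnd ℂ) y.1 * y.2).re = kσ y := rfl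
  have e2 : ‖y.1‖ = kr y := rfl
  rw [e1, e2, hv]
  have hsc : Real.sin s ^ 2 + Real.cos s ^ 2 = 1 := Real.sin_sq_add_cos_sq s
  have hRe : kR y s = kA y + (kr y - kA y) * Real.cos s + Real.sqrt (kA y) * kσ y * Real.sin s := rfl
  unfold kb1_D
  field_simp
  rw [hRe]
  generalize Real.sqrt (kA y) = q at *
  generalize Real.sin s = S at *
  generalize Real.cos s = C at *
  generalize kσ y = σ at *
  generalize kr y = r at *
  generalize kA y = A at *
  grind

theorem kb1_R {y : KS} (h : Ell y) (s t : ℝ) : kR (kY y s) t = kR y (s + t) := by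
  have hs := kb1_σ h s
  unfold kR
  rw [kY_A h, kb1_kr h, hs, Real.cos_add, Real.sin_add]
  unfold kR kb1_D
  ring

theorem kb1_X {y : KS} (h : Ell y) (s t : ℝ) : kX (kY y s) t = kX y (s + t) := by
  have hA0 : 0 < kA y := kA_pos h.1
  have hA : 0 < Real.sqrt (kA y) := Real.sqrt_pos.2 hA0
  have hR : 0 < kR y s := kR_pos h s
  have h0 : y.1 ≠ 0 := kL_ne h.2
  have hr : 0 < kr y := norm_pos_iff.2 h0
  have hAA : Real.sqrt (kA y) ^ 2 = kA y := Real.sq_sqrt hA0.le
  have hσ := kb1_σ h s
  have hsc : Real.sin s ^ 2 + Real.cos s ^ 2 = 1 := Real.sin_sq_add_cos_sq s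
  have hRe : kR y s = kA y + (kr y - kA y) * Real.cos s + Real.sqrt (kA y) * kσ y * Real.sin s := rfl
  have hD : kb1_D y s = -((kr y - kA y) * Real.sin s) + Real.sqrt (kA y) * kσ y * Real.cos s := rfl
  have e0 : kX (kY y s) t = ((1 - kA (kY y s) / kr (kY y s) * (1 - Real.cos t)) : ℝ) * kX y s
    + ((Real.sqrt (kA (kY y s)) * kr (kY y s) * Real.sin t
      + kA (kY y s) * kσ (kY y s) * (1 - Real.cos t)) : ℝ) * kV y s := rfl
  rw [e0, kY_A h, kb1_kr h]
  have hσ' : kA y * kσ (kY y s) = Real.sqrt (kA y) * kb1_D y s := by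
    rw [← hσ, ← mul_assoc, ← pow_two, hAA]
  rw [hσ']
  unfold kX kV
  have c1 : (1 - kA y / kR y s * (1 - Real.cos t)) * (1 - kA y / kr y * (1 - Real.cos s))
      + (Real.sqrt (kA y) * kR y s * Real.sin t + Real.sqrt (kA y) * kb1_D y s * (1 - Real.cos t)) *
        ((Real.sqrt (kA y) * kR y s)⁻¹ * (- (kA y / kr y) * Real.sin s)) =
      1 - kA y / kr y * (1 - Real.cos (s + t)) := by
    rw [Real.cos_add, hD]
    field_simp
    rw [hRe]
    generalize Real.sqrt (kA y) = q at *
    generalize Real.sin s = S at *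
    generalize Real.cos s = C at *
    generalize Real.sin t = S' at *
    generalize Real.cos t = C' at *
    generalize kσ y = σ at *
    generalize kr y = r at *
    generalize kA y = A at *
    clear hσ hσ' hD e0 hRe hR h0 h hr hA0 hA
    grind
  have c2 : (1 - kA y / kR y s * (1 - Real.cos t)) *
        (Real.sqrt (kA y) * kr y * Real.sin s + kA y * kσ y * (1 - Real.cos s))
      + (Real.sqrt (kA y) * kR y s * Real.sin t + Real.sqrt (kA y) * kb1_D y s * (1 - Real.cos t)) *
        ((Real.sqrt (kA y) * kR y s)⁻¹ *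
          (Real.sqrt (kA y) * kr y * Real.cos s + kA y * kσ y * Real.sin s)) =
      Real.sqrt (kA y) * kr y * Real.sin (s + t) + kA y * kσ y * (1 - Real.cos (s + t)) := by
    rw [Real.cos_add, Real.sin_add, hD]
    field_simp
    rw [hRe]
    generalize Real.sqrt (kA y) = q at *
    generalize Real.sin s = S at *
    generalize Real.cos s = C at *
    generalize Real.sin t = S' at *
    generalize Real.cos t = C' at *
    generalize kσ y = σ at *
    generalize kr y = r at *
    generalize kA y = A at *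
    clear hσ hσ' hD e0 hRe hR h0 h hr hA0 hA
    grind
  have c1' := congrArg (fun t : ℝ => (t : ℂ)) c1
  have c2' := congrArg (fun t : ℝ => (t : ℂ)) c2
  simp only [Complex.ofReal_add, Complex.ofReal_mul] at c1' c2' ⊢
  linear_combination y.1 * c1' + y.2 * c2'

theorem kb1_V {y : KS} (h : Ell y) (s t : ℝ) : kV (kY y s) t = kV y (s + t) := by
  have hA0 : 0 < kA y := kA_pos h.1
  have hA : 0 < Real.sqrt (kA y) := Real.sqrt_pos.2 hA0
  have hR : 0 < kR y s := kR_pos h s
  have hR' : 0 < kR y (s + t) := kR_pos h (s + t)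
  have h0 : y.1 ≠ 0 := kL_ne h.2
  have hr : 0 < kr y := norm_pos_iff.2 h0
  have hAA : Real.sqrt (kA y) ^ 2 = kA y := Real.sq_sqrt hA0.le
  have hσ := kb1_σ h s
  have hsc : Real.sin s ^ 2 + Real.cos s ^ 2 = 1 := Real.sin_sq_add_cos_sq s
  have hRe : kR y s = kA y + (kr y - kA y) * Real.cos s + Real.sqrt (kA y) * kσ y * Real.sin s := rfl
  have hD : kb1_D y s = -((kr y - kA y) * Real.sin s) + Real.sqrt (kA y) * kσ y * Real.cos s := rfl
  have e0 : kV (kY y s) t = ((Real.sqrt (kA (kY y s)) * kR (kY y s) t)⁻¹ : ℝ) *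
    ((- (kA (kY y s) / kr (kY y s)) * Real.sin t : ℝ) * kX y s
      + ((Real.sqrt (kA (kY y s)) * kr (kY y s) * Real.cos t
        + kA (kY y s) * kσ (kY y s) * Real.sin t) : ℝ) * kV y s) := rfl
  rw [e0, kY_A h, kb1_kr h, kb1_R h]
  have hσ' : kA y * kσ (kY y s) = Real.sqrt (kA y) * kb1_D y s := by
    rw [← hσ, ← mul_assoc, ← pow_two, hAA]
  rw [hσ']
  unfold kX kV
  have c1 : - (kA y / kR y s) * Real.sin t * (1 - kA y / kr y * (1 - Real.cos s))
      + (Real.sqrt (kA y) * kR y s * Real.cos t + Real.sqrt (kA y) * kb1_D y s * Real.sin t) *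
        ((Real.sqrt (kA y) * kR y s)⁻¹ * (- (kA y / kr y) * Real.sin s)) =
      - (kA y / kr y) * Real.sin (s + t) := by
    rw [Real.sin_add, hD]
    field_simp
    rw [hRe]
    generalize Real.sqrt (kA y) = q at *
    generalize Real.sin s = S at *
    generalize Real.cos s = C at *
    generalize Real.sin t = S' at *
    generalize Real.cos t = C' at *
    generalize kσ y = σ at *
    generalize kr y = r at *
    generalize kA y = A at *
    clear hσ hσ' hD e0 hRe hR h0 h hr hA0 hA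
    grind
  have c2 : - (kA y / kR y s) * Real.sin t *
        (Real.sqrt (kA y) * kr y * Real.sin s + kA y * kσ y * (1 - Real.cos s))
      + (Real.sqrt (kA y) * kR y s * Real.cos t + Real.sqrt (kA y) * kb1_D y s * Real.sin t) *
        ((Real.sqrt (kA y) * kR y s)⁻¹ *
          (Real.sqrt (kA y) * kr y * Real.cos s + kA y * kσ y * Real.sin s)) =
      Real.sqrt (kA y) * kr y * Real.cos (s + t) + kA y * kσ y * Real.sin (s + t) := by
    rw [Real.cos_add, Real.sin_add, hD]
    field_simp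
    rw [hRe]
    generalize Real.sqrt (kA y) = q at *
    generalize Real.sin s = S at *
    generalize Real.cos s = C at *
    generalize Real.sin t = S' at *
    generalize Real.cos t = C' at *
    generalize kσ y = σ at *
    generalize kr y = r at *
    generalize kA y = A at *
    clear hσ hσ' hD e0 hRe hR h0 h hr hA0 hA
    grind
  have c1' := congrArg (fun t : ℝ => (t : ℂ)) c1
  have c2' := congrArg (fun t : ℝ => (t : ℂ)) c2
  simp only [Complex.ofReal_add, Complex.ofReal_mul] at c1' c2' ⊢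
  linear_combination ((Real.sqrt (kA y) * kR y (s + t))⁻¹ : ℝ) * (y.1 * c1' + y.2 * c2')

theorem kY_add_pr {y : KS} (h : Ell y) (s t : ℝ) : kY y (s + t) = kY (kY y s) t := by
  show (kX y (s + t), kV y (s + t)) = (kX (kY y s) t, kV (kY y s) t)
  rw [kb1_X h, kb1_V h]

theorem kT_add_pr {y : KS} (h : Ell y) (s t : ℝ) :
    kT y (s + t) = kT y s + kT (kY y s) t := by
  have hσ := kb1_σ h s
  have e : kT (kY y s) t = Real.sqrt (kA (kY y s)) * (kA (kY y s) * t
    + (kr (kY y s) - kA (kY y s)) * Real.sin t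
    + Real.sqrt (kA (kY y s)) * kσ (kY y s) * (1 - Real.cos t)) := rfl
  rw [e, kY_A h, kb1_kr h, hσ]
  unfold kT kR kb1_D
  rw [Real.cos_add, Real.sin_add]
  ring

end

end Pool.Agent.HS

namespace Pool.Agent.HS
open Set Filter Topology
open scoped ContDiff

theorem kY_add {y : KS} (h : Ell y) (s t : ℝ) : kY y (s + t) = kY (kY y s) t :=
  @Pool.Agent.HS.kY_add_pr y h s t

end Pool.Agent.HS

namespace Pool.Agent.HS
open Set Filter Topology
open scoped ContDiff

theorem kT_add {y : KS} (h : Ell y) (s t : ℝ) : kT y (s + t) = kT y s + kT (kY y s) t :=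
  @Pool.Agent.HS.kT_add_pr y h s t

end Pool.Agent.HS
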