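import Pool.Agent.Lib_helper60.HSF.D_WK

/-!
# Project HS, block KB2: periodicity, rotation and time reversal of the Kepler formulas
-/

namespace Pool.Agent.HS

noncomputable section

open Set Filter Topology
open scoped ContDiff

theorem kb2_cos (s : ℝ) (n : ℤ) : Real.cos (s + 2 * Real.pi * n) = Real.cos s := by
  rw [show s + 2 * Real.pi * n = s + n * (2 * Real.pi) by ring]
  exact Real.cos_add_int_mul_two_pi s n

theorem kb2_sin (s : ℝ) (n : ℤ) : Real.sin (s + 2 * Real.pi * n) = Real.sin s := by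
  rw [show s + 2 * Real.pi * n = s + n * (2 * Real.pi) by ring]
  exact Real.sin_add_int_mul_two_pi s n

theorem kY_per_pr (y : KS) (s : ℝ) (n : ℤ) : kY y (s + 2 * Real.pi * n) = kY y s := by
  unfold kY kX kV kR
  rw [kb2_cos, kb2_sin]

theorem kT_per_pr (y : KS) (s : ℝ) (n : ℤ) :
    kT y (s + 2 * Real.pi * n) = kT y s + kPer y * n := by
  unfold kT kPer
  rw [kb2_cos, kb2_sin]
  ring

theorem kb2_norm {ρ : ℂ} (hρ : ‖ρ‖ = 1) (z : ℂ) : ‖ρ * z‖ = ‖z‖ := by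
  rw [norm_mul, hρ, one_mul]

theorem kb2_conj {ρ : ℂ} (hρ : ‖ρ‖ = 1) : (starRingEnd ℂ) ρ * ρ = 1 := by
  rw [mul_comm, Complex.mul_conj, Complex.normSq_eq_norm_sq, hρ]
  norm_num

theorem kb2_kA {y : KS} {ρ : ℂ} (hρ : ‖ρ‖ = 1) : kA (ρ * y.1, ρ * y.2) = kA y := by
  simp only [kA, kh', kb2_norm hρ]

theorem kb2_kr {y : KS} {ρ : ℂ} (hρ : ‖ρ‖ = 1) : kr (ρ * y.1, ρ * y.2) = kr y := by
  simp only [kr, kb2_norm hρ]

theorem kb2_kσ {y : KS} {ρ : ℂ} (hρ : ‖ρ‖ = 1) : kσ (ρ * y.1, ρ * y.2) = kσ y := by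
  simp only [kσ, map_mul]
  rw [show (starRingEnd ℂ) ρ * (starRingEnd ℂ) y.1 * (ρ * y.2) =
    ((starRingEnd ℂ) ρ * ρ) * ((starRingEnd ℂ) y.1 * y.2) by ring, kb2_conj hρ, one_mul]

theorem kY_smul_rot_pr {y : KS} {ρ : ℂ} (hρ : ‖ρ‖ = 1) (s : ℝ) :
    kY (ρ * y.1, ρ * y.2) s = (ρ * (kY y s).1, ρ * (kY y s).2) ∧
    kT (ρ * y.1, ρ * y.2) s = kT y s := by
  refine ⟨?_, ?_⟩
  · unfold kY kX kV kR
    rw [kb2_kA hρ, kb2_kr hρ, kb2_kσ hρ]
    refine Prod.ext ?_ ?_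
    · simp only
      ring
    · simp only
      ring
  · unfold kT
    rw [kb2_kA hρ, kb2_kr hρ, kb2_kσ hρ]

theorem kb2_rA (y : KS) : kA (y.1, -y.2) = kA y := by
  simp only [kA, kh', norm_neg]

theorem kb2_rr (y : KS) : kr (y.1, -y.2) = kr y := rfl

theorem kb2_rσ (y : KS) : kσ (y.1, -y.2) = - kσ y := by
  simp only [kσ, mul_neg, Complex.neg_re]

/-- time reversal -/
theorem kY_rev_pr {y : KS} (s : ℝ) :
    kY (y.1, -y.2) s = ((kY y (-s)).1, -(kY y (-s)).2) ∧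
    kT (y.1, -y.2) s = - kT y (-s) := by
  refine ⟨?_, ?_⟩
  · unfold kY kX kV kR
    rw [kb2_rA, kb2_rr, kb2_rσ, Real.cos_neg, Real.sin_neg]
    refine Prod.ext ?_ ?_
    · simp only
      push_cast
      ring
    · simp only
      rw [show kA y + (kr y - kA y) * Real.cos s + Real.sqrt (kA y) * kσ y * -Real.sin s =
        kA y + (kr y - kA y) * Real.cos s + Real.sqrt (kA y) * -kσ y * Real.sin s by ring]
      push_cast
      ring
  · unfold kT
    rw [kb2_rA, kb2_rr, kb2_rσ, Real.cos_neg, Real.sin_neg]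
    ring

end

end Pool.Agent.HS

namespace Pool.Agent.HS
open Set Filter Topology
open scoped ContDiff

theorem kY_per (y : KS) (s : ℝ) (n : ℤ) : kY y (s + 2 * Real.pi * n) = kY y s :=
  @Pool.Agent.HS.kY_per_pr y s n

end Pool.Agent.HS

namespace Pool.Agent.HS
open Set Filter Topology
open scoped ContDiff

theorem kT_per (y : KS) (s : ℝ) (n : ℤ) :
    kT y (s + 2 * Real.pi * n) = kT y s + kPer y * n :=
  @Pool.Agent.HS.kT_per_pr y s n

end Pool.Agent.HS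

namespace Pool.Agent.HS
open Set Filter Topology
open scoped ContDiff

theorem kY_smul_rot {y : KS} {ρ : ℂ} (hρ : ‖ρ‖ = 1) (s : ℝ) :
    kY (ρ * y.1, ρ * y.2) s = (ρ * (kY y s).1, ρ * (kY y s).2) ∧
    kT (ρ * y.1, ρ * y.2) s = kT y s :=
  @Pool.Agent.HS.kY_smul_rot_pr y ρ hρ s

end Pool.Agent.HS

namespace Pool.Agent.HS
open Set Filter Topology
open scoped ContDiff

theorem kY_rev {y : KS} (s : ℝ) :
    kY (y.1, -y.2) s = ((kY y (-s)).1, -(kY y (-s)).2) ∧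
    kT (y.1, -y.2) s = - kT y (-s) :=
  @Pool.Agent.HS.kY_rev_pr y s

end Pool.Agent.HS
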