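import Pool.Agent.Lib_helper60.HSF.D_WK
import Pool.Agent.Lib_helper60.HSF.K_KB1
import Pool.Agent.Lib_helper60.HSF.K_KA1
import Pool.Agent.Lib_helper60.HSF.K_KB2
import Pool.Agent.Lib_helper60.HSF.K_KC2
import Pool.Agent.Lib_helper60.HSF.K_KD1
import Pool.Agent.Lib_helper60.HSF.K_KA2

/-!
# HS, part Z, block KD2: the Kepler flow, group law, injectivity, symmetries
-/

namespace Pool.Agent.HS

noncomputable section

open Set Filter Topology
open scoped ContDiff

theorem kep_add_pr {y : KS} (h : Ell y) (s t : ℝ) : kep (s + t) y = kep t (kep s y) := by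
  have h0 := kL_ne h.2
  have hs : s = kT y (kS y s) := (kT_kS h.1 h0 s).symm
  set a := kS y s with ha
  have h1 : Ell (kY y a) := kY_ell h a
  have h10 := kL_ne h1.2
  have e1 : kep s y = kY y a := by rw [hs, kep_kT h]
  have ht : t = kT (kY y a) (kS (kY y a) t) := (kT_kS h1.1 h10 t).symm
  set b := kS (kY y a) t with hb
  rw [e1]
  have e2 : s + t = kT y (a + b) := by rw [kT_add h, ← hs, ← ht]
  rw [e2, kep_kT h, kY_add h, ht, kep_kT h1]

theorem kep_per_pr {y : KS} (h : Ell y) (t : ℝ) (n : ℤ) :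
    kep (t + kPer y * n) y = kep t y := by
  have h0 := kL_ne h.2
  have ht : t = kT y (kS y t) := (kT_kS h.1 h0 t).symm
  rw [ht, ← kT_per, kep_kT h, kep_kT h, kY_per]

theorem kX_inj_pr {y : KS} (h : Ell y) {s s' : ℝ} (hs : kX y s = kX y s') :
    ∃ n : ℤ, s' = s + 2 * Real.pi * n := by
  have h0 := kL_ne h.2
  have hA := kA_pos h.1
  have hr : 0 < kr y := norm_pos_iff.mpr h0
  have hL : kL y ≠ 0 := h.2
  have hLd : kL y = y.1.re * y.2.im - y.1.im * y.2.re := by
    simp [kL]
    ring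
  -- the two coefficients
  set p := (1 - kA y / kr y * (1 - Real.cos s)) - (1 - kA y / kr y * (1 - Real.cos s')) with hp
  set q := (Real.sqrt (kA y) * kr y * Real.sin s + kA y * kσ y * (1 - Real.cos s)) -
    (Real.sqrt (kA y) * kr y * Real.sin s' + kA y * kσ y * (1 - Real.cos s')) with hq
  have h1 : (p : ℂ) * y.1 + (q : ℂ) * y.2 = 0 := by
    have h2 : (p : ℂ) * y.1 + (q : ℂ) * y.2 = kX y s - kX y s' := by
      simp only [kX, hp, hq]
      push_cast
      ring
    rw [h2, hs, sub_self]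
  have hre := congrArg Complex.re h1
  have him := congrArg Complex.im h1
  simp only [Complex.add_re, Complex.mul_re, Complex.ofReal_re, Complex.ofReal_im, zero_mul,
    sub_zero, Complex.zero_re, Complex.add_im, Complex.mul_im, add_zero, Complex.zero_im]
    at hre him
  have hpz : p = 0 := by
    have h3 : p * kL y = 0 := by
      rw [hLd]
      linear_combination y.2.im * hre - y.2.re * him
    exact (mul_eq_zero.mp h3).resolve_right hL
  have hqz : q = 0 := by
    have h3 : q * kL y = 0 := by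
      rw [hLd]
      linear_combination y.1.re * him - y.1.im * hre
    exact (mul_eq_zero.mp h3).resolve_right hL
  have hcos : Real.cos s = Real.cos s' := by
    have h3 : kA y / kr y * (Real.cos s - Real.cos s') = 0 := by
      rw [hp] at hpz
      linear_combination hpz
    have h4 : kA y / kr y ≠ 0 := (div_pos hA hr).ne'
    exact sub_eq_zero.mp ((mul_eq_zero.mp h3).resolve_left h4)
  have hsin : Real.sin s = Real.sin s' := by
    have h3 : (Real.sqrt (kA y) * kr y) * (Real.sin s - Real.sin s') = 0 := by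
      rw [hq, hcos] at hqz
      linear_combination hqz
    have h4 : Real.sqrt (kA y) * kr y ≠ 0 := (mul_pos (Real.sqrt_pos.mpr hA) hr).ne'
    exact sub_eq_zero.mp ((mul_eq_zero.mp h3).resolve_left h4)
  have h5 := Real.Angle.cos_sin_inj hcos.symm hsin.symm
  rw [Real.Angle.angle_eq_iff_two_pi_dvd_sub] at h5
  obtain ⟨n, hn⟩ := h5
  exact ⟨n, by linarith⟩


theorem _root_.Pool.Agent.HS.kX_inj {y : KS} (h : Ell y) {s s' : ℝ} (hs : kX y s = kX y s') :
    ∃ n : ℤ, s' = s + 2 * Real.pi * n :=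
  @Pool.Agent.HS.kX_inj_pr y h s s' hs

theorem kep_inj_pr {y : KS} (h : Ell y) {t t' : ℝ} (ht : (kep t y).1 = (kep t' y).1) :
    ∃ n : ℤ, t' = t + kPer y * n := by
  have h0 := kL_ne h.2
  obtain ⟨n, hn⟩ := kX_inj h (s := kS y t) (s' := kS y t') ht
  refine ⟨n, ?_⟩
  have e1 : t = kT y (kS y t) := (kT_kS h.1 h0 t).symm
  have e2 : t' = kT y (kS y t') := (kT_kS h.1 h0 t').symm
  rw [hn, kT_per, ← e1] at e2
  exact e2

theorem kd2_ell_rot {y : KS} (h : Ell y) {ρ : ℂ} (hρ : ‖ρ‖ = 1) : Ell (ρ * y.1, ρ * y.2) := by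
  have h1 : (starRingEnd ℂ) ρ * ρ = 1 := by
    rw [mul_comm, Complex.mul_conj, Complex.normSq_eq_norm_sq, hρ]
    norm_num
  constructor
  · have := h.1
    unfold kh' at this ⊢
    simpa [norm_mul, hρ] using this
  · have := h.2
    unfold kL at this ⊢
    have h2 : (starRingEnd ℂ) (ρ * y.1) * (ρ * y.2) = (starRingEnd ℂ) y.1 * y.2 := by
      rw [map_mul]
      linear_combination ((starRingEnd ℂ) y.1 * y.2) * h1
    show ((starRingEnd ℂ) (ρ * y.1) * (ρ * y.2)).im ≠ 0
    rw [h2]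
    exact this

theorem kd2_ell_rev {y : KS} (h : Ell y) : Ell (y.1, -y.2) := by
  constructor
  · have := h.1
    unfold kh' at this ⊢
    simpa using this
  · have := h.2
    unfold kL at this ⊢
    intro h1
    apply this
    simp only [mul_neg, Complex.neg_im, neg_eq_zero] at h1
    exact h1

theorem kep_rot_pr {y : KS} (h : Ell y) {ρ : ℂ} (hρ : ‖ρ‖ = 1) (t : ℝ) :
    kep t (ρ * y.1, ρ * y.2) = (ρ * (kep t y).1, ρ * (kep t y).2) := by
  have h0 := kL_ne h.2
  have e1 : t = kT y (kS y t) := (kT_kS h.1 h0 t).symm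
  obtain ⟨r1, r2⟩ := kY_smul_rot (y := y) hρ (kS y t)
  have e2 : kep t (ρ * y.1, ρ * y.2) = kY (ρ * y.1, ρ * y.2) (kS y t) := by
    have := kep_kT (kd2_ell_rot h hρ) (kS y t)
    rw [r2, ← e1] at this
    exact this
  rw [e2, r1]
  rfl

theorem kep_rev_pr {y : KS} (h : Ell y) (t : ℝ) :
    kep t (y.1, -y.2) = ((kep (-t) y).1, -(kep (-t) y).2) := by
  have h0 := kL_ne h.2
  have e1 : -t = kT y (kS y (-t)) := (kT_kS h.1 h0 (-t)).symm
  obtain ⟨r1, r2⟩ := kY_rev (y := y) (-(kS y (-t)))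
  rw [neg_neg] at r1 r2
  rw [← e1, neg_neg] at r2
  have e2 : kep t (y.1, -y.2) = kY (y.1, -y.2) (-(kS y (-t))) := by
    have := kep_kT (kd2_ell_rev h) (-(kS y (-t)))
    rw [r2] at this
    exact this
  rw [e2, r1]
  rfl

end

end Pool.Agent.HS

namespace Pool.Agent.HS
open Set Filter Topology
open scoped ContDiff

theorem kep_add {y : KS} (h : Ell y) (s t : ℝ) : kep (s + t) y = kep t (kep s y) :=
  @Pool.Agent.HS.kep_add_pr y h s t

end Pool.Agent.HS

namespace Pool.Agent.HS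
open Set Filter Topology
open scoped ContDiff

theorem kep_per {y : KS} (h : Ell y) (t : ℝ) (n : ℤ) : kep (t + kPer y * n) y = kep t y :=
  @Pool.Agent.HS.kep_per_pr y h t n

end Pool.Agent.HS

namespace Pool.Agent.HS
open Set Filter Topology
open scoped ContDiff

theorem kep_inj {y : KS} (h : Ell y) {t t' : ℝ} (ht : (kep t y).1 = (kep t' y).1) :
    ∃ n : ℤ, t' = t + kPer y * n :=
  @Pool.Agent.HS.kep_inj_pr y h t t' ht

end Pool.Agent.HS

namespace Pool.Agent.HS
open Set Filter Topology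
open scoped ContDiff

theorem kep_rot {y : KS} (h : Ell y) {ρ : ℂ} (hρ : ‖ρ‖ = 1) (t : ℝ) :
    kep t (ρ * y.1, ρ * y.2) = (ρ * (kep t y).1, ρ * (kep t y).2) :=
  @Pool.Agent.HS.kep_rot_pr y h ρ hρ t

end Pool.Agent.HS

namespace Pool.Agent.HS
open Set Filter Topology
open scoped ContDiff

theorem kep_rev {y : KS} (h : Ell y) (t : ℝ) :
    kep t (y.1, -y.2) = ((kep (-t) y).1, -(kep (-t) y).2) :=
  @Pool.Agent.HS.kep_rev_pr y h t

end Pool.Agent.HS
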