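import Pool.Agent.Lib_helper60.HSF.D_WK
import Pool.Agent.Lib_helper60.HSF.K_KA1

/-!
# Project HS, part Z, block KE1
-/

namespace Pool.Agent.HS

noncomputable section

open Set Filter Topology
open scoped ContDiff

theorem ke1_kr {p : KS × ℝ} (h0 : p.1.1 ≠ 0) : ContDiffAt ℝ ∞ (fun p : KS × ℝ => kr p.1) p := by
  have h1 : ContDiffAt ℝ ∞ (fun p : KS × ℝ => p.1.1) p :=
    (contDiff_fst.comp contDiff_fst).contDiffAt
  exact h1.norm ℝ h0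

theorem ke1_kh {p : KS × ℝ} (h0 : p.1.1 ≠ 0) : ContDiffAt ℝ ∞ (fun p : KS × ℝ => kh' p.1) p := by
  have h1 : ContDiffAt ℝ ∞ (fun p : KS × ℝ => ‖p.1.2‖ ^ 2) p :=
    ((contDiff_snd.comp contDiff_fst).norm_sq ℝ).contDiffAt
  have h2 := ke1_kr h0
  have h3 : ContDiffAt ℝ ∞ (fun p : KS × ℝ => ‖p.1.2‖ ^ 2 / 2 - 1 / kr p.1) p :=
    (h1.div_const 2).sub (contDiffAt_const.div h2 (by simpa [kr] using h0))
  exact h3

theorem ke1_kA {p : KS × ℝ} (h : kh' p.1 < 0) (h0 : p.1.1 ≠ 0) :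
    ContDiffAt ℝ ∞ (fun p : KS × ℝ => kA p.1) p := by
  have h3 : ContDiffAt ℝ ∞ (fun p : KS × ℝ => -1 / (2 * kh' p.1)) p :=
    contDiffAt_const.div (contDiffAt_const.mul (ke1_kh h0)) (by
      have := h.ne
      simpa using this)
  exact h3

theorem ke1_sA {p : KS × ℝ} (h : kh' p.1 < 0) (h0 : p.1.1 ≠ 0) :
    ContDiffAt ℝ ∞ (fun p : KS × ℝ => Real.sqrt (kA p.1)) p :=
  (ke1_kA h h0).sqrt (kA_pos h).ne'

theorem ke1_dot (p : KS × ℝ) :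
    ContDiffAt ℝ ∞ (fun p : KS × ℝ => (starRingEnd ℂ) p.1.1 * p.1.2) p := by
  have h1 : ContDiff ℝ ∞ (fun p : KS × ℝ => (starRingEnd ℂ) p.1.1) :=
    (Complex.conjCLE.contDiff).comp (contDiff_fst.comp contDiff_fst)
  exact (h1.mul (contDiff_snd.comp contDiff_fst)).contDiffAt

theorem ke1_kσ (p : KS × ℝ) : ContDiffAt ℝ ∞ (fun p : KS × ℝ => kσ p.1) p :=
  (Complex.reCLM.contDiff.contDiffAt).comp p (ke1_dot p)

theorem ke1_kL (p : KS × ℝ) : ContDiffAt ℝ ∞ (fun p : KS × ℝ => kL p.1) p :=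
  (Complex.imCLM.contDiff.contDiffAt).comp p (ke1_dot p)

theorem ke1_sin (p : KS × ℝ) : ContDiffAt ℝ ∞ (fun p : KS × ℝ => Real.sin p.2) p :=
  (Real.contDiff_sin.comp contDiff_snd).contDiffAt

theorem ke1_cos (p : KS × ℝ) : ContDiffAt ℝ ∞ (fun p : KS × ℝ => Real.cos p.2) p :=
  (Real.contDiff_cos.comp contDiff_snd).contDiffAt

theorem ke1_smul {f : KS × ℝ → ℝ} {g : KS × ℝ → ℂ} {p : KS × ℝ} (hf : ContDiffAt ℝ ∞ f p)
    (hg : ContDiffAt ℝ ∞ g p) : ContDiffAt ℝ ∞ (fun p => (f p : ℂ) * g p) p :=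
  ((Complex.ofRealCLM.contDiff.contDiffAt).comp p hf).mul hg

theorem ke1_kR {p : KS × ℝ} (h : kh' p.1 < 0) (h0 : p.1.1 ≠ 0) :
    ContDiffAt ℝ ∞ (fun p : KS × ℝ => kR p.1 p.2) p := by
  have h3 : ContDiffAt ℝ ∞ (fun p : KS × ℝ => kA p.1 + (kr p.1 - kA p.1) * Real.cos p.2
      + Real.sqrt (kA p.1) * kσ p.1 * Real.sin p.2) p :=
    ((ke1_kA h h0).add (((ke1_kr h0).sub (ke1_kA h h0)).mul (ke1_cos p))).add
      (((ke1_sA h h0).mul (ke1_kσ p)).mul (ke1_sin p))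
  exact h3

theorem kT_smooth_pr : ContDiffOn ℝ ∞ (fun p : KS × ℝ => kT p.1 p.2) {p | kh' p.1 < 0 ∧ p.1.1 ≠ 0} := by
  rintro p ⟨h, h0⟩
  have h3 : ContDiffAt ℝ ∞ (fun p : KS × ℝ => Real.sqrt (kA p.1) * (kA p.1 * p.2
      + (kr p.1 - kA p.1) * Real.sin p.2 + Real.sqrt (kA p.1) * kσ p.1 * (1 - Real.cos p.2))) p :=
    (ke1_sA h h0).mul ((((ke1_kA h h0).mul contDiffAt_snd).add
      (((ke1_kr h0).sub (ke1_kA h h0)).mul (ke1_sin p))).add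
      (((ke1_sA h h0).mul (ke1_kσ p)).mul (contDiffAt_const.sub (ke1_cos p))))
  exact h3.contDiffWithinAt

theorem kX_smooth_pr : ContDiffOn ℝ ∞ (fun p : KS × ℝ => kX p.1 p.2) {p | kh' p.1 < 0 ∧ p.1.1 ≠ 0} := by
  rintro p ⟨h, h0⟩
  have hr : kr p.1 ≠ 0 := by simpa [kr] using h0
  have h1 : ContDiffAt ℝ ∞ (fun p : KS × ℝ => p.1.1) p :=
    (contDiff_fst.comp contDiff_fst).contDiffAt
  have h2 : ContDiffAt ℝ ∞ (fun p : KS × ℝ => p.1.2) p :=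
    (contDiff_snd.comp contDiff_fst).contDiffAt
  have h3 : ContDiffAt ℝ ∞ (fun p : KS × ℝ =>
      ((1 - kA p.1 / kr p.1 * (1 - Real.cos p.2)) : ℝ) * p.1.1
      + ((Real.sqrt (kA p.1) * kr p.1 * Real.sin p.2
        + kA p.1 * kσ p.1 * (1 - Real.cos p.2)) : ℝ) * p.1.2) p :=
    (ke1_smul (contDiffAt_const.sub (((ke1_kA h h0).div (ke1_kr h0) hr).mul
      (contDiffAt_const.sub (ke1_cos p)))) h1).add
    (ke1_smul ((((ke1_sA h h0).mul (ke1_kr h0)).mul (ke1_sin p)).add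
      (((ke1_kA h h0).mul (ke1_kσ p)).mul (contDiffAt_const.sub (ke1_cos p)))) h2)
  exact h3.contDiffWithinAt

theorem kV_smooth_pr : ContDiffOn ℝ ∞ (fun p : KS × ℝ => kV p.1 p.2) {p | Ell p.1} := by
  rintro p hE
  have h := hE.1
  have h0 : p.1.1 ≠ 0 := kL_ne hE.2
  have hr : kr p.1 ≠ 0 := by simpa [kr] using h0
  have h1 : ContDiffAt ℝ ∞ (fun p : KS × ℝ => p.1.1) p :=
    (contDiff_fst.comp contDiff_fst).contDiffAt
  have h2 : ContDiffAt ℝ ∞ (fun p : KS × ℝ => p.1.2) p :=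
    (contDiff_snd.comp contDiff_fst).contDiffAt
  have hne : Real.sqrt (kA p.1) * kR p.1 p.2 ≠ 0 :=
    mul_ne_zero (Real.sqrt_ne_zero'.2 (kA_pos h)) (kR_pos hE p.2).ne'
  have h3 : ContDiffAt ℝ ∞ (fun p : KS × ℝ =>
      ((Real.sqrt (kA p.1) * kR p.1 p.2)⁻¹ : ℝ) *
      ((- (kA p.1 / kr p.1) * Real.sin p.2 : ℝ) * p.1.1
      + ((Real.sqrt (kA p.1) * kr p.1 * Real.cos p.2
        + kA p.1 * kσ p.1 * Real.sin p.2) : ℝ) * p.1.2)) p :=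
    ke1_smul (((ke1_sA h h0).mul (ke1_kR h h0)).inv hne)
    ((ke1_smul ((((ke1_kA h h0).div (ke1_kr h0) hr).neg).mul (ke1_sin p)) h1).add
    (ke1_smul ((((ke1_sA h h0).mul (ke1_kr h0)).mul (ke1_cos p)).add
      (((ke1_kA h h0).mul (ke1_kσ p)).mul (ke1_sin p))) h2))
  exact h3.contDiffWithinAt

theorem isOpen_neg_pr : IsOpen {y : KS | kh' y < 0 ∧ y.1 ≠ 0} := by
  rw [isOpen_iff_mem_nhds]
  rintro y ⟨h, h0⟩
  have hc : ContinuousAt (fun z : KS => kh' z) y := by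
    have h4 : ContinuousAt (fun p : KS × ℝ => kh' p.1) (y, (0:ℝ)) :=
      (ke1_kh (p := (y, (0:ℝ))) h0).continuousAt
    exact ContinuousAt.comp (f := fun z : KS => (z, (0:ℝ))) (x := y) h4
      (Continuous.prodMk_left (0:ℝ)).continuousAt
  have e1 : ∀ᶠ z in 𝓝 y, kh' z < 0 := hc.eventually (gt_mem_nhds h)
  have e2 : ∀ᶠ z : KS in 𝓝 y, z.1 ≠ 0 := continuousAt_fst.eventually_ne h0
  filter_upwards [e1, e2] with z hz1 hz2
  exact ⟨hz1, hz2⟩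

theorem isOpen_ell_pr : IsOpen {y : KS | Ell y} := by
  rw [isOpen_iff_mem_nhds]
  intro y hE
  have hE' : Ell y := hE
  have h0 : y.1 ≠ 0 := kL_ne hE'.2
  have e1 : ∀ᶠ z : KS in 𝓝 y, kh' z < 0 ∧ z.1 ≠ 0 := isOpen_neg_pr.mem_nhds ⟨hE'.1, h0⟩
  have hc : ContinuousAt (fun z : KS => kL z) y := by
    have h4 : ContinuousAt (fun p : KS × ℝ => kL p.1) (y, (0:ℝ)) :=
      (ke1_kL (y, (0:ℝ))).continuousAt
    exact ContinuousAt.comp (f := fun z : KS => (z, (0:ℝ))) (x := y) h4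
      (Continuous.prodMk_left (0:ℝ)).continuousAt
  have e2 : ∀ᶠ z : KS in 𝓝 y, kL z ≠ 0 := hc.eventually_ne hE'.2
  filter_upwards [e1, e2] with z hz1 hz2
  exact ⟨hz1.1, hz2⟩

end

end Pool.Agent.HS

namespace Pool.Agent.HS
open Set Filter Topology
open scoped ContDiff

theorem kT_smooth : ContDiffOn ℝ ∞ (fun p : KS × ℝ => kT p.1 p.2) {p | kh' p.1 < 0 ∧ p.1.1 ≠ 0} :=
  @Pool.Agent.HS.kT_smooth_pr

end Pool.Agent.HS

namespace Pool.Agent.HS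
open Set Filter Topology
open scoped ContDiff

theorem kX_smooth : ContDiffOn ℝ ∞ (fun p : KS × ℝ => kX p.1 p.2) {p | kh' p.1 < 0 ∧ p.1.1 ≠ 0} :=
  @Pool.Agent.HS.kX_smooth_pr

end Pool.Agent.HS

namespace Pool.Agent.HS
open Set Filter Topology
open scoped ContDiff

theorem kV_smooth : ContDiffOn ℝ ∞ (fun p : KS × ℝ => kV p.1 p.2) {p | Ell p.1} :=
  @Pool.Agent.HS.kV_smooth_pr

end Pool.Agent.HS

namespace Pool.Agent.HS
open Set Filter Topology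
open scoped ContDiff

theorem isOpen_ell : IsOpen {y : KS | Ell y} :=
  @Pool.Agent.HS.isOpen_ell_pr

end Pool.Agent.HS

namespace Pool.Agent.HS
open Set Filter Topology
open scoped ContDiff

theorem isOpen_neg : IsOpen {y : KS | kh' y < 0 ∧ y.1 ≠ 0} :=
  @Pool.Agent.HS.isOpen_neg_pr

end Pool.Agent.HS
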