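import Pool.Agent.Lib_helper60.HSF.D_WK
import Pool.Agent.Lib_helper60.HSF.K_KA1
import Pool.Agent.Lib_helper60.HSF.K_KC1
import Pool.Agent.Lib_helper60.HSF.K_KE1
import Pool.Agent.Lib_helper60.HSF.K_KC2

/-! Block KE2 of HSK (helper92): smoothness of the Kepler flow -/

namespace Pool.Agent.HS

noncomputable section

open Set Filter Topology
open scoped ContDiff

/-- smooth inverse functions with parameters -/
theorem ke2_inv {E : Type} [NormedAddCommGroup E] [NormedSpace ℝ E] [CompleteSpace E]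
    {f g : E × ℝ → ℝ} {y0 : E} {s0 c : ℝ} (hf : ContDiffAt ℝ ∞ f (y0, s0))
    (hd : HasDerivAt (fun s => f (y0, s)) c s0) (hc : c ≠ 0)
    (hg : ∀ᶠ y in 𝓝 y0, ∀ s, g (y, f (y, s)) = s) : ContDiffAt ℝ ∞ g (y0, f (y0, s0)) := by
  have hn : (∞ : WithTop ℕ∞) ≠ 0 := by simp
  have hfd : HasFDerivAt f (fderiv ℝ f (y0, s0)) (y0, s0) := (hf.differentiableAt hn).hasFDerivAt
  set D := fderiv ℝ f (y0, s0) with hD
  have hDc : D (0, 1) = c := by
    have h1 : HasDerivAt (fun s : ℝ => ((y0, s) : E × ℝ)) ((0 : E), (1 : ℝ)) s0 :=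
      (hasDerivAt_const s0 y0).prodMk (hasDerivAt_id s0)
    exact (hfd.comp_hasDerivAt s0 h1).unique hd
  have hDx : ∀ x : E × ℝ, D x = D (x.1, 0) + x.2 * c := by
    intro x
    rw [← hDc, ← smul_eq_mul, ← D.map_smul, ← D.map_add]
    congr 1
    ext <;> simp
  let f1 : E × ℝ →L[ℝ] E × ℝ := (ContinuousLinearMap.fst ℝ E ℝ).prod D
  let f2 : E × ℝ →L[ℝ] E × ℝ := (ContinuousLinearMap.fst ℝ E ℝ).prod
    (c⁻¹ • (ContinuousLinearMap.snd ℝ E ℝ - D.comp ((ContinuousLinearMap.fst ℝ E ℝ).prod 0)))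
  have e1 : Function.LeftInverse f2 f1 := by
    intro x
    refine Prod.ext rfl ?_
    show c⁻¹ * (D x - D (x.1, 0)) = x.2
    rw [hDx x]
    field_simp
    ring
  have e2 : Function.RightInverse f2 f1 := by
    intro x
    refine Prod.ext rfl ?_
    show D (x.1, c⁻¹ * (x.2 - D (x.1, 0))) = x.2
    rw [hDx]
    simp only
    field_simp
    ring
  let e : (E × ℝ) ≃L[ℝ] (E × ℝ) := ContinuousLinearEquiv.equivOfInverse f1 f2 e1 e2
  let Φ : E × ℝ → E × ℝ := fun p => (p.1, f p)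
  have hΦ : ContDiffAt ℝ ∞ Φ (y0, s0) := contDiffAt_fst.prodMk hf
  have hΦ' : HasFDerivAt Φ (e : (E × ℝ) →L[ℝ] (E × ℝ)) (y0, s0) := by
    have h := (hasFDerivAt_fst (𝕜 := ℝ) (p := (y0, s0))).prodMk hfd
    exact h
  have hs := hΦ.hasStrictFDerivAt' hΦ' hn
  have hi := hΦ.to_localInverse hΦ' hn
  have hr := hs.eventually_right_inverse
  have h1 : g =ᶠ[𝓝 (Φ (y0, s0))] fun p => (hΦ.localInverse hΦ' hn p).2 := by
    have h2 : ∀ᶠ p in 𝓝 (Φ (y0, s0)), ∀ s, g (p.1, f (p.1, s)) = s :=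
      (continuous_fst.tendsto (Φ (y0, s0))).eventually hg
    filter_upwards [hr, h2] with p hp hp2
    have hp' : Φ (hΦ.localInverse hΦ' hn p) = p := hp
    have h3 : (Φ (hΦ.localInverse hΦ' hn p)).1 = p.1 := congrArg Prod.fst hp'
    have h4 : (Φ (hΦ.localInverse hΦ' hn p)).2 = p.2 := congrArg Prod.snd hp'
    change (hΦ.localInverse hΦ' hn p).1 = p.1 at h3
    change f (hΦ.localInverse hΦ' hn p) = p.2 at h4
    have h5 := hp2 (hΦ.localInverse hΦ' hn p).2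
    rw [← h3] at h5
    rw [show ((hΦ.localInverse hΦ' hn p).1, (hΦ.localInverse hΦ' hn p).2) =
      hΦ.localInverse hΦ' hn p from rfl, h4, h3] at h5
    exact h5
  exact (contDiffAt_snd.comp _ hi).congr_of_eventuallyEq h1

theorem ke2_open : IsOpen {y : KS | Ell y} := by
  have h1 : IsOpen {y : KS | kL y ≠ 0} := by
    refine isOpen_ne_fun ?_ continuous_const
    unfold kL
    fun_prop
  have h2 : {y : KS | Ell y} = {y : KS | kL y ≠ 0} ∩ {y | kh' y < 0} := by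
    ext y
    exact and_comm
  rw [h2]
  refine ContinuousOn.isOpen_inter_preimage (f := kh') (t := Iio 0) ?_ h1 isOpen_Iio
  unfold kh'
  refine ContinuousOn.sub (by fun_prop) (ContinuousOn.div (by fun_prop) (by fun_prop) ?_)
  intro y hy
  exact norm_ne_zero_iff.2 (kL_ne hy)

theorem kS_smooth_pr : ContDiffOn ℝ ∞ (fun p : KS × ℝ => kS p.1 p.2) {p | Ell p.1} := by
  rintro ⟨y0, t0⟩ (hy : Ell y0)
  apply ContDiffAt.contDiffWithinAt
  have h0 := kL_ne hy.2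
  have hU : {p : KS × ℝ | Ell p.1} ∈ 𝓝 (y0, kS y0 t0) :=
    (ke2_open.preimage continuous_fst).mem_nhds hy
  have hf : ContDiffAt ℝ ∞ (fun p : KS × ℝ => kT p.1 p.2) (y0, kS y0 t0) :=
    (kT_smooth.mono (t := {p : KS × ℝ | Ell p.1})
      (fun p hp => ⟨hp.1, kL_ne hp.2⟩)).contDiffAt hU
  have hd : HasDerivAt (fun s => (fun p : KS × ℝ => kT p.1 p.2) (y0, s))
      (Real.sqrt (kA y0) * kR y0 (kS y0 t0)) (kS y0 t0) := kT_deriv hy.1 (kS y0 t0)
  have hc : Real.sqrt (kA y0) * kR y0 (kS y0 t0) ≠ 0 :=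
    (mul_pos (Real.sqrt_pos.2 (kA_pos hy.1)) (kR_pos hy _)).ne'
  have hg : ∀ᶠ y in 𝓝 y0, ∀ s, (fun p : KS × ℝ => kS p.1 p.2)
      (y, (fun p : KS × ℝ => kT p.1 p.2) (y, s)) = s := by
    filter_upwards [ke2_open.mem_nhds hy] with y hy' s
    exact kS_kT hy'.1 (kL_ne hy'.2) s
  have h1 := ke2_inv (g := fun p : KS × ℝ => kS p.1 p.2) hf hd hc hg
  dsimp only at h1
  rw [kT_kS hy.1 h0 t0] at h1
  exact h1

theorem kep_smooth_pr : ContDiffOn ℝ ∞ (fun p : ℝ × KS => kep p.1 p.2) {p | Ell p.2} := by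
  have h0 : ContDiffOn ℝ ∞ (fun p : ℝ × KS => ((p.2, p.1) : KS × ℝ)) {p | Ell p.2} :=
    (contDiff_snd.prodMk contDiff_fst).contDiffOn
  have h1 : ContDiffOn ℝ ∞ ((fun p : KS × ℝ => kS p.1 p.2) ∘
      (fun p : ℝ × KS => ((p.2, p.1) : KS × ℝ))) {p | Ell p.2} :=
    ContDiffOn.comp kS_smooth_pr h0 (fun p hp => hp)
  have h1' : ContDiffOn ℝ ∞ (fun p : ℝ × KS => kS p.2 p.1) {p | Ell p.2} := h1
  have h2 : ContDiffOn ℝ ∞ (fun p : ℝ × KS => ((p.2, kS p.2 p.1) : KS × ℝ)) {p | Ell p.2} :=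
    contDiff_snd.contDiffOn.prodMk h1'
  have h3 : ContDiffOn ℝ ∞ ((fun p : KS × ℝ => kX p.1 p.2) ∘
      (fun p : ℝ × KS => ((p.2, kS p.2 p.1) : KS × ℝ))) {p | Ell p.2} :=
    ContDiffOn.comp kX_smooth h2 (fun p hp => ⟨hp.1, kL_ne hp.2⟩)
  have h4 : ContDiffOn ℝ ∞ ((fun p : KS × ℝ => kV p.1 p.2) ∘
      (fun p : ℝ × KS => ((p.2, kS p.2 p.1) : KS × ℝ))) {p | Ell p.2} :=
    ContDiffOn.comp kV_smooth h2 (fun p hp => hp)
  exact h3.prodMk h4

end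

end Pool.Agent.HS

namespace Pool.Agent.HS
open Set Filter Topology
open scoped ContDiff

theorem kS_smooth : ContDiffOn ℝ ∞ (fun p : KS × ℝ => kS p.1 p.2) {p | Ell p.1} :=
  @Pool.Agent.HS.kS_smooth_pr

end Pool.Agent.HS

namespace Pool.Agent.HS
open Set Filter Topology
open scoped ContDiff

theorem kep_smooth : ContDiffOn ℝ ∞ (fun p : ℝ × KS => kep p.1 p.2) {p | Ell p.2} :=
  @Pool.Agent.HS.kep_smooth_pr

end Pool.Agent.HS
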