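import Pool.Agent.Lib_helper60.HSF.D_WK
import Pool.Agent.Lib_helper60.HSF.K_KA2
import Pool.Agent.Lib_helper60.HSF.K_KA1

/-!
# Project HS, Kepler library, block KF1: eccentricity vector and conic
-/

namespace Pool.Agent.HS

noncomputable section

open Set Filter Topology
open scoped ContDiff

theorem kf1_r_sq (x : ℂ) : ‖x‖ ^ 2 = x.re ^ 2 + x.im ^ 2 := by
  rw [Complex.sq_norm, Complex.normSq_apply]; ring

theorem kf1_L (y : KS) : kL y = y.1.re * y.2.im - y.1.im * y.2.re := by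
  unfold kL
  simp [Complex.mul_im]
  ring

theorem kf1_re (y : KS) : (kE y).re = kL y * y.2.im - y.1.re / ‖y.1‖ := by
  unfold kE
  rw [Complex.sub_re, Complex.div_ofReal_re]
  simp [Complex.mul_re, Complex.mul_im]

theorem kf1_im (y : KS) : (kE y).im = -(kL y * y.2.re) - y.1.im / ‖y.1‖ := by
  unfold kE
  rw [Complex.sub_im, Complex.div_ofReal_im]
  simp [Complex.mul_re, Complex.mul_im]

theorem kE_norm_pr {y : KS} (h0 : y.1 ≠ 0) : ‖kE y‖ ^ 2 = 1 + 2 * kh' y * kL y ^ 2 := by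
  have hr : ‖y.1‖ ≠ 0 := norm_ne_zero_iff.2 h0
  have h1 := kf1_r_sq y.1
  have h2 := kf1_r_sq y.2
  have h3 := kf1_L y
  rw [kf1_r_sq (kE y), kf1_re, kf1_im]
  unfold kh'
  rw [h2]
  have h4 : (kL y * y.2.im - y.1.re / ‖y.1‖) ^ 2 + (-(kL y * y.2.re) - y.1.im / ‖y.1‖) ^ 2 =
      kL y ^ 2 * (y.2.re ^ 2 + y.2.im ^ 2) + (y.1.re ^ 2 + y.1.im ^ 2) / ‖y.1‖ ^ 2 -
        2 * kL y * (y.1.re * y.2.im - y.1.im * y.2.re) / ‖y.1‖ := by
    field_simp
    ring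
  rw [h4, ← h1, ← h3, div_self (pow_ne_zero 2 hr)]
  field_simp
  ring

theorem kE_lt_pr {y : KS} (h : Ell y) : ‖kE y‖ < 1 := by
  have h1 := kE_norm_pr (kL_ne h.2)
  have h2 : 0 < kL y ^ 2 := by
    have := h.2
    positivity
  have h3 : ‖kE y‖ ^ 2 < 1 := by
    rw [h1]
    have := mul_neg_of_neg_of_pos h.1 h2
    linarith
  exact (sq_lt_one_iff₀ (norm_nonneg _)).1 h3

theorem kf1_conic {y : KS} (h0 : y.1 ≠ 0) :
    ‖y.1‖ + ((starRingEnd ℂ) (kE y) * y.1).re = kL y ^ 2 := by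
  have hr : ‖y.1‖ ≠ 0 := norm_ne_zero_iff.2 h0
  have h1 := kf1_r_sq y.1
  have h3 := kf1_L y
  have h4 : ((starRingEnd ℂ) (kE y) * y.1).re = (kE y).re * y.1.re + (kE y).im * y.1.im := by
    simp [Complex.mul_re]
  rw [h4, kf1_re, kf1_im]
  have h5 : ‖y.1‖ + ((kL y * y.2.im - y.1.re / ‖y.1‖) * y.1.re +
      (-(kL y * y.2.re) - y.1.im / ‖y.1‖) * y.1.im) =
      ‖y.1‖ + kL y * (y.1.re * y.2.im - y.1.im * y.2.re) -
        (y.1.re ^ 2 + y.1.im ^ 2) / ‖y.1‖ := by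
    field_simp
    ring
  rw [h5, ← h1, ← h3]
  field_simp
  ring

theorem kf1_v {y : KS} (hL : kL y ≠ 0) :
    y.2 = Complex.I / (kL y : ℂ) * (kE y + y.1 / (‖y.1‖ : ℂ)) := by
  have hL' : (kL y : ℂ) ≠ 0 := Complex.ofReal_ne_zero.2 hL
  have h1 : kE y + y.1 / (‖y.1‖ : ℂ) = -(Complex.I * (kL y : ℂ)) * y.2 := by
    unfold kE
    ring
  rw [h1]
  field_simp
  rw [Complex.I_sq]
  ring

theorem conic_pr {y : KS} (h : Ell y) (s : ℝ) :
    ‖kX y s‖ + ((starRingEnd ℂ) (kE y) * kX y s).re = kL y ^ 2 := by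
  have h1 := kY_ell h s
  have h2 := kf1_conic (kL_ne h1.2)
  rw [kY_E h, kY_L h] at h2
  exact h2

theorem kV_eq_pr {y : KS} (h : Ell y) (s : ℝ) :
    kV y s = Complex.I / (kL y : ℂ) * (kE y + kX y s / (‖kX y s‖ : ℂ)) := by
  have h1 := kY_ell h s
  have h2 := kf1_v h1.2
  rw [kY_E h, kY_L h] at h2
  exact h2

end

end Pool.Agent.HS

namespace Pool.Agent.HS
open Set Filter Topology
open scoped ContDiff

theorem kE_norm {y : KS} (h0 : y.1 ≠ 0) : ‖kE y‖ ^ 2 = 1 + 2 * kh' y * kL y ^ 2 :=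
  @Pool.Agent.HS.kE_norm_pr y h0

end Pool.Agent.HS

namespace Pool.Agent.HS
open Set Filter Topology
open scoped ContDiff

theorem kE_lt {y : KS} (h : Ell y) : ‖kE y‖ < 1 :=
  @Pool.Agent.HS.kE_lt_pr y h

end Pool.Agent.HS

namespace Pool.Agent.HS
open Set Filter Topology
open scoped ContDiff

theorem conic {y : KS} (h : Ell y) (s : ℝ) :
    ‖kX y s‖ + ((starRingEnd ℂ) (kE y) * kX y s).re = kL y ^ 2 :=
  @Pool.Agent.HS.conic_pr y h s

end Pool.Agent.HS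

namespace Pool.Agent.HS
open Set Filter Topology
open scoped ContDiff

theorem kV_eq {y : KS} (h : Ell y) (s : ℝ) :
    kV y s = Complex.I / (kL y : ℂ) * (kE y + kX y s / (‖kX y s‖ : ℂ)) :=
  @Pool.Agent.HS.kV_eq_pr y h s

end Pool.Agent.HS
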