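import Pool.Agent.Lib_helper60.HSF.D_WK
import Pool.Agent.Lib_helper60.HSF.K_KA1

/-!
# Project HS, Kepler library, block KF2
-/

namespace Pool.Agent.HS

noncomputable section

open Set Filter Topology
open scoped ContDiff

theorem kf2_sq (z : ℂ) : ‖z‖ ^ 2 = z.re ^ 2 + z.im ^ 2 := by
  rw [Complex.sq_norm, Complex.normSq_apply]
  ring

/-- an angle with given cosine and sine -/
theorem kf2_angle {c S : ℝ} (h : c ^ 2 + S ^ 2 = 1) : ∃ s : ℝ, Real.cos s = c ∧ Real.sin s = S := by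
  set z : ℂ := ⟨c, S⟩ with hz
  have h1 : ‖z‖ ^ 2 = 1 := by
    rw [kf2_sq]
    exact h
  have h2 : ‖z‖ = 1 := by
    have := norm_nonneg z
    nlinarith
  have h3 : z ≠ 0 := by
    intro h0
    rw [h0, norm_zero] at h2
    exact zero_ne_one h2
  refine ⟨Complex.arg z, ?_, ?_⟩
  · rw [Complex.cos_arg h3, h2, div_one]
  · rw [Complex.sin_arg, h2, div_one]

theorem conic_surj_pr {y : KS} (h : Ell y) (x : ℂ)
    (hx : ‖x‖ + ((starRingEnd ℂ) (kE y) * x).re = kL y ^ 2) : ∃ s : ℝ, kX y s = x := by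
  have hA := kA_pos h.1
  have hL : kL y ≠ 0 := h.2
  have hR0 : y.1 ≠ 0 := kL_ne hL
  have hv := norm_v_sq h.1
  have hs := kσ_kL y
  have hr : 0 < kr y := norm_pos_iff.2 hR0
  have hrs : kr y ^ 2 = y.1.re ^ 2 + y.1.im ^ 2 := kf2_sq y.1
  have hvs : ‖y.2‖ ^ 2 = y.2.re ^ 2 + y.2.im ^ 2 := kf2_sq y.2
  have hLd : kL y = y.1.re * y.2.im - y.1.im * y.2.re := by
    unfold kL
    rw [Complex.mul_im, Complex.conj_re, Complex.conj_im]
    ring
  have hσd : kσ y = y.1.re * y.2.re + y.1.im * y.2.im := by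
    unfold kσ
    rw [Complex.mul_re, Complex.conj_re, Complex.conj_im]
    ring
  have hEr : (kE y).re = kL y * y.2.im - y.1.re / kr y := by
    unfold kE kr
    simp
  have hEi : (kE y).im = -(kL y * y.2.re) - y.1.im / kr y := by
    unfold kE kr
    simp
  set L := kL y with hLdef
  set r := kr y with hrdef
  set σ := kσ y with hσdef
  set A := kA y with hAdef
  -- the coefficients
  set a : ℝ := (x.re * y.2.im - x.im * y.2.re) / L with ha
  set b : ℝ := (y.1.re * x.im - y.1.im * x.re) / L with hb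
  have hx1 : x.re = a * y.1.re + b * y.2.re := by
    rw [ha, hb]
    field_simp
    rw [hLd]
    ring
  have hx2 : x.im = a * y.1.im + b * y.2.im := by
    rw [ha, hb]
    field_simp
    rw [hLd]
    ring
  have hn : ‖x‖ = (1 - a) * L ^ 2 + a * r + b * σ / r := by
    have h1 : ((starRingEnd ℂ) (kE y) * x).re = (kE y).re * x.re + (kE y).im * x.im := by
      rw [Complex.mul_re, Complex.conj_re, Complex.conj_im]
      ring
    have h2 : (kE y).re * x.re + (kE y).im * x.im = a * L ^ 2 - (a * r ^ 2 + b * σ) / r := by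
      rw [hEr, hEi, hx1, hx2, hrs, hσd]
      field_simp
      rw [hLd]
      ring
    rw [h1, h2] at hx
    have h3 : (a * r ^ 2 + b * σ) / r = a * r + b * σ / r := by
      field_simp
    rw [h3] at hx
    linarith
  have hn2 : ‖x‖ ^ 2 = a ^ 2 * r ^ 2 + 2 * a * b * σ + b ^ 2 * ‖y.2‖ ^ 2 := by
    rw [kf2_sq, hx1, hx2, hrs, hσd, hvs]
    ring
  rw [hn] at hn2
  clear_value a b
  have hkey : b ^ 2 / r ^ 2 = (1 - a) ^ 2 * L ^ 2 + 2 * (1 - a) * (a * r + b * σ / r) := by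
    have h1 : L ^ 2 ≠ 0 := pow_ne_zero 2 hL
    apply mul_left_cancel₀ h1
    have h2 : L ^ 2 = r ^ 2 * ‖y.2‖ ^ 2 - σ ^ 2 := by linarith
    have h3 : L ^ 2 * (b ^ 2 / r ^ 2) = b ^ 2 * ‖y.2‖ ^ 2 - (b * σ / r) ^ 2 := by
      rw [h2]
      field_simp
    rw [h3]
    have h4 : r * (b * σ / r) = b * σ := by
      field_simp
    linear_combination (-1 : ℝ) * hn2 + 2 * a * h4
  have hsA : 0 < Real.sqrt A := Real.sqrt_pos.2 hA
  have hsA2 : Real.sqrt A ^ 2 = A := Real.sq_sqrt hA.le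
  obtain ⟨s, hc, hS⟩ := kf2_angle (c := 1 - (1 - a) * r / A)
    (S := (b - σ * r * (1 - a)) / (Real.sqrt A * r)) (by
      rw [div_pow, mul_pow, hsA2]
      have h4 : L ^ 2 + σ ^ 2 - 2 * r + r ^ 2 / A = 0 := by
        have h5 : σ ^ 2 + L ^ 2 = r ^ 2 * (2 / r - 1 / A) := by rw [← hv]; exact hs
        have h6 : r ^ 2 * (2 / r - 1 / A) = 2 * r - r ^ 2 / A := by
          field_simp
        linarith
      have h7 : (b - σ * r * (1 - a)) ^ 2 / (A * r ^ 2) =
          (b ^ 2 / r ^ 2 - 2 * (1 - a) * (b * σ / r) + σ ^ 2 * (1 - a) ^ 2) / A := by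
        field_simp
        ring
      rw [h7, hkey]
      have h8 : (1 - (1 - a) * r / A) ^ 2 = 1 + (-2 * (1 - a) * r + (1 - a) ^ 2 * (r ^ 2 / A)) / A := by
        field_simp
        ring
      rw [h8, add_assoc, ← add_div]
      have h9 : -2 * (1 - a) * r + (1 - a) ^ 2 * (r ^ 2 / A) +
          ((1 - a) ^ 2 * L ^ 2 + 2 * (1 - a) * (a * r + b * σ / r) - 2 * (1 - a) * (b * σ / r) +
            σ ^ 2 * (1 - a) ^ 2) = 0 := by
        linear_combination (1 - a) ^ 2 * h4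
      rw [h9, zero_div, add_zero])
  refine ⟨s, ?_⟩
  have e1 : 1 - A / r * (1 - Real.cos s) = a := by
    rw [hc]
    field_simp
    ring
  have e2 : Real.sqrt A * r * Real.sin s + A * σ * (1 - Real.cos s) = b := by
    rw [hc, hS]
    field_simp
    ring
  unfold kX
  rw [← hAdef, ← hrdef, ← hσdef, e1, e2]
  apply Complex.ext
  · simp [hx1]
  · simp [hx2]

end

end Pool.Agent.HS

namespace Pool.Agent.HS
open Set Filter Topology
open scoped ContDiff

theorem conic_surj {y : KS} (h : Ell y) (x : ℂ)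
    (hx : ‖x‖ + ((starRingEnd ℂ) (kE y) * x).re = kL y ^ 2) : ∃ s : ℝ, kX y s = x :=
  @Pool.Agent.HS.conic_surj_pr y h x hx

end Pool.Agent.HS
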