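import Pool.Agent.Lib_helper60.HSF.D_WK
import Pool.Agent.Lib_helper60.HSF.K_KF1
import Pool.Agent.Lib_helper60.HSF.K_KA1

/-!
# Project HS, Kepler library, block KG1
-/

namespace Pool.Agent.HS

noncomputable section

open Set Filter Topology
open scoped ContDiff

theorem kg1_sq (z : ℂ) : ‖z‖ ^ 2 = z.re ^ 2 + z.im ^ 2 := by
  rw [Complex.sq_norm, Complex.normSq_apply]
  ring

theorem kg1_dot (a b : ℂ) : ((starRingEnd ℂ) a * b).re = a.re * b.re + a.im * b.im := by
  rw [Complex.mul_re, Complex.conj_re, Complex.conj_im]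
  ring

theorem kg1_cross (a b : ℂ) : ((starRingEnd ℂ) a * b).im = a.re * b.im - a.im * b.re := by
  rw [Complex.mul_im, Complex.conj_re, Complex.conj_im]
  ring

theorem kg1_D_re (R u u' : ℂ) : (cD R u u').re = kL (R, u) * u.re - kL (R, u') * u'.re := by
  unfold cD
  simp

theorem kg1_D_im (R u u' : ℂ) : (cD R u u').im = kL (R, u) * u.im - kL (R, u') * u'.im := by
  unfold cD
  simp

theorem kg1_E_re (R u : ℂ) : (kE (R, u)).re = kL (R, u) * u.im - R.re / ‖R‖ := by
  unfold kE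
  simp

theorem kg1_E_im (R u : ℂ) : (kE (R, u)).im = -(kL (R, u) * u.re) - R.im / ‖R‖ := by
  unfold kE
  simp

/-- `R · D + |R| e · D = |R| L L' W` -/
theorem kg1_lin {R : ℂ} (hR : R ≠ 0) (u u' : ℂ) :
    ((starRingEnd ℂ) R * cD R u u').re + ‖R‖ * ((starRingEnd ℂ) (kE (R, u)) * cD R u u').re =
      ‖R‖ * kL (R, u) * kL (R, u') * cW' u u' := by
  have hr : ‖R‖ ≠ 0 := norm_ne_zero_iff.2 hR
  rw [kg1_dot, kg1_dot, kg1_D_re, kg1_D_im, kg1_E_re, kg1_E_im]
  unfold cW'
  rw [kg1_cross]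
  field_simp
  ring

/-- the two eccentricity vectors have the same component along `D` -/
theorem kg1_same (R u u' : ℂ) : ((starRingEnd ℂ) (kE (R, u)) * cD R u u').re =
    ((starRingEnd ℂ) (kE (R, u')) * cD R u u').re := by
  rw [kg1_dot, kg1_dot, kg1_D_re, kg1_D_im, kg1_E_re, kg1_E_im, kg1_E_re, kg1_E_im]
  ring

theorem kg1_swap (R u u' : ℂ) : cD R u' u = -cD R u u' := by
  unfold cD
  ring

theorem cden_pos_pr {R u u' : ℂ} (h : Ell (R, u)) (h' : Ell (R, u')) (hD : cD R u u' ≠ 0) :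
    0 < cden R u u' := by
  unfold cden
  have h1 := kE_lt h
  have h2 : 0 < ‖cD R u u'‖ := norm_pos_iff.2 hD
  have h3 : |((starRingEnd ℂ) (kE (R, u)) * cD R u u').re| ≤ ‖kE (R, u)‖ * ‖cD R u u'‖ := by
    refine (Complex.abs_re_le_norm _).trans ?_
    rw [norm_mul, RCLike.norm_conj]
  have h4 : |((starRingEnd ℂ) (kE (R, u)) * cD R u u').re| < ‖cD R u u'‖ := by
    refine lt_of_le_of_lt h3 ?_
    nlinarith
  have h5 : ((starRingEnd ℂ) (kE (R, u)) * cD R u u').re ^ 2 < ‖cD R u u'‖ ^ 2 := by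
    rw [← sq_abs]
    exact pow_lt_pow_left₀ h4 (abs_nonneg _) (by norm_num)
  linarith

theorem kg1_base {R u : ℂ} (h : Ell (R, u)) :
    ‖R‖ + ((starRingEnd ℂ) (kE (R, u)) * R).re = kL (R, u) ^ 2 := by
  have h1 := conic h 0
  have h2 : kX (R, u) 0 = R := by
    unfold kX
    simp
  rwa [h2] at h1

/-- two conics meet in at most two points -/
theorem two_points_pr {R u u' x : ℂ} (h : Ell (R, u)) (h' : Ell (R, u')) (hD : cD R u u' ≠ 0)
    (hx : ‖x‖ + ((starRingEnd ℂ) (kE (R, u)) * x).re = kL (R, u) ^ 2)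
    (hx' : ‖x‖ + ((starRingEnd ℂ) (kE (R, u')) * x).re = kL (R, u') ^ 2) :
    x = R ∨ x = cB R u u' := by
  have hR : R ≠ 0 := kL_ne (y := (R, u)) h.2
  have hb := kg1_base h
  have hb' := kg1_base h'
  have hden := cden_pos_pr h h' hD
  have hlin := kg1_lin hR u u'
  set D := cD R u u' with hDdef
  have hDn : 0 < ‖D‖ ^ 2 := by
    have := norm_pos_iff.2 hD
    positivity
  have hDs := kg1_sq D
  have hDr := kg1_D_re R u u'
  have hDi := kg1_D_im R u u'
  rw [← hDdef] at hDr hDi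
  -- `x - R` is parallel to `D`
  have hpar : D.re * (x.im - R.im) - D.im * (x.re - R.re) = 0 := by
    rw [kg1_dot, kg1_E_re, kg1_E_im] at hx hx' hb hb'
    rw [hDr, hDi]
    linear_combination (-1 : ℝ) * hx + hx' + hb - hb'
  set t : ℝ := (D.re * (x.re - R.re) + D.im * (x.im - R.im)) / ‖D‖ ^ 2 with ht
  have hx1 : x.re = R.re + t * D.re := by
    have : t * ‖D‖ ^ 2 = D.re * (x.re - R.re) + D.im * (x.im - R.im) := by
      rw [ht]
      field_simp
    apply mul_right_cancel₀ hDn.ne'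
    have h2 : (R.re + t * D.re) * ‖D‖ ^ 2 = R.re * ‖D‖ ^ 2 + D.re * (t * ‖D‖ ^ 2) := by ring
    rw [h2, this, hDs]
    linear_combination (-D.im) * hpar
  have hx2 : x.im = R.im + t * D.im := by
    have : t * ‖D‖ ^ 2 = D.re * (x.re - R.re) + D.im * (x.im - R.im) := by
      rw [ht]
      field_simp
    apply mul_right_cancel₀ hDn.ne'
    have h2 : (R.im + t * D.im) * ‖D‖ ^ 2 = R.im * ‖D‖ ^ 2 + D.im * (t * ‖D‖ ^ 2) := by ring
    rw [h2, this, hDs]
    linear_combination D.re * hpar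
  clear_value t
  have hxR : x = R + (t : ℂ) * D := by
    apply Complex.ext
    · rw [hx1]
      simp
    · rw [hx2]
      simp
  -- the equation for `t`
  set ed := ((starRingEnd ℂ) (kE (R, u)) * D).re with hed
  set rd := ((starRingEnd ℂ) R * D).re with hrd
  have hn : ‖x‖ = ‖R‖ - t * ed := by
    have h1 : ((starRingEnd ℂ) (kE (R, u)) * x).re =
        ((starRingEnd ℂ) (kE (R, u)) * R).re + t * ed := by
      rw [hed, kg1_dot, kg1_dot, kg1_dot, hx1, hx2]
      ring
    linarith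
  have hn2 : ‖x‖ ^ 2 = ‖R‖ ^ 2 + 2 * t * rd + t ^ 2 * ‖D‖ ^ 2 := by
    rw [kg1_sq x, kg1_sq R, hDs, hrd, kg1_dot, hx1, hx2]
    ring
  rw [hn] at hn2
  have hden' : cden R u u' = ‖D‖ ^ 2 - ed ^ 2 := rfl
  have hprod : t * (t * cden R u u' + 2 * (rd + ‖R‖ * ed)) = 0 := by
    rw [hden']
    linear_combination (-1 : ℝ) * hn2
  rcases mul_eq_zero.1 hprod with h0 | h0
  · left
    rw [hxR, h0]
    simp
  · right
    rw [hxR]
    unfold cB
    rw [← hDdef]
    have h1 : t = clam R u u' := by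
      unfold clam
      rw [eq_div_iff hden.ne']
      rw [hlin] at h0
      linarith
    rw [h1]

/-- symmetry -/
theorem cB_symm_pr {R u u' : ℂ} (h : Ell (R, u)) (h' : Ell (R, u')) (hD : cD R u u' ≠ 0) :
    cB R u' u = cB R u u' := by
  have h1 : cW' u' u = -cW' u u' := by
    unfold cW'
    rw [kg1_cross, kg1_cross]
    ring
  have h2 : cden R u' u = cden R u u' := by
    unfold cden
    rw [kg1_swap, norm_neg, mul_neg, Complex.neg_re, kg1_same R u u']
    ring
  have h3 : clam R u' u = -clam R u u' := by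
    unfold clam
    rw [h1, h2]
    ring
  unfold cB
  rw [h3, kg1_swap]
  push_cast
  ring

/-- `B = R` iff the velocities are parallel -/
theorem cB_ne_pr {R u u' : ℂ} (h : Ell (R, u)) (h' : Ell (R, u')) (hD : cD R u u' ≠ 0)
    (hw : cW' u u' ≠ 0) : cB R u u' ≠ R := by
  intro hB
  have hR : R ≠ 0 := kL_ne (y := (R, u)) h.2
  have hr : ‖R‖ ≠ 0 := norm_ne_zero_iff.2 hR
  have hden := cden_pos_pr h h' hD
  unfold cB at hB
  have h1 : (clam R u u' : ℂ) * cD R u u' = 0 := by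
    have : R + (clam R u u' : ℂ) * cD R u u' = R + 0 := by rw [hB, add_zero]
    exact add_left_cancel this
  rcases mul_eq_zero.1 h1 with h2 | h2
  · have h3 : clam R u u' = 0 := by exact_mod_cast h2
    unfold clam at h3
    rw [div_eq_zero_iff] at h3
    rcases h3 with h3 | h3
    · have h4 := h.2
      have h5 := h'.2
      simp_all
    · exact hden.ne' h3
  · exact hD h2

end

end Pool.Agent.HS

namespace Pool.Agent.HS
open Set Filter Topology
open scoped ContDiff

theorem cden_pos {R u u' : ℂ} (h : Ell (R, u)) (h' : Ell (R, u')) (hD : cD R u u' ≠ 0) :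
    0 < cden R u u' :=
  @Pool.Agent.HS.cden_pos_pr R u u' h h' hD

end Pool.Agent.HS

namespace Pool.Agent.HS
open Set Filter Topology
open scoped ContDiff

theorem two_points {R u u' x : ℂ} (h : Ell (R, u)) (h' : Ell (R, u')) (hD : cD R u u' ≠ 0)
    (hx : ‖x‖ + ((starRingEnd ℂ) (kE (R, u)) * x).re = kL (R, u) ^ 2)
    (hx' : ‖x‖ + ((starRingEnd ℂ) (kE (R, u')) * x).re = kL (R, u') ^ 2) :
    x = R ∨ x = cB R u u' :=
  @Pool.Agent.HS.two_points_pr R u u' x h h' hD hx hx'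

end Pool.Agent.HS

namespace Pool.Agent.HS
open Set Filter Topology
open scoped ContDiff

theorem cB_symm {R u u' : ℂ} (h : Ell (R, u)) (h' : Ell (R, u')) (hD : cD R u u' ≠ 0) :
    cB R u' u = cB R u u' :=
  @Pool.Agent.HS.cB_symm_pr R u u' h h' hD

end Pool.Agent.HS

namespace Pool.Agent.HS
open Set Filter Topology
open scoped ContDiff

theorem cB_ne {R u u' : ℂ} (h : Ell (R, u)) (h' : Ell (R, u')) (hD : cD R u u' ≠ 0)
    (hw : cW' u u' ≠ 0) : cB R u u' ≠ R :=
  @Pool.Agent.HS.cB_ne_pr R u u' h h' hD hw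

end Pool.Agent.HS
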