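import Pool.Agent.Lib_helper60.HSF.D_WK
import Pool.Agent.Lib_helper60.HSF.K_KG1

/-!
# Project HS, part Z, block KG2: anomaly of the second intersection
-/

namespace Pool.Agent.HS

noncomputable section

open Set Filter Topology
open scoped ContDiff

theorem kg2_L (R u : ℂ) : kL (R, u) = R.re * u.im - R.im * u.re := by
  unfold kL
  simp only [Complex.mul_im, Complex.conj_re, Complex.conj_im]
  ring

theorem kg2_σ (R u : ℂ) : kσ (R, u) = R.re * u.re + R.im * u.im := by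
  unfold kσ
  simp only [Complex.mul_re, Complex.conj_re, Complex.conj_im]
  ring

theorem kg2_w (u u' : ℂ) : cW' u u' = u.re * u'.im - u.im * u'.re := by
  unfold cW'
  simp only [Complex.mul_im, Complex.conj_re, Complex.conj_im]
  ring

theorem kg2_r (R : ℂ) : ‖R‖ ^ 2 = R.re ^ 2 + R.im ^ 2 := by
  rw [Complex.sq_norm, Complex.normSq_apply]
  ring

/-- `w R = L' u - L u'` -/
theorem kg2_wR (R u u' : ℂ) :
    ((cW' u u' : ℝ) : ℂ) * R = (kL (R, u') : ℂ) * u - (kL (R, u) : ℂ) * u' := by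
  rw [kg2_L, kg2_L, kg2_w]
  apply Complex.ext
  · simp only [Complex.mul_re, Complex.sub_re, Complex.ofReal_re, Complex.ofReal_im]
    ring
  · simp only [Complex.mul_im, Complex.sub_im, Complex.ofReal_re, Complex.ofReal_im]
    ring

/-- `r² w = σ L' - L σ'` -/
theorem kg2_rw (R u u' : ℂ) : ‖R‖ ^ 2 * cW' u u' =
    kσ (R, u) * kL (R, u') - kL (R, u) * kσ (R, u') := by
  rw [kg2_r, kg2_L, kg2_L, kg2_w, kg2_σ, kg2_σ]
  ring

/-- `r² |D|²` -/
theorem kg2_D (R u u' : ℂ) : ‖R‖ ^ 2 * ‖cD R u u'‖ ^ 2 =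
    (kL (R, u) * kσ (R, u) - kL (R, u') * kσ (R, u')) ^ 2 +
      (kL (R, u) ^ 2 - kL (R, u') ^ 2) ^ 2 := by
  have h1 : cD R u u' = (kL (R, u) : ℂ) * u - (kL (R, u') : ℂ) * u' := rfl
  rw [kg2_r, kg2_r, h1]
  simp only [Complex.mul_re, Complex.sub_re, Complex.mul_im, Complex.sub_im, Complex.ofReal_re,
    Complex.ofReal_im]
  rw [kg2_L, kg2_L, kg2_σ, kg2_σ]
  ring

/-- `Re (conj e D) = L L' w - (L σ - L' σ') / r` -/
theorem kg2_e (R u u' : ℂ) (hR : R ≠ 0) : ((starRingEnd ℂ) (kE (R, u)) * cD R u u').re =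
    kL (R, u) * kL (R, u') * cW' u u' -
      (kL (R, u) * kσ (R, u) - kL (R, u') * kσ (R, u')) / ‖R‖ := by
  have hr : (‖R‖ : ℝ) ≠ 0 := norm_ne_zero_iff.mpr hR
  have h1 : cD R u u' = (kL (R, u) : ℂ) * u - (kL (R, u') : ℂ) * u' := rfl
  have h2 : kE (R, u) = -(Complex.I * (kL (R, u) : ℂ)) * u - ((‖R‖⁻¹ : ℝ) : ℂ) * R := by
    unfold kE
    push_cast
    ring
  rw [h1, h2]
  simp only [Complex.mul_re, Complex.sub_re, Complex.mul_im, Complex.sub_im, Complex.ofReal_re,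
    Complex.ofReal_im, Complex.conj_re, Complex.conj_im, Complex.neg_re, Complex.neg_im,
    Complex.I_re, Complex.I_im, map_sub, map_mul, map_neg]
  rw [kg2_w, kg2_σ, kg2_σ, div_eq_inv_mul]
  generalize kL (R, u) = L
  generalize kL (R, u') = L'
  ring

theorem kg2_A {R u : ℂ} (h : Ell (R, u)) (hR : R ≠ 0) : 0 < kA (R, u) ∧
    ‖R‖ ^ 2 = kA (R, u) * (2 * ‖R‖ - (kσ (R, u) ^ 2 + kL (R, u) ^ 2)) := by
  have hr : (0 : ℝ) < ‖R‖ := norm_pos_iff.mpr hR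
  have h1 : kh' (R, u) = ‖u‖ ^ 2 / 2 - 1 / ‖R‖ := rfl
  have h2 : kA (R, u) = - 1 / (2 * kh' (R, u)) := rfl
  have h3 : kh' (R, u) < 0 := h.1
  have h4 : kσ (R, u) ^ 2 + kL (R, u) ^ 2 = ‖R‖ ^ 2 * ‖u‖ ^ 2 := by
    rw [kg2_σ, kg2_L, kg2_r, kg2_r]
    ring
  constructor
  · rw [h2]
    exact div_pos_of_neg_of_neg (by norm_num) (by linarith)
  · have h7 : kA (R, u) * (2 * kh' (R, u)) = -1 := by
      rw [h2]
      have := h3.ne
      field_simp
    have h8 : 2 * ‖R‖ - ‖R‖ ^ 2 * ‖u‖ ^ 2 = -(‖R‖ ^ 2 * (2 * kh' (R, u))) := by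
      rw [h1]
      field_simp
      ring
    rw [h4, h8]
    linear_combination (‖R‖ ^ 2) * h7

/-- the identity `A P² + q² = A r² cden` -/
theorem kg2_den {R u : ℂ} (u' : ℂ) (h : Ell (R, u)) (hR : R ≠ 0) :
    kA (R, u) * ((kL (R, u) ^ 2 - kL (R, u') ^ 2) + kσ (R, u) * ‖R‖ * kL (R, u') * cW' u u') ^ 2 +
      (‖R‖ ^ 2 * kL (R, u') * cW' u u') ^ 2 = kA (R, u) * (‖R‖ ^ 2 * cden R u u') := by
  have hr : (0 : ℝ) < ‖R‖ := norm_pos_iff.mpr hR
  obtain ⟨hA, hA2⟩ := kg2_A h hR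
  have h1 : ‖R‖ ^ 2 * cden R u u' = ((kL (R, u) * kσ (R, u) - kL (R, u') * kσ (R, u')) ^ 2 +
      (kL (R, u) ^ 2 - kL (R, u') ^ 2) ^ 2) - (‖R‖ * (kL (R, u) * kL (R, u') * cW' u u') -
      (kL (R, u) * kσ (R, u) - kL (R, u') * kσ (R, u'))) ^ 2 := by
    unfold cden
    rw [mul_sub, kg2_D, kg2_e R u u' hR]
    field_simp
  have h2 := kg2_rw R u u'
  rw [h1]
  generalize kL (R, u) = L at *
  generalize kL (R, u') = L' at *
  generalize kσ (R, u) = σ at *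
  generalize kσ (R, u') = σ' at *
  generalize cW' u u' = w at *
  generalize kA (R, u) = A at *
  generalize ‖R‖ = r at *
  have h3 : (r ^ 2 * L' * w) ^ 2 = A * (2 * r - (σ ^ 2 + L ^ 2)) * (r * L' * w) ^ 2 := by
    rw [← hA2]; ring
  rw [h3]
  have h4 : r * (r * w) = σ * L' - L * σ' := by rw [← h2]; ring
  have h5 : A * ((L ^ 2 - L' ^ 2) + σ * r * L' * w) ^ 2 +
      A * (2 * r - (σ ^ 2 + L ^ 2)) * (r * L' * w) ^ 2 -
      A * (((L * σ - L' * σ') ^ 2 + (L ^ 2 - L' ^ 2) ^ 2) - (r * (L * L' * w) -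
      (L * σ - L' * σ')) ^ 2) = 2 * A * L' ^ 2 * (r * w) * (r * (r * w) - (σ * L' - L * σ')) := by
    ring
  rw [h4] at h5
  linarith [h5]

theorem kg2_trig (W : ℝ) : 1 - Real.cos (2 * Real.arctan W) = 2 * W ^ 2 / (1 + W ^ 2) ∧
    Real.sin (2 * Real.arctan W) = 2 * W / (1 + W ^ 2) := by
  have h1 : (0 : ℝ) < 1 + W ^ 2 := by positivity
  have h2 : √(1 + W ^ 2) * √(1 + W ^ 2) = 1 + W ^ 2 := Real.mul_self_sqrt h1.le
  have h3 : (0 : ℝ) < √(1 + W ^ 2) := Real.sqrt_pos.mpr h1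
  constructor
  · rw [Real.cos_two_mul, Real.cos_sq_arctan]
    field_simp
    ring
  · rw [Real.sin_two_mul, Real.sin_arctan, Real.cos_arctan]
    rw [show 2 * (W / √(1 + W ^ 2)) * (1 / √(1 + W ^ 2)) =
      2 * W / (√(1 + W ^ 2) * √(1 + W ^ 2)) by field_simp, h2]

/-- the second intersection is reached at `s = 2 arctan csW` -/
theorem kX_csW_pr {R u u' : ℂ} (h : Ell (R, u)) (h' : Ell (R, u')) (hD : cD R u u' ≠ 0)
    (hc : (kL (R, u) ^ 2 - kL (R, u') ^ 2) + kσ (R, u) * ‖R‖ * kL (R, u') * cW' u u' ≠ 0) :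
    kX (R, u) (2 * Real.arctan (csW R u u')) = cB R u u' := by
  have hR : R ≠ 0 := by
    intro h0
    apply h.2
    rw [kg2_L, h0]
    simp
  have hr : (0 : ℝ) < ‖R‖ := norm_pos_iff.mpr hR
  obtain ⟨hA, -⟩ := kg2_A h hR
  have hden := kg2_den u' h hR
  have hwR := kg2_wR R u u'
  set A := kA (R, u) with hAdef
  set P := (kL (R, u) ^ 2 - kL (R, u') ^ 2) + kσ (R, u) * ‖R‖ * kL (R, u') * cW' u u' with hP
  set q := ‖R‖ ^ 2 * kL (R, u') * cW' u u' with hq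
  have hsA : √A * √A = A := Real.mul_self_sqrt hA.le
  have hsA0 : (0 : ℝ) < √A := Real.sqrt_pos.mpr hA
  have hN : 0 < A * P ^ 2 + q ^ 2 := by positivity
  have hcd : 0 < cden R u u' := by
    rw [hden] at hN
    by_contra hcon
    push Not at hcon
    have : A * (‖R‖ ^ 2 * cden R u u') ≤ 0 :=
      mul_nonpos_of_nonneg_of_nonpos hA.le (mul_nonpos_of_nonneg_of_nonpos (by positivity) hcon)
    linarith
  have hW : csW R u u' = -q / (√A * P) := rfl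
  have hW2 : 1 + csW R u u' ^ 2 = (A * P ^ 2 + q ^ 2) / (A * P ^ 2) := by
    rw [hW, div_pow, mul_pow, Real.sq_sqrt hA.le]
    field_simp
  obtain ⟨ht1, ht2⟩ := kg2_trig (csW R u u')
  have hc1 : 1 - Real.cos (2 * Real.arctan (csW R u u')) = 2 * q ^ 2 / (A * P ^ 2 + q ^ 2) := by
    rw [ht1, hW2, hW, div_pow, mul_pow, Real.sq_sqrt hA.le]
    field_simp
  have hc2 : √A * Real.sin (2 * Real.arctan (csW R u u')) =
      -(2 * A * q * P / (A * P ^ 2 + q ^ 2)) := by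
    rw [ht2, hW2, hW]
    have : √A * (2 * (-q / (√A * P)) / ((A * P ^ 2 + q ^ 2) / (A * P ^ 2))) =
        -(2 * A * q * P / (A * P ^ 2 + q ^ 2)) := by
      field_simp
    exact this
  have hk1 : 1 - A / ‖R‖ * (1 - Real.cos (2 * Real.arctan (csW R u u'))) =
      1 + -(2 * ‖R‖ * q * A / (A * P ^ 2 + q ^ 2)) * (kL (R, u') * cW' u u') := by
    rw [hc1]
    have e : q = ‖R‖ ^ 2 * (kL (R, u') * cW' u u') := by rw [hq]; ring
    have : 2 * q ^ 2 / (A * P ^ 2 + q ^ 2) =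
        (2 * q / (A * P ^ 2 + q ^ 2)) * (‖R‖ ^ 2 * (kL (R, u') * cW' u u')) := by
      rw [← e]; ring
    rw [this]
    field_simp
    ring
  have hk2 : √A * ‖R‖ * Real.sin (2 * Real.arctan (csW R u u')) +
      A * kσ (R, u) * (1 - Real.cos (2 * Real.arctan (csW R u u'))) =
      -(2 * ‖R‖ * q * A / (A * P ^ 2 + q ^ 2)) * (kL (R, u) ^ 2 - kL (R, u') ^ 2) := by
    have e : ‖R‖ * P - kσ (R, u) * q = ‖R‖ * (kL (R, u) ^ 2 - kL (R, u') ^ 2) := by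
      rw [hP, hq]; ring
    have e1 : √A * ‖R‖ * Real.sin (2 * Real.arctan (csW R u u')) =
        ‖R‖ * (√A * Real.sin (2 * Real.arctan (csW R u u'))) := by ring
    rw [e1, hc1, hc2]
    have e2 : ‖R‖ * -(2 * A * q * P / (A * P ^ 2 + q ^ 2)) +
        A * kσ (R, u) * (2 * q ^ 2 / (A * P ^ 2 + q ^ 2)) =
        -(2 * q * A / (A * P ^ 2 + q ^ 2)) * (‖R‖ * P - kσ (R, u) * q) := by ring
    rw [e2, e]
    ring
  have hlam : -(2 * ‖R‖ * q * A / (A * P ^ 2 + q ^ 2)) * kL (R, u) = clam R u u' := by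
    rw [hden]
    unfold clam
    rw [hq]
    field_simp
  have hkX : kX (R, u) (2 * Real.arctan (csW R u u')) =
      ((1 - A / ‖R‖ * (1 - Real.cos (2 * Real.arctan (csW R u u'))) : ℝ) : ℂ) * R +
      ((√A * ‖R‖ * Real.sin (2 * Real.arctan (csW R u u')) +
      A * kσ (R, u) * (1 - Real.cos (2 * Real.arctan (csW R u u'))) : ℝ) : ℂ) * u := rfl
  rw [hkX, hk1, hk2]
  have hB : cB R u u' = R + (clam R u u' : ℂ) * ((kL (R, u) : ℂ) * u - (kL (R, u') : ℂ) * u') :=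
    rfl
  rw [hB, ← hlam]
  generalize 2 * ‖R‖ * q * A / (A * P ^ 2 + q ^ 2) = κ
  push_cast
  linear_combination (-(κ : ℂ) * (kL (R, u') : ℂ)) * hwR

theorem kX_csW'_pr {R u u' : ℂ} (h : Ell (R, u)) (h' : Ell (R, u')) (hD : cD R u u' ≠ 0)
    (hc : (kL (R, u) ^ 2 - kL (R, u') ^ 2) + kσ (R, u') * ‖R‖ * kL (R, u) * cW' u u' ≠ 0) :
    kX (R, u') (2 * Real.arctan (csW' R u u')) = cB R u u' := by
  have hw : cW' u' u = - cW' u u' := by
    rw [kg2_w, kg2_w]; ring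
  have hD' : cD R u' u ≠ 0 := by
    intro h0
    apply hD
    have : cD R u u' = - cD R u' u := by
      unfold cD; ring
    rw [this, h0, neg_zero]
  have hc' : (kL (R, u') ^ 2 - kL (R, u) ^ 2) + kσ (R, u') * ‖R‖ * kL (R, u) * cW' u' u ≠ 0 := by
    rw [hw]
    intro h0
    apply hc
    linarith
  have h1 := kX_csW_pr h' h hD' hc'
  rw [cB_symm h h' hD] at h1
  have h2 : csW R u' u = csW' R u u' := by
    unfold csW csW'
    rw [hw, show -(‖R‖ ^ 2 * kL (R, u) * -cW' u u') = ‖R‖ ^ 2 * kL (R, u) * cW' u u' by ring,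
      show √(kA (R, u')) * (kL (R, u') ^ 2 - kL (R, u) ^ 2 +
        kσ (R, u') * ‖R‖ * kL (R, u) * -cW' u u') = -(√(kA (R, u')) * (kL (R, u) ^ 2 -
        kL (R, u') ^ 2 + kσ (R, u') * ‖R‖ * kL (R, u) * cW' u u')) by ring, div_neg, neg_div]
  rwa [h2] at h1

end

end Pool.Agent.HS

namespace Pool.Agent.HS
open Set Filter Topology
open scoped ContDiff

theorem kX_csW {R u u' : ℂ} (h : Ell (R, u)) (h' : Ell (R, u')) (hD : cD R u u' ≠ 0)
    (hc : (kL (R, u) ^ 2 - kL (R, u') ^ 2) + kσ (R, u) * ‖R‖ * kL (R, u') * cW' u u' ≠ 0) :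
    kX (R, u) (2 * Real.arctan (csW R u u')) = cB R u u' :=
  @Pool.Agent.HS.kX_csW_pr R u u' h h' hD hc

end Pool.Agent.HS

namespace Pool.Agent.HS
open Set Filter Topology
open scoped ContDiff

theorem kX_csW' {R u u' : ℂ} (h : Ell (R, u)) (h' : Ell (R, u')) (hD : cD R u u' ≠ 0)
    (hc : (kL (R, u) ^ 2 - kL (R, u') ^ 2) + kσ (R, u') * ‖R‖ * kL (R, u) * cW' u u' ≠ 0) :
    kX (R, u') (2 * Real.arctan (csW' R u u')) = cB R u u' :=
  @Pool.Agent.HS.kX_csW'_pr R u u' h h' hD hc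

end Pool.Agent.HS
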