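import Pool.Agent.Lib_helper60.HSF.D_WK
import Pool.Agent.Lib_helper60.HSF.K_KA1

/-!
# Project HS, part Z, block KL1
-/

namespace Pool.Agent.HS

noncomputable section

open Set Filter Topology
open scoped ContDiff

theorem kl1_norm_sq (z : ℂ) : ((‖z‖ : ℝ) : ℂ) ^ 2 = z * (starRingEnd ℂ) z := by
  rw [Complex.mul_conj, Complex.normSq_eq_norm_sq]; push_cast; rfl

theorem kl1_ham (i : Fin 2) (y : St) :
    Ham 0 y = mP i * kh' (pP i y) + mQ i * kh' (pQ i y) := by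
  have key : ‖ma * u3 y + mb * u2 y‖ ^ 2 + ma * mb * ‖u3 y - u2 y‖ ^ 2
      = ma * ‖u3 y‖ ^ 2 + mb * ‖u2 y‖ ^ 2 := by
    simp only [← Complex.normSq_eq_norm_sq, Complex.normSq_apply, ma, mb]
    simp
    ring
  have e0 : Ham 0 y = ma * kh' (p3 y) + mb * kh' (p2 y) := by
    unfold Ham cU cW kh' p3 p2
    simp only
    have := key
    rw [show ma * (‖u3 y‖ ^ 2 / 2 - 1 / ‖x3 y‖) + mb * (‖u2 y‖ ^ 2 / 2 - 1 / ‖x2 y‖)
      = (ma * ‖u3 y‖ ^ 2 + mb * ‖u2 y‖ ^ 2) / 2 - ma / ‖x3 y‖ - mb / ‖x2 y‖ by ring, ← key]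
    ring
  rw [e0]
  fin_cases i
  · simp [mP, mQ, pP, pQ]
  · simp [mP, mQ, pP, pQ]
    ring

theorem kl1_mP (i : Fin 2) : mP i ≠ 0 := by
  fin_cases i <;> norm_num [mP, ma, mb]

theorem kl1_arg (i : Fin 2) (y : St) :
    - (((toLC i 0 y).2.2.2.2 - mQ i * (‖(toLC i 0 y).2.2.2.1‖ ^ 2 / 2
      - 1 / ‖(toLC i 0 y).2.2.1‖)) / mP i) / 2 = - kh' (pP i y) / 2 := by
  have e1 : (toLC i 0 y).2.2.2.2 = mP i * kh' (pP i y) + mQ i * kh' (pQ i y) := kl1_ham i y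
  have e2 : ‖(toLC i 0 y).2.2.2.1‖ ^ 2 / 2 - 1 / ‖(toLC i 0 y).2.2.1‖ = kh' (pQ i y) := by
    fin_cases i <;> simp [toLC, kh', pQ, p2, p3]
  rw [e1, e2]
  have := kl1_mP i
  field_simp
  ring

theorem lz_w_pr (i : Fin 2) {y : St} (h : kh' (pP i y) < 0) (h0 : (pP i y).1 ≠ 0) :
    lzw i (toLC i 0 y) = 1 / (2 * Real.sqrt (kA (pP i y))) ∧
      lzw i (toLC i 0 y) = Real.sqrt (-kh' (pP i y) / 2) := by
  have e1 : lzw i (toLC i 0 y) = Real.sqrt (-kh' (pP i y) / 2) := by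
    unfold lzw
    rw [kl1_arg i y]
  refine ⟨?_, e1⟩
  rw [e1]
  have hA : 0 < kA (pP i y) := kA_pos h
  have h2 : 0 < 1 / (2 * Real.sqrt (kA (pP i y))) := by positivity
  rw [Real.sqrt_eq_iff_mul_self_eq (by linarith) h2.le]
  have h3 : Real.sqrt (kA (pP i y)) * Real.sqrt (kA (pP i y)) = kA (pP i y) :=
    Real.mul_self_sqrt hA.le
  rw [show 1 / (2 * Real.sqrt (kA (pP i y))) * (1 / (2 * Real.sqrt (kA (pP i y))))
    = 1 / (4 * (Real.sqrt (kA (pP i y)) * Real.sqrt (kA (pP i y)))) by ring, h3]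
  unfold kA
  have := h.ne
  field_simp
  ring

theorem kl1_sq (x : ℂ) : (x ^ (1/2 : ℂ)) ^ 2 = x := by
  have : (1/2 : ℂ) = ((2 : ℕ) : ℂ)⁻¹ := by norm_num
  rw [this]
  exact Complex.cpow_nat_inv_pow x two_ne_zero

/-- the basic relations -/
theorem kl1_rel {x v ζ : ℂ} (hζ : ζ ^ 2 = x) (h : kh' (x, v) < 0) (h0 : x ≠ 0) :
    ((kr (x, v) : ℝ) : ℂ) = ζ * (starRingEnd ℂ) ζ ∧
    2 * ((kσ (x, v) : ℝ) : ℂ) = (starRingEnd ℂ) ζ ^ 2 * v + ζ ^ 2 * (starRingEnd ℂ) v ∧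
    ((kA (x, v) : ℝ) : ℂ) * (v * (starRingEnd ℂ) v)
      = 2 * ((kA (x, v) : ℝ) : ℂ) / ((kr (x, v) : ℝ) : ℂ) - 1 := by
  refine ⟨?_, ?_, ?_⟩
  · rw [← kl1_norm_sq, ← Complex.ofReal_pow, ← norm_pow, hζ]; rfl
  · have h1 : (starRingEnd ℂ) ζ ^ 2 * v + ζ ^ 2 * (starRingEnd ℂ) v
        = (starRingEnd ℂ) x * v + (starRingEnd ℂ) ((starRingEnd ℂ) x * v) := by
      rw [← hζ]; simp only [map_pow, map_mul, Complex.conj_conj]
    rw [h1, Complex.add_conj]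
    simp [kσ]
  · have hA : 0 < kA (x, v) := kA_pos h
    have h1 := norm_v_sq h
    have h1' : kA (x, v) * ‖v‖ ^ 2 = 2 * kA (x, v) / kr (x, v) - 1 := by
      have h2 : ‖v‖ ^ 2 = 2 / kr (x, v) - 1 / kA (x, v) := h1
      rw [h2]
      have := hA.ne'
      field_simp
    rw [← kl1_norm_sq]
    exact_mod_cast h1'

theorem kl1_core1 {x v ζ : ℂ} (hζ : ζ ^ 2 = x) (h : kh' (x, v) < 0) (h0 : x ≠ 0) (s : ℝ) :
    ((Real.cos (s / 2) : ℝ) * ζ + (Real.sin (s / 2) * (Real.sqrt (kA (x, v)) / 2) : ℝ)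
      * (2 * (starRingEnd ℂ) ζ * v)) ^ 2 = kX (x, v) s := by
  obtain ⟨r1, r2, r3⟩ := kl1_rel hζ h h0
  have hA : 0 < kA (x, v) := kA_pos h
  have ha : ((Real.sqrt (kA (x, v)) : ℝ) : ℂ) ^ 2 = ((kA (x, v) : ℝ) : ℂ) := by
    rw [← Complex.ofReal_pow, Real.sq_sqrt hA.le]
  have hc : Real.cos s = 1 - 2 * Real.sin (s / 2) ^ 2 := by
    have h1 := Real.cos_two_mul (s / 2)
    have h2 := Real.sin_sq_add_cos_sq (s / 2)
    rw [show 2 * (s / 2) = s by ring] at h1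
    nlinarith
  have hs : Real.sin s = 2 * Real.sin (s / 2) * Real.cos (s / 2) := by
    have h1 := Real.sin_two_mul (s / 2)
    rw [show 2 * (s / 2) = s by ring] at h1
    exact h1
  have hcs : ((Real.cos (s / 2) : ℝ) : ℂ) ^ 2 = 1 - ((Real.sin (s / 2) : ℝ) : ℂ) ^ 2 := by
    have h2 := Real.sin_sq_add_cos_sq (s / 2)
    have h3 : Real.cos (s / 2) ^ 2 = 1 - Real.sin (s / 2) ^ 2 := by linarith
    exact_mod_cast h3
  unfold kX
  simp only [hc, hs]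
  clear hc hs
  have hζ0 : ζ ≠ 0 := by rintro rfl; apply h0; rw [← hζ]; simp
  have hζc : (starRingEnd ℂ) ζ ≠ 0 := by simpa using hζ0
  have hr : ((kr (x, v) : ℝ) : ℂ) ≠ 0 := by rw [r1]; exact mul_ne_zero hζ0 hζc
  generalize Real.cos (s / 2) = c at *
  generalize Real.sin (s / 2) = d at *
  generalize Real.sqrt (kA (x, v)) = a at *
  generalize kA (x, v) = A at *
  generalize kr (x, v) = r at *
  generalize kσ (x, v) = g at *
  generalize (starRingEnd ℂ) ζ = ζc at *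
  generalize (starRingEnd ℂ) v = vc at *
  push_cast
  rw [← hζ]
  linear_combination (ζ ^ 2) * hcs + d ^ 2 * ζc ^ 2 * v ^ 2 * ha - (A * d ^ 2 * v) * r2
    - d ^ 2 * ζ ^ 2 * r3 - 2 * a * c * d * v * r1

theorem kl1_core2 {x v ζ : ℂ} (hζ : ζ ^ 2 = x) (h : kh' (x, v) < 0) (h0 : x ≠ 0) (s : ℝ) :
    ((-(2 / Real.sqrt (kA (x, v))) * Real.sin (s / 2) : ℝ) * ζ + (Real.cos (s / 2) : ℝ)
      * (2 * (starRingEnd ℂ) ζ * v)) *
    ((Real.cos (s / 2) : ℝ) * ζ + (Real.sin (s / 2) * (Real.sqrt (kA (x, v)) / 2) : ℝ)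
      * (2 * (starRingEnd ℂ) ζ * v)) = (2 * Real.sqrt (kA (x, v)) / kA (x, v) : ℝ) *
      ((- (kA (x, v) / kr (x, v)) * Real.sin s : ℝ) * (x, v).1
      + ((Real.sqrt (kA (x, v)) * kr (x, v) * Real.cos s
        + kA (x, v) * kσ (x, v) * Real.sin s) : ℝ) * (x, v).2) := by
  obtain ⟨r1, r2, r3⟩ := kl1_rel hζ h h0
  have hA : 0 < kA (x, v) := kA_pos h
  have ha : ((Real.sqrt (kA (x, v)) : ℝ) : ℂ) ^ 2 = ((kA (x, v) : ℝ) : ℂ) := by
    rw [← Complex.ofReal_pow, Real.sq_sqrt hA.le]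
  have ha0 : ((Real.sqrt (kA (x, v)) : ℝ) : ℂ) ≠ 0 := by
    exact_mod_cast (Real.sqrt_ne_zero'.2 hA)
  have hA0 : ((kA (x, v) : ℝ) : ℂ) ≠ 0 := by exact_mod_cast hA.ne'
  have hc : Real.cos s = 1 - 2 * Real.sin (s / 2) ^ 2 := by
    have h1 := Real.cos_two_mul (s / 2)
    have h2 := Real.sin_sq_add_cos_sq (s / 2)
    rw [show 2 * (s / 2) = s by ring] at h1
    nlinarith
  have hs : Real.sin s = 2 * Real.sin (s / 2) * Real.cos (s / 2) := by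
    have h1 := Real.sin_two_mul (s / 2)
    rw [show 2 * (s / 2) = s by ring] at h1
    exact h1
  have hcs : ((Real.cos (s / 2) : ℝ) : ℂ) ^ 2 = 1 - ((Real.sin (s / 2) : ℝ) : ℂ) ^ 2 := by
    have h2 := Real.sin_sq_add_cos_sq (s / 2)
    have h3 : Real.cos (s / 2) ^ 2 = 1 - Real.sin (s / 2) ^ 2 := by linarith
    exact_mod_cast h3
  simp only [hc, hs]
  clear hc hs
  have hζ0 : ζ ≠ 0 := by rintro rfl; apply h0; rw [← hζ]; simp
  have hζc : (starRingEnd ℂ) ζ ≠ 0 := by simpa using hζ0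
  have hr : ((kr (x, v) : ℝ) : ℂ) ≠ 0 := by rw [r1]; exact mul_ne_zero hζ0 hζc
  generalize Real.cos (s / 2) = c at *
  generalize Real.sin (s / 2) = d at *
  generalize Real.sqrt (kA (x, v)) = a at *
  generalize kA (x, v) = A at *
  generalize kr (x, v) = r at *
  generalize kσ (x, v) = g at *
  generalize (starRingEnd ℂ) ζ = ζc at *
  generalize (starRingEnd ℂ) v = vc at *
  push_cast
  rw [← hζ]
  have e1 : (2 : ℂ) / (a : ℂ) = 2 * a / A := by rw [← ha]; field_simp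
  have e2 : (a : ℂ) * a = A := by rw [← ha]; ring
  have e3 : (a : ℂ) / A * a = 1 := by
    rw [← ha]; field_simp
  rw [e1]
  have r3' : (v * vc) = 2 / (r : ℂ) - 1 / A := by
    have : (v * vc) = (A * (v * vc)) / A := by field_simp
    rw [this, r3]; field_simp
  have hb : (a : ℂ) * a / A = 1 := by rw [e2]; field_simp
  have hAA : (A : ℂ) * (A : ℂ)⁻¹ = 1 := mul_inv_cancel₀ hA0
  linear_combination (2 * ζ * ζc * v) * hcs - (2 * a * c * d * v) * r2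
    - (2 * a * c * d * ζ ^ 2) * r3' + (-2 * d ^ 2 * ζ * ζc * v - 2 * r * (1 - 2 * d ^ 2) * v) * hb
    + (4 * a / r * c * d * ζ ^ 2 - 4 * a * g * c * d * v) * hAA - (2 * (1 - 2 * d ^ 2) * v) * r1

theorem kl1_Z (i : Fin 2) (y : St) : (toLC i 0 y).1 ^ 2 = (pP i y).1 ∧
    (toLC i 0 y).2.1 = 2 * (starRingEnd ℂ) (toLC i 0 y).1 * (pP i y).2 := by
  fin_cases i
  · exact ⟨kl1_sq _, rfl⟩
  · exact ⟨kl1_sq _, rfl⟩

theorem kl1_ζ (i : Fin 2) {y : St} (h : kh' (pP i y) < 0) (h0 : (pP i y).1 ≠ 0) (τ : ℝ) :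
    lzζ i τ (toLC i 0 y) = (Real.cos (τ / Real.sqrt (kA (pP i y)) / 2) : ℝ) * (toLC i 0 y).1 +
      (Real.sin (τ / Real.sqrt (kA (pP i y)) / 2) * (Real.sqrt (kA (pP i y)) / 2) : ℝ)
      * (2 * (starRingEnd ℂ) (toLC i 0 y).1 * (pP i y).2) := by
  have hw := (lz_w_pr i h h0).1
  have hA : 0 < Real.sqrt (kA (pP i y)) := Real.sqrt_pos.2 (kA_pos h)
  unfold lzζ
  rw [(kl1_Z i y).2, hw]
  rw [show 1 / (2 * Real.sqrt (kA (pP i y))) * τ = τ / Real.sqrt (kA (pP i y)) / 2 by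
    field_simp]
  rw [show Real.sin (τ / Real.sqrt (kA (pP i y)) / 2) / (4 * (1 / (2 * Real.sqrt (kA (pP i y)))))
    = Real.sin (τ / Real.sqrt (kA (pP i y)) / 2) * (Real.sqrt (kA (pP i y)) / 2) by
      field_simp; ring]

theorem kl1_η (i : Fin 2) {y : St} (h : kh' (pP i y) < 0) (h0 : (pP i y).1 ≠ 0) (τ : ℝ) :
    lzη i τ (toLC i 0 y) = (-(2 / Real.sqrt (kA (pP i y)))
      * Real.sin (τ / Real.sqrt (kA (pP i y)) / 2) : ℝ) * (toLC i 0 y).1 +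
      (Real.cos (τ / Real.sqrt (kA (pP i y)) / 2) : ℝ)
      * (2 * (starRingEnd ℂ) (toLC i 0 y).1 * (pP i y).2) := by
  have hw := (lz_w_pr i h h0).1
  have hA : 0 < Real.sqrt (kA (pP i y)) := Real.sqrt_pos.2 (kA_pos h)
  unfold lzη
  rw [(kl1_Z i y).2, hw]
  rw [show 1 / (2 * Real.sqrt (kA (pP i y))) * τ = τ / Real.sqrt (kA (pP i y)) / 2 by
    field_simp]
  rw [show -4 * (1 / (2 * Real.sqrt (kA (pP i y)))) = -(2 / Real.sqrt (kA (pP i y))) by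
      field_simp; ring]

/-- square of the regularized position -/
theorem lz_sq_pr (i : Fin 2) {y : St} (h : kh' (pP i y) < 0) (h0 : (pP i y).1 ≠ 0) (τ : ℝ) :
    lzζ i τ (toLC i 0 y) ^ 2 = kX (pP i y) (τ / Real.sqrt (kA (pP i y))) := by
  rw [kl1_ζ i h h0 τ]
  exact kl1_core1 (x := (pP i y).1) (v := (pP i y).2) (kl1_Z i y).1 h h0 _

/-- velocity of the regularized body -/
theorem lz_vel_pr (i : Fin 2) {y : St} (h : kh' (pP i y) < 0) (h0 : (pP i y).1 ≠ 0) (τ : ℝ)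
    (hζ : lzζ i τ (toLC i 0 y) ≠ 0) :
    lzη i τ (toLC i 0 y) / (2 * (starRingEnd ℂ) (lzζ i τ (toLC i 0 y))) =
      kV (pP i y) (τ / Real.sqrt (kA (pP i y))) := by
  have hsq := lz_sq_pr i h h0 τ
  have hn : ‖lzζ i τ (toLC i 0 y)‖ ^ 2 = kR (pP i y) (τ / Real.sqrt (kA (pP i y))) := by
    rw [← norm_pow, hsq, norm_kX h h0]
  have hn' : lzζ i τ (toLC i 0 y) * (starRingEnd ℂ) (lzζ i τ (toLC i 0 y))
      = ((kR (pP i y) (τ / Real.sqrt (kA (pP i y))) : ℝ) : ℂ) := by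
    rw [← kl1_norm_sq, ← hn]; push_cast; rfl
  have hprod : lzη i τ (toLC i 0 y) * lzζ i τ (toLC i 0 y) =
      (2 * Real.sqrt (kA (pP i y)) / kA (pP i y) : ℝ) *
      ((- (kA (pP i y) / kr (pP i y)) * Real.sin (τ / Real.sqrt (kA (pP i y))) : ℝ) * (pP i y).1
      + ((Real.sqrt (kA (pP i y)) * kr (pP i y) * Real.cos (τ / Real.sqrt (kA (pP i y)))
        + kA (pP i y) * kσ (pP i y) * Real.sin (τ / Real.sqrt (kA (pP i y)))) : ℝ)
          * (pP i y).2) := by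
    rw [kl1_ζ i h h0 τ, kl1_η i h h0 τ]
    exact kl1_core2 (x := (pP i y).1) (v := (pP i y).2) (kl1_Z i y).1 h h0 _
  have hA : 0 < kA (pP i y) := kA_pos h
  have hcζ : (starRingEnd ℂ) (lzζ i τ (toLC i 0 y)) ≠ 0 := by simpa using hζ
  have hR : ((kR (pP i y) (τ / Real.sqrt (kA (pP i y))) : ℝ) : ℂ) ≠ 0 := by
    rw [← hn']; exact mul_ne_zero hζ hcζ
  have ha : ((Real.sqrt (kA (pP i y)) : ℝ) : ℂ) ^ 2 = ((kA (pP i y) : ℝ) : ℂ) := by
    rw [← Complex.ofReal_pow, Real.sq_sqrt hA.le]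
  have ha0 : ((Real.sqrt (kA (pP i y)) : ℝ) : ℂ) ≠ 0 := by
    exact_mod_cast (Real.sqrt_ne_zero'.2 hA)
  have e1 : lzη i τ (toLC i 0 y) / (2 * (starRingEnd ℂ) (lzζ i τ (toLC i 0 y))) =
      lzη i τ (toLC i 0 y) * lzζ i τ (toLC i 0 y) /
        (2 * (lzζ i τ (toLC i 0 y) * (starRingEnd ℂ) (lzζ i τ (toLC i 0 y)))) := by
    field_simp
  rw [e1, hprod, hn']
  unfold kV
  rw [Complex.ofReal_inv, Complex.ofReal_mul, Complex.ofReal_div, Complex.ofReal_mul, ← ha]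
  push_cast
  field_simp

end

end Pool.Agent.HS

namespace Pool.Agent.HS
open Set Filter Topology
open scoped ContDiff

theorem lz_sq (i : Fin 2) {y : St} (h : kh' (pP i y) < 0) (h0 : (pP i y).1 ≠ 0) (τ : ℝ) :
    lzζ i τ (toLC i 0 y) ^ 2 = kX (pP i y) (τ / Real.sqrt (kA (pP i y))) :=
  @Pool.Agent.HS.lz_sq_pr i y h h0 τ

end Pool.Agent.HS

namespace Pool.Agent.HS
open Set Filter Topology
open scoped ContDiff

theorem lz_vel (i : Fin 2) {y : St} (h : kh' (pP i y) < 0) (h0 : (pP i y).1 ≠ 0) (τ : ℝ)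
    (hζ : lzζ i τ (toLC i 0 y) ≠ 0) :
    lzη i τ (toLC i 0 y) / (2 * (starRingEnd ℂ) (lzζ i τ (toLC i 0 y))) =
      kV (pP i y) (τ / Real.sqrt (kA (pP i y))) :=
  @Pool.Agent.HS.lz_vel_pr i y h h0 τ hζ

end Pool.Agent.HS

namespace Pool.Agent.HS
open Set Filter Topology
open scoped ContDiff

theorem lz_w (i : Fin 2) {y : St} (h : kh' (pP i y) < 0) (h0 : (pP i y).1 ≠ 0) :
    lzw i (toLC i 0 y) = 1 / (2 * Real.sqrt (kA (pP i y))) ∧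
      lzw i (toLC i 0 y) = Real.sqrt (-kh' (pP i y) / 2) :=
  @Pool.Agent.HS.lz_w_pr i y h h0

end Pool.Agent.HS
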