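import Pool.Agent.Lib_helper60.HSF.D_WK
import Pool.Agent.Lib_helper60.HSF.K_KA1
import Pool.Agent.Lib_helper60.HSF.K_KL1
import Pool.Agent.Lib_helper60.HSF.K_KC1

/-!
# Project HS, part Z: Kepler library, block KL2
-/

namespace Pool.Agent.HS

noncomputable section

open Set Filter Topology
open scoped ContDiff

lemma kl2_toLC (i : Fin 2) (y : St) :
    ((toLC i 0 y).2.2.1, (toLC i 0 y).2.2.2.1) = pQ i y := by
  unfold toLC pQ p2 p3
  fin_cases i <;> simp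

/-- physical time -/
theorem lz_time_pr (i : Fin 2) {y : St} (h : kh' (pP i y) < 0) (h0 : (pP i y).1 ≠ 0) (τ : ℝ) :
    lzt i τ (toLC i 0 y) = kT (pP i y) (τ / Real.sqrt (kA (pP i y))) := by
  have hA : 0 < Real.sqrt (kA (pP i y)) := Real.sqrt_pos.2 (kA_pos h)
  have e1 : ∀ s : ℝ, ‖lzζ i s (toLC i 0 y)‖ ^ 2 = kR (pP i y) (s / Real.sqrt (kA (pP i y))) := by
    intro s
    rw [← norm_kX h h0, ← lz_sq i h h0 s, norm_pow]
  unfold lzt
  simp only [e1]
  have hd : ∀ s ∈ Set.uIcc (0 : ℝ) τ, HasDerivAt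
      (fun s : ℝ => kT (pP i y) (s / Real.sqrt (kA (pP i y))))
      (kR (pP i y) (s / Real.sqrt (kA (pP i y)))) s := by
    intro s _
    have h1 := (kT_deriv h (s / Real.sqrt (kA (pP i y)))).comp s
      ((hasDerivAt_id s).div_const (Real.sqrt (kA (pP i y))))
    refine h1.congr_deriv ?_
    field_simp
  have hc : Continuous (fun s : ℝ => kR (pP i y) (s / Real.sqrt (kA (pP i y)))) := by
    unfold kR
    fun_prop
  rw [intervalIntegral.integral_eq_sub_of_hasDerivAt hd (hc.intervalIntegrable _ _)]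
  have e2 : kT (pP i y) (0 / Real.sqrt (kA (pP i y))) = 0 := by
    unfold kT
    simp
  rw [e2, sub_zero]

/-- the limit trajectory in Cartesian coordinates -/
theorem lc_cart_pr (i : Fin 2) {y : St} (h : kh' (pP i y) < 0) (h0 : (pP i y).1 ≠ 0)
    (hQ : Ell (pQ i y)) (τ : ℝ) (hζ : lzζ i τ (toLC i 0 y) ≠ 0) :
    p3 (lcSt i (lz0 i τ (toLC i 0 y))) =
      (if i = 0 then kY (p3 y) (τ / Real.sqrt (kA (p3 y)))
        else kep (lzt i τ (toLC i 0 y)) (p3 y)) ∧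
    p2 (lcSt i (lz0 i τ (toLC i 0 y))) =
      (if i = 0 then kep (lzt i τ (toLC i 0 y)) (p2 y)
        else kY (p2 y) (τ / Real.sqrt (kA (p2 y)))) := by
  have h1 := lz_sq i h h0 τ
  have h2 := lz_vel i h h0 τ hζ
  have h3 := kl2_toLC i y
  have e1 : ((lz0 i τ (toLC i 0 y)).1 ^ 2, (lz0 i τ (toLC i 0 y)).2.1 /
      (2 * (starRingEnd ℂ) (lz0 i τ (toLC i 0 y)).1)) =
      kY (pP i y) (τ / Real.sqrt (kA (pP i y))) := by
    unfold kY
    rw [← h1, ← h2]
    rfl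
  have e2 : ((lz0 i τ (toLC i 0 y)).2.2.1, (lz0 i τ (toLC i 0 y)).2.2.2.1) =
      kep (lzt i τ (toLC i 0 y)) (pQ i y) := by
    rw [← h3]
    rfl
  rcases (by fin_cases i <;> simp : i = 0 ∨ i = 1) with rfl | rfl
  · simp only [if_true]
    have f1 : pP 0 y = p3 y := rfl
    have f2 : pQ 0 y = p2 y := rfl
    rw [f1] at e1
    rw [f2] at e2
    constructor
    · rw [← e1]
      rfl
    · rw [← e2]
      rfl
  · have hne : ¬ ((1 : Fin 2) = 0) := by decide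
    rw [if_neg hne, if_neg hne]
    have f1 : pP 1 y = p2 y := by unfold pP; rw [if_neg hne]
    have f2 : pQ 1 y = p3 y := by unfold pQ; rw [if_neg hne]
    rw [f1] at e1
    rw [f2] at e2
    constructor
    · rw [← e2]
      unfold p3 lcSt x3 u3
      rw [if_neg hne]
    · rw [← e1]
      unfold p2 lcSt x2 u2
      rw [if_neg hne]

/-- `ξ` along the limit trajectory -/
theorem lc_xi_pr (i : Fin 2) {y : St} (h : kh' (pP i y) < 0) (h0 : (pP i y).1 ≠ 0)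
    (hQ : Ell (pQ i y)) (τ : ℝ) :
    lcX (lz0 i τ (toLC i 0 y)) = kX (pP i y) (τ / Real.sqrt (kA (pP i y))) -
      (kep (kT (pP i y) (τ / Real.sqrt (kA (pP i y)))) (pQ i y)).1 := by
  rw [← lz_sq i h h0 τ, ← lz_time_pr i h h0 τ, ← kl2_toLC i y]
  rfl

end

end Pool.Agent.HS

namespace Pool.Agent.HS
open Set Filter Topology
open scoped ContDiff

theorem lz_time (i : Fin 2) {y : St} (h : kh' (pP i y) < 0) (h0 : (pP i y).1 ≠ 0) (τ : ℝ) :
    lzt i τ (toLC i 0 y) = kT (pP i y) (τ / Real.sqrt (kA (pP i y))) :=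
  @Pool.Agent.HS.lz_time_pr i y h h0 τ

end Pool.Agent.HS

namespace Pool.Agent.HS
open Set Filter Topology
open scoped ContDiff

theorem lc_cart (i : Fin 2) {y : St} (h : kh' (pP i y) < 0) (h0 : (pP i y).1 ≠ 0)
    (hQ : Ell (pQ i y)) (τ : ℝ) (hζ : lzζ i τ (toLC i 0 y) ≠ 0) :
    p3 (lcSt i (lz0 i τ (toLC i 0 y))) =
      (if i = 0 then kY (p3 y) (τ / Real.sqrt (kA (p3 y)))
        else kep (lzt i τ (toLC i 0 y)) (p3 y)) ∧
    p2 (lcSt i (lz0 i τ (toLC i 0 y))) =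
      (if i = 0 then kep (lzt i τ (toLC i 0 y)) (p2 y)
        else kY (p2 y) (τ / Real.sqrt (kA (p2 y)))) :=
  @Pool.Agent.HS.lc_cart_pr i y h h0 hQ τ hζ

end Pool.Agent.HS

namespace Pool.Agent.HS
open Set Filter Topology
open scoped ContDiff

theorem lc_xi (i : Fin 2) {y : St} (h : kh' (pP i y) < 0) (h0 : (pP i y).1 ≠ 0)
    (hQ : Ell (pQ i y)) (τ : ℝ) :
    lcX (lz0 i τ (toLC i 0 y)) = kX (pP i y) (τ / Real.sqrt (kA (pP i y))) -
      (kep (kT (pP i y) (τ / Real.sqrt (kA (pP i y)))) (pQ i y)).1 :=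
  @Pool.Agent.HS.lc_xi_pr i y h h0 hQ τ

end Pool.Agent.HS
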