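import Pool.Agent.Lib_helper60.HSF.D_WK
import Pool.Agent.Lib_helper60.HSF.K_KE1
import Pool.Agent.Lib_helper60.HSF.K_KA1
import Pool.Agent.Lib_helper60.HSF.K_KL2
import Pool.Agent.Lib_helper60.HSF.K_KE2
import Pool.Agent.Lib_helper60.HSF.K_KL1

namespace Pool.Agent.HS

noncomputable section

open Set Filter Topology
open scoped ContDiff

theorem kl3_colD : ContDiff ℝ ∞ colD := by
  unfold colD ofRU
  have h1 : ContDiff ℝ ∞ (fun d : Dt => d.1) := contDiff_fst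
  have h2 : ContDiff ℝ ∞ (fun d : Dt => d.2.1) := contDiff_fst.comp contDiff_snd
  have h3 : ContDiff ℝ ∞ (fun d : Dt => (d.2.2.1 : ℂ)) :=
    Complex.ofRealCLM.contDiff.comp (contDiff_fst.comp (contDiff_snd.comp contDiff_snd))
  have h4 : ContDiff ℝ ∞ (fun d : Dt => (d.2.2.2 : ℂ)) :=
    Complex.ofRealCLM.contDiff.comp (contDiff_snd.comp (contDiff_snd.comp contDiff_snd))
  have h5 : ContDiff ℝ ∞ (fun d : Dt => (d.2.2.1 : ℂ) * Complex.exp (d.2.2.2 * Complex.I)) :=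
    h3.mul (h4.mul contDiff_const).cexp
  refine ContDiff.prodMk (h1.add (contDiff_const.mul contDiff_const)) ?_
  refine ContDiff.prodMk (h1.sub (contDiff_const.mul contDiff_const)) ?_
  exact ContDiff.prodMk (h2.add (contDiff_const.mul h5)) (h2.sub (contDiff_const.mul h5))

theorem kl3_x3 (d : Dt) : x3 (colD d) = d.1 := by
  simp [x3, colD, ofRU]

theorem kl3_x2 (d : Dt) : x2 (colD d) = d.1 := by
  simp [x2, colD, ofRU]

theorem kl3_pP1 (i : Fin 2) (d : Dt) : (pP i (colD d)).1 = d.1 := by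
  unfold pP
  split_ifs
  · exact kl3_x3 d
  · exact kl3_x2 d

theorem kl3_pQ1 (i : Fin 2) (d : Dt) : (pQ i (colD d)).1 = d.1 := by
  unfold pQ
  split_ifs
  · exact kl3_x2 d
  · exact kl3_x3 d

theorem kl3_pP (i : Fin 2) : ContDiff ℝ ∞ (fun d : Dt => pP i (colD d)) := by
  have h := kl3_colD
  unfold pP
  split_ifs
  · exact (contDiff_fst.comp h).prodMk (contDiff_fst.comp (contDiff_snd.comp (contDiff_snd.comp h)))
  · exact (contDiff_fst.comp (contDiff_snd.comp h)).prodMk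
      (contDiff_snd.comp (contDiff_snd.comp (contDiff_snd.comp h)))

theorem kl3_pQ (i : Fin 2) : ContDiff ℝ ∞ (fun d : Dt => pQ i (colD d)) := by
  have h := kl3_colD
  unfold pQ
  split_ifs
  · exact (contDiff_fst.comp (contDiff_snd.comp h)).prodMk
      (contDiff_snd.comp (contDiff_snd.comp (contDiff_snd.comp h)))
  · exact (contDiff_fst.comp h).prodMk (contDiff_fst.comp (contDiff_snd.comp (contDiff_snd.comp h)))

theorem kl3_ne {d : Dt} (h : 0 < d.1.re) : d.1 ≠ 0 := by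
  intro h0
  rw [h0] at h
  simp at h

theorem kl3_open (i : Fin 2) : IsOpen (Sm i) := by
  have h1 : IsOpen {d : Dt | 0 < d.1.re} :=
    isOpen_lt continuous_const (Complex.continuous_re.comp continuous_fst)
  have h2 : IsOpen ((fun d : Dt => pP i (colD d)) ⁻¹' {y : KS | kh' y < 0 ∧ y.1 ≠ 0}) :=
    isOpen_neg.preimage (kl3_pP i).continuous
  have h3 : IsOpen ((fun d : Dt => pQ i (colD d)) ⁻¹' {y : KS | Ell y}) :=
    isOpen_ell.preimage (kl3_pQ i).continuous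
  have : Sm i = {d : Dt | 0 < d.1.re} ∩ ((fun d : Dt => pP i (colD d)) ⁻¹'
      {y : KS | kh' y < 0 ∧ y.1 ≠ 0}) ∩ ((fun d : Dt => pQ i (colD d)) ⁻¹' {y : KS | Ell y}) := by
    ext d
    simp only [Sm, mem_ofPred_eq, mem_inter_iff, mem_preimage]
    constructor
    · rintro ⟨a, b, c⟩
      exact ⟨⟨a, b, by rw [kl3_pP1]; exact kl3_ne a⟩, c⟩
    · rintro ⟨⟨a, b, -⟩, c⟩
      exact ⟨a, b, c⟩
  rw [this]
  exact (h1.inter h2).inter h3

/-- energy as a function of a Kepler state is smooth -/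
theorem kl3_kh : ContDiffOn ℝ ∞ kh' {y : KS | kh' y < 0 ∧ y.1 ≠ 0} := by
  unfold kh'
  have h1 : ContDiffOn ℝ ∞ (fun y : KS => ‖y.1‖) {y : KS | ‖y.2‖ ^ 2 / 2 - 1 / ‖y.1‖ < 0 ∧ y.1 ≠ 0} := by
    intro y hy
    exact (contDiffAt_fst.norm ℝ hy.2).contDiffWithinAt
  have h2 : ContDiffOn ℝ ∞ (fun y : KS => ‖y.2‖ ^ 2) {y : KS | ‖y.2‖ ^ 2 / 2 - 1 / ‖y.1‖ < 0 ∧ y.1 ≠ 0} :=
    (contDiff_snd.norm_sq ℝ).contDiffOn
  exact (h2.div_const 2).sub (contDiffOn_const.div h1 (fun y hy => norm_ne_zero_iff.2 hy.2))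

theorem kl3_kA : ContDiffOn ℝ ∞ (fun y : KS => Real.sqrt (kA y)) {y : KS | kh' y < 0 ∧ y.1 ≠ 0} := by
  have h : ContDiffOn ℝ ∞ kA {y : KS | kh' y < 0 ∧ y.1 ≠ 0} := by
    unfold kA
    exact contDiffOn_const.div (contDiffOn_const.mul kl3_kh) (fun y hy => by
      have := hy.1
      simp only [ne_eq, mul_eq_zero, not_or]
      exact ⟨two_ne_zero, this.ne⟩)
  exact h.sqrt (fun y hy => (kA_pos hy.1).ne')

theorem kl3_w : ContDiffOn ℝ ∞ (fun y : KS => Real.sqrt (-kh' y / 2)) {y : KS | kh' y < 0 ∧ y.1 ≠ 0} := by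
  refine ContDiffOn.sqrt (kl3_kh.neg.div_const 2) (fun y hy => ?_)
  have := hy.1
  have h2 : 0 < -kh' y / 2 := by linarith
  exact h2.ne'

theorem kl3_ham : ContDiffOn ℝ ∞ (fun d : Dt => Ham 0 (colD d)) {d | 0 < d.1.re} := by
  have hc := kl3_colD
  have e : ∀ d : Dt, Ham 0 (colD d) = ‖cU (colD d)‖ ^ 2 / 2 + ma * mb * (‖cW (colD d)‖ ^ 2 / 2)
      - ma / ‖d.1‖ - mb / ‖d.1‖ := by
    intro d
    unfold Ham
    rw [kl3_x3, kl3_x2]
    ring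
  have hu3 : ContDiff ℝ ∞ (fun d : Dt => u3 (colD d)) :=
    contDiff_fst.comp (contDiff_snd.comp (contDiff_snd.comp hc))
  have hu2 : ContDiff ℝ ∞ (fun d : Dt => u2 (colD d)) :=
    contDiff_snd.comp (contDiff_snd.comp (contDiff_snd.comp hc))
  have hU : ContDiff ℝ ∞ (fun d : Dt => cU (colD d)) := by
    unfold cU
    exact (contDiff_const.mul hu3).add (contDiff_const.mul hu2)
  have hW : ContDiff ℝ ∞ (fun d : Dt => cW (colD d)) := by
    unfold cW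
    exact hu3.sub hu2
  have hn : ContDiffOn ℝ ∞ (fun d : Dt => ‖d.1‖) {d | 0 < d.1.re} := by
    intro d hd
    exact (contDiffAt_fst.norm ℝ (kl3_ne hd)).contDiffWithinAt
  have hn0 : ∀ d ∈ {d : Dt | 0 < d.1.re}, ‖d.1‖ ≠ 0 := fun d hd => norm_ne_zero_iff.2 (kl3_ne hd)
  have : ContDiffOn ℝ ∞ (fun d : Dt => ‖cU (colD d)‖ ^ 2 / 2 + ma * mb * (‖cW (colD d)‖ ^ 2 / 2)
      - ma / ‖d.1‖ - mb / ‖d.1‖) {d | 0 < d.1.re} := by
    refine ContDiffOn.sub (ContDiffOn.sub (ContDiffOn.add ?_ ?_) ?_) ?_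
    · exact ((hU.norm_sq ℝ).div_const 2).contDiffOn
    · exact contDiffOn_const.mul ((hW.norm_sq ℝ).div_const 2).contDiffOn
    · exact contDiffOn_const.div hn hn0
    · exact contDiffOn_const.div hn hn0
  exact this.congr (fun d _ => e d)

theorem kl3_root : ContDiffOn ℝ ∞ (fun d : Dt => d.1 ^ (1/2 : ℂ)) {d : Dt | 0 < d.1.re} := by
  have h : ContDiffOn ℂ ∞ (fun z : ℂ => z ^ (1/2 : ℂ)) {z : ℂ | 0 < z.re} := by
    have ho : IsOpen {z : ℂ | 0 < z.re} := isOpen_lt continuous_const Complex.continuous_re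
    refine DifferentiableOn.contDiffOn (fun z hz => ?_) ho
    exact (differentiableAt_id.cpow (differentiableAt_const _)
      (Or.inl hz)).differentiableWithinAt
  exact (h.restrict_scalars ℝ).comp contDiff_fst.contDiffOn (fun d hd => hd)

theorem kl3_toLC (i : Fin 2) (d : Dt) : toLC i 0 (colD d) =
    (d.1 ^ (1/2 : ℂ), 2 * (starRingEnd ℂ) (d.1 ^ (1/2 : ℂ)) * (pP i (colD d)).2, (pQ i (colD d)).1,
      (pQ i (colD d)).2, Ham 0 (colD d)) := by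
  unfold toLC pP pQ p3 p2
  split_ifs <;> simp [kl3_x3, kl3_x2]

theorem kl3_maps (i : Fin 2) (f : Dt × ℝ → ℝ) : MapsTo (fun p : Dt × ℝ => ((f p,
    pQ i (colD p.1)) : ℝ × KS)) {p : Dt × ℝ | p.1 ∈ Sm i} {p : ℝ × KS | Ell p.2} := by
  intro p hp
  have h : Ell (pQ i (colD p.1)) := hp.2.2
  exact h

theorem kl3_kep {S : Set (Dt × ℝ)} (f : Dt × ℝ → ℝ) (g : Dt × ℝ → KS)
    (h : ContDiffOn ℝ ∞ (fun p : Dt × ℝ => ((f p, g p) : ℝ × KS)) S)
    (hm : MapsTo (fun p : Dt × ℝ => ((f p, g p) : ℝ × KS)) S {p : ℝ × KS | Ell p.2}) :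
    ContDiffOn ℝ ∞ (fun p : Dt × ℝ => kep (f p) (g p)) S := by
  have h3 := ContDiffOn.comp kep_smooth h hm
  exact h3

theorem kl3_kT {S : Set (Dt × ℝ)} (g : Dt × ℝ → KS) (f : Dt × ℝ → ℝ)
    (h : ContDiffOn ℝ ∞ (fun p : Dt × ℝ => ((g p, f p) : KS × ℝ)) S)
    (hm : ∀ p ∈ S, g p ∈ {y : KS | kh' y < 0 ∧ y.1 ≠ 0}) :
    ContDiffOn ℝ ∞ (fun p : Dt × ℝ => kT (g p) (f p)) S := by
  have h3 := ContDiffOn.comp kT_smooth h (fun p hp => by
    have := hm p hp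
    exact this)
  exact h3

theorem Zd_smooth_pr (i : Fin 2) : ContDiffOn ℝ ∞ (fun p : Dt × ℝ => Zd i p.1 p.2) {p | p.1 ∈ Sm i} ∧
    IsOpen (Sm i) := by
  refine ⟨?_, kl3_open i⟩
  set S : Set (Dt × ℝ) := {p | p.1 ∈ Sm i} with hS
  have f1 : ContDiffOn ℝ ∞ (fun p : Dt × ℝ => p.1) S := contDiff_fst.contDiffOn
  have f2 : ContDiffOn ℝ ∞ (fun p : Dt × ℝ => p.2) S := contDiff_snd.contDiffOn
  have hne : ∀ p ∈ S, (pP i (colD p.1)).1 ≠ 0 := fun p hp => by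
    rw [kl3_pP1]; exact kl3_ne hp.1
  have hP : ContDiffOn ℝ ∞ (fun p : Dt × ℝ => pP i (colD p.1)) S := (kl3_pP i).comp_contDiffOn f1
  have hQ : ContDiffOn ℝ ∞ (fun p : Dt × ℝ => pQ i (colD p.1)) S := (kl3_pQ i).comp_contDiffOn f1
  have mP' : MapsTo (fun p : Dt × ℝ => pP i (colD p.1)) S {y : KS | kh' y < 0 ∧ y.1 ≠ 0} :=
    fun p hp => ⟨hp.2.1, hne p hp⟩
  have hA : ContDiffOn ℝ ∞ (fun p : Dt × ℝ => Real.sqrt (kA (pP i (colD p.1)))) S :=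
    kl3_kA.comp hP mP'
  have hA0 : ∀ p ∈ S, Real.sqrt (kA (pP i (colD p.1))) ≠ 0 := fun p hp =>
    (Real.sqrt_pos.2 (kA_pos hp.2.1)).ne'
  have hw : ContDiffOn ℝ ∞ (fun p : Dt × ℝ => lzw i (toLC i 0 (colD p.1))) S := by
    have : ContDiffOn ℝ ∞ (fun p : Dt × ℝ => Real.sqrt (-kh' (pP i (colD p.1)) / 2)) S :=
      kl3_w.comp hP mP'
    exact this.congr (fun p hp => (lz_w i hp.2.1 (hne p hp)).2)
  have hw0 : ∀ p ∈ S, lzw i (toLC i 0 (colD p.1)) ≠ 0 := fun p hp => by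
    rw [(lz_w i hp.2.1 (hne p hp)).1]
    have := hA0 p hp
    positivity
  have hr : ContDiffOn ℝ ∞ (fun p : Dt × ℝ => p.1.1 ^ (1/2 : ℂ)) S :=
    kl3_root.comp f1 (fun p hp => hp.1)
  have hη : ContDiffOn ℝ ∞ (fun p : Dt × ℝ => 2 * (starRingEnd ℂ) (p.1.1 ^ (1/2 : ℂ)) *
      (pP i (colD p.1)).2) S := by
    refine (contDiffOn_const.mul ?_).mul (contDiff_snd.comp_contDiffOn hP)
    exact (Complex.conjCLE : ℂ →L[ℝ] ℂ).contDiff.comp_contDiffOn hr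
  have hcos : ContDiffOn ℝ ∞ (fun p : Dt × ℝ =>
      ((Real.cos (lzw i (toLC i 0 (colD p.1)) * p.2) : ℝ) : ℂ)) S :=
    Complex.ofRealCLM.contDiff.comp_contDiffOn (Real.contDiff_cos.comp_contDiffOn (hw.mul f2))
  have hsinR : ContDiffOn ℝ ∞ (fun p : Dt × ℝ =>
      Real.sin (lzw i (toLC i 0 (colD p.1)) * p.2)) S :=
    Real.contDiff_sin.comp_contDiffOn (hw.mul f2)
  have hζ : ContDiffOn ℝ ∞ (fun p : Dt × ℝ => lzζ i p.2 (toLC i 0 (colD p.1))) S := by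
    have e : ∀ p : Dt × ℝ, lzζ i p.2 (toLC i 0 (colD p.1)) =
        ((Real.cos (lzw i (toLC i 0 (colD p.1)) * p.2) : ℝ) : ℂ) * p.1.1 ^ (1/2 : ℂ) +
        ((Real.sin (lzw i (toLC i 0 (colD p.1)) * p.2) /
          (4 * lzw i (toLC i 0 (colD p.1))) : ℝ) : ℂ) *
          (2 * (starRingEnd ℂ) (p.1.1 ^ (1/2 : ℂ)) * (pP i (colD p.1)).2) := by
      intro p
      unfold lzζ
      rw [show (toLC i 0 (colD p.1)).1 = p.1.1 ^ (1/2 : ℂ) by rw [kl3_toLC],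
        show (toLC i 0 (colD p.1)).2.1 = 2 * (starRingEnd ℂ) (p.1.1 ^ (1/2 : ℂ)) *
          (pP i (colD p.1)).2 by rw [kl3_toLC]]
    refine ContDiffOn.congr (ContDiffOn.add (hcos.mul hr) (ContDiffOn.mul ?_ hη)) (fun p _ => e p)
    refine Complex.ofRealCLM.contDiff.comp_contDiffOn (hsinR.div (contDiffOn_const.mul hw) ?_)
    intro p hp
    have := hw0 p hp
    positivity
  have hη' : ContDiffOn ℝ ∞ (fun p : Dt × ℝ => lzη i p.2 (toLC i 0 (colD p.1))) S := by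
    have e : ∀ p : Dt × ℝ, lzη i p.2 (toLC i 0 (colD p.1)) =
        ((- 4 * lzw i (toLC i 0 (colD p.1)) *
          Real.sin (lzw i (toLC i 0 (colD p.1)) * p.2) : ℝ) : ℂ) * p.1.1 ^ (1/2 : ℂ) +
        ((Real.cos (lzw i (toLC i 0 (colD p.1)) * p.2) : ℝ) : ℂ) *
          (2 * (starRingEnd ℂ) (p.1.1 ^ (1/2 : ℂ)) * (pP i (colD p.1)).2) := by
      intro p
      unfold lzη
      rw [show (toLC i 0 (colD p.1)).1 = p.1.1 ^ (1/2 : ℂ) by rw [kl3_toLC],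
        show (toLC i 0 (colD p.1)).2.1 = 2 * (starRingEnd ℂ) (p.1.1 ^ (1/2 : ℂ)) *
          (pP i (colD p.1)).2 by rw [kl3_toLC]]
    refine ContDiffOn.congr (ContDiffOn.add (ContDiffOn.mul ?_ hr) (hcos.mul hη)) (fun p _ => e p)
    exact Complex.ofRealCLM.contDiff.comp_contDiffOn ((contDiffOn_const.mul hw).mul hsinR)
  have ht : ContDiffOn ℝ ∞ (fun p : Dt × ℝ => lzt i p.2 (toLC i 0 (colD p.1))) S := by
    have h1 : ContDiffOn ℝ ∞ (fun p : Dt × ℝ =>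
        kT (pP i (colD p.1)) (p.2 / Real.sqrt (kA (pP i (colD p.1))))) S := by
      have h2 : ContDiffOn ℝ ∞ (fun p : Dt × ℝ => ((pP i (colD p.1),
          p.2 / Real.sqrt (kA (pP i (colD p.1)))) : KS × ℝ)) S :=
        hP.prodMk (f2.div hA hA0)
      exact kl3_kT _ _ h2 (fun p hp => mP' hp)
    exact h1.congr (fun p hp => lz_time i hp.2.1 (hne p hp) p.2)
  have hk : ContDiffOn ℝ ∞ (fun p : Dt × ℝ => kep (lzt i p.2 (toLC i 0 (colD p.1)))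
      (pQ i (colD p.1))) S := by
    have h2 : ContDiffOn ℝ ∞ (fun p : Dt × ℝ => ((lzt i p.2 (toLC i 0 (colD p.1)),
        pQ i (colD p.1)) : ℝ × KS)) S := ht.prodMk hQ
    have h3 : MapsTo (fun p : Dt × ℝ => ((lzt i p.2 (toLC i 0 (colD p.1)),
        pQ i (colD p.1)) : ℝ × KS)) S {p : ℝ × KS | Ell p.2} := kl3_maps i _
    exact kl3_kep _ _ h2 h3
  have hH : ContDiffOn ℝ ∞ (fun p : Dt × ℝ => Ham 0 (colD p.1)) S :=
    kl3_ham.comp f1 (fun p hp => hp.1)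
  have e : ∀ p : Dt × ℝ, Zd i p.1 p.2 = (lzζ i p.2 (toLC i 0 (colD p.1)),
      lzη i p.2 (toLC i 0 (colD p.1)),
      (kep (lzt i p.2 (toLC i 0 (colD p.1))) (pQ i (colD p.1))).1,
      (kep (lzt i p.2 (toLC i 0 (colD p.1))) (pQ i (colD p.1))).2, Ham 0 (colD p.1)) := by
    intro p
    unfold Zd lz0
    rw [show (toLC i 0 (colD p.1)).2.2.1 = (pQ i (colD p.1)).1 by rw [kl3_toLC],
      show (toLC i 0 (colD p.1)).2.2.2.1 = (pQ i (colD p.1)).2 by rw [kl3_toLC],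
      show (toLC i 0 (colD p.1)).2.2.2.2 = Ham 0 (colD p.1) by rw [kl3_toLC]]
  refine ContDiffOn.congr ?_ (fun p _ => e p)
  exact hζ.prodMk (hη'.prodMk ((contDiff_fst.comp_contDiffOn hk).prodMk
    ((contDiff_snd.comp_contDiffOn hk).prodMk hH)))

end

end Pool.Agent.HS

namespace Pool.Agent.HS
open Set Filter Topology
open scoped ContDiff

theorem Zd_smooth (i : Fin 2) : ContDiffOn ℝ ∞ (fun p : Dt × ℝ => Zd i p.1 p.2) {p | p.1 ∈ Sm i} ∧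
    IsOpen (Sm i) :=
  @Pool.Agent.HS.Zd_smooth_pr i

end Pool.Agent.HS
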