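import Pool.Agent.Lib_helper60.HSF.D_WM

/-!
# Part S1, M1, block MA: states with fixed angular momentum and energy on the positive axis
-/

namespace Pool.Agent.HS

noncomputable section

open Set Filter Topology
open scoped ContDiff

theorem ma_kr {L v r : ℝ} (hr : 0 < r) : kr (kst L v r) = r := by
  simp [kr, kst, abs_of_pos hr]

theorem ma_kL {L v r : ℝ} (hr : 0 < r) : kL (kst L v r) = L := by
  simp only [kL, kst, Complex.conj_ofReal, Complex.mul_im, Complex.add_im, Complex.ofReal_im,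
    Complex.ofReal_re, Complex.I_im, Complex.I_re, mul_one, mul_zero, zero_add, add_zero,
    zero_mul]
  field_simp

theorem ma_kσ {L v r : ℝ} : kσ (kst L v r) = r * v := by
  simp [kσ, kst]

theorem ma_norm_sq {L v r : ℝ} : ‖(kst L v r).2‖ ^ 2 = v ^ 2 + (L / r) ^ 2 := by
  rw [← Complex.normSq_eq_norm_sq, Complex.normSq_apply]
  simp [kst]
  ring

theorem ma_kh {L v r h : ℝ} (hr : 0 < r) (hv : v ^ 2 = 2 * h + 2 / r - L ^ 2 / r ^ 2) :
    kh' (kst L v r) = h := by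
  have e1 : ‖(kst L v r).1‖ = r := ma_kr hr
  unfold kh'
  rw [ma_norm_sq, e1, hv]
  field_simp
  ring

theorem kst_facts_pr {L v r h : ℝ} (hr : 0 < r) (hv : v ^ 2 = 2 * h + 2 / r - L ^ 2 / r ^ 2) :
    kh' (kst L v r) = h ∧ kL (kst L v r) = L ∧ kr (kst L v r) = r ∧ kσ (kst L v r) = r * v ∧
    (kst L v r).1 ≠ 0 :=
  ⟨ma_kh hr hv, ma_kL hr, ma_kr hr, ma_kσ, by
    show ((r : ℝ) : ℂ) ≠ 0
    exact_mod_cast hr.ne'⟩

/-- explicit form of the time -/
def ma_T (_L a r v s : ℝ) : ℝ :=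
  a * (a ^ 2 * s + (r - a ^ 2) * Real.sin s + a * (r * v) * (1 - Real.cos s))

/-- explicit form of the position -/
def ma_X1 (_L a r v s : ℝ) : ℝ :=
  r - a ^ 2 * (1 - Real.cos s) + (a * r * Real.sin s + a ^ 2 * (r * v) * (1 - Real.cos s)) * v
def ma_X2 (L a _r v s : ℝ) : ℝ :=
  (a * Real.sin s + a ^ 2 * v * (1 - Real.cos s)) * L

theorem ma_kA {L v r h : ℝ} (hr : 0 < r) (hh : h < 0)
    (hv : v ^ 2 = 2 * h + 2 / r - L ^ 2 / r ^ 2) :
    kA (kst L v r) = Real.sqrt (-1 / (2 * h)) ^ 2 ∧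
    Real.sqrt (kA (kst L v r)) = Real.sqrt (-1 / (2 * h)) := by
  have h1 : kA (kst L v r) = -1 / (2 * h) := by unfold kA; rw [ma_kh hr hv]
  have h2 : (0:ℝ) ≤ -1 / (2 * h) := by
    apply div_nonneg_of_nonpos <;> linarith
  rw [h1, Real.sq_sqrt h2]
  exact ⟨rfl, rfl⟩

theorem ma_kT_eq {L v r h : ℝ} (hr : 0 < r) (hh : h < 0)
    (hv : v ^ 2 = 2 * h + 2 / r - L ^ 2 / r ^ 2) (s : ℝ) :
    kT (kst L v r) s = ma_T L (Real.sqrt (-1 / (2 * h))) r v s := by
  obtain ⟨h1, h2⟩ := ma_kA hr hh hv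
  unfold kT ma_T
  rw [h2, h1, ma_kr hr, ma_kσ]

theorem ma_kX_eq {L v r h : ℝ} (hr : 0 < r) (hh : h < 0)
    (hv : v ^ 2 = 2 * h + 2 / r - L ^ 2 / r ^ 2) (s : ℝ) :
    kX (kst L v r) s = ((ma_X1 L (Real.sqrt (-1 / (2 * h))) r v s : ℝ) : ℂ) +
      ((ma_X2 L (Real.sqrt (-1 / (2 * h))) r v s : ℝ) : ℂ) * Complex.I := by
  obtain ⟨h1, h2⟩ := ma_kA hr hh hv
  unfold kX ma_X1 ma_X2
  rw [h2, h1, ma_kr hr, ma_kσ]
  simp only [kst]
  have hrc : (r : ℂ) ≠ 0 := by exact_mod_cast hr.ne'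
  push_cast
  field_simp
  ring

theorem ma_kR_eq {L v r h : ℝ} (hr : 0 < r) (hh : h < 0)
    (hv : v ^ 2 = 2 * h + 2 / r - L ^ 2 / r ^ 2) (s : ℝ) :
    kR (kst L v r) s = Real.sqrt (-1 / (2 * h)) ^ 2 + (r - Real.sqrt (-1 / (2 * h)) ^ 2) *
      Real.cos s + Real.sqrt (-1 / (2 * h)) * (r * v) * Real.sin s := by
  obtain ⟨h1, h2⟩ := ma_kA hr hh hv
  unfold kR
  rw [h2, h1, ma_kr hr, ma_kσ]

theorem ma_kV_eq {L v r h : ℝ} (hr : 0 < r) (hh : h < 0)
    (hv : v ^ 2 = 2 * h + 2 / r - L ^ 2 / r ^ 2) (s : ℝ) :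
    kV (kst L v r) s = (((Real.sqrt (-1 / (2 * h)) * kR (kst L v r) s)⁻¹ : ℝ) : ℂ) *
      ((((-(Real.sqrt (-1 / (2 * h)) ^ 2 * Real.sin s) +
        (Real.sqrt (-1 / (2 * h)) * r * Real.cos s +
          Real.sqrt (-1 / (2 * h)) ^ 2 * (r * v) * Real.sin s) * v : ℝ)) : ℂ) +
      (((Real.sqrt (-1 / (2 * h)) * Real.cos s +
          Real.sqrt (-1 / (2 * h)) ^ 2 * v * Real.sin s) * L : ℝ) : ℂ) * Complex.I) := by
  obtain ⟨h1, h2⟩ := ma_kA hr hh hv
  unfold kV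
  rw [h2, h1, ma_kr hr, ma_kσ]
  congr 1
  simp only [kst]
  have hrc : (r : ℂ) ≠ 0 := by exact_mod_cast hr.ne'
  push_cast
  field_simp
  ring

/-- the energy relation with `a ^ 2 = A` -/
theorem ma_rel {L v r h : ℝ} (hr : 0 < r) (hh : h < 0)
    (hv : v ^ 2 = 2 * h + 2 / r - L ^ 2 / r ^ 2) :
    Real.sqrt (-1 / (2 * h)) ^ 2 * r ^ 2 * v ^ 2 =
      -r ^ 2 + 2 * Real.sqrt (-1 / (2 * h)) ^ 2 * r - Real.sqrt (-1 / (2 * h)) ^ 2 * L ^ 2 := by
  have h2 : (0:ℝ) ≤ -1 / (2 * h) := by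
    apply div_nonneg_of_nonpos <;> linarith
  rw [Real.sq_sqrt h2, hv]
  have := hh.ne
  field_simp
  ring

theorem ma_T_deriv {L a r0 v' s' : ℝ} {v s : ℝ → ℝ}
    (hvd : HasDerivAt v v' r0) (hs : HasDerivAt s s' r0) :
    HasDerivAt (fun r => ma_T L a r (v r) (s r))
      (a * (a ^ 2 * s' + (Real.sin (s r0) + (r0 - a ^ 2) * (Real.cos (s r0) * s')) +
        (a * (v r0 + r0 * v') * (1 - Real.cos (s r0)) +
          a * (r0 * v r0) * (Real.sin (s r0) * s')))) r0 := by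
  have hid := hasDerivAt_id r0
  have hsin := hs.sin
  have hcos := hs.cos
  have h1 := ((hs.const_mul (a ^ 2)).add ((hid.sub_const (a ^ 2)).mul hsin)).add
    (((hid.mul hvd).const_mul a).mul (hcos.const_sub 1))
  have h2 := h1.const_mul a
  refine (h2.congr_deriv ?_).congr_of_eventuallyEq ?_
  · simp only [id, Pi.mul_apply]
    ring
  · filter_upwards with r
    simp only [ma_T, id, Pi.mul_apply, Pi.add_apply]

theorem ma_X1_deriv {L a r0 v' s' : ℝ} {v s : ℝ → ℝ}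
    (hvd : HasDerivAt v v' r0) (hs : HasDerivAt s s' r0) :
    HasDerivAt (fun r => ma_X1 L a r (v r) (s r))
      (1 - a ^ 2 * (Real.sin (s r0) * s') +
        (a * (Real.sin (s r0) + r0 * (Real.cos (s r0) * s')) +
          a ^ 2 * ((v r0 + r0 * v') * (1 - Real.cos (s r0)) +
            r0 * v r0 * (Real.sin (s r0) * s'))) * v r0 +
        (a * r0 * Real.sin (s r0) + a ^ 2 * (r0 * v r0) * (1 - Real.cos (s r0))) * v') r0 := by
  have hid := hasDerivAt_id r0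
  have hsin := hs.sin
  have hcos := hs.cos
  have h1 := (hid.sub ((hcos.const_sub 1).const_mul (a ^ 2))).add
    ((((hid.const_mul a).mul hsin).add
      (((hid.mul hvd).const_mul (a ^ 2)).mul (hcos.const_sub 1))).mul hvd)
  refine (h1.congr_deriv ?_).congr_of_eventuallyEq ?_
  · simp only [id, Pi.mul_apply, Pi.add_apply]
    ring
  · filter_upwards with r
    simp only [ma_X1, id, Pi.mul_apply, Pi.add_apply, Pi.sub_apply]

theorem ma_X2_deriv {L a r0 v' s' : ℝ} {v s : ℝ → ℝ}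
    (hvd : HasDerivAt v v' r0) (hs : HasDerivAt s s' r0) :
    HasDerivAt (fun r => ma_X2 L a r (v r) (s r))
      ((a * (Real.cos (s r0) * s') + a ^ 2 * (v' * (1 - Real.cos (s r0)) +
        v r0 * (Real.sin (s r0) * s'))) * L) r0 := by
  have hsin := hs.sin
  have hcos := hs.cos
  have h1 := ((hsin.const_mul a).add ((hvd.const_mul (a ^ 2)).mul
    (hcos.const_sub 1))).mul_const L
  refine (h1.congr_deriv ?_).congr_of_eventuallyEq ?_
  · ring
  · filter_upwards with r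
    simp only [ma_X2, Pi.mul_apply, Pi.add_apply]

/-- derivatives in `r` at fixed `L`, `h` -/
theorem kfam_pr {L h r0 v' s' : ℝ} {v s : ℝ → ℝ} (hr : 0 < r0) (hh : h < 0)
    (hv : ∀ᶠ r in 𝓝 r0, v r ^ 2 = 2 * h + 2 / r - L ^ 2 / r ^ 2) (hv0 : v r0 ≠ 0)
    (hvd : HasDerivAt v v' r0) (hs : HasDerivAt s s' r0)
    (hR : kR (kst L (v r0) r0) (s r0) ≠ 0) (T' : ℝ)
    (hT' : T' = (kR (kst L (v r0) r0) (s r0) - r0) / (r0 * v r0) +
      Real.sqrt (kA (kst L (v r0) r0)) * kR (kst L (v r0) r0) (s r0) * s') :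
    HasDerivAt (fun r => kT (kst L (v r) r) (s r)) T' r0 ∧
    HasDerivAt (fun r => kX (kst L (v r) r) (s r))
      (-(Complex.I * ((L / (r0 ^ 2 * v r0) : ℝ) : ℂ)) * kX (kst L (v r0) r0) (s r0) +
        ((T' + 1 / v r0 : ℝ) : ℂ) * kV (kst L (v r0) r0) (s r0)) r0 := by
  have hvv := hv.self_of_nhds
  -- the derivative of `v`
  have hv'' : v' * (r0 ^ 3 * v r0) = L ^ 2 - r0 := by
    have h1 : HasDerivAt (fun r => v r ^ 2) (2 * v r0 * v') r0 := by
      have := hvd.pow 2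
      refine this.congr_deriv ?_
      norm_num
    have h2 : HasDerivAt (fun r : ℝ => 2 * h + 2 / r - L ^ 2 / r ^ 2)
        (-2 / r0 ^ 2 + 2 * L ^ 2 / r0 ^ 3) r0 := by
      have e1 : HasDerivAt (fun r : ℝ => 2 / r) (-2 / r0 ^ 2) r0 := by
        have := (hasDerivAt_const r0 (2:ℝ)).div (hasDerivAt_id r0) hr.ne'
        refine this.congr_deriv ?_
        simp
      have e2 : HasDerivAt (fun r : ℝ => L ^ 2 / r ^ 2) (-(2 * L ^ 2) / r0 ^ 3) r0 := by
        have := (hasDerivAt_const r0 (L ^ 2)).div ((hasDerivAt_id r0).pow 2)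
          (pow_ne_zero 2 hr.ne')
        refine this.congr_deriv ?_
        simp only [id, Pi.pow_apply]
        field_simp
        ring
      have := ((e1.const_add (2 * h))).sub e2
      refine this.congr_deriv ?_
      ring
    have h3 := h1.unique (h2.congr_of_eventuallyEq hv)
    have h4 : 2 * v r0 * v' * r0 ^ 3 = (-2 / r0 ^ 2 + 2 * L ^ 2 / r0 ^ 3) * r0 ^ 3 := by rw [h3]
    have h5 : (-2 / r0 ^ 2 + 2 * L ^ 2 / r0 ^ 3) * r0 ^ 3 = 2 * (L ^ 2 - r0) := by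
      field_simp
      ring
    linarith
  have hv' : v' = (L ^ 2 - r0) / (r0 ^ 3 * v r0) := by
    rw [eq_div_iff (mul_ne_zero (pow_ne_zero 3 hr.ne') hv0)]
    exact hv''
  have hev : ∀ᶠ r in 𝓝 r0, 0 < r ∧ v r ^ 2 = 2 * h + 2 / r - L ^ 2 / r ^ 2 :=
    (eventually_gt_nhds hr).and hv
  have hrel := ma_rel hr hh hvv
  have hRe := ma_kR_eq hr hh hvv (s r0)
  have hVe := ma_kV_eq hr hh hvv (s r0)
  have hXe := ma_kX_eq hr hh hvv (s r0)
  have ha : Real.sqrt (-1 / (2 * h)) ≠ 0 := by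
    apply ne_of_gt
    apply Real.sqrt_pos.2
    apply div_pos_of_neg_of_neg <;> linarith
  have hAe := (ma_kA hr hh hvv).2
  have hT1 := fun r (hr' : 0 < r ∧ v r ^ 2 = 2 * h + 2 / r - L ^ 2 / r ^ 2) =>
    ma_kT_eq hr'.1 hh hr'.2 (s r)
  have hX1 := fun r (hr' : 0 < r ∧ v r ^ 2 = 2 * h + 2 / r - L ^ 2 / r ^ 2) =>
    ma_kX_eq hr'.1 hh hr'.2 (s r)
  rw [hAe] at hT'
  set a := Real.sqrt (-1 / (2 * h)) with hadef
  set R := kR (kst L (v r0) r0) (s r0) with hRdef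
  set n := Real.sin (s r0) with hn
  set c := Real.cos (s r0) with hc
  set w := v r0 with hw
  constructor
  · have h1 := ma_T_deriv (L := L) (a := a) hvd hs
    refine (h1.congr_deriv ?_).congr_of_eventuallyEq ?_
    · rw [hT', hRe, hv', ← hn, ← hc, ← hw]
      field_simp
      linear_combination (1 - c) * hrel
    · filter_upwards [hev] with r hr'
      exact hT1 r hr'
  · have h1 := (ma_X1_deriv (L := L) (a := a) hvd hs).ofReal_comp
    have h2 := ((ma_X2_deriv (L := L) (a := a) hvd hs).ofReal_comp).mul_const Complex.I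
    have h3 := h1.add h2
    refine (h3.congr_deriv ?_).congr_of_eventuallyEq ?_
    · rw [hVe, hXe]
      have hT2 : T' + 1 / w = R / (r0 * w) + a * R * s' := by
        rw [hT']; field_simp; ring
      rw [hT2]
      have hRR : (R / (r0 * w) + a * R * s') * (a * R)⁻¹ = 1 / (a * r0 * w) + s' := by
        field_simp
      have hRC : ((R / (r0 * w) + a * R * s' : ℝ) : ℂ) * (((a * R)⁻¹ : ℝ) : ℂ) =
          ((1 / (a * r0 * w) + s' : ℝ) : ℂ) := by rw [← Complex.ofReal_mul, hRR]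
      rw [← mul_assoc ((R / (r0 * w) + a * R * s' : ℝ) : ℂ), hRC]
      apply Complex.ext
      · simp only [Complex.add_re, Complex.mul_re, Complex.ofReal_re, Complex.ofReal_im,
          Complex.I_re, Complex.I_im, Complex.neg_re, Complex.neg_im, Complex.mul_im,
          Complex.add_im, mul_zero, zero_mul, sub_zero, add_zero, zero_add, mul_one, one_mul,
          neg_zero, zero_sub, sub_self]
        unfold ma_X2
        rw [hv', ← hn, ← hc, ← hw]
        field_simp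
        linear_combination (w * (1 - c)) * hrel
      · simp only [Complex.add_re, Complex.mul_re, Complex.ofReal_re, Complex.ofReal_im,
          Complex.I_re, Complex.I_im, Complex.neg_re, Complex.neg_im, Complex.mul_im,
          Complex.add_im, mul_zero, zero_mul, sub_zero, add_zero, zero_add, mul_one, one_mul,
          neg_zero, zero_sub, sub_self]
        unfold ma_X1
        rw [hv', ← hn, ← hc, ← hw]
        field_simp
        linear_combination (L * (1 - c)) * hrel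
    · filter_upwards [hev] with r hr'
      exact hX1 r hr'

end

end Pool.Agent.HS

namespace Pool.Agent.HS
open Set Filter Topology
open scoped ContDiff

theorem kst_facts {L v r h : ℝ} (hr : 0 < r) (hv : v ^ 2 = 2 * h + 2 / r - L ^ 2 / r ^ 2) :
    kh' (kst L v r) = h ∧ kL (kst L v r) = L ∧ kr (kst L v r) = r ∧ kσ (kst L v r) = r * v ∧
    (kst L v r).1 ≠ 0 :=
  @Pool.Agent.HS.kst_facts_pr L v r h hr hv

end Pool.Agent.HS

namespace Pool.Agent.HS
open Set Filter Topology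
open scoped ContDiff

theorem kfam {L h r0 v' s' : ℝ} {v s : ℝ → ℝ} (hr : 0 < r0) (hh : h < 0)
    (hv : ∀ᶠ r in 𝓝 r0, v r ^ 2 = 2 * h + 2 / r - L ^ 2 / r ^ 2) (hv0 : v r0 ≠ 0)
    (hvd : HasDerivAt v v' r0) (hs : HasDerivAt s s' r0)
    (hR : kR (kst L (v r0) r0) (s r0) ≠ 0) (T' : ℝ)
    (hT' : T' = (kR (kst L (v r0) r0) (s r0) - r0) / (r0 * v r0) +
      Real.sqrt (kA (kst L (v r0) r0)) * kR (kst L (v r0) r0) (s r0) * s') :
    HasDerivAt (fun r => kT (kst L (v r) r) (s r)) T' r0 ∧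
    HasDerivAt (fun r => kX (kst L (v r) r) (s r))
      (-(Complex.I * ((L / (r0 ^ 2 * v r0) : ℝ) : ℂ)) * kX (kst L (v r0) r0) (s r0) +
        ((T' + 1 / v r0 : ℝ) : ℂ) * kV (kst L (v r0) r0) (s r0)) r0 :=
  @Pool.Agent.HS.kfam_pr L h r0 v' s' v s hr hh hv hv0 hvd hs hR T' hT'

end Pool.Agent.HS
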