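import Pool.Agent.Lib_helper60.HSF.D_WM
import Pool.Agent.Lib_helper60.HSF.K_KA1

/-!
# HSM block MB1: rectilinear orbits in the eccentric anomaly (helper1)
-/

namespace Pool.Agent.HS

noncomputable section

open Set Filter Topology
open scoped ContDiff

theorem mb1_kr {w r : ℝ} (hr : 0 < r) : kr (kst 0 w r) = r := by
  simp [kr, kst, abs_of_pos hr]

theorem mb1_snd (w r : ℝ) : (kst 0 w r).2 = ((w : ℝ) : ℂ) := by
  simp [kst]

theorem mb1_fst (w r : ℝ) : (kst 0 w r).1 = ((r : ℝ) : ℂ) := by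
  simp [kst]

theorem mb1_kσ (w r : ℝ) : kσ (kst 0 w r) = r * w := by
  rw [kσ, mb1_fst, mb1_snd, Complex.conj_ofReal, ← Complex.ofReal_mul, Complex.ofReal_re]

theorem mb1_wsq {w r : ℝ} (hr : 0 < r) (hh : kh' (kst 0 w r) < 0) :
    w ^ 2 = 2 / r - 1 / kA (kst 0 w r) := by
  have h := norm_v_sq hh
  rw [mb1_kr hr, mb1_snd] at h
  rw [← h]
  simp

theorem mb1_angle {x y : ℝ} (h : x ^ 2 + y ^ 2 = 1) : ∃ E : ℝ, Real.cos E = x ∧ Real.sin E = y := by
  have hn : ‖(⟨x, y⟩ : ℂ)‖ = 1 := by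
    have h2 : ‖(⟨x, y⟩ : ℂ)‖ ^ 2 = 1 := by
      rw [← Complex.normSq_eq_norm_sq, Complex.normSq_mk]
      nlinarith
    have h3 : 0 ≤ ‖(⟨x, y⟩ : ℂ)‖ := norm_nonneg _
    nlinarith
  refine ⟨Complex.arg ⟨x, y⟩, ?_, ?_⟩
  · have hne : (⟨x, y⟩ : ℂ) ≠ 0 := by
      intro h0
      rw [h0] at hn
      simp at hn
    rw [Complex.cos_arg hne, hn]
    simp
  · rw [Complex.sin_arg, hn]
    simp

/-- a rectilinear orbit in the eccentric anomaly -/
theorem kn_form_pr {w r : ℝ} (hr : 0 < r) (hh : kh' (kst 0 w r) < 0) : ∃ E : ℝ,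
    r = kA (kst 0 w r) * (1 - Real.cos E) ∧
    Real.sqrt (kA (kst 0 w r)) * w * r = kA (kst 0 w r) * Real.sin E ∧
    ∀ s, kR (kst 0 w r) s = kA (kst 0 w r) * (1 - Real.cos (E + s)) ∧
      kX (kst 0 w r) s = ((kR (kst 0 w r) s : ℝ) : ℂ) ∧
      kT (kst 0 w r) s = kA (kst 0 w r) * Real.sqrt (kA (kst 0 w r)) *
        (s - (Real.sin (E + s) - Real.sin E)) ∧
      (kR (kst 0 w r) s ≠ 0 →
        kV (kst 0 w r) s =
          ((Real.sqrt (kA (kst 0 w r)) * Real.sin (E + s) / kR (kst 0 w r) s : ℝ) : ℂ) ∧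
        (Real.sqrt (kA (kst 0 w r)) * Real.sin (E + s) / kR (kst 0 w r) s) ^ 2 =
          2 * kh' (kst 0 w r) + 2 / kR (kst 0 w r) s) := by
  have hA := kA_pos hh
  have hw := mb1_wsq hr hh
  have hkr := mb1_kr (w := w) hr
  have hkσ := mb1_kσ w r
  have hf := mb1_fst w r
  have hs := mb1_snd w r
  have hAdef : kh' (kst 0 w r) = -1 / (2 * kA (kst 0 w r)) := by
    unfold kA
    have : kh' (kst 0 w r) ≠ 0 := hh.ne
    field_simp
  set y := kst 0 w r with hy
  clear_value y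
  set A := kA y with hAd
  clear_value A
  set a := Real.sqrt A with had
  have ha : 0 < a := Real.sqrt_pos.2 hA
  have haa : a ^ 2 = A := Real.sq_sqrt hA.le
  clear_value a
  have hArw : A * r * w ^ 2 = 2 * A - r := by
    rw [hw]
    field_simp
  obtain ⟨E, hc, hsn⟩ := mb1_angle (x := 1 - r / A) (y := a * w * r / A) (by
    have h1 : (a * w * r / A) ^ 2 = a ^ 2 * (r * (r * w ^ 2)) / A ^ 2 := by ring
    have h2 : r * w ^ 2 = (2 * A - r) / A := by
      rw [eq_div_iff hA.ne']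
      linarith
    rw [h1, h2, haa]
    field_simp
    ring)
  have hr1 : r = A * (1 - Real.cos E) := by
    rw [hc]
    field_simp
    ring
  have hr2 : a * w * r = A * Real.sin E := by
    rw [hsn]
    field_simp
  refine ⟨E, hr1, hr2, ?_⟩
  intro s
  have hR : kR y s = A * (1 - Real.cos (E + s)) := by
    rw [kR, hkr, hkσ, ← hAd, ← had, Real.cos_add]
    have e1 : r - A = - (A * Real.cos E) := by linarith
    have e2 : a * (r * w) = A * Real.sin E := by linarith
    rw [e1, e2]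
    ring
  have hX : kX y s = ((kR y s : ℝ) : ℂ) := by
    rw [kX, hkr, hkσ, ← hAd, ← had, hf, hs, ← Complex.ofReal_mul, ← Complex.ofReal_mul,
      ← Complex.ofReal_add]
    congr 1
    rw [kR, hkr, hkσ, ← hAd, ← had]
    have e1 : (1 - A / r * (1 - Real.cos s)) * r = r - A * (1 - Real.cos s) := by
      field_simp
    rw [e1]
    have e2 : (a * r * Real.sin s + A * (r * w) * (1 - Real.cos s)) * w =
        a * (r * w) * Real.sin s + (A * r * w ^ 2) * (1 - Real.cos s) := by ring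
    rw [e2, hArw]
    ring
  have hT : kT y s = A * a * (s - (Real.sin (E + s) - Real.sin E)) := by
    rw [kT, hkr, hkσ, ← hAd, ← had, Real.sin_add]
    have e1 : r - A = - (A * Real.cos E) := by linarith
    have e2 : a * (r * w) = A * Real.sin E := by linarith
    rw [e1, e2]
    ring
  refine ⟨hR, hX, hT, ?_⟩
  intro hR0
  have hV : kV y s = ((a * Real.sin (E + s) / kR y s : ℝ) : ℂ) := by
    rw [kV, hkr, hkσ, ← hAd, ← had, hf, hs, ← Complex.ofReal_mul, ← Complex.ofReal_mul,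
      ← Complex.ofReal_add, ← Complex.ofReal_mul]
    congr 1
    have e1 : -(A / r) * Real.sin s * r = - (A * Real.sin s) := by
      field_simp
    have e2 : (a * r * Real.cos s + A * (r * w) * Real.sin s) * w =
        (a * w * r) * Real.cos s + (A * r * w ^ 2) * Real.sin s := by ring
    rw [e1, e2, hArw, hr2]
    have e3 : -(A * Real.sin s) + (A * Real.sin E * Real.cos s + (2 * A - r) * Real.sin s) =
        A * Real.sin (E + s) := by
      rw [Real.sin_add]
      have e4 : A - r = A * Real.cos E := by linarith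
      linear_combination Real.sin s * e4
    rw [e3]
    rw [← haa]
    field_simp
  refine ⟨hV, ?_⟩
  rw [hAdef]
  have hp : Real.sin (E + s) ^ 2 = 1 - Real.cos (E + s) ^ 2 := by
    have := Real.sin_sq_add_cos_sq (E + s)
    linarith
  rw [div_pow, mul_pow, haa, hp]
  have hR' : A * Real.cos (E + s) = A - kR y s := by
    rw [hR]
    ring
  have hA0 : A ≠ 0 := hA.ne'
  have hcs : Real.cos (E + s) = (A - kR y s) / A := by
    rw [eq_div_iff hA0]
    linarith
  rw [hcs]
  field_simp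
  ring

end

end Pool.Agent.HS

namespace Pool.Agent.HS
open Set Filter Topology
open scoped ContDiff

theorem kn_form {w r : ℝ} (hr : 0 < r) (hh : kh' (kst 0 w r) < 0) : ∃ E : ℝ,
    r = kA (kst 0 w r) * (1 - Real.cos E) ∧
    Real.sqrt (kA (kst 0 w r)) * w * r = kA (kst 0 w r) * Real.sin E ∧
    ∀ s, kR (kst 0 w r) s = kA (kst 0 w r) * (1 - Real.cos (E + s)) ∧
      kX (kst 0 w r) s = ((kR (kst 0 w r) s : ℝ) : ℂ) ∧
      kT (kst 0 w r) s = kA (kst 0 w r) * Real.sqrt (kA (kst 0 w r)) *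
        (s - (Real.sin (E + s) - Real.sin E)) ∧
      (kR (kst 0 w r) s ≠ 0 →
        kV (kst 0 w r) s =
          ((Real.sqrt (kA (kst 0 w r)) * Real.sin (E + s) / kR (kst 0 w r) s : ℝ) : ℂ) ∧
        (Real.sqrt (kA (kst 0 w r)) * Real.sin (E + s) / kR (kst 0 w r) s) ^ 2 =
          2 * kh' (kst 0 w r) + 2 / kR (kst 0 w r) s) :=
  @Pool.Agent.HS.kn_form_pr w r hr hh

end Pool.Agent.HS
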