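import Pool.Agent.Lib_helper60.HSF.D_WM
import Pool.Agent.Lib_helper60.HSF.K_KA1
import Pool.Agent.Lib_helper60.HSF.M_MB1

/-!
# HSM block MB2: needles, hitting and return (helper1)
-/

namespace Pool.Agent.HS

noncomputable section

open Set Filter Topology
open scoped ContDiff

/-- every distance below the apocentre is reached, with both signs of the velocity -/
theorem kn_hit_pr {w r : ℝ} (hr : 0 < r) (hh : kh' (kst 0 w r) < 0) {ρ : ℝ} (hρ : 0 < ρ)
    (hρ2 : ρ < 2 * kA (kst 0 w r)) {ς : ℝ} (hς : ς = 1 ∨ ς = -1) :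
    ∃ s, kR (kst 0 w r) s = ρ ∧ kX (kst 0 w r) s = (ρ : ℂ) ∧
      kV (kst 0 w r) s = ((ς * Real.sqrt (2 * kh' (kst 0 w r) + 2 / ρ) : ℝ) : ℂ) := by
  obtain ⟨E, -, -, hE⟩ := kn_form hr hh
  have hA := kA_pos hh
  set y := kst 0 w r with hy
  clear_value y
  set A := kA y with hAd
  clear_value A
  obtain ⟨hR, hX, -, hV⟩ := hE (ς * Real.arccos (1 - ρ / A) - E)
  have hAr : Real.cos (Real.arccos (1 - ρ / A)) = 1 - ρ / A := by
    apply Real.cos_arccos
    · have : ρ / A < 2 := by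
        rw [div_lt_iff₀ hA]
        linarith
      linarith
    · have : 0 < ρ / A := div_pos hρ hA
      linarith
  have hcos : Real.cos (ς * Real.arccos (1 - ρ / A)) = 1 - ρ / A := by
    rcases hς with h | h
    · rw [h, one_mul, hAr]
    · rw [h, neg_one_mul, Real.cos_neg, hAr]
  have hadd : E + (ς * Real.arccos (1 - ρ / A) - E) = ς * Real.arccos (1 - ρ / A) := by ring
  rw [hadd, hcos] at hR
  have hRρ : kR y (ς * Real.arccos (1 - ρ / A) - E) = ρ := by
    rw [hR]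
    field_simp
    ring
  refine ⟨ς * Real.arccos (1 - ρ / A) - E, hRρ, by rw [hX, hRρ], ?_⟩
  obtain ⟨hV1, hV2⟩ := hV (by rw [hRρ]; exact hρ.ne')
  rw [hadd, hRρ] at hV1 hV2
  rw [hV1]
  congr 1
  have hsin0 : 0 ≤ Real.sin (Real.arccos (1 - ρ / A)) :=
    Real.sin_nonneg_of_nonneg_of_le_pi (Real.arccos_nonneg _) (Real.arccos_le_pi _)
  have ha : 0 ≤ Real.sqrt A := Real.sqrt_nonneg _
  rw [← hV2]
  rcases hς with h | h
  · subst h
    rw [one_mul, one_mul, Real.sqrt_sq (by positivity)]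
  · subst h
    rw [neg_one_mul, neg_one_mul, Real.sin_neg, mul_neg, neg_div, neg_sq,
      Real.sqrt_sq (by positivity)]

/-- the needle comes back to the starting point once in a period -/
theorem kn_return_pr {w r : ℝ} (hr : 0 < r) (hw : w ≠ 0) (hh : kh' (kst 0 w r) < 0) :
    ∃ sB, kR (kst 0 w r) sB = r ∧ kX (kst 0 w r) sB = (r : ℂ) ∧
      kV (kst 0 w r) sB = ((-w : ℝ) : ℂ) ∧
      ∀ s, kX (kst 0 w r) s = (r : ℂ) →
        (∃ n : ℤ, s = 2 * Real.pi * n) ∨ ∃ n : ℤ, s = sB + 2 * Real.pi * n := by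
  obtain ⟨E, hr1, hr2, hE⟩ := kn_form hr hh
  have hA := kA_pos hh
  set y := kst 0 w r with hy
  clear_value y
  set A := kA y with hAd
  clear_value A
  obtain ⟨hR, hX, -, hV⟩ := hE (-2 * E)
  have hadd : E + -2 * E = -E := by ring
  rw [hadd, Real.cos_neg, ← hr1] at hR
  refine ⟨-2 * E, hR, by rw [hX, hR], ?_, ?_⟩
  · obtain ⟨hV1, -⟩ := hV (by rw [hR]; exact hr.ne')
    rw [hV1, hadd, hR, Real.sin_neg]
    congr 1
    have ha : 0 < Real.sqrt A := Real.sqrt_pos.2 hA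
    have haa : Real.sqrt A * Real.sqrt A = A := Real.mul_self_sqrt hA.le
    have h1 : Real.sqrt A * Real.sin E = w * r := by
      have h2 : Real.sqrt A * (Real.sqrt A * Real.sin E) = Real.sqrt A * (w * r) := by
        rw [← mul_assoc, haa, ← hr2]
        ring
      exact mul_left_cancel₀ ha.ne' h2
    rw [mul_neg, neg_div, h1, mul_div_assoc, div_self hr.ne', mul_one]
  · intro s hs
    obtain ⟨hRs, hXs, -, -⟩ := hE s
    have h1 : kR y s = r := by
      rw [hXs] at hs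
      exact_mod_cast hs
    rw [hRs] at h1
    have h2 : Real.cos (E + s) = Real.cos E := by
      have h3 : A * (1 - Real.cos (E + s)) = A * (1 - Real.cos E) := by rw [h1, ← hr1]
      have h4 := mul_left_cancel₀ hA.ne' h3
      linarith
    rw [Real.cos_eq_cos_iff] at h2
    obtain ⟨k, hk | hk⟩ := h2
    · left
      refine ⟨-k, ?_⟩
      push_cast
      linarith
    · right
      refine ⟨k, ?_⟩
      linarith

end

end Pool.Agent.HS

namespace Pool.Agent.HS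
open Set Filter Topology
open scoped ContDiff

theorem kn_hit {w r : ℝ} (hr : 0 < r) (hh : kh' (kst 0 w r) < 0) {ρ : ℝ} (hρ : 0 < ρ)
    (hρ2 : ρ < 2 * kA (kst 0 w r)) {ς : ℝ} (hς : ς = 1 ∨ ς = -1) :
    ∃ s, kR (kst 0 w r) s = ρ ∧ kX (kst 0 w r) s = (ρ : ℂ) ∧
      kV (kst 0 w r) s = ((ς * Real.sqrt (2 * kh' (kst 0 w r) + 2 / ρ) : ℝ) : ℂ) :=
  @Pool.Agent.HS.kn_hit_pr w r hr hh ρ hρ hρ2 ς hς

end Pool.Agent.HS

namespace Pool.Agent.HS
open Set Filter Topology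
open scoped ContDiff

theorem kn_return {w r : ℝ} (hr : 0 < r) (hw : w ≠ 0) (hh : kh' (kst 0 w r) < 0) :
    ∃ sB, kR (kst 0 w r) sB = r ∧ kX (kst 0 w r) sB = (r : ℂ) ∧
      kV (kst 0 w r) sB = ((-w : ℝ) : ℂ) ∧
      ∀ s, kX (kst 0 w r) s = (r : ℂ) →
        (∃ n : ℤ, s = 2 * Real.pi * n) ∨ ∃ n : ℤ, s = sB + 2 * Real.pi * n :=
  @Pool.Agent.HS.kn_return_pr w r hr hw hh

end Pool.Agent.HS
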