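import Pool.Agent.Lib_helper60.HSF.D_WM
import Pool.Agent.Lib_helper60.HSF.K_KA1
import Pool.Agent.Lib_helper60.HSF.M_MB1
import Pool.Agent.Lib_helper60.HSF.M_MA
import Pool.Agent.Lib_helper60.HSF.K_KA2

/-!
# Part S1, M1, block MC: derivative of the times at a crossing along the needle curve
-/

namespace Pool.Agent.HS

noncomputable section

open Set Filter Topology
open scoped ContDiff

/-- the algebra of a crossing: comparison of imaginary and real parts -/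
theorem mc_alg {TP TQ V X RQ σ L r v c : ℝ} {y xQ VQ : ℂ} (hr : 0 < r) (hv : v ≠ 0) (hL : L ≠ 0)
    (hX : X ≠ 0) (hV : V ≠ 0) (hRQ : RQ ≠ 0)
    (hxP : (X : ℂ) = y * xQ) (hn : ‖xQ‖ = RQ)
    (hc : (starRingEnd ℂ) xQ * VQ = (σ : ℂ) + (L : ℂ) * Complex.I) (hcc : c = L / (r ^ 2 * v))
    (heq : (TP : ℂ) * (V : ℂ) = y * (-(Complex.I * (c : ℂ)) * xQ + (TQ : ℂ) * VQ)) :
    TQ = RQ ^ 2 / (r ^ 2 * v) ∧ TP = X * σ / (V * (r ^ 2 * v)) := by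
  have hxQ : xQ ≠ 0 := by
    intro h0
    rw [h0, norm_zero] at hn
    exact hRQ hn.symm
  have hcx : (starRingEnd ℂ) xQ * xQ = ((RQ ^ 2 : ℝ) : ℂ) := by
    rw [← hn, mul_comm, Complex.mul_conj, Complex.normSq_eq_norm_sq]
  have hVQ : ((RQ ^ 2 : ℝ) : ℂ) * (y * VQ) = (X : ℂ) * ((σ : ℂ) + (L : ℂ) * Complex.I) := by
    rw [← hcx, ← hc, hxP]
    ring
  have h1 : ((RQ ^ 2 : ℝ) : ℂ) * ((TP : ℂ) * (V : ℂ)) =
      -(Complex.I * (c : ℂ)) * ((RQ ^ 2 : ℝ) : ℂ) * (X : ℂ) +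
        (TQ : ℂ) * ((X : ℂ) * ((σ : ℂ) + (L : ℂ) * Complex.I)) := by
    rw [heq, ← hVQ, hxP]
    ring
  obtain ⟨B, hB⟩ : ∃ B : ℝ, B = RQ ^ 2 := ⟨_, rfl⟩
  rw [← hB] at h1
  have hre := congrArg Complex.re h1
  have him := congrArg Complex.im h1
  simp at hre him
  rw [hB] at hre him
  have hr2 : r ^ 2 * v ≠ 0 := mul_ne_zero (pow_ne_zero _ hr.ne') hv
  have hRQ2 : RQ ^ 2 ≠ 0 := pow_ne_zero _ hRQ
  have e1 : TQ = RQ ^ 2 / (r ^ 2 * v) := by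
    have h2 : X * L * (TQ - RQ ^ 2 / (r ^ 2 * v)) = 0 := by
      have h3 : c * RQ ^ 2 * X = X * L * (RQ ^ 2 / (r ^ 2 * v)) := by
        rw [hcc]
        field_simp
      linear_combination h3 - him
    rcases mul_eq_zero.1 h2 with h3 | h3
    · exact absurd h3 (mul_ne_zero hX hL)
    · linarith
  refine ⟨e1, ?_⟩
  have h3 : RQ ^ 2 * (TP * V - X * σ / (r ^ 2 * v)) = 0 := by
    have h4 : RQ ^ 2 * (X * σ / (r ^ 2 * v)) = TQ * (X * σ) := by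
      rw [e1]
      field_simp
    linear_combination hre - h4
  have h5 : TP * V = X * σ / (r ^ 2 * v) := by
    rcases mul_eq_zero.1 h3 with h4 | h4
    · exact absurd h4 hRQ2
    · linarith
  rw [eq_div_iff (mul_ne_zero hV hr2)]
  rw [eq_div_iff hr2] at h5
  linarith

theorem cross_deriv_pr {L h hP r0 v' w' ds ds' : ℝ} {v w s s' : ℝ → ℝ} {y : ℂ} (hr : 0 < r0)
    (hL : L ≠ 0) (hh : h < 0) (hhP : hP < 0)
    (hv : ∀ᶠ r in 𝓝 r0, v r ^ 2 = 2 * h + 2 / r - L ^ 2 / r ^ 2) (hv0 : v r0 ≠ 0)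
    (hvd : HasDerivAt v v' r0)
    (hw : ∀ᶠ r in 𝓝 r0, w r ^ 2 = 2 * hP + 2 / r) (hw0 : w r0 ≠ 0)
    (hwd : HasDerivAt w w' r0) (hs : HasDerivAt s ds r0) (hs' : HasDerivAt s' ds' r0)
    (hX : ∀ᶠ r in 𝓝 r0, kX (kst 0 (w r) r) (s r) = y * kX (kst L (v r) r) (s' r))
    (hR : kR (kst 0 (w r0) r0) (s r0) ≠ 0) (hV : kV (kst 0 (w r0) r0) (s r0) ≠ 0) :
    HasDerivAt (fun r => kT (kst 0 (w r) r) (s r) - kT (kst L (v r) r) (s' r))
      (ndD y (kst 0 (w r0) r0) (kst L (v r0) r0) (s r0) (s' r0) r0 (w r0) (v r0)) r0 := by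
  have hw2 : ∀ᶠ r in 𝓝 r0, w r ^ 2 = 2 * hP + 2 / r - (0 : ℝ) ^ 2 / r ^ 2 := by
    filter_upwards [hw] with r hr'
    rw [hr']
    simp
  obtain ⟨hPh, hPL, hPr, hPσ, hP1⟩ := kst_facts hr hw2.self_of_nhds
  obtain ⟨hQh, hQL, hQr, hQσ, hQ1⟩ := kst_facts hr hv.self_of_nhds
  have hPneg : kh' (kst 0 (w r0) r0) < 0 := by rw [hPh]; exact hhP
  have hQneg : kh' (kst L (v r0) r0) < 0 := by rw [hQh]; exact hh
  have hell : Ell (kst L (v r0) r0) := ⟨hQneg, by rw [hQL]; exact hL⟩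
  obtain ⟨E, -, -, hE⟩ := kn_form hr hPneg
  obtain ⟨-, hxP, -, hVP⟩ := hE (s r0)
  obtain ⟨hVP', -⟩ := hVP hR
  have hX0 := hX.self_of_nhds
  have hnP := norm_kX hPneg hP1 (s r0)
  have hnQ := norm_kX hQneg hQ1 (s' r0)
  have hRP0 : kR (kst 0 (w r0) r0) (s r0) = ‖y‖ * kR (kst L (v r0) r0) (s' r0) := by
    rw [← hnP, ← hnQ, hX0, norm_mul]
  have hRQ : kR (kst L (v r0) r0) (s' r0) ≠ 0 := by
    intro h0
    apply hR
    rw [hRP0, h0, mul_zero]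
  have hc : (starRingEnd ℂ) (kX (kst L (v r0) r0) (s' r0)) * kV (kst L (v r0) r0) (s' r0) =
      ((kσ (kY (kst L (v r0) r0) (s' r0)) : ℝ) : ℂ) + (L : ℂ) * Complex.I := by
    have h1 := kY_L hell (s' r0)
    rw [hQL] at h1
    have h2 : (starRingEnd ℂ) (kX (kst L (v r0) r0) (s' r0)) * kV (kst L (v r0) r0) (s' r0) =
        ((kσ (kY (kst L (v r0) r0) (s' r0)) : ℝ) : ℂ) +
          ((kL (kY (kst L (v r0) r0) (s' r0)) : ℝ) : ℂ) * Complex.I := by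
      unfold kσ kL kY
      exact (Complex.re_add_im _).symm
    rw [h2, h1]
  obtain ⟨dTP, dXP⟩ := kfam hr hhP hw2 hw0 hwd hs hR _ rfl
  obtain ⟨dTQ, dXQ⟩ := kfam hr hh hv hv0 hvd hs' hRQ _ rfl
  have dXQ' := dXQ.const_mul y
  have hderiv := (dXP.congr_of_eventuallyEq (hX.mono fun r hr' => hr'.symm)).unique dXQ'
  set TP := (kR (kst 0 (w r0) r0) (s r0) - r0) / (r0 * w r0) +
      Real.sqrt (kA (kst 0 (w r0) r0)) * kR (kst 0 (w r0) r0) (s r0) * ds with hTP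
  set TQ := (kR (kst L (v r0) r0) (s' r0) - r0) / (r0 * v r0) +
      Real.sqrt (kA (kst L (v r0) r0)) * kR (kst L (v r0) r0) (s' r0) * ds' with hTQ
  set V := Real.sqrt (kA (kst 0 (w r0) r0)) * Real.sin (E + s r0) /
    kR (kst 0 (w r0) r0) (s r0) with hVdef
  have hVre : (kV (kst 0 (w r0) r0) (s r0)).re = V := by
    rw [hVP', Complex.ofReal_re]
  have hV0 : V ≠ 0 := by
    intro h0
    apply hV
    rw [hVP', h0, Complex.ofReal_zero]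
  have heq : ((TP + 1 / w r0 : ℝ) : ℂ) * (V : ℂ) =
      y * (-(Complex.I * ((L / (r0 ^ 2 * v r0) : ℝ) : ℂ)) * kX (kst L (v r0) r0) (s' r0) +
        ((TQ + 1 / v r0 : ℝ) : ℂ) * kV (kst L (v r0) r0) (s' r0)) := by
    rw [← hderiv, hVP']
    simp
  have hxX : ((kR (kst 0 (w r0) r0) (s r0) : ℝ) : ℂ) = y * kX (kst L (v r0) r0) (s' r0) := by
    rw [← hX0, hxP]
  obtain ⟨e1, e2⟩ := mc_alg hr hv0 hL hR hV0 hRQ hxX hnQ hc rfl heq
  have hfin := dTP.sub dTQ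
  have e3 : ndD y (kst 0 (w r0) r0) (kst L (v r0) r0) (s r0) (s' r0) r0 (w r0) (v r0) =
      TP - TQ := by
    unfold ndD
    rw [hVre]
    have e4 : TP = kR (kst 0 (w r0) r0) (s r0) * kσ (kY (kst L (v r0) r0) (s' r0)) /
        (V * (r0 ^ 2 * v r0)) - 1 / w r0 := by linarith
    have e5 : TQ = kR (kst L (v r0) r0) (s' r0) ^ 2 / (r0 ^ 2 * v r0) - 1 / v r0 := by linarith
    rw [e4, e5, hRP0]
    have hr0 : r0 ≠ 0 := hr.ne'
    field_simp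
  rw [e3]
  exact hfin

end

end Pool.Agent.HS

namespace Pool.Agent.HS
open Set Filter Topology
open scoped ContDiff

theorem cross_deriv {L h hP r0 v' w' ds ds' : ℝ} {v w s s' : ℝ → ℝ} {y : ℂ} (hr : 0 < r0)
    (hL : L ≠ 0) (hh : h < 0) (hhP : hP < 0)
    (hv : ∀ᶠ r in 𝓝 r0, v r ^ 2 = 2 * h + 2 / r - L ^ 2 / r ^ 2) (hv0 : v r0 ≠ 0)
    (hvd : HasDerivAt v v' r0)
    (hw : ∀ᶠ r in 𝓝 r0, w r ^ 2 = 2 * hP + 2 / r) (hw0 : w r0 ≠ 0)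
    (hwd : HasDerivAt w w' r0) (hs : HasDerivAt s ds r0) (hs' : HasDerivAt s' ds' r0)
    (hX : ∀ᶠ r in 𝓝 r0, kX (kst 0 (w r) r) (s r) = y * kX (kst L (v r) r) (s' r))
    (hR : kR (kst 0 (w r0) r0) (s r0) ≠ 0) (hV : kV (kst 0 (w r0) r0) (s r0) ≠ 0) :
    HasDerivAt (fun r => kT (kst 0 (w r) r) (s r) - kT (kst L (v r) r) (s' r))
      (ndD y (kst 0 (w r0) r0) (kst L (v r0) r0) (s r0) (s' r0) r0 (w r0) (v r0)) r0 :=
  @Pool.Agent.HS.cross_deriv_pr L h hP r0 v' w' ds ds' v w s s' y hr hL hh hhP hv hv0 hvd hw hw0 hwd hs hs' hX hR hV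

end Pool.Agent.HS
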