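import Pool.Agent.Lib_helper60.HSF.D_WM

/-!
# HSM block MD1: a ratio with countably many values
-/

namespace Pool.Agent.HS

noncomputable section

open Set Filter Topology
open scoped ContDiff

theorem md1_countable_subsingleton {s : Set ℝ} (hs : IsPreconnected s) (hc : s.Countable) :
    ∀ x ∈ s, ∀ y ∈ s, x = y := by
  have key : ∀ x ∈ s, ∀ y ∈ s, ¬ x < y := by
    intro x hx y hy hxy
    have h1 : Icc x y ⊆ s := hs.Icc_subset hx hy
    have h2 : (Icc x y).Countable := hc.mono h1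
    have h3 : MeasureTheory.volume (Icc x y) = 0 := h2.measure_zero _
    rw [Real.volume_Icc] at h3
    have h4 : y - x ≤ 0 := ENNReal.ofReal_eq_zero.1 h3
    linarith
  intro x hx y hy
  rcases lt_trichotomy x y with h | h | h
  · exact absurd h (key x hx y hy)
  · exact h
  · exact absurd h (key y hy x hx)

theorem nd_ratio_pr {σ a b : ℝ} {g gA : ℝ → ℝ} (hσ : σ ≠ 0) (hab : a < b) (hg : ContinuousOn g (Ioo a b))
    (hgA : ContinuousOn gA (Ioo a b)) (hA : ∀ f ∈ Ioo a b, gA f ≠ 0)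
    (h : ∀ f ∈ Ioo a b, g f = 0 ∨ ∃ m : ℤ, -2 * σ * gA f = m * g f) :
    ∃ c : ℝ, ∀ f ∈ Ioo a b, g f = c * gA f := by
  have hq : ContinuousOn (fun f => g f / gA f) (Ioo a b) := hg.div hgA hA
  have hpre : IsPreconnected ((fun f => g f / gA f) '' Ioo a b) := isPreconnected_Ioo.image _ hq
  have hsub : ((fun f => g f / gA f) '' Ioo a b) ⊆
      insert (0 : ℝ) (Set.range fun m : ℤ => -2 * σ / (m : ℝ)) := by
    rintro _ ⟨f, hf, rfl⟩
    rcases h f hf with h0 | ⟨m, hm⟩
    · left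
      simp [h0]
    · right
      refine ⟨m, ?_⟩
      have hAf := hA f hf
      have hm0 : (m : ℝ) ≠ 0 := by
        intro h0
        rw [h0, zero_mul] at hm
        have : σ * gA f = 0 := by linarith
        rcases mul_eq_zero.1 this with h1 | h1
        · exact hσ h1
        · exact hAf h1
      show -2 * σ / (m : ℝ) = g f / gA f
      rw [div_eq_div_iff hm0 hAf, hm]
      ring
  have hcnt : ((fun f => g f / gA f) '' Ioo a b).Countable :=
    ((Set.countable_range _).insert 0).mono hsub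
  have hmid : (a + b) / 2 ∈ Ioo a b := ⟨by linarith, by linarith⟩
  refine ⟨g ((a + b) / 2) / gA ((a + b) / 2), ?_⟩
  intro f hf
  have := md1_countable_subsingleton hpre hcnt _ ⟨f, hf, rfl⟩ _ ⟨(a + b) / 2, hmid, rfl⟩
  have h2 : g f / gA f = g ((a + b) / 2) / gA ((a + b) / 2) := this
  rw [← h2]
  field_simp [hA f hf]

end

end Pool.Agent.HS

namespace Pool.Agent.HS
open Set Filter Topology
open scoped ContDiff

theorem nd_ratio {σ a b : ℝ} {g gA : ℝ → ℝ} (hσ : σ ≠ 0) (hab : a < b) (hg : ContinuousOn g (Ioo a b))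
    (hgA : ContinuousOn gA (Ioo a b)) (hA : ∀ f ∈ Ioo a b, gA f ≠ 0)
    (h : ∀ f ∈ Ioo a b, g f = 0 ∨ ∃ m : ℤ, -2 * σ * gA f = m * g f) :
    ∃ c : ℝ, ∀ f ∈ Ioo a b, g f = c * gA f :=
  @Pool.Agent.HS.nd_ratio_pr σ a b g gA hσ hab hg hgA hA h

end Pool.Agent.HS
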