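import Pool.Agent.Lib_helper60.HSF.D_WM

/-!
# Project HS, part M1, block MD2: trigonometric identity
-/

namespace Pool.Agent.HS

noncomputable section

open Set Filter Topology
open scoped ContDiff

/-- analytic continuation from an interval -/
theorem md2_cont {G : ℝ → ℝ} (hG : ∀ x, AnalyticAt ℝ G x) {a b : ℝ} (hab : a < b)
    (h : ∀ x ∈ Ioo a b, G x = 0) (x : ℝ) : G x = 0 := by
  have h1 : AnalyticOnNhd ℝ G univ := fun x _ => hG x
  have h2 : (a + b) / 2 ∈ Ioo a b := ⟨by linarith, by linarith⟩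
  have h3 : G =ᶠ[𝓝 ((a + b) / 2)] (fun _ => (0 : ℝ)) := by
    filter_upwards [isOpen_Ioo.mem_nhds h2] with x hx
    exact h x hx
  exact (h1.eqOn_of_preconnected_of_eventuallyEq (fun x _ => analyticAt_const)
    isPreconnected_univ (mem_univ _) h3) (mem_univ x)

theorem md2_pos {h x y : ℝ} (hh : h < 0) (hx : 0 < x) (hy : 0 < y) (h1 : x / y < -1 / h) :
    0 < h + y / x := by
  have h0 : h ≠ 0 := hh.ne
  have h3 : x / y * -h < 1 := by
    calc x / y * -h < -1 / h * -h := mul_lt_mul_of_pos_right h1 (by linarith)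
      _ = 1 := by field_simp
  have h4 : x * -h < y := by
    calc x * -h = x / y * -h * y := by field_simp
      _ < 1 * y := mul_lt_mul_of_pos_right h3 hy
      _ = y := one_mul y
  have h5 : -h < y / x := by
    rw [lt_div_iff₀ hx]
    linarith
  linarith

theorem nd_trig_pr {h L e μ φ c a b : ℝ} (hh : h < 0) (hL : 0 < L) (he : 0 < e) (he1 : e < 1)
    (hμ : 0 < μ) (h1 : L ^ 2 / (1 + e) < -1 / h) (h2 : μ * L ^ 2 / (1 - e) < -1 / h) (hab : a < b)
    (heq : ∀ f ∈ Ioo a b,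
      μ ^ 2 * Real.sin (f - φ) ^ 2 * (1 + e * Real.cos f) ^ 4 *
        (h + (1 + e * Real.cos f) / L ^ 2) =
      c ^ 2 * Real.sin f ^ 2 * (1 + e * Real.cos (f - φ)) ^ 4 *
        (h + (1 + e * Real.cos (f - φ)) / (μ * L ^ 2))) :
    μ = 1 ∧ Real.cos φ = 1 := by
  have hL2 : 0 < L ^ 2 := by positivity
  have p1 : 0 < h + (1 + e) / L ^ 2 := md2_pos hh hL2 (by linarith) h1
  have p2 : 0 < h + (1 - e) / (μ * L ^ 2) := md2_pos hh (by positivity) (by linarith) h2
  -- the identity for all `f`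
  have key : ∀ f : ℝ, μ ^ 2 * Real.sin (f - φ) ^ 2 * (1 + e * Real.cos f) ^ 4 *
        (h + (1 + e * Real.cos f) / L ^ 2) -
      c ^ 2 * Real.sin f ^ 2 * (1 + e * Real.cos (f - φ)) ^ 4 *
        (h + (1 + e * Real.cos (f - φ)) / (μ * L ^ 2)) = 0 := by
    intro f
    refine md2_cont (G := fun f => μ ^ 2 * Real.sin (f - φ) ^ 2 * (1 + e * Real.cos f) ^ 4 *
        (h + (1 + e * Real.cos f) / L ^ 2) -
      c ^ 2 * Real.sin f ^ 2 * (1 + e * Real.cos (f - φ)) ^ 4 *
        (h + (1 + e * Real.cos (f - φ)) / (μ * L ^ 2))) (fun x => ?_) hab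
        (fun x hx => sub_eq_zero.2 (heq x hx)) f
    simp only [div_eq_mul_inv]
    fun_prop
  have hs : Real.sin φ = 0 := by
    have h3 := key 0
    simp only [zero_sub, Real.sin_neg, Real.cos_zero, Real.sin_zero, mul_one, neg_sq] at h3
    have h4 : μ ^ 2 * Real.sin φ ^ 2 * (1 + e) ^ 4 * (h + (1 + e) / L ^ 2) = 0 := by
      linarith
    have h5 : μ ^ 2 * Real.sin φ ^ 2 * (1 + e) ^ 4 * (h + (1 + e) / L ^ 2) =
        (μ ^ 2 * (1 + e) ^ 4 * (h + (1 + e) / L ^ 2)) * Real.sin φ ^ 2 := by ring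
    rw [h5] at h4
    have h6 : μ ^ 2 * (1 + e) ^ 4 * (h + (1 + e) / L ^ 2) ≠ 0 := by positivity
    exact (pow_eq_zero_iff two_ne_zero).1 ((mul_eq_zero.1 h4).resolve_left h6)
  have hc : Real.cos φ = 1 ∨ Real.cos φ = -1 := by
    have h3 := Real.sin_sq_add_cos_sq φ
    rw [hs] at h3
    have h4 : (Real.cos φ - 1) * (Real.cos φ + 1) = 0 := by nlinarith
    rcases mul_eq_zero.1 h4 with h5 | h5
    · exact Or.inl (by linarith)
    · exact Or.inr (by linarith)
  rcases hc with hc | hc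
  · refine ⟨?_, hc⟩
    have hsin : ∀ f, Real.sin (f - φ) = Real.sin f := fun f => by
      rw [Real.sin_sub, hs, hc]
      ring
    have hcos : ∀ f, Real.cos (f - φ) = Real.cos f := fun f => by
      rw [Real.cos_sub, hs, hc]
      ring
    have e1 := key (Real.pi / 2)
    have e2 := key (Real.pi / 3)
    rw [hsin, hcos] at e1 e2
    rw [Real.sin_pi_div_two, Real.cos_pi_div_two] at e1
    rw [Real.sin_pi_div_three, Real.cos_pi_div_three] at e2
    have e3 : (√3 / 2 : ℝ) ^ 2 = 3 / 4 := by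
      rw [div_pow, Real.sq_sqrt (by norm_num)]
      norm_num
    rw [e3] at e2
    have e4 : μ ^ 2 * (h + 1 / L ^ 2) = c ^ 2 * (h + 1 / (μ * L ^ 2)) := by
      simp only [mul_zero, add_zero, one_pow, mul_one] at e1
      linarith
    have e5 : (3 / 4 * (1 + e / 2) ^ 4) * (μ ^ 2 * (h + (1 + e / 2) / L ^ 2) -
        c ^ 2 * (h + (1 + e / 2) / (μ * L ^ 2))) = 0 := by
      rw [← e2]
      ring
    have e6 : μ ^ 2 * (h + (1 + e / 2) / L ^ 2) -
        c ^ 2 * (h + (1 + e / 2) / (μ * L ^ 2)) = 0 := by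
      refine (mul_eq_zero.1 e5).resolve_left ?_
      positivity
    have e7 : μ ^ 2 / L ^ 2 = c ^ 2 / (μ * L ^ 2) := by
      have e8 : e / 2 * (μ ^ 2 / L ^ 2 - c ^ 2 / (μ * L ^ 2)) = 0 := by
        have e9 : e / 2 * (μ ^ 2 / L ^ 2 - c ^ 2 / (μ * L ^ 2)) =
            (μ ^ 2 * (h + (1 + e / 2) / L ^ 2) - c ^ 2 * (h + (1 + e / 2) / (μ * L ^ 2))) -
            (μ ^ 2 * (h + 1 / L ^ 2) - c ^ 2 * (h + 1 / (μ * L ^ 2))) := by ring
        rw [e9, e6, e4]
        ring
      have := (mul_eq_zero.1 e8).resolve_left (by positivity)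
      linarith
    have e10 : μ ^ 3 = c ^ 2 := by
      field_simp at e7
      linarith
    have e11 : μ ^ 2 * h = c ^ 2 * h := by
      have e12 : μ ^ 2 * h + μ ^ 2 / L ^ 2 = c ^ 2 * h + c ^ 2 / (μ * L ^ 2) := by
        have e13 : μ ^ 2 * (h + 1 / L ^ 2) = μ ^ 2 * h + μ ^ 2 / L ^ 2 := by ring
        have e14 : c ^ 2 * (h + 1 / (μ * L ^ 2)) = c ^ 2 * h + c ^ 2 / (μ * L ^ 2) := by ring
        rw [← e13, ← e14]
        exact e4
      linarith
    have e15 : μ ^ 2 = c ^ 2 := mul_right_cancel₀ hh.ne e11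
    have e16 : μ ^ 2 * (μ - 1) = 0 := by
      have : μ ^ 3 = μ ^ 2 := by rw [e10, e15]
      linear_combination this
    have e17 := (mul_eq_zero.1 e16).resolve_left (by positivity)
    linarith
  · exfalso
    have hsin : ∀ f, Real.sin (f - φ) = -Real.sin f := fun f => by
      rw [Real.sin_sub, hs, hc]
      ring
    have hcos : ∀ f, Real.cos (f - φ) = -Real.cos f := fun f => by
      rw [Real.cos_sub, hs, hc]
      ring
    have e1 : ∀ u : ℝ, μ ^ 2 * u ^ 4 * (h + u / L ^ 2) -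
        c ^ 2 * (2 - u) ^ 4 * (h + (2 - u) / (μ * L ^ 2)) = 0 := by
      intro u
      refine md2_cont (G := fun u => μ ^ 2 * u ^ 4 * (h + u / L ^ 2) -
        c ^ 2 * (2 - u) ^ 4 * (h + (2 - u) / (μ * L ^ 2))) (fun x => ?_)
        (show 1 - e < 1 + e by linarith) (fun x hx => ?_) u
      · simp only [div_eq_mul_inv]
        fun_prop
      · have h3 : -1 < (x - 1) / e := by
          rw [lt_div_iff₀ he]
          linarith [hx.1]
        have h4 : (x - 1) / e < 1 := by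
          rw [div_lt_iff₀ he]
          linarith [hx.2]
        have h5 := key (Real.arccos ((x - 1) / e))
        rw [hsin, hcos, Real.cos_arccos h3.le h4.le] at h5
        have h6 : 0 < Real.sin (Real.arccos ((x - 1) / e)) :=
          Real.sin_pos_of_pos_of_lt_pi (Real.arccos_pos.2 h4) (Real.arccos_lt_pi.2 h3)
        set S := Real.sin (Real.arccos ((x - 1) / e))
        have h7 : 1 + e * ((x - 1) / e) = x := by
          field_simp
          ring
        have h8 : 1 + e * -((x - 1) / e) = 2 - x := by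
          field_simp
          ring
        rw [h7, h8] at h5
        have h9 : S ^ 2 * (μ ^ 2 * x ^ 4 * (h + x / L ^ 2) -
            c ^ 2 * (2 - x) ^ 4 * (h + (2 - x) / (μ * L ^ 2))) = 0 := by
          rw [← h5]
          ring
        exact (mul_eq_zero.1 h9).resolve_left (by positivity)
    have e2 := e1 0
    have e3 : 0 < h + 2 / (μ * L ^ 2) := by
      have h3 : (1 - e) / (μ * L ^ 2) ≤ 2 / (μ * L ^ 2) :=
        div_le_div_of_nonneg_right (by linarith) (by positivity)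
      linarith
    have e4 : c ^ 2 = 0 := by
      have h3 : c ^ 2 * (16 * (h + 2 / (μ * L ^ 2))) = 0 := by
        have h4 : μ ^ 2 * (0 : ℝ) ^ 4 * (h + 0 / L ^ 2) -
            c ^ 2 * (2 - 0) ^ 4 * (h + (2 - 0) / (μ * L ^ 2)) =
            -(c ^ 2 * (16 * (h + 2 / (μ * L ^ 2)))) := by
          rw [sub_zero]
          ring
        rw [h4] at e2
        linarith
      exact (mul_eq_zero.1 h3).resolve_right (by positivity)
    have e5 := e1 (1 + e)
    rw [e4] at e5
    have e6 : μ ^ 2 * (1 + e) ^ 4 * (h + (1 + e) / L ^ 2) = 0 := by linarith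
    have e7 : μ ^ 2 * (1 + e) ^ 4 * (h + (1 + e) / L ^ 2) ≠ 0 := by positivity
    exact e7 e6

end

end Pool.Agent.HS

namespace Pool.Agent.HS
open Set Filter Topology
open scoped ContDiff

theorem nd_trig {h L e μ φ c a b : ℝ} (hh : h < 0) (hL : 0 < L) (he : 0 < e) (he1 : e < 1)
    (hμ : 0 < μ) (h1 : L ^ 2 / (1 + e) < -1 / h) (h2 : μ * L ^ 2 / (1 - e) < -1 / h) (hab : a < b)
    (heq : ∀ f ∈ Ioo a b,
      μ ^ 2 * Real.sin (f - φ) ^ 2 * (1 + e * Real.cos f) ^ 4 *
        (h + (1 + e * Real.cos f) / L ^ 2) =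
      c ^ 2 * Real.sin f ^ 2 * (1 + e * Real.cos (f - φ)) ^ 4 *
        (h + (1 + e * Real.cos (f - φ)) / (μ * L ^ 2))) :
    μ = 1 ∧ Real.cos φ = 1 :=
  @Pool.Agent.HS.nd_trig_pr h L e μ φ c a b hh hL he he1 hμ h1 h2 hab heq

end Pool.Agent.HS
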