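import Pool.Agent.Lib_helper60.HSF.D_WM
import Pool.Agent.Lib_helper60.HSF.M_MD2
import Pool.Agent.Lib_helper60.HSF.M_MD1

/-!
# Block MD3: the needle lemma
-/

namespace Pool.Agent.HS

noncomputable section

open Set Filter Topology
open scoped ContDiff

theorem md3_den {e : ℝ} (he : 0 < e) (he1 : e < 1) (f : ℝ) :
    1 - e ≤ 1 + e * Real.cos f ∧ 1 + e * Real.cos f ≤ 1 + e ∧ 0 < 1 + e * Real.cos f := by
  have h1 := Real.neg_one_le_cos f
  have h2 := Real.cos_le_one f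
  have h3 : e * -1 ≤ e * Real.cos f := mul_le_mul_of_nonneg_left h1 he.le
  have h4 : e * Real.cos f ≤ e * 1 := mul_le_mul_of_nonneg_left h2 he.le
  refine ⟨by linarith, by linarith, by linarith⟩

theorem md3_ndr_pos {L e : ℝ} (hL : 0 < L) (he : 0 < e) (he1 : e < 1) (f : ℝ) :
    0 < ndr L e f := by
  unfold ndr
  have := (md3_den he he1 f).2.2
  positivity

theorem md3_ndr_cont {L e : ℝ} (he : 0 < e) (he1 : e < 1) : Continuous (ndr L e) := by
  unfold ndr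
  refine Continuous.div (by fun_prop) (by fun_prop) ?_
  intro f
  exact (md3_den he he1 f).2.2.ne'

/-- positivity under the root -/
theorem md3_root {h r : ℝ} (hh : h < 0) (hr : 0 < r) (hr2 : r < -1 / h) :
    0 < 2 * h + 2 / r := by
  have h1 : -h * r < 1 := by
    have h2 : r * (-h) < (-1 / h) * (-h) := mul_lt_mul_of_pos_right hr2 (by linarith)
    have h3 : (-1 / h) * (-h) = 1 := by
      have := hh.ne
      field_simp
    linarith
  have h4 : 2 * h + 2 / r = 2 * (1 - (-h * r)) / r := by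
    field_simp
    ring
  rw [h4]
  apply div_pos _ hr
  linarith

theorem nd_main_pr {h L e μ φ σ a b : ℝ} (hh : h < 0) (hL : 0 < L) (he : 0 < e) (he1 : e < 1)
    (hμ : 0 < μ) (hσ : σ = 1 ∨ σ = -1) (h2 : μ * L ^ 2 / (1 - e) < -1 / h) (hab : a < b)
    (hsin : ∀ f ∈ Ioo a b, Real.sin f ≠ 0) (hr : ∀ f ∈ Ioo a b, ndr L e f < -1 / h)
    (hy : ¬(μ = 1 ∧ Real.cos φ = 1)) :
    ∃ f ∈ Ioo a b, ∃ ς : ℝ, (ς = 1 ∨ ς = -1) ∧ ndG h L e μ φ σ ς f ≠ 0 ∧
      ∀ m : ℤ, -2 * σ * ndA h L e f ≠ m * ndG h L e μ φ σ ς f := by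
  by_contra hcon
  push Not at hcon
  have hσ0 : σ ≠ 0 := by rcases hσ with h | h <;> rw [h] <;> norm_num
  -- positivity of the roots
  have hA0 : ∀ f ∈ Ioo a b, 0 < 2 * h + 2 / ndr L e f := fun f hf =>
    md3_root hh (md3_ndr_pos hL he he1 f) (hr f hf)
  have hmu : ∀ f, μ * ndr L e f < -1 / h := by
    intro f
    refine lt_of_le_of_lt ?_ h2
    obtain ⟨d1, d2, d3⟩ := md3_den he he1 f
    have e0 : 0 < 1 - e := by linarith
    unfold ndr
    rw [mul_div_assoc]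
    apply mul_le_mul_of_nonneg_left _ hμ.le
    exact div_le_div_of_nonneg_left (by positivity) e0 d1
  have hP0 : ∀ f, 0 < 2 * h + 2 / (μ * ndr L e f) := fun f =>
    md3_root hh (mul_pos hμ (md3_ndr_pos hL he he1 f)) (hmu f)
  have hrc := md3_ndr_cont (L := L) he he1
  -- continuity
  have cA : ContinuousOn (ndA h L e) (Ioo a b) := by
    unfold ndA
    refine ContinuousOn.div (by fun_prop) ?_ ?_
    · apply Real.continuous_sqrt.comp_continuousOn
      refine ContinuousOn.add (by fun_prop) ?_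
      exact ContinuousOn.div (by fun_prop) (by fun_prop)
        (fun f _ => (md3_ndr_pos hL he he1 f).ne')
    · intro f hf
      exact (Real.sqrt_pos.mpr (hA0 f hf)).ne'
  have cP : Continuous (ndP h L e μ φ) := by
    unfold ndP
    refine Continuous.div (by fun_prop) ?_ ?_
    · apply Real.continuous_sqrt.comp
      refine Continuous.add (by fun_prop) ?_
      exact Continuous.div (by fun_prop) (by fun_prop)
        (fun f => (mul_pos hμ (md3_ndr_pos hL he he1 (f - φ))).ne')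
    · intro f
      exact (Real.sqrt_pos.mpr (hP0 (f - φ))).ne'
  have cQ : Continuous (ndQ L e φ) := by
    unfold ndQ
    exact Continuous.div_const (by fun_prop) _
  have cG : ∀ ς : ℝ, ContinuousOn (ndG h L e μ φ σ ς) (Ioo a b) := by
    intro ς
    unfold ndG
    exact ((continuousOn_const.mul cP.continuousOn).sub (continuousOn_const.mul cA)).sub
      cQ.continuousOn
  have hAne : ∀ f ∈ Ioo a b, ndA h L e f ≠ 0 := by
    intro f hf
    unfold ndA
    apply div_ne_zero _ (Real.sqrt_pos.mpr (hA0 f hf)).ne'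
    refine mul_ne_zero (mul_ne_zero ?_ ?_) (hsin f hf)
    · positivity
    · exact pow_ne_zero _ (md3_ndr_pos hL he he1 f).ne'
  have hrat : ∀ ς : ℝ, (ς = 1 ∨ ς = -1) → ∃ c : ℝ, ∀ f ∈ Ioo a b,
      ndG h L e μ φ σ ς f = c * ndA h L e f := by
    intro ς hς
    refine nd_ratio hσ0 hab (cG ς) cA hAne ?_
    intro f hf
    by_cases h0 : ndG h L e μ φ σ ς f = 0
    · exact Or.inl h0
    · right
      exact hcon f hf ς hς h0
  obtain ⟨cp, hcp⟩ := hrat 1 (Or.inl rfl)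
  obtain ⟨cm, hcm⟩ := hrat (-1) (Or.inr rfl)
  -- P = c A
  have hPA : ∀ f ∈ Ioo a b, ndP h L e μ φ f = (cp - cm) / 2 * ndA h L e f := by
    intro f hf
    have e1 := hcp f hf
    have e2 := hcm f hf
    unfold ndG at e1 e2
    linarith
  have h1 : L ^ 2 / (1 + e) < -1 / h := by
    obtain ⟨f, hf⟩ := exists_between hab
    refine lt_of_le_of_lt ?_ (hr f hf)
    unfold ndr
    obtain ⟨d1, d2, d3⟩ := md3_den he he1 f
    exact div_le_div_of_nonneg_left (by positivity) d3 d2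
  refine hy (nd_trig (c := (cp - cm) / 2) hh hL he he1 hμ h1 h2 hab ?_)
  intro f hf
  have key := hPA f hf
  set c := (cp - cm) / 2 with hc
  have d3 := (md3_den he he1 f).2.2
  have D3 := (md3_den he he1 (f - φ)).2.2
  have hs1 := Real.sq_sqrt (hA0 f hf).le
  have hs2 := Real.sq_sqrt (hP0 (f - φ)).le
  have ps1 := Real.sqrt_pos.mpr (hA0 f hf)
  have ps2 := Real.sqrt_pos.mpr (hP0 (f - φ))
  set S1 := Real.sqrt (2 * h + 2 / ndr L e f) with hS1
  set S2 := Real.sqrt (2 * h + 2 / (μ * ndr L e (f - φ))) with hS2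
  have kA : ndA h L e f = e / L ^ 2 * ndr L e f ^ 2 * Real.sin f / S1 := rfl
  have kP : ndP h L e μ φ f =
    μ * (e / L ^ 2 * ndr L e (f - φ) ^ 2 * Real.sin (f - φ)) / S2 := rfl
  rw [kA, kP] at key
  rw [← mul_div_assoc, div_eq_div_iff ps2.ne' ps1.ne'] at key
  have key2 : (μ * (e / L ^ 2 * ndr L e (f - φ) ^ 2 * Real.sin (f - φ))) ^ 2 * S1 ^ 2 =
      (c * (e / L ^ 2 * ndr L e f ^ 2 * Real.sin f)) ^ 2 * S2 ^ 2 := by
    rw [← mul_pow, key, mul_pow]
  rw [hs1, hs2] at key2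
  have er : ndr L e f = L ^ 2 / (1 + e * Real.cos f) := rfl
  have eR : ndr L e (f - φ) = L ^ 2 / (1 + e * Real.cos (f - φ)) := rfl
  rw [er, eR] at key2
  set u := 1 + e * Real.cos f with hu
  set U := 1 + e * Real.cos (f - φ) with hU
  have hLne : L ≠ 0 := hL.ne'
  have hene : e ≠ 0 := he.ne'
  have hune : u ≠ 0 := d3.ne'
  have hUne : U ≠ 0 := D3.ne'
  have hμne : μ ≠ 0 := hμ.ne'
  have l1 : (μ * (e / L ^ 2 * (L ^ 2 / U) ^ 2 * Real.sin (f - φ))) ^ 2 * (2 * h + 2 / (L ^ 2 / u)) =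
      (2 * e ^ 2 * L ^ 4 / (u ^ 4 * U ^ 4)) *
        (μ ^ 2 * Real.sin (f - φ) ^ 2 * u ^ 4 * (h + u / L ^ 2)) := by
    field_simp
  have l2 : (c * (e / L ^ 2 * (L ^ 2 / u) ^ 2 * Real.sin f)) ^ 2 *
      (2 * h + 2 / (μ * (L ^ 2 / U))) =
      (2 * e ^ 2 * L ^ 4 / (u ^ 4 * U ^ 4)) *
        (c ^ 2 * Real.sin f ^ 2 * U ^ 4 * (h + U / (μ * L ^ 2))) := by
    field_simp
  rw [l1, l2] at key2
  exact mul_left_cancel₀ (by positivity) key2

end

end Pool.Agent.HS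

namespace Pool.Agent.HS
open Set Filter Topology
open scoped ContDiff

theorem nd_main {h L e μ φ σ a b : ℝ} (hh : h < 0) (hL : 0 < L) (he : 0 < e) (he1 : e < 1)
    (hμ : 0 < μ) (hσ : σ = 1 ∨ σ = -1) (h2 : μ * L ^ 2 / (1 - e) < -1 / h) (hab : a < b)
    (hsin : ∀ f ∈ Ioo a b, Real.sin f ≠ 0) (hr : ∀ f ∈ Ioo a b, ndr L e f < -1 / h)
    (hy : ¬(μ = 1 ∧ Real.cos φ = 1)) :
    ∃ f ∈ Ioo a b, ∃ ς : ℝ, (ς = 1 ∨ ς = -1) ∧ ndG h L e μ φ σ ς f ≠ 0 ∧
      ∀ m : ℤ, -2 * σ * ndA h L e f ≠ m * ndG h L e μ φ σ ς f :=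
  @Pool.Agent.HS.nd_main_pr h L e μ φ σ a b hh hL he he1 hμ hσ h2 hab hsin hr hy

end Pool.Agent.HS
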