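import Pool.Agent.Lib_helper60.HSF.D_WM
import Pool.Agent.Lib_helper60.HSF.K_KA1
import Pool.Agent.Lib_helper60.HSF.K_KF1
import Pool.Agent.Lib_helper60.HSF.M_MB2
import Pool.Agent.Lib_helper60.HSF.M_MA
import Pool.Agent.Lib_helper60.HSF.M_MD3
import Pool.Agent.Lib_helper60.HSF.K_KF2

/-!
# Project HS, part S1-M1, block ME: a good point on the needle curve
-/

namespace Pool.Agent.HS

noncomputable section

open Set Filter Topology
open scoped ContDiff

/-- angle with given cosine and sine -/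
theorem me_angle {x y : ℝ} (h : x ^ 2 + y ^ 2 = 1) : ∃ f : ℝ, Real.cos f = x ∧ Real.sin f = y := by
  have hn : ‖(⟨x, y⟩ : ℂ)‖ = 1 := by
    have h1 : ‖(⟨x, y⟩ : ℂ)‖ ^ 2 = 1 := by
      rw [← Complex.normSq_eq_norm_sq, Complex.normSq_mk]
      linarith
    have h2 := norm_nonneg (⟨x, y⟩ : ℂ)
    nlinarith
  have h0 : (⟨x, y⟩ : ℂ) ≠ 0 := by
    intro h0
    rw [h0, norm_zero] at hn
    norm_num at hn
  refine ⟨Complex.arg ⟨x, y⟩, ?_, ?_⟩
  · rw [Complex.cos_arg h0, hn, div_one]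
  · rw [Complex.sin_arg, hn, div_one]

/-- the eccentricity -/
theorem me_ecc {L h r : ℝ} (hL : 0 < L) (hh : h < 0) (hr : 0 < r)
    (hv : 0 < 2 * h + 2 / r - L ^ 2 / r ^ 2) :
    0 < Real.sqrt (1 + 2 * h * L ^ 2) ∧ Real.sqrt (1 + 2 * h * L ^ 2) < 1 ∧
      Real.sqrt (1 + 2 * h * L ^ 2) ^ 2 = 1 + 2 * h * L ^ 2 := by
  have h1 : 0 < 1 + 2 * h * L ^ 2 := by
    have h2 : 0 < L ^ 2 * (2 * h + 2 / r - L ^ 2 / r ^ 2) := by positivity
    have h3 : L ^ 2 * (2 * h + 2 / r - L ^ 2 / r ^ 2) =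
        1 + 2 * h * L ^ 2 - (1 - L ^ 2 / r) ^ 2 := by
      field_simp
      ring
    rw [h3] at h2
    nlinarith [sq_nonneg (1 - L ^ 2 / r)]
  have h2 : 1 + 2 * h * L ^ 2 < 1 := by
    have : 0 < L ^ 2 := by positivity
    nlinarith
  refine ⟨Real.sqrt_pos.mpr h1, ?_, Real.sq_sqrt h1.le⟩
  rw [Real.sqrt_lt' one_pos]
  linarith

/-- the radial velocity as a function of the true anomaly -/
theorem me_vel {L h e f τ : ℝ} (hL : 0 < L) (he : 0 < e) (he1 : e < 1)
    (he2 : e ^ 2 = 1 + 2 * h * L ^ 2) (hτ : τ = 1 ∨ τ = -1) (hf : 0 < τ * Real.sin f) :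
    0 < 1 + e * Real.cos f ∧ 0 < ndr L e f ∧ L ^ 2 / ndr L e f = 1 + e * Real.cos f ∧
    L * (τ * Real.sqrt (2 * h + 2 / ndr L e f - L ^ 2 / ndr L e f ^ 2)) = e * Real.sin f ∧
    (τ * Real.sqrt (2 * h + 2 / ndr L e f - L ^ 2 / ndr L e f ^ 2)) ^ 2 =
      2 * h + 2 / ndr L e f - L ^ 2 / ndr L e f ^ 2 := by
  have h1 : 0 < 1 + e * Real.cos f := by
    have := Real.neg_one_le_cos f
    nlinarith
  have hr : 0 < ndr L e f := by
    unfold ndr
    positivity
  have h2 : L ^ 2 / ndr L e f = 1 + e * Real.cos f := by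
    unfold ndr
    field_simp
  have h3 : 2 * h + 2 / ndr L e f - L ^ 2 / ndr L e f ^ 2 = (e * Real.sin f / L) ^ 2 := by
    have h4 : 2 / ndr L e f = 2 * (1 + e * Real.cos f) / L ^ 2 := by
      rw [← h2]
      field_simp
    have h5 : L ^ 2 / ndr L e f ^ 2 = (1 + e * Real.cos f) ^ 2 / L ^ 2 := by
      rw [← h2]
      field_simp
    have h6 : 2 * h = (e ^ 2 - 1) / L ^ 2 := by
      rw [he2]
      field_simp
      ring
    rw [h4, h5, h6, div_pow, mul_pow, Real.sin_sq]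
    field_simp
    ring
  have h4 : τ * Real.sqrt (2 * h + 2 / ndr L e f - L ^ 2 / ndr L e f ^ 2) =
      e * Real.sin f / L := by
    rw [h3, Real.sqrt_sq_eq_abs]
    rcases hτ with rfl | rfl
    · rw [one_mul] at hf ⊢
      exact abs_of_pos (by positivity)
    · have h5 : Real.sin f < 0 := by linarith
      have h6 : e * Real.sin f / L < 0 := div_neg_of_neg_of_pos (by nlinarith) hL
      rw [abs_of_neg h6]
      ring
  refine ⟨h1, hr, h2, ?_, ?_⟩
  · rw [h4]
    field_simp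
  · rw [h4, h3]

/-- an interval of true anomalies -/
theorem me_interval {L h a b τ : ℝ} (hL : 0 < L) (ha : 0 < a) (hab : a < b)
    (hτ : τ = 1 ∨ τ = -1) (hv : ∀ r ∈ Ioo a b, 0 < 2 * h + 2 / r - L ^ 2 / r ^ 2) {e : ℝ}
    (he : 0 < e) (he1 : e < 1) (he2 : e ^ 2 = 1 + 2 * h * L ^ 2) :
    ∃ a' b' : ℝ, a' < b' ∧ ∀ f ∈ Ioo a' b', 0 < τ * Real.sin f ∧ ndr L e f ∈ Ioo a b := by
  set r := (a + b) / 2 with hr
  have hrm : r ∈ Ioo a b := ⟨by rw [hr]; linarith, by rw [hr]; linarith⟩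
  have hr0 : 0 < r := ha.trans hrm.1
  have hv0 := hv r hrm
  set X := 2 * h + 2 / r - L ^ 2 / r ^ 2 with hX
  have hs : 0 < Real.sqrt X := Real.sqrt_pos.mpr hv0
  obtain ⟨f0, hc, hsn⟩ := me_angle (x := (L ^ 2 / r - 1) / e) (y := τ * (L * Real.sqrt X) / e) (by
    have h1 : τ ^ 2 = 1 := by rcases hτ with rfl | rfl <;> norm_num
    rw [div_pow, div_pow, mul_pow, mul_pow, h1, Real.sq_sqrt hv0.le, ← add_div,
      div_eq_one_iff_eq (by positivity), he2, hX]
    field_simp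
    ring)
  have h1 : 0 < τ * Real.sin f0 := by
    rw [hsn]
    have h2 : τ * (τ * (L * Real.sqrt X) / e) = τ ^ 2 * (L * Real.sqrt X / e) := by ring
    have h3 : τ ^ 2 = 1 := by rcases hτ with rfl | rfl <;> norm_num
    rw [h2, h3, one_mul]
    positivity
  have h2 : ndr L e f0 = r := by
    unfold ndr
    rw [hc]
    field_simp
    ring
  have c1 : ContinuousAt (fun f => τ * Real.sin f) f0 :=
    (continuous_const.mul Real.continuous_sin).continuousAt
  have c2 : ContinuousAt (fun f => ndr L e f) f0 := by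
    unfold ndr
    refine ContinuousAt.div continuousAt_const
      (continuous_const.add (continuous_const.mul Real.continuous_cos)).continuousAt ?_
    have := Real.neg_one_le_cos f0
    have h3 : 0 < 1 + e * Real.cos f0 := by nlinarith
    exact h3.ne'
  have e1 : ∀ᶠ f in 𝓝 f0, 0 < τ * Real.sin f := c1.eventually (lt_mem_nhds h1)
  have e2 : ∀ᶠ f in 𝓝 f0, ndr L e f ∈ Ioo a b :=
    c2.eventually (by
      show ∀ᶠ y in 𝓝 (ndr L e f0), y ∈ Ioo a b
      rw [h2]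
      exact Ioo_mem_nhds hrm.1 hrm.2)
  obtain ⟨δ, hδ, hδ'⟩ := Metric.eventually_nhds_iff.mp (e1.and e2)
  refine ⟨f0 - δ, f0 + δ, by linarith, fun f hf => hδ' ?_⟩
  rw [Real.dist_eq, abs_lt]
  exact ⟨by linarith [hf.1], by linarith [hf.2]⟩

/-- the eccentricity vector at the corner -/
theorem me_kE {L h v r e f : ℝ} (hr : 0 < r) (hv : v ^ 2 = 2 * h + 2 / r - L ^ 2 / r ^ 2)
    (h1 : L ^ 2 / r = 1 + e * Real.cos f) (h2 : L * v = e * Real.sin f) :
    kE (kst L v r) = ⟨e * Real.cos f, -(e * Real.sin f)⟩ := by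
  obtain ⟨-, k2, k3, -, -⟩ := kst_facts hr hv
  unfold kE
  rw [k2]
  have k4 : ‖(kst L v r).1‖ = r := k3
  rw [k4]
  have hr' : (r : ℂ) ≠ 0 := by exact_mod_cast hr.ne'
  have e1 : L * (L / r) = 1 + e * Real.cos f := by
    rw [← h1]
    ring
  apply Complex.ext
  · simp [kst]
    rw [div_self hr.ne']
    linarith
  · simp [kst]
    linarith

theorem me_sum_pos {e t : ℝ} (he : 0 < e) (he1 : e < 1) :
    0 < 1 + e * Real.cos t ∧ 1 - e ≤ 1 + e * Real.cos t := by
  have := Real.neg_one_le_cos t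
  constructor <;> nlinarith

/-- general form: Kepler orbit `Q` and needle `P` through the same point -/
theorem needle_pick_pr {L h hP a b σ τ : ℝ} {y : ℂ} (hL : 0 < L) (hh : h < 0)
    (hhP : hP < 0) (ha : 0 < a) (hab : a < b) (hσ : σ = 1 ∨ σ = -1) (hτ : τ = 1 ∨ τ = -1)
    (hv : ∀ r ∈ Ioo a b, 0 < 2 * h + 2 / r - L ^ 2 / r ^ 2)
    (hw : ∀ r ∈ Ioo a b, 0 < 2 * hP + 2 / r) (hy0 : y ≠ 0) (hy1 : y ≠ 1)
    (hyb : h ≤ ‖y‖ * hP) :
    ∃ r ∈ Ioo a b, ∃ s s' : ℝ,
      let w := σ * Real.sqrt (2 * hP + 2 / r)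
      let v := τ * Real.sqrt (2 * h + 2 / r - L ^ 2 / r ^ 2)
      let P := kst 0 w r
      let Q := kst L v r
      kX P s = y * kX Q s' ∧ kR P s ≠ 0 ∧ kV P s ≠ 0 ∧ kcr y P Q s s' ≠ 0 ∧
      ndD y P Q s s' r w v ≠ 0 ∧ ∀ m : ℤ, -2 / w ≠ m * ndD y P Q s s' r w v := by
  -- the eccentricity
  have hm : (a + b) / 2 ∈ Ioo a b := ⟨by linarith, by linarith⟩
  obtain ⟨he, he1, he2⟩ := me_ecc hL hh (ha.trans hm.1) (hv _ hm)
  set e := Real.sqrt (1 + 2 * h * L ^ 2) with hedef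
  -- the interval
  obtain ⟨a', b', hab', hI⟩ := me_interval hL ha hab hτ hv he he1 he2
  set μ := ‖y‖ with hμdef
  set φ := Complex.arg y with hφdef
  have hμ : 0 < μ := norm_pos_iff.mpr hy0
  have hyre : y.re = μ * Real.cos φ := (Complex.norm_mul_cos_arg y).symm
  have hyim : y.im = μ * Real.sin φ := (Complex.norm_mul_sin_arg y).symm
  have hbd : μ * L ^ 2 / (1 - e) < -1 / hP := by
    have h1 : 0 < 1 - e := by linarith
    rw [div_lt_iff₀ h1, div_mul_eq_mul_div, lt_div_iff_of_neg hhP]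
    have h2 : (1 - e) * (1 + e) = -(2 * h * L ^ 2) := by
      have : (1 - e) * (1 + e) = 1 - e ^ 2 := by ring
      rw [this, he2]
      ring
    have h3 : 0 < L ^ 2 := by positivity
    -- `(1 - e) < -μ L² hP`
    have h4 : -(μ * hP) ≤ -h := by linarith
    have h5 : (1 - e) * (1 + e) ≥ 2 * L ^ 2 * (-(μ * hP)) := by
      rw [h2]
      nlinarith
    have h6 : -(μ * hP) > 0 := by
      have : μ * hP < 0 := mul_neg_of_pos_of_neg hμ hhP
      linarith
    have h7 : 0 < L ^ 2 * -(μ * hP) := by positivity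
    nlinarith
  obtain ⟨f, hf, ς, hς, hG, hGm⟩ := nd_main (σ := σ) hhP hL he he1 hμ hσ hbd hab'
    (fun f hf => by
      have := (hI f hf).1
      intro h0
      rw [h0, mul_zero] at this
      exact lt_irrefl _ this)
    (fun f hf => by
      have h1 := (hI f hf).2
      have h2 := hw _ h1
      have h3 : 0 < ndr L e f := ha.trans h1.1
      rw [lt_div_iff_of_neg hhP]
      have h4 : 0 < (2 * hP + 2 / ndr L e f) * ndr L e f := mul_pos h2 h3
      have h5 : (2 * hP + 2 / ndr L e f) * ndr L e f = 2 * (ndr L e f * hP) + 2 := by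
        field_simp
      linarith)
    (φ := φ)
    (by
      rintro ⟨h1, h2⟩
      apply hy1
      have h3 : Real.sin φ = 0 := by
        have := Real.sin_sq_add_cos_sq φ
        rw [h2] at this
        nlinarith
      apply Complex.ext
      · rw [hyre, h1, h2]
        simp
      · rw [hyim, h3]
        simp)
  obtain ⟨hfs, hfr⟩ := hI f hf
  obtain ⟨hc0, hr0, hLr, hLv, hvsq⟩ := me_vel hL he he1 he2 hτ hfs
  refine ⟨ndr L e f, hfr, ?_⟩
  set r := ndr L e f with hrdef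
  set w := σ * Real.sqrt (2 * hP + 2 / r) with hwdef
  set v := τ * Real.sqrt (2 * h + 2 / r - L ^ 2 / r ^ 2) with hvdef
  have hW0 : 0 < 2 * hP + 2 / r := hw r hfr
  have hW : 0 < Real.sqrt (2 * hP + 2 / r) := Real.sqrt_pos.mpr hW0
  have hσ2 : σ ^ 2 = 1 := by rcases hσ with rfl | rfl <;> norm_num
  have hς2 : ς ^ 2 = 1 := by rcases hς with rfl | rfl <;> norm_num
  have hwsq : w ^ 2 = 2 * hP + 2 / r - 0 ^ 2 / r ^ 2 := by
    rw [hwdef, mul_pow, hσ2, Real.sq_sqrt hW0.le]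
    ring
  obtain ⟨p1, -, p3, -, -⟩ := kst_facts hr0 hwsq
  obtain ⟨q1, q2, q3, -, q5⟩ := kst_facts hr0 hvsq
  have hEll : Ell (kst L v r) := ⟨by rw [q1]; exact hh, by rw [q2]; exact hL.ne'⟩
  have hkE := me_kE hr0 hvsq hLr hLv
  -- the point on the conic
  obtain ⟨hd0, hd1⟩ := me_sum_pos (t := f - φ) he he1
  set R := ndr L e (f - φ) with hRdef
  have hR0 : 0 < R := by
    rw [hRdef]
    unfold ndr
    positivity
  have hRL : R * (1 + e * Real.cos (f - φ)) = L ^ 2 := by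
    rw [hRdef]
    unfold ndr
    field_simp
  set x : ℂ := ⟨R * Real.cos φ, -(R * Real.sin φ)⟩ with hx
  have hxn : ‖x‖ = R := by
    have h1 : ‖x‖ ^ 2 = R ^ 2 := by
      rw [← Complex.normSq_eq_norm_sq, hx, Complex.normSq_mk]
      have h2 := Real.sin_sq_add_cos_sq φ
      linear_combination R ^ 2 * h2
    exact (pow_left_inj₀ (norm_nonneg x) hR0.le two_ne_zero).mp h1
  obtain ⟨s', hs'⟩ := conic_surj hEll x (by
    rw [hxn, hkE, q2, ← hRL, Complex.mul_re, Complex.conj_re, Complex.conj_im, hx]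
    simp only
    rw [Real.cos_sub]
    ring)
  have hkRQ : kR (kst L v r) s' = R := by
    rw [← norm_kX (by rw [q1]; exact hh) q5 s', hs', hxn]
  have hyx : y * x = ((μ * R : ℝ) : ℂ) := by
    have h1 := Real.sin_sq_add_cos_sq φ
    apply Complex.ext
    · rw [Complex.mul_re, hyre, hyim, hx, Complex.ofReal_re]
      simp only
      linear_combination μ * R * h1
    · rw [Complex.mul_im, hyre, hyim, hx, Complex.ofReal_im]
      simp only
      ring
  -- the needle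
  have hρ : 0 < μ * R := mul_pos hμ hR0
  have hρ2 : μ * R < -1 / hP := by
    refine lt_of_le_of_lt ?_ hbd
    have h1 : R ≤ L ^ 2 / (1 - e) := by
      rw [le_div_iff₀ (by linarith), ← hRL]
      exact mul_le_mul_of_nonneg_left hd1 hR0.le
    calc μ * R ≤ μ * (L ^ 2 / (1 - e)) := mul_le_mul_of_nonneg_left h1 hμ.le
      _ = μ * L ^ 2 / (1 - e) := by ring
  have hkA : 2 * kA (kst 0 w r) = -1 / hP := by
    unfold kA
    rw [p1]
    field_simp
  obtain ⟨s, hs1, hs2, hs3⟩ := kn_hit (w := w) hr0 (by rw [p1]; exact hhP) hρ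
    (by rw [hkA]; exact hρ2) hς
  rw [p1] at hs3
  have hV0 : 0 < 2 * hP + 2 / (μ * R) := by
    rw [lt_div_iff_of_neg hhP] at hρ2
    have h1 : 2 * hP + 2 / (μ * R) = 2 * (μ * R * hP + 1) / (μ * R) := by
      field_simp
    rw [h1]
    apply div_pos _ hρ
    linarith
  set V := Real.sqrt (2 * hP + 2 / (μ * R)) with hVdef
  have hV : 0 < V := Real.sqrt_pos.mpr hV0
  have hςV : ς * V ≠ 0 := by
    rcases hς with rfl | rfl
    · simpa using hV.ne'
    · simpa using hV.ne'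
  -- the velocity of `Q`
  have hkV : kV (kst L v r) s' = ⟨(e * Real.sin f + Real.sin φ) / L,
      (e * Real.cos f + Real.cos φ) / L⟩ := by
    rw [kV_eq hEll s', hs', hxn, q2, hkE]
    have hLc : (L : ℂ) ≠ 0 := by exact_mod_cast hL.ne'
    have hxR : x / (R : ℂ) = ⟨Real.cos φ, -Real.sin φ⟩ := by
      rw [div_eq_iff (by exact_mod_cast hR0.ne'), hx]
      apply Complex.ext
      · simp [mul_comm]
      · simp [mul_comm]
    rw [hxR, div_mul_eq_mul_div, div_eq_iff hLc]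
    apply Complex.ext
    · simp
      field_simp
      ring
    · simp
      field_simp
  have hkσ : kσ (kY (kst L v r) s') = R * (e * Real.sin (f - φ)) / L := by
    unfold kσ kY
    rw [hkV, hs', hx]
    simp only [Complex.mul_re, Complex.conj_re, Complex.conj_im]
    rw [Real.sin_sub]
    field_simp
    ring
  have hcr : kcr y (kst 0 w r) (kst L v r) s s' =
      ς * V * (μ / L * (1 + e * Real.cos (f - φ))) := by
    unfold kcr
    rw [hs3, hkV, Complex.conj_ofReal, Complex.im_ofReal_mul, Complex.mul_im, hyre, hyim]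
    simp only
    rw [Real.cos_sub]
    have h1 := Real.sin_sq_add_cos_sq φ
    linear_combination ς * V * μ / L * h1
  -- the derivative
  have hv0 : v ≠ 0 := by
    intro h0
    rw [h0, mul_zero] at hLv
    have : Real.sin f ≠ 0 := by
      intro h1
      rw [h1, mul_zero] at hfs
      exact lt_irrefl _ hfs
    have h2 : e * Real.sin f ≠ 0 := mul_ne_zero he.ne' this
    exact h2 hLv.symm
  have hσW : σ * Real.sqrt (2 * hP + 2 / r) ≠ 0 := by
    rcases hσ with rfl | rfl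
    · simpa using hW.ne'
    · simpa using hW.ne'
  have hk : r ^ 2 * v / L ≠ 0 := by
    refine div_ne_zero (mul_ne_zero (pow_ne_zero _ hr0.ne') hv0) hL.ne'
  have hA : ndA hP L e f * Real.sqrt (2 * hP + 2 / r) = r ^ 2 * v / L := by
    unfold ndA
    rw [← hrdef, div_mul_cancel₀ _ hW.ne']
    have h1 : e / L ^ 2 * r ^ 2 * Real.sin f = r ^ 2 * (e * Real.sin f) / L ^ 2 := by ring
    rw [h1, ← hLv]
    field_simp
  have hσinv : 1 / w = σ / Real.sqrt (2 * hP + 2 / r) := by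
    rw [hwdef, div_eq_div_iff hσW hW.ne']
    linear_combination (-Real.sqrt (2 * hP + 2 / r)) * hσ2
  have hςinv : 1 / (ς * V) = ς / V := by
    rw [div_eq_div_iff hςV hV.ne']
    linear_combination (-V) * hς2
  have hPd : ndP hP L e μ φ f = μ * (R ^ 2 * (e * Real.sin (f - φ))) / L ^ 2 / V := by
    unfold ndP
    rw [← hRdef, ← hVdef]
    ring
  have hQd : ndQ L e φ f = (R ^ 2 - r ^ 2) / L := by
    unfold ndQ
    rw [← hRdef, ← hrdef]
  have hAd : ndA hP L e f = r ^ 2 * v / L / Real.sqrt (2 * hP + 2 / r) := by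
    rw [← hA, mul_div_cancel_right₀ _ hW.ne']
  have hD : ndD y (kst 0 w r) (kst L v r) s s' r w v * (r ^ 2 * v / L) =
      ndG hP L e μ φ σ ς f := by
    unfold ndD ndG
    rw [hkRQ, hkσ, hs3, Complex.ofReal_re, hPd, hQd, hAd, ← hμdef]
    have h1 : μ * R * (R * (e * Real.sin (f - φ)) / L) / (ς * V * (r ^ 2 * v)) =
        μ * R * (R * (e * Real.sin (f - φ)) / L) / (r ^ 2 * v) * (ς / V) := by
      rw [← hςinv]
      field_simp
    rw [h1, hσinv]
    have hr1 := hr0.ne'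
    have hL1 := hL.ne'
    have hV1 := hV.ne'
    have hW1 := hW.ne'
    field_simp
  have hDG : ndD y (kst 0 w r) (kst L v r) s s' r w v =
      ndG hP L e μ φ σ ς f / (r ^ 2 * v / L) := by
    rw [← hD, mul_div_cancel_right₀ _ hk]
  refine ⟨s, s', ?_, ?_, ?_, ?_, ?_, ?_⟩
  · rw [hs2, hs', hyx]
  · rw [hs1]
    exact hρ.ne'
  · rw [hs3]
    exact_mod_cast hςV
  · rw [hcr]
    refine mul_ne_zero hςV (mul_ne_zero (div_pos hμ hL).ne' hd0.ne')
  · rw [hDG]
    exact div_ne_zero hG hk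
  · intro m hm
    apply hGm m
    rw [hDG] at hm
    have h1 : -2 / w = -2 * σ * ndA hP L e f / (r ^ 2 * v / L) := by
      have h2 : -2 / w = -2 * (1 / w) := by ring
      rw [h2, hσinv, hAd]
      field_simp
    rw [h1, ← mul_div_assoc, div_left_inj' hk] at hm
    exact hm

end

end Pool.Agent.HS

namespace Pool.Agent.HS
open Set Filter Topology
open scoped ContDiff

theorem needle_pick {L h hP a b σ τ : ℝ} {y : ℂ} (hL : 0 < L) (hh : h < 0)
    (hhP : hP < 0) (ha : 0 < a) (hab : a < b) (hσ : σ = 1 ∨ σ = -1) (hτ : τ = 1 ∨ τ = -1)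
    (hv : ∀ r ∈ Ioo a b, 0 < 2 * h + 2 / r - L ^ 2 / r ^ 2)
    (hw : ∀ r ∈ Ioo a b, 0 < 2 * hP + 2 / r) (hy0 : y ≠ 0) (hy1 : y ≠ 1)
    (hyb : h ≤ ‖y‖ * hP) :
    ∃ r ∈ Ioo a b, ∃ s s' : ℝ,
      let w := σ * Real.sqrt (2 * hP + 2 / r)
      let v := τ * Real.sqrt (2 * h + 2 / r - L ^ 2 / r ^ 2)
      let P := kst 0 w r
      let Q := kst L v r
      kX P s = y * kX Q s' ∧ kR P s ≠ 0 ∧ kV P s ≠ 0 ∧ kcr y P Q s s' ≠ 0 ∧
      ndD y P Q s s' r w v ≠ 0 ∧ ∀ m : ℤ, -2 / w ≠ m * ndD y P Q s s' r w v :=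
  @Pool.Agent.HS.needle_pick_pr L h hP a b σ τ y hL hh hhP ha hab hσ hτ hv hw hy0 hy1 hyb

end Pool.Agent.HS
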