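import Pool.Agent.Lib_helper60.HSF.D_WZ

/-!
# Project HS, part Z, block ZE: implicit function theorem with a neighbourhood
-/

namespace Pool.Agent.HS

noncomputable section

open Set Filter Topology
open scoped ContDiff

theorem ift_pr {P E F : Type*} [NormedAddCommGroup P] [NormedSpace ℝ P] [CompleteSpace P]
    [NormedAddCommGroup E] [NormedSpace ℝ E] [CompleteSpace E] [NormedAddCommGroup F]
    [NormedSpace ℝ F] [CompleteSpace F] (f : P × E → F) (U : Set (P × E)) (hU : IsOpen U)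
    (hf : ContDiffOn ℝ 2 f U) (p0 : P) (e0 : E) (h0 : (p0, e0) ∈ U) (hz : f (p0, e0) = 0)
    (A : E ≃L[ℝ] F) (hA : HasFDerivAt (fun e => f (p0, e)) (A : E →L[ℝ] F) e0) (δ : ℝ)
    (hδ : 0 < δ) :
    ∃ r r' : ℝ, 0 < r ∧ 0 < r' ∧ r' ≤ δ ∧ ∃ g : P → E,
      ContDiffOn ℝ 2 g (Metric.ball p0 r) ∧ g p0 = e0 ∧
      ∀ p ∈ Metric.ball p0 r, g p ∈ Metric.ball e0 r' ∧ (p, g p) ∈ U ∧ f (p, g p) = 0 ∧
        ∀ e ∈ Metric.ball e0 r', (p, e) ∈ U → f (p, e) = 0 → e = g p := by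
  have hfa : ContDiffAt ℝ 2 f (p0, e0) := (hf _ h0).contDiffAt (hU.mem_nhds h0)
  set Φ : P × E → P × F := fun q => (q.1, f q) with hΦ
  have hΦa : ContDiffAt ℝ 2 Φ (p0, e0) := contDiffAt_fst.prodMk hfa
  have hfd : HasFDerivAt f (fderiv ℝ f (p0, e0)) (p0, e0) :=
    (hfa.differentiableAt (by norm_num)).hasFDerivAt
  set B : P →L[ℝ] F := (fderiv ℝ f (p0, e0)).comp (ContinuousLinearMap.inl ℝ P E) with hB
  have hAe : (A : E →L[ℝ] F) = (fderiv ℝ f (p0, e0)).comp (ContinuousLinearMap.inr ℝ P E) := by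
    have h1 : HasFDerivAt (fun e : E => (p0, e)) (ContinuousLinearMap.inr ℝ P E) e0 :=
      hasFDerivAt_prodMk_right p0 e0
    exact hA.unique (HasFDerivAt.comp e0 (f := fun e : E => (p0, e)) (g := f) hfd h1)
  have hL : HasFDerivAt Φ (((ContinuousLinearEquiv.refl ℝ P).skewProd A B :
      (P × E) ≃L[ℝ] P × F) : (P × E) →L[ℝ] P × F) (p0, e0) := by
    have h1 : HasFDerivAt Φ ((ContinuousLinearMap.fst ℝ P E).prod (fderiv ℝ f (p0, e0)))
        (p0, e0) := hasFDerivAt_fst.prodMk hfd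
    refine h1.congr_fderiv ?_
    ext x
    · simp
    · simp [hB]
    · simp
    · have := congrArg (fun T : E →L[ℝ] F => T x) hAe
      simpa using this.symm
  have h2n : (2 : WithTop ℕ∞) ≠ 0 := by norm_num
  set Ψ := hΦa.toOpenPartialHomeomorph Φ hL h2n with hΨ
  have hΨc : (Ψ : P × E → P × F) = Φ := rfl
  have hS : (p0, e0) ∈ Ψ.source := hΦa.mem_toOpenPartialHomeomorph_source hL h2n
  have hΦ0 : Φ (p0, e0) = (p0, 0) := by
    simp only [hΦ, hz]
  have hT : (p0, (0 : F)) ∈ Ψ.target := by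
    rw [← hΦ0]
    exact hΦa.image_mem_toOpenPartialHomeomorph_target hL h2n
  have hsymm0 : Ψ.symm (p0, 0) = (p0, e0) := by
    rw [← hΦ0, ← hΨc]
    exact Ψ.left_inv hS
  have hCD : ContDiffAt ℝ 2 Ψ.symm (p0, 0) := by
    rw [← hΦ0]
    exact hΦa.to_localInverse hL h2n
  -- the neighbourhood of the point
  have hSU : Ψ.source ∩ U ∈ 𝓝 (p0, e0) := (Ψ.open_source.inter hU).mem_nhds ⟨hS, h0⟩
  obtain ⟨ρ, hρ, hρS⟩ := Metric.mem_nhds_iff.mp hSU
  set r' : ℝ := min ρ δ with hr'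
  have hr'0 : 0 < r' := lt_min hρ hδ
  -- the neighbourhood of the parameter
  have hin : Continuous (fun p : P => (p, (0 : F))) := by fun_prop
  have e1 : ∀ᶠ p in 𝓝 p0, (p, (0 : F)) ∈ Ψ.target :=
    hin.continuousAt.eventually_mem (Ψ.open_target.mem_nhds hT)
  have e2 : ∀ᶠ p in 𝓝 p0, ContDiffAt ℝ 2 Ψ.symm (p, (0 : F)) := by
    have h1 := hCD.eventually (by decide)
    exact hin.continuousAt.eventually h1
  have e3 : ∀ᶠ p in 𝓝 p0, Ψ.symm (p, (0 : F)) ∈ Metric.ball (p0, e0) r' := by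
    have h1 : ContinuousAt Ψ.symm (p0, (0 : F)) := hCD.continuousAt
    have h2 : ContinuousAt (fun p : P => Ψ.symm (p, (0 : F))) p0 :=
      ContinuousAt.comp (f := fun p : P => (p, (0 : F))) (g := Ψ.symm) h1 hin.continuousAt
    refine h2.eventually_mem ?_
    rw [hsymm0]
    exact Metric.ball_mem_nhds _ hr'0
  obtain ⟨r1, hr1, hr1S⟩ := Metric.eventually_nhds_iff_ball.mp (e1.and (e2.and e3))
  refine ⟨min r1 ρ, r', lt_min hr1 hρ, hr'0, min_le_right _ _,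
    fun p => (Ψ.symm (p, (0 : F))).2, ?_, ?_, ?_⟩
  · intro p hp
    have hp1 : p ∈ Metric.ball p0 r1 := Metric.ball_subset_ball (min_le_left _ _) hp
    have h1 : ContDiffAt ℝ 2 (fun p : P => (p, (0 : F))) p := contDiffAt_id.prodMk contDiffAt_const
    have h2 : ContDiffAt ℝ 2 (fun p : P => Ψ.symm (p, (0 : F))) p :=
      ContDiffAt.comp p (f := fun p : P => (p, (0 : F))) (g := Ψ.symm) (hr1S p hp1).2.1 h1
    exact h2.snd.contDiffWithinAt
  · simp only [hsymm0]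
  · intro p hp
    have hp1 : p ∈ Metric.ball p0 r1 := Metric.ball_subset_ball (min_le_left _ _) hp
    have hpρ : p ∈ Metric.ball p0 ρ := Metric.ball_subset_ball (min_le_right _ _) hp
    obtain ⟨ht, -, hb⟩ := hr1S p hp1
    have hri : Φ (Ψ.symm (p, (0 : F))) = (p, 0) := by
      rw [← hΨc]
      exact Ψ.right_inv ht
    have hfst : (Ψ.symm (p, (0 : F))).1 = p := congrArg Prod.fst hri
    have heq : Ψ.symm (p, (0 : F)) = (p, (Ψ.symm (p, (0 : F))).2) := by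
      rw [Prod.ext_iff]
      exact ⟨hfst, rfl⟩
    have hsnd : f (Ψ.symm (p, (0 : F))) = 0 := congrArg Prod.snd hri
    have hbb : Ψ.symm (p, (0 : F)) ∈ Metric.ball (p0, e0) ρ :=
      Metric.ball_subset_ball (min_le_left _ _) hb
    refine ⟨?_, ?_, ?_, ?_⟩
    · rw [← ball_prod_same] at hb
      exact hb.2
    · rw [← heq]
      exact (hρS hbb).2
    · rw [← heq]
      exact hsnd
    · intro e he _ hfe
      have h1 : (p, e) ∈ Metric.ball (p0, e0) ρ := by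
        rw [← ball_prod_same]
        exact ⟨hpρ, Metric.ball_subset_ball (min_le_left _ _) he⟩
      have h2 : Ψ.symm (Φ (p, e)) = (p, e) := by
        rw [← hΨc]
        exact Ψ.left_inv (hρS h1).1
      have h3 : Φ (p, e) = (p, 0) := by
        simp only [hΦ, hfe]
      rw [h3] at h2
      exact (congrArg Prod.snd h2).symm

end

end Pool.Agent.HS

namespace Pool.Agent.HS
open Set Filter Topology
open scoped ContDiff

theorem ift {P E F : Type*} [NormedAddCommGroup P] [NormedSpace ℝ P] [CompleteSpace P]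
    [NormedAddCommGroup E] [NormedSpace ℝ E] [CompleteSpace E] [NormedAddCommGroup F]
    [NormedSpace ℝ F] [CompleteSpace F] (f : P × E → F) (U : Set (P × E)) (hU : IsOpen U)
    (hf : ContDiffOn ℝ 2 f U) (p0 : P) (e0 : E) (h0 : (p0, e0) ∈ U) (hz : f (p0, e0) = 0)
    (A : E ≃L[ℝ] F) (hA : HasFDerivAt (fun e => f (p0, e)) (A : E →L[ℝ] F) e0) (δ : ℝ)
    (hδ : 0 < δ) :
    ∃ r r' : ℝ, 0 < r ∧ 0 < r' ∧ r' ≤ δ ∧ ∃ g : P → E,
      ContDiffOn ℝ 2 g (Metric.ball p0 r) ∧ g p0 = e0 ∧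
      ∀ p ∈ Metric.ball p0 r, g p ∈ Metric.ball e0 r' ∧ (p, g p) ∈ U ∧ f (p, g p) = 0 ∧
        ∀ e ∈ Metric.ball e0 r', (p, e) ∈ U → f (p, e) = 0 → e = g p :=
  @Pool.Agent.HS.ift_pr P E F _ _ _ _ _ _ _ _ _ f U hU hf p0 e0 h0 hz A hA δ hδ

end Pool.Agent.HS
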