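import Pool.Agent.Lib_helper60.HSF.D_WM
import Pool.Agent.Lib_helper60.HSF.Z_ZE
import Pool.Agent.Lib_helper60.HSF.K_KA1
import Pool.Agent.Lib_helper60.HSF.K_KE1

/-!
# Part S1, M1, block MF: implicit function theorem for crossings
-/

namespace Pool.Agent.HS

noncomputable section

open Set Filter Topology
open scoped ContDiff

theorem mf_kr_cont : Continuous kr := by
  unfold kr
  fun_prop

theorem mf_kσ_cont : Continuous kσ := by
  unfold kσ
  exact Complex.continuous_re.comp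
    ((Complex.continuous_conj.comp continuous_fst).mul continuous_snd)

theorem mf_kh_at {y : KS} (h0 : y.1 ≠ 0) : ContinuousAt kh' y := by
  unfold kh'
  have h1 : ContinuousAt (fun y : KS => ‖y.2‖ ^ 2 / 2) y := by fun_prop
  have h2 : ContinuousAt (fun y : KS => 1 / ‖y.1‖) y := by
    apply ContinuousAt.div continuousAt_const (by fun_prop)
    simpa using h0
  exact h1.sub h2

theorem mf_kA_at {y : KS} (h : kh' y < 0) (h0 : y.1 ≠ 0) : ContinuousAt kA y := by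
  unfold kA
  apply ContinuousAt.div continuousAt_const
  · exact continuousAt_const.mul (mf_kh_at h0)
  · have := h.ne
    simpa using this

theorem mf_kR_at {p : KS × ℝ} (h : kh' p.1 < 0) (h0 : p.1.1 ≠ 0) :
    ContinuousAt (fun p : KS × ℝ => kR p.1 p.2) p := by
  have hA : ContinuousAt (fun p : KS × ℝ => kA p.1) p :=
    (mf_kA_at h h0).comp_of_eq continuousAt_fst rfl
  have hr : ContinuousAt (fun p : KS × ℝ => kr p.1) p :=
    (mf_kr_cont.comp continuous_fst).continuousAt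
  have hσ : ContinuousAt (fun p : KS × ℝ => kσ p.1) p :=
    (mf_kσ_cont.comp continuous_fst).continuousAt
  have hc : ContinuousAt (fun p : KS × ℝ => Real.cos p.2) p :=
    (Real.continuous_cos.comp continuous_snd).continuousAt
  have hs : ContinuousAt (fun p : KS × ℝ => Real.sin p.2) p :=
    (Real.continuous_sin.comp continuous_snd).continuousAt
  have hq : ContinuousAt (fun p : KS × ℝ => Real.sqrt (kA p.1)) p :=
    Real.continuous_sqrt.continuousAt.comp hA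
  unfold kR
  exact (hA.add ((hr.sub hA).mul hc)).add ((hq.mul hσ).mul hs)

theorem mf_kV_at {p : KS × ℝ} (h : kh' p.1 < 0) (h0 : p.1.1 ≠ 0) (hR : kR p.1 p.2 ≠ 0) :
    ContinuousAt (fun p : KS × ℝ => kV p.1 p.2) p := by
  have hA : ContinuousAt (fun p : KS × ℝ => kA p.1) p :=
    (mf_kA_at h h0).comp_of_eq continuousAt_fst rfl
  have hr : ContinuousAt (fun p : KS × ℝ => kr p.1) p :=
    (mf_kr_cont.comp continuous_fst).continuousAt
  have hσ : ContinuousAt (fun p : KS × ℝ => kσ p.1) p :=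
    (mf_kσ_cont.comp continuous_fst).continuousAt
  have hc : ContinuousAt (fun p : KS × ℝ => Real.cos p.2) p :=
    (Real.continuous_cos.comp continuous_snd).continuousAt
  have hs : ContinuousAt (fun p : KS × ℝ => Real.sin p.2) p :=
    (Real.continuous_sin.comp continuous_snd).continuousAt
  have hq : ContinuousAt (fun p : KS × ℝ => Real.sqrt (kA p.1)) p :=
    Real.continuous_sqrt.continuousAt.comp hA
  have hRc := mf_kR_at h h0
  have hpos : Real.sqrt (kA p.1) ≠ 0 := (Real.sqrt_pos.2 (kA_pos h)).ne'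
  have hr0 : kr p.1 ≠ 0 := by simpa [kr] using h0
  have h1 : ContinuousAt (fun p : KS × ℝ => (Real.sqrt (kA p.1) * kR p.1 p.2)⁻¹) p :=
    (hq.mul hRc).inv₀ (mul_ne_zero hpos hR)
  have h2 : ContinuousAt (fun p : KS × ℝ => -(kA p.1 / kr p.1) * Real.sin p.2) p :=
    ((hA.div hr hr0).neg).mul hs
  have h3 : ContinuousAt (fun p : KS × ℝ => Real.sqrt (kA p.1) * kr p.1 * Real.cos p.2 +
      kA p.1 * kσ p.1 * Real.sin p.2) p :=
    ((hq.mul hr).mul hc).add ((hA.mul hσ).mul hs)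
  have e1 : ContinuousAt (fun p : KS × ℝ => p.1.1) p := by fun_prop
  have e2 : ContinuousAt (fun p : KS × ℝ => p.1.2) p := by fun_prop
  unfold kV
  exact (Complex.continuous_ofReal.continuousAt.comp h1).mul
    (((Complex.continuous_ofReal.continuousAt.comp h2).mul e1).add
      ((Complex.continuous_ofReal.continuousAt.comp h3).mul e2))

theorem mf_kX_deriv {y : KS} (h : kh' y < 0) {s : ℝ} (hR : kR y s ≠ 0) :
    HasDerivAt (kX y) ((Real.sqrt (kA y) * kR y s : ℝ) * kV y s) s := by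
  have hpos : Real.sqrt (kA y) ≠ 0 := (Real.sqrt_pos.2 (kA_pos h)).ne'
  have h1 : HasDerivAt (fun s : ℝ => 1 - kA y / kr y * (1 - Real.cos s))
      (-(kA y / kr y) * Real.sin s) s := by
    have := (((Real.hasDerivAt_cos s).const_sub 1).const_mul (kA y / kr y)).const_sub 1
    refine this.congr_deriv ?_
    ring
  have h2 : HasDerivAt (fun s : ℝ => Real.sqrt (kA y) * kr y * Real.sin s +
      kA y * kσ y * (1 - Real.cos s))
      (Real.sqrt (kA y) * kr y * Real.cos s + kA y * kσ y * Real.sin s) s := by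
    have := ((Real.hasDerivAt_sin s).const_mul (Real.sqrt (kA y) * kr y)).add
      (((Real.hasDerivAt_cos s).const_sub 1).const_mul (kA y * kσ y))
    refine this.congr_deriv ?_
    ring
  have h3 := (h1.ofReal_comp.mul_const y.1).add (h2.ofReal_comp.mul_const y.2)
  refine h3.congr_deriv ?_
  unfold kV
  rw [← mul_assoc, ← Complex.ofReal_mul, mul_inv_cancel₀ (mul_ne_zero hpos hR)]
  simp

theorem cross_ift_pr (P Q : ℝ × ℝ × ℝ → KS) (q0 : ℝ × ℝ × ℝ) (U : Set (ℝ × ℝ × ℝ)) (hU : IsOpen U)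
    (h0 : q0 ∈ U) (hP : ContDiffOn ℝ 2 P U) (hQ : ContDiffOn ℝ 2 Q U)
    (hPU : ∀ q ∈ U, kh' (P q) < 0 ∧ (P q).1 ≠ 0) (hQU : ∀ q ∈ U, kh' (Q q) < 0 ∧ (Q q).1 ≠ 0)
    (y : ℂ) (s0 s0' : ℝ) (hc : kX (P q0) s0 = y * kX (Q q0) s0') (hR : kR (P q0) s0 ≠ 0)
    (hR' : kR (Q q0) s0' ≠ 0) (hW : kcr y (P q0) (Q q0) s0 s0' ≠ 0) :
    ∃ δ δ' : ℝ, 0 < δ ∧ 0 < δ' ∧ Metric.ball q0 δ ⊆ U ∧ ∃ s s' : ℝ × ℝ × ℝ → ℝ,
      s q0 = s0 ∧ s' q0 = s0' ∧ ContDiffOn ℝ 2 s (Metric.ball q0 δ) ∧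
      ContDiffOn ℝ 2 s' (Metric.ball q0 δ) ∧
      ∀ q ∈ Metric.ball q0 δ, kX (P q) (s q) = y * kX (Q q) (s' q) ∧ kR (P q) (s q) ≠ 0 ∧
        kR (Q q) (s' q) ≠ 0 ∧ kcr y (P q) (Q q) (s q) (s' q) ≠ 0 ∧
        ∀ t t', |t - s0| < δ' → |t' - s0'| < δ' → kX (P q) t = y * kX (Q q) t' →
          t = s q ∧ t' = s' q := by
  classical
  -- the domain
  set W : Set ((ℝ × ℝ × ℝ) × (ℝ × ℝ)) := {p | p.1 ∈ U ∧ kR (P p.1) p.2.1 ≠ 0 ∧
    kR (Q p.1) p.2.2 ≠ 0 ∧ kcr y (P p.1) (Q p.1) p.2.1 p.2.2 ≠ 0} with hWdef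
  have hPc : ∀ p : (ℝ × ℝ × ℝ) × (ℝ × ℝ), p.1 ∈ U →
      ContinuousAt (fun p : (ℝ × ℝ × ℝ) × (ℝ × ℝ) => ((P p.1, p.2.1) : KS × ℝ)) p := by
    intro p hp
    have h1 : ContinuousAt (fun p : (ℝ × ℝ × ℝ) × (ℝ × ℝ) => P p.1) p :=
      (hP.continuousOn.continuousAt (hU.mem_nhds hp)).comp_of_eq continuousAt_fst rfl
    have h2 : ContinuousAt (fun p : (ℝ × ℝ × ℝ) × (ℝ × ℝ) => p.2.1) p := by fun_prop
    exact h1.prodMk h2
  have hQc : ∀ p : (ℝ × ℝ × ℝ) × (ℝ × ℝ), p.1 ∈ U →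
      ContinuousAt (fun p : (ℝ × ℝ × ℝ) × (ℝ × ℝ) => ((Q p.1, p.2.2) : KS × ℝ)) p := by
    intro p hp
    have h1 : ContinuousAt (fun p : (ℝ × ℝ × ℝ) × (ℝ × ℝ) => Q p.1) p :=
      (hQ.continuousOn.continuousAt (hU.mem_nhds hp)).comp_of_eq continuousAt_fst rfl
    have h2 : ContinuousAt (fun p : (ℝ × ℝ × ℝ) × (ℝ × ℝ) => p.2.2) p := by fun_prop
    exact h1.prodMk h2
  have hWo : IsOpen W := by
    rw [isOpen_iff_eventually]
    rintro p ⟨hp, hp1, hp2, hp3⟩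
    have c1 : ContinuousAt (fun p : (ℝ × ℝ × ℝ) × (ℝ × ℝ) => kR (P p.1) p.2.1) p :=
      ContinuousAt.comp (g := fun z : KS × ℝ => kR z.1 z.2)
        (f := fun p : (ℝ × ℝ × ℝ) × (ℝ × ℝ) => ((P p.1, p.2.1) : KS × ℝ)) (x := p)
        (mf_kR_at (p := (P p.1, p.2.1)) (hPU _ hp).1 (hPU _ hp).2) (hPc p hp)
    have c2 : ContinuousAt (fun p : (ℝ × ℝ × ℝ) × (ℝ × ℝ) => kR (Q p.1) p.2.2) p :=
      ContinuousAt.comp (g := fun z : KS × ℝ => kR z.1 z.2)
        (f := fun p : (ℝ × ℝ × ℝ) × (ℝ × ℝ) => ((Q p.1, p.2.2) : KS × ℝ)) (x := p)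
        (mf_kR_at (p := (Q p.1, p.2.2)) (hQU _ hp).1 (hQU _ hp).2) (hQc p hp)
    have c3 : ContinuousAt (fun p : (ℝ × ℝ × ℝ) × (ℝ × ℝ) => kV (P p.1) p.2.1) p :=
      ContinuousAt.comp (g := fun z : KS × ℝ => kV z.1 z.2)
        (f := fun p : (ℝ × ℝ × ℝ) × (ℝ × ℝ) => ((P p.1, p.2.1) : KS × ℝ)) (x := p)
        (mf_kV_at (p := (P p.1, p.2.1)) (hPU _ hp).1 (hPU _ hp).2 hp1) (hPc p hp)
    have c4 : ContinuousAt (fun p : (ℝ × ℝ × ℝ) × (ℝ × ℝ) => kV (Q p.1) p.2.2) p :=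
      ContinuousAt.comp (g := fun z : KS × ℝ => kV z.1 z.2)
        (f := fun p : (ℝ × ℝ × ℝ) × (ℝ × ℝ) => ((Q p.1, p.2.2) : KS × ℝ)) (x := p)
        (mf_kV_at (p := (Q p.1, p.2.2)) (hQU _ hp).1 (hQU _ hp).2 hp2) (hQc p hp)
    have c5 : ContinuousAt (fun p : (ℝ × ℝ × ℝ) × (ℝ × ℝ) =>
        kcr y (P p.1) (Q p.1) p.2.1 p.2.2) p := by
      unfold kcr
      exact Complex.continuous_im.continuousAt.comp
        ((Complex.continuous_conj.continuousAt.comp c3).mul (continuousAt_const.mul c4))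
    have c0 : ∀ᶠ p' : (ℝ × ℝ × ℝ) × (ℝ × ℝ) in 𝓝 p, p'.1 ∈ U :=
      continuousAt_fst.eventually (hU.mem_nhds hp)
    filter_upwards [c0, c1.eventually_ne hp1, c2.eventually_ne hp2, c5.eventually_ne hp3]
      with p' a b c d
    exact ⟨a, b, c, d⟩
  have hmem : ((q0, (s0, s0')) : (ℝ × ℝ × ℝ) × (ℝ × ℝ)) ∈ W := ⟨h0, hR, hR', hW⟩
  -- the function
  set f : (ℝ × ℝ × ℝ) × (ℝ × ℝ) → ℂ := fun p => kX (P p.1) p.2.1 - y * kX (Q p.1) p.2.2
    with hfdef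
  have hf : ContDiffOn ℝ 2 f W := by
    have hXs : ContDiffOn ℝ 2 (fun p : KS × ℝ => kX p.1 p.2) {p | kh' p.1 < 0 ∧ p.1.1 ≠ 0} :=
      by exact_mod_cast contDiffOn_infty.1 kX_smooth 2
    have g1 : ContDiffOn ℝ 2 (fun p : (ℝ × ℝ × ℝ) × (ℝ × ℝ) => ((P p.1, p.2.1) : KS × ℝ)) W := by
      apply ContDiffOn.prodMk
      · exact hP.comp contDiff_fst.contDiffOn (fun p hp => hp.1)
      · exact (contDiff_fst.comp contDiff_snd).contDiffOn
    have g2 : ContDiffOn ℝ 2 (fun p : (ℝ × ℝ × ℝ) × (ℝ × ℝ) => ((Q p.1, p.2.2) : KS × ℝ)) W := by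
      apply ContDiffOn.prodMk
      · exact hQ.comp contDiff_fst.contDiffOn (fun p hp => hp.1)
      · exact (contDiff_snd.comp contDiff_snd).contDiffOn
    have k1 : ContDiffOn ℝ 2 (fun p : (ℝ × ℝ × ℝ) × (ℝ × ℝ) => kX (P p.1) p.2.1) W :=
      ContDiffOn.comp (g := fun z : KS × ℝ => kX z.1 z.2)
        (f := fun p : (ℝ × ℝ × ℝ) × (ℝ × ℝ) => ((P p.1, p.2.1) : KS × ℝ)) hXs g1
        (fun p hp => hPU _ hp.1)
    have k2 : ContDiffOn ℝ 2 (fun p : (ℝ × ℝ × ℝ) × (ℝ × ℝ) => kX (Q p.1) p.2.2) W :=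
      ContDiffOn.comp (g := fun z : KS × ℝ => kX z.1 z.2)
        (f := fun p : (ℝ × ℝ × ℝ) × (ℝ × ℝ) => ((Q p.1, p.2.2) : KS × ℝ)) hXs g2
        (fun p hp => hQU _ hp.1)
    exact k1.sub (contDiffOn_const.mul k2)
  have hz : f (q0, (s0, s0')) = 0 := by
    simp only [hfdef]
    rw [hc, sub_self]
  -- the derivative
  set e1 : ℂ := ((Real.sqrt (kA (P q0)) * kR (P q0) s0 : ℝ) : ℂ) * kV (P q0) s0 with he1
  set e2 : ℂ := -(y * (((Real.sqrt (kA (Q q0)) * kR (Q q0) s0' : ℝ) : ℂ) * kV (Q q0) s0')) with he2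
  have hdet : ((starRingEnd ℂ) e1 * e2).im ≠ 0 := by
    have h1 : ((starRingEnd ℂ) e1 * e2).im =
        -((Real.sqrt (kA (P q0)) * kR (P q0) s0) * (Real.sqrt (kA (Q q0)) * kR (Q q0) s0')) *
          kcr y (P q0) (Q q0) s0 s0' := by
      have : (starRingEnd ℂ) e1 * e2 =
          ((-((Real.sqrt (kA (P q0)) * kR (P q0) s0) *
            (Real.sqrt (kA (Q q0)) * kR (Q q0) s0')) : ℝ) : ℂ) *
          ((starRingEnd ℂ) (kV (P q0) s0) * (y * kV (Q q0) s0')) := by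
        rw [he1, he2, map_mul, Complex.conj_ofReal]
        push_cast
        ring
      rw [this, Complex.im_ofReal_mul]
      rfl
    rw [h1]
    refine mul_ne_zero (neg_ne_zero.2 (mul_ne_zero (mul_ne_zero ?_ hR) (mul_ne_zero ?_ hR'))) hW
    · exact (Real.sqrt_pos.2 (kA_pos (hPU _ h0).1)).ne'
    · exact (Real.sqrt_pos.2 (kA_pos (hQU _ h0).1)).ne'
  set Al : (ℝ × ℝ) →ₗ[ℝ] ℂ :=
    { toFun := fun u => (u.1 : ℂ) * e1 + (u.2 : ℂ) * e2
      map_add' := fun u v => by push_cast [Prod.fst_add, Prod.snd_add]; ring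
      map_smul' := fun c u => by
        simp only [Prod.smul_fst, Prod.smul_snd, smul_eq_mul, RingHom.id_apply,
          Complex.real_smul]
        push_cast
        ring } with hAl
  have hinj : Function.Injective Al := by
    rw [← LinearMap.ker_eq_bot, LinearMap.ker_eq_bot']
    rintro ⟨a, b⟩ hab
    have hab' : (a : ℂ) * e1 + (b : ℂ) * e2 = 0 := hab
    have hb : b = 0 := by
      have h1 : ((starRingEnd ℂ) e1 * ((a : ℂ) * e1 + (b : ℂ) * e2)).im = 0 := by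
        rw [hab']; simp
      have h2 : ((starRingEnd ℂ) e1 * ((a : ℂ) * e1 + (b : ℂ) * e2)).im =
          b * ((starRingEnd ℂ) e1 * e2).im := by
        simp only [Complex.mul_im, Complex.add_im, Complex.add_re, Complex.mul_re,
          Complex.conj_re, Complex.conj_im, Complex.ofReal_re, Complex.ofReal_im]
        ring
      rw [h2] at h1
      rcases mul_eq_zero.1 h1 with h | h
      · exact h
      · exact absurd h hdet
    have ha : a = 0 := by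
      have he1' : e1 ≠ 0 := by
        intro h
        apply hdet
        rw [h]; simp
      rw [hb] at hab'
      simp only [Complex.ofReal_zero, zero_mul, add_zero, mul_eq_zero,
        Complex.ofReal_eq_zero] at hab'
      rcases hab' with h | h
      · exact h
      · exact absurd h he1'
    rw [ha, hb]
    rfl
  have hdim : Module.finrank ℝ (ℝ × ℝ) = Module.finrank ℝ ℂ := by
    rw [Module.finrank_prod, Complex.finrank_real_complex, Module.finrank_self]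
  set Ae : (ℝ × ℝ) ≃ₗ[ℝ] ℂ := LinearMap.linearEquivOfInjective Al hinj hdim with hAe
  set A : (ℝ × ℝ) ≃L[ℝ] ℂ := Ae.toContinuousLinearEquiv with hA
  have hAval : ∀ u : ℝ × ℝ, A u = (u.1 : ℂ) * e1 + (u.2 : ℂ) * e2 := fun u => rfl
  have hder : HasFDerivAt (fun e : ℝ × ℝ => f (q0, e)) (A : (ℝ × ℝ) →L[ℝ] ℂ) (s0, s0') := by
    have d1 : HasDerivAt (kX (P q0)) e1 s0 := mf_kX_deriv (hPU _ h0).1 hR
    have d2 : HasDerivAt (kX (Q q0))
        (((Real.sqrt (kA (Q q0)) * kR (Q q0) s0' : ℝ) : ℂ) * kV (Q q0) s0') s0' :=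
      mf_kX_deriv (hQU _ h0).1 hR'
    have f1 : HasFDerivAt (fun e : ℝ × ℝ => kX (P q0) e.1)
        ((ContinuousLinearMap.toSpanSingleton ℝ e1).comp (ContinuousLinearMap.fst ℝ ℝ ℝ))
        (s0, s0') :=
      HasFDerivAt.comp (g := kX (P q0)) (f := fun e : ℝ × ℝ => e.1) (s0, s0')
        d1.hasFDerivAt hasFDerivAt_fst
    have f2 : HasFDerivAt (fun e : ℝ × ℝ => kX (Q q0) e.2)
        ((ContinuousLinearMap.toSpanSingleton ℝ
          (((Real.sqrt (kA (Q q0)) * kR (Q q0) s0' : ℝ) : ℂ) * kV (Q q0) s0')).comp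
            (ContinuousLinearMap.snd ℝ ℝ ℝ)) (s0, s0') :=
      HasFDerivAt.comp (g := kX (Q q0)) (f := fun e : ℝ × ℝ => e.2) (s0, s0')
        d2.hasFDerivAt hasFDerivAt_snd
    have f3 := f1.sub (f2.const_mul y)
    refine f3.congr_fderiv ?_
    ext
    all_goals
      simp [hAval, he2]
  obtain ⟨r, r', hr, hr', -, g, hgC, hg0, hg⟩ := ift f W hWo hf q0 (s0, s0') hmem hz A hder 1
    one_pos
  obtain ⟨ρ, hρ, hρW⟩ := Metric.isOpen_iff.1 hWo _ hmem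
  have hballU : ∀ q ∈ Metric.ball q0 (min r ρ), ∀ t t', |t - s0| < ρ → |t' - s0'| < ρ →
      ((q, (t, t')) : (ℝ × ℝ × ℝ) × (ℝ × ℝ)) ∈ W := by
    intro q hq t t' ht ht'
    apply hρW
    rw [Metric.mem_ball, Prod.dist_eq, Prod.dist_eq]
    refine max_lt ?_ (max_lt ?_ ?_)
    · exact lt_of_lt_of_le (Metric.mem_ball.1 hq) (min_le_right _ _)
    · rw [Real.dist_eq]; exact ht
    · rw [Real.dist_eq]; exact ht'
  refine ⟨min r ρ, min r' ρ, lt_min hr hρ, lt_min hr' hρ, ?_, fun q => (g q).1, fun q => (g q).2,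
    ?_, ?_, ?_, ?_, ?_⟩
  · intro q hq
    exact (hballU q hq s0 s0' (by simpa using hρ) (by simpa using hρ)).1
  · simp only [hg0]
  · simp only [hg0]
  · exact (contDiff_fst.comp_contDiffOn hgC).mono
      (Metric.ball_subset_ball (min_le_left _ _))
  · exact (contDiff_snd.comp_contDiffOn hgC).mono
      (Metric.ball_subset_ball (min_le_left _ _))
  · intro q hq
    obtain ⟨hg1, hg2, hg3, hg4⟩ := hg q (Metric.ball_subset_ball (min_le_left _ _) hq)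
    refine ⟨?_, hg2.2.1, hg2.2.2.1, hg2.2.2.2, ?_⟩
    · exact sub_eq_zero.1 hg3
    · intro t t' ht ht' he
      have h1 : ((t, t') : ℝ × ℝ) ∈ Metric.ball (s0, s0') r' := by
        rw [Metric.mem_ball, Prod.dist_eq, Real.dist_eq, Real.dist_eq]
        exact max_lt (ht.trans_le (min_le_left _ _)) (ht'.trans_le (min_le_left _ _))
      have h2 := hballU q hq t t' (ht.trans_le (min_le_right _ _))
        (ht'.trans_le (min_le_right _ _))
      have h3 := hg4 (t, t') h1 h2 (sub_eq_zero.2 he)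
      exact ⟨congrArg Prod.fst h3, congrArg Prod.snd h3⟩

end

end Pool.Agent.HS

namespace Pool.Agent.HS
open Set Filter Topology
open scoped ContDiff

theorem cross_ift (P Q : ℝ × ℝ × ℝ → KS) (q0 : ℝ × ℝ × ℝ) (U : Set (ℝ × ℝ × ℝ)) (hU : IsOpen U)
    (h0 : q0 ∈ U) (hP : ContDiffOn ℝ 2 P U) (hQ : ContDiffOn ℝ 2 Q U)
    (hPU : ∀ q ∈ U, kh' (P q) < 0 ∧ (P q).1 ≠ 0) (hQU : ∀ q ∈ U, kh' (Q q) < 0 ∧ (Q q).1 ≠ 0)
    (y : ℂ) (s0 s0' : ℝ) (hc : kX (P q0) s0 = y * kX (Q q0) s0') (hR : kR (P q0) s0 ≠ 0)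
    (hR' : kR (Q q0) s0' ≠ 0) (hW : kcr y (P q0) (Q q0) s0 s0' ≠ 0) :
    ∃ δ δ' : ℝ, 0 < δ ∧ 0 < δ' ∧ Metric.ball q0 δ ⊆ U ∧ ∃ s s' : ℝ × ℝ × ℝ → ℝ,
      s q0 = s0 ∧ s' q0 = s0' ∧ ContDiffOn ℝ 2 s (Metric.ball q0 δ) ∧
      ContDiffOn ℝ 2 s' (Metric.ball q0 δ) ∧
      ∀ q ∈ Metric.ball q0 δ, kX (P q) (s q) = y * kX (Q q) (s' q) ∧ kR (P q) (s q) ≠ 0 ∧
        kR (Q q) (s' q) ≠ 0 ∧ kcr y (P q) (Q q) (s q) (s' q) ≠ 0 ∧
        ∀ t t', |t - s0| < δ' → |t' - s0'| < δ' → kX (P q) t = y * kX (Q q) t' →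
          t = s q ∧ t' = s' q :=
  @Pool.Agent.HS.cross_ift_pr P Q q0 U hU h0 hP hQ hPU hQU y s0 s0' hc hR hR' hW

end Pool.Agent.HS
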