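import Pool.Agent.Lib_helper60.HSF.D_WM

/-!
# HSM block MG1: zeros on the torus
-/

namespace Pool.Agent.HS

noncomputable section

open Set Filter Topology
open scoped ContDiff

theorem torus_zeros_pr {X : Type*} [TopologicalSpace X] (f : X → ℝ → ℝ → ℂ) (q0 : X) (U : Set X)
    (hU : IsOpen U) (h0 : q0 ∈ U)
    (hf : ContinuousOn (fun p : X × ℝ × ℝ => f p.1 p.2.1 p.2.2) (U ×ˢ univ))
    (hper : ∀ q ∈ U, ∀ (s s' : ℝ) (m n : ℤ),
      f q (s + 2 * Real.pi * m) (s' + 2 * Real.pi * n) = f q s s')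
    (N : Set (ℝ × ℝ)) (hN : IsOpen N)
    (hNper : ∀ p ∈ N, ∀ m n : ℤ, (p.1 + 2 * Real.pi * m, p.2 + 2 * Real.pi * n) ∈ N)
    (hz : ∀ s s', f q0 s s' = 0 → (s, s') ∈ N) :
    ∀ᶠ q in 𝓝 q0, ∀ s s', f q s s' = 0 → (s, s') ∈ N := by
  have hpi : (0 : ℝ) < 2 * Real.pi := by positivity
  set K : Set (ℝ × ℝ) := (Icc 0 (2 * Real.pi) ×ˢ Icc 0 (2 * Real.pi)) \ N with hK
  have hKc : IsCompact K := (isCompact_Icc.prod isCompact_Icc).diff hN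
  have hmain : ∀ᶠ q in 𝓝 q0, ∀ p ∈ K, f q p.1 p.2 ≠ 0 := by
    refine hKc.eventually_forall_of_forall_eventually (P := fun q p => f q p.1 p.2 ≠ 0) ?_
    intro p hp
    have hc : ContinuousAt (fun p : X × ℝ × ℝ => f p.1 p.2.1 p.2.2) (q0, p) := by
      refine (hf (q0, p) ⟨h0, mem_univ _⟩).continuousAt ?_
      exact (hU.prod isOpen_univ).mem_nhds ⟨h0, mem_univ _⟩
    have hne : f q0 p.1 p.2 ≠ 0 := by
      intro h
      exact hp.2 (hz p.1 p.2 h)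
    exact hc.eventually_ne hne
  filter_upwards [hmain, hU.mem_nhds h0] with q hq hqU
  intro s s' hs
  -- reduce modulo the lattice
  set m : ℤ := ⌊s / (2 * Real.pi)⌋ with hm
  set n : ℤ := ⌊s' / (2 * Real.pi)⌋ with hn
  have hred : ∀ x : ℝ, x + 2 * Real.pi * (-(⌊x / (2 * Real.pi)⌋ : ℤ) : ℤ) ∈
      Icc 0 (2 * Real.pi) := by
    intro x
    have h1 : ((⌊x / (2 * Real.pi)⌋ : ℤ) : ℝ) ≤ x / (2 * Real.pi) := Int.floor_le _
    have h2 : x / (2 * Real.pi) < ((⌊x / (2 * Real.pi)⌋ : ℤ) : ℝ) + 1 := Int.lt_floor_add_one _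
    rw [le_div_iff₀ hpi] at h1
    rw [div_lt_iff₀ hpi] at h2
    push_cast
    constructor <;> nlinarith
  have h1 := hper q hqU s s' (-m) (-n)
  rw [hs] at h1
  have h2 : (s + 2 * Real.pi * ((-m : ℤ) : ℝ), s' + 2 * Real.pi * ((-n : ℤ) : ℝ)) ∈ N := by
    by_contra hcon
    exact hq (s + 2 * Real.pi * ((-m : ℤ) : ℝ), s' + 2 * Real.pi * ((-n : ℤ) : ℝ))
      ⟨⟨hred s, hred s'⟩, hcon⟩ h1
  have h3 := hNper _ h2 m n
  have e1 : s + 2 * Real.pi * ((-m : ℤ) : ℝ) + 2 * Real.pi * (m : ℝ) = s := by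
    push_cast; ring
  have e2 : s' + 2 * Real.pi * ((-n : ℤ) : ℝ) + 2 * Real.pi * (n : ℝ) = s' := by
    push_cast; ring
  simpa only [e1, e2] using h3

end

end Pool.Agent.HS

namespace Pool.Agent.HS
open Set Filter Topology
open scoped ContDiff

theorem torus_zeros {X : Type*} [TopologicalSpace X] (f : X → ℝ → ℝ → ℂ) (q0 : X) (U : Set X)
    (hU : IsOpen U) (h0 : q0 ∈ U)
    (hf : ContinuousOn (fun p : X × ℝ × ℝ => f p.1 p.2.1 p.2.2) (U ×ˢ univ))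
    (hper : ∀ q ∈ U, ∀ (s s' : ℝ) (m n : ℤ),
      f q (s + 2 * Real.pi * m) (s' + 2 * Real.pi * n) = f q s s')
    (N : Set (ℝ × ℝ)) (hN : IsOpen N)
    (hNper : ∀ p ∈ N, ∀ m n : ℤ, (p.1 + 2 * Real.pi * m, p.2 + 2 * Real.pi * n) ∈ N)
    (hz : ∀ s s', f q0 s s' = 0 → (s, s') ∈ N) :
    ∀ᶠ q in 𝓝 q0, ∀ s s', f q s s' = 0 → (s, s') ∈ N :=
  @Pool.Agent.HS.torus_zeros_pr X _ f q0 U hU h0 hf hper N hN hNper hz

end Pool.Agent.HS
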