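import Pool.Agent.Lib_helper60.HSF.D_WM
import Pool.Agent.Lib_helper60.HSF.M_MF
import Pool.Agent.Lib_helper60.HSF.M_MB2
import Pool.Agent.Lib_helper60.HSF.M_MB1
import Pool.Agent.Lib_helper60.HSF.K_KA1
import Pool.Agent.Lib_helper60.HSF.K_KF1
import Pool.Agent.Lib_helper60.HSF.M_MA
import Pool.Agent.Lib_helper60.HSF.K_KD2
import Pool.Agent.Lib_helper60.HSF.K_KB2
import Pool.Agent.Lib_helper60.HSF.K_KE1
import Pool.Agent.Lib_helper60.HSF.M_MG1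

namespace Pool.Agent.HS

noncomputable section

open Set Filter Topology
open scoped ContDiff

theorem mg2_kX0 (y : KS) : kX y 0 = y.1 := by
  simp [kX]

theorem mg2_kR0 (y : KS) : kR y 0 = kr y := by
  simp [kR]

theorem mg2_kV0 {y : KS} (h : kh' y < 0) (h0 : y.1 ≠ 0) : kV y 0 = y.2 := by
  have hA : 0 < kA y := kA_pos h
  have hr : 0 < kr y := norm_pos_iff.2 h0
  have h1 : Real.sqrt (kA y) * kr y ≠ 0 := mul_ne_zero (Real.sqrt_ne_zero'.2 hA) hr.ne'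
  simp only [kV, mg2_kR0, Real.sin_zero, Real.cos_zero, mul_zero, mul_one, add_zero,
    Complex.ofReal_zero, zero_mul, zero_add]
  rw [← mul_assoc, ← Complex.ofReal_mul, inv_mul_cancel₀ h1, Complex.ofReal_one, one_mul]

theorem mg2_kst (L : ℝ) (v : ℝ) {r : ℝ} (hr : 0 < r) :
    kL (kst L v r) = L ∧ kr (kst L v r) = r := by
  have h := kst_facts (L := L) (v := v) (r := r) (h := (v ^ 2 - 2 / r + L ^ 2 / r ^ 2) / 2) hr
    (by ring)
  exact ⟨h.2.1, h.2.2.1⟩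

theorem needle_two_pr (P Q : ℝ × ℝ × ℝ → KS) (q0 : ℝ × ℝ × ℝ) (U : Set (ℝ × ℝ × ℝ)) (hU : IsOpen U)
    (h0 : q0 ∈ U) (hP : ContDiffOn ℝ 2 P U) (hQ : ContDiffOn ℝ 2 Q U)
    (hPU : ∀ q ∈ U, kh' (P q) < 0 ∧ (P q).1 ≠ 0) (hQU : ∀ q ∈ U, kh' (Q q) < 0 ∧ (Q q).1 ≠ 0)
    (hPQ : ∀ q ∈ U, (P q).1 = (Q q).1) {w v L r : ℝ} (hr : 0 < r) (hL : L ≠ 0) (hw : w ≠ 0)
    (hP0 : P q0 = kst 0 w r) (hQ0 : Q q0 = kst L v r) :
    ∃ δ : ℝ, 0 < δ ∧ Metric.ball q0 δ ⊆ U ∧ ∃ sB sB' : ℝ × ℝ × ℝ → ℝ,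
      ContDiffOn ℝ 2 sB (Metric.ball q0 δ) ∧ ContDiffOn ℝ 2 sB' (Metric.ball q0 δ) ∧
      sB' q0 = 0 ∧ kR (P q0) (sB q0) = r ∧ kV (P q0) (sB q0) = ((-w : ℝ) : ℂ) ∧
      ∀ q ∈ Metric.ball q0 δ, kX (P q) (sB q) = kX (Q q) (sB' q) ∧
        Two (P q) (Q q) (sB q) (sB' q) := by
  obtain ⟨hPh, hP1⟩ := hPU q0 h0
  obtain ⟨hQh, hQ1⟩ := hQU q0 h0
  have hPr : kr (P q0) = r := by rw [hP0]; exact (mg2_kst 0 w hr).2
  have hQr : kr (Q q0) = r := by rw [hQ0]; exact (mg2_kst L v hr).2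
  have hQL : kL (Q q0) = L := by rw [hQ0]; exact (mg2_kst L v hr).1
  have hEl : Ell (Q q0) := ⟨hQh, by rw [hQL]; exact hL⟩
  have hQx : (Q q0).1 = (r : ℂ) := by rw [hQ0]; rfl
  have hPx : (P q0).1 = (r : ℂ) := by rw [hP0]; rfl
  have hP2 : (P q0).2 = (w : ℂ) := by rw [hP0]; simp [kst]
  have hQ2 : (Q q0).2 = (v : ℂ) + ((L / r : ℝ) : ℂ) * Complex.I := by rw [hQ0]; rfl
  have hPh' : kh' (kst 0 w r) < 0 := by rw [← hP0]; exact hPh
  obtain ⟨sB0, hB1, hB2, hB3, hB4⟩ := kn_return hr hw hPh'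
  rw [← hP0] at hB1 hB2 hB3 hB4
  have hLr : L / r ≠ 0 := div_ne_zero hL hr.ne'
  -- first crossing
  have c1 : kX (P q0) 0 = 1 * kX (Q q0) 0 := by
    rw [mg2_kX0, mg2_kX0, one_mul]; exact hPQ q0 h0
  have r1 : kR (P q0) 0 ≠ 0 := by rw [mg2_kR0, hPr]; exact hr.ne'
  have r1' : kR (Q q0) 0 ≠ 0 := by rw [mg2_kR0, hQr]; exact hr.ne'
  have w1 : kcr 1 (P q0) (Q q0) 0 0 ≠ 0 := by
    unfold kcr
    rw [mg2_kV0 hPh hP1, mg2_kV0 hQh hQ1, hP2, hQ2]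
    simp only [Complex.conj_ofReal, one_mul, Complex.mul_im, Complex.add_im, Complex.add_re,
      Complex.ofReal_im, Complex.ofReal_re, Complex.mul_re, Complex.I_re, Complex.I_im]
    simp only [mul_zero, mul_one, zero_mul, add_zero, zero_add, sub_zero]
    exact mul_ne_zero hw hLr
  obtain ⟨δ1, δ1', hδ1, hδ1', hb1, s1, s1', e1, e1', -, -, hall1⟩ :=
    cross_ift P Q q0 U hU h0 hP hQ hPU hQU 1 0 0 c1 r1 r1' w1
  -- second crossing
  have c2 : kX (P q0) sB0 = 1 * kX (Q q0) 0 := by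
    rw [hB2, mg2_kX0, one_mul, hQx]
  have r2 : kR (P q0) sB0 ≠ 0 := by rw [hB1]; exact hr.ne'
  have w2 : kcr 1 (P q0) (Q q0) sB0 0 ≠ 0 := by
    unfold kcr
    rw [hB3, mg2_kV0 hQh hQ1, hQ2]
    simp only [Complex.conj_ofReal, one_mul, Complex.mul_im, Complex.add_im, Complex.add_re,
      Complex.ofReal_im, Complex.ofReal_re, Complex.mul_re, Complex.I_re, Complex.I_im]
    simp only [mul_zero, mul_one, zero_mul, add_zero, zero_add, sub_zero]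
    exact mul_ne_zero (neg_ne_zero.2 hw) hLr
  obtain ⟨δ2, δ2', hδ2, hδ2', hb2, sB, sB', e2, e2', cB, cB', hall2⟩ :=
    cross_ift P Q q0 U hU h0 hP hQ hPU hQU 1 sB0 0 c2 r2 r1' w2
  -- the neighbourhood
  set N : Set (ℝ × ℝ) := {p | ∃ m n : ℤ,
    (|p.1 - 2 * Real.pi * m| < δ1' ∧ |p.2 - 2 * Real.pi * n| < δ1') ∨
    (|p.1 - 2 * Real.pi * m - sB0| < δ2' ∧ |p.2 - 2 * Real.pi * n| < δ2')} with hNdef
  have hNo : IsOpen N := by
    have h1 : N = ⋃ m : ℤ, ⋃ n : ℤ,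
        ({p : ℝ × ℝ | |p.1 - 2 * Real.pi * m| < δ1'} ∩ {p : ℝ × ℝ | |p.2 - 2 * Real.pi * n| < δ1'}) ∪
        ({p : ℝ × ℝ | |p.1 - 2 * Real.pi * m - sB0| < δ2'} ∩
          {p : ℝ × ℝ | |p.2 - 2 * Real.pi * n| < δ2'}) := by
      ext p
      simp only [hNdef, mem_ofPred_eq, mem_iUnion, mem_union, mem_inter_iff]
    rw [h1]
    refine isOpen_iUnion fun m => isOpen_iUnion fun n => ?_
    refine IsOpen.union (IsOpen.inter ?_ ?_) (IsOpen.inter ?_ ?_)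
    · exact isOpen_lt (by fun_prop) continuous_const
    · exact isOpen_lt (by fun_prop) continuous_const
    · exact isOpen_lt (by fun_prop) continuous_const
    · exact isOpen_lt (by fun_prop) continuous_const
  have hNper : ∀ p ∈ N, ∀ m n : ℤ, (p.1 + 2 * Real.pi * m, p.2 + 2 * Real.pi * n) ∈ N := by
    rintro p ⟨m0, n0, hp⟩ m n
    refine ⟨m0 + m, n0 + n, ?_⟩
    have a1 : p.1 + 2 * Real.pi * m - 2 * Real.pi * ((m0 + m : ℤ) : ℝ) =
        p.1 - 2 * Real.pi * m0 := by push_cast; ring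
    have a2 : p.2 + 2 * Real.pi * n - 2 * Real.pi * ((n0 + n : ℤ) : ℝ) =
        p.2 - 2 * Real.pi * n0 := by push_cast; ring
    simp only [a1, a2]
    exact hp
  have kXper : ∀ (y : KS) (s : ℝ) (n : ℤ), kX y (s + 2 * Real.pi * n) = kX y s := fun y s n =>
    congrArg Prod.fst (kY_per y s n)
  have hcont : ContinuousOn (fun p : (ℝ × ℝ × ℝ) × ℝ × ℝ => kX (P p.1) p.2.1 - kX (Q p.1) p.2.2)
      (U ×ˢ univ) := by
    refine ContinuousOn.sub ?_ ?_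
    · refine kX_smooth.continuousOn.comp
        (f := fun p : (ℝ × ℝ × ℝ) × ℝ × ℝ => ((P p.1, p.2.1) : KS × ℝ)) ?_ ?_
      · exact (hP.continuousOn.comp continuousOn_fst (fun p hp => hp.1)).prodMk
          (continuous_fst.comp continuous_snd).continuousOn
      · intro p hp
        exact hPU p.1 hp.1
    · refine kX_smooth.continuousOn.comp
        (f := fun p : (ℝ × ℝ × ℝ) × ℝ × ℝ => ((Q p.1, p.2.2) : KS × ℝ)) ?_ ?_
      · exact (hQ.continuousOn.comp continuousOn_fst (fun p hp => hp.1)).prodMk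
          (continuous_snd.comp continuous_snd).continuousOn
      · intro p hp
        exact hQU p.1 hp.1
  have hz : ∀ s s', kX (P q0) s - kX (Q q0) s' = 0 → (s, s') ∈ N := by
    intro s s' hss
    have hss' := sub_eq_zero.1 hss
    obtain ⟨E, -, -, hE⟩ := kn_form (w := w) hr hPh'
    have hx := (hE s).2.1
    rw [← hP0] at hx
    set ρ := kR (P q0) s with hρ
    have hρ0 : 0 ≤ ρ := kR_nonneg hPh hP1 s
    have hxQ : kX (Q q0) s' = ((ρ : ℝ) : ℂ) := by rw [← hss', hx]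
    have k1 := conic hEl s'
    have k0 := conic hEl 0
    rw [hxQ] at k1
    rw [mg2_kX0, hQx] at k0
    rw [Complex.norm_real, Real.norm_of_nonneg hρ0, Complex.re_mul_ofReal] at k1
    rw [Complex.norm_real, Real.norm_of_nonneg hr.le, Complex.re_mul_ofReal, hQL] at k0
    rw [hQL] at k1
    set e := ((starRingEnd ℂ) (kE (Q q0))).re with he
    have hL2 : 0 < L ^ 2 := by positivity
    have h1e : 0 < 1 + e := by
      have : 0 < r * (1 + e) := by nlinarith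
      exact (pos_iff_pos_of_mul_pos this).1 hr
    have hρr : ρ = r := by
      have : (ρ - r) * (1 + e) = 0 := by linarith
      rcases mul_eq_zero.1 this with h | h
      · linarith
      · exact absurd h h1e.ne'
    have hxQ' : kX (Q q0) 0 = kX (Q q0) s' := by
      rw [hxQ, mg2_kX0, hQx, hρr]
    obtain ⟨n, hn⟩ := kX_inj hEl hxQ'
    have hxP : kX (P q0) s = (r : ℂ) := by rw [hx, hρr]
    rcases hB4 s hxP with ⟨m, hm⟩ | ⟨m, hm⟩
    · refine ⟨m, n, Or.inl ⟨?_, ?_⟩⟩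
      · rw [hm, sub_self, abs_zero]; exact hδ1'
      · simp only [hn, zero_add, sub_self, abs_zero]; exact hδ1'
    · refine ⟨m, n, Or.inr ⟨?_, ?_⟩⟩
      · rw [hm]
        have : sB0 + 2 * Real.pi * (m : ℝ) - 2 * Real.pi * m - sB0 = 0 := by ring
        simp only [this, abs_zero]; exact hδ2'
      · simp only [hn, zero_add, sub_self, abs_zero]; exact hδ2'
  have htor := torus_zeros (fun q s s' => kX (P q) s - kX (Q q) s') q0 U hU h0 hcont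
    (fun q _ s s' m n => by simp only [kXper]) N hNo hNper hz
  obtain ⟨δ3, hδ3, hb3⟩ := Metric.eventually_nhds_iff_ball.1 htor
  refine ⟨min δ1 (min δ2 δ3), lt_min hδ1 (lt_min hδ2 hδ3),
    (Metric.ball_subset_ball (min_le_left _ _)).trans hb1, sB, sB',
    cB.mono (Metric.ball_subset_ball ((min_le_right _ _).trans (min_le_left _ _))),
    cB'.mono (Metric.ball_subset_ball ((min_le_right _ _).trans (min_le_left _ _))), e2',
    by rw [e2]; exact hB1, by rw [e2]; exact hB3, ?_⟩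
  intro q hq
  have q1 : q ∈ Metric.ball q0 δ1 := Metric.ball_subset_ball (min_le_left _ _) hq
  have q2 : q ∈ Metric.ball q0 δ2 :=
    Metric.ball_subset_ball ((min_le_right _ _).trans (min_le_left _ _)) hq
  have q3 : q ∈ Metric.ball q0 δ3 :=
    Metric.ball_subset_ball ((min_le_right _ _).trans (min_le_right _ _)) hq
  obtain ⟨-, -, -, -, u1⟩ := hall1 q q1
  obtain ⟨x2, -, -, -, u2⟩ := hall2 q q2
  refine ⟨by rw [x2, one_mul], ?_⟩
  have z1 : (0 : ℝ) = s1 q ∧ (0 : ℝ) = s1' q := by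
    refine u1 0 0 (by rw [sub_self, abs_zero]; exact hδ1') (by rw [sub_self, abs_zero]; exact hδ1') ?_
    rw [mg2_kX0, mg2_kX0, one_mul]
    exact hPQ q (hb1 q1)
  intro t t' htt
  obtain ⟨m, n, hmn⟩ := hb3 q q3 t t' (sub_eq_zero.2 htt)
  have hsh : kX (P q) (t - 2 * Real.pi * m) = 1 * kX (Q q) (t' - 2 * Real.pi * n) := by
    have a1 := kXper (P q) (t - 2 * Real.pi * m) m
    have a2 := kXper (Q q) (t' - 2 * Real.pi * n) n
    rw [sub_add_cancel] at a1 a2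
    rw [← a1, ← a2, htt, one_mul]
  rcases hmn with ⟨h1, h2⟩ | ⟨h1, h2⟩
  · left
    obtain ⟨a, b⟩ := u1 _ _ (by simpa using h1) (by simpa using h2) hsh
    refine ⟨m, n, ?_, ?_⟩
    · rw [← z1.1] at a; linarith
    · rw [← z1.2] at b; linarith
  · right
    obtain ⟨a, b⟩ := u2 _ _ (by simpa using h1) (by simpa using h2) hsh
    exact ⟨m, n, by linarith, by linarith⟩

end

end Pool.Agent.HS

namespace Pool.Agent.HS
open Set Filter Topology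
open scoped ContDiff

theorem needle_two (P Q : ℝ × ℝ × ℝ → KS) (q0 : ℝ × ℝ × ℝ) (U : Set (ℝ × ℝ × ℝ)) (hU : IsOpen U)
    (h0 : q0 ∈ U) (hP : ContDiffOn ℝ 2 P U) (hQ : ContDiffOn ℝ 2 Q U)
    (hPU : ∀ q ∈ U, kh' (P q) < 0 ∧ (P q).1 ≠ 0) (hQU : ∀ q ∈ U, kh' (Q q) < 0 ∧ (Q q).1 ≠ 0)
    (hPQ : ∀ q ∈ U, (P q).1 = (Q q).1) {w v L r : ℝ} (hr : 0 < r) (hL : L ≠ 0) (hw : w ≠ 0)
    (hP0 : P q0 = kst 0 w r) (hQ0 : Q q0 = kst L v r) :
    ∃ δ : ℝ, 0 < δ ∧ Metric.ball q0 δ ⊆ U ∧ ∃ sB sB' : ℝ × ℝ × ℝ → ℝ,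
      ContDiffOn ℝ 2 sB (Metric.ball q0 δ) ∧ ContDiffOn ℝ 2 sB' (Metric.ball q0 δ) ∧
      sB' q0 = 0 ∧ kR (P q0) (sB q0) = r ∧ kV (P q0) (sB q0) = ((-w : ℝ) : ℂ) ∧
      ∀ q ∈ Metric.ball q0 δ, kX (P q) (sB q) = kX (Q q) (sB' q) ∧
        Two (P q) (Q q) (sB q) (sB' q) :=
  @Pool.Agent.HS.needle_two_pr P Q q0 U hU h0 hP hQ hPU hQU hPQ w v L r hr hL hw hP0 hQ0

end Pool.Agent.HS
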