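import Pool.Agent.Lib_helper60.HSF.D_WZ

/-!
# Project HS, part Z, block ZC: constants (helper75)
-/

namespace Pool.Agent.HS

noncomputable section

open Set Filter Topology
open scoped ContDiff

/-- `t = 2^(-1/3)` and its bounds -/
theorem zc_t : ∃ t : ℝ, t = (2:ℝ) ^ (-(1/3) : ℝ) ∧ t ^ 3 = 1 / 2 ∧ 792 / 1000 < t ∧
    t < 795 / 1000 := by
  have h0 : 0 < (2:ℝ) ^ (-(1/3) : ℝ) := Real.rpow_pos_of_pos (by norm_num) _
  have h3 : ((2:ℝ) ^ (-(1/3) : ℝ)) ^ 3 = 1 / 2 := by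
    rw [← Real.rpow_natCast, ← Real.rpow_mul (by norm_num)]
    norm_num
  refine ⟨_, rfl, h3, ?_, ?_⟩
  · by_contra h
    push Not at h
    have := pow_le_pow_left₀ h0.le h 3
    rw [h3] at this
    norm_num at this
  · by_contra h
    push Not at h
    have := pow_le_pow_left₀ (by norm_num) h 3
    rw [h3] at this
    norm_num at this

theorem zc_h20 {t : ℝ} (ht : t = (2:ℝ) ^ (-(1/3) : ℝ)) : h20 = -t := by
  rw [ht]; rfl

theorem zc_be {t : ℝ} (ht : t = (2:ℝ) ^ (-(1/3) : ℝ)) : be = 2 * t := by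
  rw [ht]
  unfold be
  have h : (2:ℝ) * (2:ℝ) ^ (-(1/3) : ℝ) = (2:ℝ) ^ (1 + (-(1/3)) : ℝ) := by
    rw [Real.rpow_add (by norm_num), Real.rpow_one]
  rw [h]
  norm_num

theorem zc_d0 {t : ℝ} (ht : t = (2:ℝ) ^ (-(1/3) : ℝ)) : d0 = t - 1 / 2 := by
  unfold d0
  rw [zc_h20 ht]
  unfold h30
  ring

theorem kh_sq_pr : kh ^ 2 = 4 * d0 := by
  obtain ⟨t, ht, h3, h1, h2⟩ := zc_t
  unfold kh
  rw [Real.sq_sqrt]
  rw [zc_d0 ht]
  linarith

theorem rh_inv_pr : 1 / rh = mb ^ 2 * kh ^ 2 / 2 - h30 := by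
  unfold rh
  rw [one_div, inv_inv]

theorem E0_rh_pr : E0 + 1 / rh = ma * mb * kh ^ 2 / 2 := by
  obtain ⟨t, ht, h3, h1, h2⟩ := zc_t
  rw [rh_inv_pr, kh_sq_pr]
  unfold E0
  rw [zc_d0 ht, zc_h20 ht]
  unfold h30 ma mb
  ring

theorem be_cube_pr : be ^ 3 = 4 := by
  obtain ⟨t, ht, h3, h1, h2⟩ := zc_t
  rw [zc_be ht, mul_pow, h3]
  norm_num

theorem h20_be_pr : h20 = be * h30 := by
  obtain ⟨t, ht, h3, h1, h2⟩ := zc_t
  rw [zc_be ht, zc_h20 ht]
  unfold h30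
  ring

theorem z_bounds_pr : 29 / 100 < d0 ∧ d0 < 3 / 10 ∧ 108 / 100 < kh ∧ kh < 109 / 100 ∧
    12 / 10 < rh ∧ rh < 121 / 100 ∧ 16 / 10 < cc ∧ cc < 18 / 10 ∧ 158 / 100 < be ∧
    be < 159 / 100 ∧ 4 < mΛ ∧ mΛ < 6 ∧ E0 < -(7/10) := by
  obtain ⟨t, ht, h3, h1, h2⟩ := zc_t
  have hd := zc_d0 ht
  have hk2 := kh_sq_pr
  rw [hd] at hk2
  have hk0 : 0 ≤ kh := Real.sqrt_nonneg _
  have hk1 : 108 / 100 < kh := by nlinarith
  have hk3 : kh < 109 / 100 := by nlinarith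
  have hr := rh_inv_pr
  rw [hk2] at hr
  unfold mb h30 at hr
  have hr' : 1 / rh = (18 * t - 1) / 16 := by rw [hr]; ring
  have hr0 : 0 < rh := by
    have : 0 < 1 / rh := by rw [hr']; linarith
    exact one_div_pos.1 this
  have hr1 : rh * ((18 * t - 1) / 16) = 1 := by
    rw [← hr']; field_simp
  have hr2 : 12 / 10 < rh := by nlinarith
  have hr3 : rh < 121 / 100 := by nlinarith
  have hb := zc_be ht
  have hb1 : 158 / 100 < be := by rw [hb]; linarith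
  have hb2 : be < 159 / 100 := by rw [hb]; linarith
  have hrk : 0 < 3 * rh ^ 2 * kh := by positivity
  have hrr1 : (144 / 100 : ℝ) < rh ^ 2 := by nlinarith
  have hrr2 : rh ^ 2 < (14641 / 10000 : ℝ) := by nlinarith
  have hp1 : (144 / 100 : ℝ) * (108 / 100) < rh ^ 2 * kh :=
    mul_lt_mul'' hrr1 hk1 (by norm_num) (by norm_num)
  have hp2 : rh ^ 2 * kh < (14641 / 10000 : ℝ) * (109 / 100) :=
    mul_lt_mul'' hrr2 hk3 (by positivity) hk0
  have hc1 : 16 / 10 < cc := by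
    unfold cc
    rw [lt_div_iff₀ hrk]
    nlinarith
  have hc2 : cc < 18 / 10 := by
    unfold cc
    rw [div_lt_iff₀ hrk]
    nlinarith
  have hbb1 : (24964 / 10000 : ℝ) < be ^ 2 := by nlinarith
  have hbb2 : be ^ 2 < (25281 / 10000 : ℝ) := by nlinarith
  have hq1 : (1435 / 1000 : ℝ) < ma + mb * be := by unfold ma mb; linarith
  have hq2 : ma + mb * be < (14425 / 10000 : ℝ) := by unfold ma mb; linarith
  have hs1 : (1435 / 1000 : ℝ) * (24964 / 10000) < (ma + mb * be) * be ^ 2 :=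
    mul_lt_mul'' hq1 hbb1 (by norm_num) (by norm_num)
  have hs2 : (ma + mb * be) * be ^ 2 < (14425 / 10000 : ℝ) * (25281 / 10000) :=
    mul_lt_mul'' hq2 hbb2 (by linarith) (by positivity)
  have hu1 : (1435 / 1000 : ℝ) * (24964 / 10000) * (108 / 100) < (ma + mb * be) * be ^ 2 * kh :=
    mul_lt_mul'' hs1 hk1 (by norm_num) (by norm_num)
  have hu2 : (ma + mb * be) * be ^ 2 * kh < (14425 / 10000 : ℝ) * (25281 / 10000) * (109 / 100) :=
    mul_lt_mul'' hs2 hk3 (by nlinarith) hk0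
  have hΛ : mΛ = 3 / 2 * ((ma + mb * be) * be ^ 2 * kh) / rh := by unfold mΛ; ring
  have hm1 : 4 < mΛ := by
    rw [hΛ, lt_div_iff₀ hr0]
    nlinarith
  have hm2 : mΛ < 6 := by
    rw [hΛ, div_lt_iff₀ hr0]
    nlinarith
  refine ⟨by rw [hd]; linarith, by rw [hd]; linarith, hk1, hk3, hr2, hr3, hc1, hc2, hb1, hb2,
    hm1, hm2, ?_⟩
  unfold E0
  rw [zc_h20 ht]
  unfold h30 ma mb
  linarith

/-- scaling constant of the centre plane -/
theorem cc_eq_pr : cc * (ma * mb) * rh ^ 2 * kh = mb ^ 2 - ma ^ 2 := by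
  obtain ⟨-, -, hk, -, hr, -⟩ := z_bounds_pr
  have hk0 : kh ≠ 0 := by linarith
  have hr0 : rh ≠ 0 := by linarith
  unfold cc ma mb
  field_simp
  norm_num


end

end Pool.Agent.HS

namespace Pool.Agent.HS
open Set Filter Topology
open scoped ContDiff

theorem kh_sq : kh ^ 2 = 4 * d0 :=
  @Pool.Agent.HS.kh_sq_pr

end Pool.Agent.HS

namespace Pool.Agent.HS
open Set Filter Topology
open scoped ContDiff

theorem rh_inv : 1 / rh = mb ^ 2 * kh ^ 2 / 2 - h30 :=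
  @Pool.Agent.HS.rh_inv_pr

end Pool.Agent.HS

namespace Pool.Agent.HS
open Set Filter Topology
open scoped ContDiff

theorem E0_rh : E0 + 1 / rh = ma * mb * kh ^ 2 / 2 :=
  @Pool.Agent.HS.E0_rh_pr

end Pool.Agent.HS

namespace Pool.Agent.HS
open Set Filter Topology
open scoped ContDiff

theorem be_cube : be ^ 3 = 4 :=
  @Pool.Agent.HS.be_cube_pr

end Pool.Agent.HS

namespace Pool.Agent.HS
open Set Filter Topology
open scoped ContDiff

theorem h20_be : h20 = be * h30 :=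
  @Pool.Agent.HS.h20_be_pr

end Pool.Agent.HS

namespace Pool.Agent.HS
open Set Filter Topology
open scoped ContDiff

theorem z_bounds : 29 / 100 < d0 ∧ d0 < 3 / 10 ∧ 108 / 100 < kh ∧ kh < 109 / 100 ∧
    12 / 10 < rh ∧ rh < 121 / 100 ∧ 16 / 10 < cc ∧ cc < 18 / 10 ∧ 158 / 100 < be ∧
    be < 159 / 100 ∧ 4 < mΛ ∧ mΛ < 6 ∧ E0 < -(7/10) :=
  @Pool.Agent.HS.z_bounds_pr

end Pool.Agent.HS

namespace Pool.Agent.HS
open Set Filter Topology
open scoped ContDiff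

theorem cc_eq : cc * (ma * mb) * rh ^ 2 * kh = mb ^ 2 - ma ^ 2 :=
  @Pool.Agent.HS.cc_eq_pr

end Pool.Agent.HS
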