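import Pool.Agent.Lib_helper60.HSF.D_WN
import Pool.Agent.Lib_helper60.HSF.Z_ZC

/-!
# Part S1, block NA1: algebra of the parametrization
-/

namespace Pool.Agent.HS

noncomputable section

open Set Filter Topology
open scoped ContDiff

theorem na1_E0 : E0 = h30 * (ma + mb * be) := by
  unfold E0
  rw [h20_be]
  ring

theorem na1_be_pos : 0 < be := by
  have := z_bounds
  linarith [this.2.2.2.2.2.2.2.2.1]

theorem n_zero_pr : nq 0 = be ∧ nh3 0 = h30 ∧ nh2 0 = h20 := by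
  have h1 : nq 0 = be := by
    unfold nq be
    rw [add_zero]
  have hb := na1_be_pos
  have h2 : nh3 0 = h30 := by
    unfold nh3
    rw [h1, na1_E0]
    have h3 : (ma + mb * be) ≠ 0 := by
      unfold ma mb
      positivity
    field_simp
  refine ⟨h1, h2, ?_⟩
  unfold nh2
  rw [h1, h2, h20_be]

theorem n_neg_pr {ε : ℝ} (h : -2 < ε) : 0 < nq ε ∧ nh3 ε < 0 ∧ nh2 ε < 0 ∧
    ma * nh3 ε + mb * nh2 ε = E0 := by
  have h1 : 0 < nq ε := by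
    unfold nq
    exact Real.rpow_pos_of_pos (by linarith) _
  have hE : E0 < 0 := by
    have := z_bounds.2.2.2.2.2.2.2.2.2.2.2.2
    linarith
  have h2 : 0 < ma + mb * nq ε := by
    unfold ma mb
    positivity
  have h3 : nh3 ε < 0 := by
    unfold nh3
    exact div_neg_of_neg_of_pos hE h2
  refine ⟨h1, h3, ?_, ?_⟩
  · unfold nh2
    exact mul_neg_of_pos_of_neg h1 h3
  · unfold nh2
    have h4 : nh3 ε * (ma + mb * nq ε) = E0 := by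
      unfold nh3
      field_simp
    linarith

theorem n_ma_mb_pr (C : ℝ) (q : ℝ × ℝ × ℝ) : ma * nL3 C q + mb * nL2 C q = C ∧
    nL3 C q - nL2 C q = q.2.1 := by
  unfold nL3 nL2 ma mb
  constructor <;> ring

theorem na1_st {r v L : ℝ} (hr : 0 < r) :
    ((r : ℂ)) ≠ 0 ∧ kr ((r : ℂ), (v : ℂ) + ((L / r : ℝ) : ℂ) * Complex.I) = r ∧
    kh' ((r : ℂ), (v : ℂ) + ((L / r : ℝ) : ℂ) * Complex.I) =
      (v ^ 2 + L ^ 2 / r ^ 2) / 2 - 1 / r ∧
    kL ((r : ℂ), (v : ℂ) + ((L / r : ℝ) : ℂ) * Complex.I) = L ∧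
    kσ ((r : ℂ), (v : ℂ) + ((L / r : ℝ) : ℂ) * Complex.I) = r * v := by
  have hrn : ‖(r : ℂ)‖ = r := by
    rw [Complex.norm_real, Real.norm_eq_abs, abs_of_pos hr]
  refine ⟨by exact_mod_cast hr.ne', hrn, ?_, ?_, ?_⟩
  · unfold kh'
    rw [hrn]
    have h1 : ‖(v : ℂ) + ((L / r : ℝ) : ℂ) * Complex.I‖ ^ 2 = v ^ 2 + L ^ 2 / r ^ 2 := by
      rw [← Complex.normSq_eq_norm_sq, Complex.normSq_apply]
      simp
      ring
    rw [h1]
  · unfold kL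
    simp
    field_simp
  · unfold kσ
    simp

theorem n3_facts_pr {C : ℝ} {q : ℝ × ℝ × ℝ} (hq : q ∈ NR C) : 0 < nv3 C q ∧
    (n3 C q).1 ≠ 0 ∧ kr (n3 C q) = q.1 ∧ kh' (n3 C q) = nh3 q.2.2 ∧ kL (n3 C q) = nL3 C q ∧
    kσ (n3 C q) = q.1 * nv3 C q := by
  obtain ⟨hr, hε, h3, h2⟩ := hq
  have hv : 0 < nv3 C q := Real.sqrt_pos.mpr h3
  obtain ⟨a1, a2, a3, a4, a5⟩ := na1_st (v := nv3 C q) (L := nL3 C q) hr
  refine ⟨hv, a1, a2, a3.trans ?_, a4, a5⟩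
  have hv2 : nv3 C q ^ 2 = nw3 C q := Real.sq_sqrt h3.le
  rw [hv2]
  unfold nw3
  ring

theorem n2_facts_pr {C : ℝ} {q : ℝ × ℝ × ℝ} (hq : q ∈ NR C) : nv2 C q < 0 ∧
    (n2 C q).1 ≠ 0 ∧ kr (n2 C q) = q.1 ∧ kh' (n2 C q) = nh2 q.2.2 ∧ kL (n2 C q) = nL2 C q ∧
    kσ (n2 C q) = q.1 * nv2 C q := by
  obtain ⟨hr, hε, h3, h2⟩ := hq
  have hv : nv2 C q < 0 := neg_neg_of_pos (Real.sqrt_pos.mpr h2)
  obtain ⟨a1, a2, a3, a4, a5⟩ := na1_st (v := nv2 C q) (L := nL2 C q) hr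
  refine ⟨hv, a1, a2, a3.trans ?_, a4, a5⟩
  have hv2 : nv2 C q ^ 2 = nw2 C q := by
    unfold nv2
    rw [neg_sq]
    exact Real.sq_sqrt h2.le
  rw [hv2]
  unfold nw2
  ring

/-- the periods -/
theorem n_per_pr {C : ℝ} {q : ℝ × ℝ × ℝ} (hq : q ∈ NR C) :
    kPer (n3 C q) = (2 + q.2.2) * kPer (n2 C q) ∧ 0 < kPer (n2 C q) := by
  have hε : -2 < q.2.2 := hq.2.1
  obtain ⟨h1, h3, h2, h4⟩ := n_neg_pr hε
  have e3 := (n3_facts_pr hq).2.2.2.1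
  have e2 := (n2_facts_pr hq).2.2.2.1
  have hA2 : 0 < kA (n2 C q) := by
    unfold kA
    rw [e2]
    exact div_pos_of_neg_of_neg (by norm_num) (by linarith)
  have hA : kA (n3 C q) = nq q.2.2 * kA (n2 C q) := by
    unfold kA
    rw [e2, e3]
    unfold nh2
    have := h3.ne
    have := h1.ne'
    field_simp
  have hs : nq q.2.2 * Real.sqrt (nq q.2.2) = 2 + q.2.2 := by
    have hp : 0 < 2 + q.2.2 := by linarith
    unfold nq
    rw [Real.sqrt_eq_rpow, ← Real.rpow_mul hp.le, ← Real.rpow_add hp]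
    norm_num
  constructor
  · unfold kPer
    rw [hA, Real.sqrt_mul h1.le]
    calc 2 * Real.pi * (nq q.2.2 * kA (n2 C q)) *
          (Real.sqrt (nq q.2.2) * Real.sqrt (kA (n2 C q)))
        = (nq q.2.2 * Real.sqrt (nq q.2.2)) *
          (2 * Real.pi * kA (n2 C q) * Real.sqrt (kA (n2 C q))) := by ring
      _ = _ := by rw [hs]
  · unfold kPer
    have := Real.sqrt_pos.mpr hA2
    have := Real.pi_pos
    positivity

end

end Pool.Agent.HS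

namespace Pool.Agent.HS
open Set Filter Topology
open scoped ContDiff

theorem n_zero : nq 0 = be ∧ nh3 0 = h30 ∧ nh2 0 = h20 :=
  @Pool.Agent.HS.n_zero_pr

end Pool.Agent.HS

namespace Pool.Agent.HS
open Set Filter Topology
open scoped ContDiff

theorem n_neg {ε : ℝ} (h : -2 < ε) : 0 < nq ε ∧ nh3 ε < 0 ∧ nh2 ε < 0 ∧
    ma * nh3 ε + mb * nh2 ε = E0 :=
  @Pool.Agent.HS.n_neg_pr ε h

end Pool.Agent.HS

namespace Pool.Agent.HS
open Set Filter Topology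
open scoped ContDiff

theorem n_ma_mb (C : ℝ) (q : ℝ × ℝ × ℝ) : ma * nL3 C q + mb * nL2 C q = C ∧
    nL3 C q - nL2 C q = q.2.1 :=
  @Pool.Agent.HS.n_ma_mb_pr C q

end Pool.Agent.HS

namespace Pool.Agent.HS
open Set Filter Topology
open scoped ContDiff

theorem n3_facts {C : ℝ} {q : ℝ × ℝ × ℝ} (hq : q ∈ NR C) : 0 < nv3 C q ∧
    (n3 C q).1 ≠ 0 ∧ kr (n3 C q) = q.1 ∧ kh' (n3 C q) = nh3 q.2.2 ∧ kL (n3 C q) = nL3 C q ∧
    kσ (n3 C q) = q.1 * nv3 C q :=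
  @Pool.Agent.HS.n3_facts_pr C q hq

end Pool.Agent.HS

namespace Pool.Agent.HS
open Set Filter Topology
open scoped ContDiff

theorem n2_facts {C : ℝ} {q : ℝ × ℝ × ℝ} (hq : q ∈ NR C) : nv2 C q < 0 ∧
    (n2 C q).1 ≠ 0 ∧ kr (n2 C q) = q.1 ∧ kh' (n2 C q) = nh2 q.2.2 ∧ kL (n2 C q) = nL2 C q ∧
    kσ (n2 C q) = q.1 * nv2 C q :=
  @Pool.Agent.HS.n2_facts_pr C q hq

end Pool.Agent.HS

namespace Pool.Agent.HS
open Set Filter Topology
open scoped ContDiff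

theorem n_per {C : ℝ} {q : ℝ × ℝ × ℝ} (hq : q ∈ NR C) :
    kPer (n3 C q) = (2 + q.2.2) * kPer (n2 C q) ∧ 0 < kPer (n2 C q) :=
  @Pool.Agent.HS.n_per_pr C q hq

end Pool.Agent.HS
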