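import Pool.Agent.Lib_helper60.HSF.D_WN
import Pool.Agent.Lib_helper60.HSF.M_NA1

namespace Pool.Agent.HS

noncomputable section

open Set Filter Topology
open scoped ContDiff

theorem nb_w (C : ℝ) : ContDiffOn ℝ ∞ (nw3 C) {q | 0 < q.1 ∧ -2 < q.2.2} ∧
    ContDiffOn ℝ ∞ (nw2 C) {q | 0 < q.1 ∧ -2 < q.2.2} := by
  have h1 : ContDiff ℝ ∞ (fun q : ℝ × ℝ × ℝ => q.1) := contDiff_fst
  have h2 : ContDiff ℝ ∞ (fun q : ℝ × ℝ × ℝ => q.2.1) := contDiff_fst.comp contDiff_snd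
  have h3 : ContDiff ℝ ∞ (fun q : ℝ × ℝ × ℝ => q.2.2) := contDiff_snd.comp contDiff_snd
  have hnq : ContDiffOn ℝ ∞ (fun q : ℝ × ℝ × ℝ => nq q.2.2) {q | 0 < q.1 ∧ -2 < q.2.2} := by
    have : ContDiffOn ℝ ∞ (fun q : ℝ × ℝ × ℝ => 2 + q.2.2) {q | 0 < q.1 ∧ -2 < q.2.2} :=
      (contDiff_const.add h3).contDiffOn
    exact this.rpow_const_of_ne fun q hq => by
      have := hq.2
      exact ne_of_gt (by linarith)
  have hd : ∀ q ∈ {q : ℝ × ℝ × ℝ | 0 < q.1 ∧ -2 < q.2.2}, ma + mb * nq q.2.2 ≠ 0 := by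
    intro q hq
    have h := (n_neg hq.2).1
    have : 0 < ma + mb * nq q.2.2 := by
      unfold ma mb
      linarith
    exact this.ne'
  have hn3 : ContDiffOn ℝ ∞ (fun q : ℝ × ℝ × ℝ => nh3 q.2.2) {q | 0 < q.1 ∧ -2 < q.2.2} :=
    contDiffOn_const.div (contDiffOn_const.add (contDiffOn_const.mul hnq)) hd
  have hn2 : ContDiffOn ℝ ∞ (fun q : ℝ × ℝ × ℝ => nh2 q.2.2) {q | 0 < q.1 ∧ -2 < q.2.2} :=
    hnq.mul hn3
  have hL3 : ContDiffOn ℝ ∞ (fun q : ℝ × ℝ × ℝ => nL3 C q) {q | 0 < q.1 ∧ -2 < q.2.2} :=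
    (contDiff_const.add (contDiff_const.mul h2)).contDiffOn
  have hL2 : ContDiffOn ℝ ∞ (fun q : ℝ × ℝ × ℝ => nL2 C q) {q | 0 < q.1 ∧ -2 < q.2.2} :=
    (contDiff_const.sub (contDiff_const.mul h2)).contDiffOn
  have hr : ContDiffOn ℝ ∞ (fun q : ℝ × ℝ × ℝ => 2 / q.1) {q | 0 < q.1 ∧ -2 < q.2.2} :=
    contDiffOn_const.div h1.contDiffOn fun q hq => hq.1.ne'
  constructor
  · exact ((contDiffOn_const.mul hn3).add hr).sub ((hL3.pow 2).div (h1.contDiffOn.pow 2)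
      fun q hq => pow_ne_zero 2 hq.1.ne')
  · exact ((contDiffOn_const.mul hn2).add hr).sub ((hL2.pow 2).div (h1.contDiffOn.pow 2)
      fun q hq => pow_ne_zero 2 hq.1.ne')

theorem n_smooth_pr {C : ℝ} (hC : C ≠ 0) : IsOpen (NR C) ∧ ContDiffOn ℝ ∞ (n3 C) (NR C) ∧
    ContDiffOn ℝ ∞ (n2 C) (NR C) ∧ ContDiffOn ℝ ∞ (nX C) (NR C) ∧
    ContDiffOn ℝ ∞ (nχ C) (NR C) := by
  have h1 : ContDiff ℝ ∞ (fun q : ℝ × ℝ × ℝ => q.1) := contDiff_fst
  have h2 : ContDiff ℝ ∞ (fun q : ℝ × ℝ × ℝ => q.2.1) := contDiff_fst.comp contDiff_snd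
  obtain ⟨w3, w2⟩ := nb_w C
  have hsub : NR C ⊆ {q | 0 < q.1 ∧ -2 < q.2.2} := fun q hq => ⟨hq.1, hq.2.1⟩
  have hU : IsOpen {q : ℝ × ℝ × ℝ | 0 < q.1 ∧ -2 < q.2.2} := by
    apply IsOpen.inter
    · exact isOpen_lt continuous_const continuous_fst
    · exact isOpen_lt continuous_const (continuous_snd.comp continuous_snd)
  have hopen : IsOpen (NR C) := by
    have e : NR C = ({q : ℝ × ℝ × ℝ | 0 < q.1 ∧ -2 < q.2.2} ∩ nw3 C ⁻¹' Ioi 0) ∩
        ({q : ℝ × ℝ × ℝ | 0 < q.1 ∧ -2 < q.2.2} ∩ nw2 C ⁻¹' Ioi 0) := by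
      ext q
      constructor
      · rintro ⟨a, b, c, d⟩
        exact ⟨⟨⟨a, b⟩, c⟩, ⟨⟨a, b⟩, d⟩⟩
      · rintro ⟨⟨⟨a, b⟩, c⟩, ⟨_, d⟩⟩
        exact ⟨a, b, c, d⟩
    rw [e]
    exact (w3.continuousOn.isOpen_inter_preimage hU isOpen_Ioi).inter
      (w2.continuousOn.isOpen_inter_preimage hU isOpen_Ioi)
  have v3 : ContDiffOn ℝ ∞ (nv3 C) (NR C) :=
    (w3.mono hsub).sqrt fun q hq => ne_of_gt hq.2.2.1
  have v2 : ContDiffOn ℝ ∞ (nv2 C) (NR C) :=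
    ((w2.mono hsub).sqrt fun q hq => ne_of_gt hq.2.2.2).neg
  have c1 : ContDiffOn ℝ ∞ (fun q : ℝ × ℝ × ℝ => q.1) (NR C) := h1.contDiffOn
  have hL3 : ContDiffOn ℝ ∞ (fun q : ℝ × ℝ × ℝ => nL3 C q / q.1) (NR C) :=
    (contDiff_const.add (contDiff_const.mul h2)).contDiffOn.div c1 fun q hq => hq.1.ne'
  have hL2 : ContDiffOn ℝ ∞ (fun q : ℝ × ℝ × ℝ => nL2 C q / q.1) (NR C) :=
    (contDiff_const.sub (contDiff_const.mul h2)).contDiffOn.div c1 fun q hq => hq.1.ne'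
  have oc : ContDiff ℝ ∞ (fun x : ℝ => (x : ℂ)) := Complex.ofRealCLM.contDiff
  have hnx : ContDiffOn ℝ ∞ (fun q : ℝ × ℝ × ℝ => nx C q.1) (NR C) := by
    unfold nx
    exact ((contDiff_const.mul (h1.sub contDiff_const)).div_const C).sub contDiff_const
      |>.contDiffOn
  refine ⟨hopen, ?_, ?_, ?_, ?_⟩
  · exact (oc.comp_contDiffOn c1).prodMk ((oc.comp_contDiffOn v3).add
      ((oc.comp_contDiffOn hL3).mul contDiffOn_const))
  · exact (oc.comp_contDiffOn c1).prodMk ((oc.comp_contDiffOn v2).add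
      ((oc.comp_contDiffOn hL2).mul contDiffOn_const))
  · exact hnx.prodMk (((((contDiffOn_const.mul ((contDiffOn_const.mul v3).add
      (contDiffOn_const.mul v2))).div_const C).sub contDiffOn_const)).sub
      (contDiffOn_const.mul hnx))
  · have hd : ∀ q ∈ NR C, nv3 C q - nv2 C q ≠ 0 := by
      intro q hq
      have a := Real.sqrt_pos.mpr hq.2.2.1
      have b := Real.sqrt_pos.mpr hq.2.2.2
      have : nv3 C q - nv2 C q = Real.sqrt (nw3 C q) + Real.sqrt (nw2 C q) := by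
        unfold nv3 nv2; ring
      rw [this]
      positivity
    exact Real.contDiff_arctan.comp_contDiffOn
      ((h2.contDiffOn.div c1 fun q hq => hq.1.ne').div (v3.sub v2) hd)

/-- `∂χ (h3 - h2) = C zX` -/
theorem z_denergy_pr {C : ℝ} {X : ℝ × ℝ} (hr : 0 < zr C X) (χ : ℝ) :
    HasDerivAt (fun χ => kh' (z3 C X χ) - kh' (z2 C X χ)) (C * zX C X χ) χ := by
  set k : ℝ := zk C X with hk
  set u1 : ℝ := zϖ X / rh with hu1
  set u2 : ℝ := 1 / zr C X with hu2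
  have hU : zU C X = (u1 : ℂ) + (u2 : ℂ) * Complex.I := rfl
  have hw : ∀ χ, zw C X χ = (k : ℂ) * ((Real.cos χ : ℂ) + (Real.sin χ : ℂ) * Complex.I) := by
    intro χ
    unfold zw
    rw [Complex.exp_mul_I, ← Complex.ofReal_cos, ← Complex.ofReal_sin]
  have key : ∀ χ, kh' (z3 C X χ) - kh' (z2 C X χ) =
      C * (k * (u1 * Real.cos χ + u2 * Real.sin χ)) + (mb ^ 2 - ma ^ 2) * k ^ 2 / 2 := by
    intro χ
    have e3 : (z3 C X χ).2 = ((C * u1 + mb * (k * Real.cos χ) : ℝ) : ℂ) +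
        ((C * u2 + mb * (k * Real.sin χ) : ℝ) : ℂ) * Complex.I := by
      show (C : ℂ) * zU C X + (mb : ℂ) * zw C X χ = _
      rw [hU, hw]
      push_cast
      ring
    have e2 : (z2 C X χ).2 = ((C * u1 - ma * (k * Real.cos χ) : ℝ) : ℂ) +
        ((C * u2 - ma * (k * Real.sin χ) : ℝ) : ℂ) * Complex.I := by
      show (C : ℂ) * zU C X - (ma : ℂ) * zw C X χ = _
      rw [hU, hw]
      push_cast
      ring
    have n3 : ‖(z3 C X χ).2‖ ^ 2 = (C * u1 + mb * (k * Real.cos χ)) ^ 2 +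
        (C * u2 + mb * (k * Real.sin χ)) ^ 2 := by
      rw [e3, Complex.sq_norm, Complex.normSq_add_mul_I]
    have n2 : ‖(z2 C X χ).2‖ ^ 2 = (C * u1 - ma * (k * Real.cos χ)) ^ 2 +
        (C * u2 - ma * (k * Real.sin χ)) ^ 2 := by
      rw [e2, Complex.sq_norm, Complex.normSq_add_mul_I]
    have n1 : (z3 C X χ).1 = (z2 C X χ).1 := rfl
    unfold kh'
    rw [n3, n2, n1]
    have hs := Real.sin_sq_add_cos_sq χ
    unfold ma mb
    linear_combination (1 / 4 * k ^ 2) * hs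
  have hX : zX C X χ = k * (-(u1 * Real.sin χ) + u2 * Real.cos χ) := by
    unfold zX
    rw [hw, hU]
    simp only [map_mul, map_add, Complex.conj_ofReal, Complex.conj_I, Complex.mul_im,
      Complex.mul_re, Complex.add_re, Complex.add_im, Complex.ofReal_re, Complex.ofReal_im,
      Complex.neg_re, Complex.neg_im, Complex.I_re, Complex.I_im]
    ring
  have hf : (fun χ => kh' (z3 C X χ) - kh' (z2 C X χ)) = fun χ =>
      C * (k * (u1 * Real.cos χ + u2 * Real.sin χ)) + (mb ^ 2 - ma ^ 2) * k ^ 2 / 2 := by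
    funext χ
    exact key χ
  rw [hf, hX]
  have hd := (((((Real.hasDerivAt_cos χ).const_mul u1).add
    ((Real.hasDerivAt_sin χ).const_mul u2)).const_mul k).const_mul C).add_const
      ((mb ^ 2 - ma ^ 2) * k ^ 2 / 2)
  refine hd.congr_deriv ?_
  ring


end

end Pool.Agent.HS

namespace Pool.Agent.HS
open Set Filter Topology
open scoped ContDiff

theorem n_smooth {C : ℝ} (hC : C ≠ 0) : IsOpen (NR C) ∧ ContDiffOn ℝ ∞ (n3 C) (NR C) ∧
    ContDiffOn ℝ ∞ (n2 C) (NR C) ∧ ContDiffOn ℝ ∞ (nX C) (NR C) ∧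
    ContDiffOn ℝ ∞ (nχ C) (NR C) :=
  @Pool.Agent.HS.n_smooth_pr C hC

end Pool.Agent.HS

namespace Pool.Agent.HS
open Set Filter Topology
open scoped ContDiff

theorem z_denergy {C : ℝ} {X : ℝ × ℝ} (hr : 0 < zr C X) (χ : ℝ) :
    HasDerivAt (fun χ => kh' (z3 C X χ) - kh' (z2 C X χ)) (C * zX C X χ) χ :=
  @Pool.Agent.HS.z_denergy_pr C X hr χ

end Pool.Agent.HS
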