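import Pool.Agent.Lib_helper60.HSF.D_WM
import Pool.Agent.Lib_helper60.HSF.K_KA1
import Pool.Agent.Lib_helper60.HSF.M_NA1
import Pool.Agent.Lib_helper60.HSF.M_ME
import Pool.Agent.Lib_helper60.HSF.M_NB
import Pool.Agent.Lib_helper60.HSF.M_MF
import Pool.Agent.Lib_helper60.HSF.M_MG2
import Pool.Agent.Lib_helper60.HSF.M_MA
import Pool.Agent.Lib_helper60.HSF.Z_ZC
import Pool.Agent.Lib_helper60.HSF.M_MC

namespace Pool.Agent.HS

noncomputable section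

open Set Filter Topology
open scoped ContDiff

theorem mh_kst (L v : ℝ) {r : ℝ} (hr : 0 < r) :
    kL (kst L v r) = L ∧ kr (kst L v r) = r ∧ kσ (kst L v r) = r * v := by
  have h := kst_facts (L := L) (v := v) (r := r) (h := (v ^ 2 - 2 / r + L ^ 2 / r ^ 2) / 2) hr
    (by ring)
  exact ⟨h.2.1, h.2.2.1, h.2.2.2.1⟩

theorem mh_curve {lam r0 δ : ℝ} {f : ℝ × ℝ × ℝ → ℝ}
    (hδ : 0 < δ) (hf : ContDiffOn ℝ 2 f (Metric.ball (r0, lam, (0:ℝ)) δ)) :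
    DifferentiableAt ℝ (fun r => f (r, lam, (0:ℝ))) r0 := by
  have h1 : DifferentiableAt ℝ f (r0, lam, (0:ℝ)) :=
    (hf.contDiffAt (Metric.ball_mem_nhds _ hδ)).differentiableAt (by norm_num)
  exact h1.comp r0 (f := fun r : ℝ => ((r, lam, (0:ℝ)) : ℝ × ℝ × ℝ)) (by fun_prop)

/-- derivative of the time difference along the needle curve -/
theorem mh_deriv (P Q : ℝ × ℝ × ℝ → KS) {L h hP' σ τ a b lam r0 δ : ℝ} {y : ℂ} (hL : L ≠ 0)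
    (hh : h < 0) (hhP : hP' < 0) (ha : 0 < a) (hσ : σ = 1 ∨ σ = -1) (hτ : τ = 1 ∨ τ = -1)
    (hv : ∀ r ∈ Ioo a b, 0 < 2 * h + 2 / r - L ^ 2 / r ^ 2)
    (hw : ∀ r ∈ Ioo a b, 0 < 2 * hP' + 2 / r)
    (hPn : ∀ r ∈ Ioo a b, P (r, lam, 0) = kst 0 (σ * Real.sqrt (2 * hP' + 2 / r)) r)
    (hQn : ∀ r ∈ Ioo a b, Q (r, lam, 0) = kst L (τ * Real.sqrt (2 * h + 2 / r - L ^ 2 / r ^ 2)) r)
    (hr0 : r0 ∈ Ioo a b) (hδ : 0 < δ) (s s' : ℝ × ℝ × ℝ → ℝ)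
    (hs : ContDiffOn ℝ 2 s (Metric.ball (r0, lam, (0:ℝ)) δ))
    (hs' : ContDiffOn ℝ 2 s' (Metric.ball (r0, lam, (0:ℝ)) δ))
    (hX : ∀ q ∈ Metric.ball (r0, lam, (0:ℝ)) δ, kX (P q) (s q) = y * kX (Q q) (s' q))
    (hR : kR (kst 0 (σ * Real.sqrt (2 * hP' + 2 / r0)) r0) (s (r0, lam, 0)) ≠ 0)
    (hV : kV (kst 0 (σ * Real.sqrt (2 * hP' + 2 / r0)) r0) (s (r0, lam, 0)) ≠ 0) :
    deriv (fun r => kT (P (r, lam, (0:ℝ))) (s (r, lam, 0)) -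
        kT (Q (r, lam, (0:ℝ))) (s' (r, lam, 0))) r0 =
      ndD y (kst 0 (σ * Real.sqrt (2 * hP' + 2 / r0)) r0)
        (kst L (τ * Real.sqrt (2 * h + 2 / r0 - L ^ 2 / r0 ^ 2)) r0) (s (r0, lam, 0))
        (s' (r0, lam, 0)) r0 (σ * Real.sqrt (2 * hP' + 2 / r0))
        (τ * Real.sqrt (2 * h + 2 / r0 - L ^ 2 / r0 ^ 2)) := by
  have hr0p : 0 < r0 := ha.trans hr0.1
  have hσ2 : σ ^ 2 = 1 := by rcases hσ with h | h <;> rw [h] <;> norm_num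
  have hτ2 : τ ^ 2 = 1 := by rcases hτ with h | h <;> rw [h] <;> norm_num
  have hσ0 : σ ≠ 0 := by rcases hσ with h | h <;> rw [h] <;> norm_num
  have hτ0 : τ ≠ 0 := by rcases hτ with h | h <;> rw [h] <;> norm_num
  have hI : ∀ᶠ r in 𝓝 r0, r ∈ Ioo a b := Ioo_mem_nhds hr0.1 hr0.2
  have hB : ∀ᶠ r in 𝓝 r0, (r, lam, (0:ℝ)) ∈ Metric.ball (r0, lam, (0:ℝ)) δ := by
    have hc : Continuous (fun r : ℝ => ((r, lam, (0:ℝ)) : ℝ × ℝ × ℝ)) := by fun_prop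
    exact hc.continuousAt.eventually (Metric.ball_mem_nhds _ hδ)
  have hvd : DifferentiableAt ℝ (fun r : ℝ => τ * Real.sqrt (2 * h + 2 / r - L ^ 2 / r ^ 2)) r0 := by
    refine (DifferentiableAt.sqrt (f := fun r : ℝ => 2 * h + 2 / r - L ^ 2 / r ^ 2) ?_
      (hv r0 hr0).ne').const_mul τ
    refine DifferentiableAt.sub (DifferentiableAt.add (differentiableAt_const _) ?_) ?_
    · exact (differentiableAt_const _).div differentiableAt_id hr0p.ne'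
    · exact (differentiableAt_const _).div (differentiableAt_id.pow 2) (pow_ne_zero 2 hr0p.ne')
  have hwd : DifferentiableAt ℝ (fun r : ℝ => σ * Real.sqrt (2 * hP' + 2 / r)) r0 := by
    refine (DifferentiableAt.sqrt (f := fun r : ℝ => 2 * hP' + 2 / r) ?_
      (hw r0 hr0).ne').const_mul σ
    refine DifferentiableAt.add (differentiableAt_const _) ?_
    exact (differentiableAt_const _).div differentiableAt_id hr0p.ne'
  have key := cross_deriv (L := L) (h := h) (hP := hP') (r0 := r0)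
    (v := fun r : ℝ => τ * Real.sqrt (2 * h + 2 / r - L ^ 2 / r ^ 2))
    (w := fun r : ℝ => σ * Real.sqrt (2 * hP' + 2 / r))
    (s := fun r => s (r, lam, 0)) (s' := fun r => s' (r, lam, 0)) (y := y) hr0p hL hh hhP
    (by
      filter_upwards [hI] with r hr
      rw [mul_pow, hτ2, one_mul, Real.sq_sqrt (hv r hr).le])
    (mul_ne_zero hτ0 (Real.sqrt_ne_zero'.2 (hv r0 hr0))) hvd.hasDerivAt
    (by
      filter_upwards [hI] with r hr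
      rw [mul_pow, hσ2, one_mul, Real.sq_sqrt (hw r hr).le])
    (mul_ne_zero hσ0 (Real.sqrt_ne_zero'.2 (hw r0 hr0))) hwd.hasDerivAt
    (mh_curve hδ hs).hasDerivAt (mh_curve hδ hs').hasDerivAt
    (by
      filter_upwards [hI, hB] with r hr hb
      rw [← hPn r hr, ← hQn r hr]
      exact hX _ hb)
    hR hV
  rw [← key.deriv]
  refine Filter.EventuallyEq.deriv_eq ?_
  filter_upwards [hI] with r hr
  rw [hPn r hr, hQn r hr]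

theorem mh_core (P Q : ℝ × ℝ × ℝ → KS) (U : Set (ℝ × ℝ × ℝ)) (hU : IsOpen U)
    (hP : ContDiffOn ℝ 2 P U) (hQ : ContDiffOn ℝ 2 Q U)
    (hPU : ∀ q ∈ U, kh' (P q) < 0 ∧ (P q).1 ≠ 0) (hQU : ∀ q ∈ U, kh' (Q q) < 0 ∧ (Q q).1 ≠ 0)
    (hPQ : ∀ q ∈ U, (P q).1 = (Q q).1) {L h hP' σ τ a b lam : ℝ} {y : ℂ} (hL : 0 < L)
    (hh : h < 0) (hhP : hP' < 0) (ha : 0 < a) (hab : a < b)
    (hσ : σ = 1 ∨ σ = -1) (hτ : τ = 1 ∨ τ = -1)
    (hNR : ∀ r ∈ Ioo a b, (r, lam, (0:ℝ)) ∈ U)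
    (hv : ∀ r ∈ Ioo a b, 0 < 2 * h + 2 / r - L ^ 2 / r ^ 2)
    (hw : ∀ r ∈ Ioo a b, 0 < 2 * hP' + 2 / r)
    (hPn : ∀ r ∈ Ioo a b, P (r, lam, 0) = kst 0 (σ * Real.sqrt (2 * hP' + 2 / r)) r)
    (hQn : ∀ r ∈ Ioo a b, Q (r, lam, 0) = kst L (τ * Real.sqrt (2 * h + 2 / r - L ^ 2 / r ^ 2)) r)
    (hy0 : y ≠ 0) (hy1 : y ≠ 1) (hyb : h ≤ ‖y‖ * hP') :
    ∃ r0 ∈ Ioo a b, ∃ δ : ℝ, 0 < δ ∧ Metric.ball (r0, lam, (0:ℝ)) δ ⊆ U ∧
      ∃ s s' sB sB' : ℝ × ℝ × ℝ → ℝ, NDat y P Q (r0, lam, 0) δ s s' sB sB' := by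
  obtain ⟨r0, hr0, s0, s0', hpick⟩ :=
    needle_pick hL hh hhP ha hab hσ hτ hv hw hy0 hy1 hyb
  simp only at hpick
  have hr0p : 0 < r0 := ha.trans hr0.1
  have hσ0 : σ ≠ 0 := by rcases hσ with h | h <;> rw [h] <;> norm_num
  have hτ0 : τ ≠ 0 := by rcases hτ with h | h <;> rw [h] <;> norm_num
  have hw0 : σ * Real.sqrt (2 * hP' + 2 / r0) ≠ 0 :=
    mul_ne_zero hσ0 (Real.sqrt_ne_zero'.2 (hw r0 hr0))
  have hv0 : τ * Real.sqrt (2 * h + 2 / r0 - L ^ 2 / r0 ^ 2) ≠ 0 :=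
    mul_ne_zero hτ0 (Real.sqrt_ne_zero'.2 (hv r0 hr0))
  obtain ⟨p1, p2, p3, p4, p5, p6⟩ := hpick
  have h0 := hNR r0 hr0
  have eP := hPn r0 hr0
  have eQ := hQn r0 hr0
  obtain ⟨hPh, hP1⟩ := hPU _ h0
  obtain ⟨hQh, hQ1⟩ := hQU _ h0
  have hEl : Ell (Q (r0, lam, 0)) := ⟨hQh, by rw [eQ, (mh_kst _ _ hr0p).1]; exact hL.ne'⟩
  obtain ⟨δ1, δ1', hδ1, hδ1', hb1, s, s', e1, e1', c1, c1', hall1⟩ :=
    cross_ift P Q (r0, lam, 0) U hU h0 hP hQ hPU hQU y s0 s0' (by rw [eP, eQ]; exact p1)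
      (by rw [eP]; exact p2) (kR_pos hEl s0').ne' (by rw [eP, eQ]; exact p4)
  obtain ⟨δ2, hδ2, hb2, sB, sB', c2, c2', eB', eBR, eBV, hall2⟩ :=
    needle_two P Q (r0, lam, 0) U hU h0 hP hQ hPU hQU hPQ hr0p hL.ne' hw0 eP eQ
  have s1 : Metric.ball (r0, lam, (0:ℝ)) (min δ1 δ2) ⊆ Metric.ball (r0, lam, (0:ℝ)) δ1 :=
    Metric.ball_subset_ball (min_le_left _ _)
  have s2 : Metric.ball (r0, lam, (0:ℝ)) (min δ1 δ2) ⊆ Metric.ball (r0, lam, (0:ℝ)) δ2 :=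
    Metric.ball_subset_ball (min_le_right _ _)
  -- the derivative at the event
  have dF := mh_deriv P Q (y := y) hL.ne' hh hhP ha hσ hτ hv hw hPn hQn hr0 hδ1 s s' c1 c1'
    (fun q hq => (hall1 q hq).1) (by rw [e1]; exact p2) (by rw [e1]; exact p3)
  rw [e1, e1'] at dF
  rw [eP] at eBR eBV
  have hVB : kV (kst 0 (σ * Real.sqrt (2 * hP' + 2 / r0)) r0) (sB (r0, lam, 0)) ≠ 0 := by
    rw [eBV]
    exact Complex.ofReal_ne_zero.2 (neg_ne_zero.2 hw0)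
  have dB := mh_deriv P Q (y := 1) hL.ne' hh hhP ha hσ hτ hv hw hPn hQn hr0 hδ2 sB sB' c2 c2'
    (fun q hq => by rw [one_mul]; exact (hall2 q hq).1) (by rw [eBR]; exact hr0p.ne') hVB
  have hElk : Ell (kst L (τ * Real.sqrt (2 * h + 2 / r0 - L ^ 2 / r0 ^ 2)) r0) := by
    rw [← eQ]; exact hEl
  have hB2 : deriv (fun r => kT (P (r, lam, (0:ℝ))) (sB (r, lam, 0)) -
        kT (Q (r, lam, (0:ℝ))) (sB' (r, lam, 0))) r0 =
      -2 / (σ * Real.sqrt (2 * hP' + 2 / r0)) := by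
    rw [dB, eB']
    unfold ndD
    rw [kY_zero hElk, (mh_kst _ _ hr0p).2.2, eBV]
    have hR0 : kR (kst L (τ * Real.sqrt (2 * h + 2 / r0 - L ^ 2 / r0 ^ 2)) r0) 0 = r0 := by
      have : kR (kst L (τ * Real.sqrt (2 * h + 2 / r0 - L ^ 2 / r0 ^ 2)) r0) 0 =
          kr (kst L (τ * Real.sqrt (2 * h + 2 / r0 - L ^ 2 / r0 ^ 2)) r0) := by
        simp [kR]
      rw [this, (mh_kst _ _ hr0p).2.1]
    rw [hR0, norm_one, Complex.ofReal_re]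
    generalize σ * Real.sqrt (2 * hP' + 2 / r0) = W at hw0 ⊢
    generalize τ * Real.sqrt (2 * h + 2 / r0 - L ^ 2 / r0 ^ 2) = V at hv0 ⊢
    field_simp
    ring
  refine ⟨r0, hr0, min δ1 δ2, lt_min hδ1 hδ2, s1.trans hb1, s, s', sB, sB', ?_⟩
  refine ⟨c1.mono s1, c1'.mono s1, c2.mono s2, c2'.mono s2, fun q hq => (hall1 q (s1 hq)).1,
    fun q hq => (hall1 q (s1 hq)).2.1, fun q hq => (hall1 q (s1 hq)).2.2.2.1,
    fun q hq => hall2 q (s2 hq), ?_, ?_⟩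
  · change deriv (fun r => kT (P (r, lam, (0:ℝ))) (s (r, lam, 0)) -
        kT (Q (r, lam, (0:ℝ))) (s' (r, lam, 0))) r0 ≠ 0
    rw [dF]
    exact p5
  · intro m
    change deriv (fun r => kT (P (r, lam, (0:ℝ))) (sB (r, lam, 0)) -
        kT (Q (r, lam, (0:ℝ))) (sB' (r, lam, 0))) r0 ≠
      m * deriv (fun r => kT (P (r, lam, (0:ℝ))) (s (r, lam, 0)) -
        kT (Q (r, lam, (0:ℝ))) (s' (r, lam, 0))) r0
    rw [dF, hB2]
    exact p6 m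

theorem mh_smooth {C : ℝ} (hC : C ≠ 0) : ContDiffOn ℝ 2 (n3 C) (NR C) ∧
    ContDiffOn ℝ 2 (n2 C) (NR C) :=
  have h2 : (2 : WithTop ℕ∞) ≤ ∞ := by
    have : ((2 : ℕ∞) : WithTop ℕ∞) ≤ ((⊤ : ℕ∞) : WithTop ℕ∞) := WithTop.coe_le_coe.2 le_top
    exact this
  ⟨(n_smooth hC).2.1.of_le h2, (n_smooth hC).2.2.1.of_le h2⟩

theorem mh_be : (0:ℝ) < be ∧ (2:ℝ) ^ (-(2/3) : ℝ) * be = 1 := by
  have h1 : (0:ℝ) < be := by
    unfold be
    positivity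
  refine ⟨h1, ?_⟩
  unfold be
  rw [← Real.rpow_add (by norm_num)]
  norm_num

theorem needle_data_pr (i : Fin 2) {C : ℝ} (hC : 0 < C) {a b : ℝ} (hab : a < b)
    (hNR : ∀ r ∈ Ioo a b, (r, nlam i C, (0:ℝ)) ∈ NR C) {y : ℂ} (hy0 : y ≠ 0) (hy1 : y ≠ 1)
    (hyb : ‖y‖ ≤ yb i) :
    ∃ r0 ∈ Ioo a b, ∃ δ : ℝ, 0 < δ ∧ Metric.ball (r0, nlam i C, (0:ℝ)) δ ⊆ NR C ∧
      ∃ s s' sB sB' : ℝ × ℝ × ℝ → ℝ,
        NDat y (nP i C) (nQ i C) (r0, nlam i C, 0) δ s s' sB sB' := by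
  have hCne : C ≠ 0 := hC.ne'
  have hopen : IsOpen (NR C) := (n_smooth hCne).1
  obtain ⟨hc3, hc2⟩ := mh_smooth hCne
  have hma : ma = 1 / 4 := rfl
  have hmb : mb = 3 / 4 := rfl
  have h3U : ∀ q ∈ NR C, kh' (n3 C q) < 0 ∧ (n3 C q).1 ≠ 0 := fun q hq => by
    have f := n3_facts hq
    rw [f.2.2.2.1]
    exact ⟨(n_neg hq.2.1).2.1, f.2.1⟩
  have h2U : ∀ q ∈ NR C, kh' (n2 C q) < 0 ∧ (n2 C q).1 ≠ 0 := fun q hq => by
    have f := n2_facts hq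
    rw [f.2.2.2.1]
    exact ⟨(n_neg hq.2.1).2.2.1, f.2.1⟩
  have h30n : h30 < 0 := by unfold h30; norm_num
  obtain ⟨hbe, hbe'⟩ := mh_be
  have h20n : h20 < 0 := by
    rw [h20_be]
    exact mul_neg_of_pos_of_neg hbe h30n
  obtain ⟨-, z3, z2⟩ := n_zero
  -- positive left end
  set c := (a + b) / 2 with hc
  have hac : a < c := by rw [hc]; linarith
  have hcb : c < b := by rw [hc]; linarith
  have hc0 : 0 < c := (hNR c ⟨hac, hcb⟩).1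
  have hsub : Ioo c b ⊆ Ioo a b := Ioo_subset_Ioo_left hac.le
  have hNR' : ∀ r ∈ Ioo c b, (r, nlam i C, (0:ℝ)) ∈ NR C := fun r hr => hNR r (hsub hr)
  suffices H : ∃ r0 ∈ Ioo c b, ∃ δ : ℝ, 0 < δ ∧ Metric.ball (r0, nlam i C, (0:ℝ)) δ ⊆ NR C ∧
      ∃ s s' sB sB' : ℝ × ℝ × ℝ → ℝ,
        NDat y (nP i C) (nQ i C) (r0, nlam i C, 0) δ s s' sB sB' by
    obtain ⟨r0, hr0, rest⟩ := H
    exact ⟨r0, hsub hr0, rest⟩
  fin_cases i
  · -- body 3 is the needle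
    have hl : nlam 0 C = -C / mb := rfl
    have hL3 : ∀ r : ℝ, nL3 C (r, nlam 0 C, (0:ℝ)) = 0 := fun r => by
      simp only [nL3, hl, hmb]; ring
    have hL2 : ∀ r : ℝ, nL2 C (r, nlam 0 C, (0:ℝ)) = C / mb := fun r => by
      simp only [nL2, hl, hmb, hma]; ring
    refine mh_core (nP 0 C) (nQ 0 C) (NR C) hopen (h := h20) (hP' := h30) (L := C / mb)
      (σ := 1) (τ := -1) ?_ ?_ ?_ ?_ ?_ (by rw [hmb]; positivity) h20n h30n hc0 hcb (Or.inl rfl)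
      (Or.inr rfl) hNR' ?_ ?_ ?_ ?_ hy0 hy1 ?_
    · exact hc3
    · exact hc2
    · exact h3U
    · exact h2U
    · intro q _; rfl
    · intro r hr
      have h := (hNR' r hr).2.2.2
      change 0 < 2 * nh2 0 + 2 / r - nL2 C (r, nlam 0 C, (0:ℝ)) ^ 2 / r ^ 2 at h
      rw [hL2, z2] at h
      exact h
    · intro r hr
      have h := (hNR' r hr).2.2.1
      change 0 < 2 * nh3 0 + 2 / r - nL3 C (r, nlam 0 C, (0:ℝ)) ^ 2 / r ^ 2 at h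
      rw [hL3, z3] at h
      simpa using h
    · intro r _
      change n3 C (r, nlam 0 C, 0) = _
      unfold n3 kst nv3 nw3
      rw [hL3]
      simp [z3]
    · intro r _
      change n2 C (r, nlam 0 C, 0) = _
      unfold n2 kst nv2 nw2
      rw [hL2]
      simp [z2]
    · have h1 : ‖y‖ ≤ be := hyb
      rw [h20_be]
      nlinarith
  · -- body 2 is the needle
    have hl : nlam 1 C = C / ma := rfl
    have hL3 : ∀ r : ℝ, nL3 C (r, nlam 1 C, (0:ℝ)) = C / ma := fun r => by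
      simp only [nL3, hl, hmb, hma]; ring
    have hL2 : ∀ r : ℝ, nL2 C (r, nlam 1 C, (0:ℝ)) = 0 := fun r => by
      simp only [nL2, hl, hmb, hma]; ring
    refine mh_core (nP 1 C) (nQ 1 C) (NR C) hopen (h := h30) (hP' := h20) (L := C / ma)
      (σ := -1) (τ := 1) ?_ ?_ ?_ ?_ ?_ (by rw [hma]; positivity) h30n h20n hc0 hcb (Or.inr rfl)
      (Or.inl rfl) hNR' ?_ ?_ ?_ ?_ hy0 hy1 ?_
    · exact hc2
    · exact hc3
    · exact h2U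
    · exact h3U
    · intro q _; rfl
    · intro r hr
      have h := (hNR' r hr).2.2.1
      change 0 < 2 * nh3 0 + 2 / r - nL3 C (r, nlam 1 C, (0:ℝ)) ^ 2 / r ^ 2 at h
      rw [hL3, z3] at h
      exact h
    · intro r hr
      have h := (hNR' r hr).2.2.2
      change 0 < 2 * nh2 0 + 2 / r - nL2 C (r, nlam 1 C, (0:ℝ)) ^ 2 / r ^ 2 at h
      rw [hL2, z2] at h
      simpa using h
    · intro r _
      change n2 C (r, nlam 1 C, 0) = _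
      unfold n2 kst nv2 nw2
      rw [hL2]
      simp [z2]
    · intro r _
      change n3 C (r, nlam 1 C, 0) = _
      unfold n3 kst nv3 nw3
      rw [hL3]
      simp [z3]
    · have h1 : ‖y‖ ≤ (2:ℝ) ^ (-(2/3) : ℝ) := hyb
      rw [h20_be]
      have h2 : ‖y‖ * be ≤ 1 := by
        rw [← hbe']
        exact mul_le_mul_of_nonneg_right h1 hbe.le
      nlinarith

end

end Pool.Agent.HS

namespace Pool.Agent.HS
open Set Filter Topology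
open scoped ContDiff

theorem needle_data (i : Fin 2) {C : ℝ} (hC : 0 < C) {a b : ℝ} (hab : a < b)
    (hNR : ∀ r ∈ Ioo a b, (r, nlam i C, (0:ℝ)) ∈ NR C) {y : ℂ} (hy0 : y ≠ 0) (hy1 : y ≠ 1)
    (hyb : ‖y‖ ≤ yb i) :
    ∃ r0 ∈ Ioo a b, ∃ δ : ℝ, 0 < δ ∧ Metric.ball (r0, nlam i C, (0:ℝ)) δ ⊆ NR C ∧
      ∃ s s' sB sB' : ℝ × ℝ × ℝ → ℝ,
        NDat y (nP i C) (nQ i C) (r0, nlam i C, 0) δ s s' sB sB' :=
  @Pool.Agent.HS.needle_data_pr i C hC a b hab hNR y hy0 hy1 hyb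

end Pool.Agent.HS
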