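import Pool.Agent.Lib_helper60.HSF.D_WM

/-!
# Project HS, part M1, block MI: many revolutions
-/

namespace Pool.Agent.HS

noncomputable section

open Set Filter Topology
open scoped ContDiff

/-- the partial derivative in the first variable -/
theorem mi_part {F : ℝ × ℝ × ℝ → ℝ} {q : ℝ × ℝ × ℝ} (h : DifferentiableAt ℝ F q) :
    HasDerivAt (fun r => F (r, q.2)) (fderiv ℝ F q (1, 0)) q.1 := by
  have h1 : HasDerivAt (fun r : ℝ => ((r, q.2) : ℝ × ℝ × ℝ)) ((1, 0) : ℝ × ℝ × ℝ) q.1 :=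
    (hasDerivAt_id q.1).prodMk (hasDerivAt_const q.1 q.2)
  exact HasFDerivAt.comp_hasDerivAt q.1 (f := fun r : ℝ => ((r, q.2) : ℝ × ℝ × ℝ))
    (l := F) h.hasFDerivAt h1

/-- Cauchy mean value theorem without order -/
theorem mi_cauchy {f g f' g' : ℝ → ℝ} {a b lo hi : ℝ} (hab : a ≠ b) (ha : a ∈ Icc lo hi)
    (hb : b ∈ Icc lo hi) (hf : ∀ x ∈ Icc lo hi, HasDerivAt f (f' x) x)
    (hg : ∀ x ∈ Icc lo hi, HasDerivAt g (g' x) x) :
    ∃ x ∈ Icc lo hi, (g b - g a) * f' x = (f b - f a) * g' x := by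
  have key : ∀ a b : ℝ, a < b → a ∈ Icc lo hi → b ∈ Icc lo hi →
      ∃ x ∈ Icc lo hi, (g b - g a) * f' x = (f b - f a) * g' x := by
    intro a b hab ha hb
    have hsub : Icc a b ⊆ Icc lo hi := Icc_subset_Icc ha.1 hb.2
    obtain ⟨x, hx, h⟩ := exists_ratio_hasDerivAt_eq_ratio_slope f f' hab
      (fun x hx => (hf x (hsub hx)).continuousAt.continuousWithinAt)
      (fun x hx => hf x (hsub (Ioo_subset_Icc_self hx))) g g'
      (fun x hx => (hg x (hsub hx)).continuousAt.continuousWithinAt)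
      (fun x hx => hg x (hsub (Ioo_subset_Icc_self hx)))
    exact ⟨x, hsub (Ioo_subset_Icc_self hx), h⟩
  rcases lt_or_gt_of_ne hab with h | h
  · exact key a b h ha hb
  · obtain ⟨x, hx, h⟩ := key b a h hb ha
    exact ⟨x, hx, by linarith⟩

/-- two consecutive multiples of `w` in a long interval -/
theorem mi_two {A B w : ℝ} (hw : 0 < w) (h : 2 * w < |B - A|) :
    ∃ j : ℤ, (j : ℝ) * w ∈ uIcc A B ∧ ((j + 1 : ℤ) : ℝ) * w ∈ uIcc A B := by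
  refine ⟨⌈min A B / w⌉, ?_⟩
  have h1 : min A B ≤ (⌈min A B / w⌉ : ℝ) * w := by
    rw [← div_le_iff₀ hw]
    exact Int.le_ceil _
  have h2 : (⌈min A B / w⌉ : ℝ) * w < min A B + w := by
    have := Int.ceil_lt_add_one (min A B / w)
    calc (⌈min A B / w⌉ : ℝ) * w < (min A B / w + 1) * w := mul_lt_mul_of_pos_right this hw
      _ = min A B + w := by field_simp
  have h3 : max A B - min A B = |B - A| := by
    rw [max_sub_min_eq_abs', abs_sub_comm]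
  rw [uIcc, mem_Icc, mem_Icc]
  push_cast
  refine ⟨⟨h1, ?_⟩, ?_, ?_⟩
  · have h4 : min A B ⊓ max A B ≤ A ⊔ B := le_trans inf_le_right le_rfl
    show _ ≤ max A B
    linarith
  · show min A B ≤ _
    linarith
  · show _ ≤ max A B
    linarith

theorem kinf_pr (F τ : ℝ × ℝ × ℝ → ℝ) (q0 : ℝ × ℝ × ℝ) (hq0 : q0.2.2 = 0) (δ0 : ℝ) (hδ0 : 0 < δ0)
    (hF : ContDiffOn ℝ 1 F (Metric.ball q0 δ0)) (hτ : ContDiffOn ℝ 1 τ (Metric.ball q0 δ0))
    (om : ℝ → ℝ) (hom : ContinuousAt om 0) (hom0 : 0 < om 0)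
    (hF' : deriv (fun r => F (r, q0.2)) q0.1 ≠ 0)
    (hτ' : ∀ m : ℤ, deriv (fun r => τ (r, q0.2)) q0.1 ≠ m * deriv (fun r => F (r, q0.2)) q0.1)
    (δ : ℝ) (hδ : 0 < δ) :
    ∃ (K0 : ℕ) (δ1 : ℝ), 0 < δ1 ∧ ∀ lam, |lam - q0.2.1| < δ1 → ∀ K : ℕ, K0 ≤ K → ∃ r,
      |r - q0.1| < δ ∧ (r, lam, (1 / K : ℝ)) ∈ Metric.ball q0 δ0 ∧
      (∃ j : ℤ, F (r, lam, 1 / K) = j * (om (1 / K) / K)) ∧
      (∀ j : ℤ, τ (r, lam, 1 / K) ≠ j * (om (1 / K) / K)) ∧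
      deriv (fun r => F (r, lam, 1 / K)) r ≠ 0 := by
  have hB : ∀ q ∈ Metric.ball q0 δ0, Metric.ball q0 δ0 ∈ 𝓝 q := fun q hq =>
    Metric.isOpen_ball.mem_nhds hq
  have hFd : ∀ q ∈ Metric.ball q0 δ0, DifferentiableAt ℝ F q := fun q hq =>
    (hF.contDiffAt (hB q hq)).differentiableAt (by norm_num)
  have hτd : ∀ q ∈ Metric.ball q0 δ0, DifferentiableAt ℝ τ q := fun q hq =>
    (hτ.contDiffAt (hB q hq)).differentiableAt (by norm_num)
  have hq0' : q0 ∈ Metric.ball q0 δ0 := Metric.mem_ball_self hδ0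
  set Fr : ℝ × ℝ × ℝ → ℝ := fun q => fderiv ℝ F q (1, 0) with hFr
  set τr : ℝ × ℝ × ℝ → ℝ := fun q => fderiv ℝ τ q (1, 0) with hτr
  have hFrc : ContinuousAt Fr q0 := by
    have h1 := (hF.continuousOn_fderiv_of_isOpen Metric.isOpen_ball (by norm_num)).continuousAt
      (hB q0 hq0')
    exact h1.clm_apply continuousAt_const
  have hτrc : ContinuousAt τr q0 := by
    have h1 := (hτ.continuousOn_fderiv_of_isOpen Metric.isOpen_ball (by norm_num)).continuousAt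
      (hB q0 hq0')
    exact h1.clm_apply continuousAt_const
  have e1 : deriv (fun r => F (r, q0.2)) q0.1 = Fr q0 := (mi_part (hFd q0 hq0')).deriv
  have e2 : deriv (fun r => τ (r, q0.2)) q0.1 = τr q0 := (mi_part (hτd q0 hq0')).deriv
  rw [e1] at hF'
  rw [e1, e2] at hτ'
  -- the good ball
  have hgood : ∀ᶠ q in 𝓝 q0, q ∈ Metric.ball q0 δ0 ∧ Fr q ≠ 0 ∧ ∀ m : ℤ, τr q ≠ m * Fr q := by
    have h1 : ∀ᶠ q in 𝓝 q0, Fr q ≠ 0 := hFrc.eventually_ne hF'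
    have h2 : ContinuousAt (fun q => τr q / Fr q) q0 := hτrc.div hFrc hF'
    have h3 : IsOpen (Set.range ((↑) : ℤ → ℝ))ᶜ :=
      (Int.isClosedEmbedding_coe_real.isClosed_range).isOpen_compl
    have h4 : τr q0 / Fr q0 ∈ (Set.range ((↑) : ℤ → ℝ))ᶜ := by
      rintro ⟨m, hm⟩
      apply hτ' m
      field_simp at hm
      exact hm.symm
    have h5 := h2.eventually_mem (h3.mem_nhds h4)
    filter_upwards [hB q0 hq0', h1, h5] with q hq1 hq2 hq3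
    refine ⟨hq1, hq2, fun m hm => hq3 ⟨m, ?_⟩⟩
    rw [hm]
    field_simp
  obtain ⟨δ2, hδ2, hball⟩ := Metric.eventually_nhds_iff_ball.1 hgood
  -- the half length of the interval
  set δ3 : ℝ := min δ δ2 / 2 with hδ3d
  have hδ3 : 0 < δ3 := by positivity
  have hδ3a : δ3 < δ := by
    have := min_le_left δ δ2
    rw [hδ3d]
    linarith
  have hδ3b : δ3 < δ2 := by
    have := min_le_right δ δ2
    rw [hδ3d]
    linarith
  have hmem : ∀ r lam ε : ℝ, |r - q0.1| ≤ δ3 → |lam - q0.2.1| < δ2 → |ε - q0.2.2| < δ2 →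
      (r, lam, ε) ∈ Metric.ball q0 δ2 := by
    intro r lam ε h1 h2 h3
    rw [Metric.mem_ball, Prod.dist_eq, Prod.dist_eq, Real.dist_eq, Real.dist_eq, Real.dist_eq]
    exact max_lt (lt_of_le_of_lt h1 hδ3b) (max_lt h2 h3)
  have hder : ∀ (lam ε : ℝ), |lam - q0.2.1| < δ2 → |ε - q0.2.2| < δ2 →
      ∀ r ∈ Icc (q0.1 - δ3) (q0.1 + δ3), HasDerivAt (fun r => F (r, lam, ε)) (Fr (r, lam, ε)) r ∧
        HasDerivAt (fun r => τ (r, lam, ε)) (τr (r, lam, ε)) r := by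
    intro lam ε h1 h2 r hr
    have h3 := hball _ (hmem r lam ε (abs_le.2 ⟨by linarith [hr.1], by linarith [hr.2]⟩) h1 h2)
    exact ⟨mi_part (hFd _ h3.1), mi_part (hτd _ h3.1)⟩
  have hδ2' : |q0.2.1 - q0.2.1| < δ2 := by simpa using hδ2
  have hδ2'' : |q0.2.2 - q0.2.2| < δ2 := by simpa using hδ2
  -- the increment at the centre
  have hD : F (q0.1 + δ3, q0.2) - F (q0.1 - δ3, q0.2) ≠ 0 := by
    obtain ⟨x, hx, h⟩ := exists_hasDerivAt_eq_slope (fun r => F (r, q0.2.1, q0.2.2))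
      (fun r => Fr (r, q0.2.1, q0.2.2)) (show q0.1 - δ3 < q0.1 + δ3 by linarith)
      (fun x hx => (hder _ _ hδ2' hδ2'' x hx).1.continuousAt.continuousWithinAt)
      (fun x hx => (hder _ _ hδ2' hδ2'' x (Ioo_subset_Icc_self hx)).1)
    intro h0
    have h1 := (hball _ (hmem x _ _ (abs_le.2 ⟨by linarith [hx.1], by linarith [hx.2]⟩)
      hδ2' hδ2'')).2.1
    apply h1
    rw [h]
    have h2 : F (q0.1 + δ3, q0.2.1, q0.2.2) - F (q0.1 - δ3, q0.2.1, q0.2.2) = 0 := h0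
    rw [h2, zero_div]
  set D := |F (q0.1 + δ3, q0.2) - F (q0.1 - δ3, q0.2)| with hDd
  have hD0 : 0 < D := abs_pos.2 hD
  have hcont : ∀ᶠ p in 𝓝 q0.2, D / 2 < |F (q0.1 + δ3, p) - F (q0.1 - δ3, p)| := by
    have h1 : ∀ s : ℝ, |s - q0.1| ≤ δ3 → ContinuousAt (fun p : ℝ × ℝ => F (s, p)) q0.2 := by
      intro s hs
      have h2 := (hFd _ (hball _ (hmem s q0.2.1 q0.2.2 hs hδ2' hδ2'')).1).continuousAt
      exact ContinuousAt.comp (g := F) (f := fun p : ℝ × ℝ => (s, p)) h2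
        (continuousAt_const.prodMk continuousAt_id)
    have h2 := h1 (q0.1 + δ3) (by simp [abs_of_pos hδ3])
    have h3 := h1 (q0.1 - δ3) (by simp [abs_of_pos hδ3])
    have h4 := (h2.sub h3).abs
    exact h4.eventually_const_lt (by
      show D / 2 < |F (q0.1 + δ3, q0.2) - F (q0.1 - δ3, q0.2)|
      rw [← hDd]
      linarith)
  obtain ⟨δ4, hδ4, hball4⟩ := Metric.eventually_nhds_iff_ball.1 hcont
  -- large `K`
  have hK1 : Tendsto (fun K : ℕ => (1 / K : ℝ)) atTop (𝓝 0) :=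
    tendsto_one_div_atTop_nhds_zero_nat
  have hK2 : Tendsto (fun K : ℕ => om (1 / K : ℝ)) atTop (𝓝 (om 0)) := hom.tendsto.comp hK1
  have hK3 : Tendsto (fun K : ℕ => om (1 / K : ℝ) / K) atTop (𝓝 0) := by
    have h1 := hK2.mul hK1
    rw [mul_zero] at h1
    refine h1.congr fun K => ?_
    ring
  have hev : ∀ᶠ K : ℕ in atTop, 0 < om (1 / K : ℝ) ∧ om (1 / K : ℝ) / K < D / 4 ∧
      |(1 / K : ℝ)| < min δ2 δ4 ∧ 0 < K := by
    have h1 := hK2.eventually_const_lt hom0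
    have h2 := hK3.eventually_lt_const (show (0 : ℝ) < D / 4 by positivity)
    have h3 : ∀ᶠ K : ℕ in atTop, |(1 / K : ℝ)| < min δ2 δ4 := by
      have h4 := hK1.abs
      rw [abs_zero] at h4
      exact h4.eventually_lt_const (lt_min hδ2 hδ4)
    filter_upwards [h1, h2, h3, eventually_gt_atTop 0] with K k1 k2 k3 k4
    exact ⟨k1, k2, k3, k4⟩
  obtain ⟨K0, hK0⟩ := eventually_atTop.1 hev
  refine ⟨K0, min δ2 δ4, lt_min hδ2 hδ4, fun lam hlam K hK => ?_⟩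
  obtain ⟨k1, k2, k3, k4⟩ := hK0 K hK
  have hKr : (0 : ℝ) < K := by exact_mod_cast k4
  set ε : ℝ := 1 / K with hε
  set w : ℝ := om ε / K with hw
  have hw0 : 0 < w := div_pos k1 hKr
  have hlam2 : |lam - q0.2.1| < δ2 := hlam.trans_le (min_le_left _ _)
  have hlam4 : |lam - q0.2.1| < δ4 := hlam.trans_le (min_le_right _ _)
  have hε2 : |ε - q0.2.2| < δ2 := by
    rw [hq0, sub_zero]
    exact k3.trans_le (min_le_left _ _)
  have hε4 : |ε - q0.2.2| < δ4 := by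
    rw [hq0, sub_zero]
    exact k3.trans_le (min_le_right _ _)
  have h1 : D / 2 < |F (q0.1 + δ3, lam, ε) - F (q0.1 - δ3, lam, ε)| := by
    refine hball4 (lam, ε) ?_
    rw [Metric.mem_ball, Prod.dist_eq, Real.dist_eq, Real.dist_eq]
    exact max_lt hlam4 hε4
  obtain ⟨j, hj0, hj1⟩ := mi_two (A := F (q0.1 - δ3, lam, ε)) (B := F (q0.1 + δ3, lam, ε)) hw0
    (by linarith)
  have hle : q0.1 - δ3 ≤ q0.1 + δ3 := by linarith
  have hivt : uIcc (F (q0.1 - δ3, lam, ε)) (F (q0.1 + δ3, lam, ε)) ⊆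
      (fun r => F (r, lam, ε)) '' uIcc (q0.1 - δ3) (q0.1 + δ3) := by
    refine intermediate_value_uIcc (f := fun r => F (r, lam, ε)) fun x hx => ?_
    rw [uIcc_of_le hle] at hx
    exact (hder _ _ hlam2 hε2 x hx).1.continuousAt.continuousWithinAt
  obtain ⟨r0, hr0, hr0'⟩ := hivt hj0
  obtain ⟨r1, hr1, hr1'⟩ := hivt hj1
  rw [uIcc_of_le hle] at hr0 hr1
  simp only at hr0' hr1'
  have hne : r0 ≠ r1 := by
    intro h
    rw [h, hr1'] at hr0'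
    push_cast at hr0'
    linarith
  have hfin : ∀ r ∈ Icc (q0.1 - δ3) (q0.1 + δ3), |r - q0.1| < δ ∧
      (r, lam, ε) ∈ Metric.ball q0 δ0 ∧ deriv (fun r => F (r, lam, ε)) r ≠ 0 := by
    intro r hr
    have h2 : |r - q0.1| ≤ δ3 := abs_le.2 ⟨by linarith [hr.1], by linarith [hr.2]⟩
    have h3 := hball _ (hmem r lam ε h2 hlam2 hε2)
    refine ⟨lt_of_le_of_lt h2 hδ3a, h3.1, ?_⟩
    rw [(hder _ _ hlam2 hε2 r hr).1.deriv]
    exact h3.2.1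
  by_cases c0 : ∀ m : ℤ, τ (r0, lam, ε) ≠ m * w
  · obtain ⟨f1, f2, f3⟩ := hfin r0 hr0
    exact ⟨r0, f1, f2, ⟨j, hr0'⟩, c0, f3⟩
  by_cases c1 : ∀ m : ℤ, τ (r1, lam, ε) ≠ m * w
  · obtain ⟨f1, f2, f3⟩ := hfin r1 hr1
    exact ⟨r1, f1, f2, ⟨j + 1, hr1'⟩, c1, f3⟩
  exfalso
  push Not at c0 c1
  obtain ⟨m0, hm0⟩ := c0
  obtain ⟨m1, hm1⟩ := c1
  obtain ⟨x, hx, h⟩ := mi_cauchy hne hr0 hr1 (fun x hx => (hder _ _ hlam2 hε2 x hx).1)
    (fun x hx => (hder _ _ hlam2 hε2 x hx).2)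
  have h3 := hball _ (hmem x lam ε (abs_le.2 ⟨by linarith [hx.1], by linarith [hx.2]⟩) hlam2 hε2)
  apply h3.2.2 (m1 - m0)
  simp only [hr0', hr1', hm0, hm1] at h
  push_cast at h ⊢
  have h4 : w * ((m1 - m0) * Fr (x, lam, ε)) = w * τr (x, lam, ε) := by
    linear_combination h
  exact (mul_left_cancel₀ hw0.ne' h4).symm

end

end Pool.Agent.HS

namespace Pool.Agent.HS
open Set Filter Topology
open scoped ContDiff

theorem kinf (F τ : ℝ × ℝ × ℝ → ℝ) (q0 : ℝ × ℝ × ℝ) (hq0 : q0.2.2 = 0) (δ0 : ℝ) (hδ0 : 0 < δ0)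
    (hF : ContDiffOn ℝ 1 F (Metric.ball q0 δ0)) (hτ : ContDiffOn ℝ 1 τ (Metric.ball q0 δ0))
    (om : ℝ → ℝ) (hom : ContinuousAt om 0) (hom0 : 0 < om 0)
    (hF' : deriv (fun r => F (r, q0.2)) q0.1 ≠ 0)
    (hτ' : ∀ m : ℤ, deriv (fun r => τ (r, q0.2)) q0.1 ≠ m * deriv (fun r => F (r, q0.2)) q0.1)
    (δ : ℝ) (hδ : 0 < δ) :
    ∃ (K0 : ℕ) (δ1 : ℝ), 0 < δ1 ∧ ∀ lam, |lam - q0.2.1| < δ1 → ∀ K : ℕ, K0 ≤ K → ∃ r,
      |r - q0.1| < δ ∧ (r, lam, (1 / K : ℝ)) ∈ Metric.ball q0 δ0 ∧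
      (∃ j : ℤ, F (r, lam, 1 / K) = j * (om (1 / K) / K)) ∧
      (∀ j : ℤ, τ (r, lam, 1 / K) ≠ j * (om (1 / K) / K)) ∧
      deriv (fun r => F (r, lam, 1 / K)) r ≠ 0 :=
  @Pool.Agent.HS.kinf_pr F τ q0 hq0 δ0 hδ0 hF hτ om hom hom0 hF' hτ' δ hδ

end Pool.Agent.HS
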