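import Pool.Agent.Lib_helper60.HSF.D_WM
import Pool.Agent.Lib_helper60.HSF.M_NA1

namespace Pool.Agent.HS

noncomputable section

open Set Filter Topology
open scoped ContDiff

theorem kk_facts_pr (i : Fin 2) {K : ℕ} (hK : 0 < K) : 0 < kKP i K ∧ 0 < kKQ i K ∧
    IsCoprime (kKP i K : ℤ) (kKQ i K : ℤ) := by
  by_cases hi : i = 0
  · simp only [kKP, kKQ, hi, if_true]
    refine ⟨hK, by omega, ⟨-2, 1, ?_⟩⟩
    push_cast
    ring
  · simp only [kKP, kKQ, hi, if_false]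
    refine ⟨by omega, hK, ⟨1, -2, ?_⟩⟩
    push_cast
    ring

theorem n_per_K_pr (i : Fin 2) {C : ℝ} {q : ℝ × ℝ × ℝ} (hq : q ∈ NR C) {K : ℕ} (hK : 0 < K)
    (hε : q.2.2 = 1 / K) : 0 < kPer (n2 C q) / K ∧
    kPer (nP i C q) = kKQ i K * (kPer (n2 C q) / K) ∧
    kPer (nQ i C q) = kKP i K * (kPer (n2 C q) / K) := by
  obtain ⟨h1, h2⟩ := n_per hq
  have hK' : (0:ℝ) < K := by exact_mod_cast hK
  have h3 : kPer (n3 C q) = (2 * K + 1) * (kPer (n2 C q) / K) := by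
    rw [h1, hε]
    field_simp
  have h4 : kPer (n2 C q) = K * (kPer (n2 C q) / K) := by
    field_simp
  refine ⟨div_pos h2 hK', ?_⟩
  by_cases hi : i = 0
  · simp only [nP, nQ, kKP, kKQ, hi, if_true]
    refine ⟨?_, h4⟩
    rw [h3]; push_cast; ring
  · simp only [nP, nQ, kKP, kKQ, hi, if_false]
    refine ⟨h4, ?_⟩
    rw [h3]; push_cast; ring

theorem ar_event_pr {p p' : ℕ} (hp : 0 < p) (hp' : 0 < p') (hco : IsCoprime (p : ℤ) (p' : ℤ))
    {om : ℝ} (hom : 0 < om) (j : ℤ) (t0 : ℝ) :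
    ∃ a b : ℤ, j + a * p' - b * p = 0 ∧ 0 ≤ t0 + a * (p' * om) ∧
      t0 + a * (p' * om) < p * (p' * om) := by
  obtain ⟨u, v, huv⟩ := hco
  have hpR : (0:ℝ) < p := by exact_mod_cast hp
  have hpR' : (0:ℝ) < p' := by exact_mod_cast hp'
  have hT : 0 < (p:ℝ) * (p' * om) := by positivity
  set x : ℝ := t0 + (-j * v : ℤ) * (p' * om) with hx
  set l : ℤ := -⌊x / (p * (p' * om))⌋ with hl
  have h1 := Int.floor_le (x / (p * (p' * om)))
  have h2 := Int.lt_floor_add_one (x / (p * (p' * om)))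
  rw [le_div_iff₀ hT] at h1
  rw [div_lt_iff₀ hT] at h2
  refine ⟨-j * v + p * l, j * u + p' * l, ?_, ?_, ?_⟩
  · linear_combination (-(j:ℤ)) * huv
  · have e : t0 + ((-j * v + p * l : ℤ) : ℝ) * (p' * om) = x + l * (p * (p' * om)) := by
      rw [hx]; push_cast; ring
    rw [e, hl]
    push_cast
    linarith
  · have e : t0 + ((-j * v + p * l : ℤ) : ℝ) * (p' * om) = x + l * (p * (p' * om)) := by
      rw [hx]; push_cast; ring
    rw [e, hl]
    push_cast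
    linarith

end

end Pool.Agent.HS

namespace Pool.Agent.HS
open Set Filter Topology
open scoped ContDiff

theorem kk_facts (i : Fin 2) {K : ℕ} (hK : 0 < K) : 0 < kKP i K ∧ 0 < kKQ i K ∧
    IsCoprime (kKP i K : ℤ) (kKQ i K : ℤ) :=
  @Pool.Agent.HS.kk_facts_pr i K hK

end Pool.Agent.HS

namespace Pool.Agent.HS
open Set Filter Topology
open scoped ContDiff

theorem n_per_K (i : Fin 2) {C : ℝ} {q : ℝ × ℝ × ℝ} (hq : q ∈ NR C) {K : ℕ} (hK : 0 < K)
    (hε : q.2.2 = 1 / K) : 0 < kPer (n2 C q) / K ∧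
    kPer (nP i C q) = kKQ i K * (kPer (n2 C q) / K) ∧
    kPer (nQ i C q) = kKP i K * (kPer (n2 C q) / K) :=
  @Pool.Agent.HS.n_per_K_pr i C q hq K hK hε

end Pool.Agent.HS

namespace Pool.Agent.HS
open Set Filter Topology
open scoped ContDiff

theorem ar_event {p p' : ℕ} (hp : 0 < p) (hp' : 0 < p') (hco : IsCoprime (p : ℤ) (p' : ℤ))
    {om : ℝ} (hom : 0 < om) (j : ℤ) (t0 : ℝ) :
    ∃ a b : ℤ, j + a * p' - b * p = 0 ∧ 0 ≤ t0 + a * (p' * om) ∧
      t0 + a * (p' * om) < p * (p' * om) :=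
  @Pool.Agent.HS.ar_event_pr p p' hp hp' hco om hom j t0

end Pool.Agent.HS
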