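import Pool.Agent.Lib_helper60.HSF.D_WZ

/-! # Project HS, part Z: block ZA1, the states -/

namespace Pool.Agent.HS

noncomputable section

open Set Filter Topology
open scoped ContDiff

theorem za1_r (C : ℝ) (X : ℝ × ℝ) : (chart C X).1 = zr C X := rfl

theorem za1_p (C : ℝ) (X : ℝ × ℝ) : (chart C X).2 = C * zϖ X / rh := rfl

theorem za1_U (C : ℝ) (X : ℝ × ℝ) :
    Uenc C 0 (chart C X).1 (chart C X).2 0 = (C : ℂ) * zU C X := by
  unfold Uenc zU
  rw [za1_r, za1_p]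
  push_cast
  ring

theorem z_p_pr (C : ℝ) (X : ℝ × ℝ) (χ : ℝ) :
    p3 (colD (limD C X χ)) = z3 C X χ ∧ p2 (colD (limD C X χ)) = z2 C X χ := by
  unfold p3 p2 colD limD z3 z2 ofRU x3 x2 u3 u2 zw zk
  simp only [za1_U, mul_zero, add_zero, sub_zero]
  constructor <;> rfl

theorem zr_eq_pr (C : ℝ) (X : ℝ × ℝ) : zr C X = rh + C * zρ X / (cc * rh) := rfl

theorem za1_exp (χ : ℝ) : (Complex.exp ((χ : ℂ) * Complex.I)).re = Real.cos χ ∧
    (Complex.exp ((χ : ℂ) * Complex.I)).im = Real.sin χ :=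
  ⟨Complex.exp_ofReal_mul_I_re χ, Complex.exp_ofReal_mul_I_im χ⟩

theorem za1_w (C : ℝ) (X : ℝ × ℝ) (χ : ℝ) : (zw C X χ).re = zk C X * Real.cos χ ∧
    (zw C X χ).im = zk C X * Real.sin χ := by
  unfold zw
  rw [Complex.re_ofReal_mul, Complex.im_ofReal_mul, (za1_exp χ).1, (za1_exp χ).2]
  exact ⟨rfl, rfl⟩

theorem za1_zU (C : ℝ) (X : ℝ × ℝ) : (zU C X).re = zϖ X / rh ∧ (zU C X).im = 1 / zr C X := by
  unfold zU
  rw [Complex.add_re, Complex.add_im, Complex.re_ofReal_mul, Complex.im_ofReal_mul,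
    Complex.ofReal_re, Complex.ofReal_im, Complex.I_re, Complex.I_im]
  constructor <;> ring

theorem z_L_pr {C : ℝ} {X : ℝ × ℝ} (hr : zr C X ≠ 0) (χ : ℝ) :
    kL (z3 C X χ) = C + mb * zr C X * zk C X * Real.sin χ ∧
    kL (z2 C X χ) = C - ma * zr C X * zk C X * Real.sin χ ∧
    cW' (z3 C X χ).2 (z2 C X χ).2 = C * zX C X χ ∧
    zX C X χ = zk C X * (Real.cos χ / zr C X - zϖ X / rh * Real.sin χ) := by
  have hab : ma + mb = 1 := by unfold ma mb; norm_num
  refine ⟨?_, ?_, ?_, ?_⟩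
  · unfold kL z3
    show ((starRingEnd ℂ) (zr C X : ℂ) * ((C : ℂ) * zU C X + (mb : ℂ) * zw C X χ)).im = _
    rw [Complex.conj_ofReal, Complex.im_ofReal_mul, Complex.add_im, Complex.im_ofReal_mul,
      Complex.im_ofReal_mul, (za1_zU C X).2, (za1_w C X χ).2]
    field_simp
  · unfold kL z2
    show ((starRingEnd ℂ) (zr C X : ℂ) * ((C : ℂ) * zU C X - (ma : ℂ) * zw C X χ)).im = _
    rw [Complex.conj_ofReal, Complex.im_ofReal_mul, Complex.sub_im, Complex.im_ofReal_mul,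
      Complex.im_ofReal_mul, (za1_zU C X).2, (za1_w C X χ).2]
    field_simp
  · unfold cW' zX z3 z2
    show ((starRingEnd ℂ) ((C : ℂ) * zU C X + (mb : ℂ) * zw C X χ) *
      ((C : ℂ) * zU C X - (ma : ℂ) * zw C X χ)).im = _
    simp only [map_add, map_mul, Complex.conj_ofReal, Complex.mul_im, Complex.add_im,
      Complex.sub_im, Complex.add_re, Complex.sub_re, Complex.mul_re, Complex.ofReal_re,
      Complex.ofReal_im, Complex.conj_re, Complex.conj_im]
    have h1 : ma = 1 - mb := by linarith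
    rw [h1]
    ring
  · unfold zX
    rw [Complex.mul_im, Complex.conj_re, Complex.conj_im, (za1_zU C X).1, (za1_zU C X).2,
      (za1_w C X χ).1, (za1_w C X χ).2]
    ring

end

end Pool.Agent.HS

namespace Pool.Agent.HS
open Set Filter Topology
open scoped ContDiff

theorem z_p (C : ℝ) (X : ℝ × ℝ) (χ : ℝ) :
    p3 (colD (limD C X χ)) = z3 C X χ ∧ p2 (colD (limD C X χ)) = z2 C X χ :=
  @Pool.Agent.HS.z_p_pr C X χ

end Pool.Agent.HS

namespace Pool.Agent.HS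
open Set Filter Topology
open scoped ContDiff

theorem zr_eq (C : ℝ) (X : ℝ × ℝ) : zr C X = rh + C * zρ X / (cc * rh) :=
  @Pool.Agent.HS.zr_eq_pr C X

end Pool.Agent.HS

namespace Pool.Agent.HS
open Set Filter Topology
open scoped ContDiff

theorem z_L {C : ℝ} {X : ℝ × ℝ} (hr : zr C X ≠ 0) (χ : ℝ) :
    kL (z3 C X χ) = C + mb * zr C X * zk C X * Real.sin χ ∧
    kL (z2 C X χ) = C - ma * zr C X * zk C X * Real.sin χ ∧
    cW' (z3 C X χ).2 (z2 C X χ).2 = C * zX C X χ ∧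
    zX C X χ = zk C X * (Real.cos χ / zr C X - zϖ X / rh * Real.sin χ) :=
  @Pool.Agent.HS.z_L_pr C X hr χ

end Pool.Agent.HS
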