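import Pool.Agent.Lib_helper60.HSF.D_WN
import Pool.Agent.Lib_helper60.HSF.M_NA1
import Pool.Agent.Lib_helper60.HSF.Z_ZC
import Pool.Agent.Lib_helper60.HSF.Z_ZA1

/-!
# Part S1, block NA2: the states in the chart of the centre plane
-/

namespace Pool.Agent.HS

noncomputable section

open Set Filter Topology
open scoped ContDiff

/-- polar form of a vector with positive real part -/
theorem na2_polar {a b k : ℝ} (ha : 0 < a) (hk : 0 < k) (h : k ^ 2 = a ^ 2 + b ^ 2) :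
    (k : ℂ) * Complex.exp ((Real.arctan (b / a) : ℂ) * Complex.I) = (a : ℂ) + (b : ℂ) * Complex.I := by
  have h1 : Real.sqrt (1 + (b / a) ^ 2) = k / a := by
    rw [Real.sqrt_eq_iff_mul_self_eq (by positivity) (by positivity)]
    field_simp
    linarith
  have hc : Real.cos (Real.arctan (b / a)) = a / k := by
    rw [Real.cos_arctan, h1]
    field_simp
  have hs : Real.sin (Real.arctan (b / a)) = b / k := by
    rw [Real.sin_arctan, h1]
    field_simp
  rw [Complex.exp_mul_I, ← Complex.ofReal_cos, ← Complex.ofReal_sin, hc, hs]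
  have hk' : (k : ℂ) ≠ 0 := by exact_mod_cast hk.ne'
  push_cast
  field_simp

/-- the states in the chart of the centre plane -/
theorem n_states_pr {C : ℝ} (hC : C ≠ 0) {q : ℝ × ℝ × ℝ} (hq : q ∈ NR C) :
    z3 C (nX C q) (nχ C q) = n3 C q ∧ z2 C (nX C q) (nχ C q) = n2 C q ∧
    zr C (nX C q) = q.1 ∧ (chart C (nX C q)).2 = ma * nv3 C q + mb * nv2 C q ∧
    0 < E0 + 1 / zr C (nX C q) -
      ((chart C (nX C q)).2 ^ 2 + C ^ 2 / zr C (nX C q) ^ 2) / 2 := by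
  have hr : 0 < q.1 := hq.1
  obtain ⟨hv3, -, -, -, -, -⟩ := n3_facts hq
  obtain ⟨hv2, -, -, -, -, -⟩ := n2_facts hq
  obtain ⟨-, -, -, hE⟩ := n_neg hq.2.1
  obtain ⟨hL, hlam⟩ := n_ma_mb C q
  have hzb := z_bounds
  have hrh : 0 < rh := by linarith [hzb.2.2.2.2.1]
  have hcc : 0 < cc := by linarith [hzb.2.2.2.2.2.2.1]
  have hw3 : nv3 C q ^ 2 = nw3 C q := Real.sq_sqrt hq.2.2.1.le
  have hw2 : nv2 C q ^ 2 = nw2 C q := by
    unfold nv2
    rw [neg_sq]
    exact Real.sq_sqrt hq.2.2.2.le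
  have e1 : (chart C (nX C q)).1 = q.1 := by
    unfold chart nX nx
    simp only
    field_simp
    ring
  have e2 : (chart C (nX C q)).2 = ma * nv3 C q + mb * nv2 C q := by
    unfold chart nX
    simp only
    field_simp
    ring
  have ezr : zr C (nX C q) = q.1 := e1
  have eϖ : zϖ (nX C q) = rh * (ma * nv3 C q + mb * nv2 C q) / C := by
    unfold zϖ nX
    simp only
    ring
  -- the key identity
  have hkey : E0 + 1 / q.1 - ((ma * nv3 C q + mb * nv2 C q) ^ 2 + C ^ 2 / q.1 ^ 2) / 2 =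
      ma * mb / 2 * ((nv3 C q - nv2 C q) ^ 2 + (q.2.1 / q.1) ^ 2) := by
    have h3 : nh3 q.2.2 = (nv3 C q ^ 2 + nL3 C q ^ 2 / q.1 ^ 2) / 2 - 1 / q.1 := by
      rw [hw3]
      unfold nw3
      ring
    have h2 : nh2 q.2.2 = (nv2 C q ^ 2 + nL2 C q ^ 2 / q.1 ^ 2) / 2 - 1 / q.1 := by
      rw [hw2]
      unfold nw2
      ring
    rw [← hE, h3, h2]
    unfold nL3 nL2 ma mb
    field_simp
    ring
  have hpos : 0 < (nv3 C q - nv2 C q) ^ 2 + (q.2.1 / q.1) ^ 2 := by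
    have : 0 < nv3 C q - nv2 C q := by linarith
    positivity
  have hmm : 0 < ma * mb := by
    unfold ma mb
    norm_num
  have hzk : zk C (nX C q) = Real.sqrt ((nv3 C q - nv2 C q) ^ 2 + (q.2.1 / q.1) ^ 2) := by
    unfold zk kap0
    rw [e1, e2, hkey]
    congr 1
    have hma : ma ≠ 0 := by
      unfold ma
      norm_num
    have hmb : mb ≠ 0 := by
      unfold mb
      norm_num
    field_simp
  have hzk0 : 0 < zk C (nX C q) := by
    rw [hzk]
    exact Real.sqrt_pos.mpr hpos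
  have hzk2 : zk C (nX C q) ^ 2 = (nv3 C q - nv2 C q) ^ 2 + (q.2.1 / q.1) ^ 2 := by
    rw [hzk]
    exact Real.sq_sqrt hpos.le
  have hw : zw C (nX C q) (nχ C q) = ((nv3 C q - nv2 C q : ℝ) : ℂ) +
      ((q.2.1 / q.1 : ℝ) : ℂ) * Complex.I := by
    unfold zw nχ
    exact na2_polar (by linarith) hzk0 hzk2
  have hU : (C : ℂ) * zU C (nX C q) = ((ma * nv3 C q + mb * nv2 C q : ℝ) : ℂ) +
      ((C / q.1 : ℝ) : ℂ) * Complex.I := by
    unfold zU
    rw [eϖ, ezr]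
    have h1 : (C : ℂ) ≠ 0 := by exact_mod_cast hC
    have h2 : (rh : ℂ) ≠ 0 := by exact_mod_cast hrh.ne'
    have h3 : ((q.1 : ℝ) : ℂ) ≠ 0 := by exact_mod_cast hr.ne'
    push_cast
    field_simp
  refine ⟨?_, ?_, ezr, e2, ?_⟩
  · unfold z3 n3
    rw [ezr, hU, hw]
    refine Prod.ext rfl ?_
    simp only
    have h1 : nL3 C q / q.1 = C / q.1 + mb * (q.2.1 / q.1) := by
      unfold nL3
      ring
    rw [h1]
    unfold ma mb
    push_cast
    ring
  · unfold z2 n2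
    rw [ezr, hU, hw]
    refine Prod.ext rfl ?_
    simp only
    have h1 : nL2 C q / q.1 = C / q.1 - ma * (q.2.1 / q.1) := by
      unfold nL2
      ring
    rw [h1]
    unfold ma mb
    push_cast
    ring
  · rw [ezr, e2, hkey]
    positivity

theorem n_pPQ_pr (i : Fin 2) {C : ℝ} (hC : C ≠ 0) {q : ℝ × ℝ × ℝ} (hq : q ∈ NR C) :
    pP i (colD (limD C (nX C q) (nχ C q))) = nP i C q ∧
    pQ i (colD (limD C (nX C q) (nχ C q))) = nQ i C q := by
  obtain ⟨h3, h2, -⟩ := n_states_pr hC hq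
  obtain ⟨p3', p2'⟩ := z_p C (nX C q) (nχ C q)
  unfold pP pQ nP nQ
  rw [p3', p2', h3, h2]
  exact ⟨rfl, rfl⟩

theorem n_lam_pr (i : Fin 2) (C : ℝ) (q : ℝ × ℝ × ℝ) (hq : q ∈ NR C) (hl : q.2.1 = nlam i C) :
    kL (nP i C q) = 0 ∧ kL (nQ i C q) = C / mQ i := by
  have h3 := (n3_facts hq).2.2.2.2.1
  have h2 := (n2_facts hq).2.2.2.2.1
  unfold nP nQ mQ
  unfold nlam at hl
  by_cases hi : i = 0
  · rw [if_pos hi] at hl ⊢
    rw [if_pos hi, if_pos hi, h3, h2]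
    unfold nL3 nL2
    rw [hl]
    unfold ma mb
    constructor <;> ring
  · rw [if_neg hi] at hl ⊢
    rw [if_neg hi, if_neg hi, h3, h2]
    unfold nL3 nL2
    rw [hl]
    unfold ma mb
    constructor <;> ring

end

end Pool.Agent.HS

namespace Pool.Agent.HS
open Set Filter Topology
open scoped ContDiff

theorem n_states {C : ℝ} (hC : C ≠ 0) {q : ℝ × ℝ × ℝ} (hq : q ∈ NR C) :
    z3 C (nX C q) (nχ C q) = n3 C q ∧ z2 C (nX C q) (nχ C q) = n2 C q ∧
    zr C (nX C q) = q.1 ∧ (chart C (nX C q)).2 = ma * nv3 C q + mb * nv2 C q ∧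
    0 < E0 + 1 / zr C (nX C q) -
      ((chart C (nX C q)).2 ^ 2 + C ^ 2 / zr C (nX C q) ^ 2) / 2 :=
  @Pool.Agent.HS.n_states_pr C hC q hq

end Pool.Agent.HS

namespace Pool.Agent.HS
open Set Filter Topology
open scoped ContDiff

theorem n_pPQ (i : Fin 2) {C : ℝ} (hC : C ≠ 0) {q : ℝ × ℝ × ℝ} (hq : q ∈ NR C) :
    pP i (colD (limD C (nX C q) (nχ C q))) = nP i C q ∧
    pQ i (colD (limD C (nX C q) (nχ C q))) = nQ i C q :=
  @Pool.Agent.HS.n_pPQ_pr i C hC q hq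

end Pool.Agent.HS

namespace Pool.Agent.HS
open Set Filter Topology
open scoped ContDiff

theorem n_lam (i : Fin 2) (C : ℝ) (q : ℝ × ℝ × ℝ) (hq : q ∈ NR C) (hl : q.2.1 = nlam i C) :
    kL (nP i C q) = 0 ∧ kL (nQ i C q) = C / mQ i :=
  @Pool.Agent.HS.n_lam_pr i C q hq hl

end Pool.Agent.HS
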