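import Pool.Agent.Lib_helper60.HSF.D_WM
import Pool.Agent.Lib_helper60.HSF.K_KA1
import Pool.Agent.Lib_helper60.HSF.K_KB2
import Pool.Agent.Lib_helper60.HSF.M_MJ1
import Pool.Agent.Lib_helper60.HSF.M_NA2
import Pool.Agent.Lib_helper60.HSF.K_KC2
import Pool.Agent.Lib_helper60.HSF.K_KL2
import Pool.Agent.Lib_helper60.HSF.K_KL1

/-! HSM block MJ2: no collision -/

namespace Pool.Agent.HS

noncomputable section

open Set Filter Topology
open scoped ContDiff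

theorem mj2_kT0 (y : KS) : kT y 0 = 0 := by
  simp [kT]

theorem mj2_kT (y : KS) (m : ℤ) : kT y (2 * Real.pi * m) = kPer y * m := by
  have := kT_per y 0 m
  rw [zero_add, mj2_kT0, zero_add] at this
  exact this

theorem m1_free_pr (i : Fin 2) {C : ℝ} (hC : C ≠ 0) {q : ℝ × ℝ × ℝ} (hq : q ∈ NR C) {K : ℕ}
    (hK : 0 < K) (hε : q.2.2 = 1 / K) (hP : Ell (nP i C q)) (hQ : Ell (nQ i C q)) {sB sB' : ℝ}
    (h2 : Two (nP i C q) (nQ i C q) sB sB')
    (hτ : ∀ j : ℤ, kT (nP i C q) sB - kT (nQ i C q) sB' ≠ j * (kPer (n2 C q) / K)) :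
    ∀ t ∈ Ioo 0 (T0 C i (nX C q) (nχ C q) K (2 * K + 1)),
      lcX (Zd i (limD C (nX C q) (nχ C q)) t) ≠ 0 := by
  intro t ht h0
  set y := colD (limD C (nX C q) (nχ C q)) with hy
  obtain ⟨hp, hpQ⟩ := n_pPQ i hC hq
  rw [← hy] at hp hpQ
  set P := nP i C q with hPd
  set Q := nQ i C q with hQd
  have hP1 : P.1 ≠ 0 := kL_ne hP.2
  have hQ1 : Q.1 ≠ 0 := kL_ne hQ.2
  have hA : 0 < kA P := kA_pos hP.1
  have hsA : 0 < Real.sqrt (kA P) := Real.sqrt_pos.2 hA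
  have hxi := lc_xi i (y := y) (by rw [hp]; exact hP.1) (by rw [hp]; exact hP1)
    (by rw [hpQ]; exact hQ) t
  have e0 : lcX (Zd i (limD C (nX C q) (nχ C q)) t) = lcX (lz0 i t (toLC i 0 y)) := rfl
  rw [e0, hxi, hp, hpQ, sub_eq_zero] at h0
  -- the end of the arc
  have hw := (lz_w i (y := y) (by rw [hp]; exact hP.1) (by rw [hp]; exact hP1)).1
  rw [hp] at hw
  have hT0 : T0 C i (nX C q) (nχ C q) K (2 * K + 1) =
      (kKP i K : ℝ) * (2 * Real.pi * Real.sqrt (kA P)) := by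
    have e1 : Real.pi / lzw i (toLC i 0 y) = 2 * Real.pi * Real.sqrt (kA P) := by
      rw [hw]; field_simp
    unfold T0 kKP
    rw [← hy, e1]
  rw [hT0] at ht
  set s := t / Real.sqrt (kA P) with hs
  have hs0 : 0 < s := div_pos ht.1 hsA
  have hs1 : s < 2 * Real.pi * kKP i K := by
    rw [hs, div_lt_iff₀ hsA]
    calc t < _ := ht.2
      _ = _ := by ring
  set s' := kS Q (kT P s) with hs'
  have h3 : kX P s = kX Q s' := h0
  have h4 : kT Q s' = kT P s := kT_kS hQ.1 hQ1 _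
  obtain ⟨hω, hperP, hperQ⟩ := n_per_K i hq hK hε
  obtain ⟨k1, k2, k3⟩ := kk_facts i hK
  rcases h2 s s' h3 with ⟨m, n, hm, hn⟩ | ⟨m, n, hm, hn⟩
  · rw [hm, hn, mj2_kT, mj2_kT, hperP, hperQ] at h4
    have h5 : (kKP i K : ℝ) * n = kKQ i K * m := by
      have h6 : (kPer (n2 C q) / K) * ((kKP i K : ℝ) * n) =
          (kPer (n2 C q) / K) * (kKQ i K * m) := by linarith
      exact mul_left_cancel₀ hω.ne' h6
    have h7 : (kKP i K : ℤ) * n = kKQ i K * m := by exact_mod_cast h5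
    have h8 : (kKP i K : ℤ) ∣ m := by
      have : (kKP i K : ℤ) ∣ (kKQ i K : ℤ) * m := ⟨n, h7.symm⟩
      exact k3.dvd_of_dvd_mul_left this
    have hpi : (0 : ℝ) < 2 * Real.pi := by positivity
    have hm0 : (0 : ℝ) < m := by
      rw [hm] at hs0
      exact pos_of_mul_pos_right hs0 hpi.le
    have hm1 : (m : ℝ) < kKP i K := by
      rw [hm] at hs1
      exact lt_of_mul_lt_mul_left hs1 hpi.le
    have hm0' : 0 < m := by exact_mod_cast hm0
    have hm1' : m < (kKP i K : ℤ) := by exact_mod_cast hm1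
    have := Int.le_of_dvd hm0' h8
    omega
  · rw [hm, hn, kT_per, kT_per, hperP, hperQ] at h4
    apply hτ (kKP i K * n - kKQ i K * m)
    push_cast
    linarith

end

end Pool.Agent.HS

namespace Pool.Agent.HS
open Set Filter Topology
open scoped ContDiff

theorem m1_free (i : Fin 2) {C : ℝ} (hC : C ≠ 0) {q : ℝ × ℝ × ℝ} (hq : q ∈ NR C) {K : ℕ}
    (hK : 0 < K) (hε : q.2.2 = 1 / K) (hP : Ell (nP i C q)) (hQ : Ell (nQ i C q)) {sB sB' : ℝ}
    (h2 : Two (nP i C q) (nQ i C q) sB sB')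
    (hτ : ∀ j : ℤ, kT (nP i C q) sB - kT (nQ i C q) sB' ≠ j * (kPer (n2 C q) / K)) :
    ∀ t ∈ Ioo 0 (T0 C i (nX C q) (nχ C q) K (2 * K + 1)),
      lcX (Zd i (limD C (nX C q) (nχ C q)) t) ≠ 0 :=
  @Pool.Agent.HS.m1_free_pr i C hC q hq K hK hε hP hQ sB sB' h2 hτ

end Pool.Agent.HS
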