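import Pool.Agent.Lib_helper60.HSF.D_WM
import Pool.Agent.Lib_helper60.HSF.K_KE1
import Pool.Agent.Lib_helper60.HSF.K_KA1
import Pool.Agent.Lib_helper60.HSF.K_KC1
import Pool.Agent.Lib_helper60.HSF.K_KD1
import Pool.Agent.Lib_helper60.HSF.K_KE2

/-!
# Project HS, part S1-M1, block MK: determinant of the event equation (helper75, adapted from
block ZN2 of helper50)
-/

namespace Pool.Agent.HS

noncomputable section

open Set Filter Topology
open scoped ContDiff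

theorem mk_kA_diff {y0 : KS} (h : kh' y0 < 0) (h0 : y0.1 ≠ 0) : DifferentiableAt ℝ kA y0 := by
  have hsnd : DifferentiableAt ℝ (fun y : KS => y.2) y0 := differentiableAt_snd
  have hfst : DifferentiableAt ℝ (fun y : KS => y.1) y0 := differentiableAt_fst
  have a1 : DifferentiableAt ℝ (fun y : KS => ‖y.2‖ ^ 2) y0 := hsnd.norm_sq ℝ
  have a2 : DifferentiableAt ℝ (fun y : KS => ‖y.1‖) y0 := hfst.norm ℝ h0
  have hn : (fun y : KS => ‖y.1‖) y0 ≠ 0 := norm_ne_zero_iff.mpr h0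
  have a3 : DifferentiableAt ℝ (fun y : KS => (‖y.1‖)⁻¹) y0 := a2.fun_inv hn
  have a4 : DifferentiableAt ℝ (fun y : KS => (1 / 2 : ℝ) * ‖y.2‖ ^ 2) y0 := a1.const_mul (1 / 2)
  have e1 : kh' = fun y : KS => (1 / 2 : ℝ) * ‖y.2‖ ^ 2 - (‖y.1‖)⁻¹ := by
    funext y
    unfold kh'
    ring
  have h1 : DifferentiableAt ℝ kh' y0 := by
    rw [e1]
    exact a4.fun_sub a3
  have h2 : DifferentiableAt ℝ (fun y : KS => -(2 * kh' y)) y0 := (h1.const_mul 2).fun_neg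
  have h3 : (fun y : KS => -(2 * kh' y)) y0 ≠ 0 := neg_ne_zero.mpr (mul_ne_zero two_ne_zero h.ne)
  have e2 : kA = fun y : KS => (-(2 * kh' y))⁻¹ := by
    funext y
    unfold kA
    rw [inv_neg, div_eq_mul_inv]
    ring
  rw [e2]
  exact h2.fun_inv h3

theorem mk_kX_at {y0 : KS} (h : Ell y0) (s : ℝ) :
    DifferentiableAt ℝ (fun p : KS × ℝ => kX p.1 p.2) (y0, s) := by
  have ho : IsOpen {p : KS × ℝ | kh' p.1 < 0 ∧ p.1.1 ≠ 0} := isOpen_neg.preimage continuous_fst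
  have hm : ((y0, s) : KS × ℝ) ∈ {p : KS × ℝ | kh' p.1 < 0 ∧ p.1.1 ≠ 0} := ⟨h.1, kL_ne h.2⟩
  exact ((kX_smooth _ hm).contDiffAt (ho.mem_nhds hm)).differentiableAt (by simp)

theorem mk_kT_at {y0 : KS} (h : Ell y0) (s : ℝ) :
    DifferentiableAt ℝ (fun p : KS × ℝ => kT p.1 p.2) (y0, s) := by
  have ho : IsOpen {p : KS × ℝ | kh' p.1 < 0 ∧ p.1.1 ≠ 0} := isOpen_neg.preimage continuous_fst
  have hm : ((y0, s) : KS × ℝ) ∈ {p : KS × ℝ | kh' p.1 < 0 ∧ p.1.1 ≠ 0} := ⟨h.1, kL_ne h.2⟩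
  exact ((kT_smooth _ hm).contDiffAt (ho.mem_nhds hm)).differentiableAt (by simp)

theorem mk_kep_at {y0 : KS} (h : Ell y0) (t : ℝ) :
    DifferentiableAt ℝ (fun p : ℝ × KS => (kep p.1 p.2).1) (t, y0) := by
  have ho : IsOpen {p : ℝ × KS | Ell p.2} := isOpen_ell.preimage continuous_snd
  have hm : ((t, y0) : ℝ × KS) ∈ {p : ℝ × KS | Ell p.2} := h
  exact (((kep_smooth _ hm).contDiffAt (ho.mem_nhds hm)).differentiableAt (by simp)).fst

/-- derivative of the position along the flow -/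
theorem mk_kep_fst {y0 : KS} (h : Ell y0) (t : ℝ) :
    HasDerivAt (fun t => (kep t y0).1) (kep t y0).2 t :=
  (ContinuousLinearMap.fst ℝ ℂ ℂ).hasFDerivAt.comp_hasDerivAt t (kep_ode h t)

/-- determinant of the event equation along a curve -/
theorem ev_det_pr (y : ℂ) (P Q : ℝ → KS) (s s' : ℝ → ℝ) (r0 : ℝ) (hP : ContDiffAt ℝ 2 P r0)
    (hQ : ContDiffAt ℝ 2 Q r0) (hs : ContDiffAt ℝ 2 s r0) (hs' : ContDiffAt ℝ 2 s' r0)
    (he : ∀ᶠ r in 𝓝 r0, Ell (P r) ∧ Ell (Q r))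
    (hX : ∀ᶠ r in 𝓝 r0, kX (P r) (s r) = y * kX (Q r) (s' r))
    (hT : kT (P r0) (s r0) = kT (Q r0) (s' r0))
    (hd : deriv (fun r => kT (P r) (s r) - kT (Q r) (s' r)) r0 ≠ 0)
    (hW : kcr y (P r0) (Q r0) (s r0) (s' r0) ≠ 0) :
    let g := fun p : ℝ × ℝ => kX (P p.1) (p.2 / Real.sqrt (kA (P p.1))) -
      y * (kep (kT (P p.1) (p.2 / Real.sqrt (kA (P p.1)))) (Q p.1)).1
    let τ0 := Real.sqrt (kA (P r0)) * s r0
    g (r0, τ0) = 0 ∧ ((starRingEnd ℂ) (deriv (fun t => g (r0, t)) τ0) *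
      deriv (fun r => g (r, τ0)) r0).im ≠ 0 := by
  intro g τ0
  obtain ⟨h1, h2⟩ := he.self_of_nhds
  have hA : 0 < kA (P r0) := kA_pos h1.1
  have hsA : 0 < √(kA (P r0)) := Real.sqrt_pos.mpr hA
  have hτ0 : τ0 / √(kA (P r0)) = s r0 := by
    show √(kA (P r0)) * s r0 / √(kA (P r0)) = s r0
    field_simp
  have hX0 := hX.self_of_nhds
  have hkep : kep (kT (P r0) (s r0)) (Q r0) = kY (Q r0) (s' r0) := by
    rw [hT, kep_kT h2]
  -- differentiability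
  have hyd : DifferentiableAt ℝ P r0 := hP.differentiableAt (by simp)
  have hyd' : DifferentiableAt ℝ Q r0 := hQ.differentiableAt (by simp)
  have hsd : DifferentiableAt ℝ s r0 := hs.differentiableAt (by simp)
  have hsd' : DifferentiableAt ℝ s' r0 := hs'.differentiableAt (by simp)
  have hAd : DifferentiableAt ℝ (fun r => √(kA (P r))) r0 :=
    ((mk_kA_diff h1.1 (kL_ne h1.2)).comp r0 hyd).sqrt hA.ne'
  have hfst : DifferentiableAt ℝ (fun p : ℝ × ℝ => p.1) (r0, τ0) := differentiableAt_fst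
  have hAp : DifferentiableAt ℝ (fun p : ℝ × ℝ => √(kA (P p.1))) (r0, τ0) :=
    DifferentiableAt.comp (𝕜 := ℝ) (g := fun r => √(kA (P r))) (f := fun p : ℝ × ℝ => p.1)
      (r0, τ0) hAd hfst
  have hyp : DifferentiableAt ℝ (fun p : ℝ × ℝ => P p.1) (r0, τ0) :=
    DifferentiableAt.comp (𝕜 := ℝ) (g := P) (f := fun p : ℝ × ℝ => p.1) (r0, τ0) hyd hfst
  have hyp' : DifferentiableAt ℝ (fun p : ℝ × ℝ => Q p.1) (r0, τ0) :=
    DifferentiableAt.comp (𝕜 := ℝ) (g := Q) (f := fun p : ℝ × ℝ => p.1) (r0, τ0) hyd' hfst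
  have hAn : (fun p : ℝ × ℝ => √(kA (P p.1))) (r0, τ0) ≠ 0 := hsA.ne'
  have hsnd : DifferentiableAt ℝ (fun p : ℝ × ℝ => p.2) (r0, τ0) := differentiableAt_snd
  have hqp : DifferentiableAt ℝ (fun p : ℝ × ℝ => p.2 / √(kA (P p.1))) (r0, τ0) := by
    have h3 : DifferentiableAt ℝ (fun p : ℝ × ℝ => p.2 * (√(kA (P p.1)))⁻¹) (r0, τ0) :=
      hsnd.fun_mul (hAp.fun_inv hAn)
    simpa only [div_eq_mul_inv] using h3
  have hpair : DifferentiableAt ℝ (fun p : ℝ × ℝ => ((P p.1, p.2 / √(kA (P p.1))) : KS × ℝ))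
      (r0, τ0) := hyp.prodMk hqp
  have hf1 : DifferentiableAt ℝ (fun p : ℝ × ℝ => kX (P p.1) (p.2 / √(kA (P p.1)))) (r0, τ0) :=
    DifferentiableAt.comp (𝕜 := ℝ) (g := fun p : KS × ℝ => kX p.1 p.2)
      (f := fun p : ℝ × ℝ => ((P p.1, p.2 / √(kA (P p.1))) : KS × ℝ)) (r0, τ0)
      (mk_kX_at h1 _) hpair
  have hf2 : DifferentiableAt ℝ (fun p : ℝ × ℝ => kT (P p.1) (p.2 / √(kA (P p.1)))) (r0, τ0) :=
    DifferentiableAt.comp (𝕜 := ℝ) (g := fun p : KS × ℝ => kT p.1 p.2)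
      (f := fun p : ℝ × ℝ => ((P p.1, p.2 / √(kA (P p.1))) : KS × ℝ)) (r0, τ0)
      (mk_kT_at h1 _) hpair
  have hf3 : DifferentiableAt ℝ (fun p : ℝ × ℝ =>
      (kep (kT (P p.1) (p.2 / √(kA (P p.1)))) (Q p.1)).1) (r0, τ0) :=
    DifferentiableAt.comp (𝕜 := ℝ) (g := fun p : ℝ × KS => (kep p.1 p.2).1)
      (f := fun p : ℝ × ℝ => ((kT (P p.1) (p.2 / √(kA (P p.1))), Q p.1) : ℝ × KS)) (r0, τ0)
      (mk_kep_at h2 _) (hf2.prodMk hyp')
  have hf : DifferentiableAt ℝ g (r0, τ0) := hf1.sub (hf3.const_mul y)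
  obtain ⟨D, hD⟩ := hf
  have e1 : HasDerivAt (fun r => g (r, τ0)) (D (1, 0)) r0 :=
    hD.comp_hasDerivAt r0 ((hasDerivAt_id r0).prodMk (hasDerivAt_const r0 τ0))
  have e2 : HasDerivAt (fun τ => g (r0, τ)) (D (0, 1)) τ0 :=
    hD.comp_hasDerivAt τ0 ((hasDerivAt_const τ0 r0).prodMk (hasDerivAt_id τ0))
  obtain ⟨τ1, hτ1⟩ : ∃ τ1, HasDerivAt (fun r => √(kA (P r)) * s r) τ1 r0 :=
    ⟨_, (hAd.mul hsd).hasDerivAt⟩
  have e3 : HasDerivAt (fun r => g (r, √(kA (P r)) * s r)) (D (1, τ1)) r0 :=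
    HasFDerivAt.comp_hasDerivAt (l := g) (f := fun r => (r, √(kA (P r)) * s r)) r0 hD
      ((hasDerivAt_id r0).prodMk hτ1)
  have e4 : D (1, τ1) = D (1, 0) + (τ1 : ℂ) * D (0, 1) := by
    have : ((1, τ1) : ℝ × ℝ) = (1, 0) + τ1 • (0, 1) := by ext <;> simp
    rw [this, map_add, map_smul, Complex.real_smul]
  -- the times
  have ht : DifferentiableAt ℝ (fun r => kT (P r) (s r)) r0 :=
    DifferentiableAt.comp (𝕜 := ℝ) (g := fun p : KS × ℝ => kT p.1 p.2)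
      (f := fun r => ((P r, s r) : KS × ℝ)) r0 (mk_kT_at h1 _) (hyd.prodMk hsd)
  have ht' : DifferentiableAt ℝ (fun r => kT (Q r) (s' r)) r0 :=
    DifferentiableAt.comp (𝕜 := ℝ) (g := fun p : KS × ℝ => kT p.1 p.2)
      (f := fun r => ((Q r, s' r) : KS × ℝ)) r0 (mk_kT_at h2 _) (hyd'.prodMk hsd')
  obtain ⟨a, ha⟩ : ∃ a, HasDerivAt (fun r => kT (P r) (s r)) a r0 := ⟨_, ht.hasDerivAt⟩
  obtain ⟨a', ha'⟩ : ∃ a, HasDerivAt (fun r => kT (Q r) (s' r)) a r0 := ⟨_, ht'.hasDerivAt⟩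
  have hΔ : a - a' ≠ 0 := by
    rw [← (ha.fun_sub ha').deriv]
    exact hd
  -- the flow
  obtain ⟨b, hb⟩ : ∃ b, HasDerivAt Q b r0 := ⟨_, hyd'.hasDerivAt⟩
  obtain ⟨DK, hDK⟩ := mk_kep_at h2 (kT (P r0) (s r0))
  have hDK' : HasFDerivAt (fun p : ℝ × KS => (kep p.1 p.2).1) DK
      (kT (Q r0) (s' r0), Q r0) := by rw [← hT]; exact hDK
  have g1 : HasDerivAt (fun r => (kep (kT (P r) (s r)) (Q r)).1) (DK (a, b)) r0 :=
    HasFDerivAt.comp_hasDerivAt (l := fun p : ℝ × KS => (kep p.1 p.2).1)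
      (f := fun r => ((kT (P r) (s r), Q r) : ℝ × KS)) r0 hDK (ha.prodMk hb)
  have g2 : HasDerivAt (fun r => (kep (kT (Q r) (s' r)) (Q r)).1) (DK (a', b)) r0 :=
    HasFDerivAt.comp_hasDerivAt (l := fun p : ℝ × KS => (kep p.1 p.2).1)
      (f := fun r => ((kT (Q r) (s' r), Q r) : ℝ × KS)) r0 hDK' (ha'.prodMk hb)
  have g3 : HasDerivAt (fun t => (kep t (Q r0)).1) (DK (1, 0)) (kT (P r0) (s r0)) :=
    HasFDerivAt.comp_hasDerivAt (l := fun p : ℝ × KS => (kep p.1 p.2).1)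
      (f := fun t => ((t, Q r0) : ℝ × KS)) _ hDK ((hasDerivAt_id _).prodMk (hasDerivAt_const _ _))
  have g4 : DK (1, 0) = kV (Q r0) (s' r0) := by
    rw [g3.unique (mk_kep_fst h2 _), hkep]
    rfl
  have g5 : DK (a', b) - DK (a, b) = ((a' - a : ℝ) : ℂ) * kV (Q r0) (s' r0) := by
    rw [← map_sub, ← g4, ← Complex.real_smul, ← map_smul]
    congr 1
    ext <;> simp
  have g6 : HasDerivAt (fun r => g (r, √(kA (P r)) * s r)) (y * (DK (a', b) - DK (a, b))) r0 := by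
    refine ((g2.fun_sub g1).const_mul y).congr_of_eventuallyEq ?_
    filter_upwards [he, hX] with r hr hrX
    have hA' : 0 < √(kA (P r)) := Real.sqrt_pos.mpr (kA_pos hr.1.1)
    show kX (P r) (√(kA (P r)) * s r / √(kA (P r))) -
      y * (kep (kT (P r) (√(kA (P r)) * s r / √(kA (P r)))) (Q r)).1 = _
    have h3 : √(kA (P r)) * s r / √(kA (P r)) = s r := by field_simp
    rw [h3, hrX, kep_kT hr.2]
    show y * kX (Q r) (s' r) - y * (kep (kT (P r) (s r)) (Q r)).1 =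
      y * (kX (Q r) (s' r) - (kep (kT (P r) (s r)) (Q r)).1)
    ring
  have e5 : D (1, τ1) = y * (((a' - a : ℝ) : ℂ) * kV (Q r0) (s' r0)) := by
    rw [e3.unique g6, g5]
  -- the derivative in `τ`
  have hq : HasDerivAt (fun τ : ℝ => τ / √(kA (P r0))) (1 / √(kA (P r0))) τ0 :=
    (hasDerivAt_id τ0).div_const _
  have k1 : HasDerivAt (fun τ : ℝ => kX (P r0) (τ / √(kA (P r0))))
      ((1 / √(kA (P r0))) • (((√(kA (P r0)) * kR (P r0) (s r0) : ℝ) : ℂ) *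
        kV (P r0) (s r0))) τ0 := by
    have := kX_deriv h1 (s r0)
    rw [← hτ0] at this
    have h3 := this.scomp τ0 hq
    rw [hτ0] at h3
    exact h3
  have k2 : HasDerivAt (fun τ : ℝ => kT (P r0) (τ / √(kA (P r0))))
      (√(kA (P r0)) * kR (P r0) (s r0) * (1 / √(kA (P r0)))) τ0 := by
    have := kT_deriv h1.1 (s r0)
    rw [← hτ0] at this
    have h3 := this.comp τ0 hq
    rw [hτ0] at h3
    exact h3
  have k3 : HasDerivAt (fun τ : ℝ => (kep (kT (P r0) (τ / √(kA (P r0)))) (Q r0)).1)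
      ((√(kA (P r0)) * kR (P r0) (s r0) * (1 / √(kA (P r0)))) • kV (Q r0) (s' r0)) τ0 := by
    have h3 := mk_kep_fst h2 (kT (P r0) (τ0 / √(kA (P r0))))
    have h4 := HasDerivAt.scomp (h := fun τ : ℝ => kT (P r0) (τ / √(kA (P r0))))
      (g₁ := fun t => (kep t (Q r0)).1) τ0 h3 k2
    rw [hτ0, hkep] at h4
    exact h4
  have k4 : D (0, 1) = ((kR (P r0) (s r0) : ℝ) : ℂ) *
      (kV (P r0) (s r0) - y * kV (Q r0) (s' r0)) := by
    have h3 := e2.unique (k1.fun_sub (k3.const_mul y))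
    rw [h3, Complex.real_smul, Complex.real_smul]
    have h4 : ((√(kA (P r0)) : ℝ) : ℂ) ≠ 0 := by exact_mod_cast hsA.ne'
    push_cast
    field_simp
  refine ⟨?_, ?_⟩
  · show kX (P r0) (τ0 / √(kA (P r0))) - y * (kep (kT (P r0) (τ0 / √(kA (P r0)))) (Q r0)).1 = 0
    rw [hτ0, hkep, hX0]
    exact sub_self _
  · rw [e1.deriv, e2.deriv]
    have h3 : D (1, 0) = y * (((a' - a : ℝ) : ℂ) * kV (Q r0) (s' r0)) - (τ1 : ℂ) * D (0, 1) := by
      rw [← e5, e4]; ring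
    have hR : 0 < kR (P r0) (s r0) := kR_pos h1 _
    have h4 : ((starRingEnd ℂ) (D (0, 1)) * D (1, 0)).im =
        (a' - a) * kR (P r0) (s r0) * kcr y (P r0) (Q r0) (s r0) (s' r0) := by
      rw [h3, k4]
      unfold kcr
      generalize kV (P r0) (s r0) = v
      generalize kV (Q r0) (s' r0) = v'
      simp only [map_sub, map_mul, Complex.conj_ofReal, Complex.mul_im, Complex.mul_re,
        Complex.sub_re, Complex.sub_im, Complex.conj_re, Complex.conj_im, Complex.ofReal_re,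
        Complex.ofReal_im]
      ring
    rw [h4]
    have hΔ' : a' - a ≠ 0 := by
      intro h0
      exact hΔ (by linarith)
    exact mul_ne_zero (mul_ne_zero hΔ' hR.ne') hW


end

end Pool.Agent.HS

namespace Pool.Agent.HS
open Set Filter Topology
open scoped ContDiff

theorem ev_det (y : ℂ) (P Q : ℝ → KS) (s s' : ℝ → ℝ) (r0 : ℝ) (hP : ContDiffAt ℝ 2 P r0)
    (hQ : ContDiffAt ℝ 2 Q r0) (hs : ContDiffAt ℝ 2 s r0) (hs' : ContDiffAt ℝ 2 s' r0)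
    (he : ∀ᶠ r in 𝓝 r0, Ell (P r) ∧ Ell (Q r))
    (hX : ∀ᶠ r in 𝓝 r0, kX (P r) (s r) = y * kX (Q r) (s' r))
    (hT : kT (P r0) (s r0) = kT (Q r0) (s' r0))
    (hd : deriv (fun r => kT (P r) (s r) - kT (Q r) (s' r)) r0 ≠ 0)
    (hW : kcr y (P r0) (Q r0) (s r0) (s' r0) ≠ 0) :
    let g := fun p : ℝ × ℝ => kX (P p.1) (p.2 / Real.sqrt (kA (P p.1))) -
      y * (kep (kT (P p.1) (p.2 / Real.sqrt (kA (P p.1)))) (Q p.1)).1
    let τ0 := Real.sqrt (kA (P r0)) * s r0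
    g (r0, τ0) = 0 ∧ ((starRingEnd ℂ) (deriv (fun t => g (r0, t)) τ0) *
      deriv (fun r => g (r, τ0)) r0).im ≠ 0 :=
  @Pool.Agent.HS.ev_det_pr y P Q s s' r0 hP hQ hs hs' he hX hT hd hW

end Pool.Agent.HS
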