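import Pool.Agent.Lib_helper60.HSF.D_WM

/-! HSM block ML: Taylor expansion and transversal zero -/

namespace Pool.Agent.HS

noncomputable section

open Set Filter Topology
open scoped ContDiff

theorem ml_taylor {g0 : Pl × ℝ → ℂ} {p0 : Pl × ℝ} (hg : ContDiffAt ℝ 2 g0 p0) :
    ∃ Q h' : ℝ, 0 < h' ∧ ∀ p ∈ Metric.closedBall p0 h',
      ‖g0 p - g0 p0 - fderiv ℝ g0 p0 (p - p0)‖ ≤ Q * ‖p - p0‖ ^ 2 := by
  have h1 : ContDiffAt ℝ 1 (fderiv ℝ g0) p0 := hg.fderiv_right (m := 1) (by norm_num)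
  obtain ⟨K, s, hs, hK⟩ := h1.exists_lipschitzOnWith
  have h2 : ∀ᶠ p in 𝓝 p0, DifferentiableAt ℝ g0 p := by
    have := (hg.eventually (by simp)).mono
      (fun p hp => hp.differentiableAt (by norm_num : (2 : WithTop ℕ∞) ≠ 0))
    exact this
  obtain ⟨δ, hδ, hB⟩ := Metric.nhds_basis_closedBall.mem_iff.1 (inter_mem hs h2)
  refine ⟨K, δ, hδ, fun p hp => ?_⟩
  rw [Metric.mem_closedBall, dist_eq_norm] at hp
  have hsub : Metric.closedBall p0 ‖p - p0‖ ⊆ Metric.closedBall p0 δ :=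
    Metric.closedBall_subset_closedBall hp
  have h3 := Convex.norm_image_sub_le_of_norm_hasFDerivWithin_le' (𝕜 := ℝ) (f := g0)
    (f' := fun x => fderiv ℝ g0 x) (φ := fderiv ℝ g0 p0) (C := K * ‖p - p0‖)
    (s := Metric.closedBall p0 ‖p - p0‖) (x := p0) (y := p)
    (fun x hx => (hB (hsub hx)).2.hasFDerivAt.hasFDerivWithinAt)
    (fun x hx => by
      have h4 := hK.dist_le_mul x (hB (hsub hx)).1 p0
        (hB (Metric.mem_closedBall_self hδ.le)).1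
      rw [dist_eq_norm] at h4
      refine h4.trans (mul_le_mul_of_nonneg_left ?_ K.2)
      exact hx)
    (convex_closedBall _ _) (Metric.mem_closedBall_self (norm_nonneg _))
    (by rw [Metric.mem_closedBall, dist_eq_norm])
  refine h3.trans (le_of_eq ?_)
  ring

theorem ml_lin (A : Pl × ℝ →L[ℝ] ℂ) (a b c : ℝ) :
    A ((a, b), c) = (a : ℝ) * A ((1, 0), 0) + (b : ℝ) * A ((0, 1), 0) + (c : ℝ) * A ((0, 0), 1) := by
  have e : (((a, b), c) : Pl × ℝ) =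
      a • (((1:ℝ), (0:ℝ)), (0:ℝ)) + b • (((0:ℝ), (1:ℝ)), (0:ℝ)) + c • (((0:ℝ), (0:ℝ)), (1:ℝ)) := by
    simp
  rw [e, map_add, map_add, map_smul, map_smul, map_smul]
  simp only [Complex.real_smul]

theorem ev_exp1_pr {g0 : Pl × ℝ → ℂ} {Xe : Pl} {τe : ℝ} (h : ℝ)
    (hg : ContDiffAt ℝ 2 g0 (Xe, τe)) :
    Exp1 g0 Xe τe h (fderiv ℝ g0 (Xe, τe) ((1, 0), 0)) (fderiv ℝ g0 (Xe, τe) ((0, 1), 0))
      (fderiv ℝ g0 (Xe, τe) ((0, 0), 1)) := by
  obtain ⟨Q, h', hh, H⟩ := ml_taylor hg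
  refine ⟨|Q|, h', hh, fun X hX t ht => ?_⟩
  have hp : ((X, t) : Pl × ℝ) ∈ Metric.closedBall ((Xe, τe) : Pl × ℝ) h' := by
    rw [Metric.mem_closedBall, Prod.dist_eq]
    refine max_le hX ?_
    rw [Real.dist_eq, abs_le]
    exact ⟨by linarith [ht.1], by linarith [ht.2]⟩
  have h1 := H _ hp
  have e : ((X, t) : Pl × ℝ) - (Xe, τe) = ((X.1 - Xe.1, X.2 - Xe.2), t - τe) := rfl
  rw [← ml_lin, ← e]
  refine h1.trans ?_
  have h2 : ‖((X, t) : Pl × ℝ) - (Xe, τe)‖ ≤ ‖X - Xe‖ + |t - τe| := by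
    rw [Prod.norm_def]
    exact max_le (by simp) (by simp)
  have h3 : ‖((X, t) : Pl × ℝ) - (Xe, τe)‖ ^ 2 ≤ (‖X - Xe‖ + |t - τe|) ^ 2 :=
    pow_le_pow_left₀ (norm_nonneg _) h2 2
  calc _ ≤ |Q| * ‖((X, t) : Pl × ℝ) - (Xe, τe)‖ ^ 2 :=
        mul_le_mul_of_nonneg_right (le_abs_self Q) (by positivity)
    _ ≤ _ := mul_le_mul_of_nonneg_left h3 (abs_nonneg _)

theorem ev_tzero_pr {g0 : Pl × ℝ → ℂ} {Xe : Pl} {τe : ℝ} (hg : ContDiffAt ℝ 2 g0 (Xe, τe))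
    (h0 : g0 (Xe, τe) = 0) {γ : ℝ → Pl} {r0 : ℝ} (hγ0 : γ r0 = Xe)
    (hγ : DifferentiableAt ℝ γ r0)
    (hd : ((starRingEnd ℂ) (deriv (fun t => g0 (Xe, t)) τe) *
      deriv (fun r => g0 (γ r, τe)) r0).im ≠ 0) : ∃ i' : Fin 2, ∀ h, TZero i' g0 Xe τe h := by
  have hgd : DifferentiableAt ℝ g0 (Xe, τe) := hg.differentiableAt (by norm_num)
  set A := fderiv ℝ g0 (Xe, τe) with hA
  have d1 : deriv (fun t => g0 (Xe, t)) τe = A ((0, 0), 1) := by
    have hc : HasDerivAt (fun t : ℝ => ((Xe, t) : Pl × ℝ)) ((0, 0), 1) τe :=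
      (hasDerivAt_const τe Xe).prodMk (hasDerivAt_id τe)
    exact (HasFDerivAt.comp_hasDerivAt τe hgd.hasFDerivAt hc).deriv
  have d2 : deriv (fun r => g0 (γ r, τe)) r0 =
      ((deriv γ r0).1 : ℝ) * A ((1, 0), 0) + ((deriv γ r0).2 : ℝ) * A ((0, 1), 0) := by
    have hc : HasDerivAt (fun r : ℝ => ((γ r, τe) : Pl × ℝ)) (deriv γ r0, 0) r0 :=
      hγ.hasDerivAt.prodMk (hasDerivAt_const r0 τe)
    have hgd' : HasFDerivAt g0 A (γ r0, τe) := by rw [hγ0]; exact hgd.hasFDerivAt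
    have := (HasFDerivAt.comp_hasDerivAt r0 hgd' hc).deriv
    have e : deriv (fun r => g0 (γ r, τe)) r0 = A (deriv γ r0, 0) := this
    rw [e]
    have := ml_lin A (deriv γ r0).1 (deriv γ r0).2 0
    rw [Complex.ofReal_zero, zero_mul, add_zero] at this
    exact this
  rw [d1, d2] at hd
  set ex := A ((1, 0), 0) with hex
  set ez := A ((0, 1), 0) with hez
  set eτ := A ((0, 0), 1) with heτ
  have key : ∃ i' : Fin 2, ∀ m ∈ Icc (slo i') (shi i'),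
      ((starRingEnd ℂ) eτ * (ex + m * ez)).im ≠ 0 := by
    by_contra hcon
    push Not at hcon
    obtain ⟨m0, hm0, e0⟩ := hcon 0
    obtain ⟨m1, hm1, e1⟩ := hcon 1
    have hm : m0 < m1 := by
      have h1 := hm0.2
      have h2 := hm1.1
      simp only [slo, shi] at h1 h2
      norm_num at h1 h2
      linarith
    have l0 : ((starRingEnd ℂ) eτ * ex).im + m0 * ((starRingEnd ℂ) eτ * ez).im = 0 := by
      rw [← e0]; simp only [Complex.mul_im, Complex.add_re, Complex.add_im, Complex.mul_re,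
        Complex.ofReal_re, Complex.ofReal_im]; ring
    have l1 : ((starRingEnd ℂ) eτ * ex).im + m1 * ((starRingEnd ℂ) eτ * ez).im = 0 := by
      rw [← e1]; simp only [Complex.mul_im, Complex.add_re, Complex.add_im, Complex.mul_re,
        Complex.ofReal_re, Complex.ofReal_im]; ring
    have l2 : ((starRingEnd ℂ) eτ * ez).im = 0 := by
      have : (m1 - m0) * ((starRingEnd ℂ) eτ * ez).im = 0 := by linarith
      rcases mul_eq_zero.1 this with h | h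
      · linarith
      · exact h
    have l3 : ((starRingEnd ℂ) eτ * ex).im = 0 := by rw [l2, mul_zero, add_zero] at l0; exact l0
    apply hd
    have : ((starRingEnd ℂ) eτ * (((deriv γ r0).1 : ℝ) * ex + ((deriv γ r0).2 : ℝ) * ez)).im =
        (deriv γ r0).1 * ((starRingEnd ℂ) eτ * ex).im +
          (deriv γ r0).2 * ((starRingEnd ℂ) eτ * ez).im := by
      simp only [Complex.mul_im, Complex.add_re, Complex.add_im, Complex.mul_re,
        Complex.ofReal_re, Complex.ofReal_im]; ring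
    rw [this, l2, l3]; ring
  obtain ⟨i', hi⟩ := key
  exact ⟨i', fun h => ⟨h0, ex, ez, eτ, ev_exp1_pr h hg, hi⟩⟩

end

end Pool.Agent.HS

namespace Pool.Agent.HS
open Set Filter Topology
open scoped ContDiff

theorem ev_exp1 {g0 : Pl × ℝ → ℂ} {Xe : Pl} {τe : ℝ} (h : ℝ) (hg : ContDiffAt ℝ 2 g0 (Xe, τe)) :
    Exp1 g0 Xe τe h (fderiv ℝ g0 (Xe, τe) ((1, 0), 0)) (fderiv ℝ g0 (Xe, τe) ((0, 1), 0))
      (fderiv ℝ g0 (Xe, τe) ((0, 0), 1)) :=
  @Pool.Agent.HS.ev_exp1_pr g0 Xe τe h hg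

end Pool.Agent.HS

namespace Pool.Agent.HS
open Set Filter Topology
open scoped ContDiff

theorem ev_tzero {g0 : Pl × ℝ → ℂ} {Xe : Pl} {τe : ℝ} (hg : ContDiffAt ℝ 2 g0 (Xe, τe))
    (h0 : g0 (Xe, τe) = 0) {γ : ℝ → Pl} {r0 : ℝ} (hγ0 : γ r0 = Xe)
    (hγ : DifferentiableAt ℝ γ r0)
    (hd : ((starRingEnd ℂ) (deriv (fun t => g0 (Xe, t)) τe) *
      deriv (fun r => g0 (γ r, τe)) r0).im ≠ 0) : ∃ i' : Fin 2, ∀ h, TZero i' g0 Xe τe h :=
  @Pool.Agent.HS.ev_tzero_pr g0 Xe τe hg h0 γ r0 hγ0 hγ hd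

end Pool.Agent.HS
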