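import Pool.Agent.Lib_helper60.HSF.D_WM
import Pool.Agent.Lib_helper60.HSF.K_KL3
import Pool.Agent.Lib_helper60.HSF.M_NB
import Pool.Agent.Lib_helper60.HSF.Z_ZA1

/-!
# Project HS, part S1-M1, block MM1
-/

namespace Pool.Agent.HS

noncomputable section

open Set Filter Topology Classical
open scoped ContDiff

theorem mm1_two : (2 : WithTop ℕ∞) ≤ ∞ := by
  exact ENat.LEInfty.out

theorem mm1_zr (C : ℝ) : ContDiff ℝ ∞ (fun X : Pl => zr C X) := by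
  unfold zr chart
  fun_prop

theorem mm1_c1 (C : ℝ) : ContDiff ℝ ∞ (fun X : Pl => (chart C X).1) := by
  unfold chart
  fun_prop

theorem mm1_c2 (C : ℝ) : ContDiff ℝ ∞ (fun X : Pl => (chart C X).2) := by
  unfold chart
  fun_prop

/-- the relative speed is smooth where it is positive -/
theorem mm1_zk {C : ℝ} {Xs : Pl} (hr : 0 < zr C Xs)
    (h0 : 0 < E0 + 1 / zr C Xs - ((chart C Xs).2 ^ 2 + C ^ 2 / zr C Xs ^ 2) / 2) :
    ContDiffAt ℝ ∞ (fun X : Pl => kap0 C (chart C X)) Xs := by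
  have hr' : 0 < (chart C Xs).1 := hr
  unfold kap0
  apply ContDiffAt.sqrt
  · have h1 := (mm1_c1 C).contDiffAt (x := Xs)
    have h2 := (mm1_c2 C).contDiffAt (x := Xs)
    apply ContDiffAt.mul contDiffAt_const
    apply ContDiffAt.sub
    · exact contDiffAt_const.add (contDiffAt_const.div h1 hr'.ne')
    · apply ContDiffAt.div_const
      exact (h2.pow 2).add (contDiffAt_const.div (h1.pow 2) (pow_pos hr' 2).ne')
  · have h0' : 0 < E0 + 1 / (chart C Xs).1 - ((chart C Xs).2 ^ 2 + C ^ 2 / (chart C Xs).1 ^ 2) / 2 :=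
      h0
    have : 0 < 2 / (ma * mb) := by unfold ma mb; norm_num
    exact (mul_pos this h0').ne'

theorem mm1_zX {C : ℝ} {Xs : Pl} {χs : ℝ} (hr : 0 < zr C Xs)
    (h0 : 0 < E0 + 1 / zr C Xs - ((chart C Xs).2 ^ 2 + C ^ 2 / zr C Xs ^ 2) / 2) :
    ContinuousAt (fun p : Pl × ℝ => zX C p.1 p.2) (Xs, χs) := by
  have hk : ContinuousAt (fun p : Pl × ℝ => zk C p.1) (Xs, χs) := by
    have := (mm1_zk hr h0).continuousAt
    exact ContinuousAt.comp (f := fun p : Pl × ℝ => p.1) (x := (Xs, χs)) this continuousAt_fst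
  have hz : ContinuousAt (fun p : Pl × ℝ => zr C p.1) (Xs, χs) :=
    ((mm1_zr C).continuous.comp continuous_fst).continuousAt
  have hϖ : ContinuousAt (fun p : Pl × ℝ => zϖ p.1) (Xs, χs) := by
    apply Continuous.continuousAt
    unfold zϖ
    fun_prop
  have hev : (fun p : Pl × ℝ => zX C p.1 p.2) =ᶠ[𝓝 (Xs, χs)] fun p =>
      zk C p.1 * (Real.cos p.2 / zr C p.1 - zϖ p.1 / rh * Real.sin p.2) := by
    have : ∀ᶠ p in 𝓝 (Xs, χs), 0 < zr C (p : Pl × ℝ).1 := hz.eventually_const_lt hr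
    filter_upwards [this] with p hp
    exact (z_L hp.ne' p.2).2.2.2
  refine ContinuousAt.congr ?_ hev.symm
  have hc : ContinuousAt (fun p : Pl × ℝ => Real.cos p.2) (Xs, χs) :=
    (Real.continuous_cos.comp continuous_snd).continuousAt
  have hs : ContinuousAt (fun p : Pl × ℝ => Real.sin p.2) (Xs, χs) :=
    (Real.continuous_sin.comp continuous_snd).continuousAt
  exact hk.mul ((hc.div hz hr.ne').sub ((hϖ.div_const rh).mul hs))

theorem chi_unique_pr {C : ℝ} {Xs : Pl} {χs : ℝ} (hC : 0 < C) (hr : 0 < zr C Xs)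
    (h0 : 0 < E0 + 1 / zr C Xs - ((chart C Xs).2 ^ 2 + C ^ 2 / zr C Xs ^ 2) / 2)
    (hzX : zX C Xs χs ≠ 0) : ∃ δ : ℝ, 0 < δ ∧ ∀ X ∈ Metric.ball Xs δ, ∀ χ1 χ2 : ℝ,
      |χ1 - χs| < δ → |χ2 - χs| < δ →
      kh' (z3 C X χ1) - kh' (z2 C X χ1) = kh' (z3 C X χ2) - kh' (z2 C X χ2) → χ1 = χ2 := by
  have hcont := mm1_zX (χs := χs) hr h0
  have hz : ContinuousAt (fun p : Pl × ℝ => zr C p.1) (Xs, χs) :=
    ((mm1_zr C).continuous.comp continuous_fst).continuousAt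
  have hev : ∀ᶠ p in 𝓝 (Xs, χs), 0 < zr C (p : Pl × ℝ).1 ∧ zX C (p : Pl × ℝ).1 p.2 ≠ 0 :=
    (hz.eventually_const_lt hr).and (hcont.eventually_ne hzX)
  obtain ⟨δ, hδ, hball⟩ := Metric.eventually_nhds_iff.mp hev
  refine ⟨δ, hδ, ?_⟩
  intro X hX χ1 χ2 h1 h2 he
  have key : ∀ a b : ℝ, |a - χs| < δ → |b - χs| < δ → a < b →
      kh' (z3 C X a) - kh' (z2 C X a) ≠ kh' (z3 C X b) - kh' (z2 C X b) := by
    intro a b ha hb hab heq
    have hin : ∀ c ∈ Icc a b, 0 < zr C X ∧ zX C X c ≠ 0 := by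
      intro c hc
      have hd : dist (X, c) (Xs, χs) < δ := by
        rw [Prod.dist_eq, max_lt_iff]
        refine ⟨hX, ?_⟩
        dsimp only
        rw [Real.dist_eq, abs_lt]
        rw [abs_lt] at ha hb
        constructor <;> linarith [hc.1, hc.2]
      exact hball hd
    have hzr := (hin a ⟨le_refl _, hab.le⟩).1
    obtain ⟨c, hc, hc0⟩ := exists_hasDerivAt_eq_zero (f := fun χ => kh' (z3 C X χ) - kh' (z2 C X χ))
      (f' := fun χ => C * zX C X χ) hab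
      (fun x _ => (z_denergy hzr x).continuousAt.continuousWithinAt) heq
      (fun x _ => z_denergy hzr x)
    exact (hin c ⟨hc.1.le, hc.2.le⟩).2 ((mul_eq_zero.mp hc0).resolve_left hC.ne')
  rcases lt_trichotomy χ1 χ2 with h | h | h
  · exact absurd he (key χ1 χ2 h1 h2 h)
  · exact h
  · exact absurd he.symm (key χ2 χ1 h2 h1 h)

theorem mm1_limD {C : ℝ} {Xs : Pl} {χ : Pl → ℝ} (hχ : ContDiffAt ℝ 2 χ Xs) (hr : 0 < zr C Xs)
    (h0 : 0 < E0 + 1 / zr C Xs - ((chart C Xs).2 ^ 2 + C ^ 2 / zr C Xs ^ 2) / 2) :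
    ContDiffAt ℝ 2 (fun X : Pl => limD C X (χ X)) Xs := by
  have hr' : (chart C Xs).1 ≠ 0 := hr.ne'
  have h1 : ContDiffAt ℝ 2 (fun X : Pl => (chart C X).1) Xs :=
    ((mm1_c1 C).contDiffAt).of_le mm1_two
  have h2 : ContDiffAt ℝ 2 (fun X : Pl => (chart C X).2) Xs :=
    ((mm1_c2 C).contDiffAt).of_le mm1_two
  have h3 : ContDiffAt ℝ 2 (fun X : Pl => kap0 C (chart C X)) Xs :=
    (mm1_zk hr h0).of_le mm1_two
  have o1 : ContDiffAt ℝ 2 (fun X : Pl => (((chart C X).1 : ℝ) : ℂ)) Xs :=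
    Complex.ofRealCLM.contDiff.contDiffAt.comp Xs h1
  have o2 : ContDiffAt ℝ 2 (fun X : Pl => (((chart C X).2 : ℝ) : ℂ)) Xs :=
    Complex.ofRealCLM.contDiff.contDiffAt.comp Xs h2
  have o3 : ContDiffAt ℝ 2 (fun X : Pl => (((C - ma * mb * 0 ^ 2 * 0) / (chart C X).1 : ℝ) : ℂ)) Xs :=
    Complex.ofRealCLM.contDiff.contDiffAt.comp Xs (contDiffAt_const.div h1 hr')
  unfold limD Uenc
  exact o1.prodMk ((o2.add (o3.mul contDiffAt_const)).prodMk (h3.prodMk hχ))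

theorem mid_smooth_pr (i : Fin 2) {C : ℝ} {Xs : Pl} {χ : Pl → ℝ} (y : ℂ)
    (hχ : ContDiffAt ℝ 2 χ Xs) (hr : 0 < zr C Xs)
    (h0 : 0 < E0 + 1 / zr C Xs - ((chart C Xs).2 ^ 2 + C ^ 2 / zr C Xs ^ 2) / 2)
    (hP : kh' (pP i (colD (limD C Xs (χ Xs)))) < 0) (hQ : Ell (pQ i (colD (limD C Xs (χ Xs)))))
    (τ : ℝ) :
    ContDiffAt ℝ 2 (fun p : Pl × ℝ => Zd i (limD C p.1 (χ p.1)) p.2) (Xs, τ) ∧
    ContDiffAt ℝ 2 (midG C i χ y) (Xs, τ) := by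
  have hmain : ContDiffAt ℝ 2 (fun p : Pl × ℝ => Zd i (limD C p.1 (χ p.1)) p.2) (Xs, τ) := by
    have hS : limD C Xs (χ Xs) ∈ Sm i := by
      refine ⟨?_, hP, hQ⟩
      show 0 < ((((chart C Xs).1 : ℝ) : ℂ)).re
      rw [Complex.ofReal_re]
      exact hr
    have hopen : IsOpen {p : Dt × ℝ | p.1 ∈ Sm i} := (Zd_smooth i).2.preimage continuous_fst
    have hZ : ContDiffAt ℝ 2 (fun p : Dt × ℝ => Zd i p.1 p.2) (limD C Xs (χ Xs), τ) :=
      (((Zd_smooth i).1).contDiffAt (hopen.mem_nhds hS)).of_le mm1_two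
    have hin : ContDiffAt ℝ 2 (fun p : Pl × ℝ => (limD C p.1 (χ p.1), p.2)) (Xs, τ) := by
      apply ContDiffAt.prodMk
      · exact ContDiffAt.comp (f := fun p : Pl × ℝ => p.1) (Xs, τ) (mm1_limD hχ hr h0) contDiffAt_fst
      · exact contDiffAt_snd
    exact ContDiffAt.comp (f := fun p : Pl × ℝ => (limD C p.1 (χ p.1), p.2)) (Xs, τ) hZ hin
  refine ⟨hmain, ?_⟩
  have e1 : ContDiffAt ℝ 2 (fun p : Pl × ℝ => (Zd i (limD C p.1 (χ p.1)) p.2).1) (Xs, τ) :=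
    contDiffAt_fst.comp (Xs, τ) hmain
  have e2 : ContDiffAt ℝ 2 (fun p : Pl × ℝ => (Zd i (limD C p.1 (χ p.1)) p.2).2.2.1) (Xs, τ) :=
    contDiffAt_fst.comp (Xs, τ) (contDiffAt_snd.comp (Xs, τ) (contDiffAt_snd.comp (Xs, τ) hmain))
  by_cases hy : y = 0
  · have : midG C i χ y = fun p : Pl × ℝ => (Zd i (limD C p.1 (χ p.1)) p.2).1 := by
      funext q
      simp [midG, hy]
    rw [this]
    exact e1
  · have : midG C i χ y = fun p : Pl × ℝ => (Zd i (limD C p.1 (χ p.1)) p.2).1 ^ 2 -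
        y * (Zd i (limD C p.1 (χ p.1)) p.2).2.2.1 := by
      funext q
      simp [midG, hy]
    rw [this]
    exact (e1.pow 2).sub (contDiffAt_const.mul e2)

end

end Pool.Agent.HS

namespace Pool.Agent.HS
open Set Filter Topology
open scoped ContDiff

theorem chi_unique {C : ℝ} {Xs : Pl} {χs : ℝ} (hC : 0 < C) (hr : 0 < zr C Xs)
    (h0 : 0 < E0 + 1 / zr C Xs - ((chart C Xs).2 ^ 2 + C ^ 2 / zr C Xs ^ 2) / 2)
    (hzX : zX C Xs χs ≠ 0) : ∃ δ : ℝ, 0 < δ ∧ ∀ X ∈ Metric.ball Xs δ, ∀ χ1 χ2 : ℝ,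
      |χ1 - χs| < δ → |χ2 - χs| < δ →
      kh' (z3 C X χ1) - kh' (z2 C X χ1) = kh' (z3 C X χ2) - kh' (z2 C X χ2) → χ1 = χ2 :=
  @Pool.Agent.HS.chi_unique_pr C Xs χs hC hr h0 hzX

end Pool.Agent.HS

namespace Pool.Agent.HS
open Set Filter Topology
open scoped ContDiff

theorem mid_smooth (i : Fin 2) {C : ℝ} {Xs : Pl} {χ : Pl → ℝ} (y : ℂ)
    (hχ : ContDiffAt ℝ 2 χ Xs) (hr : 0 < zr C Xs)
    (h0 : 0 < E0 + 1 / zr C Xs - ((chart C Xs).2 ^ 2 + C ^ 2 / zr C Xs ^ 2) / 2)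
    (hP : kh' (pP i (colD (limD C Xs (χ Xs)))) < 0) (hQ : Ell (pQ i (colD (limD C Xs (χ Xs)))))
    (τ : ℝ) :
    ContDiffAt ℝ 2 (fun p : Pl × ℝ => Zd i (limD C p.1 (χ p.1)) p.2) (Xs, τ) ∧
    ContDiffAt ℝ 2 (midG C i χ y) (Xs, τ) :=
  @Pool.Agent.HS.mid_smooth_pr i C Xs χ y hχ hr h0 hP hQ τ

end Pool.Agent.HS
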