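import Pool.Agent.Lib_helper60.HSF.D_WM
import Pool.Agent.Lib_helper60.HSF.K_KL1
import Pool.Agent.Lib_helper60.HSF.M_NA1
import Pool.Agent.Lib_helper60.HSF.K_KL2
import Pool.Agent.Lib_helper60.HSF.M_NA2

namespace Pool.Agent.HS

noncomputable section

open Set Filter Topology
open scoped ContDiff

theorem mm2_P (i : Fin 2) {C : ℝ} {q : ℝ × ℝ × ℝ} (hq : q ∈ NR C) :
    kh' (nP i C q) < 0 ∧ (nP i C q).1 ≠ 0 := by
  obtain ⟨-, h31, -, h3, -, -⟩ := n3_facts hq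
  obtain ⟨-, h21, -, h2, -, -⟩ := n2_facts hq
  have hn := n_neg hq.2.1
  by_cases hi : i = 0
  · simp only [nP, hi, if_true]
    exact ⟨by rw [h3]; exact hn.2.1, h31⟩
  · simp only [nP, hi, if_false]
    exact ⟨by rw [h2]; exact hn.2.2.1, h21⟩

theorem mid_form_pr (i : Fin 2) {C : ℝ} (hC : C ≠ 0) {q : ℝ × ℝ × ℝ} (hq : q ∈ NR C)
    (hQ : Ell (nQ i C q)) {χ : Pl → ℝ} (hχ : χ (nX C q) = nχ C q) {y : ℂ} (hy : y ≠ 0) (t : ℝ) :
    midG C i χ y (nX C q, t) = kX (nP i C q) (t / Real.sqrt (kA (nP i C q))) -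
      y * (kep (kT (nP i C q) (t / Real.sqrt (kA (nP i C q)))) (nQ i C q)).1 ∧
    (Zd i (limD C (nX C q) (χ (nX C q))) t).2.2.1 =
      (kep (kT (nP i C q) (t / Real.sqrt (kA (nP i C q)))) (nQ i C q)).1 ∧
    (Zd i (limD C (nX C q) (χ (nX C q))) t).1 ^ 2 =
      kX (nP i C q) (t / Real.sqrt (kA (nP i C q))) := by
  obtain ⟨hpP, hpQ⟩ := n_pPQ i hC hq
  obtain ⟨hh, h0⟩ := mm2_P i hq
  rw [← hpP] at hh h0
  have e1 : (Zd i (limD C (nX C q) (nχ C q)) t).1 ^ 2 =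
      kX (nP i C q) (t / Real.sqrt (kA (nP i C q))) := by
    have := lz_sq i hh h0 t
    rw [hpP] at this
    exact this
  have e2 : (Zd i (limD C (nX C q) (nχ C q)) t).2.2.1 =
      (kep (kT (nP i C q) (t / Real.sqrt (kA (nP i C q)))) (nQ i C q)).1 := by
    have ht := lz_time i hh h0 t
    rw [hpP] at ht
    have hpair : ((toLC i 0 (colD (limD C (nX C q) (nχ C q)))).2.2.1,
        (toLC i 0 (colD (limD C (nX C q) (nχ C q)))).2.2.2.1) = nQ i C q := by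
      rw [← hpQ]
      by_cases hi : i = 0
      · simp [toLC, pQ, p2, hi]
      · simp [toLC, pQ, p3, hi]
    show (kep (lzt i t (toLC i 0 (colD (limD C (nX C q) (nχ C q)))))
      ((toLC i 0 (colD (limD C (nX C q) (nχ C q)))).2.2.1,
        (toLC i 0 (colD (limD C (nX C q) (nχ C q)))).2.2.2.1)).1 = _
    rw [hpair, ht]
  rw [hχ]
  refine ⟨?_, e2, e1⟩
  have e3 : midG C i χ y (nX C q, t) = (Zd i (limD C (nX C q) (χ (nX C q))) t).1 ^ 2 -
      y * (Zd i (limD C (nX C q) (χ (nX C q))) t).2.2.1 := by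
    unfold midG
    rw [if_neg hy]
  rw [e3, hχ, e1, e2]

end

end Pool.Agent.HS

namespace Pool.Agent.HS
open Set Filter Topology
open scoped ContDiff

theorem mid_form (i : Fin 2) {C : ℝ} (hC : C ≠ 0) {q : ℝ × ℝ × ℝ} (hq : q ∈ NR C)
    (hQ : Ell (nQ i C q)) {χ : Pl → ℝ} (hχ : χ (nX C q) = nχ C q) {y : ℂ} (hy : y ≠ 0) (t : ℝ) :
    midG C i χ y (nX C q, t) = kX (nP i C q) (t / Real.sqrt (kA (nP i C q))) -
      y * (kep (kT (nP i C q) (t / Real.sqrt (kA (nP i C q)))) (nQ i C q)).1 ∧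
    (Zd i (limD C (nX C q) (χ (nX C q))) t).2.2.1 =
      (kep (kT (nP i C q) (t / Real.sqrt (kA (nP i C q)))) (nQ i C q)).1 ∧
    (Zd i (limD C (nX C q) (χ (nX C q))) t).1 ^ 2 =
      kX (nP i C q) (t / Real.sqrt (kA (nP i C q))) :=
  @Pool.Agent.HS.mid_form_pr i C hC q hq hQ χ hχ y hy t

end Pool.Agent.HS
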