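import Pool.Agent.Lib_helper60.HSF.D_WM
import Pool.Agent.Lib_helper60.HSF.M_NB
import Pool.Agent.Lib_helper60.HSF.K_KE1
import Pool.Agent.Lib_helper60.HSF.M_MM1
import Pool.Agent.Lib_helper60.HSF.M_NA1
import Pool.Agent.Lib_helper60.HSF.M_ML
import Pool.Agent.Lib_helper60.HSF.M_NA2
import Pool.Agent.Lib_helper60.HSF.M_MM2
import Pool.Agent.Lib_helper60.HSF.M_MK

/-!
# Project HS, part S1-M1, block MN: the event (helper75)
-/

namespace Pool.Agent.HS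

noncomputable section

open Set Filter Topology
open scoped ContDiff

theorem mn_nP_cd (i : Fin 2) {C : ℝ} (hC : C ≠ 0) {q : ℝ × ℝ × ℝ} (hq : q ∈ NR C) :
    ContDiffAt ℝ ∞ (nP i C) q ∧ ContDiffAt ℝ ∞ (nQ i C) q := by
  obtain ⟨ho, h3, h2, -, -⟩ := n_smooth hC
  have h3' := h3.contDiffAt (ho.mem_nhds hq)
  have h2' := h2.contDiffAt (ho.mem_nhds hq)
  by_cases hi : i = 0
  · have e1 : nP i C = n3 C := by
      funext q; simp [nP, hi]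
    have e2 : nQ i C = n2 C := by
      funext q; simp [nQ, hi]
    rw [e1, e2]
    exact ⟨h3', h2'⟩
  · have e1 : nP i C = n2 C := by
      funext q; simp [nP, hi]
    have e2 : nQ i C = n3 C := by
      funext q; simp [nQ, hi]
    rw [e1, e2]
    exact ⟨h2', h3'⟩

theorem mn_line (q : ℝ × ℝ × ℝ) : ContDiff ℝ ∞ (fun r : ℝ => ((r, q.2) : ℝ × ℝ × ℝ)) :=
  contDiff_id.prodMk contDiff_const

/-- along the line the direction agrees with `χ` -/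
theorem mn_chi {C : ℝ} (hC : 0 < C) {q : ℝ × ℝ × ℝ} (hq : q ∈ NR C) {χ : Pl → ℝ}
    {h1 : ℝ} (hh1 : 0 < h1) (hχ0 : χ (nX C q) = nχ C q)
    (hχc : ContinuousAt χ (nX C q))
    (hχE : ∀ X ∈ Metric.closedBall (nX C q) h1,
      kh' (z3 C X (χ X)) = kh' (z3 C (nX C q) (nχ C q)) ∧
      kh' (z2 C X (χ X)) = kh' (z2 C (nX C q) (nχ C q)))
    (hzX : zX C (nX C q) (nχ C q) ≠ 0) :
    ∀ᶠ r in 𝓝 q.1, (r, q.2) ∈ NR C ∧ χ (nX C (r, q.2)) = nχ C (r, q.2) := by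
  obtain ⟨ho, -, -, hX, hχn⟩ := n_smooth hC.ne'
  obtain ⟨hz3, hz2, hzr, -, hz0⟩ := n_states hC.ne' hq
  have hr : 0 < zr C (nX C q) := by
    rw [hzr]
    exact hq.1
  obtain ⟨δ, hδ, hu⟩ := chi_unique hC hr hz0 hzX
  have hl : ContinuousAt (fun r : ℝ => ((r, q.2) : ℝ × ℝ × ℝ)) q.1 :=
    (mn_line q).continuous.continuousAt
  have hXc : ContinuousAt (fun r : ℝ => nX C (r, q.2)) q.1 :=
    ContinuousAt.comp (f := fun r : ℝ => ((r, q.2) : ℝ × ℝ × ℝ)) (g := nX C)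
      ((hX.contDiffAt (ho.mem_nhds hq)).continuousAt) hl
  have hnc : ContinuousAt (fun r : ℝ => nχ C (r, q.2)) q.1 :=
    ContinuousAt.comp (f := fun r : ℝ => ((r, q.2) : ℝ × ℝ × ℝ)) (g := nχ C)
      ((hχn.contDiffAt (ho.mem_nhds hq)).continuousAt) hl
  have hcc : ContinuousAt (fun r : ℝ => χ (nX C (r, q.2))) q.1 :=
    ContinuousAt.comp (f := fun r : ℝ => nX C (r, q.2)) (g := χ) hχc hXc
  have e1 : ∀ᶠ r in 𝓝 q.1, (r, q.2) ∈ NR C := hl.eventually (ho.mem_nhds hq)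
  have e2 : ∀ᶠ r in 𝓝 q.1, nX C (r, q.2) ∈ Metric.ball (nX C q) δ :=
    hXc.eventually (Metric.ball_mem_nhds _ hδ)
  have e3 : ∀ᶠ r in 𝓝 q.1, nX C (r, q.2) ∈ Metric.closedBall (nX C q) h1 :=
    hXc.eventually (Metric.closedBall_mem_nhds _ hh1)
  have e4 : ∀ᶠ r in 𝓝 q.1, |χ (nX C (r, q.2)) - nχ C q| < δ := by
    have := hcc.eventually (Metric.ball_mem_nhds (χ (nX C (q.1, q.2))) hδ)
    refine this.mono fun r h => ?_
    have h' : dist (χ (nX C (r, q.2))) (χ (nX C q)) < δ := h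
    rwa [hχ0, Real.dist_eq] at h'
  have e5 : ∀ᶠ r in 𝓝 q.1, |nχ C (r, q.2) - nχ C q| < δ := by
    have := hnc.eventually (Metric.ball_mem_nhds (nχ C (q.1, q.2)) hδ)
    refine this.mono fun r h => ?_
    have h' : dist (nχ C (r, q.2)) (nχ C q) < δ := h
    rwa [Real.dist_eq] at h'
  filter_upwards [e1, e2, e3, e4, e5] with r h1' h2' h3' h4' h5'
  refine ⟨h1', hu _ h2' _ _ h4' h5' ?_⟩
  obtain ⟨hE3, hE2⟩ := hχE _ h3'
  obtain ⟨gz3, gz2, -, -, -⟩ := n_states hC.ne' h1'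
  rw [hE3, hE2, hz3, hz2, gz3, gz2, (n3_facts hq).2.2.2.1, (n2_facts hq).2.2.2.1,
    (n3_facts h1').2.2.2.1, (n2_facts h1').2.2.2.1]

theorem m1_event_pr (i : Fin 2) {C : ℝ} (hC : 0 < C ∧ C ≤ 1) {y : ℂ} (hy : y ≠ 0)
    {q : ℝ × ℝ × ℝ} (hq : q ∈ NR C) (hP : Ell (nP i C q)) (hQ : Ell (nQ i C q)) {χ : Pl → ℝ}
    {h1 : ℝ} (hh1 : 0 < h1) (hχ0 : χ (nX C q) = nχ C q)
    (hχ : ContDiffOn ℝ 2 χ (Metric.ball (nX C q) (2 * h1)))
    (hχE : ∀ X ∈ Metric.closedBall (nX C q) h1,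
      kh' (z3 C X (χ X)) = kh' (z3 C (nX C q) (nχ C q)) ∧
      kh' (z2 C X (χ X)) = kh' (z2 C (nX C q) (nχ C q)))
    (hzX : zX C (nX C q) (nχ C q) ≠ 0) {s s' : ℝ → ℝ} (hs : ContDiffAt ℝ 2 s q.1)
    (hs' : ContDiffAt ℝ 2 s' q.1)
    (hX : ∀ᶠ r in 𝓝 q.1, kX (nP i C (r, q.2)) (s r) = y * kX (nQ i C (r, q.2)) (s' r))
    (hT : kT (nP i C q) (s q.1) = kT (nQ i C q) (s' q.1))
    (hd : deriv (fun r => kT (nP i C (r, q.2)) (s r) - kT (nQ i C (r, q.2)) (s' r)) q.1 ≠ 0)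
    (hW : kcr y (nP i C q) (nQ i C q) (s q.1) (s' q.1) ≠ 0) :
    ∃ i' : Fin 2, ∀ h, TZero i' (midG C i χ y) (nX C q)
      (Real.sqrt (kA (nP i C q)) * s q.1) h := by
  have hC0 : C ≠ 0 := hC.1.ne'
  have hχat : ContDiffAt ℝ 2 χ (nX C q) :=
    hχ.contDiffAt (Metric.ball_mem_nhds _ (by linarith))
  have hev := mn_chi hC.1 hq hh1 hχ0 hχat.continuousAt hχE hzX
  obtain ⟨ho, -, -, hXs, -⟩ := n_smooth hC0
  obtain ⟨-, -, hzr, -, hz0⟩ := n_states hC0 hq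
  have hr : 0 < zr C (nX C q) := by
    rw [hzr]
    exact hq.1
  have hl : ContDiffAt ℝ ∞ (fun r : ℝ => ((r, q.2) : ℝ × ℝ × ℝ)) q.1 := (mn_line q).contDiffAt
  obtain ⟨cP0, cQ0⟩ := mn_nP_cd i hC0 hq
  have cP : ContDiffAt ℝ ∞ (fun r : ℝ => nP i C (r, q.2)) q.1 :=
    ContDiffAt.comp (f := fun r : ℝ => ((r, q.2) : ℝ × ℝ × ℝ)) (g := nP i C) q.1 cP0 hl
  have cQ : ContDiffAt ℝ ∞ (fun r : ℝ => nQ i C (r, q.2)) q.1 :=
    ContDiffAt.comp (f := fun r : ℝ => ((r, q.2) : ℝ × ℝ × ℝ)) (g := nQ i C) q.1 cQ0 hl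
  have cX : ContDiffAt ℝ ∞ (fun r : ℝ => nX C (r, q.2)) q.1 :=
    ContDiffAt.comp (f := fun r : ℝ => ((r, q.2) : ℝ × ℝ × ℝ)) (g := nX C) q.1
      (hXs.contDiffAt (ho.mem_nhds hq)) hl
  have heP : ∀ᶠ r in 𝓝 q.1, Ell (nP i C (r, q.2)) :=
    cP.continuousAt.eventually (isOpen_ell.mem_nhds hP)
  have heQ : ∀ᶠ r in 𝓝 q.1, Ell (nQ i C (r, q.2)) :=
    cQ.continuousAt.eventually (isOpen_ell.mem_nhds hQ)
  have key := ev_det y (fun r => nP i C (r, q.2)) (fun r => nQ i C (r, q.2)) s s' q.1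
    (cP.of_le (by norm_cast)) (cQ.of_le (by norm_cast)) hs hs'
    (heP.and heQ) hX hT hd hW
  obtain ⟨k0, kd⟩ := key
  obtain ⟨pp, pq⟩ := n_pPQ i hC0 hq
  have hmsm := (mid_smooth i y hχat hr hz0 (by rw [hχ0, pp]; exact hP.1)
    (by rw [hχ0, pq]; exact hQ) (Real.sqrt (kA (nP i C q)) * s q.1)).2
  have hform : ∀ᶠ r in 𝓝 q.1, ∀ t : ℝ, midG C i χ y (nX C (r, q.2), t) =
      kX (nP i C (r, q.2)) (t / Real.sqrt (kA (nP i C (r, q.2)))) -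
      y * (kep (kT (nP i C (r, q.2)) (t / Real.sqrt (kA (nP i C (r, q.2)))))
        (nQ i C (r, q.2))).1 := by
    filter_upwards [hev, heQ] with r h1' h2' t
    exact (mid_form i hC0 h1'.1 h2' h1'.2 hy t).1
  have hform0 : ∀ t : ℝ, midG C i χ y (nX C q, t) =
      kX (nP i C q) (t / Real.sqrt (kA (nP i C q))) -
      y * (kep (kT (nP i C q) (t / Real.sqrt (kA (nP i C q)))) (nQ i C q)).1 := fun t =>
    (mid_form i hC0 hq hQ hχ0 hy t).1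
  refine ev_tzero hmsm ?_ (γ := fun r => nX C (r, q.2)) (r0 := q.1) rfl
    (cX.differentiableAt (by simp)) ?_
  · rw [hform0]
    exact k0
  · have d1 : (fun t => midG C i χ y (nX C q, t)) = fun t =>
        kX (nP i C q) (t / Real.sqrt (kA (nP i C q))) -
        y * (kep (kT (nP i C q) (t / Real.sqrt (kA (nP i C q)))) (nQ i C q)).1 :=
      funext hform0
    have d2 : deriv (fun r => midG C i χ y (nX C (r, q.2),
        Real.sqrt (kA (nP i C q)) * s q.1)) q.1 =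
        deriv (fun r => kX (nP i C (r, q.2)) (Real.sqrt (kA (nP i C q)) * s q.1 /
            Real.sqrt (kA (nP i C (r, q.2)))) -
          y * (kep (kT (nP i C (r, q.2)) (Real.sqrt (kA (nP i C q)) * s q.1 /
            Real.sqrt (kA (nP i C (r, q.2))))) (nQ i C (r, q.2))).1) q.1 :=
      Filter.EventuallyEq.deriv_eq (hform.mono fun r h => h _)
    rw [d1]
    show ((starRingEnd ℂ) _ * deriv (fun r => midG C i χ y (nX C (r, q.2),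
        Real.sqrt (kA (nP i C q)) * s q.1)) q.1).im ≠ 0
    rw [d2]
    exact kd


end

end Pool.Agent.HS

namespace Pool.Agent.HS
open Set Filter Topology
open scoped ContDiff

theorem m1_event (i : Fin 2) {C : ℝ} (hC : 0 < C ∧ C ≤ 1) {y : ℂ} (hy : y ≠ 0)
    {q : ℝ × ℝ × ℝ} (hq : q ∈ NR C) (hP : Ell (nP i C q)) (hQ : Ell (nQ i C q)) {χ : Pl → ℝ}
    {h1 : ℝ} (hh1 : 0 < h1) (hχ0 : χ (nX C q) = nχ C q)
    (hχ : ContDiffOn ℝ 2 χ (Metric.ball (nX C q) (2 * h1)))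
    (hχE : ∀ X ∈ Metric.closedBall (nX C q) h1,
      kh' (z3 C X (χ X)) = kh' (z3 C (nX C q) (nχ C q)) ∧
      kh' (z2 C X (χ X)) = kh' (z2 C (nX C q) (nχ C q)))
    (hzX : zX C (nX C q) (nχ C q) ≠ 0) {s s' : ℝ → ℝ} (hs : ContDiffAt ℝ 2 s q.1)
    (hs' : ContDiffAt ℝ 2 s' q.1)
    (hX : ∀ᶠ r in 𝓝 q.1, kX (nP i C (r, q.2)) (s r) = y * kX (nQ i C (r, q.2)) (s' r))
    (hT : kT (nP i C q) (s q.1) = kT (nQ i C q) (s' q.1))
    (hd : deriv (fun r => kT (nP i C (r, q.2)) (s r) - kT (nQ i C (r, q.2)) (s' r)) q.1 ≠ 0)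
    (hW : kcr y (nP i C q) (nQ i C q) (s q.1) (s' q.1) ≠ 0) :
    ∃ i' : Fin 2, ∀ h, TZero i' (midG C i χ y) (nX C q)
      (Real.sqrt (kA (nP i C q)) * s q.1) h :=
  @Pool.Agent.HS.m1_event_pr i C hC y hy q hq hP hQ χ h1 hh1 hχ0 hχ hχE hzX s s' hs hs' hX hT hd hW

end Pool.Agent.HS
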