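import Pool.Agent.Lib_helper60.HSF.D_WM0
import Pool.Agent.Lib_helper60.HSF.K_KL3
import Pool.Agent.Lib_helper60.HSF.Z_ZA1

namespace Pool.Agent.HS

noncomputable section

open Set Filter Topology Classical
open scoped ContDiff

theorem m0_window_pr {f : Pl × ℝ → ℂ} {X : Pl} {h1 T : ℝ} (hh : 0 < h1)
    (hf : ContinuousOn f (Metric.closedBall X h1 ×ˢ Icc 0 T)) {n : ℕ} (τm : Fin n → ℝ)
    (hz : ∀ τ ∈ Icc 0 T, (∀ j, τ ≠ τm j) → f (X, τ) ≠ 0) {he : ℝ} (hhe : 0 < he) :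
    ∃ h' : ℝ, 0 < h' ∧ h' ≤ h1 ∧ ∀ Y ∈ Metric.closedBall X h', ∀ τ ∈ Icc 0 T,
      (∀ j, he ≤ |τ - τm j|) → f (Y, τ) ≠ 0 := by
  have hK : IsCompact (Icc 0 T ∩ {τ : ℝ | ∀ j, he ≤ |τ - τm j|}) := by
    refine isCompact_Icc.inter_right ?_
    rw [Set.ofPred_forall]
    exact isClosed_iInter fun j => isClosed_le continuous_const
      ((continuous_id.sub continuous_const).abs)
  have hXb : X ∈ Metric.closedBall X h1 := Metric.mem_closedBall_self hh.le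
  have hc : ContinuousOn (fun τ => ‖f (X, τ)‖) (Icc 0 T ∩ {τ : ℝ | ∀ j, he ≤ |τ - τm j|}) := by
    refine (hf.comp (f := fun τ : ℝ => (X, τ)) (by fun_prop) ?_).norm
    exact fun τ hτ => ⟨hXb, hτ.1⟩
  obtain ⟨c, hc0, hc1⟩ := hK.exists_forall_le' hc (a := 0) (fun τ hτ => norm_pos_iff.mpr
    (hz τ hτ.1 (fun j h => by
      have := hτ.2 j
      rw [h, sub_self, abs_zero] at this
      linarith)))
  have hu := ((isCompact_closedBall X h1).prod isCompact_Icc).uniformContinuousOn_of_continuous hf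
  rw [Metric.uniformContinuousOn_iff] at hu
  obtain ⟨δ, hδ, hδ1⟩ := hu c hc0
  refine ⟨min (δ / 2) h1, by positivity, min_le_right _ _, fun Y hY τ hτ hj h0 => ?_⟩
  rw [Metric.mem_closedBall] at hY
  have hY1 : Y ∈ Metric.closedBall X h1 := by
    rw [Metric.mem_closedBall]; exact hY.trans (min_le_right _ _)
  have h2 := hδ1 (Y, τ) ⟨hY1, hτ⟩ (X, τ) ⟨hXb, hτ⟩ (by
    rw [Prod.dist_eq]
    have : dist Y X ≤ δ / 2 := hY.trans (min_le_left _ _)
    simp only [dist_self]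
    exact max_lt (by linarith) hδ)
  rw [h0, dist_eq_norm, zero_sub, norm_neg] at h2
  have := hc1 τ ⟨hτ, hj⟩
  linarith

theorem mi_lip {E : Type*} [NormedAddCommGroup E] {L : ℝ} {f : Pl → E} {O O' : Set Pl}
    (h : Lip L f O) (hs : O' ⊆ O) : Lip L f O' := fun p hp q hq => h p (hs hp) q (hs hq)

theorem mi_reg {E F : Type*} [NormedAddCommGroup E] [NormedAddCommGroup F] {L : ℝ} {f : E → F}
    {O O' : Set E} (h : Reg L f O) (hs : O' ⊆ O) : Reg L f O' :=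
  ⟨fun p hp q hq => h.1 p (hs hp) q (hs hq), fun x hx y hy x' hx' y' hy' =>
    h.2 x (hs hx) y (hs hy) x' (hs hx') y' (hs hy')⟩

theorem rarc_mono_pr {C : ℝ} {i : Fin 2} {O O' : Set Pl} {l : LD} {τ0 : Pl → ℝ}
    (h : RArc C i O l τ0) (hO : IsCompact O') (hs : O' ⊆ O) : RArc C i O' l τ0 := by
  obtain ⟨L, hL, r1, r2, r3⟩ := h.reg
  refine ⟨?_, ⟨L, hL, mi_reg r1 hs, mi_reg r2 hs, mi_reg r3 hs⟩,
    fun X hX => h.cd X (hs hX)⟩
  have hz := h.z
  constructor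
  case compact => exact hO
  case lip =>
    obtain ⟨L, a, b, c, d⟩ := hz.lip
    exact ⟨L, mi_lip a hs, mi_lip b hs, mi_lip c hs, mi_lip d hs⟩
  case pos => exact fun X hX => hz.pos X (hs hX)
  case ell => exact fun X hX => hz.ell X (hs hX)
  case free => exact fun X hX => hz.free X (hs hX)
  case sun => exact fun X hX => hz.sun X (hs hX)
  case mid =>
    obtain ⟨c, L, τm, hc, hl, hm⟩ := hz.mid
    exact ⟨c, L, τm, hc, mi_lip hl hs, fun X hX => hm X (hs hX)⟩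
  case fin => exact fun X hX => hz.fin X (hs hX)
  case nondeg =>
    obtain ⟨c, L, ρ, hc, hρ, hm⟩ := hz.nondeg
    exact ⟨c, L, ρ, hc, hρ, fun X hX => hm X (hs hX)⟩

theorem mi_limD (C : ℝ) (O : Set Pl) (χ : Pl → ℝ) (hχ : ContinuousOn χ O)
    (hr : ∀ X ∈ O, 0 < zr C X) : ContinuousOn (fun X => limD C X (χ X)) O := by
  have hc : Continuous (fun X : Pl => chart C X) := by
    unfold chart
    fun_prop
  have h0 : ∀ X ∈ O, (chart C X).1 ≠ 0 := fun X hX => ne_of_gt (hr X hX)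
  have c1 : ContinuousOn (fun X : Pl => (chart C X).1) O := (continuous_fst.comp hc).continuousOn
  have c2 : ContinuousOn (fun X : Pl => (chart C X).2) O := (continuous_snd.comp hc).continuousOn
  unfold limD Uenc kap0
  refine ContinuousOn.prodMk ?_ (ContinuousOn.prodMk ?_ (ContinuousOn.prodMk ?_ hχ))
  · exact Complex.continuous_ofReal.comp_continuousOn c1
  · refine ContinuousOn.add (Complex.continuous_ofReal.comp_continuousOn c2)
      (ContinuousOn.mul (Complex.continuous_ofReal.comp_continuousOn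
        (continuousOn_const.div c1 h0)) continuousOn_const)
  · refine ContinuousOn.sqrt (continuousOn_const.mul ((continuousOn_const.add
      (continuousOn_const.div c1 h0)).sub (((c2.pow 2).add (continuousOn_const.div (c1.pow 2)
        (fun X hX => pow_ne_zero 2 (h0 X hX)))).div_const 2)))

theorem mi_comp {g : Dt → ℝ → LCS} {S : Set Dt}
    (h : ContinuousOn (fun p : Dt × ℝ => g p.1 p.2) {p | p.1 ∈ S}) {d : Pl → Dt}
    {O : Set Pl} (hd : ContinuousOn d O) (hm : ∀ X ∈ O, d X ∈ S) :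
    ContinuousOn (fun q : Pl × ℝ => g (d q.1) q.2) (O ×ˢ univ) := by
  have h1 : ContinuousOn (fun q : Pl × ℝ => (d q.1, q.2)) (O ×ˢ univ) :=
    ContinuousOn.prodMk (hd.comp continuousOn_fst (fun q hq => hq.1)) continuousOn_snd
  exact h.comp h1 (fun q hq => hm q.1 hq.1)

theorem mi_Sm {C : ℝ} {i : Fin 2} {X : Pl} {χ : ℝ} (hr : 0 < zr C X)
    (hE : kh' (z3 C X χ) < 0 ∧ kh' (z2 C X χ) < 0) (hQ : LQ C i X χ ≠ 0) :
    limD C X χ ∈ Sm i := by
  obtain ⟨e3, e2⟩ := z_p C X χ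
  have hre : 0 < (limD C X χ).1.re := hr
  refine ⟨hre, ?_, ?_⟩
  · unfold pP
    split_ifs with hi
    · rw [e3]; exact hE.1
    · rw [e2]; exact hE.2
  · unfold LQ at hQ
    unfold pQ
    split_ifs with hi
    · rw [if_pos hi] at hQ
      rw [e2]; exact ⟨hE.2, hQ⟩
    · rw [if_neg hi] at hQ
      rw [e3]; exact ⟨hE.1, hQ⟩

/-- continuity of the limit trajectory in `(X, τ)` -/
theorem m0_cont_pr (C : ℝ) (i : Fin 2) (O : Set Pl) (χ : Pl → ℝ) (hχ : ContinuousOn χ O)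
    (hr : ∀ X ∈ O, 0 < zr C X) (hE : ∀ X ∈ O, kh' (z3 C X (χ X)) < 0 ∧ kh' (z2 C X (χ X)) < 0)
    (hQ : ∀ X ∈ O, LQ C i X (χ X) ≠ 0) :
    ContinuousOn (fun q : Pl × ℝ => Zd i (limD C q.1 (χ q.1)) q.2) (O ×ˢ univ) :=
  mi_comp (g := Zd i) (d := fun X => limD C X (χ X)) (Zd_smooth i).1.continuousOn
    (mi_limD C O χ hχ hr) (fun X hX => mi_Sm (hr X hX) (hE X hX) (hQ X hX))


end

end Pool.Agent.HS

namespace Pool.Agent.HS
open Set Filter Topology Classical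
open scoped ContDiff

theorem m0_window {f : Pl × ℝ → ℂ} {X : Pl} {h1 T : ℝ} (hh : 0 < h1)
    (hf : ContinuousOn f (Metric.closedBall X h1 ×ˢ Icc 0 T)) {n : ℕ} (τm : Fin n → ℝ)
    (hz : ∀ τ ∈ Icc 0 T, (∀ j, τ ≠ τm j) → f (X, τ) ≠ 0) {he : ℝ} (hhe : 0 < he) :
    ∃ h' : ℝ, 0 < h' ∧ h' ≤ h1 ∧ ∀ Y ∈ Metric.closedBall X h', ∀ τ ∈ Icc 0 T,
      (∀ j, he ≤ |τ - τm j|) → f (Y, τ) ≠ 0 :=
  @Pool.Agent.HS.m0_window_pr f X h1 T hh hf n τm hz he hhe

end Pool.Agent.HS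

namespace Pool.Agent.HS
open Set Filter Topology Classical
open scoped ContDiff

theorem rarc_mono {C : ℝ} {i : Fin 2} {O O' : Set Pl} {l : LD} {τ0 : Pl → ℝ}
    (h : RArc C i O l τ0) (hO : IsCompact O') (hs : O' ⊆ O) : RArc C i O' l τ0 :=
  @Pool.Agent.HS.rarc_mono_pr C i O O' l τ0 h hO hs

end Pool.Agent.HS

namespace Pool.Agent.HS
open Set Filter Topology Classical
open scoped ContDiff

theorem m0_cont (C : ℝ) (i : Fin 2) (O : Set Pl) (χ : Pl → ℝ) (hχ : ContinuousOn χ O)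
    (hr : ∀ X ∈ O, 0 < zr C X) (hE : ∀ X ∈ O, kh' (z3 C X (χ X)) < 0 ∧ kh' (z2 C X (χ X)) < 0)
    (hQ : ∀ X ∈ O, LQ C i X (χ X) ≠ 0) :
    ContinuousOn (fun q : Pl × ℝ => Zd i (limD C q.1 (χ q.1)) q.2) (O ×ˢ univ) :=
  @Pool.Agent.HS.m0_cont_pr C i O χ hχ hr hE hQ

end Pool.Agent.HS
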