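import Pool.Agent.Lib_helper60.HSF.D_WM
import Pool.Agent.Lib_helper60.HSF.K_KA1
import Pool.Agent.Lib_helper60.HSF.N_MI
import Pool.Agent.Lib_helper60.HSF.M_NA1
import Pool.Agent.Lib_helper60.HSF.K_KC2
import Pool.Agent.Lib_helper60.HSF.M_MJ1
import Pool.Agent.Lib_helper60.HSF.Z_ZA1
import Pool.Agent.Lib_helper60.HSF.M_NA2
import Pool.Agent.Lib_helper60.HSF.M_MJ2
import Pool.Agent.Lib_helper60.HSF.Z_ZC
import Pool.Agent.Lib_helper60.HSF.K_KL1
import Pool.Agent.Lib_helper60.HSF.Z_QA7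
import Pool.Agent.Lib_helper60.HSF.K_KD1
import Pool.Agent.Lib_helper60.HSF.M_MN
import Pool.Agent.Lib_helper60.HSF.K_KB2
import Pool.Agent.Lib_helper60.HSF.M_MM2
import Pool.Agent.Lib_helper60.HSF.M_NB

/-!
# Block MO1: the supply at one point
-/

namespace Pool.Agent.HS

noncomputable section

open Set Filter Topology
open scoped ContDiff

theorem mo1_kT0 (y : KS) : kT y 0 = 0 := by
  simp [kT]

/-- times and positions shifted by periods -/
theorem mo1_shift (y : KS) (s : ℝ) (n : ℤ) :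
    kX y (s + 2 * Real.pi * n) = kX y s ∧ kV y (s + 2 * Real.pi * n) = kV y s := by
  have h := kY_per y s n
  unfold kY at h
  exact ⟨(Prod.mk.inj h).1, (Prod.mk.inj h).2⟩

/-- the duration -/
theorem mo1_T0 (i : Fin 2) {C : ℝ} {X : Pl} {χ : ℝ} {K : ℕ}
    (h : kh' (pP i (colD (limD C X χ))) < 0) (h0 : (pP i (colD (limD C X χ))).1 ≠ 0) :
    T0 C i X χ K (2 * K + 1) =
      kKP i K * (2 * Real.pi * Real.sqrt (kA (pP i (colD (limD C X χ))))) := by
  have hA : 0 < Real.sqrt (kA (pP i (colD (limD C X χ)))) := Real.sqrt_pos.mpr (kA_pos h)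
  unfold T0
  rw [(lz_w i h h0).1]
  have e : Real.pi / (1 / (2 * Real.sqrt (kA (pP i (colD (limD C X χ)))))) =
      2 * Real.pi * Real.sqrt (kA (pP i (colD (limD C X χ)))) := by
    field_simp
  rw [e]
  unfold kKP
  split_ifs <;> push_cast <;> ring

/-- the period of the regularized body does not depend on `r` -/
theorem mo1_per (i : Fin 2) {C : ℝ} {q : ℝ × ℝ × ℝ} (hq : q ∈ NR C) {r : ℝ}
    (hr : (r, q.2) ∈ NR C) :
    kPer (nP i C (r, q.2)) = kPer (nP i C q) ∧ kPer (nQ i C (r, q.2)) = kPer (nQ i C q) := by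
  obtain ⟨-, -, -, a3, -, -⟩ := n3_facts hq
  obtain ⟨-, -, -, b3, -, -⟩ := n3_facts hr
  obtain ⟨-, -, -, a2, -, -⟩ := n2_facts hq
  obtain ⟨-, -, -, b2, -, -⟩ := n2_facts hr
  have e3 : kPer (n3 C (r, q.2)) = kPer (n3 C q) := by
    unfold kPer kA
    rw [a3, b3]
  have e2 : kPer (n2 C (r, q.2)) = kPer (n2 C q) := by
    unfold kPer kA
    rw [a2, b2]
  unfold nP nQ
  split_ifs
  · exact ⟨e3, e2⟩
  · exact ⟨e2, e3⟩

/-- arithmetic: an event in the interior of the arc -/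
theorem mo1_ar (i : Fin 2) {C : ℝ} {y : ℂ} (hy1 : y ≠ 1)
    {q : ℝ × ℝ × ℝ} (hq : q ∈ NR C) {K : ℕ} (hK : 0 < K) (hε : q.2.2 = 1 / K)
    (hP : Ell (nP i C q)) (hQ : Ell (nQ i C q)) {s0 s0' : ℝ}
    (hX : kX (nP i C q) s0 = y * kX (nQ i C q) s0')
    (hF : ∃ j : ℤ, kT (nP i C q) s0 - kT (nQ i C q) s0' = j * (kPer (n2 C q) / K)) :
    ∃ a b : ℤ, kT (nP i C q) (s0 + 2 * Real.pi * a) = kT (nQ i C q) (s0' + 2 * Real.pi * b) ∧
      0 < s0 + 2 * Real.pi * a ∧ s0 + 2 * Real.pi * a < kKP i K * (2 * Real.pi) := by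
  obtain ⟨hom, hTP, hTQ⟩ := n_per_K i hq hK hε
  obtain ⟨kp, kq, kco⟩ := kk_facts i hK
  obtain ⟨j, hj⟩ := hF
  set P := nP i C q with hPdef
  set Q := nQ i C q with hQdef
  obtain ⟨a, b, hab, ht0, ht1⟩ := ar_event kp kq kco hom j (kT P s0)
  refine ⟨a, b, ?_, ?_, ?_⟩
  · rw [kT_per, kT_per, hTP, hTQ]
    have h1 : (j : ℝ) + a * (kKQ i K) - b * (kKP i K) = 0 := by exact_mod_cast hab
    linear_combination hj + (kPer (n2 C q) / K) * h1
  · have hmono := kT_strictMono hP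
    have hmonoQ := kT_strictMono hQ
    have hT : kT P (s0 + 2 * Real.pi * a) = kT P s0 + a * (kKQ i K * (kPer (n2 C q) / K)) := by
      rw [kT_per, hTP]; ring
    have hTQ' : kT P (s0 + 2 * Real.pi * a) = kT Q (s0' + 2 * Real.pi * b) := by
      rw [kT_per, kT_per, hTP, hTQ]
      have h1 : (j : ℝ) + a * (kKQ i K) - b * (kKP i K) = 0 := by exact_mod_cast hab
      linear_combination hj + (kPer (n2 C q) / K) * h1
    have hge : 0 ≤ kT P (s0 + 2 * Real.pi * a) := by rw [hT]; exact ht0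
    rcases hge.lt_or_eq with h | h
    · by_contra hn
      push Not at hn
      have := hmono.monotone hn
      rw [mo1_kT0] at this
      linarith
    · exfalso
      have hs : s0 + 2 * Real.pi * a = 0 := by
        apply hmono.injective
        rw [← h, mo1_kT0]
      have hs' : s0' + 2 * Real.pi * b = 0 := by
        apply hmonoQ.injective
        rw [← hTQ', ← h, mo1_kT0]
      have e1 : kX P s0 = P.1 := by
        rw [← (mo1_shift P s0 a).1, hs]
        have := kY_zero hP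
        unfold kY at this
        exact congrArg Prod.fst this
      have e2 : kX Q s0' = Q.1 := by
        rw [← (mo1_shift Q s0' b).1, hs']
        have := kY_zero hQ
        unfold kY at this
        exact congrArg Prod.fst this
      have e3 : P.1 = (q.1 : ℂ) := by
        rw [hPdef]; unfold nP; split_ifs <;> rfl
      have e4 : Q.1 = (q.1 : ℂ) := by
        rw [hQdef]; unfold nQ; split_ifs <;> rfl
      rw [e1, e2, e3, e4] at hX
      have hq0 : (q.1 : ℂ) ≠ 0 := by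
        have := hq.1
        exact_mod_cast this.ne'
      apply hy1
      have : (1 - y) * (q.1 : ℂ) = 0 := by linear_combination hX
      rcases mul_eq_zero.mp this with h' | h'
      · linear_combination -h'
      · exact absurd h' hq0
  · have hmono := kT_strictMono hP
    have hT : kT P (s0 + 2 * Real.pi * a) = kT P s0 + a * (kKQ i K * (kPer (n2 C q) / K)) := by
      rw [kT_per, hTP]; ring
    have hend : kT P (kKP i K * (2 * Real.pi)) = kKP i K * (kKQ i K * (kPer (n2 C q) / K)) := by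
      have := kT_per P 0 (kKP i K : ℤ)
      rw [mo1_kT0, hTP] at this
      have e : (0 : ℝ) + 2 * Real.pi * ((kKP i K : ℤ) : ℝ) = kKP i K * (2 * Real.pi) := by
        push_cast; ring
      rw [e] at this
      rw [this]
      push_cast; ring
    by_contra hn
    push Not at hn
    have := hmono.monotone hn
    rw [hT, hend] at this
    linarith

theorem supM_point_pr (i : Fin 2) {C ρe : ℝ} (hC : 0 < C ∧ C ≤ 1) {y : ℂ} (hy : y ≠ 0) (hy1 : y ≠ 1)
    {q : ℝ × ℝ × ℝ} (hq : q ∈ NR C) {K : ℕ} (hK : 0 < K) (hε : q.2.2 = 1 / K)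
    (hP : Ell (nP i C q)) (hQ : Ell (nQ i C q)) (hX1 : ‖nX C q‖ ≤ ρe)
    (hX2 : nX C q ∈ interior (CD C)) (hχ1 : |nχ C q| < 1 / 100)
    (hzX : zX C (nX C q) (nχ C q) ≠ 0) {sB sB' : ℝ}
    (h2 : Two (nP i C q) (nQ i C q) sB sB')
    (hτ : ∀ j : ℤ, kT (nP i C q) sB - kT (nQ i C q) sB' ≠ j * (kPer (n2 C q) / K))
    {s s' : ℝ → ℝ} (hs : ContDiffAt ℝ 2 s q.1) (hs' : ContDiffAt ℝ 2 s' q.1)
    (hX : ∀ᶠ r in 𝓝 q.1, kX (nP i C (r, q.2)) (s r) = y * kX (nQ i C (r, q.2)) (s' r))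
    (hF : ∃ j : ℤ, kT (nP i C q) (s q.1) - kT (nQ i C q) (s' q.1) =
      j * (kPer (n2 C q) / K))
    (hd : deriv (fun r => kT (nP i C (r, q.2)) (s r) - kT (nQ i C (r, q.2)) (s' r)) q.1 ≠ 0)
    (hW : kcr y (nP i C q) (nQ i C q) (s q.1) (s' q.1) ≠ 0) : SupM C ρe i y := by
  have hC0 : C ≠ 0 := hC.1.ne'
  obtain ⟨hz3, hz2, hzr, hzp, hpos⟩ := n_states hC0 hq
  obtain ⟨hpP, hpQ⟩ := n_pPQ i hC0 hq
  have hKr : (0:ℝ) < K := by exact_mod_cast hK
  have hε2 : -2 < q.2.2 := hq.2.1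
  obtain ⟨-, hn3, hn2, hsum⟩ := n_neg hε2
  obtain ⟨-, h3ne, h3r, h3h, h3L, h3σ⟩ := n3_facts hq
  obtain ⟨-, h2ne, h2r, h2h, h2L, h2σ⟩ := n2_facts hq
  have hr0 : 0 < zr C (nX C q) := by rw [hzr]; exact hq.1
  have hPn : kh' (nP i C q) < 0 := hP.1
  have hP0 : (nP i C q).1 ≠ 0 := kL_ne hP.2
  have hLQ : LQ C i (nX C q) (nχ C q) ≠ 0 := by
    unfold LQ
    rw [hz3, hz2]
    have := hQ.2
    unfold nQ at this
    split_ifs at this ⊢ <;> exact this
  have hres : (K : ℝ) * kPer (z3 C (nX C q) (nχ C q)) =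
      ((2 * K + 1 : ℕ) : ℝ) * kPer (z2 C (nX C q) (nχ C q)) := by
    rw [hz3, hz2, (n_per hq).1, hε]
    push_cast
    field_simp
  have hder : deriv (fun χ => kh' (z3 C (nX C q) χ) - kh' (z2 C (nX C q) χ)) (nχ C q) ≠ 0 := by
    rw [(z_denergy hr0 (nχ C q)).deriv]
    exact mul_ne_zero hC0 hzX
  have hfree := m1_free i hC0 hq hK hε hP hQ h2 hτ
  obtain ⟨h1, χ, hh1, hχ0, hχ, hR, hE⟩ := tarc_local C hC i (nX C q) (nχ C q) K (2 * K + 1) hK
    (by omega) hX2 (by rw [hz3, h3h]; exact hn3) (by rw [hz2, h2h]; exact hn2) hres hder hzX hLQ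
    hfree
  -- the event
  have hX0 : kX (nP i C q) (s q.1) = y * kX (nQ i C q) (s' q.1) := hX.self_of_nhds
  obtain ⟨a, b, hT, hs1, hs2⟩ := mo1_ar i hy1 hq hK hε hP hQ hX0 hF
  have hnear : ∀ᶠ r in 𝓝 q.1, (r, q.2) ∈ NR C := by
    have hc : ContinuousAt (fun r : ℝ => (r, q.2)) q.1 := by fun_prop
    exact hc.preimage_mem_nhds ((n_smooth hC0).1.mem_nhds hq)
  obtain ⟨i', hTZ⟩ := m1_event i hC hy hq hP hQ hh1 hχ0 hχ hE hzX
    (s := fun r => s r + 2 * Real.pi * a) (s' := fun r => s' r + 2 * Real.pi * b)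
    (hs.add contDiffAt_const) (hs'.add contDiffAt_const)
    (by
      filter_upwards [hX] with r hr
      rw [(mo1_shift _ _ a).1, (mo1_shift _ _ b).1]
      exact hr)
    hT
    (by
      have he : (fun r => kT (nP i C (r, q.2)) (s r + 2 * Real.pi * a) -
          kT (nQ i C (r, q.2)) (s' r + 2 * Real.pi * b)) =ᶠ[𝓝 q.1]
          fun r => (kT (nP i C (r, q.2)) (s r) - kT (nQ i C (r, q.2)) (s' r)) +
            (kPer (nP i C q) * a - kPer (nQ i C q) * b) := by
        filter_upwards [hnear] with r hr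
        rw [kT_per, kT_per, (mo1_per i hq hr).1, (mo1_per i hq hr).2]
        ring
      rw [he.deriv_eq, deriv_add_const]
      exact hd)
    (by
      unfold kcr
      rw [(mo1_shift _ _ a).2, (mo1_shift _ _ b).2]
      exact hW)
  -- the duration
  set T := T0 C i (nX C q) (nχ C q) K (2 * K + 1) with hTdef
  have hTe : T = kKP i K * (2 * Real.pi * Real.sqrt (kA (nP i C q))) := by
    have := mo1_T0 (K := K) i (C := C) (X := nX C q) (χ := nχ C q) (by rw [hpP]; exact hPn)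
      (by rw [hpP]; exact hP0)
    rw [hpP] at this
    exact this
  have hsA : 0 < Real.sqrt (kA (nP i C q)) := Real.sqrt_pos.mpr (kA_pos hPn)
  set τe := Real.sqrt (kA (nP i C q)) * (s q.1 + 2 * Real.pi * a) with hτe
  have hτe0 : 0 < τe := mul_pos hsA hs1
  have hτe1 : τe < T := by
    rw [hTe, hτe]
    calc Real.sqrt (kA (nP i C q)) * (s q.1 + 2 * Real.pi * a) <
        Real.sqrt (kA (nP i C q)) * (kKP i K * (2 * Real.pi)) :=
          mul_lt_mul_of_pos_left hs2 hsA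
      _ = kKP i K * (2 * Real.pi * Real.sqrt (kA (nP i C q))) := by ring
  -- continuity of the trajectories
  have hball : Metric.closedBall (nX C q) h1 ⊆ Metric.ball (nX C q) (2 * h1) :=
    Metric.closedBall_subset_ball (by linarith)
  have hχc : ContinuousOn χ (Metric.closedBall (nX C q) h1) :=
    hχ.continuousOn.mono hball
  have hrh : 0 < rh := by
    have := z_bounds
    linarith [this.2.2.2.2.1]
  have hrO : ∀ X ∈ Metric.closedBall (nX C q) h1, 0 < zr C X := by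
    intro X hX
    have := (hR.z.pos X hX).2.1
    unfold zr
    linarith
  have hEO : ∀ X ∈ Metric.closedBall (nX C q) h1, kh' (z3 C X (χ X)) < 0 ∧
      kh' (z2 C X (χ X)) < 0 := by
    intro X hX
    obtain ⟨e1, e2⟩ := hE X hX
    rw [e1, e2, hz3, hz2, h3h, h2h]
    exact ⟨hn3, hn2⟩
  have hQO : ∀ X ∈ Metric.closedBall (nX C q) h1, LQ C i X (χ X) ≠ 0 := by
    intro X hX
    have h := hR.z.sun X hX
    have e3 : (x3 (colD (limD C X (χ X))), u3 (colD (limD C X (χ X)))) = z3 C X (χ X) :=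
      (z_p C X (χ X)).1
    have e2 : (x2 (colD (limD C X (χ X))), u2 (colD (limD C X (χ X)))) = z2 C X (χ X) :=
      (z_p C X (χ X)).2
    change (if i = 0 then kL (x2 (colD (limD C X (χ X))), u2 (colD (limD C X (χ X))))
      else kL (x3 (colD (limD C X (χ X))), u3 (colD (limD C X (χ X))))) ≠ 0 at h
    rw [e3, e2] at h
    exact h
  have hcont := m0_cont C i (Metric.closedBall (nX C q) h1) χ hχc hrO hEO hQO
  -- values at the centre
  have hform := fun t => mid_form i hC0 hq hQ hχ0 hy t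
  have hc1 : ∀ τ, (Zd i (limD C (nX C q) (χ (nX C q))) τ).1 ≠ 0 := by
    intro τ h0
    have h := (hform τ).2.2
    rw [h0] at h
    have h' := norm_kX hPn hP0 (τ / Real.sqrt (kA (nP i C q)))
    rw [← h] at h'
    have h'' := kR_pos hP (τ / Real.sqrt (kA (nP i C q)))
    rw [← h'] at h''
    simp at h''
  have hx0 : (Zd i (limD C (nX C q) (χ (nX C q))) τe).2.2.1 ≠ 0 := by
    rw [(hform τe).2.1]
    exact kL_ne (kep_ell hQ _).1.2
  -- no sun collisions
  obtain ⟨h2', hh2, hh21, hsun⟩ := m0_window (f := fun p : Pl × ℝ =>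
      (Zd i (limD C p.1 (χ p.1)) p.2).1) (X := nX C q) (T := T) hh1
    (by
      have h0 := continuous_fst.comp_continuousOn hcont
      exact h0.mono (prod_mono_right (subset_univ _)))
    (n := 0) (fun j => j.elim0) (fun τ _ _ => hc1 τ) (he := 1) one_pos
  -- the directions
  have hχat : ContinuousAt χ (nX C q) :=
    (hχ.contDiffAt (Metric.ball_mem_nhds _ (by linarith))).continuousAt
  obtain ⟨h3', hh3, hχb⟩ : ∃ h3' > 0, ∀ Y ∈ Metric.closedBall (nX C q) h3', |χ Y| ≤ 1 / 100 := by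
    have hlt : |χ (nX C q)| < 1 / 100 := by rw [hχ0]; exact hχ1
    have hev : ∀ᶠ Y in 𝓝 (nX C q), |χ Y| < 1 / 100 :=
      (hχat.abs).eventually_lt_const hlt
    obtain ⟨e, he, hb⟩ := Metric.eventually_nhds_iff.mp hev
    refine ⟨e / 2, by linarith, fun Y hY => (hb ?_).le⟩
    rw [Metric.mem_closedBall] at hY
    linarith
  -- the other body
  set x := (Zd i (limD C (nX C q) (χ (nX C q))) τe).2.2.1 with hxdef
  have hxn : 0 < ‖x‖ := norm_pos_iff.mpr hx0
  obtain ⟨δ, hδ, hδb⟩ : ∃ δ > 0, ∀ p ∈ Metric.closedBall (nX C q) h1 ×ˢ (univ : Set ℝ),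
      dist p (nX C q, τe) < δ → ‖(Zd i (limD C p.1 (χ p.1)) p.2).2.2.1 - x‖ < ‖x‖ / 2 := by
    have hc2 : ContinuousOn (fun p : Pl × ℝ => (Zd i (limD C p.1 (χ p.1)) p.2).2.2.1)
        (Metric.closedBall (nX C q) h1 ×ˢ univ) := by
      have hcc : Continuous (fun Z : LCS => Z.2.2.1) := by fun_prop
      exact hcc.comp_continuousOn hcont
    have hmem : (nX C q, τe) ∈ Metric.closedBall (nX C q) h1 ×ˢ (univ : Set ℝ) :=
      ⟨Metric.mem_closedBall_self hh1.le, mem_univ _⟩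
    have h := (Metric.continuousWithinAt_iff.mp (hc2 _ hmem)) (‖x‖ / 2) (by linarith)
    obtain ⟨δ, hδ, hb⟩ := h
    refine ⟨δ, hδ, fun p hp hpd => ?_⟩
    have := hb hp hpd
    rwa [dist_eq_norm] at this
  -- the final radii
  set h' := min (min h1 h2') (min h3' (δ / 2)) with hh'def
  set he := min (δ / 2) (min (τe / 2) ((T - τe) / 2)) with hhedef
  have hh'0 : 0 < h' := lt_min (lt_min hh1 hh2) (lt_min hh3 (by linarith))
  have hh'1 : h' ≤ h1 := (min_le_left _ _).trans (min_le_left _ _)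
  have hh'2 : h' ≤ h2' := (min_le_left _ _).trans (min_le_right _ _)
  have hh'3 : h' ≤ h3' := (min_le_right _ _).trans (min_le_left _ _)
  have hh'4 : h' ≤ δ / 2 := (min_le_right _ _).trans (min_le_right _ _)
  have hhe0 : 0 < he := lt_min (by linarith) (lt_min (by linarith) (by linarith))
  have hhe1 : he ≤ δ / 2 := min_le_left _ _
  have hhe2 : he ≤ τe / 2 := (min_le_right _ _).trans (min_le_left _ _)
  have hhe3 : he ≤ (T - τe) / 2 := (min_le_right _ _).trans (min_le_right _ _)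
  refine ⟨nX C q, h', χ, fun _ => T, τe, he, 0, fun j => j.elim0, i', ?_, hh'0, hhe0, by norm_num,
    rarc_mono hR (isCompact_closedBall _ _) (Metric.closedBall_subset_closedBall hh'1), ?_, ?_, ?_,
    ⟨x, ?_⟩, hTZ he, fun j => j.elim0⟩
  · rw [mem_closedBall_zero_iff]
    exact hX1
  · intro Y hY
    exact hχb Y (Metric.closedBall_subset_closedBall hh'3 hY)
  · intro Y _
    constructor
    · linarith
    · show τe + he < T
      linarith
  · refine ⟨fun j => j.elim0, fun X hX τ hτ _ => ?_⟩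
    exact hsun X (Metric.closedBall_subset_closedBall hh'2 hX) τ ⟨hτ.1.le, hτ.2.le⟩
      (fun j => j.elim0)
  · intro Y hY τ hτ
    refine (hδb (Y, τ) ⟨Metric.closedBall_subset_closedBall hh'1 hY, mem_univ _⟩ ?_).le
    rw [Prod.dist_eq, max_lt_iff]
    rw [Metric.mem_closedBall] at hY
    refine ⟨by simpa using lt_of_le_of_lt (hY.trans hh'4) (by linarith), ?_⟩
    simp only [Real.dist_eq]
    rw [abs_lt]
    constructor
    · have := hτ.1; linarith
    · have := hτ.2; linarith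

end

end Pool.Agent.HS

namespace Pool.Agent.HS
open Set Filter Topology
open scoped ContDiff

theorem supM_point (i : Fin 2) {C ρe : ℝ} (hC : 0 < C ∧ C ≤ 1) {y : ℂ} (hy : y ≠ 0) (hy1 : y ≠ 1)
    {q : ℝ × ℝ × ℝ} (hq : q ∈ NR C) {K : ℕ} (hK : 0 < K) (hε : q.2.2 = 1 / K)
    (hP : Ell (nP i C q)) (hQ : Ell (nQ i C q)) (hX1 : ‖nX C q‖ ≤ ρe)
    (hX2 : nX C q ∈ interior (CD C)) (hχ1 : |nχ C q| < 1 / 100)
    (hzX : zX C (nX C q) (nχ C q) ≠ 0) {sB sB' : ℝ}
    (h2 : Two (nP i C q) (nQ i C q) sB sB')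
    (hτ : ∀ j : ℤ, kT (nP i C q) sB - kT (nQ i C q) sB' ≠ j * (kPer (n2 C q) / K))
    {s s' : ℝ → ℝ} (hs : ContDiffAt ℝ 2 s q.1) (hs' : ContDiffAt ℝ 2 s' q.1)
    (hX : ∀ᶠ r in 𝓝 q.1, kX (nP i C (r, q.2)) (s r) = y * kX (nQ i C (r, q.2)) (s' r))
    (hF : ∃ j : ℤ, kT (nP i C q) (s q.1) - kT (nQ i C q) (s' q.1) =
      j * (kPer (n2 C q) / K))
    (hd : deriv (fun r => kT (nP i C (r, q.2)) (s r) - kT (nQ i C (r, q.2)) (s' r)) q.1 ≠ 0)
    (hW : kcr y (nP i C q) (nQ i C q) (s q.1) (s' q.1) ≠ 0) : SupM C ρe i y :=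
  @Pool.Agent.HS.supM_point_pr i C ρe hC y hy hy1 q hq K hK hε hP hQ hX1 hX2 hχ1 hzX sB sB' h2 hτ s s' hs hs' hX hF hd hW

end Pool.Agent.HS
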