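import Pool.Agent.Lib_helper60.HSF.D_WN
import Pool.Agent.Lib_helper60.HSF.M_NA1
import Pool.Agent.Lib_helper60.HSF.Z_ZC
import Pool.Agent.Lib_helper60.HSF.Z_ZA1
import Pool.Agent.Lib_helper60.HSF.M_NA2

namespace Pool.Agent.HS

noncomputable section

open Set Filter Topology
open scoped ContDiff

theorem nh_sq {a δ : ℝ} (ha : 0 < a) (hδ : |δ| ≤ a ^ 2 / 2) :
    |Real.sqrt (a ^ 2 + δ) - a| ≤ |δ| / a ∧
    |Real.sqrt (a ^ 2 + δ) - a - δ / (2 * a)| ≤ δ ^ 2 / (2 * a ^ 3) := by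
  have hδ' := abs_le.1 hδ
  have hw : 0 ≤ a ^ 2 + δ := by nlinarith [sq_nonneg a]
  set s := Real.sqrt (a ^ 2 + δ) with hs
  have hs0 : 0 ≤ s := Real.sqrt_nonneg _
  have hs2 : s ^ 2 = a ^ 2 + δ := Real.sq_sqrt hw
  have h1 : |s - a| ≤ |δ| / a := by
    rw [le_div_iff₀ ha]
    have h2 : |δ| = |s - a| * (s + a) := by
      rw [← abs_of_nonneg (add_nonneg hs0 ha.le), ← abs_mul]
      congr 1
      linear_combination -hs2
    rw [h2]
    exact mul_le_mul_of_nonneg_left (by linarith) (abs_nonneg _)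
  refine ⟨h1, ?_⟩
  have h3 : s - a - δ / (2 * a) = -((s - a) ^ 2 / (2 * a)) := by
    field_simp
    linear_combination hs2
  rw [h3, abs_neg, abs_of_nonneg (by positivity)]
  have h4 : (s - a) ^ 2 ≤ (|δ| / a) ^ 2 := by
    rw [← sq_abs (s - a)]
    exact pow_le_pow_left₀ (abs_nonneg _) h1 2
  have h5 : δ ^ 2 / (2 * a ^ 3) = (|δ| / a) ^ 2 / (2 * a) := by
    rw [div_pow, sq_abs]
    field_simp
  rw [h5]
  exact div_le_div_of_nonneg_right h4 (by positivity)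

theorem nh_delta {r R L : ℝ} (hr : 1 ≤ r) (hR : 1 ≤ R) :
    |(2 / r - 2 / R - L ^ 2 / r ^ 2) + 2 * (r - R) / R ^ 2| ≤ 2 * (r - R) ^ 2 + L ^ 2 := by
  have hr0 : 0 < r := by linarith
  have hR0 : 0 < R := by linarith
  have h1 : (2 / r - 2 / R - L ^ 2 / r ^ 2) + 2 * (r - R) / R ^ 2 =
      2 * (r - R) ^ 2 / (r * R ^ 2) - L ^ 2 / r ^ 2 := by
    field_simp
    ring
  rw [h1]
  have hrR : 1 ≤ r * R ^ 2 := by nlinarith [mul_self_nonneg (R - 1)]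
  have hrr : 1 ≤ r ^ 2 := by nlinarith
  have h2 : 2 * (r - R) ^ 2 / (r * R ^ 2) ≤ 2 * (r - R) ^ 2 := div_le_self (by positivity) hrR
  have h3 : L ^ 2 / r ^ 2 ≤ L ^ 2 := div_le_self (by positivity) hrr
  have h4 : 0 ≤ 2 * (r - R) ^ 2 / (r * R ^ 2) := by positivity
  have h5 : 0 ≤ L ^ 2 / r ^ 2 := by positivity
  rw [abs_le]
  constructor <;> linarith

/-- size of the perturbation; `t = B C` small -/
theorem nh_size {D L δ f t C R : ℝ} (hR : 1 ≤ R) (hD : |D| ≤ t) (hL : |L| ≤ 7 * C) (hC : 0 ≤ C)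
    (hCt : C ≤ t) (ht : t ≤ 1 / 100000) (hf : |f| ≤ 2 * D ^ 2 + L ^ 2)
    (hδ : δ + 2 * D / R ^ 2 = f) : |f| ≤ 51 * t ^ 2 ∧ |δ| ≤ 3 * t := by
  have ht0 : 0 ≤ t := hC.trans hCt
  have hD2 : D ^ 2 ≤ t ^ 2 := by
    rw [← sq_abs D]; exact pow_le_pow_left₀ (abs_nonneg _) hD 2
  have hL2 : L ^ 2 ≤ (7 * t) ^ 2 := by
    rw [← sq_abs L]; exact pow_le_pow_left₀ (abs_nonneg _) (by linarith) 2
  have h1 : |f| ≤ 51 * t ^ 2 := by nlinarith
  refine ⟨h1, ?_⟩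
  have hR2 : 1 ≤ R ^ 2 := by nlinarith
  have h2 : |2 * D / R ^ 2| ≤ 2 * t := by
    rw [abs_div, abs_of_pos (by positivity : 0 < R ^ 2), abs_mul, abs_two]
    exact (div_le_self (by positivity) hR2).trans (by linarith)
  have h3 : δ = f - 2 * D / R ^ 2 := by linarith
  rw [h3]
  refine (abs_sub _ _).trans ?_
  nlinarith

theorem nh_w3 : 2 * h30 + 2 / rh = (mb * kh) ^ 2 := by
  have h := rh_inv
  have h1 : 2 / rh = 2 * (1 / rh) := by ring
  rw [h1, h]; ring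

theorem nh_w2 : 2 * h20 + 2 / rh = (ma * kh) ^ 2 := by
  have h := rh_inv
  have h' := E0_rh
  unfold E0 ma mb at h'
  unfold mb at h
  unfold ma
  have h1 : 2 / rh = 2 * (1 / rh) := by ring
  rw [h1]
  linear_combination (8 / 3) * h' - (2 / 3) * h

theorem nh_Gb {m a f K t : ℝ} (hm : 0 ≤ m) (ha : 0 < a) (hf : |f| ≤ 51 * t ^ 2)
    (hK : m * 51 ≤ K * (2 * a)) : |m * f / (2 * a)| ≤ K * t ^ 2 := by
  rw [abs_div, abs_mul, abs_of_nonneg hm, abs_of_pos (by positivity : 0 < 2 * a),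
    div_le_iff₀ (by positivity)]
  have h1 := mul_le_mul_of_nonneg_left hf hm
  have h2 := mul_le_mul_of_nonneg_right hK (sq_nonneg t)
  linarith

theorem nh_Eb {a δ e K t : ℝ} (ha : 0 < a) (hδ : |δ| ≤ 3 * t) (he : |e| ≤ δ ^ 2 / (2 * a ^ 3))
    (hK : 9 ≤ K * (2 * a ^ 3)) : |e| ≤ K * t ^ 2 := by
  refine he.trans ?_
  rw [div_le_iff₀ (by positivity)]
  have h1 : δ ^ 2 ≤ (3 * t) ^ 2 := by
    rw [← sq_abs δ]; exact pow_le_pow_left₀ (abs_nonneg _) hδ 2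
  have h2 := mul_le_mul_of_nonneg_right hK (sq_nonneg t)
  linarith

theorem nh_comb {A a B b t : ℝ} (hA : |A| ≤ 9 * t ^ 2) (ha : |a| ≤ 9 * t ^ 2)
    (hB : |B| ≤ 72 * t ^ 2) (hb : |b| ≤ 234 * t ^ 2) :
    |A + ma * a - B - mb * b| ≤ 300 * t ^ 2 := by
  have h1 := abs_le.1 hA
  have h2 := abs_le.1 ha
  have h3 := abs_le.1 hB
  have h4 := abs_le.1 hb
  have h5 := sq_nonneg t
  unfold ma mb
  rw [abs_le]
  constructor <;> linarith

theorem nh_Sb {a δ x K t : ℝ} (ha : 0 < a) (hδ : |δ| ≤ 3 * t) (hx : |x| ≤ |δ| / a)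
    (ht : 0 ≤ t) (hK : 3 ≤ K * a) : |x| ≤ K * t := by
  refine hx.trans ?_
  rw [div_le_iff₀ ha]
  have h2 := mul_le_mul_of_nonneg_right hK ht
  linarith

theorem nh_key {e3 e2 f3 f2 δ3 δ2 s3 s2 r : ℝ}
    (hf3 : f3 = δ3 + 2 * (r - rh) / rh ^ 2) (hf2 : f2 = δ2 + 2 * (r - rh) / rh ^ 2)
    (he3 : e3 = s3 - mb * kh - δ3 / (2 * (mb * kh)))
    (he2 : e2 = s2 - ma * kh - δ2 / (2 * (ma * kh))) :
    ma * s3 + mb * -s2 - cc * (r - rh) =
        ma * f3 / (2 * (mb * kh)) + ma * e3 - mb * f2 / (2 * (ma * kh)) - mb * e2 := by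
  obtain ⟨-, -, hk1, hk2, hr1, hr2, hc1, hc2, -⟩ := z_bounds
  have hcc := cc_eq
  have hrh0 : rh ≠ 0 := by linarith
  have hkh0 : kh ≠ 0 := by linarith
  rw [hf3, hf2, he3, he2]
  unfold ma mb at hcc ⊢
  have hcc' : cc = 8 / 3 / (rh ^ 2 * kh) := by
    rw [eq_div_iff (mul_ne_zero (pow_ne_zero 2 hrh0) hkh0)]
    linear_combination (16 / 3) * hcc
  rw [hcc']
  field_simp
  ring

theorem nh_pos {a δ : ℝ} (ha : 27 / 100 ≤ a) (hδ : |δ| ≤ 3 / 100000) : 0 < a ^ 2 + δ ∧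
    |δ| ≤ a ^ 2 / 2 := by
  have h := abs_le.1 hδ
  constructor <;> nlinarith

theorem nh_k {k d q : ℝ} (hk : 0 ≤ k) (h : k ^ 2 = d ^ 2 + q ^ 2) (hd1 : kh - 16 / 100000 ≤ d)
    (hd2 : d ≤ kh + 16 / 100000) (hq : |q| ≤ 8 / 100000) : |k - kh| < 1 / 20 := by
  obtain ⟨-, -, hk1, hk2, -⟩ := z_bounds
  have hq2 : q ^ 2 ≤ (8 / 100000) ^ 2 := by
    rw [← sq_abs]
    exact pow_le_pow_left₀ (abs_nonneg _) hq 2
  have hd0 : 0 ≤ d := by linarith
  have hu : k ≤ kh + 1 / 50 := by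
    apply le_of_sq_le_sq _ (by linarith)
    have h1 : d ^ 2 ≤ (kh + 16 / 100000) ^ 2 := pow_le_pow_left₀ hd0 hd2 2
    nlinarith
  have hlo : kh - 1 / 50 ≤ k := by
    apply le_of_sq_le_sq _ hk
    have h1 : (kh - 16 / 100000) ^ 2 ≤ d ^ 2 := pow_le_pow_left₀ (by linarith) hd1 2
    nlinarith [sq_nonneg q]
  rw [abs_lt]; constructor <;> linarith

/-- the main estimates -/
theorem nh_main {C B r lam : ℝ} (hC : 0 < C) (hB : 1 ≤ B) (hBC : B * C ≤ 1 / 100000)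
    (hr : |r - rh| ≤ B * C) (hl : |lam| ≤ 8 * C) :
    (r, lam, (0:ℝ)) ∈ NR C ∧ |nv3 C (r, lam, 0) - mb * kh| ≤ 4 * (B * C) ∧
    |nv2 C (r, lam, 0) + ma * kh| ≤ 12 * (B * C) ∧
    |ma * nv3 C (r, lam, 0) + mb * nv2 C (r, lam, 0) - cc * (r - rh)| ≤ 300 * (B * C) ^ 2 := by
  obtain ⟨-, -, hk1, hk2, hr1, hr2, hc1, hc2, -⟩ := z_bounds
  obtain ⟨n0q, n03, n02⟩ := n_zero
  set t := B * C with htd
  have hCt : C ≤ t := by rw [htd]; nlinarith
  have ht0 : 0 ≤ t := hC.le.trans hCt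
  have hrabs := abs_le.1 hr
  have hr1' : 1 ≤ r := by linarith
  have hrh1 : 1 ≤ rh := by linarith
  have hl' := abs_le.1 hl
  have hL3 : |nL3 C (r, lam, 0)| ≤ 7 * C := by
    change |C + mb * lam| ≤ 7 * C
    unfold mb
    rw [abs_le]; constructor <;> linarith
  have hL2 : |nL2 C (r, lam, 0)| ≤ 7 * C := by
    change |C - ma * lam| ≤ 7 * C
    unfold ma
    rw [abs_le]; constructor <;> linarith
  set L3 := nL3 C (r, lam, 0) with hL3d
  set L2 := nL2 C (r, lam, 0) with hL2d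
  set δ3 := 2 / r - 2 / rh - L3 ^ 2 / r ^ 2 with hδ3
  set δ2 := 2 / r - 2 / rh - L2 ^ 2 / r ^ 2 with hδ2
  have w3 : nw3 C (r, lam, 0) = (mb * kh) ^ 2 + δ3 := by
    change 2 * nh3 0 + 2 / r - L3 ^ 2 / r ^ 2 = _
    rw [n03, ← nh_w3, hδ3]; ring
  have w2 : nw2 C (r, lam, 0) = (ma * kh) ^ 2 + δ2 := by
    change 2 * nh2 0 + 2 / r - L2 ^ 2 / r ^ 2 = _
    rw [n02, ← nh_w2, hδ2]; ring
  obtain ⟨F3, D3⟩ := nh_size (f := δ3 + 2 * (r - rh) / rh ^ 2) hrh1 hr hL3 hC.le hCt hBC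
    (nh_delta hr1' hrh1) rfl
  obtain ⟨F2, D2⟩ := nh_size (f := δ2 + 2 * (r - rh) / rh ^ 2) hrh1 hr hL2 hC.le hCt hBC
    (nh_delta hr1' hrh1) rfl
  set f3 := δ3 + 2 * (r - rh) / rh ^ 2 with hf3
  set f2 := δ2 + 2 * (r - rh) / rh ^ 2 with hf2
  have a3 : 81 / 100 ≤ mb * kh := by unfold mb; linarith
  have a2 : 27 / 100 ≤ ma * kh := by unfold ma; linarith
  have p3 : 0 < mb * kh := by linarith
  have p2 : 0 < ma * kh := by linarith
  have hma : ma = 1 / 4 := rfl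
  have hmb : mb = 3 / 4 := rfl
  obtain ⟨P3, Q3⟩ := nh_pos (a := mb * kh) (by linarith) (D3.trans (by linarith))
  obtain ⟨P2, Q2⟩ := nh_pos a2 (D2.trans (by linarith))
  obtain ⟨S3, T3⟩ := nh_sq p3 Q3
  obtain ⟨S2, T2⟩ := nh_sq p2 Q2
  have v3 : nv3 C (r, lam, 0) = Real.sqrt ((mb * kh) ^ 2 + δ3) := by
    unfold nv3; rw [w3]
  have v2 : nv2 C (r, lam, 0) = -Real.sqrt ((ma * kh) ^ 2 + δ2) := by
    unfold nv2; rw [w2]
  have K3 : 9 ≤ 9 * (2 * (mb * kh) ^ 3) := by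
    have h2 : (81 / 100 : ℝ) ^ 3 ≤ (mb * kh) ^ 3 := pow_le_pow_left₀ (by norm_num) a3 3
    linarith
  have K2 : 9 ≤ 234 * (2 * (ma * kh) ^ 3) := by
    have h2 : (27 / 100 : ℝ) ^ 3 ≤ (ma * kh) ^ 3 := pow_le_pow_left₀ (by norm_num) a2 3
    linarith
  refine ⟨⟨by change 0 < r; linarith, by change (-2 : ℝ) < 0; norm_num, ?_, ?_⟩, ?_, ?_, ?_⟩
  · rw [w3]; exact P3
  · rw [w2]; exact P2
  · rw [v3]
    exact nh_Sb p3 D3 S3 ht0 (by linarith)
  · rw [v2]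
    have h : |-Real.sqrt ((ma * kh) ^ 2 + δ2) + ma * kh| =
        |Real.sqrt ((ma * kh) ^ 2 + δ2) - ma * kh| := by
      rw [← abs_neg]; congr 1; ring
    rw [h]
    exact nh_Sb p2 D2 S2 ht0 (by linarith)
  · rw [v3, v2, nh_key hf3 hf2 rfl rfl]
    exact nh_comb (nh_Gb (by rw [hma]; norm_num) p3 F3 (by rw [hma]; linarith))
      (nh_Eb p3 D3 T3 K3) (nh_Gb (by rw [hmb]; norm_num) p2 F2 (by rw [hmb]; linarith))
      (nh_Eb p2 D2 T2 K2)

theorem nh_arctan {x : ℝ} (h : |x| < 1 / 100) : |Real.arctan x| < 1 / 100 := by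
  have h1 : (1 / 100 : ℝ) < Real.tan (1 / 100) :=
    Real.lt_tan (by norm_num) (by linarith [Real.pi_gt_three])
  have h2 : Real.arctan (Real.tan (1 / 100)) = 1 / 100 :=
    Real.arctan_tan (by linarith [Real.pi_gt_three]) (by linarith [Real.pi_gt_three])
  have h3 := abs_lt.1 h
  rw [abs_lt]
  constructor
  · have h4 : Real.arctan (-Real.tan (1 / 100)) < Real.arctan x :=
      Real.arctan_strictMono (by linarith)
    rw [Real.arctan_neg, h2] at h4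
    exact h4
  · have h4 : Real.arctan x < Real.arctan (Real.tan (1 / 100)) :=
      Real.arctan_strictMono (by linarith)
    rw [h2] at h4
    exact h4

/-- interior points of `CD C` -/
theorem nh_int {C : ℝ} {X : ℝ × ℝ} (h1 : rh / 2 < (chart C X).1) (h2 : (chart C X).1 < 2 * rh)
    (h3 : |(chart C X).2| < 1) (h4 : |kap0 C (chart C X) - kh| < 1 / 20) :
    X ∈ interior (CD C) := by
  have hr : 0 < rh := by
    obtain ⟨-, -, -, -, hr1, -⟩ := z_bounds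
    linarith
  have c1 : Continuous (fun X : ℝ × ℝ => (chart C X).1) := by
    have h : Continuous (fun X : ℝ × ℝ => rh + C * (1/2 + X.1) / (cc * rh)) := by fun_prop
    exact h
  have c2 : Continuous (fun X : ℝ × ℝ => (chart C X).2) := by
    have h : Continuous (fun X : ℝ × ℝ => C * (1/2 + 2 * X.1 + X.2) / rh) := by fun_prop
    exact h
  have hne : (chart C X).1 ≠ 0 := by linarith
  have c3 : ContinuousAt (fun X : ℝ × ℝ => kap0 C (chart C X)) X := by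
    unfold kap0
    have d1 := c1.continuousAt (x := X)
    have d2 := c2.continuousAt (x := X)
    exact (continuousAt_const.mul (((continuousAt_const.add (continuousAt_const.div d1 hne))).sub
      (((d2.pow 2).add (continuousAt_const.div (d1.pow 2) (pow_ne_zero 2 hne))).div_const 2))).sqrt
  rw [mem_interior_iff_mem_nhds]
  have e1 : ∀ᶠ Y in 𝓝 X, rh / 2 < (chart C Y).1 := c1.continuousAt.eventually (lt_mem_nhds h1)
  have e2 : ∀ᶠ Y in 𝓝 X, (chart C Y).1 < 2 * rh := c1.continuousAt.eventually (gt_mem_nhds h2)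
  have e3 : ∀ᶠ Y in 𝓝 X, |(chart C Y).2| < 1 := c2.continuousAt.abs.eventually (gt_mem_nhds h3)
  have e4 : ∀ᶠ Y in 𝓝 X, |kap0 C (chart C Y) - kh| < 1 / 20 :=
    (c3.sub continuousAt_const).abs.eventually (gt_mem_nhds h4)
  filter_upwards [e1, e2, e3, e4] with Y y1 y2 y3 y4
  exact ⟨y1.le, y2.le, y3.le, y4.le⟩

/-- relative speed and `zX` of a state with given data -/
theorem nh_zk {C r L3 L2 v3 v2 lam : ℝ} {X : ℝ × ℝ} {χ : ℝ} (hr : 0 < r) (hzr : zr C X = r)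
    (h3 : z3 C X χ = ((r : ℂ), (v3 : ℂ) + ((L3 / r : ℝ) : ℂ) * Complex.I))
    (h2 : z2 C X χ = ((r : ℂ), (v2 : ℂ) + ((L2 / r : ℝ) : ℂ) * Complex.I))
    (hL3 : L3 = C + mb * lam) (hL2 : L2 = C - ma * lam) :
    zk C X ^ 2 = (v3 - v2) ^ 2 + (lam / r) ^ 2 ∧
    C * zX C X χ = (C * (v3 - v2) - lam * (ma * v3 + mb * v2)) / r := by
  have hs3 : (C : ℂ) * zU C X + (mb : ℂ) * zw C X χ = (v3 : ℂ) + ((L3 / r : ℝ) : ℂ) * Complex.I :=
    congrArg Prod.snd h3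
  have hs2 : (C : ℂ) * zU C X - (ma : ℂ) * zw C X χ = (v2 : ℂ) + ((L2 / r : ℝ) : ℂ) * Complex.I :=
    congrArg Prod.snd h2
  constructor
  · have hw : zw C X χ = ((v3 - v2 : ℝ) : ℂ) + ((lam / r : ℝ) : ℂ) * Complex.I := by
      have h5 : zw C X χ = ((C : ℂ) * zU C X + (mb : ℂ) * zw C X χ) -
          ((C : ℂ) * zU C X - (ma : ℂ) * zw C X χ) := by
        unfold ma mb; push_cast; ring
      rw [h5, hs3, hs2, hL3, hL2]
      unfold ma mb
      push_cast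
      field_simp
      ring
    have hn : ‖zw C X χ‖ ^ 2 = zk C X ^ 2 := by
      unfold zw
      rw [norm_mul, Complex.norm_exp_ofReal_mul_I, mul_one, Complex.norm_real, Real.norm_eq_abs,
        sq_abs]
    rw [← hn, hw, ← Complex.normSq_eq_norm_sq, Complex.normSq_add_mul_I]
  · have hz := (z_L (C := C) (X := X) (by rw [hzr]; exact hr.ne') χ).2.2.1
    rw [← hz, h3, h2]
    unfold cW'
    rw [hL3, hL2]
    simp only [map_add, map_mul, Complex.conj_ofReal, Complex.conj_I]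
    simp only [Complex.mul_im, Complex.add_re, Complex.add_im, Complex.ofReal_re, Complex.ofReal_im,
      Complex.mul_re, Complex.I_re, Complex.I_im, Complex.neg_re, Complex.neg_im]
    unfold ma mb
    field_simp
    ring

theorem nh_d {v3 v2 t : ℝ} (h3 : |v3 - mb * kh| ≤ 4 * t) (h2 : |v2 + ma * kh| ≤ 12 * t)
    (ht : t ≤ 1 / 100000) : kh - 16 / 100000 ≤ v3 - v2 ∧ v3 - v2 ≤ kh + 16 / 100000 := by
  have h3' := abs_le.1 h3
  have h2' := abs_le.1 h2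
  unfold mb at h3'
  unfold ma at h2'
  constructor <;> linarith

theorem nh_p {p D t : ℝ} (h : |p - cc * D| ≤ 300 * t ^ 2) (hD : |D| ≤ t) (ht0 : 0 ≤ t)
    (ht : t ≤ 1 / 100000) : |p| ≤ 1 / 1000 := by
  obtain ⟨-, -, -, -, -, -, hc1, hc2, -⟩ := z_bounds
  have h1 : |cc * D| ≤ 2 * t := by
    rw [abs_mul, abs_of_pos (by linarith : 0 < cc)]
    exact mul_le_mul (by linarith) hD (abs_nonneg _) (by norm_num)
  have h2 : t ^ 2 ≤ 1 / 100000 * t := by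
    rw [pow_two]; exact mul_le_mul_of_nonneg_right ht ht0
  have h3 := abs_le.1 h1
  have h4 := abs_le.1 h
  rw [abs_le]
  constructor <;> linarith

theorem nh_chart {B C ρ e x : ℝ} (hC : 0 < C) (he : |e| ≤ 300 * (B * C) ^ 2)
    (hB : B ^ 2 * C * 1000 < ρ) (hx : |x| ≤ ρ / 8) (hρ : 0 < ρ) : |-x + rh * e / C| < ρ := by
  obtain ⟨-, -, -, -, hr1, hr2, -⟩ := z_bounds
  have h3 : |rh * e / C| ≤ ρ / 2 := by
    rw [abs_div, abs_mul, abs_of_pos (by linarith : 0 < rh), abs_of_pos hC, div_le_iff₀ hC]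
    have h4 : rh * |e| ≤ 121 / 100 * (300 * (B * C) ^ 2) :=
      mul_le_mul hr2.le he (abs_nonneg _) (by norm_num)
    have h5 : (B * C) ^ 2 = B ^ 2 * C * C := by ring
    rw [h5] at h4
    have h6 : B ^ 2 * C * 1000 * C ≤ ρ * C := mul_le_mul_of_nonneg_right hB.le hC.le
    have h7 : 0 < ρ * C := mul_pos hρ hC
    linarith
  refine (abs_add_le _ _).trans_lt ?_
  rw [abs_neg]
  linarith

theorem nh_r {B C ρ x D : ℝ} (hC : 0 < C) (hB : B = 1 + ρ) (hρ : 0 < ρ)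
    (hrr : cc * rh * D = C * (1 / 2 + x)) (hx : |x| ≤ ρ / 8) : |D| ≤ B * C := by
  obtain ⟨-, -, -, -, hr1, hr2, hc1, hc2, -⟩ := z_bounds
  have hxa := abs_le.1 hx
  have h1 : |cc * rh * D| ≤ C * (1 / 2 + ρ / 8) := by
    rw [hrr, abs_mul, abs_of_pos hC]
    refine mul_le_mul_of_nonneg_left ?_ hC.le
    rw [abs_le]; constructor <;> linarith
  have hcr : 1 ≤ cc * rh := by nlinarith
  rw [abs_mul, abs_of_pos (by linarith : 0 < cc * rh)] at h1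
  have h3 : 1 * |D| ≤ cc * rh * |D| := mul_le_mul_of_nonneg_right hcr (abs_nonneg _)
  have h4 : C * (1 / 2 + ρ / 8) ≤ C * B := mul_le_mul_of_nonneg_left (by linarith) hC.le
  linarith

theorem nh_pos2 {C d lam p : ℝ} (hC : 0 < C) (hd : kh - 16 / 100000 ≤ d) (hl : |lam| ≤ 8 * C)
    (hp : |p| ≤ 1 / 1000) : 0 < C * d - lam * p := by
  obtain ⟨-, -, hk1, hk2, -⟩ := z_bounds
  have h2 : |lam * p| ≤ 8 * C * (1 / 1000) := by
    rw [abs_mul]
    exact mul_le_mul hl hp (abs_nonneg _) (by positivity)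
  have h3 := abs_le.1 h2
  have h4 : C * 1 ≤ C * d := mul_le_mul_of_nonneg_left (by linarith) hC.le
  linarith

theorem n_hub_pr (ρ : ℝ) (hρ : 0 < ρ) : ∃ C0 : ℝ, 0 < C0 ∧ C0 ≤ 1 ∧ ∀ C, 0 < C → C < C0 →
    ∀ r lam : ℝ, |nx C r| ≤ ρ / 8 → |lam| ≤ 8 * C →
      (r, lam, (0:ℝ)) ∈ NR C ∧ |r - rh| < 1 / 1000 ∧ ‖nX C (r, lam, 0)‖ < ρ ∧
      |nχ C (r, lam, 0)| < 1 / 100 ∧ nX C (r, lam, 0) ∈ interior (CD C) ∧
      0 < zX C (nX C (r, lam, 0)) (nχ C (r, lam, 0)) ∧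
      |nv3 C (r, lam, 0) - mb * kh| < 1 / 1000 ∧ |nv2 C (r, lam, 0) + ma * kh| < 1 / 100 := by
  obtain ⟨-, -, hk1, hk2, hr1, hr2, hc1, hc2, -⟩ := z_bounds
  set B : ℝ := 1 + ρ with hB
  have hB1 : 1 ≤ B := by linarith
  have hB0 : 0 < B := by linarith
  refine ⟨min 1 (min (1 / (100000 * B)) (ρ / (1000 * B ^ 2))), by positivity, min_le_left _ _, ?_⟩
  intro C hC hC0 r lam hx hl
  have hCa : C < 1 / (100000 * B) := hC0.trans_le ((min_le_right _ _).trans (min_le_left _ _))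
  have hCb : C < ρ / (1000 * B ^ 2) := hC0.trans_le ((min_le_right _ _).trans (min_le_right _ _))
  have hBC : B * C ≤ 1 / 100000 := by
    rw [lt_div_iff₀ (by positivity)] at hCa
    linarith
  have hBC2 : B ^ 2 * C * 1000 < ρ := by
    rw [lt_div_iff₀ (by positivity)] at hCb
    linarith
  have hCs : C ≤ 1 / 100000 := by nlinarith
  have hrh0 : 0 < rh := by linarith
  have hcc0 : 0 < cc := by linarith
  -- the radius
  have hrr : cc * rh * (r - rh) = C * (1 / 2 + nx C r) := by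
    unfold nx
    field_simp
    ring
  have hr : |r - rh| ≤ B * C := nh_r hC hB hρ hrr hx
  obtain ⟨hN, hv3, hv2, hp⟩ := nh_main hC hB1 hBC hr hl
  have hs := n_states hC.ne' hN
  have hr0 : 0 < r := hN.1
  have hr' := abs_le.1 hr
  have hr1' : 1 ≤ r := by linarith
  set v3 := nv3 C (r, lam, 0) with hv3d
  set v2 := nv2 C (r, lam, 0) with hv2d
  obtain ⟨s3, s2, sr, sp, -⟩ := hs
  change zr C (nX C (r, lam, 0)) = r at sr
  obtain ⟨hzk, hzX⟩ := nh_zk (L3 := nL3 C (r, lam, 0)) (L2 := nL2 C (r, lam, 0)) (v3 := v3)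
    (v2 := v2) (lam := lam) hr0 sr s3 s2 rfl rfl
  obtain ⟨hd1, hd2⟩ := nh_d hv3 hv2 hBC
  have hlr : |lam / r| ≤ 8 * C := by
    rw [abs_div, abs_of_pos hr0]
    exact (div_le_self (abs_nonneg _) hr1').trans hl
  have hpb : |ma * v3 + mb * v2| ≤ 1 / 1000 := nh_p hp hr (by positivity) hBC
  have hzr1 : (chart C (nX C (r, lam, 0))).1 = r := sr
  have hkap : |kap0 C (chart C (nX C (r, lam, 0))) - kh| < 1 / 20 :=
    nh_k (Real.sqrt_nonneg _) hzk hd1 hd2 (by linarith)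
  refine ⟨hN, ?_, ?_, ?_, ?_, ?_, ?_, ?_⟩
  · exact lt_of_le_of_lt (hr.trans hBC) (by norm_num)
  · -- the chart
    have h1 : (nX C (r, lam, 0)).2 =
        -nx C r + rh * (ma * v3 + mb * v2 - cc * (r - rh)) / C := by
      change rh * (ma * v3 + mb * v2) / C - 1 / 2 - 2 * nx C r = _
      have h2 : rh * (ma * v3 + mb * v2 - cc * (r - rh)) / C =
          rh * (ma * v3 + mb * v2) / C - (cc * rh * (r - rh)) / C := by ring
      have h3 : C * (1 / 2 + nx C r) / C = 1 / 2 + nx C r := mul_div_cancel_left₀ _ hC.ne'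
      rw [h2, hrr, h3]
      ring
    rw [Prod.norm_def, max_lt_iff]
    constructor
    · change |nx C r| < ρ
      exact hx.trans_lt (by linarith)
    · rw [h1, Real.norm_eq_abs]
      exact nh_chart hC hp hBC2 hx hρ
  · apply nh_arctan
    change |lam / r / (v3 - v2)| < 1 / 100
    have hd3 : 1 ≤ v3 - v2 := by linarith
    have hd0 : 0 < v3 - v2 := by linarith
    rw [abs_div, abs_of_pos hd0]
    refine (div_le_self (abs_nonneg _) hd3).trans_lt ?_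
    linarith
  · refine nh_int ?_ ?_ ?_ hkap
    · rw [hzr1]; linarith
    · rw [hzr1]; linarith
    · rw [sp]
      exact lt_of_le_of_lt hpb (by norm_num)
  · have h1 : 0 < C * zX C (nX C (r, lam, 0)) (nχ C (r, lam, 0)) := by
      rw [hzX]
      exact div_pos (nh_pos2 hC hd1 hl hpb) hr0
    exact (mul_pos_iff_of_pos_left hC).1 h1
  · exact lt_of_le_of_lt hv3 (by linarith)
  · exact lt_of_le_of_lt hv2 (by linarith)

end

end Pool.Agent.HS

namespace Pool.Agent.HS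
open Set Filter Topology
open scoped ContDiff

theorem n_hub (ρ : ℝ) (hρ : 0 < ρ) : ∃ C0 : ℝ, 0 < C0 ∧ C0 ≤ 1 ∧ ∀ C, 0 < C → C < C0 →
    ∀ r lam : ℝ, |nx C r| ≤ ρ / 8 → |lam| ≤ 8 * C →
      (r, lam, (0:ℝ)) ∈ NR C ∧ |r - rh| < 1 / 1000 ∧ ‖nX C (r, lam, 0)‖ < ρ ∧
      |nχ C (r, lam, 0)| < 1 / 100 ∧ nX C (r, lam, 0) ∈ interior (CD C) ∧
      0 < zX C (nX C (r, lam, 0)) (nχ C (r, lam, 0)) ∧
      |nv3 C (r, lam, 0) - mb * kh| < 1 / 1000 ∧ |nv2 C (r, lam, 0) + ma * kh| < 1 / 100 :=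
  @Pool.Agent.HS.n_hub_pr ρ hρ

end Pool.Agent.HS
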