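import Pool.Agent.Lib_helper60.HSF.D_WM
import Pool.Agent.Lib_helper60.HSF.K_KE1
import Pool.Agent.Lib_helper60.HSF.M_NA1
import Pool.Agent.Lib_helper60.HSF.M_NA2
import Pool.Agent.Lib_helper60.HSF.M_NB
import Pool.Agent.Lib_helper60.HSF.M_MI
import Pool.Agent.Lib_helper60.HSF.M_MO1
import Pool.Agent.Lib_helper60.HSF.M_NH
import Pool.Agent.Lib_helper60.HSF.Z_ZC
import Pool.Agent.Lib_helper60.HSF.Z_ZA1
import Pool.Agent.Lib_helper60.HSF.M_MH

namespace Pool.Agent.HS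

noncomputable section

open Set Filter Topology
open scoped ContDiff

/-- period of body 2 as a function of `ε` -/
def mo2_om (ε : ℝ) : ℝ := 2 * Real.pi * (-1 / (2 * nh2 ε)) * Real.sqrt (-1 / (2 * nh2 ε))

theorem mo2_per {C : ℝ} {q : ℝ × ℝ × ℝ} (hq : q ∈ NR C) : kPer (n2 C q) = mo2_om q.2.2 := by
  have h := (n2_facts hq).2.2.2.1
  unfold kPer mo2_om kA
  rw [h]

theorem mo2_om_cont : ContinuousAt mo2_om 0 ∧ 0 < mo2_om 0 := by
  have h2 : nh2 0 < 0 := (n_neg (show (-2 : ℝ) < 0 by norm_num)).2.2.1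
  have hcont : ContinuousAt nh2 0 := by
    have hq : ContinuousAt nq 0 := by
      unfold nq
      have : ContinuousAt (fun ε : ℝ => 2 + ε) 0 := by fun_prop
      exact this.rpow_const (Or.inl (by norm_num))
    have h0 : ma + mb * nq 0 ≠ 0 := by
      have := (n_neg (show (-2 : ℝ) < 0 by norm_num)).1
      have : 0 < ma + mb * nq 0 := by unfold ma mb; nlinarith
      exact this.ne'
    unfold nh2 nh3
    exact hq.mul (ContinuousAt.div continuousAt_const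
      (continuousAt_const.add (continuousAt_const.mul hq)) h0)
  have hA : ContinuousAt (fun ε => -1 / (2 * nh2 ε)) 0 :=
    ContinuousAt.div continuousAt_const (continuousAt_const.mul hcont)
      (mul_ne_zero two_ne_zero h2.ne)
  refine ⟨?_, ?_⟩
  · unfold mo2_om
    exact (continuousAt_const.mul hA).mul hA.sqrt
  · have hpos : 0 < -1 / (2 * nh2 0) := div_pos_of_neg_of_neg (by norm_num) (by linarith)
    unfold mo2_om
    have := Real.sqrt_pos.mpr hpos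
    have := Real.pi_pos
    positivity

theorem mo2_P (i : Fin 2) {C : ℝ} {q : ℝ × ℝ × ℝ} (hq : q ∈ NR C) :
    kh' (nP i C q) < 0 ∧ (nP i C q).1 ≠ 0 ∧ kh' (nQ i C q) < 0 ∧ (nQ i C q).1 ≠ 0 := by
  obtain ⟨-, h31, -, h3, -, -⟩ := n3_facts hq
  obtain ⟨-, h21, -, h2, -, -⟩ := n2_facts hq
  have hn := n_neg hq.2.1
  have e3 : kh' (n3 C q) < 0 := by rw [h3]; exact hn.2.1
  have e2 : kh' (n2 C q) < 0 := by rw [h2]; exact hn.2.2.1
  by_cases hi : i = 0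
  · simp only [nP, nQ, hi, if_true]
    exact ⟨e3, h31, e2, h21⟩
  · simp only [nP, nQ, hi, if_false]
    exact ⟨e2, h21, e3, h31⟩

theorem mo2_nP_smooth (i : Fin 2) {C : ℝ} (hC : C ≠ 0) :
    ContDiffOn ℝ ∞ (nP i C) (NR C) ∧ ContDiffOn ℝ ∞ (nQ i C) (NR C) := by
  obtain ⟨-, h3, h2, -, -⟩ := n_smooth hC
  by_cases hi : i = 0
  · have e1 : nP i C = n3 C := by funext q; simp [nP, hi]
    have e2 : nQ i C = n2 C := by funext q; simp [nQ, hi]
    rw [e1, e2]; exact ⟨h3, h2⟩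
  · have e1 : nP i C = n2 C := by funext q; simp [nP, hi]
    have e2 : nQ i C = n3 C := by funext q; simp [nQ, hi]
    rw [e1, e2]; exact ⟨h2, h3⟩

/-- the time at a smooth anomaly is smooth -/
theorem mo2_kT {P : ℝ × ℝ × ℝ → KS} {s : ℝ × ℝ × ℝ → ℝ} {U : Set (ℝ × ℝ × ℝ)}
    (hP : ContDiffOn ℝ 2 P U) (hs : ContDiffOn ℝ 2 s U)
    (h : ∀ q ∈ U, kh' (P q) < 0 ∧ (P q).1 ≠ 0) :
    ContDiffOn ℝ 1 (fun q => kT (P q) (s q)) U := by
  have h1 : ContDiffOn ℝ 2 (fun q => (P q, s q)) U := hP.prodMk hs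
  have h2 : ContDiffOn ℝ 2 (fun p : KS × ℝ => kT p.1 p.2) {p | kh' p.1 < 0 ∧ p.1.1 ≠ 0} :=
    kT_smooth.of_le (WithTop.coe_le_coe.mpr le_top)
  exact (h2.comp h1 (fun q hq => h q hq)).of_le (by norm_num)

theorem mo2_kL (i : Fin 2) {C : ℝ} {q : ℝ × ℝ × ℝ} (hq : q ∈ NR C) (hl : q.2.1 ≠ nlam i C) :
    kL (nP i C q) ≠ 0 := by
  have h3 := (n3_facts hq).2.2.2.2.1
  have h2 := (n2_facts hq).2.2.2.2.1
  by_cases hi : i = 0
  · simp only [nP, nlam, hi, if_true] at hl ⊢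
    rw [h3]
    unfold nL3
    intro h
    apply hl
    have : mb ≠ 0 := by unfold mb; norm_num
    field_simp
    linarith
  · simp only [nP, nlam, hi, if_false] at hl ⊢
    rw [h2]
    unfold nL2
    intro h
    apply hl
    have : ma ≠ 0 := by unfold ma; norm_num
    field_simp
    linarith

theorem mo2_zX {C : ℝ} (hC : C ≠ 0) {q : ℝ × ℝ × ℝ} (hq : q ∈ NR C) :
    cW' (n3 C q).2 (n2 C q).2 = C * zX C (nX C q) (nχ C q) := by
  obtain ⟨h3, h2, hr, -, -⟩ := n_states hC hq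
  have hr0 : zr C (nX C q) ≠ 0 := by rw [hr]; exact hq.1.ne'
  have := (z_L hr0 (nχ C q)).2.2.1
  rw [h3, h2] at this
  exact this

theorem supM_ne_pr (ρe : ℝ) (hρ : 0 < ρe) : ∃ C0 : ℝ, 0 < C0 ∧ C0 ≤ 1 ∧ ∀ C, 0 < C → C < C0 →
    ∀ i y, y ≠ 0 → y ≠ 1 → ‖y‖ ≤ yb i → SupM C ρe i y := by
  obtain ⟨C0, hC0, hC01, hub⟩ := n_hub ρe hρ
  refine ⟨C0, hC0, hC01, ?_⟩
  intro C hC hCC i y hy0 hy1 hyb
  have hCne : C ≠ 0 := hC.ne'
  obtain ⟨-, -, -, -, hrh1, -, hcc1, -, -⟩ := z_bounds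
  have hccrh : 0 < cc * rh := mul_pos (by linarith) (by linarith)
  -- the interval
  set a : ℝ := rh + C * (1/2 - ρe/8) / (cc * rh) with ha
  set b : ℝ := rh + C * (1/2 + ρe/8) / (cc * rh) with hb
  have hab : a < b := by
    rw [ha, hb]
    have : C * (1/2 - ρe/8) / (cc * rh) < C * (1/2 + ρe/8) / (cc * rh) := by
      apply div_lt_div_of_pos_right _ hccrh
      apply mul_lt_mul_of_pos_left _ hC
      linarith
    linarith
  have hnx : ∀ r ∈ Ioo a b, |nx C r| ≤ ρe / 8 := by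
    intro r hr
    have e : nx C r = cc * rh * (r - rh) / C - 1/2 := rfl
    have h1 : C * (1/2 - ρe/8) / (cc * rh) < r - rh := by have := hr.1; rw [ha] at this; linarith
    have h2 : r - rh < C * (1/2 + ρe/8) / (cc * rh) := by have := hr.2; rw [hb] at this; linarith
    rw [div_lt_iff₀ hccrh] at h1
    rw [lt_div_iff₀ hccrh] at h2
    have h3 : 1/2 - ρe/8 < cc * rh * (r - rh) / C := by
      rw [lt_div_iff₀ hC]; linarith
    have h4 : cc * rh * (r - rh) / C < 1/2 + ρe/8 := by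
      rw [div_lt_iff₀ hC]; linarith
    rw [abs_le]; constructor <;> linarith
  have hlam : |nlam i C| ≤ 8 * C := by
    unfold nlam ma mb
    by_cases hi : i = 0
    · simp only [hi, if_true]
      rw [abs_le]; constructor <;> linarith
    · simp only [hi, if_false]
      rw [abs_le]; constructor <;> linarith
  have hNR : ∀ r ∈ Ioo a b, (r, nlam i C, (0:ℝ)) ∈ NR C := fun r hr =>
    (hub C hC hCC r (nlam i C) (hnx r hr) hlam).1
  obtain ⟨r0, hr0, δ, hδ, hball, s, s', sB, sB', hD⟩ := needle_data i hC hab hNR hy0 hy1 hyb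
  obtain ⟨hq0, -, hX, hχ, hXi, hzX, -, -⟩ := hub C hC hCC r0 (nlam i C) (hnx r0 hr0) hlam
  obtain ⟨hNRo, h3s, h2s, hXs, hχs⟩ := n_smooth hCne
  obtain ⟨hPs, hQs⟩ := mo2_nP_smooth i hCne
  -- open conditions
  have hnh : NR C ∈ 𝓝 (r0, nlam i C, (0:ℝ)) := hNRo.mem_nhds hq0
  have hXc : ContinuousAt (nX C) (r0, nlam i C, 0) := hXs.continuousOn.continuousAt hnh
  have hχc : ContinuousAt (nχ C) (r0, nlam i C, 0) := hχs.continuousOn.continuousAt hnh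
  have h3c : ContinuousAt (n3 C) (r0, nlam i C, 0) := h3s.continuousOn.continuousAt hnh
  have h2c : ContinuousAt (n2 C) (r0, nlam i C, 0) := h2s.continuousOn.continuousAt hnh
  have hQc : ContinuousAt (nQ i C) (r0, nlam i C, 0) := hQs.continuousOn.continuousAt hnh
  have hWc : ContinuousAt (fun q => cW' (n3 C q).2 (n2 C q).2) (r0, nlam i C, 0) := by
    unfold cW'
    exact Complex.continuous_im.continuousAt.comp
      ((Complex.continuous_conj.continuousAt.comp h3c.snd).mul h2c.snd)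
  have hLc : ContinuousAt (fun q => kL (nQ i C q)) (r0, nlam i C, 0) := by
    unfold kL
    exact Complex.continuous_im.continuousAt.comp
      ((Complex.continuous_conj.continuousAt.comp hQc.fst).mul hQc.snd)
  have hL0 : kL (nQ i C (r0, nlam i C, 0)) ≠ 0 := by
    rw [(n_lam i C _ hq0 rfl).2]
    have : mQ i ≠ 0 := by
      unfold mQ ma mb; split_ifs <;> norm_num
    exact div_ne_zero hCne this
  have hW0 : cW' (n3 C (r0, nlam i C, 0)).2 (n2 C (r0, nlam i C, 0)).2 ≠ 0 := by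
    rw [mo2_zX hCne hq0]
    exact mul_ne_zero hCne hzX.ne'
  have hev : ∀ᶠ q in 𝓝 (r0, nlam i C, (0:ℝ)), q ∈ NR C ∧ ‖nX C q‖ < ρe ∧ |nχ C q| < 1/100 ∧
      nX C q ∈ interior (CD C) ∧ cW' (n3 C q).2 (n2 C q).2 ≠ 0 ∧ kL (nQ i C q) ≠ 0 := by
    filter_upwards [hnh, hXc.norm.eventually_lt continuousAt_const hX,
      hχc.abs.eventually_lt continuousAt_const hχ,
      hXc.eventually_mem (isOpen_interior.mem_nhds hXi), hWc.eventually_ne hW0,
      hLc.eventually_ne hL0] with q h1 h2 h3 h4 h5 h6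
    exact ⟨h1, h2, h3, h4, h5, h6⟩
  obtain ⟨δ2, hδ2, hδ2'⟩ := Metric.eventually_nhds_iff_ball.mp hev
  -- the functions
  have hPb : ContDiffOn ℝ 2 (nP i C) (Metric.ball (r0, nlam i C, (0:ℝ)) δ) :=
    (hPs.mono hball).of_le (WithTop.coe_le_coe.mpr le_top)
  have hQb : ContDiffOn ℝ 2 (nQ i C) (Metric.ball (r0, nlam i C, (0:ℝ)) δ) :=
    (hQs.mono hball).of_le (WithTop.coe_le_coe.mpr le_top)
  have hPe : ∀ q ∈ Metric.ball (r0, nlam i C, (0:ℝ)) δ,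
      kh' (nP i C q) < 0 ∧ (nP i C q).1 ≠ 0 := fun q hq =>
    ⟨(mo2_P i (hball hq)).1, (mo2_P i (hball hq)).2.1⟩
  have hQe : ∀ q ∈ Metric.ball (r0, nlam i C, (0:ℝ)) δ,
      kh' (nQ i C q) < 0 ∧ (nQ i C q).1 ≠ 0 := fun q hq =>
    ⟨(mo2_P i (hball hq)).2.2.1, (mo2_P i (hball hq)).2.2.2⟩
  have hF := (mo2_kT hPb hD.cs hPe).sub (mo2_kT hQb hD.cs' hQe)
  have hτ := (mo2_kT hPb hD.cB hPe).sub (mo2_kT hQb hD.cB' hQe)
  obtain ⟨K0, δ1, hδ1, hK⟩ := kinf _ _ (r0, nlam i C, (0:ℝ)) rfl δ hδ hF hτ mo2_om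
    mo2_om_cont.1 mo2_om_cont.2 hD.dF hD.dτ δ2 hδ2
  -- choose λ and K
  obtain ⟨K, hK1⟩ := exists_nat_gt (max (K0 : ℝ) (max 1 (1 / δ2)))
  have hKK0 : K0 ≤ K := by
    have : (K0 : ℝ) < K := lt_of_le_of_lt (le_max_left _ _) hK1
    exact_mod_cast this.le
  have hK1' : (1:ℝ) < K := lt_of_le_of_lt ((le_max_left _ _).trans (le_max_right _ _)) hK1
  have hKpos : 0 < K := by
    have : (0:ℝ) < K := by linarith
    exact_mod_cast this
  have hKδ : 1 / (K:ℝ) < δ2 := by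
    have h1 : 1 / δ2 < K := lt_of_le_of_lt ((le_max_right _ _).trans (le_max_right _ _)) hK1
    rw [div_lt_iff₀ hδ2] at h1
    rw [div_lt_iff₀ (by linarith)]
    linarith
  set lam : ℝ := nlam i C + min δ1 δ2 / 2 with hlamdef
  have hmin : 0 < min δ1 δ2 := lt_min hδ1 hδ2
  have hl1 : |lam - nlam i C| < δ1 := by
    rw [hlamdef, add_sub_cancel_left, abs_of_pos (by linarith)]
    have := min_le_left δ1 δ2
    linarith
  have hl2 : |lam - nlam i C| < δ2 := by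
    rw [hlamdef, add_sub_cancel_left, abs_of_pos (by linarith)]
    have := min_le_right δ1 δ2
    linarith
  have hlne : lam ≠ nlam i C := by rw [hlamdef]; linarith
  obtain ⟨r, hr, hrb, ⟨j, hj⟩, hτj, hdF⟩ := hK lam hl1 K hKK0
  have hq2 : ((r, lam, 1 / (K:ℝ)) : ℝ × ℝ × ℝ) ∈ Metric.ball (r0, nlam i C, (0:ℝ)) δ2 := by
    rw [Metric.mem_ball, Prod.dist_eq, Prod.dist_eq, max_lt_iff, max_lt_iff]
    refine ⟨by rw [Real.dist_eq]; exact hr, by rw [Real.dist_eq]; exact hl2, ?_⟩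
    rw [Real.dist_eq]
    simp only [sub_zero]
    rw [abs_of_pos (by positivity)]
    exact hKδ
  obtain ⟨g1, g2, g3, g4, g5, g6⟩ := hδ2' _ hq2
  have hper : mo2_om (1 / (K:ℝ)) / K = kPer (n2 C (r, lam, 1 / (K:ℝ))) / K := by
    rw [mo2_per g1]
  have hPell : Ell (nP i C (r, lam, 1 / (K:ℝ))) := ⟨(mo2_P i g1).1, mo2_kL i g1 hlne⟩
  have hQell : Ell (nQ i C (r, lam, 1 / (K:ℝ))) := ⟨(mo2_P i g1).2.2.1, g6⟩
  have hzXne : zX C (nX C (r, lam, 1 / (K:ℝ))) (nχ C (r, lam, 1 / (K:ℝ))) ≠ 0 := by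
    intro h
    apply g5
    rw [mo2_zX hCne g1, h, mul_zero]
  have hline : ContDiff ℝ 2 (fun x : ℝ => ((x, lam, 1 / (K:ℝ)) : ℝ × ℝ × ℝ)) :=
    contDiff_id.prodMk contDiff_const
  have hsr : ∀ {t : ℝ × ℝ × ℝ → ℝ}, ContDiffOn ℝ 2 t (Metric.ball (r0, nlam i C, (0:ℝ)) δ) →
      ContDiffAt ℝ 2 (fun x => t (x, lam, 1 / (K:ℝ))) r := by
    intro t ht
    have h1 : ContDiffAt ℝ 2 t (r, lam, 1 / (K:ℝ)) := ht.contDiffAt (Metric.isOpen_ball.mem_nhds hrb)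
    exact ContDiffAt.comp r h1 hline.contDiffAt
  have hevx : ∀ᶠ x in 𝓝 r, kX (nP i C (x, lam, 1 / (K:ℝ))) (s (x, lam, 1 / (K:ℝ))) =
      y * kX (nQ i C (x, lam, 1 / (K:ℝ))) (s' (x, lam, 1 / (K:ℝ))) := by
    have h1 : ∀ᶠ x in 𝓝 r, ((x, lam, 1 / (K:ℝ)) : ℝ × ℝ × ℝ) ∈
        Metric.ball (r0, nlam i C, (0:ℝ)) δ :=
      hline.continuous.continuousAt.eventually_mem (Metric.isOpen_ball.mem_nhds hrb)
    filter_upwards [h1] with x hx
    exact hD.ev _ hx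
  refine supM_point i ⟨hC, hCC.le.trans hC01⟩ hy0 hy1 g1 hKpos rfl hPell hQell g2.le g4 g3 hzXne
    (hD.two _ hrb).2 ?_ (s := fun x => s (x, lam, 1 / (K:ℝ)))
    (s' := fun x => s' (x, lam, 1 / (K:ℝ))) (hsr hD.cs) (hsr hD.cs') hevx ⟨j, ?_⟩ hdF
    (hD.W _ hrb)
  · intro j'
    rw [← hper]
    exact hτj j'
  · rw [← hper]
    exact hj

end

end Pool.Agent.HS

namespace Pool.Agent.HS
open Set Filter Topology
open scoped ContDiff

theorem supM_ne (ρe : ℝ) (hρ : 0 < ρe) : ∃ C0 : ℝ, 0 < C0 ∧ C0 ≤ 1 ∧ ∀ C, 0 < C → C < C0 →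
    ∀ i y, y ≠ 0 → y ≠ 1 → ‖y‖ ≤ yb i → SupM C ρe i y :=
  @Pool.Agent.HS.supM_ne_pr ρe hρ

end Pool.Agent.HS
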