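import Pool.Agent.Lib_helper60.HSF.D_WM0
import Pool.Agent.Lib_helper60.HSF.Z_ZC

/-! HS part S1-M0, block MA: constants. -/

namespace Pool.Agent.HS

noncomputable section

open Set Filter Topology Classical
open scoped ContDiff

theorem m0_per3_pr {y : KS} (h : kh' y = h30) : kA y = 1 ∧ kPer y = 2 * Real.pi := by
  have hA : kA y = 1 := by
    unfold kA
    rw [h]
    unfold h30
    norm_num
  refine ⟨hA, ?_⟩
  unfold kPer
  rw [hA]
  simp

theorem m0_per2_pr {y : KS} (h : kh' y = h20) : 0 < kA y ∧ kPer y = Real.pi := by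
  have h2 : (0:ℝ) < (2:ℝ) ^ (-(1/3) : ℝ) := Real.rpow_pos_of_pos (by norm_num) _
  have h3 : ((2:ℝ) ^ (-(1/3) : ℝ)) ^ 3 = 1 / 2 := by
    rw [← Real.rpow_natCast, ← Real.rpow_mul (by norm_num)]
    norm_num
  have hA : kA y = 1 / (2 * (2:ℝ) ^ (-(1/3) : ℝ)) := by
    unfold kA
    rw [h]
    unfold h20
    field_simp
  have hp : 0 < kA y := by
    rw [hA]; positivity
  have hc : kA y ^ 3 = 1 / 4 := by
    rw [hA, div_pow, mul_pow, h3]; norm_num
  have hs : kA y * Real.sqrt (kA y) = 1 / 2 := by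
    have h4 : (kA y * Real.sqrt (kA y)) ^ 2 = (1 / 2) ^ 2 := by
      rw [mul_pow, Real.sq_sqrt hp.le]
      calc kA y ^ 2 * kA y = kA y ^ 3 := by ring
        _ = (1 / 2) ^ 2 := by rw [hc]; norm_num
    exact (sq_eq_sq₀ (by positivity) (by norm_num)).mp h4
  refine ⟨hp, ?_⟩
  unfold kPer
  rw [mul_assoc, hs]
  ring

/-- values at `C = 0` -/
theorem m0_zero_pr (i : Fin 2) : m0r 0 = rh ∧ 2 * h30 + 2 / rh = (mb * kh) ^ 2 ∧
    2 * h20 + 2 / rh = (ma * kh) ^ 2 ∧ m0v3 0 i = mb * kh ∧ m0v2 0 i = -(ma * kh) := by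
  have hb := z_bounds
  have hk : 0 < kh := by linarith [hb.2.2.1]
  have hr : m0r 0 = rh := by
    unfold m0r; simp
  have h1 : 2 / rh = mb ^ 2 * kh ^ 2 - 2 * h30 := by
    have := rh_inv
    have e : 2 / rh = 2 * (1 / rh) := by ring
    rw [e, this]; ring
  have h3 : 2 * h30 + 2 / rh = (mb * kh) ^ 2 := by
    rw [h1]; ring
  have h2 : 2 * h20 + 2 / rh = (ma * kh) ^ 2 := by
    have e := kh_sq
    rw [h1, mul_pow, e]
    unfold d0 ma mb
    ring
  refine ⟨hr, h3, h2, ?_, ?_⟩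
  · unfold m0v3
    rw [hr]
    simp only [zero_mul, ne_eq, OfNat.ofNat_ne_zero, not_false_eq_true, zero_pow, zero_div, sub_zero]
    rw [h3]
    exact Real.sqrt_sq (by unfold mb; positivity)
  · unfold m0v2
    rw [hr]
    simp only [zero_mul, ne_eq, OfNat.ofNat_ne_zero, not_false_eq_true, zero_pow, zero_div, sub_zero]
    rw [h2]
    rw [Real.sqrt_sq (by unfold ma; positivity)]

end

end Pool.Agent.HS

namespace Pool.Agent.HS
open Set Filter Topology Classical
open scoped ContDiff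

theorem m0_per3 {y : KS} (h : kh' y = h30) : kA y = 1 ∧ kPer y = 2 * Real.pi :=
  @Pool.Agent.HS.m0_per3_pr y h

end Pool.Agent.HS

namespace Pool.Agent.HS
open Set Filter Topology Classical
open scoped ContDiff

theorem m0_per2 {y : KS} (h : kh' y = h20) : 0 < kA y ∧ kPer y = Real.pi :=
  @Pool.Agent.HS.m0_per2_pr y h

end Pool.Agent.HS

namespace Pool.Agent.HS
open Set Filter Topology Classical
open scoped ContDiff

theorem m0_zero (i : Fin 2) : m0r 0 = rh ∧ 2 * h30 + 2 / rh = (mb * kh) ^ 2 ∧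
    2 * h20 + 2 / rh = (ma * kh) ^ 2 ∧ m0v3 0 i = mb * kh ∧ m0v2 0 i = -(ma * kh) :=
  @Pool.Agent.HS.m0_zero_pr i

end Pool.Agent.HS
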