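import Pool.Agent.Lib_helper60.HSF.D_WM0
import Pool.Agent.Lib_helper60.HSF.Z_ZC
import Pool.Agent.Lib_helper60.HSF.Z_ZA1

/-! # HSN block ME: near the hub and direction `0` -/

namespace Pool.Agent.HS

noncomputable section

open Set Filter Topology Classical
open scoped ContDiff

/-- the difference of the energies -/
theorem me_diff (C : ℝ) (X : Pl) (χ : ℝ) : kh' (z3 C X χ) - kh' (z2 C X χ) =
    C * (zk C X * (zϖ X / rh * Real.cos χ + 1 / zr C X * Real.sin χ)) +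
      (mb ^ 2 - ma ^ 2) / 2 * zk C X ^ 2 := by
  have h1 : ∀ z : ℂ, ‖z‖ ^ 2 = z.re ^ 2 + z.im ^ 2 := by
    intro z
    rw [← Complex.normSq_eq_norm_sq, Complex.normSq_apply]
    ring
  have hcs : Real.cos χ ^ 2 + Real.sin χ ^ 2 = 1 := Real.cos_sq_add_sin_sq χ
  unfold kh' z3 z2
  simp only
  rw [h1, h1]
  have hre : (zw C X χ).re = zk C X * Real.cos χ := by
    unfold zw
    rw [Complex.mul_re, Complex.exp_ofReal_mul_I_re, Complex.ofReal_re, Complex.ofReal_im]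
    ring
  have him : (zw C X χ).im = zk C X * Real.sin χ := by
    unfold zw
    rw [Complex.mul_im, Complex.exp_ofReal_mul_I_im, Complex.ofReal_re, Complex.ofReal_im]
    ring
  have hure : (zU C X).re = zϖ X / rh := by
    unfold zU
    simp
  have huim : (zU C X).im = 1 / zr C X := by
    unfold zU
    simp
  simp only [Complex.add_re, Complex.add_im, Complex.sub_re, Complex.sub_im, Complex.mul_re,
    Complex.mul_im, Complex.ofReal_re, Complex.ofReal_im, hre, him, hure, huim, zero_mul,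
    sub_zero, add_zero]
  have hab : ma + mb = 1 := by unfold ma mb; norm_num
  unfold ma mb
  linear_combination (1 / 4 * zk C X ^ 2) * hcs

theorem me_deriv {C : ℝ} {X : Pl} (hr : zr C X ≠ 0) (χ : ℝ) :
    deriv (fun χ => kh' (z3 C X χ) - kh' (z2 C X χ)) χ = C * zX C X χ := by
  have h0 : (fun χ => kh' (z3 C X χ) - kh' (z2 C X χ)) = fun χ =>
      C * (zk C X * (zϖ X / rh * Real.cos χ + 1 / zr C X * Real.sin χ)) +
      (mb ^ 2 - ma ^ 2) / 2 * zk C X ^ 2 := by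
    funext χ
    exact me_diff C X χ
  rw [h0]
  have h1 := ((((Real.hasDerivAt_cos χ).const_mul (zϖ X / rh)).add
    ((Real.hasDerivAt_sin χ).const_mul (1 / zr C X))).const_mul (zk C X)).const_mul C
  have h2 := h1.add_const ((mb ^ 2 - ma ^ 2) / 2 * zk C X ^ 2)
  have h3 := h2.deriv
  rw [(z_L hr χ).2.2.2]
  refine Eq.trans h3 ?_
  ring

theorem m0_near_pr : ∃ c : ℝ, 0 < c ∧ c ≤ 1 ∧ ∀ C, 0 < C → C < c → ∀ X : Pl, ‖X‖ < c →
    X ∈ interior (CD C) ∧ 0 < zr C X ∧ ∀ χ, |χ| < c →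
    deriv (fun χ => kh' (z3 C X χ) - kh' (z2 C X χ)) χ ≠ 0 ∧ zX C X χ ≠ 0 := by
  obtain ⟨-, -, hk1, hk2, hr1, hr2, hc1, hc2, -⟩ := z_bounds
  have hrp : (0 : ℝ) < rh := by linarith
  have hcp : (0 : ℝ) < cc := by linarith
  have hkp : (0 : ℝ) < kh := by linarith
  -- the functions of `(C, X, χ)`
  have e1 : zr 0 0 = rh := by rw [zr_eq]; simp
  have e2 : (chart 0 0).2 = 0 := by unfold chart; simp
  have e3 : kap0 0 (chart 0 0) = kh := by
    unfold kap0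
    have h1 : (chart 0 0).1 = rh := e1
    rw [h1, e2]
    have h2 : 2 / (ma * mb) * (E0 + 1 / rh - ((0:ℝ) ^ 2 + (0:ℝ) ^ 2 / rh ^ 2) / 2) = kh ^ 2 := by
      have h3 : E0 + 1 / rh - ((0:ℝ) ^ 2 + (0:ℝ) ^ 2 / rh ^ 2) / 2 = E0 + 1 / rh := by ring
      rw [h3, E0_rh]
      have hab : ma * mb ≠ 0 := by unfold ma mb; norm_num
      rw [div_mul_eq_mul_div, mul_div_assoc']
      rw [show 2 * (ma * mb * kh ^ 2) / 2 = ma * mb * kh ^ 2 by ring,
        mul_div_cancel_left₀ _ hab]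
    rw [h2, Real.sqrt_sq hkp.le]
  have c1 : Continuous (fun p : ℝ × Pl × ℝ => zr p.1 p.2.1) := by
    have : (fun p : ℝ × Pl × ℝ => zr p.1 p.2.1) =
        fun p => rh + p.1 * (1 / 2 + p.2.1.1) / (cc * rh) := rfl
    rw [this]
    fun_prop
  have c2 : Continuous (fun p : ℝ × Pl × ℝ => (chart p.1 p.2.1).2) := by
    have : (fun p : ℝ × Pl × ℝ => (chart p.1 p.2.1).2) =
        fun p => p.1 * (1 / 2 + 2 * p.2.1.1 + p.2.1.2) / rh := rfl
    rw [this]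
    fun_prop
  have z0 : zr (0 : ℝ × Pl × ℝ).1 (0 : ℝ × Pl × ℝ).2.1 = rh := e1
  have hz0 : zr (0 : ℝ × Pl × ℝ).1 (0 : ℝ × Pl × ℝ).2.1 ≠ 0 := by rw [z0]; exact hrp.ne'
  have c3 : ContinuousAt (fun p : ℝ × Pl × ℝ => kap0 p.1 (chart p.1 p.2.1)) 0 := by
    unfold kap0
    apply ContinuousAt.sqrt
    have h1 : ContinuousAt (fun p : ℝ × Pl × ℝ => (chart p.1 p.2.1).1) 0 := c1.continuousAt
    have h2 : ContinuousAt (fun p : ℝ × Pl × ℝ => (chart p.1 p.2.1).2) 0 := c2.continuousAt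
    have h3 : (chart (0 : ℝ × Pl × ℝ).1 (0 : ℝ × Pl × ℝ).2.1).1 ≠ 0 := hz0
    have h4 : ContinuousAt (fun p : ℝ × Pl × ℝ => p.1) 0 := continuous_fst.continuousAt
    exact continuousAt_const.mul ((continuousAt_const.add (continuousAt_const.div h1 h3)).sub
      (((h2.pow 2).add ((h4.pow 2).div (h1.pow 2) (pow_ne_zero 2 h3))).div_const 2))
  have c4 : ContinuousAt (fun p : ℝ × Pl × ℝ => Real.cos p.2.2 / zr p.1 p.2.1 -
      zϖ p.2.1 / rh * Real.sin p.2.2) 0 := by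
    apply ContinuousAt.sub
    · apply ContinuousAt.div _ c1.continuousAt hz0
      exact (by fun_prop : Continuous fun p : ℝ × Pl × ℝ => Real.cos p.2.2).continuousAt
    · unfold zϖ
      exact (by fun_prop : Continuous fun p : ℝ × Pl × ℝ =>
        (1/2 + 2 * p.2.1.1 + p.2.1.2) / rh * Real.sin p.2.2).continuousAt
  have v1 : ∀ᶠ p : ℝ × Pl × ℝ in 𝓝 0, rh / 2 < zr p.1 p.2.1 ∧ zr p.1 p.2.1 < 2 * rh := by
    refine (c1.continuousAt.eventually (lt_mem_nhds ?_)).and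
      (c1.continuousAt.eventually (gt_mem_nhds ?_))
    · show rh / 2 < zr (0 : ℝ × Pl × ℝ).1 (0 : ℝ × Pl × ℝ).2.1
      rw [z0]; linarith
    · show zr (0 : ℝ × Pl × ℝ).1 (0 : ℝ × Pl × ℝ).2.1 < 2 * rh
      rw [z0]; linarith
  have v2 : ∀ᶠ p : ℝ × Pl × ℝ in 𝓝 0, |(chart p.1 p.2.1).2| < 1 := by
    apply (c2.abs.continuousAt).eventually (gt_mem_nhds _)
    have : (chart (0 : ℝ × Pl × ℝ).1 (0 : ℝ × Pl × ℝ).2.1).2 = 0 := e2
    show |(chart (0 : ℝ × Pl × ℝ).1 (0 : ℝ × Pl × ℝ).2.1).2| < 1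
    rw [this]
    norm_num
  have v3 : ∀ᶠ p : ℝ × Pl × ℝ in 𝓝 0, |kap0 p.1 (chart p.1 p.2.1) - kh| < 1 / 20 := by
    apply ((c3.sub continuousAt_const).abs).eventually (gt_mem_nhds _)
    have : kap0 (0 : ℝ × Pl × ℝ).1 (chart (0 : ℝ × Pl × ℝ).1 (0 : ℝ × Pl × ℝ).2.1) = kh := e3
    show |kap0 (0 : ℝ × Pl × ℝ).1 (chart (0 : ℝ × Pl × ℝ).1 (0 : ℝ × Pl × ℝ).2.1) - kh| < 1 / 20
    rw [this]
    norm_num
  have v4 : ∀ᶠ p : ℝ × Pl × ℝ in 𝓝 0, 0 < Real.cos p.2.2 / zr p.1 p.2.1 -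
      zϖ p.2.1 / rh * Real.sin p.2.2 := by
    apply c4.eventually (lt_mem_nhds _)
    show 0 < Real.cos (0 : ℝ × Pl × ℝ).2.2 / zr (0 : ℝ × Pl × ℝ).1 (0 : ℝ × Pl × ℝ).2.1 -
      zϖ (0 : ℝ × Pl × ℝ).2.1 / rh * Real.sin (0 : ℝ × Pl × ℝ).2.2
    rw [z0]
    have : (0 : ℝ × Pl × ℝ).2.2 = 0 := rfl
    rw [this, Real.cos_zero, Real.sin_zero, mul_zero, sub_zero]
    positivity
  obtain ⟨ε, hε, hb⟩ := Metric.eventually_nhds_iff_ball.1 (v1.and (v2.and (v3.and v4)))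
  have key : ∀ C : ℝ, 0 < C → C < min ε 1 → ∀ X : Pl, ‖X‖ < min ε 1 → ∀ χ : ℝ, |χ| < min ε 1 →
      (C, X, χ) ∈ Metric.ball (0 : ℝ × Pl × ℝ) ε := by
    intro C hC hC' X hX χ hχ
    rw [mem_ball_zero_iff, Prod.norm_def, Prod.norm_def]
    refine max_lt ?_ (max_lt (hX.trans_le (min_le_left _ _)) ?_)
    · rw [Real.norm_eq_abs, abs_of_pos hC]
      exact hC'.trans_le (min_le_left _ _)
    · rw [Real.norm_eq_abs]
      exact hχ.trans_le (min_le_left _ _)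
  have hm : 0 < min ε 1 := lt_min hε one_pos
  refine ⟨min ε 1, hm, min_le_right _ _, ?_⟩
  intro C hC hC' X hX
  have h0 : |(0:ℝ)| < min ε 1 := by rw [abs_zero]; exact hm
  have hzp : 0 < zr C X := by
    have := (hb _ (key C hC hC' X hX 0 h0)).1.1
    simp only at this
    linarith
  refine ⟨?_, hzp, ?_⟩
  · rw [mem_interior]
    refine ⟨Metric.ball 0 (min ε 1), ?_, Metric.isOpen_ball, mem_ball_zero_iff.2 hX⟩
    intro Y hY
    rw [mem_ball_zero_iff] at hY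
    obtain ⟨⟨w1, w2⟩, w3, w4, -⟩ := hb _ (key C hC hC' Y hY 0 h0)
    exact ⟨w1.le, w2.le, w3.le, w4.le⟩
  · intro χ hχ
    obtain ⟨-, -, w4, w5⟩ := hb _ (key C hC hC' X hX χ hχ)
    have hk : 0 < zk C X := by
      have h5 : |zk C X - kh| < 1 / 20 := w4
      have := (abs_lt.1 h5).1
      linarith
    have hX0 : 0 < zX C X χ := by
      rw [(z_L hzp.ne' χ).2.2.2]
      exact mul_pos hk w5
    refine ⟨?_, hX0.ne'⟩
    rw [me_deriv hzp.ne']
    exact (mul_pos hC hX0).ne'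

end

end Pool.Agent.HS

namespace Pool.Agent.HS
open Set Filter Topology Classical
open scoped ContDiff

theorem m0_near : ∃ c : ℝ, 0 < c ∧ c ≤ 1 ∧ ∀ C, 0 < C → C < c → ∀ X : Pl, ‖X‖ < c →
    X ∈ interior (CD C) ∧ 0 < zr C X ∧ ∀ χ, |χ| < c →
    deriv (fun χ => kh' (z3 C X χ) - kh' (z2 C X χ)) χ ≠ 0 ∧ zX C X χ ≠ 0 :=
  @Pool.Agent.HS.m0_near_pr

end Pool.Agent.HS
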