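import Pool.Agent.Lib_helper60.HSF.D_WM0
import Pool.Agent.Lib_helper60.HSF.Z_ZC
import Pool.Agent.Lib_helper60.HSF.Z_ZA1

/-!
# Project HS, part S1-M0, block MF: covector of `L_P`
-/

namespace Pool.Agent.HS

noncomputable section

open Set Filter Topology Classical
open scoped ContDiff

/-- radicand of `zk` -/
def mf_rad (q : ℝ × Pl × ℝ) : ℝ :=
  2 / (ma * mb) * (E0 + 1 / zr q.1 q.2.1 - ((chart q.1 q.2.1).2 ^ 2 + q.1 ^ 2 / zr q.1 q.2.1 ^ 2) / 2)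

def mf_e (q : ℝ × Pl × ℝ) : ℝ := zE q.1 q.2.1 q.2.2

def mf_l (q : ℝ × Pl × ℝ) : ℝ := zr q.1 q.2.1 * zk q.1 q.2.1 * Real.sin q.2.2

theorem mf_zk (q : ℝ × Pl × ℝ) : zk q.1 q.2.1 = Real.sqrt (mf_rad q) := rfl

theorem mf_re (k χ a b : ℝ) :
    ((starRingEnd ℂ) ((k : ℂ) * Complex.exp ((χ : ℂ) * Complex.I)) *
      ((a : ℂ) + (b : ℂ) * Complex.I)).re = k * (a * Real.cos χ + b * Real.sin χ) := by
  rw [Complex.exp_mul_I, ← Complex.ofReal_cos, ← Complex.ofReal_sin]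
  simp [Complex.mul_re, Complex.mul_im, Complex.add_re, Complex.add_im, -Complex.ofReal_cos,
    -Complex.ofReal_sin]
  ring

theorem mf_nU (a b : ℝ) : ‖(a : ℂ) + (b : ℂ) * Complex.I‖ ^ 2 = a ^ 2 + b ^ 2 := by
  rw [Complex.sq_norm, Complex.normSq_apply]
  simp
  ring

theorem mf_zE (C : ℝ) (X : Pl) (χ : ℝ) : zE C X χ =
    zk C X * (zϖ X / rh * Real.cos χ + 1 / zr C X * Real.sin χ) +
      8 / 3 * (-(zρ X) / (cc * rh ^ 2 * zr C X) -
        C * ((zϖ X / rh) ^ 2 + (1 / zr C X) ^ 2) / 2) := by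
  unfold zE zw zU
  rw [mf_re, mf_nU]

theorem mf_pos : 0 < rh ∧ 0 < kh ∧ 0 < cc := by
  obtain ⟨-, -, h1, -, h2, -, h3, -⟩ := z_bounds
  refine ⟨by linarith, by linarith, by linarith⟩

theorem mf_rad0 (X : Pl) (χ : ℝ) : mf_rad (0, X, χ) = kh ^ 2 := by
  have h := E0_rh
  unfold mf_rad
  rw [zr_eq]
  simp only [chart]
  simp only [zero_mul, zero_div, add_zero]
  rw [show E0 + 1 / rh - ((0 : ℝ) ^ 2 + (0 : ℝ) ^ 2 / rh ^ 2) / 2 = E0 + 1 / rh by ring, h]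
  unfold ma mb
  ring

theorem mf_cc : 8 / 3 / (cc * rh ^ 2) = kh := by
  obtain ⟨h1, h2, h3⟩ := mf_pos
  have h := cc_eq
  unfold ma mb at h
  rw [div_eq_iff (by positivity)]
  linarith

/-- `e` at `C = 0` -/
theorem mf_e0 (X : Pl) (χ : ℝ) :
    mf_e (0, X, χ) = kh / rh * (zϖ X * Real.cos χ + Real.sin χ - zρ X) := by
  obtain ⟨h1, h2, h3⟩ := mf_pos
  have hk : zk 0 X = kh := by
    have := mf_zk (0, X, χ)
    rw [mf_rad0] at this
    rw [Real.sqrt_sq h2.le] at this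
    exact this
  have hr : zr 0 X = rh := by rw [zr_eq]; simp
  have hc := mf_cc
  unfold mf_e
  simp only
  rw [mf_zE, hk, hr]
  have : 8 / 3 * (-zρ X / (cc * rh ^ 2 * rh)) = -(8 / 3 / (cc * rh ^ 2)) * zρ X / rh := by
    field_simp
  rw [mul_sub, this, hc]
  field_simp
  ring

theorem mf_l0 (X : Pl) (χ : ℝ) : mf_l (0, X, χ) = rh * kh * Real.sin χ := by
  obtain ⟨h1, h2, h3⟩ := mf_pos
  have hk : zk 0 X = kh := by
    have := mf_zk (0, X, χ)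
    rw [mf_rad0] at this
    rw [Real.sqrt_sq h2.le] at this
    exact this
  have hr : zr 0 X = rh := by rw [zr_eq]; simp
  unfold mf_l
  simp only
  rw [hk, hr]

/-! ## Smoothness -/

theorem mf_zr_smooth : ContDiff ℝ ∞ (fun q : ℝ × Pl × ℝ => zr q.1 q.2.1) := by
  have : (fun q : ℝ × Pl × ℝ => zr q.1 q.2.1) =
      fun q : ℝ × Pl × ℝ => rh + q.1 * (1 / 2 + q.2.1.1) / (cc * rh) := by
    funext q; rw [zr_eq]; rfl
  rw [this]
  fun_prop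

theorem mf_zw_smooth : ContDiff ℝ ∞ (fun q : ℝ × Pl × ℝ => zϖ q.2.1) := by
  unfold zϖ
  fun_prop

theorem mf_zp_smooth : ContDiff ℝ ∞ (fun q : ℝ × Pl × ℝ => zρ q.2.1) := by
  unfold zρ
  fun_prop

theorem mf_ch_smooth : ContDiff ℝ ∞ (fun q : ℝ × Pl × ℝ => (chart q.1 q.2.1).2) := by
  unfold chart
  simp only
  fun_prop

/-- the good set -/
def mf_G : Set (ℝ × Pl × ℝ) := {q | 0 < zr q.1 q.2.1 ∧ 0 < mf_rad q}

theorem mf_rad_at {q : ℝ × Pl × ℝ} (h : 0 < zr q.1 q.2.1) : ContDiffAt ℝ ∞ mf_rad q := by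
  have h1 := mf_zr_smooth.contDiffAt (x := q)
  have h2 := mf_ch_smooth.contDiffAt (x := q)
  unfold mf_rad
  refine contDiffAt_const.mul ((contDiffAt_const.add (contDiffAt_const.div h1 h.ne')).sub ?_)
  refine ContDiffAt.div_const ?_ 2
  exact (h2.pow 2).add ((contDiffAt_fst.pow 2).div (h1.pow 2) (pow_ne_zero 2 h.ne'))

theorem mf_zk_at {q : ℝ × Pl × ℝ} (h : q ∈ mf_G) :
    ContDiffAt ℝ ∞ (fun q : ℝ × Pl × ℝ => zk q.1 q.2.1) q := by
  have h1 := mf_rad_at h.1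
  exact h1.sqrt h.2.ne'

theorem mf_e_at {q : ℝ × Pl × ℝ} (h : q ∈ mf_G) : ContDiffAt ℝ ∞ mf_e q := by
  obtain ⟨c1, c2, c3⟩ := mf_pos
  have h0 := mf_zk_at h
  have h1 := mf_zr_smooth.contDiffAt (x := q)
  have h2 := mf_zw_smooth.contDiffAt (x := q)
  have h3 := mf_zp_smooth.contDiffAt (x := q)
  have hχ : ContDiffAt ℝ ∞ (fun q : ℝ × Pl × ℝ => q.2.2) q := by fun_prop
  have hC : ContDiffAt ℝ ∞ (fun q : ℝ × Pl × ℝ => q.1) q := by fun_prop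
  have hz : zr q.1 q.2.1 ≠ 0 := h.1.ne'
  have : mf_e = fun q : ℝ × Pl × ℝ =>
      zk q.1 q.2.1 * (zϖ q.2.1 / rh * Real.cos q.2.2 + 1 / zr q.1 q.2.1 * Real.sin q.2.2) +
      8 / 3 * (-(zρ q.2.1) / (cc * rh ^ 2 * zr q.1 q.2.1) -
        q.1 * ((zϖ q.2.1 / rh) ^ 2 + (1 / zr q.1 q.2.1) ^ 2) / 2) := by
    funext q; unfold mf_e; rw [mf_zE]
  rw [this]
  refine (h0.mul (((h2.div_const rh).mul hχ.cos).add
    ((contDiffAt_const.div h1 hz).mul hχ.sin))).add (contDiffAt_const.mul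
    ((h3.neg.div (contDiffAt_const.mul h1) ?_).sub
      ((hC.mul (((h2.div_const rh).pow 2).add ((contDiffAt_const.div h1 hz).pow 2))).div_const 2)))
  have : 0 < cc * rh ^ 2 := by positivity
  exact mul_ne_zero this.ne' hz

theorem mf_l_at {q : ℝ × Pl × ℝ} (h : q ∈ mf_G) : ContDiffAt ℝ ∞ mf_l q := by
  have h0 := mf_zk_at h
  have h1 := mf_zr_smooth.contDiffAt (x := q)
  have hχ : ContDiffAt ℝ ∞ (fun q : ℝ × Pl × ℝ => q.2.2) q := by fun_prop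
  unfold mf_l
  exact (h1.mul h0).mul hχ.sin

theorem mf_G_nhds {q : ℝ × Pl × ℝ} (h : q ∈ mf_G) : ∀ᶠ q' in 𝓝 q, q' ∈ mf_G := by
  have h1 : ContinuousAt (fun q : ℝ × Pl × ℝ => zr q.1 q.2.1) q :=
    mf_zr_smooth.continuous.continuousAt
  have h2 : ContinuousAt mf_rad q := (mf_rad_at h.1).continuousAt
  exact (h1.eventually (lt_mem_nhds h.1)).and (h2.eventually (lt_mem_nhds h.2))

theorem mf_G0 : ((0 : ℝ), (0 : Pl), (0 : ℝ)) ∈ mf_G := by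
  obtain ⟨c1, c2, c3⟩ := mf_pos
  refine ⟨?_, ?_⟩
  · show 0 < zr 0 0
    rw [zr_eq]; simpa using c1
  · rw [mf_rad0]; positivity

/-! ## Energies -/

theorem mf_nw (C a b k χ m : ℝ) :
    ‖(C : ℂ) * ((a : ℂ) + (b : ℂ) * Complex.I) +
      (m : ℂ) * ((k : ℂ) * Complex.exp ((χ : ℂ) * Complex.I))‖ ^ 2 =
      C ^ 2 * (a ^ 2 + b ^ 2) + 2 * C * m * (k * (a * Real.cos χ + b * Real.sin χ)) +
        m ^ 2 * k ^ 2 := by
  rw [Complex.exp_mul_I, ← Complex.ofReal_cos, ← Complex.ofReal_sin, Complex.sq_norm,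
    Complex.normSq_apply]
  simp [Complex.mul_re, Complex.mul_im, Complex.add_re, Complex.add_im, -Complex.ofReal_cos,
    -Complex.ofReal_sin]
  have := Real.sin_sq_add_cos_sq χ
  linear_combination (m ^ 2 * k ^ 2) * this

theorem mf_en {C : ℝ} {X : Pl} {χ : ℝ} (h : (C, X, χ) ∈ mf_G) :
    kh' (z3 C X χ) - kh' (z2 C X χ) = d0 + C * zE C X χ := by
  obtain ⟨c1, c2, c3⟩ := mf_pos
  obtain ⟨hr, hrad⟩ := h
  simp only at hr
  have hk : zk C X ^ 2 = mf_rad (C, X, χ) := by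
    have := mf_zk (C, X, χ)
    simp only at this
    rw [this, Real.sq_sqrt hrad.le]
  have e3 : ‖(z3 C X χ).2‖ ^ 2 = C ^ 2 * ((zϖ X / rh) ^ 2 + (1 / zr C X) ^ 2) +
      2 * C * mb * (zk C X * (zϖ X / rh * Real.cos χ + 1 / zr C X * Real.sin χ)) +
        mb ^ 2 * zk C X ^ 2 := by
    unfold z3 zU zw
    exact mf_nw _ _ _ _ _ _
  have e2 : ‖(z2 C X χ).2‖ ^ 2 = C ^ 2 * ((zϖ X / rh) ^ 2 + (1 / zr C X) ^ 2) +
      2 * C * (-ma) * (zk C X * (zϖ X / rh * Real.cos χ + 1 / zr C X * Real.sin χ)) +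
        (-ma) ^ 2 * zk C X ^ 2 := by
    have := mf_nw C (zϖ X / rh) (1 / zr C X) (zk C X) χ (-ma)
    unfold z2 zU zw
    rw [← this]
    congr 2
    push_cast
    ring
  have e4 : ‖(z3 C X χ).1‖ = ‖(z2 C X χ).1‖ := rfl
  unfold kh'
  rw [e3, e2, e4, mf_zE, hk]
  have hE := E0_rh
  have hkh := kh_sq
  have hd : d0 = 8 / 3 * (E0 + 1 / rh) := by
    rw [hE, hkh]; unfold ma mb; ring
  have hz : zr C X = rh + C * zρ X / (cc * rh) := zr_eq C X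
  have h5 : 1 / zr C X - 1 / rh = -(C * zρ X) / (cc * rh ^ 2 * zr C X) := by
    have : zr C X - rh = C * zρ X / (cc * rh) := by rw [hz]; ring
    rw [div_sub_div _ _ hr.ne' c1.ne', show 1 * rh - zr C X * 1 = -(zr C X - rh) by ring, this]
    field_simp
  have h6 : (chart C X).2 = C * zϖ X / rh := rfl
  have h7 : mf_rad (C, X, χ) = 32 / 3 * (E0 + 1 / zr C X -
      C ^ 2 * ((zϖ X / rh) ^ 2 + (1 / zr C X) ^ 2) / 2) := by
    unfold mf_rad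
    simp only
    rw [h6]
    unfold ma mb
    field_simp
    ring
  rw [h7, hd]
  have h8 : C * (-zρ X / (cc * rh ^ 2 * zr C X)) = 1 / zr C X - 1 / rh := by
    rw [h5]; ring
  unfold ma mb
  linear_combination (-(8 : ℝ) / 3) * h8

/-! ## Angular momenta -/

/-- coefficient of `λ` in `L_P` -/
def mf_c (i : Fin 2) : ℝ := if i = 0 then mb else -ma

theorem mf_c_ne (i : Fin 2) : mf_c i ≠ 0 := by
  unfold mf_c ma mb
  split_ifs <;> norm_num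

theorem mf_LP {C : ℝ} {X : Pl} {χ : ℝ} (h : (C, X, χ) ∈ mf_G) (i : Fin 2) :
    LP C i X χ = C + mf_c i * mf_l (C, X, χ) := by
  obtain ⟨h3, h2, -, -⟩ := z_L (h.1.ne' : zr C X ≠ 0) χ
  unfold LP mf_c mf_l
  simp only
  split_ifs
  · rw [h3]; ring
  · rw [h2]; ring

/-! ## Derivatives at the origin -/

theorem mf_dir {f : ℝ × Pl × ℝ → ℝ} (hf : DifferentiableAt ℝ f 0) (w : ℝ × Pl × ℝ) {d : ℝ}
    (h : HasDerivAt (fun t : ℝ => f (t • w)) d 0) : fderiv ℝ f 0 w = d := by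
  have h1 : HasDerivAt (fun t : ℝ => t • w) w 0 := by
    simpa using (hasDerivAt_id (0 : ℝ)).smul_const w
  have h2 : HasFDerivAt f (fderiv ℝ f 0) ((0 : ℝ) • w) := by
    rw [zero_smul]; exact hf.hasFDerivAt
  have h3 := h2.comp_hasDerivAt (0 : ℝ) h1
  exact h3.unique h

theorem mf_zero_eq : (0 : ℝ × Pl × ℝ) = ((0 : ℝ), (0 : Pl), (0 : ℝ)) := rfl

theorem mf_de (v : Pl) (s : ℝ) :
    fderiv ℝ mf_e 0 (0, v, s) = kh / rh * (2 * v.1 + v.2 + s - v.1) := by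
  refine mf_dir ((mf_e_at mf_G0).differentiableAt (by simp)) _ ?_
  have : (fun t : ℝ => mf_e (t • ((0 : ℝ), v, s))) = fun t : ℝ =>
      kh / rh * ((1 / 2 + 2 * (t * v.1) + t * v.2) * Real.cos (t * s) + Real.sin (t * s) -
        (1 / 2 + t * v.1)) := by
    funext t
    have : t • ((0 : ℝ), v, s) = (0, t • v, t * s) := by
      ext <;> simp
    rw [this, mf_e0]
    unfold zϖ zρ
    simp
  rw [this]
  have ha : HasDerivAt (fun t : ℝ => t * s) s 0 := by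
    simpa using (hasDerivAt_id (0 : ℝ)).mul_const s
  have hb : HasDerivAt (fun t : ℝ => t * v.1) v.1 0 := by
    simpa using (hasDerivAt_id (0 : ℝ)).mul_const v.1
  have hc : HasDerivAt (fun t : ℝ => t * v.2) v.2 0 := by
    simpa using (hasDerivAt_id (0 : ℝ)).mul_const v.2
  have h1 := ((((hasDerivAt_const (0 : ℝ) (1 / 2 : ℝ)).add (hb.const_mul 2)).add hc).mul
    ha.cos).add ha.sin
  have h2 := (h1.sub ((hasDerivAt_const (0 : ℝ) (1 / 2 : ℝ)).add hb)).const_mul (kh / rh)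
  refine h2.congr_deriv ?_
  simp

theorem mf_dl (v : Pl) (s : ℝ) : fderiv ℝ mf_l 0 (0, v, s) = rh * kh * s := by
  refine mf_dir ((mf_l_at mf_G0).differentiableAt (by simp)) _ ?_
  have : (fun t : ℝ => mf_l (t • ((0 : ℝ), v, s))) = fun t : ℝ =>
      rh * kh * Real.sin (t * s) := by
    funext t
    have : t • ((0 : ℝ), v, s) = (0, t • v, t * s) := by
      ext <;> simp
    rw [this, mf_l0]
  rw [this]
  have ha : HasDerivAt (fun t : ℝ => t * s) s 0 := by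
    simpa using (hasDerivAt_id (0 : ℝ)).mul_const s
  refine (ha.sin.const_mul (rh * kh)).congr_deriv ?_
  simp

/-- the bracket -/
def mf_b (q : ℝ × Pl × ℝ) (v : Pl) : ℝ :=
  fderiv ℝ mf_l q (0, v, 0) * fderiv ℝ mf_e q (0, 0, 1) -
    fderiv ℝ mf_l q (0, 0, 1) * fderiv ℝ mf_e q (0, v, 0)

theorem mf_b_cont (v : Pl) : ContinuousAt (fun q => mf_b q v) 0 := by
  have h1 : ContinuousAt (fderiv ℝ mf_e) 0 :=
    ((mf_e_at mf_G0).fderiv_right (m := 0) (by simp)).continuousAt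
  have h2 : ContinuousAt (fderiv ℝ mf_l) 0 :=
    ((mf_l_at mf_G0).fderiv_right (m := 0) (by simp)).continuousAt
  unfold mf_b
  have k1 : ∀ w : ℝ × Pl × ℝ, ContinuousAt (fun q => fderiv ℝ mf_e q w) 0 := fun w =>
    h1.clm_apply continuousAt_const
  have k2 : ∀ w : ℝ × Pl × ℝ, ContinuousAt (fun q => fderiv ℝ mf_l q w) 0 := fun w =>
    h2.clm_apply continuousAt_const
  exact ((k2 _).mul (k1 _)).sub ((k2 _).mul (k1 _))

theorem mf_b0 (v : Pl) : mf_b 0 v = -(kh ^ 2) * (v.1 + v.2) := by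
  obtain ⟨c1, c2, c3⟩ := mf_pos
  unfold mf_b
  rw [mf_dl, mf_dl, mf_de, mf_de]
  simp only [Prod.fst_zero, Prod.snd_zero]
  field_simp
  ring

theorem mf_b_lin (q : ℝ × Pl × ℝ) (m : ℝ) :
    mf_b q (1, m) = mf_b q (1, 0) + m * mf_b q (0, 1) := by
  have : ((0 : ℝ), ((1, m) : Pl), (0 : ℝ)) = (0, ((1, 0) : Pl), 0) + m • (0, ((0, 1) : Pl), 0) := by
    ext <;> simp
  unfold mf_b
  rw [this, map_add, map_smul, map_add, map_smul]
  simp only [smul_eq_mul]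
  ring

theorem mf_good : ∀ᶠ q : ℝ × Pl × ℝ in 𝓝 0, q ∈ mf_G ∧ ∀ m : ℝ, 0 ≤ m → mf_b q (1, m) ≠ 0 := by
  obtain ⟨c1, c2, c3⟩ := mf_pos
  have h1 : ∀ᶠ q : ℝ × Pl × ℝ in 𝓝 0, mf_b q (1, 0) < 0 := by
    refine (mf_b_cont (1, 0)).eventually (gt_mem_nhds ?_)
    show mf_b 0 (1, 0) < 0
    rw [mf_b0]; simp; positivity
  have h2 : ∀ᶠ q : ℝ × Pl × ℝ in 𝓝 0, mf_b q (0, 1) < 0 := by
    refine (mf_b_cont (0, 1)).eventually (gt_mem_nhds ?_)
    show mf_b 0 (0, 1) < 0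
    rw [mf_b0]; simp; positivity
  filter_upwards [h1, h2, mf_G_nhds mf_G0] with q a b c
  refine ⟨c, fun m hm => ?_⟩
  rw [mf_b_lin]
  have : m * mf_b q (0, 1) ≤ 0 := mul_nonpos_of_nonneg_of_nonpos hm b.le
  linarith

theorem m0_dl_pr : ∃ c : ℝ, 0 < c ∧ c ≤ 1 ∧ ∀ C, 0 < C → C < c → ∀ X : Pl, ‖X‖ < c →
    ∀ χ : Pl → ℝ, |χ X| < c → DifferentiableAt ℝ χ X →
    (∀ᶠ Y in 𝓝 X, kh' (z3 C Y (χ Y)) - kh' (z2 C Y (χ Y)) = d0) →
    ∀ i, ∃ A : Pl →L[ℝ] ℝ, HasFDerivAt (fun Y => LP C i Y (χ Y)) A X ∧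
      ∀ m ∈ Icc (slo 0) (shi 0), A (1, m) ≠ 0 := by
  obtain ⟨ε, hε, hball⟩ := Metric.eventually_nhds_iff_ball.1 mf_good
  refine ⟨min ε 1, lt_min hε one_pos, min_le_right _ _, ?_⟩
  intro C hC hCc X hX χ hχ hd hen i
  have hq : ((C, X, χ X) : ℝ × Pl × ℝ) ∈ Metric.ball 0 ε := by
    rw [mem_ball_zero_iff, Prod.norm_def, Prod.norm_def]
    refine max_lt ?_ (max_lt ?_ ?_)
    · show ‖C‖ < ε
      rw [Real.norm_eq_abs, abs_of_pos hC]
      exact lt_of_lt_of_le hCc (min_le_left _ _)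
    · exact lt_of_lt_of_le hX (min_le_left _ _)
    · show ‖χ X‖ < ε
      rw [Real.norm_eq_abs]
      exact lt_of_lt_of_le hχ (min_le_left _ _)
  obtain ⟨hG, hb⟩ := hball _ hq
  -- the curve
  have hcur : HasFDerivAt (fun Y : Pl => ((C, Y, χ Y) : ℝ × Pl × ℝ))
      ((0 : Pl →L[ℝ] ℝ).prod ((ContinuousLinearMap.id ℝ Pl).prod (fderiv ℝ χ X))) X :=
    (hasFDerivAt_const C X).prodMk ((hasFDerivAt_id X).prodMk hd.hasFDerivAt)
  have hev : ∀ᶠ Y in 𝓝 X, ((C, Y, χ Y) : ℝ × Pl × ℝ) ∈ mf_G :=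
    hcur.continuousAt.eventually (mf_G_nhds hG)
  have he : HasFDerivAt (fun Y : Pl => mf_e (C, Y, χ Y))
      ((fderiv ℝ mf_e (C, X, χ X)).comp
        ((0 : Pl →L[ℝ] ℝ).prod ((ContinuousLinearMap.id ℝ Pl).prod (fderiv ℝ χ X)))) X :=
    HasFDerivAt.comp (g := mf_e) X
      (((mf_e_at hG).differentiableAt (by simp)).hasFDerivAt) hcur
  have hl : HasFDerivAt (fun Y : Pl => mf_l (C, Y, χ Y))
      ((fderiv ℝ mf_l (C, X, χ X)).comp
        ((0 : Pl →L[ℝ] ℝ).prod ((ContinuousLinearMap.id ℝ Pl).prod (fderiv ℝ χ X)))) X :=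
    HasFDerivAt.comp (g := mf_l) X
      (((mf_l_at hG).differentiableAt (by simp)).hasFDerivAt) hcur
  have he0 : (fderiv ℝ mf_e (C, X, χ X)).comp
        ((0 : Pl →L[ℝ] ℝ).prod ((ContinuousLinearMap.id ℝ Pl).prod (fderiv ℝ χ X))) = 0 := by
    refine he.unique ?_
    have hz : HasFDerivAt (fun _ : Pl => (0 : ℝ)) (0 : Pl →L[ℝ] ℝ) X := hasFDerivAt_const 0 X
    refine hz.congr_of_eventuallyEq ?_
    filter_upwards [hev, hen] with Y h1 h2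
    have h3 := mf_en h1
    rw [h2] at h3
    have : C * zE C Y (χ Y) = 0 := by linarith
    exact (mul_eq_zero.1 this).resolve_left hC.ne'
  refine ⟨mf_c i • ((fderiv ℝ mf_l (C, X, χ X)).comp
        ((0 : Pl →L[ℝ] ℝ).prod ((ContinuousLinearMap.id ℝ Pl).prod (fderiv ℝ χ X)))), ?_, ?_⟩
  · have h1 : HasFDerivAt (fun Y : Pl => C + mf_c i * mf_l (C, Y, χ Y))
        (mf_c i • ((fderiv ℝ mf_l (C, X, χ X)).comp
        ((0 : Pl →L[ℝ] ℝ).prod ((ContinuousLinearMap.id ℝ Pl).prod (fderiv ℝ χ X))))) X := by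
      exact (hl.const_mul (mf_c i)).const_add C
    refine h1.congr_of_eventuallyEq ?_
    filter_upwards [hev] with Y h2
    exact mf_LP h2 i
  · intro m hm h0
    have hm0 : 0 ≤ m := by
      have := hm.1
      unfold slo at this
      simp at this
      linarith
    have hb' := hb m hm0
    have h1 : mf_c i * fderiv ℝ mf_l (C, X, χ X) (0, ((1, m) : Pl), fderiv ℝ χ X (1, m)) = 0 := h0
    have h2 : fderiv ℝ mf_l (C, X, χ X) (0, ((1, m) : Pl), fderiv ℝ χ X (1, m)) = 0 :=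
      (mul_eq_zero.1 h1).resolve_left (mf_c_ne i)
    have h3 : fderiv ℝ mf_e (C, X, χ X) (0, ((1, m) : Pl), fderiv ℝ χ X (1, m)) = 0 := by
      have := congrArg (fun L : Pl →L[ℝ] ℝ => L (1, m)) he0
      exact this
    have hs : ∀ s : ℝ, ((0 : ℝ), ((1, m) : Pl), s) = (0, ((1, m) : Pl), 0) + s • (0, (0 : Pl), 1) := by
      intro s
      ext <;> simp
    rw [hs, map_add, map_smul, smul_eq_mul] at h2 h3
    apply hb'
    unfold mf_b
    linear_combination (fderiv ℝ mf_e (C, X, χ X) (0, 0, 1)) * h2 -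
      (fderiv ℝ mf_l (C, X, χ X) (0, 0, 1)) * h3

end

end Pool.Agent.HS

namespace Pool.Agent.HS
open Set Filter Topology Classical
open scoped ContDiff

theorem m0_dl : ∃ c : ℝ, 0 < c ∧ c ≤ 1 ∧ ∀ C, 0 < C → C < c → ∀ X : Pl, ‖X‖ < c →
    ∀ χ : Pl → ℝ, |χ X| < c → DifferentiableAt ℝ χ X →
    (∀ᶠ Y in 𝓝 X, kh' (z3 C Y (χ Y)) - kh' (z2 C Y (χ Y)) = d0) →
    ∀ i, ∃ A : Pl →L[ℝ] ℝ, HasFDerivAt (fun Y => LP C i Y (χ Y)) A X ∧
      ∀ m ∈ Icc (slo 0) (shi 0), A (1, m) ≠ 0 :=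
  @Pool.Agent.HS.m0_dl_pr

end Pool.Agent.HS
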