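import Pool.Agent.Lib_helper60.HSF.D_WM0
import Pool.Agent.Lib_helper60.HSF.K_KA1
import Pool.Agent.Lib_helper60.HSF.K_KF1
import Pool.Agent.Lib_helper60.HSF.Z_ZA1
import Pool.Agent.Lib_helper60.HSF.K_KL2
import Pool.Agent.Lib_helper60.HSF.K_KC2
import Pool.Agent.Lib_helper60.HSF.N_MA
import Pool.Agent.Lib_helper60.HSF.K_KD2
import Pool.Agent.Lib_helper60.HSF.K_KB2
import Pool.Agent.Lib_helper60.HSF.K_KL1

/-!
# HS part S1-M0, block MG: no collision on the base arc with `L_P = 0`
-/

namespace Pool.Agent.HS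

noncomputable section

open Set Filter Topology Classical
open scoped ContDiff

/-- a rectilinear orbit on the positive real axis -/
theorem mg_rad {P : KS} {r : ℝ} (hr : 0 < r) (h1 : P.1 = (r : ℂ)) (hL : kL P = 0)
    (hh : kh' P < 0) (s : ℝ) : kX P s = ((kR P s : ℝ) : ℂ) := by
  have hkr : kr P = r := by
    unfold kr
    rw [h1, Complex.norm_real, Real.norm_of_nonneg hr.le]
  have him : P.2.im = 0 := by
    unfold kL at hL
    rw [h1, Complex.conj_ofReal, Complex.im_ofReal_mul] at hL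
    exact (mul_eq_zero.mp hL).resolve_left hr.ne'
  have h2 : P.2 = ((P.2.re : ℝ) : ℂ) := Complex.ext (by simp) (by simpa using him)
  have hσ : kσ P = r * P.2.re := by
    unfold kσ
    rw [h1, Complex.conj_ofReal, Complex.re_ofReal_mul]
  have hA := kA_pos hh
  have hv := norm_v_sq hh
  rw [hkr, h2, Complex.norm_real, Real.norm_eq_abs, sq_abs] at hv
  set v : ℝ := P.2.re with hvd
  set A : ℝ := kA P with hAd
  have hv2 : A * r * v ^ 2 = 2 * A - r := by
    rw [hv]
    field_simp
  unfold kX kR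
  rw [← hAd, hkr, hσ, h1, h2, ← Complex.ofReal_mul, ← Complex.ofReal_mul, ← Complex.ofReal_add]
  congr 1
  have h3 : A / r * r = A := by field_simp
  calc (1 - A / r * (1 - Real.cos s)) * r +
        (Real.sqrt A * r * Real.sin s + A * (r * v) * (1 - Real.cos s)) * v
      = r - (A / r * r) * (1 - Real.cos s) + Real.sqrt A * (r * v) * Real.sin s +
        (A * r * v ^ 2) * (1 - Real.cos s) := by ring
    _ = A + (r - A) * Real.cos s + Real.sqrt A * (r * v) * Real.sin s := by
        rw [h3, hv2]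
        ring

theorem mg_kT0 (y : KS) : kT y 0 = 0 := by
  unfold kT
  simp

/-- the common point is the starting point, and the time is a multiple of the period -/
theorem mg_core {P Q : KS} {r : ℝ} (hr : 0 < r) (hP : P.1 = (r : ℂ)) (hQ : Q.1 = (r : ℂ))
    (hL : kL P = 0) (hPh : kh' P < 0) (hQe : Ell Q) {s : ℝ}
    (h : kX P s = (kep (kT P s) Q).1) : kR P s = r ∧ ∃ n : ℤ, kT P s = kPer Q * n := by
  have hP0 : P.1 ≠ 0 := by
    rw [hP]
    exact_mod_cast hr.ne'
  have hQ0 : Q.1 ≠ 0 := by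
    rw [hQ]
    exact_mod_cast hr.ne'
  have hR := kR_nonneg hPh hP0 s
  have hx := mg_rad hr hP hL hPh s
  have h2 : kX Q (kS Q (kT P s)) = ((kR P s : ℝ) : ℂ) := by
    rw [← hx, h]
    rfl
  have h3 : kX Q 0 = (r : ℂ) := by
    have := congrArg Prod.fst (kY_zero hQe)
    rw [hQ] at this
    exact this
  have c1 := conic hQe (kS Q (kT P s))
  have c2 := conic hQe 0
  rw [h2, Complex.norm_real, Real.norm_of_nonneg hR, Complex.re_mul_ofReal] at c1
  rw [h3, Complex.norm_real, Real.norm_of_nonneg hr.le, Complex.re_mul_ofReal] at c2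
  have hL2 : 0 < kL Q ^ 2 := by
    have := hQe.2
    positivity
  have hne : 1 + ((starRingEnd ℂ) (kE Q)).re ≠ 0 := by
    intro h0
    have h4 : r * (1 + ((starRingEnd ℂ) (kE Q)).re) = kL Q ^ 2 := by rw [← c2]; ring
    rw [h0, mul_zero] at h4
    exact hL2.ne h4
  have hRr : kR P s = r := by
    have h4 : kR P s * (1 + ((starRingEnd ℂ) (kE Q)).re) =
        r * (1 + ((starRingEnd ℂ) (kE Q)).re) := by linarith
    exact mul_right_cancel₀ hne h4
  refine ⟨hRr, ?_⟩
  rw [hRr] at h2
  obtain ⟨n, hn⟩ := kX_inj hQe (h3.trans h2.symm)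
  refine ⟨n, ?_⟩
  have h5 := kT_kS hQe.1 hQ0 (kT P s)
  rw [hn, kT_per, mg_kT0, zero_add] at h5
  exact h5.symm

/-- body 3 on its rectilinear orbit does not return to the starting point at half of the period -/
theorem mg_half {P : KS} {r : ℝ} (hr : 1 < r ∧ r < 5 / 4) (hP : P.1 = (r : ℂ))
    (hL : kL P = 0) (hPh : kh' P < 0) (hA : kA P = 1) (hσ : 0 < kσ P) {s : ℝ} (hs : 0 < s)
    (hs2 : s < 2 * Real.pi) (hR : kR P s = r) : kT P s ≠ Real.pi := by
  intro hT
  obtain ⟨hr1, hr2⟩ := hr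
  have hkr : kr P = r := by
    unfold kr
    rw [hP, Complex.norm_real, Real.norm_of_nonneg (by linarith)]
  have hP0 : P.1 ≠ 0 := by
    rw [hP]
    exact_mod_cast (by linarith : r ≠ 0)
  have hamp := k_amp hPh hP0
  rw [hkr, hA, hL] at hamp
  have hσ2 : kσ P ^ 2 = 1 - (1 - r) ^ 2 := by linarith
  set E : ℝ := Real.arccos (1 - r) with hE
  have hcE : Real.cos E = 1 - r := Real.cos_arccos (by linarith) (by linarith)
  have hsE : Real.sin E = kσ P := by
    rw [hE, Real.sin_arccos, ← hσ2, Real.sqrt_sq hσ.le]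
  have hE0 : 0 ≤ E := Real.arccos_nonneg _
  have hEπ : E ≤ Real.pi := Real.arccos_le_pi _
  have hpi := Real.pi_pos
  have hE1 : 0 < E := by
    rcases hE0.lt_or_eq with h | h
    · exact h
    · rw [← h, Real.sin_zero] at hsE
      exact absurd hsE hσ.ne
  have hE2 : E < Real.pi := by
    rcases hEπ.lt_or_eq with h | h
    · exact h
    · rw [h, Real.sin_pi] at hsE
      exact absurd hsE hσ.ne
  -- the distance
  unfold kR at hR
  rw [hA, hkr, Real.sqrt_one, ← hsE] at hR
  have hcos : Real.cos (E + s) = Real.cos E := by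
    rw [Real.cos_add, hcE]
    linarith
  obtain ⟨k, hk⟩ := Real.cos_eq_cos_iff.mp hcos.symm
  have hs3 : s = 2 * Real.pi - 2 * E := by
    rcases hk with hk | hk
    · exfalso
      have h1 : s = 2 * (k : ℝ) * Real.pi := by linarith
      have h2 : (0 : ℝ) < k := by
        by_contra h3
        push Not at h3
        nlinarith
      have h3 : (k : ℝ) < 1 := by
        by_contra h4
        push Not at h4
        nlinarith
      have h4 : 0 < k := by exact_mod_cast h2
      have h5 : k < 1 := by exact_mod_cast h3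
      omega
    · have h1 : s = 2 * (k : ℝ) * Real.pi - 2 * E := by linarith
      have h2 : (0 : ℝ) < k := by
        by_contra h3
        push Not at h3
        nlinarith
      have h3 : (k : ℝ) < 2 := by
        by_contra h4
        push Not at h4
        nlinarith
      have h4 : 0 < k := by exact_mod_cast h2
      have h5 : k < 2 := by exact_mod_cast h3
      have h6 : k = 1 := by omega
      rw [h1, h6]
      push_cast
      ring
  -- the time
  have hsin : Real.sin (E + s) = -Real.sin E := by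
    rw [hs3]
    have : E + (2 * Real.pi - 2 * E) = -E + 2 * Real.pi := by ring
    rw [this, Real.sin_add_two_pi, Real.sin_neg]
  unfold kT at hT
  rw [hA, hkr, Real.sqrt_one, ← hsE] at hT
  have hT2 : s + Real.sin E - Real.sin (E + s) = Real.pi := by
    rw [Real.sin_add, hcE]
    linarith
  rw [hsin, hs3] at hT2
  have hEE : E = Real.pi / 2 + Real.sin E := by linarith
  -- contradiction
  have hy0 : 0 < Real.sin E := by rw [hsE]; exact hσ
  have hy1 : Real.sin E ≤ 1 := Real.sin_le_one E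
  have hy2 : 9 / 10 < Real.sin E := by
    have h1 : Real.sin E ^ 2 = 1 - (1 - r) ^ 2 := by rw [hsE]; exact hσ2
    nlinarith
  have hc2 : Real.cos E = -Real.sin (Real.sin E) := by
    have h1 : Real.cos E = Real.cos (Real.sin E + Real.pi / 2) := by
      congr 1
      linarith
    rw [h1, Real.cos_add_pi_div_two]
  have hjo : 2 / Real.pi * Real.sin E ≤ Real.sin (Real.sin E) :=
    Real.mul_le_sin hy0.le (by linarith [Real.pi_gt_three])
  have hpi4 : Real.pi < 3.2 := by linarith [Real.pi_lt_d2]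
  have h1 : 1 / 2 < 2 / Real.pi * Real.sin E := by
    rw [div_mul_eq_mul_div, div_lt_div_iff₀ (by norm_num) hpi]
    linarith
  rw [hcE] at hc2
  linarith

/-- no collision on the base arc -/
theorem m0_free_pr {C : ℝ} (hC : 0 < C ∧ C ≤ 1) {i : Fin 2} {X : Pl} {χ : ℝ}
    (h : M0D C i X χ) :
    ∀ τ ∈ Ioo 0 (T0 C i X χ 1 2), lcX (Zd i (limD C X χ) τ) ≠ 0 := by
  intro τ hτ h0
  obtain ⟨hr1, hr2⟩ := h.r
  have hr : 0 < zr C X := by linarith
  have h30 : h30 < 0 := by
    unfold h30
    norm_num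
  have h20 : h20 < 0 := by
    unfold h20
    have := Real.rpow_pos_of_pos (show (0 : ℝ) < 2 by norm_num) (-(1 / 3))
    linarith
  have e3 : kh' (z3 C X χ) < 0 := by rw [h.h3]; exact h30
  have e2 : kh' (z2 C X χ) < 0 := by rw [h.h2]; exact h20
  have f3 : (z3 C X χ).1 = (zr C X : ℂ) := rfl
  have f2 : (z2 C X χ).1 = (zr C X : ℂ) := rfl
  have n3 : (z3 C X χ).1 ≠ 0 := by
    rw [f3]
    exact_mod_cast hr.ne'
  have n2 : (z2 C X χ).1 ≠ 0 := by
    rw [f2]
    exact_mod_cast hr.ne'
  obtain ⟨zp3, zp2⟩ := z_p C X χ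
  obtain ⟨A3, P3⟩ := m0_per3 h.h3
  obtain ⟨A2, P2⟩ := m0_per2 h.h2
  have hpi := Real.pi_pos
  have hLP := h.P
  have hLQ := h.Q
  unfold LP at hLP
  unfold LQ at hLQ
  obtain ⟨τ0, τ1⟩ := hτ
  unfold T0 at τ1
  unfold Zd at h0
  by_cases hi : i = 0
  · subst hi
    simp only [if_true] at hLP hLQ τ1
    have hP : pP 0 (colD (limD C X χ)) = z3 C X χ := by
      unfold pP
      rw [if_pos rfl, zp3]
    have hQ : pQ 0 (colD (limD C X χ)) = z2 C X χ := by
      unfold pQ
      rw [if_pos rfl, zp2]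
    rw [lc_xi 0 (by rw [hP]; exact e3) (by rw [hP]; exact n3) (by rw [hQ]; exact ⟨e2, hLQ⟩),
      hP, hQ, sub_eq_zero] at h0
    rw [(lz_w 0 (by rw [hP]; exact e3) (by rw [hP]; exact n3)).1, hP] at τ1
    rw [A3, Real.sqrt_one] at h0 τ1
    rw [div_one] at h0
    have τ2 : τ < 2 * Real.pi := by
      have h1 : Real.pi / (1 / (2 * 1)) = 2 * Real.pi := by ring
      rw [h1] at τ1
      simpa using τ1
    obtain ⟨hR, m, hm⟩ := mg_core hr f3 f2 hLP e3 ⟨e2, hLQ⟩ h0
    have hmono := kT_strictMono' e3 n3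
    have k0 := hmono τ0
    have k1 := hmono τ2
    have k2 := kT_per (z3 C X χ) 0 1
    rw [Int.cast_one, mul_one, mul_one, zero_add, mg_kT0, zero_add, P3] at k2
    rw [k2] at k1
    rw [mg_kT0] at k0
    rw [P2] at hm
    have m1 : m = 1 := by
      have h2 : (0 : ℝ) < m := by
        by_contra h3
        push Not at h3
        nlinarith
      have h3 : (m : ℝ) < 2 := by
        by_contra h4
        push Not at h4
        nlinarith
      have h4 : 0 < m := by exact_mod_cast h2
      have h5 : m < 2 := by exact_mod_cast h3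
      omega
    rw [m1, Int.cast_one, mul_one] at hm
    exact mg_half h.r f3 hLP e3 A3 h.s3 τ0 τ2 hR hm
  · have hi1 : i = 1 := by omega
    subst hi1
    simp only [if_neg hi] at hLP hLQ τ1
    have hP : pP 1 (colD (limD C X χ)) = z2 C X χ := by
      unfold pP
      rw [if_neg hi, zp2]
    have hQ : pQ 1 (colD (limD C X χ)) = z3 C X χ := by
      unfold pQ
      rw [if_neg hi, zp3]
    rw [lc_xi 1 (by rw [hP]; exact e2) (by rw [hP]; exact n2) (by rw [hQ]; exact ⟨e3, hLQ⟩),
      hP, hQ, sub_eq_zero] at h0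
    rw [(lz_w 1 (by rw [hP]; exact e2) (by rw [hP]; exact n2)).1, hP] at τ1
    have hsq : 0 < Real.sqrt (kA (z2 C X χ)) := Real.sqrt_pos.mpr A2
    have τ2 : τ / Real.sqrt (kA (z2 C X χ)) < 0 + 2 * Real.pi * ((2 : ℤ) : ℝ) := by
      rw [div_lt_iff₀ hsq]
      have h1 : ((2 : ℕ) : ℝ) * (Real.pi / (1 / (2 * Real.sqrt (kA (z2 C X χ))))) =
          (0 + 2 * Real.pi * ((2 : ℤ) : ℝ)) * Real.sqrt (kA (z2 C X χ)) := by
        push_cast
        field_simp
        ring
      rw [← h1]
      exact τ1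
    obtain ⟨-, m, hm⟩ := mg_core hr f2 f3 hLP e2 ⟨e3, hLQ⟩ h0
    have hmono := kT_strictMono' e2 n2
    have k0 := hmono (div_pos τ0 hsq)
    have k1 := hmono τ2
    rw [kT_per, mg_kT0, P2, zero_add] at k1
    rw [mg_kT0] at k0
    rw [P3] at hm
    rw [hm] at k0 k1
    push_cast at k1
    have h2 : (0 : ℝ) < m := by
      by_contra h3
      push Not at h3
      nlinarith
    have h3 : (m : ℝ) < 1 := by
      by_contra h4
      push Not at h4
      nlinarith
    have h4 : 0 < m := by exact_mod_cast h2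
    have h5 : m < 1 := by exact_mod_cast h3
    omega

end

end Pool.Agent.HS

namespace Pool.Agent.HS
open Set Filter Topology Classical
open scoped ContDiff

theorem m0_free {C : ℝ} (hC : 0 < C ∧ C ≤ 1) {i : Fin 2} {X : Pl} {χ : ℝ} (h : M0D C i X χ) :
    ∀ τ ∈ Ioo 0 (T0 C i X χ 1 2), lcX (Zd i (limD C X χ) τ) ≠ 0 :=
  @Pool.Agent.HS.m0_free_pr C hC i X χ h

end Pool.Agent.HS
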