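import Pool.Agent.Lib_helper60.HSF.D_WM0
import Pool.Agent.Lib_helper60.HSF.K_KL1
import Pool.Agent.Lib_helper60.HSF.K_KA1
import Pool.Agent.Lib_helper60.HSF.Z_ZC
import Pool.Agent.Lib_helper60.HSF.Z_ZA1

/-!
# Project HS, part S1-M0, block MH: sun collisions (helper75)
-/

namespace Pool.Agent.HS

noncomputable section

open Set Filter Topology Classical
open scoped ContDiff

/-- phase form of the distance on a rectilinear orbit -/
theorem mh_phase {A r σ : ℝ} (hA : 0 < A) (hσ : σ ≠ 0) (h : (r - A) ^ 2 + A * σ ^ 2 = A ^ 2) :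
    ∃ s1 : ℝ, 0 < s1 ∧ s1 < 2 * Real.pi ∧
      ∀ s, A + (r - A) * Real.cos s + Real.sqrt A * σ * Real.sin s =
        A * (1 - Real.cos (s - s1)) := by
  have hpi := Real.pi_pos
  have hσ2 : 0 < A * σ ^ 2 := by positivity
  set c : ℝ := (A - r) / A with hc
  have hcA : A * c = A - r := by rw [hc]; field_simp
  have hc2 : A ^ 2 * (1 - c ^ 2) = A * σ ^ 2 := by
    have : A ^ 2 * c ^ 2 = (A - r) ^ 2 := by rw [← hcA]; ring
    nlinarith
  have hc1 : c ^ 2 < 1 := by
    by_contra hn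
    have : A ^ 2 * (1 - c ^ 2) ≤ 0 := mul_nonpos_of_nonneg_of_nonpos (by positivity) (by linarith)
    linarith
  have hcl : -1 < c := by nlinarith
  have hcr : c < 1 := by nlinarith
  have hac : Real.cos (Real.arccos c) = c := Real.cos_arccos hcl.le hcr.le
  have h0 : 0 < Real.arccos c := Real.arccos_pos.2 hcr
  have h1 : Real.arccos c < Real.pi := by
    have := Real.arccos_le_pi c
    refine lt_of_le_of_ne this fun he => ?_
    rw [he, Real.cos_pi] at hac
    linarith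
  have hsin : A * Real.sin (Real.arccos c) = Real.sqrt A * |σ| := by
    rw [Real.sin_arccos]
    have e1 : A * √(1 - c ^ 2) = √(A ^ 2 * (1 - c ^ 2)) := by
      rw [Real.sqrt_mul (by positivity), Real.sqrt_sq hA.le]
    rw [e1, hc2, Real.sqrt_mul hA.le, Real.sqrt_sq_eq_abs]
  rcases lt_or_gt_of_ne hσ with hneg | hpos
  · refine ⟨Real.arccos c, h0, by linarith, fun s => ?_⟩
    rw [Real.cos_sub, hac]
    rw [abs_of_neg hneg] at hsin
    have : A * (1 - (Real.cos s * c + Real.sin s * Real.sin (Real.arccos c))) =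
        A - Real.cos s * (A * c) - Real.sin s * (A * Real.sin (Real.arccos c)) := by ring
    rw [this, hcA, hsin]
    ring
  · refine ⟨2 * Real.pi - Real.arccos c, by linarith, by linarith, fun s => ?_⟩
    have e2 : Real.cos (s - (2 * Real.pi - Real.arccos c)) =
        Real.cos (s + Real.arccos c) := by
      rw [← Real.cos_sub_two_pi (s + Real.arccos c)]
      congr 1
      ring
    rw [e2, Real.cos_add, hac]
    rw [abs_of_pos hpos] at hsin
    have : A * (1 - (Real.cos s * c - Real.sin s * Real.sin (Real.arccos c))) =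
        A - Real.cos s * (A * c) + Real.sin s * (A * Real.sin (Real.arccos c)) := by ring
    rw [this, hcA, hsin]
    ring

/-- data of the regularized body -/
theorem mh_P {C : ℝ} {i : Fin 2} {X : Pl} {χ : ℝ} (h : M0D C i X χ) :
    kh' (pP i (colD (limD C X χ))) < 0 ∧ (pP i (colD (limD C X χ))).1 ≠ 0 ∧
    kL (pP i (colD (limD C X χ))) = 0 ∧ kσ (pP i (colD (limD C X χ))) ≠ 0 := by
  obtain ⟨e3, e2⟩ := z_p C X χ
  obtain ⟨b1, b2, -⟩ := z_bounds
  have hr : 0 < zr C X := by linarith [h.r.1]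
  have hr' : ((zr C X : ℝ) : ℂ) ≠ 0 := by exact_mod_cast hr.ne'
  have h30' : h30 < 0 := by unfold h30; norm_num
  have h20' : h20 < 0 := by
    have : d0 = h30 - h20 := rfl
    unfold h30 at this
    linarith
  have hP := h.P
  unfold LP at hP
  unfold pP
  by_cases hi : i = 0
  · rw [if_pos hi] at hP ⊢
    rw [e3]
    exact ⟨by rw [h.h3]; exact h30', hr', hP, h.s3.ne'⟩
  · rw [if_neg hi] at hP ⊢
    rw [e2]
    exact ⟨by rw [h.h2]; exact h20', hr', hP, h.s2.ne⟩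

theorem mh_T0 {C : ℝ} {i : Fin 2} {X : Pl} {χ : ℝ} (h : M0D C i X χ) :
    T0 C i X χ 1 2 =
      Real.sqrt (kA (pP i (colD (limD C X χ)))) * (2 * Real.pi * ((i.val + 1 : ℕ) : ℝ)) := by
  obtain ⟨h1, h2, -, -⟩ := mh_P h
  have hw := (lz_w i h1 h2).1
  have hA := Real.sqrt_pos.2 (kA_pos h1)
  unfold T0
  rw [hw]
  have : Real.pi / (1 / (2 * √(kA (pP i (colD (limD C X χ)))))) =
      √(kA (pP i (colD (limD C X χ)))) * (2 * Real.pi) := by
    field_simp
  rw [this]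
  fin_cases i
  · simp
  · simp
    ring

theorem m0_sun_pr {C : ℝ} (hC : 0 < C ∧ C ≤ 1) {i : Fin 2} {X : Pl} {χ : ℝ} (h : M0D C i X χ) :
    ∃ τm : Fin (i.val + 1) → ℝ, (∀ j, 0 < τm j ∧ τm j < T0 C i X χ 1 2) ∧
      (∀ j, (Zd i (limD C X χ) (τm j)).1 = 0) ∧
      ∀ τ ∈ Icc 0 (T0 C i X χ 1 2), (∀ j, τ ≠ τm j) → (Zd i (limD C X χ) τ).1 ≠ 0 := by
  obtain ⟨h1, h2, hL, hσ⟩ := mh_P h
  have hT := mh_T0 h
  set P := pP i (colD (limD C X χ)) with hP
  have hA := kA_pos h1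
  have hsA := Real.sqrt_pos.2 hA
  have hpi := Real.pi_pos
  have hamp := k_amp h1 h2
  rw [hL] at hamp
  have hamp' : (kr P - kA P) ^ 2 + kA P * kσ P ^ 2 = kA P ^ 2 := by rw [hamp]; ring
  obtain ⟨s1, hs0, hs2, hs⟩ := mh_phase hA hσ hamp'
  have hR : ∀ s, ‖kX P s‖ = kA P * (1 - Real.cos (s - s1)) := by
    intro s
    rw [norm_kX h1 h2, ← hs s]
    rfl
  have hz : ∀ τ, (Zd i (limD C X χ) τ).1 ^ 2 = kX P (τ / √(kA P)) :=
    fun τ => lz_sq i h1 h2 τ
  set n : ℕ := i.val + 1 with hn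
  refine ⟨fun j => √(kA P) * (s1 + 2 * Real.pi * (j.val : ℝ)), ?_, ?_, ?_⟩
  · intro j
    have hj : (j.val : ℝ) + 1 ≤ (n : ℝ) := by exact_mod_cast j.2
    have hj0 : (0 : ℝ) ≤ (j.val : ℝ) := Nat.cast_nonneg _
    constructor
    · have : 0 < s1 + 2 * Real.pi * (j.val : ℝ) := by positivity
      positivity
    · rw [hT]
      refine mul_lt_mul_of_pos_left ?_ hsA
      have : 2 * Real.pi * ((j.val : ℝ) + 1) ≤ 2 * Real.pi * (n : ℝ) :=
        mul_le_mul_of_nonneg_left hj (by positivity)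
      linarith
  · intro j
    have e1 : (Zd i (limD C X χ) (√(kA P) * (s1 + 2 * Real.pi * (j.val : ℝ)))).1 ^ 2 = 0 := by
      rw [hz, mul_div_cancel_left₀ _ hsA.ne', ← norm_eq_zero, hR]
      have : s1 + 2 * Real.pi * (j.val : ℝ) - s1 = (j.val : ℝ) * (2 * Real.pi) := by ring
      rw [this, Real.cos_nat_mul_two_pi]
      ring
    exact pow_eq_zero_iff (by norm_num) |>.1 e1
  · intro τ hτ hne h0
    have e1 : ‖kX P (τ / √(kA P))‖ = 0 := by rw [← hz, h0]; simp
    rw [hR] at e1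
    have e2 : Real.cos (τ / √(kA P) - s1) = 1 := by
      rcases mul_eq_zero.1 e1 with h | h
      · exact absurd h hA.ne'
      · linarith
    obtain ⟨m, hm⟩ := (Real.cos_eq_one_iff _).1 e2
    have hτ2 : τ / √(kA P) = s1 + m * (2 * Real.pi) := by linarith
    have hlo : 0 ≤ τ / √(kA P) := div_nonneg hτ.1 hsA.le
    have hhi : τ / √(kA P) ≤ 2 * Real.pi * (n : ℝ) := by
      rw [div_le_iff₀ hsA]
      have := hτ.2
      rw [hT] at this
      linarith
    rw [hτ2] at hlo hhi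
    have hm0 : (-1 : ℝ) < (m : ℝ) := by nlinarith
    have hm1 : (m : ℝ) < (n : ℝ) := by nlinarith
    have hm0' : 0 ≤ m := by
      have : (-1 : ℤ) < m := by exact_mod_cast hm0
      omega
    obtain ⟨k, rfl⟩ := Int.eq_ofNat_of_zero_le hm0'
    have hk : k < n := by exact_mod_cast hm1
    refine hne ⟨k, hk⟩ ?_
    have : τ = √(kA P) * (τ / √(kA P)) := by field_simp
    rw [this, hτ2]
    simp only [Int.cast_natCast]
    ring


end

end Pool.Agent.HS

namespace Pool.Agent.HS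
open Set Filter Topology Classical
open scoped ContDiff

theorem m0_sun {C : ℝ} (hC : 0 < C ∧ C ≤ 1) {i : Fin 2} {X : Pl} {χ : ℝ} (h : M0D C i X χ) :
    ∃ τm : Fin (i.val + 1) → ℝ, (∀ j, 0 < τm j ∧ τm j < T0 C i X χ 1 2) ∧
      (∀ j, (Zd i (limD C X χ) (τm j)).1 = 0) ∧
      ∀ τ ∈ Icc 0 (T0 C i X χ 1 2), (∀ j, τ ≠ τm j) → (Zd i (limD C X χ) τ).1 ≠ 0 :=
  @Pool.Agent.HS.m0_sun_pr C hC i X χ h

end Pool.Agent.HS
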