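import Pool.Agent.Lib_helper60.HSF.D_WQ
import Pool.Agent.Lib_helper60.HSF.Z_ZA1
import Pool.Agent.Lib_helper60.HSF.Z_ZC

/-!
# Project HS, part Q, block QA1: centre data in `CD`
-/

namespace Pool.Agent.HS

noncomputable section

open Set Filter Topology
open scoped ContDiff

theorem qa1_rh : 0 < rh := by
  have := z_bounds.2.2.2.2.1
  linarith

theorem qa1_cc : 0 < cc := by
  have := z_bounds.2.2.2.2.2.2.1
  linarith

theorem cd_facts_pr {C : ℝ} (hC : 0 < C ∧ C ≤ 1) {X : Pl} (hX : X ∈ CD C) :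
    0 < zr C X ∧ 1 ≤ zk C X ∧
    0 < E0 + 1 / zr C X - ((chart C X).2 ^ 2 + C ^ 2 / zr C X ^ 2) / 2 := by
  obtain ⟨h1, h2, h3, h4⟩ := hX
  have hrh := qa1_rh
  have hkh := z_bounds.2.2.1
  have hk : 1 ≤ zk C X := by
    have h5 := (abs_le.1 h4).1
    show 1 ≤ kap0 C (chart C X)
    linarith
  refine ⟨?_, hk, ?_⟩
  · show 0 < (chart C X).1
    linarith
  · by_contra hcon
    have h6 : zk C X = 0 := by
      unfold zk kap0
      refine Real.sqrt_eq_zero_of_nonpos ?_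
      refine mul_nonpos_of_nonneg_of_nonpos (by unfold ma mb; norm_num) ?_
      exact not_lt.1 hcon
    rw [h6] at hk
    linarith

theorem qa1_nsq (z : ℂ) : ‖z‖ ^ 2 = z.re ^ 2 + z.im ^ 2 := by
  rw [← Complex.normSq_eq_norm_sq, Complex.normSq_apply]; ring

theorem qa1_w (C : ℝ) (X : ℝ × ℝ) (χ : ℝ) : ‖zw C X χ‖ ^ 2 = zk C X ^ 2 := by
  unfold zw
  rw [norm_mul, Complex.norm_exp_ofReal_mul_I, mul_one, Complex.norm_real, Real.norm_eq_abs, sq_abs]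

theorem qa1_U (C : ℝ) (X : ℝ × ℝ) :
    C ^ 2 * ‖zU C X‖ ^ 2 = (chart C X).2 ^ 2 + C ^ 2 / zr C X ^ 2 := by
  have h2 : (chart C X).2 = C * zϖ X / rh := rfl
  rw [qa1_nsq, h2]
  have hre : (zU C X).re = zϖ X / rh := by
    unfold zU; simp
  have him : (zU C X).im = 1 / zr C X := by
    unfold zU; simp
  rw [hre, him]
  ring

theorem qa1_h3 (C : ℝ) (X : ℝ × ℝ) (χ : ℝ) :
    ‖(z3 C X χ).2‖ ^ 2 = C ^ 2 * ‖zU C X‖ ^ 2 +
      2 * mb * C * ((starRingEnd ℂ) (zw C X χ) * zU C X).re + mb ^ 2 * ‖zw C X χ‖ ^ 2 := by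
  unfold z3
  simp only [qa1_nsq, Complex.add_re, Complex.add_im, Complex.mul_im, Complex.mul_re, Complex.conj_re, Complex.conj_im,
    Complex.ofReal_re, Complex.ofReal_im]
  ring

theorem qa1_h2 (C : ℝ) (X : ℝ × ℝ) (χ : ℝ) :
    ‖(z2 C X χ).2‖ ^ 2 = C ^ 2 * ‖zU C X‖ ^ 2 -
      2 * ma * C * ((starRingEnd ℂ) (zw C X χ) * zU C X).re + ma ^ 2 * ‖zw C X χ‖ ^ 2 := by
  unfold z2
  simp only [qa1_nsq, Complex.sub_re, Complex.sub_im, Complex.mul_im, Complex.mul_re, Complex.conj_re, Complex.conj_im,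
    Complex.ofReal_re, Complex.ofReal_im]
  ring

theorem qa1_en {C : ℝ} {X : ℝ × ℝ} {χ : ℝ} (hr : 0 < zr C X)
    (hk0 : 0 < E0 + 1 / zr C X - ((chart C X).2 ^ 2 + C ^ 2 / zr C X ^ 2) / 2) :
    ma * kh' (z3 C X χ) + mb * kh' (z2 C X χ) = E0 ∧
    kh' (z3 C X χ) - kh' (z2 C X χ) = d0 + C * zE C X χ := by
  have hrh := qa1_rh
  have hcc := qa1_cc
  have h1 : zk C X ^ 2 =
      2 / (ma * mb) * (E0 + 1 / zr C X - ((chart C X).2 ^ 2 + C ^ 2 / zr C X ^ 2) / 2) := by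
    unfold zk kap0
    refine Real.sq_sqrt ?_
    refine mul_nonneg (by unfold ma mb; norm_num) ?_
    exact hk0.le
  have hn3 : ‖(z3 C X χ).1‖ = zr C X := by
    have : (z3 C X χ).1 = ((zr C X : ℝ) : ℂ) := rfl
    rw [this, Complex.norm_real, Real.norm_eq_abs, abs_of_pos hr]
  have hn2 : ‖(z2 C X χ).1‖ = zr C X := by
    have : (z2 C X χ).1 = ((zr C X : ℝ) : ℂ) := rfl
    rw [this, Complex.norm_real, Real.norm_eq_abs, abs_of_pos hr]
  have h3 := qa1_h3 C X χ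
  have h2 := qa1_h2 C X χ
  rw [qa1_w] at h3 h2
  have hU := qa1_U C X
  rw [← hU] at h1
  refine ⟨?_, ?_⟩
  · unfold kh'
    rw [hn3, hn2, h3, h2, h1]
    unfold ma mb
    ring
  · unfold kh'
    rw [hn3, hn2, h3, h2]
    have hk := kh_sq
    have hE := E0_rh
    have hz := zr_eq C X
    have hd : d0 = 8 / 3 * (E0 + 1 / rh) := by
      rw [hE, hk]; unfold ma mb; ring
    have hrr : 1 / zr C X - 1 / rh = C * (-(zρ X) / (cc * rh ^ 2 * zr C X)) := by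
      have : zr C X - rh = C * zρ X / (cc * rh) := by rw [hz]; ring
      have e : 1 / zr C X - 1 / rh = -(zr C X - rh) / (zr C X * rh) := by
        field_simp; ring
      rw [e, this]
      field_simp
    unfold zE
    rw [hd]
    rw [h1]
    unfold ma mb
    linear_combination (8/3 : ℝ) * hrr

theorem qa1_wre (C : ℝ) (X : ℝ × ℝ) (χ : ℝ) : (zw C X χ).re = zk C X * Real.cos χ ∧
    (zw C X χ).im = zk C X * Real.sin χ := by
  unfold zw
  rw [Complex.re_ofReal_mul, Complex.im_ofReal_mul, Complex.exp_ofReal_mul_I_re,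
    Complex.exp_ofReal_mul_I_im]
  exact ⟨rfl, rfl⟩

theorem cd_en_pr {C : ℝ} (hC : 0 < C ∧ C ≤ 1) {X : Pl} (hX : X ∈ CD C) (χ : ℝ) :
    ma * kh' (z3 C X χ) + mb * kh' (z2 C X χ) = E0 ∧
    kh' (z3 C X χ) - kh' (z2 C X χ) = d0 + C * zE C X χ ∧
    HasDerivAt (fun χ => kh' (z3 C X χ) - kh' (z2 C X χ)) (C * zX C X χ) χ := by
  obtain ⟨hr, hk, hk0⟩ := cd_facts_pr hC hX
  refine ⟨(qa1_en hr hk0).1, (qa1_en hr hk0).2, ?_⟩
  have e : (fun χ => kh' (z3 C X χ) - kh' (z2 C X χ)) = fun χ => d0 + C * zE C X χ :=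
    funext fun χ => (qa1_en hr hk0).2
  rw [e]
  have hE : ∀ χ, zE C X χ = zk C X * (Real.cos χ * (zU C X).re + Real.sin χ * (zU C X).im) +
      8 / 3 * (-(zρ X) / (cc * rh ^ 2 * zr C X) - C * ‖zU C X‖ ^ 2 / 2) := by
    intro χ
    unfold zE
    rw [Complex.mul_re, Complex.conj_re, Complex.conj_im, (qa1_wre C X χ).1, (qa1_wre C X χ).2]
    ring
  have hX' : zX C X χ = zk C X * (-Real.sin χ * (zU C X).re + Real.cos χ * (zU C X).im) := by
    unfold zX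
    rw [Complex.mul_im, Complex.conj_re, Complex.conj_im, (qa1_wre C X χ).1, (qa1_wre C X χ).2]
    ring
  rw [hX']
  simp only [hE]
  have h1 := (((Real.hasDerivAt_cos χ).mul_const (zU C X).re).add
    ((Real.hasDerivAt_sin χ).mul_const (zU C X).im)).const_mul (zk C X)
  exact ((h1.add_const _).const_mul C).const_add d0

theorem cd_smooth_pr {C : ℝ} (hC : 0 < C ∧ C ≤ 1) :
    ContDiffOn ℝ ∞ (fun p : Pl × ℝ => z3 C p.1 p.2) {p | p.1 ∈ interior (CD C)} ∧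
    ContDiffOn ℝ ∞ (fun p : Pl × ℝ => z2 C p.1 p.2) {p | p.1 ∈ interior (CD C)} ∧
    ContDiffOn ℝ ∞ (fun p : Pl × ℝ => limD C p.1 p.2) {p | p.1 ∈ interior (CD C)} ∧
    ContDiffOn ℝ ∞ (fun p : Pl × ℝ => kh' (z3 C p.1 p.2) - kh' (z2 C p.1 p.2))
      {p | p.1 ∈ interior (CD C)} ∧
    ∀ X ∈ interior (CD C), rh / 2 < (chart C X).1 := by
  have hrh := qa1_rh
  have hcc := qa1_cc
  set S : Set (Pl × ℝ) := {p | p.1 ∈ interior (CD C)} with hS
  have hf : ∀ p ∈ S, 0 < zr C p.1 ∧ 1 ≤ zk C p.1 ∧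
      0 < E0 + 1 / zr C p.1 - ((chart C p.1).2 ^ 2 + C ^ 2 / zr C p.1 ^ 2) / 2 :=
    fun p hp => cd_facts_pr hC (interior_subset hp)
  have c1 : ContDiff ℝ ∞ (fun p : Pl × ℝ => zr C p.1) := by
    unfold zr chart
    dsimp only
    fun_prop
  have c2 : ContDiff ℝ ∞ (fun p : Pl × ℝ => (chart C p.1).2) := by
    unfold chart
    dsimp only
    fun_prop
  have c3 : ContDiff ℝ ∞ (fun p : Pl × ℝ => zϖ p.1 / rh) := by
    unfold zϖ
    fun_prop
  have hr : ContDiffOn ℝ ∞ (fun p : Pl × ℝ => zr C p.1) S := c1.contDiffOn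
  have hinv : ContDiffOn ℝ ∞ (fun p : Pl × ℝ => 1 / zr C p.1) S :=
    contDiffOn_const.div hr (fun p hp => (hf p hp).1.ne')
  have hinv2 : ContDiffOn ℝ ∞ (fun p : Pl × ℝ => C ^ 2 / zr C p.1 ^ 2) S :=
    contDiffOn_const.div (hr.pow 2) (fun p hp => pow_ne_zero 2 (hf p hp).1.ne')
  have hrad : ContDiffOn ℝ ∞ (fun p : Pl × ℝ => 2 / (ma * mb) *
      (E0 + 1 / zr C p.1 - ((chart C p.1).2 ^ 2 + C ^ 2 / zr C p.1 ^ 2) / 2)) S :=
    contDiffOn_const.mul ((contDiffOn_const.add hinv).sub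
      (((c2.contDiffOn.pow 2).add hinv2).div_const 2))
  have hk : ContDiffOn ℝ ∞ (fun p : Pl × ℝ => zk C p.1) S := by
    refine hrad.sqrt (fun p hp => ?_)
    refine (mul_pos (by unfold ma mb; norm_num) (hf p hp).2.2).ne'
  have hofr : ContDiff ℝ ∞ (fun x : ℝ => (x : ℂ)) := Complex.ofRealCLM.contDiff
  have hrC : ContDiffOn ℝ ∞ (fun p : Pl × ℝ => (zr C p.1 : ℂ)) S := hofr.comp_contDiffOn hr
  have hkC : ContDiffOn ℝ ∞ (fun p : Pl × ℝ => (zk C p.1 : ℂ)) S := hofr.comp_contDiffOn hk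
  have hU : ContDiffOn ℝ ∞ (fun p : Pl × ℝ => zU C p.1) S := by
    unfold zU
    exact (hofr.comp_contDiffOn c3.contDiffOn).add
      ((hofr.comp_contDiffOn hinv).mul contDiffOn_const)
  have hexp : ContDiff ℝ ∞ (fun p : Pl × ℝ => Complex.exp ((p.2 : ℂ) * Complex.I)) := by
    have h1 : ContDiff ℝ ∞ (fun p : Pl × ℝ => (p.2 : ℂ) * Complex.I) :=
      (hofr.comp contDiff_snd).mul contDiff_const
    exact h1.cexp
  have hw : ContDiffOn ℝ ∞ (fun p : Pl × ℝ => zw C p.1 p.2) S := by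
    unfold zw
    exact hkC.mul hexp.contDiffOn
  have hCU : ContDiffOn ℝ ∞ (fun p : Pl × ℝ => (C : ℂ) * zU C p.1) S := contDiffOn_const.mul hU
  have h32 : ContDiffOn ℝ ∞ (fun p : Pl × ℝ => (z3 C p.1 p.2).2) S :=
    hCU.add (contDiffOn_const.mul hw)
  have h22 : ContDiffOn ℝ ∞ (fun p : Pl × ℝ => (z2 C p.1 p.2).2) S :=
    hCU.sub (contDiffOn_const.mul hw)
  refine ⟨hrC.prodMk h32, hrC.prodMk h22, ?_, ?_, ?_⟩
  · have hUe : ContDiffOn ℝ ∞ (fun p : Pl × ℝ =>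
        Uenc C 0 (chart C p.1).1 (chart C p.1).2 0) S := by
      refine hCU.congr (fun p _ => ?_)
      show Uenc C 0 (zr C p.1) (C * zϖ p.1 / rh) 0 = (C : ℂ) * zU C p.1
      unfold Uenc zU
      push_cast
      ring
    have h1 : ContDiffOn ℝ ∞ (fun p : Pl × ℝ => kap0 C (chart C p.1)) S := hk
    exact hrC.prodMk (hUe.prodMk (h1.prodMk contDiff_snd.contDiffOn))
  · have h1 : ContDiffOn ℝ ∞ (fun p : Pl × ℝ =>
        (‖(z3 C p.1 p.2).2‖ ^ 2 - ‖(z2 C p.1 p.2).2‖ ^ 2) / 2) S :=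
      ((h32.norm_sq ℝ).sub (h22.norm_sq ℝ)).div_const 2
    refine h1.congr (fun p _ => ?_)
    unfold kh'
    have e : (z3 C p.1 p.2).1 = (z2 C p.1 p.2).1 := rfl
    rw [e]
    ring
  · intro X hX
    obtain ⟨ε, hε, hb⟩ := Metric.isOpen_iff.1 isOpen_interior X hX
    have hX' : ((X.1 - ε / 2, X.2) : Pl) ∈ Metric.ball X ε := by
      rw [Metric.mem_ball, Prod.dist_eq]
      refine max_lt ?_ ?_
      · rw [Real.dist_eq]
        have : X.1 - ε / 2 - X.1 = -(ε / 2) := by ring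
        rw [this, abs_neg, abs_of_pos (by linarith)]
        linarith
      · rw [dist_self]
        exact hε
    have h1 := (interior_subset (hb hX')).1
    have h2 : (chart C ((X.1 - ε / 2, X.2) : Pl)).1 = (chart C X).1 - C * (ε / 2) / (cc * rh) := by
      show rh + C * (1/2 + (X.1 - ε / 2)) / (cc * rh) =
        rh + C * (1/2 + X.1) / (cc * rh) - C * (ε / 2) / (cc * rh)
      ring
    have h3 : 0 < C * (ε / 2) / (cc * rh) := by
      have := hC.1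
      positivity
    rw [h2] at h1
    linarith

end

end Pool.Agent.HS

namespace Pool.Agent.HS
open Set Filter Topology
open scoped ContDiff

theorem cd_facts {C : ℝ} (hC : 0 < C ∧ C ≤ 1) {X : Pl} (hX : X ∈ CD C) :
    0 < zr C X ∧ 1 ≤ zk C X ∧
    0 < E0 + 1 / zr C X - ((chart C X).2 ^ 2 + C ^ 2 / zr C X ^ 2) / 2 :=
  @Pool.Agent.HS.cd_facts_pr C hC X hX

end Pool.Agent.HS

namespace Pool.Agent.HS
open Set Filter Topology
open scoped ContDiff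

theorem cd_en {C : ℝ} (hC : 0 < C ∧ C ≤ 1) {X : Pl} (hX : X ∈ CD C) (χ : ℝ) :
    ma * kh' (z3 C X χ) + mb * kh' (z2 C X χ) = E0 ∧
    kh' (z3 C X χ) - kh' (z2 C X χ) = d0 + C * zE C X χ ∧
    HasDerivAt (fun χ => kh' (z3 C X χ) - kh' (z2 C X χ)) (C * zX C X χ) χ :=
  @Pool.Agent.HS.cd_en_pr C hC X hX χ

end Pool.Agent.HS

namespace Pool.Agent.HS
open Set Filter Topology
open scoped ContDiff

theorem cd_smooth {C : ℝ} (hC : 0 < C ∧ C ≤ 1) :
    ContDiffOn ℝ ∞ (fun p : Pl × ℝ => z3 C p.1 p.2) {p | p.1 ∈ interior (CD C)} ∧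
    ContDiffOn ℝ ∞ (fun p : Pl × ℝ => z2 C p.1 p.2) {p | p.1 ∈ interior (CD C)} ∧
    ContDiffOn ℝ ∞ (fun p : Pl × ℝ => limD C p.1 p.2) {p | p.1 ∈ interior (CD C)} ∧
    ContDiffOn ℝ ∞ (fun p : Pl × ℝ => kh' (z3 C p.1 p.2) - kh' (z2 C p.1 p.2))
      {p | p.1 ∈ interior (CD C)} ∧
    ∀ X ∈ interior (CD C), rh / 2 < (chart C X).1 :=
  @Pool.Agent.HS.cd_smooth_pr C hC

end Pool.Agent.HS
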