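import Pool.Agent.Lib_helper60.HSF.D_WQ
import Pool.Agent.Lib_helper60.HSF.Z_ZE
import Pool.Agent.Lib_helper60.HSF.Z_QA1

/-! Block QA2: direction function -/

namespace Pool.Agent.HS

noncomputable section

open Set Filter Topology
open scoped ContDiff

theorem dir_fun_pr (C : ℝ) (hC : 0 < C ∧ C ≤ 1) (Xs : Pl) (χs : ℝ) (hX : Xs ∈ interior (CD C))
    (hV : zX C Xs χs ≠ 0) (δ : ℝ) (hδ : 0 < δ) :
    ∃ (h1 : ℝ) (χ : Pl → ℝ), 0 < h1 ∧ χ Xs = χs ∧ ContDiffOn ℝ 2 χ (Metric.ball Xs (2 * h1)) ∧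
      Metric.ball Xs (2 * h1) ⊆ interior (CD C) ∧
      ∀ X ∈ Metric.ball Xs (2 * h1), |χ X - χs| ≤ δ ∧
        kh' (z3 C X (χ X)) = kh' (z3 C Xs χs) ∧ kh' (z2 C X (χ X)) = kh' (z2 C Xs χs) := by
  have hXC : Xs ∈ CD C := interior_subset hX
  set U : Set (Pl × ℝ) := {p | p.1 ∈ interior (CD C)} with hUdef
  have hU : IsOpen U := isOpen_interior.preimage continuous_fst
  set c : ℝ := kh' (z3 C Xs χs) - kh' (z2 C Xs χs) with hc
  set f : Pl × ℝ → ℝ := fun p => kh' (z3 C p.1 p.2) - kh' (z2 C p.1 p.2) - c with hf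
  have hf2 : ContDiffOn ℝ 2 f U := by
    have h1 := (cd_smooth hC).2.2.2.1
    have h2 : ContDiffOn ℝ ∞ f U := h1.sub contDiffOn_const
    exact h2.of_le (by
      rw [show (2 : WithTop ℕ∞) = ((2 : ℕ∞) : WithTop ℕ∞) from rfl]
      exact WithTop.coe_le_coe.mpr le_top)
  have hne : C * zX C Xs χs ≠ 0 := mul_ne_zero hC.1.ne' hV
  have hA : HasFDerivAt (fun e : ℝ => f (Xs, e))
      ((ContinuousLinearEquiv.unitsEquivAut ℝ (Units.mk0 _ hne) : ℝ ≃L[ℝ] ℝ) : ℝ →L[ℝ] ℝ) χs := by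
    have h1 : HasDerivAt (fun e : ℝ => f (Xs, e)) (C * zX C Xs χs) χs :=
      ((cd_en hC hXC χs).2.2).sub_const c
    have h2 := h1.hasFDerivAt
    have e1 : ((ContinuousLinearEquiv.unitsEquivAut ℝ (Units.mk0 _ hne) : ℝ ≃L[ℝ] ℝ) :
        ℝ →L[ℝ] ℝ) = ContinuousLinearMap.toSpanSingleton ℝ (C * zX C Xs χs) := by
      apply ContinuousLinearMap.ext_ring
      simp
    rw [e1]
    exact h2
  obtain ⟨r, r', hr, hr', hrd, g, hg, hgX, hgr⟩ := ift f U hU hf2 Xs χs hX (by simp [hf, hc])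
    (ContinuousLinearEquiv.unitsEquivAut ℝ (Units.mk0 _ hne)) hA δ hδ
  obtain ⟨ε, hε, hεs⟩ := Metric.isOpen_iff.1 (isOpen_interior (s := CD C)) Xs hX
  have hm : 0 < min r ε := lt_min hr hε
  have hsub : Metric.ball Xs (2 * (min r ε / 2)) ⊆ Metric.ball Xs r := by
    apply Metric.ball_subset_ball
    have := min_le_left r ε
    linarith
  have hsub2 : Metric.ball Xs (2 * (min r ε / 2)) ⊆ interior (CD C) := by
    refine (Metric.ball_subset_ball ?_).trans hεs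
    have := min_le_right r ε
    linarith
  refine ⟨min r ε / 2, g, by linarith, hgX, hg.mono hsub, hsub2, ?_⟩
  intro X hXb
  obtain ⟨h1, -, h3, -⟩ := hgr X (hsub hXb)
  refine ⟨?_, ?_⟩
  · rw [Metric.mem_ball, Real.dist_eq] at h1
    linarith
  · have e1 := (cd_en hC (interior_subset (hsub2 hXb)) (g X)).1
    have e2 := (cd_en hC hXC χs).1
    simp only [hf, hc] at h3
    simp only [ma, mb] at e1 e2
    constructor <;> linarith

end

end Pool.Agent.HS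

namespace Pool.Agent.HS
open Set Filter Topology
open scoped ContDiff

theorem dir_fun (C : ℝ) (hC : 0 < C ∧ C ≤ 1) (Xs : Pl) (χs : ℝ) (hX : Xs ∈ interior (CD C))
    (hV : zX C Xs χs ≠ 0) (δ : ℝ) (hδ : 0 < δ) :
    ∃ (h1 : ℝ) (χ : Pl → ℝ), 0 < h1 ∧ χ Xs = χs ∧ ContDiffOn ℝ 2 χ (Metric.ball Xs (2 * h1)) ∧
      Metric.ball Xs (2 * h1) ⊆ interior (CD C) ∧
      ∀ X ∈ Metric.ball Xs (2 * h1), |χ X - χs| ≤ δ ∧
        kh' (z3 C X (χ X)) = kh' (z3 C Xs χs) ∧ kh' (z2 C X (χ X)) = kh' (z2 C Xs χs) :=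
  @Pool.Agent.HS.dir_fun_pr C hC Xs χs hX hV δ hδ

end Pool.Agent.HS
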