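import Pool.Agent.Lib_helper60.HSF.D_DefsQ

/-! # Project HS, block QA3: openness of the absence of collisions -/

namespace Pool.Agent.HS

open Set Filter Topology
open scoped ContDiff

/-- a curve of zeros at which the time derivative does not vanish is isolated in time -/
theorem qa3_loc {f : Pl × ℝ → ℂ} {Xs : Pl} {τ : ℝ} (hf : ContDiffAt ℝ 1 f (Xs, τ))
    (h0 : ∀ᶠ X in 𝓝 Xs, f (X, τ) = 0) (d : deriv (fun t => f (Xs, t)) τ ≠ 0) :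
    ∀ᶠ p : Pl × ℝ in 𝓝 (Xs, τ), p.2 ≠ τ → f p ≠ 0 := by
  have hs := hf.hasStrictFDerivAt (by norm_num)
  set f' := fderiv ℝ f (Xs, τ) with hf'
  -- the time derivative
  have hd : HasDerivAt (fun t => f (Xs, t)) (f' (0, 1)) τ := by
    have h1 : HasDerivAt (fun t : ℝ => ((Xs, t) : Pl × ℝ)) (0, 1) τ :=
      (hasDerivAt_const τ Xs).prodMk (hasDerivAt_id τ)
    exact hs.hasFDerivAt.comp_hasDerivAt τ h1
  rw [hd.deriv] at d
  have hw : 0 < ‖f' (0, 1)‖ := norm_pos_iff.mpr d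
  have hlin : ∀ r : ℝ, f' (0, r) = (r : ℂ) * f' (0, 1) := by
    intro r
    have h1 : ((0, r) : Pl × ℝ) = r • (0, 1) := by
      ext <;> simp
    rw [h1, map_smul, Complex.real_smul]
  have ht : Tendsto (fun p : Pl × ℝ => (p, (p.1, τ))) (𝓝 (Xs, τ)) (𝓝 ((Xs, τ), (Xs, τ))) := by
    have h1 : Continuous (fun p : Pl × ℝ => (p, (p.1, τ))) := by fun_prop
    exact h1.tendsto (Xs, τ)
  have hb := ht.eventually (hs.isLittleO.bound (half_pos hw))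
  have h0' : ∀ᶠ p : Pl × ℝ in 𝓝 (Xs, τ), f (p.1, τ) = 0 :=
    (continuous_fst.tendsto (Xs, τ)).eventually h0
  filter_upwards [hb, h0'] with p hp hp0 hne hz
  have h1 : p - (p.1, τ) = ((0, p.2 - τ) : Pl × ℝ) := by
    ext <;> simp
  rw [h1, hlin, hz, hp0] at hp
  have h2 : ‖((0, p.2 - τ) : Pl × ℝ)‖ = |p.2 - τ| := by
    rw [Prod.norm_def]
    simp
  rw [h2, sub_zero, zero_sub, norm_neg, norm_mul, Complex.norm_real, Real.norm_eq_abs] at hp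
  have h3 : 0 < |p.2 - τ| := abs_pos.mpr (sub_ne_zero.mpr hne)
  have h4 := mul_pos h3 hw
  linarith

theorem free_open_pr {f : Pl × ℝ → ℂ} {U : Set (Pl × ℝ)} (hU : IsOpen U) (hf : ContDiffOn ℝ 1 f U)
    (Xs : Pl) (T : ℝ) (hT : 0 < T) (hXU : ∀ t ∈ Icc 0 T, (Xs, t) ∈ U)
    (h0 : ∀ᶠ X in 𝓝 Xs, f (X, 0) = 0 ∧ f (X, T) = 0)
    (d0 : deriv (fun t => f (Xs, t)) 0 ≠ 0) (dT : deriv (fun t => f (Xs, t)) T ≠ 0)
    (hfree : ∀ t ∈ Ioo 0 T, f (Xs, t) ≠ 0) :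
    ∃ h : ℝ, 0 < h ∧ ∀ X ∈ Metric.closedBall Xs h, ∀ t ∈ Ioo 0 T, f (X, t) ≠ 0 := by
  have hc : ∀ t ∈ Icc 0 T, ContDiffAt ℝ 1 f (Xs, t) := fun t ht =>
    hf.contDiffAt (hU.mem_nhds (hXU t ht))
  have key : ∀ t ∈ Icc 0 T, ∀ᶠ p : Pl × ℝ in 𝓝 (Xs, t), p.2 ∈ Ioo 0 T → f (p.1, p.2) ≠ 0 := by
    intro t ht
    rcases eq_or_lt_of_le ht.1 with h1 | h1
    · have h2 := qa3_loc (hc t ht) (by rw [← h1]; exact h0.mono fun X h => h.1)
        (by rw [← h1]; exact d0)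
      filter_upwards [h2] with p hp hpT
      exact hp (by rw [← h1]; exact hpT.1.ne')
    rcases eq_or_lt_of_le ht.2 with h2 | h2
    · have h3 := qa3_loc (hc t ht) (by rw [h2]; exact h0.mono fun X h => h.2)
        (by rw [h2]; exact dT)
      filter_upwards [h3] with p hp hpT
      exact hp (by rw [h2]; exact hpT.2.ne)
    · have h3 := (hc t ht).continuousAt.eventually_ne (hfree t ⟨h1, h2⟩)
      filter_upwards [h3] with p hp _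
      exact hp
  have h1 : ∀ᶠ X in 𝓝 Xs, ∀ t ∈ Icc 0 T, t ∈ Ioo 0 T → f (X, t) ≠ 0 :=
    isCompact_Icc.eventually_forall_of_forall_eventually key
  obtain ⟨h, hh, h2⟩ := Metric.nhds_basis_closedBall.mem_iff.mp h1
  exact ⟨h, hh, fun X hX t ht => h2 hX t (Ioo_subset_Icc_self ht) ht⟩

end Pool.Agent.HS

namespace Pool.Agent.HS
open Set Filter Topology
open scoped ContDiff

theorem free_open {f : Pl × ℝ → ℂ} {U : Set (Pl × ℝ)} (hU : IsOpen U) (hf : ContDiffOn ℝ 1 f U)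
    (Xs : Pl) (T : ℝ) (hT : 0 < T) (hXU : ∀ t ∈ Icc 0 T, (Xs, t) ∈ U)
    (h0 : ∀ᶠ X in 𝓝 Xs, f (X, 0) = 0 ∧ f (X, T) = 0)
    (d0 : deriv (fun t => f (Xs, t)) 0 ≠ 0) (dT : deriv (fun t => f (Xs, t)) T ≠ 0)
    (hfree : ∀ t ∈ Ioo 0 T, f (Xs, t) ≠ 0) :
    ∃ h : ℝ, 0 < h ∧ ∀ X ∈ Metric.closedBall Xs h, ∀ t ∈ Ioo 0 T, f (X, t) ≠ 0 :=
  @Pool.Agent.HS.free_open_pr f U hU hf Xs T hT hXU h0 d0 dT hfree

end Pool.Agent.HS
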