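import Pool.Agent.Lib_helper60.HSF.D_WQ
import Pool.Agent.Lib_helper60.HSF.K_KL1
import Pool.Agent.Lib_helper60.HSF.K_KA1
import Pool.Agent.Lib_helper60.HSF.K_KD1
import Pool.Agent.Lib_helper60.HSF.K_KC1
import Pool.Agent.Lib_helper60.HSF.Z_QA1
import Pool.Agent.Lib_helper60.HSF.K_KL2
import Pool.Agent.Lib_helper60.HSF.Z_ZA1
import Pool.Agent.Lib_helper60.HSF.K_KD2
import Pool.Agent.Lib_helper60.HSF.K_KB2

/-!
# Part Q, block QA4: the end of a T arc
-/

namespace Pool.Agent.HS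

noncomputable section

open Set Filter Topology
open scoped ContDiff

theorem qa4_cos (N : ℕ) : Real.cos (2 * Real.pi * N) = 1 ∧ Real.sin (2 * Real.pi * N) = 0 := by
  constructor
  · rw [mul_comm]
    exact Real.cos_nat_mul_two_pi N
  · rw [mul_comm (2 * Real.pi), ← mul_assoc]
    have := Real.sin_nat_mul_pi (N * 2)
    push_cast at this
    exact this

theorem qa4_kR (y : KS) (N : ℕ) : kR y (2 * Real.pi * N) = kr y := by
  unfold kR
  rw [(qa4_cos N).1, (qa4_cos N).2]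
  ring

theorem qa4_kX (y : KS) (N : ℕ) : kX y (2 * Real.pi * N) = y.1 := by
  unfold kX
  rw [(qa4_cos N).1, (qa4_cos N).2]
  simp

theorem qa4_kV {y : KS} (h : kh' y < 0) (h0 : y.1 ≠ 0) (N : ℕ) :
    kV y (2 * Real.pi * N) = y.2 := by
  have hA : 0 < Real.sqrt (kA y) := Real.sqrt_pos.2 (kA_pos h)
  have hr : 0 < kr y := norm_pos_iff.2 h0
  unfold kV
  rw [qa4_kR, (qa4_cos N).1, (qa4_cos N).2]
  have e : (((Real.sqrt (kA y) * kr y)⁻¹ : ℝ) : ℂ) * ((Real.sqrt (kA y) * kr y : ℝ) : ℂ) = 1 := by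
    rw [← Complex.ofReal_mul, inv_mul_cancel₀ (by positivity), Complex.ofReal_one]
  simp only [mul_zero, mul_one, add_zero, Complex.ofReal_zero, zero_mul, zero_add]
  rw [← mul_assoc, e, one_mul]

theorem qa4_kT (y : KS) (N : ℕ) : kT y (2 * Real.pi * N) = kPer y * N := by
  have h := kT_per y 0 (N : ℤ)
  have h0 : kT y 0 = 0 := by
    unfold kT
    simp
  rw [h0, zero_add, zero_add] at h
  exact_mod_cast h

/-- derivative of the position at the multiples of `2π` -/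
theorem qa4_dX (y : KS) (N : ℕ) :
    HasDerivAt (kX y) (((Real.sqrt (kA y) * kr y : ℝ) : ℂ) * y.2) (2 * Real.pi * N) := by
  have hc : HasDerivAt (fun s : ℝ => 1 - kA y / kr y * (1 - Real.cos s)) (-(kA y / kr y) *
      Real.sin (2 * Real.pi * N)) (2 * Real.pi * N) := by
    have h1 := (((Real.hasDerivAt_cos (2 * Real.pi * N)).const_sub 1).const_mul
      (kA y / kr y)).const_sub 1
    exact h1.congr_deriv (by ring)
  have hs : HasDerivAt (fun s : ℝ => Real.sqrt (kA y) * kr y * Real.sin s +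
      kA y * kσ y * (1 - Real.cos s)) (Real.sqrt (kA y) * kr y * Real.cos (2 * Real.pi * N) +
      kA y * kσ y * Real.sin (2 * Real.pi * N)) (2 * Real.pi * N) := by
    have h1 := ((Real.hasDerivAt_sin (2 * Real.pi * N)).const_mul (Real.sqrt (kA y) * kr y)).add
      (((Real.hasDerivAt_cos (2 * Real.pi * N)).const_sub 1).const_mul (kA y * kσ y))
    exact h1.congr_deriv (by ring)
  have h2 := (hc.ofReal_comp.mul_const y.1).add (hs.ofReal_comp.mul_const y.2)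
  rw [(qa4_cos N).1, (qa4_cos N).2] at h2
  have e : ((-(kA y / kr y) * 0 : ℝ) : ℂ) * y.1 + ((Real.sqrt (kA y) * kr y * 1 +
      kA y * kσ y * 0 : ℝ) : ℂ) * y.2 = ((Real.sqrt (kA y) * kr y : ℝ) : ℂ) * y.2 := by
    simp
  rw [e] at h2
  exact h2

theorem qa4_core (i : Fin 2) (y : St) (h : kh' (pP i y) < 0) (h0 : (pP i y).1 ≠ 0)
    (hQ : Ell (pQ i y)) (hx : (pP i y).1 = (pQ i y).1) (N M : ℕ)
    (hres : kPer (pP i y) * N = kPer (pQ i y) * M) (T : ℝ)
    (hT : T = Real.sqrt (kA (pP i y)) * (2 * Real.pi * N)) :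
    lcSt i (lz0 i T (toLC i 0 y)) = y ∧ lcX (lz0 i T (toLC i 0 y)) = 0 ∧
    HasDerivAt (fun τ => lcX (lz0 i τ (toLC i 0 y)))
      (((kr (pP i y) : ℝ) : ℂ) * ((pP i y).2 - (pQ i y).2)) T := by
  have hA : 0 < Real.sqrt (kA (pP i y)) := Real.sqrt_pos.2 (kA_pos h)
  have hTA : T / Real.sqrt (kA (pP i y)) = 2 * Real.pi * N := by
    rw [hT, mul_div_cancel_left₀ _ hA.ne']
  have hkT : kT (pP i y) (2 * Real.pi * N) = kPer (pQ i y) * (M : ℤ) := by
    rw [qa4_kT, hres]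
    push_cast
    rfl
  have hkep : kep (kPer (pQ i y) * (M : ℤ)) (pQ i y) = pQ i y := by
    have h1 := kep_per hQ 0 (M : ℤ)
    rwa [zero_add, kep_zero hQ] at h1
  have hζ : lzζ i T (toLC i 0 y) ≠ 0 := by
    intro hz
    have h1 := lz_sq i h h0 T
    rw [hz, hTA, qa4_kX] at h1
    exact h0 (by rw [← h1]; simp)
  refine ⟨?_, ?_, ?_⟩
  · obtain ⟨c3, c2⟩ := lc_cart i h h0 hQ T hζ
    have ht := lz_time i h h0 T
    rw [hTA, hkT] at ht
    rw [ht] at c3 c2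
    have hYP : kY (pP i y) (2 * Real.pi * N) = pP i y := by
      unfold kY
      rw [qa4_kX, qa4_kV h h0]
    have key : p3 (lcSt i (lz0 i T (toLC i 0 y))) = p3 y ∧
        p2 (lcSt i (lz0 i T (toLC i 0 y))) = p2 y := by
      by_cases hi : i = 0
      · subst hi
        simp only [pP, pQ, if_true] at hTA hYP hkep c3 c2
        rw [hTA] at c3
        exact ⟨c3.trans hYP, c2.trans hkep⟩
      · simp only [pP, pQ, if_neg hi] at hTA hYP hkep c3 c2
        rw [hTA] at c2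
        exact ⟨c3.trans hkep, c2.trans hYP⟩
    obtain ⟨k1, k2⟩ := key
    have e1 := congrArg Prod.fst k1
    have e2 := congrArg Prod.snd k1
    have e3 := congrArg Prod.fst k2
    have e4 := congrArg Prod.snd k2
    exact Prod.ext e1 (Prod.ext e3 (Prod.ext e2 e4))
  · rw [lc_xi i h h0 hQ T, hTA, qa4_kX, hkT, hkep, hx, sub_self]
  · have hfun : (fun τ => lcX (lz0 i τ (toLC i 0 y))) = fun τ =>
        kX (pP i y) (τ / Real.sqrt (kA (pP i y))) -
          (kep (kT (pP i y) (τ / Real.sqrt (kA (pP i y)))) (pQ i y)).1 := by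
      funext τ
      exact lc_xi i h h0 hQ τ
    rw [hfun]
    have d1 : HasDerivAt (fun τ : ℝ => τ / Real.sqrt (kA (pP i y)))
        (1 / Real.sqrt (kA (pP i y))) T := (hasDerivAt_id T).div_const _
    have d2 : HasDerivAt (kX (pP i y)) (((Real.sqrt (kA (pP i y)) * kr (pP i y) : ℝ) : ℂ) *
        (pP i y).2) (T / Real.sqrt (kA (pP i y))) := by
      rw [hTA]
      exact qa4_dX _ N
    have d3 : HasDerivAt (kT (pP i y)) (Real.sqrt (kA (pP i y)) * kr (pP i y))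
        (T / Real.sqrt (kA (pP i y))) := by
      have := kT_deriv h (T / Real.sqrt (kA (pP i y)))
      rwa [hTA, qa4_kR, ← hTA] at this
    have d4 : HasDerivAt (fun t => (kep t (pQ i y)).1) (pQ i y).2
        (kT (pP i y) (T / Real.sqrt (kA (pP i y)))) := by
      rw [hTA, hkT]
      have h1 := (kep_ode hQ (kPer (pQ i y) * (M : ℤ))).fst
      rwa [hkep] at h1
    have d5 := d2.scomp T d1
    have d6 := (d4.scomp _ d3).scomp T d1
    have d7 := d5.sub d6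
    refine d7.congr_deriv ?_
    rw [Complex.real_smul, Complex.real_smul, Complex.real_smul]
    have hA' : (Real.sqrt (kA (pP i y)) : ℂ) ≠ 0 := by exact_mod_cast hA.ne'
    push_cast
    field_simp

theorem t_end_pr (C : ℝ) (hC : 0 < C ∧ C ≤ 1) (i : Fin 2) (X : Pl) (χ : ℝ) (K n : ℕ)
    (hX : X ∈ CD C) (h3 : kh' (z3 C X χ) < 0) (h2 : kh' (z2 C X χ) < 0)
    (hres : K * kPer (z3 C X χ) = n * kPer (z2 C X χ)) (hQ : LQ C i X χ ≠ 0) :
    lcSt i (Zd i (limD C X χ) (T0 C i X χ K n)) = colD (limD C X χ) ∧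
    lcX (Zd i (limD C X χ) (T0 C i X χ K n)) = 0 ∧ lcX (Zd i (limD C X χ) 0) = 0 ∧
    ∃ w : ℂ, w ≠ 0 ∧ HasDerivAt (fun τ => lcX (Zd i (limD C X χ) τ)) w 0 ∧
      HasDerivAt (fun τ => lcX (Zd i (limD C X χ) τ)) w (T0 C i X χ K n) := by
  obtain ⟨hr, hk, -⟩ := cd_facts hC hX
  obtain ⟨p3z, p2z⟩ := z_p C X χ
  obtain ⟨y, hy⟩ : ∃ y, y = colD (limD C X χ) := ⟨_, rfl⟩
  rw [← hy] at p3z p2z
  have hrc : ((zr C X : ℝ) : ℂ) ≠ 0 := by exact_mod_cast hr.ne'
  have hP1 : (pP i y).1 = (zr C X : ℂ) := by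
    unfold pP
    split_ifs
    · rw [p3z]; rfl
    · rw [p2z]; rfl
  have hQ1 : (pQ i y).1 = (zr C X : ℂ) := by
    unfold pQ
    split_ifs
    · rw [p2z]; rfl
    · rw [p3z]; rfl
  have hPh : kh' (pP i y) < 0 := by
    unfold pP
    split_ifs
    · rw [p3z]; exact h3
    · rw [p2z]; exact h2
  have hP0 : (pP i y).1 ≠ 0 := by rw [hP1]; exact hrc
  have hQE : Ell (pQ i y) := by
    unfold pQ
    unfold LQ at hQ
    split_ifs at hQ ⊢
    · rw [p2z]; exact ⟨h2, hQ⟩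
    · rw [p3z]; exact ⟨h3, hQ⟩
  have hres' : kPer (pP i y) * ((if i = 0 then K else n : ℕ) : ℝ) =
      kPer (pQ i y) * ((if i = 0 then n else K : ℕ) : ℝ) := by
    unfold pP pQ
    split_ifs
    · rw [p3z, p2z]; linarith
    · rw [p3z, p2z]; linarith
  have hT : T0 C i X χ K n = Real.sqrt (kA (pP i y)) *
      (2 * Real.pi * ((if i = 0 then K else n : ℕ) : ℝ)) := by
    have hA : 0 < Real.sqrt (kA (pP i y)) := Real.sqrt_pos.2 (kA_pos hPh)
    have e : ((if i = 0 then K else n : ℕ) : ℝ) = if i = 0 then (K : ℝ) else (n : ℝ) := by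
      split_ifs <;> rfl
    unfold T0
    rw [← hy, (lz_w i hPh hP0).1, e]
    field_simp
  obtain ⟨a1, a2, a3⟩ := qa4_core i y hPh hP0 hQE (hP1.trans hQ1.symm) _ _ hres' _ hT
  obtain ⟨-, b2, b3⟩ := qa4_core i y hPh hP0 hQE (hP1.trans hQ1.symm) 0 0 (by simp) 0 (by simp)
  have hZ : ∀ τ, Zd i (limD C X χ) τ = lz0 i τ (toLC i 0 y) := by
    intro τ
    rw [hy]
    rfl
  simp only [hZ]
  rw [← hy]
  refine ⟨a1, a2, b2, _, ?_, b3, a3⟩
  have hkr : (kr (pP i y) : ℂ) ≠ 0 := by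
    have : 0 < kr (pP i y) := norm_pos_iff.2 hP0
    exact_mod_cast this.ne'
  refine mul_ne_zero hkr ?_
  have hkc : (zk C X : ℂ) ≠ 0 := by exact_mod_cast (by linarith : zk C X ≠ 0)
  have hw : zw C X χ ≠ 0 := mul_ne_zero hkc (Complex.exp_ne_zero _)
  have hd : (z3 C X χ).2 - (z2 C X χ).2 = zw C X χ := by
    show (C : ℂ) * zU C X + (mb : ℂ) * zw C X χ - ((C : ℂ) * zU C X - (ma : ℂ) * zw C X χ) = _
    have : (mb : ℂ) + (ma : ℂ) = 1 := by
      unfold ma mb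
      push_cast
      norm_num
    linear_combination zw C X χ * this
  unfold pP pQ
  split_ifs
  · rw [p3z, p2z, hd]; exact hw
  · rw [p3z, p2z, ← neg_sub, hd]; exact neg_ne_zero.2 hw

end

end Pool.Agent.HS

namespace Pool.Agent.HS
open Set Filter Topology
open scoped ContDiff

theorem t_end (C : ℝ) (hC : 0 < C ∧ C ≤ 1) (i : Fin 2) (X : Pl) (χ : ℝ) (K n : ℕ)
    (hX : X ∈ CD C) (h3 : kh' (z3 C X χ) < 0) (h2 : kh' (z2 C X χ) < 0)
    (hres : K * kPer (z3 C X χ) = n * kPer (z2 C X χ)) (hQ : LQ C i X χ ≠ 0) :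
    lcSt i (Zd i (limD C X χ) (T0 C i X χ K n)) = colD (limD C X χ) ∧
    lcX (Zd i (limD C X χ) (T0 C i X χ K n)) = 0 ∧ lcX (Zd i (limD C X χ) 0) = 0 ∧
    ∃ w : ℂ, w ≠ 0 ∧ HasDerivAt (fun τ => lcX (Zd i (limD C X χ) τ)) w 0 ∧
      HasDerivAt (fun τ => lcX (Zd i (limD C X χ) τ)) w (T0 C i X χ K n) :=
  @Pool.Agent.HS.t_end_pr C hC i X χ K n hX h3 h2 hres hQ

end Pool.Agent.HS
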