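import Pool.Agent.Lib_helper60.HSF.D_WQ
import Pool.Agent.Lib_helper60.HSF.K_KE1
import Pool.Agent.Lib_helper60.HSF.K_KA1
import Pool.Agent.Lib_helper60.HSF.K_KD1
import Pool.Agent.Lib_helper60.HSF.K_KC1
import Pool.Agent.Lib_helper60.HSF.Z_QA1
import Pool.Agent.Lib_helper60.HSF.K_KE2
import Pool.Agent.Lib_helper60.HSF.Z_ZA1
import Pool.Agent.Lib_helper60.HSF.K_KD2
import Pool.Agent.Lib_helper60.HSF.K_KL2
import Pool.Agent.Lib_helper60.HSF.K_KL1

/-!
# Project HS, block QA5: transversality at the end of a T arc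
-/

namespace Pool.Agent.HS

noncomputable section

open Set Filter Topology
open scoped ContDiff

/-- velocity in the anomaly at a multiple of `2π` -/
theorem qa5_kX_s (y : KS) (m : ℕ) :
    HasDerivAt (kX y) ((Real.sqrt (kA y) * kr y : ℝ) * y.2) (2 * Real.pi * m) := by
  have hc : Real.cos (2 * Real.pi * m) = 1 := by
    rw [mul_comm]; exact Real.cos_nat_mul_two_pi m
  have hs : Real.sin (2 * Real.pi * m) = 0 := by
    have := Real.sin_nat_mul_pi (2 * m)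
    push_cast at this
    rw [show (2 * Real.pi * m : ℝ) = 2 * m * Real.pi by ring]
    exact this
  have h1 : HasDerivAt (fun s : ℝ => (1 - kA y / kr y * (1 - Real.cos s)))
      (0 - kA y / kr y * (0 - -Real.sin (2 * Real.pi * m))) (2 * Real.pi * m) :=
    (hasDerivAt_const _ _).sub (((hasDerivAt_const _ _).sub
      (Real.hasDerivAt_cos _)).const_mul _)
  have h2 : HasDerivAt (fun s : ℝ => (Real.sqrt (kA y) * kr y * Real.sin s +
      kA y * kσ y * (1 - Real.cos s)))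
      (Real.sqrt (kA y) * kr y * Real.cos (2 * Real.pi * m) +
        kA y * kσ y * (0 - -Real.sin (2 * Real.pi * m))) (2 * Real.pi * m) :=
    ((Real.hasDerivAt_sin _).const_mul _).add (((hasDerivAt_const _ _).sub
      (Real.hasDerivAt_cos _)).const_mul _)
  have h3 := (h1.ofReal_comp.mul_const y.1).add (h2.ofReal_comp.mul_const y.2)
  rw [hc, hs] at h3
  have e : ((0 - kA y / kr y * (0 - -0) : ℝ) : ℂ) * y.1 +
      ((Real.sqrt (kA y) * kr y * 1 + kA y * kσ y * (0 - -0) : ℝ) : ℂ) * y.2 =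
      (Real.sqrt (kA y) * kr y : ℝ) * y.2 := by
    norm_num
  rw [e] at h3
  exact h3

theorem qa5_kX_per (y : KS) (m : ℕ) : kX y (2 * Real.pi * m) = y.1 := by
  have hc : Real.cos (2 * Real.pi * m) = 1 := by
    rw [mul_comm]; exact Real.cos_nat_mul_two_pi m
  have hs : Real.sin (2 * Real.pi * m) = 0 := by
    have := Real.sin_nat_mul_pi (2 * m)
    push_cast at this
    rw [show (2 * Real.pi * m : ℝ) = 2 * m * Real.pi by ring]
    exact this
  simp only [kX, hc, hs]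
  norm_num

theorem qa5_kT_per (y : KS) (m : ℕ) : kT y (2 * Real.pi * m) = m * kPer y := by
  have hc : Real.cos (2 * Real.pi * m) = 1 := by
    rw [mul_comm]; exact Real.cos_nat_mul_two_pi m
  have hs : Real.sin (2 * Real.pi * m) = 0 := by
    have := Real.sin_nat_mul_pi (2 * m)
    push_cast at this
    rw [show (2 * Real.pi * m : ℝ) = 2 * m * Real.pi by ring]
    exact this
  simp only [kT, kPer, hc, hs]
  ring

theorem qa5_kR_per (y : KS) (m : ℕ) : kR y (2 * Real.pi * m) = kr y := by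
  have hc : Real.cos (2 * Real.pi * m) = 1 := by
    rw [mul_comm]; exact Real.cos_nat_mul_two_pi m
  have hs : Real.sin (2 * Real.pi * m) = 0 := by
    have := Real.sin_nat_mul_pi (2 * m)
    push_cast at this
    rw [show (2 * Real.pi * m : ℝ) = 2 * m * Real.pi by ring]
    exact this
  simp only [kR, hc, hs]
  ring

theorem qa5_fst {f : ℝ → KS} {f' : KS} {x : ℝ} (h : HasDerivAt f f' x) :
    HasDerivAt (fun x => (f x).1) f'.1 x :=
  (ContinuousLinearMap.fst ℝ ℂ ℂ).hasFDerivAt.comp_hasDerivAt x h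

/-- the derivative of the energy along a curve with constant position -/
theorem qa5_kh {P : ℝ → KS} {χ0 : ℝ} {r : ℂ} {P' : ℂ} (h1 : ∀ χ, (P χ).1 = r)
    (h2 : HasDerivAt (fun χ => (P χ).2) P' χ0) : ∃ h', HasDerivAt (fun χ => kh' (P χ)) h' χ0 := by
  have e : (fun χ => kh' (P χ)) = fun χ => ‖(P χ).2‖ ^ 2 / 2 - 1 / ‖r‖ := by
    funext χ; rw [kh', h1]
  rw [e]
  exact ⟨_, ((h2.norm_sq).div_const 2).sub_const _⟩

/-- everything at the collision, for two abstract curves of Kepler states -/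
theorem qa5_core (P Q : ℝ → KS) (χ0 r : ℝ) (hr : 0 < r) (P' Q' : ℂ) (hP1 : ∀ χ, (P χ).1 = r)
    (hQ1 : ∀ χ, (Q χ).1 = r) (hP : HasDerivAt (fun χ => (P χ).2) P' χ0)
    (hQ : HasDerivAt (fun χ => (Q χ).2) Q' χ0) (hn : kh' (P χ0) < 0) (he : Ell (Q χ0))
    (m m' : ℕ) (hper : m * kPer (P χ0) = m' * kPer (Q χ0)) (D : ℝ)
    (hD : HasDerivAt (fun χ => m * kPer (P χ) - m' * kPer (Q χ)) D χ0) :
    (∃ c : ℝ, HasDerivAt (fun χ => kX (P χ) (Real.sqrt (kA (P χ0)) * (2 * Real.pi * m) /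
        Real.sqrt (kA (P χ))) - (kep (kT (P χ) (Real.sqrt (kA (P χ0)) * (2 * Real.pi * m) /
        Real.sqrt (kA (P χ)))) (Q χ)).1)
        ((c : ℂ) * ((P χ0).2 - (Q χ0).2) - (D : ℂ) * (Q χ0).2) χ0) ∧
    HasDerivAt (fun τ => kX (P χ0) (τ / Real.sqrt (kA (P χ0))) -
        (kep (kT (P χ0) (τ / Real.sqrt (kA (P χ0)))) (Q χ0)).1)
        ((r : ℂ) * ((P χ0).2 - (Q χ0).2)) (Real.sqrt (kA (P χ0)) * (2 * Real.pi * m)) := by
  have hrC : (r : ℂ) ≠ 0 := by exact_mod_cast hr.ne'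
  have hkr : kr (P χ0) = r := by
    rw [kr, hP1, Complex.norm_real, Real.norm_of_nonneg hr.le]
  have hP0 : (P χ0).1 ≠ 0 := by rw [hP1]; exact hrC
  have hA : 0 < kA (P χ0) := kA_pos hn
  have hsA : 0 < Real.sqrt (kA (P χ0)) := Real.sqrt_pos.mpr hA
  have hs0 : Real.sqrt (kA (P χ0)) * (2 * Real.pi * m) / Real.sqrt (kA (P χ0)) =
      2 * Real.pi * m := by field_simp
  -- smoothness of the curves
  have hPd : HasDerivAt P (0, P') χ0 := by
    have e : P = fun χ => ((r : ℂ), (P χ).2) := by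
      funext χ; exact Prod.ext (hP1 χ) rfl
    rw [e]
    exact (hasDerivAt_const χ0 (r : ℂ)).prodMk hP
  have hQd : HasDerivAt Q (0, Q') χ0 := by
    have e : Q = fun χ => ((r : ℂ), (Q χ).2) := by
      funext χ; exact Prod.ext (hQ1 χ) rfl
    rw [e]
    exact (hasDerivAt_const χ0 (r : ℂ)).prodMk hQ
  obtain ⟨h', hh⟩ := qa5_kh hP1 hP
  have hAd : ∃ A', HasDerivAt (fun χ => kA (P χ)) A' χ0 := by
    have hne : 2 * kh' (P χ0) ≠ 0 := by nlinarith [hn]
    exact ⟨_, (hasDerivAt_const χ0 (-1 : ℝ)).div (hh.const_mul 2) hne⟩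
  obtain ⟨A', hAd⟩ := hAd
  have hsd : ∃ s', HasDerivAt (fun χ => Real.sqrt (kA (P χ0)) * (2 * Real.pi * m) /
      Real.sqrt (kA (P χ))) s' χ0 := ⟨_, (hasDerivAt_const χ0
        (Real.sqrt (kA (P χ0)) * (2 * Real.pi * m))).div (hAd.sqrt hA.ne') hsA.ne'⟩
  obtain ⟨s', hsd⟩ := hsd
  have hopen : {p : KS × ℝ | kh' p.1 < 0 ∧ p.1.1 ≠ 0} ∈ 𝓝 (P χ0, 2 * Real.pi * (m : ℝ)) :=
    (isOpen_neg.preimage continuous_fst).mem_nhds ⟨hn, hP0⟩
  -- position of the regularized body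
  have hX : HasFDerivAt (fun p : KS × ℝ => kX p.1 p.2) (fderiv ℝ (fun p : KS × ℝ => kX p.1 p.2)
      (P χ0, 2 * Real.pi * (m : ℝ))) (P χ0, 2 * Real.pi * (m : ℝ)) :=
    ((kX_smooth.contDiffAt hopen).differentiableAt (by simp)).hasFDerivAt
  set LX := fderiv ℝ (fun p : KS × ℝ => kX p.1 p.2) (P χ0, 2 * Real.pi * (m : ℝ)) with hLX
  have hX1 : LX ((0, P'), 0) = 0 := by
    have h1 := hX.comp_hasDerivAt χ0 (hPd.prodMk (hasDerivAt_const χ0 (2 * Real.pi * (m : ℝ))))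
    have h2 : ((fun p : KS × ℝ => kX p.1 p.2) ∘ fun χ => (P χ, 2 * Real.pi * (m : ℝ))) =
        fun _ => (r : ℂ) := by
      funext χ
      change kX (P χ) (2 * Real.pi * m) = r
      rw [qa5_kX_per, hP1]
    rw [h2] at h1
    exact h1.unique (hasDerivAt_const χ0 (r : ℂ))
  have hX2 : LX (0, 1) = (Real.sqrt (kA (P χ0)) * r : ℝ) * (P χ0).2 := by
    have h1 := hX.comp_hasDerivAt (2 * Real.pi * (m : ℝ))
      ((hasDerivAt_const (2 * Real.pi * (m : ℝ)) (P χ0)).prodMk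
        (hasDerivAt_id (2 * Real.pi * (m : ℝ))))
    have h2 := qa5_kX_s (P χ0) m
    rw [hkr] at h2
    exact h1.unique h2
  have hX3 : HasDerivAt (fun χ => kX (P χ) (Real.sqrt (kA (P χ0)) * (2 * Real.pi * m) /
        Real.sqrt (kA (P χ)))) ((s' : ℂ) * ((Real.sqrt (kA (P χ0)) * r : ℝ) * (P χ0).2)) χ0 := by
    have h0 : HasFDerivAt (fun p : KS × ℝ => kX p.1 p.2) LX
        ((fun χ => (P χ, Real.sqrt (kA (P χ0)) * (2 * Real.pi * m) / Real.sqrt (kA (P χ)))) χ0) := by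
      change HasFDerivAt _ LX (P χ0, Real.sqrt (kA (P χ0)) * (2 * Real.pi * m) /
        Real.sqrt (kA (P χ0)))
      rw [hs0]; exact hX
    have h1 := h0.comp_hasDerivAt χ0 (hPd.prodMk hsd)
    have h2 : (((0, P'), s') : KS × ℝ) = ((0, P'), 0) + s' • (0, 1) := by
      ext <;> simp
    rw [h2, map_add, map_smul, hX1, hX2, zero_add, Complex.real_smul] at h1
    exact h1
  -- time
  have hT : HasFDerivAt (fun p : KS × ℝ => kT p.1 p.2) (fderiv ℝ (fun p : KS × ℝ => kT p.1 p.2)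
      (P χ0, 2 * Real.pi * (m : ℝ))) (P χ0, 2 * Real.pi * (m : ℝ)) :=
    ((kT_smooth.contDiffAt hopen).differentiableAt (by simp)).hasFDerivAt
  set LT := fderiv ℝ (fun p : KS × ℝ => kT p.1 p.2) (P χ0, 2 * Real.pi * (m : ℝ)) with hLT
  have hT1 : HasDerivAt (fun χ => (m : ℝ) * kPer (P χ)) (LT ((0, P'), 0)) χ0 := by
    have h1 := hT.comp_hasDerivAt χ0 (hPd.prodMk (hasDerivAt_const χ0 (2 * Real.pi * (m : ℝ))))
    have h2 : ((fun p : KS × ℝ => kT p.1 p.2) ∘ fun χ => (P χ, 2 * Real.pi * (m : ℝ))) =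
        fun χ => (m : ℝ) * kPer (P χ) := by
      funext χ
      change kT (P χ) (2 * Real.pi * m) = m * kPer (P χ)
      rw [qa5_kT_per]
    rw [h2] at h1
    exact h1
  have hT2 : LT (0, 1) = Real.sqrt (kA (P χ0)) * r := by
    have h1 := hT.comp_hasDerivAt (2 * Real.pi * (m : ℝ))
      ((hasDerivAt_const (2 * Real.pi * (m : ℝ)) (P χ0)).prodMk
        (hasDerivAt_id (2 * Real.pi * (m : ℝ))))
    have h2 := kT_deriv hn (2 * Real.pi * (m : ℝ))
    rw [qa5_kR_per, hkr] at h2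
    exact h1.unique h2
  have hT3 : HasDerivAt (fun χ => kT (P χ) (Real.sqrt (kA (P χ0)) * (2 * Real.pi * m) /
        Real.sqrt (kA (P χ)))) (LT ((0, P'), 0) + s' * (Real.sqrt (kA (P χ0)) * r)) χ0 := by
    have h0 : HasFDerivAt (fun p : KS × ℝ => kT p.1 p.2) LT
        ((fun χ => (P χ, Real.sqrt (kA (P χ0)) * (2 * Real.pi * m) / Real.sqrt (kA (P χ)))) χ0) := by
      change HasFDerivAt _ LT (P χ0, Real.sqrt (kA (P χ0)) * (2 * Real.pi * m) /
        Real.sqrt (kA (P χ0)))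
      rw [hs0]; exact hT
    have h1 := h0.comp_hasDerivAt χ0 (hPd.prodMk hsd)
    have h2 : (((0, P'), s') : KS × ℝ) = ((0, P'), 0) + s' • (0, 1) := by
      ext <;> simp
    rw [h2, map_add, map_smul, hT2, smul_eq_mul] at h1
    exact h1
  have hT4 : HasDerivAt (fun χ => kT (P χ) (Real.sqrt (kA (P χ0)) * (2 * Real.pi * m) /
        Real.sqrt (kA (P χ))) - m' * kPer (Q χ)) (D + s' * (Real.sqrt (kA (P χ0)) * r)) χ0 := by
    have h1 := (hT3.sub hT1).add hD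
    have e : (fun χ => kT (P χ) (Real.sqrt (kA (P χ0)) * (2 * Real.pi * m) /
        Real.sqrt (kA (P χ))) - m' * kPer (Q χ)) = fun χ => (kT (P χ) (Real.sqrt (kA (P χ0)) *
        (2 * Real.pi * m) / Real.sqrt (kA (P χ))) - m * kPer (P χ)) +
        (m * kPer (P χ) - m' * kPer (Q χ)) := by
      funext χ; ring
    rw [e]
    have e2 : D + s' * (Real.sqrt (kA (P χ0)) * r) = LT ((0, P'), 0) +
        s' * (Real.sqrt (kA (P χ0)) * r) - LT ((0, P'), 0) + D := by ring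
    rw [e2]
    exact h1
  have hT5 : kT (P χ0) (Real.sqrt (kA (P χ0)) * (2 * Real.pi * m) /
        Real.sqrt (kA (P χ0))) - m' * kPer (Q χ0) = 0 := by
    rw [hs0, qa5_kT_per, hper, sub_self]
  -- the other body
  have hopen2 : {p : ℝ × KS | Ell p.2} ∈ 𝓝 ((0 : ℝ), Q χ0) :=
    (isOpen_ell.preimage continuous_snd).mem_nhds he
  have hK : HasFDerivAt (fun p : ℝ × KS => kep p.1 p.2) (fderiv ℝ (fun p : ℝ × KS => kep p.1 p.2)
      (0, Q χ0)) (0, Q χ0) :=
    ((kep_smooth.contDiffAt hopen2).differentiableAt (by simp)).hasFDerivAt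
  set LK := fderiv ℝ (fun p : ℝ × KS => kep p.1 p.2) (0, Q χ0) with hLK
  have hev : ∀ᶠ χ in 𝓝 χ0, Ell (Q χ) :=
    hQd.continuousAt.eventually (isOpen_ell.mem_nhds he)
  have hK1 : LK (0, (0, Q')) = (0, Q') := by
    have h1 := hK.comp_hasDerivAt χ0 ((hasDerivAt_const χ0 (0 : ℝ)).prodMk hQd)
    refine h1.unique (hQd.congr_of_eventuallyEq ?_)
    filter_upwards [hev] with χ hχ
    exact kep_zero hχ
  have hK2 : (LK (1, 0)).1 = (Q χ0).2 := by
    have h1 := hK.comp_hasDerivAt (0 : ℝ)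
      ((hasDerivAt_id (0 : ℝ)).prodMk (hasDerivAt_const (0 : ℝ) (Q χ0)))
    have h2 := kep_ode he 0
    rw [kep_zero he] at h2
    have h3 := h1.unique h2
    rw [h3]
  have hK3 : HasDerivAt (fun χ => (kep (kT (P χ) (Real.sqrt (kA (P χ0)) * (2 * Real.pi * m) /
        Real.sqrt (kA (P χ)))) (Q χ)).1)
        ((D + s' * (Real.sqrt (kA (P χ0)) * r) : ℝ) * (Q χ0).2) χ0 := by
    have h0 : HasFDerivAt (fun p : ℝ × KS => kep p.1 p.2) LK
        ((fun χ => (kT (P χ) (Real.sqrt (kA (P χ0)) * (2 * Real.pi * m) /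
          Real.sqrt (kA (P χ))) - m' * kPer (Q χ), Q χ)) χ0) := by
      change HasFDerivAt _ LK (kT (P χ0) (Real.sqrt (kA (P χ0)) * (2 * Real.pi * m) /
          Real.sqrt (kA (P χ0))) - m' * kPer (Q χ0), Q χ0)
      rw [hT5]; exact hK
    have h1 := h0.comp_hasDerivAt χ0 (hT4.prodMk hQd)
    have h2 : (((D + s' * (Real.sqrt (kA (P χ0)) * r)), (0, Q')) : ℝ × KS) =
        (D + s' * (Real.sqrt (kA (P χ0)) * r)) • (1, 0) + (0, (0, Q')) := by
      ext <;> simp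
    rw [h2, map_add, map_smul, hK1] at h1
    have h3 := qa5_fst h1
    have h4 : ((D + s' * (Real.sqrt (kA (P χ0)) * r)) • LK (1, 0) + ((0, Q') : KS)).1 =
        (D + s' * (Real.sqrt (kA (P χ0)) * r) : ℝ) * (Q χ0).2 := by
      rw [Prod.fst_add, Prod.smul_fst, hK2, Complex.real_smul]
      simp
    rw [h4] at h3
    refine h3.congr_of_eventuallyEq ?_
    filter_upwards [hev] with χ hχ
    have h5 := kep_per hχ (kT (P χ) (Real.sqrt (kA (P χ0)) * (2 * Real.pi * m) /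
          Real.sqrt (kA (P χ))) - m' * kPer (Q χ)) m'
    have h6 : kT (P χ) (Real.sqrt (kA (P χ0)) * (2 * Real.pi * m) /
          Real.sqrt (kA (P χ))) - m' * kPer (Q χ) + kPer (Q χ) * ((m' : ℤ) : ℝ) =
        kT (P χ) (Real.sqrt (kA (P χ0)) * (2 * Real.pi * m) / Real.sqrt (kA (P χ))) := by
      push_cast; ring
    rw [h6] at h5
    rw [h5]
    rfl
  refine ⟨⟨s' * (Real.sqrt (kA (P χ0)) * r), ?_⟩, ?_⟩
  · have h1 := hX3.sub hK3
    have e : ((s' * (Real.sqrt (kA (P χ0)) * r) : ℝ) : ℂ) * ((P χ0).2 - (Q χ0).2) -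
        (D : ℂ) * (Q χ0).2 = (s' : ℂ) * ((Real.sqrt (kA (P χ0)) * r : ℝ) * (P χ0).2) -
        ((D + s' * (Real.sqrt (kA (P χ0)) * r) : ℝ) : ℂ) * (Q χ0).2 := by
      push_cast; ring
    rw [e]
    exact h1
  · have hd : HasDerivAt (fun τ : ℝ => τ / Real.sqrt (kA (P χ0))) (1 / Real.sqrt (kA (P χ0)))
        (Real.sqrt (kA (P χ0)) * (2 * Real.pi * m)) := (hasDerivAt_id _).div_const _
    have h1 : HasDerivAt (fun τ => kX (P χ0) (τ / Real.sqrt (kA (P χ0))))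
        ((1 / Real.sqrt (kA (P χ0))) • ((Real.sqrt (kA (P χ0)) * kr (P χ0) : ℝ) * (P χ0).2))
        (Real.sqrt (kA (P χ0)) * (2 * Real.pi * m)) := by
      have h3 : HasDerivAt (kX (P χ0)) ((Real.sqrt (kA (P χ0)) * kr (P χ0) : ℝ) * (P χ0).2)
          ((fun τ : ℝ => τ / Real.sqrt (kA (P χ0))) (Real.sqrt (kA (P χ0)) *
            (2 * Real.pi * m))) := by
        change HasDerivAt _ _ (Real.sqrt (kA (P χ0)) * (2 * Real.pi * m) / Real.sqrt (kA (P χ0)))
        rw [hs0]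
        exact qa5_kX_s (P χ0) m
      exact HasDerivAt.scomp (h := fun τ : ℝ => τ / Real.sqrt (kA (P χ0))) _ h3 hd
    have h2 : HasDerivAt (fun τ => kT (P χ0) (τ / Real.sqrt (kA (P χ0))))
        (r) (Real.sqrt (kA (P χ0)) * (2 * Real.pi * m)) := by
      have h3 : HasDerivAt (kT (P χ0)) (Real.sqrt (kA (P χ0)) * r)
          ((fun τ : ℝ => τ / Real.sqrt (kA (P χ0))) (Real.sqrt (kA (P χ0)) *
            (2 * Real.pi * m))) := by
        change HasDerivAt _ _ (Real.sqrt (kA (P χ0)) * (2 * Real.pi * m) / Real.sqrt (kA (P χ0)))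
        rw [hs0]
        have h4 := kT_deriv hn (2 * Real.pi * (m : ℝ))
        rw [qa5_kR_per, hkr] at h4
        exact h4
      have h5 := HasDerivAt.comp (h := fun τ : ℝ => τ / Real.sqrt (kA (P χ0))) _ h3 hd
      have e : Real.sqrt (kA (P χ0)) * r * (1 / Real.sqrt (kA (P χ0))) = r := by field_simp
      rw [e] at h5
      exact h5
    have h3 : HasDerivAt (fun τ => (kep (kT (P χ0) (τ / Real.sqrt (kA (P χ0)))) (Q χ0)).1)
        (r • (Q χ0).2) (Real.sqrt (kA (P χ0)) * (2 * Real.pi * m)) := by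
      have h4 : kep (m * kPer (P χ0)) (Q χ0) = Q χ0 := by
        have h5 := kep_per he 0 m'
        rw [kep_zero he, zero_add] at h5
        rw [hper, mul_comm]
        exact_mod_cast h5
      have h5 : HasDerivAt (fun t => (kep t (Q χ0)).1) (Q χ0).2
          (kT (P χ0) (Real.sqrt (kA (P χ0)) * (2 * Real.pi * m) / Real.sqrt (kA (P χ0)))) := by
        rw [hs0, qa5_kT_per]
        have h6 := qa5_fst (kep_ode he (m * kPer (P χ0)))
        simp only [h4] at h6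
        exact h6
      exact HasDerivAt.scomp (h := fun τ : ℝ => kT (P χ0) (τ / Real.sqrt (kA (P χ0)))) _ h5 h2
    have h4 := h1.sub h3
    have e : (r : ℂ) * ((P χ0).2 - (Q χ0).2) =
        (1 / Real.sqrt (kA (P χ0))) • (((Real.sqrt (kA (P χ0)) * kr (P χ0) : ℝ) : ℂ) * (P χ0).2) -
          r • (Q χ0).2 := by
      rw [hkr, Complex.real_smul, Complex.real_smul]
      have hc : ((Real.sqrt (kA (P χ0)) : ℝ) : ℂ) ≠ 0 := by exact_mod_cast hsA.ne'
      push_cast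
      field_simp
    rw [e]
    exact h4

/-- derivative of the period, as a function of the energy -/
theorem qa5_kPer {P : ℝ → KS} {χ0 h' : ℝ} (hn : kh' (P χ0) < 0)
    (hh : HasDerivAt (fun χ => kh' (P χ)) h' χ0) :
    HasDerivAt (fun χ => kPer (P χ)) (-(3 / 2) * (kPer (P χ0) * h' / kh' (P χ0))) χ0 := by
  have hne : 2 * kh' (P χ0) ≠ 0 := by nlinarith [hn]
  have hne' : kh' (P χ0) ≠ 0 := hn.ne
  have hA : 0 < kA (P χ0) := kA_pos hn
  have h1 : HasDerivAt (fun χ => kA (P χ)) (-(kA (P χ0) * h' / kh' (P χ0))) χ0 := by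
    have h2 := (hasDerivAt_const χ0 (-1 : ℝ)).div (hh.const_mul 2) hne
    have e : -(kA (P χ0) * h' / kh' (P χ0)) =
        (0 * (2 * kh' (P χ0)) - -1 * (2 * h')) / (2 * kh' (P χ0)) ^ 2 := by
      rw [kA]; field_simp; ring
    rw [e]
    exact h2
  have h2 := (h1.const_mul (2 * Real.pi)).mul (h1.sqrt hA.ne')
  have e : -(3 / 2) * (kPer (P χ0) * h' / kh' (P χ0)) =
      2 * Real.pi * -(kA (P χ0) * h' / kh' (P χ0)) * Real.sqrt (kA (P χ0)) +
      2 * Real.pi * kA (P χ0) * (-(kA (P χ0) * h' / kh' (P χ0)) /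
        (2 * Real.sqrt (kA (P χ0)))) := by
    have hs : Real.sqrt (kA (P χ0)) ≠ 0 := (Real.sqrt_pos.mpr hA).ne'
    have hs2 : kA (P χ0) = Real.sqrt (kA (P χ0)) ^ 2 := (Real.sq_sqrt hA.le).symm
    rw [kPer]
    set q := Real.sqrt (kA (P χ0)) with hq
    rw [hs2]
    field_simp
    ring
  rw [e]
  exact h2

theorem t_det_pr (C : ℝ) (hC : 0 < C ∧ C ≤ 1) (i : Fin 2) (X : Pl) (χ : ℝ) (K n : ℕ) (hK : 0 < K)
    (hn : 0 < n) (hX : X ∈ interior (CD C)) (h3 : kh' (z3 C X χ) < 0) (h2 : kh' (z2 C X χ) < 0)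
    (hres : K * kPer (z3 C X χ) = n * kPer (z2 C X χ)) (hV : zX C X χ ≠ 0)
    (hQ : LQ C i X χ ≠ 0) :
    ((starRingEnd ℂ) (deriv (fun χ' => lcX (Zd i (limD C X χ') (T0 C i X χ K n))) χ) *
      deriv (fun τ => lcX (Zd i (limD C X χ) τ)) (T0 C i X χ K n)).im ≠ 0 := by
  have hX0 : X ∈ CD C := interior_subset hX
  have hr : 0 < zr C X := (cd_facts hC hX0).1
  have hrC : ((zr C X : ℝ) : ℂ) ≠ 0 := by exact_mod_cast hr.ne'
  have hma : ma + mb = 1 := by norm_num [ma, mb]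
  have hma0 : 0 < ma := by norm_num [ma]
  have hmb0 : 0 < mb := by norm_num [mb]
  have hCX : C * zX C X χ ≠ 0 := mul_ne_zero hC.1.ne' hV
  -- derivatives of the velocities
  have hexp : HasDerivAt (fun χ : ℝ => zw C X χ)
      ((zk C X : ℂ) * (Complex.exp ((χ : ℂ) * Complex.I) * (1 * Complex.I))) χ := by
    have h1 : HasDerivAt (fun χ : ℝ => (χ : ℂ) * Complex.I) (1 * Complex.I) χ :=
      (Complex.ofRealCLM.hasDerivAt (x := χ)).mul_const _
    exact (h1.cexp).const_mul _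
  have hv3 : HasDerivAt (fun χ => (z3 C X χ).2) _ χ := (hexp.const_mul (mb : ℂ)).const_add _
  have hv2 : HasDerivAt (fun χ => (z2 C X χ).2) _ χ := (hexp.const_mul (ma : ℂ)).const_sub _
  -- energies
  have hd := (cd_en hC hX0 χ).2.2
  have hh3 : HasDerivAt (fun χ => kh' (z3 C X χ)) (mb * (C * zX C X χ)) χ := by
    have e : (fun χ => kh' (z3 C X χ)) = fun χ =>
        E0 + mb * (kh' (z3 C X χ) - kh' (z2 C X χ)) := by
      funext χ'
      have h4 := (cd_en hC hX0 χ').1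
      have h5 : ma = 1 - mb := by linarith
      rw [h5] at h4
      linarith
    rw [e]
    exact (hd.const_mul mb).const_add E0
  have hh2 : HasDerivAt (fun χ => kh' (z2 C X χ)) (-(ma * (C * zX C X χ))) χ := by
    have e : (fun χ => kh' (z2 C X χ)) = fun χ =>
        E0 - ma * (kh' (z3 C X χ) - kh' (z2 C X χ)) := by
      funext χ'
      have h4 := (cd_en hC hX0 χ').1
      have h5 : mb = 1 - ma := by linarith
      rw [h5] at h4
      linarith
    rw [e]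
    exact (hd.const_mul ma).const_sub E0
  have hD3 := qa5_kPer (P := fun χ => z3 C X χ) h3 hh3
  have hD2 := qa5_kPer (P := fun χ => z2 C X χ) h2 hh2
  have hD := (hD3.const_mul (K : ℝ)).sub (hD2.const_mul (n : ℝ))
  set D : ℝ := (K : ℝ) * (-(3 / 2) * (kPer (z3 C X χ) * (mb * (C * zX C X χ)) / kh' (z3 C X χ))) -
    (n : ℝ) * (-(3 / 2) * (kPer (z2 C X χ) * (-(ma * (C * zX C X χ))) / kh' (z2 C X χ))) with hDdef
  have hper3 : 0 < kPer (z3 C X χ) := by
    have := kA_pos h3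
    rw [kPer]; positivity
  have hDne : D ≠ 0 := by
    have hKp : (0 : ℝ) < K := by exact_mod_cast hK
    have e : D = -(3 / 2) * (K * kPer (z3 C X χ)) * (C * zX C X χ) *
        (mb / kh' (z3 C X χ) + ma / kh' (z2 C X χ)) := by
      have h6 : (n : ℝ) * (-(3 / 2) * (kPer (z2 C X χ) * (-(ma * (C * zX C X χ))) /
          kh' (z2 C X χ))) = (n * kPer (z2 C X χ)) * ((3 / 2) * (ma * (C * zX C X χ)) /
          kh' (z2 C X χ)) := by ring
      rw [hDdef, h6, ← hres]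
      ring
    rw [e]
    have h7 : mb / kh' (z3 C X χ) + ma / kh' (z2 C X χ) < 0 :=
      add_neg (div_neg_of_pos_of_neg hmb0 h3) (div_neg_of_pos_of_neg hma0 h2)
    exact mul_ne_zero (mul_ne_zero (mul_ne_zero (by norm_num) (mul_pos hKp hper3).ne') hCX) h7.ne
  have hcw := (z_L hr.ne' χ).2.2.1
  -- the algebra
  have halg : ∀ (VP VQ : ℂ) (c D' r : ℝ), D' ≠ 0 → r ≠ 0 → cW' VP VQ ≠ 0 →
      ((starRingEnd ℂ) ((c : ℂ) * (VP - VQ) - (D' : ℂ) * VQ) * ((r : ℂ) * (VP - VQ))).im ≠ 0 := by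
    intro VP VQ c D' r hD' hr' hc
    have e : ((starRingEnd ℂ) ((c : ℂ) * (VP - VQ) - (D' : ℂ) * VQ) *
        ((r : ℂ) * (VP - VQ))).im = D' * r * cW' VP VQ := by
      simp only [cW', map_sub, map_mul, Complex.conj_ofReal, Complex.mul_im, Complex.mul_re,
        Complex.sub_im, Complex.sub_re, Complex.conj_im, Complex.conj_re, Complex.ofReal_re,
        Complex.ofReal_im]
      ring
    rw [e]
    exact mul_ne_zero (mul_ne_zero hD' hr') hc
  -- reduction to the abstract curves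
  have key : ∀ (P Q : ℝ → KS) (m m' : ℕ), (∀ χ, pP i (colD (limD C X χ)) = P χ) →
      (∀ χ, pQ i (colD (limD C X χ)) = Q χ) → (∀ χ, (P χ).1 = (zr C X : ℝ)) →
      (∀ χ, (Q χ).1 = (zr C X : ℝ)) → (∃ P', HasDerivAt (fun χ => (P χ).2) P' χ) →
      (∃ Q', HasDerivAt (fun χ => (Q χ).2) Q' χ) → kh' (P χ) < 0 → Ell (Q χ) →
      (m : ℝ) * kPer (P χ) = m' * kPer (Q χ) →
      (∃ D' : ℝ, D' ≠ 0 ∧ HasDerivAt (fun χ => m * kPer (P χ) - m' * kPer (Q χ)) D' χ) →
      cW' (P χ).2 (Q χ).2 ≠ 0 → T0 C i X χ K n = m * (Real.pi / lzw i (toLC i 0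
        (colD (limD C X χ)))) →
      ((starRingEnd ℂ) (deriv (fun χ' => lcX (Zd i (limD C X χ') (T0 C i X χ K n))) χ) *
        deriv (fun τ => lcX (Zd i (limD C X χ) τ)) (T0 C i X χ K n)).im ≠ 0 := by
    rintro P Q m m' eP eQ hP1 hQ1 ⟨P', hP'⟩ ⟨Q', hQ'⟩ hPn hQe hper ⟨D', hD'0, hD'⟩ hcW hT
    obtain ⟨⟨c, hc⟩, hτ⟩ := qa5_core P Q χ (zr C X) hr P' Q' hP1 hQ1 hP' hQ' hPn hQe m m' hper D'
      hD'
    have hPd : ContinuousAt P χ := by
      have e : P = fun χ => (((zr C X : ℝ) : ℂ), (P χ).2) := by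
        funext χ; exact Prod.ext (hP1 χ) rfl
      rw [e]
      exact continuousAt_const.prodMk hP'.continuousAt
    have hQd : ContinuousAt Q χ := by
      have e : Q = fun χ => (((zr C X : ℝ) : ℂ), (Q χ).2) := by
        funext χ; exact Prod.ext (hQ1 χ) rfl
      rw [e]
      exact continuousAt_const.prodMk hQ'.continuousAt
    have hT0 : T0 C i X χ K n = Real.sqrt (kA (P χ)) * (2 * Real.pi * m) := by
      have h4 : kh' (pP i (colD (limD C X χ))) < 0 := by rw [eP]; exact hPn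
      have h5 : (pP i (colD (limD C X χ))).1 ≠ 0 := by rw [eP, hP1]; exact hrC
      rw [hT, (lz_w i h4 h5).1, eP]
      rw [one_div, div_inv_eq_mul]
      ring
    have hx : ∀ χ', kh' (P χ') < 0 → Ell (Q χ') → ∀ τ, lcX (Zd i (limD C X χ') τ) =
        kX (P χ') (τ / Real.sqrt (kA (P χ'))) -
          (kep (kT (P χ') (τ / Real.sqrt (kA (P χ')))) (Q χ')).1 := by
      intro χ' h4 h5 τ
      have h6 : kh' (pP i (colD (limD C X χ'))) < 0 := by rw [eP]; exact h4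
      have h7 : (pP i (colD (limD C X χ'))).1 ≠ 0 := by rw [eP, hP1]; exact hrC
      have h8 : Ell (pQ i (colD (limD C X χ'))) := by rw [eQ]; exact h5
      rw [Zd, lc_xi i h6 h7 h8 τ, eP, eQ]
    have h9 : HasDerivAt (fun χ' => lcX (Zd i (limD C X χ') (T0 C i X χ K n)))
        ((c : ℂ) * ((P χ).2 - (Q χ).2) - (D' : ℂ) * (Q χ).2) χ := by
      refine hc.congr_of_eventuallyEq ?_
      have e1 : ∀ᶠ χ' in 𝓝 χ, kh' (P χ') < 0 ∧ (P χ').1 ≠ 0 :=
        hPd.eventually (isOpen_neg.mem_nhds ⟨hPn, by rw [hP1]; exact hrC⟩)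
      have e2 : ∀ᶠ χ' in 𝓝 χ, Ell (Q χ') := hQd.eventually (isOpen_ell.mem_nhds hQe)
      filter_upwards [e1, e2] with χ' h10 h11
      rw [hx χ' h10.1 h11, hT0]
    have h10 : HasDerivAt (fun τ => lcX (Zd i (limD C X χ) τ))
        ((zr C X : ℂ) * ((P χ).2 - (Q χ).2)) (T0 C i X χ K n) := by
      rw [hT0]
      refine hτ.congr_of_eventuallyEq (Filter.Eventually.of_forall fun τ => ?_)
      exact hx χ hPn hQe τ
    rw [h9.deriv, h10.deriv]
    exact halg _ _ c D' (zr C X) hD'0 hr.ne' hcW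
  fin_cases i
  · refine key (z3 C X) (z2 C X) K n (fun χ => (z_p C X χ).1) (fun χ => (z_p C X χ).2)
      (fun _ => rfl) (fun _ => rfl) ⟨_, hv3⟩ ⟨_, hv2⟩ h3 ⟨h2, ?_⟩ hres ⟨D, hDne, hD⟩ ?_ ?_
    · exact hQ
    · rw [hcw]; exact hCX
    · simp [T0]
  · refine key (z2 C X) (z3 C X) n K (fun χ => (z_p C X χ).2) (fun χ => (z_p C X χ).1)
      (fun _ => rfl) (fun _ => rfl) ⟨_, hv2⟩ ⟨_, hv3⟩ h2 ⟨h3, ?_⟩ hres.symm ⟨-D, neg_ne_zero.mpr hDne,
        ?_⟩ ?_ ?_
    · exact hQ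
    · have h4 := hD.neg
      refine h4.congr_of_eventuallyEq (Filter.Eventually.of_forall fun χ' => ?_)
      simp
    · have h4 : cW' (z2 C X χ).2 (z3 C X χ).2 = -cW' (z3 C X χ).2 (z2 C X χ).2 := by
        simp only [cW', Complex.mul_im, Complex.conj_re, Complex.conj_im]
        ring
      rw [h4, hcw]; exact neg_ne_zero.mpr hCX
    · simp [T0]

end

end Pool.Agent.HS

namespace Pool.Agent.HS
open Set Filter Topology
open scoped ContDiff

theorem t_det (C : ℝ) (hC : 0 < C ∧ C ≤ 1) (i : Fin 2) (X : Pl) (χ : ℝ) (K n : ℕ) (hK : 0 < K)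
    (hn : 0 < n) (hX : X ∈ interior (CD C)) (h3 : kh' (z3 C X χ) < 0) (h2 : kh' (z2 C X χ) < 0)
    (hres : K * kPer (z3 C X χ) = n * kPer (z2 C X χ)) (hV : zX C X χ ≠ 0)
    (hQ : LQ C i X χ ≠ 0) :
    ((starRingEnd ℂ) (deriv (fun χ' => lcX (Zd i (limD C X χ') (T0 C i X χ K n))) χ) *
      deriv (fun τ => lcX (Zd i (limD C X χ) τ)) (T0 C i X χ K n)).im ≠ 0 :=
  @Pool.Agent.HS.t_det_pr C hC i X χ K n hK hn hX h3 h2 hres hV hQ

end Pool.Agent.HS
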