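import Pool.Agent.Lib_helper60.HSF.D_WZ

/-! # Project HS, part Z, block ZN1: uniform nondegeneracy -/

namespace Pool.Agent.HS

noncomputable section

open Set Filter Topology
open scoped ContDiff

/-- from a nonvanishing determinant on a compact graph to uniform constants -/
theorem nondeg_compact_pr (f : (ℝ × ℝ) × ℝ × ℝ → ℂ) (U : Set ((ℝ × ℝ) × ℝ × ℝ)) (hU : IsOpen U)
    (hf : ContDiffOn ℝ 2 f U) (O : Set (ℝ × ℝ)) (hO : IsCompact O) (χ0 τ0 : ℝ × ℝ → ℝ)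
    (hχ : ContinuousOn χ0 O) (hτ : ContinuousOn τ0 O) (hOU : ∀ X ∈ O, (X, χ0 X, τ0 X) ∈ U)
    (hz : ∀ X ∈ O, f (X, χ0 X, τ0 X) = 0)
    (hd : ∀ X ∈ O, ((starRingEnd ℂ) (deriv (fun χ => f (X, χ, τ0 X)) (χ0 X)) *
      deriv (fun τ => f (X, χ0 X, τ)) (τ0 X)).im ≠ 0) :
    ∃ c L ρ : ℝ, 0 < c ∧ 0 < ρ ∧ ∀ X ∈ O, ∃ e₁ e₂ : ℂ,
      c ≤ |((starRingEnd ℂ) e₁ * e₂).im| ∧ ‖e₁‖ ≤ L ∧ ‖e₂‖ ≤ L ∧
      ∀ χ τ, |χ - χ0 X| ≤ ρ → |τ - τ0 X| ≤ ρ →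
        ‖f (X, χ, τ) - (e₁ * (χ - χ0 X : ℝ) + e₂ * (τ - τ0 X : ℝ))‖ ≤
          L * (|χ - χ0 X| + |τ - τ0 X|) ^ 2 := by
  rcases O.eq_empty_or_nonempty with hOe | hOn
  · subst hOe
    exact ⟨1, 1, 1, one_pos, one_pos, fun X hX => absurd hX (notMem_empty X)⟩
  set g : ℝ × ℝ → (ℝ × ℝ) × ℝ × ℝ := fun X => (X, χ0 X, τ0 X) with hg
  have hgc : ContinuousOn g O := continuousOn_id.prodMk (hχ.prodMk hτ)
  have hΓ : IsCompact (g '' O) := hO.image_of_continuousOn hgc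
  have hΓU : g '' O ⊆ U := by
    rintro _ ⟨X, hX, rfl⟩
    exact hOU X hX
  obtain ⟨ρ, hρ, hK⟩ := hΓ.exists_cthickening_subset_open hU hΓU
  have hKc : IsCompact (Metric.cthickening ρ (g '' O)) := hΓ.cthickening
  -- derivatives
  have hD : ContDiffOn ℝ 1 (fderiv ℝ f) U := hf.fderiv_of_isOpen hU (by norm_num)
  have hD2 : ContinuousOn (fderiv ℝ (fderiv ℝ f)) U :=
    hD.continuousOn_fderiv_of_isOpen hU le_rfl
  have hDc : ContinuousOn (fderiv ℝ f) U := hD.continuousOn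
  have hD2n : ContinuousOn (fun x => ‖fderiv ℝ (fderiv ℝ f) x‖) U :=
    ContinuousOn.norm (E := ((ℝ × ℝ) × ℝ × ℝ) →L[ℝ] ((ℝ × ℝ) × ℝ × ℝ) →L[ℝ] ℂ) hD2
  obtain ⟨M, hM'⟩ := hKc.bddAbove_image (hD2n.mono hK)
  have hM : ∀ x ∈ Metric.cthickening ρ (g '' O), ‖fderiv ℝ (fderiv ℝ f) x‖ ≤ M :=
    fun x hx => hM' (mem_image_of_mem _ hx)
  have hdf : ∀ x ∈ U, DifferentiableAt ℝ f x := fun x hx =>
    ((hf.differentiableOn (by norm_num)) x hx).differentiableAt (hU.mem_nhds hx)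
  have hdD : ∀ x ∈ U, DifferentiableAt ℝ (fderiv ℝ f) x := fun x hx =>
    ((hD.differentiableOn (by norm_num)) x hx).differentiableAt (hU.mem_nhds hx)
  -- the partial derivatives
  set e1 : ℝ × ℝ → ℂ := fun X => fderiv ℝ f (g X) (0, 1, 0) with he1
  set e2 : ℝ × ℝ → ℂ := fun X => fderiv ℝ f (g X) (0, 0, 1) with he2
  have hDg : ContinuousOn (fun X => fderiv ℝ f (g X)) O :=
    hDc.comp hgc (fun X hX => hOU X hX)
  have he1c : ContinuousOn e1 O := hDg.clm_apply continuousOn_const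
  have he2c : ContinuousOn e2 O := hDg.clm_apply continuousOn_const
  have hd1 : ∀ X ∈ O, deriv (fun χ => f (X, χ, τ0 X)) (χ0 X) = e1 X := by
    intro X hX
    have h1 : HasDerivAt (fun χ : ℝ => ((X, χ, τ0 X) : (ℝ × ℝ) × ℝ × ℝ)) (0, 1, 0) (χ0 X) :=
      (hasDerivAt_const _ X).prodMk ((hasDerivAt_id _).prodMk (hasDerivAt_const _ (τ0 X)))
    have h2 : HasFDerivAt f (fderiv ℝ f (g X)) (X, χ0 X, τ0 X) := (hdf _ (hOU X hX)).hasFDerivAt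
    exact (h2.comp_hasDerivAt (χ0 X) h1).deriv
  have hd2 : ∀ X ∈ O, deriv (fun τ => f (X, χ0 X, τ)) (τ0 X) = e2 X := by
    intro X hX
    have h1 : HasDerivAt (fun τ : ℝ => ((X, χ0 X, τ) : (ℝ × ℝ) × ℝ × ℝ)) (0, 0, 1) (τ0 X) :=
      (hasDerivAt_const _ X).prodMk ((hasDerivAt_const _ (χ0 X)).prodMk (hasDerivAt_id _))
    have h2 : HasFDerivAt f (fderiv ℝ f (g X)) (X, χ0 X, τ0 X) := (hdf _ (hOU X hX)).hasFDerivAt
    exact (h2.comp_hasDerivAt (τ0 X) h1).deriv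
  -- the determinant
  have hdc : ContinuousOn (fun X => |((starRingEnd ℂ) (e1 X) * e2 X).im|) O := by
    have h1 : ContinuousOn (fun X => (starRingEnd ℂ) (e1 X)) O :=
      Complex.continuous_conj.comp_continuousOn he1c
    exact (Complex.continuous_im.comp_continuousOn (h1.mul he2c)).abs
  obtain ⟨X₀, hX₀, hmin⟩ := hO.exists_isMinOn hOn hdc
  obtain ⟨L1, hL1⟩ := hO.exists_bound_of_continuousOn he1c
  obtain ⟨L2, hL2⟩ := hO.exists_bound_of_continuousOn he2c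
  set L : ℝ := max (max L1 L2) (max M 0) with hL
  have hL0 : 0 ≤ L := (le_max_right M 0).trans (le_max_right _ _)
  refine ⟨|((starRingEnd ℂ) (e1 X₀) * e2 X₀).im|, L, ρ, ?_, hρ, ?_⟩
  · rw [abs_pos]
    have := hd X₀ hX₀
    rwa [hd1 X₀ hX₀, hd2 X₀ hX₀] at this
  intro X hX
  refine ⟨e1 X, e2 X, hmin hX, (hL1 X hX).trans ((le_max_left _ _).trans (le_max_left _ _)),
    (hL2 X hX).trans ((le_max_right _ _).trans (le_max_left _ _)), ?_⟩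
  intro χ τ hχ1 hτ1
  have hball : Metric.closedBall (g X) ρ ⊆ Metric.cthickening ρ (g '' O) :=
    Metric.closedBall_subset_cthickening (mem_image_of_mem g hX) ρ
  -- the derivative is Lipschitz on the ball
  have hlip : ∀ x ∈ Metric.closedBall (g X) ρ,
      ‖fderiv ℝ f x - fderiv ℝ f (g X)‖ ≤ L * ‖x - g X‖ := by
    intro x hx
    refine (convex_closedBall (g X) ρ).norm_image_sub_le_of_norm_fderiv_le (𝕜 := ℝ)
      (fun y hy => hdD y (hK (hball hy))) (fun y hy => ?_)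
      (Metric.mem_closedBall_self hρ.le) hx
    exact (hM y (hball hy)).trans ((le_max_left _ _).trans (le_max_right _ _))
  set y : (ℝ × ℝ) × ℝ × ℝ := (X, χ, τ) with hy
  have hyg : y - g X = (0, χ - χ0 X, τ - τ0 X) := by
    rw [hy, hg]
    simp
  have hyn : ‖y - g X‖ = max |χ - χ0 X| |τ - τ0 X| := by
    rw [hyg]
    show max ‖(0 : ℝ × ℝ)‖ (max ‖χ - χ0 X‖ ‖τ - τ0 X‖) = _
    rw [norm_zero, Real.norm_eq_abs, Real.norm_eq_abs]
    exact max_eq_right ((abs_nonneg _).trans (le_max_left _ _))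
  have hyr : ‖y - g X‖ ≤ ρ := by
    rw [hyn]
    exact max_le hχ1 hτ1
  set r : ℝ := ‖y - g X‖ with hr
  have hr0 : 0 ≤ r := norm_nonneg _
  have hT : ‖f y - f (g X) - fderiv ℝ f (g X) (y - g X)‖ ≤ (L * r) * ‖y - g X‖ := by
    refine (convex_closedBall (g X) r).norm_image_sub_le_of_norm_hasFDerivWithin_le'
      (f' := fderiv ℝ f) (fun x hx => ?_) (fun x hx => ?_) (Metric.mem_closedBall_self hr0) ?_
    · have hx' : x ∈ Metric.closedBall (g X) ρ := Metric.closedBall_subset_closedBall hyr hx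
      exact (hdf x (hK (hball hx'))).hasFDerivAt.hasFDerivWithinAt
    · have hx' : x ∈ Metric.closedBall (g X) ρ := Metric.closedBall_subset_closedBall hyr hx
      refine (hlip x hx').trans ?_
      have : ‖x - g X‖ ≤ r := by
        rw [← dist_eq_norm]
        exact hx
      exact mul_le_mul_of_nonneg_left this hL0
    · rw [Metric.mem_closedBall, dist_eq_norm]
  have hlin : fderiv ℝ f (g X) (y - g X) =
      e1 X * ((χ - χ0 X : ℝ) : ℂ) + e2 X * ((τ - τ0 X : ℝ) : ℂ) := by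
    have h1 : y - g X = (χ - χ0 X) • ((0, 1, 0) : (ℝ × ℝ) × ℝ × ℝ) +
        (τ - τ0 X) • ((0, 0, 1) : (ℝ × ℝ) × ℝ × ℝ) := by
      rw [hyg]
      simp
    rw [h1, map_add, map_smul, map_smul, Complex.real_smul, Complex.real_smul]
    simp only [he1, he2]
    ring
  have hz' : f (g X) = 0 := hz X hX
  rw [hz', sub_zero, hlin] at hT
  refine hT.trans ?_
  have hr1 : r ≤ |χ - χ0 X| + |τ - τ0 X| := by
    rw [hyn]
    exact max_le (le_add_of_nonneg_right (abs_nonneg _)) (le_add_of_nonneg_left (abs_nonneg _))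
  calc L * r * r = L * r ^ 2 := by ring
    _ ≤ L * (|χ - χ0 X| + |τ - τ0 X|) ^ 2 :=
        mul_le_mul_of_nonneg_left (pow_le_pow_left₀ hr0 hr1 2) hL0

end

end Pool.Agent.HS

namespace Pool.Agent.HS
open Set Filter Topology
open scoped ContDiff

theorem nondeg_compact (f : (ℝ × ℝ) × ℝ × ℝ → ℂ) (U : Set ((ℝ × ℝ) × ℝ × ℝ)) (hU : IsOpen U)
    (hf : ContDiffOn ℝ 2 f U) (O : Set (ℝ × ℝ)) (hO : IsCompact O) (χ0 τ0 : ℝ × ℝ → ℝ)
    (hχ : ContinuousOn χ0 O) (hτ : ContinuousOn τ0 O) (hOU : ∀ X ∈ O, (X, χ0 X, τ0 X) ∈ U)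
    (hz : ∀ X ∈ O, f (X, χ0 X, τ0 X) = 0)
    (hd : ∀ X ∈ O, ((starRingEnd ℂ) (deriv (fun χ => f (X, χ, τ0 X)) (χ0 X)) *
      deriv (fun τ => f (X, χ0 X, τ)) (τ0 X)).im ≠ 0) :
    ∃ c L ρ : ℝ, 0 < c ∧ 0 < ρ ∧ ∀ X ∈ O, ∃ e₁ e₂ : ℂ,
      c ≤ |((starRingEnd ℂ) e₁ * e₂).im| ∧ ‖e₁‖ ≤ L ∧ ‖e₂‖ ≤ L ∧
      ∀ χ τ, |χ - χ0 X| ≤ ρ → |τ - τ0 X| ≤ ρ →
        ‖f (X, χ, τ) - (e₁ * (χ - χ0 X : ℝ) + e₂ * (τ - τ0 X : ℝ))‖ ≤
          L * (|χ - χ0 X| + |τ - τ0 X|) ^ 2 :=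
  @Pool.Agent.HS.nondeg_compact_pr f U hU hf O hO χ0 τ0 hχ hτ hOU hz hd

end Pool.Agent.HS
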