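import Pool.Agent.Lib_helper60.HSF.D_WA
import Pool.Agent.Lib_helper60.HSF.D_WQ
import Pool.Agent.Lib_helper60.HSF.K_KL1
import Pool.Agent.Lib_helper60.HSF.Z_QA5
import Pool.Agent.Lib_helper60.HSF.K_KA1
import Pool.Agent.Lib_helper60.HSF.Z_QA4
import Pool.Agent.Lib_helper60.HSF.Z_QA3
import Pool.Agent.Lib_helper60.HSF.A_CA
import Pool.Agent.Lib_helper60.HSF.Z_ZN1
import Pool.Agent.Lib_helper60.HSF.Z_QA1
import Pool.Agent.Lib_helper60.HSF.Z_ZA1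
import Pool.Agent.Lib_helper60.HSF.K_KL3
import Pool.Agent.Lib_helper60.HSF.A_CB

namespace Pool.Agent.HS

noncomputable section

open Set Filter Topology
open scoped ContDiff

theorem qa6_kA {y y' : KS} (h : kh' y = kh' y') : kA y = kA y' := by
  unfold kA; rw [h]

theorem qa6_kPer {y y' : KS} (h : kh' y = kh' y') : kPer y = kPer y' := by
  unfold kPer; rw [qa6_kA h]

theorem qa6_pP (C : ℝ) (i : Fin 2) (X : Pl) (χ : ℝ) :
    pP i (colD (limD C X χ)) = (if i = 0 then z3 C X χ else z2 C X χ) ∧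
    pQ i (colD (limD C X χ)) = (if i = 0 then z2 C X χ else z3 C X χ) := by
  obtain ⟨h3, h2⟩ := z_p C X χ
  unfold pP pQ
  rw [h3, h2]
  exact ⟨rfl, rfl⟩

theorem qa6_pP1 (C : ℝ) (i : Fin 2) (X : Pl) (χ : ℝ) :
    (pP i (colD (limD C X χ))).1 = (zr C X : ℂ) := by
  rw [(qa6_pP C i X χ).1]
  by_cases hi : i = 0
  · rw [if_pos hi]; rfl
  · rw [if_neg hi]; rfl

theorem qa6_pPh (C : ℝ) (i : Fin 2) (X : Pl) (χ : ℝ) :
    kh' (pP i (colD (limD C X χ))) = if i = 0 then kh' (z3 C X χ) else kh' (z2 C X χ) := by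
  rw [(qa6_pP C i X χ).1]
  by_cases hi : i = 0
  · rw [if_pos hi, if_pos hi]
  · rw [if_neg hi, if_neg hi]

theorem qa6_pQh (C : ℝ) (i : Fin 2) (X : Pl) (χ : ℝ) :
    kh' (pQ i (colD (limD C X χ))) = if i = 0 then kh' (z2 C X χ) else kh' (z3 C X χ) := by
  rw [(qa6_pP C i X χ).2]
  by_cases hi : i = 0
  · rw [if_pos hi, if_pos hi]
  · rw [if_neg hi, if_neg hi]

theorem qa6_pQL (C : ℝ) (i : Fin 2) (X : Pl) (χ : ℝ) :
    kL (pQ i (colD (limD C X χ))) = LQ C i X χ := by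
  rw [(qa6_pP C i X χ).2]
  unfold LQ
  by_cases hi : i = 0
  · rw [if_pos hi, if_pos hi]
  · rw [if_neg hi, if_neg hi]

theorem qa6_pPneg {C : ℝ} {i : Fin 2} {X : Pl} {χ : ℝ} (h3 : kh' (z3 C X χ) < 0)
    (h2 : kh' (z2 C X χ) < 0) : kh' (pP i (colD (limD C X χ))) < 0 := by
  rw [qa6_pPh]
  by_cases hi : i = 0
  · rw [if_pos hi]; exact h3
  · rw [if_neg hi]; exact h2

theorem qa6_pQneg {C : ℝ} {i : Fin 2} {X : Pl} {χ : ℝ} (h3 : kh' (z3 C X χ) < 0)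
    (h2 : kh' (z2 C X χ) < 0) : kh' (pQ i (colD (limD C X χ))) < 0 := by
  rw [qa6_pQh]
  by_cases hi : i = 0
  · rw [if_pos hi]; exact h2
  · rw [if_neg hi]; exact h3

theorem qa6_lzw {C : ℝ} (i : Fin 2) {X X' : Pl} {χ χ' : ℝ} (hr : 0 < zr C X) (hr' : 0 < zr C X')
    (h3 : kh' (z3 C X χ) < 0) (h2 : kh' (z2 C X χ) < 0)
    (e3 : kh' (z3 C X χ) = kh' (z3 C X' χ')) (e2 : kh' (z2 C X χ) = kh' (z2 C X' χ')) :
    lzw i (toLC i 0 (colD (limD C X χ))) = lzw i (toLC i 0 (colD (limD C X' χ'))) := by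
  have h1 : (pP i (colD (limD C X χ))).1 ≠ 0 := by
    rw [qa6_pP1]; exact_mod_cast hr.ne'
  have h1' : (pP i (colD (limD C X' χ'))).1 ≠ 0 := by
    rw [qa6_pP1]; exact_mod_cast hr'.ne'
  rw [(lz_w i (qa6_pPneg h3 h2) h1).2, (lz_w i (qa6_pPneg (e3 ▸ h3) (e2 ▸ h2)) h1').2, qa6_pPh,
    qa6_pPh, e3, e2]

theorem qa6_lzw_pos {C : ℝ} (i : Fin 2) {X : Pl} {χ : ℝ} (hr : 0 < zr C X)
    (h3 : kh' (z3 C X χ) < 0) (h2 : kh' (z2 C X χ) < 0) :
    0 < lzw i (toLC i 0 (colD (limD C X χ))) := by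
  have h1 : (pP i (colD (limD C X χ))).1 ≠ 0 := by
    rw [qa6_pP1]; exact_mod_cast hr.ne'
  rw [(lz_w i (qa6_pPneg h3 h2) h1).1]
  have := Real.sqrt_pos.2 (kA_pos (qa6_pPneg (i := i) h3 h2))
  positivity

theorem qa6_sm {C : ℝ} (i : Fin 2) {X : Pl} {χ : ℝ} (hr : 0 < zr C X)
    (h3 : kh' (z3 C X χ) < 0) (h2 : kh' (z2 C X χ) < 0) (hQ : LQ C i X χ ≠ 0) :
    limD C X χ ∈ Sm i := by
  refine ⟨?_, qa6_pPneg h3 h2, qa6_pQneg h3 h2, ?_⟩
  · change 0 < ((((chart C X).1 : ℝ) : ℂ)).re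
    rw [Complex.ofReal_re]
    exact hr
  · rw [qa6_pQL]; exact hQ

theorem qa6_lcX : ContDiff ℝ ∞ lcX := by
  have h : ContDiff ℝ ∞ (fun Z : LCS => Z.1 ^ 2 - Z.2.2.1) :=
    (contDiff_fst.pow 2).sub (contDiff_fst.comp (contDiff_snd.comp contDiff_snd))
  exact h

theorem qa6_2 : (2 : WithTop ℕ∞) ≤ ∞ := by
  change ((2 : ℕ∞) : WithTop ℕ∞) ≤ ((⊤ : ℕ∞) : WithTop ℕ∞)
  exact WithTop.coe_le_coe.2 le_top

theorem qa6_cc {E F G : Type*} [NormedAddCommGroup E] [NormedSpace ℝ E] [NormedAddCommGroup F]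
    [NormedSpace ℝ F] [NormedAddCommGroup G] [NormedSpace ℝ G] {f : F → ℝ → G} {T : Set F}
    {S : Set E} {d : E → F} {t : E → ℝ}
    (hf : ContDiffOn ℝ 2 (fun p : F × ℝ => f p.1 p.2) {p | p.1 ∈ T})
    (hd : ContDiffOn ℝ 2 d S) (ht : ContDiffOn ℝ 2 t S) (hm : ∀ p ∈ S, d p ∈ T) :
    ContDiffOn ℝ 2 (fun p => f (d p) (t p)) S := by
  have h := hf.comp (hd.prodMk ht) (fun p hp => hm p hp)
  exact h

/-- composition with the limit trajectory -/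
theorem qa6_comp {E : Type*} [NormedAddCommGroup E] [NormedSpace ℝ E] {i : Fin 2} {S : Set E}
    {d : E → Dt} {t : E → ℝ} (hd : ContDiffOn ℝ 2 d S) (ht : ContDiffOn ℝ 2 t S)
    (hm : ∀ p ∈ S, d p ∈ Sm i) :
    ContDiffOn ℝ 2 (fun p => Zd i (d p) (t p)) S :=
  qa6_cc ((Zd_smooth i).1.of_le qa6_2) hd ht hm

theorem qa6_comp' {E : Type*} [NormedAddCommGroup E] [NormedSpace ℝ E] {i : Fin 2} {S : Set E}
    {d : E → Dt} {t : E → ℝ} (hd : ContDiffOn ℝ 2 d S) (ht : ContDiffOn ℝ 2 t S)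
    (hm : ∀ p ∈ S, d p ∈ Sm i) :
    ContDiffOn ℝ 2 (fun p => lcX (Zd i (d p) (t p))) S := by
  have h1 : ContDiff ℝ 2 lcX := qa6_lcX.of_le qa6_2
  exact h1.comp_contDiffOn (qa6_comp hd ht hm)

theorem qa6_rot (y : St) : rot 1 y = y := by
  unfold rot x3 x2 u3 u2
  simp

theorem qa6_kLc : Continuous kL := by
  have h : Continuous (fun y : KS => ((starRingEnd ℂ) y.1 * y.2).im) :=
    Complex.continuous_im.comp ((Complex.continuous_conj.comp continuous_fst).mul continuous_snd)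
  exact h

theorem qa6_zX {C : ℝ} (hC : 0 < C) {X : Pl} (hr : 0 < zr C X) (χ : ℝ) :
    zX C X χ ≠ 0 ↔ cW' (z3 C X χ).2 (z2 C X χ).2 ≠ 0 := by
  rw [(z_L hr.ne' χ).2.2.1]
  simp [hC.ne']

theorem qa6_cW {α : Type*} [TopologicalSpace α] {S : Set α} {f g : α → KS} (hf : ContinuousOn f S)
    (hg : ContinuousOn g S) : ContinuousOn (fun p => cW' (f p).2 (g p).2) S := by
  have h : Continuous (fun q : ℂ × ℂ => ((starRingEnd ℂ) q.1 * q.2).im) :=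
    Complex.continuous_im.comp ((Complex.continuous_conj.comp continuous_fst).mul continuous_snd)
  exact h.comp_continuousOn ((continuous_snd.comp_continuousOn hf).prodMk
    (continuous_snd.comp_continuousOn hg))

/-- a continuous function on an open set, nonzero at a point: nonzero nearby -/
theorem qa6_near {E F : Type*} [PseudoMetricSpace E] [TopologicalSpace F] [T1Space F]
    {f : E → F} {U : Set E} (hU : IsOpen U) (hf : ContinuousOn f U) {x : E} (hx : x ∈ U) {a : F}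
    (h : f x ≠ a) : ∃ ε : ℝ, 0 < ε ∧ ∀ y ∈ Metric.closedBall x ε, y ∈ U ∧ f y ≠ a := by
  have h1 : ∀ᶠ y in 𝓝 x, f y ≠ a := (hf.continuousAt (hU.mem_nhds hx)).eventually_ne h
  have h2 : ∀ᶠ y in 𝓝 x, y ∈ U := hU.mem_nhds hx
  have h3 : ∀ᶠ y in 𝓝 x, y ∈ U ∧ f y ≠ a := h2.and h1
  obtain ⟨ε, hε, hb⟩ := Metric.nhds_basis_closedBall.eventually_iff.1 h3
  exact ⟨ε, hε, fun y hy => hb hy⟩

/-- the regularized position at time zero -/
theorem qa6_start {C : ℝ} (i : Fin 2) {X : Pl} {χ : ℝ} (hr : 0 < zr C X)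
    (h3 : kh' (z3 C X χ) < 0) (h2 : kh' (z2 C X χ) < 0) :
    (Zd i (limD C X χ) 0).1 ≠ 0 := by
  have h1 : (pP i (colD (limD C X χ))).1 ≠ 0 := by
    rw [qa6_pP1]; exact_mod_cast hr.ne'
  have h := lz_sq i (qa6_pPneg h3 h2) h1 0
  intro h0
  have h0' : lzζ i 0 (toLC i 0 (colD (limD C X χ))) = 0 := h0
  rw [h0'] at h
  have h4 : kX (pP i (colD (limD C X χ))) (0 / Real.sqrt (kA (pP i (colD (limD C X χ))))) =
      (pP i (colD (limD C X χ))).1 := by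
    unfold kX
    simp
  rw [h4] at h
  apply h1
  rw [← h]; simp

theorem qa6_cd {C : ℝ} (hC : 0 < C ∧ C ≤ 1) {U : Set Pl} (hU : IsOpen U) (hUC : U ⊆ CD C)
    {X : Pl} (hX : X ∈ U) : 0 < zr C X ∧ rh / 2 < (chart C X).1 ∧
      |kap0 C (chart C X) - kh| ≤ 1 / 10 ∧ X ∈ interior (CD C) := by
  have hi : X ∈ interior (CD C) := interior_maximal hUC hU hX
  refine ⟨(cd_facts hC (hUC hX)).1, (cd_smooth hC).2.2.2.2 X hi, ?_, hi⟩
  have := (hUC hX).2.2.2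
  linarith

theorem tarc_fun_pr (C : ℝ) (hC : 0 < C ∧ C ≤ 1) (i : Fin 2) (Xs : Pl) (K n : ℕ) (hK : 0 < K)
    (hn : 0 < n) (U : Set Pl) (hU : IsOpen U) (hXU : Xs ∈ U) (hUC : U ⊆ CD C) (χ : Pl → ℝ)
    (hχ : ContDiffOn ℝ 2 χ U)
    (hE : ∀ X ∈ U, kh' (z3 C X (χ X)) = kh' (z3 C Xs (χ Xs)) ∧
      kh' (z2 C X (χ X)) = kh' (z2 C Xs (χ Xs)))
    (h3 : kh' (z3 C Xs (χ Xs)) < 0) (h2 : kh' (z2 C Xs (χ Xs)) < 0)
    (hres : K * kPer (z3 C Xs (χ Xs)) = n * kPer (z2 C Xs (χ Xs)))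
    (hV : zX C Xs (χ Xs) ≠ 0) (hQ : LQ C i Xs (χ Xs) ≠ 0)
    (hfree : ∀ τ ∈ Ioo 0 (T0 C i Xs (χ Xs) K n), lcX (Zd i (limD C Xs (χ Xs)) τ) ≠ 0) :
    ∃ h1 : ℝ, 0 < h1 ∧ Metric.closedBall Xs h1 ⊆ U ∧
      RArc C i (Metric.closedBall Xs h1) (TL χ) (fun _ => T0 C i Xs (χ Xs) K n) := by
  have hcd := fun {X : Pl} (hX : X ∈ U) => qa6_cd hC hU hUC hX
  have e3 : ∀ X ∈ U, kh' (z3 C X (χ X)) < 0 := fun X hX => by rw [(hE X hX).1]; exact h3
  have e2 : ∀ X ∈ U, kh' (z2 C X (χ X)) < 0 := fun X hX => by rw [(hE X hX).2]; exact h2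
  have hT : ∀ X ∈ U, T0 C i X (χ X) K n = T0 C i Xs (χ Xs) K n := by
    intro X hX
    unfold T0
    rw [qa6_lzw i (hcd hX).1 (hcd hXU).1 (e3 X hX) (e2 X hX) (hE X hX).1 (hE X hX).2]
  have hper : ∀ X ∈ U, (K : ℝ) * kPer (z3 C X (χ X)) = n * kPer (z2 C X (χ X)) := by
    intro X hX
    rw [qa6_kPer (hE X hX).1, qa6_kPer (hE X hX).2, hres]
  have hT0 : 0 < T0 C i Xs (χ Xs) K n := by
    unfold T0
    have h := qa6_lzw_pos i (hcd hXU).1 h3 h2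
    refine mul_pos ?_ (div_pos Real.pi_pos h)
    by_cases hi : i = 0
    · rw [if_pos hi]; exact_mod_cast hK
    · rw [if_neg hi]; exact_mod_cast hn
  -- smooth states
  obtain ⟨s3, s2, sd, -, -⟩ := cd_smooth hC
  have hmap : ContDiffOn ℝ 2 (fun X : Pl => (X, χ X)) U := contDiffOn_id.prodMk hχ
  have hms : MapsTo (fun X : Pl => (X, χ X)) U {p : Pl × ℝ | p.1 ∈ interior (CD C)} :=
    fun X hX => (hcd hX).2.2.2
  have c3 : ContinuousOn (fun X => z3 C X (χ X)) U :=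
    s3.continuousOn.comp hmap.continuousOn hms
  have c2 : ContinuousOn (fun X => z2 C X (χ X)) U :=
    s2.continuousOn.comp hmap.continuousOn hms
  have cd' : ContDiffOn ℝ 2 (fun X => limD C X (χ X)) U :=
    (sd.of_le qa6_2).comp hmap hms
  have cQ : ContinuousOn (fun X => LQ C i X (χ X)) U := by
    unfold LQ
    by_cases hi : i = 0
    · simp only [if_pos hi]
      exact qa6_kLc.comp_continuousOn c2
    · simp only [if_neg hi]
      exact qa6_kLc.comp_continuousOn c3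
  have cV : ContinuousOn (fun X => cW' (z3 C X (χ X)).2 (z2 C X (χ X)).2) U := qa6_cW c3 c2
  have hV' : cW' (z3 C Xs (χ Xs)).2 (z2 C Xs (χ Xs)).2 ≠ 0 := (qa6_zX hC.1 (hcd hXU).1 _).1 hV
  obtain ⟨ε1, hε1, hb1⟩ := qa6_near hU cQ hXU hQ
  obtain ⟨ε2, hε2, hb2⟩ := qa6_near hU cV hXU hV'
  -- the open set where everything is smooth
  set W : Set Pl := Metric.ball Xs ε1 with hW
  have hWU : W ⊆ U := fun X hX => (hb1 X (Metric.ball_subset_closedBall hX)).1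
  have hWQ : ∀ X ∈ W, LQ C i X (χ X) ≠ 0 := fun X hX =>
    (hb1 X (Metric.ball_subset_closedBall hX)).2
  have hWo : IsOpen W := Metric.isOpen_ball
  have hXW : Xs ∈ W := Metric.mem_ball_self hε1
  have hWS : ∀ X ∈ W, limD C X (χ X) ∈ Sm i := fun X hX =>
    qa6_sm i (hcd (hWU hX)).1 (e3 X (hWU hX)) (e2 X (hWU hX)) (hWQ X hX)
  have hend : ∀ X ∈ W, lcSt i (Zd i (limD C X (χ X)) (T0 C i Xs (χ Xs) K n)) =
      colD (limD C X (χ X)) ∧
      lcX (Zd i (limD C X (χ X)) (T0 C i Xs (χ Xs) K n)) = 0 ∧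
      lcX (Zd i (limD C X (χ X)) 0) = 0 ∧
      ∃ w : ℂ, w ≠ 0 ∧ HasDerivAt (fun τ => lcX (Zd i (limD C X (χ X)) τ)) w 0 ∧
        HasDerivAt (fun τ => lcX (Zd i (limD C X (χ X)) τ)) w (T0 C i Xs (χ Xs) K n) := by
    intro X hX
    have h := t_end C hC i X (χ X) K n (hUC (hWU hX)) (e3 X (hWU hX)) (e2 X (hWU hX))
      (hper X (hWU hX)) (hWQ X hX)
    rw [hT X (hWU hX)] at h
    exact h
  -- the trajectory as a function of `(X, t)`
  have hdW : ContDiffOn ℝ 2 (fun p : Pl × ℝ => limD C p.1 (χ p.1)) (W ×ˢ (univ : Set ℝ)) :=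
    cd'.comp contDiff_fst.contDiffOn (fun p hp => hWU hp.1)
  have htW : ContDiffOn ℝ 2 (fun p : Pl × ℝ => p.2) (W ×ˢ (univ : Set ℝ)) :=
    contDiff_snd.contDiffOn
  have hZW : ContDiffOn ℝ 2 (fun p : Pl × ℝ => Zd i (limD C p.1 (χ p.1)) p.2)
      (W ×ˢ (univ : Set ℝ)) := qa6_comp hdW htW (fun p hp => hWS p.1 hp.1)
  have hfW : ContDiffOn ℝ 2 (fun p : Pl × ℝ => lcX (Zd i (limD C p.1 (χ p.1)) p.2))
      (W ×ˢ (univ : Set ℝ)) := qa6_comp' hdW htW (fun p hp => hWS p.1 hp.1)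
  have hop : IsOpen (W ×ˢ (univ : Set ℝ)) := hWo.prod isOpen_univ
  obtain ⟨-, -, -, w, hw, hw0, hwT⟩ := hend Xs hXW
  obtain ⟨ε3, hε3, hb3⟩ := free_open (f := fun p : Pl × ℝ => lcX (Zd i (limD C p.1 (χ p.1)) p.2))
    hop (hfW.of_le (by norm_num)) Xs (T0 C i Xs (χ Xs) K n) hT0 (fun t _ => ⟨hXW, mem_univ _⟩)
    (by
      filter_upwards [hWo.mem_nhds hXW] with X hX
      exact ⟨(hend X hX).2.2.1, (hend X hX).2.1⟩)
    (by
      have h : deriv (fun t => lcX (Zd i (limD C Xs (χ Xs)) t)) 0 = w := hw0.deriv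
      exact fun h' => hw (h ▸ h'))
    (by
      have h : deriv (fun t => lcX (Zd i (limD C Xs (χ Xs)) t)) (T0 C i Xs (χ Xs) K n) = w :=
        hwT.deriv
      exact fun h' => hw (h ▸ h'))
    hfree
  -- the middle
  have hst : (Zd i (limD C Xs (χ Xs)) 0).1 ≠ 0 := qa6_start i (hcd hXU).1 h3 h2
  have hnc : ContinuousOn (fun p : Pl × ℝ => ‖(Zd i (limD C p.1 (χ p.1)) p.2).1‖)
      (W ×ˢ (univ : Set ℝ)) := (continuous_fst.comp_continuousOn hZW.continuousOn).norm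
  have hca : ContinuousAt (fun p : Pl × ℝ => ‖(Zd i (limD C p.1 (χ p.1)) p.2).1‖) (Xs, 0) :=
    hnc.continuousAt (hop.mem_nhds ⟨hXW, mem_univ _⟩)
  have hnp : 0 < ‖(Zd i (limD C Xs (χ Xs)) 0).1‖ := norm_pos_iff.2 hst
  have hev : ∀ᶠ p in 𝓝 ((Xs, 0) : Pl × ℝ), ‖(Zd i (limD C Xs (χ Xs)) 0).1‖ / 2 <
      ‖(Zd i (limD C p.1 (χ p.1)) p.2).1‖ :=
    hca.eventually (lt_mem_nhds (half_lt_self hnp))
  obtain ⟨ε4, hε4, hb4⟩ := Metric.nhds_basis_closedBall.eventually_iff.1 hev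
  -- the radius
  set h1 : ℝ := min (min (ε1 / 2) ε2) (min ε3 ε4) with hh1
  have hh1p : 0 < h1 := lt_min (lt_min (half_pos hε1) hε2) (lt_min hε3 hε4)
  have l1 : h1 ≤ ε1 / 2 := (min_le_left _ _).trans (min_le_left _ _)
  have l2 : h1 ≤ ε2 := (min_le_left _ _).trans (min_le_right _ _)
  have l3 : h1 ≤ ε3 := (min_le_right _ _).trans (min_le_left _ _)
  have l4 : h1 ≤ ε4 := (min_le_right _ _).trans (min_le_right _ _)
  have hOW : Metric.closedBall Xs h1 ⊆ W := by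
    intro X hX
    rw [Metric.mem_closedBall] at hX
    rw [hW, Metric.mem_ball]
    linarith
  have hOU : Metric.closedBall Xs h1 ⊆ U := hOW.trans hWU
  have hOV : ∀ X ∈ Metric.closedBall Xs h1, zX C X (χ X) ≠ 0 := fun X hX =>
    (qa6_zX hC.1 (hcd (hOU hX)).1 _).2
      (hb2 X (Metric.closedBall_subset_closedBall l2 hX)).2
  have hOc : IsCompact (Metric.closedBall Xs h1) := isCompact_closedBall Xs h1
  obtain ⟨L, hL, hLχ⟩ := reg_of_contDiffOn hU hχ hOc (convex_closedBall Xs h1) hOU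
  obtain ⟨L', hL', hLi⟩ := reg_of_contDiffOn (f := fun X : Pl => X) isOpen_univ
    contDiff_id.contDiffOn hOc (convex_closedBall Xs h1) (subset_univ _)
  have hLL : 0 ≤ max L L' := hL.trans (le_max_left _ _)
  have R1 : Reg (max L L') χ (Metric.closedBall Xs h1) :=
    reg_mono hLχ (le_max_left _ _) subset_rfl
  have R2 : Reg (max L L') (fun X : Pl => X) (Metric.closedBall Xs h1) :=
    reg_mono hLi (le_max_right _ _) subset_rfl
  refine ⟨h1, hh1p, hOU, ?_, ⟨max L L', hLL, R2, R1, R1⟩, fun X hX => ⟨hUC (hOU hX), hUC (hOU hX)⟩⟩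
  refine ⟨hOc, ⟨max L L', R1.1, ?_, R2.1, R1.1⟩, ?_, ?_, ?_, ?_, ?_, ?_, ?_⟩
  · intro X _ Y _
    simp only [sub_self, norm_zero]
    exact mul_nonneg hLL dist_nonneg
  · intro X hX
    have h := hcd (hOU hX)
    exact ⟨hT0, h.2.1, h.2.2.1, h.2.1, h.2.2.1⟩
  · intro X hX
    obtain ⟨p3', p2'⟩ := z_p C X (χ X)
    have q3 : kh' (p3 (colD (limD C X (χ X)))) < 0 := by rw [p3']; exact e3 X (hOU hX)
    have q2 : kh' (p2 (colD (limD C X (χ X)))) < 0 := by rw [p2']; exact e2 X (hOU hX)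
    exact ⟨q3, q2⟩
  · intro X hX τ hτ
    exact hb3 X (Metric.closedBall_subset_closedBall l3 hX) τ hτ
  · intro X hX
    have h := hWQ X (hOW hX)
    obtain ⟨p3', p2'⟩ := z_p C X (χ X)
    unfold LQ at h
    rw [← p3', ← p2'] at h
    exact h
  · refine ⟨min (‖(Zd i (limD C Xs (χ Xs)) 0).1‖ / 2) (min ε4 (T0 C i Xs (χ Xs) K n / 2)), 0,
      fun _ => min ε4 (T0 C i Xs (χ Xs) K n / 2), ?_, ?_, ?_⟩
    · exact lt_min (half_pos hnp) (lt_min hε4 (half_pos hT0))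
    · intro X _ Y _
      simp
    · intro X hX
      refine ⟨min_le_right _ _, ?_, ?_⟩
      · have a1 := min_le_right (‖(Zd i (limD C Xs (χ Xs)) 0).1‖ / 2)
          (min ε4 (T0 C i Xs (χ Xs) K n / 2))
        have a2 := min_le_right ε4 (T0 C i Xs (χ Xs) K n / 2)
        linarith
      · refine (min_le_left _ _).trans ?_
        have hm : ((X, min ε4 (T0 C i Xs (χ Xs) K n / 2)) : Pl × ℝ) ∈
            Metric.closedBall ((Xs, 0) : Pl × ℝ) ε4 := by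
          rw [Metric.mem_closedBall, Prod.dist_eq]
          refine max_le ((Metric.mem_closedBall.1 hX).trans l4) ?_
          change dist (min ε4 (T0 C i Xs (χ Xs) K n / 2)) 0 ≤ ε4
          rw [Real.dist_eq, sub_zero, abs_of_pos (lt_min hε4 (half_pos hT0))]
          exact min_le_left _ _
        exact (hb4 hm).le
  · intro X hX
    refine ⟨1, by simp, by norm_num, ?_⟩
    rw [qa6_rot]
    exact (hend X (hOW hX)).1
  · -- transversality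
    have hsd : ContDiffOn ℝ 2 (fun p : (ℝ × ℝ) × ℝ × ℝ => limD C p.1 p.2.1)
        {p | p.1 ∈ interior (CD C)} := by
      have hm : ContDiff ℝ 2 (fun p : (ℝ × ℝ) × ℝ × ℝ => ((p.1, p.2.1) : (ℝ × ℝ) × ℝ)) :=
        contDiff_fst.prodMk (contDiff_fst.comp contDiff_snd)
      exact (sd.of_le qa6_2).comp hm.contDiffOn (fun p hp => hp)
    have ho : IsOpen {p : (ℝ × ℝ) × ℝ × ℝ | p.1 ∈ interior (CD C)} :=
      isOpen_interior.preimage continuous_fst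
    have ho2 : IsOpen ({p : (ℝ × ℝ) × ℝ × ℝ | p.1 ∈ interior (CD C)} ∩
        (fun p : (ℝ × ℝ) × ℝ × ℝ => limD C p.1 p.2.1) ⁻¹' (Sm i)) :=
      hsd.continuousOn.isOpen_inter_preimage ho (Zd_smooth i).2
    refine nondeg_compact (fun p => lcX (Zd i (limD C p.1 p.2.1) p.2.2)) _ ho2 ?_ _ hOc χ
      (fun _ => T0 C i Xs (χ Xs) K n) (hχ.continuousOn.mono hOU) continuousOn_const ?_ ?_ ?_
    · exact qa6_comp' (hsd.mono inter_subset_left)
        (contDiff_snd.comp contDiff_snd).contDiffOn (fun p hp => hp.2)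
    · intro X hX
      exact ⟨(hcd (hOU hX)).2.2.2, hWS X (hOW hX)⟩
    · intro X hX
      exact (hend X (hOW hX)).2.1
    · intro X hX
      have h := t_det C hC i X (χ X) K n hK hn (hcd (hOU hX)).2.2.2 (e3 X (hOU hX))
        (e2 X (hOU hX)) (hper X (hOU hX)) (hOV X hX) (hWQ X (hOW hX))
      rw [hT X (hOU hX)] at h
      exact h

end

end Pool.Agent.HS

namespace Pool.Agent.HS
open Set Filter Topology
open scoped ContDiff

theorem tarc_fun (C : ℝ) (hC : 0 < C ∧ C ≤ 1) (i : Fin 2) (Xs : Pl) (K n : ℕ) (hK : 0 < K)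
    (hn : 0 < n) (U : Set Pl) (hU : IsOpen U) (hXU : Xs ∈ U) (hUC : U ⊆ CD C) (χ : Pl → ℝ)
    (hχ : ContDiffOn ℝ 2 χ U)
    (hE : ∀ X ∈ U, kh' (z3 C X (χ X)) = kh' (z3 C Xs (χ Xs)) ∧
      kh' (z2 C X (χ X)) = kh' (z2 C Xs (χ Xs)))
    (h3 : kh' (z3 C Xs (χ Xs)) < 0) (h2 : kh' (z2 C Xs (χ Xs)) < 0)
    (hres : K * kPer (z3 C Xs (χ Xs)) = n * kPer (z2 C Xs (χ Xs)))
    (hV : zX C Xs (χ Xs) ≠ 0) (hQ : LQ C i Xs (χ Xs) ≠ 0)
    (hfree : ∀ τ ∈ Ioo 0 (T0 C i Xs (χ Xs) K n), lcX (Zd i (limD C Xs (χ Xs)) τ) ≠ 0) :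
    ∃ h1 : ℝ, 0 < h1 ∧ Metric.closedBall Xs h1 ⊆ U ∧
      RArc C i (Metric.closedBall Xs h1) (TL χ) (fun _ => T0 C i Xs (χ Xs) K n) :=
  @Pool.Agent.HS.tarc_fun_pr C hC i Xs K n hK hn U hU hXU hUC χ hχ hE h3 h2 hres hV hQ hfree

end Pool.Agent.HS
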