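import Pool.Agent.Lib_helper60.HSF.D_WQ
import Pool.Agent.Lib_helper60.HSF.Z_QA6
import Pool.Agent.Lib_helper60.HSF.Z_QA2

/-!
# Part Q, block QA7: restriction of arcs, the local theorem on T arcs
-/

namespace Pool.Agent.HS

noncomputable section

open Set Filter Topology
open scoped ContDiff

theorem qa7_lip {α E : Type*} [PseudoMetricSpace α] [NormedAddCommGroup E] {L : ℝ} {f : α → E}
    {S S' : Set α} (h : Lip L f S) (hs : S' ⊆ S) : Lip L f S' :=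
  fun p hp q hq => h p (hs hp) q (hs hq)

theorem qa7_reg {E F : Type*} [NormedAddCommGroup E] [NormedAddCommGroup F] {L : ℝ} {f : E → F}
    {S S' : Set E} (h : Reg L f S) (hs : S' ⊆ S) : Reg L f S' :=
  ⟨qa7_lip h.1 hs, fun x hx y hy x' hx' y' hy' => h.2 x (hs hx) y (hs hy) x' (hs hx') y' (hs hy')⟩

/-- restriction of arcs -/
theorem rarc_mono_pr_Z_QA7 {C : ℝ} {i : Fin 2} {O O' : Set Pl} {l : LD} {τ0 : Pl → ℝ}
    (h : RArc C i O l τ0) (hO : IsCompact O') (hs : O' ⊆ O) : RArc C i O' l τ0 := by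
  obtain ⟨z, ⟨L, hL, r1, r2, r3⟩, cd⟩ := h
  refine ⟨⟨hO, ?_, fun X hX => z.pos X (hs hX), fun X hX => z.ell X (hs hX),
    fun X hX => z.free X (hs hX), fun X hX => z.sun X (hs hX), ?_, fun X hX => z.fin X (hs hX),
    ?_⟩, ⟨L, hL, qa7_reg r1 hs, qa7_reg r2 hs, qa7_reg r3 hs⟩, fun X hX => cd X (hs hX)⟩
  · obtain ⟨L', l1, l2, l3, l4⟩ := z.lip
    exact ⟨L', qa7_lip l1 hs, qa7_lip l2 hs, qa7_lip l3 hs, qa7_lip l4 hs⟩
  · obtain ⟨c, L', τm, hc, hτ, hm⟩ := z.mid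
    exact ⟨c, L', τm, hc, qa7_lip hτ hs, fun X hX => hm X (hs hX)⟩
  · obtain ⟨c, L', ρ, hc, hρ, hn⟩ := z.nondeg
    exact ⟨c, L', ρ, hc, hρ, fun X hX => hn X (hs hX)⟩

theorem tarc_local_pr (C : ℝ) (hC : 0 < C ∧ C ≤ 1) (i : Fin 2) (Xs : Pl) (χs : ℝ) (K n : ℕ)
    (hK : 0 < K) (hn : 0 < n) (hX : Xs ∈ interior (CD C))
    (h3 : kh' (z3 C Xs χs) < 0) (h2 : kh' (z2 C Xs χs) < 0)
    (hres : K * kPer (z3 C Xs χs) = n * kPer (z2 C Xs χs))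
    (he : deriv (fun χ => kh' (z3 C Xs χ) - kh' (z2 C Xs χ)) χs ≠ 0)
    (hV : zX C Xs χs ≠ 0) (hQ : LQ C i Xs χs ≠ 0)
    (hfree : ∀ τ ∈ Ioo 0 (T0 C i Xs χs K n), lcX (Zd i (limD C Xs χs) τ) ≠ 0) :
    ∃ (h1 : ℝ) (χ : Pl → ℝ), 0 < h1 ∧ χ Xs = χs ∧ ContDiffOn ℝ 2 χ (Metric.ball Xs (2 * h1)) ∧
      RArc C i (Metric.closedBall Xs h1) (TL χ) (fun _ => T0 C i Xs χs K n) ∧
      ∀ X ∈ Metric.closedBall Xs h1, kh' (z3 C X (χ X)) = kh' (z3 C Xs χs) ∧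
        kh' (z2 C X (χ X)) = kh' (z2 C Xs χs) := by
  obtain ⟨h1, χ, hh1, hχs, hχ, hsub, hE⟩ := dir_fun C hC Xs χs hX hV 1 one_pos
  have hE' : ∀ X ∈ Metric.ball Xs (2 * h1), kh' (z3 C X (χ X)) = kh' (z3 C Xs (χ Xs)) ∧
      kh' (z2 C X (χ X)) = kh' (z2 C Xs (χ Xs)) := by
    intro X hX'
    rw [hχs]
    exact (hE X hX').2
  obtain ⟨h1', hh1', hsub', hr⟩ := tarc_fun C hC i Xs K n hK hn (Metric.ball Xs (2 * h1))
    Metric.isOpen_ball (Metric.mem_ball_self (by linarith)) (hsub.trans interior_subset) χ hχ hE'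
    (by rw [hχs]; exact h3) (by rw [hχs]; exact h2) (by rw [hχs]; exact hres)
    (by rw [hχs]; exact hV) (by rw [hχs]; exact hQ) (by rw [hχs]; exact hfree)
  rw [hχs] at hr
  have hle : min h1 h1' ≤ h1' := min_le_right _ _
  have hcb : Metric.closedBall Xs (min h1 h1') ⊆ Metric.closedBall Xs h1' :=
    Metric.closedBall_subset_closedBall hle
  refine ⟨min h1 h1', χ, lt_min hh1 hh1', hχs, hχ.mono (Metric.ball_subset_ball ?_),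
    rarc_mono_pr_Z_QA7 hr (isCompact_closedBall _ _) hcb, fun X hX' => ?_⟩
  · have := min_le_left h1 h1'
    linarith
  · exact (hE X (hsub' (hcb hX'))).2

end

end Pool.Agent.HS

namespace Pool.Agent.HS
open Set Filter Topology Classical

theorem tarc_local (C : ℝ) (hC : 0 < C ∧ C ≤ 1) (i : Fin 2) (Xs : Pl) (χs : ℝ) (K n : ℕ)
    (hK : 0 < K) (hn : 0 < n) (hX : Xs ∈ interior (CD C))
    (h3 : kh' (z3 C Xs χs) < 0) (h2 : kh' (z2 C Xs χs) < 0)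
    (hres : K * kPer (z3 C Xs χs) = n * kPer (z2 C Xs χs))
    (he : deriv (fun χ => kh' (z3 C Xs χ) - kh' (z2 C Xs χ)) χs ≠ 0)
    (hV : zX C Xs χs ≠ 0) (hQ : LQ C i Xs χs ≠ 0)
    (hfree : ∀ τ ∈ Ioo 0 (T0 C i Xs χs K n), lcX (Zd i (limD C Xs χs) τ) ≠ 0) :
    ∃ (h1 : ℝ) (χ : Pl → ℝ), 0 < h1 ∧ χ Xs = χs ∧ ContDiffOn ℝ 2 χ (Metric.ball Xs (2 * h1)) ∧
      RArc C i (Metric.closedBall Xs h1) (TL χ) (fun _ => T0 C i Xs χs K n) ∧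
      ∀ X ∈ Metric.closedBall Xs h1, kh' (z3 C X (χ X)) = kh' (z3 C Xs χs) ∧
        kh' (z2 C X (χ X)) = kh' (z2 C Xs χs) :=
  @Pool.Agent.HS.tarc_local_pr C hC i Xs χs K n hK hn hX h3 h2 hres he hV hQ hfree

end Pool.Agent.HS
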