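import Pool.Agent.Lib_helper60.HSF.D_WQ
import Pool.Agent.Lib_helper60.HSF.K_KL3
import Pool.Agent.Lib_helper60.HSF.Z_ZA1
import Pool.Agent.Lib_helper60.HSF.Z_QA1
import Pool.Agent.Lib_helper60.HSF.K_KL1

/-!
# Project HS, part Q, block QA8: sun collisions
-/

namespace Pool.Agent.HS

noncomputable section

open Set Filter Topology
open scoped ContDiff

/-! ## The regularized body is a harmonic oscillator -/

theorem QA8_toLC (i : Fin 2) (y : St) : (toLC i 0 y).1 = (pP i y).1 ^ (1/2 : ℂ) ∧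
    (toLC i 0 y).2.1 = 2 * (starRingEnd ℂ) ((pP i y).1 ^ (1/2 : ℂ)) * (pP i y).2 := by
  unfold toLC pP p3 p2
  by_cases h : i = 0 <;> simp [h]

theorem QA8_pP (C : ℝ) (i : Fin 2) (X : Pl) (χ : ℝ) :
    (pP i (colD (limD C X χ))).1 = (zr C X : ℂ) ∧
    kL (pP i (colD (limD C X χ))) = LP C i X χ ∧
    kL (pQ i (colD (limD C X χ))) = LQ C i X χ := by
  obtain ⟨h1, h2⟩ := z_p C X χ
  unfold pP pQ LP LQ
  rw [h1, h2]
  by_cases h : i = 0 <;> simp [h, z3, z2]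

theorem QA8_neg {C : ℝ} (i : Fin 2) {X : Pl} {χ : ℝ} (h3 : kh' (z3 C X χ) < 0)
    (h2 : kh' (z2 C X χ) < 0) : kh' (pP i (colD (limD C X χ))) < 0 ∧
    kh' (pQ i (colD (limD C X χ))) < 0 := by
  obtain ⟨e1, e2⟩ := z_p C X χ
  unfold pP pQ
  rw [e1, e2]
  by_cases h : i = 0 <;> simp [h, h3, h2]

/-- initial data of the regularized body -/
theorem QA8_ini {C : ℝ} (i : Fin 2) {X : Pl} (hr : 0 < zr C X) (χ : ℝ) :
    (toLC i 0 (colD (limD C X χ))).1 = ((Real.sqrt (zr C X) : ℝ) : ℂ) ∧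
    ((starRingEnd ℂ) (toLC i 0 (colD (limD C X χ))).1 *
      (toLC i 0 (colD (limD C X χ))).2.1).im = 2 * LP C i X χ := by
  obtain ⟨h1, h2⟩ := QA8_toLC i (colD (limD C X χ))
  obtain ⟨h3, h4, -⟩ := QA8_pP C i X χ
  have h5 : ((zr C X : ℝ) : ℂ) ^ (1/2 : ℂ) = ((Real.sqrt (zr C X) : ℝ) : ℂ) := by
    rw [Real.sqrt_eq_rpow, Complex.ofReal_cpow hr.le]
    norm_num
  have h6 : (toLC i 0 (colD (limD C X χ))).1 = ((Real.sqrt (zr C X) : ℝ) : ℂ) := by
    rw [h1, h3, h5]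
  refine ⟨h6, ?_⟩
  rw [← h4, h6, h2, h3, h5]
  unfold kL
  rw [h3]
  have h7 : Real.sqrt (zr C X) * Real.sqrt (zr C X) = zr C X := Real.mul_self_sqrt hr.le
  simp only [Complex.conj_ofReal, Complex.mul_im, Complex.ofReal_re, Complex.ofReal_im,
    Complex.mul_re, Complex.re_ofNat, Complex.im_ofNat]
  ring_nf
  rw [Real.sq_sqrt hr.le]
  ring

/-- the frequency is positive -/
theorem QA8_w {C : ℝ} (i : Fin 2) {X : Pl} {χ : ℝ} (hr : 0 < zr C X)
    (h : kh' (pP i (colD (limD C X χ))) < 0) : 0 < lzw i (toLC i 0 (colD (limD C X χ))) := by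
  have h0 : (pP i (colD (limD C X χ))).1 ≠ 0 := by
    rw [(QA8_pP C i X χ).1]
    exact_mod_cast hr.ne'
  rw [(lz_w i h h0).2]
  exact Real.sqrt_pos.2 (by linarith)

/-- conservation of the angular momentum -/
theorem QA8_J (i : Fin 2) (Z : LCS) (hw : lzw i Z ≠ 0) (τ : ℝ) :
    ((starRingEnd ℂ) (lzζ i τ Z) * lzη i τ Z).im = ((starRingEnd ℂ) Z.1 * Z.2.1).im := by
  unfold lzζ lzη
  have h1 := Real.sin_sq_add_cos_sq (lzw i Z * τ)
  set s := Real.sin (lzw i Z * τ)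
  set c := Real.cos (lzw i Z * τ)
  set w := lzw i Z
  simp only [map_add, map_mul, Complex.conj_ofReal, Complex.mul_im, Complex.add_re,
    Complex.add_im, Complex.mul_re, Complex.ofReal_re, Complex.ofReal_im, Complex.conj_re,
    Complex.conj_im, zero_mul, sub_zero, add_zero]
  have h2 : s / (4 * w) * (-4 * w * s) = -(s ^ 2) := by
    field_simp
  have h3 : s ^ 2 = 1 - c ^ 2 := by linarith
  have h4 : ∀ a b a' b' : ℝ,
      (c * a + s / (4 * w) * a') * (-4 * w * s * b + c * b') +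
        (c * -b + s / (4 * w) * -b') * (-4 * w * s * a + c * a') =
      c ^ 2 * (a * b' - b * a') + (s / (4 * w) * (-4 * w * s)) * (a' * b - b' * a) := by
    intro a b a' b'
    ring
  rw [h4, h2, h3]
  ring

/-- derivative in the time -/
theorem QA8_deriv (i : Fin 2) (Z : LCS) (hw : lzw i Z ≠ 0) (τ : ℝ) :
    HasDerivAt (fun τ => lzζ i τ Z) (lzη i τ Z / 4) τ := by
  unfold lzζ lzη
  set w := lzw i Z
  have h1 : HasDerivAt (fun τ : ℝ => w * τ) w τ := by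
    simpa using (hasDerivAt_id τ).const_mul w
  have h2 : HasDerivAt (fun τ : ℝ => ((Real.cos (w * τ) : ℝ) : ℂ))
      ((-Real.sin (w * τ) * w : ℝ) : ℂ) τ := h1.cos.ofReal_comp
  have h3 : HasDerivAt (fun τ : ℝ => ((Real.sin (w * τ) / (4 * w) : ℝ) : ℂ))
      ((Real.cos (w * τ) * w / (4 * w) : ℝ) : ℂ) τ := (h1.sin.div_const (4 * w)).ofReal_comp
  have h4 := (h2.mul_const Z.1).add (h3.mul_const Z.2.1)
  refine h4.congr_deriv ?_
  have h5 : Real.cos (w * τ) * w / (4 * w) = Real.cos (w * τ) / 4 := by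
    field_simp
  rw [h5]
  push_cast
  ring

/-- a zero forces `LP = 0` -/
theorem QA8_LP {C : ℝ} (i : Fin 2) {X : Pl} {χ : ℝ} (hr : 0 < zr C X)
    (h : kh' (pP i (colD (limD C X χ))) < 0) {τ : ℝ} (hz : (Zd i (limD C X χ) τ).1 = 0) :
    LP C i X χ = 0 := by
  have h1 : lzζ i τ (toLC i 0 (colD (limD C X χ))) = 0 := hz
  have h2 := QA8_J i (toLC i 0 (colD (limD C X χ))) (QA8_w i hr h).ne' τ
  rw [h1, (QA8_ini i hr χ).2] at h2
  simp at h2
  exact h2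

/-- if `LP = 0` then `LQ ≠ 0` -/
theorem QA8_LQ {C : ℝ} (hC : 0 < C) (i : Fin 2) {X : Pl} {χ : ℝ} (hr : 0 < zr C X)
    (h : LP C i X χ = 0) : LQ C i X χ ≠ 0 := by
  obtain ⟨e1, e2, -, -⟩ := z_L (C := C) (X := X) hr.ne' χ
  unfold LP at h
  unfold LQ
  by_cases hi : i = 0
  · rw [if_pos hi] at h ⊢
    rw [e1] at h
    rw [e2]
    unfold ma mb at *
    intro h'
    linarith
  · rw [if_neg hi] at h ⊢
    rw [e2] at h
    rw [e1]
    unfold ma mb at *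
    intro h'
    linarith

/-- the limit trajectory is smooth near an arc with `LP = 0` -/
theorem QA8_Sm {C : ℝ} (hC : 0 < C) (i : Fin 2) {X : Pl} {χ : ℝ} (hr : 0 < zr C X)
    (h3 : kh' (z3 C X χ) < 0) (h2 : kh' (z2 C X χ) < 0) (h : LP C i X χ = 0) :
    limD C X χ ∈ Sm i := by
  obtain ⟨e1, e2⟩ := QA8_neg i h3 h2
  refine ⟨?_, e1, e2, ?_⟩
  · show 0 < (((chart C X).1 : ℝ) : ℂ).re
    rw [Complex.ofReal_re]
    exact hr
  · rw [(QA8_pP C i X χ).2.2]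
    exact QA8_LQ hC i hr h

/-- second order Taylor estimate -/
theorem QA8_taylor {E F : Type*} [NormedAddCommGroup E] [NormedSpace ℝ E]
    [NormedAddCommGroup F] [NormedSpace ℝ F] {f : E → F} {p : E} (hf : ContDiffAt ℝ 2 f p) :
    ∃ Q h : ℝ, 0 < h ∧ 0 ≤ Q ∧ ∀ q ∈ Metric.ball p h,
      ‖f q - f p - fderiv ℝ f p (q - p)‖ ≤ Q * ‖q - p‖ ^ 2 := by
  have h1 : ContDiffAt ℝ 1 (fderiv ℝ f) p := hf.fderiv_right (by norm_num)
  obtain ⟨L, s, hs, hL⟩ := h1.exists_lipschitzOnWith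
  have h2 : ∀ᶠ q in 𝓝 p, DifferentiableAt ℝ f q := by
    have h3 : ∀ᶠ q in 𝓝 p, ContDiffAt ℝ 2 f q := hf.eventually (by simp)
    exact h3.mono fun q hq => hq.differentiableAt (by norm_num)
  obtain ⟨h, hh, hb⟩ := Metric.eventually_nhds_iff_ball.1 (h2.and hs)
  refine ⟨L, h, hh, L.2, fun q hq => ?_⟩
  have h4 : ∀ x ∈ Metric.closedBall p ‖q - p‖, x ∈ Metric.ball p h := by
    intro x hx
    rw [Metric.mem_closedBall] at hx
    rw [Metric.mem_ball] at hq ⊢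
    rw [dist_eq_norm] at hq
    exact lt_of_le_of_lt hx hq
  have h5 := (convex_closedBall p ‖q - p‖).norm_image_sub_le_of_norm_hasFDerivWithin_le'
    (f := f) (f' := fderiv ℝ f) (φ := fderiv ℝ f p) (C := L * ‖q - p‖) (x := p) (y := q)
    (fun x hx => ((hb x (h4 x hx)).1.hasFDerivAt).hasFDerivWithinAt) (fun x hx => by
      have h6 := hL.dist_le_mul x (hb x (h4 x hx)).2 p (mem_of_mem_nhds hs)
      rw [dist_eq_norm, dist_eq_norm] at h6
      refine h6.trans (mul_le_mul_of_nonneg_left ?_ L.2)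
      rw [Metric.mem_closedBall, dist_eq_norm] at hx
      exact hx) (Metric.mem_closedBall_self (norm_nonneg _)) (by
      rw [Metric.mem_closedBall, dist_eq_norm])
  rw [sq, ← mul_assoc]
  exact h5

theorem sun_zeroV_pr (C : ℝ) (hC : 0 < C ∧ C ≤ 1) (i : Fin 2) (Xs : Pl) (χ : Pl → ℝ) (U : Set Pl)
    (hU : IsOpen U) (hXU : Xs ∈ U) (hUC : U ⊆ CD C) (hχ : ContDiffOn ℝ 2 χ U)
    (h3 : kh' (z3 C Xs (χ Xs)) < 0) (h2 : kh' (z2 C Xs (χ Xs)) < 0)
    (τm he : ℝ) (hhe : 0 < he) (hz : (Zd i (limD C Xs (χ Xs)) τm).1 = 0) (V : Set Pl)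
    (A : Pl →L[ℝ] ℝ) (hA : HasFDerivAt (fun X => LP C i X (χ X)) A Xs) (hm : ∀ v ∈ V, A v ≠ 0)
    (hhe2 : he < Real.pi / lzw i (toLC i 0 (colD (limD C Xs (χ Xs))))) :
    TIsoV V (fun q => (Zd i (limD C q.1 (χ q.1)) q.2).1) Xs τm he := by
  have hr : 0 < zr C Xs := (cd_facts hC (hUC hXU)).1
  obtain ⟨hP, hQ⟩ := QA8_neg i h3 h2
  have hw := QA8_w i hr hP
  have hLP := QA8_LP i hr hP hz
  have hSm : limD C Xs (χ Xs) ∈ Sm i := QA8_Sm hC.1 i hr h3 h2 hLP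
  -- smoothness
  have h2i : (2 : WithTop ℕ∞) ≤ ∞ := by norm_cast
  have hUi : U ⊆ interior (CD C) := interior_maximal hUC hU
  have hχa : ContDiffAt ℝ 2 χ Xs := hχ.contDiffAt (hU.mem_nhds hXU)
  have hset : {p : Pl × ℝ | p.1 ∈ interior (CD C)} ∈ 𝓝 (Xs, χ Xs) :=
    (isOpen_interior.preimage continuous_fst).mem_nhds (hUi hXU)
  have hlim : ContDiffAt ℝ 2 (fun p : Pl × ℝ => limD C p.1 p.2) (Xs, χ Xs) :=
    ((cd_smooth hC).2.2.1.contDiffAt hset).of_le h2i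
  have hD : ContDiffAt ℝ 2 (fun X : Pl => limD C X (χ X)) Xs :=
    ContDiffAt.comp (g := fun p : Pl × ℝ => limD C p.1 p.2) (f := fun X : Pl => (X, χ X)) Xs hlim
      (contDiffAt_id.prodMk hχa)
  have hZ : ContDiffAt ℝ 2 (fun p : Dt × ℝ => Zd i p.1 p.2) (limD C Xs (χ Xs), τm) :=
    ((Zd_smooth i).1.contDiffAt (((Zd_smooth i).2.preimage continuous_fst).mem_nhds hSm)).of_le
      h2i
  have hf : ContDiffAt ℝ 2 (fun q : Pl × ℝ => Zd i (limD C q.1 (χ q.1)) q.2) (Xs, τm) :=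
    ContDiffAt.comp (g := fun p : Dt × ℝ => Zd i p.1 p.2)
      (f := fun q : Pl × ℝ => (limD C q.1 (χ q.1), q.2)) (Xs, τm) hZ
      ((ContDiffAt.comp (g := fun X : Pl => limD C X (χ X)) (f := fun q : Pl × ℝ => q.1)
        (Xs, τm) hD contDiffAt_fst).prodMk contDiffAt_snd)
  have hf1 : ContDiffAt ℝ 2 (fun q : Pl × ℝ => (Zd i (limD C q.1 (χ q.1)) q.2).1) (Xs, τm) :=
    hf.fst
  have hf2 : ContDiffAt ℝ 2 (fun q : Pl × ℝ => (Zd i (limD C q.1 (χ q.1)) q.2).2.1) (Xs, τm) :=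
    hf.snd.fst
  obtain ⟨Q, h, hh, hQ0, hT⟩ := QA8_taylor hf1
  set g0 : Pl × ℝ → ℂ := fun q => (Zd i (limD C q.1 (χ q.1)) q.2).1 with hg0
  set g1 : Pl × ℝ → ℂ := fun q => (Zd i (limD C q.1 (χ q.1)) q.2).2.1 with hg1
  set L := fderiv ℝ g0 (Xs, τm) with hL
  have hd0 : HasFDerivAt g0 L (Xs, τm) := (hf1.differentiableAt (by norm_num)).hasFDerivAt
  have hd1 : HasFDerivAt g1 (fderiv ℝ g1 (Xs, τm)) (Xs, τm) :=
    (hf2.differentiableAt (by norm_num)).hasFDerivAt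
  refine ⟨⟨hz, L ((1, 0), 0), L ((0, 1), 0), L (0, 1), Q, h / 2, by positivity, ?_, ?_⟩, ?_⟩
  · intro Y hY t ht
    have e1 : ‖((Y, t) : Pl × ℝ) - (Xs, τm)‖ ≤ ‖Y - Xs‖ + |t - τm| := by
      rw [Prod.mk_sub_mk, Prod.norm_mk, Real.norm_eq_abs]
      exact max_le (le_add_of_nonneg_right (abs_nonneg _)) (le_add_of_nonneg_left (norm_nonneg _))
    have e2 : ((Y, t) : Pl × ℝ) ∈ Metric.ball (Xs, τm) h := by
      rw [Metric.mem_ball, Prod.dist_eq]
      rw [Metric.mem_closedBall] at hY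
      have e3 : |t - τm| ≤ h / 2 := by
        rw [abs_le]
        constructor <;> linarith [ht.1, ht.2]
      refine max_lt (by simpa using (by linarith : dist Y Xs < h)) ?_
      rw [Real.dist_eq]
      linarith
    have e4 := hT (Y, t) e2
    have e5 : L (((Y, t) : Pl × ℝ) - (Xs, τm)) = ((Y.1 - Xs.1 : ℝ) : ℂ) * L ((1, 0), 0) +
        ((Y.2 - Xs.2 : ℝ) : ℂ) * L ((0, 1), 0) + ((t - τm : ℝ) : ℂ) * L (0, 1) := by
      have e6 : (((Y, t) : Pl × ℝ) - (Xs, τm)) = (Y.1 - Xs.1) • (((1, 0), 0) : Pl × ℝ) +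
          (Y.2 - Xs.2) • (((0, 1), 0) : Pl × ℝ) + (t - τm) • ((0, 1) : Pl × ℝ) := by
        ext <;> simp
      rw [e6, map_add, map_add, map_smul, map_smul, map_smul]
      simp only [Complex.real_smul]
    rw [e5] at e4
    refine e4.trans ?_
    exact mul_le_mul_of_nonneg_left (pow_le_pow_left₀ (norm_nonneg _) e1 2) hQ0
  · intro v hv
    -- the derivative in the time
    have e1 : L (0, 1) = ((1 / 4 : ℝ) : ℂ) * g1 (Xs, τm) := by
      have e2 : HasDerivAt (fun t : ℝ => g0 (Xs, t)) (L (0, 1)) τm := by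
        have e3 : HasDerivAt (fun t : ℝ => ((Xs, t) : Pl × ℝ)) ((0, 1) : Pl × ℝ) τm :=
          (hasDerivAt_const τm Xs).prodMk (hasDerivAt_id τm)
        exact HasFDerivAt.comp_hasDerivAt τm hd0 e3
      have e2' := e2.unique (QA8_deriv i (toLC i 0 (colD (limD C Xs (χ Xs)))) hw.ne' τm)
      rw [e2', div_eq_inv_mul]
      congr 1
      norm_num
    -- the derivatives in `X`
    have e4 : HasFDerivAt (fun X : Pl => ((X, τm) : Pl × ℝ)) (ContinuousLinearMap.inl ℝ Pl ℝ) Xs :=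
      hasFDerivAt_prodMk_left Xs τm
    have e5 : HasFDerivAt (fun X : Pl => g0 (X, τm)) (L.comp (ContinuousLinearMap.inl ℝ Pl ℝ)) Xs :=
      HasFDerivAt.comp (g := g0) (f := fun X : Pl => ((X, τm) : Pl × ℝ)) Xs hd0 e4
    have e6 : HasFDerivAt (fun X : Pl => g1 (X, τm))
        ((fderiv ℝ g1 (Xs, τm)).comp (ContinuousLinearMap.inl ℝ Pl ℝ)) Xs :=
      HasFDerivAt.comp (g := g1) (f := fun X : Pl => ((X, τm) : Pl × ℝ)) Xs hd1 e4
    have e7 : HasFDerivAt (fun X : Pl => (starRingEnd ℂ) (g0 (X, τm)))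
        ((Complex.conjCLE : ℂ →L[ℝ] ℂ).comp (L.comp (ContinuousLinearMap.inl ℝ Pl ℝ))) Xs :=
      (Complex.conjCLE : ℂ →L[ℝ] ℂ).hasFDerivAt.comp Xs e5
    have e8 := Complex.imCLM.hasFDerivAt.comp Xs (e7.mul e6)
    have e9 : (fun X : Pl => 2 * LP C i X (χ X)) =ᶠ[𝓝 Xs]
        (Complex.imCLM ∘ fun X : Pl => (starRingEnd ℂ) (g0 (X, τm)) * g1 (X, τm)) := by
      have e10 : ∀ᶠ X in 𝓝 Xs, limD C X (χ X) ∈ Sm i :=
        hD.continuousAt.eventually_mem ((Zd_smooth i).2.mem_nhds hSm)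
      filter_upwards [e10, hU.mem_nhds hXU] with X hX1 hX2
      have hrX : 0 < zr C X := (cd_facts hC (hUC hX2)).1
      have hwX := QA8_w i hrX hX1.2.1
      rw [← (QA8_ini i hrX (χ X)).2, ← QA8_J i _ hwX.ne' τm]
      rfl
    have e11 := (hA.const_mul 2).unique (e8.congr_of_eventuallyEq e9)
    have e12 : 2 * A v = ((starRingEnd ℂ) (L (v, 0)) * g1 (Xs, τm)).im := by
      have e13 := congrArg (fun B : Pl →L[ℝ] ℝ => B v) e11
      have hz' : g0 (Xs, τm) = 0 := hz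
      simp [hz'] at e13
      rw [e13]
      simp
      ring
    have e14 : L (v, 0) = (v.1 : ℂ) * L ((1, 0), 0) + (v.2 : ℂ) * L ((0, 1), 0) := by
      have e15 : ((v, 0) : Pl × ℝ) = v.1 • (((1, 0), 0) : Pl × ℝ) +
          v.2 • (((0, 1), 0) : Pl × ℝ) := by
        ext <;> simp
      rw [e15, map_add, map_smul, map_smul]
      simp only [Complex.real_smul]
    rw [← e14, e1]
    intro e16
    apply hm v hv
    have e17 : ((starRingEnd ℂ) (((1 / 4 : ℝ) : ℂ) * g1 (Xs, τm)) * L (v, 0)).im =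
        -(1 / 4) * ((starRingEnd ℂ) (L (v, 0)) * g1 (Xs, τm)).im := by
      rw [map_mul, Complex.conj_ofReal]
      simp only [Complex.mul_im, Complex.mul_re, Complex.ofReal_re, Complex.ofReal_im,
        Complex.conj_re, Complex.conj_im]
      ring
    rw [e17, ← e12] at e16
    linarith
  · intro t ht htm h0
    have e1 : lzζ i t (toLC i 0 (colD (limD C Xs (χ Xs)))) = 0 := h0
    have e2 : lzζ i τm (toLC i 0 (colD (limD C Xs (χ Xs)))) = 0 := hz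
    have e3 := (QA8_ini i hr (χ Xs)).1
    have ha : 0 < Real.sqrt (zr C Xs) := Real.sqrt_pos.2 hr
    unfold lzζ at e1 e2
    rw [e3] at e1 e2
    set w := lzw i (toLC i 0 (colD (limD C Xs (χ Xs)))) with hwd
    set a := Real.sqrt (zr C Xs) with had
    set b := (toLC i 0 (colD (limD C Xs (χ Xs)))).2.1 with hb
    have f1 := congrArg Complex.re e1
    have f2 := congrArg Complex.re e2
    simp only [Complex.add_re, Complex.mul_re, Complex.ofReal_re, Complex.ofReal_im, zero_mul,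
      sub_zero, Complex.zero_re, mul_zero] at f1 f2
    have f3 : Real.sin (w * (t - τm)) = 0 := by
      have f4 : a * (Real.cos (w * t) * Real.sin (w * τm) -
          Real.cos (w * τm) * Real.sin (w * t)) = 0 := by
        have f5 : (Real.cos (w * t) * a + Real.sin (w * t) / (4 * w) * b.re) *
            Real.sin (w * τm) - (Real.cos (w * τm) * a + Real.sin (w * τm) / (4 * w) * b.re) *
            Real.sin (w * t) = 0 := by rw [f1, f2]; ring
        rw [← f5]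
        ring
      have f6 := (mul_eq_zero.1 f4).resolve_left ha.ne'
      rw [mul_sub, Real.sin_sub]
      linarith
    obtain ⟨k, hk⟩ := Real.sin_eq_zero_iff.1 f3
    have f7 : |t - τm| ≤ he := by
      rw [abs_le]
      constructor <;> linarith [ht.1, ht.2]
    have f8 : |w * (t - τm)| < Real.pi := by
      rw [abs_mul, abs_of_pos hw]
      calc w * |t - τm| ≤ w * he := mul_le_mul_of_nonneg_left f7 hw.le
        _ < w * (Real.pi / w) := mul_lt_mul_of_pos_left hhe2 hw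
        _ = Real.pi := by field_simp
    rw [← hk, abs_mul, abs_of_pos Real.pi_pos] at f8
    have f9 : |(k : ℝ)| < 1 := by
      by_contra hcon
      push Not at hcon
      have := mul_le_mul_of_nonneg_right hcon Real.pi_pos.le
      linarith
    have f10 : k = 0 := by
      have : |k| < 1 := by exact_mod_cast f9
      exact Int.abs_lt_one_iff.1 this
    rw [f10] at hk
    simp at hk
    rcases hk with hk | hk
    · exact hw.ne' hk
    · exact htm (by linarith)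

theorem sun_zero_pr (C : ℝ) (hC : 0 < C ∧ C ≤ 1) (i : Fin 2) (Xs : Pl) (χ : Pl → ℝ) (h1 : ℝ)
    (hh1 : 0 < h1) (hχ : ContDiffOn ℝ 2 χ (Metric.ball Xs (2 * h1)))
    (hX : Metric.closedBall Xs h1 ⊆ CD C)
    (hE : ∀ X ∈ Metric.closedBall Xs h1, kh' (z3 C X (χ X)) < 0 ∧ kh' (z2 C X (χ X)) < 0)
    (τm he : ℝ) (hhe : 0 < he) (hz : (Zd i (limD C Xs (χ Xs)) τm).1 = 0) (i' : Fin 2)
    (A : Pl →L[ℝ] ℝ) (hA : HasFDerivAt (fun X => LP C i X (χ X)) A Xs)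
    (hm : ∀ m ∈ Icc (slo i') (shi i'), A (1, m) ≠ 0)
    (hhe2 : he < Real.pi / lzw i (toLC i 0 (colD (limD C Xs (χ Xs))))) :
    TIso i' (fun q => (Zd i (limD C q.1 (χ q.1)) q.2).1) Xs τm he := by
  have hXs : Xs ∈ Metric.closedBall Xs h1 := Metric.mem_closedBall_self hh1.le
  obtain ⟨⟨e0, ex, ez, eτ, Q, h, hh, e1, e2⟩, e3⟩ := sun_zeroV_pr C hC i Xs χ
    (Metric.ball Xs h1) Metric.isOpen_ball (Metric.mem_ball_self hh1)
    (Metric.ball_subset_closedBall.trans hX)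
    (hχ.mono (Metric.ball_subset_ball (by linarith))) (hE Xs hXs).1 (hE Xs hXs).2 τm he hhe hz
    {v | ∃ m ∈ Icc (slo i') (shi i'), v = (1, m)} A hA (by
      rintro v ⟨m, hm', rfl⟩
      exact hm m hm') hhe2
  refine ⟨⟨e0, ex, ez, eτ, ⟨Q, h, hh, e1⟩, fun m hm' => ?_⟩, e3⟩
  have e4 := e2 (1, m) ⟨m, hm', rfl⟩
  simpa using e4

end

end Pool.Agent.HS

namespace Pool.Agent.HS
open Set Filter Topology Classical

theorem sun_zero (C : ℝ) (hC : 0 < C ∧ C ≤ 1) (i : Fin 2) (Xs : Pl) (χ : Pl → ℝ) (h1 : ℝ)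
    (hh1 : 0 < h1) (hχ : ContDiffOn ℝ 2 χ (Metric.ball Xs (2 * h1)))
    (hX : Metric.closedBall Xs h1 ⊆ CD C)
    (hE : ∀ X ∈ Metric.closedBall Xs h1, kh' (z3 C X (χ X)) < 0 ∧ kh' (z2 C X (χ X)) < 0)
    (τm he : ℝ) (hhe : 0 < he) (hz : (Zd i (limD C Xs (χ Xs)) τm).1 = 0) (i' : Fin 2)
    (A : Pl →L[ℝ] ℝ) (hA : HasFDerivAt (fun X => LP C i X (χ X)) A Xs)
    (hm : ∀ m ∈ Icc (slo i') (shi i'), A (1, m) ≠ 0)
    (hhe2 : he < Real.pi / lzw i (toLC i 0 (colD (limD C Xs (χ Xs))))) :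
    TIso i' (fun q => (Zd i (limD C q.1 (χ q.1)) q.2).1) Xs τm he :=
  @Pool.Agent.HS.sun_zero_pr C hC i Xs χ h1 hh1 hχ hX hE τm he hhe hz i' A hA hm hhe2

end Pool.Agent.HS

namespace Pool.Agent.HS
open Set Filter Topology
open scoped ContDiff

theorem sun_zeroV (C : ℝ) (hC : 0 < C ∧ C ≤ 1) (i : Fin 2) (Xs : Pl) (χ : Pl → ℝ) (U : Set Pl)
    (hU : IsOpen U) (hXU : Xs ∈ U) (hUC : U ⊆ CD C) (hχ : ContDiffOn ℝ 2 χ U)
    (h3 : kh' (z3 C Xs (χ Xs)) < 0) (h2 : kh' (z2 C Xs (χ Xs)) < 0)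
    (τm he : ℝ) (hhe : 0 < he) (hz : (Zd i (limD C Xs (χ Xs)) τm).1 = 0) (V : Set Pl)
    (A : Pl →L[ℝ] ℝ) (hA : HasFDerivAt (fun X => LP C i X (χ X)) A Xs) (hm : ∀ v ∈ V, A v ≠ 0)
    (hhe2 : he < Real.pi / lzw i (toLC i 0 (colD (limD C Xs (χ Xs))))) :
    TIsoV V (fun q => (Zd i (limD C q.1 (χ q.1)) q.2).1) Xs τm he :=
  @Pool.Agent.HS.sun_zeroV_pr C hC i Xs χ U hU hXU hUC hχ h3 h2 τm he hhe hz V A hA hm hhe2

end Pool.Agent.HS
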