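import Pool.Agent.Lib_helper60.HSF.D_WM0
import Pool.Agent.Lib_helper60.HSF.N_MI
import Pool.Agent.Lib_helper60.HSF.Z_QA8
import Pool.Agent.Lib_helper60.HSF.Z_QA7
import Pool.Agent.Lib_helper60.HSF.K_KD1
import Pool.Agent.Lib_helper60.HSF.N_ME
import Pool.Agent.Lib_helper60.HSF.Z_ZA1
import Pool.Agent.Lib_helper60.HSF.N_MF
import Pool.Agent.Lib_helper60.HSF.N_MG
import Pool.Agent.Lib_helper60.HSF.K_KA1
import Pool.Agent.Lib_helper60.HSF.N_MA
import Pool.Agent.Lib_helper60.HSF.N_MD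
import Pool.Agent.Lib_helper60.HSF.Z_ZC
import Pool.Agent.Lib_helper60.HSF.N_MH

/-!
# Project HS, part S1-M0, block MJ: assembly
-/

namespace Pool.Agent.HS

noncomputable section

open Set Filter Topology Classical
open scoped ContDiff

theorem mj_h30 : h30 < 0 := by unfold h30; norm_num

theorem mj_h20 : h20 < 0 := by
  unfold h20
  have : (0:ℝ) < (2:ℝ) ^ (-(1/3) : ℝ) := Real.rpow_pos_of_pos (by norm_num) _
  linarith

/-- the other body stays away from the sun -/
theorem mj_xQ {C : ℝ} {i : Fin 2} {X : Pl} {χ : ℝ} (h3 : kh' (z3 C X χ) < 0)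
    (h2 : kh' (z2 C X χ) < 0) (hQ : LQ C i X χ ≠ 0) (τ : ℝ) :
    (Zd i (limD C X χ) τ).2.2.1 ≠ 0 := by
  have hp := z_p C X χ
  have hEll : Ell (pQ i (colD (limD C X χ))) := by
    fin_cases i
    · have : pQ 0 (colD (limD C X χ)) = z2 C X χ := by
        simp only [pQ, if_true]; exact hp.2
      show Ell (pQ 0 (colD (limD C X χ)))
      rw [this]
      exact ⟨h2, by simpa [LQ] using hQ⟩
    · have : pQ 1 (colD (limD C X χ)) = z3 C X χ := by
        simp only [pQ, Fin.one_eq_zero_iff, OfNat.ofNat_ne_one, if_false]; exact hp.1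
      show Ell (pQ 1 (colD (limD C X χ)))
      rw [this]
      exact ⟨h3, by simpa [LQ] using hQ⟩
  have hk := (kep_ell hEll (lzt i τ (toLC i 0 (colD (limD C X χ))))).1
  have h0 := kL_ne hk.2
  have e : (Zd i (limD C X χ) τ).2.2.1 =
      (kep (lzt i τ (toLC i 0 (colD (limD C X χ)))) (pQ i (colD (limD C X χ)))).1 := by
    fin_cases i <;> rfl
  rw [e]
  exact h0

theorem supM0_pr (ρe : ℝ) (hρ : 0 < ρe) : ∃ C0 : ℝ, 0 < C0 ∧ C0 ≤ 1 ∧ ∀ C, 0 < C → C < C0 →
    ∀ i, SupM C ρe i 0 := by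
  obtain ⟨c1, hc1, hc1', H1⟩ := m0_near
  obtain ⟨c2, hc2, hc2', H2⟩ := m0_dl
  set ε := min (min ρe (1 / 200)) (min c1 c2) with hεdef
  have hε : 0 < ε := by
    simp only [hεdef, lt_min_iff]
    exact ⟨⟨hρ, by norm_num⟩, hc1, hc2⟩
  have hε1 : ε ≤ ρe := (min_le_left _ _).trans (min_le_left _ _)
  have hε2 : ε ≤ 1 / 200 := (min_le_left _ _).trans (min_le_right _ _)
  have hε3 : ε ≤ c1 := (min_le_right _ _).trans (min_le_left _ _)
  have hε4 : ε ≤ c2 := (min_le_right _ _).trans (min_le_right _ _)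
  obtain ⟨C1, hC1, hC1', H3⟩ := m0_exists ε hε
  refine ⟨min C1 (min c1 c2), by simp [hC1, hc1, hc2], (min_le_left _ _).trans hC1', ?_⟩
  intro C hC0 hCl i
  have hCa : C < C1 := hCl.trans_le (min_le_left _ _)
  have hCb : C < c1 := hCl.trans_le ((min_le_right _ _).trans (min_le_left _ _))
  have hCc : C < c2 := hCl.trans_le ((min_le_right _ _).trans (min_le_right _ _))
  have hC : 0 < C ∧ C ≤ 1 := ⟨hC0, (hCb.le).trans hc1'⟩
  obtain ⟨X, χs, hX, hχs, hD⟩ := H3 C hC0 hCa i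
  have hn := H1 C hC0 hCb X (hX.trans_le hε3)
  have hn2 := hn.2.2 χs (hχs.trans_le hε3)
  have h3 : kh' (z3 C X χs) < 0 := by rw [hD.h3]; exact mj_h30
  have h2 : kh' (z2 C X χs) < 0 := by rw [hD.h2]; exact mj_h20
  have hres : ((1:ℕ):ℝ) * kPer (z3 C X χs) = ((2:ℕ):ℝ) * kPer (z2 C X χs) := by
    rw [(m0_per3 hD.h3).2, (m0_per2 hD.h2).2]; push_cast; ring
  obtain ⟨h1, χ, hh1, hχX, hχC, hR, hE⟩ := tarc_local C hC i X χs 1 2 one_pos two_pos hn.1 h3 h2
    hres hn2.1 hn2.2 hD.Q (m0_free hC hD)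
  set T := T0 C i X χs 1 2 with hT
  obtain ⟨τm, hτm, hτ0, hτz⟩ := m0_sun hC hD
  rw [← hT] at hτm hτz
  -- continuity
  have hsub : Metric.closedBall X h1 ⊆ Metric.ball X (2 * h1) :=
    Metric.closedBall_subset_ball (by linarith)
  have hχc : ContinuousOn χ (Metric.closedBall X h1) := hχC.continuousOn.mono hsub
  have hXm : X ∈ Metric.closedBall X h1 := Metric.mem_closedBall_self hh1.le
  have hEl : ∀ Y ∈ Metric.closedBall X h1, kh' (z3 C Y (χ Y)) < 0 ∧ kh' (z2 C Y (χ Y)) < 0 := by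
    intro Y hY
    rw [(hE Y hY).1, (hE Y hY).2]
    exact ⟨h3, h2⟩
  have hQl : ∀ Y ∈ Metric.closedBall X h1, LQ C i Y (χ Y) ≠ 0 := by
    intro Y hY
    have := hR.z.sun Y hY
    have hp := z_p C Y (χ Y)
    unfold LQ
    fin_cases i
    · simp only [Fin.zero_eta, if_true] at this ⊢
      have e : (x2 (colD (limD C Y (χ Y))), u2 (colD (limD C Y (χ Y)))) = z2 C Y (χ Y) := hp.2
      have this' : kL (x2 (colD (limD C Y (χ Y))), u2 (colD (limD C Y (χ Y)))) ≠ 0 := this
      rwa [e] at this'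
    · simp only [Fin.mk_one, Fin.one_eq_zero_iff] at this ⊢
      have e : (x3 (colD (limD C Y (χ Y))), u3 (colD (limD C Y (χ Y)))) = z3 C Y (χ Y) := hp.1
      have this' : kL (x3 (colD (limD C Y (χ Y))), u3 (colD (limD C Y (χ Y)))) ≠ 0 := this
      rwa [e] at this'
  have hrl : ∀ Y ∈ Metric.closedBall X h1, 0 < zr C Y := by
    intro Y hY
    have h := (hR.z.pos Y hY).2.1
    have hrh : 0 < rh := by linarith [z_bounds.2.2.2.2.1]
    exact lt_trans (by positivity) h
  have hcont := m0_cont C i (Metric.closedBall X h1) χ hχc hrl hEl hQl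
  set f : Pl × ℝ → ℂ := fun q => (Zd i (limD C q.1 (χ q.1)) q.2).1 with hf
  have hfc : ContinuousOn f (Metric.closedBall X h1 ×ˢ univ) := continuous_fst.comp_continuousOn hcont
  set g : Pl × ℝ → ℂ := fun q => (Zd i (limD C q.1 (χ q.1)) q.2).2.2.1 with hg
  have hgc : ContinuousOn g (Metric.closedBall X h1 ×ˢ univ) :=
    (continuous_fst.comp (continuous_snd.comp continuous_snd)).comp_continuousOn hcont
  -- the event
  set j0 : Fin (i.val + 1) := 0 with hj0
  set τe := τm j0 with hτe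
  have hx0 : g (X, τe) ≠ 0 := by
    rw [hg]
    simp only
    exact mj_xQ (hEl X hXm).1 (hEl X hXm).2 (hQl X hXm) _
  obtain ⟨δ, hδ, hδ'⟩ := Metric.continuousOn_iff.mp hgc (X, τe) ⟨hXm, mem_univ _⟩
    (‖g (X, τe)‖ / 2) (by positivity)
  -- direction
  obtain ⟨δ2, hδ2, hδ2'⟩ := Metric.continuousOn_iff.mp hχc X hXm (1 / 200) (by norm_num)
  -- frequency
  have hTpos : 0 < T := (hτm j0).1.trans (hτm j0).2
  have hw : 0 < Real.pi / lzw i (toLC i 0 (colD (limD C X χs))) := by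
    by_contra hcon
    push Not at hcon
    have : T ≤ 0 := by
      rw [hT]
      unfold T0
      apply mul_nonpos_of_nonneg_of_nonpos _ hcon
      split_ifs <;> norm_num
    linarith
  -- the window size
  obtain ⟨he, hhe, hhe1, hhe2, hhe3⟩ : ∃ he : ℝ, 0 < he ∧ (∀ j, he < τm j ∧ he < T - τm j) ∧
      he < Real.pi / lzw i (toLC i 0 (colD (limD C X χs))) ∧ he < δ := by
    have : ∀ᶠ he in 𝓝[>] (0:ℝ), 0 < he ∧ (∀ j, he < τm j ∧ he < T - τm j) ∧
      he < Real.pi / lzw i (toLC i 0 (colD (limD C X χs))) ∧ he < δ := by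
      refine Filter.Eventually.and self_mem_nhdsWithin (Filter.Eventually.and ?_
        (Filter.Eventually.and ?_ ?_))
      · rw [Filter.eventually_all]
        intro j
        exact ((gt_mem_nhds (hτm j).1).filter_mono nhdsWithin_le_nhds).and
          ((gt_mem_nhds (by linarith [(hτm j).2])).filter_mono nhdsWithin_le_nhds)
      · exact (gt_mem_nhds hw).filter_mono nhdsWithin_le_nhds
      · exact (gt_mem_nhds hδ).filter_mono nhdsWithin_le_nhds
    obtain ⟨he, h⟩ := this.exists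
    exact ⟨he, h.1, h.2.1, h.2.2.1, h.2.2.2⟩
  obtain ⟨h', hh', hh'1, hwin⟩ := m0_window (he := he / 2) (T := T) (f := f) hh1
    (hfc.mono (prod_mono_right (subset_univ _))) τm
    (by
      intro τ hτ hne
      have := hτz τ hτ hne
      rw [hf]
      simp only
      rw [hχX]
      exact this) (by linarith)
  set h0 := min h' (min (δ / 2) (δ2 / 2)) with hh0
  have hh0p : 0 < h0 := by simp [hh0, hh', hδ, hδ2]
  have hh0a : h0 ≤ h' := min_le_left _ _
  have hh0b : h0 ≤ δ / 2 := (min_le_right _ _).trans (min_le_left _ _)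
  have hh0c : h0 ≤ δ2 / 2 := (min_le_right _ _).trans (min_le_right _ _)
  have hsub0 : Metric.closedBall X h0 ⊆ Metric.closedBall X h1 :=
    Metric.closedBall_subset_closedBall (hh0a.trans hh'1)
  -- covector
  have hdiff : DifferentiableAt ℝ χ X :=
    (hχC.contDiffAt (Metric.isOpen_ball.mem_nhds (Metric.mem_ball_self (by linarith)))).differentiableAt
      (by norm_num)
  obtain ⟨A, hA, hAm⟩ := H2 C hC0 hCc X (hX.trans_le hε4) χ (by rw [hχX]; exact hχs.trans_le hε4)
    hdiff (by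
      filter_upwards [Metric.closedBall_mem_nhds X hh1] with Y hY
      rw [(hE Y hY).1, (hE Y hY).2, hD.h3, hD.h2]
      rfl) i
  have hIso : ∀ j, TIso 0 f X (τm j) he := by
    intro j
    refine sun_zero C hC i X χ h1 hh1 hχC (fun Y hY => (hR.cd Y hY).1) hEl (τm j) he hhe ?_ 0 A hA
      hAm ?_
    · rw [hχX]; exact hτ0 j
    · rw [hχX]; exact hhe2
  refine ⟨X, h0, χ, fun _ => T, τe, he, i.val + 1, τm, 0, ?_, hh0p, hhe, ?_, ?_, ?_, ?_, ?_, ?_, ?_, ?_⟩
  · rw [mem_closedBall_zero_iff]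
    linarith
  · have := i.isLt
    omega
  · exact rarc_mono hR (isCompact_closedBall _ _) hsub0
  · intro Y hY
    have h := hδ2' Y (hsub0 hY) (by
      rw [Metric.mem_closedBall] at hY
      linarith)
    rw [hχX, Real.dist_eq] at h
    have h5 := abs_lt.mp h
    have h6 := abs_lt.mp hχs
    rw [abs_le]
    constructor <;> linarith
  · intro Y _
    have := hhe1 j0
    constructor <;> linarith
  · refine ⟨fun j Y _ => ?_, ?_⟩
    · have := hhe1 j
      constructor <;> linarith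
    · intro Y hY τ hτ hj
      exact hwin Y (Metric.closedBall_subset_closedBall hh0a hY) τ ⟨hτ.1.le, hτ.2.le⟩
        (fun j => (hj j).le)
  · refine ⟨g (X, τe), ?_⟩
    intro Y hY τ hτ
    have hd : dist (Y, τ) (X, τe) < δ := by
      rw [Prod.dist_eq, max_lt_iff]
      rw [Metric.mem_closedBall] at hY
      refine ⟨by dsimp only; linarith, ?_⟩
      dsimp only
      rw [Real.dist_eq, abs_lt]
      constructor <;> linarith [hτ.1, hτ.2]
    have h := hδ' (Y, τ) ⟨hsub0 hY, mem_univ _⟩ hd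
    rw [dist_eq_norm] at h
    exact h.le
  · have h := (hIso j0).1
    have e : midG C i χ 0 = f := by
      funext q
      simp [midG, hf]
    rw [e]
    exact h
  · intro j
    exact hIso j

end

end Pool.Agent.HS

namespace Pool.Agent.HS
open Set Filter Topology Classical
open scoped ContDiff

theorem supM0 (ρe : ℝ) (hρ : 0 < ρe) : ∃ C0 : ℝ, 0 < C0 ∧ C0 ≤ 1 ∧ ∀ C, 0 < C → C < C0 →
    ∀ i, SupM C ρe i 0 :=
  @Pool.Agent.HS.supM0_pr ρe hρ

end Pool.Agent.HS
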