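import Pool.Agent.Lib_helper60.HSF.D_WM
import Pool.Agent.Lib_helper60.HSF.N_MJ
import Pool.Agent.Lib_helper60.HSF.M_MO2

namespace Pool.Agent.HS

noncomputable section

open Set Filter Topology
open scoped ContDiff

theorem supM_exists_pr (ρe : ℝ) (hρ : 0 < ρe) : ∃ C0 : ℝ, 0 < C0 ∧ C0 ≤ 1 ∧ ∀ C, 0 < C → C < C0 →
    ∀ i y, y ≠ 1 → ‖y‖ ≤ yb i → SupM C ρe i y := by
  obtain ⟨C1, h1, h1', H1⟩ := supM0 ρe hρ
  obtain ⟨C2, h2, h2', H2⟩ := supM_ne ρe hρ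
  refine ⟨min C1 C2, lt_min h1 h2, (min_le_left _ _).trans h1', ?_⟩
  intro C hC hCC i y hy hyb
  by_cases h0 : y = 0
  · rw [h0]
    exact H1 C hC (hCC.trans_le (min_le_left _ _)) i
  · exact H2 C hC (hCC.trans_le (min_le_right _ _)) i y h0 hy hyb

end

end Pool.Agent.HS

namespace Pool.Agent.HS
open Set Filter Topology Classical

theorem supM_exists (ρe : ℝ) (hρ : 0 < ρe) : ∃ C0 : ℝ, 0 < C0 ∧ C0 ≤ 1 ∧ ∀ C, 0 < C → C < C0 →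
    ∀ i y, y ≠ 1 → ‖y‖ ≤ yb i → SupM C ρe i y :=
  @Pool.Agent.HS.supM_exists_pr ρe hρ

end Pool.Agent.HS
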