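import Pool.Agent.Lib_helper60.HSF.D_WM0
import Pool.Agent.Lib_helper60.HSF.Z_ZC

/-! HS part S1-M0, block MB: states from the radial velocities and the angular momenta. -/

namespace Pool.Agent.HS

noncomputable section

open Set Filter Topology Classical
open scoped ContDiff

/-- polar form of `p + i q`, `p > 0` -/
theorem mb_polar {p q : ℝ} (hp : 0 < p) :
    ((Real.sqrt (p ^ 2 + q ^ 2) : ℝ) : ℂ) * Complex.exp ((Real.arctan (q / p) : ℝ) * Complex.I) =
      (p : ℂ) + (q : ℂ) * Complex.I := by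
  have hW : 0 < Real.sqrt (p ^ 2 + q ^ 2) := Real.sqrt_pos.mpr (by positivity)
  have h1 : Real.sqrt (1 + (q / p) ^ 2) = Real.sqrt (p ^ 2 + q ^ 2) / p := by
    have e : 1 + (q / p) ^ 2 = (p ^ 2 + q ^ 2) / p ^ 2 := by field_simp
    rw [e, Real.sqrt_div (by positivity), Real.sqrt_sq hp.le]
  have hc : Real.cos (Real.arctan (q / p)) = p / Real.sqrt (p ^ 2 + q ^ 2) := by
    rw [Real.cos_arctan, h1]
    field_simp
  have hs : Real.sin (Real.arctan (q / p)) = q / Real.sqrt (p ^ 2 + q ^ 2) := by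
    rw [Real.sin_arctan, h1]
    field_simp
  rw [Complex.exp_mul_I, ← Complex.ofReal_cos, ← Complex.ofReal_sin, hc, hs]
  have hW' : ((Real.sqrt (p ^ 2 + q ^ 2) : ℝ) : ℂ) ≠ 0 := by exact_mod_cast hW.ne'
  push_cast
  field_simp

theorem m0_states_pr {C : ℝ} (hC : 0 < C) {X : Pl} (hr : 0 < zr C X) {v3 v2 L3 L2 e3 e2 : ℝ}
    (hv : v2 < v3) (hL : ma * L3 + mb * L2 = C) (hp : zϖ X * C = rh * (ma * v3 + mb * v2))
    (hE : ma * e3 + mb * e2 = E0)
    (h3 : (v3 ^ 2 + L3 ^ 2 / zr C X ^ 2) / 2 - 1 / zr C X = e3)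
    (h2 : (v2 ^ 2 + L2 ^ 2 / zr C X ^ 2) / 2 - 1 / zr C X = e2) :
    z3 C X (Real.arctan ((L3 - L2) / (zr C X * (v3 - v2)))) =
      ((zr C X : ℂ), (v3 : ℂ) + ((L3 / zr C X : ℝ) : ℂ) * Complex.I) ∧
    z2 C X (Real.arctan ((L3 - L2) / (zr C X * (v3 - v2)))) =
      ((zr C X : ℂ), (v2 : ℂ) + ((L2 / zr C X : ℝ) : ℂ) * Complex.I) := by
  have hrh : 0 < rh := by linarith [z_bounds.2.2.2.2.1]
  have hpp : (chart C X).2 = ma * v3 + mb * v2 := by
    have : (chart C X).2 = zϖ X * C / rh := by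
      unfold chart zϖ
      ring
    rw [this, hp]
    field_simp
  set r := zr C X with hrdef
  have hdv : 0 < v3 - v2 := by linarith
  have hk : zk C X = Real.sqrt ((v3 - v2) ^ 2 + ((L3 - L2) / r) ^ 2) := by
    have e1 : zk C X =
        Real.sqrt (2 / (ma * mb) * (E0 + 1 / r - ((chart C X).2 ^ 2 + C ^ 2 / r ^ 2) / 2)) := rfl
    rw [e1, hpp]
    congr 1
    rw [← hE, ← h3, ← h2, ← hL]
    unfold ma mb
    field_simp
    ring
  have harg : (L3 - L2) / (r * (v3 - v2)) = ((L3 - L2) / r) / (v3 - v2) := by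
    rw [div_div]
  have hw : zw C X (Real.arctan ((L3 - L2) / (r * (v3 - v2)))) =
      ((v3 - v2 : ℝ) : ℂ) + (((L3 - L2) / r : ℝ) : ℂ) * Complex.I := by
    unfold zw
    rw [hk, harg]
    exact mb_polar hdv
  have hU : (C : ℂ) * zU C X = ((ma * v3 + mb * v2 : ℝ) : ℂ) + ((C / r : ℝ) : ℂ) * Complex.I := by
    unfold zU
    rw [← hrdef]
    have e : C * (zϖ X / rh) = ma * v3 + mb * v2 := by
      have : C * (zϖ X / rh) = zϖ X * C / rh := by ring
      rw [this, hp]
      field_simp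
    have e' : C * (1 / r) = C / r := by ring
    rw [mul_add, ← mul_assoc, ← Complex.ofReal_mul, ← Complex.ofReal_mul, e, e']
  have hr0 : r ≠ 0 := hr.ne'
  constructor
  · unfold z3
    rw [hw, hU, ← hrdef]
    refine Prod.ext rfl ?_
    apply Complex.ext
    · simp only [Complex.add_re, Complex.mul_re, Complex.ofReal_re, Complex.ofReal_im, Complex.I_re,
        Complex.I_im, Complex.add_im, Complex.mul_im]
      unfold ma mb
      ring
    · simp only [Complex.add_re, Complex.mul_re, Complex.ofReal_re, Complex.ofReal_im, Complex.I_re,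
        Complex.I_im, Complex.add_im, Complex.mul_im]
      rw [← hL]
      unfold ma mb
      field_simp
      ring
  · unfold z2
    rw [hw, hU, ← hrdef]
    refine Prod.ext rfl ?_
    apply Complex.ext
    · simp only [Complex.add_re, Complex.mul_re, Complex.ofReal_re, Complex.ofReal_im, Complex.I_re,
        Complex.I_im, Complex.add_im, Complex.mul_im, Complex.sub_re, Complex.sub_im]
      unfold ma mb
      ring
    · simp only [Complex.add_re, Complex.mul_re, Complex.ofReal_re, Complex.ofReal_im, Complex.I_re,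
        Complex.I_im, Complex.add_im, Complex.mul_im, Complex.sub_re, Complex.sub_im]
      rw [← hL]
      unfold ma mb
      field_simp
      ring

end

end Pool.Agent.HS

namespace Pool.Agent.HS
open Set Filter Topology Classical
open scoped ContDiff

theorem m0_states {C : ℝ} (hC : 0 < C) {X : Pl} (hr : 0 < zr C X) {v3 v2 L3 L2 e3 e2 : ℝ}
    (hv : v2 < v3) (hL : ma * L3 + mb * L2 = C) (hp : zϖ X * C = rh * (ma * v3 + mb * v2))
    (hE : ma * e3 + mb * e2 = E0)
    (h3 : (v3 ^ 2 + L3 ^ 2 / zr C X ^ 2) / 2 - 1 / zr C X = e3)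
    (h2 : (v2 ^ 2 + L2 ^ 2 / zr C X ^ 2) / 2 - 1 / zr C X = e2) :
    z3 C X (Real.arctan ((L3 - L2) / (zr C X * (v3 - v2)))) =
      ((zr C X : ℂ), (v3 : ℂ) + ((L3 / zr C X : ℝ) : ℂ) * Complex.I) ∧
    z2 C X (Real.arctan ((L3 - L2) / (zr C X * (v3 - v2)))) =
      ((zr C X : ℂ), (v2 : ℂ) + ((L2 / zr C X : ℝ) : ℂ) * Complex.I) :=
  @Pool.Agent.HS.m0_states_pr C hC X hr v3 v2 L3 L2 e3 e2 hv hL hp hE h3 h2

end Pool.Agent.HS
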