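import Pool.Agent.Lib_helper60.HSF.D_WM0
import Pool.Agent.Lib_helper60.HSF.Z_ZC
import Pool.Agent.Lib_helper60.HSF.N_MA

/-!
# Project HS, part S1-M0, block MC: the limit `C → 0` (helper75)
-/

namespace Pool.Agent.HS

noncomputable section

open Set Filter Topology Classical
open scoped ContDiff

theorem mc_consts : 0 < kh ∧ 0 < rh ∧ 0 < cc := by
  obtain ⟨-, -, h1, -, h2, -, h3, -⟩ := z_bounds
  exact ⟨by linarith, by linarith, by linarith⟩

theorem mc_r : HasDerivAt m0r (1 / (2 * cc * rh)) 0 := by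
  have h1 : HasDerivAt (fun C : ℝ => rh + C / (2 * cc * rh)) (1 / (2 * cc * rh)) 0 :=
    ((hasDerivAt_id (0 : ℝ)).div_const (2 * cc * rh)).const_add rh
  exact h1

theorem mc_r0 : m0r 0 = rh := (m0_zero 0).1

theorem mc_rad (h L : ℝ) :
    HasDerivAt (fun C => 2 * h + 2 / m0r C - (C * L) ^ 2 / m0r C ^ 2) (-(1 / (cc * rh ^ 3))) 0 := by
  obtain ⟨hk, hr, hc⟩ := mc_consts
  have hr0 : m0r 0 ≠ 0 := by rw [mc_r0]; exact hr.ne'
  have h1 : HasDerivAt (fun C => 2 / m0r C)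
      ((0 * m0r 0 - 2 * (1 / (2 * cc * rh))) / m0r 0 ^ 2) 0 :=
    (hasDerivAt_const (0 : ℝ) (2 : ℝ)).div mc_r hr0
  have h2 : HasDerivAt (fun C : ℝ => (C * L) ^ 2) (((2 : ℕ) : ℝ) * (0 * L) ^ (2 - 1) * (1 * L)) 0 :=
    ((hasDerivAt_id (0 : ℝ)).mul_const L).pow 2
  have h3 : HasDerivAt (fun C => m0r C ^ 2)
      (((2 : ℕ) : ℝ) * m0r 0 ^ (2 - 1) * (1 / (2 * cc * rh))) 0 := mc_r.pow 2
  have h4 := h2.div h3 (pow_ne_zero 2 hr0)
  have h5 := (h1.const_add (2 * h)).sub h4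
  refine h5.congr_deriv ?_
  rw [mc_r0]
  have hr' : rh ≠ 0 := hr.ne'
  have hc' : cc ≠ 0 := hc.ne'
  field_simp
  ring

theorem mc_v3 (i : Fin 2) :
    HasDerivAt (fun C => m0v3 C i) (-(1 / (cc * rh ^ 3)) / (2 * (mb * kh))) 0 := by
  obtain ⟨hk, hr, hc⟩ := mc_consts
  obtain ⟨-, -, -, h3, -⟩ := m0_zero i
  have hpos : (0 : ℝ) < mb * kh := by unfold mb; positivity
  have hne : 2 * h30 + 2 / m0r 0 - (0 * m0L3 i) ^ 2 / m0r 0 ^ 2 ≠ 0 := by
    intro h0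
    unfold m0v3 at h3
    rw [h0, Real.sqrt_zero] at h3
    exact hpos.ne h3
  have h := (mc_rad h30 (m0L3 i)).sqrt hne
  have e : √(2 * h30 + 2 / m0r 0 - (0 * m0L3 i) ^ 2 / m0r 0 ^ 2) = mb * kh := h3
  rw [e] at h
  exact h

theorem mc_v2 (i : Fin 2) :
    HasDerivAt (fun C => m0v2 C i) (-(-(1 / (cc * rh ^ 3)) / (2 * (ma * kh)))) 0 := by
  obtain ⟨hk, hr, hc⟩ := mc_consts
  obtain ⟨-, -, -, -, h3⟩ := m0_zero i
  have hpos : (0 : ℝ) < ma * kh := by unfold ma; positivity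
  have h3' : √(2 * h20 + 2 / m0r 0 - (0 * m0L2 i) ^ 2 / m0r 0 ^ 2) = ma * kh := by
    unfold m0v2 at h3
    linarith
  have hne : 2 * h20 + 2 / m0r 0 - (0 * m0L2 i) ^ 2 / m0r 0 ^ 2 ≠ 0 := by
    intro h0
    rw [h0, Real.sqrt_zero] at h3'
    exact hpos.ne h3'
  have h := ((mc_rad h20 (m0L2 i)).sqrt hne).neg
  rw [h3'] at h
  exact h

theorem mc_phi (i : Fin 2) :
    HasDerivAt (fun C => ma * m0v3 C i + mb * m0v2 C i) (1 / (2 * rh)) 0 := by
  obtain ⟨hk, hr, hc⟩ := mc_consts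
  have h := ((mc_v3 i).const_mul ma).add ((mc_v2 i).const_mul mb)
  refine h.congr_deriv ?_
  have hr' : rh ≠ 0 := hr.ne'
  have hk' : kh ≠ 0 := hk.ne'
  rw [show cc = 8 / (3 * rh ^ 2 * kh) from rfl]
  unfold ma mb
  field_simp
  norm_num

/-- the limit `C → 0` -/
theorem m0_lim_pr (i : Fin 2) : Tendsto (fun C => m0z C i) (𝓝[>] 0) (𝓝 0) ∧
    Tendsto (fun C => m0χ C i) (𝓝[>] 0) (𝓝 0) := by
  obtain ⟨hk, hr, hc⟩ := mc_consts
  obtain ⟨-, -, -, hv3, hv2⟩ := m0_zero i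
  have hr' : rh ≠ 0 := hr.ne'
  constructor
  · have h := hasDerivAt_iff_tendsto_slope_zero.1 (mc_phi i)
    have h1 : Tendsto (fun t : ℝ => t⁻¹ • ((ma * m0v3 (0 + t) i + mb * m0v2 (0 + t) i) -
        (ma * m0v3 0 i + mb * m0v2 0 i))) (𝓝[>] 0) (𝓝 (1 / (2 * rh))) :=
      h.mono_left (nhdsWithin_mono _ fun x hx => ne_of_gt hx)
    have h2 := (h1.const_mul rh).sub_const (1 / 2)
    have e0 : rh * (1 / (2 * rh)) - 1 / 2 = 0 := by field_simp; norm_num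
    rw [e0] at h2
    refine h2.congr fun C => ?_
    rw [hv3, hv2, zero_add, smul_eq_mul]
    unfold m0z
    have e1 : ma * (mb * kh) + mb * -(ma * kh) = 0 := by ring
    rw [e1, sub_zero, div_eq_mul_inv (rh * _)]
    ring
  · have hne : m0r 0 * (m0v3 0 i - m0v2 0 i) ≠ 0 := by
      rw [mc_r0, hv3, hv2]
      unfold ma mb
      have : (0:ℝ) < rh * (3 / 4 * kh - -(1 / 4 * kh)) := by
        have : (3 / 4 * kh - -(1 / 4 * kh)) = kh := by ring
        rw [this]; positivity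
      exact this.ne'
    have c1 : ContinuousAt (fun C => (C * m0L3 i - C * m0L2 i) /
        (m0r C * (m0v3 C i - m0v2 C i))) 0 := by
      refine ContinuousAt.div (by fun_prop) ?_ hne
      exact mc_r.continuousAt.mul ((mc_v3 i).continuousAt.sub (mc_v2 i).continuousAt)
    have c2 : ContinuousAt (fun C => m0χ C i) 0 :=
      Real.continuous_arctan.continuousAt.comp c1
    have e : m0χ 0 i = 0 := by
      unfold m0χ
      simp
    have c3 := c2.tendsto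
    rw [e] at c3
    exact c3.mono_left nhdsWithin_le_nhds


end

end Pool.Agent.HS

namespace Pool.Agent.HS
open Set Filter Topology Classical
open scoped ContDiff

theorem m0_lim (i : Fin 2) : Tendsto (fun C => m0z C i) (𝓝[>] 0) (𝓝 0) ∧
    Tendsto (fun C => m0χ C i) (𝓝[>] 0) (𝓝 0) :=
  @Pool.Agent.HS.m0_lim_pr i

end Pool.Agent.HS
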