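import Pool.Agent.Lib_helper60.HSF.D_WM0
import Pool.Agent.Lib_helper60.HSF.N_MB
import Pool.Agent.Lib_helper60.HSF.N_MC
import Pool.Agent.Lib_helper60.HSF.Z_ZC
import Pool.Agent.Lib_helper60.HSF.N_MA

/-!
# Project HS, part S1-M0, block MD: existence of the data
-/

namespace Pool.Agent.HS

noncomputable section

open Set Filter Topology Classical
open scoped ContDiff

theorem md_rcont : ContinuousAt m0r 0 := by
  unfold m0r
  fun_prop

theorem md_r0 : m0r 0 = rh := by simp [m0r]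

theorem md_rad (h : ℝ) (l : ℝ) (hpos : 0 < 2 * h + 2 / rh) :
    ∀ᶠ C in 𝓝 (0 : ℝ), 0 < 2 * h + 2 / m0r C - (C * l) ^ 2 / m0r C ^ 2 := by
  have hrh : rh ≠ 0 := by
    have := z_bounds
    intro h0
    rw [h0] at this
    linarith [this.2.2.2.2.1]
  have h1 : ContinuousAt (fun C => 2 * h + 2 / m0r C - (C * l) ^ 2 / m0r C ^ 2) 0 := by
    apply ContinuousAt.sub
    · exact continuousAt_const.add (continuousAt_const.div md_rcont (by rw [md_r0]; exact hrh))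
    · apply ContinuousAt.div (by fun_prop) (md_rcont.pow 2)
      exact pow_ne_zero 2 (by rw [md_r0]; exact hrh)
  have h2 : 2 * h + 2 / m0r 0 - (0 * l) ^ 2 / m0r 0 ^ 2 = 2 * h + 2 / rh := by
    simp [md_r0]
  have h3 := h1.tendsto
  simp only [h2] at h3
  exact h3.eventually (lt_mem_nhds hpos)

theorem md_data {C : ℝ} (hC : 0 < C) (i : Fin 2) (hr1 : 1 < m0r C) (hr2 : m0r C < 5 / 4)
    (h3 : 0 < 2 * h30 + 2 / m0r C - (C * m0L3 i) ^ 2 / m0r C ^ 2)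
    (h2 : 0 < 2 * h20 + 2 / m0r C - (C * m0L2 i) ^ 2 / m0r C ^ 2) :
    M0D C i (0, m0z C i) (m0χ C i) := by
  have hb := z_bounds
  have hrh : rh ≠ 0 := by
    intro h0
    rw [h0] at hb
    linarith [hb.2.2.2.2.1]
  have hcc : cc ≠ 0 := by
    intro h0
    rw [h0] at hb
    linarith [hb.2.2.2.2.2.2.1]
  have hzr : zr C (0, m0z C i) = m0r C := by
    simp only [zr, chart, m0r]
    field_simp
    ring
  have hr0 : 0 < m0r C := by linarith
  have hr0' : m0r C ≠ 0 := hr0.ne'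
  have v3 : 0 < m0v3 C i := Real.sqrt_pos.2 h3
  have v2 : m0v2 C i < 0 := by
    unfold m0v2
    have := Real.sqrt_pos.2 h2
    linarith
  have v3s : m0v3 C i ^ 2 = 2 * h30 + 2 / m0r C - (C * m0L3 i) ^ 2 / m0r C ^ 2 :=
    Real.sq_sqrt h3.le
  have v2s : m0v2 C i ^ 2 = 2 * h20 + 2 / m0r C - (C * m0L2 i) ^ 2 / m0r C ^ 2 := by
    unfold m0v2
    rw [neg_sq]
    exact Real.sq_sqrt h2.le
  have hL : ma * (C * m0L3 i) + mb * (C * m0L2 i) = C := by
    fin_cases i <;> simp [ma, mb, m0L3, m0L2] <;> ring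
  have hp : zϖ (0, m0z C i) * C = rh * (ma * m0v3 C i + mb * m0v2 C i) := by
    simp only [zϖ, m0z]
    field_simp
    ring
  have e3 : (m0v3 C i ^ 2 + (C * m0L3 i) ^ 2 / zr C (0, m0z C i) ^ 2) / 2 -
      1 / zr C (0, m0z C i) = h30 := by
    rw [hzr, v3s]
    ring
  have e2 : (m0v2 C i ^ 2 + (C * m0L2 i) ^ 2 / zr C (0, m0z C i) ^ 2) / 2 -
      1 / zr C (0, m0z C i) = h20 := by
    rw [hzr, v2s]
    ring
  obtain ⟨s3, s2⟩ := m0_states hC (X := (0, m0z C i)) (by rw [hzr]; exact hr0) (v2.trans v3) hL hp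
    (e3 := h30) (e2 := h20) rfl e3 e2
  rw [hzr] at s3 s2
  have hχ : Real.arctan ((C * m0L3 i - C * m0L2 i) / (m0r C * (m0v3 C i - m0v2 C i))) =
      m0χ C i := rfl
  rw [hχ] at s3 s2
  -- energies and momenta of a state
  have key : ∀ v L : ℝ, kh' (((m0r C : ℂ), (v : ℂ) + ((L / m0r C : ℝ) : ℂ) * Complex.I) : KS) =
      (v ^ 2 + L ^ 2 / m0r C ^ 2) / 2 - 1 / m0r C ∧
      kσ (((m0r C : ℂ), (v : ℂ) + ((L / m0r C : ℝ) : ℂ) * Complex.I) : KS) = m0r C * v ∧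
      kL (((m0r C : ℂ), (v : ℂ) + ((L / m0r C : ℝ) : ℂ) * Complex.I) : KS) = L := by
    intro v L
    refine ⟨?_, ?_, ?_⟩
    · simp only [kh']
      rw [← Complex.normSq_eq_norm_sq, Complex.norm_real, Real.norm_of_nonneg hr0.le]
      simp only [Complex.normSq_apply, Complex.add_re, Complex.ofReal_re, Complex.mul_re,
        Complex.I_re, mul_zero, Complex.ofReal_im, Complex.I_im, mul_one, sub_self, add_zero,
        Complex.add_im, Complex.mul_im, zero_add]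
      rw [div_mul_div_comm]
      ring
    · simp [kσ]
    · simp [kL]
      field_simp
  refine ⟨?_, ?_, ?_, ?_, ?_, ?_, ?_⟩
  · rw [s3, (key _ _).1, v3s]
    ring
  · rw [s2, (key _ _).1, v2s]
    ring
  · unfold LP
    rw [s3, s2, (key _ _).2.2, (key _ _).2.2]
    fin_cases i <;> simp [m0L3, m0L2]
  · unfold LQ
    rw [s3, s2, (key _ _).2.2, (key _ _).2.2]
    fin_cases i <;> simp [m0L3, m0L2, hC.ne']
  · rw [hzr]
    exact ⟨hr1, hr2⟩
  · rw [s3, (key _ _).2.1]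
    exact mul_pos hr0 v3
  · rw [s2, (key _ _).2.1]
    exact mul_neg_of_pos_of_neg hr0 v2

theorem m0_exists_pr (ε : ℝ) (hε : 0 < ε) : ∃ C0 : ℝ, 0 < C0 ∧ C0 ≤ 1 ∧ ∀ C, 0 < C → C < C0 →
    ∀ i, ∃ (X : Pl) (χ : ℝ), ‖X‖ < ε ∧ |χ| < ε ∧ M0D C i X χ := by
  obtain ⟨b1, b2, b3, b4, b5, b6, -⟩ := z_bounds
  have hev : ∀ᶠ C in 𝓝[>] (0 : ℝ), ∀ i : Fin 2, ∃ (X : Pl) (χ : ℝ), ‖X‖ < ε ∧ |χ| < ε ∧
      M0D C i X χ := by
    rw [eventually_all]
    intro i
    obtain ⟨z0, z3, z2, -, -⟩ := m0_zero i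
    have hma : (0:ℝ) < ma := by norm_num [ma]
    have hmb : (0:ℝ) < mb := by norm_num [mb]
    have hkh : (0:ℝ) < kh := by linarith
    have p3 : 0 < 2 * h30 + 2 / rh := by rw [z3]; positivity
    have p2 : 0 < 2 * h20 + 2 / rh := by rw [z2]; positivity
    obtain ⟨l1, l2⟩ := m0_lim i
    have hr := md_rcont.tendsto
    rw [md_r0] at hr
    have f1 := nhdsWithin_le_nhds (s := Ioi (0:ℝ)) (hr.eventually (lt_mem_nhds
      (show 1 < rh by linarith)))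
    have f2 := nhdsWithin_le_nhds (s := Ioi (0:ℝ)) (hr.eventually (gt_mem_nhds
      (show rh < 5 / 4 by linarith)))
    have f3 := nhdsWithin_le_nhds (s := Ioi (0:ℝ)) (md_rad h30 (m0L3 i) p3)
    have f4 := nhdsWithin_le_nhds (s := Ioi (0:ℝ)) (md_rad h20 (m0L2 i) p2)
    have f5 : ∀ᶠ C in 𝓝[>] (0 : ℝ), |m0z C i| < ε := by
      have := l1.abs
      rw [abs_zero] at this
      exact this.eventually (gt_mem_nhds hε)
    have f6 : ∀ᶠ C in 𝓝[>] (0 : ℝ), |m0χ C i| < ε := by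
      have := l2.abs
      rw [abs_zero] at this
      exact this.eventually (gt_mem_nhds hε)
    filter_upwards [f1, f2, f3, f4, f5, f6, self_mem_nhdsWithin] with C g1 g2 g3 g4 g5 g6 g7
    refine ⟨(0, m0z C i), m0χ C i, ?_, g6, md_data g7 i g1 g2 g3 g4⟩
    rw [Prod.norm_def]
    simp only [norm_zero]
    exact max_lt hε g5
  obtain ⟨u, hu, hus⟩ := mem_nhdsGT_iff_exists_Ioo_subset.1 hev
  have hu' : 0 < u := hu
  refine ⟨min u 1, lt_min hu' one_pos, min_le_right _ _, fun C h1 h2 => ?_⟩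
  exact hus ⟨h1, h2.trans_le (min_le_left _ _)⟩

end

end Pool.Agent.HS

namespace Pool.Agent.HS
open Set Filter Topology Classical
open scoped ContDiff

theorem m0_exists (ε : ℝ) (hε : 0 < ε) : ∃ C0 : ℝ, 0 < C0 ∧ C0 ≤ 1 ∧ ∀ C, 0 < C → C < C0 →
    ∀ i, ∃ (X : Pl) (χ : ℝ), ‖X‖ < ε ∧ |χ| < ε ∧ M0D C i X χ :=
  @Pool.Agent.HS.m0_exists_pr ε hε

end Pool.Agent.HS
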