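import Pool.Agent.Lib_helper60.HSF.D_WL
import Pool.Agent.Lib_helper60.HSF.Z_ZC

/-!
# Project HS, part Z, block LA: the model loops
-/

namespace Pool.Agent.HS

noncomputable section

open Set Filter Topology
open scoped ContDiff

theorem la_cos (t : ℝ) : Real.cos (2 * Real.arctan t) = (1 - t ^ 2) / (1 + t ^ 2) := by
  rw [Real.cos_two_mul, Real.cos_sq_arctan]
  have : (1 + t ^ 2) ≠ 0 := by positivity
  field_simp
  ring

theorem la_sin (t : ℝ) : Real.sin (2 * Real.arctan t) = 2 * t / (1 + t ^ 2) := by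
  rw [Real.sin_two_mul, Real.sin_arctan, Real.cos_arctan]
  have h0 : (0:ℝ) < 1 + t ^ 2 := by positivity
  have h := Real.mul_self_sqrt h0.le
  have h1 : Real.sqrt (1 + t ^ 2) ≠ 0 := (Real.sqrt_pos.mpr h0).ne'
  have h2 : (1 + t ^ 2) ≠ 0 := h0.ne'
  have h3 : 2 * (t / Real.sqrt (1 + t ^ 2)) * (1 / Real.sqrt (1 + t ^ 2)) =
      2 * t / (Real.sqrt (1 + t ^ 2) * Real.sqrt (1 + t ^ 2)) := by
    field_simp
  rw [h3, h]

theorem dir_trig_pr (i : Fin 2) (k : Fin 4) :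
    (Real.cos (dir i k), Real.sin (dir i k)) =
      if i = 0 then ![((3/5:ℝ), (4/5:ℝ)), (0, -1), (-(3/5), 4/5), (0, 1)] k
      else ![(-(5/13:ℝ), -(12/13:ℝ)), (0, -1), (5/13, -(12/13)), (0, 1)] k := by
  fin_cases i <;> fin_cases k <;>
    simp [dir, la_cos, la_sin, Real.cos_neg, Real.sin_neg] <;> norm_num

theorem la_t00 : Real.cos (dir 0 0) = 3/5 ∧ Real.sin (dir 0 0) = 4/5 := by
  have h := dir_trig_pr 0 0
  simp only [Prod.ext_iff] at h
  simpa using h

theorem la_t01 : Real.cos (dir 0 1) = 0 ∧ Real.sin (dir 0 1) = -1 := by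
  have h := dir_trig_pr 0 1
  simp only [Prod.ext_iff] at h
  simpa using h

theorem la_t02 : Real.cos (dir 0 2) = -(3/5) ∧ Real.sin (dir 0 2) = 4/5 := by
  have h := dir_trig_pr 0 2
  simp only [Prod.ext_iff] at h
  simpa using h

theorem la_t03 : Real.cos (dir 0 3) = 0 ∧ Real.sin (dir 0 3) = 1 := by
  have h := dir_trig_pr 0 3
  simp only [Prod.ext_iff] at h
  simpa using h

theorem la_t10 : Real.cos (dir 1 0) = -(5/13) ∧ Real.sin (dir 1 0) = -(12/13) := by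
  have h := dir_trig_pr 1 0
  simp only [Prod.ext_iff] at h
  simpa using h

theorem la_t11 : Real.cos (dir 1 1) = 0 ∧ Real.sin (dir 1 1) = -1 := by
  have h := dir_trig_pr 1 1
  simp only [Prod.ext_iff] at h
  simpa using h

theorem la_t12 : Real.cos (dir 1 2) = 5/13 ∧ Real.sin (dir 1 2) = -(12/13) := by
  have h := dir_trig_pr 1 2
  simp only [Prod.ext_iff] at h
  simpa using h

theorem la_t13 : Real.cos (dir 1 3) = 0 ∧ Real.sin (dir 1 3) = 1 := by
  have h := dir_trig_pr 1 3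
  simp only [Prod.ext_iff] at h
  simpa using h

theorem la_mL : 0 < mΛ := by
  have h := z_bounds
  linarith [h.2.2.2.2.2.2.2.2.2.2.1]

theorem model_vtx_pr (i : Fin 2) (k : Fin 4) :
    Real.sin (dir i k) ≠ 0 ∧ mY (vtx i k) (dir i k) = lvY i k ∧ me (vtx i k) (dir i k) ≠ 0 ∧
    0 < lvj i k * mD (vtx i k) (dir i k) ∧ (lvj i k = 1 ∨ lvj i k = -1) ∧ 0 < lvν i k ∧
    lvν i k * (mΛ * mY (vtx i k) (dir i k)) = lvj i k ∧
    mF (vtx i k) (dir i k) = vtx i (k + 1) ∧ vtx i 0 = (0, 0) ∧ dir i 3 = Real.pi / 2 := by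
  have hL := la_mL
  have hL' := hL.ne'
  have e0 : (0 : Fin 4) + 1 = 1 := rfl
  have e1 : (1 : Fin 4) + 1 = 2 := rfl
  have e2 : (2 : Fin 4) + 1 = 3 := rfl
  have e3 : (3 : Fin 4) + 1 = 0 := rfl
  have t00 := la_t00
  have t01 := la_t01
  have t02 := la_t02
  have t03 := la_t03
  have t10 := la_t10
  have t11 := la_t11
  have t12 := la_t12
  have t13 := la_t13
  have hY : mY (vtx i k) (dir i k) = lvY i k := by
    fin_cases i <;> fin_cases k <;>
      simp only [Fin.zero_eta, Fin.mk_one, Fin.reduceFinMk, mY, t00, t01, t02, t03, t10, t11, t12, t13] <;>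
      simp [vtx, zρ, zϖ, lvY] <;> norm_num
  have hYn : lvY i k ≠ 0 := by
    fin_cases i <;> fin_cases k <;> simp [lvY] <;> norm_num
  have hν : 0 < lvν i k := by
    unfold lvν
    have : 0 < lvj i k / lvY i k := by
      fin_cases i <;> fin_cases k <;> simp [lvY, lvj] <;> norm_num
    rw [show lvj i k / (mΛ * lvY i k) = (lvj i k / lvY i k) / mΛ by field_simp]
    positivity
  refine ⟨?_, hY, ?_, ?_, ?_, hν, ?_, ?_, ?_, ?_⟩
  · fin_cases i <;> fin_cases k <;>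
      simp only [Fin.zero_eta, Fin.mk_one, Fin.reduceFinMk, t00, t01, t02, t03, t10, t11, t12, t13] <;>
      norm_num
  · fin_cases i <;> fin_cases k <;>
      simp only [Fin.zero_eta, Fin.mk_one, Fin.reduceFinMk, me, t00, t01, t02, t03, t10, t11, t12, t13] <;>
      simp [vtx, zρ, zϖ] <;> norm_num
  · fin_cases i <;> fin_cases k <;>
      simp only [Fin.zero_eta, Fin.mk_one, Fin.reduceFinMk, mD, t00, t01, t02, t03, t10, t11, t12, t13] <;>
      simp [vtx, zρ, zϖ, lvj] <;> norm_num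
  · fin_cases i <;> fin_cases k <;> simp [lvj]
  · rw [hY]
    unfold lvν
    field_simp
  · fin_cases i <;> fin_cases k <;>
      simp only [Fin.zero_eta, Fin.mk_one, Fin.reduceFinMk, e0, e1, e2, e3, mF, mD, t00, t01, t02, t03, t10, t11, t12, t13] <;>
      simp [vtx, zρ, zϖ] <;> norm_num
  · fin_cases i <;> simp [vtx]
  · fin_cases i <;> simp [dir]

theorem model_lin_pr (i : Fin 2) (v : Pl) :
    mJ (zϖ (vtx i 3)) (dir i 3) (mJ (zϖ (vtx i 2)) (dir i 2) (mJ (zϖ (vtx i 1)) (dir i 1)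
      (mJ (zϖ (vtx i 0)) (dir i 0) v))) = lin i v := by
  have t00 := la_t00
  have t01 := la_t01
  have t02 := la_t02
  have t03 := la_t03
  have t10 := la_t10
  have t11 := la_t11
  have t12 := la_t12
  have t13 := la_t13
  fin_cases i <;>
      simp only [Fin.zero_eta, Fin.mk_one, Fin.reduceFinMk, mJ, t00, t01, t02, t03, t10, t11, t12, t13] <;>
      simp [vtx, zρ, zϖ, lin] <;> constructor <;> ring

theorem model_lin3_pr (v : Pl) :
    mJ (zϖ (vtx 0 2)) (dir 0 2) (mJ (zϖ (vtx 0 1)) (dir 0 1)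
      (mJ (zϖ (vtx 0 0)) (dir 0 0) v)) = lin3 v := by
  have t00 := la_t00
  have t01 := la_t01
  have t02 := la_t02
  simp only [mJ, t00, t01, t02]
  simp [vtx, zρ, zϖ, lin3]
  constructor <;> ring

theorem dir_th1_pr : dir 0 0 = th1 ∧ dir 0 2 = Real.pi - th1 := by
  have h2 : Real.arctan 2 = Real.pi / 2 - Real.arctan (1 / 2) := by
    have := Real.arctan_inv_of_pos (show (0:ℝ) < 2 by norm_num)
    rw [show (1 / 2 : ℝ) = 2⁻¹ by norm_num, this]
    ring
  have h1 : 2 * Real.arctan (1 / 2) = th1 := by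
    unfold th1
    have := Real.two_mul_arctan (x := (1/2 : ℝ)) (by norm_num) (by norm_num)
    rw [this]
    norm_num
  refine ⟨?_, ?_⟩
  · simpa [dir] using h1
  · have : dir 0 2 = 2 * Real.arctan 2 := by simp [dir]
    rw [this, h2, ← h1]
    ring

theorem model_det_pr (i : Fin 2) :
    (mJ (zϖ (vtx i 3)) (dir i 3) (mV (zϖ (vtx i 2)) (dir i 2))).1 *
        (mV (zϖ (vtx i 3)) (dir i 3)).2 -
      (mJ (zϖ (vtx i 3)) (dir i 3) (mV (zϖ (vtx i 2)) (dir i 2))).2 *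
        (mV (zϖ (vtx i 3)) (dir i 3)).1 ≠ 0 := by
  have t02 := la_t02
  have t03 := la_t03
  have t12 := la_t12
  have t13 := la_t13
  fin_cases i <;>
      simp only [Fin.zero_eta, Fin.mk_one, Fin.reduceFinMk, mJ, mV, t02, t03, t12, t13] <;>
      simp [vtx, zρ, zϖ] <;> norm_num

end

end Pool.Agent.HS

namespace Pool.Agent.HS
open Set Filter Topology
open scoped ContDiff

theorem dir_trig (i : Fin 2) (k : Fin 4) :
    (Real.cos (dir i k), Real.sin (dir i k)) =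
      if i = 0 then ![((3/5:ℝ), (4/5:ℝ)), (0, -1), (-(3/5), 4/5), (0, 1)] k
      else ![(-(5/13:ℝ), -(12/13:ℝ)), (0, -1), (5/13, -(12/13)), (0, 1)] k :=
  @Pool.Agent.HS.dir_trig_pr i k

end Pool.Agent.HS

namespace Pool.Agent.HS
open Set Filter Topology
open scoped ContDiff

theorem model_vtx (i : Fin 2) (k : Fin 4) :
    Real.sin (dir i k) ≠ 0 ∧ mY (vtx i k) (dir i k) = lvY i k ∧ me (vtx i k) (dir i k) ≠ 0 ∧
    0 < lvj i k * mD (vtx i k) (dir i k) ∧ (lvj i k = 1 ∨ lvj i k = -1) ∧ 0 < lvν i k ∧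
    lvν i k * (mΛ * mY (vtx i k) (dir i k)) = lvj i k ∧
    mF (vtx i k) (dir i k) = vtx i (k + 1) ∧ vtx i 0 = (0, 0) ∧ dir i 3 = Real.pi / 2 :=
  @Pool.Agent.HS.model_vtx_pr i k

end Pool.Agent.HS

namespace Pool.Agent.HS
open Set Filter Topology
open scoped ContDiff

theorem model_lin (i : Fin 2) (v : Pl) :
    mJ (zϖ (vtx i 3)) (dir i 3) (mJ (zϖ (vtx i 2)) (dir i 2) (mJ (zϖ (vtx i 1)) (dir i 1)
      (mJ (zϖ (vtx i 0)) (dir i 0) v))) = lin i v :=
  @Pool.Agent.HS.model_lin_pr i v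

end Pool.Agent.HS

namespace Pool.Agent.HS
open Set Filter Topology
open scoped ContDiff

theorem model_lin3 (v : Pl) :
    mJ (zϖ (vtx 0 2)) (dir 0 2) (mJ (zϖ (vtx 0 1)) (dir 0 1)
      (mJ (zϖ (vtx 0 0)) (dir 0 0) v)) = lin3 v :=
  @Pool.Agent.HS.model_lin3_pr v

end Pool.Agent.HS

namespace Pool.Agent.HS
open Set Filter Topology
open scoped ContDiff

theorem dir_th1 : dir 0 0 = th1 ∧ dir 0 2 = Real.pi - th1 :=
  @Pool.Agent.HS.dir_th1_pr

end Pool.Agent.HS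

namespace Pool.Agent.HS
open Set Filter Topology
open scoped ContDiff

theorem model_det (i : Fin 2) :
    (mJ (zϖ (vtx i 3)) (dir i 3) (mV (zϖ (vtx i 2)) (dir i 2))).1 *
        (mV (zϖ (vtx i 3)) (dir i 3)).2 -
      (mJ (zϖ (vtx i 3)) (dir i 3) (mV (zϖ (vtx i 2)) (dir i 2))).2 *
        (mV (zϖ (vtx i 3)) (dir i 3)).1 ≠ 0 :=
  @Pool.Agent.HS.model_det_pr i

end Pool.Agent.HS
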