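import Pool.Agent.Lib_helper60.HSF.D_WL
import Pool.Agent.Lib_helper60.HSF.Z_LA

/-!
# Project HS, part Z, block LB: matching at the corners of the loops
-/

namespace Pool.Agent.HS

noncomputable section

open Set Filter Topology
open scoped ContDiff

/-- the cosine of the corner angle -/
theorem lb_cos (i : Fin 2) (k : Fin 4) : |Real.cos (dir i (k + 1) - dir i k)| ≤ 12 / 13 := by
  have h1 := dir_trig i (k + 1)
  have h2 := dir_trig i k
  rw [Real.cos_sub]
  have c1 := congrArg Prod.fst h1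
  have s1 := congrArg Prod.snd h1
  have c2 := congrArg Prod.fst h2
  have s2 := congrArg Prod.snd h2
  simp only at c1 s1 c2 s2
  rw [c1, s1, c2, s2]
  fin_cases i <;> fin_cases k <;> simp <;> norm_num [abs_le]

/-- half angles -/
theorem lb_half (θ : ℝ) (h : |Real.cos θ| ≤ 12 / 13) :
    19 / 100 ≤ |Real.sin (θ / 2)| ∧ 19 / 100 ≤ |Real.cos (θ / 2)| := by
  have h1 : Real.cos θ = 2 * Real.cos (θ / 2) ^ 2 - 1 := by
    rw [← Real.cos_two_mul]
    congr 1
    ring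
  have h2 := Real.sin_sq_add_cos_sq (θ / 2)
  have h3 := abs_le.1 h
  constructor
  · have e1 : (19 / 100 : ℝ) ^ 2 ≤ |Real.sin (θ / 2)| ^ 2 := by
      rw [sq_abs]
      nlinarith [h3.1, h3.2]
    exact (sq_le_sq₀ (by norm_num) (abs_nonneg _)).1 e1
  · have e1 : (19 / 100 : ℝ) ^ 2 ≤ |Real.cos (θ / 2)| ^ 2 := by
      rw [sq_abs]
      nlinarith [h3.1, h3.2]
    exact (sq_le_sq₀ (by norm_num) (abs_nonneg _)).1 e1

theorem acc_dir_pr (i : Fin 2) (k : Fin 4) (χ N : ℝ) (hχ : |χ - dir i (k + 1)| ≤ 1 / 100)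
    (hN : |N - dir i k| ≤ 1 / 100) : Acc (1 / 10) 8 χ N := by
  obtain ⟨hs, hc⟩ := lb_half _ (lb_cos i k)
  set θ := dir i (k + 1) - dir i k with hθ
  have h1 : |(χ - N) / 2 - θ / 2| ≤ 1 / 100 := by
    have e1 : (χ - N) / 2 - θ / 2 = ((χ - dir i (k + 1)) - (N - dir i k)) / 2 := by
      rw [hθ]
      ring
    rw [e1, abs_div, abs_two]
    have e2 := abs_sub (χ - dir i (k + 1)) (N - dir i k)
    linarith
  have h2 : |Real.sin ((χ - N) / 2) - Real.sin (θ / 2)| ≤ 1 / 100 :=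
    (Real.abs_sin_sub_sin_le _ _).trans h1
  have h3 : |Real.cos ((χ - N) / 2) - Real.cos (θ / 2)| ≤ 1 / 100 :=
    (Real.abs_cos_sub_cos_le _ _).trans h1
  set s := Real.sin ((χ - N) / 2) with hsd
  set c := Real.cos ((χ - N) / 2) with hcd
  have h4 : 18 / 100 ≤ |s| := by
    have := abs_sub_abs_le_abs_sub (Real.sin (θ / 2)) s
    rw [abs_sub_comm] at this
    linarith
  have h5 : 18 / 100 ≤ |c| := by
    have := abs_sub_abs_le_abs_sub (Real.cos (θ / 2)) c
    rw [abs_sub_comm] at this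
    linarith
  have h6 : |s| ≤ 1 := Real.abs_sin_le_one _
  have h7 : |c| ≤ 1 := Real.abs_cos_le_one _
  have h8 : 0 < |s| := by linarith
  refine ⟨?_, ?_, ?_⟩
  · exact abs_pos.1 h8
  · rw [abs_div, le_div_iff₀ h8]
    linarith
  · rw [abs_div, div_le_iff₀ h8]
    linarith

end

end Pool.Agent.HS

namespace Pool.Agent.HS
open Set Filter Topology
open scoped ContDiff

theorem acc_dir (i : Fin 2) (k : Fin 4) (χ N : ℝ) (hχ : |χ - dir i (k + 1)| ≤ 1 / 100)
    (hN : |N - dir i k| ≤ 1 / 100) : Acc (1 / 10) 8 χ N :=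
  @Pool.Agent.HS.acc_dir_pr i k χ N hχ hN

end Pool.Agent.HS
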