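import Pool.Agent.Lib_helper60.HSF.D_WZ

/-!
# HS, block ZD1: `arctan (c w) / c` is smooth
-/

namespace Pool.Agent.HS

noncomputable section

open Set Filter Topology
open scoped ContDiff

theorem zd1_dslope : ContDiff ℝ ∞ (dslope Real.arctan 0) := by
  rw [contDiff_iff_contDiffAt]
  intro x
  by_cases hx : x = 0
  · subst hx
    have h : AnalyticAt ℝ Real.arctan 0 :=
      (Real.contDiff_arctan (n := ⊤)).contDiffAt.analyticAt
    obtain ⟨p, hp⟩ := h
    exact (hp.has_fpower_series_dslope_fslope.analyticAt).contDiffAt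
  · have h : ContDiffAt ℝ ∞ (fun y : ℝ => y⁻¹ * Real.arctan y) x :=
      (contDiffAt_id.inv hx).mul Real.contDiff_arctan.contDiffAt
    refine h.congr_of_eventuallyEq ?_
    filter_upwards [dslope_eventuallyEq_slope_of_ne Real.arctan hx] with y hy
    rw [hy, slope_def_field]
    simp [div_eq_inv_mul]

theorem atn_smooth_pr : ContDiff ℝ ∞ (fun p : ℝ × ℝ => atn p.1 p.2) := by
  unfold atn
  exact contDiff_snd.mul (zd1_dslope.comp (contDiff_fst.mul contDiff_snd))

end

end Pool.Agent.HS

namespace Pool.Agent.HS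
open Set Filter Topology
open scoped ContDiff

theorem atn_smooth : ContDiff ℝ ∞ (fun p : ℝ × ℝ => atn p.1 p.2) :=
  @Pool.Agent.HS.atn_smooth_pr

end Pool.Agent.HS
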