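import Pool.Agent.Lib_helper60.HSF.D_WZ
import Pool.Agent.Lib_helper60.HSF.K_KE1
import Pool.Agent.Lib_helper60.HSF.K_KA1
import Pool.Agent.Lib_helper60.HSF.Z_ZD1
import Pool.Agent.Lib_helper60.HSF.K_KG1
import Pool.Agent.Lib_helper60.HSF.Z_ZC

/-! # Project HS, part Z, block ZD2: openness of the good region, smoothness of the states -/

namespace Pool.Agent.HS

noncomputable section

open Set Filter Topology
open scoped ContDiff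

/-! ### smoothness of the elementary functions -/

theorem zd2_rh : 0 < rh := by
  have := z_bounds
  linarith [this.2.2.2.2.1]

theorem zd2_conj : ContDiff ℝ ∞ (fun z : ℂ => (starRingEnd ℂ) z) :=
  Complex.conjCLE.contDiff

theorem zd2_ofReal : ContDiff ℝ ∞ (fun x : ℝ => (x : ℂ)) := Complex.ofRealCLM.contDiff

theorem zd2_re : ContDiff ℝ ∞ (fun x : ℂ => x.re) := Complex.reCLM.contDiff

theorem zd2_im : ContDiff ℝ ∞ (fun x : ℂ => x.im) := Complex.imCLM.contDiff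

theorem zd2_kL : ContDiff ℝ ∞ kL :=
  zd2_im.comp ((zd2_conj.comp contDiff_fst).mul contDiff_snd)

theorem zd2_kσ : ContDiff ℝ ∞ kσ :=
  zd2_re.comp ((zd2_conj.comp contDiff_fst).mul contDiff_snd)

theorem zd2_zr : ContDiff ℝ ∞ (fun p : ℝ × (ℝ × ℝ) × ℝ => zr p.1 p.2.1) := by
  unfold zr chart
  fun_prop

theorem zd2_pp : ContDiff ℝ ∞ (fun p : ℝ × (ℝ × ℝ) × ℝ => (chart p.1 p.2.1).2) := by
  unfold chart
  fun_prop

theorem zd2_k0 {p : ℝ × (ℝ × ℝ) × ℝ} (hr : zr p.1 p.2.1 ≠ 0) :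
    ContDiffAt ℝ ∞ (fun p : ℝ × (ℝ × ℝ) × ℝ => E0 + 1 / zr p.1 p.2.1 -
      ((chart p.1 p.2.1).2 ^ 2 + p.1 ^ 2 / zr p.1 p.2.1 ^ 2) / 2) p := by
  have h1 := zd2_zr.contDiffAt (x := p)
  have h2 := zd2_pp.contDiffAt (x := p)
  have h3 : ContDiffAt ℝ ∞ (fun p : ℝ × (ℝ × ℝ) × ℝ => p.1) p := contDiffAt_fst
  exact (contDiffAt_const.add (contDiffAt_const.div h1 hr)).sub
    (((h2.pow 2).add ((h3.pow 2).div (h1.pow 2) (pow_ne_zero 2 hr))).div_const 2)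

theorem zd2_zk {p : ℝ × (ℝ × ℝ) × ℝ} (hr : zr p.1 p.2.1 ≠ 0)
    (hk : 0 < E0 + 1 / zr p.1 p.2.1 - ((chart p.1 p.2.1).2 ^ 2 + p.1 ^ 2 / zr p.1 p.2.1 ^ 2) / 2) :
    ContDiffAt ℝ ∞ (fun p : ℝ × (ℝ × ℝ) × ℝ => zk p.1 p.2.1) p := by
  have h1 := (contDiffAt_const (c := 2 / (ma * mb))).mul (zd2_k0 hr)
  refine h1.sqrt ?_
  have : (0 : ℝ) < 2 / (ma * mb) := by unfold ma mb; norm_num
  exact (mul_pos this hk).ne'

theorem zd2_zU {p : ℝ × (ℝ × ℝ) × ℝ} (hr : zr p.1 p.2.1 ≠ 0) :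
    ContDiffAt ℝ ∞ (fun p : ℝ × (ℝ × ℝ) × ℝ => zU p.1 p.2.1) p := by
  have h1 := zd2_zr.contDiffAt (x := p)
  have h2 : ContDiffAt ℝ ∞ (fun p : ℝ × (ℝ × ℝ) × ℝ => zϖ p.2.1 / rh) p := by
    unfold zϖ
    fun_prop
  exact (zd2_ofReal.contDiffAt.comp p h2).add
    ((zd2_ofReal.contDiffAt.comp p (contDiffAt_const.div h1 hr)).mul contDiffAt_const)

theorem zd2_zw {p : ℝ × (ℝ × ℝ) × ℝ} (hr : zr p.1 p.2.1 ≠ 0)
    (hk : 0 < E0 + 1 / zr p.1 p.2.1 - ((chart p.1 p.2.1).2 ^ 2 + p.1 ^ 2 / zr p.1 p.2.1 ^ 2) / 2) :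
    ContDiffAt ℝ ∞ (fun p : ℝ × (ℝ × ℝ) × ℝ => zw p.1 p.2.1 p.2.2) p := by
  have h1 : ContDiffAt ℝ ∞ (fun p : ℝ × (ℝ × ℝ) × ℝ => (p.2.2 : ℂ) * Complex.I) p :=
    (zd2_ofReal.contDiffAt.comp p (contDiffAt_snd.comp p contDiffAt_snd)).mul contDiffAt_const
  exact (zd2_ofReal.contDiffAt.comp p (zd2_zk hr hk)).mul h1.cexp

theorem zd2_z3 {p : ℝ × (ℝ × ℝ) × ℝ} (hr : zr p.1 p.2.1 ≠ 0)
    (hk : 0 < E0 + 1 / zr p.1 p.2.1 - ((chart p.1 p.2.1).2 ^ 2 + p.1 ^ 2 / zr p.1 p.2.1 ^ 2) / 2) :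
    ContDiffAt ℝ ∞ (fun p : ℝ × (ℝ × ℝ) × ℝ => z3 p.1 p.2.1 p.2.2) p :=
  (zd2_ofReal.contDiffAt.comp p zd2_zr.contDiffAt).prodMk
    (((zd2_ofReal.contDiffAt.comp p contDiffAt_fst).mul (zd2_zU hr)).add
      (contDiffAt_const.mul (zd2_zw hr hk)))

theorem zd2_z2 {p : ℝ × (ℝ × ℝ) × ℝ} (hr : zr p.1 p.2.1 ≠ 0)
    (hk : 0 < E0 + 1 / zr p.1 p.2.1 - ((chart p.1 p.2.1).2 ^ 2 + p.1 ^ 2 / zr p.1 p.2.1 ^ 2) / 2) :
    ContDiffAt ℝ ∞ (fun p : ℝ × (ℝ × ℝ) × ℝ => z2 p.1 p.2.1 p.2.2) p :=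
  (zd2_ofReal.contDiffAt.comp p zd2_zr.contDiffAt).prodMk
    (((zd2_ofReal.contDiffAt.comp p contDiffAt_fst).mul (zd2_zU hr)).sub
      (contDiffAt_const.mul (zd2_zw hr hk)))

theorem zd2_zX {p : ℝ × (ℝ × ℝ) × ℝ} (hr : zr p.1 p.2.1 ≠ 0)
    (hk : 0 < E0 + 1 / zr p.1 p.2.1 - ((chart p.1 p.2.1).2 ^ 2 + p.1 ^ 2 / zr p.1 p.2.1 ^ 2) / 2) :
    ContDiffAt ℝ ∞ (fun p : ℝ × (ℝ × ℝ) × ℝ => zX p.1 p.2.1 p.2.2) p :=
  zd2_im.contDiffAt.comp p ((zd2_conj.contDiffAt.comp p (zd2_zw hr hk)).mul (zd2_zU hr))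

theorem zd2_limD {p : ℝ × (ℝ × ℝ) × ℝ} (hr : zr p.1 p.2.1 ≠ 0)
    (hk : 0 < E0 + 1 / zr p.1 p.2.1 - ((chart p.1 p.2.1).2 ^ 2 + p.1 ^ 2 / zr p.1 p.2.1 ^ 2) / 2) :
    ContDiffAt ℝ ∞ (fun p : ℝ × (ℝ × ℝ) × ℝ => limD p.1 p.2.1 p.2.2) p := by
  have h1 := zd2_zr.contDiffAt (x := p)
  have h2 := zd2_pp.contDiffAt (x := p)
  have h3 : ContDiffAt ℝ ∞ (fun p : ℝ × (ℝ × ℝ) × ℝ => (p.1 - ma * mb * 0 ^ 2 * 0) /
      zr p.1 p.2.1) p := by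
    refine ContDiffAt.div ?_ h1 hr
    fun_prop
  exact (zd2_ofReal.contDiffAt.comp p h1).prodMk
    (((zd2_ofReal.contDiffAt.comp p h2).add
      ((zd2_ofReal.contDiffAt.comp p h3).mul contDiffAt_const)).prodMk
      ((zd2_zk hr hk).prodMk (contDiffAt_snd.comp p contDiffAt_snd)))

theorem zd2_r {C : ℝ} {X : ℝ × ℝ} {χ : ℝ} (h : ZG C X χ) : 0 < zr C X := by
  have := zd2_rh
  linarith [h.r.1]

theorem zS_states_pr : ContDiffOn ℝ ∞ (fun p : ℝ × (ℝ × ℝ) × ℝ => z3 p.1 p.2.1 p.2.2) ZS ∧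
    ContDiffOn ℝ ∞ (fun p : ℝ × (ℝ × ℝ) × ℝ => z2 p.1 p.2.1 p.2.2) ZS ∧
    ContDiffOn ℝ ∞ (fun p : ℝ × (ℝ × ℝ) × ℝ => zX p.1 p.2.1 p.2.2) ZS ∧
    ContDiffOn ℝ ∞ (fun p : ℝ × (ℝ × ℝ) × ℝ => limD p.1 p.2.1 p.2.2) ZS ∧
    ContDiffOn ℝ ∞ (fun p : ℝ × (ℝ × ℝ) × ℝ => zk p.1 p.2.1) ZS := by
  refine ⟨fun p hp => ?_, fun p hp => ?_, fun p hp => ?_, fun p hp => ?_, fun p hp => ?_⟩
  · exact (zd2_z3 (zd2_r hp).ne' hp.k0).contDiffWithinAt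
  · exact (zd2_z2 (zd2_r hp).ne' hp.k0).contDiffWithinAt
  · exact (zd2_zX (zd2_r hp).ne' hp.k0).contDiffWithinAt
  · exact (zd2_limD (zd2_r hp).ne' hp.k0).contDiffWithinAt
  · exact (zd2_zk (zd2_r hp).ne' hp.k0).contDiffWithinAt

/-! ### openness -/

theorem zd2_kh {y : KS} (h0 : y.1 ≠ 0) : ContinuousAt kh' y := by
  unfold kh'
  have h1 : ContinuousAt (fun y : KS => ‖y.1‖) y := by fun_prop
  exact (by fun_prop : ContinuousAt (fun y : KS => ‖y.2‖ ^ 2 / 2) y).sub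
    (continuousAt_const.div h1 (norm_ne_zero_iff.mpr h0))

theorem zd2_kA {y : KS} (h : Ell y) : ContinuousAt kA y := by
  unfold kA
  have h1 := zd2_kh (kL_ne h.2)
  refine continuousAt_const.div (continuousAt_const.mul h1) ?_
  have := h.1
  linarith

theorem zd2_kPer {y : KS} (h : Ell y) : ContinuousAt kPer y := by
  unfold kPer
  have h1 := zd2_kA h
  exact (continuousAt_const.mul h1).mul h1.sqrt

theorem zd2_zt {q : ℝ × KS × ℝ} (h : Ell q.2.1) :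
    ContinuousAt (fun q : ℝ × KS × ℝ => zt q.1 q.2.1 q.2.2) q := by
  unfold zt
  have h1 : ContinuousAt (fun q : ℝ × KS × ℝ => kA q.2.1) q :=
    ContinuousAt.comp (f := fun q : ℝ × KS × ℝ => q.2.1) (zd2_kA h) (by fun_prop)
  have h2 : ContinuousAt (fun q : ℝ × KS × ℝ => atn q.1 q.2.2) q :=
    (atn_smooth.continuous.comp (by fun_prop : Continuous
      (fun q : ℝ × KS × ℝ => (q.1, q.2.2)))).continuousAt
  have h3 : ContinuousAt (fun q : ℝ × KS × ℝ => kr q.2.1) q := by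
    unfold kr
    fun_prop
  have h4 : ContinuousAt (fun q : ℝ × KS × ℝ => kσ q.2.1) q :=
    (zd2_kσ.continuous.comp (by fun_prop : Continuous
      (fun q : ℝ × KS × ℝ => q.2.1))).continuousAt
  have h5 : ContinuousAt (fun q : ℝ × KS × ℝ => 1 + (q.1 * q.2.2) ^ 2) q := by fun_prop
  have h6 : 1 + (q.1 * q.2.2) ^ 2 ≠ 0 := by positivity
  have h7 : ContinuousAt (fun q : ℝ × KS × ℝ => q.2.2) q := by fun_prop
  have h8 : ContinuousAt (fun q : ℝ × KS × ℝ => q.1) q := by fun_prop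
  exact h1.sqrt.mul ((((continuousAt_const.mul h1).mul h2).add
    (((continuousAt_const.mul (h3.sub h1)).mul h7).div h5 h6)).add
    (((((continuousAt_const.mul h8).mul h1.sqrt).mul h4).mul (h7.pow 2)).div h5 h6))

theorem zS_open_pr : IsOpen ZS := by
  rw [isOpen_iff_mem_nhds]
  rintro p hp
  have hZ : ZG p.1 p.2.1 p.2.2 := hp
  have hrh := zd2_rh
  have hr0 := zd2_r hZ
  have hr := hr0.ne'
  have hk0 := hZ.k0
  -- elementary functions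
  have cC : ContinuousAt (fun p : ℝ × (ℝ × ℝ) × ℝ => p.1) p := by fun_prop
  have cr : ContinuousAt (fun p : ℝ × (ℝ × ℝ) × ℝ => zr p.1 p.2.1) p :=
    zd2_zr.continuous.continuousAt
  have cp : ContinuousAt (fun p : ℝ × (ℝ × ℝ) × ℝ => (chart p.1 p.2.1).2) p :=
    zd2_pp.continuous.continuousAt
  have ck0 := (zd2_k0 hr).continuousAt
  have czk := (zd2_zk hr hk0).continuousAt
  have czU := (zd2_zU hr).continuousAt
  have czw := (zd2_zw hr hk0).continuousAt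
  have cz3 := (zd2_z3 hr hk0).continuousAt
  have cz2 := (zd2_z2 hr hk0).continuousAt
  have czX := (zd2_zX hr hk0).continuousAt
  have cexp : ContinuousAt (fun p : ℝ × (ℝ × ℝ) × ℝ =>
    Complex.exp (-(p.2.2 : ℂ) * Complex.I)) p := by fun_prop
  have hL3 : kL (z3 p.1 p.2.1 p.2.2) ≠ 0 := hZ.e3.2
  have hL2 : kL (z2 p.1 p.2.1 p.2.2) ≠ 0 := hZ.e2.2
  have cL3 : ContinuousAt (fun p : ℝ × (ℝ × ℝ) × ℝ => kL (z3 p.1 p.2.1 p.2.2)) p :=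
    zd2_kL.continuous.continuousAt.comp cz3
  have cL2 : ContinuousAt (fun p : ℝ × (ℝ × ℝ) × ℝ => kL (z2 p.1 p.2.1 p.2.2)) p :=
    zd2_kL.continuous.continuousAt.comp cz2
  have cσ3 : ContinuousAt (fun p : ℝ × (ℝ × ℝ) × ℝ => kσ (z3 p.1 p.2.1 p.2.2)) p :=
    zd2_kσ.continuous.continuousAt.comp cz3
  have cσ2 : ContinuousAt (fun p : ℝ × (ℝ × ℝ) × ℝ => kσ (z2 p.1 p.2.1 p.2.2)) p :=
    zd2_kσ.continuous.continuousAt.comp cz2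
  have cA3 : ContinuousAt (fun p : ℝ × (ℝ × ℝ) × ℝ => kA (z3 p.1 p.2.1 p.2.2)) p :=
    ContinuousAt.comp (f := fun p : ℝ × (ℝ × ℝ) × ℝ => z3 p.1 p.2.1 p.2.2) (zd2_kA hZ.e3) cz3
  have cA2 : ContinuousAt (fun p : ℝ × (ℝ × ℝ) × ℝ => kA (z2 p.1 p.2.1 p.2.2)) p :=
    ContinuousAt.comp (f := fun p : ℝ × (ℝ × ℝ) × ℝ => z2 p.1 p.2.1 p.2.2) (zd2_kA hZ.e2) cz2
  have cP3 : ContinuousAt (fun p : ℝ × (ℝ × ℝ) × ℝ => kPer (z3 p.1 p.2.1 p.2.2)) p :=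
    ContinuousAt.comp (f := fun p : ℝ × (ℝ × ℝ) × ℝ => z3 p.1 p.2.1 p.2.2) (zd2_kPer hZ.e3) cz3
  have cP2 : ContinuousAt (fun p : ℝ × (ℝ × ℝ) × ℝ => kPer (z2 p.1 p.2.1 p.2.2)) p :=
    ContinuousAt.comp (f := fun p : ℝ × (ℝ × ℝ) × ℝ => z2 p.1 p.2.1 p.2.2) (zd2_kPer hZ.e2) cz2
  have hA3 : 0 < kA (z3 p.1 p.2.1 p.2.2) := kA_pos hZ.e3.1
  have hA2 : 0 < kA (z2 p.1 p.2.1 p.2.2) := kA_pos hZ.e2.1
  -- the second intersection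
  have crc : ContinuousAt (fun p : ℝ × (ℝ × ℝ) × ℝ => (zr p.1 p.2.1 : ℂ)) p :=
    zd2_ofReal.continuous.continuousAt.comp cr
  have cL3c : ContinuousAt (fun p : ℝ × (ℝ × ℝ) × ℝ => (kL (z3 p.1 p.2.1 p.2.2) : ℂ)) p :=
    zd2_ofReal.continuous.continuousAt.comp cL3
  have cL2c : ContinuousAt (fun p : ℝ × (ℝ × ℝ) × ℝ => (kL (z2 p.1 p.2.1 p.2.2) : ℂ)) p :=
    zd2_ofReal.continuous.continuousAt.comp cL2
  have cD : ContinuousAt (fun p : ℝ × (ℝ × ℝ) × ℝ => zD p.1 p.2.1 p.2.2) p :=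
    (cL3c.mul cz3.snd).sub (cL2c.mul cz2.snd)
  have cE3 : ContinuousAt (fun p : ℝ × (ℝ × ℝ) × ℝ => kE (z3 p.1 p.2.1 p.2.2)) p := by
    have h1 : ContinuousAt (fun p : ℝ × (ℝ × ℝ) × ℝ => (‖(z3 p.1 p.2.1 p.2.2).1‖ : ℂ)) p :=
      zd2_ofReal.continuous.continuousAt.comp cz3.fst.norm
    have h2 : (‖(z3 p.1 p.2.1 p.2.2).1‖ : ℂ) ≠ 0 := by
      exact_mod_cast (norm_ne_zero_iff.mpr (kL_ne hL3))
    exact ((continuousAt_const.mul cL3c).neg.mul cz3.snd).sub (cz3.fst.div h1 h2)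
  have cden : ContinuousAt (fun p : ℝ × (ℝ × ℝ) × ℝ => zden p.1 p.2.1 p.2.2) p := by
    have h1 : ContinuousAt (fun p : ℝ × (ℝ × ℝ) × ℝ =>
        ((starRingEnd ℂ) (kE (z3 p.1 p.2.1 p.2.2)) * zD p.1 p.2.1 p.2.2).re) p :=
      zd2_re.continuous.continuousAt.comp
        ((zd2_conj.continuous.continuousAt.comp cE3).mul cD)
    exact (cD.norm.pow 2).sub (h1.pow 2)
  have hden : zden p.1 p.2.1 p.2.2 ≠ 0 := (cden_pos hZ.e3 hZ.e2 hZ.D).ne'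
  have clam : ContinuousAt (fun p : ℝ × (ℝ × ℝ) × ℝ => zlam p.1 p.2.1 p.2.2) p :=
    ((((continuousAt_const.mul cr).mul cL3).mul cL2).mul czX).div cden hden
  have cB : ContinuousAt (fun p : ℝ × (ℝ × ℝ) × ℝ => zB p.1 p.2.1 p.2.2) p :=
    crc.add ((zd2_ofReal.continuous.continuousAt.comp (cC.mul clam)).mul cD)
  have hB : 0 < ‖zB p.1 p.2.1 p.2.2‖ := by linarith [hZ.B.2.1]
  have hBc : (‖zB p.1 p.2.1 p.2.2‖ : ℂ) ≠ 0 := by exact_mod_cast hB.ne'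
  have cBh : ContinuousAt (fun p : ℝ × (ℝ × ℝ) × ℝ => zBh p.1 p.2.1 p.2.2) p :=
    cB.div (zd2_ofReal.continuous.continuousAt.comp cB.norm) hBc
  have cc3 : ContinuousAt (fun p : ℝ × (ℝ × ℝ) × ℝ => zc3 p.1 p.2.1 p.2.2) p :=
    ((cL3.pow 2).sub (cL2.pow 2)).add (((cσ3.mul cr).mul cL2).mul (cC.mul czX))
  have cc2 : ContinuousAt (fun p : ℝ × (ℝ × ℝ) × ℝ => zc2 p.1 p.2.1 p.2.2) p :=
    ((cL3.pow 2).sub (cL2.pow 2)).add (((cσ2.mul cr).mul cL3).mul (cC.mul czX))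
  have cW3 : ContinuousAt (fun p : ℝ × (ℝ × ℝ) × ℝ => zW3 p.1 p.2.1 p.2.2) p :=
    (((cr.pow 2).mul cL2).mul czX).neg.div (cA3.sqrt.mul cc3)
      (mul_ne_zero (Real.sqrt_ne_zero'.mpr hA3) hZ.c3.ne')
  have cW2 : ContinuousAt (fun p : ℝ × (ℝ × ℝ) × ℝ => zW2 p.1 p.2.1 p.2.2) p :=
    (((cr.pow 2).mul cL3).mul czX).neg.div (cA2.sqrt.mul cc2)
      (mul_ne_zero (Real.sqrt_ne_zero'.mpr hA2) hZ.c2.ne')
  have ct3 : ContinuousAt (fun p : ℝ × (ℝ × ℝ) × ℝ =>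
      zt p.1 (z3 p.1 p.2.1 p.2.2) (zW3 p.1 p.2.1 p.2.2)) p :=
    ContinuousAt.comp (f := fun p : ℝ × (ℝ × ℝ) × ℝ =>
      (p.1, z3 p.1 p.2.1 p.2.2, zW3 p.1 p.2.1 p.2.2))
      (g := fun q : ℝ × KS × ℝ => zt q.1 q.2.1 q.2.2) (zd2_zt hZ.e3) (cC.prodMk (cz3.prodMk cW3))
  have ct2 : ContinuousAt (fun p : ℝ × (ℝ × ℝ) × ℝ =>
      zt p.1 (z2 p.1 p.2.1 p.2.2) (zW2 p.1 p.2.1 p.2.2)) p :=
    ContinuousAt.comp (f := fun p : ℝ × (ℝ × ℝ) × ℝ =>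
      (p.1, z2 p.1 p.2.1 p.2.2, zW2 p.1 p.2.1 p.2.2))
      (g := fun q : ℝ × KS × ℝ => zt q.1 q.2.1 q.2.2) (zd2_zt hZ.e2) (cC.prodMk (cz2.prodMk cW2))
  -- the data at the end
  have cw' : ContinuousAt (fun p : ℝ × (ℝ × ℝ) × ℝ => zw' p.1 p.2.1 p.2.2) p := by
    have h1 : ContinuousAt (fun p : ℝ × (ℝ × ℝ) × ℝ =>
        ((1 / kL (z3 p.1 p.2.1 p.2.2) - 1 / kL (z2 p.1 p.2.1 p.2.2) : ℝ) : ℂ)) p :=
      zd2_ofReal.continuous.continuousAt.comp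
        ((continuousAt_const.div cL3 hL3).sub (continuousAt_const.div cL2 hL2))
    exact czw.add ((continuousAt_const.mul h1).mul (cBh.sub continuousAt_const))
  have cw : ContinuousAt (fun p : ℝ × (ℝ × ℝ) × ℝ => ((starRingEnd ℂ) (zBh p.1 p.2.1 p.2.2) *
      zw' p.1 p.2.1 p.2.2 * Complex.exp (-(p.2.2 : ℂ) * Complex.I)).re) p :=
    zd2_re.continuous.continuousAt.comp
      (((zd2_conj.continuous.continuousAt.comp cBh).mul cw').mul cexp)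
  have cρ : ContinuousAt (fun p : ℝ × (ℝ × ℝ) × ℝ => zρ p.2.1) p := by
    unfold zρ
    fun_prop
  have cDre : ContinuousAt (fun p : ℝ × (ℝ × ℝ) × ℝ => (zD p.1 p.2.1 p.2.2).re) p :=
    zd2_re.continuous.continuousAt.comp cD
  have cDim : ContinuousAt (fun p : ℝ × (ℝ × ℝ) × ℝ => (zD p.1 p.2.1 p.2.2).im) p :=
    zd2_im.continuous.continuousAt.comp cD
  have cρ' : ContinuousAt (fun p : ℝ × (ℝ × ℝ) × ℝ => zρ' p.1 p.2.1 p.2.2) p :=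
    cρ.add ((continuousAt_const.mul
      (((((continuousAt_const.mul cr).mul clam).mul cDre).add
        ((cC.mul (clam.pow 2)).mul (cD.norm.pow 2))))).div (cB.norm.add cr) (by positivity))
  have cϖ' : ContinuousAt (fun p : ℝ × (ℝ × ℝ) × ℝ => zϖ' p.1 p.2.1 p.2.2) p := by
    have h1 : ContinuousAt (fun p : ℝ × (ℝ × ℝ) × ℝ =>
        ((starRingEnd ℂ) (zBh p.1 p.2.1 p.2.2) * zU p.1 p.2.1).re) p :=
      zd2_re.continuous.continuousAt.comp ((zd2_conj.continuous.continuousAt.comp cBh).mul czU)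
    exact continuousAt_const.mul (h1.sub (((((continuousAt_const.div cL3 hL3).add
      (continuousAt_const.div cL2 hL2)).mul clam).mul cDim).div cB.norm hB.ne'))
  have cF : ContinuousAt (fun p : ℝ × (ℝ × ℝ) × ℝ => zF p.1 p.2.1 p.2.2) p :=
    (cρ'.sub continuousAt_const).prodMk ((cϖ'.sub continuousAt_const).sub
      (continuousAt_const.mul (cρ'.sub continuousAt_const)))
  have cCF : ContinuousAt (fun p : ℝ × (ℝ × ℝ) × ℝ =>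
      ((p.1, zF p.1 p.2.1 p.2.2, p.2.2) : ℝ × (ℝ × ℝ) × ℝ)) p :=
    cC.prodMk (cF.prodMk (by fun_prop))
  have hrF : zr p.1 (zF p.1 p.2.1 p.2.2) ≠ 0 := by
    intro h0
    have h1 := hZ.F.2.2
    rw [h0] at h1
    have h2 : E0 < -(7/10) := z_bounds.2.2.2.2.2.2.2.2.2.2.2.2
    have h3 := sq_nonneg (chart p.1 (zF p.1 p.2.1 p.2.2)).2
    norm_num at h1
    linarith
  have cpF : ContinuousAt (fun p : ℝ × (ℝ × ℝ) × ℝ =>
      (chart p.1 (zF p.1 p.2.1 p.2.2)).2) p :=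
    ContinuousAt.comp (f := fun p : ℝ × (ℝ × ℝ) × ℝ =>
      ((p.1, zF p.1 p.2.1 p.2.2, p.2.2) : ℝ × (ℝ × ℝ) × ℝ))
      (g := fun p : ℝ × (ℝ × ℝ) × ℝ => (chart p.1 p.2.1).2) zd2_pp.continuous.continuousAt cCF
  have ckF : ContinuousAt (fun p : ℝ × (ℝ × ℝ) × ℝ => zk p.1 (zF p.1 p.2.1 p.2.2)) p :=
    ContinuousAt.comp (f := fun p : ℝ × (ℝ × ℝ) × ℝ =>
      ((p.1, zF p.1 p.2.1 p.2.2, p.2.2) : ℝ × (ℝ × ℝ) × ℝ))
      (g := fun p : ℝ × (ℝ × ℝ) × ℝ => zk p.1 p.2.1)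
      (zd2_zk (p := (p.1, zF p.1 p.2.1 p.2.2, p.2.2)) hrF hZ.F.2.2).continuousAt cCF
  have ck0F : ContinuousAt (fun p : ℝ × (ℝ × ℝ) × ℝ =>
      E0 + 1 / zr p.1 (zF p.1 p.2.1 p.2.2) - ((chart p.1 (zF p.1 p.2.1 p.2.2)).2 ^ 2 +
        p.1 ^ 2 / zr p.1 (zF p.1 p.2.1 p.2.2) ^ 2) / 2) p :=
    ContinuousAt.comp (f := fun p : ℝ × (ℝ × ℝ) × ℝ =>
      ((p.1, zF p.1 p.2.1 p.2.2, p.2.2) : ℝ × (ℝ × ℝ) × ℝ))
      (g := fun p : ℝ × (ℝ × ℝ) × ℝ => E0 + 1 / zr p.1 p.2.1 -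
        ((chart p.1 p.2.1).2 ^ 2 + p.1 ^ 2 / zr p.1 p.2.1 ^ 2) / 2)
      (zd2_k0 (p := (p.1, zF p.1 p.2.1 p.2.2, p.2.2)) hrF).continuousAt cCF
  -- the conditions
  have lt : ∀ {f g : ℝ × (ℝ × ℝ) × ℝ → ℝ}, ContinuousAt f p → ContinuousAt g p → f p < g p →
      ∀ᶠ q in 𝓝 p, f q < g q := fun hf hg h => hf.eventually_lt hg h
  have ev1 := lt cC.abs continuousAt_const hZ.C1
  have ev2 := lt continuousAt_const cr hZ.r.1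
  have ev3 := lt cr continuousAt_const hZ.r.2
  have ev4 := lt cp.abs continuousAt_const hZ.p
  have ev5 := lt (czk.sub continuousAt_const).abs continuousAt_const hZ.k
  have ev6 := lt continuousAt_const ck0 hZ.k0
  have ev7 := cz3.eventually_mem (isOpen_ell.mem_nhds hZ.e3)
  have ev8 := cz2.eventually_mem (isOpen_ell.mem_nhds hZ.e2)
  have ev9 := cD.eventually_ne hZ.D
  have ev10 := lt continuousAt_const cc3 hZ.c3
  have ev11 := lt continuousAt_const cc2 hZ.c2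
  have ev12 := lt continuousAt_const (zd2_re.continuous.continuousAt.comp cBh) hZ.B.1
  have ev13 := lt continuousAt_const cB.norm hZ.B.2.1
  have ev14 := lt cB.norm continuousAt_const hZ.B.2.2
  have ev15 := lt continuousAt_const cw hZ.w
  have ev16 := lt cpF.abs continuousAt_const hZ.F.1
  have ev17 := lt (ckF.sub continuousAt_const).abs continuousAt_const hZ.F.2.1
  have ev18 := lt continuousAt_const ck0F hZ.F.2.2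
  have ev19 := lt (cC.mul ct3).abs (cP3.div_const 2) hZ.τ.1
  have ev20 := lt (cC.mul ct2).abs (cP2.div_const 2) hZ.τ.2
  filter_upwards [ev1, ev2, ev3, ev4, ev5, ev6, ev7, ev8, ev9, ev10, ev11, ev12, ev13, ev14,
    ev15, ev16, ev17, ev18, ev19, ev20] with q e1 e2 e3 e4 e5 e6 e7 e8 e9 e10 e11 e12 e13 e14
    e15 e16 e17 e18 e19 e20
  exact ⟨e1, ⟨e2, e3⟩, e4, e5, e6, e7, e8, e9, e10, e11, ⟨e12, e13, e14⟩, e15, ⟨e16, e17, e18⟩,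
    ⟨e19, e20⟩⟩

end

end Pool.Agent.HS

namespace Pool.Agent.HS
open Set Filter Topology
open scoped ContDiff

theorem zS_open : IsOpen ZS :=
  @Pool.Agent.HS.zS_open_pr

end Pool.Agent.HS

namespace Pool.Agent.HS
open Set Filter Topology
open scoped ContDiff

theorem zS_states : ContDiffOn ℝ ∞ (fun p : ℝ × (ℝ × ℝ) × ℝ => z3 p.1 p.2.1 p.2.2) ZS ∧
    ContDiffOn ℝ ∞ (fun p : ℝ × (ℝ × ℝ) × ℝ => z2 p.1 p.2.1 p.2.2) ZS ∧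
    ContDiffOn ℝ ∞ (fun p : ℝ × (ℝ × ℝ) × ℝ => zX p.1 p.2.1 p.2.2) ZS ∧
    ContDiffOn ℝ ∞ (fun p : ℝ × (ℝ × ℝ) × ℝ => limD p.1 p.2.1 p.2.2) ZS ∧
    ContDiffOn ℝ ∞ (fun p : ℝ × (ℝ × ℝ) × ℝ => zk p.1 p.2.1) ZS :=
  @Pool.Agent.HS.zS_states_pr

end Pool.Agent.HS
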