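import Pool.Agent.Lib_helper60.HSF.D_WZ
import Pool.Agent.Lib_helper60.HSF.Z_ZC
import Pool.Agent.Lib_helper60.HSF.Z_ZA1

/-!
# Project HS, part Z, block ZM1: values at C = 0
-/

namespace Pool.Agent.HS

noncomputable section

open Set Filter Topology
open scoped ContDiff

theorem zm1_pos : 0 < rh ∧ 0 < kh ∧ 0 < be ∧ 0 < cc := by
  obtain ⟨-, -, h1, -, h2, -, h3, -, h4, -⟩ := z_bounds
  exact ⟨by linarith, by linarith, by linarith, by linarith⟩

theorem zm1_zr (X : ℝ × ℝ) : zr 0 X = rh := by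
  rw [zr_eq]; simp

theorem zm1_zk (X : ℝ × ℝ) : zk 0 X = kh := by
  have h1 : (chart 0 X).1 = rh := zm1_zr X
  have h2 : (chart 0 X).2 = 0 := by simp [chart]
  have h3 := E0_rh
  unfold zk kap0
  rw [h1, h2, h3]
  have h4 : 2 / (ma * mb) * (ma * mb * kh ^ 2 / 2 - ((0:ℝ) ^ 2 + 0 ^ 2 / rh ^ 2) / 2) = kh ^ 2 := by
    simp only [ma, mb]; ring
  rw [h4]
  exact Real.sqrt_sq zm1_pos.2.1.le

theorem zm1_z3 (X : ℝ × ℝ) (χ : ℝ) :
    z3 0 X χ = ((rh : ℂ), ((mb * kh : ℝ) : ℂ) * Complex.exp ((χ : ℂ) * Complex.I)) := by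
  unfold z3 zw
  rw [zm1_zr, zm1_zk]
  ext1
  · rfl
  · simp only
    push_cast
    ring

theorem zm1_z2 (X : ℝ × ℝ) (χ : ℝ) :
    z2 0 X χ = ((rh : ℂ), ((-(ma * kh) : ℝ) : ℂ) * Complex.exp ((χ : ℂ) * Complex.I)) := by
  unfold z2 zw
  rw [zm1_zr, zm1_zk]
  ext1
  · rfl
  · simp only
    push_cast
    ring

theorem zm1_h3 (X : ℝ × ℝ) (χ : ℝ) : kh' (z3 0 X χ) = h30 := by
  rw [zm1_z3]
  unfold kh'
  simp only
  rw [norm_mul, Complex.norm_exp_ofReal_mul_I, mul_one, Complex.norm_real, Complex.norm_real,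
    Real.norm_eq_abs, Real.norm_eq_abs, sq_abs, abs_of_pos zm1_pos.1, rh_inv]
  ring

theorem zm1_h2 (X : ℝ × ℝ) (χ : ℝ) : kh' (z2 0 X χ) = h20 := by
  rw [zm1_z2]
  unfold kh'
  simp only
  rw [norm_mul, Complex.norm_exp_ofReal_mul_I, mul_one, Complex.norm_real, Complex.norm_real,
    Real.norm_eq_abs, Real.norm_eq_abs, sq_abs, abs_of_pos zm1_pos.1, rh_inv]
  have h := kh_sq
  unfold d0 at h
  simp only [ma, mb]
  linear_combination (-(1:ℝ)/4) * h

theorem zm1_be : be * Real.sqrt be = 2 := by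
  have h := be_cube
  have hb := zm1_pos.2.2.1
  have h1 : (be * Real.sqrt be) ^ 2 = 4 := by
    rw [mul_pow, Real.sq_sqrt hb.le]
    linarith
  have h2 : 0 ≤ be * Real.sqrt be := by positivity
  nlinarith

theorem z_zero_pr (X : ℝ × ℝ) {χ : ℝ} (hs : Real.sin χ ≠ 0) :
    kh' (z3 0 X χ) = h30 ∧ kh' (z2 0 X χ) = h20 ∧ kPer (z3 0 X χ) = 2 * Real.pi ∧
    kPer (z2 0 X χ) = Real.pi ∧ zX 0 X χ = kh / rh * me X χ ∧ zy 0 X χ = mΛ * mY X χ ∧
    zE 0 X χ = kh / rh * mY X χ := by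
  obtain ⟨hr, hk, hb, hcc⟩ := zm1_pos
  have h3 := zm1_h3 X χ
  have h2 := zm1_h2 X χ
  have hbs := zm1_be
  have hE : zE 0 X χ = kh / rh * mY X χ := by
    unfold zE zw zU
    rw [zm1_zr, zm1_zk]
    have e1 : ((starRingEnd ℂ) ((kh : ℂ) * Complex.exp ((χ : ℂ) * Complex.I)) *
        (((zϖ X / rh : ℝ) : ℂ) + ((1 / rh : ℝ) : ℂ) * Complex.I)).re =
        kh / rh * (zϖ X * Real.cos χ + Real.sin χ) := by
      rw [map_mul, Complex.conj_ofReal, Complex.exp_mul_I]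
      simp only [map_add, map_mul, Complex.conj_I, ← Complex.ofReal_cos, ← Complex.ofReal_sin,
        Complex.conj_ofReal, Complex.mul_re, Complex.add_re, Complex.ofReal_re, Complex.ofReal_im,
        Complex.mul_im, Complex.add_im, Complex.I_re, Complex.I_im, Complex.neg_re, Complex.neg_im]
      field_simp
      ring
    rw [e1]
    unfold mY cc
    field_simp
    ring
  have hA2 : kA (z2 0 X χ) = 1 / be := by
    unfold kA
    rw [h2, h20_be]
    unfold h30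
    field_simp
  refine ⟨h3, h2, ?_, ?_, ?_, ?_, hE⟩
  · unfold kPer kA
    rw [h3]
    unfold h30
    norm_num
  · unfold kPer
    rw [hA2, Real.sqrt_div zero_le_one, Real.sqrt_one]
    have : 2 * Real.pi * (1 / be) * (1 / Real.sqrt be) = 2 * Real.pi / (be * Real.sqrt be) := by
      field_simp
    rw [this, hbs]
    ring
  · have h := (z_L (C := 0) (X := X) (by rw [zm1_zr]; exact hr.ne') χ).2.2.2
    rw [h, zm1_zr, zm1_zk]
    unfold me
    field_simp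
  · have hQ : zQ 0 X χ = be := by
      unfold zQ
      rw [h3, h2, h20_be]
      unfold h30
      field_simp
    unfold zy
    rw [hQ, hE, h3, hbs]
    unfold mΛ h30
    field_simp
    ring

end

end Pool.Agent.HS

namespace Pool.Agent.HS
open Set Filter Topology
open scoped ContDiff

theorem z_zero (X : ℝ × ℝ) {χ : ℝ} (hs : Real.sin χ ≠ 0) :
    kh' (z3 0 X χ) = h30 ∧ kh' (z2 0 X χ) = h20 ∧ kPer (z3 0 X χ) = 2 * Real.pi ∧
    kPer (z2 0 X χ) = Real.pi ∧ zX 0 X χ = kh / rh * me X χ ∧ zy 0 X χ = mΛ * mY X χ ∧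
    zE 0 X χ = kh / rh * mY X χ :=
  @Pool.Agent.HS.z_zero_pr X χ hs

end Pool.Agent.HS
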