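import Pool.Agent.Lib_helper60.HSF.D_WZ
import Pool.Agent.Lib_helper60.HSF.Z_ZD1
import Pool.Agent.Lib_helper60.HSF.K_KA1
import Pool.Agent.Lib_helper60.HSF.Z_ZD2
import Pool.Agent.Lib_helper60.HSF.Z_ZC
import Pool.Agent.Lib_helper60.HSF.Z_ZM1

namespace Pool.Agent.HS

noncomputable section

open Set Filter Topology
open scoped ContDiff

/-- elliptic states, first component nonzero -/
def zd4_N : Set KS := {y : KS | kh' y < 0 ∧ y.1 ≠ 0}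

theorem zd4_kr : ContDiffOn ℝ ∞ kr zd4_N := by
  intro y hy
  exact (contDiffAt_fst.norm ℝ hy.2).contDiffWithinAt

theorem zd4_kh : ContDiffOn ℝ ∞ kh' zd4_N := by
  have h2 : ContDiffOn ℝ ∞ (fun y : KS => ‖y.2‖ ^ 2) zd4_N :=
    (contDiff_snd.norm_sq ℝ).contDiffOn
  have h3 : ContDiffOn ℝ ∞ (fun y : KS => ‖y.1‖) zd4_N := zd4_kr
  exact (h2.div_const 2).sub (contDiffOn_const.div h3 (fun y hy => norm_ne_zero_iff.2 hy.2))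

theorem zd4_kA : ContDiffOn ℝ ∞ kA zd4_N := by
  have h : ContDiffOn ℝ ∞ (fun y => -1 / (2 * kh' y)) zd4_N :=
    contDiffOn_const.div (contDiffOn_const.mul zd4_kh) (fun y hy => by
      have := hy.1
      simp only [ne_eq, mul_eq_zero, not_or]
      exact ⟨two_ne_zero, this.ne⟩)
  exact h

theorem zd4_sA : ContDiffOn ℝ ∞ (fun y : KS => Real.sqrt (kA y)) zd4_N :=
  zd4_kA.sqrt (fun y hy => (kA_pos hy.1).ne')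

theorem zd4_cm : ContDiff ℝ ∞ (fun y : KS => (starRingEnd ℂ) y.1 * y.2) :=
  ((Complex.conjCLE : ℂ →L[ℝ] ℂ).contDiff.comp contDiff_fst).mul contDiff_snd

theorem zd4_kσ : ContDiffOn ℝ ∞ kσ zd4_N :=
  (Complex.reCLM.contDiff.comp zd4_cm).contDiffOn

theorem zd4_kL : ContDiffOn ℝ ∞ kL zd4_N :=
  (Complex.imCLM.contDiff.comp zd4_cm).contDiffOn

theorem zd4_kPer : ContDiffOn ℝ ∞ kPer zd4_N := by
  have h : ContDiffOn ℝ ∞ (fun y => 2 * Real.pi * kA y * Real.sqrt (kA y)) zd4_N :=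
    (contDiffOn_const.mul zd4_kA).mul zd4_sA
  exact h

/-- `zt` as a composition -/
theorem zd4_zt {T : Set (ℝ × (ℝ × ℝ) × ℝ)} {c W : ℝ × (ℝ × ℝ) × ℝ → ℝ}
    {y : ℝ × (ℝ × ℝ) × ℝ → KS} (hc : ContDiffOn ℝ ∞ c T) (hW : ContDiffOn ℝ ∞ W T)
    (hy : ContDiffOn ℝ ∞ y T) (hm : MapsTo y T zd4_N) :
    ContDiffOn ℝ ∞ (fun p => zt (c p) (y p) (W p)) T := by
  unfold zt
  have hA : ContDiffOn ℝ ∞ (fun p => kA (y p)) T := zd4_kA.comp hy hm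
  have hsA : ContDiffOn ℝ ∞ (fun p => Real.sqrt (kA (y p))) T := zd4_sA.comp hy hm
  have hr : ContDiffOn ℝ ∞ (fun p => kr (y p)) T := zd4_kr.comp hy hm
  have hσ : ContDiffOn ℝ ∞ (fun p => kσ (y p)) T := zd4_kσ.comp hy hm
  have hden : ContDiffOn ℝ ∞ (fun p => 1 + (c p * W p) ^ 2) T :=
    contDiffOn_const.add ((hc.mul hW).pow 2)
  have hden0 : ∀ p ∈ T, 1 + (c p * W p) ^ 2 ≠ 0 := fun p _ => by positivity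
  have hatn : ContDiffOn ℝ ∞ (fun p => atn (c p) (W p)) T := by
    have h := atn_smooth.comp_contDiffOn (hc.prodMk hW)
    exact h
  refine hsA.mul (((((contDiffOn_const.mul hA).mul hatn)).add ?_).add ?_)
  · exact ((contDiffOn_const.mul (hr.sub hA)).mul hW).div hden hden0
  · exact ((((contDiffOn_const.mul hc).mul hsA).mul hσ).mul (hW.pow 2)).div hden hden0

theorem zd4_m3 : MapsTo (fun p : ℝ × (ℝ × ℝ) × ℝ => z3 p.1 p.2.1 p.2.2) ZS zd4_N := by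
  intro p hp
  have h : ZG p.1 p.2.1 p.2.2 := hp
  exact ⟨h.e3.1, kL_ne h.e3.2⟩

theorem zd4_m2 : MapsTo (fun p : ℝ × (ℝ × ℝ) × ℝ => z2 p.1 p.2.1 p.2.2) ZS zd4_N := by
  intro p hp
  have h : ZG p.1 p.2.1 p.2.2 := hp
  exact ⟨h.e2.1, kL_ne h.e2.2⟩

theorem zd4_zr : ContDiffOn ℝ ∞ (fun p : ℝ × (ℝ × ℝ) × ℝ => zr p.1 p.2.1) ZS := by
  have h := (Complex.reCLM.contDiff.comp contDiff_fst).comp_contDiffOn zS_states.1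
  exact h

theorem zd4_C : ContDiffOn ℝ ∞ (fun p : ℝ × (ℝ × ℝ) × ℝ => p.1) ZS := contDiff_fst.contDiffOn
theorem zd4_x : ContDiffOn ℝ ∞ (fun p : ℝ × (ℝ × ℝ) × ℝ => p.2.1.1) ZS :=
  (contDiff_fst.comp (contDiff_fst.comp contDiff_snd)).contDiffOn
theorem zd4_z : ContDiffOn ℝ ∞ (fun p : ℝ × (ℝ × ℝ) × ℝ => p.2.1.2) ZS :=
  (contDiff_snd.comp (contDiff_fst.comp contDiff_snd)).contDiffOn
theorem zd4_χ : ContDiffOn ℝ ∞ (fun p : ℝ × (ℝ × ℝ) × ℝ => p.2.2) ZS :=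
  (contDiff_snd.comp contDiff_snd).contDiffOn

theorem zd4_zr0 {p : ℝ × (ℝ × ℝ) × ℝ} (hp : p ∈ ZS) : zr p.1 p.2.1 ≠ 0 := by
  have h : ZG p.1 p.2.1 p.2.2 := hp
  have h1 := kL_ne h.e3.2
  intro h0
  apply h1
  change (zr p.1 p.2.1 : ℂ) = 0
  rw [h0]; simp

theorem zd4_W3 : ContDiffOn ℝ ∞ (fun p : ℝ × (ℝ × ℝ) × ℝ => zW3 p.1 p.2.1 p.2.2) ZS := by
  obtain ⟨s3, s2, sX, -, -⟩ := zS_states
  have L3 : ContDiffOn ℝ ∞ (fun p : ℝ × (ℝ × ℝ) × ℝ => kL (z3 p.1 p.2.1 p.2.2)) ZS :=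
    zd4_kL.comp s3 zd4_m3
  have L2 : ContDiffOn ℝ ∞ (fun p : ℝ × (ℝ × ℝ) × ℝ => kL (z2 p.1 p.2.1 p.2.2)) ZS :=
    zd4_kL.comp s2 zd4_m2
  have S3 : ContDiffOn ℝ ∞ (fun p : ℝ × (ℝ × ℝ) × ℝ => kσ (z3 p.1 p.2.1 p.2.2)) ZS :=
    zd4_kσ.comp s3 zd4_m3
  have A3 : ContDiffOn ℝ ∞ (fun p : ℝ × (ℝ × ℝ) × ℝ => Real.sqrt (kA (z3 p.1 p.2.1 p.2.2))) ZS :=
    zd4_sA.comp s3 zd4_m3
  have c3 : ContDiffOn ℝ ∞ (fun p : ℝ × (ℝ × ℝ) × ℝ => zc3 p.1 p.2.1 p.2.2) ZS := by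
    unfold zc3
    exact ((L3.pow 2).sub (L2.pow 2)).add (((S3.mul zd4_zr).mul L2).mul (zd4_C.mul sX))
  unfold zW3
  refine ((((zd4_zr.pow 2).mul L2).mul sX).neg).div (A3.mul c3) ?_
  intro p hp
  have h : ZG p.1 p.2.1 p.2.2 := hp
  exact (mul_pos (Real.sqrt_pos.2 (kA_pos h.e3.1)) h.c3).ne'

theorem zd4_W2 : ContDiffOn ℝ ∞ (fun p : ℝ × (ℝ × ℝ) × ℝ => zW2 p.1 p.2.1 p.2.2) ZS := by
  obtain ⟨s3, s2, sX, -, -⟩ := zS_states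
  have L3 : ContDiffOn ℝ ∞ (fun p : ℝ × (ℝ × ℝ) × ℝ => kL (z3 p.1 p.2.1 p.2.2)) ZS :=
    zd4_kL.comp s3 zd4_m3
  have L2 : ContDiffOn ℝ ∞ (fun p : ℝ × (ℝ × ℝ) × ℝ => kL (z2 p.1 p.2.1 p.2.2)) ZS :=
    zd4_kL.comp s2 zd4_m2
  have S2 : ContDiffOn ℝ ∞ (fun p : ℝ × (ℝ × ℝ) × ℝ => kσ (z2 p.1 p.2.1 p.2.2)) ZS :=
    zd4_kσ.comp s2 zd4_m2
  have A2 : ContDiffOn ℝ ∞ (fun p : ℝ × (ℝ × ℝ) × ℝ => Real.sqrt (kA (z2 p.1 p.2.1 p.2.2))) ZS :=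
    zd4_sA.comp s2 zd4_m2
  have c2 : ContDiffOn ℝ ∞ (fun p : ℝ × (ℝ × ℝ) × ℝ => zc2 p.1 p.2.1 p.2.2) ZS := by
    unfold zc2
    exact ((L3.pow 2).sub (L2.pow 2)).add (((S2.mul zd4_zr).mul L3).mul (zd4_C.mul sX))
  unfold zW2
  refine ((((zd4_zr.pow 2).mul L3).mul sX).neg).div (A2.mul c2) ?_
  intro p hp
  have h : ZG p.1 p.2.1 p.2.2 := hp
  exact (mul_pos (Real.sqrt_pos.2 (kA_pos h.e2.1)) h.c2).ne'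

theorem zd4_τ : ContDiffOn ℝ ∞ (fun p : ℝ × (ℝ × ℝ) × ℝ => zτ p.1 p.2.1 p.2.2) ZS := by
  obtain ⟨s3, s2, -, -, -⟩ := zS_states
  unfold zτ
  exact (zd4_zt zd4_C zd4_W3 s3 zd4_m3).sub (zd4_zt zd4_C zd4_W2 s2 zd4_m2)

theorem zd4_E : ContDiffOn ℝ ∞ (fun p : ℝ × (ℝ × ℝ) × ℝ => zE p.1 p.2.1 p.2.2) ZS := by
  obtain ⟨s3, s2, sX, -, sk⟩ := zS_states
  obtain ⟨-, -, -, -, hrh, -, hcc, -, -⟩ := z_bounds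
  have hrh0 : rh ≠ 0 := by linarith
  have hcc0 : cc ≠ 0 := by linarith
  have hw : ContDiffOn ℝ ∞ (fun p : ℝ × (ℝ × ℝ) × ℝ => zw p.1 p.2.1 p.2.2) ZS := by
    unfold zw
    refine ContDiffOn.mul (Complex.ofRealCLM.contDiff.comp_contDiffOn sk) ?_
    have h1 : ContDiffOn ℝ ∞ (fun p : ℝ × (ℝ × ℝ) × ℝ => (p.2.2 : ℂ) * Complex.I) ZS :=
      (Complex.ofRealCLM.contDiff.comp_contDiffOn zd4_χ).mul contDiffOn_const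
    exact h1.cexp
  have hρ : ContDiffOn ℝ ∞ (fun p : ℝ × (ℝ × ℝ) × ℝ => zρ p.2.1) ZS := by
    unfold zρ
    exact contDiffOn_const.add zd4_x
  have hϖ : ContDiffOn ℝ ∞ (fun p : ℝ × (ℝ × ℝ) × ℝ => zϖ p.2.1) ZS := by
    unfold zϖ
    exact (contDiffOn_const.add (contDiffOn_const.mul zd4_x)).add zd4_z
  have hU : ContDiffOn ℝ ∞ (fun p : ℝ × (ℝ × ℝ) × ℝ => zU p.1 p.2.1) ZS := by
    unfold zU
    refine ContDiffOn.add ?_ (ContDiffOn.mul ?_ contDiffOn_const)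
    · exact Complex.ofRealCLM.contDiff.comp_contDiffOn (hϖ.div_const rh)
    · exact Complex.ofRealCLM.contDiff.comp_contDiffOn
        (contDiffOn_const.div zd4_zr (fun p hp => zd4_zr0 hp))
  unfold zE
  refine ContDiffOn.add ?_ (contDiffOn_const.mul (ContDiffOn.sub ?_ ?_))
  · exact Complex.reCLM.contDiff.comp_contDiffOn
      (((Complex.conjCLE : ℂ →L[ℝ] ℂ).contDiff.comp_contDiffOn hw).mul hU)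
  · refine hρ.neg.div (contDiffOn_const.mul zd4_zr) (fun p hp => ?_)
    exact mul_ne_zero (mul_ne_zero hcc0 (pow_ne_zero 2 hrh0)) (zd4_zr0 hp)
  · exact (zd4_C.mul (hU.norm_sq ℝ)).div_const 2

theorem zd4_y : ContDiffOn ℝ ∞ (fun p : ℝ × (ℝ × ℝ) × ℝ => zy p.1 p.2.1 p.2.2) ZS := by
  obtain ⟨s3, s2, -, -, -⟩ := zS_states
  have h3 : ContDiffOn ℝ ∞ (fun p : ℝ × (ℝ × ℝ) × ℝ => kh' (z3 p.1 p.2.1 p.2.2)) ZS :=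
    zd4_kh.comp s3 zd4_m3
  have h2 : ContDiffOn ℝ ∞ (fun p : ℝ × (ℝ × ℝ) × ℝ => kh' (z2 p.1 p.2.1 p.2.2)) ZS :=
    zd4_kh.comp s2 zd4_m2
  have n3 : ∀ p ∈ ZS, kh' (z3 p.1 p.2.1 p.2.2) < 0 := fun p hp => (zd4_m3 hp).1
  have n2 : ∀ p ∈ ZS, kh' (z2 p.1 p.2.1 p.2.2) < 0 := fun p hp => (zd4_m2 hp).1
  have hQ : ContDiffOn ℝ ∞ (fun p : ℝ × (ℝ × ℝ) × ℝ => zQ p.1 p.2.1 p.2.2) ZS := by
    unfold zQ
    exact h2.div h3 (fun p hp => (n3 p hp).ne)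
  have hQ0 : ∀ p ∈ ZS, 0 < zQ p.1 p.2.1 p.2.2 := fun p hp =>
    div_pos_of_neg_of_neg (n2 p hp) (n3 p hp)
  have hsQ : ContDiffOn ℝ ∞ (fun p : ℝ × (ℝ × ℝ) × ℝ => Real.sqrt (zQ p.1 p.2.1 p.2.2)) ZS :=
    hQ.sqrt (fun p hp => (hQ0 p hp).ne')
  unfold zy
  refine ContDiffOn.div ?_ (h3.mul ((hQ.mul hsQ).add contDiffOn_const)) ?_
  · exact ((contDiffOn_const.mul zd4_E).mul (((hQ.pow 2).add (contDiffOn_const.mul hQ)).add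
      contDiffOn_const)).neg
  · intro p hp
    have a1 := hQ0 p hp
    have a2 := Real.sqrt_nonneg (zQ p.1 p.2.1 p.2.2)
    have a3 : 0 < zQ p.1 p.2.1 p.2.2 * Real.sqrt (zQ p.1 p.2.1 p.2.2) + 2 := by positivity
    exact mul_ne_zero (n3 p hp).ne a3.ne'

theorem zd4_P2 : ContDiffOn ℝ ∞ (fun p : ℝ × (ℝ × ℝ) × ℝ => kPer (z2 p.1 p.2.1 p.2.2)) ZS := by
  obtain ⟨s3, s2, -, -, -⟩ := zS_states
  have h := ContDiffOn.comp zd4_kPer s2 zd4_m2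
  exact h

theorem zd4_A3 : ContDiffOn ℝ ∞ (fun p : ℝ × (ℝ × ℝ) × ℝ => kA (z3 p.1 p.2.1 p.2.2)) ZS := by
  obtain ⟨s3, s2, -, -, -⟩ := zS_states
  have h := ContDiffOn.comp zd4_kA s3 zd4_m3
  exact h

theorem zS_time_pr : ContDiffOn ℝ ∞ (fun p : ℝ × (ℝ × ℝ) × ℝ => zτ p.1 p.2.1 p.2.2) ZS ∧
    ContDiffOn ℝ ∞ (fun p : ℝ × (ℝ × ℝ) × ℝ => zy p.1 p.2.1 p.2.2) ZS ∧
    ContDiffOn ℝ ∞ (fun p : ℝ × (ℝ × ℝ) × ℝ => kPer (z2 p.1 p.2.1 p.2.2)) ZS ∧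
    ContDiffOn ℝ ∞ (fun p : ℝ × (ℝ × ℝ) × ℝ => kA (z3 p.1 p.2.1 p.2.2)) ZS := by
  exact ⟨zd4_τ, zd4_y, zd4_P2, zd4_A3⟩

/-- the domain of the equations -/
def zd4_T : Set (ℝ × ℝ × (ℝ × ℝ) × ℝ) := {q | (q.1, q.2.2.1, q.2.2.2) ∈ ZS}

theorem zd4_comp (f : ℝ × (ℝ × ℝ) × ℝ → ℝ) (hf : ContDiffOn ℝ ∞ f ZS) :
    ContDiffOn ℝ ∞ (fun q : ℝ × ℝ × (ℝ × ℝ) × ℝ => f (q.1, q.2.2.1, q.2.2.2)) zd4_T := by
  have g : ContDiffOn ℝ ∞ (fun q : ℝ × ℝ × (ℝ × ℝ) × ℝ =>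
      ((q.1, q.2.2.1, q.2.2.2) : ℝ × (ℝ × ℝ) × ℝ)) zd4_T :=
    (contDiff_fst.prodMk (contDiff_snd.comp contDiff_snd)).contDiffOn
  have hm : MapsTo (fun q : ℝ × ℝ × (ℝ × ℝ) × ℝ =>
      ((q.1, q.2.2.1, q.2.2.2) : ℝ × (ℝ × ℝ) × ℝ)) zd4_T ZS := fun q hq => hq
  exact hf.comp g hm

theorem zd4_kτ : ContDiffOn ℝ ∞ (fun q : ℝ × ℝ × (ℝ × ℝ) × ℝ => zτ q.1 q.2.2.1 q.2.2.2) zd4_T :=
  zd4_comp _ zd4_τ

theorem zd4_ky : ContDiffOn ℝ ∞ (fun q : ℝ × ℝ × (ℝ × ℝ) × ℝ => zy q.1 q.2.2.1 q.2.2.2) zd4_T :=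
  zd4_comp _ zd4_y

theorem zd4_kP : ContDiffOn ℝ ∞ (fun q : ℝ × ℝ × (ℝ × ℝ) × ℝ =>
    kPer (z2 q.1 q.2.2.1 q.2.2.2)) zd4_T :=
  zd4_comp _ zd4_P2

theorem zd4_kP0 {q : ℝ × ℝ × (ℝ × ℝ) × ℝ} (hq : q ∈ zd4_T) :
    kPer (z2 q.1 q.2.2.1 q.2.2.2) ≠ 0 := by
  have h : ZG q.1 q.2.2.1 q.2.2.2 := hq
  have h1 := kA_pos h.e2.1
  have h2 := Real.sqrt_pos.2 h1
  have h3 : 0 < kPer (z2 q.1 q.2.2.1 q.2.2.2) := by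
    unfold kPer
    have := Real.pi_pos
    positivity
  exact h3.ne'

theorem zd4_Ξ (j : ℝ) :
    ContDiffOn ℝ ∞ (fun q : ℝ × ℝ × (ℝ × ℝ) × ℝ => zΞ j q.1 q.2.1 q.2.2.1 q.2.2.2) zd4_T := by
  have g1 : ContDiffOn ℝ ∞ (fun q : ℝ × ℝ × (ℝ × ℝ) × ℝ => q.1) zd4_T := contDiff_fst.contDiffOn
  have g2 : ContDiffOn ℝ ∞ (fun q : ℝ × ℝ × (ℝ × ℝ) × ℝ => q.2.1) zd4_T :=
    (contDiff_fst.comp contDiff_snd).contDiffOn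
  have h := ((g2.mul zd4_ky).add ((g1.mul zd4_kτ).div zd4_kP (fun q hq => zd4_kP0 hq))).sub
    (contDiffOn_const (c := j))
  exact h

theorem zd4_Θ (j : ℝ) :
    ContDiffOn ℝ ∞ (fun q : ℝ × ℝ × (ℝ × ℝ) × ℝ => zΘ j q.1 q.2.1 q.2.2.1 q.2.2.2) zd4_T := by
  have g2 : ContDiffOn ℝ ∞ (fun q : ℝ × ℝ × (ℝ × ℝ) × ℝ => q.2.1) zd4_T :=
    (contDiff_fst.comp contDiff_snd).contDiffOn
  have h := (g2.mul zd4_ky).sub (contDiffOn_const (c := j))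
  exact h

theorem zΞ_smooth_pr (j : ℝ) :
    ContDiffOn ℝ ∞ (fun q : ℝ × ℝ × (ℝ × ℝ) × ℝ => zΞ j q.1 q.2.1 q.2.2.1 q.2.2.2)
      {q | (q.1, q.2.2.1, q.2.2.2) ∈ ZS} ∧
    ContDiffOn ℝ ∞ (fun q : ℝ × ℝ × (ℝ × ℝ) × ℝ => zΘ j q.1 q.2.1 q.2.2.1 q.2.2.2)
      {q | (q.1, q.2.2.1, q.2.2.2) ∈ ZS} :=
  ⟨zd4_Ξ j, zd4_Θ j⟩

theorem zΞ_zero_pr (j ν : ℝ) (X : ℝ × ℝ) {χ : ℝ} (hs : Real.sin χ ≠ 0) :
    zΞ j 0 ν X χ = ν * (mΛ * mY X χ) - j ∧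
    HasDerivAt (fun χ => zΞ j 0 ν X χ) (ν * (mΛ * me X χ)) χ ∧
    zΘ j 0 ν X χ = ν * (mΛ * mY X χ) - j ∧
    HasDerivAt (fun χ => zΘ j 0 ν X χ) (ν * (mΛ * me X χ)) χ := by
  have e1 : ∀ t : ℝ, Real.sin t ≠ 0 → zΞ j 0 ν X t = ν * (mΛ * mY X t) - j := by
    intro t ht
    unfold zΞ
    rw [(z_zero X ht).2.2.2.2.2.1]
    simp
  have e2 : ∀ t : ℝ, Real.sin t ≠ 0 → zΘ j 0 ν X t = ν * (mΛ * mY X t) - j := by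
    intro t ht
    unfold zΘ
    rw [(z_zero X ht).2.2.2.2.2.1]
  have ev : ∀ᶠ t in 𝓝 χ, Real.sin t ≠ 0 :=
    Real.continuous_sin.continuousAt.eventually_ne hs
  have d : HasDerivAt (fun t => ν * (mΛ * mY X t) - j) (ν * (mΛ * me X χ)) χ := by
    have h1 : HasDerivAt (fun t => mY X t) (me X χ) χ := by
      unfold mY me
      have := (((Real.hasDerivAt_cos χ).const_mul (zϖ X)).add (Real.hasDerivAt_sin χ)).sub_const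
        (zρ X)
      refine this.congr_deriv ?_
      ring
    exact ((h1.const_mul mΛ).const_mul ν).sub_const j
  refine ⟨e1 χ hs, ?_, e2 χ hs, ?_⟩
  · exact d.congr_of_eventuallyEq (ev.mono fun t ht => e1 t ht)
  · exact d.congr_of_eventuallyEq (ev.mono fun t ht => e2 t ht)

end

end Pool.Agent.HS

namespace Pool.Agent.HS
open Set Filter Topology
open scoped ContDiff

theorem zS_time : ContDiffOn ℝ ∞ (fun p : ℝ × (ℝ × ℝ) × ℝ => zτ p.1 p.2.1 p.2.2) ZS ∧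
    ContDiffOn ℝ ∞ (fun p : ℝ × (ℝ × ℝ) × ℝ => zy p.1 p.2.1 p.2.2) ZS ∧
    ContDiffOn ℝ ∞ (fun p : ℝ × (ℝ × ℝ) × ℝ => kPer (z2 p.1 p.2.1 p.2.2)) ZS ∧
    ContDiffOn ℝ ∞ (fun p : ℝ × (ℝ × ℝ) × ℝ => kA (z3 p.1 p.2.1 p.2.2)) ZS :=
  @Pool.Agent.HS.zS_time_pr

end Pool.Agent.HS

namespace Pool.Agent.HS
open Set Filter Topology
open scoped ContDiff

theorem zΞ_smooth (j : ℝ) :
    ContDiffOn ℝ ∞ (fun q : ℝ × ℝ × (ℝ × ℝ) × ℝ => zΞ j q.1 q.2.1 q.2.2.1 q.2.2.2)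
      {q | (q.1, q.2.2.1, q.2.2.2) ∈ ZS} ∧
    ContDiffOn ℝ ∞ (fun q : ℝ × ℝ × (ℝ × ℝ) × ℝ => zΘ j q.1 q.2.1 q.2.2.1 q.2.2.2)
      {q | (q.1, q.2.2.1, q.2.2.2) ∈ ZS} :=
  @Pool.Agent.HS.zΞ_smooth_pr j

end Pool.Agent.HS

namespace Pool.Agent.HS
open Set Filter Topology
open scoped ContDiff

theorem zΞ_zero (j ν : ℝ) (X : ℝ × ℝ) {χ : ℝ} (hs : Real.sin χ ≠ 0) :
    zΞ j 0 ν X χ = ν * (mΛ * mY X χ) - j ∧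
    HasDerivAt (fun χ => zΞ j 0 ν X χ) (ν * (mΛ * me X χ)) χ ∧
    zΘ j 0 ν X χ = ν * (mΛ * mY X χ) - j ∧
    HasDerivAt (fun χ => zΘ j 0 ν X χ) (ν * (mΛ * me X χ)) χ :=
  @Pool.Agent.HS.zΞ_zero_pr j ν X χ hs

end Pool.Agent.HS
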