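import Pool.Agent.Lib_helper60.HSF.D_WZ
import Pool.Agent.Lib_helper60.HSF.K_KA1
import Pool.Agent.Lib_helper60.HSF.Z_ZC
import Pool.Agent.Lib_helper60.HSF.Z_ZA1
import Pool.Agent.Lib_helper60.HSF.Z_ZM1

/-!
# Project HS, part Z, block ZM2: the model at `C = 0`
-/

namespace Pool.Agent.HS

noncomputable section

open Set Filter Topology
open scoped ContDiff

theorem zm2_kh : 0 < kh := by
  have := z_bounds.2.2.1
  linarith

theorem zm2_rh : 0 < rh := by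
  have := z_bounds.2.2.2.2.1
  linarith

theorem zm2_chart (X : ℝ × ℝ) : chart 0 X = (rh, 0) := by
  unfold chart
  simp

theorem zm2_zr (X : ℝ × ℝ) : zr 0 X = rh := by
  unfold zr
  rw [zm2_chart]

theorem zm2_k0 (X : ℝ × ℝ) :
    E0 + 1 / zr 0 X - ((chart 0 X).2 ^ 2 + (0 : ℝ) ^ 2 / zr 0 X ^ 2) / 2 = ma * mb * kh ^ 2 / 2 := by
  rw [zm2_zr, zm2_chart, ← E0_rh]
  simp

theorem zm2_zk (X : ℝ × ℝ) : zk 0 X = kh := by
  have h := zm2_k0 X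
  have h1 : zk 0 X = Real.sqrt (2 / (ma * mb) *
      (E0 + 1 / zr 0 X - ((chart 0 X).2 ^ 2 + (0 : ℝ) ^ 2 / zr 0 X ^ 2) / 2)) := rfl
  have h2 : 2 / (ma * mb) * (ma * mb * kh ^ 2 / 2) = kh ^ 2 := by
    unfold ma mb
    ring
  rw [h1, h, h2, Real.sqrt_sq zm2_kh.le]

theorem zm2_zw (X : ℝ × ℝ) (χ : ℝ) :
    zw 0 X χ = (kh : ℂ) * Complex.exp ((χ : ℂ) * Complex.I) := by
  unfold zw
  rw [zm2_zk]

theorem zm2_L3 (X : ℝ × ℝ) (χ : ℝ) : kL (z3 0 X χ) = mb * rh * kh * Real.sin χ := by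
  have hr : zr 0 X ≠ 0 := by rw [zm2_zr]; exact zm2_rh.ne'
  rw [(z_L hr χ).1, zm2_zr, zm2_zk]
  ring

theorem zm2_L2 (X : ℝ × ℝ) (χ : ℝ) : kL (z2 0 X χ) = -(ma * rh * kh * Real.sin χ) := by
  have hr : zr 0 X ≠ 0 := by rw [zm2_zr]; exact zm2_rh.ne'
  rw [(z_L hr χ).2.1, zm2_zr, zm2_zk]
  ring

theorem zm2_u3 (X : ℝ × ℝ) (χ : ℝ) :
    (z3 0 X χ).2 = ((mb * kh : ℝ) : ℂ) * Complex.exp ((χ : ℂ) * Complex.I) := by
  have : (z3 0 X χ).2 = ((0 : ℝ) : ℂ) * zU 0 X + (mb : ℂ) * zw 0 X χ := rfl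
  rw [this, zm2_zw]
  push_cast
  ring

theorem zm2_u2 (X : ℝ × ℝ) (χ : ℝ) :
    (z2 0 X χ).2 = -(((ma * kh : ℝ) : ℂ) * Complex.exp ((χ : ℂ) * Complex.I)) := by
  have : (z2 0 X χ).2 = ((0 : ℝ) : ℂ) * zU 0 X - (ma : ℂ) * zw 0 X χ := rfl
  rw [this, zm2_zw]
  push_cast
  ring

theorem zm2_D (X : ℝ × ℝ) (χ : ℝ) : zD 0 X χ =
    ((rh * kh ^ 2 * Real.sin χ / 2 : ℝ) : ℂ) * Complex.exp ((χ : ℂ) * Complex.I) := by
  have : zD 0 X χ = (kL (z3 0 X χ) : ℂ) * (z3 0 X χ).2 - (kL (z2 0 X χ) : ℂ) * (z2 0 X χ).2 := rfl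
  rw [this, zm2_L3, zm2_L2, zm2_u3, zm2_u2]
  have h : ((mb * rh * kh * Real.sin χ : ℝ) : ℂ) * ((mb * kh : ℝ) : ℂ) -
      ((ma * rh * kh * Real.sin χ : ℝ) : ℂ) * ((ma * kh : ℝ) : ℂ) =
      ((rh * kh ^ 2 * Real.sin χ / 2 : ℝ) : ℂ) := by
    rw [← Complex.ofReal_mul, ← Complex.ofReal_mul, ← Complex.ofReal_sub]
    congr 1
    unfold ma mb
    ring
  rw [← h]
  push_cast
  ring

theorem zm2_Dre (X : ℝ × ℝ) (χ : ℝ) :
    (zD 0 X χ).re = rh * kh ^ 2 * Real.sin χ / 2 * Real.cos χ := by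
  rw [zm2_D, Complex.re_ofReal_mul, Complex.exp_ofReal_mul_I_re]

theorem zm2_Dim (X : ℝ × ℝ) (χ : ℝ) :
    (zD 0 X χ).im = rh * kh ^ 2 * Real.sin χ / 2 * Real.sin χ := by
  rw [zm2_D, Complex.im_ofReal_mul, Complex.exp_ofReal_mul_I_im]

theorem zm2_den (X : ℝ × ℝ) (χ : ℝ) :
    zden 0 X χ = rh ^ 2 * kh ^ 4 * Real.sin χ ^ 4 / 4 := by
  have h0 : zden 0 X χ = ‖zD 0 X χ‖ ^ 2 -
      ((starRingEnd ℂ) (kE (z3 0 X χ)) * zD 0 X χ).re ^ 2 := rfl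
  have h1 : kE (z3 0 X χ) = -(Complex.I * (kL (z3 0 X χ) : ℂ)) * (z3 0 X χ).2 -
      ((zr 0 X : ℝ) : ℂ) / ((‖((zr 0 X : ℝ) : ℂ)‖ : ℝ) : ℂ) := rfl
  have h2 : ((zr 0 X : ℝ) : ℂ) / ((‖((zr 0 X : ℝ) : ℂ)‖ : ℝ) : ℂ) = 1 := by
    rw [zm2_zr, Complex.norm_real, Real.norm_eq_abs, abs_of_pos zm2_rh]
    exact div_self (by exact_mod_cast zm2_rh.ne')
  have h3 : ‖zD 0 X χ‖ ^ 2 = (rh * kh ^ 2 * Real.sin χ / 2) ^ 2 := by
    rw [zm2_D, norm_mul, Complex.norm_exp_ofReal_mul_I, mul_one, Complex.norm_real,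
      Real.norm_eq_abs, sq_abs]
  have h4 : (z3 0 X χ).2.re = mb * kh * Real.cos χ := by
    rw [zm2_u3, Complex.re_ofReal_mul, Complex.exp_ofReal_mul_I_re]
  have h5 : (z3 0 X χ).2.im = mb * kh * Real.sin χ := by
    rw [zm2_u3, Complex.im_ofReal_mul, Complex.exp_ofReal_mul_I_im]
  have h6 : (kE (z3 0 X χ)).re = kL (z3 0 X χ) * (mb * kh * Real.sin χ) - 1 := by
    rw [h1, h2]
    simp only [Complex.sub_re, Complex.mul_re, Complex.neg_re, Complex.neg_im, Complex.mul_im,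
      Complex.I_re, Complex.I_im, Complex.ofReal_re, Complex.ofReal_im, Complex.one_re, h4, h5]
    ring
  have h7 : (kE (z3 0 X χ)).im = -(kL (z3 0 X χ) * (mb * kh * Real.cos χ)) := by
    rw [h1, h2]
    simp only [Complex.sub_im, Complex.mul_re, Complex.neg_re, Complex.neg_im, Complex.mul_im,
      Complex.I_re, Complex.I_im, Complex.ofReal_re, Complex.ofReal_im, Complex.one_im, h4, h5]
    ring
  have h8 : ((starRingEnd ℂ) (kE (z3 0 X χ)) * zD 0 X χ).re =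
      -(rh * kh ^ 2 * Real.sin χ / 2 * Real.cos χ) := by
    rw [Complex.mul_re, Complex.conj_re, Complex.conj_im, h6, h7, zm2_Dre, zm2_Dim]
    ring
  rw [h0, h3, h8]
  have h9 : Real.cos χ ^ 2 = 1 - Real.sin χ ^ 2 := by
    have := Real.sin_sq_add_cos_sq χ
    linarith
  rw [neg_sq, mul_pow, h9]
  ring

theorem zm2_lam (X : ℝ × ℝ) {χ : ℝ} (hs : Real.sin χ ≠ 0) :
    zlam 0 X χ = 3 / 2 * me X χ / (kh * Real.sin χ ^ 2) := by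
  have hk := zm2_kh.ne'
  have hr := zm2_rh.ne'
  unfold zlam
  rw [zm2_zr, zm2_L3, zm2_L2, zm2_den, (z_zero X hs).2.2.2.2.1]
  unfold ma mb
  field_simp
  ring

theorem zm2_B (X : ℝ × ℝ) (χ : ℝ) : zB 0 X χ = (rh : ℂ) := by
  unfold zB
  rw [zm2_zr, zero_mul, Complex.ofReal_zero, zero_mul, add_zero]

theorem zm2_Bn (X : ℝ × ℝ) (χ : ℝ) : ‖zB 0 X χ‖ = rh := by
  rw [zm2_B, Complex.norm_real, Real.norm_eq_abs, abs_of_pos zm2_rh]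

theorem zm2_Bh (X : ℝ × ℝ) (χ : ℝ) : zBh 0 X χ = 1 := by
  unfold zBh
  rw [zm2_Bn, zm2_B]
  exact div_self (by exact_mod_cast zm2_rh.ne')

theorem zm2_c3 (X : ℝ × ℝ) (χ : ℝ) : zc3 0 X χ = rh ^ 2 * kh ^ 2 * Real.sin χ ^ 2 / 2 := by
  unfold zc3
  rw [zm2_L3, zm2_L2]
  unfold ma mb
  ring

theorem zm2_c2 (X : ℝ × ℝ) (χ : ℝ) : zc2 0 X χ = rh ^ 2 * kh ^ 2 * Real.sin χ ^ 2 / 2 := by
  unfold zc2
  rw [zm2_L3, zm2_L2]
  unfold ma mb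
  ring

theorem zm2_atn (w : ℝ) : atn 0 w = w := by
  unfold atn
  rw [zero_mul, dslope_same, (Real.hasDerivAt_arctan 0).deriv]
  norm_num

theorem zm2_zt (y : KS) (W : ℝ) : zt 0 y W = 2 * Real.sqrt (kA y) * kr y * W := by
  unfold zt
  rw [zm2_atn]
  simp only [zero_mul, mul_zero, ne_eq, OfNat.ofNat_ne_zero, not_false_eq_true, zero_pow, add_zero,
    div_one]
  ring

theorem zm2_kr3 (X : ℝ × ℝ) (χ : ℝ) : kr (z3 0 X χ) = rh := by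
  have : kr (z3 0 X χ) = ‖((zr 0 X : ℝ) : ℂ)‖ := rfl
  rw [this, zm2_zr, Complex.norm_real, Real.norm_eq_abs, abs_of_pos zm2_rh]

theorem zm2_kr2 (X : ℝ × ℝ) (χ : ℝ) : kr (z2 0 X χ) = rh := by
  have : kr (z2 0 X χ) = ‖((zr 0 X : ℝ) : ℂ)‖ := rfl
  rw [this, zm2_zr, Complex.norm_real, Real.norm_eq_abs, abs_of_pos zm2_rh]

theorem zm2_zw' (X : ℝ × ℝ) (χ : ℝ) : zw' 0 X χ = zw 0 X χ := by
  unfold zw'
  rw [zm2_Bh, sub_self, mul_zero, add_zero]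

theorem zm2_w (X : ℝ × ℝ) (χ : ℝ) :
    (starRingEnd ℂ) (zBh 0 X χ) * zw' 0 X χ * Complex.exp (-(χ : ℂ) * Complex.I) = (kh : ℂ) := by
  rw [zm2_Bh, zm2_zw', zm2_zw, map_one, one_mul, mul_assoc, ← Complex.exp_add]
  have : (χ : ℂ) * Complex.I + -(χ : ℂ) * Complex.I = 0 := by ring
  rw [this, Complex.exp_zero, mul_one]

theorem zm2_h30 : h30 < 0 := by
  unfold h30
  norm_num

theorem zm2_h20 : h20 < 0 := by
  unfold h20
  have : 0 < (2 : ℝ) ^ (-(1 / 3) : ℝ) := Real.rpow_pos_of_pos (by norm_num) _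
  linarith

theorem zm2_sqrt3 (X : ℝ × ℝ) {χ : ℝ} (hs : Real.sin χ ≠ 0) : 0 < Real.sqrt (kA (z3 0 X χ)) := by
  apply Real.sqrt_pos.mpr
  apply kA_pos
  rw [(z_zero X hs).1]
  exact zm2_h30

theorem zm2_sqrt2 (X : ℝ × ℝ) {χ : ℝ} (hs : Real.sin χ ≠ 0) : 0 < Real.sqrt (kA (z2 0 X χ)) := by
  apply Real.sqrt_pos.mpr
  apply kA_pos
  rw [(z_zero X hs).2.1]
  exact zm2_h20

theorem zm2_ρ (X : ℝ × ℝ) {χ : ℝ} (hs : Real.sin χ ≠ 0) :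
    zρ' 0 X χ = zρ X + mD X χ * Real.cos χ := by
  have hk := zm2_kh.ne'
  have hr := zm2_rh.ne'
  unfold zρ'
  rw [zm2_zr, zm2_lam X hs, zm2_Dre, zm2_Bn, zero_mul, zero_mul, add_zero]
  unfold cc mD me
  field_simp
  ring

theorem zm2_ϖ (X : ℝ × ℝ) {χ : ℝ} (hs : Real.sin χ ≠ 0) :
    zϖ' 0 X χ = zϖ X + mD X χ := by
  have hk := zm2_kh.ne'
  have hr := zm2_rh.ne'
  have hU : (zU 0 X).re = zϖ X / rh := by
    unfold zU
    simp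
  unfold zϖ'
  rw [zm2_Bh, map_one, one_mul, hU, zm2_L3, zm2_L2, zm2_lam X hs, zm2_Dim, zm2_Bn]
  unfold mD me ma mb
  field_simp
  ring

theorem z_zero'_pr (X : ℝ × ℝ) {χ : ℝ} (hs : Real.sin χ ≠ 0) :
    zF 0 X χ = mF X χ ∧ zτ 0 X χ = 2 * rh * mD X χ ∧ zθ 0 X χ = χ ∧ zBh 0 X χ = 1 := by
  have hk := zm2_kh.ne'
  have hr := zm2_rh.ne'
  refine ⟨?_, ?_, ?_, zm2_Bh X χ⟩
  · unfold zF mF
    rw [zm2_ρ X hs, zm2_ϖ X hs]
  · unfold zτ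
    have h3 := (zm2_sqrt3 X hs).ne'
    have h2 := (zm2_sqrt2 X hs).ne'
    rw [zm2_zt, zm2_zt, zm2_kr3, zm2_kr2]
    unfold zW3 zW2
    rw [zm2_c3, zm2_c2, zm2_zr, zm2_L3, zm2_L2, (z_zero X hs).2.2.2.2.1]
    unfold mD me ma mb
    field_simp
    ring
  · unfold zθ
    rw [zm2_w, Complex.arg_ofReal_of_nonneg zm2_kh.le, add_zero]

theorem zS_zero_pr (X : ℝ × ℝ) {χ : ℝ} (hs : Real.sin χ ≠ 0) : ZG 0 X χ := by
  have hk := zm2_kh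
  have hr := zm2_rh
  obtain ⟨a1, a2, a3, a4, -⟩ := z_zero X hs
  have hm : 0 < ma * mb * kh ^ 2 / 2 := by
    unfold ma mb
    positivity
  have hs2 : 0 < Real.sin χ ^ 2 := by positivity
  constructor
  · norm_num
  · rw [zm2_zr]
    constructor <;> linarith
  · rw [zm2_chart]
    norm_num
  · rw [zm2_zk, sub_self]
    norm_num
  · rw [zm2_k0]
    exact hm
  · refine ⟨by rw [a1]; exact zm2_h30, ?_⟩
    rw [zm2_L3]
    unfold mb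
    have := hk.ne'
    have := hr.ne'
    positivity
  · refine ⟨by rw [a2]; exact zm2_h20, ?_⟩
    rw [zm2_L2]
    unfold ma
    have := hk.ne'
    have := hr.ne'
    rw [neg_ne_zero]
    positivity
  · rw [zm2_D]
    refine mul_ne_zero ?_ (Complex.exp_ne_zero _)
    have := hk.ne'
    have := hr.ne'
    have : rh * kh ^ 2 * Real.sin χ / 2 ≠ 0 := by positivity
    exact_mod_cast this
  · rw [zm2_c3]
    positivity
  · rw [zm2_c2]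
    positivity
  · rw [zm2_Bh, zm2_Bn]
    refine ⟨by norm_num, by linarith, by linarith⟩
  · rw [zm2_w, Complex.ofReal_re]
    exact hk
  · refine ⟨?_, ?_, ?_⟩
    · rw [zm2_chart]
      norm_num
    · rw [zm2_zk, sub_self]
      norm_num
    · rw [zm2_k0]
      exact hm
  · rw [zero_mul, zero_mul, abs_zero, a3, a4]
    constructor <;> linarith [Real.pi_pos]

end

end Pool.Agent.HS

namespace Pool.Agent.HS
open Set Filter Topology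
open scoped ContDiff

theorem z_zero' (X : ℝ × ℝ) {χ : ℝ} (hs : Real.sin χ ≠ 0) :
    zF 0 X χ = mF X χ ∧ zτ 0 X χ = 2 * rh * mD X χ ∧ zθ 0 X χ = χ ∧ zBh 0 X χ = 1 :=
  @Pool.Agent.HS.z_zero'_pr X χ hs

end Pool.Agent.HS

namespace Pool.Agent.HS
open Set Filter Topology
open scoped ContDiff

theorem zS_zero (X : ℝ × ℝ) {χ : ℝ} (hs : Real.sin χ ≠ 0) : ZG 0 X χ :=
  @Pool.Agent.HS.zS_zero_pr X χ hs

end Pool.Agent.HS
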