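import Pool.Agent.Lib_helper60.HSF.D_WL
import Pool.Agent.Lib_helper60.HSF.Z_ZD4
import Pool.Agent.Lib_helper60.HSF.Z_ZC
import Pool.Agent.Lib_helper60.HSF.Z_ZM2

namespace Pool.Agent.HS

noncomputable section

open Set Filter Topology
open scoped ContDiff

theorem lc_mF_diff {χ : ℝ} {q0 : ℝ × Pl} (hs : Real.sin χ ≠ 0) (g : ℝ × Pl → ℝ)
    (hg : DifferentiableAt ℝ g q0) (hg0 : g q0 = χ) :
    DifferentiableAt ℝ (fun q : ℝ × Pl => mF q.2 (g q)) q0 := by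
  have hs' : Real.sin (g q0) ≠ 0 := by rw [hg0]; exact hs
  unfold mF mD zρ zϖ
  fun_prop (disch := assumption)

theorem lc_alg {n ν j mL c s w d v1 v2 M : ℝ} (hs : s ≠ 0) (hν : ν ≠ 0) (hL : mL ≠ 0)
    (he : c - w * s ≠ 0)
    (h : n * (mL * M) + ν * (mL * ((2 * v1 + v2) * c + (c - w * s) * d - v1)) = 0)
    (hM : ν * (mL * M) = j) :
    (v1 + (2 * (-d / s ^ 2 - (2 * v1 + v2)) * c + 2 * (c / s - w) * (-s * d)) =
      (-v1 - 2 * (v1 - c * (2 * v1 + v2)) / ((c - w * s) * s ^ 2) * c) +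
       (-(j / (mL * ν ^ 2)) * n) * (-(2 / ((c - w * s) * s ^ 2)) * c - 2)) ∧
    ((2 * v1 + v2) + 2 * (-d / s ^ 2 - (2 * v1 + v2)) -
      2 * (v1 + (2 * (-d / s ^ 2 - (2 * v1 + v2)) * c + 2 * (c / s - w) * (-s * d))) =
      (-v2 - 2 * (v1 - c * (2 * v1 + v2)) / ((c - w * s) * s ^ 2) * (1 - 2 * c)) +
       (-(j / (mL * ν ^ 2)) * n) * (-(2 / ((c - w * s) * s ^ 2)) * (1 - 2 * c) + 4)) := by
  have hd : d = (-(n * M / ν) + v1 - (2 * v1 + v2) * c) / (c - w * s) := by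
    have : mL * (ν * ((c - w * s) * d) - (-(n * M) + ν * v1 - ν * ((2 * v1 + v2) * c))) = 0 := by
      linear_combination h
    have h2 := (mul_eq_zero.mp this).resolve_left hL
    field_simp
    linear_combination h2
  have hj : j / (mL * ν ^ 2) = M / ν := by
    rw [← hM]; field_simp
  rw [hj, hd]
  generalize he' : c - w * s = e at *
  have hw : w * s = c - e := by linear_combination -he'
  have hw2 : (c / s - w) * s = e := by
    field_simp; linear_combination he'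
  constructor
  · have : ∀ D : ℝ, 2 * (c / s - w) * (-s * D) = -2 * (e * D) := by
      intro D; rw [← hw2]; ring
    rw [this]
    field_simp
    ring
  · have : ∀ D : ℝ, 2 * (c / s - w) * (-s * D) = -2 * (e * D) := by
      intro D; rw [← hw2]; ring
    rw [this]
    field_simp
    ring

theorem model_deriv_pr {j ν χ : ℝ} {X : Pl} (hs : Real.sin χ ≠ 0) (hν : 0 < ν)
    (hY : ν * (mΛ * mY X χ) = j) (he : me X χ ≠ 0) (g : ℝ × Pl → ℝ)
    (hg : DifferentiableAt ℝ g (ν, X)) (hg0 : g (ν, X) = χ)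
    (hΞ : ∀ᶠ q in 𝓝 (ν, X), zΞ j 0 q.1 q.2 (g q) = 0) (n : ℝ) (v : Pl) :
    DifferentiableAt ℝ (fun q : ℝ × Pl => zF 0 q.2 (g q)) (ν, X) ∧
    fderiv ℝ (fun q : ℝ × Pl => zF 0 q.2 (g q)) (ν, X) (n, v) =
      mJ (zϖ X) χ v + (-(j / (mΛ * ν ^ 2)) * n) • mV (zϖ X) χ := by
  have hsin : ∀ᶠ q in 𝓝 (ν, X), Real.sin (g q) ≠ 0 := by
    have hc : ContinuousAt (fun q => Real.sin (g q)) (ν, X) :=
      Real.continuous_sin.continuousAt.comp hg.continuousAt
    have h0 : Real.sin (g (ν, X)) ≠ 0 := by rw [hg0]; exact hs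
    exact hc.eventually_ne h0
  have hF : (fun q : ℝ × Pl => zF 0 q.2 (g q)) =ᶠ[𝓝 (ν, X)] fun q => mF q.2 (g q) := by
    filter_upwards [hsin] with q hq
    exact (z_zero' q.2 hq).1
  have hm := lc_mF_diff hs g hg hg0
  refine ⟨hm.congr_of_eventuallyEq hF, ?_⟩
  rw [hF.fderiv_eq]
  -- the path
  have hγ : HasDerivAt (fun t : ℝ => ((ν + t * n, X.1 + t * v.1, X.2 + t * v.2) : ℝ × Pl))
      ((n, v.1, v.2) : ℝ × Pl) 0 := by
    have h1 : ∀ a b : ℝ, HasDerivAt (fun t : ℝ => a + t * b) b 0 := by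
      intro a b
      simpa using ((hasDerivAt_id (0:ℝ)).mul_const b).const_add a
    exact (h1 ν n).prodMk ((h1 X.1 v.1).prodMk (h1 X.2 v.2))
  have hγ0 : (fun t : ℝ => ((ν + t * n, X.1 + t * v.1, X.2 + t * v.2) : ℝ × Pl)) 0 = (ν, X) := by
    ext <;> simp
  set γ : ℝ → ℝ × Pl := fun t : ℝ => ((ν + t * n, X.1 + t * v.1, X.2 + t * v.2) : ℝ × Pl)
    with hγd
  set d : ℝ := fderiv ℝ g (ν, X) (n, v) with hd
  have hgd : HasDerivAt (fun t => g (γ t)) d 0 := by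
    have h := hg.hasFDerivAt
    rw [← hγ0] at h
    have h2 := h.comp_hasDerivAt (0:ℝ) hγ
    rw [hγ0] at h2
    exact h2
  have hg00 : g (γ 0) = χ := by rw [hγ0, hg0]
  have hL : mΛ ≠ 0 := by
    have := z_bounds.2.2.2.2.2.2.2.2.2.2.1
    exact ne_of_gt (by linarith)
  -- derivative of the equation
  have hcos : HasDerivAt (fun t => Real.cos (g (γ t))) (-Real.sin χ * d) 0 := by
    have := hgd.cos
    rwa [hg00] at this
  have hsn : HasDerivAt (fun t => Real.sin (g (γ t))) (Real.cos χ * d) 0 := by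
    have := hgd.sin
    rwa [hg00] at this
  have hϖ : HasDerivAt (fun t => zϖ (γ t).2) (2 * v.1 + v.2) 0 := by
    have h1 : ∀ a b : ℝ, HasDerivAt (fun t : ℝ => a + t * b) b 0 := by
      intro a b
      simpa using ((hasDerivAt_id (0:ℝ)).mul_const b).const_add a
    have h := ((h1 X.1 v.1).const_mul 2).const_add (1/2)
    exact (h.add (h1 X.2 v.2))
  have hρ : HasDerivAt (fun t => zρ (γ t).2) v.1 0 := by
    have h1 : ∀ a b : ℝ, HasDerivAt (fun t : ℝ => a + t * b) b 0 := by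
      intro a b
      simpa using ((hasDerivAt_id (0:ℝ)).mul_const b).const_add a
    exact (h1 X.1 v.1).const_add (1/2)
  have hϖ0 : zϖ (γ 0).2 = zϖ X := by rw [hγ0]
  have hρ0 : zρ (γ 0).2 = zρ X := by rw [hγ0]
  have hνd : HasDerivAt (fun t => (γ t).1) n 0 := by
    have h : HasDerivAt (fun t : ℝ => ν + t * n) n 0 := by
      simpa using ((hasDerivAt_id (0:ℝ)).mul_const n).const_add ν
    exact h
  have hν0 : (γ 0).1 = ν := by rw [hγ0]
  have hYd : HasDerivAt (fun t => mY (γ t).2 (g (γ t)))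
      ((2 * v.1 + v.2) * Real.cos χ + (Real.cos χ - zϖ X * Real.sin χ) * d - v.1) 0 := by
    have h := ((hϖ.mul hcos).add hsn).sub hρ
    rw [hϖ0, hg00] at h
    refine h.congr_deriv ?_
    ring
  have hY0 : mY (γ 0).2 (g (γ 0)) = mY X χ := by rw [hγ0, hg0]
  have hEd : HasDerivAt (fun t => (γ t).1 * (mΛ * mY (γ t).2 (g (γ t))) - j)
      (n * (mΛ * mY X χ) + ν * (mΛ * ((2 * v.1 + v.2) * Real.cos χ +
        (Real.cos χ - zϖ X * Real.sin χ) * d - v.1))) 0 := by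
    have h := (hνd.mul (hYd.const_mul mΛ)).sub_const j
    rw [hν0, hY0] at h
    exact h
  have hEz : (fun t => (γ t).1 * (mΛ * mY (γ t).2 (g (γ t))) - j) =ᶠ[𝓝 0] fun _ => (0:ℝ) := by
    have hcont : Tendsto γ (𝓝 0) (𝓝 (ν, X)) := by
      have := hγ.continuousAt.tendsto
      rwa [hγ0] at this
    filter_upwards [hcont.eventually hsin, hcont.eventually hΞ] with t h1 h2
    rw [← (zΞ_zero j (γ t).1 (γ t).2 h1).1]
    exact h2
  have hEq : n * (mΛ * mY X χ) + ν * (mΛ * ((2 * v.1 + v.2) * Real.cos χ +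
        (Real.cos χ - zϖ X * Real.sin χ) * d - v.1)) = 0 := by
    have h := hEd.congr_of_eventuallyEq hEz.symm
    exact h.unique (hasDerivAt_const (0:ℝ) (0:ℝ))
  have halg := lc_alg (d := d) (v1 := v.1) (v2 := v.2) (c := Real.cos χ) (w := zϖ X) hs
    (ne_of_gt hν) hL he hEq hY
  -- derivative of mF along the path
  have hDd : HasDerivAt (fun t => mD (γ t).2 (g (γ t)))
      (2 * (-d / Real.sin χ ^ 2 - (2 * v.1 + v.2))) 0 := by
    have hne : Real.sin (g (γ 0)) ≠ 0 := by rw [hg00]; exact hs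
    have h := ((hcos.div hsn hne).sub hϖ).const_mul 2
    rw [hg00] at h
    refine h.congr_deriv ?_
    have h1 := Real.sin_sq_add_cos_sq χ
    field_simp
    linear_combination (-d) * h1
  have hD0 : mD (γ 0).2 (g (γ 0)) = 2 * (Real.cos χ / Real.sin χ - zϖ X) := by
    rw [hγ0, hg0]; rfl
  have hA : HasDerivAt (fun t => zρ (γ t).2 + mD (γ t).2 (g (γ t)) * Real.cos (g (γ t)) - 1/2)
      (v.1 + (2 * (-d / Real.sin χ ^ 2 - (2 * v.1 + v.2)) * Real.cos χ +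
        2 * (Real.cos χ / Real.sin χ - zϖ X) * (-Real.sin χ * d))) 0 := by
    have h := (hρ.add (hDd.mul hcos)).sub_const (1/2)
    rw [hD0, hg00] at h
    exact h
  have hB : HasDerivAt (fun t => zϖ (γ t).2 + mD (γ t).2 (g (γ t)) - 1/2 -
      2 * (zρ (γ t).2 + mD (γ t).2 (g (γ t)) * Real.cos (g (γ t)) - 1/2))
      ((2 * v.1 + v.2) + 2 * (-d / Real.sin χ ^ 2 - (2 * v.1 + v.2)) -
      2 * (v.1 + (2 * (-d / Real.sin χ ^ 2 - (2 * v.1 + v.2)) * Real.cos χ +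
        2 * (Real.cos χ / Real.sin χ - zϖ X) * (-Real.sin χ * d)))) 0 := by
    exact ((hϖ.add hDd).sub_const (1/2)).sub (hA.const_mul 2)
  have hm1 : HasDerivAt (fun t => mF (γ t).2 (g (γ t)))
      (fderiv ℝ (fun q : ℝ × Pl => mF q.2 (g q)) (ν, X) (n, v)) 0 := by
    have h := hm.hasFDerivAt
    rw [← hγ0] at h
    have h2 := h.comp_hasDerivAt (0:ℝ) hγ
    rw [hγ0] at h2
    exact h2
  have hm2 : HasDerivAt (fun t => mF (γ t).2 (g (γ t))) (_, _) 0 := hA.prodMk hB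
  rw [hm1.unique hm2]
  rw [halg.2, halg.1]
  rfl


end

end Pool.Agent.HS

namespace Pool.Agent.HS
open Set Filter Topology
open scoped ContDiff

theorem model_deriv {j ν χ : ℝ} {X : Pl} (hs : Real.sin χ ≠ 0) (hν : 0 < ν)
    (hY : ν * (mΛ * mY X χ) = j) (he : me X χ ≠ 0) (g : ℝ × Pl → ℝ)
    (hg : DifferentiableAt ℝ g (ν, X)) (hg0 : g (ν, X) = χ)
    (hΞ : ∀ᶠ q in 𝓝 (ν, X), zΞ j 0 q.1 q.2 (g q) = 0) (n : ℝ) (v : Pl) :
    DifferentiableAt ℝ (fun q : ℝ × Pl => zF 0 q.2 (g q)) (ν, X) ∧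
    fderiv ℝ (fun q : ℝ × Pl => zF 0 q.2 (g q)) (ν, X) (n, v) =
      mJ (zϖ X) χ v + (-(j / (mΛ * ν ^ 2)) * n) • mV (zϖ X) χ :=
  @Pool.Agent.HS.model_deriv_pr j ν χ X hs hν hY he g hg hg0 hΞ n v

end Pool.Agent.HS
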