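import Pool.Agent.Lib_helper60.HSF.D_WZ
import Pool.Agent.Lib_helper60.HSF.Z_ZA1
import Pool.Agent.Lib_helper60.HSF.Z_ZC

/-!
# Project HS, part Z, block ZA2: energies
-/

namespace Pool.Agent.HS

noncomputable section

open Set Filter Topology
open scoped ContDiff

theorem za2_nsq (z : ℂ) : ‖z‖ ^ 2 = z.re ^ 2 + z.im ^ 2 := by
  rw [← Complex.normSq_eq_norm_sq, Complex.normSq_apply]; ring

theorem za2_w (C : ℝ) (X : ℝ × ℝ) (χ : ℝ) : ‖zw C X χ‖ ^ 2 = zk C X ^ 2 := by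
  unfold zw
  rw [norm_mul, Complex.norm_exp_ofReal_mul_I, mul_one, Complex.norm_real, Real.norm_eq_abs, sq_abs]

theorem za2_U (C : ℝ) (X : ℝ × ℝ) :
    C ^ 2 * ‖zU C X‖ ^ 2 = (chart C X).2 ^ 2 + C ^ 2 / zr C X ^ 2 := by
  have h2 : (chart C X).2 = C * zϖ X / rh := rfl
  rw [za2_nsq, h2]
  have hre : (zU C X).re = zϖ X / rh := by
    unfold zU; simp
  have him : (zU C X).im = 1 / zr C X := by
    unfold zU; simp
  rw [hre, him]
  ring

theorem za2_h3 (C : ℝ) (X : ℝ × ℝ) (χ : ℝ) :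
    ‖(z3 C X χ).2‖ ^ 2 = C ^ 2 * ‖zU C X‖ ^ 2 +
      2 * mb * C * ((starRingEnd ℂ) (zw C X χ) * zU C X).re + mb ^ 2 * ‖zw C X χ‖ ^ 2 := by
  unfold z3
  simp only [za2_nsq, Complex.add_re, Complex.add_im, Complex.mul_im, Complex.mul_re, Complex.conj_re, Complex.conj_im,
    Complex.ofReal_re, Complex.ofReal_im]
  ring

theorem za2_h2 (C : ℝ) (X : ℝ × ℝ) (χ : ℝ) :
    ‖(z2 C X χ).2‖ ^ 2 = C ^ 2 * ‖zU C X‖ ^ 2 -
      2 * ma * C * ((starRingEnd ℂ) (zw C X χ) * zU C X).re + ma ^ 2 * ‖zw C X χ‖ ^ 2 := by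
  unfold z2
  simp only [za2_nsq, Complex.sub_re, Complex.sub_im, Complex.mul_im, Complex.mul_re, Complex.conj_re, Complex.conj_im,
    Complex.ofReal_re, Complex.ofReal_im]
  ring

theorem z_en_pr {C : ℝ} {X : ℝ × ℝ} {χ : ℝ} (h : ZG C X χ) :
    zk C X ^ 2 = 2 / (ma * mb) * (E0 + 1 / zr C X - ((chart C X).2 ^ 2 + C ^ 2 / zr C X ^ 2) / 2) ∧
    ma * kh' (z3 C X χ) + mb * kh' (z2 C X χ) = E0 ∧
    kh' (z3 C X χ) - kh' (z2 C X χ) = d0 + C * zE C X χ := by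
  have hrh : 0 < rh := by
    have := z_bounds.2.2.2.2.1
    linarith
  have hcc : 0 < cc := by
    have := z_bounds.2.2.2.2.2.2.1
    linarith
  have hr : 0 < zr C X := by
    have := h.r.1
    linarith
  have h1 : zk C X ^ 2 =
      2 / (ma * mb) * (E0 + 1 / zr C X - ((chart C X).2 ^ 2 + C ^ 2 / zr C X ^ 2) / 2) := by
    unfold zk kap0
    refine Real.sq_sqrt ?_
    refine mul_nonneg (by unfold ma mb; norm_num) ?_
    exact h.k0.le
  have hn3 : ‖(z3 C X χ).1‖ = zr C X := by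
    have : (z3 C X χ).1 = ((zr C X : ℝ) : ℂ) := rfl
    rw [this, Complex.norm_real, Real.norm_eq_abs, abs_of_pos hr]
  have hn2 : ‖(z2 C X χ).1‖ = zr C X := by
    have : (z2 C X χ).1 = ((zr C X : ℝ) : ℂ) := rfl
    rw [this, Complex.norm_real, Real.norm_eq_abs, abs_of_pos hr]
  have h3 := za2_h3 C X χ
  have h2 := za2_h2 C X χ
  rw [za2_w] at h3 h2
  have hU := za2_U C X
  rw [← hU] at h1
  refine ⟨by rw [h1, hU], ?_, ?_⟩
  · unfold kh'
    rw [hn3, hn2, h3, h2, h1]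
    unfold ma mb
    ring
  · unfold kh'
    rw [hn3, hn2, h3, h2]
    have hk := kh_sq
    have hE := E0_rh
    have hz := zr_eq C X
    have hd : d0 = 8 / 3 * (E0 + 1 / rh) := by
      rw [hE, hk]; unfold ma mb; ring
    have hrr : 1 / zr C X - 1 / rh = C * (-(zρ X) / (cc * rh ^ 2 * zr C X)) := by
      have : zr C X - rh = C * zρ X / (cc * rh) := by rw [hz]; ring
      have e : 1 / zr C X - 1 / rh = -(zr C X - rh) / (zr C X * rh) := by
        field_simp; ring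
      rw [e, this]
      field_simp
    unfold zE
    rw [hd]
    rw [h1]
    unfold ma mb
    linear_combination (8/3 : ℝ) * hrr

end

end Pool.Agent.HS

namespace Pool.Agent.HS
open Set Filter Topology
open scoped ContDiff

theorem z_en {C : ℝ} {X : ℝ × ℝ} {χ : ℝ} (h : ZG C X χ) :
    zk C X ^ 2 = 2 / (ma * mb) * (E0 + 1 / zr C X - ((chart C X).2 ^ 2 + C ^ 2 / zr C X ^ 2) / 2) ∧
    ma * kh' (z3 C X χ) + mb * kh' (z2 C X χ) = E0 ∧
    kh' (z3 C X χ) - kh' (z2 C X χ) = d0 + C * zE C X χ :=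
  @Pool.Agent.HS.z_en_pr C X χ h

end Pool.Agent.HS
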