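import Pool.Agent.Lib_helper60.HSF.D_WZ
import Pool.Agent.Lib_helper60.HSF.K_KA1
import Pool.Agent.Lib_helper60.HSF.Z_ZC
import Pool.Agent.Lib_helper60.HSF.Z_ZA2

/-! # Project HS, part Z: block ZA3, the ratio of the periods -/

namespace Pool.Agent.HS

noncomputable section

open Set Filter Topology
open scoped ContDiff

theorem za3_kPer {y : KS} (h : kh' y < 0) : 0 < kPer y := by
  unfold kPer
  have h1 := kA_pos h
  have h2 := Real.sqrt_pos.2 h1
  have h3 := Real.pi_pos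
  positivity

/-- `T3 / T2 = Q √Q` -/
theorem za3_ratio {y y' : KS} (h : kh' y < 0) (h' : kh' y' < 0) :
    kPer y = kh' y' / kh' y * Real.sqrt (kh' y' / kh' y) * kPer y' := by
  have hA := kA_pos h
  have hA' := kA_pos h'
  have h1 : kA y = kh' y' / kh' y * kA y' := by
    unfold kA
    have e1 : kh' y ≠ 0 := h.ne
    have e2 : kh' y' ≠ 0 := h'.ne
    field_simp
  have hQ : 0 < kh' y' / kh' y := div_pos_of_neg_of_neg h' h
  have h2 : Real.sqrt (kA y) = Real.sqrt (kh' y' / kh' y) * Real.sqrt (kA y') := by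
    rw [h1, Real.sqrt_mul hQ.le]
  unfold kPer
  rw [h2]
  nth_rewrite 1 [h1]
  ring

theorem za3_alg {h2 h3 E C Q S b a m : ℝ} (hb : b ^ 3 = 4) (h3n : h3 ≠ 0) (hQ : Q = h2 / h3)
    (hS : S ^ 2 = Q) (hS0 : 0 ≤ S) (hQ0 : 0 < Q) (he : h2 - b * h3 = -((a + m * b) * (C * E))) :
    Q * S = 2 + C * (-((a + m * b) * E * (Q ^ 2 + b * Q + b ^ 2)) / (h3 * (Q * S + 2))) := by
  have h4 : 0 < Q * S + 2 := by positivity
  have h5 : Q - b = -((a + m * b) * (C * E)) / h3 := by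
    rw [hQ, ← he]
    field_simp
  have h6 : (Q * S - 2) * (Q * S + 2) = (Q - b) * (Q ^ 2 + b * Q + b ^ 2) := by
    have e1 : (Q * S - 2) * (Q * S + 2) = Q ^ 2 * S ^ 2 - 4 := by ring
    rw [e1, hS, ← hb]
    ring
  have h7 : Q * S - 2 = (Q - b) * (Q ^ 2 + b * Q + b ^ 2) / (Q * S + 2) := by
    rw [← h6]
    field_simp
  have h8 : Q * S - 2 =
      C * (-((a + m * b) * E * (Q ^ 2 + b * Q + b ^ 2)) / (h3 * (Q * S + 2))) := by
    rw [h7, h5, div_mul_eq_mul_div, div_div, ← mul_div_assoc]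
    congr 1
    ring
  rw [← h8]
  ring

theorem z_per_pr {C : ℝ} {X : ℝ × ℝ} {χ : ℝ} (h : ZG C X χ) :
    kPer (z3 C X χ) = (2 + C * zy C X χ) * kPer (z2 C X χ) ∧ 0 < kPer (z2 C X χ) ∧
      0 < kPer (z3 C X χ) := by
  refine ⟨?_, za3_kPer h.e2.1, za3_kPer h.e3.1⟩
  obtain ⟨-, h1, h2⟩ := z_en h
  have hQ : 0 < zQ C X χ := div_pos_of_neg_of_neg h.e2.1 h.e3.1
  rw [za3_ratio h.e3.1 h.e2.1]
  congr 1
  have hab : ma + mb = 1 := by unfold ma mb; norm_num
  have h20b := h20_be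
  have e1 : h20 = E0 - ma * d0 := by
    unfold E0 d0
    have : mb = 1 - ma := by linarith
    rw [this]
    ring
  have e2 : h30 = E0 + mb * d0 := by
    unfold E0 d0
    have : ma = 1 - mb := by linarith
    rw [this]
    ring
  have e3 : kh' (z3 C X χ) = h30 + mb * (C * zE C X χ) := by
    have : ma = 1 - mb := by linarith
    rw [this] at h1
    linear_combination h1 + mb * h2 - e2
  have e4 : kh' (z2 C X χ) = h20 - ma * (C * zE C X χ) := by
    have : mb = 1 - ma := by linarith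
    rw [this] at h1
    linear_combination h1 - ma * h2 - e1
  have he : kh' (z2 C X χ) - be * kh' (z3 C X χ) = -((ma + mb * be) * (C * zE C X χ)) := by
    rw [e3, e4, h20b]
    ring
  exact za3_alg be_cube h.e3.1.ne rfl (Real.sq_sqrt hQ.le) (Real.sqrt_nonneg _) hQ he

end

end Pool.Agent.HS

namespace Pool.Agent.HS
open Set Filter Topology
open scoped ContDiff

theorem z_per {C : ℝ} {X : ℝ × ℝ} {χ : ℝ} (h : ZG C X χ) :
    kPer (z3 C X χ) = (2 + C * zy C X χ) * kPer (z2 C X χ) ∧ 0 < kPer (z2 C X χ) ∧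
      0 < kPer (z3 C X χ) :=
  @Pool.Agent.HS.z_per_pr C X χ h

end Pool.Agent.HS
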