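import Pool.Agent.Lib_helper60.HSF.D_WZ
import Pool.Agent.Lib_helper60.HSF.Z_ZC
import Pool.Agent.Lib_helper60.HSF.Z_ZA1
import Pool.Agent.Lib_helper60.HSF.K_KG2
import Pool.Agent.Lib_helper60.HSF.Z_ZA3

/-!
# Project HS, part Z, block ZA4: the second intersection
-/

namespace Pool.Agent.HS

noncomputable section

open Set Filter Topology
open scoped ContDiff

theorem za4_rpos {C : ℝ} {X : ℝ × ℝ} {χ : ℝ} (h : ZG C X χ) : 0 < zr C X := by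
  have := h.r.1
  have := z_bounds.2.2.2.2.1
  linarith

theorem za4_norm {C : ℝ} {X : ℝ × ℝ} {χ : ℝ} (h : ZG C X χ) :
    ‖((zr C X : ℝ) : ℂ)‖ = zr C X := by
  rw [Complex.norm_real, Real.norm_eq_abs, abs_of_pos (za4_rpos h)]

theorem za4_clam {C : ℝ} {X : ℝ × ℝ} {χ : ℝ} (h : ZG C X χ) :
    clam (zr C X) (z3 C X χ).2 (z2 C X χ).2 = C * zlam C X χ := by
  have hw := (z_L (C := C) (X := X) (za4_rpos h).ne' χ).2.2.1
  unfold clam zlam zden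
  rw [hw, za4_norm h]
  have e3 : ((zr C X : ℂ), (z3 C X χ).2) = z3 C X χ := rfl
  have e2 : ((zr C X : ℂ), (z2 C X χ).2) = z2 C X χ := rfl
  rw [e3, e2]
  ring

theorem za4_cs3 {C : ℝ} {X : ℝ × ℝ} {χ : ℝ} (h : ZG C X χ) :
    csW (zr C X) (z3 C X χ).2 (z2 C X χ).2 = C * zW3 C X χ ∧
    (kL ((zr C X : ℂ), (z3 C X χ).2) ^ 2 - kL ((zr C X : ℂ), (z2 C X χ).2) ^ 2) +
      kσ ((zr C X : ℂ), (z3 C X χ).2) * ‖((zr C X : ℝ) : ℂ)‖ * kL ((zr C X : ℂ), (z2 C X χ).2) *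
        cW' (z3 C X χ).2 (z2 C X χ).2 = zc3 C X χ := by
  have hw := (z_L (C := C) (X := X) (za4_rpos h).ne' χ).2.2.1
  have e3 : ((zr C X : ℂ), (z3 C X χ).2) = z3 C X χ := rfl
  have e2 : ((zr C X : ℂ), (z2 C X χ).2) = z2 C X χ := rfl
  have hc : (kL ((zr C X : ℂ), (z3 C X χ).2) ^ 2 - kL ((zr C X : ℂ), (z2 C X χ).2) ^ 2) +
      kσ ((zr C X : ℂ), (z3 C X χ).2) * ‖((zr C X : ℝ) : ℂ)‖ * kL ((zr C X : ℂ), (z2 C X χ).2) *
        cW' (z3 C X χ).2 (z2 C X χ).2 = zc3 C X χ := by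
    rw [e3, e2, hw, za4_norm h]; rfl
  refine ⟨?_, hc⟩
  unfold csW zW3
  rw [hc, hw, za4_norm h, e3, e2]
  ring

theorem za4_cs2 {C : ℝ} {X : ℝ × ℝ} {χ : ℝ} (h : ZG C X χ) :
    csW' (zr C X) (z3 C X χ).2 (z2 C X χ).2 = C * zW2 C X χ ∧
    (kL ((zr C X : ℂ), (z3 C X χ).2) ^ 2 - kL ((zr C X : ℂ), (z2 C X χ).2) ^ 2) +
      kσ ((zr C X : ℂ), (z2 C X χ).2) * ‖((zr C X : ℝ) : ℂ)‖ * kL ((zr C X : ℂ), (z3 C X χ).2) *
        cW' (z3 C X χ).2 (z2 C X χ).2 = zc2 C X χ := by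
  have hw := (z_L (C := C) (X := X) (za4_rpos h).ne' χ).2.2.1
  have e3 : ((zr C X : ℂ), (z3 C X χ).2) = z3 C X χ := rfl
  have e2 : ((zr C X : ℂ), (z2 C X χ).2) = z2 C X χ := rfl
  have hc : (kL ((zr C X : ℂ), (z3 C X χ).2) ^ 2 - kL ((zr C X : ℂ), (z2 C X χ).2) ^ 2) +
      kσ ((zr C X : ℂ), (z2 C X χ).2) * ‖((zr C X : ℝ) : ℂ)‖ * kL ((zr C X : ℂ), (z3 C X χ).2) *
        cW' (z3 C X χ).2 (z2 C X χ).2 = zc2 C X χ := by
    rw [e3, e2, hw, za4_norm h]; rfl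
  refine ⟨?_, hc⟩
  unfold csW' zW2
  rw [hc, hw, za4_norm h, e3, e2]
  ring

theorem z_B_pr {C : ℝ} {X : ℝ × ℝ} {χ : ℝ} (h : ZG C X χ) :
    zB C X χ = cB (zr C X) (z3 C X χ).2 (z2 C X χ).2 ∧
    kX (z3 C X χ) (zs3 C X χ) = zB C X χ ∧ kX (z2 C X χ) (zs2 C X χ) = zB C X χ := by
  have hB : zB C X χ = cB (zr C X) (z3 C X χ).2 (z2 C X χ).2 := by
    unfold zB cB
    rw [za4_clam h]
    rfl
  have h3 : Ell ((zr C X : ℂ), (z3 C X χ).2) := h.e3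
  have h2 : Ell ((zr C X : ℂ), (z2 C X χ).2) := h.e2
  have hD : cD (zr C X) (z3 C X χ).2 (z2 C X χ).2 ≠ 0 := h.D
  refine ⟨hB, ?_, ?_⟩
  · rw [hB]
    have hc := za4_cs3 h
    have := kX_csW h3 h2 hD (by rw [hc.2]; exact h.c3.ne')
    rw [hc.1] at this
    exact this
  · rw [hB]
    have hc := za4_cs2 h
    have := kX_csW' h3 h2 hD (by rw [hc.2]; exact h.c2.ne')
    rw [hc.1] at this
    exact this

theorem mul_atn_pr (c w : ℝ) : c * atn c w = Real.arctan (c * w) := by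
  have := sub_smul_dslope Real.arctan 0 (c * w)
  simp only [sub_zero, Real.arctan_zero, smul_eq_mul] at this
  unfold atn
  rw [← this]; ring

theorem za4_sc (x : ℝ) : Real.sin (2 * Real.arctan x) = 2 * x / (1 + x ^ 2) ∧
    1 - Real.cos (2 * Real.arctan x) = 2 * x ^ 2 / (1 + x ^ 2) := by
  have hx : (0:ℝ) < 1 + x ^ 2 := by positivity
  have hs : Real.sqrt (1 + x ^ 2) ^ 2 = 1 + x ^ 2 := Real.sq_sqrt hx.le
  constructor
  · rw [Real.sin_two_mul, Real.sin_arctan, Real.cos_arctan]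
    have : Real.sqrt (1 + x ^ 2) ≠ 0 := (Real.sqrt_pos.2 hx).ne'
    rw [← hs]
    field_simp
    rw [Real.sqrt_sq (Real.sqrt_nonneg _)]
  · rw [Real.cos_two_mul, Real.cos_sq_arctan]
    field_simp
    ring

theorem za4_kT (C : ℝ) (y : KS) (W : ℝ) : kT y (2 * Real.arctan (C * W)) = C * zt C y W := by
  obtain ⟨h1, h2⟩ := za4_sc (C * W)
  have h3 := mul_atn_pr C W
  unfold kT zt
  rw [h1, h2, ← h3]
  ring

theorem z_kT_pr {C : ℝ} {X : ℝ × ℝ} {χ : ℝ} (_h : ZG C X χ) :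
    kT (z3 C X χ) (zs3 C X χ) = C * zt C (z3 C X χ) (zW3 C X χ) ∧
    kT (z2 C X χ) (zs2 C X χ) = C * zt C (z2 C X χ) (zW2 C X χ) :=
  ⟨za4_kT C _ _, za4_kT C _ _⟩

theorem z_time_pr {C : ℝ} {X : ℝ × ℝ} {χ : ℝ} (h : ZG C X χ) (K j : ℝ) :
    K * kPer (z3 C X χ) + kT (z3 C X χ) (zs3 C X χ) -
      ((2 * K + j) * kPer (z2 C X χ) + kT (z2 C X χ) (zs2 C X χ)) =
        kPer (z2 C X χ) * zΞ j C (K * C) X χ ∧
    K * kPer (z3 C X χ) - (2 * K + j) * kPer (z2 C X χ) =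
        kPer (z2 C X χ) * zΘ j C (K * C) X χ := by
  obtain ⟨hp, hp2, -⟩ := z_per h
  obtain ⟨h1, h2⟩ := z_kT_pr h
  constructor
  · rw [h1, h2, hp]
    unfold zΞ zτ
    have := hp2.ne'
    field_simp
    ring
  · rw [hp]
    unfold zΘ
    ring

end

end Pool.Agent.HS

namespace Pool.Agent.HS
open Set Filter Topology
open scoped ContDiff

theorem z_B {C : ℝ} {X : ℝ × ℝ} {χ : ℝ} (h : ZG C X χ) :
    zB C X χ = cB (zr C X) (z3 C X χ).2 (z2 C X χ).2 ∧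
    kX (z3 C X χ) (zs3 C X χ) = zB C X χ ∧ kX (z2 C X χ) (zs2 C X χ) = zB C X χ :=
  @Pool.Agent.HS.z_B_pr C X χ h

end Pool.Agent.HS

namespace Pool.Agent.HS
open Set Filter Topology
open scoped ContDiff

theorem mul_atn (c w : ℝ) : c * atn c w = Real.arctan (c * w) :=
  @Pool.Agent.HS.mul_atn_pr c w

end Pool.Agent.HS

namespace Pool.Agent.HS
open Set Filter Topology
open scoped ContDiff

theorem z_kT {C : ℝ} {X : ℝ × ℝ} {χ : ℝ} (h : ZG C X χ) :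
    kT (z3 C X χ) (zs3 C X χ) = C * zt C (z3 C X χ) (zW3 C X χ) ∧
    kT (z2 C X χ) (zs2 C X χ) = C * zt C (z2 C X χ) (zW2 C X χ) :=
  @Pool.Agent.HS.z_kT_pr C X χ h

end Pool.Agent.HS

namespace Pool.Agent.HS
open Set Filter Topology
open scoped ContDiff

theorem z_time {C : ℝ} {X : ℝ × ℝ} {χ : ℝ} (h : ZG C X χ) (K j : ℝ) :
    K * kPer (z3 C X χ) + kT (z3 C X χ) (zs3 C X χ) -
      ((2 * K + j) * kPer (z2 C X χ) + kT (z2 C X χ) (zs2 C X χ)) =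
        kPer (z2 C X χ) * zΞ j C (K * C) X χ ∧
    K * kPer (z3 C X χ) - (2 * K + j) * kPer (z2 C X χ) =
        kPer (z2 C X χ) * zΘ j C (K * C) X χ :=
  @Pool.Agent.HS.z_time_pr C X χ h K j

end Pool.Agent.HS
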