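import Pool.Agent.Lib_helper60.HSF.D_WZ
import Pool.Agent.Lib_helper60.HSF.K_KA1
import Pool.Agent.Lib_helper60.HSF.Z_ZA1
import Pool.Agent.Lib_helper60.HSF.K_KF1
import Pool.Agent.Lib_helper60.HSF.K_KA2
import Pool.Agent.Lib_helper60.HSF.Z_ZA4
import Pool.Agent.Lib_helper60.HSF.Z_ZC
import Pool.Agent.Lib_helper60.HSF.Z_ZA2

/-!
# Project HS, part Z, block ZA5: data at the second intersection
-/

namespace Pool.Agent.HS

noncomputable section

open Set Filter Topology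
open scoped ContDiff

theorem za5_rhpos : 0 < rh := by
  have := z_bounds.2.2.2.2.1
  linarith

theorem za5_rpos {C : ℝ} {X : ℝ × ℝ} {χ : ℝ} (h : ZG C X χ) : 0 < zr C X := by
  have := h.r.1
  have := za5_rhpos
  linarith

theorem za5_Bpos {C : ℝ} {X : ℝ × ℝ} {χ : ℝ} (h : ZG C X χ) : 0 < ‖zB C X χ‖ := by
  have := h.B.2.1
  have := za5_rhpos
  linarith

theorem za5_ab : (ma : ℂ) + (mb : ℂ) = 1 := by
  unfold ma mb; push_cast; norm_num

theorem za5_abR : ma + mb = 1 := by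
  unfold ma mb; norm_num

theorem za5_Bh1 {C : ℝ} {X : ℝ × ℝ} {χ : ℝ} (h : ZG C X χ) : ‖zBh C X χ‖ = 1 := by
  unfold zBh
  rw [norm_div, Complex.norm_real, norm_norm, div_self (za5_Bpos h).ne']

theorem za5_BBh {C : ℝ} {X : ℝ × ℝ} {χ : ℝ} (h : ZG C X χ) :
    zB C X χ = zBh C X χ * (‖zB C X χ‖ : ℂ) := by
  have : ((‖zB C X χ‖ : ℝ) : ℂ) ≠ 0 := by exact_mod_cast (za5_Bpos h).ne'
  unfold zBh
  field_simp

/-- `|B|^2` -/
theorem za5_Bsq {C : ℝ} {X : ℝ × ℝ} {χ : ℝ} :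
    ‖zB C X χ‖ ^ 2 = zr C X ^ 2 + C * (2 * zr C X * zlam C X χ * (zD C X χ).re +
      C * zlam C X χ ^ 2 * ‖zD C X χ‖ ^ 2) := by
  have h1 : ‖zB C X χ‖ ^ 2 = (zB C X χ).re ^ 2 + (zB C X χ).im ^ 2 := by
    rw [← Complex.normSq_eq_norm_sq, Complex.normSq_apply]; ring
  have h2 : ‖zD C X χ‖ ^ 2 = (zD C X χ).re ^ 2 + (zD C X χ).im ^ 2 := by
    rw [← Complex.normSq_eq_norm_sq, Complex.normSq_apply]; ring
  have h3 : (zB C X χ).re = zr C X + C * zlam C X χ * (zD C X χ).re := by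
    unfold zB
    simp [Complex.add_re, Complex.mul_re]
  have h4 : (zB C X χ).im = C * zlam C X χ * (zD C X χ).im := by
    unfold zB
    simp [Complex.add_im, Complex.mul_im]
  rw [h1, h2, h3, h4]; ring

theorem za5_ccpos : 0 < cc := by
  have := z_bounds.2.2.2.2.2.2.1
  linarith

theorem za5_ρF (C : ℝ) (X : ℝ × ℝ) (χ : ℝ) : zρ (zF C X χ) = zρ' C X χ := by
  unfold zρ zF; ring

theorem za5_ϖF (C : ℝ) (X : ℝ × ℝ) (χ : ℝ) : zϖ (zF C X χ) = zϖ' C X χ := by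
  unfold zϖ zF; ring

theorem za5_rF {C : ℝ} {X : ℝ × ℝ} {χ : ℝ} (h : ZG C X χ) : zr C (zF C X χ) = ‖zB C X χ‖ := by
  have hr := za5_rpos h
  have hB := za5_Bpos h
  have h1 := zr_eq C X
  rw [zr_eq, za5_ρF]
  have hc := za5_ccpos
  have hrh := za5_rhpos
  have e : C * zρ' C X χ / (cc * rh) = C * zρ X / (cc * rh) +
      C * (2 * zr C X * zlam C X χ * (zD C X χ).re + C * zlam C X χ ^ 2 * ‖zD C X χ‖ ^ 2) /
        (‖zB C X χ‖ + zr C X) := by
    unfold zρ'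
    have : ‖zB C X χ‖ + zr C X ≠ 0 := by positivity
    field_simp
  rw [e, ← add_assoc, ← h1]
  have e2 : C * (2 * zr C X * zlam C X χ * (zD C X χ).re + C * zlam C X χ ^ 2 * ‖zD C X χ‖ ^ 2) =
      (‖zB C X χ‖ - zr C X) * (‖zB C X χ‖ + zr C X) := by
    have := za5_Bsq (C := C) (X := X) (χ := χ)
    linear_combination -this
  rw [e2, mul_div_assoc, div_self (by positivity)]
  ring

/-- the chart at the end -/
theorem za5_ch (C : ℝ) (X : ℝ × ℝ) (χ : ℝ) :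
    (chart C (zF C X χ)).2 = C * zϖ' C X χ / rh := by
  rw [← za5_ϖF]
  rfl

/-- the velocities at the end, for one body -/
theorem za5_V1 {y : KS} {s : ℝ} {B Bh : ℂ} (h : Ell y) {r : ℝ} (hr : 0 < r) (hy : y.1 = (r : ℂ))
    (hB : kX y s = B) (hBh : Bh = B / (‖B‖ : ℂ)) :
    kV y s = y.2 + Complex.I / (kL y : ℂ) * (Bh - 1) := by
  have h1 := kV_eq h s
  have h2 := kV_eq h 0
  have h0 := kY_zero h
  have h3 : kX y 0 = y.1 := congrArg Prod.fst h0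
  have h4 : kV y 0 = y.2 := congrArg Prod.snd h0
  rw [hB, ← hBh] at h1
  rw [h3, h4, hy, Complex.norm_real, Real.norm_eq_abs, abs_of_pos hr,
    div_self (by exact_mod_cast hr.ne')] at h2
  rw [h1, h2]; ring

theorem za5_V3 {C : ℝ} {X : ℝ × ℝ} {χ : ℝ} (h : ZG C X χ) :
    kV (z3 C X χ) (zs3 C X χ) =
      (z3 C X χ).2 + Complex.I / (kL (z3 C X χ) : ℂ) * (zBh C X χ - 1) :=
  za5_V1 h.e3 (za5_rpos h) rfl (z_B h).2.1 rfl

theorem za5_V2 {C : ℝ} {X : ℝ × ℝ} {χ : ℝ} (h : ZG C X χ) :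
    kV (z2 C X χ) (zs2 C X χ) =
      (z2 C X χ).2 + Complex.I / (kL (z2 C X χ) : ℂ) * (zBh C X χ - 1) :=
  za5_V1 h.e2 (za5_rpos h) rfl (z_B h).2.2 rfl

theorem za5_W {C : ℝ} {X : ℝ × ℝ} {χ : ℝ} (h : ZG C X χ) :
    kV (z3 C X χ) (zs3 C X χ) - kV (z2 C X χ) (zs2 C X χ) = zw' C X χ := by
  rw [za5_V3 h, za5_V2 h]
  have e : (z3 C X χ).2 - (z2 C X χ).2 = zw C X χ := by
    have : (z3 C X χ).2 - (z2 C X χ).2 = ((ma : ℂ) + (mb : ℂ)) * zw C X χ := by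
      unfold z3 z2; ring
    rw [this, za5_ab, one_mul]
  unfold zw'
  push_cast
  rw [← e]; ring

theorem za5_UU {C : ℝ} {X : ℝ × ℝ} {χ : ℝ} (h : ZG C X χ) :
    (ma : ℂ) * kV (z3 C X χ) (zs3 C X χ) + (mb : ℂ) * kV (z2 C X χ) (zs2 C X χ) =
      (C : ℂ) * zU C X + ((ma / kL (z3 C X χ) + mb / kL (z2 C X χ) : ℝ) : ℂ) *
        (Complex.I * (zBh C X χ - 1)) := by
  rw [za5_V3 h, za5_V2 h]
  have e : (ma : ℂ) * (z3 C X χ).2 + (mb : ℂ) * (z2 C X χ).2 = (C : ℂ) * zU C X := by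
    have : (ma : ℂ) * (z3 C X χ).2 + (mb : ℂ) * (z2 C X χ).2 =
        ((ma : ℂ) + (mb : ℂ)) * ((C : ℂ) * zU C X) := by
      unfold z3 z2; ring
    rw [this, za5_ab, one_mul]
  rw [← e]
  push_cast
  ring

theorem za5_p {C : ℝ} {X : ℝ × ℝ} {χ : ℝ} (h : ZG C X χ) :
    (chart C (zF C X χ)).2 = ((starRingEnd ℂ) (zBh C X χ) *
      ((ma : ℂ) * kV (z3 C X χ) (zs3 C X χ) + (mb : ℂ) * kV (z2 C X χ) (zs2 C X χ))).re := by
  rw [za5_UU h, za5_ch]
  have hBh := za5_Bh1 h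
  have hn : (zBh C X χ).re ^ 2 + (zBh C X χ).im ^ 2 = 1 := by
    have : ‖zBh C X χ‖ ^ 2 = (zBh C X χ).re ^ 2 + (zBh C X χ).im ^ 2 := by
      rw [← Complex.normSq_eq_norm_sq, Complex.normSq_apply]; ring
    rw [← this, hBh]; norm_num
  have him : (zBh C X χ).im = C * zlam C X χ * (zD C X χ).im / ‖zB C X χ‖ := by
    unfold zBh
    rw [Complex.div_ofReal_im]
    congr 1
    unfold zB
    simp [Complex.add_im, Complex.mul_im]
  unfold zϖ'
  have hrh := za5_rhpos.ne'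
  set q := ma / kL (z3 C X χ) + mb / kL (z2 C X χ)
  have e1 : ((starRingEnd ℂ) (zBh C X χ) * ((C : ℂ) * zU C X + (q : ℂ) *
      (Complex.I * (zBh C X χ - 1)))).re =
      C * ((starRingEnd ℂ) (zBh C X χ) * zU C X).re - q * (zBh C X χ).im := by
    simp only [Complex.mul_re, Complex.mul_im, Complex.add_re, Complex.add_im, Complex.ofReal_re,
      Complex.ofReal_im, Complex.conj_re, Complex.conj_im, Complex.I_re, Complex.I_im,
      Complex.sub_re, Complex.sub_im, Complex.one_re, Complex.one_im]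
    ring
  rw [e1, him]
  field_simp

theorem z_end_pr {C : ℝ} {X : ℝ × ℝ} {χ : ℝ} (h : ZG C X χ) (_hC : C ≠ 0) :
    ‖zBh C X χ‖ = 1 ∧ zr C (zF C X χ) = ‖zB C X χ‖ ∧
    (chart C (zF C X χ)).2 = ((starRingEnd ℂ) (zBh C X χ) *
      ((ma : ℂ) * kV (z3 C X χ) (zs3 C X χ) + (mb : ℂ) * kV (z2 C X χ) (zs2 C X χ))).re ∧
    kV (z3 C X χ) (zs3 C X χ) - kV (z2 C X χ) (zs2 C X χ) = zw' C X χ :=
  ⟨za5_Bh1 h, za5_rF h, za5_p h, za5_W h⟩

/-- the imaginary part of the centre velocity at the end -/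
theorem za5_im {C : ℝ} {X : ℝ × ℝ} {χ : ℝ} (h : ZG C X χ) :
    ((starRingEnd ℂ) (zBh C X χ) *
      ((ma : ℂ) * kV (z3 C X χ) (zs3 C X χ) + (mb : ℂ) * kV (z2 C X χ) (zs2 C X χ))).im =
      C / ‖zB C X χ‖ := by
  have hB := za5_Bpos h
  obtain ⟨-, hB3, hB2⟩ := z_B h
  have l3 : ((starRingEnd ℂ) (zB C X χ) * kV (z3 C X χ) (zs3 C X χ)).im = kL (z3 C X χ) := by
    have := kY_L h.e3 (zs3 C X χ)
    rw [← this, ← hB3]; rfl
  have l2 : ((starRingEnd ℂ) (zB C X χ) * kV (z2 C X χ) (zs2 C X χ)).im = kL (z2 C X χ) := by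
    have := kY_L h.e2 (zs2 C X χ)
    rw [← this, ← hB2]; rfl
  obtain ⟨L3, L2, -, -⟩ := z_L (C := C) (X := X) (za5_rpos h).ne' χ
  have hs : ma * kL (z3 C X χ) + mb * kL (z2 C X χ) = C := by
    rw [L3, L2]
    have := za5_abR
    linear_combination C * this
  have e : ((starRingEnd ℂ) (zB C X χ) *
      ((ma : ℂ) * kV (z3 C X χ) (zs3 C X χ) + (mb : ℂ) * kV (z2 C X χ) (zs2 C X χ))).im = C := by
    have : (starRingEnd ℂ) (zB C X χ) *
      ((ma : ℂ) * kV (z3 C X χ) (zs3 C X χ) + (mb : ℂ) * kV (z2 C X χ) (zs2 C X χ)) =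
      (ma : ℂ) * ((starRingEnd ℂ) (zB C X χ) * kV (z3 C X χ) (zs3 C X χ)) +
      (mb : ℂ) * ((starRingEnd ℂ) (zB C X χ) * kV (z2 C X χ) (zs2 C X χ)) := by ring
    rw [this, Complex.add_im, Complex.im_ofReal_mul, Complex.im_ofReal_mul, l3, l2, hs]
  rw [za5_BBh h, map_mul, Complex.conj_ofReal] at e
  have e' : (‖zB C X χ‖ : ℝ) * ((starRingEnd ℂ) (zBh C X χ) *
      ((ma : ℂ) * kV (z3 C X χ) (zs3 C X χ) + (mb : ℂ) * kV (z2 C X χ) (zs2 C X χ))).im = C := by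
    rw [← Complex.im_ofReal_mul]
    refine Eq.trans ?_ e
    congr 1
    ring
  field_simp
  linarith [e']

/-- conservation of the relative speed -/
theorem za5_kap {C : ℝ} {X : ℝ × ℝ} {χ : ℝ} (h : ZG C X χ) :
    kap0 C (chart C (zF C X χ)) = ‖zw' C X χ‖ := by
  have hB := za5_Bpos h
  obtain ⟨-, hB3, hB2⟩ := z_B h
  have hE := (z_en h).2.1
  have h3 : kh' (z3 C X χ) = ‖kV (z3 C X χ) (zs3 C X χ)‖ ^ 2 / 2 - 1 / ‖zB C X χ‖ := by
    rw [← kY_h h.e3 (zs3 C X χ)]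
    unfold kh' kY
    simp only
    rw [hB3]
  have h2 : kh' (z2 C X χ) = ‖kV (z2 C X χ) (zs2 C X χ)‖ ^ 2 / 2 - 1 / ‖zB C X χ‖ := by
    rw [← kY_h h.e2 (zs2 C X χ)]
    unfold kh' kY
    simp only
    rw [hB2]
  have hp := za5_p h
  have hi := za5_im h
  have hw := za5_W h
  have hBh := za5_Bh1 h
  set V3 := kV (z3 C X χ) (zs3 C X χ)
  set V2 := kV (z2 C X χ) (zs2 C X χ)
  have nsq : ∀ z : ℂ, ‖z‖ ^ 2 = z.re ^ 2 + z.im ^ 2 := by
    intro z
    rw [← Complex.normSq_eq_norm_sq, Complex.normSq_apply]; ring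
  have hU : ‖(ma : ℂ) * V3 + (mb : ℂ) * V2‖ ^ 2 =
      (chart C (zF C X χ)).2 ^ 2 + C ^ 2 / ‖zB C X χ‖ ^ 2 := by
    have e : ‖(starRingEnd ℂ) (zBh C X χ) * ((ma : ℂ) * V3 + (mb : ℂ) * V2)‖ ^ 2 =
        ‖(ma : ℂ) * V3 + (mb : ℂ) * V2‖ ^ 2 := by
      rw [norm_mul, RCLike.norm_conj, hBh, one_mul]
    rw [← e, nsq, ← hp, hi, div_pow]
  have hid : ma * ‖V3‖ ^ 2 + mb * ‖V2‖ ^ 2 =
      ‖(ma : ℂ) * V3 + (mb : ℂ) * V2‖ ^ 2 + ma * mb * ‖V3 - V2‖ ^ 2 := by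
    rw [nsq, nsq, nsq, nsq]
    simp only [Complex.add_re, Complex.add_im, Complex.sub_re, Complex.sub_im,
      Complex.re_ofReal_mul, Complex.im_ofReal_mul]
    unfold ma mb
    ring
  have key : 2 / (ma * mb) * (E0 + 1 / (chart C (zF C X χ)).1 -
      ((chart C (zF C X χ)).2 ^ 2 + C ^ 2 / (chart C (zF C X χ)).1 ^ 2) / 2) = ‖zw' C X χ‖ ^ 2 := by
    have hr : (chart C (zF C X χ)).1 = ‖zB C X χ‖ := za5_rF h
    rw [hr, ← hU, ← hw]
    rw [h3, h2] at hE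
    have h4 : E0 + 1 / ‖zB C X χ‖ = (ma * ‖V3‖ ^ 2 + mb * ‖V2‖ ^ 2) / 2 := by
      have := za5_abR
      linear_combination -hE - (1 / ‖zB C X χ‖) * this
    rw [h4, hid]
    have ha : ma ≠ 0 := by unfold ma; norm_num
    have hb : mb ≠ 0 := by unfold mb; norm_num
    field_simp
    ring
  unfold kap0
  rw [key, Real.sqrt_sq (norm_nonneg _)]

theorem z_fin_pr {C : ℝ} {X : ℝ × ℝ} {χ : ℝ} (h : ZG C X χ) (_hC : 0 < C) :
    ((zB C X χ, zB C X χ, kV (z3 C X χ) (zs3 C X χ), kV (z2 C X χ) (zs2 C X χ)) : St) =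
      rot (zBh C X χ) (colD (limD C (zF C X χ) (zθ C X χ))) := by
  have hB := za5_Bpos h
  have hr : (chart C (zF C X χ)).1 = ‖zB C X χ‖ := za5_rF h
  have hp := za5_p h
  have hi := za5_im h
  have hw := za5_W h
  have hBh := za5_Bh1 h
  have hk := za5_kap h
  have hBB := za5_BBh h
  have hone : zBh C X χ * (starRingEnd ℂ) (zBh C X χ) = 1 := by
    rw [Complex.mul_conj, Complex.normSq_eq_norm_sq, hBh]; norm_num
  set V3 := kV (z3 C X χ) (zs3 C X χ)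
  set V2 := kV (z2 C X χ) (zs2 C X χ)
  -- the centre velocity
  have hU : (ma : ℂ) * V3 + (mb : ℂ) * V2 =
      zBh C X χ * Uenc C 0 (chart C (zF C X χ)).1 (chart C (zF C X χ)).2 0 := by
    have e1 : (starRingEnd ℂ) (zBh C X χ) * ((ma : ℂ) * V3 + (mb : ℂ) * V2) =
        Uenc C 0 (chart C (zF C X χ)).1 (chart C (zF C X χ)).2 0 := by
      apply Complex.ext
      · rw [← hp]
        simp [Uenc]
      · rw [hi, hr]
        simp [Uenc]
    rw [← e1, ← mul_assoc, hone, one_mul]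
  -- the relative velocity
  have hW : V3 - V2 = zBh C X χ * ((kap0 C (chart C (zF C X χ)) : ℂ) *
      Complex.exp ((zθ C X χ : ℂ) * Complex.I)) := by
    rw [hw, hk]
    have hq := h.w
    set q := (starRingEnd ℂ) (zBh C X χ) * zw' C X χ * Complex.exp (-(χ : ℂ) * Complex.I) with hqd
    have hq0 : q ≠ 0 := by
      intro h0; rw [h0] at hq; simp at hq
    have hqn : ‖q‖ = ‖zw' C X χ‖ := by
      rw [hqd, norm_mul, norm_mul, RCLike.norm_conj, hBh]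
      have : ‖Complex.exp (-(χ : ℂ) * Complex.I)‖ = 1 := by
        have := Complex.norm_exp_ofReal_mul_I (-χ)
        rw [← this]; push_cast; rfl
      rw [this]; ring
    have harg : (‖q‖ : ℂ) * Complex.exp ((Complex.arg q : ℂ) * Complex.I) = q :=
      Complex.norm_mul_exp_arg_mul_I q
    have hθ : Complex.exp ((zθ C X χ : ℂ) * Complex.I) =
        Complex.exp ((χ : ℂ) * Complex.I) * Complex.exp ((Complex.arg q : ℂ) * Complex.I) := by
      rw [← Complex.exp_add]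
      congr 1
      unfold zθ
      rw [← hqd]
      push_cast; ring
    rw [hθ, ← hqn]
    have e2 : zBh C X χ * ((‖q‖ : ℂ) * (Complex.exp ((χ : ℂ) * Complex.I) *
        Complex.exp ((Complex.arg q : ℂ) * Complex.I))) =
        zBh C X χ * Complex.exp ((χ : ℂ) * Complex.I) *
          ((‖q‖ : ℂ) * Complex.exp ((Complex.arg q : ℂ) * Complex.I)) := by ring
    rw [e2, harg, hqd]
    have e3 : Complex.exp ((χ : ℂ) * Complex.I) * Complex.exp (-(χ : ℂ) * Complex.I) = 1 := by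
      rw [← Complex.exp_add]; simp
    calc zw' C X χ = (zBh C X χ * (starRingEnd ℂ) (zBh C X χ)) * zw' C X χ *
          (Complex.exp ((χ : ℂ) * Complex.I) * Complex.exp (-(χ : ℂ) * Complex.I)) := by
          rw [hone, e3]; ring
      _ = _ := by ring
  have hab := za5_ab
  have h3 : V3 = zBh C X χ * (Uenc C 0 (chart C (zF C X χ)).1 (chart C (zF C X χ)).2 0 +
      (mb : ℂ) * ((kap0 C (chart C (zF C X χ)) : ℂ) *
      Complex.exp ((zθ C X χ : ℂ) * Complex.I))) := by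
    have : V3 = ((ma : ℂ) * V3 + (mb : ℂ) * V2) + (mb : ℂ) * (V3 - V2) := by
      linear_combination -V3 * hab
    rw [this, hU, hW]; ring
  have h2 : V2 = zBh C X χ * (Uenc C 0 (chart C (zF C X χ)).1 (chart C (zF C X χ)).2 0 -
      (ma : ℂ) * ((kap0 C (chart C (zF C X χ)) : ℂ) *
      Complex.exp ((zθ C X χ : ℂ) * Complex.I))) := by
    have : V2 = ((ma : ℂ) * V3 + (mb : ℂ) * V2) - (ma : ℂ) * (V3 - V2) := by
      linear_combination -V2 * hab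
    rw [this, hU, hW]; ring
  have hR : zB C X χ = zBh C X χ * (((chart C (zF C X χ)).1 : ℝ) : ℂ) := by
    rw [hr]; exact hBB
  refine Prod.ext ?_ (Prod.ext ?_ (Prod.ext ?_ ?_))
  · simp only [rot, x3, colD, ofRU, limD, mul_zero, add_zero]
    exact hR
  · simp only [rot, x2, colD, ofRU, limD, mul_zero, sub_zero]
    exact hR
  · simp only [rot, u3, colD, ofRU, limD]
    exact h3
  · simp only [rot, u2, colD, ofRU, limD]
    exact h2

end

end Pool.Agent.HS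

namespace Pool.Agent.HS
open Set Filter Topology
open scoped ContDiff

theorem z_end {C : ℝ} {X : ℝ × ℝ} {χ : ℝ} (h : ZG C X χ) (hC : C ≠ 0) :
    ‖zBh C X χ‖ = 1 ∧ zr C (zF C X χ) = ‖zB C X χ‖ ∧
    (chart C (zF C X χ)).2 = ((starRingEnd ℂ) (zBh C X χ) *
      ((ma : ℂ) * kV (z3 C X χ) (zs3 C X χ) + (mb : ℂ) * kV (z2 C X χ) (zs2 C X χ))).re ∧
    kV (z3 C X χ) (zs3 C X χ) - kV (z2 C X χ) (zs2 C X χ) = zw' C X χ :=
  @Pool.Agent.HS.z_end_pr C X χ h hC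

end Pool.Agent.HS

namespace Pool.Agent.HS
open Set Filter Topology
open scoped ContDiff

theorem z_fin {C : ℝ} {X : ℝ × ℝ} {χ : ℝ} (h : ZG C X χ) (hC : 0 < C) :
    ((zB C X χ, zB C X χ, kV (z3 C X χ) (zs3 C X χ), kV (z2 C X χ) (zs2 C X χ)) : St) =
      rot (zBh C X χ) (colD (limD C (zF C X χ) (zθ C X χ))) :=
  @Pool.Agent.HS.z_fin_pr C X χ h hC

end Pool.Agent.HS
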