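import Pool.Agent.Lib_helper60.HSF.D_WZ
import Pool.Agent.Lib_helper60.HSF.Z_ZD2
import Pool.Agent.Lib_helper60.HSF.K_KA1
import Pool.Agent.Lib_helper60.HSF.K_KG1
import Pool.Agent.Lib_helper60.HSF.Z_ZC

/-!
# Project HS, block ZD3: smoothness of the second intersection
-/

namespace Pool.Agent.HS

noncomputable section

open Set Filter Topology
open scoped ContDiff

section aux

variable {E : Type*} [NormedAddCommGroup E] [NormedSpace ℝ E]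

theorem zd3_ofReal {f : E → ℝ} {p : E} (hf : ContDiffAt ℝ ∞ f p) :
    ContDiffAt ℝ ∞ (fun x => ((f x : ℝ) : ℂ)) p :=
  Complex.ofRealCLM.contDiff.contDiffAt.comp p hf

theorem zd3_re {f : E → ℂ} {p : E} (hf : ContDiffAt ℝ ∞ f p) :
    ContDiffAt ℝ ∞ (fun x => (f x).re) p :=
  Complex.reCLM.contDiff.contDiffAt.comp p hf

theorem zd3_im {f : E → ℂ} {p : E} (hf : ContDiffAt ℝ ∞ f p) :
    ContDiffAt ℝ ∞ (fun x => (f x).im) p :=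
  Complex.imCLM.contDiff.contDiffAt.comp p hf

theorem zd3_conj {f : E → ℂ} {p : E} (hf : ContDiffAt ℝ ∞ f p) :
    ContDiffAt ℝ ∞ (fun x => (starRingEnd ℂ) (f x)) p :=
  Complex.conjCLE.contDiff.contDiffAt.comp p hf

theorem zd3_norm {f : E → ℂ} {p : E} (hf : ContDiffAt ℝ ∞ f p) (h : f p ≠ 0) :
    ContDiffAt ℝ ∞ (fun x => ‖f x‖) p :=
  hf.norm ℝ h

theorem zd3_normsq {f : E → ℂ} {p : E} (hf : ContDiffAt ℝ ∞ f p) :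
    ContDiffAt ℝ ∞ (fun x => ‖f x‖ ^ 2) p :=
  hf.norm_sq ℝ

theorem zd3_arctan {f : E → ℝ} {p : E} (hf : ContDiffAt ℝ ∞ f p) :
    ContDiffAt ℝ ∞ (fun x => Real.arctan (f x)) p :=
  Real.contDiff_arctan.contDiffAt.comp p hf

theorem zd3_arg {f : E → ℂ} {p : E} (hf : ContDiffAt ℝ ∞ f p) (h : 0 < (f p).re) :
    ContDiffAt ℝ ∞ (fun x => Complex.arg (f x)) p := by
  have h1 : ContDiffAt ℝ ∞ Complex.log (f p) :=
    (Complex.contDiffAt_log (Or.inl h) : ContDiffAt ℂ ∞ Complex.log (f p)).restrict_scalars ℝ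
  have h2 : ContDiffAt ℝ ∞ (fun x => (Complex.log (f x)).im) p := zd3_im (h1.comp p hf)
  exact h2.congr_of_eventuallyEq (Filter.Eventually.of_forall fun x => (Complex.log_im (f x)).symm)

theorem zd3_cdiv {f g : E → ℂ} {p : E} (hf : ContDiffAt ℝ ∞ f p) (hg : ContDiffAt ℝ ∞ g p)
    (h : g p ≠ 0) : ContDiffAt ℝ ∞ (fun x => f x / g x) p := by
  simp only [div_eq_mul_inv]
  exact hf.mul (hg.inv h)

/-- functions of a Kepler state -/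
theorem zd3_kL {y : E → KS} {p : E} (hy : ContDiffAt ℝ ∞ y p) :
    ContDiffAt ℝ ∞ (fun x => kL (y x)) p := by
  unfold kL
  exact zd3_im ((zd3_conj hy.fst).mul hy.snd)

theorem zd3_kσ {y : E → KS} {p : E} (hy : ContDiffAt ℝ ∞ y p) :
    ContDiffAt ℝ ∞ (fun x => kσ (y x)) p := by
  unfold kσ
  exact zd3_re ((zd3_conj hy.fst).mul hy.snd)

theorem zd3_kh {y : E → KS} {p : E} (hy : ContDiffAt ℝ ∞ y p) (h : (y p).1 ≠ 0) :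
    ContDiffAt ℝ ∞ (fun x => kh' (y x)) p := by
  unfold kh'
  refine ((zd3_normsq hy.snd).div_const 2).sub (contDiffAt_const.div (zd3_norm hy.fst h) ?_)
  simpa using h

theorem zd3_kA {y : E → KS} {p : E} (hy : ContDiffAt ℝ ∞ y p) (h : Ell (y p)) :
    ContDiffAt ℝ ∞ (fun x => kA (y x)) p := by
  unfold kA
  refine contDiffAt_const.div (contDiffAt_const.mul (zd3_kh hy (kL_ne h.2))) ?_
  have := h.1
  exact mul_ne_zero two_ne_zero this.ne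

theorem zd3_sqA {y : E → KS} {p : E} (hy : ContDiffAt ℝ ∞ y p) (h : Ell (y p)) :
    ContDiffAt ℝ ∞ (fun x => Real.sqrt (kA (y x))) p :=
  (zd3_kA hy h).sqrt (kA_pos h.1).ne'

theorem zd3_kE {y : E → KS} {p : E} (hy : ContDiffAt ℝ ∞ y p) (h : (y p).1 ≠ 0) :
    ContDiffAt ℝ ∞ (fun x => kE (y x)) p := by
  unfold kE
  refine (((contDiffAt_const.mul (zd3_ofReal (zd3_kL hy))).neg).mul hy.snd).sub
    (zd3_cdiv hy.fst (zd3_ofReal (zd3_norm hy.fst h)) ?_)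
  simpa using h

end aux

/-- everything at a point of `ZS` -/
theorem zd3_main {p : ℝ × (ℝ × ℝ) × ℝ} (hp : p ∈ ZS) :
    ContDiffAt ℝ ∞ (fun p : ℝ × (ℝ × ℝ) × ℝ => zs3 p.1 p.2.1 p.2.2) p ∧
    ContDiffAt ℝ ∞ (fun p : ℝ × (ℝ × ℝ) × ℝ => zs2 p.1 p.2.1 p.2.2) p ∧
    ContDiffAt ℝ ∞ (fun p : ℝ × (ℝ × ℝ) × ℝ => zB p.1 p.2.1 p.2.2) p ∧
    ContDiffAt ℝ ∞ (fun p : ℝ × (ℝ × ℝ) × ℝ => zBh p.1 p.2.1 p.2.2) p ∧
    ContDiffAt ℝ ∞ (fun p : ℝ × (ℝ × ℝ) × ℝ => zF p.1 p.2.1 p.2.2) p ∧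
    ContDiffAt ℝ ∞ (fun p : ℝ × (ℝ × ℝ) × ℝ => zθ p.1 p.2.1 p.2.2) p := by
  have hn : ZS ∈ 𝓝 p := zS_open.mem_nhds hp
  have h : ZG p.1 p.2.1 p.2.2 := hp
  obtain ⟨s3, s2, sX, -, sk⟩ := zS_states
  replace s3 := s3.contDiffAt hn
  replace s2 := s2.contDiffAt hn
  replace sX := sX.contDiffAt hn
  replace sk := sk.contDiffAt hn
  have rh0 : 0 < rh := by
    have := z_bounds
    linarith [this.2.2.2.2.1]
  have cc0 : 0 < cc := by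
    have := z_bounds
    linarith [this.2.2.2.2.2.2.1]
  have hr0 : zr p.1 p.2.1 ≠ 0 := by
    have := h.r.1
    have : 0 < zr p.1 p.2.1 := by linarith
    exact this.ne'
  -- coordinates
  have hC : ContDiffAt ℝ ∞ (fun p : ℝ × (ℝ × ℝ) × ℝ => p.1) p := contDiff_fst.contDiffAt
  have hx : ContDiffAt ℝ ∞ (fun p : ℝ × (ℝ × ℝ) × ℝ => p.2.1.1) p :=
    (contDiff_fst.comp (contDiff_fst.comp contDiff_snd)).contDiffAt
  have hz : ContDiffAt ℝ ∞ (fun p : ℝ × (ℝ × ℝ) × ℝ => p.2.1.2) p :=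
    (contDiff_snd.comp (contDiff_fst.comp contDiff_snd)).contDiffAt
  have hχ : ContDiffAt ℝ ∞ (fun p : ℝ × (ℝ × ℝ) × ℝ => p.2.2) p :=
    (contDiff_snd.comp contDiff_snd).contDiffAt
  have hρ : ContDiffAt ℝ ∞ (fun p : ℝ × (ℝ × ℝ) × ℝ => zρ p.2.1) p := by
    unfold zρ
    exact contDiffAt_const.add hx
  have hϖ : ContDiffAt ℝ ∞ (fun p : ℝ × (ℝ × ℝ) × ℝ => zϖ p.2.1) p := by
    unfold zϖ
    exact (contDiffAt_const.add (contDiffAt_const.mul hx)).add hz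
  have hr : ContDiffAt ℝ ∞ (fun p : ℝ × (ℝ × ℝ) × ℝ => zr p.1 p.2.1) p := by
    unfold zr chart
    exact contDiffAt_const.add ((hC.mul (contDiffAt_const.add hx)).div_const _)
  have hU : ContDiffAt ℝ ∞ (fun p : ℝ × (ℝ × ℝ) × ℝ => zU p.1 p.2.1) p := by
    unfold zU
    exact (zd3_ofReal (hϖ.div_const _)).add
      ((zd3_ofReal (contDiffAt_const.div hr hr0)).mul contDiffAt_const)
  have hL3 := zd3_kL s3
  have hL2 := zd3_kL s2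
  have hσ3 := zd3_kσ s3
  have hσ2 := zd3_kσ s2
  have hA3 := zd3_sqA s3 h.e3
  have hA2 := zd3_sqA s2 h.e2
  have hy3 : (z3 p.1 p.2.1 p.2.2).1 ≠ 0 := kL_ne h.e3.2
  have hE3 := zd3_kE s3 hy3
  have hw : ContDiffAt ℝ ∞ (fun p : ℝ × (ℝ × ℝ) × ℝ => zw p.1 p.2.1 p.2.2) p := by
    unfold zw
    exact (zd3_ofReal sk).mul (((zd3_ofReal hχ).mul contDiffAt_const).cexp)
  have hD : ContDiffAt ℝ ∞ (fun p : ℝ × (ℝ × ℝ) × ℝ => zD p.1 p.2.1 p.2.2) p :=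
    ((zd3_ofReal hL3).mul s3.snd).sub ((zd3_ofReal hL2).mul s2.snd)
  have hden : ContDiffAt ℝ ∞ (fun p : ℝ × (ℝ × ℝ) × ℝ => zden p.1 p.2.1 p.2.2) p :=
    (zd3_normsq hD).sub ((zd3_re ((zd3_conj hE3).mul hD)).pow 2)
  have hden0 : zden p.1 p.2.1 p.2.2 ≠ 0 := by
    have : 0 < cden (zr p.1 p.2.1 : ℂ) (z3 p.1 p.2.1 p.2.2).2 (z2 p.1 p.2.1 p.2.2).2 :=
      cden_pos h.e3 h.e2 h.D
    exact this.ne'
  have hlam : ContDiffAt ℝ ∞ (fun p : ℝ × (ℝ × ℝ) × ℝ => zlam p.1 p.2.1 p.2.2) p := by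
    unfold zlam
    exact ((((contDiffAt_const.mul hr).mul hL3).mul hL2).mul sX).div hden hden0
  have hB : ContDiffAt ℝ ∞ (fun p : ℝ × (ℝ × ℝ) × ℝ => zB p.1 p.2.1 p.2.2) p := by
    unfold zB
    exact (zd3_ofReal hr).add ((zd3_ofReal (hC.mul hlam)).mul hD)
  have hBp : 0 < ‖zB p.1 p.2.1 p.2.2‖ := by
    have := h.B.2.1
    linarith
  have hB0 : zB p.1 p.2.1 p.2.2 ≠ 0 := norm_pos_iff.mp hBp
  have hBn : ContDiffAt ℝ ∞ (fun p : ℝ × (ℝ × ℝ) × ℝ => ‖zB p.1 p.2.1 p.2.2‖) p :=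
    zd3_norm hB hB0
  have hBh : ContDiffAt ℝ ∞ (fun p : ℝ × (ℝ × ℝ) × ℝ => zBh p.1 p.2.1 p.2.2) p := by
    unfold zBh
    exact zd3_cdiv hB (zd3_ofReal hBn) (by exact_mod_cast hBp.ne')
  have hc3 : ContDiffAt ℝ ∞ (fun p : ℝ × (ℝ × ℝ) × ℝ => zc3 p.1 p.2.1 p.2.2) p := by
    unfold zc3
    exact ((hL3.pow 2).sub (hL2.pow 2)).add (((hσ3.mul hr).mul hL2).mul (hC.mul sX))
  have hc2 : ContDiffAt ℝ ∞ (fun p : ℝ × (ℝ × ℝ) × ℝ => zc2 p.1 p.2.1 p.2.2) p := by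
    unfold zc2
    exact ((hL3.pow 2).sub (hL2.pow 2)).add (((hσ2.mul hr).mul hL3).mul (hC.mul sX))
  have hW3 : ContDiffAt ℝ ∞ (fun p : ℝ × (ℝ × ℝ) × ℝ => zW3 p.1 p.2.1 p.2.2) p := by
    unfold zW3
    refine ((((hr.pow 2).mul hL2).mul sX).neg).div (hA3.mul hc3) (mul_ne_zero ?_ h.c3.ne')
    exact (Real.sqrt_pos.mpr (kA_pos h.e3.1)).ne'
  have hW2 : ContDiffAt ℝ ∞ (fun p : ℝ × (ℝ × ℝ) × ℝ => zW2 p.1 p.2.1 p.2.2) p := by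
    unfold zW2
    refine ((((hr.pow 2).mul hL3).mul sX).neg).div (hA2.mul hc2) (mul_ne_zero ?_ h.c2.ne')
    exact (Real.sqrt_pos.mpr (kA_pos h.e2.1)).ne'
  have hs3 : ContDiffAt ℝ ∞ (fun p : ℝ × (ℝ × ℝ) × ℝ => zs3 p.1 p.2.1 p.2.2) p := by
    unfold zs3
    exact contDiffAt_const.mul (zd3_arctan (hC.mul hW3))
  have hs2 : ContDiffAt ℝ ∞ (fun p : ℝ × (ℝ × ℝ) × ℝ => zs2 p.1 p.2.1 p.2.2) p := by
    unfold zs2
    exact contDiffAt_const.mul (zd3_arctan (hC.mul hW2))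
  have hrr : ‖zB p.1 p.2.1 p.2.2‖ + zr p.1 p.2.1 ≠ 0 := by
    have := h.r.1
    have : 0 < ‖zB p.1 p.2.1 p.2.2‖ + zr p.1 p.2.1 := by linarith
    exact this.ne'
  have hρ' : ContDiffAt ℝ ∞ (fun p : ℝ × (ℝ × ℝ) × ℝ => zρ' p.1 p.2.1 p.2.2) p := by
    unfold zρ'
    refine hρ.add ((contDiffAt_const.mul ?_).div (hBn.add hr) hrr)
    exact (((contDiffAt_const.mul hr).mul hlam).mul (zd3_re hD)).add
      ((hC.mul (hlam.pow 2)).mul (zd3_normsq hD))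
  have hϖ' : ContDiffAt ℝ ∞ (fun p : ℝ × (ℝ × ℝ) × ℝ => zϖ' p.1 p.2.1 p.2.2) p := by
    unfold zϖ'
    refine contDiffAt_const.mul ((zd3_re ((zd3_conj hBh).mul hU)).sub ?_)
    exact ((((contDiffAt_const.div hL3 h.e3.2).add (contDiffAt_const.div hL2 h.e2.2)).mul
      hlam).mul (zd3_im hD)).div hBn hBp.ne'
  have hF : ContDiffAt ℝ ∞ (fun p : ℝ × (ℝ × ℝ) × ℝ => zF p.1 p.2.1 p.2.2) p := by
    unfold zF
    exact (hρ'.sub contDiffAt_const).prodMk ((hϖ'.sub contDiffAt_const).sub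
      (contDiffAt_const.mul (hρ'.sub contDiffAt_const)))
  have hw' : ContDiffAt ℝ ∞ (fun p : ℝ × (ℝ × ℝ) × ℝ => zw' p.1 p.2.1 p.2.2) p := by
    unfold zw'
    refine hw.add ((contDiffAt_const.mul (zd3_ofReal ?_)).mul (hBh.sub contDiffAt_const))
    exact (contDiffAt_const.div hL3 h.e3.2).sub (contDiffAt_const.div hL2 h.e2.2)
  have hθ : ContDiffAt ℝ ∞ (fun p : ℝ × (ℝ × ℝ) × ℝ => zθ p.1 p.2.1 p.2.2) p := by
    unfold zθ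
    refine hχ.add (zd3_arg (((zd3_conj hBh).mul hw').mul ?_) h.w)
    exact (((zd3_ofReal hχ).neg).mul contDiffAt_const).cexp
  exact ⟨hs3, hs2, hB, hBh, hF, hθ⟩

theorem zS_geom_pr : ContDiffOn ℝ ∞ (fun p : ℝ × (ℝ × ℝ) × ℝ => zs3 p.1 p.2.1 p.2.2) ZS ∧
    ContDiffOn ℝ ∞ (fun p : ℝ × (ℝ × ℝ) × ℝ => zs2 p.1 p.2.1 p.2.2) ZS ∧
    ContDiffOn ℝ ∞ (fun p : ℝ × (ℝ × ℝ) × ℝ => zB p.1 p.2.1 p.2.2) ZS ∧
    ContDiffOn ℝ ∞ (fun p : ℝ × (ℝ × ℝ) × ℝ => zBh p.1 p.2.1 p.2.2) ZS ∧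
    ContDiffOn ℝ ∞ (fun p : ℝ × (ℝ × ℝ) × ℝ => zF p.1 p.2.1 p.2.2) ZS ∧
    ContDiffOn ℝ ∞ (fun p : ℝ × (ℝ × ℝ) × ℝ => zθ p.1 p.2.1 p.2.2) ZS :=
  ⟨fun _ hp => (zd3_main hp).1.contDiffWithinAt,
    fun _ hp => (zd3_main hp).2.1.contDiffWithinAt,
    fun _ hp => (zd3_main hp).2.2.1.contDiffWithinAt,
    fun _ hp => (zd3_main hp).2.2.2.1.contDiffWithinAt,
    fun _ hp => (zd3_main hp).2.2.2.2.1.contDiffWithinAt,
    fun _ hp => (zd3_main hp).2.2.2.2.2.contDiffWithinAt⟩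

end

end Pool.Agent.HS

namespace Pool.Agent.HS
open Set Filter Topology
open scoped ContDiff

theorem zS_geom : ContDiffOn ℝ ∞ (fun p : ℝ × (ℝ × ℝ) × ℝ => zs3 p.1 p.2.1 p.2.2) ZS ∧
    ContDiffOn ℝ ∞ (fun p : ℝ × (ℝ × ℝ) × ℝ => zs2 p.1 p.2.1 p.2.2) ZS ∧
    ContDiffOn ℝ ∞ (fun p : ℝ × (ℝ × ℝ) × ℝ => zB p.1 p.2.1 p.2.2) ZS ∧
    ContDiffOn ℝ ∞ (fun p : ℝ × (ℝ × ℝ) × ℝ => zBh p.1 p.2.1 p.2.2) ZS ∧
    ContDiffOn ℝ ∞ (fun p : ℝ × (ℝ × ℝ) × ℝ => zF p.1 p.2.1 p.2.2) ZS ∧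
    ContDiffOn ℝ ∞ (fun p : ℝ × (ℝ × ℝ) × ℝ => zθ p.1 p.2.1 p.2.2) ZS :=
  @Pool.Agent.HS.zS_geom_pr

end Pool.Agent.HS
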