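import Pool.Agent.Lib_helper60.HSF.D_WZ
import Pool.Agent.Lib_helper60.HSF.Z_ZD2
import Pool.Agent.Lib_helper60.HSF.K_KA1
import Pool.Agent.Lib_helper60.HSF.K_KL1
import Pool.Agent.Lib_helper60.HSF.K_KL3
import Pool.Agent.Lib_helper60.HSF.K_KL2
import Pool.Agent.Lib_helper60.HSF.Z_ZC
import Pool.Agent.Lib_helper60.HSF.Z_ZA1

/-! Project HS, part Z, block ZT: the limit trajectory. -/

set_option autoImplicit false

namespace Pool.Agent.HS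

noncomputable section

open Set Filter Topology
open scoped ContDiff

theorem zt_st {W : St} {b : KS} {A B : ℂ} (ha : p3 W = (A, B)) (hb : p2 W = b) :
    W = (A, b.1, B, b.2) := by
  obtain ⟨w1, w2, w3, w4⟩ := W
  have e1 : w1 = A := congrArg Prod.fst ha
  have e2 : w3 = B := congrArg Prod.snd ha
  have e3 : w2 = b.1 := congrArg Prod.fst hb
  have e4 : w4 = b.2 := congrArg Prod.snd hb
  rw [e1, e2, e3, e4]

/-- the limit trajectory from centre data `X` with direction `χ` -/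
theorem z_traj_pr {C : ℝ} {X : ℝ × ℝ} {χ : ℝ} (h : ZG C X χ) (τ : ℝ) :
    (Zd 0 (limD C X χ) τ).1 ≠ 0 ∧
    lcX (Zd 0 (limD C X χ) τ) = kX (z3 C X χ) (τ / Real.sqrt (kA (z3 C X χ))) -
      (kep (kT (z3 C X χ) (τ / Real.sqrt (kA (z3 C X χ)))) (z2 C X χ)).1 ∧
    lcSt 0 (Zd 0 (limD C X χ) τ) = (kX (z3 C X χ) (τ / Real.sqrt (kA (z3 C X χ))),
      (kep (kT (z3 C X χ) (τ / Real.sqrt (kA (z3 C X χ)))) (z2 C X χ)).1,
      kV (z3 C X χ) (τ / Real.sqrt (kA (z3 C X χ))),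
      (kep (kT (z3 C X χ) (τ / Real.sqrt (kA (z3 C X χ)))) (z2 C X χ)).2) := by
  obtain ⟨hp3, hp2⟩ := z_p C X χ
  have hP : pP 0 (colD (limD C X χ)) = z3 C X χ := by
    rw [← hp3]
    exact if_pos rfl
  have hQ : pQ 0 (colD (limD C X χ)) = z2 C X χ := by
    rw [← hp2]
    exact if_pos rfl
  have h1 : kh' (pP 0 (colD (limD C X χ))) < 0 := by
    rw [hP]
    exact h.e3.1
  have h0 : (pP 0 (colD (limD C X χ))).1 ≠ 0 := by
    rw [hP]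
    exact kL_ne h.e3.2
  have hQe : Ell (pQ 0 (colD (limD C X χ))) := by
    rw [hQ]
    exact h.e2
  have hζ : lzζ 0 τ (toLC 0 0 (colD (limD C X χ))) ≠ 0 := by
    intro hz
    have hs := lz_sq 0 h1 h0 τ
    rw [hz, hP] at hs
    have hn := norm_kX h.e3.1 (kL_ne h.e3.2) (τ / Real.sqrt (kA (z3 C X χ)))
    rw [← hs] at hn
    have hpos := kR_pos h.e3 (τ / Real.sqrt (kA (z3 C X χ)))
    rw [← hn] at hpos
    simp at hpos
  have htime := lz_time 0 h1 h0 τ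
  rw [hP] at htime
  refine ⟨hζ, ?_, ?_⟩
  · have hx := lc_xi 0 h1 h0 hQe τ
    rw [hP, hQ] at hx
    exact hx
  · obtain ⟨ha, hb⟩ := lc_cart 0 h1 h0 hQe τ hζ
    rw [if_pos rfl, hp3] at ha
    rw [if_pos rfl, hp2, htime] at hb
    have hZd : Zd 0 (limD C X χ) τ = lz0 0 τ (toLC 0 0 (colD (limD C X χ))) := rfl
    rw [hZd]
    exact zt_st ha hb

theorem z_traj_smooth_pr (C : ℝ) :
    ContDiffOn ℝ ∞ (fun p : (ℝ × ℝ) × ℝ × ℝ => lcX (Zd 0 (limD C p.1 p.2.1) p.2.2))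
      {p | ZG C p.1 p.2.1} ∧
    ContDiffOn ℝ ∞ (fun p : (ℝ × ℝ) × ℝ × ℝ => (Zd 0 (limD C p.1 p.2.1) p.2.2).1)
      {p | ZG C p.1 p.2.1} ∧ IsOpen {p : (ℝ × ℝ) × ℝ × ℝ | ZG C p.1 p.2.1} := by
  have hj : ContDiff ℝ ∞ (fun p : (ℝ × ℝ) × ℝ × ℝ => ((C, p.1, p.2.1) : ℝ × (ℝ × ℝ) × ℝ)) := by
    fun_prop
  have hj' : MapsTo (fun p : (ℝ × ℝ) × ℝ × ℝ => ((C, p.1, p.2.1) : ℝ × (ℝ × ℝ) × ℝ))
      {p | ZG C p.1 p.2.1} ZS := fun p hp => hp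
  have hlim : ContDiffOn ℝ ∞ (fun p : (ℝ × ℝ) × ℝ × ℝ => limD C p.1 p.2.1)
      {p | ZG C p.1 p.2.1} := zS_states.2.2.2.1.comp hj.contDiffOn hj'
  have hpair : ContDiffOn ℝ ∞ (fun p : (ℝ × ℝ) × ℝ × ℝ => ((limD C p.1 p.2.1, p.2.2) : Dt × ℝ))
      {p | ZG C p.1 p.2.1} :=
    hlim.prodMk (contDiff_snd.comp contDiff_snd).contDiffOn
  have hm : MapsTo (fun p : (ℝ × ℝ) × ℝ × ℝ => ((limD C p.1 p.2.1, p.2.2) : Dt × ℝ))
      {p | ZG C p.1 p.2.1} {p | p.1 ∈ Sm 0} := by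
    intro p hp
    have hp' : ZG C p.1 p.2.1 := hp
    obtain ⟨hp3, hp2⟩ := z_p C p.1 p.2.1
    have hP : pP 0 (colD (limD C p.1 p.2.1)) = z3 C p.1 p.2.1 := by
      rw [← hp3]
      exact if_pos rfl
    have hQ : pQ 0 (colD (limD C p.1 p.2.1)) = z2 C p.1 p.2.1 := by
      rw [← hp2]
      exact if_pos rfl
    refine ⟨?_, ?_, ?_⟩
    · have hr := hp'.r.1
      have hb := z_bounds.2.2.2.2.1
      have : (limD C p.1 p.2.1).1.re = zr C p.1 := Complex.ofReal_re _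
      rw [this]
      linarith
    · rw [hP]
      exact hp'.e3.1
    · rw [hQ]
      exact hp'.e2
  have hZ : ContDiffOn ℝ ∞ (fun p : (ℝ × ℝ) × ℝ × ℝ => Zd 0 (limD C p.1 p.2.1) p.2.2)
      {p | ZG C p.1 p.2.1} := by
    have key := ContDiffOn.comp (g := fun p : Dt × ℝ => Zd 0 p.1 p.2)
      (f := fun p : (ℝ × ℝ) × ℝ × ℝ => ((limD C p.1 p.2.1, p.2.2) : Dt × ℝ)) (Zd_smooth 0).1 hpair hm
    simp only [Function.comp_def] at key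
    exact key
  have h2 := hZ.fst
  have h3 := hZ.snd.snd.fst
  have h1 := h2.pow 2
  have h4 := h1.sub h3
  refine ⟨h4, h2, ?_⟩
  exact zS_open.preimage hj.continuous

end

end Pool.Agent.HS

namespace Pool.Agent.HS
open Set Filter Topology
open scoped ContDiff

theorem z_traj {C : ℝ} {X : ℝ × ℝ} {χ : ℝ} (h : ZG C X χ) (τ : ℝ) :
    (Zd 0 (limD C X χ) τ).1 ≠ 0 ∧
    lcX (Zd 0 (limD C X χ) τ) = kX (z3 C X χ) (τ / Real.sqrt (kA (z3 C X χ))) -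
      (kep (kT (z3 C X χ) (τ / Real.sqrt (kA (z3 C X χ)))) (z2 C X χ)).1 ∧
    lcSt 0 (Zd 0 (limD C X χ) τ) = (kX (z3 C X χ) (τ / Real.sqrt (kA (z3 C X χ))),
      (kep (kT (z3 C X χ) (τ / Real.sqrt (kA (z3 C X χ)))) (z2 C X χ)).1,
      kV (z3 C X χ) (τ / Real.sqrt (kA (z3 C X χ))),
      (kep (kT (z3 C X χ) (τ / Real.sqrt (kA (z3 C X χ)))) (z2 C X χ)).2) :=
  @Pool.Agent.HS.z_traj_pr C X χ h τ

end Pool.Agent.HS

namespace Pool.Agent.HS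
open Set Filter Topology
open scoped ContDiff

theorem z_traj_smooth (C : ℝ) :
    ContDiffOn ℝ ∞ (fun p : (ℝ × ℝ) × ℝ × ℝ => lcX (Zd 0 (limD C p.1 p.2.1) p.2.2))
      {p | ZG C p.1 p.2.1} ∧
    ContDiffOn ℝ ∞ (fun p : (ℝ × ℝ) × ℝ × ℝ => (Zd 0 (limD C p.1 p.2.1) p.2.2).1)
      {p | ZG C p.1 p.2.1} ∧ IsOpen {p : (ℝ × ℝ) × ℝ × ℝ | ZG C p.1 p.2.1} :=
  @Pool.Agent.HS.z_traj_smooth_pr C

end Pool.Agent.HS
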