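import Pool.Agent.Lib_helper60.HSF.D_WZ
import Pool.Agent.Lib_helper60.HSF.K_KA1
import Pool.Agent.Lib_helper60.HSF.K_KA2
import Pool.Agent.Lib_helper60.HSF.K_KF1
import Pool.Agent.Lib_helper60.HSF.Z_ZA4
import Pool.Agent.Lib_helper60.HSF.K_KG1
import Pool.Agent.Lib_helper60.HSF.Z_ZA1
import Pool.Agent.Lib_helper60.HSF.Z_ZC

/-!
# Project HS, part Z, block ZA6: transversality at both intersections
-/

namespace Pool.Agent.HS

noncomputable section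

open Set Filter Topology
open scoped ContDiff

theorem za6_cD {y y' : KS} {s s' : ℝ} (h : Ell y) (h' : Ell y') (h0 : y.1 = y'.1)
    (hx : kX y s = kX y' s') :
    cD (kX y s) (kV y s) (kV y' s') = cD y.1 y.2 y'.2 := by
  have e1 := kY_E h s
  have e2 := kY_E h' s'
  have l1 := kY_L h s
  have l2 := kY_L h' s'
  have l2' : kL ((kX y s, kV y' s') : KS) = kL y' := by rw [hx]; exact l2
  have l1' : kL ((kX y s, kV y s) : KS) = kL y := l1
  have m1 : kL ((y.1, y.2) : KS) = kL y := rfl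
  have m2 : kL ((y.1, y'.2) : KS) = kL y' := by rw [h0]
  unfold cD
  rw [l1', l2', m1, m2]
  unfold kE at e1 e2
  rw [l1] at e1
  rw [l2] at e2
  simp only [kY] at e1 e2
  rw [← hx, ← h0] at e2
  have hI : Complex.I * Complex.I = -1 := Complex.I_mul_I
  have : Complex.I * ((kL y : ℂ) * kV y s - (kL y' : ℂ) * kV y' s') =
      Complex.I * ((kL y : ℂ) * y.2 - (kL y' : ℂ) * y'.2) := by
    linear_combination -e1 + e2
  exact mul_left_cancel₀ Complex.I_ne_zero this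

theorem z_trans_pr {C : ℝ} {X : ℝ × ℝ} {χ : ℝ} (h : ZG C X χ) (hC : C ≠ 0) (hX : zX C X χ ≠ 0) :
    zB C X χ ≠ zr C X ∧ cW' (z3 C X χ).2 (z2 C X χ).2 ≠ 0 ∧
    cW' (kV (z3 C X χ) (zs3 C X χ)) (kV (z2 C X χ) (zs2 C X χ)) ≠ 0 := by
  have hrp : 0 < zr C X := by
    have := h.r.1
    have := z_bounds.2.2.2.2.1
    linarith
  have hw := (z_L (C := C) (X := X) hrp.ne' χ).2.2.1
  have h3 : Ell ((zr C X : ℂ), (z3 C X χ).2) := h.e3
  have h2 : Ell ((zr C X : ℂ), (z2 C X χ).2) := h.e2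
  have hD : cD (zr C X) (z3 C X χ).2 (z2 C X χ).2 ≠ 0 := h.D
  have hw0 : cW' (z3 C X χ).2 (z2 C X χ).2 ≠ 0 := by
    rw [hw]; exact mul_ne_zero hC hX
  have hB := (z_B h).1
  have hne : zB C X χ ≠ zr C X := by
    rw [hB]; exact cB_ne h3 h2 hD hw0
  refine ⟨hne, hw0, ?_⟩
  intro hz
  obtain ⟨-, hB3, hB2⟩ := z_B h
  have hx : kX (z3 C X χ) (zs3 C X χ) = kX (z2 C X χ) (zs2 C X χ) := by rw [hB3, hB2]
  have hcD := za6_cD h.e3 h.e2 rfl hx
  have E3 : Ell (kX (z3 C X χ) (zs3 C X χ), kV (z3 C X χ) (zs3 C X χ)) := kY_ell h.e3 _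
  have E2 : Ell (kX (z3 C X χ) (zs3 C X χ), kV (z2 C X χ) (zs2 C X χ)) := by
    rw [hx]; exact kY_ell h.e2 _
  have hD' : cD (kX (z3 C X χ) (zs3 C X χ)) (kV (z3 C X χ) (zs3 C X χ))
      (kV (z2 C X χ) (zs2 C X χ)) ≠ 0 := by
    rw [hcD]; exact hD
  have c3 := conic h.e3 0
  have c2 := conic h.e2 0
  have k3 : kX (z3 C X χ) 0 = zr C X := congrArg Prod.fst (kY_zero h.e3)
  have k2 : kX (z2 C X χ) 0 = zr C X := congrArg Prod.fst (kY_zero h.e2)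
  rw [k3] at c3
  rw [k2] at c2
  have m3 : kE (kX (z3 C X χ) (zs3 C X χ), kV (z3 C X χ) (zs3 C X χ)) = kE (z3 C X χ) :=
    kY_E h.e3 _
  have m2 : kE (kX (z3 C X χ) (zs3 C X χ), kV (z2 C X χ) (zs2 C X χ)) = kE (z2 C X χ) := by
    rw [hx]; exact kY_E h.e2 _
  have n3 : kL (kX (z3 C X χ) (zs3 C X χ), kV (z3 C X χ) (zs3 C X χ)) = kL (z3 C X χ) :=
    kY_L h.e3 _
  have n2 : kL (kX (z3 C X χ) (zs3 C X χ), kV (z2 C X χ) (zs2 C X χ)) = kL (z2 C X χ) := by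
    rw [hx]; exact kY_L h.e2 _
  rcases two_points E3 E2 hD' (x := zr C X) (by rw [m3, n3]; exact c3)
    (by rw [m2, n2]; exact c2) with h4 | h4
  · exact hne (by rw [h4, hB3])
  · have hl : clam (kX (z3 C X χ) (zs3 C X χ)) (kV (z3 C X χ) (zs3 C X χ))
        (kV (z2 C X χ) (zs2 C X χ)) = 0 := by
      unfold clam
      rw [hz]; simp
    unfold cB at h4
    rw [hl] at h4
    apply hne
    rw [h4, hB3]; simp

end

end Pool.Agent.HS

namespace Pool.Agent.HS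
open Set Filter Topology
open scoped ContDiff

theorem z_trans {C : ℝ} {X : ℝ × ℝ} {χ : ℝ} (h : ZG C X χ) (hC : C ≠ 0) (hX : zX C X χ ≠ 0) :
    zB C X χ ≠ zr C X ∧ cW' (z3 C X χ).2 (z2 C X χ).2 ≠ 0 ∧
    cW' (kV (z3 C X χ) (zs3 C X χ)) (kV (z2 C X χ) (zs2 C X χ)) ≠ 0 :=
  @Pool.Agent.HS.z_trans_pr C X χ h hC hX

end Pool.Agent.HS
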