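import Pool.Agent.Lib_helper60.HSF.D_WZ

/-!
# Project HS, part Z, block ZB1: arithmetic of the arcs
-/

namespace Pool.Agent.HS

noncomputable section

open Set Filter Topology
open scoped ContDiff

namespace ZB1

/-- a real in `(0, 1)` is not an integer -/
theorem no_int {t : ℝ} {n : ℤ} (h0 : 0 < t) (h1 : t < 1) : t ≠ n := by
  intro h
  rw [h] at h0 h1
  have h2 : (0 : ℤ) < n := by exact_mod_cast h0
  have h3 : n < (1 : ℤ) := by exact_mod_cast h1
  omega

end ZB1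

open ZB1

theorem arith_S_pr {x τ : ℝ} {j : ℝ} {K : ℕ} (hj : j = 1 ∨ j = -1) (hK : 0 < K)
    (hx : (K : ℝ) * x = j - τ) (hτ : 0 < j * τ ∧ j * τ < 1) (m n : ℤ) (hm : 0 ≤ m) :
    (0 < m → m ≤ K → (m : ℝ) * x ≠ n) ∧ (m < K → (m : ℝ) * x + τ ≠ n) := by
  obtain ⟨h0, h1⟩ := hτ
  have hKr : (0 : ℝ) < (K : ℝ) := by exact_mod_cast hK
  have hjj : j * j = 1 := by
    rcases hj with h | h <;> rw [h] <;> norm_num
  -- an integer in the form `j * n`
  have hjn : ∀ t : ℝ, t = (n : ℝ) → 0 < j * t → j * t < 1 → False := by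
    intro t ht h2 h3
    rcases hj with h | h
    · rw [h, one_mul] at h2 h3
      exact no_int h2 h3 ht
    · rw [h] at h2 h3
      refine no_int (n := -n) h2 h3 ?_
      rw [ht]
      push_cast
      ring
  constructor
  · intro hm0 hmK h
    have hm0r : (0 : ℝ) < (m : ℝ) := by exact_mod_cast hm0
    have hmKr : (m : ℝ) ≤ (K : ℝ) := by exact_mod_cast hmK
    have key : (K : ℝ) * (j * ((m : ℝ) * x)) = m * (1 - j * τ) := by
      have : (K : ℝ) * (j * ((m : ℝ) * x)) = m * j * (K * x) := by ring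
      rw [this, hx]
      linear_combination (m : ℝ) * hjj
    refine hjn _ h ?_ ?_
    · have : 0 < (K : ℝ) * (j * ((m : ℝ) * x)) := by
        rw [key]
        exact mul_pos hm0r (by linarith)
      exact (mul_pos_iff_of_pos_left hKr).mp this
    · have : (K : ℝ) * (j * ((m : ℝ) * x)) < K * 1 := by
        rw [key]
        have h5 : (m : ℝ) * (1 - j * τ) < m * 1 :=
          mul_lt_mul_of_pos_left (by linarith) hm0r
        linarith
      exact lt_of_mul_lt_mul_left this hKr.le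
  · intro hmK h
    have hm0r : (0 : ℝ) ≤ (m : ℝ) := by exact_mod_cast hm
    have hmKr : (m : ℝ) < (K : ℝ) := by exact_mod_cast hmK
    have key : (K : ℝ) * (j * ((m : ℝ) * x + τ)) = m + (K - m) * (j * τ) := by
      have : (K : ℝ) * (j * ((m : ℝ) * x + τ)) = m * j * (K * x) + K * (j * τ) := by ring
      rw [this, hx]
      linear_combination (m : ℝ) * hjj
    have h4 : 0 < ((K : ℝ) - m) * (j * τ) := mul_pos (by linarith) h0
    have h5 : ((K : ℝ) - m) * (j * τ) < (K - m) * 1 :=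
      mul_lt_mul_of_pos_left h1 (by linarith)
    refine hjn _ h ?_ ?_
    · have : 0 < (K : ℝ) * (j * ((m : ℝ) * x + τ)) := by
        rw [key]
        linarith
      exact (mul_pos_iff_of_pos_left hKr).mp this
    · have : (K : ℝ) * (j * ((m : ℝ) * x + τ)) < K * 1 := by
        rw [key]
        linarith
      exact lt_of_mul_lt_mul_left this hKr.le

theorem arith_T_pr {x τ : ℝ} {j : ℤ} {K : ℕ} (hK : 0 < K) (hj : IsCoprime j (K : ℤ))
    (hx : (K : ℝ) * x = j) (hτ : ∀ n : ℤ, (K : ℝ) * τ ≠ n) (m n : ℤ) (hm : 0 ≤ m) :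
    (0 < m → m < K → (m : ℝ) * x ≠ n) ∧ (m : ℝ) * x + τ ≠ n := by
  constructor
  · intro hm0 hmK h
    have h1 : (m : ℝ) * j = K * n := by
      rw [← hx, ← h]
      ring
    have h2 : m * j = (K : ℤ) * n := by exact_mod_cast h1
    have h3 : (K : ℤ) ∣ m * j := ⟨n, h2⟩
    have h4 : (K : ℤ) ∣ m := hj.symm.dvd_of_dvd_mul_right h3
    have h5 := Int.le_of_dvd hm0 h4
    omega
  · intro h
    apply hτ (K * n - m * j)
    push_cast
    rw [← h, ← hx]
    ring

end

end Pool.Agent.HS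

namespace Pool.Agent.HS
open Set Filter Topology
open scoped ContDiff

theorem arith_S {x τ : ℝ} {j : ℝ} {K : ℕ} (hj : j = 1 ∨ j = -1) (hK : 0 < K)
    (hx : (K : ℝ) * x = j - τ) (hτ : 0 < j * τ ∧ j * τ < 1) (m n : ℤ) (hm : 0 ≤ m) :
    (0 < m → m ≤ K → (m : ℝ) * x ≠ n) ∧ (m < K → (m : ℝ) * x + τ ≠ n) :=
  @Pool.Agent.HS.arith_S_pr x τ j K hj hK hx hτ m n hm

end Pool.Agent.HS

namespace Pool.Agent.HS
open Set Filter Topology
open scoped ContDiff

theorem arith_T {x τ : ℝ} {j : ℤ} {K : ℕ} (hK : 0 < K) (hj : IsCoprime j (K : ℤ))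
    (hx : (K : ℝ) * x = j) (hτ : ∀ n : ℤ, (K : ℝ) * τ ≠ n) (m n : ℤ) (hm : 0 ≤ m) :
    (0 < m → m < K → (m : ℝ) * x ≠ n) ∧ (m : ℝ) * x + τ ≠ n :=
  @Pool.Agent.HS.arith_T_pr x τ j K hK hj hx hτ m n hm

end Pool.Agent.HS
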