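import Pool.Agent.Lib_helper60.HSF.D_WZ
import Pool.Agent.Lib_helper60.HSF.Z_ZA4
import Pool.Agent.Lib_helper60.HSF.K_KA1
import Pool.Agent.Lib_helper60.HSF.K_KF1
import Pool.Agent.Lib_helper60.HSF.K_KG1
import Pool.Agent.Lib_helper60.HSF.K_KD2
import Pool.Agent.Lib_helper60.HSF.Z_ZB1
import Pool.Agent.Lib_helper60.HSF.K_KB2
import Pool.Agent.Lib_helper60.HSF.Z_ZA3

/-!
# Project HS, block ZB2: no collision before the end
-/

namespace Pool.Agent.HS

noncomputable section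

open Set Filter Topology
open scoped ContDiff

/-- `kT y 0 = 0` -/
theorem zb2_kT_zero (y : KS) : kT y 0 = 0 := by
  simp [kT]

/-- a common point of the two orbits is `R` or `zB` -/
theorem zb2_common {C : ℝ} {X : ℝ × ℝ} {χ : ℝ} (h : ZG C X χ) {s s' : ℝ}
    (he : kX (z3 C X χ) s = kX (z2 C X χ) s') :
    kX (z3 C X χ) s = (zr C X : ℂ) ∨ kX (z3 C X χ) s = zB C X χ := by
  have h3 : z3 C X χ = ((zr C X : ℂ), (z3 C X χ).2) := rfl
  have h2 : z2 C X χ = ((zr C X : ℂ), (z2 C X χ).2) := rfl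
  have e3 : Ell ((zr C X : ℂ), (z3 C X χ).2) := by rw [← h3]; exact h.e3
  have e2 : Ell ((zr C X : ℂ), (z2 C X χ).2) := by rw [← h2]; exact h.e2
  have c3 := conic h.e3 s
  have c2 := conic h.e2 s'
  rw [← he] at c2
  have := two_points (R := (zr C X : ℂ)) (u := (z3 C X χ).2) (u' := (z2 C X χ).2)
    (x := kX (z3 C X χ) s) e3 e2 h.D (by rw [← h3]; exact c3) (by rw [← h2]; exact c2)
  rw [(z_B h).1]
  exact this

/-- the anomalies and times at a common point -/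
theorem zb2_split {C : ℝ} {X : ℝ × ℝ} {χ : ℝ} (h : ZG C X χ) {s s' : ℝ}
    (he : kX (z3 C X χ) s = kX (z2 C X χ) s') (ht : kT (z3 C X χ) s = kT (z2 C X χ) s') :
    (∃ m n : ℤ, s = 2 * Real.pi * m ∧ (m : ℝ) * (C * zy C X χ) = (n - 2 * m : ℤ)) ∨
    (∃ m n : ℤ, s = zs3 C X χ + 2 * Real.pi * m ∧
      (m : ℝ) * (C * zy C X χ) + C * zτ C X χ / kPer (z2 C X χ) = (n - 2 * m : ℤ)) := by
  obtain ⟨hP, hP2, hP3⟩ := z_per h
  have h30 : kX (z3 C X χ) 0 = (zr C X : ℂ) := by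
    have := kY_zero h.e3
    exact congrArg Prod.fst this
  have h20 : kX (z2 C X χ) 0 = (zr C X : ℂ) := by
    have := kY_zero h.e2
    exact congrArg Prod.fst this
  obtain ⟨_, hB3, hB2⟩ := z_B h
  obtain ⟨hT3, hT2⟩ := z_kT h
  rcases zb2_common h he with hc | hc
  · left
    obtain ⟨m, hm⟩ := kX_inj h.e3 (s := 0) (s' := s) (by rw [h30, hc])
    obtain ⟨n, hn⟩ := kX_inj h.e2 (s := 0) (s' := s') (by rw [h20, ← he, hc])
    refine ⟨m, n, by rw [hm]; ring, ?_⟩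
    rw [hm, hn, kT_per, kT_per, zb2_kT_zero, zb2_kT_zero, zero_add, zero_add, hP] at ht
    push_cast
    have h4 : (kPer (z2 C X χ)) * ((2 + C * zy C X χ) * m - n) = 0 := by linarith
    rcases mul_eq_zero.mp h4 with h5 | h5
    · exact absurd h5 hP2.ne'
    · linarith
  · right
    obtain ⟨m, hm⟩ := kX_inj h.e3 (s := zs3 C X χ) (s' := s) (by rw [hB3, hc])
    obtain ⟨n, hn⟩ := kX_inj h.e2 (s := zs2 C X χ) (s' := s') (by rw [hB2, ← he, hc])
    refine ⟨m, n, hm, ?_⟩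
    rw [hm, hn, kT_per, kT_per, hT3, hT2, hP] at ht
    push_cast
    have hτ : C * zτ C X χ = C * zt C (z3 C X χ) (zW3 C X χ) - C * zt C (z2 C X χ) (zW2 C X χ) := by
      unfold zτ; ring
    rw [hτ]
    have h4 : C * zt C (z3 C X χ) (zW3 C X χ) - C * zt C (z2 C X χ) (zW2 C X χ) =
        kPer (z2 C X χ) * (n - (2 + C * zy C X χ) * m) := by linarith
    rw [h4, mul_div_cancel_left₀ _ hP2.ne']
    ring

theorem zb2_zs3 (C : ℝ) (X : ℝ × ℝ) (χ : ℝ) :
    -Real.pi < zs3 C X χ ∧ zs3 C X χ < Real.pi := by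
  have h1 := Real.neg_pi_div_two_lt_arctan (C * zW3 C X χ)
  have h2 := Real.arctan_lt_pi_div_two (C * zW3 C X χ)
  unfold zs3
  constructor <;> linarith

theorem free_S_pr {C : ℝ} {X : ℝ × ℝ} {χ j : ℝ} {K : ℕ} (h : ZG C X χ) (hC : 0 < C)
    (hj : j = 1 ∨ j = -1) (hK : 0 < K) (hX : zX C X χ ≠ 0) (hΞ : zΞ j C (K * C) X χ = 0)
    (hτ : 0 < j * zτ C X χ) (hτ' : C * |zτ C X χ| < kPer (z2 C X χ)) (s s' : ℝ) (hs : 0 < s)
    (hs' : s < 2 * Real.pi * K + zs3 C X χ) (he : kX (z3 C X χ) s = kX (z2 C X χ) s')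
    (ht : kT (z3 C X χ) s = kT (z2 C X χ) s') : False := by
  obtain ⟨hP, hP2, hP3⟩ := z_per h
  obtain ⟨b1, b2⟩ := zb2_zs3 C X χ
  have hpi := Real.pi_pos
  set P := kPer (z2 C X χ) with hPdef
  set τ := C * zτ C X χ / P with hτdef
  have hx : (K : ℝ) * (C * zy C X χ) = j - τ := by
    unfold zΞ at hΞ
    rw [← hPdef, ← hτdef] at hΞ
    linarith
  have hjt : j * τ = C * (j * zτ C X χ) / P := by rw [hτdef]; ring
  have hj1 : 0 < j * τ := by
    rw [hjt]; positivity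
  have hj2 : j * τ < 1 := by
    rw [hjt, div_lt_one hP2]
    refine lt_of_le_of_lt ?_ hτ'
    refine mul_le_mul_of_nonneg_left ?_ hC.le
    have : |j| = 1 := by rcases hj with hj | hj <;> simp [hj]
    calc j * zτ C X χ ≤ |j * zτ C X χ| := le_abs_self _
      _ = |zτ C X χ| := by rw [abs_mul, this, one_mul]
  rcases zb2_split h he ht with ⟨m, n, hm, hmn⟩ | ⟨m, n, hm, hmn⟩
  · have hm0 : 0 < m := by
      have : (0:ℝ) < 2 * Real.pi * m := by rw [← hm]; exact hs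
      have h2 : (0:ℝ) < m := by
        by_contra hcon
        have : 2 * Real.pi * (m:ℝ) ≤ 0 := mul_nonpos_of_nonneg_of_nonpos (by positivity) (not_lt.mp hcon)
        linarith
      exact_mod_cast h2
    have hmK : m ≤ K := by
      have h1 : 2 * Real.pi * (m:ℝ) < 2 * Real.pi * (K + 1) := by
        have : 2 * Real.pi * (K + 1 : ℝ) = 2 * Real.pi * K + 2 * Real.pi := by ring
        rw [this, ← hm]; linarith
      have h2 : (m:ℝ) < K + 1 := lt_of_mul_lt_mul_left h1 (by positivity)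
      have h3 : m < K + 1 := by exact_mod_cast h2
      omega
    exact (arith_S hj hK hx ⟨hj1, hj2⟩ m _ hm0.le).1 hm0 hmK hmn
  · have hm0 : 0 ≤ m := by
      have h1 : (2 * Real.pi) * (-1:ℝ) < 2 * Real.pi * m := by linarith
      have h2 : (-1:ℝ) < m := lt_of_mul_lt_mul_left h1 (by positivity)
      have h3 : -1 < m := by exact_mod_cast h2
      omega
    have hmK : m < K := by
      have h1 : 2 * Real.pi * (m:ℝ) < 2 * Real.pi * K := by linarith
      have h2 : (m:ℝ) < K := lt_of_mul_lt_mul_left h1 (by positivity)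
      exact_mod_cast h2
    exact (arith_S hj hK hx ⟨hj1, hj2⟩ m _ hm0).2 hmK hmn

theorem free_T_pr {C : ℝ} {X : ℝ × ℝ} {χ : ℝ} {j : ℤ} {K : ℕ} (h : ZG C X χ) (hC : 0 < C)
    (hK : 0 < K) (hj : IsCoprime j (K : ℤ)) (hX : zX C X χ ≠ 0) (hΘ : zΘ j C (K * C) X χ = 0)
    (hτ : ∀ n : ℤ, (K : ℝ) * (C * zτ C X χ / kPer (z2 C X χ)) ≠ n) (s s' : ℝ) (hs : 0 < s)
    (hs' : s < 2 * Real.pi * K) (he : kX (z3 C X χ) s = kX (z2 C X χ) s')
    (ht : kT (z3 C X χ) s = kT (z2 C X χ) s') : False := by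
  obtain ⟨b1, b2⟩ := zb2_zs3 C X χ
  have hpi := Real.pi_pos
  have hx : (K : ℝ) * (C * zy C X χ) = j := by
    unfold zΘ at hΘ
    linarith
  rcases zb2_split h he ht with ⟨m, n, hm, hmn⟩ | ⟨m, n, hm, hmn⟩
  · have hm0 : 0 < m := by
      have h1 : (2 * Real.pi) * (0:ℝ) < 2 * Real.pi * m := by rw [← hm]; linarith
      have h2 : (0:ℝ) < m := lt_of_mul_lt_mul_left h1 (by positivity)
      exact_mod_cast h2
    have hmK : m < K := by
      have h1 : 2 * Real.pi * (m:ℝ) < 2 * Real.pi * K := by rw [← hm]; exact hs'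
      have h2 : (m:ℝ) < K := lt_of_mul_lt_mul_left h1 (by positivity)
      exact_mod_cast h2
    exact (arith_T hK hj hx hτ m _ hm0.le).1 hm0 hmK hmn
  · have hm0 : 0 ≤ m := by
      have h1 : (2 * Real.pi) * (-1:ℝ) < 2 * Real.pi * m := by linarith
      have h2 : (-1:ℝ) < m := lt_of_mul_lt_mul_left h1 (by positivity)
      have h3 : -1 < m := by exact_mod_cast h2
      omega
    exact (arith_T hK hj hx hτ m _ hm0).2 hmn

end

end Pool.Agent.HS

namespace Pool.Agent.HS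
open Set Filter Topology
open scoped ContDiff

theorem free_S {C : ℝ} {X : ℝ × ℝ} {χ j : ℝ} {K : ℕ} (h : ZG C X χ) (hC : 0 < C)
    (hj : j = 1 ∨ j = -1) (hK : 0 < K) (hX : zX C X χ ≠ 0) (hΞ : zΞ j C (K * C) X χ = 0)
    (hτ : 0 < j * zτ C X χ) (hτ' : C * |zτ C X χ| < kPer (z2 C X χ)) (s s' : ℝ) (hs : 0 < s)
    (hs' : s < 2 * Real.pi * K + zs3 C X χ) (he : kX (z3 C X χ) s = kX (z2 C X χ) s')
    (ht : kT (z3 C X χ) s = kT (z2 C X χ) s') : False :=
  @Pool.Agent.HS.free_S_pr C X χ j K h hC hj hK hX hΞ hτ hτ' s s' hs hs' he ht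

end Pool.Agent.HS

namespace Pool.Agent.HS
open Set Filter Topology
open scoped ContDiff

theorem free_T {C : ℝ} {X : ℝ × ℝ} {χ : ℝ} {j : ℤ} {K : ℕ} (h : ZG C X χ) (hC : 0 < C)
    (hK : 0 < K) (hj : IsCoprime j (K : ℤ)) (hX : zX C X χ ≠ 0) (hΘ : zΘ j C (K * C) X χ = 0)
    (hτ : ∀ n : ℤ, (K : ℝ) * (C * zτ C X χ / kPer (z2 C X χ)) ≠ n) (s s' : ℝ) (hs : 0 < s)
    (hs' : s < 2 * Real.pi * K) (he : kX (z3 C X χ) s = kX (z2 C X χ) s')
    (ht : kT (z3 C X χ) s = kT (z2 C X χ) s') : False :=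
  @Pool.Agent.HS.free_T_pr C X χ j K h hC hK hj hX hΘ hτ s s' hs hs' he ht

end Pool.Agent.HS
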