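import Pool.Agent.Lib_helper60.HSF.D_WZ
import Pool.Agent.Lib_helper60.HSF.Z_ZD2
import Pool.Agent.Lib_helper60.HSF.Z_ZD4
import Pool.Agent.Lib_helper60.HSF.K_KA1
import Pool.Agent.Lib_helper60.HSF.Z_ZN1
import Pool.Agent.Lib_helper60.HSF.Z_ZN2
import Pool.Agent.Lib_helper60.HSF.K_KC2
import Pool.Agent.Lib_helper60.HSF.Z_ZA1
import Pool.Agent.Lib_helper60.HSF.Z_ZT
import Pool.Agent.Lib_helper60.HSF.K_KD1

/-! # Project HS, part Z, block ZZ0: the generic arc -/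

namespace Pool.Agent.HS

noncomputable section

open Set Filter Topology
open scoped ContDiff

theorem zz0_lip {E : Type*} [NormedAddCommGroup E] [NormedSpace ℝ E] {f : ℝ × ℝ → E}
    {O U : Set (ℝ × ℝ)} (hO : IsCompact O) (hc : Convex ℝ O) (hU : IsOpen U) (hOU : O ⊆ U)
    (hf : ContDiffOn ℝ 2 f U) : ∃ L : ℝ, 0 ≤ L ∧ Lip L f O := by
  have h1 : ContinuousOn (fderiv ℝ f) U :=
    (hf.continuousOn_fderiv_of_isOpen hU (by norm_num))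
  obtain ⟨L, hL⟩ := hO.exists_bound_of_continuousOn (h1.mono hOU)
  refine ⟨max L 0, le_max_right _ _, fun x hx y hy => ?_⟩
  rw [dist_eq_norm]
  refine hc.norm_image_sub_le_of_norm_fderiv_le (𝕜 := ℝ) (f := f) (C := max L 0) ?_ ?_ hy hx
  · intro z hz
    exact (hf.contDiffAt (hU.mem_nhds (hOU hz))).differentiableAt (by norm_num)
  · intro z hz
    exact (hL z hz).trans (le_max_left _ _)

theorem zz0_lip_mono {α E : Type*} [PseudoMetricSpace α] [NormedAddCommGroup E] {f : α → E}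
    {O : Set α} {L L' : ℝ} (h : Lip L f O) (hL : L ≤ L') : Lip L' f O := fun x hx y hy =>
  (h x hx y hy).trans (mul_le_mul_of_nonneg_right hL dist_nonneg)

theorem zz0_open (C : ℝ) : IsOpen {p : (ℝ × ℝ) × ℝ | ZG C p.1 p.2} := by
  have h1 : Continuous (fun p : (ℝ × ℝ) × ℝ => ((C, p.1, p.2) : ℝ × (ℝ × ℝ) × ℝ)) := by
    fun_prop
  exact zS_open.preimage h1

theorem zz0_cd (C : ℝ) {E : Type*} [NormedAddCommGroup E] [NormedSpace ℝ E]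
    {f : ℝ × (ℝ × ℝ) × ℝ → E} (hf : ContDiffOn ℝ ∞ f ZS) {X : ℝ × ℝ} {χ : ℝ} (h : ZG C X χ) :
    ContDiffAt ℝ 2 (fun p : (ℝ × ℝ) × ℝ => f (C, p.1, p.2)) (X, χ) := by
  have h1 : ContDiffAt ℝ ∞ f (C, X, χ) := hf.contDiffAt (zS_open.mem_nhds h)
  have h2 : ContDiffAt ℝ 2 f (C, X, χ) := h1.of_le (by norm_cast)
  exact ContDiffAt.comp (f := fun p : (ℝ × ℝ) × ℝ => ((C, p.1, p.2) : ℝ × (ℝ × ℝ) × ℝ)) (X, χ) h2
    (by fun_prop)

/-- the position of body 2 at the time of body 3 -/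
theorem zz0_kep {C : ℝ} {X : ℝ × ℝ} {χ s s' : ℝ} (h : ZG C X χ)
    (ht : kT (z3 C X χ) s = kT (z2 C X χ) s') :
    kep (kT (z3 C X χ) s) (z2 C X χ) = kY (z2 C X χ) s' := by
  rw [ht, kep_kT h.e2]

theorem zarc_gen_pr (C : ℝ) (O U : Set (ℝ × ℝ)) (hO : IsCompact O) (hc : Convex ℝ O)
    (hU : IsOpen U) (hOU : O ⊆ U)
    (g : ℝ × ℝ → ℝ) (hg : ContDiffOn ℝ 2 g U) (hG : ∀ X ∈ U, ZG C X (g X))
    (s3 s2 : (ℝ × ℝ) × ℝ → ℝ) (hs3 : ContDiffOn ℝ 2 s3 {p | ZG C p.1 p.2})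
    (hs2 : ContDiffOn ℝ 2 s2 {p | ZG C p.1 p.2})
    (hX : ∀ X χ, ZG C X χ → kX (z3 C X χ) (s3 (X, χ)) = kX (z2 C X χ) (s2 (X, χ)))
    (hT : ∀ X ∈ U, kT (z3 C X (g X)) (s3 (X, g X)) = kT (z2 C X (g X)) (s2 (X, g X)))
    (hd : ∀ X ∈ U, deriv (fun χ => kT (z3 C X χ) (s3 (X, χ)) - kT (z2 C X χ) (s2 (X, χ))) (g X) ≠ 0)
    (hV : ∀ X ∈ U, cW' (kV (z3 C X (g X)) (s3 (X, g X))) (kV (z2 C X (g X)) (s2 (X, g X))) ≠ 0)
    (hs : ∀ X ∈ U, 0 < s3 (X, g X))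
    (hf : ∀ X ∈ U, ∀ s s', 0 < s → s < s3 (X, g X) →
      kX (z3 C X (g X)) s = kX (z2 C X (g X)) s' → kT (z3 C X (g X)) s ≠ kT (z2 C X (g X)) s')
    (F : ℝ × ℝ → ℝ × ℝ) (θ : ℝ × ℝ → ℝ) (hF : ContDiffOn ℝ 2 F U) (hθ : ContDiffOn ℝ 2 θ U)
    (hp : ∀ X ∈ U, rh / 2 < (chart C (F X)).1 ∧ |kap0 C (chart C (F X)) - kh| ≤ 1 / 10)
    (he : ∀ X ∈ U, ∃ ρ : ℂ, ‖ρ‖ = 1 ∧ 1/2 ≤ ρ.re ∧
      ((kX (z3 C X (g X)) (s3 (X, g X)), kX (z2 C X (g X)) (s2 (X, g X)),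
        kV (z3 C X (g X)) (s3 (X, g X)), kV (z2 C X (g X)) (s2 (X, g X))) : St) =
        rot ρ (colD (limD C (F X) (θ X)))) :
    ZArc 0 C O g (fun X => Real.sqrt (kA (z3 C X (g X))) * s3 (X, g X)) F θ := by
  have hGO : ∀ X ∈ O, ZG C X (g X) := fun X hX => hG X (hOU hX)
  -- the graph
  have hgr : ContDiffOn ℝ 2 (fun X : ℝ × ℝ => ((X, g X) : (ℝ × ℝ) × ℝ)) U :=
    contDiffOn_id.prodMk hg
  have hs3U : ContDiffOn ℝ 2 (fun X => s3 (X, g X)) U :=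
    hs3.comp hgr (fun X hX => hG X hX)
  have hAU : ContDiffOn ℝ 2 (fun X => kA (z3 C X (g X))) U := by
    intro X hX
    have h1 := zz0_cd C zS_time.2.2.2 (hG X hX)
    exact (ContDiffAt.comp_contDiffWithinAt (f := fun X : ℝ × ℝ => ((X, g X) : (ℝ × ℝ) × ℝ)) X h1
      (hgr X hX))
  have hA0 : ∀ X ∈ U, 0 < kA (z3 C X (g X)) := fun X hX => kA_pos (hG X hX).e3.1
  have hsq : ContDiffOn ℝ 2 (fun X => Real.sqrt (kA (z3 C X (g X)))) U :=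
    hAU.sqrt (fun X hX => (hA0 X hX).ne')
  have hτU : ContDiffOn ℝ 2 (fun X => Real.sqrt (kA (z3 C X (g X))) * s3 (X, g X)) U :=
    hsq.mul hs3U
  set τ0 : ℝ × ℝ → ℝ := fun X => Real.sqrt (kA (z3 C X (g X))) * s3 (X, g X) with hτ0
  have hτpos : ∀ X ∈ U, 0 < τ0 X := fun X hX =>
    mul_pos (Real.sqrt_pos.mpr (hA0 X hX)) (hs X hX)
  have hdiv : ∀ X ∈ U, τ0 X / Real.sqrt (kA (z3 C X (g X))) = s3 (X, g X) := by
    intro X hX
    have := Real.sqrt_pos.mpr (hA0 X hX)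
    rw [hτ0]
    field_simp
  -- continuity of the trajectory
  obtain ⟨t1, t2, t3⟩ := z_traj_smooth C
  have hτcO : ContinuousOn τ0 O := (hτU.continuousOn).mono hOU
  have hgcO : ContinuousOn g O := (hg.continuousOn).mono hOU
  have hzero : ∀ X ∈ O, lcX (Zd 0 (limD C X (g X)) (τ0 X)) = 0 := by
    intro X hXO
    have hXU := hOU hXO
    rw [(z_traj (hG X hXU) (τ0 X)).2.1, hdiv X hXU, zz0_kep (hG X hXU) (hT X hXU)]
    show kX (z3 C X (g X)) (s3 (X, g X)) - kX (z2 C X (g X)) (s2 (X, g X)) = 0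
    rw [hX X (g X) (hG X hXU), sub_self]
  refine ⟨hO, ?_, ?_, ?_, ?_, ?_, ?_, ?_, ?_⟩
  · -- Lipschitz constants
    obtain ⟨L1, -, h1⟩ := zz0_lip hO hc hU hOU hg
    obtain ⟨L2, -, h2⟩ := zz0_lip hO hc hU hOU hτU
    obtain ⟨L3, -, h3⟩ := zz0_lip hO hc hU hOU hF
    obtain ⟨L4, -, h4⟩ := zz0_lip hO hc hU hOU hθ
    refine ⟨max (max L1 L2) (max L3 L4), zz0_lip_mono h1 ?_, zz0_lip_mono h2 ?_,
      zz0_lip_mono h3 ?_, zz0_lip_mono h4 ?_⟩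
    · exact (le_max_left _ _).trans (le_max_left _ _)
    · exact (le_max_right _ _).trans (le_max_left _ _)
    · exact (le_max_left _ _).trans (le_max_right _ _)
    · exact (le_max_right _ _).trans (le_max_right _ _)
  · -- positivity
    intro X hXO
    have hXU := hOU hXO
    refine ⟨hτpos X hXU, (hG X hXU).r.1, ?_, hp X hXU⟩
    have := (hG X hXU).k
    change |kap0 C (chart C X) - kh| < 1 / 20 at this
    linarith
  · -- ellipticity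
    intro X hXO
    have hXU := hOU hXO
    have h1 := z_p C X (g X)
    have h2 : (x3 (colD (limD C X (g X))), u3 (colD (limD C X (g X)))) = z3 C X (g X) := h1.1
    have h3 : (x2 (colD (limD C X (g X))), u2 (colD (limD C X (g X)))) = z2 C X (g X) := h1.2
    rw [h2, h3]
    exact ⟨(hG X hXU).e3.1, (hG X hXU).e2.1⟩
  · -- no collision before the end
    intro X hXO τ hτ
    have hXU := hOU hXO
    have hZ := hG X hXU
    have hsA := Real.sqrt_pos.mpr (hA0 X hXU)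
    set s := τ / Real.sqrt (kA (z3 C X (g X))) with hsdef
    have hs0 : 0 < s := div_pos hτ.1 hsA
    have hs1 : s < s3 (X, g X) := by
      rw [hsdef, div_lt_iff₀ hsA, mul_comm]
      exact hτ.2
    rw [(z_traj hZ τ).2.1, ← hsdef]
    set s' := kS (z2 C X (g X)) (kT (z3 C X (g X)) s) with hs'
    have ht : kT (z3 C X (g X)) s = kT (z2 C X (g X)) s' := by
      rw [hs', kT_kS hZ.e2.1 (kL_ne hZ.e2.2)]
    rw [zz0_kep hZ ht]
    intro h0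
    have h1 : kX (z3 C X (g X)) s = kX (z2 C X (g X)) s' := sub_eq_zero.mp h0
    exact hf X hXU s s' hs0 hs1 h1 ht
  · -- the sun
    intro X hXO
    have hXU := hOU hXO
    rw [if_pos rfl]
    have h3 : (x2 (colD (limD C X (g X))), u2 (colD (limD C X (g X)))) = z2 C X (g X) :=
      (z_p C X (g X)).2
    rw [h3]
    exact (hG X hXU).e2.2
  · -- the middle
    rcases O.eq_empty_or_nonempty with hemp | hne
    · refine ⟨1, 0, fun _ => 0, one_pos, ?_, ?_⟩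
      · intro x hx
        rw [hemp] at hx
        exact absurd hx (notMem_empty x)
      · intro x hx
        rw [hemp] at hx
        exact absurd hx (notMem_empty x)
    · have hτm : ContDiffOn ℝ 2 (fun X => τ0 X / 2) U := hτU.div_const 2
      obtain ⟨L, -, hL⟩ := zz0_lip hO hc hU hOU hτm
      have hmap : ContinuousOn (fun X : ℝ × ℝ => ((X, g X, τ0 X / 2) : (ℝ × ℝ) × ℝ × ℝ)) O :=
        continuousOn_id.prodMk (hgcO.prodMk (hτcO.div_const 2))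
      have hcont : ContinuousOn (fun X => ‖(Zd 0 (limD C X (g X)) (τ0 X / 2)).1‖) O :=
        (t2.continuousOn.comp hmap (fun X hX => hGO X hX)).norm
      obtain ⟨X1, hX1, hmin1⟩ := hO.exists_isMinOn hne hcont
      obtain ⟨X2, hX2, hmin2⟩ := hO.exists_isMinOn hne (hτcO.div_const 2)
      have hpos1 : 0 < ‖(Zd 0 (limD C X1 (g X1)) (τ0 X1 / 2)).1‖ :=
        norm_pos_iff.mpr (z_traj (hGO X1 hX1) _).1
      have hpos2 : 0 < τ0 X2 / 2 := half_pos (hτpos X2 (hOU hX2))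
      refine ⟨min (‖(Zd 0 (limD C X1 (g X1)) (τ0 X1 / 2)).1‖) (τ0 X2 / 2), L,
        fun X => τ0 X / 2, lt_min hpos1 hpos2, hL, ?_⟩
      intro X hXO
      have m1 : ‖(Zd 0 (limD C X1 (g X1)) (τ0 X1 / 2)).1‖ ≤
          ‖(Zd 0 (limD C X (g X)) (τ0 X / 2)).1‖ := hmin1 hXO
      have m2 : τ0 X2 / 2 ≤ τ0 X / 2 := hmin2 hXO
      refine ⟨(min_le_right _ _).trans m2, ?_, (min_le_left _ _).trans m1⟩
      have := min_le_right (‖(Zd 0 (limD C X1 (g X1)) (τ0 X1 / 2)).1‖) (τ0 X2 / 2)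
      linarith
  · -- the end
    intro X hXO
    have hXU := hOU hXO
    obtain ⟨ρ, hρ, hρ', hρe⟩ := he X hXU
    refine ⟨ρ, hρ, hρ', ?_⟩
    rw [(z_traj (hG X hXU) (τ0 X)).2.2, hdiv X hXU, zz0_kep (hG X hXU) (hT X hXU), ← hρe]
    rfl
  · -- transversality
    refine nondeg_compact (fun p => lcX (Zd 0 (limD C p.1 p.2.1) p.2.2))
      {p : (ℝ × ℝ) × ℝ × ℝ | ZG C p.1 p.2.1} t3 (t1.of_le (by norm_cast)) O hO g τ0
      hgcO hτcO (fun X hX => hGO X hX) hzero ?_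
    intro X hXO
    have hXU := hOU hXO
    have hZ := hG X hXU
    have hline : ContDiffAt ℝ 2 (fun χ : ℝ => ((X, χ) : (ℝ × ℝ) × ℝ)) (g X) := by fun_prop
    have hev : ∀ᶠ χ in 𝓝 (g X), ZG C X χ := by
      have h1 : ContinuousAt (fun χ : ℝ => ((X, χ) : (ℝ × ℝ) × ℝ)) (g X) := by fun_prop
      exact h1.eventually_mem ((zz0_open C).mem_nhds hZ)
    have hy : ContDiffAt ℝ 2 (fun χ => z3 C X χ) (g X) :=
      ContDiffAt.comp (f := fun χ : ℝ => ((X, χ) : (ℝ × ℝ) × ℝ)) (g X)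
        (zz0_cd C zS_states.1 hZ) hline
    have hy' : ContDiffAt ℝ 2 (fun χ => z2 C X χ) (g X) :=
      ContDiffAt.comp (f := fun χ : ℝ => ((X, χ) : (ℝ × ℝ) × ℝ)) (g X)
        (zz0_cd C zS_states.2.1 hZ) hline
    have hsa : ContDiffAt ℝ 2 (fun χ => s3 (X, χ)) (g X) :=
      ContDiffAt.comp (f := fun χ : ℝ => ((X, χ) : (ℝ × ℝ) × ℝ)) (g X)
        (hs3.contDiffAt ((zz0_open C).mem_nhds hZ)) hline
    have hsb : ContDiffAt ℝ 2 (fun χ => s2 (X, χ)) (g X) :=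
      ContDiffAt.comp (f := fun χ : ℝ => ((X, χ) : (ℝ × ℝ) × ℝ)) (g X)
        (hs2.contDiffAt ((zz0_open C).mem_nhds hZ)) hline
    have hnd := nondeg_det (fun χ => z3 C X χ) (fun χ => z2 C X χ) (fun χ => s3 (X, χ))
      (fun χ => s2 (X, χ)) (g X) hy hy' hsa hsb (hev.mono fun χ h => ⟨h.e3, h.e2⟩)
      (hev.mono fun χ h => hX X χ h) (hT X hXU) (hd X hXU) (hV X hXU)
    have hnd2 := hnd.2
    have e1 : deriv (fun χ => lcX (Zd 0 (limD C X χ) (τ0 X))) (g X) =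
        deriv (fun χ => kX (z3 C X χ) (τ0 X / Real.sqrt (kA (z3 C X χ))) -
          (kep (kT (z3 C X χ) (τ0 X / Real.sqrt (kA (z3 C X χ)))) (z2 C X χ)).1) (g X) := by
      refine Filter.EventuallyEq.deriv_eq ?_
      filter_upwards [hev] with χ hχ
      exact (z_traj hχ (τ0 X)).2.1
    have e2 : (fun τ => lcX (Zd 0 (limD C X (g X)) τ)) =
        fun τ => kX (z3 C X (g X)) (τ / Real.sqrt (kA (z3 C X (g X)))) -
          (kep (kT (z3 C X (g X)) (τ / Real.sqrt (kA (z3 C X (g X))))) (z2 C X (g X))).1 := by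
      funext τ
      exact (z_traj hZ τ).2.1
    simp only [e1, e2]
    exact hnd2

end

end Pool.Agent.HS

namespace Pool.Agent.HS
open Set Filter Topology
open scoped ContDiff

theorem zarc_gen (C : ℝ) (O U : Set (ℝ × ℝ)) (hO : IsCompact O) (hc : Convex ℝ O)
    (hU : IsOpen U) (hOU : O ⊆ U)
    (g : ℝ × ℝ → ℝ) (hg : ContDiffOn ℝ 2 g U) (hG : ∀ X ∈ U, ZG C X (g X))
    (s3 s2 : (ℝ × ℝ) × ℝ → ℝ) (hs3 : ContDiffOn ℝ 2 s3 {p | ZG C p.1 p.2})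
    (hs2 : ContDiffOn ℝ 2 s2 {p | ZG C p.1 p.2})
    (hX : ∀ X χ, ZG C X χ → kX (z3 C X χ) (s3 (X, χ)) = kX (z2 C X χ) (s2 (X, χ)))
    (hT : ∀ X ∈ U, kT (z3 C X (g X)) (s3 (X, g X)) = kT (z2 C X (g X)) (s2 (X, g X)))
    (hd : ∀ X ∈ U, deriv (fun χ => kT (z3 C X χ) (s3 (X, χ)) - kT (z2 C X χ) (s2 (X, χ))) (g X) ≠ 0)
    (hV : ∀ X ∈ U, cW' (kV (z3 C X (g X)) (s3 (X, g X))) (kV (z2 C X (g X)) (s2 (X, g X))) ≠ 0)
    (hs : ∀ X ∈ U, 0 < s3 (X, g X))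
    (hf : ∀ X ∈ U, ∀ s s', 0 < s → s < s3 (X, g X) →
      kX (z3 C X (g X)) s = kX (z2 C X (g X)) s' → kT (z3 C X (g X)) s ≠ kT (z2 C X (g X)) s')
    (F : ℝ × ℝ → ℝ × ℝ) (θ : ℝ × ℝ → ℝ) (hF : ContDiffOn ℝ 2 F U) (hθ : ContDiffOn ℝ 2 θ U)
    (hp : ∀ X ∈ U, rh / 2 < (chart C (F X)).1 ∧ |kap0 C (chart C (F X)) - kh| ≤ 1 / 10)
    (he : ∀ X ∈ U, ∃ ρ : ℂ, ‖ρ‖ = 1 ∧ 1/2 ≤ ρ.re ∧
      ((kX (z3 C X (g X)) (s3 (X, g X)), kX (z2 C X (g X)) (s2 (X, g X)),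
        kV (z3 C X (g X)) (s3 (X, g X)), kV (z2 C X (g X)) (s2 (X, g X))) : St) =
        rot ρ (colD (limD C (F X) (θ X)))) :
    ZArc 0 C O g (fun X => Real.sqrt (kA (z3 C X (g X))) * s3 (X, g X)) F θ :=
  @Pool.Agent.HS.zarc_gen_pr C O U hO hc hU hOU g hg hG s3 s2 hs3 hs2 hX hT hd hV hs hf F θ hF hθ hp he

end Pool.Agent.HS
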