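import Pool.Agent.Lib_helper60.HSF.D_WZ
import Pool.Agent.Lib_helper60.HSF.Z_ZD2
import Pool.Agent.Lib_helper60.HSF.Z_ZB2
import Pool.Agent.Lib_helper60.HSF.K_KA1
import Pool.Agent.Lib_helper60.HSF.Z_ZD4
import Pool.Agent.Lib_helper60.HSF.Z_ZA5
import Pool.Agent.Lib_helper60.HSF.Z_ZA4
import Pool.Agent.Lib_helper60.HSF.Z_ZZ0
import Pool.Agent.Lib_helper60.HSF.K_KB2
import Pool.Agent.Lib_helper60.HSF.Z_ZA1
import Pool.Agent.Lib_helper60.HSF.Z_ZD3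
import Pool.Agent.Lib_helper60.HSF.Z_ZA6
import Pool.Agent.Lib_helper60.HSF.Z_ZA3

/-!
# Project HS, part Z, block ZZ1: arcs of type S and T at fixed C
-/

namespace Pool.Agent.HS

noncomputable section

open Set Filter Topology
open scoped ContDiff

theorem zz1_kX_per (y : KS) (s : ℝ) (n : ℤ) : kX y (s + 2 * Real.pi * n) = kX y s :=
  congrArg Prod.fst (kY_per y s n)

theorem zz1_kV_per (y : KS) (s : ℝ) (n : ℤ) : kV y (s + 2 * Real.pi * n) = kV y s :=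
  congrArg Prod.snd (kY_per y s n)

theorem zz1_map (C : ℝ) : ContDiff ℝ ∞ (fun p : (ℝ × ℝ) × ℝ => ((C, p.1, p.2) : ℝ × (ℝ × ℝ) × ℝ)) := by
  fun_prop

/-- restriction to fixed `C` -/
theorem zz1_fix {E : Type*} [NormedAddCommGroup E] [NormedSpace ℝ E] (C : ℝ)
    {f : ℝ × (ℝ × ℝ) × ℝ → E} (hf : ContDiffOn ℝ ∞ f ZS) :
    ContDiffOn ℝ 2 (fun p : (ℝ × ℝ) × ℝ => f (C, p.1, p.2)) {p | ZG C p.1 p.2} := by
  have h : ContDiffOn ℝ ∞ (fun p : (ℝ × ℝ) × ℝ => f (C, p.1, p.2)) {p | ZG C p.1 p.2} :=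
    hf.comp (zz1_map C).contDiffOn (fun p hp => hp)
  exact h.of_le (by norm_cast)

/-- restriction to the graph of `g` -/
theorem zz1_graph {E : Type*} [NormedAddCommGroup E] [NormedSpace ℝ E] {C : ℝ}
    {f : ℝ × (ℝ × ℝ) × ℝ → E} (hf : ContDiffOn ℝ ∞ f ZS) {U : Set (ℝ × ℝ)} {g : ℝ × ℝ → ℝ}
    (hg : ContDiffOn ℝ 2 g U) (hG : ∀ X ∈ U, ZG C X (g X)) :
    ContDiffOn ℝ 2 (fun X : ℝ × ℝ => f (C, X, g X)) U := by
  have h1 : ContDiffOn ℝ 2 (fun X : ℝ × ℝ => ((X, g X) : (ℝ × ℝ) × ℝ)) U :=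
    contDiffOn_id.prodMk hg
  exact (zz1_fix C hf).comp h1 (fun X hX => hG X hX)

theorem zz1_open (C : ℝ) : IsOpen {p : (ℝ × ℝ) × ℝ | ZG C p.1 p.2} :=
  zS_open.preimage (zz1_map C).continuous

theorem zz1_open' (C : ℝ) (X : ℝ × ℝ) : IsOpen {χ : ℝ | ZG C X χ} := by
  have h : Continuous (fun χ : ℝ => ((C, X, χ) : ℝ × (ℝ × ℝ) × ℝ)) := by fun_prop
  exact zS_open.preimage h

/-- differentiability in `χ` -/
theorem zz1_diff {C : ℝ} {X : ℝ × ℝ} {χ : ℝ} (h : ZG C X χ)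
    {f : ℝ × (ℝ × ℝ) × ℝ → ℝ} (hf : ContDiffOn ℝ ∞ f ZS) :
    DifferentiableAt ℝ (fun χ => f (C, X, χ)) χ := by
  have h1 : ContDiffAt ℝ ∞ f (C, X, χ) := hf.contDiffAt (zS_open.mem_nhds h)
  have h2 : ContDiffAt ℝ ∞ (fun χ : ℝ => ((C, X, χ) : ℝ × (ℝ × ℝ) × ℝ)) χ := by fun_prop
  exact (ContDiffAt.comp χ h1 h2).differentiableAt (by simp)

theorem zz1_per_diff {C : ℝ} {X : ℝ × ℝ} {χ : ℝ} (h : ZG C X χ) :
    DifferentiableAt ℝ (fun χ => kPer (z2 C X χ)) χ :=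
  zz1_diff h zS_time.2.2.1

theorem zz1_eq_diff {C : ℝ} {X : ℝ × ℝ} {χ : ℝ} (h : ZG C X χ) (j ν : ℝ) :
    DifferentiableAt ℝ (fun χ => zΞ j C ν X χ) χ ∧ DifferentiableAt ℝ (fun χ => zΘ j C ν X χ) χ := by
  have ho : IsOpen {q : ℝ × ℝ × (ℝ × ℝ) × ℝ | (q.1, q.2.2.1, q.2.2.2) ∈ ZS} := by
    have h : Continuous (fun q : ℝ × ℝ × (ℝ × ℝ) × ℝ =>
      ((q.1, q.2.2.1, q.2.2.2) : ℝ × (ℝ × ℝ) × ℝ)) := by fun_prop
    exact zS_open.preimage h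
  have hm : ((C, ν, X, χ) : ℝ × ℝ × (ℝ × ℝ) × ℝ) ∈
      {q : ℝ × ℝ × (ℝ × ℝ) × ℝ | (q.1, q.2.2.1, q.2.2.2) ∈ ZS} := h
  have h2 : ContDiffAt ℝ ∞ (fun χ : ℝ => ((C, ν, X, χ) : ℝ × ℝ × (ℝ × ℝ) × ℝ)) χ := by fun_prop
  have h1 := ((zΞ_smooth j).1).contDiffAt (ho.mem_nhds hm)
  have h1' := ((zΞ_smooth j).2).contDiffAt (ho.mem_nhds hm)
  have h3 : ContDiffAt ℝ ∞ (fun χ : ℝ => zΞ j C ν X χ) χ :=
    ContDiffAt.comp (g := fun q : ℝ × ℝ × (ℝ × ℝ) × ℝ => zΞ j q.1 q.2.1 q.2.2.1 q.2.2.2) χ h1 h2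
  have h3' : ContDiffAt ℝ ∞ (fun χ : ℝ => zΘ j C ν X χ) χ :=
    ContDiffAt.comp (g := fun q : ℝ × ℝ × (ℝ × ℝ) × ℝ => zΘ j q.1 q.2.1 q.2.2.1 q.2.2.2) χ h1' h2
  exact ⟨h3.differentiableAt (by simp), h3'.differentiableAt (by simp)⟩

/-- times at the anomalies plus full turns -/
theorem zz1_kT {j : ℝ} (n : ℤ) (hn : (n : ℝ) = j) (K : ℕ) (y y' : KS) (s s' : ℝ) :
    kT y (2 * Real.pi * K + s) - kT y' (2 * Real.pi * (2 * K + j) + s') =
      K * kPer y + kT y s - ((2 * K + j) * kPer y' + kT y' s') := by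
  have h1 : 2 * Real.pi * K + s = s + 2 * Real.pi * ((K : ℤ) : ℝ) := by push_cast; ring
  have h2 : 2 * Real.pi * (2 * K + j) + s' = s' + 2 * Real.pi * ((2 * (K : ℤ) + n : ℤ) : ℝ) := by
    push_cast; rw [hn]; ring
  rw [h1, h2, kT_per, kT_per]
  push_cast
  rw [hn]
  ring

theorem zz1_kXV {j : ℝ} (n : ℤ) (hn : (n : ℝ) = j) (K : ℕ) (y y' : KS) (s s' : ℝ) :
    kX y (2 * Real.pi * K + s) = kX y s ∧ kV y (2 * Real.pi * K + s) = kV y s ∧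
    kX y' (2 * Real.pi * (2 * K + j) + s') = kX y' s' ∧
    kV y' (2 * Real.pi * (2 * K + j) + s') = kV y' s' := by
  have h1 : 2 * Real.pi * K + s = s + 2 * Real.pi * ((K : ℤ) : ℝ) := by push_cast; ring
  have h2 : 2 * Real.pi * (2 * K + j) + s' = s' + 2 * Real.pi * ((2 * (K : ℤ) + n : ℤ) : ℝ) := by
    push_cast; rw [hn]; ring
  rw [h1, h2]
  exact ⟨zz1_kX_per _ _ _, zz1_kV_per _ _ _, zz1_kX_per _ _ _, zz1_kV_per _ _ _⟩

/-- the derivative of a product at a zero of the second factor -/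
theorem zz1_deriv {a b c : ℝ → ℝ} {x : ℝ} (ha : DifferentiableAt ℝ a x)
    (hb : DifferentiableAt ℝ b x) (hab : c =ᶠ[𝓝 x] fun t => a t * b t) (ha0 : a x ≠ 0)
    (hb0 : b x = 0) (hb' : deriv b x ≠ 0) : deriv c x ≠ 0 := by
  rw [hab.deriv_eq, deriv_fun_mul ha hb, hb0]
  simp only [mul_zero, zero_add]
  exact mul_ne_zero ha0 hb'

theorem zz1_int {j : ℝ} (hj : j = 1 ∨ j = -1) : ∃ n : ℤ, (n : ℝ) = j := by
  rcases hj with h | h
  · exact ⟨1, by rw [h]; norm_num⟩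
  · exact ⟨-1, by rw [h]; norm_num⟩

theorem sarc_fix_pr (C : ℝ) (hC : 0 < C) (K : ℕ) (hK : 0 < K) (j : ℝ) (hj : j = 1 ∨ j = -1)
    (O U : Set (ℝ × ℝ)) (hO : IsCompact O) (hc : Convex ℝ O) (hU : IsOpen U) (hOU : O ⊆ U)
    (g : ℝ × ℝ → ℝ) (hg : ContDiffOn ℝ 2 g U) (hG : ∀ X ∈ U, ZG C X (g X))
    (hΞ : ∀ X ∈ U, zΞ j C (K * C) X (g X) = 0) (hX : ∀ X ∈ U, zX C X (g X) ≠ 0)
    (hτ : ∀ X ∈ U, 0 < j * zτ C X (g X) ∧ C * |zτ C X (g X)| < kPer (z2 C X (g X)))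
    (hd : ∀ X ∈ U, deriv (fun χ => zΞ j C (K * C) X χ) (g X) ≠ 0) :
    ZArc 0 C O g
      (fun X => Real.sqrt (kA (z3 C X (g X))) * (2 * Real.pi * K + zs3 C X (g X)))
      (fun X => zF C X (g X)) (fun X => zθ C X (g X)) := by
  obtain ⟨n, hn⟩ := zz1_int hj
  have hgeo := zS_geom
  have hkey : ∀ X χ, ZG C X χ →
      kT (z3 C X χ) (2 * Real.pi * K + zs3 C X χ) -
        kT (z2 C X χ) (2 * Real.pi * (2 * K + j) + zs2 C X χ) =
      kPer (z2 C X χ) * zΞ j C (K * C) X χ := by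
    intro X χ h
    rw [zz1_kT n hn, (z_time h K j).1]
  refine zarc_gen C O U hO hc hU hOU g hg hG
    (fun p => 2 * Real.pi * K + zs3 C p.1 p.2)
    (fun p => 2 * Real.pi * (2 * K + j) + zs2 C p.1 p.2) ?_ ?_ ?_ ?_ ?_ ?_ ?_ ?_
    (fun X => zF C X (g X)) (fun X => zθ C X (g X)) ?_ ?_ ?_ ?_
  · exact contDiffOn_const.add (zz1_fix C hgeo.1)
  · exact contDiffOn_const.add (zz1_fix C hgeo.2.1)
  · intro X χ h
    obtain ⟨e1, -, e2, -⟩ := zz1_kXV n hn K (z3 C X χ) (z2 C X χ) (zs3 C X χ) (zs2 C X χ)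
    simp only
    rw [e1, e2, (z_B h).2.1, (z_B h).2.2]
  · intro X hXU
    have h := hkey X (g X) (hG X hXU)
    rw [hΞ X hXU, mul_zero] at h
    exact sub_eq_zero.mp h
  · intro X hXU
    have h := hG X hXU
    refine zz1_deriv (zz1_per_diff h) (zz1_eq_diff h j (K * C)).1 ?_ (z_per h).2.1.ne' (hΞ X hXU)
      (hd X hXU)
    filter_upwards [(zz1_open' C X).mem_nhds h] with χ hχ
    exact hkey X χ hχ
  · intro X hXU
    have h := hG X hXU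
    obtain ⟨-, e1, -, e2⟩ := zz1_kXV n hn K (z3 C X (g X)) (z2 C X (g X)) (zs3 C X (g X))
      (zs2 C X (g X))
    simp only
    rw [e1, e2]
    exact (z_trans h hC.ne' (hX X hXU)).2.2
  · intro X hXU
    have h1 : -(Real.pi / 2) < Real.arctan (C * zW3 C X (g X)) := Real.neg_pi_div_two_lt_arctan _
    have h2 : (1 : ℝ) ≤ K := by exact_mod_cast hK
    have h3 := Real.pi_pos
    simp only [zs3]
    nlinarith
  · intro X hXU s s' hs hs' he ht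
    exact free_S (hG X hXU) hC hj hK (hX X hXU) (hΞ X hXU) (hτ X hXU).1 (hτ X hXU).2 s s' hs hs'
      he ht
  · exact zz1_graph hgeo.2.2.2.2.1 hg hG
  · exact zz1_graph hgeo.2.2.2.2.2 hg hG
  · intro X hXU
    have h := hG X hXU
    have h1 := (z_end h hC.ne').2.1
    have h2 := h.F.2.1
    constructor
    · have h3 : (chart C (zF C X (g X))).1 = ‖zB C X (g X)‖ := h1
      rw [h3]
      exact h.B.2.1
    · have h3 : |kap0 C (chart C (zF C X (g X))) - kh| < 1 / 20 := h2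
      linarith
  · intro X hXU
    have h := hG X hXU
    obtain ⟨e1, e2, e3, e4⟩ := zz1_kXV n hn K (z3 C X (g X)) (z2 C X (g X)) (zs3 C X (g X))
      (zs2 C X (g X))
    refine ⟨zBh C X (g X), (z_end h hC.ne').1, h.B.1.le, ?_⟩
    simp only
    rw [e1, e2, e3, e4, (z_B h).2.1, (z_B h).2.2]
    exact z_fin h hC

theorem tarc_fix_pr (C : ℝ) (hC : 0 < C) (K : ℕ) (hK : 0 < K) (j : ℤ) (hj : IsCoprime j (K : ℤ))
    (O U : Set (ℝ × ℝ)) (hO : IsCompact O) (hc : Convex ℝ O) (hU : IsOpen U) (hOU : O ⊆ U)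
    (g : ℝ × ℝ → ℝ) (hg : ContDiffOn ℝ 2 g U) (hG : ∀ X ∈ U, ZG C X (g X))
    (hΘ : ∀ X ∈ U, zΘ j C (K * C) X (g X) = 0) (hX : ∀ X ∈ U, zX C X (g X) ≠ 0)
    (hτ : ∀ X ∈ U, ∀ n : ℤ, (K : ℝ) * (C * zτ C X (g X) / kPer (z2 C X (g X))) ≠ n)
    (hd : ∀ X ∈ U, deriv (fun χ => zΘ j C (K * C) X χ) (g X) ≠ 0) :
    ZArc 0 C O g (fun X => Real.sqrt (kA (z3 C X (g X))) * (2 * Real.pi * K)) id g := by
  have h0 : ∀ X χ, ZG C X χ → kX (z3 C X χ) 0 = zr C X ∧ kX (z2 C X χ) 0 = zr C X ∧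
      kV (z3 C X χ) 0 = (z3 C X χ).2 ∧ kV (z2 C X χ) 0 = (z2 C X χ).2 := by
    intro X χ h
    have h3 := kY_zero h.e3
    have h2 := kY_zero h.e2
    refine ⟨congrArg Prod.fst h3, congrArg Prod.fst h2, congrArg Prod.snd h3,
      congrArg Prod.snd h2⟩
  have h0T : ∀ y : KS, kT y 0 = 0 := by
    intro y
    simp [kT]
  have hkey : ∀ X χ, ZG C X χ →
      kT (z3 C X χ) (2 * Real.pi * K + 0) - kT (z2 C X χ) (2 * Real.pi * (2 * K + (j : ℝ)) + 0) =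
      kPer (z2 C X χ) * zΘ j C (K * C) X χ := by
    intro X χ h
    rw [zz1_kT j rfl, h0T, h0T, add_zero, add_zero, (z_time h K j).2]
  have hmain := zarc_gen C O U hO hc hU hOU g hg hG
    (fun _ => 2 * Real.pi * K + 0)
    (fun _ => 2 * Real.pi * (2 * K + (j : ℝ)) + 0) contDiffOn_const contDiffOn_const
    (fun X χ h => by
      obtain ⟨e1, -, e2, -⟩ := zz1_kXV j rfl K (z3 C X χ) (z2 C X χ) 0 0
      rw [e1, e2, (h0 X χ h).1, (h0 X χ h).2.1])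
    (fun X hXU => by
      have h := hkey X (g X) (hG X hXU)
      rw [hΘ X hXU, mul_zero] at h
      exact sub_eq_zero.mp h)
    (fun X hXU => by
      have h := hG X hXU
      refine zz1_deriv (zz1_per_diff h) (zz1_eq_diff h j (K * C)).2 ?_ (z_per h).2.1.ne'
        (hΘ X hXU) (hd X hXU)
      filter_upwards [(zz1_open' C X).mem_nhds h] with χ hχ
      exact hkey X χ hχ)
    (fun X hXU => by
      have h := hG X hXU
      obtain ⟨-, e1, -, e2⟩ := zz1_kXV j rfl K (z3 C X (g X)) (z2 C X (g X)) 0 0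
      rw [e1, e2, (h0 X (g X) h).2.2.1, (h0 X (g X) h).2.2.2]
      exact (z_trans h hC.ne' (hX X hXU)).2.1)
    (fun X hXU => by
      have h2 : (0 : ℝ) < K := by exact_mod_cast hK
      have h3 := Real.pi_pos
      simp only [add_zero]
      positivity)
    (fun X hXU s s' hs hs' he ht => by
      simp only [add_zero] at hs'
      exact free_T (hG X hXU) hC hK hj (hX X hXU) (hΘ X hXU) (hτ X hXU) s s' hs hs' he ht)
    id g contDiffOn_id hg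
    (fun X hXU => by
      have h := hG X hXU
      refine ⟨h.r.1, ?_⟩
      have h3 : |kap0 C (chart C X) - kh| < 1 / 20 := h.k
      simp only [id]
      linarith)
    (fun X hXU => by
      have h := hG X hXU
      obtain ⟨e1, e2, e3, e4⟩ := zz1_kXV j rfl K (z3 C X (g X)) (z2 C X (g X)) 0 0
      obtain ⟨f1, f2, f3, f4⟩ := h0 X (g X) h
      refine ⟨1, norm_one, by norm_num, ?_⟩
      rw [e1, e2, e3, e4, f1, f2, f3, f4]
      obtain ⟨p3e, p2e⟩ := z_p C X (g X)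
      have q1 : x3 (colD (limD C X (g X))) = zr C X := by
        have := congrArg Prod.fst p3e
        exact this
      have q2 : u3 (colD (limD C X (g X))) = (z3 C X (g X)).2 := by
        have := congrArg Prod.snd p3e
        exact this
      have q3 : x2 (colD (limD C X (g X))) = zr C X := by
        have := congrArg Prod.fst p2e
        exact this
      have q4 : u2 (colD (limD C X (g X))) = (z2 C X (g X)).2 := by
        have := congrArg Prod.snd p2e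
        exact this
      simp only [rot, one_mul, id]
      rw [q1, q2, q3, q4])
  simpa only [add_zero] using hmain

end

end Pool.Agent.HS

namespace Pool.Agent.HS
open Set Filter Topology
open scoped ContDiff

theorem sarc_fix (C : ℝ) (hC : 0 < C) (K : ℕ) (hK : 0 < K) (j : ℝ) (hj : j = 1 ∨ j = -1)
    (O U : Set (ℝ × ℝ)) (hO : IsCompact O) (hc : Convex ℝ O) (hU : IsOpen U) (hOU : O ⊆ U)
    (g : ℝ × ℝ → ℝ) (hg : ContDiffOn ℝ 2 g U) (hG : ∀ X ∈ U, ZG C X (g X))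
    (hΞ : ∀ X ∈ U, zΞ j C (K * C) X (g X) = 0) (hX : ∀ X ∈ U, zX C X (g X) ≠ 0)
    (hτ : ∀ X ∈ U, 0 < j * zτ C X (g X) ∧ C * |zτ C X (g X)| < kPer (z2 C X (g X)))
    (hd : ∀ X ∈ U, deriv (fun χ => zΞ j C (K * C) X χ) (g X) ≠ 0) :
    ZArc 0 C O g
      (fun X => Real.sqrt (kA (z3 C X (g X))) * (2 * Real.pi * K + zs3 C X (g X)))
      (fun X => zF C X (g X)) (fun X => zθ C X (g X)) :=
  @Pool.Agent.HS.sarc_fix_pr C hC K hK j hj O U hO hc hU hOU g hg hG hΞ hX hτ hd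

end Pool.Agent.HS

namespace Pool.Agent.HS
open Set Filter Topology
open scoped ContDiff

theorem tarc_fix (C : ℝ) (hC : 0 < C) (K : ℕ) (hK : 0 < K) (j : ℤ) (hj : IsCoprime j (K : ℤ))
    (O U : Set (ℝ × ℝ)) (hO : IsCompact O) (hc : Convex ℝ O) (hU : IsOpen U) (hOU : O ⊆ U)
    (g : ℝ × ℝ → ℝ) (hg : ContDiffOn ℝ 2 g U) (hG : ∀ X ∈ U, ZG C X (g X))
    (hΘ : ∀ X ∈ U, zΘ j C (K * C) X (g X) = 0) (hX : ∀ X ∈ U, zX C X (g X) ≠ 0)
    (hτ : ∀ X ∈ U, ∀ n : ℤ, (K : ℝ) * (C * zτ C X (g X) / kPer (z2 C X (g X))) ≠ n)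
    (hd : ∀ X ∈ U, deriv (fun χ => zΘ j C (K * C) X χ) (g X) ≠ 0) :
    ZArc 0 C O g (fun X => Real.sqrt (kA (z3 C X (g X))) * (2 * Real.pi * K)) id g :=
  @Pool.Agent.HS.tarc_fix_pr C hC K hK j hj O U hO hc hU hOU g hg hG hΘ hX hτ hd

end Pool.Agent.HS
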