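import Pool.Agent.Lib_helper60.HSF.D_WZ
import Pool.Agent.Lib_helper60.HSF.Z_ZD2
import Pool.Agent.Lib_helper60.HSF.Z_ZD4
import Pool.Agent.Lib_helper60.HSF.Z_ZZ1
import Pool.Agent.Lib_helper60.HSF.Z_ZM2
import Pool.Agent.Lib_helper60.HSF.Z_ZE
import Pool.Agent.Lib_helper60.HSF.Z_ZC
import Pool.Agent.Lib_helper60.HSF.Z_ZM1
import Pool.Agent.Lib_helper60.HSF.Z_ZA3

/-!
# Project HS, part Z, block ZZ2: arcs of type S and T near C = 0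
-/

namespace Pool.Agent.HS

noncomputable section

open Set Filter Topology
open scoped ContDiff

/-- the domain of the equations -/
def zz2_S : Set (ℝ × ℝ × (ℝ × ℝ) × ℝ) := {q | (q.1, q.2.2.1, q.2.2.2) ∈ ZS}

theorem zz2_S_open : IsOpen zz2_S := by
  have h : Continuous (fun q : ℝ × ℝ × (ℝ × ℝ) × ℝ =>
    ((q.1, q.2.2.1, q.2.2.2) : ℝ × (ℝ × ℝ) × ℝ)) := by fun_prop
  exact zS_open.preimage h

theorem zz2_lift {f : ℝ × (ℝ × ℝ) × ℝ → ℝ} (hf : ContDiffOn ℝ ∞ f ZS) :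
    ContinuousOn (fun q : ℝ × ℝ × (ℝ × ℝ) × ℝ => f (q.1, q.2.2.1, q.2.2.2)) zz2_S := by
  have h : Continuous (fun q : ℝ × ℝ × (ℝ × ℝ) × ℝ =>
    ((q.1, q.2.2.1, q.2.2.2) : ℝ × (ℝ × ℝ) × ℝ)) := by fun_prop
  exact hf.continuousOn.comp h.continuousOn (fun q hq => hq)

/-- implicit function with open side conditions -/
theorem zz2_ift (f : ℝ × ℝ × (ℝ × ℝ) × ℝ → ℝ) (hf : ContDiffOn ℝ ∞ f zz2_S)
    (W : Set (ℝ × ℝ × (ℝ × ℝ) × ℝ)) (hW : IsOpen W) (hWS : W ⊆ zz2_S)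
    (νs χs : ℝ) (Xs : ℝ × ℝ) (hm : (0, νs, Xs, χs) ∈ W) (hz : f (0, νs, Xs, χs) = 0)
    (d : ℝ) (hd : d ≠ 0) (hder : HasDerivAt (fun χ => f (0, νs, Xs, χ)) d χs)
    (δ : ℝ) (hδ : 0 < δ) :
    ∃ r : ℝ, 0 < r ∧ ∃ g : ℝ × ℝ × (ℝ × ℝ) → ℝ,
      ContDiffOn ℝ 2 g (Metric.ball (0, νs, Xs) r) ∧ g (0, νs, Xs) = χs ∧
      ∀ p ∈ Metric.ball ((0, νs, Xs) : ℝ × ℝ × (ℝ × ℝ)) r, |g p - χs| < δ ∧
        (p.1, p.2.1, p.2.2, g p) ∈ W ∧ f (p.1, p.2.1, p.2.2, g p) = 0 ∧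
        deriv (fun χ => f (p.1, p.2.1, p.2.2, χ)) (g p) ≠ 0 := by
  -- the derivative along `χ`
  have hderiv : ∀ q ∈ zz2_S, HasDerivAt (fun χ => f (q.1, q.2.1, q.2.2.1, χ))
      (fderiv ℝ f q (0, 0, 0, 1)) q.2.2.2 := by
    intro q hq
    have h1 : HasFDerivAt f (fderiv ℝ f q) q :=
      ((hf.contDiffAt (zz2_S_open.mem_nhds hq)).differentiableAt (by simp)).hasFDerivAt
    have h2 : HasDerivAt (fun χ : ℝ => ((q.1, q.2.1, q.2.2.1, χ) : ℝ × ℝ × (ℝ × ℝ) × ℝ))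
        (0, 0, 0, 1) q.2.2.2 :=
      (hasDerivAt_const _ _).prodMk ((hasDerivAt_const _ _).prodMk
        ((hasDerivAt_const _ _).prodMk (hasDerivAt_id _)))
    exact HasFDerivAt.comp_hasDerivAt (f := fun χ : ℝ =>
      ((q.1, q.2.1, q.2.2.1, χ) : ℝ × ℝ × (ℝ × ℝ) × ℝ)) q.2.2.2 h1 h2
  have hcont : ContinuousOn (fun q => fderiv ℝ f q (0, 0, 0, 1)) zz2_S := by
    have h1 : ContinuousOn (fderiv ℝ f) zz2_S :=
      hf.continuousOn_fderiv_of_isOpen zz2_S_open (by simp)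
    exact h1.clm_apply continuousOn_const
  -- the open set
  let W' : Set (ℝ × ℝ × (ℝ × ℝ) × ℝ) :=
    W ∩ (zz2_S ∩ (fun q => fderiv ℝ f q (0, 0, 0, 1)) ⁻¹' {0}ᶜ)
  have hW' : IsOpen W' := hW.inter
    (hcont.isOpen_inter_preimage zz2_S_open isOpen_compl_singleton)
  have hm0 : ((0, νs, Xs, χs) : ℝ × ℝ × (ℝ × ℝ) × ℝ) ∈ zz2_S := hWS hm
  have hm' : ((0, νs, Xs, χs) : ℝ × ℝ × (ℝ × ℝ) × ℝ) ∈ W' := by
    refine ⟨hm, hm0, ?_⟩
    have h1 := hderiv _ hm0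
    have h2 : fderiv ℝ f (0, νs, Xs, χs) (0, 0, 0, 1) = d := h1.unique hder
    simp only [mem_preimage, mem_compl_iff, mem_singleton_iff]
    rw [h2]
    exact hd
  let φ : (ℝ × ℝ × (ℝ × ℝ)) × ℝ → ℝ × ℝ × (ℝ × ℝ) × ℝ :=
    fun q => (q.1.1, q.1.2.1, q.1.2.2, q.2)
  have hφ : ContDiff ℝ ∞ φ := by
    simp only [φ]
    fun_prop
  have hU : IsOpen (φ ⁻¹' W') := hW'.preimage hφ.continuous
  have hfU : ContDiffOn ℝ 2 (fun q => f (φ q)) (φ ⁻¹' W') := by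
    have h1 : ContDiffOn ℝ ∞ (fun q => f (φ q)) (φ ⁻¹' W') :=
      hf.comp hφ.contDiffOn (fun q hq => hWS hq.1)
    exact h1.of_le (by norm_cast)
  obtain ⟨r, r', hr, hr', hr'δ, g, hg, hg0, hgp⟩ :=
    ift (fun q => f (φ q)) (φ ⁻¹' W') hU hfU (0, νs, Xs) χs hm' hz
      (ContinuousLinearEquiv.unitsEquivAut ℝ (Units.mk0 d hd)) (hder.hasFDerivAt_equiv hd) δ hδ
  refine ⟨r, hr, g, hg, hg0, fun p hp => ?_⟩
  obtain ⟨h1, h2, h3, -⟩ := hgp p hp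
  have h2' : (p.1, p.2.1, p.2.2, g p) ∈ W' := h2
  refine ⟨?_, h2'.1, h3, ?_⟩
  · have := Metric.mem_ball.mp h1
    rw [Real.dist_eq] at this
    linarith
  · have h4 := (hderiv _ h2'.2.1).deriv
    simp only at h4
    rw [h4]
    exact h2'.2.2

/-- membership in the ball of parameters -/
theorem zz2_ball {r C ν νs : ℝ} {X Xs : ℝ × ℝ} (hC : 0 < C) (hCr : C < r) (hν : |ν - νs| < r)
    (hX : X ∈ Metric.ball Xs r) :
    ((C, ν, X) : ℝ × ℝ × (ℝ × ℝ)) ∈ Metric.ball (0, νs, Xs) r := by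
  rw [Metric.mem_ball, Prod.dist_eq, Prod.dist_eq]
  refine max_lt ?_ (max_lt ?_ ?_)
  · simp only [Real.dist_eq, sub_zero]
    rw [abs_of_pos hC]
    exact hCr
  · simp only [Real.dist_eq]
    exact hν
  · exact Metric.mem_ball.mp hX

theorem zz2_K {r C νs : ℝ} {K : ℕ} (_hC : 0 < C) (hr : r ≤ νs) (hν : |K * C - νs| < r) : 0 < K := by
  rcases Nat.eq_zero_or_pos K with h | h
  · subst h
    exfalso
    have h1 := abs_lt.mp hν
    simp only [Nat.cast_zero, zero_mul, zero_sub] at h1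
    linarith [h1.1]
  · exact h

theorem zz2_g {r C ν νs : ℝ} {Xs : ℝ × ℝ} (hC : 0 < C) (hCr : C < r) (hν : |ν - νs| < r)
    {g : ℝ × ℝ × (ℝ × ℝ) → ℝ} (hg : ContDiffOn ℝ 2 g (Metric.ball (0, νs, Xs) r)) :
    ContDiffOn ℝ 2 (fun X : ℝ × ℝ => g (C, ν, X)) (Metric.ball Xs r) := by
  have h : ContDiffOn ℝ 2 (fun X : ℝ × ℝ => ((C, ν, X) : ℝ × ℝ × (ℝ × ℝ))) (Metric.ball Xs r) := by
    fun_prop
  exact hg.comp h (fun X hX => zz2_ball hC hCr hν hX)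

theorem zz2_rh : 0 < rh ∧ 0 < kh := by
  obtain ⟨-, -, h1, -, h2, -⟩ := z_bounds
  constructor <;> linarith

theorem sarc_pr (j νs χs : ℝ) (Xs : ℝ × ℝ) (hj : j = 1 ∨ j = -1) (hs : Real.sin χs ≠ 0)
    (hν : 0 < νs) (hY : νs * (mΛ * mY Xs χs) = j) (he : me Xs χs ≠ 0) (hD : 0 < j * mD Xs χs)
    (δ : ℝ) (hδ : 0 < δ) :
    ∃ r : ℝ, 0 < r ∧ ∃ g : ℝ × ℝ × (ℝ × ℝ) → ℝ,
      ContDiffOn ℝ 2 g (Metric.ball (0, νs, Xs) r) ∧ g (0, νs, Xs) = χs ∧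
      (∀ p ∈ Metric.ball ((0, νs, Xs) : ℝ × ℝ × (ℝ × ℝ)) r, |g p - χs| < δ ∧
        ZG p.1 p.2.2 (g p) ∧ zΞ j p.1 p.2.1 p.2.2 (g p) = 0) ∧
      ∀ (C : ℝ) (K : ℕ), 0 < C → C < r → |K * C - νs| < r → ∀ r', r' < r →
        ZArc 0 C (Metric.closedBall Xs r') (fun X => g (C, K * C, X))
          (fun X => Real.sqrt (kA (z3 C X (g (C, K * C, X)))) *
            (2 * Real.pi * K + zs3 C X (g (C, K * C, X))))
          (fun X => zF C X (g (C, K * C, X))) (fun X => zθ C X (g (C, K * C, X))) := by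
  obtain ⟨hrh, hkh⟩ := zz2_rh
  have c1 := zz2_lift zS_time.1
  have c2 := zz2_lift zS_time.2.2.1
  have c3 := zz2_lift zS_states.2.2.1
  have hmem : ((0, νs, Xs, χs) : ℝ × ℝ × (ℝ × ℝ) × ℝ) ∈ zz2_S := zS_zero Xs hs
  obtain ⟨-, -, -, hper, hzX, -, -⟩ := z_zero Xs hs
  obtain ⟨-, hzτ, -, -⟩ := z_zero' Xs hs
  have o1 : IsOpen (zz2_S ∩ (fun q : ℝ × ℝ × (ℝ × ℝ) × ℝ => j * zτ q.1 q.2.2.1 q.2.2.2) ⁻¹' Ioi 0) :=
    (continuousOn_const.mul c1).isOpen_inter_preimage zz2_S_open isOpen_Ioi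
  have o2 : IsOpen (zz2_S ∩ (fun q : ℝ × ℝ × (ℝ × ℝ) × ℝ =>
      kPer (z2 q.1 q.2.2.1 q.2.2.2) - q.1 * |zτ q.1 q.2.2.1 q.2.2.2|) ⁻¹' Ioi 0) :=
    (c2.sub (continuous_fst.continuousOn.mul c1.abs)).isOpen_inter_preimage zz2_S_open isOpen_Ioi
  have o3 : IsOpen (zz2_S ∩ (fun q : ℝ × ℝ × (ℝ × ℝ) × ℝ => zX q.1 q.2.2.1 q.2.2.2) ⁻¹' {0}ᶜ) :=
    c3.isOpen_inter_preimage zz2_S_open isOpen_compl_singleton
  obtain ⟨r, hr, g, hg, hg0, hgp⟩ := zz2_ift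
    (fun q => zΞ j q.1 q.2.1 q.2.2.1 q.2.2.2) (zΞ_smooth j).1 _ (o1.inter (o2.inter o3))
    (fun q hq => hq.1.1) νs χs Xs
    (by
      refine ⟨⟨hmem, ?_⟩, ⟨hmem, ?_⟩, ⟨hmem, ?_⟩⟩
      · simp only [mem_preimage, mem_Ioi]
        rw [hzτ]
        have : j * (2 * rh * mD Xs χs) = 2 * rh * (j * mD Xs χs) := by ring
        rw [this]
        positivity
      · simp only [mem_preimage, mem_Ioi]
        rw [hper]
        simpa using Real.pi_pos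
      · simp only [mem_preimage, mem_compl_iff, mem_singleton_iff]
        rw [hzX]
        exact mul_ne_zero (div_pos hkh hrh).ne' he)
    (by
      simp only
      rw [(zΞ_zero j νs Xs hs).1, hY, sub_self])
    (νs * (mΛ * me Xs χs))
    (by
      have hΛ : mΛ ≠ 0 := by
        obtain ⟨-, -, -, -, -, -, -, -, -, -, h1, -, -⟩ := z_bounds
        linarith
      exact mul_ne_zero hν.ne' (mul_ne_zero hΛ he))
    (zΞ_zero j νs Xs hs).2.1 δ hδ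
  have hsub : Metric.ball ((0, νs, Xs) : ℝ × ℝ × (ℝ × ℝ)) (min r νs) ⊆
      Metric.ball (0, νs, Xs) r := Metric.ball_subset_ball (min_le_left _ _)
  refine ⟨min r νs, lt_min hr hν, g, hg.mono hsub, hg0, fun p hp => ?_, ?_⟩
  · obtain ⟨h1, h2, h3, -⟩ := hgp p (hsub hp)
    exact ⟨h1, h2.1.1, h3⟩
  · intro C K hC hCr hK r' hr'
    have hKpos : 0 < K := zz2_K hC (min_le_right r νs) hK
    have hb : ∀ X ∈ Metric.ball Xs (min r νs), ((C, K * C, X) : ℝ × ℝ × (ℝ × ℝ)) ∈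
        Metric.ball (0, νs, Xs) r := fun X hX => hsub (zz2_ball hC hCr hK hX)
    refine sarc_fix C hC K hKpos j hj (Metric.closedBall Xs r') (Metric.ball Xs (min r νs))
      (isCompact_closedBall _ _) (convex_closedBall _ _) Metric.isOpen_ball
      (Metric.closedBall_subset_ball hr') (fun X => g (C, K * C, X))
      (zz2_g hC hCr hK (hg.mono hsub)) ?_ ?_ ?_ ?_ ?_
    · intro X hX
      exact (hgp _ (hb X hX)).2.1.1.1
    · intro X hX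
      exact (hgp _ (hb X hX)).2.2.1
    · intro X hX
      exact (hgp _ (hb X hX)).2.1.2.2.2
    · intro X hX
      have h := (hgp _ (hb X hX)).2.1
      have h1 := h.1.2
      have h2 := h.2.1.2
      simp only [mem_preimage, mem_Ioi] at h1 h2
      exact ⟨h1, by linarith⟩
    · intro X hX
      exact (hgp _ (hb X hX)).2.2.2

theorem tarc_pr (j : ℤ) (νs χs : ℝ) (Xs : ℝ × ℝ) (hj : j = 1 ∨ j = -1) (hs : Real.sin χs ≠ 0)
    (hν : 0 < νs) (hY : νs * (mΛ * mY Xs χs) = j) (he : me Xs χs ≠ 0)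
    (hD : ∀ n : ℤ, νs * (2 * rh * mD Xs χs / Real.pi) ≠ n)
    (δ : ℝ) (hδ : 0 < δ) :
    ∃ r : ℝ, 0 < r ∧ ∃ g : ℝ × ℝ × (ℝ × ℝ) → ℝ,
      ContDiffOn ℝ 2 g (Metric.ball (0, νs, Xs) r) ∧ g (0, νs, Xs) = χs ∧
      (∀ p ∈ Metric.ball ((0, νs, Xs) : ℝ × ℝ × (ℝ × ℝ)) r, |g p - χs| < δ ∧
        ZG p.1 p.2.2 (g p) ∧ zΘ j p.1 p.2.1 p.2.2 (g p) = 0) ∧
      ∀ (C : ℝ) (K : ℕ), 0 < C → C < r → |K * C - νs| < r → ∀ r', r' < r →
        ZArc 0 C (Metric.closedBall Xs r') (fun X => g (C, K * C, X))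
          (fun X => Real.sqrt (kA (z3 C X (g (C, K * C, X)))) * (2 * Real.pi * K))
          id (fun X => g (C, K * C, X)) := by
  obtain ⟨hrh, hkh⟩ := zz2_rh
  have c1 := zz2_lift zS_time.1
  have c2 := zz2_lift zS_time.2.2.1
  have c3 := zz2_lift zS_states.2.2.1
  have hmem : ((0, νs, Xs, χs) : ℝ × ℝ × (ℝ × ℝ) × ℝ) ∈ zz2_S := zS_zero Xs hs
  obtain ⟨-, -, -, hper, hzX, -, -⟩ := z_zero Xs hs
  obtain ⟨-, hzτ, -, -⟩ := z_zero' Xs hs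
  have hcl : IsOpen (range ((↑) : ℤ → ℝ))ᶜ := Int.isClosedEmbedding_coe_real.isClosed_range.isOpen_compl
  have o1 : IsOpen (zz2_S ∩ (fun q : ℝ × ℝ × (ℝ × ℝ) × ℝ =>
      q.2.1 * (zτ q.1 q.2.2.1 q.2.2.2 / kPer (z2 q.1 q.2.2.1 q.2.2.2))) ⁻¹'
        (range ((↑) : ℤ → ℝ))ᶜ) := by
    refine ContinuousOn.isOpen_inter_preimage ?_ zz2_S_open hcl
    refine ContinuousOn.mul (by fun_prop) (c1.div c2 ?_)
    intro q hq
    exact (z_per (C := q.1) (X := q.2.2.1) (χ := q.2.2.2) hq).2.1.ne'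
  have o3 : IsOpen (zz2_S ∩ (fun q : ℝ × ℝ × (ℝ × ℝ) × ℝ => zX q.1 q.2.2.1 q.2.2.2) ⁻¹' {0}ᶜ) :=
    c3.isOpen_inter_preimage zz2_S_open isOpen_compl_singleton
  obtain ⟨r, hr, g, hg, hg0, hgp⟩ := zz2_ift
    (fun q => zΘ j q.1 q.2.1 q.2.2.1 q.2.2.2) (zΞ_smooth j).2 _ (o1.inter o3)
    (fun q hq => hq.1.1) νs χs Xs
    (by
      refine ⟨⟨hmem, ?_⟩, ⟨hmem, ?_⟩⟩
      · simp only [mem_preimage, mem_compl_iff, mem_range, not_exists]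
        rw [hzτ, hper]
        intro n hn
        exact hD n hn.symm
      · simp only [mem_preimage, mem_compl_iff, mem_singleton_iff]
        rw [hzX]
        exact mul_ne_zero (div_pos hkh hrh).ne' he)
    (by
      simp only
      rw [(zΞ_zero j νs Xs hs).2.2.1, hY, sub_self])
    (νs * (mΛ * me Xs χs))
    (by
      have hΛ : mΛ ≠ 0 := by
        obtain ⟨-, -, -, -, -, -, -, -, -, -, h1, -, -⟩ := z_bounds
        linarith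
      exact mul_ne_zero hν.ne' (mul_ne_zero hΛ he))
    (zΞ_zero j νs Xs hs).2.2.2 δ hδ
  have hsub : Metric.ball ((0, νs, Xs) : ℝ × ℝ × (ℝ × ℝ)) (min r νs) ⊆
      Metric.ball (0, νs, Xs) r := Metric.ball_subset_ball (min_le_left _ _)
  refine ⟨min r νs, lt_min hr hν, g, hg.mono hsub, hg0, fun p hp => ?_, ?_⟩
  · obtain ⟨h1, h2, h3, -⟩ := hgp p (hsub hp)
    exact ⟨h1, h2.1.1, h3⟩
  · intro C K hC hCr hK r' hr'
    have hKpos : 0 < K := zz2_K hC (min_le_right r νs) hK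
    have hb : ∀ X ∈ Metric.ball Xs (min r νs), ((C, K * C, X) : ℝ × ℝ × (ℝ × ℝ)) ∈
        Metric.ball (0, νs, Xs) r := fun X hX => hsub (zz2_ball hC hCr hK hX)
    have hcop : IsCoprime j (K : ℤ) := by
      rcases hj with h | h
      · rw [h]; exact isCoprime_one_left
      · rw [h]; exact isCoprime_one_left.neg_left
    refine tarc_fix C hC K hKpos j hcop (Metric.closedBall Xs r') (Metric.ball Xs (min r νs))
      (isCompact_closedBall _ _) (convex_closedBall _ _) Metric.isOpen_ball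
      (Metric.closedBall_subset_ball hr') (fun X => g (C, K * C, X))
      (zz2_g hC hCr hK (hg.mono hsub)) ?_ ?_ ?_ ?_ ?_
    · intro X hX
      exact (hgp _ (hb X hX)).2.1.1.1
    · intro X hX
      exact (hgp _ (hb X hX)).2.2.1
    · intro X hX
      exact (hgp _ (hb X hX)).2.1.2.2
    · intro X hX n hn
      have h1 := (hgp _ (hb X hX)).2.1.1.2
      simp only [mem_preimage, mem_compl_iff, mem_range, not_exists] at h1
      apply h1 n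
      rw [← hn]
      ring
    · intro X hX
      exact (hgp _ (hb X hX)).2.2.2

end

end Pool.Agent.HS

namespace Pool.Agent.HS
open Set Filter Topology
open scoped ContDiff

theorem sarc (j νs χs : ℝ) (Xs : ℝ × ℝ) (hj : j = 1 ∨ j = -1) (hs : Real.sin χs ≠ 0)
    (hν : 0 < νs) (hY : νs * (mΛ * mY Xs χs) = j) (he : me Xs χs ≠ 0) (hD : 0 < j * mD Xs χs)
    (δ : ℝ) (hδ : 0 < δ) :
    ∃ r : ℝ, 0 < r ∧ ∃ g : ℝ × ℝ × (ℝ × ℝ) → ℝ,
      ContDiffOn ℝ 2 g (Metric.ball (0, νs, Xs) r) ∧ g (0, νs, Xs) = χs ∧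
      (∀ p ∈ Metric.ball ((0, νs, Xs) : ℝ × ℝ × (ℝ × ℝ)) r, |g p - χs| < δ ∧
        ZG p.1 p.2.2 (g p) ∧ zΞ j p.1 p.2.1 p.2.2 (g p) = 0) ∧
      ∀ (C : ℝ) (K : ℕ), 0 < C → C < r → |K * C - νs| < r → ∀ r', r' < r →
        ZArc 0 C (Metric.closedBall Xs r') (fun X => g (C, K * C, X))
          (fun X => Real.sqrt (kA (z3 C X (g (C, K * C, X)))) *
            (2 * Real.pi * K + zs3 C X (g (C, K * C, X))))
          (fun X => zF C X (g (C, K * C, X))) (fun X => zθ C X (g (C, K * C, X))) :=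
  @Pool.Agent.HS.sarc_pr j νs χs Xs hj hs hν hY he hD δ hδ

end Pool.Agent.HS

namespace Pool.Agent.HS
open Set Filter Topology
open scoped ContDiff

theorem tarc (j : ℤ) (νs χs : ℝ) (Xs : ℝ × ℝ) (hj : j = 1 ∨ j = -1) (hs : Real.sin χs ≠ 0)
    (hν : 0 < νs) (hY : νs * (mΛ * mY Xs χs) = j) (he : me Xs χs ≠ 0)
    (hD : ∀ n : ℤ, νs * (2 * rh * mD Xs χs / Real.pi) ≠ n)
    (δ : ℝ) (hδ : 0 < δ) :
    ∃ r : ℝ, 0 < r ∧ ∃ g : ℝ × ℝ × (ℝ × ℝ) → ℝ,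
      ContDiffOn ℝ 2 g (Metric.ball (0, νs, Xs) r) ∧ g (0, νs, Xs) = χs ∧
      (∀ p ∈ Metric.ball ((0, νs, Xs) : ℝ × ℝ × (ℝ × ℝ)) r, |g p - χs| < δ ∧
        ZG p.1 p.2.2 (g p) ∧ zΘ j p.1 p.2.1 p.2.2 (g p) = 0) ∧
      ∀ (C : ℝ) (K : ℕ), 0 < C → C < r → |K * C - νs| < r → ∀ r', r' < r →
        ZArc 0 C (Metric.closedBall Xs r') (fun X => g (C, K * C, X))
          (fun X => Real.sqrt (kA (z3 C X (g (C, K * C, X)))) * (2 * Real.pi * K))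
          id (fun X => g (C, K * C, X)) :=
  @Pool.Agent.HS.tarc_pr j νs χs Xs hj hs hν hY he hD δ hδ

end Pool.Agent.HS
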