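import Pool.Agent.Lib_helper60.HSF.D_WL
import Pool.Agent.Lib_helper60.HSF.D_WA
import Pool.Agent.Lib_helper60.HSF.Z_ZZ2
import Pool.Agent.Lib_helper60.HSF.Z_ZA5
import Pool.Agent.Lib_helper60.HSF.A_CA
import Pool.Agent.Lib_helper60.HSF.E_E1a
import Pool.Agent.Lib_helper60.HSF.A_CB
import Pool.Agent.Lib_helper60.HSF.Z_ZT
import Pool.Agent.Lib_helper60.HSF.Z_ZD3

/-!
# Project HS, part Z, block LD1: arcs as plain words
-/

namespace Pool.Agent.HS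

noncomputable section

open Set Filter Topology
open scoped ContDiff

/-- a `C^2` map on a ball is `Reg` on smaller closed balls -/
theorem ld1_reg {E F : Type*} [NormedAddCommGroup E] [NormedSpace ℝ E] [FiniteDimensional ℝ E]
    [NormedAddCommGroup F] [NormedSpace ℝ F] {f : E → F} {x : E} {r r' : ℝ} (hr : r' < r)
    (hf : ContDiffOn ℝ 2 f (Metric.ball x r)) : ∃ L : ℝ, 0 ≤ L ∧ Reg L f (Metric.closedBall x r') := by
  have : ProperSpace E := FiniteDimensional.proper_real E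
  exact reg_of_contDiffOn Metric.isOpen_ball hf (isCompact_closedBall x r')
    (convex_closedBall x r') (Metric.closedBall_subset_ball hr)

/-- the composition with a function on `ZS` -/
theorem ld1_comp {E : Type*} [NormedAddCommGroup E] [NormedSpace ℝ E] {C : ℝ} {Xs : Pl} {r : ℝ}
    {γ : Pl → ℝ} {f : ℝ × (ℝ × ℝ) × ℝ → E} (hf : ContDiffOn ℝ ∞ f ZS)
    (hg : ContDiffOn ℝ 2 γ (Metric.ball Xs r)) (hG : ∀ X ∈ Metric.ball Xs r, ZG C X (γ X)) :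
    ContDiffOn ℝ 2 (fun X => f (C, X, γ X)) (Metric.ball Xs r) := by
  have h1 : ContDiffOn ℝ 2 f ZS := hf.of_le (by
    rw [show (2 : WithTop ℕ∞) = ((2 : ℕ∞) : WithTop ℕ∞) from rfl]
    exact WithTop.coe_le_coe.mpr le_top)
  have h2 : ContDiffOn ℝ 2 (fun X : Pl => (C, X, γ X)) (Metric.ball Xs r) :=
    contDiffOn_const.prodMk (contDiffOn_id.prodMk hg)
  exact h1.comp h2 (fun X hX => hG X hX)

/-- good centre data -/
theorem ld1_cd {C : ℝ} {X : ℝ × ℝ} {χ : ℝ} (h : ZG C X χ) : X ∈ CD C :=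
  ⟨h.r.1.le, h.r.2.le, h.p.le, h.k.le⟩

theorem ld1_cdF {C : ℝ} (hC : 0 < C) {X : ℝ × ℝ} {χ : ℝ} (h : ZG C X χ) : zF C X χ ∈ CD C := by
  have h1 := (z_end h hC.ne').2.1
  refine ⟨?_, ?_, h.F.1.le, h.F.2.1.le⟩
  · show rh / 2 ≤ zr C (zF C X χ)
    rw [h1]
    exact h.B.2.1.le
  · show zr C (zF C X χ) ≤ 2 * rh
    rw [h1]
    exact h.B.2.2.le

/-- data of an arc are regular, the centre data stay in `CD`; no sun collision -/
theorem sarc_r_pr {C ν : ℝ} (hC : 0 < C ∧ C ≤ 1) {Xs : Pl} {r r' : ℝ} (g : ℝ × ℝ × Pl → ℝ)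
    (hr : r' < r)
    (hg : ContDiffOn ℝ 2 (fun X => g (C, ν, X)) (Metric.ball Xs r))
    (hG : ∀ X ∈ Metric.ball Xs r, ZG C X (g (C, ν, X))) (τ0 : Pl → ℝ)
    (hz : ZArc 0 C (Metric.closedBall Xs r') (fun X => g (C, ν, X)) τ0
      (fun X => zF C X (g (C, ν, X))) (fun X => zθ C X (g (C, ν, X)))) :
    RArc C 0 (Metric.closedBall Xs r') (sLD g C ν) τ0 ∧
    (∀ X ∈ Metric.closedBall Xs r', ∀ τ, (Zd 0 (limD C X (g (C, ν, X))) τ).1 ≠ 0) ∧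
    PW C (Metric.closedBall Xs r') (sLD g C ν) := by
  have hsub : Metric.closedBall Xs r' ⊆ Metric.ball Xs r := Metric.closedBall_subset_ball hr
  have hcF := ld1_comp zS_geom.2.2.2.2.1 hg hG
  have hcθ := ld1_comp zS_geom.2.2.2.2.2 hg hG
  obtain ⟨L1, hL1, h1⟩ := ld1_reg hr hcF
  obtain ⟨L2, hL2, h2⟩ := ld1_reg hr hg
  obtain ⟨L3, hL3, h3⟩ := ld1_reg hr hcθ
  have hR : RArc C 0 (Metric.closedBall Xs r') (sLD g C ν) τ0 := by
    refine ⟨hz, ⟨L1 + L2 + L3, by positivity, ?_, ?_, ?_⟩, ?_⟩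
    · exact reg_mono h1 (by linarith) (Set.Subset.refl _)
    · exact reg_mono h2 (by linarith) (Set.Subset.refl _)
    · exact reg_mono h3 (by linarith) (Set.Subset.refl _)
    · exact fun X hX => ⟨ld1_cd (hG X (hsub hX)), ld1_cdF hC.1 (hG X (hsub hX))⟩
  have hT : ∀ X ∈ Metric.closedBall Xs r', ∀ τ, (Zd 0 (limD C X (g (C, ν, X))) τ).1 ≠ 0 :=
    fun X hX τ => (z_traj (hG X (hsub hX)) τ).1
  exact ⟨hR, hT, pw_arc hC hR (fun X hX τ _ => hT X hX τ)⟩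

theorem tarc_r_pr {C ν : ℝ} (hC : 0 < C ∧ C ≤ 1) {Xs : Pl} {r r' : ℝ} (g : ℝ × ℝ × Pl → ℝ)
    (hr : r' < r)
    (hg : ContDiffOn ℝ 2 (fun X => g (C, ν, X)) (Metric.ball Xs r))
    (hG : ∀ X ∈ Metric.ball Xs r, ZG C X (g (C, ν, X))) (τ0 : Pl → ℝ)
    (hz : ZArc 0 C (Metric.closedBall Xs r') (fun X => g (C, ν, X)) τ0 id
      (fun X => g (C, ν, X))) :
    RArc C 0 (Metric.closedBall Xs r') (tLD g C ν) τ0 ∧
    (∀ X ∈ Metric.closedBall Xs r', ∀ τ, (Zd 0 (limD C X (g (C, ν, X))) τ).1 ≠ 0) ∧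
    PW C (Metric.closedBall Xs r') (tLD g C ν) := by
  have hsub : Metric.closedBall Xs r' ⊆ Metric.ball Xs r := Metric.closedBall_subset_ball hr
  obtain ⟨L1, hL1, h1⟩ := ld1_reg (f := (id : Pl → Pl)) (x := Xs) hr contDiffOn_id
  obtain ⟨L2, hL2, h2⟩ := ld1_reg hr hg
  have hR : RArc C 0 (Metric.closedBall Xs r') (tLD g C ν) τ0 := by
    refine ⟨hz, ⟨L1 + L2, by positivity, ?_, ?_, ?_⟩, ?_⟩
    · exact reg_mono h1 (by linarith) (Set.Subset.refl _)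
    · exact reg_mono h2 (by linarith) (Set.Subset.refl _)
    · exact reg_mono h2 (by linarith) (Set.Subset.refl _)
    · exact fun X hX => ⟨ld1_cd (hG X (hsub hX)), ld1_cd (hG X (hsub hX))⟩
  have hT : ∀ X ∈ Metric.closedBall Xs r', ∀ τ, (Zd 0 (limD C X (g (C, ν, X))) τ).1 ≠ 0 :=
    fun X hX τ => (z_traj (hG X (hsub hX)) τ).1
  exact ⟨hR, hT, pw_arc hC hR (fun X hX τ _ => hT X hX τ)⟩

/-- arcs of type `T` as plain words -/
theorem tarc_pw_pr (j : ℤ) (νs χs : ℝ) (Xs : Pl) (hj : j = 1 ∨ j = -1) (hs : Real.sin χs ≠ 0)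
    (hν : 0 < νs) (hY : νs * (mΛ * mY Xs χs) = j) (he : me Xs χs ≠ 0)
    (hD : ∀ n : ℤ, νs * (2 * rh * mD Xs χs / Real.pi) ≠ n) (δ : ℝ) (hδ : 0 < δ) :
    ∃ r : ℝ, 0 < r ∧ r ≤ 1 ∧ ∃ g : ℝ × ℝ × Pl → ℝ,
      ContDiffOn ℝ 2 g (Metric.ball (0, νs, Xs) r) ∧ g (0, νs, Xs) = χs ∧
      (∀ p ∈ Metric.ball ((0, νs, Xs) : ℝ × ℝ × Pl) r, |g p - χs| < δ ∧
        ZG p.1 p.2.2 (g p) ∧ zΘ j p.1 p.2.1 p.2.2 (g p) = 0) ∧
      ∀ (C : ℝ) (K : ℕ), 0 < C → C < r → |K * C - νs| < r → ∀ r', r' < r →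
        RArc C 0 (Metric.closedBall Xs r') (tLD g C (K * C))
          (fun X => Real.sqrt (kA (z3 C X (g (C, K * C, X)))) * (2 * Real.pi * K)) ∧
        (∀ X ∈ Metric.closedBall Xs r', ∀ τ,
          (Zd 0 (limD C X (g (C, K * C, X))) τ).1 ≠ 0) ∧
        PW C (Metric.closedBall Xs r') (tLD g C (K * C)) := by
  obtain ⟨r0, hr0, g, hg, hg0, hp, hz⟩ := tarc j νs χs Xs hj hs hν hY he hD δ hδ
  have hsub : Metric.ball ((0, νs, Xs) : ℝ × ℝ × Pl) (min r0 1) ⊆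
      Metric.ball ((0, νs, Xs) : ℝ × ℝ × Pl) r0 := Metric.ball_subset_ball (min_le_left _ _)
  refine ⟨min r0 1, lt_min hr0 one_pos, min_le_right _ _, g, hg.mono hsub, hg0,
    fun p hp' => hp p (hsub hp'), ?_⟩
  intro C K hC hCr hK r' hr'
  have hmem : ∀ X ∈ Metric.ball Xs (min r0 1),
      ((C, (K : ℝ) * C, X) : ℝ × ℝ × Pl) ∈ Metric.ball ((0, νs, Xs) : ℝ × ℝ × Pl) (min r0 1) := by
    intro X hX
    rw [Metric.mem_ball, Prod.dist_eq, Prod.dist_eq]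
    refine max_lt ?_ (max_lt ?_ hX)
    · rw [Real.dist_eq, sub_zero, abs_of_pos hC]
      exact hCr
    · rw [Real.dist_eq]
      exact hK
  have hlt0 := min_le_left r0 1
  refine tarc_r_pr ⟨hC, (hCr.trans_le (min_le_right _ _)).le⟩ g hr' ?_
    (fun X hX => (hp _ (hsub (hmem X hX))).2.1) _
    (hz C K hC (hCr.trans_le hlt0) (hK.trans_le hlt0) r' (hr'.trans_le hlt0))
  have h2 : ContDiffOn ℝ 2 (fun X : Pl => ((C, (K : ℝ) * C, X) : ℝ × ℝ × Pl))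
      (Metric.ball Xs (min r0 1)) :=
    contDiffOn_const.prodMk (contDiffOn_const.prodMk contDiffOn_id)
  exact (hg.mono hsub).comp h2 hmem

end

end Pool.Agent.HS

namespace Pool.Agent.HS
open Set Filter Topology
open scoped ContDiff

theorem sarc_r {C ν : ℝ} (hC : 0 < C ∧ C ≤ 1) {Xs : Pl} {r r' : ℝ} (g : ℝ × ℝ × Pl → ℝ)
    (hr : r' < r)
    (hg : ContDiffOn ℝ 2 (fun X => g (C, ν, X)) (Metric.ball Xs r))
    (hG : ∀ X ∈ Metric.ball Xs r, ZG C X (g (C, ν, X))) (τ0 : Pl → ℝ)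
    (hz : ZArc 0 C (Metric.closedBall Xs r') (fun X => g (C, ν, X)) τ0
      (fun X => zF C X (g (C, ν, X))) (fun X => zθ C X (g (C, ν, X)))) :
    RArc C 0 (Metric.closedBall Xs r') (sLD g C ν) τ0 ∧
    (∀ X ∈ Metric.closedBall Xs r', ∀ τ, (Zd 0 (limD C X (g (C, ν, X))) τ).1 ≠ 0) ∧
    PW C (Metric.closedBall Xs r') (sLD g C ν) :=
  @Pool.Agent.HS.sarc_r_pr C ν hC Xs r r' g hr hg hG τ0 hz

end Pool.Agent.HS

namespace Pool.Agent.HS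
open Set Filter Topology
open scoped ContDiff

theorem tarc_r {C ν : ℝ} (hC : 0 < C ∧ C ≤ 1) {Xs : Pl} {r r' : ℝ} (g : ℝ × ℝ × Pl → ℝ)
    (hr : r' < r)
    (hg : ContDiffOn ℝ 2 (fun X => g (C, ν, X)) (Metric.ball Xs r))
    (hG : ∀ X ∈ Metric.ball Xs r, ZG C X (g (C, ν, X))) (τ0 : Pl → ℝ)
    (hz : ZArc 0 C (Metric.closedBall Xs r') (fun X => g (C, ν, X)) τ0 id
      (fun X => g (C, ν, X))) :
    RArc C 0 (Metric.closedBall Xs r') (tLD g C ν) τ0 ∧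
    (∀ X ∈ Metric.closedBall Xs r', ∀ τ, (Zd 0 (limD C X (g (C, ν, X))) τ).1 ≠ 0) ∧
    PW C (Metric.closedBall Xs r') (tLD g C ν) :=
  @Pool.Agent.HS.tarc_r_pr C ν hC Xs r r' g hr hg hG τ0 hz

end Pool.Agent.HS

namespace Pool.Agent.HS
open Set Filter Topology
open scoped ContDiff

theorem tarc_pw (j : ℤ) (νs χs : ℝ) (Xs : Pl) (hj : j = 1 ∨ j = -1) (hs : Real.sin χs ≠ 0)
    (hν : 0 < νs) (hY : νs * (mΛ * mY Xs χs) = j) (he : me Xs χs ≠ 0)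
    (hD : ∀ n : ℤ, νs * (2 * rh * mD Xs χs / Real.pi) ≠ n) (δ : ℝ) (hδ : 0 < δ) :
    ∃ r : ℝ, 0 < r ∧ r ≤ 1 ∧ ∃ g : ℝ × ℝ × Pl → ℝ,
      ContDiffOn ℝ 2 g (Metric.ball (0, νs, Xs) r) ∧ g (0, νs, Xs) = χs ∧
      (∀ p ∈ Metric.ball ((0, νs, Xs) : ℝ × ℝ × Pl) r, |g p - χs| < δ ∧
        ZG p.1 p.2.2 (g p) ∧ zΘ j p.1 p.2.1 p.2.2 (g p) = 0) ∧
      ∀ (C : ℝ) (K : ℕ), 0 < C → C < r → |K * C - νs| < r → ∀ r', r' < r →
        RArc C 0 (Metric.closedBall Xs r') (tLD g C (K * C))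
          (fun X => Real.sqrt (kA (z3 C X (g (C, K * C, X)))) * (2 * Real.pi * K)) ∧
        (∀ X ∈ Metric.closedBall Xs r', ∀ τ,
          (Zd 0 (limD C X (g (C, K * C, X))) τ).1 ≠ 0) ∧
        PW C (Metric.closedBall Xs r') (tLD g C (K * C)) :=
  @Pool.Agent.HS.tarc_pw_pr j νs χs Xs hj hs hν hY he hD δ hδ

end Pool.Agent.HS
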