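import Pool.Agent.Lib_helper60.HSF.D_WL
import Pool.Agent.Lib_helper60.HSF.Z_LC
import Pool.Agent.Lib_helper60.HSF.Z_ZZ2
import Pool.Agent.Lib_helper60.HSF.Z_LA
import Pool.Agent.Lib_helper60.HSF.Z_LD1
import Pool.Agent.Lib_helper60.HSF.Z_ZM2
import Pool.Agent.Lib_helper60.HSF.Z_ZD3

/-!
# Project HS, part Z, block LD2: all arcs of the two loops
-/

namespace Pool.Agent.HS

noncomputable section

open Set Filter Topology
open scoped ContDiff

theorem ld2_min {ι : Type*} [Fintype ι] [Nonempty ι] (f : ι → ℝ) (hf : ∀ i, 0 < f i) :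
    ∃ r : ℝ, 0 < r ∧ ∀ i, r ≤ f i :=
  ⟨Finset.univ.inf' Finset.univ_nonempty f, (Finset.lt_inf'_iff _).2 (fun i _ => hf i),
    fun i => Finset.inf'_le _ (Finset.mem_univ i)⟩

theorem ld2_mono {i : Fin 2} {k : Fin 4} {r r' : ℝ} {g : ℝ × ℝ × Pl → ℝ} (h : SData i k r g)
    (hr : r' ≤ r) : SData i k r' g where
  reg := h.reg.mono (Metric.ball_subset_ball hr)
  regF := h.regF.mono (Metric.ball_subset_ball hr)
  regθ := h.regθ.mono (Metric.ball_subset_ball hr)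
  val := h.val
  valF := h.valF
  near := fun p hp => h.near p (Metric.ball_subset_ball hr hp)
  der := h.der
  pw := fun C K hC hCr hK r'' hr'' =>
    h.pw C K hC (lt_of_lt_of_le hCr hr) (lt_of_lt_of_le hK hr) r'' (lt_of_lt_of_le hr'' hr)

/-- composition with the graph -/
theorem ld2_comp {E : Type*} [NormedAddCommGroup E] [NormedSpace ℝ E]
    {f : ℝ × (ℝ × ℝ) × ℝ → E} (hf : ContDiffOn ℝ ∞ f ZS) {B : Set (ℝ × ℝ × Pl)}
    {g : ℝ × ℝ × Pl → ℝ} (hg : ContDiffOn ℝ 2 g B) (hG : ∀ p ∈ B, ZG p.1 p.2.2 (g p)) :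
    ContDiffOn ℝ 2 (fun p : ℝ × ℝ × Pl => f (p.1, p.2.2, g p)) B := by
  have h1 : ContDiffOn ℝ 2 (fun p : ℝ × ℝ × Pl => ((p.1, p.2.2, g p) : ℝ × (ℝ × ℝ) × ℝ)) B :=
    contDiff_fst.contDiffOn.prodMk ((contDiff_snd.comp contDiff_snd).contDiffOn.prodMk hg)
  have h2 : ContDiffOn ℝ 2 f ZS := hf.of_le (by norm_cast)
  exact h2.comp h1 (fun p hp => hG p hp)

theorem ld2_ball {r C ν νs : ℝ} {X Xs : Pl} (hC : 0 < C) (hCr : C < r) (hν : |ν - νs| < r)
    (hX : X ∈ Metric.ball Xs r) : ((C, ν, X) : ℝ × ℝ × Pl) ∈ Metric.ball (0, νs, Xs) r := by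
  rw [Metric.mem_ball, Prod.dist_eq, Prod.dist_eq]
  refine max_lt ?_ (max_lt ?_ ?_)
  · simp only [Real.dist_eq, sub_zero]
    rw [abs_of_pos hC]
    exact hCr
  · simp only [Real.dist_eq]
    exact hν
  · exact Metric.mem_ball.mp hX

theorem ld2_one (i : Fin 2) (k : Fin 4) :
    ∃ r : ℝ, 0 < r ∧ ∃ g : ℝ × ℝ × Pl → ℝ, SData i k r g := by
  obtain ⟨hs, hmY, hme, hmD, hj, hν, hY, hF, -, -⟩ := model_vtx i k
  obtain ⟨r, hr, g, hg, hg0, hgp, harc⟩ := sarc (lvj i k) (lvν i k) (dir i k) (vtx i k) hj hs hν hY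
    hme hmD (1 / 1000) (by norm_num)
  have hG : ∀ p ∈ Metric.ball ((0, lvν i k, vtx i k) : ℝ × ℝ × Pl) r, ZG p.1 p.2.2 (g p) :=
    fun p hp => (hgp p hp).2.1
  have hgF := ld2_comp zS_geom.2.2.2.2.1 hg hG
  have hgθ := ld2_comp zS_geom.2.2.2.2.2 hg hG
  obtain ⟨hzF, -, hzθ, -⟩ := z_zero' (vtx i k) hs
  have hc0 : ((0, lvν i k, vtx i k) : ℝ × ℝ × Pl) ∈
      Metric.ball ((0, lvν i k, vtx i k) : ℝ × ℝ × Pl) r := Metric.mem_ball_self hr
  -- continuity of the incoming direction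
  have hcθ : ContinuousAt (fun p : ℝ × ℝ × Pl => zθ p.1 p.2.2 (g p)) (0, lvν i k, vtx i k) :=
    hgθ.continuousOn.continuousAt (Metric.isOpen_ball.mem_nhds hc0)
  have hθ0 : zθ 0 (vtx i k) (g (0, lvν i k, vtx i k)) = dir i k := by
    rw [hg0, hzθ]
  obtain ⟨r1, hr1, hr1'⟩ := Metric.continuousAt_iff.mp hcθ (1 / 1000) (by norm_num)
  have hmin : 0 < min (min r r1) (1 / 2) := lt_min (lt_min hr hr1) (by norm_num)
  have hle : min (min r r1) (1 / 2) ≤ r := (min_le_left _ _).trans (min_le_left _ _)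
  have hle1 : min (min r r1) (1 / 2) ≤ r1 := (min_le_left _ _).trans (min_le_right _ _)
  have hle2 : min (min r r1) (1 / 2) ≤ 1 / 2 := min_le_right _ _
  refine ⟨min (min r r1) (1 / 2), hmin, g, ?_⟩
  refine
    { reg := hg.mono (Metric.ball_subset_ball hle)
      regF := hgF.mono (Metric.ball_subset_ball hle)
      regθ := hgθ.mono (Metric.ball_subset_ball hle)
      val := hg0
      valF := by rw [hzF, hF]
      near := ?_
      der := ?_
      pw := ?_ }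
  · intro p hp
    have hp1 := Metric.ball_subset_ball hle hp
    refine ⟨(hgp p hp1).1.le, ?_, hG p hp1⟩
    have h1 := hr1' (lt_of_lt_of_le (Metric.mem_ball.mp hp) hle1)
    simp only [hθ0, Real.dist_eq] at h1
    exact h1.le
  · intro n v
    have hemb : ContDiff ℝ 2 (fun q : ℝ × Pl => ((0, q.1, q.2) : ℝ × ℝ × Pl)) := by fun_prop
    have hgd : DifferentiableAt ℝ g (0, lvν i k, vtx i k) :=
      (hg.contDiffAt (Metric.isOpen_ball.mem_nhds hc0)).differentiableAt (by norm_num)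
    have hgd' : DifferentiableAt ℝ (fun q : ℝ × Pl => g (0, q.1, q.2)) (lvν i k, vtx i k) :=
      DifferentiableAt.comp (f := fun q : ℝ × Pl => ((0, q.1, q.2) : ℝ × ℝ × Pl))
        (lvν i k, vtx i k) hgd (hemb.differentiable (by norm_num) _)
    have hev : ∀ᶠ q in 𝓝 (lvν i k, vtx i k), zΞ (lvj i k) 0 q.1 q.2 (g (0, q.1, q.2)) = 0 := by
      have h1 : ∀ᶠ q : ℝ × Pl in 𝓝 (lvν i k, vtx i k), ((0, q.1, q.2) : ℝ × ℝ × Pl) ∈
          Metric.ball ((0, lvν i k, vtx i k) : ℝ × ℝ × Pl) r :=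
        hemb.continuous.continuousAt.eventually_mem (Metric.isOpen_ball.mem_nhds hc0)
      filter_upwards [h1] with q hq
      exact (hgp _ hq).2.2
    exact (model_deriv hs hν hY hme (fun q : ℝ × Pl => g (0, q.1, q.2)) hgd' hg0 hev n v).2
  · intro C K hC hCr hK r' hr'
    have hCr1 : C < r := lt_of_lt_of_le hCr hle
    have hK1 : |K * C - lvν i k| < r := lt_of_lt_of_le hK hle
    have hr1'' : r' < r := lt_of_lt_of_le hr' hle
    have hz := harc C K hC hCr1 hK1 r' hr1''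
    have hb : ∀ X ∈ Metric.ball (vtx i k) r, ((C, K * C, X) : ℝ × ℝ × Pl) ∈
        Metric.ball (0, lvν i k, vtx i k) r := fun X hX => ld2_ball hC hCr1 hK1 hX
    have hgC : ContDiffOn ℝ 2 (fun X : Pl => g (C, K * C, X)) (Metric.ball (vtx i k) r) := by
      have h : ContDiffOn ℝ 2 (fun X : Pl => ((C, K * C, X) : ℝ × ℝ × Pl))
        (Metric.ball (vtx i k) r) := by fun_prop
      exact hg.comp h hb
    exact (sarc_r ⟨hC, by linarith⟩ g hr1'' hgC (fun X hX => hG _ (hb X hX)) _ hz).2.2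

theorem sarcs_all_pr : ∃ r : ℝ, 0 < r ∧ r ≤ 1 / 2 ∧ (∀ i k, r ≤ lvν i k / 2) ∧
    ∃ g : Fin 2 → Fin 4 → ℝ × ℝ × Pl → ℝ, ∀ i k, SData i k r (g i k) := by
  choose r hr g hg using ld2_one
  obtain ⟨r1, hr1, hr1'⟩ := ld2_min (fun p : Fin 2 × Fin 4 => min (r p.1 p.2) (lvν p.1 p.2 / 2))
    (fun p => lt_min (hr p.1 p.2) (half_pos (model_vtx p.1 p.2).2.2.2.2.2.1))
  refine ⟨min r1 (1 / 2), lt_min hr1 (by norm_num), min_le_right _ _, fun i k => ?_, g,
    fun i k => ?_⟩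
  · exact (min_le_left _ _).trans ((hr1' (i, k)).trans (min_le_right _ _))
  · exact ld2_mono (hg i k) ((min_le_left _ _).trans ((hr1' (i, k)).trans (min_le_left _ _)))

end

end Pool.Agent.HS

namespace Pool.Agent.HS
open Set Filter Topology
open scoped ContDiff

theorem sarcs_all : ∃ r : ℝ, 0 < r ∧ r ≤ 1 / 2 ∧ (∀ i k, r ≤ lvν i k / 2) ∧
    ∃ g : Fin 2 → Fin 4 → ℝ × ℝ × Pl → ℝ, ∀ i k, SData i k r (g i k) :=
  @Pool.Agent.HS.sarcs_all_pr

end Pool.Agent.HS
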