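import Pool.Agent.Lib_helper60.HSF.D_WL

/-!
# Project HS, part Z, block LE1: four steps are Lipschitz
-/

namespace Pool.Agent.HS

noncomputable section

open Set Filter Topology
open scoped ContDiff

/-- one step -/
theorem le1_step {F : ℝ × ℝ × Pl → Pl} {v w : Pl} {ν r : ℝ} (hr : 0 < r)
    (hF : ContDiffOn ℝ 2 F (Metric.ball (0, ν, v) r)) (hv : F (0, ν, v) = w) (ρ : ℝ)
    (hρ : 0 < ρ) : ∃ s L : ℝ, 0 < s ∧ s ≤ ρ ∧ s < r ∧ 1 ≤ L ∧
      (∀ C n X, |C| ≤ s → |n - ν| ≤ s → ‖X - v‖ ≤ s → ‖F (C, n, X) - w‖ ≤ ρ) ∧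
      (∀ C n X C' n' X', |C| ≤ s → |n - ν| ≤ s → ‖X - v‖ ≤ s → |C'| ≤ s → |n' - ν| ≤ s →
        ‖X' - v‖ ≤ s →
        ‖F (C, n, X) - F (C', n', X')‖ ≤ L * (|C - C'| + |n - n'| + ‖X - X'‖)) := by
  have hc : ContDiffAt ℝ 1 F (0, ν, v) := by
    have h2 : ContDiffAt ℝ 2 F (0, ν, v) :=
      hF.contDiffAt (Metric.ball_mem_nhds _ hr)
    exact h2.of_le (by norm_num)
  obtain ⟨K, t, ht, hK⟩ := hc.exists_lipschitzOnWith
  obtain ⟨s1, hs1, hs1t⟩ := Metric.mem_nhds_iff.1 ht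
  set s : ℝ := min (min (s1 / 2) (r / 2)) (ρ / (K + 1)) with hs
  have hK0 : (0:ℝ) ≤ K := K.2
  have hK1 : (0:ℝ) < K + 1 := by positivity
  have hs0 : 0 < s := by
    rw [hs]; refine lt_min (lt_min (by linarith) (by linarith)) (div_pos hρ hK1)
  have hss1 : s < s1 := by
    have : s ≤ s1 / 2 := (min_le_left _ _).trans (min_le_left _ _)
    linarith
  have hsr : s < r := by
    have : s ≤ r / 2 := (min_le_left _ _).trans (min_le_right _ _)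
    linarith
  have hsK : s * (K + 1) ≤ ρ := by
    have : s ≤ ρ / (K + 1) := min_le_right _ _
    exact (le_div_iff₀ hK1).1 this
  have hsρ : s ≤ ρ := by nlinarith [mul_nonneg hs0.le hK0]
  have hmem : ∀ (C n : ℝ) (X : Pl), |C| ≤ s → |n - ν| ≤ s → ‖X - v‖ ≤ s →
      ((C, n, X) : ℝ × ℝ × Pl) ∈ t := by
    intro C n X h1 h2 h3
    apply hs1t
    rw [Metric.mem_ball, dist_eq_norm]
    refine lt_of_le_of_lt ?_ hss1
    rw [Prod.norm_def, Prod.norm_def]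
    refine max_le ?_ (max_le ?_ ?_)
    · simpa using h1
    · simpa using h2
    · simpa using h3
  have hdist : ∀ (C n : ℝ) (X : Pl) (C' n' : ℝ) (X' : Pl),
      ‖((C, n, X) : ℝ × ℝ × Pl) - (C', n', X')‖ ≤ |C - C'| + |n - n'| + ‖X - X'‖ := by
    intro C n X C' n' X'
    have a1 := abs_nonneg (C - C')
    have a2 := abs_nonneg (n - n')
    have a3 := norm_nonneg (X - X')
    rw [Prod.norm_def, Prod.norm_def]
    refine max_le ?_ (max_le ?_ ?_)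
    · have : ‖(((C, n, X) : ℝ × ℝ × Pl) - (C', n', X')).1‖ = |C - C'| := by simp
      linarith
    · have : ‖(((C, n, X) : ℝ × ℝ × Pl) - (C', n', X')).2.1‖ = |n - n'| := by simp
      linarith
    · have : ‖(((C, n, X) : ℝ × ℝ × Pl) - (C', n', X')).2.2‖ = ‖X - X'‖ := by simp
      linarith
  have hL : ∀ (C n : ℝ) (X : Pl) (C' n' : ℝ) (X' : Pl), |C| ≤ s → |n - ν| ≤ s → ‖X - v‖ ≤ s →
      |C'| ≤ s → |n' - ν| ≤ s → ‖X' - v‖ ≤ s →
      ‖F (C, n, X) - F (C', n', X')‖ ≤ K * ‖((C, n, X) : ℝ × ℝ × Pl) - (C', n', X')‖ := by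
    intro C n X C' n' X' h1 h2 h3 h4 h5 h6
    have := hK.dist_le_mul _ (hmem C n X h1 h2 h3) _ (hmem C' n' X' h4 h5 h6)
    rwa [dist_eq_norm, dist_eq_norm] at this
  refine ⟨s, K + 1, hs0, hsρ, hsr, by linarith, ?_, ?_⟩
  · intro C n X h1 h2 h3
    have h := hL C n X 0 ν v h1 h2 h3 (by simpa using hs0.le) (by simpa using hs0.le)
      (by simpa using hs0.le)
    rw [hv] at h
    have hn : ‖((C, n, X) : ℝ × ℝ × Pl) - (0, ν, v)‖ ≤ s := by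
      rw [Prod.norm_def, Prod.norm_def]
      refine max_le ?_ (max_le ?_ ?_)
      · simpa using h1
      · simpa using h2
      · simpa using h3
    calc ‖F (C, n, X) - w‖ ≤ K * ‖((C, n, X) : ℝ × ℝ × Pl) - (0, ν, v)‖ := h
      _ ≤ K * s := mul_le_mul_of_nonneg_left hn hK0
      _ ≤ ρ := by nlinarith
  · intro C n X C' n' X' h1 h2 h3 h4 h5 h6
    have h := hL C n X C' n' X' h1 h2 h3 h4 h5 h6
    have hd := hdist C n X C' n' X'
    have h0 : 0 ≤ |C - C'| + |n - n'| + ‖X - X'‖ := by positivity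
    calc ‖F (C, n, X) - F (C', n', X')‖
        ≤ K * ‖((C, n, X) : ℝ × ℝ × Pl) - (C', n', X')‖ := h
      _ ≤ K * (|C - C'| + |n - n'| + ‖X - X'‖) := mul_le_mul_of_nonneg_left hd hK0
      _ ≤ (K + 1) * (|C - C'| + |n - n'| + ‖X - X'‖) := by nlinarith

theorem four_lip_pr {F : Fin 4 → ℝ × ℝ × Pl → Pl} {v : Fin 4 → Pl} {ν : Fin 4 → ℝ} {r : ℝ}
    {J : Fin 4 → Pl → Pl} {V : Fin 4 → Pl} {A : Pl → Pl} (h : Four F v ν r J V A) (r1 : ℝ)
    (hr1 : 0 < r1) : ∃ R L : ℝ, 0 < R ∧ R ≤ r1 ∧ R < r ∧ 1 ≤ L ∧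
      (∀ C n X, Rng ν (v 0) R C n X → ‖st1 F C n X - v 1‖ ≤ r1 ∧ ‖st2 F C n X - v 2‖ ≤ r1 ∧
        ‖st3 F C n X - v 3‖ ≤ r1 ∧ ‖st4 F C n X - v 0‖ ≤ r1) ∧
      (∀ C n X C' n' X', Rng ν (v 0) R C n X → Rng ν (v 0) R C' n' X' →
        ‖st1 F C n X - st1 F C' n' X'‖ ≤ L * (|C - C'| + ‖n - n'‖ + ‖X - X'‖) ∧
        ‖st2 F C n X - st2 F C' n' X'‖ ≤ L * (|C - C'| + ‖n - n'‖ + ‖X - X'‖) ∧
        ‖st3 F C n X - st3 F C' n' X'‖ ≤ L * (|C - C'| + ‖n - n'‖ + ‖X - X'‖) ∧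
        ‖st4 F C n X - st4 F C' n' X'‖ ≤ L * (|C - C'| + ‖n - n'‖ + ‖X - X'‖)) := by
  have e1 : ((0 : Fin 4) + 1) = 1 := rfl
  have e2 : ((1 : Fin 4) + 1) = 2 := rfl
  have e3 : ((2 : Fin 4) + 1) = 3 := rfl
  have e4 : ((3 : Fin 4) + 1) = 0 := rfl
  have v0 := h.val 0
  have v1 := h.val 1
  have v2 := h.val 2
  have v3 := h.val 3
  rw [e1] at v0
  rw [e2] at v1
  rw [e3] at v2
  rw [e4] at v3
  obtain ⟨s3, L3, p3, q3, t3, o3, a3, b3⟩ := le1_step h.hr (h.reg 3) v3 r1 hr1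
  obtain ⟨s2, L2, p2, q2, t2, o2, a2, b2⟩ := le1_step h.hr (h.reg 2) v2 s3 p3
  obtain ⟨s1, L1, p1, q1, t1, o1, a1, b1⟩ := le1_step h.hr (h.reg 1) v1 s2 p2
  obtain ⟨s0, L0, p0, q0, t0, o0, a0, b0⟩ := le1_step h.hr (h.reg 0) v0 s1 p1
  -- positions
  have P1 : ∀ C n X, Rng ν (v 0) s0 C n X → ‖st1 F C n X - v 1‖ ≤ s1 := by
    intro C n X hR
    exact a0 C (n 0) X hR.1 (hR.2.1 0) hR.2.2
  have P2 : ∀ C n X, Rng ν (v 0) s0 C n X → ‖st2 F C n X - v 2‖ ≤ s2 := by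
    intro C n X hR
    exact a1 C (n 1) _ (hR.1.trans q0) ((hR.2.1 1).trans q0) (P1 C n X hR)
  have P3 : ∀ C n X, Rng ν (v 0) s0 C n X → ‖st3 F C n X - v 3‖ ≤ s3 := by
    intro C n X hR
    exact a2 C (n 2) _ (hR.1.trans (q0.trans q1)) ((hR.2.1 2).trans (q0.trans q1)) (P2 C n X hR)
  have P4 : ∀ C n X, Rng ν (v 0) s0 C n X → ‖st4 F C n X - v 0‖ ≤ r1 := by
    intro C n X hR
    exact a3 C (n 3) _ (hR.1.trans (q0.trans (q1.trans q2)))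
      ((hR.2.1 3).trans (q0.trans (q1.trans q2))) (P3 C n X hR)
  have z0 : 0 < L0 := by linarith
  have z1 : 0 < L1 := by linarith
  have z2 : 0 < L2 := by linarith
  have z3 : 0 < L3 := by linarith
  have M1 : L0 ≤ L1 * (1 + L0) := by nlinarith
  have M2 : L1 * (1 + L0) ≤ L2 * (1 + L1 * (1 + L0)) := by
    have : 0 < L1 * (1 + L0) := by positivity
    nlinarith
  have M3 : L2 * (1 + L1 * (1 + L0)) ≤ L3 * (1 + L2 * (1 + L1 * (1 + L0))) := by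
    have : 0 < L2 * (1 + L1 * (1 + L0)) := by positivity
    nlinarith
  refine ⟨s0, L3 * (1 + L2 * (1 + L1 * (1 + L0))), p0, ?_, t0, by linarith, ?_, ?_⟩
  · exact q0.trans (q1.trans (q2.trans q3))
  · intro C n X hR
    exact ⟨(P1 C n X hR).trans (q1.trans (q2.trans q3)), (P2 C n X hR).trans (q2.trans q3),
      (P3 C n X hR).trans q3, P4 C n X hR⟩
  · intro C n X C' n' X' hR hR'
    have hn : ∀ k, |n k - n' k| ≤ ‖n - n'‖ := by
      intro k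
      have := norm_le_pi_norm (n - n') k
      simpa using this
    set d : ℝ := |C - C'| + ‖n - n'‖ + ‖X - X'‖ with hd
    have d0 : 0 ≤ d := by rw [hd]; positivity
    have c1 : |C - C'| + ‖n - n'‖ ≤ d := by
      rw [hd]; linarith [norm_nonneg (X - X')]
    have A1 : ‖st1 F C n X - st1 F C' n' X'‖ ≤ L0 * d := by
      have := b0 C (n 0) X C' (n' 0) X' hR.1 (hR.2.1 0) hR.2.2 hR'.1 (hR'.2.1 0) hR'.2.2
      refine this.trans (mul_le_mul_of_nonneg_left ?_ z0.le)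
      rw [hd]; linarith [hn 0]
    have A2 : ‖st2 F C n X - st2 F C' n' X'‖ ≤ L1 * (1 + L0) * d := by
      have := b1 C (n 1) (st1 F C n X) C' (n' 1) (st1 F C' n' X') (hR.1.trans q0)
        ((hR.2.1 1).trans q0) (P1 C n X hR) (hR'.1.trans q0) ((hR'.2.1 1).trans q0)
        (P1 C' n' X' hR')
      refine this.trans ?_
      rw [mul_assoc]
      refine mul_le_mul_of_nonneg_left ?_ z1.le
      linarith [hn 1]
    have A3 : ‖st3 F C n X - st3 F C' n' X'‖ ≤ L2 * (1 + L1 * (1 + L0)) * d := by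
      have := b2 C (n 2) (st2 F C n X) C' (n' 2) (st2 F C' n' X') (hR.1.trans (q0.trans q1))
        ((hR.2.1 2).trans (q0.trans q1)) (P2 C n X hR) (hR'.1.trans (q0.trans q1))
        ((hR'.2.1 2).trans (q0.trans q1)) (P2 C' n' X' hR')
      refine this.trans ?_
      rw [mul_assoc]
      refine mul_le_mul_of_nonneg_left ?_ z2.le
      linarith [hn 2]
    have A4 : ‖st4 F C n X - st4 F C' n' X'‖ ≤ L3 * (1 + L2 * (1 + L1 * (1 + L0))) * d := by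
      have := b3 C (n 3) (st3 F C n X) C' (n' 3) (st3 F C' n' X')
        (hR.1.trans (q0.trans (q1.trans q2))) ((hR.2.1 3).trans (q0.trans (q1.trans q2)))
        (P3 C n X hR) (hR'.1.trans (q0.trans (q1.trans q2)))
        ((hR'.2.1 3).trans (q0.trans (q1.trans q2))) (P3 C' n' X' hR')
      refine this.trans ?_
      rw [mul_assoc]
      refine mul_le_mul_of_nonneg_left ?_ z3.le
      linarith [hn 3]
    refine ⟨A1.trans ?_, A2.trans ?_, A3.trans ?_, A4⟩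
    · exact mul_le_mul_of_nonneg_right (M1.trans (M2.trans M3)) d0
    · exact mul_le_mul_of_nonneg_right (M2.trans M3) d0
    · exact mul_le_mul_of_nonneg_right M3 d0

end

end Pool.Agent.HS

namespace Pool.Agent.HS
open Set Filter Topology
open scoped ContDiff

theorem four_lip {F : Fin 4 → ℝ × ℝ × Pl → Pl} {v : Fin 4 → Pl} {ν : Fin 4 → ℝ} {r : ℝ}
    {J : Fin 4 → Pl → Pl} {V : Fin 4 → Pl} {A : Pl → Pl} (h : Four F v ν r J V A) (r1 : ℝ)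
    (hr1 : 0 < r1) : ∃ R L : ℝ, 0 < R ∧ R ≤ r1 ∧ R < r ∧ 1 ≤ L ∧
      (∀ C n X, Rng ν (v 0) R C n X → ‖st1 F C n X - v 1‖ ≤ r1 ∧ ‖st2 F C n X - v 2‖ ≤ r1 ∧
        ‖st3 F C n X - v 3‖ ≤ r1 ∧ ‖st4 F C n X - v 0‖ ≤ r1) ∧
      (∀ C n X C' n' X', Rng ν (v 0) R C n X → Rng ν (v 0) R C' n' X' →
        ‖st1 F C n X - st1 F C' n' X'‖ ≤ L * (|C - C'| + ‖n - n'‖ + ‖X - X'‖) ∧
        ‖st2 F C n X - st2 F C' n' X'‖ ≤ L * (|C - C'| + ‖n - n'‖ + ‖X - X'‖) ∧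
        ‖st3 F C n X - st3 F C' n' X'‖ ≤ L * (|C - C'| + ‖n - n'‖ + ‖X - X'‖) ∧
        ‖st4 F C n X - st4 F C' n' X'‖ ≤ L * (|C - C'| + ‖n - n'‖ + ‖X - X'‖)) :=
  @Pool.Agent.HS.four_lip_pr F v ν r J V A h r1 hr1

end Pool.Agent.HS
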