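import Pool.Agent.Lib_helper60.HSF.D_WL

/-!
# Project HS, part Z, block LE2: four steps, the linear part (helper75)
-/

namespace Pool.Agent.HS

noncomputable section

open Set Filter Topology
open scoped ContDiff

theorem le2_der {F : Fin 4 → ℝ × ℝ × Pl → Pl} {v : Fin 4 → Pl} {ν : Fin 4 → ℝ} {r : ℝ}
    {J : Fin 4 → Pl → Pl} {V : Fin 4 → Pl} {A : Pl → Pl} (h : Four F v ν r J V A) (k : Fin 4) :
    ∃ D : (ℝ × ℝ × Pl) →L[ℝ] Pl, HasStrictFDerivAt (F k) D (0, ν k, v k) ∧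
      ∀ w, D (0, 0, w) = J k w := by
  have hc : ContDiffAt ℝ 2 (F k) (0, ν k, v k) :=
    (h.reg k).contDiffAt (Metric.ball_mem_nhds _ h.hr)
  have hs : HasStrictFDerivAt (F k) (fderiv ℝ (F k) (0, ν k, v k)) (0, ν k, v k) :=
    hc.hasStrictFDerivAt (by norm_num)
  refine ⟨_, hs, fun w => ?_⟩
  have hcomp : HasFDerivAt (fun q : ℝ × Pl => F k (0, q.1, q.2))
      ((fderiv ℝ (F k) (0, ν k, v k)).comp (ContinuousLinearMap.inr ℝ ℝ (ℝ × Pl)))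
      (ν k, v k) := by
    have h1 : HasFDerivAt (fun q : ℝ × Pl => ((0 : ℝ), q))
        (ContinuousLinearMap.inr ℝ ℝ (ℝ × Pl)) (ν k, v k) :=
      hasFDerivAt_prodMk_right 0 (ν k, v k)
    exact hs.hasFDerivAt.comp (ν k, v k) h1
  have h2 := h.der k 0 w
  rw [hcomp.fderiv] at h2
  simpa using h2

/-- the step `(C, n, X) ↦ F k (C, n k, S X)` -/
theorem le2_step {F : Fin 4 → ℝ × ℝ × Pl → Pl} {k : Fin 4}
    {D : (ℝ × ℝ × Pl) →L[ℝ] Pl} {y : ℝ × ℝ × Pl} {p : ℝ × (Fin 4 → ℝ) × Pl}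
    {S : ℝ × (Fin 4 → ℝ) × Pl → Pl} {S' : (ℝ × (Fin 4 → ℝ) × Pl) →L[ℝ] Pl}
    (hF : HasStrictFDerivAt (F k) D y) (hS : HasStrictFDerivAt S S' p)
    (hy : y = (p.1, p.2.1 k, S p)) :
    ∃ T' : (ℝ × (Fin 4 → ℝ) × Pl) →L[ℝ] Pl,
      HasStrictFDerivAt (fun q => F k (q.1, q.2.1 k, S q)) T' p ∧
      ∀ w : Pl, T' (0, 0, w) = D (0, 0, S' (0, 0, w)) := by
  have h1 : HasStrictFDerivAt (fun q : ℝ × (Fin 4 → ℝ) × Pl => q.1)
      (ContinuousLinearMap.fst ℝ ℝ ((Fin 4 → ℝ) × Pl)) p := hasStrictFDerivAt_fst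
  have h2 : HasStrictFDerivAt (fun q : ℝ × (Fin 4 → ℝ) × Pl => q.2.1 k)
      ((ContinuousLinearMap.proj k).comp ((ContinuousLinearMap.fst ℝ (Fin 4 → ℝ) Pl).comp
        (ContinuousLinearMap.snd ℝ ℝ ((Fin 4 → ℝ) × Pl)))) p :=
    ((ContinuousLinearMap.proj (R := ℝ) (φ := fun _ : Fin 4 => ℝ) k).comp
      ((ContinuousLinearMap.fst ℝ (Fin 4 → ℝ) Pl).comp
        (ContinuousLinearMap.snd ℝ ℝ ((Fin 4 → ℝ) × Pl)))).hasStrictFDerivAt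
  have h3 := h1.prodMk (h2.prodMk hS)
  subst hy
  refine ⟨_, HasStrictFDerivAt.comp (g := F k)
    (f := fun q : ℝ × (Fin 4 → ℝ) × Pl => (q.1, q.2.1 k, S q)) p hF h3, fun w => ?_⟩
  simp

/-- the linear part of the composition -/
theorem four_lin_pr {F : Fin 4 → ℝ × ℝ × Pl → Pl} {v : Fin 4 → Pl} {ν : Fin 4 → ℝ} {r : ℝ}
    {J : Fin 4 → Pl → Pl} {V : Fin 4 → Pl} {A : Pl → Pl} (h : Four F v ν r J V A) (c : ℝ)
    (hc : 0 < c) : ∃ R : ℝ, 0 < R ∧ R < r ∧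
      ∀ C n X Y, Rng ν (v 0) R C n X → Rng ν (v 0) R C n Y →
        ‖st4 F C n X - st4 F C n Y - A (X - Y)‖ ≤ c * ‖X - Y‖ := by
  obtain ⟨D0, hD0, e0⟩ := le2_der h 0
  obtain ⟨D1, hD1, e1⟩ := le2_der h 1
  obtain ⟨D2, hD2, e2⟩ := le2_der h 2
  obtain ⟨D3, hD3, e3⟩ := le2_der h 3
  have v1 : F 0 (0, ν 0, v 0) = v 1 := h.val 0
  have v2 : F 1 (0, ν 1, v 1) = v 2 := h.val 1
  have v3 : F 2 (0, ν 2, v 2) = v 3 := h.val 2
  set p : ℝ × (Fin 4 → ℝ) × Pl := (0, ν, v 0) with hp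
  have hS0 : HasStrictFDerivAt (fun q : ℝ × (Fin 4 → ℝ) × Pl => q.2.2)
      ((ContinuousLinearMap.snd ℝ (Fin 4 → ℝ) Pl).comp
        (ContinuousLinearMap.snd ℝ ℝ ((Fin 4 → ℝ) × Pl))) p :=
    ((ContinuousLinearMap.snd ℝ (Fin 4 → ℝ) Pl).comp
        (ContinuousLinearMap.snd ℝ ℝ ((Fin 4 → ℝ) × Pl))).hasStrictFDerivAt
  obtain ⟨T1, hT1, f1⟩ := le2_step hD0 hS0 (by simp [hp])
  obtain ⟨T2, hT2, f2⟩ := le2_step hD1 hT1 (by simp [hp, v1])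
  obtain ⟨T3, hT3, f3⟩ := le2_step hD2 hT2 (by simp [hp, v1, v2])
  obtain ⟨T4, hT4, f4⟩ := le2_step hD3 hT3 (by simp [hp, v1, v2, v3])
  have hA : ∀ w : Pl, T4 (0, 0, w) = A w := by
    intro w
    rw [f4, f3, f2, f1, e3, e2, e1, e0]
    simpa using h.lin w
  have hT4' : HasStrictFDerivAt (fun q : ℝ × (Fin 4 → ℝ) × Pl => st4 F q.1 q.2.1 q.2.2) T4 p :=
    hT4
  have hlo := (hasStrictFDerivAt_iff_isLittleO.1 hT4').def hc
  rw [Metric.eventually_nhds_iff] at hlo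
  obtain ⟨ε, hε, hlo⟩ := hlo
  refine ⟨min (ε / 2) (r / 2), lt_min (by linarith) (by linarith [h.hr]),
    lt_of_le_of_lt (min_le_right _ _) (by linarith [h.hr]), ?_⟩
  intro C n X Y hX hY
  have hR : ∀ Z, Rng ν (v 0) (min (ε / 2) (r / 2)) C n Z →
      dist ((C, n, Z) : ℝ × (Fin 4 → ℝ) × Pl) p < ε := by
    intro Z hZ
    obtain ⟨a1, a2, a3⟩ := hZ
    have hm : min (ε / 2) (r / 2) ≤ ε / 2 := min_le_left _ _
    rw [hp, Prod.dist_eq, Prod.dist_eq]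
    refine max_lt ?_ (max_lt ?_ ?_)
    · rw [Real.dist_eq, sub_zero]; linarith
    · rw [dist_pi_lt_iff hε]
      intro k
      rw [Real.dist_eq]
      linarith [a2 k]
    · rw [dist_eq_norm]; linarith
  have := @hlo ((C, n, X), (C, n, Y)) (by
    rw [Prod.dist_eq]
    exact max_lt (hR X hX) (hR Y hY))
  simp only at this
  have hsub : ((C, n, X) : ℝ × (Fin 4 → ℝ) × Pl) - (C, n, Y) = (0, 0, X - Y) := by
    simp
  rw [hsub, hA] at this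
  have hn : ‖((0, 0, X - Y) : ℝ × (Fin 4 → ℝ) × Pl)‖ = ‖X - Y‖ := by
    simp [Prod.norm_mk]
  rw [hn] at this
  exact this


end

end Pool.Agent.HS

namespace Pool.Agent.HS
open Set Filter Topology
open scoped ContDiff

theorem four_lin {F : Fin 4 → ℝ × ℝ × Pl → Pl} {v : Fin 4 → Pl} {ν : Fin 4 → ℝ} {r : ℝ}
    {J : Fin 4 → Pl → Pl} {V : Fin 4 → Pl} {A : Pl → Pl} (h : Four F v ν r J V A) (c : ℝ)
    (hc : 0 < c) : ∃ R : ℝ, 0 < R ∧ R < r ∧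
      ∀ C n X Y, Rng ν (v 0) R C n X → Rng ν (v 0) R C n Y →
        ‖st4 F C n X - st4 F C n Y - A (X - Y)‖ ≤ c * ‖X - Y‖ :=
  @Pool.Agent.HS.four_lin_pr F v ν r J V A h c hc

end Pool.Agent.HS
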