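import Pool.Agent.Lib_helper60.HSF.D_WL
import Pool.Agent.Lib_helper60.HSF.Z_ZE

/-!
# Project HS, part Z, block LE3: steering by the last two steps
-/

namespace Pool.Agent.HS

noncomputable section

open Set Filter Topology
open scoped ContDiff

/-- the derivative of a step in the direction `(0, n, w)` -/
theorem le3_der {F : Fin 4 → ℝ × ℝ × Pl → Pl} {v : Fin 4 → Pl} {ν : Fin 4 → ℝ} {r : ℝ}
    {J : Fin 4 → Pl → Pl} {V : Fin 4 → Pl} {A : Pl → Pl} (h : Four F v ν r J V A) (k : Fin 4) :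
    HasFDerivAt (F k) (fderiv ℝ (F k) (0, ν k, v k)) (0, ν k, v k) ∧
      ∀ (n : ℝ) (w : Pl), fderiv ℝ (F k) (0, ν k, v k) (0, n, w) = J k w + n • V k := by
  have h2 : ContDiffAt ℝ 2 (F k) (0, ν k, v k) :=
    (h.reg k).contDiffAt (Metric.ball_mem_nhds _ h.hr)
  have hs : HasFDerivAt (F k) (fderiv ℝ (F k) (0, ν k, v k)) (0, ν k, v k) :=
    (h2.hasStrictFDerivAt (by norm_num)).hasFDerivAt
  refine ⟨hs, ?_⟩
  intro n w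
  have hi : HasFDerivAt (fun q : ℝ × Pl => ((0, q.1, q.2) : ℝ × ℝ × Pl))
      ((0 : ℝ × Pl →L[ℝ] ℝ).prod (ContinuousLinearMap.id ℝ (ℝ × Pl))) (ν k, v k) := by
    exact (hasFDerivAt_const (𝕜 := ℝ) (0:ℝ) ((ν k, v k) : ℝ × Pl)).prodMk
      (hasFDerivAt_id (𝕜 := ℝ) ((ν k, v k) : ℝ × Pl))
  have hc : HasFDerivAt (fun q : ℝ × Pl => F k (0, q.1, q.2))
      ((fderiv ℝ (F k) (0, ν k, v k)).comp
        ((0 : ℝ × Pl →L[ℝ] ℝ).prod (ContinuousLinearMap.id ℝ (ℝ × Pl)))) (ν k, v k) :=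
    HasFDerivAt.comp (ν k, v k) (g := F k) (f := fun q : ℝ × Pl => ((0, q.1, q.2) : ℝ × ℝ × Pl))
      hs hi
  have hd := h.der k n w
  rw [hc.fderiv] at hd
  rw [← hd]
  rfl

theorem four_steer_pr {F : Fin 4 → ℝ × ℝ × Pl → Pl} {v : Fin 4 → Pl} {ν : Fin 4 → ℝ} {r : ℝ}
    {J : Fin 4 → Pl → Pl} {V : Fin 4 → Pl} {A : Pl → Pl} (h : Four F v ν r J V A) (R : ℝ)
    (hR : 0 < R) : ∃ s : ℝ, 0 < s ∧ s ≤ R ∧
      ∀ X Y, ‖X - v 0‖ ≤ s → ‖Y - v 0‖ ≤ s →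
        ∃ n : Fin 4 → ℝ, (∀ k, |n k - ν k| ≤ R) ∧ st4 F 0 n X = Y := by
  have v0 : F 0 (0, ν 0, v 0) = v 1 := h.val 0
  have v1 : F 1 (0, ν 1, v 1) = v 2 := h.val 1
  have v2 : F 2 (0, ν 2, v 2) = v 3 := h.val 2
  have v3 : F 3 (0, ν 3, v 3) = v 0 := h.val 3
  have hcd : ∀ k, ContDiffAt ℝ 2 (F k) (0, ν k, v k) := fun k =>
    (h.reg k).contDiffAt (Metric.ball_mem_nhds _ h.hr)
  let p0 : (Pl × Pl) × (ℝ × ℝ) := ((v 0, v 0), (0, 0))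
  let f : (Pl × Pl) × (ℝ × ℝ) → Pl := fun p =>
    F 3 (0, ν 3 + p.2.2, F 2 (0, ν 2 + p.2.1, F 1 (0, ν 1, F 0 (0, ν 0, p.1.1)))) - p.1.2
  -- regularity of one step
  have key : ∀ (k : Fin 4) (m : (Pl × Pl) × (ℝ × ℝ) → ℝ) (g : (Pl × Pl) × (ℝ × ℝ) → Pl),
      ContDiff ℝ 2 m → m p0 = ν k → ContDiffAt ℝ 2 g p0 → g p0 = v k →
      ContDiffAt ℝ 2 (fun p => F k (0, m p, g p)) p0 := by
    intro k m g hm hm0 hg hg0
    have h1 : ContDiffAt ℝ 2 (fun p : (Pl × Pl) × (ℝ × ℝ) => ((0, m p, g p) : ℝ × ℝ × Pl)) p0 :=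
      contDiffAt_const.prodMk (hm.contDiffAt.prodMk hg)
    have h2 : ContDiffAt ℝ 2 (F k)
        ((fun p : (Pl × Pl) × (ℝ × ℝ) => ((0, m p, g p) : ℝ × ℝ × Pl)) p0) := by
      have : (fun p : (Pl × Pl) × (ℝ × ℝ) => ((0, m p, g p) : ℝ × ℝ × Pl)) p0 = (0, ν k, v k) := by
        show ((0, m p0, g p0) : ℝ × ℝ × Pl) = _
        rw [hm0, hg0]
      rw [this]; exact hcd k
    exact h2.comp p0 h1
  have s0 : ContDiffAt ℝ 2 (fun p : (Pl × Pl) × (ℝ × ℝ) => F 0 (0, ν 0, p.1.1)) p0 :=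
    key 0 (fun _ => ν 0) (fun p => p.1.1) contDiff_const rfl
      (contDiff_fst.comp contDiff_fst).contDiffAt rfl
  have s1 : ContDiffAt ℝ 2 (fun p : (Pl × Pl) × (ℝ × ℝ) =>
      F 1 (0, ν 1, F 0 (0, ν 0, p.1.1))) p0 :=
    key 1 (fun _ => ν 1) (fun p => F 0 (0, ν 0, p.1.1)) contDiff_const rfl s0 v0
  have s2 : ContDiffAt ℝ 2 (fun p : (Pl × Pl) × (ℝ × ℝ) =>
      F 2 (0, ν 2 + p.2.1, F 1 (0, ν 1, F 0 (0, ν 0, p.1.1)))) p0 := by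
    refine key 2 (fun p => ν 2 + p.2.1) (fun p => F 1 (0, ν 1, F 0 (0, ν 0, p.1.1)))
      (contDiff_const.add (contDiff_fst.comp contDiff_snd)) ?_ s1 ?_
    · show ν 2 + 0 = ν 2
      ring
    · show F 1 (0, ν 1, F 0 (0, ν 0, v 0)) = v 2
      rw [v0, v1]
  have s3 : ContDiffAt ℝ 2 (fun p : (Pl × Pl) × (ℝ × ℝ) =>
      F 3 (0, ν 3 + p.2.2, F 2 (0, ν 2 + p.2.1, F 1 (0, ν 1, F 0 (0, ν 0, p.1.1))))) p0 := by
    refine key 3 (fun p => ν 3 + p.2.2)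
      (fun p => F 2 (0, ν 2 + p.2.1, F 1 (0, ν 1, F 0 (0, ν 0, p.1.1))))
      (contDiff_const.add (contDiff_snd.comp contDiff_snd)) ?_ s2 ?_
    · show ν 3 + 0 = ν 3
      ring
    · show F 2 (0, ν 2 + 0, F 1 (0, ν 1, F 0 (0, ν 0, v 0))) = v 3
      rw [v0, v1, add_zero, v2]
  have hf2 : ContDiffAt ℝ 2 f p0 := s3.sub (contDiff_snd.comp contDiff_fst).contDiffAt
  obtain ⟨U, hU, hfU⟩ := hf2.contDiffOn (m := 2) le_rfl (by simp)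
  have hUn : U ∈ 𝓝 p0 := by
    have := hU
    simpa using this
  -- the derivative in the direction of the steering parameters
  obtain ⟨hd2, hv2⟩ := le3_der h 2
  obtain ⟨hd3, hv3⟩ := le3_der h 3
  let P : Pl := J 3 (V 2)
  let Q : Pl := V 3
  have hdet : P.1 * Q.2 - P.2 * Q.1 ≠ 0 := h.det
  have hJ3 : ∀ w : Pl, fderiv ℝ (F 3) (0, ν 3, v 3) (0, 0, w) = J 3 w := by
    intro w
    have := hv3 0 w
    simpa using this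
  have hJ20 : J 2 0 = 0 := by
    have h1 := hv2 0 0
    have h0 : ((0, 0, 0) : ℝ × ℝ × Pl) = 0 := rfl
    rw [h0, map_zero, zero_smul, add_zero] at h1
    exact h1.symm
  let L : (ℝ × ℝ) →L[ℝ] Pl :=
    (ContinuousLinearMap.fst ℝ ℝ ℝ).smulRight P + (ContinuousLinearMap.snd ℝ ℝ ℝ).smulRight Q
  have hLapp : ∀ e : ℝ × ℝ, L e = e.1 • P + e.2 • Q := by
    intro e; rfl
  have hinj : Function.Injective (L : (ℝ × ℝ) →ₗ[ℝ] (ℝ × ℝ)) := by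
    rw [← LinearMap.ker_eq_bot, LinearMap.ker_eq_bot']
    intro e he
    have he' : e.1 • P + e.2 • Q = 0 := he
    have h1 : e.1 * P.1 + e.2 * Q.1 = 0 := by
      have := congrArg Prod.fst he'
      simpa using this
    have h2 : e.1 * P.2 + e.2 * Q.2 = 0 := by
      have := congrArg Prod.snd he'
      simpa using this
    have a1 : e.1 * (P.1 * Q.2 - P.2 * Q.1) = 0 := by
      linear_combination Q.2 * h1 - Q.1 * h2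
    have a2 : e.2 * (P.1 * Q.2 - P.2 * Q.1) = 0 := by
      linear_combination P.1 * h2 - P.2 * h1
    have b1 : e.1 = 0 := (mul_eq_zero.1 a1).resolve_right hdet
    have b2 : e.2 = 0 := (mul_eq_zero.1 a2).resolve_right hdet
    exact Prod.ext b1 b2
  let Ae : (ℝ × ℝ) ≃L[ℝ] Pl :=
    (LinearEquiv.ofInjectiveEndo (L : (ℝ × ℝ) →ₗ[ℝ] (ℝ × ℝ)) hinj).toContinuousLinearEquiv
  have hAe : (Ae : (ℝ × ℝ) →L[ℝ] Pl) = L := by
    refine ContinuousLinearMap.ext fun e => ?_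
    rfl
  have hA : HasFDerivAt (fun e : ℝ × ℝ => f ((v 0, v 0), e)) (Ae : (ℝ × ℝ) →L[ℝ] Pl) (0, 0) := by
    rw [hAe]
    have hfe : (fun e : ℝ × ℝ => f ((v 0, v 0), e)) =
        fun e : ℝ × ℝ => F 3 (0, ν 3 + e.2, F 2 (0, ν 2 + e.1, v 2)) - v 0 := by
      funext e
      show F 3 (0, ν 3 + e.2, F 2 (0, ν 2 + e.1, F 1 (0, ν 1, F 0 (0, ν 0, v 0)))) - v 0 = _
      rw [v0, v1]
    rw [hfe]
    have i2 : HasFDerivAt (fun e : ℝ × ℝ => ((0, ν 2 + e.1, v 2) : ℝ × ℝ × Pl))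
        ((0 : (ℝ × ℝ) →L[ℝ] ℝ).prod ((ContinuousLinearMap.fst ℝ ℝ ℝ).prod
          (0 : (ℝ × ℝ) →L[ℝ] Pl))) (0, 0) := by
      refine (hasFDerivAt_const (𝕜 := ℝ) (0:ℝ) ((0, 0) : ℝ × ℝ)).prodMk
        (HasFDerivAt.prodMk ?_ (hasFDerivAt_const (𝕜 := ℝ) (v 2) ((0, 0) : ℝ × ℝ)))
      exact (hasFDerivAt_fst (𝕜 := ℝ) (p := ((0, 0) : ℝ × ℝ))).const_add (ν 2)
    have c2 : HasFDerivAt (fun e : ℝ × ℝ => F 2 (0, ν 2 + e.1, v 2))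
        ((fderiv ℝ (F 2) (0, ν 2, v 2)).comp
          ((0 : (ℝ × ℝ) →L[ℝ] ℝ).prod ((ContinuousLinearMap.fst ℝ ℝ ℝ).prod
          (0 : (ℝ × ℝ) →L[ℝ] Pl)))) (0, 0) := by
      refine HasFDerivAt.comp ((0, 0) : ℝ × ℝ) (g := F 2)
        (f := fun e : ℝ × ℝ => ((0, ν 2 + e.1, v 2) : ℝ × ℝ × Pl)) ?_ i2
      show HasFDerivAt (F 2) _ (0, ν 2 + 0, v 2)
      rw [add_zero]; exact hd2
    have i3 : HasFDerivAt (fun e : ℝ × ℝ =>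
        ((0, ν 3 + e.2, F 2 (0, ν 2 + e.1, v 2)) : ℝ × ℝ × Pl))
        ((0 : (ℝ × ℝ) →L[ℝ] ℝ).prod ((ContinuousLinearMap.snd ℝ ℝ ℝ).prod
          ((fderiv ℝ (F 2) (0, ν 2, v 2)).comp
          ((0 : (ℝ × ℝ) →L[ℝ] ℝ).prod ((ContinuousLinearMap.fst ℝ ℝ ℝ).prod
          (0 : (ℝ × ℝ) →L[ℝ] Pl)))))) (0, 0) := by
      refine (hasFDerivAt_const (𝕜 := ℝ) (0:ℝ) ((0, 0) : ℝ × ℝ)).prodMk
        (HasFDerivAt.prodMk ?_ c2)
      exact (hasFDerivAt_snd (𝕜 := ℝ) (p := ((0, 0) : ℝ × ℝ))).const_add (ν 3)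
    have c3 : HasFDerivAt (fun e : ℝ × ℝ => F 3 (0, ν 3 + e.2, F 2 (0, ν 2 + e.1, v 2)))
        ((fderiv ℝ (F 3) (0, ν 3, v 3)).comp
        ((0 : (ℝ × ℝ) →L[ℝ] ℝ).prod ((ContinuousLinearMap.snd ℝ ℝ ℝ).prod
          ((fderiv ℝ (F 2) (0, ν 2, v 2)).comp
          ((0 : (ℝ × ℝ) →L[ℝ] ℝ).prod ((ContinuousLinearMap.fst ℝ ℝ ℝ).prod
          (0 : (ℝ × ℝ) →L[ℝ] Pl))))))) (0, 0) := by
      refine HasFDerivAt.comp ((0, 0) : ℝ × ℝ) (g := F 3)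
        (f := fun e : ℝ × ℝ => ((0, ν 3 + e.2, F 2 (0, ν 2 + e.1, v 2)) : ℝ × ℝ × Pl)) ?_ i3
      show HasFDerivAt (F 3) _ (0, ν 3 + 0, F 2 (0, ν 2 + 0, v 2))
      rw [add_zero, add_zero, v2]; exact hd3
    have hLeq : ((fderiv ℝ (F 3) (0, ν 3, v 3)).comp
        ((0 : (ℝ × ℝ) →L[ℝ] ℝ).prod ((ContinuousLinearMap.snd ℝ ℝ ℝ).prod
          ((fderiv ℝ (F 2) (0, ν 2, v 2)).comp
          ((0 : (ℝ × ℝ) →L[ℝ] ℝ).prod ((ContinuousLinearMap.fst ℝ ℝ ℝ).prod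
          (0 : (ℝ × ℝ) →L[ℝ] Pl))))))) = L := by
      refine ContinuousLinearMap.ext fun e => ?_
      show fderiv ℝ (F 3) (0, ν 3, v 3) (0, e.2, fderiv ℝ (F 2) (0, ν 2, v 2) (0, e.1, 0)) = _
      rw [hv2, hv3, hJ20, zero_add, hLapp]
      have : J 3 (e.1 • V 2) = e.1 • J 3 (V 2) := by
        rw [← hJ3, ← hJ3, ← map_smul]
        congr 1
        simp
      rw [this]
    rw [hLeq] at c3
    have := c3.sub_const (v 0)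
    exact this
  have hz : f ((v 0, v 0), (0, 0)) = 0 := by
    show F 3 (0, ν 3 + 0, F 2 (0, ν 2 + 0, F 1 (0, ν 1, F 0 (0, ν 0, v 0)))) - v 0 = 0
    rw [v0, v1, add_zero, add_zero, v2, v3, sub_self]
  obtain ⟨ρ, ρ', hρ, hρ', hρR, g, hg, hg0, hgp⟩ := ift (P := Pl × Pl) (E := ℝ × ℝ) (F := Pl) f
    (interior U) isOpen_interior (hfU.mono interior_subset) (v 0, v 0) (0, 0)
    (mem_interior_iff_mem_nhds.2 hUn) hz Ae hA R hR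
  refine ⟨min R (ρ / 2), lt_min hR (by linarith), min_le_left _ _, ?_⟩
  intro X Y hX hY
  have hin : ((X, Y) : Pl × Pl) ∈ Metric.ball ((v 0, v 0) : Pl × Pl) ρ := by
    rw [Metric.mem_ball, Prod.dist_eq, dist_eq_norm, dist_eq_norm]
    have h1 : ‖X - v 0‖ ≤ ρ / 2 := hX.trans (min_le_right _ _)
    have h2 : ‖Y - v 0‖ ≤ ρ / 2 := hY.trans (min_le_right _ _)
    exact max_lt (by linarith) (by linarith)
  obtain ⟨ha, -, hb, -⟩ := hgp _ hin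
  have ha' : ‖g (X, Y)‖ < ρ' := by
    have := ha
    have h0 : ((0, 0) : ℝ × ℝ) = 0 := rfl
    rw [Metric.mem_ball, dist_eq_norm, h0, sub_zero] at this
    exact this
  have h1 : |(g (X, Y)).1| ≤ R := by
    have : ‖(g (X, Y)).1‖ ≤ ‖g (X, Y)‖ := norm_fst_le _
    rw [Real.norm_eq_abs] at this
    linarith
  have h2 : |(g (X, Y)).2| ≤ R := by
    have : ‖(g (X, Y)).2‖ ≤ ‖g (X, Y)‖ := norm_snd_le _
    rw [Real.norm_eq_abs] at this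
    linarith
  refine ⟨![ν 0, ν 1, ν 2 + (g (X, Y)).1, ν 3 + (g (X, Y)).2], ?_, ?_⟩
  · intro k
    fin_cases k
    · simpa using hR.le
    · simpa using hR.le
    · simpa using h1
    · simpa using h2
  · have hb' : F 3 (0, ν 3 + (g (X, Y)).2, F 2 (0, ν 2 + (g (X, Y)).1,
        F 1 (0, ν 1, F 0 (0, ν 0, X)))) - Y = 0 := hb
    exact sub_eq_zero.1 hb'

end

end Pool.Agent.HS

namespace Pool.Agent.HS
open Set Filter Topology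
open scoped ContDiff

theorem four_steer {F : Fin 4 → ℝ × ℝ × Pl → Pl} {v : Fin 4 → Pl} {ν : Fin 4 → ℝ} {r : ℝ}
    {J : Fin 4 → Pl → Pl} {V : Fin 4 → Pl} {A : Pl → Pl} (h : Four F v ν r J V A) (R : ℝ)
    (hR : 0 < R) : ∃ s : ℝ, 0 < s ∧ s ≤ R ∧
      ∀ X Y, ‖X - v 0‖ ≤ s → ‖Y - v 0‖ ≤ s →
        ∃ n : Fin 4 → ℝ, (∀ k, |n k - ν k| ≤ R) ∧ st4 F 0 n X = Y :=
  @Pool.Agent.HS.four_steer_pr F v ν r J V A h R hR

end Pool.Agent.HS
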