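import Pool.Agent.Lib_helper60.HSF.D_WL
import Pool.Agent.Lib_helper60.HSF.Z_LA
import Pool.Agent.Lib_helper60.HSF.Z_LE2
import Pool.Agent.Lib_helper60.HSF.Z_LE1
import Pool.Agent.Lib_helper60.HSF.E_E1b
import Pool.Agent.Lib_helper60.HSF.Z_ZC
import Pool.Agent.Lib_helper60.HSF.Z_LB

namespace Pool.Agent.HS

noncomputable section

open Set Filter Topology
open scoped ContDiff

/-- Lipschitz on the closed ball of half the radius -/
theorem lf1_lip {E : Type*} [NormedAddCommGroup E] [NormedSpace ℝ E] {f : ℝ × ℝ × Pl → E}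
    {x : ℝ × ℝ × Pl} {r : ℝ} (hr : 0 < r) (hf : ContDiffOn ℝ 2 f (Metric.ball x r)) :
    ∃ L : ℝ, 0 ≤ L ∧ ∀ p ∈ Metric.closedBall x (r / 2), ∀ q ∈ Metric.closedBall x (r / 2),
      ‖f p - f q‖ ≤ L * ‖p - q‖ := by
  have hs : Metric.closedBall x (r / 2) ⊆ Metric.ball x r :=
    Metric.closedBall_subset_ball (by linarith)
  obtain ⟨K, hK⟩ := (hf.mono hs).exists_lipschitzOnWith (by norm_num) (convex_closedBall x (r / 2))
    (isCompact_closedBall x (r / 2))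
  refine ⟨K, K.2, fun p hp q hq => ?_⟩
  have := hK.dist_le_mul p hp q hq
  rwa [dist_eq_norm, dist_eq_norm] at this

theorem lf1_V_ne (i : Fin 2) (k : Fin 4) : -(lvj i k / (mΛ * lvν i k ^ 2)) ≠ 0 := by
  obtain ⟨-, -, -, -, hj, hν, -, -, -, -⟩ := model_vtx i k
  obtain ⟨-, -, -, -, -, -, -, -, -, -, hm, -, -⟩ := z_bounds
  have h1 : lvj i k ≠ 0 := by
    rcases hj with h | h <;> rw [h] <;> norm_num
  have h2 : mΛ * lvν i k ^ 2 ≠ 0 := by
    have : 0 < mΛ := by linarith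
    positivity
  exact neg_ne_zero.2 (div_ne_zero h1 h2)

theorem lf1_mJ_smul (ϖ χ c : ℝ) (v : Pl) : mJ ϖ χ (c • v) = c • mJ ϖ χ v := by
  unfold mJ
  refine Prod.ext ?_ ?_
  · simp only [Prod.smul_fst, Prod.smul_snd, smul_eq_mul]
    ring
  · simp only [Prod.smul_fst, Prod.smul_snd, smul_eq_mul]
    ring

theorem lf1_four (i : Fin 2) {r : ℝ} (hr : 0 < r) (g : Fin 4 → ℝ × ℝ × Pl → ℝ)
    (hg : ∀ k, SData i k r (g k)) :
    Four (fun k p => zF p.1 p.2.2 (g k p)) (vtx i) (lvν i) r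
      (fun k => mJ (zϖ (vtx i k)) (dir i k))
      (fun k => (-(lvj i k / (mΛ * lvν i k ^ 2))) • mV (zϖ (vtx i k)) (dir i k)) (lin i) where
  hr := hr
  reg := fun k => (hg k).regF
  val := fun k => by
    show zF 0 (vtx i k) (g k (0, lvν i k, vtx i k)) = vtx i (k + 1)
    rw [(hg k).val, (hg k).valF]
  der := fun k n w => by
    have h := (hg k).der n w
    refine h.trans ?_
    congr 1
    rw [smul_smul]
    congr 1
    ring
  lin := fun w => model_lin i w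
  det := by
    have h := model_det i
    have a2 := lf1_V_ne i 2
    have a3 := lf1_V_ne i 3
    intro h0
    apply h
    set c2 := -(lvj i 2 / (mΛ * lvν i 2 ^ 2)) with hc2
    set c3 := -(lvj i 3 / (mΛ * lvν i 3 ^ 2)) with hc3

    rw [lf1_mJ_smul] at h0
    simp only [Prod.smul_fst, Prod.smul_snd, smul_eq_mul] at h0
    have h1 : c2 * c3 * ((mJ (zϖ (vtx i 3)) (dir i 3) (mV (zϖ (vtx i 2)) (dir i 2))).1 *
        (mV (zϖ (vtx i 3)) (dir i 3)).2 -
      (mJ (zϖ (vtx i 3)) (dir i 3) (mV (zϖ (vtx i 2)) (dir i 2))).2 *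
        (mV (zϖ (vtx i 3)) (dir i 3)).1) = 0 := by
      rw [← h0]; ring
    exact (mul_eq_zero.1 h1).resolve_left (mul_ne_zero a2 a3)

theorem lf1_mem {C ν ν0 s : ℝ} {X v : Pl} (h1 : |C| ≤ s) (h2 : |ν - ν0| ≤ s)
    (h3 : ‖X - v‖ ≤ s) : ((C, ν, X) : ℝ × ℝ × Pl) ∈ Metric.closedBall ((0, ν0, v) : ℝ × ℝ × Pl) s := by
  rw [Metric.mem_closedBall, dist_eq_norm]
  have e : ((C, ν, X) : ℝ × ℝ × Pl) - (0, ν0, v) = (C, ν - ν0, X - v) := by
    simp
  rw [e]
  refine max_le (by simpa using h1) (max_le (by simpa using h2) h3)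

theorem loop_pw_pr (i : Fin 2) {r : ℝ} (hr : 0 < r) (g : Fin 4 → ℝ × ℝ × Pl → ℝ)
    (hg : ∀ k, SData i k r (g k)) : ∃ R L : ℝ, 0 < R ∧ R < r ∧ 1 ≤ L ∧
      ∀ C, 0 < C → C ≤ R → ∀ K : Fin 4 → ℕ, (∀ k, |K k * C - lvν i k| ≤ R) →
        PW C (Metric.closedBall 0 R) (loopLD g C K) ∧
        PW C (Metric.closedBall 0 R) (loop3 g C K) ∧
        PW C (Metric.closedBall Xcp R) (loop4 g C K) ∧
        LLim L (1 / 100) i (Metric.closedBall 0 R) (loopLD g C K) ∧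
        (∀ X ∈ Metric.closedBall (0 : Pl) R,
          |(loopLD g C K).χ X - dir i 0| ≤ 1 / 200 ∧ |(loopLD g C K).θ X - Real.pi / 2| ≤ 1 / 200 ∧
          |(loop3 g C K).θ X - dir i 2| ≤ 1 / 200 ∧
          (loopLD g C K).F X =
            st4 (fun k p => zF p.1 p.2.2 (g k p)) C (fun k => K k * C) X ∧
          (loop3 g C K).F X =
            st3 (fun k p => zF p.1 p.2.2 (g k p)) C (fun k => K k * C) X) ∧
        (∀ X ∈ Metric.closedBall Xcp R, |(loop4 g C K).χ X - Real.pi / 2| ≤ 1 / 200) := by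
  have hF := lf1_four i hr g hg
  obtain ⟨R1, L1, hR1, hR1r, hR1r', hL1, hst, hlip⟩ := four_lip hF (r / 4) (by linarith)
  obtain ⟨R2, hR2, hR2r, hlin⟩ := four_lin hF (1 / 1000) (by norm_num)
  obtain ⟨Lg, hLg, hlg⟩ := lf1_lip hr (hg 0).reg
  obtain ⟨Lt, hLt, hlt⟩ := lf1_lip hr (hg 3).regθ
  set R := min (min R1 R2) (min 1 (r / 4)) with hRdef
  have hR : 0 < R := lt_min (lt_min hR1 hR2) (lt_min one_pos (by linarith))
  have hRR1 : R ≤ R1 := (min_le_left _ _).trans (min_le_left _ _)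
  have hRR2 : R ≤ R2 := (min_le_left _ _).trans (min_le_right _ _)
  have hR1' : R ≤ 1 := (min_le_right _ _).trans (min_le_left _ _)
  have hRr : R ≤ r / 4 := (min_le_right _ _).trans (min_le_right _ _)
  have v0 : vtx i 0 = 0 := (model_vtx i 0).2.2.2.2.2.2.2.2.1
  have d3 : dir i 3 = Real.pi / 2 := (model_vtx i 0).2.2.2.2.2.2.2.2.2
  refine ⟨R, L1 + Lg + Lt * L1, hR, by linarith, by nlinarith, ?_⟩
  intro C hC hCR K hK
  set n : Fin 4 → ℝ := fun k => (K k : ℝ) * C with hn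
  set F : Fin 4 → ℝ × ℝ × Pl → Pl := fun k p => zF p.1 p.2.2 (g k p) with hFd
  have hC1 : 0 < C ∧ C ≤ 1 := ⟨hC, hCR.trans hR1'⟩
  have hCabs : |C| ≤ R := by rw [abs_of_pos hC]; exact hCR
  have hrng : ∀ X ∈ Metric.closedBall (0 : Pl) R, Rng (lvν i) (vtx i 0) R1 C n X := by
    intro X hX
    refine ⟨hCabs.trans hRR1, fun k => (hK k).trans hRR1, ?_⟩
    rw [v0, sub_zero]
    rw [Metric.mem_closedBall, dist_zero_right] at hX
    exact hX.trans hRR1
  have hrng2 : ∀ X ∈ Metric.closedBall (0 : Pl) R, Rng (lvν i) (vtx i 0) R2 C n X := by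
    intro X hX
    refine ⟨hCabs.trans hRR2, fun k => (hK k).trans hRR2, ?_⟩
    rw [v0, sub_zero]
    rw [Metric.mem_closedBall, dist_zero_right] at hX
    exact hX.trans hRR2
  have q0 : ∀ X ∈ Metric.closedBall (0 : Pl) R, ‖X - vtx i 0‖ ≤ r / 4 := by
    intro X hX
    rw [v0, sub_zero]
    rw [Metric.mem_closedBall, dist_zero_right] at hX
    exact hX.trans hRr
  have q1 : ∀ X ∈ Metric.closedBall (0 : Pl) R, ‖st1 F C n X - vtx i 1‖ ≤ r / 4 :=
    fun X hX => (hst C n X (hrng X hX)).1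
  have q2 : ∀ X ∈ Metric.closedBall (0 : Pl) R, ‖st2 F C n X - vtx i 2‖ ≤ r / 4 :=
    fun X hX => (hst C n X (hrng X hX)).2.1
  have q3 : ∀ X ∈ Metric.closedBall (0 : Pl) R, ‖st3 F C n X - vtx i 3‖ ≤ r / 4 :=
    fun X hX => (hst C n X (hrng X hX)).2.2.1
  have hmem : ∀ k : Fin 4, ∀ Y : Pl, ‖Y - vtx i k‖ ≤ r / 4 →
      ((C, n k, Y) : ℝ × ℝ × Pl) ∈ Metric.closedBall ((0, lvν i k, vtx i k) : ℝ × ℝ × Pl) (r / 4) :=
    fun k Y hY => lf1_mem (hCabs.trans hRr) ((hK k).trans hRr) hY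
  have hmem' : ∀ k : Fin 4, ∀ Y : Pl, ‖Y - vtx i k‖ ≤ r / 4 →
      ((C, n k, Y) : ℝ × ℝ × Pl) ∈ Metric.ball ((0, lvν i k, vtx i k) : ℝ × ℝ × Pl) r :=
    fun k Y hY => Metric.closedBall_subset_ball (by linarith) (hmem k Y hY)
  have hmem2 : ∀ k : Fin 4, ∀ Y : Pl, ‖Y - vtx i k‖ ≤ r / 4 →
      ((C, n k, Y) : ℝ × ℝ × Pl) ∈ Metric.closedBall ((0, lvν i k, vtx i k) : ℝ × ℝ × Pl) (r / 2) :=
    fun k Y hY => Metric.closedBall_subset_closedBall (by linarith) (hmem k Y hY)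
  have hnear : ∀ k : Fin 4, ∀ Y : Pl, ‖Y - vtx i k‖ ≤ r / 4 →
      |g k (C, n k, Y) - dir i k| ≤ 1 / 1000 ∧ |zθ C Y (g k (C, n k, Y)) - dir i k| ≤ 1 / 1000 := by
    intro k Y hY
    have h := (hg k).near _ (hmem' k Y hY)
    exact ⟨h.1, h.2.1⟩
  have hacc : ∀ k : Fin 4, ∀ Y Z : Pl, ‖Y - vtx i k‖ ≤ r / 4 → ‖Z - vtx i (k + 1)‖ ≤ r / 4 →
      Acc (1 / 10) 8 (g (k + 1) (C, n (k + 1), Z)) (zθ C Y (g k (C, n k, Y))) := by
    intro k Y Z hY hZ
    refine acc_dir i k _ _ ?_ ?_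
    · have := (hnear (k + 1) Z hZ).1
      linarith
    · have := (hnear k Y hY).2
      linarith
  have hpw : ∀ k : Fin 4, ∀ s, s < r → PW C (Metric.closedBall (vtx i k) s) (sLD (g k) C (n k)) := by
    intro k s hs
    refine (hg k).pw C (K k) hC (by linarith) ?_ s hs
    have := hK k
    linarith
  have hball : ∀ (v Z : Pl), ‖Z - v‖ ≤ r / 4 →
      Metric.closedBall Z (r / 4) ⊆ Metric.closedBall v (r / 2) := by
    intro v Z hZ
    refine Metric.closedBall_subset_closedBall' ?_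
    rw [dist_eq_norm]
    linarith
  set l0 := sLD (g 0) C (n 0) with hl0
  set l1 := sLD (g 1) C (n 1) with hl1
  set l2 := sLD (g 2) C (n 2) with hl2
  set l3 := sLD (g 3) C (n 3) with hl3
  have e : loopLD g C K = ((l0.comp l1).comp l2).comp l3 := rfl
  have F1 : ∀ X, l0.F X = st1 F C n X := fun X => rfl
  have F2 : ∀ X, (l0.comp l1).F X = st2 F C n X := fun X => rfl
  have F3 : ∀ X, ((l0.comp l1).comp l2).F X = st3 F C n X := fun X => rfl
  have F4 : ∀ X, (((l0.comp l1).comp l2).comp l3).F X = st4 F C n X := fun X => rfl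
  have p0 : PW C (Metric.closedBall (0 : Pl) R) l0 := by
    have := hpw 0 R (by linarith)
    rwa [v0] at this
  have p1 : PW C (Metric.closedBall (0 : Pl) R) (l0.comp l1) := by
    refine pw_comp hC1 p0 (hpw 1 (r / 2) (by linarith)) (r := r / 4) (by linarith) ?_ ?_
    · intro X hX
      exact hball _ _ (q1 X hX)
    · intro X hX
      exact hacc 0 X (st1 F C n X) (q0 X hX) (q1 X hX)
  have p2 : PW C (Metric.closedBall (0 : Pl) R) ((l0.comp l1).comp l2) := by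
    refine pw_comp hC1 p1 (hpw 2 (r / 2) (by linarith)) (r := r / 4) (by linarith) ?_ ?_
    · intro X hX
      exact hball _ _ (q2 X hX)
    · intro X hX
      exact hacc 1 (st1 F C n X) (st2 F C n X) (q1 X hX) (q2 X hX)
  have p3 : PW C (Metric.closedBall (0 : Pl) R) (((l0.comp l1).comp l2).comp l3) := by
    refine pw_comp hC1 p2 (hpw 3 (r / 2) (by linarith)) (r := r / 4) (by linarith) ?_ ?_
    · intro X hX
      exact hball _ _ (q3 X hX)
    · intro X hX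
      exact hacc 2 (st2 F C n X) (st3 F C n X) (q2 X hX) (q3 X hX)
  have e3' : loop3 g C K = (l0.comp l1).comp l2 := rfl
  have e4' : loop4 g C K = l3 := rfl
  have v3 : vtx i 3 = Xcp := by
    unfold vtx Xcp
    split_ifs <;> rfl
  have p4 : PW C (Metric.closedBall Xcp R) l3 := by
    have := hpw 3 R (by linarith)
    rwa [v3] at this
  have hθ3 : ∀ X, ((l0.comp l1).comp l2).θ X =
      zθ C (st2 F C n X) (g 2 (C, n 2, st2 F C n X)) := fun X => rfl
  rw [e, e3', e4']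
  have hχ : ∀ X, (((l0.comp l1).comp l2).comp l3).χ X = g 0 (C, n 0, X) := fun X => rfl
  have hθ : ∀ X, (((l0.comp l1).comp l2).comp l3).θ X =
      zθ C (st3 F C n X) (g 3 (C, n 3, st3 F C n X)) := fun X => rfl
  have hθn : ∀ X ∈ Metric.closedBall (0 : Pl) R,
      |(((l0.comp l1).comp l2).comp l3).θ X - Real.pi / 2| ≤ 1 / 1000 := by
    intro X hX
    rw [hθ, ← d3]
    exact (hnear 3 _ (q3 X hX)).2
  have hχn : ∀ X ∈ Metric.closedBall (0 : Pl) R,
      |(((l0.comp l1).comp l2).comp l3).χ X - dir i 0| ≤ 1 / 1000 := by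
    intro X hX
    rw [hχ]
    exact (hnear 0 _ (q0 X hX)).1
  have hL1p : 0 ≤ L1 := by linarith
  have hd : ∀ (k : Fin 4) (Y Z : Pl), ‖((C, n k, Y) : ℝ × ℝ × Pl) - (C, n k, Z)‖ = ‖Y - Z‖ := by
    intro k Y Z
    have e : ((C, n k, Y) : ℝ × ℝ × Pl) - (C, n k, Z) = (0, 0, Y - Z) := by
      simp
    rw [e]
    simp [Prod.norm_def]
  refine ⟨p3, p2, p4, ⟨?_, ?_, ?_, ?_, ?_, ?_⟩, ?_, ?_⟩
  · intro X hX Y hY
    rw [F4, F4, dist_eq_norm]
    have h := (hlip C n X C n Y (hrng X hX) (hrng Y hY)).2.2.2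
    simp only [sub_self, abs_zero, norm_zero, zero_add] at h
    refine h.trans ?_
    have : 0 ≤ (Lg + Lt * L1) * ‖X - Y‖ := by positivity
    nlinarith
  · intro X hX Y hY
    rw [hχ, hχ, dist_eq_norm]
    have h := hlg _ (hmem2 0 X (q0 X hX)) _ (hmem2 0 Y (q0 Y hY))
    rw [hd] at h
    refine h.trans ?_
    have : 0 ≤ (L1 + Lt * L1) * ‖X - Y‖ := by positivity
    nlinarith
  · intro X hX Y hY
    rw [hθ, hθ, dist_eq_norm]
    have h := hlt _ (hmem2 3 _ (q3 X hX)) _ (hmem2 3 _ (q3 Y hY))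
    rw [hd] at h
    have h' := (hlip C n X C n Y (hrng X hX) (hrng Y hY)).2.2.1
    simp only [sub_self, abs_zero, norm_zero, zero_add] at h'
    refine h.trans ?_
    have h2 : Lt * ‖st3 F C n X - st3 F C n Y‖ ≤ Lt * (L1 * ‖X - Y‖) :=
      mul_le_mul_of_nonneg_left h' hLt
    have : 0 ≤ (L1 + Lg) * ‖X - Y‖ := by positivity
    nlinarith
  · intro X hX Y hY
    rw [F4, F4]
    exact hlin C n X Y (hrng2 X hX) (hrng2 Y hY)
  · intro X hX N hN
    refine acc_dir i 3 _ _ ?_ ?_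
    · have := hχn X hX
      have e3 : (3 + 1 : Fin 4) = 0 := rfl
      rw [e3]
      linarith
    · rw [d3]
      exact hN
  · intro X hX
    have := hθn X hX
    linarith
  · intro X hX
    have h1 := hχn X hX
    have h2 := hθn X hX
    have h3 := (hnear 2 _ (q2 X hX)).2
    rw [← hθ3] at h3
    exact ⟨by linarith, by linarith, by linarith, F4 X, F3 X⟩
  · intro X hX
    have hX' : ‖X - vtx i 3‖ ≤ r / 4 := by
      rw [v3]
      rw [Metric.mem_closedBall, dist_eq_norm] at hX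
      exact hX.trans hRr
    have h1 := (hnear 3 X hX').1
    rw [d3] at h1
    have h2 : l3.χ X = g 3 (C, n 3, X) := rfl
    rw [h2]
    linarith

end

end Pool.Agent.HS

namespace Pool.Agent.HS
open Set Filter Topology
open scoped ContDiff

theorem loop_pw (i : Fin 2) {r : ℝ} (hr : 0 < r) (g : Fin 4 → ℝ × ℝ × Pl → ℝ)
    (hg : ∀ k, SData i k r (g k)) : ∃ R L : ℝ, 0 < R ∧ R < r ∧ 1 ≤ L ∧
      ∀ C, 0 < C → C ≤ R → ∀ K : Fin 4 → ℕ, (∀ k, |K k * C - lvν i k| ≤ R) →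
        PW C (Metric.closedBall 0 R) (loopLD g C K) ∧
        PW C (Metric.closedBall 0 R) (loop3 g C K) ∧
        PW C (Metric.closedBall Xcp R) (loop4 g C K) ∧
        LLim L (1 / 100) i (Metric.closedBall 0 R) (loopLD g C K) ∧
        (∀ X ∈ Metric.closedBall (0 : Pl) R,
          |(loopLD g C K).χ X - dir i 0| ≤ 1 / 200 ∧ |(loopLD g C K).θ X - Real.pi / 2| ≤ 1 / 200 ∧
          |(loop3 g C K).θ X - dir i 2| ≤ 1 / 200 ∧
          (loopLD g C K).F X =
            st4 (fun k p => zF p.1 p.2.2 (g k p)) C (fun k => K k * C) X ∧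
          (loop3 g C K).F X =
            st3 (fun k p => zF p.1 p.2.2 (g k p)) C (fun k => K k * C) X) ∧
        (∀ X ∈ Metric.closedBall Xcp R, |(loop4 g C K).χ X - Real.pi / 2| ≤ 1 / 200) :=
  @Pool.Agent.HS.loop_pw_pr i r hr g hg

end Pool.Agent.HS
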