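import Pool.Agent.Lib_helper60.HSF.D_WL
import Pool.Agent.Lib_helper60.HSF.Z_LE3
import Pool.Agent.Lib_helper60.HSF.Z_LE1
import Pool.Agent.Lib_helper60.HSF.Z_LA

/-!
# Project HS, part Z, block LF2: steering with integers
-/

namespace Pool.Agent.HS

noncomputable section

open Set Filter Topology
open scoped ContDiff

theorem lf2_mJ (ϖ χ a : ℝ) (v : Pl) : mJ ϖ χ (a • v) = a • mJ ϖ χ v := by
  unfold mJ
  ext
  · simp only [Prod.smul_fst, Prod.smul_snd, smul_eq_mul]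
    ring
  · simp only [Prod.smul_fst, Prod.smul_snd, smul_eq_mul]
    ring

/-- the four arcs of a loop -/
theorem lf2_four (i : Fin 2) {r : ℝ} (hr : 0 < r) (g : Fin 4 → ℝ × ℝ × Pl → ℝ)
    (hg : ∀ k, SData i k r (g k)) :
    Four (fun k p => zF p.1 p.2.2 (g k p)) (vtx i) (lvν i) r
      (fun k => mJ (zϖ (vtx i k)) (dir i k))
      (fun k => (-(lvj i k / (mΛ * lvν i k ^ 2))) • mV (zϖ (vtx i k)) (dir i k)) (lin i) where
  hr := hr
  reg := fun k => (hg k).regF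
  val := fun k => by
    simp only
    rw [(hg k).val]
    exact (hg k).valF
  der := fun k n w => by
    simp only
    rw [(hg k).der, smul_smul, mul_comm n]
  lin := fun w => model_lin i w
  det := by
    have hd := model_det i
    have ha : ∀ k, -(lvj i k / (mΛ * lvν i k ^ 2)) ≠ 0 := by
      intro k
      obtain ⟨-, -, -, -, hj, hν, hY, -⟩ := model_vtx i k
      have hj0 : lvj i k ≠ 0 := by
        rcases hj with h | h <;> rw [h] <;> norm_num
      have hΛ : mΛ ≠ 0 := by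
        intro h
        rw [h, zero_mul, mul_zero] at hY
        exact hj0 hY.symm
      have hν' := hν.ne'
      apply neg_ne_zero.2
      positivity
    have h2 := ha 2
    have h3 := ha 3
    simp only [lf2_mJ, Prod.smul_fst, Prod.smul_snd, smul_eq_mul]
    generalize -(lvj i 2 / (mΛ * lvν i 2 ^ 2)) = a at *
    generalize -(lvj i 3 / (mΛ * lvν i 3 ^ 2)) = b at *
    have e1 : ∀ x y z w : ℝ, a * x * (b * y) - a * z * (b * w) = (a * b) * (x * y - z * w) := by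
      intro x y z w
      ring
    rw [e1]
    exact mul_ne_zero (mul_ne_zero h2 h3) hd

theorem loop_steer_pr (i : Fin 2) {r : ℝ} (hr : 0 < r) (g : Fin 4 → ℝ × ℝ × Pl → ℝ)
    (hg : ∀ k, SData i k r (g k)) (R : ℝ) (hR : 0 < R) : ∃ s : ℝ, 0 < s ∧ s ≤ R ∧
      ∀ ρ2, 0 < ρ2 → ∃ C0 : ℝ, 0 < C0 ∧ ∀ C, 0 < C → C < C0 →
        ∀ X ∈ Metric.closedBall (0 : Pl) s, ∀ Y ∈ Metric.closedBall (0 : Pl) s,
          ∃ K : Fin 4 → ℕ, (∀ k, |K k * C - lvν i k| ≤ R) ∧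
            ‖st4 (fun k p => zF p.1 p.2.2 (g k p)) C (fun k => K k * C) X - Y‖ ≤ ρ2 := by
  have hF := lf2_four i hr g hg
  obtain ⟨R₁, L, hR₁, -, -, hL, -, hlip⟩ := four_lip hF 1 one_pos
  -- positive lower bound for `ν`
  obtain ⟨ν₀, hν₀, hν⟩ : ∃ ν₀ : ℝ, 0 < ν₀ ∧ ∀ k, ν₀ ≤ lvν i k := by
    refine ⟨min (min (lvν i 0) (lvν i 1)) (min (lvν i 2) (lvν i 3)), ?_, ?_⟩
    · have h : ∀ k, 0 < lvν i k := fun k => (model_vtx i k).2.2.2.2.2.1
      exact lt_min (lt_min (h 0) (h 1)) (lt_min (h 2) (h 3))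
    · intro k
      fin_cases k
      · exact (min_le_left _ _).trans (min_le_left _ _)
      · exact (min_le_left _ _).trans (min_le_right _ _)
      · exact (min_le_right _ _).trans (min_le_left _ _)
      · exact (min_le_right _ _).trans (min_le_right _ _)
  set R₂ : ℝ := min (min R R₁) ν₀ / 2 with hR₂
  have hm : 0 < min (min R R₁) ν₀ := lt_min (lt_min hR hR₁) hν₀
  have hR₂0 : 0 < R₂ := by positivity
  have hR₂R : 2 * R₂ ≤ R := by
    rw [hR₂, mul_div_cancel₀ _ (two_ne_zero)]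
    exact (min_le_left _ _).trans (min_le_left _ _)
  have hR₂R₁ : 2 * R₂ ≤ R₁ := by
    rw [hR₂, mul_div_cancel₀ _ (two_ne_zero)]
    exact (min_le_left _ _).trans (min_le_right _ _)
  have hR₂ν : 2 * R₂ ≤ ν₀ := by
    rw [hR₂, mul_div_cancel₀ _ (two_ne_zero)]
    exact min_le_right _ _
  obtain ⟨s, hs, hsR, hst⟩ := four_steer hF R₂ hR₂0
  refine ⟨s, hs, by linarith, ?_⟩
  intro ρ2 hρ2
  refine ⟨min R₂ (ρ2 / (2 * L)), lt_min hR₂0 (by positivity), ?_⟩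
  intro C hC0 hC X hX Y hY
  have hC1 : C ≤ R₂ := (hC.trans_le (min_le_left _ _)).le
  have hC2 : C ≤ ρ2 / (2 * L) := (hC.trans_le (min_le_right _ _)).le
  have hv0 : vtx i 0 = 0 := (model_vtx i 0).2.2.2.2.2.2.2.2.1
  rw [mem_closedBall_zero_iff] at hX hY
  obtain ⟨n, hn, hnY⟩ := hst X Y (by rw [hv0, sub_zero]; exact hX) (by rw [hv0, sub_zero]; exact hY)
  have hn0 : ∀ k, 0 ≤ n k := by
    intro k
    have h1 := (abs_le.1 (hn k)).1
    have h2 := hν k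
    linarith
  have hK : ∀ k, |((⌊n k / C⌋₊ : ℕ) : ℝ) * C - n k| ≤ C := by
    intro k
    have h1 := Nat.floor_le (div_nonneg (hn0 k) hC0.le)
    have h2 := (Nat.lt_floor_add_one (n k / C)).le
    rw [le_div_iff₀ hC0] at h1
    rw [div_le_iff₀ hC0] at h2
    rw [abs_le]
    constructor
    · linarith
    · linarith
  have hKν : ∀ k, |((⌊n k / C⌋₊ : ℕ) : ℝ) * C - lvν i k| ≤ 2 * R₂ := by
    intro k
    have h1 := abs_sub_le (((⌊n k / C⌋₊ : ℕ) : ℝ) * C) (n k) (lvν i k)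
    have h2 := hK k
    have h3 := hn k
    linarith
  refine ⟨fun k => ⌊n k / C⌋₊, fun k => (hKν k).trans hR₂R, ?_⟩
  rw [← hnY]
  have hX' : ‖X - vtx i 0‖ ≤ R₁ := by
    rw [hv0, sub_zero]
    linarith
  have g1 : Rng (lvν i) (vtx i 0) R₁ C (fun k => ((⌊n k / C⌋₊ : ℕ) : ℝ) * C) X :=
    ⟨by rw [abs_of_pos hC0]; linarith, fun k => (hKν k).trans hR₂R₁, hX'⟩
  have g2 : Rng (lvν i) (vtx i 0) R₁ 0 n X :=
    ⟨by rw [abs_zero]; exact hR₁.le, fun k => (hn k).trans (by linarith), hX'⟩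
  have h1 := (hlip C _ X 0 n X g1 g2).2.2.2
  have h2 : ‖(fun k => ((⌊n k / C⌋₊ : ℕ) : ℝ) * C) - n‖ ≤ C := by
    rw [pi_norm_le_iff_of_nonneg hC0.le]
    intro k
    exact hK k
  rw [sub_zero, sub_self, norm_zero, add_zero, abs_of_pos hC0] at h1
  have h3 : L * (C + ‖(fun k => ((⌊n k / C⌋₊ : ℕ) : ℝ) * C) - n‖) ≤ L * (C + C) :=
    mul_le_mul_of_nonneg_left (by linarith) (by linarith)
  rw [le_div_iff₀ (by positivity)] at hC2
  linarith

end

end Pool.Agent.HS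

namespace Pool.Agent.HS
open Set Filter Topology
open scoped ContDiff

theorem loop_steer (i : Fin 2) {r : ℝ} (hr : 0 < r) (g : Fin 4 → ℝ × ℝ × Pl → ℝ)
    (hg : ∀ k, SData i k r (g k)) (R : ℝ) (hR : 0 < R) : ∃ s : ℝ, 0 < s ∧ s ≤ R ∧
      ∀ ρ2, 0 < ρ2 → ∃ C0 : ℝ, 0 < C0 ∧ ∀ C, 0 < C → C < C0 →
        ∀ X ∈ Metric.closedBall (0 : Pl) s, ∀ Y ∈ Metric.closedBall (0 : Pl) s,
          ∃ K : Fin 4 → ℕ, (∀ k, |K k * C - lvν i k| ≤ R) ∧
            ‖st4 (fun k p => zF p.1 p.2.2 (g k p)) C (fun k => K k * C) X - Y‖ ≤ ρ2 :=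
  @Pool.Agent.HS.loop_steer_pr i r hr g hg R hR

end Pool.Agent.HS
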