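import Pool.Agent.Lib_helper60.HSF.D_WL
import Pool.Agent.Lib_helper60.HSF.Z_ZD2
import Pool.Agent.Lib_helper60.HSF.Z_ZM2

/-! # Project HS, part Z, block LF3: the relative speed near the centre -/

namespace Pool.Agent.HS

noncomputable section

open Set Filter Topology
open scoped ContDiff

theorem kap_unif_pr : ∃ R L : ℝ, 0 < R ∧ R ≤ 1 ∧ 1 ≤ L ∧ ∀ C, 0 < C → C ≤ R →
    Lip L (fun X => kap0 C (chart C X)) (Metric.closedBall (0 : Pl) R) ∧
    Metric.closedBall (0 : Pl) R ⊆ CD C := by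
  obtain ⟨P, hP⟩ : ∃ P : ℝ × (ℝ × ℝ) × ℝ, P = (0, (0, 0), Real.pi / 2) := ⟨_, rfl⟩
  have hmem : P ∈ ZS := by
    rw [hP]
    exact zS_zero (0, 0) (by rw [Real.sin_pi_div_two]; exact one_ne_zero)
  have hnhds : ZS ∈ 𝓝 P := zS_open.mem_nhds hmem
  have h1 : ContDiffAt ℝ 1 (fun p : ℝ × (ℝ × ℝ) × ℝ => zk p.1 p.2.1) P :=
    ((zS_states.2.2.2.2).contDiffAt hnhds).of_le (by exact_mod_cast le_top)
  obtain ⟨K, t, ht, hK⟩ := h1.exists_lipschitzOnWith
  obtain ⟨ε, hε, hball⟩ := Metric.nhds_basis_closedBall.mem_iff.1 (Filter.inter_mem ht hnhds)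
  refine ⟨min ε 1, max K 1, lt_min hε one_pos, min_le_right _ _, le_max_right _ _,
    fun C hC hCR => ?_⟩
  have hin : ∀ X ∈ Metric.closedBall (0 : Pl) (min ε 1),
      ((C, X, Real.pi / 2) : ℝ × (ℝ × ℝ) × ℝ) ∈ t ∩ ZS := by
    intro X hX
    apply hball
    rw [Metric.mem_closedBall, hP, Prod.dist_eq, Prod.dist_eq]
    rw [Metric.mem_closedBall] at hX
    simp only [dist_self]
    refine max_le ?_ (max_le (hX.trans (min_le_left _ _)) hε.le)
    rw [Real.dist_eq, sub_zero, abs_of_pos hC]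
    exact hCR.trans (min_le_left _ _)
  constructor
  · intro X hX Y hY
    have h2 := hK.dist_le_mul _ (hin X hX).1 _ (hin Y hY).1
    have h3 : dist ((C, X, Real.pi / 2) : ℝ × (ℝ × ℝ) × ℝ) (C, Y, Real.pi / 2) = dist X Y := by
      rw [Prod.dist_eq, Prod.dist_eq]
      simp
    rw [h3] at h2
    rw [← dist_eq_norm]
    exact h2.trans (mul_le_mul_of_nonneg_right (le_max_left _ _) dist_nonneg)
  · intro X hX
    have h2 : ZG C X (Real.pi / 2) := (hin X hX).2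
    exact ⟨h2.r.1.le, h2.r.2.le, h2.p.le, h2.k.le⟩

end

end Pool.Agent.HS

namespace Pool.Agent.HS
open Set Filter Topology
open scoped ContDiff

theorem kap_unif : ∃ R L : ℝ, 0 < R ∧ R ≤ 1 ∧ 1 ≤ L ∧ ∀ C, 0 < C → C ≤ R →
    Lip L (fun X => kap0 C (chart C X)) (Metric.closedBall (0 : Pl) R) ∧
    Metric.closedBall (0 : Pl) R ⊆ CD C :=
  @Pool.Agent.HS.kap_unif_pr

end Pool.Agent.HS
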