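import Pool.Agent.Lib_helper60.HSF.D_WL
import Pool.Agent.Lib_helper60.HSF.Z_LA

/-!
# Project HS, part Z, block LF4: linear part of the first three arcs
-/

namespace Pool.Agent.HS

noncomputable section

open Set Filter Topology
open scoped ContDiff

theorem lf4_D (F : ℝ × ℝ × Pl → Pl) (ν : ℝ) (v : Pl) (D : ℝ × ℝ × Pl →L[ℝ] Pl)
    (hD : HasStrictFDerivAt F D (0, ν, v)) (w : Pl) :
    D (0, 0, w) = fderiv ℝ (fun q : ℝ × Pl => F (0, q.1, q.2)) (ν, v) (0, w) := by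
  have h1 : HasFDerivAt (fun q : ℝ × Pl => ((0, q) : ℝ × ℝ × Pl))
      (ContinuousLinearMap.inr ℝ ℝ (ℝ × Pl)) (ν, v) := hasFDerivAt_prodMk_right 0 (ν, v)
  have h2 : HasFDerivAt (fun q : ℝ × Pl => F (0, q.1, q.2))
      (D.comp (ContinuousLinearMap.inr ℝ ℝ (ℝ × Pl))) (ν, v) :=
    HasFDerivAt.comp (g := F) (f := fun q : ℝ × Pl => ((0, q) : ℝ × ℝ × Pl)) (ν, v)
      hD.hasFDerivAt h1
  rw [h2.fderiv]
  rfl

/-- strict derivative of one step after a map `G` -/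
theorem lf4_step (F : ℝ × ℝ × Pl → Pl) (k : Fin 4) (ν : Fin 4 → ℝ) (v0 v : Pl)
    (D : ℝ × ℝ × Pl →L[ℝ] Pl) (hD : HasStrictFDerivAt F D (0, ν k, v))
    (G : ℝ × (Fin 4 → ℝ) × Pl → Pl) (G' : ℝ × (Fin 4 → ℝ) × Pl →L[ℝ] Pl)
    (hG : HasStrictFDerivAt G G' (0, ν, v0)) (hG0 : G (0, ν, v0) = v) :
    ∃ D' : ℝ × (Fin 4 → ℝ) × Pl →L[ℝ] Pl,
      HasStrictFDerivAt (fun p => F (p.1, p.2.1 k, G p)) D' (0, ν, v0) ∧
      ∀ w, D' (0, 0, w) = D (0, 0, G' (0, 0, w)) := by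
  set a : ℝ × (Fin 4 → ℝ) × Pl →L[ℝ] ℝ := ContinuousLinearMap.fst ℝ ℝ ((Fin 4 → ℝ) × Pl) with ha
  set b : ℝ × (Fin 4 → ℝ) × Pl →L[ℝ] ℝ := (ContinuousLinearMap.proj k).comp
    ((ContinuousLinearMap.fst ℝ (Fin 4 → ℝ) Pl).comp
      (ContinuousLinearMap.snd ℝ ℝ ((Fin 4 → ℝ) × Pl))) with hb
  have h1 : HasStrictFDerivAt (fun p : ℝ × (Fin 4 → ℝ) × Pl => p.1) a (0, ν, v0) :=
    a.hasStrictFDerivAt
  have h2 : HasStrictFDerivAt (fun p : ℝ × (Fin 4 → ℝ) × Pl => p.2.1 k) b (0, ν, v0) :=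
    b.hasStrictFDerivAt
  have h3 : HasStrictFDerivAt (fun p : ℝ × (Fin 4 → ℝ) × Pl => ((p.1, p.2.1 k, G p) : ℝ × ℝ × Pl))
      (a.prod (b.prod G')) (0, ν, v0) := h1.prodMk (h2.prodMk hG)
  have hD' : HasStrictFDerivAt F D
      ((fun p : ℝ × (Fin 4 → ℝ) × Pl => ((p.1, p.2.1 k, G p) : ℝ × ℝ × Pl)) (0, ν, v0)) := by
    show HasStrictFDerivAt F D (0, ν k, G (0, ν, v0))
    rw [hG0]
    exact hD
  refine ⟨D.comp (a.prod (b.prod G')), hD'.comp (0, ν, v0) h3, fun w => rfl⟩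

/-- smoothness of one step after a map `G` -/
theorem lf4_cd (F : ℝ × ℝ × Pl → Pl) (k : Fin 4) (ν : Fin 4 → ℝ) (v0 v : Pl)
    (hF : ContDiffAt ℝ 2 F (0, ν k, v)) (G : ℝ × (Fin 4 → ℝ) × Pl → Pl)
    (hG : ContDiffAt ℝ 2 G (0, ν, v0)) (hG0 : G (0, ν, v0) = v) :
    ContDiffAt ℝ 2 (fun p => F (p.1, p.2.1 k, G p)) (0, ν, v0) := by
  have h2 : ContDiffAt ℝ 2 (fun p : ℝ × (Fin 4 → ℝ) × Pl => p.2.1 k) (0, ν, v0) :=
    (((ContinuousLinearMap.proj (R := ℝ) (φ := fun _ : Fin 4 => ℝ) k).comp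
      ((ContinuousLinearMap.fst ℝ (Fin 4 → ℝ) Pl).comp
        (ContinuousLinearMap.snd ℝ ℝ ((Fin 4 → ℝ) × Pl)))).contDiff).contDiffAt
  have h3 : ContDiffAt ℝ 2 (fun p : ℝ × (Fin 4 → ℝ) × Pl => ((p.1, p.2.1 k, G p) : ℝ × ℝ × Pl))
      (0, ν, v0) := contDiffAt_fst.prodMk (h2.prodMk hG)
  have hF' : ContDiffAt ℝ 2 F
      ((fun p : ℝ × (Fin 4 → ℝ) × Pl => ((p.1, p.2.1 k, G p) : ℝ × ℝ × Pl)) (0, ν, v0)) := by
    show ContDiffAt ℝ 2 F (0, ν k, G (0, ν, v0))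
    rw [hG0]
    exact hF
  exact hF'.comp (0, ν, v0) h3

theorem lf4_gen (F : Fin 4 → ℝ × ℝ × Pl → Pl) (v : Fin 4 → Pl) (ν : Fin 4 → ℝ)
    (hreg : ∀ k, ContDiffAt ℝ 2 (F k) (0, ν k, v k)) (J : Fin 4 → Pl → Pl)
    (hval : ∀ k, F k (0, ν k, v k) = v (k + 1))
    (hder : ∀ k w, fderiv ℝ (fun q : ℝ × Pl => F k (0, q.1, q.2)) (ν k, v k) (0, w) = J k w) :
    ∃ D : ℝ × (Fin 4 → ℝ) × Pl →L[ℝ] Pl,
      HasStrictFDerivAt (fun p : ℝ × (Fin 4 → ℝ) × Pl => st3 F p.1 p.2.1 p.2.2) D (0, ν, v 0) ∧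
      (∀ w, D (0, 0, w) = J 2 (J 1 (J 0 w))) ∧ st3 F 0 ν (v 0) = v 3 ∧
      ContDiffAt ℝ 2 (fun p : ℝ × (Fin 4 → ℝ) × Pl => st3 F p.1 p.2.1 p.2.2) (0, ν, v 0) ∧
      ∃ D4 : ℝ × (Fin 4 → ℝ) × Pl →L[ℝ] Pl,
      HasStrictFDerivAt (fun p : ℝ × (Fin 4 → ℝ) × Pl => st4 F p.1 p.2.1 p.2.2) D4 (0, ν, v 0) ∧
      st4 F 0 ν (v 0) = v 0 := by
  have hs : ∀ k, HasStrictFDerivAt (F k) (fderiv ℝ (F k) (0, ν k, v k)) (0, ν k, v k) :=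
    fun k => (hreg k).hasStrictFDerivAt (by norm_num)
  have hJ : ∀ k w, fderiv ℝ (F k) (0, ν k, v k) (0, 0, w) = J k w := by
    intro k w
    rw [lf4_D (F k) (ν k) (v k) _ (hs k) w, hder]
  -- the identity
  set c : ℝ × (Fin 4 → ℝ) × Pl →L[ℝ] Pl := (ContinuousLinearMap.snd ℝ (Fin 4 → ℝ) Pl).comp
      (ContinuousLinearMap.snd ℝ ℝ ((Fin 4 → ℝ) × Pl)) with hc
  have h0 : HasStrictFDerivAt (fun p : ℝ × (Fin 4 → ℝ) × Pl => p.2.2) c (0, ν, v 0) :=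
    c.hasStrictFDerivAt
  obtain ⟨D1, h1, h1'⟩ := lf4_step (F 0) 0 ν (v 0) (v 0) _ (hs 0) _ c h0 rfl
  have e1 : st1 F 0 ν (v 0) = v 1 := hval 0
  obtain ⟨D2, h2, h2'⟩ := lf4_step (F 1) 1 ν (v 0) (v 1) _ (hs 1)
    (fun p : ℝ × (Fin 4 → ℝ) × Pl => st1 F p.1 p.2.1 p.2.2) D1 h1 e1
  have e2 : st2 F 0 ν (v 0) = v 2 := by
    show F 1 (0, ν 1, st1 F 0 ν (v 0)) = v 2
    rw [e1]
    exact hval 1
  obtain ⟨D3, h3, h3'⟩ := lf4_step (F 2) 2 ν (v 0) (v 2) _ (hs 2)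
    (fun p : ℝ × (Fin 4 → ℝ) × Pl => st2 F p.1 p.2.1 p.2.2) D2 h2 e2
  have e3 : st3 F 0 ν (v 0) = v 3 := by
    show F 2 (0, ν 2, st2 F 0 ν (v 0)) = v 3
    rw [e2]
    exact hval 2
  obtain ⟨D4, h4, h4'⟩ := lf4_step (F 3) 3 ν (v 0) (v 3) _ (hs 3)
    (fun p : ℝ × (Fin 4 → ℝ) × Pl => st3 F p.1 p.2.1 p.2.2) D3 h3 e3
  have c1 := lf4_cd (F 0) 0 ν (v 0) (v 0) (hreg 0) (fun p => p.2.2)
    (contDiffAt_snd.snd) rfl
  have c2 := lf4_cd (F 1) 1 ν (v 0) (v 1) (hreg 1)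
    (fun p : ℝ × (Fin 4 → ℝ) × Pl => st1 F p.1 p.2.1 p.2.2) c1 e1
  have c3 := lf4_cd (F 2) 2 ν (v 0) (v 2) (hreg 2)
    (fun p : ℝ × (Fin 4 → ℝ) × Pl => st2 F p.1 p.2.1 p.2.2) c2 e2
  refine ⟨D3, h3, fun w => ?_, e3, c3, D4, h4, ?_⟩
  · rw [h3', h2', h1', hJ, hJ, hJ]
    rfl
  · show F 3 (0, ν 3, st3 F 0 ν (v 0)) = v 0
    rw [e3]
    exact hval 3

theorem lf4_norm (C : ℝ) (n ν : Fin 4 → ℝ) (X v : Pl) (R : ℝ) (hR : 0 ≤ R) (h1 : |C| ≤ R)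
    (h2 : ∀ k, |n k - ν k| ≤ R) (h3 : ‖X - v‖ ≤ R) :
    ‖((C, n, X) : ℝ × (Fin 4 → ℝ) × Pl) - (0, ν, v)‖ ≤ R := by
  have : ((C, n, X) : ℝ × (Fin 4 → ℝ) × Pl) - (0, ν, v) = (C - 0, n - ν, X - v) := rfl
  rw [this, sub_zero]
  refine norm_prod_le_iff.2 ⟨h1, norm_prod_le_iff.2 ⟨?_, h3⟩⟩
  exact (pi_norm_le_iff_of_nonneg hR).2 h2

/-- linear part of the first three arcs, loop of type `0` -/
theorem loop3_lin_pr {r : ℝ} (hr : 0 < r) (g : Fin 4 → ℝ × ℝ × Pl → ℝ)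
    (hg : ∀ k, SData 0 k r (g k)) (c : ℝ) (hc : 0 < c) : ∃ R L : ℝ, 0 < R ∧ R < r ∧ 1 ≤ L ∧
      ∀ C, 0 < C → C ≤ R → ∀ K : Fin 4 → ℕ, (∀ k, |K k * C - lvν 0 k| ≤ R) →
        ContDiffOn ℝ 2 (loop3 g C K).F (Metric.ball 0 R) ∧
        (∀ X ∈ Metric.closedBall (0 : Pl) R, ∀ Y ∈ Metric.closedBall (0 : Pl) R,
          ‖(loop3 g C K).F X - (loop3 g C K).F Y - lin3 (X - Y)‖ ≤ c * ‖X - Y‖) ∧
        ((∀ k, |K k * C - lvν 0 k| ≤ C) →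
          ‖(loop3 g C K).F 0 - Xcp‖ ≤ L * C ∧ ‖(loopLD g C K).F 0‖ ≤ L * C) := by
  set F : Fin 4 → ℝ × ℝ × Pl → Pl := fun k p => zF p.1 p.2.2 (g k p) with hF
  have hreg : ∀ k, ContDiffAt ℝ 2 (F k) (0, lvν 0 k, vtx 0 k) := fun k =>
    (hg k).regF.contDiffAt (Metric.ball_mem_nhds _ hr)
  have hval : ∀ k, F k (0, lvν 0 k, vtx 0 k) = vtx 0 (k + 1) := by
    intro k
    show zF 0 (vtx 0 k) (g k (0, lvν 0 k, vtx 0 k)) = vtx 0 (k + 1)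
    rw [(hg k).val]
    exact (hg k).valF
  have hder : ∀ k w, fderiv ℝ (fun q : ℝ × Pl => F k (0, q.1, q.2)) (lvν 0 k, vtx 0 k) (0, w) =
      mJ (zϖ (vtx 0 k)) (dir 0 k) w := by
    intro k w
    have h := (hg k).der 0 w
    rw [mul_zero, zero_smul, add_zero] at h
    exact h
  obtain ⟨D, hD, hD', hD0, hcd, D4, hD4, hD40⟩ := lf4_gen F (vtx 0) (lvν 0) hreg _ hval hder
  have hv0 : vtx 0 0 = (0 : Pl) := rfl
  have hv3 : vtx 0 3 = Xcp := rfl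
  have hlin : ∀ w : Pl, D (0, 0, w) = lin3 w := by
    intro w
    rw [hD', model_lin3]
  have hev := hD.isLittleO.def hc
  have hev4 := hD4.isLittleO.def hc
  have hevc := hcd.eventually (by norm_num)
  rw [hv0] at hev hD0 hev4 hD40 hevc
  rw [hv3] at hD0
  obtain ⟨δ, hδ, hball⟩ := Metric.eventually_nhds_iff_ball.1 hev
  obtain ⟨δ4, hδ4, hball4⟩ := Metric.eventually_nhds_iff_ball.1 hev4
  obtain ⟨δc, hδc, hballc⟩ := Metric.eventually_nhds_iff_ball.1 hevc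
  set R := min (min (δ / 2) (r / 2)) (min (δ4 / 2) (δc / 2)) with hR
  have hR0 : 0 < R := lt_min (lt_min (by positivity) (by positivity))
    (lt_min (by positivity) (by positivity))
  have hRδ : R < δ := lt_of_le_of_lt ((min_le_left _ _).trans (min_le_left _ _)) (by linarith)
  have hRr : R < r := lt_of_le_of_lt ((min_le_left _ _).trans (min_le_right _ _)) (by linarith)
  have hRδ4 : R < δ4 := lt_of_le_of_lt ((min_le_right _ _).trans (min_le_left _ _)) (by linarith)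
  have hRδc : R < δc := lt_of_le_of_lt ((min_le_right _ _).trans (min_le_right _ _)) (by linarith)
  have key : ∀ p q : ℝ × (Fin 4 → ℝ) × Pl, ‖p - (0, lvν 0, 0)‖ ≤ R → ‖q - (0, lvν 0, 0)‖ ≤ R →
      ‖st3 F p.1 p.2.1 p.2.2 - st3 F q.1 q.2.1 q.2.2 - D (p - q)‖ ≤ c * ‖p - q‖ := by
    intro p q hp hq
    refine hball (p, q) ?_
    rw [Metric.mem_ball, dist_eq_norm]
    refine lt_of_le_of_lt ?_ hRδ
    exact norm_prod_le_iff.2 ⟨hp, hq⟩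
  have key4 : ∀ p q : ℝ × (Fin 4 → ℝ) × Pl, ‖p - (0, lvν 0, 0)‖ ≤ R → ‖q - (0, lvν 0, 0)‖ ≤ R →
      ‖st4 F p.1 p.2.1 p.2.2 - st4 F q.1 q.2.1 q.2.2 - D4 (p - q)‖ ≤ c * ‖p - q‖ := by
    intro p q hp hq
    refine hball4 (p, q) ?_
    rw [Metric.mem_ball, dist_eq_norm]
    refine lt_of_le_of_lt ?_ hRδ4
    exact norm_prod_le_iff.2 ⟨hp, hq⟩
  refine ⟨R, max 1 (max (‖D‖ + c) (‖D4‖ + c)), hR0, hRr, le_max_left _ _,
    fun C hC hCR K hK => ⟨?_, ?_, ?_⟩⟩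
  · intro X hX
    rw [mem_ball_zero_iff] at hX
    have hC' : |C| ≤ R := by rwa [abs_of_pos hC]
    have h1 := lf4_norm C (fun k => K k * C) (lvν 0) X 0 R hR0.le hC' hK
      (by rw [sub_zero]; exact hX.le)
    have h2 : ContDiffAt ℝ 2 (fun p : ℝ × (Fin 4 → ℝ) × Pl => st3 F p.1 p.2.1 p.2.2)
        (C, (fun k => (K k : ℝ) * C), X) := by
      refine hballc _ ?_
      rw [Metric.mem_ball, dist_eq_norm]
      exact lt_of_le_of_lt h1 hRδc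
    have h3 : ContDiffAt ℝ 2 (fun X : Pl =>
        ((C, (fun k => (K k : ℝ) * C), X) : ℝ × (Fin 4 → ℝ) × Pl)) X :=
      contDiffAt_const.prodMk (contDiffAt_const.prodMk contDiffAt_id)
    have h4 : ContDiffAt ℝ 2 (loop3 g C K).F X :=
      ContDiffAt.comp (g := fun p : ℝ × (Fin 4 → ℝ) × Pl => st3 F p.1 p.2.1 p.2.2)
        (f := fun X : Pl => ((C, (fun k => (K k : ℝ) * C), X) : ℝ × (Fin 4 → ℝ) × Pl)) X h2 h3
    exact h4.contDiffWithinAt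
  · intro X hX Y hY
    rw [mem_closedBall_zero_iff] at hX hY
    have hC' : |C| ≤ R := by rwa [abs_of_pos hC]
    have h1 := lf4_norm C (fun k => K k * C) (lvν 0) X 0 R hR0.le hC' hK (by rwa [sub_zero])
    have h2 := lf4_norm C (fun k => K k * C) (lvν 0) Y 0 R hR0.le hC' hK (by rwa [sub_zero])
    have h3 := key _ _ h1 h2
    have h4 : ((C, (fun k => K k * C), X) : ℝ × (Fin 4 → ℝ) × Pl) - (C, (fun k => K k * C), Y) =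
        (0, 0, X - Y) := by
      show (C - C, (fun k => (K k : ℝ) * C) - (fun k => (K k : ℝ) * C), X - Y) = _
      rw [sub_self, sub_self]
    have h5 : ‖((0, 0, X - Y) : ℝ × (Fin 4 → ℝ) × Pl)‖ = ‖X - Y‖ := by
      rw [Prod.norm_def, Prod.norm_def]
      simp
    rw [h4, hlin, h5] at h3
    exact h3
  · intro hK'
    have hC' : |C| ≤ R := by rwa [abs_of_pos hC]
    have h1 := lf4_norm C (fun k => K k * C) (lvν 0) 0 0 R hR0.le hC' hK (by simpa using hR0.le)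
    have h2 : ‖((0, lvν 0, 0) : ℝ × (Fin 4 → ℝ) × Pl) - (0, lvν 0, 0)‖ ≤ R := by
      rw [sub_self, norm_zero]
      exact hR0.le
    have h3 := key _ _ h1 h2
    have h34 := key4 _ _ h1 h2
    have h4 := lf4_norm C (fun k => K k * C) (lvν 0) 0 0 C hC.le (abs_of_pos hC).le hK'
      (by simpa using hC.le)
    set d := ((C, (fun k => K k * C), 0) : ℝ × (Fin 4 → ℝ) × Pl) - (0, lvν 0, 0) with hd
    have h5 : ‖(loop3 g C K).F 0 - Xcp‖ ≤ ‖D d‖ + c * ‖d‖ := by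
      have h6 : (loop3 g C K).F 0 - Xcp = D d + ((loop3 g C K).F 0 - Xcp - D d) := by abel
      rw [h6]
      refine (norm_add_le _ _).trans (add_le_add le_rfl ?_)
      rw [← hD0]
      exact h3
    have h54 : ‖(loopLD g C K).F 0‖ ≤ ‖D4 d‖ + c * ‖d‖ := by
      have h6 : (loopLD g C K).F 0 = D4 d + ((loopLD g C K).F 0 - 0 - D4 d) := by
        rw [sub_zero]
        abel
      rw [h6]
      refine (norm_add_le _ _).trans (add_le_add le_rfl ?_)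
      have h7 : (0 : Pl) = st4 F 0 (lvν 0) 0 := hD40.symm
      have h8 : ‖(loopLD g C K).F 0 - st4 F 0 (lvν 0) 0 - D4 d‖ ≤ c * ‖d‖ := h34
      rw [hD40] at h8
      exact h8
    refine ⟨?_, ?_⟩
    · calc ‖(loop3 g C K).F 0 - Xcp‖ ≤ ‖D d‖ + c * ‖d‖ := h5
        _ ≤ ‖D‖ * ‖d‖ + c * ‖d‖ := add_le_add (D.le_opNorm d) le_rfl
        _ = (‖D‖ + c) * ‖d‖ := by ring
        _ ≤ (‖D‖ + c) * C := mul_le_mul_of_nonneg_left h4 (by positivity)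
        _ ≤ _ := mul_le_mul_of_nonneg_right ((le_max_left _ _).trans (le_max_right _ _)) hC.le
    · calc ‖(loopLD g C K).F 0‖ ≤ ‖D4 d‖ + c * ‖d‖ := h54
        _ ≤ ‖D4‖ * ‖d‖ + c * ‖d‖ := add_le_add (D4.le_opNorm d) le_rfl
        _ = (‖D4‖ + c) * ‖d‖ := by ring
        _ ≤ (‖D4‖ + c) * C := mul_le_mul_of_nonneg_left h4 (by positivity)
        _ ≤ _ := mul_le_mul_of_nonneg_right ((le_max_right _ _).trans (le_max_right _ _)) hC.le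

end

end Pool.Agent.HS

namespace Pool.Agent.HS
open Set Filter Topology
open scoped ContDiff

theorem loop3_lin {r : ℝ} (hr : 0 < r) (g : Fin 4 → ℝ × ℝ × Pl → ℝ)
    (hg : ∀ k, SData 0 k r (g k)) (c : ℝ) (hc : 0 < c) : ∃ R L : ℝ, 0 < R ∧ R < r ∧ 1 ≤ L ∧
      ∀ C, 0 < C → C ≤ R → ∀ K : Fin 4 → ℕ, (∀ k, |K k * C - lvν 0 k| ≤ R) →
        ContDiffOn ℝ 2 (loop3 g C K).F (Metric.ball 0 R) ∧
        (∀ X ∈ Metric.closedBall (0 : Pl) R, ∀ Y ∈ Metric.closedBall (0 : Pl) R,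
          ‖(loop3 g C K).F X - (loop3 g C K).F Y - lin3 (X - Y)‖ ≤ c * ‖X - Y‖) ∧
        ((∀ k, |K k * C - lvν 0 k| ≤ C) →
          ‖(loop3 g C K).F 0 - Xcp‖ ≤ L * C ∧ ‖(loopLD g C K).F 0‖ ≤ L * C) :=
  @Pool.Agent.HS.loop3_lin_pr r hr g hg c hc

end Pool.Agent.HS
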