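import Pool.Agent.Lib_helper60.HSF.D_WL
import Pool.Agent.Lib_helper60.HSF.Z_LF4
import Pool.Agent.Lib_helper60.HSF.Z_LD2
import Pool.Agent.Lib_helper60.HSF.E_E1b
import Pool.Agent.Lib_helper60.HSF.Z_LF2
import Pool.Agent.Lib_helper60.HSF.Z_LF1
import Pool.Agent.Lib_helper60.HSF.Z_LF3
import Pool.Agent.Lib_helper60.HSF.Z_LA

/-!
# HS, block LG: the loops
-/

namespace Pool.Agent.HS

noncomputable section

open Set Filter Topology
open scoped ContDiff

/-- the integers of the loops of type `i` -/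
def lgK (i : Fin 2) (R C : ℝ) : Type := {K : Fin 4 → ℕ // ∀ k, |K k * C - lvν i k| ≤ R}

theorem lg_finite (i : Fin 2) {R C : ℝ} (hC : 0 < C) : Finite (lgK i R C) := by
  have h : Set.Finite {K : Fin 4 → ℕ | ∀ k, |K k * C - lvν i k| ≤ R} := by
    have h1 : Set.Finite (Set.pi Set.univ (fun k : Fin 4 => Set.Iic ⌈(lvν i k + R) / C⌉₊)) :=
      Set.Finite.pi (fun k => Set.finite_Iic _)
    refine h1.subset ?_
    intro K hK k _
    have h2 := hK k
    rw [abs_le] at h2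
    have h3 : (K k : ℝ) ≤ (lvν i k + R) / C := by
      rw [le_div_iff₀ hC]
      linarith [h2.2]
    have h4 : (K k : ℝ) ≤ (⌈(lvν i k + R) / C⌉₊ : ℝ) := h3.trans (Nat.le_ceil _)
    exact_mod_cast h4
  exact h.to_subtype

theorem lg_lip {α E : Type*} [PseudoMetricSpace α] [NormedAddCommGroup E] {L L' : ℝ}
    {f : α → E} {S S' : Set α} (h : Lip L f S) (hL : L ≤ L') (hS : S' ⊆ S) : Lip L' f S' := by
  intro p hp q hq
  exact le_trans (h p (hS hp) q (hS hq)) (mul_le_mul_of_nonneg_right hL dist_nonneg)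

theorem lg_llim {L L' ν0 : ℝ} {i : Fin 2} {O O' : Set Pl} {l : LD} (h : LLim L ν0 i O l)
    (hL : L ≤ L') (hO : O' ⊆ O) : LLim L' ν0 i O' l where
  lipF := lg_lip h.lipF hL hO
  lipχ := lg_lip h.lipχ hL hO
  lipθ := lg_lip h.lipθ hL hO
  lin := fun X hX Y hY => h.lin X (hO hX) Y (hO hY)
  acc := fun X hX => h.acc X (hO hX)
  exit := fun X hX => h.exit X (hO hX)

/-- integers close to the resonance -/
theorem lg_floor (i : Fin 2) {C : ℝ} (hC : 0 < C) :
    ∃ K : Fin 4 → ℕ, ∀ k, |K k * C - lvν i k| ≤ C := by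
  refine ⟨fun k => ⌊lvν i k / C⌋₊, fun k => ?_⟩
  have hν : 0 < lvν i k := (model_vtx i k).2.2.2.2.2.1
  have h1 : (⌊lvν i k / C⌋₊ : ℝ) ≤ lvν i k / C := Nat.floor_le (by positivity)
  have h2 : lvν i k / C < ⌊lvν i k / C⌋₊ + 1 := Nat.lt_floor_add_one _
  rw [le_div_iff₀ hC] at h1
  rw [div_lt_iff₀ hC] at h2
  rw [abs_le]
  constructor
  · linarith
  · linarith

/-- **Loops.** `c3` is the accuracy of the linear part of the first three arcs. -/
theorem z_loops_pr (r0 c3 : ℝ) (hr0 : 0 < r0) (hc3 : 0 < c3) : ∃ g : GC, g.Xc = 0 ∧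
    g.ν0 = 1 / 100 ∧ g.ρ0 ≤ r0 ∧
    ∃ C0 L : ℝ, 0 < C0 ∧ C0 ≤ 1 ∧ 0 ≤ L ∧ ∀ C, 0 < C → C < C0 →
      Metric.closedBall g.Xc g.ρ0 ⊆ CD C ∧
      ∃ (Λ : Type) (_ : Finite Λ) (_ : Nonempty Λ) (l : Fin 2 → Λ → LD) (l3 l4 : Λ → LD),
        LoopSup g C Λ l l3 l4 ∧
        (∀ a, ContDiffOn ℝ 2 (l3 a).F (Metric.ball 0 g.ρ0)) ∧
        (∀ a, ∀ X ∈ Metric.closedBall (0 : Pl) g.ρ0, ∀ Y ∈ Metric.closedBall (0 : Pl) g.ρ0,
          ‖(l3 a).F X - (l3 a).F Y - lin3 (X - Y)‖ ≤ c3 * ‖X - Y‖) ∧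
        ∃ a, ‖(l3 a).F 0 - Xcp‖ ≤ L * C ∧ ‖(l 0 a).F 0‖ ≤ L * C := by
  obtain ⟨r, hr, hr2, hν, g, hg⟩ := sarcs_all
  have hloop := fun i => loop_pw i hr (g i) (hg i)
  choose R L hR hRr hL hpw using hloop
  obtain ⟨R3, L3, hR3, hR3r, hL3, hl3⟩ := loop3_lin hr (g 0) (hg 0) c3 hc3
  obtain ⟨Rk, Lk, hRk, hRk1, hLk, hkap⟩ := kap_unif
  -- the range of the integers
  set Rm : ℝ := min R3 (min (R 0) (R 1)) with hRm
  have hRmpos : 0 < Rm := lt_min hR3 (lt_min (hR 0) (hR 1))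
  have hRm3 : Rm ≤ R3 := min_le_left _ _
  have hRmi : ∀ i, Rm ≤ R i := by
    intro i
    fin_cases i
    · exact le_trans (min_le_right _ _) (min_le_left _ _)
    · exact le_trans (min_le_right _ _) (min_le_right _ _)
  have hsteer := fun i => loop_steer i hr (g i) (hg i) Rm hRmpos
  choose s hs hsR hst using hsteer
  set ρ0 : ℝ := min r0 (min Rk Rm) with hρ0
  have hρ0pos : 0 < ρ0 := lt_min hr0 (lt_min hRk hRmpos)
  have hρ0r : ρ0 ≤ r0 := min_le_left _ _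
  have hρ0k : ρ0 ≤ Rk := le_trans (min_le_right _ _) (min_le_left _ _)
  have hρ0m : ρ0 ≤ Rm := le_trans (min_le_right _ _) (min_le_right _ _)
  have hρ0i : ∀ i, ρ0 ≤ R i := fun i => le_trans hρ0m (hRmi i)
  set ρs : ℝ := min (ρ0 / 10) (min (s 0) (s 1)) with hρs
  have hρspos : 0 < ρs := lt_min (by positivity) (lt_min (hs 0) (hs 1))
  have hρs0 : 10 * ρs ≤ ρ0 := by
    have : ρs ≤ ρ0 / 10 := min_le_left _ _
    linarith
  have hρsi : ∀ i, ρs ≤ s i := by
    intro i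
    fin_cases i
    · exact le_trans (min_le_right _ _) (min_le_left _ _)
    · exact le_trans (min_le_right _ _) (min_le_right _ _)
  set Lm : ℝ := max Lk (max (L 0) (L 1)) with hLm
  have hLmk : Lk ≤ Lm := le_max_left _ _
  have hLmi : ∀ i, L i ≤ Lm := by
    intro i
    fin_cases i
    · exact le_trans (le_max_left _ _) (le_max_right _ _)
    · exact le_trans (le_max_right _ _) (le_max_right _ _)
  set ℓ0 : ℝ := ρs / 1000 with hℓ0
  set ρ2 : ℝ := ℓ0 / 1000000 with hρ2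
  have hℓ0pos : 0 < ℓ0 := by positivity
  have hρ2pos : 0 < ρ2 := by positivity
  let G : GC :=
    { Xc := 0, ρ0 := ρ0, ρs := ρs, ℓ0 := ℓ0, ρ2 := ρ2, ν0 := 1 / 100, L := Lm
      h2 := hρ2pos
      h0 := by rw [hρ2]; linarith
      hs := by rw [hℓ0]; linarith
      hρ := hρs0
      hρ1 := le_trans hρ0k hRk1
      hν := by norm_num
      hL := le_trans hLk hLmk }
  have hst2 := fun i => hst i ρ2 hρ2pos
  choose C1 hC1 hC1s using hst2
  refine ⟨G, rfl, rfl, hρ0r, min (min 1 Rk) (min Rm (min (C1 0) (C1 1))), L3, ?_, ?_,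
    by linarith, ?_⟩
  · exact lt_min (lt_min one_pos hRk) (lt_min hRmpos (lt_min (hC1 0) (hC1 1)))
  · exact le_trans (min_le_left _ _) (min_le_left _ _)
  intro C hC hC0
  have hCk : C ≤ Rk := (lt_of_lt_of_le hC0 (le_trans (min_le_left _ _) (min_le_right _ _))).le
  have hCm : C ≤ Rm := (lt_of_lt_of_le hC0 (le_trans (min_le_right _ _) (min_le_left _ _))).le
  have hCR : ∀ i, C ≤ R i := fun i => le_trans hCm (hRmi i)
  have hCC : ∀ i, C < C1 i := by
    intro i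
    refine lt_of_lt_of_le hC0 ?_
    fin_cases i
    · exact le_trans (min_le_right _ _) (le_trans (min_le_right _ _) (min_le_left _ _))
    · exact le_trans (min_le_right _ _) (le_trans (min_le_right _ _) (min_le_right _ _))
  have hb1 : Metric.closedBall (0 : Pl) ρ0 ⊆ Metric.closedBall (0 : Pl) Rk :=
    Metric.closedBall_subset_closedBall hρ0k
  have hb2 : ∀ i, Metric.closedBall (0 : Pl) ρ0 ⊆ Metric.closedBall (0 : Pl) (R i) :=
    fun i => Metric.closedBall_subset_closedBall (hρ0i i)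
  have hb3 : Metric.closedBall (0 : Pl) ρ0 ⊆ Metric.closedBall (0 : Pl) R3 :=
    Metric.closedBall_subset_closedBall (le_trans hρ0m hRm3)
  have hk := hkap C hC hCk
  refine ⟨hb1.trans hk.2, ?_⟩
  have hfin : ∀ i, Finite (lgK i Rm C) := fun i => lg_finite i hC
  have hne : ∀ i, Nonempty (lgK i Rm C) := by
    intro i
    obtain ⟨K, hK⟩ := lg_floor i hC
    exact ⟨⟨K, fun k => le_trans (hK k) hCm⟩⟩
  have hp : ∀ i (a : (j : Fin 2) → lgK j Rm C), _ := fun i a =>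
    hpw i C hC (hCR i) (a i).1 (fun k => le_trans ((a i).2 k) (hRmi i))
  have hlim : ∀ i (a : (j : Fin 2) → lgK j Rm C),
      LLim Lm (1 / 100) i (Metric.closedBall (0 : Pl) ρ0) (loopLD (g i) C (a i).1) := by
    intro i a
    exact lg_llim (hp i a).2.2.2.1 (hLmi i) (hb2 i)
  have hq : ∀ (a : (j : Fin 2) → lgK j Rm C), _ := fun a =>
    hl3 C hC (le_trans hCm hRm3) (a 0).1 (fun k => le_trans ((a 0).2 k) hRm3)
  refine ⟨(j : Fin 2) → lgK j Rm C, inferInstance, ⟨fun i => (hne i).some⟩,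
    fun i a => loopLD (g i) C (a i).1, fun a => loop3 (g 0) C (a 0).1,
    fun a => loop4 (g 0) C (a 0).1, ?_, ?_, ?_, ?_⟩
  · constructor
    · rfl
    · constructor
      · exact hlim
      · intro i X hX Y hY
        have hX' : X ∈ Metric.closedBall (0 : Pl) (s i) :=
          Metric.closedBall_subset_closedBall (hρsi i) hX
        have hY' : Y ∈ Metric.closedBall (0 : Pl) (s i) :=
          Metric.closedBall_subset_closedBall (hρsi i) hY
        obtain ⟨K, hK, hKY⟩ := hC1s i C hC (hCC i) X hX' Y hY'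
        classical
        have a0 : (j : Fin 2) → lgK j Rm C := fun j => (hne j).some
        refine ⟨Function.update a0 i ⟨K, hK⟩, ?_⟩
        have he : (Function.update a0 i ⟨K, hK⟩) i = (⟨K, hK⟩ : lgK i Rm C) :=
          Function.update_self _ _ _
        have hXR : X ∈ Metric.closedBall (0 : Pl) (R i) :=
          Metric.closedBall_subset_closedBall (le_trans (hsR i) (hRmi i)) hX'
        have hF := ((hpw i C hC (hCR i) K (fun k => le_trans (hK k) (hRmi i))).2.2.2.2.1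
          X hXR).2.2.2.1
        show ‖(loopLD (g i) C ((Function.update a0 i ⟨K, hK⟩) i).1).F X - Y‖ ≤ ρ2
        rw [he]
        show ‖(loopLD (g i) C K).F X - Y‖ ≤ ρ2
        rw [hF]
        exact hKY
    · intro i a
      exact pw_mono (hp i a).1 (isCompact_closedBall _ _) (hb2 i)
    · exact lg_lip hk.1 hLmk hb1
    · intro a
      exact pw_mono (hp 0 a).2.1 (isCompact_closedBall _ _) (hb2 0)
    · intro a
      refine pw_mono (hp 0 a).2.2.1 (isCompact_closedBall _ _) ?_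
      apply Metric.closedBall_subset_closedBall
      show ρs ≤ R 0
      have := hρ0i 0
      linarith
    · intro a
      rfl
    · intro a X hX
      have h2 := ((hp 0 a).2.2.2.2.1 X (hb2 0 hX)).1
      rw [dir_th1.1] at h2
      exact le_trans h2 (by norm_num)
    · intro a X hX
      have h2 := ((hp 0 a).2.2.2.2.1 X (hb2 0 hX)).2.2.1
      rw [dir_th1.2] at h2
      exact le_trans h2 (by norm_num)
    · intro a X hX
      have hX' : X ∈ Metric.closedBall Xcp (R 0) := by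
        refine Metric.closedBall_subset_closedBall ?_ hX
        show ρs ≤ R 0
        have := hρ0i 0
        linarith
      exact le_trans ((hp 0 a).2.2.2.2.2 X hX') (by norm_num)
  · intro a
    exact (hq a).1.mono (Metric.ball_subset_ball (le_trans hρ0m hRm3))
  · intro a X hX Y hY
    exact (hq a).2.1 X (hb3 hX) Y (hb3 hY)
  · obtain ⟨K, hK⟩ := lg_floor 0 hC
    classical
    have a0 : (j : Fin 2) → lgK j Rm C := fun j => (hne j).some
    have hK' : ∀ k, |K k * C - lvν 0 k| ≤ Rm := fun k => le_trans (hK k) hCm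
    refine ⟨Function.update a0 0 ⟨K, hK'⟩, ?_⟩
    have he : (Function.update a0 0 ⟨K, hK'⟩) 0 = (⟨K, hK'⟩ : lgK 0 Rm C) :=
      Function.update_self _ _ _
    have h3 := (hl3 C hC (le_trans hCm hRm3) K (fun k => le_trans (hK' k) hRm3)).2.2 hK
    show ‖(loop3 (g 0) C ((Function.update a0 0 ⟨K, hK'⟩) 0).1).F 0 - Xcp‖ ≤ L3 * C ∧
      ‖(loopLD (g 0) C ((Function.update a0 0 ⟨K, hK'⟩) 0).1).F 0‖ ≤ L3 * C
    rw [he]
    exact h3

end

end Pool.Agent.HS

namespace Pool.Agent.HS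
open Set Filter Topology
open scoped ContDiff

theorem z_loops (r0 c3 : ℝ) (hr0 : 0 < r0) (hc3 : 0 < c3) : ∃ g : GC, g.Xc = 0 ∧
    g.ν0 = 1 / 100 ∧ g.ρ0 ≤ r0 ∧
    ∃ C0 L : ℝ, 0 < C0 ∧ C0 ≤ 1 ∧ 0 ≤ L ∧ ∀ C, 0 < C → C < C0 →
      Metric.closedBall g.Xc g.ρ0 ⊆ CD C ∧
      ∃ (Λ : Type) (_ : Finite Λ) (_ : Nonempty Λ) (l : Fin 2 → Λ → LD) (l3 l4 : Λ → LD),
        LoopSup g C Λ l l3 l4 ∧
        (∀ a, ContDiffOn ℝ 2 (l3 a).F (Metric.ball 0 g.ρ0)) ∧
        (∀ a, ∀ X ∈ Metric.closedBall (0 : Pl) g.ρ0, ∀ Y ∈ Metric.closedBall (0 : Pl) g.ρ0,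
          ‖(l3 a).F X - (l3 a).F Y - lin3 (X - Y)‖ ≤ c3 * ‖X - Y‖) ∧
        ∃ a, ‖(l3 a).F 0 - Xcp‖ ≤ L * C ∧ ‖(l 0 a).F 0‖ ≤ L * C :=
  @Pool.Agent.HS.z_loops_pr r0 c3 hr0 hc3

end Pool.Agent.HS
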