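import Pool.Agent.Lib_helper60.HSF.D_WL
import Pool.Agent.Lib_helper60.HSF.E_E1b
import Pool.Agent.Lib_helper60.HSF.Z_LD1
import Pool.Agent.Lib_helper60.HSF.Z_LA
import Pool.Agent.Lib_helper60.HSF.Z_ZC

/-!
# Project HS, part Z, block LH: connectors
-/

namespace Pool.Agent.HS

noncomputable section

open Set Filter Topology
open scoped ContDiff

theorem lh_gen (χs : ℝ) (Xs : Pl) (D : ℝ) (hs : Real.sin χs ≠ 0) (hY : mY Xs χs = -1)
    (he : me Xs χs ≠ 0) (hD : mD Xs χs = D) (hD' : D = 5 / 2 ∨ D = -(5 / 2)) :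
    ∃ r : ℝ, 0 < r ∧ ∀ C, 0 < C → C < r → ∀ X ∈ Metric.closedBall Xs (r / 4),
      ∃ (h1 : ℝ) (χ : Pl → ℝ), 0 < h1 ∧ PW C (Metric.closedBall X h1) (TL χ) ∧
        ∀ Y ∈ Metric.closedBall X h1, |χ Y - χs| ≤ 1 / 100 := by
  obtain ⟨-, -, -, -, hr1, hr2, -, -, -, -, hm1, hm2, -⟩ := z_bounds
  have hmp : 0 < mΛ := by linarith
  have hp := Real.pi_gt_three
  have hp4 := Real.pi_le_four
  have hν : 0 < 1 / mΛ := by positivity
  have hYν : 1 / mΛ * (mΛ * mY Xs χs) = ((-1 : ℤ) : ℝ) := by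
    rw [hY]
    field_simp
    norm_num
  have hn : ∀ n : ℤ, 1 / mΛ * (2 * rh * mD Xs χs / Real.pi) ≠ n := by
    intro n hn
    set q : ℝ := 5 * rh / (mΛ * Real.pi) with hq
    have hden : 0 < mΛ * Real.pi := by positivity
    have hq0 : 0 < q := by
      rw [hq]
      positivity
    have hq1 : q < 1 := by
      rw [hq, div_lt_one hden]
      nlinarith
    rw [hD] at hn
    rcases hD' with h | h
    · have h1 : 1 / mΛ * (2 * rh * D / Real.pi) = q := by
        rw [hq, h]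
        field_simp
      rw [h1] at hn
      rw [hn] at hq0 hq1
      have h2 : (0 : ℤ) < n := by exact_mod_cast hq0
      have h3 : n < (1 : ℤ) := by exact_mod_cast hq1
      omega
    · have h1 : 1 / mΛ * (2 * rh * D / Real.pi) = -q := by
        rw [hq, h]
        field_simp
      rw [h1] at hn
      have hq2 : q = ((-n : ℤ) : ℝ) := by
        push_cast
        linarith
      rw [hq2] at hq0 hq1
      have h2 : (0 : ℤ) < -n := by exact_mod_cast hq0
      have h3 : -n < (1 : ℤ) := by exact_mod_cast hq1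
      omega
  obtain ⟨r, hr, -, g, -, -, hg, hK⟩ := tarc_pw (-1) (1 / mΛ) χs Xs (Or.inr rfl) hs hν hYν he hn
    (1 / 100) (by norm_num)
  refine ⟨r, hr, fun C hC hCr X hX => ?_⟩
  set K : ℕ := ⌊1 / mΛ / C⌋₊ with hKd
  have hK1 : (K : ℝ) ≤ 1 / mΛ / C := Nat.floor_le (by positivity)
  have hK2 : 1 / mΛ / C < K + 1 := Nat.lt_floor_add_one _
  have hK3 : |K * C - 1 / mΛ| < r := by
    have h1 : (K : ℝ) * C ≤ 1 / mΛ := by
      rw [le_div_iff₀ hC] at hK1
      exact hK1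
    have h2 : 1 / mΛ < (K + 1) * C := by
      rw [div_lt_iff₀ hC] at hK2
      exact hK2
    rw [abs_lt]
    constructor <;> nlinarith
  have hKC := (hK C K hC hCr hK3 (r / 2) (by linarith)).2.2
  have hsub : Metric.closedBall X (r / 4) ⊆ Metric.closedBall Xs (r / 2) := by
    apply Metric.closedBall_subset_closedBall'
    have := Metric.mem_closedBall.mp hX
    linarith
  refine ⟨r / 4, fun Y => g (C, K * C, Y), by positivity, ?_, ?_⟩
  · exact pw_mono hKC (isCompact_closedBall _ _) hsub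
  · intro Y hY
    have h1 := Metric.mem_closedBall.mp (hsub hY)
    have h2 : ((C, K * C, Y) : ℝ × ℝ × Pl) ∈ Metric.ball ((0, 1 / mΛ, Xs) : ℝ × ℝ × Pl) r := by
      rw [Metric.mem_ball, Prod.dist_eq, Prod.dist_eq, max_lt_iff, max_lt_iff]
      refine ⟨?_, ?_, ?_⟩
      · show dist C 0 < r
        rw [Real.dist_eq, sub_zero, abs_of_pos hC]
        exact hCr
      · exact hK3
      · show dist Y Xs < r
        linarith
    exact (hg _ h2).1.le

theorem lh_cs : Real.cos th1 = 3 / 5 ∧ Real.sin th1 = 4 / 5 := by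
  have h := dir_trig 0 0
  rw [dir_th1.1] at h
  simp only [if_true, Matrix.cons_val_zero, Prod.mk.injEq] at h
  exact h

/-- connectors -/
theorem z_conn_pr : ∃ r C0 : ℝ, 0 < r ∧ 0 < C0 ∧ ∀ C, 0 < C → C < C0 → ConnSup C r := by
  obtain ⟨hc, hs⟩ := lh_cs
  have e1 : Real.cos (-th1) = 3 / 5 := by rw [Real.cos_neg, hc]
  have e2 : Real.sin (-th1) = -(4 / 5) := by rw [Real.sin_neg, hs]
  have e3 : Real.cos (-(Real.pi - th1)) = -(3 / 5) := by rw [Real.cos_neg, Real.cos_pi_sub, hc]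
  have e4 : Real.sin (-(Real.pi - th1)) = -(4 / 5) := by rw [Real.sin_neg, Real.sin_pi_sub, hs]
  obtain ⟨r1, hr1, h1⟩ := lh_gen (-th1) (0 : Pl) (-(5 / 2)) (by rw [e2]; norm_num)
    (by rw [mY, e1, e2, zϖ, zρ]; norm_num) (by rw [me, e1, e2, zϖ]; norm_num)
    (by rw [mD, e1, e2, zϖ]; norm_num) (Or.inr rfl)
  obtain ⟨r2, hr2, h2⟩ := lh_gen (-(Real.pi - th1)) Xcp (5 / 2) (by rw [e4]; norm_num)
    (by rw [mY, e3, e4, zϖ, zρ, Xcp]; norm_num) (by rw [me, e3, e4, zϖ, Xcp]; norm_num)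
    (by rw [mD, e3, e4, zϖ, Xcp]; norm_num) (Or.inl rfl)
  refine ⟨min r1 r2 / 4, min r1 r2, by positivity, by positivity, fun C hC hC0 => ⟨?_, ?_⟩⟩
  · intro X hX
    refine h1 C hC (hC0.trans_le (min_le_left _ _)) X
      (Metric.closedBall_subset_closedBall ?_ hX)
    have := min_le_left r1 r2
    linarith
  · intro X hX
    refine h2 C hC (hC0.trans_le (min_le_right _ _)) X
      (Metric.closedBall_subset_closedBall ?_ hX)
    have := min_le_right r1 r2
    linarith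

end

end Pool.Agent.HS

namespace Pool.Agent.HS
open Set Filter Topology
open scoped ContDiff

theorem z_conn : ∃ r C0 : ℝ, 0 < r ∧ 0 < C0 ∧ ∀ C, 0 < C → C < C0 → ConnSup C r :=
  @Pool.Agent.HS.z_conn_pr

end Pool.Agent.HS
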