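import Pool.Agent.Lib_helper60.HSF.D_WQ
import Pool.Agent.Lib_helper60.HSF.K_KL3
import Pool.Agent.Lib_helper60.HSF.Z_ZA1
import Pool.Agent.Lib_helper60.HSF.Z_QA1
import Pool.Agent.Lib_helper60.HSF.K_KL1

/-!
# Project HS, part Q, block QA9: windows around sun collisions
-/

namespace Pool.Agent.HS

noncomputable section

open Set Filter Topology
open scoped ContDiff

/-! ## The regularized body is a harmonic oscillator -/

theorem QA9_toLC (i : Fin 2) (y : St) : (toLC i 0 y).1 = (pP i y).1 ^ (1/2 : ℂ) ∧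
    (toLC i 0 y).2.1 = 2 * (starRingEnd ℂ) ((pP i y).1 ^ (1/2 : ℂ)) * (pP i y).2 := by
  unfold toLC pP p3 p2
  by_cases h : i = 0 <;> simp [h]

theorem QA9_pP (C : ℝ) (i : Fin 2) (X : Pl) (χ : ℝ) :
    (pP i (colD (limD C X χ))).1 = (zr C X : ℂ) ∧
    kL (pP i (colD (limD C X χ))) = LP C i X χ ∧
    kL (pQ i (colD (limD C X χ))) = LQ C i X χ := by
  obtain ⟨h1, h2⟩ := z_p C X χ
  unfold pP pQ LP LQ
  rw [h1, h2]
  by_cases h : i = 0 <;> simp [h, z3, z2]

theorem QA9_neg {C : ℝ} (i : Fin 2) {X : Pl} {χ : ℝ} (h3 : kh' (z3 C X χ) < 0)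
    (h2 : kh' (z2 C X χ) < 0) : kh' (pP i (colD (limD C X χ))) < 0 ∧
    kh' (pQ i (colD (limD C X χ))) < 0 := by
  obtain ⟨e1, e2⟩ := z_p C X χ
  unfold pP pQ
  rw [e1, e2]
  by_cases h : i = 0 <;> simp [h, h3, h2]

/-- initial data of the regularized body -/
theorem QA9_ini {C : ℝ} (i : Fin 2) {X : Pl} (hr : 0 < zr C X) (χ : ℝ) :
    (toLC i 0 (colD (limD C X χ))).1 = ((Real.sqrt (zr C X) : ℝ) : ℂ) ∧
    ((starRingEnd ℂ) (toLC i 0 (colD (limD C X χ))).1 *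
      (toLC i 0 (colD (limD C X χ))).2.1).im = 2 * LP C i X χ := by
  obtain ⟨h1, h2⟩ := QA9_toLC i (colD (limD C X χ))
  obtain ⟨h3, h4, -⟩ := QA9_pP C i X χ
  have h5 : ((zr C X : ℝ) : ℂ) ^ (1/2 : ℂ) = ((Real.sqrt (zr C X) : ℝ) : ℂ) := by
    rw [Real.sqrt_eq_rpow, Complex.ofReal_cpow hr.le]
    norm_num
  have h6 : (toLC i 0 (colD (limD C X χ))).1 = ((Real.sqrt (zr C X) : ℝ) : ℂ) := by
    rw [h1, h3, h5]
  refine ⟨h6, ?_⟩
  rw [← h4, h6, h2, h3, h5]
  unfold kL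
  rw [h3]
  have h7 : Real.sqrt (zr C X) * Real.sqrt (zr C X) = zr C X := Real.mul_self_sqrt hr.le
  simp only [Complex.conj_ofReal, Complex.mul_im, Complex.ofReal_re, Complex.ofReal_im,
    Complex.mul_re, Complex.re_ofNat, Complex.im_ofNat]
  ring_nf
  rw [Real.sq_sqrt hr.le]
  ring

/-- the frequency is positive -/
theorem QA9_w {C : ℝ} (i : Fin 2) {X : Pl} {χ : ℝ} (hr : 0 < zr C X)
    (h : kh' (pP i (colD (limD C X χ))) < 0) : 0 < lzw i (toLC i 0 (colD (limD C X χ))) := by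
  have h0 : (pP i (colD (limD C X χ))).1 ≠ 0 := by
    rw [(QA9_pP C i X χ).1]
    exact_mod_cast hr.ne'
  rw [(lz_w i h h0).2]
  exact Real.sqrt_pos.2 (by linarith)

/-- conservation of the angular momentum -/
theorem QA9_J (i : Fin 2) (Z : LCS) (hw : lzw i Z ≠ 0) (τ : ℝ) :
    ((starRingEnd ℂ) (lzζ i τ Z) * lzη i τ Z).im = ((starRingEnd ℂ) Z.1 * Z.2.1).im := by
  unfold lzζ lzη
  have h1 := Real.sin_sq_add_cos_sq (lzw i Z * τ)
  set s := Real.sin (lzw i Z * τ)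
  set c := Real.cos (lzw i Z * τ)
  set w := lzw i Z
  simp only [map_add, map_mul, Complex.conj_ofReal, Complex.mul_im, Complex.add_re,
    Complex.add_im, Complex.mul_re, Complex.ofReal_re, Complex.ofReal_im, Complex.conj_re,
    Complex.conj_im, zero_mul, sub_zero, add_zero]
  have h2 : s / (4 * w) * (-4 * w * s) = -(s ^ 2) := by
    field_simp
  have h3 : s ^ 2 = 1 - c ^ 2 := by linarith
  have h4 : ∀ a b a' b' : ℝ,
      (c * a + s / (4 * w) * a') * (-4 * w * s * b + c * b') +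
        (c * -b + s / (4 * w) * -b') * (-4 * w * s * a + c * a') =
      c ^ 2 * (a * b' - b * a') + (s / (4 * w) * (-4 * w * s)) * (a' * b - b' * a) := by
    intro a b a' b'
    ring
  rw [h4, h2, h3]
  ring

/-- a zero forces `LP = 0` -/
theorem QA9_LP {C : ℝ} (i : Fin 2) {X : Pl} {χ : ℝ} (hr : 0 < zr C X)
    (h : kh' (pP i (colD (limD C X χ))) < 0) {τ : ℝ} (hz : (Zd i (limD C X χ) τ).1 = 0) :
    LP C i X χ = 0 := by
  have h1 : lzζ i τ (toLC i 0 (colD (limD C X χ))) = 0 := hz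
  have h2 := QA9_J i (toLC i 0 (colD (limD C X χ))) (QA9_w i hr h).ne' τ
  rw [h1, (QA9_ini i hr χ).2] at h2
  simp at h2
  exact h2

/-- if `LP = 0` then `LQ ≠ 0` -/
theorem QA9_LQ {C : ℝ} (hC : 0 < C) (i : Fin 2) {X : Pl} {χ : ℝ} (hr : 0 < zr C X)
    (h : LP C i X χ = 0) : LQ C i X χ ≠ 0 := by
  obtain ⟨e1, e2, -, -⟩ := z_L (C := C) (X := X) hr.ne' χ
  unfold LP at h
  unfold LQ
  by_cases hi : i = 0
  · rw [if_pos hi] at h ⊢
    rw [e1] at h
    rw [e2]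
    unfold ma mb at *
    intro h'
    linarith
  · rw [if_neg hi] at h ⊢
    rw [e2] at h
    rw [e1]
    unfold ma mb at *
    intro h'
    linarith

/-- the limit trajectory is smooth near an arc with `LP = 0` -/
theorem QA9_Sm {C : ℝ} (hC : 0 < C) (i : Fin 2) {X : Pl} {χ : ℝ} (hr : 0 < zr C X)
    (h3 : kh' (z3 C X χ) < 0) (h2 : kh' (z2 C X χ) < 0) (h : LP C i X χ = 0) :
    limD C X χ ∈ Sm i := by
  obtain ⟨e1, e2⟩ := QA9_neg i h3 h2
  refine ⟨?_, e1, e2, ?_⟩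
  · show 0 < (((chart C X).1 : ℝ) : ℂ).re
    rw [Complex.ofReal_re]
    exact hr
  · rw [(QA9_pP C i X χ).2.2]
    exact QA9_LQ hC i hr h

/-- the zeros of a harmonic oscillation -/
theorem QA9_osc {a b : ℝ} (ha : 0 < a) : ∃ θ : ℝ, 0 < θ ∧ θ < Real.pi ∧ ∀ x : ℝ,
    Real.cos x * a + Real.sin x * b = 0 ↔ ∃ k : ℤ, x = θ + k * Real.pi := by
  set φ := Real.arctan (b / a) with hφ
  have hc : 0 < Real.cos φ := Real.cos_arctan_pos _
  have ht : Real.tan φ = b / a := Real.tan_arctan _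
  have hs : Real.cos φ * b = a * Real.sin φ := by
    rw [Real.tan_eq_sin_div_cos] at ht
    field_simp at ht
    linarith
  refine ⟨Real.pi / 2 + φ, by linarith [Real.neg_pi_div_two_lt_arctan (b / a)],
    by linarith [Real.arctan_lt_pi_div_two (b / a)], fun x => ?_⟩
  have h1 : Real.cos φ * (Real.cos x * a + Real.sin x * b) =
      -a * Real.sin (x - (Real.pi / 2 + φ)) := by
    have h2 : x - (Real.pi / 2 + φ) = (x - φ) - Real.pi / 2 := by ring
    rw [h2, Real.sin_sub_pi_div_two, Real.cos_sub]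
    calc Real.cos φ * (Real.cos x * a + Real.sin x * b) =
        a * (Real.cos φ * Real.cos x) + Real.sin x * (Real.cos φ * b) := by ring
      _ = _ := by rw [hs]; ring
  constructor
  · intro h
    rw [h, mul_zero] at h1
    have h3 : Real.sin (x - (Real.pi / 2 + φ)) = 0 := by
      rcases mul_eq_zero.1 h1.symm with h4 | h4
      · linarith
      · exact h4
    obtain ⟨k, hk⟩ := Real.sin_eq_zero_iff.1 h3
    exact ⟨k, by linarith⟩
  · rintro ⟨k, hk⟩
    have h3 : Real.sin (x - (Real.pi / 2 + φ)) = 0 := by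
      rw [hk, show Real.pi / 2 + φ + k * Real.pi - (Real.pi / 2 + φ) = k * Real.pi by ring]
      exact Real.sin_int_mul_pi k
    rw [h3, mul_zero] at h1
    exact (mul_eq_zero.1 h1).resolve_left hc.ne'

/-- windows around the sun collisions; `N` revolutions of the regularized body -/
theorem QA9_win (C : ℝ) (hC : 0 < C ∧ C ≤ 1) (i : Fin 2) (Xs : Pl) (χ : Pl → ℝ)
    (U : Set Pl) (hU : IsOpen U) (hXU : Xs ∈ U) (hUC : U ⊆ CD C) (hχ : ContinuousOn χ U)
    (h3 : kh' (z3 C Xs (χ Xs)) < 0) (h2 : kh' (z2 C Xs (χ Xs)) < 0)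
    (hL : LP C i Xs (χ Xs) = 0) (δ : ℝ) (hδ : 0 < δ) (N : ℕ) :
    ∃ (he : ℝ) (τm : Fin N → ℝ) (h1 : ℝ), 0 < he ∧ he ≤ δ ∧ 0 < h1 ∧
      he < Real.pi / lzw i (toLC i 0 (colD (limD C Xs (χ Xs)))) ∧
      (∀ j, (Zd i (limD C Xs (χ Xs)) (τm j)).1 = 0) ∧
      SunW C i (Metric.closedBall Xs h1) χ
        (fun _ => N * (Real.pi / lzw i (toLC i 0 (colD (limD C Xs (χ Xs)))))) he N τm := by
  have hr : 0 < zr C Xs := (cd_facts hC (hUC hXU)).1
  obtain ⟨hP, hQ⟩ := QA9_neg i h3 h2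
  have hw := QA9_w i hr hP
  have hSm : limD C Xs (χ Xs) ∈ Sm i := QA9_Sm hC.1 i hr h3 h2 hL
  obtain ⟨hi1, hi2⟩ := QA9_ini i hr (χ Xs)
  set Z := toLC i 0 (colD (limD C Xs (χ Xs))) with hZd
  set w := lzw i Z with hwd
  set a := Real.sqrt (zr C Xs) with had
  have ha : 0 < a := Real.sqrt_pos.2 hr
  have hb : Z.2.1 = ((Z.2.1.re : ℝ) : ℂ) := by
    rw [hi1, hL, Complex.conj_ofReal, Complex.mul_im, Complex.ofReal_re, Complex.ofReal_im,
      zero_mul, add_zero, mul_zero] at hi2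
    apply Complex.ext
    · simp
    · rw [Complex.ofReal_im]
      exact (mul_eq_zero.1 hi2).resolve_left ha.ne'
  set b := Z.2.1.re / (4 * w) with hbd
  have hζ : ∀ τ : ℝ, (Zd i (limD C Xs (χ Xs)) τ).1 =
      ((Real.cos (w * τ) * a + Real.sin (w * τ) * b : ℝ) : ℂ) := by
    intro τ
    show lzζ i τ Z = _
    unfold lzζ
    rw [hi1, hb, ← hwd, hbd]
    push_cast
    ring
  obtain ⟨θ, hθ0, hθ1, hθ⟩ := QA9_osc (b := b) ha
  have hzero : ∀ τ : ℝ, (Zd i (limD C Xs (χ Xs)) τ).1 = 0 ↔ ∃ k : ℤ, w * τ = θ + k * Real.pi := by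
    intro τ
    rw [hζ τ, Complex.ofReal_eq_zero]
    exact hθ (w * τ)
  set he := min δ (min (θ / (2 * w)) ((Real.pi - θ) / (2 * w))) with hhe
  have hπ := Real.pi_pos
  have he0 : 0 < he := by
    refine lt_min hδ (lt_min ?_ ?_)
    · positivity
    · exact div_pos (by linarith) (by positivity)
  have he1 : he ≤ θ / (2 * w) := (min_le_right _ _).trans (min_le_left _ _)
  have he2 : he ≤ (Real.pi - θ) / (2 * w) := (min_le_right _ _).trans (min_le_right _ _)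
  have he1' : w * he ≤ θ / 2 := by
    calc w * he ≤ w * (θ / (2 * w)) := mul_le_mul_of_nonneg_left he1 hw.le
      _ = θ / 2 := by field_simp
  have he2' : w * he ≤ (Real.pi - θ) / 2 := by
    calc w * he ≤ w * ((Real.pi - θ) / (2 * w)) := mul_le_mul_of_nonneg_left he2 hw.le
      _ = (Real.pi - θ) / 2 := by field_simp
  set τm : Fin N → ℝ := fun j => (θ + (j : ℕ) * Real.pi) / w with hτm
  have hwτ : ∀ j, w * τm j = θ + (j : ℕ) * Real.pi := fun j => by
    rw [hτm]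
    field_simp
  set T : ℝ := N * (Real.pi / w) with hT
  have hwT : w * T = N * Real.pi := by
    rw [hT]
    field_simp
  have hpos : ∀ j, 0 < τm j - he ∧ τm j + he < T := by
    intro j
    have hj0 : (0 : ℝ) ≤ ((j : ℕ) : ℝ) := Nat.cast_nonneg _
    have hj1 : ((j : ℕ) : ℝ) + 1 ≤ N := by exact_mod_cast j.2
    have hj2 := mul_nonneg hj0 hπ.le
    have hj3 := mul_le_mul_of_nonneg_right hj1 hπ.le
    constructor
    · have h4 : 0 < w * (τm j - he) := by
        rw [mul_sub, hwτ]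
        linarith
      exact (mul_pos_iff_of_pos_left hw).1 h4
    · have h4 : w * (τm j + he) < w * T := by
        rw [mul_add, hwτ, hwT]
        linarith
      exact lt_of_mul_lt_mul_left h4 hw.le
  -- continuity
  have hUi : U ⊆ interior (CD C) := interior_maximal hUC hU
  have hχa : ContinuousAt χ Xs := hχ.continuousAt (hU.mem_nhds hXU)
  have hset : {p : Pl × ℝ | p.1 ∈ interior (CD C)} ∈ 𝓝 (Xs, χ Xs) :=
    (isOpen_interior.preimage continuous_fst).mem_nhds (hUi hXU)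
  have hlim : ContinuousAt (fun p : Pl × ℝ => limD C p.1 p.2) (Xs, χ Xs) :=
    (cd_smooth hC).2.2.1.continuousOn.continuousAt hset
  have hD : ContinuousAt (fun X : Pl => limD C X (χ X)) Xs :=
    ContinuousAt.comp (g := fun p : Pl × ℝ => limD C p.1 p.2) (f := fun X : Pl => (X, χ X)) hlim
      (continuousAt_id.prodMk hχa)
  have hg : ∀ τ : ℝ, ContinuousAt (fun q : Pl × ℝ => (Zd i (limD C q.1 (χ q.1)) q.2).1)
      (Xs, τ) := by
    intro τ
    have hZ : ContinuousAt (fun p : Dt × ℝ => Zd i p.1 p.2) (limD C Xs (χ Xs), τ) :=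
      (Zd_smooth i).1.continuousOn.continuousAt
        (((Zd_smooth i).2.preimage continuous_fst).mem_nhds hSm)
    have hf : ContinuousAt (fun q : Pl × ℝ => Zd i (limD C q.1 (χ q.1)) q.2) (Xs, τ) :=
      ContinuousAt.comp (g := fun p : Dt × ℝ => Zd i p.1 p.2)
        (f := fun q : Pl × ℝ => (limD C q.1 (χ q.1), q.2)) hZ
        ((ContinuousAt.comp (g := fun X : Pl => limD C X (χ X)) (f := fun q : Pl × ℝ => q.1)
          hD continuousAt_fst).prodMk continuousAt_snd)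
    exact continuous_fst.continuousAt.comp hf
  set S : Set ℝ := Icc 0 T ∩ {τ | ∀ j, he / 2 ≤ |τ - τm j|} with hS
  have hSc : IsCompact S := by
    refine isCompact_Icc.inter_right ?_
    rw [Set.ofPred_forall]
    exact isClosed_iInter fun j => isClosed_le continuous_const
      (continuous_abs.comp (continuous_id.sub continuous_const))
  have hne : ∀ τ ∈ S, (Zd i (limD C Xs (χ Xs)) τ).1 ≠ 0 := by
    rintro τ ⟨hτ, hτ'⟩ h0
    obtain ⟨k, hk⟩ := (hzero τ).1 h0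
    have h4 : 0 ≤ w * τ := mul_nonneg hw.le hτ.1
    have h5 : w * τ ≤ N * Real.pi := by
      rw [← hwT]
      exact mul_le_mul_of_nonneg_left hτ.2 hw.le
    rw [hk] at h4 h5
    have h6 : (-1 : ℝ) < k := by
      by_contra hcon
      push Not at hcon
      have := mul_le_mul_of_nonneg_right hcon hπ.le
      linarith
    have h7 : (k : ℝ) < N := by
      by_contra hcon
      push Not at hcon
      have := mul_le_mul_of_nonneg_right hcon hπ.le
      linarith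
    have h8 : -1 < k := by exact_mod_cast h6
    have h9 : k < N := by exact_mod_cast h7
    have h10 : (k.toNat : ℤ) = k := Int.toNat_of_nonneg (by linarith)
    have h11 : k.toNat < N := by omega
    have h12 := hτ' ⟨k.toNat, h11⟩
    have h13 : τ = τm ⟨k.toNat, h11⟩ := by
      have h14 : w * τ = w * τm ⟨k.toNat, h11⟩ := by
        rw [hwτ, hk]
        congr 2
        show (k : ℝ) = ((k.toNat : ℕ) : ℝ)
        exact_mod_cast h10.symm
      exact mul_left_cancel₀ hw.ne' h14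
    rw [← h13, sub_self, abs_zero] at h12
    linarith
  have hev := hSc.eventually_forall_of_forall_eventually (x₀ := Xs)
    (P := fun X τ => (Zd i (limD C X (χ X)) τ).1 ≠ 0)
    (fun τ hτ => (hg τ).eventually_ne (hne τ hτ))
  obtain ⟨h1, hh1, hball⟩ := Metric.nhds_basis_closedBall.eventually_iff.1 hev
  refine ⟨he, τm, h1, he0, min_le_left _ _, hh1, ?_, fun j => ?_, fun j X _ => hpos j,
    fun X hX τ hτ hj => ?_⟩
  · have h4 : w * he < w * (Real.pi / w) := by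
      have : w * (Real.pi / w) = Real.pi := by field_simp
      rw [this]
      linarith
    exact lt_of_mul_lt_mul_left h4 hw.le
  · exact (hzero _).2 ⟨(j : ℕ), by rw [hwτ]; simp⟩
  · exact hball hX τ ⟨⟨hτ.1.le, hτ.2.le⟩, fun j => (hj j).le⟩

theorem sun_windows_pr (C : ℝ) (hC : 0 < C ∧ C ≤ 1) (i : Fin 2) (Xs : Pl) (K n : ℕ) (χ : Pl → ℝ)
    (U : Set Pl) (hU : IsOpen U) (hXU : Xs ∈ U) (hUC : U ⊆ CD C) (hχ : ContinuousOn χ U)
    (h3 : kh' (z3 C Xs (χ Xs)) < 0) (h2 : kh' (z2 C Xs (χ Xs)) < 0)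
    (hL : LP C i Xs (χ Xs) = 0) (δ : ℝ) (hδ : 0 < δ) :
    ∃ (he : ℝ) (τm : Fin (if i = 0 then K else n) → ℝ) (h1 : ℝ), 0 < he ∧ he ≤ δ ∧ 0 < h1 ∧
      he < Real.pi / lzw i (toLC i 0 (colD (limD C Xs (χ Xs)))) ∧
      (∀ j, (Zd i (limD C Xs (χ Xs)) (τm j)).1 = 0) ∧
      SunW C i (Metric.closedBall Xs h1) χ (fun _ => T0 C i Xs (χ Xs) K n) he
        (if i = 0 then K else n) τm := by
  have h := QA9_win C hC i Xs χ U hU hXU hUC hχ h3 h2 hL δ hδ (if i = 0 then K else n)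
  have e : T0 C i Xs (χ Xs) K n = ((if i = 0 then K else n : ℕ) : ℝ) *
      (Real.pi / lzw i (toLC i 0 (colD (limD C Xs (χ Xs))))) := by
    unfold T0
    by_cases hi : i = 0 <;> simp [hi]
  rw [e]
  exact h

/-- no sun collisions -/
theorem sun_none_pr (C : ℝ) (hC : 0 < C ∧ C ≤ 1) (i : Fin 2) {X : Pl} {χ : ℝ} (hX : X ∈ CD C)
    (h3 : kh' (z3 C X χ) < 0) (h2 : kh' (z2 C X χ) < 0) (hL : LP C i X χ ≠ 0) (τ : ℝ) :
    (Zd i (limD C X χ) τ).1 ≠ 0 := fun h =>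
  hL (QA9_LP i (cd_facts hC hX).1 (QA9_neg i h3 h2).1 h)

end

end Pool.Agent.HS

namespace Pool.Agent.HS
open Set Filter Topology
open scoped ContDiff

theorem sun_windows (C : ℝ) (hC : 0 < C ∧ C ≤ 1) (i : Fin 2) (Xs : Pl) (K n : ℕ) (χ : Pl → ℝ)
    (U : Set Pl) (hU : IsOpen U) (hXU : Xs ∈ U) (hUC : U ⊆ CD C) (hχ : ContinuousOn χ U)
    (h3 : kh' (z3 C Xs (χ Xs)) < 0) (h2 : kh' (z2 C Xs (χ Xs)) < 0)
    (hL : LP C i Xs (χ Xs) = 0) (δ : ℝ) (hδ : 0 < δ) :
    ∃ (he : ℝ) (τm : Fin (if i = 0 then K else n) → ℝ) (h1 : ℝ), 0 < he ∧ he ≤ δ ∧ 0 < h1 ∧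
      he < Real.pi / lzw i (toLC i 0 (colD (limD C Xs (χ Xs)))) ∧
      (∀ j, (Zd i (limD C Xs (χ Xs)) (τm j)).1 = 0) ∧
      SunW C i (Metric.closedBall Xs h1) χ (fun _ => T0 C i Xs (χ Xs) K n) he
        (if i = 0 then K else n) τm :=
  @Pool.Agent.HS.sun_windows_pr C hC i Xs K n χ U hU hXU hUC hχ h3 h2 hL δ hδ

end Pool.Agent.HS

namespace Pool.Agent.HS
open Set Filter Topology
open scoped ContDiff

theorem sun_none (C : ℝ) (hC : 0 < C ∧ C ≤ 1) (i : Fin 2) {X : Pl} {χ : ℝ} (hX : X ∈ CD C)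
    (h3 : kh' (z3 C X χ) < 0) (h2 : kh' (z2 C X χ) < 0) (hL : LP C i X χ ≠ 0) (τ : ℝ) :
    (Zd i (limD C X χ) τ).1 ≠ 0 :=
  @Pool.Agent.HS.sun_none_pr C hC i X χ hX h3 h2 hL τ

end Pool.Agent.HS
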