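import Pool.Agent.Lib_helper60.HSF.D_WQ
import Pool.Agent.Lib_helper60.HSF.K_KA1

/-!
# Project HS, block QB1: Kepler orbits through the sun, hodograph

The algebra is the one of block KA2 with the hypothesis `kR y s ≠ 0` in place of `kL y ≠ 0`.
-/

namespace Pool.Agent.HS

noncomputable section

open Set Filter Topology
open scoped ContDiff

/-- `kE = (|v|^2 - 1/r) x - σ v` -/
theorem qb1_E (y : KS) (h0 : y.1 ≠ 0) :
    kE y = ((‖y.2‖ ^ 2 - 1 / kr y : ℝ) : ℂ) * y.1 - (kσ y : ℂ) * y.2 := by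
  have h1 : (y.2 : ℂ) * (starRingEnd ℂ) y.2 = ((‖y.2‖ ^ 2 : ℝ) : ℂ) := by
    rw [Complex.mul_conj, Complex.normSq_eq_norm_sq]
  have h2 : (starRingEnd ℂ) y.1 * y.2 = (kσ y : ℂ) + (kL y : ℂ) * Complex.I := by
    unfold kσ kL
    exact (Complex.re_add_im _).symm
  have h3 : y.1 * (starRingEnd ℂ) y.2 = (kσ y : ℂ) - (kL y : ℂ) * Complex.I := by
    have h4 := congrArg (starRingEnd ℂ) h2
    simp only [map_mul, Complex.conj_conj, map_add, Complex.conj_ofReal, Complex.conj_I] at h4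
    rw [h4]
    ring
  have hr : (‖y.1‖ : ℂ) ≠ 0 := by
    rw [Ne, Complex.ofReal_eq_zero, norm_eq_zero]
    exact h0
  unfold kE kr
  rw [Complex.ofReal_sub, ← h1]
  push_cast
  linear_combination (-y.2) * h3

/-- the norm of a real combination -/
theorem qb1_norm (a b : ℝ) (x v : ℂ) :
    ‖(a : ℂ) * x + (b : ℂ) * v‖ ^ 2 =
      a ^ 2 * ‖x‖ ^ 2 + 2 * a * b * ((starRingEnd ℂ) x * v).re + b ^ 2 * ‖v‖ ^ 2 := by
  rw [← Complex.normSq_eq_norm_sq, ← Complex.normSq_eq_norm_sq, ← Complex.normSq_eq_norm_sq,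
    Complex.normSq_apply, Complex.normSq_apply, Complex.normSq_apply]
  simp only [Complex.add_re, Complex.add_im, Complex.mul_re, Complex.mul_im, Complex.ofReal_re,
    Complex.ofReal_im, Complex.conj_re, Complex.conj_im]
  ring

/-- the cross product of real combinations -/
theorem qb1_cross (k a b c d : ℝ) (x v : ℂ) :
    ((starRingEnd ℂ) ((a : ℂ) * x + (b : ℂ) * v) * ((k : ℂ) * ((c : ℂ) * x + (d : ℂ) * v))).im =
      k * ((a * d - b * c) * ((starRingEnd ℂ) x * v).im) := by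
  simp only [Complex.add_re, Complex.add_im, Complex.mul_re, Complex.mul_im, Complex.ofReal_re,
    Complex.ofReal_im, Complex.conj_re, Complex.conj_im, map_add, map_mul, Complex.conj_ofReal]
  ring

/-- the scalar product of real combinations -/
theorem qb1_dot (k a b c d : ℝ) (x v : ℂ) :
    ((starRingEnd ℂ) ((a : ℂ) * x + (b : ℂ) * v) * ((k : ℂ) * ((c : ℂ) * x + (d : ℂ) * v))).re =
      k * (a * c * ‖x‖ ^ 2 + (a * d + b * c) * ((starRingEnd ℂ) x * v).re + b * d * ‖v‖ ^ 2) := by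
  rw [← Complex.normSq_eq_norm_sq, ← Complex.normSq_eq_norm_sq,
    Complex.normSq_apply, Complex.normSq_apply]
  simp only [Complex.add_re, Complex.add_im, Complex.mul_re, Complex.mul_im, Complex.ofReal_re,
    Complex.ofReal_im, Complex.conj_re, Complex.conj_im, map_add, map_mul, Complex.conj_ofReal]
  ring

theorem qb1_w {y : KS} (h : kh' y < 0) : Real.sqrt (kA y) ^ 2 = kA y := Real.sq_sqrt (kA_pos h).le

theorem qb1_w0 {y : KS} (h : kh' y < 0) : Real.sqrt (kA y) ≠ 0 := (Real.sqrt_pos.2 (kA_pos h)).ne'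

theorem qb1_L {y : KS} (h : kh' y < 0) (h0 : y.1 ≠ 0) {s : ℝ} (hR : kR y s ≠ 0) :
    kL (kY y s) = kL y := by
  have hr0 : kr y ≠ 0 := norm_ne_zero_iff.2 h0
  have hw0 := qb1_w0 h
  have hw := qb1_w h
  have h2 := Real.sin_sq_add_cos_sq s
  unfold kY
  rw [kL]
  simp only []
  unfold kX kV
  rw [qb1_cross]
  change _ * (_ * kL y) = kL y
  have e1 : (1 - kA y / kr y * (1 - Real.cos s)) *
      (Real.sqrt (kA y) * kr y * Real.cos s + kA y * kσ y * Real.sin s) -
      (Real.sqrt (kA y) * kr y * Real.sin s + kA y * kσ y * (1 - Real.cos s)) *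
        (-(kA y / kr y) * Real.sin s) = Real.sqrt (kA y) * kR y s := by
    unfold kR
    clear hR
    generalize Real.sqrt (kA y) = w at *
    generalize kr y = r at *
    generalize kσ y = q at *
    generalize Real.sin s = sn at *
    generalize Real.cos s = c at *
    rw [← hw]
    field_simp
    linear_combination (r * w ^ 2) * h2
  rw [e1, ← mul_assoc, inv_mul_cancel₀ (mul_ne_zero hw0 hR), one_mul]

theorem qb1_v {y : KS} (h : kh' y < 0) (h0 : y.1 ≠ 0) {s : ℝ} (hR : kR y s ≠ 0) :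
    ‖kV y s‖ ^ 2 = 2 / kR y s - 1 / kA y := by
  have hr0 : kr y ≠ 0 := norm_ne_zero_iff.2 h0
  have hw0 := qb1_w0 h
  have hw := qb1_w h
  have h2 := Real.sin_sq_add_cos_sq s
  unfold kV
  rw [norm_mul, mul_pow, qb1_norm, norm_v_sq h, Complex.norm_real, Real.norm_eq_abs, sq_abs]
  change _ * (_ * kr y ^ 2 + 2 * _ * _ * kσ y + _) = _
  have e1 : (-(kA y / kr y) * Real.sin s) ^ 2 * kr y ^ 2 + 2 * (-(kA y / kr y) * Real.sin s) *
      (Real.sqrt (kA y) * kr y * Real.cos s + kA y * kσ y * Real.sin s) * kσ y +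
      (Real.sqrt (kA y) * kr y * Real.cos s + kA y * kσ y * Real.sin s) ^ 2 *
        (2 / kr y - 1 / kA y) = kR y s * (2 * kA y - kR y s) := by
    unfold kR
    clear hR
    generalize Real.sqrt (kA y) = w at *
    generalize kr y = r at *
    generalize kσ y = q at *
    generalize Real.sin s = sn at *
    generalize Real.cos s = c at *
    rw [← hw]
    field_simp
    linear_combination (w ^ 4 * r) * h2
  rw [e1, inv_pow, mul_pow, hw]
  have hA := (kA_pos h).ne'
  field_simp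

theorem qb1_h {y : KS} (h : kh' y < 0) (h0 : y.1 ≠ 0) {s : ℝ} (hR : kR y s ≠ 0) :
    kh' (kY y s) = kh' y := by
  have h1 : kh' (kY y s) = ‖kV y s‖ ^ 2 / 2 - 1 / ‖kX y s‖ := rfl
  rw [h1, qb1_v h h0 hR, norm_kX h h0]
  have h2 : 1 / kA y = -(2 * kh' y) := by
    unfold kA
    have : kh' y ≠ 0 := h.ne
    field_simp
  rw [h2]
  ring

/-- the scalar product of position and velocity -/
theorem qb1_σ {y : KS} (h : kh' y < 0) (h0 : y.1 ≠ 0) {s : ℝ} (hR : kR y s ≠ 0) :
    kσ (kY y s) =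
    (-((kr y - kA y) * Real.sin s) + Real.sqrt (kA y) * kσ y * Real.cos s) /
      Real.sqrt (kA y) := by
  have hr0 : kr y ≠ 0 := norm_ne_zero_iff.2 h0
  have hw0 := qb1_w0 h
  have hw := qb1_w h
  have h2 := Real.sin_sq_add_cos_sq s
  unfold kY
  rw [kσ]
  simp only []
  unfold kX kV
  rw [qb1_dot, norm_v_sq h]
  change _ * (_ * kr y ^ 2 + _ * kσ y + _) = _
  have e1 : (1 - kA y / kr y * (1 - Real.cos s)) * (-(kA y / kr y) * Real.sin s) * kr y ^ 2 +
      ((1 - kA y / kr y * (1 - Real.cos s)) *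
        (Real.sqrt (kA y) * kr y * Real.cos s + kA y * kσ y * Real.sin s) +
        (Real.sqrt (kA y) * kr y * Real.sin s + kA y * kσ y * (1 - Real.cos s)) *
        (-(kA y / kr y) * Real.sin s)) * kσ y +
      (Real.sqrt (kA y) * kr y * Real.sin s + kA y * kσ y * (1 - Real.cos s)) *
        (Real.sqrt (kA y) * kr y * Real.cos s + kA y * kσ y * Real.sin s) *
        (2 / kr y - 1 / kA y) =
      kR y s * (-((kr y - kA y) * Real.sin s) + Real.sqrt (kA y) * kσ y * Real.cos s) := by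
    unfold kR
    clear hR
    generalize Real.sqrt (kA y) = w at *
    generalize kr y = r at *
    generalize kσ y = q at *
    generalize Real.sin s = sn at *
    generalize Real.cos s = c at *
    rw [← hw]
    field_simp
    linear_combination (0 : ℝ) * h2
  rw [e1]
  field_simp

theorem qb1_EE {y : KS} (h : kh' y < 0) (h0 : y.1 ≠ 0) {s : ℝ} (hR : kR y s ≠ 0) :
    kE (kY y s) = kE y := by
  have hr0 : kr y ≠ 0 := norm_ne_zero_iff.2 h0
  have hw0 := qb1_w0 h
  have hw := qb1_w h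
  have h2 := Real.sin_sq_add_cos_sq s
  have h3 : kr (kY y s) = kR y s := norm_kX h h0 s
  have h01 : (kY y s).1 ≠ 0 := by
    intro h5
    apply hR
    rw [← h3, kr, h5, norm_zero]
  rw [qb1_E y h0, qb1_E (kY y s) h01, qb1_σ h h0 hR, norm_v_sq h]
  have h4 : ‖(kY y s).2‖ ^ 2 = 2 / kR y s - 1 / kA y := qb1_v h h0 hR
  rw [h3, h4]
  have c1 : (2 / kR y s - 1 / kA y - 1 / kR y s) * (1 - kA y / kr y * (1 - Real.cos s)) -
      (-((kr y - kA y) * Real.sin s) + Real.sqrt (kA y) * kσ y * Real.cos s) /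
      Real.sqrt (kA y) * ((Real.sqrt (kA y) * kR y s)⁻¹ * (-(kA y / kr y) * Real.sin s)) =
      2 / kr y - 1 / kA y - 1 / kr y := by
    have e : kR y s = kA y + (kr y - kA y) * Real.cos s + Real.sqrt (kA y) * kσ y * Real.sin s :=
      rfl
    clear h4 h3 h01
    generalize kR y s = R at *
    generalize Real.sqrt (kA y) = w at *
    generalize kr y = r at *
    generalize kσ y = q at *
    generalize Real.sin s = sn at *
    generalize Real.cos s = c at *
    rw [← hw] at e ⊢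
    field_simp
    rw [e]
    linear_combination (-(w ^ 2 * (r - w ^ 2))) * h2
  have c2 : (2 / kR y s - 1 / kA y - 1 / kR y s) *
      (Real.sqrt (kA y) * kr y * Real.sin s + kA y * kσ y * (1 - Real.cos s)) -
      (-((kr y - kA y) * Real.sin s) + Real.sqrt (kA y) * kσ y * Real.cos s) /
      Real.sqrt (kA y) * ((Real.sqrt (kA y) * kR y s)⁻¹ *
        (Real.sqrt (kA y) * kr y * Real.cos s + kA y * kσ y * Real.sin s)) = -kσ y := by
    have e : kR y s = kA y + (kr y - kA y) * Real.cos s + Real.sqrt (kA y) * kσ y * Real.sin s :=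
      rfl
    clear h4 h3 h01
    generalize kR y s = R at *
    generalize Real.sqrt (kA y) = w at *
    generalize kr y = r at *
    generalize kσ y = q at *
    generalize Real.sin s = sn at *
    generalize Real.cos s = c at *
    rw [← hw] at e ⊢
    field_simp
    rw [e]
    linear_combination (-(w ^ 3 * q)) * h2
  have c1' := congrArg (fun t : ℝ => (t : ℂ)) c1
  have c2' := congrArg (fun t : ℝ => (t : ℂ)) c2
  show ((2 / kR y s - 1 / kA y - 1 / kR y s : ℝ) : ℂ) * kX y s - _ * kV y s = _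
  unfold kX kV
  push_cast at c1' c2' ⊢
  linear_combination y.1 * c1' + y.2 * c2'

theorem kep_gen_pr {y : KS} (h : kh' y < 0) (h0 : y.1 ≠ 0) {s : ℝ} (hR : kR y s ≠ 0) :
    kh' (kY y s) = kh' y ∧ kL (kY y s) = kL y ∧ kE (kY y s) = kE y ∧
    HasDerivAt (kR y) (Real.sqrt (kA y) * kσ (kY y s)) s ∧
    HasDerivAt (kX y) ((Real.sqrt (kA y) * kR y s : ℝ) * kV y s) s := by
  have hw0 := qb1_w0 h
  refine ⟨qb1_h h h0 hR, qb1_L h h0 hR, qb1_EE h h0 hR, ?_, ?_⟩
  · have h1 : HasDerivAt (fun t => kA y + (kr y - kA y) * Real.cos t +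
        Real.sqrt (kA y) * kσ y * Real.sin t)
        ((kr y - kA y) * (-Real.sin s) + Real.sqrt (kA y) * kσ y * Real.cos s) s :=
      (((Real.hasDerivAt_cos s).const_mul (kr y - kA y)).const_add (kA y)).add
        ((Real.hasDerivAt_sin s).const_mul (Real.sqrt (kA y) * kσ y))
    have h2 : Real.sqrt (kA y) * kσ (kY y s) =
        (kr y - kA y) * (-Real.sin s) + Real.sqrt (kA y) * kσ y * Real.cos s := by
      rw [qb1_σ h h0 hR]
      field_simp
    rw [h2]
    exact h1
  · have hc : HasDerivAt (fun t : ℝ => 1 - Real.cos t) (Real.sin s) s := by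
      have := (Real.hasDerivAt_cos s).const_sub 1
      rwa [neg_neg] at this
    have ha : HasDerivAt (fun t : ℝ => 1 - kA y / kr y * (1 - Real.cos t))
        (-(kA y / kr y * Real.sin s)) s := (hc.const_mul (kA y / kr y)).const_sub 1
    have hb : HasDerivAt (fun t : ℝ => Real.sqrt (kA y) * kr y * Real.sin t +
        kA y * kσ y * (1 - Real.cos t))
        (Real.sqrt (kA y) * kr y * Real.cos s + kA y * kσ y * Real.sin s) s :=
      ((Real.hasDerivAt_sin s).const_mul (Real.sqrt (kA y) * kr y)).add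
        (hc.const_mul (kA y * kσ y))
    have h1 := ((ha.ofReal_comp).mul_const y.1).add ((hb.ofReal_comp).mul_const y.2)
    have h2 : ((Real.sqrt (kA y) * kR y s : ℝ) : ℂ) * kV y s =
        ((-(kA y / kr y * Real.sin s) : ℝ) : ℂ) * y.1 +
        ((Real.sqrt (kA y) * kr y * Real.cos s + kA y * kσ y * Real.sin s : ℝ) : ℂ) * y.2 := by
      unfold kV
      rw [← mul_assoc, ← Complex.ofReal_mul, mul_inv_cancel₀ (mul_ne_zero hw0 hR),
        Complex.ofReal_one, one_mul, neg_mul]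
    rw [h2]
    exact h1

/-- hodograph: direction of the position -/
theorem hodograph_pr {y : KS} (h : kh' y < 0) {r : ℝ} (hr : 0 < r) (hy : y.1 = (r : ℂ)) {s : ℝ}
    (hR : kR y s ≠ 0) :
    kX y s / (‖kX y s‖ : ℂ) = 1 - Complex.I * (kL y : ℂ) * (kV y s - y.2) := by
  have h0 : y.1 ≠ 0 := by
    rw [hy]
    exact_mod_cast hr.ne'
  obtain ⟨_, hL, hE, -, -⟩ := kep_gen_pr h h0 hR
  have h1 : y.1 / (‖y.1‖ : ℂ) = 1 := by
    rw [hy, Complex.norm_real, Real.norm_eq_abs, abs_of_pos hr]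
    exact div_self (by exact_mod_cast hr.ne')
  unfold kE at hE
  rw [hL, h1] at hE
  change -(Complex.I * (kL y : ℂ)) * kV y s - kX y s / (‖kX y s‖ : ℂ) = _ at hE
  linear_combination -hE

end

end Pool.Agent.HS

namespace Pool.Agent.HS
open Set Filter Topology
open scoped ContDiff

theorem kep_gen {y : KS} (h : kh' y < 0) (h0 : y.1 ≠ 0) {s : ℝ} (hR : kR y s ≠ 0) :
    kh' (kY y s) = kh' y ∧ kL (kY y s) = kL y ∧ kE (kY y s) = kE y ∧
    HasDerivAt (kR y) (Real.sqrt (kA y) * kσ (kY y s)) s ∧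
    HasDerivAt (kX y) ((Real.sqrt (kA y) * kR y s : ℝ) * kV y s) s :=
  @Pool.Agent.HS.kep_gen_pr y h h0 s hR

end Pool.Agent.HS

namespace Pool.Agent.HS
open Set Filter Topology
open scoped ContDiff

theorem hodograph {y : KS} (h : kh' y < 0) {r : ℝ} (hr : 0 < r) (hy : y.1 = (r : ℂ)) {s : ℝ}
    (hR : kR y s ≠ 0) :
    kX y s / (‖kX y s‖ : ℂ) = 1 - Complex.I * (kL y : ℂ) * (kV y s - y.2) :=
  @Pool.Agent.HS.hodograph_pr y h r hr hy s hR

end Pool.Agent.HS
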