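import Pool.Agent.Lib_helper60.HSF.D_WQ
import Pool.Agent.Lib_helper60.HSF.K_KA1
import Pool.Agent.Lib_helper60.HSF.Z_QB1
import Pool.Agent.Lib_helper60.HSF.Z_ZC

/-! # Project HS, block QB2: at a common point away from the sun, body 3 is not inbound -/

namespace Pool.Agent.HS

open Set Filter Topology

/-- polar decomposition of the velocity at `B` and the hodograph -/
theorem qb2_body {B v a : ℂ} {L h : ℝ} (hB : 0 < ‖B‖) (h1 : ‖v‖ ^ 2 / 2 - 1 / ‖B‖ = h)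
    (h2 : ((starRingEnd ℂ) B * v).im = L) (h3 : B / (‖B‖ : ℂ) = 1 - Complex.I * (L : ℂ) * (v - a)) :
    B.im / ‖B‖ = -(L * (v.re - a.re)) ∧ B.re / ‖B‖ = 1 + L * (v.im - a.im) ∧
    v.re = (((starRingEnd ℂ) B * v).re / ‖B‖) * (B.re / ‖B‖) - (L / ‖B‖) * (B.im / ‖B‖) ∧
    (((starRingEnd ℂ) B * v).re / ‖B‖) ^ 2 + (L / ‖B‖) ^ 2 = 2 * h + 2 / ‖B‖ := by
  have hsq : ‖B‖ ^ 2 = B.re ^ 2 + B.im ^ 2 := by
    rw [← Complex.normSq_eq_norm_sq, Complex.normSq_apply]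
    ring
  have hvq : ‖v‖ ^ 2 = v.re ^ 2 + v.im ^ 2 := by
    rw [← Complex.normSq_eq_norm_sq, Complex.normSq_apply]
    ring
  have e1 : ((starRingEnd ℂ) B * v).re = B.re * v.re + B.im * v.im := by
    simp [Complex.mul_re]
  have e2 : ((starRingEnd ℂ) B * v).im = B.re * v.im - B.im * v.re := by
    simp [Complex.mul_im]
    ring
  have hne : ‖B‖ ≠ 0 := hB.ne'
  have hq : B.re ^ 2 + B.im ^ 2 ≠ 0 := by
    rw [← hsq]
    positivity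
  rw [e2] at h2
  refine ⟨?_, ?_, ?_, ?_⟩
  · have h4 := congrArg Complex.im h3
    rw [Complex.div_ofReal_im] at h4
    rw [h4]
    simp [Complex.mul_re, Complex.mul_im]
  · have h4 := congrArg Complex.re h3
    rw [Complex.div_ofReal_re] at h4
    rw [h4]
    simp [Complex.mul_re, Complex.mul_im]
  · rw [e1, ← h2]
    have h5 : (B.re * v.re + B.im * v.im) / ‖B‖ * (B.re / ‖B‖) -
        (B.re * v.im - B.im * v.re) / ‖B‖ * (B.im / ‖B‖) =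
        v.re * (B.re ^ 2 + B.im ^ 2) / ‖B‖ ^ 2 := by
      field_simp
      ring
    rw [h5, hsq]
    field_simp
  · rw [e1, ← h1, ← h2]
    have h5 : ((B.re * v.re + B.im * v.im) / ‖B‖) ^ 2 + ((B.re * v.im - B.im * v.re) / ‖B‖) ^ 2 =
        (v.re ^ 2 + v.im ^ 2) * (B.re ^ 2 + B.im ^ 2) / ‖B‖ ^ 2 := by
      field_simp
      ring
    rw [h5, ← hsq, ← hvq]
    field_simp
    ring

/-- the scalar contradiction -/
theorem qb2_real {ρ ε c t L3 L2 V3 V2 v3 v2 a3 a2 : ℝ} (hρ : 0 < ρ) (hc : 0 ≤ c) (ht : |t| ≤ 1)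
    (hL0 : 0 < L3) (hL : L3 ≤ ε) (hL2 : |L2| ≤ L3) (hε : ε ≤ ρ / 8)
    (h3 : t = -(L3 * (v3 - a3))) (h2 : t = -(L2 * (v2 - a2)))
    (e3 : v3 = V3 * c - (L3 / ρ) * t) (e2 : v2 = V2 * c - (L2 / ρ) * t)
    (hV3 : V3 < 0) (hV : |V2| ≤ |V3|) (ha : 1 / 2 ≤ a3 - |a2|) : False := by
  have hq : L3 / ρ ≤ 1 / 8 := by
    rw [div_le_iff₀ hρ]
    linarith
  have hq0 : 0 < L3 / ρ := div_pos hL0 hρ
  have hq2 : |L2 / ρ| ≤ 1 / 8 := by
    rw [abs_div, abs_of_pos hρ, div_le_iff₀ hρ]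
    linarith
  have hp3 : |(L3 / ρ) * t| ≤ 1 / 8 := by
    rw [abs_mul, abs_of_pos hq0]
    calc (L3 / ρ) * |t| ≤ 1 / 8 * 1 := mul_le_mul hq ht (abs_nonneg _) (by norm_num)
      _ = 1 / 8 := by norm_num
  have hp2 : |(L2 / ρ) * t| ≤ 1 / 8 := by
    rw [abs_mul]
    calc |L2 / ρ| * |t| ≤ 1 / 8 * 1 := mul_le_mul hq2 ht (abs_nonneg _) (by norm_num)
      _ = 1 / 8 := by norm_num
  have hp3' := (abs_le.mp hp3).1
  -- left side
  have k3 : L3 * (|V3| * c - 1 / 8 + a3) ≤ t := by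
    have h4 : t = L3 * (|V3| * c + (L3 / ρ) * t + a3) := by
      rw [abs_of_neg hV3]
      have h5 := h3
      rw [e3] at h5
      linarith only [h5]
    rw [h4]
    refine mul_le_mul_of_nonneg_left ?_ hL0.le
    linarith only [hp3']
  -- right side
  have k2 : t ≤ L3 * (|V2| * c + 1 / 8 + |a2|) := by
    have h4 : t = L2 * (a2 - V2 * c + (L2 / ρ) * t) := by
      have h5 := h2
      rw [e2] at h5
      linarith only [h5]
    have h6 : |a2 - V2 * c + (L2 / ρ) * t| ≤ |V2| * c + 1 / 8 + |a2| := by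
      calc |a2 - V2 * c + (L2 / ρ) * t| ≤ |a2 - V2 * c| + |(L2 / ρ) * t| := abs_add_le _ _
        _ ≤ (|a2| + |V2 * c|) + |(L2 / ρ) * t| := by
            have := abs_sub a2 (V2 * c)
            linarith only [this]
        _ = |a2| + |V2| * c + |(L2 / ρ) * t| := by rw [abs_mul, abs_of_nonneg hc]
        _ ≤ _ := by linarith only [hp2]
    calc t ≤ |t| := le_abs_self t
      _ = |L2| * |a2 - V2 * c + (L2 / ρ) * t| := by
          conv_lhs => rw [h4]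
          rw [abs_mul]
      _ ≤ L3 * (|V2| * c + 1 / 8 + |a2|) := mul_le_mul hL2 h6 (abs_nonneg _) hL0.le
  have k4 : |V3| * c - 1 / 8 + a3 ≤ |V2| * c + 1 / 8 + |a2| :=
    le_of_mul_le_mul_left (k3.trans k2) hL0
  have k5 : |V2| * c ≤ |V3| * c := mul_le_mul_of_nonneg_right hV hc
  linarith only [k4, k5, ha]

theorem ang_free_pr (ρ1 : ℝ) (hρ : 0 < ρ1) : ∃ ε : ℝ, 0 < ε ∧ ∀ (y3 y2 : KS) (s s' r : ℝ),
    kh' y3 < 0 → kh' y2 < 0 → 1 ≤ r → r ≤ 2 → y3.1 = (r : ℂ) → y2.1 = (r : ℂ) →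
    d0 / 2 ≤ kh' y3 - kh' y2 → 0 < kL y3 → kL y3 ≤ ε → |kL y2| ≤ kL y3 →
    1 / 2 ≤ y3.2.re - |y2.2.re| → kX y3 s = kX y2 s' → ρ1 ≤ ‖kX y3 s‖ →
    0 ≤ kσ (kY y3 s) := by
  have hd0 : 1 / 4 < d0 := by
    have := z_bounds.1
    linarith
  have hM : 0 < 2 * (5 + 2 / ρ1) := by positivity
  refine ⟨min (1 / (2 * (5 + 2 / ρ1))) (ρ1 / 8), by positivity, ?_⟩
  intro y3 y2 s s' r h3 h2 hr1 hr2 e3 e2 hd hL0 hL hL2 hv hX hB
  by_contra hneg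
  push Not at hneg
  have hr0 : 0 < r := by linarith
  have hy3 : y3.1 ≠ 0 := by
    rw [e3]
    exact_mod_cast hr0.ne'
  have hy2 : y2.1 ≠ 0 := by
    rw [e2]
    exact_mod_cast hr0.ne'
  have hBpos : 0 < ‖kX y3 s‖ := lt_of_lt_of_le hρ hB
  have hR3 : kR y3 s ≠ 0 := by
    rw [← norm_kX h3 hy3 s]
    exact hBpos.ne'
  have hR2 : kR y2 s' ≠ 0 := by
    rw [← norm_kX h2 hy2 s', ← hX]
    exact hBpos.ne'
  obtain ⟨a3, b3, -⟩ := kep_gen h3 hy3 hR3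
  obtain ⟨a2, b2, -⟩ := kep_gen h2 hy2 hR2
  have g3 := hodograph h3 hr0 e3 hR3
  have g2 := hodograph h2 hr0 e2 hR2
  have a3' : ‖kV y3 s‖ ^ 2 / 2 - 1 / ‖kX y3 s‖ = kh' y3 := a3
  have b3' : ((starRingEnd ℂ) (kX y3 s) * kV y3 s).im = kL y3 := b3
  have a2' : ‖kV y2 s'‖ ^ 2 / 2 - 1 / ‖kX y2 s'‖ = kh' y2 := a2
  have b2' : ((starRingEnd ℂ) (kX y2 s') * kV y2 s').im = kL y2 := b2
  rw [← hX] at a2' b2' g2
  obtain ⟨t3, c3, v3, w3⟩ := qb2_body hBpos a3' b3' g3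
  obtain ⟨t2, c2, v2, w2⟩ := qb2_body hBpos a2' b2' g2
  have hLa : kL y3 ≤ 1 / (2 * (5 + 2 / ρ1)) := hL.trans (min_le_left _ _)
  have hLb : kL y3 ≤ ρ1 / 8 := hL.trans (min_le_right _ _)
  have hinv : 1 / ‖kX y3 s‖ ≤ 1 / ρ1 := one_div_le_one_div_of_le hρ hB
  -- the velocities are bounded
  have n3 : |(kV y3 s).im| ≤ 1 + 2 / ρ1 := by
    have h5 := Complex.abs_im_le_norm (kV y3 s)
    have h6 : ‖kV y3 s‖ ^ 2 ≤ 2 / ρ1 := by
      have h7 : 2 / ρ1 = 2 * (1 / ρ1) := by ring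
      rw [h7]
      linarith only [a3', h3, hinv]
    nlinarith only [h5, h6, sq_nonneg (‖kV y3 s‖ - 1)]
  have m3 : |y3.2.im| ≤ 3 := by
    have h5 := Complex.abs_im_le_norm y3.2
    have h6 : ‖y3.2‖ ^ 2 ≤ 2 := by
      unfold kh' at h3
      have h7 : ‖y3.1‖ = r := by
        rw [e3, Complex.norm_real, Real.norm_eq_abs, abs_of_pos hr0]
      rw [h7] at h3
      have h8 : 1 / r ≤ 1 := by
        rw [div_le_one hr0]
        exact hr1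
      linarith only [h3, h8]
    nlinarith only [h5, h6, sq_nonneg (‖y3.2‖ - 1)]
  have hc : 0 ≤ (kX y3 s).re / ‖kX y3 s‖ := by
    rw [c3]
    have h5 : |kL y3 * ((kV y3 s).im - y3.2.im)| ≤ 1 := by
      rw [abs_mul, abs_of_pos hL0]
      have h6 : |(kV y3 s).im - y3.2.im| ≤ 2 * (5 + 2 / ρ1) := by
        have h7 := abs_sub (kV y3 s).im y3.2.im
        have h8 : 0 < 2 / ρ1 := by positivity
        linarith only [h7, n3, m3, h8]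
      calc kL y3 * |(kV y3 s).im - y3.2.im| ≤ 1 / (2 * (5 + 2 / ρ1)) * (2 * (5 + 2 / ρ1)) :=
            mul_le_mul hLa h6 (abs_nonneg _) (by positivity)
        _ = 1 := by rw [one_div, inv_mul_cancel₀ hM.ne']
    have := (abs_le.mp h5).1
    linarith only [this]
  have ht : |(kX y3 s).im / ‖kX y3 s‖| ≤ 1 := by
    rw [abs_div, abs_of_pos hBpos, div_le_one hBpos]
    exact Complex.abs_im_le_norm _
  have hVneg : ((starRingEnd ℂ) (kX y3 s) * kV y3 s).re / ‖kX y3 s‖ < 0 :=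
    div_neg_of_neg_of_pos hneg hBpos
  have hVle : |((starRingEnd ℂ) (kX y3 s) * kV y2 s').re / ‖kX y3 s‖| ≤
      |((starRingEnd ℂ) (kX y3 s) * kV y3 s).re / ‖kX y3 s‖| := by
    rw [← sq_le_sq]
    have h5 : kL y3 / ‖kX y3 s‖ ≤ 1 / 8 := by
      rw [div_le_iff₀ hBpos]
      linarith only [hLb, hB]
    have h6 : 0 < kL y3 / ‖kX y3 s‖ := div_pos hL0 hBpos
    have h7 : (kL y3 / ‖kX y3 s‖) ^ 2 ≤ (1 / 8) ^ 2 := pow_le_pow_left₀ h6.le h5 2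
    have h8 := sq_nonneg (kL y2 / ‖kX y3 s‖)
    have h9 : (1 / 8 : ℝ) ^ 2 = 1 / 64 := by norm_num
    rw [h9] at h7
    linarith only [w3, w2, h7, h8, hd, hd0]
  exact qb2_real hBpos hc ht hL0 hLb hL2 (by linarith only [hB]) t3 t2 v3 v2 hVneg hVle hv

end Pool.Agent.HS

namespace Pool.Agent.HS
open Set Filter Topology
open scoped ContDiff

theorem ang_free (ρ1 : ℝ) (hρ : 0 < ρ1) : ∃ ε : ℝ, 0 < ε ∧ ∀ (y3 y2 : KS) (s s' r : ℝ),
    kh' y3 < 0 → kh' y2 < 0 → 1 ≤ r → r ≤ 2 → y3.1 = (r : ℂ) → y2.1 = (r : ℂ) →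
    d0 / 2 ≤ kh' y3 - kh' y2 → 0 < kL y3 → kL y3 ≤ ε → |kL y2| ≤ kL y3 →
    1 / 2 ≤ y3.2.re - |y2.2.re| → kX y3 s = kX y2 s' → ρ1 ≤ ‖kX y3 s‖ →
    0 ≤ kσ (kY y3 s) :=
  @Pool.Agent.HS.ang_free_pr ρ1 hρ

end Pool.Agent.HS
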