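import Pool.Agent.Lib_helper60.HSF.D_DefsQ

/-!
# Project HS, part Q, block QB3: radial motions of the limit
-/

namespace Pool.Agent.HS

noncomputable section

open Set Filter Topology
open scoped ContDiff

/-! ### constants -/

private theorem qb3_c : ∃ c : ℝ, 1 / 2 < c ∧ c ^ 3 = 1 / 2 ∧ h20 = -c := by
  refine ⟨(2:ℝ) ^ (-(1/3) : ℝ), ?_, ?_, rfl⟩
  · have h1 : (2:ℝ) ^ (-1 : ℝ) < (2:ℝ) ^ (-(1/3) : ℝ) :=
      Real.rpow_lt_rpow_of_exponent_lt (by norm_num) (by norm_num)
    rw [Real.rpow_neg_one] at h1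
    linarith
  · rw [← Real.rpow_natCast, ← Real.rpow_mul (by norm_num)]
    norm_num

private theorem qb3_d0 : 0 < d0 := by
  obtain ⟨c, h1, -, h3⟩ := qb3_c
  unfold d0 h30
  linarith

private theorem qb3_kh : 0 < kh ∧ kh ^ 2 = 4 * d0 := by
  have h := qb3_d0
  unfold kh
  exact ⟨Real.sqrt_pos.2 (by linarith), Real.sq_sqrt (by linarith)⟩

private theorem qb3_rh : 0 < rh ∧ rh * (9 / 8 * d0 + 1 / 2) = 1 := by
  have h := qb3_d0
  have h1 : mb ^ 2 * kh ^ 2 / 2 - h30 = 9 / 8 * d0 + 1 / 2 := by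
    rw [qb3_kh.2]
    unfold mb h30
    ring
  unfold rh
  rw [h1]
  have h2 : 0 < 9 / 8 * d0 + 1 / 2 := by linarith
  exact ⟨inv_pos.2 h2, inv_mul_cancel₀ h2.ne'⟩

private theorem qb3_h3 : kh' y30 = -1 / 2 := by
  have h := qb3_rh
  have hk := qb3_kh
  unfold kh' y30
  simp only [Complex.norm_real, Real.norm_eq_abs, sq_abs, abs_of_pos h.1]
  have h1 : 1 / rh = 9 / 8 * d0 + 1 / 2 := by
    rw [div_eq_iff h.1.ne', mul_comm]
    exact h.2.symm
  rw [h1, mul_pow, hk.2]
  unfold mb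
  ring

private theorem qb3_h2 : kh' y20 = -(d0 + 1 / 2) := by
  have h := qb3_rh
  have hk := qb3_kh
  unfold kh' y20
  simp only [Complex.norm_real, Real.norm_eq_abs, sq_abs, abs_of_pos h.1, abs_neg]
  have h1 : 1 / rh = 9 / 8 * d0 + 1 / 2 := by
    rw [div_eq_iff h.1.ne', mul_comm]
    exact h.2.symm
  rw [h1, mul_pow, hk.2]
  unfold ma
  ring

/-- `√A₂`, `A₂ = 1 / (2 d0 + 1)` -/
private theorem qb3_a : ∃ a : ℝ, 0 < a ∧ a < 1 ∧ a ^ 3 = 1 / 2 ∧ a ^ 2 * (2 * d0 + 1) = 1 ∧
    kA y20 = a ^ 2 ∧ Real.sqrt (kA y20) = a := by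
  obtain ⟨c, h1, h2, h3⟩ := qb3_c
  have hd := qb3_d0
  have hdc : d0 = c - 1 / 2 := by
    unfold d0 h30
    rw [h3]
    ring
  have hc : 0 < c := by linarith
  have hA : kA y20 = 1 / (2 * c) := by
    unfold kA
    rw [qb3_h2, hdc]
    have : c ≠ 0 := hc.ne'
    field_simp
    ring
  have hAp : 0 < 1 / (2 * c) := by positivity
  refine ⟨Real.sqrt (1 / (2 * c)), Real.sqrt_pos.2 hAp, ?_, ?_, ?_, ?_, ?_⟩
  · rw [Real.sqrt_lt' one_pos, one_pow, div_lt_one (by positivity)]
    linarith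
  · have h5 : (Real.sqrt (1 / (2 * c)) ^ 3) ^ 2 = (1 / 2) ^ 2 := by
      rw [← pow_mul, show 3 * 2 = 2 * 3 by norm_num, pow_mul, Real.sq_sqrt hAp.le]
      have : (1 / (2 * c)) ^ 3 = 1 / (8 * c ^ 3) := by
        rw [div_pow, mul_pow]
        norm_num
      rw [this, h2]
      norm_num
    exact (pow_left_inj₀ (by positivity) (by norm_num) (by norm_num)).1 h5
  · rw [Real.sq_sqrt hAp.le, hdc]
    have : c ≠ 0 := hc.ne'
    field_simp
    ring
  · rw [hA, Real.sq_sqrt hAp.le]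
  · rw [hA]

/-! ### the two radial motions -/

private theorem qb3_body3 : ∃ E : ℝ, 0 < E ∧ E < Real.pi ∧ rh = 1 - Real.cos E ∧
    (∀ s, kR y30 s = 1 - Real.cos (E + s)) ∧
    ∀ s, kT y30 s = (E + s - Real.sin (E + s)) - (E - Real.sin E) := by
  have hr := qb3_rh
  have hk := qb3_kh
  have hd := qb3_d0
  have hA : kA y30 = 1 := by
    unfold kA
    rw [qb3_h3]
    norm_num
  have hkr : kr y30 = rh := by
    unfold kr y30
    simp only [Complex.norm_real, Real.norm_eq_abs, abs_of_pos hr.1]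
  have hσ : kσ y30 = rh * (mb * kh) := by
    unfold kσ y30
    simp only [Complex.conj_ofReal, ← Complex.ofReal_mul, Complex.ofReal_re]
  have hm : (0:ℝ) < mb := by unfold mb; norm_num
  have hpos : 0 < rh * (mb * kh) := mul_pos hr.1 (mul_pos hm hk.1)
  have hid : (rh - 1) ^ 2 + (rh * (mb * kh)) ^ 2 = 1 := by
    have h1 : (rh * (mb * kh)) ^ 2 = rh ^ 2 * (9 / 16 * (4 * d0)) := by
      rw [mul_pow, mul_pow, hk.2]
      unfold mb
      ring
    rw [h1]
    have h2 := hr.2
    linear_combination (2 * rh) * h2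
  have hlt : -1 < 1 - rh ∧ 1 - rh < 1 := by
    constructor
    · nlinarith [sq_nonneg (rh - 2)]
    · linarith [hr.1]
  have hcos : Real.cos (Real.arccos (1 - rh)) = 1 - rh :=
    Real.cos_arccos hlt.1.le hlt.2.le
  have hsin : Real.sin (Real.arccos (1 - rh)) = rh * (mb * kh) := by
    rw [Real.sin_arccos]
    rw [Real.sqrt_eq_iff_mul_self_eq (by nlinarith) hpos.le]
    nlinarith
  refine ⟨Real.arccos (1 - rh), ?_, ?_, by rw [hcos]; ring, fun s => ?_, fun s => ?_⟩
  · exact Real.arccos_pos.2 hlt.2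
  · refine lt_of_le_of_ne (Real.arccos_le_pi _) fun h => ?_
    rw [Real.arccos_eq_pi] at h
    linarith [hlt.1]
  · unfold kR
    rw [hA, hkr, hσ, Real.sqrt_one, Real.cos_add, hcos, hsin]
    ring
  · unfold kT
    rw [hA, hkr, hσ, Real.sqrt_one, Real.sin_add, hcos, hsin]
    ring

private theorem qb3_body2 {a : ℝ} (ha : 0 < a) (ha3 : a ^ 3 = 1 / 2)
    (had : a ^ 2 * (2 * d0 + 1) = 1) (hA : kA y20 = a ^ 2) (hs : Real.sqrt (kA y20) = a) :
    ∃ e : ℝ, 0 < e ∧ e < Real.pi ∧ rh = a ^ 2 * (1 - Real.cos e) ∧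
    (∀ s, kR y20 s = a ^ 2 * (1 - Real.cos (s - e))) ∧
    ∀ s, kT y20 s = 1 / 2 * ((s - e - Real.sin (s - e)) + (e - Real.sin e)) := by
  have hr := qb3_rh
  have hk := qb3_kh
  have hd := qb3_d0
  have hkr : kr y20 = rh := by
    unfold kr y20
    simp only [Complex.norm_real, Real.norm_eq_abs, abs_of_pos hr.1]
  have hσ : kσ y20 = -(rh * (ma * kh)) := by
    unfold kσ y20
    simp only [Complex.conj_ofReal, ← Complex.ofReal_mul, Complex.ofReal_re]
    ring
  have hm : (0:ℝ) < ma := by unfold ma; norm_num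
  have hpos : 0 < rh * (ma * kh) := mul_pos hr.1 (mul_pos hm hk.1)
  have ha2 : 0 < a ^ 2 := by positivity
  have hid : (rh - a ^ 2) ^ 2 + (a * (rh * (ma * kh))) ^ 2 = (a ^ 2) ^ 2 := by
    have h1 : (a * (rh * (ma * kh))) ^ 2 = a ^ 2 * (rh ^ 2 * (1 / 16 * (4 * d0))) := by
      rw [mul_pow, mul_pow, mul_pow, hk.2]
      unfold ma
      ring
    rw [h1]
    have h2 := hr.2
    linear_combination (2 * rh * a ^ 2) * h2 - rh ^ 2 * had
  have hap : 0 < a * (rh * (ma * kh)) := mul_pos ha hpos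
  set x : ℝ := 1 - rh / a ^ 2 with hx
  have hxr : a ^ 2 * x = a ^ 2 - rh := by
    rw [hx]
    field_simp
  have hlt : -1 < x ∧ x < 1 := by
    have h1 : (a ^ 2 - rh) ^ 2 < (a ^ 2) ^ 2 := by nlinarith
    have h2 := abs_lt_of_sq_lt_sq h1 ha2.le
    rw [abs_lt, ← hxr] at h2
    constructor
    · nlinarith [h2.1]
    · nlinarith [h2.2]
  have hcos : Real.cos (Real.arccos x) = x := Real.cos_arccos hlt.1.le hlt.2.le
  have hsin : a ^ 2 * Real.sin (Real.arccos x) = a * (rh * (ma * kh)) := by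
    have h1 : 0 ≤ Real.sin (Real.arccos x) :=
      Real.sin_nonneg_of_nonneg_of_le_pi (Real.arccos_nonneg _) (Real.arccos_le_pi _)
    have h2 : Real.sin (Real.arccos x) ^ 2 = 1 - x ^ 2 := by
      rw [Real.sin_sq, hcos]
    have h3 : (a ^ 2 * Real.sin (Real.arccos x)) ^ 2 = (a * (rh * (ma * kh))) ^ 2 := by
      rw [mul_pow, h2]
      have : (a ^ 2) ^ 2 * (1 - x ^ 2) = (a ^ 2) ^ 2 - (a ^ 2 * x) ^ 2 := by ring
      rw [this, hxr]
      linear_combination -hid
    exact (pow_left_inj₀ (by positivity) hap.le (by norm_num)).1 h3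
  have hrx : rh = a ^ 2 * (1 - x) := by linarith
  refine ⟨Real.arccos x, Real.arccos_pos.2 hlt.2, ?_, by rw [hcos]; exact hrx,
    fun s => ?_, fun s => ?_⟩
  · refine lt_of_le_of_ne (Real.arccos_le_pi _) fun h => ?_
    rw [Real.arccos_eq_pi] at h
    linarith [hlt.1]
  · unfold kR
    rw [hs, hA, hkr, hσ, Real.cos_sub, hcos]
    linear_combination (Real.sin s) * hsin + (Real.cos s) * hrx
  · unfold kT
    rw [hs, hA, hkr, hσ, Real.sin_sub, hcos]
    have h4 : a * (rh * (ma * kh)) = a ^ 2 * Real.sin (Real.arccos x) := hsin.symm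
    linear_combination (-a * (1 - Real.cos s)) * h4 + (a * Real.sin s) * hrx +
      (s - x * Real.sin s - (1 - Real.cos s) * Real.sin (Real.arccos x)) * ha3

/-! ### the time from the sun -/

/-- `P (sin (ψ / 2)) = ψ - sin ψ` -/
private def qb3P (x : ℝ) : ℝ := 2 * Real.arcsin x - 2 * x * Real.sqrt (1 - x ^ 2)

private theorem qb3P_eq {x : ℝ} (h1 : -1 ≤ x) (h2 : x ≤ 1) :
    qb3P x = 2 * Real.arcsin x - Real.sin (2 * Real.arcsin x) := by
  unfold qb3P
  rw [Real.sin_two_mul, Real.sin_arcsin h1 h2, Real.cos_arcsin]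

private theorem qb3P_deriv {x : ℝ} (h1 : -1 < x) (h2 : x < 1) :
    HasDerivAt qb3P (4 * x ^ 2 / Real.sqrt (1 - x ^ 2)) x := by
  have h3 : 0 < 1 - x ^ 2 := by nlinarith
  have h4 := Real.hasDerivAt_arcsin h1.ne' h2.ne
  have h5 : HasDerivAt (fun x : ℝ => 1 - x ^ 2) (-(2 * x)) x := by
    simpa using (hasDerivAt_pow 2 x).const_sub 1
  have h6 := h5.sqrt h3.ne'
  have h7 := (h4.const_mul 2).sub (((hasDerivAt_id x).const_mul 2).mul h6)
  have h8 : Real.sqrt (1 - x ^ 2) ≠ 0 := (Real.sqrt_pos.2 h3).ne'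
  have h9 : Real.sqrt (1 - x ^ 2) ^ 2 = 1 - x ^ 2 := Real.sq_sqrt h3.le
  refine h7.congr_deriv ?_
  simp only [id, mul_one]
  field_simp
  rw [h9]
  ring

private theorem qb3_mono {a : ℝ} (ha : 0 < a) (ha1 : a < 1) (ha3 : a ^ 3 = 1 / 2) :
    MonotoneOn (fun x => 1 / 2 * qb3P x - qb3P (a * x)) (Icc 0 1) := by
  have hc : Continuous qb3P := by
    unfold qb3P
    fun_prop
  refine monotoneOn_of_deriv_nonneg (convex_Icc 0 1) (by fun_prop) ?_ ?_
  · intro x hx
    rw [interior_Icc] at hx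
    have h1 := qb3P_deriv (x := x) (by linarith [hx.1]) hx.2
    have h2 := qb3P_deriv (x := a * x) (by nlinarith [hx.1, hx.2]) (by nlinarith [hx.1, hx.2])
    have h3 : HasDerivAt (fun x => a * x) a x := by simpa using (hasDerivAt_id x).const_mul a
    exact ((h1.const_mul (1 / 2)).sub (h2.comp x h3)).differentiableAt.differentiableWithinAt
  · intro x hx
    rw [interior_Icc] at hx
    have h1 := qb3P_deriv (x := x) (by linarith [hx.1]) hx.2
    have h2 := qb3P_deriv (x := a * x) (by nlinarith [hx.1, hx.2]) (by nlinarith [hx.1, hx.2])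
    have h3 : HasDerivAt (fun x => a * x) a x := by simpa using (hasDerivAt_id x).const_mul a
    have h4 := ((h1.const_mul (1 / 2)).sub (h2.comp x h3)).deriv
    have h5 : deriv (fun x => 1 / 2 * qb3P x - qb3P (a * x)) x =
        1 / 2 * (4 * x ^ 2 / Real.sqrt (1 - x ^ 2)) -
          4 * (a * x) ^ 2 / Real.sqrt (1 - (a * x) ^ 2) * a := h4
    rw [h5]
    have h6 : 0 < 1 - x ^ 2 := by nlinarith [hx.1, hx.2]
    have h7 : 1 - x ^ 2 ≤ 1 - (a * x) ^ 2 := by
      have : (a * x) ^ 2 ≤ x ^ 2 := by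
        have : a ^ 2 ≤ 1 := by nlinarith
        nlinarith [sq_nonneg x]
      linarith
    have h8 : 4 * (a * x) ^ 2 / Real.sqrt (1 - (a * x) ^ 2) * a =
        2 * x ^ 2 / Real.sqrt (1 - (a * x) ^ 2) := by
      have : 4 * (a * x) ^ 2 * a = 2 * x ^ 2 := by linear_combination (4 * x ^ 2) * ha3
      rw [div_mul_eq_mul_div, this]
    have h9 : 1 / 2 * (4 * x ^ 2 / Real.sqrt (1 - x ^ 2)) = 2 * x ^ 2 / Real.sqrt (1 - x ^ 2) := by
      ring
    rw [h8, h9, sub_nonneg]
    apply div_le_div_of_nonneg_left (by positivity) (Real.sqrt_pos.2 h6)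
    exact Real.sqrt_le_sqrt h7

/-- `g (E) = E - sin E` is increasing -/
private theorem qb3_g {x y : ℝ} (h : x ≤ y) : x - Real.sin x ≤ y - Real.sin y := by
  have h1 : Monotone fun x : ℝ => x - Real.sin x := by
    apply monotone_of_deriv_nonneg (by fun_prop)
    intro z
    have h2 : HasDerivAt (fun x : ℝ => x - Real.sin x) (1 - Real.cos z) z :=
      (hasDerivAt_id z).sub (Real.hasDerivAt_sin z)
    rw [h2.deriv]
    linarith [Real.cos_le_one z]
  exact h1 h

private theorem qb3_half (x : ℝ) : 1 - Real.cos x = 2 * Real.sin (x / 2) ^ 2 := by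
  have h := Real.cos_two_mul (x / 2)
  rw [show 2 * (x / 2) = x by ring] at h
  have h2 := Real.sin_sq_add_cos_sq (x / 2)
  linarith

/-- the main argument: no coincidence while body 3 is outbound -/
private theorem qb3_main {a E e ψ φ : ℝ} (ha : 0 < a) (ha1 : a < 1) (ha3 : a ^ 3 = 1 / 2)
    (hE : 0 < E) (hE1 : E < Real.pi) (he : 0 < e) (he1 : e < Real.pi)
    (hr : 1 - Real.cos E = a ^ 2 * (1 - Real.cos e)) (hψ : E < ψ) (hψ1 : ψ < E + 2 * Real.pi)
    (hφ : -e ≤ φ) (hφ1 : φ ≤ 4 * Real.pi - e)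
    (hR : 1 - Real.cos ψ = a ^ 2 * (1 - Real.cos φ))
    (hT : (ψ - Real.sin ψ) - (E - Real.sin E) =
      1 / 2 * ((φ - Real.sin φ) + (e - Real.sin e))) : Real.sin ψ < 0 := by
  have hpi := Real.pi_pos
  have hmono := qb3_mono ha ha1 ha3
  have ha2 : 0 < a ^ 2 := by positivity
  -- values of `P`
  have hP : ∀ x : ℝ, 0 ≤ x → x ≤ Real.pi → qb3P (Real.sin (x / 2)) = x - Real.sin x := by
    intro x h1 h2
    rw [qb3P_eq (Real.neg_one_le_sin _) (Real.sin_le_one _), Real.arcsin_sin (by linarith)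
      (by linarith)]
    rw [show 2 * (x / 2) = x by ring]
  have hz0 : 0 ≤ |Real.sin (φ / 2)| := abs_nonneg _
  have hz1 : |Real.sin (φ / 2)| ≤ 1 := Real.abs_sin_le_one _
  -- `a z = sin (ψ' / 2)`
  have haz : ∀ x : ℝ, 0 ≤ x → x ≤ Real.pi → 1 - Real.cos x = a ^ 2 * (1 - Real.cos φ) →
      a * |Real.sin (φ / 2)| = Real.sin (x / 2) := by
    intro x h1 h2 h3
    rw [qb3_half, qb3_half] at h3
    have h4 : 0 ≤ Real.sin (x / 2) :=
      Real.sin_nonneg_of_nonneg_of_le_pi (by linarith) (by linarith)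
    have h5 : (a * |Real.sin (φ / 2)|) ^ 2 = Real.sin (x / 2) ^ 2 := by
      rw [mul_pow, sq_abs]
      linarith
    exact (pow_left_inj₀ (by positivity) h4 (by norm_num)).1 h5
  have hge : 0 < e - Real.sin e := by linarith [Real.sin_lt he]
  have hgE : 0 < E - Real.sin E := by linarith [Real.sin_lt hE]
  by_contra hcon
  push Not at hcon
  rcases le_or_gt ψ Real.pi with h | h
  · -- outbound before the aphelion
    have h1 : Real.cos ψ < Real.cos E :=
      Real.strictAntiOn_cos ⟨hE.le, hE1.le⟩ ⟨by linarith, h⟩ hψ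
    have h2 : Real.cos φ < Real.cos e := by
      have : a ^ 2 * (1 - Real.cos e) < a ^ 2 * (1 - Real.cos φ) := by
        rw [← hr, ← hR]
        linarith
      have := lt_of_mul_lt_mul_left this ha2.le
      linarith
    have h3 : 0 ≤ φ := by
      by_contra hneg
      push Not at hneg
      have h4 : Real.cos e ≤ Real.cos (-φ) :=
        Real.cos_le_cos_of_nonneg_of_le_pi (by linarith) he1.le (by linarith)
      rw [Real.cos_neg] at h4
      linarith
    have h4 : 2 * Real.arcsin |Real.sin (φ / 2)| ≤ φ := by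
      rcases le_or_gt φ Real.pi with h5 | h5
      · rw [abs_of_nonneg (Real.sin_nonneg_of_nonneg_of_le_pi (by linarith) (by linarith)),
          Real.arcsin_sin (by linarith) (by linarith)]
        linarith
      · linarith [Real.arcsin_le_pi_div_two |Real.sin (φ / 2)|]
    have h5 := qb3_g h4
    rw [← qb3P_eq (by linarith) hz1] at h5
    have h6 := hmono ⟨le_rfl, zero_le_one⟩ ⟨hz0, hz1⟩ hz0
    simp only [mul_zero] at h6
    have h7 : qb3P 0 = 0 := by simp [qb3P]
    rw [h7, haz ψ (by linarith) h hR, hP ψ (by linarith) h] at h6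
    linarith
  · -- outbound after the sun
    have h0 : 2 * Real.pi ≤ ψ := by
      by_contra hneg
      push Not at hneg
      have : Real.sin (ψ - Real.pi) > 0 :=
        Real.sin_pos_of_pos_of_lt_pi (by linarith) (by linarith)
      rw [Real.sin_sub_pi] at this
      linarith
    set ψ' : ℝ := ψ - 2 * Real.pi with hψ'
    set φ' : ℝ := 4 * Real.pi - φ with hφ'
    have c1 : Real.cos ψ = Real.cos ψ' := by rw [hψ', Real.cos_sub_two_pi]
    have c2 : Real.sin ψ = Real.sin ψ' := by rw [hψ', Real.sin_sub_two_pi]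
    have c3 : Real.cos φ = Real.cos φ' := by
      rw [hφ', show 4 * Real.pi - φ = -(φ - 2 * Real.pi - 2 * Real.pi) by ring, Real.cos_neg,
        Real.cos_sub_two_pi, Real.cos_sub_two_pi]
    have c4 : Real.sin φ = -Real.sin φ' := by
      rw [hφ', show 4 * Real.pi - φ = -(φ - 2 * Real.pi - 2 * Real.pi) by ring, Real.sin_neg,
        Real.sin_sub_two_pi, Real.sin_sub_two_pi]
      ring
    have c5 : |Real.sin (φ / 2)| = |Real.sin (φ' / 2)| := by
      rw [hφ', show (4 * Real.pi - φ) / 2 = -(φ / 2 - 2 * Real.pi) by ring, Real.sin_neg,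
        Real.sin_sub_two_pi, abs_neg]
    have h1 : Real.cos E < Real.cos ψ' :=
      Real.strictAntiOn_cos ⟨by linarith, by linarith⟩ ⟨hE.le, hE1.le⟩ (by linarith)
    have h2 : Real.cos e < Real.cos φ' := by
      have : a ^ 2 * (1 - Real.cos φ') < a ^ 2 * (1 - Real.cos e) := by
        rw [← hr, ← c3, ← hR, c1]
        linarith
      have := lt_of_mul_lt_mul_left this ha2.le
      linarith
    have h3 : 2 * Real.pi - e < φ' := by
      by_contra hneg
      push Not at hneg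
      have h4 : e ≤ φ' := by linarith
      rcases le_or_gt φ' Real.pi with h5 | h5
      · have h6 := Real.cos_le_cos_of_nonneg_of_le_pi he.le h5 h4
        linarith
      · have h6 : Real.cos (2 * Real.pi - φ') ≤ Real.cos e :=
          Real.cos_le_cos_of_nonneg_of_le_pi he.le (by linarith) (by linarith)
        rw [Real.cos_two_pi_sub] at h6
        linarith
    have h4 : 2 * Real.pi - 2 * Real.arcsin |Real.sin (φ / 2)| ≤ φ' := by
      rw [c5]
      rcases le_or_gt φ' (2 * Real.pi) with h5 | h5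
      · rw [abs_of_nonneg (Real.sin_nonneg_of_nonneg_of_le_pi (by linarith) (by linarith)),
          ← Real.sin_pi_sub, Real.arcsin_sin (by linarith) (by linarith)]
        linarith
      · have : 0 ≤ Real.arcsin |Real.sin (φ' / 2)| := Real.arcsin_nonneg.2 (abs_nonneg _)
        linarith
    have h5 := qb3_g h4
    rw [Real.sin_two_pi_sub] at h5
    have h6 := qb3P_eq (x := |Real.sin (φ / 2)|) (by linarith) hz1
    -- `z ≤ y = sin (e / 2)`
    have h7 : |Real.sin (φ / 2)| ≤ Real.sin (e / 2) := by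
      have h8 : 0 ≤ Real.sin (e / 2) :=
        Real.sin_nonneg_of_nonneg_of_le_pi (by linarith) (by linarith)
      apply abs_le_of_sq_le_sq _ h8
      have h9 := qb3_half e
      have h10 := qb3_half φ
      rw [c3] at h10
      linarith
    have h8 := hmono ⟨hz0, hz1⟩ ⟨hz0.trans h7, Real.sin_le_one _⟩ h7
    have h9 : a * Real.sin (e / 2) = Real.sin (E / 2) := by
      have h10 : 0 ≤ Real.sin (e / 2) := hz0.trans h7
      have h11 : 0 ≤ Real.sin (E / 2) :=
        Real.sin_nonneg_of_nonneg_of_le_pi (by linarith) (by linarith)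
      have h12 : (a * Real.sin (e / 2)) ^ 2 = Real.sin (E / 2) ^ 2 := by
        rw [mul_pow]
        have := hr
        rw [qb3_half, qb3_half] at this
        linarith
      exact (pow_left_inj₀ (by positivity) h11 (by norm_num)).1 h12
    simp only at h8
    rw [h9, hP e he.le he1.le, hP E hE.le hE1.le,
      haz ψ' (by linarith) (by linarith) (by rw [← c1]; exact hR),
      hP ψ' (by linarith) (by linarith)] at h8
    rw [c2, c4] at hT
    have h13 : 0 < Real.sin e := Real.sin_pos_of_pos_of_lt_pi he he1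
    have h14 : ψ = ψ' + 2 * Real.pi := by rw [hψ']; ring
    have h15 : φ = 4 * Real.pi - φ' := by rw [hφ']; ring
    rw [h14, h15] at hT
    linarith

theorem rad_free_pr (s s' : ℝ) (hs : 0 < s) (hs2 : s < 2 * Real.pi) (hs' : 0 ≤ s')
    (hs2' : s' ≤ 4 * Real.pi) (hR : kR y30 s = kR y20 s') (hT : kT y30 s = kT y20 s') :
    0 < kR y30 s ∧ deriv (kR y30) s < 0 := by
  obtain ⟨a, ha, ha1, ha3, had, hA, hsq⟩ := qb3_a
  obtain ⟨E, hE, hE1, hEr, hR3, hT3⟩ := qb3_body3
  obtain ⟨e, he, he1, her, hR2, hT2⟩ := qb3_body2 ha ha3 had hA hsq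
  have key : Real.sin (E + s) < 0 := by
    refine qb3_main (φ := s' - e) ha ha1 ha3 hE hE1 he he1 (hEr.symm.trans her) (by linarith)
      (by linarith) (by linarith) (by linarith) ?_ ?_
    · rw [← hR3, hR, hR2]
    · rw [← hT3, hT, hT2]
  constructor
  · rw [hR3]
    have h1 := Real.sin_sq_add_cos_sq (E + s)
    have h2 : 0 < Real.sin (E + s) ^ 2 := by
      have := key.ne
      positivity
    nlinarith [Real.cos_le_one (E + s)]
  · have h1 : kR y30 = fun s => 1 - Real.cos (E + s) := funext hR3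
    rw [h1]
    have h2 : HasDerivAt (fun s : ℝ => 1 - Real.cos (E + s)) (Real.sin (E + s)) s := by
      have h3 : HasDerivAt (fun s : ℝ => E + s) 1 s := by
        simpa using (hasDerivAt_id s).const_add E
      have h4 := (h3.cos).const_sub 1
      simpa using h4
    rw [h2.deriv]
    exact key

end

end Pool.Agent.HS

namespace Pool.Agent.HS
open Set Filter Topology
open scoped ContDiff

theorem rad_free (s s' : ℝ) (hs : 0 < s) (hs2 : s < 2 * Real.pi) (hs' : 0 ≤ s')
    (hs2' : s' ≤ 4 * Real.pi) (hR : kR y30 s = kR y20 s') (hT : kT y30 s = kT y20 s') :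
    0 < kR y30 s ∧ deriv (kR y30) s < 0 :=
  @Pool.Agent.HS.rad_free_pr s s' hs hs2 hs' hs2' hR hT

end Pool.Agent.HS
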