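import Pool.Agent.Lib_helper60.HSF.D_WQ
import Pool.Agent.Lib_helper60.HSF.K_KA1
import Pool.Agent.Lib_helper60.HSF.Z_ZC

/-! # Project HS, part Q, block QB4: local injectivity at the start -/

namespace Pool.Agent.HS

noncomputable section

open Set Filter Topology
open scoped ContDiff

/-- the derivative of the time at `s = 0` -/
def qb4_a (y : KS) : ℝ := Real.sqrt (kA y) * kr y

/-- bound for the second order terms -/
def qb4_B (y : KS) : ℝ :=
  Real.sqrt (kA y) * (|kr y - kA y| + Real.sqrt (kA y) * |kσ y|) +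
    (|kA y| + (Real.sqrt (kA y) * kr y + |kA y| * |kσ y|) * ‖y.2‖)

theorem qb4_sin {s : ℝ} (hs : |s| ≤ 1) : |Real.sin s - s| ≤ s ^ 2 := by
  have h1 := Real.sin_bound hs
  have h2 : |s| ^ 3 ≤ |s| ^ 2 := pow_le_pow_of_le_one (abs_nonneg s) hs (by norm_num)
  have h3 : |s| ^ 4 ≤ |s| ^ 2 := pow_le_pow_of_le_one (abs_nonneg s) hs (by norm_num)
  have h4 : |s ^ 3| = |s| ^ 3 := abs_pow s 3
  have h5 : Real.sin s - s = (Real.sin s - (s - s ^ 3 / 6)) - s ^ 3 / 6 := by ring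
  rw [h5]
  refine (abs_sub _ _).trans ?_
  rw [abs_div, h4, abs_of_pos (by norm_num : (0 : ℝ) < 6), ← sq_abs s]
  have h6 := abs_nonneg s
  nlinarith [sq_nonneg (|s|)]

theorem qb4_cos (s : ℝ) : |1 - Real.cos s| ≤ s ^ 2 := by
  have h1 := Real.one_sub_sq_div_two_le_cos (x := s)
  have h2 := Real.cos_le_one s
  rw [abs_of_nonneg (by linarith)]
  nlinarith [sq_nonneg s]

theorem qb4_T (y : KS) {s : ℝ} (hs : |s| ≤ 1) : |kT y s - qb4_a y * s| ≤ qb4_B y * s ^ 2 := by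
  have h0 := Real.sqrt_nonneg (kA y)
  have h1 := qb4_sin hs
  have h2 := qb4_cos s
  have hr : 0 ≤ kr y := norm_nonneg _
  have e1 : kT y s - qb4_a y * s = Real.sqrt (kA y) * ((kr y - kA y) * (Real.sin s - s) +
      Real.sqrt (kA y) * kσ y * (1 - Real.cos s)) := by
    unfold kT qb4_a
    ring
  rw [e1, abs_mul, abs_of_nonneg h0]
  have e2 : |(kr y - kA y) * (Real.sin s - s) + Real.sqrt (kA y) * kσ y * (1 - Real.cos s)| ≤
      (|kr y - kA y| + Real.sqrt (kA y) * |kσ y|) * s ^ 2 := by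
    refine (abs_add_le _ _).trans ?_
    rw [abs_mul, abs_mul, abs_mul, abs_of_nonneg h0, add_mul]
    refine add_le_add (mul_le_mul_of_nonneg_left h1 (abs_nonneg _))
      (mul_le_mul_of_nonneg_left h2 (by positivity))
  have e3 : 0 ≤ (|kA y| + (Real.sqrt (kA y) * kr y + |kA y| * |kσ y|) * ‖y.2‖) * s ^ 2 := by
    positivity
  have e4 := mul_le_mul_of_nonneg_left e2 h0
  unfold qb4_B
  nlinarith [e3, e4]

theorem qb4_X {y : KS} (h0 : y.1 ≠ 0) {s : ℝ} (hs : |s| ≤ 1) :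
    ‖kX y s - y.1 - ((qb4_a y * s : ℝ) : ℂ) * y.2‖ ≤ qb4_B y * s ^ 2 := by
  have hA0 := Real.sqrt_nonneg (kA y)
  have h1 := qb4_sin hs
  have h2 := qb4_cos s
  have hr : 0 < kr y := norm_pos_iff.2 h0
  have e1 : kX y s - y.1 - ((qb4_a y * s : ℝ) : ℂ) * y.2 =
      ((-(kA y / kr y * (1 - Real.cos s)) : ℝ) : ℂ) * y.1 +
      ((Real.sqrt (kA y) * kr y * (Real.sin s - s) + kA y * kσ y * (1 - Real.cos s) : ℝ) : ℂ) *
        y.2 := by
    unfold kX qb4_a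
    push_cast
    ring
  rw [e1]
  refine (norm_add_le _ _).trans ?_
  rw [norm_mul, norm_mul, Complex.norm_real, Complex.norm_real, Real.norm_eq_abs,
    Real.norm_eq_abs, abs_neg, abs_mul, abs_div, abs_of_pos hr]
  have e2 : |kA y| / kr y * |1 - Real.cos s| * ‖y.1‖ ≤ |kA y| * s ^ 2 := by
    have e3 : ‖y.1‖ = kr y := rfl
    rw [e3]
    have e4 : |kA y| / kr y * |1 - Real.cos s| * kr y = |kA y| * |1 - Real.cos s| := by
      field_simp
    rw [e4]
    exact mul_le_mul_of_nonneg_left h2 (abs_nonneg _)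
  have e3 : |Real.sqrt (kA y) * kr y * (Real.sin s - s) + kA y * kσ y * (1 - Real.cos s)| ≤
      (Real.sqrt (kA y) * kr y + |kA y| * |kσ y|) * s ^ 2 := by
    refine (abs_add_le _ _).trans ?_
    rw [abs_mul, abs_mul, abs_mul (kA y * kσ y), abs_mul (kA y), abs_of_nonneg hA0,
      abs_of_pos hr, add_mul]
    refine add_le_add (mul_le_mul_of_nonneg_left h1 (by positivity))
      (mul_le_mul_of_nonneg_left h2 (by positivity))
  have e4 := mul_le_mul_of_nonneg_right e3 (norm_nonneg y.2)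
  have e5 : 0 ≤ Real.sqrt (kA y) * (|kr y - kA y| + Real.sqrt (kA y) * |kσ y|) * s ^ 2 := by
    positivity
  unfold qb4_B
  nlinarith [e2, e4, e5]

theorem qb4_cA {y : KS} (h0 : y.1 ≠ 0) (h : kh' y < 0) : ContinuousAt kA y := by
  have h1 : ContinuousAt kh' y := by
    unfold kh'
    refine ContinuousAt.sub (by fun_prop) ?_
    exact continuousAt_const.div (by fun_prop) (norm_ne_zero_iff.2 h0)
  unfold kA
  refine ContinuousAt.div continuousAt_const (continuousAt_const.mul h1) ?_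
  have := h.ne
  positivity

theorem qb4_cr (y : KS) : ContinuousAt kr y := by
  unfold kr
  fun_prop

theorem qb4_cσ (y : KS) : ContinuousAt kσ y := by
  unfold kσ
  have h1 : Continuous (fun y : KS => (starRingEnd ℂ) y.1 * y.2) :=
    (Complex.continuous_conj.comp continuous_fst).mul continuous_snd
  exact (Complex.continuous_re.comp h1).continuousAt

theorem qb4_ca {y : KS} (h0 : y.1 ≠ 0) (h : kh' y < 0) : ContinuousAt qb4_a y :=
  (Real.continuous_sqrt.continuousAt.comp (qb4_cA h0 h)).mul (qb4_cr y)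

theorem qb4_cB {y : KS} (h0 : y.1 ≠ 0) (h : kh' y < 0) : ContinuousAt qb4_B y := by
  have hA := qb4_cA h0 h
  have hs : ContinuousAt (fun y => Real.sqrt (kA y)) y :=
    Real.continuous_sqrt.continuousAt.comp hA
  have hr := qb4_cr y
  have hσ := qb4_cσ y
  have hv : ContinuousAt (fun y : KS => ‖y.2‖) y := by fun_prop
  unfold qb4_B
  exact (hs.mul ((hr.sub hA).abs.add (hs.mul hσ.abs))).add
    (hA.abs.add (((hs.mul hr).add (hA.abs.mul hσ.abs)).mul hv))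

/-- uniform constants near a state -/
theorem qb4_unif {y0 : KS} (h0 : y0.1 ≠ 0) (h : kh' y0 < 0) (hv : 0 < Real.sqrt (kA y0)) :
    ∃ ε M : ℝ, 0 < ε ∧ 1 ≤ M ∧ ∀ y : KS, ‖y - y0‖ < ε →
      qb4_a y0 / 2 ≤ qb4_a y ∧ qb4_B y ≤ M ∧ ‖y.2‖ ≤ M ∧ y.1 ≠ 0 := by
  have ha : 0 < qb4_a y0 := mul_pos hv (norm_pos_iff.2 h0)
  have e1 : ∀ᶠ y in 𝓝 y0, qb4_a y0 / 2 < qb4_a y :=
    (qb4_ca h0 h).eventually (lt_mem_nhds (by linarith))
  have e2 : ∀ᶠ y in 𝓝 y0, qb4_B y < max (qb4_B y0 + 1) (‖y0.2‖ + 1) :=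
    (qb4_cB h0 h).eventually (gt_mem_nhds (lt_max_of_lt_left (by linarith)))
  have e3 : ∀ᶠ y : KS in 𝓝 y0, ‖y.2‖ < max (qb4_B y0 + 1) (‖y0.2‖ + 1) := by
    have : ContinuousAt (fun y : KS => ‖y.2‖) y0 := by fun_prop
    exact this.eventually (gt_mem_nhds (lt_max_of_lt_right (by linarith)))
  have e4 : ∀ᶠ y : KS in 𝓝 y0, y.1 ≠ 0 := by
    have : ContinuousAt (fun y : KS => y.1) y0 := by fun_prop
    exact this.eventually_ne h0
  obtain ⟨ε, hε, hb⟩ := Metric.eventually_nhds_iff.1 (e1.and (e2.and (e3.and e4)))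
  refine ⟨ε, max (max (qb4_B y0 + 1) (‖y0.2‖ + 1)) 1, hε, le_max_right _ _, fun y hy => ?_⟩
  have h5 := hb (show dist y y0 < ε by rwa [dist_eq_norm])
  exact ⟨h5.1.le, h5.2.1.le.trans (le_max_left _ _), h5.2.2.1.le.trans (le_max_left _ _),
    h5.2.2.2⟩

theorem qb4_facts : 0 < rh ∧ 0 < kh ∧ kh' y30 < 0 ∧ kh' y20 < 0 ∧ y30.1 ≠ 0 ∧ y20.1 ≠ 0 ∧
    y30.2 - y20.2 = ((kh : ℝ) : ℂ) := by
  obtain ⟨-, -, hk1, -, hr1, -⟩ := z_bounds
  have hr : 0 < rh := by linarith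
  have hk : 0 < kh := by linarith
  have hi := rh_inv
  have e1 : ‖(rh : ℂ)‖ = rh := by rw [Complex.norm_real, Real.norm_eq_abs, abs_of_pos hr]
  have e3 : kh' y30 = (mb * kh) ^ 2 / 2 - 1 / rh := by
    show ‖((mb * kh : ℝ) : ℂ)‖ ^ 2 / 2 - 1 / ‖(rh : ℂ)‖ = _
    rw [e1, Complex.norm_real, Real.norm_eq_abs, sq_abs]
  have e2 : kh' y20 = (ma * kh) ^ 2 / 2 - 1 / rh := by
    show ‖((-(ma * kh) : ℝ) : ℂ)‖ ^ 2 / 2 - 1 / ‖(rh : ℂ)‖ = _
    rw [e1, Complex.norm_real, Real.norm_eq_abs, sq_abs, neg_sq]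
  refine ⟨hr, hk, ?_, ?_, ?_, ?_, ?_⟩
  · rw [e3, hi]
    unfold h30
    nlinarith
  · rw [e2, hi]
    unfold h30 ma mb
    nlinarith [sq_nonneg kh]
  · show (rh : ℂ) ≠ 0
    exact_mod_cast hr.ne'
  · show (rh : ℂ) ≠ 0
    exact_mod_cast hr.ne'
  · show ((mb * kh : ℝ) : ℂ) - ((-(ma * kh) : ℝ) : ℂ) = _
    rw [← Complex.ofReal_sub]
    congr 1
    unfold ma mb
    ring

theorem near_A_pr : ∃ ε : ℝ, 0 < ε ∧ ∀ y3 y2 : KS, ‖y3 - y30‖ < ε → ‖y2 - y20‖ < ε →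
    y3.1 = y2.1 → ∀ s s', |s| < ε → |s'| < ε → kX y3 s = kX y2 s' → kT y3 s = kT y2 s' →
    s = 0 ∧ s' = 0 := by
  obtain ⟨hr, hk, h3, h2, h30', h20', hd⟩ := qb4_facts
  have hA3 := Real.sqrt_pos.2 (kA_pos h3)
  have hA2 := Real.sqrt_pos.2 (kA_pos h2)
  obtain ⟨ε3, M3, hε3, hM3, H3⟩ := qb4_unif h30' h3 hA3
  obtain ⟨ε2, M2, hε2, hM2, H2⟩ := qb4_unif h20' h2 hA2
  have ha3 : 0 < qb4_a y30 := mul_pos hA3 (norm_pos_iff.2 h30')
  have ha2 : 0 < qb4_a y20 := mul_pos hA2 (norm_pos_iff.2 h20')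
  set c : ℝ := min (qb4_a y30 / 2) (qb4_a y20 / 2) with hc
  have hc0 : 0 < c := by positivity
  set M : ℝ := max M3 M2 with hM
  have hM1 : 1 ≤ M := hM3.trans (le_max_left _ _)
  have hM0 : 0 < M := by linarith
  set ε : ℝ := min (min ε3 ε2) (min (min 1 (kh / 4)) (c * kh / (16 * M ^ 2))) with hε
  have hε0 : 0 < ε := by positivity
  have l1 : ε ≤ ε3 := (min_le_left _ _).trans (min_le_left _ _)
  have l2 : ε ≤ ε2 := (min_le_left _ _).trans (min_le_right _ _)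
  have l3 : ε ≤ 1 := ((min_le_right _ _).trans (min_le_left _ _)).trans (min_le_left _ _)
  have l4 : ε ≤ kh / 4 := ((min_le_right _ _).trans (min_le_left _ _)).trans (min_le_right _ _)
  have l5 : ε ≤ c * kh / (16 * M ^ 2) := (min_le_right _ _).trans (min_le_right _ _)
  refine ⟨ε, hε0, fun y3 y2 hy3 hy2 h12 s s' hs hs' hX hT => ?_⟩
  obtain ⟨a3, b3, v3, n3⟩ := H3 y3 (hy3.trans_le l1)
  obtain ⟨a2, b2, v2, n2⟩ := H2 y2 (hy2.trans_le l2)
  have a3' : c ≤ qb4_a y3 := (min_le_left _ _).trans a3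
  have a2' : c ≤ qb4_a y2 := (min_le_right _ _).trans a2
  have b3' : qb4_B y3 ≤ M := b3.trans (le_max_left _ _)
  have b2' : qb4_B y2 ≤ M := b2.trans (le_max_right _ _)
  have v3' : ‖y3.2‖ ≤ M := v3.trans (le_max_left _ _)
  have v2' : ‖y2.2‖ ≤ M := v2.trans (le_max_right _ _)
  have T3 := qb4_T y3 (hs.le.trans l3)
  have T2 := qb4_T y2 (hs'.le.trans l3)
  have X3 := qb4_X n3 (hs.le.trans l3)
  have X2 := qb4_X n2 (hs'.le.trans l3)
  set p : ℝ := qb4_a y3 * s with hp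
  set w : ℝ := qb4_a y2 * s' with hw
  set D : ℝ := M * (s ^ 2 + s' ^ 2) with hD
  have hD0 : 0 ≤ D := by positivity
  have i3 : qb4_B y3 * s ^ 2 ≤ M * s ^ 2 := mul_le_mul_of_nonneg_right b3' (sq_nonneg _)
  have i2 : qb4_B y2 * s' ^ 2 ≤ M * s' ^ 2 := mul_le_mul_of_nonneg_right b2' (sq_nonneg _)
  have hpw : |p - w| ≤ D := by
    have e1 : p - w = (kT y2 s' - w) - (kT y3 s - p) := by rw [hT]; ring
    rw [e1]
    refine (abs_sub _ _).trans ?_
    rw [hD]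
    linarith
  have hpv : ‖(p : ℂ) * y3.2 - (w : ℂ) * y2.2‖ ≤ D := by
    have e1 : (p : ℂ) * y3.2 - (w : ℂ) * y2.2 = (kX y2 s' - y2.1 - (w : ℂ) * y2.2) -
        (kX y3 s - y3.1 - (p : ℂ) * y3.2) := by rw [hX, h12]; ring
    rw [e1]
    refine (norm_sub_le _ _).trans ?_
    rw [hD]
    linarith
  -- the velocities are different
  have hvd : kh / 2 ≤ ‖y3.2 - y2.2‖ := by
    have e1 : ‖y3.2 - y30.2‖ ≤ ε := (norm_snd_le (y3 - y30)).trans hy3.le
    have e2 : ‖y2.2 - y20.2‖ ≤ ε := (norm_snd_le (y2 - y20)).trans hy2.le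
    have e3 : ‖y30.2 - y20.2‖ = kh := by
      rw [hd, Complex.norm_real, Real.norm_eq_abs, abs_of_pos hk]
    have e4 : y30.2 - y20.2 = (y3.2 - y2.2) - (y3.2 - y30.2) + (y2.2 - y20.2) := by ring
    have e5 : ‖y30.2 - y20.2‖ ≤ ‖y3.2 - y2.2‖ + ‖y3.2 - y30.2‖ + ‖y2.2 - y20.2‖ := by
      rw [e4]
      refine (norm_add_le _ _).trans ?_
      have := norm_sub_le (y3.2 - y2.2) (y3.2 - y30.2)
      linarith
    linarith
  have hP : |p| * (kh / 2) ≤ D * (1 + M) := by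
    have e1 : (p : ℂ) * (y3.2 - y2.2) =
        ((p : ℂ) * y3.2 - (w : ℂ) * y2.2) - ((p - w : ℝ) : ℂ) * y2.2 := by
      push_cast
      ring
    have e2 : |p| * ‖y3.2 - y2.2‖ ≤ D + D * M := by
      have e3 : ‖(p : ℂ) * (y3.2 - y2.2)‖ = |p| * ‖y3.2 - y2.2‖ := by
        rw [norm_mul, Complex.norm_real, Real.norm_eq_abs]
      rw [← e3, e1]
      refine (norm_sub_le _ _).trans ?_
      rw [norm_mul, Complex.norm_real, Real.norm_eq_abs]
      exact add_le_add hpv (mul_le_mul hpw v2' (norm_nonneg _) hD0)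
    have e4 := mul_le_mul_of_nonneg_left hvd (abs_nonneg p)
    linarith
  have hW : |w| * (kh / 2) ≤ D * (1 + M) := by
    have e1 : (w : ℂ) * (y3.2 - y2.2) =
        ((p : ℂ) * y3.2 - (w : ℂ) * y2.2) - ((p - w : ℝ) : ℂ) * y3.2 := by
      push_cast
      ring
    have e2 : |w| * ‖y3.2 - y2.2‖ ≤ D + D * M := by
      have e3 : ‖(w : ℂ) * (y3.2 - y2.2)‖ = |w| * ‖y3.2 - y2.2‖ := by
        rw [norm_mul, Complex.norm_real, Real.norm_eq_abs]
      rw [← e3, e1]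
      refine (norm_sub_le _ _).trans ?_
      rw [norm_mul, Complex.norm_real, Real.norm_eq_abs]
      exact add_le_add hpv (mul_le_mul hpw v3' (norm_nonneg _) hD0)
    have e4 := mul_le_mul_of_nonneg_left hvd (abs_nonneg w)
    linarith
  have hp1 : c * |s| ≤ |p| := by
    rw [hp, abs_mul]
    exact mul_le_mul_of_nonneg_right (a3'.trans (le_abs_self _)) (abs_nonneg _)
  have hw1 : c * |s'| ≤ |w| := by
    rw [hw, abs_mul]
    exact mul_le_mul_of_nonneg_right (a2'.trans (le_abs_self _)) (abs_nonneg _)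
  have hs2 : s ^ 2 ≤ ε * |s| := by
    rw [← sq_abs, sq]
    exact mul_le_mul_of_nonneg_right hs.le (abs_nonneg _)
  have hs2' : s' ^ 2 ≤ ε * |s'| := by
    rw [← sq_abs, sq]
    exact mul_le_mul_of_nonneg_right hs'.le (abs_nonneg _)
  have hsum : c * (kh / 2) * (|s| + |s'|) ≤ c * (kh / 4) * (|s| + |s'|) := by
    have e1 : c * (kh / 2) * (|s| + |s'|) ≤ 2 * (D * (1 + M)) := by
      have e2 := mul_le_mul_of_nonneg_right hp1 (by positivity : 0 ≤ kh / 2)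
      have e3 := mul_le_mul_of_nonneg_right hw1 (by positivity : 0 ≤ kh / 2)
      linarith
    have e4 : D ≤ M * (ε * (|s| + |s'|)) := by
      rw [hD]
      refine mul_le_mul_of_nonneg_left ?_ hM0.le
      linarith
    have e5 : 2 * (D * (1 + M)) ≤ 2 * (M * (ε * (|s| + |s'|)) * (2 * M)) := by
      have : 1 + M ≤ 2 * M := by linarith
      refine mul_le_mul_of_nonneg_left ?_ (by norm_num)
      refine mul_le_mul e4 this (by linarith) ?_
      positivity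
    have e6 : ε * (16 * M ^ 2) ≤ c * kh := by
      rwa [le_div_iff₀ (by positivity)] at l5
    have e7 : 0 ≤ |s| + |s'| := by positivity
    have e8 := mul_le_mul_of_nonneg_right e6 e7
    nlinarith [e1, e5, e8]
  have h6 : |s| + |s'| ≤ 0 := by
    have e1 : 0 < c * (kh / 4) := by positivity
    by_contra h7
    push Not at h7
    nlinarith [mul_pos e1 h7]
  have h7 := abs_nonneg s
  have h8 := abs_nonneg s'
  exact ⟨abs_eq_zero.1 (by linarith), abs_eq_zero.1 (by linarith)⟩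

end

end Pool.Agent.HS

namespace Pool.Agent.HS
open Set Filter Topology
open scoped ContDiff

theorem near_A : ∃ ε : ℝ, 0 < ε ∧ ∀ y3 y2 : KS, ‖y3 - y30‖ < ε → ‖y2 - y20‖ < ε →
    y3.1 = y2.1 → ∀ s s', |s| < ε → |s'| < ε → kX y3 s = kX y2 s' → kT y3 s = kT y2 s' →
    s = 0 ∧ s' = 0 :=
  @Pool.Agent.HS.near_A_pr

end Pool.Agent.HS
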