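import Pool.Agent.Lib_helper60.HSF.D_WQ
import Pool.Agent.Lib_helper60.HSF.K_KA1
import Pool.Agent.Lib_helper60.HSF.Z_QB2
import Pool.Agent.Lib_helper60.HSF.Z_QB1
import Pool.Agent.Lib_helper60.HSF.K_KE1
import Pool.Agent.Lib_helper60.HSF.K_KB2
import Pool.Agent.Lib_helper60.HSF.K_KC2
import Pool.Agent.Lib_helper60.HSF.Z_ZC
import Pool.Agent.Lib_helper60.HSF.Z_ZA1
import Pool.Agent.Lib_helper60.HSF.Z_QA1
import Pool.Agent.Lib_helper60.HSF.Z_QB4
import Pool.Agent.Lib_helper60.HSF.Z_QB3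

/-! # Project HS, part Q, block QB5: base arcs, core -/

namespace Pool.Agent.HS

noncomputable section

open Set Filter Topology
open scoped ContDiff

theorem qb5_num : 0 < rh ∧ 0 < kh ∧ 0 < cc ∧ 0 < d0 := by
  obtain ⟨h1, -, h2, -, h3, -, h4, -⟩ := z_bounds
  exact ⟨by linarith, by linarith, by linarith, by linarith⟩

theorem qb5_zr (C : ℝ) (X : ℝ × ℝ) : zr C X = rh + C * (1/2 + X.1) / (cc * rh) := rfl

theorem qb5_cr : Continuous (fun p : ℝ × Pl × ℝ => zr p.1 p.2.1) := by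
  simp only [qb5_zr]
  fun_prop

theorem qb5_r0 : zr 0 0 = rh := by
  rw [qb5_zr]
  simp

theorem qb5_zk (C : ℝ) (X : ℝ × ℝ) : zk C X = Real.sqrt (2 / (ma * mb) *
    (E0 + 1 / zr C X - ((C * (1/2 + 2 * X.1 + X.2) / rh) ^ 2 + C ^ 2 / zr C X ^ 2) / 2)) := rfl

theorem qb5_k0 : zk 0 0 = kh := by
  rw [qb5_zk, qb5_r0]
  have h1 := E0_rh
  have h2 : E0 + 1 / rh - (((0 : ℝ) * (1/2 + 2 * (0 : ℝ × ℝ).1 + (0 : ℝ × ℝ).2) / rh) ^ 2 +
      (0 : ℝ) ^ 2 / rh ^ 2) / 2 = ma * mb * kh ^ 2 / 2 := by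
    rw [← h1]
    ring
  rw [h2]
  have h3 : 2 / (ma * mb) * (ma * mb * kh ^ 2 / 2) = kh ^ 2 := by
    have e1 : ma ≠ 0 := by unfold ma; norm_num
    have e2 : mb ≠ 0 := by unfold mb; norm_num
    field_simp
  rw [h3, Real.sqrt_sq qb5_num.2.1.le]

theorem qb5_ck : ContinuousAt (fun p : ℝ × Pl × ℝ => zk p.1 p.2.1) (0, 0, 0) := by
  have hr := qb5_cr.continuousAt (x := ((0, 0, 0) : ℝ × Pl × ℝ))
  have h0 : zr ((0, 0, 0) : ℝ × Pl × ℝ).1 ((0, 0, 0) : ℝ × Pl × ℝ).2.1 ≠ 0 := by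
    show zr 0 0 ≠ 0
    rw [qb5_r0]
    exact qb5_num.1.ne'
  simp only [qb5_zk]
  refine Real.continuous_sqrt.continuousAt.comp (ContinuousAt.mul continuousAt_const ?_)
  refine ContinuousAt.sub (continuousAt_const.add (continuousAt_const.div hr h0)) ?_
  refine ContinuousAt.div_const (ContinuousAt.add ?_ ?_) 2
  · fun_prop
  · exact (by fun_prop : ContinuousAt (fun p : ℝ × Pl × ℝ => p.1 ^ 2) (0, 0, 0)).div (hr.pow 2)
      (pow_ne_zero 2 h0)

theorem qb5_cU : ContinuousAt (fun p : ℝ × Pl × ℝ => zU p.1 p.2.1) (0, 0, 0) := by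
  have hr := qb5_cr.continuousAt (x := ((0, 0, 0) : ℝ × Pl × ℝ))
  have h0 : zr ((0, 0, 0) : ℝ × Pl × ℝ).1 ((0, 0, 0) : ℝ × Pl × ℝ).2.1 ≠ 0 := by
    show zr 0 0 ≠ 0
    rw [qb5_r0]
    exact qb5_num.1.ne'
  unfold zU zϖ
  refine ContinuousAt.add ?_ (ContinuousAt.mul ?_ continuousAt_const)
  · exact Complex.continuous_ofReal.continuousAt.comp
      (by fun_prop : ContinuousAt (fun p : ℝ × Pl × ℝ =>
        (1 / 2 + 2 * p.2.1.1 + p.2.1.2) / rh) (0, 0, 0))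
  · exact Complex.continuous_ofReal.continuousAt.comp (continuousAt_const.div hr h0)

theorem qb5_cw : ContinuousAt (fun p : ℝ × Pl × ℝ => zw p.1 p.2.1 p.2.2) (0, 0, 0) := by
  unfold zw
  exact (Complex.continuous_ofReal.continuousAt.comp qb5_ck).mul (by fun_prop)

theorem qb5_c3 : ContinuousAt (fun p : ℝ × Pl × ℝ => z3 p.1 p.2.1 p.2.2) (0, 0, 0) := by
  unfold z3
  refine ContinuousAt.prodMk (Complex.continuous_ofReal.continuousAt.comp qb5_cr.continuousAt) ?_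
  exact ((by fun_prop : ContinuousAt (fun p : ℝ × Pl × ℝ => (p.1 : ℂ)) (0, 0, 0)).mul
    qb5_cU).add (continuousAt_const.mul qb5_cw)

theorem qb5_c2 : ContinuousAt (fun p : ℝ × Pl × ℝ => z2 p.1 p.2.1 p.2.2) (0, 0, 0) := by
  unfold z2
  refine ContinuousAt.prodMk (Complex.continuous_ofReal.continuousAt.comp qb5_cr.continuousAt) ?_
  exact ((by fun_prop : ContinuousAt (fun p : ℝ × Pl × ℝ => (p.1 : ℂ)) (0, 0, 0)).mul
    qb5_cU).sub (continuousAt_const.mul qb5_cw)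

theorem qb5_w0 : zw 0 0 0 = (kh : ℂ) := by
  unfold zw
  rw [qb5_k0]
  simp

theorem qb5_30 : z3 0 0 0 = y30 := by
  unfold z3 y30
  rw [qb5_r0, qb5_w0]
  simp

theorem qb5_20 : z2 0 0 0 = y20 := by
  unfold z2 y20
  rw [qb5_r0, qb5_w0]
  simp

theorem qb5_h : kh' y30 = h30 ∧ kh' y20 = h20 ∧ y30.1 ≠ 0 ∧ y20.1 ≠ 0 ∧ h30 < 0 ∧ h20 < 0 := by
  obtain ⟨hr, hk, -, hd⟩ := qb5_num
  have hi := rh_inv
  have hs := kh_sq
  have e1 : ‖(rh : ℂ)‖ = rh := by rw [Complex.norm_real, Real.norm_eq_abs, abs_of_pos hr]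
  have e3 : kh' y30 = (mb * kh) ^ 2 / 2 - 1 / rh := by
    show ‖((mb * kh : ℝ) : ℂ)‖ ^ 2 / 2 - 1 / ‖(rh : ℂ)‖ = _
    rw [e1, Complex.norm_real, Real.norm_eq_abs, sq_abs]
  have e2 : kh' y20 = (ma * kh) ^ 2 / 2 - 1 / rh := by
    show ‖((-(ma * kh) : ℝ) : ℂ)‖ ^ 2 / 2 - 1 / ‖(rh : ℂ)‖ = _
    rw [e1, Complex.norm_real, Real.norm_eq_abs, sq_abs, neg_sq]
  have h3 : h30 < 0 := by unfold h30; norm_num
  have e4 : h20 = h30 - d0 := by unfold d0; ring
  refine ⟨?_, ?_, ?_, ?_, h3, by linarith⟩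
  · rw [e3, hi]
    ring
  · rw [e2, hi, mul_pow, hs, e4]
    unfold ma mb
    ring
  · show (rh : ℂ) ≠ 0
    exact_mod_cast hr.ne'
  · show (rh : ℂ) ≠ 0
    exact_mod_cast hr.ne'

theorem qb5_per3 {y : KS} (h : kh' y = h30) : kPer y = 2 * Real.pi := by
  unfold kPer kA
  rw [h]
  have : -1 / (2 * h30) = 1 := by unfold h30; norm_num
  rw [this, Real.sqrt_one]
  ring

theorem qb5_t : ∃ t : ℝ, 0 < t ∧ t ^ 3 = 1 / 2 ∧ h20 = -t := by
  refine ⟨(2 : ℝ) ^ (-(1/3) : ℝ), by positivity, ?_, rfl⟩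
  rw [← Real.rpow_natCast, ← Real.rpow_mul (by norm_num)]
  norm_num

theorem qb5_per2 {y : KS} (h : kh' y = h20) : kPer y = Real.pi := by
  obtain ⟨t, ht, ht3, e⟩ := qb5_t
  have hA : kA y = 1 / (2 * t) := by
    unfold kA
    rw [h, e]
    field_simp
  have hA0 : 0 < kA y := by rw [hA]; positivity
  have h1 : (kA y * Real.sqrt (kA y)) ^ 2 = (1 / 2) ^ 2 := by
    rw [mul_pow, Real.sq_sqrt hA0.le, hA]
    have : (1 / (2 * t)) ^ 2 * (1 / (2 * t)) = 1 / (8 * t ^ 3) := by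
      field_simp
      norm_num
    rw [this, ht3]
    norm_num
  have h2 : kA y * Real.sqrt (kA y) = 1 / 2 := by
    have h3 : 0 ≤ kA y * Real.sqrt (kA y) := by positivity
    nlinarith [h1, h3]
  unfold kPer
  rw [mul_assoc, h2]
  ring

theorem qb5_T0 (y : KS) : kT y 0 = 0 := by
  unfold kT
  simp

/-- the derivative of the distance -/
def qb5_dR (y : KS) (s : ℝ) : ℝ :=
  -(kr y - kA y) * Real.sin s + Real.sqrt (kA y) * kσ y * Real.cos s

theorem qb5_hd (y : KS) (s : ℝ) : HasDerivAt (kR y) (qb5_dR y s) s := by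
  unfold kR qb5_dR
  have h1 := ((Real.hasDerivAt_cos s).const_mul (kr y - kA y)).const_add (kA y)
  have h2 := (Real.hasDerivAt_sin s).const_mul (Real.sqrt (kA y) * kσ y)
  have h3 := h1.add h2
  refine h3.congr_deriv ?_
  ring

theorem qb5_cdR {y : KS} (h0 : y.1 ≠ 0) (h : kh' y < 0) (s : ℝ) :
    ContinuousAt (fun p : KS × ℝ => qb5_dR p.1 p.2) (y, s) := by
  have h1 : ContinuousAt kh' y := by
    unfold kh'
    refine ContinuousAt.sub (by fun_prop) ?_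
    exact continuousAt_const.div (by fun_prop) (norm_ne_zero_iff.2 h0)
  have hA : ContinuousAt kA y := by
    unfold kA
    refine ContinuousAt.div continuousAt_const (continuousAt_const.mul h1) ?_
    have := h.ne
    positivity
  have hA' : ContinuousAt (fun p : KS × ℝ => kA p.1) (y, s) :=
    ContinuousAt.comp (f := Prod.fst) (g := kA) hA continuousAt_fst
  have hr : ContinuousAt (fun p : KS × ℝ => kr p.1) (y, s) := by
    unfold kr
    fun_prop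
  have hσ : ContinuousAt (fun p : KS × ℝ => kσ p.1) (y, s) := by
    unfold kσ
    have h1 : Continuous (fun p : KS × ℝ => (starRingEnd ℂ) p.1.1 * p.1.2) :=
      (Complex.continuous_conj.comp (continuous_fst.comp continuous_fst)).mul
        (continuous_snd.comp continuous_fst)
    exact (Complex.continuous_re.comp h1).continuousAt
  have hs : ContinuousAt (fun p : KS × ℝ => Real.sqrt (kA p.1)) (y, s) :=
    Real.continuous_sqrt.continuousAt.comp hA'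
  unfold qb5_dR
  exact ((hr.sub hA').neg.mul (by fun_prop)).add ((hs.mul hσ).mul (by fun_prop))

theorem qb5_cX {y : KS} (h0 : y.1 ≠ 0) (h : kh' y < 0) (s : ℝ) :
    ContinuousAt (fun p : KS × ℝ => kX p.1 p.2) (y, s) :=
  kX_smooth.continuousOn.continuousAt ((isOpen_neg.preimage continuous_fst).mem_nhds ⟨h, h0⟩)

theorem qb5_cT {y : KS} (h0 : y.1 ≠ 0) (h : kh' y < 0) (s : ℝ) :
    ContinuousAt (fun p : KS × ℝ => kT p.1 p.2) (y, s) :=
  kT_smooth.continuousOn.continuousAt ((isOpen_neg.preimage continuous_fst).mem_nhds ⟨h, h0⟩)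

theorem qb5_Xper (y : KS) (s : ℝ) (n : ℤ) : kX y (s + 2 * Real.pi * n) = kX y s :=
  congrArg Prod.fst (kY_per y s n)

theorem qb5_L {C : ℝ} {X : Pl} (hr : zr C X ≠ 0) (χ : ℝ) :
    kL (z3 C X χ) = C + mb * zr C X * zk C X * Real.sin χ ∧
    kL (z2 C X χ) = C - ma * zr C X * zk C X * Real.sin χ :=
  ⟨(z_L hr χ).1, (z_L hr χ).2.1⟩

/-- a sequence of counterexamples -/
structure qb5_Seq (C : ℕ → ℝ) (X : ℕ → Pl) (χ s s' : ℕ → ℝ) : Prop where
  C0 : ∀ n, 0 < C n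
  χ0 : ∀ n, 0 ≤ χ n
  lim : Tendsto (fun n => ((C n, X n, χ n) : ℝ × Pl × ℝ)) atTop (𝓝 (0, 0, 0))
  d : ∀ n, kh' (z3 (C n) (X n) (χ n)) - kh' (z2 (C n) (X n) (χ n)) = d0
  s0 : ∀ n, 0 < s n
  s1 : ∀ n, s n < 2 * Real.pi
  hX : ∀ n, kX (z3 (C n) (X n) (χ n)) (s n) = kX (z2 (C n) (X n) (χ n)) (s' n)
  hT : ∀ n, kT (z3 (C n) (X n) (χ n)) (s n) = kT (z2 (C n) (X n) (χ n)) (s' n)

variable {C : ℕ → ℝ} {X : ℕ → Pl} {χ s s' : ℕ → ℝ}

theorem qb5_z3 (h : qb5_Seq C X χ s s') :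
    Tendsto (fun n => z3 (C n) (X n) (χ n)) atTop (𝓝 y30) := by
  have h0 := qb5_c3.tendsto.comp h.lim
  have h1 : Tendsto (fun n => z3 (C n) (X n) (χ n)) atTop (𝓝 (z3 0 0 0)) := h0
  rwa [qb5_30] at h1

theorem qb5_z2 (h : qb5_Seq C X χ s s') :
    Tendsto (fun n => z2 (C n) (X n) (χ n)) atTop (𝓝 y20) := by
  have h0 := qb5_c2.tendsto.comp h.lim
  have h1 : Tendsto (fun n => z2 (C n) (X n) (χ n)) atTop (𝓝 (z2 0 0 0)) := h0
  rwa [qb5_20] at h1

theorem qb5_tr (h : qb5_Seq C X χ s s') : Tendsto (fun n => zr (C n) (X n)) atTop (𝓝 rh) := by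
  have h0 := (qb5_cr.continuousAt (x := ((0, 0, 0) : ℝ × Pl × ℝ))).tendsto.comp h.lim
  have h1 : Tendsto (fun n => zr (C n) (X n)) atTop (𝓝 (zr 0 0)) := h0
  rwa [qb5_r0] at h1

theorem qb5_tk (h : qb5_Seq C X χ s s') : Tendsto (fun n => zk (C n) (X n)) atTop (𝓝 kh) := by
  have h0 := qb5_ck.tendsto.comp h.lim
  have h1 : Tendsto (fun n => zk (C n) (X n)) atTop (𝓝 (zk 0 0)) := h0
  rwa [qb5_k0] at h1

theorem qb5_tC (h : qb5_Seq C X χ s s') : Tendsto C atTop (𝓝 0) := by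
  have h0 := (continuous_fst.tendsto ((0, 0, 0) : ℝ × Pl × ℝ)).comp h.lim
  exact h0

theorem qb5_tX (h : qb5_Seq C X χ s s') : Tendsto X atTop (𝓝 0) := by
  have h0 := ((continuous_fst.comp continuous_snd).tendsto ((0, 0, 0) : ℝ × Pl × ℝ)).comp h.lim
  exact h0

theorem qb5_tχ (h : qb5_Seq C X χ s s') : Tendsto χ atTop (𝓝 0) := by
  have h0 := ((continuous_snd.comp continuous_snd).tendsto ((0, 0, 0) : ℝ × Pl × ℝ)).comp h.lim
  exact h0

/-- the energies are those of the limit -/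
theorem qb5_en (h : qb5_Seq C X χ s s') : ∀ᶠ n in atTop,
    kh' (z3 (C n) (X n) (χ n)) = h30 ∧ kh' (z2 (C n) (X n) (χ n)) = h20 := by
  obtain ⟨hr, hk, hc, hd⟩ := qb5_num
  have hp : Tendsto (fun n => (chart (C n) (X n)).2) atTop (𝓝 0) := by
    have h1 : Continuous (fun p : ℝ × Pl => p.1 * (1/2 + 2 * p.2.1 + p.2.2) / rh) := by fun_prop
    have h2 := (h1.tendsto (0, 0)).comp ((qb5_tC h).prodMk_nhds (qb5_tX h))
    simp only [zero_mul, zero_div] at h2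
    exact h2
  have e1 := (qb5_tr h).eventually (lt_mem_nhds (show rh / 2 < rh by linarith))
  have e2 := (qb5_tr h).eventually (gt_mem_nhds (show rh < 2 * rh by linarith))
  have e3 := (hp.abs).eventually (gt_mem_nhds (show |(0 : ℝ)| < 1 by rw [abs_zero]; norm_num))
  have e4 := ((qb5_tk h).sub_const kh).abs.eventually
    (gt_mem_nhds (show |kh - kh| < 1 / 20 by rw [sub_self, abs_zero]; norm_num))
  have e5 := (qb5_tC h).eventually (gt_mem_nhds (show (0 : ℝ) < 1 by norm_num))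
  filter_upwards [e1, e2, e3, e4, e5] with n f1 f2 f3 f4 f5
  have hX : X n ∈ CD (C n) := ⟨f1.le, f2.le, f3.le, f4.le⟩
  have h6 := (cd_en ⟨h.C0 n, f5.le⟩ hX (χ n)).1
  have h7 := h.d n
  have a1 : ma = 1 - mb := by unfold ma mb; norm_num
  have e6 : E0 = ma * h30 + mb * h20 := rfl
  have e7 : d0 = h30 - h20 := rfl
  rw [e6] at h6
  rw [e7] at h7
  rw [a1] at h6
  constructor
  · linear_combination h6 + mb * h7
  · linear_combination h6 + (mb - 1) * h7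

theorem qb5_s' (h : qb5_Seq C X χ s s') : ∀ᶠ n in atTop, 0 < s' n ∧ s' n < 4 * Real.pi := by
  obtain ⟨-, -, -, -, h30n, h20n⟩ := qb5_h
  have hr := qb5_num.1
  filter_upwards [qb5_en h, (qb5_tr h).eventually (lt_mem_nhds hr)] with n hn hrn
  have n3 : (z3 (C n) (X n) (χ n)).1 ≠ 0 := by
    show ((zr (C n) (X n) : ℝ) : ℂ) ≠ 0
    exact_mod_cast hrn.ne'
  have n2 : (z2 (C n) (X n) (χ n)).1 ≠ 0 := by
    show ((zr (C n) (X n) : ℝ) : ℂ) ≠ 0
    exact_mod_cast hrn.ne'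
  have m3 := kT_strictMono' (y := z3 (C n) (X n) (χ n)) (by rw [hn.1]; exact h30n) n3
  have m2 := kT_strictMono' (y := z2 (C n) (X n) (χ n)) (by rw [hn.2]; exact h20n) n2
  have l1 := m3 (h.s0 n)
  have l2 := m3 (h.s1 n)
  have p3 := kT_per (z3 (C n) (X n) (χ n)) 0 1
  have p2 := kT_per (z2 (C n) (X n) (χ n)) 0 2
  rw [qb5_T0, qb5_per3 hn.1] at p3
  rw [qb5_T0, qb5_per2 hn.2] at p2
  rw [qb5_T0] at l1
  have e1 : (0 : ℝ) + 2 * Real.pi * ((1 : ℤ) : ℝ) = 2 * Real.pi := by push_cast; ring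
  have e2 : (0 : ℝ) + 2 * Real.pi * ((2 : ℤ) : ℝ) = 4 * Real.pi := by push_cast; ring
  rw [e1] at p3
  rw [e2] at p2
  rw [p3] at l2
  rw [h.hT n] at l1 l2
  constructor
  · apply m2.lt_iff_lt.1
    rw [qb5_T0]
    exact l1
  · apply m2.lt_iff_lt.1
    rw [p2]
    push_cast at l2 ⊢
    linarith

/-- the limit point is the start -/
theorem qb5_start (h : qb5_Seq C X χ s s') (hu : Tendsto s atTop (𝓝 0))
    (hv : Tendsto s' atTop (𝓝 0)) : False := by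
  obtain ⟨ε, hε, hA⟩ := near_A
  have ev3 : ∀ᶠ n in atTop, ‖z3 (C n) (X n) (χ n) - y30‖ < ε := by
    filter_upwards [(qb5_z3 h).eventually (Metric.ball_mem_nhds y30 hε)] with n hn
    rwa [dist_eq_norm] at hn
  have ev2 : ∀ᶠ n in atTop, ‖z2 (C n) (X n) (χ n) - y20‖ < ε := by
    filter_upwards [(qb5_z2 h).eventually (Metric.ball_mem_nhds y20 hε)] with n hn
    rwa [dist_eq_norm] at hn
  have a1 : ∀ᶠ n in atTop, |s n| < ε := by
    filter_upwards [hu.eventually (Metric.ball_mem_nhds 0 hε)] with n hn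
    rwa [Real.dist_eq, sub_zero] at hn
  have a2 : ∀ᶠ n in atTop, |s' n| < ε := by
    filter_upwards [hv.eventually (Metric.ball_mem_nhds 0 hε)] with n hn
    rwa [Real.dist_eq, sub_zero] at hn
  obtain ⟨n, b1, b2, b3, b4⟩ := (a1.and (a2.and (ev3.and ev2))).exists
  have h0 : (z3 (C n) (X n) (χ n)).1 = (z2 (C n) (X n) (χ n)).1 := rfl
  exact (h.s0 n).ne' (hA (z3 (C n) (X n) (χ n)) (z2 (C n) (X n) (χ n)) b3 b4 h0 (s n) (s' n)
    b1 b2 (h.hX n) (h.hT n)).1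

/-- the limit point is the end -/
theorem qb5_end (h : qb5_Seq C X χ s s') (hu : Tendsto s atTop (𝓝 (2 * Real.pi)))
    (hv : Tendsto s' atTop (𝓝 (4 * Real.pi))) : False := by
  obtain ⟨ε, hε, hA⟩ := near_A
  have ev3 : ∀ᶠ n in atTop, ‖z3 (C n) (X n) (χ n) - y30‖ < ε := by
    filter_upwards [(qb5_z3 h).eventually (Metric.ball_mem_nhds y30 hε)] with n hn
    rwa [dist_eq_norm] at hn
  have ev2 : ∀ᶠ n in atTop, ‖z2 (C n) (X n) (χ n) - y20‖ < ε := by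
    filter_upwards [(qb5_z2 h).eventually (Metric.ball_mem_nhds y20 hε)] with n hn
    rwa [dist_eq_norm] at hn
  have a1 : ∀ᶠ n in atTop, |s n - 2 * Real.pi| < ε := by
    filter_upwards [hu.eventually (Metric.ball_mem_nhds (2 * Real.pi) hε)] with n hn
    rwa [Real.dist_eq] at hn
  have a2 : ∀ᶠ n in atTop, |s' n - 4 * Real.pi| < ε := by
    filter_upwards [hv.eventually (Metric.ball_mem_nhds (4 * Real.pi) hε)] with n hn
    rwa [Real.dist_eq] at hn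
  obtain ⟨n, b1, b2, b3, b4, b5⟩ := (a1.and (a2.and (ev3.and (ev2.and (qb5_en h))))).exists
  have h0 : (z3 (C n) (X n) (χ n)).1 = (z2 (C n) (X n) (χ n)).1 := rfl
  have hX := h.hX n
  have hT := h.hT n
  have hs := h.s1 n
  generalize z3 (C n) (X n) (χ n) = y3 at *
  generalize z2 (C n) (X n) (χ n) = y2 at *
  have f1 : s n - 2 * Real.pi + 2 * Real.pi * ((1 : ℤ) : ℝ) = s n := by push_cast; ring
  have f2 : s' n - 4 * Real.pi + 2 * Real.pi * ((2 : ℤ) : ℝ) = s' n := by push_cast; ring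
  have k1 := qb5_Xper y3 (s n - 2 * Real.pi) 1
  have k2 := qb5_Xper y2 (s' n - 4 * Real.pi) 2
  have k3 := kT_per y3 (s n - 2 * Real.pi) 1
  have k4 := kT_per y2 (s' n - 4 * Real.pi) 2
  rw [f1] at k1 k3
  rw [f2] at k2 k4
  rw [qb5_per3 b5.1] at k3
  rw [qb5_per2 b5.2] at k4
  push_cast at k3 k4
  have h1 := (hA y3 y2 b3 b4 h0 (s n - 2 * Real.pi) (s' n - 4 * Real.pi) b1 b2
    (by rw [← k1, ← k2, hX]) (by linarith)).1
  linarith

/-- the limit point is in the interior -/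
theorem qb5_int (h : qb5_Seq C X χ s s') {u : ℝ} (hu : Tendsto s atTop (𝓝 u))
    (r0 : 0 < kR y30 u) (r1 : deriv (kR y30) u < 0) : False := by
  obtain ⟨hr, hk, hc, hd⟩ := qb5_num
  obtain ⟨e30, e20, n30, n20, h30n, h20n⟩ := qb5_h
  have g30 : kh' y30 < 0 := by rw [e30]; exact h30n
  have t3 := qb5_z3 h
  have t2 := qb5_z2 h
  have p3 : Tendsto (fun n => (z3 (C n) (X n) (χ n), s n)) atTop (𝓝 (y30, u)) :=
    t3.prodMk_nhds hu
  have x3' := (qb5_cX n30 g30 u).tendsto.comp p3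
  have x3 : Tendsto (fun n => kX (z3 (C n) (X n) (χ n)) (s n)) atTop (𝓝 (kX y30 u)) := x3'
  rw [(qb5_hd y30 u).deriv] at r1
  obtain ⟨ε', hε', hB⟩ := ang_free (kR y30 u / 2) (by linarith)
  have hbd := z_bounds
  obtain ⟨-, -, hk1, -, hr1, hr2, -⟩ := hbd
  have a1 := (qb5_tr h).eventually (lt_mem_nhds (show 1 < rh by linarith))
  have a2 := (qb5_tr h).eventually (gt_mem_nhds (show rh < 2 by linarith))
  have a3 : ∀ᶠ n in atTop, mb * zr (C n) (X n) * zk (C n) (X n) * Real.sin (χ n) + C n < ε' := by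
    have l0 := (Real.continuous_sin.tendsto 0).comp (qb5_tχ h)
    have l1 : Tendsto (fun n => Real.sin (χ n)) atTop (𝓝 (Real.sin 0)) := l0
    have l2 := ((((tendsto_const_nhds (x := mb)).mul (qb5_tr h)).mul (qb5_tk h)).mul l1).add
      (qb5_tC h)
    rw [Real.sin_zero, mul_zero, zero_add] at l2
    exact l2.eventually (gt_mem_nhds hε')
  have a4 : ∀ᶠ n in atTop, 1 / 2 < (z3 (C n) (X n) (χ n)).2.re -
      |(z2 (C n) (X n) (χ n)).2.re| := by
    have l1' := ((Complex.continuous_re.comp continuous_snd).tendsto y30).comp t3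
    have l2' := ((Complex.continuous_re.comp continuous_snd).tendsto y20).comp t2
    have l1 : Tendsto (fun n => (z3 (C n) (X n) (χ n)).2.re) atTop (𝓝 y30.2.re) := l1'
    have l2 : Tendsto (fun n => (z2 (C n) (X n) (χ n)).2.re) atTop (𝓝 y20.2.re) := l2'
    refine (l1.sub l2.abs).eventually (lt_mem_nhds ?_)
    have l3 : y30.2.re = mb * kh := Complex.ofReal_re _
    have l4 : y20.2.re = -(ma * kh) := Complex.ofReal_re _
    have l5 : 0 < ma * kh := by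
      have : 0 < ma := by unfold ma; norm_num
      positivity
    rw [l3, l4, abs_neg, abs_of_pos l5]
    unfold ma mb
    linarith
  have a5 : ∀ᶠ n in atTop, kR y30 u / 2 < ‖kX (z3 (C n) (X n) (χ n)) (s n)‖ := by
    refine x3.norm.eventually (lt_mem_nhds ?_)
    rw [norm_kX g30 n30]
    linarith
  have a6 : ∀ᶠ n in atTop, qb5_dR (z3 (C n) (X n) (χ n)) (s n) < 0 := by
    have l0 := (qb5_cdR n30 g30 u).tendsto.comp p3
    have l1 : Tendsto (fun n => qb5_dR (z3 (C n) (X n) (χ n)) (s n)) atTop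
        (𝓝 (qb5_dR y30 u)) := l0
    exact l1.eventually (gt_mem_nhds r1)
  have a7 := (qb5_tk h).eventually (lt_mem_nhds hk)
  have a8 : ∀ᶠ n in atTop, χ n < 1 := (qb5_tχ h).eventually (gt_mem_nhds one_pos)
  obtain ⟨n, b1, b2, b3, b4, b5, b6, b7, b8, b9⟩ :=
    (a1.and (a2.and (a3.and (a4.and (a5.and (a6.and (a7.and (a8.and (qb5_en h))))))))).exists
  have hsin : 0 ≤ Real.sin (χ n) := by
    refine Real.sin_nonneg_of_nonneg_of_le_pi (h.χ0 n) ?_
    have := Real.pi_gt_three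
    linarith
  have hrn : 0 < zr (C n) (X n) := by linarith
  have hL := qb5_L hrn.ne' (χ n)
  have hC := h.C0 n
  have hX := h.hX n
  have hdd := h.d n
  have hma : 0 < ma := by unfold ma; norm_num
  have hmb : 0 < mb := by unfold mb; norm_num
  have hmm : ma ≤ mb := by unfold ma mb; norm_num
  have hq : 0 ≤ zr (C n) (X n) * zk (C n) (X n) * Real.sin (χ n) := by positivity
  have hq1 : 0 ≤ ma * (zr (C n) (X n) * zk (C n) (X n) * Real.sin (χ n)) := by positivity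
  have hq2 : 0 ≤ (mb - ma) * (zr (C n) (X n) * zk (C n) (X n) * Real.sin (χ n)) :=
    mul_nonneg (by linarith) hq
  have f1 : mb * zr (C n) (X n) * zk (C n) (X n) * Real.sin (χ n) =
      mb * (zr (C n) (X n) * zk (C n) (X n) * Real.sin (χ n)) := by ring
  have f2 : ma * zr (C n) (X n) * zk (C n) (X n) * Real.sin (χ n) =
      ma * (zr (C n) (X n) * zk (C n) (X n) * Real.sin (χ n)) := by ring
  rw [f1] at b3
  rw [f1, f2] at hL
  have i3 : (z3 (C n) (X n) (χ n)).1 = ((zr (C n) (X n) : ℝ) : ℂ) := rfl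
  have i2 : (z2 (C n) (X n) (χ n)).1 = ((zr (C n) (X n) : ℝ) : ℂ) := rfl
  generalize zr (C n) (X n) * zk (C n) (X n) * Real.sin (χ n) = W at *
  generalize z3 (C n) (X n) (χ n) = y3 at *
  generalize z2 (C n) (X n) (χ n) = y2 at *
  have hL3 : 0 < kL y3 := by
    rw [hL.1]
    linarith
  have hL23 : |kL y2| ≤ kL y3 := by
    rw [hL.1, hL.2, abs_le]
    constructor <;> linarith
  have hσ := hB y3 y2 (s n) (s' n) (zr (C n) (X n)) (by rw [b9.1]; exact h30n)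
    (by rw [b9.2]; exact h20n) b1.le b2.le i3 i2 (by rw [hdd]; linarith) hL3
    (by rw [hL.1]; linarith) hL23 b4.le hX b5.le
  have n3 : y3.1 ≠ 0 := by
    rw [i3]
    exact_mod_cast hrn.ne'
  have g3 : kh' y3 < 0 := by rw [b9.1]; exact h30n
  have hR0 : kR y3 (s n) ≠ 0 := by
    rw [← norm_kX g3 n3]
    linarith
  have hder := (kep_gen g3 n3 hR0).2.2.2.1.unique (qb5_hd y3 (s n))
  have : 0 ≤ qb5_dR y3 (s n) := by
    rw [← hder]
    exact mul_nonneg (Real.sqrt_nonneg _) hσ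
  linarith

theorem qb5_false (h : qb5_Seq C X χ s s') {u v : ℝ} (hu : Tendsto s atTop (𝓝 u))
    (hv : Tendsto s' atTop (𝓝 v)) : False := by
  obtain ⟨e30, e20, n30, n20, h30n, h20n⟩ := qb5_h
  have g30 : kh' y30 < 0 := by rw [e30]; exact h30n
  have g20 : kh' y20 < 0 := by rw [e20]; exact h20n
  have t3 := qb5_z3 h
  have t2 := qb5_z2 h
  have p3 : Tendsto (fun n => (z3 (C n) (X n) (χ n), s n)) atTop (𝓝 (y30, u)) :=
    t3.prodMk_nhds hu
  have p2 : Tendsto (fun n => (z2 (C n) (X n) (χ n), s' n)) atTop (𝓝 (y20, v)) :=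
    t2.prodMk_nhds hv
  have x3' := (qb5_cX n30 g30 u).tendsto.comp p3
  have x3 : Tendsto (fun n => kX (z3 (C n) (X n) (χ n)) (s n)) atTop (𝓝 (kX y30 u)) := x3'
  have x2' := (qb5_cX n20 g20 v).tendsto.comp p2
  have x2 : Tendsto (fun n => kX (z2 (C n) (X n) (χ n)) (s' n)) atTop (𝓝 (kX y20 v)) := x2'
  have T3' := (qb5_cT n30 g30 u).tendsto.comp p3
  have T3 : Tendsto (fun n => kT (z3 (C n) (X n) (χ n)) (s n)) atTop (𝓝 (kT y30 u)) := T3'
  have T2' := (qb5_cT n20 g20 v).tendsto.comp p2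
  have T2 : Tendsto (fun n => kT (z2 (C n) (X n) (χ n)) (s' n)) atTop (𝓝 (kT y20 v)) := T2'
  have hXl : kX y30 u = kX y20 v := by
    refine tendsto_nhds_unique x3 (x2.congr fun n => ?_)
    exact (h.hX n).symm
  have hTl : kT y30 u = kT y20 v := by
    refine tendsto_nhds_unique T3 (T2.congr fun n => ?_)
    exact (h.hT n).symm
  have hRl : kR y30 u = kR y20 v := by
    rw [← norm_kX g30 n30, ← norm_kX g20 n20, hXl]
  have hu0 : 0 ≤ u := ge_of_tendsto' hu fun n => (h.s0 n).le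
  have hu1 : u ≤ 2 * Real.pi := le_of_tendsto' hu fun n => (h.s1 n).le
  have hv0 : 0 ≤ v := ge_of_tendsto hv ((qb5_s' h).mono fun n hn => hn.1.le)
  have hv1 : v ≤ 4 * Real.pi := le_of_tendsto hv ((qb5_s' h).mono fun n hn => hn.2.le)
  have m2 := kT_strictMono' g20 n20
  have q2 := kT_per y20 0 2
  rw [qb5_T0, qb5_per2 e20] at q2
  have q2' : kT y20 (4 * Real.pi) = 2 * Real.pi := by
    have e2 : (0 : ℝ) + 2 * Real.pi * ((2 : ℤ) : ℝ) = 4 * Real.pi := by push_cast; ring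
    rw [e2] at q2
    rw [q2]
    push_cast
    ring
  rcases hu0.eq_or_lt with hz | hz
  · rw [← hz, qb5_T0] at hTl
    have hv' : v = 0 := by
      apply m2.injective
      rw [← hTl, qb5_T0]
    rw [← hz] at hu
    rw [hv'] at hv
    exact qb5_start h hu hv
  rcases hu1.eq_or_lt with hz' | hz'
  · have q3 := kT_per y30 0 1
    rw [qb5_T0, qb5_per3 e30] at q3
    have q3' : kT y30 (2 * Real.pi) = 2 * Real.pi := by
      have e1 : (0 : ℝ) + 2 * Real.pi * ((1 : ℤ) : ℝ) = 2 * Real.pi := by push_cast; ring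
      rw [e1] at q3
      rw [q3]
    have hv' : v = 4 * Real.pi := by
      apply m2.injective
      rw [← hTl, hz', q3', q2']
    rw [hz'] at hu
    rw [hv'] at hv
    exact qb5_end h hu hv
  · obtain ⟨r0, r1⟩ := rad_free u v hz hz' hv0 hv1 hRl hTl
    exact qb5_int h hu r0 r1

theorem base_core_pr : ∃ c0 : ℝ, 0 < c0 ∧ ∀ C, 0 < C → C < c0 → ∀ X : Pl, ‖X‖ ≤ c0 →
    ∀ χ, 0 ≤ χ → χ ≤ c0 → kh' (z3 C X χ) - kh' (z2 C X χ) = d0 → ∀ s s', 0 < s →
      s < 2 * Real.pi → kX (z3 C X χ) s = kX (z2 C X χ) s' →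
      kT (z3 C X χ) s ≠ kT (z2 C X χ) s' := by
  by_contra hcon
  push Not at hcon
  have h1 : ∀ n : ℕ, ∃ (C : ℝ) (X : Pl) (χ s s' : ℝ), 0 < C ∧ C < 1 / ((n : ℝ) + 1) ∧
      ‖X‖ ≤ 1 / ((n : ℝ) + 1) ∧ 0 ≤ χ ∧ χ ≤ 1 / ((n : ℝ) + 1) ∧
      kh' (z3 C X χ) - kh' (z2 C X χ) = d0 ∧ 0 < s ∧ s < 2 * Real.pi ∧
      kX (z3 C X χ) s = kX (z2 C X χ) s' ∧ kT (z3 C X χ) s = kT (z2 C X χ) s' := by
    intro n
    obtain ⟨C, a1, a2, X, a3, χ, a4, a5, a6, s, s', a7, a8, a9, a10⟩ :=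
      hcon (1 / ((n : ℝ) + 1)) (by positivity)
    exact ⟨C, X, χ, s, s', a1, a2, a3, a4, a5, a6, a7, a8, a9, a10⟩
  choose C X χ s s' a1 a2 a3 a4 a5 a6 a7 a8 a9 a10 using h1
  have hz : Tendsto (fun n : ℕ => 1 / ((n : ℝ) + 1)) atTop (𝓝 0) :=
    tendsto_one_div_add_atTop_nhds_zero_nat
  have tC : Tendsto C atTop (𝓝 0) :=
    squeeze_zero (fun n => (a1 n).le) (fun n => (a2 n).le) hz
  have tX : Tendsto X atTop (𝓝 0) := squeeze_zero_norm a3 hz
  have tχ : Tendsto χ atTop (𝓝 0) := squeeze_zero a4 a5 hz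
  have hS : qb5_Seq C X χ s s' :=
    ⟨a1, a4, tC.prodMk_nhds (tX.prodMk_nhds tχ), a6, a7, a8, a9, a10⟩
  -- a convergent subsequence
  obtain ⟨N, hN⟩ := eventually_atTop.1 (qb5_s' hS)
  have hcomp : IsCompact (Icc (0 : ℝ) (2 * Real.pi) ×ˢ Icc (0 : ℝ) (4 * Real.pi)) :=
    isCompact_Icc.prod isCompact_Icc
  obtain ⟨w, -, φ, hφ, hlim⟩ := hcomp.tendsto_subseq (x := fun n => (s (n + N), s' (n + N)))
    (fun n => ⟨⟨(a7 _).le, (a8 _).le⟩, (hN (n + N) (Nat.le_add_left N n)).1.le,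
      (hN (n + N) (Nat.le_add_left N n)).2.le⟩)
  have hsub : Tendsto (fun n => φ n + N) atTop atTop :=
    (tendsto_add_atTop_nat N).comp hφ.tendsto_atTop
  have hS' : qb5_Seq (fun n => C (φ n + N)) (fun n => X (φ n + N)) (fun n => χ (φ n + N))
      (fun n => s (φ n + N)) (fun n => s' (φ n + N)) :=
    ⟨fun n => a1 _, fun n => a4 _, hS.lim.comp hsub, fun n => a6 _, fun n => a7 _,
      fun n => a8 _, fun n => a9 _, fun n => a10 _⟩
  exact qb5_false hS' ((continuous_fst.tendsto w).comp hlim)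
    ((continuous_snd.tendsto w).comp hlim)

end

end Pool.Agent.HS

namespace Pool.Agent.HS
open Set Filter Topology
open scoped ContDiff

theorem base_core : ∃ c0 : ℝ, 0 < c0 ∧ ∀ C, 0 < C → C < c0 → ∀ X : Pl, ‖X‖ ≤ c0 →
    ∀ χ, 0 ≤ χ → χ ≤ c0 → kh' (z3 C X χ) - kh' (z2 C X χ) = d0 → ∀ s s', 0 < s →
      s < 2 * Real.pi → kX (z3 C X χ) s = kX (z2 C X χ) s' →
      kT (z3 C X χ) s ≠ kT (z2 C X χ) s' :=
  @Pool.Agent.HS.base_core_pr

end Pool.Agent.HS
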