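import Pool.Agent.Lib_helper60.HSF.D_WQ
import Pool.Agent.Lib_helper60.HSF.Z_QB5
import Pool.Agent.Lib_helper60.HSF.K_KA1
import Pool.Agent.Lib_helper60.HSF.K_KB2
import Pool.Agent.Lib_helper60.HSF.Z_QA1
import Pool.Agent.Lib_helper60.HSF.Z_LF3
import Pool.Agent.Lib_helper60.HSF.K_KC2
import Pool.Agent.Lib_helper60.HSF.Z_ZA1
import Pool.Agent.Lib_helper60.HSF.K_KL2
import Pool.Agent.Lib_helper60.HSF.K_KL1

/-!
# Project HS, part Q, block QB6: `base_free` from `base_core`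
-/

namespace Pool.Agent.HS

noncomputable section

open Set Filter Topology
open scoped ContDiff

theorem qb6_kT_zero (y : KS) : kT y 0 = 0 := by
  simp [kT]

theorem qb6_h20_neg : h20 < 0 := by
  unfold h20
  have : (0:ℝ) < (2:ℝ) ^ (-(1/3) : ℝ) := Real.rpow_pos_of_pos (by norm_num) _
  linarith

/-- the energies of a base arc -/
theorem qb6_en {C : ℝ} (hC : 0 < C ∧ C ≤ 1) {X : Pl} (hX : X ∈ CD C) {χ : ℝ}
    (hd : kh' (z3 C X χ) - kh' (z2 C X χ) = d0) :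
    kh' (z3 C X χ) = h30 ∧ kh' (z2 C X χ) = h20 := by
  have h1 := (cd_en hC hX χ).1
  unfold E0 d0 at *
  unfold ma mb at *
  constructor <;> linarith

/-- the periods -/
theorem qb6_per3 {y : KS} (h : kh' y = h30) : kPer y = 2 * Real.pi := by
  unfold kPer kA
  rw [h]
  have : (-1 / (2 * h30) : ℝ) = 1 := by unfold h30; norm_num
  rw [this]; simp

theorem qb6_per2 {y : KS} (h : kh' y = h20) : kPer y = Real.pi := by
  unfold kPer kA
  rw [h]
  have hpos : (0:ℝ) < (2:ℝ) ^ (-(1/3) : ℝ) := Real.rpow_pos_of_pos (by norm_num) _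
  have e1 : (-1 / (2 * h20) : ℝ) = (2:ℝ) ^ (-(2/3) : ℝ) := by
    unfold h20
    have e2 : (2:ℝ) ^ (-(2/3) : ℝ) * (2 * (2:ℝ) ^ (-(1/3) : ℝ)) = 1 := by
      calc (2:ℝ) ^ (-(2/3) : ℝ) * (2 * (2:ℝ) ^ (-(1/3) : ℝ))
          = 2 * ((2:ℝ) ^ (-(2/3) : ℝ) * (2:ℝ) ^ (-(1/3) : ℝ)) := by ring
        _ = 2 * (2:ℝ) ^ ((-(2/3) : ℝ) + (-(1/3) : ℝ)) := by
            rw [Real.rpow_add (by norm_num)]
        _ = 2 * (2:ℝ) ^ (-1 : ℝ) := by norm_num
        _ = 1 := by rw [Real.rpow_neg_one]; norm_num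
    rw [div_eq_iff (by nlinarith)]
    linarith
  rw [e1, Real.sqrt_eq_rpow, ← Real.rpow_mul (by norm_num), mul_assoc,
    ← Real.rpow_add (by norm_num)]
  have : (-(2/3) : ℝ) + (-(2/3)) * (1/2) = -1 := by norm_num
  rw [this, Real.rpow_neg_one]
  ring

theorem qb6_T0 (i : Fin 2) {y : St} (h : kh' (pP i y) < 0) (h0 : (pP i y).1 ≠ 0) :
    Real.pi / lzw i (toLC i 0 y) = 2 * Real.pi * Real.sqrt (kA (pP i y)) := by
  rw [(lz_w i h h0).1]
  have : 0 < Real.sqrt (kA (pP i y)) := Real.sqrt_pos.2 (kA_pos h)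
  field_simp

theorem base_free_pr : ∃ c0 C0 : ℝ, 0 < c0 ∧ 0 < C0 ∧ ∀ C, 0 < C → C < C0 → ∀ X : Pl, ‖X‖ ≤ c0 →
    ∀ χ, 0 ≤ χ → χ ≤ c0 → kh' (z3 C X χ) - kh' (z2 C X χ) = d0 → ∀ i, LQ C i X χ ≠ 0 →
      ∀ τ ∈ Ioo 0 (T0 C i X χ 1 2), lcX (Zd i (limD C X χ) τ) ≠ 0 := by
  obtain ⟨c1, hc1, hcore⟩ := base_core
  obtain ⟨R, L, hR, hR1, -, hkap⟩ := kap_unif
  refine ⟨min c1 R, min c1 R, lt_min hc1 hR, lt_min hc1 hR, ?_⟩
  intro C hC hC0 X hX χ hχ hχ0 hd i hQ τ hτ hz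
  have hCR : C ≤ R := hC0.le.trans (min_le_right _ _)
  have hCc : C < c1 := lt_of_lt_of_le hC0 (min_le_left _ _)
  have hC1 : 0 < C ∧ C ≤ 1 := ⟨hC, hCR.trans hR1⟩
  have hXCD : X ∈ CD C := (hkap C hC hCR).2 (by
    rw [mem_closedBall_zero_iff]; exact hX.trans (min_le_right _ _))
  have hcore' := hcore C hC hCc X (hX.trans (min_le_left _ _)) χ hχ
    (hχ0.trans (min_le_left _ _)) hd
  obtain ⟨e3, e2⟩ := qb6_en hC1 hXCD hd
  have h3 : kh' (z3 C X χ) < 0 := by rw [e3]; unfold h30; norm_num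
  have h2 : kh' (z2 C X χ) < 0 := by rw [e2]; exact qb6_h20_neg
  have hr : 0 < zr C X := (cd_facts hC1 hXCD).1
  have h30' : (z3 C X χ).1 ≠ 0 := by
    show ((zr C X : ℝ) : ℂ) ≠ 0
    exact_mod_cast hr.ne'
  have h20' : (z2 C X χ).1 ≠ 0 := by
    show ((zr C X : ℝ) : ℂ) ≠ 0
    exact_mod_cast hr.ne'
  obtain ⟨p3e, p2e⟩ := z_p C X χ
  have hP3 := qb6_per3 e3
  have hP2 := qb6_per2 e2
  fin_cases i
  · -- body 3 is regularized
    have ePP : pP 0 (colD (limD C X χ)) = z3 C X χ := by simp [pP, p3e]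
    have ePQ : pQ 0 (colD (limD C X χ)) = z2 C X χ := by simp [pQ, p2e]
    have hQ' : kL (z2 C X χ) ≠ 0 := by simpa [LQ] using hQ
    have hE : Ell (pQ 0 (colD (limD C X χ))) := by rw [ePQ]; exact ⟨h2, hQ'⟩
    have hneg : kh' (pP 0 (colD (limD C X χ))) < 0 := by rw [ePP]; exact h3
    have hne : (pP 0 (colD (limD C X χ))).1 ≠ 0 := by rw [ePP]; exact h30'
    have hT : T0 C 0 X χ 1 2 = 2 * Real.pi * Real.sqrt (kA (z3 C X χ)) := by
      have := qb6_T0 0 hneg hne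
      rw [ePP] at this
      unfold T0
      rw [this]
      simp
    have hs := Real.sqrt_pos.2 (kA_pos h3)
    have hτ' : 0 < τ ∧ τ < 2 * Real.pi * Real.sqrt (kA (z3 C X χ)) := by
      have h' := hτ
      change τ ∈ Ioo 0 (T0 C 0 X χ 1 2) at h'
      rw [hT] at h'
      exact h'
    have hx := lc_xi 0 hneg hne hE τ
    rw [ePP, ePQ] at hx
    change lcX (Zd 0 (limD C X χ) τ) = 0 at hz
    rw [show Zd 0 (limD C X χ) τ = lz0 0 τ (toLC 0 0 (colD (limD C X χ))) from rfl, hx] at hz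
    set s := τ / Real.sqrt (kA (z3 C X χ)) with hsdef
    have hs0 : 0 < s := div_pos hτ'.1 hs
    have hs1 : s < 2 * Real.pi := by rw [hsdef, div_lt_iff₀ hs]; exact hτ'.2
    refine hcore' s (kS (z2 C X χ) (kT (z3 C X χ) s)) hs0 hs1 (sub_eq_zero.1 hz) ?_
    rw [kT_kS h2 h20']
  · -- body 2 is regularized
    have ePP : pP 1 (colD (limD C X χ)) = z2 C X χ := by simp [pP, p2e]
    have ePQ : pQ 1 (colD (limD C X χ)) = z3 C X χ := by simp [pQ, p3e]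
    have hQ' : kL (z3 C X χ) ≠ 0 := by simpa [LQ] using hQ
    have hE : Ell (pQ 1 (colD (limD C X χ))) := by rw [ePQ]; exact ⟨h3, hQ'⟩
    have hneg : kh' (pP 1 (colD (limD C X χ))) < 0 := by rw [ePP]; exact h2
    have hne : (pP 1 (colD (limD C X χ))).1 ≠ 0 := by rw [ePP]; exact h20'
    have hT : T0 C 1 X χ 1 2 = 4 * Real.pi * Real.sqrt (kA (z2 C X χ)) := by
      have := qb6_T0 1 hneg hne
      rw [ePP] at this
      unfold T0
      rw [this]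
      simp
      ring
    have hs := Real.sqrt_pos.2 (kA_pos h2)
    have hτ' : 0 < τ ∧ τ < 4 * Real.pi * Real.sqrt (kA (z2 C X χ)) := by
      have h' := hτ
      change τ ∈ Ioo 0 (T0 C 1 X χ 1 2) at h'
      rw [hT] at h'
      exact h'
    have hx := lc_xi 1 hneg hne hE τ
    rw [ePP, ePQ] at hx
    change lcX (Zd 1 (limD C X χ) τ) = 0 at hz
    rw [show Zd 1 (limD C X χ) τ = lz0 1 τ (toLC 1 0 (colD (limD C X χ))) from rfl, hx] at hz
    set s' := τ / Real.sqrt (kA (z2 C X χ)) with hsdef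
    have hs0 : 0 < s' := div_pos hτ'.1 hs
    have hs1 : s' < 4 * Real.pi := by rw [hsdef, div_lt_iff₀ hs]; exact hτ'.2
    have hm2 := kT_strictMono' h2 h20'
    have hm3 := kT_strictMono' h3 h30'
    have b0 : 0 < kT (z2 C X χ) s' := by
      have := hm2 hs0
      rwa [qb6_kT_zero] at this
    have b1 : kT (z2 C X χ) s' < 2 * Real.pi := by
      have h4 := hm2 hs1
      have h5 := kT_per (z2 C X χ) 0 2
      rw [qb6_kT_zero, hP2] at h5
      have h6 : (0:ℝ) + 2 * Real.pi * ((2:ℤ):ℝ) = 4 * Real.pi := by push_cast; ring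
      rw [h6] at h5
      rw [h5] at h4
      push_cast at h4
      linarith
    set s := kS (z3 C X χ) (kT (z2 C X χ) s') with hsd
    have hts : kT (z3 C X χ) s = kT (z2 C X χ) s' := kT_kS h3 h30' _
    have s0 : 0 < s := by
      rw [← hm3.lt_iff_lt, qb6_kT_zero, hts]; exact b0
    have s1 : s < 2 * Real.pi := by
      rw [← hm3.lt_iff_lt, hts]
      have h5 := kT_per (z3 C X χ) 0 1
      rw [qb6_kT_zero, hP3] at h5
      have h6 : (0:ℝ) + 2 * Real.pi * ((1:ℤ):ℝ) = 2 * Real.pi := by push_cast; ring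
      rw [h6] at h5
      rw [h5]
      linarith
    exact hcore' s s' s0 s1 (sub_eq_zero.1 hz).symm hts

end

end Pool.Agent.HS

namespace Pool.Agent.HS
open Set Filter Topology Classical

theorem base_free : ∃ c0 C0 : ℝ, 0 < c0 ∧ 0 < C0 ∧ ∀ C, 0 < C → C < C0 → ∀ X : Pl, ‖X‖ ≤ c0 →
    ∀ χ, 0 ≤ χ → χ ≤ c0 → kh' (z3 C X χ) - kh' (z2 C X χ) = d0 → ∀ i, LQ C i X χ ≠ 0 →
      ∀ τ ∈ Ioo 0 (T0 C i X χ 1 2), lcX (Zd i (limD C X χ) τ) ≠ 0 :=
  @Pool.Agent.HS.base_free_pr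

end Pool.Agent.HS
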