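import Pool.Agent.Lib_helper60.HSF.D_WQ
import Pool.Agent.Lib_helper60.HSF.Z_ZD2
import Pool.Agent.Lib_helper60.HSF.K_KA1
import Pool.Agent.Lib_helper60.HSF.Z_QA1
import Pool.Agent.Lib_helper60.HSF.K_KB2
import Pool.Agent.Lib_helper60.HSF.Z_ZA1
import Pool.Agent.Lib_helper60.HSF.Z_ZM2
import Pool.Agent.Lib_helper60.HSF.K_KL2
import Pool.Agent.Lib_helper60.HSF.K_KC2
import Pool.Agent.Lib_helper60.HSF.Z_QB5
import Pool.Agent.Lib_helper60.HSF.Z_ZC
import Pool.Agent.Lib_helper60.HSF.K_KL1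

/-!
# Part Q, block QB7: reflection, base arcs near the fourth vertex
-/

namespace Pool.Agent.HS

noncomputable section

open Set Filter Topology
open scoped ContDiff

theorem mir_mir_pr (X : Pl) : mir (mir X) = X ∧ ‖mir X - Xcp‖ ≤ 5 * ‖X‖ ∧
    ‖mir X‖ ≤ 5 * ‖X - Xcp‖ := by
  refine ⟨?_, ?_, ?_⟩
  · unfold mir
    refine Prod.ext rfl ?_
    show -1 - 4 * X.1 - (-1 - 4 * X.1 - X.2) = X.2
    ring
  · have h1 : |X.1| ≤ ‖X‖ := norm_fst_le X
    have h2 : |X.2| ≤ ‖X‖ := norm_snd_le X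
    have h0 : 0 ≤ ‖X‖ := norm_nonneg X
    refine max_le ?_ ?_
    · show |X.1 - 0| ≤ _
      rw [sub_zero]; linarith
    · show |-1 - 4 * X.1 - X.2 - -1| ≤ _
      rw [abs_le] at h1 h2 ⊢
      constructor <;> linarith
  · have h1 : |X.1 - 0| ≤ ‖X - Xcp‖ := norm_fst_le (X - Xcp)
    have h2 : |X.2 - -1| ≤ ‖X - Xcp‖ := norm_snd_le (X - Xcp)
    have h0 : 0 ≤ ‖X - Xcp‖ := norm_nonneg _
    rw [sub_zero] at h1
    refine max_le ?_ ?_
    · show |X.1| ≤ _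
      linarith
    · show |-1 - 4 * X.1 - X.2| ≤ _
      rw [abs_le] at h1 h2 ⊢
      constructor <;> linarith

theorem qb7_zr (C : ℝ) (X : Pl) : zr C (mir X) = zr C X := rfl

theorem qb7_p (C : ℝ) (X : Pl) : (chart C (mir X)).2 = -(chart C X).2 := by
  show C * (1 / 2 + 2 * X.1 + (-1 - 4 * X.1 - X.2)) / rh = -(C * (1 / 2 + 2 * X.1 + X.2) / rh)
  ring

theorem qb7_zk (C : ℝ) (X : Pl) : zk C (mir X) = zk C X := by
  have h1 : (chart C (mir X)).1 = (chart C X).1 := rfl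
  unfold zk kap0
  rw [h1, qb7_p]
  ring_nf

theorem qb7_zU (C : ℝ) (X : Pl) : zU C (mir X) = -(starRingEnd ℂ) (zU C X) := by
  have h1 : zϖ (mir X) = -zϖ X := by
    show 1 / 2 + 2 * X.1 + (-1 - 4 * X.1 - X.2) = -(1 / 2 + 2 * X.1 + X.2)
    ring
  unfold zU
  rw [h1, qb7_zr]
  simp only [map_add, map_mul, Complex.conj_ofReal, Complex.conj_I]
  push_cast
  ring

theorem qb7_zw (C : ℝ) (X : Pl) (χ : ℝ) :
    zw C (mir X) (Real.pi - χ) = -(starRingEnd ℂ) (zw C X χ) := by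
  unfold zw
  rw [qb7_zk, map_mul, Complex.conj_ofReal, ← Complex.exp_conj, map_mul, Complex.conj_ofReal,
    Complex.conj_I]
  have e : ((Real.pi - χ : ℝ) : ℂ) * Complex.I = Real.pi * Complex.I + (χ : ℂ) * -Complex.I := by
    push_cast; ring
  rw [e, Complex.exp_add, Complex.exp_pi_mul_I]
  ring

theorem mir_z_pr (C : ℝ) (X : Pl) (χ : ℝ) :
    z3 C (mir X) (Real.pi - χ) = ((z3 C X χ).1, -(starRingEnd ℂ) (z3 C X χ).2) ∧
    z2 C (mir X) (Real.pi - χ) = ((z2 C X χ).1, -(starRingEnd ℂ) (z2 C X χ).2) ∧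
    zr C (mir X) = zr C X ∧ zk C (mir X) = zk C X := by
  refine ⟨?_, ?_, qb7_zr C X, qb7_zk C X⟩
  · refine Prod.ext (by rfl) ?_
    show (C : ℂ) * zU C (mir X) + (mb : ℂ) * zw C (mir X) (Real.pi - χ) =
      -(starRingEnd ℂ) ((C : ℂ) * zU C X + (mb : ℂ) * zw C X χ)
    rw [qb7_zU, qb7_zw]
    simp only [map_add, map_mul, Complex.conj_ofReal]
    ring
  · refine Prod.ext (by rfl) ?_
    show (C : ℂ) * zU C (mir X) - (ma : ℂ) * zw C (mir X) (Real.pi - χ) =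
      -(starRingEnd ℂ) ((C : ℂ) * zU C X - (ma : ℂ) * zw C X χ)
    rw [qb7_zU, qb7_zw]
    simp only [map_sub, map_mul, Complex.conj_ofReal]
    ring

theorem mir_k_pr (y : KS) (r : ℝ) (hy : y.1 = (r : ℂ)) (s : ℝ) :
    kX (y.1, -(starRingEnd ℂ) y.2) s = (starRingEnd ℂ) (kX y (-s)) ∧
    kT (y.1, -(starRingEnd ℂ) y.2) s = -kT y (-s) ∧ kL (y.1, -(starRingEnd ℂ) y.2) = kL y ∧
    kh' (y.1, -(starRingEnd ℂ) y.2) = kh' y := by
  have hh : kh' (y.1, -(starRingEnd ℂ) y.2) = kh' y := by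
    unfold kh'
    simp
  have hA : kA (y.1, -(starRingEnd ℂ) y.2) = kA y := by
    unfold kA
    rw [hh]
  have hr : kr (y.1, -(starRingEnd ℂ) y.2) = kr y := rfl
  have hσ : kσ (y.1, -(starRingEnd ℂ) y.2) = -kσ y := by
    unfold kσ
    simp only [hy]
    simp
  have hL : kL (y.1, -(starRingEnd ℂ) y.2) = kL y := by
    unfold kL
    simp only [hy]
    simp
  refine ⟨?_, ?_, hL, hh⟩
  · unfold kX
    rw [hA, hr, hσ, Real.cos_neg, Real.sin_neg]
    simp only [map_add, map_mul, Complex.conj_ofReal, hy]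
    push_cast
    ring
  · unfold kT
    rw [hA, hr, hσ, Real.cos_neg, Real.sin_neg]
    ring

/-- at the base resonance, `T3 = 2 T2` -/
theorem qb7_per {y3 y2 : KS} (h3 : kh' y3 = h30) (h2 : kh' y2 = h20) :
    kPer y3 = 2 * kPer y2 := by
  have e3 : kA y3 = 1 := by
    unfold kA
    rw [h3]
    unfold h30
    norm_num
  have hbe : 0 < be := Real.rpow_pos_of_pos (by norm_num) _
  have e2 : kA y2 = 1 / be := by
    unfold kA
    rw [h2, h20_be]
    unfold h30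
    field_simp
    try norm_num
  have e4 : kA y2 * Real.sqrt (kA y2) = 1 / 2 := by
    have hp : 0 < kA y2 := by rw [e2]; positivity
    have h4 : (kA y2 * Real.sqrt (kA y2)) ^ 2 = (1 / 2) ^ 2 := by
      rw [mul_pow, Real.sq_sqrt hp.le, e2]
      have := be_cube
      field_simp
      linarith
    have h5 : 0 ≤ kA y2 * Real.sqrt (kA y2) := by positivity
    exact (pow_left_inj₀ h5 (by norm_num) (by norm_num)).1 h4
  unfold kPer
  rw [e3, Real.sqrt_one, mul_assoc _ (kA y2), e4]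
  ring

theorem base_free'_pr : ∃ c0 C0 : ℝ, 0 < c0 ∧ 0 < C0 ∧ ∀ C, 0 < C → C < C0 → ∀ X : Pl,
    ‖X - Xcp‖ ≤ c0 → ∀ χ, Real.pi - c0 ≤ χ → χ ≤ Real.pi →
    kh' (z3 C X χ) - kh' (z2 C X χ) = d0 → ∀ i, LQ C i X χ ≠ 0 →
      ∀ τ ∈ Ioo 0 (T0 C i X χ 1 2), lcX (Zd i (limD C X χ) τ) ≠ 0 := by
  obtain ⟨c0, hc0, hcore⟩ := base_core
  -- the centre data are admissible
  obtain ⟨δ, hδ, hCD⟩ : ∃ δ : ℝ, 0 < δ ∧ ∀ C, 0 < C → C < δ → ∀ X : Pl, ‖X - Xcp‖ < δ →
      X ∈ CD C := by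
    have h1 : ((0 : ℝ), Xcp, Real.pi / 2) ∈ ZS :=
      zS_zero Xcp (χ := Real.pi / 2) (by rw [Real.sin_pi_div_two]; exact one_ne_zero)
    obtain ⟨δ, hδ, hball⟩ := Metric.isOpen_iff.1 zS_open _ h1
    refine ⟨δ, hδ, fun C hC hCδ X hX => ?_⟩
    have h2 : ((C : ℝ), X, Real.pi / 2) ∈ ZS := by
      refine hball ?_
      rw [Metric.mem_ball, dist_eq_norm]
      refine max_lt ?_ (max_lt ?_ ?_)
      · show |C - 0| < δ
        rw [sub_zero, abs_of_pos hC]; exact hCδ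
      · exact hX
      · show |Real.pi / 2 - Real.pi / 2| < δ
        rw [sub_self, abs_zero]; exact hδ
    have h3 : ZG C X (Real.pi / 2) := h2
    exact ⟨h3.r.1.le, h3.r.2.le, h3.p.le, h3.k.le⟩
  refine ⟨min (c0 / 5) (δ / 2), min (min c0 1) (δ / 2), by positivity, by positivity, ?_⟩
  intro C hC hC0 X hX χ hχ1 hχ2 hen i hQ τ hτ h0
  have hCc : C < c0 := hC0.trans_le ((min_le_left _ _).trans (min_le_left _ _))
  have hC1 : C ≤ 1 := (hC0.trans_le ((min_le_left _ _).trans (min_le_right _ _))).le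
  have hCδ : C < δ := by
    have := hC0.trans_le (min_le_right _ _)
    linarith
  have hXδ : ‖X - Xcp‖ < δ := by
    have := hX.trans (min_le_right _ _)
    linarith
  have hXc : ‖X - Xcp‖ ≤ c0 / 5 := hX.trans (min_le_left _ _)
  have hχc : Real.pi - c0 ≤ χ := by
    have := min_le_left (c0 / 5) (δ / 2)
    linarith
  have hXCD := hCD C hC hCδ X hXδ
  obtain ⟨hr, -, -⟩ := cd_facts ⟨hC, hC1⟩ hXCD
  obtain ⟨en1, -, -⟩ := cd_en ⟨hC, hC1⟩ hXCD χ
  have hm : ma + mb = 1 := by unfold ma mb; norm_num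
  have h3 : kh' (z3 C X χ) = h30 := by
    have e1 : kh' (z3 C X χ) = E0 + mb * d0 := by
      rw [← en1, ← hen]
      linear_combination (kh' (z3 C X χ)) * (-hm)
    rw [e1]
    unfold E0 d0
    linear_combination h30 * hm
  have h2 : kh' (z2 C X χ) = h20 := by
    have e1 : kh' (z2 C X χ) = kh' (z3 C X χ) - d0 := by linarith
    rw [e1, h3]
    unfold d0
    ring
  have h30n : h30 < 0 := by unfold h30; norm_num
  have h20n : h20 < 0 := by
    unfold h20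
    have : (0 : ℝ) < 2 ^ (-(1 / 3) : ℝ) := Real.rpow_pos_of_pos (by norm_num) _
    linarith
  have h3n : kh' (z3 C X χ) < 0 := by rw [h3]; exact h30n
  have h2n : kh' (z2 C X χ) < 0 := by rw [h2]; exact h20n
  have hrc : ((zr C X : ℝ) : ℂ) ≠ 0 := by exact_mod_cast hr.ne'
  have h31 : (z3 C X χ).1 ≠ 0 := hrc
  have h21 : (z2 C X χ).1 ≠ 0 := hrc
  have hper : kPer (z3 C X χ) = 2 * kPer (z2 C X χ) := qb7_per h3 h2
  have hT0 : ∀ y : KS, kT y 0 = 0 := fun y => by unfold kT; simp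
  -- a common point at the same time
  obtain ⟨s, s', hs, hs2, heX, heT⟩ : ∃ s s' : ℝ, 0 < s ∧ s < 2 * Real.pi ∧
      kX (z3 C X χ) s = kX (z2 C X χ) s' ∧ kT (z3 C X χ) s = kT (z2 C X χ) s' := by
    obtain ⟨p3z, p2z⟩ := z_p C X χ
    obtain ⟨y, hy⟩ : ∃ y, y = colD (limD C X χ) := ⟨_, rfl⟩
    rw [← hy] at p3z p2z
    have hZ : lcX (lz0 i τ (toLC i 0 y)) = 0 := by
      rw [hy]; exact h0
    by_cases hi : i = 0
    · subst hi
      have hP : pP 0 y = z3 C X χ := p3z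
      have hQ' : pQ 0 y = z2 C X χ := p2z
      have hQE : Ell (pQ 0 y) := by rw [hQ']; exact ⟨h2n, hQ⟩
      have hPn : kh' (pP 0 y) < 0 := by rw [hP]; exact h3n
      have hP1 : (pP 0 y).1 ≠ 0 := by rw [hP]; exact h31
      have hxi := lc_xi 0 hPn hP1 hQE τ
      rw [hZ, hP, hQ'] at hxi
      have hA : 0 < Real.sqrt (kA (z3 C X χ)) := Real.sqrt_pos.2 (kA_pos h3n)
      refine ⟨τ / Real.sqrt (kA (z3 C X χ)), kS (z2 C X χ) (kT (z3 C X χ)
        (τ / Real.sqrt (kA (z3 C X χ)))), div_pos hτ.1 hA, ?_, ?_, ?_⟩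
      · rw [div_lt_iff₀ hA]
        have h5 := hτ.2
        unfold T0 at h5
        rw [← hy, (lz_w 0 hPn hP1).1, hP] at h5
        simp only [if_true, Nat.cast_one] at h5
        refine h5.trans_le (le_of_eq ?_)
        field_simp
      · exact sub_eq_zero.1 hxi.symm
      · exact (kT_kS h2n h21 _).symm
    · have hP : pP i y = z2 C X χ := by unfold pP; rw [if_neg hi]; exact p2z
      have hQ' : pQ i y = z3 C X χ := by unfold pQ; rw [if_neg hi]; exact p3z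
      have hQE : Ell (pQ i y) := by
        rw [hQ']
        unfold LQ at hQ
        rw [if_neg hi] at hQ
        exact ⟨h3n, hQ⟩
      have hPn : kh' (pP i y) < 0 := by rw [hP]; exact h2n
      have hP1 : (pP i y).1 ≠ 0 := by rw [hP]; exact h21
      have hxi := lc_xi i hPn hP1 hQE τ
      rw [hZ, hP, hQ'] at hxi
      have hA : 0 < Real.sqrt (kA (z2 C X χ)) := Real.sqrt_pos.2 (kA_pos h2n)
      obtain ⟨t, ht⟩ : ∃ t, t = τ / Real.sqrt (kA (z2 C X χ)) := ⟨_, rfl⟩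
      rw [← ht] at hxi
      have ht0 : 0 < t := by rw [ht]; exact div_pos hτ.1 hA
      have ht2 : t < 4 * Real.pi := by
        rw [ht, div_lt_iff₀ hA]
        have h5 := hτ.2
        unfold T0 at h5
        rw [← hy, (lz_w i hPn hP1).1, hP] at h5
        simp only [if_neg hi] at h5
        refine h5.trans_le (le_of_eq ?_)
        push_cast
        field_simp
        try ring
      have hkT := kT_kS h3n h31 (kT (z2 C X χ) t)
      have hm3 := kT_strictMono' h3n h31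
      have hm2 := kT_strictMono' h2n h21
      refine ⟨kS (z3 C X χ) (kT (z2 C X χ) t), t, ?_, ?_, ?_, hkT⟩
      · have h6 : kT (z3 C X χ) 0 < kT (z3 C X χ) (kS (z3 C X χ) (kT (z2 C X χ) t)) := by
          rw [hkT, hT0, ← hT0 (z2 C X χ)]
          exact hm2 ht0
        exact hm3.lt_iff_lt.1 h6
      · have h6 : kT (z3 C X χ) (kS (z3 C X χ) (kT (z2 C X χ) t)) <
            kT (z3 C X χ) (2 * Real.pi) := by
          rw [hkT]
          have h7 := kT_per (z3 C X χ) 0 1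
          have h8 := kT_per (z2 C X χ) 0 2
          rw [hT0, zero_add, zero_add] at h7 h8
          push_cast at h7 h8
          rw [mul_one, mul_one] at h7
          rw [h7, hper]
          have h9 : kT (z2 C X χ) t < kT (z2 C X χ) (2 * Real.pi * 2) := hm2 (by linarith)
          rw [h8] at h9
          linarith
        exact hm3.lt_iff_lt.1 h6
      · exact (sub_eq_zero.1 hxi.symm).symm
  -- reflection
  obtain ⟨X', hX'⟩ : ∃ X', X' = mir X := ⟨_, rfl⟩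
  obtain ⟨χ', hχ'⟩ : ∃ χ', χ' = Real.pi - χ := ⟨_, rfl⟩
  have hXX : mir X' = X := by rw [hX']; exact (mir_mir_pr X).1
  have hχχ : Real.pi - χ' = χ := by rw [hχ']; ring
  obtain ⟨m3, m2, -, -⟩ := mir_z_pr C X' χ'
  rw [hXX, hχχ] at m3 m2
  have hy3 : (z3 C X' χ').1 = (zr C X' : ℂ) := rfl
  have hy2 : (z2 C X' χ').1 = (zr C X' : ℂ) := rfl
  obtain ⟨kx3, kt3, -, kh3⟩ := mir_k_pr (z3 C X' χ') (zr C X') hy3 s
  obtain ⟨kx2, kt2, -, kh2⟩ := mir_k_pr (z2 C X' χ') (zr C X') hy2 s'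
  rw [← m3] at kx3 kt3 kh3
  rw [← m2] at kx2 kt2 kh2
  have hper' : kPer (z3 C X' χ') = 2 * kPer (z2 C X' χ') :=
    qb7_per (kh3.symm.trans h3) (kh2.symm.trans h2)
  have hX'n : ‖X'‖ ≤ c0 := by
    rw [hX']
    have := (mir_mir_pr X).2.2
    linarith
  have hcol := hcore C hC hCc X' hX'n χ' (by rw [hχ']; linarith) (by rw [hχ']; linarith)
    (by rw [← kh3, ← kh2]; exact hen) (-s + 2 * Real.pi * (1 : ℤ)) (-s' + 2 * Real.pi * (2 : ℤ))
    (by push_cast; linarith) (by push_cast; linarith) ?_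
  · apply hcol
    rw [kT_per, kT_per, hper']
    have e : kT (z3 C X' χ') (-s) = kT (z2 C X' χ') (-s') := by linarith
    rw [e]
    push_cast
    ring
  · have e3 := congrArg Prod.fst (kY_per (z3 C X' χ') (-s) 1)
    have e2 := congrArg Prod.fst (kY_per (z2 C X' χ') (-s') 2)
    have e : kX (z3 C X' χ') (-s) = kX (z2 C X' χ') (-s') := by
      have h6 : (starRingEnd ℂ) (kX (z3 C X' χ') (-s)) = (starRingEnd ℂ) (kX (z2 C X' χ') (-s')) := by
        rw [← kx3, ← kx2]; exact heX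
      exact (starRingEnd ℂ).injective h6
    exact e3.trans (e.trans e2.symm)

end

end Pool.Agent.HS

namespace Pool.Agent.HS
open Set Filter Topology Classical

theorem base_free' : ∃ c0 C0 : ℝ, 0 < c0 ∧ 0 < C0 ∧ ∀ C, 0 < C → C < C0 → ∀ X : Pl,
    ‖X - Xcp‖ ≤ c0 → ∀ χ, Real.pi - c0 ≤ χ → χ ≤ Real.pi →
    kh' (z3 C X χ) - kh' (z2 C X χ) = d0 → ∀ i, LQ C i X χ ≠ 0 →
      ∀ τ ∈ Ioo 0 (T0 C i X χ 1 2), lcX (Zd i (limD C X χ) τ) ≠ 0 :=
  @Pool.Agent.HS.base_free'_pr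

end Pool.Agent.HS

namespace Pool.Agent.HS
open Set Filter Topology
open scoped ContDiff

theorem mir_mir (X : Pl) : mir (mir X) = X ∧ ‖mir X - Xcp‖ ≤ 5 * ‖X‖ ∧
    ‖mir X‖ ≤ 5 * ‖X - Xcp‖ :=
  @Pool.Agent.HS.mir_mir_pr X

end Pool.Agent.HS

namespace Pool.Agent.HS
open Set Filter Topology
open scoped ContDiff

theorem mir_z (C : ℝ) (X : Pl) (χ : ℝ) :
    z3 C (mir X) (Real.pi - χ) = ((z3 C X χ).1, -(starRingEnd ℂ) (z3 C X χ).2) ∧
    z2 C (mir X) (Real.pi - χ) = ((z2 C X χ).1, -(starRingEnd ℂ) (z2 C X χ).2) ∧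
    zr C (mir X) = zr C X ∧ zk C (mir X) = zk C X :=
  @Pool.Agent.HS.mir_z_pr C X χ

end Pool.Agent.HS

namespace Pool.Agent.HS
open Set Filter Topology
open scoped ContDiff

theorem mir_k (y : KS) (r : ℝ) (hy : y.1 = (r : ℂ)) (s : ℝ) :
    kX (y.1, -(starRingEnd ℂ) y.2) s = (starRingEnd ℂ) (kX y (-s)) ∧
    kT (y.1, -(starRingEnd ℂ) y.2) s = -kT y (-s) ∧ kL (y.1, -(starRingEnd ℂ) y.2) = kL y ∧
    kh' (y.1, -(starRingEnd ℂ) y.2) = kh' y :=
  @Pool.Agent.HS.mir_k_pr y r hy s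

end Pool.Agent.HS
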