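import Pool.Agent.Lib_helper60.HSF.D_WR

/-! # HSZ block RA: the corner function -/

namespace Pool.Agent.HS

noncomputable section

open Set Filter Topology
open scoped ContDiff

/-- the amplitude -/
def ra_a (κ S : ℝ) : ℝ := 1 / (Real.sqrt 2 * κ * Real.sqrt S)

theorem ra_amp {κ d : ℝ} (hκ : 0 < κ) (hS : 0 < Real.sin d) :
    amp κ (Real.cos d / Real.sin d / κ) = ra_a κ (Real.sin d) := by
  unfold amp ra_a
  have h1 : 1 + κ ^ 2 * (Real.cos d / Real.sin d / κ) ^ 2 = (Real.sin d)⁻¹ ^ 2 := by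
    have h2 := Real.sin_sq_add_cos_sq d
    field_simp
    linear_combination h2
  rw [h1]
  have h3 : ((Real.sin d)⁻¹ ^ 2) ^ (1 / 4 : ℝ) = (Real.sqrt (Real.sin d))⁻¹ := by
    rw [← Real.rpow_natCast, ← Real.rpow_mul (by positivity), Real.inv_rpow hS.le,
      Real.sqrt_eq_rpow]
    norm_num
  rw [h3]
  field_simp

/-- `conj` of `S + i cos d` in exponential form -/
theorem ra_exp (d : ℝ) : ((Real.sin d : ℝ) : ℂ) + (Real.cos d : ℝ) * Complex.I =
    Complex.I * Complex.exp (((-d : ℝ) : ℂ) * Complex.I) := by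
  rw [Complex.exp_mul_I, ← Complex.ofReal_cos, ← Complex.ofReal_sin, Real.cos_neg, Real.sin_neg]
  push_cast
  linear_combination (Complex.sin d) * Complex.I_sq

theorem ra_A0 {κ d : ℝ} (hκ : 0 < κ) (hS : 0 < Real.sin d) (χ : ℝ) :
    A0 κ χ (Real.cos d / Real.sin d / κ) =
      (ra_a κ (Real.sin d) : ℂ) * Complex.exp ((χ / 2 : ℝ) * Complex.I) := by
  unfold A0
  rw [ra_amp hκ hS]

theorem ra_D0 {κ d : ℝ} (hκ : 0 < κ) (hS : 0 < Real.sin d) (χ : ℝ) :
    D0 κ χ (Real.cos d / Real.sin d / κ) =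
      -((ra_a κ (Real.sin d) : ℂ) * (Complex.I *
        Complex.exp (((χ / 2 - d : ℝ) : ℂ) * Complex.I))) := by
  unfold D0
  rw [ra_amp hκ hS]
  have hsq : Real.sqrt 2 ^ 2 = 2 := Real.sq_sqrt (by norm_num)
  have hsS : Real.sqrt (Real.sin d) ^ 2 = Real.sin d := Real.sq_sqrt hS.le
  have hSp : 0 < Real.sqrt (Real.sin d) := Real.sqrt_pos.2 hS
  have h2p : 0 < Real.sqrt 2 := by positivity
  have h1 : (2 * κ ^ 2 * ra_a κ (Real.sin d)) * (ra_a κ (Real.sin d)) * Real.sin d = 1 := by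
    unfold ra_a
    field_simp
    rw [hsq, hsS]
  have ha : 0 < ra_a κ (Real.sin d) := by unfold ra_a; positivity
  have h2 : (-1 - ((κ * (Real.cos d / Real.sin d / κ) : ℝ) : ℂ) * Complex.I) =
      -((((Real.sin d)⁻¹ : ℝ) : ℂ) * (((Real.sin d : ℝ) : ℂ) + (Real.cos d : ℝ) * Complex.I)) := by
    have e1 : κ * (Real.cos d / Real.sin d / κ) = (Real.sin d)⁻¹ * Real.cos d := by
      field_simp
    have e2 : (((Real.sin d)⁻¹ : ℝ) : ℂ) * ((Real.sin d : ℝ) : ℂ) = 1 := by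
      rw [← Complex.ofReal_mul, inv_mul_cancel₀ hS.ne', Complex.ofReal_one]
    rw [e1, Complex.ofReal_mul]
    linear_combination e2
  rw [h2, ra_exp]
  have h3 : Complex.exp (((χ / 2 - d : ℝ) : ℂ) * Complex.I) =
      Complex.exp (((-d : ℝ) : ℂ) * Complex.I) * Complex.exp ((χ / 2 : ℝ) * Complex.I) := by
    rw [← Complex.exp_add]
    congr 1
    push_cast
    ring
  rw [h3]
  have h4 : (((Real.sin d)⁻¹ : ℝ) : ℂ) / ((2 * κ ^ 2 * ra_a κ (Real.sin d) : ℝ) : ℂ) =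
      (ra_a κ (Real.sin d) : ℂ) := by
    rw [← Complex.ofReal_div]
    congr 1
    rw [div_eq_iff (by positivity)]
    exact (eq_inv_of_mul_eq_one_left (by linear_combination h1)).symm
  rw [← h4]
  ring

theorem ra_TL (C : ℝ) (χ1 χ2 : Pl → ℝ) (Y : Pl) : cB0 C (TL χ1) (TL χ2) Y =
    Real.cos ((χ2 Y - χ1 Y) / 2) / Real.sin ((χ2 Y - χ1 Y) / 2) / kap0 C (chart C Y) := rfl

theorem corner_eq_pr {C lam ϖ : ℝ} {υ : ℂ} {χf χv : Pl → ℝ} {Y : Pl}
    (hk : 0 < kap0 C (chart C Y))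
    (hS : 0 < Real.sin ((χv Y - χf Y) / 2)) (hϖ : 0 < ϖ) :
    cornerU C (TL χf) (TL χv) lam υ (Y, ϖ) =
      cornW (zk C Y) (zr C Y) (χv Y) (χf Y) lam ϖ υ ∧
    cornerL C (TL χv) (TL χf) lam (Complex.I * υ) (Y, ϖ) =
      Complex.I * cornW (zk C Y) (zr C Y) (χv Y) (χf Y) lam ϖ υ := by
  have hw : cornW (zk C Y) (zr C Y) (χv Y) (χf Y) lam ϖ υ =
      (ra_a (kap0 C (chart C Y)) (Real.sin ((χv Y - χf Y) / 2)) : ℂ) *
        ((ϖ : ℂ) * Complex.exp ((χv Y / 2 : ℝ) * Complex.I) -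
      ((lam ^ 2 / ϖ : ℝ) : ℂ) * Complex.exp (((χf Y + Real.pi) / 2 : ℝ) * Complex.I)) -
    υ * (Real.sqrt (chart C Y).1 : ℝ) := rfl
  have hpi : ∀ x : ℝ, Complex.exp (((x + Real.pi) / 2 : ℝ) * Complex.I) =
      Complex.I * Complex.exp ((x / 2 : ℝ) * Complex.I) := by
    intro x
    have e1 : (((x + Real.pi) / 2 : ℝ) : ℂ) * Complex.I =
        (Real.pi : ℂ) / 2 * Complex.I + ((x / 2 : ℝ) : ℂ) * Complex.I := by
      push_cast
      ring
    rw [e1, Complex.exp_add, Complex.exp_pi_div_two_mul_I]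
  have hd : ((χv Y / 2 - (χv Y - χf Y) / 2 : ℝ) : ℝ) = χf Y / 2 := by ring
  constructor
  · have h1 : cornerU C (TL χf) (TL χv) lam υ (Y, ϖ) =
        ϖ * A0 (kap0 C (chart C Y)) (χv Y) (cB0 C (TL χf) (TL χv) Y)
        + (lam ^ 2 / ϖ : ℝ) * D0 (kap0 C (chart C Y)) (χv Y) (cB0 C (TL χf) (TL χv) Y)
        - υ * Real.sqrt (chart C Y).1 := rfl
    rw [h1, ra_TL, ra_A0 hk hS, ra_D0 hk hS, hw, hd, hpi]
    ring
  · have h1 : cornerL C (TL χv) (TL χf) lam (Complex.I * υ) (Y, ϖ) =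
        ϖ * A0 (kap0 C (chart C Y)) (χv Y + Real.pi) (-cB0 C (TL χv) (TL χf) Y)
        + (lam ^ 2 / ϖ : ℝ) * D0 (kap0 C (chart C Y)) (χv Y + Real.pi)
          (-cB0 C (TL χv) (TL χf) Y)
        - (Complex.I * υ) * Real.sqrt (chart C Y).1 := rfl
    have h2 : -cB0 C (TL χv) (TL χf) Y =
        Real.cos ((χv Y - χf Y) / 2) / Real.sin ((χv Y - χf Y) / 2) / kap0 C (chart C Y) := by
      rw [ra_TL]
      have e1 : (χf Y - χv Y) / 2 = -((χv Y - χf Y) / 2) := by ring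
      rw [e1, Real.cos_neg, Real.sin_neg, div_neg, neg_div, neg_neg]
    have hd' : (((χv Y + Real.pi) / 2 - (χv Y - χf Y) / 2 : ℝ) : ℝ) = (χf Y + Real.pi) / 2 := by
      ring
    rw [h1, h2, ra_A0 hk hS, ra_D0 hk hS, hw, hd', hpi (χv Y)]
    ring

/-- derivative of the amplitude -/
theorem ra_a_deriv {κ : ℝ} (hκ : 0 < κ) {f : ℝ → ℝ} {f' : ℝ} (hf : HasDerivAt f f' 0)
    (h0 : 0 < f 0) : HasDerivAt (fun t => ra_a κ (f t)) (-(ra_a κ (f 0) * f' / (2 * f 0))) 0 := by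
  have h1 : HasDerivAt (fun t => Real.sqrt (f t)) (f' / (2 * Real.sqrt (f 0))) 0 :=
    hf.sqrt h0.ne'
  have hs : 0 < Real.sqrt (f 0) := Real.sqrt_pos.2 h0
  have h2 := (h1.const_mul (Real.sqrt 2 * κ)).inv (by positivity)
  have h3 : (fun t => ra_a κ (f t)) = fun t => (Real.sqrt 2 * κ * Real.sqrt (f t))⁻¹ := by
    funext t
    unfold ra_a
    rw [one_div]
  rw [h3]
  refine h2.congr_deriv ?_
  unfold ra_a
  have hsS : Real.sqrt (f 0) ^ 2 = f 0 := Real.sq_sqrt h0.le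
  field_simp
  rw [hsS]

theorem corn_J_pr (κ r χv χf lam ϖ a b : ℝ) (υ : ℂ) (hκ : 0 < κ)
    (hS : 0 < Real.sin ((χv - χf) / 2)) (hϖ : 0 < ϖ) :
    ((starRingEnd ℂ) (deriv (fun w => cornW κ r χv χf lam w υ) ϖ) *
      deriv (fun t => cornW κ r (χv + t * a) (χf + t * b) lam ϖ υ) 0).im =
      1 / (4 * κ ^ 2 * Real.sin ((χv - χf) / 2)) *
        (cP lam ϖ (Real.sin ((χv - χf) / 2)) * a - cM lam ϖ (Real.sin ((χv - χf) / 2)) * b) := by
  set S : ℝ := Real.sin ((χv - χf) / 2) with hSdef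
  set Co : ℝ := Real.cos ((χv - χf) / 2) with hCodef
  set A : ℂ := Complex.exp ((χv / 2 : ℝ) * Complex.I) with hA
  set B : ℂ := Complex.exp (((χf + Real.pi) / 2 : ℝ) * Complex.I) with hB
  set c : ℝ := ra_a κ S with hc
  -- derivative in `ϖ`
  have hd1 : deriv (fun w => cornW κ r χv χf lam w υ) ϖ =
      (c : ℂ) * (A + ((lam ^ 2 / ϖ ^ 2 : ℝ) : ℂ) * B) := by
    have e1 : HasDerivAt (fun w : ℝ => (w : ℂ)) 1 ϖ := by
      have := (hasDerivAt_id ϖ).ofReal_comp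
      simpa using this
    have e2 : HasDerivAt (fun w : ℝ => ((lam ^ 2 / w : ℝ) : ℂ)) ((-(lam ^ 2 / ϖ ^ 2) : ℝ) : ℂ) ϖ := by
      have e3 : HasDerivAt (fun w : ℝ => lam ^ 2 / w) (-(lam ^ 2 / ϖ ^ 2)) ϖ := by
        have := (hasDerivAt_inv hϖ.ne').const_mul (lam ^ 2)
        refine this.congr_deriv ?_
        field_simp
      exact e3.ofReal_comp
    have e4 := (((e1.mul_const A).sub (e2.mul_const B)).const_mul (c : ℂ)).sub_const
      (υ * (Real.sqrt r : ℝ))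
    have e5 := e4.deriv
    refine Eq.trans e5 ?_
    push_cast
    ring
  -- derivative in `t`
  have hd2 : deriv (fun t => cornW κ r (χv + t * a) (χf + t * b) lam ϖ υ) 0 =
      ((-(c * (Co * ((a - b) / 2)) / (2 * S)) : ℝ) : ℂ) *
        ((ϖ : ℂ) * A - ((lam ^ 2 / ϖ : ℝ) : ℂ) * B) +
      (c : ℂ) * ((ϖ : ℂ) * (A * (((a / 2 : ℝ) : ℂ) * Complex.I)) -
        ((lam ^ 2 / ϖ : ℝ) : ℂ) * (B * (((b / 2 : ℝ) : ℂ) * Complex.I))) := by
    have hx : HasDerivAt (fun t : ℝ => (χv + t * a) / 2) (a / 2) 0 := by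
      have := (((hasDerivAt_id (0:ℝ)).mul_const a).const_add χv).div_const 2
      simpa using this
    have hy : HasDerivAt (fun t : ℝ => (χf + t * b + Real.pi) / 2) (b / 2) 0 := by
      have := ((((hasDerivAt_id (0:ℝ)).mul_const b).const_add χf).add_const Real.pi).div_const 2
      simpa using this
    have e1 : HasDerivAt (fun t : ℝ => Complex.exp (((χv + t * a) / 2 : ℝ) * Complex.I))
        (A * (((a / 2 : ℝ) : ℂ) * Complex.I)) 0 := by
      have := (hx.ofReal_comp.mul_const Complex.I).cexp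
      rw [zero_mul, add_zero] at this
      exact this
    have e2 : HasDerivAt (fun t : ℝ => Complex.exp (((χf + t * b + Real.pi) / 2 : ℝ) * Complex.I))
        (B * (((b / 2 : ℝ) : ℂ) * Complex.I)) 0 := by
      have := (hy.ofReal_comp.mul_const Complex.I).cexp
      rw [zero_mul, add_zero] at this
      exact this
    have e3 : HasDerivAt (fun t : ℝ => Real.sin ((χv + t * a - (χf + t * b)) / 2))
        (Co * ((a - b) / 2)) 0 := by
      have h1 : HasDerivAt (fun t : ℝ => (χv + t * a - (χf + t * b)) / 2) ((a - b) / 2) 0 := by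
        have := ((((hasDerivAt_id (0:ℝ)).mul_const a).const_add χv).sub
          (((hasDerivAt_id (0:ℝ)).mul_const b).const_add χf)).div_const 2
        refine this.congr_deriv ?_
        ring
      have h2 := h1.sin
      rw [zero_mul, zero_mul, add_zero, add_zero] at h2
      exact h2
    have h0 : Real.sin ((χv + 0 * a - (χf + 0 * b)) / 2) = S := by
      rw [zero_mul, zero_mul, add_zero, add_zero]
    have e4 := ra_a_deriv hκ e3 (by rw [h0]; exact hS)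
    rw [h0] at e4
    have e5 := (e4.ofReal_comp.mul ((e1.const_mul (ϖ : ℂ)).sub
      (e2.const_mul ((lam ^ 2 / ϖ : ℝ) : ℂ)))).sub_const (υ * (Real.sqrt r : ℝ))
    have e6 := e5.deriv
    refine Eq.trans e6 ?_
    simp only [Pi.sub_apply, zero_mul, add_zero]
    rfl
  rw [hd1, hd2]
  have hAA : (starRingEnd ℂ) A * A = 1 := by
    rw [← Complex.normSq_eq_conj_mul_self, Complex.normSq_eq_norm_sq, hA,
      Complex.norm_exp_ofReal_mul_I]
    norm_num
  have hBB : (starRingEnd ℂ) B * B = 1 := by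
    rw [← Complex.normSq_eq_conj_mul_self, Complex.normSq_eq_norm_sq, hB,
      Complex.norm_exp_ofReal_mul_I]
    norm_num
  have hcA : (starRingEnd ℂ) A = Complex.exp (-((χv / 2 : ℝ) * Complex.I)) := by
    rw [hA, ← Complex.exp_conj, map_mul, Complex.conj_I, Complex.conj_ofReal, mul_neg]
  have hAB : (starRingEnd ℂ) A * B = (S : ℂ) + (Co : ℂ) * Complex.I := by
    rw [hcA, hB, ← Complex.exp_add]
    have h1 : -(((χv / 2 : ℝ) : ℂ) * Complex.I) + (((χf + Real.pi) / 2 : ℝ) : ℂ) * Complex.I =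
        (Real.pi : ℂ) / 2 * Complex.I + (((-((χv - χf) / 2) : ℝ)) : ℂ) * Complex.I := by
      push_cast
      ring
    rw [h1, Complex.exp_add, Complex.exp_pi_div_two_mul_I]
    exact (ra_exp ((χv - χf) / 2)).symm
  have hBA : (starRingEnd ℂ) B * A = (S : ℂ) - (Co : ℂ) * Complex.I := by
    have h1 := congrArg (starRingEnd ℂ) hAB
    rw [map_mul, Complex.conj_conj, map_add, map_mul, Complex.conj_I, Complex.conj_ofReal,
      Complex.conj_ofReal, mul_neg, ← sub_eq_add_neg, mul_comm] at h1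
    exact h1
  clear_value A B
  have hE : (starRingEnd ℂ) ((c : ℂ) * (A + ((lam ^ 2 / ϖ ^ 2 : ℝ) : ℂ) * B)) *
      (((-(c * (Co * ((a - b) / 2)) / (2 * S)) : ℝ) : ℂ) *
        ((ϖ : ℂ) * A - ((lam ^ 2 / ϖ : ℝ) : ℂ) * B) +
      (c : ℂ) * ((ϖ : ℂ) * (A * (((a / 2 : ℝ) : ℂ) * Complex.I)) -
        ((lam ^ 2 / ϖ : ℝ) : ℂ) * (B * (((b / 2 : ℝ) : ℂ) * Complex.I)))) =
      ((c * (-(c * (Co * ((a - b) / 2)) / (2 * S))) * (ϖ - (lam ^ 2 / ϖ ^ 2) * (lam ^ 2 / ϖ) +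
        ((lam ^ 2 / ϖ ^ 2) * ϖ - lam ^ 2 / ϖ) * S) +
        c ^ 2 * ((lam ^ 2 / ϖ) * (b / 2) * Co + (lam ^ 2 / ϖ ^ 2) * ϖ * (a / 2) * Co) : ℝ) : ℂ) +
      ((c * (-(c * (Co * ((a - b) / 2)) / (2 * S))) *
        (-(lam ^ 2 / ϖ) * Co - (lam ^ 2 / ϖ ^ 2) * ϖ * Co) +
        c ^ 2 * (ϖ * (a / 2) - (lam ^ 2 / ϖ) * (b / 2) * S + (lam ^ 2 / ϖ ^ 2) * ϖ * (a / 2) * S -
          (lam ^ 2 / ϖ ^ 2) * (lam ^ 2 / ϖ) * (b / 2)) : ℝ) : ℂ) * Complex.I := by
    rw [map_mul, map_add, map_mul, Complex.conj_ofReal, Complex.conj_ofReal]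
    generalize (starRingEnd ℂ) A = A' at *
    generalize (starRingEnd ℂ) B = B' at *
    generalize -(c * (Co * ((a - b) / 2)) / (2 * S)) = a'
    generalize lam ^ 2 / ϖ ^ 2 = M
    generalize lam ^ 2 / ϖ = L
    push_cast
    linear_combination (c * a' * ϖ + c ^ 2 * ϖ * (a / 2) * Complex.I) * hAA +
      (-(c * a' * L) - c ^ 2 * L * (b / 2) * Complex.I) * hAB +
      (c * a' * M * ϖ + c ^ 2 * M * ϖ * (a / 2) * Complex.I) * hBA +
      (-(c * a' * M * L) - c ^ 2 * M * L * (b / 2) * Complex.I) * hBB +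
      (-(c ^ 2 * L * (b / 2) * Co) - c ^ 2 * M * ϖ * (a / 2) * Co) * Complex.I_sq
  rw [hE]
  rw [Complex.add_im, Complex.ofReal_im, zero_add, Complex.im_ofReal_mul, Complex.I_im, mul_one]
  have hCo : Co ^ 2 = 1 - S ^ 2 := by
    have := Real.sin_sq_add_cos_sq ((χv - χf) / 2)
    linarith
  have hc2 : c ^ 2 = 1 / (2 * κ ^ 2 * S) := by
    rw [hc]
    unfold ra_a
    have hsq : Real.sqrt 2 ^ 2 = 2 := Real.sq_sqrt (by norm_num)
    have hsS : Real.sqrt S ^ 2 = S := Real.sq_sqrt hS.le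
    rw [div_pow, one_pow, mul_pow, mul_pow, hsq, hsS]
  have hY : c * (-(c * (Co * ((a - b) / 2)) / (2 * S))) *
        (-(lam ^ 2 / ϖ) * Co - (lam ^ 2 / ϖ ^ 2) * ϖ * Co) +
        c ^ 2 * (ϖ * (a / 2) - (lam ^ 2 / ϖ) * (b / 2) * S + (lam ^ 2 / ϖ ^ 2) * ϖ * (a / 2) * S -
          (lam ^ 2 / ϖ ^ 2) * (lam ^ 2 / ϖ) * (b / 2)) =
      c ^ 2 * ((a - b) * Co ^ 2 * (lam ^ 2 / ϖ) / (2 * S) + ϖ * (a / 2) +
        (lam ^ 2 / ϖ) * S / 2 * (a - b) - lam ^ 4 / ϖ ^ 3 * (b / 2)) := by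
    field_simp
    ring
  rw [hY, hCo, hc2]
  unfold cP cM
  field_simp
  ring

/-- reflection -/
theorem corn_mir_pr (κ r χv χf lam ϖ : ℝ) (υ : ℂ) :
    cornW κ r (Real.pi - χv) (-Real.pi - χf) lam ϖ (Complex.I * (starRingEnd ℂ) υ) =
      Complex.I * (starRingEnd ℂ) (cornW κ r χv χf lam ϖ υ) := by
  have h1 : Real.sin ((Real.pi - χv - (-Real.pi - χf)) / 2) = Real.sin ((χv - χf) / 2) := by
    rw [← Real.sin_pi_sub]
    congr 1
    ring
  have h2 : (starRingEnd ℂ) (Complex.exp ((χv / 2 : ℝ) * Complex.I)) =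
      Complex.exp (-((χv / 2 : ℝ) * Complex.I)) := by
    rw [← Complex.exp_conj, map_mul, Complex.conj_I, Complex.conj_ofReal, mul_neg]
  have h3 : (starRingEnd ℂ) (Complex.exp (((χf + Real.pi) / 2 : ℝ) * Complex.I)) =
      Complex.exp (-(((χf + Real.pi) / 2 : ℝ) * Complex.I)) := by
    rw [← Complex.exp_conj, map_mul, Complex.conj_I, Complex.conj_ofReal, mul_neg]
  have h4 : Complex.exp (((Real.pi - χv) / 2 : ℝ) * Complex.I) =
      Complex.I * Complex.exp (-((χv / 2 : ℝ) * Complex.I)) := by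
    have e1 : (((Real.pi - χv) / 2 : ℝ) : ℂ) * Complex.I =
        (Real.pi : ℂ) / 2 * Complex.I + -((χv / 2 : ℝ) * Complex.I) := by
      push_cast
      ring
    rw [e1, Complex.exp_add, Complex.exp_pi_div_two_mul_I]
  have h5 : Complex.exp (((-Real.pi - χf + Real.pi) / 2 : ℝ) * Complex.I) =
      Complex.I * Complex.exp (-(((χf + Real.pi) / 2 : ℝ) * Complex.I)) := by
    have e1 : (((-Real.pi - χf + Real.pi) / 2 : ℝ) : ℂ) * Complex.I =
        (Real.pi : ℂ) / 2 * Complex.I + -(((χf + Real.pi) / 2 : ℝ) * Complex.I) := by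
      push_cast
      ring
    rw [e1, Complex.exp_add, Complex.exp_pi_div_two_mul_I]
  unfold cornW
  rw [h1, h4, h5]
  simp only [map_sub, map_mul, Complex.conj_ofReal, h2, h3]
  ring

/-- the variable direction is on the right side at an exact zero -/
theorem corn_sc_pr (side : Bool) {κ r χv χf lam ϖ : ℝ} {υ : ℂ} (hκ : 0 < κ) (hr : 0 < r)
    (hϖ : 0 < ϖ) (hi : 0 ≤ υ.im) (hre : 0 ≤ υ.re) (hf : |χf + Real.pi / 2| ≤ 1 / 10)
    (hv : (if side then Real.pi / 2 else 0) - 1 / 10 ≤ χv)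
    (hv' : χv ≤ (if side then Real.pi else Real.pi / 2) + 1 / 10)
    (hz : cornW κ r χv χf lam ϖ υ = 0) : sc side χv := by
  have hp := Real.pi_gt_three
  obtain ⟨hf1, hf2⟩ := abs_le.1 hf
  have hS : 0 < Real.sin ((χv - χf) / 2) := by
    apply Real.sin_pos_of_pos_of_lt_pi
    · cases side
      · simp only [Bool.false_eq_true, if_false] at hv hv'
        linarith
      · simp only [if_true] at hv hv'
        linarith
    · cases side
      · simp only [Bool.false_eq_true, if_false] at hv hv'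
        linarith
      · simp only [if_true] at hv hv'
        linarith
  set c : ℝ := 1 / (Real.sqrt 2 * κ * Real.sqrt (Real.sin ((χv - χf) / 2))) with hc
  have hcp : 0 < c := by
    have := Real.sqrt_pos.2 hS
    positivity
  have hz' : (c : ℂ) * ((ϖ : ℂ) * Complex.exp ((χv / 2 : ℝ) * Complex.I) -
      ((lam ^ 2 / ϖ : ℝ) : ℂ) * Complex.exp (((χf + Real.pi) / 2 : ℝ) * Complex.I)) =
      υ * (Real.sqrt r : ℝ) := by
    have h1 := hz
    unfold cornW at h1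
    exact sub_eq_zero.1 h1
  have hrs : 0 < Real.sqrt r := Real.sqrt_pos.2 hr
  have him := congrArg Complex.im hz'
  have hre' := congrArg Complex.re hz'
  rw [Complex.im_ofReal_mul, Complex.sub_im, Complex.im_ofReal_mul, Complex.im_ofReal_mul,
    Complex.exp_ofReal_mul_I_im, Complex.exp_ofReal_mul_I_im, Complex.im_mul_ofReal] at him
  rw [Complex.re_ofReal_mul, Complex.sub_re, Complex.re_ofReal_mul, Complex.re_ofReal_mul,
    Complex.exp_ofReal_mul_I_re, Complex.exp_ofReal_mul_I_re, Complex.re_mul_ofReal] at hre'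
  have hl : 0 ≤ lam ^ 2 / ϖ := by positivity
  cases side
  · simp only [Bool.false_eq_true, if_false] at hv hv'
    show 0 ≤ χv
    by_contra hneg
    push Not at hneg
    have h1 : Real.sin (χv / 2) < 0 := Real.sin_neg_of_neg_of_neg_pi_lt (by linarith) (by linarith)
    have h2 : 0 ≤ Real.sin ((χf + Real.pi) / 2) :=
      Real.sin_nonneg_of_nonneg_of_le_pi (by linarith) (by linarith)
    have h3 : ϖ * Real.sin (χv / 2) < 0 := mul_neg_of_pos_of_neg hϖ h1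
    have h4 : 0 ≤ lam ^ 2 / ϖ * Real.sin ((χf + Real.pi) / 2) := mul_nonneg hl h2
    have h5 : c * (ϖ * Real.sin (χv / 2) - lam ^ 2 / ϖ * Real.sin ((χf + Real.pi) / 2)) < 0 :=
      mul_neg_of_pos_of_neg hcp (by linarith)
    have h6 : 0 ≤ υ.im * Real.sqrt r := mul_nonneg hi hrs.le
    linarith
  · simp only [if_true] at hv hv'
    show χv ≤ Real.pi
    by_contra hneg
    push Not at hneg
    have h1 : Real.cos (χv / 2) < 0 :=
      Real.cos_neg_of_pi_div_two_lt_of_lt (by linarith) (by linarith)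
    have h2 : 0 ≤ Real.cos ((χf + Real.pi) / 2) :=
      Real.cos_nonneg_of_mem_Icc ⟨by linarith, by linarith⟩
    have h3 : ϖ * Real.cos (χv / 2) < 0 := mul_neg_of_pos_of_neg hϖ h1
    have h4 : 0 ≤ lam ^ 2 / ϖ * Real.cos ((χf + Real.pi) / 2) := mul_nonneg hl h2
    have h5 : c * (ϖ * Real.cos (χv / 2) - lam ^ 2 / ϖ * Real.cos ((χf + Real.pi) / 2)) < 0 :=
      mul_neg_of_pos_of_neg hcp (by linarith)
    have h6 : 0 ≤ υ.re * Real.sqrt r := mul_nonneg hre hrs.le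
    linarith

end

end Pool.Agent.HS

namespace Pool.Agent.HS
open Set Filter Topology
open scoped ContDiff

theorem corner_eq {C lam ϖ : ℝ} {υ : ℂ} {χf χv : Pl → ℝ} {Y : Pl} (hk : 0 < kap0 C (chart C Y))
    (hS : 0 < Real.sin ((χv Y - χf Y) / 2)) (hϖ : 0 < ϖ) :
    cornerU C (TL χf) (TL χv) lam υ (Y, ϖ) =
      cornW (zk C Y) (zr C Y) (χv Y) (χf Y) lam ϖ υ ∧
    cornerL C (TL χv) (TL χf) lam (Complex.I * υ) (Y, ϖ) =
      Complex.I * cornW (zk C Y) (zr C Y) (χv Y) (χf Y) lam ϖ υ :=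
  @Pool.Agent.HS.corner_eq_pr C lam ϖ υ χf χv Y hk hS hϖ

end Pool.Agent.HS

namespace Pool.Agent.HS
open Set Filter Topology
open scoped ContDiff

theorem corn_J (κ r χv χf lam ϖ a b : ℝ) (υ : ℂ) (hκ : 0 < κ)
    (hS : 0 < Real.sin ((χv - χf) / 2)) (hϖ : 0 < ϖ) :
    ((starRingEnd ℂ) (deriv (fun w => cornW κ r χv χf lam w υ) ϖ) *
      deriv (fun t => cornW κ r (χv + t * a) (χf + t * b) lam ϖ υ) 0).im =
      1 / (4 * κ ^ 2 * Real.sin ((χv - χf) / 2)) *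
        (cP lam ϖ (Real.sin ((χv - χf) / 2)) * a - cM lam ϖ (Real.sin ((χv - χf) / 2)) * b) :=
  @Pool.Agent.HS.corn_J_pr κ r χv χf lam ϖ a b υ hκ hS hϖ

end Pool.Agent.HS

namespace Pool.Agent.HS
open Set Filter Topology
open scoped ContDiff

theorem corn_mir (κ r χv χf lam ϖ : ℝ) (υ : ℂ) :
    cornW κ r (Real.pi - χv) (-Real.pi - χf) lam ϖ (Complex.I * (starRingEnd ℂ) υ) =
      Complex.I * (starRingEnd ℂ) (cornW κ r χv χf lam ϖ υ) :=
  @Pool.Agent.HS.corn_mir_pr κ r χv χf lam ϖ υ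

end Pool.Agent.HS

namespace Pool.Agent.HS
open Set Filter Topology
open scoped ContDiff

theorem corn_sc (side : Bool) {κ r χv χf lam ϖ : ℝ} {υ : ℂ} (hκ : 0 < κ) (hr : 0 < r)
    (hϖ : 0 < ϖ) (hi : 0 ≤ υ.im) (hre : 0 ≤ υ.re) (hf : |χf + Real.pi / 2| ≤ 1 / 10)
    (hv : (if side then Real.pi / 2 else 0) - 1 / 10 ≤ χv)
    (hv' : χv ≤ (if side then Real.pi else Real.pi / 2) + 1 / 10)
    (hz : cornW κ r χv χf lam ϖ υ = 0) : sc side χv :=
  @Pool.Agent.HS.corn_sc_pr side κ r χv χf lam ϖ υ hκ hr hϖ hi hre hf hv hv' hz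

end Pool.Agent.HS
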