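import Pool.Agent.Lib_helper60.HSF.D_WR
import Pool.Agent.Lib_helper60.HSF.Z_ZC
import Pool.Agent.Lib_helper60.HSF.Z_RA

/-!
# Project HS, part R, block RB: solutions at `C = 0`
-/

namespace Pool.Agent.HS

noncomputable section

open Set Filter Topology
open scoped ContDiff

theorem rb_c {χ : ℝ} (h0 : 0 ≤ χ) (h1 : χ ≤ Real.pi / 2) :
    0 < Real.sqrt 2 * kh * Real.sqrt (Real.sin (χ / 2 + Real.pi / 4)) := by
  obtain ⟨b1, b2, b3, -⟩ := z_bounds
  have hpi := Real.pi_pos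
  have hs : 0 < Real.sin (χ / 2 + Real.pi / 4) :=
    Real.sin_pos_of_pos_of_lt_pi (by linarith) (by linarith)
  have hk : 0 < kh := by linarith
  positivity

theorem rb_key {χ ϖ lam α : ℝ} {υ : ℂ} (h0 : 0 ≤ χ) (h1 : χ ≤ Real.pi / 2)
    (hυ : υ = (‖υ‖ : ℂ) * Complex.exp ((α : ℂ) * Complex.I))
    (e1 : ϖ * Real.cos (χ / 2 - α) - lam ^ 2 / ϖ * Real.cos (Real.pi / 4 - α) =
      ‖υ‖ * (Real.sqrt rh * (Real.sqrt 2 * kh * Real.sqrt (Real.sin (χ / 2 + Real.pi / 4)))))
    (e2 : ϖ * Real.sin (χ / 2 - α) = lam ^ 2 / ϖ * Real.sin (Real.pi / 4 - α)) :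
    cornW kh rh χ (-(Real.pi / 2)) lam ϖ υ = 0 := by
  set c : ℝ := Real.sqrt 2 * kh * Real.sqrt (Real.sin (χ / 2 + Real.pi / 4)) with hc
  have hc0 : 0 < c := rb_c h0 h1
  have k1 : (ϖ : ℂ) * Complex.exp (((χ / 2 - α : ℝ) : ℂ) * Complex.I) -
      ((lam ^ 2 / ϖ : ℝ) : ℂ) * Complex.exp (((Real.pi / 4 - α : ℝ) : ℂ) * Complex.I) =
      ((‖υ‖ * (Real.sqrt rh * c) : ℝ) : ℂ) := by
    apply Complex.ext
    · rw [Complex.sub_re, Complex.re_ofReal_mul, Complex.re_ofReal_mul,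
        Complex.exp_ofReal_mul_I_re, Complex.exp_ofReal_mul_I_re, Complex.ofReal_re]
      exact e1
    · rw [Complex.sub_im, Complex.im_ofReal_mul, Complex.im_ofReal_mul,
        Complex.exp_ofReal_mul_I_im, Complex.exp_ofReal_mul_I_im, Complex.ofReal_im]
      linarith
  have k2 : ∀ t : ℝ, Complex.exp (((t : ℝ) : ℂ) * Complex.I) =
      Complex.exp ((α : ℂ) * Complex.I) * Complex.exp (((t - α : ℝ) : ℂ) * Complex.I) := by
    intro t
    rw [← Complex.exp_add]
    congr 1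
    push_cast
    ring
  have k3 : (ϖ : ℂ) * Complex.exp (((χ / 2 : ℝ) : ℂ) * Complex.I) -
      ((lam ^ 2 / ϖ : ℝ) : ℂ) * Complex.exp (((Real.pi / 4 : ℝ) : ℂ) * Complex.I) =
      υ * ((Real.sqrt rh * c : ℝ) : ℂ) := by
    rw [k2 (χ / 2), k2 (Real.pi / 4)]
    have : υ * ((Real.sqrt rh * c : ℝ) : ℂ) = Complex.exp ((α : ℂ) * Complex.I) *
        ((‖υ‖ * (Real.sqrt rh * c) : ℝ) : ℂ) := by
      conv_lhs => rw [hυ]
      push_cast
      ring
    rw [this, ← k1]
    ring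
  unfold cornW
  have a1 : (χ - -(Real.pi / 2)) / 2 = χ / 2 + Real.pi / 4 := by ring
  have a2 : (-(Real.pi / 2) + Real.pi) / 2 = Real.pi / 4 := by ring
  rw [a1, a2, ← hc, k3]
  have hc' : (c : ℂ) ≠ 0 := Complex.ofReal_ne_zero.2 hc0.ne'
  push_cast
  field_simp
  ring

/-- hub: `arg υ ∈ [0, π/4]` -/
theorem model_sol0_pr (lam : ℝ) (υ : ℂ) (hlam : 0 ≤ lam) (h1 : max lam ‖υ‖ = 1) (hi : 0 ≤ υ.im)
    (hre : υ.im ≤ υ.re) : ∃ χ ϖ : ℝ, 0 ≤ χ ∧ χ ≤ Real.pi / 2 ∧ lam ≤ ϖ ∧ 0 < ϖ ∧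
      cornW kh rh χ (-(Real.pi / 2)) lam ϖ υ = 0 := by
  have hpi := Real.pi_pos
  obtain ⟨b1, b2, b3, b4, b5, -⟩ := z_bounds
  have hrh : 0 < Real.sqrt rh := Real.sqrt_pos.2 (by linarith)
  by_cases hυ0 : υ = 0
  · -- the head-on case
    have hl : lam = 1 := by
      rw [hυ0, norm_zero, max_eq_left hlam] at h1
      exact h1
    refine ⟨Real.pi / 2, 1, by positivity, le_refl _, hl.le, one_pos,
      rb_key (α := Real.pi / 4) (by positivity) le_rfl (by rw [hυ0]; simp) ?_ ?_⟩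
    · rw [hυ0, hl]
      have : Real.pi / 2 / 2 - Real.pi / 4 = 0 := by ring
      rw [this]
      simp
    · rw [hl]
      have : Real.pi / 2 / 2 - Real.pi / 4 = 0 := by ring
      rw [this]
      simp
  set α : ℝ := Complex.arg υ with hα
  have ha : 0 < ‖υ‖ := norm_pos_iff.2 hυ0
  have hpol : υ = (‖υ‖ : ℂ) * Complex.exp ((α : ℂ) * Complex.I) :=
    (Complex.norm_mul_exp_arg_mul_I υ).symm
  have hα0 : 0 ≤ α := Complex.arg_nonneg_iff.2 hi
  have hαh : α ≤ Real.pi / 2 :=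
    (abs_le.1 (Complex.abs_arg_le_pi_div_two_iff.2 (hi.trans hre))).2
  have hα4 : α ≤ Real.pi / 4 := by
    by_contra hcon
    push Not at hcon
    have s1 : Real.sin (Real.pi / 4) < Real.sin α :=
      Real.sin_lt_sin_of_lt_of_le_pi_div_two (by linarith) hαh hcon
    have s2 : Real.cos α < Real.cos (Real.pi / 4) :=
      Real.cos_lt_cos_of_nonneg_of_le_pi (by linarith) (by linarith) hcon
    rw [Real.sin_pi_div_four] at s1
    rw [Real.cos_pi_div_four] at s2
    have c1 : Real.cos α = υ.re / ‖υ‖ := Complex.cos_arg hυ0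
    have c2 : Real.sin α = υ.im / ‖υ‖ := Complex.sin_arg υ
    have : υ.im / ‖υ‖ ≤ υ.re / ‖υ‖ := div_le_div_of_nonneg_right hre ha.le
    linarith
  set a : ℝ := ‖υ‖ with haa
  rcases hlam.eq_or_lt with hl | hl
  · -- `lam = 0`
    have hc := rb_c (χ := 2 * α) (by linarith) (by linarith)
    set c : ℝ := Real.sqrt 2 * kh * Real.sqrt (Real.sin (2 * α / 2 + Real.pi / 4)) with hcdef
    refine ⟨2 * α, a * (Real.sqrt rh * c), by linarith, by linarith, ?_, by positivity,
      rb_key (by linarith) (by linarith) hpol ?_ ?_⟩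
    · rw [← hl]
      positivity
    · rw [← hl]
      have : 2 * α / 2 - α = 0 := by ring
      rw [this]
      simp only [Real.cos_zero, mul_one, ne_eq, OfNat.ofNat_ne_zero, not_false_eq_true, zero_pow,
        zero_div, zero_mul, sub_zero, hcdef, haa]
    · rw [← hl]
      have : 2 * α / 2 - α = 0 := by ring
      rw [this]
      simp
  rcases hα4.eq_or_lt with hα5 | hα5
  · -- `α = π / 4`
    have hc := rb_c (χ := Real.pi / 2) (by linarith) le_rfl
    set c : ℝ := Real.sqrt 2 * kh * Real.sqrt (Real.sin (Real.pi / 2 / 2 + Real.pi / 4)) with hcdef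
    set t : ℝ := a * (Real.sqrt rh * c) with ht
    have ht0 : 0 < t := by positivity
    set ϖ : ℝ := (t + Real.sqrt (t ^ 2 + 4 * lam ^ 2)) / 2 with hϖ
    have hsq : Real.sqrt (t ^ 2 + 4 * lam ^ 2) ^ 2 = t ^ 2 + 4 * lam ^ 2 :=
      Real.sq_sqrt (by positivity)
    have hge : 2 * lam ≤ Real.sqrt (t ^ 2 + 4 * lam ^ 2) := by
      apply Real.le_sqrt_of_sq_le
      nlinarith
    have hϖl : lam ≤ ϖ := by
      rw [hϖ]
      linarith
    have hϖ0 : 0 < ϖ := hl.trans_le hϖl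
    have hroot : ϖ - lam ^ 2 / ϖ = t := by
      have : ϖ ^ 2 - lam ^ 2 = t * ϖ := by
        rw [hϖ]
        linear_combination (1 / 4 : ℝ) * hsq
      field_simp
      linear_combination this
    refine ⟨Real.pi / 2, ϖ, by linarith, le_rfl, hϖl, hϖ0,
      rb_key (by linarith) le_rfl hpol ?_ ?_⟩
    · have e1 : Real.pi / 2 / 2 - α = 0 := by rw [hα5]; ring
      have e2 : Real.pi / 4 - α = 0 := by rw [hα5]; ring
      rw [e1, e2, Real.cos_zero, mul_one, mul_one]
      exact hroot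
    · have e1 : Real.pi / 2 / 2 - α = 0 := by rw [hα5]; ring
      have e2 : Real.pi / 4 - α = 0 := by rw [hα5]; ring
      rw [e1, e2]
      simp
  · -- the general case
    set A : ℝ := Real.pi / 4 - α with hA
    have hA0 : 0 < A := by linarith
    have hsA : 0 < Real.sin A := Real.sin_pos_of_pos_of_lt_pi hA0 (by linarith)
    have hqA : 0 < Real.sqrt (Real.sin A) := Real.sqrt_pos.2 hsA
    set Ψ : ℝ → ℝ := fun x => lam * Real.sqrt (Real.sin A) * Real.cos x -
      lam * (Real.sin x / Real.sqrt (Real.sin A)) * Real.cos A -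
      a * (Real.sqrt rh * (Real.sqrt 2 * kh *
        Real.sqrt (Real.sin (2 * (x + α) / 2 + Real.pi / 4)))) * Real.sqrt (Real.sin x) with hΨ
    have hcont : Continuous Ψ := by
      rw [hΨ]
      fun_prop
    have hΨ0 : 0 < Ψ 0 := by
      simp only [hΨ, Real.cos_zero, Real.sin_zero, zero_div, mul_zero, zero_mul, sub_zero,
        Real.sqrt_zero, mul_one]
      positivity
    have hΨA : Ψ A ≤ 0 := by
      have h2 : Real.sin A / Real.sqrt (Real.sin A) = Real.sqrt (Real.sin A) := Real.div_sqrt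
      have h3 := (rb_c (χ := 2 * (A + α)) (by linarith) (by linarith)).le
      simp only [hΨ, h2]
      have : 0 ≤ a * (Real.sqrt rh * (Real.sqrt 2 * kh *
        Real.sqrt (Real.sin (2 * (A + α) / 2 + Real.pi / 4)))) * Real.sqrt (Real.sin A) := by
        positivity
      linarith
    obtain ⟨x, hx, hx0⟩ := intermediate_value_Icc' hA0.le hcont.continuousOn
      (show (0 : ℝ) ∈ Icc (Ψ A) (Ψ 0) from ⟨hΨA, hΨ0.le⟩)
    have hxpos : 0 < x := by
      rcases hx.1.eq_or_lt with h | h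
      · rw [← h] at hx0
        exact absurd hx0 hΨ0.ne'
      · exact h
    have hsx : 0 < Real.sin x := Real.sin_pos_of_pos_of_lt_pi hxpos (by linarith [hx.2])
    have hqx : 0 < Real.sqrt (Real.sin x) := Real.sqrt_pos.2 hsx
    have hmono : Real.sin x ≤ Real.sin A :=
      Real.sin_le_sin_of_le_of_le_pi_div_two (by linarith) (by linarith) hx.2
    have hϖl : lam ≤ lam * Real.sqrt (Real.sin A) / Real.sqrt (Real.sin x) := by
      rw [le_div_iff₀ hqx]
      exact mul_le_mul_of_nonneg_left (Real.sqrt_le_sqrt hmono) hl.le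
    have hinv : lam ^ 2 / (lam * Real.sqrt (Real.sin A) / Real.sqrt (Real.sin x)) =
        lam * Real.sqrt (Real.sin x) / Real.sqrt (Real.sin A) := by
      field_simp
    have sqA : Real.sqrt (Real.sin A) ^ 2 = Real.sin A := Real.sq_sqrt hsA.le
    have sqx : Real.sqrt (Real.sin x) ^ 2 = Real.sin x := Real.sq_sqrt hsx.le
    refine ⟨2 * (x + α), lam * Real.sqrt (Real.sin A) / Real.sqrt (Real.sin x),
      by linarith [hx.1], by linarith [hx.2], hϖl, by positivity,
      rb_key (by linarith [hx.1]) (by linarith [hx.2]) hpol ?_ ?_⟩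
    · rw [hinv]
      have e1 : 2 * (x + α) / 2 - α = x := by ring
      rw [e1, ← hA]
      simp only [hΨ] at hx0
      have h4 : (lam * Real.sqrt (Real.sin A) / Real.sqrt (Real.sin x) * Real.cos x -
          lam * Real.sqrt (Real.sin x) / Real.sqrt (Real.sin A) * Real.cos A) *
          Real.sqrt (Real.sin x) = a * (Real.sqrt rh * (Real.sqrt 2 * kh *
        Real.sqrt (Real.sin (2 * (x + α) / 2 + Real.pi / 4)))) * Real.sqrt (Real.sin x) := by
        have h5 : (lam * Real.sqrt (Real.sin A) / Real.sqrt (Real.sin x) * Real.cos x -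
          lam * Real.sqrt (Real.sin x) / Real.sqrt (Real.sin A) * Real.cos A) *
          Real.sqrt (Real.sin x) = lam * Real.sqrt (Real.sin A) * Real.cos x -
            lam * (Real.sin x / Real.sqrt (Real.sin A)) * Real.cos A := by
          rw [← sqx]
          simp only [sqx]
          field_simp
          rw [sqx]
          ring
        rw [h5]
        linarith
      exact mul_right_cancel₀ hqx.ne' h4
    · rw [hinv]
      have e1 : 2 * (x + α) / 2 - α = x := by ring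
      rw [e1, ← hA]
      have h6 : Real.sin x / Real.sqrt (Real.sin x) = Real.sqrt (Real.sin x) := Real.div_sqrt
      have h7 : Real.sin A / Real.sqrt (Real.sin A) = Real.sqrt (Real.sin A) := Real.div_sqrt
      calc lam * Real.sqrt (Real.sin A) / Real.sqrt (Real.sin x) * Real.sin x =
          lam * Real.sqrt (Real.sin A) * (Real.sin x / Real.sqrt (Real.sin x)) := by ring
        _ = lam * Real.sqrt (Real.sin x) * (Real.sin A / Real.sqrt (Real.sin A)) := by
            rw [h6, h7]; ring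
        _ = _ := by ring

/-- both vertices -/
theorem model_sol_pr (side : Bool) (lam : ℝ) (υ : ℂ) (hlam : 0 ≤ lam) (h1 : max lam ‖υ‖ = 1)
    (hi : 0 ≤ υ.im) (hre : 0 ≤ υ.re) (hs : if side then υ.re ≤ υ.im else υ.im ≤ υ.re) :
    ∃ χ ϖ : ℝ, (if side then Real.pi / 2 else 0) ≤ χ ∧
      χ ≤ (if side then Real.pi else Real.pi / 2) ∧ lam ≤ ϖ ∧ 0 < ϖ ∧
      cornW kh rh χ (-(Real.pi / 2)) lam ϖ υ = 0 := by
  cases side
  · simp only [Bool.false_eq_true, if_false] at hs ⊢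
    exact model_sol0_pr lam υ hlam h1 hi hs
  · simp only [if_true] at hs ⊢
    have him : (Complex.I * (starRingEnd ℂ) υ).im = υ.re := by simp
    have hre' : (Complex.I * (starRingEnd ℂ) υ).re = υ.im := by simp
    have hn : ‖Complex.I * (starRingEnd ℂ) υ‖ = ‖υ‖ := by simp
    obtain ⟨χ, ϖ, a1, a2, a3, a4, a5⟩ := model_sol0_pr lam (Complex.I * (starRingEnd ℂ) υ) hlam
      (by rw [hn]; exact h1) (by rw [him]; exact hre) (by rw [him, hre']; exact hs)
    refine ⟨Real.pi - χ, ϖ, by linarith, by linarith, a3, a4, ?_⟩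
    have h := corn_mir kh rh χ (-(Real.pi / 2)) lam ϖ (Complex.I * (starRingEnd ℂ) υ)
    rw [a5, map_zero, mul_zero] at h
    have e1 : -Real.pi - -(Real.pi / 2) = -(Real.pi / 2) := by ring
    have e2 : Complex.I * (starRingEnd ℂ) (Complex.I * (starRingEnd ℂ) υ) = υ := by
      rw [map_mul, Complex.conj_I, Complex.conj_conj]
      have := Complex.I_mul_I
      linear_combination -υ * this
    rw [e1, e2] at h
    exact h

end

end Pool.Agent.HS

namespace Pool.Agent.HS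
open Set Filter Topology
open scoped ContDiff

theorem model_sol0 (lam : ℝ) (υ : ℂ) (hlam : 0 ≤ lam) (h1 : max lam ‖υ‖ = 1) (hi : 0 ≤ υ.im)
    (hre : υ.im ≤ υ.re) : ∃ χ ϖ : ℝ, 0 ≤ χ ∧ χ ≤ Real.pi / 2 ∧ lam ≤ ϖ ∧ 0 < ϖ ∧
      cornW kh rh χ (-(Real.pi / 2)) lam ϖ υ = 0 :=
  @Pool.Agent.HS.model_sol0_pr lam υ hlam h1 hi hre

end Pool.Agent.HS

namespace Pool.Agent.HS
open Set Filter Topology
open scoped ContDiff

theorem model_sol (side : Bool) (lam : ℝ) (υ : ℂ) (hlam : 0 ≤ lam) (h1 : max lam ‖υ‖ = 1)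
    (hi : 0 ≤ υ.im) (hre : 0 ≤ υ.re) (hs : if side then υ.re ≤ υ.im else υ.im ≤ υ.re) :
    ∃ χ ϖ : ℝ, (if side then Real.pi / 2 else 0) ≤ χ ∧
      χ ≤ (if side then Real.pi else Real.pi / 2) ∧ lam ≤ ϖ ∧ 0 < ϖ ∧
      cornW kh rh χ (-(Real.pi / 2)) lam ϖ υ = 0 :=
  @Pool.Agent.HS.model_sol_pr side lam υ hlam h1 hi hre hs

end Pool.Agent.HS
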