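import Pool.Agent.Lib_helper60.HSF.D_WR

/-!
# Project HS, part R, block RC: cones and covectors
-/

namespace Pool.Agent.HS

noncomputable section

open Set Filter Topology
open scoped ContDiff

theorem rc_sl (i' : Fin 2) : 0 < slo i' ∧ shi i' ≤ 9 / 2 ∧ (i' = 0 → shi i' ≤ 1 / 5) ∧
    (i' = 1 → 4 ≤ slo i') := by
  fin_cases i' <;> norm_num [slo, shi]

theorem rc_lin3 (m : ℝ) : (lin3 (1, m)).1 = -(47 / 2) - 315 / 2 * m ∧
    (lin3 (1, m)).2 = 181 / 2 + 1213 / 2 * m := by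
  simp [lin3]

theorem rc_near {v w : Pl} {e : ℝ} (h : ‖v - w‖ ≤ e) : |v.1 - w.1| ≤ e ∧ |v.2 - w.2| ≤ e := by
  have h' : max |v.1 - w.1| |v.2 - w.2| ≤ e := h
  exact ⟨(le_max_left _ _).trans h', (le_max_right _ _).trans h'⟩

theorem dcone_compact_pr (side : Bool) (i' : Fin 2) : IsCompact (dcone side i') ∧
    ∀ v ∈ dcone side i', v.1 ≠ 0 ∧ (if side then 3 * v.1 + v.2 ≠ 0 else v.1 + v.2 ≠ 0) := by
  obtain ⟨s1, s2, -, -⟩ := rc_sl i'
  cases side
  · refine ⟨?_, ?_⟩
    · have : dcone false i' = (fun m : ℝ => ((1 : ℝ), m)) '' Icc (slo i') (shi i') := by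
        ext v
        simp only [dcone, Bool.false_eq_true, if_false, mem_ofPred_eq, mem_image]
        constructor
        · rintro ⟨m, hm, rfl⟩
          exact ⟨m, hm, rfl⟩
        · rintro ⟨m, hm, rfl⟩
          exact ⟨m, hm, rfl⟩
      rw [this]
      exact isCompact_Icc.image (by fun_prop)
    · intro v hv
      simp only [dcone, Bool.false_eq_true, if_false, mem_ofPred_eq] at hv ⊢
      obtain ⟨m, hm, rfl⟩ := hv
      have : 0 < m := s1.trans_le hm.1
      exact ⟨one_ne_zero, by positivity⟩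
  · refine ⟨?_, ?_⟩
    · have : dcone true i' = (fun p : ℝ × Pl => lin3 (1, p.1) + p.2) ''
          (Icc (slo i') (shi i') ×ˢ Metric.closedBall (0 : Pl) (1 / 10000)) := by
        ext v
        simp only [dcone, if_true, mem_ofPred_eq, mem_image]
        constructor
        · rintro ⟨m, hm, hv⟩
          refine ⟨(m, v - lin3 (1, m)), ⟨hm, ?_⟩, by simp⟩
          rw [mem_closedBall_zero_iff]
          exact hv
        · rintro ⟨⟨m, w⟩, ⟨hm, hw⟩, rfl⟩
          refine ⟨m, hm, ?_⟩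
          rw [mem_closedBall_zero_iff] at hw
          simpa using hw
      rw [this]
      apply (isCompact_Icc.prod (isCompact_closedBall _ _)).image
      unfold lin3
      fun_prop
    · intro v hv
      simp only [dcone, if_true, mem_ofPred_eq] at hv ⊢
      obtain ⟨m, hm, hv⟩ := hv
      have hm0 : 0 < m := s1.trans_le hm.1
      obtain ⟨a1, a2⟩ := rc_near hv
      obtain ⟨l1, l2⟩ := rc_lin3 m
      rw [l1] at a1
      rw [l2] at a2
      have b1 := abs_le.1 a1
      have b2 := abs_le.1 a2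
      constructor
      · intro h
        rw [h] at b1
        linarith [b1.1, b1.2]
      · intro h
        linarith [b1.1, b1.2, b2.1, b2.2]

/-- vectors of the two cones are not parallel -/
theorem rc_det (side : Bool) {v w : Pl} (hv : v ∈ dcone side 0) (hw : w ∈ dcone side 1) :
    v.1 * w.2 - v.2 * w.1 ≠ 0 := by
  obtain ⟨s1, s2, s3, -⟩ := rc_sl 0
  obtain ⟨t1, t2, -, t4⟩ := rc_sl 1
  have s3 := s3 rfl
  have t4 := t4 rfl
  cases side
  · simp only [dcone, Bool.false_eq_true, if_false, mem_ofPred_eq] at hv hw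
    obtain ⟨m, hm, rfl⟩ := hv
    obtain ⟨n, hn, rfl⟩ := hw
    intro h
    simp only [one_mul, mul_one] at h
    linarith [hm.2, hn.1]
  · simp only [dcone, if_true, mem_ofPred_eq] at hv hw
    obtain ⟨m, hm, hv⟩ := hv
    obtain ⟨n, hn, hw⟩ := hw
    have hm0 : 0 < m := s1.trans_le hm.1
    have hm1 : m ≤ 1 / 5 := hm.2.trans s3
    have hn0 : 4 ≤ n := t4.trans hn.1
    have hn1 : n ≤ 9 / 2 := hn.2.trans t2
    obtain ⟨a1, a2⟩ := rc_near hv
    obtain ⟨c1, c2⟩ := rc_near hw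
    obtain ⟨l1, l2⟩ := rc_lin3 m
    obtain ⟨k1, k2⟩ := rc_lin3 n
    rw [l1] at a1
    rw [l2] at a2
    rw [k1] at c1
    rw [k2] at c2
    set x1 : ℝ := v.1 - (-(47 / 2) - 315 / 2 * m) with hx1
    set x2 : ℝ := v.2 - (181 / 2 + 1213 / 2 * m) with hx2
    set y1 : ℝ := w.1 - (-(47 / 2) - 315 / 2 * n) with hy1
    set y2 : ℝ := w.2 - (181 / 2 + 1213 / 2 * n) with hy2
    have e1 : v.1 * w.2 - v.2 * w.1 = (n - m) +
        (x1 * (181 / 2 + 1213 / 2 * n) - y1 * (181 / 2 + 1213 / 2 * m) +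
          y2 * (-(47 / 2) - 315 / 2 * m) - x2 * (-(47 / 2) - 315 / 2 * n) + x1 * y2 - x2 * y1) := by
      rw [hx1, hx2, hy1, hy2]
      ring
    have f1 : |x1 * (181 / 2 + 1213 / 2 * n)| ≤ 1 / 10000 * 2820 := by
      rw [abs_mul]
      exact mul_le_mul a1 (abs_le.2 ⟨by linarith, by linarith⟩) (abs_nonneg _) (by norm_num)
    have f2 : |y1 * (181 / 2 + 1213 / 2 * m)| ≤ 1 / 10000 * 212 := by
      rw [abs_mul]
      exact mul_le_mul c1 (abs_le.2 ⟨by linarith, by linarith⟩) (abs_nonneg _) (by norm_num)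
    have f3 : |y2 * (-(47 / 2) - 315 / 2 * m)| ≤ 1 / 10000 * 55 := by
      rw [abs_mul]
      exact mul_le_mul c2 (abs_le.2 ⟨by linarith, by linarith⟩) (abs_nonneg _) (by norm_num)
    have f4 : |x2 * (-(47 / 2) - 315 / 2 * n)| ≤ 1 / 10000 * 733 := by
      rw [abs_mul]
      exact mul_le_mul a2 (abs_le.2 ⟨by linarith, by linarith⟩) (abs_nonneg _) (by norm_num)
    have f5 : |x1 * y2| ≤ 1 / 10000 * (1 / 10000) := by
      rw [abs_mul]
      exact mul_le_mul a1 c2 (abs_nonneg _) (by norm_num)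
    have f6 : |x2 * y1| ≤ 1 / 10000 * (1 / 10000) := by
      rw [abs_mul]
      exact mul_le_mul a2 c1 (abs_nonneg _) (by norm_num)
    have g1 := abs_le.1 f1
    have g2 := abs_le.1 f2
    have g3 := abs_le.1 f3
    have g4 := abs_le.1 f4
    have g5 := abs_le.1 f5
    have g6 := abs_le.1 f6
    intro h
    rw [e1] at h
    linarith [g1.1, g2.2, g3.1, g4.2, g5.1, g6.2]

/-- a covector is nonzero on one of the two cones -/
theorem dcone_choice_pr (side : Bool) (a b : ℝ) (h : a ≠ 0 ∨ b ≠ 0) :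
    ∃ i' : Fin 2, ∀ v ∈ dcone side i', a * v.1 + b * v.2 ≠ 0 := by
  by_contra hcon
  push Not at hcon
  obtain ⟨v, hv, hv0⟩ := hcon 0
  obtain ⟨w, hw, hw0⟩ := hcon 1
  apply rc_det side hv hw
  rcases h with ha | hb
  · apply mul_left_cancel₀ ha
    rw [mul_zero]
    linear_combination w.2 * hv0 - v.2 * hw0
  · apply mul_left_cancel₀ hb
    rw [mul_zero]
    linear_combination v.1 * hw0 - w.1 * hv0

/-- the event covector, and the mark covector if the corner is head-on -/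
theorem cov_choice_pr (side : Bool) (X : Pl) (χ lam ϖ : ℝ) (hX : ‖X - vS side‖ ≤ 1 / 100)
    (hχ0 : 0 ≤ χ) (hχ1 : χ ≤ Real.pi) (hlam : 0 ≤ lam) (hϖ : 0 < ϖ) (he : me X χ ≠ 0) :
    ∃ i' : Fin 2, (∀ v ∈ dcone side i', covE X χ lam ϖ v ≠ 0) ∧
      (χ = Real.pi / 2 → ∀ v ∈ dcone side i', dirD X χ v - dirD X (-(Real.pi / 2)) v ≠ 0) := by
  have hpi := Real.pi_pos
  have hz : zϖ X ≠ 0 := by
    obtain ⟨a1, a2⟩ := rc_near hX
    have b1 := abs_le.1 a1
    have b2 := abs_le.1 a2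
    intro h
    unfold zϖ at h
    cases side
    · simp only [vS, Bool.false_eq_true, if_false, Prod.fst_zero, Prod.snd_zero, sub_zero] at b1 b2
      linarith [b1.1, b1.2, b2.1, b2.2]
    · simp only [vS, if_true, Xcp, sub_zero] at b1 b2
      linarith [b1.1, b1.2, b2.1, b2.2]
  have hS : 0 < Real.sin ((χ + Real.pi / 2) / 2) :=
    Real.sin_pos_of_pos_of_lt_pi (by linarith) (by linarith)
  set S : ℝ := Real.sin ((χ + Real.pi / 2) / 2) with hSdef
  have hP : 0 < cP lam ϖ S := by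
    unfold cP
    positivity
  have hM : 0 ≤ cM lam ϖ S := by
    unfold cM
    positivity
  have hm1 : me X (-(Real.pi / 2)) = zϖ X := by
    simp [me]
  have hd1 : ∀ v : Pl, dirD X (-(Real.pi / 2)) v = v.1 / zϖ X := by
    intro v
    unfold dirD
    rw [hm1]
    simp
  by_cases hχ : χ = Real.pi / 2
  · have hm2 : me X χ = -zϖ X := by
      rw [hχ]
      simp [me]
    have hd2 : ∀ v : Pl, dirD X χ v = -(v.1 / zϖ X) := by
      intro v
      unfold dirD
      rw [hm2, hχ]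
      simp [div_neg]
    refine ⟨0, fun v hv => ?_, fun _ v hv => ?_⟩
    · have hv1 := ((dcone_compact_pr side 0).2 v hv).1
      unfold covE
      rw [← hSdef, hd1, hd2]
      have e : cP lam ϖ S * -(v.1 / zϖ X) - cM lam ϖ S * (v.1 / zϖ X) =
          -((cP lam ϖ S + cM lam ϖ S) * (v.1 / zϖ X)) := by ring
      rw [e]
      exact neg_ne_zero.2 (mul_ne_zero (by positivity) (div_ne_zero hv1 hz))
    · have hv1 := ((dcone_compact_pr side 0).2 v hv).1
      rw [hd1, hd2]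
      have e : -(v.1 / zϖ X) - v.1 / zϖ X = -(2 * (v.1 / zϖ X)) := by ring
      rw [e]
      exact neg_ne_zero.2 (mul_ne_zero two_ne_zero (div_ne_zero hv1 hz))
  · have hcos : Real.cos χ ≠ 0 := by
      intro h
      apply hχ
      have := Real.arccos_cos hχ0 hχ1
      rw [h, Real.arccos_zero] at this
      exact this.symm
    obtain ⟨i', hi'⟩ := dcone_choice_pr side
      (cP lam ϖ S * (1 - 2 * Real.cos χ) / me X χ - cM lam ϖ S / zϖ X)
      (-(cP lam ϖ S * Real.cos χ / me X χ))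
      (Or.inr (neg_ne_zero.2 (div_ne_zero (mul_ne_zero hP.ne' hcos) he)))
    refine ⟨i', fun v hv => ?_, fun h => absurd h hχ⟩
    have h1 := hi' v hv
    have e : covE X χ lam ϖ v = (cP lam ϖ S * (1 - 2 * Real.cos χ) / me X χ -
        cM lam ϖ S / zϖ X) * v.1 + -(cP lam ϖ S * Real.cos χ / me X χ) * v.2 := by
      unfold covE
      rw [← hSdef, hd1]
      unfold dirD
      field_simp
      ring
    rw [e]
    exact h1

end

end Pool.Agent.HS

namespace Pool.Agent.HS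
open Set Filter Topology
open scoped ContDiff

theorem dcone_compact (side : Bool) (i' : Fin 2) : IsCompact (dcone side i') ∧
    ∀ v ∈ dcone side i', v.1 ≠ 0 ∧ (if side then 3 * v.1 + v.2 ≠ 0 else v.1 + v.2 ≠ 0) :=
  @Pool.Agent.HS.dcone_compact_pr side i'

end Pool.Agent.HS

namespace Pool.Agent.HS
open Set Filter Topology
open scoped ContDiff

theorem dcone_choice (side : Bool) (a b : ℝ) (h : a ≠ 0 ∨ b ≠ 0) :
    ∃ i' : Fin 2, ∀ v ∈ dcone side i', a * v.1 + b * v.2 ≠ 0 :=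
  @Pool.Agent.HS.dcone_choice_pr side a b h

end Pool.Agent.HS

namespace Pool.Agent.HS
open Set Filter Topology
open scoped ContDiff

theorem cov_choice (side : Bool) (X : Pl) (χ lam ϖ : ℝ) (hX : ‖X - vS side‖ ≤ 1 / 100)
    (hχ0 : 0 ≤ χ) (hχ1 : χ ≤ Real.pi) (hlam : 0 ≤ lam) (hϖ : 0 < ϖ) (he : me X χ ≠ 0) :
    ∃ i' : Fin 2, (∀ v ∈ dcone side i', covE X χ lam ϖ v ≠ 0) ∧
      (χ = Real.pi / 2 → ∀ v ∈ dcone side i', dirD X χ v - dirD X (-(Real.pi / 2)) v ≠ 0) :=
  @Pool.Agent.HS.cov_choice_pr side X χ lam ϖ hX hχ0 hχ1 hlam hϖ he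

end Pool.Agent.HS
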