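import Pool.Agent.Lib_helper60.HSF.D_WR
import Pool.Agent.Lib_helper60.HSF.Z_ZC

/-! HSZ block RD: choice of the centre -/

namespace Pool.Agent.HS

noncomputable section

open Set Filter Topology
open scoped ContDiff

theorem rd_pos : 0 < rh ∧ 0 < Real.pi * mΛ := by
  obtain ⟨-, -, -, -, h1, -, -, -, -, -, h2, -, -⟩ := z_bounds
  exact ⟨by linarith, mul_pos Real.pi_pos (by linarith)⟩

theorem rd_me (χ : ℝ) (hs : 0 < Real.sin χ) : {z : ℝ | me (0, z) χ = 0}.Subsingleton := by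
  intro z hz z' hz'
  simp only [mem_ofPred_eq, me, zϖ] at hz hz'
  have h : (z - z') * Real.sin χ = 0 := by linarith
  rcases mul_eq_zero.1 h with h | h
  · linarith
  · exact absurd h hs.ne'

theorem rd_mY (χ : ℝ) (hs : 0 < Real.sin χ) : {z : ℝ | mY (0, z) χ = 0}.Subsingleton := by
  intro z hz z' hz'
  simp only [mem_ofPred_eq, mY, zϖ, zρ] at hz hz'
  have h : (z - z') * Real.cos χ = 0 := by linarith
  rcases mul_eq_zero.1 h with h | h
  · linarith
  · exfalso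
    have h1 := Real.sin_sq_add_cos_sq χ
    rw [h] at h1 hz
    have h2 : Real.sin χ = 1 := by nlinarith
    rw [h2] at hz
    norm_num at hz

theorem rd_n (χ : ℝ) (hs : 0 < Real.sin χ) (n : ℤ) :
    {z : ℝ | 2 * rh * mD (0, z) χ = n * (Real.pi * mΛ * mY (0, z) χ)}.Subsingleton := by
  intro z hz z' hz'
  obtain ⟨hrh, hm⟩ := rd_pos
  simp only [mem_ofPred_eq, mY, mD, zϖ, zρ] at hz hz'
  set N : ℝ := n * (Real.pi * mΛ) with hN
  have e1 : 2 * rh * (2 * (Real.cos χ / Real.sin χ - (1 / 2 + 2 * 0 + z))) =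
      N * ((1 / 2 + 2 * 0 + z) * Real.cos χ + Real.sin χ - (1 / 2 + 0)) := by
    rw [hz, hN]; ring
  have e2 : 2 * rh * (2 * (Real.cos χ / Real.sin χ - (1 / 2 + 2 * 0 + z'))) =
      N * ((1 / 2 + 2 * 0 + z') * Real.cos χ + Real.sin χ - (1 / 2 + 0)) := by
    rw [hz', hN]; ring
  have h : (z - z') * (4 * rh + N * Real.cos χ) = 0 := by linarith
  rcases mul_eq_zero.1 h with h | h
  · linarith
  · exfalso
    have h1 := Real.sin_sq_add_cos_sq χ
    have h3 : 4 * rh = -(N * Real.cos χ) := by linarith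
    have e3 : Real.sin χ * (2 * rh * (2 * (Real.cos χ / Real.sin χ - (1 / 2 + 2 * 0 + z)))) =
        4 * rh * (Real.cos χ - (1 / 2 + z) * Real.sin χ) := by
      field_simp; ring
    have e4 : 4 * rh * (Real.cos χ - (1 / 2 + z) * Real.sin χ) =
        Real.sin χ * (N * ((1 / 2 + 2 * 0 + z) * Real.cos χ + Real.sin χ - (1 / 2 + 0))) := by
      rw [← e3, e1]
    rw [h3] at e4
    have e5 : N * (1 - Real.sin χ / 2) = 0 := by
      have : N * (Real.cos χ ^ 2 + Real.sin χ ^ 2 - Real.sin χ / 2) = 0 := by nlinarith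
      rw [show Real.cos χ ^ 2 + Real.sin χ ^ 2 = 1 by linarith] at this
      exact this
    have h4 : 1 - Real.sin χ / 2 ≠ 0 := by
      have := Real.sin_le_one χ
      intro h; linarith
    rcases mul_eq_zero.1 e5 with h5 | h5
    · rw [h5] at h3; linarith
    · exact h4 h5

theorem choose_X0_pr (χ : ℝ) (h0 : 0 < χ) (h1 : χ ≤ Real.pi / 2) (δ : ℝ) (hδ : 0 < δ) :
    ∃ X : Pl, ‖X‖ ≤ δ ∧ me X χ ≠ 0 ∧ mY X χ ≠ 0 ∧
      ∀ n : ℤ, 2 * rh * mD X χ / (Real.pi * mΛ * mY X χ) ≠ n := by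
  have hs : 0 < Real.sin χ := Real.sin_pos_of_pos_of_lt_pi h0 (by linarith [Real.pi_pos])
  obtain ⟨hrh, hm⟩ := rd_pos
  have hB : ({z : ℝ | me (0, z) χ = 0} ∪ {z : ℝ | mY (0, z) χ = 0} ∪
      ⋃ n : ℤ, {z : ℝ | 2 * rh * mD (0, z) χ = n * (Real.pi * mΛ * mY (0, z) χ)}).Countable := by
    refine ((rd_me χ hs).countable.union (rd_mY χ hs).countable).union ?_
    exact countable_iUnion fun n => (rd_n χ hs n).countable
  obtain ⟨z, hz, hz1⟩ := (hB.dense_compl ℝ).exists_between hδ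
  simp only [mem_compl_iff, mem_union, mem_ofPred_eq, mem_iUnion, not_or, not_exists] at hz
  obtain ⟨⟨a1, a2⟩, a3⟩ := hz
  refine ⟨(0, z), ?_, a1, a2, fun n hn => ?_⟩
  · rw [Prod.norm_def]
    refine max_le (by simpa using hδ.le) ?_
    rw [Real.norm_eq_abs, abs_of_pos hz1.1]
    exact hz1.2.le
  · apply a3 n
    rw [div_eq_iff (mul_ne_zero hm.ne' a2)] at hn
    exact hn

theorem rd_mir (X : Pl) (χ : ℝ) : me (mir X) (Real.pi - χ) = -me X χ ∧
    mY (mir X) (Real.pi - χ) = mY X χ ∧ mD (mir X) (Real.pi - χ) = -mD X χ := by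
  have e1 : zϖ (mir X) = -zϖ X := by simp only [zϖ, mir]; ring
  have e2 : zρ (mir X) = zρ X := rfl
  refine ⟨?_, ?_, ?_⟩
  · simp only [me, e1, Real.cos_pi_sub, Real.sin_pi_sub]; ring
  · simp only [mY, e1, e2, Real.cos_pi_sub, Real.sin_pi_sub]; ring
  · simp only [mD, e1, Real.cos_pi_sub, Real.sin_pi_sub]; ring

theorem choose_X_pr (side : Bool) (χ c1 δ : ℝ) (hc1 : 0 < c1) (hc1' : 10 * c1 ≤ δ)
    (hδ : δ ≤ 1 / 100)
    (h0 : (if side then Real.pi / 2 else 0) ≤ χ) (h1 : χ ≤ (if side then Real.pi else Real.pi / 2)) :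
    ∃ X : Pl, ‖X - vS side‖ ≤ δ ∧ me X χ ≠ 0 ∧
      ((mY X χ = 0 ∧ (if side then Real.pi - c1 ≤ χ else χ ≤ c1)) ∨
      (Real.sin χ ≠ 0 ∧ mY X χ ≠ 0 ∧
        ∀ n : ℤ, 2 * rh * mD X χ / (Real.pi * mΛ * mY X χ) ≠ n)) := by
  have hδ0 : 0 < δ := by linarith
  cases side with
  | false =>
    simp only [Bool.false_eq_true, if_false] at h0 h1 ⊢
    rcases h0.eq_or_lt with h | h
    · refine ⟨0, ?_, ?_, Or.inl ⟨?_, ?_⟩⟩
      · simpa [vS] using hδ0.le
      · rw [← h]; simp [me]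
      · rw [← h]; simp [mY, zϖ, zρ]
      · rw [← h]; exact hc1.le
    · obtain ⟨X, a1, a2, a3, a4⟩ := choose_X0_pr χ h h1 δ hδ0
      refine ⟨X, ?_, a2, Or.inr ⟨?_, a3, a4⟩⟩
      · simpa [vS] using a1
      · exact (Real.sin_pos_of_pos_of_lt_pi h (by linarith [Real.pi_pos])).ne'
  | true =>
    simp only [if_true] at h0 h1 ⊢
    set χ' := Real.pi - χ with hχ'
    have hχ : χ = Real.pi - χ' := by rw [hχ']; ring
    have h0' : 0 ≤ χ' := by rw [hχ']; linarith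
    have h1' : χ' ≤ Real.pi / 2 := by rw [hχ']; linarith
    rcases h0'.eq_or_lt with h | h
    · have hpi : χ = Real.pi := by rw [hχ, ← h]; ring
      refine ⟨Xcp, ?_, ?_, Or.inl ⟨?_, ?_⟩⟩
      · simpa [vS] using hδ0.le
      · rw [hpi]; simp [me]
      · rw [hpi]; simp [mY, zϖ, zρ, Xcp]; norm_num
      · rw [hpi]; linarith
    · obtain ⟨X, a1, a2, a3, a4⟩ := choose_X0_pr χ' h h1' (δ / 5) (by positivity)
      obtain ⟨b1, b2, b3⟩ := rd_mir X χ'
      rw [← hχ] at b1 b2 b3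
      have hx : |X.1| ≤ δ / 5 := (norm_fst_le X).trans a1
      have hz : |X.2| ≤ δ / 5 := (norm_snd_le X).trans a1
      refine ⟨mir X, ?_, ?_, Or.inr ⟨?_, ?_, ?_⟩⟩
      · rw [Prod.norm_def]
        have hx' := abs_le.1 hx
        have hz' := abs_le.1 hz
        refine max_le ?_ ?_
        · rw [Real.norm_eq_abs, abs_le]
          simp only [mir, vS, Xcp, if_true, Prod.fst_sub]
          exact ⟨by linarith [hx'.1], by linarith [hx'.2]⟩
        · rw [Real.norm_eq_abs, abs_le]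
          simp only [mir, vS, Xcp, if_true, Prod.snd_sub]
          exact ⟨by linarith [hx'.2, hz'.2], by linarith [hx'.1, hz'.1]⟩
      · rw [b1]; exact neg_ne_zero.2 a2
      · rw [hχ, Real.sin_pi_sub]
        exact (Real.sin_pos_of_pos_of_lt_pi h (by linarith [Real.pi_pos])).ne'
      · rw [b2]; exact a3
      · intro n hn
        apply a4 (-n)
        rw [b2, b3] at hn
        push_cast
        rw [← hn]
        ring

theorem choose_fix_pr (side : Bool) (X : Pl) (hX : ‖X - vS side‖ ≤ 1 / 100) :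
    me X (-(Real.pi / 2)) ≠ 0 ∧ mY X (-(Real.pi / 2)) ≠ 0 ∧
      ∀ n : ℤ, 2 * rh * mD X (-(Real.pi / 2)) / (Real.pi * mΛ * mY X (-(Real.pi / 2))) ≠ n := by
  have hx : |(X - vS side).1| ≤ 1 / 100 := (norm_fst_le _).trans hX
  have hz : |(X - vS side).2| ≤ 1 / 100 := (norm_snd_le _).trans hX
  have hw : (47 / 100 ≤ zϖ X ∧ zϖ X ≤ 53 / 100) ∨ (47 / 100 ≤ -zϖ X ∧ -zϖ X ≤ 53 / 100) := by
    cases side with
    | false =>
      left
      simp only [vS, Bool.false_eq_true, if_false, sub_zero] at hx hz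
      have hx' := abs_le.1 hx
      have hz' := abs_le.1 hz
      simp only [zϖ]
      exact ⟨by linarith [hx'.1, hz'.1], by linarith [hx'.2, hz'.2]⟩
    | true =>
      right
      simp only [vS, Xcp, if_true, Prod.fst_sub, Prod.snd_sub, sub_zero] at hx hz
      have hx' := abs_le.1 hx
      have hz' := abs_le.1 hz
      simp only [zϖ]
      exact ⟨by linarith [hx'.2, hz'.2], by linarith [hx'.1, hz'.1]⟩
  have hr : 149 / 100 ≤ 1 + zρ X := by
    have : |X.1| ≤ 1 / 100 := by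
      cases side with
      | false => simpa [vS] using hx
      | true => simpa [vS, Xcp] using hx
    have := (abs_le.1 this).1
    simp only [zρ]
    linarith
  have c1 : Real.cos (-(Real.pi / 2)) = 0 := by rw [Real.cos_neg, Real.cos_pi_div_two]
  have s1 : Real.sin (-(Real.pi / 2)) = -1 := by rw [Real.sin_neg, Real.sin_pi_div_two]
  have e1 : me X (-(Real.pi / 2)) = zϖ X := by simp only [me, c1, s1]; ring
  have e2 : mY X (-(Real.pi / 2)) = -(1 + zρ X) := by simp only [mY, c1, s1]; ring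
  have e3 : mD X (-(Real.pi / 2)) = -2 * zϖ X := by simp only [mD, c1, s1]; ring
  have hw0 : zϖ X ≠ 0 := by
    intro h
    rw [h] at hw
    rcases hw with h | h <;> linarith [h.1]
  obtain ⟨-, -, -, -, hrh, hrh', -, -, -, -, hm, -, -⟩ := z_bounds
  have hpi := Real.pi_gt_three
  refine ⟨by rw [e1]; exact hw0, by rw [e2]; intro h; linarith, ?_⟩
  intro n hn
  rw [e2, e3] at hn
  set D := Real.pi * mΛ * (1 + zρ X) with hD
  have hD1 : 12 < D := by
    have h1 : 12 < Real.pi * mΛ := by nlinarith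
    rw [hD]; nlinarith
  have hn' : 4 * rh * zϖ X = n * D := by
    have e : 2 * rh * (-2 * zϖ X) / (Real.pi * mΛ * -(1 + zρ X)) = 4 * rh * zϖ X / D := by
      rw [hD, mul_neg, div_neg]
      ring
    rw [e, div_eq_iff (by linarith)] at hn
    exact hn
  have hn0 : (n : ℝ) ≠ 0 := by
    intro h
    rw [h, zero_mul] at hn'
    rcases mul_eq_zero.1 hn' with h | h
    · linarith
    · exact hw0 h
  have hn1 : 1 ≤ |(n : ℝ)| := by
    have : n ≠ 0 := by exact_mod_cast hn0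
    have := Int.one_le_abs this
    exact_mod_cast this
  have h1 : |4 * rh * zϖ X| < 12 := by
    have : |zϖ X| ≤ 53 / 100 := by
      rw [abs_le]
      rcases hw with h | h
      · exact ⟨by linarith [h.1], h.2⟩
      · exact ⟨by linarith [h.2], by linarith [h.1]⟩
    rw [abs_mul, abs_of_pos (by linarith : 0 < 4 * rh)]
    nlinarith [abs_nonneg (zϖ X)]
  rw [hn', abs_mul, abs_of_pos (by linarith : 0 < D)] at h1
  nlinarith

end

end Pool.Agent.HS

namespace Pool.Agent.HS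
open Set Filter Topology
open scoped ContDiff

theorem choose_X0 (χ : ℝ) (h0 : 0 < χ) (h1 : χ ≤ Real.pi / 2) (δ : ℝ) (hδ : 0 < δ) :
    ∃ X : Pl, ‖X‖ ≤ δ ∧ me X χ ≠ 0 ∧ mY X χ ≠ 0 ∧
      ∀ n : ℤ, 2 * rh * mD X χ / (Real.pi * mΛ * mY X χ) ≠ n :=
  @Pool.Agent.HS.choose_X0_pr χ h0 h1 δ hδ

end Pool.Agent.HS

namespace Pool.Agent.HS
open Set Filter Topology
open scoped ContDiff

theorem choose_X (side : Bool) (χ c1 δ : ℝ) (hc1 : 0 < c1) (hc1' : 10 * c1 ≤ δ) (hδ : δ ≤ 1 / 100)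
    (h0 : (if side then Real.pi / 2 else 0) ≤ χ) (h1 : χ ≤ (if side then Real.pi else Real.pi / 2)) :
    ∃ X : Pl, ‖X - vS side‖ ≤ δ ∧ me X χ ≠ 0 ∧
      ((mY X χ = 0 ∧ (if side then Real.pi - c1 ≤ χ else χ ≤ c1)) ∨
      (Real.sin χ ≠ 0 ∧ mY X χ ≠ 0 ∧
        ∀ n : ℤ, 2 * rh * mD X χ / (Real.pi * mΛ * mY X χ) ≠ n)) :=
  @Pool.Agent.HS.choose_X_pr side χ c1 δ hc1 hc1' hδ h0 h1

end Pool.Agent.HS

namespace Pool.Agent.HS
open Set Filter Topology
open scoped ContDiff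

theorem choose_fix (side : Bool) (X : Pl) (hX : ‖X - vS side‖ ≤ 1 / 100) :
    me X (-(Real.pi / 2)) ≠ 0 ∧ mY X (-(Real.pi / 2)) ≠ 0 ∧
      ∀ n : ℤ, 2 * rh * mD X (-(Real.pi / 2)) / (Real.pi * mΛ * mY X (-(Real.pi / 2))) ≠ n :=
  @Pool.Agent.HS.choose_fix_pr side X hX

end Pool.Agent.HS
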