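import Pool.Agent.Lib_helper60.HSF.D_WR
import Pool.Agent.Lib_helper60.HSF.Z_LD1
import Pool.Agent.Lib_helper60.HSF.Z_ZD4
import Pool.Agent.Lib_helper60.HSF.Z_ZC
import Pool.Agent.Lib_helper60.HSF.N_MI

/-!
# Project HS, block RE1: direction families with `ν > 0`
-/

namespace Pool.Agent.HS

noncomputable section

open Set Filter Topology
open scoped ContDiff

/-- derivative of `mY` along a map -/
theorem re1_mY {χ : Pl → ℝ} {X : Pl} {A : Pl →L[ℝ] ℝ} (h : HasFDerivAt χ A X) :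
    HasFDerivAt (fun Y => mY Y (χ Y))
      (Real.cos (χ X) • ((2:ℝ) • ContinuousLinearMap.fst ℝ ℝ ℝ + ContinuousLinearMap.snd ℝ ℝ ℝ) -
        ContinuousLinearMap.fst ℝ ℝ ℝ + me X (χ X) • A) X := by
  have hf : HasFDerivAt (fun Y : Pl => Y.1) (ContinuousLinearMap.fst ℝ ℝ ℝ) X :=
    (ContinuousLinearMap.fst ℝ ℝ ℝ).hasFDerivAt
  have hs : HasFDerivAt (fun Y : Pl => Y.2) (ContinuousLinearMap.snd ℝ ℝ ℝ) X :=
    (ContinuousLinearMap.snd ℝ ℝ ℝ).hasFDerivAt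
  have hϖ : HasFDerivAt (fun Y : Pl => 1/2 + 2 * Y.1 + Y.2)
      ((2:ℝ) • ContinuousLinearMap.fst ℝ ℝ ℝ + ContinuousLinearMap.snd ℝ ℝ ℝ) X := by
    exact ((hf.const_mul 2).const_add (1/2)).add hs
  have hρ : HasFDerivAt (fun Y : Pl => 1/2 + Y.1) (ContinuousLinearMap.fst ℝ ℝ ℝ) X :=
    hf.const_add (1/2)
  have h1 := ((hϖ.mul h.cos).add h.sin).sub hρ
  have e1 : (fun Y => mY Y (χ Y)) = fun Y : Pl => (1/2 + 2 * Y.1 + Y.2) * Real.cos (χ Y) +
      Real.sin (χ Y) - (1/2 + Y.1) := by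
    funext Y; rfl
  rw [e1]
  refine h1.congr_fderiv ?_
  ext
  · simp [me, zϖ]
    ring
  · simp [me, zϖ]
    ring

theorem re1_der {j νs χs r : ℝ} {Xs : Pl} (hr : 0 < r) (hν : 0 < νs) (hs : Real.sin χs ≠ 0)
    (he : me Xs χs ≠ 0) {g : ℝ × ℝ × Pl → ℝ}
    (hg : ContDiffOn ℝ 2 g (Metric.ball (0, νs, Xs) r)) (hv : g (0, νs, Xs) = χs)
    (hz : ∀ p ∈ Metric.ball ((0, νs, Xs) : ℝ × ℝ × Pl) r, zΘ j p.1 p.2.1 p.2.2 (g p) = 0) (v : Pl) :
    fderiv ℝ (fun X => g (0, νs, X)) Xs v = dirD Xs χs v := by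
  have h1 : ContDiffAt ℝ 2 g (0, νs, Xs) := hg.contDiffAt (Metric.ball_mem_nhds _ hr)
  have h2 : ContDiffAt ℝ 2 (fun X : Pl => g (0, νs, X)) Xs :=
    ContDiffAt.comp (f := fun X : Pl => ((0, νs, X) : ℝ × ℝ × Pl)) (g := g) Xs h1 (by fun_prop)
  have h3 : HasFDerivAt (fun X : Pl => g (0, νs, X)) (fderiv ℝ (fun X => g (0, νs, X)) Xs) Xs :=
    (h2.differentiableAt (by norm_num)).hasFDerivAt
  have h4 := re1_mY h3
  simp only [hv] at h4
  have hΛ : mΛ ≠ 0 := by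
    have := z_bounds.2.2.2.2.2.2.2.2.2.2.1
    linarith
  -- `mY` is constant
  have hc : (fun Y => mY Y (g (0, νs, Y))) =ᶠ[𝓝 Xs] fun _ => j / (νs * mΛ) := by
    have h5 : ∀ᶠ Y in 𝓝 Xs, Real.sin (g (0, νs, Y)) ≠ 0 := by
      have h6 : ContinuousAt (fun Y : Pl => Real.sin (g (0, νs, Y))) Xs :=
        Real.continuous_sin.continuousAt.comp h2.continuousAt
      have h7 : Real.sin (g (0, νs, Xs)) ≠ 0 := by rw [hv]; exact hs
      exact h6.eventually_ne h7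
    have h8 : ∀ᶠ Y in 𝓝 Xs, Y ∈ Metric.ball Xs r := Metric.ball_mem_nhds Xs hr
    filter_upwards [h5, h8] with Y hY1 hY2
    have h9 : ((0, νs, Y) : ℝ × ℝ × Pl) ∈ Metric.ball ((0, νs, Xs) : ℝ × ℝ × Pl) r := by
      rw [Metric.mem_ball]
      refine max_lt (by rw [dist_self]; exact hr) (max_lt (by rw [dist_self]; exact hr) hY2)
    have h10 := hz _ h9
    simp only at h10
    rw [(zΞ_zero j νs Y hY1).2.2.1] at h10
    rw [eq_div_iff (mul_ne_zero hν.ne' hΛ)]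
    linarith
  have h11 : HasFDerivAt (fun Y => mY Y (g (0, νs, Y))) (0 : Pl →L[ℝ] ℝ) Xs :=
    (hasFDerivAt_const (j / (νs * mΛ)) Xs).congr_of_eventuallyEq hc
  have h12 := h4.unique h11
  have h13 := DFunLike.congr_fun h12 v
  simp only [add_apply, sub_apply,
    smul_apply, zero_apply, smul_eq_mul,
    ContinuousLinearMap.coe_fst', ContinuousLinearMap.coe_snd'] at h13
  unfold dirD
  rw [eq_div_iff he]
  linarith

theorem famK_pr (side : Bool) (Xs : Pl) (χs : ℝ) (hs : Real.sin χs ≠ 0) (he : me Xs χs ≠ 0)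
    (hY : mY Xs χs ≠ 0) (hq : ∀ n : ℤ, 2 * rh * mD Xs χs / (Real.pi * mΛ * mY Xs χs) ≠ n) :
    ∃ (νs r : ℝ) (g : ℝ × ℝ × Pl → ℝ), 0 < νs ∧ DFam side 0 (fun _ => True) Xs χs νs r g := by
  have hΛ : 0 < mΛ := by
    have := z_bounds.2.2.2.2.2.2.2.2.2.2.1
    linarith
  have hπ := Real.pi_pos
  have hYa : 0 < |mY Xs χs| := abs_pos.mpr hY
  set νs : ℝ := 1 / (mΛ * |mY Xs χs|) with hνs
  have hν : 0 < νs := by positivity
  obtain ⟨j, hj, hjY⟩ : ∃ j : ℤ, (j = 1 ∨ j = -1) ∧ |mY Xs χs| = j * mY Xs χs := by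
    rcases le_or_gt 0 (mY Xs χs) with h | h
    · exact ⟨1, Or.inl rfl, by rw [abs_of_nonneg h]; simp⟩
    · exact ⟨-1, Or.inr rfl, by rw [abs_of_neg h]; simp⟩
  have hj2 : (j : ℝ) * j = 1 := by rcases hj with h | h <;> rw [h] <;> norm_num
  have hj0 : (j : ℝ) ≠ 0 := by intro h; rw [h] at hj2; norm_num at hj2
  have hYj : νs * (mΛ * mY Xs χs) = j := by
    have e : mY Xs χs = j * |mY Xs χs| := by rw [hjY, ← mul_assoc, hj2, one_mul]
    rw [hνs, e, abs_mul, abs_abs]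
    have : |(j:ℝ)| = 1 := by rcases hj with h | h <;> rw [h] <;> norm_num
    rw [this]
    field_simp
  have hD : ∀ n : ℤ, νs * (2 * rh * mD Xs χs / Real.pi) ≠ n := by
    intro n hn
    apply hq (j * n)
    push_cast
    rw [← hn, hνs, hjY]
    have h1 : (j:ℝ) * (1 / (mΛ * (j * mY Xs χs)) * (2 * rh * mD Xs χs / Real.pi)) =
        2 * rh * mD Xs χs / (Real.pi * mΛ * mY Xs χs) := by
      field_simp
    rw [h1]
  obtain ⟨r, hr, hr1, g, hg, hv, hz, harc⟩ := tarc_pw j νs χs Xs hj hs hν hYj he hD 1 one_pos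
  refine ⟨νs, r, g, hν, hr, hg, hv, fun v => ?_, ?_⟩
  · exact re1_der hr hν hs he hg hv (fun p hp => (hz p hp).2.2) v
  · intro C K hC hCr hK X hX _ δ hδ
    have hd : dist X Xs < r := hX
    set h1 : ℝ := min δ ((r - dist X Xs) / 2) with hh1
    have hh10 : 0 < h1 := lt_min hδ (by linarith)
    have hr' : (r + dist X Xs) / 2 < r := by linarith
    obtain ⟨a1, a2, _⟩ := harc C K hC hCr hK _ hr'
    have hsub : Metric.closedBall X h1 ⊆ Metric.closedBall Xs ((r + dist X Xs) / 2) := by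
      apply Metric.closedBall_subset_closedBall'
      have : h1 ≤ (r - dist X Xs) / 2 := min_le_right _ _
      linarith
    refine ⟨0, h1, δ, _, 0, Fin.elim0, hh10, min_le_left _ _, hδ, le_refl _, le_refl _,
      rarc_mono a1 (isCompact_closedBall X h1) hsub, ?_, fun j => Fin.elim0 j⟩
    intro h _ hh
    refine ⟨fun j => Fin.elim0 j, fun Y hY τ _ _ => ?_⟩
    exact a2 Y (hsub (Metric.closedBall_subset_closedBall hh hY)) τ

end

end Pool.Agent.HS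

namespace Pool.Agent.HS
open Set Filter Topology
open scoped ContDiff

theorem famK (side : Bool) (Xs : Pl) (χs : ℝ) (hs : Real.sin χs ≠ 0) (he : me Xs χs ≠ 0)
    (hY : mY Xs χs ≠ 0) (hq : ∀ n : ℤ, 2 * rh * mD Xs χs / (Real.pi * mΛ * mY Xs χs) ≠ n) :
    ∃ (νs r : ℝ) (g : ℝ × ℝ × Pl → ℝ), 0 < νs ∧ DFam side 0 (fun _ => True) Xs χs νs r g :=
  @Pool.Agent.HS.famK_pr side Xs χs hs he hY hq

end Pool.Agent.HS
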