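import Pool.Agent.Lib_helper60.HSF.D_WR
import Pool.Agent.Lib_helper60.HSF.Z_RC
import Pool.Agent.Lib_helper60.HSF.N_MI
import Pool.Agent.Lib_helper60.HSF.Z_QA9
import Pool.Agent.Lib_helper60.HSF.Z_ZE
import Pool.Agent.Lib_helper60.HSF.Z_QA8
import Pool.Agent.Lib_helper60.HSF.Z_ZC
import Pool.Agent.Lib_helper60.HSF.Z_QA6
import Pool.Agent.Lib_helper60.HSF.Z_ZA1
import Pool.Agent.Lib_helper60.HSF.Z_QB6
import Pool.Agent.Lib_helper60.HSF.Z_QA1
import Pool.Agent.Lib_helper60.HSF.Z_QB7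

/-! Project HS, block RE2: base families -/

namespace Pool.Agent.HS

noncomputable section

open Set Filter Topology
open scoped ContDiff

/-! ### closed forms -/

theorem re2_rh : 0 < rh := by linarith [z_bounds.2.2.2.2.1]
theorem re2_kh : 0 < kh := by linarith [z_bounds.2.2.1]
theorem re2_cc : 0 < cc := by linarith [z_bounds.2.2.2.2.2.2.1]

theorem re2_zU (C : ℝ) (X : Pl) : (zU C X).re = zϖ X / rh ∧ (zU C X).im = 1 / zr C X := by
  unfold zU
  constructor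
  · rw [Complex.add_re, Complex.re_ofReal_mul, Complex.ofReal_re, Complex.I_re]
    ring
  · rw [Complex.add_im, Complex.im_ofReal_mul, Complex.ofReal_im, Complex.I_im]
    ring

theorem re2_zE (C : ℝ) (X : Pl) (χ : ℝ) : zE C X χ =
    zk C X * (Real.cos χ * (zϖ X / rh) + Real.sin χ * (1 / zr C X)) +
      8 / 3 * (-(zρ X) / (cc * rh ^ 2 * zr C X) -
        C * ((zϖ X / rh) ^ 2 + (1 / zr C X) ^ 2) / 2) := by
  obtain ⟨h1, h2⟩ := re2_zU C X
  have e1 : ‖zU C X‖ ^ 2 = (zϖ X / rh) ^ 2 + (1 / zr C X) ^ 2 := by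
    rw [← Complex.normSq_eq_norm_sq, Complex.normSq_apply, h1, h2]
    ring
  have e2 : ((starRingEnd ℂ) (zw C X χ) * zU C X).re =
      zk C X * (Real.cos χ * (zϖ X / rh) + Real.sin χ * (1 / zr C X)) := by
    rw [Complex.mul_re, Complex.conj_re, Complex.conj_im, h1, h2]
    unfold zw
    rw [Complex.re_ofReal_mul, Complex.im_ofReal_mul, Complex.exp_ofReal_mul_I_re,
      Complex.exp_ofReal_mul_I_im]
    ring
  unfold zE
  rw [e1, e2]

theorem re2_zr (C : ℝ) (X : Pl) : zr C X = rh + C * (1 / 2 + X.1) / (cc * rh) := rfl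

theorem re2_zr0 (X : Pl) : zr 0 X = rh := by
  rw [re2_zr]
  ring

/-- the square of the relative speed -/
def re2_k2 (p : ℝ × Pl) : ℝ := 2 / (ma * mb) * (E0 + 1 / zr p.1 p.2 -
  ((p.1 * (1 / 2 + 2 * p.2.1 + p.2.2) / rh) ^ 2 + p.1 ^ 2 / zr p.1 p.2 ^ 2) / 2)

theorem re2_zk (C : ℝ) (X : Pl) : zk C X = Real.sqrt (re2_k2 (C, X)) := rfl

theorem re2_k20 (X : Pl) : re2_k2 (0, X) = kh ^ 2 := by
  unfold re2_k2
  rw [re2_zr0]
  have h := E0_rh
  have hma : ma * mb ≠ 0 := by unfold ma mb; norm_num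
  have : E0 + 1 / rh - (((0:ℝ) * (1 / 2 + 2 * X.1 + X.2) / rh) ^ 2 + (0:ℝ) ^ 2 / rh ^ 2) / 2 =
      ma * mb * kh ^ 2 / 2 := by
    rw [← h]
    ring
  rw [this]
  rw [show 2 / (ma * mb) * (ma * mb * kh ^ 2 / 2) = kh ^ 2 * ((ma * mb) / (ma * mb)) by ring,
    div_self hma, mul_one]

theorem re2_zk0 (X : Pl) : zk 0 X = kh := by
  rw [re2_zk, re2_k20, Real.sqrt_sq re2_kh.le]

theorem re2_zE0 (X : Pl) (χ : ℝ) : zE 0 X χ = kh / rh * mY X χ := by
  rw [re2_zE, re2_zk0, re2_zr0]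
  unfold mY cc
  have h1 := re2_rh.ne'
  have h2 := re2_kh.ne'
  field_simp
  ring

/-! ### smoothness -/

theorem re2_zr_cd : ContDiff ℝ ∞ (fun p : ℝ × Pl => zr p.1 p.2) := by
  have : (fun p : ℝ × Pl => zr p.1 p.2) =
      fun p : ℝ × Pl => rh + p.1 * (1 / 2 + p.2.1) / (cc * rh) := rfl
  rw [this]
  fun_prop

theorem re2_k2_cd {p : ℝ × Pl} (h : zr p.1 p.2 ≠ 0) : ContDiffAt ℝ ∞ re2_k2 p := by
  have h1 : ContDiffAt ℝ ∞ (fun p : ℝ × Pl => zr p.1 p.2) p := re2_zr_cd.contDiffAt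
  unfold re2_k2
  refine ContDiffAt.mul contDiffAt_const (ContDiffAt.sub (ContDiffAt.add contDiffAt_const
    (contDiffAt_const.div h1 h)) (ContDiffAt.div_const (ContDiffAt.add ?_ ?_) 2))
  · fun_prop
  · exact (contDiffAt_fst.pow 2).div (h1.pow 2) (pow_ne_zero 2 h)

theorem re2_zk_cd {p : ℝ × Pl} (h : zr p.1 p.2 ≠ 0) (h2 : re2_k2 p ≠ 0) :
    ContDiffAt ℝ ∞ (fun p : ℝ × Pl => zk p.1 p.2) p :=
  (re2_k2_cd h).sqrt h2

theorem re2_zE_cd {q : (ℝ × Pl) × ℝ} (h : zr q.1.1 q.1.2 ≠ 0) (h2 : re2_k2 q.1 ≠ 0) :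
    ContDiffAt ℝ ∞ (fun q : (ℝ × Pl) × ℝ => zE q.1.1 q.1.2 q.2) q := by
  have hr : ContDiffAt ℝ ∞ (fun q : (ℝ × Pl) × ℝ => zr q.1.1 q.1.2) q :=
    (re2_zr_cd.comp contDiff_fst).contDiffAt
  have hk : ContDiffAt ℝ ∞ (fun q : (ℝ × Pl) × ℝ => zk q.1.1 q.1.2) q :=
    ContDiffAt.comp (g := fun p : ℝ × Pl => zk p.1 p.2) (f := fun q : (ℝ × Pl) × ℝ => q.1) q
      (re2_zk_cd h h2) contDiffAt_fst
  have e : (fun q : (ℝ × Pl) × ℝ => zE q.1.1 q.1.2 q.2) = fun q : (ℝ × Pl) × ℝ =>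
      zk q.1.1 q.1.2 * (Real.cos q.2 * ((1/2 + 2 * q.1.2.1 + q.1.2.2) / rh) +
        Real.sin q.2 * (1 / zr q.1.1 q.1.2)) +
      8 / 3 * (-(1/2 + q.1.2.1) / (cc * rh ^ 2 * zr q.1.1 q.1.2) -
        q.1.1 * (((1/2 + 2 * q.1.2.1 + q.1.2.2) / rh) ^ 2 + (1 / zr q.1.1 q.1.2) ^ 2) / 2) := by
    funext q
    exact re2_zE _ _ _
  rw [e]
  have hi : ContDiffAt ℝ ∞ (fun q : (ℝ × Pl) × ℝ => 1 / zr q.1.1 q.1.2) q :=
    contDiffAt_const.div hr h
  have hj : ContDiffAt ℝ ∞ (fun q : (ℝ × Pl) × ℝ =>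
      -(1/2 + q.1.2.1) / (cc * rh ^ 2 * zr q.1.1 q.1.2)) q := by
    refine ContDiffAt.div (by fun_prop) (contDiffAt_const.mul hr) ?_
    have h1 := re2_rh.ne'
    have h2 := re2_cc.ne'
    positivity
  refine (hk.mul (ContDiffAt.add (ContDiffAt.mul ?_ ?_) (ContDiffAt.mul ?_ hi))).add
    (contDiffAt_const.mul (hj.sub (ContDiffAt.div_const (ContDiffAt.mul ?_
      (ContDiffAt.add (ContDiffAt.pow ?_ 2) (hi.pow 2))) 2)))
  · exact Real.contDiff_cos.contDiffAt.comp q contDiffAt_snd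
  · fun_prop
  · exact Real.contDiff_sin.contDiffAt.comp q contDiffAt_snd
  · fun_prop
  · fun_prop

/-! ### energies -/

theorem re2_en {C : ℝ} (hC : 0 < C ∧ C ≤ 1) {X : Pl} (hX : X ∈ CD C) {χ : ℝ}
    (hE : zE C X χ = 0) : kh' (z3 C X χ) = h30 ∧ kh' (z2 C X χ) = h20 ∧
      kh' (z3 C X χ) - kh' (z2 C X χ) = d0 := by
  obtain ⟨h1, h2, -⟩ := cd_en hC hX χ
  rw [hE, mul_zero, add_zero] at h2
  unfold E0 at h1
  unfold d0 at h2 ⊢
  unfold ma mb at h1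
  refine ⟨by linarith, by linarith, h2⟩

theorem re2_h : h30 < 0 ∧ h20 < 0 := by
  constructor
  · unfold h30; norm_num
  · unfold h20
    have : (0:ℝ) < (2:ℝ) ^ (-(1/3) : ℝ) := by positivity
    linarith

theorem re2_per3 {y : KS} (h : kh' y = h30) : kPer y = 2 * Real.pi := by
  unfold kPer kA
  rw [h]
  unfold h30
  have : (-1 / (2 * (-1 / 2)) : ℝ) = 1 := by norm_num
  rw [this, Real.sqrt_one]
  ring

theorem re2_per2 {y : KS} (h : kh' y = h20) : kPer y = Real.pi := by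
  unfold kPer kA
  rw [h]
  unfold h20
  set t : ℝ := (2:ℝ) ^ (-(1/3) : ℝ) with ht
  have ht0 : 0 < t := by positivity
  have ht3 : t ^ 3 = 1 / 2 := by
    rw [ht, ← Real.rpow_natCast, ← Real.rpow_mul (by norm_num)]
    norm_num
  have e1 : (-1 / (2 * -t) : ℝ) = 1 / (2 * t) := by
    rw [mul_neg, neg_div_neg_eq]
  rw [e1]
  have e2 : 1 / (2 * t) * Real.sqrt (1 / (2 * t)) = 1 / 2 := by
    have h1 : 0 < 1 / (2 * t) := by positivity
    have h2 : (1 / (2 * t) * Real.sqrt (1 / (2 * t))) ^ 2 = (1 / 2) ^ 2 := by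
      rw [mul_pow, Real.sq_sqrt h1.le]
      have : (1 / (2 * t)) ^ 2 * (1 / (2 * t)) = 1 / (8 * t ^ 3) := by
        field_simp
        ring
      rw [this, ht3]
      norm_num
    have h3 : 0 < 1 / (2 * t) * Real.sqrt (1 / (2 * t)) := by positivity
    exact (pow_left_inj₀ h3.le (by norm_num) (by norm_num)).mp h2
  calc 2 * Real.pi * (1 / (2 * t)) * Real.sqrt (1 / (2 * t)) =
      2 * Real.pi * (1 / (2 * t) * Real.sqrt (1 / (2 * t))) := by ring
    _ = Real.pi := by rw [e2]; ring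

/-! ### the arc at fixed `C`, `X` -/

theorem re2_sunw {C : ℝ} {i : Fin 2} {O O' : Set Pl} {χ τ0 : Pl → ℝ} {he : ℝ} {n : ℕ}
    {τm : Fin n → ℝ} (h : SunW C i O χ τ0 he n τm) (hs : O' ⊆ O) : SunW C i O' χ τ0 he n τm :=
  ⟨fun j X hX => h.1 j X (hs hX), fun X hX => h.2 X (hs hX)⟩

theorem re2_kL : ContDiff ℝ ∞ kL := by
  unfold kL
  have : (fun y : KS => ((starRingEnd ℂ) y.1 * y.2).im) =
      fun y : KS => y.1.re * y.2.im - y.1.im * y.2.re := by
    funext y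
    rw [Complex.mul_im, Complex.conj_re, Complex.conj_im]
    ring
  rw [this]
  have h1 : ContDiff ℝ ∞ (fun y : KS => y.1.re) := Complex.reCLM.contDiff.comp contDiff_fst
  have h2 : ContDiff ℝ ∞ (fun y : KS => y.1.im) := Complex.imCLM.contDiff.comp contDiff_fst
  have h3 : ContDiff ℝ ∞ (fun y : KS => y.2.re) := Complex.reCLM.contDiff.comp contDiff_snd
  have h4 : ContDiff ℝ ∞ (fun y : KS => y.2.im) := Complex.imCLM.contDiff.comp contDiff_snd
  exact (h1.mul h4).sub (h2.mul h3)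

theorem re2_le : (2 : WithTop ℕ∞) ≤ ∞ :=
  WithTop.coe_le_coe.mpr (le_top : (2 : ℕ∞) ≤ ⊤)

theorem re2_Lsm {C : ℝ} (hC : 0 < C ∧ C ≤ 1) {U : Set Pl} (hU : IsOpen U) (hUC : U ⊆ CD C)
    {χ : Pl → ℝ} (hχ : ContDiffOn ℝ 2 χ U) {X : Pl} (hX : X ∈ U) :
    ContDiffAt ℝ 2 (fun Y => kL (z3 C Y (χ Y))) X ∧
    ContDiffAt ℝ 2 (fun Y => kL (z2 C Y (χ Y))) X := by
  obtain ⟨h3, h2, -⟩ := cd_smooth hC
  have hUi : U ⊆ interior (CD C) := hU.subset_interior_iff.mpr hUC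
  have hm : ContDiffOn ℝ 2 (fun Y : Pl => (Y, χ Y)) U := contDiffOn_id.prodMk hχ
  have hmt : MapsTo (fun Y : Pl => (Y, χ Y)) U {p : Pl × ℝ | p.1 ∈ interior (CD C)} :=
    fun Y hY => hUi hY
  have hle : (2 : WithTop ℕ∞) ≤ ∞ := re2_le
  have a3 : ContDiffOn ℝ 2 (fun Y => z3 C Y (χ Y)) U := (h3.of_le hle).comp hm hmt
  have a2 : ContDiffOn ℝ 2 (fun Y => z2 C Y (χ Y)) U := (h2.of_le hle).comp hm hmt
  have b3 := (re2_kL.of_le hle).comp_contDiffOn a3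
  have b2 := (re2_kL.of_le hle).comp_contDiffOn a2
  exact ⟨b3.contDiffAt (hU.mem_nhds hX), b2.contDiffAt (hU.mem_nhds hX)⟩

theorem re2_arc (side : Bool) {C : ℝ} (hC : 0 < C ∧ C ≤ 1) {X : Pl} {U : Set Pl} (hU : IsOpen U)
    (hXU : X ∈ U) (hUC : U ⊆ CD C) {χ : Pl → ℝ} (hχ : ContDiffOn ℝ 2 χ U)
    (hE : ∀ Y ∈ U, zE C Y (χ Y) = 0) (hV : zX C X (χ X) ≠ 0)
    (hfree : ∀ i, LQ C i X (χ X) ≠ 0 → ∀ τ ∈ Ioo 0 (T0 C i X (χ X) 1 2),
      lcX (Zd i (limD C X (χ X)) τ) ≠ 0)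
    (hL3 : kL (z3 C X (χ X)) ≠ 0)
    (hcov : kL (z2 C X (χ X)) = 0 → ∀ i', ∀ v ∈ dcone side i',
      fderiv ℝ (fun Y => kL (z2 C Y (χ Y))) X v ≠ 0) : AtArc side 2 C X χ := by
  intro δ hδ
  have hen : ∀ Y ∈ U, kh' (z3 C Y (χ Y)) = h30 ∧ kh' (z2 C Y (χ Y)) = h20 := fun Y hY => by
    obtain ⟨a, b, -⟩ := re2_en hC (hUC hY) (hE Y hY)
    exact ⟨a, b⟩
  obtain ⟨e3, e2⟩ := hen X hXU
  have hEn : ∀ Y ∈ U, kh' (z3 C Y (χ Y)) = kh' (z3 C X (χ X)) ∧
      kh' (z2 C Y (χ Y)) = kh' (z2 C X (χ X)) := fun Y hY => by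
    rw [(hen Y hY).1, (hen Y hY).2, e3, e2]
    exact ⟨rfl, rfl⟩
  have h3 : kh' (z3 C X (χ X)) < 0 := by rw [e3]; exact re2_h.1
  have h2 : kh' (z2 C X (χ X)) < 0 := by rw [e2]; exact re2_h.2
  have hres : ((1 : ℕ) : ℝ) * kPer (z3 C X (χ X)) = ((2 : ℕ) : ℝ) * kPer (z2 C X (χ X)) := by
    rw [re2_per3 e3, re2_per2 e2]
    push_cast
    ring
  obtain ⟨s3, s2⟩ := re2_Lsm hC hU hUC hχ hXU
  by_cases hL2 : kL (z2 C X (χ X)) = 0
  · have hQ : LQ C 1 X (χ X) ≠ 0 := by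
      unfold LQ
      rw [if_neg (by decide)]
      exact hL3
    have hP : LP C 1 X (χ X) = 0 := by
      unfold LP
      rw [if_neg (by decide)]
      exact hL2
    obtain ⟨h1, hh1, -, hR⟩ := tarc_fun C hC 1 X 1 2 one_pos two_pos U hU hXU hUC χ hχ hEn h3 h2
      hres hV hQ (hfree 1 hQ)
    obtain ⟨he, τm, h1', hhe, hheδ, hh1', hlt, hz, hW⟩ := sun_windows C hC 1 X 1 2 χ U hU hXU hUC
      hχ.continuousOn h3 h2 hP δ hδ
    have m1 : min (min h1 h1') δ ≤ h1 := (min_le_left _ _).trans (min_le_left _ _)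
    have m2 : min (min h1 h1') δ ≤ h1' := (min_le_left _ _).trans (min_le_right _ _)
    have m3 : min (min h1 h1') δ ≤ δ := min_le_right _ _
    refine ⟨1, min (min h1 h1') δ, he, fun _ => T0 C 1 X (χ X) 1 2, _, τm,
      lt_min (lt_min hh1 hh1') hδ, m3, hhe, hheδ, ?_, ?_, ?_, ?_⟩
    · rw [if_neg (by decide)]
    · exact rarc_mono hR (isCompact_closedBall _ _) (Metric.closedBall_subset_closedBall m1)
    · intro h _ hle
      exact re2_sunw hW (Metric.closedBall_subset_closedBall (hle.trans m2))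
    · intro j i'
      have hfun : (fun Y => LP C 1 Y (χ Y)) = fun Y => kL (z2 C Y (χ Y)) := by
        funext Y
        unfold LP
        rw [if_neg (by decide)]
      refine sun_zeroV C hC 1 X χ U hU hXU hUC hχ h3 h2 (τm j) he hhe (hz j) (dcone side i')
        (fderiv ℝ (fun Y => kL (z2 C Y (χ Y))) X) ?_ (hcov hL2 i') hlt
      rw [hfun]
      exact (s2.differentiableAt (by norm_num)).hasFDerivAt
  · have hQ : LQ C 0 X (χ X) ≠ 0 := by
      unfold LQ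
      rw [if_pos rfl]
      exact hL2
    obtain ⟨h1, hh1, hcb, hR⟩ := tarc_fun C hC 0 X 1 2 one_pos two_pos U hU hXU hUC χ hχ hEn h3 h2
      hres hV hQ (hfree 0 hQ)
    have hev : ∀ᶠ Y in 𝓝 X, kL (z3 C Y (χ Y)) ≠ 0 := s3.continuousAt.eventually_ne hL3
    rw [Metric.eventually_nhds_iff_ball] at hev
    obtain ⟨ε, hε, hev⟩ := hev
    have m1 : min (min h1 (ε / 2)) δ ≤ h1 := (min_le_left _ _).trans (min_le_left _ _)
    have m2 : min (min h1 (ε / 2)) δ ≤ ε / 2 := (min_le_left _ _).trans (min_le_right _ _)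
    have m3 : min (min h1 (ε / 2)) δ ≤ δ := min_le_right _ _
    refine ⟨0, min (min h1 (ε / 2)) δ, δ, fun _ => T0 C 0 X (χ X) 1 2, 0, Fin.elim0,
      lt_min (lt_min hh1 (by positivity)) hδ, m3, hδ, le_rfl, by norm_num, ?_, ?_, ?_⟩
    · exact rarc_mono hR (isCompact_closedBall _ _) (Metric.closedBall_subset_closedBall m1)
    · intro h _ hle
      refine ⟨fun j => j.elim0, fun Y hY τ _ _ => ?_⟩
      have hY1 : Y ∈ Metric.closedBall X h1 := Metric.closedBall_subset_closedBall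
        (hle.trans m1) hY
      have hY2 : Y ∈ Metric.ball X ε := by
        rw [Metric.mem_ball]
        rw [Metric.mem_closedBall] at hY
        linarith [hle.trans m2]
      have hYU : Y ∈ U := hcb hY1
      refine sun_none C hC 0 (hUC hYU) ?_ ?_ ?_ τ
      · rw [(hen Y hYU).1]; exact re2_h.1
      · rw [(hen Y hYU).2]; exact re2_h.2
      · unfold LP
        rw [if_pos rfl]
        exact hev Y hY2
    · intro j
      exact j.elim0

/-! ### the direction function -/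

theorem re2_pos (Xs : Pl) : ∀ᶠ p in 𝓝 ((0, Xs) : ℝ × Pl), 0 < zr p.1 p.2 ∧ 0 < re2_k2 p := by
  have h1 : ContinuousAt (fun p : ℝ × Pl => zr p.1 p.2) (0, Xs) :=
    re2_zr_cd.continuous.continuousAt
  have hz : zr ((0, Xs) : ℝ × Pl).1 ((0, Xs) : ℝ × Pl).2 = rh := re2_zr0 Xs
  have h2 : ContinuousAt re2_k2 ((0, Xs) : ℝ × Pl) :=
    (re2_k2_cd (by rw [hz]; exact re2_rh.ne')).continuousAt
  refine (h1.eventually_const_lt ?_).and (h2.eventually_const_lt ?_)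
  · show 0 < zr 0 Xs
    rw [re2_zr0]; exact re2_rh
  · rw [re2_k20]
    have := re2_kh
    positivity

theorem re2_dE (X : Pl) (χ : ℝ) : HasDerivAt (fun e => zE 0 X e) (kh / rh * me X χ) χ := by
  have e : (fun e => zE 0 X e) = fun e => kh / rh * mY X e := by
    funext e
    exact re2_zE0 X e
  rw [e]
  refine HasDerivAt.const_mul _ ?_
  unfold mY me
  have h2 : HasDerivAt (fun e => zϖ X * Real.cos e + Real.sin e - zρ X)
      (zϖ X * (-Real.sin χ) + Real.cos χ) χ :=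
    (((Real.hasDerivAt_cos χ).const_mul (zϖ X)).add (Real.hasDerivAt_sin χ)).sub_const (zρ X)
  exact h2.congr_deriv (by ring)

theorem re2_ift (Xs : Pl) (χs : ℝ) (hY : mY Xs χs = 0) (he : me Xs χs ≠ 0) (δ : ℝ) (hδ : 0 < δ) :
    ∃ r : ℝ, 0 < r ∧ ∃ γ : ℝ × Pl → ℝ, ContDiffOn ℝ 2 γ (Metric.ball (0, Xs) r) ∧
      γ (0, Xs) = χs ∧ ∀ p ∈ Metric.ball ((0, Xs) : ℝ × Pl) r, |γ p - χs| < δ ∧
        zE p.1 p.2 (γ p) = 0 := by
  obtain ⟨r0, hr0, hpos⟩ := Metric.eventually_nhds_iff_ball.mp (re2_pos Xs)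
  have hU : IsOpen {q : (ℝ × Pl) × ℝ | q.1 ∈ Metric.ball ((0, Xs) : ℝ × Pl) r0} :=
    Metric.isOpen_ball.preimage continuous_fst
  have hsm : ContDiffOn ℝ 2 (fun q : (ℝ × Pl) × ℝ => zE q.1.1 q.1.2 q.2)
      {q | q.1 ∈ Metric.ball ((0, Xs) : ℝ × Pl) r0} := by
    intro q hq
    obtain ⟨h1, h2⟩ := hpos q.1 hq
    exact ((re2_zE_cd h1.ne' h2.ne').of_le re2_le).contDiffWithinAt
  have hc : kh / rh * me Xs χs ≠ 0 := mul_ne_zero (div_pos re2_kh re2_rh).ne' he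
  set A : ℝ ≃L[ℝ] ℝ := ContinuousLinearEquiv.unitsEquivAut ℝ (Units.mk0 _ hc) with hA
  have hAd : HasFDerivAt (fun e : ℝ => (fun q : (ℝ × Pl) × ℝ => zE q.1.1 q.1.2 q.2) ((0, Xs), e))
      (A : ℝ →L[ℝ] ℝ) χs := by
    have h1 := (re2_dE Xs χs).hasFDerivAt
    have h2 : (A : ℝ →L[ℝ] ℝ) =
        ContinuousLinearMap.toSpanSingleton ℝ (kh / rh * me Xs χs) := by
      ext
      simp [hA]
    rw [h2]
    exact h1
  obtain ⟨r, r', hr, hr', hr'δ, γ, hγ, hγ0, hγp⟩ := ift (fun q : (ℝ × Pl) × ℝ => zE q.1.1 q.1.2 q.2)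
    _ hU hsm (0, Xs) χs (Metric.mem_ball_self hr0) (by
      show zE 0 Xs χs = 0
      rw [re2_zE0, hY, mul_zero]) A hAd δ hδ
  refine ⟨r, hr, γ, hγ, hγ0, fun p hp => ?_⟩
  obtain ⟨h1, -, h3, -⟩ := hγp p hp
  rw [Metric.mem_ball, Real.dist_eq] at h1
  exact ⟨by linarith, h3⟩

theorem re2_line (Xs v : Pl) : HasDerivAt (fun t : ℝ => Xs + t • v) v 0 := by
  have h1 : HasDerivAt (fun t : ℝ => t • v) ((1 : ℝ) • v) 0 := (hasDerivAt_id 0).smul_const v
  rw [one_smul] at h1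
  exact h1.const_add Xs

theorem re2_der {Xs : Pl} {χs r : ℝ} (he : me Xs χs ≠ 0) (hr : 0 < r) {γ : ℝ × Pl → ℝ}
    (hγ : ContDiffOn ℝ 2 γ (Metric.ball (0, Xs) r)) (h0 : γ (0, Xs) = χs)
    (hz : ∀ p ∈ Metric.ball ((0, Xs) : ℝ × Pl) r, zE p.1 p.2 (γ p) = 0) :
    DifferentiableAt ℝ (fun X => γ (0, X)) Xs ∧
      ∀ v, fderiv ℝ (fun X => γ (0, X)) Xs v = dirD Xs χs v := by
  have hd0 : DifferentiableAt ℝ γ (0, Xs) :=
    (hγ.contDiffAt (Metric.isOpen_ball.mem_nhds (Metric.mem_ball_self hr))).differentiableAt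
      (by norm_num)
  have hd : DifferentiableAt ℝ (fun X : Pl => γ (0, X)) Xs :=
    DifferentiableAt.comp (g := γ) (f := fun X : Pl => ((0:ℝ), X)) Xs hd0
      ((differentiableAt_const _).prodMk differentiableAt_id)
  refine ⟨hd, fun v => ?_⟩
  set D := fderiv ℝ (fun X : Pl => γ (0, X)) Xs with hD
  have hl := re2_line Xs v
  have hl0 : Xs + (0:ℝ) • v = Xs := by rw [zero_smul, add_zero]
  have hg : HasDerivAt (fun t : ℝ => γ (0, Xs + t • v)) (D v) 0 := by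
    have h1 : HasFDerivAt (fun X : Pl => γ (0, X)) D (Xs + (0:ℝ) • v) := by
      rw [hl0]
      exact hd.hasFDerivAt
    exact h1.comp_hasDerivAt (0:ℝ) hl
  have hc : HasDerivAt (fun t : ℝ => Real.cos (γ (0, Xs + t • v))) (-Real.sin χs * D v) 0 := by
    have := hg.cos
    rwa [hl0, h0] at this
  have hs : HasDerivAt (fun t : ℝ => Real.sin (γ (0, Xs + t • v))) (Real.cos χs * D v) 0 := by
    have := hg.sin
    rwa [hl0, h0] at this
  have hϖ : HasDerivAt (fun t : ℝ => zϖ (Xs + t • v)) (2 * v.1 + v.2) 0 := by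
    have e : (fun t : ℝ => zϖ (Xs + t • v)) = fun t : ℝ => zϖ Xs + t * (2 * v.1 + v.2) := by
      funext t
      simp only [zϖ, Prod.fst_add, Prod.snd_add, Prod.smul_fst, Prod.smul_snd, smul_eq_mul]
      ring
    rw [e]
    have := ((hasDerivAt_id (0:ℝ)).mul_const (2 * v.1 + v.2)).const_add (zϖ Xs)
    rwa [one_mul] at this
  have hρ : HasDerivAt (fun t : ℝ => zρ (Xs + t • v)) v.1 0 := by
    have e : (fun t : ℝ => zρ (Xs + t • v)) = fun t : ℝ => zρ Xs + t * v.1 := by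
      funext t
      simp only [zρ, Prod.fst_add, Prod.smul_fst, smul_eq_mul]
      ring
    rw [e]
    have := ((hasDerivAt_id (0:ℝ)).mul_const v.1).const_add (zρ Xs)
    rwa [one_mul] at this
  have hF := ((hϖ.mul hc).add hs).sub hρ
  simp only [hl0, h0] at hF
  have hF0 : (fun t : ℝ => zϖ (Xs + t • v) * Real.cos (γ (0, Xs + t • v)) +
      Real.sin (γ (0, Xs + t • v)) - zρ (Xs + t • v)) =ᶠ[𝓝 0] fun _ => 0 := by
    have hcont : ContinuousAt (fun t : ℝ => ((0:ℝ), Xs + t • v)) 0 :=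
      continuousAt_const.prodMk hl.continuousAt
    have hmem : ∀ᶠ t in 𝓝 (0:ℝ), ((0:ℝ), Xs + t • v) ∈ Metric.ball ((0, Xs) : ℝ × Pl) r := by
      apply hcont.eventually
      have : ((0:ℝ), Xs + (0:ℝ) • v) = (0, Xs) := by rw [hl0]
      show ∀ᶠ y in 𝓝 ((0:ℝ), Xs + (0:ℝ) • v), y ∈ Metric.ball ((0, Xs) : ℝ × Pl) r
      rw [this]
      exact Metric.ball_mem_nhds _ hr
    filter_upwards [hmem] with t ht
    have h1 := hz _ ht
    simp only [] at h1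
    rw [re2_zE0] at h1
    have h2 := (mul_eq_zero.mp h1).resolve_left (div_pos re2_kh re2_rh).ne'
    exact h2
  have hu := (hF.congr_of_eventuallyEq (hF0.symm.trans (Filter.EventuallyEq.refl _ _))).unique
    (hasDerivAt_const (0:ℝ) (0:ℝ))
  unfold dirD
  rw [eq_div_iff he]
  unfold me
  linarith

/-! ### the covector -/

/-- the angular momentum of body 2 along a direction function -/
def re2_La (γ : ℝ × Pl → ℝ) (p : ℝ × Pl) : ℝ :=
  p.1 - ma * zr p.1 p.2 * zk p.1 p.2 * Real.sin (γ p)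

theorem re2_cov (side : Bool) {Xs : Pl} {χs r : ℝ} (he : me Xs χs ≠ 0) (hr : 0 < r)
    {γ : ℝ × Pl → ℝ} (hγ : ContDiffOn ℝ 2 γ (Metric.ball (0, Xs) r)) (h0 : γ (0, Xs) = χs)
    (hdd : DifferentiableAt ℝ (fun X => γ (0, X)) Xs)
    (hd : ∀ v, fderiv ℝ (fun X => γ (0, X)) Xs v = dirD Xs χs v)
    (hs : Real.sin χs = 0 → if side then χs = Real.pi else χs = 0) :
    ∀ᶠ p in 𝓝 ((0, Xs) : ℝ × Pl), re2_La γ p ≠ 0 ∨ ∀ i' : Fin 2, ∀ v ∈ dcone side i',
      fderiv ℝ (fun Y => re2_La γ (p.1, Y)) p.2 v ≠ 0 := by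
  have hsm : ∀ᶠ p in 𝓝 ((0, Xs) : ℝ × Pl), ContDiffAt ℝ 2 (re2_La γ) p := by
    filter_upwards [re2_pos Xs, Metric.isOpen_ball.mem_nhds (Metric.mem_ball_self
      (x := ((0, Xs) : ℝ × Pl)) hr)] with p hp hpb
    have h1 : ContDiffAt ℝ 2 γ p := hγ.contDiffAt (Metric.isOpen_ball.mem_nhds hpb)
    have h2 : ContDiffAt ℝ 2 (fun p : ℝ × Pl => zr p.1 p.2) p :=
      (re2_zr_cd.of_le re2_le).contDiffAt
    have h3 : ContDiffAt ℝ 2 (fun p : ℝ × Pl => zk p.1 p.2) p :=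
      (re2_zk_cd hp.1.ne' hp.2.ne').of_le re2_le
    unfold re2_La
    exact contDiffAt_fst.sub (((contDiffAt_const.mul h2).mul h3).mul h1.sin)
  have hsm0 : ContDiffAt ℝ 2 (re2_La γ) (0, Xs) := hsm.self_of_nhds
  have hform : ∀ Y, re2_La γ (0, Y) = -(ma * rh * kh * Real.sin (γ (0, Y))) := by
    intro Y
    unfold re2_La
    simp only []
    rw [re2_zr0, re2_zk0]
    ring
  have hma : (0:ℝ) < ma := by unfold ma; norm_num
  have hcc : 0 < ma * rh * kh := mul_pos (mul_pos hma re2_rh) re2_kh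
  by_cases hsin : Real.sin χs = 0
  swap
  · have h1 : re2_La γ (0, Xs) ≠ 0 := by
      rw [hform, h0]
      exact neg_ne_zero.mpr (mul_ne_zero hcc.ne' hsin)
    filter_upwards [hsm0.continuousAt.eventually_ne h1] with p hp
    exact Or.inl hp
  set Φ : ℝ × Pl → Pl →L[ℝ] ℝ := fun p =>
    (fderiv ℝ (re2_La γ) p).comp (ContinuousLinearMap.inr ℝ ℝ Pl) with hΦ
  have hΦe : ∀ᶠ p in 𝓝 ((0, Xs) : ℝ × Pl), fderiv ℝ (fun Y => re2_La γ (p.1, Y)) p.2 = Φ p := by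
    filter_upwards [hsm] with p hp
    have h1 : HasFDerivAt (re2_La γ) (fderiv ℝ (re2_La γ) p) (p.1, p.2) :=
      (hp.differentiableAt (by norm_num)).hasFDerivAt
    have h2 : HasFDerivAt (fun Y : Pl => (p.1, Y)) (ContinuousLinearMap.inr ℝ ℝ Pl) p.2 :=
      hasFDerivAt_prodMk_right p.1 p.2
    exact (h1.comp p.2 h2).fderiv
  have hΦc : ContinuousAt Φ (0, Xs) := by
    have h1 : ContDiffAt ℝ 1 (fderiv ℝ (re2_La γ)) (0, Xs) :=
      hsm0.fderiv_right (by norm_num)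
    exact h1.continuousAt.clm_comp continuousAt_const
  have hval : ∀ v, Φ (0, Xs) v = -(ma * rh * kh * (Real.cos χs * dirD Xs χs v)) := by
    intro v
    rw [← hΦe.self_of_nhds]
    have e1 : (fun Y : Pl => re2_La γ (0, Y)) =
        fun Y => -(ma * rh * kh * Real.sin (γ (0, Y))) := funext hform
    show fderiv ℝ (fun Y : Pl => re2_La γ (0, Y)) Xs v = _
    rw [e1]
    have h1 := (((hdd.hasFDerivAt).sin).const_mul (ma * rh * kh)).neg
    have h2 : fderiv ℝ (fun Y : Pl => -(ma * rh * kh * Real.sin (γ (0, Y)))) Xs = _ := h1.fderiv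
    rw [h2]
    simp only [ContinuousLinearMap.neg_apply, ContinuousLinearMap.smul_apply, smul_eq_mul, hd, h0]
  have hne : ∀ i' : Fin 2, ∀ v ∈ dcone side i', Φ (0, Xs) v ≠ 0 := by
    intro i' v hv
    obtain ⟨hv1, hv2⟩ := (dcone_compact side i').2 v hv
    rw [hval]
    refine neg_ne_zero.mpr (mul_ne_zero hcc.ne' ?_)
    unfold dirD
    have hss := hs hsin
    cases side with
    | false =>
      simp only [Bool.false_eq_true, if_false] at hss hv2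
      rw [hss] at he ⊢
      rw [Real.cos_zero, one_mul, one_mul]
      refine div_ne_zero ?_ he
      intro h
      apply hv2
      linarith
    | true =>
      simp only [if_true] at hss hv2
      rw [hss] at he ⊢
      rw [Real.cos_pi]
      refine mul_ne_zero (by norm_num) (div_ne_zero ?_ he)
      intro h
      apply hv2
      linarith
  have hev : ∀ i' : Fin 2, ∀ᶠ p in 𝓝 ((0, Xs) : ℝ × Pl), ∀ v ∈ dcone side i', Φ p v ≠ 0 := by
    intro i'
    refine (dcone_compact side i').1.eventually_forall_of_forall_eventually (x₀ := (0, Xs))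
      (P := fun p v => Φ p v ≠ 0) fun v hv => ?_
    have h1 : ContinuousAt (fun z : (ℝ × Pl) × Pl => Φ z.1 z.2) ((0, Xs), v) := by
      have h2 : ContinuousAt (fun z : (ℝ × Pl) × Pl => Φ z.1) ((0, Xs), v) :=
        ContinuousAt.comp (g := Φ) (f := fun z : (ℝ × Pl) × Pl => z.1) hΦc continuousAt_fst
      exact h2.clm_apply continuousAt_snd
    have h2 := h1.eventually_ne (hne i' v hv)
    simpa only [nhds_prod_eq] using h2
  filter_upwards [hΦe, Filter.eventually_all.mpr hev] with p hp1 hp2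
  refine Or.inr fun i' v hv => ?_
  rw [hp1]
  exact hp2 i' v hv

/-! ### nearby centre data -/

theorem re2_near (Xs : Pl) (χs : ℝ) (he : me Xs χs ≠ 0) {γ : ℝ × Pl → ℝ}
    (hγ : ContinuousAt γ (0, Xs)) (h0 : γ (0, Xs) = χs) :
    ∀ᶠ p in 𝓝 ((0, Xs) : ℝ × Pl), p.2 ∈ CD p.1 ∧ zX p.1 p.2 (γ p) ≠ 0 := by
  have hr : ContinuousAt (fun p : ℝ × Pl => zr p.1 p.2) (0, Xs) :=
    re2_zr_cd.continuous.continuousAt
  have hr0 := re2_rh
  have hk0 := re2_kh
  have hpos0 := (re2_pos Xs).self_of_nhds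
  have hk : ContinuousAt (fun p : ℝ × Pl => zk p.1 p.2) (0, Xs) :=
    (re2_zk_cd hpos0.1.ne' hpos0.2.ne').continuousAt
  have hp : ContinuousAt (fun p : ℝ × Pl => (chart p.1 p.2).2) (0, Xs) := by
    have e : (fun p : ℝ × Pl => (chart p.1 p.2).2) =
        fun p : ℝ × Pl => p.1 * (1/2 + 2 * p.2.1 + p.2.2) / rh := rfl
    rw [e]
    fun_prop
  have a1 : ∀ᶠ p in 𝓝 ((0, Xs) : ℝ × Pl), rh / 2 < zr p.1 p.2 := by
    refine hr.eventually_const_lt ?_
    show rh / 2 < zr 0 Xs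
    rw [re2_zr0]
    linarith
  have a2 : ∀ᶠ p in 𝓝 ((0, Xs) : ℝ × Pl), zr p.1 p.2 < 2 * rh := by
    refine hr.eventually_lt_const ?_
    show zr 0 Xs < 2 * rh
    rw [re2_zr0]
    linarith
  have a3 : ∀ᶠ p in 𝓝 ((0, Xs) : ℝ × Pl), |(chart p.1 p.2).2| < 1 := by
    refine hp.abs.eventually_lt_const ?_
    show |(0:ℝ) * (1/2 + 2 * Xs.1 + Xs.2) / rh| < 1
    rw [zero_mul, zero_div, abs_zero]
    norm_num
  have a4 : ∀ᶠ p in 𝓝 ((0, Xs) : ℝ × Pl), |zk p.1 p.2 - kh| < 1 / 20 := by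
    refine (hk.sub continuousAt_const).abs.eventually_lt_const ?_
    show |zk 0 Xs - kh| < 1 / 20
    rw [re2_zk0, sub_self, abs_zero]
    norm_num
  have a5 : ∀ᶠ p in 𝓝 ((0, Xs) : ℝ × Pl), zk p.1 p.2 * (Real.cos (γ p) / zr p.1 p.2 -
      zϖ p.2 / rh * Real.sin (γ p)) ≠ 0 := by
    have hcos : ContinuousAt (fun p => Real.cos (γ p)) ((0, Xs) : ℝ × Pl) :=
      Real.continuous_cos.continuousAt.comp hγ
    have hsin : ContinuousAt (fun p => Real.sin (γ p)) ((0, Xs) : ℝ × Pl) :=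
      Real.continuous_sin.continuousAt.comp hγ
    have hϖ : ContinuousAt (fun p : ℝ × Pl => zϖ p.2 / rh) (0, Xs) := by
      have e : (fun p : ℝ × Pl => zϖ p.2 / rh) =
          fun p : ℝ × Pl => (1/2 + 2 * p.2.1 + p.2.2) / rh := rfl
      rw [e]
      fun_prop
    refine (hk.mul ((hcos.div hr hpos0.1.ne').sub (hϖ.mul hsin))).eventually_ne ?_
    show zk 0 Xs * (Real.cos (γ (0, Xs)) / zr 0 Xs - zϖ Xs / rh * Real.sin (γ (0, Xs))) ≠ 0
    rw [re2_zk0, re2_zr0, h0]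
    have e : kh * (Real.cos χs / rh - zϖ Xs / rh * Real.sin χs) = kh / rh * me Xs χs := by
      unfold me
      ring
    rw [e]
    exact mul_ne_zero (div_pos hk0 hr0).ne' he
  filter_upwards [a1, a2, a3, a4, a5] with p b1 b2 b3 b4 b5
  refine ⟨⟨b1.le, b2.le, b3.le, b4.le⟩, ?_⟩
  have hz : zr p.1 p.2 ≠ 0 := by
    have : 0 < rh / 2 := by positivity
    linarith
  rw [(z_L hz (γ p)).2.2.2]
  exact b5

/-! ### the theorem -/

theorem re2_ball {Xs X : Pl} {C r : ℝ} (hC : 0 < C) (hCr : C < r) (hX : X ∈ Metric.ball Xs r) :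
    (C, X) ∈ Metric.ball ((0, Xs) : ℝ × Pl) r := by
  rw [Metric.mem_ball, Prod.dist_eq, max_lt_iff]
  refine ⟨?_, hX⟩
  rw [Real.dist_eq, sub_zero, abs_of_pos hC]
  exact hCr

theorem famB_pr (side : Bool) : ∃ c0 : ℝ, 0 < c0 ∧ ∀ (Xs : Pl) (χs : ℝ), ‖Xs - vS side‖ ≤ c0 →
    (if side then Real.pi - c0 ≤ χs ∧ χs ≤ Real.pi else 0 ≤ χs ∧ χs ≤ c0) →
    mY Xs χs = 0 → me Xs χs ≠ 0 →
    ∃ (r : ℝ) (g : ℝ × ℝ × Pl → ℝ), DFam side 2 (sc side) Xs χs 1 r g := by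
  obtain ⟨ca, Ca, hca, hCa, hfa⟩ := base_free
  obtain ⟨cb, Cb, hcb, hCb, hfb⟩ := base_free'
  set c0 : ℝ := min (min (ca / 2) (cb / 2)) 1 with hc0
  have hc0p : 0 < c0 := lt_min (lt_min (by positivity) (by positivity)) one_pos
  have hc0a : c0 ≤ ca / 2 := (min_le_left _ _).trans (min_le_left _ _)
  have hc0b : c0 ≤ cb / 2 := (min_le_left _ _).trans (min_le_right _ _)
  have hc01 : c0 ≤ 1 := min_le_right _ _
  have hpi := Real.pi_gt_three
  refine ⟨c0, hc0p, fun Xs χs hXs hχs hY he => ?_⟩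
  obtain ⟨r1, hr1, γ, hγ, hγ0, hγp⟩ := re2_ift Xs χs hY he c0 hc0p
  obtain ⟨hdd, hd⟩ := re2_der he hr1 hγ hγ0 (fun p hp => (hγp p hp).2)
  have hs : Real.sin χs = 0 → if side then χs = Real.pi else χs = 0 := by
    intro h
    cases side with
    | false =>
      simp only [Bool.false_eq_true, if_false] at hχs ⊢
      by_contra hne
      have h1 : 0 < χs := lt_of_le_of_ne hχs.1 (Ne.symm hne)
      have h2 := Real.sin_pos_of_pos_of_lt_pi h1 (by linarith [hχs.2])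
      linarith
    | true =>
      simp only [if_true] at hχs ⊢
      by_contra hne
      have h1 : χs < Real.pi := lt_of_le_of_ne hχs.2 hne
      have h2 := Real.sin_pos_of_pos_of_lt_pi (by linarith [hχs.1]) h1
      linarith
  have hcov := re2_cov side he hr1 hγ hγ0 hdd hd hs
  have hγc : ContinuousAt γ (0, Xs) :=
    (hγ.contDiffAt (Metric.isOpen_ball.mem_nhds (Metric.mem_ball_self hr1))).continuousAt
  have hnear := re2_near Xs χs he hγc hγ0
  obtain ⟨r2, hr2, hall⟩ := Metric.eventually_nhds_iff_ball.mp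
    ((re2_pos Xs).and (hcov.and hnear))
  set r : ℝ := min (min (min r1 r2) (min Ca Cb)) c0 with hr
  have hrp : 0 < r := lt_min (lt_min (lt_min hr1 hr2) (lt_min hCa hCb)) hc0p
  have hrr1 : r ≤ r1 := (min_le_left _ _).trans ((min_le_left _ _).trans (min_le_left _ _))
  have hrr2 : r ≤ r2 := (min_le_left _ _).trans ((min_le_left _ _).trans (min_le_right _ _))
  have hrCa : r ≤ Ca := (min_le_left _ _).trans ((min_le_right _ _).trans (min_le_left _ _))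
  have hrCb : r ≤ Cb := (min_le_left _ _).trans ((min_le_right _ _).trans (min_le_right _ _))
  have hrc0 : r ≤ c0 := min_le_right _ _
  refine ⟨r, fun p => γ (p.1, p.2.2), hrp, ?_, hγ0, hd, ?_⟩
  · have h1 : ContDiff ℝ 2 (fun p : ℝ × ℝ × Pl => (p.1, p.2.2)) := by fun_prop
    refine hγ.comp h1.contDiffOn ?_
    intro p hp
    rw [Metric.mem_ball, Prod.dist_eq, max_lt_iff, Prod.dist_eq, max_lt_iff] at hp
    show (p.1, p.2.2) ∈ Metric.ball ((0, Xs) : ℝ × Pl) r1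
    rw [Metric.mem_ball, Prod.dist_eq, max_lt_iff]
    exact ⟨lt_of_lt_of_le hp.1 hrr1, lt_of_lt_of_le hp.2.2 hrr1⟩
  · intro C K hC hCr _ X hX hcond
    simp only [] at hcond ⊢
    have hC1 : 0 < C ∧ C ≤ 1 := ⟨hC, by linarith⟩
    have hmem : ∀ Y ∈ Metric.ball Xs r, (C, Y) ∈ Metric.ball ((0, Xs) : ℝ × Pl) r :=
      fun Y hY => re2_ball hC hCr hY
    have hm1 : ∀ Y ∈ Metric.ball Xs r, (C, Y) ∈ Metric.ball ((0, Xs) : ℝ × Pl) r1 :=
      fun Y hY => Metric.ball_subset_ball hrr1 (hmem Y hY)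
    have hm2 : ∀ Y ∈ Metric.ball Xs r, (C, Y) ∈ Metric.ball ((0, Xs) : ℝ × Pl) r2 :=
      fun Y hY => Metric.ball_subset_ball hrr2 (hmem Y hY)
    have hUC : Metric.ball Xs r ⊆ CD C := fun Y hY => (hall _ (hm2 Y hY)).2.2.1
    have hχU : ContDiffOn ℝ 2 (fun Y => γ (C, Y)) (Metric.ball Xs r) := by
      have h1 : ContDiff ℝ 2 (fun Y : Pl => (C, Y)) := by fun_prop
      exact hγ.comp h1.contDiffOn hm1
    have hzr : ∀ Y ∈ Metric.ball Xs r, 0 < zr C Y := fun Y hY => (hall _ (hm2 Y hY)).1.1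
    obtain ⟨hγδ, hγE⟩ := hγp _ (hm1 X hX)
    rw [abs_lt] at hγδ
    have hXn : ‖X - Xs‖ < r := by rw [← dist_eq_norm]; exact hX
    have hL2e : ∀ Y ∈ Metric.ball Xs r, kL (z2 C Y (γ (C, Y))) = re2_La γ (C, Y) := by
      intro Y hY
      exact (z_L (hzr Y hY).ne' _).2.1
    have hL3 : 0 ≤ Real.sin (γ (C, X)) → kL (z3 C X (γ (C, X))) ≠ 0 := by
      intro hsn
      rw [(z_L (hzr X hX).ne' _).1]
      have h1 : 0 ≤ mb * zr C X * zk C X * Real.sin (γ (C, X)) := by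
        have h2 : (0:ℝ) ≤ mb := by unfold mb; norm_num
        have h3 : 0 ≤ zk C X := Real.sqrt_nonneg _
        exact mul_nonneg (mul_nonneg (mul_nonneg h2 (hzr X hX).le) h3) hsn
      linarith
    have hcov2 : kL (z2 C X (γ (C, X))) = 0 → ∀ i', ∀ v ∈ dcone side i',
        fderiv ℝ (fun Y => kL (z2 C Y (γ (C, Y)))) X v ≠ 0 := by
      intro h0 i' v hv
      rw [hL2e X hX] at h0
      have h1 := ((hall _ (hm2 X hX)).2.1.resolve_left (fun h => h h0)) i' v hv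
      have h2 : (fun Y => kL (z2 C Y (γ (C, Y)))) =ᶠ[𝓝 X] fun Y => re2_La γ (C, Y) := by
        filter_upwards [Metric.isOpen_ball.mem_nhds hX] with Y hY
        exact hL2e Y hY
      rw [h2.fderiv_eq]
      exact h1
    have hen := (re2_en hC1 (hUC hX) hγE).2.2
    have hV := (hall _ (hm2 X hX)).2.2.2
    cases side with
    | false =>
      simp only [vS, sc, Bool.false_eq_true, if_false, sub_zero] at hXs hχs hcond
      have hXc : ‖X‖ ≤ ca := by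
        have : X = (X - Xs) + Xs := by abel
        rw [this]
        refine (norm_add_le _ _).trans ?_
        linarith
      refine re2_arc false hC1 Metric.isOpen_ball hX hUC hχU
        (fun Y hY => (hγp _ (hm1 Y hY)).2) hV ?_ (hL3 ?_) hcov2
      · intro i hQ τ hτ
        exact hfa C hC (by linarith) X hXc (γ (C, X)) hcond (by linarith [hχs.2]) hen i hQ τ hτ
      · exact Real.sin_nonneg_of_nonneg_of_le_pi hcond (by linarith [hχs.2])
    | true =>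
      simp only [vS, sc, if_true] at hXs hχs hcond
      have hXc : ‖X - Xcp‖ ≤ cb := by
        have : X - Xcp = (X - Xs) + (Xs - Xcp) := by abel
        rw [this]
        refine (norm_add_le _ _).trans ?_
        linarith
      refine re2_arc true hC1 Metric.isOpen_ball hX hUC hχU
        (fun Y hY => (hγp _ (hm1 Y hY)).2) hV ?_ (hL3 ?_) hcov2
      · intro i hQ τ hτ
        exact hfb C hC (by linarith) X hXc (γ (C, X)) (by linarith [hχs.1]) hcond hen i hQ τ hτ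
      · exact Real.sin_nonneg_of_nonneg_of_le_pi (by linarith [hχs.1]) hcond

end

end Pool.Agent.HS

namespace Pool.Agent.HS
open Set Filter Topology
open scoped ContDiff

theorem famB (side : Bool) : ∃ c0 : ℝ, 0 < c0 ∧ ∀ (Xs : Pl) (χs : ℝ), ‖Xs - vS side‖ ≤ c0 →
    (if side then Real.pi - c0 ≤ χs ∧ χs ≤ Real.pi else 0 ≤ χs ∧ χs ≤ c0) →
    mY Xs χs = 0 → me Xs χs ≠ 0 →
    ∃ (r : ℝ) (g : ℝ × ℝ × Pl → ℝ), DFam side 2 (sc side) Xs χs 1 r g :=
  @Pool.Agent.HS.famB_pr side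

end Pool.Agent.HS
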