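import Pool.Agent.Lib_helper60.HSF.D_WR
import Pool.Agent.Lib_helper60.HSF.Z_ZD2
import Pool.Agent.Lib_helper60.HSF.Z_ZE
import Pool.Agent.Lib_helper60.HSF.Z_RA
import Pool.Agent.Lib_helper60.HSF.Z_ZA1
import Pool.Agent.Lib_helper60.HSF.Z_ZC
import Pool.Agent.Lib_helper60.HSF.Z_ZM2

/-!
# Project HS, block RF1: zeros of the corner function for small `C`
-/

namespace Pool.Agent.HS

noncomputable section

open Set Filter Topology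
open scoped ContDiff

theorem rf1_chart (X : Pl) : chart 0 X = (rh, 0) := by
  simp [chart]

theorem rf1_zr (X : Pl) : zr 0 X = rh := by
  simp [zr, rf1_chart]

theorem rf1_zk (X : Pl) : zk 0 X = kh := by
  have h0 : ma ≠ 0 := by norm_num [ma]
  have h1 : mb ≠ 0 := by norm_num [mb]
  have h2 : 0 ≤ kh := Real.sqrt_nonneg _
  simp only [zk, kap0, rf1_chart]
  have h3 : 2 / (ma * mb) * (E0 + 1 / rh - ((0:ℝ) ^ 2 + 0 ^ 2 / rh ^ 2) / 2) = kh ^ 2 := by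
    have e : E0 + 1 / rh - ((0:ℝ) ^ 2 + 0 ^ 2 / rh ^ 2) / 2 = E0 + 1 / rh := by ring
    rw [e, E0_rh]
    field_simp
  rw [h3, Real.sqrt_sq h2]

theorem rf1_zkC (X : Pl) : ContDiffAt ℝ 2 (fun q : ℝ × Pl => zk q.1 q.2) (0, X) := by
  have hs : Real.sin (Real.pi / 2) ≠ 0 := by rw [Real.sin_pi_div_two]; norm_num
  have h1 : ((0, X, Real.pi / 2) : ℝ × (ℝ × ℝ) × ℝ) ∈ ZS := zS_zero X hs
  have h2 : ContDiffAt ℝ ∞ (fun p : ℝ × (ℝ × ℝ) × ℝ => zk p.1 p.2.1) (0, X, Real.pi / 2) :=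
    zS_states.2.2.2.2.contDiffAt (zS_open.mem_nhds h1)
  have h3 : ContDiffAt ℝ 2 (fun p : ℝ × (ℝ × ℝ) × ℝ => zk p.1 p.2.1) (0, X, Real.pi / 2) :=
    h2.of_le ENat.LEInfty.out
  have h4 : ContDiffAt ℝ 2 (fun q : ℝ × Pl => ((q.1, q.2, Real.pi / 2) : ℝ × (ℝ × ℝ) × ℝ)) (0, X) := by
    fun_prop
  exact ContDiffAt.comp (f := fun q : ℝ × Pl => ((q.1, q.2, Real.pi / 2) : ℝ × (ℝ × ℝ) × ℝ))
    (g := fun p : ℝ × (ℝ × ℝ) × ℝ => zk p.1 p.2.1) (0, X) h3 h4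

theorem rf1_zrC (X : Pl) : ContDiffAt ℝ 2 (fun q : ℝ × Pl => zr q.1 q.2) (0, X) := by
  have h1 : (fun q : ℝ × Pl => zr q.1 q.2) = fun q : ℝ × Pl => rh + q.1 * zρ q.2 / (cc * rh) := by
    funext q; exact zr_eq q.1 q.2
  rw [h1]
  unfold zρ
  fun_prop

/-- smoothness of the corner function -/
theorem rf1_cd {E : Type*} [NormedAddCommGroup E] [NormedSpace ℝ E] {κ r χv χf lam ϖ : E → ℝ}
    {υ : E → ℂ} {x : E} (hκ : ContDiffAt ℝ 2 κ x) (hr : ContDiffAt ℝ 2 r x)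
    (hχv : ContDiffAt ℝ 2 χv x) (hχf : ContDiffAt ℝ 2 χf x) (hlam : ContDiffAt ℝ 2 lam x)
    (hϖ : ContDiffAt ℝ 2 ϖ x) (hυ : ContDiffAt ℝ 2 υ x) (h1 : κ x ≠ 0)
    (h2 : 0 < Real.sin ((χv x - χf x) / 2)) (h3 : 0 < r x) (h4 : ϖ x ≠ 0) :
    ContDiffAt ℝ 2 (fun y => cornW (κ y) (r y) (χv y) (χf y) (lam y) (ϖ y) (υ y)) x := by
  unfold cornW
  have hof : ∀ {f : E → ℝ}, ContDiffAt ℝ 2 f x → ContDiffAt ℝ 2 (fun y => (f y : ℂ)) x := by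
    intro f hf
    exact Complex.ofRealCLM.contDiff.contDiffAt.comp x hf
  have hS : ContDiffAt ℝ 2 (fun y => Real.sqrt (Real.sin ((χv y - χf y) / 2))) x := by
    refine ContDiffAt.sqrt ?_ h2.ne'
    exact Real.contDiff_sin.contDiffAt.comp x ((hχv.sub hχf).div_const 2)
  have hr' : ContDiffAt ℝ 2 (fun y => Real.sqrt (r y)) x := hr.sqrt h3.ne'
  have hS0 : Real.sqrt (Real.sin ((χv x - χf x) / 2)) ≠ 0 := (Real.sqrt_pos.mpr h2).ne'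
  have h20 : Real.sqrt 2 ≠ 0 := by positivity
  have hd : ContDiffAt ℝ 2 (fun y => 1 / (Real.sqrt 2 * κ y *
      Real.sqrt (Real.sin ((χv y - χf y) / 2)))) x := by
    refine contDiffAt_const.div ((contDiffAt_const.mul hκ).mul hS) ?_
    exact mul_ne_zero (mul_ne_zero h20 h1) hS0
  have he : ∀ {f : E → ℝ}, ContDiffAt ℝ 2 f x →
      ContDiffAt ℝ 2 (fun y => Complex.exp ((f y : ℂ) * Complex.I)) x := by
    intro f hf
    exact ((hof hf).mul contDiffAt_const).cexp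
  have hl : ContDiffAt ℝ 2 (fun y => lam y ^ 2 / ϖ y) x := (hlam.pow 2).div hϖ h4
  exact ((hof hd).mul (((hof hϖ).mul (he (hχv.div_const 2))).sub
    ((hof hl).mul (he ((hχf.add contDiffAt_const).div_const 2))))).sub (hυ.mul (hof hr'))

/-- the base point -/
theorem rf1_S {χs : ℝ} (hχ0 : 0 ≤ χs) (hχ1 : χs ≤ Real.pi) :
    0 < Real.sin ((χs - -(Real.pi / 2)) / 2) := by
  apply Real.sin_pos_of_pos_of_lt_pi
  · linarith [Real.pi_pos]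
  · linarith [Real.pi_pos]

theorem rf1_kh : 0 < kh := by linarith [z_bounds.2.2.1]

theorem rf1_rh : 0 < rh := by linarith [z_bounds.2.2.2.2.1]

/-- a real linear map `ℝ × ℝ → ℂ` with nonzero determinant -/
theorem rf1_equiv (D : ℝ × ℝ →L[ℝ] ℂ)
    (h : ((starRingEnd ℂ) (D (0, 1)) * D (1, 0)).im ≠ 0) :
    ∃ A : (ℝ × ℝ) ≃L[ℝ] ℂ, (A : ℝ × ℝ →L[ℝ] ℂ) = D := by
  have hD : ∀ v : ℝ × ℝ, D v = (v.1 : ℂ) * D (1, 0) + (v.2 : ℂ) * D (0, 1) := by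
    intro v
    have e : v = v.1 • ((1, 0) : ℝ × ℝ) + v.2 • ((0, 1) : ℝ × ℝ) := by
      ext <;> simp
    conv_lhs => rw [e]
    rw [map_add, map_smul, map_smul, Complex.real_smul, Complex.real_smul]
  have hinj : Function.Injective D := by
    rw [injective_iff_map_eq_zero]
    intro v hv
    rw [hD] at hv
    have h1 : ((starRingEnd ℂ) (D (0, 1)) * ((v.1 : ℂ) * D (1, 0) + (v.2 : ℂ) * D (0, 1))).im =
        v.1 * ((starRingEnd ℂ) (D (0, 1)) * D (1, 0)).im := by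
      simp only [Complex.mul_im, Complex.mul_re, Complex.add_im, Complex.add_re, Complex.conj_re,
        Complex.conj_im, Complex.ofReal_re, Complex.ofReal_im]
      ring
    have h2 : ((starRingEnd ℂ) (D (1, 0)) * ((v.1 : ℂ) * D (1, 0) + (v.2 : ℂ) * D (0, 1))).im =
        -(v.2 * ((starRingEnd ℂ) (D (0, 1)) * D (1, 0)).im) := by
      simp only [Complex.mul_im, Complex.mul_re, Complex.add_im, Complex.add_re, Complex.conj_re,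
        Complex.conj_im, Complex.ofReal_re, Complex.ofReal_im]
      ring
    rw [hv, mul_zero, Complex.zero_im] at h1 h2
    have h3 : v.1 = 0 := by
      rcases mul_eq_zero.mp h1.symm with h3 | h3
      · exact h3
      · exact absurd h3 h
    have h4 : v.2 = 0 := by
      rcases mul_eq_zero.mp (neg_eq_zero.mp h2.symm) with h4 | h4
      · exact h4
      · exact absurd h4 h
    exact Prod.ext h3 h4
  have hfr : Module.finrank ℝ (ℝ × ℝ) = Module.finrank ℝ ℂ := by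
    rw [Complex.finrank_real_complex]; simp
  have hsur : Function.Surjective D :=
    (LinearMap.injective_iff_surjective_of_finrank_eq_finrank (f := (D : ℝ × ℝ →ₗ[ℝ] ℂ)) hfr).mp hinj
  refine ⟨ContinuousLinearEquiv.ofBijective D (LinearMap.ker_eq_bot.mpr hinj)
    (LinearMap.range_eq_top.mpr hsur), ?_⟩
  exact ContinuousLinearEquiv.coe_ofBijective D _ _

/-- directional derivative of a direction function -/
theorem rf1_dir {g : ℝ × ℝ × Pl → ℝ} {ν r χ : ℝ} {Xs : Pl} (hr : 0 < r)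
    (hg : ContDiffOn ℝ 2 g (Metric.ball (0, ν, Xs) r)) (m : Pl)
    (hd : ∀ v, fderiv ℝ (fun X => g (0, ν, X)) Xs v = dirD Xs χ v) :
    HasDerivAt (fun t : ℝ => g (0, ν, Xs + t • m)) (dirD Xs χ m) 0 := by
  have h1 : ContDiffAt ℝ 2 g (0, ν, Xs) := hg.contDiffAt (Metric.ball_mem_nhds _ hr)
  have h2 : ContDiffAt ℝ 2 (fun X : Pl => g (0, ν, X)) Xs :=
    ContDiffAt.comp (f := fun X : Pl => ((0, ν, X) : ℝ × ℝ × Pl)) (g := g) Xs h1 (by fun_prop)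
  have h3 : HasFDerivAt (fun X : Pl => g (0, ν, X)) (fderiv ℝ (fun X => g (0, ν, X)) Xs) Xs :=
    (h2.differentiableAt (by norm_num)).hasFDerivAt
  have h4 : HasDerivAt (fun t : ℝ => Xs + t • m) m 0 := by
    have h5 : HasDerivAt (fun t : ℝ => t • m) ((1:ℝ) • m) 0 := (hasDerivAt_id (0:ℝ)).smul_const m
    rw [one_smul] at h5
    exact h5.const_add Xs
  have h6 : HasFDerivAt (fun X : Pl => g (0, ν, X)) (fderiv ℝ (fun X => g (0, ν, X)) Xs)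
      (Xs + (0:ℝ) • m) := by rw [zero_smul, add_zero]; exact h3
  have h7 := h6.comp_hasDerivAt (0:ℝ) h4
  rw [hd] at h7
  exact h7

/-- the value and the first derivatives at the base point -/
theorem corn_ift_pr (Xs : Pl) (χs νv νf lams ϖs rv rf : ℝ) (υs : ℂ) (gv gf : ℝ × ℝ × Pl → ℝ)
    (hrv : 0 < rv) (hrf : 0 < rf)
    (hgv : ContDiffOn ℝ 2 gv (Metric.ball (0, νv, Xs) rv))
    (hgf : ContDiffOn ℝ 2 gf (Metric.ball (0, νf, Xs) rf))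
    (hvv : gv (0, νv, Xs) = χs) (hvf : gf (0, νf, Xs) = -(Real.pi / 2))
    (hdv : ∀ v, fderiv ℝ (fun X => gv (0, νv, X)) Xs v = dirD Xs χs v)
    (hdf : ∀ v, fderiv ℝ (fun X => gf (0, νf, X)) Xs v = dirD Xs (-(Real.pi / 2)) v)
    (hχ0 : 0 ≤ χs) (hχ1 : χs ≤ Real.pi) (hϖ : 0 < ϖs)
    (hz : cornW kh rh χs (-(Real.pi / 2)) lams ϖs υs = 0) (m : Pl)
    (hm : covE Xs χs lams ϖs m ≠ 0) (δ : ℝ) (hδ : 0 < δ) :
    ∃ ε : ℝ, 0 < ε ∧ ∀ (C ν ν' lam : ℝ) (υ : ℂ), |C| < ε → |ν - νv| < ε → |ν' - νf| < ε →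
      |lam - lams| < ε → ‖υ - υs‖ < ε → ∃ (X : Pl) (ϖ : ℝ), ‖X - Xs‖ < δ ∧ |ϖ - ϖs| < δ ∧
        cornG gv gf C ν ν' lam υ (X, ϖ) = 0 := by
  have hkh := rf1_kh
  have hrh := rf1_rh
  have hS := rf1_S hχ0 hχ1
  set f : (ℝ × ℝ × ℝ × ℝ × ℂ) × (ℝ × ℝ) → ℂ := fun q =>
    cornG gv gf q.1.1 q.1.2.1 q.1.2.2.1 q.1.2.2.2.1 q.1.2.2.2.2 (Xs + q.2.1 • m, q.2.2) with hf
  set p0 : ℝ × ℝ × ℝ × ℝ × ℂ := (0, νv, νf, lams, υs) with hp0
  set e0 : ℝ × ℝ := (0, ϖs) with he0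
  have hbase : Xs + (0:ℝ) • m = Xs := by rw [zero_smul, add_zero]
  -- smoothness at the base point
  have hcd : ContDiffAt ℝ 2 f (p0, e0) := by
    have hXc : ContDiffAt ℝ 2 (fun q : (ℝ × ℝ × ℝ × ℝ × ℂ) × (ℝ × ℝ) =>
        ((q.1.1, Xs + q.2.1 • m) : ℝ × Pl)) (p0, e0) := by fun_prop
    have hvc : ContDiffAt ℝ 2 (fun q : (ℝ × ℝ × ℝ × ℝ × ℂ) × (ℝ × ℝ) =>
        ((q.1.1, q.1.2.1, Xs + q.2.1 • m) : ℝ × ℝ × Pl)) (p0, e0) := by fun_prop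
    have hfc : ContDiffAt ℝ 2 (fun q : (ℝ × ℝ × ℝ × ℝ × ℂ) × (ℝ × ℝ) =>
        ((q.1.1, q.1.2.2.1, Xs + q.2.1 • m) : ℝ × ℝ × Pl)) (p0, e0) := by fun_prop
    have e1 : (((p0, e0) : (ℝ × ℝ × ℝ × ℝ × ℂ) × (ℝ × ℝ)).1.1,
        Xs + ((p0, e0) : (ℝ × ℝ × ℝ × ℝ × ℂ) × (ℝ × ℝ)).2.1 • m) = ((0, Xs) : ℝ × Pl) := by
      simp [hp0, he0]
    have e2 : (((p0, e0) : (ℝ × ℝ × ℝ × ℝ × ℂ) × (ℝ × ℝ)).1.1,
        ((p0, e0) : (ℝ × ℝ × ℝ × ℝ × ℂ) × (ℝ × ℝ)).1.2.1,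
        Xs + ((p0, e0) : (ℝ × ℝ × ℝ × ℝ × ℂ) × (ℝ × ℝ)).2.1 • m) = ((0, νv, Xs) : ℝ × ℝ × Pl) := by
      simp [hp0, he0]
    have e3 : (((p0, e0) : (ℝ × ℝ × ℝ × ℝ × ℂ) × (ℝ × ℝ)).1.1,
        ((p0, e0) : (ℝ × ℝ × ℝ × ℝ × ℂ) × (ℝ × ℝ)).1.2.2.1,
        Xs + ((p0, e0) : (ℝ × ℝ × ℝ × ℝ × ℂ) × (ℝ × ℝ)).2.1 • m) = ((0, νf, Xs) : ℝ × ℝ × Pl) := by
      simp [hp0, he0]
    have c1 : ContDiffAt ℝ 2 (fun q : (ℝ × ℝ × ℝ × ℝ × ℂ) × (ℝ × ℝ) =>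
        zk q.1.1 (Xs + q.2.1 • m)) (p0, e0) :=
      ContDiffAt.comp (g := fun q : ℝ × Pl => zk q.1 q.2) (p0, e0) (by rw [e1]; exact rf1_zkC Xs) hXc
    have c2 : ContDiffAt ℝ 2 (fun q : (ℝ × ℝ × ℝ × ℝ × ℂ) × (ℝ × ℝ) =>
        zr q.1.1 (Xs + q.2.1 • m)) (p0, e0) :=
      ContDiffAt.comp (g := fun q : ℝ × Pl => zr q.1 q.2) (p0, e0) (by rw [e1]; exact rf1_zrC Xs) hXc
    have c3 : ContDiffAt ℝ 2 (fun q : (ℝ × ℝ × ℝ × ℝ × ℂ) × (ℝ × ℝ) =>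
        gv (q.1.1, q.1.2.1, Xs + q.2.1 • m)) (p0, e0) :=
      ContDiffAt.comp (g := gv) (p0, e0)
        (by rw [e2]; exact hgv.contDiffAt (Metric.ball_mem_nhds _ hrv)) hvc
    have c4 : ContDiffAt ℝ 2 (fun q : (ℝ × ℝ × ℝ × ℝ × ℂ) × (ℝ × ℝ) =>
        gf (q.1.1, q.1.2.2.1, Xs + q.2.1 • m)) (p0, e0) :=
      ContDiffAt.comp (g := gf) (p0, e0)
        (by rw [e3]; exact hgf.contDiffAt (Metric.ball_mem_nhds _ hrf)) hfc
    have c5 : ContDiffAt ℝ 2 (fun q : (ℝ × ℝ × ℝ × ℝ × ℂ) × (ℝ × ℝ) => q.1.2.2.2.1) (p0, e0) := by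
      fun_prop
    have c6 : ContDiffAt ℝ 2 (fun q : (ℝ × ℝ × ℝ × ℝ × ℂ) × (ℝ × ℝ) => q.2.2) (p0, e0) := by
      fun_prop
    have c7 : ContDiffAt ℝ 2 (fun q : (ℝ × ℝ × ℝ × ℝ × ℂ) × (ℝ × ℝ) => q.1.2.2.2.2) (p0, e0) := by
      fun_prop
    have d1 : zk 0 (Xs + (0:ℝ) • m) ≠ 0 := by rw [rf1_zk]; exact hkh.ne'
    have d2 : 0 < Real.sin ((gv (0, νv, Xs + (0:ℝ) • m) - gf (0, νf, Xs + (0:ℝ) • m)) / 2) := by
      rw [hbase, hvv, hvf]; exact hS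
    have d3 : 0 < zr 0 (Xs + (0:ℝ) • m) := by rw [rf1_zr]; exact hrh
    have c8 := rf1_cd c1 c2 c3 c4 c5 c6 c7 d1 d2 d3 hϖ.ne'
    exact c8
  -- the value
  have hval : f (p0, e0) = 0 := by
    show cornW (zk 0 (Xs + (0:ℝ) • m)) (zr 0 (Xs + (0:ℝ) • m)) (gv (0, νv, Xs + (0:ℝ) • m))
      (gf (0, νf, Xs + (0:ℝ) • m)) lams ϖs υs = 0
    rw [hbase, rf1_zk, rf1_zr, hvv, hvf]
    exact hz
  -- the derivative in the unknowns
  have hD : DifferentiableAt ℝ (fun e : ℝ × ℝ => f (p0, e)) e0 := by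
    have h1 : DifferentiableAt ℝ f (p0, e0) := hcd.differentiableAt (by norm_num)
    exact DifferentiableAt.comp (g := f) (f := fun e : ℝ × ℝ => (p0, e)) e0 h1 (by fun_prop)
  set D := fderiv ℝ (fun e : ℝ × ℝ => f (p0, e)) e0 with hDdef
  have hDf : HasFDerivAt (fun e : ℝ × ℝ => f (p0, e)) D e0 := hD.hasFDerivAt
  -- derivative in `ϖ`
  have hD1 : D (0, 1) = deriv (fun w => cornW kh rh χs (-(Real.pi / 2)) lams w υs) ϖs := by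
    have h1 : HasDerivAt (fun w : ℝ => ((0, w) : ℝ × ℝ)) ((0, 1) : ℝ × ℝ) ϖs :=
      (hasDerivAt_const ϖs (0:ℝ)).prodMk (hasDerivAt_id ϖs)
    have h2 := HasFDerivAt.comp_hasDerivAt (l := fun e : ℝ × ℝ => f (p0, e)) ϖs hDf h1
    have h3 : ((fun e : ℝ × ℝ => f (p0, e)) ∘ fun w : ℝ => ((0, w) : ℝ × ℝ)) =
        fun w => cornW kh rh χs (-(Real.pi / 2)) lams w υs := by
      funext w
      show cornW (zk 0 (Xs + (0:ℝ) • m)) (zr 0 (Xs + (0:ℝ) • m)) (gv (0, νv, Xs + (0:ℝ) • m))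
        (gf (0, νf, Xs + (0:ℝ) • m)) lams w υs = _
      rw [hbase, rf1_zk, rf1_zr, hvv, hvf]
    rw [h3] at h2
    exact h2.deriv.symm
  -- derivative along `m`
  set a := dirD Xs χs m with ha
  set b := dirD Xs (-(Real.pi / 2)) m with hb
  set H : ℝ × ℝ → ℂ := fun x => cornW kh rh x.1 x.2 lams ϖs υs with hH
  have hHc : ContDiffAt ℝ 2 H (χs, -(Real.pi / 2)) := by
    have k1 : ContDiffAt ℝ 2 (fun _ : ℝ × ℝ => kh) (χs, -(Real.pi / 2)) := contDiffAt_const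
    have k2 : ContDiffAt ℝ 2 (fun _ : ℝ × ℝ => rh) (χs, -(Real.pi / 2)) := contDiffAt_const
    have k3 : ContDiffAt ℝ 2 (fun x : ℝ × ℝ => x.1) (χs, -(Real.pi / 2)) := contDiffAt_fst
    have k4 : ContDiffAt ℝ 2 (fun x : ℝ × ℝ => x.2) (χs, -(Real.pi / 2)) := contDiffAt_snd
    have k5 : ContDiffAt ℝ 2 (fun _ : ℝ × ℝ => lams) (χs, -(Real.pi / 2)) := contDiffAt_const
    have k6 : ContDiffAt ℝ 2 (fun _ : ℝ × ℝ => ϖs) (χs, -(Real.pi / 2)) := contDiffAt_const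
    have k7 : ContDiffAt ℝ 2 (fun _ : ℝ × ℝ => υs) (χs, -(Real.pi / 2)) := contDiffAt_const
    have k8 := rf1_cd k1 k2 k3 k4 k5 k6 k7 hkh.ne' hS hrh hϖ.ne'
    exact k8
  have hHd : HasFDerivAt H (fderiv ℝ H (χs, -(Real.pi / 2))) (χs, -(Real.pi / 2)) :=
    (hHc.differentiableAt (by norm_num)).hasFDerivAt
  have hD2 : D (1, 0) = deriv (fun t => cornW kh rh (χs + t * a) (-(Real.pi / 2) + t * b)
      lams ϖs υs) 0 := by
    have h1 : HasDerivAt (fun t : ℝ => ((t, ϖs) : ℝ × ℝ)) ((1, 0) : ℝ × ℝ) 0 :=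
      (hasDerivAt_id (0:ℝ)).prodMk (hasDerivAt_const (0:ℝ) ϖs)
    have h2 := HasFDerivAt.comp_hasDerivAt (l := fun e : ℝ × ℝ => f (p0, e)) (0:ℝ) hDf h1
    have h3 : ((fun e : ℝ × ℝ => f (p0, e)) ∘ fun t : ℝ => ((t, ϖs) : ℝ × ℝ)) =
        fun t : ℝ => H (gv (0, νv, Xs + t • m), gf (0, νf, Xs + t • m)) := by
      funext t
      show cornW (zk 0 (Xs + t • m)) (zr 0 (Xs + t • m)) (gv (0, νv, Xs + t • m))
        (gf (0, νf, Xs + t • m)) lams ϖs υs = _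
      rw [rf1_zk, rf1_zr]
    rw [h3] at h2
    have h4 : HasDerivAt (fun t : ℝ => ((gv (0, νv, Xs + t • m), gf (0, νf, Xs + t • m)) : ℝ × ℝ))
        ((a, b) : ℝ × ℝ) 0 := (rf1_dir hrv hgv m hdv).prodMk (rf1_dir hrf hgf m hdf)
    have h5 : HasFDerivAt H (fderiv ℝ H (χs, -(Real.pi / 2)))
        (gv (0, νv, Xs + (0:ℝ) • m), gf (0, νf, Xs + (0:ℝ) • m)) := by
      rw [hbase, hvv, hvf]; exact hHd
    have h6 := HasFDerivAt.comp_hasDerivAt (l := H) (0:ℝ) h5 h4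
    have h7 : HasDerivAt (fun t : ℝ => ((χs + t * a, -(Real.pi / 2) + t * b) : ℝ × ℝ))
        ((a, b) : ℝ × ℝ) 0 := by
      have h8 : HasDerivAt (fun t : ℝ => χs + t * a) a 0 := by
        have := ((hasDerivAt_id (0:ℝ)).mul_const a).const_add χs
        rw [one_mul] at this
        exact this
      have h9 : HasDerivAt (fun t : ℝ => -(Real.pi / 2) + t * b) b 0 := by
        have := ((hasDerivAt_id (0:ℝ)).mul_const b).const_add (-(Real.pi / 2))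
        rw [one_mul] at this
        exact this
      exact h8.prodMk h9
    have h10 : HasFDerivAt H (fderiv ℝ H (χs, -(Real.pi / 2)))
        (χs + (0:ℝ) * a, -(Real.pi / 2) + (0:ℝ) * b) := by
      rw [zero_mul, zero_mul, add_zero, add_zero]; exact hHd
    have h11 := HasFDerivAt.comp_hasDerivAt (l := H) (0:ℝ) h10 h7
    rw [h2.unique h6]
    exact h11.deriv.symm
  -- the determinant
  have hdet : ((starRingEnd ℂ) (D (0, 1)) * D (1, 0)).im ≠ 0 := by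
    rw [hD1, hD2, corn_J kh rh χs (-(Real.pi / 2)) lams ϖs a b υs hkh hS hϖ]
    have e1 : (χs - -(Real.pi / 2)) / 2 = (χs + Real.pi / 2) / 2 := by ring
    have h1 : cP lams ϖs (Real.sin ((χs - -(Real.pi / 2)) / 2)) * a -
        cM lams ϖs (Real.sin ((χs - -(Real.pi / 2)) / 2)) * b = covE Xs χs lams ϖs m := by
      rw [e1]; rfl
    rw [h1]
    have h2 : 1 / (4 * kh ^ 2 * Real.sin ((χs - -(Real.pi / 2)) / 2)) ≠ 0 := by positivity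
    exact mul_ne_zero h2 hm
  obtain ⟨A, hA⟩ := rf1_equiv D hdet
  -- the implicit function
  obtain ⟨U, hUcd, hU, hmem⟩ := eventually_nhds_iff.mp (hcd.eventually (by norm_num))
  have hUc : ContDiffOn ℝ 2 f U := fun x hx => (hUcd x hx).contDiffWithinAt
  have hmn : 0 ≤ ‖m‖ := norm_nonneg m
  obtain ⟨r, r', hr, hr', hr'δ, g, _, _, hgs⟩ := ift f U hU hUc p0 e0 hmem hval A
    (by rw [hA]; exact hDf) (δ / (‖m‖ + 1)) (by positivity)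
  refine ⟨r, hr, fun C ν ν' lam υ h1 h2 h3 h4 h5 => ?_⟩
  have hp : ((C, ν, ν', lam, υ) : ℝ × ℝ × ℝ × ℝ × ℂ) ∈ Metric.ball p0 r := by
    rw [Metric.mem_ball, hp0]
    refine max_lt ?_ (max_lt ?_ (max_lt ?_ (max_lt ?_ ?_)))
    · show dist C 0 < r
      rw [Real.dist_eq, sub_zero]; exact h1
    · show dist ν νv < r
      rw [Real.dist_eq]; exact h2
    · show dist ν' νf < r
      rw [Real.dist_eq]; exact h3
    · show dist lam lams < r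
      rw [Real.dist_eq]; exact h4
    · show dist υ υs < r
      rw [dist_eq_norm]; exact h5
  obtain ⟨hg1, _, hg3, _⟩ := hgs _ hp
  set e := g (C, ν, ν', lam, υ) with he
  have hed : dist e e0 < r' := hg1
  have hd1 : |e.1| < r' := by
    have h6 : dist e.1 e0.1 ≤ dist e e0 := le_max_left _ _
    have h7 : dist e.1 e0.1 = |e.1| := by rw [he0, Real.dist_eq, sub_zero]
    linarith
  have hd2 : |e.2 - ϖs| < r' := by
    have h6 : dist e.2 e0.2 ≤ dist e e0 := le_max_right _ _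
    have h7 : dist e.2 e0.2 = |e.2 - ϖs| := by rw [he0, Real.dist_eq]
    linarith
  have hr'2 : r' * (‖m‖ + 1) ≤ δ := by rwa [le_div_iff₀ (by positivity)] at hr'δ
  have hr'3 : r' ≤ δ := (le_mul_of_one_le_right hr'.le (by linarith)).trans hr'2
  refine ⟨Xs + e.1 • m, e.2, ?_, lt_of_lt_of_le hd2 hr'3, hg3⟩
  rw [add_sub_cancel_left, norm_smul, Real.norm_eq_abs]
  calc |e.1| * ‖m‖ ≤ |e.1| * (‖m‖ + 1) := by gcongr; linarith
    _ < r' * (‖m‖ + 1) := by gcongr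
    _ ≤ δ := hr'2

end

end Pool.Agent.HS

namespace Pool.Agent.HS
open Set Filter Topology
open scoped ContDiff

theorem corn_ift (Xs : Pl) (χs νv νf lams ϖs rv rf : ℝ) (υs : ℂ) (gv gf : ℝ × ℝ × Pl → ℝ)
    (hrv : 0 < rv) (hrf : 0 < rf)
    (hgv : ContDiffOn ℝ 2 gv (Metric.ball (0, νv, Xs) rv))
    (hgf : ContDiffOn ℝ 2 gf (Metric.ball (0, νf, Xs) rf))
    (hvv : gv (0, νv, Xs) = χs) (hvf : gf (0, νf, Xs) = -(Real.pi / 2))
    (hdv : ∀ v, fderiv ℝ (fun X => gv (0, νv, X)) Xs v = dirD Xs χs v)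
    (hdf : ∀ v, fderiv ℝ (fun X => gf (0, νf, X)) Xs v = dirD Xs (-(Real.pi / 2)) v)
    (hχ0 : 0 ≤ χs) (hχ1 : χs ≤ Real.pi) (hϖ : 0 < ϖs)
    (hz : cornW kh rh χs (-(Real.pi / 2)) lams ϖs υs = 0) (m : Pl)
    (hm : covE Xs χs lams ϖs m ≠ 0) (δ : ℝ) (hδ : 0 < δ) :
    ∃ ε : ℝ, 0 < ε ∧ ∀ (C ν ν' lam : ℝ) (υ : ℂ), |C| < ε → |ν - νv| < ε → |ν' - νf| < ε →
      |lam - lams| < ε → ‖υ - υs‖ < ε → ∃ (X : Pl) (ϖ : ℝ), ‖X - Xs‖ < δ ∧ |ϖ - ϖs| < δ ∧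
        cornG gv gf C ν ν' lam υ (X, ϖ) = 0 :=
  @Pool.Agent.HS.corn_ift_pr Xs χs νv νf lams ϖs rv rf υs gv gf hrv hrf hgv hgf hvv hvf hdv hdf hχ0 hχ1 hϖ hz m hm δ hδ

end Pool.Agent.HS
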