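import Pool.Agent.Lib_helper60.HSF.D_WR
import Pool.Agent.Lib_helper60.HSF.Z_RA
import Pool.Agent.Lib_helper60.HSF.Z_ZA1
import Pool.Agent.Lib_helper60.HSF.Z_ZC

/-! # HSZ block RF2: transversality for small `C` -/

namespace Pool.Agent.HS

noncomputable section

open Set Filter Topology
open scoped ContDiff

/-! ### smoothness -/

theorem rf2_re {E : Type*} [NormedAddCommGroup E] [NormedSpace ℝ E] {n : WithTop ℕ∞} {x : E}
    {f : E → ℝ} (h : ContDiffAt ℝ n f x) : ContDiffAt ℝ n (fun e => ((f e : ℝ) : ℂ)) x :=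
  Complex.ofRealCLM.contDiff.contDiffAt.comp x h

theorem rf2_corn {E : Type*} [NormedAddCommGroup E] [NormedSpace ℝ E] {n : WithTop ℕ∞} {x : E}
    {k r a b lam w : E → ℝ} {u : E → ℂ} (hk : ContDiffAt ℝ n k x) (hr : ContDiffAt ℝ n r x)
    (ha : ContDiffAt ℝ n a x) (hb : ContDiffAt ℝ n b x) (hl : ContDiffAt ℝ n lam x)
    (hw : ContDiffAt ℝ n w x) (hu : ContDiffAt ℝ n u x) (hk0 : 0 < k x) (hr0 : 0 < r x)
    (hS : 0 < Real.sin ((a x - b x) / 2)) (hw0 : w x ≠ 0) :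
    ContDiffAt ℝ n (fun e => cornW (k e) (r e) (a e) (b e) (lam e) (w e) (u e)) x := by
  unfold cornW
  have h1 : ContDiffAt ℝ n (fun e => Real.sqrt (Real.sin ((a e - b e) / 2))) x :=
    (((ha.sub hb).div_const 2).sin).sqrt hS.ne'
  have h2 : ContDiffAt ℝ n (fun e => 1 / (Real.sqrt 2 * k e *
      Real.sqrt (Real.sin ((a e - b e) / 2)))) x := by
    apply contDiffAt_const.div ((contDiffAt_const.mul hk).mul h1)
    have := Real.sqrt_pos.2 hS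
    positivity
  have h3 : ContDiffAt ℝ n (fun e => Complex.exp ((a e / 2 : ℝ) * Complex.I)) x :=
    ((rf2_re (ha.div_const 2)).mul contDiffAt_const).cexp
  have h4 : ContDiffAt ℝ n (fun e => Complex.exp (((b e + Real.pi) / 2 : ℝ) * Complex.I)) x :=
    ((rf2_re ((hb.add contDiffAt_const).div_const 2)).mul contDiffAt_const).cexp
  have h5 : ContDiffAt ℝ n (fun e => lam e ^ 2 / w e) x := (hl.pow 2).div hw hw0
  exact ((rf2_re h2).mul (((rf2_re hw).mul h3).sub ((rf2_re h5).mul h4))).sub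
    (hu.mul (rf2_re (hr.sqrt hr0.ne')))

theorem rf2_zr0 (X : Pl) : zr 0 X = rh := by
  rw [zr_eq]
  simp

theorem rf2_rh : 0 < rh := by
  have := z_bounds
  linarith [this.2.2.2.2.1]

theorem rf2_kh : 0 < kh := by
  have := z_bounds
  linarith [this.2.2.1]

theorem rf2_in (X : Pl) : 2 / (ma * mb) * (E0 + 1 / (chart 0 X).1 -
    ((chart 0 X).2 ^ 2 + (0 : ℝ) ^ 2 / (chart 0 X).1 ^ 2) / 2) = kh ^ 2 := by
  have h1 : (chart 0 X).1 = rh := rf2_zr0 X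
  have h2 : (chart 0 X).2 = 0 := by unfold chart; simp
  rw [h1, h2]
  have h3 : E0 + 1 / rh - ((0:ℝ) ^ 2 + (0:ℝ) ^ 2 / rh ^ 2) / 2 = E0 + 1 / rh := by ring
  rw [h3, E0_rh]
  have hab : ma * mb ≠ 0 := by unfold ma mb; norm_num
  rw [div_mul_eq_mul_div, mul_div_assoc']
  rw [show 2 * (ma * mb * kh ^ 2) / 2 = ma * mb * kh ^ 2 by ring,
    mul_div_cancel_left₀ _ hab]

theorem rf2_zk0 (X : Pl) : zk 0 X = kh := by
  unfold zk kap0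
  rw [rf2_in, Real.sqrt_sq rf2_kh.le]

theorem rf2_zr_smooth : ContDiff ℝ 2 (fun p : ℝ × Pl => zr p.1 p.2) := by
  have : (fun p : ℝ × Pl => zr p.1 p.2) =
      fun p => rh + p.1 * (1 / 2 + p.2.1) / (cc * rh) := rfl
  rw [this]
  fun_prop

theorem rf2_c2_smooth : ContDiff ℝ 2 (fun p : ℝ × Pl => (chart p.1 p.2).2) := by
  have : (fun p : ℝ × Pl => (chart p.1 p.2).2) =
      fun p => p.1 * (1 / 2 + 2 * p.2.1 + p.2.2) / rh := rfl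
  rw [this]
  fun_prop

theorem rf2_zk_smooth (X : Pl) : ContDiffAt ℝ 2 (fun p : ℝ × Pl => zk p.1 p.2) (0, X) := by
  unfold zk kap0
  have h1 : ContDiffAt ℝ 2 (fun p : ℝ × Pl => (chart p.1 p.2).1) (0, X) :=
    rf2_zr_smooth.contDiffAt
  have h2 : ContDiffAt ℝ 2 (fun p : ℝ × Pl => (chart p.1 p.2).2) (0, X) :=
    rf2_c2_smooth.contDiffAt
  have h3 : (chart (0 : ℝ) X).1 ≠ 0 := by
    have := rf2_zr0 X
    unfold zr at this
    rw [this]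
    exact rf2_rh.ne'
  have h4 : ContDiffAt ℝ 2 (fun p : ℝ × Pl => p.1) (0, X) := contDiff_fst.contDiffAt
  apply ContDiffAt.sqrt
  · exact contDiffAt_const.mul ((contDiffAt_const.add (contDiffAt_const.div h1 h3)).sub
      (((h2.pow 2).add ((h4.pow 2).div (h1.pow 2) (pow_ne_zero 2 h3))).div_const 2))
  · show 2 / (ma * mb) * (E0 + 1 / (chart 0 X).1 -
      ((chart 0 X).2 ^ 2 + (0 : ℝ) ^ 2 / (chart 0 X).1 ^ 2) / 2) ≠ 0
    rw [rf2_in]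
    exact (pow_pos rf2_kh 2).ne'

/-! ### Taylor's formula -/

theorem rf2_taylor {E F : Type*} [NormedAddCommGroup E] [NormedSpace ℝ E] [NormedAddCommGroup F]
    [NormedSpace ℝ F] {g : E → F} {x : E} (h : ContDiffAt ℝ 2 g x) :
    ∃ Q r : ℝ, 0 ≤ Q ∧ 0 < r ∧ ∀ y, ‖y - x‖ ≤ r →
      ‖g y - g x - fderiv ℝ g x (y - x)‖ ≤ Q * ‖y - x‖ ^ 2 := by
  have h1 : ContDiffAt ℝ 1 (fderiv ℝ g) x := h.fderiv_right (by norm_num)
  obtain ⟨K, t, ht, hK⟩ := h1.exists_lipschitzOnWith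
  have h2 : ∀ᶠ y in 𝓝 x, ContDiffAt ℝ 2 g y := h.eventually (by simp)
  obtain ⟨r, hr, hb⟩ := Metric.eventually_nhds_iff_ball.1 (h2.and ht)
  refine ⟨K, r / 2, K.2, by positivity, ?_⟩
  intro y hy
  have hsub : Metric.closedBall x ‖y - x‖ ⊆ Metric.ball x r := by
    intro z hz
    rw [Metric.mem_closedBall] at hz
    rw [Metric.mem_ball]
    linarith
  have hx : x ∈ Metric.closedBall x ‖y - x‖ := Metric.mem_closedBall_self (norm_nonneg _)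
  have hy' : y ∈ Metric.closedBall x ‖y - x‖ := by
    rw [Metric.mem_closedBall, dist_eq_norm]
  have h3 := Convex.norm_image_sub_le_of_norm_hasFDerivWithin_le' (𝕜 := ℝ) (f := g)
    (f' := fderiv ℝ g) (φ := fderiv ℝ g x) (C := K * ‖y - x‖) (s := Metric.closedBall x ‖y - x‖)
    (fun z hz => ((hb z (hsub hz)).1.differentiableAt (by norm_num)).hasFDerivAt.hasFDerivWithinAt)
    (fun z hz => by
      have h4 := hK.dist_le_mul z (hb z (hsub hz)).2 x (hb x (hsub hx)).2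
      rw [dist_eq_norm] at h4
      refine h4.trans ?_
      exact mul_le_mul_of_nonneg_left (Metric.mem_closedBall.1 hz) K.2)
    (convex_closedBall x _) hx hy'
  refine h3.trans_eq ?_
  ring

/-! ### the corner function in all variables -/

/-- parameters `(C, ν, ν', lam, υ)` and `(X, ϖ)` -/
def rf2_F (gv gf : ℝ × ℝ × Pl → ℝ) (q : (ℝ × ℝ × ℝ × ℝ × ℂ) × (Pl × ℝ)) : ℂ :=
  cornW (zk q.1.1 q.2.1) (zr q.1.1 q.2.1) (gv (q.1.1, q.1.2.1, q.2.1))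
    (gf (q.1.1, q.1.2.2.1, q.2.1)) q.1.2.2.2.1 q.2.2 q.1.2.2.2.2

theorem rf2_G (χ1 χ2 lam ϖ : ℝ) (υ : ℂ) (hS : 0 < Real.sin ((χ1 - χ2) / 2)) (hϖ : 0 < ϖ) :
    HasFDerivAt (fun p : ℝ × ℝ => cornW kh rh p.1 p.2 lam ϖ υ)
      (fderiv ℝ (fun p : ℝ × ℝ => cornW kh rh p.1 p.2 lam ϖ υ) (χ1, χ2)) (χ1, χ2) := by
  have h1 : ContDiffAt ℝ 1 (fun p : ℝ × ℝ => cornW kh rh p.1 p.2 lam ϖ υ) (χ1, χ2) :=
    rf2_corn (x := (χ1, χ2)) (k := fun _ : ℝ × ℝ => kh) (r := fun _ : ℝ × ℝ => rh)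
      (a := fun p : ℝ × ℝ => p.1) (b := fun p : ℝ × ℝ => p.2) (lam := fun _ : ℝ × ℝ => lam)
      (w := fun _ : ℝ × ℝ => ϖ) (u := fun _ : ℝ × ℝ => υ) contDiffAt_const contDiffAt_const
      contDiffAt_fst contDiffAt_snd contDiffAt_const contDiffAt_const contDiffAt_const
      rf2_kh rf2_rh hS hϖ.ne'
  exact (h1.differentiableAt one_ne_zero).hasFDerivAt

/-- smoothness at the base point -/
theorem rf2_smooth (Xs : Pl) (χs νv νf lams ϖs : ℝ) (υs : ℂ)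
    (gv gf : ℝ × ℝ × Pl → ℝ) (hgv' : ContDiffAt ℝ 2 gv (0, νv, Xs))
    (hgf' : ContDiffAt ℝ 2 gf (0, νf, Xs))
    (hvv : gv (0, νv, Xs) = χs) (hvf : gf (0, νf, Xs) = -(Real.pi / 2)) (hϖ : 0 < ϖs)
    (hS : 0 < Real.sin ((χs - -(Real.pi / 2)) / 2)) :
    ContDiffAt ℝ 2 (rf2_F gv gf) ((0, νv, νf, lams, υs), (Xs, ϖs)) := by
  unfold rf2_F
  apply rf2_corn
  · exact ContDiffAt.comp (g := fun p : ℝ × Pl => zk p.1 p.2)
      (f := fun q : (ℝ × ℝ × ℝ × ℝ × ℂ) × (Pl × ℝ) => (q.1.1, q.2.1))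
      ((0, νv, νf, lams, υs), (Xs, ϖs)) (rf2_zk_smooth Xs) (by fun_prop)
  · exact ContDiffAt.comp (g := fun p : ℝ × Pl => zr p.1 p.2)
      (f := fun q : (ℝ × ℝ × ℝ × ℝ × ℂ) × (Pl × ℝ) => (q.1.1, q.2.1))
      ((0, νv, νf, lams, υs), (Xs, ϖs)) rf2_zr_smooth.contDiffAt (by fun_prop)
  · exact ContDiffAt.comp (g := gv)
      (f := fun q : (ℝ × ℝ × ℝ × ℝ × ℂ) × (Pl × ℝ) => (q.1.1, q.1.2.1, q.2.1))
      ((0, νv, νf, lams, υs), (Xs, ϖs)) hgv' (by fun_prop)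
  · exact ContDiffAt.comp (g := gf)
      (f := fun q : (ℝ × ℝ × ℝ × ℝ × ℂ) × (Pl × ℝ) => (q.1.1, q.1.2.2.1, q.2.1))
      ((0, νv, νf, lams, υs), (Xs, ϖs)) hgf' (by fun_prop)
  · fun_prop
  · fun_prop
  · fun_prop
  · show 0 < zk 0 Xs
    rw [rf2_zk0]
    exact rf2_kh
  · show 0 < zr 0 Xs
    rw [rf2_zr0]
    exact rf2_rh
  · show 0 < Real.sin ((gv (0, νv, Xs) - gf (0, νf, Xs)) / 2)
    rw [hvv, hvf]
    exact hS
  · exact hϖ.ne'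

/-- derivative in `ϖ` -/
theorem rf2_e1 (Xs : Pl) (χs νv νf lams ϖs : ℝ) (υs : ℂ)
    (gv gf : ℝ × ℝ × Pl → ℝ) (L : (ℝ × ℝ × ℝ × ℝ × ℂ) × (Pl × ℝ) →L[ℝ] ℂ)
    (hDF : HasFDerivAt (rf2_F gv gf) L ((0, νv, νf, lams, υs), (Xs, ϖs)))
    (hvv : gv (0, νv, Xs) = χs) (hvf : gf (0, νf, Xs) = -(Real.pi / 2)) :
    L (0, ((0, 0), 1)) = deriv (fun w => cornW kh rh χs (-(Real.pi / 2)) lams w υs) ϖs := by
  have h1 : HasDerivAt (fun w : ℝ => ((((0:ℝ), νv, νf, lams, υs), (Xs, w)) :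
      (ℝ × ℝ × ℝ × ℝ × ℂ) × (Pl × ℝ))) (0, ((0, 0), 1)) ϖs := by
    exact (hasDerivAt_const ϖs _).prodMk ((hasDerivAt_const ϖs _).prodMk (hasDerivAt_id ϖs))
  have h2 := hDF.comp_hasDerivAt ϖs h1
  have h3 := h2.deriv
  rw [← h3]
  congr 1
  funext w
  show rf2_F gv gf _ = _
  unfold rf2_F
  simp only
  rw [rf2_zk0, rf2_zr0, hvv, hvf]

/-- derivative in `X` -/
theorem rf2_e2 (Xs : Pl) (χs νv νf lams ϖs : ℝ) (υs : ℂ)
    (gv gf : ℝ × ℝ × Pl → ℝ) (L : (ℝ × ℝ × ℝ × ℝ × ℂ) × (Pl × ℝ) →L[ℝ] ℂ)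
    (hDF : HasFDerivAt (rf2_F gv gf) L ((0, νv, νf, lams, υs), (Xs, ϖs)))
    (hgv' : ContDiffAt ℝ 2 gv (0, νv, Xs)) (hgf' : ContDiffAt ℝ 2 gf (0, νf, Xs))
    (hvv : gv (0, νv, Xs) = χs) (hvf : gf (0, νf, Xs) = -(Real.pi / 2))
    (hdv : ∀ v, fderiv ℝ (fun X => gv (0, νv, X)) Xs v = dirD Xs χs v)
    (hdf : ∀ v, fderiv ℝ (fun X => gf (0, νf, X)) Xs v = dirD Xs (-(Real.pi / 2)) v)
    (hϖ : 0 < ϖs) (hS : 0 < Real.sin ((χs - -(Real.pi / 2)) / 2)) (v : Pl) :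
    L (0, (v, 0)) =
        fderiv ℝ (fun p : ℝ × ℝ => cornW kh rh p.1 p.2 lams ϖs υs) (χs, -(Real.pi / 2))
          (dirD Xs χs v, dirD Xs (-(Real.pi / 2)) v) := by
  have hdgv : HasFDerivAt (fun X : Pl => gv (0, νv, X)) (fderiv ℝ (fun X : Pl => gv (0, νv, X)) Xs)
      Xs := by
    have h1 : ContDiffAt ℝ 2 (fun X : Pl => gv (0, νv, X)) Xs :=
      ContDiffAt.comp (g := gv) (f := fun X : Pl => ((0:ℝ), νv, X)) Xs hgv' (by fun_prop)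
    exact (h1.differentiableAt two_ne_zero).hasFDerivAt
  have hdgf : HasFDerivAt (fun X : Pl => gf (0, νf, X)) (fderiv ℝ (fun X : Pl => gf (0, νf, X)) Xs)
      Xs := by
    have h1 : ContDiffAt ℝ 2 (fun X : Pl => gf (0, νf, X)) Xs :=
      ContDiffAt.comp (g := gf) (f := fun X : Pl => ((0:ℝ), νf, X)) Xs hgf' (by fun_prop)
    exact (h1.differentiableAt two_ne_zero).hasFDerivAt
  have hG := rf2_G χs (-(Real.pi / 2)) lams ϖs υs hS hϖ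
  have h1 : HasFDerivAt (fun X : Pl => ((((0:ℝ), νv, νf, lams, υs), (X, ϖs)) :
      (ℝ × ℝ × ℝ × ℝ × ℂ) × (Pl × ℝ)))
      ((0 : Pl →L[ℝ] ℝ × ℝ × ℝ × ℝ × ℂ).prod
        ((ContinuousLinearMap.id ℝ Pl).prod (0 : Pl →L[ℝ] ℝ))) Xs :=
    (hasFDerivAt_const _ Xs).prodMk ((hasFDerivAt_id Xs).prodMk (hasFDerivAt_const _ Xs))
  have h2 := hDF.comp Xs h1
  have h3 : HasFDerivAt (fun X : Pl => (gv (0, νv, X), gf (0, νf, X)))
      ((fderiv ℝ (fun X : Pl => gv (0, νv, X)) Xs).prod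
        (fderiv ℝ (fun X : Pl => gf (0, νf, X)) Xs)) Xs := hdgv.prodMk hdgf
  have h4 : HasFDerivAt (fun p : ℝ × ℝ => cornW kh rh p.1 p.2 lams ϖs υs)
    (fderiv ℝ (fun p : ℝ × ℝ => cornW kh rh p.1 p.2 lams ϖs υs) (χs, -(Real.pi / 2)))
    ((fun X : Pl => (gv (0, νv, X), gf (0, νf, X))) Xs) := by
    simp only
    rw [hvv, hvf]
    exact hG
  have h5 := h4.comp Xs h3
  have h6 : ((fun p : ℝ × ℝ => cornW kh rh p.1 p.2 lams ϖs υs) ∘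
      fun X : Pl => (gv (0, νv, X), gf (0, νf, X))) =
      (rf2_F gv gf) ∘ (fun X : Pl => ((((0:ℝ), νv, νf, lams, υs), (X, ϖs)) :
      (ℝ × ℝ × ℝ × ℝ × ℂ) × (Pl × ℝ))) := by
    funext X
    simp only [Function.comp_apply]
    unfold rf2_F
    simp only
    rw [rf2_zk0, rf2_zr0]
  rw [h6] at h5
  have h7 := h2.unique h5
  have h8 := DFunLike.congr_fun h7 v
  simp only [ContinuousLinearMap.comp_apply, ContinuousLinearMap.prod_apply,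
    ContinuousLinearMap.zero_apply, ContinuousLinearMap.id_apply] at h8
  rw [hdv, hdf] at h8
  exact h8

theorem rf2_e3 (χs lams ϖs : ℝ) (υs : ℂ) (a b : ℝ) (hϖ : 0 < ϖs)
    (hS : 0 < Real.sin ((χs - -(Real.pi / 2)) / 2)) :
    deriv (fun t => cornW kh rh (χs + t * a) (-(Real.pi / 2) + t * b) lams ϖs υs) 0 =
      fderiv ℝ (fun p : ℝ × ℝ => cornW kh rh p.1 p.2 lams ϖs υs) (χs, -(Real.pi / 2)) (a, b) := by
  have hG := rf2_G χs (-(Real.pi / 2)) lams ϖs υs hS hϖ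
  have h1 : HasDerivAt (fun t : ℝ => (χs + t * a, -(Real.pi / 2) + t * b)) (a, b) 0 := by
    apply HasDerivAt.prodMk
    · have := ((hasDerivAt_id (0:ℝ)).mul_const a).const_add χs
      simpa using this
    · have := ((hasDerivAt_id (0:ℝ)).mul_const b).const_add (-(Real.pi / 2))
      simpa using this
  have h4 : HasFDerivAt (fun p : ℝ × ℝ => cornW kh rh p.1 p.2 lams ϖs υs)
    (fderiv ℝ (fun p : ℝ × ℝ => cornW kh rh p.1 p.2 lams ϖs υs) (χs, -(Real.pi / 2)))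
    ((fun t : ℝ => (χs + t * a, -(Real.pi / 2) + t * b)) 0) := by
    simp only [zero_mul, add_zero]
    exact hG
  exact (h4.comp_hasDerivAt 0 h1).deriv

/-- the determinant is continuous -/
theorem rf2_cont (gv gf : ℝ × ℝ × Pl → ℝ) (p0 : (ℝ × ℝ × ℝ × ℝ × ℂ) × (Pl × ℝ))
    (hfc : ContinuousAt (fderiv ℝ (rf2_F gv gf)) p0) (v : Pl) :
    ContinuousAt (fun z : ((ℝ × ℝ × ℝ × ℝ × ℂ) × (Pl × ℝ)) × Pl =>
        ((starRingEnd ℂ) (fderiv ℝ (rf2_F gv gf) z.1 (0, ((0, 0), 1))) *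
        fderiv ℝ (rf2_F gv gf) z.1 (0, (z.2, 0))).im) (p0, v) := by
  have h1 : ContinuousAt (fun z : ((ℝ × ℝ × ℝ × ℝ × ℂ) × (Pl × ℝ)) × Pl =>
      fderiv ℝ (rf2_F gv gf) z.1) (p0, v) :=
    ContinuousAt.comp (x := (p0, v)) (f := fun z : ((ℝ × ℝ × ℝ × ℝ × ℂ) × (Pl × ℝ)) × Pl => z.1)
      (g := fderiv ℝ (rf2_F gv gf)) hfc continuousAt_fst
  have h2 : ContinuousAt (fun z : ((ℝ × ℝ × ℝ × ℝ × ℂ) × (Pl × ℝ)) × Pl =>
      fderiv ℝ (rf2_F gv gf) z.1 (0, ((0, 0), 1))) (p0, v) :=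
    h1.clm_apply continuousAt_const
  have h3 : ContinuousAt (fun z : ((ℝ × ℝ × ℝ × ℝ × ℂ) × (Pl × ℝ)) × Pl =>
      fderiv ℝ (rf2_F gv gf) z.1 (0, (z.2, 0))) (p0, v) :=
    h1.clm_apply (by fun_prop)
  exact Complex.continuous_im.continuousAt.comp
    ((Complex.continuous_conj.continuousAt.comp h2).mul h3)

/-- the partial function -/
theorem rf2_part (gv gf : ℝ × ℝ × Pl → ℝ) (C ν ν' lam : ℝ) (υ : ℂ) (X : Pl) (ϖ : ℝ)
    (hsm : ContDiffAt ℝ 2 (rf2_F gv gf) ((C, ν, ν', lam, υ), (X, ϖ))) :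
    ContDiffAt ℝ 2 (cornG gv gf C ν ν' lam υ) (X, ϖ) ∧
    ∀ w : Pl × ℝ, fderiv ℝ (cornG gv gf C ν ν' lam υ) (X, ϖ) w =
      fderiv ℝ (rf2_F gv gf) ((C, ν, ν', lam, υ), (X, ϖ)) (0, w) := by
  constructor
  · exact ContDiffAt.comp (g := rf2_F gv gf) (f := fun w : Pl × ℝ => (((C, ν, ν', lam, υ), w) :
      (ℝ × ℝ × ℝ × ℝ × ℂ) × (Pl × ℝ))) ((X, ϖ) : Pl × ℝ) hsm (by fun_prop)
  · intro w
    have h1 : HasFDerivAt (rf2_F gv gf)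
        (fderiv ℝ (rf2_F gv gf) ((C, ν, ν', lam, υ), (X, ϖ))) ((C, ν, ν', lam, υ), (X, ϖ)) :=
      (hsm.differentiableAt two_ne_zero).hasFDerivAt
    have h2 : HasFDerivAt (fun w : Pl × ℝ => (((C, ν, ν', lam, υ), w) :
        (ℝ × ℝ × ℝ × ℝ × ℂ) × (Pl × ℝ)))
        ((0 : Pl × ℝ →L[ℝ] ℝ × ℝ × ℝ × ℝ × ℂ).prod (ContinuousLinearMap.id ℝ (Pl × ℝ))) (X, ϖ) :=
      (hasFDerivAt_const _ _).prodMk (hasFDerivAt_id _)
    have h3 := (h1.comp (X, ϖ) h2).fderiv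
    have h4 : (rf2_F gv gf) ∘ (fun w : Pl × ℝ => (((C, ν, ν', lam, υ), w) :
        (ℝ × ℝ × ℝ × ℝ × ℂ) × (Pl × ℝ))) = cornG gv gf C ν ν' lam υ := rfl
    rw [h4] at h3
    rw [h3]
    rfl

theorem corn_trans_pr (Xs : Pl) (χs νv νf lams ϖs rv rf : ℝ) (υs : ℂ)
    (gv gf : ℝ × ℝ × Pl → ℝ)
    (hrv : 0 < rv) (hrf : 0 < rf)
    (hgv : ContDiffOn ℝ 2 gv (Metric.ball (0, νv, Xs) rv))
    (hgf : ContDiffOn ℝ 2 gf (Metric.ball (0, νf, Xs) rf))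
    (hvv : gv (0, νv, Xs) = χs) (hvf : gf (0, νf, Xs) = -(Real.pi / 2))
    (hdv : ∀ v, fderiv ℝ (fun X => gv (0, νv, X)) Xs v = dirD Xs χs v)
    (hdf : ∀ v, fderiv ℝ (fun X => gf (0, νf, X)) Xs v = dirD Xs (-(Real.pi / 2)) v)
    (hχ0 : 0 ≤ χs) (hχ1 : χs ≤ Real.pi) (hϖ : 0 < ϖs) (V : Set Pl) (hV : IsCompact V)
    (hcov : ∀ v ∈ V, covE Xs χs lams ϖs v ≠ 0) :
    ∃ δ : ℝ, 0 < δ ∧ ∀ (C ν ν' lam : ℝ) (υ : ℂ) (X : Pl) (ϖ : ℝ), |C| < δ → |ν - νv| < δ →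
      |ν' - νf| < δ → |lam - lams| < δ → ‖υ - υs‖ < δ → ‖X - Xs‖ < δ → |ϖ - ϖs| < δ →
      cornG gv gf C ν ν' lam υ (X, ϖ) = 0 → TZeroV V (cornG gv gf C ν ν' lam υ) X ϖ := by
  have hpi := Real.pi_pos
  have hS : 0 < Real.sin ((χs - -(Real.pi / 2)) / 2) := by
    apply Real.sin_pos_of_pos_of_lt_pi <;> linarith
  have hgv' : ContDiffAt ℝ 2 gv (0, νv, Xs) :=
    hgv.contDiffAt (Metric.ball_mem_nhds _ hrv)
  have hgf' : ContDiffAt ℝ 2 gf (0, νf, Xs) :=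
    hgf.contDiffAt (Metric.ball_mem_nhds _ hrf)
  have hF := rf2_smooth Xs χs νv νf lams ϖs υs gv gf hgv' hgf' hvv hvf hϖ hS
  -- derivative at the base point
  have hDF := (hF.differentiableAt two_ne_zero).hasFDerivAt
  have hbase : ∀ v : Pl, v ∈ V → ((starRingEnd ℂ)
      (fderiv ℝ (rf2_F gv gf) ((0, νv, νf, lams, υs), (Xs, ϖs)) (0, ((0, 0), 1))) *
      fderiv ℝ (rf2_F gv gf) ((0, νv, νf, lams, υs), (Xs, ϖs)) (0, (v, 0))).im ≠ 0 := by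
    intro v hv
    rw [rf2_e1 Xs χs νv νf lams ϖs υs gv gf _ hDF hvv hvf,
      rf2_e2 Xs χs νv νf lams ϖs υs gv gf _ hDF hgv' hgf' hvv hvf hdv hdf hϖ hS v,
      ← rf2_e3 χs lams ϖs υs _ _ hϖ hS,
      corn_J kh rh χs (-(Real.pi / 2)) lams ϖs _ _ υs rf2_kh hS hϖ]
    have h1 := hcov v hv
    unfold covE at h1
    rw [sub_neg_eq_add]
    rw [sub_neg_eq_add] at hS
    apply mul_ne_zero _ h1
    have := rf2_kh
    positivity
  -- the neighbourhood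
  have hfc : ContinuousAt (fderiv ℝ (rf2_F gv gf)) ((0, νv, νf, lams, υs), (Xs, ϖs)) :=
    (hF.fderiv_right (m := 1) le_rfl).continuousAt
  have hev : ∀ᶠ q in 𝓝 (((0, νv, νf, lams, υs), (Xs, ϖs)) :
      (ℝ × ℝ × ℝ × ℝ × ℂ) × (Pl × ℝ)), ∀ v ∈ V,
      ((starRingEnd ℂ) (fderiv ℝ (rf2_F gv gf) q (0, ((0, 0), 1))) *
        fderiv ℝ (rf2_F gv gf) q (0, (v, 0))).im ≠ 0 := by
    apply hV.eventually_forall_of_forall_eventually
    intro v hv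
    exact (rf2_cont gv gf _ hfc v).eventually_ne (hbase v hv)
  have hall : ∀ᶠ q in 𝓝 (((0, νv, νf, lams, υs), (Xs, ϖs)) :
      (ℝ × ℝ × ℝ × ℝ × ℂ) × (Pl × ℝ)), ContDiffAt ℝ 2 (rf2_F gv gf) q :=
    hF.eventually (by simp)
  obtain ⟨δ, hδ, hb⟩ := Metric.eventually_nhds_iff_ball.1 (hev.and hall)
  refine ⟨δ, hδ, ?_⟩
  intro C ν ν' lam υ X ϖ hC hν hν' hlam hυ hX hϖ' hz
  have hmem : (((C, ν, ν', lam, υ), (X, ϖ)) : (ℝ × ℝ × ℝ × ℝ × ℂ) × (Pl × ℝ)) ∈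
      Metric.ball ((0, νv, νf, lams, υs), (Xs, ϖs)) δ := by
    rw [Metric.mem_ball, Prod.dist_eq]
    refine max_lt ?_ ?_
    · rw [Prod.dist_eq]
      refine max_lt (by rw [Real.dist_eq, sub_zero]; exact hC) ?_
      rw [Prod.dist_eq]
      refine max_lt (by rw [Real.dist_eq]; exact hν) ?_
      rw [Prod.dist_eq]
      refine max_lt (by rw [Real.dist_eq]; exact hν') ?_
      rw [Prod.dist_eq]
      exact max_lt (by rw [Real.dist_eq]; exact hlam) (by rw [dist_eq_norm]; exact hυ)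
    · rw [Prod.dist_eq]
      exact max_lt (by rw [dist_eq_norm]; exact hX) (by rw [Real.dist_eq]; exact hϖ')
  obtain ⟨hne, hsm⟩ := hb _ hmem
  refine ⟨hz, ?_⟩
  obtain ⟨hg, hfd⟩ := rf2_part gv gf C ν ν' lam υ X ϖ hsm
  obtain ⟨Q, h, hQ, hh, hT⟩ := rf2_taylor hg
  refine ⟨fderiv ℝ (cornG gv gf C ν ν' lam υ) (X, ϖ) ((1, 0), 0),
    fderiv ℝ (cornG gv gf C ν ν' lam υ) (X, ϖ) ((0, 1), 0),
    fderiv ℝ (cornG gv gf C ν ν' lam υ) (X, ϖ) ((0, 0), 1), Q, h, hh, ?_, ?_⟩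
  · intro Y hY t ht
    have hY' : ‖Y - X‖ ≤ h := by
      rw [Metric.mem_closedBall, dist_eq_norm] at hY
      exact hY
    have ht' : |t - ϖ| ≤ h := by
      rw [abs_le]
      constructor <;> linarith [ht.1, ht.2]
    have hn : ‖((Y, t) : Pl × ℝ) - (X, ϖ)‖ = max ‖Y - X‖ |t - ϖ| := by
      rw [Prod.norm_def]
      rfl
    have h1 := hT (Y, t) (by rw [hn]; exact max_le hY' ht')
    have h2 : fderiv ℝ (cornG gv gf C ν ν' lam υ) (X, ϖ) ((Y, t) - (X, ϖ)) =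
        ((Y.1 - X.1 : ℝ) * fderiv ℝ (cornG gv gf C ν ν' lam υ) (X, ϖ) ((1, 0), 0) +
        (Y.2 - X.2 : ℝ) * fderiv ℝ (cornG gv gf C ν ν' lam υ) (X, ϖ) ((0, 1), 0) +
        (t - ϖ : ℝ) * fderiv ℝ (cornG gv gf C ν ν' lam υ) (X, ϖ) ((0, 0), 1)) := by
      have h3 : ((Y, t) - (X, ϖ) : Pl × ℝ) = (Y.1 - X.1) • (((1, 0), 0) : Pl × ℝ) +
          (Y.2 - X.2) • (((0, 1), 0) : Pl × ℝ) + (t - ϖ) • (((0, 0), 1) : Pl × ℝ) := by
        ext <;> simp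
      rw [h3, map_add, map_add, map_smul, map_smul, map_smul]
      simp only [Complex.real_smul]
    rw [h2] at h1
    refine h1.trans ?_
    apply mul_le_mul_of_nonneg_left _ hQ
    apply pow_le_pow_left₀ (norm_nonneg _)
    rw [hn]
    exact max_le (le_add_of_nonneg_right (abs_nonneg _)) (le_add_of_nonneg_left (norm_nonneg _))
  · intro v hv
    have h1 := hne v hv
    have h2 : (v.1 : ℂ) * fderiv ℝ (cornG gv gf C ν ν' lam υ) (X, ϖ) ((1, 0), 0) +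
        (v.2 : ℂ) * fderiv ℝ (cornG gv gf C ν ν' lam υ) (X, ϖ) ((0, 1), 0) =
        fderiv ℝ (rf2_F gv gf) ((C, ν, ν', lam, υ), (X, ϖ)) (0, (v, 0)) := by
      rw [← hfd]
      have h3 : ((v, 0) : Pl × ℝ) = v.1 • (((1, 0), 0) : Pl × ℝ) +
          v.2 • (((0, 1), 0) : Pl × ℝ) := by
        ext <;> simp
      rw [h3, map_add, map_smul, map_smul]
      simp only [Complex.real_smul]
    rw [h2, hfd]
    exact h1

end

end Pool.Agent.HS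

namespace Pool.Agent.HS
open Set Filter Topology
open scoped ContDiff

theorem corn_trans (Xs : Pl) (χs νv νf lams ϖs rv rf : ℝ) (υs : ℂ) (gv gf : ℝ × ℝ × Pl → ℝ)
    (hrv : 0 < rv) (hrf : 0 < rf)
    (hgv : ContDiffOn ℝ 2 gv (Metric.ball (0, νv, Xs) rv))
    (hgf : ContDiffOn ℝ 2 gf (Metric.ball (0, νf, Xs) rf))
    (hvv : gv (0, νv, Xs) = χs) (hvf : gf (0, νf, Xs) = -(Real.pi / 2))
    (hdv : ∀ v, fderiv ℝ (fun X => gv (0, νv, X)) Xs v = dirD Xs χs v)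
    (hdf : ∀ v, fderiv ℝ (fun X => gf (0, νf, X)) Xs v = dirD Xs (-(Real.pi / 2)) v)
    (hχ0 : 0 ≤ χs) (hχ1 : χs ≤ Real.pi) (hϖ : 0 < ϖs) (V : Set Pl) (hV : IsCompact V)
    (hcov : ∀ v ∈ V, covE Xs χs lams ϖs v ≠ 0) :
    ∃ δ : ℝ, 0 < δ ∧ ∀ (C ν ν' lam : ℝ) (υ : ℂ) (X : Pl) (ϖ : ℝ), |C| < δ → |ν - νv| < δ →
      |ν' - νf| < δ → |lam - lams| < δ → ‖υ - υs‖ < δ → ‖X - Xs‖ < δ → |ϖ - ϖs| < δ →
      cornG gv gf C ν ν' lam υ (X, ϖ) = 0 → TZeroV V (cornG gv gf C ν ν' lam υ) X ϖ :=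
  @Pool.Agent.HS.corn_trans_pr Xs χs νv νf lams ϖs rv rf υs gv gf hrv hrf hgv hgf hvv hvf hdv hdf hχ0 hχ1 hϖ V hV hcov

end Pool.Agent.HS
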