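import Pool.Agent.Lib_helper60.HSF.D_WR
import Pool.Agent.Lib_helper60.HSF.Z_RF2
import Pool.Agent.Lib_helper60.HSF.Z_RC
import Pool.Agent.Lib_helper60.HSF.Z_RA
import Pool.Agent.Lib_helper60.HSF.Z_RF1
import Pool.Agent.Lib_helper60.HSF.Z_QA1
import Pool.Agent.Lib_helper60.HSF.N_MI

/-!
# Project HS, block RG1: local supply of corner events
-/

namespace Pool.Agent.HS

noncomputable section

open Set Filter Topology
open scoped ContDiff

theorem rg1_nat {ν C : ℝ} (hν : 0 < ν) (hC : 0 < C) : ∃ K : ℕ, |K * C - ν| ≤ C := by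
  refine ⟨⌊ν / C⌋₊, ?_⟩
  have h1 : (⌊ν / C⌋₊ : ℝ) ≤ ν / C := Nat.floor_le (by positivity)
  have h2 : ν / C < ⌊ν / C⌋₊ + 1 := Nat.lt_floor_add_one _
  rw [le_div_iff₀ hC] at h1
  rw [div_lt_iff₀ hC] at h2
  rw [abs_le]
  constructor <;> nlinarith

theorem rg1_mem {C ν ν0 s : ℝ} {X X0 : Pl} (h1 : |C| < s) (h2 : |ν - ν0| < s)
    (h3 : ‖X - X0‖ < s) : ((C, ν, X) : ℝ × ℝ × Pl) ∈ Metric.ball ((0, ν0, X0) : ℝ × ℝ × Pl) s := by
  rw [Metric.mem_ball, dist_eq_norm]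
  have e : ((C, ν, X) : ℝ × ℝ × Pl) - (0, ν0, X0) = (C, ν - ν0, X - X0) := by simp
  rw [e]
  exact max_lt (by simpa using h1) (max_lt (by simpa using h2) h3)

/-- closeness of the values -/
theorem rg1_val {g : ℝ × ℝ × Pl → ℝ} {p0 : ℝ × ℝ × Pl} {r : ℝ} (hr : 0 < r)
    (hg : ContDiffOn ℝ 2 g (Metric.ball p0 r)) {c : ℝ} (hc : 0 < c) :
    ∃ s : ℝ, 0 < s ∧ s ≤ r ∧ ∀ p ∈ Metric.ball p0 s, |g p - g p0| < c := by
  have h1 : ContinuousAt g p0 :=
    (hg.contDiffAt (Metric.ball_mem_nhds p0 hr)).continuousAt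
  obtain ⟨s, hs, h⟩ := Metric.continuousAt_iff.1 h1 c hc
  refine ⟨min s r, lt_min hs hr, min_le_right _ _, fun p hp => ?_⟩
  have := h (lt_of_lt_of_le (Metric.mem_ball.1 hp) (min_le_left _ _))
  rwa [Real.dist_eq] at this

/-- fibres -/
theorem rg1_fib {g : ℝ × ℝ × Pl → ℝ} {p0 : ℝ × ℝ × Pl} {r : ℝ}
    (hg : ContDiffOn ℝ 2 g (Metric.ball p0 r)) {C ν : ℝ} {X : Pl}
    (hp : (C, ν, X) ∈ Metric.ball p0 r) : ContDiffAt ℝ 2 (fun Y : Pl => g (C, ν, Y)) X := by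
  have h1 : ContDiffAt ℝ 2 g (C, ν, X) := hg.contDiffAt (Metric.isOpen_ball.mem_nhds hp)
  exact h1.comp X (contDiffAt_const.prodMk (contDiffAt_const.prodMk contDiffAt_id))

theorem rg1_fd {g : ℝ × ℝ × Pl → ℝ} {p0 : ℝ × ℝ × Pl} {r : ℝ}
    (hg : ContDiffOn ℝ 2 g (Metric.ball p0 r)) {C ν : ℝ} {X : Pl}
    (hp : (C, ν, X) ∈ Metric.ball p0 r) (v : Pl) :
    fderiv ℝ (fun Y : Pl => g (C, ν, Y)) X v = fderiv ℝ g (C, ν, X) (0, 0, v) := by
  have h1 : ContDiffAt ℝ 2 g (C, ν, X) := hg.contDiffAt (Metric.isOpen_ball.mem_nhds hp)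
  have h2 : HasFDerivAt g (fderiv ℝ g (C, ν, X)) (C, ν, X) :=
    (h1.differentiableAt (by norm_num)).hasFDerivAt
  have h3 : HasFDerivAt (fun Y : Pl => ((C, ν, Y) : ℝ × ℝ × Pl))
      ((0 : Pl →L[ℝ] ℝ).prod ((0 : Pl →L[ℝ] ℝ).prod (ContinuousLinearMap.id ℝ Pl))) X :=
    (hasFDerivAt_const C X).prodMk ((hasFDerivAt_const ν X).prodMk (hasFDerivAt_id X))
  have h4 := h2.comp X h3
  have h5 : fderiv ℝ (fun Y : Pl => g (C, ν, Y)) X =
      (fderiv ℝ g (C, ν, X)).comp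
        ((0 : Pl →L[ℝ] ℝ).prod ((0 : Pl →L[ℝ] ℝ).prod (ContinuousLinearMap.id ℝ Pl))) := h4.fderiv
  rw [h5]
  rfl

/-- closeness of the derivatives of the fibres -/
theorem rg1_der {g : ℝ × ℝ × Pl → ℝ} {p0 : ℝ × ℝ × Pl} {r : ℝ} (hr : 0 < r)
    (hg : ContDiffOn ℝ 2 g (Metric.ball p0 r)) {c : ℝ} (hc : 0 < c) :
    ∃ s : ℝ, 0 < s ∧ s ≤ r ∧ ∀ p ∈ Metric.ball p0 s, ∀ v : Pl,
      |fderiv ℝ (fun Y : Pl => g (p.1, p.2.1, Y)) p.2.2 v -
        fderiv ℝ (fun Y : Pl => g (p0.1, p0.2.1, Y)) p0.2.2 v| ≤ c * ‖v‖ := by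
  have h0 : ContDiffAt ℝ 2 g p0 := hg.contDiffAt (Metric.ball_mem_nhds p0 hr)
  have h1 : ContinuousAt (fderiv ℝ g) p0 :=
    (h0.fderiv_right (m := 1) (by norm_num)).continuousAt
  obtain ⟨s, hs, h⟩ := Metric.continuousAt_iff.1 h1 c hc
  refine ⟨min s r, lt_min hs hr, min_le_right _ _, fun p hp v => ?_⟩
  have hp1 := h (lt_of_lt_of_le (Metric.mem_ball.1 hp) (min_le_left _ _))
  have hp2 : p ∈ Metric.ball p0 r := Metric.ball_subset_ball (min_le_right _ _) hp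
  have e1 := rg1_fd hg (C := p.1) (ν := p.2.1) (X := p.2.2) hp2 v
  have e2 := rg1_fd hg (C := p0.1) (ν := p0.2.1) (X := p0.2.2) (Metric.mem_ball_self hr) v
  rw [e1, e2]
  rw [dist_eq_norm] at hp1
  have e3 : fderiv ℝ g (p.1, p.2.1, p.2.2) (0, 0, v) - fderiv ℝ g (p0.1, p0.2.1, p0.2.2) (0, 0, v) =
      (fderiv ℝ g p - fderiv ℝ g p0) (0, 0, v) := rfl
  rw [e3, ← Real.norm_eq_abs]
  refine (ContinuousLinearMap.le_opNorm _ _).trans ?_
  have e4 : ‖((0, 0, v) : ℝ × ℝ × Pl)‖ = ‖v‖ := by simp [Prod.norm_def]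
  rw [e4]
  exact mul_le_mul_of_nonneg_right hp1.le (norm_nonneg _)

theorem rg1_low {V : Set Pl} (hV : IsCompact V) (A : Pl →L[ℝ] ℝ) (hA : ∀ v ∈ V, A v ≠ 0) :
    ∃ c : ℝ, 0 < c ∧ ∀ v ∈ V, c * ‖v‖ < |A v| := by
  rcases V.eq_empty_or_nonempty with h | h
  · exact ⟨1, one_pos, by simp [h]⟩
  · obtain ⟨v0, hv0, hmin⟩ := hV.exists_isMinOn h (f := fun v => |A v|)
      (A.continuous.abs.continuousOn)
    obtain ⟨M, hM⟩ := hV.isBounded.exists_norm_le
    have hm : 0 < |A v0| := abs_pos.2 (hA v0 hv0)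
    have hM0 : 0 ≤ M := (norm_nonneg v0).trans (hM v0 hv0)
    refine ⟨|A v0| / (M + 1), by positivity, fun v hv => ?_⟩
    have h1 : |A v0| ≤ |A v| := hmin hv
    have h2 : |A v0| / (M + 1) * ‖v‖ ≤ |A v0| / (M + 1) * M :=
      mul_le_mul_of_nonneg_left (hM v hv) (by positivity)
    have h3 : |A v0| / (M + 1) * M < |A v0| := by
      rw [div_mul_eq_mul_div, div_lt_iff₀ (by positivity)]
      nlinarith
    linarith

/-- the mark condition near the base point -/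
theorem rg1_mark {side : Bool} {Xs : Pl} {χs νv νf rv rf : ℝ} {gv gf : ℝ × ℝ × Pl → ℝ}
    (hf : DFam side 0 (fun _ => True) Xs (-(Real.pi / 2)) νf rf gf)
    (hv : DFam side 2 (sc side) Xs χs νv rv gv) (i' : Fin 2)
    (hB : χs = Real.pi / 2 → ∀ v ∈ dcone side i',
      dirD Xs χs v - dirD Xs (-(Real.pi / 2)) v ≠ 0) :
    ∃ s : ℝ, 0 < s ∧ ∀ (C ν ν' : ℝ) (X : Pl),
      (C, ν, X) ∈ Metric.ball ((0, νv, Xs) : ℝ × ℝ × Pl) s →
      (C, ν', X) ∈ Metric.ball ((0, νf, Xs) : ℝ × ℝ × Pl) s →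
      gv (C, ν, X) - gf (C, ν', X) = Real.pi → ∀ v ∈ dcone side i',
        fderiv ℝ (fun Y : Pl => gv (C, ν, Y)) X v - fderiv ℝ (fun Y : Pl => gf (C, ν', Y)) X v ≠ 0 := by
  by_cases hχ : χs = Real.pi / 2
  · have hB' := hB hχ
    obtain ⟨c, hc, hlow⟩ := rg1_low (dcone_compact side i').1
      (fderiv ℝ (fun Y : Pl => gv (0, νv, Y)) Xs - fderiv ℝ (fun Y : Pl => gf (0, νf, Y)) Xs)
      (by
        intro v hv'
        have := hB' v hv'
        rw [sub_apply, hv.der v, hf.der v]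
        exact this)
    obtain ⟨s1, hs1, -, h1⟩ := rg1_der hv.hr hv.reg (c := c / 2) (by positivity)
    obtain ⟨s2, hs2, -, h2⟩ := rg1_der hf.hr hf.reg (c := c / 2) (by positivity)
    refine ⟨min s1 s2, lt_min hs1 hs2, ?_⟩
    intro C ν ν' X hp hq _ v hv' h0
    have a1 := h1 _ (Metric.ball_subset_ball (min_le_left _ _) hp) v
    have a2 := h2 _ (Metric.ball_subset_ball (min_le_right _ _) hq) v
    have a3 := hlow v hv'
    rw [sub_apply] at a3
    simp only at a1 a2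
    have a4 : |fderiv ℝ (fun Y : Pl => gv (0, νv, Y)) Xs v -
        fderiv ℝ (fun Y : Pl => gf (0, νf, Y)) Xs v| ≤ c * ‖v‖ := by
      have e : fderiv ℝ (fun Y : Pl => gv (0, νv, Y)) Xs v -
          fderiv ℝ (fun Y : Pl => gf (0, νf, Y)) Xs v =
          -(fderiv ℝ (fun Y : Pl => gv (C, ν, Y)) X v - fderiv ℝ (fun Y : Pl => gv (0, νv, Y)) Xs v) +
          (fderiv ℝ (fun Y : Pl => gf (C, ν', Y)) X v -
            fderiv ℝ (fun Y : Pl => gf (0, νf, Y)) Xs v) := by linarith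
      rw [e]
      refine (abs_add_le _ _).trans ?_
      rw [abs_neg]
      linarith
    linarith
  · have hc : 0 < |χs - Real.pi / 2| / 4 := by
      have := abs_pos.2 (sub_ne_zero.2 hχ)
      positivity
    obtain ⟨s1, hs1, -, h1⟩ := rg1_val hv.hr hv.reg hc
    obtain ⟨s2, hs2, -, h2⟩ := rg1_val hf.hr hf.reg hc
    refine ⟨min s1 s2, lt_min hs1 hs2, ?_⟩
    intro C ν ν' X hp hq h0
    exfalso
    have a1 := h1 _ (Metric.ball_subset_ball (min_le_left _ _) hp)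
    have a2 := h2 _ (Metric.ball_subset_ball (min_le_right _ _) hq)
    rw [hv.val] at a1
    rw [hf.val] at a2
    have e : χs - Real.pi / 2 = -(gv (C, ν, X) - χs) + (gf (C, ν', X) - -(Real.pi / 2)) := by
      linarith
    have a3 : |χs - Real.pi / 2| ≤ |gv (C, ν, X) - χs| + |gf (C, ν', X) - -(Real.pi / 2)| := by
      conv_lhs => rw [e]
      refine (abs_add_le _ _).trans ?_
      rw [abs_neg]
    linarith

theorem rg1_ne (side : Bool) (i' : Fin 2) : (dcone side i').Nonempty := by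
  have h : slo i' ∈ Icc (slo i') (shi i') := by
    refine ⟨le_rfl, ?_⟩
    fin_cases i' <;> norm_num [slo, shi]
  cases side
  · exact ⟨(1, slo i'), slo i', h, rfl⟩
  · refine ⟨lin3 (1, slo i'), ?_⟩
    show ∃ m ∈ Icc (slo i') (shi i'), ‖lin3 (1, slo i') - lin3 (1, m)‖ ≤ 1 / 10000
    exact ⟨slo i', h, by simp⟩

theorem corn_local_pr (side : Bool) (ρe : ℝ) (Xs : Pl) (χs νv νf lams ϖs rv rf : ℝ) (υs : ℂ)
    (gv gf : ℝ × ℝ × Pl → ℝ) (hX : ‖Xs - vS side‖ < ρe)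
    (h0 : (if side then Real.pi / 2 else 0) ≤ χs) (h1 : χs ≤ (if side then Real.pi else Real.pi / 2))
    (hlam : lams ≤ ϖs) (hϖ : 0 < ϖs)
    (hz : cornW kh rh χs (-(Real.pi / 2)) lams ϖs υs = 0) (hνv : 0 < νv) (hνf : 0 < νf)
    (hf : DFam side 0 (fun _ => True) Xs (-(Real.pi / 2)) νf rf gf)
    (hv : DFam side 2 (sc side) Xs χs νv rv gv) (i' : Fin 2)
    (hcov : ∀ v ∈ dcone side i', covE Xs χs lams ϖs v ≠ 0)
    (hB : χs = Real.pi / 2 → ∀ v ∈ dcone side i',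
      dirD Xs χs v - dirD Xs (-(Real.pi / 2)) v ≠ 0) :
    ∃ ε : ℝ, 0 < ε ∧ ∀ C, 0 < C → C < ε → ∀ (lam : ℝ) (υ : ℂ), 0 ≤ lam → 0 ≤ υ.im → 0 ≤ υ.re →
      |lam - lams| < ε → ‖υ - υs‖ < ε → Corn C ρe side lam υ := by
  have hπ := Real.pi_gt_three
  have hrv := hv.hr
  have hrf := hf.hr
  have hχ0 : 0 ≤ χs := by cases side <;> simp at h0 <;> linarith
  have hχ1 : χs ≤ Real.pi := by cases side <;> simp at h1 <;> linarith
  obtain ⟨s1, hs1, -, hs1v⟩ := rg1_val hrv hv.reg (c := 1 / 200) (by norm_num)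
  obtain ⟨s2, hs2, -, hs2v⟩ := rg1_val hrf hf.reg (c := 1 / 200) (by norm_num)
  obtain ⟨s3, hs3, hs3v⟩ := rg1_mark hf hv i' hB
  obtain ⟨δt, hδt, htr⟩ := corn_trans Xs χs νv νf lams ϖs rv rf υs gv gf hrv hrf hv.reg hf.reg
    hv.val hf.val hv.der hf.der hχ0 hχ1 hϖ (dcone side i') (dcone_compact side i').1 hcov
  obtain ⟨m, hm⟩ := rg1_ne side i'
  rw [hv.val] at hs1v
  rw [hf.val] at hs2v
  -- one small radius
  obtain ⟨δ, hδ, d1, d2, d3, d4, d5, d6, d7, d8, d9⟩ : ∃ δ : ℝ, 0 < δ ∧ 2 * δ ≤ s1 ∧ 2 * δ ≤ s2 ∧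
      δ ≤ s3 ∧ δ ≤ δt ∧ δ ≤ rv / 2 ∧ δ ≤ rf / 2 ∧ δ ≤ ϖs / 8 ∧ δ ≤ ρe - ‖Xs - vS side‖ ∧
      δ ≤ 1 := by
    refine ⟨min (min (min (s1 / 2) (s2 / 2)) (min s3 δt)) (min (min (rv / 2) (rf / 2))
      (min (min (ϖs / 8) (ρe - ‖Xs - vS side‖)) 1)), ?_, ?_, ?_, ?_, ?_, ?_, ?_, ?_, ?_, ?_⟩
    · refine lt_min (lt_min (lt_min (by linarith) (by linarith)) (lt_min hs3 hδt))
        (lt_min (lt_min (by linarith) (by linarith))
          (lt_min (lt_min (by linarith) (by linarith)) one_pos))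
    · have h := ((min_le_left (min (min (s1 / 2) (s2 / 2)) (min s3 δt)) (min (min (rv / 2) (rf / 2))
        (min (min (ϖs / 8) (ρe - ‖Xs - vS side‖)) 1))).trans (min_le_left _ _)).trans
          (min_le_left _ _)
      linarith
    · have h := ((min_le_left (min (min (s1 / 2) (s2 / 2)) (min s3 δt)) (min (min (rv / 2) (rf / 2))
        (min (min (ϖs / 8) (ρe - ‖Xs - vS side‖)) 1))).trans (min_le_left _ _)).trans
          (min_le_right _ _)
      linarith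
    · exact ((min_le_left _ _).trans (min_le_right _ _)).trans (min_le_left _ _)
    · exact ((min_le_left _ _).trans (min_le_right _ _)).trans (min_le_right _ _)
    · exact ((min_le_right _ _).trans (min_le_left _ _)).trans (min_le_left _ _)
    · exact ((min_le_right _ _).trans (min_le_left _ _)).trans (min_le_right _ _)
    · exact (((min_le_right _ _).trans (min_le_right _ _)).trans (min_le_left _ _)).trans
        (min_le_left _ _)
    · exact (((min_le_right _ _).trans (min_le_right _ _)).trans (min_le_left _ _)).trans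
        (min_le_right _ _)
    · exact ((min_le_right _ _).trans (min_le_right _ _)).trans (min_le_right _ _)
  obtain ⟨ε1, hε1, hift⟩ := corn_ift Xs χs νv νf lams ϖs rv rf υs gv gf hrv hrf hv.reg hf.reg
    hv.val hf.val hv.der hf.der hχ0 hχ1 hϖ hz m (hcov m hm) δ hδ
  refine ⟨min ε1 δ, lt_min hε1 hδ, ?_⟩
  intro C hC hCε lam υ hlam0 hi hre hlame hυe
  have hCε1 : C < ε1 := lt_of_lt_of_le hCε (min_le_left _ _)
  have hCδ : C < δ := lt_of_lt_of_le hCε (min_le_right _ _)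
  have hC1 : 0 < C ∧ C ≤ 1 := ⟨hC, by linarith⟩
  have hCabs : |C| = C := abs_of_pos hC
  obtain ⟨Kv, hKv⟩ := rg1_nat hνv hC
  obtain ⟨Kf, hKf⟩ := rg1_nat hνf hC
  obtain ⟨X, ϖ, hX1, hϖ1, hG⟩ := hift C (Kv * C) (Kf * C) lam υ (by rw [hCabs]; exact hCε1)
    (lt_of_le_of_lt hKv hCε1) (lt_of_le_of_lt hKf hCε1)
    (lt_of_lt_of_le hlame (min_le_left _ _)) (lt_of_lt_of_le hυe (min_le_left _ _))
  have hlame' : |lam - lams| < δ := lt_of_lt_of_le hlame (min_le_right _ _)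
  have hυe' : ‖υ - υs‖ < δ := lt_of_lt_of_le hυe (min_le_right _ _)
  have hϖ2 := abs_lt.1 hϖ1
  have hlam2 := abs_lt.1 hlame'
  have hϖpos : 0 < ϖ := by linarith
  set χv : Pl → ℝ := fun Y => gv (C, Kv * C, Y) with hχv
  set χf : Pl → ℝ := fun Y => gf (C, Kf * C, Y) with hχf
  -- closeness of the directions on the ball of radius `δ`
  have hrange : ∀ Y ∈ Metric.closedBall X δ, |χv Y - χs| < 1 / 200 ∧
      |χf Y + Real.pi / 2| < 1 / 200 := by
    intro Y hY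
    rw [Metric.mem_closedBall, dist_eq_norm] at hY
    have hY2 : ‖Y - Xs‖ < 2 * δ := by
      have : Y - Xs = (Y - X) + (X - Xs) := by abel
      rw [this]
      have := norm_add_le (Y - X) (X - Xs)
      linarith
    have a1 := hs1v (C, Kv * C, Y) (rg1_mem (by rw [hCabs]; linarith) (by linarith) (by linarith))
    have a2 := hs2v (C, Kf * C, Y) (rg1_mem (by rw [hCabs]; linarith) (by linarith) (by linarith))
    refine ⟨a1, ?_⟩
    have e : χf Y + Real.pi / 2 = gf (C, Kf * C, Y) - -(Real.pi / 2) := by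
      rw [hχf]; ring
    rw [e]
    exact a2
  have hXself : X ∈ Metric.closedBall X δ := Metric.mem_closedBall_self hδ.le
  have hpv : ((C, Kv * C, X) : ℝ × ℝ × Pl) ∈ Metric.ball ((0, νv, Xs) : ℝ × ℝ × Pl) δ :=
    rg1_mem (by rw [hCabs]; exact hCδ) (by linarith) hX1
  have hpf : ((C, Kf * C, X) : ℝ × ℝ × Pl) ∈ Metric.ball ((0, νf, Xs) : ℝ × ℝ × Pl) δ :=
    rg1_mem (by rw [hCabs]; exact hCδ) (by linarith) hX1
  have hcv : ContDiffAt ℝ 2 χv X := rg1_fib hv.reg (Metric.ball_subset_ball (by linarith) hpv)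
  have hcf : ContDiffAt ℝ 2 χf X := rg1_fib hf.reg (Metric.ball_subset_ball (by linarith) hpf)
  have hXv : X ∈ Metric.ball Xs rv := by
    rw [Metric.mem_ball, dist_eq_norm]; linarith
  have hXf : X ∈ Metric.ball Xs rf := by
    rw [Metric.mem_ball, dist_eq_norm]; linarith
  -- the arcs
  have harcf : AtArc side 0 C X χf := hf.arc C Kf hC (by linarith) (by linarith) X hXf trivial
  have hXC : X ∈ CD C := by
    obtain ⟨i, h1', he', τ0, n, τm, hh1', -, -, -, -, hR, -⟩ := harcf 1 one_pos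
    exact (hR.cd X (Metric.mem_closedBall_self hh1'.le)).1
  have hfacts := cd_facts hC1 hXC
  have hzero : cornW (zk C X) (zr C X) (χv X) (χf X) lam ϖ υ = 0 := hG
  have hXr := hrange X hXself
  have hXr1 := abs_lt.1 hXr.1
  have hsc : sc side (χv X) := by
    refine corn_sc side (lt_of_lt_of_le one_pos hfacts.2.1) hfacts.1 hϖpos hi hre
      (by linarith [hXr.2]) ?_ ?_ hzero
    · linarith
    · linarith
  have harcv : AtArc side 2 C X χv := hv.arc C Kv hC (by linarith) (by linarith) X hXv hsc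
  -- the mark
  obtain ⟨h2, hh2, hmark⟩ : ∃ h2 : ℝ, 0 < h2 ∧
      ((∀ Y ∈ Metric.closedBall X h2, χv Y - χf Y ≠ Real.pi) ∨
        (χv X - χf X = Real.pi ∧ ∀ v ∈ dcone side i', fderiv ℝ χv X v - fderiv ℝ χf X v ≠ 0)) := by
    by_cases h : χv X - χf X = Real.pi
    · refine ⟨1, one_pos, Or.inr ⟨h, ?_⟩⟩
      exact hs3v C (Kv * C) (Kf * C) X (Metric.ball_subset_ball d3 hpv)
        (Metric.ball_subset_ball d3 hpf) h
    · have hcont : ContinuousAt (fun Y => χv Y - χf Y) X := hcv.continuousAt.sub hcf.continuousAt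
      have hev := hcont.eventually_ne h
      obtain ⟨h2, hh2, hball⟩ := Metric.eventually_nhds_iff_ball.1 hev
      refine ⟨h2 / 2, by positivity, Or.inl fun Y hY => hball Y ?_⟩
      rw [Metric.mem_closedBall] at hY
      rw [Metric.mem_ball]
      linarith
  have hδ' : 0 < min h2 δ := lt_min hh2 hδ
  obtain ⟨if_, h1f, hef, τf, nf, τmf, hh1f, hh1f', -, -, hnf, hRf, hSf, -⟩ :=
    harcf (min h2 δ) hδ'
  obtain ⟨iv, h1v, hev, τv, nv, τmv, hh1v, hh1v', hhev, hhev', hnv, hRv, hSv, hTv⟩ :=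
    harcv (min h2 δ) hδ'
  have hnf0 : nf = 0 := Nat.le_zero.1 hnf
  subst hnf0
  have hm1 : min h1f h1v ≤ h1f := min_le_left _ _
  have hm2 : min h1f h1v ≤ h1v := min_le_right _ _
  have hm0 : 0 < min h1f h1v := lt_min hh1f hh1v
  have hhδ : min h1f h1v ≤ δ := hm1.trans (hh1f'.trans (min_le_right _ _))
  have hhh2 : min h1f h1v ≤ h2 := hm1.trans (hh1f'.trans (min_le_left _ _))
  have hhevδ : hev ≤ δ := hhev'.trans (min_le_right _ _)
  refine ⟨X, min h1f h1v, χf, χv, τf, τv, if_, iv, ϖ, hev, nv, τmv, i', ?_, hm0, hhev, hnv,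
    hcf, hcv, rarc_mono hRf (isCompact_closedBall _ _) (Metric.closedBall_subset_closedBall hm1),
    ?_, rarc_mono hRv (isCompact_closedBall _ _) (Metric.closedBall_subset_closedBall hm2),
    hSv _ hm0 hm2, ?_, by linarith, by linarith, ?_, ?_, fun j => hTv j i'⟩
  · rw [Metric.mem_closedBall, dist_eq_norm]
    have : X - vS side = (X - Xs) + (Xs - vS side) := by abel
    rw [this]
    have := norm_add_le (X - Xs) (Xs - vS side)
    linarith
  · intro Y hY τ hτ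
    exact (hSf _ hm0 hm1).2 Y hY τ hτ (fun j => j.elim0)
  · intro Y hY
    have h := hrange Y (Metric.closedBall_subset_closedBall hhδ hY)
    have h' := abs_lt.1 h.1
    exact ⟨by linarith [h.2], by linarith, by linarith⟩
  · exact htr C (Kv * C) (Kf * C) lam υ X ϖ (by rw [hCabs]; linarith) (by linarith) (by linarith)
      (by linarith) (by linarith) (by linarith) (by linarith) hG
  · rcases hmark with h | h
    · exact Or.inl fun Y hY => h Y (Metric.closedBall_subset_closedBall hhh2 hY)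
    · exact Or.inr h

end

end Pool.Agent.HS

namespace Pool.Agent.HS
open Set Filter Topology
open scoped ContDiff

theorem corn_local (side : Bool) (ρe : ℝ) (Xs : Pl) (χs νv νf lams ϖs rv rf : ℝ) (υs : ℂ)
    (gv gf : ℝ × ℝ × Pl → ℝ) (hX : ‖Xs - vS side‖ < ρe)
    (h0 : (if side then Real.pi / 2 else 0) ≤ χs) (h1 : χs ≤ (if side then Real.pi else Real.pi / 2))
    (hlam : lams ≤ ϖs) (hϖ : 0 < ϖs)
    (hz : cornW kh rh χs (-(Real.pi / 2)) lams ϖs υs = 0) (hνv : 0 < νv) (hνf : 0 < νf)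
    (hf : DFam side 0 (fun _ => True) Xs (-(Real.pi / 2)) νf rf gf)
    (hv : DFam side 2 (sc side) Xs χs νv rv gv) (i' : Fin 2)
    (hcov : ∀ v ∈ dcone side i', covE Xs χs lams ϖs v ≠ 0)
    (hB : χs = Real.pi / 2 → ∀ v ∈ dcone side i',
      dirD Xs χs v - dirD Xs (-(Real.pi / 2)) v ≠ 0) :
    ∃ ε : ℝ, 0 < ε ∧ ∀ C, 0 < C → C < ε → ∀ (lam : ℝ) (υ : ℂ), 0 ≤ lam → 0 ≤ υ.im → 0 ≤ υ.re →
      |lam - lams| < ε → ‖υ - υs‖ < ε → Corn C ρe side lam υ :=
  @Pool.Agent.HS.corn_local_pr side ρe Xs χs νv νf lams ϖs rv rf υs gv gf hX h0 h1 hlam hϖ hz hνv hνf hf hv i' hcov hB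

end Pool.Agent.HS
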