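import Pool.Agent.Lib_helper60.HSF.D_WR
import Pool.Agent.Lib_helper60.HSF.Z_RD
import Pool.Agent.Lib_helper60.HSF.Z_RE2
import Pool.Agent.Lib_helper60.HSF.Z_RC
import Pool.Agent.Lib_helper60.HSF.Z_RE1
import Pool.Agent.Lib_helper60.HSF.Z_RB
import Pool.Agent.Lib_helper60.HSF.Z_RG1

/-!
# Project HS, block RG2: the supply for all parameters
-/

namespace Pool.Agent.HS

noncomputable section

open Set Filter Topology
open scoped ContDiff

theorem rg2_weak {side : Bool} {Xs : Pl} {χs νs r : ℝ} {g : ℝ × ℝ × Pl → ℝ}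
    (h : DFam side 0 (fun _ => True) Xs χs νs r g) : DFam side 2 (sc side) Xs χs νs r g where
  hr := h.hr
  reg := h.reg
  val := h.val
  der := h.der
  arc := by
    intro C K h1 h2 h3 X hX _
    have h4 := h.arc C K h1 h2 h3 X hX trivial
    intro δ hδ
    obtain ⟨i, h1', he, τ0, n, τm, a1, a2, a3, a4, a5, a6⟩ := h4 δ hδ
    exact ⟨i, h1', he, τ0, n, τm, a1, a2, a3, a4, a5.trans (by norm_num), a6⟩

theorem corn_point_pr (side : Bool) (ρe : ℝ) (hρ : 0 < ρe) (lams : ℝ) (υs : ℂ) (hlam : 0 ≤ lams)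
    (hp : max lams ‖υs‖ = 1) (hi : 0 ≤ υs.im) (hre : 0 ≤ υs.re)
    (hs : if side then υs.re ≤ υs.im else υs.im ≤ υs.re) :
    ∃ ε : ℝ, 0 < ε ∧ ∀ C, 0 < C → C < ε → ∀ (lam : ℝ) (υ : ℂ), 0 ≤ lam → 0 ≤ υ.im → 0 ≤ υ.re →
      |lam - lams| < ε → ‖υ - υs‖ < ε → Corn C ρe side lam υ := by
  obtain ⟨χs, ϖs, h0, h1, hlϖ, hϖ, hz⟩ := model_sol side lams υs hlam hp hi hre hs
  obtain ⟨c0, hc0, hfamB⟩ := famB side
  set δ := min (ρe / 2) (min c0 (1 / 100)) with hδdef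
  have hδ0 : 0 < δ := lt_min (by linarith) (lt_min hc0 (by norm_num))
  have hδ1 : δ ≤ ρe / 2 := min_le_left _ _
  have hδ2 : δ ≤ c0 := (min_le_right _ _).trans (min_le_left _ _)
  have hδ3 : δ ≤ 1 / 100 := (min_le_right _ _).trans (min_le_right _ _)
  obtain ⟨X, hX, he, hcase⟩ := choose_X side χs (δ / 10) δ (by positivity) (by linarith) hδ3 h0 h1
  have hX1 : ‖X - vS side‖ ≤ 1 / 100 := hX.trans hδ3
  obtain ⟨f1, f2, f3⟩ := choose_fix side X hX1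
  have hsin : Real.sin (-(Real.pi / 2)) ≠ 0 := by
    rw [Real.sin_neg, Real.sin_pi_div_two]
    norm_num
  obtain ⟨νf, rf, gf, hνf, hf⟩ := famK side X (-(Real.pi / 2)) hsin f1 f2 f3
  have hpi := Real.pi_pos
  have hχ0 : 0 ≤ χs := by
    cases side
    · simpa using h0
    · have : Real.pi / 2 ≤ χs := by simpa using h0
      linarith
  have hχ1 : χs ≤ Real.pi := by
    cases side
    · have : χs ≤ Real.pi / 2 := by simpa using h1
      linarith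
    · simpa using h1
  obtain ⟨i', hcov, hB⟩ := cov_choice side X χs lams ϖs hX1 hχ0 hχ1 hlam hϖ he
  have hXρ : ‖X - vS side‖ < ρe := by linarith
  obtain ⟨νv, rv, gv, hνv, hv⟩ : ∃ (νv rv : ℝ) (gv : ℝ × ℝ × Pl → ℝ), 0 < νv ∧
      DFam side 2 (sc side) X χs νv rv gv := by
    rcases hcase with ⟨c1, c2⟩ | ⟨c1, c2, c3⟩
    · have hrange : if side then Real.pi - c0 ≤ χs ∧ χs ≤ Real.pi else 0 ≤ χs ∧ χs ≤ c0 := by
        cases side
        · simp only [Bool.false_eq_true, if_false] at c2 ⊢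
          exact ⟨hχ0, by linarith⟩
        · simp only [if_true] at c2 ⊢
          exact ⟨by linarith, hχ1⟩
      obtain ⟨r, g, hg⟩ := hfamB X χs (hX.trans hδ2) hrange c1 he
      exact ⟨1, r, g, one_pos, hg⟩
    · obtain ⟨νv, rv, gv, hνv, hv⟩ := famK side X χs c1 he c2 c3
      exact ⟨νv, rv, gv, hνv, rg2_weak hv⟩
  exact corn_local side ρe X χs νv νf lams ϖs rv rf υs gv gf hXρ h0 h1 hlϖ hϖ hz hνv hνf hf hv i'
    hcov hB

/-- the parameter set of one side -/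
def rg2_K (side : Bool) : Set (ℝ × ℂ) :=
  {p | 0 ≤ p.1 ∧ max p.1 ‖p.2‖ = 1 ∧ 0 ≤ p.2.im ∧ 0 ≤ p.2.re ∧
    (if side then p.2.re ≤ p.2.im else p.2.im ≤ p.2.re)}

theorem rg2_compact (side : Bool) : IsCompact (rg2_K side) := by
  have h1 : IsClosed {p : ℝ × ℂ | 0 ≤ p.1} := isClosed_le continuous_const continuous_fst
  have h2 : IsClosed {p : ℝ × ℂ | max p.1 ‖p.2‖ = 1} :=
    isClosed_eq (continuous_fst.max continuous_snd.norm) continuous_const
  have h3 : IsClosed {p : ℝ × ℂ | 0 ≤ p.2.im} :=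
    isClosed_le continuous_const (Complex.continuous_im.comp continuous_snd)
  have h4 : IsClosed {p : ℝ × ℂ | 0 ≤ p.2.re} :=
    isClosed_le continuous_const (Complex.continuous_re.comp continuous_snd)
  have h5 : IsClosed {p : ℝ × ℂ | if side then p.2.re ≤ p.2.im else p.2.im ≤ p.2.re} := by
    cases side
    · simp only [Bool.false_eq_true, if_false]
      exact isClosed_le (Complex.continuous_im.comp continuous_snd)
        (Complex.continuous_re.comp continuous_snd)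
    · simp only [if_true]
      exact isClosed_le (Complex.continuous_re.comp continuous_snd)
        (Complex.continuous_im.comp continuous_snd)
  have hcl : IsClosed (rg2_K side) := by
    have : rg2_K side = {p : ℝ × ℂ | 0 ≤ p.1} ∩ ({p | max p.1 ‖p.2‖ = 1} ∩ ({p | 0 ≤ p.2.im} ∩
        ({p | 0 ≤ p.2.re} ∩ {p | if side then p.2.re ≤ p.2.im else p.2.im ≤ p.2.re}))) := rfl
    rw [this]
    exact h1.inter (h2.inter (h3.inter (h4.inter h5)))
  refine Metric.isCompact_of_isClosed_isBounded hcl ?_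
  refine (Metric.isBounded_closedBall (x := (0 : ℝ × ℂ)) (r := 1)).subset ?_
  rintro ⟨l, u⟩ ⟨hl, hm, -⟩
  simp only at hl hm
  rw [mem_closedBall_zero_iff, Prod.norm_def]
  simp only
  rw [Real.norm_of_nonneg hl, hm]

theorem rg2_side (ρe : ℝ) (hρ : 0 < ρe) (side : Bool) : ∃ C0 : ℝ, 0 < C0 ∧ ∀ C, 0 < C → C < C0 →
    ∀ p ∈ rg2_K side, 0 ≤ p.1 → 0 ≤ p.2.im → 0 ≤ p.2.re → Corn C ρe side p.1 p.2 := by
  refine (rg2_compact side).induction_on (p := fun S => ∃ C0 : ℝ, 0 < C0 ∧ ∀ C, 0 < C → C < C0 →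
    ∀ p ∈ S, 0 ≤ p.1 → 0 ≤ p.2.im → 0 ≤ p.2.re → Corn C ρe side p.1 p.2) ?_ ?_ ?_ ?_
  · exact ⟨1, one_pos, fun C _ _ p hp => absurd hp (Set.notMem_empty p)⟩
  · rintro s t hst ⟨C0, h1, h2⟩
    exact ⟨C0, h1, fun C a b p hp => h2 C a b p (hst hp)⟩
  · rintro s t ⟨C0, h1, h2⟩ ⟨C1, h3, h4⟩
    refine ⟨min C0 C1, lt_min h1 h3, fun C a b p hp => ?_⟩
    rcases hp with hp | hp
    · exact h2 C a (b.trans_le (min_le_left _ _)) p hp
    · exact h4 C a (b.trans_le (min_le_right _ _)) p hp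
  · rintro ⟨lams, υs⟩ ⟨k1, k2, k3, k4, k5⟩
    simp only at k1 k2 k3 k4 k5
    obtain ⟨ε, hε, h⟩ := corn_point_pr side ρe hρ lams υs k1 k2 k3 k4 k5
    refine ⟨{p | |p.1 - lams| < ε ∧ ‖p.2 - υs‖ < ε}, mem_nhdsWithin_of_mem_nhds ?_, ε, hε, ?_⟩
    · have o1 : IsOpen {p : ℝ × ℂ | |p.1 - lams| < ε ∧ ‖p.2 - υs‖ < ε} := by
        apply IsOpen.inter
        · exact isOpen_lt ((continuous_fst.sub continuous_const).abs) continuous_const
        · exact isOpen_lt ((continuous_snd.sub continuous_const).norm) continuous_const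
      exact o1.mem_nhds ⟨by simpa using hε, by simpa using hε⟩
    · rintro C a b ⟨l, u⟩ ⟨p1, p2⟩ q1 q2 q3
      exact h C a b l u q1 q2 q3 p1 p2

/-- compactness -/
theorem corn_all_pr (ρe : ℝ) (hρ : 0 < ρe) : ∃ C0 : ℝ, 0 < C0 ∧ ∀ C, 0 < C → C < C0 →
    ∀ (side : Bool) (lam : ℝ) (υ : ℂ), 0 ≤ lam → max lam ‖υ‖ = 1 → 0 ≤ υ.im → 0 ≤ υ.re →
      (if side then υ.re ≤ υ.im else υ.im ≤ υ.re) → Corn C ρe side lam υ := by
  obtain ⟨C0, h1, h2⟩ := rg2_side ρe hρ false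
  obtain ⟨C1, h3, h4⟩ := rg2_side ρe hρ true
  refine ⟨min C0 C1, lt_min h1 h3, fun C a b side lam υ k1 k2 k3 k4 k5 => ?_⟩
  cases side
  · exact h2 C a (b.trans_le (min_le_left _ _)) (lam, υ) ⟨k1, k2, k3, k4, k5⟩ k1 k3 k4
  · exact h4 C a (b.trans_le (min_le_right _ _)) (lam, υ) ⟨k1, k2, k3, k4, k5⟩ k1 k3 k4

end

end Pool.Agent.HS

namespace Pool.Agent.HS
open Set Filter Topology
open scoped ContDiff

theorem corn_point (side : Bool) (ρe : ℝ) (hρ : 0 < ρe) (lams : ℝ) (υs : ℂ) (hlam : 0 ≤ lams)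
    (hp : max lams ‖υs‖ = 1) (hi : 0 ≤ υs.im) (hre : 0 ≤ υs.re)
    (hs : if side then υs.re ≤ υs.im else υs.im ≤ υs.re) :
    ∃ ε : ℝ, 0 < ε ∧ ∀ C, 0 < C → C < ε → ∀ (lam : ℝ) (υ : ℂ), 0 ≤ lam → 0 ≤ υ.im → 0 ≤ υ.re →
      |lam - lams| < ε → ‖υ - υs‖ < ε → Corn C ρe side lam υ :=
  @Pool.Agent.HS.corn_point_pr side ρe hρ lams υs hlam hp hi hre hs

end Pool.Agent.HS

namespace Pool.Agent.HS
open Set Filter Topology
open scoped ContDiff

theorem corn_all (ρe : ℝ) (hρ : 0 < ρe) : ∃ C0 : ℝ, 0 < C0 ∧ ∀ C, 0 < C → C < C0 →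
    ∀ (side : Bool) (lam : ℝ) (υ : ℂ), 0 ≤ lam → max lam ‖υ‖ = 1 → 0 ≤ υ.im → 0 ≤ υ.re →
      (if side then υ.re ≤ υ.im else υ.im ≤ υ.re) → Corn C ρe side lam υ :=
  @Pool.Agent.HS.corn_all_pr ρe hρ

end Pool.Agent.HS
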