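import Pool.Agent.Lib_helper60.HSF.D_WR

namespace Pool.Agent.HS

noncomputable section

open Set Filter Topology
open scoped ContDiff

/-- Taylor estimate of order two at a point -/
theorem rh1_taylor {F : Pl → Pl} {Xe : Pl} (hF : ContDiffAt ℝ 2 F Xe) :
    ∃ M h : ℝ, 0 ≤ M ∧ 0 < h ∧ ∀ Y ∈ Metric.closedBall Xe h,
      ‖F Y - F Xe - fderiv ℝ F Xe (Y - Xe)‖ ≤ M * ‖Y - Xe‖ ^ 2 := by
  have h1 : ContDiffAt ℝ 1 (fderiv ℝ F) Xe := hF.fderiv_right (by norm_num)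
  obtain ⟨K, t, ht, hK⟩ := h1.exists_lipschitzOnWith
  have h2 : ∀ᶠ y in 𝓝 Xe, ContDiffAt ℝ 2 F y := hF.eventually (by decide)
  obtain ⟨h, hh, hb⟩ := Metric.nhds_basis_closedBall.mem_iff.mp (Filter.inter_mem ht h2)
  refine ⟨K, h, K.2, hh, fun Y hY => ?_⟩
  have hXt : Xe ∈ t := (hb (Metric.mem_closedBall_self hh.le)).1
  have hsub : Metric.closedBall Xe ‖Y - Xe‖ ⊆ Metric.closedBall Xe h := by
    apply Metric.closedBall_subset_closedBall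
    rwa [mem_closedBall_iff_norm] at hY
  have hd : ∀ Z ∈ Metric.closedBall Xe ‖Y - Xe‖,
      HasFDerivWithinAt (fun Z => F Z - fderiv ℝ F Xe Z) (fderiv ℝ F Z - fderiv ℝ F Xe)
        (Metric.closedBall Xe ‖Y - Xe‖) Z := by
    intro Z hZ
    have hc : ContDiffAt ℝ 2 F Z := (hb (hsub hZ)).2
    exact ((hc.differentiableAt (by norm_num)).hasFDerivAt.sub
      (fderiv ℝ F Xe).hasFDerivAt).hasFDerivWithinAt
  have hn : ∀ Z ∈ Metric.closedBall Xe ‖Y - Xe‖, ‖fderiv ℝ F Z - fderiv ℝ F Xe‖ ≤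
      K * ‖Y - Xe‖ := by
    intro Z hZ
    have h3 := hK.norm_sub_le (hb (hsub hZ)).1 hXt
    refine h3.trans (mul_le_mul_of_nonneg_left ?_ K.2)
    rwa [mem_closedBall_iff_norm] at hZ
  have h4 := (convex_closedBall Xe ‖Y - Xe‖).norm_image_sub_le_of_norm_hasFDerivWithin_le hd hn
    (Metric.mem_closedBall_self (norm_nonneg _)) (mem_closedBall_iff_norm.mpr le_rfl)
  have e : F Y - F Xe - fderiv ℝ F Xe (Y - Xe) =
      (F Y - fderiv ℝ F Xe Y) - (F Xe - fderiv ℝ F Xe Xe) := by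
    rw [map_sub]; abel
  rw [e]
  refine h4.trans (le_of_eq ?_)
  ring

theorem rh1_lin (A : Pl →L[ℝ] Pl) (v : Pl) :
    A v = (v.1 * (A (1, 0)).1 + v.2 * (A (0, 1)).1, v.1 * (A (1, 0)).2 + v.2 * (A (0, 1)).2) := by
  have e : v = v.1 • ((1, 0) : Pl) + v.2 • ((0, 1) : Pl) := by
    ext <;> simp
  conv_lhs => rw [e]
  rw [map_add, map_smul, map_smul]
  ext <;> simp

/-- composition of a transversal zero with a map -/
theorem tzeroV_comp_pr {V V' : Set Pl} {g0 : Pl × ℝ → ℂ} {X Xe : Pl} {τe : ℝ} {F : Pl → Pl}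
    (h : TZeroV V' g0 X τe) (hF : ContDiffAt ℝ 2 F Xe) (hX : F Xe = X)
    (hV : ∀ v ∈ V, fderiv ℝ F Xe v ∈ V') :
    TZeroV V (fun q => g0 (F q.1, q.2)) Xe τe := by
  obtain ⟨h0, ex, ez, eτ, Q, h, hh, hQ, hv⟩ := h
  obtain ⟨M, h1, hM, hh1, ht⟩ := rh1_taylor hF
  set A := fderiv ℝ F Xe with hA
  set a : Pl := A (1, 0) with ha
  set b : Pl := A (0, 1) with hb
  -- linear bound of F
  set K : ℝ := ‖A‖ + M * h1 with hK
  have hK0 : 0 ≤ K := by positivity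
  have hFl : ∀ Y ∈ Metric.closedBall Xe h1, ‖F Y - F Xe‖ ≤ K * ‖Y - Xe‖ := by
    intro Y hY
    have k1 := ht Y hY
    have k2 := A.le_opNorm (Y - Xe)
    have k3 : ‖F Y - F Xe‖ ≤ ‖F Y - F Xe - A (Y - Xe)‖ + ‖A (Y - Xe)‖ := by
      have := norm_add_le (F Y - F Xe - A (Y - Xe)) (A (Y - Xe))
      simpa using this
    rw [mem_closedBall_iff_norm] at hY
    have k4 : M * ‖Y - Xe‖ ^ 2 ≤ M * h1 * ‖Y - Xe‖ := by
      rw [pow_two, ← mul_assoc]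
      exact mul_le_mul_of_nonneg_right (mul_le_mul_of_nonneg_left hY hM) (norm_nonneg _)
    rw [hK, add_mul]
    linarith
  set r : ℝ := min h1 (min h (h / (K + 1))) with hr
  have hr0 : 0 < r := by positivity
  refine ⟨by simpa [hX] using h0, (a.1 : ℂ) * ex + (a.2 : ℂ) * ez, (b.1 : ℂ) * ex + (b.2 : ℂ) * ez,
    eτ, |Q| * (K + 1) ^ 2 + M * (‖ex‖ + ‖ez‖), r, hr0, ?_, ?_⟩
  · intro Y hY t htt
    have hY1 : Y ∈ Metric.closedBall Xe h1 :=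
      Metric.closedBall_subset_closedBall (min_le_left _ _) hY
    have hYn : ‖Y - Xe‖ ≤ h / (K + 1) := by
      rw [mem_closedBall_iff_norm] at hY
      exact hY.trans ((min_le_right _ _).trans (min_le_right _ _))
    have hFY : F Y ∈ Metric.closedBall X h := by
      rw [mem_closedBall_iff_norm, ← hX]
      refine (hFl Y hY1).trans ?_
      have h5 : K * ‖Y - Xe‖ ≤ (K + 1) * (h / (K + 1)) :=
        mul_le_mul (by linarith) hYn (norm_nonneg _) (by linarith)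
      have h6 : (K + 1) * (h / (K + 1)) = h := by field_simp
      linarith
    have hrh : r ≤ h := (min_le_right _ _).trans (min_le_left _ _)
    have ht' : t ∈ Icc (τe - h) (τe + h) := ⟨by linarith [htt.1], by linarith [htt.2]⟩
    have e1 := hQ (F Y) hFY t ht'
    have e2 := ht Y hY1
    have hw := rh1_lin A (Y - Xe)
    rw [← ha, ← hb] at hw
    -- the error of the linear part
    set D : Pl := F Y - F Xe - A (Y - Xe) with hD
    have hD1 : |D.1| ≤ M * ‖Y - Xe‖ ^ 2 := (norm_fst_le D).trans e2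
    have hD2 : |D.2| ≤ M * ‖Y - Xe‖ ^ 2 := (norm_snd_le D).trans e2
    have c1 : (F Y).1 - X.1 = D.1 + ((Y.1 - Xe.1) * a.1 + (Y.2 - Xe.2) * b.1) := by
      have : D.1 = (F Y).1 - (F Xe).1 - (A (Y - Xe)).1 := rfl
      rw [this, hw, hX]
      simp only [Prod.fst_sub, Prod.snd_sub]
      ring
    have c2 : (F Y).2 - X.2 = D.2 + ((Y.1 - Xe.1) * a.2 + (Y.2 - Xe.2) * b.2) := by
      have : D.2 = (F Y).2 - (F Xe).2 - (A (Y - Xe)).2 := rfl
      rw [this, hw, hX]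
      simp only [Prod.fst_sub, Prod.snd_sub]
      ring
    have e3 : g0 (F Y, t) - g0 (F Xe, τe) - ((Y.1 - Xe.1 : ℝ) * ((a.1 : ℂ) * ex + (a.2 : ℂ) * ez) +
        (Y.2 - Xe.2 : ℝ) * ((b.1 : ℂ) * ex + (b.2 : ℂ) * ez) + (t - τe : ℝ) * eτ) =
        (g0 (F Y, t) - g0 (X, τe) - (((F Y).1 - X.1 : ℝ) * ex + ((F Y).2 - X.2 : ℝ) * ez +
          (t - τe : ℝ) * eτ)) + ((D.1 : ℂ) * ex + (D.2 : ℂ) * ez) := by
      rw [hX, c1, c2]
      push_cast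
      ring
    have e4 : ‖(D.1 : ℂ) * ex + (D.2 : ℂ) * ez‖ ≤ M * (‖ex‖ + ‖ez‖) * ‖Y - Xe‖ ^ 2 := by
      refine (norm_add_le _ _).trans ?_
      rw [norm_mul, norm_mul, Complex.norm_real, Complex.norm_real, Real.norm_eq_abs,
        Real.norm_eq_abs]
      nlinarith [norm_nonneg ex, norm_nonneg ez]
    have e5 : ‖F Y - X‖ + |t - τe| ≤ (K + 1) * (‖Y - Xe‖ + |t - τe|) := by
      have := hFl Y hY1
      rw [hX] at this
      have h7 := norm_nonneg (Y - Xe)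
      have h8 := abs_nonneg (t - τe)
      nlinarith
    have e6 : Q * (‖F Y - X‖ + |t - τe|) ^ 2 ≤ |Q| * (K + 1) ^ 2 * (‖Y - Xe‖ + |t - τe|) ^ 2 := by
      have h9 : (‖F Y - X‖ + |t - τe|) ^ 2 ≤ ((K + 1) * (‖Y - Xe‖ + |t - τe|)) ^ 2 :=
        pow_le_pow_left₀ (by positivity) e5 2
      calc Q * (‖F Y - X‖ + |t - τe|) ^ 2 ≤ |Q| * (‖F Y - X‖ + |t - τe|) ^ 2 :=
            mul_le_mul_of_nonneg_right (le_abs_self Q) (by positivity)
        _ ≤ |Q| * ((K + 1) * (‖Y - Xe‖ + |t - τe|)) ^ 2 :=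
            mul_le_mul_of_nonneg_left h9 (abs_nonneg Q)
        _ = _ := by ring
    have e7 : M * (‖ex‖ + ‖ez‖) * ‖Y - Xe‖ ^ 2 ≤
        M * (‖ex‖ + ‖ez‖) * (‖Y - Xe‖ + |t - τe|) ^ 2 := by
      apply mul_le_mul_of_nonneg_left _ (by positivity)
      apply pow_le_pow_left₀ (norm_nonneg _)
      linarith [abs_nonneg (t - τe)]
    show ‖g0 (F Y, t) - g0 (F Xe, τe) - _‖ ≤ _
    rw [e3]
    refine (norm_add_le _ _).trans ?_
    rw [add_mul]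
    exact add_le_add (e1.trans e6) (e4.trans e7)
  · intro v hvV
    have h10 := hv _ (hV v hvV)
    have hw := rh1_lin A v
    rw [← ha, ← hb] at hw
    rw [hw] at h10
    have e8 : (v.1 : ℂ) * ((a.1 : ℂ) * ex + (a.2 : ℂ) * ez) +
        (v.2 : ℂ) * ((b.1 : ℂ) * ex + (b.2 : ℂ) * ez) =
        ((v.1 * a.1 + v.2 * b.1 : ℝ) : ℂ) * ex + ((v.1 * a.2 + v.2 * b.2 : ℝ) : ℂ) * ez := by
      push_cast
      ring
    rw [e8]
    exact h10

/-- `lin3` as a continuous linear map -/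
def rh1_L : Pl →L[ℝ] Pl :=
  ((-(47 / 2 : ℝ)) • ContinuousLinearMap.fst ℝ ℝ ℝ - (315 / 2 : ℝ) •
    ContinuousLinearMap.snd ℝ ℝ ℝ).prod
  ((181 / 2 : ℝ) • ContinuousLinearMap.fst ℝ ℝ ℝ + (1213 / 2 : ℝ) •
    ContinuousLinearMap.snd ℝ ℝ ℝ)

theorem rh1_L_apply (v : Pl) : rh1_L v = lin3 v := by
  ext <;> simp [rh1_L, lin3]

/-- inverse of `lin3` -/
def rh1_I (v : Pl) : Pl := (1213 / 2 * v.1 + 315 / 2 * v.2, -(181 / 2) * v.1 - 47 / 2 * v.2)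

theorem rh1_I_norm (v : Pl) : ‖rh1_I v‖ ≤ 764 * ‖v‖ := by
  have h1 : |v.1| ≤ ‖v‖ := norm_fst_le v
  have h2 : |v.2| ≤ ‖v‖ := norm_snd_le v
  obtain ⟨a1, a2⟩ := abs_le.mp h1
  obtain ⟨b1, b2⟩ := abs_le.mp h2
  unfold rh1_I
  rw [Prod.norm_mk, Real.norm_eq_abs, Real.norm_eq_abs]
  refine max_le (abs_le.mpr ⟨by linarith, by linarith⟩) (abs_le.mpr ⟨?_, ?_⟩)
  · have := norm_nonneg v
    linarith
  · have := norm_nonneg v
    linarith

theorem rh1_I_sub (v w : Pl) : rh1_I (v - w) = rh1_I v - rh1_I w := by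
  ext <;> simp [rh1_I] <;> ring

theorem rh1_I_lin (v : Pl) : rh1_I (lin3 v) = v := by
  ext <;> simp [rh1_I, lin3] <;> ring

theorem rh1_lin_I (v : Pl) : lin3 (rh1_I v) = v := by
  ext <;> simp [rh1_I, lin3] <;> ring

theorem reach3_pr {F : Pl → Pl} {ρ0 ρe d : ℝ} (hρ : 0 < ρe) (hρ0 : ρe < ρ0)
    (hF : ContDiffOn ℝ 2 F (Metric.ball 0 ρ0))
    (hl : ∀ X ∈ Metric.closedBall (0 : Pl) ρ0, ∀ Y ∈ Metric.closedBall (0 : Pl) ρ0,
      ‖F X - F Y - lin3 (X - Y)‖ ≤ 1 / 100000 * ‖X - Y‖) (h0 : ‖F 0 - Xcp‖ ≤ d)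
    (hd : d ≤ ρe / 4000) (X : Pl) (hX : ‖X - Xcp‖ ≤ ρe / 4000) :
    ∃ Xe ∈ Metric.closedBall (0 : Pl) ρe, F Xe = X ∧ ContDiffAt ℝ 2 F Xe ∧
      ∀ v : Pl, ‖fderiv ℝ F Xe v - lin3 v‖ ≤ 1 / 100000 * ‖v‖ := by
  set T : Pl → Pl := fun Y => Y + rh1_I (X - F Y) with hT
  have hsub : Metric.closedBall (0 : Pl) ρe ⊆ Metric.closedBall (0 : Pl) ρ0 :=
    Metric.closedBall_subset_closedBall hρ0.le
  have hTd : ∀ Y ∈ Metric.closedBall (0 : Pl) ρe, ∀ Z ∈ Metric.closedBall (0 : Pl) ρe,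
      ‖T Y - T Z‖ ≤ 1 / 100 * ‖Y - Z‖ := by
    intro Y hY Z hZ
    have e : T Y - T Z = - rh1_I (F Y - F Z - lin3 (Y - Z)) := by
      have e1 : rh1_I (F Y - F Z - lin3 (Y - Z)) = rh1_I (F Y) - rh1_I (F Z) - (Y - Z) := by
        rw [rh1_I_sub, rh1_I_sub, rh1_I_lin]
      simp only [hT]
      rw [e1, rh1_I_sub, rh1_I_sub]
      abel
    rw [e, norm_neg]
    have h1 := rh1_I_norm (F Y - F Z - lin3 (Y - Z))
    have h2 := hl Y (hsub hY) Z (hsub hZ)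
    have h3 := norm_nonneg (Y - Z)
    linarith
  have h00 : (0 : Pl) ∈ Metric.closedBall (0 : Pl) ρe := Metric.mem_closedBall_self hρ.le
  have hT0 : ‖T 0‖ ≤ 764 * (ρe / 2000) := by
    simp only [hT, zero_add]
    have h1 := rh1_I_norm (X - F 0)
    have h2 : ‖X - F 0‖ ≤ ‖X - Xcp‖ + ‖F 0 - Xcp‖ := by
      have := norm_sub_le (X - Xcp) (F 0 - Xcp)
      simpa using this
    linarith
  have hmaps : MapsTo T (Metric.closedBall (0 : Pl) ρe) (Metric.closedBall (0 : Pl) ρe) := by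
    intro Y hY
    have h1 := hTd Y hY 0 h00
    rw [mem_closedBall_zero_iff] at hY ⊢
    rw [sub_zero] at h1
    have h2 : ‖T Y‖ ≤ ‖T Y - T 0‖ + ‖T 0‖ := by
      have := norm_add_le (T Y - T 0) (T 0)
      simpa using this
    linarith
  have hcon : ContractingWith (1 / 100 : NNReal) (hmaps.restrict T _ _) := by
    refine ⟨by rw [div_lt_one (by norm_num)]; norm_num, LipschitzWith.of_dist_le_mul ?_⟩
    intro Y Z
    have h1 := hTd Y.1 Y.2 Z.1 Z.2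
    rw [Subtype.dist_eq, Subtype.dist_eq, dist_eq_norm, dist_eq_norm]
    simpa using h1
  obtain ⟨Xe, hXe, hfix, _⟩ := ContractingWith.exists_fixedPoint'
    (Metric.isClosed_closedBall.isComplete) hmaps hcon h00 (edist_ne_top _ _)
  have hXe0 : ‖Xe‖ ≤ ρe := by rwa [mem_closedBall_zero_iff] at hXe
  have hXb : Xe ∈ Metric.ball (0 : Pl) ρ0 := by
    rw [mem_ball_zero_iff]; linarith
  have hFX : F Xe = X := by
    have h1 : Xe + rh1_I (X - F Xe) = Xe := hfix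
    have h2 : rh1_I (X - F Xe) = 0 := by
      have := congrArg (fun z => z - Xe) h1
      simpa using this
    have h3 := rh1_lin_I (X - F Xe)
    rw [h2] at h3
    have h4 : lin3 (0 : Pl) = 0 := by ext <;> simp [lin3]
    rw [h4] at h3
    exact (sub_eq_zero.mp h3.symm).symm
  have hcd : ContDiffAt ℝ 2 F Xe := hF.contDiffAt (Metric.isOpen_ball.mem_nhds hXb)
  refine ⟨Xe, hXe, hFX, hcd, fun v => ?_⟩
  have hdF : HasFDerivAt (fun Y => F Y - rh1_L Y) (fderiv ℝ F Xe - rh1_L) Xe :=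
    (hcd.differentiableAt (by norm_num)).hasFDerivAt.sub rh1_L.hasFDerivAt
  have hlip : LipschitzOnWith (1 / 100000 : NNReal) (fun Y => F Y - rh1_L Y)
      (Metric.ball (0 : Pl) ρ0) := by
    refine LipschitzOnWith.of_dist_le_mul fun Y hY Z hZ => ?_
    have h1 := hl Y (Metric.ball_subset_closedBall hY) Z (Metric.ball_subset_closedBall hZ)
    rw [dist_eq_norm, dist_eq_norm]
    have e : F Y - rh1_L Y - (F Z - rh1_L Z) = F Y - F Z - lin3 (Y - Z) := by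
      rw [← rh1_L_apply, map_sub]; abel
    rw [e]
    simpa using h1
  have hn := hdF.le_of_lipschitzOn (Metric.isOpen_ball.mem_nhds hXb) hlip
  have h5 := (fderiv ℝ F Xe - rh1_L).le_opNorm v
  rw [← rh1_L_apply]
  refine le_trans h5 (mul_le_mul_of_nonneg_right ?_ (norm_nonneg _))
  simpa using hn


end

end Pool.Agent.HS

namespace Pool.Agent.HS
open Set Filter Topology
open scoped ContDiff

theorem tzeroV_comp {V V' : Set Pl} {g0 : Pl × ℝ → ℂ} {X Xe : Pl} {τe : ℝ} {F : Pl → Pl}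
    (h : TZeroV V' g0 X τe) (hF : ContDiffAt ℝ 2 F Xe) (hX : F Xe = X)
    (hV : ∀ v ∈ V, fderiv ℝ F Xe v ∈ V') :
    TZeroV V (fun q => g0 (F q.1, q.2)) Xe τe :=
  @Pool.Agent.HS.tzeroV_comp_pr V V' g0 X Xe τe F h hF hX hV

end Pool.Agent.HS

namespace Pool.Agent.HS
open Set Filter Topology
open scoped ContDiff

theorem reach3 {F : Pl → Pl} {ρ0 ρe d : ℝ} (hρ : 0 < ρe) (hρ0 : ρe < ρ0)
    (hF : ContDiffOn ℝ 2 F (Metric.ball 0 ρ0))
    (hl : ∀ X ∈ Metric.closedBall (0 : Pl) ρ0, ∀ Y ∈ Metric.closedBall (0 : Pl) ρ0,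
      ‖F X - F Y - lin3 (X - Y)‖ ≤ 1 / 100000 * ‖X - Y‖) (h0 : ‖F 0 - Xcp‖ ≤ d)
    (hd : d ≤ ρe / 4000) (X : Pl) (hX : ‖X - Xcp‖ ≤ ρe / 4000) :
    ∃ Xe ∈ Metric.closedBall (0 : Pl) ρe, F Xe = X ∧ ContDiffAt ℝ 2 F Xe ∧
      ∀ v : Pl, ‖fderiv ℝ F Xe v - lin3 v‖ ≤ 1 / 100000 * ‖v‖ :=
  @Pool.Agent.HS.reach3_pr F ρ0 ρe d hρ hρ0 hF hl h0 hd X hX

end Pool.Agent.HS
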