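import Pool.Agent.Lib_helper60.HSF.D_WR
import Pool.Agent.Lib_helper60.HSF.Z_RH1
import Pool.Agent.Lib_helper60.HSF.Z_RA
import Pool.Agent.Lib_helper60.HSF.Z_QA1

/-!
# Project HS, block RH2: from `Corn` to the two classes of `Sup4`
-/

namespace Pool.Agent.HS

noncomputable section

open Set Filter Topology
open scoped ContDiff

theorem rh2_conv {i' : Fin 2} {g0 : Pl × ℝ → ℂ} {Xe : Pl} {τe h : ℝ}
    (hz : TZeroV {v | ∃ m ∈ Icc (slo i') (shi i'), v = ((1 : ℝ), m)} g0 Xe τe) :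
    TZero i' g0 Xe τe h := by
  obtain ⟨h0, ex, ez, eτ, Q, h', hh', hQ, hV⟩ := hz
  refine ⟨h0, ex, ez, eτ, ⟨Q, h', hh', hQ⟩, ?_⟩
  intro m hm
  have := hV (1, m) ⟨m, hm, rfl⟩
  simpa using this

theorem rh2_congr {V : Set Pl} {g0 g1 : Pl × ℝ → ℂ} {X : Pl} {τe : ℝ} (c : ℂ) (hc : c ≠ 0)
    (h : TZeroV V g0 X τe) {r : ℝ} (hr : 0 < r)
    (he : ∀ Y ∈ Metric.closedBall X r, ∀ t ∈ Icc (τe - r) (τe + r), g1 (Y, t) = c * g0 (Y, t)) :
    TZeroV V g1 X τe := by
  obtain ⟨h0, ex, ez, eτ, Q, h', hh', hQ, hV⟩ := h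
  have hX : g1 (X, τe) = c * g0 (X, τe) :=
    he X (Metric.mem_closedBall_self hr.le) τe ⟨by linarith, by linarith⟩
  refine ⟨by rw [hX, h0, mul_zero], c * ex, c * ez, c * eτ, ‖c‖ * Q, min r h', lt_min hr hh',
    ?_, ?_⟩
  · intro Y hY t ht
    have hY1 : Y ∈ Metric.closedBall X r :=
      Metric.closedBall_subset_closedBall (min_le_left _ _) hY
    have hY2 : Y ∈ Metric.closedBall X h' :=
      Metric.closedBall_subset_closedBall (min_le_right _ _) hY
    have ht1 : t ∈ Icc (τe - r) (τe + r) :=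
      ⟨by linarith [ht.1, min_le_left r h'], by linarith [ht.2, min_le_left r h']⟩
    have ht2 : t ∈ Icc (τe - h') (τe + h') :=
      ⟨by linarith [ht.1, min_le_right r h'], by linarith [ht.2, min_le_right r h']⟩
    rw [hX, he Y hY1 t ht1]
    have e1 : c * g0 (Y, t) - c * g0 (X, τe) -
        ((Y.1 - X.1 : ℝ) * (c * ex) + (Y.2 - X.2 : ℝ) * (c * ez) + (t - τe : ℝ) * (c * eτ)) =
        c * (g0 (Y, t) - g0 (X, τe) -
          ((Y.1 - X.1 : ℝ) * ex + (Y.2 - X.2 : ℝ) * ez + (t - τe : ℝ) * eτ)) := by ring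
    rw [e1, norm_mul, mul_assoc]
    exact mul_le_mul_of_nonneg_left (hQ Y hY2 t ht2) (norm_nonneg _)
  · intro v hv
    have h1 := hV v hv
    have e2 : (starRingEnd ℂ) (c * eτ) * ((v.1 : ℂ) * (c * ex) + (v.2 : ℂ) * (c * ez)) =
        ((Complex.normSq c : ℝ) : ℂ) *
          ((starRingEnd ℂ) eτ * ((v.1 : ℂ) * ex + (v.2 : ℂ) * ez)) := by
      rw [map_mul, ← Complex.mul_conj]
      ring
    rw [e2, Complex.im_ofReal_mul]
    exact mul_ne_zero (by rwa [Ne, Complex.normSq_eq_zero]) h1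

theorem rh2_cot (V : Set Pl) (b : Pl → ℝ) (X : Pl) (hb : ContDiffAt ℝ 2 b X) (h0 : b X = 0)
    (hd : ∀ v ∈ V, fderiv ℝ b X v ≠ 0) :
    TZeroV V (fun q => (b q.1 : ℂ) + (q.2 : ℂ) * Complex.I) X 0 := by
  have hbase : TZeroV {v : Pl | v.1 ≠ 0} (fun q : Pl × ℝ => (q.1.1 : ℂ) + (q.2 : ℂ) * Complex.I)
      (0, 0) 0 := by
    refine ⟨by simp, 1, 0, Complex.I, 0, 1, one_pos, ?_, ?_⟩
    · intro Y _ t _
      have : ((Y.1 : ℂ) + (t : ℂ) * Complex.I) - (((0 : ℝ) : ℂ) + ((0 : ℝ) : ℂ) * Complex.I) -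
          ((Y.1 - 0 : ℝ) * 1 + (Y.2 - 0 : ℝ) * 0 + (t - 0 : ℝ) * Complex.I) = (0 : ℂ) := by
        push_cast
        ring
      simp only [] at this ⊢
      rw [this]
      simp
    · intro v hv
      have hv' : v.1 ≠ 0 := hv
      simpa using hv'
  have hbd : DifferentiableAt ℝ b X := hb.differentiableAt (by norm_num)
  have hF : HasFDerivAt (fun Y : Pl => ((b Y, 0) : Pl)) ((fderiv ℝ b X).prod 0) X :=
    hbd.hasFDerivAt.prodMk (hasFDerivAt_const (0 : ℝ) X)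
  have := tzeroV_comp (V := V) (F := fun Y : Pl => ((b Y, 0) : Pl)) (Xe := X) hbase
    (hb.prodMk contDiffAt_const) (by simp [h0]) (by
      intro v hv
      rw [hF.fderiv]
      simpa using hd v hv)
  simpa using this

/-- the half angle is in `(0, π)` -/
theorem rh2_half (side : Bool) {χf χv : ℝ} (hf : |χf + Real.pi / 2| ≤ 1 / 100)
    (hv : (if side then Real.pi / 2 else 0) - 1 / 100 ≤ χv)
    (hv' : χv ≤ (if side then Real.pi else Real.pi / 2) + 1 / 100) :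
    0 < (χv - χf) / 2 ∧ (χv - χf) / 2 < Real.pi := by
  have hp := Real.pi_gt_three
  have h1 := abs_le.1 hf
  have h2 : (0 : ℝ) - 1 / 100 ≤ χv := by
    cases side <;> simp at hv ⊢ <;> linarith
  have h3 : χv ≤ Real.pi + 1 / 100 := by
    cases side <;> simp at hv' ⊢ <;> linarith
  constructor <;> linarith [h1.1, h1.2]

/-- the impact parameter of the corner, as a function of the centre -/
theorem rh2_b {C : ℝ} (hC : 0 < C ∧ C ≤ 1) {X : Pl} {h1 : ℝ} (hh1 : 0 < h1)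
    (hcd : Metric.closedBall X h1 ⊆ CD C) {χ1 χ2 : Pl → ℝ} (h1' : ContDiffAt ℝ 2 χ1 X)
    (h2' : ContDiffAt ℝ 2 χ2 X) (hc : Real.cos ((χ2 X - χ1 X) / 2) = 0)
    {V : Set Pl} (hV : ∀ v ∈ V, fderiv ℝ χ2 X v - fderiv ℝ χ1 X v ≠ 0) :
    TZeroV V (fun q => (cB0 C (TL χ1) (TL χ2) q.1 : ℂ) + (q.2 : ℂ) * Complex.I) X 0 := by
  have hXi : X ∈ interior (CD C) := by
    refine mem_interior_iff_mem_nhds.2 (Filter.mem_of_superset (Metric.closedBall_mem_nhds X hh1) hcd)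
  have hXC : X ∈ CD C := interior_subset hXi
  have hk0 : (1 : ℝ) ≤ kap0 C (chart C X) := (cd_facts hC hXC).2.1
  have hs : Real.sin ((χ2 X - χ1 X) / 2) ≠ 0 := by
    intro hs
    have := Real.sin_sq_add_cos_sq ((χ2 X - χ1 X) / 2)
    rw [hs, hc] at this
    norm_num at this
  -- smoothness of the relative speed
  have hkap : ContDiffAt ℝ 2 (fun Y : Pl => kap0 C (chart C Y)) X := by
    have h3 := (cd_smooth hC).2.2.1
    have h4 : ContDiffAt ℝ ∞ (fun p : Pl × ℝ => limD C p.1 p.2) (X, (0 : ℝ)) := by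
      refine h3.contDiffAt ?_
      have : IsOpen {p : Pl × ℝ | p.1 ∈ interior (CD C)} :=
        isOpen_interior.preimage continuous_fst
      exact this.mem_nhds hXi
    have h5 : ContDiffAt ℝ ∞ (fun Y : Pl => limD C Y 0) X :=
      h4.comp X (contDiffAt_id.prodMk contDiffAt_const)
    have h6 : ContDiffAt ℝ ∞ (fun Y : Pl => (limD C Y 0).2.2.1) X := h5.snd.snd.fst
    exact h6.of_le (by norm_cast)
  have hdiff : ContDiffAt ℝ 2 (fun Y : Pl => (χ2 Y - χ1 Y) / 2) X := (h2'.sub h1').div_const 2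
  have hb : ContDiffAt ℝ 2 (fun Y : Pl => cB0 C (TL χ1) (TL χ2) Y) X := by
    have e : (fun Y : Pl => cB0 C (TL χ1) (TL χ2) Y) = fun Y =>
        Real.cos ((χ2 Y - χ1 Y) / 2) / Real.sin ((χ2 Y - χ1 Y) / 2) / kap0 C (chart C Y) := rfl
    rw [e]
    exact (hdiff.cos.div hdiff.sin hs).div hkap (by linarith)
  refine rh2_cot V _ X hb ?_ ?_
  · show Real.cos ((χ2 X - χ1 X) / 2) / Real.sin ((χ2 X - χ1 X) / 2) / kap0 C (chart C X) = 0
    rw [hc]
    simp
  · intro v hv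
    have hv' := hV v hv
    have hd2 : HasFDerivAt χ2 (fderiv ℝ χ2 X) X := (h2'.differentiableAt (by norm_num)).hasFDerivAt
    have hd1 : HasFDerivAt χ1 (fderiv ℝ χ1 X) X := (h1'.differentiableAt (by norm_num)).hasFDerivAt
    have hdk : HasFDerivAt (fun Y : Pl => kap0 C (chart C Y))
      (fderiv ℝ (fun Y : Pl => kap0 C (chart C Y)) X) X :=
      (hkap.differentiableAt (by norm_num)).hasFDerivAt
    -- derivative along the line `X + t v`
    have hl : HasDerivAt (fun t : ℝ => X + t • v) v 0 := by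
      have := ((hasDerivAt_id (0 : ℝ)).smul_const v).const_add X
      simpa using this
    have hX0 : X + (0 : ℝ) • v = X := by simp
    have c2 : HasDerivAt (fun t : ℝ => χ2 (X + t • v)) (fderiv ℝ χ2 X v) 0 := by
      have hh : HasFDerivAt χ2 (fderiv ℝ χ2 X) (X + (0 : ℝ) • v) := by rw [hX0]; exact hd2
      exact hh.comp_hasDerivAt 0 hl
    have c1 : HasDerivAt (fun t : ℝ => χ1 (X + t • v)) (fderiv ℝ χ1 X v) 0 := by
      have hh : HasFDerivAt χ1 (fderiv ℝ χ1 X) (X + (0 : ℝ) • v) := by rw [hX0]; exact hd1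
      exact hh.comp_hasDerivAt 0 hl
    have ck : HasDerivAt (fun t : ℝ => kap0 C (chart C (X + t • v)))
        (fderiv ℝ (fun Y : Pl => kap0 C (chart C Y)) X v) 0 := by
      have hh : HasFDerivAt (fun Y : Pl => kap0 C (chart C Y))
        (fderiv ℝ (fun Y : Pl => kap0 C (chart C Y)) X) (X + (0 : ℝ) • v) := by rw [hX0]; exact hdk
      exact hh.comp_hasDerivAt 0 hl
    have cb : HasDerivAt (fun t : ℝ => cB0 C (TL χ1) (TL χ2) (X + t • v))
        (fderiv ℝ (fun Y : Pl => cB0 C (TL χ1) (TL χ2) Y) X v) 0 := by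
      have hh : HasFDerivAt (fun Y : Pl => cB0 C (TL χ1) (TL χ2) Y)
        (fderiv ℝ (fun Y : Pl => cB0 C (TL χ1) (TL χ2) Y) X) (X + (0 : ℝ) • v) := by
        rw [hX0]; exact (hb.differentiableAt (by norm_num)).hasFDerivAt
      exact hh.comp_hasDerivAt 0 hl
    have cu : HasDerivAt (fun t : ℝ => (χ2 (X + t • v) - χ1 (X + t • v)) / 2)
        ((fderiv ℝ χ2 X v - fderiv ℝ χ1 X v) / 2) 0 := (c2.sub c1).div_const 2
    have cb' := ((cu.cos.div cu.sin (by rw [hX0]; exact hs)).div ck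
      (by rw [hX0]; linarith))
    have e := cb.unique cb'
    rw [e]
    simp only [Pi.div_apply, hX0, hc]
    have hk : kap0 C (chart C X) ≠ 0 := by linarith
    intro h0
    apply hv'
    have hs2 : Real.sin ((χ2 X - χ1 X) / 2) ^ 2 = 1 := by
      have := Real.sin_sq_add_cos_sq ((χ2 X - χ1 X) / 2)
      rw [hc] at this
      linarith
    simp only [zero_div, zero_mul, sub_zero, mul_zero] at h0
    field_simp at h0
    have h0' : (fderiv ℝ χ1 X) v - (fderiv ℝ χ2 X) v = 0 := by simpa using h0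
    linarith

theorem sup4_of_corn_pr {C ρc ρe : ℝ} (hC : 0 < C ∧ C ≤ 1) (side out : Bool) {lam : ℝ} {υ : ℂ}
    (hlam : 0 ≤ lam) (h : Corn C ρc side lam υ) (Fp : Pl → Pl) (good : Pl → Prop)
    (hρ : ρc ≤ ρe)
    (hF : ∀ X ∈ Metric.closedBall (vS side) ρc, ∃ Xe ∈ Metric.closedBall (0 : Pl) ρe,
      Fp Xe = X ∧ good Xe ∧ ContDiffAt ℝ 2 Fp Xe ∧
      ∀ i' : Fin 2, ∀ m ∈ Icc (slo i') (shi i'), fderiv ℝ Fp Xe (1, m) ∈ dcone side i') :
    Sup4 C ρe side out Fp good lam (if out then υ else Complex.I * υ) := by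
  obtain ⟨X, h1, χf, χv, τf, τv, if_, iv, ϖe, he, n, τm, i', hX, hh1, hhe, hn, hcf, hcv, hRf,
    hSf, hRv, hSv, hdir, hϖ, hϖ2, hTZ, hB, hm⟩ := h
  obtain ⟨Xe, hXe, hFX, hgood, hFc, hFd⟩ := hF X hX
  have hXself : X ∈ Metric.closedBall X h1 := Metric.mem_closedBall_self hh1.le
  have hcd : Metric.closedBall X h1 ⊆ CD C := fun Y hY => (hRv.cd Y hY).1
  have hkap : ∀ Y ∈ Metric.closedBall X h1, 0 < kap0 C (chart C Y) := fun Y hY =>
    lt_of_lt_of_le one_pos (cd_facts hC (hcd hY)).2.1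
  have hhalf : ∀ Y ∈ Metric.closedBall X h1, 0 < (χv Y - χf Y) / 2 ∧ (χv Y - χf Y) / 2 < Real.pi :=
    fun Y hY => rh2_half side (hdir Y hY).1 (hdir Y hY).2.1 (hdir Y hY).2.2
  have hsin : ∀ Y ∈ Metric.closedBall X h1, 0 < Real.sin ((χv Y - χf Y) / 2) := fun Y hY =>
    Real.sin_pos_of_pos_of_lt_pi (hhalf Y hY).1 (hhalf Y hY).2
  have hϖe : 0 < ϖe := by linarith
  -- composition with the preceding word
  have hV : ∀ v ∈ {v : Pl | ∃ m ∈ Icc (slo i') (shi i'), v = ((1 : ℝ), m)},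
      fderiv ℝ Fp Xe v ∈ dcone side i' := by
    rintro v ⟨m, hm, rfl⟩
    exact hFd i' m hm
  have hcomp : ∀ {g0 : Pl × ℝ → ℂ} {τe h : ℝ}, TZeroV (dcone side i') g0 X τe →
      TZero i' (fun q => g0 (Fp q.1, q.2)) Xe τe h := fun hz =>
    rh2_conv (tzeroV_comp hz hFc hFX hV)
  -- the event function
  have hr : 0 < min h1 (ϖe / 2) := lt_min hh1 (by linarith)
  have hball : ∀ Y ∈ Metric.closedBall X (min h1 (ϖe / 2)), Y ∈ Metric.closedBall X h1 :=
    fun Y hY => Metric.closedBall_subset_closedBall (min_le_left _ _) hY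
  have hpos : ∀ t ∈ Icc (ϖe - min h1 (ϖe / 2)) (ϖe + min h1 (ϖe / 2)), 0 < t := fun t ht => by
    linarith [ht.1, min_le_right h1 (ϖe / 2)]
  have hTU : TZeroV (dcone side i') (cornerU C (TL χf) (TL χv) lam υ) X ϖe := by
    refine rh2_congr 1 one_ne_zero hTZ hr ?_
    intro Y hY t ht
    rw [one_mul]
    exact (corner_eq (hkap Y (hball Y hY)) (hsin Y (hball Y hY)) (hpos t ht)).1
  have hTL : TZeroV (dcone side i') (cornerL C (TL χv) (TL χf) lam (Complex.I * υ)) X ϖe := by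
    refine rh2_congr Complex.I Complex.I_ne_zero hTZ hr ?_
    intro Y hY t ht
    exact (corner_eq (hkap Y (hball Y hY)) (hsin Y (hball Y hY)) (hpos t ht)).2
  -- marks
  have hm' : ∀ j, TIso i' (fun q => (Zd iv (limD C (Fp q.1) (χv (Fp q.1))) q.2).1) Xe (τm j) he := by
    intro j
    refine ⟨hcomp (g0 := fun q => (Zd iv (limD C q.1 (χv q.1)) q.2).1) (hm j).1, ?_⟩
    intro t ht hne
    have := (hm j).2 t ht hne
    simpa [hFX] using this
  have hS0 : SunW C if_ (Metric.closedBall X h1) χf τf he 0 (fun j => j.elim0) := by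
    refine ⟨fun j => j.elim0, ?_⟩
    intro Y hY τ hτ _
    exact hSf Y hY τ hτ
  have hXb : X ∈ Metric.closedBall (if side then Xcp else 0) ρe := by
    have : vS side = (if side then Xcp else 0) := rfl
    rw [← this]
    exact Metric.closedBall_subset_closedBall hρ hX
  -- the choice of the mark `β = 0`
  have key : ∀ χ1 χ2 : Pl → ℝ, ContDiffAt ℝ 2 χ1 X → ContDiffAt ℝ 2 χ2 X →
      (∀ Y, Real.cos ((χ2 Y - χ1 Y) / 2) = Real.cos ((χv Y - χf Y) / 2)) →
      (∀ Y, |Real.sin ((χ2 Y - χ1 Y) / 2)| = |Real.sin ((χv Y - χf Y) / 2)|) →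
      (∀ v, fderiv ℝ χv X v - fderiv ℝ χf X v ≠ 0 → fderiv ℝ χ2 X v - fderiv ℝ χ1 X v ≠ 0) →
      ∃ nB : ℕ, nB ≤ 1 ∧
        ((nB = 0 ∧ ∀ Y ∈ Metric.closedBall X h1, cB0 C (TL χ1) (TL χ2) Y ≠ 0) ∨ nB = 1) ∧
        (nB = 1 →
          TIso i' (fun q => (cB0 C (TL χ1) (TL χ2) (Fp q.1) : ℂ) + q.2 * Complex.I) Xe 0 he) := by
    intro χ1 χ2 hc1 hc2 hcos hsn hfd
    rcases hB with hB | ⟨hB, hBv⟩
    · refine ⟨0, by norm_num, Or.inl ⟨rfl, ?_⟩, by norm_num⟩
      intro Y hY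
      show Real.cos ((χ2 Y - χ1 Y) / 2) / Real.sin ((χ2 Y - χ1 Y) / 2) / kap0 C (chart C Y) ≠ 0
      have hc : Real.cos ((χv Y - χf Y) / 2) ≠ 0 := by
        intro hc0
        apply hB Y hY
        have e1 : Real.cos ((χv Y - χf Y) / 2) = Real.cos (Real.pi / 2) := by
          rw [hc0, Real.cos_pi_div_two]
        have e2 := Real.injOn_cos ⟨(hhalf Y hY).1.le, (hhalf Y hY).2.le⟩
          ⟨by positivity, by linarith [Real.pi_pos]⟩ e1
        linarith
      have hs : Real.sin ((χ2 Y - χ1 Y) / 2) ≠ 0 := by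
        intro hs0
        have := hsn Y
        rw [hs0, abs_zero, eq_comm, abs_eq_zero] at this
        exact (hsin Y hY).ne' this
      rw [hcos Y]
      exact div_ne_zero (div_ne_zero hc hs) (hkap Y hY).ne'
    · refine ⟨1, le_rfl, Or.inr rfl, fun _ => ?_⟩
      have hc : Real.cos ((χ2 X - χ1 X) / 2) = 0 := by
        rw [hcos X, hB, Real.cos_pi_div_two]
      have hz := rh2_b hC hh1 hcd hc1 hc2 hc (V := dcone side i')
        (fun v hv => hfd v (hBv v hv))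
      refine ⟨hcomp (g0 := fun q => (cB0 C (TL χ1) (TL χ2) q.1 : ℂ) + (q.2 : ℂ) * Complex.I) hz,
        ?_⟩
      intro t _ ht h0
      apply ht
      have := congrArg Complex.im h0
      simpa using this
  cases out
  · -- incoming leg: arc 1 has the variable direction
    obtain ⟨nB, hnB, hnB1, hnB2⟩ := key χv χf hcv hcf
      (fun Y => by rw [← Real.cos_neg]; congr 1; ring)
      (fun Y => by rw [← abs_neg, ← Real.sin_neg]; congr 2; ring)
      (fun v hv h0 => hv (by linarith))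
    refine ⟨Xe, X, h1, χv, χf, τv, τf, iv, if_, ϖe, he, n, 0, nB, τm, fun j => j.elim0, i',
      hXe, hFX, hgood, hXb, hh1, hhe, by omega, hRv, hRf, ?_, hSv, hS0, hϖ, hϖ2, hnB1, ?_, hnB2,
      hm', fun j => j.elim0⟩
    · intro Y hY
      have h2 := hdir Y hY
      simp only [Bool.false_eq_true, if_false]
      exact ⟨by simpa using h2.1, h2.2.1, h2.2.2⟩
    · simp only [Bool.false_eq_true, if_false]
      exact hcomp (g0 := cornerL C (TL χv) (TL χf) lam (Complex.I * υ)) hTL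
  · -- outgoing leg
    obtain ⟨nB, hnB, hnB1, hnB2⟩ := key χf χv hcf hcv (fun Y => rfl) (fun Y => rfl)
      (fun v hv => hv)
    refine ⟨Xe, X, h1, χf, χv, τf, τv, if_, iv, ϖe, he, 0, n, nB, fun j => j.elim0, τm, i',
      hXe, hFX, hgood, hXb, hh1, hhe, by omega, hRf, hRv, ?_, hS0, hSv, hϖ, hϖ2, hnB1, ?_, hnB2,
      fun j => j.elim0, hm'⟩
    · intro Y hY
      have h2 := hdir Y hY
      simp only [if_true]
      exact ⟨by simpa using h2.1, h2.2.1, h2.2.2⟩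
    · simp only [if_true]
      exact hcomp (g0 := cornerU C (TL χf) (TL χv) lam υ) hTU

end

end Pool.Agent.HS

namespace Pool.Agent.HS
open Set Filter Topology
open scoped ContDiff

theorem sup4_of_corn {C ρc ρe : ℝ} (hC : 0 < C ∧ C ≤ 1) (side out : Bool) {lam : ℝ} {υ : ℂ}
    (hlam : 0 ≤ lam) (h : Corn C ρc side lam υ) (Fp : Pl → Pl) (good : Pl → Prop)
    (hρ : ρc ≤ ρe)
    (hF : ∀ X ∈ Metric.closedBall (vS side) ρc, ∃ Xe ∈ Metric.closedBall (0 : Pl) ρe,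
      Fp Xe = X ∧ good Xe ∧ ContDiffAt ℝ 2 Fp Xe ∧
      ∀ i' : Fin 2, ∀ m ∈ Icc (slo i') (shi i'), fderiv ℝ Fp Xe (1, m) ∈ dcone side i') :
    Sup4 C ρe side out Fp good lam (if out then υ else Complex.I * υ) :=
  @Pool.Agent.HS.sup4_of_corn_pr C ρc ρe hC side out lam υ hlam h Fp good hρ hF

end Pool.Agent.HS
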