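import Pool.Agent.Lib_helper60.HSF.D_WR
import Pool.Agent.Lib_helper60.HSF.M_MZ
import Pool.Agent.Lib_helper60.HSF.Z_LG
import Pool.Agent.Lib_helper60.HSF.Z_LH
import Pool.Agent.Lib_helper60.HSF.Z_RG2
import Pool.Agent.Lib_helper60.HSF.Z_RH2
import Pool.Agent.Lib_helper60.HSF.Z_RH1

/-! HSZ block RI: the supply -/

namespace Pool.Agent.HS

noncomputable section

open Set Filter Topology
open scoped ContDiff

theorem ri_conn_mono {C r ρ : ℝ} (h : ConnSup C r) (hr : ρ ≤ r) : ConnSup C ρ :=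
  ⟨fun X hX => h.1 X (Metric.closedBall_subset_closedBall hr hX),
    fun X hX => h.2 X (Metric.closedBall_subset_closedBall hr hX)⟩

theorem ri_lin (v : Pl) : ‖lin 0 v‖ ≤ 181 * ‖v‖ := by
  have h1 : |v.1| ≤ ‖v‖ := norm_fst_le v
  have h2 : |v.2| ≤ ‖v‖ := norm_snd_le v
  have h1' := abs_le.1 h1
  have h2' := abs_le.1 h2
  have h0 := norm_nonneg v
  simp only [lin, if_true]
  rw [Prod.norm_def]
  refine max_le ?_ ?_
  · rw [Real.norm_eq_abs, abs_le]
    exact ⟨by linarith [h1'.1, h2'.1], by linarith [h1'.2, h2'.2]⟩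
  · rw [Real.norm_eq_abs, abs_le]
    exact ⟨by linarith [h1'.1, h2'.1], by linarith [h1'.2, h2'.2]⟩

theorem ri_slo (i' : Fin 2) {m : ℝ} (hm : m ∈ Icc (slo i') (shi i')) : ‖((1, m) : Pl)‖ ≤ 5 := by
  have h0 : 0 ≤ slo i' := by unfold slo; split_ifs <;> norm_num
  have h1 : shi i' ≤ 5 := by unfold shi; split_ifs <;> norm_num
  rw [Prod.norm_def]
  refine max_le ?_ ?_
  · norm_num
  · rw [Real.norm_eq_abs, abs_le]
    exact ⟨by linarith [hm.1], by linarith [hm.2]⟩

/-- the sector decomposition of the parameter space -/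
theorem ri_sector {p : ℝ × ℂ} (hp : p ∈ P4) : ∃ (side out : Bool) (υ : ℂ),
    max p.1 ‖υ‖ = 1 ∧ 0 ≤ υ.im ∧ 0 ≤ υ.re ∧ (if side then υ.re ≤ υ.im else υ.im ≤ υ.re) ∧
    p.2 = if out then υ else Complex.I * υ := by
  obtain ⟨-, h2, h3⟩ := hp
  by_cases hre : 0 ≤ p.2.re
  · rcases le_total p.2.re p.2.im with h | h
    · exact ⟨true, true, p.2, h3, h2, hre, by simpa using h, by simp⟩
    · exact ⟨false, true, p.2, h3, h2, hre, by simpa using h, by simp⟩
  · push Not at hre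
    set υ : ℂ := -Complex.I * p.2 with hυ
    have e1 : υ.re = p.2.im := by rw [hυ]; simp
    have e2 : υ.im = -p.2.re := by rw [hυ]; simp
    have e3 : ‖υ‖ = ‖p.2‖ := by rw [hυ, norm_mul, norm_neg, Complex.norm_I, one_mul]
    have e4 : p.2 = Complex.I * υ := by
      rw [hυ, ← mul_assoc, mul_neg, Complex.I_mul_I]; ring
    have h4 : 0 ≤ υ.im := by rw [e2]; linarith
    have h5 : 0 ≤ υ.re := by rw [e1]; exact h2
    rcases le_total υ.re υ.im with h | h
    · exact ⟨true, false, υ, by rw [e3]; exact h3, h4, h5, by simpa using h, by simpa using e4⟩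
    · exact ⟨false, false, υ, by rw [e3]; exact h3, h4, h5, by simpa using h, by simpa using e4⟩

theorem supply_exists_pr : ∃ (g : GC) (C0 : ℝ), 0 < C0 ∧ C0 ≤ 1 ∧
    ∀ C, 0 < C → C < C0 → Supply g C := by
  obtain ⟨r, C1, hr, hC1, H1⟩ := z_conn
  obtain ⟨g, hg0, -, hgr, C2, L, hC2, hC2', hL, H2⟩ := z_loops r (1 / 100000) hr (by norm_num)
  have hρs : 0 < g.ρs := by
    have a1 := g.h2
    have a2 := g.h0
    have a3 := g.hs
    linarith
  have hρ0 : 10 * g.ρs ≤ g.ρ0 := g.hρ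
  set ρe : ℝ := g.ρs / 10000 with hρe
  have hρe0 : 0 < ρe := by positivity
  have hρer : ρe ≤ r := by rw [hρe]; linarith
  have hρe1 : ρe < g.ρ0 := by rw [hρe]; linarith
  obtain ⟨C3, hC3, hC3', H3⟩ := supM_exists ρe hρe0
  obtain ⟨C4, hC4, H4⟩ := corn_all (ρe / 4000) (by positivity)
  set C5 : ℝ := ρe / (4000 * (L + 1)) with hC5
  have hC5' : 0 < C5 := by positivity
  refine ⟨g, min (min C1 C2) (min C3 (min C4 C5)),
    lt_min (lt_min hC1 hC2) (lt_min hC3 (lt_min hC4 hC5')),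
    ((min_le_left _ _).trans (min_le_right _ _)).trans hC2', ?_⟩
  intro C hC hCC
  have b1 : C < C1 := hCC.trans_le ((min_le_left _ _).trans (min_le_left _ _))
  have b2 : C < C2 := hCC.trans_le ((min_le_left _ _).trans (min_le_right _ _))
  have b3 : C < C3 := hCC.trans_le ((min_le_right _ _).trans (min_le_left _ _))
  have b4 : C < C4 := hCC.trans_le
    (((min_le_right _ _).trans (min_le_right _ _)).trans (min_le_left _ _))
  have b5 : C < C5 := hCC.trans_le
    (((min_le_right _ _).trans (min_le_right _ _)).trans (min_le_right _ _))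
  have hLC : L * C ≤ ρe / 4000 := by
    have h1 : L * C ≤ (L + 1) * C5 := by nlinarith
    have h2 : (L + 1) * C5 = ρe / 4000 := by
      rw [hC5]; field_simp
    linarith
  obtain ⟨-, Λ, hΛ, hΛn, l, l3, l4, hls, hreg, hlin, a, ha1, ha2⟩ := H2 C hC b2
  refine ⟨Λ, hΛ, hΛn, l, l3, l4, hls, ri_conn_mono (H1 C hC b1) hρer, H3 C hC b3, ?_⟩
  intro p hp
  obtain ⟨side, out, υ, c1, c2, c3, c4, c5⟩ := ri_sector hp
  have hcorn := H4 C hC b4 side p.1 υ hp.1 c1 c2 c3 c4
  refine ⟨side, out, a, ?_⟩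
  have hC1' : 0 < C ∧ C ≤ 1 := ⟨hC, by linarith⟩
  rw [c5]
  refine sup4_of_corn hC1' side out hp.1 hcorn _ _ (by linarith) ?_
  intro X hX
  cases side with
  | false =>
    simp only [Bool.false_eq_true, if_false, false_imp_iff, true_and] at hX ⊢
    have hX' : X ∈ Metric.closedBall (0 : Pl) (ρe / 4000) := by simpa [vS] using hX
    refine ⟨X, Metric.closedBall_subset_closedBall (by linarith) hX', rfl, contDiffAt_id, ?_⟩
    intro i' m hm
    have : fderiv ℝ (fun X : Pl => X) X (1, m) = (1, m) := by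
      rw [fderiv_fun_id]; rfl
    rw [this]
    simp only [dcone, Bool.false_eq_true, if_false]
    exact ⟨m, hm, rfl⟩
  | true =>
    simp only [if_true, true_imp_iff] at hX ⊢
    have hX' : ‖X - Xcp‖ ≤ ρe / 4000 := by
      rw [Metric.mem_closedBall, dist_eq_norm] at hX
      simpa [vS] using hX
    obtain ⟨Xe, hXe, d1, d2, d3⟩ := reach3 hρe0 hρe1 (hreg a) (hlin a) ha1 hLC X hX'
    refine ⟨Xe, hXe, d1, ?_, d2, ?_⟩
    · have hlim := hls.loops.lim 0 a
      rw [hg0] at hlim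
      have hXn : ‖Xe‖ ≤ ρe := by simpa using hXe
      have h1 := hlim.lin Xe (Metric.closedBall_subset_closedBall hρe1.le hXe) 0
        (Metric.mem_closedBall_self (by linarith))
      rw [sub_zero] at h1
      have h2 := ri_lin Xe
      have h3 : ‖(l 0 a).F Xe‖ ≤ ‖(l 0 a).F Xe - (l 0 a).F 0 - lin 0 Xe‖ + ‖lin 0 Xe‖ +
          ‖(l 0 a).F 0‖ := by
        have e : (l 0 a).F Xe = ((l 0 a).F Xe - (l 0 a).F 0 - lin 0 Xe) + lin 0 Xe +
            (l 0 a).F 0 := by abel
        calc ‖(l 0 a).F Xe‖ = ‖((l 0 a).F Xe - (l 0 a).F 0 - lin 0 Xe) + lin 0 Xe +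
            (l 0 a).F 0‖ := by rw [← e]
          _ ≤ _ := (norm_add_le _ _).trans (by gcongr; exact norm_add_le _ _)
      have h4 : ρe = g.ρs / 10000 := hρe
      linarith
    · intro i' m hm
      simp only [dcone, if_true]
      refine ⟨m, hm, (d3 (1, m)).trans ?_⟩
      have := ri_slo i' hm
      linarith

end

end Pool.Agent.HS

namespace Pool.Agent.HS
open Set Filter Topology Classical

theorem supply_exists : ∃ (g : GC) (C0 : ℝ), 0 < C0 ∧ C0 ≤ 1 ∧
    ∀ C, 0 < C → C < C0 → Supply g C :=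
  @Pool.Agent.HS.supply_exists_pr

end Pool.Agent.HS
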